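import Mathlib

/-!
# MP_2c424f_pr, q_c grows linearly: merged library part M01

Concatenation of smaller files (each in its own section), only to save build time.
-/

namespace Pool.Agent.LO
end Pool.Agent.LO

namespace Pool.Agent.LIN
end Pool.Agent.LIN

namespace Pool.Agent.THR
end Pool.Agent.THR

namespace Pool.Agent.COR
end Pool.Agent.COR

namespace Pool.Agent.LC
end Pool.Agent.LC

/-! ### from `Lib_MP_2c424f_cor.KDefs` -/

section

/-!
# Kempe clusters, definitions (MP_2c424f_pr, corners of the free boxes)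

`G` a graph on a finite set `W`, proper `q`-colourings `f : W → Fin q`, colours `i`, `j`.
-/

set_option autoImplicit false

open Finset

namespace Pool.Agent.COR

variable {W : Type} [Fintype W] [DecidableEq W] {q : ℕ}

/-- `f` is a proper colouring of `G` -/
def PrG (G : SimpleGraph W) (f : W → Fin q) : Prop := ∀ x y, G.Adj x y → f x ≠ f y

open scoped Classical in
/-- number of proper colourings with the property `P` -/
noncomputable def cG (G : SimpleGraph W) (P : (W → Fin q) → Prop) : ℝ :=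
  ((univ.filter fun f : W → Fin q => PrG G f ∧ P f).card : ℝ)

/-- `ev` is a parity: neighbours have different parity -/
def Par (G : SimpleGraph W) (ev : W → Prop) : Prop := ∀ x y, G.Adj x y → (ev x ↔ ¬ ev y)

/-- one step inside the set of the sites of colour `i` or `j` -/
def kst (G : SimpleGraph W) (f : W → Fin q) (i j : Fin q) (x y : W) : Prop :=
  G.Adj x y ∧ (f x = i ∨ f x = j) ∧ (f y = i ∨ f y = j)

/-- `x`, `y` are in the same Kempe cluster (every site is related to itself) -/
def kcl (G : SimpleGraph W) (f : W → Fin q) (i j : Fin q) : W → W → Prop :=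
  Relation.ReflTransGen (kst G f i j)

/-- exchange of `i` and `j` on a set of sites -/
def kfl (i j : Fin q) (S : Finset W) (f : W → Fin q) : W → Fin q :=
  fun x => if x ∈ S then Equiv.swap i j (f x) else f x

/-- `S` is a union of clusters -/
def kun (G : SimpleGraph W) (f : W → Fin q) (i j : Fin q) (S : Finset W) : Prop :=
  ∀ x y, kst G f i j x y → (x ∈ S ↔ y ∈ S)

/-- `∑_{a ≠ b} #{f proper : f x = a, x ↔ y in the colours a, b}` -/
noncomputable def WK (q : ℕ) (G : SimpleGraph W) (x y : W) : ℝ :=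
  ∑ a : Fin q, ∑ b ∈ univ.erase a, cG G (fun f : W → Fin q => f x = a ∧ kcl G f a b x y)

end Pool.Agent.COR

end

/-! ### from `Lib_MP_2c424f_cor.K01` -/

section

/-!
# Flipping Kempe clusters, elementary facts (piece K01)

All short.  `kfl` does not change the set `{f ∈ {i,j}}` (`Equiv.swap i j` maps `{i,j}` to itself and fixes the other
colours), hence neither `kst` nor `kcl`.  `PrG_kfl`: for neighbours `x`, `y`: if both colours are in `{i,j}` then
`kst x y`, so both or none is in `S` and `swap` is injective; if exactly one of the two colours is in `{i,j}` it stays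
so; if none is, nothing changes.  `kcl_symm`: `kst` is symmetric.  `kcl_col`: induction over the steps: a step inside the
cluster changes the parity and the colour (both colours are in `{i,j}` and differ by properness).
-/

set_option autoImplicit false

open Finset

namespace Pool.Agent.COR

variable {W : Type} [Fintype W] [DecidableEq W] {q : ℕ}

private theorem K01_swap (i j a : Fin q) : Equiv.swap i j (Equiv.swap i j a) = a :=
  (Equiv.swap i j).symm_apply_apply a

private theorem K01_mem (i j a : Fin q) : (Equiv.swap i j a = i ∨ Equiv.swap i j a = j) ↔ (a = i ∨ a = j) := by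
  have h1 : Equiv.swap i j a = i ↔ a = j := by
    constructor
    · intro h
      have := K01_swap i j a
      rw [h, Equiv.swap_apply_left] at this
      exact this.symm
    · rintro rfl
      exact Equiv.swap_apply_right _ _
  have h2 : Equiv.swap i j a = j ↔ a = i := by
    constructor
    · intro h
      have := K01_swap i j a
      rw [h, Equiv.swap_apply_right] at this
      exact this.symm
    · rintro rfl
      exact Equiv.swap_apply_left _ _
  rw [h1, h2, or_comm]

theorem kfl_kfl (i j : Fin q) (S : Finset W) (f : W → Fin q) : kfl i j S (kfl i j S f) = f := by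
  funext x
  unfold kfl
  by_cases hx : x ∈ S
  · rw [if_pos hx, if_pos hx]
    exact K01_swap i j (f x)
  · rw [if_neg hx, if_neg hx]

theorem kfl_mem (i j : Fin q) (S : Finset W) (f : W → Fin q) (x : W) :
    (kfl i j S f x = i ∨ kfl i j S f x = j) ↔ (f x = i ∨ f x = j) := by
  unfold kfl
  by_cases hx : x ∈ S
  · rw [if_pos hx]
    exact K01_mem i j (f x)
  · rw [if_neg hx]

/-- the other colours do not move -/
theorem kfl_other (i j : Fin q) (S : Finset W) (f : W → Fin q) (x : W) (c : Fin q) (hi : c ≠ i) (hj : c ≠ j) :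
    kfl i j S f x = c ↔ f x = c := by
  unfold kfl
  by_cases hx : x ∈ S
  · rw [if_pos hx, Equiv.swap_apply_def]
    by_cases h1 : f x = i
    · rw [if_pos h1, h1]
      exact ⟨fun h => absurd h.symm hj, fun h => absurd h.symm hi⟩
    · rw [if_neg h1]
      by_cases h2 : f x = j
      · rw [if_pos h2, h2]
        exact ⟨fun h => absurd h.symm hi, fun h => absurd h.symm hj⟩
      · rw [if_neg h2]
  · rw [if_neg hx]

theorem kst_kfl (G : SimpleGraph W) (i j : Fin q) (S : Finset W) (f : W → Fin q) (x y : W) :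
    kst G (kfl i j S f) i j x y ↔ kst G f i j x y := by
  unfold kst
  rw [kfl_mem, kfl_mem]

theorem kst_symm {G : SimpleGraph W} {f : W → Fin q} {i j : Fin q} {x y : W} (h : kst G f i j x y) :
    kst G f i j y x := by
  exact ⟨h.1.symm, h.2.2, h.2.1⟩

theorem kcl_kfl (G : SimpleGraph W) (i j : Fin q) (S : Finset W) (f : W → Fin q) (x y : W) :
    kcl G (kfl i j S f) i j x y ↔ kcl G f i j x y := by
  have h : kst G (kfl i j S f) i j = kst G f i j := by
    funext a b
    exact propext (kst_kfl G i j S f a b)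
  unfold kcl
  rw [h]

theorem kcl_symm {G : SimpleGraph W} {f : W → Fin q} {i j : Fin q} {x y : W} (h : kcl G f i j x y) :
    kcl G f i j y x := by
  induction h with
  | refl => exact Relation.ReflTransGen.refl
  | tail _ h2 ih => exact Relation.ReflTransGen.head (kst_symm h2) ih

theorem kcl_trans {G : SimpleGraph W} {f : W → Fin q} {i j : Fin q} {x y z : W} (h : kcl G f i j x y)
    (h' : kcl G f i j y z) : kcl G f i j x z := by
  exact Relation.ReflTransGen.trans h h'

/-- the order of the two colours is irrelevant -/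
theorem kcl_swap (G : SimpleGraph W) (f : W → Fin q) (i j : Fin q) (x y : W) :
    kcl G f i j x y ↔ kcl G f j i x y := by
  have h : kst G f i j = kst G f j i := by
    funext a b
    unfold kst
    rw [or_comm (a := f a = i), or_comm (a := f b = i)]
  unfold kcl
  rw [h]

theorem kun_kfl (G : SimpleGraph W) (i j : Fin q) (S T : Finset W) (f : W → Fin q) :
    kun G (kfl i j S f) i j T ↔ kun G f i j T := by
  unfold kun
  refine forall_congr' fun x => forall_congr' fun y => ?_
  rw [kst_kfl]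

theorem PrG_kfl {G : SimpleGraph W} {f : W → Fin q} (hf : PrG G f) (i j : Fin q) {S : Finset W}
    (hS : kun G f i j S) : PrG G (kfl i j S f) := by
  intro x y hxy
  have h1 := hf x y hxy
  by_cases hst : kst G f i j x y
  · have h2 := hS x y hst
    unfold kfl
    by_cases hx : x ∈ S
    · rw [if_pos hx, if_pos (h2.1 hx)]
      exact fun h => h1 ((Equiv.swap i j).injective h)
    · rw [if_neg hx, if_neg fun hy => hx (h2.2 hy)]
      exact h1
  · intro h
    have hx := kfl_mem i j S f x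
    have hy := kfl_mem i j S f y
    rw [h] at hx
    have h3 : (f x = i ∨ f x = j) ↔ (f y = i ∨ f y = j) := hx.symm.trans hy
    by_cases h4 : f x = i ∨ f x = j
    · exact hst ⟨hxy, h4, h3.1 h4⟩
    · have h5 : ¬ (f y = i ∨ f y = j) := fun h' => h4 (h3.2 h')
      rw [not_or] at h4 h5
      have h6 := (kfl_other i j S f x (f x) h4.1 h4.2).2 rfl
      have h7 := (kfl_other i j S f y (f y) h5.1 h5.2).2 rfl
      exact h1 (by rw [← h6, ← h7, h])

/-- all points of a cluster have a colour in `{i,j}` if one has -/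
theorem kcl_mem {G : SimpleGraph W} {f : W → Fin q} {i j : Fin q} {x y : W} (h : kcl G f i j x y)
    (hx : f x = i ∨ f x = j) : f y = i ∨ f y = j := by
  induction h with
  | refl => exact hx
  | tail _ h2 _ => exact h2.2.2

/-- parity and colour inside a cluster -/
theorem kcl_col {G : SimpleGraph W} {ev : W → Prop} (hG : Par G ev) {f : W → Fin q} (hf : PrG G f) {i j : Fin q}
    {x y : W} (hx : f x = i ∨ f x = j) (h : kcl G f i j x y) : (ev x ↔ ev y) ↔ f x = f y := by
  induction h with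
  | refl => exact ⟨fun _ => rfl, fun _ => Iff.rfl⟩
  | @tail b c _ h2 ih =>
    have h3 : (ev b ↔ ¬ ev c) := hG b c h2.1
    have h4 : f b ≠ f c := hf b c h2.1
    have h5 : f x = f c ↔ ¬ f x = f b := by
      constructor
      · intro h h'
        exact h4 (h'.symm.trans h)
      · intro h
        rcases hx with h1 | h1 <;> rcases h2.2.1 with h' | h' <;> rcases h2.2.2 with h'' | h'' <;>
          first
          | exact h1.trans h''.symm
          | exact absurd (h1.trans h'.symm) h
          | exact absurd (h'.trans h''.symm) h4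
    rw [h5, ← ih]
    tauto

open scoped Classical in
/-- a set which is defined by a property invariant along the clusters is a union of clusters -/
theorem kun_of {G : SimpleGraph W} {f : W → Fin q} {i j : Fin q} (P : W → Prop)
    (h : ∀ x y, kcl G f i j x y → P x → P y) : kun G f i j (univ.filter P) := by
  intro x y hxy
  simp only [mem_filter, mem_univ, true_and]
  exact ⟨h x y (Relation.ReflTransGen.single hxy), h y x (Relation.ReflTransGen.single (kst_symm hxy))⟩

end Pool.Agent.COR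

end

/-! ### from `Lib_MP_2c424f_cor.K05` -/

section

/-!
# The Harnack inequality (piece K05, (A4) second part)

`v`, `w` neighbours, `y ≠ v, w`, `v` has at most `Δ` neighbours.  Fix `a ≠ b`.  For `f` proper with `f w = a`, `kcl f a b w y`:
* `f v = b`: then `kcl f a b v y`, so `f` is counted in `#{f v = b, kcl f b a v y}`.
* `f v ≠ b` (and `f v ≠ a`): let `S` = union of the `ab`-clusters of the neighbours of `v` which have the colour `b`;
  `g := update (kfl a b S f) v b`.  A neighbour `u` of `v` of colour `b` has the parity of `w` and another colour than `w`, so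
  it is not in the cluster of `w` (`kcl_col`); hence the cluster of `w` (and `y`) does not move.  `g` is proper: `kfl a b S f` is
  proper (`kun_of`) and no neighbour of `v` has the colour `b` in it (a neighbour of colour `a` of `v` is not in `S`, again by
  `kcl_col`: it would be connected with a neighbour of colour `b`, same parity, different colours).  In `g` the site `v`
  (colour `b`) is adjacent to `w` (colour `a`), and the steps of the cluster of `w` are still there (`v` is not one of its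
  points since `f v ∉ {a,b}`), so `kcl g b a v y`, `g v = b`.
  `f` can be recovered from `g`, `f v` (`q` values) and the set of the neighbours of `v` in `S` (`2^Δ` subsets):
  `kfl a b S f = update g v (f v)`, `S` is the union of the clusters of `update g v (f v)` of these neighbours.
So `#{f w = a, kcl f a b w y} ≤ (1 + q 2^Δ) #{f v = b, kcl f b a v y}`; sum over the ordered pairs `(a,b)`.
-/

set_option autoImplicit false

open Finset

namespace Pool.Agent.COR

variable {W : Type} [Fintype W] [DecidableEq W] {q : ℕ}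

open scoped Classical in
/-- the union of the clusters of the sites of a finset -/
private noncomputable def K05S (G : SimpleGraph W) (f : W → Fin q) (a b : Fin q) (U : Finset W) : Finset W :=
  univ.filter fun z => ∃ u ∈ U, kcl G f a b u z

open scoped Classical in
/-- the neighbours of `v` of colour `b` -/
private noncomputable def K05U (G : SimpleGraph W) (f : W → Fin q) (b : Fin q) (v : W) : Finset W :=
  univ.filter fun u => G.Adj v u ∧ f u = b

private theorem K05_memS {G : SimpleGraph W} {f : W → Fin q} {a b : Fin q} {U : Finset W} {z : W} :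
    z ∈ K05S G f a b U ↔ ∃ u ∈ U, kcl G f a b u z := by
  simp [K05S]

private theorem K05_memU {G : SimpleGraph W} {f : W → Fin q} {b : Fin q} {v u : W} :
    u ∈ K05U G f b v ↔ G.Adj v u ∧ f u = b := by
  simp [K05U]

private theorem K05_kun (G : SimpleGraph W) (f : W → Fin q) (a b : Fin q) (U : Finset W) :
    kun G f a b (K05S G f a b U) := by
  intro x y hxy
  rw [K05_memS, K05_memS]
  constructor
  · rintro ⟨u, hu, hc⟩
    exact ⟨u, hu, Relation.ReflTransGen.tail hc hxy⟩
  · rintro ⟨u, hu, hc⟩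
    exact ⟨u, hu, Relation.ReflTransGen.tail hc (kst_symm hxy)⟩

/-- a neighbour of `v` in a cluster of a `b`-coloured neighbour of `v` has the colour `b` -/
private theorem K05_nb {G : SimpleGraph W} {ev : W → Prop} (hG : Par G ev) {f : W → Fin q} (hf : PrG G f)
    {a b : Fin q} {v u : W} (hu : G.Adj v u) (hS : u ∈ K05S G f a b (K05U G f b v)) : f u = b := by
  obtain ⟨u0, hu0, hc⟩ := K05_memS.1 hS
  obtain ⟨hadj, hb⟩ := K05_memU.1 hu0
  have h1 := hG _ _ hadj
  have h2 := hG _ _ hu
  have h3 := (kcl_col hG hf (Or.inr hb) hc).1 (by tauto)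
  rw [← h3, hb]

private theorem K05_fix {a b c : Fin q} (h1 : c ≠ a) (h2 : c ≠ b) : Equiv.swap a b c = c :=
  Equiv.swap_apply_of_ne_of_ne h1 h2

/-- the second map -/
private noncomputable def K05g (G : SimpleGraph W) (a b : Fin q) (v : W) (f : W → Fin q) : W → Fin q :=
  Function.update (kfl a b (K05S G f a b (K05U G f b v)) f) v b

private theorem K05_g_v (G : SimpleGraph W) (a b : Fin q) (v : W) (f : W → Fin q) : K05g G a b v f v = b := by
  simp [K05g]

private theorem K05_g_ne {G : SimpleGraph W} {a b : Fin q} {v : W} {f : W → Fin q} {x : W} (hx : x ≠ v) :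
    K05g G a b v f x = kfl a b (K05S G f a b (K05U G f b v)) f x := by
  simp [K05g, Function.update_of_ne hx]

private theorem K05_nob {G : SimpleGraph W} {ev : W → Prop} (hG : Par G ev) {f : W → Fin q} (hf : PrG G f)
    {a b : Fin q} (hab : a ≠ b) {v u : W} (hu : G.Adj v u) :
    kfl a b (K05S G f a b (K05U G f b v)) f u ≠ b := by
  intro h
  by_cases hS : u ∈ K05S G f a b (K05U G f b v)
  · have h1 := K05_nb hG hf hu hS
    rw [kfl, if_pos hS, h1, Equiv.swap_apply_right] at h
    exact hab h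
  · rw [kfl, if_neg hS] at h
    exact hS (K05_memS.2 ⟨u, K05_memU.2 ⟨hu, h⟩, Relation.ReflTransGen.refl⟩)

private theorem K05_proper {G : SimpleGraph W} {ev : W → Prop} (hG : Par G ev) {f : W → Fin q} (hf : PrG G f)
    {a b : Fin q} (hab : a ≠ b) {v : W} : PrG G (K05g G a b v f) := by
  have hh : PrG G (kfl a b (K05S G f a b (K05U G f b v)) f) := PrG_kfl hf a b (K05_kun G f a b _)
  intro x y hxy
  by_cases hx : x = v
  · subst hx
    have hy : y ≠ x := hxy.ne'
    rw [K05_g_v, K05_g_ne hy]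
    exact (K05_nob hG hf hab hxy).symm
  · by_cases hy : y = v
    · subst hy
      rw [K05_g_v, K05_g_ne hx]
      exact K05_nob hG hf hab hxy.symm
    · rw [K05_g_ne hx, K05_g_ne hy]
      exact hh x y hxy

private theorem K05_conn {G : SimpleGraph W} {ev : W → Prop} (hG : Par G ev) {f : W → Fin q} (hf : PrG G f)
    {a b : Fin q} (hab : a ≠ b) {v w y : W} (hvw : G.Adj v w) (hw : f w = a) (hv : f v ≠ b)
    (hc : kcl G f a b w y) : kcl G (K05g G a b v f) b a v y := by
  have hva : f v ≠ a := fun h => hf _ _ hvw (h.trans hw.symm)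
  have hwv : w ≠ v := hvw.ne'
  have hwS : w ∉ K05S G f a b (K05U G f b v) := by
    intro h
    have := K05_nb hG hf hvw h
    exact hab (hw.symm.trans this)
  have hgw : K05g G a b v f w = a := by
    rw [K05_g_ne hwv, kfl, if_neg hwS, hw]
  have hstep : ∀ x x', kst G f a b x x' → kst G (K05g G a b v f) a b x x' := by
    rintro x x' ⟨h1, h2, h3⟩
    have hx : x ≠ v := by
      rintro rfl
      exact h2.elim hva hv
    have hx' : x' ≠ v := by
      rintro rfl
      exact h3.elim hva hv
    refine ⟨h1, ?_, ?_⟩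
    · rw [K05_g_ne hx]
      exact (kfl_mem a b _ f x).2 h2
    · rw [K05_g_ne hx']
      exact (kfl_mem a b _ f x').2 h3
  have h1 : kcl G (K05g G a b v f) a b w y := Relation.ReflTransGen.mono hstep _ _ hc
  have h2 : kst G (K05g G a b v f) b a v w := ⟨hvw, Or.inl (K05_g_v G a b v f), Or.inr hgw⟩
  exact Relation.ReflTransGen.head h2 ((kcl_swap G _ a b w y).1 h1)

/-- `f` is determined by `g`, `f v` and the set of the neighbours of colour `b` -/
private theorem K05_rec {G : SimpleGraph W} {f : W → Fin q} {a b : Fin q} {v : W} (hva : f v ≠ a) (hv : f v ≠ b) :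
    f = kfl a b (K05S G (Function.update (K05g G a b v f) v (f v)) a b (K05U G f b v))
      (Function.update (K05g G a b v f) v (f v)) := by
  have h1 : Function.update (K05g G a b v f) v (f v) = kfl a b (K05S G f a b (K05U G f b v)) f := by
    funext x
    by_cases hx : x = v
    · subst hx
      rw [Function.update_self, kfl]
      split_ifs
      · exact (K05_fix hva hv).symm
      · rfl
    · rw [Function.update_of_ne hx, K05_g_ne hx]
  rw [h1]
  have h2 : K05S G (kfl a b (K05S G f a b (K05U G f b v)) f) a b (K05U G f b v) =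
      K05S G f a b (K05U G f b v) := by
    ext z
    rw [K05_memS, K05_memS]
    simp only [kcl_kfl]
  rw [h2, kfl_kfl]

open scoped Classical in
private theorem K05_card {G : SimpleGraph W} {ev : W → Prop} (hG : Par G ev) {v w y : W} (hvw : G.Adj v w)
    (Δ : ℕ) (hΔ : (univ.filter fun u => G.Adj v u).card ≤ Δ) {a b : Fin q} (hab : a ≠ b) :
    (univ.filter fun f : W → Fin q => PrG G f ∧ (f w = a ∧ kcl G f a b w y)).card ≤
      (1 + q * 2 ^ Δ) * (univ.filter fun f : W → Fin q => PrG G f ∧ (f v = b ∧ kcl G f b a v y)).card := by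
  set B := univ.filter fun f : W → Fin q => PrG G f ∧ (f v = b ∧ kcl G f b a v y) with hB
  set A := univ.filter fun f : W → Fin q => PrG G f ∧ (f w = a ∧ kcl G f a b w y) with hA
  have hA1 : (A.filter fun f => f v = b).card ≤ B.card := by
    refine card_le_card ?_
    intro f hf
    rw [mem_filter, hA, mem_filter] at hf
    obtain ⟨⟨-, hp, hw, hc⟩, hv⟩ := hf
    rw [hB, mem_filter]
    refine ⟨mem_univ _, hp, hv, ?_⟩
    exact Relation.ReflTransGen.head (⟨hvw, Or.inl hv, Or.inr hw⟩ : kst G f b a v w)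
      ((kcl_swap G _ a b w y).1 hc)
  have hA2 : (A.filter fun f => ¬ f v = b).card ≤
      (B ×ˢ ((univ : Finset (Fin q)) ×ˢ (univ.filter fun u => G.Adj v u).powerset)).card := by
    refine card_le_card_of_injOn (fun f => (K05g G a b v f, (f v, K05U G f b v))) ?_ ?_
    · intro f hf
      rw [mem_coe, mem_filter, hA, mem_filter] at hf
      obtain ⟨⟨-, hp, hw, hc⟩, hv⟩ := hf
      rw [mem_coe, mem_product, mem_product]
      refine ⟨?_, mem_univ _, ?_⟩
      · rw [hB, mem_filter]
        exact ⟨mem_univ _, K05_proper hG hp hab, K05_g_v G a b v f, K05_conn hG hp hab hvw hw hv hc⟩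
      · rw [mem_powerset]
        intro u hu
        rw [mem_filter]
        exact ⟨mem_univ _, (K05_memU.1 hu).1⟩
    · intro f hf f' hf' heq
      rw [mem_coe, mem_filter, hA, mem_filter] at hf hf'
      obtain ⟨⟨-, hp, hw, -⟩, hv⟩ := hf
      obtain ⟨⟨-, hp', hw', -⟩, hv'⟩ := hf'
      have hva : f v ≠ a := fun h => hp _ _ hvw (h.trans hw.symm)
      have hva' : f' v ≠ a := fun h => hp' _ _ hvw (h.trans hw'.symm)
      simp only [Prod.mk.injEq] at heq
      obtain ⟨h1, h2, h3⟩ := heq
      rw [K05_rec hva hv, K05_rec (G := G) hva' hv', h1, h2, h3]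
  rw [card_product, card_product, card_univ, Fintype.card_fin, card_powerset] at hA2
  have h2 : (2 : ℕ) ^ (univ.filter fun u => G.Adj v u).card ≤ 2 ^ Δ := Nat.pow_le_pow_right (by norm_num) hΔ
  have h3 := card_filter_add_card_filter_not (s := A) (fun f => f v = b)
  have h4 : B.card * (q * 2 ^ (univ.filter fun u => G.Adj v u).card) ≤ B.card * (q * 2 ^ Δ) :=
    Nat.mul_le_mul_left _ (Nat.mul_le_mul_left _ h2)
  calc A.card = _ := h3.symm
    _ ≤ B.card + B.card * (q * 2 ^ Δ) := Nat.add_le_add hA1 (hA2.trans h4)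
    _ = (1 + q * 2 ^ Δ) * B.card := by ring

open scoped Classical in
theorem harnack {G : SimpleGraph W} {ev : W → Prop} (hG : Par G ev) {v w y : W} (hvw : G.Adj v w) (hyv : y ≠ v)
    (hyw : y ≠ w) (Δ : ℕ) (hΔ : (univ.filter fun u => G.Adj v u).card ≤ Δ) :
    WK q G w y ≤ (1 + q * 2 ^ Δ) * WK q G v y := by
  have h1 : ∀ a : Fin q, ∀ b ∈ univ.erase a, cG G (fun f : W → Fin q => f w = a ∧ kcl G f a b w y) ≤
      (1 + q * 2 ^ Δ) * cG G (fun f : W → Fin q => f v = b ∧ kcl G f b a v y) := by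
    intro a b hb
    have hab : a ≠ b := (ne_of_mem_erase hb).symm
    have := K05_card hG (y := y) hvw Δ hΔ hab
    have e1 : cG G (fun f : W → Fin q => f w = a ∧ kcl G f a b w y) =
        ((univ.filter fun f : W → Fin q => PrG G f ∧ (f w = a ∧ kcl G f a b w y)).card : ℝ) := by
      unfold cG
      congr!
    have e2 : cG G (fun f : W → Fin q => f v = b ∧ kcl G f b a v y) =
        ((univ.filter fun f : W → Fin q => PrG G f ∧ (f v = b ∧ kcl G f b a v y)).card : ℝ) := by
      unfold cG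
      congr!
    rw [e1, e2]
    exact_mod_cast this
  unfold WK
  refine (sum_le_sum fun a _ => sum_le_sum fun b hb => h1 a b hb).trans ?_
  rw [mul_sum]
  simp only [mul_sum]
  refine le_of_eq ?_
  refine sum_comm' ?_
  intro a b
  simp only [mem_univ, mem_erase, true_and, and_true]
  exact ne_comm

end Pool.Agent.COR

end

/-! ### from `Lib_MP_2c424f_cor.K04` -/

section

/-!
# The two-point function and the Kempe clusters (piece K04, (A4) first part)

For `a ≠ b` and `x`, `y` of the same parity:  `#{f x = a, f y = a} - #{f x = a, f y = b} = #{f x = a, kcl f a b x y}`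
(if `y` is in the cluster of `x` its colour is `a` (`kcl_col`); otherwise flip the `ab`-cluster of `y`, a bijection
between the colourings with `f x = a, f y = a`, not connected, and those with `f x = a, f y = b`, not connected).
For opposite parity: `#{f x = a, f y = b} - #{f x = a, f y = a} = #{f x = a, kcl f a b x y}`.
Sum over the ordered pairs `a ≠ b`: `∑_{a≠b} #{f x = a = f y} = (q-1) #{f x = f y}`,
`∑_{a≠b} #{f x = a, f y = b} = #{f x ≠ f y}`.  `WK_symm`: from the two formulas, or directly.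
-/

set_option autoImplicit false

open Finset

namespace Pool.Agent.COR

variable {W : Type} [Fintype W] [DecidableEq W] {q : ℕ}

private theorem K04_congr {G : SimpleGraph W} {P Q : (W → Fin q) → Prop}
    (h : ∀ f : W → Fin q, PrG G f → (P f ↔ Q f)) : cG G P = cG G Q := by
  classical
  unfold cG
  congr 2
  ext f
  simp only [mem_filter, mem_univ, true_and]
  constructor
  · exact fun hf => ⟨hf.1, (h f hf.1).1 hf.2⟩
  · exact fun hf => ⟨hf.1, (h f hf.1).2 hf.2⟩

private theorem K04_ind (G : SimpleGraph W) (P : (W → Fin q) → Prop) [DecidablePred fun f => PrG G f ∧ P f] :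
    cG G P = ∑ f : W → Fin q, if PrG G f ∧ P f then (1 : ℝ) else 0 := by
  classical
  unfold cG
  rw [Finset.natCast_card_filter]
  refine sum_congr rfl fun f _ => ?_
  by_cases h : PrG G f ∧ P f
  · rw [if_pos h, if_pos h]
  · rw [if_neg h, if_neg h]

private theorem K04_split (G : SimpleGraph W) (P R : (W → Fin q) → Prop) :
    cG G P = cG G (fun f => P f ∧ R f) + cG G (fun f => P f ∧ ¬ R f) := by
  classical
  rw [K04_ind G P, K04_ind G (fun f => P f ∧ R f), K04_ind G (fun f => P f ∧ ¬ R f), ← sum_add_distrib]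
  refine sum_congr rfl fun f _ => ?_
  by_cases h1 : PrG G f <;> by_cases h2 : P f <;> by_cases h3 : R f <;> simp [h1, h2, h3]

/-- splitting according to the value at one site -/
private theorem K04_fib (G : SimpleGraph W) (P : (W → Fin q) → Prop) (z : W) :
    cG G P = ∑ a : Fin q, cG G (fun f => P f ∧ f z = a) := by
  classical
  rw [K04_ind G P]
  have h : ∀ a : Fin q, cG G (fun f => P f ∧ f z = a) =
      ∑ f : W → Fin q, if PrG G f ∧ (P f ∧ f z = a) then (1 : ℝ) else 0 :=
    fun a => K04_ind G (fun f => P f ∧ f z = a)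
  rw [sum_congr rfl fun a _ => h a, sum_comm]
  refine sum_congr rfl fun f _ => ?_
  by_cases h1 : PrG G f ∧ P f
  · rw [if_pos h1]
    rw [sum_eq_single (f z)]
    · rw [if_pos ⟨h1.1, h1.2, rfl⟩]
    · intro b _ hb
      rw [if_neg]
      exact fun h2 => hb h2.2.2.symm
    · intro h2
      exact absurd (mem_univ _) h2
  · rw [if_neg h1]
    symm
    apply sum_eq_zero
    intro b _
    rw [if_neg]
    exact fun h2 => h1 ⟨h2.1, h2.2.1⟩

private theorem K04_nonneg (G : SimpleGraph W) (P : (W → Fin q) → Prop) : 0 ≤ cG G P := by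
  unfold cG
  positivity

open scoped Classical in
/-- flip the cluster of `y` -/
private noncomputable def K04_F (G : SimpleGraph W) (a b : Fin q) (y : W) (f : W → Fin q) : W → Fin q :=
  kfl a b (univ.filter fun z => kcl G f a b y z) f

private theorem K04_F_kcl (G : SimpleGraph W) (a b : Fin q) (y : W) (f : W → Fin q) (u v : W) :
    kcl G (K04_F G a b y f) a b u v ↔ kcl G f a b u v := kcl_kfl G a b _ f u v

private theorem K04_F_F (G : SimpleGraph W) (a b : Fin q) (y : W) (f : W → Fin q) :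
    K04_F G a b y (K04_F G a b y f) = f := by
  classical
  have h : (univ.filter fun z => kcl G (K04_F G a b y f) a b y z) = (univ.filter fun z => kcl G f a b y z) := by
    ext z
    simp only [mem_filter, mem_univ, true_and]
    exact K04_F_kcl G a b y f y z
  have h1 : K04_F G a b y (K04_F G a b y f) =
      kfl a b (univ.filter fun z => kcl G (K04_F G a b y f) a b y z) (K04_F G a b y f) := by
    unfold K04_F
    congr
  rw [h1, h]
  have h2 : K04_F G a b y f = kfl a b (univ.filter fun z => kcl G f a b y z) f := by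
    unfold K04_F
    congr
  rw [h2, kfl_kfl]

private theorem K04_F_PrG {G : SimpleGraph W} (a b : Fin q) (y : W) {f : W → Fin q} (hf : PrG G f) :
    PrG G (K04_F G a b y f) := by
  classical
  unfold K04_F
  exact PrG_kfl hf a b (kun_of (fun z => kcl G f a b y z) fun u v huv hu => kcl_trans hu huv)

private theorem K04_F_self (G : SimpleGraph W) (a b : Fin q) (y : W) (f : W → Fin q) :
    K04_F G a b y f y = Equiv.swap a b (f y) := by
  classical
  unfold K04_F kfl
  rw [if_pos]
  simp only [mem_filter, mem_univ, true_and]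
  exact Relation.ReflTransGen.refl

private theorem K04_F_out {G : SimpleGraph W} {a b : Fin q} {x y : W} {f : W → Fin q} (h : ¬ kcl G f a b x y) :
    K04_F G a b y f x = f x := by
  classical
  unfold K04_F kfl
  rw [if_neg]
  simp only [mem_filter, mem_univ, true_and]
  exact fun h1 => h (kcl_symm h1)

private theorem K04_inj {G : SimpleGraph W} {P Q : (W → Fin q) → Prop} (F : (W → Fin q) → (W → Fin q))
    (hF : ∀ f : W → Fin q, PrG G f → P f → PrG G (F f) ∧ Q (F f)) (hi : Function.Injective F) :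
    cG G P ≤ cG G Q := by
  classical
  unfold cG
  rw [Nat.cast_le]
  refine card_le_card_of_injOn F ?_ (fun f _ g _ hfg => hi hfg)
  intro f hf
  have hf1 := (mem_filter.1 (mem_coe.1 hf)).2
  exact mem_coe.2 (mem_filter.2 ⟨mem_univ _, hF f hf1.1 hf1.2⟩)

/-- flipping the cluster of `y` when it is not the cluster of `x` -/
private theorem K04_le (G : SimpleGraph W) (a b c : Fin q) (x y : W) :
    cG G (fun f : W → Fin q => (f x = a ∧ f y = c) ∧ ¬ kcl G f a b x y) ≤
      cG G (fun f : W → Fin q => (f x = a ∧ f y = Equiv.swap a b c) ∧ ¬ kcl G f a b x y) := by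
  refine K04_inj (K04_F G a b y) ?_ ?_
  · rintro f hf1 ⟨⟨hf2, hf3⟩, hf4⟩
    refine ⟨K04_F_PrG a b y hf1, ⟨?_, ?_⟩, ?_⟩
    · rw [K04_F_out hf4, hf2]
    · rw [K04_F_self, hf3]
    · rw [K04_F_kcl]
      exact hf4
  · intro f g hfg
    rw [← K04_F_F G a b y f, hfg, K04_F_F]

private theorem K04_eq (G : SimpleGraph W) (a b : Fin q) (x y : W) :
    cG G (fun f : W → Fin q => (f x = a ∧ f y = a) ∧ ¬ kcl G f a b x y) =
      cG G (fun f : W → Fin q => (f x = a ∧ f y = b) ∧ ¬ kcl G f a b x y) := by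
  apply le_antisymm
  · have h := K04_le G a b a x y
    rwa [Equiv.swap_apply_left] at h
  · have h := K04_le G a b b x y
    rwa [Equiv.swap_apply_right] at h

private theorem K04_pair_same {G : SimpleGraph W} {ev : W → Prop} (hG : Par G ev) {x y : W} (hxy : ev x ↔ ev y)
    {a b : Fin q} (hab : b ≠ a) :
    cG G (fun f : W → Fin q => f x = a ∧ kcl G f a b x y) =
      cG G (fun f : W → Fin q => f x = a ∧ f y = a) - cG G (fun f : W → Fin q => f x = a ∧ f y = b) := by
  have h1 := K04_split G (fun f : W → Fin q => f x = a ∧ f y = a) (fun f => kcl G f a b x y)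
  have h2 := K04_split G (fun f : W → Fin q => f x = a ∧ f y = b) (fun f => kcl G f a b x y)
  have h3 : cG G (fun f : W → Fin q => (f x = a ∧ f y = a) ∧ kcl G f a b x y) =
      cG G (fun f : W → Fin q => f x = a ∧ kcl G f a b x y) := by
    apply K04_congr
    intro f hf
    constructor
    · exact fun h => ⟨h.1.1, h.2⟩
    · intro h
      have h4 := (kcl_col hG hf (Or.inl h.1) h.2).1 hxy
      exact ⟨⟨h.1, h4 ▸ h.1⟩, h.2⟩
  have h5 : cG G (fun f : W → Fin q => (f x = a ∧ f y = b) ∧ kcl G f a b x y) = 0 := by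
    have h6 : cG G (fun f : W → Fin q => (f x = a ∧ f y = b) ∧ kcl G f a b x y) =
        cG G (fun _ : W → Fin q => False) := by
      apply K04_congr
      intro f hf
      constructor
      · intro h
        have h4 := (kcl_col hG hf (Or.inl h.1.1) h.2).1 hxy
        exact hab (h.1.2.symm.trans (h4.symm.trans h.1.1))
      · exact fun h => h.elim
    rw [h6]
    classical
    unfold cG
    simp
  have h7 := K04_eq G a b x y
  rw [h3] at h1
  rw [h5] at h2
  linarith

private theorem K04_pair_diff {G : SimpleGraph W} {ev : W → Prop} (hG : Par G ev) {x y : W}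
    (hxy : ¬ (ev x ↔ ev y)) {a b : Fin q} :
    cG G (fun f : W → Fin q => f x = a ∧ kcl G f a b x y) =
      cG G (fun f : W → Fin q => f x = a ∧ f y = b) - cG G (fun f : W → Fin q => f x = a ∧ f y = a) := by
  have h1 := K04_split G (fun f : W → Fin q => f x = a ∧ f y = a) (fun f => kcl G f a b x y)
  have h2 := K04_split G (fun f : W → Fin q => f x = a ∧ f y = b) (fun f => kcl G f a b x y)
  have h3 : cG G (fun f : W → Fin q => (f x = a ∧ f y = b) ∧ kcl G f a b x y) =
      cG G (fun f : W → Fin q => f x = a ∧ kcl G f a b x y) := by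
    apply K04_congr
    intro f hf
    constructor
    · exact fun h => ⟨h.1.1, h.2⟩
    · intro h
      have h4 : ¬ (f x = f y) := fun h5 => hxy ((kcl_col hG hf (Or.inl h.1) h.2).2 h5)
      have h6 := kcl_mem h.2 (Or.inl h.1)
      refine ⟨⟨h.1, ?_⟩, h.2⟩
      rcases h6 with h6 | h6
      · exact absurd (h.1.trans h6.symm) h4
      · exact h6
  have h5 : cG G (fun f : W → Fin q => (f x = a ∧ f y = a) ∧ kcl G f a b x y) = 0 := by
    have h6 : cG G (fun f : W → Fin q => (f x = a ∧ f y = a) ∧ kcl G f a b x y) =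
        cG G (fun _ : W → Fin q => False) := by
      apply K04_congr
      intro f hf
      constructor
      · intro h
        exact hxy ((kcl_col hG hf (Or.inl h.1.1) h.2).2 (h.1.1.trans h.1.2.symm))
      · exact fun h => h.elim
    rw [h6]
    classical
    unfold cG
    simp
  have h7 := K04_eq G a b x y
  rw [h3] at h2
  rw [h5] at h1
  linarith

/-- sum of `#{f x = a = f y}` -/
private theorem K04_sum_same (G : SimpleGraph W) (x y : W) :
    ∑ a : Fin q, ∑ _b ∈ univ.erase a, cG G (fun f : W → Fin q => f x = a ∧ f y = a) =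
      ((q : ℝ) - 1) * cG G (fun f : W → Fin q => f x = f y) := by
  have h1 : ∀ a : Fin q, ∑ _b ∈ univ.erase a, cG G (fun f : W → Fin q => f x = a ∧ f y = a) =
      ((q : ℝ) - 1) * cG G (fun f : W → Fin q => f x = f y ∧ f x = a) := by
    intro a
    have hq : 1 ≤ q := by
      have := a.pos
      omega
    rw [sum_const, card_erase_of_mem (mem_univ a), card_univ, Fintype.card_fin, nsmul_eq_mul,
      Nat.cast_sub hq, Nat.cast_one]
    congr 1
    apply K04_congr
    intro f _
    constructor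
    · exact fun h => ⟨h.1.trans h.2.symm, h.1⟩
    · exact fun h => ⟨h.2, h.1 ▸ h.2⟩
  rw [sum_congr rfl fun a _ => h1 a, ← mul_sum, ← K04_fib G (fun f : W → Fin q => f x = f y) x]

/-- sum of `#{f x = a, f y = b}` -/
private theorem K04_sum_diff (G : SimpleGraph W) (x y : W) :
    ∑ a : Fin q, ∑ b ∈ univ.erase a, cG G (fun f : W → Fin q => f x = a ∧ f y = b) =
      cG G (fun _ : W → Fin q => True) - cG G (fun f : W → Fin q => f x = f y) := by
  have h1 : ∀ a : Fin q, ∑ b ∈ univ.erase a, cG G (fun f : W → Fin q => f x = a ∧ f y = b) =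
      cG G (fun f : W → Fin q => True ∧ f x = a) - cG G (fun f : W → Fin q => f x = f y ∧ f x = a) := by
    intro a
    have h2 := sum_erase_add (univ : Finset (Fin q))
      (fun b => cG G (fun f : W → Fin q => f x = a ∧ f y = b)) (mem_univ a)
    have h3 := K04_fib G (fun f : W → Fin q => f x = a) y
    have h4 : cG G (fun f : W → Fin q => f x = a) = cG G (fun f : W → Fin q => True ∧ f x = a) := by
      apply K04_congr
      intro f _
      simp
    have h5 : cG G (fun f : W → Fin q => f x = a ∧ f y = a) =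
        cG G (fun f : W → Fin q => f x = f y ∧ f x = a) := by
      apply K04_congr
      intro f _
      constructor
      · exact fun h => ⟨h.1.trans h.2.symm, h.1⟩
      · exact fun h => ⟨h.2, h.1 ▸ h.2⟩
    have h6 : ∑ b ∈ univ.erase a, cG G (fun f : W → Fin q => f x = a ∧ f y = b) +
        cG G (fun f : W → Fin q => f x = a ∧ f y = a) =
        ∑ b : Fin q, cG G (fun f : W → Fin q => f x = a ∧ f y = b) := h2
    rw [← h3, h4, h5] at h6
    linarith
  rw [sum_congr rfl fun a _ => h1 a, sum_sub_distrib, ← K04_fib G (fun f : W → Fin q => f x = f y) x,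
    ← K04_fib G (fun _ : W → Fin q => True) x]

theorem WK_same {G : SimpleGraph W} {ev : W → Prop} (hG : Par G ev) {x y : W} (hxy : ev x ↔ ev y) :
    WK q G x y = q * cG G (fun f : W → Fin q => f x = f y) - cG G (fun _ : W → Fin q => True) := by
  unfold WK
  rw [sum_congr rfl fun a _ => sum_congr rfl fun b hb => K04_pair_same hG hxy (mem_erase.1 hb).1]
  rw [sum_congr rfl fun a _ => sum_sub_distrib _ _, sum_sub_distrib, K04_sum_same, K04_sum_diff]
  ring

theorem WK_diff {G : SimpleGraph W} {ev : W → Prop} (hG : Par G ev) {x y : W} (hxy : ¬ (ev x ↔ ev y)) :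
    WK q G x y = cG G (fun _ : W → Fin q => True) - q * cG G (fun f : W → Fin q => f x = f y) := by
  unfold WK
  rw [sum_congr rfl fun a _ => sum_congr rfl fun b hb => K04_pair_diff hG hxy]
  rw [sum_congr rfl fun a _ => sum_sub_distrib _ _, sum_sub_distrib, K04_sum_same, K04_sum_diff]
  ring

theorem WK_symm {G : SimpleGraph W} {ev : W → Prop} (hG : Par G ev) (x y : W) : WK q G x y = WK q G y x := by
  have h : cG G (fun f : W → Fin q => f x = f y) = cG G (fun f : W → Fin q => f y = f x) :=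
    K04_congr fun f _ => eq_comm
  by_cases hxy : ev x ↔ ev y
  · rw [WK_same hG hxy, WK_same hG hxy.symm, h]
  · rw [WK_diff hG hxy, WK_diff hG (fun h1 => hxy h1.symm), h]

theorem WK_nonneg (G : SimpleGraph W) (x y : W) : 0 ≤ WK q G x y := by
  unfold WK
  exact sum_nonneg fun a _ => sum_nonneg fun b _ => K04_nonneg G _

end Pool.Agent.COR

end

/-! ### from `Lib_MP_2c424f_lo.Defs` -/

section

/-!
# MP_2c424f_pr: long-range order on the torus, definitions

Proper `q`-colourings of the torus `(ℤ/2^k)^d`; blocks of side `2`; the coding weights.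
-/

set_option autoImplicit false

open Finset

namespace Pool.Agent.LO

/-! ## The torus -/

/-- sites of the torus of side `2^k` -/
abbrev Site (d k : ℕ) := Fin d → ZMod (2 ^ k)

/-- the `2 d` steps: `(j, true)` is `+e_j`, `(j, false)` is `-e_j` -/
abbrev Stp (d : ℕ) := Fin d × Bool

/-- the vector of a step -/
def sv {d k : ℕ} (σ : Stp d) : Site d k := Pi.single σ.1 (if σ.2 then 1 else -1)

/-- even sites -/
def evn {d k : ℕ} (x : Site d k) : Prop := Even (∑ i, (x i).val)

open scoped Classical in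
/-- the finset of even sites -/
noncomputable def evs (d k : ℕ) : Finset (Site d k) := univ.filter fun x => evn x

open scoped Classical in
/-- the finset of odd sites -/
noncomputable def ods (d k : ℕ) : Finset (Site d k) := univ.filter fun x => ¬ evn x

/-- number of sites, as a real number -/
noncomputable def NN (d k : ℕ) : ℝ := ((2 : ℝ) ^ k) ^ d

/-- proper colourings -/
def Prp {d k q : ℕ} (f : Site d k → Fin q) : Prop := ∀ (x : Site d k) (σ : Stp d), f (x + sv σ) ≠ f x

open scoped Classical in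
/-- the finset of the proper colourings -/
noncomputable def prps (d k q : ℕ) : Finset (Site d k → Fin q) := univ.filter fun f => Prp f

/-- number of proper colourings -/
noncomputable def ZZ (d k q : ℕ) : ℝ := ((prps d k q).card : ℝ)

/-! ## Local statistics -/

section stat
variable {d k q : ℕ}

/-- colours seen by `v` -/
def SS (f : Site d k → Fin q) (v : Site d k) : Finset (Fin q) :=
  univ.image fun σ : Stp d => f (v + sv σ)

/-- number of colours available at `v` -/
def av (f : Site d k → Fin q) (v : Site d k) : ℕ := q - (SS f v).card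

/-- `1` if `v` does not see the colour `c` -/
noncomputable def zz (f : Site d k → Fin q) (v : Site d k) (c : Fin q) : ℝ := if c ∈ SS f v then 0 else 1

/-- number of neighbours of `v` with colour `c` -/
def yy (f : Site d k → Fin q) (v : Site d k) (c : Fin q) : ℕ :=
  (univ.filter fun σ : Stp d => f (v + sv σ) = c).card

/-- proportion of neighbours of `u` which do not see `c` -/
noncomputable def mm (f : Site d k → Fin q) (u : Site d k) (c : Fin q) : ℝ :=
  (∑ σ : Stp d, zz f (u + sv σ) c) / (2 * d)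

/-- interface functional -/
noncomputable def II (f : Site d k → Fin q) (c : Fin q) : ℝ :=
  ∑ u ∈ evs d k, mm f u c * (1 - mm f u c)

/-- rare colour functional -/
noncomputable def QQ (f : Site d k → Fin q) (c : Fin q) : ℝ :=
  ∑ v ∈ ods d k, if yy f v c = 0 then 0 else (1 / 2 : ℝ) ^ yy f v c

end stat

/-! ## The chord of the logarithm -/

/-- `⌊q/2⌋` -/
def q1 (q : ℕ) : ℕ := q / 2

/-- `⌈q/2⌉` -/
def q2 (q : ℕ) : ℕ := q - q / 2

open scoped Classical in
/-- slope -/
noncomputable def sl (q : ℕ) : ℝ := if Even q then 1 / (q1 q : ℝ) else Real.log ((q2 q : ℝ) / (q1 q : ℝ))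

/-- the tangent (`q` even) or chord (`q` odd) of the logarithm at `q/2` -/
noncomputable def ell (q : ℕ) (t : ℝ) : ℝ := Real.log (q1 q) + sl q * (t - q1 q)

/-- error coefficient for noninteger arguments (`0` for even `q`) -/
noncomputable def kp (q : ℕ) : ℝ := 1 / (q1 q : ℝ) - 1 / (q2 q : ℝ)

/-- the admissible values of `q` -/
def Adm (d q : ℕ) : Prop := 2 ≤ q ∧ (Even q ∨ 41 ≤ q) ∧ (q : ℝ) * (1000 * Real.log d) ≤ d

/-- the loss of a colouring -/
noncomputable def Loss {d k q : ℕ} (f : Site d k → Fin q) : ℝ :=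
  1 / (6 * (q : ℝ)) * ∑ c, (II f c + QQ f c) + ∑ v ∈ ods d k, (ell q (av f v) - Real.log (av f v))

/-! ## The code -/

section code
variable {d k q : ℕ}

open scoped Classical in
/-- `1` if no neighbour of `v` in `R` has colour `c` -/
noncomputable def UU (f : Site d k → Fin q) (R : Finset (Site d k)) (v : Site d k) (c : Fin q) : ℝ :=
  if ∃ σ : Stp d, v + sv σ ∈ R ∧ f (v + sv σ) = c then 0 else 1

/-- proportion of neighbours of `u` with no neighbour in `R` coloured `c` -/
noncomputable def nn (f : Site d k → Fin q) (R : Finset (Site d k)) (u : Site d k) (c : Fin q) : ℝ :=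
  (∑ σ : Stp d, UU f R (u + sv σ) c) / (2 * d)

/-- weight function -/
noncomputable def gg (ε n : ℝ) : ℝ := (1 - n) ^ 2 + ε

/-- total weight at `u` -/
noncomputable def aa (ε : ℝ) (f : Site d k → Fin q) (R : Finset (Site d k)) (u : Site d k) : ℝ :=
  ∑ c, gg ε (nn f R u c)

/-- coefficients of the linear code -/
def kap (i j : Fin d) : ℕ := (j.val + (d - i.val)) % d

/-- the linear code, values mod `2^s` -/
def hh (s : ℕ) (i : Fin d) (x : Site d k) : ZMod (2 ^ s) :=
  ∑ j, ((kap i j * (x j).val : ℕ) : ZMod (2 ^ s))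

/-- the direction with coefficient `t` -/
def jj (i : Fin d) (t : ℕ) : Fin d := ⟨(i.val + t) % d, Nat.mod_lt _ i.pos⟩

/-- the step which changes the code by `t` -/
def sg (s : ℕ) (i : Fin d) (t : ZMod (2 ^ s)) : Stp d :=
  if t.val < d then (jj i t.val, true) else (jj i (2 ^ s - t.val), false)

/-- the neighbour of `u` on the code lines with value `a` -/
def vv (s : ℕ) (i : Fin d) (a : ZMod (2 ^ s)) (u : Site d k) : Site d k :=
  u + sv (sg s i (a - hh s i u))

/-- cost of a transition -/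
noncomputable def cst (ε : ℝ) (A B : Finset (Fin q)) : ℝ :=
  ((symmDiff A B).card : ℝ) * Real.log (1 / ε) + ((q : ℝ) - (symmDiff A B).card) * Real.log (1 / (1 - ε))

open scoped Classical in
/-- the cost of the sets `SS f v` along the lines -/
noncomputable def T1 (ε : ℝ) (s : ℕ) (f : Site d k → Fin q) (i : Fin d) (a : ZMod (2 ^ s)) : ℝ :=
  ∑ v ∈ (ods d k).filter (fun v => hh s i v = a),
    if (v i).val < 2 then (q : ℝ) * Real.log 2
    else cst ε (SS f v) (SS f (v + sv (i, false) + sv (i, false)))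

open scoped Classical in
/-- the cost of the colours on `R` -/
noncomputable def T2 (s : ℕ) (f : Site d k → Fin q) (i : Fin d) (a : ZMod (2 ^ s))
    (R : Finset (Site d k)) : ℝ :=
  ∑ u ∈ (evs d k).filter (fun u => u ∈ R), Real.log ((SS f (vv s i a u)).card)

open scoped Classical in
/-- the cost of the colours on the other even sites -/
noncomputable def T3 (ε : ℝ) (f : Site d k → Fin q) (R : Finset (Site d k)) : ℝ :=
  ∑ u ∈ (evs d k).filter (fun u => u ∉ R),
    (Real.log (aa ε f R u) - Real.log (gg ε (nn f R u (f u))))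

/-- the cost of the colours on the odd sites -/
noncomputable def T4 (f : Site d k → Fin q) : ℝ := ∑ v ∈ ods d k, Real.log (av f v)

/-- total code length -/
noncomputable def TT (ε : ℝ) (s : ℕ) (f : Site d k → Fin q) (i : Fin d) (a : ZMod (2 ^ s))
    (R : Finset (Site d k)) : ℝ :=
  T1 ε s f i a + T2 s f i a R + T3 ε f R + T4 f

/-- average over all sets of sites -/
noncomputable def ER (F : Finset (Site d k) → ℝ) : ℝ :=
  (∑ R : Finset (Site d k), F R) / 2 ^ Fintype.card (Site d k)

open scoped Classical in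
/-- `E ∑_{u ∉ R} ∑_c n (1 - n)` -/
noncomputable def G1 (f : Site d k → Fin q) : ℝ :=
  ER fun R => ∑ u ∈ (evs d k).filter (fun u => u ∉ R), ∑ c, nn f R u c * (1 - nn f R u c)

open scoped Classical in
/-- `E ∑_{u ∉ R} ∑_c (n - m)` -/
noncomputable def G2 (f : Site d k → Fin q) : ℝ :=
  ER fun R => ∑ u ∈ (evs d k).filter (fun u => u ∉ R), ∑ c, (nn f R u c - mm f u c)

open scoped Classical in
/-- the cost of violations -/
noncomputable def KK (ε : ℝ) (f : Site d k → Fin q) : ℝ :=
  ER fun R => ∑ u ∈ (evs d k).filter (fun u => u ∉ R), -Real.log (gg ε (nn f R u (f u)))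

end code

/-! ## Blocks -/

/-- blocks of side `2` of the torus of side `2^(k+1)` -/
abbrev Blk (d k : ℕ) := Fin d → ZMod (2 ^ k)

/-- bit vectors -/
abbrev Bt (d : ℕ) := Fin d → Bool

section block
variable {d k q : ℕ}

/-- the smallest corner of a block -/
def bas (t : Blk d k) : Site d (k + 1) := fun i => ((2 * (t i).val : ℕ) : ZMod (2 ^ (k + 1)))

/-- a bit vector as a vector -/
def bv (a : Bt d) : Site d (k + 1) := fun i => if a i then 1 else 0

/-- a point of the closed block -/
def pt (t : Blk d k) (a b : Bt d) : Site d (k + 1) := bas t + bv a + bv b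

/-- the step `σ` does not leave the block at the point given by `a`, `b` -/
def alw (a b : Bt d) (σ : Stp d) : Prop :=
  if σ.2 then ¬ (a σ.1 = true ∧ b σ.1 = true) else (a σ.1 = true ∨ b σ.1 = true)

/-- the point given by `a`, `b` is odd -/
def od (a b : Bt d) : Prop := Odd (univ.filter fun i => a i ≠ b i).card

/-- flip one bit -/
def flp (a : Bt d) (j : Fin d) : Bt d := Function.update a j (!a j)

open scoped Classical in
/-- `1` if no neighbour inside the block has colour `c` -/
noncomputable def zb (f : Site d (k + 1) → Fin q) (t : Blk d k) (a b : Bt d) (c : Fin q) : ℝ :=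
  if ∀ σ : Stp d, alw a b σ → f (pt t a b + sv σ) ≠ c then 1 else 0

open scoped Classical in
/-- the same, neighbours in direction `j` are ignored -/
noncomputable def zj (f : Site d (k + 1) → Fin q) (t : Blk d k) (a b : Bt d) (c : Fin q) (j : Fin d) : ℝ :=
  if ∀ σ : Stp d, σ.1 ≠ j → alw a b σ → f (pt t a b + sv σ) ≠ c then 1 else 0

open scoped Classical in
/-- twice the average over the odd points of the block -/
noncomputable def EB (F : Bt d → Bt d → ℝ) : ℝ :=
  2 * (∑ a, ∑ b, if od a b then F a b else 0) / 4 ^ d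

/-- block mean of `zb` -/
noncomputable def mb (f : Site d (k + 1) → Fin q) (t : Blk d k) (c : Fin q) : ℝ :=
  EB fun a b => zb f t a b c

/-- block mean of `zj` -/
noncomputable def mj (f : Site d (k + 1) → Fin q) (t : Blk d k) (c : Fin q) (j : Fin d) : ℝ :=
  EB fun a b => zj f t a b c j

/-- block mean of `zz` -/
noncomputable def mt (f : Site d (k + 1) → Fin q) (t : Blk d k) (c : Fin q) : ℝ :=
  EB fun a b => zz f (pt t a b) c

open scoped Classical in
/-- block density of the colour `c` on odd points -/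
noncomputable def Mb (f : Site d (k + 1) → Fin q) (t : Blk d k) (c : Fin q) : ℝ :=
  EB fun a b => if f (pt t a b) = c then 1 else 0

/-- `δ = 1/(100 q)` -/
noncomputable def dl (q : ℕ) : ℝ := 1 / (100 * (q : ℝ))

/-- label `1`: `c` is seen by almost no odd point -/
def lab1 (f : Site d (k + 1) → Fin q) (t : Blk d k) (c : Fin q) : Prop := 1 - dl q ≤ mb f t c

/-- label `0`: `c` is seen by almost all odd points -/
def lab0 (f : Site d (k + 1) → Fin q) (t : Blk d k) (c : Fin q) : Prop := ∀ j, mj f t c j ≤ dl q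

/-- bad block -/
def bad (c : Fin q) (t : Blk d k) (f : Site d (k + 1) → Fin q) : Prop := ¬ lab1 f t c ∧ ¬ lab0 f t c

/-! ## Reflections -/

/-- reflection of blocks in the planes before and after the block column `α` (direction `j`) -/
def rb (j : Fin d) (α : ZMod (2 ^ k)) (t : Blk d k) : Blk d k := Function.update t j (2 * α - 1 - t j)

/-- the corresponding reflection of sites -/
def rs (j : Fin d) (α : ZMod (2 ^ k)) (x : Site d (k + 1)) : Site d (k + 1) :=
  Function.update x j (((4 * α.val : ℕ) : ZMod (2 ^ (k + 1))) - x j)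

/-- left half -/
def lft (j : Fin d) (α : ZMod (2 ^ k)) (t : Blk d k) : Prop := (t j - α).val < 2 ^ (k - 1)

open scoped Classical in
/-- symmetrised set of blocks (left half) -/
noncomputable def syL (j : Fin d) (α : ZMod (2 ^ k)) (Γ : Finset (Blk d k)) : Finset (Blk d k) :=
  Γ.filter (fun t => lft j α t) ∪ (Γ.filter (fun t => lft j α t)).image (rb j α)

open scoped Classical in
/-- symmetrised set of blocks (right half) -/
noncomputable def syR (j : Fin d) (α : ZMod (2 ^ k)) (Γ : Finset (Blk d k)) : Finset (Blk d k) :=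
  Γ.filter (fun t => ¬ lft j α t) ∪ (Γ.filter (fun t => ¬ lft j α t)).image (rb j α)

open scoped Classical in
/-- number of proper colourings for which the event holds in all blocks of `Γ` -/
noncomputable def cE (E : Blk d k → (Site d (k + 1) → Fin q) → Prop) (Γ : Finset (Blk d k)) : ℝ :=
  (((prps d (k + 1) q).filter fun f => ∀ t ∈ Γ, E t f).card : ℝ)

end block

end Pool.Agent.LO

end

/-! ### from `Lib_MP_2c424f_cor.Defs` -/

section

/-!
# MP_2c424f_pr, corners of the free boxes: definitions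

Everything happens on a (huge) torus `Site d k` of side `2^k`; configurations are arbitrary functions
`f : Site d k → Fin q`; for a finset `V` of sites, `PrV V f` says that `f` is proper on the edges inside `V`.
Boxes `bx a b`, closed 2-blocks (`Blk d k`, points `pt t a b`) inside a box: `gr a b`.
-/

set_option autoImplicit false

open Finset

namespace Pool.Agent.COR

open Pool.Agent.LO

/-- the admissible `q` -/
def AdmC (d q : ℕ) : Prop := 4 ≤ q ∧ Even q ∧ (q : ℝ) * (10000 * Real.log d) ≤ d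

section V
variable {d k q : ℕ}

/-- `f` is proper on the edges inside `V` -/
def PrV (V : Finset (Site d k)) (f : Site d k → Fin q) : Prop :=
  ∀ x ∈ V, ∀ σ : Stp d, x + sv σ ∈ V → f (x + sv σ) ≠ f x

open scoped Classical in
/-- number of functions which are proper on `V` and have the property `P` -/
noncomputable def cV (V : Finset (Site d k)) (P : (Site d k → Fin q) → Prop) : ℝ :=
  ((univ.filter fun f : Site d k → Fin q => PrV V f ∧ P f).card : ℝ)

/-- number of functions which are proper on `V` -/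
noncomputable def ZV (q : ℕ) (V : Finset (Site d k)) : ℝ := cV V (fun _ : Site d k → Fin q => True)

/-- number of all functions -/
noncomputable def QN (d k q : ℕ) : ℝ := (q : ℝ) ^ Fintype.card (Site d k)

open scoped Classical in
/-- the graph of the edges inside `V` -/
def gV (V : Finset (Site d k)) : SimpleGraph (Site d k) where
  Adj x y := x ≠ y ∧ x ∈ V ∧ y ∈ V ∧ ((∃ σ : Stp d, y = x + sv σ) ∧ ∃ σ : Stp d, x = y + sv σ)
  symm := ⟨fun _ _ h => ⟨h.1.symm, h.2.2.1, h.2.1, h.2.2.2.2, h.2.2.2.1⟩⟩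
  loopless := ⟨fun _ h => h.1 rfl⟩

open scoped Classical in
/-- the box `∏ {a i, …, b i}` -/
noncomputable def bx (a b : Fin d → ℕ) : Finset (Site d k) :=
  univ.filter fun x => ∀ i, a i ≤ (x i).val ∧ (x i).val ≤ b i

open scoped Classical in
/-- the closed 2-blocks in the box -/
noncomputable def gr (a b : Fin d → ℕ) : Finset (Blk d k) :=
  univ.filter fun t => ∀ i, a i ≤ 2 * (t i).val ∧ 2 * (t i).val + 2 ≤ b i

end V

section block
variable {d k q : ℕ}

open scoped Classical in
/-- the colours which are seen by almost all odd points of the block -/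
noncomputable def AL (f : Site d (k + 1) → Fin q) (t : Blk d k) : Finset (Fin q) :=
  univ.filter fun c => lab0 f t c

/-- no colour is bad and `|AL| = q/2` -/
def GD (t : Blk d k) (f : Site d (k + 1) → Fin q) : Prop :=
  (∀ c, ¬ bad c t f) ∧ (AL f t).card = q / 2

/-- no colour is bad and `|AL| ≠ q/2` -/
def unb (t : Blk d k) (f : Site d (k + 1) → Fin q) : Prop :=
  (∀ c, ¬ bad c t f) ∧ (AL f t).card ≠ q / 2

/-- bad with the tolerance `θ` -/
def badT (θ : ℝ) (c : Fin q) (t : Blk d k) (f : Site d (k + 1) → Fin q) : Prop :=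
  ¬ (1 - θ ≤ mb f t c) ∧ ¬ (∀ j, mj f t c j ≤ θ)

/-- `θ = d^{-12}` -/
noncomputable def th (d : ℕ) : ℝ := 1 / (d : ℝ) ^ 12

/-- very good block -/
def VG (t : Blk d k) (f : Site d (k + 1) → Fin q) : Prop := GD t f ∧ ∀ c, ¬ badT (th d) c t f

/-- `f` is proper inside the closed block -/
def prB (t : Blk d k) (f : Site d (k + 1) → Fin q) : Prop :=
  ∀ a b (σ : Stp d), alw a b σ → f (pt t a b + sv σ) ≠ f (pt t a b)

/-- `f` is proper on the edges of the face of the closed block in the plane `x j = 0` or `2` mod `4` -/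
def fcE (j : Fin d) (m : Bool) (t : Blk d k) (f : Site d (k + 1) → Fin q) : Prop :=
  ∀ a b (σ : Stp d), alw a b σ → σ.1 ≠ j → (pt t a b j).val % 4 = (if m then 2 else 0) →
    f (pt t a b + sv σ) ≠ f (pt t a b)

end block

/-- the types of blocks -/
inductive Ty (d q : ℕ) : Type
  | free : Ty d q
  | pr : Ty d q
  | bd (c : Fin q) : Ty d q
  | bt (c : Fin q) : Ty d q
  | ub : Ty d q
  | fc (j : Fin d) (m : Bool) : Ty d q

/-- the events of the types -/
def Ev {d k q : ℕ} (s : Ty d q) (t : Blk d k) (f : Site d (k + 1) → Fin q) : Prop :=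
  match s with
  | .free => True
  | .pr => prB t f
  | .bd c => prB t f ∧ bad c t f
  | .bt c => prB t f ∧ badT (th d) c t f
  | .ub => prB t f ∧ unb t f
  | .fc j m => fcE j m t f

/-- the three kinds of bad blocks -/
def Ty.isBad {d q : ℕ} : Ty d q → Prop
  | .bd _ => True
  | .bt _ => True
  | .ub => True
  | _ => False

/-- `r_δ = exp(-2^d / d^3)` -/
noncomputable def r1 (d : ℕ) : ℝ := Real.exp (-((2 : ℝ) ^ d / (d : ℝ) ^ 3))

/-- `r_θ = exp(-θ 2^d / d^3)` -/
noncomputable def r2 (d : ℕ) : ℝ := Real.exp (-((2 : ℝ) ^ d / (d : ℝ) ^ 15))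

/-- the base of a bad type -/
noncomputable def rT {d q : ℕ} : Ty d q → ℝ
  | .bd _ => r1 d
  | .bt _ => r2 d
  | .ub => r1 d
  | _ => 1

/-- `ρ = 6 (d-1)^{-45} + (d/m)^2` -/
noncomputable def rho (d m : ℕ) : ℝ := 6 / ((d : ℝ) - 1) ^ 45 + ((d : ℝ) / m) ^ 2

/-- number of functions which satisfy the events of a family of types -/
noncomputable def cT {d k q : ℕ} {T : Type} (E : T → Blk d k → (Site d (k + 1) → Fin q) → Prop)
    (τ : Blk d k → T) : ℝ :=
  by classical exact ((univ.filter fun f : Site d (k + 1) → Fin q => ∀ t, E (τ t) t f).card : ℝ)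

open scoped Classical in
/-- symmetrised types (left half) -/
noncomputable def tyL {d k : ℕ} {T : Type} (j : Fin d) (α : ZMod (2 ^ k)) (τ : Blk d k → T) : Blk d k → T :=
  fun t => if lft j α t then τ t else τ (rb j α t)

open scoped Classical in
/-- symmetrised types (right half) -/
noncomputable def tyR {d k : ℕ} {T : Type} (j : Fin d) (α : ZMod (2 ^ k)) (τ : Blk d k → T) : Blk d k → T :=
  fun t => if lft j α t then τ (rb j α t) else τ t

end Pool.Agent.COR

end

/-! ### from `Lib_MP_2c424f_lin.EDefs` -/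

section

/-!
# Edge chessboard: definitions
-/

set_option autoImplicit false

open Finset

namespace Pool.Agent.LIN

open Pool.Agent.LO

/-! ## Rings -/

section ring
variable {X : Type*} [Fintype X]

/-- partition function of a ring of length `2^r` with kernels `A j` from layer `j` to layer `j+1` -/
noncomputable def cyc (r : ℕ) (A : ZMod (2 ^ r) → X → X → ℝ) : ℝ :=
  ∑ a : ZMod (2 ^ r) → X, ∏ j, A j (a j) (a (j + 1))

/-- ring of length `2^(r+1)` with the kernel `A` and its transpose in turn: `Tr (A Aᵀ)^(2^r)` -/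
noncomputable def zig (r : ℕ) (A : X → X → ℝ) : ℝ :=
  ∑ α : ZMod (2 ^ r) → X, ∑ β : ZMod (2 ^ r) → X, ∏ i, A (α i) (β i) * A (α (i + 1)) (β i)

/-- reduction `ℤ/2^(r+1) → ℤ/2^r` -/
def rd (r : ℕ) (s : ZMod (2 ^ (r + 1))) : ZMod (2 ^ r) := (s.val : ZMod (2 ^ r))

/-- two-dimensional torus of side `2^k` with oriented kernels: `Kh x y` on `(x,y) → (x+1,y)`,
`Kv x y` on `(x,y) → (x,y+1)` -/
noncomputable def Zg (k : ℕ) (Kh Kv : ZMod (2 ^ k) → ZMod (2 ^ k) → X → X → ℝ) : ℝ :=
  ∑ f : ZMod (2 ^ k) × ZMod (2 ^ k) → X, ∏ p : ZMod (2 ^ k) × ZMod (2 ^ k),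
    Kh p.1 p.2 (f p) (f (p.1 + 1, p.2)) * Kv p.1 p.2 (f p) (f (p.1, p.2 + 1))

open scoped Classical in
/-- orientation of a kernel: first argument at the site with even sum of coordinates -/
noncomputable def ori (k : ℕ) (K : X → X → ℝ) (x y : ZMod (2 ^ k)) : X → X → ℝ :=
  if Even (x.val + y.val) then K else fun a b => K b a

/-- homogeneous two-dimensional torus, `K (even site) (odd site)` -/
noncomputable def Zh (k : ℕ) (K : X → X → ℝ) : ℝ := Zg k (ori k K) (ori k K)

/-- kernel of a zigzag layer -/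
noncomputable def bz (k : ℕ) (K : X → X → ℝ) (a b : ZMod (2 ^ k) → X) : ℝ :=
  ∏ i, K (a i) (b i) * K (a (i + 1)) (b i)

/-- homogeneous zigzag torus -/
noncomputable def DD (k : ℕ) (K : X → X → ℝ) : ℝ := zig k (bz k K)

end ring

/-! ## Nearest-neighbour models on the torus -/

section model
variable {d k : ℕ} {S Λ : Type*}

open scoped Classical in
/-- value at the even end of the edge `{x, x + e_i}` -/
noncomputable def eE (f : Site d k → S) (x : Site d k) (i : Fin d) : S :=
  if evn x then f x else f (x + sv (i, true))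

open scoped Classical in
/-- value at the odd end of the edge `{x, x + e_i}` -/
noncomputable def eO (f : Site d k → S) (x : Site d k) (i : Fin d) : S :=
  if evn x then f (x + sv (i, true)) else f x

/-- partition function; the edge `{x, x + e_i}` has the kernel `K (w x i)` -/
noncomputable def Zw [Fintype S] (K : Λ → S → S → ℝ) (w : Site d k → Fin d → Λ) : ℝ :=
  ∑ f : Site d k → S, ∏ x, ∏ i, K (w x i) (eE f x i) (eO f x i)

/-- label of the edge from `x` in the direction of the step `σ` -/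
def WL (w : Site d k → Fin d → Λ) (x : Site d k) (σ : Stp d) : Λ :=
  if σ.2 then w x σ.1 else w (x + sv σ) σ.1

/-- steps in the plane `i j` -/
def pl (i j : Fin d) : Finset (Stp d) := univ.filter fun σ => σ.1 = i ∨ σ.1 = j

/-- `x` with the coordinates `i j` of `p` -/
def mrg (i j : Fin d) (p x : Site d k) : Site d k := fun l => if l = i ∨ l = j then p l else x l

open scoped Classical in
/-- folding of the plane `i j` onto the edge from `p` in the direction `σ` -/
noncomputable def fol (i j : Fin d) (p : Site d k) (σ : Stp d) (x : Site d k) : Site d k :=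
  if Even ((x i).val + (x j).val + (p i).val + (p j).val) then mrg i j p x else mrg i j p x + sv σ

open scoped Classical in
/-- the folded labelling -/
noncomputable def pf (i j : Fin d) (p : Site d k) (σ : Stp d) (w : Site d k → Fin d → Λ) :
    Site d k → Fin d → Λ :=
  fun x l => if l = i ∨ l = j then WL w (mrg i j p x) σ else w (fol i j p σ x) l

open scoped Classical in
/-- discrepancy of a labelling -/
noncomputable def dis (w : Site d k → Fin d → Λ) : ℝ :=
  ∑ x, ∑ σ : Stp d, ∑ τ : Stp d, if WL w x σ = WL w x τ then (0 : ℝ) else 1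

open scoped Classical in
/-- discrepancy in the plane `i j` -/
noncomputable def dis2 (i j : Fin d) (w : Site d k → Fin d → Λ) : ℝ :=
  ∑ x, ∑ σ ∈ pl i j, ∑ τ ∈ pl i j, if WL w x σ = WL w x τ then (0 : ℝ) else 1

/-- periodicity `2` in the directions of `I` -/
def perD (I : Finset (Fin d)) (w : Site d k → Fin d → Λ) : Prop :=
  ∀ j ∈ I, ∀ x l, w (x + sv (j, true) + sv (j, true)) l = w x l

end model

end Pool.Agent.LIN

end

/-! ### from `Lib_MP_2c424f_lin.Defs` -/

section

/-!
# MP_2c424f_pr, linear regime: definitions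

Paper proof: `/team-store/lin_proof.md`.  Notation of `Lib_MP_2c424f_lo`: `Site d k = (ℤ/2^k)^d`, steps
`Stp d`, `sv`, `evn`, `evs`, `ods`, `NN`, `Prp`, `prps`, `ZZ`, `SS`, `av`, `zz`.
-/

set_option autoImplicit false

open Finset

namespace Pool.Agent.LIN

open Pool.Agent.LO

/-! ## Parity classes, local means -/

/-- parity classes: `true` even sites, `false` odd sites -/
noncomputable def cls (b : Bool) (d k : ℕ) : Finset (Site d k) := if b then evs d k else ods d k

section means
variable {d k q : ℕ}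

/-- mean over the neighbours -/
noncomputable def PP (g : Site d k → ℝ) (x : Site d k) : ℝ := (∑ σ : Stp d, g (x + sv σ)) / (2 * d)

/-- the steps of group `j`: directions `≡ j mod 6` -/
def grp (d : ℕ) (j : Fin 6) : Finset (Stp d) := univ.filter fun σ => σ.1.val % 6 = j.val

/-- mean over the neighbours in the directions of group `j` -/
noncomputable def AA (j : Fin 6) (g : Site d k → ℝ) (x : Site d k) : ℝ :=
  (∑ σ ∈ grp d j, g (x + sv σ)) / (grp d j).card

/-- mean over six steps, one from every group -/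
noncomputable def Av (g : Site d k → ℝ) : Site d k → ℝ := AA 0 (AA 1 (AA 2 (AA 3 (AA 4 (AA 5 g)))))

/-- the six-step sphere of `x` -/
def UU (x : Site d k) : Finset (Site d k) :=
  (Fintype.piFinset fun j => grp d j).image fun s : Fin 6 → Stp d => x + ∑ j, sv (s j)

/-- number of points of the spheres -/
def T6 (d : ℕ) : ℕ := ∏ j, (grp d j).card

/-- separated sets of sites -/
def sep (A : Finset (Site d k)) : Prop := ∀ x ∈ A, ∀ y ∈ A, x ≠ y → Disjoint (UU x) (UU y)

end means

/-! ## The regime -/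

/-- the regime `δ`: `1/δ ≤ q ≤ δ d` and adding a colour to `q` colours gains only `(1+δ)/q` per site -/
def Gd (δ : ℝ) (d q : ℕ) : Prop :=
  0 < δ ∧ 1 / δ ≤ q ∧ (q : ℝ) ≤ δ * d ∧
    ∀ᶠ k : ℕ in Filter.atTop,
      Real.log (ZZ d k (q + 1)) ≤ Real.log (ZZ d k q) + (1 + δ) / q * NN d k

/-! ## Statistics of a colouring -/

section stats
variable {d k q : ℕ}

/-- proportion of colours available at `v` -/
noncomputable def xi (f : Site d k → Fin q) (v : Site d k) : ℝ := (av f v : ℝ) / q

open scoped Classical in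
/-- proper colourings typical on the class `b` -/
noncomputable def typs (a : ℝ) (b : Bool) (d k q : ℕ) : Finset (Site d k → Fin q) :=
  (prps d k q).filter fun f => ∑ v ∈ cls b d k, (1 - 2 * xi f v) ^ 2 ≤ a ^ 3 * NN d k

open scoped Classical in
/-- contribution of the sites with few colours -/
noncomputable def BB (a : ℝ) (b : Bool) (f : Site d k → Fin q) : ℝ :=
  ∑ v ∈ cls b d k, if xi f v < 1 / 2 - a then Real.log (1 + 1 / (av f v : ℝ)) else 0

/-- sites of colour `c` -/
def Xc (c : Fin q) (f : Site d k → Fin q) : Finset (Site d k) := univ.filter fun v => f v = c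

open scoped Classical in
/-- sites of colour `c` with few available colours -/
noncomputable def Xs (a : ℝ) (c : Fin q) (f : Site d k → Fin q) : Finset (Site d k) :=
  univ.filter fun v => f v = c ∧ xi f v < 1 / 2 - a

/-- independent sets -/
def Ind (I : Finset (Site d k)) : Prop := ∀ x ∈ I, ∀ σ : Stp d, x + sv σ ∉ I

/-- `∏_{u ~ v} (1 - z_u / x_u)` -/
noncomputable def zt (f : Site d k → Fin q) (v : Site d k) (c : Fin q) : ℝ :=
  ∏ σ : Stp d, (1 - zz f (v + sv σ) c / (av f (v + sv σ) : ℝ))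

/-- `|1 - z_v - m_v|` -/
noncomputable def dd (f : Site d k → Fin q) (c : Fin q) (v : Site d k) : ℝ :=
  |1 - zz f v c - PP (fun x => zz f x c) v|

/-- local density of the colour `c` times `q` -/
noncomputable def yv (c : Fin q) (f : Site d k → Fin q) (x : Site d k) : ℝ :=
  q * Av (fun v => if f v = c then (1 : ℝ) else 0) x

open scoped Classical in
/-- the label -/
noncomputable def lb (f : Site d k → Fin q) (c : Fin q) (x : Site d k) : ℝ :=
  if evn x then zz f x c else 1 - zz f x c

open scoped Classical in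
/-- colourings which agree with `f` off the class `b` -/
noncomputable def fib (b : Bool) (f : Site d k → Fin q) : Finset (Site d k → Fin q) :=
  Fintype.piFinset fun x => if x ∈ cls b d k then (SS f x)ᶜ else {f x}

/-- mean over the fibre -/
noncomputable def fm (b : Bool) (G : (Site d k → Fin q) → ℝ) (f : Site d k → Fin q) : ℝ :=
  (∑ h ∈ fib b f, G h) / (fib b f).card

open scoped Classical in
/-- rare sets of colourings -/
def Rare (d k q : ℕ) (P : (Site d k → Fin q) → Prop) : Prop :=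
  (((prps d k q).filter P).card : ℝ) ≤ ZZ d k q * Real.exp (-(NN d k / (d : ℝ) ^ 18))

open scoped Classical in
/-- number of sites with a property -/
noncomputable def nS (P : Site d k → Prop) : ℝ := ((univ.filter P).card : ℝ)

/-- the colouring `f` has few exceptional sites -/
structure Reg (e : ℝ) (c : Fin q) (f : Site d k → Fin q) : Prop where
  h1 : nS (fun x => 2 + e ≤ Av (fun v => (q : ℝ) / (av f v : ℝ)) x) ≤ 2 * (NN d k / (d : ℝ) ^ 5)
  h2 : nS (fun x => 1 + e ≤ Av (fun v => xi f v + PP (xi f) v) x) ≤ 2 * (NN d k / (d : ℝ) ^ 5)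
  h3 : ∀ σ : Stp d, nS (fun x => e ≤ |yv c f x + yv c f (x + sv σ) - 2|) ≤ 2 * (NN d k / (d : ℝ) ^ 5)
  h4 : nS (fun x => e / q ≤ |Av (fun v => (if f v = c then (1 : ℝ) else 0) - zz f v c / (av f v : ℝ)) x|) ≤
    2 * (NN d k / (d : ℝ) ^ 5)
  h5 : nS (fun x => e ≤ |Av (fun v => zz f v c - zt f v c) x|) ≤ 2 * (NN d k / (d : ℝ) ^ 5)
  h6 : nS (fun x => e ≤ Av (fun v => |zz f v c - zt f v c| - 2 * (zt f v c * (1 - zt f v c))) x) ≤
    2 * (NN d k / (d : ℝ) ^ 5)

end stats

/-! ## Blocks with a constant tolerance -/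

section block
variable {d k q : ℕ}

/-- label `1` with tolerance `δ` -/
def labA (δ : ℝ) (f : Site d (k + 1) → Fin q) (t : Blk d k) (c : Fin q) : Prop := 1 - δ ≤ mb f t c

/-- label `0` with tolerance `δ` -/
def labB (δ : ℝ) (f : Site d (k + 1) → Fin q) (t : Blk d k) (c : Fin q) : Prop := ∀ j, mj f t c j ≤ δ

/-- bad block -/
def badd (δ : ℝ) (c : Fin q) (t : Blk d k) (f : Site d (k + 1) → Fin q) : Prop :=
  ¬ labA δ f t c ∧ ¬ labB δ f t c

open scoped Classical in
/-- the point given by `t a b` has many neighbours where `c` is available, but for one half of the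
directions no neighbour in the block has colour `c` -/
noncomputable def Fb (f : Site d (k + 1) → Fin q) (c : Fin q) (t : Blk d k) (a b : Bt d) : ℝ :=
  if 7 / 8 ≤ PP (fun x => zz f x c) (pt t a b) ∧
    ∃ β : Bool, ∀ σ : Stp d, alw a b σ → (decide (2 * σ.1.val < d) = β) → f (pt t a b + sv σ) ≠ c
  then 1 else 0

end block

end Pool.Agent.LIN

end

/-! ### from `Lib_MP_2c424f_thr.Defs` -/

section

/-!
# MP_2c424f_pr, the sharp threshold on tori: definitions

Paper proof: `/team-store/thr_proof.md`.  Notation of `Lib_MP_2c424f_lo`, `Lib_MP_2c424f_lin`: `Site d k = (ℤ/2^k)^d`,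
steps `Stp d`, `sv`, classes `cls b`, `NN`, `Prp`, `prps`, `ZZ`, `SS`, `av`, `zz`, `PP`, `fib`, `fm`, `zt`, `pl i j`.
-/

set_option autoImplicit false

open Finset Filter

namespace Pool.Agent.THR

open Pool.Agent.LO Pool.Agent.LIN

/-! ## Regime and rare events -/

open scoped Classical in
/-- at most `Z exp(-N/d^C)` proper colourings have the property `P` -/
def Rar (C d k q : ℕ) (P : (Site d k → Fin q) → Prop) : Prop :=
  (((prps d k q).filter P).card : ℝ) ≤ ZZ d k q * Real.exp (-(NN d k / (d : ℝ) ^ C))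

/-- the statement holds for `d` large, `ε d ≤ q ≤ (2-ε) d` and all large `k` -/
def EvT (ε : ℝ) (P : ℕ → ℕ → ℕ → Prop) : Prop :=
  ∃ d₀ : ℕ, ∀ d q : ℕ, d₀ ≤ d → ε * d ≤ q → (q : ℝ) ≤ (2 - ε) * d → ∀ᶠ k : ℕ in atTop, P d k q

/-- with overwhelming probability -/
def WOP (ε : ℝ) (P : ∀ d k q : ℕ, (Site d k → Fin q) → Prop) : Prop :=
  ∃ C : ℕ, EvT ε fun d k q => Rar C d k q fun f => ¬ P d k q f

/-- with overwhelming probability, uniformly in a parameter `i`.  Hypotheses on `i` are part of `P` (as premises) -/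
def WOPi (ε : ℝ) (ι : ℕ → ℕ → ℕ → Type) (P : ∀ d k q : ℕ, ι d k q → (Site d k → Fin q) → Prop) : Prop :=
  ∃ C : ℕ, EvT ε fun d k q => ∀ i : ι d k q, Rar C d k q fun f => ¬ P d k q i f

/-- `a = 2 d / q` -/
noncomputable def ra (d q : ℕ) : ℝ := 2 * d / q

/-- upper bound of `a` -/
noncomputable def A0 (ε : ℝ) : ℝ := 2 / ε

/-- lower bound of `a` -/
noncomputable def a1 (ε : ℝ) : ℝ := 2 / (2 - ε)

/-- threshold for regular sites -/
noncomputable def c1 (ε : ℝ) : ℝ := (4 : ℝ) ^ (-A0 ε) / 4

/-- the opposite step -/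
def opp {d : ℕ} (σ : Stp d) : Stp d := (σ.1, !σ.2)

section stats
variable {d k q : ℕ}

/-- bounded differences: changing one colour of a colouring of a fibre changes `Ψ` by at most `c` -/
def Lip (b : Bool) (c : ℝ) (Ψ : (Site d k → Fin q) → ℝ) : Prop :=
  ∀ f ∈ prps d k q, ∀ h ∈ fib b f, ∀ v ∈ cls b d k, ∀ γ, γ ∉ SS f v → |Ψ (Function.update h v γ) - Ψ h| ≤ c

/-! ## Availability -/

open scoped Classical in
/-- number of colours not used on the neighbours `u` of `v` which have not exactly one available colour -/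
noncomputable def Vn (f : Site d k → Fin q) (v : Site d k) : ℕ :=
  (univ.filter fun c : Fin q => ∀ σ : Stp d, f (v + sv σ) = c → av f (v + sv σ) = 1).card

open scoped Classical in
/-- frozen sites of the class `b` -/
noncomputable def Fz (b : Bool) (f : Site d k → Fin q) : Finset (Site d k) :=
  (cls b d k).filter fun v => av f v = 1

open scoped Classical in
/-- exceptional sites of the class `b` -/
noncomputable def Bd (b : Bool) (f : Site d k → Fin q) : Finset (Site d k) :=
  (cls b d k).filter fun v => (Vn f v : ℝ) < q * (4 : ℝ) ^ (-ra d q) / 2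

open scoped Classical in
/-- number of irregular sites -/
noncomputable def irr (ε : ℝ) (f : Site d k → Fin q) : ℝ :=
  ((univ.filter fun v : Site d k => (av f v : ℝ) < c1 ε * q).card : ℝ)

/-- regular site -/
def Rg (ε : ℝ) (f : Site d k → Fin q) (v : Site d k) : Prop := c1 ε * q ≤ (av f v : ℝ)

/-- all neighbours are regular -/
def Nc (ε : ℝ) (f : Site d k → Fin q) (v : Site d k) : Prop := ∀ σ : Stp d, Rg ε f (v + sv σ)

/-! ## The sum rule -/

open scoped Classical in
/-- fibre steps of the plane `i j` -/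
noncomputable def fs (i j : Fin d) : Finset (Stp d) := univ.filter fun σ => σ.1 ≠ i ∧ σ.1 ≠ j

open scoped Classical in
/-- number of colours which no fibre neighbour of `u` has -/
noncomputable def aF (i j : Fin d) (f : Site d k → Fin q) (u : Site d k) : ℕ :=
  (univ.filter fun γ : Fin q => ∀ σ ∈ fs i j, f (u + sv σ) ≠ γ).card

open scoped Classical in
/-- `1` if no fibre neighbour of `u` has colour `c` or `c'` -/
noncomputable def BF (i j : Fin d) (c c' : Fin q) (f : Site d k → Fin q) (u : Site d k) : ℝ :=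
  if ∀ σ ∈ fs i j, f (u + sv σ) ≠ c ∧ f (u + sv σ) ≠ c' then 1 else 0

open scoped Classical in
/-- colours which no fibre neighbour of `u + τ`, except `u`, has -/
noncomputable def xS (i j : Fin d) (f : Site d k → Fin q) (u : Site d k) (τ : Stp d) : Finset (Fin q) :=
  univ.filter fun γ => ∀ ρ ∈ fs i j, ρ ≠ opp τ → f (u + sv τ + sv ρ) ≠ γ

open scoped Classical in
/-- probability of `c` or `c'` in `xS` -/
noncomputable def pF (i j : Fin d) (c c' : Fin q) (f : Site d k → Fin q) (u : Site d k) (τ : Stp d) : ℝ :=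
  ((if c ∈ xS i j f u τ then (1 : ℝ) else 0) + (if c' ∈ xS i j f u τ then (1 : ℝ) else 0)) /
    ((xS i j f u τ).card : ℝ)

/-- weight which compensates `BF` -/
noncomputable def WF (i j : Fin d) (c c' : Fin q) (f : Site d k → Fin q) (u : Site d k) : ℝ :=
  ∏ τ ∈ fs i j, (1 - pF i j c c' f u τ)⁻¹

/-- regularity used in the weight `WF` -/
def r1 (ε : ℝ) (i j : Fin d) (f : Site d k → Fin q) (u : Site d k) : Prop :=
  ∀ τ ∈ fs i j, c1 ε * q ≤ ((xS i j f u τ).card : ℝ)

open scoped Classical in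
/-- the weight, without the condition on `aF` -/
noncomputable def V1 (ε : ℝ) (i j : Fin d) (c c' : Fin q) (f : Site d k → Fin q) (u : Site d k) : ℝ :=
  if r1 ε i j f u then WF i j c c' f u * BF i j c c' f u else 0

open scoped Classical in
/-- the weight -/
noncomputable def VF (ε : ℝ) (i j : Fin d) (c c' : Fin q) (f : Site d k → Fin q) (u : Site d k) : ℝ :=
  if c1 ε * q ≤ (aF i j f u : ℝ) then V1 ε i j c c' f u else 0

/-- upper bound of the weights -/
noncomputable def CW (ε : ℝ) : ℝ := (4 : ℝ) ^ (2 * A0 ε / c1 ε)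

open scoped Classical in
/-- difference of two colour indicators -/
noncomputable def sg (c c' : Fin q) (f : Site d k → Fin q) (v : Site d k) : ℝ :=
  (if f v = c then (1 : ℝ) else 0) - (if f v = c' then (1 : ℝ) else 0)

/-- summand of the sum rule -/
noncomputable def GF (ε : ℝ) (i j : Fin d) (c c' : Fin q) (f : Site d k → Fin q) (u : Site d k) : ℝ :=
  VF ε i j c c' f u * ((aF i j f u : ℝ) / q * sg c c' f u + 1 / q * ∑ σ ∈ pl i j, sg c c' f (u + sv σ))

/-- the part of the summand which belongs to the step `σ` -/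
noncomputable def TF (ε : ℝ) (i j : Fin d) (c c' : Fin q) (σ : Stp d) (f : Site d k → Fin q) (u : Site d k) : ℝ :=
  VF ε i j c c' f u * (1 / q * sg c c' f (u + sv σ) + (aF i j f u : ℝ) / (4 * q) * sg c c' f u)

/-- number of plane neighbours of `u` with colour `c` -/
def nP (i j : Fin d) (c : Fin q) (f : Site d k → Fin q) (u : Site d k) : ℕ :=
  ((pl i j).filter fun σ => f (u + sv σ) = c).card

/-- total weight -/
noncomputable def Wt (b : Bool) (w : Site d k → ℝ) : ℝ := ∑ u ∈ cls b d k, |w u|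

/-- even plane position -/
def pev (i j : Fin d) (v : Site d k) : Prop := Even ((v i).val + (v j).val)

/-- constant of the sum rule -/
noncomputable def C2 (ε : ℝ) : ℝ := 136 * CW ε / c1 ε ^ 2

/-! ## Local densities -/

open scoped Classical in
/-- `q` times the indicator of the colour `c` -/
noncomputable def bq (c : Fin q) (f : Site d k → Fin q) (v : Site d k) : ℝ := if f v = c then (q : ℝ) else 0

/-- conditional mean of `bq` -/
noncomputable def gg (c : Fin q) (f : Site d k → Fin q) (v : Site d k) : ℝ := q * zz f v c / (av f v : ℝ)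

/-- kernel of the `t`-th power of the averaging operator -/
noncomputable def Kt (t : ℕ) (u y : Site d k) : ℝ := PP^[t] (fun x => if x = y then (1 : ℝ) else 0) u

/-- `∑_{u ~ v} z_u / x_u` -/
noncomputable def hh (c : Fin q) (f : Site d k → Fin q) (v : Site d k) : ℝ :=
  ∑ σ : Stp d, zz f (v + sv σ) c / (av f (v + sv σ) : ℝ)

/-- mean-field value of `x_v / q` -/
noncomputable def al (f : Site d k → Fin q) (v : Site d k) : ℝ := (∑ c : Fin q, Real.exp (-hh c f v)) / q

/-- mean-field density -/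
noncomputable def ya (c : Fin q) (f : Site d k → Fin q) (v : Site d k) : ℝ := Real.exp (-hh c f v) / al f v

/-- mean over the colours -/
noncomputable def mc (φ : Fin q → ℝ) : ℝ := (∑ c, φ c) / q

/-- good colourings -/
structure Good (ε δ C₆ : ℝ) (t : ℕ) (f : Site d k → Fin q) : Prop where
  irr4 : irr ε f ≤ NN d k / (d : ℝ) ^ 4
  grad : ∀ (c : Fin q) (σ τ : Stp d),
    ∑ x, (PP^[t] (gg c f) (x + sv σ) - PP^[t] (gg c f) (x + sv τ)) ^ 2 ≤ C₆ * NN d k / (q : ℝ) ^ 2
  smo : ∀ c : Fin q, ∑ x, (PP^[t] (bq c f) x - PP^[t] (gg c f) x) ^ 2 ≤ NN d k / (d : ℝ) ^ 4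
  hom : ∀ (c : Fin q) (σ τ : Stp d), ∑ x, (hh c f (x + sv σ) - hh c f (x + sv τ)) ^ 2 ≤ δ * NN d k
  avl : ∑ v, ((av f v : ℝ) / q - al f v) ^ 2 ≤ δ * NN d k
  mf : ∀ (c : Fin q) (σ : Stp d), ∑ u, (hh c f u - ra d q * ya c f (u + sv σ)) ^ 2 ≤ δ * NN d k
  sm0 : ∀ c : Fin q, ∑ u, (PP^[t] (gg c f) u - ya c f u) ^ 2 ≤ δ * NN d k
  sm1 : ∀ (c : Fin q) (σ : Stp d), ∑ u, (PP^[t + 1] (gg c f) u - ya c f (u + sv σ)) ^ 2 ≤ δ * NN d k
  sm2 : ∀ c : Fin q, ∑ u, (PP^[2 * t] (hh c f) u - hh c f u) ^ 2 ≤ δ * NN d k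

end stats

/-! ## Mean-field numbers -/

/-- `α* = e^{-a} cosh (a m)` -/
noncomputable def als (a m : ℝ) : ℝ := Real.exp (-a) * Real.cosh (a * m)

/-- `F y = e^{-a y} / α*` -/
noncomputable def Fy (a m y : ℝ) : ℝ := Real.exp (-(a * y)) / als a m

/-- `ψ y = - y log y + e^{-a y} / α*` -/
noncomputable def psi (a m y : ℝ) : ℝ := Real.negMulLog y + Fy a m y

/-- the common tangent of `ψ` at `1 ± m` -/
noncomputable def ell (a m y : ℝ) : ℝ :=
  (psi a m (1 + m) + psi a m (1 - m)) / 2 + (psi a m (1 + m) - psi a m (1 - m)) / (2 * m) * (y - 1)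

/-- the deficit -/
noncomputable def LL (a m y : ℝ) : ℝ := ell a m y - psi a m y

/-- the maximal value of the functional -/
noncomputable def Phi (a m : ℝ) : ℝ := ell a m 1 - 1 + Real.log (als a m)

/-- the mean-field equation -/
def MFE (a m : ℝ) : Prop := 0 < m ∧ m = Real.tanh (a * m)

/-- the symmetric fixed point -/
def YM (a m y : ℝ) : Prop := 0 ≤ y ∧ y = Fy a m y

/-- distance to `1 ± m` -/
noncomputable def dst2 (m y : ℝ) : ℝ := min |y - (1 - m)| |y - (1 + m)|

/-- distance to `1 - m, y_M, 1 + m` -/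
noncomputable def dst3 (m yM y : ℝ) : ℝ := min (dst2 m y) |y - yM|

/-- the label `± 1` -/
noncomputable def eps {d k q : ℕ} (c : Fin q) (f : Site d k → Fin q) (v : Site d k) : ℝ :=
  if 1 ≤ ya c f v then 1 else -1

end Pool.Agent.THR

end

/-! ### from `Lib_MP_2c424f_thr.DefsB` -/

section

/-!
# MP_2c424f_pr, the sharp threshold on tori: definitions for the block argument

Blocks `t : Blk d k` of the torus of side `2^(k+1)`, points `pt t a b` of `Lib_MP_2c424f_lo`.
-/

set_option autoImplicit false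

open Finset Filter

namespace Pool.Agent.THR

open Pool.Agent.LO Pool.Agent.LIN

/-! ## Blocks -/

/-- shapes: the block and its faces -/
abbrev Shp (d : ℕ) := Option (Fin d × Bool)

/-- the pair of bit vectors belongs to the shape -/
def inS {d : ℕ} (s : Shp d) (a b : Bt d) : Prop :=
  match s with
  | none => True
  | some (j, β) => a j = β ∧ b j = β

open scoped Classical in
/-- odd pairs of bit vectors in the shape -/
noncomputable def oS {d : ℕ} (s : Shp d) : Finset (Bt d × Bt d) := univ.filter fun p => od p.1 p.2 ∧ inS s p.1 p.2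

/-- mean over the odd points of the shape -/
noncomputable def Ms {d k : ℕ} (s : Shp d) (t : Blk d k) (φ : Site d (k + 1) → ℝ) : ℝ :=
  (∑ p ∈ oS s, φ (pt t p.1 p.2)) / ((oS s).card : ℝ)

/-- label `1`: high density of the colour `c` -/
def hiL {d k q : ℕ} (θ : ℝ) (c : Fin q) (f : Site d (k + 1) → Fin q) (t : Blk d k) : Prop :=
  ∀ s, θ ≤ Ms s t (bq c f)

/-- label `0`: low density of the colour `c` -/
def loL {d k q : ℕ} (θ : ℝ) (c : Fin q) (f : Site d (k + 1) → Fin q) (t : Blk d k) : Prop :=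
  ∀ s, Ms s t (bq c f) ≤ θ

/-- bad block -/
def bdT {d k q : ℕ} (θ θ' : ℝ) (c : Fin q) (t : Blk d k) (f : Site d (k + 1) → Fin q) : Prop :=
  ¬ hiL θ c f t ∧ ¬ loL θ' c f t

/-- the block is close to one of the three values -/
def tauG {d k q : ℕ} (η m yM : ℝ) (c : Fin q) (f : Site d (k + 1) → Fin q) (t : Blk d k) (τ : ℝ) : Prop :=
  (τ = 1 - m ∨ τ = yM ∨ τ = 1 + m) ∧ (∀ s, |Ms s t (bq c f) - τ| ≤ η) ∧
    Ms none t (fun v => if η < |ya c f v - τ| then (1 : ℝ) else 0) ≤ η

end Pool.Agent.THR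

end

/-! ### from `Lib_MP_2c424f_lc.Defs` -/

section

/-!
# MP_2c424f_pr, corners in the linear regime: definitions

Paper proof: `/team-store/lincor_proof.md`.  Even `q` with `1000 ≤ a = 2 d / q ≤ 2000`.
-/

set_option autoImplicit false

open Finset Filter

namespace Pool.Agent.LC

open Pool.Agent.LO Pool.Agent.LIN Pool.Agent.THR Pool.Agent.COR

/-! ## Regime -/

/-- `q` even and `1000 ≤ 2 d / q ≤ 2000` -/
def Rg (d q : ℕ) : Prop := Even q ∧ 1000 * q ≤ 2 * d ∧ 2 * d ≤ 2000 * q

/-- for `d` large, all `q` in the regime and all large `k` -/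
def EvR (P : ℕ → ℕ → ℕ → Prop) : Prop :=
  ∃ d₀ : ℕ, ∀ d q : ℕ, d₀ ≤ d → Rg d q → ∀ᶠ k : ℕ in atTop, P d k q

open scoped Classical in
/-- the mean-field magnetisation: a solution of `m = tanh (a m)`, `m > 0` -/
noncomputable def ms (d q : ℕ) : ℝ := if h : ∃ m : ℝ, MFE (ra d q) m then h.choose else 0

/-- `ε = e^{-a} / a` -/
noncomputable def ep (d q : ℕ) : ℝ := Real.exp (-ra d q) / ra d q

/-- precision of the labels -/
noncomputable def et : ℝ := 1 / 1000

/-! ## Local statistics of colourings of a graph -/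

section graph
variable {V : Type} [Fintype V] {q : ℕ}

open scoped Classical in
/-- neighbours -/
noncomputable def nb (X : SimpleGraph V) (v : V) : Finset V := univ.filter fun x => X.Adj v x

open scoped Classical in
/-- colours which no neighbour of `v` has -/
noncomputable def Rv (X : SimpleGraph V) (F : V → Fin q) (v : V) : Finset (Fin q) :=
  univ.filter fun c => ∀ x, X.Adj v x → F x ≠ c

open scoped Classical in
/-- colours which no neighbour of `v`, except `w`, has -/
noncomputable def Rc (X : SimpleGraph V) (F : V → Fin q) (v w : V) : Finset (Fin q) :=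
  univ.filter fun c => ∀ x, X.Adj v x → x ≠ w → F x ≠ c

open scoped Classical in
/-- number of neighbours of `v` with colour `c` -/
noncomputable def nv (X : SimpleGraph V) (F : V → Fin q) (v : V) (c : Fin q) : ℕ :=
  (univ.filter fun x => X.Adj v x ∧ F x = c).card

open scoped Classical in
/-- number of neighbours of `v`, except `w`, with colour `c` -/
noncomputable def nc (X : SimpleGraph V) (F : V → Fin q) (v w : V) (c : Fin q) : ℕ :=
  (univ.filter fun x => X.Adj v x ∧ x ≠ w ∧ F x = c).card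

/-- `(v, c)` is of type `S`: the colour `c` is used at the sites of the parity of `v`
(`A`: colours of the even sites); otherwise it is of type `B` -/
def tS (ev : V → Prop) (A : Finset (Fin q)) (v : V) (c : Fin q) : Prop := ev v ↔ c ∈ A

open scoped Classical in
/-- typical site, conditions on the second neighbours -/
structure TyO (d : ℕ) (X : SimpleGraph V) (ev : V → Prop) (A : Finset (Fin q)) (F : V → Fin q) (v : V) : Prop where
  o1 : ∀ c, tS ev A v c → (((nb X v).filter fun x => c ∈ Rc X F x v).card : ℝ) ≤ ep d q * (2 * d)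
  o2 : ∀ c, ∑ x ∈ nb X v, (nc X F x v c : ℝ) ^ 2 ≤ 20 * ra d q ^ 2 * (2 * d)
  o3 : ∀ c, ¬ tS ev A v c → ∑ x ∈ nb X v, (nc X F x v c : ℝ) ≤ Real.exp (-ra d q / 2) * (2 * d)

open scoped Classical in
/-- typical site, conditions on the neighbours -/
structure TyE (d : ℕ) (X : SimpleGraph V) (ev : V → Prop) (A : Finset (Fin q)) (F : V → Fin q) (v : V) : Prop where
  e1 : (q : ℝ) / 3 ≤ ((Rv X F v).card : ℝ)
  e2 : (((Rv X F v).filter fun c => ¬ tS ev A v c).card : ℝ) ≤ Real.exp (-ra d q) * q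
  e3 : ∑ c, (nv X F v c : ℝ) ^ 4 ≤ 1000 * ra d q ^ 4 * q
  e4 : ∑ c ∈ univ.filter (fun c => tS ev A v c), (nv X F v c : ℝ) ^ 2 ≤ Real.exp (-ra d q / 2) * q

/-- typical site -/
def Ty (d : ℕ) (X : SimpleGraph V) (ev : V → Prop) (A : Finset (Fin q)) (F : V → Fin q) (v : V) : Prop :=
  TyO d X ev A F v ∧ TyE d X ev A F v

end graph

/-! ## Patterns of closed 2-blocks -/

/-- a pattern: colours of the points `(a, b)` of a closed block -/
abbrev Pat (d q : ℕ) := Bt d → Bt d → Fin q

open scoped Classical in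
/-- even pairs of bit vectors in the shape -/
noncomputable def eS {d : ℕ} (s : Shp d) : Finset (Bt d × Bt d) := univ.filter fun p => ¬ od p.1 p.2 ∧ inS s p.1 p.2

open scoped Classical in
/-- `q` times the frequency of the colour `c` at the odd (`e = false`) or even (`e = true`) points of the shape -/
noncomputable def frq {d q : ℕ} (e : Bool) (s : Shp d) (c : Fin q) (g : Pat d q) : ℝ :=
  (∑ p ∈ (if e then eS s else oS s), if g p.1 p.2 = c then (q : ℝ) else 0) / (((if e then eS s else oS s).card : ℕ) : ℝ)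

/-- the label of the colour `c`: `hi = true`: the colour is used at the odd points, `hi = false`: at the even points -/
def st {d q : ℕ} (η : ℝ) (hi : Bool) (c : Fin q) (g : Pat d q) : Prop :=
  ∀ s : Shp d, |frq (!hi) s c g - (1 + ms d q)| ≤ η ∧ |frq hi s c g - (1 - ms d q)| ≤ η

/-- no label -/
def bdP {d q : ℕ} (η : ℝ) (c : Fin q) (g : Pat d q) : Prop := ¬ st η true c g ∧ ¬ st η false c g

/-- every colour has a label -/
def G0P {d q : ℕ} (g : Pat d q) : Prop := ∀ c, ¬ bdP et c g

open scoped Classical in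
/-- the colours which are used at the even points -/
noncomputable def ALP {d q : ℕ} (g : Pat d q) : Finset (Fin q) := univ.filter fun c => st et false c g

/-- good pattern -/
def GDP {d q : ℕ} (g : Pat d q) : Prop := G0P g ∧ (ALP g).card = q / 2

/-- unbalanced pattern -/
def UBP {d q : ℕ} (g : Pat d q) : Prop := G0P g ∧ (ALP g).card ≠ q / 2

/-- the two kinds of bad patterns: a colour without label (`some c`), unbalanced (`none`) -/
def BDP {d q : ℕ} (τ : Option (Fin q)) (g : Pat d q) : Prop :=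
  match τ with
  | some c => bdP et c g
  | none => UBP g

/-! ## The torus -/

/-- the graph of the torus -/
noncomputable def tG (d k : ℕ) : SimpleGraph (Site d k) := gV univ

/-- the pattern of a block -/
def pat {d k q : ℕ} (f : Site d (k + 1) → Fin q) (t : Blk d k) : Pat d q := fun a b => f (pt t a b)

open scoped Classical in
/-- number of the points of the good blocks which are not typical with respect to the labels of the block -/
noncomputable def nAt {d k q : ℕ} (f : Site d (k + 1) → Fin q) : ℕ :=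
  (univ.filter fun p : Blk d k × Bt d × Bt d => G0P (pat f p.1) ∧
    ¬ Ty d (tG d (k + 1)) evn (ALP (pat f p.1)) f (pt p.1 p.2.1 p.2.2)).card

/-! ## Boxes -/

/-- vertices of the box `{0..l}^d` -/
abbrev BxV (d l : ℕ) := Fin d → Fin (l + 1)

/-- the graph of the box -/
def bG (d l : ℕ) : SimpleGraph (BxV d l) where
  Adj x y := ∃ i, (∀ j, j ≠ i → x j = y j) ∧ ((x i).val + 1 = (y i).val ∨ (y i).val + 1 = (x i).val)
  symm := ⟨fun _ _ ⟨i, h, h'⟩ => ⟨i, fun j hj => (h j hj).symm, h'.symm⟩⟩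
  loopless := ⟨fun x ⟨i, _, h'⟩ => by rcases h' with h' | h' <;> omega⟩

/-- even vertices of the box -/
def bev {d l : ℕ} (x : BxV d l) : Prop := Even (∑ i, (x i).val)

/-- `0` or `1` -/
def b01 (a : Bool) : ℕ := if a then 1 else 0

/-- points of the closed 2-blocks of the box -/
def bpt {d l : ℕ} (t : Fin d → Fin (l / 2)) (a b : Bt d) : BxV d l := fun i =>
  ⟨2 * (t i).val + b01 (a i) + b01 (b i), by
    have h := (t i).isLt
    have h1 : b01 (a i) ≤ 1 := by unfold b01; split_ifs <;> omega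
    have h2 : b01 (b i) ≤ 1 := by unfold b01; split_ifs <;> omega
    omega⟩

/-- distance at least `m` from the boundary -/
def inn {d l : ℕ} (m : ℕ) (x : BxV d l) : Prop := ∀ i, m ≤ (x i).val ∧ (x i).val + m ≤ l

open scoped Classical in
/-- the box event: too many bad blocks or too many atypical points -/
def EvB {d l q : ℕ} (K : ℕ) (f : BxV d l → Fin q) : Prop :=
  ((l / 2 : ℕ) : ℝ) ^ d / (d : ℝ) ^ K <
      ((univ.filter fun t : Fin d → Fin (l / 2) => ¬ GDP (fun a b => f (bpt t a b))).card : ℝ) ∨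
  4 ^ d * ((l / 2 : ℕ) : ℝ) ^ d / (d : ℝ) ^ K <
      ((univ.filter fun p : (Fin d → Fin (l / 2)) × Bt d × Bt d => inn 3 (bpt p.1 p.2.1 p.2.2) ∧
        G0P (fun a b => f (bpt p.1 a b)) ∧
        ¬ Ty d (bG d l) bev (ALP (fun a b => f (bpt p.1 a b))) f (bpt p.1 p.2.1 p.2.2)).card : ℝ)

/-! ## Cells in a graph -/

section cells
variable {V : Type} [Fintype V]

/-- disjoint induced boxes of side `l`; only their boundary has neighbours outside -/
structure Cells (d l : ℕ) (X : SimpleGraph V) (ev : V → Prop) {ι : Type} (κ : ι → BxV d l → V) : Prop where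
  inj : ∀ j j' u u', κ j u = κ j' u' → j = j' ∧ u = u'
  adj : ∀ j u u', X.Adj (κ j u) (κ j u') ↔ (bG d l).Adj u u'
  cl : ∀ j u, inn 1 u → ∀ v, X.Adj (κ j u) v → ∃ u', v = κ j u'
  par : ∀ j u, ev (κ j u) ↔ bev u

/-! ## Layers -/

/-- `Λ` is a layer in two copies `i false`, `i true` in `X`; levels `0, …, h - 1`; outside neighbours only at the two
end levels; `X'` is `X` with the outside neighbours of the copies exchanged at level `0` -/
structure Layer {Λ : Type} (h : ℕ) (X X' : SimpleGraph V) (ev : V → Prop) (G : SimpleGraph Λ) (lv : Λ → ℕ)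
    (i : Bool → Λ → V) : Prop where
  inj : ∀ b b' p p', i b p = i b' p' → b = b' ∧ p = p'
  lt : ∀ p, lv p < h
  lvl : ∀ p p', G.Adj p p' → lv p ≤ lv p' + 1
  par : ∀ p, ev (i true p) ↔ ev (i false p)
  adj : ∀ b b' p p', X.Adj (i b p) (i b' p') ↔ b = b' ∧ G.Adj p p'
  adj' : ∀ b b' p p', X'.Adj (i b p) (i b' p') ↔ b = b' ∧ G.Adj p p'
  out : ∀ b p v, (∀ b' p', v ≠ i b' p') → X.Adj v (i b p) → lv p = 0 ∨ lv p + 1 = h
  oo : ∀ v w, (∀ b' p', v ≠ i b' p') → (∀ b' p', w ≠ i b' p') → (X'.Adj v w ↔ X.Adj v w)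
  oi : ∀ b p v, (∀ b' p', v ≠ i b' p') → (X'.Adj v (i b p) ↔ X.Adj v (i (if lv p = 0 then !b else b) p))

end cells

end Pool.Agent.LC

end

/-! ### from `Lib_MP_2c424f_thr.A1` -/

section

/-!
# THR A1: the mean-field equation (paper proof: A1)

* `mfe_exists`: `g m = tanh (a m) - m` is positive for small `m > 0` (`tanh x ≥ x - x³/3`) and negative at `1`; intermediate value theorem.
* `mfe_lower`: `m = tanh (am) ≥ am - (am)³/3`, so `m² ≥ 3(a-1)/a³`.
* `mfe_unique`: `tanh (x)/x` is strictly decreasing on `(0,∞)`.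
* identities: `e^(-a(1±m))/α* = 1 ∓ m` from `tanh`.
* `phi_eq`: `ell 1 = (ψ(1+m)+ψ(1-m))/2 = -((1+m) log (1+m) + (1-m) log (1-m))/2 + 1`.
-/

set_option autoImplicit false

open Finset Filter

namespace Pool.Agent.THR

private theorem A1_x_le (x : ℝ) (hx : 0 ≤ x) : Real.sinh x ≤ x * Real.cosh x := by
  have hm : MonotoneOn (fun t : ℝ => t * Real.cosh t - Real.sinh t) (Set.Ici 0) := by
    have hd : ∀ t : ℝ, HasDerivAt (fun t : ℝ => t * Real.cosh t - Real.sinh t) (t * Real.sinh t) t := by
      intro t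
      have h := ((hasDerivAt_id t).mul (Real.hasDerivAt_cosh t)).sub (Real.hasDerivAt_sinh t)
      have e : 1 * Real.cosh t + id t * Real.sinh t - Real.cosh t = t * Real.sinh t := by simp
      rw [e] at h
      exact h
    refine monotoneOn_of_deriv_nonneg (convex_Ici 0) (fun t _ => (hd t).continuousAt.continuousWithinAt)
      (fun t _ => (hd t).differentiableAt.differentiableWithinAt) ?_
    intro t ht
    rw [interior_Ici] at ht
    rw [(hd t).deriv]
    have ht' : (0 : ℝ) < t := ht
    exact mul_nonneg ht'.le (Real.sinh_nonneg_iff.2 ht'.le)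
  have := hm (Set.self_mem_Ici) (Set.mem_Ici.2 hx) hx
  simp at this
  linarith

theorem tanh_ge (x : ℝ) (hx : 0 ≤ x) : x - x ^ 3 / 3 ≤ Real.tanh x := by
  have hm : MonotoneOn (fun t : ℝ => Real.sinh t - (t - t ^ 3 / 3) * Real.cosh t) (Set.Ici 0) := by
    have hd : ∀ t : ℝ, HasDerivAt (fun t : ℝ => Real.sinh t - (t - t ^ 3 / 3) * Real.cosh t)
        (t * (t * Real.cosh t - Real.sinh t) + t ^ 3 / 3 * Real.sinh t) t := by
      intro t
      have h1 : HasDerivAt (fun t : ℝ => t - t ^ 3 / 3) (1 - t ^ 2) t := by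
        have h := (hasDerivAt_id t).sub (((hasDerivAt_id t).pow 3).div_const 3)
        refine h.congr_deriv ?_
        simp
      have h := (Real.hasDerivAt_sinh t).sub (h1.mul (Real.hasDerivAt_cosh t))
      refine h.congr_deriv ?_
      ring
    refine monotoneOn_of_deriv_nonneg (convex_Ici 0) (fun t _ => (hd t).continuousAt.continuousWithinAt)
      (fun t _ => (hd t).differentiableAt.differentiableWithinAt) ?_
    intro t ht
    rw [interior_Ici] at ht
    rw [(hd t).deriv]
    have ht' : (0 : ℝ) < t := ht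
    have h1 := A1_x_le t ht'.le
    have h2 : 0 ≤ Real.sinh t := Real.sinh_nonneg_iff.2 ht'.le
    have h3 : 0 ≤ t * (t * Real.cosh t - Real.sinh t) := mul_nonneg ht'.le (by linarith)
    have h4 : 0 ≤ t ^ 3 / 3 * Real.sinh t := mul_nonneg (by positivity) h2
    linarith
  have := hm (Set.self_mem_Ici) (Set.mem_Ici.2 hx) hx
  simp at this
  rw [Real.tanh_eq_sinh_div_cosh, le_div_iff₀ (Real.cosh_pos x)]
  linarith

private theorem A1_cont : Continuous Real.tanh := by
  have : Real.tanh = fun x => Real.sinh x / Real.cosh x := by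
    funext x; exact Real.tanh_eq_sinh_div_cosh x
  rw [this]
  exact Real.continuous_sinh.div Real.continuous_cosh fun x => (Real.cosh_pos x).ne'

theorem mfe_exists (a : ℝ) (ha : 1 < a) : ∃ m : ℝ, MFE a m := by
  have ha0 : 0 < a := by linarith
  have hc : Continuous fun m : ℝ => Real.tanh (a * m) - m :=
    (A1_cont.comp (continuous_const.mul continuous_id)).sub continuous_id
  set m0 : ℝ := Real.sqrt ((a - 1) / a ^ 3) with hm0
  have hq : 0 < (a - 1) / a ^ 3 := div_pos (by linarith) (by positivity)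
  have hm0p : 0 < m0 := Real.sqrt_pos.2 hq
  have hsq : m0 ^ 2 = (a - 1) / a ^ 3 := Real.sq_sqrt hq.le
  have hm01 : m0 ≤ 1 := by
    have : m0 ^ 2 ≤ 1 := by
      rw [hsq, div_le_one (by positivity)]
      nlinarith [mul_pos ha0 ha0, mul_pos (mul_pos ha0 ha0) ha0]
    nlinarith
  have h0 : 0 ≤ Real.tanh (a * m0) - m0 := by
    have h := tanh_ge (a * m0) (by positivity)
    have e : (a * m0) ^ 3 / 3 = m0 * ((a - 1) / 3) := by
      have : (a * m0) ^ 3 = a ^ 3 * m0 ^ 2 * m0 := by ring
      rw [this, hsq]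
      field_simp
    rw [e] at h
    nlinarith
  have h1 : Real.tanh (a * 1) - 1 ≤ 0 := by
    have := Real.tanh_lt_one (a * 1)
    linarith
  have hiv := intermediate_value_Icc' hm01 hc.continuousOn
  obtain ⟨m, hm, hm2⟩ := hiv (Set.mem_Icc.2 ⟨h1, h0⟩)
  refine ⟨m, lt_of_lt_of_le hm0p hm.1, ?_⟩
  simp only at hm2
  linarith

theorem mfe_lt (a m : ℝ) (h : MFE a m) : m < 1 := by
  rw [h.2]; exact Real.tanh_lt_one _

theorem mfe_lower (a m : ℝ) (ha : 1 < a) (h : MFE a m) : 3 * (a - 1) / a ^ 3 ≤ m ^ 2 := by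
  have ha0 : 0 < a := by linarith
  have hm := h.1
  have h1 := tanh_ge (a * m) (by positivity)
  rw [← h.2] at h1
  rw [div_le_iff₀ (by positivity)]
  have e : a * m - (a * m) ^ 3 / 3 = m * (a - a ^ 3 * m ^ 2 / 3) := by ring
  rw [e] at h1
  have h2 : a - a ^ 3 * m ^ 2 / 3 ≤ 1 := by
    by_contra hc
    push Not at hc
    nlinarith
  nlinarith

/-- `t coth t` is strictly increasing -/
theorem A1_coth_mono : StrictMonoOn (fun t : ℝ => t * Real.cosh t / Real.sinh t) (Set.Ioi 0) := by
  have hd : ∀ t : ℝ, 0 < t → HasDerivAt (fun t : ℝ => t * Real.cosh t / Real.sinh t)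
      ((Real.cosh t * Real.sinh t - t) / Real.sinh t ^ 2) t := by
    intro t ht
    have hs : 0 < Real.sinh t := Real.sinh_pos_iff.2 ht
    have h := ((hasDerivAt_id t).mul (Real.hasDerivAt_cosh t)).div (Real.hasDerivAt_sinh t) hs.ne'
    refine h.congr_deriv ?_
    simp only [id, Pi.mul_apply]
    congr 1
    have := Real.cosh_sq t
    nlinarith
  refine strictMonoOn_of_deriv_pos (convex_Ioi 0)
    (fun t ht => (hd t ht).continuousAt.continuousWithinAt) ?_
  intro t ht
  rw [interior_Ioi] at ht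
  have ht' : (0 : ℝ) < t := ht
  rw [(hd t ht').deriv]
  have hs : 0 < Real.sinh t := Real.sinh_pos_iff.2 ht'
  refine div_pos ?_ (by positivity)
  have h2 : t < Real.sinh t := Real.self_lt_sinh_iff.2 ht'
  have h3 := Real.one_le_cosh t
  nlinarith

private theorem A1_coth (a m : ℝ) (h : MFE a m) : a * m * Real.cosh (a * m) / Real.sinh (a * m) = a := by
  have hm := h.1
  have h2 := h.2
  rw [Real.tanh_eq_sinh_div_cosh] at h2
  have hc := Real.cosh_pos (a * m)
  rw [eq_div_iff hc.ne'] at h2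
  have hs : Real.sinh (a * m) ≠ 0 := by
    rw [← h2]; positivity
  rw [div_eq_iff hs, ← h2]
  ring

private theorem A1_pos (a m : ℝ) (h : MFE a m) : 0 < a * m := by
  have hm := h.1
  have h2 := h.2
  rw [Real.tanh_eq_sinh_div_cosh] at h2
  have hc := Real.cosh_pos (a * m)
  rw [eq_div_iff hc.ne'] at h2
  have : 0 < Real.sinh (a * m) := by rw [← h2]; positivity
  exact Real.sinh_pos_iff.1 this

theorem mfe_unique (a m m' : ℝ) (ha : 1 < a) (h : MFE a m) (h' : MFE a m') : m = m' := by
  have h1 := A1_coth a m h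
  have h2 := A1_coth a m' h'
  have := A1_coth_mono.injOn (Set.mem_Ioi.2 (A1_pos a m h)) (Set.mem_Ioi.2 (A1_pos a m' h'))
    (by show a * m * Real.cosh (a * m) / Real.sinh (a * m) = a * m' * Real.cosh (a * m') / Real.sinh (a * m'); rw [h1, h2])
  have ha0 : a ≠ 0 := by linarith
  exact mul_left_cancel₀ ha0 this

theorem als_pos (a m : ℝ) : 0 < als a m := by
  unfold als
  have := Real.cosh_pos (a * m)
  positivity

theorem als_bounds (a m : ℝ) (ha : 0 ≤ a) (hm : |m| ≤ 1) : Real.exp (-a) ≤ als a m ∧ als a m ≤ 1 := by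
  unfold als
  have he := Real.exp_pos (-a)
  refine ⟨by have := Real.one_le_cosh (a * m); nlinarith, ?_⟩
  have h1 : Real.cosh (a * m) ≤ Real.cosh a := by
    rw [Real.cosh_le_cosh, abs_mul, abs_of_nonneg ha]
    nlinarith
  have h2 : Real.cosh a ≤ Real.exp a := by
    have := Real.cosh_add_sinh a
    have h3 : 0 ≤ Real.sinh a := Real.sinh_nonneg_iff.2 ha
    linarith
  calc Real.exp (-a) * Real.cosh (a * m) ≤ Real.exp (-a) * Real.exp a := by
        exact mul_le_mul_of_nonneg_left (h1.trans h2) he.le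
    _ = 1 := by rw [← Real.exp_add]; simp

private theorem A1_tanh (a m : ℝ) (h : MFE a m) : Real.sinh (a * m) = m * Real.cosh (a * m) := by
  have h2 := h.2
  rw [Real.tanh_eq_sinh_div_cosh] at h2
  have hc := Real.cosh_pos (a * m)
  rw [eq_div_iff hc.ne'] at h2
  exact h2.symm

theorem Fy_add (a m : ℝ) (h : MFE a m) : Fy a m (1 + m) = 1 - m := by
  unfold Fy als
  have hc := Real.cosh_pos (a * m)
  have he := Real.exp_pos (-a)
  rw [div_eq_iff (by positivity)]
  have e : Real.exp (-(a * (1 + m))) = Real.exp (-a) * Real.exp (-(a * m)) := by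
    rw [← Real.exp_add]; ring_nf
  rw [e, ← Real.cosh_sub_sinh (a * m), A1_tanh a m h]
  ring

theorem Fy_sub (a m : ℝ) (h : MFE a m) : Fy a m (1 - m) = 1 + m := by
  unfold Fy als
  have hc := Real.cosh_pos (a * m)
  have he := Real.exp_pos (-a)
  rw [div_eq_iff (by positivity)]
  have e : Real.exp (-(a * (1 - m))) = Real.exp (-a) * Real.exp (a * m) := by
    rw [← Real.exp_add]; ring_nf
  rw [e, ← Real.cosh_add_sinh (a * m), A1_tanh a m h]
  ring

/-- `a m > 0` and the nondegeneracy `a² (1 - m²) < 1` -/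
theorem mfe_nondeg (a m : ℝ) (ha : 1 < a) (h : MFE a m) : a ^ 2 * (1 - m ^ 2) < 1 := by
  have hp := A1_pos a m h
  have hm := h.1
  have ht := A1_tanh a m h
  have hc := Real.cosh_pos (a * m)
  have hsq := Real.cosh_sq (a * m)
  have hs : a * m < Real.sinh (a * m) := Real.self_lt_sinh_iff.2 hp
  have h1 : (1 - m ^ 2) * Real.cosh (a * m) ^ 2 = 1 := by
    have : (m * Real.cosh (a * m)) ^ 2 = Real.cosh (a * m) ^ 2 - 1 := by rw [← ht]; linarith
    nlinarith
  have h2 : a < Real.cosh (a * m) := by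
    rw [ht] at hs
    have : a * m < Real.cosh (a * m) * m := by linarith
    exact lt_of_mul_lt_mul_right this hm.le
  have h3 : a ^ 2 < Real.cosh (a * m) ^ 2 := by
    have ha0 : 0 < a := by linarith
    nlinarith
  have h4 : 0 < 1 - m ^ 2 := by
    have := mfe_lt a m h
    nlinarith
  calc a ^ 2 * (1 - m ^ 2) < Real.cosh (a * m) ^ 2 * (1 - m ^ 2) := by
        exact mul_lt_mul_of_pos_right h3 h4
    _ = 1 := by rw [mul_comm]; exact h1

private theorem A1_psi_add (a m : ℝ) (h : MFE a m) :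
    psi a m (1 + m) = -((1 + m) * Real.log (1 + m)) + (1 - m) := by
  unfold psi
  rw [Fy_add a m h, Real.negMulLog]; ring

private theorem A1_psi_sub (a m : ℝ) (h : MFE a m) :
    psi a m (1 - m) = -((1 - m) * Real.log (1 - m)) + (1 + m) := by
  unfold psi
  rw [Fy_sub a m h, Real.negMulLog]; ring

theorem phi_eq (a m : ℝ) (h : MFE a m) :
    Phi a m = -((1 + m) * Real.log (1 + m) + (1 - m) * Real.log (1 - m)) / 2 + Real.log (als a m) := by
  unfold Phi ell
  rw [A1_psi_add a m h, A1_psi_sub a m h]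
  ring

private theorem A1_log_sub (a m : ℝ) (h : MFE a m) :
    Real.log (1 - m) = -(a * (1 + m)) - Real.log (als a m) := by
  rw [← Fy_add a m h]
  unfold Fy
  rw [Real.log_div (Real.exp_pos _).ne' (als_pos a m).ne', Real.log_exp]

private theorem A1_log_add (a m : ℝ) (h : MFE a m) :
    Real.log (1 + m) = -(a * (1 - m)) - Real.log (als a m) := by
  rw [← Fy_sub a m h]
  unfold Fy
  rw [Real.log_div (Real.exp_pos _).ne' (als_pos a m).ne', Real.log_exp]

/-- slope of the common tangent -/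
theorem ell_eq (a m y : ℝ) (h : MFE a m) :
    ell a m y = ell a m 1 + (-Real.log (1 + m) - 1 - a * (1 - m)) * (y - 1) := by
  have hm := h.1
  unfold ell
  rw [A1_psi_add a m h, A1_psi_sub a m h, A1_log_sub a m h, A1_log_add a m h]
  field_simp
  ring

theorem LL_zero (a m : ℝ) (h : MFE a m) : LL a m (1 + m) = 0 ∧ LL a m (1 - m) = 0 := by
  have hm := h.1
  unfold LL ell
  constructor
  · field_simp
    ring
  · field_simp
    ring

end Pool.Agent.THR

end

/-! ### from `Lib_MP_2c424f_lc2.WDefs` -/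

section

/-!
# MP_2c424f_pr, corners in the linear regime: product domains with two sheets
-/

set_option autoImplicit false

open Finset Filter

namespace Pool.Agent.LC

open Pool.Agent.LO Pool.Agent.LIN Pool.Agent.THR Pool.Agent.COR

/-- path (`p = false`) or cycle (`p = true`) with `n` vertices -/
def lnG (p : Bool) (n : ℕ) : SimpleGraph (Fin n) where
  Adj a b := a ≠ b ∧ (a.val + 1 = b.val ∨ b.val + 1 = a.val ∨
    (p = true ∧ ((a.val = 0 ∧ b.val + 1 = n) ∨ (b.val = 0 ∧ a.val + 1 = n))))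
  symm := ⟨fun a b ⟨h, h'⟩ => ⟨h.symm, by tauto⟩⟩
  loopless := ⟨fun a h => h.1 rfl⟩

/-- product of one-dimensional graphs -/
def prG {I : Type} (n : I → ℕ) (R : ∀ i, SimpleGraph (Fin (n i))) : SimpleGraph (∀ i, Fin (n i)) where
  Adj x y := ∃ i, (∀ j, j ≠ i → x j = y j) ∧ (R i).Adj (x i) (y i)
  symm := ⟨fun _ _ ⟨i, h, h'⟩ => ⟨i, fun j hj => (h j hj).symm, h'.symm⟩⟩
  loopless := ⟨fun _ ⟨_, _, h'⟩ => h'.ne rfl⟩

section two
variable {W : Type}

/-- two sheets glued along `gl`; the points `(x, true)` with `gl x` are isolated -/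
def D2 (B : SimpleGraph W) (gl : W → Prop) : SimpleGraph (W × Bool) where
  Adj p p' := B.Adj p.1 p'.1 ∧ ¬ (p.2 = true ∧ gl p.1) ∧ ¬ (p'.2 = true ∧ gl p'.1) ∧ (p.2 = p'.2 ∨ gl p.1 ∨ gl p'.1)
  symm := ⟨fun p p' h => ⟨h.1.symm, h.2.2.1, h.2.1, by rcases h.2.2.2 with h | h | h <;> simp [h]⟩⟩
  loopless := ⟨fun p h => h.1.ne rfl⟩

open scoped Classical in
/-- number of pairs of proper colourings which agree on `gl`; an event for the first one -/
noncomputable def N2 [Fintype W] [DecidableEq W] {q : ℕ} (B : SimpleGraph W) (gl : W → Prop)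
    (P : (W → Fin q) → Prop) : ℝ :=
  ((univ.filter fun p : (W → Fin q) × (W → Fin q) =>
    PrG B p.1 ∧ PrG B p.2 ∧ (∀ x, gl x → p.1 x = p.2 x) ∧ P p.1).card : ℝ)

end two

/-! ## The domains `W_per` -/

/-- last index in a direction -/
def lm (p : Bool) (L s : ℕ) : ℕ := if p then 2 * L - 1 else 2 * (L - 1) + 2 * s

/-- position of the first block -/
def off (p : Bool) (s : ℕ) : ℕ := if p then 0 else s

/-- number of blocks -/
def nbk (p : Bool) (L : ℕ) : ℕ := if p then L else L - 1

section dom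
variable {d : ℕ} (per : Fin d → Bool) (L : Fin d → ℕ) (s : ℕ)

/-- the vertices of the base -/
abbrev WV := ∀ i, Fin (lm (per i) (L i) s + 1)

/-- the base graph -/
def WG : SimpleGraph (WV per L s) := prG (fun i => lm (per i) (L i) s + 1) fun i => lnG (per i) (lm (per i) (L i) s + 1)

/-- the glue set -/
def Wgl (x : WV per L s) : Prop := ∃ i, per i = false ∧ ((x i).val = 0 ∨ (x i).val = lm (per i) (L i) s)

/-- the points of the blocks -/
def Wpt (t : Fin d → ℕ) (a b : Bt d) : WV per L s := fun i =>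
  Fin.ofNat (lm (per i) (L i) s + 1) (off (per i) s + 2 * t i + b01 (a i) + b01 (b i))

/-- the event of a family of types of bad blocks -/
def WE {q : ℕ} (Γ : (Fin d → ℕ) → Option (Option (Fin q))) (f : WV per L s → Fin q) : Prop :=
  ∀ t, (∀ i, t i < nbk (per i) (L i)) → ∀ τ, Γ t = some τ → BDP τ fun a b => f (Wpt per L s t a b)

open scoped Classical in
/-- number of the bad blocks -/
noncomputable def Wn {q : ℕ} (Γ : (Fin d → ℕ) → Option (Option (Fin q))) : ℕ :=
  (univ.filter fun t : ∀ i, Fin (nbk (per i) (L i)) => Γ (fun i => (t i).val) ≠ none).card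

end dom

/-- number of proper colourings of the torus with the sides `n i` -/
noncomputable def Zt {d : ℕ} (q : ℕ) (n : Fin d → ℕ) : ℝ :=
  cG (prG n fun i => lnG true (n i)) (fun _ : (∀ i, Fin (n i)) → Fin q => True)

end Pool.Agent.LC

end

/-! ### from `Lib_MP_2c424f_lo.Multi` -/

section

/-!
# Multiscale argument (piece MULTI)

Abstract: `Ω` a finite set of configurations, `Bad ω` a set of blocks, `lab ω t` a label.  A block is a
`0`-cube; an `(e+1)`-cube (aligned, inside `{0,…,2^k-1}^d`) consists of `2^d` `e`-cubes and is bad if at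
least two of them are bad.  A bad `e`-cube contains a witness set of `2^e` bad blocks, at most
`4^(d (2^e - 1))` possible sets: probability at most `(4^d r)^(2^e)`.  A block is fine if all cubes which
contain it are good.  Adjacent good `e`-cubes contain adjacent `e`-fine blocks (`2^(d-1) ≥ 3` pairs, at
most two spoiled), hence all `e`-fine blocks of a good `e`-cube have the same label (Hamming induction:
if two cells `≠ p` differ in at least two coordinates there is a cell `≠ p` in between).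
-/

set_option autoImplicit false

open Finset

namespace Pool.Agent.LO

variable {d k : ℕ}

/-- next block in direction `j` -/
def nxt (t : Blk d k) (j : Fin d) : Blk d k := Function.update t j (t j + 1)

/-! ### cells, natural coordinates -/

/-- the cell of level `e` containing the block `t` -/
private def multiUp (e : ℕ) (t : Fin d → ℕ) : Fin d → ℕ := fun i => t i / 2 ^ e

/-- bad cells -/
private def multiBc (B : (Fin d → ℕ) → Prop) : ℕ → (Fin d → ℕ) → Prop
  | 0, s => B s
  | e + 1, s => ∃ s1 s2, s1 ≠ s2 ∧ multiUp 1 s1 = s ∧ multiUp 1 s2 = s ∧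
      multiBc B e s1 ∧ multiBc B e s2

/-- fine blocks -/
private def multiFine (B : (Fin d → ℕ) → Prop) (e : ℕ) (t : Fin d → ℕ) : Prop :=
  ∀ e' ≤ e, ¬ multiBc B e' (multiUp e' t)

private theorem multi_up_zero (t : Fin d → ℕ) : multiUp 0 t = t := by
  funext i; simp [multiUp]

private theorem multi_up_succ (e : ℕ) (t : Fin d → ℕ) : multiUp (e + 1) t = multiUp 1 (multiUp e t) := by
  funext i
  simp only [multiUp, pow_one]
  rw [Nat.div_div_eq_div_mul, pow_succ]

private theorem multi_fine_succ (B : (Fin d → ℕ) → Prop) (e : ℕ) (t : Fin d → ℕ)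
    (h : multiFine B e t) (h' : ¬ multiBc B (e + 1) (multiUp (e + 1) t)) : multiFine B (e + 1) t := by
  intro e' he'
  rcases Nat.lt_or_ge e' (e + 1) with h1 | h1
  · exact h e' (by omega)
  · have : e' = e + 1 := by omega
    subst this
    exact h'

private theorem multi_fine_mono (B : (Fin d → ℕ) → Prop) (e : ℕ) (t : Fin d → ℕ)
    (h : multiFine B (e + 1) t) : multiFine B e t := fun e' he' => h e' (by omega)

private theorem multi_pig (P0 P1 P2 Q0 Q1 Q2 : Prop) (a : ¬ (P0 ∧ P1)) (b : ¬ (P0 ∧ P2))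
    (c : ¬ (P1 ∧ P2)) (a' : ¬ (Q0 ∧ Q1)) (b' : ¬ (Q0 ∧ Q2)) (c' : ¬ (Q1 ∧ Q2)) :
    (¬ P0 ∧ ¬ Q0) ∨ (¬ P1 ∧ ¬ Q1) ∨ (¬ P2 ∧ ¬ Q2) := by
  by_cases h0 : P0
  · have h1 : ¬ P1 := fun h => a ⟨h0, h⟩
    have h2 : ¬ P2 := fun h => b ⟨h0, h⟩
    by_cases h3 : Q1
    · exact Or.inr (Or.inr ⟨h2, fun h => c' ⟨h3, h⟩⟩)
    · exact Or.inr (Or.inl ⟨h1, h3⟩)
  · by_cases h3 : Q0
    · have h1 : ¬ Q1 := fun h => a' ⟨h3, h⟩
      have h2 : ¬ Q2 := fun h => b' ⟨h3, h⟩
      by_cases h4 : P1
      · exact Or.inr (Or.inr ⟨fun h => c ⟨h4, h⟩, h2⟩)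
      · exact Or.inr (Or.inl ⟨h4, h1⟩)
    · exact Or.inl ⟨h0, h3⟩

/-- adjacent good cells contain adjacent fine blocks -/
private theorem multi_adj (hd : 3 ≤ d) (B : (Fin d → ℕ) → Prop) (j : Fin d) (e : ℕ) :
    ∀ p : Fin d → ℕ, ¬ multiBc B e p → ¬ multiBc B e (Function.update p j (p j + 1)) →
    ∃ t : Fin d → ℕ, multiUp e t = p ∧ multiFine B e t ∧
      multiUp e (Function.update t j (t j + 1)) = Function.update p j (p j + 1) ∧
      multiFine B e (Function.update t j (t j + 1)) := by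
  induction e with
  | zero =>
    intro p hp hp'
    refine ⟨p, multi_up_zero p, ?_, multi_up_zero _, ?_⟩
    · intro e' he'
      have : e' = 0 := by omega
      subst this
      rw [multi_up_zero]; exact hp
    · intro e' he'
      have : e' = 0 := by omega
      subst this
      rw [multi_up_zero]; exact hp'
  | succ e ih =>
    intro p hp hp'
    -- two other coordinates
    have hi : ∃ i1 i2 : Fin d, i1 ≠ j ∧ i2 ≠ j ∧ i1 ≠ i2 := by
      have hc : 1 < ((Finset.univ : Finset (Fin d)).erase j).card := by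
        rw [Finset.card_erase_of_mem (Finset.mem_univ _), Finset.card_univ, Fintype.card_fin]
        omega
      obtain ⟨i1, h1, i2, h2, h12⟩ := Finset.one_lt_card.1 hc
      exact ⟨i1, i2, Finset.ne_of_mem_erase h1, Finset.ne_of_mem_erase h2, h12⟩
    obtain ⟨i1, i2, hi1, hi2, hi12⟩ := hi
    set q0 : Fin d → ℕ := Function.update (fun i => 2 * p i) j (2 * p j + 1) with hq0
    set nx : (Fin d → ℕ) → (Fin d → ℕ) := fun q => Function.update q j (q j + 1) with hnx
    set q1 : Fin d → ℕ := Function.update q0 i1 (2 * p i1 + 1) with hq1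
    set q2 : Fin d → ℕ := Function.update q0 i2 (2 * p i2 + 1) with hq2
    have fam : ∀ q : Fin d → ℕ, q j = 2 * p j + 1 → (∀ i, i ≠ j → q i = 2 * p i ∨ q i = 2 * p i + 1) →
        multiUp 1 q = p ∧ multiUp 1 (nx q) = Function.update p j (p j + 1) := by
      intro q hqj hq
      constructor
      · funext i
        by_cases hij : i = j
        · subst hij
          simp only [multiUp, pow_one, hqj]; omega
        · rcases hq i hij with h | h <;> simp only [multiUp, pow_one, h] <;> omega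
      · funext i
        by_cases hij : i = j
        · subst hij
          simp only [multiUp, pow_one, hnx, Function.update_self, hqj]; omega
        · simp only [multiUp, pow_one, hnx, Function.update_of_ne hij]
          rcases hq i hij with h | h <;> rw [h] <;> omega
    have e0j : q0 j = 2 * p j + 1 := by simp [hq0]
    have e0 : ∀ i, i ≠ j → q0 i = 2 * p i := by
      intro i hij
      simp [hq0, Function.update_of_ne hij]
    have f0 := fam q0 e0j fun i hij => Or.inl (e0 i hij)
    have e1j : q1 j = 2 * p j + 1 := by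
      simp only [hq1]
      rw [Function.update_of_ne hi1.symm, e0j]
    have f1 := fam q1 e1j (by
      intro i hij
      by_cases h : i = i1
      · subst h; right; simp [hq1]
      · left
        simp only [hq1]
        rw [Function.update_of_ne h, e0 i hij])
    have e2j : q2 j = 2 * p j + 1 := by
      simp only [hq2]
      rw [Function.update_of_ne hi2.symm, e0j]
    have f2 := fam q2 e2j (by
      intro i hij
      by_cases h : i = i2
      · subst h; right; simp [hq2]
      · left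
        simp only [hq2]
        rw [Function.update_of_ne h, e0 i hij])
    have a0 : q0 i1 = 2 * p i1 := e0 i1 hi1
    have a0' : q0 i2 = 2 * p i2 := e0 i2 hi2
    have a1 : q1 i1 = 2 * p i1 + 1 := by simp [hq1]
    have a2 : q2 i2 = 2 * p i2 + 1 := by simp [hq2]
    have a1' : q1 i2 = 2 * p i2 := by
      simp only [hq1]
      rw [Function.update_of_ne hi12.symm, a0']
    have n01 : q0 ≠ q1 := by
      intro h
      have := congrFun h i1
      omega
    have n02 : q0 ≠ q2 := by
      intro h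
      have := congrFun h i2
      omega
    have n12 : q1 ≠ q2 := by
      intro h
      have := congrFun h i2
      omega
    have hnxinj : ∀ q q', nx q = nx q' → q = q' := by
      intro q q' h
      funext i
      by_cases hij : i = j
      · subst hij
        have := congrFun h i
        simp only [hnx, Function.update_self] at this
        omega
      · have := congrFun h i
        simpa only [hnx, Function.update_of_ne hij] using this
    have two : ∀ q q', q ≠ q' → multiUp 1 q = p → multiUp 1 q' = p →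
        ¬ (multiBc B e q ∧ multiBc B e q') := fun q q' hne h h' hb => hp ⟨q, q', hne, h, h', hb.1, hb.2⟩
    have two' : ∀ q q', q ≠ q' → multiUp 1 (nx q) = Function.update p j (p j + 1) →
        multiUp 1 (nx q') = Function.update p j (p j + 1) →
        ¬ (multiBc B e (nx q) ∧ multiBc B e (nx q')) := fun q q' hne h h' hb =>
      hp' ⟨nx q, nx q', fun hc => hne (hnxinj q q' hc), h, h', hb.1, hb.2⟩
    have hex : ∃ q : Fin d → ℕ, ¬ multiBc B e q ∧ ¬ multiBc B e (nx q) ∧
        multiUp 1 q = p ∧ multiUp 1 (nx q) = Function.update p j (p j + 1) := by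
      have t01 := two q0 q1 n01 f0.1 f1.1
      have t02 := two q0 q2 n02 f0.1 f2.1
      have t12 := two q1 q2 n12 f1.1 f2.1
      have t01' := two' q0 q1 n01 f0.2 f1.2
      have t02' := two' q0 q2 n02 f0.2 f2.2
      have t12' := two' q1 q2 n12 f1.2 f2.2
      rcases multi_pig _ _ _ _ _ _ t01 t02 t12 t01' t02' t12' with h | h | h
      · exact ⟨q0, h.1, h.2, f0.1, f0.2⟩
      · exact ⟨q1, h.1, h.2, f1.1, f1.2⟩
      · exact ⟨q2, h.1, h.2, f2.1, f2.2⟩
    obtain ⟨q, hq1', hq2', hq3, hq4⟩ := hex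
    obtain ⟨t, ht1, ht2, ht3, ht4⟩ := ih q hq1' hq2'
    refine ⟨t, ?_, ?_, ?_, ?_⟩
    · rw [multi_up_succ, ht1, hq3]
    · refine multi_fine_succ B e t ht2 ?_
      rw [multi_up_succ, ht1, hq3]; exact hp
    · rw [multi_up_succ, ht3]; exact hq4
    · refine multi_fine_succ B e _ ht4 ?_
      rw [multi_up_succ, ht3]
      have : multiUp 1 (Function.update q j (q j + 1)) = Function.update p j (p j + 1) := hq4
      rw [this]; exact hp'

/-- good cells contain fine blocks -/
private theorem multi_exists (hd : 3 ≤ d) (B : (Fin d → ℕ) → Prop) (e : ℕ) :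
    ∀ p : Fin d → ℕ, ¬ multiBc B e p → ∃ t : Fin d → ℕ, multiUp e t = p ∧ multiFine B e t := by
  induction e with
  | zero =>
    intro p hp
    refine ⟨p, multi_up_zero p, ?_⟩
    intro e' he'
    have : e' = 0 := by omega
    subst this
    rw [multi_up_zero]; exact hp
  | succ e ih =>
    intro p hp
    set q0 : Fin d → ℕ := fun i => 2 * p i with hq0
    set j : Fin d := ⟨0, by omega⟩ with hj
    set q1 : Fin d → ℕ := Function.update q0 j (2 * p j + 1) with hq1
    have h0 : multiUp 1 q0 = p := by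
      funext i
      simp [multiUp, hq0]
    have h1 : multiUp 1 q1 = p := by
      funext i
      by_cases hij : i = j
      · subst hij
        simp only [multiUp, pow_one, hq1, Function.update_self]; omega
      · simp only [multiUp, pow_one, hq1, Function.update_of_ne hij, hq0]; omega
    have hne : q0 ≠ q1 := by
      intro h
      have := congrFun h j
      simp only [hq1, Function.update_self, hq0] at this
      omega
    have hq : ∃ q, ¬ multiBc B e q ∧ multiUp 1 q = p := by
      by_cases b0 : multiBc B e q0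
      · by_cases b1 : multiBc B e q1
        · exact absurd ⟨q0, q1, hne, h0, h1, b0, b1⟩ hp
        · exact ⟨q1, b1, h1⟩
      · exact ⟨q0, b0, h0⟩
    obtain ⟨q, hqb, hqp⟩ := hq
    obtain ⟨t, ht1, ht2⟩ := ih q hqb
    refine ⟨t, ?_, ?_⟩
    · rw [multi_up_succ, ht1, hqp]
    · refine multi_fine_succ B e t ht2 ?_
      rw [multi_up_succ, ht1, hqp]; exact hp

/-- fine blocks of a cell have the same label -/
private theorem multi_label (hd : 3 ≤ d) (B L : (Fin d → ℕ) → Prop)
    (h2 : ∀ s : Fin d → ℕ, (∀ i, s i < 2 ^ k) → ∀ j, s j + 1 < 2 ^ k → ¬ B s →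
      ¬ B (Function.update s j (s j + 1)) → (L s ↔ L (Function.update s j (s j + 1)))) (e : ℕ) :
    ∀ s : Fin d → ℕ, (∀ i, (s i + 1) * 2 ^ e ≤ 2 ^ k) → ∀ t t', multiUp e t = s → multiUp e t' = s →
      multiFine B e t → multiFine B e t' → (L t ↔ L t') := by
  induction e with
  | zero =>
    intro s _ t t' ht ht' _ _
    rw [multi_up_zero] at ht ht'
    rw [ht, ht']
  | succ e ih =>
    intro s hs t t' ht ht' hf hf'
    have hsb : ¬ multiBc B (e + 1) s := by
      have := hf (e + 1) le_rfl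
      rwa [ht] at this
    -- subcells are inside the box
    have hbox : ∀ q : Fin d → ℕ, multiUp 1 q = s → ∀ i, (q i + 1) * 2 ^ e ≤ 2 ^ k := by
      intro q hq i
      have h1 : q i / 2 = s i := by
        have := congrFun hq i
        simpa [multiUp] using this
      have h3 : q i + 1 ≤ (s i + 1) * 2 := by omega
      calc (q i + 1) * 2 ^ e ≤ ((s i + 1) * 2) * 2 ^ e := Nat.mul_le_mul_right _ h3
        _ = (s i + 1) * 2 ^ (e + 1) := by rw [pow_succ]; ring
        _ ≤ 2 ^ k := hs i
    have hin : ∀ (q u : Fin d → ℕ), (∀ i, (q i + 1) * 2 ^ e ≤ 2 ^ k) → multiUp e u = q →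
        ∀ i, u i < 2 ^ k := by
      intro q u hq hu i
      have h1 : u i / 2 ^ e = q i := congrFun hu i
      have h3 : u i < (u i / 2 ^ e + 1) * 2 ^ e := by
        have := Nat.lt_mul_div_succ (u i) (show 0 < 2 ^ e by positivity)
        rw [mul_comm]
        exact this
      rw [h1] at h3
      exact lt_of_lt_of_le h3 (hq i)
    -- adjacent subcells
    have hadj : ∀ (q : Fin d → ℕ) (j : Fin d), ¬ multiBc B e q →
        ¬ multiBc B e (Function.update q j (q j + 1)) → multiUp 1 q = s →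
        multiUp 1 (Function.update q j (q j + 1)) = s →
        ∀ u u', multiUp e u = q → multiUp e u' = Function.update q j (q j + 1) →
        multiFine B e u → multiFine B e u' → (L u ↔ L u') := by
      intro q j hq hq' hqs hqs' u u' hu hu' hfu hfu'
      obtain ⟨v, hv1, hv2, hv3, hv4⟩ := multi_adj hd B j e q hq hq'
      have hb1 := hbox q hqs
      have hb2 := hbox _ hqs'
      have k1 := ih q hb1 u v hu hv1 hfu hv2
      have k2 := ih _ hb2 u' _ hu' hv3 hfu' hv4
      have k3 := h2 v (hin q v hb1 hv1) j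
        (by have := hin _ _ hb2 hv3 j; simpa using this)
        (by have := hv2 0 (by omega); rwa [multi_up_zero] at this)
        (by have := hv4 0 (by omega); rwa [multi_up_zero] at this)
      exact k1.trans (k3.trans k2.symm)
    -- cells which differ in one coordinate
    have hone : ∀ (q q' : Fin d → ℕ) (j : Fin d), q' = Function.update q j (q' j) →
        ¬ multiBc B e q → ¬ multiBc B e q' → multiUp 1 q = s → multiUp 1 q' = s →
        ∀ u u', multiUp e u = q → multiUp e u' = q' →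
        multiFine B e u → multiFine B e u' → (L u ↔ L u') := by
      intro q q' j hqq hq hq' hqs hqs' u u' hu hu' hfu hfu'
      have a1 : q j / 2 = s j := by
        have := congrFun hqs j
        simpa [multiUp] using this
      have a2 : q' j / 2 = s j := by
        have := congrFun hqs' j
        simpa [multiUp] using this
      rcases lt_trichotomy (q j) (q' j) with h | h | h
      · have hj : q' j = q j + 1 := by omega
        rw [hj] at hqq
        rw [hqq] at hq' hqs' hu'
        exact hadj q j hq hq' hqs hqs' u u' hu hu' hfu hfu'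
      · have hj : q' = q := by
          rw [hqq, ← h, Function.update_eq_self]
        rw [hj] at hu'
        exact ih q (hbox q hqs) u u' hu hu' hfu hfu'
      · have hj : q j = q' j + 1 := by omega
        have hqq' : q = Function.update q' j (q' j + 1) := by
          rw [← hj, hqq]
          funext i
          by_cases hij : i = j
          · subst hij; simp
          · simp [Function.update_of_ne hij]
        rw [hqq'] at hq hqs hu
        exact (hadj q' j hq' hq hqs' hqs u' u hu' hu hfu' hfu).symm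
    -- Hamming induction
    have hham : ∀ (m : ℕ) (q q' : Fin d → ℕ), (univ.filter fun i => q i ≠ q' i).card ≤ m →
        ¬ multiBc B e q → ¬ multiBc B e q' → multiUp 1 q = s → multiUp 1 q' = s →
        ∀ u u', multiUp e u = q → multiUp e u' = q' →
        multiFine B e u → multiFine B e u' → (L u ↔ L u') := by
      intro m
      induction m with
      | zero =>
        intro q q' hm hq hq' hqs hqs' u u' hu hu' hfu hfu'
        have h0 : (univ.filter fun i => q i ≠ q' i) = ∅ := Finset.card_eq_zero.1 (by omega)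
        have h1 : q = q' := by
          funext i
          by_contra hne
          have : i ∈ (univ.filter fun i => q i ≠ q' i) := by simp [hne]
          rw [h0] at this
          simp at this
        rw [← h1] at hu'
        exact ih q (hbox q hqs) u u' hu hu' hfu hfu'
      | succ m ihm =>
        intro q q' hm hq hq' hqs hqs' u u' hu hu' hfu hfu'
        by_cases hc : (univ.filter fun i => q i ≠ q' i).card ≤ 1
        · have hne : Nonempty (Fin d) := ⟨⟨0, by omega⟩⟩
          rw [Finset.card_le_one_iff_subset_singleton] at hc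
          obtain ⟨j, hj⟩ := hc
          refine hone q q' j ?_ hq hq' hqs hqs' u u' hu hu' hfu hfu'
          funext i
          by_cases hij : i = j
          · subst hij; simp
          · rw [Function.update_of_ne hij]
            by_contra hne
            have : i ∈ ({j} : Finset (Fin d)) := hj (by simp [Ne.symm hne])
            exact hij (Finset.mem_singleton.1 this)
        · obtain ⟨j1, hj1, j2, hj2, hj12⟩ := Finset.one_lt_card.1 (not_le.1 hc)
          rw [Finset.mem_filter] at hj1 hj2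
          have step : ∀ j, q j ≠ q' j → ¬ multiBc B e (Function.update q j (q' j)) →
              (L u ↔ L u') := by
            intro j hjne hb
            set q1 := Function.update q j (q' j) with hq1
            have hq1s : multiUp 1 q1 = s := by
              funext i
              by_cases hij : i = j
              · subst hij
                have := congrFun hqs' i
                simpa [multiUp, hq1] using this
              · have := congrFun hqs i
                simpa [multiUp, hq1, Function.update_of_ne hij] using this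
            obtain ⟨v, hv1, hv2⟩ := multi_exists hd B e q1 hb
            have k1 := hone q q1 j (by simp [hq1]) hq hb hqs hq1s u v hu hv1 hfu hv2
            have k2 := ihm q1 q' (by
              have hsub : (univ.filter fun i => q1 i ≠ q' i) ⊆
                  (univ.filter fun i => q i ≠ q' i).erase j := by
                intro i hi
                rw [Finset.mem_filter] at hi
                by_cases hij : i = j
                · subst hij
                  exact absurd (by simp [hq1]) hi.2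
                · rw [Finset.mem_erase, Finset.mem_filter]
                  refine ⟨hij, Finset.mem_univ _, ?_⟩
                  have := hi.2
                  rwa [hq1, Function.update_of_ne hij] at this
              have h3 := Finset.card_le_card hsub
              rw [Finset.card_erase_of_mem (by simp [hjne])] at h3
              omega) hb hq' hq1s hqs' v u' hv1 hu' hv2 hfu'
            exact k1.trans k2
          by_cases b1 : multiBc B e (Function.update q j1 (q' j1))
          · refine step j2 hj2.2 fun b2 => hsb ⟨_, _, ?_, ?_, ?_, b1, b2⟩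
            · intro hc'
              have := congrFun hc' j1
              rw [Function.update_self, Function.update_of_ne hj12] at this
              exact hj1.2 this.symm
            · funext i
              by_cases hij : i = j1
              · subst hij
                have := congrFun hqs' i
                simpa [multiUp] using this
              · have := congrFun hqs i
                simpa [multiUp, Function.update_of_ne hij] using this
            · funext i
              by_cases hij : i = j2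
              · subst hij
                have := congrFun hqs' i
                simpa [multiUp] using this
              · have := congrFun hqs i
                simpa [multiUp, Function.update_of_ne hij] using this
          · exact step j1 hj1.2 b1
    have ht2 : multiUp 1 (multiUp e t) = s := by rw [← multi_up_succ, ht]
    have ht2' : multiUp 1 (multiUp e t') = s := by rw [← multi_up_succ, ht']
    exact hham _ (multiUp e t) (multiUp e t') le_rfl (hf e (by omega)) (hf' e (by omega)) ht2 ht2'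
      t t' rfl rfl (multi_fine_mono B e t hf) (multi_fine_mono B e t' hf')

/-- witness sets -/
private theorem multi_witness (d : ℕ) (e : ℕ) : ∀ s : Fin d → ℕ, ∃ W : Finset (Finset (Fin d → ℕ)),
    (∀ A ∈ W, A.card = 2 ^ e ∧ ∀ t ∈ A, multiUp e t = s) ∧ W.card ≤ (4 ^ d) ^ (2 ^ e - 1) ∧
    ∀ B : (Fin d → ℕ) → Prop, multiBc B e s → ∃ A ∈ W, ∀ t ∈ A, B t := by
  classical
  induction e with
  | zero =>
    intro s
    refine ⟨{{s}}, ?_, by simp, ?_⟩
    · intro A hA
      rw [Finset.mem_singleton] at hA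
      subst hA
      refine ⟨by simp, fun t ht => ?_⟩
      rw [Finset.mem_singleton] at ht
      rw [ht, multi_up_zero]
    · intro B hB
      refine ⟨{s}, by simp, fun t ht => ?_⟩
      rw [Finset.mem_singleton] at ht
      rw [ht]; exact hB
  | succ e ih =>
    choose W hW1 hW2 hW3 using ih
    intro s
    set sub : Finset (Fin d → ℕ) := Fintype.piFinset (fun i => ({2 * s i, 2 * s i + 1} : Finset ℕ))
      with hsub
    have hsubc : sub.card = 2 ^ d := by
      rw [hsub, Fintype.card_piFinset]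
      have : ∀ i, ({2 * s i, 2 * s i + 1} : Finset ℕ).card = 2 := by
        intro i
        rw [Finset.card_pair (by omega)]
      simp [this]
    have hsubm : ∀ q : Fin d → ℕ, multiUp 1 q = s ↔ q ∈ sub := by
      intro q
      rw [hsub, Fintype.mem_piFinset, funext_iff]
      refine forall_congr' fun i => ?_
      simp only [multiUp, pow_one, Finset.mem_insert, Finset.mem_singleton]
      omega
    refine ⟨((sub ×ˢ sub).filter fun p => p.1 ≠ p.2).biUnion
      fun p => (W p.1 ×ˢ W p.2).image fun AB => AB.1 ∪ AB.2, ?_, ?_, ?_⟩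
    · intro A hA
      rw [Finset.mem_biUnion] at hA
      obtain ⟨p, hp, hA⟩ := hA
      rw [Finset.mem_filter, Finset.mem_product] at hp
      rw [Finset.mem_image] at hA
      obtain ⟨AB, hAB, rfl⟩ := hA
      rw [Finset.mem_product] at hAB
      have a1 := hW1 p.1 AB.1 hAB.1
      have a2 := hW1 p.2 AB.2 hAB.2
      constructor
      · rw [Finset.card_union_of_disjoint, a1.1, a2.1, pow_succ]
        · ring
        · rw [Finset.disjoint_left]
          intro t h1 h2'
          apply hp.2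
          rw [← a1.2 t h1, ← a2.2 t h2']
      · intro t ht
        rw [multi_up_succ]
        rw [Finset.mem_union] at ht
        rcases ht with ht | ht
        · rw [a1.2 t ht]; exact (hsubm _).2 hp.1.1
        · rw [a2.2 t ht]; exact (hsubm _).2 hp.1.2
    · refine Finset.card_biUnion_le.trans ?_
      have hterm : ∀ p ∈ (sub ×ˢ sub).filter (fun p => p.1 ≠ p.2),
          ((W p.1 ×ˢ W p.2).image fun AB => AB.1 ∪ AB.2).card ≤
            (4 ^ d) ^ (2 ^ e - 1) * (4 ^ d) ^ (2 ^ e - 1) := by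
        intro p _
        refine Finset.card_image_le.trans ?_
        rw [Finset.card_product]
        exact Nat.mul_le_mul (hW2 _) (hW2 _)
      refine (Finset.sum_le_card_nsmul _ _ _ hterm).trans ?_
      rw [smul_eq_mul]
      have hcard : ((sub ×ˢ sub).filter fun p => p.1 ≠ p.2).card ≤ 4 ^ d := by
        refine (Finset.card_filter_le _ _).trans ?_
        rw [Finset.card_product, hsubc, ← mul_pow]
        norm_num
      refine (Nat.mul_le_mul_right _ hcard).trans ?_
      have h1 : 2 ^ (e + 1) - 1 = 1 + ((2 ^ e - 1) + (2 ^ e - 1)) := by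
        have : 1 ≤ 2 ^ e := Nat.one_le_two_pow
        rw [pow_succ]; omega
      rw [h1, pow_add, pow_one, pow_add]
    · intro B hB
      obtain ⟨s1, s2, hne, h1, h2, hb1, hb2⟩ := hB
      obtain ⟨A1, hA1, hA1'⟩ := hW3 s1 B hb1
      obtain ⟨A2, hA2, hA2'⟩ := hW3 s2 B hb2
      refine ⟨A1 ∪ A2, ?_, ?_⟩
      · rw [Finset.mem_biUnion]
        refine ⟨(s1, s2), ?_, ?_⟩
        · rw [Finset.mem_filter, Finset.mem_product]
          exact ⟨⟨(hsubm _).1 h1, (hsubm _).1 h2⟩, hne⟩
        · rw [Finset.mem_image]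
          exact ⟨(A1, A2), Finset.mem_product.2 ⟨hA1, hA2⟩, rfl⟩
      · intro t ht
        rw [Finset.mem_union] at ht
        rcases ht with ht | ht
        · exact hA1' t ht
        · exact hA2' t ht

open scoped Classical in
/-- probability of a bad cell -/
private theorem multi_prob {Ω : Type} (S : Finset Ω) (Bad : Ω → (Fin d → ℕ) → Prop) (r : ℝ)
    (hr : 0 ≤ r)
    (h1 : ∀ Γ : Finset (Fin d → ℕ), (∀ s ∈ Γ, ∀ i, s i < 2 ^ k) →
      ((S.filter fun ω => ∀ t ∈ Γ, Bad ω t).card : ℝ) ≤ S.card * r ^ Γ.card)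
    (e : ℕ) (s : Fin d → ℕ) (hs : ∀ i, (s i + 1) * 2 ^ e ≤ 2 ^ k) :
    ((S.filter fun ω => multiBc (Bad ω) e s).card : ℝ) ≤ S.card * (4 ^ d * r) ^ (2 ^ e) := by
  obtain ⟨W, hW1, hW2, hW3⟩ := multi_witness d e s
  have hsub : (S.filter fun ω => multiBc (Bad ω) e s) ⊆
      W.biUnion fun A => S.filter fun ω => ∀ t ∈ A, Bad ω t := by
    intro ω hω
    rw [Finset.mem_filter] at hω
    obtain ⟨A, hA, hA'⟩ := hW3 (Bad ω) hω.2
    rw [Finset.mem_biUnion]
    exact ⟨A, hA, Finset.mem_filter.2 ⟨hω.1, hA'⟩⟩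
  have h2 : ((S.filter fun ω => multiBc (Bad ω) e s).card : ℝ) ≤
      ∑ A ∈ W, ((S.filter fun ω => ∀ t ∈ A, Bad ω t).card : ℝ) := by
    have := (Finset.card_le_card hsub).trans Finset.card_biUnion_le
    exact_mod_cast this
  refine h2.trans ?_
  have h3 : ∀ A ∈ W, ((S.filter fun ω => ∀ t ∈ A, Bad ω t).card : ℝ) ≤ S.card * r ^ (2 ^ e) := by
    intro A hA
    have a1 := hW1 A hA
    have := h1 A (by
      intro u hu i
      have b1 : u i / 2 ^ e = s i := congrFun (a1.2 u hu) i
      have b3 : u i < (u i / 2 ^ e + 1) * 2 ^ e := by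
        have := Nat.lt_mul_div_succ (u i) (show 0 < 2 ^ e by positivity)
        rw [mul_comm]
        exact this
      rw [b1] at b3
      exact lt_of_lt_of_le b3 (hs i))
    rwa [a1.1] at this
  refine (Finset.sum_le_sum h3).trans ?_
  rw [Finset.sum_const, nsmul_eq_mul, mul_pow]
  have h4 : (W.card : ℝ) ≤ (4 ^ d) ^ (2 ^ e) := by
    have h5 : W.card ≤ (4 ^ d) ^ (2 ^ e) :=
      hW2.trans (Nat.pow_le_pow_right (by positivity) (Nat.sub_le _ _))
    exact_mod_cast h5
  have h6 : (0 : ℝ) ≤ S.card * r ^ (2 ^ e) := by positivity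
  calc (W.card : ℝ) * (S.card * r ^ (2 ^ e)) ≤ (4 ^ d) ^ (2 ^ e) * (S.card * r ^ (2 ^ e)) :=
        mul_le_mul_of_nonneg_right h4 h6
    _ = _ := by ring

private theorem multi_geom (x : ℝ) (hx : 0 ≤ x) (hx1 : x ≤ 1 / 2) (n : ℕ) :
    ∑ e ∈ Finset.range n, x ^ (2 ^ e) ≤ 2 * x := by
  have h1 : ∀ e, x ^ (2 ^ e) ≤ x * (1 / 2) ^ e := by
    intro e
    have h2 : 2 ^ e = (2 ^ e - 1) + 1 := by
      have : 1 ≤ 2 ^ e := Nat.one_le_two_pow
      omega
    have h3 : e ≤ 2 ^ e - 1 := by
      have : e < 2 ^ e := Nat.lt_two_pow_self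
      omega
    rw [h2, pow_succ, mul_comm]
    refine mul_le_mul_of_nonneg_left ?_ hx
    calc x ^ (2 ^ e - 1) ≤ (1 / 2 : ℝ) ^ (2 ^ e - 1) := pow_le_pow_left₀ hx hx1 _
      _ ≤ (1 / 2 : ℝ) ^ e := pow_le_pow_of_le_one (by norm_num) (by norm_num) h3
  refine (Finset.sum_le_sum fun e _ => h1 e).trans ?_
  rw [← Finset.mul_sum, mul_comm]
  refine mul_le_mul_of_nonneg_right ?_ hx
  have h4 : ∑ e ∈ Finset.range n, (1 / 2 : ℝ) ^ e = 2 - 2 * (1 / 2) ^ n := by
    induction n with
    | zero => simp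
    | succ n ih =>
      rw [Finset.sum_range_succ, ih, pow_succ]; ring
  rw [h4]
  have : (0 : ℝ) ≤ (1 / 2) ^ n := by positivity
  linarith

open scoped Classical in
theorem multi {Ω : Type} (S : Finset Ω) (hd : 3 ≤ d) (Bad : Ω → Blk d k → Prop)
    (lab : Ω → Blk d k → Prop) (r : ℝ) (hr : 0 ≤ r) (hr1 : 4 ^ d * r ≤ 1 / 2)
    (h1 : ∀ Γ : Finset (Blk d k), ((S.filter fun ω => ∀ t ∈ Γ, Bad ω t).card : ℝ) ≤ S.card * r ^ Γ.card)
    (h2 : ∀ ω ∈ S, ∀ t j, (t j).val + 1 < 2 ^ k → ¬ Bad ω t → ¬ Bad ω (nxt t j) →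
      (lab ω t ↔ lab ω (nxt t j)))
    (t t' : Blk d k) :
    ((S.filter fun ω => Bad ω t ∨ ¬ (lab ω t ↔ lab ω t')).card : ℝ) ≤ S.card * (4 * (4 ^ d * r)) := by
  have hne : NeZero (2 ^ k) := ⟨by positivity⟩
  set cs : (Fin d → ℕ) → Blk d k := fun s i => (s i : ZMod (2 ^ k)) with hcs
  have hinj : ∀ s s' : Fin d → ℕ, (∀ i, s i < 2 ^ k) → (∀ i, s' i < 2 ^ k) → cs s = cs s' →
      s = s' := by
    intro s s' hs hs' h
    funext i
    have h3 : ((s i : ℕ) : ZMod (2 ^ k)) = ((s' i : ℕ) : ZMod (2 ^ k)) := congrFun h i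
    have h4 := congrArg ZMod.val h3
    rwa [ZMod.val_natCast, ZMod.val_natCast, Nat.mod_eq_of_lt (hs i), Nat.mod_eq_of_lt (hs' i)] at h4
  set B : Ω → (Fin d → ℕ) → Prop := fun ω s => Bad ω (cs s) with hB
  set L : Ω → (Fin d → ℕ) → Prop := fun ω s => lab ω (cs s) with hL
  have h1' : ∀ Γ : Finset (Fin d → ℕ), (∀ s ∈ Γ, ∀ i, s i < 2 ^ k) →
      ((S.filter fun ω => ∀ t ∈ Γ, B ω t).card : ℝ) ≤ S.card * r ^ Γ.card := by
    intro Γ hΓ
    have h3 := h1 (Γ.image cs)
    rw [Finset.card_image_of_injOn (fun a ha b hb hab => hinj a b (hΓ a ha) (hΓ b hb) hab)] at h3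
    have h4 : (S.filter fun ω => ∀ t ∈ Γ, B ω t) = S.filter fun ω => ∀ t ∈ Γ.image cs, Bad ω t := by
      refine Finset.filter_congr fun ω _ => ?_
      simp only [Finset.mem_image, forall_exists_index, and_imp, forall_apply_eq_imp_iff₂, hB]
    rw [h4]
    exact h3
  have h2' : ∀ ω ∈ S, ∀ s : Fin d → ℕ, (∀ i, s i < 2 ^ k) → ∀ j, s j + 1 < 2 ^ k → ¬ B ω s →
      ¬ B ω (Function.update s j (s j + 1)) → (L ω s ↔ L ω (Function.update s j (s j + 1))) := by
    intro ω hω s hs j hj hb hb'
    have hnx : cs (Function.update s j (s j + 1)) = nxt (cs s) j := by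
      funext i
      by_cases hij : i = j
      · subst hij
        simp [hcs, nxt]
      · simp [hcs, nxt, Function.update_of_ne hij]
    simp only [hB, hL] at hb hb' ⊢
    rw [hnx] at hb' ⊢
    refine h2 ω hω (cs s) j ?_ hb hb'
    have : (cs s j).val = s j := by
      simp only [hcs]
      rw [ZMod.val_natCast, Nat.mod_eq_of_lt (hs j)]
    rw [this]
    exact hj
  set u : Fin d → ℕ := fun i => (t i).val with hu
  set u' : Fin d → ℕ := fun i => (t' i).val with hu'
  have hcu : cs u = t := by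
    funext i
    simp [hcs, hu]
  have hcu' : cs u' = t' := by
    funext i
    simp [hcs, hu']
  have hul : ∀ i, u i < 2 ^ k := fun i => ZMod.val_lt _
  have hul' : ∀ i, u' i < 2 ^ k := fun i => ZMod.val_lt _
  have hsub : (S.filter fun ω => Bad ω t ∨ ¬ (lab ω t ↔ lab ω t')) ⊆
      (Finset.range (k + 1)).biUnion fun e => (S.filter fun ω => multiBc (B ω) e (multiUp e u)) ∪
        (S.filter fun ω => multiBc (B ω) e (multiUp e u')) := by
    intro ω hω
    rw [Finset.mem_filter] at hω
    rw [Finset.mem_biUnion]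
    by_contra hcon
    have hf : multiFine (B ω) k u := by
      intro e he hb
      exact hcon ⟨e, Finset.mem_range.2 (by omega), Finset.mem_union_left _
        (Finset.mem_filter.2 ⟨hω.1, hb⟩)⟩
    have hf' : multiFine (B ω) k u' := by
      intro e he hb
      exact hcon ⟨e, Finset.mem_range.2 (by omega), Finset.mem_union_right _
        (Finset.mem_filter.2 ⟨hω.1, hb⟩)⟩
    rcases hω.2 with h | h
    · have := hf 0 (by omega)
      rw [multi_up_zero] at this
      apply this
      change Bad ω (cs u)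
      rw [hcu]; exact h
    · apply h
      have hz : ∀ v : Fin d → ℕ, (∀ i, v i < 2 ^ k) → multiUp k v = fun _ => 0 := by
        intro v hv
        funext i
        exact Nat.div_eq_of_lt (hv i)
      have := multi_label (k := k) hd (B ω) (L ω) (h2' ω hω.1) k (fun _ => 0) (by intro i; simp) u u'
        (hz u hul) (hz u' hul') hf hf'
      simp only [hL] at this
      rwa [hcu, hcu'] at this
  have hbox : ∀ v : Fin d → ℕ, (∀ i, v i < 2 ^ k) → ∀ e ∈ Finset.range (k + 1),
      ∀ i, (multiUp e v i + 1) * 2 ^ e ≤ 2 ^ k := by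
    intro v hv e he i
    have hek : e ≤ k := by
      have := Finset.mem_range.1 he
      omega
    have h3 : v i / 2 ^ e < 2 ^ (k - e) := by
      rw [Nat.div_lt_iff_lt_mul (by positivity), ← pow_add, Nat.sub_add_cancel hek]
      exact hv i
    calc (multiUp e v i + 1) * 2 ^ e ≤ 2 ^ (k - e) * 2 ^ e := Nat.mul_le_mul_right _ h3
      _ = 2 ^ k := by rw [← pow_add, Nat.sub_add_cancel hek]
  have hcard : ((S.filter fun ω => Bad ω t ∨ ¬ (lab ω t ↔ lab ω t')).card : ℝ) ≤
      ∑ e ∈ Finset.range (k + 1), (((S.filter fun ω => multiBc (B ω) e (multiUp e u)).card : ℝ) +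
        ((S.filter fun ω => multiBc (B ω) e (multiUp e u')).card : ℝ)) := by
    have h3 := (Finset.card_le_card hsub).trans Finset.card_biUnion_le
    have h4 : ∀ e ∈ Finset.range (k + 1), ((S.filter fun ω => multiBc (B ω) e (multiUp e u)) ∪
        (S.filter fun ω => multiBc (B ω) e (multiUp e u'))).card ≤
        (S.filter fun ω => multiBc (B ω) e (multiUp e u)).card +
        (S.filter fun ω => multiBc (B ω) e (multiUp e u')).card :=
      fun e _ => Finset.card_union_le _ _
    have h5 := h3.trans (Finset.sum_le_sum h4)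
    exact_mod_cast h5
  refine hcard.trans ?_
  have hx0 : 0 ≤ 4 ^ d * r := by positivity
  have hterm : ∀ e ∈ Finset.range (k + 1),
      (((S.filter fun ω => multiBc (B ω) e (multiUp e u)).card : ℝ) +
        ((S.filter fun ω => multiBc (B ω) e (multiUp e u')).card : ℝ)) ≤
      S.card * (2 * (4 ^ d * r) ^ (2 ^ e)) := by
    intro e he
    have k1 := multi_prob (k := k) S B r hr h1' e (multiUp e u) (hbox u hul e he)
    have k2 := multi_prob (k := k) S B r hr h1' e (multiUp e u') (hbox u' hul' e he)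
    linarith
  refine (Finset.sum_le_sum hterm).trans ?_
  rw [← Finset.mul_sum, ← Finset.mul_sum]
  refine mul_le_mul_of_nonneg_left ?_ (Nat.cast_nonneg _)
  have := multi_geom (4 ^ d * r) hx0 hr1 (k + 1)
  linarith

end Pool.Agent.LO

end

/-! ### from `Lib_MP_2c424f_lo.BSum` -/

section

/-!
# Blocks and sites (piece BSUM)

`(t, a, b) ↦ (pt t a b, b)` is a bijection onto pairs (site, bit vector); `a j = b j` iff the coordinate
`pt t a b j` is even.
-/

set_option autoImplicit false

open Finset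

namespace Pool.Agent.LO

variable {d k q : ℕ}

private theorem bsum_two_dvd (k n : ℕ) : Even (n % 2 ^ (k + 1)) ↔ Even n := by
  rw [Nat.even_iff, Nat.even_iff, Nat.mod_mod_of_dvd n (dvd_pow_self 2 (Nat.succ_ne_zero k))]

private theorem bsum_pt (t : Blk d k) (a b : Bt d) (j : Fin d) :
    pt t a b j = ((2 * (t j).val + (if a j then 1 else 0) + (if b j then 1 else 0) : ℕ) :
      ZMod (2 ^ (k + 1))) := by
  simp only [pt, bas, bv, Pi.add_apply]
  push_cast
  rfl

theorem val_pt (t : Blk d k) (a b : Bt d) (j : Fin d) : Even ((pt t a b j).val) ↔ a j = b j := by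
  rw [bsum_pt, ZMod.val_natCast, bsum_two_dvd]
  cases a j <;> cases b j <;> simp [parity_simps]

theorem evn_pt (t : Blk d k) (a b : Bt d) : evn (pt t a b) ↔ ¬ od a b := by
  unfold evn od
  rw [Finset.even_sum_iff_even_card_odd, Nat.not_odd_iff_even]
  have : (univ.filter fun i => Odd ((pt t a b i).val)) = univ.filter fun i => a i ≠ b i := by
    refine Finset.filter_congr fun i _ => ?_
    rw [← Nat.not_even_iff_odd, val_pt]
  rw [this]

private theorem bsum_flp_self (a : Bt d) (j : Fin d) : flp a j j = !a j := by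
  unfold flp
  exact Function.update_self _ _ _

private theorem bsum_flp_ne (a : Bt d) (i j : Fin d) (h : i ≠ j) : flp a j i = a i := by
  unfold flp
  exact Function.update_of_ne h _ _

private theorem bsum_bv (a : Bt d) (j : Fin d) :
    (bv (flp a j) : Site d (k + 1)) = bv a + sv (j, !a j) := by
  funext i
  rw [Pi.add_apply]
  unfold bv sv
  by_cases hi : i = j
  · subst hi
    have h := bsum_flp_self a i
    rw [Pi.single_eq_same]
    simp only [h]
    cases a i <;> simp
  · have h := bsum_flp_ne a i j hi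
    rw [Pi.single_eq_of_ne hi, add_zero]
    simp only [h]

private theorem bsum_flp (t : Blk d k) (a b : Bt d) (j : Fin d) :
    pt t (flp a j) b = pt t a b + sv (j, !a j) ∧ pt t a (flp b j) = pt t a b + sv (j, !b j) := by
  unfold pt
  rw [bsum_bv, bsum_bv]
  constructor
  · abel
  · abel

/-- steps inside the block -/
theorem pt_step (t : Blk d k) (a b : Bt d) (σ : Stp d) (h : alw a b σ) :
    ∃ a' b', pt t a b + sv σ = pt t a' b' := by
  obtain ⟨j, s⟩ := σ
  unfold alw at h
  have h1 := (bsum_flp t a b j).1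
  have h2 := (bsum_flp t a b j).2
  cases s with
  | true =>
    simp only [if_true] at h
    by_cases ha : a j = true
    · have hb : b j = false := by
        cases hbj : b j with
        | false => rfl
        | true => exact absurd ⟨ha, hbj⟩ h
      rw [hb] at h2
      exact ⟨a, flp b j, h2.symm⟩
    · have ha' : a j = false := by simpa using ha
      rw [ha'] at h1
      exact ⟨flp a j, b, h1.symm⟩
  | false =>
    simp only [Bool.false_eq_true, if_false] at h
    rcases h with h | h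
    · rw [h] at h1
      exact ⟨flp a j, b, h1.symm⟩
    · rw [h] at h2
      exact ⟨a, flp b j, h2.symm⟩

/-- flipping a bit is a step inside the block -/
theorem pt_flp (t : Blk d k) (a b : Bt d) (j : Fin d) :
    pt t (flp a j) b = pt t a b + sv (j, !a j) ∧ pt t a (flp b j) = pt t a b + sv (j, !b j) :=
  bsum_flp t a b j

/-- the bijection for one coordinate -/
private noncomputable def bsumE (k : ℕ) : ZMod (2 ^ k) × Bool ≃ ZMod (2 ^ (k + 1)) :=
  Equiv.ofBijective
    (fun p => ((2 * p.1.val + (if p.2 then 1 else 0) : ℕ) : ZMod (2 ^ (k + 1)))) (by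
      rw [Fintype.bijective_iff_injective_and_card]
      constructor
      · rintro ⟨s, a⟩ ⟨t, b⟩ h
        simp only at h
        have hs := ZMod.val_lt s
        have ht := ZMod.val_lt t
        have hp : 2 ^ (k + 1) = 2 * 2 ^ k := by ring
        rw [ZMod.natCast_eq_natCast_iff', Nat.mod_eq_of_lt, Nat.mod_eq_of_lt] at h
        · have hab : a = b := by
            cases a <;> cases b <;> simp at h ⊢ <;> omega
          subst hab
          have : s.val = t.val := by omega
          rw [ZMod.val_injective _ this]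
        · split_ifs <;> omega
        · split_ifs <;> omega
      · rw [Fintype.card_prod, ZMod.card, ZMod.card, Fintype.card_bool]
        ring)

private theorem bsum_ta (G : Site d (k + 1) → ℝ) :
    ∑ t : Blk d k, ∑ a : Bt d, G (bas t + bv a) = ∑ x, G x := by
  rw [← Finset.sum_product', Finset.univ_product_univ]
  refine Fintype.sum_equiv
    ((Equiv.arrowProdEquivProdArrow (Fin d) (fun _ => ZMod (2 ^ k)) (fun _ => Bool)).symm.trans
      (Equiv.piCongrRight fun _ => bsumE k)) _ _ ?_
  rintro ⟨t, a⟩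
  congr 1
  funext i
  simp only [bas, bv, Pi.add_apply, Equiv.trans_apply, Equiv.piCongrRight_apply, Pi.map_apply, bsumE,
    Equiv.ofBijective_apply, Equiv.arrowProdEquivProdArrow, Equiv.coe_fn_symm_mk]
  push_cast
  rfl

/-- the bijection -/
theorem sum_pt (H : Site d (k + 1) → Bt d → ℝ) :
    ∑ t : Blk d k, ∑ a, ∑ b, H (pt t a b) b = ∑ x, ∑ b, H x b := by
  have h1 : ∀ b : Bt d, ∑ t : Blk d k, ∑ a : Bt d, H (pt t a b) b = ∑ x, H x b := by
    intro b
    rw [← Equiv.sum_comp (Equiv.addRight (bv b : Site d (k + 1))) (fun x => H x b)]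
    exact bsum_ta (fun x => H (x + bv b) b)
  calc ∑ t : Blk d k, ∑ a, ∑ b, H (pt t a b) b
      = ∑ t : Blk d k, ∑ b, ∑ a, H (pt t a b) b := by
        refine sum_congr rfl fun t _ => ?_
        rw [sum_comm]
    _ = ∑ b, ∑ t : Blk d k, ∑ a, H (pt t a b) b := by rw [sum_comm]
    _ = ∑ b, ∑ x, H x b := sum_congr rfl fun b _ => h1 b
    _ = ∑ x, ∑ b, H x b := by rw [sum_comm]

private theorem bsum_card_bt (d : ℕ) : ((univ : Finset (Bt d)).card : ℝ) = 2 ^ d := by
  rw [Finset.card_univ, Fintype.card_fun, Fintype.card_bool, Fintype.card_fin]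
  push_cast
  rfl

/-- sum of block means over all blocks -/
theorem sum_EB (hd : 1 ≤ d) (G : Site d (k + 1) → ℝ) :
    ∑ t : Blk d k, EB (fun a b => G (pt t a b)) = 2 / 2 ^ d * ∑ v ∈ ods d (k + 1), G v := by
  classical
  have h4 : (4 : ℝ) ^ d = 2 ^ d * 2 ^ d := by
    rw [← mul_pow]; norm_num
  have h2 : (2 : ℝ) ^ d ≠ 0 := by positivity
  have h := sum_pt (d := d) (k := k) (fun x _ => if ¬ evn x then G x else 0)
  have hL : ∑ t : Blk d k, EB (fun a b => G (pt t a b)) =
      2 / 4 ^ d * ∑ t : Blk d k, ∑ a, ∑ b, (if ¬ evn (pt t a b) then G (pt t a b) else 0) := by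
    rw [mul_sum]
    refine sum_congr rfl fun t _ => ?_
    unfold EB
    rw [mul_div_right_comm]
    congr 1
    refine sum_congr rfl fun a _ => sum_congr rfl fun b _ => ?_
    by_cases hod : od a b
    · rw [if_pos hod, if_pos]
      rw [evn_pt]
      exact not_not.mpr hod
    · rw [if_neg hod, if_neg]
      rw [evn_pt]
      exact not_not.mpr hod
  rw [hL, h]
  have hR : ∑ x : Site d (k + 1), ∑ _b : Bt d, (if ¬ evn x then G x else 0) =
      2 ^ d * ∑ v ∈ ods d (k + 1), G v := by
    unfold ods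
    rw [Finset.sum_filter, mul_sum]
    refine sum_congr rfl fun x _ => ?_
    rw [Finset.sum_const, nsmul_eq_mul, bsum_card_bt]
  rw [hR, h4]
  field_simp

private theorem bsum_half (j : Fin d) (φ : Bool → ℝ) :
    2 * ∑ b : Bt d, φ (b j) = 2 ^ d * (φ true + φ false) := by
  have h1 : ∑ b : Bt d, φ (b j) = ∑ b : Bt d, φ (!b j) := by
    have hinv : Function.Involutive (fun b : Bt d => flp b j) := by
      intro b
      funext i
      simp only [flp]
      by_cases hi : i = j
      · subst hi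
        rw [Function.update_self, Function.update_self, Bool.not_not]
      · rw [Function.update_of_ne hi, Function.update_of_ne hi]
    rw [← Equiv.sum_comp hinv.toPerm (fun b : Bt d => φ (b j))]
    refine sum_congr rfl fun b _ => ?_
    rw [Function.Involutive.coe_toPerm]
    simp only [flp, Function.update_self]
  have h2 : ∑ b : Bt d, (φ (b j) + φ (!b j)) = 2 ^ d * (φ true + φ false) := by
    rw [← bsum_card_bt, ← nsmul_eq_mul, ← Finset.sum_const]
    refine sum_congr rfl fun b _ => ?_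
    cases b j
    · rw [Bool.not_false]; ring
    · rw [Bool.not_true]
  rw [two_mul, ← h2, sum_add_distrib, ← h1]

/-- sum of the changes over all blocks -/
theorem sum_cut (j : Fin d) (χ : Site d (k + 1) → ℝ) :
    ∑ t : Blk d k, ∑ a, ∑ b, (|χ (pt t (flp a j) b) - χ (pt t a b)| + |χ (pt t a (flp b j)) - χ (pt t a b)|) =
      2 ^ d * (∑ x, (|χ (x + sv (j, true)) - χ x| + |χ (x + sv (j, false)) - χ x|)) := by
  have hsym : ∀ (t : Blk d k) (a b : Bt d), pt t a b = pt t b a := by
    intro t a b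
    unfold pt
    abel
  have e2 : ∑ t : Blk d k, ∑ a : Bt d, ∑ b : Bt d, |χ (pt t a (flp b j)) - χ (pt t a b)| =
      ∑ x, ∑ b : Bt d, |χ (x + sv (j, !b j)) - χ x| := by
    rw [← sum_pt]
    refine sum_congr rfl fun t _ => sum_congr rfl fun a _ => sum_congr rfl fun b _ => ?_
    rw [(bsum_flp t a b j).2]
  have e1 : ∑ t : Blk d k, ∑ a : Bt d, ∑ b : Bt d, |χ (pt t (flp a j) b) - χ (pt t a b)| =
      ∑ t : Blk d k, ∑ a : Bt d, ∑ b : Bt d, |χ (pt t a (flp b j)) - χ (pt t a b)| := by
    refine sum_congr rfl fun t _ => ?_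
    rw [sum_comm]
    refine sum_congr rfl fun a _ => sum_congr rfl fun b _ => ?_
    rw [hsym t (flp b j) a, hsym t b a]
  calc ∑ t : Blk d k, ∑ a, ∑ b,
        (|χ (pt t (flp a j) b) - χ (pt t a b)| + |χ (pt t a (flp b j)) - χ (pt t a b)|)
      = ∑ t : Blk d k, ∑ a : Bt d, ∑ b : Bt d, |χ (pt t (flp a j) b) - χ (pt t a b)| +
        ∑ t : Blk d k, ∑ a : Bt d, ∑ b : Bt d, |χ (pt t a (flp b j)) - χ (pt t a b)| := by
        simp only [sum_add_distrib]
    _ = 2 * ∑ x, ∑ b : Bt d, |χ (x + sv (j, !b j)) - χ x| := by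
        rw [e1, e2, two_mul]
    _ = ∑ x, 2 * ∑ b : Bt d, |χ (x + sv (j, !b j)) - χ x| := by rw [mul_sum]
    _ = 2 ^ d * (∑ x, (|χ (x + sv (j, true)) - χ x| + |χ (x + sv (j, false)) - χ x|)) := by
        rw [mul_sum]
        refine sum_congr rfl fun x _ => ?_
        rw [bsum_half j (fun s => |χ (x + sv (j, !s)) - χ x|)]
        simp only [Bool.not_true, Bool.not_false]
        ring

end Pool.Agent.LO

end

/-! ### from `Lib_MP_2c424f_lo.DSum` -/

section

/-!
# Neighbours inside and outside the block (piece DSUM)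

For an odd site `v` and `b` the block with `pt t a b = v` is determined (`sum_pt`); the step `(j, β)`
leaves it iff `v j` is even and `b j = β` (`alw`, `val_pt`: then `a j = b j`).  So the proportion of the
`b` for which a given set `J` of steps leaves the block is at most `2^{-|J|}`.
-/

set_option autoImplicit false

open Finset

namespace Pool.Agent.LO

variable {d k q : ℕ}

private theorem DSum_zz_eq (f : Site d (k + 1) → Fin q) (v : Site d (k + 1)) (c : Fin q)
    (h : ∃ σ : Stp d, f (v + sv σ) = c) : zz f v c = 0 := by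
  unfold zz SS
  rw [if_pos]
  obtain ⟨σ, hσ⟩ := h
  exact mem_image.mpr ⟨σ, mem_univ _, hσ⟩

private theorem DSum_zz_eq' (f : Site d (k + 1) → Fin q) (v : Site d (k + 1)) (c : Fin q)
    (h : ¬ ∃ σ : Stp d, f (v + sv σ) = c) : zz f v c = 1 := by
  unfold zz SS
  rw [if_neg]
  intro hc
  obtain ⟨σ, _, hσ⟩ := mem_image.mp hc
  exact h ⟨σ, hσ⟩

private theorem DSum_EB_le (F G : Bt d → Bt d → ℝ) (h : ∀ a b, F a b ≤ G a b) : EB F ≤ EB G := by
  unfold EB
  refine div_le_div_of_nonneg_right ?_ (by positivity)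
  refine mul_le_mul_of_nonneg_left ?_ (by norm_num)
  refine sum_le_sum fun a _ => sum_le_sum fun b _ => ?_
  split_ifs
  · exact h a b
  · exact le_rfl

private theorem DSum_EB_sub (F G : Bt d → Bt d → ℝ) : EB F - EB G = EB fun a b => F a b - G a b := by
  unfold EB
  rw [← sub_div, ← mul_sub, ← sum_sub_distrib]
  congr 2
  refine sum_congr rfl fun a _ => ?_
  rw [← sum_sub_distrib]
  refine sum_congr rfl fun b _ => ?_
  split_ifs
  · rfl
  · ring

theorem zz_le_zb (f : Site d (k + 1) → Fin q) (t : Blk d k) (a b : Bt d) (c : Fin q) :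
    zz f (pt t a b) c ≤ zb f t a b c := by
  unfold zb
  by_cases h : ∃ σ : Stp d, f (pt t a b + sv σ) = c
  · rw [DSum_zz_eq f _ c h]
    split_ifs <;> norm_num
  · rw [DSum_zz_eq' f _ c h, if_pos]
    intro σ _ hσ
    exact h ⟨σ, hσ⟩

theorem zb_le_zj (f : Site d (k + 1) → Fin q) (t : Blk d k) (a b : Bt d) (c : Fin q) (j : Fin d) :
    zb f t a b c ≤ zj f t a b c j := by
  unfold zb zj
  by_cases h : ∀ σ : Stp d, alw a b σ → f (pt t a b + sv σ) ≠ c
  · rw [if_pos h, if_pos]
    intro σ _ hσ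
    exact h σ hσ
  · rw [if_neg h]
    split_ifs <;> norm_num

theorem mt_le_mb (f : Site d (k + 1) → Fin q) (t : Blk d k) (c : Fin q) : mt f t c ≤ mb f t c :=
  DSum_EB_le _ _ fun a b => zz_le_zb f t a b c

theorem mb_le_mj (f : Site d (k + 1) → Fin q) (t : Blk d k) (c : Fin q) (j : Fin d) :
    mb f t c ≤ mj f t c j :=
  DSum_EB_le _ _ fun a b => zb_le_zj f t a b c j

private theorem DSum_pi_card (s : Finset (Fin d)) (b0 : Bt d) :
    ((univ.filter fun b : Bt d => ∀ i ∈ s, b i = b0 i).card : ℝ) = 2 ^ d * (1 / 2) ^ s.card := by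
  classical
  have h1 : (univ.filter fun b : Bt d => ∀ i ∈ s, b i = b0 i)
      = Fintype.piFinset (fun i => if i ∈ s then {b0 i} else (univ : Finset Bool)) := by
    ext b
    simp only [mem_filter, mem_univ, true_and, Fintype.mem_piFinset]
    constructor
    · intro h i
      split_ifs with hi
      · exact mem_singleton.mpr (h i hi)
      · exact mem_univ _
    · intro h i hi
      have := h i
      rw [if_pos hi] at this
      exact mem_singleton.mp this
  rw [h1, Fintype.card_piFinset]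
  have h2 : ∀ i, ((if i ∈ s then ({b0 i} : Finset Bool) else univ).card : ℝ)
      = 2 * (if i ∈ s then (1 / 2 : ℝ) else 1) := by
    intro i
    split_ifs
    · simp
    · simp
  push_cast
  rw [prod_congr rfl fun i _ => h2 i, prod_mul_distrib, prod_const, card_univ, Fintype.card_fin,
    prod_ite, prod_const, prod_const_one, mul_one]
  congr 2
  congr 1
  ext i
  simp

open scoped Classical in
/-- bit vectors for which all steps of `J` leave the block -/
theorem card_out (J : Finset (Stp d)) (P : Fin d → Prop) :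
    ((univ.filter fun b : Bt d => ∀ σ ∈ J, P σ.1 ∧ b σ.1 = σ.2).card : ℝ) ≤ 2 ^ d * (1 / 2) ^ J.card := by
  rcases (univ.filter fun b : Bt d => ∀ σ ∈ J, P σ.1 ∧ b σ.1 = σ.2).eq_empty_or_nonempty
    with he | ⟨b0, hb0⟩
  · rw [he]
    simp only [card_empty, Nat.cast_zero]
    positivity
  · have h0 : ∀ σ ∈ J, P σ.1 ∧ b0 σ.1 = σ.2 := (mem_filter.mp hb0).2
    have hinj : Set.InjOn (fun σ : Stp d => σ.1) J := by
      intro σ hσ τ hτ h
      have e1 := (h0 σ hσ).2
      have e2 := (h0 τ hτ).2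
      have h' : σ.1 = τ.1 := h
      exact Prod.ext h' (by rw [← e1, ← e2, h'])
    have hc : (J.image fun σ : Stp d => σ.1).card = J.card := card_image_of_injOn hinj
    rw [← hc, ← DSum_pi_card (J.image fun σ : Stp d => σ.1) b0]
    have hsub : (univ.filter fun b : Bt d => ∀ σ ∈ J, P σ.1 ∧ b σ.1 = σ.2)
        ⊆ (univ.filter fun b : Bt d => ∀ i ∈ J.image fun σ : Stp d => σ.1, b i = b0 i) := by
      intro b hb
      simp only [mem_filter, mem_univ, true_and] at hb ⊢
      intro i hi
      obtain ⟨σ, hσ, hi'⟩ := mem_image.mp hi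
      rw [← hi', (hb σ hσ).2, (h0 σ hσ).2]
    exact_mod_cast card_le_card hsub

private theorem DSum_not_alw (t : Blk d k) (a b : Bt d) (σ : Stp d) (h : ¬ alw a b σ) :
    Even ((pt t a b σ.1).val) ∧ b σ.1 = σ.2 := by
  rw [val_pt]
  unfold alw at h
  by_cases hs : σ.2 = true
  · rw [if_pos hs, not_not] at h
    rw [h.1, h.2, hs]
    exact ⟨rfl, rfl⟩
  · rw [if_neg hs] at h
    push Not at h
    have h1 : a σ.1 = false := by simpa using h.1
    have h2 : b σ.1 = false := by simpa using h.2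
    have h3 : σ.2 = false := by simpa using hs
    rw [h1, h2, h3]
    exact ⟨rfl, rfl⟩

open scoped Classical in
private theorem DSum_gen (f : Site d (k + 1) → Fin q) (c : Fin q)
    (S : Site d (k + 1) → Finset (Stp d)) (G : Blk d k → Bt d → Bt d → ℝ) (C : ℝ)
    (hG : ∀ t a b, G t a b ≤ if yy f (pt t a b) c = 0 then 0 else
      if (∀ σ ∈ S (pt t a b), Even ((pt t a b σ.1).val) ∧ b σ.1 = σ.2) then 1 else 0)
    (hS : ∀ v, (1 / 2 : ℝ) ^ (S v).card ≤ C * (1 / 2) ^ yy f v c) :
    ∑ t : Blk d k, EB (G t) ≤ 2 * C / 2 ^ d * QQ f c := by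
  let H : Site d (k + 1) → Bt d → ℝ := fun v b => if ¬ evn v then (if yy f v c = 0 then 0 else
      if (∀ σ ∈ S v, Even ((v σ.1).val) ∧ b σ.1 = σ.2) then 1 else 0) else 0
  have h1 : ∀ t : Blk d k, EB (G t) ≤ 2 / 4 ^ d * ∑ a, ∑ b, H (pt t a b) b := by
    intro t
    unfold EB
    rw [mul_div_right_comm]
    refine mul_le_mul_of_nonneg_left ?_ (by positivity)
    refine sum_le_sum fun a _ => sum_le_sum fun b _ => ?_
    simp only [H]
    by_cases hod : od a b
    · have hev : ¬ evn (pt t a b) := by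
        rw [evn_pt]
        exact not_not.mpr hod
      rw [if_pos hod, if_pos hev]
      exact hG t a b
    · have hev : evn (pt t a b) := by
        rw [evn_pt]
        exact hod
      rw [if_neg hod, if_neg (not_not.mpr hev)]
  have h2 : ∑ t : Blk d k, EB (G t) ≤ 2 / 4 ^ d * ∑ x, ∑ b, H x b := by
    rw [← sum_pt H, mul_sum]
    exact sum_le_sum fun t _ => h1 t
  refine h2.trans ?_
  have h3 : ∑ x, ∑ b, H x b ≤ C * 2 ^ d * QQ f c := by
    unfold QQ
    rw [mul_sum]
    unfold ods
    rw [sum_filter]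
    refine sum_le_sum fun v _ => ?_
    by_cases hv : evn v
    · simp only [H, hv, not_true_eq_false, if_false, sum_const_zero]
      exact le_rfl
    · simp only [H, hv, not_false_eq_true, if_true]
      by_cases hy : yy f v c = 0
      · simp only [hy, if_true, sum_const_zero, mul_zero]
        exact le_rfl
      · simp only [hy, if_false]
        rw [← sum_filter, sum_const, nsmul_eq_mul, mul_one]
        have hco := card_out (S v) (fun i => Even ((v i).val))
        refine le_trans (le_of_eq ?_) (hco.trans ?_)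
        · congr
        · have := mul_le_mul_of_nonneg_left (hS v) (by positivity : (0 : ℝ) ≤ 2 ^ d)
          refine this.trans (le_of_eq ?_)
          ring
  refine (mul_le_mul_of_nonneg_left h3 (by positivity)).trans (le_of_eq ?_)
  have h4 : (4 : ℝ) ^ d = 2 ^ d * 2 ^ d := by
    rw [← mul_pow]; norm_num
  rw [h4]
  have h5 : (2 : ℝ) ^ d ≠ 0 := by positivity
  field_simp

theorem sum_mb (f : Site d (k + 1) → Fin q) (c : Fin q) :
    ∑ t : Blk d k, (mb f t c - mt f t c) ≤ 2 / 2 ^ d * QQ f c := by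
  classical
  have h := DSum_gen (k := k) f c (fun v => univ.filter fun σ : Stp d => f (v + sv σ) = c)
    (fun t a b => zb f t a b c - zz f (pt t a b) c) 1 ?_ ?_
  · have e : ∀ t : Blk d k, mb f t c - mt f t c = EB (fun a b => zb f t a b c - zz f (pt t a b) c) :=
      fun t => DSum_EB_sub _ _
    rw [sum_congr rfl fun t _ => e t]
    refine h.trans (le_of_eq ?_)
    ring
  · intro t a b
    by_cases hy : yy f (pt t a b) c = 0
    · rw [if_pos hy]
      have hno : ¬ ∃ σ : Stp d, f (pt t a b + sv σ) = c := by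
        rintro ⟨σ, hσ⟩
        unfold yy at hy
        rw [card_eq_zero] at hy
        have : σ ∈ (univ.filter fun σ : Stp d => f (pt t a b + sv σ) = c) :=
          mem_filter.mpr ⟨mem_univ _, hσ⟩
        rw [hy] at this
        exact absurd this (notMem_empty _)
      rw [DSum_zz_eq' f _ c hno]
      unfold zb
      split_ifs <;> norm_num
    · rw [if_neg hy]
      have hyes : ∃ σ : Stp d, f (pt t a b + sv σ) = c := by
        by_contra hno
        apply hy
        unfold yy
        rw [card_eq_zero, filter_eq_empty_iff]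
        intro σ _ hσ
        exact hno ⟨σ, hσ⟩
      rw [DSum_zz_eq f _ c hyes, sub_zero]
      unfold zb
      by_cases h : ∀ σ : Stp d, alw a b σ → f (pt t a b + sv σ) ≠ c
      · rw [if_pos h, if_pos]
        intro σ hσ
        refine DSum_not_alw t a b σ fun hal => ?_
        exact h σ hal (mem_filter.mp hσ).2
      · rw [if_neg h]
        split_ifs <;> norm_num
  · intro v
    rw [one_mul]
    exact le_rfl

/-- `2^{-(y - y_j)} ≤ 4 · 2^{-y}` -/
theorem sum_mj (f : Site d (k + 1) → Fin q) (c : Fin q) (j : Fin d) :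
    ∑ t : Blk d k, (mj f t c j - mt f t c) ≤ 8 / 2 ^ d * QQ f c := by
  classical
  have h := DSum_gen (k := k) f c
    (fun v => univ.filter fun σ : Stp d => f (v + sv σ) = c ∧ σ.1 ≠ j)
    (fun t a b => zj f t a b c j - zz f (pt t a b) c) 4 ?_ ?_
  · have e : ∀ t : Blk d k, mj f t c j - mt f t c = EB (fun a b => zj f t a b c j - zz f (pt t a b) c) :=
      fun t => DSum_EB_sub _ _
    rw [sum_congr rfl fun t _ => e t]
    refine h.trans (le_of_eq ?_)
    ring
  · intro t a b
    by_cases hy : yy f (pt t a b) c = 0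
    · rw [if_pos hy]
      have hno : ¬ ∃ σ : Stp d, f (pt t a b + sv σ) = c := by
        rintro ⟨σ, hσ⟩
        unfold yy at hy
        rw [card_eq_zero] at hy
        have : σ ∈ (univ.filter fun σ : Stp d => f (pt t a b + sv σ) = c) :=
          mem_filter.mpr ⟨mem_univ _, hσ⟩
        rw [hy] at this
        exact absurd this (notMem_empty _)
      rw [DSum_zz_eq' f _ c hno]
      unfold zj
      split_ifs <;> norm_num
    · rw [if_neg hy]
      have hyes : ∃ σ : Stp d, f (pt t a b + sv σ) = c := by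
        by_contra hno
        apply hy
        unfold yy
        rw [card_eq_zero, filter_eq_empty_iff]
        intro σ _ hσ
        exact hno ⟨σ, hσ⟩
      rw [DSum_zz_eq f _ c hyes, sub_zero]
      unfold zj
      by_cases h : ∀ σ : Stp d, σ.1 ≠ j → alw a b σ → f (pt t a b + sv σ) ≠ c
      · rw [if_pos h, if_pos]
        intro σ hσ
        have hm := (mem_filter.mp hσ).2
        refine DSum_not_alw t a b σ fun hal => ?_
        exact h σ hm.2 hal hm.1
      · rw [if_neg h]
        split_ifs <;> norm_num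
  · intro v
    have hcard : yy f v c ≤ (univ.filter fun σ : Stp d => f (v + sv σ) = c ∧ σ.1 ≠ j).card + 2 := by
      have hsub : (univ.filter fun σ : Stp d => f (v + sv σ) = c)
          ⊆ (univ.filter fun σ : Stp d => f (v + sv σ) = c ∧ σ.1 ≠ j) ∪ {(j, true), (j, false)} := by
        intro σ hσ
        rw [mem_union]
        by_cases hj : σ.1 = j
        · right
          obtain ⟨i, b⟩ := σ
          simp only at hj
          subst hj
          cases b <;> simp
        · left
          exact mem_filter.mpr ⟨mem_univ _, (mem_filter.mp hσ).2, hj⟩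
      have h1 := (card_le_card hsub).trans (card_union_le _ _)
      have h2 : ({(j, true), (j, false)} : Finset (Stp d)).card ≤ 2 := card_le_two
      unfold yy
      omega
    have h4 : (4 : ℝ) * (1 / 2) ^ yy f v c = (1 / 2) ^ yy f v c * (1 / 2 : ℝ)⁻¹ ^ 2 := by norm_num; ring
    have h5 : (1 / 2 : ℝ) ^ ((univ.filter fun σ : Stp d => f (v + sv σ) = c ∧ σ.1 ≠ j).card + 2)
        ≤ (1 / 2) ^ yy f v c := pow_le_pow_of_le_one (by norm_num) (by norm_num) hcard
    rw [pow_add] at h5
    nlinarith [h5]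

end Pool.Agent.LO

end

/-! ### from `Lib_MP_2c424f_lo.Cube` -/

section

/-!
# Poincaré inequality on the cube (piece CUBE)

For `F : {0,1}^d × {0,1}^d → {0,1}` with mean `p`: `p (1 - p) ≤ (1/4) ∑_bits P(F changes)`.
Induction for general `ι → Bool` and real valued `F`, with `(mean F)`-variance and `|·|^2`.
-/

set_option autoImplicit false

open Finset

namespace Pool.Agent.LO

private theorem cube_sum_succ {n : ℕ} (G : Bt (n + 1) → ℝ) :
    ∑ a, G a = ∑ a : Bt n, G (Fin.cons false a) + ∑ a : Bt n, G (Fin.cons true a) := by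
  have h : ∑ a, G a = ∑ p : Bool × Bt n, G (Fin.cons p.1 p.2) := by
    refine (Fintype.sum_equiv (Fin.insertNthEquiv (fun _ : Fin (n + 1) => Bool) 0) _ _ ?_).symm
    intro p
    congr 1
    simp only [Fin.insertNthEquiv, Equiv.coe_fn_mk, Fin.insertNth_zero']
  rw [h, Fintype.sum_prod_type, Fintype.sum_bool, add_comm]

private theorem cube_flp_zero {n : ℕ} (b : Bool) (a : Bt n) :
    flp (Fin.cons b a : Bt (n + 1)) 0 = Fin.cons (!b) a := by
  unfold flp
  rw [Fin.cons_zero, Fin.update_cons_zero]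

private theorem cube_flp_succ {n : ℕ} (b : Bool) (a : Bt n) (j : Fin n) :
    flp (Fin.cons b a : Bt (n + 1)) j.succ = Fin.cons b (flp a j) := by
  unfold flp
  rw [Fin.cons_succ, Fin.cons_update]

/-- Efron-Stein on the cube -/
private theorem cube_es (n : ℕ) (G : Bt n → ℝ) :
    2 ^ n * (∑ a, G a ^ 2) - (∑ a, G a) ^ 2 ≤
      1 / 4 * (2 ^ n * ∑ j, ∑ a, (G (flp a j) - G a) ^ 2) := by
  induction n with
  | zero =>
    simp
  | succ n ih =>
    have i0 := ih (fun a => G (Fin.cons false a))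
    have i1 := ih (fun a => G (Fin.cons true a))
    have hcs : (∑ a : Bt n, (G (Fin.cons false a) - G (Fin.cons true a))) ^ 2 ≤
        2 ^ n * ∑ a : Bt n, (G (Fin.cons false a) - G (Fin.cons true a)) ^ 2 := by
      have h := sq_sum_le_card_mul_sum_sq (s := (Finset.univ : Finset (Bt n)))
        (f := fun a => G (Fin.cons false a) - G (Fin.cons true a))
      rw [Finset.card_univ, Fintype.card_fun, Fintype.card_bool, Fintype.card_fin] at h
      push_cast at h
      exact h
    rw [Finset.sum_sub_distrib] at hcs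
    rw [cube_sum_succ, cube_sum_succ, Fin.sum_univ_succ]
    simp_rw [cube_sum_succ]
    simp_rw [cube_flp_zero, cube_flp_succ]
    simp only [Bool.not_false, Bool.not_true]
    rw [Finset.sum_add_distrib]
    have h2 : ∑ a : Bt n, (G (Fin.cons true a) - G (Fin.cons false a)) ^ 2 =
        ∑ a : Bt n, (G (Fin.cons false a) - G (Fin.cons true a)) ^ 2 := by
      refine Finset.sum_congr rfl fun a _ => ?_
      ring
    rw [h2]
    rw [pow_succ (2 : ℝ) n]
    nlinarith

theorem poincare {d : ℕ} (F : Bt d → Bt d → ℝ) (hF : ∀ a b, F a b = 0 ∨ F a b = 1) :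
    (∑ a, ∑ b, F a b) / 4 ^ d * (1 - (∑ a, ∑ b, F a b) / 4 ^ d) ≤
      1 / 4 * ((∑ j : Fin d, ∑ a, ∑ b, (|F (flp a j) b - F a b| + |F a (flp b j) - F a b|)) / 4 ^ d) := by
  have hsq : ∀ a b, F a b ^ 2 = F a b := by
    intro a b
    rcases hF a b with h | h <;> simp [h]
  have habs : ∀ a b a' b', (F a b - F a' b') ^ 2 = |F a b - F a' b'| := by
    intro a b a' b'
    rcases hF a b with h | h <;> rcases hF a' b' with h' | h' <;> simp [h, h']
  -- inner variable
  have h1 : ∀ a, 2 ^ d * (∑ b, F a b) - (∑ b, F a b) ^ 2 ≤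
      1 / 4 * (2 ^ d * ∑ j, ∑ b, |F a (flp b j) - F a b|) := by
    intro a
    have h := cube_es d (F a)
    simp_rw [hsq, habs] at h
    exact h
  have h1s : 2 ^ d * (∑ a, ∑ b, F a b) - ∑ a, (∑ b, F a b) ^ 2 ≤
      1 / 4 * (2 ^ d * ∑ j : Fin d, ∑ a, ∑ b, |F a (flp b j) - F a b|) := by
    have h := Finset.sum_le_sum fun a (_ : a ∈ (Finset.univ : Finset (Bt d))) => h1 a
    rw [Finset.sum_sub_distrib, ← Finset.mul_sum, ← Finset.mul_sum, ← Finset.mul_sum] at h
    rw [Finset.sum_comm (s := (Finset.univ : Finset (Fin d)))]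
    exact h
  -- outer variable
  have h2 := cube_es d (fun a => ∑ b, F a b)
  have h3 : ∀ a a', ((∑ b, F a b) - ∑ b, F a' b) ^ 2 ≤ 2 ^ d * ∑ b, |F a b - F a' b| := by
    intro a a'
    have h := sq_sum_le_card_mul_sum_sq (s := (Finset.univ : Finset (Bt d)))
      (f := fun b => F a b - F a' b)
    rw [Finset.card_univ, Fintype.card_fun, Fintype.card_bool, Fintype.card_fin] at h
    push_cast at h
    rw [Finset.sum_sub_distrib] at h
    simp_rw [habs] at h
    exact h
  have h4 : ∑ j, ∑ a, ((∑ b, F (flp a j) b) - ∑ b, F a b) ^ 2 ≤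
      2 ^ d * ∑ j : Fin d, ∑ a, ∑ b, |F (flp a j) b - F a b| := by
    rw [Finset.mul_sum]
    refine Finset.sum_le_sum fun j _ => ?_
    rw [Finset.mul_sum]
    exact Finset.sum_le_sum fun a _ => h3 _ _
  set S := ∑ a, ∑ b, F a b with hS
  set A := ∑ j : Fin d, ∑ a, ∑ b, |F (flp a j) b - F a b| with hA
  set B := ∑ j : Fin d, ∑ a, ∑ b, |F a (flp b j) - F a b| with hB
  set T := ∑ a, (∑ b, F a b) ^ 2 with hT
  have hAB : (∑ j : Fin d, ∑ a, ∑ b, (|F (flp a j) b - F a b| + |F a (flp b j) - F a b|)) = A + B := by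
    simp only [Finset.sum_add_distrib, hA, hB]
  rw [hAB]
  have h22 : (4 : ℝ) ^ d = 2 ^ d * 2 ^ d := by
    rw [← mul_pow]; norm_num
  have hpos : (0 : ℝ) < 2 ^ d := by positivity
  have h5 : 2 ^ d * T - S ^ 2 ≤ 1 / 4 * (2 ^ d * (2 ^ d * A)) := by
    refine h2.trans ?_
    have := mul_le_mul_of_nonneg_left h4 hpos.le
    linarith
  have h6 : 2 ^ d * (2 ^ d * S - T) ≤ 2 ^ d * (1 / 4 * (2 ^ d * B)) :=
    mul_le_mul_of_nonneg_left h1s hpos.le
  have h7 : 4 ^ d * S - S ^ 2 ≤ 1 / 4 * (4 ^ d * (A + B)) := by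
    rw [h22]
    nlinarith
  have h4p : (0 : ℝ) < 4 ^ d := by positivity
  have e1 : S / 4 ^ d * (1 - S / 4 ^ d) = (4 ^ d * S - S ^ 2) / (4 ^ d * 4 ^ d) := by
    field_simp
  have e2 : 1 / 4 * ((A + B) / 4 ^ d) = (1 / 4 * (4 ^ d * (A + B))) / (4 ^ d * 4 ^ d) := by
    field_simp
  rw [e1, e2]
  gcongr

private theorem cube_flp_flp {d : ℕ} (a : Bt d) (i : Fin d) : flp (flp a i) i = a := by
  unfold flp
  simp

private theorem cube_sum_flp {d : ℕ} (i : Fin d) (G : Bt d → ℝ) :
    ∑ a, G (flp a i) = ∑ a, G a := by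
  refine Fintype.sum_equiv ⟨fun a => flp a i, fun a => flp a i, fun a => cube_flp_flp a i,
    fun a => cube_flp_flp a i⟩ _ _ fun a => rfl

private theorem cube_od_flp {d : ℕ} (a b : Bt d) (i : Fin d) : od (flp a i) b ↔ ¬ od a b := by
  unfold od
  by_cases h : a i = b i
  · have h1 : (univ.filter fun r => flp a i r ≠ b r) = insert i (univ.filter fun r => a r ≠ b r) := by
      ext r
      simp only [Finset.mem_filter, Finset.mem_univ, true_and, Finset.mem_insert]
      by_cases hr : r = i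
      · subst hr
        simp [flp, h]
      · simp [flp, hr]
    rw [h1, Finset.card_insert_of_notMem (by simp [h]), Nat.odd_add_one]
  · have h1 : (univ.filter fun r => a r ≠ b r) = insert i (univ.filter fun r => flp a i r ≠ b r) := by
      ext r
      simp only [Finset.mem_filter, Finset.mem_univ, true_and, Finset.mem_insert]
      by_cases hr : r = i
      · subst hr
        simp [h]
      · simp [flp, hr]
    have h2 : flp a i i = b i := by
      simp only [flp, Function.update_self]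
      cases ha : a i <;> cases hb : b i <;> simp_all
    rw [h1, Finset.card_insert_of_notMem (by simp [h2]), Nat.odd_add_one, not_not]

private theorem cube_half {d : ℕ} (i : Fin d) (w : Bt d → Bt d → ℝ)
    (hw : ∀ a b, w (flp a i) b = w a b) :
    EB w = (∑ a, ∑ b, w a b) / 4 ^ d := by
  classical
  unfold EB
  congr 1
  have h1 : ∑ a, ∑ b, (if od a b then w a b else 0) = ∑ a, ∑ b, (if od a b then 0 else w a b) := by
    rw [← cube_sum_flp i (fun a => ∑ b, (if od a b then w a b else 0))]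
    refine Finset.sum_congr rfl fun a _ => Finset.sum_congr rfl fun b _ => ?_
    by_cases h : od a b
    · rw [if_neg (by rw [cube_od_flp]; exact not_not.2 h), if_pos h]
    · rw [if_pos (by rw [cube_od_flp]; exact h), if_neg h, hw]
  have h2 : ∑ a, ∑ b, (if od a b then w a b else 0) + ∑ a, ∑ b, (if od a b then 0 else w a b) =
      ∑ a, ∑ b, w a b := by
    rw [← Finset.sum_add_distrib]
    refine Finset.sum_congr rfl fun a _ => ?_
    rw [← Finset.sum_add_distrib]
    refine Finset.sum_congr rfl fun b _ => ?_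
    split_ifs <;> simp
  rw [← h2, ← h1]
  ring

/-- parity is balanced on the cube -/
theorem card_od {d : ℕ} (hd : 1 ≤ d) :
    EB (fun _ _ : Bt d => (1 : ℝ)) = 1 := by
  rw [cube_half ⟨0, hd⟩ _ fun _ _ => rfl]
  simp only [Finset.sum_const, Finset.card_univ, Fintype.card_fun, Fintype.card_bool,
    Fintype.card_fin, nsmul_eq_mul, mul_one]
  push_cast
  rw [← mul_pow]
  norm_num

/-- parity is balanced on every face (`a j = b j = β`), `d ≥ 2` -/
theorem card_od_face {d : ℕ} (hd : 2 ≤ d) (j : Fin d) (β : Bool) :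
    EB (fun a b : Bt d => if a j = β ∧ b j = β then (1 : ℝ) else 0) = 1 / 4 := by
  have hi : ∃ i : Fin d, i ≠ j := by
    by_cases h : j = ⟨0, by omega⟩
    · refine ⟨⟨1, by omega⟩, fun hc => ?_⟩
      rw [h] at hc
      simp at hc
    · exact ⟨⟨0, by omega⟩, fun hc => h hc.symm⟩
  obtain ⟨i, hi⟩ := hi
  rw [cube_half i]
  · have h1 : ∀ β' : Bool, ∑ a : Bt d, (if a j = β' then (1 : ℝ) else 0) = 2 ^ d / 2 := by
      intro β'
      have h2 : ∑ a : Bt d, (if a j = β' then (1 : ℝ) else 0) =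
          ∑ a : Bt d, (if a j = β' then (0 : ℝ) else 1) := by
        rw [← cube_sum_flp j (fun a => (if a j = β' then (1 : ℝ) else 0))]
        refine Finset.sum_congr rfl fun a _ => ?_
        simp only [flp, Function.update_self]
        cases ha : a j <;> cases β' <;> simp
      have h3 : ∑ a : Bt d, (if a j = β' then (1 : ℝ) else 0) +
          ∑ a : Bt d, (if a j = β' then (0 : ℝ) else 1) = 2 ^ d := by
        rw [← Finset.sum_add_distrib]
        have : ∀ a : Bt d, ((if a j = β' then (1 : ℝ) else 0) + (if a j = β' then (0 : ℝ) else 1)) = 1 := by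
          intro a; split_ifs <;> simp
        simp_rw [this]
        simp
      linarith
    have h2 : ∀ a b : Bt d, (if a j = β ∧ b j = β then (1 : ℝ) else 0) =
        (if a j = β then (1 : ℝ) else 0) * (if b j = β then (1 : ℝ) else 0) := by
      intro a b
      by_cases h : a j = β <;> by_cases h' : b j = β <;> simp [h, h']
    simp_rw [h2, ← Finset.mul_sum, h1, ← Finset.sum_mul, h1]
    have h22 : (4 : ℝ) ^ d = 2 ^ d * 2 ^ d := by
      rw [← mul_pow]; norm_num
    have : (2 : ℝ) ^ d ≠ 0 := by positivity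
    rw [h22]
    field_simp
    norm_num
  · intro a b
    simp only [flp, Function.update_of_ne hi.symm]

theorem EB_add {d : ℕ} (F G : Bt d → Bt d → ℝ) : EB (fun a b => F a b + G a b) = EB F + EB G := by
  classical
  unfold EB
  rw [← add_div, ← mul_add, ← Finset.sum_add_distrib]
  congr 2
  refine Finset.sum_congr rfl fun a _ => ?_
  rw [← Finset.sum_add_distrib]
  refine Finset.sum_congr rfl fun b _ => ?_
  split_ifs <;> simp

theorem EB_mul {d : ℕ} (c : ℝ) (F : Bt d → Bt d → ℝ) : EB (fun a b => c * F a b) = c * EB F := by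
  classical
  unfold EB
  have h : ∑ a, ∑ b, (if od a b then c * F a b else 0) =
      c * ∑ a, ∑ b, (if od a b then F a b else 0) := by
    rw [Finset.mul_sum]
    refine Finset.sum_congr rfl fun a _ => ?_
    rw [Finset.mul_sum]
    refine Finset.sum_congr rfl fun b _ => ?_
    split_ifs <;> simp
  rw [h]
  ring

theorem EB_sum {d : ℕ} {ι : Type*} (A : Finset ι) (F : ι → Bt d → Bt d → ℝ) :
    EB (fun a b => ∑ x ∈ A, F x a b) = ∑ x ∈ A, EB (F x) := by
  classical
  induction A using Finset.induction_on with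
  | empty =>
    simp [EB]
  | insert x A hx ih =>
    simp_rw [Finset.sum_insert hx]
    rw [EB_add, ih]

theorem EB_mono {d : ℕ} {F G : Bt d → Bt d → ℝ} (h : ∀ a b, od a b → F a b ≤ G a b) :
    EB F ≤ EB G := by
  classical
  unfold EB
  refine div_le_div_of_nonneg_right ?_ (by positivity)
  refine mul_le_mul_of_nonneg_left ?_ (by norm_num)
  refine Finset.sum_le_sum fun a _ => Finset.sum_le_sum fun b _ => ?_
  split_ifs with hab
  · exact h a b hab
  · exact le_rfl

end Pool.Agent.LO

end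

/-! ### from `Lib_MP_2c424f_lo.Stat` -/

section

/-!
# Elementary facts on the local statistics (piece STAT)
-/

set_option autoImplicit false

open Finset

namespace Pool.Agent.LO

variable {d k q : ℕ}

private theorem stat_card_stp (d : ℕ) : (univ : Finset (Stp d)).card = 2 * d := by
  rw [Finset.card_univ, Fintype.card_prod, Fintype.card_fin, Fintype.card_bool, mul_comm]

/-- the numbers of neighbours with the various colours -/
theorem sum_yy (f : Site d k → Fin q) (v : Site d k) : ∑ c, yy f v c = 2 * d := by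
  have h := Finset.card_eq_sum_card_fiberwise (f := fun σ : Stp d => f (v + sv σ))
    (s := univ) (t := univ) (fun _ _ => Finset.mem_coe.mpr (Finset.mem_univ _))
  rw [stat_card_stp] at h
  exact h.symm

theorem mem_SS (f : Site d k → Fin q) (v : Site d k) (c : Fin q) : c ∈ SS f v ↔ yy f v c ≠ 0 := by
  unfold SS yy
  rw [Finset.card_ne_zero, Finset.mem_image]
  constructor
  · rintro ⟨σ, _, h⟩
    exact ⟨σ, by simp [h]⟩
  · rintro ⟨σ, h⟩
    exact ⟨σ, Finset.mem_univ _, (Finset.mem_filter.mp h).2⟩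

/-- the number of available colours as a sum -/
theorem av_eq (f : Site d k → Fin q) (v : Site d k) : (av f v : ℝ) = ∑ c, zz f v c := by
  unfold av zz
  have h1 : (SS f v).card ≤ q := by
    have := Finset.card_le_univ (SS f v)
    rwa [Fintype.card_fin] at this
  rw [Nat.cast_sub h1]
  have h2 : ∀ c : Fin q, (if c ∈ SS f v then (0 : ℝ) else 1) = 1 - (if c ∈ SS f v then 1 else 0) := by
    intro c
    split_ifs <;> norm_num
  rw [Finset.sum_congr rfl (fun c _ => h2 c), Finset.sum_sub_distrib, Finset.sum_const,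
    Finset.card_univ, Fintype.card_fin, nsmul_eq_mul, mul_one]
  congr 1
  rw [Finset.sum_boole]
  congr 1
  simp

/-- a proper colouring leaves the own colour available -/
theorem av_pos {f : Site d k → Fin q} (hf : Prp f) (v : Site d k) : 1 ≤ av f v := by
  unfold av
  have h1 : f v ∉ SS f v := by
    intro h
    unfold SS at h
    rw [Finset.mem_image] at h
    obtain ⟨σ, _, h⟩ := h
    exact hf v σ h
  have h2 : (SS f v).card < q := by
    have : SS f v ⊂ univ := by
      rw [Finset.ssubset_univ_iff]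
      intro h
      rw [h] at h1
      exact h1 (Finset.mem_univ _)
    have := Finset.card_lt_card this
    rwa [Finset.card_univ, Fintype.card_fin] at this
  omega

theorem zz_self {f : Site d k → Fin q} (hf : Prp f) (v : Site d k) : zz f v (f v) = 1 := by
  unfold zz
  rw [if_neg]
  intro h
  unfold SS at h
  rw [Finset.mem_image] at h
  obtain ⟨σ, _, h⟩ := h
  exact hf v σ h

theorem SS_card_pos (hd : 1 ≤ d) (f : Site d k → Fin q) (v : Site d k) : 1 ≤ (SS f v).card := by
  rw [Nat.one_le_iff_ne_zero, Finset.card_ne_zero]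
  exact ⟨_, Finset.mem_image_of_mem _ (Finset.mem_univ ((⟨0, hd⟩, true) : Stp d))⟩

private theorem stat_avg_nonneg (F : Stp d → ℝ) (hF : ∀ σ, 0 ≤ F σ) :
    0 ≤ (∑ σ : Stp d, F σ) / (2 * d) :=
  div_nonneg (Finset.sum_nonneg fun σ _ => hF σ) (by positivity)

private theorem stat_avg_le_one (F : Stp d → ℝ) (hF : ∀ σ, F σ ≤ 1) :
    (∑ σ : Stp d, F σ) / (2 * d) ≤ 1 := by
  apply div_le_one_of_le₀ _ (by positivity)
  calc ∑ σ : Stp d, F σ ≤ ∑ _σ : Stp d, (1 : ℝ) := Finset.sum_le_sum fun σ _ => hF σ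
    _ = 2 * d := by
      rw [Finset.sum_const, stat_card_stp, nsmul_eq_mul, mul_one]
      push_cast
      ring

private theorem stat_zz_nonneg (f : Site d k → Fin q) (v : Site d k) (c : Fin q) :
    0 ≤ zz f v c := by
  unfold zz
  split_ifs <;> norm_num

private theorem stat_zz_le_one (f : Site d k → Fin q) (v : Site d k) (c : Fin q) :
    zz f v c ≤ 1 := by
  unfold zz
  split_ifs <;> norm_num

private theorem stat_UU_nonneg (f : Site d k → Fin q) (R : Finset (Site d k)) (v : Site d k)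
    (c : Fin q) : 0 ≤ UU f R v c := by
  unfold UU
  split_ifs <;> norm_num

private theorem stat_UU_le_one (f : Site d k → Fin q) (R : Finset (Site d k)) (v : Site d k)
    (c : Fin q) : UU f R v c ≤ 1 := by
  unfold UU
  split_ifs <;> norm_num

theorem mm_nonneg (f : Site d k → Fin q) (u : Site d k) (c : Fin q) : 0 ≤ mm f u c :=
  stat_avg_nonneg _ fun _ => stat_zz_nonneg _ _ _

theorem mm_le_one (f : Site d k → Fin q) (u : Site d k) (c : Fin q) : mm f u c ≤ 1 :=
  stat_avg_le_one _ fun _ => stat_zz_le_one _ _ _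

theorem nn_nonneg (f : Site d k → Fin q) (R : Finset (Site d k)) (u : Site d k) (c : Fin q) :
    0 ≤ nn f R u c :=
  stat_avg_nonneg _ fun _ => stat_UU_nonneg _ _ _ _

theorem nn_le_one (f : Site d k → Fin q) (R : Finset (Site d k)) (u : Site d k) (c : Fin q) :
    nn f R u c ≤ 1 :=
  stat_avg_le_one _ fun _ => stat_UU_le_one _ _ _ _

/-- not seeing `c` at all implies not seeing it in `R` -/
theorem zz_le_UU (f : Site d k → Fin q) (R : Finset (Site d k)) (v : Site d k) (c : Fin q) :
    zz f v c ≤ UU f R v c := by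
  unfold zz UU
  split_ifs with h1 h2 h2
  · exact le_refl _
  · norm_num
  · exfalso
    obtain ⟨σ, _, h⟩ := h2
    apply h1
    unfold SS
    rw [Finset.mem_image]
    exact ⟨σ, Finset.mem_univ _, h⟩
  · exact le_refl _

theorem mm_le_nn (f : Site d k → Fin q) (R : Finset (Site d k)) (u : Site d k) (c : Fin q) :
    mm f u c ≤ nn f R u c := by
  unfold mm nn
  apply div_le_div_of_nonneg_right _ (by positivity)
  exact Finset.sum_le_sum fun σ _ => zz_le_UU f R _ c

end Pool.Agent.LO

end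

/-! ### from `Lib_MP_2c424f_lo.Basic` -/

section

/-!
# Torus basics (piece BASIC)
-/

set_option autoImplicit false

open Finset

namespace Pool.Agent.LO

variable {d k q : ℕ}

/-- number of sites -/
theorem card_site (d k : ℕ) : (Fintype.card (Site d k) : ℝ) = NN d k := by
  unfold NN
  rw [Fintype.card_fun, ZMod.card, Fintype.card_fin]
  push_cast
  rfl

/-- opposite step -/
theorem sv_opp (j : Fin d) (b : Bool) : (sv (j, b) : Site d k) + sv (j, !b) = 0 := by
  unfold sv
  rw [← Pi.single_add]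
  cases b <;> simp

/-- reduction mod `2` -/
private def prm (hk : 1 ≤ k) : ZMod (2 ^ k) →+* ZMod 2 :=
  ZMod.castHom (dvd_pow_self 2 (by omega : k ≠ 0)) (ZMod 2)

private theorem evn_iff_prm (hk : 1 ≤ k) (x : Site d k) : evn x ↔ ∑ i, prm hk (x i) = 0 := by
  unfold evn
  rw [← ZMod.natCast_eq_zero_iff_even]
  have : ((∑ i, (x i).val : ℕ) : ZMod 2) = ∑ i, prm hk (x i) := by
    push_cast
    refine sum_congr rfl fun i _ => ?_
    have h := map_natCast (prm hk) (x i).val
    rw [ZMod.natCast_zmod_val] at h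
    exact h.symm
  rw [this]

private theorem prm_sv (hk : 1 ≤ k) (σ : Stp d) : ∑ i, prm hk ((sv σ : Site d k) i) = 1 := by
  obtain ⟨j, b⟩ := σ
  rw [Finset.sum_eq_single j]
  · cases b
    · simp only [sv, Pi.single_eq_same]
      rw [if_neg (by simp), map_neg, map_one]
      decide
    · simp only [sv, Pi.single_eq_same, if_true, map_one]
  · intro i _ hi
    simp only [sv]
    rw [Pi.single_eq_of_ne hi, map_zero]
  · intro h
    exact absurd (mem_univ j) h

/-- steps change the parity -/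
theorem evn_step (hk : 1 ≤ k) (x : Site d k) (σ : Stp d) : evn (x + sv σ) ↔ ¬ evn x := by
  rw [evn_iff_prm hk, evn_iff_prm hk]
  have h : ∑ i, prm hk ((x + (sv σ : Site d k)) i) = ∑ i, prm hk (x i) + 1 := by
    rw [← prm_sv hk σ, ← sum_add_distrib]
    refine sum_congr rfl fun i _ => ?_
    rw [Pi.add_apply, map_add]
  rw [h]
  generalize ∑ i, prm hk (x i) = a
  revert a
  decide

/-- translation by a step, odd to even -/
theorem sum_step (hk : 1 ≤ k) (σ : Stp d) (φ : Site d k → ℝ) :
    ∑ u ∈ evs d k, φ (u + sv σ) = ∑ v ∈ ods d k, φ v := by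
  classical
  obtain ⟨j, b⟩ := σ
  refine Finset.sum_bij' (fun u _ => u + sv (j, b)) (fun v _ => v + sv (j, !b)) ?_ ?_ ?_ ?_ ?_
  · intro u hu
    simp only [evs, ods, mem_filter, mem_univ, true_and] at hu ⊢
    rw [evn_step hk]
    exact not_not.mpr hu
  · intro v hv
    simp only [evs, ods, mem_filter, mem_univ, true_and] at hv ⊢
    rw [evn_step hk]
    exact hv
  · intro u _
    rw [add_assoc, sv_opp, add_zero]
  · intro v _
    rw [add_assoc, add_comm (sv (j, !b)), sv_opp, add_zero]
  · intro u _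
    rfl

/-- translation by a step, even to odd -/
private theorem sum_step' (hk : 1 ≤ k) (σ : Stp d) (φ : Site d k → ℝ) :
    ∑ u ∈ ods d k, φ (u + sv σ) = ∑ v ∈ evs d k, φ v := by
  obtain ⟨j, b⟩ := σ
  rw [← sum_step hk (j, !b) (fun v => φ (v + sv (j, b)))]
  refine sum_congr rfl fun u _ => ?_
  rw [add_assoc, add_comm (sv (j, !b)), sv_opp, add_zero]

private theorem card_evs_eq (hd : 1 ≤ d) (hk : 1 ≤ k) : ((evs d k).card : ℝ) = (ods d k).card := by
  have h := sum_step hk ((⟨0, hd⟩, true) : Stp d) (fun _ => (1 : ℝ))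
  simpa using h

private theorem card_evs_add (d k : ℕ) : ((evs d k).card : ℝ) + (ods d k).card = NN d k := by
  classical
  rw [← card_site, ← Nat.cast_add]
  congr 1
  unfold evs ods
  rw [Finset.card_filter_add_card_filter_not]
  rfl

/-- half of the sites are even -/
theorem card_evs (hd : 1 ≤ d) (hk : 1 ≤ k) : ((evs d k).card : ℝ) = NN d k / 2 := by
  have h1 := card_evs_eq hd hk
  have h2 := card_evs_add d k
  linarith

/-- half of the sites are odd -/
theorem card_ods (hd : 1 ≤ d) (hk : 1 ≤ k) : ((ods d k).card : ℝ) = NN d k / 2 := by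
  have h1 := card_evs_eq hd hk
  have h2 := card_evs_add d k
  linarith

/-- double counting of edges -/
theorem sum_nbr (hk : 1 ≤ k) (F : Site d k → Site d k → ℝ) :
    ∑ u ∈ evs d k, ∑ σ : Stp d, F u (u + sv σ) = ∑ v ∈ ods d k, ∑ σ : Stp d, F (v + sv σ) v := by
  rw [sum_comm]
  rw [sum_comm (s := ods d k)]
  refine Finset.sum_bij' (fun σ _ => ((σ.1, !σ.2) : Stp d)) (fun σ _ => ((σ.1, !σ.2) : Stp d))
    (fun _ _ => mem_univ _) (fun _ _ => mem_univ _) ?_ ?_ ?_
  · rintro ⟨j, b⟩ _
    simp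
  · rintro ⟨j, b⟩ _
    simp
  · rintro ⟨j, b⟩ _
    rw [← sum_step hk (j, b) (fun v => F (v + sv (j, !b)) v)]
    refine sum_congr rfl fun u _ => ?_
    rw [add_assoc, sv_opp, add_zero]

private theorem natCast_ne_zero_of_lt (n : ℕ) (h0 : 0 < n) (h : n < 2 ^ k) : (n : ZMod (2 ^ k)) ≠ 0 := by
  intro hn
  rw [ZMod.natCast_eq_zero_iff] at hn
  exact absurd (Nat.le_of_dvd h0 hn) (by omega)

/-- the steps are distinct -/
theorem sv_inj (hk : 2 ≤ k) : Function.Injective (sv : Stp d → Site d k) := by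
  have h4 : 4 ≤ 2 ^ k := by
    calc 4 = 2 ^ 2 := by norm_num
      _ ≤ 2 ^ k := Nat.pow_le_pow_right (by norm_num) hk
  have h1 : ((1 : ℕ) : ZMod (2 ^ k)) ≠ 0 := natCast_ne_zero_of_lt 1 (by norm_num) (by omega)
  have h2 : ((2 : ℕ) : ZMod (2 ^ k)) ≠ 0 := natCast_ne_zero_of_lt 2 (by norm_num) (by omega)
  push_cast at h1 h2
  rintro ⟨i, a⟩ ⟨j, b⟩ h
  have hij : i = j := by
    by_contra hne
    have := congrFun h i
    simp only [sv, Pi.single_eq_same] at this
    rw [Pi.single_eq_of_ne hne] at this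
    cases a
    · rw [if_neg (by simp)] at this
      exact h1 (by linear_combination -this)
    · rw [if_pos rfl] at this
      exact h1 this
  subst hij
  have := congrFun h i
  simp only [sv, Pi.single_eq_same] at this
  cases a <;> cases b
  · rfl
  · exfalso
    simp only [if_true, Bool.false_eq_true, if_false] at this
    exact h2 (by linear_combination -this)
  · exfalso
    simp only [if_true, Bool.false_eq_true, if_false] at this
    exact h2 (by linear_combination this)
  · rfl

private theorem sv_at (i j : Fin d) (a b : Bool) :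
    (sv (i, a) : Site d k) j = 0 ∨ (i = j ∧ a = b) ∨
      (i = j ∧ (sv (i, a) : Site d k) j = - (if b then 1 else -1)) := by
  by_cases hij : i = j
  · subst hij
    by_cases hab : a = b
    · right; left; exact ⟨rfl, hab⟩
    · right; right
      refine ⟨rfl, ?_⟩
      simp only [sv, Pi.single_eq_same]
      cases a <;> cases b <;> simp_all
  · left
    simp only [sv]
    rw [Pi.single_eq_of_ne (Ne.symm hij)]

private theorem two_key (hk : 3 ≤ k) (p1 p2 r1 r2 : Stp d)
    (h : (sv p1 : Site d k) + sv p2 = sv r1 + sv r2) (hne : (sv r1 : Site d k) + sv r2 ≠ 0) :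
    r1 = p1 ∨ r1 = p2 := by
  by_contra hcon
  push Not at hcon
  obtain ⟨hc1, hc2⟩ := hcon
  obtain ⟨j, b⟩ := r1
  obtain ⟨i1, a1⟩ := p1
  obtain ⟨i2, a2⟩ := p2
  obtain ⟨i3, a3⟩ := r2
  have h8 : 8 ≤ 2 ^ k := by
    calc 8 = 2 ^ 3 := by norm_num
      _ ≤ 2 ^ k := Nat.pow_le_pow_right (by norm_num) hk
  have n1 := natCast_ne_zero_of_lt (k := k) 1 (by norm_num) (by omega)
  have n2 := natCast_ne_zero_of_lt (k := k) 2 (by norm_num) (by omega)
  have n3 := natCast_ne_zero_of_lt (k := k) 3 (by norm_num) (by omega)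
  have n4 := natCast_ne_zero_of_lt (k := k) 4 (by norm_num) (by omega)
  push_cast at n1 n2 n3 n4
  have hj := congrFun h j
  simp only [Pi.add_apply] at hj
  have hr1 : (sv (j, b) : Site d k) j = (if b then 1 else -1) := by
    simp only [sv, Pi.single_eq_same]
  have e1 : (sv (i1, a1) : Site d k) j = 0 ∨
      (sv (i1, a1) : Site d k) j = - (if b then 1 else -1) := by
    rcases sv_at (k := k) i1 j a1 b with h | h | h
    · left; exact h
    · exfalso; apply hc1; rw [h.1, h.2]
    · right; exact h.2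
  have e2 : (sv (i2, a2) : Site d k) j = 0 ∨
      (sv (i2, a2) : Site d k) j = - (if b then 1 else -1) := by
    rcases sv_at (k := k) i2 j a2 b with h | h | h
    · left; exact h
    · exfalso; apply hc2; rw [h.1, h.2]
    · right; exact h.2
  have e3 : (sv (i3, a3) : Site d k) j = 0 ∨ (sv (i3, a3) : Site d k) j = (if b then 1 else -1) := by
    rcases sv_at (k := k) i3 j a3 b with h | h | h
    · left; exact h
    · right
      rw [h.1, h.2]
      simp only [sv, Pi.single_eq_same]
    · exfalso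
      apply hne
      obtain ⟨h1, h2⟩ := h
      subst h1
      have hab : a3 = !b := by
        simp only [sv, Pi.single_eq_same] at h2
        cases a3 <;> cases b
        · exfalso
          simp only [Bool.false_eq_true, if_false] at h2
          exact n2 (by linear_combination -h2)
        · rfl
        · rfl
        · exfalso
          simp only [if_true] at h2
          exact n2 (by linear_combination h2)
      rw [hab]
      exact sv_opp i3 b
  rw [hr1] at hj
  rcases e1 with e1 | e1 <;> rcases e2 with e2 | e2 <;> rcases e3 with e3 | e3 <;>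
    rw [e1, e2, e3] at hj <;> cases b
  all_goals simp only [if_true, Bool.false_eq_true, if_false] at hj
  · exact n1 (by linear_combination hj)
  · exact n1 (by linear_combination -hj)
  · exact n2 (by linear_combination hj)
  · exact n2 (by linear_combination -hj)
  · exact n2 (by linear_combination hj)
  · exact n2 (by linear_combination -hj)
  · exact n3 (by linear_combination hj)
  · exact n3 (by linear_combination -hj)
  · exact n2 (by linear_combination hj)
  · exact n2 (by linear_combination -hj)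
  · exact n3 (by linear_combination hj)
  · exact n3 (by linear_combination -hj)
  · exact n3 (by linear_combination hj)
  · exact n3 (by linear_combination -hj)
  · exact n4 (by linear_combination hj)
  · exact n4 (by linear_combination -hj)

/-- two different even sites have at most two ways to be joined by two steps -/
theorem two_steps (hk : 3 ≤ k) (w : Site d k) (hw : w ≠ 0) :
    (univ.filter fun p : Stp d × Stp d => (sv p.1 : Site d k) + sv p.2 = w).card ≤ 2 := by
  classical
  rcases (univ.filter fun p : Stp d × Stp d => (sv p.1 : Site d k) + sv p.2 = w).eq_empty_or_nonempty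
    with he | ⟨p, hp⟩
  · rw [he]; simp
  · have hp' : (sv p.1 : Site d k) + sv p.2 = w := (mem_filter.mp hp).2
    have hinj := sv_inj (d := d) (k := k) (by omega)
    have hsub : (univ.filter fun p : Stp d × Stp d => (sv p.1 : Site d k) + sv p.2 = w) ⊆
        {p, (p.2, p.1)} := by
      intro r hr
      have hr' : (sv r.1 : Site d k) + sv r.2 = w := (mem_filter.mp hr).2
      rcases two_key hk p.1 p.2 r.1 r.2 (by rw [hp', hr']) (by rw [hr']; exact hw) with h | h
      · have h2 : r.2 = p.2 := by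
          apply hinj
          have : (sv r.1 : Site d k) + sv r.2 = sv p.1 + sv p.2 := by rw [hp', hr']
          rw [h] at this
          exact add_left_cancel this
        rw [mem_insert]
        left
        exact Prod.ext h h2
      · have h2 : r.2 = p.1 := by
          apply hinj
          have : (sv r.1 : Site d k) + sv r.2 = sv p.2 + sv p.1 := by
            rw [hr', add_comm (sv p.2), hp']
          rw [h] at this
          exact add_left_cancel this
        rw [mem_insert, mem_singleton]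
        right
        exact Prod.ext h h2
    exact (card_le_card hsub).trans Finset.card_le_two

/-- the colour pattern -/
private noncomputable def pat_Basic (q : ℕ) (b : Prop) [Decidable b] : Finset (Fin q) :=
  if b then univ.filter fun c => c.val < q1 q else univ.filter fun c => ¬ c.val < q1 q

private theorem card_pat_lt (q : ℕ) : (univ.filter fun c : Fin q => c.val < q1 q).card = q1 q := by
  rw [Fin.card_filter_val_lt]
  unfold q1
  exact min_eq_right (Nat.div_le_self q 2)

private theorem card_pat_ge (q : ℕ) : (univ.filter fun c : Fin q => ¬ c.val < q1 q).card = q2 q := by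
  have h1 := Finset.card_filter_add_card_filter_not (s := (univ : Finset (Fin q)))
    (fun c : Fin q => c.val < q1 q)
  rw [card_pat_lt, card_univ, Fintype.card_fin] at h1
  unfold q2
  unfold q1 at h1 ⊢
  omega

/-- pattern colourings -/
theorem ZZ_ge (hd : 1 ≤ d) (hk : 1 ≤ k) (hq : 2 ≤ q) :
    Real.exp (NN d k / 2 * Real.log ((q1 q : ℝ) * q2 q)) ≤ ZZ d k q := by
  classical
  have hq1 : 1 ≤ q1 q := by unfold q1; omega
  have hq2 : 1 ≤ q2 q := by unfold q2; omega
  have hsub : Fintype.piFinset (fun x : Site d k => pat_Basic q (evn x)) ⊆ prps d k q := by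
    intro f hf
    rw [Fintype.mem_piFinset] at hf
    simp only [prps, mem_filter, mem_univ, true_and]
    intro x σ he
    have h1 := hf x
    have h2 := hf (x + sv σ)
    have h3 := evn_step hk x σ
    rw [he] at h2
    unfold pat_Basic at h1 h2
    by_cases hx : evn x
    · rw [if_pos hx] at h1
      rw [if_neg (by rw [h3]; exact not_not.mpr hx)] at h2
      simp only [mem_filter, mem_univ, true_and] at h1 h2
      exact h2 h1
    · rw [if_neg hx] at h1
      rw [if_pos (h3.mpr hx)] at h2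
      simp only [mem_filter, mem_univ, true_and] at h1 h2
      exact h1 h2
  have hcard : (Fintype.piFinset (fun x : Site d k => pat_Basic q (evn x))).card =
      q1 q ^ (evs d k).card * q2 q ^ (ods d k).card := by
    rw [Fintype.card_piFinset]
    have : ∀ x : Site d k, (pat_Basic q (evn x)).card = if evn x then q1 q else q2 q := by
      intro x
      unfold pat_Basic
      split_ifs
      · exact card_pat_lt q
      · exact card_pat_ge q
    rw [Finset.prod_congr rfl (fun x _ => this x), Finset.prod_ite, Finset.prod_const, Finset.prod_const]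
    rfl
  have hle : ((q1 q ^ (evs d k).card * q2 q ^ (ods d k).card : ℕ) : ℝ) ≤ ZZ d k q := by
    unfold ZZ
    rw [← hcard]
    exact_mod_cast card_le_card hsub
  refine le_trans (le_of_eq ?_) hle
  have hp1 : (0 : ℝ) < q1 q := by exact_mod_cast hq1
  have hp2 : (0 : ℝ) < q2 q := by exact_mod_cast hq2
  push_cast
  rw [Real.log_mul hp1.ne' hp2.ne', mul_add]
  nth_rw 1 [← card_evs hd hk]
  rw [← card_ods hd hk, Real.exp_add, mul_comm ((evs d k).card : ℝ), mul_comm ((ods d k).card : ℝ),
    Real.exp_mul, Real.exp_mul, Real.exp_log hp1, Real.exp_log hp2, Real.rpow_natCast,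
    Real.rpow_natCast]

end Pool.Agent.LO

end

/-! ### from `Lib_MP_2c424f_lo.CutI` -/

section

/-!
# Variances of the blocks (piece CUTI)

`χ = zz` on odd sites and the majority value `1(m_u ≥ 1/2)` on even sites.  The number of changing edges
at `u` is `2 d min (m, 1 - m) ≤ 4 d m (1 - m)`.
-/

set_option autoImplicit false

open Finset

namespace Pool.Agent.LO

variable {d k q : ℕ}

private theorem CutI_zz (f : Site d k → Fin q) (v : Site d k) (c : Fin q) :
    zz f v c = 0 ∨ zz f v c = 1 := by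
  unfold zz
  split_ifs
  · left; rfl
  · right; rfl

/-- the indicator field -/
theorem exists_chi (hd : 1 ≤ d) (hk : 1 ≤ k) (f : Site d k → Fin q) (c : Fin q) :
    ∃ χ : Site d k → ℝ, (∀ x, χ x = 0 ∨ χ x = 1) ∧ (∀ v ∈ ods d k, χ v = zz f v c) ∧
      ∑ j : Fin d, ∑ x, (|χ (x + sv (j, true)) - χ x| + |χ (x + sv (j, false)) - χ x|) ≤
        8 * d * II f c := by
  classical
  obtain ⟨χ, hχ⟩ : ∃ χ : Site d k → ℝ, ∀ x, χ x = if evn x then (if 1 / 2 ≤ mm f x c then 1 else 0)
      else zz f x c := ⟨_, fun _ => rfl⟩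
  have hodd : ∀ v ∈ ods d k, χ v = zz f v c := by
    intro v hv
    rw [hχ, if_neg (Finset.mem_filter.mp hv).2]
  refine ⟨χ, fun x => ?_, hodd, ?_⟩
  · rw [hχ]
    split_ifs
    · right; rfl
    · left; rfl
    · exact CutI_zz f x c
  · have hd' : (0 : ℝ) < d := by exact_mod_cast hd
    -- sum over sites and steps
    have h1 : ∑ j : Fin d, ∑ x, (|χ (x + sv (j, true)) - χ x| + |χ (x + sv (j, false)) - χ x|) =
        ∑ x, ∑ σ : Stp d, |χ (x + sv σ) - χ x| := by
      rw [Finset.sum_comm]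
      refine Finset.sum_congr rfl fun x _ => ?_
      rw [Fintype.sum_prod_type]
      refine Finset.sum_congr rfl fun j _ => ?_
      rw [Fintype.sum_bool]
    have h2 : ∑ x, ∑ σ : Stp d, |χ (x + sv σ) - χ x| =
        ∑ u ∈ evs d k, ∑ σ : Stp d, |χ (u + sv σ) - χ u| +
          ∑ v ∈ ods d k, ∑ σ : Stp d, |χ (v + sv σ) - χ v| := by
      unfold evs ods
      exact (Finset.sum_filter_add_sum_filter_not _ _ _).symm
    have h3 : ∑ v ∈ ods d k, ∑ σ : Stp d, |χ (v + sv σ) - χ v| =
        ∑ u ∈ evs d k, ∑ σ : Stp d, |χ (u + sv σ) - χ u| := by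
      rw [sum_nbr hk (fun u v => |χ v - χ u|)]
      refine Finset.sum_congr rfl fun v _ => Finset.sum_congr rfl fun σ _ => ?_
      exact abs_sub_comm _ _
    have h4 : ∀ u ∈ evs d k, ∑ σ : Stp d, |χ (u + sv σ) - χ u| ≤
        4 * d * (mm f u c * (1 - mm f u c)) := by
      intro u hu
      have hu' : evn u := (Finset.mem_filter.mp hu).2
      have h5 : ∀ σ : Stp d, χ (u + sv σ) = zz f (u + sv σ) c := by
        intro σ
        refine hodd _ ?_
        unfold ods
        rw [Finset.mem_filter]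
        refine ⟨Finset.mem_univ _, ?_⟩
        rw [evn_step hk]
        exact not_not.mpr hu'
      have hm0 := mm_nonneg f u c
      have hm1 := mm_le_one f u c
      have h6 : ∑ σ : Stp d, zz f (u + sv σ) c = 2 * d * mm f u c := by
        unfold mm
        field_simp
      by_cases hm : 1 / 2 ≤ mm f u c
      · have h7 : χ u = 1 := by rw [hχ, if_pos hu', if_pos hm]
        have h8 : ∀ σ : Stp d, |χ (u + sv σ) - χ u| = 1 - zz f (u + sv σ) c := by
          intro σ
          rw [h5, h7]
          rcases CutI_zz f (u + sv σ) c with h | h <;> rw [h] <;> norm_num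
        rw [Finset.sum_congr rfl fun σ _ => h8 σ, Finset.sum_sub_distrib, h6, Finset.sum_const,
          Finset.card_univ, Fintype.card_prod, Fintype.card_fin, Fintype.card_bool, nsmul_eq_mul]
        push_cast
        nlinarith [mul_nonneg (mul_nonneg hd'.le (sub_nonneg.mpr hm1)) (sub_nonneg.mpr hm)]
      · have h7 : χ u = 0 := by rw [hχ, if_pos hu', if_neg hm]
        have h8 : ∀ σ : Stp d, |χ (u + sv σ) - χ u| = zz f (u + sv σ) c := by
          intro σ
          rw [h5, h7]
          rcases CutI_zz f (u + sv σ) c with h | h <;> rw [h] <;> norm_num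
        rw [Finset.sum_congr rfl fun σ _ => h8 σ, h6]
        have hm' : 0 ≤ 1 / 2 - mm f u c := by linarith [not_le.mp hm]
        nlinarith [mul_nonneg (mul_nonneg hd'.le hm0) hm']
    rw [h1, h2, h3]
    have h9 : ∑ u ∈ evs d k, ∑ σ : Stp d, |χ (u + sv σ) - χ u| ≤ 4 * d * II f c := by
      unfold II
      rw [Finset.mul_sum]
      exact Finset.sum_le_sum h4
    linarith

/-- block mean of `χ` -/
noncomputable def pm (χ : Site d (k + 1) → ℝ) (t : Blk d k) : ℝ :=
  (∑ a, ∑ b, χ (pt t a b)) / 4 ^ d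

/-- sum of the block variances (`poincare`, `sum_cut`) -/
theorem sum_var (χ : Site d (k + 1) → ℝ) (hχ : ∀ x, χ x = 0 ∨ χ x = 1) :
    ∑ t : Blk d k, pm χ t * (1 - pm χ t) ≤
      1 / 4 * (∑ j : Fin d, ∑ x, (|χ (x + sv (j, true)) - χ x| + |χ (x + sv (j, false)) - χ x|)) / 2 ^ d := by
  have h1 : ∀ t : Blk d k, pm χ t * (1 - pm χ t) ≤ 1 / 4 * ((∑ j : Fin d, ∑ a, ∑ b,
      (|χ (pt t (flp a j) b) - χ (pt t a b)| + |χ (pt t a (flp b j)) - χ (pt t a b)|)) / 4 ^ d) :=
    fun t => poincare (fun a b => χ (pt t a b)) fun a b => hχ _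
  refine (Finset.sum_le_sum fun t _ => h1 t).trans (le_of_eq ?_)
  rw [← Finset.mul_sum, ← Finset.sum_div, Finset.sum_comm]
  rw [Finset.sum_congr rfl fun j _ => sum_cut j χ, ← Finset.mul_sum]
  have h22 : (4 : ℝ) ^ d = 2 ^ d * 2 ^ d := by
    rw [← mul_pow]; norm_num
  rw [h22]
  field_simp

/-- if the odd mean is in `[δ/2, 1 - δ]` then the variance is at least `δ/5` -/
theorem var_ge (hd : 1 ≤ d) (f : Site d (k + 1) → Fin q) (c : Fin q) (χ : Site d (k + 1) → ℝ)
    (hχ : ∀ x, χ x = 0 ∨ χ x = 1) (hz : ∀ v ∈ ods d (k + 1), χ v = zz f v c) (t : Blk d k) {δ : ℝ}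
    (h0 : 0 < δ) (h1 : δ ≤ 1 / 2) (hl : δ / 2 ≤ mt f t c) (hu : mt f t c ≤ 1 - δ) :
    δ / 5 ≤ pm χ t * (1 - pm χ t) := by
  classical
  have h4p : (0 : ℝ) < 4 ^ d := by positivity
  have hχ0 : ∀ x, 0 ≤ χ x := fun x => by rcases hχ x with h | h <;> rw [h]; norm_num
  have hχ1 : ∀ x, χ x ≤ 1 := fun x => by rcases hχ x with h | h <;> rw [h]; norm_num
  obtain ⟨O, hO⟩ : ∃ O, O = ∑ a : Bt d, ∑ b : Bt d, (if od a b then χ (pt t a b) else 0) := ⟨_, rfl⟩
  obtain ⟨E, hE⟩ : ∃ E, E = ∑ a : Bt d, ∑ b : Bt d, (if od a b then 0 else χ (pt t a b)) := ⟨_, rfl⟩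
  obtain ⟨N, hN⟩ : ∃ N : ℝ, N = ∑ a : Bt d, ∑ b : Bt d, (if od a b then 1 else 0) := ⟨_, rfl⟩
  have hsum : ∑ a : Bt d, ∑ b : Bt d, χ (pt t a b) = O + E := by
    rw [hO, hE, ← Finset.sum_add_distrib]
    refine Finset.sum_congr rfl fun a _ => ?_
    rw [← Finset.sum_add_distrib]
    refine Finset.sum_congr rfl fun b _ => ?_
    split_ifs <;> simp
  have hmt : mt f t c = 2 * O / 4 ^ d := by
    unfold mt EB
    rw [hO]
    congr 2
    refine Finset.sum_congr rfl fun a _ => Finset.sum_congr rfl fun b _ => ?_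
    by_cases hab : od a b
    · rw [if_pos hab, if_pos hab, hz]
      unfold ods
      rw [Finset.mem_filter]
      refine ⟨Finset.mem_univ _, ?_⟩
      rw [evn_pt]
      exact not_not.mpr hab
    · rw [if_neg hab, if_neg hab]
  have hE0 : 0 ≤ E := by
    rw [hE]
    refine Finset.sum_nonneg fun a _ => Finset.sum_nonneg fun b _ => ?_
    split_ifs
    · exact le_refl _
    · exact hχ0 _
  have hN1 : N = 4 ^ d / 2 := by
    have h := card_od hd
    unfold EB at h
    rw [← hN] at h
    field_simp at h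
    linarith
  have hEN : E + N ≤ 4 ^ d := by
    rw [hE, hN, ← Finset.sum_add_distrib]
    have h2 : ∀ a ∈ (Finset.univ : Finset (Bt d)), (∑ b : Bt d, (if od a b then 0 else χ (pt t a b)) +
        ∑ b : Bt d, (if od a b then (1 : ℝ) else 0)) ≤ 2 ^ d := by
      intro a _
      rw [← Finset.sum_add_distrib]
      have h3 : ∀ b ∈ (Finset.univ : Finset (Bt d)), ((if od a b then 0 else χ (pt t a b)) +
          (if od a b then (1 : ℝ) else 0)) ≤ 1 := by
        intro b _
        split_ifs
        · norm_num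
        · rw [add_zero]; exact hχ1 _
      refine (Finset.sum_le_sum h3).trans (le_of_eq ?_)
      rw [Finset.sum_const, Finset.card_univ, Fintype.card_fun, Fintype.card_bool, Fintype.card_fin,
        nsmul_eq_mul, mul_one]
      push_cast
      rfl
    refine (Finset.sum_le_sum h2).trans (le_of_eq ?_)
    rw [Finset.sum_const, Finset.card_univ, Fintype.card_fun, Fintype.card_bool, Fintype.card_fin,
      nsmul_eq_mul]
    push_cast
    rw [← mul_pow]
    norm_num
  have hpm : pm χ t = mt f t c / 2 + E / 4 ^ d := by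
    unfold pm
    rw [hsum, hmt]
    field_simp
  have he0 : 0 ≤ E / 4 ^ d := div_nonneg hE0 h4p.le
  have he1 : E / 4 ^ d ≤ 1 / 2 := by
    rw [div_le_iff₀ h4p]
    linarith
  have hp0 : δ / 4 ≤ pm χ t := by rw [hpm]; linarith
  have hp1 : pm χ t ≤ 1 - δ / 2 := by rw [hpm]; linarith
  generalize pm χ t = p at hp0 hp1
  have h5 : 0 ≤ (p - δ / 4) * (1 - δ / 2 - p) :=
    mul_nonneg (sub_nonneg.mpr hp0) (sub_nonneg.mpr hp1)
  nlinarith

end Pool.Agent.LO

end

/-! ### from `Lib_MP_2c424f_lo.Dev` -/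

section

/-!
# Deviation of the sites from the label of the block (piece DEV)

For a block `t` and a colour `c`: the mean of `|zz - 1(lab1)|` over the odd points of the block is at most
`5 Var_t + 3 (mb - mt) + 1(bad)`.
-/

set_option autoImplicit false

open Finset

namespace Pool.Agent.LO

variable {d k q : ℕ}

theorem zz_zero_or_one (f : Site d k → Fin q) (v : Site d k) (c : Fin q) : zz f v c = 0 ∨ zz f v c = 1 := by
  unfold zz
  split_ifs
  · exact Or.inl rfl
  · exact Or.inr rfl

theorem pm_var_nonneg (χ : Site d (k + 1) → ℝ) (hχ : ∀ x, χ x = 0 ∨ χ x = 1)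
    (t : Blk d k) : 0 ≤ pm χ t * (1 - pm χ t) := by
  have h0 : 0 ≤ pm χ t := by
    unfold pm
    refine div_nonneg (sum_nonneg fun a _ => sum_nonneg fun b _ => ?_) (by positivity)
    rcases hχ (pt t a b) with h | h <;> rw [h]
    exact zero_le_one
  have h1 : pm χ t ≤ 1 := by
    unfold pm
    rw [div_le_one (by positivity)]
    have h2 : ∑ a : Bt d, ∑ b : Bt d, χ (pt t a b) ≤ ∑ a : Bt d, ∑ b : Bt d, (1 : ℝ) := by
      refine sum_le_sum fun a _ => sum_le_sum fun b _ => ?_
      rcases hχ (pt t a b) with h | h <;> rw [h]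
      exact zero_le_one
    refine h2.trans (le_of_eq ?_)
    simp only [sum_const, card_univ, Fintype.card_fun, Fintype.card_bool, Fintype.card_fin,
      nsmul_eq_mul, mul_one, Nat.cast_pow, Nat.cast_ofNat]
    rw [← mul_pow]
    norm_num
  exact mul_nonneg h0 (sub_nonneg.2 h1)

theorem mt_nonneg (f : Site d (k + 1) → Fin q) (t : Blk d k) (c : Fin q) : 0 ≤ mt f t c := by
  have h : EB (fun _ _ : Bt d => (0 : ℝ)) ≤ mt f t c := by
    unfold mt
    refine EB_mono fun a b _ => ?_
    rcases zz_zero_or_one f (pt t a b) c with h | h <;> rw [h]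
    exact zero_le_one
  have h0 : EB (fun _ _ : Bt d => (0 : ℝ)) = 0 := by
    simp [EB]
  linarith

theorem mt_le_one (hd : 1 ≤ d) (f : Site d (k + 1) → Fin q) (t : Blk d k) (c : Fin q) :
    mt f t c ≤ 1 := by
  rw [← card_od hd]
  unfold mt
  refine EB_mono fun a b _ => ?_
  rcases zz_zero_or_one f (pt t a b) c with h | h <;> rw [h]
  exact zero_le_one

open scoped Classical in
/-- mean deviation of the odd points of a block from the label of the block -/
noncomputable def dev (f : Site d (k + 1) → Fin q) (t : Blk d k) (c : Fin q) : ℝ :=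
  EB fun a b => |zz f (pt t a b) c - (if lab1 f t c then 1 else 0)|

open scoped Classical in
theorem dev_lab1 (hd : 1 ≤ d) (f : Site d (k + 1) → Fin q) (t : Blk d k) (c : Fin q)
    (h : lab1 f t c) : dev f t c = 1 - mt f t c := by
  unfold dev mt
  have h1 : (fun a b : Bt d => |zz f (pt t a b) c - (if lab1 f t c then (1 : ℝ) else 0)|) =
      fun a b => (1 : ℝ) + (-1) * zz f (pt t a b) c := by
    funext a b
    rw [if_pos h]
    rcases zz_zero_or_one f (pt t a b) c with h | h <;> rw [h] <;> norm_num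
  rw [h1, EB_add, card_od hd, EB_mul]
  ring

open scoped Classical in
theorem dev_not (f : Site d (k + 1) → Fin q) (t : Blk d k) (c : Fin q)
    (h : ¬ lab1 f t c) : dev f t c = mt f t c := by
  unfold dev mt
  congr 1
  funext a b
  rw [if_neg h]
  rcases zz_zero_or_one f (pt t a b) c with h | h <;> rw [h] <;> norm_num

theorem dev_nonneg (f : Site d (k + 1) → Fin q) (t : Blk d k) (c : Fin q) : 0 ≤ dev f t c := by
  have h : EB (fun _ _ : Bt d => (0 : ℝ)) ≤ dev f t c := by
    unfold dev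
    exact EB_mono fun a b _ => abs_nonneg _
  have h0 : EB (fun _ _ : Bt d => (0 : ℝ)) = 0 := by
    simp [EB]
  linarith

open scoped Classical in
theorem dev_block (hd : 1 ≤ d) (hq : 1 ≤ q) (f : Site d (k + 1) → Fin q) (c : Fin q)
    (χ : Site d (k + 1) → ℝ) (hχ : ∀ x, χ x = 0 ∨ χ x = 1)
    (hz : ∀ v ∈ ods d (k + 1), χ v = zz f v c) (t : Blk d k) :
    dev f t c ≤ 5 * (pm χ t * (1 - pm χ t)) + 3 * (mb f t c - mt f t c) +
      (if bad c t f then 1 else 0) := by
  have hq' : (1 : ℝ) ≤ q := by exact_mod_cast hq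
  have hv := pm_var_nonneg χ hχ t
  have hm := mt_le_mb f t c
  have hm0 := mt_nonneg f t c
  have hm1 := mt_le_one hd f t c
  have hδ : dl q ≤ 1 / 100 := by
    unfold dl
    rw [div_le_div_iff₀ (by positivity) (by norm_num)]
    linarith
  have hif : (0 : ℝ) ≤ (if bad c t f then 1 else 0) := by split_ifs <;> norm_num
  by_cases hl : lab1 f t c
  · rw [dev_lab1 hd f t c hl]
    have hl' : 1 - dl q ≤ mb f t c := hl
    by_cases hh : 1 / 2 ≤ mt f t c
    · rcases hm1.eq_or_lt with he | hlt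
      · rw [he] at hm ⊢
        have h3 : 0 ≤ mb f t c - 1 := by linarith
        linarith
      · have h4 := var_ge hd f c χ hχ hz t (δ := 1 - mt f t c) (by linarith) (by linarith)
          (by linarith) (by linarith)
        linarith
    · have hh' := not_le.1 hh
      linarith
  · rw [dev_not f t c hl]
    by_cases hb : bad c t f
    · rw [if_pos hb]
      linarith
    · have hl0 : lab0 f t c := by
        by_contra h0
        exact hb ⟨hl, h0⟩
      have h5 : mb f t c ≤ dl q := (mb_le_mj f t c ⟨0, hd⟩).trans (hl0 ⟨0, hd⟩)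
      rcases hm0.eq_or_lt with he | hlt
      · rw [← he] at hm ⊢
        linarith
      · have h4 := var_ge hd f c χ hχ hz t (δ := 2 * mt f t c) (by linarith) (by linarith)
          (by linarith) (by linarith)
        linarith

open scoped Classical in
/-- sum over all blocks -/
theorem dev_sum (hd : 1 ≤ d) (hq : 1 ≤ q) (f : Site d (k + 1) → Fin q) (c : Fin q) :
    ∑ t : Blk d k, dev f t c ≤ 10 * d * (II f c + QQ f c) / 2 ^ d +
      ∑ t : Blk d k, (if bad c t f then (1 : ℝ) else 0) := by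
  obtain ⟨χ, hχ, hz, hI⟩ := exists_chi hd (Nat.le_add_left 1 k) f c
  have hd' : (1 : ℝ) ≤ d := by exact_mod_cast hd
  refine (sum_le_sum fun t _ => dev_block hd hq f c χ hχ hz t).trans ?_
  rw [sum_add_distrib, sum_add_distrib, ← mul_sum, ← mul_sum]
  have hv := sum_var χ hχ
  have hm := sum_mb f c
  have hv' : ∑ t : Blk d k, pm χ t * (1 - pm χ t) ≤ 1 / 4 * (8 * d * II f c) / 2 ^ d := by
    refine hv.trans (div_le_div_of_nonneg_right ?_ (by positivity))
    exact mul_le_mul_of_nonneg_left hI (by norm_num)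
  have hQ : 0 ≤ QQ f c := by
    unfold QQ
    refine sum_nonneg fun v _ => ?_
    split_ifs
    · exact le_rfl
    · positivity
  have h2 : (0 : ℝ) < 2 ^ d := by positivity
  have h3 : 5 * (1 / 4 * (8 * d * II f c) / 2 ^ d) + 3 * (2 / 2 ^ d * QQ f c) ≤
      10 * d * (II f c + QQ f c) / 2 ^ d := by
    rw [le_div_iff₀ h2]
    have e : (5 * (1 / 4 * (8 * (d : ℝ) * II f c) / 2 ^ d) + 3 * (2 / 2 ^ d * QQ f c)) * 2 ^ d =
        10 * d * II f c + 6 * QQ f c := by
      field_simp
      ring
    rw [e]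
    nlinarith
  linarith

end Pool.Agent.LO

end

/-! ### from `Lib_MP_2c424f_lo.Maj` -/

section

/-!
# The global majority set of available colours (piece MAJ)

`Bst f`: the colours which are not seen by at least half of the odd sites.  If the deviations from the
block labels and the disagreements with the labels of one block `t₁` are few, then `Bst f` is the label set
of `t₁`.  In all cases the number of odd sites whose set of available colours is not `Bst f` is controlled.
-/

set_option autoImplicit false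

open Finset

namespace Pool.Agent.LO

variable {d k q : ℕ}

open scoped Classical in
/-- the global majority set of available colours -/
noncomputable def Bst (f : Site d k → Fin q) : Finset (Fin q) :=
  univ.filter fun c => ((ods d k).card : ℝ) ≤ 2 * ∑ v ∈ ods d k, zz f v c

theorem mem_Bst (f : Site d k → Fin q) (c : Fin q) :
    c ∈ Bst f ↔ ((ods d k).card : ℝ) ≤ 2 * ∑ v ∈ ods d k, zz f v c := by
  unfold Bst
  rw [mem_filter]
  simp only [mem_univ, true_and]

private theorem Maj_card (hd : 1 ≤ d) :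
    2 / 2 ^ d * ((ods d (k + 1)).card : ℝ) = (Fintype.card (Blk d k) : ℝ) := by
  have h := sum_EB (k := k) hd (fun _ => (1 : ℝ))
  simp only [card_od hd] at h
  rw [sum_const, sum_const, card_univ, nsmul_eq_mul, nsmul_eq_mul, mul_one, mul_one] at h
  exact h.symm

private theorem Maj_mt (hd : 1 ≤ d) (f : Site d (k + 1) → Fin q) (c : Fin q) :
    2 / 2 ^ d * (∑ v ∈ ods d (k + 1), zz f v c) = ∑ t : Blk d k, mt f t c := by
  unfold mt
  exact (sum_EB hd (fun v => zz f v c)).symm

private theorem Maj_mem (hd : 1 ≤ d) (f : Site d (k + 1) → Fin q) (c : Fin q) :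
    c ∈ Bst f ↔ (Fintype.card (Blk d k) : ℝ) ≤ 2 * ∑ t : Blk d k, mt f t c := by
  rw [mem_Bst, ← Maj_mt hd, ← Maj_card (k := k) hd]
  have h2 : (0 : ℝ) < 2 / 2 ^ d := by positivity
  constructor
  · intro h
    have := mul_le_mul_of_nonneg_left h h2.le
    linarith
  · intro h
    have h3 : 2 / 2 ^ d * ((ods d (k + 1)).card : ℝ) ≤
        2 / 2 ^ d * (2 * ∑ v ∈ ods d (k + 1), zz f v c) := by
      linarith
    exact le_of_mul_le_mul_left h3 h2

open scoped Classical in
/-- the block `t` has another label than `t₁` -/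
noncomputable def dif (f : Site d (k + 1) → Fin q) (t₁ t : Blk d k) (c : Fin q) : ℝ :=
  if (lab1 f t c ↔ lab1 f t₁ c) then 0 else 1

theorem dif_nonneg (f : Site d (k + 1) → Fin q) (t₁ t : Blk d k) (c : Fin q) : 0 ≤ dif f t₁ t c := by
  unfold dif
  split_ifs <;> norm_num

private theorem Maj_one_le (hd : 1 ≤ d) (f : Site d (k + 1) → Fin q) (t₁ t : Blk d k) (c : Fin q)
    (h : lab1 f t₁ c) : 1 ≤ mt f t c + dev f t c + dif f t₁ t c := by
  by_cases hl : lab1 f t c
  · have := dif_nonneg f t₁ t c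
    rw [dev_lab1 hd f t c hl]
    linarith
  · have h1 : dif f t₁ t c = 1 := by
      unfold dif
      rw [if_neg]
      intro h2
      exact hl (h2.2 h)
    have h2 := mt_nonneg f t c
    have h3 := dev_nonneg f t c
    linarith

private theorem Maj_le (hd : 1 ≤ d) (f : Site d (k + 1) → Fin q) (t₁ t : Blk d k) (c : Fin q)
    (h : ¬ lab1 f t₁ c) : mt f t c ≤ dev f t c + dif f t₁ t c := by
  by_cases hl : lab1 f t c
  · have h1 : dif f t₁ t c = 1 := by
      unfold dif
      rw [if_neg]
      intro h2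
      exact h (h2.1 hl)
    have h2 := mt_le_one hd f t c
    have h3 := dev_nonneg f t c
    linarith
  · have := dif_nonneg f t₁ t c
    rw [dev_not f t c hl]
    linarith

/-- if there are few deviations then `Bst f` is the label set of `t₁` -/
private theorem Maj_eq (hd : 1 ≤ d) (f : Site d (k + 1) → Fin q) (t₁ : Blk d k)
    (h : ∑ c, ∑ t : Blk d k, dev f t c + ∑ c, ∑ t : Blk d k, dif f t₁ t c <
      (Fintype.card (Blk d k) : ℝ) / 2) (c : Fin q) : c ∈ Bst f ↔ lab1 f t₁ c := by
  have h1 : ∑ t : Blk d k, dev f t c ≤ ∑ c, ∑ t : Blk d k, dev f t c :=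
    single_le_sum (f := fun c => ∑ t : Blk d k, dev f t c)
      (fun c' _ => sum_nonneg fun t _ => dev_nonneg f t c') (mem_univ c)
  have h2 : ∑ t : Blk d k, dif f t₁ t c ≤ ∑ c, ∑ t : Blk d k, dif f t₁ t c :=
    single_le_sum (f := fun c => ∑ t : Blk d k, dif f t₁ t c)
      (fun c' _ => sum_nonneg fun t _ => dif_nonneg f t₁ t c') (mem_univ c)
  rw [Maj_mem hd]
  by_cases hl : lab1 f t₁ c
  · have h3 := sum_le_sum fun t (_ : t ∈ (univ : Finset (Blk d k))) => Maj_one_le hd f t₁ t c hl
    rw [sum_const, card_univ, nsmul_eq_mul, mul_one, sum_add_distrib, sum_add_distrib] at h3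
    constructor
    · intro _
      exact hl
    · intro _
      linarith
  · have h3 := sum_le_sum fun t (_ : t ∈ (univ : Finset (Blk d k))) => Maj_le hd f t₁ t c hl
    rw [sum_add_distrib] at h3
    constructor
    · intro h4
      exfalso
      linarith
    · intro h4
      exact absurd h4 hl

open scoped Classical in
private theorem Maj_pt (f : Site d (k + 1) → Fin q) (t₁ : Blk d k)
    (h : ∀ c, c ∈ Bst f ↔ lab1 f t₁ c) (t : Blk d k) (x : Site d (k + 1)) :
    (if (SS f x)ᶜ ≠ Bst f then (1 : ℝ) else 0) ≤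
      ∑ c, |zz f x c - (if lab1 f t c then 1 else 0)| + ∑ c, dif f t₁ t c := by
  have hn1 : ∀ c ∈ (univ : Finset (Fin q)), 0 ≤ |zz f x c - (if lab1 f t c then (1 : ℝ) else 0)| :=
    fun c _ => abs_nonneg _
  have hn2 : ∀ c ∈ (univ : Finset (Fin q)), 0 ≤ dif f t₁ t c := fun c _ => dif_nonneg f t₁ t c
  have hs1 := sum_nonneg hn1
  have hs2 := sum_nonneg hn2
  split_ifs with hne
  · obtain ⟨c, hc⟩ : ∃ c, ¬ (c ∈ (SS f x)ᶜ ↔ c ∈ Bst f) := by
      by_contra hcon
      push Not at hcon
      exact hne (Finset.ext hcon)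
    rw [mem_compl, h c] at hc
    by_cases hd : (lab1 f t c ↔ lab1 f t₁ c)
    · have h1 : |zz f x c - (if lab1 f t c then (1 : ℝ) else 0)| = 1 := by
        unfold zz
        by_cases hS : c ∈ SS f x
        · rw [if_pos hS]
          have : lab1 f t c := by
            by_contra hl
            exact hc ⟨fun h' => absurd hS h', fun h' => absurd (hd.2 h') hl⟩
          rw [if_pos this]
          norm_num
        · rw [if_neg hS]
          have : ¬ lab1 f t c := by
            intro hl
            exact hc ⟨fun _ => hd.1 hl, fun _ => hS⟩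
          rw [if_neg this]
          norm_num
      have h2 := single_le_sum hn1 (mem_univ c)
      rw [h1] at h2
      linarith
    · have h1 : dif f t₁ t c = 1 := by
        unfold dif
        rw [if_neg hd]
      have h2 := single_le_sum hn2 (mem_univ c)
      rw [h1] at h2
      linarith
  · linarith

open scoped Classical in
/-- the number of odd sites whose set of available colours is not `Bst f` -/
theorem maj_count (hd : 1 ≤ d) (f : Site d (k + 1) → Fin q) (t₁ : Blk d k) :
    2 / 2 ^ d * (∑ v ∈ ods d (k + 1), (if (SS f v)ᶜ ≠ Bst f then (1 : ℝ) else 0)) ≤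
      2 * (∑ c, ∑ t : Blk d k, dev f t c + ∑ c, ∑ t : Blk d k, dif f t₁ t c) := by
  have hn1 : 0 ≤ ∑ c, ∑ t : Blk d k, dev f t c :=
    sum_nonneg fun c _ => sum_nonneg fun t _ => dev_nonneg f t c
  have hn2 : 0 ≤ ∑ c, ∑ t : Blk d k, dif f t₁ t c :=
    sum_nonneg fun c _ => sum_nonneg fun t _ => dif_nonneg f t₁ t c
  rw [← sum_EB (k := k) hd (fun v => if (SS f v)ᶜ ≠ Bst f then (1 : ℝ) else 0)]
  by_cases h : ∑ c, ∑ t : Blk d k, dev f t c + ∑ c, ∑ t : Blk d k, dif f t₁ t c <
      (Fintype.card (Blk d k) : ℝ) / 2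
  · have hB := Maj_eq hd f t₁ h
    have h1 : ∀ t : Blk d k, EB (fun a b => if (SS f (pt t a b))ᶜ ≠ Bst f then (1 : ℝ) else 0) ≤
        ∑ c, dev f t c + ∑ c, dif f t₁ t c := by
      intro t
      have h2 : EB (fun a b => ∑ c, |zz f (pt t a b) c - (if lab1 f t c then (1 : ℝ) else 0)| +
          (∑ c, dif f t₁ t c) * 1) = ∑ c, dev f t c + ∑ c, dif f t₁ t c := by
        rw [EB_add, EB_mul, card_od hd, mul_one, EB_sum]
        rfl
      rw [← h2]
      refine EB_mono fun a b _ => ?_
      rw [mul_one]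
      exact Maj_pt f t₁ hB t (pt t a b)
    have h3 := sum_le_sum fun t (_ : t ∈ (univ : Finset (Blk d k))) => h1 t
    rw [sum_add_distrib, sum_comm, sum_comm (f := fun t c => dif f t₁ t c)] at h3
    linarith
  · have h' := not_lt.1 h
    have h1 : ∀ t : Blk d k, EB (fun a b => if (SS f (pt t a b))ᶜ ≠ Bst f then (1 : ℝ) else 0) ≤ 1 := by
      intro t
      refine le_trans (EB_mono (G := fun _ _ => (1 : ℝ)) fun a b _ => ?_) (card_od hd).le
      split_ifs <;> norm_num
    have h3 := sum_le_sum fun t (_ : t ∈ (univ : Finset (Blk d k))) => h1 t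
    rw [sum_const, card_univ, nsmul_eq_mul, mul_one] at h3
    linarith

end Pool.Agent.LO

end

/-! ### from `Lib_MP_2c424f_lc6.Defs` -/

section

/-!
# MP_2c424f_pr, corners in the linear regime, part VI.B: definitions

Domains in layers: a layer is a pair of colourings of the cross section.
-/

set_option autoImplicit false

open Finset Matrix

namespace Pool.Agent.LC

open Pool.Agent.LO Pool.Agent.LIN Pool.Agent.THR Pool.Agent.COR

/-! ## Layers over a cross section `Y` -/

section layer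
variable {Y : Type} {q : ℕ}

/-- valid layer: both colourings are proper and they agree on the glue set -/
def vld (H : SimpleGraph Y) (g : Y → Prop) (σ : Y → Fin q × Fin q) : Prop :=
  (∀ y y', H.Adj y y' → (σ y).1 ≠ (σ y').1) ∧ (∀ y y', H.Adj y y' → (σ y).2 ≠ (σ y').2) ∧ ∀ y, g y → (σ y).1 = (σ y).2

/-- layers which may be neighbours -/
def dif (σ σ' : Y → Fin q × Fin q) : Prop := ∀ y, (σ y).1 ≠ (σ' y).1 ∧ (σ y).2 ≠ (σ' y).2

/-- symmetric layer -/
def smy (σ : Y → Fin q × Fin q) : Prop := ∀ y, (σ y).1 = (σ y).2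

open scoped Classical in
/-- transfer matrix -/
noncomputable def TY (q : ℕ) (H : SimpleGraph Y) (g : Y → Prop) : Matrix (Y → Fin q × Fin q) (Y → Fin q × Fin q) ℝ :=
  Matrix.of fun σ σ' => if vld H g σ ∧ vld H g σ' ∧ dif σ σ' then 1 else 0

open scoped Classical in
/-- indicator of the symmetric layers -/
noncomputable def vY (q : ℕ) (Y : Type) : (Y → Fin q × Fin q) → ℝ := fun σ => if smy σ then 1 else 0

/-- glue set of the product with a path -/
def glp (g : Y → Prop) (m : ℕ) (z : Y × Fin (m + 1)) : Prop := g z.1 ∨ z.2.val = 0 ∨ z.2.val = m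

end layer

/-- successor in the path `0, …, s-1, s+2L, …, 2s+2L` and in the cycle `s, …, s+2L-1` -/
def nxt (s L a b : ℕ) : Prop :=
  (a + 1 = b ∧ b ≠ s ∧ b ≠ s + 2 * L) ∨ (a + 1 = s ∧ b = s + 2 * L) ∨ (a + 1 = s + 2 * L ∧ b = s)

/-- path `0, …, s-1, s+2L, …, 2s+2L` and cycle `s, …, s+2L-1` -/
def RX (s L : ℕ) : SimpleGraph (Fin (2 * s + 2 * L + 1)) where
  Adj a b := a ≠ b ∧ (nxt s L a.val b.val ∨ nxt s L b.val a.val)
  symm := ⟨fun _ _ h => ⟨h.1.symm, h.2.symm⟩⟩
  loopless := ⟨fun _ h => h.1 rfl⟩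

/-! ## The cross section of `W_per` in the direction `j` -/

section cross
variable {d : ℕ} (j : Fin d) (p : {i // i ≠ j} → Bool) (L : Fin d → ℕ) (s : ℕ)

/-- the vertices of the cross section -/
abbrev YV := ∀ i : {i // i ≠ j}, Fin (lm (p i) (L i) s + 1)

/-- the graph of the cross section -/
def YG : SimpleGraph (YV j p L s) :=
  prG (fun i : {i // i ≠ j} => lm (p i) (L i) s + 1) fun i => lnG (p i) (lm (p i) (L i) s + 1)

/-- the glue set of the cross section -/
def Ygl (y : YV j p L s) : Prop := ∃ i : {i // i ≠ j}, p i = false ∧ ((y i).val = 0 ∨ (y i).val = lm (p i) (L i) s)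

/-- even points of the cross section -/
def Yev (y : YV j p L s) : Prop := Even (∑ i, (y i).val)

/-- the points of the blocks in the cross section -/
def Ypt (t : Fin d → ℕ) (a b : Bt d) : YV j p L s := fun i =>
  Fin.ofNat (lm (p i) (L i) s + 1) (off (p i) s + 2 * t i + b01 (a i) + b01 (b i))

/-- one of three layers -/
def l3 {A : Type} (a b c : A) (x y : Bool) : A := if x then (if y then c else b) else (if y then b else a)

/-- the event of the blocks in the slab `ℓ` between the layers `a`, `b`, `c` -/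
def Qs {q : ℕ} (Γ : (Fin d → ℕ) → Option (Option (Fin q))) (ℓ : ℕ) (a b c : YV j p L s → Fin q × Fin q) : Prop :=
  ∀ t : Fin d → ℕ, t j = ℓ → (∀ i : {i // i ≠ j}, t i < nbk (p i) (L i)) → ∀ τ, Γ t = some τ →
    BDP τ fun α β => (l3 a b c (α j) (β j) (Ypt j p L s t α β)).1

open scoped Classical in
/-- the matrix of the slab `ℓ` -/
noncomputable def Ps {q : ℕ} (Γ : (Fin d → ℕ) → Option (Option (Fin q))) (ℓ : ℕ) :
    Matrix (YV j p L s → Fin q × Fin q) (YV j p L s → Fin q × Fin q) ℝ :=
  Matrix.of fun a c => ∑ b, TY q (YG j p L s) (Ygl j p L s) a b * TY q (YG j p L s) (Ygl j p L s) b c *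
    (if Qs j p L s Γ ℓ a b c then 1 else 0)

open scoped Classical in
/-- number of the bad blocks in the slab `ℓ` -/
noncomputable def wnS {q : ℕ} (Γ : (Fin d → ℕ) → Option (Option (Fin q))) (ℓ : ℕ) : ℕ :=
  (univ.filter fun t : ∀ i : {i // i ≠ j}, Fin (nbk (p i) (L i)) =>
    Γ (fun i => if h : i = j then ℓ else (t ⟨i, h⟩).val) ≠ none).card

end cross

/-! ## The switching layer in a product -/

section sw
variable {Y : Type} (s L h : ℕ)

/-- the two copies of the layer: `s, …, s+h-1` and `s+2L, …, s+2L+h-1` -/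
def ib (b : Bool) (z : (Y × Bool) × Fin h) : (Y × Fin (2 * s + 2 * L + 1)) × Bool :=
  ((z.1.1, Fin.ofNat (2 * s + 2 * L + 1) (s + (if b then 2 * L else 0) + z.2.val)), z.1.2)

/-- the graph of the layer -/
def LG (H : SimpleGraph Y) (g : Y → Prop) : SimpleGraph ((Y × Bool) × Fin h) :=
  SimpleGraph.comap (ib s L h false) (D2 (H.boxProd (RX s L)) (glp g (2 * s + 2 * L)))

/-- parity in the product -/
def evP (evY : Y → Prop) {m : ℕ} (z : (Y × Fin m) × Bool) : Prop := evY z.1.1 ↔ Even z.1.2.val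

end sw

/-- number of cells of side `l` in an interval of `n` points -/
def kk (l n : ℕ) : ℕ := (n - 4) / (l + 2)

/-- index set of the cells of a layer -/
abbrev CI {d : ℕ} (j : Fin d) (p : {i // i ≠ j} → Bool) (L : Fin d → ℕ) (s l h : ℕ) :=
  (Bool × ∀ i : {i // i ≠ j}, Fin (kk l (lm (p i) (L i) s + 1))) × Fin (kk l h)

/-- the cells of a layer -/
def kap {d : ℕ} (j : Fin d) (p : {i // i ≠ j} → Bool) (L : Fin d → ℕ) (s l h : ℕ) (hh : 0 < h)
    (k : CI j p L s l h) (u : BxV d l) : (YV j p L s × Bool) × Fin h :=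
  haveI : NeZero h := ⟨hh.ne'⟩
  ((fun i => Fin.ofNat _ ((l + 2) * (k.1.2 i).val + 2 + (u i).val), k.1.1), Fin.ofNat h ((l + 2) * k.2.val + 2 + (u j).val))

end Pool.Agent.LC

end

/-! ### from `Lib_MP_2c424f_lc6a.Defs2` -/

section

/-!
# MP_2c424f_pr, corners in the linear regime, part VI.A: the two sheets, the separated boxes and their layers

`TX G In Su`: two sheets over `G`; a surface point `(x, false)` sees the inside neighbours on both sheets, `(x, true)` sees the outside
neighbours on both sheets.  `TC G`: two disjoint copies.  `rmv X R`: the edges at `R` are removed.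

`Bxs`: separated boxes.  `dp k σ x`: signed depth of `x` at the face `σ` of the box `k` (`σ.2 = false`: the face `x i = a i`,
`σ.2 = true`: the face `x i = a i + m i`; positive inside).  `slb k σ`: the slab `|dp| ≤ h` over the points of the face at distance
`≥ 2 h + 2` from the other faces.  The layer `Lam` consists of the inner points `0 < dp ≤ h` of the slabs; `il false p = (p, true)`
(inside, sheet `true`), `il true p = (mirror image of p, false)` (outside, sheet `false`).
`RR`: removed sites (surface points near the codimension 2 skeleton, lateral rings of the slabs).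
-/

set_option autoImplicit false

open Finset Filter

namespace Pool.Agent.LC

open Pool.Agent.LO Pool.Agent.LIN Pool.Agent.THR Pool.Agent.COR

/-! ## Two sheets -/

section sheets
variable {V : Type}

/-- two sheets which are exchanged at the surface -/
def TX (G : SimpleGraph V) (In Su : V → Prop) : SimpleGraph (V × Bool) where
  Adj p p' := G.Adj p.1 p'.1 ∧ (((Su p.1 ↔ Su p'.1) ∧ p.2 = p'.2) ∨ (Su p.1 ∧ ¬ Su p'.1 ∧ (p.2 = false ↔ In p'.1)) ∨
    (Su p'.1 ∧ ¬ Su p.1 ∧ (p'.2 = false ↔ In p.1)))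
  symm := ⟨fun p p' h => ⟨h.1.symm, by
    rcases h.2 with h | h | h
    · exact Or.inl ⟨h.1.symm, h.2.symm⟩
    · exact Or.inr (Or.inr h)
    · exact Or.inr (Or.inl h)⟩⟩
  loopless := ⟨fun _ h => h.1.ne rfl⟩

/-- two copies -/
def TC (G : SimpleGraph V) : SimpleGraph (V × Bool) where
  Adj p p' := G.Adj p.1 p'.1 ∧ p.2 = p'.2
  symm := ⟨fun _ _ h => ⟨h.1.symm, h.2.symm⟩⟩
  loopless := ⟨fun _ h => h.1.ne rfl⟩

/-- the edges at `R` are removed -/
def rmv (X : SimpleGraph (V × Bool)) (R : V → Prop) : SimpleGraph (V × Bool) where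
  Adj p p' := X.Adj p p' ∧ ¬ R p.1 ∧ ¬ R p'.1
  symm := ⟨fun _ _ h => ⟨h.1.symm, h.2.2, h.2.1⟩⟩
  loopless := ⟨fun _ h => h.1.ne rfl⟩

/-- the points of two sheets glued along `gl`, without the isolated points -/
abbrev D2V (W : Type) (gl : W → Prop) := {p : W × Bool // ¬ (p.2 = true ∧ gl p.1)}

/-- two sheets glued along `gl`, without the isolated points -/
def D2s {W : Type} (B : SimpleGraph W) (gl : W → Prop) : SimpleGraph (D2V W gl) :=
  SimpleGraph.comap Subtype.val (D2 B gl)

end sheets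

/-! ## Separated boxes -/

/-- separated boxes in `{0..N}^d` -/
structure Bxs (d N h : ℕ) (ι : Type) where
  I : Finset ι
  a : ι → Fin d → ℕ
  m : ι → Fin d → ℕ
  ea : ∀ k ∈ I, ∀ i, Even (a k i)
  em : ∀ k ∈ I, ∀ i, Even (m k i)
  lo : ∀ k ∈ I, ∀ i, 2 * h + 2 ≤ a k i
  hi : ∀ k ∈ I, ∀ i, a k i + m k i + 2 * h + 2 ≤ N
  sep : ∀ k ∈ I, ∀ k' ∈ I, k ≠ k' → ∃ i, a k i + m k i + 2 * h + 4 ≤ a k' i ∨ a k' i + m k' i + 2 * h + 4 ≤ a k i
  big : ∀ k ∈ I, ∀ i, 8 * h + 8 ≤ m k i

namespace Bxs

variable {d N h : ℕ} {ι : Type} (D : Bxs d N h ι)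

/-- in the closed box `k` -/
def inD (k : ι) (x : BxV d N) : Prop := ∀ i, D.a k i ≤ (x i).val ∧ (x i).val ≤ D.a k i + D.m k i

/-- on the surface of the box `k` -/
def suD (k : ι) (x : BxV d N) : Prop := D.inD k x ∧ ∃ i, (x i).val = D.a k i ∨ (x i).val = D.a k i + D.m k i

/-- in a closed box -/
def In (x : BxV d N) : Prop := ∃ k ∈ D.I, D.inD k x

/-- on a surface -/
def Su (x : BxV d N) : Prop := ∃ k ∈ D.I, D.suD k x

/-- the coordinate `i` is far from both faces -/
def okc (k : ι) (i : Fin d) (x : BxV d N) : Prop :=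
  D.a k i + 2 * h + 2 ≤ (x i).val ∧ (x i).val + 2 * h + 2 ≤ D.a k i + D.m k i

/-- signed depth at the face `σ` -/
def dp (k : ι) (σ : Stp d) (x : BxV d N) : ℤ :=
  if σ.2 then ((D.a k σ.1 + D.m k σ.1 : ℕ) : ℤ) - ((x σ.1).val : ℤ) else ((x σ.1).val : ℤ) - (D.a k σ.1 : ℤ)

/-- the slab at the face `σ` -/
def slb (k : ι) (σ : Stp d) (x : BxV d N) : Prop :=
  (∀ i, i ≠ σ.1 → D.okc k i x) ∧ -(h : ℤ) ≤ D.dp k σ x ∧ D.dp k σ x ≤ h

/-- removed sites -/
def RR (x : BxV d N) : Prop := ∃ k ∈ D.I, ∃ i i', i ≠ i' ∧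
  (∀ j, j ≠ i → j ≠ i' → D.a k j ≤ (x j).val ∧ (x j).val ≤ D.a k j + D.m k j) ∧
  ((((x i).val = D.a k i ∨ (x i).val = D.a k i + D.m k i) ∧ (D.a k i' ≤ (x i').val ∧ (x i').val ≤ D.a k i' + D.m k i') ∧
      ((x i').val ≤ D.a k i' + 2 * h + 1 ∨ D.a k i' + D.m k i' ≤ (x i').val + 2 * h + 1)) ∨
    (((D.a k i ≤ (x i).val + h ∧ (x i).val ≤ D.a k i + h) ∨
        (D.a k i + D.m k i ≤ (x i).val + h ∧ (x i).val ≤ D.a k i + D.m k i + h)) ∧
      ((x i').val = D.a k i' + 2 * h + 1 ∨ (x i').val + 2 * h + 1 = D.a k i' + D.m k i')))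

/-- the points of the layer -/
abbrev Lam := {p : ({k // k ∈ D.I} × Stp d) × BxV d N // D.slb p.1.1.1 p.1.2 p.2 ∧ 0 < D.dp p.1.1.1 p.1.2 p.2}

/-- mirror image at the face `σ` -/
def mir (k : ι) (σ : Stp d) (x : BxV d N) : BxV d N := fun j =>
  if j = σ.1 then Fin.ofNat (N + 1) (if σ.2 then 2 * (D.a k j + D.m k j) - (x j).val else 2 * D.a k j - (x j).val)
  else x j

/-- the level of a point of the layer -/
def lv (p : D.Lam) : ℕ := (D.dp p.1.1.1.1 p.1.1.2 p.1.2 - 1).toNat

/-- the two copies of the layer -/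
def il (b : Bool) (p : D.Lam) : BxV d N × Bool :=
  if b then (D.mir p.1.1.1.1 p.1.1.2 p.1.2, false) else (p.1.2, true)

/-- the graph of the layer -/
def GrL : SimpleGraph D.Lam where
  Adj p p' := p.1.1 = p'.1.1 ∧ (bG d N).Adj p.1.2 p'.1.2
  symm := ⟨fun _ _ h => ⟨h.1.symm, h.2.symm⟩⟩
  loopless := ⟨fun _ h => h.2.ne rfl⟩

/-- the two sheets, removed sites isolated -/
def XX : SimpleGraph (BxV d N × Bool) := rmv (TX (bG d N) D.In D.Su) D.RR

/-- two copies, removed sites isolated -/
def XC : SimpleGraph (BxV d N × Bool) := rmv (TC (bG d N)) D.RR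

/-- number of surface points, without the parts which are counted twice -/
noncomputable def YY : ℝ := ∑ k ∈ D.I, 2 * ∑ i, ∏ i' ∈ univ.erase i, ((D.m k i' : ℝ) + 1)

/-! ## Cells -/

/-- number of the cells in the direction `j` -/
def ncl (l : ℕ) (k : ι) (σ : Stp d) (j : Fin d) : ℕ := if j = σ.1 then kk l h else kk l (D.m k j - 4 * h - 3)

/-- index set of the cells -/
abbrev Cix (l : ℕ) := Σ z : {k // k ∈ D.I} × Stp d, ∀ j : Fin d, Fin (D.ncl l z.1.1 z.2 j)

/-- the positions of the points of the cells -/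
def cps (l : ℕ) (z : D.Cix l) (u : BxV d l) : BxV d N := fun j =>
  Fin.ofNat (N + 1) (if j = z.1.2.1 then
      (if z.1.2.2 then D.a z.1.1.1 j + D.m z.1.1.1 j - (2 + (l + 2) * (z.2 j).val + (u j).val)
        else D.a z.1.1.1 j + (2 + (l + 2) * (z.2 j).val + (u j).val))
    else D.a z.1.1.1 j + 2 * h + 2 + (l + 2) * (z.2 j).val + (u j).val)

theorem kk_lt {l n t : ℕ} (ht : t < kk l n) : (l + 2) * t + l + 6 ≤ n := by
  unfold kk at ht
  have h1 : (t + 1) * (l + 2) ≤ n - 4 := by
    calc (t + 1) * (l + 2) ≤ (n - 4) / (l + 2) * (l + 2) := Nat.mul_le_mul_right _ ht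
      _ ≤ n - 4 := Nat.div_mul_le_self _ _
  have h2 : (t + 1) * (l + 2) = (l + 2) * t + l + 2 := by ring
  omega

theorem ncl_self {l t : ℕ} {k : ι} {σ : Stp d} {j : Fin d} (ht : t < D.ncl l k σ j) (hj : j = σ.1) :
    (l + 2) * t + l + 6 ≤ h := by
  unfold ncl at ht
  rw [if_pos hj] at ht
  exact kk_lt ht

theorem ncl_ne {l t : ℕ} {k : ι} {σ : Stp d} {j : Fin d} (ht : t < D.ncl l k σ j) (hj : j ≠ σ.1) :
    (l + 2) * t + l + 6 ≤ D.m k j - 4 * h - 3 := by
  unfold ncl at ht
  rw [if_neg hj] at ht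
  exact kk_lt ht

theorem cps_val (l : ℕ) (z : D.Cix l) (u : BxV d l) (j : Fin d) : ((D.cps l z u) j).val =
    (if j = z.1.2.1 then
      (if z.1.2.2 then D.a z.1.1.1 j + D.m z.1.1.1 j - (2 + (l + 2) * (z.2 j).val + (u j).val)
        else D.a z.1.1.1 j + (2 + (l + 2) * (z.2 j).val + (u j).val))
    else D.a z.1.1.1 j + 2 * h + 2 + (l + 2) * (z.2 j).val + (u j).val) := by
  have hN := D.hi z.1.1.1 z.1.1.2 j
  have hm := D.big z.1.1.1 z.1.1.2 j
  have hu := (u j).isLt
  have ht := (z.2 j).isLt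
  unfold cps
  rw [Fin.val_ofNat]
  refine Nat.mod_eq_of_lt ?_
  by_cases hj : j = z.1.2.1
  · rw [if_pos hj]
    have h1 := D.ncl_self ht hj
    split_ifs <;> omega
  · rw [if_neg hj]
    have h1 := D.ncl_ne ht hj
    omega

theorem cps_ok (l : ℕ) (z : D.Cix l) (u : BxV d l) :
    D.slb z.1.1.1 z.1.2 (D.cps l z u) ∧ 0 < D.dp z.1.1.1 z.1.2 (D.cps l z u) := by
  have hdp : 0 < D.dp z.1.1.1 z.1.2 (D.cps l z u) ∧ D.dp z.1.1.1 z.1.2 (D.cps l z u) ≤ h := by
    have hN := D.hi z.1.1.1 z.1.1.2 z.1.2.1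
    have hm := D.big z.1.1.1 z.1.1.2 z.1.2.1
    have hu := (u z.1.2.1).isLt
    have ht := (z.2 z.1.2.1).isLt
    have h1 := D.ncl_self ht rfl
    unfold dp
    rw [cps_val, if_pos rfl]
    split_ifs <;> omega
  refine ⟨⟨?_, by omega, hdp.2⟩, hdp.1⟩
  intro i hi
  have hN := D.hi z.1.1.1 z.1.1.2 i
  have hm := D.big z.1.1.1 z.1.1.2 i
  have hu := (u i).isLt
  have ht := (z.2 i).isLt
  have h1 := D.ncl_ne ht hi
  unfold okc
  rw [cps_val, if_neg hi]
  constructor <;> omega

/-- the cells -/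
def kap (l : ℕ) (z : D.Cix l) (u : BxV d l) : D.Lam := ⟨(z.1, D.cps l z u), D.cps_ok l z u⟩

end Bxs

end Pool.Agent.LC

end

/-! ### from `Lib_MP_2c424f_lc5.Defs5` -/

section

/-!
# MP_2c424f_pr, linear corners, Part V (switching): definitions

`G` a finite graph (the layer), two configurations `Φ Ψ : Λ → Fin q` on it.
-/

set_option autoImplicit false

open Finset Filter

namespace Pool.Agent.LC

open Pool.Agent.LO Pool.Agent.LIN Pool.Agent.THR Pool.Agent.COR

section
variable {Λ : Type} {q : ℕ}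

/-- conflict edges -/
def cf (G : SimpleGraph Λ) (Φ Ψ : Λ → Fin q) (p p' : Λ) : Prop :=
  G.Adj p p' ∧ (Φ p = Ψ p' ∨ Ψ p = Φ p')

/-- no conflict path outside `Del` from the level `h - 1` to the level `0` -/
def sp (G : SimpleGraph Λ) (lv : Λ → ℕ) (h : ℕ) (Φ Ψ : Λ → Fin q) (Del : Finset Λ) : Prop :=
  ∀ p p', lv p + 1 = h → p ∉ Del → Relation.ReflTransGen (fun a b => cf G Φ Ψ a b ∧ b ∉ Del) p p' → lv p' ≠ 0

/-- the graph without the edges at `D` -/
def dlG {V : Type} (X : SimpleGraph V) (D : Finset V) : SimpleGraph V where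
  Adj v w := X.Adj v w ∧ v ∉ D ∧ w ∉ D
  symm := ⟨fun _ _ h => ⟨h.1.symm, h.2.2, h.2.1⟩⟩
  loopless := ⟨fun v h => X.loopless.irrefl v h.1⟩

open scoped Classical in
/-- `x` is joined to `y` by a conflict through a colour outside `J`, if `x` has the colours `(u, v)` -/
def cj (J : Finset (Fin q)) (Φ Ψ : Λ → Fin q) (y : Λ) (u v : Fin q) : Prop :=
  (u = Ψ y ∧ u ∉ J) ∨ (v = Φ y ∧ v ∉ J)

open scoped Classical in
/-- probability that `x` is joined to `y` and `y'`: the colours of `x` are uniform in `R_x(Φ) × R_x(Ψ)` -/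
noncomputable def pc [Fintype Λ] (G : SimpleGraph Λ) (J : Finset (Fin q)) (Φ Ψ : Λ → Fin q) (x y y' : Λ) : ℝ :=
  (((Rv G Φ x ×ˢ Rv G Ψ x).filter fun w => cj J Φ Ψ y w.1 w.2 ∧ cj J Φ Ψ y' w.1 w.2).card : ℝ) /
    (((Rv G Φ x).card : ℝ) * ((Rv G Ψ x).card : ℝ))

open scoped Classical in
/-- the kernel of the two-step conflict walk on the odd points -/
noncomputable def Mk [Fintype Λ] (G : SimpleGraph Λ) (J : Finset (Fin q)) (Φ Ψ : Λ → Fin q) (y y' : Λ) : ℝ :=
  ∑ x : Λ, if G.Adj y x ∧ G.Adj x y' ∧ y ≠ y' then pc G J Φ Ψ x y y' else 0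

/-- the odd point `y` is certified -/
def cert [Fintype Λ] (d : ℕ) (G : SimpleGraph Λ) (ev : Λ → Prop) (A B : Finset (Fin q)) (Φ Ψ : Λ → Fin q) (y : Λ) :
    Prop :=
  (TyO d G ev A Φ y ∧ TyO d G ev B Ψ y ∧ (nb G y).card ≤ 2 * d) ∧
    ∀ x ∈ nb G y, TyE d G ev A Φ x ∧ TyE d G ev B Ψ x ∧ (nb G x).card ≤ 2 * d

open scoped Classical in
/-- the odd points which are not certified -/
noncomputable def At [Fintype Λ] (d : ℕ) (G : SimpleGraph Λ) (ev : Λ → Prop) (A : Finset (Fin q)) (Φ Ψ : Λ → Fin q) :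
    Finset Λ :=
  univ.filter fun y => ¬ ev y ∧ ¬ cert d G ev A A Φ Ψ y

/-- `ρ = 200 a² e^{-a/2}` -/
noncomputable def rh (d q : ℕ) : ℝ := 200 * ra d q ^ 2 * Real.exp (-ra d q / 2)

open scoped Classical in
/-- the window of the levels `b₀, …, b₁` -/
noncomputable def wn [Fintype Λ] (lv : Λ → ℕ) (b₀ b₁ : ℕ) : Finset Λ := univ.filter fun p => b₀ ≤ lv p ∧ lv p ≤ b₁

/-- a self-avoiding conflict path of `n` steps in `W` which starts at `p` and has fewer than `m` points in `A` -/
def CP [DecidableEq Λ] (G : SimpleGraph Λ) (Φ Ψ : Λ → Fin q) (W A : Finset Λ) (n m : ℕ) (p : Λ) : Prop :=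
  ∃ s : ℕ → Λ, s 0 = p ∧ (∀ k ≤ n, s k ∈ W) ∧ (∀ k < n, cf G Φ Ψ (s k) (s (k + 1))) ∧
    (∀ k ≤ n, ∀ l ≤ n, s k = s l → k = l) ∧ (((range (n + 1)).image s) ∩ A).card < m

open scoped Classical in
/-- odd points of `W` which start a two-step conflict walk of length `n` in `W` with distinct even points and fewer
than `m` (indices of) points in `A` -/
noncomputable def PT [Fintype Λ] (G : SimpleGraph Λ) (ev : Λ → Prop) (Φ Ψ : Λ → Fin q) (W A : Finset Λ) (n m : ℕ) :
    Finset Λ :=
  W.filter fun y₀ => ¬ ev y₀ ∧ ∃ (y : Fin (n + 1) → Λ) (x : Fin n → Λ), y 0 = y₀ ∧ Function.Injective x ∧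
    (∀ k, y k ∈ W) ∧ (∀ k, x k ∈ W) ∧
    (∀ k : Fin n, cf G Φ Ψ (y k.castSucc) (x k) ∧ cf G Φ Ψ (x k) (y k.succ) ∧ y k.castSucc ≠ y k.succ) ∧
    (univ.filter fun k : Fin n => y k.castSucc ∈ A).card < m

end

/-- the configurations on the layer -/
def fb {V Λ : Type} {q : ℕ} (i : Bool → Λ → V) (F : V → Fin q) (b : Bool) : Λ → Fin q := fun p => F (i b p)

end Pool.Agent.LC

end

/-! ### from `Lib_MP_2c424f_cor.C01` -/

section

/-!
# Random flips of Kempe clusters (piece C01)

`rpc x` = chosen representative of the cluster of `x`.  `rpc_eq_iff`: `kcl` is an equivalence relation, so for `kcl x y` the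
predicates `kcl x ·`, `kcl y ·` are equal and `epsilon` gives the same point.  `rpc_fw`: `kcl_kfl`.  `fw_fw`: the same set of sites
is flipped twice (`rpc_fw`, `kfl_kfl`).  `cG_fw`: for fixed `ω` the map `fw ω` is an involution of the proper colourings.
-/

set_option autoImplicit false

open Finset

namespace Pool.Agent.COR

variable {W : Type} [Fintype W] [DecidableEq W] {q : ℕ}

/-- representative of the cluster of `x` -/
noncomputable def rpc (G : SimpleGraph W) (f : W → Fin q) (i j : Fin q) (x : W) : W :=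
  @Classical.epsilon W ⟨x⟩ (fun y => kcl G f i j x y)

open scoped Classical in
/-- flip the clusters whose representative has the bit `true` -/
noncomputable def fw (G : SimpleGraph W) (i j : Fin q) (ω : W → Bool) (f : W → Fin q) : W → Fin q :=
  kfl i j (univ.filter fun x => ω (rpc G f i j x) = true) f

theorem rpc_spec (G : SimpleGraph W) (f : W → Fin q) (i j : Fin q) (x : W) : kcl G f i j x (rpc G f i j x) := by
  exact Classical.epsilon_spec (p := fun y => kcl G f i j x y) ⟨x, Relation.ReflTransGen.refl⟩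

theorem rpc_eq_iff (G : SimpleGraph W) (f : W → Fin q) (i j : Fin q) (x y : W) :
    rpc G f i j x = rpc G f i j y ↔ kcl G f i j x y := by
  constructor
  · intro h
    have h1 := rpc_spec G f i j x
    rw [h] at h1
    exact kcl_trans h1 (kcl_symm (rpc_spec G f i j y))
  · intro h
    have h1 : (fun z => kcl G f i j x z) = (fun z => kcl G f i j y z) := by
      funext z
      exact propext ⟨fun h' => kcl_trans (kcl_symm h) h', fun h' => kcl_trans h h'⟩
    unfold rpc
    rw [h1]

theorem rpc_kfl (G : SimpleGraph W) (i j : Fin q) (S : Finset W) (f : W → Fin q) (x : W) :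
    rpc G (kfl i j S f) i j x = rpc G f i j x := by
  have h1 : (fun z => kcl G (kfl i j S f) i j x z) = (fun z => kcl G f i j x z) := by
    funext z
    exact propext (kcl_kfl G i j S f x z)
  unfold rpc
  rw [h1]

theorem rpc_fw (G : SimpleGraph W) (i j : Fin q) (ω : W → Bool) (f : W → Fin q) (x : W) :
    rpc G (fw G i j ω f) i j x = rpc G f i j x := by
  exact rpc_kfl G i j _ f x

theorem fw_fw (G : SimpleGraph W) (i j : Fin q) (ω : W → Bool) (f : W → Fin q) :
    fw G i j ω (fw G i j ω f) = f := by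
  conv_lhs => unfold fw
  simp only [rpc_kfl]
  exact kfl_kfl i j _ f

theorem PrG_fw {G : SimpleGraph W} {f : W → Fin q} (hf : PrG G f) (i j : Fin q) (ω : W → Bool) :
    PrG G (fw G i j ω f) := by
  classical
  unfold fw
  refine PrG_kfl hf i j ?_
  have h1 := kun_of (G := G) (f := f) (i := i) (j := j) (fun x => ω (rpc G f i j x) = true)
    (fun x y hxy hx => by rw [← (rpc_eq_iff G f i j x y).2 hxy]; exact hx)
  convert h1

theorem cG_fw (G : SimpleGraph W) (i j : Fin q) (ω : W → Bool) (P : (W → Fin q) → Prop) :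
    cG G (fun f => P (fw G i j ω f)) = cG G P := by
  classical
  unfold cG
  congr 1
  refine Finset.card_nbij' (fw G i j ω) (fw G i j ω) ?_ ?_ ?_ ?_
  · intro f hf
    have hf' := (Finset.mem_filter.1 hf).2
    exact Finset.mem_filter.2 ⟨Finset.mem_univ _, PrG_fw hf'.1 i j ω, hf'.2⟩
  · intro f hf
    have hf' := (Finset.mem_filter.1 hf).2
    refine Finset.mem_filter.2 ⟨Finset.mem_univ _, PrG_fw hf'.1 i j ω, ?_⟩
    show P (fw G i j ω (fw G i j ω f))
    rw [fw_fw]
    exact hf'.2
  · intro f _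
    exact fw_fw G i j ω f
  · intro f _
    exact fw_fw G i j ω f

theorem fw_other (G : SimpleGraph W) (i j : Fin q) (ω : W → Bool) (f : W → Fin q) (x : W) (c : Fin q)
    (hi : c ≠ i) (hj : c ≠ j) : fw G i j ω f x = c ↔ f x = c := by
  exact kfl_other i j _ f x c hi hj

theorem fw_true (G : SimpleGraph W) (i j : Fin q) (ω : W → Bool) (f : W → Fin q) (x : W)
    (h : ω (rpc G f i j x) = true) : (f x = j → fw G i j ω f x = i) ∧ (f x = i → fw G i j ω f x = j) := by
  have h1 : fw G i j ω f x = Equiv.swap i j (f x) := by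
    unfold fw kfl
    have h2 : x ∈ univ.filter fun x => ω (rpc G f i j x) = true :=
      Finset.mem_filter.2 ⟨Finset.mem_univ _, h⟩
    exact if_pos h2
  rw [h1]
  constructor
  · intro h2
    rw [h2, Equiv.swap_apply_right]
  · intro h2
    rw [h2, Equiv.swap_apply_left]

theorem fw_false (G : SimpleGraph W) (i j : Fin q) (ω : W → Bool) (f : W → Fin q) (x : W)
    (h : ω (rpc G f i j x) = false) : fw G i j ω f x = f x := by
  unfold fw kfl
  refine if_neg fun hx => ?_
  have h2 := (Finset.mem_filter.1 hx).2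
  rw [h] at h2
  exact absurd h2 (by decide)

end Pool.Agent.COR

end

/-! ### from `Lib_MP_2c424f_lc4.Defs4` -/

section

/-!
# MP_2c424f_pr, linear corners, Part IV (Kempe alignment on a graph): definitions

`V` the vertices of a finite bipartite graph `X` (parity `ev`), `Bl` the blocks, `β t a b` the points of the block `t`,
odd points: `od a b`.
-/

set_option autoImplicit false

open Finset Filter

namespace Pool.Agent.LC

open Pool.Agent.LO Pool.Agent.LIN Pool.Agent.THR Pool.Agent.COR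

/-- pattern of `F` on a block with the points `b` -/
def pt4 {V : Type} {d q : ℕ} (b : Bt d → Bt d → V) (F : V → Fin q) : Pat d q := fun x y => F (b x y)

open scoped Classical in
/-- the odd points of the block with colour `i` (as pairs of bit vectors) -/
noncomputable def oI {V : Type} {d q : ℕ} (b : Bt d → Bt d → V) (F : V → Fin q) (i : Fin q) : Finset (Bt d × Bt d) :=
  univ.filter fun p => od p.1 p.2 ∧ F (b p.1 p.2) = i

section
variable {V : Type} [Fintype V] [DecidableEq V] {d q : ℕ}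

open scoped Classical in
/-- one `ij`-cluster (represented by `c`) contains almost all odd points of colour `i` of the block -/
def FIN4 (X : SimpleGraph V) (b : Bt d → Bt d → V) (F : V → Fin q) (i j : Fin q) : Prop :=
  ∃ c : V, (((oI b F i).filter fun p => rpc X F i j (b p.1 p.2) ≠ c).card : ℝ) ≤ 1 / 50 * ((oI b F i).card : ℝ)

/-- the cluster of `x` has the wrong parity -/
def wr4 (ev : V → Prop) (i j : Fin q) (F : V → Fin q) (x : V) : Prop := (F x = j ∧ ev x) ∨ (F x = i ∧ ¬ ev x)

open scoped Classical in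
/-- number of points in `U` of the cluster of `x` -/
noncomputable def cs4 (X : SimpleGraph V) (U : Finset V) (i j : Fin q) (F : V → Fin q) (x : V) : ℕ :=
  (U.filter fun y => kcl X F i j x y).card

open scoped Classical in
/-- the union of the wrong clusters with at least `m` points in `U` -/
noncomputable def wb4 (X : SimpleGraph V) (ev : V → Prop) (U : Finset V) (m : ℝ) (i j : Fin q) (F : V → Fin q) :
    Finset V :=
  univ.filter fun x => wr4 ev i j F x ∧ m ≤ (cs4 X U i j F x : ℝ)

/-- flip them -/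
noncomputable def Ph4 (X : SimpleGraph V) (ev : V → Prop) (U : Finset V) (m : ℝ) (i j : Fin q) (F : V → Fin q) :
    V → Fin q := kfl i j (wb4 X ev U m i j F) F

/-- the sweep -/
noncomputable def sw4 (X : SimpleGraph V) (ev : V → Prop) (U : Finset V) (m : ℝ) (pr : ℕ → Fin q × Fin q) :
    ℕ → (V → Fin q) → (V → Fin q)
  | 0, F => F
  | n + 1, F => Ph4 X ev U m (pr n).1 (pr n).2 (sw4 X ev U m pr n F)

end

end Pool.Agent.LC

end

/-! ### from `Lib_MP_2c424f_lo.Sym` -/

section

/-!
# Translations and permutations of the colours (piece SYM)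
-/

set_option autoImplicit false

open Finset

namespace Pool.Agent.LO

variable {d k q : ℕ}

private theorem Sym_two_mul (x y : ZMod (2 ^ k)) :
    ((2 * x.val : ℕ) : ZMod (2 ^ (k + 1))) + ((2 * y.val : ℕ) : ZMod (2 ^ (k + 1))) =
      ((2 * (x + y).val : ℕ) : ZMod (2 ^ (k + 1))) := by
  rw [← Nat.cast_add, ZMod.natCast_eq_natCast_iff]
  have h1 : (x + y).val = (x.val + y.val) % 2 ^ k := ZMod.val_add x y
  rw [h1]
  have h2 : 2 * ((x.val + y.val) % 2 ^ k) ≡ 2 * (x.val + y.val) [MOD 2 * 2 ^ k] :=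
    (Nat.mod_modEq _ _).mul_left' 2
  have h3 : 2 * 2 ^ k = 2 ^ (k + 1) := by rw [pow_succ, mul_comm]
  rw [h3] at h2
  rw [← mul_add]
  exact h2.symm

private theorem Sym_bas_add (t τ : Blk d k) : bas t + bas τ = bas (t + τ) := by
  funext i
  simp only [bas, Pi.add_apply]
  exact Sym_two_mul (t i) (τ i)

theorem pt_add (t τ : Blk d k) (a b : Bt d) : pt t a b + bas τ = pt (t + τ) a b := by
  unfold pt
  rw [← Sym_bas_add]
  abel

private theorem Sym_prp_transl {τ : Site d k} {f : Site d k → Fin q} (hf : Prp f) :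
    Prp (fun x => f (x + τ)) := by
  intro x σ
  have h := hf (x + τ) σ
  have e : x + sv σ + τ = x + τ + sv σ := by abel
  show f (x + sv σ + τ) ≠ f (x + τ)
  rw [e]
  exact h

theorem sum_transl (τ : Site d k) (F : (Site d k → Fin q) → ℝ) :
    ∑ f ∈ prps d k q, F (fun x => f (x + τ)) = ∑ f ∈ prps d k q, F f := by
  classical
  refine Finset.sum_bij' (fun f _ => fun x => f (x + τ)) (fun f _ => fun x => f (x + -τ)) ?_ ?_ ?_ ?_ ?_
  · intro f hf
    simp only [prps, mem_filter, mem_univ, true_and] at hf ⊢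
    exact Sym_prp_transl hf
  · intro f hf
    simp only [prps, mem_filter, mem_univ, true_and] at hf ⊢
    exact Sym_prp_transl hf
  · intro f _
    funext x
    simp
  · intro f _
    funext x
    simp
  · intro f _
    rfl

theorem sum_perm (π : Equiv.Perm (Fin q)) (F : (Site d k → Fin q) → ℝ) :
    ∑ f ∈ prps d k q, F (fun x => π (f x)) = ∑ f ∈ prps d k q, F f := by
  classical
  refine Finset.sum_bij' (fun f _ => fun x => π (f x)) (fun f _ => fun x => π.symm (f x)) ?_ ?_ ?_ ?_ ?_
  · intro f hf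
    simp only [prps, mem_filter, mem_univ, true_and] at hf ⊢
    intro x σ h
    exact hf x σ (π.injective h)
  · intro f hf
    simp only [prps, mem_filter, mem_univ, true_and] at hf ⊢
    intro x σ h
    exact hf x σ (π.symm.injective h)
  · intro f _
    funext x
    simp
  · intro f _
    funext x
    simp
  · intro f _
    rfl

private theorem Sym_ite {P Q : Prop} (hP : Decidable P) (hQ : Decidable Q) (h : P ↔ Q) :
    (@ite ℝ P hP 1 0) = (@ite ℝ Q hQ 1 0) := by
  by_cases hp : P
  · rw [if_pos hp, if_pos (h.1 hp)]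
  · rw [if_neg hp, if_neg (fun hq => hp (h.2 hq))]

private theorem Sym_mb_transl (f : Site d (k + 1) → Fin q) (t τ : Blk d k) (c : Fin q) :
    mb (fun x => f (x + bas τ)) t c = mb f (t + τ) c := by
  unfold mb
  congr 1
  funext a b
  unfold zb
  have e : ∀ σ : Stp d, pt t a b + sv σ + bas τ = pt (t + τ) a b + sv σ := by
    intro σ
    rw [← pt_add]
    abel
  refine Sym_ite _ _ ?_
  simp only [e]

private theorem Sym_Mb_transl (f : Site d (k + 1) → Fin q) (t τ : Blk d k) (c : Fin q) :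
    Mb (fun x => f (x + bas τ)) t c = Mb f (t + τ) c := by
  unfold Mb
  congr 1
  funext a b
  simp only [pt_add]

private theorem Sym_mb_perm (f : Site d (k + 1) → Fin q) (t : Blk d k) (c : Fin q)
    (π : Equiv.Perm (Fin q)) : mb (fun x => π (f x)) t (π c) = mb f t c := by
  unfold mb
  congr 1
  funext a b
  unfold zb
  refine Sym_ite _ _ ?_
  simp only [ne_eq, EmbeddingLike.apply_eq_iff_eq]

private theorem Sym_Mb_perm (f : Site d (k + 1) → Fin q) (t : Blk d k) (c : Fin q)
    (π : Equiv.Perm (Fin q)) : Mb (fun x => π (f x)) t (π c) = Mb f t c := by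
  unfold Mb
  congr 1
  funext a b
  simp only [EmbeddingLike.apply_eq_iff_eq]

/-- the mean of `mb` does not depend on the block and on the colour -/
theorem mb_const (t t' : Blk d k) (c c' : Fin q) :
    ∑ f ∈ prps d (k + 1) q, mb f t c = ∑ f ∈ prps d (k + 1) q, mb f t' c' := by
  have h1 := sum_transl (d := d) (k := k + 1) (q := q) (bas (t - t')) (fun f => mb f t' c)
  have h2 : ∀ f : Site d (k + 1) → Fin q, mb (fun x => f (x + bas (t - t'))) t' c = mb f t c := by
    intro f
    rw [Sym_mb_transl]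
    congr 1
    abel
  simp only [h2] at h1
  rw [h1]
  have h3 := sum_perm (d := d) (k := k + 1) (q := q) (Equiv.swap c c') (fun f => mb f t' c')
  rw [← h3]
  refine sum_congr rfl fun f _ => ?_
  have h4 := Sym_mb_perm f t' c (Equiv.swap c c')
  rw [Equiv.swap_apply_left] at h4
  exact h4.symm

/-- the mean of `Mb` is `1/q` -/
theorem Mb_mean (hd : 1 ≤ d) (hq : 1 ≤ q) (t : Blk d k) (c : Fin q) :
    ∑ f ∈ prps d (k + 1) q, Mb f t c = ZZ d (k + 1) q / q := by
  classical
  have hconst : ∀ c' : Fin q, ∑ f ∈ prps d (k + 1) q, Mb f t c' =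
      ∑ f ∈ prps d (k + 1) q, Mb f t c := by
    intro c'
    have h3 := sum_perm (d := d) (k := k + 1) (q := q) (Equiv.swap c' c) (fun f => Mb f t c)
    rw [← h3]
    refine sum_congr rfl fun f _ => ?_
    have h4 := Sym_Mb_perm f t c' (Equiv.swap c' c)
    rw [Equiv.swap_apply_left] at h4
    exact h4.symm
  have hone : ∀ f : Site d (k + 1) → Fin q, ∑ c' : Fin q, Mb f t c' = 1 := by
    intro f
    rw [← card_od hd]
    unfold Mb EB
    rw [← Finset.sum_div, ← Finset.mul_sum]
    congr 2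
    rw [Finset.sum_comm]
    refine sum_congr rfl fun a _ => ?_
    rw [Finset.sum_comm]
    refine sum_congr rfl fun b _ => ?_
    by_cases h : od a b
    · simp [h]
    · simp [h]
  have hsum : ∑ c' : Fin q, ∑ f ∈ prps d (k + 1) q, Mb f t c' = ZZ d (k + 1) q := by
    rw [Finset.sum_comm]
    rw [sum_congr rfl fun f _ => hone f]
    simp [ZZ]
  rw [sum_congr rfl fun c' _ => hconst c'] at hsum
  rw [sum_const, card_univ, Fintype.card_fin, nsmul_eq_mul] at hsum
  have hq0 : (0 : ℝ) < q := by exact_mod_cast hq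
  rw [eq_div_iff hq0.ne', mul_comm]
  exact hsum

end Pool.Agent.LO

end

/-! ### from `Lib_MP_2c424f_lo.Trans` -/

section

/-!
# Translations (piece TRANS)

The set `Bst f` is invariant under even translations, so the number of colourings for which the set of
available colours at `x` is not `Bst f` is the same for all odd sites `x`.
-/

set_option autoImplicit false

open Finset

namespace Pool.Agent.LO

variable {d k q : ℕ}

/-- reduction mod `2` -/
private def parr (hk : 1 ≤ k) : ZMod (2 ^ k) →+* ZMod 2 :=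
  ZMod.castHom (dvd_pow_self 2 (by omega : k ≠ 0)) (ZMod 2)

private theorem evn_iff_parr (hk : 1 ≤ k) (x : Site d k) : evn x ↔ ∑ i, parr hk (x i) = 0 := by
  unfold evn
  rw [← ZMod.natCast_eq_zero_iff_even]
  have : ((∑ i, (x i).val : ℕ) : ZMod 2) = ∑ i, parr hk (x i) := by
    push_cast
    refine sum_congr rfl fun i _ => ?_
    have h := map_natCast (parr hk) (x i).val
    rw [ZMod.natCast_zmod_val] at h
    exact h.symm
  rw [this]

theorem evn_add (hk : 1 ≤ k) (x y : Site d k) : evn (x + y) ↔ (evn x ↔ evn y) := by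
  rw [evn_iff_parr hk, evn_iff_parr hk, evn_iff_parr hk]
  have h : ∑ i, parr hk ((x + y) i) = ∑ i, parr hk (x i) + ∑ i, parr hk (y i) := by
    rw [← sum_add_distrib]
    refine sum_congr rfl fun i _ => ?_
    rw [Pi.add_apply, map_add]
  rw [h]
  generalize ∑ i, parr hk (x i) = a
  generalize ∑ i, parr hk (y i) = b
  revert a b
  decide

/-- the difference of two odd sites is even -/
theorem evn_sub_of_odd (hk : 1 ≤ k) {x y : Site d k} (hx : ¬ evn x) (hy : ¬ evn y) : evn (y - x) := by
  have h := evn_add hk (y - x) x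
  rw [sub_add_cancel] at h
  by_contra hc
  exact hy (h.2 ⟨fun h' => absurd h' hc, fun h' => absurd h' hx⟩)

/-- even translations permute the odd sites -/
theorem sum_ods_transl (hk : 1 ≤ k) {τ : Site d k} (hτ : evn τ) (φ : Site d k → ℝ) :
    ∑ v ∈ ods d k, φ (v + τ) = ∑ v ∈ ods d k, φ v := by
  classical
  have key : ∀ x : Site d k, evn (x + τ) ↔ evn x := fun x => by
    rw [evn_add hk]
    exact ⟨fun h => h.2 hτ, fun h => ⟨fun _ => hτ, fun _ => h⟩⟩
  refine Finset.sum_bij' (fun v _ => v + τ) (fun v _ => v - τ) ?_ ?_ ?_ ?_ ?_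
  · intro v hv
    simp only [ods, mem_filter, mem_univ, true_and] at hv ⊢
    rwa [key]
  · intro v hv
    simp only [ods, mem_filter, mem_univ, true_and] at hv ⊢
    rw [← key, sub_add_cancel]
    exact hv
  · intro v _
    simp
  · intro v _
    simp
  · intro v _
    rfl

theorem SS_transl (f : Site d k → Fin q) (τ v : Site d k) :
    SS (fun x => f (x + τ)) v = SS f (v + τ) := by
  unfold SS
  have h : ∀ σ : Stp d, f (v + sv σ + τ) = f (v + τ + sv σ) := by
    intro σ
    congr 1
    abel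
  simp only [h]

theorem zz_transl (f : Site d k → Fin q) (τ v : Site d k) (c : Fin q) :
    zz (fun x => f (x + τ)) v c = zz f (v + τ) c := by
  unfold zz
  rw [SS_transl]

theorem av_transl (f : Site d k → Fin q) (τ v : Site d k) :
    av (fun x => f (x + τ)) v = av f (v + τ) := by
  unfold av
  rw [SS_transl]

theorem Bst_transl (hk : 1 ≤ k) {τ : Site d k} (hτ : evn τ) (f : Site d k → Fin q) :
    Bst (fun x => f (x + τ)) = Bst f := by
  ext c
  rw [mem_Bst, mem_Bst]
  have h : ∑ v ∈ ods d k, zz (fun x => f (x + τ)) v c = ∑ v ∈ ods d k, zz f v c := by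
    rw [← sum_ods_transl hk hτ (fun v => zz f v c)]
    exact sum_congr rfl fun v _ => zz_transl f τ v c
  rw [h]

open scoped Classical in
/-- the number of colourings for which `x` deviates does not depend on the odd site `x` -/
theorem dvt_const (hk : 1 ≤ k) {x y : Site d k} (hx : ¬ evn x) (hy : ¬ evn y) :
    ∑ f ∈ prps d k q, (if (SS f x)ᶜ ≠ Bst f then (1 : ℝ) else 0) =
      ∑ f ∈ prps d k q, (if (SS f y)ᶜ ≠ Bst f then (1 : ℝ) else 0) := by
  have hτ := evn_sub_of_odd hk hx hy
  rw [← sum_transl (y - x) (fun f => if (SS f x)ᶜ ≠ Bst f then (1 : ℝ) else 0)]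
  refine sum_congr rfl fun f _ => ?_
  have h1 : SS (fun z => f (z + (y - x))) x = SS f y := by
    rw [SS_transl]
    congr 1
    abel
  rw [h1, Bst_transl hk hτ]

open scoped Classical in
theorem avt_const (x y : Site d k) (P : ℕ → Prop) :
    ∑ f ∈ prps d k q, (if P (av f x) then (1 : ℝ) else 0) =
      ∑ f ∈ prps d k q, (if P (av f y) then (1 : ℝ) else 0) := by
  rw [← sum_transl (y - x) (fun f => if P (av f x) then (1 : ℝ) else 0)]
  refine sum_congr rfl fun f _ => ?_
  have h1 : av (fun z => f (z + (y - x))) x = av f y := by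
    rw [av_transl]
    congr 1
    abel
  rw [h1]

end Pool.Agent.LO

end

/-! ### from `Lib_MP_2c424f_lc2.Defs` -/

section

/-!
# MP_2c424f_pr, corners in the linear regime, part II: definitions
-/

set_option autoImplicit false

open Finset Filter

namespace Pool.Agent.LC

open Pool.Agent.LO Pool.Agent.LIN Pool.Agent.THR Pool.Agent.COR

/-- bits changed in the directions of `r` -/
def xr {d : ℕ} (r a : Bt d) : Bt d := fun i => xor (a i) (r i)

/-- pattern reflected in the directions of `r` -/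
def rP {d q : ℕ} (r : Bt d) (g : Pat d q) : Pat d q := fun a b => g (xr r a) (xr r b)

/-- bits of the parity of a tile -/
def tb {d n : ℕ} (T : Fin d → Fin n) : Bt d := fun i => decide ((T i).val % 2 = 1)

/-- the chart of the tile `T`: copies of the box of side `2^s`, reflected in the directions with odd `T i` -/
def un {d k s : ℕ} (T : Fin d → Fin (2 ^ (k + 1 - s))) (u : BxV d (2 ^ s)) : Site d (k + 1) := fun i =>
  ((if (T i).val % 2 = 1 then 2 ^ s * ((T i).val + 1) - (u i).val else 2 ^ s * (T i).val + (u i).val : ℕ) :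
    ZMod (2 ^ (k + 1)))

/-- the blocks of a tile -/
def unB {d k s : ℕ} (T : Fin d → Fin (2 ^ (k + 1 - s))) (t : Fin d → Fin (2 ^ s / 2)) : Blk d k := fun i =>
  ((if (T i).val % 2 = 1 then 2 ^ s / 2 * ((T i).val + 1) - 1 - (t i).val else 2 ^ s / 2 * (T i).val + (t i).val : ℕ) :
    ZMod (2 ^ k))

open scoped Classical in
/-- the boundary of the box -/
noncomputable def bdy (d l : ℕ) : Finset (BxV d l) := univ.filter fun u => ∃ i, (u i).val = 0 ∨ (u i).val = l

end Pool.Agent.LC

end

/-! ### from `Lib_MP_2c424f_lc2.A01` -/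

section

/-!
# LC2 A01: reflected patterns

`od (xr r a) (xr r b) ↔ od a b`; `inS (some (j, β)) (xr r a) (xr r b) ↔ inS (some (j, xor β (r j))) a b`.
So `frq e s c (rP r g) = frq e s' c g` (reindex the sums by the involution `p ↦ (xr r p.1, xr r p.2)`), and the events, which
are about all shapes, do not change.
-/

set_option autoImplicit false

open Finset Filter

namespace Pool.Agent.LC

open Pool.Agent.LO Pool.Agent.LIN Pool.Agent.THR Pool.Agent.COR

theorem xr_xr {d : ℕ} (r a : Bt d) : xr r (xr r a) = a := by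
  funext i
  simp [xr]

theorem A01_ne {d : ℕ} (r a b : Bt d) (i : Fin d) : xr r a i ≠ xr r b i ↔ a i ≠ b i := by
  unfold xr
  cases a i <;> cases b i <;> cases r i <;> simp

theorem od_xr {d : ℕ} (r a b : Bt d) : od (xr r a) (xr r b) ↔ od a b := by
  unfold od
  simp only [A01_ne]

/-- reflected shape -/
def A01_sh {d : ℕ} (r : Bt d) (s : Shp d) : Shp d :=
  match s with
  | none => none
  | some (j, β) => some (j, xor β (r j))

theorem A01_sh_sh {d : ℕ} (r : Bt d) (s : Shp d) : A01_sh r (A01_sh r s) = s := by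
  rcases s with _ | ⟨j, β⟩
  · rfl
  · simp [A01_sh]

theorem A01_inS {d : ℕ} (r : Bt d) (s : Shp d) (a b : Bt d) :
    inS s (xr r a) (xr r b) ↔ inS (A01_sh r s) a b := by
  rcases s with _ | ⟨j, β⟩
  · exact Iff.rfl
  · simp only [inS, A01_sh, xr]
    cases a j <;> cases b j <;> cases r j <;> cases β <;> simp

open scoped Classical in
theorem A01_mem {d : ℕ} (r : Bt d) (e : Bool) (s : Shp d) (p : Bt d × Bt d) :
    (xr r p.1, xr r p.2) ∈ (if e then eS s else oS s) ↔ p ∈ (if e then eS (A01_sh r s) else oS (A01_sh r s)) := by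
  cases e
  · simp only [oS, Finset.mem_filter, Finset.mem_univ, true_and, od_xr, A01_inS, Bool.false_eq_true, if_false]
  · simp only [eS, Finset.mem_filter, Finset.mem_univ, true_and, od_xr, A01_inS, if_true]

theorem A01_frq {d q : ℕ} (r : Bt d) (e : Bool) (s : Shp d) (c : Fin q) (g : Pat d q) :
    frq e s c (rP r g) = frq e (A01_sh r s) c g := by
  have hmap : ∀ p ∈ (if e then eS s else oS s),
      (xr r p.1, xr r p.2) ∈ (if e then eS (A01_sh r s) else oS (A01_sh r s)) := by
    intro p hp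
    have h := A01_mem r e s (xr r p.1, xr r p.2)
    simp only [xr_xr] at h
    exact h.1 hp
  have hmap' : ∀ p ∈ (if e then eS (A01_sh r s) else oS (A01_sh r s)),
      (xr r p.1, xr r p.2) ∈ (if e then eS s else oS s) := fun p hp => (A01_mem r e s p).2 hp
  have hinv : ∀ p : Bt d × Bt d, (xr r (xr r p.1, xr r p.2).1, xr r (xr r p.1, xr r p.2).2) = p := by
    intro p
    simp [xr_xr]
  unfold frq
  congr 1
  · exact Finset.sum_nbij' (fun p => (xr r p.1, xr r p.2)) (fun p => (xr r p.1, xr r p.2)) hmap hmap'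
      (fun p _ => hinv p) (fun p _ => hinv p) (fun p _ => rfl)
  · exact congrArg Nat.cast (Finset.card_nbij' (fun p => (xr r p.1, xr r p.2)) (fun p => (xr r p.1, xr r p.2))
      hmap hmap' (fun p _ => hinv p) (fun p _ => hinv p))

theorem st_rP {d q : ℕ} (r : Bt d) (η : ℝ) (hi : Bool) (c : Fin q) (g : Pat d q) :
    st η hi c (rP r g) ↔ st η hi c g := by
  unfold st
  simp only [A01_frq]
  constructor
  · intro h s
    have := h (A01_sh r s)
    rwa [A01_sh_sh] at this
  · intro h s
    exact h (A01_sh r s)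

theorem bdP_rP {d q : ℕ} (r : Bt d) (η : ℝ) (c : Fin q) (g : Pat d q) : bdP η c (rP r g) ↔ bdP η c g := by
  unfold bdP
  rw [st_rP, st_rP]

theorem G0P_rP {d q : ℕ} (r : Bt d) (g : Pat d q) : G0P (rP r g) ↔ G0P g := by
  unfold G0P
  simp only [bdP_rP]

theorem ALP_rP {d q : ℕ} (r : Bt d) (g : Pat d q) : ALP (rP r g) = ALP g := by
  unfold ALP
  ext c
  simp only [Finset.mem_filter, st_rP]

theorem GDP_rP {d q : ℕ} (r : Bt d) (g : Pat d q) : GDP (rP r g) ↔ GDP g := by
  unfold GDP
  rw [G0P_rP, ALP_rP]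

theorem BDP_rP {d q : ℕ} (r : Bt d) (τ : Option (Fin q)) (g : Pat d q) : BDP τ (rP r g) ↔ BDP τ g := by
  rcases τ with _ | c
  · simp only [BDP, UBP]
    rw [G0P_rP, ALP_rP]
  · exact bdP_rP r et c g

/-- a pattern which is not good is bad of one of the kinds -/
theorem not_GDP {d q : ℕ} (g : Pat d q) : ¬ GDP g ↔ ∃ τ, BDP τ g := by
  constructor
  · intro h
    by_cases h0 : G0P g
    · exact ⟨none, h0, fun h1 => h ⟨h0, h1⟩⟩
    · unfold G0P at h0
      push Not at h0
      obtain ⟨c, hc⟩ := h0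
      exact ⟨some c, hc⟩
  · rintro ⟨τ, hτ⟩ h
    rcases τ with _ | c
    · exact hτ.2 h.2
    · exact h.1 c hτ

end Pool.Agent.LC

end

/-! ### from `Lib_MP_2c424f_thr.T0e` -/

section

/-!
# THR T0e: statements which hold in the regime

All statements are elementary.  `EvT.and`: maximum of the two thresholds.  `EvT_reg`: `d₀ ≥ M/ε`; `k ≥ M`; `ra d q = 2d/q`.
`EvT_NN`, `EvT_pow`: `NN d k = (2^k)^d → ∞` for `d ≥ 1`.
-/

set_option autoImplicit false

open Finset Filter

namespace Pool.Agent.THR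

open Pool.Agent.LO Pool.Agent.LIN

theorem EvT.mono {ε : ℝ} {P Q : ℕ → ℕ → ℕ → Prop} (h : EvT ε P) (hPQ : ∀ d k q, P d k q → Q d k q) : EvT ε Q := by
  obtain ⟨d₀, h⟩ := h
  exact ⟨d₀, fun d q hd h1 h2 => (h d q hd h1 h2).mono fun k hk => hPQ d k q hk⟩

theorem EvT.and {ε : ℝ} {P Q : ℕ → ℕ → ℕ → Prop} (h : EvT ε P) (h' : EvT ε Q) :
    EvT ε fun d k q => P d k q ∧ Q d k q := by
  obtain ⟨d₀, h⟩ := h
  obtain ⟨d₁, h'⟩ := h'
  exact ⟨max d₀ d₁, fun d q hd h1 h2 =>
    (h d q (le_trans (le_max_left _ _) hd) h1 h2).and (h' d q (le_trans (le_max_right _ _) hd) h1 h2)⟩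

/-- shift of `k` -/
theorem EvT.shift {ε : ℝ} {P : ℕ → ℕ → ℕ → Prop} (h : EvT ε P) : EvT ε fun d k q => P d (k + 1) q := by
  obtain ⟨d₀, h⟩ := h
  exact ⟨d₀, fun d q hd h1 h2 => (tendsto_add_atTop_nat 1).eventually (h d q hd h1 h2)⟩

/-- facts about the regime -/
theorem EvT_reg {ε : ℝ} (hε : 0 < ε) (hε1 : ε ≤ 1) (M : ℝ) : EvT ε fun d k q =>
    M ≤ d ∧ M ≤ q ∧ M ≤ k ∧ ε * d ≤ q ∧ (q : ℝ) ≤ (2 - ε) * d ∧ a1 ε ≤ ra d q ∧ ra d q ≤ A0 ε ∧ 2 * (d : ℝ) = ra d q * q := by
  obtain ⟨m, hm⟩ := exists_nat_ge (|M| / ε)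
  refine ⟨max m 1, fun d q hd h1 h2 => ?_⟩
  have hd1 : 1 ≤ d := le_trans (le_max_right _ _) hd
  have hdm : m ≤ d := le_trans (le_max_left _ _) hd
  have hd1' : (1 : ℝ) ≤ d := by exact_mod_cast hd1
  have hdm' : (m : ℝ) ≤ d := by exact_mod_cast hdm
  have hd0 : (0 : ℝ) < d := by linarith
  have hq0 : (0 : ℝ) < q := lt_of_lt_of_le (mul_pos hε hd0) h1
  have hM : |M| ≤ ε * d := by
    have := le_trans hm hdm'
    rw [div_le_iff₀ hε] at this
    linarith
  have hM1 : M ≤ ε * d := le_trans (le_abs_self M) hM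
  have hMd : M ≤ d := by nlinarith
  have h2ε : (0 : ℝ) < 2 - ε := by linarith
  have hk : ∀ᶠ k : ℕ in atTop, M ≤ (k : ℝ) := tendsto_natCast_atTop_atTop.eventually_ge_atTop M
  filter_upwards [hk] with k hk
  refine ⟨hMd, hM1.trans h1, hk, h1, h2, ?_, ?_, ?_⟩
  · unfold a1 ra
    rw [div_le_div_iff₀ h2ε hq0]
    linarith
  · unfold A0 ra
    rw [div_le_div_iff₀ hq0 hε]
    linarith
  · unfold ra
    field_simp

theorem EvT_d {ε : ℝ} {P : ℕ → Prop} (h : ∀ᶠ d : ℕ in atTop, P d) : EvT ε fun d _ _ => P d := by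
  obtain ⟨d₀, h⟩ := eventually_atTop.1 h
  exact ⟨d₀, fun d q hd _ _ => Eventually.of_forall fun _ => h d hd⟩

theorem EvT_NN {ε : ℝ} (F : ℕ → ℕ → ℝ) : EvT ε fun d k q => F d q ≤ NN d k := by
  refine ⟨1, fun d q hd _ _ => ?_⟩
  have h := (tendsto_pow_atTop_atTop_of_one_lt (by norm_num : (1 : ℝ) < 2)).eventually_ge_atTop (F d q)
  filter_upwards [h] with k hk
  refine le_trans hk ?_
  unfold NN
  have h1 : (2 : ℝ) ^ k ≤ ((2 : ℝ) ^ k) ^ d := by
    apply le_self_pow₀ (one_le_pow₀ (by norm_num)) (by omega)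
  exact h1

theorem EvT_pow {ε : ℝ} (F : ℕ → ℕ → ℝ) : EvT ε fun d k q => F d q ≤ (2 : ℝ) ^ k := by
  refine ⟨0, fun d q _ _ _ => ?_⟩
  exact (tendsto_pow_atTop_atTop_of_one_lt (by norm_num : (1 : ℝ) < 2)).eventually_ge_atTop (F d q)

end Pool.Agent.THR

end

/-! ### from `Lib_MP_2c424f_lin.L4a` -/

section

/-!
# H30 L4a: resampling one class

`fib b f` = colourings which agree with `f` off the class `b` and are proper around the sites of the class `b`.
* `h ∈ fib b f` for proper `f`: `h` is proper, `SS h x = SS f x` for `x ∈ cls b`, `fib b h = fib b f`.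
* `fib_sum`: `∑_f G f = ∑_f fm b G f` (double counting: `∑_f ∑_{h ∈ fib f} G h / |fib f| = ∑_h G h |fib h|/|fib h|`).
* `fm_prod`: for `U ⊆ cls b` and functions `φ v` of the colour at `v`:
  mean over the fibre of `∏_{v ∈ U} φ v (h v)` is `∏_{v ∈ U} (∑_{c ∉ SS f v} φ v c)/av f v` (`Finset.prod_univ_sum`,
  `Fintype.piFinset`).
-/

set_option autoImplicit false

open Finset

namespace Pool.Agent.LIN

open Pool.Agent.LO

variable {d k q : ℕ}

private theorem L4a_cls (b : Bool) (x : Site d k) :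
    x ∈ cls b d k ↔ (if b then evn x else ¬ evn x) := by
  unfold cls
  cases b
  · simp [ods]
  · simp [evs]

private theorem L4a_nbr (hk : 1 ≤ k) (b : Bool) (x : Site d k) (σ : Stp d) :
    x + sv σ ∈ cls b d k ↔ x ∉ cls b d k := by
  rw [L4a_cls, L4a_cls]
  have h := evn_step hk x σ
  cases b
  · simp only [Bool.false_eq_true, if_false]
    rw [h]
  · simp only [if_true]
    exact h

private theorem L4a_mem (b : Bool) (f h : Site d k → Fin q) :
    h ∈ fib b f ↔ (∀ x ∈ cls b d k, h x ∉ SS f x) ∧ ∀ x, x ∉ cls b d k → h x = f x := by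
  unfold fib
  rw [Fintype.mem_piFinset]
  constructor
  · intro hh
    refine ⟨fun x hx => ?_, fun x hx => ?_⟩
    · have := hh x
      rw [if_pos hx, mem_compl] at this
      exact this
    · have := hh x
      rw [if_neg hx, mem_singleton] at this
      exact this
  · rintro ⟨h1, h2⟩ x
    split_ifs with hx
    · exact mem_compl.2 (h1 x hx)
    · exact mem_singleton.2 (h2 x hx)

private theorem L4a_SS (f : Site d k → Fin q) (x : Site d k) (σ : Stp d) :
    f (x + sv σ) ∈ SS f x := mem_image_of_mem _ (mem_univ σ)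

theorem fib_self (b : Bool) {f : Site d k → Fin q} (hf : Prp f) : f ∈ fib b f := by
  rw [L4a_mem]
  refine ⟨fun x _ hx => ?_, fun _ _ => rfl⟩
  obtain ⟨σ, -, hσ⟩ := mem_image.1 hx
  exact hf x σ hσ

theorem fib_prp (hk : 1 ≤ k) (b : Bool) {f h : Site d k → Fin q} (hf : Prp f) (hh : h ∈ fib b f) : Prp h := by
  obtain ⟨h1, h2⟩ := (L4a_mem b f h).1 hh
  intro x σ
  by_cases hx : x ∈ cls b d k
  · have h3 : x + sv σ ∉ cls b d k := fun h4 => (L4a_nbr hk b x σ).1 h4 hx
    rw [h2 _ h3]
    intro h4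
    exact h1 x hx (h4 ▸ L4a_SS f x σ)
  · have h3 : x + sv σ ∈ cls b d k := (L4a_nbr hk b x σ).2 hx
    rw [h2 x hx]
    intro h4
    obtain ⟨i, c⟩ := σ
    have h5 := L4a_SS f (x + sv (i, c)) (i, !c)
    rw [add_assoc, sv_opp, add_zero, ← h4] at h5
    exact h1 _ h3 h5

theorem fib_off (b : Bool) {f h : Site d k → Fin q} (hh : h ∈ fib b f) (x : Site d k) (hx : x ∉ cls b d k) :
    h x = f x := by
  exact ((L4a_mem b f h).1 hh).2 x hx

theorem fib_SS (hk : 1 ≤ k) (b : Bool) {f h : Site d k → Fin q} (hh : h ∈ fib b f) (x : Site d k)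
    (hx : x ∈ cls b d k) : SS h x = SS f x := by
  unfold SS
  refine image_congr fun σ _ => ?_
  exact fib_off b hh _ fun h4 => (L4a_nbr hk b x σ).1 h4 hx

theorem fib_eq (hk : 1 ≤ k) (b : Bool) {f h : Site d k → Fin q} (hh : h ∈ fib b f) : fib b h = fib b f := by
  unfold fib
  congr 1
  funext x
  split_ifs with hx
  · rw [fib_SS hk b hh x hx]
  · rw [fib_off b hh x hx]

theorem fib_sum (hk : 1 ≤ k) (b : Bool) (G : (Site d k → Fin q) → ℝ) :
    ∑ f ∈ prps d k q, G f = ∑ f ∈ prps d k q, fm b G f := by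
  classical
  unfold fm
  simp_rw [Finset.sum_div]
  have hmem : ∀ f h : Site d k → Fin q, f ∈ prps d k q ∧ h ∈ fib b f ↔
      f ∈ fib b h ∧ h ∈ prps d k q := by
    have hone : ∀ f h : Site d k → Fin q, f ∈ prps d k q → h ∈ fib b f →
        f ∈ fib b h ∧ h ∈ prps d k q := by
      intro f h hf hh
      have hf' : Prp f := (mem_filter.1 hf).2
      refine ⟨?_, mem_filter.2 ⟨mem_univ _, fib_prp hk b hf' hh⟩⟩
      rw [fib_eq hk b hh]
      exact fib_self b hf'
    intro f h
    exact ⟨fun hh => hone f h hh.1 hh.2, fun hh => (hone h f hh.2 hh.1).symm⟩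
  rw [Finset.sum_comm' (s' := fun h => fib b h) (t' := prps d k q) hmem]
  refine Finset.sum_congr rfl fun h hh => ?_
  have hh' : Prp h := (mem_filter.1 hh).2
  have h1 : ∀ f ∈ fib b h, G h / ((fib b f).card : ℝ) = G h / ((fib b h).card : ℝ) := by
    intro f hf
    rw [fib_eq hk b hf]
  rw [Finset.sum_congr rfl h1, sum_const, nsmul_eq_mul]
  have h2 : ((fib b h).card : ℝ) ≠ 0 := by
    rw [Nat.cast_ne_zero]
    exact card_ne_zero_of_mem (fib_self b hh')
  field_simp

end Pool.Agent.LIN

end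

/-! ### from `Lib_MP_2c424f_lin.F2a` -/

section

/-!
# H30 F2a: Finner's inequality on the torus, resummation of one class

* `cls` basics: a step changes the class, `card (cls b d k) = N/2`.
* `finner_cls`: `finner` with `U` = class `!b`, `V` = class `b`, `J = Stp d`, `Nb v σ = v + sv σ` (injective in `σ` for
  `k ≥ 2`, `sv_inj`); the sum over `f : Site d k → S` has the factor `|S|^(N/2)` from the class `b`.
* `resum`: given the colours on the class `!b`, the colours on the class `b` are chosen independently, `av f v`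
  possibilities at `v`; on the right side the values on the class `b` are free (`q^(N/2)`).
  `av f v` depends only on the colours of the neighbours of `v`.
-/

set_option autoImplicit false

open Finset

namespace Pool.Agent.LIN

open Pool.Agent.LO

variable {d k q : ℕ}

theorem mem_cls_step (hk : 1 ≤ k) (b : Bool) (x : Site d k) (σ : Stp d) :
    x + sv σ ∈ cls b d k ↔ x ∈ cls (!b) d k := by
  have h := evn_step hk x σ
  cases b
  · simp only [cls, Bool.false_eq_true, if_false, Bool.not_false, if_true, ods, evs, mem_filter,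
      mem_univ, true_and, h, not_not]
  · simp only [cls, Bool.not_true, Bool.false_eq_true, if_false, if_true, ods, evs, mem_filter,
      mem_univ, true_and, h]

theorem cls_not (b : Bool) (x : Site d k) : x ∈ cls (!b) d k ↔ x ∉ cls b d k := by
  cases b
  · simp only [cls, Bool.false_eq_true, if_false, Bool.not_false, if_true, ods, evs, mem_filter,
      mem_univ, true_and, not_not]
  · simp only [cls, Bool.not_true, Bool.false_eq_true, if_false, if_true, ods, evs, mem_filter,
      mem_univ, true_and]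

theorem card_cls (hd : 1 ≤ d) (hk : 1 ≤ k) (b : Bool) : ((cls b d k).card : ℝ) = NN d k / 2 := by
  cases b
  · simp only [cls, Bool.false_eq_true, if_false]
    exact card_ods hd hk
  · simp only [cls, if_true]
    exact card_evs hd hk

private theorem F2a_mem_SS (f : Site d k → Fin q) (v : Site d k) (c : Fin q) :
    c ∈ SS f v ↔ ∃ σ : Stp d, f (v + sv σ) = c := by
  simp only [SS, mem_image, mem_univ, true_and]

open scoped Classical in
/-- properness is tested on one class -/
private theorem F2a_prp (hk : 1 ≤ k) (b : Bool) (f : Site d k → Fin q) :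
    Prp f ↔ ∀ v ∈ cls b d k, f v ∉ SS f v := by
  constructor
  · intro hf v _ hv
    obtain ⟨σ, hσ⟩ := (F2a_mem_SS f v (f v)).1 hv
    exact hf v σ hσ
  · intro h x σ hx
    by_cases hb : x ∈ cls b d k
    · exact h x hb ((F2a_mem_SS f x (f x)).2 ⟨σ, hx⟩)
    · have h1 : x + sv σ ∈ cls b d k := (mem_cls_step hk b x σ).2 ((cls_not b x).2 hb)
      refine h _ h1 ((F2a_mem_SS f _ _).2 ⟨(σ.1, !σ.2), ?_⟩)
      rw [add_assoc, show (sv σ : Site d k) + sv (σ.1, !σ.2) = 0 from sv_opp σ.1 σ.2, add_zero, hx]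

open scoped Classical in
private theorem F2a_resum (hk : 1 ≤ k) (b : Bool) (φ : Site d k → ℕ → ℝ) :
    (q : ℝ) ^ (cls b d k).card * ∑ f : Site d k → Fin q,
        ∏ v ∈ cls b d k, (if f v ∉ SS f v then φ v (av f v) else 0) =
      ∑ f : Site d k → Fin q, ∏ v ∈ cls b d k, ((av f v : ℝ) * φ v (av f v)) := by
  set e := Equiv.piEquivPiSubtypeProd (fun x : Site d k => x ∈ cls b d k) (fun _ => Fin q) with he
  rw [← e.symm.sum_comp, ← e.symm.sum_comp, Fintype.sum_prod_type_right,
    Fintype.sum_prod_type_right, mul_sum]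
  refine sum_congr rfl fun h _ => ?_
  -- the colours seen from the class do not depend on the colours of the class
  have hSS : ∀ g g' : {x // x ∈ cls b d k} → Fin q, ∀ v ∈ cls b d k,
      SS (e.symm (g, h)) v = SS (e.symm (g', h)) v := by
    intro g g' v hv
    unfold SS
    refine image_congr ?_
    intro σ _
    have h1 : v + sv σ ∉ cls b d k := by
      rw [mem_cls_step hk, cls_not]
      exact not_not.2 hv
    simp only [he, Equiv.piEquivPiSubtypeProd_symm_apply, dif_neg h1]
  rcases isEmpty_or_nonempty ({x // x ∈ cls b d k} → Fin q) with hE | ⟨⟨g₀⟩⟩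
  · simp
  have hv : ∀ (g : {x // x ∈ cls b d k} → Fin q) (v : {x // x ∈ cls b d k}),
      e.symm (g, h) v.1 = g v := by
    intro g v
    simp only [he, Equiv.piEquivPiSubtypeProd_symm_apply, dif_pos v.2, Subtype.coe_eta]
  have hL : ∀ g : {x // x ∈ cls b d k} → Fin q,
      ∏ v ∈ cls b d k, (if e.symm (g, h) v ∉ SS (e.symm (g, h)) v
        then φ v (av (e.symm (g, h)) v) else 0) =
      ∏ v : {x // x ∈ cls b d k}, (if g v ∉ SS (e.symm (g₀, h)) v.1
        then φ v.1 (av (e.symm (g₀, h)) v.1) else 0) := by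
    intro g
    rw [← prod_coe_sort]
    refine prod_congr rfl fun v _ => ?_
    have h1 := hSS g g₀ v.1 v.2
    have h2 : av (e.symm (g, h)) v.1 = av (e.symm (g₀, h)) v.1 := by
      unfold av
      rw [h1]
    rw [h1, h2, hv g v]
  have hR : ∀ g : {x // x ∈ cls b d k} → Fin q,
      ∏ v ∈ cls b d k, ((av (e.symm (g, h)) v : ℝ) * φ v (av (e.symm (g, h)) v)) =
      ∏ v : {x // x ∈ cls b d k}, ((av (e.symm (g₀, h)) v.1 : ℝ) *
        φ v.1 (av (e.symm (g₀, h)) v.1)) := by
    intro g
    rw [← prod_coe_sort]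
    refine prod_congr rfl fun v _ => ?_
    have h2 : av (e.symm (g, h)) v.1 = av (e.symm (g₀, h)) v.1 := by
      unfold av
      rw [hSS g g₀ v.1 v.2]
    rw [h2]
  rw [sum_congr rfl fun g _ => hL g, sum_congr rfl fun g _ => hR g, sum_const, card_univ,
    Fintype.card_fun, Fintype.card_fin, Fintype.card_coe, nsmul_eq_mul, Nat.cast_pow]
  congr 1
  have h3 := prod_univ_sum (fun _ : {x // x ∈ cls b d k} => (univ : Finset (Fin q)))
    (fun v c => if c ∉ SS (e.symm (g₀, h)) v.1
        then φ v.1 (av (e.symm (g₀, h)) v.1) else 0)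
  rw [Fintype.piFinset_univ] at h3
  rw [← h3]
  refine prod_congr rfl fun v _ => ?_
  rw [← sum_filter, sum_const, nsmul_eq_mul]
  congr 1
  rw [filter_not, card_sdiff_of_subset (filter_subset _ _)]
  have h4 : (univ.filter fun c : Fin q => c ∈ SS (e.symm (g₀, h)) v.1) =
      SS (e.symm (g₀, h)) v.1 := by
    ext c
    simp
  rw [h4, card_univ, Fintype.card_fin]
  rfl

theorem resum (hk : 1 ≤ k) (b : Bool) (φ : Site d k → ℕ → ℝ) :
    (q : ℝ) ^ (cls b d k).card * ∑ f ∈ prps d k q, ∏ v ∈ cls b d k, φ v (av f v) =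
      ∑ f : Site d k → Fin q, ∏ v ∈ cls b d k, ((av f v : ℝ) * φ v (av f v)) := by
  classical
  rw [← F2a_resum hk b φ]
  congr 1
  unfold prps
  rw [sum_filter]
  refine sum_congr rfl fun f _ => ?_
  by_cases hf : Prp f
  · rw [if_pos hf]
    refine prod_congr rfl fun v hv => ?_
    rw [if_pos ((F2a_prp hk b f).1 hf v hv)]
  · rw [if_neg hf]
    rw [F2a_prp hk b f] at hf
    push Not at hf
    obtain ⟨v, hv, h1⟩ := hf
    symm
    refine prod_eq_zero hv ?_
    rw [if_neg (not_not.2 h1)]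

end Pool.Agent.LIN

end

/-! ### from `Lib_MP_2c424f_lin.E6` -/

section

/-!
# H30 E6: fibres over the plane `i j` (definitions)

A site is a plane position `(x,y)` and a fibre site `u` (`u i = u j = 0`): `stt i j x y u`.
Fat spins: `Yf i j d k → S`.  `Ph` = weight of the edges inside a fibre (directions `≠ i, j`); it is split into
fourth roots among the four plane edges at a plane position.
-/

set_option autoImplicit false

open Finset

namespace Pool.Agent.LIN

open Pool.Agent.LO

variable {d k : ℕ} {S Λ : Type*}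

/-- fibre sites -/
abbrev Yf (i j : Fin d) (k : ℕ) := {u : Site d k // u i = 0 ∧ u j = 0}

/-- the site over the plane position `(x,y)` -/
def stt (i j : Fin d) (x y : ZMod (2 ^ k)) (u : Site d k) : Site d k :=
  Function.update (Function.update u i x) j y

/-- step inside the fibre -/
def shf (i j : Fin d) (l : Fin d) (u : Yf i j k) : Yf i j k :=
  if h : l ≠ i ∧ l ≠ j then
    ⟨u.1 + sv (l, true), by
      constructor
      · simp [sv, Pi.single_apply, u.2.1, h.1.symm]
      · simp [sv, Pi.single_apply, u.2.2, h.2.symm]⟩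
  else u

open scoped Classical in
/-- a kernel, oriented by the parity of `x` -/
noncomputable def KO (K : S → S → ℝ) (x : Site d k) : S → S → ℝ :=
  if evn x then K else fun a b => K b a

/-- weight inside the fibre -/
noncomputable def Ph (K : Λ → S → S → ℝ) (w : Site d k → Fin d → Λ) (i j : Fin d) (x y : ZMod (2 ^ k))
    (a : Yf i j k → S) : ℝ :=
  ∏ u : Yf i j k, ∏ l ∈ univ.filter (fun l => l ≠ i ∧ l ≠ j),
    KO (K (w (stt i j x y u.1) l)) (stt i j x y u.1) (a u) (a (shf i j l u))

/-- kernel of the plane edge `(x,y) → (x+1,y)` -/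
noncomputable def KH (K : Λ → S → S → ℝ) (w : Site d k → Fin d → Λ) (i j : Fin d) (x y : ZMod (2 ^ k))
    (a b : Yf i j k → S) : ℝ :=
  Ph K w i j x y a ^ (1 / 4 : ℝ) * Ph K w i j (x + 1) y b ^ (1 / 4 : ℝ) *
    ∏ u : Yf i j k, KO (K (w (stt i j x y u.1) i)) (stt i j x y u.1) (a u) (b u)

/-- kernel of the plane edge `(x,y) → (x,y+1)` -/
noncomputable def KV (K : Λ → S → S → ℝ) (w : Site d k → Fin d → Λ) (i j : Fin d) (x y : ZMod (2 ^ k))
    (a b : Yf i j k → S) : ℝ :=
  Ph K w i j x y a ^ (1 / 4 : ℝ) * Ph K w i j x (y + 1) b ^ (1 / 4 : ℝ) *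
    ∏ u : Yf i j k, KO (K (w (stt i j x y u.1) j)) (stt i j x y u.1) (a u) (b u)

end Pool.Agent.LIN

end

/-! ### from `Lib_MP_2c424f_lin.E6a2` -/

section

/-!
# H30 E6a2: the model on the torus as a two-dimensional model with fat spins

Bijection `(x,y,u) ↦ stt i j x y u`, `f ↦ (fun (x,y) u => f (stt x y u))`.  In `Zg` every plane position has four
edges, each with the factor `Ph^(1/4)`.  `stt (x+1) y u = stt x y u + e_i`, `stt x (y+1) u = stt x y u + e_j`,
`stt x y (shf l u) = stt x y u + e_l`; `K (w x l) (eE f x l) (eO f x l) = KO (K (w x l)) x (f x) (f (x + e_l))`.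
`card_Yf`: `(2^k)^2 * card Yf = (2^k)^d`.
-/

set_option autoImplicit false

open Finset

namespace Pool.Agent.LIN

open Pool.Agent.LO

variable {d k : ℕ} {S Λ : Type*} [Fintype S]

/-- the bijection between triples and sites -/
private def e6a2_equiv (i j : Fin d) (hij : i ≠ j) :
    (ZMod (2 ^ k) × ZMod (2 ^ k)) × Yf i j k ≃ Site d k where
  toFun q := stt i j q.1.1 q.1.2 q.2.1
  invFun x := ((x i, x j), ⟨stt i j 0 0 x, by
    rw [stt]
    exact ⟨by rw [Function.update_of_ne hij, Function.update_self], by rw [Function.update_self]⟩⟩)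
  left_inv := by
    rintro ⟨⟨a, b⟩, ⟨u, hu1, hu2⟩⟩
    refine Prod.ext (Prod.ext ?_ ?_) (Subtype.ext ?_)
    · change stt i j a b u i = a
      rw [stt, Function.update_of_ne hij, Function.update_self]
    · change stt i j a b u j = b
      rw [stt, Function.update_self]
    · change stt i j 0 0 (stt i j a b u) = u
      funext l
      rcases eq_or_ne l j with rfl | hlj
      · rw [stt, Function.update_self, hu2]
      rcases eq_or_ne l i with rfl | hli
      · rw [stt, Function.update_of_ne hlj, Function.update_self, hu1]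
      rw [stt, Function.update_of_ne hlj, Function.update_of_ne hli, stt,
        Function.update_of_ne hlj, Function.update_of_ne hli]
  right_inv x := by
    change stt i j (x i) (x j) (stt i j 0 0 x) = x
    funext l
    rcases eq_or_ne l j with rfl | hlj
    · rw [stt, Function.update_self]
    rcases eq_or_ne l i with rfl | hli
    · rw [stt, Function.update_of_ne hlj, Function.update_self]
    rw [stt, Function.update_of_ne hlj, Function.update_of_ne hli, stt,
      Function.update_of_ne hlj, Function.update_of_ne hli]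

theorem card_Yf (i j : Fin d) (hij : i ≠ j) :
    ((2 : ℝ) ^ k) ^ 2 * (Fintype.card (Yf i j k) : ℝ) = NN d k := by
  have h1 := Fintype.card_congr (e6a2_equiv (k := k) i j hij)
  rw [Fintype.card_prod, Fintype.card_prod, ZMod.card] at h1
  have h2 : Fintype.card (Site d k) = (2 ^ k) ^ d := by
    rw [Fintype.card_fun, ZMod.card, Fintype.card_fin]
  rw [h2] at h1
  have h3 : (((2 ^ k * 2 ^ k * Fintype.card (Yf i j k) : ℕ)) : ℝ) = (((2 ^ k) ^ d : ℕ) : ℝ) := by
    rw [h1]
  rw [NN]
  push_cast at h3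
  rw [sq]
  exact h3

end Pool.Agent.LIN

end

/-! ### from `Lib_MP_2c424f_lin.L4b` -/

section

/-!
# H30 L4b: resampling one class

`fib b f` = colourings which agree with `f` off the class `b` and are proper around the sites of the class `b`.
* `h ∈ fib b f` for proper `f`: `h` is proper, `SS h x = SS f x` for `x ∈ cls b`, `fib b h = fib b f`.
* `fib_sum`: `∑_f G f = ∑_f fm b G f` (double counting: `∑_f ∑_{h ∈ fib f} G h / |fib f| = ∑_h G h |fib h|/|fib h|`).
* `fm_prod`: for `U ⊆ cls b` and functions `φ v` of the colour at `v`: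
  mean over the fibre of `∏_{v ∈ U} φ v (h v)` is `∏_{v ∈ U} (∑_{c ∉ SS f v} φ v c)/av f v` (`Finset.prod_univ_sum`,
  `Fintype.piFinset`).
-/

set_option autoImplicit false

open Finset

namespace Pool.Agent.LIN

open Pool.Agent.LO

variable {d k q : ℕ}

theorem fm_prod (hk : 1 ≤ k) (b : Bool) {f : Site d k → Fin q} (hf : Prp f) (U : Finset (Site d k))
    (hU : U ⊆ cls b d k) (φ : Site d k → Fin q → ℝ) :
    fm b (fun h => ∏ v ∈ U, φ v (h v)) f = ∏ v ∈ U, (∑ c ∈ (SS f v)ᶜ, φ v c) / (av f v : ℝ) := by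
  classical
  have _ := hk
  set t : Site d k → Finset (Fin q) := fun x => if x ∈ cls b d k then (SS f x)ᶜ else {f x} with ht
  have hfib : fib b f = Fintype.piFinset t := by
    rw [ht]
    unfold fib
    congr 1
  have hcard : ∀ x ∈ cls b d k, ((t x).card : ℝ) = av f x := by
    intro x hx
    simp only [ht, if_pos hx]
    rw [card_compl, Fintype.card_fin]
    rfl
  have hpos : ∀ x, ((t x).card : ℝ) ≠ 0 := by
    intro x
    by_cases hx : x ∈ cls b d k
    · rw [hcard x hx]
      have := av_pos hf x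
      exact_mod_cast (by omega : av f x ≠ 0)
    · simp only [ht, if_neg hx, card_singleton, Nat.cast_one, ne_eq, one_ne_zero, not_false_eq_true]
  unfold fm
  rw [hfib, Fintype.card_piFinset]
  have h1 : ∀ h : Site d k → Fin q, ∏ v ∈ U, φ v (h v) =
      ∏ v, (if v ∈ U then φ v (h v) else 1) := by
    intro h
    rw [prod_ite_mem, univ_inter]
  rw [sum_congr rfl fun h _ => h1 h,
    ← prod_univ_sum t (fun v c => if v ∈ U then φ v c else 1), Nat.cast_prod, ← prod_div_distrib]
  rw [← prod_subset (subset_univ U)]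
  · refine prod_congr rfl fun v hv => ?_
    have hv' := hU hv
    rw [hcard v hv']
    simp only [ht, if_pos hv', if_pos hv]
  · intro x _ hx
    simp only [if_neg hx, sum_const, nsmul_eq_mul, mul_one]
    exact div_self (hpos x)

end Pool.Agent.LIN

end

/-! ### from `Lib_MP_2c424f_lin.E7` -/

section

/-!
# H30 E7: folding preserves means

For fixed `p`, `σ ∈ pl i j` and fixed fibre part, half of the plane positions of `x` have the parity of `p`
(`fol x = mrg p x`), for the other half `fol x = mrg p x + sv σ`.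
* `fol_sum`: `∑_p ∑_{σ ∈ pl i j} ∑_x H (fol i j p σ x) = 4 N ∑_x H x`.
* `pf_mean`: directions `l ≠ i, j`: `fol_sum`; `l ∈ {i, j}`:
  `∑_p ∑_σ ∑_x h (WL w (mrg p x) σ) = N ∑_x ∑_{σ ∈ pl i j} h (WL w x σ) = 2 N ∑_x (h (w x i) + h (w x j))`.
-/

set_option autoImplicit false

open Finset

namespace Pool.Agent.LIN

open Pool.Agent.LO

variable {d k : ℕ} {Λ : Type*}

theorem E7_even (hk : 1 ≤ k) (a : ZMod (2 ^ k)) : Even (a + 1).val ↔ ¬ Even a.val := by
  have h2 : (2 : ℕ) ∣ 2 ^ k := dvd_pow_self 2 (by omega)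
  have hm : (a + 1).val = (a.val + 1) % 2 ^ k := by
    have : a + 1 = ((a.val + 1 : ℕ) : ZMod (2 ^ k)) := by
      push_cast
      rw [ZMod.natCast_zmod_val]
    rw [this, ZMod.val_natCast]
  have h3 : (a.val + 1) % 2 ^ k % 2 = (a.val + 1) % 2 := Nat.mod_mod_of_dvd _ h2
  rw [hm, Nat.even_iff, Nat.even_iff]
  omega

theorem E7_pl_eq (i j : Fin d) (hij : i ≠ j) :
    pl i j = {(i, true), (i, false), (j, true), (j, false)} := by
  ext ⟨a, b⟩
  simp only [pl, mem_filter, mem_univ, true_and, mem_insert, mem_singleton, Prod.mk.injEq]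
  cases b <;> simp

theorem E7_pl_sum (i j : Fin d) (hij : i ≠ j) (F : Stp d → ℝ) :
    ∑ σ ∈ pl i j, F σ = F (i, true) + F (i, false) + F (j, true) + F (j, false) := by
  rw [E7_pl_eq i j hij, Finset.sum_insert, Finset.sum_insert, Finset.sum_insert, Finset.sum_singleton]
  · ring
  · simp
  · simp [hij]
  · simp [hij]

/-- exchange of the plane coordinates -/
def E7_mrgE (i j : Fin d) : (Site d k × Site d k) ≃ (Site d k × Site d k) where
  toFun z := (mrg i j z.1 z.2, mrg i j z.2 z.1)
  invFun z := (mrg i j z.1 z.2, mrg i j z.2 z.1)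
  left_inv z := by
    refine Prod.ext ?_ ?_ <;> funext l <;> simp only [mrg] <;> split_ifs <;> rfl
  right_inv z := by
    refine Prod.ext ?_ ?_ <;> funext l <;> simp only [mrg] <;> split_ifs <;> rfl

theorem E7_mrg_pair (i j : Fin d) (F : Site d k → Site d k → ℝ) :
    ∑ p, ∑ x, F (mrg i j p x) (mrg i j x p) = ∑ p, ∑ x, F p x := by
  rw [← Fintype.sum_prod_type', ← Fintype.sum_prod_type']
  exact Fintype.sum_equiv (E7_mrgE i j) _ _ (fun z => rfl)

/-- half of the sites have a given parity in the plane -/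
theorem E7_half (hk : 1 ≤ k) (i j : Fin d) (hij : i ≠ j) (n : ℕ) (A B : ℝ) :
    ∑ v : Site d k, (open scoped Classical in if Even ((v i).val + (v j).val + n) then A else B) =
      NN d k / 2 * (A + B) := by
  classical
  have h1 : ∑ v : Site d k, (if Even ((v i).val + (v j).val + n) then A else B) =
      ∑ v : Site d k, (if Even ((v i).val + (v j).val + n) then B else A) := by
    rw [← Equiv.sum_comp (Equiv.addRight (sv (i, true) : Site d k))]
    refine Finset.sum_congr rfl fun v _ => ?_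
    have e1 : (Equiv.addRight (sv (i, true) : Site d k) v) i = v i + 1 := by
      simp [sv]
    have e2 : (Equiv.addRight (sv (i, true) : Site d k) v) j = v j := by
      simp [sv, Pi.single_apply, hij.symm]
    rw [e1, e2]
    have h := E7_even hk (v i)
    by_cases hc : Even ((v i).val + (v j).val + n)
    · rw [if_pos hc, if_neg]
      rw [add_assoc, Nat.even_add] at hc ⊢
      tauto
    · rw [if_neg hc, if_pos]
      rw [add_assoc, Nat.even_add] at hc ⊢
      tauto
  have h2 : ∑ v : Site d k, (if Even ((v i).val + (v j).val + n) then A else B) +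
      ∑ v : Site d k, (if Even ((v i).val + (v j).val + n) then B else A) = NN d k * (A + B) := by
    rw [← Finset.sum_add_distrib, ← card_site, ← nsmul_eq_mul, ← Finset.card_univ, ← Finset.sum_const]
    refine Finset.sum_congr rfl fun v _ => ?_
    split_ifs
    · rfl
    · exact add_comm _ _
  have h3 : ∑ v : Site d k, (if Even ((v i).val + (v j).val + n) then A else B) =
      NN d k / 2 * (A + B) := by linarith
  rw [← h3]

theorem E7_transl (a : Site d k) (H : Site d k → ℝ) : ∑ x, H (x + a) = ∑ x, H x :=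
  Equiv.sum_comp (Equiv.addRight a) H

theorem E7_fol1 (hk : 1 ≤ k) (i j : Fin d) (hij : i ≠ j) (σ : Stp d) (H : Site d k → ℝ) :
    ∑ p, ∑ x, H (fol i j p σ x) = NN d k * ∑ x, H x := by
  classical
  obtain ⟨F, hF⟩ : ∃ F : Site d k → Site d k → ℝ, ∀ u v, F u v =
      if Even ((v i).val + (v j).val + ((u i).val + (u j).val)) then H u else H (u + sv σ) :=
    ⟨_, fun _ _ => rfl⟩
  have h1 : ∀ p x, H (fol i j p σ x) = F (mrg i j p x) (mrg i j x p) := by
    intro p x
    have e1 : mrg i j x p i = x i := by simp [mrg]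
    have e2 : mrg i j x p j = x j := by simp [mrg]
    have e3 : mrg i j p x i = p i := by simp [mrg]
    have e4 : mrg i j p x j = p j := by simp [mrg]
    rw [hF, e1, e2, e3, e4]
    unfold fol
    rw [← add_assoc]
    split_ifs <;> rfl
  have h2 : ∀ u : Site d k, ∑ v : Site d k, F u v = NN d k / 2 * (H u + H (u + sv σ)) := by
    intro u
    have := E7_half hk i j hij ((u i).val + (u j).val) (H u) (H (u + sv σ))
    rw [← this]
    refine Finset.sum_congr rfl fun v _ => ?_
    rw [hF]
  have h3 : ∑ p, ∑ x, H (fol i j p σ x) = ∑ p, ∑ x, F (mrg i j p x) (mrg i j x p) :=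
    Finset.sum_congr rfl fun p _ => Finset.sum_congr rfl fun x _ => h1 p x
  rw [h3, E7_mrg_pair i j F, Finset.sum_congr rfl fun u _ => h2 u, ← Finset.mul_sum,
    Finset.sum_add_distrib, E7_transl]
  ring

theorem fol_sum (hk : 1 ≤ k) (i j : Fin d) (hij : i ≠ j) (H : Site d k → ℝ) :
    ∑ p, ∑ σ ∈ pl i j, ∑ x, H (fol i j p σ x) = 4 * NN d k * ∑ x, H x := by
  rw [Finset.sum_comm, Finset.sum_congr rfl fun σ _ => E7_fol1 hk i j hij σ H, E7_pl_sum i j hij]
  ring

theorem mrg_sum (i j : Fin d) (hij : i ≠ j) (H : Site d k → ℝ) :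
    ∑ p, ∑ x, H (mrg i j p x) = NN d k * ∑ x, H x := by
  have h := E7_mrg_pair i j (fun u _ => H u) (k := k)
  rw [h]
  simp only [Finset.sum_const, Finset.card_univ, nsmul_eq_mul]
  rw [card_site, ← Finset.mul_sum]

/-- labels in the plane at all the sites -/
theorem E7_WL (w : Site d k → Fin d → Λ) (h : Λ → ℝ) (σ : Stp d) :
    ∑ x, h (WL w x σ) = ∑ x, h (w x σ.1) := by
  obtain ⟨l, b⟩ := σ
  cases b
  · simp only [WL, Bool.false_eq_true, if_false]
    exact E7_transl (sv (l, false)) (fun x => h (w x l))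
  · simp only [WL, if_true]

theorem pf_mean (hk : 1 ≤ k) (i j : Fin d) (hij : i ≠ j) (w : Site d k → Fin d → Λ) (h : Λ → ℝ) :
    ∑ p, ∑ σ ∈ pl i j, ∑ x, ∑ l, h (pf i j p σ w x l) = 4 * NN d k * ∑ x, ∑ l, h (w x l) := by
  classical
  have key : ∀ l : Fin d, ∑ p, ∑ σ ∈ pl i j, ∑ x, h (pf i j p σ w x l) =
      if l = i ∨ l = j then NN d k * (2 * (∑ x, h (w x i) + ∑ x, h (w x j))) else
        4 * NN d k * ∑ x, h (w x l) := by
    intro l
    by_cases hl : l = i ∨ l = j
    · rw [if_pos hl]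
      simp only [pf, if_pos hl]
      rw [Finset.sum_comm]
      rw [Finset.sum_congr rfl fun σ _ => mrg_sum i j hij (fun y => h (WL w y σ))]
      rw [E7_pl_sum i j hij]
      simp only [E7_WL]
      ring
    · rw [if_neg hl]
      simp only [pf, if_neg hl]
      exact fol_sum hk i j hij (fun x => h (w x l))
  have hsw : ∑ p, ∑ σ ∈ pl i j, ∑ x, ∑ l, h (pf i j p σ w x l) =
      ∑ l, ∑ p, ∑ σ ∈ pl i j, ∑ x, h (pf i j p σ w x l) := by
    rw [Finset.sum_comm (s := (univ : Finset (Fin d)))]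
    refine Finset.sum_congr rfl fun p _ => ?_
    rw [Finset.sum_comm (s := (univ : Finset (Fin d)))]
    refine Finset.sum_congr rfl fun σ _ => ?_
    rw [Finset.sum_comm]
  rw [hsw, Finset.sum_congr rfl fun l _ => key l]
  have hr : ∑ x, ∑ l, h (w x l) = ∑ l, ∑ x, h (w x l) := Finset.sum_comm
  rw [hr, Finset.mul_sum]
  -- compare the two sums over the directions
  have hdec : ∀ G : Fin d → ℝ, ∑ l, G l = G i + G j + ∑ l ∈ (univ.erase i).erase j, G l := by
    intro G
    rw [← Finset.add_sum_erase univ G (mem_univ i),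
      ← Finset.add_sum_erase (univ.erase i) G (mem_erase.mpr ⟨hij.symm, mem_univ j⟩), add_assoc]
  rw [hdec, hdec]
  have hrest : ∀ l ∈ (univ.erase i).erase j, (if l = i ∨ l = j then
      NN d k * (2 * (∑ x, h (w x i) + ∑ x, h (w x j))) else 4 * NN d k * ∑ x, h (w x l)) =
        4 * NN d k * ∑ x, h (w x l) := by
    intro l hl
    rw [mem_erase, mem_erase] at hl
    rw [if_neg]
    rintro (h1 | h1)
    · exact hl.2.1 h1
    · exact hl.1 h1
  rw [Finset.sum_congr rfl hrest, if_pos (Or.inl rfl), if_pos (Or.inr rfl)]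
  ring

end Pool.Agent.LIN

end

/-! ### from `Lib_MP_2c424f_lin.E4a` -/

section

/-!
# H30 E4a: from the zigzag torus to the coordinate torus

`DD_le`: `DD (r+1) K ≤ Zh (r+1) K ^ 2`, `m = 2^(r+1)`.
`DD k K = ∑_{α, β : i, z} ∏ K(α_{i,z}, β_{i,z}) K(α_{i,z}, β_{i,z+1})`-type torus: unfolding `zig k (bz k K)` the sum
is over `α z i`, `β z i` (`z` = index of `zig`, `i` = index of `bz`) with the edges
`α z i ~ β z i`, `α z (i+1) ~ β z i`, `α (z+1) i ~ β z i`, `α (z+1) (i+1) ~ β z i`, first argument `α`.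
(1) Rows: put `a y i = α (i - y) i` and `b y i = β (i - y) i`, `y i : ℤ/m`
    (bijection `(z,i) ↔ (y,i)`, `z = i - y`).  Edges: `α z i ~ β z i`: `a y i ~ b y i`;
    `α z (i+1) ~ β z i`: `i+1-y' = z = i-y`, `y' = y+1`: `a (y+1) (i+1) ~ b y i`;
    `α (z+1) i ~ β z i`: `i-y' = i-y+1`, `y' = y-1`: `a (y-1) i ~ b y i`;
    `α (z+1) (i+1) ~ β z i`: `a y (i+1) ~ b y i`.
    So a ring in `y` with layers `(a_y, b_y) : (ℤ/m → X)²`, in-layer weight
    `V(a,b) = ∏_i K(a i, b i) K(a (i+1), b i)` and kernel between the layers `y`, `y+1`: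
    `∏_i K(a_{y+1} (i+1), b_y i) K(a_y i, b_{y+1} i)`; put `√V √V'` on both sides:
    `DD (r+1) K = cyc (r+1) (fun _ => R)`, so `ring_chess` gives `DD^m ≤ (zig r R)^m`, `DD ≤ zig r R`.
(2) `zig r R` is the coordinate torus with `x ∈ ℤ/2m`, `y ∈ ℤ/m` (rows `2j`: `(a_j, b_j)`, rows `2j+1`:
    `(a'_j, b'_j)`, `j : ℤ/2^r`): in-row `V`, and `K(a'_j (i+1), b_j i) K(a_j i, b'_j i)`,
    `K(a'_j (i+1), b_{j+1} i) K(a_{j+1} i, b'_j i)`.
    By columns: column `2i` = `(a_j i, b'_j i)_j`, column `2i+1` = `(a'_j (i+1), b_j i)_j` (first component: even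
    sites): in-column weights `W(p,q) = ∏_j K(p_j, q_j) K(p_{j+1}, q_j)` resp. `W'(p,q) = ∏_j K(p_j, q_j) K(p_j, q_{j+1})`,
    between the columns `2i` and `2i+1`: `∏_j K(p_j, q'_j) K(p'_j, q_j)`; between `2i+1` and `2i+2` the same function.
    So `zig r R = zig (r+1) N`, `N = √W √W' ∏ ...`, layers `(ℤ/2^r → X)²`.
(3) `zig_mono`: `zig (r+1) N ≤ (zig r N)²`.
(4) `zig r N = Zh (r+1) K`: split both coordinates of the torus of side `2^(r+1)` into even and odd values
    (`x = 2i` or `2i+1`, `y = 2j` or `2j+1`).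
`Zh_tr`: translate by `(1,0)`.
The builder may state (1), (2), (4) as separate lemmas.
-/

set_option autoImplicit false

open Finset

namespace Pool.Agent.LIN

variable {X : Type*} [Fintype X]

/-- layer kernel of the rows -/
noncomputable def Rr (k : ℕ) (K : X → X → ℝ) (u v : (ZMod (2 ^ k) → X) × (ZMod (2 ^ k) → X)) : ℝ :=
  Real.sqrt (bz k K u.1 u.2) * (∏ i, K (v.1 (i + 1)) (u.2 i) * K (u.1 i) (v.2 i)) *
    Real.sqrt (bz k K v.1 v.2)

/-- column kernel; `u = (p, q)` an even column, `v = (p', q')` an odd column (first component: even sites) -/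
noncomputable def Nn (r : ℕ) (K : X → X → ℝ) (u v : (ZMod (2 ^ r) → X) × (ZMod (2 ^ r) → X)) : ℝ :=
  Real.sqrt (∏ j, K (u.1 j) (u.2 j) * K (u.1 (j + 1)) (u.2 j)) * (∏ j, K (u.1 j) (v.2 j) * K (v.1 j) (u.2 j)) *
    Real.sqrt (∏ j, K (v.1 j) (v.2 j) * K (v.1 j) (v.2 (j + 1)))

private theorem E4a_reidx {n : ℕ} [NeZero n] (F : ZMod n → ZMod n → ℝ) :
    ∏ z, ∏ i, F (i - z) i = ∏ y, ∏ i, F y i := by
  rw [prod_comm]
  conv_rhs => rw [prod_comm]
  refine prod_congr rfl fun i _ => ?_
  exact (Equiv.subLeft i).prod_comp fun y => F y i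

private theorem E4a_shift {n : ℕ} [NeZero n] (f : ZMod n → ℝ) :
    ∏ y, f (y + 1) = ∏ y, f y :=
  Equiv.prod_comp (Equiv.addRight (1 : ZMod n)) f

/-- the change of coordinates -/
private def E4a_e (Y : Type*) (n : ℕ) : (ZMod n → ZMod n → Y) ≃ (ZMod n → ZMod n → Y) where
  toFun a z i := a (i - z) i
  invFun a z i := a (i - z) i
  left_inv a := by
    funext z i
    simp only [sub_sub_cancel]
  right_inv a := by
    funext z i
    simp only [sub_sub_cancel]

private theorem E4a_left (k : ℕ) (K : X → X → ℝ) (a b : ZMod (2 ^ k) → ZMod (2 ^ k) → X) :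
    ∏ z, bz k K (E4a_e X (2 ^ k) a z) (E4a_e X (2 ^ k) b z) *
      bz k K (E4a_e X (2 ^ k) a (z + 1)) (E4a_e X (2 ^ k) b z) =
    (∏ y, bz k K (a y) (b y)) *
      ∏ y, ∏ i, K (a (y + 1) (i + 1)) (b y i) * K (a y i) (b (y + 1) i) := by
  have h1 : ∏ z, ∏ i, K (a (i - z) i) (b (i - z) i) = ∏ y, ∏ i, K (a y i) (b y i) :=
    E4a_reidx fun y i => K (a y i) (b y i)
  have h2 : ∏ z, ∏ i, K (a (i + 1 - z) (i + 1)) (b (i - z) i) =
      ∏ y, ∏ i, K (a (y + 1) (i + 1)) (b y i) := by
    rw [← E4a_reidx fun y i => K (a (y + 1) (i + 1)) (b y i)]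
    refine prod_congr rfl fun z _ => prod_congr rfl fun i _ => ?_
    rw [show i + 1 - z = i - z + 1 by ring]
  have h3 : ∏ z, ∏ i, K (a (i - (z + 1)) i) (b (i - z) i) =
      ∏ y, ∏ i, K (a y i) (b (y + 1) i) := by
    have h5 : ∏ z, ∏ i, K (a (i - (z + 1)) i) (b (i - z) i) =
        ∏ y, ∏ i, K (a (y - 1) i) (b y i) := by
      rw [← E4a_reidx fun y i => K (a (y - 1) i) (b y i)]
      refine prod_congr rfl fun z _ => prod_congr rfl fun i _ => ?_
      rw [show i - (z + 1) = i - z - 1 by ring]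
    rw [h5, ← E4a_shift fun y => ∏ i, K (a (y - 1) i) (b y i)]
    refine prod_congr rfl fun z _ => prod_congr rfl fun i _ => ?_
    rw [add_sub_cancel_right]
  have h4 : ∏ z, ∏ i, K (a (i + 1 - (z + 1)) (i + 1)) (b (i - z) i) =
      ∏ y, ∏ i, K (a y (i + 1)) (b y i) := by
    rw [← E4a_reidx fun y i => K (a y (i + 1)) (b y i)]
    refine prod_congr rfl fun z _ => prod_congr rfl fun i _ => ?_
    rw [show i + 1 - (z + 1) = i - z by ring]
  simp only [bz, E4a_e, Equiv.coe_fn_mk, prod_mul_distrib]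
  rw [h1, h2, h3, h4]
  ring

private theorem E4a_right (k : ℕ) (K : X → X → ℝ) (hK : ∀ a b, 0 ≤ K a b)
    (a b : ZMod (2 ^ k) → ZMod (2 ^ k) → X) :
    ∏ y, Rr k K (a y, b y) (a (y + 1), b (y + 1)) =
    (∏ y, bz k K (a y) (b y)) *
      ∏ y, ∏ i, K (a (y + 1) (i + 1)) (b y i) * K (a y i) (b (y + 1) i) := by
  have hb : ∀ a b, 0 ≤ bz k K a b := fun a b =>
    prod_nonneg fun i _ => mul_nonneg (hK _ _) (hK _ _)
  simp only [Rr]
  rw [prod_mul_distrib, prod_mul_distrib,
    E4a_shift fun y => Real.sqrt (bz k K (a y) (b y)), mul_right_comm, ← prod_mul_distrib]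
  congr 1
  exact prod_congr rfl fun y _ => Real.mul_self_sqrt (hb _ _)

theorem DD_rows (k : ℕ) (K : X → X → ℝ) (hK : ∀ a b, 0 ≤ K a b) :
    DD k K = cyc k (fun _ => Rr k K) := by
  unfold DD zig cyc
  rw [← (Equiv.arrowProdEquivProdArrow (ZMod (2 ^ k)) (fun _ => ZMod (2 ^ k) → X)
    (fun _ => ZMod (2 ^ k) → X)).symm.sum_comp, Fintype.sum_prod_type,
    ← (E4a_e X (2 ^ k)).sum_comp]
  refine sum_congr rfl fun a _ => ?_
  rw [← (E4a_e X (2 ^ k)).sum_comp]
  refine sum_congr rfl fun b _ => ?_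
  rw [E4a_left]
  exact (E4a_right k K hK a b).symm

end Pool.Agent.LIN

end

/-! ### from `Lib_MP_2c424f_lin.E4c` -/

section

/-!
# H30 E4c: from the zigzag torus to the coordinate torus

`DD_le`: `DD (r+1) K ≤ Zh (r+1) K ^ 2`, `m = 2^(r+1)`.
`DD k K = ∑_{α, β : i, z} ∏ K(α_{i,z}, β_{i,z}) K(α_{i,z}, β_{i,z+1})`-type torus: unfolding `zig k (bz k K)` the sum
is over `α z i`, `β z i` (`z` = index of `zig`, `i` = index of `bz`) with the edges
`α z i ~ β z i`, `α z (i+1) ~ β z i`, `α (z+1) i ~ β z i`, `α (z+1) (i+1) ~ β z i`, first argument `α`.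
(1) Rows: put `a y i = α (i - y) i` and `b y i = β (i - y) i`, `y i : ℤ/m`
    (bijection `(z,i) ↔ (y,i)`, `z = i - y`).  Edges: `α z i ~ β z i`: `a y i ~ b y i`;
    `α z (i+1) ~ β z i`: `i+1-y' = z = i-y`, `y' = y+1`: `a (y+1) (i+1) ~ b y i`;
    `α (z+1) i ~ β z i`: `i-y' = i-y+1`, `y' = y-1`: `a (y-1) i ~ b y i`;
    `α (z+1) (i+1) ~ β z i`: `a y (i+1) ~ b y i`.
    So a ring in `y` with layers `(a_y, b_y) : (ℤ/m → X)²`, in-layer weight
    `V(a,b) = ∏_i K(a i, b i) K(a (i+1), b i)` and kernel between the layers `y`, `y+1`: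
    `∏_i K(a_{y+1} (i+1), b_y i) K(a_y i, b_{y+1} i)`; put `√V √V'` on both sides:
    `DD (r+1) K = cyc (r+1) (fun _ => R)`, so `ring_chess` gives `DD^m ≤ (zig r R)^m`, `DD ≤ zig r R`.
(2) `zig r R` is the coordinate torus with `x ∈ ℤ/2m`, `y ∈ ℤ/m` (rows `2j`: `(a_j, b_j)`, rows `2j+1`:
    `(a'_j, b'_j)`, `j : ℤ/2^r`): in-row `V`, and `K(a'_j (i+1), b_j i) K(a_j i, b'_j i)`,
    `K(a'_j (i+1), b_{j+1} i) K(a_{j+1} i, b'_j i)`.
    By columns: column `2i` = `(a_j i, b'_j i)_j`, column `2i+1` = `(a'_j (i+1), b_j i)_j` (first component: even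
    sites): in-column weights `W(p,q) = ∏_j K(p_j, q_j) K(p_{j+1}, q_j)` resp. `W'(p,q) = ∏_j K(p_j, q_j) K(p_j, q_{j+1})`,
    between the columns `2i` and `2i+1`: `∏_j K(p_j, q'_j) K(p'_j, q_j)`; between `2i+1` and `2i+2` the same function.
    So `zig r R = zig (r+1) N`, `N = √W √W' ∏ ...`, layers `(ℤ/2^r → X)²`.
(3) `zig_mono`: `zig (r+1) N ≤ (zig r N)²`.
(4) `zig r N = Zh (r+1) K`: split both coordinates of the torus of side `2^(r+1)` into even and odd values
    (`x = 2i` or `2i+1`, `y = 2j` or `2j+1`).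
`Zh_tr`: translate by `(1,0)`.
The builder may state (1), (2), (4) as separate lemmas.
-/

set_option autoImplicit false

open Finset

namespace Pool.Agent.LIN

variable {X : Type*} [Fintype X]

private theorem E4c_val (r : ℕ) (i : ZMod (2 ^ r)) :
    (((2 * i.val : ℕ) : ZMod (2 ^ (r + 1)))).val = 2 * i.val := by
  rw [ZMod.val_natCast, Nat.mod_eq_of_lt]
  have := ZMod.val_lt i
  rw [pow_succ]
  omega

private theorem E4c_val1 (r : ℕ) (i : ZMod (2 ^ r)) :
    (((2 * i.val : ℕ) : ZMod (2 ^ (r + 1))) + 1).val = 2 * i.val + 1 := by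
  have h : ((2 * i.val : ℕ) : ZMod (2 ^ (r + 1))) + 1 = ((2 * i.val + 1 : ℕ) : ZMod (2 ^ (r + 1))) := by
    push_cast
    ring
  rw [h, ZMod.val_natCast, Nat.mod_eq_of_lt]
  have := ZMod.val_lt i
  rw [pow_succ]
  omega

private theorem E4c_succ (r : ℕ) (i : ZMod (2 ^ r)) :
    ((2 * (i + 1).val : ℕ) : ZMod (2 ^ (r + 1))) = ((2 * i.val : ℕ) : ZMod (2 ^ (r + 1))) + 1 + 1 := by
  have h : ((2 * i.val : ℕ) : ZMod (2 ^ (r + 1))) + 1 + 1 =
      ((2 * (i.val + 1) : ℕ) : ZMod (2 ^ (r + 1))) := by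
    push_cast
    ring
  rw [h, ZMod.natCast_eq_natCast_iff]
  have h1 : (i + 1).val ≡ i.val + 1 [MOD 2 ^ r] := by
    rw [← ZMod.natCast_eq_natCast_iff]
    push_cast
    rw [ZMod.natCast_zmod_val, ZMod.natCast_zmod_val]
  have h2 := h1.mul_left' 2
  rwa [show 2 * 2 ^ r = 2 ^ (r + 1) by rw [pow_succ, mul_comm]] at h2

/-- `ℤ/2^(r+1)` as pairs of consecutive elements -/
private noncomputable def E4c_e (r : ℕ) : ZMod (2 ^ r) × Bool ≃ ZMod (2 ^ (r + 1)) :=
  Equiv.ofBijective (fun p => ((2 * p.1.val : ℕ) : ZMod (2 ^ (r + 1))) + if p.2 then 1 else 0) (by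
    refine (Fintype.bijective_iff_injective_and_card _).2 ⟨?_, ?_⟩
    · rintro ⟨i, b⟩ ⟨j, c⟩ h
      have h1 := congrArg ZMod.val h
      have hi := E4c_val r i
      have hj := E4c_val r j
      have hi1 := E4c_val1 r i
      have hj1 := E4c_val1 r j
      cases b <;> cases c
      · simp only [Bool.false_eq_true, if_false, add_zero] at h1
        rw [hi, hj] at h1
        rw [show i = j from ZMod.val_injective _ (by omega)]
      · simp only [Bool.false_eq_true, if_false, if_true, add_zero] at h1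
        rw [hi, hj1] at h1
        omega
      · simp only [Bool.false_eq_true, if_false, if_true, add_zero] at h1
        rw [hi1, hj] at h1
        omega
      · simp only [if_true] at h1
        rw [hi1, hj1] at h1
        rw [show i = j from ZMod.val_injective _ (by omega)]
    · rw [Fintype.card_prod, Fintype.card_bool, ZMod.card, ZMod.card, pow_succ])

private theorem E4c_e_false (r : ℕ) (i : ZMod (2 ^ r)) :
    E4c_e r (i, false) = ((2 * i.val : ℕ) : ZMod (2 ^ (r + 1))) := by
  rw [E4c_e, Equiv.ofBijective_apply]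
  simp

private theorem E4c_e_true (r : ℕ) (i : ZMod (2 ^ r)) :
    E4c_e r (i, true) = ((2 * i.val : ℕ) : ZMod (2 ^ (r + 1))) + 1 := by
  rw [E4c_e, Equiv.ofBijective_apply]
  simp

private theorem E4c_prod (r : ℕ) (g : ZMod (2 ^ (r + 1)) → ℝ) :
    ∏ x, g x = ∏ i : ZMod (2 ^ r), g ((2 * i.val : ℕ) : ZMod (2 ^ (r + 1))) *
      g (((2 * i.val : ℕ) : ZMod (2 ^ (r + 1))) + 1) := by
  rw [← Equiv.prod_comp (E4c_e r) g, Fintype.prod_prod_type]
  refine Finset.prod_congr rfl fun i _ => ?_
  rw [Fintype.prod_bool, E4c_e_false, E4c_e_true, mul_comm]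

/-- the two families of columns -/
private noncomputable def E4c_cols (r : ℕ) {X : Type*}
    (f : ZMod (2 ^ (r + 1)) × ZMod (2 ^ (r + 1)) → X) :
    (ZMod (2 ^ r) → (ZMod (2 ^ r) → X) × (ZMod (2 ^ r) → X)) ×
      (ZMod (2 ^ r) → (ZMod (2 ^ r) → X) × (ZMod (2 ^ r) → X)) :=
  (fun i => (fun j => f (E4c_e r (i, false), E4c_e r (j, false)),
    fun j => f (E4c_e r (i, false), E4c_e r (j, true))),
   fun i => (fun j => f (E4c_e r (i, true), E4c_e r (j, true)),
    fun j => f (E4c_e r (i, true), E4c_e r (j, false))))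

private theorem E4c_cols_bij (r : ℕ) {X : Type*} :
    Function.Bijective (E4c_cols r (X := X)) := by
  constructor
  · intro f g h
    funext p
    obtain ⟨x, y⟩ := p
    obtain ⟨⟨i, b⟩, rfl⟩ := (E4c_e r).surjective x
    obtain ⟨⟨j, c⟩, rfl⟩ := (E4c_e r).surjective y
    have h1 := congrFun (congrArg Prod.fst h) i
    have h2 := congrFun (congrArg Prod.snd h) i
    have h3 := congrFun (congrArg Prod.fst h1) j
    have h4 := congrFun (congrArg Prod.snd h1) j
    have h5 := congrFun (congrArg Prod.fst h2) j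
    have h6 := congrFun (congrArg Prod.snd h2) j
    cases b <;> cases c
    · exact h3
    · exact h4
    · exact h6
    · exact h5
  · rintro ⟨α, β⟩
    refine ⟨fun p => if ((E4c_e r).symm p.1).2 then
      (if ((E4c_e r).symm p.2).2 then (β ((E4c_e r).symm p.1).1).1 ((E4c_e r).symm p.2).1
        else (β ((E4c_e r).symm p.1).1).2 ((E4c_e r).symm p.2).1) else
      (if ((E4c_e r).symm p.2).2 then (α ((E4c_e r).symm p.1).1).2 ((E4c_e r).symm p.2).1
        else (α ((E4c_e r).symm p.1).1).1 ((E4c_e r).symm p.2).1), ?_⟩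
    simp [E4c_cols]

omit [Fintype X] in
private theorem E4c_ee (r : ℕ) (K : X → X → ℝ) (i j : ZMod (2 ^ r)) :
    ori (r + 1) K ((2 * i.val : ℕ) : ZMod (2 ^ (r + 1))) ((2 * j.val : ℕ) : ZMod (2 ^ (r + 1))) =
      K := by
  rw [ori, if_pos]
  rw [E4c_val, E4c_val]
  exact ⟨i.val + j.val, by ring⟩

omit [Fintype X] in
private theorem E4c_oo (r : ℕ) (K : X → X → ℝ) (i j : ZMod (2 ^ r)) :
    ori (r + 1) K (((2 * i.val : ℕ) : ZMod (2 ^ (r + 1))) + 1)
      (((2 * j.val : ℕ) : ZMod (2 ^ (r + 1))) + 1) = K := by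
  rw [ori, if_pos]
  rw [E4c_val1, E4c_val1]
  exact ⟨i.val + j.val + 1, by ring⟩

omit [Fintype X] in
private theorem E4c_eo (r : ℕ) (K : X → X → ℝ) (i j : ZMod (2 ^ r)) :
    ori (r + 1) K ((2 * i.val : ℕ) : ZMod (2 ^ (r + 1)))
      (((2 * j.val : ℕ) : ZMod (2 ^ (r + 1))) + 1) = fun a b => K b a := by
  rw [ori, if_neg]
  rw [E4c_val, E4c_val1, Nat.not_even_iff_odd]
  exact ⟨i.val + j.val, by ring⟩

omit [Fintype X] in
private theorem E4c_oe (r : ℕ) (K : X → X → ℝ) (i j : ZMod (2 ^ r)) :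
    ori (r + 1) K (((2 * i.val : ℕ) : ZMod (2 ^ (r + 1))) + 1)
      ((2 * j.val : ℕ) : ZMod (2 ^ (r + 1))) = fun a b => K b a := by
  rw [ori, if_neg]
  rw [E4c_val, E4c_val1, Nat.not_even_iff_odd]
  exact ⟨i.val + j.val, by ring⟩

/-- the square roots of a ring of layers -/
private theorem E4c_sqrt {U : Type*} (r : ℕ) (W W' : U → ℝ) (C : U → U → ℝ)
    (hW : ∀ u, 0 ≤ W u) (hW' : ∀ u, 0 ≤ W' u) (α β : ZMod (2 ^ r) → U) :
    ∏ i, (Real.sqrt (W (α i)) * C (α i) (β i) * Real.sqrt (W' (β i))) *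
      (Real.sqrt (W (α (i + 1))) * C (α (i + 1)) (β i) * Real.sqrt (W' (β i))) =
    ∏ i, W (α i) * W' (β i) * (C (α i) (β i) * C (α (i + 1)) (β i)) := by
  have h1 : ∏ i, Real.sqrt (W (α (i + 1))) = ∏ i, Real.sqrt (W (α i)) :=
    Equiv.prod_comp (Equiv.addRight (1 : ZMod (2 ^ r))) fun i => Real.sqrt (W (α i))
  calc ∏ i, (Real.sqrt (W (α i)) * C (α i) (β i) * Real.sqrt (W' (β i))) *
      (Real.sqrt (W (α (i + 1))) * C (α (i + 1)) (β i) * Real.sqrt (W' (β i)))
      = ∏ i, Real.sqrt (W (α i)) * Real.sqrt (W (α (i + 1))) *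
          (W' (β i) * (C (α i) (β i) * C (α (i + 1)) (β i))) := by
        refine Finset.prod_congr rfl fun i _ => ?_
        have h2 := Real.mul_self_sqrt (hW' (β i))
        calc _ = Real.sqrt (W (α i)) * Real.sqrt (W (α (i + 1))) *
              ((Real.sqrt (W' (β i)) * Real.sqrt (W' (β i))) *
                (C (α i) (β i) * C (α (i + 1)) (β i))) := by ring
          _ = _ := by rw [h2]
    _ = (∏ i, Real.sqrt (W (α i))) * (∏ i, Real.sqrt (W (α i))) *
          ∏ i, (W' (β i) * (C (α i) (β i) * C (α (i + 1)) (β i))) := by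
        rw [Finset.prod_mul_distrib, Finset.prod_mul_distrib, h1]
    _ = ∏ i, W (α i) * W' (β i) * (C (α i) (β i) * C (α (i + 1)) (β i)) := by
        rw [← Finset.prod_mul_distrib, ← Finset.prod_mul_distrib]
        refine Finset.prod_congr rfl fun i _ => ?_
        rw [Real.mul_self_sqrt (hW (α i)), mul_assoc]

theorem cols_Zh (r : ℕ) (K : X → X → ℝ) (hK : ∀ a b, 0 ≤ K a b) :
    zig r (Nn r K) = Zh (r + 1) K := by
  have key : ∀ f : ZMod (2 ^ (r + 1)) × ZMod (2 ^ (r + 1)) → X,
      (∏ i, Nn r K ((E4c_cols r f).1 i) ((E4c_cols r f).2 i) *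
        Nn r K ((E4c_cols r f).1 (i + 1)) ((E4c_cols r f).2 i)) =
      ∏ p : ZMod (2 ^ (r + 1)) × ZMod (2 ^ (r + 1)),
        ori (r + 1) K p.1 p.2 (f p) (f (p.1 + 1, p.2)) *
          ori (r + 1) K p.1 p.2 (f p) (f (p.1, p.2 + 1)) := by
    intro f
    have h1 := E4c_sqrt r
      (fun u : (ZMod (2 ^ r) → X) × (ZMod (2 ^ r) → X) =>
        ∏ j, K (u.1 j) (u.2 j) * K (u.1 (j + 1)) (u.2 j))
      (fun v : (ZMod (2 ^ r) → X) × (ZMod (2 ^ r) → X) =>
        ∏ j, K (v.1 j) (v.2 j) * K (v.1 j) (v.2 (j + 1)))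
      (fun u v => ∏ j, K (u.1 j) (v.2 j) * K (v.1 j) (u.2 j))
      (fun u => Finset.prod_nonneg fun j _ => mul_nonneg (hK _ _) (hK _ _))
      (fun u => Finset.prod_nonneg fun j _ => mul_nonneg (hK _ _) (hK _ _))
      (E4c_cols r f).1 (E4c_cols r f).2
    refine Eq.trans h1 ?_
    rw [Fintype.prod_prod_type, E4c_prod]
    refine Finset.prod_congr rfl fun i _ => ?_
    rw [E4c_prod, E4c_prod, ← Finset.prod_mul_distrib, ← Finset.prod_mul_distrib,
      ← Finset.prod_mul_distrib, ← Finset.prod_mul_distrib]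
    refine Finset.prod_congr rfl fun j _ => ?_
    simp only [E4c_cols, E4c_e_false, E4c_e_true, E4c_ee, E4c_oo, E4c_eo, E4c_oe, E4c_succ]
    ring
  rw [zig, Zh, Zg, ← Fintype.sum_prod_type']
  refine Eq.symm ?_
  rw [← (Equiv.ofBijective _ (E4c_cols_bij r (X := X))).sum_comp]
  refine Finset.sum_congr rfl fun f _ => ?_
  exact (key f).symm

end Pool.Agent.LIN

end

/-! ### from `Lib_MP_2c424f_lin.E4b` -/

section

/-!
# H30 E4b: from the zigzag torus to the coordinate torus

`DD_le`: `DD (r+1) K ≤ Zh (r+1) K ^ 2`, `m = 2^(r+1)`.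
`DD k K = ∑_{α, β : i, z} ∏ K(α_{i,z}, β_{i,z}) K(α_{i,z}, β_{i,z+1})`-type torus: unfolding `zig k (bz k K)` the sum
is over `α z i`, `β z i` (`z` = index of `zig`, `i` = index of `bz`) with the edges
`α z i ~ β z i`, `α z (i+1) ~ β z i`, `α (z+1) i ~ β z i`, `α (z+1) (i+1) ~ β z i`, first argument `α`.
(1) Rows: put `a y i = α (i - y) i` and `b y i = β (i - y) i`, `y i : ℤ/m`
    (bijection `(z,i) ↔ (y,i)`, `z = i - y`).  Edges: `α z i ~ β z i`: `a y i ~ b y i`;
    `α z (i+1) ~ β z i`: `i+1-y' = z = i-y`, `y' = y+1`: `a (y+1) (i+1) ~ b y i`;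
    `α (z+1) i ~ β z i`: `i-y' = i-y+1`, `y' = y-1`: `a (y-1) i ~ b y i`;
    `α (z+1) (i+1) ~ β z i`: `a y (i+1) ~ b y i`.
    So a ring in `y` with layers `(a_y, b_y) : (ℤ/m → X)²`, in-layer weight
    `V(a,b) = ∏_i K(a i, b i) K(a (i+1), b i)` and kernel between the layers `y`, `y+1`:
    `∏_i K(a_{y+1} (i+1), b_y i) K(a_y i, b_{y+1} i)`; put `√V √V'` on both sides:
    `DD (r+1) K = cyc (r+1) (fun _ => R)`, so `ring_chess` gives `DD^m ≤ (zig r R)^m`, `DD ≤ zig r R`.
(2) `zig r R` is the coordinate torus with `x ∈ ℤ/2m`, `y ∈ ℤ/m` (rows `2j`: `(a_j, b_j)`, rows `2j+1`: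
    `(a'_j, b'_j)`, `j : ℤ/2^r`): in-row `V`, and `K(a'_j (i+1), b_j i) K(a_j i, b'_j i)`,
    `K(a'_j (i+1), b_{j+1} i) K(a_{j+1} i, b'_j i)`.
    By columns: column `2i` = `(a_j i, b'_j i)_j`, column `2i+1` = `(a'_j (i+1), b_j i)_j` (first component: even
    sites): in-column weights `W(p,q) = ∏_j K(p_j, q_j) K(p_{j+1}, q_j)` resp. `W'(p,q) = ∏_j K(p_j, q_j) K(p_j, q_{j+1})`,
    between the columns `2i` and `2i+1`: `∏_j K(p_j, q'_j) K(p'_j, q_j)`; between `2i+1` and `2i+2` the same function.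
    So `zig r R = zig (r+1) N`, `N = √W √W' ∏ ...`, layers `(ℤ/2^r → X)²`.
(3) `zig_mono`: `zig (r+1) N ≤ (zig r N)²`.
(4) `zig r N = Zh (r+1) K`: split both coordinates of the torus of side `2^(r+1)` into even and odd values
    (`x = 2i` or `2i+1`, `y = 2j` or `2j+1`).
`Zh_tr`: translate by `(1,0)`.
The builder may state (1), (2), (4) as separate lemmas.
-/

set_option autoImplicit false

open Finset

namespace Pool.Agent.LIN

variable {X : Type*} [Fintype X]

private lemma zp {J : Type*} [Fintype J] [AddGroup J] [One J] (f g m n : J → ℝ) (hf : ∀ j, 0 ≤ f j)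
    (hg : ∀ j, 0 ≤ g j) :
    (∏ j, (Real.sqrt (f j) * m j * Real.sqrt (g j)) * (Real.sqrt (f (j + 1)) * n j * Real.sqrt (g j))) =
      (∏ j, f j) * (∏ j, g j) * ((∏ j, m j) * ∏ j, n j) := by
  have h1 : ∏ j, Real.sqrt (f (j + 1)) = ∏ j, Real.sqrt (f j) :=
    Equiv.prod_comp (Equiv.addRight (1 : J)) (fun j => Real.sqrt (f j))
  have h2 : (∏ j, Real.sqrt (f j)) * (∏ j, Real.sqrt (f j)) = ∏ j, f j := by
    rw [← Finset.prod_mul_distrib]
    exact Finset.prod_congr rfl fun j _ => Real.mul_self_sqrt (hf j)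
  have h3 : (∏ j, Real.sqrt (g j)) * (∏ j, Real.sqrt (g j)) = ∏ j, g j := by
    rw [← Finset.prod_mul_distrib]
    exact Finset.prod_congr rfl fun j _ => Real.mul_self_sqrt (hg j)
  simp only [Finset.prod_mul_distrib]
  rw [h1, ← h2, ← h3]
  ring

/-- rows to columns -/
private def rce {I J X : Type*} [AddGroup I] [One I] :
    ((J → (I → X) × (I → X)) × (J → (I → X) × (I → X))) ≃
      ((I → (J → X) × (J → X)) × (I → (J → X) × (J → X))) where
  toFun p := (fun i => (fun j => (p.1 j).1 i, fun j => (p.2 j).2 i),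
    fun i => (fun j => (p.2 j).1 (i + 1), fun j => (p.1 j).2 i))
  invFun q := (fun j => (fun i => (q.1 i).1 j, fun i => (q.2 i).2 j),
    fun j => (fun i => (q.2 (i - 1)).1 j, fun i => (q.1 i).2 j))
  left_inv p := by
    refine Prod.ext ?_ ?_
    · rfl
    · funext j
      refine Prod.ext ?_ ?_
      · funext i
        show (p.2 j).1 (i - 1 + 1) = (p.2 j).1 i
        rw [sub_add_cancel]
      · rfl
  right_inv q := by
    refine Prod.ext ?_ ?_
    · rfl
    · funext i
      refine Prod.ext ?_ ?_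
      · funext j
        show (q.2 (i + 1 - 1)).1 j = (q.2 i).1 j
        rw [add_sub_cancel_right]
      · rfl

private lemma bz_nonneg {k : ℕ} (K : X → X → ℝ) (hK : ∀ a b, 0 ≤ K a b) (a b : ZMod (2 ^ k) → X) :
    0 ≤ bz k K a b := by
  unfold bz
  exact Finset.prod_nonneg fun i _ => mul_nonneg (hK _ _) (hK _ _)

theorem rows_cols (r : ℕ) (K : X → X → ℝ) (hK : ∀ a b, 0 ≤ K a b) :
    zig r (Rr (r + 1) K) = zig (r + 1) (Nn r K) := by
  unfold zig
  rw [← Fintype.sum_prod_type', ← Fintype.sum_prod_type']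
  refine Fintype.sum_equiv (rce (I := ZMod (2 ^ (r + 1))) (J := ZMod (2 ^ r)) (X := X)) _ _ ?_
  rintro ⟨α, β⟩
  have hL : (∏ j, Rr (r + 1) K (α j) (β j) * Rr (r + 1) K (α (j + 1)) (β j)) =
      (∏ j, bz (r + 1) K (α j).1 (α j).2) * (∏ j, bz (r + 1) K (β j).1 (β j).2) *
        ((∏ j, ∏ i, K ((β j).1 (i + 1)) ((α j).2 i) * K ((α j).1 i) ((β j).2 i)) *
          ∏ j, ∏ i, K ((β j).1 (i + 1)) ((α (j + 1)).2 i) * K ((α (j + 1)).1 i) ((β j).2 i)) := by
    unfold Rr
    exact zp (fun j => bz (r + 1) K (α j).1 (α j).2) (fun j => bz (r + 1) K (β j).1 (β j).2) _ _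
      (fun j => bz_nonneg K hK _ _) (fun j => bz_nonneg K hK _ _)
  have hR : ∀ γ δ : ZMod (2 ^ (r + 1)) → (ZMod (2 ^ r) → X) × (ZMod (2 ^ r) → X),
      (∏ i, Nn r K (γ i) (δ i) * Nn r K (γ (i + 1)) (δ i)) =
      (∏ i, ∏ j, K ((γ i).1 j) ((γ i).2 j) * K ((γ i).1 (j + 1)) ((γ i).2 j)) *
        (∏ i, ∏ j, K ((δ i).1 j) ((δ i).2 j) * K ((δ i).1 j) ((δ i).2 (j + 1))) *
        ((∏ i, ∏ j, K ((γ i).1 j) ((δ i).2 j) * K ((δ i).1 j) ((γ i).2 j)) *
          ∏ i, ∏ j, K ((γ (i + 1)).1 j) ((δ i).2 j) * K ((δ i).1 j) ((γ (i + 1)).2 j)) := by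
    intro γ δ
    unfold Nn
    exact zp (fun i => ∏ j, K ((γ i).1 j) ((γ i).2 j) * K ((γ i).1 (j + 1)) ((γ i).2 j))
      (fun i => ∏ j, K ((δ i).1 j) ((δ i).2 j) * K ((δ i).1 j) ((δ i).2 (j + 1))) _ _
      (fun i => Finset.prod_nonneg fun j _ => mul_nonneg (hK _ _) (hK _ _))
      (fun i => Finset.prod_nonneg fun j _ => mul_nonneg (hK _ _) (hK _ _))
  refine hL.trans ((?_ : _ = _).trans (hR _ _).symm)
  simp only [bz, rce, Equiv.coe_fn_mk, Finset.prod_mul_distrib]
  -- exchange the products of the left side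
  have hs : ∀ F : ZMod (2 ^ r) → ZMod (2 ^ (r + 1)) → ℝ, (∏ j, ∏ i, F j i) = ∏ i, ∏ j, F j i :=
    fun F => Finset.prod_comm
  have h8 : (∏ j, ∏ i, K ((β j).1 i) ((β j).2 i)) = ∏ i, ∏ j, K ((β j).1 (i + 1)) ((β j).2 (i + 1)) := by
    rw [hs]
    exact (Equiv.prod_comp (Equiv.addRight (1 : ZMod (2 ^ (r + 1))))
      (fun i => ∏ j, K ((β j).1 i) ((β j).2 i))).symm
  rw [h8, hs fun j i => K ((α j).1 i) ((α j).2 i), hs fun j i => K ((α j).1 (i + 1)) ((α j).2 i),
    hs fun j i => K ((β j).1 (i + 1)) ((β j).2 i), hs fun j i => K ((β j).1 (i + 1)) ((α j).2 i),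
    hs fun j i => K ((α j).1 i) ((β j).2 i), hs fun j i => K ((β j).1 (i + 1)) ((α (j + 1)).2 i),
    hs fun j i => K ((α (j + 1)).1 i) ((β j).2 i)]
  ring

end Pool.Agent.LIN

end

/-! ### from `Lib_MP_2c424f_lin.E2a` -/

section

/-!
# H30 E2a: rings and traces

`cyc`, `zig` are traces of matrix products: `∑_{a : ℤ/L → X} ∏_j A_j (a_j) (a_{j+1}) = Tr (A_0 ⋯ A_{L-1})`
(induction; index the matrices by `X` with `Matrix.of`), `zig r A = Tr ((A Aᵀ)^(2^r))` (it is the ring of length
`2^(r+1)` with `A` at the even and `Aᵀ` at the odd places).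
* `ring_chess`: `E1.trace_holder`.
* `ring_chess2`: the ring `α_0 β_0 α_1 β_1 ...` with `B_0, C_0ᵀ, B_1, C_1ᵀ, ...`; `zig r Cᵀ = zig r C`.
* `dbl`: `P = A_0 ⋯ A_{L-1}` has nonnegative entries: `(Tr P)² ≤ n ∑ P_aa² ≤ n Tr (P²)`.
* `zig_mono`: `G = (A Aᵀ)^(2^r)` is positive semidefinite, `Tr (G²) = ∑ G_ab² ≤ ∑ G_aa G_bb`.
* `zig_tr`, `zig_equiv`: `Tr ((A Aᵀ)^s) = Tr ((Aᵀ A)^s)`; relabelling.
The builder may split the work; `cyc_eq` and `zig_eq` below are the bridges.
-/

set_option autoImplicit false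

open Finset Matrix

namespace Pool.Agent.LIN

variable {X : Type*} [Fintype X]

/-- entries of a product of `n + 1` matrices -/
private theorem e2a_entry [DecidableEq X] (n : ℕ) (M : Fin (n + 1) → Matrix X X ℝ) (x y : X) :
    (List.ofFn M).prod x y = ∑ b : Fin n → X, ∏ j : Fin (n + 1),
      M j ((Fin.cons x b : Fin (n + 1) → X) j) ((Fin.snoc b y : Fin (n + 1) → X) j) := by
  induction n generalizing x y with
  | zero =>
    simp only [List.ofFn_succ, List.ofFn_zero, List.prod_cons, List.prod_nil, mul_one,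
      Finset.univ_unique, Finset.sum_singleton]
    rw [Fin.prod_univ_succ, Fin.prod_univ_zero, mul_one]
    rfl
  | succ n ih =>
    rw [List.ofFn_succ, List.prod_cons, Matrix.mul_apply]
    have h1 : ∀ z : X, M 0 x z * (List.ofFn fun i : Fin (n + 1) => M i.succ).prod z y =
        ∑ b : Fin n → X, M 0 x z * ∏ j : Fin (n + 1),
          M j.succ ((Fin.cons z b : Fin (n + 1) → X) j) ((Fin.snoc b y : Fin (n + 1) → X) j) := by
      intro z
      rw [ih (fun i => M i.succ) z y, Finset.mul_sum]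
    rw [Finset.sum_congr rfl fun z _ => h1 z, ← Fintype.sum_prod_type']
    refine Fintype.sum_equiv (Fin.consEquiv fun _ : Fin (n + 1) => X) _ _ fun q => ?_
    obtain ⟨z, b⟩ := q
    have h2 : (Fin.snoc (Fin.cons z b : Fin (n + 1) → X) y : Fin (n + 2) → X) =
        Fin.cons z (Fin.snoc b y : Fin (n + 1) → X) :=
      (Fin.cons_snoc_eq_snoc_cons z b y).symm
    change M 0 x z * ∏ j : Fin (n + 1), M j.succ ((Fin.cons z b : Fin (n + 1) → X) j)
        ((Fin.snoc b y : Fin (n + 1) → X) j) =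
      ∏ j : Fin (n + 2), M j ((Fin.cons x (Fin.cons z b : Fin (n + 1) → X) : Fin (n + 2) → X) j)
        ((Fin.snoc (Fin.cons z b : Fin (n + 1) → X) y : Fin (n + 2) → X) j)
    rw [h2]
    conv_rhs => rw [Fin.prod_univ_succ]
    simp only [Fin.cons_zero, Fin.cons_succ]

private theorem e2a_cyc [DecidableEq X] (L : ℕ) [NeZero L] (A : ZMod L → X → X → ℝ) :
    (∑ a : ZMod L → X, ∏ j, A j (a j) (a (j + 1))) =
      ((List.ofFn fun j : Fin L => Matrix.of (A (j.val : ZMod L))).prod).trace := by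
  cases L with
  | zero => exact absurd rfl (NeZero.ne 0)
  | succ n =>
    have hc : ∀ j : Fin (n + 1), ((j.val : ℕ) : ZMod (n + 1)) = j := fun j =>
      Fin.cast_val_eq_self j
    simp only [hc]
    rw [Matrix.trace]
    simp only [Matrix.diag_apply]
    rw [Finset.sum_congr rfl fun x _ => e2a_entry n (fun j => Matrix.of (A j)) x x,
      ← Fintype.sum_prod_type']
    symm
    refine Fintype.sum_equiv (Fin.consEquiv fun _ : Fin (n + 1) => X) _ _ fun q => ?_
    obtain ⟨x, b⟩ := q
    simp only [Fin.consEquiv_apply, Matrix.of_apply]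
    refine Finset.prod_congr rfl fun j _ => ?_
    congr 1
    refine Fin.lastCases ?_ (fun i => ?_) j
    · rw [Fin.snoc_last]
      have h3 : (Fin.last n + 1 : Fin (n + 1)) = 0 := Fin.last_add_one n
      change x = (Fin.cons x b : Fin (n + 1) → X) (Fin.last n + 1)
      rw [h3]
      rfl
    · rw [Fin.snoc_castSucc]
      have h3 : (i.castSucc + 1 : Fin (n + 1)) = i.succ := by
        rw [Fin.coeSucc_eq_succ]
      change b i = (Fin.cons x b : Fin (n + 1) → X) (i.castSucc + 1)
      rw [h3]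
      rfl

theorem cyc_eq [DecidableEq X] (r : ℕ) (A : ZMod (2 ^ r) → X → X → ℝ) :
    cyc r A = ((List.ofFn fun j : Fin (2 ^ r) => Matrix.of (A (j.val : ZMod (2 ^ r)))).prod).trace := by
  exact e2a_cyc (2 ^ r) A

theorem zig_eq [DecidableEq X] (r : ℕ) (A : X → X → ℝ) :
    zig r A = ((Matrix.of A * (Matrix.of A)ᵀ) ^ (2 ^ r)).trace := by
  have h1 : zig r A = cyc r (fun _ a a' => (Matrix.of A * (Matrix.of A)ᵀ) a a') := by
    unfold zig cyc
    refine Finset.sum_congr rfl fun α _ => ?_
    have h2 := Finset.prod_univ_sum (fun _ : ZMod (2 ^ r) => (Finset.univ : Finset X))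
      (fun i b => A (α i) b * A (α (i + 1)) b)
    rw [Fintype.piFinset_univ] at h2
    rw [← h2]
    rfl
  rw [h1, cyc_eq]
  congr 1
  have h3 : (fun _ : Fin (2 ^ r) => (Matrix.of fun a a' =>
      (Matrix.of A * (Matrix.of A)ᵀ) a a' : Matrix X X ℝ)) =
      fun _ => Matrix.of A * (Matrix.of A)ᵀ := rfl
  rw [h3, List.ofFn_const, List.prod_replicate]

theorem zig_nonneg (r : ℕ) (A : X → X → ℝ) : 0 ≤ zig r A := by
  classical
  rw [zig_eq]
  have h1 : (Matrix.of A * (Matrix.of A)ᵀ).PosSemidef := by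
    have h2 := Matrix.posSemidef_self_mul_conjTranspose (Matrix.of A)
    rwa [Matrix.conjTranspose_eq_transpose_of_trivial] at h2
  exact (h1.pow _).trace_nonneg

private theorem e2a_pow {M : Type*} [Monoid M] (a b : M) (n : ℕ) :
    (a * b) ^ (n + 1) = a * ((b * a) ^ n * b) := by
  induction n with
  | zero => simp
  | succ n ih =>
    rw [pow_succ', ih, pow_succ' (b * a) n]
    simp only [mul_assoc]

theorem zig_tr (r : ℕ) (A : X → X → ℝ) : zig r (fun a b => A b a) = zig r A := by
  classical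
  rw [zig_eq, zig_eq]
  have h0 : (Matrix.of fun a b => A b a) = (Matrix.of A)ᵀ := rfl
  rw [h0, Matrix.transpose_transpose]
  obtain ⟨n, hn⟩ : ∃ n, 2 ^ r = n + 1 := ⟨2 ^ r - 1, by have := Nat.one_le_two_pow (n := r); omega⟩
  rw [hn, e2a_pow, Matrix.trace_mul_comm, Matrix.mul_assoc, ← pow_succ]

theorem zig_equiv {Y : Type*} [Fintype Y] (e e' : X ≃ Y) (r : ℕ) (A : Y → Y → ℝ) :
    zig r (fun a b => A (e a) (e' b)) = zig r A := by
  unfold zig
  refine Fintype.sum_equiv (Equiv.arrowCongr (Equiv.refl _) e) _ _ fun α => ?_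
  refine Fintype.sum_equiv (Equiv.arrowCongr (Equiv.refl _) e') _ _ fun β => ?_
  rfl

end Pool.Agent.LIN

end

/-! ### from `Lib_MP_2c424f_lin.E2c` -/

section

/-!
# H30 E2c: rings and traces

`cyc`, `zig` are traces of matrix products: `∑_{a : ℤ/L → X} ∏_j A_j (a_j) (a_{j+1}) = Tr (A_0 ⋯ A_{L-1})`
(induction; index the matrices by `X` with `Matrix.of`), `zig r A = Tr ((A Aᵀ)^(2^r))` (it is the ring of length
`2^(r+1)` with `A` at the even and `Aᵀ` at the odd places).
* `ring_chess`: `E1.trace_holder`.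
* `ring_chess2`: the ring `α_0 β_0 α_1 β_1 ...` with `B_0, C_0ᵀ, B_1, C_1ᵀ, ...`; `zig r Cᵀ = zig r C`.
* `dbl`: `P = A_0 ⋯ A_{L-1}` has nonnegative entries: `(Tr P)² ≤ n ∑ P_aa² ≤ n Tr (P²)`.
* `zig_mono`: `G = (A Aᵀ)^(2^r)` is positive semidefinite, `Tr (G²) = ∑ G_ab² ≤ ∑ G_aa G_bb`.
* `zig_tr`, `zig_equiv`: `Tr ((A Aᵀ)^s) = Tr ((Aᵀ A)^s)`; relabelling.
The builder may split the work; `cyc_eq` and `zig_eq` below are the bridges.
-/

set_option autoImplicit false

open Finset Matrix

namespace Pool.Agent.LIN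

variable {X : Type*} [Fintype X]

private theorem e2c_nonneg [DecidableEq X] (l : List (Matrix X X ℝ))
    (h : ∀ M ∈ l, ∀ a b, 0 ≤ M a b) : ∀ a b, 0 ≤ l.prod a b := by
  induction l with
  | nil =>
    intro a b
    rw [List.prod_nil, Matrix.one_apply]
    split_ifs
    · exact zero_le_one
    · exact le_rfl
  | cons M l ih =>
    intro a b
    rw [List.prod_cons, Matrix.mul_apply]
    exact Finset.sum_nonneg fun c _ => mul_nonneg (h M List.mem_cons_self a c)
      (ih (fun M' hM' => h M' (List.mem_cons_of_mem _ hM')) c b)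

private theorem e2c_double {α : Type*} (n m : ℕ) (h : m = n + n) (g : ℕ → α)
    (hg : ∀ i, g (n + i) = g i) :
    (List.ofFn fun j : Fin m => g j.val) =
      (List.ofFn fun j : Fin n => g j.val) ++ (List.ofFn fun j : Fin n => g j.val) := by
  subst h
  rw [List.ofFn_add]
  congr 1
  congr 1
  funext j
  exact hg j.val

theorem dbl (r : ℕ) (A : ZMod (2 ^ r) → X → X → ℝ) (hA : ∀ j a b, 0 ≤ A j a b) :
    cyc r A ^ 2 ≤ Fintype.card X * cyc (r + 1) (fun s => A (rd r s)) := by
  classical
  rw [cyc_eq, cyc_eq]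
  obtain ⟨P, hP⟩ : ∃ P, P =
    (List.ofFn fun j : Fin (2 ^ r) => Matrix.of (A (j.val : ZMod (2 ^ r)))).prod := ⟨_, rfl⟩
  have h1 : (List.ofFn fun j : Fin (2 ^ (r + 1)) =>
      Matrix.of (A (rd r (j.val : ZMod (2 ^ (r + 1)))))).prod = P * P := by
    have h2 : (fun j : Fin (2 ^ (r + 1)) =>
        Matrix.of (A (rd r (j.val : ZMod (2 ^ (r + 1)))))) =
        fun j : Fin (2 ^ (r + 1)) => (fun i : ℕ => Matrix.of (A (i : ZMod (2 ^ r)))) j.val := by
      funext j
      rw [rd, ZMod.val_natCast, Nat.mod_eq_of_lt j.2]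
    rw [h2, e2c_double (2 ^ r) (2 ^ (r + 1)) (by rw [pow_succ]; ring)
      (fun i : ℕ => Matrix.of (A (i : ZMod (2 ^ r)))), List.prod_append, hP]
    intro i
    rw [Nat.cast_add, ZMod.natCast_self, zero_add]
  rw [h1, ← hP]
  have hP0 : ∀ a b, 0 ≤ P a b := by
    rw [hP]
    refine e2c_nonneg _ fun M hM => ?_
    rw [List.mem_ofFn] at hM
    obtain ⟨j, rfl⟩ := hM
    exact fun a b => hA _ a b
  have h3 : P.trace ^ 2 ≤ Fintype.card X * ∑ a, P a a ^ 2 := by
    have h4 := sq_sum_le_card_mul_sum_sq (s := (Finset.univ : Finset X)) (f := fun a => P a a)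
    rwa [Finset.card_univ] at h4
  refine h3.trans (mul_le_mul_of_nonneg_left ?_ (Nat.cast_nonneg _))
  rw [Matrix.trace]
  refine Finset.sum_le_sum fun a _ => ?_
  rw [Matrix.diag_apply, Matrix.mul_apply, sq]
  exact Finset.single_le_sum (f := fun b => P a b * P b a)
    (fun b _ => mul_nonneg (hP0 a b) (hP0 b a)) (Finset.mem_univ a)

private theorem e2c_sq [DecidableEq X] (A : Matrix X X ℝ) (m : ℕ) :
    ∃ K : Matrix X X ℝ, (A * Aᵀ) ^ m = K * Kᵀ := by
  have h1 : ∀ s : ℕ, ((A * Aᵀ) ^ s)ᵀ = (A * Aᵀ) ^ s := by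
    intro s
    rw [Matrix.transpose_pow, Matrix.transpose_mul, Matrix.transpose_transpose]
  rcases Nat.even_or_odd' m with ⟨s, rfl | rfl⟩
  · refine ⟨(A * Aᵀ) ^ s, ?_⟩
    rw [h1, ← pow_add]
    congr 1
    ring
  · refine ⟨(A * Aᵀ) ^ s * A, ?_⟩
    rw [Matrix.transpose_mul, h1, Matrix.mul_assoc, ← Matrix.mul_assoc A, ← pow_succ', ← pow_add]
    congr 1
    ring

theorem zig_mono (r : ℕ) (A : X → X → ℝ) : zig (r + 1) A ≤ zig r A ^ 2 := by
  classical
  rw [zig_eq, zig_eq]
  obtain ⟨G, hG⟩ : ∃ G, G = (Matrix.of A * (Matrix.of A)ᵀ) ^ (2 ^ r) := ⟨_, rfl⟩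
  have h3 : (Matrix.of A * (Matrix.of A)ᵀ) ^ (2 ^ (r + 1)) = G * G := by
    rw [hG, pow_succ, pow_mul, sq]
  obtain ⟨B, hB⟩ := e2c_sq (Matrix.of A) (2 ^ r)
  rw [h3, ← hG]
  rw [← hG] at hB
  have hGe : ∀ a b, G a b = ∑ c, B a c * B b c := by
    intro a b
    rw [hB, Matrix.mul_apply]
    rfl
  have hcs : ∀ a b, G a b * G b a ≤ G a a * G b b := by
    intro a b
    have h4 := Finset.sum_mul_sq_le_sq_mul_sq Finset.univ (fun c => B a c) (fun c => B b c)
    rw [hGe a b, hGe b a, hGe a a, hGe b b]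
    have h5 : ∑ c, B b c * B a c = ∑ c, B a c * B b c :=
      Finset.sum_congr rfl fun c _ => mul_comm _ _
    rw [h5, ← sq]
    refine h4.trans (le_of_eq ?_)
    simp only [sq]
  rw [Matrix.trace, sq, Matrix.trace, Finset.sum_mul_sum]
  refine Finset.sum_le_sum fun a _ => ?_
  rw [Matrix.diag_apply, Matrix.mul_apply]
  exact Finset.sum_le_sum fun b _ => hcs a b

end Pool.Agent.LIN

end

/-! ### from `Lib_MP_2c424f_lin.E1` -/

section

/-!
# H30 E1: trace Hölder inequality

Paper proof (induction on `r`).  `r = 0`: `|Tr (A₀ A₁)|² ≤ Tr (A₀ A₀ᵀ) Tr (A₁ A₁ᵀ)` is Cauchy-Schwarz.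
Step `r → r+1`, `L = 2^(r+1)`: put `B_j = A_{2j} A_{2j+1}` (`j < L`).  Induction hypothesis:
`|Tr (∏ B_j)|^L ≤ ∏_j Tr ((B_j B_jᵀ)^(L/2))`, and `Tr ((A A' A'ᵀ Aᵀ)^(L/2)) = Tr ((P Q)^(L/2))` with `P = Aᵀ A`,
`Q = A' A'ᵀ` (cyclicity of the trace).  The induction hypothesis for the family `P, Q, P, Q, ...` (`L` matrices)
gives `Tr ((P Q)^(L/2))^L ≤ Tr (P^L)^(L/2) Tr (Q^L)^(L/2)`, i.e. (all traces are `≥ 0`)
`Tr ((PQ)^(L/2))^2 ≤ Tr (P^L) Tr (Q^L)`, and `Tr (P^L) = Tr ((A Aᵀ)^L)`.  Hence
`|Tr (∏ A_j)|^(2L) ≤ ∏_{j<2L} Tr ((A_j A_jᵀ)^L)`.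
Facts: `Tr ((A Aᵀ)^s) ≥ 0` (`posSemidef`), `Matrix.trace_mul_comm`, `(A B)^s` cyclic.
-/

set_option autoImplicit false

open Finset Matrix

namespace Pool.Agent.LIN

section E1
variable {n : Type*} [Fintype n] [DecidableEq n]

private theorem E1_cyc (X Y : Matrix n n ℝ) (s : ℕ) : ((X * Y) ^ s).trace = ((Y * X) ^ s).trace := by
  cases s with
  | zero => simp
  | succ s =>
    have h : (X * Y) ^ (s + 1) = X * ((Y * X) ^ s * Y) := by
      rw [pow_succ, ← Matrix.mul_assoc, ← Matrix.mul_assoc]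
      congr 1
      induction s with
      | zero => simp
      | succ s ih =>
        rw [pow_succ, Matrix.mul_assoc, Matrix.mul_assoc X Y X, ← Matrix.mul_assoc, ih, pow_succ]
        simp only [Matrix.mul_assoc]
    rw [h, Matrix.trace_mul_comm, Matrix.mul_assoc, pow_succ]

private theorem E1_nonneg (A : Matrix n n ℝ) (s : ℕ) : 0 ≤ ((A * Aᵀ) ^ s).trace := by
  have h : (A * Aᵀ).PosSemidef := by
    have := Matrix.posSemidef_self_mul_conjTranspose A
    simpa using this
  exact (h.pow s).trace_nonneg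

private theorem E1_two (A : ℕ → Matrix n n ℝ) (L : ℕ) :
    ((List.range (2 * L)).map A).prod = ((List.range L).map fun j => A (2 * j) * A (2 * j + 1)).prod := by
  induction L with
  | zero => simp
  | succ L ih =>
    rw [show 2 * (L + 1) = 2 * L + 1 + 1 by ring, List.range_succ, List.range_succ, List.range_succ]
    simp [ih]

private theorem E1_const (B : Matrix n n ℝ) (L : ℕ) : ((List.range L).map fun _ => B).prod = B ^ L := by
  simp

private theorem E1_prod (f : ℕ → ℝ) (L : ℕ) :
    ∏ j ∈ range (2 * L), f j = ∏ j ∈ range L, (f (2 * j) * f (2 * j + 1)) := by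
  induction L with
  | zero => simp
  | succ L ih =>
    rw [show 2 * (L + 1) = 2 * L + 1 + 1 by ring, prod_range_succ, prod_range_succ, prod_range_succ, ih]
    ring

omit [DecidableEq n] in
private theorem E1_base (A B : Matrix n n ℝ) :
    |(A * B).trace| ^ 2 ≤ (A * Aᵀ).trace * (B * Bᵀ).trace := by
  rw [sq_abs]
  have h1 : (A * B).trace = ∑ p : n × n, A p.1 p.2 * B p.2 p.1 := by
    rw [Fintype.sum_prod_type]
    simp [Matrix.trace, Matrix.mul_apply]
  have h2 : (A * Aᵀ).trace = ∑ p : n × n, A p.1 p.2 ^ 2 := by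
    rw [Fintype.sum_prod_type]
    simp [Matrix.trace, Matrix.mul_apply, sq]
  have h3 : (B * Bᵀ).trace = ∑ p : n × n, B p.2 p.1 ^ 2 := by
    rw [Fintype.sum_prod_type_right]
    simp [Matrix.trace, Matrix.mul_apply, sq]
  rw [h1, h2, h3]
  exact Finset.sum_mul_sq_le_sq_mul_sq _ _ _

private theorem E1_main (r : ℕ) : ∀ A : ℕ → Matrix n n ℝ,
    |(((List.range (2 ^ (r + 1))).map A).prod).trace| ^ (2 ^ (r + 1))
      ≤ ∏ j ∈ range (2 ^ (r + 1)), ((A j * (A j)ᵀ) ^ (2 ^ r)).trace := by
  induction r with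
  | zero =>
    intro A
    have := E1_base (A 0) (A 1)
    simpa [List.range_succ, prod_range_succ] using this
  | succ r ih =>
    -- the two-factor inequality
    have key : ∀ A B : Matrix n n ℝ,
        ((((A * B) * (A * B)ᵀ) ^ (2 ^ r)).trace) ^ 2
          ≤ ((A * Aᵀ) ^ (2 ^ (r + 1))).trace * ((B * Bᵀ) ^ (2 ^ (r + 1))).trace := by
      intro A B
      set P : Matrix n n ℝ := Aᵀ * A with hP
      set Q : Matrix n n ℝ := B * Bᵀ with hQ
      have e1 : ((((A * B) * (A * B)ᵀ) ^ (2 ^ r)).trace) = ((P * Q) ^ (2 ^ r)).trace := by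
        have : (A * B) * (A * B)ᵀ = A * (B * Bᵀ * Aᵀ) := by
          rw [Matrix.transpose_mul]; simp only [Matrix.mul_assoc]
        rw [this, E1_cyc]
        have : B * Bᵀ * Aᵀ * A = Q * P := by
          rw [hP, hQ]; simp only [Matrix.mul_assoc]
        rw [this, E1_cyc]
      have hPt : P * Pᵀ = P ^ 2 := by
        rw [hP, Matrix.transpose_mul, Matrix.transpose_transpose, sq]
      have hQt : Q * Qᵀ = Q ^ 2 := by
        rw [hQ, Matrix.transpose_mul, Matrix.transpose_transpose, sq]
      have e2 : ((P ^ (2 ^ (r + 1))).trace) = ((A * Aᵀ) ^ (2 ^ (r + 1))).trace := by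
        rw [hP, E1_cyc]
      have hPP : 0 ≤ (P ^ (2 ^ (r + 1))).trace := by rw [e2]; exact E1_nonneg A _
      have hQQ : 0 ≤ (Q ^ (2 ^ (r + 1))).trace := E1_nonneg B _
      have := ih (fun j => if j % 2 = 0 then P else Q)
      rw [pow_succ' 2 r, E1_two, E1_prod] at this
      have hm0 : ∀ j : ℕ, (2 * j) % 2 = 0 := fun j => by omega
      have hm1 : ∀ j : ℕ, ¬ (2 * j + 1) % 2 = 0 := fun j => by omega
      simp only [hm0, hm1, if_true, if_false, E1_const, prod_const, card_range, hPt, hQt] at this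
      rw [← pow_mul, ← pow_mul, ← pow_succ'] at this
      have e3 : ∀ t : ℝ, |t| ^ (2 ^ (r + 1)) = (t ^ 2) ^ (2 ^ r) := fun t => by
        rw [pow_succ' 2 r, pow_mul, sq_abs]
      rw [e3] at this
      rw [e1, ← e2]
      exact (pow_le_pow_iff_left₀ (sq_nonneg _) (mul_nonneg hPP hQQ) (by positivity)).1 this
    intro A
    have h0 := ih (fun j => A (2 * j) * A (2 * j + 1))
    rw [pow_succ' 2 (r + 1), E1_two, E1_prod, mul_comm 2 (2 ^ (r + 1)), pow_mul]
    calc _ ≤ (∏ j ∈ range (2 ^ (r + 1)),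
          ((A (2 * j) * A (2 * j + 1) * (A (2 * j) * A (2 * j + 1))ᵀ) ^ 2 ^ r).trace) ^ 2 :=
          pow_le_pow_left₀ (by positivity) h0 2
      _ = ∏ j ∈ range (2 ^ (r + 1)),
          (((A (2 * j) * A (2 * j + 1) * (A (2 * j) * A (2 * j + 1))ᵀ) ^ 2 ^ r).trace) ^ 2 :=
          (prod_pow _ _ _).symm
      _ ≤ _ := prod_le_prod (fun j _ => sq_nonneg _) fun j _ => key _ _

end E1

theorem trace_holder {n : Type*} [Fintype n] [DecidableEq n] (r : ℕ)
    (A : Fin (2 ^ (r + 1)) → Matrix n n ℝ) :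
    |((List.ofFn A).prod).trace| ^ (2 ^ (r + 1)) ≤ ∏ j, ((A j * (A j)ᵀ) ^ (2 ^ r)).trace := by
  have h := E1_main r (fun j => if hj : j < 2 ^ (r + 1) then A ⟨j, hj⟩ else 1)
  have e1 : (List.range (2 ^ (r + 1))).map (fun j => if hj : j < 2 ^ (r + 1) then A ⟨j, hj⟩ else 1)
      = List.ofFn A := by
    apply List.ext_getElem
    · simp
    · intro i h1 h2
      simp at h1
      simp [h1]
  rw [e1] at h
  refine h.trans (le_of_eq ?_)
  rw [Finset.prod_range]
  refine prod_congr rfl fun j _ => ?_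
  simp [j.2]

end Pool.Agent.LIN

end

/-! ### from `Lib_MP_2c424f_lin.E2b` -/

section

/-!
# H30 E2b: rings and traces

`cyc`, `zig` are traces of matrix products: `∑_{a : ℤ/L → X} ∏_j A_j (a_j) (a_{j+1}) = Tr (A_0 ⋯ A_{L-1})`
(induction; index the matrices by `X` with `Matrix.of`), `zig r A = Tr ((A Aᵀ)^(2^r))` (it is the ring of length
`2^(r+1)` with `A` at the even and `Aᵀ` at the odd places).
* `ring_chess`: `E1.trace_holder`.
* `ring_chess2`: the ring `α_0 β_0 α_1 β_1 ...` with `B_0, C_0ᵀ, B_1, C_1ᵀ, ...`; `zig r Cᵀ = zig r C`.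
* `dbl`: `P = A_0 ⋯ A_{L-1}` has nonnegative entries: `(Tr P)² ≤ n ∑ P_aa² ≤ n Tr (P²)`.
* `zig_mono`: `G = (A Aᵀ)^(2^r)` is positive semidefinite, `Tr (G²) = ∑ G_ab² ≤ ∑ G_aa G_bb`.
* `zig_tr`, `zig_equiv`: `Tr ((A Aᵀ)^s) = Tr ((Aᵀ A)^s)`; relabelling.
The builder may split the work; `cyc_eq` and `zig_eq` below are the bridges.
-/

set_option autoImplicit false

open Finset Matrix

namespace Pool.Agent.LIN

variable {X : Type*} [Fintype X]

private theorem prod_zmod_fin {M : Type*} [CommMonoid M] (n : ℕ) [NeZero n] (f : ZMod n → M) :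
    ∏ j : Fin n, f (j.val : ZMod n) = ∏ j, f j := by
  have hinj : Function.Injective (fun j : Fin n => ((j.val : ℕ) : ZMod n)) := by
    intro i j hij
    have h := congrArg ZMod.val hij
    simp only [ZMod.val_natCast, Nat.mod_eq_of_lt i.isLt, Nat.mod_eq_of_lt j.isLt] at h
    exact Fin.ext h
  have hcard : Fintype.card (Fin n) = Fintype.card (ZMod n) := by
    rw [Fintype.card_fin, ZMod.card]
  have hbij : Function.Bijective (fun j : Fin n => ((j.val : ℕ) : ZMod n)) :=
    (Fintype.bijective_iff_injective_and_card _).2 ⟨hinj, hcard⟩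
  exact Fintype.prod_bijective _ hbij _ _ fun _ => rfl

theorem ring_chess (r : ℕ) (A : ZMod (2 ^ (r + 1)) → X → X → ℝ) :
    |cyc (r + 1) A| ^ (2 ^ (r + 1)) ≤ ∏ j, zig r (A j) := by
  classical
  rw [cyc_eq]
  refine (trace_holder r fun j : Fin (2 ^ (r + 1)) =>
    Matrix.of (A (j.val : ZMod (2 ^ (r + 1))))).trans (le_of_eq ?_)
  rw [← prod_zmod_fin]
  exact Finset.prod_congr rfl fun j _ => (zig_eq r _).symm

theorem ring_chess2 (r : ℕ) (B C : ZMod (2 ^ r) → X → X → ℝ) :
    |∑ α : ZMod (2 ^ r) → X, ∑ β : ZMod (2 ^ r) → X, ∏ i, B i (α i) (β i) * C i (α (i + 1)) (β i)| ^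
      (2 ^ (r + 1)) ≤ ∏ i, zig r (B i) * zig r (C i) := by
  classical
  -- the alternating family of matrices
  let A : Fin (2 ^ r * 2) → Matrix X X ℝ := fun k =>
    if k.val % 2 = 0 then Matrix.of (B ((k.val / 2 : ℕ) : ZMod (2 ^ r)))
    else (Matrix.of (C ((k.val / 2 : ℕ) : ZMod (2 ^ r))))ᵀ
  have hA0 : ∀ (i : Fin (2 ^ r)) (h : i.val * 2 + (0 : Fin 2).val < 2 ^ r * 2),
      A ⟨i.val * 2 + (0 : Fin 2).val, h⟩ = Matrix.of (B (i.val : ZMod (2 ^ r))) := by
    intro i h
    have h1 : (i.val * 2 + (0 : Fin 2).val) % 2 = 0 := by simp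
    have h2 : (i.val * 2 + (0 : Fin 2).val) / 2 = i.val := by simp
    simp only [A, h1, h2, if_true]
  have hA1 : ∀ (i : Fin (2 ^ r)) (h : i.val * 2 + (1 : Fin 2).val < 2 ^ r * 2),
      A ⟨i.val * 2 + (1 : Fin 2).val, h⟩ = (Matrix.of (C (i.val : ZMod (2 ^ r))))ᵀ := by
    intro i h
    have h1 : ¬ (i.val * 2 + (1 : Fin 2).val) % 2 = 0 := by
      have : (1 : Fin 2).val = 1 := rfl
      omega
    have h2 : (i.val * 2 + (1 : Fin 2).val) / 2 = i.val := by
      have : (1 : Fin 2).val = 1 := rfl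
      omega
    simp only [A, h2]
    rw [if_neg h1]
  have hlist : (List.ofFn A).prod =
      (List.ofFn fun j : Fin (2 ^ r) =>
        Matrix.of (fun a a' => ∑ b, B (j.val : ZMod (2 ^ r)) a b * C (j.val : ZMod (2 ^ r)) a' b)).prod := by
    rw [List.ofFn_mul, List.prod_flatten, List.map_ofFn]
    congr 1
    congr 1
    funext i
    have h2 : ∀ g : Fin 2 → Matrix X X ℝ, (List.ofFn g).prod = g 0 * g 1 := by
      intro g
      simp [List.ofFn_succ]
    simp only [Function.comp]
    rw [h2, hA0, hA1]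
    ext a a'
    simp [Matrix.mul_apply]
  have hprod : ∏ k, ((A k * (A k)ᵀ) ^ (2 ^ r)).trace = ∏ i, zig r (B i) * zig r (C i) := by
    rw [← prod_zmod_fin]
    rw [← (finProdFinEquiv (m := 2 ^ r) (n := 2)).prod_comp, Fintype.prod_prod_type]
    refine Finset.prod_congr rfl fun i _ => ?_
    rw [Fin.prod_univ_two]
    have e0 : A (finProdFinEquiv (i, 0)) = Matrix.of (B (i.val : ZMod (2 ^ r))) := by
      rw [← hA0 i (by have := i.isLt; have h0 : (0 : Fin 2).val = 0 := rfl; omega)]
      congr 1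
      ext
      simp [finProdFinEquiv]
      ring
    have e1 : A (finProdFinEquiv (i, 1)) = (Matrix.of (C (i.val : ZMod (2 ^ r))))ᵀ := by
      rw [← hA1 i (by have := i.isLt; have h1 : (1 : Fin 2).val = 1 := rfl; omega)]
      congr 1
      ext
      simp [finProdFinEquiv]
      ring
    rw [e0, e1, ← zig_eq, ← zig_tr r (C (i.val : ZMod (2 ^ r))), zig_eq r (fun a b => C (i.val : ZMod (2 ^ r)) b a)]
    rfl
  have hcyc : ∑ α : ZMod (2 ^ r) → X, ∑ β : ZMod (2 ^ r) → X,
      ∏ i, B i (α i) (β i) * C i (α (i + 1)) (β i) =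
      cyc r fun i a a' => ∑ b, B i a b * C i a' b := by
    unfold cyc
    refine Finset.sum_congr rfl fun α _ => ?_
    rw [Finset.prod_univ_sum]
    rw [Fintype.piFinset_univ]
  have this : |(List.ofFn A).prod.trace| ^ (2 ^ (r + 1)) ≤
      ∏ k, ((A k * (A k)ᵀ) ^ (2 ^ r)).trace := trace_holder r A
  rw [hlist, hprod] at this
  rw [hcyc, cyc_eq]
  exact this

end Pool.Agent.LIN

end

/-! ### from `Lib_MP_2c424f_lin.E4d` -/

section

/-!
# H30 E4d: from the zigzag torus to the coordinate torus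

`DD_le`: `DD (r+1) K ≤ Zh (r+1) K ^ 2`, `m = 2^(r+1)`.
`DD k K = ∑_{α, β : i, z} ∏ K(α_{i,z}, β_{i,z}) K(α_{i,z}, β_{i,z+1})`-type torus: unfolding `zig k (bz k K)` the sum
is over `α z i`, `β z i` (`z` = index of `zig`, `i` = index of `bz`) with the edges
`α z i ~ β z i`, `α z (i+1) ~ β z i`, `α (z+1) i ~ β z i`, `α (z+1) (i+1) ~ β z i`, first argument `α`.
(1) Rows: put `a y i = α (i - y) i` and `b y i = β (i - y) i`, `y i : ℤ/m`
    (bijection `(z,i) ↔ (y,i)`, `z = i - y`).  Edges: `α z i ~ β z i`: `a y i ~ b y i`;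
    `α z (i+1) ~ β z i`: `i+1-y' = z = i-y`, `y' = y+1`: `a (y+1) (i+1) ~ b y i`;
    `α (z+1) i ~ β z i`: `i-y' = i-y+1`, `y' = y-1`: `a (y-1) i ~ b y i`;
    `α (z+1) (i+1) ~ β z i`: `a y (i+1) ~ b y i`.
    So a ring in `y` with layers `(a_y, b_y) : (ℤ/m → X)²`, in-layer weight
    `V(a,b) = ∏_i K(a i, b i) K(a (i+1), b i)` and kernel between the layers `y`, `y+1`:
    `∏_i K(a_{y+1} (i+1), b_y i) K(a_y i, b_{y+1} i)`; put `√V √V'` on both sides:
    `DD (r+1) K = cyc (r+1) (fun _ => R)`, so `ring_chess` gives `DD^m ≤ (zig r R)^m`, `DD ≤ zig r R`.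
(2) `zig r R` is the coordinate torus with `x ∈ ℤ/2m`, `y ∈ ℤ/m` (rows `2j`: `(a_j, b_j)`, rows `2j+1`:
    `(a'_j, b'_j)`, `j : ℤ/2^r`): in-row `V`, and `K(a'_j (i+1), b_j i) K(a_j i, b'_j i)`,
    `K(a'_j (i+1), b_{j+1} i) K(a_{j+1} i, b'_j i)`.
    By columns: column `2i` = `(a_j i, b'_j i)_j`, column `2i+1` = `(a'_j (i+1), b_j i)_j` (first component: even
    sites): in-column weights `W(p,q) = ∏_j K(p_j, q_j) K(p_{j+1}, q_j)` resp. `W'(p,q) = ∏_j K(p_j, q_j) K(p_j, q_{j+1})`,
    between the columns `2i` and `2i+1`: `∏_j K(p_j, q'_j) K(p'_j, q_j)`; between `2i+1` and `2i+2` the same function.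
    So `zig r R = zig (r+1) N`, `N = √W √W' ∏ ...`, layers `(ℤ/2^r → X)²`.
(3) `zig_mono`: `zig (r+1) N ≤ (zig r N)²`.
(4) `zig r N = Zh (r+1) K`: split both coordinates of the torus of side `2^(r+1)` into even and odd values
    (`x = 2i` or `2i+1`, `y = 2j` or `2j+1`).
`Zh_tr`: translate by `(1,0)`.
The builder may state (1), (2), (4) as separate lemmas.
-/

set_option autoImplicit false

open Finset

namespace Pool.Agent.LIN

variable {X : Type*} [Fintype X]

theorem DD_le (r : ℕ) (K : X → X → ℝ) (hK : ∀ a b, 0 ≤ K a b) :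
    DD (r + 1) K ≤ Zh (r + 1) K ^ 2 := by
  have h1 := ring_chess r (fun _ : ZMod (2 ^ (r + 1)) => Rr (r + 1) K)
  rw [← DD_rows (r + 1) K hK, Finset.prod_const, Finset.card_univ, ZMod.card] at h1
  have h2 : |DD (r + 1) K| ≤ zig r (Rr (r + 1) K) :=
    le_of_pow_le_pow_left₀ (by positivity) (zig_nonneg r _) h1
  calc DD (r + 1) K ≤ |DD (r + 1) K| := le_abs_self _
    _ ≤ zig r (Rr (r + 1) K) := h2
    _ = zig (r + 1) (Nn r K) := rows_cols r K hK
    _ ≤ zig r (Nn r K) ^ 2 := zig_mono r _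
    _ = Zh (r + 1) K ^ 2 := by rw [cols_Zh r K hK]

private theorem E4d_parity (k : ℕ) (hk : 1 ≤ k) (x y : ZMod (2 ^ k)) :
    Even ((x + 1).val + y.val) ↔ ¬ Even (x.val + y.val) := by
  have h2 : Even (2 ^ k) := (Nat.even_pow.2 ⟨even_two, by omega⟩)
  have hlt : x.val < 2 ^ k := ZMod.val_lt x
  have h1 : (1 : ZMod (2 ^ k)).val = 1 := by
    have : Fact (1 < 2 ^ k) := ⟨Nat.one_lt_two_pow (by omega)⟩
    exact ZMod.val_one _
  rw [ZMod.val_add, h1]
  rcases Nat.lt_or_ge (x.val + 1) (2 ^ k) with h | h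
  · rw [Nat.mod_eq_of_lt h]
    rw [show x.val + 1 + y.val = (x.val + y.val) + 1 by ring, Nat.even_add_one]
  · have he : x.val + 1 = 2 ^ k := by omega
    rw [he, Nat.mod_self, Nat.zero_add]
    rw [← he] at h2
    rw [Nat.even_add_one] at h2
    rw [Nat.even_add]
    tauto

private theorem E4d_ori (k : ℕ) (hk : 1 ≤ k) (K : X → X → ℝ) (x y : ZMod (2 ^ k)) :
    ori k K (x + 1) y = ori k (fun a b => K b a) x y := by
  unfold ori
  by_cases h : Even (x.val + y.val)
  · rw [if_pos h, if_neg (by rw [E4d_parity k hk]; exact not_not.2 h)]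
  · rw [if_neg h, if_pos ((E4d_parity k hk x y).2 h)]

theorem Zh_tr (k : ℕ) (hk : 1 ≤ k) (K : X → X → ℝ) : Zh k (fun a b => K b a) = Zh k K := by
  unfold Zh Zg
  let e : ZMod (2 ^ k) × ZMod (2 ^ k) ≃ ZMod (2 ^ k) × ZMod (2 ^ k) :=
    (Equiv.addRight (1 : ZMod (2 ^ k))).prodCongr (Equiv.refl _)
  refine Fintype.sum_equiv (Equiv.arrowCongr e (Equiv.refl X)) _ _ fun f => ?_
  refine Fintype.prod_equiv e _ _ fun p => ?_
  have e1 : ∀ p, (Equiv.arrowCongr e (Equiv.refl X)) f (e p) = f p := fun p => by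
    simp [Equiv.arrowCongr]
  have e2 : ((e p).1 + 1, (e p).2) = e (p.1 + 1, p.2) := rfl
  have e3 : ((e p).1, (e p).2 + 1) = e (p.1, p.2 + 1) := rfl
  rw [e2, e3, e1, e1, e1]
  have e4 : (e p).1 = p.1 + 1 := rfl
  have e5 : (e p).2 = p.2 := rfl
  rw [e4, e5, E4d_ori k hk K]

end Pool.Agent.LIN

end

/-! ### from `Lib_MP_2c424f_lin.E3b` -/

section

/-!
# H30 E3b: layers of the two-dimensional torus

* `Zg_cyc`: substitute `f (x,y) = g (x+y, y)` (bijection of `ℤ/2^k × ℤ/2^k`): with `s = x+y`, `z = y` the edge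
  `(x,y) → (x+1,y)` goes from `(s,z)` to `(s+1,z)`, the edge `(x,y) → (x,y+1)` from `(s,z)` to `(s+1,z+1)`.
  Layers `s`, values of a layer `z ↦ g (s,z)`.
* `zig_layer`: `zig k` of a layer kernel is a sum over `α i z`, `β i z`; regroup by `z`: the ring
  `... β_z, α_z, β_{z+1}, ...` with kernels `bz k (H z)` between `α_z, β_z` and `bz k (V z)` between `α_z, β_{z+1}`
  (`ring_chess2` after exchanging the roles of `α` and `β`, `zig_tr`).
-/

set_option autoImplicit false

open Finset

namespace Pool.Agent.LIN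

variable {X : Type*} [Fintype X]

private theorem E3b_regroup (k : ℕ) (H V : ZMod (2 ^ k) → X → X → ℝ) :
    zig k (fun α β : ZMod (2 ^ k) → X => ∏ z, H z (α z) (β z) * V z (α z) (β (z + 1))) =
      ∑ α : ZMod (2 ^ k) → (ZMod (2 ^ k) → X), ∑ β : ZMod (2 ^ k) → (ZMod (2 ^ k) → X),
        ∏ z, bz k (H z) (β z) (α z) * bz k (V z) (β z) (α (z + 1)) := by
  unfold zig
  rw [Finset.sum_comm]
  refine Fintype.sum_equiv (Equiv.piComm (fun _ _ => X)) _ _ fun β => ?_
  refine Fintype.sum_equiv (Equiv.piComm (fun _ _ => X)) _ _ fun α => ?_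
  simp only [bz, Equiv.piComm_apply, Function.swap]
  simp_rw [← Finset.prod_mul_distrib]
  rw [Finset.prod_comm]
  refine Finset.prod_congr rfl fun z _ => Finset.prod_congr rfl fun i _ => ?_
  ring

theorem zig_layer (k : ℕ) (H V : ZMod (2 ^ k) → X → X → ℝ) :
    zig k (fun α β : ZMod (2 ^ k) → X => ∏ z, H z (α z) (β z) * V z (α z) (β (z + 1))) ^ (2 ^ (k + 1)) ≤
      ∏ z, DD k (H z) * DD k (V z) := by
  have h := ring_chess2 k (fun z (a b : ZMod (2 ^ k) → X) => bz k (H z) b a)
    (fun z (a b : ZMod (2 ^ k) → X) => bz k (V z) b a)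
  rw [E3b_regroup]
  refine (le_abs_self _).trans ?_
  rw [abs_pow]
  refine h.trans (le_of_eq ?_)
  refine Finset.prod_congr rfl fun z _ => ?_
  rw [zig_tr k (bz k (H z)), zig_tr k (bz k (V z))]
  rfl

end Pool.Agent.LIN

end

/-! ### from `Lib_MP_2c424f_lin.E3a` -/

section

/-!
# H30 E3a: layers of the two-dimensional torus

* `Zg_cyc`: substitute `f (x,y) = g (x+y, y)` (bijection of `ℤ/2^k × ℤ/2^k`): with `s = x+y`, `z = y` the edge
  `(x,y) → (x+1,y)` goes from `(s,z)` to `(s+1,z)`, the edge `(x,y) → (x,y+1)` from `(s,z)` to `(s+1,z+1)`.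
  Layers `s`, values of a layer `z ↦ g (s,z)`.
* `zig_layer`: `zig k` of a layer kernel is a sum over `α i z`, `β i z`; regroup by `z`: the ring
  `... β_z, α_z, β_{z+1}, ...` with kernels `bz k (H z)` between `α_z, β_z` and `bz k (V z)` between `α_z, β_{z+1}`
  (`ring_chess2` after exchanging the roles of `α` and `β`, `zig_tr`).
-/

set_option autoImplicit false

open Finset

namespace Pool.Agent.LIN

variable {X : Type*} [Fintype X]

theorem Zg_cyc (k : ℕ) (Kh Kv : ZMod (2 ^ k) → ZMod (2 ^ k) → X → X → ℝ) :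
    Zg k Kh Kv = cyc k (fun s (α β : ZMod (2 ^ k) → X) =>
      ∏ z, Kh (s - z) z (α z) (β z) * Kv (s - z) z (α z) (β (z + 1))) := by
  classical
  unfold Zg cyc
  let e : (ZMod (2 ^ k) × ZMod (2 ^ k)) ≃ (ZMod (2 ^ k) × ZMod (2 ^ k)) :=
    { toFun := fun p => (p.1 + p.2, p.2)
      invFun := fun p => (p.1 - p.2, p.2)
      left_inv := fun p => by
        ext
        · show p.1 + p.2 - p.2 = p.1
          ring
        · rfl
      right_inv := fun p => by
        ext
        · show p.1 - p.2 + p.2 = p.1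
          ring
        · rfl }
  let E : ((ZMod (2 ^ k) × ZMod (2 ^ k)) → X) ≃ (ZMod (2 ^ k) → ZMod (2 ^ k) → X) :=
    (Equiv.arrowCongr e (Equiv.refl X)).trans (Equiv.curry _ _ _)
  refine Fintype.sum_equiv E _ _ fun f => ?_
  rw [← Fintype.prod_prod_type' (fun s z => Kh (s - z) z (E f s z) (E f (s + 1) z) *
    Kv (s - z) z (E f s z) (E f (s + 1) (z + 1)))]
  refine Fintype.prod_equiv e _ _ fun q => ?_
  obtain ⟨x, y⟩ := q
  show Kh x y (f (x, y)) (f (x + 1, y)) * Kv x y (f (x, y)) (f (x, y + 1)) =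
    Kh (x + y - y) y (f (x + y - y, y)) (f (x + y + 1 - y, y)) *
      Kv (x + y - y) y (f (x + y - y, y)) (f (x + y + 1 - (y + 1), y + 1))
  have h1 : x + y - y = x := by ring
  have h2 : x + y + 1 - y = x + 1 := by ring
  have h3 : x + y + 1 - (y + 1) = x := by ring
  rw [h1, h2, h3]

end Pool.Agent.LIN

end

/-! ### from `Lib_MP_2c424f_lin.E5` -/

section

/-!
# H30 E5: the two-dimensional edge chessboard

`m = 2^k`, `Z = Zg k Kh Kv = cyc k A` (`Zg_cyc`, layers `ℤ/m → X`, so `card = |X|^m`).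
`dbl`: `Z² ≤ |X|^m C`, `C = cyc (k+1) (A ∘ rd) ≥ 0`.  `ring_chess`: `C^(2m) ≤ (∏_{s : ℤ/m} zig k (A s))²`
(every value of `rd` is taken twice), so `C^m ≤ ∏_s zig k (A s)`.  `zig_layer`:
`zig k (A s)^(2m) ≤ ∏_z DD k (Kh (s-z) z) DD k (Kv (s-z) z)`, and `DD ≤ Zh²` (`DD_le`, `k = r+1`).  So
`C^(2m²) ≤ ∏_{x,y} DD DD ≤ (∏ Zh Zh)²`, `C^(m²) ≤ ∏ Zh Zh`, `Z^(2m²) ≤ |X|^(m³) C^(m²)`.
-/

set_option autoImplicit false

open Finset

namespace Pool.Agent.LIN

variable {X : Type*} [Fintype X]

private theorem E5_range (N : ℕ) [NeZero N] (G : ℕ → ℝ) :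
    ∏ s : ZMod N, G s.val = ∏ i ∈ Finset.range N, G i := by
  refine Finset.prod_nbij' (fun s : ZMod N => s.val) (fun i : ℕ => (i : ZMod N)) ?_ ?_ ?_ ?_ ?_
  · intro s _
    exact Finset.mem_range.2 (ZMod.val_lt s)
  · intro i _
    exact Finset.mem_univ _
  · intro s _
    exact ZMod.natCast_zmod_val s
  · intro i hi
    rw [ZMod.val_natCast, Nat.mod_eq_of_lt (Finset.mem_range.1 hi)]
  · intro s _
    rfl

private theorem E5_rd (k : ℕ) (g : ZMod (2 ^ k) → ℝ) :
    ∏ j : ZMod (2 ^ (k + 1)), g (rd k j) = (∏ s, g s) ^ 2 := by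
  have h1 : ∏ j : ZMod (2 ^ (k + 1)), g (rd k j) =
      ∏ i ∈ Finset.range (2 ^ (k + 1)), g (i : ZMod (2 ^ k)) :=
    E5_range (2 ^ (k + 1)) fun i => g (i : ZMod (2 ^ k))
  have h2 : ∏ s, g s = ∏ i ∈ Finset.range (2 ^ k), g (i : ZMod (2 ^ k)) := by
    rw [← E5_range (2 ^ k) fun i => g (i : ZMod (2 ^ k))]
    refine Finset.prod_congr rfl fun s _ => ?_
    rw [ZMod.natCast_zmod_val]
  rw [h1, h2, show 2 ^ (k + 1) = 2 ^ k + 2 ^ k by rw [pow_succ]; ring, Finset.prod_range_add, sq]
  congr 1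
  refine Finset.prod_congr rfl fun i _ => ?_
  rw [Nat.cast_add, ZMod.natCast_self, zero_add]

private theorem E5_cyc_nonneg {U : Type*} [Fintype U] (r : ℕ) (A : ZMod (2 ^ r) → U → U → ℝ)
    (hA : ∀ j a b, 0 ≤ A j a b) : 0 ≤ cyc r A :=
  Finset.sum_nonneg fun _ _ => Finset.prod_nonneg fun _ _ => hA _ _ _

private theorem E5_ori_nonneg {U : Type*} (k : ℕ) (K : U → U → ℝ) (hK : ∀ a b, 0 ≤ K a b)
    (x y : ZMod (2 ^ k)) (a b : U) : 0 ≤ ori k K x y a b := by
  rw [ori]
  split_ifs
  · exact hK _ _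
  · exact hK _ _

private theorem E5_Zh_nonneg (k : ℕ) (K : X → X → ℝ) (hK : ∀ a b, 0 ≤ K a b) : 0 ≤ Zh k K := by
  rw [Zh, Zg]
  exact Finset.sum_nonneg fun f _ => Finset.prod_nonneg fun p _ =>
    mul_nonneg (E5_ori_nonneg k K hK _ _ _ _) (E5_ori_nonneg k K hK _ _ _ _)

theorem two_dim (k : ℕ) (hk : 1 ≤ k) (Kh Kv : ZMod (2 ^ k) → ZMod (2 ^ k) → X → X → ℝ)
    (h1 : ∀ x y a b, 0 ≤ Kh x y a b) (h2 : ∀ x y a b, 0 ≤ Kv x y a b) :
    Zg k Kh Kv ^ (2 * (2 ^ k) ^ 2) ≤
      (Fintype.card X : ℝ) ^ ((2 ^ k) ^ 3) * ∏ x, ∏ y, Zh k (Kh x y) * Zh k (Kv x y) := by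
  obtain ⟨A, hAdef⟩ : ∃ A : ZMod (2 ^ k) → (ZMod (2 ^ k) → X) → (ZMod (2 ^ k) → X) → ℝ,
      A = fun s (α β : ZMod (2 ^ k) → X) =>
        ∏ z, Kh (s - z) z (α z) (β z) * Kv (s - z) z (α z) (β (z + 1)) := ⟨_, rfl⟩
  have hA : ∀ s α β, 0 ≤ A s α β := by
    intro s α β
    rw [hAdef]
    exact Finset.prod_nonneg fun z _ => mul_nonneg (h1 _ _ _ _) (h2 _ _ _ _)
  have hZ : Zg k Kh Kv = cyc k A := by rw [Zg_cyc, hAdef]
  obtain ⟨C, hC⟩ : ∃ C, C = cyc (k + 1) (fun s => A (rd k s)) := ⟨_, rfl⟩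
  have hC0 : 0 ≤ C := by
    rw [hC]
    exact E5_cyc_nonneg _ _ fun j a b => hA _ _ _
  have hdbl : Zg k Kh Kv ^ 2 ≤ (Fintype.card X : ℝ) ^ (2 ^ k) * C := by
    have h3 := dbl k A hA
    rw [← hZ, ← hC] at h3
    have h4 : (Fintype.card (ZMod (2 ^ k) → X) : ℝ) = (Fintype.card X : ℝ) ^ (2 ^ k) := by
      rw [Fintype.card_fun, ZMod.card, Nat.cast_pow]
    rwa [h4] at h3
  -- the product of the layers
  obtain ⟨P, hP⟩ : ∃ P, P = ∏ s, zig k (A s) := ⟨_, rfl⟩
  have hP0 : 0 ≤ P := by
    rw [hP]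
    exact Finset.prod_nonneg fun s _ => zig_nonneg _ _
  have hCP : C ^ (2 ^ k) ≤ P := by
    have h3 := ring_chess k fun s => A (rd k s)
    rw [← hC, abs_of_nonneg hC0, E5_rd k fun s => zig k (A s), ← hP] at h3
    rw [pow_succ, pow_mul] at h3
    exact (pow_le_pow_iff_left₀ (pow_nonneg hC0 _) hP0 two_ne_zero).1 h3
  obtain ⟨Q, hQ⟩ : ∃ Q, Q = ∏ x, ∏ y, Zh k (Kh x y) * Zh k (Kv x y) := ⟨_, rfl⟩
  have hZh : ∀ x y, 0 ≤ Zh k (Kh x y) := fun x y => E5_Zh_nonneg k _ (h1 x y)
  have hZv : ∀ x y, 0 ≤ Zh k (Kv x y) := fun x y => E5_Zh_nonneg k _ (h2 x y)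
  have hQ0 : 0 ≤ Q := by
    rw [hQ]
    exact Finset.prod_nonneg fun x _ => Finset.prod_nonneg fun y _ => mul_nonneg (hZh _ _) (hZv _ _)
  have hDD : ∀ K : X → X → ℝ, (∀ a b, 0 ≤ K a b) → DD k K ≤ Zh k K ^ 2 := by
    obtain ⟨r, rfl⟩ : ∃ r, k = r + 1 := ⟨k - 1, by omega⟩
    exact fun K hK => DD_le r K hK
  have hDD0 : ∀ K : X → X → ℝ, 0 ≤ DD k K := fun K => zig_nonneg _ _
  have hPQ : P ^ (2 ^ (k + 1)) ≤ Q ^ 2 := by
    have h3 : P ^ (2 ^ (k + 1)) ≤ ∏ s : ZMod (2 ^ k), ∏ z : ZMod (2 ^ k),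
        (Zh k (Kh (s - z) z) * Zh k (Kv (s - z) z)) ^ 2 := by
      rw [hP, ← Finset.prod_pow]
      refine Finset.prod_le_prod (fun s _ => pow_nonneg (zig_nonneg _ _) _) fun s _ => ?_
      have h4 := zig_layer k (fun z => Kh (s - z) z) (fun z => Kv (s - z) z)
      rw [hAdef]
      refine h4.trans (Finset.prod_le_prod (fun z _ => mul_nonneg (hDD0 _) (hDD0 _)) fun z _ => ?_)
      rw [mul_pow]
      exact mul_le_mul (hDD _ (h1 _ _)) (hDD _ (h2 _ _)) (hDD0 _) (sq_nonneg _)
    refine h3.trans (le_of_eq ?_)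
    rw [hQ, Finset.prod_comm]
    have h5 : ∀ z : ZMod (2 ^ k), ∏ s : ZMod (2 ^ k),
        (Zh k (Kh (s - z) z) * Zh k (Kv (s - z) z)) ^ 2 =
        ∏ x : ZMod (2 ^ k), (Zh k (Kh x z) * Zh k (Kv x z)) ^ 2 := fun z =>
      Equiv.prod_comp (Equiv.subRight z) fun x => (Zh k (Kh x z) * Zh k (Kv x z)) ^ 2
    rw [Finset.prod_congr rfl fun z _ => h5 z, Finset.prod_comm]
    simp only [Finset.prod_pow]
  have hCQ : C ^ ((2 ^ k) ^ 2) ≤ Q := by
    refine (pow_le_pow_iff_left₀ (pow_nonneg hC0 _) hQ0 two_ne_zero).1 ?_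
    have h3 : (C ^ ((2 ^ k) ^ 2)) ^ 2 = (C ^ (2 ^ k)) ^ (2 ^ (k + 1)) := by
      rw [← pow_mul C, ← pow_mul C]
      congr 1
      ring
    rw [h3]
    exact (pow_le_pow_left₀ (pow_nonneg hC0 _) hCP _).trans hPQ
  calc Zg k Kh Kv ^ (2 * (2 ^ k) ^ 2) = (Zg k Kh Kv ^ 2) ^ ((2 ^ k) ^ 2) :=
        pow_mul _ _ _
    _ ≤ ((Fintype.card X : ℝ) ^ (2 ^ k) * C) ^ ((2 ^ k) ^ 2) :=
        pow_le_pow_left₀ (sq_nonneg _) hdbl _
    _ = (Fintype.card X : ℝ) ^ ((2 ^ k) ^ 3) * C ^ ((2 ^ k) ^ 2) := by
        rw [mul_pow, ← pow_mul (Fintype.card X : ℝ)]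
        congr 2
        ring
    _ ≤ (Fintype.card X : ℝ) ^ ((2 ^ k) ^ 3) * Q :=
        mul_le_mul_of_nonneg_left hCQ (pow_nonneg (Nat.cast_nonneg _) _)
    _ = (Fintype.card X : ℝ) ^ ((2 ^ k) ^ 3) * ∏ x, ∏ y, Zh k (Kh x y) * Zh k (Kv x y) := by
        rw [hQ]

end Pool.Agent.LIN

end

/-! ### from `Lib_MP_2c424f_thr.B1` -/

section

/-!
# THR B1: block means (paper proof: B1)

`Ms s t φ` is the mean of `φ (pt t a b)` over the odd pairs `(a,b)` of the shape `s` (the block or one of its `2d` faces).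
* `oS_card`: the block has `4^d/2` odd pairs, a face `4^(d-1)/2` (`d ≥ 2`; flip one free bit).
* `Ms_face`: so a face mean of a nonnegative function is at most `4` times the block mean.
* `Ms_sum`: `LO.sum_EB` (`Ms none t φ = EB (fun a b => φ (pt t a b))`).
* `bdT_loc`: `bq c f v` depends on `f v` only.
* `bdT_sym`: `LO.rs_pt`, `rs_rs`, `rb_rb`: `Ms s (rb j α t) (bq c (f ∘ rs j α)) = Ms s' t (bq c f)`, `s' = s` with `β` flipped if the direction of `s` is `j`; `od` is
  invariant under flipping both bits.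
* `lab_adj`: the face `(j, true)` of `t` is the face `(j, false)` of `nxt t j` (`pt t a b = pt (nxt t j) (flp a j) (flp b j)` for `a j = b j = true`), so if one block is `hiL θ` and the
  other `loL θ'`, then `θ ≤ mean ≤ θ'`.  See `Lib_MP_2c424f_lin/B1.lean` (`badd_loc`, `badd_sym`, `labd_adj`) for the same statements for other labels.
-/

set_option autoImplicit false

open Finset Filter

namespace Pool.Agent.THR

open Pool.Agent.LO Pool.Agent.LIN

variable {d k q : ℕ}

open scoped Classical in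
private theorem B1_sum (s : Shp d) (F : Bt d → Bt d → ℝ) :
    ∑ p ∈ oS s, F p.1 p.2 = ∑ a, ∑ b, if od a b then (if inS s a b then F a b else 0) else 0 := by
  unfold oS
  rw [Finset.sum_filter, ← Finset.univ_product_univ, Finset.sum_product]
  refine Finset.sum_congr rfl fun a _ => Finset.sum_congr rfl fun b _ => ?_
  by_cases h : od a b
  · by_cases h' : inS s a b
    · rw [if_pos ⟨h, h'⟩, if_pos h, if_pos h']
    · rw [if_neg (fun hc => h' hc.2), if_pos h, if_neg h']
  · rw [if_neg (fun hc => h hc.1), if_neg h]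

open scoped Classical in
private theorem B1_sum_EB (s : Shp d) (F : Bt d → Bt d → ℝ) :
    ∑ p ∈ oS s, F p.1 p.2 = (4 : ℝ) ^ d / 2 * EB (fun a b => if inS s a b then F a b else 0) := by
  rw [B1_sum]
  unfold EB
  have h4 : (4 : ℝ) ^ d ≠ 0 := by positivity
  field_simp

theorem oS_card (hd : 2 ≤ d) (s : Shp d) : ((oS s).card : ℝ) = if s = none then (4 : ℝ) ^ d / 2 else (4 : ℝ) ^ (d - 1) / 2 := by
  classical
  have h1 : ((oS s).card : ℝ) = (4 : ℝ) ^ d / 2 * EB (fun a b => if inS s a b then (1 : ℝ) else 0) := by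
    rw [← B1_sum_EB s (fun _ _ => (1 : ℝ))]
    simp
  rw [h1]
  rcases s with _ | ⟨j, β⟩
  · have h2 : EB (fun a b : Bt d => if inS (none : Shp d) a b then (1 : ℝ) else 0) = 1 := by
      refine Eq.trans (congrArg EB ?_) (card_od (d := d) (by omega))
      funext a b
      simp [inS]
    rw [h2, if_pos rfl, mul_one]
  · have h2 : EB (fun a b : Bt d => if inS (some (j, β) : Shp d) a b then (1 : ℝ) else 0) = 1 / 4 := by
      refine Eq.trans (congrArg EB ?_) (card_od_face hd j β)
      funext a b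
      simp [inS]
    rw [h2, if_neg (by simp)]
    obtain ⟨e, rfl⟩ : ∃ e, d = e + 1 := ⟨d - 1, by omega⟩
    rw [Nat.add_sub_cancel, pow_succ]
    ring

private theorem B1_card_pos (hd : 2 ≤ d) (s : Shp d) : (0 : ℝ) < ((oS s).card : ℝ) := by
  rw [oS_card hd s]
  split_ifs <;> positivity

private theorem B1_mem (s : Shp d) (p : Bt d × Bt d) (hp : p ∈ oS s) : od p.1 p.2 := by
  classical
  unfold oS at hp
  exact (Finset.mem_filter.1 hp).2.1

theorem Ms_mono (s : Shp d) (t : Blk d k) {φ ψ : Site d (k + 1) → ℝ} (h : ∀ a b, od a b → φ (pt t a b) ≤ ψ (pt t a b)) :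
    Ms s t φ ≤ Ms s t ψ := by
  unfold Ms
  refine div_le_div_of_nonneg_right ?_ (Nat.cast_nonneg _)
  exact Finset.sum_le_sum fun p hp => h p.1 p.2 (B1_mem s p hp)

theorem Ms_add (s : Shp d) (t : Blk d k) (φ ψ : Site d (k + 1) → ℝ) :
    Ms s t (fun x => φ x + ψ x) = Ms s t φ + Ms s t ψ := by
  unfold Ms
  rw [Finset.sum_add_distrib, add_div]

theorem Ms_sub (s : Shp d) (t : Blk d k) (φ ψ : Site d (k + 1) → ℝ) :
    Ms s t (fun x => φ x - ψ x) = Ms s t φ - Ms s t ψ := by
  unfold Ms
  rw [Finset.sum_sub_distrib, sub_div]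

theorem Ms_mul (s : Shp d) (t : Blk d k) (c : ℝ) (φ : Site d (k + 1) → ℝ) : Ms s t (fun x => c * φ x) = c * Ms s t φ := by
  unfold Ms
  rw [← Finset.mul_sum, mul_div_assoc]

theorem Ms_const (hd : 2 ≤ d) (s : Shp d) (t : Blk d k) (c : ℝ) : Ms s t (fun _ => c) = c := by
  unfold Ms
  rw [Finset.sum_const, nsmul_eq_mul, mul_comm, mul_div_assoc, div_self (B1_card_pos hd s).ne', mul_one]

theorem Ms_abs (s : Shp d) (t : Blk d k) (φ : Site d (k + 1) → ℝ) : |Ms s t φ| ≤ Ms s t fun x => |φ x| := by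
  unfold Ms
  rw [abs_div, Nat.abs_cast]
  exact div_le_div_of_nonneg_right (Finset.abs_sum_le_sum_abs _ _) (Nat.cast_nonneg _)

theorem Ms_sq (hd : 2 ≤ d) (s : Shp d) (t : Blk d k) (φ : Site d (k + 1) → ℝ) : Ms s t φ ^ 2 ≤ Ms s t fun x => φ x ^ 2 := by
  unfold Ms
  have h0 := B1_card_pos hd s
  have h1 : (∑ p ∈ oS s, φ (pt t p.1 p.2)) ^ 2 ≤ ((oS s).card : ℝ) * ∑ p ∈ oS s, φ (pt t p.1 p.2) ^ 2 :=
    sq_sum_le_card_mul_sum_sq
  rw [div_pow, div_le_div_iff₀ (by positivity) h0]
  calc (∑ p ∈ oS s, φ (pt t p.1 p.2)) ^ 2 * ((oS s).card : ℝ)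
      ≤ (((oS s).card : ℝ) * ∑ p ∈ oS s, φ (pt t p.1 p.2) ^ 2) * ((oS s).card : ℝ) :=
        mul_le_mul_of_nonneg_right h1 h0.le
    _ = (∑ p ∈ oS s, φ (pt t p.1 p.2) ^ 2) * ((oS s).card : ℝ) ^ 2 := by ring

theorem Ms_face (hd : 2 ≤ d) (s : Shp d) (t : Blk d k) (φ : Site d (k + 1) → ℝ) (h : ∀ x, 0 ≤ φ x) :
    Ms s t φ ≤ 4 * Ms none t φ := by
  classical
  have hsub : ∑ p ∈ oS s, φ (pt t p.1 p.2) ≤ ∑ p ∈ oS (none : Shp d), φ (pt t p.1 p.2) := by
    refine Finset.sum_le_sum_of_subset_of_nonneg ?_ fun p _ _ => h _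
    intro p hp
    unfold oS at hp ⊢
    rw [Finset.mem_filter] at hp ⊢
    exact ⟨hp.1, hp.2.1, trivial⟩
  have h0 : 0 ≤ ∑ p ∈ oS (none : Shp d), φ (pt t p.1 p.2) := Finset.sum_nonneg fun p _ => h _
  have hn : ((oS (none : Shp d)).card : ℝ) = (4 : ℝ) ^ d / 2 := by
    rw [oS_card hd, if_pos rfl]
  have hc : (4 : ℝ) ^ d / 2 ≤ 4 * ((oS s).card : ℝ) := by
    rw [oS_card hd s]
    have h4 : (4 : ℝ) ^ d = 4 ^ (d - 1) * 4 := by
      rw [← pow_succ]; congr 1; omega
    have h5 : (0 : ℝ) < 4 ^ (d - 1) := by positivity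
    split_ifs
    · rw [h4]; linarith
    · rw [h4]; linarith
  have hp := B1_card_pos hd s
  have hp4 : (0 : ℝ) < (4 : ℝ) ^ d / 2 := by positivity
  unfold Ms
  rw [hn, ← mul_div_assoc, div_le_div_iff₀ hp hp4]
  calc (∑ p ∈ oS s, φ (pt t p.1 p.2)) * ((4 : ℝ) ^ d / 2)
      ≤ (∑ p ∈ oS (none : Shp d), φ (pt t p.1 p.2)) * ((4 : ℝ) ^ d / 2) :=
        mul_le_mul_of_nonneg_right hsub hp4.le
    _ ≤ (∑ p ∈ oS (none : Shp d), φ (pt t p.1 p.2)) * (4 * ((oS s).card : ℝ)) :=
        mul_le_mul_of_nonneg_left hc h0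
    _ = 4 * (∑ p ∈ oS (none : Shp d), φ (pt t p.1 p.2)) * ((oS s).card : ℝ) := by ring

theorem Ms_sum (hd : 2 ≤ d) (hk : 1 ≤ k) (φ : Site d (k + 1) → ℝ) :
    ∑ t : Blk d k, Ms none t φ = 2 / 2 ^ d * ∑ v ∈ ods d (k + 1), φ v := by
  classical
  rw [← sum_EB (k := k) (by omega) φ]
  refine Finset.sum_congr rfl fun t _ => ?_
  have hn : ((oS (none : Shp d)).card : ℝ) = (4 : ℝ) ^ d / 2 := by
    rw [oS_card hd, if_pos rfl]
  unfold Ms
  rw [B1_sum_EB (none : Shp d) (fun a b => φ (pt t a b)), hn]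
  have hp4 : (0 : ℝ) < (4 : ℝ) ^ d / 2 := by positivity
  rw [mul_comm, mul_div_assoc, div_self hp4.ne', mul_one]
  congr 1
  funext a b
  exact if_pos trivial

end Pool.Agent.THR

end

/-! ### from `Lib_MP_2c424f_lc.LLL` -/

section

/-!
# Lovász local lemma on a product of finite sets (abstract; used in Part III)

Configurations `ω : ι → α` with `ω i ∈ S i`; `cnt S E` is the number of those with the property `E`.
* `cnt_indep`: events which depend on disjoint sets of coordinates are independent;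
* `lll`: general local lemma, `∏ (1 - x k) ≤ P(no event)`;
* `lll_exp`: if `∑_{k : i ∈ V k} 4^{|V k|} p k ≤ 1/4` for every coordinate `i`, then
  `exp (-2 ∑ 4^{|V k|} p k) ≤ P(no event)`.
-/

set_option autoImplicit false
set_option linter.unusedSectionVars false

open Finset

namespace Pool.Agent.LC

section lll
variable {ι α κ : Type*} [Fintype ι] [DecidableEq ι] [DecidableEq α] [DecidableEq κ]

/-- the property `E` depends only on the coordinates in `V` -/
def dep (V : Finset ι) (E : (ι → α) → Prop) : Prop :=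
  ∀ ω ω', (∀ i ∈ V, ω i = ω' i) → (E ω ↔ E ω')

open scoped Classical in
/-- number of configurations with the property `E` -/
noncomputable def cnt (S : ι → Finset α) (E : (ι → α) → Prop) : ℝ :=
  (((Fintype.piFinset S).filter E).card : ℝ)

theorem dep_mono {V W : Finset ι} (h : V ⊆ W) {E : (ι → α) → Prop} (hE : dep V E) : dep W E :=
  fun ω ω' h' => hE ω ω' fun i hi => h' i (h hi)

theorem dep_not {V : Finset ι} {E : (ι → α) → Prop} (hE : dep V E) : dep V fun ω => ¬ E ω :=
  fun ω ω' h' => not_congr (hE ω ω' h')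

theorem dep_forall {V : Finset ι} {E : κ → (ι → α) → Prop} (T : Finset κ) (hE : ∀ k ∈ T, dep V (E k)) :
    dep V fun ω => ∀ k ∈ T, E k ω :=
  fun ω ω' h' => ⟨fun h k hk => (hE k hk ω ω' h').1 (h k hk), fun h k hk => (hE k hk ω ω' h').2 (h k hk)⟩

theorem cnt_nonneg (S : ι → Finset α) (E : (ι → α) → Prop) : 0 ≤ cnt S E := Nat.cast_nonneg _

theorem cnt_mono {S : ι → Finset α} {E G : (ι → α) → Prop} (h : ∀ ω, (∀ i, ω i ∈ S i) → E ω → G ω) :
    cnt S E ≤ cnt S G := by
  unfold cnt
  refine Nat.cast_le.2 (Finset.card_le_card fun ω hω => ?_)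
  simp only [Finset.mem_filter] at hω ⊢
  exact ⟨hω.1, h ω (Fintype.mem_piFinset.1 hω.1) hω.2⟩

theorem cnt_true_pos {S : ι → Finset α} (hS : ∀ i, (S i).Nonempty) :
    0 < cnt S fun _ : ι → α => True := by
  unfold cnt
  rw [Nat.cast_pos, Finset.card_pos]
  obtain ⟨ω, hω⟩ := Fintype.piFinset_nonempty.2 hS
  exact ⟨ω, by simp only [Finset.mem_filter]; exact ⟨hω, trivial⟩⟩

theorem cnt_split (S : ι → Finset α) (E G : (ι → α) → Prop) :
    cnt S G = cnt S (fun ω => E ω ∧ G ω) + cnt S (fun ω => ¬ E ω ∧ G ω) := by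
  unfold cnt
  rw [← Nat.cast_add, ← Finset.card_union_of_disjoint]
  · congr 2
    ext ω
    simp only [Finset.mem_filter, Finset.mem_union]
    tauto
  · rw [Finset.disjoint_left]
    intro ω h1 h2
    simp only [Finset.mem_filter] at h1 h2
    exact h2.2.1 h1.2.1

theorem cnt_indep (S : ι → Finset α) {V W : Finset ι} (hVW : Disjoint V W) {E G : (ι → α) → Prop}
    (hE : dep V E) (hG : dep W G) :
    cnt S (fun ω => E ω ∧ G ω) * cnt S (fun _ => True) = cnt S E * cnt S G := by
  classical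
  unfold cnt
  rw [← Nat.cast_mul, ← Nat.cast_mul, ← Finset.card_product, ← Finset.card_product]
  congr 1
  let φ : (ι → α) × (ι → α) → (ι → α) × (ι → α) := fun p => (V.piecewise p.1 p.2, V.piecewise p.2 p.1)
  have hφ : ∀ p, φ (φ p) = p := by
    rintro ⟨u, v⟩
    simp only [φ, Prod.mk.injEq]
    constructor
    · ext i
      by_cases hi : i ∈ V <;> simp [hi]
    · ext i
      by_cases hi : i ∈ V <;> simp [hi]
  have hmem : ∀ u v : ι → α, u ∈ Fintype.piFinset S → v ∈ Fintype.piFinset S →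
      V.piecewise u v ∈ Fintype.piFinset S := by
    intro u v hu hv
    rw [Fintype.mem_piFinset] at hu hv ⊢
    intro i
    by_cases hi : i ∈ V
    · simpa [hi] using hu i
    · simpa [hi] using hv i
  have hEV : ∀ u v : ι → α, E (V.piecewise u v) ↔ E u := fun u v =>
    hE _ _ fun i hi => by simp [hi]
  have hGV : ∀ u v : ι → α, G (V.piecewise u v) ↔ G v := fun u v =>
    hG _ _ fun i hi => by
      have h : i ∉ V := fun h => (Finset.disjoint_left.1 hVW) h hi
      simp [h]
  refine Finset.card_nbij' φ φ ?_ ?_ (fun p _ => hφ p) (fun p _ => hφ p)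
  · rintro ⟨u, v⟩ hp
    simp only [Finset.coe_product, Set.mem_prod, Finset.mem_coe, Finset.mem_filter] at hp ⊢
    exact ⟨⟨hmem _ _ hp.1.1 hp.2.1, (hEV _ _).2 hp.1.2.1⟩, hmem _ _ hp.2.1 hp.1.1, (hGV _ _).2 hp.1.2.2⟩
  · rintro ⟨u, v⟩ hp
    simp only [Finset.coe_product, Set.mem_prod, Finset.mem_coe, Finset.mem_filter] at hp ⊢
    exact ⟨⟨hmem _ _ hp.1.1 hp.2.1, (hEV _ _).2 hp.1.2, (hGV _ _).2 hp.2.2⟩, hmem _ _ hp.2.1 hp.1.1, trivial⟩

/-- general local lemma, conditional form -/
theorem lll_cond {S : ι → Finset α} (hS : ∀ i, (S i).Nonempty) (Ev : Finset κ) (E : κ → (ι → α) → Prop)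
    (V : κ → Finset ι) (hdep : ∀ k ∈ Ev, dep (V k) (E k)) (p x : κ → ℝ)
    (hx0 : ∀ k ∈ Ev, 0 ≤ x k) (hx1 : ∀ k ∈ Ev, x k ≤ 1)
    (hp : ∀ k ∈ Ev, cnt S (E k) ≤ p k * cnt S (fun _ => True))
    (hc : ∀ k ∈ Ev, ∀ T ⊆ Ev, (∀ l ∈ T, ¬ Disjoint (V l) (V k)) → p k ≤ x k * ∏ l ∈ T, (1 - x l)) :
    ∀ n : ℕ, ∀ T ⊆ Ev, T.card = n → ∀ k ∈ Ev, k ∉ T →
      cnt S (fun ω => E k ω ∧ ∀ l ∈ T, ¬ E l ω) ≤ x k * cnt S (fun ω => ∀ l ∈ T, ¬ E l ω) := by
  classical
  intro n
  induction n using Nat.strong_induction_on with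
  | _ n ih =>
  intro T hT hn k hk hkT
  set T1 := T.filter fun l => ¬ Disjoint (V l) (V k) with hT1
  set T2 := T.filter fun l => Disjoint (V l) (V k) with hT2
  have hT1s : T1 ⊆ T := Finset.filter_subset _ _
  have hT2s : T2 ⊆ T := Finset.filter_subset _ _
  have hU : ∀ l ∈ T, l ∈ T1 ∨ l ∈ T2 := by
    intro l hl
    by_cases h : Disjoint (V l) (V k)
    · exact Or.inr (Finset.mem_filter.2 ⟨hl, h⟩)
    · exact Or.inl (Finset.mem_filter.2 ⟨hl, h⟩)
  have hdisj : Disjoint T1 T2 := by
    rw [Finset.disjoint_left]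
    intro l h1 h2
    exact (Finset.mem_filter.1 h1).2 (Finset.mem_filter.1 h2).2
  have htop : 0 < cnt S fun _ : ι → α => True := cnt_true_pos hS
  -- the far events
  have h1 : cnt S (fun ω => E k ω ∧ ∀ l ∈ T, ¬ E l ω) ≤ cnt S (fun ω => E k ω ∧ ∀ l ∈ T2, ¬ E l ω) :=
    cnt_mono fun ω _ h => ⟨h.1, fun l hl => h.2 l (hT2s hl)⟩
  have h2 : cnt S (fun ω => E k ω ∧ ∀ l ∈ T2, ¬ E l ω) ≤ p k * cnt S (fun ω => ∀ l ∈ T2, ¬ E l ω) := by
    have hi := cnt_indep S (V := V k) (W := (V k)ᶜ) disjoint_compl_right (hdep k hk)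
      (G := fun ω => ∀ l ∈ T2, ¬ E l ω) (dep_forall T2 fun l hl =>
        dep_not (dep_mono (by
          have := (Finset.mem_filter.1 hl).2
          intro i hi
          rw [Finset.mem_compl]
          exact fun h => (Finset.disjoint_left.1 this) hi h) (hdep l (hT (hT2s hl)))))
    have h3 := mul_le_mul_of_nonneg_right (hp k hk) (cnt_nonneg S fun ω => ∀ l ∈ T2, ¬ E l ω)
    rw [← hi] at h3
    have h4 : p k * cnt S (fun _ : ι → α => True) * cnt S (fun ω => ∀ l ∈ T2, ¬ E l ω) =
        (p k * cnt S (fun ω => ∀ l ∈ T2, ¬ E l ω)) * cnt S (fun _ : ι → α => True) := by ring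
    rw [h4] at h3
    exact le_of_mul_le_mul_right h3 htop
  -- the near events
  have h5 : ∀ T' ⊆ T1, (∏ l ∈ T', (1 - x l)) * cnt S (fun ω => ∀ l ∈ T2, ¬ E l ω) ≤
      cnt S (fun ω => ∀ l ∈ T' ∪ T2, ¬ E l ω) := by
    intro T'
    induction T' using Finset.induction_on with
    | empty => intro _; simp
    | insert l T' hl ih' =>
      intro hs
      have hlT1 : l ∈ T1 := hs (Finset.mem_insert_self _ _)
      have hs' : T' ⊆ T1 := fun i hi => hs (Finset.mem_insert_of_mem hi)
      have hlT : l ∉ T' ∪ T2 := by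
        rw [Finset.mem_union, not_or]
        exact ⟨hl, fun h => (Finset.disjoint_left.1 hdisj) hlT1 h⟩
      have hsub : T' ∪ T2 ⊆ T := Finset.union_subset (hs'.trans hT1s) hT2s
      have hcard : (T' ∪ T2).card < n := by
        rw [← hn]
        refine Finset.card_lt_card ⟨hsub, fun h => hlT (h (hT1s hlT1))⟩
      have h6 := ih _ hcard (T' ∪ T2) (hsub.trans hT) rfl l (hT (hT1s hlT1)) hlT
      have h7 := cnt_split S (E l) (fun ω => ∀ l ∈ T' ∪ T2, ¬ E l ω)
      have h8 : cnt S (fun ω => ¬ E l ω ∧ ∀ l ∈ T' ∪ T2, ¬ E l ω) ≤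
          cnt S (fun ω => ∀ l' ∈ insert l T' ∪ T2, ¬ E l' ω) := by
        refine cnt_mono fun ω _ h l' hl' => ?_
        rw [Finset.insert_union, Finset.mem_insert] at hl'
        rcases hl' with rfl | hl'
        · exact h.1
        · exact h.2 l' hl'
      have h9 := ih' hs'
      have hxl : 0 ≤ 1 - x l := sub_nonneg.2 (hx1 l (hT (hT1s hlT1)))
      rw [Finset.prod_insert hl, mul_assoc]
      calc (1 - x l) * ((∏ l ∈ T', (1 - x l)) * cnt S (fun ω => ∀ l ∈ T2, ¬ E l ω))
          ≤ (1 - x l) * cnt S (fun ω => ∀ l ∈ T' ∪ T2, ¬ E l ω) := mul_le_mul_of_nonneg_left h9 hxl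
        _ ≤ _ := by linarith
  have h10 := h5 T1 subset_rfl
  have h11 : cnt S (fun ω => ∀ l ∈ T1 ∪ T2, ¬ E l ω) ≤ cnt S (fun ω => ∀ l ∈ T, ¬ E l ω) :=
    cnt_mono fun ω _ h l hl => h l (Finset.mem_union.2 (hU l hl))
  have h12 := hc k hk T1 (hT1s.trans hT) fun l hl => (Finset.mem_filter.1 hl).2
  calc _ ≤ _ := h1
    _ ≤ _ := h2
    _ ≤ (x k * ∏ l ∈ T1, (1 - x l)) * cnt S (fun ω => ∀ l ∈ T2, ¬ E l ω) :=
      mul_le_mul_of_nonneg_right h12 (cnt_nonneg _ _)
    _ = x k * ((∏ l ∈ T1, (1 - x l)) * cnt S (fun ω => ∀ l ∈ T2, ¬ E l ω)) := by ring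
    _ ≤ x k * cnt S (fun ω => ∀ l ∈ T, ¬ E l ω) :=
      mul_le_mul_of_nonneg_left (h10.trans h11) (hx0 k hk)

/-- general local lemma -/
theorem lll {S : ι → Finset α} (hS : ∀ i, (S i).Nonempty) (Ev : Finset κ) (E : κ → (ι → α) → Prop)
    (V : κ → Finset ι) (hdep : ∀ k ∈ Ev, dep (V k) (E k)) (p x : κ → ℝ)
    (hx0 : ∀ k ∈ Ev, 0 ≤ x k) (hx1 : ∀ k ∈ Ev, x k ≤ 1)
    (hp : ∀ k ∈ Ev, cnt S (E k) ≤ p k * cnt S (fun _ => True))
    (hc : ∀ k ∈ Ev, ∀ T ⊆ Ev, (∀ l ∈ T, ¬ Disjoint (V l) (V k)) → p k ≤ x k * ∏ l ∈ T, (1 - x l)) :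
    (∏ k ∈ Ev, (1 - x k)) * cnt S (fun _ => True) ≤ cnt S (fun ω => ∀ k ∈ Ev, ¬ E k ω) := by
  classical
  have key : ∀ T ⊆ Ev, (∏ k ∈ T, (1 - x k)) * cnt S (fun _ => True) ≤
      cnt S (fun ω => ∀ k ∈ T, ¬ E k ω) := by
    intro T
    induction T using Finset.induction_on with
    | empty => intro _; simp
    | insert l T hl ih =>
      intro hs
      have hlE : l ∈ Ev := hs (Finset.mem_insert_self _ _)
      have hs' : T ⊆ Ev := fun i hi => hs (Finset.mem_insert_of_mem hi)
      have h6 := lll_cond hS Ev E V hdep p x hx0 hx1 hp hc _ T hs' rfl l hlE hl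
      have h7 := cnt_split S (E l) (fun ω => ∀ l ∈ T, ¬ E l ω)
      have h8 : cnt S (fun ω => ¬ E l ω ∧ ∀ l ∈ T, ¬ E l ω) ≤
          cnt S (fun ω => ∀ l' ∈ insert l T, ¬ E l' ω) := by
        refine cnt_mono fun ω _ h l' hl' => ?_
        rw [Finset.mem_insert] at hl'
        rcases hl' with rfl | hl'
        · exact h.1
        · exact h.2 l' hl'
      have h9 := ih hs'
      have hxl : 0 ≤ 1 - x l := sub_nonneg.2 (hx1 l hlE)
      rw [Finset.prod_insert hl, mul_assoc]
      calc (1 - x l) * ((∏ l ∈ T, (1 - x l)) * cnt S (fun _ => True))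
          ≤ (1 - x l) * cnt S (fun ω => ∀ l ∈ T, ¬ E l ω) := mul_le_mul_of_nonneg_left h9 hxl
        _ ≤ _ := by linarith
  exact key Ev subset_rfl

theorem one_sub_ge_exp {x : ℝ} (h0 : 0 ≤ x) (h1 : x ≤ 1 / 2) : Real.exp (-(2 * x)) ≤ 1 - x := by
  have h2 : 0 < 1 + 2 * x := by linarith
  have h3 : 1 + 2 * x ≤ Real.exp (2 * x) := by
    have := Real.add_one_le_exp (2 * x)
    linarith
  rw [Real.exp_neg]
  calc (Real.exp (2 * x))⁻¹ ≤ (1 + 2 * x)⁻¹ := inv_anti₀ h2 h3
    _ ≤ 1 - x := by
      rw [inv_le_iff_one_le_mul₀ h2]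
      nlinarith

theorem prod_ge_exp (T : Finset κ) (x : κ → ℝ) (h0 : ∀ k ∈ T, 0 ≤ x k) (h1 : ∀ k ∈ T, x k ≤ 1 / 2) :
    Real.exp (-(2 * ∑ k ∈ T, x k)) ≤ ∏ k ∈ T, (1 - x k) := by
  have h : Real.exp (-(2 * ∑ k ∈ T, x k)) = ∏ k ∈ T, Real.exp (-(2 * x k)) := by
    rw [← Real.exp_sum, Finset.mul_sum, ← Finset.sum_neg_distrib]
  rw [h]
  exact Finset.prod_le_prod (fun _ _ => (Real.exp_pos _).le) fun k hk => one_sub_ge_exp (h0 k hk) (h1 k hk)

/-- the local lemma in the form used in III.C -/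
theorem lll_exp {S : ι → Finset α} (hS : ∀ i, (S i).Nonempty) (Ev : Finset κ) (E : κ → (ι → α) → Prop)
    (V : κ → Finset ι) (hV : ∀ k ∈ Ev, (V k).Nonempty) (hdep : ∀ k ∈ Ev, dep (V k) (E k)) (p : κ → ℝ)
    (hp0 : ∀ k ∈ Ev, 0 ≤ p k) (hp : ∀ k ∈ Ev, cnt S (E k) ≤ p k * cnt S (fun _ => True))
    (hc : ∀ i, ∑ k ∈ Ev.filter (fun k => i ∈ V k), 4 ^ (V k).card * p k ≤ 1 / 4) :
    Real.exp (-(2 * ∑ k ∈ Ev, 4 ^ (V k).card * p k)) * cnt S (fun _ => True) ≤
      cnt S (fun ω => ∀ k ∈ Ev, ¬ E k ω) := by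
  classical
  have hx0 : ∀ k ∈ Ev, 0 ≤ 4 ^ (V k).card * p k := fun k hk => mul_nonneg (by positivity) (hp0 k hk)
  have hx1 : ∀ k ∈ Ev, 4 ^ (V k).card * p k ≤ 1 / 4 := by
    intro k hk
    obtain ⟨i, hi⟩ := hV k hk
    refine le_trans ?_ (hc i)
    exact Finset.single_le_sum (f := fun k => 4 ^ (V k).card * p k)
      (fun l hl => hx0 l (Finset.mem_filter.1 hl).1) (Finset.mem_filter.2 ⟨hk, hi⟩)
  have h1 := lll hS Ev E V hdep p (fun k => 4 ^ (V k).card * p k) hx0
    (fun k hk => (hx1 k hk).trans (by norm_num)) hp (by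
      intro k hk T hT hTk
      have h2 : ∑ l ∈ T, 4 ^ (V l).card * p l ≤ (V k).card / 4 := by
        calc ∑ l ∈ T, 4 ^ (V l).card * p l
            ≤ ∑ l ∈ T, ∑ i ∈ V k, (if i ∈ V l then 4 ^ (V l).card * p l else 0) := by
              refine Finset.sum_le_sum fun l hl => ?_
              obtain ⟨i, hi1, hi2⟩ := Finset.not_disjoint_iff.1 (hTk l hl)
              have h3 : (if i ∈ V l then 4 ^ (V l).card * p l else (0 : ℝ)) = 4 ^ (V l).card * p l := if_pos hi1
              refine h3.symm.le.trans ?_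
              exact Finset.single_le_sum (f := fun i => if i ∈ V l then 4 ^ (V l).card * p l else (0 : ℝ))
                (fun i _ => by
                  split_ifs
                  · exact hx0 l (hT hl)
                  · exact le_rfl) hi2
          _ = ∑ i ∈ V k, ∑ l ∈ T, (if i ∈ V l then 4 ^ (V l).card * p l else 0) := Finset.sum_comm
          _ ≤ ∑ i ∈ V k, (1 / 4 : ℝ) := by
              refine Finset.sum_le_sum fun i _ => ?_
              rw [← Finset.sum_filter]
              refine le_trans ?_ (hc i)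
              refine Finset.sum_le_sum_of_subset_of_nonneg (Finset.filter_subset_filter _ hT) ?_
              intro l hl _
              exact hx0 l (Finset.mem_filter.1 hl).1
          _ = (V k).card / 4 := by
              rw [Finset.sum_const, nsmul_eq_mul]
              ring
      have h4 := prod_ge_exp T (fun l => 4 ^ (V l).card * p l) (fun l hl => hx0 l (hT hl))
        fun l hl => (hx1 l (hT hl)).trans (by norm_num)
      have h5 : (1 : ℝ) ≤ 4 ^ (V k).card * Real.exp (-(2 * ∑ l ∈ T, 4 ^ (V l).card * p l)) := by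
        have h6 : Real.exp (-((V k).card / 2 : ℝ)) ≤
            Real.exp (-(2 * ∑ l ∈ T, 4 ^ (V l).card * p l)) := by
          apply Real.exp_le_exp.2
          linarith
        have h7 : (1 : ℝ) ≤ 4 ^ (V k).card * Real.exp (-((V k).card / 2 : ℝ)) := by
          have h8 : Real.exp (-((V k).card / 2 : ℝ)) = Real.exp (-(1 / 2)) ^ (V k).card := by
            rw [← Real.exp_nat_mul]
            congr 1
            ring
          rw [h8, ← mul_pow]
          refine one_le_pow₀ ?_
          have := Real.add_one_le_exp (-(1 / 2) : ℝ)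
          linarith
        exact h7.trans (mul_le_mul_of_nonneg_left h6 (by positivity))
      calc p k = p k * 1 := (mul_one _).symm
        _ ≤ p k * (4 ^ (V k).card * Real.exp (-(2 * ∑ l ∈ T, 4 ^ (V l).card * p l))) :=
          mul_le_mul_of_nonneg_left h5 (hp0 k hk)
        _ = (4 ^ (V k).card * p k) * Real.exp (-(2 * ∑ l ∈ T, 4 ^ (V l).card * p l)) := by ring
        _ ≤ (4 ^ (V k).card * p k) * ∏ l ∈ T, (1 - 4 ^ (V l).card * p l) :=
          mul_le_mul_of_nonneg_left h4 (hx0 k hk))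
  refine le_trans (mul_le_mul_of_nonneg_right ?_ (cnt_nonneg _ _)) h1
  exact prod_ge_exp Ev (fun k => 4 ^ (V k).card * p k) hx0 fun k hk => (hx1 k hk).trans (by norm_num)

end lll

end Pool.Agent.LC

end

/-! ### from `Lib_MP_2c424f_lc.Perc` -/

section

/-!
# Conflict paths (abstract; used in Parts III and V)

Sites `Λ` (even: `ev`), values `ω x ∈ S x` at the even sites `x`, the odd sites are frozen.
`cf x y a`: the even site `x` with the value `a` is in conflict with the (odd, admissible) neighbour `y`.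
Paths are lists of sites.  `P1 x y`, `P2 x y y'` bound the probability that `x` is in conflict with `y`, with both
`y` and `y' ≠ y`.  `wt c none l`: the product of `c` times these factors over the even sites of `l`.
-/

set_option autoImplicit false
set_option linter.unusedSectionVars false

open Finset

namespace Pool.Agent.LC

/-! ## Lists of sites -/

section lists
variable {Λ : Type*} [Fintype Λ] [DecidableEq Λ]

/-- lists of length `n` -/
def LL (Λ : Type*) [Fintype Λ] [DecidableEq Λ] : ℕ → Finset (List Λ)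
  | 0 => {[]}
  | n + 1 => (univ ×ˢ LL Λ n).image fun p => p.1 :: p.2

/-- lists of length at most `n` -/
def LT (Λ : Type*) [Fintype Λ] [DecidableEq Λ] : ℕ → Finset (List Λ)
  | 0 => {[]}
  | n + 1 => insert [] ((univ ×ˢ LT Λ n).image fun p => p.1 :: p.2)

theorem mem_LL (n : ℕ) (l : List Λ) : l ∈ LL Λ n ↔ l.length = n := by
  induction n generalizing l with
  | zero => simp [LL]
  | succ n ih =>
    cases l with
    | nil => simp [LL]
    | cons s l => simp [LL, ih]

theorem mem_LT (n : ℕ) (l : List Λ) : l ∈ LT Λ n ↔ l.length ≤ n := by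
  induction n generalizing l with
  | zero => simp [LT]
  | succ n ih =>
    cases l with
    | nil => simp [LT]
    | cons s l => simp [LT, ih]

theorem cons_inj2 (A : Finset (Λ × List Λ)) :
    Set.InjOn (fun p : Λ × List Λ => p.1 :: p.2) A := by
  rintro ⟨a, l⟩ _ ⟨b, m⟩ _ h
  simpa using h

theorem sum_LL_succ (n : ℕ) (f : List Λ → ℝ) :
    ∑ l ∈ LL Λ (n + 1), f l = ∑ s, ∑ l ∈ LL Λ n, f (s :: l) := by
  rw [LL, Finset.sum_image (cons_inj2 _), Finset.sum_product]

theorem sum_LT_succ (n : ℕ) (f : List Λ → ℝ) :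
    ∑ l ∈ LT Λ (n + 1), f l = f [] + ∑ s, ∑ l ∈ LT Λ n, f (s :: l) := by
  rw [LT, Finset.sum_insert, Finset.sum_image (cons_inj2 _), Finset.sum_product]
  simp

end lists

/-! ## Weights -/

section weights
variable {Λ : Type*} [Fintype Λ] [DecidableEq Λ]

/-- factor of an even site with the neighbours `a`, `b` in the path -/
def fac (P1 : Λ → Λ → ℝ) (P2 : Λ → Λ → Λ → ℝ) (s : Λ) : Option Λ → Option Λ → ℝ
  | none, none => 1
  | some y, none => P1 s y
  | none, some y => P1 s y
  | some y, some y' => P2 s y y'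

open scoped Classical in
/-- factor of a site with the neighbours `a`, `b` in the path -/
noncomputable def FF (ev : Λ → Prop) (c : ℝ) (P1 : Λ → Λ → ℝ) (P2 : Λ → Λ → Λ → ℝ) (s : Λ) (a b : Option Λ) : ℝ :=
  if ev s then c * fac P1 P2 s a b
  else if (∃ y ∈ a, ¬ ev y) ∨ (∃ y ∈ b, ¬ ev y) then 0 else 1

/-- weight of a path, given the site before it -/
noncomputable def wt (ev : Λ → Prop) (c : ℝ) (P1 : Λ → Λ → ℝ) (P2 : Λ → Λ → Λ → ℝ) : Option Λ → List Λ → ℝ
  | _, [] => 1
  | a, s :: l => FF ev c P1 P2 s a l.head? * wt ev c P1 P2 (some s) l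

/-- the kernel bounds: rows `≤ ρ`, `P1` rows `≤ b` at the odd sites, `≤ ρ'` at the even sites -/
structure Ker (ev : Λ → Prop) (P1 : Λ → Λ → ℝ) (P2 : Λ → Λ → Λ → ℝ) (ρ b ρ' : ℝ) : Prop where
  n1 : ∀ x y, 0 ≤ P1 x y
  n2 : ∀ x y y', 0 ≤ P2 x y y'
  z1 : ∀ x y, ev y → P1 x y = 0
  z2 : ∀ x y y', ev y ∨ ev y' → P2 x y y' = 0
  sy : ∀ x y y', P2 x y y' = P2 x y' y
  r0 : 0 ≤ ρ
  b0 : 0 ≤ b
  r0' : 0 ≤ ρ'
  o2 : ∀ y, ¬ ev y → ∑ x, ∑ y', P2 x y y' ≤ ρ
  o1 : ∀ y, ¬ ev y → ∑ x, P1 x y ≤ b
  e1 : ∀ x, ev x → ∑ y, P1 x y ≤ ρ'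
  e2 : ∀ x, ev x → ∑ y, ∑ y', P2 x y y' ≤ ρ'

variable {ev : Λ → Prop} {c : ℝ} {P1 : Λ → Λ → ℝ} {P2 : Λ → Λ → Λ → ℝ} {ρ b ρ' : ℝ}

theorem fac_nonneg (h : Ker ev P1 P2 ρ b ρ') (s : Λ) (x y : Option Λ) : 0 ≤ fac P1 P2 s x y := by
  cases x <;> cases y <;> simp [fac, h.n1, h.n2]

theorem FF_nonneg (hc : 0 ≤ c) (h : Ker ev P1 P2 ρ b ρ') (s : Λ) (x y : Option Λ) :
    0 ≤ FF ev c P1 P2 s x y := by
  unfold FF
  split_ifs
  · exact mul_nonneg hc (fac_nonneg h s x y)
  · exact le_rfl
  · exact zero_le_one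

theorem FF_symm (h : Ker ev P1 P2 ρ b ρ') (s : Λ) (x y : Option Λ) :
    FF ev c P1 P2 s x y = FF ev c P1 P2 s y x := by
  unfold FF
  have h1 : fac P1 P2 s x y = fac P1 P2 s y x := by
    cases x <;> cases y <;> simp [fac, h.sy s]
  rw [h1]
  by_cases hs : ev s
  · rw [if_pos hs, if_pos hs]
  · rw [if_neg hs, if_neg hs]
    by_cases h2 : (∃ z ∈ x, ¬ ev z) ∨ (∃ z ∈ y, ¬ ev z)
    · rw [if_pos h2, if_pos h2.symm]
    · rw [if_neg h2, if_neg fun h3 => h2 h3.symm]

theorem FF_odd_le {s : Λ} (hs : ¬ ev s) (x y : Option Λ) : FF ev c P1 P2 s x y ≤ 1 := by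
  unfold FF
  rw [if_neg hs]
  split_ifs <;> norm_num

theorem FF_odd_zero {s y : Λ} (hs : ¬ ev s) (hy : ¬ ev y) (x : Option Λ) :
    FF ev c P1 P2 s (some y) x = 0 := by
  unfold FF
  rw [if_neg hs, if_pos (Or.inl ⟨y, rfl, hy⟩)]

theorem FF_even {s : Λ} (hs : ev s) (x y : Option Λ) : FF ev c P1 P2 s x y = c * fac P1 P2 s x y := by
  unfold FF
  rw [if_pos hs]

theorem wt_nonneg (hc : 0 ≤ c) (h : Ker ev P1 P2 ρ b ρ') (x : Option Λ) (l : List Λ) :
    0 ≤ wt ev c P1 P2 x l := by
  induction l generalizing x with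
  | nil => exact zero_le_one
  | cons s l ih => exact mul_nonneg (FF_nonneg hc h _ _ _) (ih _)

theorem wt_rev (h : Ker ev P1 P2 ρ b ρ') (l m : List Λ) :
    wt ev c P1 P2 none (l.reverse ++ m) = wt ev c P1 P2 m.head? l * wt ev c P1 P2 l.head? m := by
  induction l generalizing m with
  | nil => simp [wt]
  | cons s l ih =>
    rw [List.reverse_cons, List.append_assoc, List.singleton_append, ih]
    simp only [wt, List.head?_cons]
    rw [FF_symm h s l.head? m.head?]
    ring

/-- the weight of a path is that of the reversed path -/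
theorem wt_reverse (h : Ker ev P1 P2 ρ b ρ') (l : List Λ) :
    wt ev c P1 P2 none l.reverse = wt ev c P1 P2 none l := by
  have := wt_rev (c := c) h l []
  simpa [wt] using this

theorem wt_mid (h : Ker ev P1 P2 ρ b ρ') (x : Λ) (l m : List Λ) :
    wt ev c P1 P2 none (l.reverse ++ x :: m) =
      wt ev c P1 P2 (some x) l * FF ev c P1 P2 x l.head? m.head? * wt ev c P1 P2 (some x) m := by
  rw [wt_rev h]
  simp only [wt, List.head?_cons]
  ring

/-- weights with the constant `c` -/
theorem wt_const (x : Option Λ) (l : List Λ) [DecidablePred ev] :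
    wt ev c P1 P2 x l = c ^ (l.filter fun s => ev s).length * wt ev 1 P1 P2 x l := by
  induction l generalizing x with
  | nil => simp [wt]
  | cons s l ih =>
    rw [wt, wt, ih]
    by_cases hs : ev s
    · rw [FF_even hs, FF_even hs, List.filter_cons_of_pos (by simpa using hs), List.length_cons, pow_succ]
      ring
    · have h1 : FF ev c P1 P2 s x l.head? = FF ev 1 P1 P2 s x l.head? := by
        unfold FF
        rw [if_neg hs, if_neg hs]
      rw [h1, List.filter_cons_of_neg (by simpa using hs)]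
      ring

/-! ## Path sums of fixed length -/

theorem sum_two_step (hc : 0 ≤ c) (h : Ker ev P1 P2 ρ b ρ') {y : Λ} (hy : ¬ ev y) (T : Finset (List Λ)) {B : ℝ}
    (hB : ∀ t, ¬ ev t → ∑ l ∈ T, wt ev c P1 P2 (some t) l ≤ B) (hB0 : 0 ≤ B) :
    ∑ s, ∑ t, ∑ l ∈ T, wt ev c P1 P2 (some y) (s :: t :: l) ≤ c * ρ * B := by
  have h1 : ∀ s t, ∑ l ∈ T, wt ev c P1 P2 (some y) (s :: t :: l) ≤ c * P2 s y t * B := by
    intro s t
    by_cases hs : ev s
    · by_cases ht : ev t
      · have h2 : ∀ l ∈ T, wt ev c P1 P2 (some y) (s :: t :: l) = 0 := by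
          intro l _
          simp [wt, FF_even hs, fac, h.z2 s y t (Or.inr ht)]
        rw [Finset.sum_eq_zero h2, h.z2 s y t (Or.inr ht)]
        simp
      · have h2 : ∀ l ∈ T, wt ev c P1 P2 (some y) (s :: t :: l) ≤ c * P2 s y t * wt ev c P1 P2 (some t) l := by
          intro l _
          simp only [wt, List.head?_cons, FF_even hs, fac]
          have h3 := FF_odd_le (c := c) (P1 := P1) (P2 := P2) ht (some s) l.head?
          have h4 := wt_nonneg hc h (some t) l
          have h5 : 0 ≤ c * P2 s y t := mul_nonneg hc (h.n2 _ _ _)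
          refine mul_le_mul_of_nonneg_left ?_ h5
          calc _ ≤ 1 * wt ev c P1 P2 (some t) l := mul_le_mul_of_nonneg_right h3 h4
            _ = _ := one_mul _
        refine (Finset.sum_le_sum h2).trans ?_
        rw [← Finset.mul_sum]
        exact mul_le_mul_of_nonneg_left (hB t ht) (mul_nonneg hc (h.n2 _ _ _))
    · have h2 : ∀ l ∈ T, wt ev c P1 P2 (some y) (s :: t :: l) = 0 := by
        intro l _
        rw [wt, FF_odd_zero hs hy, zero_mul]
      rw [Finset.sum_eq_zero h2]
      exact mul_nonneg (mul_nonneg hc (h.n2 _ _ _)) hB0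
  calc ∑ s, ∑ t, ∑ l ∈ T, wt ev c P1 P2 (some y) (s :: t :: l)
      ≤ ∑ s, ∑ t, c * P2 s y t * B := Finset.sum_le_sum fun s _ => Finset.sum_le_sum fun t _ => h1 s t
    _ = c * (∑ s, ∑ t, P2 s y t) * B := by
      rw [Finset.mul_sum, Finset.sum_mul]
      refine Finset.sum_congr rfl fun s _ => ?_
      rw [Finset.mul_sum, Finset.sum_mul]
    _ ≤ c * ρ * B := mul_le_mul_of_nonneg_right (mul_le_mul_of_nonneg_left (h.o2 y hy) hc) hB0

theorem sum_one_step (hc : 0 ≤ c) (h : Ker ev P1 P2 ρ b ρ') {y : Λ} (hy : ¬ ev y) :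
    ∑ s, wt ev c P1 P2 (some y) [s] ≤ c * b := by
  have h1 : ∀ s, wt ev c P1 P2 (some y) [s] ≤ c * P1 s y := by
    intro s
    by_cases hs : ev s
    · simp [wt, FF_even hs, fac]
    · rw [wt, FF_odd_zero hs hy, zero_mul]
      exact mul_nonneg hc (h.n1 _ _)
  calc ∑ s, wt ev c P1 P2 (some y) [s] ≤ ∑ s, c * P1 s y := Finset.sum_le_sum fun s _ => h1 s
    _ = c * ∑ s, P1 s y := by rw [Finset.mul_sum]
    _ ≤ c * b := mul_le_mul_of_nonneg_left (h.o1 y hy) hc

/-- from an odd site, an even number of steps -/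
theorem sum_even_steps (hc : 0 ≤ c) (h : Ker ev P1 P2 ρ b ρ') (k : ℕ) {y : Λ} (hy : ¬ ev y) :
    ∑ l ∈ LL Λ (2 * k), wt ev c P1 P2 (some y) l ≤ (c * ρ) ^ k := by
  induction k generalizing y with
  | zero => simp [LL, wt]
  | succ k ih =>
    rw [show 2 * (k + 1) = 2 * k + 1 + 1 from rfl, sum_LL_succ]
    simp_rw [sum_LL_succ]
    refine (sum_two_step hc h hy _ (fun t ht => ih ht) (pow_nonneg (mul_nonneg hc h.r0) _)).trans ?_
    rw [pow_succ]
    exact le_of_eq (by ring)

/-- from an odd site, an odd number of steps -/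
theorem sum_odd_steps (hc : 0 ≤ c) (h : Ker ev P1 P2 ρ b ρ') (k : ℕ) {y : Λ} (hy : ¬ ev y) :
    ∑ l ∈ LL Λ (2 * k + 1), wt ev c P1 P2 (some y) l ≤ (c * ρ) ^ k * (c * b) := by
  induction k generalizing y with
  | zero =>
    rw [sum_LL_succ]
    simpa [LL] using sum_one_step hc h hy
  | succ k ih =>
    rw [show 2 * (k + 1) + 1 = (2 * k + 1) + 1 + 1 from rfl, sum_LL_succ]
    simp_rw [sum_LL_succ _ (fun l => wt ev c P1 P2 (some y) (_ :: l))]
    refine (sum_two_step hc h hy _ (fun t ht => ih ht)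
      (mul_nonneg (pow_nonneg (mul_nonneg hc h.r0) _) (mul_nonneg hc h.b0))).trans ?_
    rw [pow_succ]
    exact le_of_eq (by ring)

/-- from an even site -/
theorem sum_from_even (hc : 0 ≤ c) (h : Ker ev P1 P2 ρ b ρ') {x : Λ} (hx : ev x) (T : Finset (List Λ)) {B : ℝ}
    (hB : ∀ t, ¬ ev t → ∑ l ∈ T, wt ev c P1 P2 (some t) l ≤ B) (hB0 : 0 ≤ B) :
    ∑ t, ∑ l ∈ T, wt ev c P1 P2 none (x :: t :: l) ≤ c * ρ' * B := by
  have h1 : ∀ t, ∑ l ∈ T, wt ev c P1 P2 none (x :: t :: l) ≤ c * P1 x t * B := by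
    intro t
    by_cases ht : ev t
    · have h2 : ∀ l ∈ T, wt ev c P1 P2 none (x :: t :: l) = 0 := by
        intro l _
        simp [wt, FF_even hx, fac, h.z1 x t ht]
      rw [Finset.sum_eq_zero h2, h.z1 x t ht]
      simp
    · have h2 : ∀ l ∈ T, wt ev c P1 P2 none (x :: t :: l) ≤ c * P1 x t * wt ev c P1 P2 (some t) l := by
        intro l _
        simp only [wt, List.head?_cons, FF_even hx, fac]
        have h3 := FF_odd_le (c := c) (P1 := P1) (P2 := P2) ht (some x) l.head?
        have h4 := wt_nonneg hc h (some t) l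
        have h5 : 0 ≤ c * P1 x t := mul_nonneg hc (h.n1 _ _)
        refine mul_le_mul_of_nonneg_left ?_ h5
        calc _ ≤ 1 * wt ev c P1 P2 (some t) l := mul_le_mul_of_nonneg_right h3 h4
          _ = _ := one_mul _
      refine (Finset.sum_le_sum h2).trans ?_
      rw [← Finset.mul_sum]
      exact mul_le_mul_of_nonneg_left (hB t ht) (mul_nonneg hc (h.n1 _ _))
  calc ∑ t, ∑ l ∈ T, wt ev c P1 P2 none (x :: t :: l)
      ≤ ∑ t, c * P1 x t * B := Finset.sum_le_sum fun t _ => h1 t
    _ = c * (∑ t, P1 x t) * B := by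
      rw [Finset.mul_sum, Finset.sum_mul]
    _ ≤ c * ρ' * B := mul_le_mul_of_nonneg_right (mul_le_mul_of_nonneg_left (h.e1 x hx) hc) hB0

/-- all paths with `n + 1` steps -/
theorem sum_all (hc : 0 ≤ c) (h : Ker ev P1 P2 ρ b ρ') (n : ℕ) :
    ∑ l ∈ LL Λ (n + 2), wt ev c P1 P2 none l ≤
      Fintype.card Λ * ((2 * (c * ρ') + c * ρ + c * ρ' * (c * b)) * (c * ρ) ^ (n / 2)) := by
  classical
  have hcρ : 0 ≤ c * ρ := mul_nonneg hc h.r0
  have hcρ' : 0 ≤ c * ρ' := mul_nonneg hc h.r0'
  have hcb : 0 ≤ c * b := mul_nonneg hc h.b0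
  have hK : 0 ≤ c * ρ' * (c * b) := mul_nonneg hcρ' hcb
  -- split according to the parity of the first site
  have hodd : ∀ y, ¬ ev y → ∀ l : List Λ, wt ev c P1 P2 none (y :: l) ≤ wt ev c P1 P2 (some y) l := by
    intro y hy l
    rw [wt]
    calc _ ≤ 1 * wt ev c P1 P2 (some y) l :=
          mul_le_mul_of_nonneg_right (FF_odd_le hy _ _) (wt_nonneg hc h _ _)
      _ = _ := one_mul _
  rcases Nat.even_or_odd' n with ⟨k, hk | hk⟩
  · -- `n + 1 = 2 k + 1` steps
    have hE : ∀ x, ev x → ∑ t, ∑ l ∈ LL Λ (2 * k), wt ev c P1 P2 none (x :: t :: l) ≤ c * ρ' * (c * ρ) ^ k :=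
      fun x hx => sum_from_even hc h hx _ (fun t ht => sum_even_steps hc h k ht) (pow_nonneg hcρ k)
    have hdiv : n / 2 = k := by omega
    -- a path is in one of two classes: even first site, or even last site
    have h1 : ∑ l ∈ LL Λ (n + 2), wt ev c P1 P2 none l ≤
        2 * ∑ x, ∑ t, ∑ l ∈ LL Λ (2 * k), (if ev x then wt ev c P1 P2 none (x :: t :: l) else 0) := by
      have h2 : ∀ l ∈ LL Λ (n + 2), wt ev c P1 P2 none l ≤
          (if ∃ x ∈ l.head?, ev x then wt ev c P1 P2 none l else 0) +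
          (if ∃ x ∈ l.reverse.head?, ev x then wt ev c P1 P2 none l.reverse else 0) := by
        intro l hl
        rw [wt_reverse h]
        have hw := wt_nonneg hc h none l
        by_cases ha : ∃ x ∈ l.head?, ev x
        · rw [if_pos ha]
          split_ifs <;> linarith
        · by_cases hb : ∃ x ∈ l.reverse.head?, ev x
          · rw [if_neg ha, if_pos hb]
            linarith
          · rw [if_neg ha, if_neg hb]
            -- odd first and last sites and an odd number of steps: the weight is zero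
            have key : ∀ (j : ℕ) (y : Λ) (m : List Λ), ¬ ev y → m.length = 2 * j + 1 →
                (∀ x ∈ (y :: m).getLast?, ¬ ev x) → wt ev c P1 P2 (some y) m = 0 := by
              intro j
              induction j with
              | zero =>
                intro y m hy hm hlast
                obtain ⟨s, rfl⟩ := List.length_eq_one_iff.1 hm
                have hs : ¬ ev s := hlast s (by simp)
                rw [wt, FF_odd_zero hs hy, zero_mul]
              | succ j ih =>
                intro y m hy hm hlast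
                rcases m with _ | ⟨s, m⟩
                · simp at hm
                rcases m with _ | ⟨t, m⟩
                · simp at hm
                by_cases hs : ev s
                · by_cases ht : ev t
                  · simp [wt, FF_even hs, fac, h.z2 s y t (Or.inr ht)]
                  · have h3 := ih t m ht (by simp at hm; omega) (by
                      intro x hx
                      refine hlast x ?_
                      rw [List.getLast?_cons_cons, List.getLast?_cons_cons]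
                      exact hx)
                    rw [wt, wt, h3, mul_zero, mul_zero]
                · rw [wt, FF_odd_zero hs hy, zero_mul]
            rcases l with _ | ⟨y, m⟩
            · rw [mem_LL] at hl
              simp at hl
            · have hy : ¬ ev y := fun h4 => ha ⟨y, by simp, h4⟩
              rw [mem_LL] at hl
              have h5 := key k y m hy (by simp at hl; omega) (by
                intro x hx h4
                refine hb ⟨x, ?_, h4⟩
                rw [List.head?_reverse]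
                exact hx)
              rw [wt, h5, mul_zero, add_zero]
      refine (Finset.sum_le_sum h2).trans ?_
      rw [Finset.sum_add_distrib]
      have h3 : ∑ l ∈ LL Λ (n + 2), (if ∃ x ∈ l.reverse.head?, ev x then wt ev c P1 P2 none l.reverse else 0) =
          ∑ l ∈ LL Λ (n + 2), (if ∃ x ∈ l.head?, ev x then wt ev c P1 P2 none l else 0) := by
        refine Finset.sum_nbij' List.reverse List.reverse ?_ ?_ ?_ ?_ ?_
        · intro l hl
          rw [mem_LL] at hl ⊢
          simpa using hl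
        · intro l hl
          rw [mem_LL] at hl ⊢
          simpa using hl
        · intro l _
          exact List.reverse_reverse l
        · intro l _
          exact List.reverse_reverse l
        · intro l _
          rfl
      rw [h3, ← two_mul]
      refine le_of_eq ?_
      congr 1
      rw [show n + 2 = 2 * k + 1 + 1 by omega, sum_LL_succ]
      refine Finset.sum_congr rfl fun x _ => ?_
      rw [sum_LL_succ]
      refine Finset.sum_congr rfl fun t _ => Finset.sum_congr rfl fun l _ => ?_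
      simp
    have h6 : ∑ x, ∑ t, ∑ l ∈ LL Λ (2 * k), (if ev x then wt ev c P1 P2 none (x :: t :: l) else 0) ≤
        ∑ _x : Λ, c * ρ' * (c * ρ) ^ k := by
      refine Finset.sum_le_sum fun x _ => ?_
      by_cases hx : ev x
      · simp only [if_pos hx]
        exact hE x hx
      · simp only [if_neg hx, Finset.sum_const_zero]
        exact mul_nonneg hcρ' (pow_nonneg hcρ k)
    rw [Finset.sum_const, Finset.card_univ, nsmul_eq_mul] at h6
    rw [hdiv]
    have hp : 0 ≤ (c * ρ) ^ k := pow_nonneg hcρ k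
    have hN : (0 : ℝ) ≤ Fintype.card Λ := Nat.cast_nonneg _
    calc _ ≤ _ := h1
      _ ≤ 2 * (Fintype.card Λ * (c * ρ' * (c * ρ) ^ k)) := by linarith
      _ = Fintype.card Λ * ((2 * (c * ρ')) * (c * ρ) ^ k) := by ring
      _ ≤ _ := by
        refine mul_le_mul_of_nonneg_left (mul_le_mul_of_nonneg_right ?_ hp) hN
        linarith
  · -- `n + 1 = 2 k + 2` steps
    have hdiv : n / 2 = k := by omega
    have hE : ∀ x, ev x → ∑ t, ∑ l ∈ LL Λ (2 * k + 1), wt ev c P1 P2 none (x :: t :: l) ≤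
        c * ρ' * ((c * ρ) ^ k * (c * b)) :=
      fun x hx => sum_from_even hc h hx _ (fun t ht => sum_odd_steps hc h k ht)
        (mul_nonneg (pow_nonneg hcρ k) hcb)
    have hO : ∀ y, ¬ ev y → ∑ l ∈ LL Λ (2 * k + 2), wt ev c P1 P2 none (y :: l) ≤ (c * ρ) ^ (k + 1) := by
      intro y hy
      refine (Finset.sum_le_sum fun l _ => hodd y hy l).trans ?_
      have := sum_even_steps hc h (k + 1) hy
      rwa [show 2 * (k + 1) = 2 * k + 2 from rfl] at this
    have hp : 0 ≤ (c * ρ) ^ k := pow_nonneg hcρ k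
    have h1 : ∀ x, ∑ l ∈ LL Λ (2 * k + 2), wt ev c P1 P2 none (x :: l) ≤
        (2 * (c * ρ') + c * ρ + c * ρ' * (c * b)) * (c * ρ) ^ k := by
      intro x
      by_cases hx : ev x
      · rw [show 2 * k + 2 = 2 * k + 1 + 1 from rfl, sum_LL_succ]
        refine (hE x hx).trans ?_
        have : c * ρ' * ((c * ρ) ^ k * (c * b)) = (c * ρ' * (c * b)) * (c * ρ) ^ k := by ring
        rw [this]
        refine mul_le_mul_of_nonneg_right ?_ hp
        linarith
      · refine (hO x hx).trans ?_
        rw [pow_succ, mul_comm]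
        refine mul_le_mul_of_nonneg_right ?_ hp
        linarith
    rw [show n + 2 = 2 * k + 2 + 1 by omega, sum_LL_succ]
    refine (Finset.sum_le_sum fun x _ => h1 x).trans ?_
    rw [Finset.sum_const, Finset.card_univ, nsmul_eq_mul, hdiv]

/-! ## Path sums of bounded length -/

/-- from an odd site, at most `n` steps -/
theorem sum_LT_le (hc : 0 ≤ c) (h : Ker ev P1 P2 ρ b ρ') (hρ : c * ρ ≤ 1 / 2) (n : ℕ) {y : Λ} (hy : ¬ ev y) :
    ∑ l ∈ LT Λ n, wt ev c P1 P2 (some y) l ≤ 2 * (1 + c * b) := by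
  have hcb : 0 ≤ c * b := mul_nonneg hc h.b0
  induction n using Nat.strong_induction_on generalizing y with
  | _ n ih =>
  rcases n with _ | _ | n
  · simp only [LT, Finset.sum_singleton, wt]
    linarith
  · rw [sum_LT_succ]
    simp only [LT, Finset.sum_singleton]
    have := sum_one_step hc h hy
    simp only [wt] at this ⊢
    linarith
  · rw [sum_LT_succ]
    simp_rw [sum_LT_succ n (fun l => wt ev c P1 P2 (some y) (_ :: l))]
    rw [Finset.sum_add_distrib]
    have h1 := sum_one_step hc h hy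
    have h2 := sum_two_step hc h hy (LT Λ n) (B := 2 * (1 + c * b))
      (fun t ht => ih n (by omega) ht) (by linarith)
    have h3 : c * ρ * (2 * (1 + c * b)) ≤ 1 / 2 * (2 * (1 + c * b)) :=
      mul_le_mul_of_nonneg_right hρ (by linarith)
    have h4 : wt ev c P1 P2 (some y) [] = 1 := rfl
    rw [h4]
    linarith

/-- continuation on one side of the even site `x` -/
theorem sum_side (hc : 0 ≤ c) (h : Ker ev P1 P2 ρ b ρ') (hρ : c * ρ ≤ 1 / 2) (n : ℕ) {x : Λ} {t : Λ}
    (ht : ¬ ev t) : ∑ l ∈ LT Λ n, wt ev c P1 P2 (some x) (t :: l) ≤ 2 * (1 + c * b) := by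
  refine (Finset.sum_le_sum fun l _ => ?_).trans (sum_LT_le hc h hρ n ht)
  rw [wt]
  calc _ ≤ 1 * wt ev c P1 P2 (some t) l :=
        mul_le_mul_of_nonneg_right (FF_odd_le ht _ _) (wt_nonneg hc h _ _)
    _ = _ := one_mul _

/-- all paths with at least one step through the even site `x` -/
theorem sum_mid (hc : 0 ≤ c) (h : Ker ev P1 P2 ρ b ρ') (hρ : c * ρ ≤ 1 / 2) (n : ℕ) {x : Λ} (hx : ev x) :
    ∑ l ∈ LT Λ n, ∑ m ∈ LT Λ n, (if l = [] ∧ m = [] then 0 else wt ev c P1 P2 none (l.reverse ++ x :: m)) ≤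
      2 * (c * ρ' * (2 * (1 + c * b))) + c * ρ' * (2 * (1 + c * b)) ^ 2 := by
  have hcb : 0 ≤ c * b := mul_nonneg hc h.b0
  set R := 2 * (1 + c * b) with hR
  have hR0 : 0 ≤ R := by linarith
  have hcρ' : 0 ≤ c * ρ' := mul_nonneg hc h.r0'
  have hmid : ∀ l m, wt ev c P1 P2 none (l.reverse ++ x :: m) =
      wt ev c P1 P2 (some x) l * (c * fac P1 P2 x l.head? m.head?) * wt ev c P1 P2 (some x) m := by
    intro l m
    rw [wt_mid h, FF_even hx]
  have hside : ∀ (g : Λ → ℝ), (∀ t, 0 ≤ g t) → (∀ t, ev t → g t = 0) → ∀ n,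
      ∑ t, ∑ l ∈ LT Λ n, g t * wt ev c P1 P2 (some x) (t :: l) ≤ (∑ t, g t) * R := by
    intro g hg hg0 n
    rw [Finset.sum_mul]
    refine Finset.sum_le_sum fun t _ => ?_
    rw [← Finset.mul_sum]
    by_cases ht : ev t
    · rw [hg0 t ht, zero_mul, zero_mul]
    · exact mul_le_mul_of_nonneg_left (sum_side hc h hρ n ht) (hg t)
  have hone : ∀ n, ∑ t, ∑ m ∈ LT Λ n, c * P1 x t * wt ev c P1 P2 (some x) (t :: m) ≤ c * ρ' * R := by
    intro n
    refine (hside (fun t => c * P1 x t) (fun t => mul_nonneg hc (h.n1 _ _))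
      (fun t ht => by simp [h.z1 x t ht]) n).trans ?_
    rw [← Finset.mul_sum]
    exact mul_le_mul_of_nonneg_right (mul_le_mul_of_nonneg_left (h.e1 x hx) hc) hR0
  rcases n with _ | n
  · simp only [LT, Finset.sum_singleton]
    simp
    positivity
  · rw [sum_LT_succ]
    have hA : ∑ m ∈ LT Λ (n + 1), (if ([] : List Λ) = [] ∧ m = [] then 0 else
        wt ev c P1 P2 none (([] : List Λ).reverse ++ x :: m)) ≤ c * ρ' * R := by
      rw [sum_LT_succ]
      simp only [and_self, if_true, zero_add]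
      refine le_trans (Finset.sum_le_sum fun t _ => Finset.sum_le_sum fun m _ => ?_) (hone n)
      rw [if_neg (by simp), hmid]
      simp only [wt, List.head?_nil, List.head?_cons, fac, one_mul]
      exact le_rfl
    have hB : ∑ t, ∑ l ∈ LT Λ n, ∑ m ∈ LT Λ (n + 1), (if t :: l = [] ∧ m = [] then 0 else
        wt ev c P1 P2 none ((t :: l).reverse ++ x :: m)) ≤ c * ρ' * R + c * ρ' * R ^ 2 := by
      have h1 : ∀ t, ∀ l ∈ LT Λ n, ∑ m ∈ LT Λ (n + 1), (if t :: l = [] ∧ m = [] then 0 else
          wt ev c P1 P2 none ((t :: l).reverse ++ x :: m)) ≤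
          c * P1 x t * wt ev c P1 P2 (some x) (t :: l) +
            (c * ∑ t', P2 x t t') * R * wt ev c P1 P2 (some x) (t :: l) := by
        intro t l _
        have hw := wt_nonneg hc h (some x) (t :: l)
        rw [sum_LT_succ]
        refine add_le_add ?_ ?_
        · rw [if_neg (by simp), hmid]
          simp only [List.head?_cons, List.head?_nil, fac, wt, mul_one]
          exact le_of_eq (by ring)
        · have h2 := hside (fun t' => c * P2 x t t') (fun t' => mul_nonneg hc (h.n2 _ _ _))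
            (fun t' ht' => by simp [h.z2 x t t' (Or.inr ht')]) n
          rw [← Finset.mul_sum] at h2
          refine le_trans (le_of_eq ?_) (mul_le_mul_of_nonneg_right h2 hw)
          rw [Finset.sum_mul]
          refine Finset.sum_congr rfl fun t' _ => ?_
          rw [Finset.sum_mul]
          refine Finset.sum_congr rfl fun m _ => ?_
          rw [if_neg (by simp), hmid]
          simp only [List.head?_cons, fac]
          ring
      refine (Finset.sum_le_sum fun t _ => Finset.sum_le_sum fun l hl => h1 t l hl).trans ?_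
      simp_rw [Finset.sum_add_distrib]
      refine add_le_add (hone n) ?_
      refine (hside (fun t => (c * ∑ t', P2 x t t') * R)
        (fun t => mul_nonneg (mul_nonneg hc (Finset.sum_nonneg fun t' _ => h.n2 _ _ _)) hR0)
        (fun t ht => by
          rw [Finset.sum_eq_zero fun t' _ => h.z2 x t t' (Or.inl ht)]
          simp) n).trans ?_
      rw [← Finset.sum_mul, ← Finset.mul_sum]
      have h3 := h.e2 x hx
      calc c * (∑ t, ∑ t', P2 x t t') * R * R = c * (∑ t, ∑ t', P2 x t t') * R ^ 2 := by ring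
        _ ≤ c * ρ' * R ^ 2 := mul_le_mul_of_nonneg_right (mul_le_mul_of_nonneg_left h3 hc) (sq_nonneg _)
    linarith

end weights

/-! ## Probabilities -/

section prob
variable {Λ : Type*} [Fintype Λ] [DecidableEq Λ] {α : Type*} [DecidableEq α]

/-- conflict of two consecutive sites -/
def cfl (ev : Λ → Prop) (cf : Λ → Λ → α → Prop) (ω : Λ → α) (s t : Λ) : Prop :=
  (ev s ∧ ¬ ev t ∧ cf s t (ω s)) ∨ (¬ ev s ∧ ev t ∧ cf t s (ω t))

/-- constraint at the site `s` of a path, neighbours `a`, `b` -/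
def con (ev : Λ → Prop) (cf : Λ → Λ → α → Prop) (s : Λ) (a b : Option Λ) (v : α) : Prop :=
  (ev s → (∀ p ∈ a, ¬ ev p ∧ cf s p v) ∧ (∀ p ∈ b, ¬ ev p ∧ cf s p v)) ∧
    (¬ ev s → (∀ p ∈ a, ev p) ∧ (∀ p ∈ b, ev p))

/-- the constraints at the sites of a path, given the site before it -/
def evt (ev : Λ → Prop) (cf : Λ → Λ → α → Prop) : Option Λ → List Λ → (Λ → α) → Prop
  | _, [], _ => True
  | a, s :: l, ω => con ev cf s a l.head? (ω s) ∧ evt ev cf (some s) l ω

variable {ev : Λ → Prop} {cf : Λ → Λ → α → Prop}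

theorem evt_of_chain (ω : Λ → α) (l : List Λ) (a : Option Λ) (ha : ∀ p ∈ a, ∀ s ∈ l.head?, cfl ev cf ω p s)
    (hl : l.IsChain (cfl ev cf ω)) : evt ev cf a l ω := by
  induction l generalizing a with
  | nil => trivial
  | cons s l ih =>
    rw [List.isChain_cons] at hl
    refine ⟨⟨fun hs => ⟨fun p hp => ?_, fun p hp => ?_⟩, fun hs => ⟨fun p hp => ?_, fun p hp => ?_⟩⟩,
      ih (some s) (fun p hp t ht => ?_) hl.2⟩
    · rcases ha p hp s rfl with h | h
      · exact absurd hs h.2.1
      · exact ⟨h.1, h.2.2⟩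
    · rcases hl.1 p hp with h | h
      · exact ⟨h.2.1, h.2.2⟩
      · exact absurd hs h.1
    · rcases ha p hp s rfl with h | h
      · exact h.1
      · exact absurd h.2.1 hs
    · rcases hl.1 p hp with h | h
      · exact absurd h.1 hs
      · exact h.2.1
    · rw [Option.mem_some_iff] at hp
      subst hp
      exact hl.1 t ht

theorem dep_evt (a : Option Λ) (l : List Λ) : dep l.toFinset (evt ev cf a l) := by
  induction l generalizing a with
  | nil => exact fun _ _ _ => Iff.rfl
  | cons s l ih =>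
    intro ω ω' h
    have h1 : ω s = ω' s := h s (by simp)
    have h2 := ih (some s) ω ω' fun i hi => h i (by
      rw [List.toFinset_cons]
      exact Finset.mem_insert_of_mem hi)
    simp only [evt]
    rw [h1, h2]

theorem dep_site (s : Λ) (A : α → Prop) : dep ({s} : Finset Λ) fun ω : Λ → α => A (ω s) := by
  intro ω ω' h
  show A (ω s) ↔ A (ω' s)
  rw [h s (Finset.mem_singleton_self s)]

open scoped Classical in
theorem cnt_site (S : Λ → Finset α) (s : Λ) (A : α → Prop) :
    cnt S (fun ω => A (ω s)) * (S s).card = ((S s).filter A).card * cnt S fun _ => True := by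
  unfold cnt
  rw [← Nat.cast_mul, ← Nat.cast_mul, ← Finset.card_product, ← Finset.card_product]
  congr 1
  refine Finset.card_nbij' (fun p => (p.1 s, Function.update p.1 s p.2))
    (fun p => (Function.update p.2 s p.1, p.2 s)) ?_ ?_ ?_ ?_
  · rintro ⟨ω, a⟩ hp
    simp only [Finset.coe_product, Set.mem_prod, Finset.mem_coe, Finset.mem_filter, Fintype.mem_piFinset] at hp ⊢
    refine ⟨⟨hp.1.1 s, hp.1.2⟩, fun i => ?_, trivial⟩
    by_cases hi : i = s
    · subst hi
      simpa using hp.2
    · simpa [hi] using hp.1.1 i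
  · rintro ⟨a, ω⟩ hp
    simp only [Finset.coe_product, Set.mem_prod, Finset.mem_coe, Finset.mem_filter, Fintype.mem_piFinset] at hp ⊢
    refine ⟨⟨fun i => ?_, by simpa using hp.1.2⟩, hp.2.1 s⟩
    by_cases hi : i = s
    · subst hi
      simpa using hp.1.1
    · simpa [hi] using hp.2.1 i
  · rintro ⟨ω, a⟩ _
    simp
  · rintro ⟨a, ω⟩ _
    simp

open scoped Classical in
/-- the kernels bound the probabilities of the conflicts at one even site -/
structure PKer (S : Λ → Finset α) (ev : Λ → Prop) (cf : Λ → Λ → α → Prop) (P1 : Λ → Λ → ℝ)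
    (P2 : Λ → Λ → Λ → ℝ) : Prop where
  ne : ∀ i, (S i).Nonempty
  p1 : ∀ x y, ev x → ¬ ev y → (((S x).filter fun a => cf x y a).card : ℝ) ≤ P1 x y * (S x).card
  p2 : ∀ x y y', ev x → ¬ ev y → ¬ ev y' → y ≠ y' →
    (((S x).filter fun a => cf x y a ∧ cf x y' a).card : ℝ) ≤ P2 x y y' * (S x).card

variable {S : Λ → Finset α} {P1 : Λ → Λ → ℝ} {P2 : Λ → Λ → Λ → ℝ}

theorem con_le (hS : PKer S ev cf P1 P2) (h1 : ∀ x y, 0 ≤ P1 x y) (h2 : ∀ x y y', 0 ≤ P2 x y y')
    (s : Λ) (a b : Option Λ) (hab : ∀ p ∈ a, p ∉ b) :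
    cnt S (fun ω => con ev cf s a b (ω s)) ≤ FF ev 1 P1 P2 s a b * cnt S fun _ => True := by
  classical
  have htop := cnt_true_pos hS.ne
  have hs0 : (0 : ℝ) < (S s).card := by exact_mod_cast (hS.ne s).card_pos
  have hs := cnt_site S s (con ev cf s a b)
  -- it is enough to bound the number of values
  have key : (((S s).filter (con ev cf s a b)).card : ℝ) ≤ FF ev 1 P1 P2 s a b * (S s).card →
      cnt S (fun ω => con ev cf s a b (ω s)) ≤ FF ev 1 P1 P2 s a b * cnt S fun _ => True := by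
    intro h
    have h3 : cnt S (fun ω => con ev cf s a b (ω s)) * (S s).card ≤
        (FF ev 1 P1 P2 s a b * cnt S fun _ => True) * (S s).card := by
      rw [hs]
      calc _ ≤ (FF ev 1 P1 P2 s a b * (S s).card) * cnt S (fun _ => True) :=
            mul_le_mul_of_nonneg_right h htop.le
        _ = _ := by ring
    exact le_of_mul_le_mul_right h3 hs0
  apply key
  by_cases he : ev s
  · rw [FF_even he, one_mul]
    have hz : ∀ A : α → Prop, (∀ v, con ev cf s a b v → A v) →
        (((S s).filter (con ev cf s a b)).card : ℝ) ≤ (((S s).filter A).card : ℝ) := by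
      intro A hA
      refine Nat.cast_le.2 (Finset.card_le_card fun v hv => ?_)
      rw [Finset.mem_filter] at hv ⊢
      exact ⟨hv.1, hA v hv.2⟩
    have hf : ((∃ p ∈ a, ev p) ∨ ∃ p ∈ b, ev p) → (((S s).filter (con ev cf s a b)).card : ℝ) = 0 := by
      rintro h
      have : (S s).filter (con ev cf s a b) = ∅ := by
        rw [Finset.filter_eq_empty_iff]
        intro v _ hv
        rcases h with ⟨p, hp, h⟩ | ⟨p, hp, h⟩
        · exact ((hv.1 he).1 p hp).1 h
        · exact ((hv.1 he).2 p hp).1 h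
      rw [this]
      simp
    have hfac : 0 ≤ fac P1 P2 s a b * (S s).card := by
      refine mul_nonneg ?_ hs0.le
      cases a <;> cases b <;> simp [fac, h1, h2]
    by_cases hp : (∃ p ∈ a, ev p) ∨ ∃ p ∈ b, ev p
    · rw [hf hp]
      exact hfac
    · rw [not_or] at hp
      rcases a with _ | y <;> rcases b with _ | y'
      · simp only [fac, one_mul]
        exact Nat.cast_le.2 (Finset.card_filter_le _ _)
      · have hy' : ¬ ev y' := fun h => hp.2 ⟨y', rfl, h⟩
        exact (hz (fun v => cf s y' v) fun v hv => ((hv.1 he).2 y' rfl).2).trans (hS.p1 s y' he hy')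
      · have hy : ¬ ev y := fun h => hp.1 ⟨y, rfl, h⟩
        exact (hz (fun v => cf s y v) fun v hv => ((hv.1 he).1 y rfl).2).trans (hS.p1 s y he hy)
      · have hy : ¬ ev y := fun h => hp.1 ⟨y, rfl, h⟩
        have hy' : ¬ ev y' := fun h => hp.2 ⟨y', rfl, h⟩
        have hne : y ≠ y' := fun h => hab y rfl (by rw [h]; rfl)
        refine le_trans ?_ (hS.p2 s y y' he hy hy' hne)
        refine Nat.cast_le.2 (Finset.card_le_card fun v hv => ?_)
        simp only [Finset.mem_filter] at hv ⊢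
        exact ⟨hv.1, ((hv.2.1 he).1 y rfl).2, ((hv.2.1 he).2 y' rfl).2⟩
  · unfold FF
    rw [if_neg he]
    split_ifs with h
    · have : (S s).filter (con ev cf s a b) = ∅ := by
        rw [Finset.filter_eq_empty_iff]
        intro v _ hv
        rcases h with ⟨p, hp, h⟩ | ⟨p, hp, h⟩
        · exact h ((hv.2 he).1 p hp)
        · exact h ((hv.2 he).2 p hp)
      rw [this]
      simp
    · rw [one_mul]
      exact Nat.cast_le.2 (Finset.card_filter_le _ _)

/-- the probability of a path is at most its weight -/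
theorem evt_le (hS : PKer S ev cf P1 P2) (h1 : ∀ x y, 0 ≤ P1 x y) (h2 : ∀ x y y', 0 ≤ P2 x y y')
    (l : List Λ) (a : Option Λ) (hl : l.Nodup) (ha : ∀ p ∈ a, p ∉ l) :
    cnt S (evt ev cf a l) ≤ wt ev 1 P1 P2 a l * cnt S fun _ => True := by
  classical
  induction l generalizing a with
  | nil =>
    simp only [wt, one_mul]
    exact cnt_mono fun _ _ _ => trivial
  | cons s l ih =>
    have htop := cnt_true_pos hS.ne
    rw [List.nodup_cons] at hl
    have hi := cnt_indep S (V := {s}) (W := l.toFinset)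
      (by rw [Finset.disjoint_singleton_left, List.mem_toFinset]; exact hl.1)
      (dep_site s (con ev cf s a l.head?)) (dep_evt (cf := cf) (ev := ev) (some s) l)
    have h3 := con_le hS h1 h2 s a l.head? (by
      intro p hp hp'
      exact ha p hp (List.mem_cons_of_mem _ (List.mem_of_mem_head? hp')))
    have h4 := ih (some s) hl.2 (by
      intro p hp
      rw [Option.mem_some_iff] at hp
      rw [← hp]
      exact hl.1)
    have h5 : cnt S (evt ev cf a (s :: l)) * cnt S (fun _ => True) ≤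
        (FF ev 1 P1 P2 s a l.head? * cnt S fun _ => True) * (wt ev 1 P1 P2 (some s) l * cnt S fun _ => True) := by
      change cnt S (fun ω => con ev cf s a l.head? (ω s) ∧ evt ev cf (some s) l ω) * _ ≤ _
      rw [hi]
      exact mul_le_mul h3 h4 (cnt_nonneg _ _) ((cnt_nonneg _ _).trans h3)
    rw [wt]
    refine le_of_mul_le_mul_right (h5.trans (le_of_eq ?_)) htop
    ring

/-- the probability that all the edges of a self-avoiding path are conflict edges -/
theorem chain_le (hS : PKer S ev cf P1 P2) (h1 : ∀ x y, 0 ≤ P1 x y) (h2 : ∀ x y y', 0 ≤ P2 x y y')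
    (l : List Λ) (hl : l.Nodup) :
    cnt S (fun ω => l.IsChain (cfl ev cf ω)) ≤ wt ev 1 P1 P2 none l * cnt S fun _ => True :=
  (cnt_mono fun ω _ h => evt_of_chain ω l none (by simp) h).trans
    (evt_le hS h1 h2 l none hl (by simp))

end prob

end Pool.Agent.LC

end

/-! ### from `Lib_MP_2c424f_lc3.Defs3` -/

section

/-!
# MP_2c424f_pr, linear corners, Part III (balance): definitions

A pair `(f, g)` of colourings is one function `ω : V → Fin q × Fin q`.  `f` uses the colours of `A` at the even vertices,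
`g` those of `B ⊆ A`; `A \ B = J1 ∪ J2`, `|J1| = |J2| = j`, `|A| + |B| = q`.
-/

set_option autoImplicit false

open Finset Filter

namespace Pool.Agent.LC3

open Pool.Agent.LO Pool.Agent.LIN Pool.Agent.THR Pool.Agent.COR Pool.Agent.LC

/-! ## Pairs of colourings -/

section pairs
variable {V : Type} [Fintype V] [DecidableEq V] {q : ℕ}

/-- the first colouring of a pair -/
def fo (ω : V → Fin q × Fin q) : V → Fin q := fun v => (ω v).1

/-- the second colouring of a pair -/
def go (ω : V → Fin q × Fin q) : V → Fin q := fun v => (ω v).2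

/-- both colourings are proper -/
def PrP (G : SimpleGraph V) (ω : V → Fin q × Fin q) : Prop := PrG G (fo ω) ∧ PrG G (go ω)

open scoped Classical in
/-- number of pairs of proper colourings with the property `P` -/
noncomputable def cP (G : SimpleGraph V) (P : (V → Fin q × Fin q) → Prop) : ℝ :=
  ((univ.filter fun ω : V → Fin q × Fin q => PrP G ω ∧ P ω).card : ℝ)

/-- the pairs agree at the odd vertices -/
def so (ev : V → Prop) (ω ω' : V → Fin q × Fin q) : Prop := ∀ v, ¬ ev v → ω v = ω' v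

open scoped Classical in
/-- the pairs of proper colourings which agree with `ω` at the odd vertices -/
noncomputable def cl (G : SimpleGraph V) (ev : V → Prop) (ω : V → Fin q × Fin q) : Finset (V → Fin q × Fin q) :=
  univ.filter fun ω' => PrP G ω' ∧ so ev ω' ω

open scoped Classical in
/-- possible values at `v`, given the odd vertices -/
noncomputable def Sx (G : SimpleGraph V) (ev : V → Prop) (ω : V → Fin q × Fin q) (v : V) : Finset (Fin q × Fin q) :=
  if ev v then Rv G (fo ω) v ×ˢ Rv G (go ω) v else {ω v}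

/-- exchange of two colours in the first colouring -/
def sw1 (a b : Fin q) (ω : V → Fin q × Fin q) : V → Fin q × Fin q := fun v => (Equiv.swap a b (ω v).1, (ω v).2)

/-- exchange of two colours in the second colouring -/
def sw2 (a b : Fin q) (ω : V → Fin q × Fin q) : V → Fin q × Fin q := fun v => ((ω v).1, Equiv.swap a b (ω v).2)

open scoped Classical in
/-- at most `|V| / d^6` of the conditions which depend on the odd vertices only fail -/
def TTo (d : ℕ) (G : SimpleGraph V) (ev : V → Prop) (A : Finset (Fin q)) (F : V → Fin q) : Prop :=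
  ((univ.filter fun v => (ev v ∧ ¬ TyE d G ev A F v) ∨ (¬ ev v ∧ ¬ TyO d G ev A F v)).card : ℝ) ≤
    Fintype.card V / (d : ℝ) ^ 6

end pairs

/-! ## The data -/

open scoped Classical in
/-- the data of the balance argument -/
structure Bal (V : Type) [Fintype V] (d q j : ℕ) where
  G : SimpleGraph V
  ev : V → Prop
  A : Finset (Fin q)
  B : Finset (Fin q)
  J1 : Finset (Fin q)
  J2 : Finset (Fin q)
  rg : Rg d q
  dl : 10 ^ 10 ≤ d
  par : Par G ev
  deg : ∀ v, (nb G v).card = 2 * d
  half : 2 * (univ.filter fun v => ev v).card = Fintype.card V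
  sub : B ⊆ A
  un : A \ B = J1 ∪ J2
  dis : Disjoint J1 J2
  c1 : J1.card = j
  c2 : J2.card = j
  AB : A.card + B.card = q
  j1 : 1 ≤ j
  jq : 50 * j ≤ q

section bal
variable {V : Type} [Fintype V] [DecidableEq V] {d q j : ℕ}

/-- a colour of `J1` occurs -/
def s1 (D : Bal V d q j) (a : Fin q × Fin q) : Prop := a.1 ∈ D.J1 ∨ a.2 ∈ D.J1

/-- a colour of `J2` occurs -/
def s2 (D : Bal V d q j) (a : Fin q × Fin q) : Prop := a.1 ∈ D.J2 ∨ a.2 ∈ D.J2

open scoped Classical in
/-- the atypical vertices; depends on the odd vertices only -/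
noncomputable def X0 (D : Bal V d q j) (ω : V → Fin q × Fin q) : Finset V :=
  univ.filter fun v => (D.ev v ∧ ¬ (TyE d D.G D.ev D.A (fo ω) v ∧ TyE d D.G D.ev D.B (go ω) v)) ∨
    (¬ D.ev v ∧ ¬ cert d D.G D.ev D.A D.B (fo ω) (go ω) v)

open scoped Classical in
/-- the odd vertices with a colour of `J1` and one of `J2` -/
noncomputable def X00 (D : Bal V d q j) (ω : V → Fin q × Fin q) : Finset V :=
  univ.filter fun v => ¬ D.ev v ∧ s1 D (ω v) ∧ s2 D (ω v)

/-- the deleted vertices -/
noncomputable def Del (D : Bal V d q j) (ω : V → Fin q × Fin q) : Finset V := X0 D ω ∪ X00 D ω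

/-- generic conflict edge: the common colour is not in `J` -/
def gc (D : Bal V d q j) (ω : V → Fin q × Fin q) (s t : V) : Prop :=
  D.G.Adj s t ∧ (((ω s).1 = (ω t).2 ∧ (ω s).1 ∉ D.A \ D.B) ∨ ((ω s).2 = (ω t).1 ∧ (ω s).2 ∉ D.A \ D.B))

/-- generic path outside `X0` -/
def gen (D : Bal V d q j) (ω : V → Fin q × Fin q) (l : List V) : Prop :=
  (∀ s ∈ l, s ∉ X0 D ω) ∧ l.IsChain (gc D ω)

/-- chain: a generic path outside `Del` from a colour of `J1` to a colour of `J2` -/
def Ech (D : Bal V d q j) (ω : V → Fin q × Fin q) (l : List V) : Prop :=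
  (∀ s ∈ l, s ∉ Del D ω) ∧ l.IsChain (gc D ω) ∧ (∃ s ∈ l.head?, s1 D (ω s)) ∧ ∃ s ∈ l.getLast?, s2 D (ω s)

open scoped Classical in
/-- self-avoiding lists which contain an even vertex -/
noncomputable def Pth (D : Bal V d q j) : Finset (List V) :=
  (Pool.Agent.LC.LT V (Fintype.card V)).filter fun l => l.Nodup ∧ ∃ s ∈ l, D.ev s

open scoped Classical in
/-- number of even vertices of a list -/
noncomputable def evl (D : Bal V d q j) (l : List V) : ℕ := (l.filter fun s => D.ev s).length

/-- no chain -/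
def NL (D : Bal V d q j) (ω : V → Fin q × Fin q) : Prop := ∀ l ∈ Pth D, ¬ Ech D ω l

open scoped Classical in
/-- number of chains, with the weights `4^e` -/
noncomputable def wch (D : Bal V d q j) (ω : V → Fin q × Fin q) : ℝ :=
  ∑ l ∈ Pth D, if Ech D ω l then (4 : ℝ) ^ evl D l else 0

/-- its mean, given the odd vertices -/
noncomputable def Wcl (D : Bal V d q j) (ω : V → Fin q × Fin q) : ℝ :=
  (∑ ω' ∈ cl D.G D.ev ω, wch D ω') / ((cl D.G D.ev ω).card : ℝ)

open scoped Classical in
/-- pairs of proper colourings, typical up to few vertices -/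
noncomputable def OM (D : Bal V d q j) : Finset (V → Fin q × Fin q) :=
  univ.filter fun ω => PrP D.G ω ∧ TTo d D.G D.ev D.A (fo ω) ∧ TTo d D.G D.ev D.B (go ω)

open scoped Classical in
/-- number of the odd vertices with a colour of `J'` in the first colouring -/
noncomputable def nJ (D : Bal V d q j) (J' : Finset (Fin q)) (ω : V → Fin q × Fin q) : ℝ :=
  ((univ.filter fun v => ¬ D.ev v ∧ (ω v).1 ∈ J').card : ℝ)

/-- `(j/q)^2 |V|` -/
noncomputable def jN (D : Bal V d q j) : ℝ := ((j : ℝ) / q) ^ 2 * Fintype.card V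

/-- the odd vertices are typical -/
def QQ (D : Bal V d q j) (ω : V → Fin q × Fin q) : Prop :=
  Wcl D ω ≤ jN D / 10 ^ 20 ∧ ((X00 D ω).card : ℝ) ≤ jN D / 10 ^ 20 ∧
    nJ D D.J1 ω ≤ (j : ℝ) / q * Fintype.card V / 10 ^ 20 ∧ nJ D D.J2 ω ≤ (j : ℝ) / q * Fintype.card V / 10 ^ 20

/-! ## The kernels of the conflict walk -/

/-- conflict of the even vertex `x` with the value `a` and the odd vertex `y`, given the odd vertices -/
def cfB (D : Bal V d q j) (ω₀ : V → Fin q × Fin q) (x y : V) (a : Fin q × Fin q) : Prop :=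
  D.G.Adj x y ∧ x ∉ X0 D ω₀ ∧ y ∉ X0 D ω₀ ∧ cj (D.A \ D.B) (fo ω₀) (go ω₀) y a.1 a.2

open scoped Classical in
/-- its probability -/
noncomputable def P1B (D : Bal V d q j) (ω₀ : V → Fin q × Fin q) (x y : V) : ℝ :=
  if D.ev x ∧ ¬ D.ev y ∧ D.G.Adj x y ∧ x ∉ X0 D ω₀ ∧ y ∉ X0 D ω₀ then
    (((Rv D.G (fo ω₀) x ×ˢ Rv D.G (go ω₀) x).filter fun a => cj (D.A \ D.B) (fo ω₀) (go ω₀) y a.1 a.2).card : ℝ) /
      (((Rv D.G (fo ω₀) x).card : ℝ) * ((Rv D.G (go ω₀) x).card : ℝ)) else 0

open scoped Classical in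
/-- the probability of the conflicts of `x` with `y` and `y'` -/
noncomputable def P2B (D : Bal V d q j) (ω₀ : V → Fin q × Fin q) (x y y' : V) : ℝ :=
  if D.ev x ∧ ¬ D.ev y ∧ ¬ D.ev y' ∧ D.G.Adj x y ∧ D.G.Adj x y' ∧ y ≠ y' ∧ x ∉ X0 D ω₀ ∧ y ∉ X0 D ω₀ ∧ y' ∉ X0 D ω₀ then
    pc D.G (D.A \ D.B) (fo ω₀) (go ω₀) x y y' else 0

/-! ## Images of the swap -/

open scoped Classical in
/-- pairs before the swap, with `X0 = X`, `X00 = Y` -/
def src (D : Bal V d q j) (X Y : Finset V) (ω : V → Fin q × Fin q) : Prop :=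
  PrP D.G ω ∧ X0 D ω = X ∧ X00 D ω = Y ∧ NL D ω ∧
    nJ D D.J1 ω ≤ (j : ℝ) / q * Fintype.card V / 10 ^ 20 ∧ nJ D D.J2 ω ≤ (j : ℝ) / q * Fintype.card V / 10 ^ 20

open scoped Classical in
/-- pairs after the swap -/
def tgt (D : Bal V d q j) (X Y : Finset V) (ω : V → Fin q × Fin q) : Prop :=
  PrP (dlG D.G (X ∪ Y)) ω ∧ (∀ y ∈ Y, s1 D (ω y) ∧ s2 D (ω y)) ∧
    (∀ x, D.ev x → x ∉ X → ¬ ((ω x).1 ∈ D.J2 ∧ (ω x).2 ∈ D.J1)) ∧
    (((univ.filter fun v => ¬ D.ev v ∧ v ∉ X ∪ Y ∧ (ω v).1 ∈ D.J2).card : ℝ) ≤ (j : ℝ) / q * Fintype.card V / 10 ^ 20) ∧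
    (((univ.filter fun v => ¬ D.ev v ∧ v ∉ X ∪ Y ∧ (ω v).2 ∈ D.J1).card : ℝ) ≤ (j : ℝ) / q * Fintype.card V / 10 ^ 20)

end bal

end Pool.Agent.LC3

end

/-! ### from `Lib_MP_2c424f_lc3.T00` -/

section

/-!
# Part III, T00: numbers

`Rg d q` gives `1000 q ≤ 2 d ≤ 2000 q`, so `1000 ≤ a = 2 d / q ≤ 2000` (`q ≥ 1` because `d ≥ 1`).  `e^{-a/2} ≤ e^{-500} ≤ 2^{-500}`;
`rh d q = 200 a^2 e^{-a/2} ≤ 8 * 10^8 * 2^{-500}`.
`card_B`: `|A| = |B| + 2 j` (`sub`, `un`, `dis`, `c1`, `c2`), so `2 |B| = q - 2 j ≥ q - q/25`;  `card_Ac`: `|Aᶜ| = q - |A| = |B|`.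
-/

set_option autoImplicit false

open Finset Filter

namespace Pool.Agent.LC3

open Pool.Agent.LO Pool.Agent.LIN Pool.Agent.THR Pool.Agent.COR Pool.Agent.LC

theorem num_q {d q : ℕ} (hR : Rg d q) (hd : 1 ≤ d) : 1 ≤ q ∧ 500 * q ≤ d ∧ d ≤ 1000 * q := by
  obtain ⟨_, h1, h2⟩ := hR
  refine ⟨by omega, by omega, by omega⟩

theorem num_a {d q : ℕ} (hR : Rg d q) (hd : 1 ≤ d) : 1000 ≤ ra d q ∧ ra d q ≤ 2000 := by
  obtain ⟨h0, _, _⟩ := num_q hR hd
  obtain ⟨_, h1, h2⟩ := hR
  have hq : (0 : ℝ) < q := by exact_mod_cast h0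
  have h1' : 1000 * (q : ℝ) ≤ 2 * d := by exact_mod_cast h1
  have h2' : 2 * (d : ℝ) ≤ 2000 * q := by exact_mod_cast h2
  unfold ra
  exact ⟨by rw [le_div_iff₀ hq]; exact h1', by rw [div_le_iff₀ hq]; exact h2'⟩

private theorem T00_exp : Real.exp (-500) ≤ 1 / 10 ^ 100 := by
  have h1 : Real.exp (-1) ≤ 1 / 2 := by
    rw [Real.exp_neg, one_div]
    refine inv_anti₀ (by norm_num) ?_
    have := Real.exp_one_gt_d9
    linarith
  have h2 : Real.exp (-500) = Real.exp (-1) ^ 500 := by
    rw [← Real.exp_nat_mul]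
    norm_num
  rw [h2]
  calc Real.exp (-1) ^ 500 ≤ (1 / 2) ^ 500 := pow_le_pow_left₀ (Real.exp_pos _).le h1 _
    _ = ((1 / 2) ^ 10) ^ 50 := by rw [← pow_mul]
    _ ≤ (1 / 10 ^ 3) ^ 50 := pow_le_pow_left₀ (by norm_num) (by norm_num) _
    _ ≤ 1 / 10 ^ 100 := by norm_num

theorem num_e {d q : ℕ} (hR : Rg d q) (hd : 1 ≤ d) :
    Real.exp (-ra d q) ≤ 1 / 10 ^ 100 ∧ Real.exp (-ra d q / 2) ≤ 1 / 10 ^ 100 ∧ rh d q ≤ 1 / 10 ^ 60 := by
  obtain ⟨h1, h2⟩ := num_a hR hd
  have h3 : Real.exp (-ra d q / 2) ≤ 1 / 10 ^ 100 :=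
    (Real.exp_le_exp.2 (by linarith)).trans T00_exp
  refine ⟨(Real.exp_le_exp.2 (by linarith)).trans T00_exp, h3, ?_⟩
  unfold rh
  have h4 : ra d q ^ 2 ≤ 2000 ^ 2 := pow_le_pow_left₀ (by linarith) h2 _
  calc 200 * ra d q ^ 2 * Real.exp (-ra d q / 2) ≤ 200 * 2000 ^ 2 * (1 / 10 ^ 100) := by
        refine mul_le_mul (by linarith) h3 (Real.exp_pos _).le (by norm_num)
    _ ≤ 1 / 10 ^ 60 := by norm_num

section
variable {V : Type} [Fintype V] [DecidableEq V] {d q j : ℕ}

theorem card_B (D : Bal V d q j) : D.A.card = D.B.card + 2 * j ∧ (48 : ℝ) / 100 * q ≤ D.B.card := by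
  classical
  have h1 : (D.A \ D.B).card = j + j := by
    have h := Finset.card_union_of_disjoint D.dis
    rw [D.c1, D.c2] at h
    rw [D.un]
    exact h
  have h2 : (D.A \ D.B).card + D.B.card = D.A.card := Finset.card_sdiff_add_card_eq_card D.sub
  have h3 : D.A.card = D.B.card + 2 * j := by omega
  refine ⟨h3, ?_⟩
  have h4 := D.AB
  have h5 := D.jq
  have h6 : 48 * q ≤ 100 * D.B.card := by omega
  have h7 : 48 * (q : ℝ) ≤ 100 * (D.B.card : ℝ) := by exact_mod_cast h6
  linarith

theorem card_Ac (D : Bal V d q j) : (D.Aᶜ).card = D.B.card := by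
  rw [Finset.card_compl, Fintype.card_fin]
  have := D.AB
  omega

end

end Pool.Agent.LC3

end

/-! ### from `Lib_MP_2c424f_lc3.T01` -/

section

/-!
# Part III, T01: automorphisms of the graph and permutations of the colours

`s` an automorphism of `G`, `π` a permutation of the colours, `F' x = π (F (s x))`.  Then `nb G (s v)` is the image of `nb G v` under `s`;
`Rv G F' v` is the image of `Rv G F (s v)` under `π`, `Rc G F' v w` that of `Rc G F (s v) (s w)`;  `nv G F' v (π c) = nv G F (s v) c`,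
`nc G F' v w (π c) = nc G F (s v) (s w) c`.  `hT` says that the types agree.  Reindex the sums over the colours by `π` and those over the
neighbours by `s`.
-/

set_option autoImplicit false

open Finset Filter

namespace Pool.Agent.LC3

open Pool.Agent.LO Pool.Agent.LIN Pool.Agent.THR Pool.Agent.COR Pool.Agent.LC

section
variable {V : Type} [Fintype V] [DecidableEq V] {d q : ℕ}

omit [DecidableEq V] in
open scoped Classical in
private theorem T01_nb (G : SimpleGraph V) (s : Equiv.Perm V) (hs : ∀ x y, G.Adj (s x) (s y) ↔ G.Adj x y) (v x : V) :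
    x ∈ nb G v ↔ s x ∈ nb G (s v) := by
  unfold nb
  rw [Finset.mem_filter, Finset.mem_filter]
  exact ⟨fun h => ⟨Finset.mem_univ _, (hs v x).2 h.2⟩, fun h => ⟨Finset.mem_univ _, (hs v x).1 h.2⟩⟩

omit [DecidableEq V] in
open scoped Classical in
private theorem T01_Rc (G : SimpleGraph V) (s : Equiv.Perm V) (hs : ∀ x y, G.Adj (s x) (s y) ↔ G.Adj x y)
    (π : Equiv.Perm (Fin q)) (F : V → Fin q) (v w : V) (c : Fin q) :
    π c ∈ Rc G (fun x => π (F (s x))) v w ↔ c ∈ Rc G F (s v) (s w) := by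
  unfold Rc
  rw [Finset.mem_filter, Finset.mem_filter]
  constructor
  · rintro ⟨_, h⟩
    refine ⟨Finset.mem_univ _, fun y hy hyw hF => ?_⟩
    have h1 : G.Adj v (s.symm y) := by
      rw [← hs, Equiv.apply_symm_apply]
      exact hy
    refine h (s.symm y) h1 ?_ ?_
    · intro e
      apply hyw
      rw [← e, Equiv.apply_symm_apply]
    · show π (F (s (s.symm y))) = π c
      rw [Equiv.apply_symm_apply, hF]
  · rintro ⟨_, h⟩
    refine ⟨Finset.mem_univ _, fun x hx hxw hF => ?_⟩
    exact h (s x) ((hs v x).2 hx) (fun e => hxw (s.injective e)) (π.injective hF)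

omit [DecidableEq V] in
open scoped Classical in
private theorem T01_Rv (G : SimpleGraph V) (s : Equiv.Perm V) (hs : ∀ x y, G.Adj (s x) (s y) ↔ G.Adj x y)
    (π : Equiv.Perm (Fin q)) (F : V → Fin q) (v : V) (c : Fin q) :
    π c ∈ Rv G (fun x => π (F (s x))) v ↔ c ∈ Rv G F (s v) := by
  unfold Rv
  rw [Finset.mem_filter, Finset.mem_filter]
  constructor
  · rintro ⟨_, h⟩
    refine ⟨Finset.mem_univ _, fun y hy hF => ?_⟩
    have h1 : G.Adj v (s.symm y) := by
      rw [← hs, Equiv.apply_symm_apply]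
      exact hy
    refine h (s.symm y) h1 ?_
    show π (F (s (s.symm y))) = π c
    rw [Equiv.apply_symm_apply, hF]
  · rintro ⟨_, h⟩
    refine ⟨Finset.mem_univ _, fun x hx hF => ?_⟩
    exact h (s x) ((hs v x).2 hx) (π.injective hF)

omit [DecidableEq V] in
open scoped Classical in
private theorem T01_nc (G : SimpleGraph V) (s : Equiv.Perm V) (hs : ∀ x y, G.Adj (s x) (s y) ↔ G.Adj x y)
    (π : Equiv.Perm (Fin q)) (F : V → Fin q) (v w : V) (c : Fin q) :
    nc G (fun x => π (F (s x))) v w (π c) = nc G F (s v) (s w) c := by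
  unfold nc
  refine Finset.card_bijective s s.bijective fun x => ?_
  rw [Finset.mem_filter, Finset.mem_filter, hs]
  constructor
  · rintro ⟨_, h1, h2, h3⟩
    exact ⟨Finset.mem_univ _, h1, fun e => h2 (s.injective e), π.injective h3⟩
  · rintro ⟨_, h1, h2, h3⟩
    exact ⟨Finset.mem_univ _, h1, fun e => h2 (congrArg s e), congrArg π h3⟩

omit [DecidableEq V] in
open scoped Classical in
private theorem T01_nv (G : SimpleGraph V) (s : Equiv.Perm V) (hs : ∀ x y, G.Adj (s x) (s y) ↔ G.Adj x y)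
    (π : Equiv.Perm (Fin q)) (F : V → Fin q) (v : V) (c : Fin q) :
    nv G (fun x => π (F (s x))) v (π c) = nv G F (s v) c := by
  unfold nv
  refine Finset.card_bijective s s.bijective fun x => ?_
  rw [Finset.mem_filter, Finset.mem_filter, hs]
  constructor
  · rintro ⟨_, h1, h3⟩
    exact ⟨Finset.mem_univ _, h1, π.injective h3⟩
  · rintro ⟨_, h1, h3⟩
    exact ⟨Finset.mem_univ _, h1, congrArg π h3⟩

omit [DecidableEq V] in
open scoped Classical in
private theorem T01_e1 (G : SimpleGraph V) (s : Equiv.Perm V) (hs : ∀ x y, G.Adj (s x) (s y) ↔ G.Adj x y)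
    (π : Equiv.Perm (Fin q)) (F : V → Fin q) (v : V) (c : Fin q) :
    ((nb G v).filter fun x => π c ∈ Rc G (fun x => π (F (s x))) x v).card =
      ((nb G (s v)).filter fun x => c ∈ Rc G F x (s v)).card := by
  refine Finset.card_bijective s s.bijective fun x => ?_
  rw [Finset.mem_filter, Finset.mem_filter, T01_nb G s hs, T01_Rc G s hs]

omit [DecidableEq V] in
open scoped Classical in
private theorem T01_sum (G : SimpleGraph V) (s : Equiv.Perm V) (hs : ∀ x y, G.Adj (s x) (s y) ↔ G.Adj x y)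
    (π : Equiv.Perm (Fin q)) (F : V → Fin q) (v : V) (c : Fin q) (p : ℕ) :
    ∑ x ∈ nb G v, (nc G (fun x => π (F (s x))) x v (π c) : ℝ) ^ p = ∑ x ∈ nb G (s v), (nc G F x (s v) c : ℝ) ^ p := by
  refine Finset.sum_bijective s s.bijective (fun x => T01_nb G s hs v x) fun x _ => ?_
  rw [T01_nc G s hs]

omit [DecidableEq V] in
open scoped Classical in
private theorem T01_sum1 (G : SimpleGraph V) (s : Equiv.Perm V) (hs : ∀ x y, G.Adj (s x) (s y) ↔ G.Adj x y)
    (π : Equiv.Perm (Fin q)) (F : V → Fin q) (v : V) (c : Fin q) :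
    ∑ x ∈ nb G v, (nc G (fun x => π (F (s x))) x v (π c) : ℝ) = ∑ x ∈ nb G (s v), (nc G F x (s v) c : ℝ) := by
  refine Finset.sum_bijective s s.bijective (fun x => T01_nb G s hs v x) fun x _ => ?_
  rw [T01_nc G s hs]

theorem TyO_iso (G : SimpleGraph V) (ev : V → Prop) (s : Equiv.Perm V) (hs : ∀ x y, G.Adj (s x) (s y) ↔ G.Adj x y)
    (π : Equiv.Perm (Fin q)) (A B : Finset (Fin q)) (hT : ∀ v c, tS ev B v (π c) ↔ tS ev A (s v) c)
    (F : V → Fin q) (v : V) :
    TyO d G ev B (fun x => π (F (s x))) v ↔ TyO d G ev A F (s v) := by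
  constructor
  · intro h
    refine ⟨fun c hc => ?_, fun c => ?_, fun c hc => ?_⟩
    · rw [← T01_e1 G s hs π F v c]
      exact h.o1 (π c) ((hT v c).2 hc)
    · rw [← T01_sum G s hs π F v c 2]
      exact h.o2 (π c)
    · rw [← T01_sum1 G s hs π F v c]
      exact h.o3 (π c) (fun e => hc ((hT v c).1 e))
  · intro h
    refine ⟨fun c hc => ?_, fun c => ?_, fun c hc => ?_⟩
    · obtain ⟨c, rfl⟩ := π.surjective c
      rw [T01_e1 G s hs π F v c]
      exact h.o1 c ((hT v c).1 hc)
    · obtain ⟨c, rfl⟩ := π.surjective c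
      rw [T01_sum G s hs π F v c 2]
      exact h.o2 c
    · obtain ⟨c, rfl⟩ := π.surjective c
      rw [T01_sum1 G s hs π F v c]
      exact h.o3 c (fun e => hc ((hT v c).2 e))

omit [DecidableEq V] in
open scoped Classical in
private theorem T01_c1 (G : SimpleGraph V) (s : Equiv.Perm V) (hs : ∀ x y, G.Adj (s x) (s y) ↔ G.Adj x y)
    (π : Equiv.Perm (Fin q)) (F : V → Fin q) (v : V) :
    (Rv G F (s v)).card = (Rv G (fun x => π (F (s x))) v).card :=
  Finset.card_bijective π π.bijective fun c => (T01_Rv G s hs π F v c).symm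

omit [DecidableEq V] in
open scoped Classical in
private theorem T01_c2 (G : SimpleGraph V) (ev : V → Prop) (s : Equiv.Perm V) (hs : ∀ x y, G.Adj (s x) (s y) ↔ G.Adj x y)
    (π : Equiv.Perm (Fin q)) (A B : Finset (Fin q)) (hT : ∀ v c, tS ev B v (π c) ↔ tS ev A (s v) c) (F : V → Fin q) (v : V) :
    ((Rv G F (s v)).filter fun c => ¬ tS ev A (s v) c).card =
      ((Rv G (fun x => π (F (s x))) v).filter fun c => ¬ tS ev B v c).card := by
  refine Finset.card_bijective π π.bijective fun c => ?_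
  rw [Finset.mem_filter, Finset.mem_filter, T01_Rv G s hs π F v c, hT]

omit [DecidableEq V] in
open scoped Classical in
private theorem T01_c3 (G : SimpleGraph V) (s : Equiv.Perm V) (hs : ∀ x y, G.Adj (s x) (s y) ↔ G.Adj x y)
    (π : Equiv.Perm (Fin q)) (F : V → Fin q) (v : V) :
    ∑ c, (nv G F (s v) c : ℝ) ^ 4 = ∑ c, (nv G (fun x => π (F (s x))) v c : ℝ) ^ 4 := by
  refine Finset.sum_bijective π π.bijective (fun c => by simp only [Finset.mem_univ]) fun c _ => ?_
  rw [T01_nv G s hs]

omit [DecidableEq V] in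
open scoped Classical in
private theorem T01_c4 (G : SimpleGraph V) (ev : V → Prop) (s : Equiv.Perm V) (hs : ∀ x y, G.Adj (s x) (s y) ↔ G.Adj x y)
    (π : Equiv.Perm (Fin q)) (A B : Finset (Fin q)) (hT : ∀ v c, tS ev B v (π c) ↔ tS ev A (s v) c) (F : V → Fin q) (v : V) :
    ∑ c ∈ univ.filter (fun c => tS ev A (s v) c), (nv G F (s v) c : ℝ) ^ 2 =
      ∑ c ∈ univ.filter (fun c => tS ev B v c), (nv G (fun x => π (F (s x))) v c : ℝ) ^ 2 := by
  refine Finset.sum_bijective π π.bijective (fun c => ?_) fun c _ => ?_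
  · rw [Finset.mem_filter, Finset.mem_filter, hT]
    simp only [Finset.mem_univ, true_and]
  · rw [T01_nv G s hs]

theorem TyE_iso (G : SimpleGraph V) (ev : V → Prop) (s : Equiv.Perm V) (hs : ∀ x y, G.Adj (s x) (s y) ↔ G.Adj x y)
    (π : Equiv.Perm (Fin q)) (A B : Finset (Fin q)) (hT : ∀ v c, tS ev B v (π c) ↔ tS ev A (s v) c)
    (F : V → Fin q) (v : V) :
    TyE d G ev B (fun x => π (F (s x))) v ↔ TyE d G ev A F (s v) := by
  constructor
  · intro h
    refine ⟨?_, ?_, ?_, ?_⟩
    · rw [T01_c1 G s hs π F v]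
      exact h.e1
    · rw [T01_c2 G ev s hs π A B hT F v]
      exact h.e2
    · rw [T01_c3 G s hs π F v]
      exact h.e3
    · rw [T01_c4 G ev s hs π A B hT F v]
      exact h.e4
  · intro h
    refine ⟨?_, ?_, ?_, ?_⟩
    · rw [← T01_c1 G s hs π F v]
      exact h.e1
    · rw [← T01_c2 G ev s hs π A B hT F v]
      exact h.e2
    · rw [← T01_c3 G s hs π F v]
      exact h.e3
    · rw [← T01_c4 G ev s hs π A B hT F v]
      exact h.e4

end

end Pool.Agent.LC3

end

/-! ### from `Lib_MP_2c424f_lc3.T03` -/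

section

/-!
# Part III, T03: exchange of two colours

`T01` with `s = 1` and `π = Equiv.swap a b`; `tS ev A v (π c) ↔ tS ev A v c` because `π` preserves `A`.
-/

set_option autoImplicit false

open Finset Filter

namespace Pool.Agent.LC3

open Pool.Agent.LO Pool.Agent.LIN Pool.Agent.THR Pool.Agent.COR Pool.Agent.LC

section
variable {V : Type} [Fintype V] [DecidableEq V] {d q j : ℕ}

private theorem T03_swap {a b : Fin q} {A : Finset (Fin q)} (h : a ∈ A ↔ b ∈ A) (c : Fin q) :
    Equiv.swap a b c ∈ A ↔ c ∈ A := by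
  rcases eq_or_ne c a with rfl | h1
  · rw [Equiv.swap_apply_left]
    exact h.symm
  · rcases eq_or_ne c b with rfl | h2
    · rw [Equiv.swap_apply_right]
      exact h
    · rw [Equiv.swap_apply_of_ne_of_ne h1 h2]

private theorem T03_TyO (G : SimpleGraph V) (ev : V → Prop) {a b : Fin q} {A : Finset (Fin q)}
    (h : a ∈ A ↔ b ∈ A) (F : V → Fin q) (v : V) :
    TyO d G ev A (fun x => Equiv.swap a b (F x)) v ↔ TyO d G ev A F v := by
  have := TyO_iso (d := d) G ev (Equiv.refl V) (fun _ _ => Iff.rfl) (Equiv.swap a b) A A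
    (fun v c => by
      unfold tS
      rw [T03_swap h]
      rfl) F v
  simpa using this

private theorem T03_TyE (G : SimpleGraph V) (ev : V → Prop) {a b : Fin q} {A : Finset (Fin q)}
    (h : a ∈ A ↔ b ∈ A) (F : V → Fin q) (v : V) :
    TyE d G ev A (fun x => Equiv.swap a b (F x)) v ↔ TyE d G ev A F v := by
  have := TyE_iso (d := d) G ev (Equiv.refl V) (fun _ _ => Iff.rfl) (Equiv.swap a b) A A
    (fun v c => by
      unfold tS
      rw [T03_swap h]
      rfl) F v
  simpa using this

private theorem T03_PrG (G : SimpleGraph V) (a b : Fin q) (F : V → Fin q) :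
    PrG G (fun x => Equiv.swap a b (F x)) ↔ PrG G F := by
  unfold PrG
  simp

private theorem T03_TTo (G : SimpleGraph V) (ev : V → Prop) {a b : Fin q} {A : Finset (Fin q)}
    (h : a ∈ A ↔ b ∈ A) (F : V → Fin q) :
    TTo d G ev A (fun x => Equiv.swap a b (F x)) ↔ TTo d G ev A F := by
  classical
  have h1 : (univ.filter fun v => (ev v ∧ ¬ TyE d G ev A (fun x => Equiv.swap a b (F x)) v) ∨
      (¬ ev v ∧ ¬ TyO d G ev A (fun x => Equiv.swap a b (F x)) v)) =
      univ.filter fun v => (ev v ∧ ¬ TyE d G ev A F v) ∨ (¬ ev v ∧ ¬ TyO d G ev A F v) := by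
    ext v
    simp only [Finset.mem_filter, T03_TyO G ev h, T03_TyE G ev h]
  unfold TTo
  constructor
  · intro h2
    convert h2 using 3
    convert h1.symm
  · intro h2
    convert h2 using 3

private theorem T03_cert (G : SimpleGraph V) (ev : V → Prop) {a b : Fin q} {A B : Finset (Fin q)}
    (h : a ∈ A ↔ b ∈ A) (F F' : V → Fin q) (y : V) :
    cert d G ev A B (fun x => Equiv.swap a b (F x)) F' y ↔ cert d G ev A B F F' y := by
  unfold cert
  simp only [T03_TyO G ev h, T03_TyE G ev h]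

private theorem T03_cert' (G : SimpleGraph V) (ev : V → Prop) {a b : Fin q} {A B : Finset (Fin q)}
    (h : a ∈ B ↔ b ∈ B) (F F' : V → Fin q) (y : V) :
    cert d G ev A B F (fun x => Equiv.swap a b (F' x)) y ↔ cert d G ev A B F F' y := by
  unfold cert
  simp only [T03_TyO G ev h, T03_TyE G ev h]

private theorem T03_fo1 (a b : Fin q) (ω : V → Fin q × Fin q) :
    fo (sw1 a b ω) = fun v => Equiv.swap a b (fo ω v) := rfl

private theorem T03_go1 (a b : Fin q) (ω : V → Fin q × Fin q) : go (sw1 a b ω) = go ω := rfl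

private theorem T03_fo2 (a b : Fin q) (ω : V → Fin q × Fin q) : fo (sw2 a b ω) = fo ω := rfl

private theorem T03_go2 (a b : Fin q) (ω : V → Fin q × Fin q) :
    go (sw2 a b ω) = fun v => Equiv.swap a b (go ω v) := rfl

theorem OM_sw1 (D : Bal V d q j) {a b : Fin q} (h : a ∈ D.A ↔ b ∈ D.A) {ω : V → Fin q × Fin q} (hω : ω ∈ OM D) :
    sw1 a b ω ∈ OM D := by
  simp only [OM, PrP, Finset.mem_filter] at hω ⊢
  rw [T03_fo1, T03_go1, T03_PrG, T03_TTo _ _ h]
  exact ⟨Finset.mem_univ _, hω.2⟩

theorem OM_sw2 (D : Bal V d q j) {a b : Fin q} (h : a ∈ D.B ↔ b ∈ D.B) {ω : V → Fin q × Fin q} (hω : ω ∈ OM D) :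
    sw2 a b ω ∈ OM D := by
  simp only [OM, PrP, Finset.mem_filter] at hω ⊢
  rw [T03_fo2, T03_go2, T03_PrG, T03_TTo _ _ h]
  exact ⟨Finset.mem_univ _, hω.2⟩

theorem X0_sw1 (D : Bal V d q j) {a b : Fin q} (h : a ∈ D.A ↔ b ∈ D.A) (ω : V → Fin q × Fin q) :
    X0 D (sw1 a b ω) = X0 D ω := by
  ext v
  simp only [X0, Finset.mem_filter, T03_fo1, T03_go1, T03_TyE D.G D.ev h, T03_cert D.G D.ev h]

theorem X0_sw2 (D : Bal V d q j) {a b : Fin q} (h : a ∈ D.B ↔ b ∈ D.B) (ω : V → Fin q × Fin q) :
    X0 D (sw2 a b ω) = X0 D ω := by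
  ext v
  simp only [X0, Finset.mem_filter, T03_fo2, T03_go2, T03_TyE D.G D.ev h, T03_cert' D.G D.ev h]

end

end Pool.Agent.LC3

end

/-! ### from `Lib_MP_2c424f_lc3.T06` -/

section

/-!
# Part III, T06: recolouring one occurrence of `J` (port)

`port1`: the map `(ω, c) ↦ (sw1 i c ω, i)`, `i = (ω s).1 ∈ J'`, `c ∈ B` not the first colour of a vertex of `T`, into
`{ω' ∈ OM : E ω', (ω' s).1 ∈ B} × J'` is injective: `c = (sw1 i c ω s).1`, and `sw1 i c` is an involution.  `i, c ∈ A` (`J' ⊆ A`, `B ⊆ A`), so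
`OM_sw1`.  For every `ω` at least `|B| - |T|` colours `c` are allowed.  (If `|B| < |T|` the left side is `≤ 0`.)
`port2`: the same in the second colouring with `c ∉ A`; `i ∉ B`, `c ∉ B`, so `OM_sw2`.
-/

set_option autoImplicit false

open Finset Filter

namespace Pool.Agent.LC3

open Pool.Agent.LO Pool.Agent.LIN Pool.Agent.THR Pool.Agent.COR Pool.Agent.LC

private theorem T06_count {Ω κ : Type} (S S' : Finset Ω) (J' : Finset κ)
    (C : Ω → Finset κ) (col : Ω → κ) (F : κ → κ → Ω → Ω) (N : ℝ)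
    (h1 : ∀ ω ∈ S, col ω ∈ J') (h2 : ∀ ω ∈ S, ∀ c ∈ C ω, F (col ω) c ω ∈ S')
    (h3 : ∀ ω ∈ S, ∀ c ∈ C ω, col (F (col ω) c ω) = c) (h4 : ∀ a c ω, F a c (F a c ω) = ω)
    (h5 : ∀ ω ∈ S, N ≤ ((C ω).card : ℝ)) : (S.card : ℝ) * N ≤ J'.card * (S'.card : ℝ) := by
  classical
  have h6 : (S.sigma C).card ≤ (J' ×ˢ S').card := by
    refine Finset.card_le_card_of_injOn (fun p => (col p.1, F (col p.1) p.2 p.1)) ?_ ?_
    · intro p hp
      have hp' := Finset.mem_sigma.1 (Finset.mem_coe.1 hp)
      exact Finset.mem_coe.2 (Finset.mem_product.2 ⟨h1 _ hp'.1, h2 _ hp'.1 _ hp'.2⟩)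
    · rintro ⟨ω, c⟩ hp ⟨ω', c'⟩ hp' heq
      have h7 := Finset.mem_sigma.1 (Finset.mem_coe.1 hp)
      have h8 := Finset.mem_sigma.1 (Finset.mem_coe.1 hp')
      simp only [Prod.mk.injEq] at heq
      obtain ⟨e1, e2⟩ := heq
      have e3 : c = c' := by
        have a1 := h3 ω h7.1 c h7.2
        have a2 := h3 ω' h8.1 c' h8.2
        rw [← a1, ← a2, e2]
      subst e3
      have e4 : ω = ω' := by
        rw [e1] at e2
        have a3 := congrArg (F (col ω') c) e2
        rw [h4, h4] at a3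
        exact a3
      subst e4
      rfl
  rw [Finset.card_sigma, Finset.card_product] at h6
  have h9 : (S.card : ℝ) * N ≤ ((∑ ω ∈ S, (C ω).card : ℕ) : ℝ) := by
    push_cast
    rw [← nsmul_eq_mul]
    exact Finset.card_nsmul_le_sum _ _ _ h5
  refine h9.trans ?_
  exact_mod_cast h6

section
variable {V : Type} [Fintype V] [DecidableEq V] {d q j : ℕ}

private theorem T06_sw1 (a c : Fin q) (ω : V → Fin q × Fin q) : sw1 a c (sw1 a c ω) = ω := by
  funext v
  unfold sw1
  simp

private theorem T06_sw2 (a c : Fin q) (ω : V → Fin q × Fin q) : sw2 a c (sw2 a c ω) = ω := by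
  funext v
  unfold sw2
  simp

private theorem T06_card (W : Finset (Fin q)) (T : Finset V) (φ : V → Fin q) (P : Fin q → Prop) [DecidablePred P]
    (hP : ∀ c, P c ↔ ∀ t ∈ T, φ t ≠ c) :
    (W.card : ℝ) - T.card ≤ ((W.filter P).card : ℝ) := by
  classical
  have h1 : W ⊆ (W.filter P) ∪ T.image φ := by
    intro c hc
    by_cases h : P c
    · exact Finset.mem_union_left _ (Finset.mem_filter.2 ⟨hc, h⟩)
    · rw [hP] at h
      push Not at h
      obtain ⟨t, ht, h2⟩ := h
      exact Finset.mem_union_right _ (Finset.mem_image.2 ⟨t, ht, h2⟩)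
  have h2 : W.card ≤ (W.filter P).card + T.card :=
    (Finset.card_le_card h1).trans ((Finset.card_union_le _ _).trans
      (Nat.add_le_add_left Finset.card_image_le _))
  have h3 : (W.card : ℝ) ≤ ((W.filter P).card : ℝ) + T.card := by exact_mod_cast h2
  linarith

open scoped Classical in
theorem port1 (D : Bal V d q j) (J' : Finset (Fin q)) (hJ : J' ⊆ D.A \ D.B) (E : (V → Fin q × Fin q) → Prop)
    (T : Finset V) (s : V) (hs : s ∈ T)
    (hE : ∀ ω, E ω → (ω s).1 ∈ J' → ∀ c ∈ D.B, (∀ t ∈ T, (ω t).1 ≠ c) → E (sw1 (ω s).1 c ω)) :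
    (((OM D).filter fun ω => E ω ∧ (ω s).1 ∈ J').card : ℝ) * ((D.B.card : ℝ) - T.card) ≤
      J'.card * (((OM D).filter fun ω => E ω ∧ (ω s).1 ∈ D.B).card : ℝ) := by
  refine T06_count _ _ J' (fun ω => D.B.filter fun c => ∀ t ∈ T, (ω t).1 ≠ c) (fun ω => (ω s).1) sw1 _ ?_ ?_ ?_
    T06_sw1 ?_
  · intro ω hω
    exact (Finset.mem_filter.1 hω).2.2
  · intro ω hω c hc
    obtain ⟨h1, h2, h3⟩ := Finset.mem_filter.1 hω
    obtain ⟨h4, h5⟩ := Finset.mem_filter.1 hc
    have h6 : (ω s).1 ∈ D.A := (Finset.mem_sdiff.1 (hJ h3)).1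
    have h7 : c ∈ D.A := D.sub h4
    refine Finset.mem_filter.2 ⟨OM_sw1 D (iff_of_true h6 h7) h1, hE ω h2 h3 c h4 h5, ?_⟩
    unfold sw1
    simp only [Equiv.swap_apply_left]
    exact h4
  · intro ω _ c _
    simp [sw1]
  · intro ω _
    exact T06_card D.B T (fun v => (ω v).1) _ fun c => Iff.rfl

open scoped Classical in
theorem port2 (D : Bal V d q j) (J' : Finset (Fin q)) (hJ : J' ⊆ D.A \ D.B) (E : (V → Fin q × Fin q) → Prop)
    (T : Finset V) (s : V) (hs : s ∈ T)
    (hE : ∀ ω, E ω → (ω s).2 ∈ J' → ∀ c, c ∉ D.A → (∀ t ∈ T, (ω t).2 ≠ c) → E (sw2 (ω s).2 c ω)) :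
    (((OM D).filter fun ω => E ω ∧ (ω s).2 ∈ J').card : ℝ) * (((D.Aᶜ).card : ℝ) - T.card) ≤
      J'.card * (((OM D).filter fun ω => E ω ∧ (ω s).2 ∉ D.A).card : ℝ) := by
  refine T06_count _ _ J' (fun ω => (D.Aᶜ).filter fun c => ∀ t ∈ T, (ω t).2 ≠ c) (fun ω => (ω s).2) sw2 _ ?_ ?_ ?_
    T06_sw2 ?_
  · intro ω hω
    exact (Finset.mem_filter.1 hω).2.2
  · intro ω hω c hc
    obtain ⟨h1, h2, h3⟩ := Finset.mem_filter.1 hω
    obtain ⟨h4, h5⟩ := Finset.mem_filter.1 hc
    have h4' : c ∉ D.A := Finset.mem_compl.1 h4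
    have h6 : (ω s).2 ∉ D.B := (Finset.mem_sdiff.1 (hJ h3)).2
    have h7 : c ∉ D.B := fun h => h4' (D.sub h)
    refine Finset.mem_filter.2 ⟨OM_sw2 D (iff_of_false h6 h7) h1, hE ω h2 h3 c h4' h5, ?_⟩
    unfold sw2
    simp only [Equiv.swap_apply_left]
    exact h4'
  · intro ω _ c _
    simp [sw2]
  · intro ω _
    exact T06_card (D.Aᶜ) T (fun v => (ω v).2) _ fun c => Iff.rfl

end

end Pool.Agent.LC3

end
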