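import Pool.Agent.Lib_MP_2c424f_m.M01

/-!
# MP_2c424f_pr, q_c grows linearly: merged library part M03

Concatenation of smaller files (each in its own section), only to save build time.
-/

namespace Pool.Agent.LO
end Pool.Agent.LO

namespace Pool.Agent.LIN
end Pool.Agent.LIN

namespace Pool.Agent.THR
end Pool.Agent.THR

namespace Pool.Agent.COR
end Pool.Agent.COR

namespace Pool.Agent.LC
end Pool.Agent.LC

/-! ### from `Lib_MP_2c424f_lo.LemB` -/

section

/-!
# All blocks bad (piece LEMB)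

For each block `1 ≤ (5/δ) Var_t + (2/δ) ∑_j (mj - mt)`.
-/

set_option autoImplicit false

open Finset

namespace Pool.Agent.LO

variable {d k q : ℕ}

private lemma lemB_r1 {δ v s : ℝ} (hδ : 0 < δ) (hv : δ / 5 ≤ v) (hs : 0 ≤ s) :
    1 ≤ 5 / δ * v + 2 / δ * s := by
  have h1 : (1 : ℝ) = 5 / δ * (δ / 5) := by field_simp
  have h2 : 5 / δ * (δ / 5) ≤ 5 / δ * v := mul_le_mul_of_nonneg_left hv (by positivity)
  have h3 : 0 ≤ 2 / δ * s := by positivity
  linarith

private lemma lemB_r2 {δ v s : ℝ} (hδ : 0 < δ) (hv : 0 ≤ v) (hs : δ / 2 ≤ s) :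
    1 ≤ 5 / δ * v + 2 / δ * s := by
  have h1 : (1 : ℝ) = 2 / δ * (δ / 2) := by field_simp
  have h2 : 2 / δ * (δ / 2) ≤ 2 / δ * s := mul_le_mul_of_nonneg_left hs (by positivity)
  have h3 : 0 ≤ 5 / δ * v := by positivity
  linarith

private lemma lemB_r3 {δ M D x I Q V S : ℝ} (hδ : 0 < δ) (hD : 0 < D) (hx : 0 < x) (hI : 0 ≤ I)
    (hV : V ≤ 1 / 4 * (8 * x * I) / D) (hS : S ≤ x * (8 / D * Q))
    (hM : M ≤ 5 / δ * V + 2 / δ * S) : δ * (M * D) / (16 * x) ≤ I + Q := by
  have h1 : 5 / δ * V ≤ 5 / δ * (1 / 4 * (8 * x * I) / D) :=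
    mul_le_mul_of_nonneg_left hV (by positivity)
  have h2 : 2 / δ * S ≤ 2 / δ * (x * (8 / D * Q)) := mul_le_mul_of_nonneg_left hS (by positivity)
  have h3 : M ≤ 5 / δ * (1 / 4 * (8 * x * I) / D) + 2 / δ * (x * (8 / D * Q)) := by linarith
  have h4 := mul_le_mul_of_nonneg_left h3 (by positivity : (0 : ℝ) ≤ δ * D)
  have e1 : δ * D * (5 / δ * (1 / 4 * (8 * x * I) / D) + 2 / δ * (x * (8 / D * Q))) =
      10 * (x * I) + 16 * (x * Q) := by
    field_simp
    ring
  rw [e1] at h4
  rw [div_le_iff₀ (by positivity)]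
  have h5 : 0 ≤ x * I := by positivity
  nlinarith

private lemma lemB_pm_nonneg (χ : Site d (k + 1) → ℝ) (hχ : ∀ x, χ x = 0 ∨ χ x = 1)
    (t : Blk d k) : 0 ≤ pm χ t * (1 - pm χ t) := by
  have h0 : 0 ≤ pm χ t := by
    unfold pm
    refine div_nonneg (sum_nonneg fun a _ => sum_nonneg fun b _ => ?_) (by positivity)
    rcases hχ (pt t a b) with h | h <;> rw [h]
    exact zero_le_one
  have h1 : pm χ t ≤ 1 := by
    unfold pm
    rw [div_le_one (by positivity)]
    have h2 : ∑ a : Bt d, ∑ b : Bt d, χ (pt t a b) ≤ ∑ a : Bt d, ∑ b : Bt d, (1 : ℝ) := by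
      refine sum_le_sum fun a _ => sum_le_sum fun b _ => ?_
      rcases hχ (pt t a b) with h | h <;> rw [h]
      exact zero_le_one
    refine h2.trans (le_of_eq ?_)
    simp only [sum_const, card_univ, Fintype.card_fun, Fintype.card_bool, Fintype.card_fin,
      nsmul_eq_mul, mul_one, Nat.cast_pow, Nat.cast_ofNat]
    rw [← mul_pow]
    norm_num
  exact mul_nonneg h0 (sub_nonneg.2 h1)

theorem lemB (hd : 1 ≤ d) (hq : 1 ≤ q) (f : Site d (k + 1) → Fin q) (c : Fin q)
    (h : ∀ t : Blk d k, bad c t f) :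
    dl q * NN d (k + 1) / (16 * d) ≤ II f c + QQ f c := by
  obtain ⟨χ, hχ, hz, hI⟩ := exists_chi hd (Nat.le_add_left 1 k) f c
  have hq' : (1 : ℝ) ≤ q := by exact_mod_cast hq
  have hd' : (1 : ℝ) ≤ d := by exact_mod_cast hd
  have hδ0 : 0 < dl q := by unfold dl; positivity
  have hδ1 : dl q ≤ 1 / 2 := by
    unfold dl
    rw [div_le_div_iff₀ (by positivity) (by norm_num)]
    linarith
  have hmj : ∀ (t : Blk d k) (j : Fin d), 0 ≤ mj f t c j - mt f t c := fun t j =>
    sub_nonneg.2 ((mt_le_mb f t c).trans (mb_le_mj f t c j))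
  have key : ∀ t : Blk d k, 1 ≤ 5 / dl q * (pm χ t * (1 - pm χ t)) +
      2 / dl q * ∑ j, (mj f t c j - mt f t c) := by
    intro t
    have hb1 : mb f t c < 1 - dl q := not_le.1 (h t).1
    obtain ⟨j0, hj0⟩ := not_forall.1 (h t).2
    have hj0' : dl q < mj f t c j0 := not_le.1 hj0
    have hsum : 0 ≤ ∑ j, (mj f t c j - mt f t c) := sum_nonneg fun j _ => hmj t j
    by_cases hm : dl q / 2 ≤ mt f t c
    · exact lemB_r1 hδ0 (var_ge hd f c χ hχ hz t hδ0 hδ1 hm ((mt_le_mb f t c).trans hb1.le)) hsum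
    · have hm' : mt f t c < dl q / 2 := not_le.1 hm
      have h3 : mj f t c j0 - mt f t c ≤ ∑ j, (mj f t c j - mt f t c) :=
        single_le_sum (f := fun j => mj f t c j - mt f t c) (fun j _ => hmj t j) (mem_univ j0)
      refine lemB_r2 hδ0 (lemB_pm_nonneg χ hχ t) (le_trans ?_ h3)
      linarith
  have hcard : ∑ _t : Blk d k, (1 : ℝ) = (2 ^ k) ^ d := by
    simp [ZMod.card]
  have hsum := sum_le_sum fun t (_ : t ∈ (univ : Finset (Blk d k))) => key t
  rw [hcard, sum_add_distrib, ← mul_sum, ← mul_sum, sum_comm] at hsum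
  have hv := sum_var χ hχ
  have hj : ∑ j : Fin d, ∑ t : Blk d k, (mj f t c j - mt f t c) ≤
      d * (8 / 2 ^ d * QQ f c) := by
    refine (sum_le_sum fun j _ => sum_mj f c j).trans (le_of_eq ?_)
    rw [sum_const, card_univ, Fintype.card_fin, nsmul_eq_mul]
  have hII : 0 ≤ II f c := by
    have h1 : 0 ≤ ∑ j : Fin d, ∑ x, (|χ (x + sv (j, true)) - χ x| + |χ (x + sv (j, false)) - χ x|) :=
      sum_nonneg fun j _ => sum_nonneg fun x _ => add_nonneg (abs_nonneg _) (abs_nonneg _)
    have h2 : 0 ≤ 8 * (d : ℝ) * II f c := h1.trans hI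
    exact nonneg_of_mul_nonneg_right h2 (by positivity)
  have hv' : ∑ t : Blk d k, pm χ t * (1 - pm χ t) ≤ 1 / 4 * (8 * d * II f c) / 2 ^ d := by
    refine hv.trans (div_le_div_of_nonneg_right ?_ (by positivity))
    exact mul_le_mul_of_nonneg_left hI (by norm_num)
  have hNN : NN d (k + 1) = (2 ^ k) ^ d * 2 ^ d := by
    unfold NN
    rw [pow_succ, mul_pow]
  rw [hNN]
  exact lemB_r3 hδ0 (by positivity) (by positivity) hII hv' hj hsum

end Pool.Agent.LO

end

/-! ### from `Lib_MP_2c424f_lc5.V10b` -/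

section

/-!
# Part V, V10b: the first two terms

`y` odd, `f₁` satisfies `TyO` at `y` with respect to `A₁`, `f₂` with respect to `A₂`, and `c ∉ A₁` or `c ∈ A₂`.
If `c ∈ A₂`: `(y, c)` is of type B for `A₂`; (O3) of `f₂`: the sum is at most `∑ nc G f₂ x y c ≤ e^{-a/2} 2d`.
If `c ∉ A₁`: `(y, c)` is of type S for `A₁`; `Rv G f₁ x ⊆ Rc G f₁ x y`, so by (O1) at most `ep 2d` of the `x ~ y` contribute;
Cauchy-Schwarz and (O2) of `f₂`: the sum is at most `(ep 2d)^{1/2} (20 a² 2d)^{1/2} = 2d (20 ep a²)^{1/2} = 2d (20 a)^{1/2} e^{-a/2}`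
(`ep = e^{-a}/a`), and `(20 a)^{1/2} ≤ a` for `a ≥ 20`.
-/

set_option autoImplicit false

open Finset Filter

namespace Pool.Agent.LC

open Pool.Agent.LO Pool.Agent.LIN Pool.Agent.THR Pool.Agent.COR

open scoped Classical in
theorem row12 {Λ : Type} [Fintype Λ] {d q : ℕ} (ha : 20 ≤ ra d q) (G : SimpleGraph Λ) (ev : Λ → Prop)
    (A₁ A₂ : Finset (Fin q)) (f₁ f₂ : Λ → Fin q) (y : Λ) (hy : ¬ ev y) (h1 : TyO d G ev A₁ f₁ y)
    (h2 : TyO d G ev A₂ f₂ y) (c : Fin q) (hc : c ∉ A₁ ∨ c ∈ A₂) :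
    ∑ x ∈ nb G y, (if c ∈ Rv G f₁ x then (nc G f₂ x y c : ℝ) else 0) ≤
      ra d q * Real.exp (-ra d q / 2) * (2 * d) := by
  have ha0 : (0 : ℝ) < ra d q := by linarith
  have he : (0 : ℝ) < Real.exp (-ra d q / 2) := Real.exp_pos _
  have hd : (0 : ℝ) ≤ 2 * (d : ℝ) := by positivity
  rcases hc with hc | hc
  · -- `c ∉ A₁`
    have ht : tS ev A₁ y c := by
      unfold tS
      exact ⟨fun h => absurd h hy, fun h => absurd h hc⟩
    have o1 := h1.o1 c ht
    have o2 := h2.o2 c
    set S : Finset Λ := (nb G y).filter fun x => c ∈ Rc G f₁ x y with hS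
    have hle : ∑ x ∈ nb G y, (if c ∈ Rv G f₁ x then (nc G f₂ x y c : ℝ) else 0) ≤ ∑ x ∈ S, (nc G f₂ x y c : ℝ) := by
      rw [← Finset.sum_filter]
      refine Finset.sum_le_sum_of_subset_of_nonneg ?_ (fun _ _ _ => Nat.cast_nonneg _)
      intro x hx
      rw [Finset.mem_filter] at hx
      rw [hS, Finset.mem_filter]
      refine ⟨hx.1, ?_⟩
      have h := hx.2
      unfold Rv at h
      unfold Rc
      rw [Finset.mem_filter] at h ⊢
      exact ⟨Finset.mem_univ _, fun z hz _ => h.2 z hz⟩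
    refine hle.trans ?_
    have hcs : (∑ x ∈ S, (nc G f₂ x y c : ℝ)) ^ 2 ≤ (S.card : ℝ) * ∑ x ∈ S, (nc G f₂ x y c : ℝ) ^ 2 :=
      sq_sum_le_card_mul_sum_sq
    have hsub : ∑ x ∈ S, (nc G f₂ x y c : ℝ) ^ 2 ≤ 20 * ra d q ^ 2 * (2 * d) := by
      refine le_trans ?_ o2
      exact Finset.sum_le_sum_of_subset_of_nonneg (Finset.filter_subset _ _) (fun _ _ _ => sq_nonneg _)
    have hsq : (∑ x ∈ S, (nc G f₂ x y c : ℝ)) ^ 2 ≤ (ra d q * Real.exp (-ra d q / 2) * (2 * d)) ^ 2 := by
      refine hcs.trans ?_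
      have hep : (0 : ℝ) ≤ ep d q * (2 * d) := by unfold ep; positivity
      refine (mul_le_mul o1 hsub (Finset.sum_nonneg fun _ _ => sq_nonneg _) hep).trans ?_
      have hee : Real.exp (-ra d q) = Real.exp (-ra d q / 2) ^ 2 := by
        rw [sq, ← Real.exp_add]
        congr 1
        ring
      have hk : ep d q * (2 * d) * (20 * ra d q ^ 2 * (2 * d)) =
          20 * ra d q * Real.exp (-ra d q / 2) ^ 2 * (2 * d) ^ 2 := by
        unfold ep
        rw [hee]
        field_simp
      rw [hk]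
      have : 20 * ra d q ≤ ra d q ^ 2 := by nlinarith
      calc 20 * ra d q * Real.exp (-ra d q / 2) ^ 2 * (2 * d) ^ 2
          ≤ ra d q ^ 2 * Real.exp (-ra d q / 2) ^ 2 * (2 * d) ^ 2 := by gcongr
        _ = (ra d q * Real.exp (-ra d q / 2) * (2 * d)) ^ 2 := by ring
    exact le_of_sq_le_sq hsq (by positivity)
  · -- `c ∈ A₂`
    have ht : ¬ tS ev A₂ y c := by
      unfold tS
      exact fun h => hy (h.2 hc)
    have o3 := h2.o3 c ht
    have hle : ∑ x ∈ nb G y, (if c ∈ Rv G f₁ x then (nc G f₂ x y c : ℝ) else 0) ≤ ∑ x ∈ nb G y, (nc G f₂ x y c : ℝ) := by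
      refine Finset.sum_le_sum fun x _ => ?_
      split_ifs
      · exact le_refl _
      · exact Nat.cast_nonneg _
    refine (hle.trans o3).trans ?_
    have : (0 : ℝ) ≤ Real.exp (-ra d q / 2) * (2 * d) := by positivity
    nlinarith

end Pool.Agent.LC

end

/-! ### from `Lib_MP_2c424f_thr.N1` -/

section

/-!
# THR N1: powers of the averaging operator (paper proof: T5 and elementary facts)

`PP g x = (∑_σ g (x + sv σ)) / (2 d)`.  All statements by induction on `t` (`Function.iterate_succ`).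
* `Kt_sup`: number `c(t)` of walks `(σ_1, …, σ_t)` with a given sum (mod `m = 2^k > t`): last step in a direction `i` where the sum
  is `≠ 0`: at most `t` such directions (each has to be used), `2t` choices, the rest is a walk of length `t-1`; otherwise the
  `i`-component of the sum is `0` mod `m`, and since `t < m` the step is cancelled by an earlier step: choose its place
  (`t-1`), `2d` choices for the step, the rest is a walk of length `t-2` with the same sum.
  `c(t) ≤ 2t c(t-1) + (t-1) 2d c(t-2)`, so `c(t) ≤ (4t)^t (2d)^(t/2)` by induction; `Kt (2s) = c(2s)/(2d)^(2s)`.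
* `cls_sum`: for even `t`, `PP^[t] g x` for `x` in the class `b` only depends on `g` on the class `b`.
-/

set_option autoImplicit false

open Finset Filter

namespace Pool.Agent.THR

open Pool.Agent.LO Pool.Agent.LIN

variable {d k : ℕ}

/-! ### the operator itself -/

private theorem N1_card (d : ℕ) : ((univ : Finset (Stp d)).card : ℝ) = 2 * d := by
  rw [card_univ, Fintype.card_prod, Fintype.card_fin, Fintype.card_bool]
  push_cast
  ring

private theorem N1_sum_add (g : Site d k → ℝ) (a : Site d k) : ∑ x, g (x + a) = ∑ x, g x :=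
  Fintype.sum_equiv (Equiv.addRight a) _ _ fun _ => rfl

private theorem N1_opp (σ : Stp d) : (sv (opp σ) : Site d k) = - sv σ := by
  obtain ⟨j, b⟩ := σ
  have h := sv_opp (k := k) j b
  unfold opp
  exact (neg_eq_of_add_eq_zero_right h).symm

private theorem N1_opp_opp (σ : Stp d) : opp (opp σ) = σ := by
  obtain ⟨j, b⟩ := σ
  simp [opp]

private def N1_oppE (d : ℕ) : Stp d ≃ Stp d where
  toFun := opp
  invFun := opp
  left_inv := N1_opp_opp
  right_inv := N1_opp_opp

private theorem N1_sum_opp (F : Stp d → ℝ) : ∑ σ : Stp d, F (opp σ) = ∑ σ : Stp d, F σ :=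
  (N1_oppE d).sum_comp F

private theorem N1_succ (t : ℕ) (g : Site d k → ℝ) (x : Site d k) :
    PP^[t + 1] g x = (∑ σ : Stp d, PP^[t] g (x + sv σ)) / (2 * d) := by
  rw [Function.iterate_succ_apply']
  rfl

private theorem N1_adj (g h : Site d k → ℝ) : ∑ x, PP g x * h x = ∑ x, g x * PP h x := by
  have e1 : ∑ x, PP g x * h x = (∑ σ : Stp d, ∑ x, g (x + sv σ) * h x) / (2 * d) := by
    rw [sum_comm, sum_div]
    refine sum_congr rfl fun x _ => ?_
    unfold PP
    rw [div_mul_eq_mul_div, sum_mul]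
  have e2 : ∑ x, g x * PP h x = (∑ σ : Stp d, ∑ x, g x * h (x + sv σ)) / (2 * d) := by
    rw [sum_comm, sum_div]
    refine sum_congr rfl fun x _ => ?_
    unfold PP
    rw [mul_div_assoc', mul_sum]
  rw [e1, e2, ← N1_sum_opp fun σ => ∑ x, g x * h (x + sv σ)]
  congr 1
  refine sum_congr rfl fun σ _ => ?_
  rw [← N1_sum_add (fun x => g x * h (x + sv (opp σ))) (sv σ)]
  refine sum_congr rfl fun x _ => ?_
  rw [N1_opp, add_neg_cancel_right]

/-! ### powers -/

theorem PPt_sum (t : ℕ) {ι : Type*} (A : Finset ι) (g : ι → Site d k → ℝ) (x : Site d k) :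
    PP^[t] (fun y => ∑ i ∈ A, g i y) x = ∑ i ∈ A, PP^[t] (g i) x := by
  induction t generalizing x with
  | zero => rfl
  | succ t ih =>
    rw [N1_succ]
    simp only [ih]
    rw [sum_comm, sum_div]
    refine sum_congr rfl fun i _ => ?_
    rw [N1_succ]

theorem PPt_mul (t : ℕ) (c : ℝ) (g : Site d k → ℝ) (x : Site d k) : PP^[t] (fun y => c * g y) x = c * PP^[t] g x := by
  induction t generalizing x with
  | zero => rfl
  | succ t ih =>
    rw [N1_succ, N1_succ]
    simp only [ih]
    rw [← mul_sum, mul_div_assoc]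

theorem Kt_repr (t : ℕ) (g : Site d k → ℝ) (u : Site d k) : PP^[t] g u = ∑ y, Kt t u y * g y := by
  have h : g = fun x => ∑ y : Site d k, g y * (if x = y then (1 : ℝ) else 0) := by
    funext x
    simp
  conv_lhs => rw [h]
  rw [PPt_sum]
  refine sum_congr rfl fun y _ => ?_
  rw [PPt_mul, mul_comm]
  rfl

theorem PPt_mono (t : ℕ) {g h : Site d k → ℝ} (hgh : ∀ x, g x ≤ h x) (x : Site d k) : PP^[t] g x ≤ PP^[t] h x := by
  induction t generalizing x with
  | zero => exact hgh x
  | succ t ih =>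
    rw [N1_succ, N1_succ]
    exact div_le_div_of_nonneg_right (sum_le_sum fun σ _ => ih _) (by positivity)

private theorem N1_zero (t : ℕ) (x : Site d k) : PP^[t] (fun _ : Site d k => (0 : ℝ)) x = 0 := by
  have h := PPt_mul (d := d) (k := k) t 0 (fun _ => 0) x
  simpa using h

theorem Kt_nonneg (t : ℕ) (u y : Site d k) : 0 ≤ Kt t u y := by
  have h := PPt_mono t (g := fun _ => (0 : ℝ)) (h := fun x : Site d k => if x = y then (1 : ℝ) else 0)
    (fun x => by
      split_ifs
      · exact zero_le_one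
      · exact le_refl 0) u
  rw [N1_zero] at h
  exact h

theorem PPt_const (hd : 1 ≤ d) (t : ℕ) (c : ℝ) (x : Site d k) : PP^[t] (fun _ => c) x = c := by
  have hd0 : (2 * (d : ℝ)) ≠ 0 := by positivity
  induction t generalizing x with
  | zero => rfl
  | succ t ih =>
    rw [N1_succ]
    simp only [ih]
    rw [sum_const, nsmul_eq_mul, N1_card]
    field_simp

theorem Kt_one (hd : 1 ≤ d) (t : ℕ) (u : Site d k) : ∑ y, Kt t u y = 1 := by
  have h := Kt_repr t (fun _ : Site d k => (1 : ℝ)) u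
  rw [PPt_const hd] at h
  rw [h]
  refine sum_congr rfl fun y _ => ?_
  rw [mul_one]

theorem PPt_adj (t : ℕ) (g h : Site d k → ℝ) : ∑ x, PP^[t] g x * h x = ∑ x, g x * PP^[t] h x := by
  induction t generalizing g h with
  | zero => rfl
  | succ t ih =>
    rw [Function.iterate_succ_apply, Function.iterate_succ_apply', ih (PP g) h, N1_adj]

theorem Kt_symm (t : ℕ) (u y : Site d k) : Kt t u y = Kt t y u := by
  have h := PPt_adj t (fun x => if x = y then (1 : ℝ) else 0) (fun x => if x = u then (1 : ℝ) else 0)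
  simp only [mul_ite, mul_one, mul_zero, ite_mul, one_mul, zero_mul, sum_ite_eq', mem_univ, if_true] at h
  exact h

theorem PPt_transl (t : ℕ) (g : Site d k → ℝ) (v x : Site d k) : PP^[t] (fun y => g (y + v)) x = PP^[t] g (x + v) := by
  induction t generalizing x with
  | zero => rfl
  | succ t ih =>
    rw [N1_succ, N1_succ]
    congr 1
    refine sum_congr rfl fun σ _ => ?_
    rw [ih, add_right_comm]

theorem Kt_transl (t : ℕ) (u y v : Site d k) : Kt t (u + v) (y + v) = Kt t u y := by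
  unfold Kt
  rw [← PPt_transl]
  have h : (fun x : Site d k => if x + v = y + v then (1 : ℝ) else 0) = fun x => if x = y then 1 else 0 := by
    funext x
    simp only [add_left_inj]
  rw [h]

/-- the bound for one more step -/
theorem Kt_succ_le (hd : 1 ≤ d) (t : ℕ) (κ : ℝ) (h : ∀ u y : Site d k, Kt t u y ≤ κ) (u y : Site d k) :
    Kt (t + 1) u y ≤ κ := by
  have hd0 : 0 < (2 * (d : ℝ)) := by positivity
  unfold Kt
  rw [N1_succ, div_le_iff₀ hd0]
  have h1 : ∑ σ : Stp d, PP^[t] (fun x : Site d k => if x = y then (1 : ℝ) else 0) (u + sv σ) ≤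
      ∑ _σ : Stp d, κ := sum_le_sum fun σ _ => h (u + sv σ) y
  rw [sum_const, nsmul_eq_mul, N1_card] at h1
  linarith [mul_comm κ (2 * (d : ℝ))]

theorem PPt_sub (t : ℕ) (g h : Site d k → ℝ) (x : Site d k) :
    PP^[t] (fun y => g y - h y) x = PP^[t] g x - PP^[t] h x := by
  induction t generalizing x with
  | zero => rfl
  | succ t ih =>
    rw [N1_succ, N1_succ, N1_succ]
    simp only [ih]
    rw [sum_sub_distrib, sub_div]

theorem PPt_abs (t : ℕ) (g : Site d k → ℝ) (x : Site d k) : |PP^[t] g x| ≤ PP^[t] (fun y => |g y|) x := by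
  rw [abs_le]
  constructor
  · have h := PPt_mono t (g := fun y => (-1) * |g y|) (h := g) (fun y => by
      have := neg_abs_le (g y)
      linarith) x
    rw [PPt_mul] at h
    linarith
  · exact PPt_mono t (fun y => le_abs_self (g y)) x

theorem PPt_sq (hd : 1 ≤ d) (t : ℕ) (g : Site d k → ℝ) (x : Site d k) :
    PP^[t] g x ^ 2 ≤ PP^[t] (fun y => g y ^ 2) x := by
  have h1 := PPt_mono t (g := fun _ => (0 : ℝ)) (h := fun y => (g y - PP^[t] g x) ^ 2) (fun y => sq_nonneg _) x
  rw [N1_zero] at h1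
  have h2 : (fun y => (g y - PP^[t] g x) ^ 2) =
      fun y => (g y ^ 2 - (2 * PP^[t] g x) * g y) - (-(PP^[t] g x ^ 2)) := by
    funext y
    ring
  rw [h2, PPt_sub t (fun y => g y ^ 2 - (2 * PP^[t] g x) * g y) (fun _ => -(PP^[t] g x ^ 2)),
    PPt_sub t (fun y => g y ^ 2) (fun y => (2 * PP^[t] g x) * g y), PPt_mul, PPt_const hd] at h1
  nlinarith

theorem PPt_total (hd : 1 ≤ d) (t : ℕ) (g : Site d k → ℝ) : ∑ x, PP^[t] g x = ∑ x, g x := by
  have h := PPt_adj t g (fun _ => 1)
  simp only [mul_one, PPt_const hd] at h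
  exact h

/-- contraction -/
theorem PPt_l2 (hd : 1 ≤ d) (t : ℕ) (g : Site d k → ℝ) : ∑ x, PP^[t] g x ^ 2 ≤ ∑ x, g x ^ 2 := by
  rw [← PPt_total hd t fun y => g y ^ 2]
  exact sum_le_sum fun x _ => PPt_sq hd t g x

private theorem N1_cls (hk : 1 ≤ k) (t : ℕ) (b : Bool) (u y : Site d k) (hu : u ∈ cls b d k)
    (hy : (Even t ∧ y ∈ cls (!b) d k) ∨ (¬ Even t ∧ y ∈ cls b d k)) : Kt t u y = 0 := by
  induction t generalizing b u with
  | zero =>
    unfold Kt
    rw [Function.iterate_zero, id, if_neg]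
    rintro rfl
    rcases hy with ⟨_, hy⟩ | ⟨h0, _⟩
    · exact (cls_not b u).1 hy hu
    · exact h0 Even.zero
  | succ t ih =>
    unfold Kt at ih ⊢
    rw [N1_succ]
    have h0 : ∀ σ : Stp d, PP^[t] (fun x : Site d k => if x = y then (1 : ℝ) else 0) (u + sv σ) = 0 := by
      intro σ
      refine ih (!b) (u + sv σ) ?_ ?_
      · rw [mem_cls_step hk, Bool.not_not]
        exact hu
      · rw [Nat.even_add_one, not_not] at hy
        rw [Bool.not_not]
        exact hy.symm
    simp only [h0, sum_const_zero, zero_div]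

/-- support of the kernel -/
theorem Kt_cls (hk : 1 ≤ k) (t : ℕ) (ht : Even t) (b : Bool) (u y : Site d k) (hu : u ∈ cls b d k)
    (hy : y ∈ cls (!b) d k) : Kt t u y = 0 :=
  N1_cls hk t b u y hu (Or.inl ⟨ht, hy⟩)

theorem Kt_cls' (hk : 1 ≤ k) (t : ℕ) (ht : ¬ Even t) (b : Bool) (u y : Site d k) (hu : u ∈ cls b d k)
    (hy : y ∈ cls b d k) : Kt t u y = 0 :=
  N1_cls hk t b u y hu (Or.inr ⟨ht, hy⟩)

end Pool.Agent.THR

end

/-! ### from `Lib_MP_2c424f_thr.N1a` -/

section

/-!
# THR N1a: the kernel is small (paper proof: T5)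

`Kt t u y` = number of walks `(σ_1, …, σ_t)` with sum `y - u` (mod `m = 2^k`), divided by `(2d)^t`.  For `t = 2 s`:
let `S` be the set of the directions in which `y - u` does not vanish; every direction of `S` is used by the walk, so `|S| ≤ 2 s`.
Every direction which is used and is not in `S` is used at least twice, so there are at most `s` of them, and they are in the range
of some `D : Fin s → Fin d`.  So there are at most `d^s (2 (2 s + s))^(2 s)` walks.
-/

set_option autoImplicit false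

open Finset Filter

namespace Pool.Agent.THR

open Pool.Agent.LO Pool.Agent.LIN

variable {d k : ℕ}

private theorem n1a_iter (t : ℕ) (u y : Site d k) :
    Kt t u y = (∑ w : Fin t → Stp d, if u + ∑ p, sv (w p) = y then (1 : ℝ) else 0) / (2 * (d : ℝ)) ^ t := by
  induction t generalizing u with
  | zero =>
    simp [Kt]
  | succ t ih =>
    have h1 : Kt (t + 1) u y = (∑ σ : Stp d, Kt t (u + sv σ) y) / (2 * d) := by
      unfold Kt
      rw [Function.iterate_succ_apply']
      rfl
    rw [h1]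
    have h2 : (∑ w : Fin (t + 1) → Stp d, if u + ∑ p, sv (w p) = y then (1 : ℝ) else 0)
        = ∑ σ : Stp d, ∑ w : Fin t → Stp d, if u + sv σ + ∑ p, sv (w p) = y then (1 : ℝ) else 0 := by
      rw [← (Fin.consEquiv (fun _ : Fin (t + 1) => Stp d)).sum_comp, Fintype.sum_prod_type]
      refine Finset.sum_congr rfl fun σ _ => Finset.sum_congr rfl fun w _ => ?_
      simp only [Fin.consEquiv, Equiv.coe_fn_mk, Fin.sum_univ_succ, Fin.cons_zero, Fin.cons_succ, add_assoc]
    have h3 : ∀ a : ℝ, a / ((2 * (d : ℝ)) ^ t * (2 * (d : ℝ))) = a / (2 * (d : ℝ)) ^ t / (2 * (d : ℝ)) :=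
      fun a => by rw [div_div]
    rw [h2, pow_succ, h3]
    refine congrArg (fun z : ℝ => z / (2 * d)) ?_
    rw [Finset.sum_div]
    refine Finset.sum_congr rfl fun σ _ => ?_
    exact ih (u + sv σ)

private theorem n1a_ne {t : ℕ} (w : Fin t → Stp d) (i : Fin d) (p : Fin t) (h : (w p).1 ≠ i) :
    (sv (w p) : Site d k) i = 0 := by
  unfold sv
  rw [Pi.single_eq_of_ne (Ne.symm h)]

private theorem n1a_two {t : ℕ} (hk : 1 < 2 ^ k) (w : Fin t → Stp d) (i : Fin d)
    (hi : (∑ p, (sv (w p) : Site d k)) i = 0) (p₀ : Fin t) (hp : (w p₀).1 = i) :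
    2 ≤ (univ.filter fun p => (w p).1 = i).card := by
  by_contra hc
  have hc1 : (univ.filter fun p => (w p).1 = i).card ≤ 1 := by omega
  rw [Finset.card_le_one] at hc1
  have h0 : (∑ p, (sv (w p) : Site d k)) i = (sv (w p₀) : Site d k) i := by
    rw [Finset.sum_apply]
    refine Finset.sum_eq_single p₀ (fun b _ hb => ?_) (fun h => absurd (mem_univ _) h)
    refine n1a_ne w i b fun hbi => hb ?_
    exact hc1 b (by simp [hbi]) p₀ (by simp [hp])
  rw [h0] at hi
  have hne : (1 : ZMod (2 ^ k)) ≠ 0 := by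
    have : Fact (1 < 2 ^ k) := ⟨hk⟩
    exact one_ne_zero
  unfold sv at hi
  rw [hp, Pi.single_eq_same] at hi
  split_ifs at hi
  · exact hne hi
  · exact hne (neg_eq_zero.1 hi)

private theorem n1a_range (hd : 1 ≤ d) (s : ℕ) (U : Finset (Fin d)) (hU : U.card ≤ s) :
    ∃ D : Fin s → Fin d, U ⊆ univ.image D := by
  have h0 : (⟨0, hd⟩ : Fin d) = ⟨0, hd⟩ := rfl
  refine ⟨fun p => if h : p.val < U.card then (U.equivFin.symm ⟨p.val, h⟩ : Fin d) else ⟨0, hd⟩, fun i hi => ?_⟩
  rw [Finset.mem_image]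
  refine ⟨⟨(U.equivFin ⟨i, hi⟩).val, lt_of_lt_of_le (U.equivFin ⟨i, hi⟩).isLt hU⟩, mem_univ _, ?_⟩
  simp

open scoped Classical in
private theorem n1a_cover (hd : 1 ≤ d) (s : ℕ) (hk : 1 < 2 ^ k) (v : Site d k) (w : Fin (2 * s) → Stp d)
    (hw : ∑ p, (sv (w p) : Site d k) = v) :
    (univ.filter fun i => v i ≠ 0).card ≤ 2 * s ∧
      ∃ D : Fin s → Fin d, ∀ p, (w p).1 ∈ (univ.filter fun i => v i ≠ 0) ∪ univ.image D := by
  set S := univ.filter fun i => v i ≠ 0 with hS
  refine ⟨?_, ?_⟩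
  · have : S ⊆ univ.image fun p => (w p).1 := by
      intro i hi
      rw [hS, mem_filter] at hi
      by_contra hc
      apply hi.2
      rw [← hw, Finset.sum_apply]
      refine Finset.sum_eq_zero fun p _ => n1a_ne w i p fun hp => hc ?_
      exact Finset.mem_image.2 ⟨p, mem_univ _, hp⟩
    calc S.card ≤ (univ.image fun p => (w p).1).card := card_le_card this
      _ ≤ (univ : Finset (Fin (2 * s))).card := card_image_le
      _ = 2 * s := by simp
  · set U := (univ.image fun p => (w p).1) \ S with hUd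
    have hU2 : ∀ i ∈ U, 2 ≤ (univ.filter fun p => (w p).1 = i).card := by
      intro i hi
      rw [hUd, Finset.mem_sdiff, Finset.mem_image] at hi
      obtain ⟨⟨p₀, _, hp⟩, hiS⟩ := hi
      refine n1a_two hk w i ?_ p₀ hp
      rw [hw]
      by_contra hc
      exact hiS (by rw [hS, mem_filter]; exact ⟨mem_univ _, hc⟩)
    have h1 : U.card * 2 ≤ ∑ i ∈ U, (univ.filter fun p => (w p).1 = i).card := by
      have := Finset.card_nsmul_le_sum U (fun i => (univ.filter fun p => (w p).1 = i).card) 2 hU2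
      simpa using this
    have h2 : ∑ i ∈ U, (univ.filter fun p => (w p).1 = i).card ≤ 2 * s := by
      calc ∑ i ∈ U, (univ.filter fun p => (w p).1 = i).card
          ≤ ∑ i : Fin d, (univ.filter fun p => (w p).1 = i).card :=
            Finset.sum_le_sum_of_subset (subset_univ _)
        _ = (univ : Finset (Fin (2 * s))).card := by
            rw [← Finset.card_eq_sum_card_fiberwise (f := fun p => (w p).1) (t := univ) (fun _ _ => by simp)]
        _ = 2 * s := by simp
    obtain ⟨D, hD⟩ := n1a_range hd s U (by omega)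
    refine ⟨D, fun p => ?_⟩
    rw [mem_union]
    by_cases hp : (w p).1 ∈ S
    · exact Or.inl hp
    · refine Or.inr (hD ?_)
      rw [hUd, Finset.mem_sdiff]
      exact ⟨Finset.mem_image.2 ⟨p, mem_univ _, rfl⟩, hp⟩

open scoped Classical in
private theorem n1a_count (hd : 1 ≤ d) (s : ℕ) (hk : 1 < 2 ^ k) (v : Site d k) :
    (univ.filter fun w : Fin (2 * s) → Stp d => ∑ p, (sv (w p) : Site d k) = v).card
      ≤ d ^ s * (6 * s) ^ (2 * s) := by
  set F := univ.filter fun w : Fin (2 * s) → Stp d => ∑ p, (sv (w p) : Site d k) = v with hF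
  rcases F.eq_empty_or_nonempty with h0 | ⟨w₀, hw₀⟩
  · rw [h0]; simp
  · rw [hF, mem_filter] at hw₀
    have hScard := (n1a_cover hd s hk v w₀ hw₀.2).1
    set S := univ.filter fun i => v i ≠ 0 with hS
    have hsub : F ⊆ (univ : Finset (Fin s → Fin d)).biUnion fun D =>
        Fintype.piFinset fun _ : Fin (2 * s) => (S ∪ univ.image D) ×ˢ (univ : Finset Bool) := by
      intro w hw
      rw [hF, mem_filter] at hw
      obtain ⟨D, hD⟩ := (n1a_cover hd s hk v w hw.2).2
      rw [mem_biUnion]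
      refine ⟨D, mem_univ _, ?_⟩
      rw [Fintype.mem_piFinset]
      intro p
      rw [mem_product]
      exact ⟨hD p, mem_univ _⟩
    calc F.card ≤ _ := card_le_card hsub
      _ ≤ ∑ D : Fin s → Fin d, (Fintype.piFinset fun _ : Fin (2 * s) =>
            (S ∪ univ.image D) ×ˢ (univ : Finset Bool)).card := card_biUnion_le
      _ ≤ ∑ _D : Fin s → Fin d, (6 * s) ^ (2 * s) := by
          refine Finset.sum_le_sum fun D _ => ?_
          rw [Fintype.card_piFinset_const, card_product]
          refine Nat.pow_le_pow_left ?_ _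
          have h1 : (S ∪ univ.image D).card ≤ 3 * s := by
            calc (S ∪ univ.image D).card ≤ S.card + (univ.image D).card := card_union_le _ _
              _ ≤ 2 * s + s := by
                  refine Nat.add_le_add hScard ?_
                  calc (univ.image D).card ≤ (univ : Finset (Fin s)).card := card_image_le
                    _ = s := by simp
              _ = 3 * s := by ring
          have h2 : (univ : Finset Bool).card = 2 := by simp
          rw [h2]
          omega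
      _ = d ^ s * (6 * s) ^ (2 * s) := by
          rw [Finset.sum_const, card_univ, Fintype.card_fun, Fintype.card_fin, Fintype.card_fin, smul_eq_mul]

theorem Kt_sup (hd : 1 ≤ d) (s : ℕ) (hk : 2 * s < 2 ^ k) (u y : Site d k) :
    Kt (2 * s) u y ≤ (8 * (s : ℝ)) ^ (2 * s) / (2 * (d : ℝ)) ^ s := by
  classical
  have hd' : (1 : ℝ) ≤ d := by exact_mod_cast hd
  have hd0 : (0 : ℝ) < 2 * (d : ℝ) := by linarith
  rcases Nat.eq_zero_or_pos s with rfl | hs
  · simp only [Kt, mul_zero, Function.iterate_zero, id, Nat.cast_zero, pow_zero, div_one]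
    split_ifs <;> norm_num
  · have hk1 : 1 < 2 ^ k := by omega
    rw [n1a_iter]
    have h1 : (∑ w : Fin (2 * s) → Stp d, if u + ∑ p, sv (w p) = y then (1 : ℝ) else 0)
        = ((univ.filter fun w : Fin (2 * s) → Stp d => ∑ p, (sv (w p) : Site d k) = y - u).card : ℝ) := by
      rw [Finset.sum_boole]
      congr 2
      ext w
      simp only [mem_filter, mem_univ, true_and]
      constructor
      · intro h; rw [← h]; abel
      · intro h; rw [h]; abel
    rw [h1]
    have h2 : ((univ.filter fun w : Fin (2 * s) → Stp d => ∑ p, (sv (w p) : Site d k) = y - u).card : ℝ)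
        ≤ (d : ℝ) ^ s * (6 * (s : ℝ)) ^ (2 * s) := by
      have := n1a_count hd s hk1 (y - u)
      have h3 : (((univ.filter fun w : Fin (2 * s) → Stp d => ∑ p, (sv (w p) : Site d k) = y - u).card : ℕ) : ℝ)
          ≤ ((d ^ s * (6 * s) ^ (2 * s) : ℕ) : ℝ) := by exact_mod_cast this
      refine h3.trans (le_of_eq ?_)
      push_cast
      ring
    have hs0 : (0 : ℝ) ≤ s := by positivity
    have h4 : (d : ℝ) ^ s * (6 * (s : ℝ)) ^ (2 * s) ≤ (2 * (d : ℝ)) ^ s * (8 * (s : ℝ)) ^ (2 * s) := by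
      refine mul_le_mul ?_ ?_ (by positivity) (by positivity)
      · exact pow_le_pow_left₀ (by linarith) (by linarith) _
      · exact pow_le_pow_left₀ (by positivity) (by linarith) _
    calc ((univ.filter fun w : Fin (2 * s) → Stp d => ∑ p, (sv (w p) : Site d k) = y - u).card : ℝ)
          / (2 * (d : ℝ)) ^ (2 * s)
        ≤ ((2 * (d : ℝ)) ^ s * (8 * (s : ℝ)) ^ (2 * s)) / (2 * (d : ℝ)) ^ (2 * s) := by
          exact div_le_div_of_nonneg_right (h2.trans h4) (by positivity)
      _ = (8 * (s : ℝ)) ^ (2 * s) / (2 * (d : ℝ)) ^ s := by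
          have : (2 * (d : ℝ)) ^ (2 * s) = (2 * (d : ℝ)) ^ s * (2 * (d : ℝ)) ^ s := by
            rw [← pow_add]; congr 1; ring
          rw [this]
          field_simp

end Pool.Agent.THR

end

/-! ### from `Lib_MP_2c424f_thr.N3a` -/

section

/-!
# THR N3a: number of functions with small support (paper proof: N1)

For `0 < x ≤ 1`: the number is at most `x^(-2N/B) ∑_η x^|supp η| = x^(-2N/B) (1+2x)^N ≤ exp ((2N/B) log (1/x) + 2xN)`, `x = 1/B`.
-/

set_option autoImplicit false

open Finset Filter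

namespace Pool.Agent.THR

open Pool.Agent.LO Pool.Agent.LIN

/-- the generating function of the support size -/
private theorem N3a_gen {S : Type*} [Fintype S] [DecidableEq S] (x : ℝ) :
    ∑ η : S → Fin 3, ∏ s, (if (η s).val ≠ 0 then x else 1) = (1 + 2 * x) ^ Fintype.card S := by
  have h := Finset.prod_univ_sum (fun _ : S => (univ : Finset (Fin 3)))
    (fun _ v => if v.val ≠ 0 then x else (1 : ℝ))
  rw [Fintype.piFinset_univ] at h
  rw [← h, Finset.prod_const, Finset.card_univ]
  congr 1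
  rw [Fin.sum_univ_three]
  simp
  ring

open scoped Classical in
/-- number of functions with small support -/
theorem net_card {d k : ℕ} (B : ℕ) (hB : 1 ≤ B) :
    (((univ : Finset (Site d k → Fin 3)).filter fun η =>
      ((univ.filter fun x => (η x).val ≠ 0).card : ℝ) ≤ 2 * NN d k / B).card : ℝ) ≤
      Real.exp (NN d k * (2 * Real.log B + 2) / B) := by
  have hB1 : (1 : ℝ) ≤ B := by exact_mod_cast hB
  have hB0 : (0 : ℝ) < B := by linarith
  have hlog : 0 ≤ Real.log B := Real.log_nonneg hB1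
  have hprod : ∀ η : Site d k → Fin 3,
      ∏ s, (if (η s).val ≠ 0 then (1 / (B : ℝ)) else 1) =
        (1 / (B : ℝ)) ^ (univ.filter fun x => (η x).val ≠ 0).card := by
    intro η
    rw [Finset.prod_ite, Finset.prod_const, Finset.prod_const_one, mul_one]
  have hone : ∀ η ∈ (univ : Finset (Site d k → Fin 3)).filter fun η =>
      ((univ.filter fun x => (η x).val ≠ 0).card : ℝ) ≤ 2 * NN d k / B,
      (1 : ℝ) ≤ Real.exp (2 * NN d k / B * Real.log B) *
        ∏ s, (if (η s).val ≠ 0 then (1 / (B : ℝ)) else 1) := by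
    intro η hη
    rw [Finset.mem_filter] at hη
    rw [hprod η]
    have e : (1 / (B : ℝ)) ^ (univ.filter fun x => (η x).val ≠ 0).card =
        Real.exp (-(((univ.filter fun x => (η x).val ≠ 0).card : ℝ) * Real.log B)) := by
      rw [Real.exp_neg, Real.exp_nat_mul, Real.exp_log hB0, one_div, inv_pow]
    rw [e, ← Real.exp_add]
    apply Real.one_le_exp
    have := mul_le_mul_of_nonneg_right hη.2 hlog
    linarith
  have hsum : (((univ : Finset (Site d k → Fin 3)).filter fun η =>
      ((univ.filter fun x => (η x).val ≠ 0).card : ℝ) ≤ 2 * NN d k / B).card : ℝ) ≤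
      Real.exp (2 * NN d k / B * Real.log B) * (1 + 2 * (1 / (B : ℝ))) ^ Fintype.card (Site d k) := by
    rw [← N3a_gen, Finset.mul_sum]
    calc _ = ∑ η ∈ (univ : Finset (Site d k → Fin 3)).filter (fun η =>
      ((univ.filter fun x => (η x).val ≠ 0).card : ℝ) ≤ 2 * NN d k / B), (1 : ℝ) := by simp
      _ ≤ ∑ η ∈ (univ : Finset (Site d k → Fin 3)).filter (fun η =>
      ((univ.filter fun x => (η x).val ≠ 0).card : ℝ) ≤ 2 * NN d k / B),
        Real.exp (2 * NN d k / B * Real.log B) *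
        ∏ s, (if (η s).val ≠ 0 then (1 / (B : ℝ)) else 1) := Finset.sum_le_sum hone
      _ ≤ _ := by
        apply Finset.sum_le_sum_of_subset_of_nonneg (Finset.filter_subset _ _)
        intro η _ _
        refine mul_nonneg (Real.exp_nonneg _) (Finset.prod_nonneg fun s _ => ?_)
        split_ifs
        · positivity
        · norm_num
  refine hsum.trans ?_
  have hpow : (1 + 2 * (1 / (B : ℝ))) ^ Fintype.card (Site d k) ≤ Real.exp (NN d k * (2 / B)) := by
    have h1 : 1 + 2 * (1 / (B : ℝ)) ≤ Real.exp (2 / B) := by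
      have := Real.add_one_le_exp (2 / (B : ℝ))
      have e : 2 * (1 / (B : ℝ)) = 2 / B := by ring
      rw [e]; linarith
    have h0 : 0 ≤ 1 + 2 * (1 / (B : ℝ)) := by positivity
    calc (1 + 2 * (1 / (B : ℝ))) ^ Fintype.card (Site d k)
        ≤ (Real.exp (2 / B)) ^ Fintype.card (Site d k) := pow_le_pow_left₀ h0 h1 _
      _ = Real.exp ((Fintype.card (Site d k) : ℝ) * (2 / B)) := by rw [Real.exp_nat_mul]
      _ = _ := by rw [card_site]
  calc Real.exp (2 * NN d k / B * Real.log B) * (1 + 2 * (1 / (B : ℝ))) ^ Fintype.card (Site d k)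
      ≤ Real.exp (2 * NN d k / B * Real.log B) * Real.exp (NN d k * (2 / B)) :=
        mul_le_mul_of_nonneg_left hpow (Real.exp_nonneg _)
    _ = Real.exp (NN d k * (2 * Real.log B + 2) / B) := by
        rw [← Real.exp_add]
        congr 1
        field_simp

end Pool.Agent.THR

end

/-! ### from `Lib_MP_2c424f_thr.N2a` -/

section

/-!
# THR N2a: sampling (paper proof: T4)

`Ω = Site d k → Fin B` uniform, `ζ_x = 1[ω x = 0]`.  `B PP^t(ζ φ)(u) - PP^t φ (u) = ∑_y K(u,y) φ_y (B ζ_y - 1)`; the variables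
`B ζ_y - 1` are independent with mean `0` and second moment `B - 1 ≤ B`.  So the mean of the square is
`≤ B ∑ K² φ² ≤ B κ PP^t (φ²)(u)`.  (Means over `Site → Fin B` of products over different sites factorise:
`Finset.prod_univ_sum`, or induct.)
-/

set_option autoImplicit false

open Finset Filter

namespace Pool.Agent.THR

open Pool.Agent.LO Pool.Agent.LIN

variable {d k : ℕ}

/-- sum of a product over the sites -/
private theorem N2a_fac {ι : Type*} [Fintype ι] [DecidableEq ι] (B : ℕ) (h : ι → Fin B → ℝ) :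
    ∑ ω : ι → Fin B, ∏ z, h z (ω z) = ∏ z, ∑ i, h z i := by
  rw [Finset.prod_univ_sum, Fintype.piFinset_univ]

/-- sum of a function of one site -/
private theorem N2a_one {ι : Type*} [Fintype ι] [DecidableEq ι] (B : ℕ) (g : Fin B → ℝ) (y : ι) :
    (B : ℝ) * ∑ ω : ι → Fin B, g (ω y) = (B : ℝ) ^ Fintype.card ι * ∑ i, g i := by
  have h1 : ∑ ω : ι → Fin B, g (ω y) = ∏ z : ι, ∑ i, (if z = y then g i else (1 : ℝ)) := by
    rw [← N2a_fac]
    refine sum_congr rfl fun ω _ => ?_
    rw [Finset.prod_ite_eq' univ y fun z => g (ω z)]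
    simp
  have h2 : ∀ z : ι, (∑ i, (if z = y then g i else (1 : ℝ))) = if z = y then ∑ i, g i else (B : ℝ) := by
    intro z
    by_cases hz : z = y
    · simp [hz]
    · simp [hz]
  rw [h1, prod_congr rfl fun z _ => h2 z, ← Finset.mul_prod_erase univ _ (mem_univ y)]
  have h3 : ∏ z ∈ univ.erase y, (if z = y then ∑ i, g i else (B : ℝ)) = ∏ z ∈ univ.erase y, (B : ℝ) :=
    prod_congr rfl fun z hz => by rw [if_neg (ne_of_mem_erase hz)]
  have h4 : (B : ℝ) * ∏ z ∈ univ.erase y, (B : ℝ) = (B : ℝ) ^ Fintype.card ι := by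
    rw [Finset.mul_prod_erase univ (fun _ => (B : ℝ)) (mem_univ y), prod_const, card_univ]
  rw [h3, if_pos rfl]
  calc (B : ℝ) * ((∑ i, g i) * ∏ z ∈ univ.erase y, (B : ℝ))
      = ((B : ℝ) * ∏ z ∈ univ.erase y, (B : ℝ)) * ∑ i, g i := by ring
    _ = _ := by rw [h4]

/-- sum of a product of two sites -/
private theorem N2a_two {ι : Type*} [Fintype ι] [DecidableEq ι] (B : ℕ) (X : Fin B → ℝ) (hX : ∑ i, X i = 0)
    {y y' : ι} (hy : y ≠ y') : ∑ ω : ι → Fin B, X (ω y) * X (ω y') = 0 := by
  have h1 : ∑ ω : ι → Fin B, X (ω y) * X (ω y') =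
      ∏ z : ι, ∑ i, ((if z = y then X i else (1 : ℝ)) * (if z = y' then X i else 1)) := by
    rw [← N2a_fac]
    refine sum_congr rfl fun ω _ => ?_
    rw [prod_mul_distrib, Finset.prod_ite_eq' univ y fun z => X (ω z),
      Finset.prod_ite_eq' univ y' fun z => X (ω z)]
    simp
  rw [h1]
  refine prod_eq_zero (mem_univ y) ?_
  simp [hy, hX]

/-- second moment of a linear statistic of independent variables -/
theorem indep_sq {ι : Type*} [Fintype ι] [DecidableEq ι] (B : ℕ) (hB : 1 ≤ B) (X : Fin B → ℝ) (hX : ∑ i, X i = 0)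
    (a : ι → ℝ) :
    (∑ ω : ι → Fin B, (∑ y, a y * X (ω y)) ^ 2) / (B : ℝ) ^ Fintype.card ι = (∑ y, a y ^ 2) * ((∑ i, X i ^ 2) / B) := by
  have hB0 : (0 : ℝ) < B := by exact_mod_cast hB
  have h1 : ∑ ω : ι → Fin B, (∑ y, a y * X (ω y)) ^ 2 =
      ∑ y, ∑ y', a y * a y' * ∑ ω : ι → Fin B, X (ω y) * X (ω y') := by
    have : ∀ ω : ι → Fin B, (∑ y, a y * X (ω y)) ^ 2 = ∑ y, ∑ y', a y * a y' * (X (ω y) * X (ω y')) := by
      intro ω
      rw [sq, sum_mul_sum]
      exact sum_congr rfl fun y _ => sum_congr rfl fun y' _ => by ring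
    rw [sum_congr rfl fun ω _ => this ω, sum_comm]
    refine sum_congr rfl fun y _ => ?_
    rw [sum_comm]
    exact sum_congr rfl fun y' _ => by rw [mul_sum]
  have h2 : ∀ y : ι, ∑ y', a y * a y' * ∑ ω : ι → Fin B, X (ω y) * X (ω y') =
      a y ^ 2 * ∑ ω : ι → Fin B, X (ω y) ^ 2 := by
    intro y
    rw [sum_eq_single y]
    · rw [sq (a y)]
      congr 1
      exact sum_congr rfl fun ω _ => by ring
    · intro y' _ hne
      rw [N2a_two B X hX (Ne.symm hne), mul_zero]
    · intro h
      exact absurd (mem_univ y) h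
  have h3 : ∀ y : ι, ∑ ω : ι → Fin B, X (ω y) ^ 2 = (B : ℝ) ^ Fintype.card ι * (∑ i, X i ^ 2) / B := by
    intro y
    rw [eq_div_iff hB0.ne', mul_comm]
    exact N2a_one B (fun i => X i ^ 2) y
  rw [h1, sum_congr rfl fun y _ => (h2 y).trans (by rw [h3 y]), ← sum_mul]
  have hp : (0 : ℝ) < (B : ℝ) ^ Fintype.card ι := pow_pos hB0 _
  field_simp

/-- the centred indicator -/
private theorem N2a_X (B : ℕ) (hB : 1 ≤ B) :
    (∑ i : Fin B, ((if i.val = 0 then (B : ℝ) else 0) - 1 : ℝ)) = 0 ∧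
    (∑ i : Fin B, ((if i.val = 0 then (B : ℝ) else 0) - 1 : ℝ) ^ 2) / (B : ℝ) ≤ (B : ℝ) := by
  have hB0 : (0 : ℝ) < B := by exact_mod_cast hB
  have hs : ∀ c : ℝ, ∑ i : Fin B, (if i.val = 0 then c else 0) = c := by
    intro c
    rw [sum_eq_single (⟨0, hB⟩ : Fin B)]
    · simp
    · intro b _ hb
      rw [if_neg]
      intro h
      exact hb (Fin.ext h)
    · intro h
      exact absurd (mem_univ _) h
  constructor
  · rw [sum_sub_distrib, hs]
    simp
  · have h1 : ∀ i : Fin B, ((if i.val = 0 then (B : ℝ) else 0) - 1) ^ 2 =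
        (if i.val = 0 then (B : ℝ) ^ 2 - 2 * B else 0) + 1 := by
      intro i
      split_ifs <;> ring
    rw [sum_congr rfl fun i _ => h1 i, sum_add_distrib, hs, div_le_iff₀ hB0]
    simp
    nlinarith

theorem sampling (t B : ℕ) (hB : 1 ≤ B) (κ : ℝ) (hκ : ∀ u y : Site d k, Kt t u y ≤ κ) (φ : Site d k → ℝ) (u : Site d k) :
    (∑ ω : Site d k → Fin B, (B * PP^[t] (fun x => if (ω x).val = 0 then φ x else 0) u - PP^[t] φ u) ^ 2) /
      (B : ℝ) ^ Fintype.card (Site d k) ≤ B * κ * PP^[t] (fun x => φ x ^ 2) u := by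
  have hB0 : (0 : ℝ) < B := by exact_mod_cast hB
  obtain ⟨hX, hX2⟩ := N2a_X B hB
  have h1 : ∀ ω : Site d k → Fin B,
      B * PP^[t] (fun x => if (ω x).val = 0 then φ x else 0) u - PP^[t] φ u =
        ∑ y, (Kt t u y * φ y) * ((if (ω y).val = 0 then (B : ℝ) else 0) - 1) := by
    intro ω
    rw [Kt_repr, Kt_repr t φ, mul_sum, ← sum_sub_distrib]
    refine sum_congr rfl fun y _ => ?_
    split_ifs <;> ring
  rw [sum_congr rfl fun ω _ => by rw [h1 ω],
    indep_sq B hB (fun i => (if i.val = 0 then (B : ℝ) else 0) - 1) hX fun y => Kt t u y * φ y]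
  have h2 : ∑ y, (Kt t u y * φ y) ^ 2 ≤ κ * PP^[t] (fun x => φ x ^ 2) u := by
    rw [Kt_repr, mul_sum]
    refine sum_le_sum fun y _ => ?_
    have ha := Kt_nonneg t u y
    have hb := hκ u y
    have hc := sq_nonneg (φ y)
    have : Kt t u y * (Kt t u y * φ y ^ 2) ≤ κ * (Kt t u y * φ y ^ 2) :=
      mul_le_mul_of_nonneg_right hb (mul_nonneg ha hc)
    calc (Kt t u y * φ y) ^ 2 = Kt t u y * (Kt t u y * φ y ^ 2) := by ring
      _ ≤ _ := this
  have h3 : 0 ≤ ∑ y, (Kt t u y * φ y) ^ 2 := sum_nonneg fun y _ => sq_nonneg _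
  calc (∑ y, (Kt t u y * φ y) ^ 2) * ((∑ i : Fin B, ((if i.val = 0 then (B : ℝ) else 0) - 1) ^ 2) / B)
      ≤ (∑ y, (Kt t u y * φ y) ^ 2) * B := mul_le_mul_of_nonneg_left hX2 h3
    _ ≤ κ * PP^[t] (fun x => φ x ^ 2) u * B := mul_le_mul_of_nonneg_right h2 hB0.le
    _ = _ := by ring

open scoped Classical in
theorem sample_card (B : ℕ) (hB : 1 ≤ B) (A : Finset (Site d k)) :
    (∑ ω : Site d k → Fin B, ((A.filter fun x => (ω x).val = 0).card : ℝ)) / (B : ℝ) ^ Fintype.card (Site d k) =
      A.card / B := by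
  have hB0 : (0 : ℝ) < B := by exact_mod_cast hB
  have hs : ∑ i : Fin B, (if i.val = 0 then (1 : ℝ) else 0) = 1 := by
    rw [sum_eq_single (⟨0, hB⟩ : Fin B)]
    · simp
    · intro b _ hb
      rw [if_neg]
      intro h
      exact hb (Fin.ext h)
    · intro h
      exact absurd (mem_univ _) h
  have h1 : ∑ ω : Site d k → Fin B, ((A.filter fun x => (ω x).val = 0).card : ℝ) =
      ∑ x ∈ A, ∑ ω : Site d k → Fin B, (if (ω x).val = 0 then (1 : ℝ) else 0) := by
    rw [sum_comm]
    refine sum_congr rfl fun ω _ => ?_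
    rw [card_filter]
    push_cast
    rfl
  have h2 : ∀ x : Site d k, ∑ ω : Site d k → Fin B, (if (ω x).val = 0 then (1 : ℝ) else 0) =
      (B : ℝ) ^ Fintype.card (Site d k) / B := by
    intro x
    rw [eq_div_iff hB0.ne', mul_comm, N2a_one B (fun i => if i.val = 0 then (1 : ℝ) else 0) x, hs, mul_one]
  have hp : (0 : ℝ) < (B : ℝ) ^ Fintype.card (Site d k) := pow_pos hB0 _
  rw [h1, sum_congr rfl fun x _ => h2 x, sum_const, nsmul_eq_mul]
  field_simp

end Pool.Agent.THR

end

/-! ### from `Lib_MP_2c424f_thr.N2` -/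

section

/-!
# THR N2: sampling (paper proof: T4)

`Ω = Site d k → Fin B` uniform, `ζ_x = 1[ω x = 0]`.  `B PP^t(ζ φ)(u) - PP^t φ (u) = ∑_y K(u,y) φ_y (B ζ_y - 1)`; the variables
`B ζ_y - 1` are independent with mean `0` and second moment `B - 1 ≤ B`.  So the mean of the square is
`≤ B ∑ K² φ² ≤ B κ PP^t (φ²)(u)`.  (Means over `Site → Fin B` of products over different sites factorise:
`Finset.prod_univ_sum`, or induct; the builder may prove a general lemma for the second moment of
`∑_y a_y X(ω y)` with `∑_{i : Fin B} X i = 0`.)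
* `net_exists`: functional `B·#{φ ≠ 0, ω = 0}/N + (∑_u |..|)/E₀`, `E₀ = N √(B κ)` (mean `≤ 2`).
-/

set_option autoImplicit false

open Finset Filter

namespace Pool.Agent.THR

open Pool.Agent.LO Pool.Agent.LIN

variable {d k : ℕ}

/-- mean absolute value from the mean square -/
private theorem N2_abs_le {Ω : Type*} [Fintype Ω] (M c : ℝ) (hM : M = Fintype.card Ω) (hM0 : 0 < M)
    (X : Ω → ℝ) (h : (∑ ω, X ω ^ 2) / M ≤ c) : ∑ ω, |X ω| ≤ M * Real.sqrt c := by
  have h1 : (∑ ω, |X ω|) ^ 2 ≤ M * ∑ ω, X ω ^ 2 := by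
    have := sq_sum_le_card_mul_sum_sq (s := (univ : Finset Ω)) (f := fun ω => |X ω|)
    simpa [Finset.card_univ, hM, sq_abs] using this
  have h2 : ∑ ω, X ω ^ 2 ≤ c * M := (div_le_iff₀ hM0).1 h
  have hc : 0 ≤ c := le_trans (div_nonneg (Finset.sum_nonneg fun ω _ => sq_nonneg _) hM0.le) h
  have h3 : (∑ ω, |X ω|) ^ 2 ≤ (M * Real.sqrt c) ^ 2 := by
    rw [mul_pow, Real.sq_sqrt hc]
    calc (∑ ω, |X ω|) ^ 2 ≤ M * ∑ ω, X ω ^ 2 := h1
      _ ≤ M * (c * M) := mul_le_mul_of_nonneg_left h2 hM0.le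
      _ = M ^ 2 * c := by ring
  exact (abs_le_of_sq_le_sq' h3 (by positivity)).2

open scoped Classical in
theorem net_exists (hd : 1 ≤ d) (t B : ℕ) (hB : 1 ≤ B) (κ : ℝ) (hκ0 : 0 < κ) (hκ : ∀ u y : Site d k, Kt t u y ≤ κ)
    (φ : Site d k → ℝ) (hφ : ∀ x, |φ x| ≤ 1) :
    ∃ R : Finset (Site d k), (R.card : ℝ) ≤ 2 * NN d k / B ∧
      ∑ u, |B * PP^[t] (fun x => if x ∈ R then φ x else 0) u - PP^[t] φ u| ≤ 2 * NN d k * Real.sqrt (B * κ) := by
  set N : ℝ := NN d k with hN
  have hN0 : 0 < N := by rw [hN]; unfold NN; positivity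
  have hB0 : (0 : ℝ) < B := by exact_mod_cast hB
  set s : ℝ := Real.sqrt (B * κ) with hs
  have hs0 : 0 < s := Real.sqrt_pos.2 (mul_pos hB0 hκ0)
  set A : Finset (Site d k) := univ.filter fun x => φ x ≠ 0 with hA
  set G : (Site d k → Fin B) → Site d k → ℝ := fun ω u =>
    B * PP^[t] (fun x => if (ω x).val = 0 then φ x else 0) u - PP^[t] φ u with hG
  set M : ℝ := (B : ℝ) ^ Fintype.card (Site d k) with hM
  have hM0 : 0 < M := by rw [hM]; positivity
  have hMc : M = (Fintype.card (Site d k → Fin B) : ℝ) := by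
    have h0 : Fintype.card (Site d k → Fin B) = B ^ Fintype.card (Site d k) := by
      rw [Fintype.card_fun, Fintype.card_fin]
    rw [hM, h0, Nat.cast_pow]
  have : Nonempty (Fin B) := ⟨⟨0, hB⟩⟩
  -- the first functional
  have e1 : ∑ ω : Site d k → Fin B, ((A.filter fun x => (ω x).val = 0).card : ℝ) ≤ M * (N / B) := by
    have h := sample_card B hB A
    have hAc : (A.card : ℝ) ≤ N := by
      rw [hN, ← card_site]; exact_mod_cast Finset.card_le_univ A
    have h2 : (∑ ω : Site d k → Fin B, ((A.filter fun x => (ω x).val = 0).card : ℝ)) / M ≤ N / B := by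
      rw [hM, h]; exact div_le_div_of_nonneg_right hAc hB0.le
    rw [div_le_iff₀ hM0] at h2
    linarith
  -- the second functional
  have e2 : ∑ ω : Site d k → Fin B, ∑ u, |G ω u| ≤ M * (N * s) := by
    rw [Finset.sum_comm]
    have hu : ∀ u : Site d k, ∑ ω : Site d k → Fin B, |G ω u| ≤ M * s := by
      intro u
      have h1 := sampling t B hB κ hκ φ u
      have h2 : PP^[t] (fun x => φ x ^ 2) u ≤ 1 := by
        calc PP^[t] (fun x => φ x ^ 2) u ≤ PP^[t] (fun _ => (1 : ℝ)) u :=
              PPt_mono t (fun x => by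
                have := hφ x
                rw [← sq_abs]; nlinarith [abs_nonneg (φ x)]) u
          _ = 1 := PPt_const hd t 1 u
      have h3 : (∑ ω : Site d k → Fin B, (G ω u) ^ 2) / M ≤ B * κ := by
        refine le_trans h1 ?_
        have : 0 ≤ B * κ := (mul_pos hB0 hκ0).le
        nlinarith
      exact N2_abs_le M (B * κ) hMc hM0 (fun ω => G ω u) h3
    calc ∑ u, ∑ ω : Site d k → Fin B, |G ω u| ≤ ∑ _u : Site d k, M * s := Finset.sum_le_sum fun u _ => hu u
      _ = M * (N * s) := by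
          rw [Finset.sum_const, Finset.card_univ, nsmul_eq_mul, card_site, ← hN]; ring
  -- a good sample
  have e3 : ∑ ω : Site d k → Fin B, (((A.filter fun x => (ω x).val = 0).card : ℝ) * (B / N) + (∑ u, |G ω u|) / (N * s)) ≤
      ∑ _ω : Site d k → Fin B, (2 : ℝ) := by
    rw [Finset.sum_add_distrib, ← Finset.sum_mul, ← Finset.sum_div, Finset.sum_const, Finset.card_univ,
      nsmul_eq_mul, ← hMc]
    have h1 : (∑ ω : Site d k → Fin B, ((A.filter fun x => (ω x).val = 0).card : ℝ)) * (B / N) ≤ M := by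
      calc _ ≤ (M * (N / B)) * (B / N) := mul_le_mul_of_nonneg_right e1 (by positivity)
        _ = M := by field_simp
    have h2 : (∑ ω : Site d k → Fin B, ∑ u, |G ω u|) / (N * s) ≤ M := by
      rw [div_le_iff₀ (by positivity)]; exact e2
    linarith
  obtain ⟨ω, -, hω⟩ := Finset.exists_le_of_sum_le (Finset.univ_nonempty) e3
  have p1 : 0 ≤ ((A.filter fun x => (ω x).val = 0).card : ℝ) * (B / N) := by positivity
  have p2 : 0 ≤ (∑ u, |G ω u|) / (N * s) :=
    div_nonneg (Finset.sum_nonneg fun u _ => abs_nonneg _) (by positivity)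
  refine ⟨A.filter fun x => (ω x).val = 0, ?_, ?_⟩
  · have h1 : ((A.filter fun x => (ω x).val = 0).card : ℝ) * (B / N) ≤ 2 := by linarith
    rw [le_div_iff₀ hB0]
    calc ((A.filter fun x => (ω x).val = 0).card : ℝ) * B
        = (((A.filter fun x => (ω x).val = 0).card : ℝ) * (B / N)) * N := by field_simp
      _ ≤ 2 * N := mul_le_mul_of_nonneg_right h1 hN0.le
  · have h2 : (∑ u, |G ω u|) / (N * s) ≤ 2 := by linarith
    rw [div_le_iff₀ (by positivity)] at h2
    have h3 : (fun x => if x ∈ (A.filter fun x => (ω x).val = 0) then φ x else 0) =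
        fun x => if (ω x).val = 0 then φ x else 0 := by
      funext x
      by_cases h0 : (ω x).val = 0
      · by_cases hx : φ x = 0
        · simp [h0, hx]
        · simp [hA, h0, hx]
      · simp [h0]
    rw [h3]
    calc ∑ u, |B * PP^[t] (fun x => if (ω x).val = 0 then φ x else 0) u - PP^[t] φ u| = ∑ u, |G ω u| := rfl
      _ ≤ 2 * (N * s) := h2
      _ = 2 * N * s := by ring

end Pool.Agent.THR

end

/-! ### from `Lib_MP_2c424f_thr.C2` -/

section

/-!
# THR C2: estimating the densities from a sample (paper proof: C2)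

`B = d`, `Hs R f u γ = a B PP^(2t+1) (bq γ 1_R) u`.  For uniform `ω`, `R = {ω = 0}`: mean of `|R|` is `N/B`; by `sampling` (applied to `bq γ f/q`, values in
`{0,1}`, `PP^(2t+1) (..)² ≤ 1`) the mean of `|Hs u γ - a PP^(2t+1)(bq γ f) u|` is at most `a q √(B κ)`, `κ = (8t)^(2t)/(2d)^t` (`Kt_sup`, `Kt_succ_le`), which tends to `0` for
`t ≥ 20`.  Functional `B|R|/N + (errors)/(mean)`: some `ω` has value `≤ 3`.
-/

set_option autoImplicit false

open Finset Filter

namespace Pool.Agent.THR

open Pool.Agent.LO Pool.Agent.LIN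

open scoped Classical in
/-- estimate from the sample `R` -/
noncomputable def Hs {d k q : ℕ} (t : ℕ) (R : Finset (Site d k)) (f : Site d k → Fin q) (u : Site d k) (γ : Fin q) : ℝ :=
  ra d q * d * PP^[2 * t + 1] (fun x => if x ∈ R then bq γ f x else 0) u

theorem Hs_loc {d k q : ℕ} (t : ℕ) (R : Finset (Site d k)) (f g : Site d k → Fin q) (h : ∀ x ∈ R, f x = g x) :
    Hs t R f = Hs t R g := by
  classical
  funext u γ
  unfold Hs
  have h1 : (fun x => if x ∈ R then bq γ f x else 0) = (fun x => if x ∈ R then bq γ g x else 0) := by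
    funext x
    by_cases hx : x ∈ R
    · rw [if_pos hx, if_pos hx]
      unfold bq
      rw [h x hx]
    · rw [if_neg hx, if_neg hx]
  rw [h1]

open scoped Classical in
/-- mean error of one estimate -/
private theorem C2_one {d k q : ℕ} (hd : 1 ≤ d) (hq : 1 ≤ q) (t : ℕ) (κ η : ℝ) (hη : 0 < η)
    (hκ : ∀ u y : Site d k, Kt (2 * t) u y ≤ κ) (hs : (d : ℝ) * κ ≤ (η / (2 * d)) ^ 2)
    (f : Site d k → Fin q) (u : Site d k) (γ : Fin q) :
    (∑ ω : Site d k → Fin d, |Hs t (univ.filter fun x => (ω x).val = 0) f u γ - ra d q * PP^[2 * t + 1] (bq γ f) u|) ≤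
      η * (d : ℝ) ^ Fintype.card (Site d k) := by
  have hd0 : (0 : ℝ) < d := by exact_mod_cast hd
  have hq0 : (0 : ℝ) < q := by exact_mod_cast hq
  set θ : ℝ := η / (2 * d) with hθ
  have hθ0 : 0 < θ := by positivity
  set φ : Site d k → ℝ := fun x => if f x = γ then (1 : ℝ) else 0 with hφ
  have hbq : ∀ x, bq γ f x = q * φ x := by
    intro x
    simp only [hφ]
    unfold bq
    split_ifs <;> simp
  set M : ℝ := (d : ℝ) ^ Fintype.card (Site d k) with hM
  have hM0 : 0 < M := by positivity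
  set D : (Site d k → Fin d) → ℝ := fun ω =>
    (d : ℕ) * PP^[2 * t + 1] (fun x => if (ω x).val = 0 then φ x else 0) u - PP^[2 * t + 1] φ u with hD
  have e1 : ∀ ω : Site d k → Fin d,
      Hs t (univ.filter fun x => (ω x).val = 0) f u γ - ra d q * PP^[2 * t + 1] (bq γ f) u = 2 * d * D ω := by
    intro ω
    have h1 : ∀ R : Finset (Site d k), (∀ x, x ∈ R ↔ (ω x).val = 0) →
        PP^[2 * t + 1] (fun x => if x ∈ R then bq γ f x else 0) u =
        q * PP^[2 * t + 1] (fun x => if (ω x).val = 0 then φ x else 0) u := by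
      intro R hR
      have hfun : (fun x => if x ∈ R then bq γ f x else 0) =
          fun y => (q : ℝ) * (if (ω y).val = 0 then φ y else 0) := by
        funext x
        by_cases hx : (ω x).val = 0
        · rw [if_pos ((hR x).2 hx), if_pos hx, hbq]
        · rw [if_neg (fun h => hx ((hR x).1 h)), if_neg hx, mul_zero]
      rw [hfun, PPt_mul]
    have h2 : PP^[2 * t + 1] (bq γ f) u = q * PP^[2 * t + 1] φ u := by
      have hfun : bq γ f = fun y => (q : ℝ) * φ y := by
        funext x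
        rw [hbq]
      rw [hfun, PPt_mul]
    unfold Hs
    rw [h1 _ (fun x => by simp), h2]
    simp only [hD]
    unfold ra
    field_simp
  have hκ1 : ∀ u y : Site d k, Kt (2 * t + 1) u y ≤ κ := fun u y => Kt_succ_le hd (2 * t) κ hκ u y
  have hκ0 : 0 ≤ κ := le_trans (Kt_nonneg (2 * t) u u) (hκ u u)
  have h3 := sampling (2 * t + 1) d hd κ hκ1 φ u
  have h4 : PP^[2 * t + 1] (fun x => φ x ^ 2) u ≤ 1 := by
    have h5 : PP^[2 * t + 1] (fun x => φ x ^ 2) u ≤ PP^[2 * t + 1] (fun _ => (1 : ℝ)) u := by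
      apply PPt_mono
      intro x
      simp only [hφ]
      split_ifs <;> norm_num
    rw [PPt_const hd] at h5
    exact h5
  have h6 : ∑ ω : Site d k → Fin d, D ω ^ 2 ≤ θ ^ 2 * M := by
    have h7 : (∑ ω : Site d k → Fin d, D ω ^ 2) / M ≤ θ ^ 2 := by
      refine le_trans h3 (le_trans ?_ hs)
      calc (d : ℝ) * κ * PP^[2 * t + 1] (fun x => φ x ^ 2) u ≤ (d : ℝ) * κ * 1 := by
            apply mul_le_mul_of_nonneg_left h4
            positivity
        _ = (d : ℝ) * κ := mul_one _
    rwa [div_le_iff₀ hM0] at h7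
  have h8 : ∀ ω : Site d k → Fin d, |D ω| ≤ (D ω ^ 2 / θ + θ) / 2 := by
    intro ω
    have h9 : 0 ≤ (|D ω| - θ) ^ 2 := sq_nonneg _
    have h10 : 2 * |D ω| * θ ≤ D ω ^ 2 + θ ^ 2 := by
      have := sq_abs (D ω)
      nlinarith
    rw [le_div_iff₀ (by norm_num : (0 : ℝ) < 2)]
    have h11 : D ω ^ 2 / θ + θ = (D ω ^ 2 + θ ^ 2) / θ := by
      field_simp
    rw [h11, le_div_iff₀ hθ0]
    linarith
  have hcard : (Fintype.card (Site d k → Fin d) : ℝ) = M := by
    rw [Fintype.card_fun, Fintype.card_fin, hM]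
    push_cast
    rfl
  have h12 : ∑ ω : Site d k → Fin d, |D ω| ≤ θ * M := by
    calc ∑ ω : Site d k → Fin d, |D ω| ≤ ∑ ω : Site d k → Fin d, (D ω ^ 2 / θ + θ) / 2 :=
          Finset.sum_le_sum fun ω _ => h8 ω
      _ = ((∑ ω : Site d k → Fin d, D ω ^ 2) / θ + θ * M) / 2 := by
          rw [← Finset.sum_div, Finset.sum_add_distrib, ← Finset.sum_div, Finset.sum_const, Finset.card_univ,
            nsmul_eq_mul, hcard]
          ring
      _ ≤ (θ ^ 2 * M / θ + θ * M) / 2 := by
          have : (∑ ω : Site d k → Fin d, D ω ^ 2) / θ ≤ θ ^ 2 * M / θ := by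
            apply div_le_div_of_nonneg_right h6 hθ0.le
          linarith
      _ = θ * M := by
          field_simp
          ring
  calc (∑ ω : Site d k → Fin d, |Hs t (univ.filter fun x => (ω x).val = 0) f u γ -
        ra d q * PP^[2 * t + 1] (bq γ f) u|) = ∑ ω : Site d k → Fin d, 2 * d * |D ω| := by
        refine Finset.sum_congr rfl fun ω _ => ?_
        rw [e1 ω, abs_mul, abs_of_pos (by positivity : (0 : ℝ) < 2 * d)]
    _ = 2 * d * ∑ ω : Site d k → Fin d, |D ω| := by rw [Finset.mul_sum]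
    _ ≤ 2 * d * (θ * M) := by
        apply mul_le_mul_of_nonneg_left h12
        positivity
    _ = η * M := by
        rw [hθ]
        field_simp

open scoped Classical in
private theorem C2_main {d k q : ℕ} (hd : 1 ≤ d) (hq : 1 ≤ q) (t : ℕ) (κ δ : ℝ) (hδ : 0 < δ)
    (hκ : ∀ u y : Site d k, Kt (2 * t) u y ≤ κ) (hs : (d : ℝ) * κ ≤ (δ / 3 / (2 * d)) ^ 2)
    (f : Site d k → Fin q) (A : Finset (Site d k)) :
    ∃ R : Finset (Site d k), (R.card : ℝ) ≤ 3 * NN d k / d ∧
      ∑ u ∈ A, |Hs t R f u (f u) - ra d q * PP^[2 * t + 1] (bq (f u) f) u| ≤ δ * NN d k ∧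
      ∑ u ∈ A, mc (fun γ => |Hs t R f u γ - ra d q * PP^[2 * t + 1] (bq γ f) u|) ≤ δ * NN d k := by
  have hd0 : (0 : ℝ) < d := by exact_mod_cast hd
  have hq0 : (0 : ℝ) < q := by exact_mod_cast hq
  have hN0 : 0 < NN d k := by unfold NN; positivity
  set M : ℝ := (d : ℝ) ^ Fintype.card (Site d k) with hM
  have hM0 : 0 < M := by positivity
  have hcard : (Fintype.card (Site d k → Fin d) : ℝ) = M := by
    rw [Fintype.card_fun, Fintype.card_fin, hM]
    push_cast
    rfl
  have hA : (A.card : ℝ) ≤ NN d k := by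
    rw [← card_site]
    exact_mod_cast Finset.card_le_univ A
  let Rf : (Site d k → Fin d) → Finset (Site d k) := fun ω => univ.filter fun x => (ω x).val = 0
  let S1 : (Site d k → Fin d) → ℝ := fun ω =>
    ∑ u ∈ A, |Hs t (Rf ω) f u (f u) - ra d q * PP^[2 * t + 1] (bq (f u) f) u|
  let S2 : (Site d k → Fin d) → ℝ := fun ω =>
    ∑ u ∈ A, mc (fun γ => |Hs t (Rf ω) f u γ - ra d q * PP^[2 * t + 1] (bq γ f) u|)
  have hone : ∀ (u : Site d k) (γ : Fin q),
      (∑ ω : Site d k → Fin d, |Hs t (Rf ω) f u γ - ra d q * PP^[2 * t + 1] (bq γ f) u|) ≤ δ / 3 * M :=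
    fun u γ => C2_one hd hq t κ (δ / 3) (by positivity) hκ hs f u γ
  have hS1 : ∑ ω : Site d k → Fin d, S1 ω ≤ NN d k * (δ / 3 * M) := by
    calc ∑ ω : Site d k → Fin d, S1 ω
        = ∑ u ∈ A, ∑ ω : Site d k → Fin d, |Hs t (Rf ω) f u (f u) - ra d q * PP^[2 * t + 1] (bq (f u) f) u| :=
          Finset.sum_comm
      _ ≤ ∑ u ∈ A, δ / 3 * M := Finset.sum_le_sum fun u _ => hone u (f u)
      _ = A.card * (δ / 3 * M) := by rw [Finset.sum_const, nsmul_eq_mul]
      _ ≤ NN d k * (δ / 3 * M) := by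
          apply mul_le_mul_of_nonneg_right hA
          positivity
  have hS2 : ∑ ω : Site d k → Fin d, S2 ω ≤ NN d k * (δ / 3 * M) := by
    calc ∑ ω : Site d k → Fin d, S2 ω
        = ∑ u ∈ A, (∑ γ : Fin q, ∑ ω : Site d k → Fin d,
            |Hs t (Rf ω) f u γ - ra d q * PP^[2 * t + 1] (bq γ f) u|) / q := by
          simp only [S2, mc]
          rw [Finset.sum_comm]
          refine Finset.sum_congr rfl fun u _ => ?_
          rw [← Finset.sum_div, Finset.sum_comm]
      _ ≤ ∑ u ∈ A, δ / 3 * M := by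
          refine Finset.sum_le_sum fun u _ => ?_
          rw [div_le_iff₀ hq0]
          calc (∑ γ : Fin q, ∑ ω : Site d k → Fin d,
                |Hs t (Rf ω) f u γ - ra d q * PP^[2 * t + 1] (bq γ f) u|)
              ≤ ∑ γ : Fin q, δ / 3 * M := Finset.sum_le_sum fun γ _ => hone u γ
            _ = δ / 3 * M * q := by
                rw [Finset.sum_const, Finset.card_univ, Fintype.card_fin, nsmul_eq_mul]
                ring
      _ = A.card * (δ / 3 * M) := by rw [Finset.sum_const, nsmul_eq_mul]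
      _ ≤ NN d k * (δ / 3 * M) := by
          apply mul_le_mul_of_nonneg_right hA
          positivity
  have hS0 : ∑ ω : Site d k → Fin d, ((Rf ω).card : ℝ) = NN d k / d * M := by
    have h1 := sample_card (d := d) (k := k) d hd univ
    rw [div_eq_iff hM0.ne', Finset.card_univ, card_site] at h1
    exact h1
  let Φ : (Site d k → Fin d) → ℝ := fun ω =>
    d / NN d k * ((Rf ω).card : ℝ) + 3 / (δ * NN d k) * S1 ω + 3 / (δ * NN d k) * S2 ω
  have hΦ : ∑ ω : Site d k → Fin d, Φ ω ≤ ∑ _ω : Site d k → Fin d, (3 : ℝ) := by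
    have hc : 0 ≤ 3 / (δ * NN d k) := by positivity
    calc ∑ ω : Site d k → Fin d, Φ ω
        = d / NN d k * (∑ ω : Site d k → Fin d, ((Rf ω).card : ℝ)) + 3 / (δ * NN d k) * (∑ ω : Site d k → Fin d, S1 ω) +
            3 / (δ * NN d k) * (∑ ω : Site d k → Fin d, S2 ω) := by
          simp only [Φ]
          rw [Finset.sum_add_distrib, Finset.sum_add_distrib, Finset.mul_sum, Finset.mul_sum, Finset.mul_sum]
      _ ≤ d / NN d k * (NN d k / d * M) + 3 / (δ * NN d k) * (NN d k * (δ / 3 * M)) +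
            3 / (δ * NN d k) * (NN d k * (δ / 3 * M)) := by
          rw [hS0]
          have := mul_le_mul_of_nonneg_left hS1 hc
          have := mul_le_mul_of_nonneg_left hS2 hc
          linarith
      _ = ∑ _ω : Site d k → Fin d, (3 : ℝ) := by
          rw [Finset.sum_const, Finset.card_univ, nsmul_eq_mul, hcard]
          field_simp
          ring
  haveI : Nonempty (Site d k → Fin d) := ⟨fun _ => ⟨0, hd⟩⟩
  obtain ⟨ω, -, hω⟩ := Finset.exists_le_of_sum_le (Finset.univ_nonempty) hΦ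
  have p0 : 0 ≤ d / NN d k * ((Rf ω).card : ℝ) := by positivity
  have q1 : 0 ≤ S1 ω := Finset.sum_nonneg fun u _ => abs_nonneg _
  have q2 : 0 ≤ S2 ω := Finset.sum_nonneg fun u _ => div_nonneg (Finset.sum_nonneg fun γ _ => abs_nonneg _) hq0.le
  have p1 : 0 ≤ 3 / (δ * NN d k) * S1 ω := by positivity
  have p2 : 0 ≤ 3 / (δ * NN d k) * S2 ω := by positivity
  have hω' : d / NN d k * ((Rf ω).card : ℝ) + 3 / (δ * NN d k) * S1 ω + 3 / (δ * NN d k) * S2 ω ≤ 3 := hω
  refine ⟨Rf ω, ?_, ?_, ?_⟩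
  · have h1 : d / NN d k * ((Rf ω).card : ℝ) ≤ 3 := by linarith
    rw [le_div_iff₀ hd0]
    rw [div_mul_eq_mul_div, div_le_iff₀ hN0] at h1
    linarith
  · have h1 : 3 / (δ * NN d k) * S1 ω ≤ 3 := by linarith
    rw [div_mul_eq_mul_div, div_le_iff₀ (by positivity)] at h1
    change S1 ω ≤ _
    linarith
  · have h1 : 3 / (δ * NN d k) * S2 ω ≤ 3 := by linarith
    rw [div_mul_eq_mul_div, div_le_iff₀ (by positivity)] at h1
    change S2 ω ≤ _
    linarith

theorem sample_H {ε : ℝ} (hε : 0 < ε) (hε1 : ε ≤ 1) (t : ℕ) (ht : 20 ≤ t) (δ : ℝ) (hδ : 0 < δ) :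
    EvT ε fun d k q => ∀ (b : Bool), ∀ f ∈ prps d k q, ∃ R : Finset (Site d k), (R.card : ℝ) ≤ 3 * NN d k / d ∧
      ∑ u ∈ cls b d k, |Hs t R f u (f u) - ra d q * PP^[2 * t + 1] (bq (f u) f) u| ≤ δ * NN d k ∧
      ∑ u ∈ cls b d k, mc (fun γ => |Hs t R f u γ - ra d q * PP^[2 * t + 1] (bq γ f) u|) ≤ δ * NN d k := by
  obtain ⟨d₀, hd₀⟩ := exists_nat_ge (36 * (8 * (t : ℝ)) ^ (2 * t) / δ ^ 2)
  refine ⟨d₀ + 1, fun d q hd hq _ => ?_⟩
  have hd1 : 1 ≤ d := by omega
  have hd0 : (0 : ℝ) < d := by exact_mod_cast hd1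
  have hq1 : 1 ≤ q := by
    have h1 : (0 : ℝ) < q := lt_of_lt_of_le (by positivity) hq
    exact_mod_cast h1
  filter_upwards [eventually_ge_atTop (2 * t + 1)] with k hk b f _
  have hk' : 2 * t < 2 ^ k := lt_of_lt_of_le (by omega : 2 * t < k + 1) (Nat.succ_le_of_lt k.lt_two_pow_self)
  refine C2_main hd1 hq1 t ((8 * (t : ℝ)) ^ (2 * t) / (2 * (d : ℝ)) ^ t) δ hδ
    (fun u y => Kt_sup hd1 t hk' u y) ?_ f (cls b d k)
  have h36 : 36 * (8 * (t : ℝ)) ^ (2 * t) ≤ δ ^ 2 * d := by
    have h1 : 36 * (8 * (t : ℝ)) ^ (2 * t) / δ ^ 2 ≤ d := by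
      refine le_trans hd₀ ?_
      exact_mod_cast (by omega : d₀ ≤ d)
    rw [div_le_iff₀ (by positivity)] at h1
    linarith
  have hpow : (d : ℝ) ^ 4 ≤ (2 * (d : ℝ)) ^ t := by
    have h1 : (1 : ℝ) ≤ 2 * d := by
      have : (1 : ℝ) ≤ d := by exact_mod_cast hd1
      linarith
    calc (d : ℝ) ^ 4 ≤ (2 * (d : ℝ)) ^ 4 := by
          apply pow_le_pow_left₀ hd0.le
          linarith
      _ ≤ (2 * (d : ℝ)) ^ t := pow_le_pow_right₀ h1 (by omega)
  have h2d : 0 < (2 * (d : ℝ)) ^ t := by positivity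
  have hE : (δ / 3 / (2 * (d : ℝ))) ^ 2 = δ ^ 2 / (36 * (d : ℝ) ^ 2) := by
    field_simp
    ring
  rw [hE, ← mul_div_assoc, div_le_div_iff₀ h2d (by positivity)]
  calc (d : ℝ) * (8 * (t : ℝ)) ^ (2 * t) * (36 * (d : ℝ) ^ 2)
      = (36 * (8 * (t : ℝ)) ^ (2 * t)) * (d : ℝ) ^ 3 := by ring
    _ ≤ (δ ^ 2 * d) * (d : ℝ) ^ 3 := by
        apply mul_le_mul_of_nonneg_right h36
        positivity
    _ = δ ^ 2 * (d : ℝ) ^ 4 := by ring
    _ ≤ δ ^ 2 * (2 * (d : ℝ)) ^ t := by
        apply mul_le_mul_of_nonneg_left hpow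
        positivity

/-- number of samples -/
theorem sample_num {ε : ℝ} (hε : 0 < ε) (hε1 : ε ≤ 1) (δ : ℝ) (hδ : 0 < δ) :
    EvT ε fun d k q => (((univ : Finset (Finset (Site d k))).filter fun R => (R.card : ℝ) ≤ 3 * NN d k / d).card : ℝ) *
      (q : ℝ) ^ (3 * NN d k / d) ≤ Real.exp (δ * NN d k) := by
  classical
  have hlim : Tendsto (fun x : ℝ => (1 + 3 * Real.log x + 3 * Real.log (2 * x)) / x) atTop (nhds 0) := by
    have h1 : Tendsto (fun x : ℝ => Real.log x / x) atTop (nhds 0) := by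
      have := Real.tendsto_pow_log_div_mul_add_atTop 1 0 1 one_ne_zero
      simpa using this
    have h2 : Tendsto (fun x : ℝ => x⁻¹) atTop (nhds 0) := tendsto_inv_atTop_zero
    have h3 : Tendsto (fun x : ℝ => (1 + 3 * Real.log 2) * x⁻¹ + 6 * (Real.log x / x)) atTop (nhds 0) := by
      have := (h2.const_mul (1 + 3 * Real.log 2)).add (h1.const_mul 6)
      simpa using this
    refine h3.congr' ?_
    filter_upwards [eventually_gt_atTop (0 : ℝ)] with x hx
    rw [Real.log_mul (by norm_num) hx.ne']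
    field_simp
    ring
  have hev : ∀ᶠ x : ℝ in atTop, (1 + 3 * Real.log x + 3 * Real.log (2 * x)) / x < δ :=
    hlim.eventually (gt_mem_nhds hδ)
  have hev' : ∀ᶠ n : ℕ in atTop, (1 + 3 * Real.log (n : ℝ) + 3 * Real.log (2 * (n : ℝ))) / (n : ℝ) < δ :=
    tendsto_natCast_atTop_atTop.eventually hev
  obtain ⟨d₀, hd₀⟩ := eventually_atTop.1 hev'
  refine ⟨d₀ + 1, fun d q hd hq hq2 => Eventually.of_forall fun k => ?_⟩
  have hd1 : 1 ≤ d := by omega
  have hd0 : (0 : ℝ) < d := by exact_mod_cast hd1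
  have hd1' : (1 : ℝ) ≤ d := by exact_mod_cast hd1
  have hq0 : (0 : ℝ) < q := lt_of_lt_of_le (by positivity) hq
  have hN0 : 0 < NN d k := by unfold NN; positivity
  have hmain := hd₀ d (by omega)
  set r : ℝ := 3 * NN d k / d with hr
  have hr0 : 0 ≤ r := by positivity
  -- number of sets
  have hcount : (((univ : Finset (Finset (Site d k))).filter fun R => (R.card : ℝ) ≤ r).card : ℝ) ≤
      (d : ℝ) ^ r * (1 / (d : ℝ) + 1) ^ Fintype.card (Site d k) := by
    have hsum : ∑ R : Finset (Site d k), (1 / (d : ℝ)) ^ R.card = (1 / (d : ℝ) + 1) ^ Fintype.card (Site d k) := by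
      have := Fintype.sum_pow_mul_eq_add_pow (Site d k) (1 / (d : ℝ)) 1
      simpa using this
    calc (((univ : Finset (Finset (Site d k))).filter fun R => (R.card : ℝ) ≤ r).card : ℝ)
        = ∑ R ∈ (univ : Finset (Finset (Site d k))).filter (fun R => (R.card : ℝ) ≤ r), (1 : ℝ) := by
          rw [Finset.sum_const, nsmul_eq_mul, mul_one]
      _ ≤ ∑ R ∈ (univ : Finset (Finset (Site d k))).filter (fun R => (R.card : ℝ) ≤ r),
            (d : ℝ) ^ r * (1 / (d : ℝ)) ^ R.card := by
          refine Finset.sum_le_sum fun R hR => ?_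
          have hR' : (R.card : ℝ) ≤ r := (Finset.mem_filter.1 hR).2
          have h1 : (d : ℝ) ^ (R.card : ℕ) ≤ (d : ℝ) ^ r := by
            rw [← Real.rpow_natCast]
            exact Real.rpow_le_rpow_of_exponent_le hd1' hR'
          rw [one_div, inv_pow, ← div_eq_mul_inv, le_div_iff₀ (by positivity), one_mul]
          exact h1
      _ ≤ ∑ R : Finset (Site d k), (d : ℝ) ^ r * (1 / (d : ℝ)) ^ R.card := by
          apply Finset.sum_le_sum_of_subset_of_nonneg (Finset.filter_subset _ _)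
          intro R _ _
          positivity
      _ = (d : ℝ) ^ r * (1 / (d : ℝ) + 1) ^ Fintype.card (Site d k) := by
          rw [← Finset.mul_sum, hsum]
  have hexp1 : (1 / (d : ℝ) + 1) ^ Fintype.card (Site d k) ≤ Real.exp (NN d k / d) := by
    calc (1 / (d : ℝ) + 1) ^ Fintype.card (Site d k) ≤ (Real.exp (1 / (d : ℝ))) ^ Fintype.card (Site d k) := by
          apply pow_le_pow_left₀ (by positivity)
          exact Real.add_one_le_exp _
      _ = Real.exp (NN d k / d) := by
          rw [← Real.exp_nat_mul, card_site]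
          congr 1
          field_simp
  have hdr : (d : ℝ) ^ r = Real.exp (Real.log d * r) := Real.rpow_def_of_pos hd0 r
  have hqr : (q : ℝ) ^ r = Real.exp (Real.log q * r) := Real.rpow_def_of_pos hq0 r
  have hlogq : Real.log q ≤ Real.log (2 * d) := by
    apply Real.log_le_log hq0
    nlinarith
  calc (((univ : Finset (Finset (Site d k))).filter fun R => (R.card : ℝ) ≤ r).card : ℝ) * (q : ℝ) ^ r
      ≤ ((d : ℝ) ^ r * Real.exp (NN d k / d)) * (q : ℝ) ^ r := by
        apply mul_le_mul_of_nonneg_right _ (by positivity)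
        refine le_trans hcount ?_
        apply mul_le_mul_of_nonneg_left hexp1
        positivity
    _ = Real.exp (Real.log d * r + NN d k / d + Real.log q * r) := by
        rw [hdr, hqr, ← Real.exp_add, ← Real.exp_add]
    _ ≤ Real.exp (δ * NN d k) := by
        apply Real.exp_le_exp.2
        have h1 : Real.log q * r ≤ Real.log (2 * d) * r := mul_le_mul_of_nonneg_right hlogq hr0
        have h2 : Real.log d * r + NN d k / d + Real.log (2 * d) * r =
            ((1 + 3 * Real.log (d : ℝ) + 3 * Real.log (2 * (d : ℝ))) / (d : ℝ)) * NN d k := by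
          rw [hr]
          field_simp
          ring
        have h3 := mul_le_mul_of_nonneg_right hmain.le hN0.le
        linarith

end Pool.Agent.THR

end

/-! ### from `Lib_MP_2c424f_lc3.T04` -/

section

/-!
# Part III, T04: functions of the odd vertices

`G` is bipartite (`Par`).  `TyE … F x` for even `x` uses `Rv G F x`, `nv G F x c`: colours of neighbours of `x`, odd.  `TyO … F y` for odd `y` uses
`Rc G F x y`, `nc G F x y c` for `x ~ y`: colours of the neighbours of the even vertices `x`.  So `X0`, `X00`, `TTo`, `nJ` depend on the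
odd vertices only.  `cl` depends only on the odd vertices by definition, hence also `Wcl`, `QQ`.
-/

set_option autoImplicit false

open Finset Filter

namespace Pool.Agent.LC3

open Pool.Agent.LO Pool.Agent.LIN Pool.Agent.THR Pool.Agent.COR Pool.Agent.LC

section
variable {V : Type} [Fintype V] [DecidableEq V] {d q j : ℕ}

private theorem T04_Rv (G : SimpleGraph V) (ev : V → Prop) (hP : Par G ev) {F F' : V → Fin q}
    (h : ∀ v, ¬ ev v → F v = F' v) {v : V} (hv : ev v) : Rv G F v = Rv G F' v := by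
  classical
  unfold Rv
  refine Finset.filter_congr fun c _ => ?_
  refine forall_congr' fun x => forall_congr' fun hx => ?_
  rw [h x ((hP v x hx).1 hv)]

private theorem T04_nv (G : SimpleGraph V) (ev : V → Prop) (hP : Par G ev) {F F' : V → Fin q}
    (h : ∀ v, ¬ ev v → F v = F' v) {v : V} (hv : ev v) (c : Fin q) : nv G F v c = nv G F' v c := by
  classical
  unfold nv
  congr 1
  refine Finset.filter_congr fun x _ => ?_
  refine and_congr_right fun hx => ?_
  rw [h x ((hP v x hx).1 hv)]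

private theorem T04_Rc (G : SimpleGraph V) (ev : V → Prop) (hP : Par G ev) {F F' : V → Fin q}
    (h : ∀ v, ¬ ev v → F v = F' v) {x : V} (hx : ev x) (v : V) : Rc G F x v = Rc G F' x v := by
  unfold Rc
  ext c
  simp only [Finset.mem_filter]
  refine and_congr_right fun _ => ?_
  refine forall_congr' fun y => forall_congr' fun hy => forall_congr' fun _ => ?_
  rw [h y ((hP x y hy).1 hx)]

private theorem T04_nc (G : SimpleGraph V) (ev : V → Prop) (hP : Par G ev) {F F' : V → Fin q}
    (h : ∀ v, ¬ ev v → F v = F' v) {x : V} (hx : ev x) (v : V) (c : Fin q) : nc G F x v c = nc G F' x v c := by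
  unfold nc
  congr 1
  ext y
  simp only [Finset.mem_filter]
  refine and_congr_right fun _ => ?_
  refine and_congr_right fun hy => ?_
  rw [h y ((hP x y hy).1 hx)]

private theorem T04_TyE_imp (G : SimpleGraph V) (ev : V → Prop) (hP : Par G ev) (A : Finset (Fin q)) {F F' : V → Fin q}
    (h : ∀ v, ¬ ev v → F v = F' v) {v : V} (hv : ev v) (H : TyE d G ev A F v) : TyE d G ev A F' v := by
  have h1 := T04_Rv G ev hP h hv
  have h2 := T04_nv G ev hP h hv
  obtain ⟨e1, e2, e3, e4⟩ := H
  rw [h1] at e1 e2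
  simp only [h2] at e3 e4
  exact ⟨e1, e2, e3, e4⟩

private theorem T04_TyE (G : SimpleGraph V) (ev : V → Prop) (hP : Par G ev) (A : Finset (Fin q)) {F F' : V → Fin q}
    (h : ∀ v, ¬ ev v → F v = F' v) {v : V} (hv : ev v) : TyE d G ev A F v ↔ TyE d G ev A F' v :=
  ⟨T04_TyE_imp G ev hP A h hv, T04_TyE_imp G ev hP A (fun v hv => (h v hv).symm) hv⟩

private theorem T04_nb (G : SimpleGraph V) (ev : V → Prop) (hP : Par G ev) {v x : V} (hv : ¬ ev v) (hx : x ∈ nb G v) : ev x := by
  classical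
  unfold nb at hx
  rw [Finset.mem_filter] at hx
  by_contra hc
  exact hv ((hP v x hx.2).2 hc)

private theorem T04_TyO_imp (G : SimpleGraph V) (ev : V → Prop) (hP : Par G ev) (A : Finset (Fin q)) {F F' : V → Fin q}
    (h : ∀ v, ¬ ev v → F v = F' v) {v : V} (hv : ¬ ev v) (H : TyO d G ev A F v) : TyO d G ev A F' v := by
  classical
  obtain ⟨o1, o2, o3⟩ := H
  refine ⟨fun c hc => ?_, fun c => ?_, fun c hc => ?_⟩
  · refine le_trans (le_of_eq ?_) (o1 c hc)
    congr 2
    refine Finset.filter_congr fun x hx => ?_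
    rw [T04_Rc G ev hP h (T04_nb G ev hP hv hx) v]
  · refine le_trans (le_of_eq ?_) (o2 c)
    refine Finset.sum_congr rfl fun x hx => ?_
    rw [T04_nc G ev hP h (T04_nb G ev hP hv hx) v c]
  · refine le_trans (le_of_eq ?_) (o3 c hc)
    refine Finset.sum_congr rfl fun x hx => ?_
    rw [T04_nc G ev hP h (T04_nb G ev hP hv hx) v c]

private theorem T04_TyO (G : SimpleGraph V) (ev : V → Prop) (hP : Par G ev) (A : Finset (Fin q)) {F F' : V → Fin q}
    (h : ∀ v, ¬ ev v → F v = F' v) {v : V} (hv : ¬ ev v) : TyO d G ev A F v ↔ TyO d G ev A F' v :=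
  ⟨T04_TyO_imp G ev hP A h hv, T04_TyO_imp G ev hP A (fun v hv => (h v hv).symm) hv⟩

private theorem T04_cert (G : SimpleGraph V) (ev : V → Prop) (hP : Par G ev) (A B : Finset (Fin q)) {F F' K K' : V → Fin q}
    (h : ∀ v, ¬ ev v → F v = F' v) (h' : ∀ v, ¬ ev v → K v = K' v) {v : V} (hv : ¬ ev v) :
    cert d G ev A B F K v ↔ cert d G ev A B F' K' v := by
  unfold cert
  refine and_congr ?_ ?_
  · rw [T04_TyO G ev hP A h hv, T04_TyO G ev hP B h' hv]
  · refine forall_congr' fun x => forall_congr' fun hx => ?_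
    have hx' := T04_nb G ev hP hv hx
    rw [T04_TyE G ev hP A h hx', T04_TyE G ev hP B h' hx']

private theorem T04_fo {ev : V → Prop} {ω ω' : V → Fin q × Fin q} (h : so ev ω ω') :
    ∀ v, ¬ ev v → fo ω v = fo ω' v := fun v hv => by
  unfold fo
  rw [h v hv]

private theorem T04_go {ev : V → Prop} {ω ω' : V → Fin q × Fin q} (h : so ev ω ω') :
    ∀ v, ¬ ev v → go ω v = go ω' v := fun v hv => by
  unfold go
  rw [h v hv]

private theorem T04_symm {ev : V → Prop} {ω ω' : V → Fin q × Fin q} (h : so ev ω ω') : so ev ω' ω :=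
  fun v hv => (h v hv).symm

theorem TTo_so (G : SimpleGraph V) (ev : V → Prop) (hP : Par G ev) (A : Finset (Fin q)) {F F' : V → Fin q}
    (h : ∀ v, ¬ ev v → F v = F' v) : TTo d G ev A F ↔ TTo d G ev A F' := by
  classical
  unfold TTo
  have h1 : (univ.filter fun v => (ev v ∧ ¬ TyE d G ev A F v) ∨ (¬ ev v ∧ ¬ TyO d G ev A F v)) =
      univ.filter fun v => (ev v ∧ ¬ TyE d G ev A F' v) ∨ (¬ ev v ∧ ¬ TyO d G ev A F' v) := by
    refine Finset.filter_congr fun v _ => ?_
    refine or_congr (and_congr_right fun hv => ?_) (and_congr_right fun hv => ?_)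
    · rw [T04_TyE G ev hP A h hv]
    · rw [T04_TyO G ev hP A h hv]
  rw [h1]

theorem X0_so (D : Bal V d q j) {ω ω' : V → Fin q × Fin q} (h : so D.ev ω ω') : X0 D ω = X0 D ω' := by
  classical
  unfold X0
  refine Finset.filter_congr fun v _ => ?_
  refine or_congr (and_congr_right fun hv => ?_) (and_congr_right fun hv => ?_)
  · rw [T04_TyE D.G D.ev D.par D.A (T04_fo h) hv, T04_TyE D.G D.ev D.par D.B (T04_go h) hv]
  · rw [T04_cert D.G D.ev D.par D.A D.B (T04_fo h) (T04_go h) hv]

theorem X00_so (D : Bal V d q j) {ω ω' : V → Fin q × Fin q} (h : so D.ev ω ω') : X00 D ω = X00 D ω' := by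
  classical
  unfold X00
  refine Finset.filter_congr fun v _ => ?_
  refine and_congr_right fun hv => ?_
  rw [h v hv]

theorem Del_so (D : Bal V d q j) {ω ω' : V → Fin q × Fin q} (h : so D.ev ω ω') : Del D ω = Del D ω' := by
  unfold Del
  rw [X0_so D h, X00_so D h]

theorem nJ_so (D : Bal V d q j) (J' : Finset (Fin q)) {ω ω' : V → Fin q × Fin q} (h : so D.ev ω ω') :
    nJ D J' ω = nJ D J' ω' := by
  classical
  unfold nJ
  congr 2
  refine Finset.filter_congr fun v _ => ?_
  refine and_congr_right fun hv => ?_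
  rw [h v hv]

theorem cl_congr (G : SimpleGraph V) (ev : V → Prop) {ω ω' : V → Fin q × Fin q} (h : so ev ω ω') :
    cl G ev ω = cl G ev ω' := by
  classical
  unfold cl
  refine Finset.filter_congr fun ω'' _ => ?_
  refine and_congr_right fun _ => ?_
  constructor
  · intro h1 v hv
    rw [h1 v hv, h v hv]
  · intro h1 v hv
    rw [h1 v hv, h v hv]

theorem QQ_so (D : Bal V d q j) {ω ω' : V → Fin q × Fin q} (h : so D.ev ω ω') : QQ D ω ↔ QQ D ω' := by
  unfold QQ Wcl
  rw [cl_congr D.G D.ev h, X00_so D h, nJ_so D D.J1 h, nJ_so D D.J2 h]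

theorem OM_cl (D : Bal V d q j) {ω : V → Fin q × Fin q} (hω : ω ∈ OM D) : cl D.G D.ev ω ⊆ OM D := by
  classical
  intro ω' hω'
  unfold OM at hω ⊢
  unfold cl at hω'
  rw [Finset.mem_filter] at hω hω' ⊢
  obtain ⟨_, _, h2, h3⟩ := hω
  obtain ⟨_, h5, h6⟩ := hω'
  refine ⟨Finset.mem_univ _, h5, ?_, ?_⟩
  · exact (TTo_so D.G D.ev D.par D.A (T04_fo h6)).2 h2
  · exact (TTo_so D.G D.ev D.par D.B (T04_go h6)).2 h3

end

end Pool.Agent.LC3

end

/-! ### from `Lib_MP_2c424f_lc.PercB` -/

section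

/-!
# Conflict paths, continued: local lemma for chains (III.C), long paths with few atypical sites (V.2)
-/

set_option autoImplicit false
set_option linter.unusedSectionVars false

open Finset

namespace Pool.Agent.LC

/-! ## III.C -/

section chains
variable {Λ : Type*} [Fintype Λ] [DecidableEq Λ] {α : Type*} [DecidableEq α]
variable {ev : Λ → Prop} {cf : Λ → Λ → α → Prop} {S : Λ → Finset α} {P1 : Λ → Λ → ℝ} {P2 : Λ → Λ → Λ → ℝ}
variable {ρ b ρ' : ℝ}

/-- a sum over lists containing `x` is at most the sum over the two parts -/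
theorem sum_parts (x : Λ) (A : Finset (List Λ)) (n : ℕ) (hA : ∀ l ∈ A, x ∈ l ∧ l.length ≤ n)
    (g : List Λ → ℝ) (hg : ∀ l, 0 ≤ g l) :
    ∑ l ∈ A, g l ≤ ∑ l ∈ LT Λ n, ∑ m ∈ LT Λ n, g (l.reverse ++ x :: m) := by
  classical
  have hex : ∀ l : List Λ, ∃ p : List Λ × List Λ, x ∈ l → l = p.1.reverse ++ x :: p.2 := by
    intro l
    by_cases h : x ∈ l
    · obtain ⟨s, t, h1⟩ := List.append_of_mem h
      exact ⟨(s.reverse, t), fun _ => by simpa using h1⟩
    · exact ⟨([], []), fun h' => absurd h' h⟩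
  choose ψ hψ using hex
  have hinj : Set.InjOn ψ A := by
    intro l hl m hm h
    rw [hψ l (hA l hl).1, hψ m (hA m hm).1, h]
  rw [← Finset.sum_product']
  calc ∑ l ∈ A, g l = ∑ l ∈ A, g ((ψ l).1.reverse ++ x :: (ψ l).2) :=
        Finset.sum_congr rfl fun l hl => by rw [← hψ l (hA l hl).1]
    _ = ∑ p ∈ A.image ψ, g (p.1.reverse ++ x :: p.2) :=
        (Finset.sum_image (f := fun p : List Λ × List Λ => g (p.1.reverse ++ x :: p.2)) hinj).symm
    _ ≤ ∑ p ∈ LT Λ n ×ˢ LT Λ n, g (p.1.reverse ++ x :: p.2) := by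
        refine Finset.sum_le_sum_of_subset_of_nonneg ?_ fun _ _ _ => hg _
        intro p hp
        obtain ⟨l, hl, rfl⟩ := Finset.mem_image.1 hp
        have h1 := congrArg List.length (hψ l (hA l hl).1)
        have h2 := (hA l hl).2
        rw [List.length_append, List.length_cons, List.length_reverse] at h1
        rw [Finset.mem_product, mem_LT, mem_LT]
        omega

/-- III.C: the local lemma for chains.  `Ev`: the self-avoiding chains (a chain with one site `x` is the event that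
`x` meets both colour sets); `p0` bounds the probability of the one-site chains. -/
theorem paths_lll [DecidablePred ev] (hS : PKer S ev cf P1 P2) (hK : Ker ev P1 P2 ρ b ρ') (hρ : 4 * ρ ≤ 1 / 2)
    (Ev : Finset (List Λ)) (hnd : ∀ l ∈ Ev, l.Nodup) (hne : ∀ l ∈ Ev, ∃ s ∈ l, ev s)
    (E : List Λ → (Λ → α) → Prop) (hdep : ∀ l ∈ Ev, dep (l.toFinset.filter fun s => ev s) (E l))
    (hE : ∀ l ∈ Ev, 2 ≤ l.length → ∀ ω, (∀ i, ω i ∈ S i) → E l ω → l.IsChain (cfl ev cf ω))
    (p0 : ℝ) (hp0 : 0 ≤ p0) (hE1 : ∀ x, ev x → [x] ∈ Ev → cnt S (E [x]) ≤ p0 * cnt S fun _ => True)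
    (hsm : 4 * p0 + (2 * (4 * ρ' * (2 * (1 + 4 * b))) + 4 * ρ' * (2 * (1 + 4 * b)) ^ 2) ≤ 1 / 4) :
    Real.exp (-(2 * ∑ l ∈ Ev, 4 ^ (l.filter fun s => ev s).length * (cnt S (E l) / cnt S fun _ => True))) *
      cnt S (fun _ => True) ≤ cnt S (fun ω => ∀ l ∈ Ev, ¬ E l ω) := by
  classical
  have htop := cnt_true_pos hS.ne
  have hcard : ∀ l ∈ Ev, (l.toFinset.filter fun s => ev s).card = (l.filter fun s => ev s).length := by
    intro l hl
    have h1 : (l.toFinset.filter fun s => ev s) = (l.filter fun s => ev s).toFinset := by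
      ext s
      simp
    rw [h1, List.toFinset_card_of_nodup ((hnd l hl).filter _)]
  have hp0' : ∀ l : List Λ, 0 ≤ cnt S (E l) / cnt S fun _ => True := fun l =>
    div_nonneg (cnt_nonneg _ _) (cnt_nonneg _ _)
  have hmain := lll_exp hS.ne Ev E (fun l => l.toFinset.filter fun s => ev s)
    (fun l hl => by
      obtain ⟨s, hs, hs'⟩ := hne l hl
      exact ⟨s, Finset.mem_filter.2 ⟨List.mem_toFinset.2 hs, hs'⟩⟩) hdep
    (fun l => cnt S (E l) / cnt S fun _ => True) (fun l _ => hp0' l)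
    (fun l _ => le_of_eq (div_mul_cancel₀ _ htop.ne').symm) (by
      intro x
      by_cases hx : ev x
      · set A := (Ev.filter fun l => x ∈ l.toFinset.filter fun s => ev s).filter fun l => l.length ≠ 1 with hA
        have hAm : ∀ l ∈ A, l ∈ Ev ∧ x ∈ l ∧ 2 ≤ l.length := by
          intro l hl
          rw [hA, Finset.mem_filter, Finset.mem_filter] at hl
          have h1 : x ∈ l := List.mem_toFinset.1 (Finset.mem_filter.1 hl.1.2).1
          have h2 : l.length ≠ 0 := fun h => by
            rw [List.length_eq_zero_iff] at h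
            subst h
            simp at h1
          exact ⟨hl.1.1, h1, by have := hl.2; omega⟩
        have hsub : (Ev.filter fun l => x ∈ l.toFinset.filter fun s => ev s) ⊆
            (if [x] ∈ Ev then {[x]} else ∅) ∪ A := by
          intro l hl
          rw [Finset.mem_union]
          by_cases h1 : l.length = 1
          · left
            obtain ⟨y, rfl⟩ := List.length_eq_one_iff.1 h1
            have h2 := (Finset.mem_filter.1 hl).2
            have h3 : x = y := by simpa using (Finset.mem_filter.1 h2).1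
            subst h3
            rw [if_pos (Finset.mem_filter.1 hl).1]
            exact Finset.mem_singleton_self _
          · right
            exact Finset.mem_filter.2 ⟨hl, h1⟩
        have hterm : ∀ l ∈ A, (4 : ℝ) ^ (l.toFinset.filter fun s => ev s).card *
            (cnt S (E l) / cnt S fun _ => True) ≤
              (if l.length = 1 then 0 else wt ev 4 P1 P2 none l) := by
          intro l hl
          obtain ⟨h1, h2, h3⟩ := hAm l hl
          rw [if_neg (by omega), hcard l h1, wt_const]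
          refine mul_le_mul_of_nonneg_left ?_ (by positivity)
          rw [div_le_iff₀ htop]
          exact (cnt_mono fun ω hω h => hE l h1 h3 ω hω h).trans
            (chain_le hS hK.n1 hK.n2 l (hnd l h1))
        have h4 : ∑ l ∈ A, (if l.length = 1 then 0 else wt ev 4 P1 P2 none l) ≤
            2 * (4 * ρ' * (2 * (1 + 4 * b))) + 4 * ρ' * (2 * (1 + 4 * b)) ^ 2 := by
          refine (sum_parts x A (Fintype.card Λ) (fun l hl => ⟨(hAm l hl).2.1, ?_⟩) _ ?_).trans ?_
          · exact (hnd l (hAm l hl).1).length_le_card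
          · intro l
            split_ifs
            · exact le_rfl
            · exact wt_nonneg (by norm_num) hK _ _
          · refine le_trans (Finset.sum_le_sum fun l _ => Finset.sum_le_sum fun m _ => ?_)
              (sum_mid (c := 4) (by norm_num) hK hρ (Fintype.card Λ) hx)
            by_cases h5 : l = [] ∧ m = []
            · rw [if_pos h5, h5.1, h5.2]
              simp
            · rw [if_neg h5, if_neg]
              intro h6
              apply h5
              rw [List.length_append, List.length_reverse, List.length_cons] at h6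
              exact ⟨List.length_eq_zero_iff.1 (by omega), List.length_eq_zero_iff.1 (by omega)⟩
        have h5 : ∑ l ∈ (if [x] ∈ Ev then ({[x]} : Finset (List Λ)) else ∅),
            (4 : ℝ) ^ (l.toFinset.filter fun s => ev s).card * (cnt S (E l) / cnt S fun _ => True) ≤ 4 * p0 := by
          split_ifs with h6
          · rw [Finset.sum_singleton]
            have h7 : (([x] : List Λ).toFinset.filter fun s => ev s).card = 1 := by
              rw [hcard _ h6]
              simp [hx]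
            rw [h7, pow_one]
            refine mul_le_mul_of_nonneg_left ?_ (by norm_num)
            rw [div_le_iff₀ htop]
            exact hE1 x hx h6
          · rw [Finset.sum_empty]
            linarith
        calc _ ≤ ∑ l ∈ (if [x] ∈ Ev then {[x]} else ∅) ∪ A,
              (4 : ℝ) ^ (l.toFinset.filter fun s => ev s).card * (cnt S (E l) / cnt S fun _ => True) :=
              Finset.sum_le_sum_of_subset_of_nonneg hsub fun l _ _ => mul_nonneg (by positivity) (hp0' l)
          _ ≤ ∑ l ∈ (if [x] ∈ Ev then {[x]} else ∅),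
              (4 : ℝ) ^ (l.toFinset.filter fun s => ev s).card * (cnt S (E l) / cnt S fun _ => True) +
              ∑ l ∈ A, (4 : ℝ) ^ (l.toFinset.filter fun s => ev s).card *
                (cnt S (E l) / cnt S fun _ => True) := by
              rw [← Finset.sum_union_inter]
              exact le_add_of_nonneg_right (Finset.sum_nonneg fun l _ => mul_nonneg (by positivity) (hp0' l))
          _ ≤ 4 * p0 + (2 * (4 * ρ' * (2 * (1 + 4 * b))) + 4 * ρ' * (2 * (1 + 4 * b)) ^ 2) :=
              add_le_add h5 ((Finset.sum_le_sum hterm).trans h4)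
          _ ≤ 1 / 4 := hsm
      · have : (Ev.filter fun l => x ∈ l.toFinset.filter fun s => ev s) = ∅ := by
          rw [Finset.filter_eq_empty_iff]
          intro l _ h
          exact hx (Finset.mem_filter.1 h).2
        rw [this, Finset.sum_empty]
        norm_num)
  have hsum : ∑ l ∈ Ev, (4 : ℝ) ^ (l.toFinset.filter fun s => ev s).card *
      (cnt S (E l) / cnt S fun _ => True) =
      ∑ l ∈ Ev, 4 ^ (l.filter fun s => ev s).length * (cnt S (E l) / cnt S fun _ => True) :=
    Finset.sum_congr rfl fun l hl => by rw [hcard l hl]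
  rw [hsum] at hmain
  exact hmain

/-- III.D: expected number (with the weights `c^e`) of the self-avoiding conflict paths with `n + 1` steps in a set of
lists -/
theorem paths_sum [DecidablePred ev] (hS : PKer S ev cf P1 P2) (hK : Ker ev P1 P2 ρ b ρ') (c : ℝ) (hc : 0 ≤ c)
    (n : ℕ) (A : Finset (List Λ)) (hA : ∀ l ∈ A, l.Nodup ∧ l.length = n + 2) :
    ∑ l ∈ A, c ^ (l.filter fun s => ev s).length *
        (cnt S (fun ω => l.IsChain (cfl ev cf ω)) / cnt S fun _ => True) ≤
      Fintype.card Λ * ((2 * (c * ρ') + c * ρ + c * ρ' * (c * b)) * (c * ρ) ^ (n / 2)) := by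
  have htop := cnt_true_pos hS.ne
  refine le_trans ?_ (sum_all hc hK n)
  calc _ ≤ ∑ l ∈ A, wt ev c P1 P2 none l := by
        refine Finset.sum_le_sum fun l hl => ?_
        rw [wt_const]
        refine mul_le_mul_of_nonneg_left ?_ (by positivity)
        rw [div_le_iff₀ htop]
        exact chain_le hS hK.n1 hK.n2 l (hA l hl).1
    _ ≤ ∑ l ∈ LL Λ (n + 2), wt ev c P1 P2 none l :=
        Finset.sum_le_sum_of_subset_of_nonneg (fun l hl => (mem_LL _ _).2 (hA l hl).2)
          fun l _ _ => wt_nonneg hc hK _ _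

end chains

/-! ## V.2 -/

section long
variable {Λ : Type*} [Fintype Λ] [DecidableEq Λ] {α : Type*} [DecidableEq α]
variable {ev : Λ → Prop} {cf : Λ → Λ → α → Prop} {S : Λ → Finset α} {P1 : Λ → Λ → ℝ} {P2 : Λ → Λ → Λ → ℝ}
variable {ρ D : ℝ}

/-- kernel bounds with atypical sites: rows `≤ ρ` at the typical odd sites, `≤ D` everywhere -/
structure KerA (ev at' : Λ → Prop) (P1 : Λ → Λ → ℝ) (P2 : Λ → Λ → Λ → ℝ) (ρ D : ℝ) : Prop where
  n1 : ∀ x y, 0 ≤ P1 x y
  n2 : ∀ x y y', 0 ≤ P2 x y y'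
  z1 : ∀ x y, ev y → P1 x y = 0
  z2 : ∀ x y y', ev y ∨ ev y' → P2 x y y' = 0
  r0 : 0 < ρ
  r1 : ρ ≤ 1
  d1 : 1 ≤ D
  od : ∀ y, at' y → ¬ ev y
  ty : ∀ y, ¬ ev y → ¬ at' y → ∑ x, ∑ y', P2 x y y' ≤ ρ
  o2 : ∀ y, ¬ ev y → ∑ x, ∑ y', P2 x y y' ≤ D
  o1 : ∀ y, ¬ ev y → ∑ x, P1 x y ≤ D
  e1 : ∀ x, ev x → ∑ y, P1 x y ≤ D

open scoped Classical in
/-- indicator of fewer than `m` atypical sites -/
noncomputable def few (at' : Λ → Prop) (m : ℕ) (l : List Λ) : ℝ := if (l.filter fun s => at' s).length < m then 1 else 0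

variable {at' : Λ → Prop}

theorem few_nonneg (m : ℕ) (l : List Λ) : 0 ≤ few at' m l := by
  unfold few
  split_ifs <;> norm_num

theorem few_le_one (m : ℕ) (l : List Λ) : few at' m l ≤ 1 := by
  unfold few
  split_ifs <;> norm_num

theorem few_cons_neg (m : ℕ) {s : Λ} (hs : ¬ at' s) (l : List Λ) : few at' m (s :: l) = few at' m l := by
  classical
  unfold few
  rw [List.filter_cons_of_neg (by simpa using hs)]

theorem few_cons_pos (m : ℕ) {s : Λ} (hs : at' s) (l : List Λ) : few at' (m + 1) (s :: l) = few at' m l := by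
  classical
  unfold few
  rw [List.filter_cons_of_pos (by simpa using hs), List.length_cons]
  simp only [Nat.add_lt_add_iff_right]

theorem few_zero (l : List Λ) : few at' 0 l = 0 := by
  unfold few
  rw [if_neg (by omega)]

theorem wtA_nonneg (h : KerA ev at' P1 P2 ρ D) (x : Option Λ) (l : List Λ) : 0 ≤ wt ev 1 P1 P2 x l := by
  induction l generalizing x with
  | nil => exact zero_le_one
  | cons s l ih =>
    refine mul_nonneg ?_ (ih _)
    unfold FF
    split_ifs
    · refine mul_nonneg zero_le_one ?_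
      cases x <;> cases l.head? <;> simp [fac, h.n1, h.n2]
    · exact le_rfl
    · exact zero_le_one

/-- two steps from the odd site `y` -/
theorem stepA (h : KerA ev at' P1 P2 ρ D) {y : Λ} (hy : ¬ ev y) (T : Finset (List Λ)) (m : ℕ) {B r : ℝ}
    (hB : ∀ t, ¬ ev t → ∑ l ∈ T, few at' m (t :: l) * wt ev 1 P1 P2 (some t) l ≤ B) (hB0 : 0 ≤ B)
    (hr : ∑ x, ∑ y', P2 x y y' ≤ r) :
    ∑ s, ∑ t, ∑ l ∈ T, few at' m (s :: t :: l) * wt ev 1 P1 P2 (some y) (s :: t :: l) ≤ r * B := by
  have h1 : ∀ s t, ∑ l ∈ T, few at' m (s :: t :: l) * wt ev 1 P1 P2 (some y) (s :: t :: l) ≤ P2 s y t * B := by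
    intro s t
    by_cases hs : ev s
    · by_cases ht : ev t
      · have h2 : ∀ l ∈ T, few at' m (s :: t :: l) * wt ev 1 P1 P2 (some y) (s :: t :: l) = 0 := by
          intro l _
          simp [wt, FF_even hs, fac, h.z2 s y t (Or.inr ht)]
        rw [Finset.sum_eq_zero h2, h.z2 s y t (Or.inr ht), zero_mul]
      · have hsa : ¬ at' s := fun h' => h.od s h' hs
        have h2 : ∀ l ∈ T, few at' m (s :: t :: l) * wt ev 1 P1 P2 (some y) (s :: t :: l) ≤
            P2 s y t * (few at' m (t :: l) * wt ev 1 P1 P2 (some t) l) := by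
          intro l _
          rw [few_cons_neg m hsa]
          simp only [wt, List.head?_cons, FF_even hs, fac]
          have h3 := FF_odd_le (c := 1) (P1 := P1) (P2 := P2) ht (some s) l.head?
          have h4 := wtA_nonneg h (some t) l
          have h5 := h.n2 s y t
          have h6 := few_nonneg (at' := at') m (t :: l)
          have h7 : FF ev 1 P1 P2 t (some s) l.head? * wt ev 1 P1 P2 (some t) l ≤ wt ev 1 P1 P2 (some t) l := by
            calc _ ≤ 1 * wt ev 1 P1 P2 (some t) l := mul_le_mul_of_nonneg_right h3 h4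
              _ = _ := one_mul _
          calc _ = P2 s y t * few at' m (t :: l) * (FF ev 1 P1 P2 t (some s) l.head? *
                wt ev 1 P1 P2 (some t) l) := by ring
            _ ≤ P2 s y t * few at' m (t :: l) * wt ev 1 P1 P2 (some t) l :=
                mul_le_mul_of_nonneg_left h7 (mul_nonneg h5 h6)
            _ = _ := by ring
        refine (Finset.sum_le_sum h2).trans ?_
        rw [← Finset.mul_sum]
        exact mul_le_mul_of_nonneg_left (hB t ht) (h.n2 _ _ _)
    · have h2 : ∀ l ∈ T, few at' m (s :: t :: l) * wt ev 1 P1 P2 (some y) (s :: t :: l) = 0 := by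
        intro l _
        rw [wt, FF_odd_zero hs hy, zero_mul, mul_zero]
      rw [Finset.sum_eq_zero h2]
      exact mul_nonneg (h.n2 _ _ _) hB0
  calc _ ≤ ∑ s, ∑ t, P2 s y t * B := Finset.sum_le_sum fun s _ => Finset.sum_le_sum fun t _ => h1 s t
    _ = (∑ s, ∑ t, P2 s y t) * B := by
      rw [Finset.sum_mul]
      refine Finset.sum_congr rfl fun s _ => ?_
      rw [Finset.sum_mul]
    _ ≤ r * B := mul_le_mul_of_nonneg_right hr hB0

/-- paths from the odd site `y` with fewer than `m` atypical sites (`y` counted), `T k` a family of lists -/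
theorem longA (h : KerA ev at' P1 P2 ρ D) (T : ℕ → Finset (List Λ)) (B : ℝ) (hB : 1 ≤ B)
    (hT0 : ∀ y, ¬ ev y → ∑ l ∈ T 0, wt ev 1 P1 P2 (some y) l ≤ B)
    (hT : ∀ k (f : List Λ → ℝ), ∑ l ∈ T (k + 1), f l = ∑ s, ∑ t, ∑ l ∈ T k, f (s :: t :: l))
    (k : ℕ) : ∀ (m : ℕ) (y : Λ), ¬ ev y →
      ∑ l ∈ T k, few at' m (y :: l) * wt ev 1 P1 P2 (some y) l ≤ ρ ^ k * (D / ρ) ^ m * B := by
  have hDρ : 1 ≤ D / ρ := by
    rw [one_le_div h.r0]
    exact h.r1.trans h.d1
  have hB0 : 0 ≤ B := zero_le_one.trans hB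
  induction k with
  | zero =>
    intro m y hy
    have h1 : ∑ l ∈ T 0, few at' m (y :: l) * wt ev 1 P1 P2 (some y) l ≤ B := by
      refine le_trans (Finset.sum_le_sum fun l _ => ?_) (hT0 y hy)
      calc _ ≤ 1 * wt ev 1 P1 P2 (some y) l := mul_le_mul_of_nonneg_right (few_le_one _ _) (wtA_nonneg h _ _)
        _ = _ := one_mul _
    rw [pow_zero, one_mul]
    calc _ ≤ B := h1
      _ = 1 * B := (one_mul _).symm
      _ ≤ _ := mul_le_mul_of_nonneg_right (one_le_pow₀ hDρ) hB0
  | succ k ih =>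
    intro m y hy
    have hp : 0 ≤ ρ ^ k * (D / ρ) ^ m * B :=
      mul_nonneg (mul_nonneg (pow_nonneg h.r0.le _) (pow_nonneg (zero_le_one.trans hDρ) _)) hB0
    rw [hT]
    by_cases ha : at' y
    · rcases m with _ | m
      · rw [Finset.sum_eq_zero fun s _ => Finset.sum_eq_zero fun t _ => Finset.sum_eq_zero fun l _ => by
          rw [few_zero, zero_mul]]
        exact mul_nonneg (mul_nonneg (pow_nonneg h.r0.le _) (pow_nonneg (zero_le_one.trans hDρ) _)) hB0
      · simp_rw [few_cons_pos m ha]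
        refine (stepA h hy (T k) m (fun t ht => ih m t ht) (mul_nonneg (mul_nonneg (pow_nonneg h.r0.le _)
          (pow_nonneg (zero_le_one.trans hDρ) _)) hB0) (h.o2 y hy)).trans (le_of_eq ?_)
        rw [pow_succ, pow_succ]
        have := h.r0.ne'
        field_simp
    · simp_rw [few_cons_neg m ha]
      refine (stepA h hy (T k) m (fun t ht => ih m t ht) hp (h.ty y hy ha)).trans (le_of_eq ?_)
      rw [pow_succ]
      ring

/-- all paths from `p` with `n + 1` steps and fewer than `m` atypical sites -/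
theorem longB (h : KerA ev at' P1 P2 ρ D) (n m : ℕ) (p : Λ) :
    ∑ l ∈ LL Λ (n + 1), few at' m (p :: l) * wt ev 1 P1 P2 none (p :: l) ≤
      D ^ 2 * (ρ ^ (n / 2) * (D / ρ) ^ m) := by
  have hDρ : 1 ≤ D / ρ := by
    rw [one_le_div h.r0]
    exact h.r1.trans h.d1
  have hD0 : 0 ≤ D := zero_le_one.trans h.d1
  have hE : ∀ k y, ¬ ev y → ∑ l ∈ LL Λ (2 * k), few at' m (y :: l) * wt ev 1 P1 P2 (some y) l ≤
      ρ ^ k * (D / ρ) ^ m * 1 := by
    intro k y hy
    refine longA h (fun k => LL Λ (2 * k)) 1 le_rfl (fun y _ => ?_) (fun k f => ?_) k m y hy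
    · simp [LL, wt]
    · rw [show 2 * (k + 1) = 2 * k + 1 + 1 from rfl, sum_LL_succ]
      exact Finset.sum_congr rfl fun s _ => sum_LL_succ _ _
  have hO : ∀ k y, ¬ ev y → ∑ l ∈ LL Λ (2 * k + 1), few at' m (y :: l) * wt ev 1 P1 P2 (some y) l ≤
      ρ ^ k * (D / ρ) ^ m * D := by
    intro k y hy
    refine longA h (fun k => LL Λ (2 * k + 1)) D h.d1 (fun y hy => ?_) (fun k f => ?_) k m y hy
    · rw [sum_LL_succ]
      refine le_trans (Finset.sum_le_sum fun s _ => ?_) (h.o1 y hy)
      simp only [LL, Finset.sum_singleton]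
      by_cases hs : ev s
      · simp [wt, FF_even hs, fac]
      · rw [wt, FF_odd_zero hs hy, zero_mul]
        exact h.n1 _ _
    · rw [show 2 * (k + 1) + 1 = (2 * k + 1) + 1 + 1 from rfl, sum_LL_succ]
      exact Finset.sum_congr rfl fun s _ => sum_LL_succ _ _
  have hq : 0 ≤ (D / ρ) ^ m := pow_nonneg (zero_le_one.trans hDρ) _
  have hD1 : D ≤ D ^ 2 := by nlinarith [h.d1]
  have hD2 : 1 ≤ D ^ 2 := by nlinarith [h.d1]
  by_cases hp : ev p
  · -- even start
    have hst : ∀ (T : Finset (List Λ)) (B : ℝ), 0 ≤ B →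
        (∀ t, ¬ ev t → ∑ l ∈ T, few at' m (t :: l) * wt ev 1 P1 P2 (some t) l ≤ B) →
        ∑ t, ∑ l ∈ T, few at' m (p :: t :: l) * wt ev 1 P1 P2 none (p :: t :: l) ≤ D * B := by
      intro T B hB0 hB
      have hpa : ¬ at' p := fun h' => h.od p h' hp
      have h1 : ∀ t, ∑ l ∈ T, few at' m (p :: t :: l) * wt ev 1 P1 P2 none (p :: t :: l) ≤ P1 p t * B := by
        intro t
        by_cases ht : ev t
        · rw [Finset.sum_eq_zero fun l _ => by
            simp [wt, FF_even hp, fac, h.z1 p t ht], h.z1 p t ht, zero_mul]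
        · refine le_trans (Finset.sum_le_sum fun l _ => ?_) (le_of_eq_of_le (Finset.mul_sum _ _ _).symm
            (mul_le_mul_of_nonneg_left (hB t ht) (h.n1 p t)))
          rw [few_cons_neg m hpa]
          simp only [wt, List.head?_cons, FF_even hp, fac]
          have h3 := FF_odd_le (c := 1) (P1 := P1) (P2 := P2) ht (some p) l.head?
          have h4 := wtA_nonneg h (some t) l
          have h5 := h.n1 p t
          have h6 := few_nonneg (at' := at') m (t :: l)
          have h7 : FF ev 1 P1 P2 t (some p) l.head? * wt ev 1 P1 P2 (some t) l ≤ wt ev 1 P1 P2 (some t) l := by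
            calc _ ≤ 1 * wt ev 1 P1 P2 (some t) l := mul_le_mul_of_nonneg_right h3 h4
              _ = _ := one_mul _
          calc _ = P1 p t * few at' m (t :: l) * (FF ev 1 P1 P2 t (some p) l.head? *
                wt ev 1 P1 P2 (some t) l) := by ring
            _ ≤ P1 p t * few at' m (t :: l) * wt ev 1 P1 P2 (some t) l :=
                mul_le_mul_of_nonneg_left h7 (mul_nonneg h5 h6)
            _ = _ := by ring
      refine (Finset.sum_le_sum fun t _ => h1 t).trans ?_
      rw [← Finset.sum_mul]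
      exact mul_le_mul_of_nonneg_right (h.e1 p hp) hB0
    rw [sum_LL_succ]
    rcases Nat.even_or_odd' n with ⟨k, rfl | rfl⟩
    · have hdiv : 2 * k / 2 = k := by omega
      have hpk : 0 ≤ ρ ^ k := pow_nonneg h.r0.le _
      refine (hst _ _ (mul_nonneg (mul_nonneg hpk hq) zero_le_one) (hE k)).trans ?_
      rw [hdiv, mul_one]
      exact mul_le_mul_of_nonneg_right hD1 (mul_nonneg hpk hq)
    · have hdiv : (2 * k + 1) / 2 = k := by omega
      have hpk : 0 ≤ ρ ^ k := pow_nonneg h.r0.le _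
      refine (hst _ _ (mul_nonneg (mul_nonneg hpk hq) hD0) (hO k)).trans (le_of_eq ?_)
      rw [hdiv]
      ring
  · -- odd start
    have hst : ∀ l : List Λ, few at' m (p :: l) * wt ev 1 P1 P2 none (p :: l) ≤
        few at' m (p :: l) * wt ev 1 P1 P2 (some p) l := by
      intro l
      refine mul_le_mul_of_nonneg_left ?_ (few_nonneg _ _)
      rw [wt]
      calc _ ≤ 1 * wt ev 1 P1 P2 (some p) l :=
            mul_le_mul_of_nonneg_right (FF_odd_le hp _ _) (wtA_nonneg h _ _)
        _ = _ := one_mul _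
    refine (Finset.sum_le_sum fun l _ => hst l).trans ?_
    rcases Nat.even_or_odd' n with ⟨k, rfl | rfl⟩
    · have hdiv : 2 * k / 2 = k := by omega
      have hpk : 0 ≤ ρ ^ k := pow_nonneg h.r0.le _
      refine (hO k p hp).trans ?_
      rw [hdiv, mul_comm]
      exact mul_le_mul_of_nonneg_right hD1 (mul_nonneg hpk hq)
    · have hdiv : (2 * k + 1) / 2 = k := by omega
      have hpk : 0 ≤ ρ ^ k := pow_nonneg h.r0.le _
      have h1 := hE (k + 1) p hp
      rw [show 2 * (k + 1) = 2 * k + 1 + 1 from rfl] at h1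
      refine h1.trans ?_
      rw [hdiv, mul_one, pow_succ]
      calc ρ ^ k * ρ * (D / ρ) ^ m = ρ * (ρ ^ k * (D / ρ) ^ m) := by ring
        _ ≤ D ^ 2 * (ρ ^ k * (D / ρ) ^ m) :=
          mul_le_mul_of_nonneg_right (h.r1.trans hD2) (mul_nonneg hpk hq)

open scoped Classical in
/-- V.2: expected number of the starting points in `P0` of self-avoiding conflict paths with `n + 1` steps and fewer
than `m` atypical sites -/
theorem exp_starts (hS : PKer S ev cf P1 P2) (h : KerA ev at' P1 P2 ρ D) (P0 : Finset Λ) (n m : ℕ) :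
    ∑ p ∈ P0, cnt S (fun ω => ∃ l : List Λ, l.length = n + 1 ∧ (p :: l).Nodup ∧
        (p :: l).IsChain (cfl ev cf ω) ∧ ((p :: l).filter fun s => at' s).length < m) ≤
      P0.card * (D ^ 2 * (ρ ^ (n / 2) * (D / ρ) ^ m)) * cnt S fun _ => True := by
  have hp : ∀ p ∈ P0, cnt S (fun ω => ∃ l : List Λ, l.length = n + 1 ∧ (p :: l).Nodup ∧
        (p :: l).IsChain (cfl ev cf ω) ∧ ((p :: l).filter fun s => at' s).length < m) ≤
      D ^ 2 * (ρ ^ (n / 2) * (D / ρ) ^ m) * cnt S fun _ => True := by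
    intro p _
    set A := (LL Λ (n + 1)).filter fun l => (p :: l).Nodup ∧ ((p :: l).filter fun s => at' s).length < m with hA
    have h1 : cnt S (fun ω => ∃ l : List Λ, l.length = n + 1 ∧ (p :: l).Nodup ∧
        (p :: l).IsChain (cfl ev cf ω) ∧ ((p :: l).filter fun s => at' s).length < m) ≤
        ∑ l ∈ A, cnt S (fun ω => (p :: l).IsChain (cfl ev cf ω)) := by
      have h2 : ∀ B : Finset (List Λ), cnt S (fun ω => ∃ l ∈ B, (p :: l).IsChain (cfl ev cf ω)) ≤
          ∑ l ∈ B, cnt S (fun ω => (p :: l).IsChain (cfl ev cf ω)) := by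
        intro B
        induction B using Finset.induction_on with
        | empty =>
          rw [Finset.sum_empty]
          have : cnt S (fun ω => ∃ l ∈ (∅ : Finset (List Λ)), (p :: l).IsChain (cfl ev cf ω)) ≤
              cnt S (fun _ : Λ → α => False) := cnt_mono fun ω _ h => by
            obtain ⟨l, hl, _⟩ := h
            simp at hl
          refine this.trans ?_
          unfold cnt
          simp
        | insert a B ha ih =>
          rw [Finset.sum_insert ha]
          have h3 := cnt_split S (fun ω => (p :: a).IsChain (cfl ev cf ω))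
            (fun ω => ∃ l ∈ insert a B, (p :: l).IsChain (cfl ev cf ω))
          have h4 : cnt S (fun ω => (p :: a).IsChain (cfl ev cf ω) ∧
              ∃ l ∈ insert a B, (p :: l).IsChain (cfl ev cf ω)) ≤
              cnt S (fun ω => (p :: a).IsChain (cfl ev cf ω)) := cnt_mono fun ω _ h => h.1
          have h5 : cnt S (fun ω => ¬ (p :: a).IsChain (cfl ev cf ω) ∧
              ∃ l ∈ insert a B, (p :: l).IsChain (cfl ev cf ω)) ≤
              cnt S (fun ω => ∃ l ∈ B, (p :: l).IsChain (cfl ev cf ω)) := cnt_mono fun ω _ h => by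
            obtain ⟨h6, l, hl, h7⟩ := h
            rcases Finset.mem_insert.1 hl with rfl | hl
            · exact absurd h7 h6
            · exact ⟨l, hl, h7⟩
          linarith
      refine (cnt_mono fun ω _ h => ?_).trans (h2 A)
      obtain ⟨l, hl1, hl2, hl3, hl4⟩ := h
      exact ⟨l, Finset.mem_filter.2 ⟨(mem_LL _ _).2 hl1, hl2, hl4⟩, hl3⟩
    refine h1.trans ?_
    have htop : 0 ≤ cnt S fun _ : Λ → α => True := cnt_nonneg _ _
    calc ∑ l ∈ A, cnt S (fun ω => (p :: l).IsChain (cfl ev cf ω))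
        ≤ ∑ l ∈ A, few at' m (p :: l) * wt ev 1 P1 P2 none (p :: l) * cnt S fun _ => True := by
          refine Finset.sum_le_sum fun l hl => ?_
          have hl' := (Finset.mem_filter.1 hl).2
          have h3 : few at' m (p :: l) = 1 := by
            unfold few
            rw [if_pos hl'.2]
          rw [h3, one_mul]
          exact chain_le hS h.n1 h.n2 _ hl'.1
      _ ≤ ∑ l ∈ LL Λ (n + 1), few at' m (p :: l) * wt ev 1 P1 P2 none (p :: l) * cnt S fun _ => True :=
          Finset.sum_le_sum_of_subset_of_nonneg (Finset.filter_subset _ _) fun l _ _ =>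
            mul_nonneg (mul_nonneg (few_nonneg _ _) (wtA_nonneg h _ _)) htop
      _ = (∑ l ∈ LL Λ (n + 1), few at' m (p :: l) * wt ev 1 P1 P2 none (p :: l)) * cnt S fun _ => True := by
          rw [Finset.sum_mul]
      _ ≤ _ := mul_le_mul_of_nonneg_right (longB h n m p) htop
  refine (Finset.sum_le_sum hp).trans (le_of_eq ?_)
  rw [Finset.sum_const, nsmul_eq_mul]
  ring

end long

end Pool.Agent.LC

end
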