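import Pool.Agent.Lib_MP_2c424f_m.M01

/-!
# MP_2c424f_pr, q_c grows linearly: merged library part M04

Concatenation of smaller files (each in its own section), only to save build time.
-/

namespace Pool.Agent.LO
end Pool.Agent.LO

namespace Pool.Agent.LIN
end Pool.Agent.LIN

namespace Pool.Agent.THR
end Pool.Agent.THR

namespace Pool.Agent.COR
end Pool.Agent.COR

namespace Pool.Agent.LC
end Pool.Agent.LC

/-! ### from `Lib_MP_2c424f_lo.Prob` -/

section

/-!
# The uniform random set `R` (piece PROB)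
-/

set_option autoImplicit false

open Finset

namespace Pool.Agent.LO

variable {d k q : ℕ}

theorem ER_add (F G : Finset (Site d k) → ℝ) : ER (fun R => F R + G R) = ER F + ER G := by
  simp only [ER, Finset.sum_add_distrib, add_div]

theorem ER_mul (c : ℝ) (F : Finset (Site d k) → ℝ) : ER (fun R => c * F R) = c * ER F := by
  simp only [ER, ← Finset.mul_sum, mul_div_assoc]

theorem ER_sum {ι : Type*} (A : Finset ι) (F : ι → Finset (Site d k) → ℝ) :
    ER (fun R => ∑ x ∈ A, F x R) = ∑ x ∈ A, ER (F x) := by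
  simp only [ER]
  rw [Finset.sum_comm, Finset.sum_div]

theorem ER_const (c : ℝ) : ER (fun _ : Finset (Site d k) => c) = c := by
  simp only [ER]
  rw [Finset.sum_const, Finset.card_univ, Fintype.card_finset, nsmul_eq_mul]
  push_cast
  have : (0 : ℝ) < 2 ^ Fintype.card (Site d k) := by positivity
  field_simp

theorem ER_mono {F G : Finset (Site d k) → ℝ} (h : ∀ R, F R ≤ G R) : ER F ≤ ER G := by
  simp only [ER]
  exact div_le_div_of_nonneg_right (Finset.sum_le_sum fun R _ => h R) (by positivity)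

open scoped Classical in
/-- a sum over the sites outside `R` as a sum over all sites -/
theorem sum_notin (A R : Finset (Site d k)) (φ : Site d k → ℝ) :
    ∑ u ∈ A.filter (fun u => u ∉ R), φ u = ∑ u ∈ A, if u ∉ R then φ u else 0 := by
  rw [Finset.sum_filter]

open scoped Classical in
/-- probability to avoid a set -/
theorem ER_disj (A : Finset (Site d k)) :
    ER (fun R => if Disjoint A R then (1 : ℝ) else 0) = (1 / 2 : ℝ) ^ A.card := by
  simp only [ER]
  rw [Finset.sum_boole]
  have h1 : (univ.filter fun R : Finset (Site d k) => Disjoint A R) = Aᶜ.powerset := by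
    ext R
    simp only [Finset.mem_filter, Finset.mem_univ, true_and, Finset.mem_powerset]
    rw [disjoint_comm]
    exact (Finset.subset_compl_iff_disjoint_right).symm
  rw [h1, Finset.card_powerset, Finset.card_compl]
  have h2 : A.card ≤ Fintype.card (Site d k) := Finset.card_le_univ A
  push_cast
  rw [pow_sub₀ _ (by norm_num) h2]
  have : (0 : ℝ) < 2 ^ Fintype.card (Site d k) := by positivity
  field_simp
  rw [← mul_pow]
  norm_num

open scoped Classical in
theorem ER_notin (u : Site d k) : ER (fun R => if u ∉ R then (1 : ℝ) else 0) = 1 / 2 := by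
  have h := ER_disj (d := d) (k := k) {u}
  rw [Finset.card_singleton, pow_one] at h
  rw [← h]
  congr 1
  ext R
  simp only [Finset.disjoint_singleton_left]

open scoped Classical in
theorem ER_in (u : Site d k) : ER (fun R => if u ∈ R then (1 : ℝ) else 0) = 1 / 2 := by
  have h := ER_add (fun R : Finset (Site d k) => if u ∈ R then (1 : ℝ) else 0)
    (fun R => if u ∉ R then (1 : ℝ) else 0)
  have h2 : (fun R : Finset (Site d k) => (if u ∈ R then (1 : ℝ) else 0)
      + (if u ∉ R then (1 : ℝ) else 0)) = fun _ => 1 := by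
    ext R
    by_cases hu : u ∈ R <;> simp [hu]
  rw [h2, ER_const, ER_notin] at h
  linarith

/-- the neighbours of `v` with colour `c` -/
private noncomputable def probA (f : Site d k → Fin q) (v : Site d k) (c : Fin q) :
    Finset (Site d k) :=
  (univ.filter fun σ : Stp d => f (v + sv σ) = c).image fun σ => v + sv σ

private theorem probA_card (hk : 2 ≤ k) (f : Site d k → Fin q) (v : Site d k) (c : Fin q) :
    (probA f v c).card = yy f v c := by
  unfold probA yy
  apply Finset.card_image_of_injective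
  intro a b h
  exact sv_inj hk (add_left_cancel h)

private theorem probA_mem (f : Site d k → Fin q) (v : Site d k) (c : Fin q) (σ : Stp d)
    (h : f (v + sv σ) = c) : v + sv σ ∈ probA f v c := by
  unfold probA
  exact Finset.mem_image_of_mem _ (by simp [h])

open scoped Classical in
private theorem UU_eq (f : Site d k → Fin q) (R : Finset (Site d k)) (v : Site d k) (c : Fin q) :
    UU f R v c = if Disjoint (probA f v c) R then 1 else 0 := by
  unfold UU
  have h : (∃ σ : Stp d, v + sv σ ∈ R ∧ f (v + sv σ) = c) ↔ ¬ Disjoint (probA f v c) R := by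
    rw [Finset.not_disjoint_iff]
    constructor
    · rintro ⟨σ, h1, h2⟩
      exact ⟨_, probA_mem f v c σ h2, h1⟩
    · rintro ⟨x, h1, h2⟩
      unfold probA at h1
      rw [Finset.mem_image] at h1
      obtain ⟨σ, h3, rfl⟩ := h1
      exact ⟨σ, h2, (Finset.mem_filter.mp h3).2⟩
  by_cases hd : Disjoint (probA f v c) R
  · rw [if_neg (by rw [h]; exact not_not.mpr hd), if_pos hd]
  · rw [if_pos (h.mpr hd), if_neg hd]

/-- `UU` as an avoidance event -/
theorem ER_UU (hk : 2 ≤ k) (f : Site d k → Fin q) (v : Site d k) (c : Fin q) :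
    ER (fun R => UU f R v c) = (1 / 2 : ℝ) ^ yy f v c := by
  classical
  simp only [UU_eq]
  rw [ER_disj, probA_card hk]

open scoped Classical in
/-- if `u` is a neighbour of `v` with the colour `c` then `UU = 1` forces `u ∉ R` -/
theorem ER_UU_own (hk : 2 ≤ k) (f : Site d k → Fin q) (u : Site d k) (σ : Stp d) :
    ER (fun R => if u ∉ R then UU f R (u + sv σ) (f u) else 0) = (1 / 2 : ℝ) ^ yy f (u + sv σ) (f u) := by
  rw [← ER_UU hk]
  congr 1
  ext R
  by_cases hu : u ∈ R
  · rw [if_neg (not_not.mpr hu)]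
    unfold UU
    rw [if_pos]
    have h : u + sv σ + sv (σ.1, !σ.2) = u := by
      rw [add_assoc, sv_opp, add_zero]
    exact ⟨(σ.1, !σ.2), by rw [h]; exact hu, by rw [h]⟩
  · rw [if_pos hu]

open scoped Classical in
/-- joint avoidance, lower bound -/
theorem ER_UU_ge (hk : 2 ≤ k) (f : Site d k → Fin q) (u v : Site d k) (c : Fin q) :
    1 / 2 * (1 / 2 : ℝ) ^ yy f v c ≤ ER (fun R => if u ∉ R then UU f R v c else 0) := by
  have h : (fun R : Finset (Site d k) => if u ∉ R then UU f R v c else 0) =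
      fun R => if Disjoint (insert u (probA f v c)) R then (1 : ℝ) else 0 := by
    ext R
    rw [UU_eq]
    by_cases hu : u ∈ R
    · rw [if_neg (not_not.mpr hu), if_neg]
      rw [Finset.disjoint_insert_left]
      exact fun h => h.1 hu
    · rw [if_pos hu]
      simp only [Finset.disjoint_insert_left, hu, not_false_eq_true, true_and]
  rw [h, ER_disj, ← probA_card hk f v c, ← pow_succ']
  exact pow_le_pow_of_le_one (by norm_num) (by norm_num) (Finset.card_insert_le _ _)

private theorem nn_sub_mm (f : Site d k → Fin q) (R : Finset (Site d k)) (u : Site d k)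
    (c : Fin q) : nn f R u c - mm f u c =
      ∑ σ : Stp d, (UU f R (u + sv σ) c - zz f (u + sv σ) c) / (2 * d) := by
  unfold nn mm
  rw [← sub_div, ← Finset.sum_sub_distrib, Finset.sum_div]

open scoped Classical in
private theorem ER_diff_ge (hk : 2 ≤ k) (f : Site d k → Fin q) (u v : Site d k) (c : Fin q) :
    1 / 2 * (if yy f v c = 0 then 0 else (1 / 2 : ℝ) ^ yy f v c) ≤
      ER (fun R => if u ∉ R then (UU f R v c - zz f v c) else 0) := by
  by_cases h0 : yy f v c = 0
  · rw [if_pos h0, mul_zero]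
    have h1 : (0 : ℝ) = ER (fun _ : Finset (Site d k) => (0 : ℝ)) := (ER_const 0).symm
    refine le_of_eq_of_le h1 (ER_mono fun R => ?_)
    by_cases hu : u ∉ R
    · rw [if_pos hu]
      have := zz_le_UU f R v c
      linarith
    · rw [if_neg hu]
  · rw [if_neg h0]
    have hz : zz f v c = 0 := by
      unfold zz
      rw [if_pos ((mem_SS f v c).mpr h0)]
    rw [hz]
    simp only [sub_zero]
    exact ER_UU_ge hk f u v c

open scoped Classical in
private theorem G2_eq (f : Site d k → Fin q) :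
    G2 f = ∑ u ∈ evs d k, ∑ c, ∑ σ : Stp d,
      ER (fun R => if u ∉ R then (UU f R (u + sv σ) c - zz f (u + sv σ) c) else 0) / (2 * d) := by
  have h : (fun R : Finset (Site d k) => ∑ u ∈ (evs d k).filter (fun u => u ∉ R), ∑ c,
      (nn f R u c - mm f u c)) = fun R => ∑ u ∈ evs d k, ∑ c, ∑ σ : Stp d,
      1 / (2 * (d : ℝ)) * (if u ∉ R then (UU f R (u + sv σ) c - zz f (u + sv σ) c) else 0) := by
    ext R
    rw [sum_notin]
    refine Finset.sum_congr rfl fun u _ => ?_
    by_cases hu : u ∉ R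
    · simp only [hu, not_false_eq_true, if_true]
      refine Finset.sum_congr rfl fun c _ => ?_
      rw [nn_sub_mm]
      refine Finset.sum_congr rfl fun σ _ => ?_
      ring
    · simp only [hu, if_false, mul_zero, Finset.sum_const_zero]
  unfold G2
  rw [h, ER_sum]
  refine Finset.sum_congr rfl fun u _ => ?_
  rw [ER_sum]
  refine Finset.sum_congr rfl fun c _ => ?_
  rw [ER_sum]
  refine Finset.sum_congr rfl fun σ _ => ?_
  rw [ER_mul]
  ring

/-- `G2 ≥ Q / 2` -/
theorem G2_ge (hd : 1 ≤ d) (hk : 2 ≤ k) (f : Site d k → Fin q) : (∑ c, QQ f c) / 2 ≤ G2 f := by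
  classical
  rw [G2_eq]
  have hd' : (0 : ℝ) < 2 * d := by
    have : (1 : ℝ) ≤ d := by exact_mod_cast hd
    linarith
  have h1 : ∀ c, QQ f c = ∑ u ∈ evs d k, ∑ σ : Stp d,
      (if yy f (u + sv σ) c = 0 then 0 else (1 / 2 : ℝ) ^ yy f (u + sv σ) c) / (2 * d) := by
    intro c
    have h := sum_nbr (d := d) (k := k) (by omega) (fun _ v =>
      (if yy f v c = 0 then 0 else (1 / 2 : ℝ) ^ yy f v c) / (2 * d))
    rw [h]
    unfold QQ
    refine Finset.sum_congr rfl fun v _ => ?_
    rw [Finset.sum_const, Finset.card_univ, Fintype.card_prod, Fintype.card_fin,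
      Fintype.card_bool, nsmul_eq_mul]
    push_cast
    field_simp
  simp only [h1]
  rw [Finset.sum_div, Finset.sum_comm' (s := evs d k) (t := fun _ => univ) (t' := univ)
    (s' := fun _ => evs d k) (by simp)]
  refine Finset.sum_le_sum fun c _ => ?_
  rw [Finset.sum_div]
  refine Finset.sum_le_sum fun u _ => ?_
  rw [Finset.sum_div]
  refine Finset.sum_le_sum fun σ _ => ?_
  have h := ER_diff_ge hk f u (u + sv σ) c
  calc _ = (1 / 2 * (if yy f (u + sv σ) c = 0 then 0 else (1 / 2 : ℝ) ^ yy f (u + sv σ) c))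
        / (2 * d) := by ring
    _ ≤ _ := div_le_div_of_nonneg_right h hd'.le

/-- `G1 + G2 ≥ I / 2`, from `m (1 - m) ≤ n (1 - n) + (n - m)` -/
theorem G12_ge (f : Site d k → Fin q) : (∑ c, II f c) / 2 ≤ G1 f + G2 f := by
  classical
  unfold G1 G2
  rw [← ER_add]
  have h1 : (∑ c, II f c) / 2 = ER (fun R => ∑ u ∈ (evs d k).filter (fun u => u ∉ R),
      ∑ c, mm f u c * (1 - mm f u c)) := by
    simp only [sum_notin]
    rw [ER_sum]
    unfold II
    rw [Finset.sum_comm, Finset.sum_div]
    refine Finset.sum_congr rfl fun u _ => ?_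
    have h2 : (fun R : Finset (Site d k) => if u ∉ R then ∑ c, mm f u c * (1 - mm f u c) else 0) =
        fun R => (∑ c, mm f u c * (1 - mm f u c)) * (if u ∉ R then 1 else 0) := by
      ext R
      by_cases hu : u ∉ R <;> simp [hu]
    rw [h2, ER_mul, ER_notin]
    ring
  rw [h1]
  apply ER_mono
  intro R
  rw [← Finset.sum_add_distrib]
  refine Finset.sum_le_sum fun u _ => ?_
  rw [← Finset.sum_add_distrib]
  refine Finset.sum_le_sum fun c _ => ?_
  have h2 := mm_le_nn f R u c
  have h3 := nn_le_one f R u c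
  nlinarith

theorem G1_nonneg (f : Site d k → Fin q) : 0 ≤ G1 f := by
  classical
  have h1 : (0 : ℝ) = ER (fun _ : Finset (Site d k) => (0 : ℝ)) := (ER_const 0).symm
  rw [h1]
  unfold G1
  apply ER_mono
  intro R
  refine Finset.sum_nonneg fun u _ => Finset.sum_nonneg fun c _ => ?_
  exact mul_nonneg (nn_nonneg f R u c) (by have := nn_le_one f R u c; linarith)

theorem G2_nonneg (f : Site d k → Fin q) : 0 ≤ G2 f := by
  classical
  have h1 : (0 : ℝ) = ER (fun _ : Finset (Site d k) => (0 : ℝ)) := (ER_const 0).symm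
  rw [h1]
  unfold G2
  apply ER_mono
  intro R
  refine Finset.sum_nonneg fun u _ => Finset.sum_nonneg fun c _ => ?_
  have := mm_le_nn f R u c
  linarith

end Pool.Agent.LO

end

/-! ### from `Lib_MP_2c424f_lo.KSm` -/

section

/-!
# Violations, linear part (piece KSM)

`E ∑_{u ∉ R} n_u^{f u} = (1/2d) ∑_{v odd} ∑_c y 2^{-y}`.
-/

set_option autoImplicit false

open Finset

namespace Pool.Agent.LO

variable {d k q : ℕ}

/-- grouping the neighbours of `v` by their colour -/
private theorem ksm_group (f : Site d k → Fin q) (v : Site d k) (g : ℕ → ℝ) :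
    ∑ σ : Stp d, g (yy f v (f (v + sv σ))) = ∑ c, (yy f v c : ℝ) * g (yy f v c) := by
  classical
  rw [← Finset.sum_fiberwise (s := (univ : Finset (Stp d))) (g := fun σ => f (v + sv σ))
    (f := fun σ => g (yy f v (f (v + sv σ))))]
  refine Finset.sum_congr rfl fun c _ => ?_
  have h : ∀ σ ∈ (univ : Finset (Stp d)).filter (fun σ => f (v + sv σ) = c),
      g (yy f v (f (v + sv σ))) = g (yy f v c) := by
    intro σ hσ
    rw [(Finset.mem_filter.1 hσ).2]
  rw [Finset.sum_congr rfl h, Finset.sum_const, nsmul_eq_mul]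
  rfl

private theorem ksm_sum (hk : 2 ≤ k) (f : Site d k → Fin q) (g : ℕ → ℝ) :
    ∑ u ∈ evs d k, ∑ σ : Stp d, g (yy f (u + sv σ) (f u)) =
      ∑ v ∈ ods d k, ∑ c, (yy f v c : ℝ) * g (yy f v c) := by
  rw [sum_nbr (by omega) (fun u v => g (yy f v (f u)))]
  exact Finset.sum_congr rfl fun v _ => ksm_group f v g

private theorem ksm_QQ (f : Site d k → Fin q) :
    ∑ c, QQ f c = ∑ v ∈ ods d k, ∑ c, (if yy f v c = 0 then 0 else (1 / 2 : ℝ) ^ yy f v c) := by
  unfold QQ
  rw [Finset.sum_comm]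

private theorem ksm_card (f : Site d k → Fin q) (v : Site d k) :
    ∑ c, (yy f v c : ℝ) = 2 * d := by
  have h := ksm_group f v (fun _ => (1 : ℝ))
  simp only [mul_one, Finset.sum_const, Finset.card_univ, nsmul_eq_mul, Fintype.card_prod,
    Fintype.card_fin, Fintype.card_bool, Nat.cast_mul, Nat.cast_ofNat] at h
  linarith

/-- the small colour classes, used by Markov's inequality -/
theorem sum_small (hd : 1 ≤ d) (hk : 2 ≤ k) (f : Site d k → Fin q) (Y : ℕ) :
    ∑ u ∈ evs d k, ∑ σ : Stp d,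
      (if yy f (u + sv σ) (f u) ≤ Y then (1 / 2 : ℝ) ^ yy f (u + sv σ) (f u) else 0) ≤
      Y * ∑ c, QQ f c := by
  rw [ksm_sum hk f (fun n => if n ≤ Y then (1 / 2 : ℝ) ^ n else 0), ksm_QQ, Finset.mul_sum]
  refine Finset.sum_le_sum fun v _ => ?_
  rw [Finset.mul_sum]
  refine Finset.sum_le_sum fun c _ => ?_
  by_cases h0 : yy f v c = 0
  · simp [h0]
  · rw [if_neg h0]
    by_cases hY : yy f v c ≤ Y
    · rw [if_pos hY]
      have : (yy f v c : ℝ) ≤ Y := by exact_mod_cast hY
      exact mul_le_mul_of_nonneg_right this (by positivity)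
    · rw [if_neg hY, mul_zero]
      positivity

open scoped Classical in
theorem EK_lin (hd : 1 ≤ d) (hk : 2 ≤ k) (f : Site d k → Fin q) (Y : ℕ) :
    ER (fun R => ∑ u ∈ (evs d k).filter (fun u => u ∉ R), nn f R u (f u)) ≤
      Y / (2 * d) * ∑ c, QQ f c + NN d k / 2 * (1 / 2) ^ Y := by
  have hd0 : (0 : ℝ) < 2 * d := by
    have : (1 : ℝ) ≤ d := by exact_mod_cast hd
    linarith
  have h1 : ER (fun R => ∑ u ∈ (evs d k).filter (fun u => u ∉ R), nn f R u (f u)) =
      1 / (2 * d) * ∑ v ∈ ods d k, ∑ c, (yy f v c : ℝ) * (1 / 2 : ℝ) ^ yy f v c := by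
    rw [← ksm_sum hk f (fun n => (1 / 2 : ℝ) ^ n), Finset.mul_sum]
    have e1 : (fun R : Finset (Site d k) =>
        ∑ u ∈ (evs d k).filter (fun u => u ∉ R), nn f R u (f u)) =
        fun R => ∑ u ∈ evs d k, 1 / (2 * d) *
          ∑ σ : Stp d, (if u ∉ R then UU f R (u + sv σ) (f u) else 0) := by
      funext R
      rw [sum_notin (evs d k) R (fun u => nn f R u (f u))]
      refine Finset.sum_congr rfl fun u _ => ?_
      by_cases hu : u ∉ R
      · simp only [if_pos hu]
        unfold nn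
        rw [one_div, inv_mul_eq_div]
      · simp only [if_neg hu, Finset.sum_const_zero, mul_zero]
    rw [e1, ER_sum (evs d k)]
    refine Finset.sum_congr rfl fun u _ => ?_
    rw [ER_mul, ER_sum]
    congr 1
    exact Finset.sum_congr rfl fun σ _ => ER_UU_own hk f u σ
  have h2 : ∑ v ∈ ods d k, ∑ c, (yy f v c : ℝ) * (1 / 2 : ℝ) ^ yy f v c ≤
      Y * ∑ c, QQ f c + NN d k / 2 * (2 * d * (1 / 2) ^ Y) := by
    rw [ksm_QQ, ← card_ods hd (show 1 ≤ k by omega), Finset.mul_sum, ← nsmul_eq_mul,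
      ← Finset.sum_const, ← Finset.sum_add_distrib]
    refine Finset.sum_le_sum fun v _ => ?_
    rw [← ksm_card f v, Finset.mul_sum, Finset.sum_mul, ← Finset.sum_add_distrib]
    refine Finset.sum_le_sum fun c _ => ?_
    by_cases h0 : yy f v c = 0
    · simp [h0]
    · rw [if_neg h0]
      by_cases hY : yy f v c ≤ Y
      · have h3 : (yy f v c : ℝ) ≤ Y := by exact_mod_cast hY
        have h4 := mul_le_mul_of_nonneg_right h3 (show (0 : ℝ) ≤ (1 / 2 : ℝ) ^ yy f v c by positivity)
        have h5 : (0 : ℝ) ≤ (yy f v c : ℝ) * (1 / 2) ^ Y := by positivity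
        linarith
      · have h3 : (1 / 2 : ℝ) ^ yy f v c ≤ (1 / 2) ^ Y :=
          pow_le_pow_of_le_one (by norm_num) (by norm_num) (by omega)
        have h4 := mul_le_mul_of_nonneg_left h3 (show (0 : ℝ) ≤ (yy f v c : ℝ) by positivity)
        have h5 : (0 : ℝ) ≤ (Y : ℝ) * (1 / 2) ^ yy f v c := by positivity
        linarith
  rw [h1]
  calc 1 / (2 * (d : ℝ)) * ∑ v ∈ ods d k, ∑ c, (yy f v c : ℝ) * (1 / 2 : ℝ) ^ yy f v c
      ≤ 1 / (2 * (d : ℝ)) * (Y * ∑ c, QQ f c + NN d k / 2 * (2 * d * (1 / 2) ^ Y)) :=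
        mul_le_mul_of_nonneg_left h2 (by positivity)
    _ = Y / (2 * d) * ∑ c, QQ f c + NN d k / 2 * (1 / 2) ^ Y := by
        field_simp

end Pool.Agent.LO

end

/-! ### from `Lib_MP_2c424f_lo.KBg` -/

section

/-!
# Violations, large part (piece KBG)

If `n_u^{f u} > 1/2` then more than `d` of the `v = u + sv σ` have `UU f R v (f u) = 1`.  Either at
least `d/2` of them have `yy ≤ 16` (Markov, `sum_small`), or at least `d/2` have `yy ≥ 17`: union bound
over the set `W` of these steps (at most `2^(2d)`), all sites `v + sv τ` of colour `f u`, `v` in `W`,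
avoid `R`; these are at least `4 d` sites, because (`two_steps`) every site other than `u` is counted at
most twice.
-/

set_option autoImplicit false

open Finset

namespace Pool.Agent.LO

variable {d k q : ℕ}

private theorem KBg_UU_one (f : Site d k → Fin q) (R : Finset (Site d k)) (v : Site d k) (c : Fin q)
    (h : UU f R v c = 1) : ∀ σ : Stp d, f (v + sv σ) = c → v + sv σ ∉ R := by
  intro σ hσ hR
  unfold UU at h
  rw [if_pos ⟨σ, hR, hσ⟩] at h
  exact zero_ne_one h

private theorem KBg_UU_cases (f : Site d k → Fin q) (R : Finset (Site d k)) (v : Site d k)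
    (c : Fin q) : UU f R v c = 0 ∨ UU f R v c = 1 := by
  unfold UU
  split_ifs
  · left; rfl
  · right; rfl

open scoped Classical in
/-- pairs of steps which lead from `u` to another site of the colour `c` -/
private noncomputable def KBg_pairs (f : Site d k → Fin q) (u : Site d k) (c : Fin q)
    (W : Finset (Stp d)) : Finset (Stp d × Stp d) :=
  (W ×ˢ univ).filter fun p => f (u + sv p.1 + sv p.2) = c ∧ (sv p.1 : Site d k) + sv p.2 ≠ 0

open scoped Classical in
private noncomputable def KBg_img (f : Site d k → Fin q) (u : Site d k) (c : Fin q)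
    (W : Finset (Stp d)) : Finset (Site d k) :=
  (KBg_pairs f u c W).image fun p => u + sv p.1 + sv p.2

private theorem KBg_card_pairs (hk : 3 ≤ k) (f : Site d k → Fin q) (u : Site d k) (c : Fin q)
    (W : Finset (Stp d)) (hW : ∀ σ ∈ W, 17 ≤ yy f (u + sv σ) c) :
    16 * W.card ≤ (KBg_pairs f u c W).card := by
  classical
  have h1 : (KBg_pairs f u c W).card = ∑ σ ∈ W, ((KBg_pairs f u c W).filter
      fun p => p.1 = σ).card := by
    apply card_eq_sum_card_fiberwise
    intro p hp
    unfold KBg_pairs at hp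
    have hp' := (mem_filter.mp (mem_coe.mp hp)).1
    exact mem_coe.mpr (mem_product.mp hp').1
  rw [h1, mul_comm, ← smul_eq_mul, ← sum_const]
  apply sum_le_sum
  intro σ hσ
  have h2 := hW σ hσ
  set Y := univ.filter (fun τ : Stp d => f (u + sv σ + sv τ) = c) with hY
  have hYc : 17 ≤ Y.card := h2
  set Z := univ.filter (fun τ : Stp d => (sv σ : Site d k) + sv τ = 0) with hZ
  have hZc : Z.card ≤ 1 := by
    rw [card_le_one]
    intro a ha b hb
    have ha' : (sv σ : Site d k) + sv a = 0 := (mem_filter.mp ha).2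
    have hb' : (sv σ : Site d k) + sv b = 0 := (mem_filter.mp hb).2
    exact sv_inj (d := d) (k := k) (by omega) (add_left_cancel (ha'.trans hb'.symm))
  have h3 : 16 ≤ (Y \ Z).card := by
    have := le_card_sdiff Z Y
    omega
  refine h3.trans ?_
  apply card_le_card_of_injOn (fun τ => (σ, τ))
  · intro τ hτ
    have hτ' := mem_sdiff.mp (mem_coe.mp hτ)
    have hτ1 : f (u + sv σ + sv τ) = c := (mem_filter.mp hτ'.1).2
    have hτ2 : (sv σ : Site d k) + sv τ ≠ 0 := fun hc =>
      hτ'.2 (mem_filter.mpr ⟨mem_univ _, hc⟩)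
    apply mem_coe.mpr
    apply mem_filter.mpr
    refine ⟨?_, rfl⟩
    unfold KBg_pairs
    exact mem_filter.mpr ⟨mem_product.mpr ⟨hσ, mem_univ _⟩, hτ1, hτ2⟩
  · intro a _ b _ hab
    exact (Prod.mk.inj hab).2

private theorem KBg_card_img (hk : 3 ≤ k) (f : Site d k → Fin q) (u : Site d k) (c : Fin q)
    (W : Finset (Stp d)) (hW : ∀ σ ∈ W, 17 ≤ yy f (u + sv σ) c) :
    8 * W.card ≤ (KBg_img f u c W).card := by
  classical
  have h1 := KBg_card_pairs hk f u c W hW
  have h2 : (KBg_pairs f u c W).card ≤ 2 * (KBg_img f u c W).card := by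
    unfold KBg_img
    apply card_le_mul_card_image
    intro a ha
    obtain ⟨p, hp, hpa⟩ := mem_image.mp ha
    unfold KBg_pairs at hp
    have hp' := (mem_filter.mp hp).2
    have hne : a - u ≠ 0 := by
      intro hc
      apply hp'.2
      rw [← hc, ← hpa]
      abel
    refine le_trans (card_le_card ?_) (two_steps hk (a - u) hne)
    intro r hr
    have hr' := (mem_filter.mp hr).2
    apply mem_filter.mpr
    refine ⟨mem_univ _, ?_⟩
    rw [← hr']
    abel
  omega

private theorem KBg_disj (f : Site d k → Fin q) (u : Site d k) (c : Fin q)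
    (W : Finset (Stp d)) (R : Finset (Site d k)) (hW : ∀ σ ∈ W, UU f R (u + sv σ) c = 1) :
    Disjoint (KBg_img f u c W) R := by
  classical
  rw [Finset.disjoint_left]
  intro a ha
  unfold KBg_img at ha
  obtain ⟨p, hp, rfl⟩ := mem_image.mp ha
  unfold KBg_pairs at hp
  have hp' := mem_filter.mp hp
  exact KBg_UU_one f R (u + sv p.1) c (hW p.1 (mem_product.mp hp'.1).1) p.2 hp'.2.1

open scoped Classical in
/-- the union bound for one vertex -/
theorem EK_big_one (hd : 2 ≤ d) (hk : 3 ≤ k) (f : Site d k → Fin q) (u : Site d k) :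
    ER (fun R => if (d : ℝ) / 2 ≤ ((univ.filter fun σ : Stp d =>
        17 ≤ yy f (u + sv σ) (f u) ∧ UU f R (u + sv σ) (f u) = 1).card : ℝ) then (1 : ℝ) else 0) ≤
      (1 / 4) ^ d := by
  set V : Finset (Finset (Stp d)) := univ.filter fun W : Finset (Stp d) =>
    (d : ℝ) / 2 ≤ (W.card : ℝ) ∧ ∀ σ ∈ W, 17 ≤ yy f (u + sv σ) (f u) with hV
  have h1 : ER (fun R => if (d : ℝ) / 2 ≤ ((univ.filter fun σ : Stp d =>
        17 ≤ yy f (u + sv σ) (f u) ∧ UU f R (u + sv σ) (f u) = 1).card : ℝ) then (1 : ℝ) else 0) ≤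
      ER (fun R => ∑ W ∈ V, if Disjoint (KBg_img f u (f u) W) R then (1 : ℝ) else 0) := by
    apply ER_mono
    intro R
    have hnn : ∀ W ∈ V, (0 : ℝ) ≤ if Disjoint (KBg_img f u (f u) W) R then (1 : ℝ) else 0 := by
      intro W _
      split_ifs <;> norm_num
    split_ifs with h
    · set W := univ.filter fun σ : Stp d =>
        17 ≤ yy f (u + sv σ) (f u) ∧ UU f R (u + sv σ) (f u) = 1 with hWd
      have hWV : W ∈ V := by
        rw [hV]
        exact mem_filter.mpr ⟨mem_univ _, h, fun σ hσ => (mem_filter.mp hσ).2.1⟩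
      have hd1 : Disjoint (KBg_img f u (f u) W) R :=
        KBg_disj f u (f u) W R (fun σ hσ => (mem_filter.mp hσ).2.2)
      have h2 := single_le_sum hnn hWV
      rw [if_pos hd1] at h2
      exact h2
    · exact sum_nonneg hnn
  refine h1.trans ?_
  rw [ER_sum]
  have h2 : ∀ W ∈ V, ER (fun R => if Disjoint (KBg_img f u (f u) W) R then (1 : ℝ) else 0) ≤
      (1 / 2 : ℝ) ^ (4 * d) := by
    intro W hW
    rw [ER_disj]
    apply pow_le_pow_of_le_one (by norm_num) (by norm_num)
    have hW' := (mem_filter.mp hW).2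
    have h3 := KBg_card_img hk f u (f u) W hW'.2
    have h4 : (4 * d : ℝ) ≤ 8 * W.card := by linarith [hW'.1]
    have h5 : 4 * d ≤ 8 * W.card := by exact_mod_cast h4
    omega
  calc ∑ W ∈ V, ER (fun R => if Disjoint (KBg_img f u (f u) W) R then (1 : ℝ) else 0)
      ≤ ∑ _W ∈ V, (1 / 2 : ℝ) ^ (4 * d) := sum_le_sum h2
    _ = V.card * (1 / 2 : ℝ) ^ (4 * d) := by rw [sum_const, nsmul_eq_mul]
    _ ≤ 2 ^ (2 * d) * (1 / 2 : ℝ) ^ (4 * d) := by
        apply mul_le_mul_of_nonneg_right _ (by positivity)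
        have h6 : V.card ≤ 2 ^ (2 * d) := by
          refine (card_le_univ V).trans ?_
          rw [Fintype.card_finset]
          apply le_of_eq
          congr 1
          rw [Fintype.card_prod, Fintype.card_fin, Fintype.card_bool, mul_comm]
        exact_mod_cast h6
    _ = (1 / 4) ^ d := by
        rw [pow_mul, pow_mul, ← mul_pow]
        norm_num

open scoped Classical in
private theorem KBg_point (hd : 2 ≤ d) (f : Site d k → Fin q) (R : Finset (Site d k))
    (u : Site d k) :
    (if 1 / 2 < nn f R u (f u) then (1 : ℝ) else 0) ≤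
      2 / d * (∑ σ : Stp d, if yy f (u + sv σ) (f u) ≤ 16 then UU f R (u + sv σ) (f u) else 0) +
      (if (d : ℝ) / 2 ≤ ((univ.filter fun σ : Stp d =>
        17 ≤ yy f (u + sv σ) (f u) ∧ UU f R (u + sv σ) (f u) = 1).card : ℝ) then (1 : ℝ) else 0) := by
  have hd0 : (0 : ℝ) < d := by
    have : (2 : ℝ) ≤ d := by exact_mod_cast hd
    linarith
  have hUnn : ∀ σ : Stp d, 0 ≤ UU f R (u + sv σ) (f u) := by
    intro σ
    rcases KBg_UU_cases f R (u + sv σ) (f u) with h | h <;> rw [h]
    norm_num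
  have hS0 : 0 ≤ ∑ σ : Stp d,
      (if yy f (u + sv σ) (f u) ≤ 16 then UU f R (u + sv σ) (f u) else 0) := by
    apply sum_nonneg
    intro σ _
    split_ifs
    · exact hUnn σ
    · exact le_refl _
  have hS1 : 0 ≤ 2 / (d : ℝ) * ∑ σ : Stp d,
      (if yy f (u + sv σ) (f u) ≤ 16 then UU f R (u + sv σ) (f u) else 0) :=
    mul_nonneg (by positivity) hS0
  by_cases hn : 1 / 2 < nn f R u (f u)
  · rw [if_pos hn]
    by_cases hB : (d : ℝ) / 2 ≤ ((univ.filter fun σ : Stp d =>
        17 ≤ yy f (u + sv σ) (f u) ∧ UU f R (u + sv σ) (f u) = 1).card : ℝ)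
    · rw [if_pos hB]
      linarith
    · rw [if_neg hB]
      rw [not_le] at hB
      have h1 : ∑ σ : Stp d, UU f R (u + sv σ) (f u) =
          ∑ σ : Stp d, (if yy f (u + sv σ) (f u) ≤ 16 then UU f R (u + sv σ) (f u) else 0) +
          ((univ.filter fun σ : Stp d =>
            17 ≤ yy f (u + sv σ) (f u) ∧ UU f R (u + sv σ) (f u) = 1).card : ℝ) := by
        rw [← sum_boole, ← sum_add_distrib]
        apply sum_congr rfl
        intro σ _
        by_cases hy : yy f (u + sv σ) (f u) ≤ 16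
        · rw [if_pos hy, if_neg (by omega)]
          ring
        · rw [if_neg hy]
          rcases KBg_UU_cases f R (u + sv σ) (f u) with h | h
          · rw [h, if_neg (by norm_num)]
            ring
          · rw [h, if_pos ⟨by omega, rfl⟩]
            ring
      have h2 : (d : ℝ) < ∑ σ : Stp d, UU f R (u + sv σ) (f u) := by
        unfold nn at hn
        rw [lt_div_iff₀ (by positivity)] at hn
        linarith
      have h3 : (d : ℝ) / 2 < ∑ σ : Stp d,
          (if yy f (u + sv σ) (f u) ≤ 16 then UU f R (u + sv σ) (f u) else 0) := by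
        linarith
      have h4 : 2 / (d : ℝ) * (d / 2) ≤ 2 / (d : ℝ) * ∑ σ : Stp d,
          (if yy f (u + sv σ) (f u) ≤ 16 then UU f R (u + sv σ) (f u) else 0) :=
        mul_le_mul_of_nonneg_left h3.le (by positivity)
      have h5 : 2 / (d : ℝ) * (d / 2) = 1 := by field_simp
      linarith
  · rw [if_neg hn]
    have : (0 : ℝ) ≤ if (d : ℝ) / 2 ≤ ((univ.filter fun σ : Stp d =>
        17 ≤ yy f (u + sv σ) (f u) ∧ UU f R (u + sv σ) (f u) = 1).card : ℝ) then (1 : ℝ) else 0 := by
      split_ifs <;> norm_num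
    linarith

open scoped Classical in
theorem EK_big (hd : 2 ≤ d) (hk : 3 ≤ k) (f : Site d k → Fin q) :
    ER (fun R => ∑ u ∈ (evs d k).filter (fun u => u ∉ R),
      if 1 / 2 < nn f R u (f u) then (1 : ℝ) else 0) ≤
      32 / d * ∑ c, QQ f c + NN d k / 2 * (1 / 4) ^ d := by
  have hd0 : (0 : ℝ) < d := by
    have : (2 : ℝ) ≤ d := by exact_mod_cast hd
    linarith
  have h1 : ER (fun R => ∑ u ∈ (evs d k).filter (fun u => u ∉ R),
      if 1 / 2 < nn f R u (f u) then (1 : ℝ) else 0) ≤
      ER (fun R => ∑ u ∈ evs d k, (2 / (d : ℝ) * (∑ σ : Stp d,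
        (if yy f (u + sv σ) (f u) ≤ 16 then (1 : ℝ) else 0) *
          (if u ∉ R then UU f R (u + sv σ) (f u) else 0)) +
        (if (d : ℝ) / 2 ≤ ((univ.filter fun σ : Stp d =>
          17 ≤ yy f (u + sv σ) (f u) ∧ UU f R (u + sv σ) (f u) = 1).card : ℝ)
          then (1 : ℝ) else 0))) := by
    apply ER_mono
    intro R
    rw [sum_notin]
    apply sum_le_sum
    intro u _
    by_cases hu : u ∉ R
    · rw [if_pos hu]
      refine (KBg_point hd f R u).trans (le_of_eq ?_)
      congr 2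
      apply sum_congr rfl
      intro σ _
      rw [if_pos hu]
      split_ifs <;> ring
    · rw [if_neg hu]
      have e1 : (∑ σ : Stp d, (if yy f (u + sv σ) (f u) ≤ 16 then (1 : ℝ) else 0) *
          (if u ∉ R then UU f R (u + sv σ) (f u) else 0)) = 0 := by
        apply sum_eq_zero
        intro σ _
        rw [if_neg hu, mul_zero]
      rw [e1, mul_zero, zero_add]
      split_ifs <;> norm_num
  refine h1.trans ?_
  rw [ER_sum]
  have h2 : ∀ u ∈ evs d k, ER (fun R => 2 / (d : ℝ) * (∑ σ : Stp d,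
        (if yy f (u + sv σ) (f u) ≤ 16 then (1 : ℝ) else 0) *
          (if u ∉ R then UU f R (u + sv σ) (f u) else 0)) +
        (if (d : ℝ) / 2 ≤ ((univ.filter fun σ : Stp d =>
          17 ≤ yy f (u + sv σ) (f u) ∧ UU f R (u + sv σ) (f u) = 1).card : ℝ)
          then (1 : ℝ) else 0)) ≤
      2 / (d : ℝ) * (∑ σ : Stp d,
        (if yy f (u + sv σ) (f u) ≤ 16 then (1 / 2 : ℝ) ^ yy f (u + sv σ) (f u) else 0)) +
        (1 / 4) ^ d := by
    intro u _
    rw [ER_add, ER_mul, ER_sum]
    apply add_le_add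
    · apply le_of_eq
      congr 1
      apply sum_congr rfl
      intro σ _
      rw [ER_mul, ER_UU_own (by omega) f u σ]
      split_ifs <;> ring
    · exact EK_big_one hd hk f u
  refine (sum_le_sum h2).trans ?_
  rw [sum_add_distrib, ← mul_sum, sum_const, nsmul_eq_mul, card_evs (by omega) (by omega)]
  have h3 := sum_small (d := d) (k := k) (q := q) (by omega) (by omega) f 16
  have h4 : 2 / (d : ℝ) * (∑ u ∈ evs d k, ∑ σ : Stp d,
      (if yy f (u + sv σ) (f u) ≤ 16 then (1 / 2 : ℝ) ^ yy f (u + sv σ) (f u) else 0)) ≤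
      2 / (d : ℝ) * (((16 : ℕ) : ℝ) * ∑ c, QQ f c) :=
    mul_le_mul_of_nonneg_left h3 (by positivity)
  have h5 : 2 / (d : ℝ) * (((16 : ℕ) : ℝ) * ∑ c, QQ f c) = 32 / d * ∑ c, QQ f c := by
    push_cast
    ring
  linarith

end Pool.Agent.LO

end

/-! ### from `Lib_MP_2c424f_lo.Chess` -/

section

/-!
# The chessboard estimate (piece CHESS)

Take `Γ` maximising `cn Γ * r^{-|Γ|}`; if it is nonempty (and the maximum is positive) the symmetrised sets
are maximisers too (`|syL Γ| + |syR Γ| = 2 |Γ|`); an interval of block columns of length `2^e` in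
direction `j` is doubled by a reflection in the plane at its end, so the full set is a maximiser.
-/

set_option autoImplicit false

open Finset

namespace Pool.Agent.LO

variable {d k : ℕ}

private theorem Chess_rb_rb (j : Fin d) (α : ZMod (2 ^ k)) (t : Blk d k) :
    rb j α (rb j α t) = t := by
  unfold rb
  rw [Function.update_idem, Function.update_self, sub_sub_cancel, Function.update_eq_self]

private theorem Chess_rb_inj (j : Fin d) (α : ZMod (2 ^ k)) : Function.Injective (rb j α) := by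
  intro s t h
  rw [← Chess_rb_rb j α s, h, Chess_rb_rb]

private theorem Chess_val_cast (n : ℕ) (h : n < 2 ^ k) : ((n : ZMod (2 ^ k))).val = n :=
  ZMod.val_cast_of_lt h

private theorem Chess_lft_rb (hk : 1 ≤ k) (j : Fin d) (α : ZMod (2 ^ k)) (t : Blk d k) :
    lft j α (rb j α t) ↔ ¬ lft j α t := by
  have hne : NeZero (2 ^ k) := ⟨by positivity⟩
  unfold lft
  have h1 : (rb j α t) j - α = ((2 ^ k - 1 - (t j - α).val : ℕ) : ZMod (2 ^ k)) := by
    have hlt := ZMod.val_lt (t j - α)
    rw [Nat.sub_sub, Nat.cast_sub (by omega)]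
    unfold rb
    rw [Function.update_self]
    push_cast
    rw [ZMod.natCast_val, ZMod.cast_id]
    have : ((2 : ZMod (2 ^ k)) ^ k) = 0 := by
      have := ZMod.natCast_self (2 ^ k)
      push_cast at this
      exact this
    rw [this]
    ring
  have hlt := ZMod.val_lt (t j - α)
  have h2 : 2 ^ k = 2 * 2 ^ (k - 1) := by
    rw [← pow_succ']
    congr 1
    omega
  rw [h1, Chess_val_cast _ (by omega)]
  omega

theorem card_sy (hk : 1 ≤ k) (j : Fin d) (α : ZMod (2 ^ k)) (Γ : Finset (Blk d k)) :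
    (syL j α Γ).card + (syR j α Γ).card = 2 * Γ.card := by
  classical
  have h1 : (syL j α Γ).card = 2 * (Γ.filter (fun t => lft j α t)).card := by
    unfold syL
    rw [card_union_of_disjoint, card_image_of_injective _ (Chess_rb_inj j α), two_mul]
    rw [disjoint_left]
    intro t ht ht'
    obtain ⟨s, hs, rfl⟩ := mem_image.1 ht'
    exact (Chess_lft_rb hk j α s).1 (mem_filter.1 ht).2 (mem_filter.1 hs).2
  have h2 : (syR j α Γ).card = 2 * (Γ.filter (fun t => ¬ lft j α t)).card := by
    unfold syR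
    rw [card_union_of_disjoint, card_image_of_injective _ (Chess_rb_inj j α), two_mul]
    rw [disjoint_left]
    intro t ht ht'
    obtain ⟨s, hs, rfl⟩ := mem_image.1 ht'
    exact (mem_filter.1 ht).2 ((Chess_lft_rb hk j α s).2 (mem_filter.1 hs).2)
  rw [h1, h2, ← mul_add, card_filter_add_card_filter_not]

/-- doubling of an interval of block columns -/
private theorem Chess_double (j : Fin d) (J : Finset (Fin d)) (Γ : Finset (Blk d k))
    (a : Blk d k) (e : ℕ) (he : e + 1 ≤ k)
    (h : ∀ t : Blk d k, (∀ i, i ∉ insert j J → t i = a i) → (t j - a j).val < 2 ^ e → t ∈ Γ) :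
    ∀ t : Blk d k, (∀ i, i ∉ insert j J → t i = a i) → (t j - a j).val < 2 ^ (e + 1) →
      t ∈ syL j (a j + ((2 ^ e : ℕ) : ZMod (2 ^ k)) - ((2 ^ (k - 1) : ℕ) : ZMod (2 ^ k))) Γ := by
  classical
  have hne : NeZero (2 ^ k) := ⟨by positivity⟩
  set α := a j + ((2 ^ e : ℕ) : ZMod (2 ^ k)) - ((2 ^ (k - 1) : ℕ) : ZMod (2 ^ k)) with hα
  have hpe : 2 ^ e ≤ 2 ^ (k - 1) := Nat.pow_le_pow_right (by norm_num) (by omega)
  have h2 : 2 ^ k = 2 * 2 ^ (k - 1) := by
    rw [← pow_succ']
    congr 1
    omega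
  have hleft : ∀ t : Blk d k, (t j - a j).val < 2 ^ e → lft j α t := by
    intro t ht
    unfold lft
    have h3 : t j - α = (((t j - a j).val + 2 ^ (k - 1) - 2 ^ e : ℕ) : ZMod (2 ^ k)) := by
      rw [Nat.cast_sub (by omega), Nat.cast_add, ZMod.natCast_val, ZMod.cast_id, hα]
      ring
    rw [h3, Chess_val_cast _ (by omega)]
    omega
  intro t ht htj
  by_cases hlt : (t j - a j).val < 2 ^ e
  · exact mem_union_left _ (mem_filter.2 ⟨h t ht hlt, hleft t hlt⟩)
  · refine mem_union_right _ (mem_image.2 ⟨rb j α t, ?_, Chess_rb_rb j α t⟩)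
    have h4 : (rb j α t) j - a j = ((2 ^ (e + 1) - 1 - (t j - a j).val : ℕ) : ZMod (2 ^ k)) := by
      unfold rb
      rw [Function.update_self, Nat.sub_sub, Nat.cast_sub (by omega), Nat.cast_add,
        ZMod.natCast_val, ZMod.cast_id, hα]
      have h5 : (2 : ZMod (2 ^ k)) * ((2 ^ (k - 1) : ℕ) : ZMod (2 ^ k)) = 0 := by
        have h8 := congrArg (Nat.cast : ℕ → ZMod (2 ^ k)) h2
        rw [ZMod.natCast_self, Nat.cast_mul] at h8
        exact h8.symm
      have h6 : ((2 ^ (e + 1) : ℕ) : ZMod (2 ^ k)) = 2 * ((2 ^ e : ℕ) : ZMod (2 ^ k)) := by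
        push_cast
        rw [pow_succ']
      rw [h6]
      push_cast at h5 ⊢
      linear_combination -h5
    have h7 : ((rb j α t) j - a j).val < 2 ^ e := by
      have hp : 2 ^ (e + 1) ≤ 2 ^ k := Nat.pow_le_pow_right (by norm_num) he
      rw [h4, Chess_val_cast _ (by omega)]
      have : 2 ^ (e + 1) = 2 * 2 ^ e := pow_succ' 2 e
      omega
    refine mem_filter.2 ⟨h _ ?_ h7, hleft _ h7⟩
    intro i hi
    have hij : i ≠ j := fun hh => hi (by rw [hh]; exact mem_insert_self _ _)
    unfold rb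
    rw [Function.update_of_ne hij]
    exact ht i hi

theorem chess (hk : 1 ≤ k) (cn : Finset (Blk d k) → ℝ) (Z r : ℝ) (hr : 0 < r) (hZ : 0 ≤ Z)
    (h0 : ∀ Γ, 0 ≤ cn Γ)
    (hrp : ∀ j α Γ, cn Γ ^ 2 ≤ cn (syL j α Γ) * cn (syR j α Γ))
    (hemp : cn ∅ ≤ Z) (hfull : cn univ ≤ Z * r ^ (Fintype.card (Blk d k))) (Γ : Finset (Blk d k)) :
    cn Γ ≤ Z * r ^ Γ.card := by
  classical
  have hne : NeZero (2 ^ k) := ⟨by positivity⟩
  set F : Finset (Blk d k) → ℝ := fun G => cn G / r ^ G.card with hF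
  obtain ⟨G₀, -, hmax⟩ := exists_max_image (univ : Finset (Finset (Blk d k))) F
    ⟨∅, mem_univ _⟩
  have hmax' : ∀ G, F G ≤ F G₀ := fun G => hmax G (mem_univ _)
  have key : F G₀ ≤ Z := by
    by_cases hpos : F G₀ ≤ 0
    · exact hpos.trans hZ
    push Not at hpos
    by_cases hG : G₀ = ∅
    · rw [hG]
      simpa [hF] using hemp
    -- maximisers
    have hsym : ∀ G, F G = F G₀ → ∀ j α, F (syL j α G) = F G₀ := by
      intro G hGm j α
      have h1 := hrp j α G
      have h2 := card_sy hk j α G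
      have e1 : cn G = F G * r ^ G.card := by
        simp only [hF]
        field_simp
      have e2 : cn (syL j α G) = F (syL j α G) * r ^ (syL j α G).card := by
        simp only [hF]
        field_simp
      have e3 : cn (syR j α G) = F (syR j α G) * r ^ (syR j α G).card := by
        simp only [hF]
        field_simp
      rw [e1, e2, e3, hGm] at h1
      have h3 : F G₀ ^ 2 * r ^ (2 * G.card) ≤
          (F (syL j α G) * F (syR j α G)) * r ^ (2 * G.card) := by
        calc F G₀ ^ 2 * r ^ (2 * G.card) = (F G₀ * r ^ G.card) ^ 2 := by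
              rw [mul_pow, ← pow_mul, mul_comm G.card 2]
          _ ≤ _ := h1
          _ = (F (syL j α G) * F (syR j α G)) * (r ^ ((syL j α G).card + (syR j α G).card)) := by
              rw [pow_add]; ring
          _ = _ := by rw [h2]
      have h4 : F G₀ ^ 2 ≤ F (syL j α G) * F (syR j α G) :=
        le_of_mul_le_mul_right h3 (by positivity)
      have h5 : 0 ≤ F (syL j α G) := div_nonneg (h0 _) (by positivity)
      have h6 : F (syL j α G) * F (syR j α G) ≤ F (syL j α G) * F G₀ :=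
        mul_le_mul_of_nonneg_left (hmax' _) h5
      refine le_antisymm (hmax' _) ?_
      have h7 : F G₀ * F G₀ ≤ F (syL j α G) * F G₀ := by
        rw [← sq]
        exact h4.trans h6
      exact le_of_mul_le_mul_right h7 hpos
    have hP : ∀ J : Finset (Fin d), ∃ G, F G = F G₀ ∧ ∃ a : Blk d k,
        ∀ t : Blk d k, (∀ i, i ∉ J → t i = a i) → t ∈ G := by
      intro J
      induction J using Finset.induction_on with
      | empty =>
        obtain ⟨a, ha⟩ := nonempty_iff_ne_empty.2 hG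
        refine ⟨G₀, rfl, a, fun t ht => ?_⟩
        have : t = a := funext fun i => ht i (by simp)
        rwa [this]
      | insert j J hj ih =>
        obtain ⟨G, hGm, a, ha⟩ := ih
        have hQ : ∀ e ≤ k, ∃ G, F G = F G₀ ∧ ∃ a : Blk d k, ∀ t : Blk d k,
            (∀ i, i ∉ insert j J → t i = a i) → (t j - a j).val < 2 ^ e → t ∈ G := by
          intro e
          induction e with
          | zero =>
            intro _
            refine ⟨G, hGm, a, fun t ht htj => ha t fun i hi => ?_⟩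
            by_cases hij : i = j
            · subst hij
              rw [pow_zero, Nat.lt_one_iff, ZMod.val_eq_zero] at htj
              exact sub_eq_zero.1 htj
            · exact ht i (by simp [hij, hi])
          | succ e ihe =>
            intro he
            obtain ⟨G', hG', a', ha'⟩ := ihe (by omega)
            exact ⟨_, hsym G' hG' j _, a', Chess_double j J G' a' e he ha'⟩
        obtain ⟨G', hG', a', ha'⟩ := hQ k le_rfl
        exact ⟨G', hG', a', fun t ht => ha' t ht (ZMod.val_lt _)⟩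
    obtain ⟨G, hGm, a, ha⟩ := hP univ
    have hGu : G = univ := eq_univ_of_forall fun t => ha t fun i hi => absurd (mem_univ i) hi
    rw [← hGm, hGu]
    simp only [hF, card_univ]
    rw [div_le_iff₀ (by positivity)]
    exact hfull
  have h := (hmax' Γ).trans key
  simp only [hF] at h
  rwa [div_le_iff₀ (by positivity)] at h

end Pool.Agent.LO

end

/-! ### from `Lib_MP_2c424f_cor.S03` -/

section

/-!
# All blocks bad, general tolerance (piece S03, (S3))

Verbatim the proof of `lemB` (file `Lib_MP_2c424f_lo/LemB.lean`, copy it) with `θ` instead of `dl q`: it uses only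
`0 < θ ≤ 1/2` (`var_ge`, `sum_var`, `sum_mj`).
-/

set_option autoImplicit false

open Finset

namespace Pool.Agent.COR

open Pool.Agent.LO

variable {d k q : ℕ}

private lemma S03_r1 {δ v s : ℝ} (hδ : 0 < δ) (hv : δ / 5 ≤ v) (hs : 0 ≤ s) :
    1 ≤ 5 / δ * v + 2 / δ * s := by
  have h1 : (1 : ℝ) = 5 / δ * (δ / 5) := by field_simp
  have h2 : 5 / δ * (δ / 5) ≤ 5 / δ * v := mul_le_mul_of_nonneg_left hv (by positivity)
  have h3 : 0 ≤ 2 / δ * s := by positivity
  linarith

private lemma S03_r2 {δ v s : ℝ} (hδ : 0 < δ) (hv : 0 ≤ v) (hs : δ / 2 ≤ s) :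
    1 ≤ 5 / δ * v + 2 / δ * s := by
  have h1 : (1 : ℝ) = 2 / δ * (δ / 2) := by field_simp
  have h2 : 2 / δ * (δ / 2) ≤ 2 / δ * s := mul_le_mul_of_nonneg_left hs (by positivity)
  have h3 : 0 ≤ 5 / δ * v := by positivity
  linarith

private lemma S03_r3 {δ M D x I Q V S : ℝ} (hδ : 0 < δ) (hD : 0 < D) (hx : 0 < x) (hI : 0 ≤ I)
    (hV : V ≤ 1 / 4 * (8 * x * I) / D) (hS : S ≤ x * (8 / D * Q))
    (hM : M ≤ 5 / δ * V + 2 / δ * S) : δ * (M * D) / (16 * x) ≤ I + Q := by
  have h1 : 5 / δ * V ≤ 5 / δ * (1 / 4 * (8 * x * I) / D) :=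
    mul_le_mul_of_nonneg_left hV (by positivity)
  have h2 : 2 / δ * S ≤ 2 / δ * (x * (8 / D * Q)) := mul_le_mul_of_nonneg_left hS (by positivity)
  have h3 : M ≤ 5 / δ * (1 / 4 * (8 * x * I) / D) + 2 / δ * (x * (8 / D * Q)) := by linarith
  have h4 := mul_le_mul_of_nonneg_left h3 (by positivity : (0 : ℝ) ≤ δ * D)
  have e1 : δ * D * (5 / δ * (1 / 4 * (8 * x * I) / D) + 2 / δ * (x * (8 / D * Q))) =
      10 * (x * I) + 16 * (x * Q) := by
    field_simp
    ring
  rw [e1] at h4
  rw [div_le_iff₀ (by positivity)]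
  have h5 : 0 ≤ x * I := by positivity
  nlinarith

private lemma S03_pm_nonneg (χ : Site d (k + 1) → ℝ) (hχ : ∀ x, χ x = 0 ∨ χ x = 1)
    (t : Blk d k) : 0 ≤ pm χ t * (1 - pm χ t) := by
  have h0 : 0 ≤ pm χ t := by
    unfold pm
    refine div_nonneg (sum_nonneg fun a _ => sum_nonneg fun b _ => ?_) (by positivity)
    rcases hχ (pt t a b) with h | h <;> rw [h]
    exact zero_le_one
  have h1 : pm χ t ≤ 1 := by
    unfold pm
    rw [div_le_one (by positivity)]
    have h2 : ∑ a : Bt d, ∑ b : Bt d, χ (pt t a b) ≤ ∑ a : Bt d, ∑ b : Bt d, (1 : ℝ) := by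
      refine sum_le_sum fun a _ => sum_le_sum fun b _ => ?_
      rcases hχ (pt t a b) with h | h <;> rw [h]
      exact zero_le_one
    refine h2.trans (le_of_eq ?_)
    simp only [sum_const, card_univ, Fintype.card_fun, Fintype.card_bool, Fintype.card_fin,
      nsmul_eq_mul, mul_one, Nat.cast_pow, Nat.cast_ofNat]
    rw [← mul_pow]
    norm_num
  exact mul_nonneg h0 (sub_nonneg.2 h1)

theorem lemBT (hd : 1 ≤ d) (hq : 1 ≤ q) {θ : ℝ} (h0 : 0 < θ) (h1 : θ ≤ 1 / 2) (f : Site d (k + 1) → Fin q)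
    (c : Fin q) (h : ∀ t : Blk d k, badT θ c t f) : θ * NN d (k + 1) / (16 * d) ≤ II f c + QQ f c := by
  obtain ⟨χ, hχ, hz, hI⟩ := exists_chi hd (Nat.le_add_left 1 k) f c
  have _hq' : (1 : ℝ) ≤ q := by exact_mod_cast hq
  have hd' : (1 : ℝ) ≤ d := by exact_mod_cast hd
  have hmj : ∀ (t : Blk d k) (j : Fin d), 0 ≤ mj f t c j - mt f t c := fun t j =>
    sub_nonneg.2 ((mt_le_mb f t c).trans (mb_le_mj f t c j))
  have key : ∀ t : Blk d k, 1 ≤ 5 / θ * (pm χ t * (1 - pm χ t)) +
      2 / θ * ∑ j, (mj f t c j - mt f t c) := by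
    intro t
    have hb1 : mb f t c < 1 - θ := not_le.1 (h t).1
    obtain ⟨j0, hj0⟩ := not_forall.1 (h t).2
    have hj0' : θ < mj f t c j0 := not_le.1 hj0
    have hsum : 0 ≤ ∑ j, (mj f t c j - mt f t c) := sum_nonneg fun j _ => hmj t j
    by_cases hm : θ / 2 ≤ mt f t c
    · exact S03_r1 h0 (var_ge hd f c χ hχ hz t h0 h1 hm ((mt_le_mb f t c).trans hb1.le)) hsum
    · have hm' : mt f t c < θ / 2 := not_le.1 hm
      have h3 : mj f t c j0 - mt f t c ≤ ∑ j, (mj f t c j - mt f t c) :=
        single_le_sum (f := fun j => mj f t c j - mt f t c) (fun j _ => hmj t j) (mem_univ j0)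
      refine S03_r2 h0 (S03_pm_nonneg χ hχ t) (le_trans ?_ h3)
      linarith
  have hcard : ∑ _t : Blk d k, (1 : ℝ) = (2 ^ k) ^ d := by
    simp [ZMod.card]
  have hsum := sum_le_sum fun t (_ : t ∈ (univ : Finset (Blk d k))) => key t
  rw [hcard, sum_add_distrib, ← mul_sum, ← mul_sum, sum_comm] at hsum
  have hv := sum_var χ hχ
  have hj : ∑ j : Fin d, ∑ t : Blk d k, (mj f t c j - mt f t c) ≤
      d * (8 / 2 ^ d * QQ f c) := by
    refine (sum_le_sum fun j _ => sum_mj f c j).trans (le_of_eq ?_)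
    rw [sum_const, card_univ, Fintype.card_fin, nsmul_eq_mul]
  have hII : 0 ≤ II f c := by
    have h1' : 0 ≤ ∑ j : Fin d, ∑ x, (|χ (x + sv (j, true)) - χ x| + |χ (x + sv (j, false)) - χ x|) :=
      sum_nonneg fun j _ => sum_nonneg fun x _ => add_nonneg (abs_nonneg _) (abs_nonneg _)
    have h2 : 0 ≤ 8 * (d : ℝ) * II f c := h1'.trans hI
    exact nonneg_of_mul_nonneg_right h2 (by positivity)
  have hv' : ∑ t : Blk d k, pm χ t * (1 - pm χ t) ≤ 1 / 4 * (8 * d * II f c) / 2 ^ d := by
    refine hv.trans (div_le_div_of_nonneg_right ?_ (by positivity))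
    exact mul_le_mul_of_nonneg_left hI (by norm_num)
  have hNN : NN d (k + 1) = (2 ^ k) ^ d * 2 ^ d := by
    unfold NN
    rw [pow_succ, mul_pow]
  rw [hNN]
  exact S03_r3 h0 (by positivity) (by positivity) hII hv' hj hsum

theorem badT_dl (c : Fin q) (t : Blk d k) (f : Site d (k + 1) → Fin q) : badT (dl q) c t f ↔ bad c t f := by
  unfold badT bad lab1 lab0
  exact Iff.rfl

end Pool.Agent.COR

end

/-! ### from `Lib_MP_2c424f_lc6a.B4` -/

section

/-!
# LC6a B4: the cells of the layer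

`(D.kap l z u)` has the base index `z.1` and the coordinates `cps_val`: in the direction `j ≠ σ.1`: `a + 2 h + 2 + (l+2) t j + u j`; in the direction `σ.1`: depth
`2 + (l+2) t + u`.  `inj`: `(l+2) t + u = (l+2) t' + u'` with `u, u' ≤ l` implies `t = t'`, `u = u'`.  `adj`: the coordinates are `const ± u j`.  `cl`: `u` with
`1 ≤ u j ≤ l - 1`: change `u j` by `±1` (a neighbour has the same base index and differs in one coordinate).  `par`: `a`, `m`, `l` even: the sum of the coordinates has the parity of `∑ u j`.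
`kap_lv`: `lv = 1 + (l+2) t + u`, `ncl_self`.
-/

set_option autoImplicit false

open Finset Filter

namespace Pool.Agent.LC

open Pool.Agent.LO Pool.Agent.LIN Pool.Agent.THR Pool.Agent.COR

variable {d N h : ℕ} {ι : Type} (D : Bxs d N h ι)

/-- constant part of the coordinate `j` of a cell -/
private def B4_c (w : {k // k ∈ D.I} × Stp d) (j : Fin d) : ℤ :=
  if j = w.2.1 then (if w.2.2 then ((D.a w.1.1 j + D.m w.1.1 j : ℕ) : ℤ) - 2 else (D.a w.1.1 j : ℤ) + 2)
  else (D.a w.1.1 j : ℤ) + 2 * h + 2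

/-- sign of the coordinate `j` of a cell -/
private def B4_e (w : {k // k ∈ D.I} × Stp d) (j : Fin d) : ℤ := if j = w.2.1 ∧ w.2.2 = true then -1 else 1

private theorem B4_e_cases (w : {k // k ∈ D.I} × Stp d) (j : Fin d) : B4_e D w j = 1 ∨ B4_e D w j = -1 := by
  unfold B4_e
  split_ifs
  · exact Or.inr rfl
  · exact Or.inl rfl

private theorem B4_val (l : ℕ) (z : D.Cix l) (u : BxV d l) (j : Fin d) :
    (((D.cps l z u) j).val : ℤ) = B4_c D z.1 j + B4_e D z.1 j * (((l + 2) * (z.2 j).val + (u j).val : ℕ) : ℤ) := by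
  rw [D.cps_val]
  have hm := D.big z.1.1.1 z.1.1.2 j
  have hu := (u j).isLt
  unfold B4_c B4_e
  by_cases hj : j = z.1.2.1
  · have h1 := D.ncl_self (z.2 j).isLt hj
    by_cases h2 : z.1.2.2 = true
    · rw [if_pos hj, if_pos h2, if_pos hj, if_pos h2, if_pos ⟨hj, h2⟩]
      omega
    · rw [if_pos hj, if_neg h2, if_pos hj, if_neg h2, if_neg (fun h => h2 h.2)]
      push_cast
      ring
  · rw [if_neg hj, if_neg hj, if_neg (fun h => hj h.1)]
    push_cast
    ring

private theorem B4_eq (l : ℕ) (w : {k // k ∈ D.I} × Stp d) (t t' : ∀ j : Fin d, Fin (D.ncl l w.1.1 w.2 j)) (u u' : BxV d l)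
    (j : Fin d) (hv : ((D.cps l ⟨w, t⟩ u) j).val = ((D.cps l ⟨w, t'⟩ u') j).val) : t j = t' j ∧ u j = u' j := by
  have h1 := B4_val D l ⟨w, t⟩ u j
  have h2 := B4_val D l ⟨w, t'⟩ u' j
  rw [hv, h2] at h1
  have h3 : ((l + 2) * (t' j).val + (u' j).val : ℕ) = (l + 2) * (t j).val + (u j).val := by
    rcases B4_e_cases D w j with he | he <;> simp only [he] at h1 <;> omega
  have hu := (u j).isLt
  have hu' := (u' j).isLt
  have h4 : (t' j).val = (t j).val := by
    have e1 : ((l + 2) * (t' j).val + (u' j).val) / (l + 2) = (t' j).val := by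
      rw [Nat.mul_add_div (by omega), Nat.div_eq_of_lt (by omega), add_zero]
    have e2 : ((l + 2) * (t j).val + (u j).val) / (l + 2) = (t j).val := by
      rw [Nat.mul_add_div (by omega), Nat.div_eq_of_lt (by omega), add_zero]
    rw [← e1, ← e2, h3]
  rw [h4] at h3
  exact ⟨Fin.ext h4.symm, Fin.ext (by omega)⟩

private theorem B4_step_B4 (l : ℕ) (z : D.Cix l) (u u' : BxV d l) (j : Fin d) :
    ((((D.cps l z u) j).val + 1 = ((D.cps l z u') j).val) ∨ (((D.cps l z u') j).val + 1 = ((D.cps l z u) j).val)) ↔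
      ((u j).val + 1 = (u' j).val ∨ (u' j).val + 1 = (u j).val) := by
  have h1 := B4_val D l z u j
  have h2 := B4_val D l z u' j
  rcases B4_e_cases D z.1 j with he | he <;> rw [he] at h1 h2 <;> push_cast at h1 h2 <;> omega

private theorem B4_par (l : ℕ) (hl : Even l) (z : D.Cix l) (u : BxV d l) (j : Fin d) :
    ((D.cps l z u) j).val % 2 = (u j).val % 2 := by
  have h1 := B4_val D l z u j
  obtain ⟨b, hb⟩ := D.ea z.1.1.1 z.1.1.2 j
  obtain ⟨c, hc⟩ := D.em z.1.1.1 z.1.1.2 j
  obtain ⟨e, he⟩ := hl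
  have h2 : ∀ x : ℕ, (l + 2) * x = 2 * ((e + 1) * x) := by
    intro x
    rw [he]; ring
  rw [h2] at h1
  have h3 : ∃ g : ℤ, B4_c D z.1 j = 2 * g := by
    unfold B4_c
    split_ifs
    · exact ⟨b + c - 1, by rw [hb, hc]; push_cast; ring⟩
    · exact ⟨b + 1, by rw [hb]; push_cast; ring⟩
    · exact ⟨b + h + 1, by rw [hb]; push_cast; ring⟩
  obtain ⟨g, hg⟩ := h3
  rw [hg] at h1
  generalize (e + 1) * (z.2 j).val = y at h1
  rcases B4_e_cases D z.1 j with he' | he' <;> rw [he'] at h1 <;> push_cast at h1 <;> omega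

theorem kap_cells (l : ℕ) (hl : Even l) : Cells d l D.GrL (fun p => bev (D.il false p).1) (D.kap l) := by
  have heq : ∀ (z : D.Cix l) (u u' : BxV d l) (j : Fin d), D.cps l z u j = D.cps l z u' j ↔ u j = u' j := by
    intro z u u' j
    constructor
    · intro h
      exact (B4_eq D l z.1 z.2 z.2 u u' j (congrArg Fin.val h)).2
    · intro h
      have h1 := B4_val D l z u j
      have h2 := B4_val D l z u' j
      rw [h] at h1
      refine Fin.ext ?_
      have h3 := h1.trans h2.symm
      exact_mod_cast h3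
  refine ⟨?_, ?_, ?_, ?_⟩
  · rintro ⟨w, t⟩ ⟨w', t'⟩ u u' h
    have h1 : ((w, D.cps l ⟨w, t⟩ u) : ({k // k ∈ D.I} × Stp d) × BxV d N) = (w', D.cps l ⟨w', t'⟩ u') :=
      congrArg Subtype.val h
    have hw : w = w' := congrArg Prod.fst h1
    subst hw
    have h2 : D.cps l ⟨w, t⟩ u = D.cps l ⟨w, t'⟩ u' := congrArg Prod.snd h1
    have h3 : ∀ j, t j = t' j ∧ u j = u' j := fun j => B4_eq D l w t t' u u' j (by rw [h2])
    have ht : t = t' := funext fun j => (h3 j).1
    subst ht
    exact ⟨rfl, funext fun j => (h3 j).2⟩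
  · intro z u u'
    constructor
    · rintro ⟨-, i, h1, h2⟩
      exact ⟨i, fun j hj => (heq z u u' j).1 (h1 j hj), (B4_step_B4 D l z u u' i).1 h2⟩
    · rintro ⟨i, h1, h2⟩
      exact ⟨rfl, i, fun j hj => (heq z u u' j).2 (h1 j hj), (B4_step_B4 D l z u u' i).2 h2⟩
  · rintro z u hu v ⟨hv1, i, h1, h2⟩
    have hui := hu i
    have hz := B4_val D l z u i
    -- the new coordinate
    have hex : ∃ y : Fin (l + 1), ((v.1.2 i).val : ℤ) =
        B4_c D z.1 i + B4_e D z.1 i * (((l + 2) * (z.2 i).val + y.val : ℕ) : ℤ) := by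
      change ((D.cps l z u i).val + 1 = (v.1.2 i).val ∨ (v.1.2 i).val + 1 = (D.cps l z u i).val) at h2
      rcases B4_e_cases D z.1 i with he | he
      · rw [he] at hz ⊢
        rcases h2 with h2 | h2
        · refine ⟨⟨(u i).val + 1, by omega⟩, ?_⟩
          push_cast at hz ⊢
          omega
        · refine ⟨⟨(u i).val - 1, by omega⟩, ?_⟩
          push_cast at hz ⊢
          omega
      · rw [he] at hz ⊢
        rcases h2 with h2 | h2
        · refine ⟨⟨(u i).val - 1, by omega⟩, ?_⟩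
          push_cast at hz ⊢
          omega
        · refine ⟨⟨(u i).val + 1, by omega⟩, ?_⟩
          push_cast at hz ⊢
          omega
    obtain ⟨y, hy⟩ := hex
    refine ⟨Function.update u i y, ?_⟩
    have hpos : v.1.2 = D.cps l z (Function.update u i y) := by
      funext j
      by_cases hj : j = i
      · subst hj
        have h3 := B4_val D l z (Function.update u j y) j
        rw [Function.update_self] at h3
        refine Fin.ext ?_
        have h4 := hy.trans h3.symm
        exact_mod_cast h4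
      · have h3 : D.cps l z u j = v.1.2 j := h1 j hj
        rw [← h3]
        exact (heq z u _ j).2 (by rw [Function.update_of_ne hj])
    refine Subtype.ext (Prod.ext ?_ hpos)
    exact hv1.symm
  · intro z u
    show Even (∑ i, (D.cps l z u i).val) ↔ Even (∑ i, (u i).val)
    rw [Nat.even_iff, Nat.even_iff, Finset.sum_nat_mod, Finset.sum_congr rfl fun i _ => B4_par D l hl z u i,
      ← Finset.sum_nat_mod]

theorem kap_lv (l : ℕ) (z : D.Cix l) (u : BxV d l) : 1 ≤ D.lv (D.kap l z u) ∧ D.lv (D.kap l z u) + 2 ≤ h := by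
  have hm := D.big z.1.1.1 z.1.1.2 z.1.2.1
  have hu := (u z.1.2.1).isLt
  have h1 := D.ncl_self (z.2 z.1.2.1).isLt rfl
  have h2 := D.cps_val l z u z.1.2.1
  rw [if_pos rfl] at h2
  obtain ⟨y, hy⟩ : ∃ y : ℕ, (l + 2) * (z.2 z.1.2.1).val = y := ⟨_, rfl⟩
  rw [hy] at h1 h2
  have h3 : D.dp z.1.1.1 z.1.2 (D.cps l z u) = 2 + y + (u z.1.2.1).val := by
    unfold Bxs.dp
    rw [h2]
    split_ifs <;> omega
  have h4 : D.lv (D.kap l z u) = 1 + y + (u z.1.2.1).val := by
    show (D.dp z.1.1.1 z.1.2 (D.cps l z u) - 1).toNat = _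
    rw [h3]
    omega
  omega

end Pool.Agent.LC

end

/-! ### from `Lib_MP_2c424f_lc5.V13` -/

section

/-!
# Part V, V13: typical points of a cell

`κ j` is an isomorphism of the box onto the induced subgraph and interior points of the box have no neighbours outside
(`cl`).  `nb_cell`: for `inn 1 u` the neighbours of `κ j u` are the images of the neighbours of `u`.  A neighbour of a point
with `inn (m+1)` has `inn m`.  So `Rv`, `nv` at `κ j u` (for `inn 1 u`) and `Rc · · x v`, `nc · · x v c` at the neighbours `x` of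
`v = κ j u` (for `inn 2 u`) are the same for `f` and for `f ∘ κ j` (`κ j` injective).  `par`: `tS` agrees.
`card_nb_box`: a point of the box has at most two neighbours in every direction.
-/

set_option autoImplicit false

open Finset Filter

namespace Pool.Agent.LC

open Pool.Agent.LO Pool.Agent.LIN Pool.Agent.THR Pool.Agent.COR

theorem card_nb_box {d l : ℕ} (u : BxV d l) : (nb (bG d l) u).card ≤ 2 * d := by
  classical
  have hsub : nb (bG d l) u ⊆ (univ : Finset (Fin d × Bool)).image fun p =>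
      Function.update u p.1 (if p.2 then (⟨min ((u p.1).val + 1) l, by omega⟩ : Fin (l + 1))
        else ⟨(u p.1).val - 1, by have := (u p.1).isLt; omega⟩) := by
    intro x hx
    simp only [nb, mem_filter, mem_univ, true_and] at hx
    obtain ⟨i, h, h'⟩ := hx
    simp only [mem_image, mem_univ, true_and, Prod.exists]
    rcases h' with h' | h'
    · refine ⟨i, true, ?_⟩
      funext j
      by_cases hj : j = i
      · subst hj
        have := (x j).isLt
        rw [Function.update_self]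
        apply Fin.ext
        simp only [if_true]
        omega
      · rw [Function.update_of_ne hj, h j hj]
    · refine ⟨i, false, ?_⟩
      funext j
      by_cases hj : j = i
      · subst hj
        rw [Function.update_self]
        apply Fin.ext
        simp only [Bool.false_eq_true, if_false]
        omega
      · rw [Function.update_of_ne hj, h j hj]
  calc (nb (bG d l) u).card ≤ _ := card_le_card hsub
    _ ≤ (univ : Finset (Fin d × Bool)).card := card_image_le
    _ = 2 * d := by rw [card_univ, Fintype.card_prod, Fintype.card_fin, Fintype.card_bool, mul_comm]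

theorem inn_adj {d l m : ℕ} {u u' : BxV d l} (h : (bG d l).Adj u u') (hu : inn (m + 1) u) : inn m u' := by
  obtain ⟨i, h1, h2⟩ := h
  intro j
  have hj := hu j
  by_cases hji : j = i
  · subst hji
    omega
  · rw [← h1 j hji]
    omega

variable {Λ ι : Type} [Fintype Λ] [DecidableEq Λ] {d l q : ℕ} {G : SimpleGraph Λ} {ev : Λ → Prop} {κ : ι → BxV d l → Λ}

theorem nb_cell (hC : Cells d l G ev κ) (j : ι) {u : BxV d l} (hu : inn 1 u) :
    nb G (κ j u) = (nb (bG d l) u).image (κ j) := by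
  ext v
  simp only [nb, mem_filter, mem_univ, true_and, mem_image]
  constructor
  · intro h
    obtain ⟨u', rfl⟩ := hC.cl j u hu v h
    exact ⟨u', (hC.adj j u u').1 h, rfl⟩
  · rintro ⟨u', h, rfl⟩
    exact (hC.adj j u u').2 h

private theorem V13_all (hC : Cells d l G ev κ) (j : ι) {u : BxV d l} (hu : inn 1 u) (P : Λ → Prop) :
    (∀ y, G.Adj (κ j u) y → P y) ↔ ∀ u', (bG d l).Adj u u' → P (κ j u') := by
  constructor
  · intro h u' hu'
    exact h _ ((hC.adj j u u').2 hu')
  · intro h y hy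
    obtain ⟨u', rfl⟩ := hC.cl j u hu y hy
    exact h u' ((hC.adj j u u').1 hy)

private theorem V13_inj (hC : Cells d l G ev κ) (j : ι) : Function.Injective (κ j) :=
  fun _ _ h => (hC.inj j j _ _ h).2

open scoped Classical in
private theorem V13_card (hC : Cells d l G ev κ) (j : ι) {u : BxV d l} (hu : inn 1 u) (P : Λ → Prop) :
    (univ.filter fun y => G.Adj (κ j u) y ∧ P y).card =
      (univ.filter fun u' => (bG d l).Adj u u' ∧ P (κ j u')).card := by
  rw [← card_image_of_injective (univ.filter fun u' => (bG d l).Adj u u' ∧ P (κ j u')) (V13_inj hC j)]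
  congr 1
  ext v
  simp only [mem_filter, mem_univ, true_and, mem_image]
  constructor
  · rintro ⟨h, hP⟩
    obtain ⟨u', rfl⟩ := hC.cl j u hu v h
    exact ⟨u', ⟨(hC.adj j u u').1 h, hP⟩, rfl⟩
  · rintro ⟨u', ⟨h, hP⟩, rfl⟩
    exact ⟨(hC.adj j u u').2 h, hP⟩

private theorem V13_nc (hC : Cells d l G ev κ) (f : Λ → Fin q) (j : ι) {x : BxV d l} (hx : inn 1 x) (u : BxV d l)
    (c : Fin q) : nc G f (κ j x) (κ j u) c = nc (bG d l) (fun w => f (κ j w)) x u c := by
  classical
  have h := V13_card hC j hx (fun y => y ≠ κ j u ∧ f y = c)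
  unfold nc
  convert h using 3
  constructor
  · rintro ⟨h1, h2, h3⟩
    exact ⟨h1, fun h => h2 (V13_inj hC j h), h3⟩
  · rintro ⟨h1, h2, h3⟩
    exact ⟨h1, fun h => h2 (h ▸ rfl), h3⟩

private theorem V13_nv (hC : Cells d l G ev κ) (f : Λ → Fin q) (j : ι) {u : BxV d l} (hu : inn 1 u)
    (c : Fin q) : nv G f (κ j u) c = nv (bG d l) (fun w => f (κ j w)) u c := by
  classical
  have h := V13_card hC j hu (fun y => f y = c)
  unfold nv
  convert h using 3

private theorem V13_Rc (hC : Cells d l G ev κ) (f : Λ → Fin q) (j : ι) {x : BxV d l} (hx : inn 1 x) (u : BxV d l) :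
    Rc G f (κ j x) (κ j u) = Rc (bG d l) (fun w => f (κ j w)) x u := by
  classical
  ext c
  simp only [Rc, mem_filter, mem_univ, true_and]
  rw [V13_all hC j hx (fun y => y ≠ κ j u → f y ≠ c)]
  constructor
  · intro h x' h1 h2
    exact h x' h1 fun h3 => h2 (V13_inj hC j h3)
  · intro h x' h1 h2
    exact h x' h1 fun h3 => h2 (h3 ▸ rfl)

private theorem V13_Rv (hC : Cells d l G ev κ) (f : Λ → Fin q) (j : ι) {u : BxV d l} (hu : inn 1 u) :
    Rv G f (κ j u) = Rv (bG d l) (fun w => f (κ j w)) u := by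
  classical
  ext c
  simp only [Rv, mem_filter, mem_univ, true_and]
  exact V13_all hC j hu (fun y => f y ≠ c)

private theorem V13_tS (hC : Cells d l G ev κ) (A : Finset (Fin q)) (j : ι) (u : BxV d l) (c : Fin q) :
    tS ev A (κ j u) c ↔ tS bev A u c := by
  unfold tS
  rw [hC.par j u]

private theorem V13_sum (hC : Cells d l G ev κ) (j : ι) {u : BxV d l} (hu : inn 1 u) (g : Λ → ℝ) :
    ∑ x ∈ nb G (κ j u), g x = ∑ x ∈ nb (bG d l) u, g (κ j x) := by
  classical
  rw [nb_cell hC j hu, sum_image]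
  intro a _ b _ h
  exact V13_inj hC j h

theorem TyO_cell (hC : Cells d l G ev κ) (A : Finset (Fin q)) (f : Λ → Fin q) (j : ι) {u : BxV d l} (hu : inn 2 u) :
    TyO d G ev A f (κ j u) ↔ TyO d (bG d l) bev A (fun w => f (κ j w)) u := by
  classical
  have hu1 : inn 1 u := fun i => by have := hu i; omega
  have hx : ∀ x ∈ nb (bG d l) u, inn 1 x := by
    intro x hx
    simp only [nb, mem_filter, mem_univ, true_and] at hx
    exact inn_adj hx hu
  have k1 : ∀ c, ((nb G (κ j u)).filter fun x => c ∈ Rc G f x (κ j u)).card =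
      ((nb (bG d l) u).filter fun x => c ∈ Rc (bG d l) (fun w => f (κ j w)) x u).card := by
    intro c
    rw [← card_image_of_injective _ (V13_inj hC j)]
    congr 1
    ext v
    rw [nb_cell hC j hu1]
    simp only [mem_filter, mem_image]
    constructor
    · rintro ⟨⟨x, h1, rfl⟩, h2⟩
      rw [V13_Rc hC f j (hx x h1) u] at h2
      exact ⟨x, ⟨h1, h2⟩, rfl⟩
    · rintro ⟨x, ⟨h1, h2⟩, rfl⟩
      refine ⟨⟨x, h1, rfl⟩, ?_⟩
      rw [V13_Rc hC f j (hx x h1) u]
      exact h2
  have k2 : ∀ c, ∑ x ∈ nb G (κ j u), (nc G f x (κ j u) c : ℝ) ^ 2 =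
      ∑ x ∈ nb (bG d l) u, (nc (bG d l) (fun w => f (κ j w)) x u c : ℝ) ^ 2 := by
    intro c
    rw [V13_sum hC j hu1]
    exact sum_congr rfl fun x h => by rw [V13_nc hC f j (hx x h) u c]
  have k3 : ∀ c, ∑ x ∈ nb G (κ j u), (nc G f x (κ j u) c : ℝ) =
      ∑ x ∈ nb (bG d l) u, (nc (bG d l) (fun w => f (κ j w)) x u c : ℝ) := by
    intro c
    rw [V13_sum hC j hu1]
    exact sum_congr rfl fun x h => by rw [V13_nc hC f j (hx x h) u c]
  constructor
  · intro h
    refine ⟨fun c hc => ?_, fun c => ?_, fun c hc => ?_⟩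
    · have := h.o1 c ((V13_tS hC A j u c).2 hc)
      rw [k1 c] at this
      exact this
    · rw [← k2 c]
      exact h.o2 c
    · rw [← k3 c]
      exact h.o3 c fun h' => hc ((V13_tS hC A j u c).1 h')
  · intro h
    refine ⟨fun c hc => ?_, fun c => ?_, fun c hc => ?_⟩
    · have := h.o1 c ((V13_tS hC A j u c).1 hc)
      rw [← k1 c] at this
      exact this
    · rw [k2 c]
      exact h.o2 c
    · rw [k3 c]
      exact h.o3 c fun h' => hc ((V13_tS hC A j u c).2 h')

theorem TyE_cell (hC : Cells d l G ev κ) (A : Finset (Fin q)) (f : Λ → Fin q) (j : ι) {u : BxV d l} (hu : inn 1 u) :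
    TyE d G ev A f (κ j u) ↔ TyE d (bG d l) bev A (fun w => f (κ j w)) u := by
  classical
  have k2 : ((Rv G f (κ j u)).filter fun c => ¬ tS ev A (κ j u) c) =
      ((Rv (bG d l) (fun w => f (κ j w)) u).filter fun c => ¬ tS bev A u c) := by
    rw [V13_Rv hC f j hu]
    apply filter_congr
    intro c _
    rw [V13_tS hC A j u c]
  have k4 : (univ.filter fun c => tS ev A (κ j u) c) = univ.filter fun c => tS bev A u c := by
    apply filter_congr
    intro c _
    rw [V13_tS hC A j u c]
  constructor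
  · intro h
    refine ⟨?_, ?_, ?_, ?_⟩
    · rw [← V13_Rv hC f j hu]
      exact h.e1
    · rw [← k2]
      exact h.e2
    · have := h.e3
      simp only [V13_nv hC f j hu] at this
      exact this
    · have := h.e4
      simp only [V13_nv hC f j hu] at this
      rw [k4] at this
      exact this
  · intro h
    refine ⟨?_, ?_, ?_, ?_⟩
    · rw [V13_Rv hC f j hu]
      exact h.e1
    · rw [k2]
      exact h.e2
    · simp only [V13_nv hC f j hu]
      exact h.e3
    · simp only [V13_nv hC f j hu]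
      rw [k4]
      exact h.e4

end Pool.Agent.LC

end

/-! ### from `Lib_MP_2c424f_lc6a.A4` -/

section

/-!
# LC6a A4: parity and degrees

* `bG_par`: one coordinate changes by `1`.
* `XX`, `XC`: the first components of neighbours are neighbours in `bG d N`; so at most `2 * 2 d` neighbours (`card_nb_box` of `lc5.V13`).
-/

set_option autoImplicit false

open Finset Filter

namespace Pool.Agent.LC

open Pool.Agent.LO Pool.Agent.LIN Pool.Agent.THR Pool.Agent.COR

private theorem A4_sum {d N : ℕ} (x y : BxV d N) (i : Fin d) (h : ∀ j, j ≠ i → x j = y j) :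
    (∑ j, (x j).val) + (y i).val = (∑ j, (y j).val) + (x i).val := by
  have h1 : ∑ j, (x j).val = (x i).val + ∑ j ∈ univ.erase i, (x j).val :=
    (add_sum_erase univ (fun j => (x j).val) (mem_univ i)).symm
  have h2 : ∑ j, (y j).val = (y i).val + ∑ j ∈ univ.erase i, (y j).val :=
    (add_sum_erase univ (fun j => (y j).val) (mem_univ i)).symm
  have h3 : ∑ j ∈ univ.erase i, (x j).val = ∑ j ∈ univ.erase i, (y j).val := by
    refine sum_congr rfl fun j hj => ?_
    rw [h j (ne_of_mem_erase hj)]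
  rw [h1, h2, h3]
  omega

theorem bG_par (d N : ℕ) : Par (bG d N) (bev : BxV d N → Prop) := by
  rintro x y ⟨i, h, h'⟩
  have hs := A4_sum x y i h
  unfold bev
  rw [Nat.even_iff, Nat.even_iff]
  rcases h' with h' | h' <;> omega

private theorem A4_deg {d N : ℕ} (X : SimpleGraph (BxV d N × Bool))
    (hX : ∀ p p', X.Adj p p' → (bG d N).Adj p.1 p'.1) (v : BxV d N × Bool) : (nb X v).card ≤ 4 * d := by
  classical
  have hsub : nb X v ⊆ nb (bG d N) v.1 ×ˢ (univ : Finset Bool) := by
    intro p hp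
    simp only [nb, mem_filter, mem_univ, true_and, mem_product, and_true] at hp ⊢
    exact hX v p hp
  have h1 := card_nb_box (d := d) (l := N) v.1
  calc (nb X v).card ≤ _ := card_le_card hsub
    _ = (nb (bG d N) v.1).card * 2 := by rw [card_product, card_univ, Fintype.card_bool]
    _ ≤ 4 * d := by omega

variable {d N h : ℕ} {ι : Type}

private theorem A4_XX (D : Bxs d N h ι) (p p' : BxV d N × Bool) (hp : D.XX.Adj p p') : (bG d N).Adj p.1 p'.1 :=
  hp.1.1

private theorem A4_XC (D : Bxs d N h ι) (p p' : BxV d N × Bool) (hp : D.XC.Adj p p') : (bG d N).Adj p.1 p'.1 :=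
  hp.1.1

theorem XX_par (D : Bxs d N h ι) : Par D.XX (fun v => bev v.1) := by
  intro p p' hp
  exact bG_par d N p.1 p'.1 (A4_XX D p p' hp)

theorem XC_par (D : Bxs d N h ι) : Par D.XC (fun v => bev v.1) := by
  intro p p' hp
  exact bG_par d N p.1 p'.1 (A4_XC D p p' hp)

theorem XX_deg (D : Bxs d N h ι) (v : BxV d N × Bool) : (nb D.XX v).card ≤ 4 * d :=
  A4_deg D.XX (A4_XX D) v

theorem XC_deg (D : Bxs d N h ι) (v : BxV d N × Bool) : (nb D.XC v).card ≤ 4 * d :=
  A4_deg D.XC (A4_XC D) v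

end Pool.Agent.LC

end

/-! ### from `Lib_MP_2c424f_lc.PIVd` -/

section

/-!
# Part IV: constants of the alignment
-/

set_option autoImplicit false

open Finset Filter

namespace Pool.Agent.LC

open Pool.Agent.LO Pool.Agent.LIN Pool.Agent.THR Pool.Agent.COR

/-- number of sites of a big cluster in a block -/
noncomputable def sz (d q : ℕ) : ℝ := 2 ^ d / (2 * q)

/-- `2^{M |U| / s₀}` -/
noncomputable def cK (d q u : ℕ) : ℝ := (2 : ℝ) ^ ((q : ℝ) ^ 2 / 4 * u / sz d q)

end Pool.Agent.LC

end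

/-! ### from `Lib_MP_2c424f_cor.D05` -/

section

/-!
# The sweep, sets of colours (piece D05, (D3))

`sweep`: by the step rule elements of `A₀` can only enter and elements of the complement can only leave.  If `A M ≠ A₀` then
(equal cardinalities) there are `i ∈ A₀ \ A M`, `j ∈ A M \ A₀`; so `i ∉ A m`, `j ∈ A m` for all `m ≤ M`; at the step with
`pr m = (i, j)` the element `i` would enter.
`enum`: list the elements of `A₀ ×ˢ A₀ᶜ`.
-/

set_option autoImplicit false

open Finset

namespace Pool.Agent.COR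

theorem sweep {q M : ℕ} (A₀ : Finset (Fin q)) (pr : ℕ → Fin q × Fin q)
    (hpr : ∀ m < M, (pr m).1 ∈ A₀ ∧ (pr m).2 ∉ A₀)
    (hall : ∀ i ∈ A₀, ∀ j, j ∉ A₀ → ∃ m < M, pr m = (i, j)) (A : ℕ → Finset (Fin q))
    (hc : (A M).card = A₀.card)
    (h1 : ∀ m < M, (pr m).2 ∈ A m → (pr m).1 ∉ A m → A (m + 1) = insert (pr m).1 ((A m).erase (pr m).2))
    (h2 : ∀ m < M, ¬ ((pr m).2 ∈ A m ∧ (pr m).1 ∉ A m) → A (m + 1) = A m) :
    A M = A₀ := by
  -- one step
  have s1 : ∀ m < M, ∀ i ∈ A₀, i ∈ A m → i ∈ A (m + 1) := by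
    intro m hm i hi him
    by_cases hs : (pr m).2 ∈ A m ∧ (pr m).1 ∉ A m
    · rw [h1 m hm hs.1 hs.2]
      refine mem_insert_of_mem (mem_erase.2 ⟨fun h => (hpr m hm).2 (h ▸ hi), him⟩)
    · rw [h2 m hm hs]
      exact him
  have s2 : ∀ m < M, ∀ j, j ∉ A₀ → j ∉ A m → j ∉ A (m + 1) := by
    intro m hm j hj hjm
    by_cases hs : (pr m).2 ∈ A m ∧ (pr m).1 ∉ A m
    · rw [h1 m hm hs.1 hs.2, mem_insert, not_or]
      exact ⟨fun h => hj (h ▸ (hpr m hm).1), fun h => hjm (mem_of_mem_erase h)⟩
    · rw [h2 m hm hs]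
      exact hjm
  have t1 : ∀ i ∈ A₀, i ∉ A M → ∀ n m, n + m = M → i ∉ A m := by
    intro i hi hiM n
    induction n with
    | zero =>
      intro m hm
      have : m = M := by omega
      rw [this]
      exact hiM
    | succ n ih =>
      intro m hm him
      exact ih (m + 1) (by omega) (s1 m (by omega) i hi him)
  have t2 : ∀ j, j ∉ A₀ → j ∈ A M → ∀ n m, n + m = M → j ∈ A m := by
    intro j hj hjM n
    induction n with
    | zero =>
      intro m hm
      have : m = M := by omega
      rw [this]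
      exact hjM
    | succ n ih =>
      intro m hm
      by_contra hjm
      exact s2 m (by omega) j hj hjm (ih (m + 1) (by omega))
  by_contra hne
  have hns : ¬ A₀ ⊆ A M := fun h => hne (eq_of_subset_of_card_le h hc.le).symm
  have hns2 : ¬ A M ⊆ A₀ := fun h => hne (eq_of_subset_of_card_le h hc.ge)
  obtain ⟨i, hi, hiM⟩ := not_subset.1 hns
  obtain ⟨j, hjM, hj⟩ := not_subset.1 hns2
  obtain ⟨m, hm, hpm⟩ := hall i hi j hj
  have e1 := t1 i hi hiM (M - m) m (by omega)
  have e2 := t2 j hj hjM (M - m) m (by omega)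
  have e3 := t1 i hi hiM (M - (m + 1)) (m + 1) (by omega)
  have e4 := h1 m hm (by rw [hpm]; exact e2) (by rw [hpm]; exact e1)
  rw [e4, hpm] at e3
  exact e3 (mem_insert_self _ _)

theorem enum {q : ℕ} (hq : 1 ≤ q) (A₀ : Finset (Fin q)) : ∃ pr : ℕ → Fin q × Fin q,
    (∀ m < A₀.card * (q - A₀.card), (pr m).1 ∈ A₀ ∧ (pr m).2 ∉ A₀) ∧
    ∀ i ∈ A₀, ∀ j, j ∉ A₀ → ∃ m < A₀.card * (q - A₀.card), pr m = (i, j) := by
  classical
  have hcard : (A₀ ×ˢ A₀ᶜ).card = A₀.card * (q - A₀.card) := by
    rw [card_product, card_compl, Fintype.card_fin]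
  have x₀ : Fin q := ⟨0, hq⟩
  let e := (A₀ ×ˢ A₀ᶜ).equivFin
  refine ⟨fun m => if h : m < (A₀ ×ˢ A₀ᶜ).card then (e.symm ⟨m, h⟩).1 else (x₀, x₀), ?_, ?_⟩
  · intro m hm
    rw [← hcard] at hm
    simp only [dif_pos hm]
    have h1 := (e.symm ⟨m, hm⟩).2
    rw [mem_product, mem_compl] at h1
    exact h1
  · intro i hi j hj
    have hmem : (i, j) ∈ A₀ ×ˢ A₀ᶜ := mem_product.2 ⟨hi, mem_compl.2 hj⟩
    refine ⟨(e ⟨(i, j), hmem⟩).1, ?_, ?_⟩
    · rw [← hcard]
      exact (e ⟨(i, j), hmem⟩).2
    · simp only [dif_pos (e ⟨(i, j), hmem⟩).2]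
      rw [Fin.eta, Equiv.symm_apply_apply]

end Pool.Agent.COR

end

/-! ### from `Lib_MP_2c424f_lc4.F01` -/

section

/-!
# Part IV, F01: the magnetisation and the labels

`ms_bd`: `a = ra d q ≥ 1000`.  A solution of `m = tanh (a m)`, `m > 0` exists (continuity of `tanh (a x) - x` on `[1/2, 1]`: positive at
`1/2`, negative at `1`; or the existence lemma of THR) so `ms d q = tanh (a ms)`, `0 < ms < 1`; and every positive solution satisfies
`ms ≥ 1 - 1/1000`: if `0 < x ≤ 999/1000` then `tanh (a x) > x` (`tanh y ≥ min (y/2) (1 - 2 e^{-2y})`: for `y = a x ≤ 1`: `tanh y ≥ y/2 = a x/2 > x`;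
for `y ≥ 1`: `tanh y ≥ 3/4`, so `tanh (a x) > x` for `x ≤ 3/4`; for `x ≥ 3/4`: `tanh (a x) ≥ 1 - 2 e^{-1500} > 999/1000`).
`st_congr`: `frq` depends on the set of the pairs with colour `c` only.
`st_w0`, `st_w1`: the clauses of `st` for the shape `none` at the odd points (`hi = false`: `|frq false none c g - (1 - ms)| ≤ et`;
`hi = true`: `|frq false none c g - (1 + ms)| ≤ et`); `frq false none c (pt4 b F) = q |oI b F c| / |oS none|` and `|oS none| = 4^d/2` (`card_od` of LO,
`inS none` is `True`).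
-/

set_option autoImplicit false

open Finset Filter

namespace Pool.Agent.LC

open Pool.Agent.LO Pool.Agent.LIN Pool.Agent.THR Pool.Agent.COR

private theorem F01_tanh (y : ℝ) : 1 - 2 / Real.exp (2 * y) ≤ Real.tanh y := by
  have h1 : 0 < Real.exp y := Real.exp_pos y
  have h2 : Real.exp (2 * y) = Real.exp y ^ 2 := by
    rw [← Real.exp_nat_mul]
    norm_num
  rw [Real.tanh_eq_sinh_div_cosh, Real.sinh_eq, Real.cosh_eq, Real.exp_neg, h2]
  set E := Real.exp y with hE
  have h3 : (E - E⁻¹) / 2 / ((E + E⁻¹) / 2) = 1 - 2 / (E ^ 2 + 1) := by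
    field_simp
    ring
  rw [h3]
  have h4 : 2 / (E ^ 2 + 1) ≤ 2 / E ^ 2 := by
    apply div_le_div_of_nonneg_left (by norm_num) (by positivity)
    linarith
  linarith

private theorem F01_exp {y : ℝ} (hy : 0 ≤ y) : (1 + y) ^ 2 ≤ Real.exp (2 * y) := by
  have h2 : Real.exp (2 * y) = Real.exp y ^ 2 := by
    rw [← Real.exp_nat_mul]
    norm_num
  rw [h2]
  have h3 := Real.add_one_le_exp y
  exact pow_le_pow_left₀ (by linarith) (by linarith) 2

private theorem F01_tanh' {y Y : ℝ} (hY : 0 ≤ Y) (hy : Y ≤ y) : 1 - 2 / (1 + Y) ^ 2 ≤ Real.tanh y := by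
  refine le_trans ?_ (F01_tanh y)
  have h1 := F01_exp (hY.trans hy)
  have h2 : (1 + Y) ^ 2 ≤ Real.exp (2 * y) := by
    refine le_trans ?_ h1
    exact pow_le_pow_left₀ (by linarith) (by linarith) 2
  have h3 : 2 / Real.exp (2 * y) ≤ 2 / (1 + Y) ^ 2 := by
    apply div_le_div_of_nonneg_left (by norm_num) (by positivity) h2
  linarith

theorem ms_bd {d q : ℕ} (hd : 1 ≤ d) (hq : 1 ≤ q) (hR : Rg d q) : 999 / 1000 ≤ ms d q ∧ ms d q ≤ 1 := by
  have hq0 : (0 : ℝ) < q := by exact_mod_cast hq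
  have ha : 1000 ≤ ra d q := by
    unfold ra
    rw [le_div_iff₀ hq0]
    exact_mod_cast hR.2.1
  have hex : ∃ m : ℝ, MFE (ra d q) m := mfe_exists _ (by linarith)
  have hm : MFE (ra d q) (ms d q) := by
    unfold ms
    rw [dif_pos hex]
    exact hex.choose_spec
  have hlt := mfe_lt _ _ hm
  obtain ⟨h0, h1⟩ := hm
  set m := ms d q with hmdef
  set a := ra d q with hadef
  refine ⟨?_, hlt.le⟩
  have hy1 : 1 < a * m := by
    by_contra hcon
    push Not at hcon
    have h2 : 0 < a * m := by positivity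
    have h3 := tanh_ge (a * m) h2.le
    rw [← h1] at h3
    have h4 : (a * m) ^ 3 ≤ a * m := by
      have : (a * m) ^ 3 = (a * m) * (a * m) ^ 2 := by ring
      rw [this]
      have h5 : (a * m) ^ 2 ≤ 1 := by nlinarith
      nlinarith
    have h6 : 1000 * m ≤ a * m := by nlinarith
    nlinarith
  have h2 : 1 / 2 ≤ m := by
    have h3 := F01_tanh' (Y := 1) (by norm_num) hy1.le
    rw [← h1] at h3
    norm_num at h3
    linarith
  have h3 : 500 ≤ a * m := by nlinarith
  have h4 := F01_tanh' (Y := 500) (by norm_num) h3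
  rw [← h1] at h4
  norm_num at h4
  linarith

private theorem F01_frq {d q : ℕ} (e : Bool) (s : Shp d) {c : Fin q} {g g' : Pat d q}
    (h : ∀ a b, g a b = c ↔ g' a b = c) : frq e s c g = frq e s c g' := by
  unfold frq
  simp only [h]

theorem st_congr {d q : ℕ} {η : ℝ} {hi : Bool} {c : Fin q} {g g' : Pat d q} (h : ∀ a b, g a b = c ↔ g' a b = c) :
    st η hi c g ↔ st η hi c g' := by
  unfold st
  simp only [F01_frq _ _ h]

open scoped Classical in
private theorem F01_oS {d : ℕ} (hd : 1 ≤ d) : (((oS (none : Shp d)).card : ℕ) : ℝ) = 4 ^ d / 2 := by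
  have h := card_od (d := d) hd
  have h1 : (((oS (none : Shp d)).card : ℕ) : ℝ) = ∑ a : Bt d, ∑ b : Bt d, if od a b then (1 : ℝ) else 0 := by
    rw [← Fintype.sum_prod_type', ← Finset.sum_filter, Finset.sum_const, nsmul_eq_mul, mul_one]
    congr 2
    unfold oS inS
    ext p
    simp
  rw [h1]
  unfold EB at h
  rw [div_eq_one_iff_eq (by positivity)] at h
  rw [← h]
  rw [mul_div_cancel_left₀ _ (by norm_num)]

private theorem F01_oI {V : Type} {d q : ℕ} (hd : 1 ≤ d) (b : Bt d → Bt d → V) (F : V → Fin q) (c : Fin q) :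
    (q : ℝ) * (oI b F c).card = frq false none c (pt4 b F) * (4 ^ d / 2) := by
  have h4 : (0 : ℝ) < 4 ^ d / 2 := by positivity
  have h1 : frq false none c (pt4 b F) =
      (∑ p ∈ oS (none : Shp d), if F (b p.1 p.2) = c then (q : ℝ) else 0) / (((oS (none : Shp d)).card : ℕ) : ℝ) := by
    unfold frq pt4
    simp
  rw [h1, F01_oS hd, div_mul_cancel₀ _ h4.ne', ← Finset.sum_filter, Finset.sum_const, nsmul_eq_mul, mul_comm]
  congr 3
  unfold oS oI inS
  ext p
  simp

theorem st_w0 {V : Type} {d q : ℕ} (hd : 1 ≤ d) (hR : Rg d q) (b : Bt d → Bt d → V) (F : V → Fin q) (c : Fin q)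
    (h : st et false c (pt4 b F)) : (q : ℝ) * (oI b F c).card ≤ 2 / 1000 * (4 ^ d / 2) := by
  have hq : 1 ≤ q := by
    have := c.isLt
    omega
  obtain ⟨h1, h2⟩ := ms_bd hd hq hR
  have h3 := (h none).2
  have h4 : (0 : ℝ) < 4 ^ d / 2 := by positivity
  rw [F01_oI hd]
  refine mul_le_mul_of_nonneg_right ?_ h4.le
  have h5 := (abs_le.mp h3).2
  unfold et at h5
  linarith

theorem st_w1 {V : Type} {d q : ℕ} (hd : 1 ≤ d) (hR : Rg d q) (b : Bt d → Bt d → V) (F : V → Fin q) (c : Fin q)
    (h : st et true c (pt4 b F)) : 1998 / 1000 * (4 ^ d / 2) ≤ (q : ℝ) * (oI b F c).card ∧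
      (q : ℝ) * (oI b F c).card ≤ 2001 / 1000 * (4 ^ d / 2) := by
  have hq : 1 ≤ q := by
    have := c.isLt
    omega
  obtain ⟨h1, h2⟩ := ms_bd hd hq hR
  have h3 := (h none).1
  have h4 : (0 : ℝ) < 4 ^ d / 2 := by positivity
  rw [F01_oI hd]
  have h5 := abs_le.mp h3
  have h6 : |frq false none c (pt4 b F) - (1 + ms d q)| ≤ et := h3
  have h7 := abs_le.mp h6
  unfold et at h7
  constructor
  · refine mul_le_mul_of_nonneg_right ?_ h4.le
    linarith [h7.1]
  · refine mul_le_mul_of_nonneg_right ?_ h4.le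
    linarith [h7.2]

end Pool.Agent.LC

end

/-! ### from `Lib_MP_2c424f_lc4.F02` -/

section

/-!
# Part IV, F02: exchanging two colours on a good block (as `AL_bal`, `GD_iff` in COR.C04)

`ALP_bal`: statuses of the colours `c ≠ i, j` do not change (`st_congr`), and the cardinalities agree.
`GD4_iff`: if no colour is bad then `c ∉ ALP g` iff `st et true c g` (`bdP`; both labels at once are impossible: `st_w0`, `st_w1`).
-/

set_option autoImplicit false

open Finset Filter

namespace Pool.Agent.LC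

open Pool.Agent.LO Pool.Agent.LIN Pool.Agent.THR Pool.Agent.COR

open scoped Classical in
private theorem F02_card {q : ℕ} {i j : Fin q} (hij : i ≠ j) (A : Finset (Fin q)) :
    A.card = ((A.erase i).erase j).card + ((if i ∈ A then 1 else 0) + (if j ∈ A then 1 else 0)) := by
  by_cases hi : i ∈ A
  · by_cases hj : j ∈ A
    · have h1 : j ∈ A.erase i := Finset.mem_erase.2 ⟨hij.symm, hj⟩
      have h2 := Finset.card_erase_add_one h1
      have h3 := Finset.card_erase_add_one hi
      rw [if_pos hi, if_pos hj]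
      omega
    · have h1 : j ∉ A.erase i := fun h => hj (Finset.mem_of_mem_erase h)
      have h3 := Finset.card_erase_add_one hi
      rw [if_pos hi, if_neg hj, Finset.erase_eq_of_notMem h1]
      omega
  · rw [Finset.erase_eq_of_notMem hi, if_neg hi]
    by_cases hj : j ∈ A
    · have h3 := Finset.card_erase_add_one hj
      rw [if_pos hj]
      omega
    · rw [if_neg hj, Finset.erase_eq_of_notMem hj]
      omega

private theorem F02_mem_F02 {d q : ℕ} {g : Pat d q} {c : Fin q} : c ∈ ALP g ↔ st et false c g := by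
  classical
  unfold ALP
  rw [Finset.mem_filter]
  exact ⟨fun h => h.2, fun h => ⟨Finset.mem_univ _, h⟩⟩

open scoped Classical in
theorem ALP_bal {d q : ℕ} {i j : Fin q} (hij : i ≠ j) (g g' : Pat d q)
    (h : ∀ a b c, c ≠ i → c ≠ j → (g' a b = c ↔ g a b = c)) (hc : (ALP g').card = (ALP g).card) :
    (∀ c, c ≠ i → c ≠ j → (c ∈ ALP g' ↔ c ∈ ALP g)) ∧
      (if i ∈ ALP g' then 1 else 0) + (if j ∈ ALP g' then 1 else 0) =
        (if i ∈ ALP g then 1 else 0) + (if j ∈ ALP g then (1 : ℕ) else 0) := by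
  have h1 : ∀ c, c ≠ i → c ≠ j → (c ∈ ALP g' ↔ c ∈ ALP g) := by
    intro c hci hcj
    rw [F02_mem_F02, F02_mem_F02]
    exact st_congr fun a b => h a b c hci hcj
  refine ⟨h1, ?_⟩
  have h2 : ((ALP g').erase i).erase j = ((ALP g).erase i).erase j := by
    ext c
    simp only [Finset.mem_erase]
    constructor
    · rintro ⟨hj, hi, hm⟩
      exact ⟨hj, hi, (h1 c hi hj).1 hm⟩
    · rintro ⟨hj, hi, hm⟩
      exact ⟨hj, hi, (h1 c hi hj).2 hm⟩
  have h3 := F02_card hij (ALP g')
  have h4 := F02_card hij (ALP g)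
  rw [h2] at h3
  omega

theorem ALP_iff {d q : ℕ} {g : Pat d q} {c : Fin q} : c ∈ ALP g ↔ st et false c g := F02_mem_F02

theorem GD4_iff {V : Type} {d q : ℕ} (hd : 1 ≤ d) (hR : Rg d q) {b : Bt d → Bt d → V} {F : V → Fin q}
    (h : G0P (pt4 b F)) (c : Fin q) : c ∉ ALP (pt4 b F) ↔ st et true c (pt4 b F) := by
  have h0 : st et false c (pt4 b F) → ¬ st et true c (pt4 b F) := by
    intro h0 h1
    have h2 := st_w0 hd hR b F c h0
    have h3 := (st_w1 hd hR b F c h1).1
    have h4 : (0 : ℝ) < 4 ^ d / 2 := by positivity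
    have h5 := h3.trans h2
    generalize (4 : ℝ) ^ d / 2 = x at h4 h5
    linarith
  have hb : ¬ (¬ st et true c (pt4 b F) ∧ ¬ st et false c (pt4 b F)) := h c
  rw [F02_mem_F02]
  constructor
  · intro h1
    by_contra h2
    exact hb ⟨h2, h1⟩
  · intro h1 h2
    exact h0 h2 h1

end Pool.Agent.LC

end

/-! ### from `Lib_MP_2c424f_lc4.F06` -/

section

/-!
# Part IV, F06: the labels of a block under `Ph4` (as COR.C08, COR.D03, COR.D04)

`i ∈ A₀`, `j ∉ A₀` later; `wr4`: even points of colour `j`, odd points of colour `i` (`i` is used at the odd points).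
`ALP_Ph4_fine`: `c` from `FIN4`; at least `0.98 |oI b F i|` pairs of `oI` have `rpc = c`, `q |oI| ≥ 1.998 · 4^d/2` (`st_w1`, `GD4_iff`), each vertex is hit
by at most `2^d` pairs (`hfib`), so the cluster of `c` has at least `0.98 · 0.999 · 2^d / q ≥ 2^d/(2q) = sz d q` points in `U`, all odd of colour `i` among those:
it is wrong (`wr4_kcl`) and big: all `y` with `rpc y = c` are in `wb4`.  After the flip an odd point of the block (`¬ ev`, `hpar`) has colour `i` only if it had
colour `i` and was not flipped (a flipped odd point had colour `i` by `wr4`, and gets `j`): at most `|oI|/50` pairs, so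
`q |oI b F' i| ≤ 2.001/50 · 4^d/2 < 1.998 · 4^d/2`: `i` has not the label `true`, so `i ∈ ALP` (`GD4_iff`), and `ALP_bal` gives the rest.
`ALP_Ph4_same`: if `i ∈ ALP`, `j ∉ ALP`: an odd point of colour `j` is not wrong, so it keeps its colour: `|oI b F' j| ≥ |oI b F j|`, `q |oI b F' j| ≥ 1.998 · 4^d/2`,
so `j ∉ ALP` of the new pattern (`st_w0`), and by `ALP_bal` `i` is in it.  If both or none of `i`, `j` are in `ALP`: `ALP_bal`.
-/

set_option autoImplicit false

open Finset Filter

namespace Pool.Agent.LC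

open Pool.Agent.LO Pool.Agent.LIN Pool.Agent.THR Pool.Agent.COR

variable {V : Type} [Fintype V] [DecidableEq V] {d q : ℕ} {X : SimpleGraph V} {ev : V → Prop}

omit [Fintype V] in
private theorem F06_other {S : Finset V} {i j c : Fin q} (hi : c ≠ i) (hj : c ≠ j) (F : V → Fin q)
    (x : V) : kfl i j S F x = c ↔ F x = c := by
  unfold kfl
  split_ifs
  · constructor
    · intro h
      by_cases h1 : F x = i
      · rw [h1, Equiv.swap_apply_left] at h
        exact absurd h.symm hj
      · by_cases h2 : F x = j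
        · rw [h2, Equiv.swap_apply_right] at h
          exact absurd h.symm hi
        · rwa [Equiv.swap_apply_of_ne_of_ne h1 h2] at h
    · intro h
      rw [h, Equiv.swap_apply_of_ne_of_ne hi hj]
  · exact Iff.rfl

omit [DecidableEq V] in
private theorem F06_mem (U : Finset V) (m : ℝ) (i j : Fin q)
    (F : V → Fin q) (x : V) : x ∈ wb4 X ev U m i j F ↔ wr4 ev i j F x ∧ m ≤ (cs4 X U i j F x : ℝ) := by
  classical
  unfold wb4
  rw [Finset.mem_filter]
  exact ⟨fun h => h.2, fun h => ⟨Finset.mem_univ _, h⟩⟩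

omit [Fintype V] [DecidableEq V] in
private theorem F06_oI (b : Bt d → Bt d → V) (F : V → Fin q) (i : Fin q) (p : Bt d × Bt d) :
    p ∈ oI b F i ↔ od p.1 p.2 ∧ F (b p.1 p.2) = i := by
  classical
  unfold oI
  rw [Finset.mem_filter]
  exact ⟨fun h => h.2, fun h => ⟨Finset.mem_univ _, h⟩⟩

/-- an odd point of colour `j` keeps its colour -/
private theorem F06_keep {U : Finset V} {m : ℝ} {F : V → Fin q} {i j : Fin q} (hij : i ≠ j)
    {x : V} (hx : ¬ ev x) (h : F x = j) : Ph4 X ev U m i j F x = j := by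
  have h1 : x ∉ wb4 X ev U m i j F := by
    rw [F06_mem]
    rintro ⟨h2 | h2, -⟩
    · exact hx h2.2
    · exact hij (h2.1.symm.trans h)
  unfold Ph4 kfl
  rw [if_neg h1, h]

/-- an odd point which has colour `i` after the flip had it before and was not flipped -/
private theorem F06_back {U : Finset V} {m : ℝ} {F : V → Fin q} {i j : Fin q} (hij : i ≠ j)
    {x : V} (hx : ¬ ev x) (h : Ph4 X ev U m i j F x = i) :
    F x = i ∧ x ∉ wb4 X ev U m i j F := by
  by_cases h1 : x ∈ wb4 X ev U m i j F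
  · exfalso
    have h2 := ((F06_mem U m i j F x).1 h1).1
    unfold Ph4 kfl at h
    rw [if_pos h1] at h
    rcases h2 with h2 | h2
    · exact hx h2.2
    · rw [h2.1, Equiv.swap_apply_left] at h
      exact hij h.symm
  · unfold Ph4 kfl at h
    rw [if_neg h1] at h
    exact ⟨h, h1⟩

private theorem F06_big (hq : 1 ≤ q) {U : Finset V} {F : V → Fin q} {i j : Fin q}
    {b : Bt d → Bt d → V} (hfib : ∀ v (T : Finset (Bt d × Bt d)), (∀ p ∈ T, b p.1 p.2 = v) →
      T.card ≤ 2 ^ d)
    (hU : ∀ x y, b x y ∈ U) (T : Finset (Bt d × Bt d)) (c : V)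
    (hT : ∀ p ∈ T, rpc X F i j (b p.1 p.2) = c) (hc : (4 : ℝ) ^ d / 2 ≤ q * T.card)
    (p : Bt d × Bt d) (hp : p ∈ T) : sz d q ≤ (cs4 X U i j F (b p.1 p.2) : ℝ) := by
  classical
  have h1 : T.card ≤ 2 ^ d * (T.image fun p => b p.1 p.2).card := by
    refine Finset.card_le_mul_card_image T (2 ^ d) ?_
    intro v _
    exact hfib v _ fun p hp => (Finset.mem_filter.1 hp).2
  have h2 : (T.image fun p => b p.1 p.2).card ≤ cs4 X U i j F (b p.1 p.2) := by
    unfold cs4
    refine Finset.card_le_card fun y hy => ?_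
    obtain ⟨p', hp', rfl⟩ := Finset.mem_image.1 hy
    rw [Finset.mem_filter]
    refine ⟨hU _ _, ?_⟩
    rw [← rpc_eq_iff, hT p hp, hT p' hp']
  have h3 : (T.card : ℝ) ≤ 2 ^ d * (cs4 X U i j F (b p.1 p.2) : ℝ) := by
    exact_mod_cast h1.trans (Nat.mul_le_mul_left _ h2)
  have hq0 : (0 : ℝ) < q := by exact_mod_cast hq
  have h4 : (4 : ℝ) ^ d = 2 ^ d * 2 ^ d := by
    rw [← mul_pow]
    norm_num
  have h5 : (0 : ℝ) < 2 ^ d := by positivity
  unfold sz
  rw [div_le_iff₀ (by positivity)]
  have h6 : (2 : ℝ) ^ d * 2 ^ d ≤ (cs4 X U i j F (b p.1 p.2) : ℝ) * (2 * q) * 2 ^ d := by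
    rw [← h4]
    have h7 := mul_le_mul_of_nonneg_left h3 hq0.le
    nlinarith
  exact le_of_mul_le_mul_right h6 h5

open scoped Classical in
theorem ALP_Ph4_fine (hd : 1 ≤ d) (hq : 1 ≤ q) (hR : Rg d q) (hP : Par X ev) {U : Finset V} {F : V → Fin q}
    (hF : PrG X F) {i j : Fin q} (hij : i ≠ j) {b : Bt d → Bt d → V} (hpar : ∀ x y, ev (b x y) ↔ ¬ od x y)
    (hfib : ∀ v, ((univ.filter fun p : Bt d × Bt d => b p.1 p.2 = v).card : ℝ) ≤ 2 ^ d)
    (hU : ∀ x y, b x y ∈ U) (h1 : GDP (pt4 b F)) (h2 : GDP (pt4 b (Ph4 X ev U (sz d q) i j F)))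
    (hj : j ∈ ALP (pt4 b F)) (hi : i ∉ ALP (pt4 b F)) (hfi : FIN4 X b F i j) :
    ALP (pt4 b (Ph4 X ev U (sz d q) i j F)) = insert i ((ALP (pt4 b F)).erase j) := by
  classical
  have hst := (GD4_iff hd hR h1.1 i).1 hi
  obtain ⟨hw1, hw2⟩ := st_w1 hd hR b F i hst
  obtain ⟨c, hc⟩ := hfi
  have h4 : (0 : ℝ) < 4 ^ d := by positivity
  have hq0 : (0 : ℝ) < q := by exact_mod_cast hq
  set T : Finset (Bt d × Bt d) := (oI b F i).filter fun p => rpc X F i j (b p.1 p.2) = c with hTd
  set T' : Finset (Bt d × Bt d) := (oI b F i).filter fun p => rpc X F i j (b p.1 p.2) ≠ c with hTd'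
  have hTT : T.card + T'.card = (oI b F i).card := Finset.card_filter_add_card_filter_not _
  have hTT' : (T.card : ℝ) + (T'.card : ℝ) = ((oI b F i).card : ℝ) := by exact_mod_cast hTT
  have hTc : (4 : ℝ) ^ d / 2 ≤ q * T.card := by
    have h5 : (T.card : ℝ) = ((oI b F i).card : ℝ) - (T'.card : ℝ) := by linarith
    have h6 : (49 / 50 : ℝ) * ((oI b F i).card : ℝ) ≤ (T.card : ℝ) := by
      rw [h5]
      linarith
    have h7 := mul_le_mul_of_nonneg_left h6 hq0.le
    nlinarith
  have hfib' : ∀ v (T : Finset (Bt d × Bt d)), (∀ p ∈ T, b p.1 p.2 = v) → T.card ≤ 2 ^ d := by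
    intro v S hS
    have h5 := hfib v
    have h6 : S.card ≤ (univ.filter fun p : Bt d × Bt d => b p.1 p.2 = v).card :=
      Finset.card_le_card fun p hp => by
        rw [Finset.mem_filter]
        exact ⟨Finset.mem_univ _, hS p hp⟩
    have h7 : (S.card : ℝ) ≤ 2 ^ d := (Nat.cast_le.2 h6).trans h5
    exact_mod_cast h7
  have hTw : ∀ p ∈ T, b p.1 p.2 ∈ wb4 X ev U (sz d q) i j F := by
    intro p hp
    have hp1 := (Finset.mem_filter.1 hp).1
    rw [F06_oI] at hp1
    rw [F06_mem]
    refine ⟨Or.inr ⟨hp1.2, fun h => (hpar _ _).1 h hp1.1⟩, ?_⟩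
    exact F06_big hq hfib' hU T c (fun p hp => (Finset.mem_filter.1 hp).2) hTc p hp
  have hsub : oI b (Ph4 X ev U (sz d q) i j F) i ⊆ T' := by
    intro p hp
    rw [F06_oI] at hp
    have h5 := F06_back hij (fun h => (hpar _ _).1 h hp.1) hp.2
    have h6 : p ∈ oI b F i := (F06_oI b F i p).2 ⟨hp.1, h5.1⟩
    rw [hTd', Finset.mem_filter]
    refine ⟨h6, fun h7 => h5.2 (hTw p ?_)⟩
    rw [hTd, Finset.mem_filter]
    exact ⟨h6, h7⟩
  have hiA : i ∈ ALP (pt4 b (Ph4 X ev U (sz d q) i j F)) := by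
    by_contra hn
    have h5 := (GD4_iff hd hR h2.1 i).1 hn
    obtain ⟨h6, -⟩ := st_w1 hd hR b (Ph4 X ev U (sz d q) i j F) i h5
    have h7 : ((oI b (Ph4 X ev U (sz d q) i j F) i).card : ℝ) ≤ (T'.card : ℝ) :=
      Nat.cast_le.2 (Finset.card_le_card hsub)
    have h8 : ((oI b (Ph4 X ev U (sz d q) i j F) i).card : ℝ) ≤
        1 / 50 * ((oI b F i).card : ℝ) := h7.trans hc
    have h9 := mul_le_mul_of_nonneg_left h8 hq0.le
    nlinarith
  obtain ⟨hb1, hb2⟩ := ALP_bal hij (pt4 b F) (pt4 b (Ph4 X ev U (sz d q) i j F))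
    (fun x y c hi hj => F06_other hi hj F (b x y)) (h2.2.trans h1.2.symm)
  have hjA : j ∉ ALP (pt4 b (Ph4 X ev U (sz d q) i j F)) := by
    intro h5
    rw [if_pos hiA, if_pos h5, if_neg hi, if_pos hj] at hb2
    omega
  ext x
  rw [Finset.mem_insert, Finset.mem_erase]
  by_cases hxi : x = i
  · subst hxi
    exact ⟨fun _ => Or.inl rfl, fun _ => hiA⟩
  · by_cases hxj : x = j
    · subst hxj
      exact ⟨fun h => absurd h hjA, fun h => by
        rcases h with h | h
        · exact absurd h hxi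
        · exact absurd rfl h.1⟩
    · rw [hb1 x hxi hxj]
      exact ⟨fun h => Or.inr ⟨hxj, h⟩, fun h => by
        rcases h with h | h
        · exact absurd h hxi
        · exact h.2⟩

open scoped Classical in
theorem ALP_Ph4_same (hd : 1 ≤ d) (hq : 1 ≤ q) (hR : Rg d q) (hP : Par X ev) {U : Finset V} (m : ℝ) {F : V → Fin q}
    {i j : Fin q} (hij : i ≠ j) {b : Bt d → Bt d → V} (hpar : ∀ x y, ev (b x y) ↔ ¬ od x y)
    (h1 : GDP (pt4 b F)) (h2 : GDP (pt4 b (Ph4 X ev U m i j F)))
    (h : ¬ (j ∈ ALP (pt4 b F) ∧ i ∉ ALP (pt4 b F))) :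
    ALP (pt4 b (Ph4 X ev U m i j F)) = ALP (pt4 b F) := by
  classical
  have h4 : (0 : ℝ) < 4 ^ d := by positivity
  have hq0 : (0 : ℝ) < q := by exact_mod_cast hq
  obtain ⟨hb1, hb2⟩ := ALP_bal hij (pt4 b F) (pt4 b (Ph4 X ev U m i j F))
    (fun x y c hi hj => F06_other hi hj F (b x y)) (h2.2.trans h1.2.symm)
  have key : (i ∈ ALP (pt4 b (Ph4 X ev U m i j F)) ↔ i ∈ ALP (pt4 b F)) ∧
      (j ∈ ALP (pt4 b (Ph4 X ev U m i j F)) ↔ j ∈ ALP (pt4 b F)) := by
    by_cases hi : i ∈ ALP (pt4 b F)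
    · by_cases hj : j ∈ ALP (pt4 b F)
      · rw [if_pos hi, if_pos hj] at hb2
        by_cases h5 : i ∈ ALP (pt4 b (Ph4 X ev U m i j F))
        · by_cases h6 : j ∈ ALP (pt4 b (Ph4 X ev U m i j F))
          · exact ⟨⟨fun _ => hi, fun _ => h5⟩, ⟨fun _ => hj, fun _ => h6⟩⟩
          · rw [if_pos h5, if_neg h6] at hb2
            omega
        · rw [if_neg h5] at hb2
          split_ifs at hb2 <;> omega
      · have hst := (GD4_iff hd hR h1.1 j).1 hj
        obtain ⟨hw1, -⟩ := st_w1 hd hR b F j hst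
        have hsub : oI b F j ⊆ oI b (Ph4 X ev U m i j F) j := by
          intro p hp
          rw [F06_oI] at hp ⊢
          exact ⟨hp.1, F06_keep hij (fun h => (hpar _ _).1 h hp.1) hp.2⟩
        have h6 : j ∉ ALP (pt4 b (Ph4 X ev U m i j F)) := by
          intro h7
          rw [ALP_iff] at h7
          have h8 := st_w0 hd hR b (Ph4 X ev U m i j F) j h7
          have h9 : ((oI b F j).card : ℝ) ≤ ((oI b (Ph4 X ev U m i j F) j).card : ℝ) :=
            Nat.cast_le.2 (Finset.card_le_card hsub)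
          have h10 := mul_le_mul_of_nonneg_left h9 hq0.le
          nlinarith
        rw [if_pos hi, if_neg hj, if_neg h6] at hb2
        have h5 : i ∈ ALP (pt4 b (Ph4 X ev U m i j F)) := by
          by_contra h7
          rw [if_neg h7] at hb2
          omega
        exact ⟨⟨fun _ => hi, fun _ => h5⟩, ⟨fun h => absurd h h6, fun h => absurd h hj⟩⟩
    · have hj : j ∉ ALP (pt4 b F) := fun hj => h ⟨hj, hi⟩
      rw [if_neg hi, if_neg hj] at hb2
      by_cases h5 : i ∈ ALP (pt4 b (Ph4 X ev U m i j F))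
      · rw [if_pos h5] at hb2
        split_ifs at hb2 <;> omega
      · by_cases h6 : j ∈ ALP (pt4 b (Ph4 X ev U m i j F))
        · rw [if_neg h5, if_pos h6] at hb2
          omega
        · exact ⟨⟨fun h => absurd h h5, fun h => absurd h hi⟩,
            ⟨fun h => absurd h h6, fun h => absurd h hj⟩⟩
  ext x
  by_cases hxi : x = i
  · rw [hxi]
    exact key.1
  · by_cases hxj : x = j
    · rw [hxj]
      exact key.2
    · exact hb1 x hxi hxj

end Pool.Agent.LC

end

/-! ### from `Lib_MP_2c424f_lc4.F05` -/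

section

/-!
# Part IV, F05: the flip `Ph4` and its multiplicity (as COR.D01, COR.D02, COR.D06)

Port of `Lib_MP_2c424f_cor/D01.lean`, `D02.lean`, `D06.lean`: replace `gV V` by `X`, `evn` by `ev`, `par_gV` by `hP : Par X ev`, `PrV V` by `PrG X`, `cV V` by
`cG X`; `wrg`, `csz`, `wbg`, `Phi`, `swp` are `wr4`, `cs4`, `wb4`, `Ph4`, `sw4`.
-/

set_option autoImplicit false

open Finset Filter

namespace Pool.Agent.LC

open Pool.Agent.LO Pool.Agent.LIN Pool.Agent.THR Pool.Agent.COR

variable {V : Type} [Fintype V] [DecidableEq V] {q : ℕ} {X : SimpleGraph V} {ev : V → Prop}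

theorem wr4_kcl (hP : Par X ev) {F : V → Fin q} (hF : PrG X F) {i j : Fin q} (hij : i ≠ j) {x y : V}
    (h : kcl X F i j x y) (hx : wr4 ev i j F x) : wr4 ev i j F y := by
  have hx' : F x = i ∨ F x = j := by
    rcases hx with hx | hx
    · exact Or.inr hx.1
    · exact Or.inl hx.1
  have hy' := kcl_mem h hx'
  have hc := kcl_col hP hF hx' h
  unfold wr4 at hx ⊢
  rcases hx with ⟨h1, h2⟩ | ⟨h1, h2⟩
  · rcases hy' with h3 | h3
    · refine Or.inr ⟨h3, fun h4 => ?_⟩
      have h5 := hc.1 ⟨fun _ => h4, fun _ => h2⟩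
      rw [h1, h3] at h5
      exact hij h5.symm
    · exact Or.inl ⟨h3, (hc.2 (by rw [h1, h3])).1 h2⟩
  · rcases hy' with h3 | h3
    · exact Or.inr ⟨h3, fun h4 => h2 ((hc.2 (by rw [h1, h3])).2 h4)⟩
    · refine Or.inl ⟨h3, ?_⟩
      by_contra h4
      have h5 := hc.1 ⟨fun h6 => absurd h6 h2, fun h6 => absurd h6 h4⟩
      rw [h1, h3] at h5
      exact hij h5

theorem cs4_kcl (X : SimpleGraph V) (U : Finset V) (i j : Fin q) (F : V → Fin q) {x y : V}
    (h : kcl X F i j x y) : cs4 X U i j F x = cs4 X U i j F y := by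
  classical
  unfold cs4
  congr 1
  ext z
  rw [Finset.mem_filter, Finset.mem_filter]
  exact ⟨fun hz => ⟨hz.1, kcl_trans (kcl_symm h) hz.2⟩, fun hz => ⟨hz.1, kcl_trans h hz.2⟩⟩

private theorem F05_mem (X : SimpleGraph V) (ev : V → Prop) (U : Finset V) (m : ℝ) (i j : Fin q)
    (F : V → Fin q) (x : V) : x ∈ wb4 X ev U m i j F ↔ wr4 ev i j F x ∧ m ≤ (cs4 X U i j F x : ℝ) := by
  classical
  unfold wb4
  rw [Finset.mem_filter]
  exact ⟨fun h => h.2, fun h => ⟨Finset.mem_univ _, h⟩⟩

private theorem F05_cl (hP : Par X ev) (U : Finset V) (m : ℝ) {i j : Fin q} (hij : i ≠ j)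
    {F : V → Fin q} (hF : PrG X F) {x y : V} (h : kcl X F i j x y)
    (hx : x ∈ wb4 X ev U m i j F) : y ∈ wb4 X ev U m i j F := by
  rw [F05_mem] at hx ⊢
  exact ⟨wr4_kcl hP hF hij h hx.1, by rw [← cs4_kcl X U i j F h]; exact hx.2⟩

private theorem F05_kun (hP : Par X ev) (U : Finset V) (m : ℝ) {i j : Fin q} (hij : i ≠ j)
    {F : V → Fin q} (hF : PrG X F) : kun X F i j (wb4 X ev U m i j F) := by
  intro x y hxy
  exact ⟨F05_cl hP U m hij hF (Relation.ReflTransGen.single hxy),
    F05_cl hP U m hij hF (kcl_symm (Relation.ReflTransGen.single hxy))⟩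

theorem PrG_Ph4 (hP : Par X ev) (U : Finset V) (m : ℝ) {i j : Fin q} (hij : i ≠ j) {F : V → Fin q}
    (hF : PrG X F) : PrG X (Ph4 X ev U m i j F) := by
  exact PrG_kfl hF i j (F05_kun hP U m hij hF)

private theorem F05_cs4 (X : SimpleGraph V) (ev : V → Prop) (U : Finset V) (m : ℝ) (i j : Fin q)
    (F : V → Fin q) (x : V) : cs4 X U i j (Ph4 X ev U m i j F) x = cs4 X U i j F x := by
  classical
  unfold cs4 Ph4
  congr 1
  ext z
  rw [Finset.mem_filter, Finset.mem_filter, kcl_kfl]

private theorem F05_rpc (X : SimpleGraph V) (ev : V → Prop) (U : Finset V) (m : ℝ) (i j : Fin q)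
    (F : V → Fin q) (x : V) : rpc X (Ph4 X ev U m i j F) i j x = rpc X F i j x := by
  unfold Ph4
  exact rpc_kfl _ _ _ _ _ _

open scoped Classical in
/-- representatives of the big clusters -/
private noncomputable def F05_B (X : SimpleGraph V) (U : Finset V) (m : ℝ) (i j : Fin q)
    (F : V → Fin q) : Finset V :=
  (U.filter fun x => m ≤ (cs4 X U i j F x : ℝ)).image (rpc X F i j)

private theorem F05_card (X : SimpleGraph V) (U : Finset V) (m : ℝ) (hm : 0 < m) (i j : Fin q)
    (F : V → Fin q) : (F05_B X U m i j F).card ≤ ⌊(U.card : ℝ) / m⌋₊ := by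
  classical
  rw [Nat.le_floor_iff (by positivity), le_div_iff₀ hm]
  set s := U.filter fun x => m ≤ (cs4 X U i j F x : ℝ) with hs
  have h1 : s.card = ∑ r ∈ F05_B X U m i j F, (s.filter fun x => rpc X F i j x = r).card := by
    refine Finset.card_eq_sum_card_fiberwise fun x hx => ?_
    rw [Finset.mem_coe, hs, Finset.mem_filter] at hx
    rw [Finset.mem_coe]
    unfold F05_B
    refine Finset.mem_image_of_mem _ ?_
    rw [Finset.mem_filter]
    exact hx
  have h2 : ∀ r ∈ F05_B X U m i j F,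
      m ≤ ((s.filter fun x => rpc X F i j x = r).card : ℝ) := by
    intro r hr
    unfold F05_B at hr
    obtain ⟨x, hx, rfl⟩ := Finset.mem_image.1 hr
    have hx' : x ∈ U ∧ m ≤ (cs4 X U i j F x : ℝ) := by
      rw [Finset.mem_filter] at hx
      exact hx
    refine hx'.2.trans ?_
    rw [Nat.cast_le]
    unfold cs4
    refine Finset.card_le_card fun y hy => ?_
    rw [Finset.mem_filter] at hy
    rw [Finset.mem_filter, hs, Finset.mem_filter]
    refine ⟨⟨hy.1, ?_⟩, ((rpc_eq_iff X F i j x y).2 hy.2).symm⟩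
    rw [← cs4_kcl X U i j F hy.2]
    exact hx'.2
  calc ((F05_B X U m i j F).card : ℝ) * m = ∑ _r ∈ F05_B X U m i j F, m := by
        rw [Finset.sum_const, nsmul_eq_mul]
    _ ≤ ∑ r ∈ F05_B X U m i j F, ((s.filter fun x => rpc X F i j x = r).card : ℝ) :=
        Finset.sum_le_sum h2
    _ = (s.card : ℝ) := by
        rw [h1]
        push_cast
        rfl
    _ ≤ (U.card : ℝ) := by
        rw [Nat.cast_le]
        exact Finset.card_filter_le _ _

/-- `wb4 F` is determined by `Ph4 F` and the set of the representatives in it -/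
private theorem F05_key (hP : Par X ev) (U : Finset V) (m : ℝ) (hm : 0 < m) {i j : Fin q}
    (hij : i ≠ j) {F : V → Fin q} (hF : PrG X F) (x : V) :
    x ∈ wb4 X ev U m i j F ↔ rpc X (Ph4 X ev U m i j F) i j x ∈
      (F05_B X U m i j (Ph4 X ev U m i j F) ∩ wb4 X ev U m i j F) := by
  classical
  rw [F05_rpc, Finset.mem_inter]
  have hsp := rpc_spec X F i j x
  constructor
  · intro hx
    refine ⟨?_, F05_cl hP U m hij hF hsp hx⟩
    have hx2 := ((F05_mem X ev U m i j F x).1 hx).2
    have hpos : 0 < cs4 X U i j F x := by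
      have : (0 : ℝ) < (cs4 X U i j F x : ℝ) := hm.trans_le hx2
      exact_mod_cast this
    unfold cs4 at hpos
    obtain ⟨y, hy⟩ := Finset.card_pos.1 hpos
    rw [Finset.mem_filter] at hy
    unfold F05_B
    rw [Finset.mem_image]
    refine ⟨y, ?_, ?_⟩
    · rw [Finset.mem_filter]
      refine ⟨hy.1, ?_⟩
      rw [F05_cs4, ← cs4_kcl X U i j F hy.2]
      exact hx2
    · rw [F05_rpc]
      exact ((rpc_eq_iff X F i j x y).2 hy.2).symm
  · rintro ⟨-, hx⟩
    exact F05_cl hP U m hij hF (kcl_symm hsp) hx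

theorem Ph4_mult (hP : Par X ev) (U : Finset V) (m : ℝ) (hm : 0 < m) {i j : Fin q} (hij : i ≠ j)
    (P : (V → Fin q) → Prop) :
    cG X (fun F => P (Ph4 X ev U m i j F)) ≤ 2 ^ ⌊(U.card : ℝ) / m⌋₊ * cG X P := by
  classical
  have main : (univ.filter fun F : V → Fin q => PrG X F ∧ P (Ph4 X ev U m i j F)).card ≤
      2 ^ ⌊(U.card : ℝ) / m⌋₊ * (univ.filter fun F : V → Fin q => PrG X F ∧ P F).card := by
    refine Finset.card_le_mul_card_image_of_maps_to (f := Ph4 X ev U m i j) ?_ _ ?_
    · intro F hF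
      rw [Finset.mem_filter] at hF ⊢
      exact ⟨Finset.mem_univ _, PrG_Ph4 hP U m hij hF.2.1, hF.2.2⟩
    · intro F' _
      calc ((univ.filter fun F : V → Fin q => PrG X F ∧ P (Ph4 X ev U m i j F)).filter
            fun F => Ph4 X ev U m i j F = F').card ≤ ((F05_B X U m i j F').powerset).card := by
            refine Finset.card_le_card_of_injOn (fun F => F05_B X U m i j F' ∩ wb4 X ev U m i j F) ?_ ?_
            · intro F _
              rw [Finset.mem_coe, Finset.mem_powerset]
              exact Finset.inter_subset_left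
            · intro f hf g hg hfg
              rw [Finset.mem_coe, Finset.mem_filter, Finset.mem_filter] at hf hg
              obtain ⟨⟨-, f1, -⟩, f2⟩ := hf
              obtain ⟨⟨-, g1, -⟩, g2⟩ := hg
              have hfg' : F05_B X U m i j F' ∩ wb4 X ev U m i j f =
                F05_B X U m i j F' ∩ wb4 X ev U m i j g := hfg
              have hS : wb4 X ev U m i j f = wb4 X ev U m i j g := by
                ext x
                rw [F05_key hP U m hm hij f1 x, F05_key hP U m hm hij g1 x, f2, g2, hfg']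
              have e1 : kfl i j (wb4 X ev U m i j f) F' = f := by
                rw [← f2]
                exact kfl_kfl i j _ f
              have e2 : kfl i j (wb4 X ev U m i j g) F' = g := by
                rw [← g2]
                exact kfl_kfl i j _ g
              rw [← e1, ← e2, hS]
        _ = 2 ^ (F05_B X U m i j F').card := Finset.card_powerset _
        _ ≤ 2 ^ ⌊(U.card : ℝ) / m⌋₊ :=
            Nat.pow_le_pow_right (by norm_num) (F05_card X U m hm i j F')
  have h2 : ((univ.filter fun F : V → Fin q => PrG X F ∧ P (Ph4 X ev U m i j F)).card : ℝ) ≤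
      2 ^ ⌊(U.card : ℝ) / m⌋₊ *
        ((univ.filter fun F : V → Fin q => PrG X F ∧ P F).card : ℝ) := by
    exact_mod_cast main
  have e1 : cG X (fun F => P (Ph4 X ev U m i j F)) =
      ((univ.filter fun F : V → Fin q => PrG X F ∧ P (Ph4 X ev U m i j F)).card : ℝ) := rfl
  have e2 : cG X P = ((univ.filter fun F : V → Fin q => PrG X F ∧ P F).card : ℝ) := rfl
  rw [e1, e2]
  exact h2

theorem sw4_pr (hP : Par X ev) (U : Finset V) (m : ℝ) (pr : ℕ → Fin q × Fin q) (n : ℕ)
    (hpr : ∀ l < n, (pr l).1 ≠ (pr l).2) {F : V → Fin q} (hF : PrG X F) : PrG X (sw4 X ev U m pr n F) := by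
  induction n with
  | zero => exact hF
  | succ n ih =>
    exact PrG_Ph4 hP U m (hpr n (Nat.lt_succ_self n))
      (ih fun l hl => hpr l (Nat.lt_succ_of_lt hl))

theorem sw4_mult (hP : Par X ev) (U : Finset V) (m : ℝ) (hm : 0 < m) (pr : ℕ → Fin q × Fin q) (n : ℕ)
    (hpr : ∀ l < n, (pr l).1 ≠ (pr l).2) (P : (V → Fin q) → Prop) :
    cG X (fun F => P (sw4 X ev U m pr n F)) ≤ 2 ^ (n * ⌊(U.card : ℝ) / m⌋₊) * cG X P := by
  induction n generalizing P with
  | zero =>
    have h : cG X (fun F => P (sw4 X ev U m pr 0 F)) = cG X P := rfl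
    rw [h, Nat.zero_mul, pow_zero, one_mul]
  | succ n ih =>
    have h1 := ih (fun l hl => hpr l (Nat.lt_succ_of_lt hl))
      (fun F => P (Ph4 X ev U m (pr n).1 (pr n).2 F))
    have h2 := Ph4_mult hP U m hm (hpr n (Nat.lt_succ_self n)) P
    have h3 : cG X (fun F => P (sw4 X ev U m pr (n + 1) F)) =
        cG X (fun F => (fun F => P (Ph4 X ev U m (pr n).1 (pr n).2 F)) (sw4 X ev U m pr n F)) := rfl
    rw [h3, Nat.add_mul, Nat.one_mul, pow_add, mul_assoc]
    exact h1.trans (mul_le_mul_of_nonneg_left h2 (by positivity))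

end Pool.Agent.LC

end

/-! ### from `Lib_MP_2c424f_lc4.F07` -/

section

/-!
# Part IV, F07: a regular sweep aligns the blocks; alignment (as COR.D07, COR.D08)

Port of `Lib_MP_2c424f_cor/D07.lean` (`sweep_blocks`) and `D08.lean` (`align`) with one family of blocks (`univ : Finset Bl`, no `irr` over several families), `GDP` in
place of `VG` and of `GD`, `sz d q` in place of `s0 d`; `sweep`, `enum` of `COR.D05` are used as they are.
Then `alignG`: `M = (q/2)² ≤ q²/4` (equality, `q` even), `2^{M ⌊|U|/s₀⌋} ≤ cK d q |U|` (`cK` is a real power), `21 (M+1) ≤ 22 (q²/4 + 1)`.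
The case `Fintype.card Bl = 0`: the left side of `hp` is everything, fine, or note that the statement is trivial (`0 ≤ 0`).
`q ≥ 1`: if `q = 0` and there is no function `V → Fin 0` all counts vanish; if `V` is empty ... (`q = 0` gives `hU` vacuous; both sides are counts of the
unique function): treat `q = 0` separately: `Rg d 0` means `2 d ≤ 0`, impossible for `1 ≤ d`.
-/

set_option autoImplicit false

open Finset Filter

namespace Pool.Agent.LC

open Pool.Agent.LO Pool.Agent.LIN Pool.Agent.THR Pool.Agent.COR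

variable {V Bl : Type} [Fintype V] [DecidableEq V] [Fintype Bl] {d q : ℕ} {X : SimpleGraph V} {ev : V → Prop}

open scoped Classical in
theorem sweep_blocks4 (hd : 1 ≤ d) (hq : 1 ≤ q) (hR : Rg d q) (hP : Par X ev) (U : Finset V)
    (A₀ : Finset (Fin q)) (hA : A₀.card = q / 2) (pr : ℕ → Fin q × Fin q) (M : ℕ)
    (hpr : ∀ m < M, (pr m).1 ∈ A₀ ∧ (pr m).2 ∉ A₀)
    (hall : ∀ i ∈ A₀, ∀ j, j ∉ A₀ → ∃ m < M, pr m = (i, j)) (β : Bl → Bt d → Bt d → V)
    (hpar : ∀ t a b, ev (β t a b) ↔ ¬ od a b)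
    (hfib : ∀ t v, ((univ.filter fun p : Bt d × Bt d => β t p.1 p.2 = v).card : ℝ) ≤ 2 ^ d)
    (hU : ∀ t a b, β t a b ∈ U) (θ θ' : ℝ) (h0 : 0 < θ) (h2 : 21 * ((M : ℝ) + 1) * θ ≤ θ')
    {F : V → Fin q} (hF : PrG X F)
    (r1 : ∀ m ≤ M, ((univ.filter fun t : Bl => ¬ GDP (pt4 (β t) (sw4 X ev U (sz d q) pr m F))).card : ℝ) ≤
      θ * Fintype.card Bl)
    (r2 : ∀ m < M, ((univ.filter fun t : Bl => GDP (pt4 (β t) (sw4 X ev U (sz d q) pr m F)) ∧
      (pr m).2 ∈ ALP (pt4 (β t) (sw4 X ev U (sz d q) pr m F)) ∧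
      (pr m).1 ∉ ALP (pt4 (β t) (sw4 X ev U (sz d q) pr m F)) ∧
      ¬ FIN4 X (β t) (sw4 X ev U (sz d q) pr m F) (pr m).1 (pr m).2).card : ℝ) ≤ 20 * θ * Fintype.card Bl) :
    ((univ.filter fun t : Bl => ¬ (GDP (pt4 (β t) (sw4 X ev U (sz d q) pr M F)) ∧
      ALP (pt4 (β t) (sw4 X ev U (sz d q) pr M F)) = A₀)).card : ℝ) ≤ θ' * Fintype.card Bl := by
  have hne : ∀ m < M, (pr m).1 ≠ (pr m).2 := by
    intro m hm h
    exact (hpr m hm).2 (h ▸ (hpr m hm).1)
  -- the exceptional sets
  set E1 : ℕ → Finset Bl := fun m => univ.filter fun t => ¬ GDP (pt4 (β t) (sw4 X ev U (sz d q) pr m F)) with hE1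
  set E2 : ℕ → Finset Bl := fun m => univ.filter fun t => GDP (pt4 (β t) (sw4 X ev U (sz d q) pr m F)) ∧
      (pr m).2 ∈ ALP (pt4 (β t) (sw4 X ev U (sz d q) pr m F)) ∧
      (pr m).1 ∉ ALP (pt4 (β t) (sw4 X ev U (sz d q) pr m F)) ∧
      ¬ FIN4 X (β t) (sw4 X ev U (sz d q) pr m F) (pr m).1 (pr m).2 with hE2
  have hcov : (univ.filter fun t : Bl => ¬ (GDP (pt4 (β t) (sw4 X ev U (sz d q) pr M F)) ∧
      ALP (pt4 (β t) (sw4 X ev U (sz d q) pr M F)) = A₀)) ⊆ (range (M + 1)).biUnion E1 ∪ (range M).biUnion E2 := by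
    intro t ht
    by_cases hb1 : t ∈ (range (M + 1)).biUnion E1
    · exact mem_union_left _ hb1
    by_cases hb2 : t ∈ (range M).biUnion E2
    · exact mem_union_right _ hb2
    exfalso
    have hv : ∀ m ≤ M, GDP (pt4 (β t) (sw4 X ev U (sz d q) pr m F)) := by
      intro m hm
      by_contra hcon
      apply hb1
      rw [mem_biUnion]
      exact ⟨m, mem_range.2 (by omega), mem_filter.2 ⟨mem_univ _, hcon⟩⟩
    have hfine : ∀ m < M, (pr m).2 ∈ ALP (pt4 (β t) (sw4 X ev U (sz d q) pr m F)) →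
        (pr m).1 ∉ ALP (pt4 (β t) (sw4 X ev U (sz d q) pr m F)) →
        FIN4 X (β t) (sw4 X ev U (sz d q) pr m F) (pr m).1 (pr m).2 := by
      intro m hm hj hi
      by_contra hcon
      apply hb2
      rw [mem_biUnion]
      exact ⟨m, mem_range.2 hm, mem_filter.2 ⟨mem_univ _, hv m hm.le, hj, hi, hcon⟩⟩
    refine (mem_filter.1 ht).2 ⟨hv M le_rfl, ?_⟩
    refine sweep A₀ pr hpr hall (fun m => ALP (pt4 (β t) (sw4 X ev U (sz d q) pr m F))) ?_ ?_ ?_
    · rw [hA]
      exact (hv M le_rfl).2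
    · intro m hm hj hi
      exact ALP_Ph4_fine hd hq hR hP (sw4_pr hP U (sz d q) pr m (fun l hl => hne l (by omega)) hF) (hne m hm)
        (hpar t) (hfib t) (hU t) (hv m hm.le) (hv (m + 1) hm) hj hi (hfine m hm hj hi)
    · intro m hm h
      exact ALP_Ph4_same hd hq hR hP (sz d q) (hne m hm) (hpar t) (hv m hm.le) (hv (m + 1) hm) h
  have hc1 : (((range (M + 1)).biUnion E1).card : ℝ) ≤ ((M : ℝ) + 1) * (θ * Fintype.card Bl) := by
    calc (((range (M + 1)).biUnion E1).card : ℝ) ≤ ((∑ m ∈ range (M + 1), (E1 m).card : ℕ) : ℝ) := by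
          exact_mod_cast card_biUnion_le
      _ = ∑ m ∈ range (M + 1), ((E1 m).card : ℝ) := by push_cast; rfl
      _ ≤ ∑ m ∈ range (M + 1), (θ * Fintype.card Bl) := by
          apply sum_le_sum
          intro m hm
          exact r1 m (by rw [mem_range] at hm; omega)
      _ = ((M : ℝ) + 1) * (θ * Fintype.card Bl) := by
          rw [sum_const, card_range, nsmul_eq_mul]; push_cast; ring
  have hc2 : (((range M).biUnion E2).card : ℝ) ≤ (M : ℝ) * (20 * θ * Fintype.card Bl) := by
    calc (((range M).biUnion E2).card : ℝ) ≤ ((∑ m ∈ range M, (E2 m).card : ℕ) : ℝ) := by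
          exact_mod_cast card_biUnion_le
      _ = ∑ m ∈ range M, ((E2 m).card : ℝ) := by push_cast; rfl
      _ ≤ ∑ m ∈ range M, (20 * θ * Fintype.card Bl) := by
          apply sum_le_sum
          intro m hm
          exact r2 m (by rw [mem_range] at hm; omega)
      _ = (M : ℝ) * (20 * θ * Fintype.card Bl) := by
          rw [sum_const, card_range, nsmul_eq_mul]
  have hc : ((univ.filter fun t : Bl => ¬ (GDP (pt4 (β t) (sw4 X ev U (sz d q) pr M F)) ∧
      ALP (pt4 (β t) (sw4 X ev U (sz d q) pr M F)) = A₀)).card : ℝ) ≤ (((range (M + 1)).biUnion E1).card : ℝ) +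
      (((range M).biUnion E2).card : ℝ) := by
    exact_mod_cast (card_le_card hcov).trans (card_union_le _ _)
  have hQ0 : (0 : ℝ) ≤ (Fintype.card Bl : ℝ) := by positivity
  have h4 : 21 * ((M : ℝ) + 1) * θ * Fintype.card Bl ≤ θ' * Fintype.card Bl := mul_le_mul_of_nonneg_right h2 hQ0
  have h5 : 0 ≤ θ * (Fintype.card Bl : ℝ) := mul_nonneg h0.le hQ0
  nlinarith [hc, hc1, hc2, h4, h5]

end Pool.Agent.LC

end

/-! ### from `Lib_MP_2c424f_cor.C02` -/

section

/-!
# The dichotomy lemma, first part (piece C02, (C2))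

Probability weights `p` on a finite set `Y`, finite sets `K v` (`v ∈ Y`), `S = {x : ω x = true}` a uniform random set.
`gS ω β` = weight of the `v` for which `K v` contains a point with the bit `β`.

For an `ω` with `gS ω β ≤ δ` for one of the bits `β`: all `v` but a weight `≤ 2δ` have `K v ≠ ∅` and all bits on `K v` equal
to `!β`.  So the weight of the pairs `(v, v')` with `K v`, `K v'` nonempty and all bits on `K v ∪ K v'` equal is at least
`(1-2δ)² ≥ 1 - 4δ ≥ 0.96`.  Sum over `ω`: the mean weight is at least `0.9 · 0.96 ≥ 0.86`.  For fixed `(v, v')` with both sets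
nonempty and `#(K v ∪ K v') = m` the proportion of these `ω` is `2 · 2^{-m}`: `1` for `m = 1`, at most `1/2` for `m ≥ 2`.
So the weight `s` of the pairs with `K v = K v' = {c}` (some `c`) satisfies `s + (1-s)/2 ≥ 0.86`, `s ≥ 0.72`;
`s = ∑_c p_c² ≤ max_c p_c`, `p_c` = weight of the `v` with `K v = {c}` (`∑_c p_c ≤ 1`).
-/

set_option autoImplicit false

open Finset

namespace Pool.Agent.COR

open scoped Classical in
/-- weight of the `v` for which `K v` contains a point with the bit `β` -/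
noncomputable def gS {Y W : Type} [Fintype Y] (p : Y → ℝ) (K : Y → Finset W) (ω : W → Bool) (β : Bool) : ℝ :=
  ∑ v, if ∃ x ∈ K v, ω x = β then p v else 0

/-- half of the bit strings agree at two different places -/
private theorem C02_half {W : Type} [Fintype W] [DecidableEq W] (x y : W) (hxy : x ≠ y)
    (E : Finset (W → Bool)) (hE : ∀ ω ∈ E, ω x = ω y) : 2 * (E.card : ℝ) ≤ 2 ^ Fintype.card W := by
  set f : (W → Bool) → (W → Bool) := fun ω => Function.update ω x (!ω x) with hf
  have hinj : Function.Injective f := by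
    intro a b hab
    funext z
    have h1 := congrFun hab z
    by_cases hz : z = x
    · subst hz
      simp only [hf, Function.update_self, Bool.not_eq_eq_eq_not, Bool.not_not] at h1
      exact h1
    · simp only [hf, Function.update_of_ne hz] at h1
      exact h1
  have hdis : Disjoint E (E.image f) := by
    rw [Finset.disjoint_left]
    intro ω hω hω'
    obtain ⟨η, hη, rfl⟩ := Finset.mem_image.1 hω'
    have h1 := hE _ hω
    have h2 := hE _ hη
    simp only [hf, Function.update_self, Function.update_of_ne hxy.symm] at h1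
    rw [h2] at h1
    cases hb : η y <;> rw [hb] at h1 <;> exact absurd h1 (by decide)
  have h1 : (E ∪ E.image f).card ≤ (univ : Finset (W → Bool)).card :=
    Finset.card_le_card (Finset.subset_univ _)
  rw [Finset.card_union_of_disjoint hdis, Finset.card_image_of_injective E hinj,
    Finset.card_univ, Fintype.card_fun, Fintype.card_bool] at h1
  have h2 : ((E.card + E.card : ℕ) : ℝ) ≤ ((2 ^ Fintype.card W : ℕ) : ℝ) := by exact_mod_cast h1
  push_cast at h2
  linarith

open scoped Classical in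
theorem dichA {Y W : Type} [Fintype Y] [Fintype W] (p : Y → ℝ) (hp : ∀ v, 0 ≤ p v) (h1 : ∑ v, p v = 1)
    (K : Y → Finset W) (δ : ℝ) (h0 : 0 ≤ δ) (hδ : δ ≤ 1 / 100) (hK : (∑ v, if K v = ∅ then p v else 0) ≤ δ)
    (H : (9 / 10 : ℝ) * 2 ^ Fintype.card W <
      ((univ.filter fun ω : W → Bool => gS p K ω true ≤ δ ∨ gS p K ω false ≤ δ).card : ℝ)) :
    ∃ c : W, (7 / 10 : ℝ) ≤ ∑ v, if K v = {c} then p v else 0 := by
  by_contra hcon
  push Not at hcon
  -- the pair event
  set C : (W → Bool) → Y → Y → Prop := fun ω v v' =>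
    K v ≠ ∅ ∧ K v' ≠ ∅ ∧ ∃ β, (∀ x ∈ K v, ω x = β) ∧ ∀ x ∈ K v', ω x = β with hC
  set P : (W → Bool) → ℝ := fun ω => ∑ v, ∑ v', p v * p v' * (if C ω v v' then 1 else 0) with hP
  have hP0 : ∀ ω, 0 ≤ P ω := by
    intro ω
    refine Finset.sum_nonneg fun v _ => Finset.sum_nonneg fun v' _ => ?_
    refine mul_nonneg (mul_nonneg (hp v) (hp v')) ?_
    split_ifs <;> norm_num
  -- lower bound for good bit strings
  have hlow : ∀ ω β, gS p K ω β ≤ δ → 96 / 100 ≤ P ω := by
    intro ω β hβ
    set a : Y → ℝ := fun v => if (K v ≠ ∅ ∧ ∀ x ∈ K v, ω x = !β) then 1 else 0 with ha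
    have hT : 1 - 2 * δ ≤ ∑ v, p v * a v := by
      have h2 : ∑ v, p v ≤ ∑ v, (p v * a v + (if ∃ x ∈ K v, ω x = β then p v else 0) +
          (if K v = ∅ then p v else 0)) := by
        refine Finset.sum_le_sum fun v _ => ?_
        have hpv := hp v
        by_cases h3 : K v = ∅
        · rw [if_pos h3]
          have h4 : 0 ≤ p v * a v := mul_nonneg hpv (by simp only [ha]; split_ifs <;> norm_num)
          have h5 : 0 ≤ (if ∃ x ∈ K v, ω x = β then p v else 0) := by
            split_ifs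
            · exact hpv
            · exact le_rfl
          linarith
        · rw [if_neg h3]
          by_cases h4 : ∃ x ∈ K v, ω x = β
          · rw [if_pos h4]
            have h5 : 0 ≤ p v * a v := mul_nonneg hpv (by simp only [ha]; split_ifs <;> norm_num)
            linarith
          · rw [if_neg h4]
            have h5 : a v = 1 := by
              simp only [ha]
              rw [if_pos]
              refine ⟨h3, fun x hx => ?_⟩
              by_contra h6
              refine h4 ⟨x, hx, ?_⟩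
              cases hb : ω x <;> cases β <;> simp_all
            rw [h5]
            linarith
      rw [Finset.sum_add_distrib, Finset.sum_add_distrib, h1] at h2
      have h3 : (∑ v, if ∃ x ∈ K v, ω x = β then p v else 0) ≤ δ := hβ
      linarith
    have h2 : (∑ v, p v * a v) * (∑ v, p v * a v) ≤ P ω := by
      rw [Finset.sum_mul_sum]
      refine Finset.sum_le_sum fun v _ => Finset.sum_le_sum fun v' _ => ?_
      have h3 : a v * a v' ≤ if C ω v v' then 1 else 0 := by
        simp only [ha]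
        by_cases h4 : (K v ≠ ∅ ∧ ∀ x ∈ K v, ω x = !β)
        · by_cases h5 : (K v' ≠ ∅ ∧ ∀ x ∈ K v', ω x = !β)
          · have h6 : C ω v v' := ⟨h4.1, h5.1, !β, h4.2, h5.2⟩
            rw [if_pos h4, if_pos h5, if_pos h6]
            norm_num
          · rw [if_neg h5, mul_zero]
            split_ifs <;> norm_num
        · rw [if_neg h4, zero_mul]
          split_ifs <;> norm_num
      calc p v * a v * (p v' * a v') = p v * p v' * (a v * a v') := by ring
        _ ≤ _ := mul_le_mul_of_nonneg_left h3 (mul_nonneg (hp v) (hp v'))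
    have h3 : (1 - 2 * δ) * (1 - 2 * δ) ≤ (∑ v, p v * a v) * (∑ v, p v * a v) :=
      mul_le_mul hT hT (by linarith) (by linarith)
    nlinarith
  -- upper bound for pairs
  have hpair : ∀ v v', ∑ ω : W → Bool, (if C ω v v' then (1 : ℝ) else 0) ≤
      2 ^ Fintype.card W * (1 / 2 + 1 / 2 * (if ∃ c, K v = {c} ∧ K v' = {c} then 1 else 0)) := by
    intro v v'
    have e1 : ∑ ω : W → Bool, (if C ω v v' then (1 : ℝ) else 0) =
        ((univ.filter fun ω : W → Bool => C ω v v').card : ℝ) := by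
      rw [Finset.sum_ite, Finset.sum_const_zero, add_zero, Finset.sum_const, nsmul_eq_mul, mul_one]
    rw [e1]
    by_cases hs : ∃ c, K v = {c} ∧ K v' = {c}
    · rw [if_pos hs]
      have h2 : (univ.filter fun ω : W → Bool => C ω v v').card ≤ (univ : Finset (W → Bool)).card :=
        Finset.card_le_card (Finset.filter_subset _ _)
      rw [Finset.card_univ, Fintype.card_fun, Fintype.card_bool] at h2
      have h3 : ((univ.filter fun ω : W → Bool => C ω v v').card : ℝ) ≤
          ((2 ^ Fintype.card W : ℕ) : ℝ) := by exact_mod_cast h2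
      push_cast at h3
      linarith
    · rw [if_neg hs]
      by_cases hne : K v ≠ ∅ ∧ K v' ≠ ∅
      · -- two different points
        obtain ⟨x, hx⟩ := Finset.nonempty_iff_ne_empty.2 hne.1
        have h2 : ∃ y, y ≠ x ∧ (y ∈ K v ∨ y ∈ K v') := by
          by_contra h3
          push Not at h3
          refine hs ⟨x, ?_, ?_⟩
          · refine Finset.eq_singleton_iff_unique_mem.2 ⟨hx, fun y hy => ?_⟩
            by_contra h4
            exact (h3 y h4).1 hy
          · obtain ⟨z, hz⟩ := Finset.nonempty_iff_ne_empty.2 hne.2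
            have h5 : z = x := by
              by_contra h4
              exact (h3 z h4).2 hz
            refine Finset.eq_singleton_iff_unique_mem.2 ⟨h5 ▸ hz, fun y hy => ?_⟩
            by_contra h4
            exact (h3 y h4).2 hy
        obtain ⟨y, hyx, hy⟩ := h2
        have h3 := C02_half x y hyx.symm (univ.filter fun ω : W → Bool => C ω v v') (by
          intro ω hω
          obtain ⟨_, _, β, hb, hb'⟩ := (Finset.mem_filter.1 hω).2
          rw [hb x hx]
          rcases hy with hy | hy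
          · exact (hb y hy).symm
          · exact (hb' y hy).symm)
        linarith
      · have h2 : (univ.filter fun ω : W → Bool => C ω v v') = ∅ := by
          refine Finset.filter_eq_empty_iff.2 fun ω _ hω => hne ⟨hω.1, hω.2.1⟩
        rw [h2, Finset.card_empty, Nat.cast_zero]
        positivity
  -- the weight of the pairs with the same singleton
  have hs : ∑ v, ∑ v', p v * p v' * (if ∃ c, K v = {c} ∧ K v' = {c} then (1 : ℝ) else 0) ≤
      7 / 10 := by
    have h2 : ∀ v, ∑ v', p v * p v' * (if ∃ c, K v = {c} ∧ K v' = {c} then (1 : ℝ) else 0) ≤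
        p v * (7 / 10) := by
      intro v
      by_cases h3 : ∃ c, K v = {c}
      · obtain ⟨c, hc⟩ := h3
        have h4 : ∑ v', p v * p v' * (if ∃ c, K v = {c} ∧ K v' = {c} then (1 : ℝ) else 0) ≤
            ∑ v', p v * (if K v' = {c} then p v' else 0) := by
          refine Finset.sum_le_sum fun v' _ => ?_
          by_cases h5 : K v' = {c}
          · rw [if_pos h5, if_pos ⟨c, hc, h5⟩, mul_one]
          · rw [if_neg h5, if_neg, mul_zero, mul_zero]
            rintro ⟨c', hc', h6⟩
            have h7 : c = c' := Finset.singleton_injective (hc.symm.trans hc')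
            exact h5 (h7 ▸ h6)
        refine h4.trans ?_
        rw [← Finset.mul_sum]
        exact mul_le_mul_of_nonneg_left (hcon c).le (hp v)
      · have h4 : ∀ v', ¬ ∃ c, K v = {c} ∧ K v' = {c} := by
          rintro v' ⟨c, hc, _⟩
          exact h3 ⟨c, hc⟩
        have h5 : ∑ v', p v * p v' * (if ∃ c, K v = {c} ∧ K v' = {c} then (1 : ℝ) else 0) = 0 := by
          refine Finset.sum_eq_zero fun v' _ => ?_
          rw [if_neg (h4 v'), mul_zero]
        rw [h5]
        have := hp v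
        positivity
    refine (Finset.sum_le_sum fun v _ => h2 v).trans ?_
    rw [← Finset.sum_mul, h1, one_mul]
  -- double counting
  have hup : ∑ ω, P ω ≤ 2 ^ Fintype.card W * (1 / 2 + 1 / 2 * (7 / 10)) := by
    have h2 : ∑ ω, P ω = ∑ v, ∑ v', p v * p v' * ∑ ω : W → Bool, (if C ω v v' then (1 : ℝ) else 0) := by
      simp only [hP]
      rw [Finset.sum_comm]
      refine Finset.sum_congr rfl fun v _ => ?_
      rw [Finset.sum_comm]
      refine Finset.sum_congr rfl fun v' _ => ?_
      rw [Finset.mul_sum]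
    rw [h2]
    have h3 : ∑ v, ∑ v', p v * p v' * ∑ ω : W → Bool, (if C ω v v' then (1 : ℝ) else 0) ≤
        ∑ v, ∑ v', (2 ^ Fintype.card W * (1 / 2) * (p v * p v') + 2 ^ Fintype.card W * (1 / 2) *
          (p v * p v' * (if ∃ c, K v = {c} ∧ K v' = {c} then (1 : ℝ) else 0))) := by
      refine Finset.sum_le_sum fun v _ => Finset.sum_le_sum fun v' _ => ?_
      refine (mul_le_mul_of_nonneg_left (hpair v v') (mul_nonneg (hp v) (hp v'))).trans
        (le_of_eq ?_)
      ring
    refine h3.trans ?_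
    simp only [Finset.sum_add_distrib, ← Finset.mul_sum, h1, mul_one]
    have h6 := mul_le_mul_of_nonneg_left hs (by positivity : (0 : ℝ) ≤ 2 ^ Fintype.card W * (1 / 2))
    linarith
  have hdn : (96 / 100 : ℝ) *
      ((univ.filter fun ω : W → Bool => gS p K ω true ≤ δ ∨ gS p K ω false ≤ δ).card : ℝ) ≤
      ∑ ω, P ω := by
    calc (96 / 100 : ℝ) *
        ((univ.filter fun ω : W → Bool => gS p K ω true ≤ δ ∨ gS p K ω false ≤ δ).card : ℝ)
        = ∑ ω ∈ univ.filter (fun ω : W → Bool => gS p K ω true ≤ δ ∨ gS p K ω false ≤ δ),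
            (96 / 100 : ℝ) := by
          rw [Finset.sum_const, nsmul_eq_mul, mul_comm]
      _ ≤ ∑ ω ∈ univ.filter (fun ω : W → Bool => gS p K ω true ≤ δ ∨ gS p K ω false ≤ δ), P ω := by
          refine Finset.sum_le_sum fun ω hω => ?_
          rcases (Finset.mem_filter.1 hω).2 with h2 | h2
          · exact hlow ω true h2
          · exact hlow ω false h2
      _ ≤ ∑ ω, P ω :=
          Finset.sum_le_sum_of_subset_of_nonneg (Finset.filter_subset _ _) fun ω _ _ => hP0 ω
  have h4 : (0 : ℝ) < 2 ^ Fintype.card W := by positivity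
  linarith

end Pool.Agent.COR

end

/-! ### from `Lib_MP_2c424f_cor.C03` -/

section

/-!
# The dichotomy lemma, second part (piece C03, (C2))

Let `c` be as in `dichA`.  If `ω c = true` then `gS ω true ≥ 7/10 > δ`.  So more than `4/5` of the `ω` with `ω c = true` (half of
all `ω`, of which less than `1/10` of all are excluded) satisfy `gS ω false ≤ δ`.  Flipping all bits except the one at `c` is a
bijection of `{ω : ω c = true}`; so for some `ω` with `ω c = true` both `ω` and the flipped `ω'` satisfy it.  If `K v` is not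
contained in `{c}` then it contains an `x ≠ c`, and `ω x = false` or `ω' x = false`.
-/

set_option autoImplicit false

open Finset

namespace Pool.Agent.COR

open scoped Classical in
theorem dich {Y W : Type} [Fintype Y] [Fintype W] (p : Y → ℝ) (hp : ∀ v, 0 ≤ p v) (h1 : ∑ v, p v = 1)
    (K : Y → Finset W) (δ : ℝ) (h0 : 0 ≤ δ) (hδ : δ ≤ 1 / 100) (hK : (∑ v, if K v = ∅ then p v else 0) ≤ δ)
    (H : (9 / 10 : ℝ) * 2 ^ Fintype.card W <
      ((univ.filter fun ω : W → Bool => gS p K ω true ≤ δ ∨ gS p K ω false ≤ δ).card : ℝ)) :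
    ∃ c : W, (∑ v, if K v ⊆ {c} then 0 else p v) ≤ 2 * δ := by
  obtain ⟨c, hc⟩ := dichA p hp h1 K δ h0 hδ hK H
  refine ⟨c, ?_⟩
  -- the two halves
  set T : Finset (W → Bool) := univ.filter fun ω => ω c = true with hT
  set T' : Finset (W → Bool) := univ.filter fun ω => ω c = false with hT'
  set G : Finset (W → Bool) := univ.filter fun ω : W → Bool => gS p K ω true ≤ δ ∨ gS p K ω false ≤ δ with hG
  set A : Finset (W → Bool) := univ.filter fun ω => ω c = true ∧ gS p K ω false ≤ δ with hA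
  have hcard : T.card = T'.card := by
    refine Finset.card_nbij' (fun ω => Function.update ω c (!ω c)) (fun ω => Function.update ω c (!ω c)) ?_ ?_ ?_ ?_
    · intro ω hω
      have h2 : ω c = true := (Finset.mem_filter.1 hω).2
      refine Finset.mem_filter.2 ⟨Finset.mem_univ _, ?_⟩
      simp only [Function.update_self, h2, Bool.not_true]
    · intro ω hω
      have h2 : ω c = false := (Finset.mem_filter.1 hω).2
      refine Finset.mem_filter.2 ⟨Finset.mem_univ _, ?_⟩
      simp only [Function.update_self, h2, Bool.not_false]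
    · intro ω _
      simp only [Function.update_self, Bool.not_not, Function.update_idem, Function.update_eq_self]
    · intro ω _
      simp only [Function.update_self, Bool.not_not, Function.update_idem, Function.update_eq_self]
  have hsum : T.card + T'.card = 2 ^ Fintype.card W := by
    have h2 : T ∪ T' = univ := by
      ext ω
      simp only [hT, hT', Finset.mem_union, Finset.mem_filter, Finset.mem_univ, true_and, iff_true]
      cases ω c <;> simp
    have h3 : Disjoint T T' := by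
      rw [Finset.disjoint_left]
      intro ω h4 h5
      have h6 := (Finset.mem_filter.1 h4).2
      have h7 := (Finset.mem_filter.1 h5).2
      rw [h6] at h7
      exact absurd h7 (by decide)
    rw [← Finset.card_union_of_disjoint h3, h2, Finset.card_univ, Fintype.card_fun, Fintype.card_bool]
  -- good strings with `ω c = true`
  have hGA : G.card ≤ A.card + T'.card := by
    have h2 : G ⊆ A ∪ T' := by
      intro ω hω
      have h3 := (Finset.mem_filter.1 hω).2
      rw [Finset.mem_union]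
      cases h4 : ω c with
      | false => exact Or.inr (Finset.mem_filter.2 ⟨Finset.mem_univ _, h4⟩)
      | true =>
        left
        refine Finset.mem_filter.2 ⟨Finset.mem_univ _, h4, ?_⟩
        rcases h3 with h3 | h3
        · exfalso
          have h5 : (∑ v, if K v = {c} then p v else 0) ≤ gS p K ω true := by
            unfold gS
            refine Finset.sum_le_sum fun v _ => ?_
            by_cases h6 : K v = {c}
            · rw [if_pos h6, if_pos]
              exact ⟨c, by rw [h6]; exact Finset.mem_singleton_self c, h4⟩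
            · rw [if_neg h6]
              split_ifs
              · exact hp v
              · exact le_rfl
          linarith
        · exact h3
    exact (Finset.card_le_card h2).trans (Finset.card_union_le _ _)
  -- flipping all bits except the one at `c`
  set φ : (W → Bool) → (W → Bool) := fun ω x => if x = c then ω x else !ω x with hφ
  have hφφ : ∀ ω, φ (φ ω) = ω := by
    intro ω
    funext x
    simp only [hφ]
    by_cases hx : x = c
    · rw [if_pos hx, if_pos hx]
    · rw [if_neg hx, if_neg hx, Bool.not_not]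
  have hinj : Function.Injective φ := fun a b hab => by rw [← hφφ a, hab, hφφ]
  have hne : ∃ ω, ω ∈ A ∧ φ ω ∈ A := by
    by_contra hcon
    push Not at hcon
    have hdis : Disjoint A (A.image φ) := by
      rw [Finset.disjoint_left]
      intro ω hω hω'
      obtain ⟨η, hη, rfl⟩ := Finset.mem_image.1 hω'
      exact hcon η hη hω
    have h2 : A ∪ A.image φ ⊆ T := by
      intro ω hω
      rcases Finset.mem_union.1 hω with hω | hω
      · exact Finset.mem_filter.2 ⟨Finset.mem_univ _, (Finset.mem_filter.1 hω).2.1⟩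
      · obtain ⟨η, hη, rfl⟩ := Finset.mem_image.1 hω
        refine Finset.mem_filter.2 ⟨Finset.mem_univ _, ?_⟩
        simp only [hφ, if_true]
        exact (Finset.mem_filter.1 hη).2.1
    have h3 := Finset.card_le_card h2
    rw [Finset.card_union_of_disjoint hdis, Finset.card_image_of_injective A hinj] at h3
    have e1 : ((A.card + A.card : ℕ) : ℝ) ≤ ((T.card : ℕ) : ℝ) := by exact_mod_cast h3
    have e2 : ((G.card : ℕ) : ℝ) ≤ ((A.card + T'.card : ℕ) : ℝ) := by exact_mod_cast hGA
    have e3 : ((T.card : ℕ) : ℝ) = ((T'.card : ℕ) : ℝ) := by exact_mod_cast hcard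
    have e4 : ((T.card + T'.card : ℕ) : ℝ) = ((2 ^ Fintype.card W : ℕ) : ℝ) := by exact_mod_cast hsum
    push_cast at e1 e2 e3 e4
    have h5 : (0 : ℝ) < 2 ^ Fintype.card W := by positivity
    linarith
  obtain ⟨ω, hω, hω'⟩ := hne
  have g1 : gS p K ω false ≤ δ := (Finset.mem_filter.1 hω).2.2
  have g2 : gS p K (φ ω) false ≤ δ := (Finset.mem_filter.1 hω').2.2
  have h2 : (∑ v, if K v ⊆ {c} then 0 else p v) ≤ gS p K ω false + gS p K (φ ω) false := by
    unfold gS
    rw [← Finset.sum_add_distrib]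
    refine Finset.sum_le_sum fun v _ => ?_
    have n1 : 0 ≤ (if ∃ x ∈ K v, ω x = false then p v else 0) := by
      split_ifs
      · exact hp v
      · exact le_rfl
    have n2 : 0 ≤ (if ∃ x ∈ K v, φ ω x = false then p v else 0) := by
      split_ifs
      · exact hp v
      · exact le_rfl
    by_cases h3 : K v ⊆ {c}
    · rw [if_pos h3]
      linarith
    · rw [if_neg h3]
      obtain ⟨x, hx, hxc⟩ := Finset.not_subset.1 h3
      have hxc' : x ≠ c := fun h => hxc (Finset.mem_singleton.2 h)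
      cases h4 : ω x with
      | false =>
        have h5 : ∃ x ∈ K v, ω x = false := ⟨x, hx, h4⟩
        rw [if_pos h5]
        linarith
      | true =>
        have h5 : ∃ x ∈ K v, φ ω x = false := by
          refine ⟨x, hx, ?_⟩
          simp only [hφ]
          rw [if_neg hxc', h4]
          rfl
        rw [if_pos h5]
        linarith
  linarith

end Pool.Agent.COR

end

/-! ### from `Lib_MP_2c424f_lc4.F03` -/

section

/-!
# Part IV, F03: a block which is good before and after a flip; blocks which are not fine (as COR.C05, COR.C06)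

`j ∈ ALP`, `i ∉ ALP` (so `i` is used at the odd points, `j` at the even points).  `S_β := {p ∈ oI b F i : ω (rpc X F i j (b p)) = β}`.
After the flip (`fw`): the odd points of colour `i` are `S_false` and the odd points with colour `j` and bit `true`.
By `ALP_bal` (both cardinalities are `q/2`) exactly one of `i`, `j` is in the new `ALP`.
 If `i` is not: `st_w1` for the new pattern: `q (|S_false| + #(odd points of colour j)) ≥ 1998/1000 N`, `N = 4^d/2`; `st_w0` for `j`:
 `q #(odd, colour j) ≤ 2/1000 N`; `q |oI| ≤ 2001/1000 N`; so `q |S_true| ≤ 5/1000 N ≤ (1/100) q |oI|`.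
 If `i` is: `st_w0` for the new pattern: `q |S_false| ≤ 2/1000 N ≤ (1/100) q |oI|`.
`not_fine4`: `dich` with `Y = Bt d × Bt d`, `p v = 1/|oI|` for `v ∈ oI` and 0 otherwise, `K v = {rpc X F i j (b v)}`, `δ = 1/100`
(`hK`: `K v ≠ ∅`).
-/

set_option autoImplicit false

open Finset Filter

namespace Pool.Agent.LC

open Pool.Agent.LO Pool.Agent.LIN Pool.Agent.THR Pool.Agent.COR

variable {V : Type} [Fintype V] [DecidableEq V] {d q : ℕ}

private theorem F03_sum {Y : Type} [Fintype Y] (S : Finset Y) (P : Y → Prop) (d1 d2 : DecidablePred P)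
    (d3 : DecidablePred (· ∈ S)) (r : ℝ) :
    (∑ v, @ite ℝ (P v) (d1 v) (@ite ℝ (v ∈ S) (d3 v) r 0) 0) = ((@Finset.filter Y P d2 S).card : ℝ) * r := by
  classical
  have h1 : ∀ v : Y, @ite ℝ (P v) (d1 v) (@ite ℝ (v ∈ S) (d3 v) r 0) 0 =
      if v ∈ @Finset.filter Y P d2 S then r else 0 := by
    intro v
    by_cases h : v ∈ @Finset.filter Y P d2 S
    · have h' := Finset.mem_filter.1 h
      rw [if_pos h, if_pos h'.2, if_pos h'.1]
    · rw [if_neg h]
      by_cases hP : P v
      · have hv : v ∉ S := fun hv => h (Finset.mem_filter.2 ⟨hv, hP⟩)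
        rw [if_pos hP, if_neg hv]
      · rw [if_neg hP]
  rw [Finset.sum_congr rfl fun v _ => h1 v, Finset.sum_ite_mem, Finset.univ_inter, Finset.sum_const, nsmul_eq_mul]

omit [Fintype V] [DecidableEq V] in
open scoped Classical in
private theorem F03_pos (hd : 1 ≤ d) (hR : Rg d q) {b : Bt d → Bt d → V} {F : V → Fin q}
    {i : Fin q} (hg : GDP (pt4 b F)) (hi : i ∉ ALP (pt4 b F)) :
    1998 / 1000 * (4 ^ d / 2) ≤ (q : ℝ) * (oI b F i).card ∧
      (q : ℝ) * (oI b F i).card ≤ 2001 / 1000 * (4 ^ d / 2) :=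
  st_w1 hd hR b F i ((GD4_iff hd hR hg.1 i).1 hi)

open scoped Classical in
theorem flip_dich (hd : 1 ≤ d) (hq : 1 ≤ q) (hR : Rg d q) {X : SimpleGraph V} {b : Bt d → Bt d → V} {F : V → Fin q}
    {i j : Fin q} (hij : i ≠ j) (hg : GDP (pt4 b F)) (hj : j ∈ ALP (pt4 b F)) (hi : i ∉ ALP (pt4 b F))
    (ω : V → Bool) (hg' : GDP (pt4 b (fw X i j ω F))) :
    (((oI b F i).filter fun p => ω (rpc X F i j (b p.1 p.2)) = true).card : ℝ) ≤ 1 / 100 * ((oI b F i).card : ℝ) ∨
      (((oI b F i).filter fun p => ω (rpc X F i j (b p.1 p.2)) = false).card : ℝ) ≤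
        1 / 100 * ((oI b F i).card : ℝ) := by
  have hbal := ALP_bal hij (pt4 b F) (pt4 b (fw X i j ω F))
    (fun x y c hci hcj => fw_other X i j ω F (b x y) c hci hcj) (hg'.2.trans hg.2.symm)
  have hI := F03_pos hd hR hg hi
  have hJ := st_w0 hd hR b F j (ALP_iff.1 hj)
  have hN : (0 : ℝ) < 4 ^ d / 2 := by positivity
  have hq0 : (0 : ℝ) < q := by exact_mod_cast hq
  -- the two parts of `oI b F i`
  have hsum : (((oI b F i).filter fun p => ω (rpc X F i j (b p.1 p.2)) = true).card : ℝ) +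
      (((oI b F i).filter fun p => ω (rpc X F i j (b p.1 p.2)) = false).card : ℝ) = ((oI b F i).card : ℝ) := by
    have h1 := Finset.card_filter_add_card_filter_not (s := oI b F i)
      (fun p : Bt d × Bt d => ω (rpc X F i j (b p.1 p.2)) = true)
    have h2 : (oI b F i).filter (fun p => ¬ ω (rpc X F i j (b p.1 p.2)) = true) =
        (oI b F i).filter fun p => ω (rpc X F i j (b p.1 p.2)) = false := by
      apply Finset.filter_congr
      intro p _
      simp
    rw [h2] at h1
    exact_mod_cast h1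
  set St := (oI b F i).filter fun p => ω (rpc X F i j (b p.1 p.2)) = true with hSt
  set Sf := (oI b F i).filter fun p => ω (rpc X F i j (b p.1 p.2)) = false with hSf
  have h2 := hbal.2
  rw [if_neg hi, if_pos hj] at h2
  by_cases hi' : i ∈ ALP (pt4 b (fw X i j ω F))
  · right
    have h3 := st_w0 hd hR b (fw X i j ω F) i (ALP_iff.1 hi')
    have h4 : Sf ⊆ oI b (fw X i j ω F) i := by
      intro p hp
      rw [hSf, Finset.mem_filter] at hp
      have hp1 := hp.1
      unfold oI at hp1 ⊢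
      rw [Finset.mem_filter] at hp1 ⊢
      refine ⟨Finset.mem_univ _, hp1.2.1, ?_⟩
      rw [fw_false X i j ω F _ hp.2]
      exact hp1.2.2
    have h5 : (Sf.card : ℝ) ≤ ((oI b (fw X i j ω F) i).card : ℝ) := by
      exact_mod_cast Finset.card_le_card h4
    have h6 : (q : ℝ) * Sf.card ≤ q * (1 / 100 * ((oI b F i).card : ℝ)) := by
      nlinarith
    exact le_of_mul_le_mul_left h6 hq0
  · left
    have h3 := F03_pos hd hR hg' hi'
    have h4 : oI b (fw X i j ω F) i ⊆ Sf ∪ oI b F j := by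
      intro p hp
      unfold oI at hp
      rw [Finset.mem_filter] at hp
      rw [Finset.mem_union]
      by_cases hw : ω (rpc X F i j (b p.1 p.2)) = true
      · right
        unfold oI
        rw [Finset.mem_filter]
        refine ⟨Finset.mem_univ _, hp.2.1, ?_⟩
        by_contra hne
        by_cases hFi : F (b p.1 p.2) = i
        · have h5 := (fw_true X i j ω F _ hw).2 hFi
          rw [hp.2.2] at h5
          exact hij h5
        · have h5 := (fw_other X i j ω F (b p.1 p.2) (F (b p.1 p.2)) hFi hne).2 rfl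
          rw [hp.2.2] at h5
          exact hFi h5.symm
      · left
        have hw' : ω (rpc X F i j (b p.1 p.2)) = false := by simpa using hw
        have h5 := hp.2.2
        rw [fw_false X i j ω F _ hw'] at h5
        rw [hSf, Finset.mem_filter]
        refine ⟨?_, hw'⟩
        unfold oI
        rw [Finset.mem_filter]
        exact ⟨Finset.mem_univ _, hp.2.1, h5⟩
    have h5 : ((oI b (fw X i j ω F) i).card : ℝ) ≤ (Sf.card : ℝ) + ((oI b F j).card : ℝ) := by
      exact_mod_cast (Finset.card_le_card h4).trans (Finset.card_union_le _ _)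
    have h6 : (q : ℝ) * ((oI b (fw X i j ω F) i).card : ℝ) ≤ q * (Sf.card : ℝ) + q * ((oI b F j).card : ℝ) := by
      nlinarith
    have h7 : (q : ℝ) * St.card = q * ((oI b F i).card : ℝ) - q * (Sf.card : ℝ) := by
      rw [← hsum]; ring
    have h8 : (q : ℝ) * St.card ≤ q * (1 / 100 * ((oI b F i).card : ℝ)) := by
      nlinarith [h3.1, hI.1, hI.2]
    exact le_of_mul_le_mul_left h8 hq0

open scoped Classical in
private theorem F03_dich {Y W : Type} [Fintype Y] [Fintype W] [inst : Fintype (W → Bool)] (p : Y → ℝ)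
    (hp : ∀ v, 0 ≤ p v) (h1 : ∑ v, p v = 1)
    (K : Y → Finset W) (δ : ℝ) (h0 : 0 ≤ δ) (hδ : δ ≤ 1 / 100) (hK : (∑ v, if K v = ∅ then p v else 0) ≤ δ)
    (H : (9 / 10 : ℝ) * 2 ^ Fintype.card W <
      (((@univ (W → Bool) inst).filter
        fun ω : W → Bool => gS p K ω true ≤ δ ∨ gS p K ω false ≤ δ).card : ℝ)) :
    ∃ c : W, (∑ v, if K v ⊆ {c} then 0 else p v) ≤ 2 * δ := by
  refine dich p hp h1 K δ h0 hδ hK (lt_of_lt_of_eq H (congrArg Nat.cast ?_))
  refine congrArg Finset.card (Finset.ext fun ω => ?_)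
  simp only [Finset.mem_filter, Finset.mem_univ, true_and]

open scoped Classical in
theorem not_fine4 (hd : 1 ≤ d) (hq : 1 ≤ q) (hR : Rg d q) {X : SimpleGraph V} {b : Bt d → Bt d → V} {F : V → Fin q}
    {i j : Fin q} (hij : i ≠ j) (hg : GDP (pt4 b F)) (hj : j ∈ ALP (pt4 b F)) (hi : i ∉ ALP (pt4 b F))
    (hF : ¬ FIN4 X b F i j) :
    ((univ.filter fun ω : V → Bool => GDP (pt4 b (fw X i j ω F))).card : ℝ) ≤ 9 / 10 * 2 ^ Fintype.card V := by
  by_contra hcon
  rw [not_le] at hcon
  apply hF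
  have hI := F03_pos hd hR hg hi
  have hN : (0 : ℝ) < 4 ^ d / 2 := by positivity
  have hq0 : (0 : ℝ) < q := by exact_mod_cast hq
  have hc0 : (0 : ℝ) < ((oI b F i).card : ℝ) := by
    by_contra h
    have h1 : ((oI b F i).card : ℝ) = 0 := le_antisymm (not_lt.1 h) (Nat.cast_nonneg _)
    rw [h1, mul_zero] at hI
    nlinarith [hI.1]
  let p : Bt d × Bt d → ℝ := fun v => if v ∈ oI b F i then 1 / ((oI b F i).card : ℝ) else 0
  let K : Bt d × Bt d → Finset V := fun v => {rpc X F i j (b v.1 v.2)}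
  have hind : ∀ (ω : V → Bool) (β : Bool), gS p K ω β =
      (((oI b F i).filter fun v => ω (rpc X F i j (b v.1 v.2)) = β).card : ℝ) * (1 / ((oI b F i).card : ℝ)) := by
    intro ω β
    refine Eq.trans ?_ (F03_sum (oI b F i) (fun v => ω (rpc X F i j (b v.1 v.2)) = β) (fun v => inferInstance) _
      (fun v => inferInstance) _)
    unfold gS
    refine Finset.sum_congr rfl fun v _ => ?_
    by_cases h : ω (rpc X F i j (b v.1 v.2)) = β
    · rw [if_pos h, if_pos ⟨_, Finset.mem_singleton_self _, h⟩]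
    · rw [if_neg h, if_neg]
      rintro ⟨x, hx, hx'⟩
      rw [Finset.mem_singleton] at hx
      rw [hx] at hx'
      exact h hx'
  obtain ⟨c, hc⟩ := F03_dich p (fun v => by
      simp only [p]
      split_ifs
      · positivity
      · exact le_rfl) (by
      rw [Finset.sum_ite_mem, Finset.univ_inter, Finset.sum_const, nsmul_eq_mul, mul_one_div, div_self hc0.ne'])
    K (1 / 100) (by norm_num) le_rfl (by
      refine le_trans (le_of_eq (Finset.sum_eq_zero fun v _ => ?_)) (by norm_num : (0 : ℝ) ≤ 1 / 100)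
      exact if_neg (Finset.singleton_ne_empty _)) (by
      refine lt_of_lt_of_le hcon (Nat.cast_le.2 (Finset.card_le_card ?_))
      intro ω hω
      rw [Finset.mem_filter] at hω ⊢
      refine ⟨Finset.mem_univ _, ?_⟩
      rw [hind, hind, mul_one_div, mul_one_div, div_le_iff₀ hc0, div_le_iff₀ hc0]
      exact flip_dich hd hq hR hij hg hj hi ω hω.2)
  refine ⟨c, ?_⟩
  have h1 : (((oI b F i).filter fun v => rpc X F i j (b v.1 v.2) ≠ c).card : ℝ) * (1 / ((oI b F i).card : ℝ)) ≤
      2 * (1 / 100) := by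
    refine le_trans (le_of_eq ?_) hc
    refine Eq.trans (F03_sum (oI b F i) (fun v => rpc X F i j (b v.1 v.2) ≠ c) (fun v => inferInstance) _
      (fun v => inferInstance) _).symm ?_
    refine Finset.sum_congr rfl fun v _ => ?_
    by_cases h : rpc X F i j (b v.1 v.2) = c
    · have h2 : K v ⊆ {c} := by
        intro x hx
        rw [Finset.mem_singleton] at hx ⊢
        rw [hx, h]
      rw [if_neg (not_not.2 h), if_pos h2]
    · have h2 : ¬ K v ⊆ {c} := fun hx => h (Finset.mem_singleton.1 (hx (Finset.mem_singleton_self _)))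
      rw [if_pos h, if_neg h2]
  rw [mul_one_div, div_le_iff₀ hc0] at h1
  linarith

end Pool.Agent.LC

end

/-! ### from `Lib_MP_2c424f_lc4.F04` -/

section

/-!
# Part IV, F04: few blocks are not fine (as COR.C07, port of `few_not_fine`)

Copy of the proof of `few_not_fine` in `Lib_MP_2c424f_cor/C07.lean` (with its private lemmas `C07_double`, `C07_markov`): replace
`Site d (k+1)` by `V`, `cV V`, `gV V` by `cG X`, `X`, the finset `Q` of blocks by `univ : Finset Bl`, `GD t f` by `GDP (pt4 (β t) F)`; `not_fine4`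
instead of `not_fine`, `cG_fw` directly.
-/

set_option autoImplicit false

open Finset Filter

namespace Pool.Agent.LC

open Pool.Agent.LO Pool.Agent.LIN Pool.Agent.THR Pool.Agent.COR

/-- double counting over a product -/
private theorem F04_double {A B : Type} [Fintype A] [Fintype B] (P : A → Prop) (R : A → B → Prop)
    (hP : DecidablePred P) (hR : ∀ a, DecidablePred (R a)) (hR' : ∀ b, DecidablePred fun a => R a b)
    (m z : ℝ)
    (h1 : ∀ a, P a → m ≤ ((univ.filter fun b => R a b).card : ℝ))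
    (h2 : ∀ b, ((univ.filter fun a => R a b).card : ℝ) ≤ z) :
    ((univ.filter P).card : ℝ) * m ≤ (Fintype.card B : ℝ) * z := by
  have e1 : ((univ.filter P).card : ℝ) * m = ∑ a ∈ univ.filter P, m := by
    rw [Finset.sum_const, nsmul_eq_mul]
  have e2 : (Fintype.card B : ℝ) * z = ∑ _b : B, z := by
    rw [Finset.sum_const, nsmul_eq_mul, Finset.card_univ]
  rw [e1, e2]
  calc ∑ a ∈ univ.filter P, m ≤ ∑ a ∈ univ.filter P, ((univ.filter fun b => R a b).card : ℝ) :=
        Finset.sum_le_sum fun a ha => h1 a (Finset.mem_filter.1 ha).2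
    _ ≤ ∑ a, ((univ.filter fun b => R a b).card : ℝ) :=
        Finset.sum_le_univ_sum_of_nonneg fun a => Nat.cast_nonneg _
    _ = ∑ a, ∑ b, (if R a b then (1 : ℝ) else 0) := by
        refine Finset.sum_congr rfl fun a _ => ?_
        rw [Finset.natCast_card_filter]
    _ = ∑ b, ∑ a, (if R a b then (1 : ℝ) else 0) := Finset.sum_comm
    _ = ∑ b, ((univ.filter fun a => R a b).card : ℝ) := by
        refine Finset.sum_congr rfl fun b _ => ?_
        rw [Finset.natCast_card_filter]
    _ ≤ ∑ _b : B, z := Finset.sum_le_sum fun b _ => h2 b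

/-- Markov for a bounded count -/
private theorem F04_markov {T B : Type} [Fintype B] (Q S : Finset T) (hS : S ⊆ Q) (G : T → B → Prop)
    (hG : ∀ t, DecidablePred (G t)) (hG' : ∀ b, DecidablePred fun t => ¬ G t b)
    (η : ℝ) (h0 : 0 < η) (h1 : η ≤ 1) (hc : 20 * η * (Q.card : ℝ) ≤ (S.card : ℝ))
    (h : ∀ t ∈ S, ((univ.filter fun b => G t b).card : ℝ) ≤ 9 / 10 * (Fintype.card B : ℝ))
    (hD : DecidablePred fun b => η * (Q.card : ℝ) ≤ ((Q.filter fun t => ¬ G t b).card : ℝ)) :
    η * (Fintype.card B : ℝ) ≤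
      ((univ.filter fun b => η * (Q.card : ℝ) ≤ ((Q.filter fun t => ¬ G t b).card : ℝ)).card : ℝ) := by
  classical
  set N : ℝ := (Fintype.card B : ℝ) with hN
  have hN0 : 0 ≤ N := Nat.cast_nonneg _
  set X : B → ℝ := fun b => ((Q.filter fun t => ¬ G t b).card : ℝ) with hX
  set g : ℝ := ((univ.filter fun b => η * (Q.card : ℝ) ≤ X b).card : ℝ) with hg
  have hcardB : ((univ : Finset B).card : ℝ) = N := by rw [Finset.card_univ]
  -- the sum of `X`
  have hlow : 2 * η * (Q.card : ℝ) * N ≤ ∑ b, X b := by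
    have s1 : ∀ t ∈ S, N / 10 ≤ ((univ.filter fun b => ¬ G t b).card : ℝ) := by
      intro t ht
      have h3 : ((univ.filter fun b => G t b).card : ℝ) + ((univ.filter fun b => ¬ G t b).card : ℝ) = N := by
        rw [← hcardB, ← Nat.cast_add]
        congr 1
        exact Finset.card_filter_add_card_filter_not (s := (univ : Finset B)) (fun b => G t b)
      have h4 := h t ht
      linarith
    have s2 : (S.card : ℝ) * (N / 10) ≤ ∑ t ∈ S, ((univ.filter fun b => ¬ G t b).card : ℝ) := by
      rw [← nsmul_eq_mul]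
      exact Finset.card_nsmul_le_sum _ _ _ s1
    have s3 : ∑ t ∈ S, ((univ.filter fun b => ¬ G t b).card : ℝ) ≤
        ∑ t ∈ Q, ((univ.filter fun b => ¬ G t b).card : ℝ) :=
      Finset.sum_le_sum_of_subset_of_nonneg hS fun t _ _ => Nat.cast_nonneg _
    have s4 : ∑ t ∈ Q, ((univ.filter fun b => ¬ G t b).card : ℝ) = ∑ b, X b := by
      have e1 : ∀ t ∈ Q, ((univ.filter fun b => ¬ G t b).card : ℝ) =
          ∑ b, (if ¬ G t b then (1 : ℝ) else 0) := by
        intro t _
        rw [Finset.natCast_card_filter]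
      rw [Finset.sum_congr rfl e1, Finset.sum_comm]
      refine Finset.sum_congr rfl fun b _ => ?_
      simp only [hX]
      rw [Finset.natCast_card_filter]
    have s5 : 20 * η * (Q.card : ℝ) * (N / 10) ≤ (S.card : ℝ) * (N / 10) :=
      mul_le_mul_of_nonneg_right hc (by positivity)
    nlinarith [s2, s3, s4, s5]
  have hup : ∑ b, X b ≤ g * (Q.card : ℝ) + N * (η * (Q.card : ℝ)) := by
    have hXQ : ∀ b, X b ≤ (Q.card : ℝ) := by
      intro b
      simp only [hX]
      exact_mod_cast Finset.card_filter_le _ _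
    have s1 : ∀ b, X b ≤ (if η * (Q.card : ℝ) ≤ X b then (Q.card : ℝ) else 0) + η * (Q.card : ℝ) := by
      intro b
      have hp : 0 ≤ η * (Q.card : ℝ) := by positivity
      by_cases hh : η * (Q.card : ℝ) ≤ X b
      · rw [if_pos hh]
        linarith [hXQ b]
      · rw [if_neg hh]
        linarith
    have s2 : ∑ b, X b ≤ ∑ b, ((if η * (Q.card : ℝ) ≤ X b then (Q.card : ℝ) else 0) + η * (Q.card : ℝ)) :=
      Finset.sum_le_sum fun b _ => s1 b
    rw [Finset.sum_add_distrib, ← Finset.sum_filter, Finset.sum_const, Finset.sum_const, nsmul_eq_mul,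
      nsmul_eq_mul, hcardB] at s2
    refine s2.trans (le_of_eq ?_)
    rw [hg]
  have goal : η * N ≤ g := by
    rcases Nat.eq_zero_or_pos Q.card with hQ | hQ
    · have : g = N := by
        rw [hg, ← hcardB]
        congr 1
        rw [Finset.filter_true_of_mem]
        intro b _
        rw [hQ, Nat.cast_zero, mul_zero]
        simp only [hX]
        positivity
      rw [this]
      nlinarith
    · have hQ' : (0 : ℝ) < Q.card := by exact_mod_cast hQ
      have : η * N * (Q.card : ℝ) ≤ g * (Q.card : ℝ) := by nlinarith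
      exact le_of_mul_le_mul_right this hQ'
  exact goal

open scoped Classical in
theorem few_not_fine4 {V Bl : Type} [Fintype V] [DecidableEq V] [Fintype Bl] {d q : ℕ} (hd : 1 ≤ d) (hq : 1 ≤ q)
    (hR : Rg d q) (X : SimpleGraph V) (β : Bl → Bt d → Bt d → V) {i j : Fin q} (hij : i ≠ j) (η : ℝ) (h0 : 0 < η)
    (h1 : η ≤ 1) :
    η * cG X (fun F : V → Fin q => 20 * η * (Fintype.card Bl : ℝ) ≤
        ((univ.filter fun t : Bl => GDP (pt4 (β t) F) ∧ j ∈ ALP (pt4 (β t) F) ∧ i ∉ ALP (pt4 (β t) F) ∧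
          ¬ FIN4 X (β t) F i j).card : ℝ)) ≤
      cG X (fun F : V → Fin q => η * (Fintype.card Bl : ℝ) ≤
        ((univ.filter fun t : Bl => ¬ GDP (pt4 (β t) F)).card : ℝ)) := by
  have hU : (Fintype.card Bl : ℝ) = ((univ : Finset Bl).card : ℝ) := by rw [Finset.card_univ]
  set Z : ℝ := cG X (fun F : V → Fin q => η * (Fintype.card Bl : ℝ) ≤
        ((univ.filter fun t : Bl => ¬ GDP (pt4 (β t) F)).card : ℝ)) with hZ
  have hcard : (Fintype.card (V → Bool) : ℝ) = 2 ^ Fintype.card V := by
    rw [Fintype.card_fun, Fintype.card_bool, Nat.cast_pow]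
    norm_num
  have hpos : (0 : ℝ) < Fintype.card (V → Bool) := by
    rw [hcard]
    positivity
  have inv : ∀ ω : V → Bool, cG X (fun F : V → Fin q => η * (Fintype.card Bl : ℝ) ≤
      ((univ.filter fun t : Bl => ¬ GDP (pt4 (β t) (fw X i j ω F))).card : ℝ)) = Z := by
    intro ω
    rw [hZ]
    exact cG_fw X i j ω (fun F : V → Fin q => η * (Fintype.card Bl : ℝ) ≤
        ((univ.filter fun t : Bl => ¬ GDP (pt4 (β t) F)).card : ℝ))
  have main := F04_double (A := V → Fin q) (B := V → Bool)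
    (fun F => PrG X F ∧ 20 * η * (Fintype.card Bl : ℝ) ≤
        ((univ.filter fun t : Bl => GDP (pt4 (β t) F) ∧ j ∈ ALP (pt4 (β t) F) ∧ i ∉ ALP (pt4 (β t) F) ∧
          ¬ FIN4 X (β t) F i j).card : ℝ))
    (fun F ω => PrG X F ∧ η * (Fintype.card Bl : ℝ) ≤
      ((univ.filter fun t : Bl => ¬ GDP (pt4 (β t) (fw X i j ω F))).card : ℝ))
    (fun _ => Classical.propDecidable _) (fun _ _ => Classical.propDecidable _)
    (fun _ _ => Classical.propDecidable _)
    (η * (Fintype.card (V → Bool) : ℝ)) Z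
    (by
      rintro F ⟨hf, hf'⟩
      rw [hU] at hf'
      have key := F04_markov (univ : Finset Bl)
        (univ.filter fun t : Bl => GDP (pt4 (β t) F) ∧ j ∈ ALP (pt4 (β t) F) ∧ i ∉ ALP (pt4 (β t) F) ∧
          ¬ FIN4 X (β t) F i j)
        (Finset.filter_subset _ _) (fun t (ω : V → Bool) => GDP (pt4 (β t) (fw X i j ω F)))
        (fun _ _ => Classical.propDecidable _) (fun _ _ => Classical.propDecidable _) η h0 h1 hf'
        (by
          intro t ht
          rw [Finset.mem_filter] at ht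
          rw [hcard]
          have h5 := not_fine4 hd hq hR hij ht.2.1 ht.2.2.1 ht.2.2.2.1 ht.2.2.2.2
          convert h5)
        (fun _ => Classical.propDecidable _)
      refine key.trans ?_
      rw [Nat.cast_le]
      refine Finset.card_le_card fun ω hω => ?_
      simp only [Finset.mem_filter] at hω ⊢
      refine ⟨hω.1, hf, ?_⟩
      rw [hU]
      convert hω.2)
    (by
      intro ω
      rw [← inv ω]
      unfold cG
      rw [Nat.cast_le]
      refine Finset.card_le_card fun F hF => ?_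
      simp only [Finset.mem_filter] at hF ⊢
      exact hF)
  have e3 : cG X (fun F : V → Fin q => 20 * η * (Fintype.card Bl : ℝ) ≤
        ((univ.filter fun t : Bl => GDP (pt4 (β t) F) ∧ j ∈ ALP (pt4 (β t) F) ∧ i ∉ ALP (pt4 (β t) F) ∧
          ¬ FIN4 X (β t) F i j).card : ℝ)) *
        (η * (Fintype.card (V → Bool) : ℝ)) ≤
      (Fintype.card (V → Bool) : ℝ) * Z := by
    refine le_trans (le_of_eq ?_) main
    unfold cG
    congr 2
    congr 1
    ext F
    simp only [Finset.mem_filter]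
  have e4 : (Fintype.card (V → Bool) : ℝ) *
      (η * cG X (fun F : V → Fin q => 20 * η * (Fintype.card Bl : ℝ) ≤
        ((univ.filter fun t : Bl => GDP (pt4 (β t) F) ∧ j ∈ ALP (pt4 (β t) F) ∧ i ∉ ALP (pt4 (β t) F) ∧
          ¬ FIN4 X (β t) F i j).card : ℝ))) ≤
      (Fintype.card (V → Bool) : ℝ) * Z := by
    refine le_trans (le_of_eq ?_) e3
    ring
  exact le_of_mul_le_mul_left e4 hpos

end Pool.Agent.LC

end

/-! ### from `Lib_MP_2c424f_lc4.F08` -/

section

/-!
# Part IV, F08: alignment (as COR.D08)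

Port of `Lib_MP_2c424f_cor/D08.lean` (`align`) with one family of blocks.  `M = (q/2)² = q²/4` (`q` even), `pr` from `enum`, `n₀ = ⌊|U|/sz⌋`.
For `m ≤ M`: `#{F : θ |Bl| ≤ #{t : ¬ GDP (F_m)}} ≤ 2^{m n₀} p Z` (`sw4_mult`, `hp`).  For `m < M`: `few_not_fine4` and `sw4_mult`: at most `2^{m n₀} (1/θ) p Z`.
Sum: `(M+1) 2^{M n₀} (1 + 1/θ) p Z ≤ 2 (M+1) cK p Z / θ ≤ Z/2` by `hs` (`2^{M n₀} ≤ cK d q |U|`, a real power with the exponent
`(q²/4) |U|/sz ≥ M n₀`).  The other `F` satisfy the hypotheses of `sweep_blocks4` with `θ' = 22 (q²/4+1) θ` (strict inequalities give `≤`); `sw4_mult` with `n = M`.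
-/

set_option autoImplicit false

open Finset Filter

namespace Pool.Agent.LC

open Pool.Agent.LO Pool.Agent.LIN Pool.Agent.THR Pool.Agent.COR

private theorem F08_nn {V : Type} [Fintype V] [DecidableEq V] {q : ℕ} (X : SimpleGraph V) (P : (V → Fin q) → Prop) :
    0 ≤ cG X P := by
  unfold cG
  exact Nat.cast_nonneg _

open scoped Classical in
private theorem F08_mem {V : Type} [Fintype V] [DecidableEq V] {q : ℕ} (X : SimpleGraph V) (P : (V → Fin q) → Prop)
    (F : V → Fin q) : F ∈ (univ.filter fun f : V → Fin q => PrG X f ∧ P f) ↔ PrG X F ∧ P F := by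
  rw [mem_filter]
  exact ⟨fun h => h.2, fun h => ⟨mem_univ _, h⟩⟩

private theorem F08_mono {V : Type} [Fintype V] [DecidableEq V] {q : ℕ} {X : SimpleGraph V}
    {P P' : (V → Fin q) → Prop} (h : ∀ F, PrG X F → P F → P' F) : cG X P ≤ cG X P' := by
  classical
  unfold cG
  rw [Nat.cast_le]
  refine card_le_card fun F hF => ?_
  rw [mem_filter] at hF ⊢
  exact ⟨hF.1, hF.2.1, h F hF.2.1 hF.2.2⟩

private theorem F08_or {V : Type} [Fintype V] [DecidableEq V] {q : ℕ} (X : SimpleGraph V)
    (P P' : (V → Fin q) → Prop) : cG X (fun F => P F ∨ P' F) ≤ cG X P + cG X P' := by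
  classical
  unfold cG
  rw [← Nat.cast_add, Nat.cast_le]
  refine le_trans (card_le_card fun F hF => ?_) (card_union_le _ _)
  obtain ⟨h1, h2⟩ := (F08_mem X _ F).1 hF
  rw [mem_union]
  rcases h2 with h | h
  · exact Or.inl ((F08_mem X _ F).2 ⟨h1, h⟩)
  · exact Or.inr ((F08_mem X _ F).2 ⟨h1, h⟩)

private theorem F08_ex {V : Type} [Fintype V] [DecidableEq V] {q : ℕ} (X : SimpleGraph V) (n : ℕ)
    (P : ℕ → (V → Fin q) → Prop) : cG X (fun F => ∃ m < n, P m F) ≤ ∑ m ∈ range n, cG X (P m) := by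
  induction n with
  | zero =>
    rw [range_zero, sum_empty]
    unfold cG
    refine le_of_eq (Nat.cast_eq_zero.2 (card_eq_zero.2 (eq_empty_of_forall_notMem fun F hF => ?_)))
    obtain ⟨-, m, hm, -⟩ := (F08_mem X _ F).1 hF
    exact absurd hm (Nat.not_lt_zero _)
  | succ n ih =>
    rw [sum_range_succ]
    refine le_trans ?_ (add_le_add_left ih _)
    refine le_trans (F08_mono ?_) (F08_or X _ _)
    rintro F - ⟨m, hm, h⟩
    rcases Nat.lt_succ_iff_lt_or_eq.1 hm with h1 | h1
    · exact Or.inl ⟨m, h1, h⟩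
    · exact Or.inr (h1 ▸ h)

private theorem F08_pow {d q : ℕ} (hq : Even q) (u : ℕ) :
    (2 : ℝ) ^ ((q / 2) ^ 2 * ⌊(u : ℝ) / sz d q⌋₊) ≤ cK d q u ∧ (((q / 2) ^ 2 : ℕ) : ℝ) = (q : ℝ) ^ 2 / 4 := by
  have hM : (((q / 2) ^ 2 : ℕ) : ℝ) = (q : ℝ) ^ 2 / 4 := by
    obtain ⟨r, rfl⟩ := hq
    have h1 : (r + r) / 2 = r := by omega
    rw [h1]
    push_cast
    ring
  refine ⟨?_, hM⟩
  have hs : 0 ≤ sz d q := by
    unfold sz
    positivity
  have h1 : (⌊(u : ℝ) / sz d q⌋₊ : ℝ) ≤ u / sz d q := Nat.floor_le (div_nonneg (Nat.cast_nonneg _) hs)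
  have h2 : (((q / 2) ^ 2 * ⌊(u : ℝ) / sz d q⌋₊ : ℕ) : ℝ) ≤ (q : ℝ) ^ 2 / 4 * u / sz d q := by
    rw [Nat.cast_mul, hM, mul_div_assoc]
    exact mul_le_mul_of_nonneg_left h1 (by positivity)
  unfold cK
  rw [← Real.rpow_natCast]
  exact Real.rpow_le_rpow_of_exponent_le (by norm_num) h2

open scoped Classical in
private def F08_P1 {V Bl : Type} [Fintype V] [DecidableEq V] [Fintype Bl] {d q : ℕ} (β : Bl → Bt d → Bt d → V) (θ : ℝ)
    (F : V → Fin q) : Prop :=
  θ * (Fintype.card Bl : ℝ) ≤ ((univ.filter fun t : Bl => ¬ GDP (pt4 (β t) F)).card : ℝ)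

open scoped Classical in
private def F08_P2 {V Bl : Type} [Fintype V] [DecidableEq V] [Fintype Bl] {d q : ℕ} (X : SimpleGraph V)
    (β : Bl → Bt d → Bt d → V) (θ : ℝ) (i j : Fin q) (F : V → Fin q) : Prop :=
  20 * θ * (Fintype.card Bl : ℝ) ≤ ((univ.filter fun t : Bl => GDP (pt4 (β t) F) ∧ j ∈ ALP (pt4 (β t) F) ∧
    i ∉ ALP (pt4 (β t) F) ∧ ¬ FIN4 X (β t) F i j).card : ℝ)

open scoped Classical in
private def F08_P3 {V Bl : Type} [Fintype V] [DecidableEq V] [Fintype Bl] {d q : ℕ} (β : Bl → Bt d → Bt d → V)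
    (A₀ : Finset (Fin q)) (θ' : ℝ) (F : V → Fin q) : Prop :=
  ((univ.filter fun t : Bl => ¬ (GDP (pt4 (β t) F) ∧ ALP (pt4 (β t) F) = A₀)).card : ℝ) ≤ θ' * Fintype.card Bl

private theorem F08_main {d q : ℕ} (hd : 1 ≤ d) (hR : Rg d q) (V Bl : Type) [Fintype V] [DecidableEq V] [Fintype Bl]
    (X : SimpleGraph V) (ev : V → Prop) (hP : Par X ev) (β : Bl → Bt d → Bt d → V)
    (hpar : ∀ t a b, ev (β t a b) ↔ ¬ od a b)
    (hfib : ∀ t v, ((univ.filter fun p : Bt d × Bt d => β t p.1 p.2 = v).card : ℝ) ≤ 2 ^ d)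
    (U : Finset V) (hU : ∀ t a b, β t a b ∈ U) (A₀ : Finset (Fin q)) (hA : A₀.card = q / 2)
    (θ p : ℝ) (hθ : 0 < θ) (hθ1 : θ ≤ 1)
    (hp : cG X (F08_P1 (q := q) β θ) ≤ p * cG X (fun _ : V → Fin q => True))
    (hs : 4 * ((q : ℝ) ^ 2 / 4 + 1) * cK d q U.card * p / θ ≤ 1) :
    1 / (2 * cK d q U.card) * cG X (fun _ : V → Fin q => True) ≤
      cG X (F08_P3 (q := q) β A₀ (22 * ((q : ℝ) ^ 2 / 4 + 1) * θ)) := by
  classical
  have hq : 1 ≤ q := by
    obtain ⟨-, -, h⟩ := hR
    omega
  have hq0 : (0 : ℝ) < q := by exact_mod_cast hq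
  obtain ⟨hWK, hMr⟩ := F08_pow (d := d) hR.1 U.card
  set M : ℕ := (q / 2) ^ 2 with hM
  set n0 : ℕ := ⌊(U.card : ℝ) / sz d q⌋₊ with hn0
  set Z : ℝ := cG X (fun _ : V → Fin q => True) with hZ
  set K : ℝ := cK d q U.card with hK
  have hZ0 : 0 ≤ Z := F08_nn _ _
  have hs0 : 0 < sz d q := by
    unfold sz
    positivity
  have hMA : A₀.card * (q - A₀.card) = M := by
    obtain ⟨r, hr⟩ := hR.1
    rw [hA, hM, pow_two]
    congr 1
    omega
  obtain ⟨pr, hpr, hall⟩ := enum (q := q) hq A₀
  rw [hMA] at hpr hall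
  have hne : ∀ l < M, (pr l).1 ≠ (pr l).2 := by
    intro l hl h
    obtain ⟨h3, h4⟩ := hpr l hl
    exact h4 (h ▸ h3)
  have hK0 : 0 < K := lt_of_lt_of_le (by positivity) hWK
  have hWm : ∀ m ≤ M, (2 : ℝ) ^ (m * n0) ≤ K := by
    intro m hm
    exact le_trans (pow_le_pow_right₀ (by norm_num) (Nat.mul_le_mul_right _ hm)) hWK
  have hpZ : 0 ≤ p * Z := le_trans (F08_nn _ _) hp
  -- irregular steps
  have hB1 : ∀ m ∈ range (M + 1), cG X (fun F => F08_P1 β θ (sw4 X ev U (sz d q) pr m F)) ≤ K * (p * Z) := by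
    intro m hm
    have hm' : m ≤ M := Nat.lt_succ_iff.1 (mem_range.1 hm)
    refine (sw4_mult hP U (sz d q) hs0 pr m (fun l hl => hne l (by omega)) (F08_P1 β θ)).trans ?_
    exact mul_le_mul (hWm m hm') hp (F08_nn _ _) hK0.le
  have hB2 : ∀ m ∈ range M, cG X (fun F => F08_P2 X β θ (pr m).1 (pr m).2 (sw4 X ev U (sz d q) pr m F)) ≤
      K * (p * Z / θ) := by
    intro m hm
    have hm' : m < M := mem_range.1 hm
    refine (sw4_mult hP U (sz d q) hs0 pr m (fun l hl => hne l (by omega))
      (F08_P2 X β θ (pr m).1 (pr m).2)).trans ?_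
    refine mul_le_mul (hWm m hm'.le) ?_ (F08_nn _ _) hK0.le
    have h3 : θ * cG X (F08_P2 X β θ (pr m).1 (pr m).2) ≤ cG X (F08_P1 (q := q) β θ) :=
      few_not_fine4 hd hq hR X β (hne m hm') θ hθ hθ1
    rw [le_div_iff₀ hθ]
    linarith
  obtain ⟨BAD, hBAD⟩ : ∃ BAD : (V → Fin q) → Prop, BAD = fun F =>
    (∃ m < M + 1, F08_P1 β θ (sw4 X ev U (sz d q) pr m F)) ∨
      ∃ m < M, F08_P2 X β θ (pr m).1 (pr m).2 (sw4 X ev U (sz d q) pr m F) := ⟨_, rfl⟩
  have hbad : cG X BAD ≤ Z / 2 := by
    have h3 : cG X BAD ≤ (M + 1 : ℕ) * (K * (p * Z)) + (M : ℕ) * (K * (p * Z / θ)) := by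
      rw [hBAD]
      refine (F08_or X _ _).trans (add_le_add ?_ ?_)
      · refine (F08_ex X (M + 1) _).trans ((sum_le_sum hB1).trans (le_of_eq ?_))
        rw [sum_const, card_range, nsmul_eq_mul]
      · refine (F08_ex X M _).trans ((sum_le_sum hB2).trans (le_of_eq ?_))
        rw [sum_const, card_range, nsmul_eq_mul]
    have hM0 : (0 : ℝ) ≤ (M : ℕ) := Nat.cast_nonneg _
    have hdiv : p * Z ≤ p * Z / θ := by
      rw [le_div_iff₀ hθ]
      exact mul_le_of_le_one_right hpZ hθ1
    have h4 : 4 * ((M : ℝ) + 1) * K * (p * Z / θ) ≤ Z := by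
      have h5 := mul_le_mul_of_nonneg_right hs hZ0
      rw [← hMr, one_mul] at h5
      refine le_trans (le_of_eq ?_) h5
      ring
    have h5 : (M + 1 : ℕ) * (K * (p * Z)) ≤ ((M : ℝ) + 1) * K * (p * Z / θ) := by
      push_cast
      rw [mul_assoc]
      refine mul_le_mul_of_nonneg_left ?_ (by linarith)
      exact mul_le_mul_of_nonneg_left hdiv hK0.le
    have h6 : (M : ℕ) * (K * (p * Z / θ)) ≤ ((M : ℝ) + 1) * K * (p * Z / θ) := by
      rw [mul_assoc]
      refine mul_le_mul_of_nonneg_right (by linarith) ?_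
      exact mul_nonneg hK0.le (div_nonneg hpZ hθ.le)
    linarith
  -- the other colourings
  have hgood : Z ≤ cG X BAD + cG X (fun F => F08_P3 β A₀ (22 * ((q : ℝ) ^ 2 / 4 + 1) * θ)
      (sw4 X ev U (sz d q) pr M F)) := by
    refine le_trans ?_ (F08_or X _ _)
    refine F08_mono fun F hF _ => ?_
    by_cases hb : BAD F
    · exact Or.inl hb
    · refine Or.inr ?_
      rw [hBAD] at hb
      simp only [not_or, not_exists, not_and] at hb
      obtain ⟨hb1, hb2⟩ := hb
      have h2 : 21 * ((M : ℝ) + 1) * θ ≤ 22 * ((q : ℝ) ^ 2 / 4 + 1) * θ := by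
        rw [← hMr]
        refine mul_le_mul_of_nonneg_right ?_ hθ.le
        have : (0 : ℝ) ≤ (M : ℕ) := Nat.cast_nonneg _
        linarith
      exact sweep_blocks4 hd hq hR hP U A₀ hA pr M hpr hall β hpar hfib hU θ _ hθ h2 hF
        (fun m hm => (not_le.1 (hb1 m (by omega))).le)
        (fun m hm => (not_le.1 (hb2 m hm)).le)
  have hfin := sw4_mult hP U (sz d q) hs0 pr M hne (F08_P3 β A₀ (22 * ((q : ℝ) ^ 2 / 4 + 1) * θ))
  have h3 : Z / 2 ≤ K * cG X (F08_P3 (q := q) β A₀ (22 * ((q : ℝ) ^ 2 / 4 + 1) * θ)) := by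
    have h4 : (2 : ℝ) ^ (M * ⌊(U.card : ℝ) / sz d q⌋₊) *
        cG X (F08_P3 (q := q) β A₀ (22 * ((q : ℝ) ^ 2 / 4 + 1) * θ)) ≤
        K * cG X (F08_P3 (q := q) β A₀ (22 * ((q : ℝ) ^ 2 / 4 + 1) * θ)) :=
      mul_le_mul_of_nonneg_right hWK (F08_nn _ _)
    linarith
  rw [div_mul_eq_mul_div, one_mul, div_le_iff₀ (by positivity)]
  linarith

open scoped Classical in
theorem alignG4 {d q : ℕ} (hd : 1 ≤ d) (hR : Rg d q) (V Bl : Type) [Fintype V] [DecidableEq V] [Fintype Bl]
    (X : SimpleGraph V) (ev : V → Prop) (hP : Par X ev) (β : Bl → Bt d → Bt d → V)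
    (hpar : ∀ t a b, ev (β t a b) ↔ ¬ od a b)
    (hfib : ∀ t v, ((univ.filter fun p : Bt d × Bt d => β t p.1 p.2 = v).card : ℝ) ≤ 2 ^ d)
    (U : Finset V) (hU : ∀ t a b, β t a b ∈ U) (A₀ : Finset (Fin q)) (hA : A₀.card = q / 2)
    (θ p : ℝ) (hθ : 0 < θ) (hθ1 : θ ≤ 1)
    (hp : cG X (fun F : V → Fin q =>
      θ * Fintype.card Bl ≤ ((univ.filter fun t : Bl => ¬ GDP (fun a b => F (β t a b))).card : ℝ)) ≤
        p * cG X (fun _ : V → Fin q => True))
    (hs : 4 * ((q : ℝ) ^ 2 / 4 + 1) * cK d q U.card * p / θ ≤ 1) :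
    1 / (2 * cK d q U.card) * cG X (fun _ : V → Fin q => True) ≤
      cG X (fun F : V → Fin q =>
        ((univ.filter fun t : Bl => ¬ (GDP (fun a b => F (β t a b)) ∧ ALP (fun a b => F (β t a b)) = A₀)).card : ℝ) ≤
          22 * ((q : ℝ) ^ 2 / 4 + 1) * θ * Fintype.card Bl) := by
  have h := F08_main hd hR V Bl X ev hP β hpar (fun t v => by convert hfib t v) U hU A₀ hA θ p hθ hθ1 hp hs
  exact h

end Pool.Agent.LC

end

/-! ### from `Lib_MP_2c424f_lc.PIV` -/

section

/-!
# Part IV: Kempe alignment on a graph (main statement)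
-/

set_option autoImplicit false

open Finset Filter

namespace Pool.Agent.LC

open Pool.Agent.LO Pool.Agent.LIN Pool.Agent.THR Pool.Agent.COR

open scoped Classical in
/-- IV.4 -/
theorem alignG {d q : ℕ} (hd : 1 ≤ d) (hR : Rg d q) (V Bl : Type) [Fintype V] [DecidableEq V] [Fintype Bl]
    (X : SimpleGraph V) (ev : V → Prop) (hP : Par X ev) (β : Bl → Bt d → Bt d → V)
    (hpar : ∀ t a b, ev (β t a b) ↔ ¬ od a b)
    (hfib : ∀ t v, ((univ.filter fun p : Bt d × Bt d => β t p.1 p.2 = v).card : ℝ) ≤ 2 ^ d)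
    (U : Finset V) (hU : ∀ t a b, β t a b ∈ U) (A₀ : Finset (Fin q)) (hA : A₀.card = q / 2)
    (θ p : ℝ) (hθ : 0 < θ) (hθ1 : θ ≤ 1)
    (hp : cG X (fun F : V → Fin q =>
      θ * Fintype.card Bl ≤ ((univ.filter fun t : Bl => ¬ GDP (fun a b => F (β t a b))).card : ℝ)) ≤
        p * cG X (fun _ : V → Fin q => True))
    (hs : 4 * ((q : ℝ) ^ 2 / 4 + 1) * cK d q U.card * p / θ ≤ 1) :
    1 / (2 * cK d q U.card) * cG X (fun _ : V → Fin q => True) ≤
      cG X (fun F : V → Fin q =>
        ((univ.filter fun t : Bl => ¬ (GDP (fun a b => F (β t a b)) ∧ ALP (fun a b => F (β t a b)) = A₀)).card : ℝ) ≤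
          22 * ((q : ℝ) ^ 2 / 4 + 1) * θ * Fintype.card Bl) :=
  alignG4 hd hR V Bl X ev hP β hpar hfib U hU A₀ hA θ p hθ hθ1 hp hs

end Pool.Agent.LC

end

/-! ### from `Lib_MP_2c424f_lc5.V11` -/

section

/-!
# Part V, V11: the set `At` depends on the colours of the odd points only

`G` bipartite.  For `y` odd its neighbours `x` are even and their neighbours are odd.  `TyO ... f y` uses `Rc G f x y` and
`nc G f x y c` for `x ~ y`: only the colours of neighbours of `x`.  `TyE ... f x` for `x ~ y` uses `Rv G f x`, `nv G f x c`: the same.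
-/

set_option autoImplicit false

open Finset Filter

namespace Pool.Agent.LC

open Pool.Agent.LO Pool.Agent.LIN Pool.Agent.THR Pool.Agent.COR

open scoped Classical in
private theorem v11_Rv {V : Type} [Fintype V] {q : ℕ} {X : SimpleGraph V} {F F' : V → Fin q} {v : V}
    (h : ∀ x, X.Adj v x → F x = F' x) : Rv X F v = Rv X F' v := by
  unfold Rv
  ext c
  simp only [mem_filter, mem_univ, true_and]
  exact forall_congr' fun x => ⟨fun t hx => by rw [← h x hx]; exact t hx,
    fun t hx => by rw [h x hx]; exact t hx⟩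

open scoped Classical in
private theorem v11_Rc {V : Type} [Fintype V] {q : ℕ} {X : SimpleGraph V} {F F' : V → Fin q} {v : V}
    (h : ∀ x, X.Adj v x → F x = F' x) (w : V) : Rc X F v w = Rc X F' v w := by
  unfold Rc
  ext c
  simp only [mem_filter, mem_univ, true_and]
  exact forall_congr' fun x => ⟨fun t hx hw => by rw [← h x hx]; exact t hx hw,
    fun t hx hw => by rw [h x hx]; exact t hx hw⟩

open scoped Classical in
private theorem v11_nv {V : Type} [Fintype V] {q : ℕ} {X : SimpleGraph V} {F F' : V → Fin q} {v : V}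
    (h : ∀ x, X.Adj v x → F x = F' x) (c : Fin q) : nv X F v c = nv X F' v c := by
  unfold nv
  congr 1
  ext x
  simp only [mem_filter, mem_univ, true_and]
  exact ⟨fun t => ⟨t.1, by rw [← h x t.1]; exact t.2⟩, fun t => ⟨t.1, by rw [h x t.1]; exact t.2⟩⟩

open scoped Classical in
private theorem v11_nc {V : Type} [Fintype V] {q : ℕ} {X : SimpleGraph V} {F F' : V → Fin q} {v : V}
    (h : ∀ x, X.Adj v x → F x = F' x) (w : V) (c : Fin q) : nc X F v w c = nc X F' v w c := by
  unfold nc
  congr 1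
  ext x
  simp only [mem_filter, mem_univ, true_and]
  exact ⟨fun t => ⟨t.1, t.2.1, by rw [← h x t.1]; exact t.2.2⟩,
    fun t => ⟨t.1, t.2.1, by rw [h x t.1]; exact t.2.2⟩⟩

open scoped Classical in
private theorem v11_TyE {V : Type} [Fintype V] {d q : ℕ} {X : SimpleGraph V} {ev : V → Prop}
    {A : Finset (Fin q)} {F F' : V → Fin q} {v : V} (h : ∀ x, X.Adj v x → F x = F' x)
    (t : TyE d X ev A F v) : TyE d X ev A F' v := by
  have hR := v11_Rv h
  have hn := fun c => v11_nv h c
  refine ⟨?_, ?_, ?_, ?_⟩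
  · have := t.e1
    rwa [hR] at this
  · have := t.e2
    rwa [hR] at this
  · have := t.e3
    simp only [hn] at this
    exact this
  · have := t.e4
    simp only [hn] at this
    exact this

open scoped Classical in
private theorem v11_TyO {V : Type} [Fintype V] {d q : ℕ} {X : SimpleGraph V} {ev : V → Prop}
    {A : Finset (Fin q)} {F F' : V → Fin q} {v : V}
    (h : ∀ x, X.Adj v x → ∀ z, X.Adj x z → F z = F' z)
    (t : TyO d X ev A F v) : TyO d X ev A F' v := by
  have hR : ∀ x ∈ nb X v, Rc X F x v = Rc X F' x v := fun x hx =>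
    v11_Rc (h x (by simpa [nb] using hx)) v
  have hn : ∀ x ∈ nb X v, ∀ c, nc X F x v c = nc X F' x v c := fun x hx c =>
    v11_nc (h x (by simpa [nb] using hx)) v c
  refine ⟨?_, ?_, ?_⟩
  · intro c hc
    have h1 := t.o1 c hc
    have e : ((nb X v).filter fun x => c ∈ Rc X F' x v) = (nb X v).filter fun x => c ∈ Rc X F x v :=
      filter_congr fun x hx => by rw [hR x hx]
    rw [e]
    exact h1
  · intro c
    have h1 := t.o2 c
    have e : ∑ x ∈ nb X v, (nc X F' x v c : ℝ) ^ 2 = ∑ x ∈ nb X v, (nc X F x v c : ℝ) ^ 2 :=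
      sum_congr rfl fun x hx => by rw [hn x hx c]
    rw [e]
    exact h1
  · intro c hc
    have h1 := t.o3 c hc
    have e : ∑ x ∈ nb X v, (nc X F' x v c : ℝ) = ∑ x ∈ nb X v, (nc X F x v c : ℝ) :=
      sum_congr rfl fun x hx => by rw [hn x hx c]
    rw [e]
    exact h1

private theorem v11_cert {Λ : Type} [Fintype Λ] {d q : ℕ} {G : SimpleGraph Λ} {ev : Λ → Prop}
    (hP : Par G ev) (A B : Finset (Fin q)) (Φ Ψ Φ' Ψ' : Λ → Fin q)
    (h : ∀ p, ¬ ev p → Φ p = Φ' p ∧ Ψ p = Ψ' p) {y : Λ} (hy : ¬ ev y)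
    (t : cert d G ev A B Φ Ψ y) : cert d G ev A B Φ' Ψ' y := by
  have hx : ∀ x, G.Adj y x → ev x := fun x hx => (hP x y hx.symm).2 hy
  have hz : ∀ x, G.Adj y x → ∀ z, G.Adj x z → ¬ ev z := fun x h1 z h2 => (hP x z h2).1 (hx x h1)
  obtain ⟨⟨t1, t2, t3⟩, t4⟩ := t
  refine ⟨⟨v11_TyO (fun x h1 z h2 => (h z (hz x h1 z h2)).1) t1,
    v11_TyO (fun x h1 z h2 => (h z (hz x h1 z h2)).2) t2, t3⟩, fun x hx' => ?_⟩
  have h1 : G.Adj y x := by simpa [nb] using hx'
  obtain ⟨u1, u2, u3⟩ := t4 x hx'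
  exact ⟨v11_TyE (fun z h2 => (h z (hz x h1 z h2)).1) u1,
    v11_TyE (fun z h2 => (h z (hz x h1 z h2)).2) u2, u3⟩

open scoped Classical in
theorem At_congr {Λ : Type} [Fintype Λ] {d q : ℕ} {G : SimpleGraph Λ} {ev : Λ → Prop} (hP : Par G ev)
    (A : Finset (Fin q)) (Φ Ψ Φ' Ψ' : Λ → Fin q) (h : ∀ p, ¬ ev p → Φ p = Φ' p ∧ Ψ p = Ψ' p) :
    At d G ev A Φ Ψ = At d G ev A Φ' Ψ' := by
  unfold At
  ext y
  simp only [mem_filter, mem_univ, true_and]
  refine ⟨fun t => ⟨t.1, fun hc => t.2 ?_⟩, fun t => ⟨t.1, fun hc => t.2 ?_⟩⟩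
  · exact v11_cert hP A A Φ' Ψ' Φ Ψ (fun p hp => ⟨(h p hp).1.symm, (h p hp).2.symm⟩) t.1 hc
  · exact v11_cert hP A A Φ Ψ Φ' Ψ' h t.1 hc

end Pool.Agent.LC

end

/-! ### from `Lib_MP_2c424f_lc5.V06` -/

section

/-!
# Part V, V06: weights of walks

Induction on `n` (split off the first step with `Fin.consEquiv` / `Fin.cons`; `∏` over `Fin (n+1)` by `Fin.prod_univ_succ`):
if `y₀ ∉ A` then the sum is at most `∑_{y₁} K y₀ y₁ S(n-1, m, y₁) ≤ ρ ρ^{n-1-m} D^m` (for `n ≤ m` use `ρ ≤ 1`);
if `y₀ ∈ A` it vanishes for `m = 0` and is at most `D ρ^{n-1-(m-1)} D^{m-1}` for `m ≥ 1`.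
-/

set_option autoImplicit false

open Finset

namespace Pool.Agent.LC

private theorem V06_sum_cons {Λ : Type} [Fintype Λ] {n : ℕ} (g : (Fin (n + 1) → Λ) → ℝ) :
    ∑ y, g y = ∑ a, ∑ z : Fin n → Λ, g (Fin.cons a z) := by
  classical
  rw [← Fintype.sum_prod_type' (fun a (z : Fin n → Λ) => g (Fin.cons a z))]
  exact (Equiv.sum_comp (Fin.consEquiv (fun _ : Fin (n + 1) => Λ)) g).symm

open scoped Classical in
private theorem V06_step {Λ : Type} [Fintype Λ] (K : Λ → Λ → ℝ) (W A : Finset Λ) (n m m' : ℕ) (y₀ : Λ)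
    (hK : ∀ y y', 0 ≤ K y y')
    (hm : ∀ t : ℕ, (if y₀ ∈ A then 1 else 0) + t ≤ m → t ≤ m') :
    ∑ y ∈ univ.filter (fun y : Fin (n + 1 + 1) → Λ => y 0 = y₀ ∧ (∀ k, y k ∈ W) ∧
        (univ.filter fun k : Fin (n + 1) => y k.castSucc ∈ A).card ≤ m),
      ∏ k : Fin (n + 1), K (y k.castSucc) (y k.succ) ≤
    ∑ y₁, K y₀ y₁ * ∑ z ∈ univ.filter (fun z : Fin (n + 1) → Λ => z 0 = y₁ ∧ (∀ k, z k ∈ W) ∧
        (univ.filter fun k : Fin n => z k.castSucc ∈ A).card ≤ m'),
      ∏ k : Fin n, K (z k.castSucc) (z k.succ) := by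
  have hR : ∑ y₁, K y₀ y₁ * ∑ z ∈ univ.filter (fun z : Fin (n + 1) → Λ => z 0 = y₁ ∧ (∀ k, z k ∈ W) ∧
        (univ.filter fun k : Fin n => z k.castSucc ∈ A).card ≤ m'),
      ∏ k : Fin n, K (z k.castSucc) (z k.succ) =
      ∑ z : Fin (n + 1) → Λ, if (∀ k, z k ∈ W) ∧ (univ.filter fun k : Fin n => z k.castSucc ∈ A).card ≤ m' then
        K y₀ (z 0) * ∏ k : Fin n, K (z k.castSucc) (z k.succ) else 0 := by
    simp_rw [Finset.sum_filter, Finset.mul_sum]
    rw [Finset.sum_comm]
    refine Finset.sum_congr rfl fun z _ => ?_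
    rw [Finset.sum_eq_single (z 0)]
    · by_cases hz : (∀ k, z k ∈ W) ∧ (univ.filter fun k : Fin n => z k.castSucc ∈ A).card ≤ m'
      · rw [if_pos ⟨rfl, hz⟩, if_pos hz]
      · rw [if_neg (fun h => hz h.2), if_neg hz, mul_zero]
    · intro b _ hb
      rw [if_neg (fun h => hb h.1.symm), mul_zero]
    · intro h
      exact absurd (Finset.mem_univ _) h
  rw [hR, Finset.sum_filter, V06_sum_cons, Finset.sum_eq_single y₀]
  · refine Finset.sum_le_sum fun z _ => ?_
    by_cases hz : ((Fin.cons y₀ z : Fin (n + 1 + 1) → Λ) 0 = y₀ ∧ (∀ k, (Fin.cons y₀ z : Fin (n + 1 + 1) → Λ) k ∈ W) ∧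
        (univ.filter fun k : Fin (n + 1) => (Fin.cons y₀ z : Fin (n + 1 + 1) → Λ) k.castSucc ∈ A).card ≤ m)
    · obtain ⟨_, hW, hc⟩ := hz
      have hW' : ∀ k, z k ∈ W := fun k => by simpa using hW k.succ
      have hc' : (univ.filter fun k : Fin n => z k.castSucc ∈ A).card ≤ m' := by
        apply hm
        refine le_trans (le_of_eq ?_) hc
        rw [Finset.card_filter, Finset.card_filter, Fin.sum_univ_succ]
        congr 1
      rw [if_pos ⟨Fin.cons_zero _ _, hW, hc⟩, if_pos ⟨hW', hc'⟩, Fin.prod_univ_succ]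
      apply le_of_eq
      congr 1
    · rw [if_neg hz]
      split_ifs
      · exact mul_nonneg (hK _ _) (Finset.prod_nonneg fun k _ => hK _ _)
      · exact le_rfl
  · intro b _ hb
    refine Finset.sum_eq_zero fun z _ => ?_
    rw [if_neg]
    rintro ⟨h, _⟩
    exact hb (by simpa using h)
  · intro h
    exact absurd (Finset.mem_univ _) h

open scoped Classical in
theorem walk_sum {Λ : Type} [Fintype Λ] (K : Λ → Λ → ℝ) (hK : ∀ y y', 0 ≤ K y y') (W A : Finset Λ) (ρ D : ℝ)
    (h0 : 0 ≤ ρ) (h1 : ρ ≤ 1) (hD : 1 ≤ D) (hρ : ∀ y ∈ W, y ∉ A → ∑ y', K y y' ≤ ρ)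
    (hD' : ∀ y ∈ W, ∑ y', K y y' ≤ D) (n m : ℕ) (y₀ : Λ) :
    ∑ y ∈ univ.filter (fun y : Fin (n + 1) → Λ => y 0 = y₀ ∧ (∀ k, y k ∈ W) ∧
        (univ.filter fun k : Fin n => y k.castSucc ∈ A).card ≤ m),
      ∏ k : Fin n, K (y k.castSucc) (y k.succ) ≤ ρ ^ (n - m) * D ^ m := by
  have hDm : ∀ m : ℕ, (1 : ℝ) ≤ D ^ m := fun m => one_le_pow₀ hD
  have hD0 : (0 : ℝ) ≤ D := le_trans zero_le_one hD
  induction n generalizing m y₀ with
  | zero =>
    rw [Nat.zero_sub, pow_zero, one_mul]
    refine le_trans ?_ (hDm m)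
    simp only [Finset.univ_eq_empty, Finset.prod_empty, Finset.sum_const, nsmul_eq_mul, mul_one]
    have : (univ.filter (fun y : Fin (0 + 1) → Λ => y 0 = y₀ ∧ (∀ k, y k ∈ W) ∧
        (univ.filter fun k : Fin 0 => y k.castSucc ∈ A).card ≤ m)).card ≤ 1 := by
      rw [Finset.card_le_one]
      intro a ha b hb
      simp only [Finset.mem_filter, Finset.mem_univ, true_and] at ha hb
      funext k
      have hk : k = 0 := Fin.ext (by have := k.isLt; omega)
      rw [hk, ha.1, hb.1]
    exact_mod_cast this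
  | succ n ih =>
    by_cases hy : y₀ ∈ W
    · by_cases hA : y₀ ∈ A
      · rcases m with _ | m
        · have h0' : (univ.filter (fun y : Fin (n + 1 + 1) → Λ => y 0 = y₀ ∧ (∀ k, y k ∈ W) ∧
              (univ.filter fun k : Fin (n + 1) => y k.castSucc ∈ A).card ≤ 0)) = ∅ := by
            rw [Finset.filter_eq_empty_iff]
            rintro y - ⟨hy0, _, hc⟩
            rw [Nat.le_zero, Finset.card_eq_zero, Finset.filter_eq_empty_iff] at hc
            apply hc (Finset.mem_univ 0)
            rw [Fin.castSucc_zero, hy0]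
            exact hA
          rw [h0', Finset.sum_empty]
          exact mul_nonneg (pow_nonneg h0 _) (pow_nonneg hD0 _)
        · refine le_trans (V06_step K W A n (m + 1) m y₀ hK ?_) ?_
          · intro t ht
            rw [if_pos hA] at ht
            omega
          · calc _ ≤ ∑ y₁, K y₀ y₁ * (ρ ^ (n - m) * D ^ m) :=
                  Finset.sum_le_sum fun y₁ _ => mul_le_mul_of_nonneg_left (ih m y₁) (hK _ _)
              _ = (∑ y₁, K y₀ y₁) * (ρ ^ (n - m) * D ^ m) := (Finset.sum_mul _ _ _).symm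
              _ ≤ D * (ρ ^ (n - m) * D ^ m) :=
                  mul_le_mul_of_nonneg_right (hD' y₀ hy) (mul_nonneg (pow_nonneg h0 _) (pow_nonneg hD0 _))
              _ = ρ ^ (n + 1 - (m + 1)) * D ^ (m + 1) := by
                  rw [Nat.add_sub_add_right, pow_succ]; ring
      · refine le_trans (V06_step K W A n m m y₀ hK ?_) ?_
        · intro t ht
          rw [if_neg hA] at ht
          omega
        · calc _ ≤ ∑ y₁, K y₀ y₁ * (ρ ^ (n - m) * D ^ m) :=
                Finset.sum_le_sum fun y₁ _ => mul_le_mul_of_nonneg_left (ih m y₁) (hK _ _)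
            _ = (∑ y₁, K y₀ y₁) * (ρ ^ (n - m) * D ^ m) := (Finset.sum_mul _ _ _).symm
            _ ≤ ρ * (ρ ^ (n - m) * D ^ m) :=
                mul_le_mul_of_nonneg_right (hρ y₀ hy hA) (mul_nonneg (pow_nonneg h0 _) (pow_nonneg hD0 _))
            _ ≤ ρ ^ (n + 1 - m) * D ^ m := by
                rw [← mul_assoc, ← pow_succ']
                apply mul_le_mul_of_nonneg_right _ (pow_nonneg hD0 _)
                exact pow_le_pow_of_le_one h0 h1 (by omega)
    · have h0' : (univ.filter (fun y : Fin (n + 1 + 1) → Λ => y 0 = y₀ ∧ (∀ k, y k ∈ W) ∧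
          (univ.filter fun k : Fin (n + 1) => y k.castSucc ∈ A).card ≤ m)) = ∅ := by
        rw [Finset.filter_eq_empty_iff]
        rintro y - ⟨hy0, hW, _⟩
        exact hy (hy0 ▸ hW 0)
      rw [h0', Finset.sum_empty]
      exact mul_nonneg (pow_nonneg h0 _) (pow_nonneg hD0 _)

end Pool.Agent.LC

end

/-! ### from `Lib_MP_2c424f_thr.B3a` -/

section

/-!
# THR B3a: weights of the points (paper proof: B3)

`Ww s t x` = proportion of the odd pairs of the shape whose point is `x`.
* `Ww_repr`: `Ms s t φ = ∑_x Ww s t x φ x`.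
* `Ww_max`: a point of the block is `pt t a b` for at most `2^d` pairs (for every `b` at most one `a`), in a face for at most `2^(d-1)` pairs; `|oS| = 4^d/2` resp. `4^(d-1)/2`: at most
  `2/2^d` resp. `4/2^d`.
* `Ww_sum`: for every `x` and `b` there is exactly one `(t, a)` with `pt t a b = x` (`LO.sum_pt` with `H y b = 1[y = x]`, restricted to the bit vectors `b` of the face), so
  `∑_t Ww s t x ≤ 2^d/(4^d/2)` resp. `2^(d-1)/(4^(d-1)/2)`.
* `Ww_par`: odd sites only (`LO.evn_pt`).
-/

set_option autoImplicit false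

open Finset Filter

namespace Pool.Agent.THR

open Pool.Agent.LO Pool.Agent.LIN

variable {d k : ℕ}

open scoped Classical in
/-- weight of a site in the block mean -/
noncomputable def Ww (s : Shp d) (t : Blk d k) (x : Site d (k + 1)) : ℝ :=
  (((oS s).filter fun p => pt t p.1 p.2 = x).card : ℝ) / ((oS s).card : ℝ)

open scoped Classical in
private noncomputable def B3a_ok (s : Shp d) : Finset (Bt d) :=
  univ.filter fun b => ∀ j β, s = some (j, β) → b j = β

private theorem B3a_ok_card (s : Shp d) : ((B3a_ok s).card : ℝ) = if s = none then (2 : ℝ) ^ d else (2 : ℝ) ^ (d - 1) := by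
  classical
  cases s with
  | none =>
    rw [if_pos rfl]
    have : B3a_ok (none : Shp d) = univ := by
      unfold B3a_ok
      ext b
      simp
    rw [this, Finset.card_univ, Fintype.card_fun, Fintype.card_bool, Fintype.card_fin]
    push_cast
    rfl
  | some jb =>
    obtain ⟨j, β⟩ := jb
    rw [if_neg (by simp)]
    have h1 : B3a_ok (some (j, β) : Shp d) = Fintype.piFinset (fun i => if i = j then ({β} : Finset Bool) else univ) := by
      unfold B3a_ok
      ext b
      simp only [mem_filter, mem_univ, true_and, Option.some.injEq, Prod.mk.injEq, Fintype.mem_piFinset]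
      constructor
      · intro h i
        by_cases hi : i = j
        · subst hi
          rw [if_pos rfl, mem_singleton]
          exact h i β ⟨rfl, rfl⟩
        · rw [if_neg hi]
          exact mem_univ _
      · rintro h j' β' ⟨h1, h2⟩
        subst h1 h2
        have := h j
        rw [if_pos rfl, mem_singleton] at this
        exact this
    rw [h1, Fintype.card_piFinset]
    have h2 : ∀ i : Fin d, (if i = j then ({β} : Finset Bool) else univ).card = if i = j then 1 else 2 := by
      intro i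
      by_cases hi : i = j
      · rw [if_pos hi, if_pos hi, card_singleton]
      · rw [if_neg hi, if_neg hi, Finset.card_univ, Fintype.card_bool]
    rw [Finset.prod_congr rfl fun i _ => h2 i, Finset.prod_ite, Finset.prod_const_one, one_mul, Finset.prod_const]
    have h3 : (univ.filter fun i : Fin d => ¬ i = j).card = d - 1 := by
      rw [Finset.filter_not, Finset.card_sdiff_of_subset (Finset.filter_subset _ _), Finset.card_univ, Fintype.card_fin]
      congr 1
      rw [Finset.card_eq_one]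
      exact ⟨j, by ext i; simp⟩
    rw [h3]
    push_cast
    rfl

private theorem B3a_mem_ok {s : Shp d} {a b : Bt d} (h : inS s a b) : b ∈ B3a_ok s := by
  classical
  unfold B3a_ok
  rw [mem_filter]
  refine ⟨mem_univ _, ?_⟩
  rintro j β rfl
  exact h.2

private theorem B3a_mem_oS {s : Shp d} {p : Bt d × Bt d} : p ∈ oS s ↔ od p.1 p.2 ∧ inS s p.1 p.2 := by
  classical
  unfold oS
  simp

private theorem B3a_ratio (hd : 2 ≤ d) (s : Shp d) : ((B3a_ok s).card : ℝ) / ((oS s).card : ℝ) ≤ 4 / 2 ^ d := by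
  rw [B3a_ok_card, oS_card hd]
  by_cases hs : s = none
  · rw [if_pos hs, if_pos hs]
    have h4 : (4 : ℝ) ^ d = 2 ^ d * 2 ^ d := by rw [← mul_pow]; norm_num
    rw [h4, div_le_div_iff₀ (by positivity) (by positivity)]
    have : (0:ℝ) < 2 ^ d := by positivity
    nlinarith
  · rw [if_neg hs, if_neg hs]
    have h4 : (4 : ℝ) ^ (d - 1) = 2 ^ (d - 1) * 2 ^ (d - 1) := by rw [← mul_pow]; norm_num
    have h5 : (2 : ℝ) ^ d = 2 * 2 ^ (d - 1) := by
      rw [← pow_succ']
      congr 1
      omega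
    rw [h4, h5, div_le_div_iff₀ (by positivity) (by positivity)]
    have : (0:ℝ) < 2 ^ (d - 1) := by positivity
    nlinarith

private theorem B3a_bv_inj : Function.Injective (bv : Bt d → Site d (k + 1)) := by
  intro a a' h
  funext i
  have h1 := congrFun h i
  unfold bv at h1
  have h2 : (1 : ZMod (2 ^ (k + 1))) ≠ 0 := by
    have : Fact (1 < 2 ^ (k + 1)) := ⟨Nat.one_lt_two_pow (by omega)⟩
    exact one_ne_zero
  cases ha : a i <;> cases ha' : a' i <;> simp only [ha, ha', if_true, Bool.false_eq_true, if_false] at h1 ⊢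
  · exact absurd h1.symm h2
  · exact absurd h1 h2

private theorem B3a_pt_inj (t : Blk d k) (a a' b : Bt d) (h : pt t a b = pt t a' b) : a = a' := by
  unfold pt at h
  have h1 : bas t + bv a = bas t + bv a' := add_right_cancel h
  exact B3a_bv_inj (add_left_cancel h1)

theorem Ww_nonneg (s : Shp d) (t : Blk d k) (x : Site d (k + 1)) : 0 ≤ Ww s t x := by
  unfold Ww
  positivity

theorem Ww_repr (s : Shp d) (t : Blk d k) (φ : Site d (k + 1) → ℝ) : Ms s t φ = ∑ x, Ww s t x * φ x := by
  classical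
  unfold Ms Ww
  have h1 : ∑ p ∈ oS s, φ (pt t p.1 p.2) =
      ∑ x : Site d (k + 1), (((oS s).filter fun p => pt t p.1 p.2 = x).card : ℝ) * φ x := by
    rw [← Finset.sum_fiberwise (oS s) (fun p => pt t p.1 p.2)]
    refine Finset.sum_congr rfl fun x _ => ?_
    rw [Finset.sum_congr rfl (fun p hp => by rw [(Finset.mem_filter.1 hp).2] : ∀ p ∈ (oS s).filter
      (fun p => pt t p.1 p.2 = x), φ (pt t p.1 p.2) = φ x)]
    rw [Finset.sum_const, nsmul_eq_mul]
  rw [h1, Finset.sum_div]
  refine Finset.sum_congr rfl fun x _ => ?_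
  rw [div_mul_eq_mul_div]

theorem Ww_one (hd : 2 ≤ d) (s : Shp d) (t : Blk d k) : ∑ x, Ww s t x = 1 := by
  have h := Ww_repr s t (fun _ : Site d (k + 1) => (1 : ℝ))
  rw [Ms_const hd] at h
  simp only [mul_one] at h
  exact h.symm

theorem Ww_max (hd : 2 ≤ d) (s : Shp d) (t : Blk d k) (x : Site d (k + 1)) : Ww s t x ≤ 4 / 2 ^ d := by
  classical
  unfold Ww
  refine le_trans ?_ (B3a_ratio hd s)
  refine div_le_div_of_nonneg_right ?_ (Nat.cast_nonneg _)
  have h : ((oS s).filter fun p => pt t p.1 p.2 = x).card ≤ (B3a_ok s).card := by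
    refine Finset.card_le_card_of_injOn (fun p => p.2) ?_ ?_
    · intro p hp
      have hp' := Finset.mem_filter.1 (Finset.mem_coe.1 hp)
      exact B3a_mem_ok (B3a_mem_oS.1 hp'.1).2
    · rintro ⟨a, b⟩ hp ⟨a', b'⟩ hp' hb
      have h1 := (Finset.mem_filter.1 (Finset.mem_coe.1 hp)).2
      have h2 := (Finset.mem_filter.1 (Finset.mem_coe.1 hp')).2
      simp only at hb h1 h2
      subst hb
      rw [B3a_pt_inj t a a' b (h1.trans h2.symm)]
  exact_mod_cast h

theorem Ww_sum (hd : 2 ≤ d) (s : Shp d) (x : Site d (k + 1)) : ∑ t : Blk d k, Ww s t x ≤ 4 / 2 ^ d := by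
  classical
  unfold Ww
  rw [← Finset.sum_div]
  refine le_trans ?_ (B3a_ratio hd s)
  refine div_le_div_of_nonneg_right ?_ (Nat.cast_nonneg _)
  have h := sum_pt (d := d) (k := k) (fun y b => if y = x ∧ b ∈ B3a_ok s then (1:ℝ) else 0)
  have hR : ∑ y : Site d (k + 1), ∑ b : Bt d, (if y = x ∧ b ∈ B3a_ok s then (1:ℝ) else 0) = (B3a_ok s).card := by
    rw [Finset.sum_eq_single x]
    · simp only [true_and]
      rw [← Finset.sum_filter, Finset.filter_univ_mem, Finset.sum_const, nsmul_eq_mul, mul_one]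
    · intro y _ hy
      refine Finset.sum_eq_zero fun b _ => ?_
      rw [if_neg]
      rintro ⟨h1, _⟩
      exact hy h1
    · intro hx
      exact absurd (mem_univ _) hx
  rw [← hR, ← h]
  refine Finset.sum_le_sum fun t _ => ?_
  rw [Finset.card_filter]
  push_cast
  unfold oS
  rw [Finset.sum_filter, ← Finset.univ_product_univ, Finset.sum_product]
  refine Finset.sum_le_sum fun a _ => Finset.sum_le_sum fun b _ => ?_
  by_cases h1 : od a b ∧ inS s a b
  · rw [if_pos h1]
    have h2 : b ∈ B3a_ok s := B3a_mem_ok h1.2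
    by_cases h3 : pt t a b = x
    · rw [if_pos h3, if_pos ⟨h3, h2⟩]
    · rw [if_neg h3]
      positivity
  · rw [if_neg h1]
    positivity

theorem Ww_par (s : Shp d) (t : Blk d k) (x : Site d (k + 1)) (hx : x ∉ cls false d (k + 1)) : Ww s t x = 0 := by
  classical
  unfold Ww
  have h1 : ((oS s).filter fun p => pt t p.1 p.2 = x) = ∅ := by
    rw [Finset.filter_eq_empty_iff]
    intro p hp hpx
    apply hx
    have hod := (B3a_mem_oS.1 hp).1
    show x ∈ cls false d (k + 1)
    unfold cls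
    rw [if_neg (by simp)]
    unfold ods
    rw [mem_filter]
    refine ⟨mem_univ _, ?_⟩
    rw [← hpx, evn_pt]
    exact not_not.2 hod
  rw [h1]
  simp

end Pool.Agent.THR

end

/-! ### from `Lib_MP_2c424f_thr.C1` -/

section

/-!
# THR C1: the code (paper proof: C1)

Split `F` according to the colours on `R` (at most `q^|R|` classes, one of them may be empty).  In a class `hhat f = H` is fixed.  For `f` in
the class: `1 ≤ exp (Λ - J f) = exp Λ · ∏_{u ∈ b} (exp (-H u (f u))/∑_γ exp (-H u γ)) · ∏_{v ∈ !b} 1/av f v`.  Sum over all proper `f`: for fixed colours on the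
class `b` the sum over the colours on `!b` (each `v` has `av f v` allowed colours, and `av f v` depends on the class `b` only) of
`∏ 1/av` is at most `1`; the sum over all colourings of the class `b` of the product of probabilities is `1`.
(For instance: `∑_{f ∈ prps} G f = ∑_{f : Site → Fin q} ...`; use functions `cls b → Fin q` or sum over all `f` with a factor `q^(-|!b|)`; see
`LIN.resum` for this trick.)
-/

set_option autoImplicit false

open Finset Filter

namespace Pool.Agent.THR

open Pool.Agent.LO Pool.Agent.LIN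

variable {d k q : ℕ}

/-- code length -/
noncomputable def JJ (b : Bool) (H : Site d k → Fin q → ℝ) (f : Site d k → Fin q) : ℝ :=
  ∑ u ∈ cls b d k, (H u (f u) + Real.log (∑ γ, Real.exp (-H u γ))) + ∑ v ∈ cls (!b) d k, Real.log (av f v)

private theorem C1_mem_SS (f : Site d k → Fin q) (v : Site d k) (c : Fin q) :
    c ∈ SS f v ↔ ∃ σ : Stp d, f (v + sv σ) = c := by
  simp only [SS, mem_image, mem_univ, true_and]

/-- properness is tested on one class -/
private theorem C1_prp (hk : 1 ≤ k) (b : Bool) (f : Site d k → Fin q) :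
    Prp f ↔ ∀ v ∈ cls b d k, f v ∉ SS f v := by
  constructor
  · intro hf v _ hv
    obtain ⟨σ, hσ⟩ := (C1_mem_SS f v (f v)).1 hv
    exact hf v σ hσ
  · intro h x σ hx
    by_cases hb : x ∈ cls b d k
    · exact h x hb ((C1_mem_SS f x (f x)).2 ⟨σ, hx⟩)
    · have h1 : x + sv σ ∈ cls b d k := (mem_cls_step hk b x σ).2 ((cls_not b x).2 hb)
      refine h _ h1 ((C1_mem_SS f _ _).2 ⟨(σ.1, !σ.2), ?_⟩)
      rw [add_assoc, show (sv σ : Site d k) + sv (σ.1, !σ.2) = 0 from sv_opp σ.1 σ.2, add_zero, hx]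

open scoped Classical in
/-- sum over the colours of one class, the weight depends on the other class only -/
private theorem C1_resum (hk : 1 ≤ k) (b : Bool) (p : Site d k → Fin q → ℝ) (hp : ∀ u c, 0 ≤ p u c)
    (hs : ∀ u, ∑ c, p u c = 1) :
    ∑ f ∈ prps d k q, (∏ u ∈ cls b d k, p u (f u)) * ∏ v ∈ cls (!b) d k, (1 / (av f v : ℝ)) ≤ 1 := by
  set e := Equiv.piEquivPiSubtypeProd (fun x : Site d k => x ∈ cls (!b) d k) (fun _ => Fin q) with he
  have hcb : ∀ x : Site d k, x ∈ cls b d k ↔ ¬ x ∈ cls (!b) d k := by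
    intro x
    rw [cls_not]
    exact not_not.symm
  have h0 : ∑ f ∈ prps d k q, (∏ u ∈ cls b d k, p u (f u)) * ∏ v ∈ cls (!b) d k, (1 / (av f v : ℝ)) =
      ∑ f : Site d k → Fin q, (∏ u ∈ cls b d k, p u (f u)) *
        ∏ v ∈ cls (!b) d k, (if f v ∉ SS f v then 1 / (av f v : ℝ) else 0) := by
    unfold prps
    rw [sum_filter]
    refine sum_congr rfl fun f _ => ?_
    by_cases hf : Prp f
    · rw [if_pos hf]
      congr 1
      refine prod_congr rfl fun v hv => ?_
      rw [if_pos ((C1_prp hk (!b) f).1 hf v hv)]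
    · rw [if_neg hf]
      rw [C1_prp hk (!b) f] at hf
      push Not at hf
      obtain ⟨v, hv, h1⟩ := hf
      symm
      refine mul_eq_zero_of_right _ (prod_eq_zero hv ?_)
      rw [if_neg (not_not.2 h1)]
  rw [h0, ← e.symm.sum_comp, Fintype.sum_prod_type_right]
  -- the colours seen from the class do not depend on the colours of the class
  have hSS : ∀ (h : {x // ¬ x ∈ cls (!b) d k} → Fin q) (g g' : {x // x ∈ cls (!b) d k} → Fin q), ∀ v ∈ cls (!b) d k,
      SS (e.symm (g, h)) v = SS (e.symm (g', h)) v := by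
    intro h g g' v hv
    unfold SS
    refine image_congr ?_
    intro σ _
    have h1 : v + sv σ ∉ cls (!b) d k := by
      rw [mem_cls_step hk, Bool.not_not]
      intro hc
      exact (hcb v).1 hc hv
    simp only [he, Equiv.piEquivPiSubtypeProd_symm_apply, dif_neg h1]
  have hstep : ∀ h : {x // ¬ x ∈ cls (!b) d k} → Fin q,
      ∑ g : {x // x ∈ cls (!b) d k} → Fin q, (∏ u ∈ cls b d k, p u (e.symm (g, h) u)) *
        ∏ v ∈ cls (!b) d k, (if e.symm (g, h) v ∉ SS (e.symm (g, h)) v then 1 / (av (e.symm (g, h)) v : ℝ) else 0) ≤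
      ∏ u : {x // ¬ x ∈ cls (!b) d k}, p u.1 (h u) := by
    intro h
    rcases isEmpty_or_nonempty ({x // x ∈ cls (!b) d k} → Fin q) with hE | ⟨⟨g₀⟩⟩
    · rw [Fintype.sum_empty]
      exact prod_nonneg fun u _ => hp _ _
    have hP : ∀ g : {x // x ∈ cls (!b) d k} → Fin q, ∏ u ∈ cls b d k, p u (e.symm (g, h) u) =
        ∏ u : {x // ¬ x ∈ cls (!b) d k}, p u.1 (h u) := by
      intro g
      rw [prod_subtype (cls b d k) hcb]
      refine prod_congr rfl fun u _ => ?_
      simp only [he, Equiv.piEquivPiSubtypeProd_symm_apply, dif_neg u.2, Subtype.coe_eta]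
    have hL : ∀ g : {x // x ∈ cls (!b) d k} → Fin q,
        ∏ v ∈ cls (!b) d k, (if e.symm (g, h) v ∉ SS (e.symm (g, h)) v then 1 / (av (e.symm (g, h)) v : ℝ) else 0) =
        ∏ v : {x // x ∈ cls (!b) d k}, (if g v ∉ SS (e.symm (g₀, h)) v.1
          then 1 / (av (e.symm (g₀, h)) v.1 : ℝ) else 0) := by
      intro g
      rw [← prod_coe_sort]
      refine prod_congr rfl fun v _ => ?_
      have h1 := hSS h g g₀ v.1 v.2
      have h2 : av (e.symm (g, h)) v.1 = av (e.symm (g₀, h)) v.1 := by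
        unfold av
        rw [h1]
      have h3 : e.symm (g, h) v.1 = g v := by
        simp only [he, Equiv.piEquivPiSubtypeProd_symm_apply, dif_pos v.2, Subtype.coe_eta]
      rw [h1, h2, h3]
    rw [sum_congr rfl fun g _ => by rw [hP g, hL g], ← mul_sum]
    have h3 := prod_univ_sum (fun _ : {x // x ∈ cls (!b) d k} => (univ : Finset (Fin q)))
      (fun v c => if c ∉ SS (e.symm (g₀, h)) v.1
          then 1 / (av (e.symm (g₀, h)) v.1 : ℝ) else 0)
    rw [Fintype.piFinset_univ] at h3
    rw [← h3]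
    have h4 : ∏ v : {x // x ∈ cls (!b) d k}, ∑ c : Fin q, (if c ∉ SS (e.symm (g₀, h)) v.1
          then 1 / (av (e.symm (g₀, h)) v.1 : ℝ) else 0) ≤ 1 := by
      refine prod_le_one (fun v _ => sum_nonneg fun c _ => by split_ifs <;> positivity) fun v _ => ?_
      rw [← sum_filter, sum_const, nsmul_eq_mul]
      have h5 : (univ.filter fun c : Fin q => c ∉ SS (e.symm (g₀, h)) v.1).card = av (e.symm (g₀, h)) v.1 := by
        rw [filter_not, card_sdiff_of_subset (filter_subset _ _)]
        have h6 : (univ.filter fun c : Fin q => c ∈ SS (e.symm (g₀, h)) v.1) =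
            SS (e.symm (g₀, h)) v.1 := by
          ext c
          simp
        rw [h6, card_univ, Fintype.card_fin]
        rfl
      rw [h5, mul_one_div]
      exact div_self_le_one _
    have h5 : 0 ≤ ∏ u : {x // ¬ x ∈ cls (!b) d k}, p u.1 (h u) := prod_nonneg fun u _ => hp _ _
    calc _ ≤ (∏ u : {x // ¬ x ∈ cls (!b) d k}, p u.1 (h u)) * 1 := mul_le_mul_of_nonneg_left h4 h5
      _ = _ := mul_one _
  refine (sum_le_sum fun h _ => hstep h).trans ?_
  have h6 := prod_univ_sum (fun _ : {x // ¬ x ∈ cls (!b) d k} => (univ : Finset (Fin q)))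
      (fun u c => p u.1 c)
  rw [Fintype.piFinset_univ] at h6
  rw [← h6]
  exact (prod_eq_one fun u _ => hs _).le

theorem code_fixed (hk : 1 ≤ k) (hq : 1 ≤ q) (b : Bool) (H : Site d k → Fin q → ℝ) :
    ∑ f ∈ prps d k q, Real.exp (-JJ b H f) ≤ 1 := by
  classical
  have : NeZero q := ⟨by omega⟩
  have hpos : ∀ u, 0 < ∑ γ, Real.exp (-H u γ) := fun u =>
    sum_pos (fun γ _ => Real.exp_pos _) ⟨0, mem_univ _⟩
  refine le_trans (le_of_eq ?_) (C1_resum (d := d) (k := k) hk b
    (fun u c => Real.exp (-H u c) / ∑ γ, Real.exp (-H u γ))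
    (fun u c => by have := hpos u; positivity)
    (fun u => by rw [← sum_div, div_self (hpos u).ne']))
  refine sum_congr rfl fun f hf => ?_
  have hPf : Prp f := by
    simpa [prps] using hf
  unfold JJ
  rw [neg_add, Real.exp_add, ← sum_neg_distrib, ← sum_neg_distrib, Real.exp_sum, Real.exp_sum]
  congr 1
  · refine prod_congr rfl fun u _ => ?_
    rw [neg_add, Real.exp_add, Real.exp_neg (Real.log _), Real.exp_log (hpos u), div_eq_mul_inv]
  · refine prod_congr rfl fun v hv => ?_
    have hav : 0 < av f v := by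
      have h1 := (C1_prp hk (!b) f).1 hPf v hv
      unfold av
      have h2 : (SS f v).card < q := by
        have := card_lt_card (s := SS f v) (t := univ) ⟨subset_univ _, fun hc => h1 (hc (mem_univ _))⟩
        rwa [card_univ, Fintype.card_fin] at this
      omega
    have hav' : (0 : ℝ) < (av f v : ℝ) := by exact_mod_cast hav
    rw [Real.exp_neg, Real.exp_log hav', one_div]

theorem code (hk : 1 ≤ k) (hq : 1 ≤ q) (b : Bool) (R : Finset (Site d k))
    (Hf : (Site d k → Fin q) → Site d k → Fin q → ℝ) (hloc : ∀ f g, (∀ x ∈ R, f x = g x) → Hf f = Hf g)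
    (F : Finset (Site d k → Fin q)) (hF : F ⊆ prps d k q) (Λ : ℝ) (h : ∀ f ∈ F, JJ b (Hf f) f ≤ Λ) :
    (F.card : ℝ) ≤ (q : ℝ) ^ R.card * Real.exp Λ := by
  classical
  let ρ : (Site d k → Fin q) → (R → Fin q) := fun f x => f x.1
  have h1 := card_eq_sum_card_fiberwise (s := F) (t := (univ : Finset (R → Fin q))) (f := ρ) fun f _ => by simp
  have h2 : ∀ r : R → Fin q, (((F.filter fun f => ρ f = r).card : ℕ) : ℝ) ≤ Real.exp Λ := by
    intro r
    rcases (F.filter fun f => ρ f = r).eq_empty_or_nonempty with he | ⟨f₀, hf₀⟩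
    · rw [he, card_empty, Nat.cast_zero]
      exact (Real.exp_pos _).le
    · have hf₀' := mem_filter.1 hf₀
      have h3 : ∀ f ∈ F.filter fun f => ρ f = r, (1 : ℝ) ≤ Real.exp Λ * Real.exp (-JJ b (Hf f₀) f) := by
        intro f hf
        have hf' := mem_filter.1 hf
        have h4 : Hf f = Hf f₀ := hloc f f₀ fun x hx => by
          have h5 : ρ f = ρ f₀ := hf'.2.trans hf₀'.2.symm
          exact congrFun h5 ⟨x, hx⟩
        have h5 := h f hf'.1
        rw [h4] at h5
        rw [← Real.exp_add]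
        exact Real.one_le_exp (by linarith)
      calc (((F.filter fun f => ρ f = r).card : ℕ) : ℝ)
          = ∑ f ∈ F.filter fun f => ρ f = r, (1 : ℝ) := by simp
        _ ≤ ∑ f ∈ F.filter fun f => ρ f = r, Real.exp Λ * Real.exp (-JJ b (Hf f₀) f) := sum_le_sum h3
        _ = Real.exp Λ * ∑ f ∈ F.filter fun f => ρ f = r, Real.exp (-JJ b (Hf f₀) f) := by rw [mul_sum]
        _ ≤ Real.exp Λ * ∑ f ∈ prps d k q, Real.exp (-JJ b (Hf f₀) f) := by
            refine mul_le_mul_of_nonneg_left ?_ (Real.exp_pos _).le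
            exact sum_le_sum_of_subset_of_nonneg ((filter_subset _ _).trans hF) fun f _ _ => (Real.exp_pos _).le
        _ ≤ Real.exp Λ * 1 := mul_le_mul_of_nonneg_left (code_fixed hk hq b (Hf f₀)) (Real.exp_pos _).le
        _ = Real.exp Λ := mul_one _
  rw [h1, Nat.cast_sum]
  calc ∑ r : R → Fin q, (((F.filter fun f => ρ f = r).card : ℕ) : ℝ) ≤ ∑ _r : R → Fin q, Real.exp Λ :=
        sum_le_sum fun r _ => h2 r
    _ = (q : ℝ) ^ R.card * Real.exp Λ := by
        rw [sum_const, card_univ, Fintype.card_fun, Fintype.card_fin, Fintype.card_coe, nsmul_eq_mul, Nat.cast_pow]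

end Pool.Agent.THR

end

/-! ### from `Lib_MP_2c424f_lc3.T14` -/

section

/-!
# Part III, T14: the first colouring rarely has a colour of `A` at an odd vertex; `X0` is small

`ω ∈ OM`: `TTo` for `(f, A)` and `(g, B)`.
`nA_le`: `2 d #{y odd : f y ∈ A} = ∑_{x even} #{y ~ x : f y ∈ A}` (double counting; `deg`, `par`).  If `TyE` holds at `x`: `#{y ~ x : f y ∈ A} = ∑_{c ∈ A} nv ≤ ∑_{c ∈ A} nv^2 ≤ e^{-a/2} q` (E4);
otherwise it is at most `2 d`, for at most `N / d^6` vertices.  So `#{…} ≤ N e^{-a/2} q / (4 d) + N / d^6 ≤ N / 10^50` (`d ≥ 10^10`, `num_e`, `q ≤ d`).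
`X0_card`: an element of `X0` is an even `v` with `¬ TyE` for `(f, A)` or `(g, B)`, or an odd `v` with `¬ TyO` for one of them, or an odd neighbour of an even vertex of the first kind
(degrees are `2 d`): at most `(2 + 4 d) N / d^6 ≤ 6 N / d^5`.
-/

set_option autoImplicit false

open Finset Filter

namespace Pool.Agent.LC3

open Pool.Agent.LO Pool.Agent.LIN Pool.Agent.THR Pool.Agent.COR Pool.Agent.LC

section
variable {V : Type} [Fintype V] [DecidableEq V] {d q j : ℕ}

omit [DecidableEq V] in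
open scoped Classical in
private theorem mem_nb14 (X : SimpleGraph V) (v x : V) : x ∈ nb X v ↔ X.Adj v x := by
  unfold nb
  simp

open scoped Classical in
private theorem om14 (D : Bal V d q j) {ω : V → Fin q × Fin q} (hω : ω ∈ OM D) :
    TTo d D.G D.ev D.A (fo ω) ∧ TTo d D.G D.ev D.B (go ω) := by
  unfold OM at hω
  rw [mem_filter] at hω
  exact ⟨hω.2.2.1, hω.2.2.2⟩

omit [DecidableEq V] in
open scoped Classical in
/-- neighbours of an even vertex with a colour of `A` -/
private theorem fib14 (D : Bal V d q j) (F : V → Fin q) (x : V) :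
    ((univ.filter fun y => D.G.Adj x y ∧ F y ∈ D.A).card : ℝ) = ∑ c ∈ D.A, (nv D.G F x c : ℝ) := by
  have h := Finset.card_eq_sum_card_fiberwise (s := univ.filter fun y => D.G.Adj x y ∧ F y ∈ D.A) (t := D.A)
    (f := F) (by
      intro y hy
      have hy' : y ∈ (univ.filter fun y => D.G.Adj x y ∧ F y ∈ D.A) := hy
      rw [mem_filter] at hy'
      exact hy'.2.2)
  rw [h]
  push_cast
  refine Finset.sum_congr rfl fun c hc => ?_
  unfold nv
  congr 2
  ext y
  simp only [mem_filter, mem_univ, true_and]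
  constructor
  · rintro ⟨⟨h1, _⟩, h3⟩
    exact ⟨h1, h3⟩
  · rintro ⟨h1, h3⟩
    exact ⟨⟨h1, by rw [h3]; exact hc⟩, h3⟩

omit [DecidableEq V] in
open scoped Classical in
private theorem loc14 (D : Bal V d q j) (F : V → Fin q) {x : V} (hx : D.ev x) :
    ((univ.filter fun y => D.G.Adj x y ∧ F y ∈ D.A).card : ℝ) ≤
      Real.exp (-ra d q / 2) * q + if TyE d D.G D.ev D.A F x then 0 else (2 * d : ℝ) := by
  have he : (0 : ℝ) ≤ Real.exp (-ra d q / 2) * q := by positivity
  split_ifs with hT
  · rw [fib14 D F x, add_zero]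
    calc ∑ c ∈ D.A, (nv D.G F x c : ℝ) ≤ ∑ c ∈ D.A, (nv D.G F x c : ℝ) ^ 2 := by
          refine Finset.sum_le_sum fun c _ => ?_
          exact_mod_cast Nat.le_self_pow (by norm_num) _
      _ ≤ ∑ c ∈ univ.filter (fun c => tS D.ev D.A x c), (nv D.G F x c : ℝ) ^ 2 := by
          refine Finset.sum_le_sum_of_subset_of_nonneg ?_ fun _ _ _ => by positivity
          intro c hc
          rw [mem_filter]
          exact ⟨mem_univ _, ⟨fun _ => hc, fun _ => hx⟩⟩
      _ ≤ Real.exp (-ra d q / 2) * q := hT.e4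
  · have h1 : (univ.filter fun y => D.G.Adj x y ∧ F y ∈ D.A).card ≤ (nb D.G x).card := by
      refine Finset.card_le_card fun y hy => ?_
      rw [mem_filter] at hy
      rw [mem_nb14]
      exact hy.2.1
    rw [D.deg x] at h1
    have h2 : ((univ.filter fun y => D.G.Adj x y ∧ F y ∈ D.A).card : ℝ) ≤ ((2 * d : ℕ) : ℝ) := by exact_mod_cast h1
    push_cast at h2
    linarith

omit [DecidableEq V] in
open scoped Classical in
/-- double counting -/
private theorem dbl14 (D : Bal V d q j) (F : V → Fin q) :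
    (2 * d : ℝ) * ((univ.filter fun v => ¬ D.ev v ∧ F v ∈ D.A).card : ℝ) ≤
      ∑ x ∈ univ.filter (fun x => D.ev x), ((univ.filter fun y => D.G.Adj x y ∧ F y ∈ D.A).card : ℝ) := by
  have h1 : (2 * d : ℝ) * ((univ.filter fun v => ¬ D.ev v ∧ F v ∈ D.A).card : ℝ) =
      ∑ y ∈ univ.filter (fun v => ¬ D.ev v ∧ F v ∈ D.A), ((nb D.G y).card : ℝ) := by
    rw [Finset.sum_congr rfl fun y _ => by rw [D.deg y], Finset.sum_const, nsmul_eq_mul]
    push_cast
    ring
  have h2 : ∀ y ∈ univ.filter (fun v => ¬ D.ev v ∧ F v ∈ D.A), ((nb D.G y).card : ℝ) =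
      ∑ x ∈ univ.filter (fun x => D.ev x), if D.G.Adj x y then (1 : ℝ) else 0 := by
    intro y hy
    rw [mem_filter] at hy
    rw [Finset.sum_boole]
    congr 2
    ext x
    rw [mem_nb14, mem_filter, mem_filter]
    constructor
    · intro h
      exact ⟨⟨mem_univ _, ((D.par x y h.symm).2 hy.2.1)⟩, h.symm⟩
    · intro h
      exact h.2.symm
  rw [h1, Finset.sum_congr rfl h2, Finset.sum_comm]
  refine Finset.sum_le_sum fun x _ => ?_
  rw [Finset.sum_boole]
  have : ((univ.filter (fun v => ¬ D.ev v ∧ F v ∈ D.A)).filter fun y => D.G.Adj x y).card ≤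
      (univ.filter fun y => D.G.Adj x y ∧ F y ∈ D.A).card := by
    refine Finset.card_le_card fun y hy => ?_
    rw [mem_filter, mem_filter] at hy
    rw [mem_filter]
    exact ⟨mem_univ _, hy.2, hy.1.2.2⟩
  exact_mod_cast this

theorem nA_le (D : Bal V d q j) {ω : V → Fin q × Fin q} (hω : ω ∈ OM D) :
    nJ D D.A ω ≤ (Fintype.card V : ℝ) / 10 ^ 50 := by
  classical
  have hT := (om14 D hω).1
  have hd0 : 1 ≤ d := le_trans (by norm_num) D.dl
  obtain ⟨hq1, hq2, _⟩ := num_q D.rg hd0
  obtain ⟨_, he, _⟩ := num_e D.rg hd0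
  have hdR : (10 : ℝ) ^ 10 ≤ d := by exact_mod_cast D.dl
  have hd : (0 : ℝ) < d := lt_of_lt_of_le (by norm_num) hdR
  have hqd : (q : ℝ) ≤ d := by
    have : q ≤ d := by omega
    exact_mod_cast this
  have hN : (0 : ℝ) ≤ (Fintype.card V : ℝ) := Nat.cast_nonneg _
  -- number of the bad even vertices
  have hbad : (((univ.filter (fun x => D.ev x)).filter fun x => ¬ TyE d D.G D.ev D.A (fo ω) x).card : ℝ) ≤
      (Fintype.card V : ℝ) / (d : ℝ) ^ 6 := by
    unfold TTo at hT
    refine le_trans ?_ hT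
    have : ((univ.filter (fun x => D.ev x)).filter fun x => ¬ TyE d D.G D.ev D.A (fo ω) x).card ≤
        (univ.filter fun v => (D.ev v ∧ ¬ TyE d D.G D.ev D.A (fo ω) v) ∨
          (¬ D.ev v ∧ ¬ TyO d D.G D.ev D.A (fo ω) v)).card := by
      refine Finset.card_le_card fun y hy => ?_
      rw [mem_filter, mem_filter] at hy
      rw [mem_filter]
      exact ⟨mem_univ _, Or.inl ⟨hy.1.2, hy.2⟩⟩
    exact_mod_cast this
  have hev : ((univ.filter fun x => D.ev x).card : ℝ) ≤ (Fintype.card V : ℝ) := by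
    have := Finset.card_le_univ (univ.filter fun x => D.ev x)
    exact_mod_cast this
  have hdb := dbl14 D (fo ω)
  have hs : ∑ x ∈ univ.filter (fun x => D.ev x), ((univ.filter fun y => D.G.Adj x y ∧ fo ω y ∈ D.A).card : ℝ) ≤
      (Fintype.card V : ℝ) * (1 / 10 ^ 100 * d) + (Fintype.card V : ℝ) / (d : ℝ) ^ 6 * (2 * d) := by
    calc ∑ x ∈ univ.filter (fun x => D.ev x), ((univ.filter fun y => D.G.Adj x y ∧ fo ω y ∈ D.A).card : ℝ)
        ≤ ∑ x ∈ univ.filter (fun x => D.ev x), (Real.exp (-ra d q / 2) * q +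
            if TyE d D.G D.ev D.A (fo ω) x then 0 else (2 * d : ℝ)) := by
          refine Finset.sum_le_sum fun x hx => ?_
          rw [mem_filter] at hx
          exact loc14 D (fo ω) hx.2
      _ = ((univ.filter fun x => D.ev x).card : ℝ) * (Real.exp (-ra d q / 2) * q) +
          (((univ.filter (fun x => D.ev x)).filter fun x => ¬ TyE d D.G D.ev D.A (fo ω) x).card : ℝ) * (2 * d) := by
          rw [Finset.sum_add_distrib, Finset.sum_const, nsmul_eq_mul, Finset.sum_ite, Finset.sum_const_zero,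
            zero_add, Finset.sum_const, nsmul_eq_mul]
      _ ≤ (Fintype.card V : ℝ) * (1 / 10 ^ 100 * d) + (Fintype.card V : ℝ) / (d : ℝ) ^ 6 * (2 * d) := by
          refine add_le_add ?_ ?_
          · refine mul_le_mul hev (mul_le_mul he hqd (Nat.cast_nonneg _) (by positivity)) (by positivity) hN
          · exact mul_le_mul_of_nonneg_right hbad (by positivity)
  have h6 : (Fintype.card V : ℝ) / (d : ℝ) ^ 6 ≤ (Fintype.card V : ℝ) / 10 ^ 60 := by
    refine div_le_div_of_nonneg_left hN (by positivity) ?_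
    calc (10 : ℝ) ^ 60 = (10 ^ 10) ^ 6 := by norm_num
      _ ≤ (d : ℝ) ^ 6 := by gcongr
  have hfin : (2 * d : ℝ) * nJ D D.A ω ≤ (2 * d : ℝ) * ((Fintype.card V : ℝ) / 10 ^ 50) := by
    have h1 : (2 * d : ℝ) * nJ D D.A ω ≤
        (Fintype.card V : ℝ) * (1 / 10 ^ 100 * d) + (Fintype.card V : ℝ) / (d : ℝ) ^ 6 * (2 * d) := by
      have h2 := le_trans hdb hs
      unfold nJ
      unfold fo at h2
      convert h2 using 2
    refine le_trans h1 ?_
    have h3 : (Fintype.card V : ℝ) / (d : ℝ) ^ 6 * (2 * d) ≤ (Fintype.card V : ℝ) / 10 ^ 60 * (2 * d) :=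
      mul_le_mul_of_nonneg_right h6 (by positivity)
    have h4 : 0 ≤ (Fintype.card V : ℝ) * d := by positivity
    have h5 : (Fintype.card V : ℝ) * (1 / 10 ^ 100 * d) + (Fintype.card V : ℝ) / 10 ^ 60 * (2 * d) =
        ((Fintype.card V : ℝ) * d) * (1 / 10 ^ 100 + 2 / 10 ^ 60) := by ring
    have h7 : (2 * d : ℝ) * ((Fintype.card V : ℝ) / 10 ^ 50) = ((Fintype.card V : ℝ) * d) * (2 / 10 ^ 50) := by ring
    rw [h7]
    calc (Fintype.card V : ℝ) * (1 / 10 ^ 100 * d) + (Fintype.card V : ℝ) / (d : ℝ) ^ 6 * (2 * d)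
        ≤ (Fintype.card V : ℝ) * (1 / 10 ^ 100 * d) + (Fintype.card V : ℝ) / 10 ^ 60 * (2 * d) := by linarith
      _ = ((Fintype.card V : ℝ) * d) * (1 / 10 ^ 100 + 2 / 10 ^ 60) := h5
      _ ≤ ((Fintype.card V : ℝ) * d) * (2 / 10 ^ 50) := mul_le_mul_of_nonneg_left (by norm_num) h4
  exact le_of_mul_le_mul_left hfin (by positivity)

theorem X0_card (D : Bal V d q j) {ω : V → Fin q × Fin q} (hω : ω ∈ OM D) :
    ((X0 D ω).card : ℝ) ≤ 6 * (Fintype.card V : ℝ) / (d : ℝ) ^ 5 := by
  classical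
  obtain ⟨hA, hB⟩ := om14 D hω
  have hdR : (10 : ℝ) ^ 10 ≤ d := by exact_mod_cast D.dl
  have hd : (0 : ℝ) < d := lt_of_lt_of_le (by norm_num) hdR
  have hN : (0 : ℝ) ≤ (Fintype.card V : ℝ) := Nat.cast_nonneg _
  obtain ⟨BA, hBA⟩ : ∃ S : Finset V, S = univ.filter fun v => (D.ev v ∧ ¬ TyE d D.G D.ev D.A (fo ω) v) ∨
      (¬ D.ev v ∧ ¬ TyO d D.G D.ev D.A (fo ω) v) := ⟨_, rfl⟩
  obtain ⟨BB, hBB⟩ : ∃ S : Finset V, S = univ.filter fun v => (D.ev v ∧ ¬ TyE d D.G D.ev D.B (go ω) v) ∨
      (¬ D.ev v ∧ ¬ TyO d D.G D.ev D.B (go ω) v) := ⟨_, rfl⟩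
  have mA : ∀ v, v ∈ BA ↔ (D.ev v ∧ ¬ TyE d D.G D.ev D.A (fo ω) v) ∨
      (¬ D.ev v ∧ ¬ TyO d D.G D.ev D.A (fo ω) v) := by
    intro v
    rw [hBA, mem_filter]
    exact ⟨fun h => h.2, fun h => ⟨mem_univ _, h⟩⟩
  have mB : ∀ v, v ∈ BB ↔ (D.ev v ∧ ¬ TyE d D.G D.ev D.B (go ω) v) ∨
      (¬ D.ev v ∧ ¬ TyO d D.G D.ev D.B (go ω) v) := by
    intro v
    rw [hBB, mem_filter]
    exact ⟨fun h => h.2, fun h => ⟨mem_univ _, h⟩⟩
  have cA : (BA.card : ℝ) ≤ (Fintype.card V : ℝ) / (d : ℝ) ^ 6 := by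
    unfold TTo at hA
    rw [hBA]
    convert hA using 2
  have cB : (BB.card : ℝ) ≤ (Fintype.card V : ℝ) / (d : ℝ) ^ 6 := by
    unfold TTo at hB
    rw [hBB]
    convert hB using 2
  have hsub : X0 D ω ⊆ (BA ∪ BB) ∪ (BA ∪ BB).biUnion fun x => nb D.G x := by
    intro v hv
    unfold X0 at hv
    rw [mem_filter] at hv
    rw [mem_union]
    rcases hv.2 with ⟨hev, hT⟩ | ⟨hev, hc⟩
    · left
      rw [mem_union, mA, mB]
      by_cases h1 : TyE d D.G D.ev D.A (fo ω) v
      · right; left
        exact ⟨hev, fun h2 => hT ⟨h1, h2⟩⟩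
      · left; left
        exact ⟨hev, h1⟩
    · by_cases h1 : TyO d D.G D.ev D.A (fo ω) v
      · by_cases h2 : TyO d D.G D.ev D.B (go ω) v
        · right
          by_contra hno
          refine hc ⟨⟨h1, h2, (D.deg v).le⟩, fun x hx => ?_⟩
          rw [mem_nb14] at hx
          have hex : D.ev x := by
            by_contra hx'
            exact hev ((D.par v x hx).2 hx')
          have hxn : v ∈ nb D.G x := by
            rw [mem_nb14]
            exact hx.symm
          refine ⟨?_, ?_, (D.deg x).le⟩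
          · by_contra h3
            exact hno (mem_biUnion.2 ⟨x, mem_union_left _ ((mA x).2 (Or.inl ⟨hex, h3⟩)), hxn⟩)
          · by_contra h3
            exact hno (mem_biUnion.2 ⟨x, mem_union_right _ ((mB x).2 (Or.inl ⟨hex, h3⟩)), hxn⟩)
        · left
          rw [mem_union, mA, mB]
          right; right
          exact ⟨hev, h2⟩
      · left
        rw [mem_union, mA, mB]
        left; right
        exact ⟨hev, h1⟩
  have hc1 : (X0 D ω).card ≤ (BA ∪ BB).card + (BA ∪ BB).card * (2 * d) := by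
    refine le_trans (Finset.card_le_card hsub) (le_trans (Finset.card_union_le _ _) ?_)
    refine Nat.add_le_add_left ?_ _
    refine Finset.card_biUnion_le_card_mul _ _ _ fun x _ => ?_
    exact (D.deg x).le
  have hc2 : (BA ∪ BB).card ≤ BA.card + BB.card := Finset.card_union_le _ _
  have hc3 : ((X0 D ω).card : ℝ) ≤ ((BA.card : ℝ) + BB.card) * (1 + 2 * d) := by
    have h1 : ((X0 D ω).card : ℝ) ≤ ((BA ∪ BB).card : ℝ) + ((BA ∪ BB).card : ℝ) * (2 * d) := by exact_mod_cast hc1
    have h2 : ((BA ∪ BB).card : ℝ) ≤ (BA.card : ℝ) + BB.card := by exact_mod_cast hc2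
    calc ((X0 D ω).card : ℝ) ≤ ((BA ∪ BB).card : ℝ) * (1 + 2 * d) := by linarith
      _ ≤ ((BA.card : ℝ) + BB.card) * (1 + 2 * d) := mul_le_mul_of_nonneg_right h2 (by positivity)
  have hd1 : (1 : ℝ) ≤ d := le_trans (by norm_num) hdR
  calc ((X0 D ω).card : ℝ) ≤ ((BA.card : ℝ) + BB.card) * (1 + 2 * d) := hc3
    _ ≤ ((Fintype.card V : ℝ) / (d : ℝ) ^ 6 + (Fintype.card V : ℝ) / (d : ℝ) ^ 6) * (1 + 2 * d) :=
        mul_le_mul_of_nonneg_right (add_le_add cA cB) (by positivity)
    _ ≤ ((Fintype.card V : ℝ) / (d : ℝ) ^ 6 + (Fintype.card V : ℝ) / (d : ℝ) ^ 6) * (3 * d) :=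
        mul_le_mul_of_nonneg_left (by linarith) (by positivity)
    _ = 6 * (Fintype.card V : ℝ) / (d : ℝ) ^ 5 := by
        field_simp
        ring

end

end Pool.Agent.LC3

end

/-! ### from `Lib_MP_2c424f_lc3.T02` -/

section

/-!
# Part III, T02: the sets `A` and `B` with `|A| + |B| = q`

Choose a permutation `π` with `π c ∈ B ↔ c ∉ A` (`|Aᶜ| = |B|`; e.g. `Finset.equivOfCardEq` and `Equiv.extendSubtype`, or
`Equiv.Perm` from the equivalences of the subtypes).  `F ↦ F'`, `F' x = π (F (s x))` is a bijection of the functions which preserves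
`PrG`, and `Ty d G ev B F' v ↔ Ty d G ev A F (s v)` by `TyO_iso`, `TyE_iso`: `tS ev B v (π c) = (ev v ↔ π c ∈ B)`,
`tS ev A (s v) c = (ev (s v) ↔ c ∈ A)`.  So the numbers of the vertices which are not typical agree (reindex by `s`).
-/

set_option autoImplicit false

open Finset Filter

namespace Pool.Agent.LC3

open Pool.Agent.LO Pool.Agent.LIN Pool.Agent.THR Pool.Agent.COR Pool.Agent.LC

private theorem T02_perm {q : ℕ} (A B : Finset (Fin q)) (h : A.card + B.card = q) :
    ∃ π : Equiv.Perm (Fin q), ∀ c, π c ∈ B ↔ c ∉ A := by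
  classical
  have h1 : (Aᶜ : Finset (Fin q)).card = B.card := by
    rw [Finset.card_compl, Fintype.card_fin]
    omega
  let e : {c // c ∈ (Aᶜ : Finset (Fin q))} ≃ {c // c ∈ B} := Finset.equivOfCardEq h1
  refine ⟨e.extendSubtype, fun c => ⟨fun h2 h3 => ?_, fun h2 => ?_⟩⟩
  · have h4 : ¬ c ∈ (Aᶜ : Finset (Fin q)) := by
      rw [Finset.mem_compl]
      exact not_not.2 h3
    exact e.extendSubtype_not_mem c h4 h2
  · exact e.extendSubtype_mem c (Finset.mem_compl.2 h2)

open scoped Classical in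
theorem TT_symm {V : Type} [Fintype V] [DecidableEq V] {d q : ℕ} (G : SimpleGraph V) (ev : V → Prop)
    (s : Equiv.Perm V) (hs : ∀ x y, G.Adj (s x) (s y) ↔ G.Adj x y) (he : ∀ v, ev (s v) ↔ ¬ ev v)
    (A B : Finset (Fin q)) (h : A.card + B.card = q) (r : ℝ) :
    cG G (fun F : V → Fin q => ((univ.filter fun v => ¬ Ty d G ev A F v).card : ℝ) ≤ r) =
      cG G (fun F : V → Fin q => ((univ.filter fun v => ¬ Ty d G ev B F v).card : ℝ) ≤ r) := by
  obtain ⟨π, hπ⟩ := T02_perm A B h
  have hT : ∀ v c, tS ev B v (π c) ↔ tS ev A (s v) c := by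
    intro v c
    have h1 := hπ c
    have h2 := he v
    unfold tS
    tauto
  have hTy : ∀ (F : V → Fin q) (v : V), Ty d G ev B (fun x => π (F (s x))) v ↔ Ty d G ev A F (s v) := by
    intro F v
    unfold LC.Ty
    rw [TyO_iso G ev s hs π A B hT F v, TyE_iso G ev s hs π A B hT F v]
  let Φ : (V → Fin q) ≃ (V → Fin q) :=
    { toFun := fun F x => π (F (s x))
      invFun := fun F x => π.symm (F (s.symm x))
      left_inv := fun F => by funext x; simp
      right_inv := fun F => by funext x; simp }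
  have hPr : ∀ F : V → Fin q, PrG G F ↔ PrG G (Φ F) := by
    intro F
    constructor
    · intro hF x y hxy hc
      exact hF (s x) (s y) ((hs x y).2 hxy) (π.injective hc)
    · intro hF x y hxy hc
      have h1 : G.Adj (s.symm x) (s.symm y) := by
        rw [← hs]
        simpa using hxy
      refine hF _ _ h1 ?_
      show π (F (s (s.symm x))) = π (F (s (s.symm y)))
      rw [Equiv.apply_symm_apply, Equiv.apply_symm_apply, hc]
  have hcard : ∀ F : V → Fin q, (univ.filter fun v => ¬ Ty d G ev B (Φ F) v).card =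
      (univ.filter fun v => ¬ Ty d G ev A F v).card := by
    intro F
    refine Finset.card_equiv s fun v => ?_
    rw [Finset.mem_filter, Finset.mem_filter]
    have h1 := hTy F v
    constructor
    · rintro ⟨_, h2⟩
      exact ⟨Finset.mem_univ _, fun h3 => h2 (h1.2 h3)⟩
    · rintro ⟨_, h2⟩
      exact ⟨Finset.mem_univ _, fun h3 => h2 (h1.1 h3)⟩
  unfold cG
  refine congrArg Nat.cast (Finset.card_equiv Φ fun F => ?_)
  rw [Finset.mem_filter, Finset.mem_filter]
  simp only [Finset.mem_univ, true_and]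
  rw [hcard F, ← hPr F]

end Pool.Agent.LC3

end

/-! ### from `Lib_MP_2c424f_lc3.T27` -/

section

/-!
# Part III, T27: labels: `|A|` and adjacent blocks

`ms_half`: `a = 2 d / q ≥ 1000 > 1`, so `MFE a m` has a solution (`THR.mfe_exists`) and `ms d q` is one.  `m ≥ 1/2`: by `THR.mfe_nondeg` `a^2 (1 - m^2) < 1`, so `m^2 > 1 - 10^{-6}`.
`ALP_card`: `∑_c frq false none c g = q` (every odd pair has one colour; `oS none` is not empty, `d ≥ 1`), `G0P`: `|frq false none c g - (1 - m)| ≤ 1/1000` for `c ∈ ALP g` (label false) and `|… - (1 + m)| ≤ 1/1000` for `c ∉ ALP g` (label true).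
So `|m (q - 2 |A|)| ≤ q / 1000`, and `m ≥ 1/2`.
`ALP_const`: blocks `t` and `t' = t + e_i` (`Function.update t i (t i + 1)`): the face `a i = b i = true` of `t` is the face `a i = b i = false` of `t'`: `pt t a b = pt t' (flp a i) (flp b i)` (see `Lib_MP_2c424f_thr/B1b.lean`:
`B1b_nxt_pt`, `B1b_bij`; copy the private lemmas).  So `frq e (some (i, true)) c (pat f t) = frq e (some (i, false)) c (pat f t')`.  If `c ∈ ALP (pat f t)`, `c ∉ ALP (pat f t')`: `G0P` gives label true for `t'`, and `|2 m| ≤ 2/1000`: impossible.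
The same with `t`, `t'` exchanged.  The torus of blocks is connected under these steps.
-/

set_option autoImplicit false

open Finset Filter

namespace Pool.Agent.LC3

open Pool.Agent.LO Pool.Agent.LIN Pool.Agent.THR Pool.Agent.COR Pool.Agent.LC

section
variable {d k q : ℕ}

theorem ms_half (hR : Rg d q) (hd : 1 ≤ d) : 1 / 2 ≤ ms d q ∧ MFE (ra d q) (ms d q) := by
  classical
  have ha := num_a hR hd
  have ha1 : (1 : ℝ) < ra d q := by linarith [ha.1]
  have hex := mfe_exists (ra d q) ha1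
  have hms : MFE (ra d q) (ms d q) := by
    unfold ms
    rw [dif_pos hex]
    exact hex.choose_spec
  refine ⟨?_, hms⟩
  have h1 := mfe_nondeg (ra d q) (ms d q) ha1 hms
  have h2 : 0 < ms d q := hms.1
  by_contra hlt
  push Not at hlt
  have h3 : (ms d q) ^ 2 ≤ 1 / 4 := by nlinarith
  have h4 : (1000 : ℝ) ^ 2 ≤ (ra d q) ^ 2 := by nlinarith [ha.1]
  nlinarith

private theorem T27_oS_pos (hd : 2 ≤ d) : 0 < (oS (none : Shp d)).card := by
  classical
  have hd0 : 0 < d := by omega
  apply Finset.card_pos.2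
  refine ⟨(fun _ => false, Function.update (fun _ => false) ⟨0, hd0⟩ true), ?_⟩
  unfold oS
  rw [Finset.mem_filter]
  refine ⟨Finset.mem_univ _, ?_, trivial⟩
  unfold od
  have h : (univ.filter fun i : Fin d => (fun _ => false : Bt d) i ≠
      Function.update (fun _ => false : Bt d) ⟨0, hd0⟩ true i) = {⟨0, hd0⟩} := by
    ext i
    rw [Finset.mem_filter, Finset.mem_singleton]
    by_cases h : i = ⟨0, hd0⟩
    · subst h
      simp
    · rw [Function.update_of_ne h]
      simp [h]
  dsimp only at h ⊢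
  rw [h, Finset.card_singleton]
  exact odd_one

private theorem T27_sum (hd : 2 ≤ d) (g : Pat d q) : ∑ c, frq false none c g = q := by
  classical
  unfold frq
  simp only [Bool.false_eq_true, if_false]
  rw [← Finset.sum_div, Finset.sum_comm]
  have h : ∀ p ∈ oS (none : Shp d), ∑ c, (if g p.1 p.2 = c then (q : ℝ) else 0) = q := by
    intro p _
    rw [Finset.sum_ite_eq]
    simp
  rw [Finset.sum_congr rfl h, Finset.sum_const, nsmul_eq_mul]
  have h2 : (0 : ℝ) < ((oS (none : Shp d)).card : ℝ) := by exact_mod_cast T27_oS_pos hd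
  field_simp

private theorem T27_mem (g : Pat d q) (hg : G0P g) (c : Fin q) :
    (c ∈ ALP g ∧ st et false c g) ∨ (c ∉ ALP g ∧ st et true c g) := by
  classical
  have hm : c ∈ ALP g ↔ st et false c g := by
    unfold ALP
    rw [Finset.mem_filter]
    simp
  by_cases h : st et false c g
  · exact Or.inl ⟨hm.2 h, h⟩
  · refine Or.inr ⟨fun h' => h (hm.1 h'), ?_⟩
    have h1 := hg c
    unfold bdP at h1
    by_contra h2
    exact h1 ⟨h2, h⟩

theorem ALP_card (hR : Rg d q) (hd : 2 ≤ d) (g : Pat d q) (hg : G0P g) :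
    |((ALP g).card : ℝ) - q / 2| ≤ q / 500 := by
  classical
  have hm := (ms_half hR (by omega)).1
  have hs := T27_sum hd g
  set m := ms d q with hmdef
  have h1 : ∀ c : Fin q, |frq false none c g - (if c ∈ ALP g then 1 - m else 1 + m)| ≤ 1 / 1000 := by
    intro c
    rcases T27_mem g hg c with ⟨h, h'⟩ | ⟨h, h'⟩
    · rw [if_pos h]
      have h2 := (h' none).2
      unfold et at h2
      exact h2
    · rw [if_neg h]
      have h2 := (h' none).1
      unfold et at h2
      simpa using h2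
  have h2 : |∑ c : Fin q, (frq false none c g - (if c ∈ ALP g then 1 - m else 1 + m))| ≤ q / 1000 := by
    refine (Finset.abs_sum_le_sum_abs _ _).trans ?_
    refine (Finset.sum_le_sum fun c _ => h1 c).trans ?_
    rw [Finset.sum_const, Finset.card_univ, Fintype.card_fin, nsmul_eq_mul]
    linarith
  rw [Finset.sum_sub_distrib, hs] at h2
  have h3 : ∑ c : Fin q, (if c ∈ ALP g then 1 - m else 1 + m) = q * (1 + m) - 2 * m * (ALP g).card := by
    have e : ∀ c : Fin q, (if c ∈ ALP g then 1 - m else 1 + m) = (1 + m) - (if c ∈ ALP g then 2 * m else 0) := by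
      intro c
      split_ifs <;> ring
    rw [Finset.sum_congr rfl fun c _ => e c, Finset.sum_sub_distrib, Finset.sum_const, Finset.card_univ,
      Fintype.card_fin, nsmul_eq_mul, ← Finset.sum_filter]
    rw [Finset.filter_mem_eq_inter, Finset.univ_inter, Finset.sum_const, nsmul_eq_mul]
    ring
  rw [h3] at h2
  have h4 : (q : ℝ) - (q * (1 + m) - 2 * m * (ALP g).card) = 2 * m * ((ALP g).card - q / 2) := by ring
  rw [h4, abs_mul, abs_of_nonneg (by linarith : (0 : ℝ) ≤ 2 * m)] at h2
  have h5 : 0 ≤ |((ALP g).card : ℝ) - q / 2| := abs_nonneg _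
  have h6 : (0 : ℝ) ≤ q := Nat.cast_nonneg q
  nlinarith

private theorem T27_flp_self (a : Bt d) (j : Fin d) : flp a j j = !a j := by
  unfold flp
  exact Function.update_self _ _ _

private theorem T27_flp_ne (a : Bt d) (i j : Fin d) (h : i ≠ j) : flp a j i = a i := by
  unfold flp
  exact Function.update_of_ne h _ _

private theorem T27_flp_flp (a : Bt d) (j : Fin d) : flp (flp a j) j = a := by
  funext i
  by_cases h : i = j
  · subst h
    rw [T27_flp_self, T27_flp_self, Bool.not_not]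
  · rw [T27_flp_ne _ _ _ h, T27_flp_ne _ _ _ h]

private theorem T27_od (j : Fin d) (a b : Bt d) : od (flp a j) (flp b j) ↔ od a b := by
  unfold od
  have h : (univ.filter fun i => flp a j i ≠ flp b j i) = univ.filter fun i => a i ≠ b i := by
    apply Finset.filter_congr
    intro i _
    by_cases hi : i = j
    · subst hi
      rw [T27_flp_self, T27_flp_self]
      cases a i <;> cases b i <;> simp
    · rw [T27_flp_ne _ _ _ hi, T27_flp_ne _ _ _ hi]
  rw [h]

private theorem T27_nxt_pt (t : Blk d k) (j : Fin d) (a b : Bt d) (ha : a j = true) (hb : b j = true) :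
    pt (LO.nxt t j) (flp a j) (flp b j) = pt t a b := by
  funext i
  unfold pt
  rw [Pi.add_apply, Pi.add_apply, Pi.add_apply, Pi.add_apply]
  by_cases hi : i = j
  · subst hi
    have e1 : ∀ u : ZMod (2 ^ k), ((2 * (u + 1).val : ℕ) : ZMod (2 ^ (k + 1))) =
        ((2 * u.val : ℕ) : ZMod (2 ^ (k + 1))) + 2 := by
      intro u
      have e2 : (((2 * (u + 1).val : ℕ)) : ZMod (2 ^ (k + 1))) = ((2 * u.val + 2 : ℕ) : ZMod (2 ^ (k + 1))) := by
        rw [ZMod.natCast_eq_natCast_iff]
        have h1 : (u + 1).val ≡ u.val + 1 [MOD 2 ^ k] := by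
          rw [← ZMod.natCast_eq_natCast_iff]
          push_cast
          rw [ZMod.natCast_zmod_val, ZMod.natCast_zmod_val]
        have h2 : 2 * (u + 1).val ≡ 2 * (u.val + 1) [MOD 2 * 2 ^ k] := h1.mul_left' 2
        have h3 : 2 * 2 ^ k = 2 ^ (k + 1) := by rw [pow_succ, mul_comm]
        rw [h3] at h2
        exact h2
      rw [e2]
      push_cast
      ring
    simp only [bas, bv, LO.nxt, Function.update_self, T27_flp_self, ha, hb]
    rw [e1]
    simp
    ring
  · simp only [bas, bv, LO.nxt, Function.update_of_ne hi, T27_flp_ne _ _ _ hi]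

private theorem T27_face (f : Site d (k + 1) → Fin q) (t : Blk d k) (j : Fin d) (c : Fin q) :
    frq false (some (j, true)) c (pat f t) = frq false (some (j, false)) c (pat f (LO.nxt t j)) := by
  classical
  have m1 : ∀ (β : Bool) (p : Bt d × Bt d), p ∈ oS (some (j, β)) ↔ od p.1 p.2 ∧ (p.1 j = β ∧ p.2 j = β) := by
    intro β p
    unfold oS
    rw [Finset.mem_filter]
    simp [inS]
  have gen : ∀ F G : Bt d × Bt d → ℝ, (∀ p ∈ oS (some (j, true)), F p = G (flp p.1 j, flp p.2 j)) →
      ∑ p ∈ oS (some (j, true)), F p = ∑ p ∈ oS (some (j, false)), G p := by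
    intro F G hFG
    refine Finset.sum_nbij' (fun p => (flp p.1 j, flp p.2 j)) (fun p => (flp p.1 j, flp p.2 j)) ?_ ?_ ?_ ?_ hFG
    · intro p hp
      rw [m1] at hp ⊢
      refine ⟨(T27_od j p.1 p.2).2 hp.1, ?_, ?_⟩
      · dsimp only
        rw [T27_flp_self, hp.2.1]; rfl
      · dsimp only
        rw [T27_flp_self, hp.2.2]; rfl
    · intro p hp
      rw [m1] at hp ⊢
      refine ⟨(T27_od j p.1 p.2).2 hp.1, ?_, ?_⟩
      · dsimp only
        rw [T27_flp_self, hp.2.1]; rfl
      · dsimp only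
        rw [T27_flp_self, hp.2.2]; rfl
    · intro p _
      simp only [T27_flp_flp]
    · intro p _
      simp only [T27_flp_flp]
  unfold frq
  simp only [Bool.false_eq_true, if_false]
  have c1 := gen (fun _ => 1) (fun _ => 1) fun _ _ => rfl
  rw [Finset.sum_const, Finset.sum_const, nsmul_eq_mul, nsmul_eq_mul, mul_one, mul_one] at c1
  rw [c1]
  congr 1
  refine gen (fun p => if pat f t p.1 p.2 = c then (q : ℝ) else 0)
    (fun p => if pat f (LO.nxt t j) p.1 p.2 = c then (q : ℝ) else 0) ?_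
  intro p hp
  rw [m1] at hp
  have e : pat f (LO.nxt t j) (flp p.1 j) (flp p.2 j) = pat f t p.1 p.2 := by
    unfold pat
    rw [T27_nxt_pt t j p.1 p.2 hp.2.1 hp.2.2]
  show (if pat f t p.1 p.2 = c then (q : ℝ) else 0) =
    if pat f (LO.nxt t j) (flp p.1 j) (flp p.2 j) = c then (q : ℝ) else 0
  rw [e]

private theorem T27_conn {α : Type} (L : Blk d k → α) (h : ∀ (t : Blk d k) (j : Fin d), L (LO.nxt t j) = L t)
    (t t' : Blk d k) : L t = L t' := by
  classical
  have s1 : ∀ (n : ℕ) (t : Blk d k) (j : Fin d), L (Function.update t j (t j + (n : ZMod (2 ^ k)))) = L t := by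
    intro n
    induction n with
    | zero =>
      intro t j
      simp
    | succ n ih =>
      intro t j
      have h1 := h (Function.update t j (t j + (n : ZMod (2 ^ k)))) j
      rw [ih] at h1
      rw [← h1]
      congr 1
      unfold LO.nxt
      rw [Function.update_self, Function.update_idem]
      congr 1
      push_cast
      ring
  have s2 : ∀ (t : Blk d k) (j : Fin d) (c : ZMod (2 ^ k)), L (Function.update t j c) = L t := by
    intro t j c
    have h1 := s1 (c - t j).val t j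
    rw [ZMod.natCast_zmod_val] at h1
    rw [← h1]
    congr 2
    ring
  have s3 : ∀ s : Finset (Fin d), L (fun i => if i ∈ s then t' i else t i) = L t := by
    intro s
    induction s using Finset.induction_on with
    | empty => simp
    | insert a s ha ih =>
      rw [← ih, ← s2 (fun i => if i ∈ s then t' i else t i) a (t' a)]
      congr 1
      funext i
      by_cases hi : i = a
      · subst hi
        simp
      · rw [Function.update_of_ne hi]
        simp [hi]
  have h2 := s3 univ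
  simp only [Finset.mem_univ, if_true] at h2
  exact h2.symm

theorem ALP_const (hR : Rg d q) (hd : 2 ≤ d) (f : Site d (k + 1) → Fin q) (h : ∀ t : Blk d k, G0P (pat f t))
    (t t' : Blk d k) : ALP (pat f t) = ALP (pat f t') := by
  classical
  have hm := (ms_half hR (by omega)).1
  refine T27_conn (fun t => ALP (pat f t)) ?_ t t'
  intro t j
  show ALP (pat f (LO.nxt t j)) = ALP (pat f t)
  ext c
  have hf := T27_face f t j c
  rcases T27_mem _ (h t) c with ⟨h1, h1'⟩ | ⟨h1, h1'⟩
  · rcases T27_mem _ (h (LO.nxt t j)) c with ⟨h2, h2'⟩ | ⟨h2, h2'⟩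
    · exact ⟨fun _ => h1, fun _ => h2⟩
    · exfalso
      have e1 := (h1' (some (j, true))).2
      have e2 := (h2' (some (j, false))).1
      simp only [Bool.not_true] at e2
      rw [hf] at e1
      unfold et at e1 e2
      rw [abs_le] at e1 e2
      linarith [e1.1, e1.2, e2.1, e2.2]
  · rcases T27_mem _ (h (LO.nxt t j)) c with ⟨h2, h2'⟩ | ⟨h2, h2'⟩
    · exfalso
      have e1 := (h1' (some (j, true))).1
      have e2 := (h2' (some (j, false))).2
      simp only [Bool.not_true] at e1
      rw [hf] at e1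
      unfold et at e1 e2
      rw [abs_le] at e1 e2
      linarith [e1.1, e1.2, e2.1, e2.2]
    · exact ⟨fun h3 => absurd h3 h2, fun h3 => absurd h3 h1⟩

end

end Pool.Agent.LC3

end

/-! ### from `Lib_MP_2c424f_lc6a.A2` -/

section

/-!
# LC6a A2: glued sheets and disjoint copies

* `cG_D2s`: a colouring `F` of `D2V W gl` is the pair `f x = F (x, false)`, `g x = F (x, true)` if not `gl x`, `g x = F (x, false)` if `gl x`; `F` is proper for
  `D2s B gl` iff `f`, `g` are proper for `B` (compare `Lib_MP_2c424f_lc6.C05`, `cG_D2`); the inverse of the bijection: `F (x, false) = f x`, `F (x, true) = g x`.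
* `cG_TC`: `F = (F (·, false), F (·, true))`.
-/

set_option autoImplicit false

open Finset Filter

namespace Pool.Agent.LC

open Pool.Agent.LO Pool.Agent.LIN Pool.Agent.THR Pool.Agent.COR

open scoped Classical in
/-- the colouring of the sheet `true` -/
private noncomputable def A2_g {W : Type} {q : ℕ} (gl : W → Prop) (F : D2V W gl → Fin q) (x : W) : Fin q :=
  if h : gl x then F ⟨(x, false), fun h => Bool.noConfusion h.1⟩ else F ⟨(x, true), fun h' => h h'.2⟩

private def A2_F {W : Type} {q : ℕ} (gl : W → Prop) (p : (W → Fin q) × (W → Fin q)) (z : D2V W gl) : Fin q :=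
  if z.1.2 then p.2 z.1.1 else p.1 z.1.1

theorem cG_D2s {W : Type} [Fintype W] [DecidableEq W] {q : ℕ} (B : SimpleGraph W) (gl : W → Prop)
    [Fintype (D2V W gl)] [DecidableEq (D2V W gl)] (P : (W → Fin q) → Prop) :
    cG (D2s B gl) (fun F : D2V W gl → Fin q => P fun x => F ⟨(x, false), fun h => Bool.noConfusion h.1⟩) = N2 B gl P := by
  classical
  unfold cG N2
  congr 1
  have hgt : ∀ (F : D2V W gl → Fin q) (x : W) (h : ¬ gl x), A2_g gl F x = F ⟨(x, true), fun h' => h h'.2⟩ := by
    intro F x h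
    unfold A2_g
    rw [dif_neg h]
  have hgf : ∀ (F : D2V W gl → Fin q) (x : W), gl x → A2_g gl F x = F ⟨(x, false), fun h => Bool.noConfusion h.1⟩ := by
    intro F x h
    unfold A2_g
    rw [dif_pos h]
  have hF0 : ∀ (p : (W → Fin q) × (W → Fin q)) (x : W) (h), A2_F gl p ⟨(x, false), h⟩ = p.1 x := fun p x h => rfl
  have hF1 : ∀ (p : (W → Fin q) × (W → Fin q)) (x : W) (h), A2_F gl p ⟨(x, true), h⟩ = p.2 x := fun p x h => rfl
  refine Finset.card_nbij' (fun F => (fun x => F ⟨(x, false), fun h => Bool.noConfusion h.1⟩, A2_g gl F)) (A2_F gl) ?_ ?_ ?_ ?_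
  · intro F hF
    obtain ⟨-, hF, hP⟩ := Finset.mem_filter.1 (Finset.mem_coe.1 hF)
    refine Finset.mem_coe.2 (Finset.mem_filter.2 ⟨mem_univ _, ?_, ?_, ?_, hP⟩)
    · intro x y hxy
      exact hF ⟨(x, false), _⟩ ⟨(y, false), _⟩ ⟨hxy, fun h => Bool.noConfusion h.1, fun h => Bool.noConfusion h.1, Or.inl rfl⟩
    · intro x y hxy
      show A2_g gl F x ≠ A2_g gl F y
      by_cases hx : gl x <;> by_cases hy : gl y
      · rw [hgf F x hx, hgf F y hy]
        exact hF _ _ ⟨hxy, fun h => Bool.noConfusion h.1, fun h => Bool.noConfusion h.1, Or.inl rfl⟩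
      · rw [hgf F x hx, hgt F y hy]
        exact hF _ _ ⟨hxy, fun h => Bool.noConfusion h.1, fun h => hy h.2, Or.inr (Or.inl hx)⟩
      · rw [hgt F x hx, hgf F y hy]
        exact hF _ _ ⟨hxy, fun h => hx h.2, fun h => Bool.noConfusion h.1, Or.inr (Or.inr hy)⟩
      · rw [hgt F x hx, hgt F y hy]
        exact hF _ _ ⟨hxy, fun h => hx h.2, fun h => hy h.2, Or.inl rfl⟩
    · intro x hx
      exact (hgf F x hx).symm
  · rintro ⟨f, g⟩ hp
    obtain ⟨-, hf, hg, hfg', hP⟩ := Finset.mem_filter.1 (Finset.mem_coe.1 hp)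
    have hfg : ∀ x, gl x → f x = g x := hfg'
    refine Finset.mem_coe.2 (Finset.mem_filter.2 ⟨mem_univ _, ?_, hP⟩)
    rintro ⟨⟨x, b⟩, hx⟩ ⟨⟨y, c⟩, hy⟩ ⟨hadj, h1, h2, h3⟩
    have hadj' : B.Adj x y := hadj
    cases b <;> cases c
    · exact hf x y hadj'
    · have hxy : gl x := by
        rcases h3 with h | h | h
        · exact Bool.noConfusion h
        · exact h
        · exact absurd ⟨rfl, h⟩ h2
      show f x ≠ g y
      rw [hfg x hxy]
      exact hg x y hadj'
    · have hxy : gl y := by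
        rcases h3 with h | h | h
        · exact Bool.noConfusion h
        · exact absurd ⟨rfl, h⟩ h1
        · exact h
      show g x ≠ f y
      rw [hfg y hxy]
      exact hg x y hadj'
    · exact hg x y hadj'
  · intro F _
    funext z
    obtain ⟨⟨x, b⟩, hz⟩ := z
    cases b
    · rfl
    · show A2_g gl F x = F ⟨(x, true), hz⟩
      exact hgt F x (fun h => hz ⟨rfl, h⟩)
  · rintro ⟨f, g⟩ hp
    obtain ⟨-, hf, hg, hfg, hP⟩ := Finset.mem_filter.1 (Finset.mem_coe.1 hp)
    refine Prod.ext rfl ?_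
    funext x
    show A2_g gl (A2_F gl (f, g)) x = g x
    by_cases hx : gl x
    · rw [hgf _ x hx, hF0]
      exact hfg x hx
    · rw [hgt _ x hx, hF1]

theorem cG_TC {V : Type} [Fintype V] [DecidableEq V] {q : ℕ} (G : SimpleGraph V) :
    cG (TC G) (fun _ : V × Bool → Fin q => True) = cG G (fun _ : V → Fin q => True) ^ 2 := by
  classical
  unfold cG
  rw [sq, ← Nat.cast_mul, ← Finset.card_product]
  congr 1
  refine Finset.card_nbij' (fun F => (fun x => F (x, false), fun x => F (x, true)))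
    (fun p z => if z.2 then p.2 z.1 else p.1 z.1) ?_ ?_ ?_ ?_
  · intro F hF
    simp only [Finset.mem_coe, Finset.mem_filter] at hF
    simp only [Finset.mem_coe, Finset.mem_product, Finset.mem_filter]
    obtain ⟨-, hF, -⟩ := hF
    exact ⟨⟨mem_univ _, fun x y hxy => hF (x, false) (y, false) ⟨hxy, rfl⟩, trivial⟩,
      ⟨mem_univ _, fun x y hxy => hF (x, true) (y, true) ⟨hxy, rfl⟩, trivial⟩⟩
  · rintro ⟨f, g⟩ hp
    simp only [Finset.mem_coe, Finset.mem_product, Finset.mem_filter] at hp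
    simp only [Finset.mem_coe, Finset.mem_filter]
    obtain ⟨⟨-, hf, -⟩, ⟨-, hg, -⟩⟩ := hp
    refine ⟨mem_univ _, ?_, trivial⟩
    rintro ⟨x, b⟩ ⟨y, c⟩ ⟨hadj, h3⟩
    have hadj' : G.Adj x y := hadj
    have h4 : b = c := h3
    subst h4
    cases b
    · exact hf x y hadj'
    · exact hg x y hadj'
  · intro F _
    funext z
    obtain ⟨x, b⟩ := z
    cases b <;> rfl
  · rintro ⟨f, g⟩ _
    rfl

end Pool.Agent.LC

end

/-! ### from `Lib_MP_2c424f_lc6.C01` -/

section

/-!
# LC6 C01: chains of slabs as matrix products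

`S` a finite set of states, `M ℓ a b c` a weight for the slab `ℓ` (three consecutive layers `2ℓ, 2ℓ+1, 2ℓ+2`); sum over the middle
layers: matrices `P ℓ a c = ∑_b M ℓ a b c`.
* `slab_path`: `∑_{σ : Fin (m+1) → S} u (σ 0) w (σ m) ∏_{ℓ<n} M ℓ (σ 2ℓ) (σ (2ℓ+1)) (σ (2ℓ+2)) = u ⬝ᵥ (P 0 ⋯ P (n-1)) *ᵥ w`, `m = 2 n`.
  Induction on `n` for all `u`, `w` (split off the last two layers; e.g. first restate the sum over `ℕ → S`-like families
  `Fin (2 n + 1)`, use `Fin.snocEquiv`/`Fin.consEquiv` twice).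
* `slab_ring`: for `m + 1 = 2 n`, `n ≥ 1`, `σ : Fin (m+1) → S` with `Fin.ofNat (m+1) (2 n) = 0`: the sum is the trace of the product (sum of
  `slab_path` with `u = w = ` indicator of a state; a ring is a path with equal ends).
-/

set_option autoImplicit false

open Finset Matrix

namespace Pool.Agent.LC

variable {S : Type} [Fintype S] [DecidableEq S]

private theorem C01_sum {S : Type} [Fintype S] {n : ℕ} (F : (Fin (n + 1) → S) → ℝ) :
    ∑ σ, F σ = ∑ a, ∑ τ : Fin n → S, F (Fin.cons a τ) := by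
  rw [← (Fin.consEquiv (fun _ : Fin (n + 1) => S)).sum_comp, Fintype.sum_prod_type]
  rfl

private theorem C01_cons {S : Type} {m : ℕ} (a b : S) (τ : Fin (m + 1) → S) (j : ℕ) (hj : j ≤ m) :
    (Fin.cons a (Fin.cons b τ : Fin (m + 2) → S) : Fin (m + 3) → S) (Fin.ofNat (m + 3) (j + 2)) =
      τ (Fin.ofNat (m + 1) j) := by
  have h : Fin.ofNat (m + 3) (j + 2) = Fin.succ (Fin.succ (Fin.ofNat (m + 1) j)) := by
    ext
    simp only [Fin.val_ofNat, Fin.val_succ]
    rw [Nat.mod_eq_of_lt (by omega), Nat.mod_eq_of_lt (by omega)]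
  rw [h, Fin.cons_succ, Fin.cons_succ]

private theorem C01_snoc {S : Type} {m : ℕ} (σ : Fin (m + 1) → S) (j : ℕ) (hj : j ≤ m + 1) :
    (Fin.snoc σ (σ 0) : Fin (m + 2) → S) (Fin.ofNat (m + 2) j) = σ (Fin.ofNat (m + 1) j) := by
  rcases Nat.lt_or_ge j (m + 1) with h | h
  · have h1 : Fin.ofNat (m + 2) j = Fin.castSucc (Fin.ofNat (m + 1) j) := by
      ext
      simp only [Fin.val_ofNat, Fin.val_castSucc]
      rw [Nat.mod_eq_of_lt (by omega), Nat.mod_eq_of_lt (by omega)]
    rw [h1]
    exact Fin.snoc_castSucc (α := fun _ => S) _ _ _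
  · have h0 : j = m + 1 := by omega
    subst h0
    have h1 : Fin.ofNat (m + 2) (m + 1) = Fin.last (m + 1) := by
      ext
      simp only [Fin.val_ofNat, Fin.val_last]
      rw [Nat.mod_eq_of_lt (by omega)]
    have h2 : Fin.ofNat (m + 1) (m + 1) = 0 := by
      ext
      simp
    rw [h1, h2]
    exact Fin.snoc_last (α := fun _ => S) _ _

theorem slab_path (n m : ℕ) (hm : m = 2 * n) (M : ℕ → S → S → S → ℝ) (u w : S → ℝ) :
    ∑ σ : Fin (m + 1) → S, u (σ 0) * w (σ (Fin.last m)) *
        ∏ ℓ ∈ range n, M ℓ (σ (Fin.ofNat (m + 1) (2 * ℓ))) (σ (Fin.ofNat (m + 1) (2 * ℓ + 1))) (σ (Fin.ofNat (m + 1) (2 * ℓ + 2))) =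
      u ⬝ᵥ ((((List.range n).map fun ℓ => (Matrix.of fun a c => ∑ b, M ℓ a b c : Matrix S S ℝ)).prod) *ᵥ w) := by
  induction n generalizing m M u with
  | zero =>
    subst hm
    rw [C01_sum]
    simp only [Nat.mul_zero, Finset.range_zero, Finset.prod_empty, mul_one, Fintype.sum_unique,
      Fin.cons_zero, List.range_zero, List.map_nil, List.prod_nil, Matrix.one_mulVec]
    refine Finset.sum_congr rfl fun a _ => ?_
    rfl
  | succ n ih =>
    obtain ⟨m, rfl⟩ : ∃ m', m = m' + 2 := ⟨2 * n, by omega⟩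
    have hm' : m = 2 * n := by omega
    have hI := ih m hm' (fun ℓ => M (ℓ + 1)) (fun c => ∑ a, u a * ∑ b, M 0 a b c)
    rw [List.range_succ_eq_map, List.map_cons, List.prod_cons, List.map_map, ← Matrix.mulVec_mulVec,
      Matrix.dotProduct_mulVec]
    have hu : (u ᵥ* (Matrix.of fun a c => ∑ b, M 0 a b c : Matrix S S ℝ)) = fun c => ∑ a, u a * ∑ b, M 0 a b c := by
      funext c
      rfl
    rw [hu]
    have hl : ((List.range n).map ((fun ℓ => (Matrix.of fun a c => ∑ b, M ℓ a b c : Matrix S S ℝ)) ∘ Nat.succ)) =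
        (List.range n).map fun ℓ => (Matrix.of fun a c => ∑ b, M (ℓ + 1) a b c : Matrix S S ℝ) := rfl
    rw [hl, ← hI, C01_sum]
    have h1 : ∀ a : S, ∑ τ : Fin (m + 2) → S,
        u ((Fin.cons a τ : Fin (m + 3) → S) 0) * w ((Fin.cons a τ : Fin (m + 3) → S) (Fin.last (m + 2))) *
          ∏ ℓ ∈ range (n + 1), M ℓ ((Fin.cons a τ : Fin (m + 3) → S) (Fin.ofNat (m + 2 + 1) (2 * ℓ)))
            ((Fin.cons a τ : Fin (m + 3) → S) (Fin.ofNat (m + 2 + 1) (2 * ℓ + 1)))
            ((Fin.cons a τ : Fin (m + 3) → S) (Fin.ofNat (m + 2 + 1) (2 * ℓ + 2))) =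
        ∑ b, ∑ τ : Fin (m + 1) → S, u a * w (τ (Fin.last m)) * (M 0 a b (τ 0) *
          ∏ ℓ ∈ range n, M (ℓ + 1) (τ (Fin.ofNat (m + 1) (2 * ℓ))) (τ (Fin.ofNat (m + 1) (2 * ℓ + 1)))
            (τ (Fin.ofNat (m + 1) (2 * ℓ + 2)))) := by
      intro a
      rw [C01_sum]
      refine Finset.sum_congr rfl fun b _ => Finset.sum_congr rfl fun τ _ => ?_
      have e0 : (Fin.cons a (Fin.cons b τ : Fin (m + 2) → S) : Fin (m + 3) → S) 0 = a := rfl
      have e1 : (Fin.cons a (Fin.cons b τ : Fin (m + 2) → S) : Fin (m + 3) → S) (Fin.last (m + 2)) = τ (Fin.last m) := rfl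
      have e2 : (Fin.cons a (Fin.cons b τ : Fin (m + 2) → S) : Fin (m + 3) → S) (Fin.ofNat (m + 2 + 1) (2 * 0)) = a := by
        have : Fin.ofNat (m + 2 + 1) (2 * 0) = 0 := by ext; simp
        rw [this]
        rfl
      have e3 : (Fin.cons a (Fin.cons b τ : Fin (m + 2) → S) : Fin (m + 3) → S) (Fin.ofNat (m + 2 + 1) (2 * 0 + 1)) = b := by
        have : Fin.ofNat (m + 2 + 1) (2 * 0 + 1) = Fin.succ 0 := by
          ext
          simp only [Fin.val_ofNat, Fin.val_succ]
          rw [Nat.mod_eq_of_lt (by omega)]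
          rfl
        rw [this]
        rfl
      have e4 : (Fin.cons a (Fin.cons b τ : Fin (m + 2) → S) : Fin (m + 3) → S) (Fin.ofNat (m + 2 + 1) (2 * 0 + 2)) = τ 0 := by
        have h := C01_cons a b τ 0 (Nat.zero_le _)
        have h0 : Fin.ofNat (m + 1) 0 = 0 := by ext; simp
        rw [h0] at h
        exact h
      rw [Finset.prod_range_succ', e0, e1, e2, e3, e4, mul_comm (∏ ℓ ∈ range n, _) (M 0 a b (τ 0))]
      congr 2
      refine Finset.prod_congr rfl fun ℓ hℓ => ?_
      have hl : ℓ < n := Finset.mem_range.1 hℓ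
      have f1 := C01_cons a b τ (2 * ℓ) (by omega)
      have f2 := C01_cons a b τ (2 * ℓ + 1) (by omega)
      have f3 := C01_cons a b τ (2 * ℓ + 2) (by omega)
      have g1 : 2 * (ℓ + 1) = 2 * ℓ + 2 := by ring
      have g2 : 2 * (ℓ + 1) + 1 = 2 * ℓ + 1 + 2 := by ring
      have g3 : 2 * (ℓ + 1) + 2 = 2 * ℓ + 2 + 2 := by ring
      rw [g2, g3, g1, ← f1, ← f2, ← f3]
    rw [Finset.sum_congr rfl fun a _ => h1 a]
    rw [Finset.sum_congr rfl fun a _ => Finset.sum_comm, Finset.sum_comm]
    refine Finset.sum_congr rfl fun τ _ => ?_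
    rw [Finset.sum_mul, Finset.sum_mul]
    refine Finset.sum_congr rfl fun a _ => ?_
    rw [Finset.mul_sum, Finset.sum_mul, Finset.sum_mul]
    refine Finset.sum_congr rfl fun b _ => ?_
    ring

theorem slab_ring (n m : ℕ) (hn : 1 ≤ n) (hm : m + 1 = 2 * n) (M : ℕ → S → S → S → ℝ) :
    ∑ σ : Fin (m + 1) → S,
        ∏ ℓ ∈ range n, M ℓ (σ (Fin.ofNat (m + 1) (2 * ℓ))) (σ (Fin.ofNat (m + 1) (2 * ℓ + 1))) (σ (Fin.ofNat (m + 1) (2 * ℓ + 2))) =
      (((List.range n).map fun ℓ => (Matrix.of fun a c => ∑ b, M ℓ a b c : Matrix S S ℝ)).prod).trace := by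
  set Q : Matrix S S ℝ := ((List.range n).map fun ℓ => (Matrix.of fun a c => ∑ b, M ℓ a b c : Matrix S S ℝ)).prod with hQ
  have h1 : ∀ s : S, Q s s = ∑ σ : Fin (m + 2) → S, (if σ 0 = s then 1 else 0) * (if σ (Fin.last (m + 1)) = s then 1 else 0) *
      ∏ ℓ ∈ range n, M ℓ (σ (Fin.ofNat (m + 2) (2 * ℓ))) (σ (Fin.ofNat (m + 2) (2 * ℓ + 1))) (σ (Fin.ofNat (m + 2) (2 * ℓ + 2))) := by
    intro s
    have h2 := slab_path n (m + 1) hm M (fun x => if x = s then 1 else 0) (fun x => if x = s then 1 else 0)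
    rw [← hQ] at h2
    rw [h2]
    simp [dotProduct, Matrix.mulVec]
  unfold Matrix.trace
  simp only [Matrix.diag_apply]
  rw [Finset.sum_congr rfl fun s _ => h1 s, Finset.sum_comm]
  have h3 : ∀ σ : Fin (m + 2) → S, ∑ s, (if σ 0 = s then (1 : ℝ) else 0) * (if σ (Fin.last (m + 1)) = s then 1 else 0) *
      ∏ ℓ ∈ range n, M ℓ (σ (Fin.ofNat (m + 2) (2 * ℓ))) (σ (Fin.ofNat (m + 2) (2 * ℓ + 1))) (σ (Fin.ofNat (m + 2) (2 * ℓ + 2))) =
      if σ (Fin.last (m + 1)) = σ 0 then
        ∏ ℓ ∈ range n, M ℓ (σ (Fin.ofNat (m + 2) (2 * ℓ))) (σ (Fin.ofNat (m + 2) (2 * ℓ + 1))) (σ (Fin.ofNat (m + 2) (2 * ℓ + 2)))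
      else 0 := by
    intro σ
    rw [Finset.sum_eq_single (σ 0)]
    · rw [if_pos rfl, one_mul]
      split_ifs
      · rw [one_mul]
      · rw [zero_mul]
    · intro s _ hs
      rw [if_neg (Ne.symm hs), zero_mul, zero_mul]
    · intro h
      exact absurd (Finset.mem_univ _) h
  rw [Finset.sum_congr rfl fun σ _ => h3 σ]
  rw [← (Fin.snocEquiv (fun _ : Fin (m + 2) => S)).sum_comp, Fintype.sum_prod_type, Finset.sum_comm]
  refine Finset.sum_congr rfl fun σ _ => ?_
  have h4 : ∀ x : S, (Fin.snocEquiv (fun _ : Fin (m + 2) => S)) (x, σ) = (Fin.snoc σ x : Fin (m + 2) → S) := fun x => rfl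
  have h5 : ∀ x : S, (Fin.snoc σ x : Fin (m + 2) → S) (Fin.last (m + 1)) = x := fun x => Fin.snoc_last (α := fun _ => S) _ _
  have h6 : ∀ x : S, (Fin.snoc σ x : Fin (m + 2) → S) 0 = σ 0 := by
    intro x
    have h7 : (0 : Fin (m + 2)) = Fin.castSucc 0 := rfl
    rw [h7]
    exact Fin.snoc_castSucc (α := fun _ => S) _ _ _
  simp only [h4, h5, h6]
  rw [Finset.sum_ite_eq' Finset.univ (σ 0), if_pos (Finset.mem_univ _)]
  refine Finset.prod_congr rfl fun ℓ hℓ => ?_
  have hl : ℓ < n := Finset.mem_range.1 hℓ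
  rw [C01_snoc σ (2 * ℓ) (by omega), C01_snoc σ (2 * ℓ + 1) (by omega), C01_snoc σ (2 * ℓ + 2) (by omega)]

end Pool.Agent.LC

end

/-! ### from `Lib_MP_2c424f_lc6.C09` -/

section

/-!
# LC6 C09: the cells of a layer

`l = 2^s0` even.  In a direction with `n` points the cell with index `k < kk l n` has the coordinates `(l+2) k + 2 + u`, `0 ≤ u ≤ l`: between `2` and `n - 4`
(`(l+2)(k+1) ≤ n - 4`), so cells do not touch the glued points, the ends or the wrap of a cycle, different cells are disjoint, and interior points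
have all neighbours in the cell (in the same sheet).  `(l+2) k + 2` is even, `s` is even: parity.
In the direction `j` the coordinate is the level.
-/

set_option autoImplicit false

open Finset

namespace Pool.Agent.LC

open Pool.Agent.LO Pool.Agent.LIN Pool.Agent.THR Pool.Agent.COR

private theorem C09_lt {l n k u : ℕ} (hk : k < kk l n) (hu : u ≤ l) : (l + 2) * k + 2 + u + 4 ≤ n := by
  unfold kk at hk
  have h1 : k + 1 ≤ (n - 4) / (l + 2) := hk
  rw [Nat.le_div_iff_mul_le (by omega)] at h1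
  have h2 : (k + 1) * (l + 2) = (l + 2) * k + (l + 2) := by ring
  rw [h2] at h1
  generalize (l + 2) * k = w at *
  omega

private theorem C09_uniq {l k k' u u' : ℕ} (hu : u ≤ l) (hu' : u' ≤ l)
    (h : (l + 2) * k + 2 + u = (l + 2) * k' + 2 + u') : k = k' ∧ u = u' := by
  have h1 : (l + 2) * k + u = (l + 2) * k' + u' := by omega
  have h2 : ((l + 2) * k + u) / (l + 2) = k := by
    rw [Nat.mul_add_div (by omega), Nat.div_eq_of_lt (by omega), add_zero]
  have h3 : ((l + 2) * k' + u') / (l + 2) = k' := by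
    rw [Nat.mul_add_div (by omega), Nat.div_eq_of_lt (by omega), add_zero]
  have h4 : k = k' := by rw [← h2, ← h3, h1]
  subst h4
  exact ⟨rfl, by omega⟩

section
variable {d : ℕ} (j : Fin d) (p : {i // i ≠ j} → Bool) (L : Fin d → ℕ) (s l h : ℕ) (hh : 1 ≤ h)

private theorem C09_y (k : CI j p L s l h) (u : BxV d l) (i : {i // i ≠ j}) :
    ((kap j p L s l h hh k u).1.1 i).val = (l + 2) * (k.1.2 i).val + 2 + (u i).val := by
  have h1 := C09_lt (k.1.2 i).isLt (Nat.lt_succ_iff.1 (u i).isLt)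
  show ((l + 2) * (k.1.2 i).val + 2 + (u i).val) % (lm (p i) (L i) s + 1) = _
  exact Nat.mod_eq_of_lt (by omega)

private theorem C09_y' (k : CI j p L s l h) (u : BxV d l) (i : Fin d) (hi : i ≠ j) :
    ((kap j p L s l h hh k u).1.1 ⟨i, hi⟩).val = (l + 2) * (k.1.2 ⟨i, hi⟩).val + 2 + (u i).val :=
  C09_y j p L s l h hh k u ⟨i, hi⟩

private theorem C09_y4 (k : CI j p L s l h) (u : BxV d l) (i : {i // i ≠ j}) :
    2 ≤ ((kap j p L s l h hh k u).1.1 i).val ∧
      ((kap j p L s l h hh k u).1.1 i).val + 4 ≤ lm (p i) (L i) s + 1 := by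
  rw [C09_y]
  exact ⟨by omega, C09_lt (k.1.2 i).isLt (Nat.lt_succ_iff.1 (u i).isLt)⟩

private theorem C09_m (k : CI j p L s l h) (u : BxV d l) :
    (kap j p L s l h hh k u).2.val = (l + 2) * k.2.val + 2 + (u j).val := by
  have h1 := C09_lt k.2.isLt (Nat.lt_succ_iff.1 (u j).isLt)
  show ((l + 2) * k.2.val + 2 + (u j).val) % h = _
  exact Nat.mod_eq_of_lt (by omega)

private theorem C09_m4 (k : CI j p L s l h) (u : BxV d l) :
    2 ≤ (kap j p L s l h hh k u).2.val ∧ (kap j p L s l h hh k u).2.val + 4 ≤ h := by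
  rw [C09_m]
  exact ⟨by omega, C09_lt k.2.isLt (Nat.lt_succ_iff.1 (u j).isLt)⟩

private theorem C09_b (k : CI j p L s l h) (u : BxV d l) : (kap j p L s l h hh k u).1.2 = k.1.1 := rfl

/-- a point with the coordinates of a point of a cell is in the cell -/
private theorem C09_ext (k : CI j p L s l h) (u : BxV d l) (v : (YV j p L s × Bool) × Fin h)
    (h1 : ∀ i, (v.1.1 i).val = (l + 2) * (k.1.2 i).val + 2 + (u i).val) (h2 : v.1.2 = k.1.1)
    (h3 : v.2.val = (l + 2) * k.2.val + 2 + (u j).val) : v = kap j p L s l h hh k u := by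
  apply Prod.ext
  · apply Prod.ext
    · funext i
      apply Fin.ext
      rw [h1, C09_y]
    · rw [h2, C09_b]
  · apply Fin.ext
    rw [h3, C09_m]

private theorem C09_a {Y : Type} (K : ℕ) (hsh : h ≤ s) (z : (Y × Bool) × Fin h) :
    (ib s K h false z).1.2.val = s + z.2.val := by
  have h1 := z.2.isLt
  show (s + (if false = true then 2 * K else 0) + z.2.val) % (2 * s + 2 * K + 1) = _
  simp only [Bool.false_eq_true, if_false, add_zero]
  exact Nat.mod_eq_of_lt (by omega)

private theorem C09_gl (hsh : h ≤ s) (k : CI j p L s l h) (u : BxV d l) :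
    ¬ glp (Ygl j p L s) (2 * s + 2 * L j) (ib s (L j) h false (kap j p L s l h hh k u)).1 := by
  have hm := C09_m4 j p L s l h hh k u
  have ha := C09_a s h (L j) hsh (kap j p L s l h hh k u)
  rintro (⟨i, -, hi⟩ | h0 | h0)
  · have hy := C09_y4 j p L s l h hh k u i
    have e : ((ib s (L j) h false (kap j p L s l h hh k u)).1.1 i).val =
        ((kap j p L s l h hh k u).1.1 i).val := rfl
    rw [e] at hi
    omega
  · rw [ha] at h0
    omega
  · rw [ha] at h0
    omega

end

theorem layer_levels {d : ℕ} (j : Fin d) (p : {i // i ≠ j} → Bool) (L : Fin d → ℕ) (s l h : ℕ) (hh : 1 ≤ h)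
    (k : CI j p L s l h) (u : BxV d l) :
    1 ≤ (kap j p L s l h hh k u).2.val ∧ (kap j p L s l h hh k u).2.val + 2 ≤ h := by
  have := C09_m4 j p L s l h hh k u
  omega

theorem layer_cells {d : ℕ} (j : Fin d) (p : {i // i ≠ j} → Bool) (L : Fin d → ℕ) (s l h : ℕ) (hl : Even l) (hl1 : 2 ≤ l)
    (hs : Even s) (hh : 1 ≤ h) (hsh : h ≤ s) (hL : ∀ i, h < 2 * L i) :
    Cells d l (LG s (L j) h (YG j p L s) (Ygl j p L s))
      (fun z => evP (Yev j p L s) (ib s (L j) h false z)) (kap j p L s l h hh) := by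
  have hLj := hL j
  constructor
  · intro k k' u u' he
    have e1 : ∀ i : {i // i ≠ j}, (k.1.2 i).val = (k'.1.2 i).val ∧ (u i).val = (u' i).val := by
      intro i
      have h1 := C09_y j p L s l h hh k u i
      have h2 := C09_y j p L s l h hh k' u' i
      rw [he, h2] at h1
      have h3 := C09_uniq (Nat.lt_succ_iff.1 (u' i).isLt) (Nat.lt_succ_iff.1 (u i).isLt) h1
      exact ⟨h3.1.symm, h3.2.symm⟩
    have e2 : k.2.val = k'.2.val ∧ (u j).val = (u' j).val := by
      have h1 := C09_m j p L s l h hh k u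
      have h2 := C09_m j p L s l h hh k' u'
      rw [he, h2] at h1
      have h3 := C09_uniq (Nat.lt_succ_iff.1 (u' j).isLt) (Nat.lt_succ_iff.1 (u j).isLt) h1
      exact ⟨h3.1.symm, h3.2.symm⟩
    have e3 : k.1.1 = k'.1.1 := by
      rw [← C09_b j p L s l h hh k u, he, C09_b]
    refine ⟨?_, ?_⟩
    · apply Prod.ext
      · apply Prod.ext
        · exact e3
        · funext i
          exact Fin.ext (e1 i).1
      · exact Fin.ext e2.1
    · funext i
      by_cases hi : i = j
      · subst hi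
        exact Fin.ext e2.2
      · exact Fin.ext (e1 ⟨i, hi⟩).2
  · intro k u u'
    have g1 := C09_gl j p L s l h hh hsh k u
    have g2 := C09_gl j p L s l h hh hsh k u'
    have a1 := C09_a s h (L j) hsh (kap j p L s l h hh k u)
    have a2 := C09_a s h (L j) hsh (kap j p L s l h hh k u')
    have m1 := C09_m j p L s l h hh k u
    have m2 := C09_m j p L s l h hh k u'
    have n1 := C09_m4 j p L s l h hh k u
    have n2 := C09_m4 j p L s l h hh k u'
    constructor
    · rintro ⟨hadj, -, -, -⟩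
      rw [SimpleGraph.boxProd_adj] at hadj
      rcases hadj with ⟨⟨i, hi1, hi2⟩, ha⟩ | ⟨ha, hy⟩
      · have ha' := congrArg Fin.val ha
        rw [a1, a2] at ha'
        refine ⟨i.1, ?_, ?_⟩
        · intro i' hi'
          by_cases hij : i' = j
          · subst hij
            exact Fin.ext (by omega)
          · have h1 := congrArg Fin.val (hi1 ⟨i', hij⟩ (fun h => hi' (congrArg Subtype.val h)))
            have h2 := C09_y' j p L s l h hh k u i' hij
            have h3 := C09_y' j p L s l h hh k u' i' hij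
            change ((kap j p L s l h hh k u).1.1 ⟨i', hij⟩).val =
              ((kap j p L s l h hh k u').1.1 ⟨i', hij⟩).val at h1
            exact Fin.ext (by omega)
        · have h2 := C09_y j p L s l h hh k u i
          have h3 := C09_y j p L s l h hh k u' i
          have h4 := C09_y4 j p L s l h hh k u i
          have h5 := C09_y4 j p L s l h hh k u' i
          obtain ⟨-, hi2⟩ := hi2
          change ((kap j p L s l h hh k u).1.1 i).val + 1 = ((kap j p L s l h hh k u').1.1 i).val ∨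
            ((kap j p L s l h hh k u').1.1 i).val + 1 = ((kap j p L s l h hh k u).1.1 i).val ∨
            (p i = true ∧ ((((kap j p L s l h hh k u).1.1 i).val = 0 ∧
              ((kap j p L s l h hh k u').1.1 i).val + 1 = lm (p i) (L i) s + 1) ∨
              (((kap j p L s l h hh k u').1.1 i).val = 0 ∧
              ((kap j p L s l h hh k u).1.1 i).val + 1 = lm (p i) (L i) s + 1))) at hi2
          rcases hi2 with hi2 | hi2 | ⟨-, hi2 | hi2⟩
          · left
            omega
          · right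
            omega
          · omega
          · omega
      · refine ⟨j, ?_, ?_⟩
        · intro i' hi'
          have h1 := congrArg Fin.val (congrFun hy ⟨i', hi'⟩)
          have h2 := C09_y' j p L s l h hh k u i' hi'
          have h3 := C09_y' j p L s l h hh k u' i' hi'
          change ((kap j p L s l h hh k u).1.1 ⟨i', hi'⟩).val =
            ((kap j p L s l h hh k u').1.1 ⟨i', hi'⟩).val at h1
          exact Fin.ext (by omega)
        · obtain ⟨-, ha⟩ := ha
          unfold nxt at ha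
          rw [a1, a2] at ha
          omega
    · rintro ⟨i, hi1, hi2⟩
      refine ⟨?_, fun hx => g1 hx.2, fun hx => g2 hx.2, Or.inl rfl⟩
      rw [SimpleGraph.boxProd_adj]
      by_cases hij : i = j
      · subst hij
        right
        refine ⟨⟨?_, ?_⟩, ?_⟩
        · intro he
          have := congrArg Fin.val he
          rw [a1, a2] at this
          omega
        · unfold nxt
          rw [a1, a2]
          omega
        · funext i'
          apply Fin.ext
          change ((kap i p L s l h hh k u).1.1 i').val = ((kap i p L s l h hh k u').1.1 i').val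
          rw [C09_y, C09_y, hi1 i'.1 i'.2]
      · left
        refine ⟨⟨⟨i, hij⟩, ?_, ?_⟩, ?_⟩
        · intro i' hi'
          apply Fin.ext
          change ((kap j p L s l h hh k u).1.1 i').val = ((kap j p L s l h hh k u').1.1 i').val
          rw [C09_y, C09_y, hi1 i'.1 (fun h => hi' (Subtype.ext h))]
        · have h2 := C09_y' j p L s l h hh k u i hij
          have h3 := C09_y' j p L s l h hh k u' i hij
          refine ⟨?_, ?_⟩
          · intro he
            have := congrArg Fin.val he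
            change ((kap j p L s l h hh k u).1.1 ⟨i, hij⟩).val =
              ((kap j p L s l h hh k u').1.1 ⟨i, hij⟩).val at this
            omega
          · change ((kap j p L s l h hh k u).1.1 ⟨i, hij⟩).val + 1 =
                ((kap j p L s l h hh k u').1.1 ⟨i, hij⟩).val ∨
              ((kap j p L s l h hh k u').1.1 ⟨i, hij⟩).val + 1 =
                ((kap j p L s l h hh k u).1.1 ⟨i, hij⟩).val ∨ _
            omega
        · apply Fin.ext
          rw [a1, a2, m1, m2, hi1 j (fun h => hij h.symm)]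
  · intro k u hu v hadj
    have g1 := C09_gl j p L s l h hh hsh k u
    have a1 := C09_a s h (L j) hsh (kap j p L s l h hh k u)
    have a2 := C09_a s h (L j) hsh v
    have m1 := C09_m j p L s l h hh k u
    have n1 := C09_m4 j p L s l h hh k u
    obtain ⟨hadj, -, -, hb⟩ := hadj
    rw [SimpleGraph.boxProd_adj] at hadj
    -- coordinates of `v`
    suffices hs2 : ∃ u' : BxV d l, (∀ i : {i // i ≠ j}, (v.1.1 i).val = (l + 2) * (k.1.2 i).val + 2 + (u' i).val) ∧
        v.2.val = (l + 2) * k.2.val + 2 + (u' j).val by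
      obtain ⟨u', hy, hm⟩ := hs2
      refine ⟨u', C09_ext j p L s l h hh k u' v hy ?_ hm⟩
      have hv : ¬ glp (Ygl j p L s) (2 * s + 2 * L j) (ib s (L j) h false v).1 := by
        have g2 := C09_gl j p L s l h hh hsh k u'
        have e : (ib s (L j) h false v).1 = (ib s (L j) h false (kap j p L s l h hh k u')).1 := by
          apply Prod.ext
          · funext i
            apply Fin.ext
            change (v.1.1 i).val = ((kap j p L s l h hh k u').1.1 i).val
            rw [hy, C09_y]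
          · apply Fin.ext
            rw [a2, C09_a s h (L j) hsh, hm, C09_m]
        rw [e]
        exact g2
      rcases hb with hb | hb | hb
      · exact hb.symm
      · exact absurd hb g1
      · exact absurd hb hv
    rcases hadj with ⟨⟨i, hi1, hi2⟩, ha⟩ | ⟨ha, hy⟩
    · have ha' := congrArg Fin.val ha
      rw [a1, a2] at ha'
      have hui := hu i.1
      have h2 := C09_y j p L s l h hh k u i
      have h4 := C09_y4 j p L s l h hh k u i
      obtain ⟨-, hi2⟩ := hi2
      change ((kap j p L s l h hh k u).1.1 i).val + 1 = (v.1.1 i).val ∨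
        (v.1.1 i).val + 1 = ((kap j p L s l h hh k u).1.1 i).val ∨
        (p i = true ∧ ((((kap j p L s l h hh k u).1.1 i).val = 0 ∧
          (v.1.1 i).val + 1 = lm (p i) (L i) s + 1) ∨
          ((v.1.1 i).val = 0 ∧
          ((kap j p L s l h hh k u).1.1 i).val + 1 = lm (p i) (L i) s + 1))) at hi2
      have hw : ∃ w : ℕ, w ≤ l ∧ (v.1.1 i).val = (l + 2) * (k.1.2 i).val + 2 + w := by
        rcases hi2 with hi2 | hi2 | ⟨-, hi2 | hi2⟩
        · exact ⟨(u i).val + 1, by omega, by omega⟩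
        · exact ⟨(u i).val - 1, by omega, by omega⟩
        · omega
        · omega
      obtain ⟨w, hw1, hw2⟩ := hw
      refine ⟨Function.update u i.1 ⟨w, by omega⟩, ?_, ?_⟩
      · intro i'
        by_cases hii : i' = i
        · subst hii
          rw [Function.update_self]
          exact hw2
        · rw [Function.update_of_ne (fun h => hii (Subtype.ext h))]
          have h1 := congrArg Fin.val (hi1 i' hii)
          change ((kap j p L s l h hh k u).1.1 i').val = (v.1.1 i').val at h1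
          rw [← h1, C09_y]
      · rw [Function.update_of_ne (fun h => i.2 h.symm)]
        omega
    · have huj := hu j
      obtain ⟨-, ha⟩ := ha
      unfold nxt at ha
      rw [a1, a2] at ha
      have hvlt := v.2.isLt
      have hw : ∃ w : ℕ, w ≤ l ∧ v.2.val = (l + 2) * k.2.val + 2 + w := by
        have : v.2.val = (kap j p L s l h hh k u).2.val + 1 ∨
            v.2.val + 1 = (kap j p L s l h hh k u).2.val := by
          omega
        rcases this with h1 | h1
        · exact ⟨(u j).val + 1, by omega, by omega⟩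
        · exact ⟨(u j).val - 1, by omega, by omega⟩
      obtain ⟨w, hw1, hw2⟩ := hw
      refine ⟨Function.update u j ⟨w, by omega⟩, ?_, ?_⟩
      · intro i'
        rw [Function.update_of_ne i'.2]
        have h1 := congrArg Fin.val (congrFun hy i')
        change ((kap j p L s l h hh k u).1.1 i').val = (v.1.1 i').val at h1
        rw [← h1, C09_y]
      · rw [Function.update_self]
        exact hw2
  · intro k u
    have a1 := C09_a s h (L j) hsh (kap j p L s l h hh k u)
    have m1 := C09_m j p L s l h hh k u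
    have hev : ∀ a b : ℕ, Even ((l + 2) * a + 2 + b) ↔ Even b := by
      intro a b
      have : Even ((l + 2) * a + 2) := (hl.add even_two).mul_right a |>.add even_two
      rw [Nat.even_add]
      simp [this]
    have e1 : Yev j p L s (ib s (L j) h false (kap j p L s l h hh k u)).1.1 ↔
        Even (∑ i : {i // i ≠ j}, (u i).val) := by
      have e2 : (∑ i : {i // i ≠ j}, ((ib s (L j) h false (kap j p L s l h hh k u)).1.1 i).val) =
          ∑ i : {i // i ≠ j}, ((l + 2) * (k.1.2 i).val + 2) + ∑ i : {i // i ≠ j}, (u i).val := by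
        rw [← Finset.sum_add_distrib]
        refine Finset.sum_congr rfl fun i _ => ?_
        exact C09_y j p L s l h hh k u i
      unfold Yev
      rw [e2, Nat.even_add]
      have e3 : Even (∑ i : {i // i ≠ j}, ((l + 2) * (k.1.2 i).val + 2)) :=
        Finset.even_sum _ fun i _ => (hl.add even_two).mul_right _ |>.add even_two
      simp [e3]
    have e4 : Even (ib s (L j) h false (kap j p L s l h hh k u)).1.2.val ↔ Even (u j).val := by
      rw [a1, m1, Nat.even_add]
      simp [hs, hev]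
    have e5 : (∑ i, (u i).val) = (u j).val + ∑ i : {i // i ≠ j}, (u i).val :=
      Fintype.sum_eq_add_sum_subtype_ne (fun i => (u i).val) j
    show (Yev j p L s _ ↔ Even _) ↔ Even (∑ i, (u i).val)
    rw [e1, e4, e5, Nat.even_add]
    tauto

end Pool.Agent.LC

end
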