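import Pool.Agent.Lib_MP_2c424f_m.M01

/-!
# MP_2c424f_pr, q_c grows linearly: merged library part M05

Concatenation of smaller files (each in its own section), only to save build time.
-/

namespace Pool.Agent.LO
end Pool.Agent.LO

namespace Pool.Agent.LIN
end Pool.Agent.LIN

namespace Pool.Agent.THR
end Pool.Agent.THR

namespace Pool.Agent.COR
end Pool.Agent.COR

/-! ### from `Lib_MP_2c424f_lc5.V12b` -/

section

/-!
# Part V, V12b: many events; half of every fibre

`many_cells`: if at least `r` of the events hold then all events of some `S` with `|S| = ⌈r⌉` hold: union bound over `S`,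
at most `2^{|ι|}` sets (for `r ≤ 0` take `S = ∅`).
`half_fib`: `F ~ F'` iff they agree on the odd vertices; sum over the classes (a class in which `Q` holds for one element
has `Q` for all elements).
-/

set_option autoImplicit false

open Finset Filter

namespace Pool.Agent.LC

open Pool.Agent.LO Pool.Agent.LIN Pool.Agent.THR Pool.Agent.COR

open scoped Classical in
private theorem V12b_cG {V : Type} [Fintype V] [DecidableEq V] {q : ℕ} (X : SimpleGraph V)
    (P : (V → Fin q) → Prop) (s : Finset (V → Fin q)) (hs : ∀ F, F ∈ s ↔ PrG X F ∧ P F) :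
    cG X P = (s.card : ℝ) := by
  unfold cG
  congr 2
  ext F
  rw [mem_filter, hs]
  exact ⟨fun h => h.2, fun h => ⟨mem_univ _, h⟩⟩

open scoped Classical in
theorem many_cells {V ι : Type} [Fintype V] [DecidableEq V] [Fintype ι] {q : ℕ} (X : SimpleGraph V)
    (P : ι → (V → Fin q) → Prop) (c r : ℝ) (hc : 0 ≤ c)
    (h : ∀ S : Finset ι, cG X (fun F => ∀ j ∈ S, P j F) ≤
      cG X (fun _ : V → Fin q => True) * Real.exp (-(S.card * c))) :
    cG X (fun F : V → Fin q => r ≤ ((univ.filter fun j => P j F).card : ℝ)) ≤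
      2 ^ Fintype.card ι * Real.exp (-(r * c)) * cG X (fun _ : V → Fin q => True) := by
  have h0 : (0 : ℝ) ≤ cG X (fun _ : V → Fin q => True) := Nat.cast_nonneg _
  have h1 : cG X (fun F : V → Fin q => r ≤ ((univ.filter fun j => P j F).card : ℝ)) ≤
      ∑ S ∈ (univ : Finset (Finset ι)).filter (fun S => r ≤ (S.card : ℝ)),
        cG X (fun F => ∀ j ∈ S, P j F) := by
    have h2 : (univ.filter fun F : V → Fin q => PrG X F ∧
        r ≤ ((univ.filter fun j => P j F).card : ℝ)) ⊆
        ((univ : Finset (Finset ι)).filter (fun S => r ≤ (S.card : ℝ))).biUnion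
          fun S => univ.filter fun F : V → Fin q => PrG X F ∧ ∀ j ∈ S, P j F := by
      intro F hF
      rw [mem_filter] at hF
      rw [mem_biUnion]
      refine ⟨univ.filter fun j => P j F, ?_, ?_⟩
      · rw [mem_filter]
        exact ⟨mem_univ _, hF.2.2⟩
      · rw [mem_filter]
        exact ⟨mem_univ _, hF.2.1, fun j hj => (mem_filter.1 hj).2⟩
    have h3 := (card_le_card h2).trans card_biUnion_le
    rw [V12b_cG X (fun F : V → Fin q => r ≤ ((univ.filter fun j => P j F).card : ℝ))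
      (univ.filter fun F : V → Fin q => PrG X F ∧ r ≤ ((univ.filter fun j => P j F).card : ℝ))
      (fun F => by rw [mem_filter]; exact ⟨fun h => h.2, fun h => ⟨mem_univ _, h⟩⟩)]
    have h4 : ∀ S : Finset ι, cG X (fun F => ∀ j ∈ S, P j F) =
        ((univ.filter fun F : V → Fin q => PrG X F ∧ ∀ j ∈ S, P j F).card : ℝ) := fun S =>
      V12b_cG X _ _ (fun F => by rw [mem_filter]; exact ⟨fun h => h.2, fun h => ⟨mem_univ _, h⟩⟩)
    rw [sum_congr rfl fun S _ => h4 S]
    exact_mod_cast h3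
  refine h1.trans ?_
  have h4 : ∀ S ∈ (univ : Finset (Finset ι)).filter (fun S => r ≤ (S.card : ℝ)),
      cG X (fun F => ∀ j ∈ S, P j F) ≤
        Real.exp (-(r * c)) * cG X (fun _ : V → Fin q => True) := by
    intro S hS
    refine (h S).trans ?_
    rw [mul_comm]
    refine mul_le_mul_of_nonneg_right ?_ h0
    refine Real.exp_le_exp.2 (neg_le_neg ?_)
    exact mul_le_mul_of_nonneg_right (mem_filter.1 hS).2 hc
  refine (sum_le_sum h4).trans ?_
  rw [sum_const, nsmul_eq_mul, mul_assoc]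
  refine mul_le_mul_of_nonneg_right ?_ (mul_nonneg (Real.exp_pos _).le h0)
  have h5 : ((univ : Finset (Finset ι)).filter (fun S => r ≤ (S.card : ℝ))).card ≤
      2 ^ Fintype.card ι := by
    refine (card_filter_le _ _).trans (le_of_eq ?_)
    rw [card_univ, Fintype.card_finset]
  exact_mod_cast h5

open scoped Classical in
theorem half_fib {V : Type} [Fintype V] [DecidableEq V] {q : ℕ} (X : SimpleGraph V) (ev : V → Prop)
    (Q R : (V → Fin q) → Prop) (hQ : ∀ F F' : V → Fin q, (∀ w, ¬ ev w → F w = F' w) → (Q F ↔ Q F'))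
    (h : ∀ F₀ : V → Fin q, Q F₀ → cG X (fun F : V → Fin q => ∀ w, ¬ ev w → F w = F₀ w) ≤
      2 * cG X (fun F : V → Fin q => (∀ w, ¬ ev w → F w = F₀ w) ∧ R F)) :
    cG X Q ≤ 2 * cG X R := by
  set g : (V → Fin q) → ({w // ¬ ev w} → Fin q) := fun F w => F w.1 with hg
  have hgi : ∀ F F₀ : V → Fin q, g F = g F₀ ↔ ∀ w, ¬ ev w → F w = F₀ w := by
    intro F F₀
    constructor
    · intro e w hw
      exact congrFun e ⟨w, hw⟩
    · intro e
      funext w
      exact e w.1 w.2
  have key : ∀ t : {w // ¬ ev w} → Fin q,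
      (((univ.filter fun F : V → Fin q => PrG X F ∧ Q F).filter fun F => g F = t).card : ℝ) ≤
        2 * (((univ.filter fun F : V → Fin q => PrG X F ∧ R F).filter fun F => g F = t).card : ℝ) := by
    intro t
    by_cases ht : ∃ F₀ : V → Fin q, Q F₀ ∧ g F₀ = t
    · obtain ⟨F₀, hF₀, rfl⟩ := ht
      have h1 := h F₀ hF₀
      rw [V12b_cG X (fun F : V → Fin q => ∀ w, ¬ ev w → F w = F₀ w)
          (univ.filter fun F : V → Fin q => PrG X F ∧ ∀ w, ¬ ev w → F w = F₀ w)
          (fun F => by rw [mem_filter]; exact ⟨fun h => h.2, fun h => ⟨mem_univ _, h⟩⟩),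
        V12b_cG X (fun F : V → Fin q => (∀ w, ¬ ev w → F w = F₀ w) ∧ R F)
          (univ.filter fun F : V → Fin q => PrG X F ∧ ((∀ w, ¬ ev w → F w = F₀ w) ∧ R F))
          (fun F => by rw [mem_filter]; exact ⟨fun h => h.2, fun h => ⟨mem_univ _, h⟩⟩)] at h1
      have e1 : (univ.filter fun F : V → Fin q => PrG X F ∧ Q F).filter (fun F => g F = g F₀) ⊆
          univ.filter fun F : V → Fin q => PrG X F ∧ ∀ w, ¬ ev w → F w = F₀ w := by
        intro F hF
        rw [mem_filter, mem_filter] at hF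
        rw [mem_filter]
        exact ⟨mem_univ _, hF.1.2.1, (hgi F F₀).1 hF.2⟩
      have e2 : (univ.filter fun F : V → Fin q => PrG X F ∧
          ((∀ w, ¬ ev w → F w = F₀ w) ∧ R F)) ⊆
          (univ.filter fun F : V → Fin q => PrG X F ∧ R F).filter (fun F => g F = g F₀) := by
        intro F hF
        rw [mem_filter] at hF
        rw [mem_filter, mem_filter]
        exact ⟨⟨mem_univ _, hF.2.1, hF.2.2.2⟩, (hgi F F₀).2 hF.2.2.1⟩
      have e3 : (((univ.filter fun F : V → Fin q => PrG X F ∧ Q F).filter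
          fun F => g F = g F₀).card : ℝ) ≤
          ((univ.filter fun F : V → Fin q => PrG X F ∧ ∀ w, ¬ ev w → F w = F₀ w).card : ℝ) := by
        exact_mod_cast card_le_card e1
      have e4 : ((univ.filter fun F : V → Fin q => PrG X F ∧
          ((∀ w, ¬ ev w → F w = F₀ w) ∧ R F)).card : ℝ) ≤
          (((univ.filter fun F : V → Fin q => PrG X F ∧ R F).filter
            fun F => g F = g F₀).card : ℝ) := by
        exact_mod_cast card_le_card e2
      linarith
    · have e1 : (univ.filter fun F : V → Fin q => PrG X F ∧ Q F).filter (fun F => g F = t) = ∅ := by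
        refine filter_eq_empty_iff.2 fun F hF hFt => ht ⟨F, ?_, hFt⟩
        exact (mem_filter.1 hF).2.2
      rw [e1, card_empty, Nat.cast_zero]
      positivity
  have s1 := card_eq_sum_card_fiberwise (f := g)
    (s := univ.filter fun F : V → Fin q => PrG X F ∧ Q F) (t := univ)
    (fun _ _ => mem_coe.2 (mem_univ _))
  have s2 := card_eq_sum_card_fiberwise (f := g)
    (s := univ.filter fun F : V → Fin q => PrG X F ∧ R F) (t := univ)
    (fun _ _ => mem_coe.2 (mem_univ _))
  rw [V12b_cG X Q (univ.filter fun F : V → Fin q => PrG X F ∧ Q F)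
      (fun F => by rw [mem_filter]; exact ⟨fun h => h.2, fun h => ⟨mem_univ _, h⟩⟩),
    V12b_cG X R (univ.filter fun F : V → Fin q => PrG X F ∧ R F)
      (fun F => by rw [mem_filter]; exact ⟨fun h => h.2, fun h => ⟨mem_univ _, h⟩⟩), s1, s2]
  push_cast
  rw [mul_sum]
  exact sum_le_sum fun t _ => key t

end Pool.Agent.LC

end

/-! ### from `Lib_MP_2c424f_lin.E7b` -/

section

/-!
# H30 E7b: folding removes the discrepancy in the plane

`WL (pf i j p σ w) x τ = WL w (fol i j p σ x) τ` for `τ.1 ≠ i, j`, and `= WL w (mrg i j p x) σ` for `τ.1 ∈ {i, j}`.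
So `dis (pf ..) = ∑_x [∑_{τ,τ' ∉ pl} 1[WL w (fol x) τ ≠ WL w (fol x) τ'] + 2·4 ∑_{τ ∉ pl} 1[WL w (fol x) τ ≠ WL w (mrg p x) σ]]`.
First part: `fol_sum`.  Second part: if `x` has the parity of `p` then `fol x = mrg p x`; otherwise
`fol x = mrg p x + sv σ =: x''` and `WL w (mrg p x) σ = WL w x'' σ⁻` (`σ⁻` the opposite step).  Summed over
`p, σ, x` it is `8 N ∑_x ∑_{σ ∈ pl} ∑_{τ ∉ pl} 1[WL w x τ ≠ WL w x σ]`.
-/

set_option autoImplicit false

open Finset

namespace Pool.Agent.LIN

open Pool.Agent.LO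

variable {d k : ℕ} {Λ : Type*}

/-! ### Parity in the plane -/

private theorem E7b_val (hk : 1 ≤ k) (a : ZMod (2 ^ k)) :
    ((a + 1).val : ZMod 2) = (a.val : ZMod 2) + 1 := by
  have hφ : ∀ b : ZMod (2 ^ k), (b.val : ZMod 2) =
      ZMod.castHom (dvd_pow_self 2 (by omega : k ≠ 0)) (ZMod 2) b := by
    intro b
    have h := map_natCast (ZMod.castHom (dvd_pow_self 2 (by omega : k ≠ 0)) (ZMod 2)) b.val
    rw [ZMod.natCast_zmod_val] at h
    exact h.symm
  rw [hφ, hφ, map_add, map_one]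

private theorem E7b_sv_self (i : Fin d) : (sv (i, true) : Site d k) i = 1 := by
  simp [sv]

private theorem E7b_sv_ne {σ : Stp d} {l : Fin d} (h : l ≠ σ.1) : (sv σ : Site d k) l = 0 := by
  unfold sv
  exact Pi.single_eq_of_ne h _

private theorem E7b_flip (hk : 1 ≤ k) {i j : Fin d} (hij : i ≠ j) (p x : Site d k) :
    Even (((x + (sv (i, true) : Site d k)) i).val + ((x + (sv (i, true) : Site d k)) j).val +
      (p i).val + (p j).val) ↔
      ¬ Even ((x i).val + (x j).val + (p i).val + (p j).val) := by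
  have h1 : (x + (sv (i, true) : Site d k)) i = x i + 1 := by
    rw [Pi.add_apply, E7b_sv_self]
  have h2 : (x + (sv (i, true) : Site d k)) j = x j := by
    rw [Pi.add_apply, E7b_sv_ne (Ne.symm hij), add_zero]
  rw [h1, h2, ← ZMod.natCast_eq_zero_iff_even, ← ZMod.natCast_eq_zero_iff_even]
  push_cast
  rw [E7b_val hk]
  generalize ((x i).val : ZMod 2) = a
  generalize ((x j).val : ZMod 2) = b
  generalize ((p i).val : ZMod 2) = c
  generalize ((p j).val : ZMod 2) = e
  revert a b c e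
  decide

private theorem E7b_mrg_step (i j : Fin d) (p x : Site d k) {σ : Stp d}
    (h : σ.1 = i ∨ σ.1 = j) : mrg i j p (x + sv σ) = mrg i j p x := by
  funext l
  unfold mrg
  split_ifs with hl
  · rfl
  · rw [Pi.add_apply, E7b_sv_ne, add_zero]
    rintro rfl
    exact hl h

private theorem E7b_mrg_out (i j : Fin d) (p x : Site d k) {σ : Stp d}
    (h : ¬ (σ.1 = i ∨ σ.1 = j)) : mrg i j p (x + sv σ) = mrg i j p x + sv σ := by
  funext l
  rw [Pi.add_apply]
  unfold mrg
  split_ifs with hl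
  · rw [E7b_sv_ne, add_zero]
    rintro rfl
    exact h hl
  · rfl

private theorem E7b_fol_out (i j : Fin d) (p x : Site d k) (ρ : Stp d) {σ : Stp d}
    (h : ¬ (σ.1 = i ∨ σ.1 = j)) : fol i j p ρ (x + sv σ) = fol i j p ρ x + sv σ := by
  have h1 : (x + (sv σ : Site d k)) i = x i := by
    rw [Pi.add_apply, E7b_sv_ne, add_zero]
    exact fun h' => h (Or.inl h'.symm)
  have h2 : (x + (sv σ : Site d k)) j = x j := by
    rw [Pi.add_apply, E7b_sv_ne, add_zero]
    exact fun h' => h (Or.inr h'.symm)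
  unfold fol
  rw [h1, h2, E7b_mrg_out i j p x h]
  split_ifs
  · rfl
  · exact add_right_comm _ _ _

/-! ### Half sums -/

open scoped Classical in
private theorem E7b_half (hk : 1 ≤ k) {i j : Fin d} (hij : i ≠ j) (H H' : Site d k → ℝ) :
    ∑ p, ∑ x, (if Even ((x i).val + (x j).val + (p i).val + (p j).val) then H (mrg i j p x)
      else H' (mrg i j p x)) = NN d k / 2 * ∑ x, H x + NN d k / 2 * ∑ x, H' x := by
  have key : ∀ (G : Site d k → ℝ),
      (∑ p, ∑ x, (if Even ((x i).val + (x j).val + (p i).val + (p j).val) then G (mrg i j p x)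
        else 0) = NN d k / 2 * ∑ x, G x) ∧
      (∑ p, ∑ x, (if Even ((x i).val + (x j).val + (p i).val + (p j).val) then 0
        else G (mrg i j p x)) = NN d k / 2 * ∑ x, G x) := by
    intro G
    have h1 : ∀ p : Site d k,
        ∑ x : Site d k, (if Even ((x i).val + (x j).val + (p i).val + (p j).val) then
          G (mrg i j p x) else 0) =
        ∑ x : Site d k, (if Even ((x i).val + (x j).val + (p i).val + (p j).val) then 0
          else G (mrg i j p x)) := by
      intro p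
      rw [← Equiv.sum_comp (Equiv.addRight (sv (i, true) : Site d k))]
      refine sum_congr rfl fun x _ => ?_
      rw [Equiv.coe_addRight, E7b_mrg_step i j p x (Or.inl rfl)]
      by_cases h : Even ((x i).val + (x j).val + (p i).val + (p j).val)
      · rw [if_pos h, if_neg]
        rw [E7b_flip hk hij]
        exact not_not.2 h
      · rw [if_neg h, if_pos]
        rw [E7b_flip hk hij]
        exact h
    have h2 : ∑ p, ∑ x, (if Even ((x i).val + (x j).val + (p i).val + (p j).val) then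
          G (mrg i j p x) else 0) +
        ∑ p, ∑ x, (if Even ((x i).val + (x j).val + (p i).val + (p j).val) then 0
          else G (mrg i j p x)) = NN d k * ∑ x, G x := by
      rw [← mrg_sum i j hij G, ← sum_add_distrib]
      refine sum_congr rfl fun p _ => ?_
      rw [← sum_add_distrib]
      refine sum_congr rfl fun x _ => ?_
      split_ifs
      · exact add_zero _
      · exact zero_add _
    have h3 := sum_congr rfl (fun p (_ : p ∈ (univ : Finset (Site d k))) => h1 p)
    constructor <;> linarith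
  rw [← (key H).1, ← (key H').2, ← sum_add_distrib]
  refine sum_congr rfl fun p _ => ?_
  rw [← sum_add_distrib]
  refine sum_congr rfl fun x _ => ?_
  split_ifs
  · exact (add_zero _).symm
  · exact (zero_add _).symm

/-! ### The labels of the folded labelling -/

private theorem E7b_WL_out (i j : Fin d) (p x : Site d k) (σ : Stp d) (w : Site d k → Fin d → Λ)
    {τ : Stp d} (h : ¬ (τ.1 = i ∨ τ.1 = j)) :
    WL (pf i j p σ w) x τ = WL w (fol i j p σ x) τ := by
  unfold WL pf
  rw [if_neg h, if_neg h, E7b_fol_out i j p x σ h]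

private theorem E7b_WL_in (i j : Fin d) (p x : Site d k) (σ : Stp d) (w : Site d k → Fin d → Λ)
    {τ : Stp d} (h : τ.1 = i ∨ τ.1 = j) :
    WL (pf i j p σ w) x τ = WL w (mrg i j p x) σ := by
  have h1 : WL (pf i j p σ w) x τ = if τ.2 then pf i j p σ w x τ.1 else
    pf i j p σ w (x + sv τ) τ.1 := rfl
  rw [h1]
  unfold pf
  rw [if_pos h, if_pos h, E7b_mrg_step i j p x h, ite_self]

/-- the opposite step -/
private def E7b_op (σ : Stp d) : Stp d := (σ.1, !σ.2)

private theorem E7b_WL_op (w : Site d k → Fin d → Λ) (y : Site d k) (σ : Stp d) :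
    WL w (y + sv σ) (E7b_op σ) = WL w y σ := by
  obtain ⟨l, b⟩ := σ
  cases b
  · simp [WL, E7b_op]
  · have h := sv_opp (d := d) (k := k) l true
    simp only [Bool.not_true] at h
    simp [WL, E7b_op, add_assoc, h]

private theorem E7b_card {i j : Fin d} (hij : i ≠ j) : (pl i j).card = 4 := by
  have h : pl i j = ({i, j} : Finset (Fin d)) ×ˢ (univ : Finset Bool) := by
    ext ⟨l, b⟩
    simp [pl]
  rw [h, card_product, card_pair hij]
  rfl

open scoped Classical in
/-- discrepancy of two labels -/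
private noncomputable def E7b_dl (a b : Λ) : ℝ := if a = b then 0 else 1

private theorem E7b_dl_symm (a b : Λ) : E7b_dl a b = E7b_dl b a := by
  unfold E7b_dl
  by_cases h : a = b
  · rw [if_pos h, if_pos h.symm]
  · rw [if_neg h, if_neg (Ne.symm h)]

private theorem E7b_dl_self (a : Λ) : E7b_dl a a = 0 := if_pos rfl

/-- steps out of the plane -/
private def E7b_Q (i j : Fin d) : Finset (Stp d) := univ.filter fun σ => ¬ (σ.1 = i ∨ σ.1 = j)

private theorem E7b_split (i j : Fin d) (f : Stp d → ℝ) :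
    ∑ σ, f σ = ∑ σ ∈ pl i j, f σ + ∑ σ ∈ E7b_Q i j, f σ :=
  (sum_filter_add_sum_filter_not univ (fun σ : Stp d => σ.1 = i ∨ σ.1 = j) f).symm

private theorem E7b_split2 (i j : Fin d) (g : Stp d → Λ) :
    ∑ σ, ∑ τ, E7b_dl (g σ) (g τ) = ∑ σ ∈ pl i j, ∑ τ ∈ pl i j, E7b_dl (g σ) (g τ) +
      2 * ∑ σ ∈ pl i j, ∑ τ ∈ E7b_Q i j, E7b_dl (g σ) (g τ) +
      ∑ σ ∈ E7b_Q i j, ∑ τ ∈ E7b_Q i j, E7b_dl (g σ) (g τ) := by
  have h1 : ∀ σ, ∑ τ, E7b_dl (g σ) (g τ) = ∑ τ ∈ pl i j, E7b_dl (g σ) (g τ) +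
      ∑ τ ∈ E7b_Q i j, E7b_dl (g σ) (g τ) := fun σ => E7b_split i j _
  have h2 : ∑ σ ∈ E7b_Q i j, ∑ τ ∈ pl i j, E7b_dl (g σ) (g τ) =
      ∑ σ ∈ pl i j, ∑ τ ∈ E7b_Q i j, E7b_dl (g σ) (g τ) := by
    rw [sum_comm]
    refine sum_congr rfl fun σ _ => sum_congr rfl fun τ _ => E7b_dl_symm _ _
  simp only [h1]
  rw [E7b_split i j, sum_add_distrib, sum_add_distrib, h2]
  ring

private theorem E7b_dis (i j : Fin d) (w : Site d k → Fin d → Λ) :
    dis w = dis2 i j w +
      2 * ∑ x, ∑ σ ∈ pl i j, ∑ τ ∈ E7b_Q i j, E7b_dl (WL w x σ) (WL w x τ) +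
      ∑ x, ∑ σ ∈ E7b_Q i j, ∑ τ ∈ E7b_Q i j, E7b_dl (WL w x σ) (WL w x τ) := by
  have h1 : dis w = ∑ x, ∑ σ, ∑ τ, E7b_dl (WL w x σ) (WL w x τ) := rfl
  have h2 : dis2 i j w = ∑ x, ∑ σ ∈ pl i j, ∑ τ ∈ pl i j, E7b_dl (WL w x σ) (WL w x τ) := rfl
  rw [h1, h2, mul_sum, ← sum_add_distrib, ← sum_add_distrib]
  exact sum_congr rfl fun x _ => E7b_split2 i j fun σ => WL w x σ

theorem pf_dis (hk : 1 ≤ k) (i j : Fin d) (hij : i ≠ j) (w : Site d k → Fin d → Λ) :
    ∑ p, ∑ σ ∈ pl i j, dis (pf i j p σ w) = 4 * NN d k * (dis w - dis2 i j w) := by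
  classical
  set A : Site d k → ℝ := fun x => ∑ σ ∈ E7b_Q i j, ∑ τ ∈ E7b_Q i j,
    E7b_dl (WL w x σ) (WL w x τ) with hA
  set g : Stp d → Site d k → ℝ := fun σ x => ∑ τ ∈ E7b_Q i j, E7b_dl (WL w x σ) (WL w x τ) with hg
  have hw : dis w - dis2 i j w = 2 * ∑ x, ∑ σ ∈ pl i j, g σ x + ∑ x, A x := by
    rw [E7b_dis i j w]
    ring
  have hQ : ∀ τ ∈ E7b_Q i j, ¬ (τ.1 = i ∨ τ.1 = j) := fun τ hτ => (mem_filter.1 hτ).2
  have hP : ∀ τ ∈ pl i j, τ.1 = i ∨ τ.1 = j := fun τ hτ => (mem_filter.1 hτ).2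
  have h1 : ∀ p, ∀ σ ∈ pl i j, dis (pf i j p σ w) = ∑ x, A (fol i j p σ x) +
      8 * ∑ x, (if Even ((x i).val + (x j).val + (p i).val + (p j).val) then
        g σ (mrg i j p x) else g (E7b_op σ) (mrg i j p x + sv σ)) := by
    intro p σ hσ
    rw [E7b_dis i j]
    have h2 : dis2 i j (pf i j p σ w) = 0 := by
      refine sum_eq_zero fun x _ => sum_eq_zero fun τ hτ => sum_eq_zero fun τ' hτ' => ?_
      rw [E7b_WL_in i j p x σ w (hP τ hτ), E7b_WL_in i j p x σ w (hP τ' hτ')]
      exact if_pos rfl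
    have h3 : ∀ x, ∑ σ' ∈ pl i j, ∑ τ ∈ E7b_Q i j,
        E7b_dl (WL (pf i j p σ w) x σ') (WL (pf i j p σ w) x τ) =
        4 * (if Even ((x i).val + (x j).val + (p i).val + (p j).val) then
          g σ (mrg i j p x) else g (E7b_op σ) (mrg i j p x + sv σ)) := by
      intro x
      have h4 : ∀ σ' ∈ pl i j, ∑ τ ∈ E7b_Q i j,
          E7b_dl (WL (pf i j p σ w) x σ') (WL (pf i j p σ w) x τ) =
          (if Even ((x i).val + (x j).val + (p i).val + (p j).val) then
          g σ (mrg i j p x) else g (E7b_op σ) (mrg i j p x + sv σ)) := by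
        intro σ' hσ'
        have h5 : ∑ τ ∈ E7b_Q i j,
            E7b_dl (WL (pf i j p σ w) x σ') (WL (pf i j p σ w) x τ) =
            ∑ τ ∈ E7b_Q i j, E7b_dl (WL w (mrg i j p x) σ) (WL w (fol i j p σ x) τ) := by
          refine sum_congr rfl fun τ hτ => ?_
          rw [E7b_WL_in i j p x σ w (hP σ' hσ'), E7b_WL_out i j p x σ w (hQ τ hτ)]
        rw [h5, hg]
        unfold fol
        split_ifs
        · rfl
        · refine sum_congr rfl fun τ _ => ?_
          rw [E7b_WL_op]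
      rw [sum_congr rfl h4, sum_const, E7b_card hij, nsmul_eq_mul]
      norm_num
    have h6 : ∀ x, ∑ σ' ∈ E7b_Q i j, ∑ τ ∈ E7b_Q i j,
        E7b_dl (WL (pf i j p σ w) x σ') (WL (pf i j p σ w) x τ) = A (fol i j p σ x) := by
      intro x
      refine sum_congr rfl fun σ' hσ' => sum_congr rfl fun τ hτ => ?_
      rw [E7b_WL_out i j p x σ w (hQ σ' hσ'), E7b_WL_out i j p x σ w (hQ τ hτ)]
    simp only [h2, h3, h6]
    rw [← mul_sum]
    ring
  have h7 : ∀ σ, ∑ p, ∑ x, (if Even ((x i).val + (x j).val + (p i).val + (p j).val) then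
        g σ (mrg i j p x) else g (E7b_op σ) (mrg i j p x + sv σ)) =
        NN d k / 2 * ∑ x, g σ x + NN d k / 2 * ∑ x, g (E7b_op σ) x := by
    intro σ
    rw [E7b_half hk hij (g σ) (fun y => g (E7b_op σ) (y + sv σ))]
    congr 2
    exact Equiv.sum_comp (Equiv.addRight (sv σ : Site d k)) (g (E7b_op σ))
  have h8 : ∑ σ ∈ pl i j, ∑ x, g (E7b_op σ) x = ∑ σ ∈ pl i j, ∑ x, g σ x := by
    refine sum_bij' (fun σ _ => E7b_op σ) (fun σ _ => E7b_op σ) ?_ ?_ ?_ ?_ ?_
    · intro σ hσ
      exact mem_filter.2 ⟨mem_univ _, hP σ hσ⟩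
    · intro σ hσ
      exact mem_filter.2 ⟨mem_univ _, hP σ hσ⟩
    · rintro ⟨l, b⟩ _
      cases b <;> rfl
    · rintro ⟨l, b⟩ _
      cases b <;> rfl
    · intro σ _
      rfl
  have h9 : ∑ p, ∑ σ ∈ pl i j, dis (pf i j p σ w) =
      ∑ p, ∑ σ ∈ pl i j, ∑ x, A (fol i j p σ x) +
      8 * ∑ σ ∈ pl i j, (NN d k / 2 * ∑ x, g σ x + NN d k / 2 * ∑ x, g (E7b_op σ) x) := by
    rw [sum_congr rfl fun p (_ : p ∈ (univ : Finset (Site d k))) => sum_congr rfl (h1 p)]
    simp only [sum_add_distrib]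
    congr 1
    rw [← sum_add_distrib, ← sum_congr rfl fun σ _ => h7 σ, mul_sum, sum_comm]
    refine sum_congr rfl fun σ _ => ?_
    rw [mul_sum]
  rw [h9, fol_sum hk i j hij A, hw, sum_add_distrib, ← mul_sum, ← mul_sum, h8,
    sum_comm (s := (univ : Finset (Site d k))) (t := pl i j)]
  ring

end Pool.Agent.LIN

end
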