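import Pool.Agent.Lib_MP_2c424f_m.M01

/-!
# MP_2c424f_pr, q_c grows linearly: merged library part M07

Concatenation of smaller files (each in its own section), only to save build time.
-/

namespace Pool.Agent.LO
end Pool.Agent.LO

namespace Pool.Agent.LIN
end Pool.Agent.LIN

namespace Pool.Agent.THR
end Pool.Agent.THR

namespace Pool.Agent.COR
end Pool.Agent.COR

/-! ### from `Lib_MP_2c424f_lc5.V09` -/

section

/-!
# Part V, V09: from self-avoiding conflict paths to two-step walks

`CP_PT`: let `s` be the path, of `2n+2` steps.  If `s 0` is odd (`¬ ev`) take `y k = s (2k)`, `x k = s (2k+1)`; if it is even take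
`y k = s (2k+1)`, `x k = s (2k+2)` and `y₀ = s 1`.  All indices are at most `2n+2`; `s` is injective on them; the parities alternate
(`Par`, `cf` contains `G.Adj`), which gives nothing needed except that `y 0` is odd; the number of indices `k` with
`y k ∈ A` is at most the number of points of the path in `A`.
`St_card`: every `p` with `CP` is a point of `PT` or a neighbour of one; the map `p ↦ y₀` has at most `4d + 1` preimages.
-/

set_option autoImplicit false

open Finset Filter

namespace Pool.Agent.LC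

open Pool.Agent.LO Pool.Agent.LIN Pool.Agent.THR Pool.Agent.COR

private theorem V09_par {Λ : Type} [Fintype Λ] {G : SimpleGraph Λ} {ev : Λ → Prop} (hP : Par G ev) {a b : Λ}
    (h : G.Adj a b) (ha : ev a) : ¬ ev b := by
  exact fun hb => ((hP a b h).1 ha) hb

open scoped Classical in
theorem CP_PT {Λ : Type} [Fintype Λ] [DecidableEq Λ] {q : ℕ} {G : SimpleGraph Λ} {ev : Λ → Prop} (hP : Par G ev)
    {Φ Ψ : Λ → Fin q} {W A : Finset Λ} {n m : ℕ} {p : Λ} (h : CP G Φ Ψ W A (2 * n + 2) m p) :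
    ∃ y₀ ∈ PT G ev Φ Ψ W A n m, y₀ = p ∨ G.Adj y₀ p := by
  obtain ⟨s, hs0, hW, hcf, hinj, hA⟩ := h
  -- the offset
  obtain ⟨o, ho, hodd, hadj⟩ : ∃ o : ℕ, o ≤ 1 ∧ ¬ ev (s o) ∧ (s o = p ∨ G.Adj (s o) p) := by
    by_cases h0 : ev (s 0)
    · refine ⟨1, le_refl _, ?_, ?_⟩
      · have h1 := (hcf 0 (by omega)).1
        exact V09_par hP h1 h0
      · right
        rw [← hs0]
        exact (hcf 0 (by omega)).1.symm
    · exact ⟨0, by omega, h0, Or.inl hs0⟩
  refine ⟨s o, ?_, hadj⟩
  unfold PT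
  refine (@Finset.mem_filter _ _ (_) _ _).2 ⟨hW o (by omega), hodd, fun k => s (2 * k.val + o), fun k => s (2 * k.val + o + 1), ?_, ?_, ?_, ?_, ?_, ?_⟩
  · show s (2 * (0 : Fin (n + 1)).val + o) = s o
    rw [Fin.val_zero]
    congr 1
    omega
  · intro k l hkl
    have hk := k.isLt
    have hl := l.isLt
    have := hinj _ (by omega) _ (by omega) hkl
    exact Fin.ext (by omega)
  · intro k
    have hk := k.isLt
    exact hW _ (by omega)
  · intro k
    have hk := k.isLt
    exact hW _ (by omega)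
  · intro k
    have hk := k.isLt
    refine ⟨?_, ?_, ?_⟩
    · exact hcf (2 * k.val + o) (by omega)
    · have h2 := hcf (2 * k.val + o + 1) (by omega)
      have e : 2 * k.succ.val + o = 2 * k.val + o + 1 + 1 := by
        rw [Fin.val_succ]
        omega
      show cf G Φ Ψ (s (2 * k.val + o + 1)) (s (2 * k.succ.val + o))
      rw [e]
      exact h2
    · intro e
      have e' : s (2 * k.castSucc.val + o) = s (2 * k.succ.val + o) := e
      rw [Fin.val_castSucc, Fin.val_succ] at e'
      have := hinj _ (by omega) _ (by omega) e'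
      omega
  · refine lt_of_le_of_lt ?_ hA
    refine Finset.card_le_card_of_injOn (fun k : Fin n => s (2 * k.val + o)) ?_ ?_
    · intro k hk
      have hk' := ((@Finset.mem_filter _ _ (_) _ _).1 (Finset.mem_coe.1 hk)).2
      have hlt := k.isLt
      refine Finset.mem_coe.2 (Finset.mem_inter.2 ⟨?_, hk'⟩)
      exact Finset.mem_image.2 ⟨2 * k.val + o, Finset.mem_range.2 (by omega), rfl⟩
    · intro k _ l _ hkl
      have hk := k.isLt
      have hl := l.isLt
      have := hinj _ (by omega) _ (by omega) hkl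
      exact Fin.ext (by omega)

open scoped Classical in
theorem St_card {Λ : Type} [Fintype Λ] [DecidableEq Λ] {d q : ℕ} {G : SimpleGraph Λ} {ev : Λ → Prop} (hP : Par G ev)
    (hdeg : ∀ p, (nb G p).card ≤ 4 * d) (Φ Ψ : Λ → Fin q) (W A : Finset Λ) (n m : ℕ) :
    (univ.filter fun p => CP G Φ Ψ W A (2 * n + 2) m p).card ≤ (4 * d + 1) * (PT G ev Φ Ψ W A n m).card := by
  have hsub : (univ.filter fun p => CP G Φ Ψ W A (2 * n + 2) m p) ⊆
      (PT G ev Φ Ψ W A n m).biUnion fun y => insert y (nb G y) := by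
    intro p hp
    obtain ⟨y, hy, h⟩ := CP_PT hP ((@Finset.mem_filter _ _ (_) _ _).1 hp).2
    refine Finset.mem_biUnion.2 ⟨y, hy, ?_⟩
    rw [Finset.mem_insert]
    rcases h with h | h
    · exact Or.inl h.symm
    · right
      unfold nb
      exact (@Finset.mem_filter _ _ (_) _ _).2 ⟨Finset.mem_univ _, h⟩
  calc _ ≤ _ := Finset.card_le_card hsub
    _ ≤ _ := Finset.card_biUnion_le
    _ ≤ ∑ _y ∈ PT G ev Φ Ψ W A n m, (4 * d + 1) := by
        refine Finset.sum_le_sum fun y _ => ?_
        refine (Finset.card_insert_le _ _).trans ?_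
        have := hdeg y
        omega
    _ = (4 * d + 1) * (PT G ev Φ Ψ W A n m).card := by
        rw [Finset.sum_const, smul_eq_mul, mul_comm]

end Pool.Agent.LC

end

/-! ### from `Lib_MP_2c424f_thr.S3` -/

section

/-!
# THR S3: a sparse set of frozen sites sees many frozen sites (paper proof: S4, deterministic part)

`F' = Fz b f \ Bd b f`, `τ = q 4^(-a) / 4`, `B = ⌊τ/3⌋₊ ≥ 1`.  For `v ∈ F'`: `1 = av f v ≥ Vn f v - #frozen neighbours`
(a colour counted in `Vn` and used on a neighbour is used on a frozen neighbour: `Vn_le`), so `v` has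
`≥ 2τ - 1 ≥ τ` frozen neighbours.  `ω : Site → Fin B` uniform, `R = {ω = 0}`: the number of `ω` for which no frozen neighbour
of `v` is in `R` is at most `(1-1/B)^τ ≤ exp (-3) ≤ 1/16` times the total; the mean of `|Fz (!b) f ∩ R|` is `|Fz (!b) f|/B`.
So the mean of `16 uncovered/|F'| + B |Fz (!b) f ∩ R|/|Fz b f|` is at most `2` (the second term is `≤ 1`): take `ω` with value
`≤ 2`, `G = Fz (!b) f ∩ R`, `A` = covered sites of `F'`: `|A| ≥ (7/8) |F'| ≥ (7/8)² |Fz b f| ≥ |Fz b f|/2`,
`|G| ≤ 2 |Fz b f|/B ≤ 4 |A|/B`.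
-/

set_option autoImplicit false

open Finset Filter

namespace Pool.Agent.THR

open Pool.Agent.LO Pool.Agent.LIN

open scoped Classical in
theorem Vn_le {d k q : ℕ} (f : Site d k → Fin q) (v : Site d k) :
    (Vn f v : ℝ) ≤ av f v + ((univ.filter fun σ : Stp d => av f (v + sv σ) = 1).card : ℝ) := by
  have h1 : (univ.filter fun c : Fin q => ∀ σ : Stp d, f (v + sv σ) = c → av f (v + sv σ) = 1) ⊆
      (SS f v)ᶜ ∪ (univ.filter fun σ : Stp d => av f (v + sv σ) = 1).image (fun σ => f (v + sv σ)) := by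
    intro c hc
    rw [mem_filter] at hc
    rw [mem_union, mem_compl]
    by_cases hcS : c ∈ SS f v
    · right
      unfold SS at hcS
      rw [mem_image] at hcS
      obtain ⟨σ, -, hσ⟩ := hcS
      rw [mem_image]
      exact ⟨σ, mem_filter.2 ⟨mem_univ _, hc.2 σ hσ⟩, hσ⟩
    · left
      exact hcS
  have h2 : (SS f v)ᶜ.card = av f v := by
    rw [card_compl, Fintype.card_fin]
    rfl
  have h3 : Vn f v ≤ av f v + (univ.filter fun σ : Stp d => av f (v + sv σ) = 1).card := by
    have h4 := (card_le_card h1).trans (card_union_le _ _)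
    have h5 : ((univ.filter fun σ : Stp d => av f (v + sv σ) = 1).image (fun σ => f (v + sv σ))).card ≤
        (univ.filter fun σ : Stp d => av f (v + sv σ) = 1).card := card_image_le
    unfold Vn
    omega
  exact_mod_cast h3

/-- number of maps which avoid a value on a set -/
private theorem S3_card_avoid {X : Type} [Fintype X] [DecidableEq X] (B : ℕ) (β : Fin B) (T : Finset X) :
    ((univ.filter fun ω : X → Fin B => ∀ x ∈ T, ω x ≠ β).card : ℝ) =
      (1 - 1 / (B : ℝ)) ^ T.card * (B : ℝ) ^ Fintype.card X := by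
  have hB : (0 : ℝ) < B := by
    have := β.pos
    exact_mod_cast this
  have h1 : (univ.filter fun ω : X → Fin B => ∀ x ∈ T, ω x ≠ β) =
      Fintype.piFinset (fun x => if x ∈ T then (univ.erase β : Finset (Fin B)) else univ) := by
    ext ω
    rw [mem_filter, Fintype.mem_piFinset]
    constructor
    · rintro ⟨-, h⟩ x
      by_cases hx : x ∈ T
      · rw [if_pos hx, mem_erase]
        exact ⟨h x hx, mem_univ _⟩
      · rw [if_neg hx]
        exact mem_univ _
    · intro h
      refine ⟨mem_univ _, fun x hx => ?_⟩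
      have := h x
      rw [if_pos hx, mem_erase] at this
      exact this.1
  rw [h1, Fintype.card_piFinset, Nat.cast_prod]
  have h2 : ∀ x : X, (((if x ∈ T then (univ.erase β : Finset (Fin B)) else univ).card : ℕ) : ℝ) =
      (if x ∈ T then (1 - 1 / (B : ℝ)) else 1) * (B : ℝ) := by
    intro x
    by_cases hx : x ∈ T
    · rw [if_pos hx, if_pos hx, card_erase_of_mem (mem_univ _), card_univ, Fintype.card_fin,
        Nat.cast_sub β.pos]
      field_simp
      simp
    · rw [if_neg hx, if_neg hx, card_univ, Fintype.card_fin, one_mul]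
  rw [prod_congr rfl fun x _ => h2 x, prod_mul_distrib, prod_const, card_univ]
  congr 1
  rw [prod_ite_mem, univ_inter, prod_const]

/-- number of maps with a given value at one point -/
private theorem S3_card_hit {X : Type} [Fintype X] [DecidableEq X] (B : ℕ) (β : Fin B) (x : X) :
    ((univ.filter fun ω : X → Fin B => ω x = β).card : ℝ) =
      (1 / (B : ℝ)) * (B : ℝ) ^ Fintype.card X := by
  have h1 := S3_card_avoid B β ({x} : Finset X)
  have h2 : (univ.filter fun ω : X → Fin B => ω x = β).card +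
      (univ.filter fun ω : X → Fin B => ∀ y ∈ ({x} : Finset X), ω y ≠ β).card = Fintype.card (X → Fin B) := by
    have h3 := card_filter_add_card_filter_not (s := (univ : Finset (X → Fin B))) (fun ω => ω x = β)
    rw [card_univ] at h3
    rw [← h3]
    congr 2
    ext ω
    simp
  have h4 : (Fintype.card (X → Fin B) : ℝ) = (B : ℝ) ^ Fintype.card X := by
    rw [Fintype.card_fun, Fintype.card_fin, Nat.cast_pow]
  have h5 : ((univ.filter fun ω : X → Fin B => ω x = β).card : ℝ) +
      ((univ.filter fun ω : X → Fin B => ∀ y ∈ ({x} : Finset X), ω y ≠ β).card : ℝ) =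
      (B : ℝ) ^ Fintype.card X := by
    rw [← h4]
    exact_mod_cast h2
  rw [h1, card_singleton, pow_one] at h5
  linarith

private theorem S3_step {d k : ℕ} (hk : 1 ≤ k) (b : Bool) {v : Site d k} (hv : v ∈ cls b d k) (σ : Stp d) :
    v + sv σ ∈ cls (!b) d k := by
  classical
  unfold cls at hv ⊢
  cases b
  · simp only [Bool.not_false, if_true, Bool.false_eq_true, if_false] at hv ⊢
    unfold ods at hv
    unfold evs
    rw [mem_filter] at hv ⊢
    exact ⟨mem_univ _, (evn_step hk v σ).2 hv.2⟩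
  · simp only [Bool.not_true, if_true, Bool.false_eq_true, if_false] at hv ⊢
    unfold evs at hv
    unfold ods
    rw [mem_filter] at hv ⊢
    exact ⟨mem_univ _, fun h => (evn_step hk v σ).1 h hv.2⟩

private theorem S3_exp : Real.exp (-3) ≤ 1 / 16 := by
  have h1 : (2.7182818283 : ℝ) < Real.exp 1 := Real.exp_one_gt_d9
  have h2 : Real.exp 3 = Real.exp 1 ^ 3 := by
    rw [← Real.exp_nat_mul]
    norm_num
  have h3 : (16 : ℝ) ≤ Real.exp 3 := by
    rw [h2]
    have h4 : (2.7 : ℝ) ^ 3 ≤ Real.exp 1 ^ 3 := pow_le_pow_left₀ (by norm_num) (by linarith) 3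
    refine le_trans ?_ h4
    norm_num
  rw [Real.exp_neg, inv_eq_one_div]
  exact one_div_le_one_div_of_le (by norm_num) h3

/-- the averaging argument, abstract form -/
private theorem S3_abs {X : Type} [Fintype X] [DecidableEq X] (B : ℕ) (hB : 1 ≤ B) (F' Fo : Finset X)
    (T : X → Finset X) (hT : ∀ v ∈ F', 3 * B ≤ (T v).card) (M : ℝ) (hM : (Fo.card : ℝ) ≤ M) (hM1 : 0 < M) (hF : 0 < F'.card) :
    ∃ R : Finset X, ((F'.filter fun v => ∀ x ∈ T v, x ∉ R).card : ℝ) ≤ F'.card / 8 ∧
      ((Fo ∩ R).card : ℝ) * B ≤ 2 * M := by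
  classical
  have hB0 : (0 : ℝ) < B := by exact_mod_cast hB
  have hB1 : (1 : ℝ) ≤ B := by exact_mod_cast hB
  have hF0 : (0 : ℝ) < F'.card := by exact_mod_cast hF
  have hM0 : 0 ≤ M := le_trans (Nat.cast_nonneg _) hM
  set β : Fin B := ⟨0, hB⟩ with hβ
  set N := Fintype.card X with hN
  have hBN : (0 : ℝ) < (B : ℝ) ^ N := pow_pos hB0 N
  have hcard : ((univ : Finset (X → Fin B)).card : ℝ) = (B : ℝ) ^ N := by
    rw [card_univ, Fintype.card_fun, Fintype.card_fin, Nat.cast_pow]
  -- the two sums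
  have hU : ∑ ω : X → Fin B, ((F'.filter fun v => ∀ x ∈ T v, ω x ≠ β).card : ℝ) ≤ F'.card / 16 * (B : ℝ) ^ N := by
    have h1 : ∀ ω : X → Fin B, ((F'.filter fun v => ∀ x ∈ T v, ω x ≠ β).card : ℝ) =
        ∑ v ∈ F', if ∀ x ∈ T v, ω x ≠ β then (1 : ℝ) else 0 := by
      intro ω
      rw [sum_boole]
    rw [sum_congr rfl fun ω _ => h1 ω, sum_comm]
    have h2 : ∀ v ∈ F', ∑ ω : X → Fin B, (if ∀ x ∈ T v, ω x ≠ β then (1 : ℝ) else 0) ≤ 1 / 16 * (B : ℝ) ^ N := by
      intro v hv
      rw [sum_boole, S3_card_avoid B β (T v)]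
      refine mul_le_mul_of_nonneg_right ?_ hBN.le
      have h3 : 0 ≤ 1 - 1 / (B : ℝ) := by
        rw [sub_nonneg, div_le_one hB0]
        exact hB1
      have h4 : 1 - 1 / (B : ℝ) ≤ 1 := by
        have : 0 ≤ 1 / (B : ℝ) := by positivity
        linarith
      calc (1 - 1 / (B : ℝ)) ^ (T v).card ≤ (1 - 1 / (B : ℝ)) ^ (3 * B) :=
            pow_le_pow_of_le_one h3 h4 (hT v hv)
        _ ≤ (Real.exp (-(1 / (B : ℝ)))) ^ (3 * B) := by
            refine pow_le_pow_left₀ h3 ?_ _
            have := Real.add_one_le_exp (-(1 / (B : ℝ)))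
            linarith
        _ = Real.exp (-3) := by
            rw [← Real.exp_nat_mul]
            congr 1
            push_cast
            field_simp
        _ ≤ 1 / 16 := S3_exp
    calc ∑ v ∈ F', ∑ ω : X → Fin B, (if ∀ x ∈ T v, ω x ≠ β then (1 : ℝ) else 0)
        ≤ ∑ v ∈ F', 1 / 16 * (B : ℝ) ^ N := sum_le_sum h2
      _ = F'.card / 16 * (B : ℝ) ^ N := by
          rw [sum_const, nsmul_eq_mul]
          ring
  have hG : ∑ ω : X → Fin B, ((Fo.filter fun x => ω x = β).card : ℝ) ≤ M / B * (B : ℝ) ^ N := by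
    have h1 : ∀ ω : X → Fin B, ((Fo.filter fun x => ω x = β).card : ℝ) =
        ∑ x ∈ Fo, if ω x = β then (1 : ℝ) else 0 := by
      intro ω
      rw [sum_boole]
    rw [sum_congr rfl fun ω _ => h1 ω, sum_comm]
    have h2 : ∀ x ∈ Fo, ∑ ω : X → Fin B, (if ω x = β then (1 : ℝ) else 0) = 1 / (B : ℝ) * (B : ℝ) ^ N := by
      intro x _
      rw [sum_boole, S3_card_hit B β x]
    rw [sum_congr rfl h2, sum_const, nsmul_eq_mul]
    have h3 : (Fo.card : ℝ) * (1 / (B : ℝ) * (B : ℝ) ^ N) = (Fo.card : ℝ) * ((B : ℝ) ^ N / B) := by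
      field_simp
    have h4 : M / B * (B : ℝ) ^ N = M * ((B : ℝ) ^ N / B) := by
      field_simp
    rw [h3, h4]
    exact mul_le_mul_of_nonneg_right hM (by positivity)
  -- choose
  have hex : ∃ ω ∈ (univ : Finset (X → Fin B)),
      16 * M * ((F'.filter fun v => ∀ x ∈ T v, ω x ≠ β).card : ℝ) +
        B * F'.card * ((Fo.filter fun x => ω x = β).card : ℝ) ≤ 2 * M * F'.card := by
    refine exists_le_of_sum_le (univ_nonempty_iff.2 ⟨fun _ => β⟩) ?_
    rw [sum_add_distrib, ← mul_sum, ← mul_sum, sum_const, nsmul_eq_mul, hcard]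
    have h1 := mul_le_mul_of_nonneg_left hU (by positivity : (0 : ℝ) ≤ 16 * M)
    have h2 := mul_le_mul_of_nonneg_left hG (by positivity : (0 : ℝ) ≤ (B : ℝ) * F'.card)
    have h3 : 16 * M * (F'.card / 16 * (B : ℝ) ^ N) + (B : ℝ) * F'.card * (M / B * (B : ℝ) ^ N) =
        (B : ℝ) ^ N * (2 * M * F'.card) := by
      field_simp
      ring
    linarith
  obtain ⟨ω, -, hω⟩ := hex
  refine ⟨univ.filter fun x => ω x = β, ?_, ?_⟩
  · have h1 : (F'.filter fun v => ∀ x ∈ T v, x ∉ (univ.filter fun x => ω x = β)) =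
        F'.filter fun v => ∀ x ∈ T v, ω x ≠ β := by
      refine filter_congr fun v _ => ?_
      simp
    rw [h1]
    have h2 : 0 ≤ (B : ℝ) * F'.card * ((Fo.filter fun x => ω x = β).card : ℝ) := by positivity
    have h3 : 16 * M * ((F'.filter fun v => ∀ x ∈ T v, ω x ≠ β).card : ℝ) ≤ 16 * M * (F'.card / 8) := by
      linarith
    exact le_of_mul_le_mul_left h3 (by positivity)
  · have h1 : Fo ∩ (univ.filter fun x => ω x = β) = Fo.filter fun x => ω x = β := by
      ext x
      simp
    rw [h1]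
    have h2 : 0 ≤ 16 * M * ((F'.filter fun v => ∀ x ∈ T v, ω x ≠ β).card : ℝ) := by positivity
    have h3 : (F'.card : ℝ) * (((Fo.filter fun x => ω x = β).card : ℝ) * B) ≤ F'.card * (2 * M) := by
      linarith
    exact le_of_mul_le_mul_left h3 hF0

theorem cover {d k q : ℕ} (hd : 1 ≤ d) (hk : 2 ≤ k) (b : Bool) {f : Site d k → Fin q} (hf : Prp f) (κ : ℝ) (hκ : 0 < κ)
    (hτ : 3 ≤ (q : ℝ) * (4 : ℝ) ^ (-ra d q) / 4)
    (h1 : κ * NN d k ≤ ((Fz b f).card : ℝ)) (h2 : (Fz (!b) f).card ≤ (Fz b f).card)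
    (h3 : ((Bd b f).card : ℝ) ≤ κ * NN d k / 8) :
    ∃ G A : Finset (Site d k), A ⊆ Fz b f ∧ (∀ v ∈ A, ∃ σ : Stp d, v + sv σ ∈ G) ∧
      κ * NN d k / 2 ≤ (A.card : ℝ) ∧
      (G.card : ℝ) * ⌊(q : ℝ) * (4 : ℝ) ^ (-ra d q) / 12⌋₊ ≤ 4 * A.card := by
  classical
  have _ := hd
  have _ := hf
  have hNN : 0 < NN d k := by
    unfold NN
    positivity
  set t : ℝ := (q : ℝ) * (4 : ℝ) ^ (-ra d q) with ht
  set B : ℕ := ⌊t / 12⌋₊ with hB
  have ht12 : 12 ≤ t := by linarith
  have hB1 : 1 ≤ B := by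
    rw [hB]
    refine Nat.le_floor ?_
    push_cast
    linarith
  have hBt : (B : ℝ) ≤ t / 12 := Nat.floor_le (by linarith)
  have hFz : (0 : ℝ) < (Fz b f).card := lt_of_lt_of_le (by positivity) h1
  -- the set `F'`
  set F' := Fz b f \ Bd b f with hF'
  have hF'c : 7 / 8 * ((Fz b f).card : ℝ) ≤ F'.card := by
    have h4 : ((Fz b f).card : ℝ) ≤ F'.card + (Bd b f).card := by
      have h5 : (Fz b f).card ≤ F'.card + (Bd b f).card := by
        rw [hF']
        have := card_le_card_sdiff_add_card (s := Fz b f) (t := Bd b f)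
        omega
      exact_mod_cast h5
    linarith
  have hF'0 : 0 < F'.card := by
    have : (0 : ℝ) < F'.card := lt_of_lt_of_le (by positivity) hF'c
    exact_mod_cast this
  -- frozen neighbours
  set T : Site d k → Finset (Site d k) := fun v =>
    (univ.filter fun σ : Stp d => av f (v + sv σ) = 1).image (fun σ => v + sv σ) with hT
  have hTc : ∀ v ∈ F', 3 * B ≤ (T v).card := by
    intro v hv
    rw [hF', Finset.mem_sdiff] at hv
    have hv1 : v ∈ cls b d k ∧ av f v = 1 := by
      have := hv.1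
      unfold Fz at this
      exact mem_filter.1 this
    have hv2 : t / 2 ≤ (Vn f v : ℝ) := by
      by_contra hcon
      push Not at hcon
      refine hv.2 ?_
      unfold Bd
      rw [mem_filter]
      exact ⟨hv1.1, hcon⟩
    have h5 := Vn_le f v
    rw [hv1.2] at h5
    have h6 : (T v).card = (univ.filter fun σ : Stp d => av f (v + sv σ) = 1).card := by
      rw [hT]
      refine card_image_of_injective _ ?_
      intro σ τ hστ
      exact sv_inj hk (add_left_cancel hστ)
    have h7 : (3 * B : ℝ) ≤ (T v).card := by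
      rw [h6]
      push_cast at h5
      linarith
    exact_mod_cast h7
  obtain ⟨R, hR1, hR2⟩ := S3_abs B hB1 F' (Fz (!b) f) T hTc ((Fz b f).card : ℝ) (by exact_mod_cast h2) hFz hF'0
  refine ⟨Fz (!b) f ∩ R, F'.filter fun v => ¬ ∀ x ∈ T v, x ∉ R, ?_, ?_, ?_, ?_⟩
  · intro v hv
    have := (mem_filter.1 hv).1
    rw [hF', Finset.mem_sdiff] at this
    exact this.1
  · intro v hv
    rw [mem_filter] at hv
    obtain ⟨hv1, hv2⟩ := hv
    push Not at hv2
    obtain ⟨x, hx, hxR⟩ := hv2
    rw [hT] at hx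
    obtain ⟨σ, hσ, rfl⟩ := mem_image.1 hx
    refine ⟨σ, mem_inter.2 ⟨?_, hxR⟩⟩
    have hvc : v ∈ cls b d k := by
      rw [hF', Finset.mem_sdiff] at hv1
      have := hv1.1
      unfold Fz at this
      exact (mem_filter.1 this).1
    unfold Fz
    rw [mem_filter]
    exact ⟨S3_step (by omega) b hvc σ, (mem_filter.1 hσ).2⟩
  all_goals
    have hA : (F'.card : ℝ) = ((F'.filter fun v => ∀ x ∈ T v, x ∉ R).card : ℝ) +
        ((F'.filter fun v => ¬ ∀ x ∈ T v, x ∉ R).card : ℝ) := by
      have h8 := card_filter_add_card_filter_not (s := F') (fun v => ∀ x ∈ T v, x ∉ R)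
      exact_mod_cast h8.symm
    have hA2 : ((Fz b f).card : ℝ) / 2 ≤ ((F'.filter fun v => ¬ ∀ x ∈ T v, x ∉ R).card : ℝ) := by
      linarith
  · linarith
  · linarith

end Pool.Agent.THR

end
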