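import Mathlib

/-!
# MP_2c424f_pr, q_c grows linearly: merged library part M08

Concatenation of smaller files (each in its own section), only to save build time.
-/

/-! ### from `Lib_MP_2c424f_lin.L5` -/

section

/-!
# H30 L5: McDiarmid's inequality on a finite product (elementary form)

`t i` nonempty finsets, uniform measure on `Fintype.piFinset t`.  `F` has the differences `c i ≤ 1` in the coordinate
`i`.  Then `mean exp F ≤ exp (mean F + ∑ c i²)`.
Proof: for one coordinate: if `|F - F'| ≤ c ≤ 1` on `t i` then `mean exp (F - mean F) ≤ 1 + mean (F - mean F)² ≤ exp (c²)`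
(`exp y ≤ 1 + y + y²` for `|y| ≤ 1`).  Let `avg i G (f) = (∑_{a ∈ t i} G (update f i a))/|t i|`.  Averages over
different coordinates commute and preserve the difference bounds in the other coordinates; by induction on the set `s`
of averaged coordinates `avg_s (exp F) ≤ exp (avg_s F + ∑_{i ∈ s} c i²)` on `piFinset t`, and
`∑_{f ∈ piFinset t} avg_s G f = ∑_{f ∈ piFinset t} G f`; `avg_univ F` is constant `= mean F`.
-/

set_option autoImplicit false

open Finset

namespace Pool.Agent.LIN

section

variable {ι α : Type*} [DecidableEq ι]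

private noncomputable def L5_avg (t : ι → Finset α) (i : ι) (G : (ι → α) → ℝ) (f : ι → α) : ℝ :=
  (∑ a ∈ t i, G (Function.update f i a)) / (t i).card

private noncomputable def L5_S (t : ι → Finset α) : List ι → ((ι → α) → ℝ) → (ι → α) → ℝ
  | [], G => G
  | i :: l, G => L5_avg t i (L5_S t l G)

/-- one coordinate -/
private theorem L5_one (T : Finset α) (hT : T.Nonempty) (H : α → ℝ) (c : ℝ) (hc1 : c ≤ 1)
    (hH : ∀ a ∈ T, ∀ b ∈ T, |H a - H b| ≤ c) :
    (∑ a ∈ T, Real.exp (H a)) / T.card ≤ Real.exp ((∑ a ∈ T, H a) / T.card + c ^ 2) := by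
  have hT0 : (0 : ℝ) < T.card := by exact_mod_cast hT.card_pos
  set m : ℝ := (∑ a ∈ T, H a) / T.card with hm
  have hm' : ∑ a ∈ T, H a = m * T.card := by rw [hm, div_mul_cancel₀ _ hT0.ne']
  have h1 : ∀ a ∈ T, |H a - m| ≤ c := by
    intro a ha
    have h2 : H a - m = (∑ b ∈ T, (H a - H b)) / T.card := by
      rw [Finset.sum_sub_distrib, Finset.sum_const, nsmul_eq_mul, hm', eq_div_iff hT0.ne']
      ring
    rw [h2, abs_div, abs_of_pos hT0, div_le_iff₀ hT0]
    calc |∑ b ∈ T, (H a - H b)| ≤ ∑ b ∈ T, |H a - H b| := Finset.abs_sum_le_sum_abs _ _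
      _ ≤ ∑ b ∈ T, c := Finset.sum_le_sum fun b hb => hH a ha b hb
      _ = c * T.card := by rw [Finset.sum_const, nsmul_eq_mul, mul_comm]
  have h2 : ∀ a ∈ T, Real.exp (H a) ≤ Real.exp m * (1 + (H a - m) + c ^ 2) := by
    intro a ha
    have h3 : Real.exp (H a) = Real.exp m * Real.exp (H a - m) := by
      rw [← Real.exp_add]
      congr 1
      ring
    rw [h3]
    refine mul_le_mul_of_nonneg_left ?_ (Real.exp_pos _).le
    have h4 := Real.abs_exp_sub_one_sub_id_le ((h1 a ha).trans hc1)
    have h5 : (H a - m) ^ 2 ≤ c ^ 2 := by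
      rw [← sq_abs (H a - m)]
      exact pow_le_pow_left₀ (abs_nonneg _) (h1 a ha) 2
    have h6 := (abs_le.1 h4).2
    linarith
  have h3 : ∑ a ∈ T, Real.exp (H a) ≤ Real.exp m * (1 + c ^ 2) * T.card := by
    calc ∑ a ∈ T, Real.exp (H a) ≤ ∑ a ∈ T, Real.exp m * (1 + (H a - m) + c ^ 2) :=
          Finset.sum_le_sum h2
      _ = Real.exp m * (1 + c ^ 2) * T.card := by
          rw [← Finset.mul_sum, Finset.sum_add_distrib, Finset.sum_add_distrib,
            Finset.sum_sub_distrib, Finset.sum_const, Finset.sum_const, Finset.sum_const, hm']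
          simp only [nsmul_eq_mul]
          ring
  rw [div_le_iff₀ hT0, Real.exp_add]
  refine h3.trans (mul_le_mul_of_nonneg_right ?_ hT0.le)
  refine mul_le_mul_of_nonneg_left ?_ (Real.exp_pos _).le
  have := Real.add_one_le_exp (c ^ 2)
  linarith

private theorem L5_inv (t : ι → Finset α) (G : (ι → α) → ℝ) :
    ∀ (l : List ι) (i : ι), i ∈ l → ∀ (f : ι → α) (a : α),
      L5_S t l G (Function.update f i a) = L5_S t l G f
  | [], i, hi, f, a => by simp at hi
  | j :: l, i, hi, f, a => by
    change L5_avg t j (L5_S t l G) (Function.update f i a) = L5_avg t j (L5_S t l G) f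
    unfold L5_avg
    by_cases hij : i = j
    · subst hij
      simp only [Function.update_idem]
    · have hi' : i ∈ l := by
        rcases List.mem_cons.1 hi with h | h
        · exact absurd h hij
        · exact h
      congr 1
      refine Finset.sum_congr rfl fun b _ => ?_
      rw [Function.update_comm hij, L5_inv t G l i hi']

private theorem L5_const [Fintype ι] (S : (ι → α) → ℝ)
    (h : ∀ i f a, S (Function.update f i a) = S f) (f g : ι → α) : S g = S f := by
  have key : ∀ s : Finset ι, S (fun i => if i ∈ s then g i else f i) = S f := by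
    intro s
    induction s using Finset.induction_on with
    | empty => simp
    | insert a s ha ih =>
      have h1 : (fun i => if i ∈ insert a s then g i else f i) =
          Function.update (fun i => if i ∈ s then g i else f i) a (g a) := by
        funext i
        by_cases hi : i = a
        · subst hi
          simp
        · simp [hi]
      rw [h1, h, ih]
  have h2 := key univ
  simpa using h2

private theorem L5_mem [Fintype ι] [DecidableEq α] (t : ι → Finset α) {f : ι → α}
    (hf : f ∈ Fintype.piFinset t) {i : ι} {a : α} (ha : a ∈ t i) :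
    Function.update f i a ∈ Fintype.piFinset t := by
  rw [Fintype.mem_piFinset] at hf ⊢
  intro j
  by_cases h : j = i
  · subst h
    rwa [Function.update_self]
  · rw [Function.update_of_ne h]
    exact hf j

private theorem L5_sum1 [Fintype ι] [DecidableEq α] (t : ι → Finset α) (ht : ∀ i, (t i).Nonempty)
    (i : ι) (G : (ι → α) → ℝ) :
    ∑ f ∈ Fintype.piFinset t, L5_avg t i G f = ∑ f ∈ Fintype.piFinset t, G f := by
  have hT0 : (0 : ℝ) < (t i).card := by exact_mod_cast (ht i).card_pos
  have h1 : ∑ f ∈ Fintype.piFinset t, ∑ a ∈ t i, G (Function.update f i a) =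
      ∑ f ∈ Fintype.piFinset t, ∑ a ∈ t i, G f := by
    rw [← Finset.sum_product', ← Finset.sum_product']
    refine Finset.sum_nbij' (fun p => (Function.update p.1 i p.2, p.1 i))
      (fun p => (Function.update p.1 i p.2, p.1 i)) ?_ ?_ ?_ ?_ ?_
    · rintro ⟨f, a⟩ hp
      rw [Finset.mem_product] at hp ⊢
      exact ⟨L5_mem t hp.1 hp.2, (Fintype.mem_piFinset.1 hp.1) i⟩
    · rintro ⟨f, a⟩ hp
      rw [Finset.mem_product] at hp ⊢
      exact ⟨L5_mem t hp.1 hp.2, (Fintype.mem_piFinset.1 hp.1) i⟩
    · rintro ⟨f, a⟩ _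
      simp
    · rintro ⟨f, a⟩ _
      simp
    · rintro ⟨f, a⟩ _
      rfl
  unfold L5_avg
  rw [← Finset.sum_div, h1]
  simp only [Finset.sum_const, nsmul_eq_mul]
  rw [← Finset.mul_sum, mul_div_cancel_left₀ _ hT0.ne']

end

theorem mcdiarmid {ι α : Type*} [Fintype ι] [DecidableEq ι] [DecidableEq α] (t : ι → Finset α)
    (ht : ∀ i, (t i).Nonempty) (F : (ι → α) → ℝ) (c : ι → ℝ) (hc : ∀ i, 0 ≤ c i) (hc1 : ∀ i, c i ≤ 1)
    (hF : ∀ f ∈ Fintype.piFinset t, ∀ i, ∀ a ∈ t i, |F (Function.update f i a) - F f| ≤ c i) :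
    ∑ f ∈ Fintype.piFinset t, Real.exp (F f) ≤
      ((Fintype.piFinset t).card : ℝ) * Real.exp ((∑ f ∈ Fintype.piFinset t, F f) /
        ((Fintype.piFinset t).card : ℝ) + ∑ i, c i ^ 2) := by
  have hdiff : ∀ (l : List ι), ∀ f ∈ Fintype.piFinset t, ∀ i ∉ l, ∀ a ∈ t i,
      |L5_S t l F (Function.update f i a) - L5_S t l F f| ≤ c i := by
    intro l
    induction l with
    | nil => exact fun f hf i _ a ha => hF f hf i a ha
    | cons j l ih =>
      intro f hf i hi a ha
      rw [List.mem_cons, not_or] at hi
      have hT0 : (0 : ℝ) < (t j).card := by exact_mod_cast (ht j).card_pos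
      change |L5_avg t j (L5_S t l F) (Function.update f i a) - L5_avg t j (L5_S t l F) f| ≤ c i
      unfold L5_avg
      rw [← sub_div, ← Finset.sum_sub_distrib, abs_div, abs_of_pos hT0, div_le_iff₀ hT0]
      refine (Finset.abs_sum_le_sum_abs _ _).trans ?_
      refine (Finset.sum_le_sum (g := fun _ => c i) fun b hb => ?_).trans ?_
      · rw [Function.update_comm hi.1]
        exact ih _ (L5_mem t hf hb) i hi.2 a ha
      · rw [Finset.sum_const, nsmul_eq_mul, mul_comm]
  have hexp : ∀ (l : List ι), l.Nodup → ∀ f ∈ Fintype.piFinset t,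
      L5_S t l (fun g => Real.exp (F g)) f ≤
        Real.exp (L5_S t l F f + (l.map fun i => c i ^ 2).sum) := by
    intro l
    induction l with
    | nil =>
      intro _ f _
      simp [L5_S]
    | cons j l ih =>
      intro hl f hf
      rw [List.nodup_cons] at hl
      have hT0 : (0 : ℝ) < (t j).card := by exact_mod_cast (ht j).card_pos
      change (∑ a ∈ t j, L5_S t l (fun g => Real.exp (F g)) (Function.update f j a)) / (t j).card ≤
        Real.exp ((∑ a ∈ t j, L5_S t l F (Function.update f j a)) / (t j).card + _)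
      have h1 : (∑ a ∈ t j, L5_S t l (fun g => Real.exp (F g)) (Function.update f j a)) ≤
          (∑ a ∈ t j, Real.exp (L5_S t l F (Function.update f j a))) *
            Real.exp ((l.map fun i => c i ^ 2).sum) := by
        rw [Finset.sum_mul]
        refine Finset.sum_le_sum fun a ha => ?_
        rw [← Real.exp_add]
        exact ih hl.2 _ (L5_mem t hf ha)
      have h2 := L5_one (t j) (ht j) (fun a => L5_S t l F (Function.update f j a)) (c j) (hc1 j) (by
        intro a ha b hb
        have h3 := hdiff l (Function.update f j b) (L5_mem t hf hb) j hl.1 a ha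
        rwa [Function.update_idem] at h3)
      rw [List.map_cons, List.sum_cons, ← add_assoc, Real.exp_add]
      calc _ ≤ (∑ a ∈ t j, Real.exp (L5_S t l F (Function.update f j a))) *
            Real.exp ((l.map fun i => c i ^ 2).sum) / (t j).card :=
            div_le_div_of_nonneg_right h1 hT0.le
        _ = (∑ a ∈ t j, Real.exp (L5_S t l F (Function.update f j a))) / (t j).card *
            Real.exp ((l.map fun i => c i ^ 2).sum) := by ring
        _ ≤ _ := mul_le_mul_of_nonneg_right h2 (Real.exp_pos _).le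
  have hsum : ∀ (l : List ι) (G : (ι → α) → ℝ),
      ∑ f ∈ Fintype.piFinset t, L5_S t l G f = ∑ f ∈ Fintype.piFinset t, G f := by
    intro l
    induction l with
    | nil => exact fun G => rfl
    | cons j l ih => exact fun G => (L5_sum1 t ht j _).trans (ih G)
  obtain ⟨f₀, hf₀⟩ : (Fintype.piFinset t).Nonempty := Fintype.piFinset_nonempty.2 ht
  have hcard : (0 : ℝ) < (Fintype.piFinset t).card := by exact_mod_cast Finset.card_pos.2 ⟨f₀, hf₀⟩
  have hval : ∀ G : (ι → α) → ℝ, ∑ f ∈ Fintype.piFinset t, G f =
      ((Fintype.piFinset t).card : ℝ) * L5_S t (univ : Finset ι).toList G f₀ := by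
    intro G
    rw [← hsum (univ : Finset ι).toList G]
    have h1 : ∀ f, L5_S t (univ : Finset ι).toList G f = L5_S t (univ : Finset ι).toList G f₀ :=
      fun f => L5_const _ (fun i g a => L5_inv t G _ i (by simp) g a) f₀ f
    simp only [h1, Finset.sum_const, nsmul_eq_mul]
  have h1 := hexp (univ : Finset ι).toList (Finset.nodup_toList _) f₀ hf₀
  rw [hval (fun f => Real.exp (F f)), hval F, mul_div_cancel_left₀ _ hcard.ne']
  refine mul_le_mul_of_nonneg_left ?_ hcard.le
  rwa [← Multiset.sum_coe, ← Multiset.map_coe, Finset.coe_toList] at h1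

end Pool.Agent.LIN

end
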