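import Pool.Agent.Lib_MP_2c424f_m.M02
import Pool.Agent.Lib_MP_2c424f_m.M09

/-!
# MP_2c424f_pr, q_c grows linearly: merged library part M10

Concatenation of smaller files (each in its own section), only to save build time.
-/

namespace Pool.Agent.LO
end Pool.Agent.LO

namespace Pool.Agent.LIN
end Pool.Agent.LIN

namespace Pool.Agent.THR
end Pool.Agent.THR

namespace Pool.Agent.COR
end Pool.Agent.COR

namespace Pool.Agent.LC
end Pool.Agent.LC

/-! ### from `Lib_MP_2c424f_cor.B01` -/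

section

/-!
# The events of the types are local and reflection invariant (piece B01)

`mb`, `mj` depend on the values at the points `pt t a b` of the closed block only (`pt_step`: an allowed step leads to a
point of the block) and are invariant under reflections (as in the proofs of `bad_loc`, `bad_sym` in
`Lib_MP_2c424f_lo/Lab.lean`; `rs_pt`, `rs_step`: the reflection maps the block `t` onto `rb j α t`, `(a,b)` onto
`(flp a j, flp b j)`, the step `(i,β)` onto `(i, β xor (i = j))`).  The same for `lab0`, `AL`, `badT`, `prB`.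
`fcE`: `(rs j α x) j = 4 α - x j`, so `val % 4 = 0` and `val % 4 = 2` are preserved (`4 ∣ 2^(k+1)` for `k ≥ 1`).
-/

set_option autoImplicit false

open Finset

namespace Pool.Agent.COR

open Pool.Agent.LO

variable {d k q : ℕ}

private theorem B01_ite {P Q : Prop} (hP : Decidable P) (hQ : Decidable Q) (h : P ↔ Q) :
    (@ite ℝ P hP 1 0) = (@ite ℝ Q hQ 1 0) := by
  by_cases hp : P
  · rw [if_pos hp, if_pos (h.1 hp)]
  · rw [if_neg hp, if_neg (fun hq => hp (h.2 hq))]

private theorem B01_val_loc (t : Blk d k) (f g : Site d (k + 1) → Fin q)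
    (h : ∀ a b, f (pt t a b) = g (pt t a b)) (a b : Bt d) (σ : Stp d) (hσ : alw a b σ) :
    f (pt t a b + sv σ) = g (pt t a b + sv σ) := by
  obtain ⟨a', b', e⟩ := pt_step t a b σ hσ
  rw [e]
  exact h a' b'

theorem mb_loc (t : Blk d k) (f g : Site d (k + 1) → Fin q) (h : ∀ a b, f (pt t a b) = g (pt t a b)) (c : Fin q) :
    mb f t c = mb g t c := by
  unfold mb
  congr 1
  funext a b
  unfold zb
  refine B01_ite _ _ ?_
  constructor
  · intro h1 σ hσ
    rw [← B01_val_loc t f g h a b σ hσ]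
    exact h1 σ hσ
  · intro h1 σ hσ
    rw [B01_val_loc t f g h a b σ hσ]
    exact h1 σ hσ

theorem mj_loc (t : Blk d k) (f g : Site d (k + 1) → Fin q) (h : ∀ a b, f (pt t a b) = g (pt t a b)) (c : Fin q)
    (j : Fin d) : mj f t c j = mj g t c j := by
  unfold mj
  congr 1
  funext a b
  unfold zj
  refine B01_ite _ _ ?_
  constructor
  · intro h1 σ hj hσ
    rw [← B01_val_loc t f g h a b σ hσ]
    exact h1 σ hj hσ
  · intro h1 σ hj hσ
    rw [B01_val_loc t f g h a b σ hσ]
    exact h1 σ hj hσ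

theorem AL_loc (t : Blk d k) (f g : Site d (k + 1) → Fin q) (h : ∀ a b, f (pt t a b) = g (pt t a b)) :
    AL f t = AL g t := by
  ext c
  simp only [AL, Finset.mem_filter, Finset.mem_univ, true_and, lab0, mj_loc t f g h c]

private theorem B01_bad_loc (t : Blk d k) (f g : Site d (k + 1) → Fin q)
    (h : ∀ a b, f (pt t a b) = g (pt t a b)) (c : Fin q) : bad c t f ↔ bad c t g := by
  unfold bad lab1 lab0
  simp only [mb_loc t f g h c, mj_loc t f g h c]

private theorem B01_badT_loc (θ : ℝ) (t : Blk d k) (f g : Site d (k + 1) → Fin q)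
    (h : ∀ a b, f (pt t a b) = g (pt t a b)) (c : Fin q) : badT θ c t f ↔ badT θ c t g := by
  unfold badT
  simp only [mb_loc t f g h c, mj_loc t f g h c]

theorem GD_loc (t : Blk d k) (f g : Site d (k + 1) → Fin q) (h : ∀ a b, f (pt t a b) = g (pt t a b)) :
    GD t f ↔ GD t g := by
  unfold GD
  simp only [B01_bad_loc t f g h, AL_loc t f g h]

theorem VG_loc (t : Blk d k) (f g : Site d (k + 1) → Fin q) (h : ∀ a b, f (pt t a b) = g (pt t a b)) :
    VG t f ↔ VG t g := by
  unfold VG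
  simp only [B01_badT_loc (th d) t f g h, GD_loc t f g h]

private theorem B01_unb_loc (t : Blk d k) (f g : Site d (k + 1) → Fin q)
    (h : ∀ a b, f (pt t a b) = g (pt t a b)) : unb t f ↔ unb t g := by
  unfold unb
  simp only [B01_bad_loc t f g h, AL_loc t f g h]

private theorem B01_prB_loc (t : Blk d k) (f g : Site d (k + 1) → Fin q)
    (h : ∀ a b, f (pt t a b) = g (pt t a b)) (hf : prB t f) : prB t g := by
  intro a b σ hσ
  rw [← B01_val_loc t f g h a b σ hσ, ← h a b]
  exact hf a b σ hσ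

theorem Ev_loc (s : Ty d q) (t : Blk d k) (f g : Site d (k + 1) → Fin q)
    (h : ∀ a b, f (pt t a b) = g (pt t a b)) (hf : Ev s t f) : Ev s t g := by
  cases s with
  | free => exact trivial
  | pr => exact B01_prB_loc t f g h hf
  | bd c => exact ⟨B01_prB_loc t f g h hf.1, (B01_bad_loc t f g h c).1 hf.2⟩
  | bt c => exact ⟨B01_prB_loc t f g h hf.1, (B01_badT_loc (th d) t f g h c).1 hf.2⟩
  | ub => exact ⟨B01_prB_loc t f g h hf.1, (B01_unb_loc t f g h).1 hf.2⟩
  | fc j m =>
    intro a b σ hσ hj hm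
    rw [← B01_val_loc t f g h a b σ hσ, ← h a b]
    exact hf a b σ hσ hj hm

/-! ### Reflections -/

/-- the reflected step -/
private def B01_S (j : Fin d) (σ : Stp d) : Stp d := (σ.1, if σ.1 = j then !σ.2 else σ.2)

private theorem B01_S_S (j : Fin d) (σ : Stp d) : B01_S j (B01_S j σ) = σ := by
  obtain ⟨i, c⟩ := σ
  unfold B01_S
  by_cases h : i = j <;> simp [h]

private theorem B01_flp_self (a : Bt d) (j : Fin d) : flp a j j = !a j := by
  unfold flp
  exact Function.update_self _ _ _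

private theorem B01_flp_ne (a : Bt d) (i j : Fin d) (h : i ≠ j) : flp a j i = a i := by
  unfold flp
  exact Function.update_of_ne h _ _

private theorem B01_flp_flp (a : Bt d) (j : Fin d) : flp (flp a j) j = a := by
  funext i
  by_cases h : i = j
  · subst h
    rw [B01_flp_self, B01_flp_self, Bool.not_not]
  · rw [B01_flp_ne _ _ _ h, B01_flp_ne _ _ _ h]

private theorem B01_alw (j : Fin d) (a b : Bt d) (σ : Stp d) :
    alw (flp a j) (flp b j) (B01_S j σ) ↔ alw a b σ := by
  obtain ⟨i, c⟩ := σ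
  unfold alw B01_S
  by_cases h : i = j
  · subst h
    simp only [if_true, B01_flp_self]
    cases c <;> cases a i <;> cases b i <;> simp
  · simp only [if_neg h, B01_flp_ne _ _ _ h]

private theorem B01_od (j : Fin d) (a b : Bt d) : od (flp a j) (flp b j) ↔ od a b := by
  unfold od
  have h : (univ.filter fun i => flp a j i ≠ flp b j i) = univ.filter fun i => a i ≠ b i := by
    apply Finset.filter_congr
    intro i _
    by_cases hi : i = j
    · subst hi
      rw [B01_flp_self, B01_flp_self]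
      cases a i <;> cases b i <;> simp
    · rw [B01_flp_ne _ _ _ hi, B01_flp_ne _ _ _ hi]
  rw [h]

private theorem B01_EB (j : Fin d) (F G : Bt d → Bt d → ℝ)
    (h : ∀ a b, F a b = G (flp a j) (flp b j)) : EB F = EB G := by
  classical
  unfold EB
  have hinv : Function.Involutive (fun a : Bt d => flp a j) := fun a => B01_flp_flp a j
  have e : ∀ H : Bt d → ℝ, ∑ a, H (flp a j) = ∑ a, H a := fun H =>
    Equiv.sum_comp hinv.toPerm H
  congr 2
  rw [← e (fun a => ∑ b, if od a b then G a b else 0)]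
  refine Finset.sum_congr rfl fun a _ => ?_
  rw [← e (fun b => if od (flp a j) b then G (flp a j) b else 0)]
  refine Finset.sum_congr rfl fun b _ => ?_
  rw [h a b]
  by_cases ho : od a b
  · rw [if_pos ho, if_pos ((B01_od j a b).2 ho)]
  · rw [if_neg ho, if_neg fun h' => ho ((B01_od j a b).1 h')]

private theorem B01_val_sym (j : Fin d) (α : ZMod (2 ^ k)) (t : Blk d k) (f : Site d (k + 1) → Fin q)
    (a b : Bt d) (σ : Stp d) :
    f (rs j α (pt (rb j α t) a b + sv σ)) = f (pt t (flp a j) (flp b j) + sv (B01_S j σ)) := by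
  obtain ⟨i, c⟩ := σ
  rw [rs_step, rs_pt, rb_rb]
  rfl

private theorem B01_mb_sym (c : Fin q) (j : Fin d) (α : ZMod (2 ^ k)) (t : Blk d k)
    (f : Site d (k + 1) → Fin q) : mb (fun x => f (rs j α x)) (rb j α t) c = mb f t c := by
  unfold mb
  refine B01_EB j _ _ fun a b => ?_
  unfold zb
  refine B01_ite _ _ ?_
  constructor
  · intro h σ hσ
    have h1 := h (B01_S j σ) ((B01_alw j a b _).1 (by rw [B01_S_S]; exact hσ))
    have h2 : f (rs j α (pt (rb j α t) a b + sv (B01_S j σ))) ≠ c := h1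
    rw [B01_val_sym j α t f, B01_S_S] at h2
    exact h2
  · intro h σ hσ
    show f (rs j α (pt (rb j α t) a b + sv σ)) ≠ c
    rw [B01_val_sym j α t f]
    exact h _ ((B01_alw j a b σ).2 hσ)

private theorem B01_mj_sym (c : Fin q) (j : Fin d) (α : ZMod (2 ^ k)) (t : Blk d k) (i : Fin d)
    (f : Site d (k + 1) → Fin q) : mj (fun x => f (rs j α x)) (rb j α t) c i = mj f t c i := by
  unfold mj
  refine B01_EB j _ _ fun a b => ?_
  unfold zj
  refine B01_ite _ _ ?_
  constructor
  · intro h σ hi hσ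
    have h1 := h (B01_S j σ) hi ((B01_alw j a b _).1 (by rw [B01_S_S]; exact hσ))
    have h2 : f (rs j α (pt (rb j α t) a b + sv (B01_S j σ))) ≠ c := h1
    rw [B01_val_sym j α t f, B01_S_S] at h2
    exact h2
  · intro h σ hi hσ
    show f (rs j α (pt (rb j α t) a b + sv σ)) ≠ c
    rw [B01_val_sym j α t f]
    exact h _ hi ((B01_alw j a b σ).2 hσ)

private theorem B01_bad_sym (c : Fin q) (j : Fin d) (α : ZMod (2 ^ k)) (t : Blk d k)
    (f : Site d (k + 1) → Fin q) : bad c (rb j α t) (fun x => f (rs j α x)) ↔ bad c t f := by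
  unfold bad lab1 lab0
  simp only [B01_mb_sym c j α t f, B01_mj_sym c j α t _ f]

private theorem B01_badT_sym (θ : ℝ) (c : Fin q) (j : Fin d) (α : ZMod (2 ^ k)) (t : Blk d k)
    (f : Site d (k + 1) → Fin q) : badT θ c (rb j α t) (fun x => f (rs j α x)) ↔ badT θ c t f := by
  unfold badT
  simp only [B01_mb_sym c j α t f, B01_mj_sym c j α t _ f]

private theorem B01_AL_sym (j : Fin d) (α : ZMod (2 ^ k)) (t : Blk d k)
    (f : Site d (k + 1) → Fin q) : AL (fun x => f (rs j α x)) (rb j α t) = AL f t := by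
  ext c
  simp only [AL, Finset.mem_filter, Finset.mem_univ, true_and, lab0, B01_mj_sym c j α t _ f]

private theorem B01_unb_sym (j : Fin d) (α : ZMod (2 ^ k)) (t : Blk d k)
    (f : Site d (k + 1) → Fin q) : unb (rb j α t) (fun x => f (rs j α x)) ↔ unb t f := by
  unfold unb
  simp only [B01_bad_sym _ j α t f, B01_AL_sym j α t f]

private theorem B01_prB_sym (j : Fin d) (α : ZMod (2 ^ k)) (t : Blk d k)
    (f : Site d (k + 1) → Fin q) (hf : prB t f) : prB (rb j α t) (fun x => f (rs j α x)) := by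
  intro a b σ hσ
  show f (rs j α (pt (rb j α t) a b + sv σ)) ≠ f (rs j α (pt (rb j α t) a b))
  rw [B01_val_sym j α t f, rs_pt, rb_rb]
  exact hf _ _ _ ((B01_alw j a b σ).2 hσ)

/-- the value of the reflected coordinate mod 4 -/
private theorem B01_mod (hk : 1 ≤ k) (n : ℕ) (y : ZMod (2 ^ (k + 1))) :
    ((((4 * n : ℕ) : ZMod (2 ^ (k + 1))) - y).val + y.val) % 4 = 0 := by
  obtain ⟨z, hz⟩ : ∃ z, z = ((4 * n : ℕ) : ZMod (2 ^ (k + 1))) - y := ⟨_, rfl⟩
  rw [← hz]
  have h1 : ((z.val + y.val : ℕ) : ZMod (2 ^ (k + 1))) = ((4 * n : ℕ) : ZMod (2 ^ (k + 1))) := by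
    rw [Nat.cast_add, ZMod.natCast_zmod_val, ZMod.natCast_zmod_val, hz, sub_add_cancel]
  rw [ZMod.natCast_eq_natCast_iff] at h1
  have h4 : (4 : ℕ) ∣ 2 ^ (k + 1) := by
    have : (4 : ℕ) = 2 ^ 2 := by norm_num
    rw [this]
    exact pow_dvd_pow 2 (by omega)
  have h2 : z.val + y.val ≡ 4 * n [MOD 4] := h1.of_dvd h4
  unfold Nat.ModEq at h2
  omega

private theorem B01_coord (hk : 1 ≤ k) (j i : Fin d) (α : ZMod (2 ^ k)) (x : Site d (k + 1)) (m : Bool)
    (h : (x i).val % 4 = (if m then 2 else 0)) : ((rs j α x) i).val % 4 = (if m then 2 else 0) := by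
  by_cases hi : i = j
  · subst hi
    have e1 : rs i α x i = ((4 * α.val : ℕ) : ZMod (2 ^ (k + 1))) - x i := by
      unfold rs
      rw [Function.update_self]
    have h1 := B01_mod hk α.val (x i)
    rw [e1]
    cases m
    · simp only [Bool.false_eq_true, if_false] at h ⊢
      omega
    · simp only [if_true] at h ⊢
      omega
  · have e1 : rs j α x i = x i := by
      unfold rs
      rw [Function.update_of_ne hi]
    rw [e1]
    exact h

theorem Ev_sym (hk : 1 ≤ k) (s : Ty d q) (j : Fin d) (α : ZMod (2 ^ k)) (t : Blk d k)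
    (f : Site d (k + 1) → Fin q) (hf : Ev s t f) : Ev s (rb j α t) (fun x => f (rs j α x)) := by
  cases s with
  | free => exact trivial
  | pr => exact B01_prB_sym j α t f hf
  | bd c => exact ⟨B01_prB_sym j α t f hf.1, (B01_bad_sym c j α t f).2 hf.2⟩
  | bt c => exact ⟨B01_prB_sym j α t f hf.1, (B01_badT_sym (th d) c j α t f).2 hf.2⟩
  | ub => exact ⟨B01_prB_sym j α t f hf.1, (B01_unb_sym j α t f).2 hf.2⟩
  | fc i m =>
    intro a b σ hσ hi hm
    show f (rs j α (pt (rb j α t) a b + sv σ)) ≠ f (rs j α (pt (rb j α t) a b))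
    have hm' := B01_coord hk j i α _ m hm
    rw [rs_pt, rb_rb] at hm'
    rw [B01_val_sym j α t f, rs_pt, rb_rb]
    exact hf _ _ _ ((B01_alw j a b σ).2 hσ) hi hm'

end Pool.Agent.COR

end

/-! ### from `Lib_MP_2c424f_thr.R4` -/

section

/-!
# THR R4: edge chessboard with fat spins (paper proof: R5)

`X = Yf i j k → Fin q`; the fat spin of `f` at the plane position `(x,y)` is `fat i j f x y = fun u => f (stt i j x y u)`.
`f ↦ fat` is a bijection with the functions `ZMod (2^k) × ZMod (2^k) → X` (see `E6a1_e` in LIN).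
`K0 α β = 1[α, β proper in the fibre directions, α u ≠ β u for all u]` (symmetric).
`f` is proper iff `∏ over plane edges of K0 = 1` (otherwise the product is `0`).
Kernels: for `σ = (i,true)`: `Kh x y = K0 exp (Y x y)` for `x+y` even, `K0` for odd, `Kv = K0`.  `σ = (i,false)`:
`Kh x y α β = K0 exp (Y (x+1) y β α)` for `x+y` odd (then `(x+1,y)` is even), `K0` otherwise.  Similarly for `j`.
So `Zg k Kh Kv = ∑_{f ∈ prps} exp (∑_{P even} Y_P (f_P) (f_{P+σ}))`, and `LIN.two_dim` gives the claim with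
`Zh k K0 = Z`, `Zh k (K0 exp (Y_P)) = Zh k (transposed)` (`LIN.Zh_tr`)
`= ∑_{f ∈ prps} exp (∑_{P' even} ∑_{σ' ∈ pl} Y_P (f_{P'}) (f_{P'+σ'}))` (every plane edge has exactly one even end).
There are `(2^k)²/2` even positions: each of them contributes one factor, the other `2 (2^k)² - (2^k)²/2` factors are `Z`.
-/

set_option autoImplicit false

open Finset Filter

namespace Pool.Agent.THR

open Pool.Agent.LO Pool.Agent.LIN

variable {d k q : ℕ}

/-- the fat spin at a plane position -/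
def fat (i j : Fin d) (f : Site d k → Fin q) (x y : ZMod (2 ^ k)) : Yf i j k → Fin q := fun u => f (stt i j x y u.1)

/-- step in the plane: new plane position -/
def plx (i : Fin d) (σ : Stp d) (x : ZMod (2 ^ k)) : ZMod (2 ^ k) := x + (sv σ : Site d k) i

open scoped Classical in
/-- even plane positions -/
noncomputable def evp (k : ℕ) : Finset (ZMod (2 ^ k) × ZMod (2 ^ k)) := univ.filter fun p => Even (p.1.val + p.2.val)

/-- the sum over the edges from even plane positions in the direction `σ` -/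
noncomputable def EY (i j : Fin d) (σ : Stp d) (Y : (Yf i j k → Fin q) → (Yf i j k → Fin q) → ℝ)
    (f : Site d k → Fin q) (p : ZMod (2 ^ k) × ZMod (2 ^ k)) : ℝ :=
  Y (fat i j f p.1 p.2) (fat i j f (plx i σ p.1) (plx j σ p.2))

/-! ### coordinates -/

private theorem R4_stt_i (i j : Fin d) (hij : i ≠ j) (x y : ZMod (2 ^ k)) (u : Site d k) :
    stt i j x y u i = x := by
  unfold stt
  rw [Function.update_of_ne hij, Function.update_self]

private theorem R4_stt_j (i j : Fin d) (x y : ZMod (2 ^ k)) (u : Site d k) :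
    stt i j x y u j = y := by
  unfold stt
  rw [Function.update_self]

private theorem R4_stt_l (i j l : Fin d) (hi : l ≠ i) (hj : l ≠ j) (x y : ZMod (2 ^ k))
    (u : Site d k) : stt i j x y u l = u l := by
  unfold stt
  rw [Function.update_of_ne hj, Function.update_of_ne hi]

/-- the bijection of the sites with plane positions and fibre sites -/
private def R4_e (i j : Fin d) (hij : i ≠ j) :
    (ZMod (2 ^ k) × ZMod (2 ^ k)) × Yf i j k ≃ Site d k where
  toFun q := stt i j q.1.1 q.1.2 q.2.1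
  invFun s := ((s i, s j), ⟨stt i j 0 0 s, R4_stt_i i j hij 0 0 s, R4_stt_j i j 0 0 s⟩)
  left_inv := by
    rintro ⟨⟨x, y⟩, ⟨u, hu1, hu2⟩⟩
    refine Prod.ext (Prod.ext ?_ ?_) (Subtype.ext ?_)
    · exact R4_stt_i i j hij x y u
    · exact R4_stt_j i j x y u
    · funext l
      change stt i j 0 0 (stt i j x y u) l = u l
      by_cases hj : l = j
      · subst hj; rw [R4_stt_j, hu2]
      · by_cases hi : l = i
        · subst hi; rw [R4_stt_i l j hij, hu1]
        · rw [R4_stt_l i j l hi hj, R4_stt_l i j l hi hj]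
  right_inv := by
    intro s
    funext l
    change stt i j (s i) (s j) (stt i j 0 0 s) l = s l
    by_cases hj : l = j
    · subst hj; rw [R4_stt_j]
    · by_cases hi : l = i
      · subst hi; rw [R4_stt_i l j hij]
      · rw [R4_stt_l i j l hi hj, R4_stt_l i j l hi hj]

private theorem R4_add_i (i j : Fin d) (hij : i ≠ j) (x y : ZMod (2 ^ k)) (u : Site d k) :
    stt i j x y u + sv (i, true) = stt i j (x + 1) y u := by
  funext l
  rw [Pi.add_apply]
  unfold sv
  by_cases hi : l = i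
  · subst hi; rw [R4_stt_i l j hij, R4_stt_i l j hij]; simp
  · simp only [if_true]
    rw [Pi.single_eq_of_ne hi, add_zero]
    by_cases hj : l = j
    · subst hj; rw [R4_stt_j, R4_stt_j]
    · rw [R4_stt_l i j l hi hj, R4_stt_l i j l hi hj]

private theorem R4_add_j (i j : Fin d) (hij : i ≠ j) (x y : ZMod (2 ^ k)) (u : Site d k) :
    stt i j x y u + sv (j, true) = stt i j x (y + 1) u := by
  funext l
  rw [Pi.add_apply]
  unfold sv
  by_cases hj : l = j
  · subst hj; rw [R4_stt_j, R4_stt_j]; simp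
  · simp only [if_true]
    rw [Pi.single_eq_of_ne hj, add_zero]
    by_cases hi : l = i
    · subst hi; rw [R4_stt_i l j hij, R4_stt_i l j hij]
    · rw [R4_stt_l i j l hi hj, R4_stt_l i j l hi hj]

private theorem R4_add_l (i j : Fin d) (l : Fin d) (h : l ≠ i ∧ l ≠ j)
    (x y : ZMod (2 ^ k)) (u : Yf i j k) :
    stt i j x y u.1 + sv (l, true) = stt i j x y (shf i j l u).1 := by
  funext m
  rw [Pi.add_apply]
  unfold shf
  rw [dif_pos h]
  unfold sv
  simp only [if_true]
  by_cases hj : m = j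
  · subst hj; rw [R4_stt_j, R4_stt_j, Pi.single_eq_of_ne h.2.symm, add_zero]
  · by_cases hi : m = i
    · subst hi
      unfold stt
      rw [Function.update_of_ne hj, Function.update_self, Function.update_of_ne hj, Function.update_self,
        Pi.single_eq_of_ne h.1.symm, add_zero]
    · rw [R4_stt_l i j m hi hj, R4_stt_l i j m hi hj, Pi.add_apply]

/-! ### the hard-core kernel -/

/-- proper in the fibre directions -/
private def R4_pr (i j : Fin d) (α : Yf i j k → Fin q) : Prop :=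
  ∀ (u : Yf i j k) (l : Fin d), l ≠ i ∧ l ≠ j → α (shf i j l u) ≠ α u

open scoped Classical in
/-- the kernel of proper colourings -/
private noncomputable def R4_K (i j : Fin d) (α β : Yf i j k → Fin q) : ℝ :=
  if R4_pr i j α ∧ R4_pr i j β ∧ ∀ u, α u ≠ β u then 1 else 0

private theorem R4_K_symm (i j : Fin d) (α β : Yf i j k → Fin q) : R4_K i j α β = R4_K i j β α := by
  unfold R4_K
  congr 1
  refine propext ⟨fun h => ⟨h.2.1, h.1, fun u => (h.2.2 u).symm⟩, fun h => ⟨h.2.1, h.1, fun u => (h.2.2 u).symm⟩⟩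

private theorem R4_K_nonneg (i j : Fin d) (α β : Yf i j k → Fin q) : 0 ≤ R4_K i j α β := by
  unfold R4_K
  split_ifs
  · exact zero_le_one
  · exact le_refl _

private theorem R4_prp (i j : Fin d) (hij : i ≠ j) (f : Site d k → Fin q) :
    Prp f ↔ ∀ p : ZMod (2 ^ k) × ZMod (2 ^ k), R4_pr i j (fat i j f p.1 p.2) ∧
      (∀ u, fat i j f p.1 p.2 u ≠ fat i j f (p.1 + 1) p.2 u) ∧
      (∀ u, fat i j f p.1 p.2 u ≠ fat i j f p.1 (p.2 + 1) u) := by
  constructor
  · intro h p
    refine ⟨fun u l hl => ?_, fun u => ?_, fun u => ?_⟩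
    · unfold fat
      rw [← R4_add_l i j l hl]
      exact h _ _
    · unfold fat
      rw [← R4_add_i i j hij]
      exact (h _ _).symm
    · unfold fat
      rw [← R4_add_j i j hij]
      exact (h _ _).symm
  · intro h
    have key : ∀ (x : Site d k) (l : Fin d), f (x + sv (l, true)) ≠ f x := by
      intro x l
      obtain ⟨⟨p, u⟩, rfl⟩ := (R4_e i j hij).surjective x
      change f (stt i j p.1 p.2 u.1 + sv (l, true)) ≠ f (stt i j p.1 p.2 u.1)
      by_cases hi : l = i
      · subst hi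
        rw [R4_add_i l j hij]
        exact ((h p).2.1 u).symm
      · by_cases hj : l = j
        · subst hj
          rw [R4_add_j i l hij]
          exact ((h p).2.2 u).symm
        · rw [R4_add_l i j l ⟨hi, hj⟩]
          exact (h p).1 u l ⟨hi, hj⟩
    rintro x ⟨l, b⟩
    cases b
    · have h2 := key (x + sv (l, false)) l
      have h3 : x + sv (l, false) + sv (l, true) = x := by
        rw [add_assoc]
        have := sv_opp (k := k) l false
        rw [Bool.not_false] at this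
        rw [this, add_zero]
      rw [h3] at h2
      exact h2.symm
    · exact key x l

open scoped Classical in
private theorem R4_prod (i j : Fin d) (hij : i ≠ j) (f : Site d k → Fin q) :
    ∏ p : ZMod (2 ^ k) × ZMod (2 ^ k), (R4_K i j (fat i j f p.1 p.2) (fat i j f (p.1 + 1) p.2) *
      R4_K i j (fat i j f p.1 p.2) (fat i j f p.1 (p.2 + 1))) = if Prp f then 1 else 0 := by
  by_cases h : Prp f
  · rw [if_pos h]
    rw [R4_prp i j hij] at h
    refine prod_eq_one fun p _ => ?_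
    have h1 := h p
    have h2 := h (p.1 + 1, p.2)
    have h3 := h (p.1, p.2 + 1)
    unfold R4_K
    rw [if_pos ⟨h1.1, h2.1, h1.2.1⟩, if_pos ⟨h1.1, h3.1, h1.2.2⟩, one_mul]
  · rw [if_neg h]
    rw [R4_prp i j hij, not_forall] at h
    obtain ⟨p, hp⟩ := h
    refine prod_eq_zero (mem_univ p) ?_
    by_contra hc
    apply hp
    rw [mul_eq_zero, not_or] at hc
    unfold R4_K at hc
    obtain ⟨hc1, hc2⟩ := hc
    rw [ite_eq_right_iff, Classical.not_imp] at hc1 hc2
    exact ⟨hc1.1.1, hc1.1.2.2, hc2.1.2.2⟩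

/-! ### the partition function of the model with fat spins -/

open scoped Classical in
private theorem R4_Zg (i j : Fin d) (hij : i ≠ j)
    (a b : ZMod (2 ^ k) → ZMod (2 ^ k) → (Yf i j k → Fin q) → (Yf i j k → Fin q) → ℝ) :
    Zg k (fun x y α β => R4_K i j α β * Real.exp (a x y α β)) (fun x y α β => R4_K i j α β * Real.exp (b x y α β)) =
      ∑ f ∈ prps d k q, Real.exp (∑ p : ZMod (2 ^ k) × ZMod (2 ^ k),
        (a p.1 p.2 (fat i j f p.1 p.2) (fat i j f (p.1 + 1) p.2) +
          b p.1 p.2 (fat i j f p.1 p.2) (fat i j f p.1 (p.2 + 1)))) := by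
  unfold Zg
  let E : (Site d k → Fin q) ≃ (ZMod (2 ^ k) × ZMod (2 ^ k) → Yf i j k → Fin q) :=
    ((R4_e i j hij).symm.arrowCongr (Equiv.refl (Fin q))).trans (Equiv.curry _ _ _)
  rw [← E.sum_comp]
  unfold prps
  rw [sum_filter]
  refine sum_congr rfl fun f _ => ?_
  have hE : ∀ p : ZMod (2 ^ k) × ZMod (2 ^ k), E f p = fat i j f p.1 p.2 := fun p => rfl
  have h1 : ∏ p : ZMod (2 ^ k) × ZMod (2 ^ k),
      (R4_K i j (E f p) (E f (p.1 + 1, p.2)) * Real.exp (a p.1 p.2 (E f p) (E f (p.1 + 1, p.2)))) *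
        (R4_K i j (E f p) (E f (p.1, p.2 + 1)) * Real.exp (b p.1 p.2 (E f p) (E f (p.1, p.2 + 1)))) =
      (∏ p : ZMod (2 ^ k) × ZMod (2 ^ k), (R4_K i j (fat i j f p.1 p.2) (fat i j f (p.1 + 1) p.2) *
        R4_K i j (fat i j f p.1 p.2) (fat i j f p.1 (p.2 + 1)))) *
      Real.exp (∑ p : ZMod (2 ^ k) × ZMod (2 ^ k),
        (a p.1 p.2 (fat i j f p.1 p.2) (fat i j f (p.1 + 1) p.2) +
          b p.1 p.2 (fat i j f p.1 p.2) (fat i j f p.1 (p.2 + 1)))) := by
    rw [Real.exp_sum, ← prod_mul_distrib]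
    refine prod_congr rfl fun p _ => ?_
    rw [hE, hE, hE, Real.exp_add]
    ring
  rw [h1, R4_prod i j hij f]
  split_ifs
  · rw [one_mul]
  · rw [zero_mul]

/-! ### parity of plane positions, shifts -/

private theorem R4_par (hk : 1 ≤ k) (x y : ZMod (2 ^ k)) :
    Even ((x + 1).val + y.val) ↔ ¬ Even (x.val + y.val) := by
  have h0 : 1 < 2 ^ k := Nat.one_lt_two_pow (by omega)
  have : Fact (1 < 2 ^ k) := ⟨h0⟩
  have h1 : (1 : ZMod (2 ^ k)).val = 1 := ZMod.val_one _
  have h2 : Even (2 ^ k) := (Nat.even_pow.2 ⟨even_two, by omega⟩)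
  have h3 : x.val < 2 ^ k := ZMod.val_lt x
  rw [ZMod.val_add, h1]
  rcases Nat.lt_or_ge (x.val + 1) (2 ^ k) with h | h
  · rw [Nat.mod_eq_of_lt h]
    rw [show x.val + 1 + y.val = (x.val + y.val) + 1 by ring, Nat.even_add_one]
  · have he : x.val + 1 = 2 ^ k := by omega
    rw [he, Nat.mod_self, Nat.zero_add]
    rw [← he] at h2
    rw [Nat.even_add_one] at h2
    rw [Nat.even_add]
    tauto

private theorem R4_par' (hk : 1 ≤ k) (x y : ZMod (2 ^ k)) :
    Even (x.val + (y + 1).val) ↔ ¬ Even (x.val + y.val) := by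
  rw [add_comm, R4_par hk, add_comm]

private theorem R4_sh1 {β : Type*} [CommMonoid β] (G : ZMod (2 ^ k) × ZMod (2 ^ k) → β) :
    ∏ p : ZMod (2 ^ k) × ZMod (2 ^ k), G (p.1 + 1, p.2) = ∏ p, G p :=
  ((Equiv.addRight (1 : ZMod (2 ^ k))).prodCongr (Equiv.refl _)).prod_comp G

private theorem R4_sh2 {β : Type*} [CommMonoid β] (G : ZMod (2 ^ k) × ZMod (2 ^ k) → β) :
    ∏ p : ZMod (2 ^ k) × ZMod (2 ^ k), G (p.1, p.2 + 1) = ∏ p, G p :=
  ((Equiv.refl _).prodCongr (Equiv.addRight (1 : ZMod (2 ^ k)))).prod_comp G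

private theorem R4_sh1s (G : ZMod (2 ^ k) × ZMod (2 ^ k) → ℝ) :
    ∑ p : ZMod (2 ^ k) × ZMod (2 ^ k), G (p.1 + 1, p.2) = ∑ p, G p :=
  ((Equiv.addRight (1 : ZMod (2 ^ k))).prodCongr (Equiv.refl _)).sum_comp G

private theorem R4_sh2s (G : ZMod (2 ^ k) × ZMod (2 ^ k) → ℝ) :
    ∑ p : ZMod (2 ^ k) × ZMod (2 ^ k), G (p.1, p.2 + 1) = ∑ p, G p :=
  ((Equiv.refl _).prodCongr (Equiv.addRight (1 : ZMod (2 ^ k)))).sum_comp G

open scoped Classical in
private theorem R4_ev (G : ZMod (2 ^ k) × ZMod (2 ^ k) → ℝ) :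
    ∑ p : ZMod (2 ^ k) × ZMod (2 ^ k), (if Even (p.1.val + p.2.val) then G p else 0) = ∑ p ∈ evp k, G p := by
  unfold evp
  rw [sum_filter]

open scoped Classical in
private theorem R4_od1 (hk : 1 ≤ k) (G : ZMod (2 ^ k) × ZMod (2 ^ k) → ℝ) :
    ∑ p : ZMod (2 ^ k) × ZMod (2 ^ k), (if Even (p.1.val + p.2.val) then 0 else G (p.1 + 1, p.2)) =
      ∑ p ∈ evp k, G p := by
  rw [← R4_ev, ← R4_sh1s (fun p => if Even (p.1.val + p.2.val) then G p else 0)]
  refine sum_congr rfl fun p _ => ?_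
  dsimp only
  by_cases h : Even (p.1.val + p.2.val)
  · rw [if_pos h, if_neg (by rw [R4_par hk]; exact not_not.2 h)]
  · rw [if_neg h, if_pos ((R4_par hk _ _).2 h)]

open scoped Classical in
private theorem R4_od2 (hk : 1 ≤ k) (G : ZMod (2 ^ k) × ZMod (2 ^ k) → ℝ) :
    ∑ p : ZMod (2 ^ k) × ZMod (2 ^ k), (if Even (p.1.val + p.2.val) then 0 else G (p.1, p.2 + 1)) =
      ∑ p ∈ evp k, G p := by
  rw [← R4_ev, ← R4_sh2s (fun p => if Even (p.1.val + p.2.val) then G p else 0)]
  refine sum_congr rfl fun p _ => ?_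
  dsimp only
  by_cases h : Even (p.1.val + p.2.val)
  · rw [if_pos h, if_neg (by rw [R4_par' hk]; exact not_not.2 h)]
  · rw [if_neg h, if_pos ((R4_par' hk _ _).2 h)]

private theorem R4_pl (i j : Fin d) (hij : i ≠ j) (g : Stp d → ℝ) :
    ∑ τ ∈ pl i j, g τ = g (i, true) + g (i, false) + (g (j, true) + g (j, false)) := by
  classical
  have h : pl i j = {(i, true), (i, false), (j, true), (j, false)} := by
    ext ⟨l, b⟩
    unfold pl
    cases b <;> simp
  rw [h, sum_insert, sum_insert, sum_insert, sum_singleton]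
  · ring
  · simp
  · simp [hij]
  · simp [hij]

private theorem R4_plx_t (i : Fin d) (x : ZMod (2 ^ k)) : plx i (i, true) x = x + 1 := by
  simp [plx, sv]

private theorem R4_plx_f (i : Fin d) (x : ZMod (2 ^ k)) : plx i (i, false) x = x - 1 := by
  simp [plx, sv, sub_eq_add_neg]

private theorem R4_plx_o (i j : Fin d) (hij : i ≠ j) (b : Bool) (x : ZMod (2 ^ k)) : plx i (j, b) x = x := by
  simp [plx, sv, Pi.single_eq_of_ne hij]

/-! ### the homogeneous model -/

open scoped Classical in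
private theorem R4_Zh (hk : 1 ≤ k) (i j : Fin d) (hij : i ≠ j)
    (Y : (Yf i j k → Fin q) → (Yf i j k → Fin q) → ℝ) :
    Zh k (fun α β => R4_K i j α β * Real.exp (Y α β)) =
      ∑ f ∈ prps d k q, Real.exp (∑ p ∈ evp k, ∑ τ ∈ pl i j, EY i j τ Y f p) := by
  have h0 : ori k (fun α β : Yf i j k → Fin q => R4_K i j α β * Real.exp (Y α β)) =
      fun x y α β => R4_K i j α β * Real.exp (if Even (x.val + y.val) then Y α β else Y β α) := by
    funext x y α β
    unfold ori
    split_ifs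
    · rfl
    · dsimp only
      rw [R4_K_symm]
  unfold Zh
  rw [h0, R4_Zg i j hij]
  refine sum_congr rfl fun f _ => ?_
  congr 1
  rw [sum_add_distrib]
  have e1 : ∑ p : ZMod (2 ^ k) × ZMod (2 ^ k), (if Even (p.1.val + p.2.val) then
      Y (fat i j f p.1 p.2) (fat i j f (p.1 + 1) p.2) else Y (fat i j f (p.1 + 1) p.2) (fat i j f p.1 p.2)) =
      ∑ p ∈ evp k, EY i j (i, true) Y f p + ∑ p ∈ evp k, EY i j (i, false) Y f p := by
    rw [← R4_ev, ← R4_od1 hk, ← sum_add_distrib]
    refine sum_congr rfl fun p _ => ?_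
    unfold EY
    rw [R4_plx_t, R4_plx_o j i hij.symm, R4_plx_f, R4_plx_o j i hij.symm]
    split_ifs
    · rw [add_zero]
    · rw [zero_add, add_sub_cancel_right]
  have e2 : ∑ p : ZMod (2 ^ k) × ZMod (2 ^ k), (if Even (p.1.val + p.2.val) then
      Y (fat i j f p.1 p.2) (fat i j f p.1 (p.2 + 1)) else Y (fat i j f p.1 (p.2 + 1)) (fat i j f p.1 p.2)) =
      ∑ p ∈ evp k, EY i j (j, true) Y f p + ∑ p ∈ evp k, EY i j (j, false) Y f p := by
    rw [← R4_ev, ← R4_od2 hk, ← sum_add_distrib]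
    refine sum_congr rfl fun p _ => ?_
    unfold EY
    rw [R4_plx_t, R4_plx_o i j hij, R4_plx_f, R4_plx_o i j hij]
    split_ifs
    · rw [add_zero]
    · rw [zero_add, add_sub_cancel_right]
  rw [e1, e2, ← sum_add_distrib, ← sum_add_distrib, ← sum_add_distrib]
  refine sum_congr rfl fun p _ => ?_
  rw [R4_pl i j hij]

private theorem R4_Zh0 (hk : 1 ≤ k) (i j : Fin d) (hij : i ≠ j) :
    Zh k (fun α β : Yf i j k → Fin q => R4_K i j α β * Real.exp 0) = ZZ d k q := by
  rw [R4_Zh hk i j hij (fun _ _ => 0)]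
  have h : ∀ f : Site d k → Fin q,
      Real.exp (∑ p ∈ evp k, ∑ τ ∈ pl i j, EY i j τ (fun _ _ => (0 : ℝ)) f p) = 1 := by
    intro f
    have h1 : ∑ p ∈ evp k, ∑ τ ∈ pl i j, EY i j τ (fun _ _ => (0 : ℝ)) f p = 0 :=
      sum_eq_zero fun p _ => sum_eq_zero fun τ _ => rfl
    rw [h1, Real.exp_zero]
  rw [sum_congr rfl fun f _ => h f, sum_const, nsmul_eq_mul, mul_one]
  rfl

/-- the product of the homogeneous factors -/
private theorem R4_fin (Z : ℝ) (Q : ZMod (2 ^ k) × ZMod (2 ^ k) → ℝ) :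
    (∏ p : ZMod (2 ^ k) × ZMod (2 ^ k), (if Even (p.1.val + p.2.val) then Q p else Z)) *
      ∏ _p : ZMod (2 ^ k) × ZMod (2 ^ k), Z = Z ^ (2 * (2 ^ k) ^ 2 - (evp k).card) * ∏ p ∈ evp k, Q p := by
  classical
  have hc : Fintype.card (ZMod (2 ^ k) × ZMod (2 ^ k)) = (2 ^ k) ^ 2 := by
    rw [Fintype.card_prod, ZMod.card, sq]
  rw [prod_ite, prod_const, prod_const]
  have h1 : (univ.filter fun p : ZMod (2 ^ k) × ZMod (2 ^ k) => Even (p.1.val + p.2.val)) = evp k := by
    unfold evp
    exact filter_congr_decidable _ _ _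
  have h2 : (univ.filter fun p : ZMod (2 ^ k) × ZMod (2 ^ k) => ¬ Even (p.1.val + p.2.val)).card =
      (2 ^ k) ^ 2 - (evp k).card := by
    rw [← h1, ← hc, ← Finset.card_univ]
    have := Finset.card_filter_add_card_filter_not (s := (univ : Finset (ZMod (2 ^ k) × ZMod (2 ^ k))))
      (fun p : ZMod (2 ^ k) × ZMod (2 ^ k) => Even (p.1.val + p.2.val))
    omega
  have h3 : (evp k).card ≤ (2 ^ k) ^ 2 := by
    rw [← hc, ← Finset.card_univ]
    exact card_le_card (subset_univ _)
  rw [h1, h2, Finset.card_univ, hc, mul_assoc, ← pow_add, mul_comm]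
  congr 2
  omega

theorem fat_chess (hk : 1 ≤ k) (i j : Fin d) (hij : i ≠ j) (σ : Stp d) (hσ : σ ∈ pl i j)
    (Y : ZMod (2 ^ k) × ZMod (2 ^ k) → (Yf i j k → Fin q) → (Yf i j k → Fin q) → ℝ) :
    (∑ f ∈ prps d k q, Real.exp (∑ p ∈ evp k, EY i j σ (Y p) f p)) ^ (2 * (2 ^ k) ^ 2) ≤
      ((q : ℝ) ^ Fintype.card (Yf i j k)) ^ ((2 ^ k) ^ 3) * ZZ d k q ^ (2 * (2 ^ k) ^ 2 - (evp k).card) *
        ∏ p ∈ evp k, ∑ f ∈ prps d k q, Real.exp (∑ p' ∈ evp k, ∑ τ ∈ pl i j, EY i j τ (Y p) f p') := by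
  classical
  set K := R4_K (q := q) (k := k) i j with hK
  have hK0 : ∀ α β, 0 ≤ K α β := R4_K_nonneg i j
  obtain ⟨Q, hQ⟩ : ∃ Q : ZMod (2 ^ k) × ZMod (2 ^ k) → ℝ, ∀ p, Q p =
      ∑ f ∈ prps d k q, Real.exp (∑ p' ∈ evp k, ∑ τ ∈ pl i j, EY i j τ (Y p) f p') := ⟨_, fun _ => rfl⟩
  rw [prod_congr rfl fun p _ => (hQ p).symm]
  have hZh : ∀ p, Zh k (fun α β => K α β * Real.exp (Y p α β)) = Q p := fun p => by
    rw [hQ, hK, R4_Zh hk i j hij]
  have hZt : ∀ p, Zh k (fun α β => K α β * Real.exp (Y p β α)) = Q p := fun p => by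
    rw [← hZh, ← Zh_tr k hk fun α β => K α β * Real.exp (Y p α β)]
    congr 1
    funext α β
    rw [hK, R4_K_symm]
  have hZ0 : Zh k (fun α β : Yf i j k → Fin q => K α β * Real.exp 0) = ZZ d k q := R4_Zh0 hk i j hij
  have hX : (Fintype.card (Yf i j k → Fin q) : ℝ) = (q : ℝ) ^ Fintype.card (Yf i j k) := by
    rw [Fintype.card_fun, Fintype.card_fin, Nat.cast_pow]
  -- the inequality for given exponents
  have main : ∀ a b : ZMod (2 ^ k) → ZMod (2 ^ k) → (Yf i j k → Fin q) → (Yf i j k → Fin q) → ℝ,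
      (∀ f ∈ prps d k q, ∑ p : ZMod (2 ^ k) × ZMod (2 ^ k),
        (a p.1 p.2 (fat i j f p.1 p.2) (fat i j f (p.1 + 1) p.2) +
          b p.1 p.2 (fat i j f p.1 p.2) (fat i j f p.1 (p.2 + 1))) = ∑ p ∈ evp k, EY i j σ (Y p) f p) →
      (∏ p : ZMod (2 ^ k) × ZMod (2 ^ k), Zh k (fun α β => K α β * Real.exp (a p.1 p.2 α β))) *
        (∏ p : ZMod (2 ^ k) × ZMod (2 ^ k), Zh k (fun α β => K α β * Real.exp (b p.1 p.2 α β))) =
        ZZ d k q ^ (2 * (2 ^ k) ^ 2 - (evp k).card) * ∏ p ∈ evp k, Q p →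
      (∑ f ∈ prps d k q, Real.exp (∑ p ∈ evp k, EY i j σ (Y p) f p)) ^ (2 * (2 ^ k) ^ 2) ≤
        ((q : ℝ) ^ Fintype.card (Yf i j k)) ^ ((2 ^ k) ^ 3) * ZZ d k q ^ (2 * (2 ^ k) ^ 2 - (evp k).card) *
          ∏ p ∈ evp k, Q p := by
    intro a b h1 h2
    have h3 := two_dim k hk (fun x y α β => K α β * Real.exp (a x y α β))
      (fun x y α β => K α β * Real.exp (b x y α β))
      (fun x y α β => mul_nonneg (hK0 _ _) (Real.exp_nonneg _))
      (fun x y α β => mul_nonneg (hK0 _ _) (Real.exp_nonneg _))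
    rw [hK, R4_Zg i j hij a b, ← hK, sum_congr rfl fun f hf => by rw [h1 f hf], hX] at h3
    refine h3.trans (le_of_eq ?_)
    rw [mul_assoc, ← h2, ← prod_mul_distrib, Fintype.prod_prod_type]
  have hfin := R4_fin (k := k) (ZZ d k q) Q
  have hpl : σ = (i, true) ∨ σ = (i, false) ∨ σ = (j, true) ∨ σ = (j, false) := by
    obtain ⟨l, b⟩ := σ
    unfold pl at hσ
    rw [mem_filter] at hσ
    rcases hσ.2 with h | h <;> simp only at h <;> subst h <;> cases b <;> simp
  rcases hpl with rfl | rfl | rfl | rfl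
  · refine main (fun x y α β => if Even (x.val + y.val) then Y (x, y) α β else 0) (fun _ _ _ _ => 0) ?_ ?_
    · intro f _
      rw [← R4_ev]
      refine sum_congr rfl fun p _ => ?_
      unfold EY
      rw [R4_plx_t, R4_plx_o j i hij.symm, add_zero]
    · rw [← hfin]
      congr 1
      · refine prod_congr rfl fun p _ => ?_
        by_cases h : Even (p.1.val + p.2.val)
        · simp only [if_pos h]
          exact hZh p
        · simp only [if_neg h]
          exact hZ0
      · exact prod_congr rfl fun p _ => hZ0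
  · refine main (fun x y α β => if Even (x.val + y.val) then 0 else Y (x + 1, y) β α) (fun _ _ _ _ => 0) ?_ ?_
    · intro f _
      rw [← R4_od1 hk]
      refine sum_congr rfl fun p _ => ?_
      unfold EY
      rw [R4_plx_f, R4_plx_o j i hij.symm, add_zero]
      dsimp only
      rw [add_sub_cancel_right]
    · rw [← hfin, ← R4_sh1 (fun p => if Even (p.1.val + p.2.val) then Q p else ZZ d k q)]
      congr 1
      · refine prod_congr rfl fun p _ => ?_
        by_cases h : Even (p.1.val + p.2.val)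
        · simp only [if_pos h]
          rw [if_neg (by rw [R4_par hk]; exact not_not.2 h)]
          exact hZ0
        · simp only [if_neg h]
          rw [if_pos ((R4_par hk _ _).2 h)]
          exact hZt _
      · exact prod_congr rfl fun p _ => hZ0
  · refine main (fun _ _ _ _ => 0) (fun x y α β => if Even (x.val + y.val) then Y (x, y) α β else 0) ?_ ?_
    · intro f _
      rw [← R4_ev]
      refine sum_congr rfl fun p _ => ?_
      unfold EY
      rw [R4_plx_t, R4_plx_o i j hij, zero_add]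
    · rw [← hfin, mul_comm]
      congr 1
      · refine prod_congr rfl fun p _ => ?_
        by_cases h : Even (p.1.val + p.2.val)
        · simp only [if_pos h]
          exact hZh p
        · simp only [if_neg h]
          exact hZ0
      · exact prod_congr rfl fun p _ => hZ0
  · refine main (fun _ _ _ _ => 0) (fun x y α β => if Even (x.val + y.val) then 0 else Y (x, y + 1) β α) ?_ ?_
    · intro f _
      rw [← R4_od2 hk]
      refine sum_congr rfl fun p _ => ?_
      unfold EY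
      rw [R4_plx_f, R4_plx_o i j hij, zero_add]
      dsimp only
      rw [add_sub_cancel_right]
    · rw [← hfin, ← R4_sh2 (fun p => if Even (p.1.val + p.2.val) then Q p else ZZ d k q), mul_comm]
      congr 1
      · refine prod_congr rfl fun p _ => ?_
        by_cases h : Even (p.1.val + p.2.val)
        · simp only [if_pos h]
          rw [if_neg (by rw [R4_par' hk]; exact not_not.2 h)]
          exact hZ0
        · simp only [if_neg h]
          rw [if_pos ((R4_par' hk _ _).2 h)]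
          exact hZt _
      · exact prod_congr rfl fun p _ => hZ0

end Pool.Agent.THR

end

/-! ### from `Lib_MP_2c424f_thr.R5` -/

section

/-!
# THR R5: exponential moments of `∑ w TF` (paper proof: R6, first half)

`fat_chess` with `Y p α β = l ∑_{u : Yf, stt p u ∈ cls b} w (stt p u) (VF(ext α) u ((1/q) sg β u + aF(ext α) u/(4q) sg α u))`, where
`ext α x = α (x with the coordinates i, j set to 0)`; by `VF_fat` (and `VF_transl`, or directly) the weights at `stt i j p.1 p.2 u` of a colouring `f` with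
fat spin `α` at `p` are those of `ext α`.  Then `EY i j σ (Y p) f p = l ∑_{u over p} w_u TF_u`, and
`∑_{τ ∈ pl} EY i j τ (Y p) f p' = l ∑_{v over p', v ∈ cls b} w (stt p v) GF_v` (`TF_sum`).
A site `v` over an even position `p'` and the site `stt i j p.1 p.2 v` over the even position `p` are in the same class.
-/

set_option autoImplicit false

open Finset Filter

namespace Pool.Agent.THR

open Pool.Agent.LO Pool.Agent.LIN

variable {d k q : ℕ}

/-! ## Coordinates -/

private theorem R5_stt_i (i j : Fin d) (hij : i ≠ j) (x y : ZMod (2 ^ k)) (u : Site d k) :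
    stt i j x y u i = x := by
  unfold stt
  rw [Function.update_of_ne hij, Function.update_self]

private theorem R5_stt_j (i j : Fin d) (x y : ZMod (2 ^ k)) (u : Site d k) :
    stt i j x y u j = y := by
  unfold stt
  rw [Function.update_self]

private theorem R5_stt_l (i j l : Fin d) (hi : l ≠ i) (hj : l ≠ j) (x y : ZMod (2 ^ k))
    (u : Site d k) : stt i j x y u l = u l := by
  unfold stt
  rw [Function.update_of_ne hj, Function.update_of_ne hi]

private theorem R5_stt_stt (i j : Fin d) (hij : i ≠ j) (x y x' y' : ZMod (2 ^ k)) (u : Site d k) :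
    stt i j x y (stt i j x' y' u) = stt i j x y u := by
  funext l
  by_cases hj : l = j
  · subst hj; rw [R5_stt_j, R5_stt_j]
  · by_cases hi : l = i
    · subst hi; rw [R5_stt_i l j hij, R5_stt_i l j hij]
    · rw [R5_stt_l i j l hi hj, R5_stt_l i j l hi hj, R5_stt_l i j l hi hj]

/-- the bijection -/
private def R5_e (i j : Fin d) (hij : i ≠ j) :
    (ZMod (2 ^ k) × ZMod (2 ^ k)) × Yf i j k ≃ Site d k where
  toFun q := stt i j q.1.1 q.1.2 q.2.1
  invFun s := ((s i, s j), ⟨stt i j 0 0 s, R5_stt_i i j hij 0 0 s, R5_stt_j i j 0 0 s⟩)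
  left_inv := by
    rintro ⟨⟨x, y⟩, ⟨u, hu1, hu2⟩⟩
    refine Prod.ext (Prod.ext ?_ ?_) (Subtype.ext ?_)
    · exact R5_stt_i i j hij x y u
    · exact R5_stt_j i j x y u
    · funext l
      change stt i j 0 0 (stt i j x y u) l = u l
      by_cases hj : l = j
      · subst hj; rw [R5_stt_j, hu2]
      · by_cases hi : l = i
        · subst hi; rw [R5_stt_i l j hij, hu1]
        · rw [R5_stt_l i j l hi hj, R5_stt_l i j l hi hj]
  right_inv := by
    intro s
    funext l
    change stt i j (s i) (s j) (stt i j 0 0 s) l = s l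
    by_cases hj : l = j
    · subst hj; rw [R5_stt_j]
    · by_cases hi : l = i
      · subst hi; rw [R5_stt_i l j hij]
      · rw [R5_stt_l i j l hi hj, R5_stt_l i j l hi hj]

/-- parity of a site over an even plane position -/
private theorem R5_evn (i j : Fin d) (hij : i ≠ j) (p : ZMod (2 ^ k) × ZMod (2 ^ k)) (u : Site d k)
    (hp : Even (p.1.val + p.2.val)) :
    evn (stt i j p.1 p.2 u) ↔ Even (∑ l ∈ (univ.erase i).erase j, (u l).val) := by
  classical
  have hj : j ∈ univ.erase i := mem_erase.2 ⟨hij.symm, mem_univ j⟩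
  have h : ∑ l, (stt i j p.1 p.2 u l).val =
      (p.1.val + p.2.val) + ∑ l ∈ (univ.erase i).erase j, (u l).val := by
    rw [← add_sum_erase univ _ (mem_univ i), ← add_sum_erase _ _ hj, ← add_assoc]
    congr 1
    · rw [R5_stt_i i j hij, R5_stt_j]
    · refine sum_congr rfl fun l hl => ?_
      rw [mem_erase, mem_erase] at hl
      rw [R5_stt_l i j l hl.2.1 hl.1]
  unfold evn
  rw [h, Nat.even_add]
  exact ⟨fun h => h.1 hp, fun h => ⟨fun _ => h, fun _ => hp⟩⟩

private theorem R5_cls (i j : Fin d) (hij : i ≠ j) (b : Bool) (p p' : ZMod (2 ^ k) × ZMod (2 ^ k))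
    (u : Site d k) (hp : p ∈ evp k) (hp' : p' ∈ evp k) :
    stt i j p.1 p.2 u ∈ cls b d k ↔ stt i j p'.1 p'.2 u ∈ cls b d k := by
  classical
  unfold evp at hp hp'
  rw [mem_filter] at hp hp'
  have h : evn (stt i j p.1 p.2 u) ↔ evn (stt i j p'.1 p'.2 u) := by
    rw [R5_evn i j hij p u hp.2, R5_evn i j hij p' u hp'.2]
  unfold cls
  cases b
  · simp only [Bool.false_eq_true, if_false, ods, mem_filter, mem_univ, true_and]
    rw [h]
  · simp only [if_true, evs, mem_filter, mem_univ, true_and]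
    exact h

open scoped Classical in
/-- sums over the even positions -/
private theorem R5_sum (i j : Fin d) (hij : i ≠ j) (b : Bool) (F : Site d k → ℝ) :
    ∑ v ∈ cls b d k, (if pev i j v then F v else 0) =
      ∑ p ∈ evp k, ∑ u : Yf i j k,
        if stt i j p.1 p.2 u.1 ∈ cls b d k then F (stt i j p.1 p.2 u.1) else 0 := by
  have h1 : ∑ v ∈ cls b d k, (if pev i j v then F v else 0) =
      ∑ v : Site d k, if v ∈ cls b d k then (if pev i j v then F v else 0) else 0 := by
    rw [sum_ite_mem, univ_inter]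
  rw [h1, ← (R5_e (k := k) i j hij).sum_comp, Fintype.sum_prod_type]
  unfold evp
  rw [sum_filter]
  refine sum_congr rfl fun p _ => ?_
  by_cases hp : Even (p.1.val + p.2.val)
  · rw [if_pos hp]
    refine sum_congr rfl fun u _ => ?_
    change (if stt i j p.1 p.2 u.1 ∈ cls b d k then
      (if pev i j (stt i j p.1 p.2 u.1) then F (stt i j p.1 p.2 u.1) else 0) else 0) = _
    have hpe : pev i j (stt i j p.1 p.2 u.1) := by
      unfold pev
      rw [R5_stt_i i j hij, R5_stt_j]
      exact hp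
    rw [if_pos hpe]
  · rw [if_neg hp]
    refine sum_eq_zero fun u _ => ?_
    change (if stt i j p.1 p.2 u.1 ∈ cls b d k then
      (if pev i j (stt i j p.1 p.2 u.1) then F (stt i j p.1 p.2 u.1) else 0) else 0) = _
    have hpe : ¬ pev i j (stt i j p.1 p.2 u.1) := by
      unfold pev
      rw [R5_stt_i i j hij, R5_stt_j]
      exact hp
    rw [if_neg hpe, ite_self]

private theorem R5_card (hk : 1 ≤ k) : ((evp k).card : ℝ) = (2 ^ k) ^ 2 / 2 := by
  classical
  have h1 : ∑ p : ZMod (2 ^ k) × ZMod (2 ^ k), (if Even (p.1.val + p.2.val) then (1 : ℝ) else 0) =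
      (evp k).card := by
    unfold evp
    rw [sum_ite, sum_const_zero, add_zero, sum_const, nsmul_eq_mul, mul_one]
  have h2 : ∑ p : ZMod (2 ^ k) × ZMod (2 ^ k), (if Even (p.1.val + p.2.val) then (1 : ℝ) else 0) =
      ∑ p : ZMod (2 ^ k) × ZMod (2 ^ k), (if Even (p.1.val + p.2.val) then (0 : ℝ) else 1) := by
    rw [← ((Equiv.addRight (1 : ZMod (2 ^ k))).prodCongr (Equiv.refl _)).sum_comp
      (fun p : ZMod (2 ^ k) × ZMod (2 ^ k) => if Even (p.1.val + p.2.val) then (1 : ℝ) else 0)]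
    refine sum_congr rfl fun p _ => ?_
    change (if Even ((p.1 + 1).val + p.2.val) then (1 : ℝ) else 0) = _
    have h3 : Even ((p.1 + 1).val + p.2.val) ↔ ¬ Even (p.1.val + p.2.val) := by
      rw [Nat.even_add, Nat.even_add, E7_even hk]
      tauto
    by_cases h : Even (p.1.val + p.2.val)
    · rw [if_neg (fun h' => (h3.1 h') h), if_pos h]
    · rw [if_pos (h3.2 h), if_neg h]
  have h4 : ∑ p : ZMod (2 ^ k) × ZMod (2 ^ k), (if Even (p.1.val + p.2.val) then (1 : ℝ) else 0) +
      ∑ p : ZMod (2 ^ k) × ZMod (2 ^ k), (if Even (p.1.val + p.2.val) then (0 : ℝ) else 1) =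
      (2 ^ k) ^ 2 := by
    rw [← sum_add_distrib]
    have h5 : ∀ p : ZMod (2 ^ k) × ZMod (2 ^ k), (if Even (p.1.val + p.2.val) then (1 : ℝ) else 0) +
        (if Even (p.1.val + p.2.val) then (0 : ℝ) else 1) = 1 := by
      intro p
      split_ifs <;> norm_num
    rw [sum_congr rfl fun p _ => h5 p, sum_const, card_univ, Fintype.card_prod, ZMod.card]
    simp
    ring
  rw [← h2, h1] at h4
  linarith

/-! ## Weights -/

open scoped Classical in
/-- the weights over the plane position `p`, copied to all even plane positions -/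
noncomputable def wP (i j : Fin d) (w : Site d k → ℝ) (p : ZMod (2 ^ k) × ZMod (2 ^ k)) (v : Site d k) : ℝ :=
  if pev i j v then w (stt i j p.1 p.2 v) else 0

/-- total weights -/
theorem wP_sum (hk : 1 ≤ k) (i j : Fin d) (hij : i ≠ j) (b : Bool) (w : Site d k → ℝ)
    (hw : ∀ x, ¬ pev i j x → w x = 0) :
    ∑ p ∈ evp k, Wt b (wP i j w p) = (2 ^ k) ^ 2 / 2 * Wt b w ∧ ((evp k).card : ℝ) = (2 ^ k) ^ 2 / 2 := by
  classical
  refine ⟨?_, R5_card hk⟩
  have h1 : Wt b w = ∑ p ∈ evp k, ∑ u : Yf i j k,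
        if stt i j p.1 p.2 u.1 ∈ cls b d k then |w (stt i j p.1 p.2 u.1)| else 0 := by
    rw [← R5_sum i j hij b (fun v => |w v|)]
    unfold Wt
    refine sum_congr rfl fun v _ => ?_
    by_cases hv : pev i j v
    · rw [if_pos hv]
    · rw [if_neg hv, hw v hv, abs_zero]
  have h2 : ∀ p ∈ evp k, Wt b (wP i j w p) = ((evp k).card : ℝ) * ∑ u : Yf i j k,
        if stt i j p.1 p.2 u.1 ∈ cls b d k then |w (stt i j p.1 p.2 u.1)| else 0 := by
    intro p hp
    have h3 : Wt b (wP i j w p) =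
        ∑ v ∈ cls b d k, (if pev i j v then |w (stt i j p.1 p.2 v)| else 0) := by
      unfold Wt wP
      refine sum_congr rfl fun v _ => ?_
      by_cases hv : pev i j v
      · rw [if_pos hv, if_pos hv]
      · rw [if_neg hv, if_neg hv, abs_zero]
    rw [h3, R5_sum i j hij b (fun v => |w (stt i j p.1 p.2 v)|)]
    rw [← nsmul_eq_mul, ← sum_const]
    refine sum_congr rfl fun p' hp' => sum_congr rfl fun u _ => ?_
    rw [R5_stt_stt i j hij]
    by_cases h : stt i j p.1 p.2 u.1 ∈ cls b d k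
    · rw [if_pos h, if_pos ((R5_cls i j hij b p p' u.1 hp hp').1 h)]
    · rw [if_neg h, if_neg (fun h' => h ((R5_cls i j hij b p p' u.1 hp hp').2 h'))]
  rw [sum_congr rfl h2, ← mul_sum, ← h1, R5_card hk]

/-! ## Kernels -/

/-- a fat spin, copied to all plane positions -/
private def R5_ext (i j : Fin d) (hij : i ≠ j) (α : Yf i j k → Fin q) (x : Site d k) : Fin q :=
  α ⟨stt i j 0 0 x, R5_stt_i i j hij 0 0 x, R5_stt_j i j 0 0 x⟩

open scoped Classical in
private noncomputable def R5_Y (ε l : ℝ) (i j : Fin d) (hij : i ≠ j) (c c' : Fin q) (b : Bool)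
    (w : Site d k → ℝ) (p : ZMod (2 ^ k) × ZMod (2 ^ k)) (α β : Yf i j k → Fin q) : ℝ :=
  l * ∑ u : Yf i j k, if stt i j p.1 p.2 u.1 ∈ cls b d k then
    w (stt i j p.1 p.2 u.1) * (VF ε i j c c' (R5_ext i j hij α) u.1 *
      (1 / q * sg c c' (R5_ext i j hij β) u.1 +
        (aF i j (R5_ext i j hij α) u.1 : ℝ) / (4 * q) * sg c c' (R5_ext i j hij α) u.1)) else 0

private theorem R5_ext_fat (i j : Fin d) (hij : i ≠ j) (f : Site d k → Fin q) (x y : ZMod (2 ^ k))
    (v : Site d k) : R5_ext i j hij (fat i j f x y) v = f (stt i j x y v) := by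
  unfold R5_ext fat
  rw [R5_stt_stt i j hij]

private theorem R5_add (i j : Fin d) (hij : i ≠ j) (x y : ZMod (2 ^ k)) (v : Site d k)
    (h1 : v i = 0) (h2 : v j = 0) : v + stt i j x y 0 = stt i j x y v := by
  funext l
  rw [Pi.add_apply]
  by_cases hj : l = j
  · subst hj; rw [R5_stt_j, R5_stt_j, h2, zero_add]
  · by_cases hi : l = i
    · subst hi; rw [R5_stt_i l j hij, R5_stt_i l j hij, h1, zero_add]
    · rw [R5_stt_l i j l hi hj, R5_stt_l i j l hi hj, Pi.zero_apply, add_zero]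

/-- the weights of the copied fat spin -/
private theorem R5_VF (ε : ℝ) (i j : Fin d) (hij : i ≠ j) (c c' : Fin q) (f : Site d k → Fin q)
    (x y : ZMod (2 ^ k)) (u : Yf i j k) :
    VF ε i j c c' (R5_ext i j hij (fat i j f x y)) u.1 = VF ε i j c c' f (stt i j x y u.1) ∧
      aF i j (R5_ext i j hij (fat i j f x y)) u.1 = aF i j f (stt i j x y u.1) := by
  have h1 := VF_fat ε i j c c' (R5_ext i j hij (fat i j f x y))
    (fun v => f (v + stt i j x y 0)) u.1 (by
      intro v hv1 hv2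
      rw [R5_ext_fat, R5_add i j hij x y v (by rw [hv1, u.2.1]) (by rw [hv2, u.2.2])])
  have h2 := VF_transl ε i j c c' f u.1 (stt i j x y 0)
  rw [R5_add i j hij x y u.1 u.2.1 u.2.2] at h2
  exact ⟨h1.1.trans h2.1, h1.2.trans h2.2⟩

private theorem R5_sg (i j : Fin d) (hij : i ≠ j) (c c' : Fin q) (f : Site d k → Fin q)
    (x y : ZMod (2 ^ k)) (u : Site d k) :
    sg c c' (R5_ext i j hij (fat i j f x y)) u = sg c c' f (stt i j x y u) := by
  unfold sg
  rw [R5_ext_fat]

private theorem R5_step (i j : Fin d) (hij : i ≠ j) (σ : Stp d) (hσ : σ ∈ pl i j)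
    (x y : ZMod (2 ^ k)) (u : Site d k) :
    stt i j (plx i σ x) (plx j σ y) u = stt i j x y u + sv σ := by
  unfold pl at hσ
  rw [mem_filter] at hσ
  funext l
  rw [Pi.add_apply]
  unfold plx
  by_cases hj : l = j
  · subst hj; rw [R5_stt_j, R5_stt_j]
  · by_cases hi : l = i
    · subst hi; rw [R5_stt_i l j hij, R5_stt_i l j hij]
    · rw [R5_stt_l i j l hi hj, R5_stt_l i j l hi hj]
      have h : (sv σ : Site d k) l = 0 := by
        unfold sv
        rw [Pi.single_eq_of_ne]
        rcases hσ.2 with h | h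
        · rw [h]; exact hi
        · rw [h]; exact hj
      rw [h, add_zero]

open scoped Classical in
/-- the kernel at the position `p'` -/
private theorem R5_EY (ε l : ℝ) (i j : Fin d) (hij : i ≠ j) (c c' : Fin q) (b : Bool)
    (w : Site d k → ℝ) (p p' : ZMod (2 ^ k) × ZMod (2 ^ k)) (σ : Stp d) (hσ : σ ∈ pl i j)
    (f : Site d k → Fin q) :
    EY i j σ (R5_Y ε l i j hij c c' b w p) f p' =
      l * ∑ u : Yf i j k, if stt i j p.1 p.2 u.1 ∈ cls b d k then
        w (stt i j p.1 p.2 u.1) * TF ε i j c c' σ f (stt i j p'.1 p'.2 u.1) else 0 := by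
  unfold EY R5_Y TF
  congr 1
  refine sum_congr rfl fun u _ => ?_
  rw [(R5_VF ε i j hij c c' f p'.1 p'.2 u).1, (R5_VF ε i j hij c c' f p'.1 p'.2 u).2,
    R5_sg i j hij, R5_sg i j hij, R5_step i j hij σ hσ]

theorem TF_moment (hk : 1 ≤ k) (ε l : ℝ) (i j : Fin d) (hij : i ≠ j) (c c' : Fin q) (b : Bool) (w : Site d k → ℝ)
    (hw : ∀ x, ¬ pev i j x → w x = 0) (σ : Stp d) (hσ : σ ∈ pl i j) :
    (∑ f ∈ prps d k q, Real.exp (l * ∑ u ∈ cls b d k, w u * TF ε i j c c' σ f u)) ^ (2 * (2 ^ k) ^ 2) ≤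
      ((q : ℝ) ^ Fintype.card (Yf i j k)) ^ ((2 ^ k) ^ 3) * ZZ d k q ^ (2 * (2 ^ k) ^ 2 - (evp k).card) *
        ∏ p ∈ evp k, ∑ f ∈ prps d k q, Real.exp (l * ∑ v ∈ cls b d k, wP i j w p v * GF ε i j c c' f v) := by
  classical
  have h := fat_chess (q := q) hk i j hij σ hσ (R5_Y ε l i j hij c c' b w)
  have h1 : ∀ f : Site d k → Fin q,
      ∑ p ∈ evp k, EY i j σ (R5_Y ε l i j hij c c' b w p) f p =
        l * ∑ u ∈ cls b d k, w u * TF ε i j c c' σ f u := by
    intro f
    have h2 : ∑ u ∈ cls b d k, w u * TF ε i j c c' σ f u =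
        ∑ u ∈ cls b d k, (if pev i j u then w u * TF ε i j c c' σ f u else 0) := by
      refine sum_congr rfl fun u _ => ?_
      by_cases hu : pev i j u
      · rw [if_pos hu]
      · rw [if_neg hu, hw u hu, zero_mul]
    rw [h2, R5_sum i j hij b (fun u => w u * TF ε i j c c' σ f u), mul_sum]
    exact sum_congr rfl fun p _ => R5_EY ε l i j hij c c' b w p p σ hσ f
  have h3 : ∀ p ∈ evp k, ∀ f : Site d k → Fin q,
      ∑ p' ∈ evp k, ∑ τ ∈ pl i j, EY i j τ (R5_Y ε l i j hij c c' b w p) f p' =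
        l * ∑ v ∈ cls b d k, wP i j w p v * GF ε i j c c' f v := by
    intro p hp f
    have h4 : ∑ v ∈ cls b d k, wP i j w p v * GF ε i j c c' f v =
        ∑ v ∈ cls b d k, (if pev i j v then w (stt i j p.1 p.2 v) * GF ε i j c c' f v else 0) := by
      refine sum_congr rfl fun v _ => ?_
      unfold wP
      by_cases hv : pev i j v
      · rw [if_pos hv, if_pos hv]
      · rw [if_neg hv, if_neg hv, zero_mul]
    rw [h4, R5_sum i j hij b (fun v => w (stt i j p.1 p.2 v) * GF ε i j c c' f v), mul_sum]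
    refine sum_congr rfl fun p' hp' => ?_
    rw [sum_congr rfl fun τ hτ => R5_EY ε l i j hij c c' b w p p' τ hτ f, ← mul_sum, sum_comm]
    congr 1
    refine sum_congr rfl fun u _ => ?_
    rw [R5_stt_stt i j hij]
    by_cases h : stt i j p.1 p.2 u.1 ∈ cls b d k
    · rw [if_pos ((R5_cls i j hij b p p' u.1 hp hp').1 h)]
      rw [sum_congr rfl fun τ _ => if_pos h, ← mul_sum, TF_sum ε i j hij]
    · rw [if_neg (fun h' => h ((R5_cls i j hij b p p' u.1 hp hp').2 h'))]
      exact sum_eq_zero fun τ _ => if_neg h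
  rw [sum_congr rfl fun f _ => by rw [h1 f]] at h
  rw [prod_congr rfl fun p hp => sum_congr rfl fun f _ => by rw [h3 p hp f]] at h
  exact h

end Pool.Agent.THR

end

/-! ### from `Lib_MP_2c424f_lc3.T07` -/

section

/-!
# Part III, T07: the two ports of a chain

`T = l.toFinset`, `|T| = |l|`.  Let `s`, `t` be the first and the last vertex of `l`.  `Ech D ω l` implies `gen D ω l ∧ s1 D (ω s) ∧ s2 D (ω t)`.
Stability: `gen D ω l` implies `gen D (sw1 i c ω) l` for `i ∈ A \ B`, `c ∈ B` not the first colour of a vertex of `l`: `X0_sw1`; in `gc` on `l` the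
common colour is not in `A \ B`, so it is not `i`; it is the first colour of a vertex of `l`, so it is not `c`: fixed by the exchange.  The same for
`sw2 i c`, `c ∉ A`.  `s1 D (ω s)` is stable under `sw1 i c`, `sw2 i c` with `i ∈ J2` (`J1`, `J2` disjoint, `c ∉ J1`; the colour in `J1` is
not `i` and not `c`).  Now `port1`, `port2`, first at `t` with `J' = J2`, `E ω = gen D ω l ∧ s1 D (ω s)`, then at `s` with `J' = J1`, `E ω = gen D ω l`
(`s2` is a disjunction: two cases; the same for `s1`; `|Aᶜ| = |B|`).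
-/

set_option autoImplicit false

open Finset Filter

namespace Pool.Agent.LC3

open Pool.Agent.LO Pool.Agent.LIN Pool.Agent.THR Pool.Agent.COR Pool.Agent.LC

section
variable {V : Type} [Fintype V] [DecidableEq V] {d q j : ℕ}

private theorem T07_gen1 (D : Bal V d q j) {l : List V} {ω : V → Fin q × Fin q} {i c : Fin q} (hi : i ∈ D.A \ D.B)
    (hc : c ∈ D.B) (hl : ∀ t ∈ l, (ω t).1 ≠ c) (h : gen D ω l) : gen D (sw1 i c ω) l := by
  obtain ⟨h1, h2⟩ := h
  have hiA : i ∈ D.A := (mem_sdiff.1 hi).1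
  have hcA : c ∈ D.A := D.sub hc
  refine ⟨fun s hs => ?_, h2.imp_of_mem_imp ?_⟩
  · rw [X0_sw1 D (iff_of_true hiA hcA)]
    exact h1 s hs
  · intro a b ha hb hab
    obtain ⟨h3, h4⟩ := hab
    refine ⟨h3, ?_⟩
    rcases h4 with ⟨h5, h6⟩ | ⟨h5, h6⟩
    · left
      have h7 : Equiv.swap i c (ω a).1 = (ω a).1 :=
        Equiv.swap_apply_of_ne_of_ne (fun h => h6 (by rw [h]; exact hi)) (hl a ha)
      change Equiv.swap i c (ω a).1 = (ω b).2 ∧ Equiv.swap i c (ω a).1 ∉ D.A \ D.B
      rw [h7]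
      exact ⟨h5, h6⟩
    · right
      have h7 : Equiv.swap i c (ω b).1 = (ω b).1 :=
        Equiv.swap_apply_of_ne_of_ne (fun h => h6 (by rw [h5, h]; exact hi)) (hl b hb)
      change (ω a).2 = Equiv.swap i c (ω b).1 ∧ (ω a).2 ∉ D.A \ D.B
      rw [h7]
      exact ⟨h5, h6⟩

private theorem T07_gen2 (D : Bal V d q j) {l : List V} {ω : V → Fin q × Fin q} {i c : Fin q} (hi : i ∈ D.A \ D.B)
    (hc : c ∉ D.A) (hl : ∀ t ∈ l, (ω t).2 ≠ c) (h : gen D ω l) : gen D (sw2 i c ω) l := by
  obtain ⟨h1, h2⟩ := h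
  have hiB : i ∉ D.B := (mem_sdiff.1 hi).2
  have hcB : c ∉ D.B := fun h => hc (D.sub h)
  refine ⟨fun s hs => ?_, h2.imp_of_mem_imp ?_⟩
  · rw [X0_sw2 D (iff_of_false hiB hcB)]
    exact h1 s hs
  · intro a b ha hb hab
    obtain ⟨h3, h4⟩ := hab
    refine ⟨h3, ?_⟩
    rcases h4 with ⟨h5, h6⟩ | ⟨h5, h6⟩
    · left
      have h7 : Equiv.swap i c (ω b).2 = (ω b).2 :=
        Equiv.swap_apply_of_ne_of_ne (fun h => h6 (by rw [h5, h]; exact hi)) (hl b hb)
      change (ω a).1 = Equiv.swap i c (ω b).2 ∧ (ω a).1 ∉ D.A \ D.B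
      rw [h7]
      exact ⟨h5, h6⟩
    · right
      have h7 : Equiv.swap i c (ω a).2 = (ω a).2 :=
        Equiv.swap_apply_of_ne_of_ne (fun h => h6 (by rw [h]; exact hi)) (hl a ha)
      change Equiv.swap i c (ω a).2 = (ω b).1 ∧ Equiv.swap i c (ω a).2 ∉ D.A \ D.B
      rw [h7]
      exact ⟨h5, h6⟩

private theorem T07_J (D : Bal V d q j) : D.J1 ⊆ D.A \ D.B ∧ D.J2 ⊆ D.A \ D.B := by
  rw [D.un]
  exact ⟨subset_union_left, subset_union_right⟩

private theorem T07_s1 (D : Bal V d q j) {s : V} {ω : V → Fin q × Fin q} {i c : Fin q} (hi : i ∈ D.J2)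
    (h : s1 D (ω s)) : (c ∈ D.B → s1 D (sw1 i c ω s)) ∧ (c ∉ D.A → s1 D (sw2 i c ω s)) := by
  have hJ := (T07_J D).1
  have hd : ∀ x, x ∈ D.J1 → x ≠ i := by
    intro x hx h1
    exact (Finset.disjoint_left.1 D.dis hx) (by rw [h1]; exact hi)
  constructor
  · intro hc
    rcases h with h1 | h1
    · left
      have h7 : Equiv.swap i c (ω s).1 = (ω s).1 :=
        Equiv.swap_apply_of_ne_of_ne (hd _ h1) (fun h => (mem_sdiff.1 (hJ h1)).2 (by rw [h]; exact hc))
      change Equiv.swap i c (ω s).1 ∈ D.J1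
      rw [h7]
      exact h1
    · right
      exact h1
  · intro hc
    rcases h with h1 | h1
    · left
      exact h1
    · right
      have h7 : Equiv.swap i c (ω s).2 = (ω s).2 :=
        Equiv.swap_apply_of_ne_of_ne (hd _ h1) (fun h => hc (by rw [← h]; exact (mem_sdiff.1 (hJ h1)).1))
      change Equiv.swap i c (ω s).2 ∈ D.J1
      rw [h7]
      exact h1

/-- generic, and a colour of `J1` at `s` -/
private def T07_E (D : Bal V d q j) (l : List V) (s : V) (ω : V → Fin q × Fin q) : Prop := gen D ω l ∧ s1 D (ω s)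

open scoped Classical in
/-- both colourings at one port -/
private theorem T07_port (D : Bal V d q j) (J' : Finset (Fin q)) (hJ : J' ⊆ D.A \ D.B) (hj : J'.card = j)
    (E : (V → Fin q × Fin q) → Prop) (l : List V) (hl : l.Nodup) (hB : l.length ≤ D.B.card) (s : V) (hs : s ∈ l)
    (hE1 : ∀ ω, E ω → (ω s).1 ∈ J' → ∀ c ∈ D.B, (∀ t ∈ l, (ω t).1 ≠ c) → E (sw1 (ω s).1 c ω))
    (hE2 : ∀ ω, E ω → (ω s).2 ∈ J' → ∀ c, c ∉ D.A → (∀ t ∈ l, (ω t).2 ≠ c) → E (sw2 (ω s).2 c ω)) :
    (((OM D).filter fun ω => E ω ∧ ((ω s).1 ∈ J' ∨ (ω s).2 ∈ J')).card : ℝ) * ((D.B.card : ℝ) - l.length) ≤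
      2 * (j : ℝ) * (((OM D).filter fun ω => E ω).card : ℝ) := by
  have hT : l.toFinset.card = l.length := List.toFinset_card_of_nodup hl
  have hm : ∀ t, t ∈ l.toFinset ↔ t ∈ l := fun t => List.mem_toFinset
  have h1 := port1 D J' hJ E l.toFinset s ((hm s).2 hs)
    (fun ω h2 h3 c hc h4 => hE1 ω h2 h3 c hc fun t ht => h4 t ((hm t).2 ht))
  have h2 := port2 D J' hJ E l.toFinset s ((hm s).2 hs)
    (fun ω h2 h3 c hc h4 => hE2 ω h2 h3 c hc fun t ht => h4 t ((hm t).2 ht))
  rw [hT, hj] at h1 h2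
  rw [card_Ac] at h2
  have hx : (0 : ℝ) ≤ (D.B.card : ℝ) - l.length := by
    have : (l.length : ℝ) ≤ D.B.card := by exact_mod_cast hB
    linarith
  have hj0 : (0 : ℝ) ≤ j := Nat.cast_nonneg j
  have h3 : (((OM D).filter fun ω => E ω ∧ (ω s).1 ∈ D.B).card : ℝ) ≤ (((OM D).filter fun ω => E ω).card : ℝ) := by
    refine Nat.cast_le.2 (Finset.card_le_card ?_)
    intro ω hω
    simp only [Finset.mem_filter] at hω ⊢
    exact ⟨hω.1, hω.2.1⟩
  have h4 : (((OM D).filter fun ω => E ω ∧ (ω s).2 ∉ D.A).card : ℝ) ≤ (((OM D).filter fun ω => E ω).card : ℝ) := by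
    refine Nat.cast_le.2 (Finset.card_le_card ?_)
    intro ω hω
    simp only [Finset.mem_filter] at hω ⊢
    exact ⟨hω.1, hω.2.1⟩
  have h5 : (((OM D).filter fun ω => E ω ∧ ((ω s).1 ∈ J' ∨ (ω s).2 ∈ J')).card : ℝ) ≤
      (((OM D).filter fun ω => E ω ∧ (ω s).1 ∈ J').card : ℝ) + (((OM D).filter fun ω => E ω ∧ (ω s).2 ∈ J').card : ℝ) := by
    have h6 : ((OM D).filter fun ω => E ω ∧ ((ω s).1 ∈ J' ∨ (ω s).2 ∈ J')) ⊆
        ((OM D).filter fun ω => E ω ∧ (ω s).1 ∈ J') ∪ ((OM D).filter fun ω => E ω ∧ (ω s).2 ∈ J') := by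
      intro ω hω
      simp only [Finset.mem_filter, Finset.mem_union] at hω ⊢
      tauto
    have h7 := (Finset.card_le_card h6).trans (Finset.card_union_le _ _)
    exact_mod_cast h7
  have h6 := mul_le_mul_of_nonneg_right h5 hx
  have h7 := mul_le_mul_of_nonneg_left h3 hj0
  have h8 := mul_le_mul_of_nonneg_left h4 hj0
  rw [add_mul] at h6
  linarith

open scoped Classical in
theorem chain_count (D : Bal V d q j) (l : List V) (hl : l.Nodup) (hl2 : 2 ≤ l.length) (hB : l.length ≤ D.B.card) :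
    (((OM D).filter fun ω => Ech D ω l).card : ℝ) * ((D.B.card : ℝ) - l.length) ^ 2 ≤
      4 * (j : ℝ) ^ 2 * (((OM D).filter fun ω => gen D ω l).card : ℝ) := by
  have hne : l ≠ [] := by
    rintro rfl
    simp at hl2
  have hx : (0 : ℝ) ≤ (D.B.card : ℝ) - l.length := by
    have : (l.length : ℝ) ≤ D.B.card := by exact_mod_cast hB
    linarith
  have hj0 : (0 : ℝ) ≤ j := Nat.cast_nonneg j
  obtain ⟨hJ1, hJ2⟩ := T07_J D
  have h1 := T07_port D D.J2 hJ2 D.c2 (fun ω => T07_E D l (l.head hne) ω) l hl hB (l.getLast hne)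
    (List.getLast_mem hne)
    (fun ω h2 h3 c hc h4 => ⟨T07_gen1 D (hJ2 h3) hc h4 h2.1, (T07_s1 D h3 h2.2).1 hc⟩)
    (fun ω h2 h3 c hc h4 => ⟨T07_gen2 D (hJ2 h3) hc h4 h2.1, (T07_s1 D h3 h2.2).2 hc⟩)
  have h2 := T07_port D D.J1 hJ1 D.c1 (fun ω => gen D ω l) l hl hB (l.head hne) (List.head_mem hne)
    (fun ω h2 h3 c hc h4 => T07_gen1 D (hJ1 h3) hc h4 h2)
    (fun ω h2 h3 c hc h4 => T07_gen2 D (hJ1 h3) hc h4 h2)
  have h3 : (((OM D).filter fun ω => Ech D ω l).card : ℝ) ≤
      (((OM D).filter fun ω => T07_E D l (l.head hne) ω ∧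
        ((ω (l.getLast hne)).1 ∈ D.J2 ∨ (ω (l.getLast hne)).2 ∈ D.J2)).card : ℝ) := by
    refine Nat.cast_le.2 (Finset.card_le_card ?_)
    intro ω hω
    simp only [Finset.mem_filter] at hω ⊢
    obtain ⟨h4, h5, h6, ⟨s, hs, h7⟩, ⟨t, ht, h8⟩⟩ := hω
    refine ⟨h4, ⟨⟨fun u hu h9 => h5 u hu ?_, h6⟩, ?_⟩, ?_⟩
    · exact Finset.mem_union_left _ h9
    · have h10 : s = l.head hne := by
        rw [List.head?_eq_some_head hne, Option.mem_def, Option.some_inj] at hs
        exact hs.symm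
      rw [← h10]
      exact h7
    · have h10 : t = l.getLast hne := by
        rw [List.getLast?_eq_some_getLast hne, Option.mem_def, Option.some_inj] at ht
        exact ht.symm
      rw [← h10]
      exact h8
  have h4 : (((OM D).filter fun ω => T07_E D l (l.head hne) ω).card : ℝ) ≤
      (((OM D).filter fun ω => gen D ω l ∧ ((ω (l.head hne)).1 ∈ D.J1 ∨ (ω (l.head hne)).2 ∈ D.J1)).card : ℝ) := by
    refine Nat.cast_le.2 (Finset.card_le_card ?_)
    intro ω hω
    simp only [Finset.mem_filter] at hω ⊢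
    exact ⟨hω.1, hω.2.1, hω.2.2⟩
  have h5 := mul_le_mul_of_nonneg_right h3 hx
  have h6 := mul_le_mul_of_nonneg_right h4 hx
  have h7 := mul_le_mul_of_nonneg_right (h5.trans h1) hx
  have h8 := mul_le_mul_of_nonneg_left (h6.trans h2) (by positivity : (0 : ℝ) ≤ 2 * j)
  calc _ = (((OM D).filter fun ω => Ech D ω l).card : ℝ) * ((D.B.card : ℝ) - l.length) * ((D.B.card : ℝ) - l.length) := by
        ring
    _ ≤ _ := h7
    _ = 2 * j * ((((OM D).filter fun ω => T07_E D l (l.head hne) ω).card : ℝ) * ((D.B.card : ℝ) - l.length)) := by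
        ring
    _ ≤ _ := h8
    _ = _ := by ring

end

end Pool.Agent.LC3

end
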