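import Pool.Agent.Lib_MP_2c424f_m.M08
import Pool.Agent.Lib_MP_2c424f_m.M11

/-!
# MP_2c424f_pr, q_c grows linearly: merged library part M12

Concatenation of smaller files (each in its own section), only to save build time.
-/

namespace Pool.Agent.LO
end Pool.Agent.LO

namespace Pool.Agent.LIN
end Pool.Agent.LIN

namespace Pool.Agent.THR
end Pool.Agent.THR

namespace Pool.Agent.COR
end Pool.Agent.COR

namespace Pool.Agent.LC
end Pool.Agent.LC

/-! ### from `Lib_MP_2c424f_thr.T1` -/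

section

/-!
# THR T1: concentration on fibres (paper proof: T1, T2)

`fib b f = Fintype.piFinset t`, `t x = (SS f x)ᶜ` on the class `b` and `{f x}` off it, so `LIN.mcdiarmid` applies with
`c_v = l c` on the class (`|cls b| = N/2`) and `c_v = 0` off the class:
mean over the fibre of `exp (l (Ψ - mean Ψ)) ≤ exp (l² c² N/2)` if `l c ≤ 1`.
* `tail`: `fib_sum` for `exp (l (Ψ - fm b Ψ))` (the fibre mean is constant on the fibre, `fib_eq`), Markov's inequality,
  `l = δ/c²`: `exp (-l δ N + l² c² N/2) = exp (-δ² N/(2c²))`.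
* `fm_var`: `e^x + e^{-x} ≥ 2 + x²`, applied to `x = l (F - mean F)`: `l² Var ≤ 2 (exp (l² S) - 1) ≤ 4 l² S`, `S = ∑ c_v²`,
  for `l` so small that `l c_v ≤ 1`, `l² S ≤ 1`.
* `WOPi_tail`: `tail` with `c = d^κ`, `δ = 1/d^K`: `exp (-N/(2 d^(2K+2κ)))`, exponent `2K+2κ+1`.
-/

set_option autoImplicit false

open Finset Filter

namespace Pool.Agent.THR

open Pool.Agent.LO Pool.Agent.LIN

private theorem T1_cosh (x : ℝ) : 1 + x ^ 2 / 2 ≤ Real.cosh x := by
  have h1 : Real.cosh x = 1 + 2 * Real.sinh (x / 2) ^ 2 := by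
    have e1 := Real.cosh_two_mul (x / 2)
    have e2 := Real.cosh_sq (x / 2)
    have e3 : 2 * (x / 2) = x := by ring
    rw [e3] at e1
    rw [e1, e2]
    ring
  have h2 : (x / 2) ^ 2 ≤ Real.sinh (x / 2) ^ 2 := by
    rcases le_total 0 (x / 2) with h | h
    · exact pow_le_pow_left₀ h (Real.self_le_sinh_iff.2 h) 2
    · have e1 := Real.sinh_le_self_iff.2 h
      nlinarith
  rw [h1]
  nlinarith

private theorem T1_mcd {d k q : ℕ} (b : Bool) {f : Site d k → Fin q} (hf : Prp f)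
    (F : (Site d k → Fin q) → ℝ) (c : Site d k → ℝ) (hc0 : ∀ v, 0 ≤ c v)
    (hc1 : ∀ v ∈ cls b d k, c v ≤ 1)
    (hF : ∀ h ∈ fib b f, ∀ v ∈ cls b d k, ∀ γ, γ ∉ SS f v → |F (Function.update h v γ) - F h| ≤ c v) :
    fm b (fun h => Real.exp (F h)) f ≤ Real.exp (fm b F f + ∑ v ∈ cls b d k, c v ^ 2) := by
  classical
  have hself := fib_self b hf
  set t : Site d k → Finset (Fin q) := fun x => if x ∈ cls b d k then (SS f x)ᶜ else {f x} with ht
  have hfib : fib b f = Fintype.piFinset t := by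
    unfold fib
    rw [ht]
  have htne : ∀ i, (t i).Nonempty := fun i =>
    ⟨f i, Fintype.mem_piFinset.1 (hfib ▸ hself) i⟩
  have hdiff : ∀ h ∈ Fintype.piFinset t, ∀ i, ∀ a ∈ t i,
      |F (Function.update h i a) - F h| ≤ if i ∈ cls b d k then c i else 0 := by
    intro h hh i a ha
    by_cases hi : i ∈ cls b d k
    · rw [if_pos hi]
      refine hF h (hfib ▸ hh) i hi a ?_
      rw [ht] at ha
      dsimp only at ha
      rw [if_pos hi] at ha
      exact Finset.mem_compl.1 ha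
    · have hti : t i = {f i} := by
        rw [ht]
        dsimp only
        rw [if_neg hi]
      have h1 : a = f i := by
        rw [hti] at ha
        exact Finset.mem_singleton.1 ha
      have h2 : h i = f i := by
        have := Fintype.mem_piFinset.1 hh i
        rw [hti] at this
        exact Finset.mem_singleton.1 this
      have h3 : Function.update h i a = h := by
        rw [h1, ← h2, Function.update_eq_self]
      rw [h3, sub_self, abs_zero, if_neg hi]
  have hmc := mcdiarmid t htne F (fun i => if i ∈ cls b d k then c i else 0)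
    (fun i => by
      split_ifs
      · exact hc0 i
      · exact le_rfl)
    (fun i => by
      split_ifs with hi
      · exact hc1 i hi
      · exact zero_le_one) hdiff
  have hcard : 0 < ((Fintype.piFinset t).card : ℝ) := by
    rw [← hfib]
    exact_mod_cast Finset.card_pos.2 ⟨f, hself⟩
  have hsum : ∑ i, (if i ∈ cls b d k then c i else 0) ^ 2 = ∑ v ∈ cls b d k, c v ^ 2 := by
    have h1 : ∀ i, (if i ∈ cls b d k then c i else 0) ^ 2 = if i ∈ cls b d k then c i ^ 2 else 0 := by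
      intro i
      split_ifs
      · rfl
      · simp
    rw [Finset.sum_congr rfl fun i _ => h1 i, Finset.sum_ite_mem, Finset.univ_inter]
  rw [hsum] at hmc
  unfold fm
  rw [hfib, div_le_iff₀ hcard, mul_comm]
  exact hmc

private theorem T1_fm_center {d k q : ℕ} (b : Bool) {f : Site d k → Fin q} (hf : Prp f)
    (F : (Site d k → Fin q) → ℝ) (l m : ℝ) (hm : m = fm b F f) :
    fm b (fun h => l * (F h - m)) f = 0 := by
  have hcard : (0 : ℝ) < ((fib b f).card : ℝ) := by
    exact_mod_cast Finset.card_pos.2 ⟨f, fib_self b hf⟩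
  unfold fm at hm ⊢
  rw [← Finset.mul_sum, Finset.sum_sub_distrib, Finset.sum_const, nsmul_eq_mul, hm,
    mul_div_cancel₀ _ hcard.ne', sub_self, mul_zero, zero_div]

theorem tail {d k q : ℕ} (hd : 1 ≤ d) (hk : 2 ≤ k) (b : Bool) (Ψ : (Site d k → Fin q) → ℝ) (c δ : ℝ) (hc : 0 < c)
    (hδ : 0 ≤ δ) (hδc : δ ≤ c) (h : Lip b c Ψ) :
    (((prps d k q).filter fun f => fm b Ψ f + δ * NN d k ≤ Ψ f).card : ℝ) ≤
      ZZ d k q * Real.exp (-(δ ^ 2 * NN d k / (2 * c ^ 2))) := by
  classical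
  have hk1 : 1 ≤ k := by omega
  set l : ℝ := δ / c ^ 2 with hl
  have hl0 : 0 ≤ l := by positivity
  have hlc : l * c ≤ 1 := by
    have h1 : l * c = δ / c := by
      rw [hl]
      field_simp
    rw [h1, div_le_one hc]
    exact hδc
  have key : ∀ f ∈ prps d k q, fm b (fun h => Real.exp (l * (Ψ h - fm b Ψ h))) f ≤
      Real.exp (l ^ 2 * c ^ 2 * (NN d k / 2)) := by
    intro f hfm
    have hf : Prp f := by
      unfold prps at hfm
      exact (Finset.mem_filter.1 hfm).2
    have h1 : fm b (fun h => Real.exp (l * (Ψ h - fm b Ψ h))) f =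
        fm b (fun h => Real.exp (l * (Ψ h - fm b Ψ f))) f := by
      unfold fm
      congr 1
      refine Finset.sum_congr rfl fun g hg => ?_
      dsimp only
      rw [fib_eq hk1 b hg]
    rw [h1]
    have h2 := T1_mcd b hf (fun h => l * (Ψ h - fm b Ψ f)) (fun _ => l * c)
      (fun _ => mul_nonneg hl0 hc.le) (fun _ _ => hlc) (by
        intro g hg v hv γ hγ
        have h3 := h f hfm g hg v hv γ hγ
        have h4 : l * (Ψ (Function.update g v γ) - fm b Ψ f) - l * (Ψ g - fm b Ψ f) =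
            l * (Ψ (Function.update g v γ) - Ψ g) := by ring
        rw [h4, abs_mul, abs_of_nonneg hl0]
        exact mul_le_mul_of_nonneg_left h3 hl0)
    rw [T1_fm_center b hf Ψ l _ rfl, Finset.sum_const, nsmul_eq_mul, card_cls hd hk1 b, zero_add] at h2
    refine h2.trans_eq ?_
    congr 1
    ring
  have hsum : ∑ f ∈ prps d k q, Real.exp (l * (Ψ f - fm b Ψ f)) ≤
      ZZ d k q * Real.exp (l ^ 2 * c ^ 2 * (NN d k / 2)) := by
    rw [fib_sum hk1 b]
    refine (Finset.sum_le_sum key).trans_eq ?_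
    rw [Finset.sum_const, nsmul_eq_mul]
    rfl
  have hWm : ∀ f ∈ (prps d k q).filter fun f => fm b Ψ f + δ * NN d k ≤ Ψ f,
      fm b Ψ f + δ * NN d k ≤ Ψ f := fun f hf => (Finset.mem_filter.1 hf).2
  have hWs : ((prps d k q).filter fun f => fm b Ψ f + δ * NN d k ≤ Ψ f) ⊆ prps d k q :=
    Finset.filter_subset _ _
  generalize ((prps d k q).filter fun f => fm b Ψ f + δ * NN d k ≤ Ψ f) = W at hWm hWs ⊢
  have hmark : (W.card : ℝ) * Real.exp (l * (δ * NN d k)) ≤
      ∑ f ∈ prps d k q, Real.exp (l * (Ψ f - fm b Ψ f)) := by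
    calc (W.card : ℝ) * Real.exp (l * (δ * NN d k)) = ∑ f ∈ W, Real.exp (l * (δ * NN d k)) := by
          rw [Finset.sum_const, nsmul_eq_mul]
      _ ≤ ∑ f ∈ W, Real.exp (l * (Ψ f - fm b Ψ f)) := by
          refine Finset.sum_le_sum fun f hf => ?_
          refine Real.exp_le_exp.2 (mul_le_mul_of_nonneg_left ?_ hl0)
          linarith [hWm f hf]
      _ ≤ _ := Finset.sum_le_sum_of_subset_of_nonneg hWs fun _ _ _ => (Real.exp_pos _).le
  have h5 := hmark.trans hsum
  have h6 : (W.card : ℝ) ≤ ZZ d k q * Real.exp (l ^ 2 * c ^ 2 * (NN d k / 2)) / Real.exp (l * (δ * NN d k)) := by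
    rw [le_div_iff₀ (Real.exp_pos _)]
    exact h5
  refine h6.trans_eq ?_
  rw [mul_div_assoc, ← Real.exp_sub]
  congr 2
  rw [hl]
  field_simp
  ring

theorem fm_var {d k q : ℕ} (hk : 2 ≤ k) (b : Bool) {f : Site d k → Fin q} (hf : Prp f) (F : (Site d k → Fin q) → ℝ)
    (c : Site d k → ℝ) (hc : ∀ v, 0 ≤ c v)
    (h : ∀ h ∈ fib b f, ∀ v ∈ cls b d k, ∀ γ, γ ∉ SS f v → |F (Function.update h v γ) - F h| ≤ c v) :
    fm b (fun h => (F h - fm b F f) ^ 2) f ≤ 4 * ∑ v ∈ cls b d k, c v ^ 2 := by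
  have _ := hk
  set S : ℝ := ∑ v ∈ cls b d k, c v ^ 2 with hS
  have hS0 : 0 ≤ S := Finset.sum_nonneg fun v _ => sq_nonneg _
  have hcS : ∀ v ∈ cls b d k, c v ≤ 1 + S := by
    intro v hv
    have h1 : c v ^ 2 ≤ S := Finset.single_le_sum (f := fun v => c v ^ 2) (fun _ _ => sq_nonneg _) hv
    nlinarith [sq_nonneg (c v - 1)]
  set l : ℝ := 1 / (1 + S) with hl
  have hl0 : 0 < l := by positivity
  have hl1 : l * (1 + S) = 1 := by
    rw [hl]
    field_simp
  set m : ℝ := fm b F f with hm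
  have hcard : (0 : ℝ) < ((fib b f).card : ℝ) := by
    exact_mod_cast Finset.card_pos.2 ⟨f, fib_self b hf⟩
  have hx : l ^ 2 * S ≤ 1 := by
    have h1 : l * S ≤ 1 := by
      have : l * (1 + S) = l + l * S := by ring
      linarith
    have h2 : l ≤ 1 := by
      have : 0 ≤ l * S := by positivity
      nlinarith
    calc l ^ 2 * S = l * (l * S) := by ring
      _ ≤ 1 * 1 := mul_le_mul h2 h1 (by positivity) zero_le_one
      _ = 1 := one_mul 1
  have hx0 : 0 ≤ l ^ 2 * S := by positivity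
  have hsg : ∀ s : ℝ, |s| = l → fm b (fun h => Real.exp (s * (F h - m))) f ≤ Real.exp (l ^ 2 * S) := by
    intro s hs
    have h2 := T1_mcd b hf (fun h => s * (F h - m)) (fun v => l * c v)
      (fun v => mul_nonneg hl0.le (hc v))
      (fun v hv => (mul_le_mul_of_nonneg_left (hcS v hv) hl0.le).trans_eq hl1) (by
        intro g hg v hv γ hγ
        have h3 := h g hg v hv γ hγ
        have h4 : s * (F (Function.update g v γ) - m) - s * (F g - m) =
            s * (F (Function.update g v γ) - F g) := by ring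
        rw [h4, abs_mul, hs]
        exact mul_le_mul_of_nonneg_left h3 hl0.le)
    rw [T1_fm_center b hf F s m hm, zero_add] at h2
    refine h2.trans_eq ?_
    congr 1
    rw [hS, Finset.mul_sum]
    refine Finset.sum_congr rfl fun v _ => ?_
    ring
  have h1 := hsg l (abs_of_pos hl0)
  have h2 := hsg (-l) (by rw [abs_neg, abs_of_pos hl0])
  have h3 : 2 + l ^ 2 * fm b (fun h => (F h - m) ^ 2) f ≤
      fm b (fun h => Real.exp (l * (F h - m))) f + fm b (fun h => Real.exp (-l * (F h - m))) f := by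
    have e1 : 2 + l ^ 2 * fm b (fun h => (F h - m) ^ 2) f =
        (∑ h ∈ fib b f, (2 + (l * (F h - m)) ^ 2)) / (fib b f).card := by
      unfold fm
      rw [Finset.sum_add_distrib, Finset.sum_const, nsmul_eq_mul, add_div, mul_comm _ (2 : ℝ),
        mul_div_cancel_right₀ _ hcard.ne', ← mul_div_assoc, Finset.mul_sum]
      congr 2
      refine Finset.sum_congr rfl fun g _ => ?_
      ring
    rw [e1]
    unfold fm
    rw [← add_div, ← Finset.sum_add_distrib]
    refine div_le_div_of_nonneg_right (Finset.sum_le_sum fun g _ => ?_) hcard.le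
    have e2 : -l * (F g - m) = -(l * (F g - m)) := by ring
    rw [e2]
    generalize l * (F g - m) = x
    have e3 : Real.exp x + Real.exp (-x) = 2 * Real.cosh x := by
      rw [Real.cosh_eq]
      ring
    rw [e3]
    have e4 := T1_cosh x
    linarith
  have h4 : Real.exp (l ^ 2 * S) ≤ 1 + 2 * (l ^ 2 * S) := by
    have e1 := Real.abs_exp_sub_one_sub_id_le (x := l ^ 2 * S) (by rw [abs_of_nonneg hx0]; exact hx)
    have e2 := (abs_le.1 e1).2
    nlinarith
  have h5 : l ^ 2 * fm b (fun h => (F h - m) ^ 2) f ≤ l ^ 2 * (4 * S) := by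
    nlinarith
  exact le_of_mul_le_mul_left h5 (by positivity)

private theorem T1_Rar {C d k q : ℕ} {P : (Site d k → Fin q) → Prop} (W : Finset (Site d k → Fin q))
    (hW : ∀ f ∈ prps d k q, P f → f ∈ W)
    (hc : (W.card : ℝ) ≤ ZZ d k q * Real.exp (-(NN d k / (d : ℝ) ^ C))) : Rar C d k q P := by
  classical
  unfold Rar
  refine le_trans ?_ hc
  exact Nat.cast_le.2 (Finset.card_le_card fun f hf =>
    hW f (Finset.mem_filter.1 hf).1 (Finset.mem_filter.1 hf).2)

theorem WOPi_tail {ε : ℝ} (hε : 0 < ε) (hε1 : ε ≤ 1) (ι : ℕ → ℕ → ℕ → Type) (b : ∀ d k q, ι d k q → Bool)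
    (H : ∀ d k q, ι d k q → Prop) (Ψ : ∀ d k q, ι d k q → (Site d k → Fin q) → ℝ) (κ K : ℕ)
    (hL : EvT ε fun d k q => ∀ i, H d k q i → Lip (b d k q i) ((d : ℝ) ^ κ) (Ψ d k q i)) :
    WOPi ε ι fun d k q i f => H d k q i →
      Ψ d k q i f ≤ fm (b d k q i) (Ψ d k q i) f + NN d k / (d : ℝ) ^ K := by
  refine ⟨2 * K + 2 * κ + 1, ?_⟩
  refine (hL.and (EvT_reg hε hε1 2)).mono ?_
  intro d k q hdkq i
  obtain ⟨hLip, hd2, -, hk2, -⟩ := hdkq
  have hd2' : 2 ≤ d := by exact_mod_cast hd2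
  have hk2' : 2 ≤ k := by exact_mod_cast hk2
  have hd0 : (0 : ℝ) < d := by linarith
  have hd1 : (1 : ℝ) ≤ d := by linarith
  have hN : 0 ≤ NN d k := by
    unfold NN
    positivity
  have hZ : 0 ≤ ZZ d k q := by
    unfold ZZ
    positivity
  by_cases hH : H d k q i
  · have h1 := tail (by omega : 1 ≤ d) hk2' (b d k q i) (Ψ d k q i) ((d : ℝ) ^ κ) (1 / (d : ℝ) ^ K)
      (by positivity) (by positivity) (by
        calc 1 / (d : ℝ) ^ K ≤ 1 := by
              rw [div_le_one (by positivity)]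
              exact one_le_pow₀ hd1
          _ ≤ (d : ℝ) ^ κ := one_le_pow₀ hd1) (hLip i hH)
    refine T1_Rar _ (fun f hf h2 => ?_) (h1.trans ?_)
    · rw [Classical.not_imp, not_le] at h2
      have h3 : 1 / (d : ℝ) ^ K * NN d k = NN d k / (d : ℝ) ^ K := by ring
      refine Finset.mem_filter.2 ⟨hf, ?_⟩
      rw [h3]
      exact h2.2.le
    · refine mul_le_mul_of_nonneg_left (Real.exp_le_exp.2 (neg_le_neg ?_)) hZ
      have h4 : (1 / (d : ℝ) ^ K) ^ 2 * NN d k / (2 * ((d : ℝ) ^ κ) ^ 2) =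
          NN d k / (2 * (d : ℝ) ^ (2 * K + 2 * κ)) := by
        rw [pow_add, pow_mul', pow_mul']
        field_simp
      rw [h4]
      refine div_le_div_of_nonneg_left hN (by positivity) ?_
      rw [pow_succ' (d : ℝ) (2 * K + 2 * κ)]
      exact mul_le_mul_of_nonneg_right hd2 (by positivity)
  · refine T1_Rar ∅ (fun f _ hf => absurd (fun h => absurd h hH) hf) ?_
    rw [Finset.card_empty, Nat.cast_zero]
    positivity

end Pool.Agent.THR

end

/-! ### from `Lib_MP_2c424f_thr.T0` -/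

section

/-!
# THR T0: statements which hold in the regime; rare events

All statements are elementary.  `EvT.and`: maximum of the two thresholds.  `EvT_large`: `q ≥ ε d`.
`Rar` is monotone in the exponent since `d ≥ 1`.  For a finite union use that `N/d^C - N/d^(C+1) ≥ log F` for `k` large
(`N = (2^k)^d → ∞`, `d ≥ 2`).
-/

set_option autoImplicit false

open Finset Filter

namespace Pool.Agent.THR

open Pool.Agent.LO Pool.Agent.LIN

private theorem T0_NN_nonneg (d k : ℕ) : 0 ≤ NN d k := by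
  unfold NN
  positivity

private theorem T0_ZZ_nonneg (d k q : ℕ) : 0 ≤ ZZ d k q := by
  unfold ZZ
  positivity

private theorem T0_mem_prps {d k q : ℕ} (f : Site d k → Fin q) : f ∈ prps d k q ↔ Prp f := by
  unfold prps
  simp only [mem_filter, mem_univ, true_and]

private theorem T0_prps_transl {d k q : ℕ} {f : Site d k → Fin q} (τ : Site d k)
    (hf : f ∈ prps d k q) : (fun x => f (x + τ)) ∈ prps d k q := by
  rw [T0_mem_prps] at hf ⊢
  intro x σ
  have h := hf (x + τ) σ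
  have e : x + τ + sv σ = x + sv σ + τ := by abel
  rw [e] at h
  exact h

theorem Rar.mono_C {C C' d k q : ℕ} {P : (Site d k → Fin q) → Prop} (h : Rar C d k q P) (hd : 1 ≤ d) (hC : C ≤ C') :
    Rar C' d k q P := by
  unfold Rar at *
  refine h.trans ?_
  have hN : 0 ≤ NN d k := T0_NN_nonneg d k
  have hZ : 0 ≤ ZZ d k q := T0_ZZ_nonneg d k q
  have hd1 : (1 : ℝ) ≤ (d : ℝ) := by exact_mod_cast hd
  have hp : 0 < (d : ℝ) ^ C := pow_pos (by linarith) _
  have hpp : (d : ℝ) ^ C ≤ (d : ℝ) ^ C' := pow_le_pow_right₀ hd1 hC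
  refine mul_le_mul_of_nonneg_left (Real.exp_le_exp.mpr ?_) hZ
  refine neg_le_neg ?_
  exact div_le_div_of_nonneg_left hN hp hpp

theorem Rar.mono {C d k q : ℕ} {P Q : (Site d k → Fin q) → Prop} (h : Rar C d k q P)
    (hQ : ∀ f ∈ prps d k q, Q f → P f) : Rar C d k q Q := by
  classical
  unfold Rar at *
  refine le_trans ?_ h
  have hsub : (prps d k q).filter Q ⊆ (prps d k q).filter P := by
    intro f hf
    rw [mem_filter] at hf ⊢
    exact ⟨hf.1, hQ f hf.1 hf.2⟩
  exact_mod_cast card_le_card (by convert hsub)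

/-- translation invariance -/
theorem Rar.transl {C d k q : ℕ} {P : (Site d k → Fin q) → Prop} (h : Rar C d k q P) (τ : Site d k) :
    Rar C d k q fun f => P fun x => f (x + τ) := by
  classical
  unfold Rar at *
  refine le_trans ?_ h
  have hcard : ((prps d k q).filter fun f => P fun x => f (x + τ)).card ≤
      ((prps d k q).filter P).card := by
    refine card_le_card_of_injOn (fun f => fun x => f (x + τ)) ?_ ?_
    · intro f hf
      rw [mem_coe, mem_filter] at hf
      rw [mem_coe, mem_filter]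
      exact ⟨T0_prps_transl τ hf.1, hf.2⟩
    · intro f _ g _ hfg
      funext x
      have h1 := congrFun hfg (x - τ)
      simpa using h1
  exact_mod_cast (by convert hcard)

/-- finite unions -/
theorem Rar_union {C d k q : ℕ} {ι : Type} [Fintype ι] {P : ι → (Site d k → Fin q) → Prop} (hd : 2 ≤ d)
    (h : ∀ i, Rar C d k q (P i)) (hι : (d : ℝ) ^ (C + 1) * Real.log (Fintype.card ι) ≤ NN d k) :
    Rar (C + 1) d k q fun f => ∃ i, P i f := by
  classical
  have hN : 0 ≤ NN d k := T0_NN_nonneg d k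
  have hZ : 0 ≤ ZZ d k q := T0_ZZ_nonneg d k q
  have hd2 : (2 : ℝ) ≤ (d : ℝ) := by exact_mod_cast hd
  have hd0 : (0 : ℝ) < (d : ℝ) := by linarith
  have hcard : (((prps d k q).filter fun f => ∃ i, P i f).card : ℝ) ≤
      ∑ i : ι, (((prps d k q).filter (P i)).card : ℝ) := by
    have h1 : ((prps d k q).filter fun f => ∃ i, P i f) ⊆
        (univ : Finset ι).biUnion fun i => (prps d k q).filter (P i) := by
      intro f hf
      rw [mem_filter] at hf
      obtain ⟨hf1, i, hi⟩ := hf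
      rw [mem_biUnion]
      exact ⟨i, mem_univ _, mem_filter.mpr ⟨hf1, hi⟩⟩
    have h2 := (card_le_card h1).trans card_biUnion_le
    exact_mod_cast h2
  have hsum : ∑ i : ι, (((prps d k q).filter (P i)).card : ℝ) ≤
      (Fintype.card ι : ℝ) * (ZZ d k q * Real.exp (-(NN d k / (d : ℝ) ^ C))) := by
    have h3 : ∀ i ∈ (univ : Finset ι), (((prps d k q).filter (P i)).card : ℝ) ≤
        ZZ d k q * Real.exp (-(NN d k / (d : ℝ) ^ C)) := by
      intro i _
      have := h i
      unfold Rar at this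
      convert this
    have h4 := sum_le_card_nsmul univ _ _ h3
    rw [nsmul_eq_mul, card_univ] at h4
    exact h4
  have hfin : (Fintype.card ι : ℝ) * (ZZ d k q * Real.exp (-(NN d k / (d : ℝ) ^ C))) ≤
      ZZ d k q * Real.exp (-(NN d k / (d : ℝ) ^ (C + 1))) := by
    rcases Nat.eq_zero_or_pos (Fintype.card ι) with h0 | h0
    · rw [h0, Nat.cast_zero, zero_mul]
      exact mul_nonneg hZ (Real.exp_pos _).le
    · have hc : (0 : ℝ) < (Fintype.card ι : ℝ) := by exact_mod_cast h0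
      rw [mul_left_comm]
      refine mul_le_mul_of_nonneg_left ?_ hZ
      have hlog : (Fintype.card ι : ℝ) * Real.exp (-(NN d k / (d : ℝ) ^ C)) =
          Real.exp (Real.log (Fintype.card ι : ℝ) + -(NN d k / (d : ℝ) ^ C)) := by
        rw [Real.exp_add, Real.exp_log hc]
      rw [hlog, Real.exp_le_exp]
      have hp : 0 < (d : ℝ) ^ C := pow_pos hd0 _
      have hp1 : 0 < (d : ℝ) ^ (C + 1) := pow_pos hd0 _
      have e1 : NN d k / (d : ℝ) ^ C = d * (NN d k / (d : ℝ) ^ (C + 1)) := by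
        rw [pow_succ]
        field_simp
      have h5 : Real.log (Fintype.card ι) ≤ NN d k / (d : ℝ) ^ (C + 1) := by
        rw [le_div_iff₀ hp1, mul_comm]
        exact hι
      have h6 : 0 ≤ NN d k / (d : ℝ) ^ (C + 1) := div_nonneg hN hp1.le
      rw [e1]
      nlinarith
  unfold Rar
  have hres := hcard.trans (hsum.trans hfin)
  refine le_trans (le_of_eq ?_) hres
  congr 2
  ext f
  simp only [mem_filter]

private theorem T0_union2 {C d k q : ℕ} {P Q : (Site d k → Fin q) → Prop} (hd : 2 ≤ d)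
    (h : Rar C d k q P) (h' : Rar C d k q Q)
    (hN : (d : ℝ) ^ (C + 1) * Real.log 2 ≤ NN d k) :
    Rar (C + 1) d k q fun f => P f ∨ Q f := by
  have h1 : Rar (C + 1) d k q fun f => ∃ i : Bool, (fun b : Bool => if b then P else Q) i f := by
    refine Rar_union hd ?_ ?_
    · intro i
      cases i
      · simpa using h'
      · simpa using h
    · rw [Fintype.card_bool]
      exact_mod_cast hN
  refine h1.mono ?_
  intro f _ hf
  rcases hf with hf | hf
  · exact ⟨true, by simpa using hf⟩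
  · exact ⟨false, by simpa using hf⟩

theorem WOP.mono {ε : ℝ} {P Q : ∀ d k q : ℕ, (Site d k → Fin q) → Prop} (h : WOP ε P)
    (hPQ : EvT ε fun d k q => ∀ f ∈ prps d k q, P d k q f → Q d k q f) : WOP ε Q := by
  obtain ⟨C, hC⟩ := h
  refine ⟨C, (hC.and hPQ).mono ?_⟩
  rintro d k q ⟨h1, h2⟩
  exact h1.mono fun f hf hq hp => hq (h2 f hf hp)

theorem WOP.and {ε : ℝ} {P Q : ∀ d k q : ℕ, (Site d k → Fin q) → Prop} (h : WOP ε P) (h' : WOP ε Q) :
    WOP ε fun d k q f => P d k q f ∧ Q d k q f := by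
  obtain ⟨C, hC⟩ := h
  obtain ⟨C', hC'⟩ := h'
  refine ⟨max C C' + 1, (((hC.and hC').and (EvT_d (eventually_ge_atTop 2))).and
    (EvT_NN fun d _ => (d : ℝ) ^ (max C C' + 1) * Real.log 2)).mono ?_⟩
  rintro d k q ⟨⟨⟨h1, h2⟩, h3⟩, h4⟩
  have h3' : 1 ≤ d := le_trans (by norm_num) h3
  refine (T0_union2 h3 (h1.mono_C h3' (le_max_left C C'))
    (h2.mono_C h3' (le_max_right C C')) h4).mono ?_
  intro f _ hf
  exact not_and_or.mp hf

/-- translation invariance, the vector may depend on `d` and `k` -/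
theorem WOP.transl {ε : ℝ} {P : ∀ d k q : ℕ, (Site d k → Fin q) → Prop} (h : WOP ε P) (τ : ∀ d k : ℕ, Site d k) :
    WOP ε fun d k q f => P d k q fun x => f (x + τ d k) := by
  obtain ⟨C, hC⟩ := h
  refine ⟨C, hC.mono ?_⟩
  intro d k q h1
  exact h1.transl (τ d k)

theorem WOPi.mono {ε : ℝ} {ι : ℕ → ℕ → ℕ → Type} {P Q : ∀ d k q : ℕ, ι d k q → (Site d k → Fin q) → Prop}
    (h : WOPi ε ι P) (hPQ : EvT ε fun d k q => ∀ i, ∀ f ∈ prps d k q, P d k q i f → Q d k q i f) : WOPi ε ι Q := by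
  obtain ⟨C, hC⟩ := h
  refine ⟨C, (hC.and hPQ).mono ?_⟩
  rintro d k q ⟨h1, h2⟩ i
  exact (h1 i).mono fun f hf hq hp => hq (h2 i f hf hp)

theorem WOPi.and {ε : ℝ} {ι : ℕ → ℕ → ℕ → Type} {P Q : ∀ d k q : ℕ, ι d k q → (Site d k → Fin q) → Prop}
    (h : WOPi ε ι P) (h' : WOPi ε ι Q) : WOPi ε ι fun d k q i f => P d k q i f ∧ Q d k q i f := by
  obtain ⟨C, hC⟩ := h
  obtain ⟨C', hC'⟩ := h'
  refine ⟨max C C' + 1, (((hC.and hC').and (EvT_d (eventually_ge_atTop 2))).and
    (EvT_NN fun d _ => (d : ℝ) ^ (max C C' + 1) * Real.log 2)).mono ?_⟩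
  rintro d k q ⟨⟨⟨h1, h2⟩, h3⟩, h4⟩ i
  have h3' : 1 ≤ d := le_trans (by norm_num) h3
  refine (T0_union2 h3 ((h1 i).mono_C h3' (le_max_left C C'))
    ((h2 i).mono_C h3' (le_max_right C C')) h4).mono ?_
  intro f _ hf
  exact not_and_or.mp hf

theorem WOP.toi {ε : ℝ} {P : ∀ d k q : ℕ, (Site d k → Fin q) → Prop} (h : WOP ε P) (ι : ℕ → ℕ → ℕ → Type) :
    WOPi ε ι fun d k q _ f => P d k q f := by
  obtain ⟨C, hC⟩ := h
  exact ⟨C, hC.mono fun d k q h1 _ => h1⟩

/-- change of the parameter -/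
theorem WOPi.comap {ε : ℝ} {ι ι' : ℕ → ℕ → ℕ → Type} {P : ∀ d k q : ℕ, ι d k q → (Site d k → Fin q) → Prop}
    (h : WOPi ε ι P) (g : ∀ d k q, ι' d k q → ι d k q) : WOPi ε ι' fun d k q i f => P d k q (g d k q i) f := by
  obtain ⟨C, hC⟩ := h
  exact ⟨C, hC.mono fun d k q h1 i => h1 (g d k q i)⟩

/-- finitely many parameters -/
theorem WOPi.all {ε : ℝ} {ι : ℕ → ℕ → ℕ → Type} [∀ d k q, Fintype (ι d k q)]
    {P : ∀ d k q : ℕ, ι d k q → (Site d k → Fin q) → Prop} (h : WOPi ε ι P) (F : ℕ → ℕ → ℝ)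
    (hF : ∀ d k q, (Fintype.card (ι d k q) : ℝ) ≤ F d q) : WOP ε fun d k q f => ∀ i, P d k q i f := by
  obtain ⟨C, hC⟩ := h
  refine ⟨C + 1, ((hC.and (EvT_d (eventually_ge_atTop 2))).and
    (EvT_NN fun d q => (d : ℝ) ^ (C + 1) * Real.log (max 1 (F d q)))).mono ?_⟩
  rintro d k q ⟨⟨h1, h2⟩, h3⟩
  have h4 : Rar (C + 1) d k q fun f => ∃ i, ¬ P d k q i f := by
    refine Rar_union h2 h1 (le_trans ?_ h3)
    refine mul_le_mul_of_nonneg_left ?_ (by positivity)
    rcases Nat.eq_zero_or_pos (Fintype.card (ι d k q)) with h0 | h0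
    · rw [h0, Nat.cast_zero, Real.log_zero]
      exact Real.log_nonneg (le_max_left _ _)
    · exact Real.log_le_log (by exact_mod_cast h0) ((hF d k q).trans (le_max_right _ _))
  refine h4.mono ?_
  intro f _ hf
  exact not_forall.mp hf

/-- translation invariance -/
theorem WOPi.transl {ε : ℝ} {ι : ℕ → ℕ → ℕ → Type} {P : ∀ d k q : ℕ, ι d k q → (Site d k → Fin q) → Prop}
    (h : WOPi ε ι P) (τ : ∀ d k q, ι d k q → Site d k) :
    WOPi ε ι fun d k q i f => P d k q i fun x => f (x + τ d k q i) := by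
  obtain ⟨C, hC⟩ := h
  exact ⟨C, hC.mono fun d k q h1 i => (h1 i).transl (τ d k q i)⟩

end Pool.Agent.THR

end

/-! ### from `Lib_MP_2c424f_thr.B0` -/

section

/-!
# THR B0: rare events on the torus of side `2^(k+1)`

`WOPb` is `WOP` with `k + 1` instead of `k`.
* `WOP.blk`, `WOP.blk'`: `EvT.shift`.
* `WOPb.and`, `WOPb.mono`: as in T0 (`Rar.mono`, `Rar_union` or directly).
* `WOPb_tail`: `T1.tail` on the torus of side `2^(k+1)`, for the function `2^d Ψ`: thresholds `N'/d^K`, `N' = NN d (k+1) = 2^d NN d k`; index type finite and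
  of size `≤ F d q` (`Rar_union`).  I.e. apply `tail` with `c = d^κ`, `δ = 1/d^K` to `2^d Ψ`.
-/

set_option autoImplicit false

open Finset Filter

namespace Pool.Agent.THR

open Pool.Agent.LO Pool.Agent.LIN

/-- with overwhelming probability, torus of side `2^(k+1)` -/
def WOPb (ε : ℝ) (P : ∀ d k q : ℕ, (Site d (k + 1) → Fin q) → Prop) : Prop :=
  ∃ C : ℕ, EvT ε fun d k q => Rar C d (k + 1) q fun f => ¬ P d k q f

theorem WOP.blk {ε : ℝ} {P : ∀ d k q : ℕ, (Site d k → Fin q) → Prop} (h : WOP ε P) :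
    WOPb ε fun d k q f => P d (k + 1) q f := by
  obtain ⟨C, hC⟩ := h
  exact ⟨C, hC.shift⟩

theorem WOPb.mono {ε : ℝ} {P Q : ∀ d k q : ℕ, (Site d (k + 1) → Fin q) → Prop} (h : WOPb ε P)
    (hPQ : EvT ε fun d k q => ∀ f ∈ prps d (k + 1) q, P d k q f → Q d k q f) : WOPb ε Q := by
  obtain ⟨C, hC⟩ := h
  refine ⟨C, (hC.and hPQ).mono ?_⟩
  rintro d k q ⟨h1, h2⟩
  exact h1.mono fun f hf hq hp => hq (h2 f hf hp)

private theorem B0_union2 {C d k q : ℕ} {P Q : (Site d k → Fin q) → Prop} (hd : 2 ≤ d)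
    (h : Rar C d k q P) (h' : Rar C d k q Q)
    (hN : (d : ℝ) ^ (C + 1) * Real.log 2 ≤ NN d k) :
    Rar (C + 1) d k q fun f => P f ∨ Q f := by
  have h1 : Rar (C + 1) d k q fun f => ∃ i : Bool, (fun b : Bool => if b then P else Q) i f := by
    refine Rar_union hd ?_ ?_
    · intro i
      cases i
      · simpa using h'
      · simpa using h
    · rw [Fintype.card_bool]
      exact_mod_cast hN
  refine h1.mono ?_
  intro f _ hf
  rcases hf with hf | hf
  · exact ⟨true, by simpa using hf⟩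
  · exact ⟨false, by simpa using hf⟩

theorem WOPb.and {ε : ℝ} {P Q : ∀ d k q : ℕ, (Site d (k + 1) → Fin q) → Prop} (h : WOPb ε P) (h' : WOPb ε Q) :
    WOPb ε fun d k q f => P d k q f ∧ Q d k q f := by
  obtain ⟨C, hC⟩ := h
  obtain ⟨C', hC'⟩ := h'
  refine ⟨max C C' + 1, (((hC.and hC').and (EvT_d (eventually_ge_atTop 2))).and
    (EvT_NN (ε := ε) fun d _ => (d : ℝ) ^ (max C C' + 1) * Real.log 2).shift).mono ?_⟩
  rintro d k q ⟨⟨⟨h1, h2⟩, h3⟩, h4⟩
  have h3' : 1 ≤ d := le_trans (by norm_num) h3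
  refine (B0_union2 h3 (h1.mono_C h3' (le_max_left C C'))
    (h2.mono_C h3' (le_max_right C C')) h4).mono ?_
  intro f _ hf
  exact not_and_or.mp hf

theorem NN_succ (d k : ℕ) : NN d (k + 1) = 2 ^ d * NN d k := by
  unfold NN
  rw [pow_succ, mul_pow, mul_comm]

theorem card_Blk (d k : ℕ) : (Fintype.card (Blk d k) : ℝ) = NN d k := by
  unfold NN
  rw [Fintype.card_fun, ZMod.card, Fintype.card_fin]
  push_cast
  rfl

/-- concentration of block statistics -/
theorem WOPb_tail {ε : ℝ} (hε : 0 < ε) (hε1 : ε ≤ 1) (ι : ℕ → ℕ → ℕ → Type) [∀ d k q, Fintype (ι d k q)] (F : ℕ → ℕ → ℝ)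
    (hF : ∀ d k q, (Fintype.card (ι d k q) : ℝ) ≤ F d q) (b : ∀ d k q, ι d k q → Bool)
    (Ψ : ∀ d k q, ι d k q → (Site d (k + 1) → Fin q) → ℝ) (κ K : ℕ)
    (hL : EvT ε fun d k q => ∀ i, Lip (b d k q i) ((d : ℝ) ^ κ / 2 ^ d) (Ψ d k q i)) :
    WOPb ε fun d k q f => ∀ i, Ψ d k q i f ≤ fm (b d k q i) (Ψ d k q i) f + NN d k / (d : ℝ) ^ K := by
  classical
  refine ⟨2 * K + 2 * κ + 1 + 1, (((hL.and (EvT_reg hε hε1 2)).and (EvT_d (eventually_ge_atTop 2))).and
    (EvT_NN (ε := ε) fun d q => (d : ℝ) ^ (2 * K + 2 * κ + 1 + 1) *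
      Real.log (max 1 (F d q))).shift).mono ?_⟩
  rintro d k q ⟨⟨⟨hl, hreg⟩, hd⟩, hN⟩
  have hk : 2 ≤ k + 1 := by
    have h1 : (2 : ℝ) ≤ k := hreg.2.2.1
    have h2 : 2 ≤ k := by exact_mod_cast h1
    omega
  have hd1 : 1 ≤ d := by omega
  have hdR : (2 : ℝ) ≤ d := by exact_mod_cast hd
  have hd0 : (0 : ℝ) < d := by linarith
  have hpK : (0 : ℝ) < (d : ℝ) ^ K := pow_pos hd0 _
  have hpκ : (0 : ℝ) < (d : ℝ) ^ κ := pow_pos hd0 _
  have h2d : (0 : ℝ) < 2 ^ d := by positivity
  have hone : ∀ i, Rar (2 * K + 2 * κ + 1) d (k + 1) q fun f =>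
      ¬ (Ψ d k q i f ≤ fm (b d k q i) (Ψ d k q i) f + NN d k / (d : ℝ) ^ K) := by
    intro i
    have hδ : (1 : ℝ) / (2 ^ d * (d : ℝ) ^ K) ≤ (d : ℝ) ^ κ / 2 ^ d := by
      rw [div_le_div_iff₀ (by positivity) h2d]
      have h1 : (1 : ℝ) ≤ (d : ℝ) ^ κ := one_le_pow₀ (by linarith)
      have h2 : (1 : ℝ) ≤ (d : ℝ) ^ K := one_le_pow₀ (by linarith)
      nlinarith [mul_le_mul h1 h2 zero_le_one hpκ.le]
    have ht := tail (q := q) hd1 hk (b d k q i) (Ψ d k q i) ((d : ℝ) ^ κ / 2 ^ d)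
      (1 / (2 ^ d * (d : ℝ) ^ K)) (by positivity) (by positivity) hδ (hl i)
    have hthr : 1 / (2 ^ d * (d : ℝ) ^ K) * NN d (k + 1) = NN d k / (d : ℝ) ^ K := by
      rw [NN_succ]
      field_simp
    have hexp : (1 / (2 ^ d * (d : ℝ) ^ K)) ^ 2 * NN d (k + 1) / (2 * ((d : ℝ) ^ κ / 2 ^ d) ^ 2) =
        NN d (k + 1) / (2 * (d : ℝ) ^ (2 * K + 2 * κ)) := by
      rw [pow_add, pow_mul', pow_mul']
      field_simp
    rw [hthr, hexp] at ht
    unfold Rar
    refine le_trans ?_ (ht.trans ?_)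
    · have hsub : (prps d (k + 1) q).filter (fun f =>
          ¬ (Ψ d k q i f ≤ fm (b d k q i) (Ψ d k q i) f + NN d k / (d : ℝ) ^ K)) ⊆
          (prps d (k + 1) q).filter fun f =>
            fm (b d k q i) (Ψ d k q i) f + NN d k / (d : ℝ) ^ K ≤ Ψ d k q i f := by
        intro f hf
        rw [mem_filter] at hf ⊢
        exact ⟨hf.1, (not_le.mp hf.2).le⟩
      refine Nat.cast_le.mpr (card_le_card ?_)
      convert hsub
    · have hZ : 0 ≤ ZZ d (k + 1) q := by
        unfold ZZ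
        positivity
      refine mul_le_mul_of_nonneg_left (Real.exp_le_exp.mpr (neg_le_neg ?_)) hZ
      have hNN : 0 ≤ NN d (k + 1) := by
        unfold NN
        positivity
      refine div_le_div_of_nonneg_left hNN (by positivity) ?_
      rw [pow_succ (d : ℝ) (2 * K + 2 * κ), mul_comm]
      exact mul_le_mul_of_nonneg_left hdR (by positivity)
  have hun := Rar_union (ι := ι d k q) hd hone (by
    refine le_trans ?_ hN
    refine mul_le_mul_of_nonneg_left ?_ (by positivity)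
    rcases Nat.eq_zero_or_pos (Fintype.card (ι d k q)) with h0 | h0
    · rw [h0, Nat.cast_zero, Real.log_zero]
      exact Real.log_nonneg (le_max_left _ _)
    · exact Real.log_le_log (by exact_mod_cast h0) ((hF d k q).trans (le_max_right _ _)))
  refine hun.mono ?_
  intro f _ hf
  exact not_forall.mp hf

end Pool.Agent.THR

end

/-! ### from `Lib_MP_2c424f_lc1.Defs` -/

section

/-!
# MP_2c424f_pr, corners in the linear regime, Part I (typicality on the torus): definitions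

Paper proof: `/team-store/typ_proof.md` (helper31) and Part I of `/team-store/lincor_proof.md`.
Every statement of `THR` is used with `ε = e3 = 1/1000`; `Rg d q` is the regime `1000 ≤ 2d/q ≤ 2000`, `q` even.
-/

set_option autoImplicit false

open Finset Filter

namespace Pool.Agent.LC

open Pool.Agent.LO Pool.Agent.LIN Pool.Agent.THR Pool.Agent.COR

/-- the parameter of `THR` -/
noncomputable def e3 : ℝ := 1 / 1000

open scoped Classical in
/-- number of elements with a property -/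
noncomputable def cn {α : Type} [Fintype α] (P : α → Prop) : ℝ := ((univ.filter P).card : ℝ)

/-- the property `B` of sites is rare at the level `K`: w.o.p. at most `N/d^K` sites have it -/
def SRK (K : ℕ) (B : ∀ d k q : ℕ, (Site d k → Fin q) → Site d k → Prop) : Prop :=
  WOP e3 fun d k q f => Rg d q → cn (B d k q f) ≤ NN d k / (d : ℝ) ^ K

/-- the property `B` of sites is rare at every level -/
def SR (B : ∀ d k q : ℕ, (Site d k → Fin q) → Site d k → Prop) : Prop := ∀ K : ℕ, SRK K B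

/-- a point of a closed block: block and bit vectors -/
abbrev Tpl (d k : ℕ) := Blk d k × Bt d × Bt d

/-- the property `B` of (block, point) is rare at the level `K` (torus of side `2^(k+1)`) -/
def TRK (K : ℕ) (B : ∀ d k q : ℕ, (Site d (k + 1) → Fin q) → Tpl d k → Prop) : Prop :=
  WOPb e3 fun d k q f => Rg d q → cn (B d k q f) ≤ 4 ^ d * NN d k / (d : ℝ) ^ K

/-- the site of a triple -/
def tp {d k : ℕ} (p : Tpl d k) : Site d (k + 1) := pt p.1 p.2.1 p.2.2

/-- `v` is reached from `u` by at most `r` steps -/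
def nr {d k : ℕ} : ℕ → Site d k → Site d k → Prop
  | 0, u, v => u = v
  | r + 1, u, v => nr r u v ∨ ∃ σ : Stp d, nr r (u + sv σ) v

section stats
variable {d k q : ℕ}

open scoped Classical in
/-- `1` if no neighbour of `x`, except `v`, has the colour `c` -/
noncomputable def zc (f : Site d k → Fin q) (x v : Site d k) (c : Fin q) : ℝ :=
  if ∀ τ : Stp d, x + sv τ ≠ v → f (x + sv τ) ≠ c then 1 else 0

/-- `∑_{x ~ v} 1[c not on N(x) \ v] / |R_x|`; equal to `hh c f v` if `f v ≠ c` -/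
noncomputable def hc (c : Fin q) (f : Site d k → Fin q) (v : Site d k) : ℝ :=
  ∑ σ : Stp d, zc f (v + sv σ) v c / (av f (v + sv σ) : ℝ)

open scoped Classical in
/-- number of neighbours of `v` with the colour `c` -/
noncomputable def nf (c : Fin q) (f : Site d k → Fin q) (v : Site d k) : ℝ :=
  ((univ.filter fun σ : Stp d => f (v + sv σ) = c).card : ℝ)

open scoped Classical in
/-- number of neighbours of `x`, except `v`, with the colour `c` -/
noncomputable def nfx (c : Fin q) (f : Site d k → Fin q) (x v : Site d k) : ℝ :=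
  ((univ.filter fun τ : Stp d => x + sv τ ≠ v ∧ f (x + sv τ) = c).card : ℝ)

/-- the mean-field value of the density of the colour `c` at the parity of `v`: `1+m` if `c` is used there -/
noncomputable def gm (A : Finset (Fin q)) (v : Site d k) (c : Fin q) : ℝ := by
  classical exact if tS evn A v c then 1 + ms d q else 1 - ms d q

/-- the mean-field value of `hh c f v`: `a(1-m)` if `c` is used at the parity of `v`, `a(1+m)` otherwise -/
noncomputable def hs (A : Finset (Fin q)) (v : Site d k) (c : Fin q) : ℝ := ra d q * (2 - gm A v c)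

/-- typical site relative to the set `A` of the even colours, precision `θ` -/
def TS (θ : ℝ) (A : Finset (Fin q)) (f : Site d k → Fin q) (v : Site d k) : Prop :=
  (∀ c, |hc c f v - hs A v c| ≤ θ) ∧ |(av f v : ℝ) / q - als (ra d q) (ms d q)| ≤ θ

/-- pinned site: the `t`-step averages of the colour densities have the mean-field values -/
def Pn (δ : ℝ) (t : ℕ) (A : Finset (Fin q)) (f : Site d k → Fin q) (v : Site d k) : Prop :=
  ∀ c, |PP^[t] (bq c f) v - gm A v c| ≤ δ

/-- the gradient of the `t`-step averages is large at `v` -/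
def Gb (C₄ : ℝ) (t : ℕ) (f : Site d k → Fin q) (v : Site d k) : Prop :=
  ∃ (c : Fin q) (σ τ : Stp d), C₄ / q < |PP^[t] (bq c f) (v + sv σ) - PP^[t] (bq c f) (v + sv τ)|

open scoped Classical in
/-- indicator -/
noncomputable def ind (P : Prop) : ℝ := if P then 1 else 0

end stats

/-! ## Block means for both parities -/

section block
variable {d k q : ℕ}

/-- odd (`e = false`) or even (`e = true`) pairs of bit vectors in the shape -/
noncomputable def pS (e : Bool) (s : Shp d) : Finset (Bt d × Bt d) := if e then eS s else oS s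

/-- mean over the odd or even points of the shape -/
noncomputable def Mp (e : Bool) (s : Shp d) (t : Blk d k) (φ : Site d (k + 1) → ℝ) : ℝ :=
  (∑ p ∈ pS e s, φ (pt t p.1 p.2)) / ((pS e s).card : ℝ)

/-- the colour `c` has the density `τ` at the odd points and `F τ` at the even points of the block -/
def tau2 (η m yM : ℝ) (c : Fin q) (f : Site d (k + 1) → Fin q) (t : Blk d k) : Prop :=
  ∃ τ : ℝ, (τ = 1 - m ∨ τ = yM ∨ τ = 1 + m) ∧ (∀ s, |Mp false s t (bq c f) - τ| ≤ η) ∧
    ∀ s, |Mp true s t (bq c f) - Fy (ra d q) m τ| ≤ η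

end block

end Pool.Agent.LC

end

/-! ### from `Lib_MP_2c424f_lc1.DDefs` -/

section

/-!
# LC1: definitions for the Jensen gap and the growth argument

`v` a site, `A` the set of the colours used at the even sites.
-/

set_option autoImplicit false

open Finset Filter

namespace Pool.Agent.LC

open Pool.Agent.LO Pool.Agent.LIN Pool.Agent.THR Pool.Agent.COR

/-- `r - 1 - log r` -/
noncomputable def Lm (r : ℝ) : ℝ := r - 1 - Real.log r

section
variable {d k q : ℕ}

/-- the value of `gm` at the sites at distance `s` of `v` -/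
noncomputable def gs (A : Finset (Fin q)) (v : Site d k) (s : ℕ) (c : Fin q) : ℝ := if Even s then gm A v c else 2 - gm A v c

/-- exceptional site: the local mean-field equation fails, or too many neighbours of one colour -/
def Xs (η : ℝ) (f : Site d k → Fin q) (u : Site d k) : Prop :=
  (∃ c : Fin q, η < |hc c f u - ra d q * PP (ya c f) u|) ∨ ∃ c : Fin q, η * d < nf c f u

/-- hypotheses at the level `s` -/
structure GapH (η : ℝ) (A : Finset (Fin q)) (f : Site d k → Fin q) (v : Site d k) (s : ℕ) : Prop where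
  y : ∀ c, |PP^[s] (ya c f) v - gs A v s c| ≤ η
  h : ∀ c, |PP^[s] (hh c f) v - ra d q * (2 - gs A v s c)| ≤ η
  e : 8 * (d : ℝ) ^ 2 * PP^[s] (fun u => ind (Xs η f u)) v ≤ η

/-- the Jensen gap -/
noncomputable def Gp (f : Site d k → Fin q) (v : Site d k) (s : ℕ) : ℝ :=
  PP^[s] (fun u => Real.log (al f u)) v - Real.log (als (ra d q) (ms d q))

end

end Pool.Agent.LC

end

/-! ### from `Lib_MP_2c424f_thr.T2c` -/

section

/-!
# THR T2c: covariances (paper proof: T3)

* `cov_zz`: `z_v z_w = ∏ over the union of the neighbour sets of 1[f_u ≠ c]`; mean `∏_{u in union} (1 - p_u)`, `p_u = z_u / x_u`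
  (`LIN.fm_prod`); `zt_v zt_w = ` the same times `∏_{common u} (1 - p_u)`; `1 - ∏ (1 - p) ≤ ∑ p`.
* `cmn_card` (side `≥ 8`): `σ - τ = w - v` determines `σ, τ` up to the exchange `(σ, opp τ)`.
* `not_nice`: union over the `2d` steps.
-/

set_option autoImplicit false

open Finset Filter

namespace Pool.Agent.THR

open Pool.Agent.LO Pool.Agent.LIN

variable {d k q : ℕ}

/-- common neighbours -/
noncomputable def cmn (v w : Site d k) : Finset (Site d k) :=
  (univ.image fun σ : Stp d => v + sv σ) ∩ (univ.image fun σ : Stp d => w + sv σ)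

/-- neighbours -/
private noncomputable def T2c_nb (v : Site d k) : Finset (Site d k) := univ.image fun σ : Stp d => v + sv σ

private theorem T2c_zz (h : Site d k → Fin q) (v : Site d k) (c : Fin q) :
    zz h v c = ∏ u ∈ T2c_nb v, (if h u = c then (0 : ℝ) else 1) := by
  unfold zz SS T2c_nb
  by_cases hc : c ∈ univ.image fun σ : Stp d => h (v + sv σ)
  · rw [if_pos hc]
    obtain ⟨σ, -, hσ⟩ := mem_image.1 hc
    symm
    apply Finset.prod_eq_zero (mem_image_of_mem _ (mem_univ σ))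
    exact if_pos hσ
  · rw [if_neg hc]
    refine (Finset.prod_eq_one fun u hu => if_neg fun hσ => hc ?_).symm
    obtain ⟨σ, -, rfl⟩ := mem_image.1 hu
    exact mem_image.2 ⟨σ, mem_univ σ, hσ⟩

private theorem T2c_union (h : Site d k → Fin q) (v w : Site d k) (c : Fin q) :
    zz h v c * zz h w c = ∏ u ∈ T2c_nb v ∪ T2c_nb w, (if h u = c then (0 : ℝ) else 1) := by
  rw [T2c_zz, T2c_zz]
  by_cases hc : ∃ u ∈ T2c_nb v ∪ T2c_nb w, h u = c
  · obtain ⟨u, hu, huc⟩ := hc
    have h0 : ∀ S : Finset (Site d k), u ∈ S → ∏ j ∈ S, (if h j = c then (0 : ℝ) else 1) = 0 :=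
      fun S hS => prod_eq_zero hS (if_pos huc)
    rw [h0 _ hu]
    rcases mem_union.1 hu with hu | hu
    · rw [h0 _ hu, zero_mul]
    · rw [mul_comm, h0 _ hu, zero_mul]
  · have h1 : ∀ S : Finset (Site d k), S ⊆ T2c_nb v ∪ T2c_nb w →
        ∏ j ∈ S, (if h j = c then (0 : ℝ) else 1) = 1 :=
      fun S hS => prod_eq_one fun j hj => if_neg fun hjc => hc ⟨j, hS hj, hjc⟩
    rw [h1 _ subset_rfl, h1 _ subset_union_left, h1 _ subset_union_right, mul_one]

/-- mean of a product of indicators of other colours -/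
theorem T2c_mean (hk : 1 ≤ k) (b : Bool) {f : Site d k → Fin q} (hf : Prp f) (U : Finset (Site d k))
    (hU : U ⊆ cls b d k) (c : Fin q) :
    fm b (fun h => ∏ u ∈ U, (if h u = c then (0 : ℝ) else 1)) f = ∏ u ∈ U, (1 - zz f u c / (av f u : ℝ)) := by
  refine (fm_prod hk b hf U hU
    (fun (_ : Site d k) (c' : Fin q) => if c' = c then (0 : ℝ) else 1)).trans ?_
  refine Finset.prod_congr rfl fun u _ => ?_
  have hcard : ((SS f u)ᶜ.card : ℝ) = av f u := by
    rw [Finset.card_compl, Fintype.card_fin]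
    rfl
  have h3 : (∑ c' ∈ (SS f u)ᶜ, (if c' = c then (0 : ℝ) else 1)) = av f u - zz f u c := by
    have h4 : ∀ c' ∈ (SS f u)ᶜ, (if c' = c then (0 : ℝ) else 1) =
        1 - (if c' = c then (1 : ℝ) else 0) := by
      intro c' _
      split_ifs <;> norm_num
    rw [Finset.sum_congr rfl h4, Finset.sum_sub_distrib, Finset.sum_const, nsmul_eq_mul, mul_one,
      hcard, Finset.sum_ite_eq']
    congr 1
    unfold zz
    by_cases hc : c ∈ SS f u
    · rw [if_neg (by simpa using hc), if_pos hc]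
    · rw [if_pos (by simpa using hc), if_neg hc]
  have hav : (av f u : ℝ) ≠ 0 := by
    have h5 := av_pos hf u
    have h6 : (1 : ℝ) ≤ av f u := by exact_mod_cast h5
    linarith
  rw [h3, sub_div, div_self hav]

private theorem T2c_prod {ι : Type*} (s : Finset ι) (p : ι → ℝ) (h0 : ∀ i, 0 ≤ p i) (h1 : ∀ i, p i ≤ 1) :
    0 ≤ ∏ i ∈ s, (1 - p i) ∧ ∏ i ∈ s, (1 - p i) ≤ 1 ∧ 1 - ∏ i ∈ s, (1 - p i) ≤ ∑ i ∈ s, p i := by
  classical
  induction s using Finset.induction_on with
  | empty => simp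
  | insert a s ha ih =>
    obtain ⟨ih0, ih1, ih2⟩ := ih
    rw [prod_insert ha, sum_insert ha]
    have h2 := h0 a
    have h3 := h1 a
    refine ⟨mul_nonneg (by linarith) ih0, ?_, ?_⟩
    · nlinarith [mul_nonneg h2 ih0]
    · nlinarith [mul_nonneg h2 (sub_nonneg.2 ih1)]

private theorem T2c_zt (hk : 2 ≤ k) (f : Site d k → Fin q) (v : Site d k) (c : Fin q) :
    zt f v c = ∏ u ∈ T2c_nb v, (1 - zz f u c / (av f u : ℝ)) := by
  unfold T2c_nb zt
  rw [prod_image fun σ _ σ' _ h => sv_inj hk (add_left_cancel h)]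

theorem cov_zz (hk : 2 ≤ k) (b : Bool) {f : Site d k → Fin q} (hf : Prp f) (v w : Site d k) (hv : v ∈ cls b d k)
    (hw : w ∈ cls b d k) (c : Fin q) :
    zt f v c * zt f w c ≤ fm (!b) (fun h => zz h v c * zz h w c) f ∧
      fm (!b) (fun h => zz h v c * zz h w c) f ≤ zt f v c * zt f w c + ∑ u ∈ cmn v w, zz f u c / (av f u : ℝ) := by
  have hstep : ∀ v ∈ cls b d k, T2c_nb v ⊆ cls (!b) d k := by
    intro v hv u hu
    obtain ⟨σ, -, rfl⟩ := mem_image.1 hu
    rw [mem_cls_step (by omega), Bool.not_not]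
    exact hv
  have h1 : fm (!b) (fun h => zz h v c * zz h w c) f =
      ∏ u ∈ T2c_nb v ∪ T2c_nb w, (1 - zz f u c / (av f u : ℝ)) := by
    rw [show (fun h : Site d k → Fin q => zz h v c * zz h w c) =
      fun h => ∏ u ∈ T2c_nb v ∪ T2c_nb w, (if h u = c then (0 : ℝ) else 1) from
      funext fun h => T2c_union h v w c]
    exact T2c_mean (by omega) (!b) hf _ (union_subset (hstep v hv) (hstep w hw)) c
  have h2 : zt f v c * zt f w c = (∏ u ∈ T2c_nb v ∪ T2c_nb w, (1 - zz f u c / (av f u : ℝ))) *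
      ∏ u ∈ cmn v w, (1 - zz f u c / (av f u : ℝ)) := by
    rw [T2c_zt hk, T2c_zt hk]
    exact (prod_union_inter).symm
  have h3 := T2c_prod (T2c_nb v ∪ T2c_nb w) (fun u => zz f u c / (av f u : ℝ))
    (fun u => (zz_av_le hf u c).1) (fun u => (zz_av_le hf u c).2)
  have h4 := T2c_prod (cmn v w) (fun u => zz f u c / (av f u : ℝ))
    (fun u => (zz_av_le hf u c).1) (fun u => (zz_av_le hf u c).2)
  rw [h1, h2]
  obtain ⟨h30, h31, -⟩ := h3
  obtain ⟨h40, h41, h42⟩ := h4
  constructor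
  · nlinarith [mul_nonneg h30 (sub_nonneg.2 h41)]
  · nlinarith [mul_nonneg (sub_nonneg.2 h31) (sub_nonneg.2 h41)]

theorem cmn_card (hk : 3 ≤ k) (v w : Site d k) (h : v ≠ w) : (cmn v w).card ≤ 2 := by
  have h1 := two_steps (d := d) hk (w - v) (sub_ne_zero.2 (Ne.symm h))
  refine le_trans ?_ h1
  have hsub : cmn v w ⊆ (univ.filter fun p : Stp d × Stp d =>
      (sv p.1 : Site d k) + sv p.2 = w - v).image fun p => v + sv p.1 := by
    intro u hu
    obtain ⟨h2, h3⟩ := mem_inter.1 hu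
    obtain ⟨σ, -, rfl⟩ := mem_image.1 h2
    obtain ⟨τ, -, h4⟩ := mem_image.1 h3
    refine mem_image.2 ⟨(σ, (τ.1, !τ.2)), mem_filter.2 ⟨mem_univ _, ?_⟩, rfl⟩
    have h5 : (sv τ : Site d k) + sv (τ.1, !τ.2) = 0 := sv_opp τ.1 τ.2
    have h6 : (sv (τ.1, !τ.2) : Site d k) = - sv τ := eq_neg_of_add_eq_zero_right h5
    have h7 : (sv σ : Site d k) = w + sv τ - v := by rw [h4]; abel
    show (sv σ : Site d k) + sv (τ.1, !τ.2) = w - v
    rw [h6, h7]
    abel
  exact (card_le_card hsub).trans card_image_le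

open scoped Classical in
/-- number of sites which are not nice -/
theorem not_nice (ε : ℝ) (f : Site d k → Fin q) :
    ((univ.filter fun v : Site d k => ¬ Nc ε f v).card : ℝ) ≤ 2 * d * irr ε f := by
  have hsub : (univ.filter fun v : Site d k => ¬ Nc ε f v) ⊆
      (univ : Finset (Stp d)).biUnion fun σ => univ.filter fun v : Site d k => ¬ Rg ε f (v + sv σ) := by
    intro v hv
    have h1 := (mem_filter.1 hv).2
    unfold Nc at h1
    rw [not_forall] at h1
    obtain ⟨σ, hσ⟩ := h1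
    exact mem_biUnion.2 ⟨σ, mem_univ _, mem_filter.2 ⟨mem_univ _, hσ⟩⟩
  have hc : ∀ σ : Stp d, (univ.filter fun v : Site d k => ¬ Rg ε f (v + sv σ)).card =
      (univ.filter fun v : Site d k => (av f v : ℝ) < c1 ε * q).card := by
    intro σ
    refine card_bij (fun v _ => v + sv σ) ?_ ?_ ?_
    · intro v hv
      have h1 := (mem_filter.1 hv).2
      unfold Rg at h1
      exact mem_filter.2 ⟨mem_univ _, not_le.1 h1⟩
    · intro v _ w _ hvw
      exact add_right_cancel hvw
    · intro u hu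
      have h1 := (mem_filter.1 hu).2
      refine ⟨u - sv σ, mem_filter.2 ⟨mem_univ _, ?_⟩, sub_add_cancel _ _⟩
      unfold Rg
      rw [sub_add_cancel]
      exact not_le.2 h1
  have h1 : (univ.filter fun v : Site d k => ¬ Nc ε f v).card ≤
      2 * d * (univ.filter fun v : Site d k => (av f v : ℝ) < c1 ε * q).card := by
    refine (card_le_card hsub).trans (card_biUnion_le.trans ?_)
    rw [sum_congr rfl fun σ _ => hc σ, sum_const, smul_eq_mul, card_univ, Fintype.card_prod,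
      Fintype.card_fin, Fintype.card_bool, mul_comm d 2]
  unfold irr
  exact_mod_cast h1

end Pool.Agent.THR

end

/-! ### from `Lib_MP_2c424f_thr.S2` -/

section

/-!
# THR S2: colours not used by the neighbours which are not frozen (paper proof: S2, S3)

`v` in the class `b`; the neighbours `u = v + sv σ` are in the class `!b`, `av f u` depends on the class `b` only.
* `Vn_mean`: `Vn h v = ∑_c ∏_{σ : av ≠ 1} 1[h (v+σ) ≠ c]` on the fibre; mean `∑_c ∏_{σ : av ≥ 2} (1 - z/x)` (`fm_prod`),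
  `1 - t ≥ 4^(-t)` for `0 ≤ t ≤ 1/2`, so `≥ ∑_c 4^(-s_c)`, `∑_c s_c ≤ 2d` (`sum_zz_av`); convexity: `≥ q 4^(-2d/q)`.
* `Vn_lip`: changing one colour of the fibre changes `Vn h v` by at most `1`, and by `0` if the site is no neighbour.
* `Vn_tail`: `LIN.mcdiarmid` for `-l Vn` with `2d` coordinates of influence `l`: with `s = q 4^(-a)/2`:
  `P (Vn - mean ≤ -s) ≤ exp (-l s + 2 d l²)`, `l = s/(4d) ≤ 1`: `exp (-s²/(8d))`, `s ≥ ε d 4^(-A0)/2`, so
  `≤ exp (-ρ d)`, `ρ = ε² 16^(-A0) / 32`.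
* `Bd_few`: `WOPi_tail` for `Ψ f = |Bd b f|`, `κ = 2` (`2 d ≤ d²`), mean `≤ N exp (-ρ d) ≤ N/(2 d^K)`.
-/

set_option autoImplicit false

open Finset Filter

namespace Pool.Agent.THR

open Pool.Agent.LO Pool.Agent.LIN

private theorem S2_four {t : ℝ} (h0 : 0 ≤ t) (h1 : t ≤ 1 / 2) : (4 : ℝ) ^ (-t) ≤ 1 - t := by
  have h2 := rpow_one_add_le_one_add_mul_self (s := -(1 / 2 : ℝ)) (by norm_num) (p := 2 * t)
    (by linarith) (by linarith)
  have h3 : (4 : ℝ) ^ (-t) = (1 + -(1 / 2 : ℝ)) ^ (2 * t) := by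
    rw [Real.rpow_mul (by norm_num), Real.rpow_two, Real.rpow_neg (by norm_num),
      ← Real.inv_rpow (by norm_num)]
    norm_num
  rw [h3]
  linarith

private theorem S2_jensen {q : ℕ} (hq : 1 ≤ q) (s : Fin q → ℝ) (D : ℝ) (hs : ∑ c, s c ≤ D) :
    q * (4 : ℝ) ^ (-(D / q)) ≤ ∑ c, (4 : ℝ) ^ (-s c) := by
  have h4 : 0 < Real.log 4 := Real.log_pos (by norm_num)
  have hq0 : (0 : ℝ) < q := by exact_mod_cast hq
  have h1 : ∀ c, (4 : ℝ) ^ (-(D / q)) * (1 + Real.log 4 * (D / q - s c)) ≤ (4 : ℝ) ^ (-s c) := by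
    intro c
    have h2 : (4 : ℝ) ^ (-s c) = (4 : ℝ) ^ (-(D / q)) * (4 : ℝ) ^ (D / q - s c) := by
      rw [← Real.rpow_add (by norm_num)]
      congr 1
      ring
    rw [h2]
    refine mul_le_mul_of_nonneg_left ?_ (by positivity)
    rw [Real.rpow_def_of_pos (by norm_num)]
    have h3 := Real.add_one_le_exp (Real.log 4 * (D / q - s c))
    linarith
  refine le_trans ?_ (sum_le_sum fun c _ => h1 c)
  rw [← mul_sum, mul_comm]
  refine mul_le_mul_of_nonneg_left ?_ (by positivity)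
  rw [sum_add_distrib, ← mul_sum, sum_sub_distrib]
  simp only [sum_const, card_univ, Fintype.card_fin, nsmul_eq_mul, mul_one]
  rw [mul_div_cancel₀ D hq0.ne']
  nlinarith [mul_nonneg h4.le (sub_nonneg.2 hs)]

private theorem S2_step {d k : ℕ} (hk : 1 ≤ k) (b : Bool) {v : Site d k} (hv : v ∈ cls b d k) (σ : Stp d) :
    v + sv σ ∈ cls (!b) d k := by
  rw [mem_cls_step hk, Bool.not_not]
  exact hv

private theorem S2_avf {d k q : ℕ} (hk : 1 ≤ k) (b : Bool) {f h : Site d k → Fin q} (hh : h ∈ fib (!b) f)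
    {v : Site d k} (hv : v ∈ cls b d k) (σ : Stp d) : av h (v + sv σ) = av f (v + sv σ) := by
  unfold av
  rw [fib_SS hk (!b) hh _ (S2_step hk b hv σ)]

private theorem S2_Vn {d k q : ℕ} (hk : 1 ≤ k) (b : Bool) {f h : Site d k → Fin q} (hh : h ∈ fib (!b) f)
    {v : Site d k} (hv : v ∈ cls b d k) :
    (Vn h v : ℝ) = ∑ c : Fin q, ∏ u ∈ (univ.image fun σ : Stp d => v + sv σ).filter (fun u => av f u ≠ 1),
      (if h u = c then (0 : ℝ) else 1) := by
  classical
  unfold Vn
  rw [card_filter, Nat.cast_sum]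
  refine sum_congr rfl fun c _ => ?_
  split_ifs with hc
  · rw [Nat.cast_one]
    refine (prod_eq_one fun u hu => if_neg fun huc => ?_).symm
    obtain ⟨h1, h2⟩ := mem_filter.1 hu
    obtain ⟨σ, -, rfl⟩ := mem_image.1 h1
    exact h2 ((S2_avf hk b hh hv σ).symm.trans (hc σ huc))
  · rw [Nat.cast_zero]
    rw [not_forall] at hc
    obtain ⟨σ, hσ⟩ := hc
    rw [Classical.not_imp] at hσ
    have h1 : v + sv σ ∈ (univ.image fun σ : Stp d => v + sv σ).filter (fun u : Site d k => av f u ≠ 1) := by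
      refine mem_filter.2 ⟨mem_image_of_mem _ (mem_univ σ), ?_⟩
      rw [← S2_avf hk b hh hv σ]
      exact hσ.2
    have h2 : (if h (v + sv σ) = c then (0 : ℝ) else 1) = 0 := if_pos hσ.1
    exact (prod_eq_zero (f := fun u : Site d k => if h u = c then (0 : ℝ) else 1) h1 h2).symm

theorem Vn_mean {d k q : ℕ} (hd : 1 ≤ d) (hk : 2 ≤ k) (hq : 1 ≤ q) (b : Bool) {f : Site d k → Fin q} (hf : Prp f)
    (v : Site d k) (hv : v ∈ cls b d k) : q * (4 : ℝ) ^ (-ra d q) ≤ fm (!b) (fun h => (Vn h v : ℝ)) f := by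
  have _ := hd
  have hk1 : 1 ≤ k := by omega
  obtain ⟨U, hU⟩ : ∃ U : Finset (Site d k),
      U = (univ.image fun σ : Stp d => v + sv σ).filter (fun u => av f u ≠ 1) := ⟨_, rfl⟩
  have hUc : U ⊆ cls (!b) d k := by
    intro u hu
    rw [hU] at hu
    obtain ⟨σ, -, rfl⟩ := mem_image.1 (mem_filter.1 hu).1
    exact S2_step hk1 b hv σ
  have hUcard : (U.card : ℝ) ≤ 2 * d := by
    have h1 : U.card ≤ 2 * d := by
      rw [hU]
      refine (card_le_card (filter_subset _ _)).trans (card_image_le.trans ?_)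
      rw [card_univ, Fintype.card_prod, Fintype.card_fin, Fintype.card_bool, mul_comm]
    exact_mod_cast h1
  have h1 : fm (!b) (fun h => (Vn h v : ℝ)) f = ∑ c : Fin q, ∏ u ∈ U, (1 - zz f u c / (av f u : ℝ)) := by
    rw [fm_congr (!b) (G := fun h => ∑ c : Fin q, ∏ u ∈ U, (if h u = c then (0 : ℝ) else 1))
      fun h hh => by rw [hU]; exact S2_Vn hk1 b hh hv, fm_sum]
    exact sum_congr rfl fun c _ => T2c_mean hk1 (!b) hf U hUc c
  have h2 : ∀ c : Fin q, (4 : ℝ) ^ (-∑ u ∈ U, zz f u c / (av f u : ℝ)) ≤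
      ∏ u ∈ U, (1 - zz f u c / (av f u : ℝ)) := by
    intro c
    rw [← sum_neg_distrib, Real.rpow_sum_of_pos (by norm_num)]
    refine prod_le_prod (fun u _ => by positivity) fun u hu => S2_four (zz_av_le hf u c).1 ?_
    rw [hU] at hu
    have h3 := (mem_filter.1 hu).2
    have h4 := av_pos hf u
    have h5 : (2 : ℝ) ≤ av f u := by exact_mod_cast (by omega : 2 ≤ av f u)
    have h6 : zz f u c ≤ 1 := by
      unfold zz
      split_ifs <;> norm_num
    rw [div_le_iff₀ (by linarith)]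
    linarith
  have h3 : ∑ c : Fin q, ∑ u ∈ U, zz f u c / (av f u : ℝ) ≤ 2 * d := by
    rw [sum_comm, sum_congr rfl fun u _ => sum_zz_av hf u, sum_const, nsmul_eq_mul, mul_one]
    exact hUcard
  rw [h1]
  refine le_trans ?_ (sum_le_sum fun c _ => h2 c)
  exact S2_jensen hq _ _ h3

private theorem S2_SS {d k q : ℕ} (hk : 1 ≤ k) (b : Bool) (h : Site d k → Fin q) {u w : Site d k}
    (hu : u ∈ cls b d k) (hw : w ∈ cls b d k) (γ : Fin q) : SS (Function.update h u γ) w = SS h w := by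
  unfold SS
  refine image_congr fun σ _ => ?_
  have h1 : w + sv σ ≠ u := by
    intro he
    have h2 := (mem_cls_step hk b w σ).1 (he ▸ hu)
    exact (cls_not b w).1 h2 hw
  exact Function.update_of_ne h1 _ _

private theorem S2_one {d k q : ℕ} (h h' : Site d k → Fin q) (v u : Site d k) (he : ∀ x, x ≠ u → h' x = h x)
    (hav : ∀ σ : Stp d, av h' (v + sv σ) = av h (v + sv σ)) : Vn h v ≤ Vn h' v + 1 := by
  classical
  unfold Vn
  refine (card_le_card ?_).trans (card_insert_le (h' u) _)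
  intro c hc
  rw [mem_insert, or_iff_not_imp_left]
  intro hcu
  rw [mem_filter] at hc ⊢
  refine ⟨mem_univ _, fun σ hσ => ?_⟩
  rw [hav]
  apply hc.2 σ
  by_cases hx : v + sv σ = u
  · rw [hx] at hσ
    exact absurd hσ.symm hcu
  · rw [← he _ hx]
    exact hσ

private theorem S2_zero {d k q : ℕ} (h h' : Site d k → Fin q) (v : Site d k)
    (he : ∀ σ : Stp d, h' (v + sv σ) = h (v + sv σ))
    (hav : ∀ σ : Stp d, av h' (v + sv σ) = av h (v + sv σ)) : Vn h' v = Vn h v := by
  classical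
  unfold Vn
  congr 1
  refine filter_congr fun c _ => ?_
  exact forall_congr' fun σ => by rw [he σ, hav σ]

private theorem S2_av {d k q : ℕ} (hk : 1 ≤ k) (b : Bool) (h : Site d k → Fin q) {v u : Site d k}
    (hv : v ∈ cls b d k) (hu : u ∈ cls (!b) d k) (γ : Fin q) (σ : Stp d) :
    av (Function.update h u γ) (v + sv σ) = av h (v + sv σ) := by
  unfold av
  rw [S2_SS hk (!b) h hu (S2_step hk b hv σ) γ]

open scoped Classical in
private theorem S2_lip {d k q : ℕ} (hk : 1 ≤ k) (b : Bool) (h : Site d k → Fin q)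
    {v : Site d k} (hv : v ∈ cls b d k) {u : Site d k} (hu : u ∈ cls (!b) d k) (γ : Fin q) :
    |(Vn (Function.update h u γ) v : ℝ) - Vn h v| ≤ if ∃ σ : Stp d, v + sv σ = u then 1 else 0 := by
  have hav := fun σ : Stp d => S2_av hk b h hv hu γ σ
  split_ifs with hn
  · have h1 := S2_one h (Function.update h u γ) v u (fun x hx => Function.update_of_ne hx _ _) hav
    have h2 := S2_one (Function.update h u γ) h v u (fun x hx => (Function.update_of_ne hx _ _).symm)
      fun σ => (hav σ).symm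
    have h1' : (Vn h v : ℝ) ≤ Vn (Function.update h u γ) v + 1 := by exact_mod_cast h1
    have h2' : (Vn (Function.update h u γ) v : ℝ) ≤ Vn h v + 1 := by exact_mod_cast h2
    rw [abs_le]
    constructor <;> linarith
  · rw [S2_zero h (Function.update h u γ) v (fun σ => Function.update_of_ne (fun he => hn ⟨σ, he⟩) _ _) hav,
      sub_self, abs_zero]

open scoped Classical in
theorem Vn_lip {d k q : ℕ} (hk : 2 ≤ k) (b : Bool) {f h : Site d k → Fin q} (hf : Prp f) (hh : h ∈ fib (!b) f)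
    (v : Site d k) (hv : v ∈ cls b d k) (u : Site d k) (hu : u ∈ cls (!b) d k) (γ : Fin q) (hγ : γ ∉ SS f u) :
    |(Vn (Function.update h u γ) v : ℝ) - Vn h v| ≤ if ∃ σ : Stp d, v + sv σ = u then 1 else 0 := by
  have _ := hf
  have _ := hh
  have _ := hγ
  exact S2_lip (by omega) b h hv hu γ

private theorem S2_nbr {d k : ℕ} (v : Site d k) (P : Site d k → Prop) [DecidablePred P]
    (hP : ∀ x, P x → ∃ σ : Stp d, v + sv σ = x) : (univ.filter P).card ≤ 2 * d := by
  have h1 : univ.filter P ⊆ univ.image fun σ : Stp d => v + sv σ := by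
    intro x hx
    obtain ⟨σ, hσ⟩ := hP x (mem_filter.1 hx).2
    exact mem_image.2 ⟨σ, mem_univ _, hσ⟩
  refine (card_le_card h1).trans (card_image_le.trans ?_)
  rw [card_univ, Fintype.card_prod, Fintype.card_fin, Fintype.card_bool, mul_comm]

private theorem S2_exp {d k q : ℕ} (hk : 1 ≤ k) (b : Bool) {f : Site d k → Fin q} (hf : Prp f) {v : Site d k}
    (hv : v ∈ cls b d k) {l : ℝ} (hl0 : 0 ≤ l) (hl : l ≤ 1) :
    fm (!b) (fun h => Real.exp (-(l * (Vn h v : ℝ)))) f ≤
      Real.exp (-(l * fm (!b) (fun h => (Vn h v : ℝ)) f) + 2 * d * l ^ 2) := by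
  classical
  obtain ⟨t, ht⟩ : ∃ t : Site d k → Finset (Fin q),
      t = fun x => if x ∈ cls (!b) d k then (SS f x)ᶜ else {f x} := ⟨_, rfl⟩
  have hfib : fib (!b) f = Fintype.piFinset t := by
    rw [ht]
    unfold fib
    congr 1
  have hne : ∀ x, (t x).Nonempty := by
    intro x
    refine ⟨f x, ?_⟩
    rw [ht]
    show f x ∈ (if x ∈ cls (!b) d k then (SS f x)ᶜ else {f x})
    split_ifs
    · rw [mem_compl]
      intro hx
      obtain ⟨σ, -, hσ⟩ := mem_image.1 hx
      exact hf x σ hσ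
    · exact mem_singleton_self _
  have hm := mcdiarmid t hne (fun h => -(l * (Vn h v : ℝ)))
    (fun x => if ∃ σ : Stp d, v + sv σ = x then l else 0)
    (fun x => by split_ifs <;> linarith) (fun x => by split_ifs <;> linarith) (by
      intro h hh x a ha
      by_cases hx : x ∈ cls (!b) d k
      · have h1 := S2_lip hk b h hv hx a
        have h2 : |(-(l * (Vn (Function.update h x a) v : ℝ))) - -(l * (Vn h v : ℝ))| =
            l * |(Vn (Function.update h x a) v : ℝ) - Vn h v| := by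
          rw [show -(l * (Vn (Function.update h x a) v : ℝ)) - -(l * (Vn h v : ℝ)) =
            l * -((Vn (Function.update h x a) v : ℝ) - Vn h v) by ring, abs_mul, abs_neg, abs_of_nonneg hl0]
        rw [h2]
        refine (mul_le_mul_of_nonneg_left h1 hl0).trans ?_
        split_ifs <;> simp
      · have h1 : ∀ g ∈ t x, g = f x := by
          intro g hg
          rw [ht] at hg
          have hg' : g ∈ (if x ∈ cls (!b) d k then (SS f x)ᶜ else {f x}) := hg
          rw [if_neg hx, mem_singleton] at hg'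
          exact hg'
        have h2 : Function.update h x a = h := by
          rw [h1 a ha, ← h1 _ (Fintype.mem_piFinset.1 hh x)]
          exact Function.update_eq_self x h
        rw [h2, sub_self, abs_zero]
        split_ifs
        · exact hl0
        · exact le_refl _)
  have hcard : (0 : ℝ) < ((fib (!b) f).card : ℝ) := by
    exact_mod_cast card_pos.2 ⟨f, fib_self (!b) hf⟩
  have hsq : ∑ x : Site d k, (if ∃ σ : Stp d, v + sv σ = x then l else 0) ^ 2 ≤ 2 * d * l ^ 2 := by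
    have h1 : ∀ x : Site d k, (if ∃ σ : Stp d, v + sv σ = x then l else 0) ^ 2 =
        if ∃ σ : Stp d, v + sv σ = x then l ^ 2 else 0 := by
      intro x
      split_ifs <;> simp
    rw [sum_congr rfl fun x _ => h1 x, ← sum_filter, sum_const, nsmul_eq_mul]
    refine mul_le_mul_of_nonneg_right ?_ (by positivity)
    exact_mod_cast S2_nbr v (fun x => ∃ σ : Stp d, v + sv σ = x) fun x hx => hx
  rw [← hfib] at hm
  have hmean : (∑ h ∈ fib (!b) f, -(l * (Vn h v : ℝ))) / ((fib (!b) f).card : ℝ) =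
      -(l * fm (!b) (fun h => (Vn h v : ℝ)) f) := by
    unfold fm
    rw [sum_neg_distrib, ← mul_sum, neg_div, mul_div_assoc]
  rw [hmean] at hm
  unfold fm at hm ⊢
  rw [div_le_iff₀ hcard, mul_comm]
  refine hm.trans (mul_le_mul_of_nonneg_left (Real.exp_le_exp.2 ?_) hcard.le)
  linarith

open scoped Classical in
theorem Vn_tail {ε : ℝ} (hε : 0 < ε) (hε1 : ε ≤ 1) : ∃ ρ : ℝ, 0 < ρ ∧ EvT ε fun d k q => ∀ (b : Bool),
    ∀ f ∈ prps d k q, ∀ v ∈ cls b d k,
      fm (!b) (fun h => if (Vn h v : ℝ) < q * (4 : ℝ) ^ (-ra d q) / 2 then (1 : ℝ) else 0) f ≤ Real.exp (-(ρ * d)) := by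
  refine ⟨ε ^ 2 * ((4 : ℝ) ^ (-A0 ε)) ^ 2 / 32, by positivity, (EvT_reg hε hε1 2).mono ?_⟩
  rintro d k q ⟨hd2, hq2, hk2, hqd, hqd2, -, hra, -⟩ b f hf v hv
  have hd : 2 ≤ d := by exact_mod_cast hd2
  have hq : 2 ≤ q := by exact_mod_cast hq2
  have hk : 2 ≤ k := by exact_mod_cast hk2
  have hd0 : (0 : ℝ) < d := by linarith
  have hq0 : (0 : ℝ) < q := by linarith
  have hP : Prp f := (mem_filter.1 hf).2
  obtain ⟨s, hs⟩ : ∃ s : ℝ, s = q * (4 : ℝ) ^ (-ra d q) / 2 := ⟨_, rfl⟩
  have hra0 : 0 ≤ ra d q := by unfold ra; positivity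
  have hs0 : 0 < s := by rw [hs]; positivity
  have h41 : (4 : ℝ) ^ (-ra d q) ≤ 1 := Real.rpow_le_one_of_one_le_of_nonpos (by norm_num) (by linarith)
  have hs1 : s ≤ 4 * d := by
    rw [hs]
    have h1 : (q : ℝ) * (4 : ℝ) ^ (-ra d q) ≤ q := by nlinarith
    nlinarith
  have hs2 : ε * d * (4 : ℝ) ^ (-A0 ε) / 2 ≤ s := by
    rw [hs]
    have h1 : (4 : ℝ) ^ (-A0 ε) ≤ (4 : ℝ) ^ (-ra d q) :=
      Real.rpow_le_rpow_of_exponent_le (by norm_num) (by linarith)
    have h2 : (0 : ℝ) < (4 : ℝ) ^ (-A0 ε) := by positivity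
    have h3 : ε * d * (4 : ℝ) ^ (-A0 ε) ≤ q * (4 : ℝ) ^ (-ra d q) :=
      mul_le_mul hqd h1 h2.le hq0.le
    linarith
  have hl0 : 0 ≤ s / (4 * d) := by positivity
  have hl1 : s / (4 * d) ≤ 1 := by
    rw [div_le_one (by positivity)]
    exact hs1
  have h1 := S2_exp (by omega) b hP hv hl0 hl1
  have h2 := Vn_mean (by omega) hk (by omega) b hP v hv
  rw [← hs]
  calc fm (!b) (fun h => if (Vn h v : ℝ) < s then (1 : ℝ) else 0) f ≤
        fm (!b) (fun h => Real.exp (s / (4 * d) * s) * Real.exp (-(s / (4 * d) * (Vn h v : ℝ)))) f := by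
        refine fm_mono (!b) hP fun h _ => ?_
        split_ifs with hlt
        · rw [← Real.exp_add]
          refine Real.one_le_exp ?_
          nlinarith [mul_nonneg hl0 (sub_nonneg.2 hlt.le)]
        · positivity
    _ = Real.exp (s / (4 * d) * s) * fm (!b) (fun h => Real.exp (-(s / (4 * d) * (Vn h v : ℝ)))) f :=
        fm_mul _ _ _ _
    _ ≤ Real.exp (s / (4 * d) * s) *
          Real.exp (-(s / (4 * d) * fm (!b) (fun h => (Vn h v : ℝ)) f) + 2 * d * (s / (4 * d)) ^ 2) :=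
        mul_le_mul_of_nonneg_left h1 (Real.exp_pos _).le
    _ ≤ Real.exp (-(ε ^ 2 * ((4 : ℝ) ^ (-A0 ε)) ^ 2 / 32 * d)) := by
        rw [← Real.exp_add]
        refine Real.exp_le_exp.2 ?_
        have h3 : s / (4 * d) * (2 * s) ≤ s / (4 * d) * fm (!b) (fun h => (Vn h v : ℝ)) f :=
          mul_le_mul_of_nonneg_left (by rw [hs]; linarith) hl0
        have h4 : s / (4 * d) * s + (-(s / (4 * d) * (2 * s)) + 2 * d * (s / (4 * d)) ^ 2) =
            -(s ^ 2 / (8 * d)) := by
          field_simp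
          ring
        have h5 : ε ^ 2 * ((4 : ℝ) ^ (-A0 ε)) ^ 2 / 32 * d ≤ s ^ 2 / (8 * d) := by
          rw [le_div_iff₀ (by positivity)]
          have h6 : (0 : ℝ) ≤ ε * d * (4 : ℝ) ^ (-A0 ε) / 2 := by positivity
          have h7 := mul_self_le_mul_self h6 hs2
          nlinarith
        linarith

private theorem S2_Bd {d k q : ℕ} (hk : 1 ≤ k) (b : Bool) (h h' : Site d k → Fin q) (u : Site d k)
    (hu : u ∈ cls (!b) d k) (he : ∀ v ∈ cls b d k, (¬ ∃ σ : Stp d, v + sv σ = u) → Vn h' v = Vn h v) :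
    (Bd b h).card ≤ (Bd b h').card + 2 * d := by
  classical
  have _ := hk
  have _ := hu
  have h1 : Bd b h ⊆ Bd b h' ∪ univ.image fun σ : Stp d => u - sv σ := by
    intro v hv
    rw [mem_union]
    by_cases hn : ∃ σ : Stp d, v + sv σ = u
    · right
      obtain ⟨σ, hσ⟩ := hn
      exact mem_image.2 ⟨σ, mem_univ _, by rw [← hσ, add_sub_cancel_right]⟩
    · left
      unfold Bd at hv ⊢
      rw [mem_filter] at hv ⊢
      refine ⟨hv.1, ?_⟩
      rw [he v hv.1 hn]
      exact hv.2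
  refine (card_le_card h1).trans ((card_union_le _ _).trans ?_)
  refine Nat.add_le_add_left (card_image_le.trans ?_) _
  rw [card_univ, Fintype.card_prod, Fintype.card_fin, Fintype.card_bool, mul_comm]

theorem Bd_few {ε : ℝ} (hε : 0 < ε) (hε1 : ε ≤ 1) (K : ℕ) :
    WOP ε fun d k q f => ∀ b : Bool, ((Bd b f).card : ℝ) ≤ NN d k / (d : ℝ) ^ K := by
  classical
  obtain ⟨ρ, hρ, htail⟩ := Vn_tail hε hε1
  have hexp : ∀ᶠ d : ℕ in atTop, Real.exp (-(ρ * d)) ≤ 1 / (d : ℝ) ^ K := by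
    have h1 := Real.tendsto_pow_mul_exp_neg_atTop_nhds_zero K
    have h2 : Tendsto (fun d : ℕ => ρ * (d : ℝ)) atTop atTop :=
      tendsto_natCast_atTop_atTop.const_mul_atTop hρ
    have h3 := (h1.comp h2).eventually (eventually_le_nhds (pow_pos hρ K))
    filter_upwards [h3, eventually_ge_atTop 1] with d hd hd1
    have hd0 : (0 : ℝ) < d := by exact_mod_cast hd1
    have h4 : (ρ * (d : ℝ)) ^ K * Real.exp (-(ρ * d)) ≤ ρ ^ K := hd
    rw [le_div_iff₀ (by positivity)]
    rw [mul_pow] at h4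
    have h5 : ρ ^ K * (Real.exp (-(ρ * d)) * (d : ℝ) ^ K) ≤ ρ ^ K * 1 := by linarith
    exact le_of_mul_le_mul_left h5 (by positivity)
  have hw := WOPi_tail hε hε1 (fun _ _ _ => Bool) (fun _ _ _ i => !i) (fun _ _ _ _ => True)
    (fun d k q i f => ((Bd i f).card : ℝ)) 2 (K + 1) (by
      refine (EvT_reg hε hε1 2).mono ?_
      rintro d k q ⟨hd2, -, hk2, -⟩ i _ f hf h hh u hu γ hγ
      have hd : 2 ≤ d := by exact_mod_cast hd2
      have hk : 2 ≤ k := by exact_mod_cast hk2
      have hz : ∀ v ∈ cls i d k, (¬ ∃ σ : Stp d, v + sv σ = u) → Vn (Function.update h u γ) v = Vn h v :=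
        fun v hv hn => S2_zero h (Function.update h u γ) v
          (fun σ => Function.update_of_ne (fun he => hn ⟨σ, he⟩) _ _)
          fun σ => S2_av (by omega) i h hv hu γ σ
      have h1 := S2_Bd (by omega) i h (Function.update h u γ) u hu hz
      have h2 := S2_Bd (by omega) i (Function.update h u γ) h u hu fun v hv hn => (hz v hv hn).symm
      have h1' : ((Bd i h).card : ℝ) ≤ (Bd i (Function.update h u γ)).card + 2 * d := by exact_mod_cast h1
      have h2' : ((Bd i (Function.update h u γ)).card : ℝ) ≤ (Bd i h).card + 2 * d := by exact_mod_cast h2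
      have h3 : 2 * (d : ℝ) ≤ (d : ℝ) ^ 2 := by nlinarith
      show |((Bd i (Function.update h u γ)).card : ℝ) - ((Bd i h).card : ℝ)| ≤ (d : ℝ) ^ 2
      rw [abs_le]
      constructor <;> linarith)
  have h2 : WOPi ε (fun _ _ _ => Bool) fun d k q i f => ((Bd i f).card : ℝ) ≤ NN d k / (d : ℝ) ^ K := by
    refine WOPi.mono hw ((htail.and ((EvT_reg hε hε1 2).and (EvT_d hexp))).mono ?_)
    rintro d k q ⟨ht, ⟨hd2, -, hk2, -⟩, he⟩ i f hf hP
    have hd : 2 ≤ d := by exact_mod_cast hd2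
    have hk : 2 ≤ k := by exact_mod_cast hk2
    have hd0 : (0 : ℝ) < d := by linarith
    have hN : 0 < NN d k := by unfold NN; positivity
    have hPrp : Prp f := (mem_filter.1 hf).2
    have h3 := hP trivial
    have h4 : fm (!i) (fun f => ((Bd i f).card : ℝ)) f ≤ NN d k / 2 * (1 / (d : ℝ) ^ K) := by
      have h5 : (fun h : Site d k → Fin q => ((Bd i h).card : ℝ)) =
          fun h => ∑ v ∈ cls i d k, if (Vn h v : ℝ) < q * (4 : ℝ) ^ (-ra d q) / 2 then (1 : ℝ) else 0 := by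
        funext h
        unfold Bd
        rw [card_filter, Nat.cast_sum]
        refine sum_congr rfl fun v _ => ?_
        split_ifs <;> simp
      rw [h5, fm_sum]
      calc ∑ v ∈ cls i d k, fm (!i) (fun h => if (Vn h v : ℝ) < q * (4 : ℝ) ^ (-ra d q) / 2 then (1 : ℝ) else 0) f
          ≤ ∑ _v ∈ cls i d k, 1 / (d : ℝ) ^ K :=
            sum_le_sum fun v hv => (ht i f hf v hv).trans he
        _ = NN d k / 2 * (1 / (d : ℝ) ^ K) := by
            rw [sum_const, nsmul_eq_mul, card_cls (by omega) (by omega) i]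
    have h6 : NN d k / (d : ℝ) ^ (K + 1) ≤ NN d k / 2 * (1 / (d : ℝ) ^ K) := by
      rw [show NN d k / 2 * (1 / (d : ℝ) ^ K) = NN d k / (2 * (d : ℝ) ^ K) by
        field_simp, pow_succ]
      refine div_le_div_of_nonneg_left hN.le (by positivity) ?_
      have h8 : (0 : ℝ) < (d : ℝ) ^ K := by positivity
      nlinarith
    have h7 : NN d k / (d : ℝ) ^ K = NN d k / 2 * (1 / (d : ℝ) ^ K) + NN d k / 2 * (1 / (d : ℝ) ^ K) := by
      ring
    show ((Bd i f).card : ℝ) ≤ NN d k / (d : ℝ) ^ K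
    rw [h7]
    linarith
  exact WOPi.all h2 (fun _ _ => 2) fun _ _ _ => by simp

end Pool.Agent.THR

end

/-! ### from `Lib_MP_2c424f_thr.B2a` -/

section

/-!
# THR B2a: Efron-Stein inequality on the odd half of the cube (paper proof: B2)

* `es_bits`: `G : (Fin n → Bool) → ℝ` (or any finite index type of bits), uniform measure: variance `≤ (1/4) ∑_i mean |G (flip_i ω) - G ω|²`
  (Efron-Stein / Poincaré inequality of the cube; induction on `n`, or: the variance is `(1/2)` mean over independent `ω, ω'` of the squared difference, replace the bits one by one ...; the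
  induction is the simplest: conditional variance given the first bit plus the variance of the conditional mean, which is `(1/4) (mean G(1,·) - mean G(0,·))²`, then Jensen).
* `es_odd`: the odd pairs `(a,b) ∈ Bt d × Bt d` are parametrised by `a` and the bits `b i`, `i ≠ l`: the bit `b l` is determined by the parity.  Flipping one of the free bits means
  flipping this bit and `b l`.
-/

set_option autoImplicit false

open Finset Filter

namespace Pool.Agent.THR

open Pool.Agent.LO Pool.Agent.LIN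

private theorem b2a_sum_succ {n : ℕ} (G : Bt (n + 1) → ℝ) :
    ∑ a, G a = ∑ a : Bt n, G (Fin.cons false a) + ∑ a : Bt n, G (Fin.cons true a) := by
  have h : ∑ a, G a = ∑ p : Bool × Bt n, G (Fin.cons p.1 p.2) := by
    refine (Fintype.sum_equiv (Fin.insertNthEquiv (fun _ : Fin (n + 1) => Bool) 0) _ _ ?_).symm
    intro p
    congr 1
    simp only [Fin.insertNthEquiv, Equiv.coe_fn_mk, Fin.insertNth_zero']
  rw [h, Fintype.sum_prod_type, Fintype.sum_bool, add_comm]

private theorem b2a_flp_zero {n : ℕ} (b : Bool) (a : Bt n) :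
    flp (Fin.cons b a : Bt (n + 1)) 0 = Fin.cons (!b) a := by
  unfold flp
  rw [Fin.cons_zero, Fin.update_cons_zero]

private theorem b2a_flp_succ {n : ℕ} (b : Bool) (a : Bt n) (j : Fin n) :
    flp (Fin.cons b a : Bt (n + 1)) j.succ = Fin.cons b (flp a j) := by
  unfold flp
  rw [Fin.cons_succ, Fin.cons_update]

/-- Efron-Stein on the cube -/
private theorem b2a_es (n : ℕ) (G : Bt n → ℝ) :
    2 ^ n * (∑ a, G a ^ 2) - (∑ a, G a) ^ 2 ≤
      1 / 4 * (2 ^ n * ∑ j, ∑ a, (G (flp a j) - G a) ^ 2) := by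
  induction n with
  | zero =>
    simp
  | succ n ih =>
    have i0 := ih (fun a => G (Fin.cons false a))
    have i1 := ih (fun a => G (Fin.cons true a))
    have hcs : (∑ a : Bt n, (G (Fin.cons false a) - G (Fin.cons true a))) ^ 2 ≤
        2 ^ n * ∑ a : Bt n, (G (Fin.cons false a) - G (Fin.cons true a)) ^ 2 := by
      have h := sq_sum_le_card_mul_sum_sq (s := (Finset.univ : Finset (Bt n)))
        (f := fun a => G (Fin.cons false a) - G (Fin.cons true a))
      rw [Finset.card_univ, Fintype.card_fun, Fintype.card_bool, Fintype.card_fin] at h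
      push_cast at h
      exact h
    rw [Finset.sum_sub_distrib] at hcs
    rw [b2a_sum_succ, b2a_sum_succ, Fin.sum_univ_succ]
    simp_rw [b2a_sum_succ]
    simp_rw [b2a_flp_zero, b2a_flp_succ]
    simp only [Bool.not_false, Bool.not_true]
    rw [Finset.sum_add_distrib]
    have h2 : ∑ a : Bt n, (G (Fin.cons true a) - G (Fin.cons false a)) ^ 2 =
        ∑ a : Bt n, (G (Fin.cons false a) - G (Fin.cons true a)) ^ 2 := by
      refine Finset.sum_congr rfl fun a _ => ?_
      ring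
    rw [h2]
    rw [pow_succ (2 : ℝ) n]
    nlinarith

theorem es_bits {ι : Type*} [Fintype ι] [DecidableEq ι] (G : (ι → Bool) → ℝ) :
    (∑ ω, G ω ^ 2) / 2 ^ Fintype.card ι - ((∑ ω, G ω) / 2 ^ Fintype.card ι) ^ 2 ≤
      1 / 4 * ∑ i, (∑ ω, (G (Function.update ω i (!ω i)) - G ω) ^ 2) / 2 ^ Fintype.card ι := by
  classical
  set n := Fintype.card ι with hn
  let e : ι ≃ Fin n := Fintype.equivFin ι
  let E : Bt n ≃ (ι → Bool) := ⟨fun a i => a (e i), fun ω j => ω (e.symm j), fun a => by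
    funext j; simp, fun ω => by funext i; simp⟩
  have hE : ∀ H : (ι → Bool) → ℝ, ∑ a : Bt n, H (E a) = ∑ ω, H ω := fun H => Equiv.sum_comp E H
  have hflip : ∀ (a : Bt n) (i : ι), E (flp a (e i)) = Function.update (E a) i (!(E a) i) := by
    intro a i
    funext j
    by_cases h : j = i
    · subst h
      simp [E, flp]
    · simp [E, flp, h]
  have key := b2a_es n (fun a => G (E a))
  have e1 : ∑ a : Bt n, G (E a) ^ 2 = ∑ ω, G ω ^ 2 := hE fun ω => G ω ^ 2
  have e2 : ∑ a : Bt n, G (E a) = ∑ ω, G ω := hE G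
  have e3 : ∑ j, ∑ a : Bt n, (G (E (flp a j)) - G (E a)) ^ 2 =
      ∑ i, ∑ ω, (G (Function.update ω i (!ω i)) - G ω) ^ 2 := by
    rw [← Equiv.sum_comp e]
    refine Finset.sum_congr rfl fun i _ => ?_
    rw [← hE fun ω => (G (Function.update ω i (!ω i)) - G ω) ^ 2]
    refine Finset.sum_congr rfl fun a _ => ?_
    rw [hflip]
  simp only [e1, e2, e3] at key
  have hpos : (0 : ℝ) < 2 ^ n := by positivity
  rw [← Finset.sum_div]
  set S2 := ∑ ω, G ω ^ 2
  set S1 := ∑ ω, G ω
  set D := ∑ i, ∑ ω, (G (Function.update ω i (!ω i)) - G ω) ^ 2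
  have f1 : S2 / 2 ^ n - (S1 / 2 ^ n) ^ 2 = (2 ^ n * S2 - S1 ^ 2) / (2 ^ n * 2 ^ n) := by
    field_simp
  have f2 : 1 / 4 * (D / 2 ^ n) = (1 / 4 * (2 ^ n * D)) / (2 ^ n * 2 ^ n) := by
    field_simp
  rw [f1, f2]
  gcongr

private theorem b2a_flp_flp {d : ℕ} (a : Bt d) (i : Fin d) : flp (flp a i) i = a := by
  unfold flp
  simp

private theorem b2a_od_flp {d : ℕ} (a b : Bt d) (i : Fin d) : od (flp a i) b ↔ ¬ od a b := by
  unfold od
  by_cases h : a i = b i
  · have h1 : (univ.filter fun r => flp a i r ≠ b r) = insert i (univ.filter fun r => a r ≠ b r) := by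
      ext r
      simp only [Finset.mem_filter, Finset.mem_univ, true_and, Finset.mem_insert]
      by_cases hr : r = i
      · subst hr
        simp [flp, h]
      · simp [flp, hr]
    rw [h1, Finset.card_insert_of_notMem (by simp [h]), Nat.odd_add_one]
  · have h1 : (univ.filter fun r => a r ≠ b r) = insert i (univ.filter fun r => flp a i r ≠ b r) := by
      ext r
      simp only [Finset.mem_filter, Finset.mem_univ, true_and, Finset.mem_insert]
      by_cases hr : r = i
      · subst hr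
        simp [h]
      · simp [flp, hr]
    have h2 : flp a i i = b i := by
      simp only [flp, Function.update_self]
      cases ha : a i <;> cases hb : b i <;> simp_all
    rw [h1, Finset.card_insert_of_notMem (by simp [h2]), Nat.odd_add_one, not_not]

private theorem b2a_od_comm {d : ℕ} (a b : Bt d) : od a b ↔ od b a := by
  unfold od
  have : (univ.filter fun r => a r ≠ b r) = univ.filter fun r => b r ≠ a r := by
    ext r
    simp [ne_comm]
  rw [this]

private theorem b2a_od_flp' {d : ℕ} (a b : Bt d) (i : Fin d) : od a (flp b i) ↔ ¬ od a b := by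
  rw [b2a_od_comm, b2a_od_flp, b2a_od_comm]

private theorem b2a_mem {d : ℕ} (p : Bt d × Bt d) : p ∈ oS (d := d) none ↔ od p.1 p.2 := by
  simp [oS, inS]

/-- free bits of an odd pair -/
private abbrev B2aK {d : ℕ} (l : Fin d) := Fin d ⊕ {i : Fin d // i ≠ l}

/-- restriction to the free bits -/
private def b2aR {d : ℕ} (l : Fin d) (p : Bt d × Bt d) : B2aK l → Bool :=
  Sum.elim p.1 fun i => p.2 i.1

/-- extension by the bit `false` -/
private def b2aB {d : ℕ} (l : Fin d) (ω : B2aK l → Bool) : Bt d :=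
  fun i => if h : i ≠ l then ω (Sum.inr ⟨i, h⟩) else false

open scoped Classical in
/-- the odd pair with given free bits -/
private noncomputable def b2aE {d : ℕ} (l : Fin d) (ω : B2aK l → Bool) : Bt d × Bt d :=
  (fun i => ω (Sum.inl i),
    if od (fun i => ω (Sum.inl i)) (b2aB l ω) then b2aB l ω else flp (b2aB l ω) l)

private theorem b2aE_mem {d : ℕ} (l : Fin d) (ω : B2aK l → Bool) : b2aE l ω ∈ oS (d := d) none := by
  rw [b2a_mem]
  unfold b2aE
  dsimp only
  split_ifs with h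
  · exact h
  · rw [b2a_od_flp']
    exact h

private theorem b2aR_E {d : ℕ} (l : Fin d) (ω : B2aK l → Bool) : b2aR l (b2aE l ω) = ω := by
  funext x
  rcases x with i | i
  · rfl
  · have hi : b2aB l ω i.1 = ω (Sum.inr i) := by
      unfold b2aB
      rw [dif_pos i.2]
    unfold b2aR b2aE
    simp only [Sum.elim_inr]
    split_ifs with h
    · exact hi
    · unfold flp
      rw [Function.update_of_ne i.2]
      exact hi

private theorem b2aE_R {d : ℕ} (l : Fin d) (p : Bt d × Bt d) (hp : p ∈ oS (d := d) none) :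
    b2aE l (b2aR l p) = p := by
  rw [b2a_mem] at hp
  have hB : b2aB l (b2aR l p) = Function.update p.2 l false := by
    funext i
    unfold b2aB b2aR
    by_cases h : i = l
    · subst h
      simp
    · simp [h]
  have h1 : (fun i => b2aR l p (Sum.inl i)) = p.1 := by
    funext i
    rfl
  unfold b2aE
  rw [h1, hB]
  refine Prod.ext rfl ?_
  dsimp only
  cases hl : p.2 l
  · have h2 : Function.update p.2 l false = p.2 := by
      rw [← hl, Function.update_eq_self]
    rw [h2, if_pos hp]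
  · have h2 : Function.update p.2 l false = flp p.2 l := by
      unfold flp
      rw [hl]
      rfl
    rw [h2, if_neg (by rw [b2a_od_flp']; exact not_not.2 hp), b2a_flp_flp]

private theorem b2a_sum {d : ℕ} (l : Fin d) (H : Bt d × Bt d → ℝ) :
    ∑ ω : B2aK l → Bool, H (b2aE l ω) = ∑ p ∈ oS (d := d) none, H p := by
  classical
  refine Finset.sum_nbij' (b2aE l) (b2aR l) (fun ω _ => b2aE_mem l ω) (fun p _ => Finset.mem_univ _)
    (fun ω _ => b2aR_E l ω) (fun p hp => b2aE_R l p hp) fun ω _ => rfl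

private theorem b2a_flip_inl {d : ℕ} (l : Fin d) (ω : B2aK l → Bool) (i : Fin d) :
    b2aE l (Function.update ω (Sum.inl i) (!ω (Sum.inl i))) =
      (flp (b2aE l ω).1 i, flp (b2aE l ω).2 l) := by
  have hm := b2aE_mem l ω
  rw [b2a_mem] at hm
  have hm2 : ((flp (b2aE l ω).1 i, flp (b2aE l ω).2 l) : Bt d × Bt d) ∈ oS (d := d) none := by
    rw [b2a_mem]
    dsimp only
    rw [b2a_od_flp, b2a_od_flp', not_not]
    exact hm
  rw [← b2aE_R l _ hm2]
  congr 1
  have hR := b2aR_E l ω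
  funext x
  rcases x with j | j
  · have h1 : (b2aE l ω).1 = fun i => ω (Sum.inl i) := rfl
    unfold b2aR
    simp only [Sum.elim_inl]
    rw [h1]
    unfold flp
    by_cases h : j = i
    · subst h
      simp
    · have h' : (Sum.inl j : B2aK l) ≠ Sum.inl i := fun hh => h (Sum.inl.inj hh)
      rw [Function.update_of_ne h', Function.update_of_ne h]
  · have h1 : (b2aE l ω).2 j.1 = ω (Sum.inr j) := by
      have := congrFun hR (Sum.inr j)
      exact this
    unfold b2aR
    simp only [Sum.elim_inr]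
    unfold flp
    rw [Function.update_of_ne j.2, h1, Function.update_of_ne (by simp)]

private theorem b2a_flip_inr {d : ℕ} (l : Fin d) (ω : B2aK l → Bool) (i : {i : Fin d // i ≠ l}) :
    b2aE l (Function.update ω (Sum.inr i) (!ω (Sum.inr i))) =
      ((b2aE l ω).1, flp (flp (b2aE l ω).2 i.1) l) := by
  have hm := b2aE_mem l ω
  rw [b2a_mem] at hm
  have hm2 : (((b2aE l ω).1, flp (flp (b2aE l ω).2 i.1) l) : Bt d × Bt d) ∈ oS (d := d) none := by
    rw [b2a_mem]
    dsimp only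
    rw [b2a_od_flp', b2a_od_flp', not_not]
    exact hm
  rw [← b2aE_R l _ hm2]
  congr 1
  have hR := b2aR_E l ω
  funext x
  rcases x with j | j
  · have h1 : (b2aE l ω).1 = fun i => ω (Sum.inl i) := rfl
    unfold b2aR
    simp only [Sum.elim_inl]
    rw [h1, Function.update_of_ne (by simp)]
  · have h1 : ∀ j : {i : Fin d // i ≠ l}, (b2aE l ω).2 j.1 = ω (Sum.inr j) := by
      intro j
      have := congrFun hR (Sum.inr j)
      exact this
    unfold b2aR
    simp only [Sum.elim_inr]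
    unfold flp
    rw [Function.update_of_ne j.2]
    by_cases h : j = i
    · subst h
      rw [Function.update_self, Function.update_self, h1]
    · have h' : (Sum.inr j : B2aK l) ≠ Sum.inr i := fun hh => h (Sum.inr.inj hh)
      have h'' : j.1 ≠ i.1 := fun hh => h (Subtype.ext hh)
      rw [Function.update_of_ne h', Function.update_of_ne h'', h1]

theorem es_odd {d : ℕ} (hd : 2 ≤ d) (l : Fin d) (G : Bt d → Bt d → ℝ) :
    (∑ p ∈ oS (d := d) none, G p.1 p.2 ^ 2) / ((oS (d := d) none).card : ℝ) -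
        ((∑ p ∈ oS (d := d) none, G p.1 p.2) / ((oS (d := d) none).card : ℝ)) ^ 2 ≤
      1 / 4 * (∑ i, (∑ p ∈ oS (d := d) none, (G (flp p.1 i) (flp p.2 l) - G p.1 p.2) ^ 2) / ((oS (d := d) none).card : ℝ) +
        ∑ i ∈ univ.erase l, (∑ p ∈ oS (d := d) none, (G p.1 (flp (flp p.2 i) l) - G p.1 p.2) ^ 2) /
          ((oS (d := d) none).card : ℝ)) := by
  classical
  have hcard : ((oS (d := d) none).card : ℝ) = 2 ^ Fintype.card (B2aK l) := by
    have h := b2a_sum l fun _ => (1 : ℝ)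
    simp only [Finset.sum_const, Finset.card_univ, Fintype.card_fun, Fintype.card_bool, nsmul_eq_mul, mul_one] at h
    rw [← h]
    push_cast
    rfl
  have key := es_bits (ι := B2aK l) fun ω => G (b2aE l ω).1 (b2aE l ω).2
  rw [← hcard] at key
  have e1 := b2a_sum l fun p => G p.1 p.2 ^ 2
  have e2 := b2a_sum l fun p => G p.1 p.2
  have e3 : ∀ i : Fin d, ∑ ω : B2aK l → Bool,
      (G (b2aE l (Function.update ω (Sum.inl i) (!ω (Sum.inl i)))).1
        (b2aE l (Function.update ω (Sum.inl i) (!ω (Sum.inl i)))).2 - G (b2aE l ω).1 (b2aE l ω).2) ^ 2 =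
      ∑ p ∈ oS (d := d) none, (G (flp p.1 i) (flp p.2 l) - G p.1 p.2) ^ 2 := by
    intro i
    rw [← b2a_sum l fun p => (G (flp p.1 i) (flp p.2 l) - G p.1 p.2) ^ 2]
    refine Finset.sum_congr rfl fun ω _ => ?_
    rw [b2a_flip_inl]
  have e4 : ∀ i : {i : Fin d // i ≠ l}, ∑ ω : B2aK l → Bool,
      (G (b2aE l (Function.update ω (Sum.inr i) (!ω (Sum.inr i)))).1
        (b2aE l (Function.update ω (Sum.inr i) (!ω (Sum.inr i)))).2 - G (b2aE l ω).1 (b2aE l ω).2) ^ 2 =
      ∑ p ∈ oS (d := d) none, (G p.1 (flp (flp p.2 i.1) l) - G p.1 p.2) ^ 2 := by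
    intro i
    rw [← b2a_sum l fun p => (G p.1 (flp (flp p.2 i.1) l) - G p.1 p.2) ^ 2]
    refine Finset.sum_congr rfl fun ω _ => ?_
    rw [b2a_flip_inr]
  rw [Fintype.sum_sum_type] at key
  simp only [e3, e4] at key
  rw [e1, e2] at key
  have e5 : ∑ i ∈ univ.erase l, (∑ p ∈ oS (d := d) none, (G p.1 (flp (flp p.2 i) l) - G p.1 p.2) ^ 2) /
          ((oS (d := d) none).card : ℝ) =
      ∑ i : {i : Fin d // i ≠ l}, (∑ p ∈ oS (d := d) none, (G p.1 (flp (flp p.2 i.1) l) - G p.1 p.2) ^ 2) /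
          ((oS (d := d) none).card : ℝ) := by
    refine Finset.sum_subtype _ (fun i => ?_) _
    simp
  rw [e5]
  exact key

end Pool.Agent.THR

end

/-! ### from `Lib_MP_2c424f_thr.B2` -/

section

/-!
# THR B2: variance in the blocks (paper proof: B2)

`es_odd` for `G a b = φ (pt t a b)` and some fixed direction `l`.  By `LO.pt_flp`, `pt t (flp a i) (flp b l) = pt t a b + sv (i, !a i) + sv (l, !b l)`, and
`pt t a (flp (flp b i) l) = pt t a b + sv (i, !b i) + sv (l, !b l)` for `i ≠ l`.  So every squared difference is at most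
`∑_{β,β'} (φ (x + sv (i,β) + sv (l,β')) - φ x)²`, `x = pt t a b`, and by `LO.sum_pt`
`∑_t ∑_{a,b} (..) ≤ 2^d ∑_{β,β'} ∑_x (φ (x + sv (i,β) + sv (l,β')) - φ x)²`; with `y = x + sv (l,β')`, `x = y + sv (l, !β')` this is `2^d · 4 · D N'`, `N' = NN d (k+1) = 2^d NN d k`.
Total: `(1/4) · (2/4^d) · 2d · 2^d · 4 · D · 2^d NN d k = 4 d D NN d k`.
-/

set_option autoImplicit false

open Finset Filter

namespace Pool.Agent.THR

open Pool.Agent.LO Pool.Agent.LIN

/-- all squared differences over two steps in the directions `i`, `l` -/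
private noncomputable def B2_Q {d k : ℕ} (φ : Site d (k + 1) → ℝ) (i l : Fin d) (x : Site d (k + 1)) : ℝ :=
  ∑ β : Bool, ∑ β' : Bool, (φ (x + sv (i, β) + sv (l, β')) - φ x) ^ 2

private theorem B2_Q_nonneg {d k : ℕ} (φ : Site d (k + 1) → ℝ) (i l : Fin d) (x : Site d (k + 1)) :
    0 ≤ B2_Q φ i l x :=
  Finset.sum_nonneg fun _ _ => Finset.sum_nonneg fun _ _ => sq_nonneg _

private theorem B2_Q_ge {d k : ℕ} (φ : Site d (k + 1) → ℝ) (i l : Fin d) (x : Site d (k + 1)) (β β' : Bool) :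
    (φ (x + sv (i, β) + sv (l, β')) - φ x) ^ 2 ≤ B2_Q φ i l x := by
  unfold B2_Q
  refine le_trans ?_ (Finset.single_le_sum (f := fun β : Bool =>
    ∑ β' : Bool, (φ (x + sv (i, β) + sv (l, β')) - φ x) ^ 2) (fun _ _ => Finset.sum_nonneg fun _ _ => sq_nonneg _)
    (Finset.mem_univ β))
  exact Finset.single_le_sum (f := fun β' : Bool => (φ (x + sv (i, β) + sv (l, β')) - φ x) ^ 2)
    (fun _ _ => sq_nonneg _) (Finset.mem_univ β')

private theorem B2_sv {d k : ℕ} (l : Fin d) (β : Bool) : (sv (l, β) : Site d k) + sv (l, !β) = 0 := by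
  unfold sv
  rw [← Pi.single_add]
  cases β <;> simp

private theorem B2_Q_sum {d k : ℕ} (D : ℝ) (φ : Site d (k + 1) → ℝ)
    (h : ∀ σ τ : Stp d, ∑ x : Site d (k + 1), (φ (x + sv σ) - φ (x + sv τ)) ^ 2 ≤ D * NN d (k + 1)) (i l : Fin d) :
    ∑ x : Site d (k + 1), B2_Q φ i l x ≤ 4 * (D * NN d (k + 1)) := by
  unfold B2_Q
  rw [Finset.sum_comm]
  have h1 : ∀ β β' : Bool, ∑ x : Site d (k + 1), (φ (x + sv (i, β) + sv (l, β')) - φ x) ^ 2 ≤ D * NN d (k + 1) := by
    intro β β'
    rw [← Equiv.sum_comp (Equiv.addRight (sv (l, !β') : Site d (k + 1)))]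
    refine le_trans (le_of_eq ?_) (h (i, β) (l, !β'))
    refine Finset.sum_congr rfl fun x _ => ?_
    have h2 : (Equiv.addRight (sv (l, !β') : Site d (k + 1))) x = x + sv (l, !β') := rfl
    rw [h2]
    have h3 : x + sv (l, !β') + sv (i, β) + sv (l, β') = x + sv (i, β) := by
      have h4 := B2_sv (k := k + 1) l β'
      calc x + sv (l, !β') + sv (i, β) + sv (l, β') = x + sv (i, β) + (sv (l, β') + sv (l, !β')) := by abel
        _ = x + sv (i, β) := by rw [h4, add_zero]
    rw [h3]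
  calc ∑ β : Bool, ∑ x : Site d (k + 1), ∑ β' : Bool, (φ (x + sv (i, β) + sv (l, β')) - φ x) ^ 2
      = ∑ β : Bool, ∑ β' : Bool, ∑ x : Site d (k + 1), (φ (x + sv (i, β) + sv (l, β')) - φ x) ^ 2 :=
        Finset.sum_congr rfl fun β _ => Finset.sum_comm
    _ ≤ ∑ _β : Bool, ∑ _β' : Bool, D * NN d (k + 1) :=
        Finset.sum_le_sum fun β _ => Finset.sum_le_sum fun β' _ => h1 β β'
    _ = 4 * (D * NN d (k + 1)) := by
        simp only [Fintype.sum_bool]
        ring

private theorem B2_all {d k : ℕ} (F : Site d (k + 1) → ℝ) (hF : ∀ x, 0 ≤ F x) (t : Blk d k) :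
    ∑ p ∈ oS (d := d) none, F (pt t p.1 p.2) ≤ ∑ a : Bt d, ∑ b : Bt d, F (pt t a b) := by
  rw [← Fintype.sum_prod_type' (f := fun a b => F (pt t a b))]
  exact Finset.sum_le_sum_of_subset_of_nonneg (Finset.subset_univ _) fun p _ _ => hF _

theorem var_blocks {d k : ℕ} (hd : 2 ≤ d) (hk : 1 ≤ k) (D : ℝ) (φ : Site d (k + 1) → ℝ)
    (h : ∀ σ τ : Stp d, ∑ x : Site d (k + 1), (φ (x + sv σ) - φ (x + sv τ)) ^ 2 ≤ D * NN d (k + 1)) :
    ∑ t : Blk d k, (Ms none t (fun x => φ x ^ 2) - Ms none t φ ^ 2) ≤ 4 * d * D * NN d k := by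
  classical
  let l : Fin d := ⟨0, by omega⟩
  have hS : ((oS (d := d) none).card : ℝ) = (4 : ℝ) ^ d / 2 := by
    rw [oS_card hd none, if_pos rfl]
  have hS0 : (0 : ℝ) < (4 : ℝ) ^ d / 2 := by positivity
  -- one block
  have h1 : ∀ t : Blk d k, Ms none t (fun x => φ x ^ 2) - Ms none t φ ^ 2 ≤
      1 / 4 * (∑ i, (∑ a : Bt d, ∑ b : Bt d, B2_Q φ i l (pt t a b)) / ((4 : ℝ) ^ d / 2) +
        ∑ i, (∑ a : Bt d, ∑ b : Bt d, B2_Q φ i l (pt t a b)) / ((4 : ℝ) ^ d / 2)) := by
    intro t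
    have e := es_odd hd l (fun a b => φ (pt t a b))
    rw [hS] at e
    have e0 : Ms none t (fun x => φ x ^ 2) - Ms none t φ ^ 2 =
        (∑ p ∈ oS (d := d) none, φ (pt t p.1 p.2) ^ 2) / ((4 : ℝ) ^ d / 2) -
          ((∑ p ∈ oS (d := d) none, φ (pt t p.1 p.2)) / ((4 : ℝ) ^ d / 2)) ^ 2 := by
      unfold Ms
      rw [hS]
    rw [e0]
    refine le_trans e ?_
    apply mul_le_mul_of_nonneg_left _ (by norm_num)
    have hA : ∀ i : Fin d, (∑ p ∈ oS (d := d) none, (φ (pt t (flp p.1 i) (flp p.2 l)) - φ (pt t p.1 p.2)) ^ 2) /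
        ((4 : ℝ) ^ d / 2) ≤ (∑ a : Bt d, ∑ b : Bt d, B2_Q φ i l (pt t a b)) / ((4 : ℝ) ^ d / 2) := by
      intro i
      apply div_le_div_of_nonneg_right _ hS0.le
      refine le_trans ?_ (B2_all (B2_Q φ i l) (B2_Q_nonneg φ i l) t)
      refine Finset.sum_le_sum fun p _ => ?_
      have e1 : pt t (flp p.1 i) (flp p.2 l) = pt t p.1 p.2 + sv (i, !p.1 i) + sv (l, !p.2 l) := by
        rw [(pt_flp t p.1 (flp p.2 l) i).1, (pt_flp t p.1 p.2 l).2]
        abel
      rw [e1]
      exact B2_Q_ge φ i l _ _ _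
    have hB : ∀ i ∈ univ.erase l, (∑ p ∈ oS (d := d) none,
        (φ (pt t p.1 (flp (flp p.2 i) l)) - φ (pt t p.1 p.2)) ^ 2) /
        ((4 : ℝ) ^ d / 2) ≤ (∑ a : Bt d, ∑ b : Bt d, B2_Q φ i l (pt t a b)) / ((4 : ℝ) ^ d / 2) := by
      intro i hi
      apply div_le_div_of_nonneg_right _ hS0.le
      refine le_trans ?_ (B2_all (B2_Q φ i l) (B2_Q_nonneg φ i l) t)
      refine Finset.sum_le_sum fun p _ => ?_
      have e1 : pt t p.1 (flp (flp p.2 i) l) = pt t p.1 p.2 + sv (i, !p.2 i) + sv (l, !(flp p.2 i) l) := by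
        rw [(pt_flp t p.1 (flp p.2 i) l).2, (pt_flp t p.1 p.2 i).2]
      rw [e1]
      exact B2_Q_ge φ i l _ _ _
    refine add_le_add (Finset.sum_le_sum fun i _ => hA i) ?_
    refine le_trans (Finset.sum_le_sum hB) ?_
    apply Finset.sum_le_sum_of_subset_of_nonneg (Finset.erase_subset _ _)
    intro i _ _
    exact div_nonneg (Finset.sum_nonneg fun a _ => Finset.sum_nonneg fun b _ => B2_Q_nonneg φ i l _) hS0.le
  -- sum over the blocks
  have h2 : ∀ i : Fin d, ∑ t : Blk d k, (∑ a : Bt d, ∑ b : Bt d, B2_Q φ i l (pt t a b)) / ((4 : ℝ) ^ d / 2) ≤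
      8 * D * NN d k := by
    intro i
    rw [← Finset.sum_div, div_le_iff₀ hS0]
    have e := sum_pt (d := d) (k := k) (fun x _ => B2_Q φ i l x)
    rw [e]
    have e2 : ∑ x : Site d (k + 1), ∑ _b : Bt d, B2_Q φ i l x = 2 ^ d * ∑ x : Site d (k + 1), B2_Q φ i l x := by
      rw [Finset.mul_sum]
      refine Finset.sum_congr rfl fun x _ => ?_
      rw [Finset.sum_const, Finset.card_univ, nsmul_eq_mul, Fintype.card_fun, Fintype.card_bool, Fintype.card_fin]
      push_cast
      ring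
    rw [e2]
    have e3 := mul_le_mul_of_nonneg_left (B2_Q_sum D φ h i l) (by positivity : (0 : ℝ) ≤ 2 ^ d)
    refine le_trans e3 (le_of_eq ?_)
    rw [NN_succ]
    have e4 : (4 : ℝ) ^ d = 2 ^ d * 2 ^ d := by
      rw [← mul_pow]
      norm_num
    rw [e4]
    ring
  calc ∑ t : Blk d k, (Ms none t (fun x => φ x ^ 2) - Ms none t φ ^ 2)
      ≤ ∑ t : Blk d k, 1 / 4 * (∑ i, (∑ a : Bt d, ∑ b : Bt d, B2_Q φ i l (pt t a b)) / ((4 : ℝ) ^ d / 2) +
        ∑ i, (∑ a : Bt d, ∑ b : Bt d, B2_Q φ i l (pt t a b)) / ((4 : ℝ) ^ d / 2)) :=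
        Finset.sum_le_sum fun t _ => h1 t
    _ = 1 / 2 * ∑ i, ∑ t : Blk d k, (∑ a : Bt d, ∑ b : Bt d, B2_Q φ i l (pt t a b)) / ((4 : ℝ) ^ d / 2) := by
        rw [← Finset.mul_sum, Finset.sum_add_distrib, Finset.sum_comm]
        ring
    _ ≤ 1 / 2 * ∑ _i : Fin d, 8 * D * NN d k := by
        apply mul_le_mul_of_nonneg_left (Finset.sum_le_sum fun i _ => h2 i) (by norm_num)
    _ = 4 * d * D * NN d k := by
        rw [Finset.sum_const, Finset.card_univ, Fintype.card_fin, nsmul_eq_mul]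
        ring

end Pool.Agent.THR

end

/-! ### from `Lib_MP_2c424f_lc3.T19` -/

section

/-!
# Part III, T19: a conflict path outside `Del` between `J1` and `J2` gives a chain

`H` = the graph on `V` with the edges `a b`, `gc D ω a b`, `a, b ∉ Del D ω` (`gc` is symmetric, irreflexive because of `Adj`).  `ReflTransGen` gives reachability in `H`, so a path (`Walk.toPath`); its support is a list
without repetitions, consecutive elements are `gc`-related, all elements are outside `Del` (`s₀ ∉ Del`).  Head `s₀`, last `s`.  If it has one element `s₀ = s` with `s1`, `s2`: `s` is even, since an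
odd one would be in `X00 ⊆ Del`.  If it has two elements, one of the first two is even (`Par`).  Length at most `|V|` (`Nodup`).  `mem_LT`.
-/

set_option autoImplicit false

open Finset Filter

namespace Pool.Agent.LC3

open Pool.Agent.LO Pool.Agent.LIN Pool.Agent.THR Pool.Agent.COR Pool.Agent.LC

section
variable {V : Type} [Fintype V] [DecidableEq V] {d q j : ℕ}

private theorem T19_symm (D : Bal V d q j) (ω : V → Fin q × Fin q) {a b : V} (h : gc D ω a b) :
    gc D ω b a := by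
  obtain ⟨h0, h1⟩ := h
  refine ⟨h0.symm, ?_⟩
  rcases h1 with ⟨e, hn⟩ | ⟨e, hn⟩
  · exact Or.inr ⟨e.symm, e ▸ hn⟩
  · exact Or.inl ⟨e.symm, e ▸ hn⟩

/-- the graph of the conflict edges outside `Del` -/
private def T19_H (D : Bal V d q j) (ω : V → Fin q × Fin q) : SimpleGraph V where
  Adj a b := gc D ω a b ∧ a ∉ Del D ω ∧ b ∉ Del D ω
  symm := ⟨fun _ _ h => ⟨T19_symm D ω h.1, h.2.2, h.2.1⟩⟩
  loopless := ⟨fun _ h => h.1.1.ne rfl⟩

private theorem T19_reach (D : Bal V d q j) (ω : V → Fin q × Fin q) (s₀ s : V) (h0 : s₀ ∉ Del D ω)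
    (hc : Relation.ReflTransGen (fun a b => gc D ω a b ∧ b ∉ Del D ω) s₀ s) :
    (T19_H D ω).Reachable s₀ s ∧ s ∉ Del D ω := by
  induction hc with
  | refl => exact ⟨SimpleGraph.Reachable.refl _, h0⟩
  | tail _ hbc ih =>
    refine ⟨ih.1.trans (SimpleGraph.Adj.reachable ?_), hbc.2⟩
    exact ⟨hbc.1, ih.2, hbc.2⟩

private theorem T19_supp (D : Bal V d q j) (ω : V → Fin q × Fin q) {a b : V} (p : (T19_H D ω).Walk a b)
    (h0 : a ∉ Del D ω) : ∀ s ∈ p.support, s ∉ Del D ω := by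
  induction p with
  | nil =>
    intro s hs
    rw [SimpleGraph.Walk.support_nil, List.mem_singleton] at hs
    rw [hs]
    exact h0
  | cons h p ih =>
    intro s hs
    rw [SimpleGraph.Walk.support_cons, List.mem_cons] at hs
    rcases hs with rfl | hs
    · exact h0
    · exact ih h.2.2 s hs

private theorem T19_chain (D : Bal V d q j) (ω : V → Fin q × Fin q) {a b : V} (p : (T19_H D ω).Walk a b) :
    p.support.IsChain (gc D ω) :=
  (p.isChain_adj_support).imp fun _ _ h => h.1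

private theorem T19_head {H : SimpleGraph V} {a b : V} (p : H.Walk a b) : p.support.head? = some a := by
  cases p <;> rfl

private theorem T19_last {H : SimpleGraph V} {a b : V} (p : H.Walk a b) : p.support.getLast? = some b := by
  rw [List.getLast?_eq_some_getLast (SimpleGraph.Walk.support_ne_nil p), SimpleGraph.Walk.getLast_support]

theorem chain_of_conn (D : Bal V d q j) (ω : V → Fin q × Fin q) (s₀ s : V) (h0 : s₀ ∉ Del D ω)
    (hc : Relation.ReflTransGen (fun a b => gc D ω a b ∧ b ∉ Del D ω) s₀ s) (h1 : s1 D (ω s₀)) (h2 : s2 D (ω s)) :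
    ∃ l ∈ Pth D, Ech D ω l := by
  classical
  obtain ⟨hr, -⟩ := T19_reach D ω s₀ s h0 hc
  obtain ⟨p0⟩ := hr
  obtain ⟨p, hp⟩ := p0.toPath
  refine ⟨p.support, ?_, T19_supp D ω p h0, T19_chain D ω p, ⟨s₀, ?_, h1⟩, ⟨s, ?_, h2⟩⟩
  · refine Finset.mem_filter.2 ⟨(mem_LT _ _).2 hp.support_nodup.length_le_card, hp.support_nodup, ?_⟩
    cases p with
    | nil =>
      refine ⟨s₀, by simp, ?_⟩
      by_contra hev
      refine h0 ?_
      exact Finset.mem_union_right _ (Finset.mem_filter.2 ⟨Finset.mem_univ _, hev, h1, h2⟩)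
    | @cons _ b _ h p =>
      by_cases hev : D.ev s₀
      · exact ⟨s₀, by simp, hev⟩
      · refine ⟨b, by simp, ?_⟩
        have h3 := D.par s₀ b h.1.1
        by_contra hb
        exact hev (h3.2 hb)
  · exact T19_head p
  · exact T19_last p

end

end Pool.Agent.LC3

end

/-! ### from `Lib_MP_2c424f_lc3.T20` -/

section

/-!
# Part III, T20: the swap (III.B)

Injective map from `src` to `tgt` for fixed `X`, `Y`.  For `ω` in `src` let `I = {s : ∃ s₀ ∉ Del, s1 (ω s₀), s₀ →* s}`, `→*` = `ReflTransGen (gc D ω a b ∧ b ∉ Del)`, `Del = X ∪ Y`.  `I ∩ Del = ∅`; by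
`NL` and `chain_of_conn` no `s ∈ I` has `s2 (ω s)`; every `s ∉ Del` with `s1 (ω s)` is in `I`.  `ω' s = (ω s).swap` for `s ∈ I`, `ω' s = ω s` otherwise.
1. `ω'` is proper on `dlG G (X ∪ Y)`: edge `s t`, `s, t ∉ Del`.  Both in `I` or both not: `ω` is proper.  `s ∈ I`, `t ∉ I`: no generic conflict (else `t ∈ I`); a conflict with the common colour in `A \ B = J1 ∪ J2`:
 in `J1` would give `s1 (ω t)`, `t ∈ I`; in `J2` would give `s2 (ω s)`, impossible.  So `(ω s).1 ≠ (ω t).2`, `(ω s).2 ≠ (ω t).1`, i.e. `ω'` is proper on the edge.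
2. `y ∈ Y = X00`: `y ∉ I`, `ω' y = ω y`.
3. `x` even, `x ∉ X`: `x ∉ X00` (odd), so `x ∉ Del`, and `NL` for the list `[x]` gives `¬ (s1 ∧ s2)` at `x`, also for `ω' x` (symmetric).
4. `y` odd `∉ X ∪ Y` with `(ω' y).1 ∈ J2`: then `s2 (ω y)`, `y ∉ I`, `(ω y).1 ∈ J2`.   With `(ω' y).2 ∈ J1`: `s1 (ω y)`, `y ∈ I`, `(ω y).1 = (ω' y).2 ∈ J1`.  So the last two conditions.
5. injective: let `ω₁, ω₂` have the same image `ω'`.  `s1 (ω s) ↔ s1 (ω' s)`.  `gc D ω a b ↔ gc D ω' a b` for `a, b ∉ Del`: both in `I`: the two equalities are exchanged; both outside: equal; `a ∈ I`, `b ∉ I`: not for `ω`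
 (else `b ∈ I`), and not for `ω'` because `(ω' a).1 = (ω' b).2` means `(ω a).2 = (ω b).2`, impossible as `ω` is proper.  So `I` is determined by `ω'` (and `Del`), and `ω` by `ω'` and `I`.
-/

set_option autoImplicit false

open Finset Filter

namespace Pool.Agent.LC3

open Pool.Agent.LO Pool.Agent.LIN Pool.Agent.THR Pool.Agent.COR Pool.Agent.LC

section
variable {V : Type} [Fintype V] [DecidableEq V] {d q j : ℕ}

/-- the vertices reached from `J1` outside the deleted set -/
private def T20_I (D : Bal V d q j) (E : Finset V) (ω : V → Fin q × Fin q) : Set V :=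
  {s | ∃ s₀, s₀ ∉ E ∧ s1 D (ω s₀) ∧ Relation.ReflTransGen (fun a b => gc D ω a b ∧ b ∉ E) s₀ s}

open scoped Classical in
/-- the swap -/
private noncomputable def T20_sw (D : Bal V d q j) (E : Finset V) (ω : V → Fin q × Fin q) : V → Fin q × Fin q :=
  fun s => if s ∈ T20_I D E ω then (ω s).swap else ω s

private theorem T20_sw_mem (D : Bal V d q j) (E : Finset V) (ω : V → Fin q × Fin q) {s : V}
    (h : s ∈ T20_I D E ω) : T20_sw D E ω s = (ω s).swap := if_pos h

private theorem T20_sw_not (D : Bal V d q j) (E : Finset V) (ω : V → Fin q × Fin q) {s : V}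
    (h : s ∉ T20_I D E ω) : T20_sw D E ω s = ω s := if_neg h

private theorem T20_gc_symm (D : Bal V d q j) (ω : V → Fin q × Fin q) {a b : V} (h : gc D ω a b) : gc D ω b a := by
  obtain ⟨h1, h2⟩ := h
  refine ⟨h1.symm, ?_⟩
  rcases h2 with ⟨h2, h3⟩ | ⟨h2, h3⟩
  · exact Or.inr ⟨h2.symm, h2 ▸ h3⟩
  · exact Or.inl ⟨h2.symm, h2 ▸ h3⟩

private theorem T20_I_not (D : Bal V d q j) (E : Finset V) (ω : V → Fin q × Fin q) {s : V}
    (h : s ∈ T20_I D E ω) : s ∉ E := by
  obtain ⟨s₀, h0, -, hc⟩ := h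
  rcases Relation.ReflTransGen.cases_tail hc with h | ⟨b, -, hb⟩
  · rw [h]; exact h0
  · exact hb.2

private theorem T20_I_s1 (D : Bal V d q j) (E : Finset V) (ω : V → Fin q × Fin q) {s : V}
    (h : s ∉ E) (h1 : s1 D (ω s)) : s ∈ T20_I D E ω := ⟨s, h, h1, Relation.ReflTransGen.refl⟩

private theorem T20_I_gc (D : Bal V d q j) (E : Finset V) (ω : V → Fin q × Fin q) {s t : V}
    (h : s ∈ T20_I D E ω) (h1 : gc D ω s t) (ht : t ∉ E) : t ∈ T20_I D E ω := by
  obtain ⟨s₀, h0, h2, hc⟩ := h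
  exact ⟨s₀, h0, h2, hc.tail ⟨h1, ht⟩⟩

private theorem T20_I_s2 (D : Bal V d q j) (X Y : Finset V) (ω : V → Fin q × Fin q) (hs : src D X Y ω) {s : V}
    (h : s ∈ T20_I D (X ∪ Y) ω) : ¬ s2 D (ω s) := by
  intro h2
  obtain ⟨-, hX, hY, hN, -, -⟩ := hs
  have hD : Del D ω = X ∪ Y := by rw [Del, hX, hY]
  obtain ⟨s₀, h0, h1, hc⟩ := h
  rw [← hD] at h0 hc
  obtain ⟨l, hl, hE⟩ := chain_of_conn D ω s₀ s h0 hc h1 h2
  exact hN l hl hE

/-- no conflict between a swapped and a not swapped vertex -/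
private theorem T20_cross (D : Bal V d q j) (X Y : Finset V) (ω : V → Fin q × Fin q) (hs : src D X Y ω) {s t : V}
    (ha : D.G.Adj s t) (ht : t ∉ X ∪ Y) (h : s ∈ T20_I D (X ∪ Y) ω) (h' : t ∉ T20_I D (X ∪ Y) ω) :
    (ω s).1 ≠ (ω t).2 ∧ (ω s).2 ≠ (ω t).1 := by
  have hJ : ∀ c, c ∈ D.A \ D.B → c ∈ D.J1 ∨ c ∈ D.J2 := by
    intro c hc
    rw [D.un] at hc
    exact Finset.mem_union.1 hc
  have hn2 := T20_I_s2 D X Y ω hs h
  constructor
  · intro he
    by_cases hc : (ω s).1 ∈ D.A \ D.B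
    · rcases hJ _ hc with h3 | h3
      · exact h' (T20_I_s1 D _ ω ht (Or.inr (he ▸ h3)))
      · exact hn2 (Or.inl h3)
    · exact h' (T20_I_gc D _ ω h ⟨ha, Or.inl ⟨he, hc⟩⟩ ht)
  · intro he
    by_cases hc : (ω s).2 ∈ D.A \ D.B
    · rcases hJ _ hc with h3 | h3
      · exact h' (T20_I_s1 D _ ω ht (Or.inl (he ▸ h3)))
      · exact hn2 (Or.inr h3)
    · exact h' (T20_I_gc D _ ω h ⟨ha, Or.inr ⟨he, hc⟩⟩ ht)

private theorem T20_proper (D : Bal V d q j) (X Y : Finset V) (ω : V → Fin q × Fin q) (hs : src D X Y ω) :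
    ∀ s t, D.G.Adj s t → s ∉ X ∪ Y → t ∉ X ∪ Y →
      (T20_sw D (X ∪ Y) ω s).1 ≠ (T20_sw D (X ∪ Y) ω t).1 ∧ (T20_sw D (X ∪ Y) ω s).2 ≠ (T20_sw D (X ∪ Y) ω t).2 := by
  intro s t ha h1 h2
  have hp1 : (ω s).1 ≠ (ω t).1 := hs.1.1 s t ha
  have hp2 : (ω s).2 ≠ (ω t).2 := hs.1.2 s t ha
  by_cases hsI : s ∈ T20_I D (X ∪ Y) ω <;> by_cases htI : t ∈ T20_I D (X ∪ Y) ω
  · rw [T20_sw_mem D _ ω hsI, T20_sw_mem D _ ω htI]
    exact ⟨hp2, hp1⟩
  · rw [T20_sw_mem D _ ω hsI, T20_sw_not D _ ω htI]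
    obtain ⟨h3, h4⟩ := T20_cross D X Y ω hs ha h2 hsI htI
    exact ⟨h4, h3⟩
  · rw [T20_sw_not D _ ω hsI, T20_sw_mem D _ ω htI]
    obtain ⟨h3, h4⟩ := T20_cross D X Y ω hs ha.symm h1 htI hsI
    exact ⟨h4.symm, h3.symm⟩
  · rw [T20_sw_not D _ ω hsI, T20_sw_not D _ ω htI]
    exact ⟨hp1, hp2⟩

private theorem T20_s1_swap (D : Bal V d q j) (E : Finset V) (ω : V → Fin q × Fin q) (s : V) :
    s1 D (T20_sw D E ω s) ↔ s1 D (ω s) := by
  by_cases h : s ∈ T20_I D E ω
  · rw [T20_sw_mem D _ ω h]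
    exact or_comm
  · rw [T20_sw_not D _ ω h]

private theorem T20_gc_iff (D : Bal V d q j) (X Y : Finset V) (ω : V → Fin q × Fin q) (hs : src D X Y ω) {a b : V}
    (ha : a ∉ X ∪ Y) (hb : b ∉ X ∪ Y) : gc D (T20_sw D (X ∪ Y) ω) a b ↔ gc D ω a b := by
  by_cases haI : a ∈ T20_I D (X ∪ Y) ω <;> by_cases hbI : b ∈ T20_I D (X ∪ Y) ω
  · unfold gc
    rw [T20_sw_mem D _ ω haI, T20_sw_mem D _ ω hbI]
    exact and_congr_right fun _ => or_comm
  · constructor
    · rintro ⟨h1, h2⟩
      exfalso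
      rw [T20_sw_mem D _ ω haI, T20_sw_not D _ ω hbI] at h2
      rcases h2 with ⟨h2, -⟩ | ⟨h2, -⟩
      · exact hs.1.2 a b h1 h2
      · exact hs.1.1 a b h1 h2
    · intro h
      exact absurd (T20_I_gc D _ ω haI h hb) hbI
  · constructor
    · rintro ⟨h1, h2⟩
      exfalso
      rw [T20_sw_not D _ ω haI, T20_sw_mem D _ ω hbI] at h2
      rcases h2 with ⟨h2, -⟩ | ⟨h2, -⟩
      · exact hs.1.1 a b h1 h2
      · exact hs.1.2 a b h1 h2
    · intro h
      exact absurd (T20_I_gc D _ ω hbI (T20_gc_symm D ω h) ha) haI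
  · unfold gc
    rw [T20_sw_not D _ ω haI, T20_sw_not D _ ω hbI]

/-- the set is determined by the image -/
private theorem T20_I_eq (D : Bal V d q j) (X Y : Finset V) (ω : V → Fin q × Fin q) (hs : src D X Y ω) :
    T20_I D (X ∪ Y) (T20_sw D (X ∪ Y) ω) = T20_I D (X ∪ Y) ω := by
  have key : ∀ (ω₁ ω₂ : V → Fin q × Fin q), (∀ a b, a ∉ X ∪ Y → b ∉ X ∪ Y → gc D ω₁ a b → gc D ω₂ a b) →
      (∀ s, s1 D (ω₁ s) → s1 D (ω₂ s)) → T20_I D (X ∪ Y) ω₁ ⊆ T20_I D (X ∪ Y) ω₂ := by
    intro ω₁ ω₂ hgc h1 s hs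
    obtain ⟨s₀, h0, h2, hc⟩ := hs
    refine ⟨s₀, h0, h1 _ h2, ?_⟩
    have hind : s ∉ X ∪ Y ∧ Relation.ReflTransGen (fun a b => gc D ω₂ a b ∧ b ∉ X ∪ Y) s₀ s := by
      induction hc with
      | refl => exact ⟨h0, Relation.ReflTransGen.refl⟩
      | tail _ hbc ih => exact ⟨hbc.2, ih.2.tail ⟨hgc _ _ ih.1 hbc.2 hbc.1, hbc.2⟩⟩
    exact hind.2
  apply Set.Subset.antisymm
  · exact key _ _ (fun a b ha hb h => (T20_gc_iff D X Y ω hs ha hb).1 h) (fun s h => (T20_s1_swap D _ ω s).1 h)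
  · exact key _ _ (fun a b ha hb h => (T20_gc_iff D X Y ω hs ha hb).2 h) (fun s h => (T20_s1_swap D _ ω s).2 h)

private theorem T20_inj (D : Bal V d q j) (X Y : Finset V) (ω₁ ω₂ : V → Fin q × Fin q) (h1 : src D X Y ω₁)
    (h2 : src D X Y ω₂) (h : T20_sw D (X ∪ Y) ω₁ = T20_sw D (X ∪ Y) ω₂) : ω₁ = ω₂ := by
  have hI : T20_I D (X ∪ Y) ω₁ = T20_I D (X ∪ Y) ω₂ := by
    rw [← T20_I_eq D X Y ω₁ h1, ← T20_I_eq D X Y ω₂ h2, h]
  funext s
  have hs := congrFun h s
  by_cases hsI : s ∈ T20_I D (X ∪ Y) ω₁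
  · rw [T20_sw_mem D _ ω₁ hsI, T20_sw_mem D _ ω₂ (hI ▸ hsI)] at hs
    exact Prod.swap_injective hs
  · rw [T20_sw_not D _ ω₁ hsI, T20_sw_not D _ ω₂ (hI ▸ hsI)] at hs
    exact hs

open scoped Classical in
private theorem T20_tgt (D : Bal V d q j) (X Y : Finset V) (ω : V → Fin q × Fin q) (hs : src D X Y ω) :
    tgt D X Y (T20_sw D (X ∪ Y) ω) := by
  have hp := T20_proper D X Y ω hs
  have hn2 := fun (s : V) (h : s ∈ T20_I D (X ∪ Y) ω) => T20_I_s2 D X Y ω hs h
  have hn1 := fun (s : V) (hE : s ∉ X ∪ Y) (h : s ∉ T20_I D (X ∪ Y) ω) (h1 : s1 D (ω s)) =>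
    h (T20_I_s1 D _ ω hE h1)
  obtain ⟨hpr, hX, hY, hN, hJ1, hJ2⟩ := hs
  refine ⟨⟨fun s t hst => (hp s t hst.1 hst.2.1 hst.2.2).1, fun s t hst => (hp s t hst.1 hst.2.1 hst.2.2).2⟩, ?_, ?_, ?_, ?_⟩
  · intro y hy
    have hyI : y ∉ T20_I D (X ∪ Y) ω := fun h => T20_I_not D _ ω h (Finset.mem_union_right _ hy)
    rw [T20_sw_not D _ ω hyI]
    rw [← hY, X00, Finset.mem_filter] at hy
    exact hy.2.2
  · intro x hev hxX hcon
    have hxE : x ∉ X ∪ Y := by
      intro hx
      rcases Finset.mem_union.1 hx with h | h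
      · exact hxX h
      · rw [← hY, X00, Finset.mem_filter] at h
        exact h.2.1 hev
    by_cases hxI : x ∈ T20_I D (X ∪ Y) ω
    · rw [T20_sw_mem D _ ω hxI] at hcon
      exact hn2 x hxI (Or.inr hcon.1)
    · rw [T20_sw_not D _ ω hxI] at hcon
      exact hn1 x hxE hxI (Or.inr hcon.2)
  · refine le_trans ?_ hJ2
    unfold nJ
    refine Nat.cast_le.2 (Finset.card_le_card fun v hv => ?_)
    rw [Finset.mem_filter] at hv ⊢
    refine ⟨hv.1, hv.2.1, ?_⟩
    have hv3 := hv.2.2.2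
    by_cases hvI : v ∈ T20_I D (X ∪ Y) ω
    · rw [T20_sw_mem D _ ω hvI] at hv3
      exact absurd (Or.inr hv3) (hn2 v hvI)
    · rw [T20_sw_not D _ ω hvI] at hv3
      exact hv3
  · refine le_trans ?_ hJ1
    unfold nJ
    refine Nat.cast_le.2 (Finset.card_le_card fun v hv => ?_)
    rw [Finset.mem_filter] at hv ⊢
    refine ⟨hv.1, hv.2.1, ?_⟩
    have hv3 := hv.2.2.2
    by_cases hvI : v ∈ T20_I D (X ∪ Y) ω
    · rw [T20_sw_mem D _ ω hvI] at hv3
      exact hv3
    · rw [T20_sw_not D _ ω hvI] at hv3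
      exact absurd (Or.inr hv3) (hn1 v hv.2.2.1 hvI)

open scoped Classical in
theorem swap_count (D : Bal V d q j) (X Y : Finset V) :
    (univ.filter fun ω : V → Fin q × Fin q => src D X Y ω).card ≤
      (univ.filter fun ω : V → Fin q × Fin q => tgt D X Y ω).card := by
  refine Finset.card_le_card_of_injOn (T20_sw D (X ∪ Y)) ?_ ?_
  · intro ω hω
    have h : src D X Y ω := (Finset.mem_filter.1 (Finset.mem_coe.1 hω)).2
    exact Finset.mem_coe.2 (Finset.mem_filter.2 ⟨Finset.mem_univ _, T20_tgt D X Y ω h⟩)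
  · intro ω₁ h1 ω₂ h2 h
    exact T20_inj D X Y ω₁ ω₂ (Finset.mem_filter.1 (Finset.mem_coe.1 h1)).2 (Finset.mem_filter.1 (Finset.mem_coe.1 h2)).2 h

end

end Pool.Agent.LC3

end
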