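import Pool.Agent.Lib_MP_2c424f_m.M03
import Pool.Agent.Lib_MP_2c424f_m.M12

/-!
# MP_2c424f_pr, q_c grows linearly: merged library part M13

Concatenation of smaller files (each in its own section), only to save build time.
-/

namespace Pool.Agent.LO
end Pool.Agent.LO

namespace Pool.Agent.LIN
end Pool.Agent.LIN

namespace Pool.Agent.THR
end Pool.Agent.THR

namespace Pool.Agent.COR
end Pool.Agent.COR

/-! ### from `Lib_MP_2c424f_lo.LogI` -/

section

/-!
# Inequalities for the logarithm (piece LOGI)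
-/

set_option autoImplicit false

open Finset

namespace Pool.Agent.LO

theorem q1_pos {q : ℕ} (hq : 2 ≤ q) : 1 ≤ q1 q := by
  unfold q1
  omega

private theorem LogI_q1_pos_real {q : ℕ} (hq : 2 ≤ q) : (1 : ℝ) ≤ q1 q := by
  exact_mod_cast q1_pos hq

private theorem LogI_q2_even {q : ℕ} (h : Even q) : q2 q = q1 q := by
  unfold q1 q2
  obtain ⟨m, rfl⟩ := h
  omega

private theorem LogI_q2_odd {q : ℕ} (h : ¬ Even q) : q2 q = q1 q + 1 := by
  unfold q1 q2
  rw [Nat.not_even_iff_odd] at h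
  obtain ⟨m, rfl⟩ := h
  omega

private theorem LogI_add {q : ℕ} : q1 q + q2 q = q := by
  unfold q1 q2
  omega

private theorem LogI_add_real {q : ℕ} : (q1 q : ℝ) + q2 q = q := by
  exact_mod_cast LogI_add (q := q)

private theorem LogI_q1_le_q2 {q : ℕ} : q1 q ≤ q2 q := by
  unfold q1 q2
  omega

private theorem LogI_q1_le_q2_real {q : ℕ} : (q1 q : ℝ) ≤ q2 q := by
  exact_mod_cast LogI_q1_le_q2 (q := q)

private theorem LogI_sl_even {q : ℕ} (h : Even q) : sl q = 1 / (q1 q : ℝ) := by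
  unfold sl
  rw [if_pos h]

private theorem LogI_sl_odd {q : ℕ} (h : ¬ Even q) : sl q = Real.log ((q2 q : ℝ) / (q1 q : ℝ)) := by
  unfold sl
  rw [if_neg h]

theorem sl_ge {q : ℕ} (hq : 2 ≤ q) : 1 / (q2 q : ℝ) ≤ sl q := by
  have h1 := LogI_q1_pos_real hq
  by_cases h : Even q
  · rw [LogI_sl_even h, LogI_q2_even h]
  · rw [LogI_sl_odd h]
    have h2 : (q2 q : ℝ) = q1 q + 1 := by
      rw [LogI_q2_odd h]; push_cast; ring
    have hp : (0 : ℝ) < (q2 q : ℝ) / (q1 q : ℝ) := by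
      rw [h2]; positivity
    have h3 := Real.one_sub_inv_le_log_of_pos hp
    refine le_trans (le_of_eq ?_) h3
    rw [inv_div, h2]
    field_simp
    ring

theorem sl_le {q : ℕ} (hq : 2 ≤ q) : sl q ≤ 1 / (q1 q : ℝ) := by
  have h1 := LogI_q1_pos_real hq
  by_cases h : Even q
  · rw [LogI_sl_even h]
  · rw [LogI_sl_odd h]
    have h2 : (q2 q : ℝ) = q1 q + 1 := by
      rw [LogI_q2_odd h]; push_cast; ring
    have hp : (0 : ℝ) < (q2 q : ℝ) / (q1 q : ℝ) := by
      rw [h2]; positivity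
    have h3 := Real.log_le_sub_one_of_pos hp
    refine le_trans h3 (le_of_eq ?_)
    rw [h2]
    field_simp
    ring

private theorem LogI_sl_nonneg {q : ℕ} (hq : 2 ≤ q) : 0 ≤ sl q := by
  refine le_trans ?_ (sl_ge hq)
  positivity

/-- `ℓ(x) + ℓ(q - x) = log (q1 q2)` -/
theorem ell_add {q : ℕ} (hq : 2 ≤ q) (x : ℝ) :
    ell q x + ell q (q - x) = Real.log ((q1 q : ℝ) * q2 q) := by
  have h1 := LogI_q1_pos_real hq
  have h12 := LogI_q1_le_q2_real (q := q)
  have hadd := LogI_add_real (q := q)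
  have hn1 : (q1 q : ℝ) ≠ 0 := by linarith
  have hn2 : (q2 q : ℝ) ≠ 0 := by linarith
  rw [Real.log_mul hn1 hn2]
  unfold ell
  by_cases h : Even q
  · have h2 : (q2 q : ℝ) = q1 q := by rw [LogI_q2_even h]
    rw [← hadd, h2]
    ring
  · have h2 : (q2 q : ℝ) = q1 q + 1 := by
      rw [LogI_q2_odd h]; push_cast; ring
    rw [LogI_sl_odd h, Real.log_div hn2 hn1, ← hadd]
    rw [show Real.log (q1 q : ℝ) + (Real.log (q2 q : ℝ) - Real.log (q1 q : ℝ)) * (x - (q1 q : ℝ)) +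
      (Real.log (q1 q : ℝ) + (Real.log (q2 q : ℝ) - Real.log (q1 q : ℝ)) *
        ((q1 q : ℝ) + (q2 q : ℝ) - x - (q1 q : ℝ))) =
      2 * Real.log (q1 q : ℝ) + (Real.log (q2 q : ℝ) - Real.log (q1 q : ℝ)) *
        ((q2 q : ℝ) - (q1 q : ℝ)) by ring]
    have h3 : (q2 q : ℝ) - q1 q = 1 := by rw [h2]; ring
    rw [h3]
    ring

/-- value at `q2` -/
private theorem LogI_ell_q2 {q : ℕ} (hq : 2 ≤ q) (t : ℝ) :
    ell q t = Real.log (q2 q) + sl q * (t - q2 q) := by
  have h1 := LogI_q1_pos_real hq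
  have h12 := LogI_q1_le_q2_real (q := q)
  have hn1 : (q1 q : ℝ) ≠ 0 := by linarith
  have hn2 : (q2 q : ℝ) ≠ 0 := by linarith
  unfold ell
  by_cases h : Even q
  · rw [LogI_q2_even h]
  · have h2 : (q2 q : ℝ) = q1 q + 1 := by
      rw [LogI_q2_odd h]; push_cast; ring
    have h4 : sl q = Real.log (q2 q) - Real.log (q1 q) := by
      rw [LogI_sl_odd h, Real.log_div hn2 hn1]
    have h5 : sl q * (t - (q1 q : ℝ)) = sl q * (t - (q2 q : ℝ)) + sl q := by
      rw [h2]; ring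
    rw [h5]
    linarith

/-- tangent inequality -/
private theorem LogI_log_tangent {a b : ℝ} (ha : 0 < a) (hb : 0 < b) :
    Real.log a ≤ Real.log b + (a - b) / b := by
  have h := Real.log_le_sub_one_of_pos (div_pos ha hb)
  rw [Real.log_div ha.ne' hb.ne'] at h
  have h2 : (a - b) / b = a / b - 1 := by field_simp
  rw [h2]
  linarith

/-- outside the open interval `(q1, q2)` -/
private theorem LogI_outside {q : ℕ} (hq : 2 ≤ q) (a : ℝ) (ha : 0 < a)
    (h : a ≤ q1 q ∨ (q2 q : ℝ) ≤ a) : Real.log a ≤ ell q a := by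
  have h1 := LogI_q1_pos_real hq
  have h12 := LogI_q1_le_q2_real (q := q)
  have hp1 : (0 : ℝ) < q1 q := by linarith
  have hp2 : (0 : ℝ) < q2 q := by linarith
  rcases h with h | h
  · -- a ≤ q1
    have h3 : ell q a = Real.log (q1 q) - sl q * ((q1 q : ℝ) - a) := by
      unfold ell; ring
    rw [h3]
    -- need sl * (q1 - a) ≤ log q1 - log a
    have h4 : sl q * ((q1 q : ℝ) - a) ≤ 1 / (q1 q : ℝ) * ((q1 q : ℝ) - a) :=
      mul_le_mul_of_nonneg_right (sl_le hq) (by linarith)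
    have h5 := LogI_log_tangent ha hp1
    have h6 : (a - (q1 q : ℝ)) / q1 q = -(1 / (q1 q : ℝ) * ((q1 q : ℝ) - a)) := by
      field_simp; ring
    rw [h6] at h5
    linarith
  · rw [LogI_ell_q2 hq]
    have h4 : 1 / (q2 q : ℝ) * (a - q2 q) ≤ sl q * (a - q2 q) :=
      mul_le_mul_of_nonneg_right (sl_ge hq) (by linarith)
    have h5 := LogI_log_tangent ha hp2
    have h6 : (a - (q2 q : ℝ)) / q2 q = 1 / (q2 q : ℝ) * (a - q2 q) := by
      field_simp
    rw [h6] at h5
    linarith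

/-- for integers (odd `q`: Bernoulli / concavity) -/
theorem log_le_ell {q : ℕ} (hq : 2 ≤ q) (x : ℕ) (hx : 1 ≤ x) : Real.log x ≤ ell q x := by
  have hx' : (0 : ℝ) < x := by exact_mod_cast hx
  apply LogI_outside hq _ hx'
  by_cases h : Even q
  · rcases le_total (x : ℝ) (q1 q) with h1 | h1
    · exact Or.inl h1
    · right
      rw [LogI_q2_even h]
      exact h1
  · rcases Nat.lt_or_ge (q1 q) x with h1 | h1
    · right
      rw [LogI_q2_odd h]
      exact_mod_cast h1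
    · left
      exact_mod_cast h1

theorem kp_nonneg {q : ℕ} (hq : 2 ≤ q) : 0 ≤ kp q := by
  have h1 := LogI_q1_pos_real hq
  have h12 := LogI_q1_le_q2_real (q := q)
  unfold kp
  have h := one_div_le_one_div_of_le (by linarith : (0 : ℝ) < q1 q) h12
  linarith

/-- for real arguments, with an error proportional to the distance to any integer -/
theorem log_le_ell_real {q : ℕ} (hq : 2 ≤ q) (a : ℝ) (ha : 0 < a) (n : ℤ) :
    Real.log a ≤ ell q a + kp q * |a - n| := by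
  have h1 := LogI_q1_pos_real hq
  have h12 := LogI_q1_le_q2_real (q := q)
  have hp1 : (0 : ℝ) < q1 q := by linarith
  have hp2 : (0 : ℝ) < q2 q := by linarith
  have hk := kp_nonneg hq
  by_cases hout : a ≤ q1 q ∨ (q2 q : ℝ) ≤ a
  · have h3 := LogI_outside hq a ha hout
    have h4 : 0 ≤ kp q * |a - n| := mul_nonneg hk (abs_nonneg _)
    linarith
  · push Not at hout
    obtain ⟨ha1, ha2⟩ := hout
    have hev : ¬ Even q := by
      intro h
      rw [LogI_q2_even h] at ha2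
      linarith
    have h2 : (q2 q : ℝ) = q1 q + 1 := by
      rw [LogI_q2_odd hev]; push_cast; ring
    rcases le_or_gt n (q1 q : ℤ) with hn | hn
    · have hn' : (n : ℝ) ≤ q1 q := by exact_mod_cast hn
      have h5 : a - q1 q ≤ |a - n| := by
        refine le_trans ?_ (le_abs_self _)
        linarith
      have h6 : kp q * (a - q1 q) ≤ kp q * |a - n| := mul_le_mul_of_nonneg_left h5 hk
      have h7 := LogI_log_tangent ha hp1
      have h8 : 1 / (q2 q : ℝ) * (a - q1 q) ≤ sl q * (a - q1 q) :=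
        mul_le_mul_of_nonneg_right (sl_ge hq) (by linarith)
      have h9 : ell q a = Real.log (q1 q) + sl q * (a - q1 q) := rfl
      have h10 : kp q * (a - q1 q) = (a - q1 q) / q1 q - 1 / (q2 q : ℝ) * (a - q1 q) := by
        unfold kp; ring
      linarith
    · have hn' : (q2 q : ℝ) ≤ n := by
        rw [h2]; exact_mod_cast hn
      have h5 : (q2 q : ℝ) - a ≤ |a - n| := by
        rw [abs_sub_comm]
        refine le_trans ?_ (le_abs_self _)
        linarith
      have h6 : kp q * ((q2 q : ℝ) - a) ≤ kp q * |a - n| := mul_le_mul_of_nonneg_left h5 hk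
      have h7 := LogI_log_tangent ha hp2
      have h8 : sl q * ((q2 q : ℝ) - a) ≤ 1 / (q1 q : ℝ) * ((q2 q : ℝ) - a) :=
        mul_le_mul_of_nonneg_right (sl_le hq) (by linarith)
      have h9 : ell q a = Real.log (q2 q) - sl q * ((q2 q : ℝ) - a) := by
        rw [LogI_ell_q2 hq]; ring
      have h10 : kp q * ((q2 q : ℝ) - a) =
          1 / (q1 q : ℝ) * ((q2 q : ℝ) - a) + (a - q2 q) / q2 q := by
        unfold kp; ring
      linarith

/-- `kp` is at most a twentieth of the slope -/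
theorem kp_le {q : ℕ} (hq : 2 ≤ q) (h : Even q ∨ 41 ≤ q) : 20 * kp q ≤ sl q := by
  have h1 := LogI_q1_pos_real hq
  by_cases he : Even q
  · have h2 : kp q = 0 := by
      unfold kp; rw [LogI_q2_even he]; ring
    rw [h2]
    have := LogI_sl_nonneg hq
    linarith
  · have h41 : 41 ≤ q := by
      rcases h with h | h
      · exact absurd h he
      · exact h
    have h20 : (20 : ℝ) ≤ q1 q := by
      have : 20 ≤ q1 q := by unfold q1; omega
      exact_mod_cast this
    have h2 : (q2 q : ℝ) = q1 q + 1 := by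
      rw [LogI_q2_odd he]; push_cast; ring
    refine le_trans ?_ (sl_ge hq)
    unfold kp
    rw [h2, div_sub_div _ _ (by linarith) (by linarith), ← mul_div_assoc,
      div_le_div_iff₀ (by nlinarith) (by linarith)]
    nlinarith

private theorem LogI_log_117 : Real.log (117 / 100 : ℝ) ≤ 162 / 1000 := by
  rw [Real.log_le_iff_le_exp (by norm_num)]
  have h := Real.quadratic_le_exp_of_nonneg (show (0 : ℝ) ≤ 162 / 1000 by norm_num)
  refine le_trans ?_ h
  norm_num

private theorem LogI_gap {q : ℕ} (hq : 2 ≤ q) (h : Even q ∨ 41 ≤ q) (t : ℝ)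
    (ht : (6 / 10 : ℝ) * q ≤ t) : (8 / 1000 : ℝ) ≤ ell q t - Real.log t := by
  have h1 := LogI_q1_pos_real hq
  have h12 := LogI_q1_le_q2_real (q := q)
  have hadd := LogI_add_real (q := q)
  have hp2 : (0 : ℝ) < q2 q := by linarith
  have hw : (117 / 100 : ℝ) * q2 q ≤ t := by
    refine le_trans ?_ ht
    by_cases he : Even q
    · have h2 : (q2 q : ℝ) = q1 q := by rw [LogI_q2_even he]
      rw [← hadd, h2]
      linarith
    · have h41 : 41 ≤ q := by
        rcases h with h | h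
        · exact absurd h he
        · exact h
      have h20 : (20 : ℝ) ≤ q1 q := by
        have : 20 ≤ q1 q := by unfold q1; omega
        exact_mod_cast this
      have h2 : (q2 q : ℝ) = q1 q + 1 := by
        rw [LogI_q2_odd he]; push_cast; ring
      rw [← hadd, h2]
      linarith
  have ht0 : 0 < t := by nlinarith
  rw [LogI_ell_q2 hq]
  have h4 : 1 / (q2 q : ℝ) * (t - q2 q) ≤ sl q * (t - q2 q) :=
    mul_le_mul_of_nonneg_right (sl_ge hq) (by nlinarith)
  -- log t ≤ log (1.17 q2) + (t - 1.17 q2) / (1.17 q2)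
  have hc : (0 : ℝ) < 117 / 100 * q2 q := by positivity
  have h5 := LogI_log_tangent ht0 hc
  rw [Real.log_mul (by norm_num) hp2.ne'] at h5
  have h6 := LogI_log_117
  have h7 : 1 / (q2 q : ℝ) * (t - q2 q) = t / q2 q - 1 := by field_simp
  have h8 : (t - 117 / 100 * (q2 q : ℝ)) / (117 / 100 * q2 q) = 100 / 117 * (t / q2 q) - 1 := by
    field_simp
    try ring
  rw [h8] at h5
  rw [h7] at h4
  have h9 : (117 / 100 : ℝ) ≤ t / q2 q := by
    rw [le_div_iff₀ hp2]; exact hw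
  linarith

/-- if the mean of the `x v` is at least `0.6 q` then the mean gap is at least `0.008`
(Jensen, and `ell q t - log t ≥ 0.008` for real `t ≥ 0.6 q`) -/
theorem gap_sum {q : ℕ} (hq : 2 ≤ q) (h : Even q ∨ 41 ≤ q) {ι : Type*} (A : Finset ι) (x : ι → ℕ)
    (hx : ∀ v ∈ A, 1 ≤ x v) (hs : (6 / 10 : ℝ) * q * A.card ≤ ∑ v ∈ A, (x v : ℝ)) :
    (8 / 1000 : ℝ) * A.card ≤ ∑ v ∈ A, (ell q (x v) - Real.log (x v)) := by
  rcases A.eq_empty_or_nonempty with hA | hA
  · subst hA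
    simp
  have hc : (0 : ℝ) < A.card := by exact_mod_cast hA.card_pos
  set t : ℝ := (∑ v ∈ A, (x v : ℝ)) / A.card with ht
  have hsum : ∑ v ∈ A, (x v : ℝ) = A.card * t := by
    rw [ht]; field_simp
  have ht6 : (6 / 10 : ℝ) * q ≤ t := by
    rw [ht, le_div_iff₀ hc]
    exact hs
  have hq' : (2 : ℝ) ≤ q := by exact_mod_cast hq
  have ht0 : 0 < t := by linarith
  have hg := LogI_gap hq h t ht6
  have hlog : ∑ v ∈ A, Real.log (x v) ≤ A.card * Real.log t := by
    have h1 : ∀ v ∈ A, Real.log (x v) ≤ Real.log t + ((x v : ℝ) - t) / t := by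
      intro v hv
      apply LogI_log_tangent _ ht0
      exact_mod_cast hx v hv
    refine le_trans (Finset.sum_le_sum h1) (le_of_eq ?_)
    rw [Finset.sum_add_distrib, ← Finset.sum_div, Finset.sum_sub_distrib, hsum]
    simp
  have hell : ∑ v ∈ A, ell q (x v) = A.card * ell q t := by
    unfold ell
    rw [Finset.sum_add_distrib, ← Finset.mul_sum, Finset.sum_sub_distrib, hsum]
    simp only [Finset.sum_const, nsmul_eq_mul]
    ring
  rw [Finset.sum_sub_distrib, hell]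
  have : (8 / 1000 : ℝ) * A.card ≤ A.card * (ell q t - Real.log t) := by
    nlinarith
  nlinarith

/-- distance of `gg` to `{0, 1}` -/
theorem gg_near {ε n : ℝ} (he : 0 ≤ ε) (h0 : 0 ≤ n) (h1 : n ≤ 1) :
    ∃ b : ℤ, |gg ε n - b| ≤ 5 / 2 * (n * (1 - n)) + ε := by
  unfold gg
  rcases le_or_gt n (1 / 3) with h | h
  · refine ⟨1, ?_⟩
    rw [abs_le]
    push_cast
    constructor <;> nlinarith [mul_nonneg h0 (sub_nonneg.mpr h), mul_nonneg h0 h0]
  · refine ⟨0, ?_⟩
    rw [abs_le]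
    push_cast
    have h2 : 0 ≤ 1 - n := by linarith
    constructor
    · nlinarith [mul_nonneg h0 h2, sq_nonneg (1 - n)]
    · nlinarith [mul_nonneg h2 (by linarith : 0 ≤ n - 1 / 3), mul_nonneg h2 h2]

/-- the violation cost for small `n` -/
theorem neg_log_gg_small {ε n : ℝ} (he : 0 ≤ ε) (h0 : 0 ≤ n) (h1 : n ≤ 1 / 2) :
    -Real.log (gg ε n) ≤ 3 * n := by
  unfold gg
  have hp : (0 : ℝ) < 1 - n := by linarith
  have h2 : Real.log ((1 - n) ^ 2) ≤ Real.log ((1 - n) ^ 2 + ε) :=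
    Real.log_le_log (by positivity) (by linarith)
  rw [Real.log_pow] at h2
  push_cast at h2
  have h3 : -(2 * n) * Real.log 2 ≤ Real.log (1 - n) := by
    have hconc := strictConcaveOn_log_Ioi.concaveOn
    have h4 := hconc.2 (show (1 : ℝ) ∈ Set.Ioi 0 by simp)
      (show (1 / 2 : ℝ) ∈ Set.Ioi 0 by simp) (show (0 : ℝ) ≤ 1 - 2 * n by linarith)
      (show (0 : ℝ) ≤ 2 * n by linarith) (by ring)
    simp only [smul_eq_mul, Real.log_one, mul_zero, zero_add] at h4
    have h5 : (1 - 2 * n) * 1 + 2 * n * (1 / 2) = 1 - n := by ring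
    rw [h5] at h4
    have h6 : Real.log (1 / 2) = -Real.log 2 := by
      rw [one_div, Real.log_inv]
    rw [h6] at h4
    linarith
  have h7 : Real.log 2 < 0.6931471808 := Real.log_two_lt_d9
  nlinarith

/-- the violation cost in general -/
theorem neg_log_gg_le {ε n : ℝ} (he : 0 < ε) : -Real.log (gg ε n) ≤ Real.log (1 / ε) := by
  unfold gg
  rw [one_div, Real.log_inv]
  have h : Real.log ε ≤ Real.log ((1 - n) ^ 2 + ε) :=
    Real.log_le_log he (by nlinarith [sq_nonneg (1 - n)])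
  linarith

end Pool.Agent.LO

end

/-! ### from `Lib_MP_2c424f_lo.GapI` -/

section

/-!
# The gap of the chord at the integers (piece GAPI)

`ell q x - log x ≥ 1/(4 q^2)` for every natural number `x ≥ 1` different from `⌊q/2⌋` and `⌈q/2⌉`.
-/

set_option autoImplicit false

open Finset

namespace Pool.Agent.LO

/-- `y - 1 - log y ≥ (√y - 1)^2` -/
private theorem gapI_sqrt {y : ℝ} (hy : 0 < y) : (Real.sqrt y - 1) ^ 2 ≤ y - 1 - Real.log y := by
  have hs : 0 < Real.sqrt y := Real.sqrt_pos.2 hy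
  have h1 := Real.log_le_sub_one_of_pos hs
  have h2 : Real.log y = 2 * Real.log (Real.sqrt y) := by
    have h3 : Real.log y = Real.log (Real.sqrt y * Real.sqrt y) := by
      rw [Real.mul_self_sqrt hy.le]
    rw [h3, Real.log_mul hs.ne' hs.ne']
    ring
  have h4 : Real.sqrt y ^ 2 = y := Real.sq_sqrt hy.le
  rw [h2]
  nlinarith

private theorem gapI_up {m y : ℝ} (hm : 1 ≤ m) (hy : 1 + 1 / m ≤ y) :
    1 / (8 * m ^ 2) ≤ y - 1 - Real.log y := by
  have hm0 : 0 < m := by linarith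
  have hy0 : 0 < y := by
    have : 0 < 1 / m := by positivity
    linarith
  refine le_trans ?_ (gapI_sqrt hy0)
  have h1 : 1 + 5 / (14 * m) ≤ Real.sqrt y := by
    apply Real.le_sqrt_of_sq_le
    have h2 : (1 + 5 / (14 * m)) ^ 2 = 1 + (5 / 7) * (1 / m) + (25 / 196) * ((1 / m) * (1 / m)) := by
      field_simp
      ring
    have h3 : 1 / m ≤ 1 := by
      rw [div_le_one hm0]; exact hm
    have h4 : 0 ≤ 1 / m := by positivity
    rw [h2]
    nlinarith
  have h5 : 5 / (14 * m) ≤ Real.sqrt y - 1 := by linarith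
  have h6 : (5 / (14 * m)) ^ 2 ≤ (Real.sqrt y - 1) ^ 2 := pow_le_pow_left₀ (by positivity) h5 2
  refine le_trans ?_ h6
  rw [div_pow, div_le_div_iff₀ (by positivity) (by positivity)]
  nlinarith [pow_pos hm0 2]

private theorem gapI_down {m y : ℝ} (hm : 1 ≤ m) (hy0 : 0 < y) (hy : y ≤ 1 - 1 / m) :
    1 / (8 * m ^ 2) ≤ y - 1 - Real.log y := by
  have hm0 : 0 < m := by linarith
  refine le_trans ?_ (gapI_sqrt hy0)
  have h1 : Real.sqrt y ≤ 1 - 1 / (2 * m) := by
    have h0 : 0 ≤ 1 - 1 / (2 * m) := by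
      rw [sub_nonneg, div_le_one (by positivity)]
      linarith
    rw [Real.sqrt_le_left h0]
    have h2 : (1 - 1 / (2 * m)) ^ 2 = 1 - 1 / m + (1 / (2 * m)) ^ 2 := by
      field_simp
      ring
    rw [h2]
    have : 0 ≤ (1 / (2 * m)) ^ 2 := by positivity
    linarith
  have h5 : 1 / (2 * m) ≤ 1 - Real.sqrt y := by linarith
  have h6 : (1 / (2 * m)) ^ 2 ≤ (1 - Real.sqrt y) ^ 2 := pow_le_pow_left₀ (by positivity) h5 2
  have h7 : (1 - Real.sqrt y) ^ 2 = (Real.sqrt y - 1) ^ 2 := by ring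
  rw [h7] at h6
  refine le_trans ?_ h6
  rw [div_pow, div_le_div_iff₀ (by positivity) (by positivity)]
  nlinarith [pow_pos hm0 2]

theorem gap_int {q : ℕ} (hq : 2 ≤ q) (x : ℕ) (hx : 1 ≤ x) (h1 : x ≠ q1 q) (h2 : x ≠ q2 q) :
    1 / (4 * (q : ℝ) ^ 2) ≤ ell q x - Real.log x := by
  have hq1 : 1 ≤ q1 q := q1_pos hq
  have hq2 : q2 q = q - q1 q := rfl
  have hq1' : q1 q = q / 2 := rfl
  have hle : q1 q ≤ q2 q := by omega
  have hR1 : (1 : ℝ) ≤ q1 q := by exact_mod_cast hq1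
  have hR2 : (1 : ℝ) ≤ q2 q := by exact_mod_cast (hq1.trans hle)
  have hRx : (1 : ℝ) ≤ x := by exact_mod_cast hx
  have hRq : (2 : ℝ) ≤ q := by exact_mod_cast hq
  have hsl := sl_ge hq
  have hsl' := sl_le hq
  rcases lt_or_ge x (q1 q) with hlt | hge
  · -- below
    have hx1 : (x : ℝ) + 1 ≤ q1 q := by exact_mod_cast hlt
    have hm0 : (0 : ℝ) < q1 q := by linarith
    have hd := gapI_down (m := (q1 q : ℝ)) (y := (x : ℝ) / q1 q) hR1 (by positivity) (by
      rw [div_le_iff₀ hm0]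
      field_simp
      linarith)
    have h3 : (x : ℝ) / q1 q - 1 - Real.log ((x : ℝ) / q1 q) ≤ ell q x - Real.log x := by
      rw [Real.log_div (by linarith) hm0.ne']
      unfold ell
      have h4 : (1 / (q1 q : ℝ)) * ((x : ℝ) - q1 q) ≤ sl q * ((x : ℝ) - q1 q) := by
        apply mul_le_mul_of_nonpos_right hsl' (by linarith)
      have h5 : (1 / (q1 q : ℝ)) * ((x : ℝ) - q1 q) = (x : ℝ) / q1 q - 1 := by
        field_simp
      linarith
    refine le_trans ?_ (hd.trans h3)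
    have h6 : (q1 q : ℝ) * 2 ≤ q := by
      have : q1 q * 2 ≤ q := by omega
      exact_mod_cast this
    rw [div_le_div_iff₀ (by positivity) (by positivity)]
    nlinarith
  · -- above
    have hgt : q2 q < x := by omega
    have hx1 : (q2 q : ℝ) + 1 ≤ x := by exact_mod_cast hgt
    have hm0 : (0 : ℝ) < q2 q := by linarith
    have hd := gapI_up (m := (q2 q : ℝ)) (y := (x : ℝ) / q2 q) hR2 (by
      rw [le_div_iff₀ hm0]
      field_simp
      linarith)
    have hell2 : ell q (q2 q : ℝ) = Real.log (q2 q) := by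
      have h7 := ell_add hq (q1 q : ℝ)
      have h8 : ell q (q1 q : ℝ) = Real.log (q1 q) := by
        unfold ell
        ring
      have h9 : (q : ℝ) - q1 q = q2 q := by
        have : q1 q + q2 q = q := by omega
        have h10 : (q1 q : ℝ) + q2 q = q := by exact_mod_cast this
        linarith
      rw [h8, h9, Real.log_mul (by linarith) hm0.ne'] at h7
      linarith
    have h3 : (x : ℝ) / q2 q - 1 - Real.log ((x : ℝ) / q2 q) ≤ ell q x - Real.log x := by
      rw [Real.log_div (by linarith) hm0.ne']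
      have h11 : ell q x = ell q (q2 q : ℝ) + sl q * ((x : ℝ) - q2 q) := by
        unfold ell
        ring
      rw [h11, hell2]
      have h4 : (1 / (q2 q : ℝ)) * ((x : ℝ) - q2 q) ≤ sl q * ((x : ℝ) - q2 q) := by
        apply mul_le_mul_of_nonneg_right hsl (by linarith)
      have h5 : (1 / (q2 q : ℝ)) * ((x : ℝ) - q2 q) = (x : ℝ) / q2 q - 1 := by
        field_simp
      linarith
    refine le_trans ?_ (hd.trans h3)
    have h6 : (q2 q : ℝ) * 2 ≤ q + 1 := by
      have : q2 q * 2 ≤ q + 1 := by omega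
      exact_mod_cast this
    rw [div_le_div_iff₀ (by positivity) (by positivity)]
    by_cases hev : q = 2
    · subst hev
      have : q2 2 = 1 := rfl
      rw [this]
      norm_num
    · have h3q : (3 : ℝ) ≤ q := by
        have : 3 ≤ q := by omega
        exact_mod_cast this
      have h12 : ((q2 q : ℝ) * 2) ^ 2 ≤ (q + 1) ^ 2 := pow_le_pow_left₀ (by positivity) h6 2
      nlinarith

end Pool.Agent.LO

end

/-! ### from `Lib_MP_2c424f_lc5.V10c` -/

section

/-!
# Part V, V10c: the last two terms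

`x` even.  The colours `c = F₁ y'` of the points counted on the left are outside `J`, so `c ∈ A₁` or (`c ∉ A₂` and `c ∈ Rv G F₂ x`).
Colours `c ∈ A₁`: `(x, c)` is of type S for `A₁`; `∑_{c ∈ A₁} nv G F₁ x c ≤ ∑ (nv)² ≤ e^{-a/2} q` (E4) (`n ≤ n²` for natural numbers).
Colours `c ∈ Rv G F₂ x`, `c ∉ A₂`: type B for `A₂`; by (E2) of `F₂` there are at most `e^{-a} q` of them;
Cauchy-Schwarz: `∑ nv ≤ (e^{-a} q)^{1/2} (∑_c nv²)^{1/2}`, and `∑_c nv² ≤ q^{1/2} (∑_c nv⁴)^{1/2} ≤ q (1000 a⁴)^{1/2} ≤ 32 a² q` (E3).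
So this part is at most `e^{-a/2} (32)^{1/2} a q ≤ 6 a e^{-a/2} q`.
-/

set_option autoImplicit false

open Finset Filter

namespace Pool.Agent.LC

open Pool.Agent.LO Pool.Agent.LIN Pool.Agent.THR Pool.Agent.COR

private theorem v10c_sq_le {u v : ℝ} (h : u ^ 2 ≤ v ^ 2) (hv : 0 ≤ v) : u ≤ v :=
  (le_abs_self u).trans (abs_le_of_sq_le_sq h hv)

private theorem v10c_exp (a : ℝ) : Real.exp (-a / 2) ^ 2 = Real.exp (-a) := by
  rw [← Real.exp_nat_mul]
  congr 1
  push_cast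
  ring

open scoped Classical in
private theorem v10c_count {Λ : Type} [Fintype Λ] {q : ℕ} (G : SimpleGraph Λ) (F : Λ → Fin q) (x : Λ)
    (S : Finset (Fin q)) (T : Finset Λ) (hT : ∀ y ∈ T, G.Adj x y ∧ F y ∈ S) :
    (T.card : ℝ) ≤ ∑ c ∈ S, (nv G F x c : ℝ) := by
  have h1 : T ⊆ S.biUnion fun c => univ.filter fun y => G.Adj x y ∧ F y = c := by
    intro y hy
    obtain ⟨h2, h3⟩ := hT y hy
    rw [Finset.mem_biUnion]
    exact ⟨F y, h3, by simp [h2]⟩
  have h2 := (Finset.card_le_card h1).trans Finset.card_biUnion_le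
  have h3 : ((∑ c ∈ S, (univ.filter fun y => G.Adj x y ∧ F y = c).card : ℕ) : ℝ) =
      ∑ c ∈ S, (nv G F x c : ℝ) := by
    push_cast
    rfl
  rw [← h3]
  exact_mod_cast h2

open scoped Classical in
/-- also used for (A2) -/
theorem nv_sum {Λ : Type} [Fintype Λ] {d q : ℕ} (ha : 0 < ra d q) (G : SimpleGraph Λ) (ev : Λ → Prop)
    (A₁ : Finset (Fin q)) (F₁ : Λ → Fin q) (x : Λ) (h1 : TyE d G ev A₁ F₁ x)
    (S : Finset (Fin q)) (hS : (S.card : ℝ) ≤ Real.exp (-ra d q) * q) :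
    ∑ c ∈ S, (nv G F₁ x c : ℝ) ≤ 6 * ra d q * Real.exp (-ra d q / 2) * q := by
  have hq : (0 : ℝ) ≤ q := Nat.cast_nonneg q
  have h3 := h1.e3
  have he := v10c_exp (ra d q)
  set a : ℝ := ra d q with hadef
  set E : ℝ := Real.exp (-a / 2) with hE
  have hE0 : 0 < E := Real.exp_pos _
  have hfour : (∑ c, (nv G F₁ x c : ℝ) ^ 2) ^ 2 ≤ (32 * a ^ 2 * q) ^ 2 := by
    have h4 := sq_sum_le_card_mul_sum_sq (s := (univ : Finset (Fin q)))
      (f := fun c => (nv G F₁ x c : ℝ) ^ 2)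
    rw [Finset.card_univ, Fintype.card_fin] at h4
    have h5 : ∑ c : Fin q, ((nv G F₁ x c : ℝ) ^ 2) ^ 2 = ∑ c : Fin q, (nv G F₁ x c : ℝ) ^ 4 :=
      Finset.sum_congr rfl fun c _ => by ring
    rw [h5] at h4
    have h6 : (q : ℝ) * ∑ c : Fin q, (nv G F₁ x c : ℝ) ^ 4 ≤ q * (1000 * a ^ 4 * q) :=
      mul_le_mul_of_nonneg_left h3 hq
    have h7 : (0 : ℝ) ≤ a ^ 4 * q ^ 2 := by positivity
    nlinarith
  have htwo : ∑ c, (nv G F₁ x c : ℝ) ^ 2 ≤ 32 * a ^ 2 * q := v10c_sq_le hfour (by positivity)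
  have hS2 : ∑ c ∈ S, (nv G F₁ x c : ℝ) ^ 2 ≤ 32 * a ^ 2 * q :=
    (Finset.sum_le_sum_of_subset_of_nonneg (Finset.subset_univ S) fun c _ _ => by positivity).trans
      htwo
  refine v10c_sq_le ?_ (by positivity)
  have h8 := sq_sum_le_card_mul_sum_sq (s := S) (f := fun c => (nv G F₁ x c : ℝ))
  refine h8.trans ?_
  have h9 : (S.card : ℝ) * ∑ c ∈ S, (nv G F₁ x c : ℝ) ^ 2 ≤
      (Real.exp (-a) * q) * (32 * a ^ 2 * q) :=
    mul_le_mul hS hS2 (Finset.sum_nonneg fun c _ => by positivity) (by positivity)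
  refine h9.trans ?_
  rw [← he]
  have h10 : (0 : ℝ) ≤ E ^ 2 * a ^ 2 * q ^ 2 := by positivity
  nlinarith

open scoped Classical in
theorem row34 {Λ : Type} [Fintype Λ] {d q : ℕ} (ha : 1 ≤ ra d q) (G : SimpleGraph Λ) (ev : Λ → Prop)
    (J A₁ A₂ : Finset (Fin q)) (hJ : ∀ c, c ∉ J → c ∈ A₁ ∨ c ∉ A₂) (F₁ F₂ : Λ → Fin q) (x : Λ) (hx : ev x)
    (h1 : TyE d G ev A₁ F₁ x) (h2 : TyE d G ev A₂ F₂ x) :
    (((nb G x).filter fun y' => F₁ y' ∈ Rv G F₂ x ∧ F₁ y' ∉ J).card : ℝ) ≤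
      7 * ra d q * Real.exp (-ra d q / 2) * q := by
  have hq : (0 : ℝ) ≤ q := Nat.cast_nonneg q
  set S : Finset (Fin q) := (Rv G F₂ x).filter fun c => ¬ tS ev A₂ x c with hSdef
  have hS : (S.card : ℝ) ≤ Real.exp (-ra d q) * q := h2.e2
  have hn := nv_sum (by linarith : (0 : ℝ) < ra d q) G ev A₁ F₁ x h1 S hS
  have h4 := h1.e4
  set S₁ : Finset (Fin q) := univ.filter fun c => tS ev A₁ x c with hS1
  have hn1 : ∑ c ∈ S₁, (nv G F₁ x c : ℝ) ≤ Real.exp (-ra d q / 2) * q := by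
    refine (Finset.sum_le_sum fun c _ => ?_).trans h4
    have h5 : nv G F₁ x c ≤ nv G F₁ x c ^ 2 := Nat.le_self_pow two_ne_zero _
    exact_mod_cast h5
  set T : Finset Λ := (nb G x).filter fun y' => F₁ y' ∈ Rv G F₂ x ∧ F₁ y' ∉ J with hT
  have hTm : ∀ y ∈ T, G.Adj x y ∧ F₁ y ∈ Rv G F₂ x ∧ F₁ y ∉ J := by
    intro y hy
    rw [hT, Finset.mem_filter] at hy
    refine ⟨?_, hy.2.1, hy.2.2⟩
    have h6 := hy.1
    unfold nb at h6
    rw [Finset.mem_filter] at h6
    exact h6.2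
  have hc1 := v10c_count G F₁ x S₁ (T.filter fun y => F₁ y ∈ S₁) (fun y hy => by
    rw [Finset.mem_filter] at hy
    exact ⟨(hTm y hy.1).1, hy.2⟩)
  have hc2 := v10c_count G F₁ x S (T.filter fun y => ¬ F₁ y ∈ S₁) (fun y hy => by
    rw [Finset.mem_filter] at hy
    obtain ⟨h7, h8, h9⟩ := hTm y hy.1
    refine ⟨h7, ?_⟩
    rw [hSdef, Finset.mem_filter]
    refine ⟨h8, fun h10 => ?_⟩
    have h11 : F₁ y ∈ A₂ := h10.1 hx
    rcases hJ _ h9 with h12 | h12
    · apply hy.2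
      rw [hS1, Finset.mem_filter]
      exact ⟨Finset.mem_univ _, ⟨fun _ => h12, fun _ => hx⟩⟩
    · exact h12 h11)
  have hsum : (T.card : ℝ) =
      ((T.filter fun y => F₁ y ∈ S₁).card : ℝ) + ((T.filter fun y => ¬ F₁ y ∈ S₁).card : ℝ) := by
    exact_mod_cast (Finset.card_filter_add_card_filter_not (s := T) (fun y => F₁ y ∈ S₁)).symm
  rw [hsum]
  have hE0 : 0 < Real.exp (-ra d q / 2) := Real.exp_pos _
  have h13 : Real.exp (-ra d q / 2) * q ≤ ra d q * Real.exp (-ra d q / 2) * q := by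
    have : 0 ≤ Real.exp (-ra d q / 2) * q := by positivity
    nlinarith
  nlinarith

end Pool.Agent.LC

end

/-! ### from `Lib_MP_2c424f_thr.N5` -/

section

/-!
# THR N5: smoothed indicators and conditional means (paper proof: N5)

`t` even, `x` in the class `b`: `PP^t (bq - gg)(x) = ∑_{y ∈ b} K(x,y)(bq - gg)(y)`.  On the fibre of the class `b`, `gg c` at sites of
`b` is constant and it is the mean of `bq c` (`fm_ind`).  `fm_var` with `c_y = q K(x,y)`: mean of the square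
`≤ 4 q² ∑_y K² ≤ 4 q² κ`, `κ = (8s)^(2s)/(2d)^s`, `s ≥ 10`: sum over `x ∈ b` `≤ N/(4 d^4)` for `d` large (`q ≤ 2d`).
`WOPi_tail` for `Ψ = ∑_{x ∈ b} (PP^t (bq - gg) x)²`: a change at `y ∈ b` changes `PP^t bq x` by `≤ q K(x,y)`, `|PP^t (bq-gg)| ≤ q`, so the square
by `≤ 2q² K(x,y)`; total `≤ 2 q² ≤ d^3`... (`κ = 3`, `q ≤ 2d`, `d ≥ 8`).  Union over `b`, `c`.
-/

set_option autoImplicit false

open Finset Filter

namespace Pool.Agent.THR

open Pool.Agent.LO Pool.Agent.LIN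

/-- `bq - gg` -/
private noncomputable def N5_D {d k q : ℕ} (c : Fin q) (f : Site d k → Fin q) (v : Site d k) : ℝ :=
  bq c f v - gg c f v

/-- the statistic -/
private noncomputable def N5_Psi {d k q : ℕ} (t : ℕ) (b : Bool) (c : Fin q) (f : Site d k → Fin q) : ℝ :=
  ∑ x ∈ cls b d k, PP^[t] (N5_D c f) x ^ 2

private theorem N5_upd {d k q : ℕ} {b : Bool} {f h : Site d k → Fin q} (hk : 1 ≤ k) (hh : h ∈ fib b f) {v : Site d k}
    (hv : v ∈ cls b d k) {γ : Fin q} (hγ : γ ∉ SS f v) : Function.update h v γ ∈ fib b f := by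
  have _ := hk
  unfold fib at hh ⊢
  rw [Fintype.mem_piFinset] at hh ⊢
  intro x
  by_cases hx : x = v
  · subst hx
    rw [if_pos hv, Function.update_self, mem_compl]
    exact hγ
  · rw [Function.update_of_ne hx]
    exact hh x

private theorem N5_gg_fib {d k q : ℕ} {b : Bool} {f h : Site d k → Fin q} (hk : 1 ≤ k) (hh : h ∈ fib b f) (c : Fin q)
    {x : Site d k} (hx : x ∈ cls b d k) : gg c h x = gg c f x := by
  have h1 := fib_SS hk b hh x hx
  unfold gg zz av
  rw [h1]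

private theorem N5_bq_bd {d k q : ℕ} (c : Fin q) (f : Site d k → Fin q) (x : Site d k) : 0 ≤ bq c f x ∧ bq c f x ≤ q := by
  unfold bq
  split_ifs
  · exact ⟨Nat.cast_nonneg _, le_rfl⟩
  · exact ⟨le_rfl, Nat.cast_nonneg _⟩

private theorem N5_gg_bd {d k q : ℕ} (c : Fin q) {f : Site d k → Fin q} (hf : Prp f) (x : Site d k) :
    0 ≤ gg c f x ∧ gg c f x ≤ q := by
  obtain ⟨h1, h2⟩ := zz_av_le hf x c
  have hq : (0 : ℝ) ≤ q := Nat.cast_nonneg _
  have h3 : gg c f x = q * (zz f x c / (av f x : ℝ)) := by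
    unfold gg
    ring
  rw [h3]
  exact ⟨mul_nonneg hq h1, by nlinarith⟩

private theorem N5_D_bd {d k q : ℕ} (c : Fin q) {f : Site d k → Fin q} (hf : Prp f) (x : Site d k) :
    |N5_D c f x| ≤ q := by
  obtain ⟨h1, h2⟩ := N5_bq_bd c f x
  obtain ⟨h3, h4⟩ := N5_gg_bd c hf x
  unfold N5_D
  rw [abs_le]
  exact ⟨by linarith, by linarith⟩

private theorem N5_PP_bd {d k q : ℕ} (hd : 1 ≤ d) (t : ℕ) (c : Fin q) {f : Site d k → Fin q} (hf : Prp f) (x : Site d k) :
    |PP^[t] (N5_D c f) x| ≤ q :=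
  (PPt_abs t _ x).trans ((PPt_mono t (fun y => N5_D_bd c hf y) x).trans (PPt_const hd t _ x).le)

/-- for even `t` and `x` in the class only the class matters -/
private theorem N5_repr {d k : ℕ} (hk : 1 ≤ k) {t : ℕ} (ht : Even t) {b : Bool} {x : Site d k} (hx : x ∈ cls b d k)
    (g : Site d k → ℝ) : PP^[t] g x = ∑ y ∈ cls b d k, Kt t x y * g y := by
  rw [Kt_repr]
  symm
  refine sum_subset (subset_univ _) fun y _ hy => ?_
  rw [Kt_cls hk t ht b x y hx ((cls_not b y).2 hy), zero_mul]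

/-- difference after a change at one site -/
private theorem N5_diff {d k q : ℕ} (hk : 1 ≤ k) {t : ℕ} (ht : Even t) {b : Bool} (c : Fin q)
    {f h : Site d k → Fin q} (hh : h ∈ fib b f) {v : Site d k} (hv : v ∈ cls b d k) {γ : Fin q} (hγ : γ ∉ SS f v)
    {x : Site d k} (hx : x ∈ cls b d k) :
    |PP^[t] (N5_D c (Function.update h v γ)) x - PP^[t] (N5_D c h) x| ≤ q * Kt t x v := by
  classical
  have hh' := N5_upd hk hh hv hγ
  rw [N5_repr hk ht hx, N5_repr hk ht hx, ← sum_sub_distrib]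
  have h1 : ∀ y ∈ cls b d k, Kt t x y * N5_D c (Function.update h v γ) y - Kt t x y * N5_D c h y =
      if y = v then Kt t x v * (bq c (Function.update h v γ) v - bq c h v) else 0 := by
    intro y hy
    have e1 : gg c (Function.update h v γ) y = gg c h y := by
      rw [N5_gg_fib hk hh' c hy, N5_gg_fib hk hh c hy]
    unfold N5_D
    rw [e1]
    by_cases hyv : y = v
    · subst hyv
      rw [if_pos rfl]
      ring
    · have e2 : bq c (Function.update h v γ) y = bq c h y := by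
        unfold bq
        rw [Function.update_of_ne hyv]
      rw [if_neg hyv, e2]
      ring
  rw [sum_congr rfl h1, sum_ite_eq' (cls b d k) v, if_pos hv, abs_mul, abs_of_nonneg (Kt_nonneg t x v), mul_comm]
  refine mul_le_mul_of_nonneg_right ?_ (Kt_nonneg t x v)
  obtain ⟨h3, h4⟩ := N5_bq_bd c (Function.update h v γ) v
  obtain ⟨h5, h6⟩ := N5_bq_bd c h v
  rw [abs_le]
  exact ⟨by linarith, by linarith⟩

private theorem N5_Kt_row {d k : ℕ} (hd : 1 ≤ d) (t : ℕ) (v : Site d k) (A : Finset (Site d k)) :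
    ∑ x ∈ A, Kt t x v ≤ 1 := by
  calc ∑ x ∈ A, Kt t x v ≤ ∑ x, Kt t x v :=
        sum_le_sum_of_subset_of_nonneg (subset_univ _) fun x _ _ => Kt_nonneg t x v
    _ = ∑ x, Kt t v x := sum_congr rfl fun x _ => Kt_symm t x v
    _ = 1 := Kt_one hd t v

private theorem N5_lip {d k q : ℕ} (hd : 8 ≤ d) (hk : 1 ≤ k) (hq : (q : ℝ) ≤ 2 * d) {t : ℕ} (ht : Even t) (b : Bool)
    (c : Fin q) : Lip b ((d : ℝ) ^ 3) (N5_Psi (d := d) (k := k) t b c) := by
  classical
  intro f hf h hh v hv γ hγ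
  have hf' : Prp f := by
    unfold prps at hf
    exact (mem_filter.1 hf).2
  have hh' := N5_upd hk hh hv hγ
  have hph : Prp h := fib_prp hk b hf' hh
  have hph' : Prp (Function.update h v γ) := fib_prp hk b hf' hh'
  have hd1 : 1 ≤ d := by omega
  have hd8 : (8 : ℝ) ≤ d := by exact_mod_cast hd
  have hq0 : (0 : ℝ) ≤ q := Nat.cast_nonneg _
  unfold N5_Psi
  rw [← sum_sub_distrib]
  refine (abs_sum_le_sum_abs _ _).trans ?_
  have h1 : ∀ x ∈ cls b d k, |PP^[t] (N5_D c (Function.update h v γ)) x ^ 2 - PP^[t] (N5_D c h) x ^ 2| ≤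
      2 * (q : ℝ) ^ 2 * Kt t x v := by
    intro x hx
    have e1 := N5_diff hk ht c hh hv hγ hx
    have e2 := N5_PP_bd hd1 t c hph x
    have e3 := N5_PP_bd hd1 t c hph' x
    set A := PP^[t] (N5_D c (Function.update h v γ)) x
    set B := PP^[t] (N5_D c h) x
    have e4 : A ^ 2 - B ^ 2 = (A - B) * (A + B) := by ring
    rw [e4, abs_mul]
    have e5 : |A + B| ≤ 2 * q := (abs_add_le A B).trans (by linarith)
    calc |A - B| * |A + B| ≤ (q * Kt t x v) * (2 * q) :=
          mul_le_mul e1 e5 (abs_nonneg _) (mul_nonneg hq0 (Kt_nonneg t x v))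
      _ = 2 * (q : ℝ) ^ 2 * Kt t x v := by ring
  refine (sum_le_sum h1).trans ?_
  rw [← mul_sum]
  have h2 := N5_Kt_row hd1 t v (cls b d k)
  calc 2 * (q : ℝ) ^ 2 * ∑ x ∈ cls b d k, Kt t x v ≤ 2 * (q : ℝ) ^ 2 * 1 :=
        mul_le_mul_of_nonneg_left h2 (by positivity)
    _ = 2 * (q : ℝ) ^ 2 := by ring
    _ ≤ 2 * (2 * (d : ℝ)) ^ 2 := by
        have := pow_le_pow_left₀ hq0 hq 2
        linarith
    _ ≤ (d : ℝ) ^ 3 := by nlinarith [sq_nonneg (d : ℝ)]

private theorem N5_fm_bq {d k q : ℕ} (hk : 1 ≤ k) {b : Bool} {f : Site d k → Fin q} (hf : Prp f) (c : Fin q)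
    {v : Site d k} (hv : v ∈ cls b d k) : fm b (fun h => bq c h v) f = gg c f v := by
  have h1 : (fun h : Site d k → Fin q => bq c h v) = fun h => (q : ℝ) * (if h v = c then (1 : ℝ) else 0) := by
    funext h
    unfold bq
    split_ifs <;> ring
  rw [h1, fm_mul, fm_ind hk b hf v hv c]
  unfold gg
  ring

private theorem N5_mean0 {d k q : ℕ} (hk : 1 ≤ k) {t : ℕ} (ht : Even t) {b : Bool} {f : Site d k → Fin q} (hf : Prp f)
    (c : Fin q) {x : Site d k} (hx : x ∈ cls b d k) : fm b (fun h => PP^[t] (N5_D c h) x) f = 0 := by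
  have h1 : (fun h : Site d k → Fin q => PP^[t] (N5_D c h) x) = fun h => ∑ y ∈ cls b d k, Kt t x y * N5_D c h y := by
    funext h
    exact N5_repr hk ht hx _
  rw [h1, fm_sum]
  refine sum_eq_zero fun y hy => ?_
  rw [fm_mul]
  have h2 : fm b (fun h => N5_D c h y) f = 0 := by
    have h3 : fm b (fun h => N5_D c h y) f = fm b (fun h => bq c h y) f - fm b (fun h => gg c h y) f := by
      rw [← fm_sub]
      rfl
    have h4 : fm b (fun h => gg c h y) f = gg c f y := by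
      rw [fm_congr b (G := fun _ => gg c f y) (fun h hh => N5_gg_fib hk hh c hy), fm_const b hf]
    rw [h3, h4, N5_fm_bq hk hf c hy, sub_self]
  rw [h2, mul_zero]

private theorem N5_var {d k q : ℕ} (hd : 1 ≤ d) (hk : 2 ≤ k) {t : ℕ} (ht : Even t) {b : Bool} {f : Site d k → Fin q}
    (hf : Prp f) (c : Fin q) {κ : ℝ} (hκ : ∀ u y : Site d k, Kt t u y ≤ κ) {x : Site d k} (hx : x ∈ cls b d k) :
    fm b (fun h => PP^[t] (N5_D c h) x ^ 2) f ≤ 4 * ((q : ℝ) ^ 2 * κ) := by
  have hk1 : 1 ≤ k := by omega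
  have hq0 : (0 : ℝ) ≤ q := Nat.cast_nonneg _
  have h1 := fm_var hk b hf (fun h => PP^[t] (N5_D c h) x) (fun v => (q : ℝ) * Kt t x v)
    (fun v => mul_nonneg hq0 (Kt_nonneg t x v))
    (fun h hh v hv γ hγ => N5_diff hk1 ht c hh hv hγ hx)
  rw [N5_mean0 hk1 ht hf c hx] at h1
  simp only [sub_zero] at h1
  refine h1.trans ?_
  refine mul_le_mul_of_nonneg_left ?_ (by norm_num)
  calc ∑ v ∈ cls b d k, ((q : ℝ) * Kt t x v) ^ 2 ≤ ∑ v ∈ cls b d k, (q : ℝ) ^ 2 * κ * Kt t x v := by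
        refine sum_le_sum fun v _ => ?_
        have e1 := hκ x v
        have e2 := Kt_nonneg t x v
        have e3 : Kt t x v * Kt t x v ≤ κ * Kt t x v := mul_le_mul_of_nonneg_right e1 e2
        have e4 : 0 ≤ (q : ℝ) ^ 2 := sq_nonneg _
        calc ((q : ℝ) * Kt t x v) ^ 2 = (q : ℝ) ^ 2 * (Kt t x v * Kt t x v) := by ring
          _ ≤ (q : ℝ) ^ 2 * (κ * Kt t x v) := mul_le_mul_of_nonneg_left e3 e4
          _ = (q : ℝ) ^ 2 * κ * Kt t x v := by ring
    _ = (q : ℝ) ^ 2 * κ * ∑ v ∈ cls b d k, Kt t x v := by rw [mul_sum]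
    _ ≤ (q : ℝ) ^ 2 * κ * 1 := by
        refine mul_le_mul_of_nonneg_left ?_ ?_
        · calc ∑ v ∈ cls b d k, Kt t x v ≤ ∑ v, Kt t x v :=
                sum_le_sum_of_subset_of_nonneg (subset_univ _) fun v _ _ => Kt_nonneg t x v
            _ = 1 := Kt_one hd t x
        · exact mul_nonneg (sq_nonneg _) ((Kt_nonneg t x x).trans (hκ x x))
    _ = (q : ℝ) ^ 2 * κ := mul_one _

private theorem N5_fm_Psi {d k q : ℕ} (hd : 1 ≤ d) (hk : 2 ≤ k) {t : ℕ} (ht : Even t) (b : Bool) {f : Site d k → Fin q}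
    (hf : Prp f) (c : Fin q) {κ : ℝ} (hκ : ∀ u y : Site d k, Kt t u y ≤ κ) :
    fm b (N5_Psi t b c) f ≤ NN d k / 2 * (4 * ((q : ℝ) ^ 2 * κ)) := by
  have h1 : fm b (N5_Psi t b c) f = ∑ x ∈ cls b d k, fm b (fun h => PP^[t] (N5_D c h) x ^ 2) f := by
    rw [← fm_sum]
    rfl
  rw [h1]
  refine (sum_le_sum fun x hx => N5_var hd hk ht hf c hκ hx).trans ?_
  rw [sum_const, nsmul_eq_mul, card_cls hd (by omega) b]

/-- the bound of the kernel is small -/
private theorem N5_kappa (s : ℕ) (hs : 10 ≤ s) : ∀ᶠ d : ℕ in atTop,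
    32 * (d : ℝ) ^ 6 * ((8 * (s : ℝ)) ^ (2 * s) / (2 * (d : ℝ)) ^ s) ≤ 1 := by
  have h1 : ∀ᶠ d : ℕ in atTop, (32 * (8 * (s : ℝ)) ^ (2 * s) : ℝ) ≤ (d : ℝ) :=
    tendsto_natCast_atTop_atTop.eventually_ge_atTop _
  filter_upwards [h1, eventually_ge_atTop 1] with d hd hd1
  have hd1' : (1 : ℝ) ≤ d := by exact_mod_cast hd1
  have hd0 : (0 : ℝ) < d := by linarith
  rw [← mul_div_assoc, div_le_one (by positivity)]
  calc 32 * (d : ℝ) ^ 6 * (8 * (s : ℝ)) ^ (2 * s) = (32 * (8 * (s : ℝ)) ^ (2 * s)) * (d : ℝ) ^ 6 := by ring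
    _ ≤ d * (d : ℝ) ^ 6 := mul_le_mul_of_nonneg_right hd (by positivity)
    _ = (d : ℝ) ^ 7 := by ring
    _ ≤ (d : ℝ) ^ s := pow_le_pow_right₀ hd1' (by omega)
    _ ≤ (2 * (d : ℝ)) ^ s := pow_le_pow_left₀ hd0.le (by linarith) s

private theorem N5_split {d k : ℕ} (g : Site d k → ℝ) : ∑ x, g x = ∑ x ∈ cls true d k, g x + ∑ x ∈ cls false d k, g x := by
  classical
  have h1 : (cls false d k : Finset (Site d k)) = (cls true d k)ᶜ := by
    ext x
    rw [mem_compl]
    exact cls_not true x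
  rw [h1, sum_add_sum_compl]

private theorem N5_final {d : ℕ} {N S : ℝ} (hd : (8 : ℝ) ≤ d) (hN : 0 ≤ N)
    (hS : S ≤ N / 2 * (1 / (2 * (d : ℝ) ^ 4)) + N / (d : ℝ) ^ 5) : S ≤ N / (2 * (d : ℝ) ^ 4) := by
  refine hS.trans ?_
  have hd0 : (0 : ℝ) < d := by linarith
  have h1 : N / (d : ℝ) ^ 5 ≤ N / (4 * (d : ℝ) ^ 4) := by
    refine div_le_div_of_nonneg_left hN (by positivity) ?_
    have : 0 < (d : ℝ) ^ 4 := by positivity
    nlinarith
  have h2 : N / 2 * (1 / (2 * (d : ℝ) ^ 4)) = N / (4 * (d : ℝ) ^ 4) := by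
    field_simp
    ring
  have h3 : N / (2 * (d : ℝ) ^ 4) = N / (4 * (d : ℝ) ^ 4) + N / (4 * (d : ℝ) ^ 4) := by
    field_simp
    ring
  rw [h2, h3]
  linarith

theorem smooth {ε : ℝ} (hε : 0 < ε) (hε1 : ε ≤ 1) (t : ℕ) (ht : Even t) (ht' : 20 ≤ t) :
    WOP ε fun d k q f => ∀ c : Fin q, ∑ x, (PP^[t] (bq c f) x - PP^[t] (gg c f) x) ^ 2 ≤ NN d k / (d : ℝ) ^ 4 := by
  obtain ⟨s, hs⟩ := ht.two_dvd
  have hs10 : 10 ≤ s := by omega
  have hL : EvT ε fun d k q => ∀ i : Bool × Fin q, True → Lip i.1 ((d : ℝ) ^ 3) (N5_Psi (d := d) (k := k) t i.1 i.2) := by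
    refine (EvT_reg hε hε1 8).mono ?_
    rintro d k q ⟨hd, -, hk, -, hq2, -⟩ i -
    have hd8 : 8 ≤ d := by exact_mod_cast hd
    have hk8 : 8 ≤ k := by exact_mod_cast hk
    have hd0 : (0 : ℝ) ≤ d := Nat.cast_nonneg _
    exact N5_lip hd8 (by omega) (by nlinarith) ht i.1 i.2
  have h1 := WOPi_tail hε hε1 (fun _ _ q => Bool × Fin q) (fun _ _ _ i => i.1) (fun _ _ _ _ => True)
    (fun d k _ i => N5_Psi (d := d) (k := k) t i.1 i.2) 3 5 hL
  have h2 := h1.all (fun _ q => 2 * (q : ℝ)) (fun d k q => by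
    rw [Fintype.card_prod, Fintype.card_bool, Fintype.card_fin]
    push_cast
    exact le_rfl)
  refine h2.mono ?_
  refine (((EvT_reg hε hε1 8).and (EvT_d (N5_kappa s hs10))).and (EvT_pow fun _ _ => 2 * (s : ℝ) + 1)).mono ?_
  rintro d k q ⟨⟨⟨hd, -, hk, -, hq2, -⟩, hκ⟩, hpow⟩ f hf h3 c
  have hf' : Prp f := by
    classical
    unfold prps at hf
    exact (mem_filter.1 hf).2
  have hd8 : 8 ≤ d := by exact_mod_cast hd
  have hk8 : 8 ≤ k := by exact_mod_cast hk
  have hd0 : (0 : ℝ) < d := by linarith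
  have hN : 0 ≤ NN d k := by
    unfold NN
    positivity
  have hpow' : 2 * s < 2 ^ k := by
    have : ((2 * s + 1 : ℕ) : ℝ) ≤ ((2 ^ k : ℕ) : ℝ) := by
      push_cast
      exact hpow
    have := Nat.cast_le.1 this
    omega
  have hK : ∀ u y : Site d k, Kt t u y ≤ (8 * (s : ℝ)) ^ (2 * s) / (2 * (d : ℝ)) ^ s := by
    intro u y
    rw [hs]
    exact Kt_sup (by omega) s hpow' u y
  set κ : ℝ := (8 * (s : ℝ)) ^ (2 * s) / (2 * (d : ℝ)) ^ s with hκd
  have hκ0 : 0 ≤ κ := by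
    rw [hκd]
    positivity
  have hq0 : (0 : ℝ) ≤ q := Nat.cast_nonneg _
  have hq2' : (q : ℝ) ≤ 2 * d := by nlinarith
  have h4 : 4 * ((q : ℝ) ^ 2 * κ) ≤ 1 / (2 * (d : ℝ) ^ 4) := by
    rw [le_div_iff₀ (by positivity)]
    calc 4 * ((q : ℝ) ^ 2 * κ) * (2 * (d : ℝ) ^ 4) ≤ 4 * ((2 * (d : ℝ)) ^ 2 * κ) * (2 * (d : ℝ) ^ 4) := by
          have e1 : (q : ℝ) ^ 2 ≤ (2 * (d : ℝ)) ^ 2 := pow_le_pow_left₀ hq0 hq2' 2
          have e2 : (q : ℝ) ^ 2 * κ ≤ (2 * (d : ℝ)) ^ 2 * κ := mul_le_mul_of_nonneg_right e1 hκ0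
          have e3 : 0 ≤ 2 * (d : ℝ) ^ 4 := by positivity
          nlinarith
      _ = 32 * (d : ℝ) ^ 6 * κ := by ring
      _ ≤ 1 := hκ
  have h5 : ∀ b : Bool, N5_Psi t b c f ≤ NN d k / (2 * (d : ℝ) ^ 4) := by
    intro b
    have e1 := h3 (b, c) trivial
    have e2 := N5_fm_Psi (by omega : 1 ≤ d) (by omega : 2 ≤ k) ht b hf' c hK
    refine N5_final hd hN (e1.trans ?_)
    have e3 : NN d k / 2 * (4 * ((q : ℝ) ^ 2 * κ)) ≤ NN d k / 2 * (1 / (2 * (d : ℝ) ^ 4)) :=
      mul_le_mul_of_nonneg_left h4 (by linarith)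
    have e4 := e2.trans e3
    exact add_le_add e4 le_rfl
  have h6 : ∑ x, (PP^[t] (bq c f) x - PP^[t] (gg c f) x) ^ 2 = ∑ x, PP^[t] (N5_D c f) x ^ 2 := by
    refine sum_congr rfl fun x _ => ?_
    have := PPt_sub t (bq c f) (gg c f) x
    unfold N5_D
    rw [this]
  rw [h6, N5_split]
  have e5 := h5 true
  have e6 := h5 false
  unfold N5_Psi at e5 e6
  have e7 : NN d k / (d : ℝ) ^ 4 = NN d k / (2 * (d : ℝ) ^ 4) + NN d k / (2 * (d : ℝ) ^ 4) := by
    field_simp
    ring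
  rw [e7]
  exact add_le_add e5 e6

end Pool.Agent.THR

end

/-! ### from `Lib_MP_2c424f_thr.A2` -/

section

/-!
# THR A2: fixed points of `F ∘ F` (paper proof: A2)

`y = F (F y)`, `z = F y`: `y e^(a z) = z e^(a y) = 1/α*`.
* If `y = z`: `y e^(a y) = 1/α*`, unique `y` (strictly increasing), the point `yM` (`YM`); at `y = 1`: `e^a > e^a / cosh (a m)`, so `yM < 1`.
* If `y ≠ z`, say `y < z`: with `θ = a (z-y)/2 > 0`: `a y = θ e^(-θ)/sinh θ`, `a z = θ e^θ/sinh θ` (from `z/y = e^(a(z-y))`) and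
  `log (a/α*) = log (a y) + a z = log (θ/sinh θ) + θ coth θ =: K θ`, `K' = 1/θ - θ/sinh² θ > 0`; `θ = a m` is a solution
  (`y = 1-m`, `z = 1+m`), so it is the only one.
* `1 - m < yM`: otherwise `yM ≤ 1-m < 1+m = F (1-m) ≤ F yM = yM`, contradiction (`F` is decreasing).
-/

set_option autoImplicit false

open Finset Filter

namespace Pool.Agent.THR

private lemma Fy_anti_A2 (a m : ℝ) (ha : 0 < a) : StrictAnti (Fy a m) := by
  intro y y' hyy
  have h0 := als_pos a m
  unfold Fy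
  apply div_lt_div_of_pos_right _ h0
  apply Real.exp_lt_exp.mpr
  have := mul_lt_mul_of_pos_left hyy ha
  linarith

private lemma Fy_pos_A2 (a m y : ℝ) : 0 < Fy a m y := div_pos (Real.exp_pos _) (als_pos a m)

private lemma one_lt_cosh_A2 (a m : ℝ) (ha : 1 < a) (h : 0 < m) : 1 < Real.cosh (a * m) :=
  Real.one_lt_cosh.mpr (mul_pos (by linarith) h).ne'

theorem ym_exists (a m : ℝ) (ha : 1 < a) (h : MFE a m) : ∃ y : ℝ, YM a m y := by
  have hal := als_pos a m
  have hc := one_lt_cosh_A2 a m ha h.1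
  have hcont : ContinuousOn (fun y : ℝ => y - Fy a m y) (Set.Icc 0 1) := by
    apply Continuous.continuousOn
    unfold Fy
    fun_prop
  have h0 : (fun y : ℝ => y - Fy a m y) 0 ≤ 0 := by
    have := Fy_pos_A2 a m 0
    simp only
    linarith
  have h1 : 0 ≤ (fun y : ℝ => y - Fy a m y) 1 := by
    have : Fy a m 1 ≤ 1 := by
      unfold Fy als
      rw [mul_one, div_le_one (by positivity)]
      exact le_mul_of_one_le_right (Real.exp_pos _).le hc.le
    simp only
    linarith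
  obtain ⟨y, hy, hy'⟩ := intermediate_value_Icc (zero_le_one) hcont ⟨h0, h1⟩
  refine ⟨y, hy.1, ?_⟩
  simp only at hy'
  linarith

theorem ym_bounds (a m y : ℝ) (ha : 1 < a) (h : MFE a m) (hy : YM a m y) : 1 - m < y ∧ y < 1 := by
  have ha0 : 0 < a := by linarith
  have hanti := Fy_anti_A2 a m ha0
  have hc := one_lt_cosh_A2 a m ha h.1
  constructor
  · by_contra hcon
    push Not at hcon
    have h1 := hanti.antitone hcon
    rw [Fy_sub a m h, ← hy.2] at h1
    have := h.1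
    linarith
  · by_contra hcon
    push Not at hcon
    have h1 := hanti.antitone hcon
    rw [← hy.2] at h1
    have h2 : Fy a m 1 < 1 := by
      unfold Fy als
      rw [mul_one, div_lt_one (by positivity)]
      exact lt_mul_of_one_lt_right (Real.exp_pos _) hc
    linarith

theorem ym_unique (a m y y' : ℝ) (ha : 1 < a) (hy : YM a m y) (hy' : YM a m y') : y = y' := by
  have hanti := Fy_anti_A2 a m (by linarith)
  rcases lt_trichotomy y y' with hlt | heq | hgt
  · have := hanti hlt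
    rw [← hy.2, ← hy'.2] at this
    linarith
  · exact heq
  · have := hanti hgt
    rw [← hy.2, ← hy'.2] at this
    linarith

/-- the function `K` is strictly increasing -/
theorem K_mono : StrictMonoOn (fun θ : ℝ => Real.log (θ / Real.sinh θ) + θ * Real.cosh θ / Real.sinh θ) (Set.Ioi 0) := by
  have hder : ∀ θ : ℝ, 0 < θ → HasDerivAt
      (fun θ : ℝ => Real.log (θ / Real.sinh θ) + θ * Real.cosh θ / Real.sinh θ)
      (1 / θ - θ / Real.sinh θ ^ 2) θ := by
    intro θ hθ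
    have hs : 0 < Real.sinh θ := Real.sinh_pos_iff.mpr hθ
    have h1 : HasDerivAt (fun θ : ℝ => θ / Real.sinh θ)
        ((1 * Real.sinh θ - θ * Real.cosh θ) / Real.sinh θ ^ 2) θ :=
      (hasDerivAt_id θ).div (Real.hasDerivAt_sinh θ) hs.ne'
    have h2 := h1.log (div_pos hθ hs).ne'
    have h3 : HasDerivAt (fun θ : ℝ => θ * Real.cosh θ / Real.sinh θ)
        (((1 * Real.cosh θ + θ * Real.sinh θ) * Real.sinh θ - θ * Real.cosh θ * Real.cosh θ) / Real.sinh θ ^ 2) θ :=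
      ((hasDerivAt_id θ).mul (Real.hasDerivAt_cosh θ)).div (Real.hasDerivAt_sinh θ) hs.ne'
    have h4 := h2.add h3
    refine h4.congr_deriv ?_
    have hcs : Real.cosh θ ^ 2 = Real.sinh θ ^ 2 + 1 := by
      have := Real.cosh_sq θ
      linarith
    field_simp
    ring_nf
    rw [hcs]
    ring
  apply strictMonoOn_of_deriv_pos (convex_Ioi 0)
  · intro θ hθ
    exact (hder θ hθ).continuousAt.continuousWithinAt
  · intro θ hθ
    rw [interior_Ioi] at hθ
    have hθ0 : 0 < θ := hθ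
    rw [(hder θ hθ0).deriv]
    have hs : θ < Real.sinh θ := Real.self_lt_sinh_iff.mpr hθ0
    have hs0 : 0 < Real.sinh θ := hθ0.trans hs
    rw [sub_pos, div_lt_div_iff₀ (by positivity) hθ0]
    nlinarith

private lemma pair_A2 {a α y z : ℝ} (ha : 0 < a) (hα : 0 < α) (hy : 0 < y) (hyz : y < z)
    (h1 : y * α = Real.exp (-(a * z))) (h2 : z * α = Real.exp (-(a * y))) :
    ∃ θ : ℝ, 0 < θ ∧ a * y = θ * Real.exp (-θ) / Real.sinh θ ∧
      Real.log (θ / Real.sinh θ) + θ * Real.cosh θ / Real.sinh θ = Real.log (a / α) := by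
  have hθ : 0 < a * (z - y) / 2 := by
    have := mul_pos ha (sub_pos.mpr hyz)
    linarith
  refine ⟨a * (z - y) / 2, hθ, ?_⟩
  set θ : ℝ := a * (z - y) / 2 with hθd
  have hs : 0 < Real.sinh θ := Real.sinh_pos_iff.mpr hθ
  have hz : 0 < z := hy.trans hyz
  -- z = y exp (2θ)
  have hz2 : z = y * Real.exp (2 * θ) := by
    have e1 : z * α = y * α * Real.exp (2 * θ) := by
      rw [h1, h2, ← Real.exp_add]
      congr 1
      rw [hθd]
      ring
    have : (z - y * Real.exp (2 * θ)) * α = 0 := by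
      linear_combination e1
    rcases mul_eq_zero.mp this with h | h
    · linarith
    · exact absurd h hα.ne'
  have hexp : Real.exp (2 * θ) = Real.exp θ * Real.exp θ := by
    rw [← Real.exp_add]; congr 1; ring
  have hsinh : Real.sinh θ = (Real.exp θ - Real.exp (-θ)) / 2 := Real.sinh_eq θ
  have hinv : Real.exp θ * Real.exp (-θ) = 1 := by
    rw [← Real.exp_add]; simp
  have hay : a * y = θ * Real.exp (-θ) / Real.sinh θ := by
    rw [eq_div_iff hs.ne', hsinh]
    have : 2 * θ = a * (y * Real.exp (2 * θ) - y) := by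
      rw [← hz2, hθd]; ring
    rw [hexp] at this
    have e2 : a * y * ((Real.exp θ - Real.exp (-θ)) / 2) =
        Real.exp (-θ) * (a * (y * (Real.exp θ * Real.exp θ) - y)) / 2 := by
      linear_combination (-(a * y * Real.exp θ / 2)) * hinv
    rw [e2, ← this]
    ring
  refine ⟨hay, ?_⟩
  have haz : a * z = θ * Real.exp θ / Real.sinh θ := by
    rw [hz2, ← mul_assoc, hay, hexp]
    have : θ * Real.exp (-θ) / Real.sinh θ * (Real.exp θ * Real.exp θ) =
        θ * (Real.exp θ * Real.exp (-θ)) * Real.exp θ / Real.sinh θ := by ring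
    rw [this, hinv, mul_one]
  have hlog1 : Real.log (a / α) = Real.log (a * y) + a * z := by
    have e3 : a / α = a * y * Real.exp (a * z) := by
      rw [div_eq_iff hα.ne']
      have : a * y * Real.exp (a * z) * α = a * (y * α) * Real.exp (a * z) := by ring
      rw [this, h1, mul_assoc, ← Real.exp_add]
      simp
    rw [e3, Real.log_mul (by positivity) (Real.exp_pos _).ne', Real.log_exp]
  have hlog2 : Real.log (a * y) = Real.log (θ / Real.sinh θ) - θ := by
    rw [hay]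
    have : θ * Real.exp (-θ) / Real.sinh θ = θ / Real.sinh θ * Real.exp (-θ) := by ring
    rw [this, Real.log_mul (by positivity) (Real.exp_pos _).ne', Real.log_exp]
    ring
  rw [hlog1, hlog2, haz]
  have hcosh : Real.cosh θ = Real.exp θ - Real.sinh θ := by
    rw [Real.cosh_eq, hsinh]; ring
  rw [hcosh]
  field_simp
  ring

theorem fixed_FF (a m yM y : ℝ) (ha : 1 < a) (h : MFE a m) (hM : YM a m yM) (hy : 0 ≤ y)
    (hF : y = Fy a m (Fy a m y)) : y = 1 - m ∨ y = yM ∨ y = 1 + m := by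
  have ha0 : 0 < a := by linarith
  have hα := als_pos a m
  have hmul : ∀ x w : ℝ, x = Fy a m w → x * als a m = Real.exp (-(a * w)) := by
    intro x w hxw
    rw [hxw]
    unfold Fy
    rw [div_mul_cancel₀ _ hα.ne']
  have hm1 : m < 1 := mfe_lt a m h
  have hm0 : 0 < m := h.1
  have href := pair_A2 ha0 hα (show (0 : ℝ) < 1 - m by linarith) (show 1 - m < 1 + m by linarith)
    (hmul _ _ (Fy_add a m h).symm) (hmul _ _ (Fy_sub a m h).symm)
  obtain ⟨θ₀, hθ₀, hθ₀y, hθ₀K⟩ := href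
  have key : ∀ x w : ℝ, 0 < x → x < w → x = Fy a m w → w = Fy a m x → x = 1 - m := by
    intro x w hx hxw h1 h2
    obtain ⟨θ, hθ, hθy, hθK⟩ := pair_A2 ha0 hα hx hxw (hmul _ _ h1) (hmul _ _ h2)
    have : θ = θ₀ := K_mono.injOn (Set.mem_Ioi.mpr hθ) (Set.mem_Ioi.mpr hθ₀) (by
      show Real.log (θ / Real.sinh θ) + θ * Real.cosh θ / Real.sinh θ =
        Real.log (θ₀ / Real.sinh θ₀) + θ₀ * Real.cosh θ₀ / Real.sinh θ₀
      rw [hθK, hθ₀K])
    rw [this, ← hθ₀y] at hθy
    exact mul_left_cancel₀ ha0.ne' hθy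
  set z : ℝ := Fy a m y with hz
  have hz0 : 0 < z := Fy_pos_A2 a m y
  have hy0 : 0 < y := by rw [hF]; exact Fy_pos_A2 a m z
  rcases lt_trichotomy y z with hlt | heq | hgt
  · left
    exact key y z hy0 hlt hF hz
  · right; left
    exact ym_unique a m y yM ha ⟨hy, by rw [← hz]; exact heq⟩ hM
  · right; right
    have := key z y hz0 hgt hz hF
    rw [hF, this]
    exact Fy_sub a m h

end Pool.Agent.THR

end

/-! ### from `Lib_MP_2c424f_thr.A3` -/

section

/-!
# THR A3: the deficit is nonnegative (paper proof: A3)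

For `y > 0`: `L' y = log y + a F y + log α*` (use `ell_eq` and `log (1-m) = - a (1+m) - log α*`, `log (1+m) = -a(1-m) - log α*` from
`Fy_add`, `Fy_sub`), so `L' y = 0 ↔ log y = - a F y - log α* ↔ y = F (F y)`, `L' y > 0 ↔ y > F (F y)`.
`F (F 0) > 0`, `F (F y) ≤ 1/α*`.  `L'' (1-m) = (1 - a²(1-m²))/(1-m) > 0` (`mfe_nondeg`), so `L'` changes sign from `-` to `+` at `1-m`;
zeros of `L'`: `1-m, yM, 1+m`.  So `L' < 0` on `(0,1-m)`, `L' > 0` on `(1-m,yM)`; on `(yM,1+m)` the sign is constant, and it is negative since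
`L (1-m) = L (1+m) = 0`; `L' > 0` on `(1+m,∞)` since `L' > 0` for large `y`.  Hence `L ≥ 0`, with zeros `1 ± m` only (`L` is continuous at `0`:
`negMulLog`, `L 0 > 0` since `L` is strictly decreasing on `[0,1-m]`).
-/

set_option autoImplicit false

open Finset Filter

namespace Pool.Agent.THR

private lemma log_Fy_A3 (a m z : ℝ) : Real.log (Fy a m z) = -(a * z) - Real.log (als a m) := by
  unfold Fy
  rw [Real.log_div (Real.exp_pos _).ne' (als_pos a m).ne', Real.log_exp]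

private lemma Fy_pos_A3 (a m y : ℝ) : 0 < Fy a m y := div_pos (Real.exp_pos _) (als_pos a m)

private lemma Fy_deriv_A3 (a m y : ℝ) : HasDerivAt (Fy a m) (-(a * Fy a m y)) y := by
  have h1 : HasDerivAt (fun y : ℝ => -(a * y)) (-(a * 1)) y := ((hasDerivAt_id y).const_mul a).neg
  have h2 : HasDerivAt (fun y : ℝ => Real.exp (-(a * y)) / als a m)
      (Real.exp (-(a * y)) * (-(a * 1)) / als a m) y := h1.exp.div_const _
  refine h2.congr_deriv ?_
  unfold Fy
  ring

theorem LL_deriv (a m y : ℝ) (ha : 1 < a) (h : MFE a m) (hy : 0 < y) :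
    HasDerivAt (LL a m) (Real.log y + a * Fy a m y + Real.log (als a m)) y := by
  have hs : -Real.log (1 + m) - 1 - a * (1 - m) = Real.log (als a m) - 1 := by
    have := log_Fy_A3 a m (1 - m)
    rw [Fy_sub a m h] at this
    linarith
  have hfun : LL a m = fun y : ℝ => ell a m 1 + (Real.log (als a m) - 1) * (y - 1) -
      (Real.negMulLog y + Fy a m y) := by
    funext z
    unfold LL
    rw [ell_eq a m z h, hs]
    rfl
  rw [hfun]
  have h1 : HasDerivAt (fun y : ℝ => ell a m 1 + (Real.log (als a m) - 1) * (y - 1))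
      ((Real.log (als a m) - 1) * 1) y :=
    (((hasDerivAt_id y).sub_const 1).const_mul _).const_add _
  have h2 : HasDerivAt (fun y : ℝ => Real.negMulLog y + Fy a m y)
      ((-Real.log y - 1) + (-(a * Fy a m y))) y :=
    (Real.hasDerivAt_negMulLog hy.ne').add (Fy_deriv_A3 a m y)
  refine (h1.sub h2).congr_deriv ?_
  ring

theorem LL_sign (a m y : ℝ) (ha : 1 < a) (h : MFE a m) (hy : 0 < y) :
    0 < Real.log y + a * Fy a m y + Real.log (als a m) ↔ Fy a m (Fy a m y) < y := by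
  rw [← Real.log_lt_log_iff (Fy_pos_A3 a m _) hy, log_Fy_A3]
  constructor <;> intro h1 <;> linarith

private noncomputable def DD_A3 (a m y : ℝ) : ℝ := Real.log y + a * Fy a m y + Real.log (als a m)

private lemma DD_zero_A3 (a m yM y : ℝ) (ha : 1 < a) (h : MFE a m) (hM : YM a m yM) (hy : 0 < y)
    (h0 : DD_A3 a m y = 0) : y = 1 - m ∨ y = yM ∨ y = 1 + m := by
  apply fixed_FF a m yM y ha h hM hy.le
  apply Real.log_injOn_pos (Set.mem_Ioi.mpr hy) (Set.mem_Ioi.mpr (Fy_pos_A3 a m _))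
  rw [log_Fy_A3]
  unfold DD_A3 at h0
  linarith

private lemma DD_cont_A3 (a m : ℝ) : ContinuousOn (DD_A3 a m) (Set.Ioi 0) := by
  intro y hy
  have hy' : (y : ℝ) ≠ 0 := (Set.mem_Ioi.mp hy).ne'
  have h1 : HasDerivAt (DD_A3 a m) (y⁻¹ + a * (-(a * Fy a m y))) y :=
    ((Real.hasDerivAt_log hy').add ((Fy_deriv_A3 a m y).const_mul a)).add_const _
  exact h1.continuousAt.continuousWithinAt

private lemma DD_deriv_A3 (a m y : ℝ) (hy : 0 < y) :
    HasDerivAt (DD_A3 a m) (y⁻¹ + a * (-(a * Fy a m y))) y :=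
  ((Real.hasDerivAt_log hy.ne').add ((Fy_deriv_A3 a m y).const_mul a)).add_const _

/-- right of a zero with positive derivative the function is positive up to the next zero -/
private lemma right_A3 (D : ℝ → ℝ) (z w d : ℝ) (hz : 0 < z) (hc : ContinuousOn D (Set.Ioi 0)) (h0 : D z = 0)
    (hd : HasDerivAt D d z) (hd0 : 0 < d) (hn : ∀ x, z < x → x < w → D x ≠ 0) :
    ∀ x, z < x → x < w → 0 < D x := by
  intro x hzx hxw
  by_contra hcon
  push Not at hcon
  have hx : D x < 0 := lt_of_le_of_ne hcon (hn x hzx hxw)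
  have h1 := (hasDerivAt_iff_tendsto_slope.mp hd).eventually (lt_mem_nhds hd0)
  have h2 : ∀ᶠ t in nhdsWithin z (Set.Ioi z), 0 < slope D z t :=
    h1.filter_mono (nhdsWithin_mono z (fun t ht => (Set.mem_Ioi.mp ht).ne'))
  have h3 : ∀ᶠ t in nhdsWithin z (Set.Ioi z), t < x := by
    have : ∀ᶠ t in nhds z, t < x := gt_mem_nhds hzx
    exact this.filter_mono nhdsWithin_le_nhds
  have h4 : ∀ᶠ t in nhdsWithin z (Set.Ioi z), z < t := self_mem_nhdsWithin
  obtain ⟨t, ⟨ht1, ht2⟩, ht3⟩ := ((h2.and h3).and h4).exists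
  rw [slope_def_field, h0, sub_zero] at ht1
  have ht0 : 0 < D t := by
    have := mul_pos ht1 (sub_pos.mpr ht3)
    rwa [div_mul_cancel₀ _ (sub_pos.mpr ht3).ne'] at this
  have hcc : ContinuousOn D (Set.Icc t x) := hc.mono (fun s hs => lt_of_lt_of_le (hz.trans ht3) hs.1)
  obtain ⟨s, hs, hs'⟩ := intermediate_value_Icc' ht2.le hcc ⟨hx.le, ht0.le⟩
  exact hn s (lt_of_lt_of_le ht3 hs.1) (lt_of_le_of_lt hs.2 hxw) hs'

/-- left of a zero with positive derivative the function is negative up to the next zero -/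
private lemma left_A3 (D : ℝ → ℝ) (z w d : ℝ) (hw : 0 ≤ w) (hc : ContinuousOn D (Set.Ioi 0)) (h0 : D z = 0)
    (hd : HasDerivAt D d z) (hd0 : 0 < d) (hn : ∀ x, w < x → x < z → D x ≠ 0) :
    ∀ x, w < x → x < z → D x < 0 := by
  intro x hwx hxz
  by_contra hcon
  push Not at hcon
  have hx : 0 < D x := lt_of_le_of_ne hcon (hn x hwx hxz).symm
  have h1 := (hasDerivAt_iff_tendsto_slope.mp hd).eventually (lt_mem_nhds hd0)
  have h2 : ∀ᶠ t in nhdsWithin z (Set.Iio z), 0 < slope D z t :=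
    h1.filter_mono (nhdsWithin_mono z (fun t ht => (Set.mem_Iio.mp ht).ne))
  have h3 : ∀ᶠ t in nhdsWithin z (Set.Iio z), x < t := by
    have : ∀ᶠ t in nhds z, x < t := lt_mem_nhds hxz
    exact this.filter_mono nhdsWithin_le_nhds
  have h4 : ∀ᶠ t in nhdsWithin z (Set.Iio z), t < z := self_mem_nhdsWithin
  obtain ⟨t, ⟨ht1, ht2⟩, ht3⟩ := ((h2.and h3).and h4).exists
  rw [slope_def_field, h0, sub_zero] at ht1
  have ht0 : D t < 0 := by
    have := mul_neg_of_pos_of_neg ht1 (sub_neg.mpr ht3)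
    rwa [div_mul_cancel₀ _ (sub_neg.mpr ht3).ne] at this
  have hcc : ContinuousOn D (Set.Icc x t) := hc.mono (fun s hs => lt_of_lt_of_le (lt_of_le_of_lt hw hwx) hs.1)
  obtain ⟨s, hs, hs'⟩ := intermediate_value_Icc' ht2.le hcc ⟨ht0.le, hx.le⟩
  exact hn s (lt_of_lt_of_le hwx hs.1) (lt_of_le_of_lt hs.2 ht3) hs'

private lemma LL_cont_A3 (a m : ℝ) : Continuous (LL a m) := by
  unfold LL ell psi Fy
  have := Real.continuous_negMulLog
  fun_prop

/-- everything about the deficit -/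
private lemma main_A3 (a m y : ℝ) (ha : 1 < a) (h : MFE a m) (hy : 0 ≤ y) :
    0 ≤ LL a m y ∧ (LL a m y = 0 → y = 1 - m ∨ y = 1 + m) := by
  obtain ⟨yM, hM⟩ := ym_exists a m ha h
  obtain ⟨hM1, hM2⟩ := ym_bounds a m yM ha h hM
  have hm0 : 0 < m := h.1
  have hm1 : m < 1 := mfe_lt a m h
  have hnd := mfe_nondeg a m ha h
  have hc := DD_cont_A3 a m
  have hz1 : DD_A3 a m (1 - m) = 0 := by
    have := log_Fy_A3 a m (1 + m)
    rw [Fy_add a m h] at this
    unfold DD_A3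
    rw [this, Fy_sub a m h]; ring
  have hz2 : DD_A3 a m (1 + m) = 0 := by
    have := log_Fy_A3 a m (1 - m)
    rw [Fy_sub a m h] at this
    unfold DD_A3
    rw [this, Fy_add a m h]; ring
  have hd1 := DD_deriv_A3 a m (1 - m) (by linarith)
  have hd2 := DD_deriv_A3 a m (1 + m) (by linarith)
  have hp1 : 0 < (1 - m)⁻¹ + a * (-(a * Fy a m (1 - m))) := by
    rw [Fy_sub a m h]
    have e : (1 - m)⁻¹ + a * (-(a * (1 + m))) = (1 - a ^ 2 * (1 - m ^ 2)) / (1 - m) := by
      have : (1 - m) ≠ 0 := by linarith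
      field_simp
      ring
    rw [e]
    exact div_pos (by linarith) (by linarith)
  have hp2 : 0 < (1 + m)⁻¹ + a * (-(a * Fy a m (1 + m))) := by
    rw [Fy_add a m h]
    have e : (1 + m)⁻¹ + a * (-(a * (1 - m))) = (1 - a ^ 2 * (1 - m ^ 2)) / (1 + m) := by
      have : (1 + m) ≠ 0 := by linarith
      field_simp
      ring
    rw [e]
    exact div_pos (by linarith) (by linarith)
  -- signs
  have s1 : ∀ x, 0 < x → x < 1 - m → DD_A3 a m x < 0 := by
    apply left_A3 _ _ 0 _ le_rfl hc hz1 hd1 hp1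
    intro x hx0 hx1 h0
    rcases DD_zero_A3 a m yM x ha h hM hx0 h0 with h' | h' | h' <;> linarith
  have s2 : ∀ x, 1 - m < x → x < yM → 0 < DD_A3 a m x := by
    apply right_A3 _ _ _ _ (by linarith) hc hz1 hd1 hp1
    intro x hx0 hx1 h0
    rcases DD_zero_A3 a m yM x ha h hM (by linarith) h0 with h' | h' | h' <;> linarith
  have s3 : ∀ x, yM < x → x < 1 + m → DD_A3 a m x < 0 := by
    apply left_A3 _ _ _ _ hM.1 hc hz2 hd2 hp2
    intro x hx0 hx1 h0
    rcases DD_zero_A3 a m yM x ha h hM (lt_of_le_of_lt hM.1 hx0) h0 with h' | h' | h' <;> linarith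
  have s4 : ∀ x, 1 + m < x → 0 < DD_A3 a m x := by
    intro x hx
    apply right_A3 (DD_A3 a m) (1 + m) (x + 1) _ (by linarith) hc hz2 hd2 hp2 _ x hx (by linarith)
    intro x hx0 hx1 h0
    rcases DD_zero_A3 a m yM x ha h hM (by linarith) h0 with h' | h' | h' <;> linarith
  have hL := LL_zero a m h
  have hcont := LL_cont_A3 a m
  have hder : ∀ x, 0 < x → deriv (LL a m) x = DD_A3 a m x := fun x hx => (LL_deriv a m x ha h hx).deriv
  rcases le_total y (1 - m) with hy1 | hy1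
  · -- first interval
    have hanti : StrictAntiOn (LL a m) (Set.Icc 0 (1 - m)) := by
      apply strictAntiOn_of_deriv_neg (convex_Icc _ _) hcont.continuousOn
      intro x hx
      rw [interior_Icc] at hx
      rw [hder x hx.1]
      exact s1 x hx.1 hx.2
    rcases hy1.lt_or_eq with hlt | heq
    · have := hanti ⟨hy, hy1⟩ ⟨by linarith, le_rfl⟩ hlt
      rw [hL.2] at this
      exact ⟨this.le, fun h0 => by linarith⟩
    · rw [heq, hL.2]
      exact ⟨le_rfl, fun _ => Or.inl rfl⟩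
  rcases le_total y yM with hy2 | hy2
  · have hmono : StrictMonoOn (LL a m) (Set.Icc (1 - m) yM) := by
      apply strictMonoOn_of_deriv_pos (convex_Icc _ _) hcont.continuousOn
      intro x hx
      rw [interior_Icc] at hx
      rw [hder x (by linarith [hx.1])]
      exact s2 x hx.1 hx.2
    rcases hy1.lt_or_eq with hlt | heq
    · have := hmono ⟨le_rfl, hM1.le⟩ ⟨hy1, hy2⟩ hlt
      rw [hL.2] at this
      exact ⟨this.le, fun h0 => by linarith⟩
    · rw [← heq, hL.2]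
      exact ⟨le_rfl, fun _ => Or.inl rfl⟩
  rcases le_total y (1 + m) with hy3 | hy3
  · have hanti : StrictAntiOn (LL a m) (Set.Icc yM (1 + m)) := by
      apply strictAntiOn_of_deriv_neg (convex_Icc _ _) hcont.continuousOn
      intro x hx
      rw [interior_Icc] at hx
      rw [hder x (lt_of_le_of_lt hM.1 hx.1)]
      exact s3 x hx.1 hx.2
    rcases hy3.lt_or_eq with hlt | heq
    · have := hanti ⟨hy2, hy3⟩ ⟨by linarith, le_rfl⟩ hlt
      rw [hL.1] at this
      exact ⟨this.le, fun h0 => by linarith⟩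
    · rw [heq, hL.1]
      exact ⟨le_rfl, fun _ => Or.inr rfl⟩
  · have hmono : StrictMonoOn (LL a m) (Set.Ici (1 + m)) := by
      apply strictMonoOn_of_deriv_pos (convex_Ici _) hcont.continuousOn
      intro x hx
      rw [interior_Ici] at hx
      have hx' : 1 + m < x := hx
      rw [hder x (by linarith)]
      exact s4 x hx'
    rcases hy3.lt_or_eq with hlt | heq
    · have := hmono (Set.mem_Ici.mpr le_rfl) (Set.mem_Ici.mpr hy3) hlt
      rw [hL.1] at this
      exact ⟨this.le, fun h0 => by linarith⟩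
    · rw [← heq, hL.1]
      exact ⟨le_rfl, fun _ => Or.inr rfl⟩

theorem LL_nonneg (a m y : ℝ) (ha : 1 < a) (h : MFE a m) (hy : 0 ≤ y) : 0 ≤ LL a m y := by
  exact (main_A3 a m y ha h hy).1

theorem LL_eq_zero (a m y : ℝ) (ha : 1 < a) (h : MFE a m) (hy : 0 ≤ y) (hL : LL a m y = 0) : y = 1 - m ∨ y = 1 + m := by
  exact (main_A3 a m y ha h hy).2 hL

end Pool.Agent.THR

end

/-! ### from `Lib_MP_2c424f_thr.A4` -/

section

/-!
# THR A4: uniform estimates (paper proof: A4)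

`cpt`: abstract lemma: on a compact set, `u ≤ η + C v` if `u, v ≥ 0` continuous and `v = 0 → u = 0` (the set `{u ≥ η}` is compact, `v > 0` there, so
`v ≥ δ > 0`, `C = sup u/δ`).
Compact set: `{(a,m,yM,y) : 1 < a₁ ≤ a ≤ A, m ∈ [0,1], m² ≥ 3(a-1)/a³, m = tanh (a m), yM ∈ [0,1], yM = F yM, 0 ≤ y ≤ Y}` (closed and bounded; all functions are continuous
on it: `als ≥ e^(-a)`, `negMulLog` is continuous, `m ≥ √(3(a₁-1)/A³) > 0`).
* `est1`: `|e^(-ay) - α*(2-y)|` vanishes at `1 ± m`.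
* `est2`: `dst2`;  `est3`: `dst3` against `|y - F (F y)|` (`fixed_FF`).
* `gap`: minimum of `yM - (1-m)`, `1 - yM`, `m` over the compact set.
-/

set_option autoImplicit false

open Finset Filter

namespace Pool.Agent.THR

theorem cpt {X : Type*} [TopologicalSpace X] (S : Set X) (hS : IsCompact S) (u v : X → ℝ) (hu : ContinuousOn u S)
    (hv : ContinuousOn v S) (hv0 : ∀ x ∈ S, 0 ≤ v x) (h : ∀ x ∈ S, v x = 0 → u x ≤ 0) (η : ℝ) (hη : 0 < η) :
    ∃ C : ℝ, 0 < C ∧ ∀ x ∈ S, u x ≤ η + C * v x := by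
  obtain ⟨Z, hZ, hZe⟩ := continuousOn_iff_isClosed.1 hu (Set.Ici η) isClosed_Ici
  have hT : IsCompact (Z ∩ S) := hS.inter_left hZ
  rcases (Z ∩ S).eq_empty_or_nonempty with he | hne
  · refine ⟨1, one_pos, fun x hx => ?_⟩
    have h1 : ¬ η ≤ u x := by
      intro hc
      have : x ∈ u ⁻¹' Set.Ici η ∩ S := ⟨hc, hx⟩
      rw [hZe, he] at this
      exact this
    have := hv0 x hx
    push Not at h1
    linarith
  · obtain ⟨x0, hx0, hmin⟩ := hT.exists_isMinOn hne (hv.mono Set.inter_subset_right)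
    obtain ⟨x1, hx1, hmax⟩ := hS.exists_isMaxOn (hne.mono Set.inter_subset_right) hu
    have hx0' : η ≤ u x0 := by
      have : x0 ∈ u ⁻¹' Set.Ici η ∩ S := by rw [hZe]; exact hx0
      exact this.1
    have hδ : 0 < v x0 := by
      rcases (hv0 x0 hx0.2).lt_or_eq with h1 | h1
      · exact h1
      · have := h x0 hx0.2 h1.symm
        linarith
    refine ⟨max (u x1) 1 / v x0, by positivity, fun x hx => ?_⟩
    by_cases hc : η ≤ u x
    · have hxT : x ∈ Z ∩ S := by rw [← hZe]; exact ⟨hc, hx⟩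
      have h1 : v x0 ≤ v x := hmin hxT
      have h2 : u x ≤ u x1 := hmax hx
      have h3 : max (u x1) 1 = max (u x1) 1 / v x0 * v x0 := by field_simp
      have h4 : max (u x1) 1 / v x0 * v x0 ≤ max (u x1) 1 / v x0 * v x :=
        mul_le_mul_of_nonneg_left h1 (by positivity)
      have h5 := le_max_left (u x1) 1
      linarith
    · push Not at hc
      have h1 := hv0 x hx
      have h2 : 0 ≤ max (u x1) 1 / v x0 * v x := mul_nonneg (by positivity) h1
      linarith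

/-- the compact set of parameters -/
def A4S (b₁ A Y : ℝ) : Set (ℝ × ℝ × ℝ × ℝ) :=
  Set.Icc (b₁, 0, 0, 0) (A, 1, 1, Y) ∩
    {p | 3 * (p.1 - 1) ≤ p.2.1 ^ 2 * p.1 ^ 3 ∧ p.2.1 = Real.tanh (p.1 * p.2.1) ∧ p.2.2.1 = Fy p.1 p.2.1 p.2.2.1}

private theorem A4_tanh_cont : Continuous Real.tanh := by
  have : Real.tanh = fun x => Real.sinh x / Real.cosh x := by
    funext x; exact Real.tanh_eq_sinh_div_cosh x
  rw [this]
  exact Real.continuous_sinh.div Real.continuous_cosh fun x => (Real.cosh_pos x).ne'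

private theorem A4_als_cont {X : Type*} [TopologicalSpace X] {f g : X → ℝ} (hf : Continuous f) (hg : Continuous g) :
    Continuous fun x => als (f x) (g x) := by
  unfold als
  exact (Real.continuous_exp.comp hf.neg).mul (Real.continuous_cosh.comp (hf.mul hg))

private theorem A4_Fy_cont {X : Type*} [TopologicalSpace X] {f g h : X → ℝ} (hf : Continuous f) (hg : Continuous g)
    (hh : Continuous h) : Continuous fun x => Fy (f x) (g x) (h x) := by
  unfold Fy
  exact (Real.continuous_exp.comp (hf.mul hh).neg).div (A4_als_cont hf hg) fun x => (als_pos _ _).ne'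

private theorem A4_psi_cont {X : Type*} [TopologicalSpace X] {f g h : X → ℝ} (hf : Continuous f) (hg : Continuous g)
    (hh : Continuous h) : Continuous fun x => psi (f x) (g x) (h x) := by
  unfold psi
  exact (Real.continuous_negMulLog.comp hh).add (A4_Fy_cont hf hg hh)

private theorem A4_LL_cont {X : Type*} [TopologicalSpace X] (S : Set X) {f g h : X → ℝ} (hf : Continuous f) (hg : Continuous g)
    (hh : Continuous h) (hpos : ∀ x ∈ S, g x ≠ 0) : ContinuousOn (fun x => LL (f x) (g x) (h x)) S := by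
  unfold LL ell
  have h1 := A4_psi_cont hf hg (continuous_const.add hg (f := fun _ : X => (1 : ℝ)))
  have h2 := A4_psi_cont hf hg (continuous_const.sub hg (f := fun _ : X => (1 : ℝ)))
  have h3 := A4_psi_cont hf hg hh
  refine (ContinuousOn.add ((h1.add h2).div_const 2).continuousOn ?_).sub h3.continuousOn
  refine ContinuousOn.mul ?_ (hh.sub continuous_const).continuousOn
  refine (h1.sub h2).continuousOn.div (continuous_const.mul hg).continuousOn fun x hx => ?_
  exact mul_ne_zero two_ne_zero (hpos x hx)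

private theorem A4_compact (b₁ A Y : ℝ) : IsCompact (A4S b₁ A Y) := by
  refine isCompact_Icc.inter_right ?_
  have c1 : Continuous fun p : ℝ × ℝ × ℝ × ℝ => p.1 := continuous_fst
  have c2 : Continuous fun p : ℝ × ℝ × ℝ × ℝ => p.2.1 := continuous_fst.comp continuous_snd
  have c3 : Continuous fun p : ℝ × ℝ × ℝ × ℝ => p.2.2.1 := continuous_fst.comp (continuous_snd.comp continuous_snd)
  refine (isClosed_le (continuous_const.mul (c1.sub continuous_const)) ((c2.pow 2).mul (c1.pow 3))).inter ?_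
  exact (isClosed_eq c2 (A4_tanh_cont.comp (c1.mul c2))).inter (isClosed_eq c3 (A4_Fy_cont c1 c2 c3))

private theorem A4_mem (b₁ A Y a m yM y : ℝ) (h1 : 1 < b₁) (ha : b₁ ≤ a) (hA : a ≤ A) (h : MFE a m) (hM : YM a m yM)
    (hy : 0 ≤ y) (hY : y ≤ Y) : (a, m, yM, y) ∈ A4S b₁ A Y := by
  have ha1 : 1 < a := lt_of_lt_of_le h1 ha
  have hb := ym_bounds a m yM ha1 h hM
  refine ⟨Set.mem_Icc.2 ⟨⟨ha, h.1.le, hM.1, hy⟩, ⟨hA, (mfe_lt a m h).le, hb.2.le, hY⟩⟩, ?_, h.2, hM.2⟩
  have := mfe_lower a m ha1 h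
  rw [div_le_iff₀ (by positivity)] at this
  exact this

private theorem A4_of_mem (b₁ A Y : ℝ) (h1 : 1 < b₁) (p : ℝ × ℝ × ℝ × ℝ) (hp : p ∈ A4S b₁ A Y) :
    1 < p.1 ∧ MFE p.1 p.2.1 ∧ YM p.1 p.2.1 p.2.2.1 ∧ 0 ≤ p.2.2.2 := by
  obtain ⟨hI, hl, ht, hF⟩ := hp
  obtain ⟨⟨hb, hm, hM, hy⟩, -⟩ := Set.mem_Icc.1 hI
  simp only at hb hm hM hy
  have ha1 : 1 < p.1 := lt_of_lt_of_le h1 hb
  have hm0 : 0 < p.2.1 := by
    rcases hm.lt_or_eq with h2 | h2
    · exact h2
    · rw [← h2] at hl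
      norm_num at hl
      linarith
  exact ⟨ha1, ⟨hm0, ht⟩, ⟨hM, hF⟩, hy⟩

theorem est1 (b₁ A Y : ℝ) (h1 : 1 < b₁) (η : ℝ) (hη : 0 < η) : ∃ C : ℝ, 0 < C ∧ ∀ a m y : ℝ, b₁ ≤ a → a ≤ A →
    MFE a m → 0 ≤ y → y ≤ Y → |Real.exp (-(a * y)) - als a m * (2 - y)| ≤ η + C * LL a m y := by
  have c1 : Continuous fun p : ℝ × ℝ × ℝ × ℝ => p.1 := continuous_fst
  have c2 : Continuous fun p : ℝ × ℝ × ℝ × ℝ => p.2.1 := continuous_fst.comp continuous_snd
  have c4 : Continuous fun p : ℝ × ℝ × ℝ × ℝ => p.2.2.2 := continuous_snd.comp (continuous_snd.comp continuous_snd)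
  obtain ⟨C, hC, h⟩ := cpt (A4S b₁ A Y) (A4_compact b₁ A Y)
    (fun p => |Real.exp (-(p.1 * p.2.2.2)) - als p.1 p.2.1 * (2 - p.2.2.2)|) (fun p => LL p.1 p.2.1 p.2.2.2)
    (((Real.continuous_exp.comp (c1.mul c4).neg).sub ((A4_als_cont c1 c2).mul (continuous_const.sub c4))).abs).continuousOn
    (A4_LL_cont _ c1 c2 c4 fun p hp => (A4_of_mem b₁ A Y h1 p hp).2.1.1.ne')
    (fun p hp => by
      obtain ⟨ha, hm, -, hy⟩ := A4_of_mem b₁ A Y h1 p hp
      exact LL_nonneg _ _ _ ha hm hy)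
    (fun p hp h0 => by
      obtain ⟨ha, hm, -, hy⟩ := A4_of_mem b₁ A Y h1 p hp
      have hals := als_pos p.1 p.2.1
      rcases LL_eq_zero _ _ _ ha hm hy h0 with e | e
      · have h2 := Fy_sub _ _ hm
        unfold Fy at h2
        rw [div_eq_iff hals.ne'] at h2
        simp only [e]
        rw [h2]
        have : (1 + p.2.1) * als p.1 p.2.1 - als p.1 p.2.1 * (2 - (1 - p.2.1)) = 0 := by ring
        rw [this, abs_zero]
      · have h2 := Fy_add _ _ hm
        unfold Fy at h2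
        rw [div_eq_iff hals.ne'] at h2
        simp only [e]
        rw [h2]
        have : (1 - p.2.1) * als p.1 p.2.1 - als p.1 p.2.1 * (2 - (1 + p.2.1)) = 0 := by ring
        rw [this, abs_zero]) η hη
  refine ⟨C, hC, fun a m y ha hA hm hy hY => ?_⟩
  obtain ⟨yM, hM⟩ := ym_exists a m (lt_of_lt_of_le h1 ha) hm
  exact h (a, m, yM, y) (A4_mem b₁ A Y a m yM y h1 ha hA hm hM hy hY)

private theorem A4_dst2_cont {X : Type*} [TopologicalSpace X] {g h : X → ℝ} (hg : Continuous g) (hh : Continuous h) :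
    Continuous fun x => dst2 (g x) (h x) := by
  unfold dst2
  exact ((hh.sub (continuous_const.sub hg)).abs).min ((hh.sub (continuous_const.add hg)).abs)

theorem est2 (b₁ A Y : ℝ) (h1 : 1 < b₁) (η : ℝ) (hη : 0 < η) : ∃ C : ℝ, 0 < C ∧ ∀ a m y : ℝ, b₁ ≤ a → a ≤ A →
    MFE a m → 0 ≤ y → y ≤ Y → dst2 m y ≤ η + C * LL a m y := by
  have c1 : Continuous fun p : ℝ × ℝ × ℝ × ℝ => p.1 := continuous_fst
  have c2 : Continuous fun p : ℝ × ℝ × ℝ × ℝ => p.2.1 := continuous_fst.comp continuous_snd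
  have c4 : Continuous fun p : ℝ × ℝ × ℝ × ℝ => p.2.2.2 := continuous_snd.comp (continuous_snd.comp continuous_snd)
  obtain ⟨C, hC, h⟩ := cpt (A4S b₁ A Y) (A4_compact b₁ A Y)
    (fun p => dst2 p.2.1 p.2.2.2) (fun p => LL p.1 p.2.1 p.2.2.2)
    (A4_dst2_cont c2 c4).continuousOn
    (A4_LL_cont _ c1 c2 c4 fun p hp => (A4_of_mem b₁ A Y h1 p hp).2.1.1.ne')
    (fun p hp => by
      obtain ⟨ha, hm, -, hy⟩ := A4_of_mem b₁ A Y h1 p hp
      exact LL_nonneg _ _ _ ha hm hy)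
    (fun p hp h0 => by
      obtain ⟨ha, hm, -, hy⟩ := A4_of_mem b₁ A Y h1 p hp
      rcases LL_eq_zero _ _ _ ha hm hy h0 with e | e
      · simp only [e, dst2]
        exact min_le_of_left_le (by simp)
      · simp only [e, dst2]
        exact min_le_of_right_le (by simp)) η hη
  refine ⟨C, hC, fun a m y ha hA hm hy hY => ?_⟩
  obtain ⟨yM, hM⟩ := ym_exists a m (lt_of_lt_of_le h1 ha) hm
  exact h (a, m, yM, y) (A4_mem b₁ A Y a m yM y h1 ha hA hm hM hy hY)

theorem est3 (b₁ A Y : ℝ) (h1 : 1 < b₁) (η : ℝ) (hη : 0 < η) : ∃ C : ℝ, 0 < C ∧ ∀ a m yM y : ℝ, b₁ ≤ a → a ≤ A →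
    MFE a m → YM a m yM → 0 ≤ y → y ≤ Y → dst3 m yM y ≤ η + C * |y - Fy a m (Fy a m y)| := by
  have c1 : Continuous fun p : ℝ × ℝ × ℝ × ℝ => p.1 := continuous_fst
  have c2 : Continuous fun p : ℝ × ℝ × ℝ × ℝ => p.2.1 := continuous_fst.comp continuous_snd
  have c3 : Continuous fun p : ℝ × ℝ × ℝ × ℝ => p.2.2.1 := continuous_fst.comp (continuous_snd.comp continuous_snd)
  have c4 : Continuous fun p : ℝ × ℝ × ℝ × ℝ => p.2.2.2 := continuous_snd.comp (continuous_snd.comp continuous_snd)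
  obtain ⟨C, hC, h⟩ := cpt (A4S b₁ A Y) (A4_compact b₁ A Y)
    (fun p => dst3 p.2.1 p.2.2.1 p.2.2.2) (fun p => |p.2.2.2 - Fy p.1 p.2.1 (Fy p.1 p.2.1 p.2.2.2)|)
    (by
      unfold dst3
      exact ((A4_dst2_cont c2 c4).min ((c4.sub c3).abs)).continuousOn)
    ((c4.sub (A4_Fy_cont c1 c2 (A4_Fy_cont c1 c2 c4))).abs).continuousOn
    (fun p hp => abs_nonneg _)
    (fun p hp h0 => by
      obtain ⟨ha, hm, hM, hy⟩ := A4_of_mem b₁ A Y h1 p hp
      have h2 := sub_eq_zero.1 (abs_eq_zero.1 h0)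
      rcases fixed_FF _ _ _ _ ha hm hM hy h2 with e | e | e
      · simp only [e, dst3, dst2]
        exact min_le_of_left_le (min_le_of_left_le (by simp))
      · simp only [e, dst3, dst2]
        exact min_le_of_right_le (by simp)
      · simp only [e, dst3, dst2]
        exact min_le_of_left_le (min_le_of_right_le (by simp))) η hη
  refine ⟨C, hC, fun a m yM y ha hA hm hM hy hY => ?_⟩
  exact h (a, m, yM, y) (A4_mem b₁ A Y a m yM y h1 ha hA hm hM hy hY)

theorem gap (b₁ A : ℝ) (h1 : 1 < b₁) : ∃ g : ℝ, 0 < g ∧ g ≤ 1 ∧ ∀ a m yM : ℝ, b₁ ≤ a → a ≤ A → MFE a m → YM a m yM →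
    g ≤ m ∧ g ≤ yM - (1 - m) ∧ g ≤ 1 - yM ∧ g ≤ 1 - m := by
  have c2 : Continuous fun p : ℝ × ℝ × ℝ × ℝ => p.2.1 := continuous_fst.comp continuous_snd
  have c3 : Continuous fun p : ℝ × ℝ × ℝ × ℝ => p.2.2.1 := continuous_fst.comp (continuous_snd.comp continuous_snd)
  rcases (A4S b₁ A 0).eq_empty_or_nonempty with he | hne
  · refine ⟨1, one_pos, le_rfl, fun a m yM ha hA hm hM => ?_⟩
    have := A4_mem b₁ A 0 a m yM 0 h1 ha hA hm hM le_rfl le_rfl
    rw [he] at this
    exact absurd this (Set.notMem_empty _)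
  · have hc : Continuous fun p : ℝ × ℝ × ℝ × ℝ =>
        min (min p.2.1 (p.2.2.1 - (1 - p.2.1))) (min (1 - p.2.2.1) (1 - p.2.1)) :=
      (c2.min (c3.sub (continuous_const.sub c2))).min ((continuous_const.sub c3).min (continuous_const.sub c2))
    obtain ⟨p, hp, hmin⟩ := (A4_compact b₁ A 0).exists_isMinOn hne hc.continuousOn
    obtain ⟨ha, hm, hM, -⟩ := A4_of_mem b₁ A 0 h1 p hp
    have hb := ym_bounds _ _ _ ha hm hM
    have hml := mfe_lt _ _ hm
    have hpos : 0 < min (min p.2.1 (p.2.2.1 - (1 - p.2.1))) (min (1 - p.2.2.1) (1 - p.2.1)) :=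
      lt_min (lt_min hm.1 (by linarith)) (lt_min (by linarith) (by linarith))
    refine ⟨min (min (min p.2.1 (p.2.2.1 - (1 - p.2.1))) (min (1 - p.2.2.1) (1 - p.2.1))) 1,
      lt_min hpos one_pos, min_le_right _ _, fun a m yM ha hA hm hM => ?_⟩
    have h2 := hmin (A4_mem b₁ A 0 a m yM 0 h1 ha hA hm hM le_rfl le_rfl)
    have h3 : min (min p.2.1 (p.2.2.1 - (1 - p.2.1))) (min (1 - p.2.2.1) (1 - p.2.1)) ≤
        min (min m (yM - (1 - m))) (min (1 - yM) (1 - m)) := h2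
    have h4 := (min_le_left (min (min p.2.1 (p.2.2.1 - (1 - p.2.1))) (min (1 - p.2.2.1) (1 - p.2.1))) 1).trans h3
    exact ⟨h4.trans ((min_le_left _ _).trans (min_le_left _ _)), h4.trans ((min_le_left _ _).trans (min_le_right _ _)),
      h4.trans ((min_le_right _ _).trans (min_le_left _ _)), h4.trans ((min_le_right _ _).trans (min_le_right _ _))⟩

private theorem A4_exp_lip (x y : ℝ) (hx : 0 ≤ x) (hy : 0 ≤ y) : |Real.exp (-x) - Real.exp (-y)| ≤ |x - y| := by
  have key : ∀ s t : ℝ, 0 ≤ s → s ≤ t → |Real.exp (-s) - Real.exp (-t)| ≤ |s - t| := by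
    intro s t hs hst
    have h1 : Real.exp (-t) ≤ Real.exp (-s) := Real.exp_le_exp.2 (by linarith)
    rw [abs_of_nonneg (by linarith), abs_of_nonpos (by linarith)]
    have h2 : Real.exp (-t) = Real.exp (-s) * Real.exp (-(t - s)) := by rw [← Real.exp_add]; ring_nf
    have h3 := Real.add_one_le_exp (-(t - s))
    have h4 : Real.exp (-s) ≤ 1 := Real.exp_le_one_iff.2 (by linarith)
    have h5 := Real.exp_pos (-s)
    rw [h2]
    nlinarith
  rcases le_total x y with h | h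
  · exact key x y hx h
  · rw [abs_sub_comm, abs_sub_comm x]
    exact key y x hy h

/-- `F` is decreasing and Lipschitz on `[0,∞)` -/
theorem Fy_lip (a m y z : ℝ) (ha : 1 < a) (h : MFE a m) (hy : 0 ≤ y) (hz : 0 ≤ z) :
    |Fy a m y - Fy a m z| ≤ a * Real.exp a * |y - z| ∧ 0 < Fy a m y ∧ Fy a m y ≤ Real.exp a := by
  have hals := als_pos a m
  have hm1 : |m| ≤ 1 := by rw [abs_of_pos h.1]; exact (mfe_lt a m h).le
  have hb := (als_bounds a m (by linarith) hm1).1
  have ha0 : 0 < a := by linarith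
  have hinv : 1 / als a m ≤ Real.exp a := by
    rw [div_le_iff₀ hals]
    calc (1 : ℝ) = Real.exp a * Real.exp (-a) := by rw [← Real.exp_add]; simp
      _ ≤ Real.exp a * als a m := mul_le_mul_of_nonneg_left hb (Real.exp_pos a).le
  refine ⟨?_, by unfold Fy; positivity, ?_⟩
  · unfold Fy
    rw [← sub_div, abs_div, abs_of_pos hals]
    have h1 := A4_exp_lip (a * y) (a * z) (by positivity) (by positivity)
    rw [← mul_sub, abs_mul, abs_of_pos ha0] at h1
    calc |Real.exp (-(a * y)) - Real.exp (-(a * z))| / als a m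
        = 1 / als a m * |Real.exp (-(a * y)) - Real.exp (-(a * z))| := by ring
      _ ≤ Real.exp a * (a * |y - z|) := mul_le_mul hinv h1 (abs_nonneg _) (Real.exp_pos a).le
      _ = a * Real.exp a * |y - z| := by ring
  · unfold Fy
    have h1 : Real.exp (-(a * y)) ≤ 1 := Real.exp_le_one_iff.2 (by nlinarith)
    calc Real.exp (-(a * y)) / als a m = 1 / als a m * Real.exp (-(a * y)) := by ring
      _ ≤ Real.exp a * 1 := mul_le_mul hinv h1 (Real.exp_pos _).le (Real.exp_pos a).le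
      _ = Real.exp a := by ring

end Pool.Agent.THR

end
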