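import Pool.Agent.Lib_MP_2c424f_m.M04
import Pool.Agent.Lib_MP_2c424f_m.M13

/-!
# MP_2c424f_pr, q_c grows linearly: merged library part M14

Concatenation of smaller files (each in its own section), only to save build time.
-/

/-! ### from `Lib_MP_2c424f_lo.KAll` -/

section

/-!
# The mean cost of violations (piece KALL)
-/

set_option autoImplicit false

open Finset

namespace Pool.Agent.LO

variable {d k q : ℕ}

private theorem kall_point {ε : ℝ} (he : 0 < ε) (he1 : ε ≤ 1 / 2) (n : ℝ) (h0 : 0 ≤ n) :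
    -Real.log (gg ε n) ≤ 3 * n + Real.log (1 / ε) * (if 1 / 2 < n then (1 : ℝ) else 0) := by
  have hlog : 0 ≤ Real.log (1 / ε) := by
    refine Real.log_nonneg ?_
    rw [le_div_iff₀ he]
    linarith
  by_cases h : 1 / 2 < n
  · rw [if_pos h, mul_one]
    have := neg_log_gg_le (n := n) he
    linarith
  · rw [if_neg h, mul_zero, add_zero]
    push Not at h
    exact neg_log_gg_small he.le h0 h

theorem KK_le (hd : 2 ≤ d) (hk : 3 ≤ k) {ε : ℝ} (he : 0 < ε) (he1 : ε ≤ 1 / 2)
    (f : Site d k → Fin q) (Y : ℕ) :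
    KK ε f ≤ 3 * (Y / (2 * d) * ∑ c, QQ f c + NN d k / 2 * (1 / 2) ^ Y) +
      Real.log (1 / ε) * (32 / d * ∑ c, QQ f c + NN d k / 2 * (1 / 4) ^ d) := by
  classical
  have hlog : 0 ≤ Real.log (1 / ε) := by
    refine Real.log_nonneg ?_
    rw [le_div_iff₀ he]
    linarith
  have h1 : KK ε f ≤ ER (fun R => 3 * (∑ u ∈ (evs d k).filter (fun u => u ∉ R), nn f R u (f u)) +
      Real.log (1 / ε) * (∑ u ∈ (evs d k).filter (fun u => u ∉ R),
        if 1 / 2 < nn f R u (f u) then (1 : ℝ) else 0)) := by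
    unfold KK
    refine ER_mono fun R => ?_
    rw [Finset.mul_sum, Finset.mul_sum, ← Finset.sum_add_distrib]
    exact Finset.sum_le_sum fun u _ => kall_point he he1 _ (nn_nonneg f R u (f u))
  have h2 := EK_lin (by omega : 1 ≤ d) (by omega : 2 ≤ k) f Y
  have h3 := EK_big hd hk f
  rw [ER_add, ER_mul, ER_mul] at h1
  have h4 := mul_le_mul_of_nonneg_left h2 (by norm_num : (0 : ℝ) ≤ 3)
  have h5 := mul_le_mul_of_nonneg_left h3 hlog
  linarith

end Pool.Agent.LO

end
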