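import Pool.Agent.Lib_MP_2c424f_m.M03
import Pool.Agent.Lib_MP_2c424f_m.M09
import Pool.Agent.Lib_MP_2c424f_m.M12

/-!
# MP_2c424f_pr, q_c grows linearly: merged library part M15

Concatenation of smaller files (each in its own section), only to save build time.
-/

namespace Pool.Agent.LO
end Pool.Agent.LO

namespace Pool.Agent.LIN
end Pool.Agent.LIN

namespace Pool.Agent.THR
end Pool.Agent.THR

namespace Pool.Agent.COR
end Pool.Agent.COR

/-! ### from `Lib_MP_2c424f_lc1.T7` -/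

section

/-!
# LC1 T7: the mean-field numbers in the regime `1000 ≤ a ≤ 2000`

THR A1 (existence and uniqueness of `m`), A2 (`1 ± m` are exchanged by `Fy`).  `m ≥ 1 - 3 e^{-2a}`: `1 - tanh x = 2/(e^{2x}+1) ≤ 2 e^{-2x}`; first `1 - m ≤ 1 - m² ≤ 1/a²` (`mfe_nondeg`)
so `a(1-m) ≤ 1/a` is tiny, then
`1 - m ≤ 2 e^{-2a} e^{2a(1-m)} ≤ 3 e^{-2a}`.
`als a m = (e^{-a(1-m)} + e^{-a(1+m)})/2`.
-/

set_option autoImplicit false

open Finset Filter

namespace Pool.Agent.LC

open Pool.Agent.LO Pool.Agent.LIN Pool.Agent.THR Pool.Agent.COR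

/-- facts about the regime -/
theorem rg_pos {d q : ℕ} (hd : 1 ≤ d) (h : Rg d q) : 0 < q ∧ (1000 : ℝ) ≤ ra d q ∧ ra d q ≤ 2000 ∧ 2 * (d : ℝ) = ra d q * q ∧
    e3 * d ≤ q ∧ (q : ℝ) ≤ (2 - e3) * d ∧ 0 < e3 ∧ e3 ≤ 1 ∧ A0 e3 = 2000 := by
  obtain ⟨_, h1, h2⟩ := h
  have hq : 0 < q := by
    rcases Nat.eq_zero_or_pos q with rfl | hq
    · omega
    · exact hq
  have hqr : (0 : ℝ) < q := by exact_mod_cast hq
  have h1r : 1000 * (q : ℝ) ≤ 2 * d := by exact_mod_cast h1
  have h2r : 2 * (d : ℝ) ≤ 2000 * q := by exact_mod_cast h2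
  have hdr : (1 : ℝ) ≤ d := by exact_mod_cast hd
  refine ⟨hq, ?_, ?_, ?_, ?_, ?_, ?_, ?_, ?_⟩
  · unfold ra
    rw [le_div_iff₀ hqr]
    exact h1r
  · unfold ra
    rw [div_le_iff₀ hqr]
    exact h2r
  · unfold ra
    rw [div_mul_cancel₀ _ hqr.ne']
  · unfold e3
    linarith
  · unfold e3
    linarith
  · unfold e3
    norm_num
  · unfold e3
    norm_num
  · unfold A0 e3
    norm_num

theorem mf_num {a m : ℝ} (ha : 1000 ≤ a) (hm : MFE a m) : 0 < m ∧ m < 1 ∧ 1 - m ≤ 3 * Real.exp (-(2 * a)) ∧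
    0 < 1 - m ∧ |als a m - 1 / 2| ≤ Real.exp (-a) ∧ Real.exp (-(a * (1 - m))) = als a m * (1 + m) ∧
    Real.exp (-(a * (1 + m))) = als a m * (1 - m) ∧ 0 < als a m ∧ als a m ≤ 1 ∧ Real.exp (-1) ≤ als a m ∧
    a * (1 - m) ≤ Real.exp (-a) := by
  have hm0 : 0 < m := hm.1
  have hm1 : m < 1 := mfe_lt a m hm
  have ha0 : 0 < a := by linarith
  have hals := als_pos a m
  have hsub : Real.exp (-(a * (1 - m))) = als a m * (1 + m) := by
    have h := Fy_sub a m hm
    unfold Fy at h
    rw [div_eq_iff hals.ne'] at h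
    rw [h]; ring
  have hadd : Real.exp (-(a * (1 + m))) = als a m * (1 - m) := by
    have h := Fy_add a m hm
    unfold Fy at h
    rw [div_eq_iff hals.ne'] at h
    rw [h]; ring
  have hnd := mfe_nondeg a m (by linarith) hm
  have h1m : 0 < 1 - m := by linarith
  have hsmall : a * (1 - m) ≤ 1 / 1000 := by
    have h2 : a ^ 2 * (1 - m) ≤ 1 := by
      have : a ^ 2 * (1 - m) ≤ a ^ 2 * (1 - m ^ 2) := by
        apply mul_le_mul_of_nonneg_left _ (by positivity)
        nlinarith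
      linarith
    have h3 : 1000 * (a * (1 - m)) ≤ a * (a * (1 - m)) :=
      mul_le_mul_of_nonneg_right ha (by positivity)
    nlinarith
  have hup : 1 - m ≤ 3 * Real.exp (-(2 * a)) := by
    have hr : Real.exp (-(a * (1 + m))) * (1 + m) = Real.exp (-(a * (1 - m))) * (1 - m) := by
      rw [hsub, hadd]; ring
    have hr2 : 1 - m = (1 + m) * (Real.exp (-(2 * a)) * Real.exp (2 * (a * (1 - m)))) := by
      have e1 : Real.exp (-(2 * a)) * Real.exp (2 * (a * (1 - m))) * Real.exp (-(a * (1 - m))) =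
          Real.exp (-(a * (1 + m))) := by
        rw [← Real.exp_add, ← Real.exp_add]
        congr 1; ring
      have hp := Real.exp_pos (-(a * (1 - m)))
      have : Real.exp (-(a * (1 - m))) * (1 - m) =
          Real.exp (-(a * (1 - m))) * ((1 + m) * (Real.exp (-(2 * a)) * Real.exp (2 * (a * (1 - m))))) := by
        rw [← hr, ← e1]; ring
      exact mul_left_cancel₀ hp.ne' this
    have he2 : Real.exp (2 * (a * (1 - m))) ≤ 3 / 2 := by
      have h5 : Real.exp (2 * (a * (1 - m))) ≤ Real.exp (1 / 500) := Real.exp_le_exp.2 (by linarith)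
      have h6 : Real.exp (1 / 500 : ℝ) ≤ 1 / (1 - 1 / 500) := by
        rw [le_div_iff₀ (by norm_num)]
        have h7 : 1 - (1 / 500 : ℝ) ≤ Real.exp (-(1 / 500)) := by
          have := Real.add_one_le_exp (-(1 / 500 : ℝ))
          linarith
        calc Real.exp (1 / 500 : ℝ) * (1 - 1 / 500) ≤ Real.exp (1 / 500 : ℝ) * Real.exp (-(1 / 500)) :=
              mul_le_mul_of_nonneg_left h7 (Real.exp_pos _).le
          _ = 1 := by rw [← Real.exp_add]; simp
      have h8 : (1 : ℝ) / (1 - 1 / 500) ≤ 3 / 2 := by norm_num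
      linarith
    have hp2 := Real.exp_pos (-(2 * a))
    calc 1 - m = (1 + m) * (Real.exp (-(2 * a)) * Real.exp (2 * (a * (1 - m)))) := hr2
      _ ≤ 2 * (Real.exp (-(2 * a)) * (3 / 2)) := by
          apply mul_le_mul (by linarith) _ (by positivity) (by norm_num)
          exact mul_le_mul_of_nonneg_left he2 hp2.le
      _ = 3 * Real.exp (-(2 * a)) := by ring
  have hea : 3 * a * Real.exp (-a) ≤ 1 := by
    have h9 : a ^ 2 / 2 ≤ Real.exp a := by
      have := Real.quadratic_le_exp_of_nonneg ha0.le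
      nlinarith
    have h10 : 3 * a ≤ Real.exp a := by nlinarith
    calc 3 * a * Real.exp (-a) ≤ Real.exp a * Real.exp (-a) :=
          mul_le_mul_of_nonneg_right h10 (Real.exp_pos _).le
      _ = 1 := by rw [← Real.exp_add]; simp
  have hlast : a * (1 - m) ≤ Real.exp (-a) := by
    have e2 : Real.exp (-(2 * a)) = Real.exp (-a) * Real.exp (-a) := by
      rw [← Real.exp_add]; congr 1; ring
    calc a * (1 - m) ≤ a * (3 * Real.exp (-(2 * a))) := mul_le_mul_of_nonneg_left hup ha0.le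
      _ = 3 * a * Real.exp (-a) * Real.exp (-a) := by rw [e2]; ring
      _ ≤ 1 * Real.exp (-a) := mul_le_mul_of_nonneg_right hea (Real.exp_pos _).le
      _ = Real.exp (-a) := one_mul _
  have hsum : 2 * als a m = Real.exp (-(a * (1 - m))) + Real.exp (-(a * (1 + m))) := by
    rw [hsub, hadd]; ring
  have hb1 : 1 - a * (1 - m) ≤ Real.exp (-(a * (1 - m))) := by
    have := Real.add_one_le_exp (-(a * (1 - m)))
    linarith
  have hb2 : Real.exp (-(a * (1 - m))) ≤ 1 := Real.exp_le_one_iff.2 (by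
    have : 0 < a * (1 - m) := by positivity
    linarith)
  have hb3 : Real.exp (-(a * (1 + m))) ≤ Real.exp (-a) := Real.exp_le_exp.2 (by
    have : 0 < a * m := by positivity
    nlinarith)
  have hb4 := Real.exp_pos (-(a * (1 + m)))
  have habs : |als a m - 1 / 2| ≤ Real.exp (-a) := by
    rw [abs_le]
    constructor <;> linarith
  have hbd := als_bounds a m ha0.le (by rw [abs_of_pos hm0]; exact hm1.le)
  refine ⟨hm0, hm1, hup, h1m, habs, hsub, hadd, hals, hbd.2, ?_, hlast⟩
  have h11 := Real.exp_neg_one_lt_d9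
  have h12 : Real.exp (-a) ≤ 1 / 3000 := by
    have h13 : 3000 * Real.exp (-a) ≤ 3 * a * Real.exp (-a) :=
      mul_le_mul_of_nonneg_right (by linarith) (Real.exp_pos _).le
    linarith
  have h14 := (abs_le.1 habs).1
  norm_num at h11
  linarith

/-- the number `ms d q` -/
theorem ms_spec {d q : ℕ} (hd : 1 ≤ d) (h : Rg d q) : MFE (ra d q) (ms d q) := by
  have hex : ∃ m : ℝ, MFE (ra d q) m := mfe_exists _ (by have := (rg_pos hd h).2.1; linarith)
  unfold ms
  rw [dif_pos hex]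
  exact hex.choose_spec

/-- uniqueness -/
theorem ms_uniq {d q : ℕ} (hd : 1 ≤ d) (h : Rg d q) {m : ℝ} (hm : MFE (ra d q) m) : m = ms d q := by
  exact mfe_unique (ra d q) m (ms d q) (by have := (rg_pos hd h).2.1; linarith) hm (ms_spec hd h)

/-- from `THR` to the regime `Rg` -/
theorem EvR_of_EvT {P : ℕ → ℕ → ℕ → Prop} (h : EvT e3 fun d k q => Rg d q → P d k q) : EvR P := by
  obtain ⟨d₀, hd₀⟩ := h
  refine ⟨max d₀ 1, fun d q hd hR => ?_⟩
  have h1 : 1 ≤ d := le_trans (le_max_right _ _) hd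
  obtain ⟨_, _, _, _, h2, h3, _⟩ := rg_pos h1 hR
  exact (hd₀ d q (le_trans (le_max_left _ _) hd) h2 h3).mono fun k hk => hk hR

/-- facts in the regime, `d` large -/
theorem EvT_of_Rg {P : ℕ → ℕ → ℕ → Prop} (h : EvR P) : EvT e3 fun d k q => Rg d q → P d k q := by
  obtain ⟨d₀, hd₀⟩ := h
  refine ⟨d₀, fun d q hd _ _ => ?_⟩
  by_cases hR : Rg d q
  · exact (hd₀ d q hd hR).mono fun k hk _ => hk
  · exact Eventually.of_forall fun k hk => absurd hk hR

end Pool.Agent.LC

end

/-! ### from `Lib_MP_2c424f_lc1.E2` -/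

section

/-!
# LC1 E2: from the pinned values to the hypotheses of the gap argument (deterministic)

`gm_step`: `evn_step` (`Prp f` and `1 ≤ d` imply `1 ≤ k`: for `k = 0` there is only one site).
`A_card`: `∑_c bq c f u = q` at every `u`, so `∑_c PP^[t] (bq c f) v = q` and `|∑_c gm A v c - q| ≤ δ q`; `∑_c gm A v c = q (1 - m) + 2 m #{c : tS evn A v c}` and this set is `A` (`v` even) or its complement;
`m ≥ 1/2` (`mf_num`).
`avg_bq`: `G := PP^[t] (bq c f)`, `0 ≤ G ≤ q`.  `r = 0, 1`: hypotheses and `gm_step`.  `|PP (PP G) u - G u| ≤ C₄/q + q PP (ind Gb) u`: `PP (PP G) u = mean_{σ,τ} G (u+σ+τ)`, `G u = mean_σ G (u+σ+opp σ)`, and for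
`u + σ` not `Gb` the difference is at most `C₄/q`, otherwise at most `q`.  Apply `PP^[r-2]` (`PP^[r-2] (PP φ) = PP^[r-1] φ`); induction over `r` in steps of two; `gs A v (r+2) = gs A v r`.
`avg_gg`: `|PP^[t] (bq c f) u - PP^[t] (gg c f) u| ≤ δ + q ind (..)` (both in `[0,q]`: `gg ≤ q` by `av ≥ 1`), `PP^[r]`, `PPt_mono`.
-/

set_option autoImplicit false

open Finset Filter

namespace Pool.Agent.LC

open Pool.Agent.LO Pool.Agent.LIN Pool.Agent.THR Pool.Agent.COR

variable {d k q : ℕ}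

theorem k_pos (hd : 1 ≤ d) {f : Site d k → Fin q} (hf : Prp f) : 1 ≤ k := by
  rcases Nat.eq_zero_or_pos k with rfl | h
  · exfalso
    have hs : Subsingleton (ZMod (2 ^ 0)) := by
      rw [pow_zero]
      infer_instance
    have h1 : (0 : Site d 0) + sv (⟨⟨0, hd⟩, true⟩ : Stp d) = 0 := Subsingleton.elim _ _
    exact hf 0 ⟨⟨0, hd⟩, true⟩ (by rw [h1])
  · exact h

theorem gm_step (hk : 1 ≤ k) (A : Finset (Fin q)) (v : Site d k) (σ : Stp d) (c : Fin q) :
    gm A (v + sv σ) c = 2 - gm A v c := by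
  unfold gm tS
  have h := evn_step hk v σ
  by_cases h1 : evn v
  · have h2 : ¬ evn (v + sv σ) := fun h3 => (h.1 h3) h1
    by_cases h3 : c ∈ A
    · rw [if_neg (by tauto), if_pos (by tauto)]
      ring
    · rw [if_pos (by tauto), if_neg (by tauto)]
      ring
  · have h2 : evn (v + sv σ) := h.2 h1
    by_cases h3 : c ∈ A
    · rw [if_pos (by tauto), if_neg (by tauto)]
      ring
    · rw [if_neg (by tauto), if_pos (by tauto)]
      ring

private theorem E2_sum_bq (hd : 1 ≤ d) (t : ℕ) (f : Site d k → Fin q) (v : Site d k) :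
    ∑ c, PP^[t] (bq c f) v = q := by
  have h1 : ∀ u : Site d k, ∑ c, bq c f u = (q : ℝ) := by
    intro u
    unfold bq
    rw [Finset.sum_ite_eq, if_pos (Finset.mem_univ _)]
  have h2 := PPt_sum t Finset.univ (fun c => bq c f) v
  rw [← h2]
  simp only [h1]
  exact PPt_const hd t _ v

theorem A_card (hd : 1 ≤ d) (hR : Rg d q) {f : Site d k → Fin q} (hf : Prp f) (A : Finset (Fin q)) (v : Site d k) (t : ℕ) (δ : ℝ)
    (h : Pn δ t A f v) : |(A.card : ℝ) / q - 1 / 2| ≤ δ := by
  classical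
  obtain ⟨hq0, ha, -, -, -⟩ := rg_pos hd hR
  have hq : (0 : ℝ) < q := by exact_mod_cast hq0
  obtain ⟨hm0, hm1, -, h1m, -, -, -, -, -, -, hx⟩ := mf_num ha (ms_spec hd hR)
  have hm : 1 / 2 ≤ ms d q := by
    have h1 : Real.exp (-ra d q) ≤ 1 := Real.exp_le_one_iff.2 (by linarith)
    have h2 : 1000 * (1 - ms d q) ≤ ra d q * (1 - ms d q) := mul_le_mul_of_nonneg_right ha h1m.le
    linarith
  -- the sum of the mean-field values
  have h2 : ∃ n : ℝ, |n / q - 1 / 2| = |(A.card : ℝ) / q - 1 / 2| ∧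
      ∑ c, gm A v c = q * (1 - ms d q) + 2 * ms d q * n := by
    have h3 : ∀ (P : Fin q → Prop) [DecidablePred P], ∑ c, (if P c then 1 + ms d q else 1 - ms d q) =
        q * (1 - ms d q) + 2 * ms d q * ((Finset.univ.filter P).card : ℝ) := by
      intro P _
      have h4 : ∀ c, (if P c then 1 + ms d q else 1 - ms d q) = (1 - ms d q) + 2 * ms d q * (if P c then 1 else 0) := by
        intro c
        split_ifs <;> ring
      simp only [h4]
      rw [Finset.sum_add_distrib, Finset.sum_const, Finset.card_univ, Fintype.card_fin, nsmul_eq_mul,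
        ← Finset.mul_sum, Finset.sum_boole]
    by_cases he : evn v
    · refine ⟨A.card, rfl, ?_⟩
      have h5 : ∀ c, gm A v c = if c ∈ A then 1 + ms d q else 1 - ms d q := by
        intro c
        unfold gm tS
        by_cases hc : c ∈ A
        · rw [if_pos (by tauto), if_pos hc]
        · rw [if_neg (by tauto), if_neg hc]
      rw [Finset.sum_congr rfl fun c _ => h5 c, h3 fun c => c ∈ A]
      congr 4
      ext c
      simp
    · refine ⟨q - A.card, ?_, ?_⟩
      · have h6 : ((q : ℝ) - A.card) / q - 1 / 2 = -((A.card : ℝ) / q - 1 / 2) := by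
          field_simp
          ring
        rw [h6, abs_neg]
      · have h5 : ∀ c, gm A v c = if c ∉ A then 1 + ms d q else 1 - ms d q := by
          intro c
          unfold gm tS
          by_cases hc : c ∈ A
          · rw [if_neg (by tauto), if_neg (by tauto)]
          · rw [if_pos (by tauto), if_pos hc]
        rw [Finset.sum_congr rfl fun c _ => h5 c, h3 fun c => c ∉ A]
        have h7 : (Finset.univ.filter fun c => c ∉ A) = Finset.univ \ A := by
          ext c
          simp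
        have h8 : (A.card : ℝ) + ((Finset.univ.filter fun c => c ∉ A).card : ℝ) = q := by
          rw [h7, ← Nat.cast_add, add_comm, Finset.card_sdiff_add_card_eq_card (Finset.subset_univ A),
            Finset.card_univ, Fintype.card_fin]
        rw [← h8]
        ring
  obtain ⟨n, hn1, hn2⟩ := h2
  rw [← hn1]
  have h9 : |∑ c, (PP^[t] (bq c f) v - gm A v c)| ≤ q * δ := by
    refine (Finset.abs_sum_le_sum_abs _ _).trans ((Finset.sum_le_sum fun c _ => h c).trans (le_of_eq ?_))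
    rw [Finset.sum_const, Finset.card_univ, Fintype.card_fin, nsmul_eq_mul]
  rw [Finset.sum_sub_distrib, E2_sum_bq hd, hn2] at h9
  have h10 : (q : ℝ) - (q * (1 - ms d q) + 2 * ms d q * n) = -(q * (2 * ms d q) * (n / q - 1 / 2)) := by
    field_simp
    ring
  rw [h10, abs_neg, abs_mul, abs_of_pos (by positivity : 0 < (q : ℝ) * (2 * ms d q))] at h9
  have h11 : (q : ℝ) * |n / q - 1 / 2| ≤ q * (2 * ms d q) * |n / q - 1 / 2| := by
    refine mul_le_mul_of_nonneg_right ?_ (abs_nonneg _)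
    nlinarith
  exact le_of_mul_le_mul_left (h11.trans h9) hq

private theorem E2_bq_bd (c : Fin q) (f : Site d k → Fin q) (v : Site d k) : 0 ≤ bq c f v ∧ bq c f v ≤ q := by
  have h : (0 : ℝ) ≤ q := Nat.cast_nonneg q
  unfold bq
  split_ifs
  · exact ⟨h, le_refl _⟩
  · exact ⟨le_refl _, h⟩

private theorem E2_bd (hd : 1 ≤ d) (t : ℕ) {g : Site d k → ℝ} {M : ℝ} (h0 : ∀ u, 0 ≤ g u) (h1 : ∀ u, g u ≤ M) (v : Site d k) :
    0 ≤ PP^[t] g v ∧ PP^[t] g v ≤ M := by
  constructor
  · have h := PPt_mono t (g := fun _ => (0 : ℝ)) (h := g) h0 v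
    rwa [PPt_const hd] at h
  · have h := PPt_mono t (g := g) (h := fun _ => M) h1 v
    rwa [PPt_const hd] at h

/-- averages of functions which are pointwise close -/
private theorem E2_mean (hd : 1 ≤ d) (g : Site d k → ℝ) (x y : ℝ) (b : Stp d → ℝ) (v : Site d k)
    (h : ∀ σ : Stp d, |g (v + sv σ) - x| ≤ y + b σ) : |PP g v - x| ≤ y + (∑ σ, b σ) / (2 * d) := by
  have hd0 : (0 : ℝ) < 2 * d := by
    have : (1 : ℝ) ≤ d := by exact_mod_cast hd
    linarith
  have hc : ((Fintype.card (Stp d) : ℕ) : ℝ) = 2 * d := by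
    rw [Fintype.card_prod, Fintype.card_fin, Fintype.card_bool]
    push_cast
    ring
  have h1 : PP g v - x = (∑ σ : Stp d, (g (v + sv σ) - x)) / (2 * d) := by
    unfold PP
    rw [Finset.sum_sub_distrib, Finset.sum_const, Finset.card_univ, nsmul_eq_mul, hc]
    field_simp
  have h2 : |∑ σ : Stp d, (g (v + sv σ) - x)| ≤ 2 * d * y + ∑ σ, b σ := by
    refine (Finset.abs_sum_le_sum_abs _ _).trans ((Finset.sum_le_sum fun σ _ => h σ).trans (le_of_eq ?_))
    rw [Finset.sum_add_distrib, Finset.sum_const, Finset.card_univ, nsmul_eq_mul, hc]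
  rw [h1, abs_div, abs_of_pos hd0, div_le_iff₀ hd0]
  refine h2.trans (le_of_eq ?_)
  field_simp

private theorem E2_ind (P : Prop) : 0 ≤ ind P ∧ ind P ≤ 1 := by
  unfold ind
  split_ifs <;> norm_num

/-- two steps -/
private theorem E2_two (hd : 1 ≤ d) (t : ℕ) (f : Site d k → Fin q) (c : Fin q) (C₄ : ℝ) (hC : 0 ≤ C₄) (u : Site d k) :
    |PP (PP (PP^[t] (bq c f))) u - PP^[t] (bq c f) u| ≤ C₄ / q + q * PP (fun w => ind (Gb C₄ t f w)) u := by
  have hG := fun w => E2_bd hd t (fun u => (E2_bq_bd c f u).1) (fun u => (E2_bq_bd c f u).2) w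
  have hCq : 0 ≤ C₄ / q := div_nonneg hC (Nat.cast_nonneg q)
  have h1 : ∀ σ : Stp d, |PP (PP^[t] (bq c f)) (u + sv σ) - PP^[t] (bq c f) u| ≤
      C₄ / q + q * ind (Gb C₄ t f (u + sv σ)) := by
    intro σ
    have hu : u = u + sv σ + sv (opp σ) := by
      rw [add_assoc, sv_opp' σ, add_zero]
    have h2 : ∀ τ : Stp d, |PP^[t] (bq c f) (u + sv σ + sv τ) - PP^[t] (bq c f) u| ≤
        (C₄ / q + q * ind (Gb C₄ t f (u + sv σ))) + 0 := by
      intro τ
      rw [add_zero]
      by_cases hg : Gb C₄ t f (u + sv σ)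
      · have h3 := hG (u + sv σ + sv τ)
        have h4 := hG u
        have h5 : ind (Gb C₄ t f (u + sv σ)) = 1 := by
          unfold ind
          rw [if_pos hg]
        rw [h5, mul_one, abs_le]
        constructor <;> linarith [h3.1, h3.2, h4.1, h4.2]
      · have h5 : ind (Gb C₄ t f (u + sv σ)) = 0 := by
          unfold ind
          rw [if_neg hg]
        rw [h5, mul_zero, add_zero]
        by_contra h6
        push Not at h6
        refine hg ⟨c, τ, opp σ, ?_⟩
        rwa [← hu]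
    have h7 := E2_mean hd (PP^[t] (bq c f)) (PP^[t] (bq c f) u) _ (fun _ => 0) (u + sv σ) h2
    simpa using h7
  have h8 := E2_mean hd (PP (PP^[t] (bq c f))) (PP^[t] (bq c f) u) (C₄ / q)
    (fun σ => q * ind (Gb C₄ t f (u + sv σ))) u h1
  refine h8.trans (le_of_eq ?_)
  unfold PP
  rw [← Finset.mul_sum, mul_div_assoc]

theorem avg_bq (hd : 1 ≤ d) (hR : Rg d q) {f : Site d k → Fin q} (hf : Prp f) (A : Finset (Fin q)) (v : Site d k) (t r : ℕ) (δ C₄ κ : ℝ)
    (hδ : 0 ≤ δ) (hC : 0 ≤ C₄) (hκ : 0 ≤ κ) (h0 : Pn δ t A f v) (h1 : ∀ σ : Stp d, Pn δ t A f (v + sv σ))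
    (hG : ∀ s ≤ r, PP^[s] (fun u => ind (Gb C₄ t f u)) v ≤ κ) (c : Fin q) :
    |PP^[r] (PP^[t] (bq c f)) v - gs A v r c| ≤ δ + r * (C₄ / q + q * κ) := by
  have hk := k_pos hd hf
  have hq : (0 : ℝ) ≤ q := Nat.cast_nonneg q
  have hE : 0 ≤ C₄ / q + q * κ := by positivity
  suffices hs : ∀ m, m ≤ r → |PP^[m] (PP^[t] (bq c f)) v - gs A v m c| ≤ δ + m * (C₄ / q + q * κ) from hs r le_rfl
  intro m
  induction m using Nat.strong_induction_on with
  | _ m ih =>
    intro hm
    match m, ih, hm with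
    | 0, _, _ =>
      have h2 : gs A v 0 c = gm A v c := by simp [gs]
      rw [h2]
      simpa using h0 c
    | 1, _, _ =>
      have h2 : gs A v 1 c = 2 - gm A v c := by simp [gs]
      rw [h2]
      have h3 := E2_mean hd (PP^[t] (bq c f)) (2 - gm A v c) δ (fun _ => 0) v (fun σ => by
        rw [← gm_step hk A v σ c, add_zero]
        exact h1 σ c)
      simp only [Finset.sum_const_zero, zero_div, add_zero] at h3
      have h4 : PP^[1] (PP^[t] (bq c f)) v = PP (PP^[t] (bq c f)) v := rfl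
      rw [h4]
      push_cast
      linarith
    | m + 2, ih, hm =>
      have h2 := ih m (by omega) (by omega)
      have h3 : gs A v (m + 2) c = gs A v m c := by
        unfold gs
        simp [Nat.even_add]
      have h4 : PP^[m + 2] (PP^[t] (bq c f)) v - PP^[m] (PP^[t] (bq c f)) v =
          PP^[m] (fun u => PP (PP (PP^[t] (bq c f))) u - PP^[t] (bq c f) u) v := by
        rw [PPt_sub m (PP (PP (PP^[t] (bq c f)))) (PP^[t] (bq c f)) v]
        rfl
      have h5 : |PP^[m + 2] (PP^[t] (bq c f)) v - PP^[m] (PP^[t] (bq c f)) v| ≤ C₄ / q + q * κ := by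
        rw [h4]
        refine (PPt_abs m _ v).trans ((PPt_mono m (fun u => E2_two hd t f c C₄ hC u) v).trans ?_)
        have h6 : PP^[m] (fun u => C₄ / q + q * PP (fun w => ind (Gb C₄ t f w)) u) v =
            C₄ / q + q * PP^[m + 1] (fun w => ind (Gb C₄ t f w)) v := by
          have h7 : (fun u : Site d k => C₄ / q + q * PP (fun w => ind (Gb C₄ t f w)) u) =
              fun u => q * PP (fun w => ind (Gb C₄ t f w)) u - (-(C₄ / q)) := by
            funext u
            ring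
          rw [h7, PPt_sub, PPt_mul, PPt_const hd]
          have h8 : PP^[m] (PP (fun w => ind (Gb C₄ t f w))) v = PP^[m + 1] (fun w => ind (Gb C₄ t f w)) v := rfl
          rw [h8]
          ring
        rw [h6]
        have h9 := hG (m + 1) (by omega)
        have h10 := mul_le_mul_of_nonneg_left h9 hq
        linarith
      rw [h3]
      have h11 : PP^[m + 2] (PP^[t] (bq c f)) v - gs A v m c =
          (PP^[m + 2] (PP^[t] (bq c f)) v - PP^[m] (PP^[t] (bq c f)) v) + (PP^[m] (PP^[t] (bq c f)) v - gs A v m c) := by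
        ring
      rw [h11]
      refine (abs_add_le _ _).trans ?_
      push_cast
      nlinarith

private theorem E2_gg_bd {f : Site d k → Fin q} (hf : Prp f) (c : Fin q) (v : Site d k) :
    0 ≤ THR.gg c f v ∧ THR.gg c f v ≤ q := by
  have h1 : (1 : ℝ) ≤ av f v := by exact_mod_cast av_pos hf v
  have hq : (0 : ℝ) ≤ q := Nat.cast_nonneg q
  unfold THR.gg
  have h2 : zz f v c = 0 ∨ zz f v c = 1 := by
    unfold zz
    split_ifs
    · exact Or.inl rfl
    · exact Or.inr rfl
  rcases h2 with h2 | h2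
  · rw [h2]
    simp [hq]
  · rw [h2, mul_one]
    exact ⟨by positivity, div_le_self hq h1⟩

theorem avg_gg (hd : 1 ≤ d) (hR : Rg d q) {f : Site d k → Fin q} (hf : Prp f) (v : Site d k) (t r : ℕ) (δ κ : ℝ) (hδ : 0 ≤ δ)
    (hG : PP^[r] (fun u => ind (∃ c : Fin q, δ < |PP^[t] (bq c f) u - PP^[t] (gg c f) u|)) v ≤ κ) (c : Fin q) :
    |PP^[r] (PP^[t] (bq c f)) v - PP^[r] (PP^[t] (gg c f)) v| ≤ δ + q * κ := by
  have hq : (0 : ℝ) ≤ q := Nat.cast_nonneg q
  have h1 := fun w => E2_bd hd t (fun u => (E2_bq_bd c f u).1) (fun u => (E2_bq_bd c f u).2) w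
  have h2 := fun w => E2_bd hd t (fun u => (E2_gg_bd hf c u).1) (fun u => (E2_gg_bd hf c u).2) w
  have h3 : ∀ u : Site d k, |PP^[t] (bq c f) u - PP^[t] (THR.gg c f) u| ≤
      q * ind (∃ c : Fin q, δ < |PP^[t] (bq c f) u - PP^[t] (THR.gg c f) u|) - (-δ) := by
    intro u
    by_cases h : ∃ c : Fin q, δ < |PP^[t] (bq c f) u - PP^[t] (THR.gg c f) u|
    · have h4 : ind (∃ c : Fin q, δ < |PP^[t] (bq c f) u - PP^[t] (THR.gg c f) u|) = 1 := by
        unfold ind
        rw [if_pos h]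
      rw [h4, mul_one, abs_le]
      constructor <;> linarith [(h1 u).1, (h1 u).2, (h2 u).1, (h2 u).2]
    · have h4 : ind (∃ c : Fin q, δ < |PP^[t] (bq c f) u - PP^[t] (THR.gg c f) u|) = 0 := by
        unfold ind
        rw [if_neg h]
      rw [h4, mul_zero]
      push Not at h
      linarith [h c]
  rw [← PPt_sub]
  refine (PPt_abs r _ v).trans ((PPt_mono r h3 v).trans ?_)
  rw [PPt_sub, PPt_mul, PPt_const hd]
  have h5 := mul_le_mul_of_nonneg_left hG hq
  linarith

end Pool.Agent.LC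

end

/-! ### from `Lib_MP_2c424f_lc1.D1` -/

section

/-!
# LC1 D1: one-variable inequalities; one site

`Lm_ge`: `log r ≤ r - 1`.  `Lm_sq`: `k(r) = 2(1+r) Lm r - (r-1)²`, `k(1) = 0`, `k'(r) = 2 Lm r + 2(r-1)/r`, `≥ 0` for `r ≥ 1`, `≤ 0` for `r ≤ 1` (`Lm r ≤ (1-r)/r` iff `r - 1/r ≤ log r`).
`Lm_quad`: apply `Lm_sq` to `y/γ`: `(y-γ)² ≤ 2 γ (γ + y) Lm (y/γ)`.

`site_ineq`: `α := (∑_c e^{-h c})/q = p + l`, `p := (1/q) ∑_{c ∈ H} e^{-h c}`, `ℓ := (1/q) ∑_{c ∉ H} e^{-h c}/α = l/α`; `log α = log p - log (1-ℓ)`.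
(B) `log p ≤ log (#H/q) - mean_H h + (4/#H) ∑_H (h - aμ)²`, `μ = 1 - m`, `aμ ≤ 1/4`: with `x̄ = mean_H h`: if `x̄ ≤ 1`: `log mean e^{-(h-x̄)} ≤ mean (e^{-(h-x̄)} - 1 + (h-x̄)) ≤ (e/2) mean (h-x̄)²`
(`e^{-u} - 1 + u ≤ (u²/2) e^{max(-u,0)}`, `h ≥ 0`), and the variance is at most the second moment about `aμ`; if `x̄ > 1`: `log mean e^{-h} ≤ 0` and `x̄ ≤ 4 (x̄ - aμ)² ≤ 4 mean (h-aμ)²`.
`log (#H/q) ≤ log (1/2) + 2η`.
(A) `-log (1-ℓ) ≤ -log (1-μ/2) + (ℓ-μ/2)/(1-μ/2) + 10^5 (ℓ-μ/2)²`: for `ℓ ≤ 1/2` Taylor (second derivative `≤ 4`, coefficient `2`); for `ℓ > 1/2`: `1 - ℓ = p/α ≥ p ≥ (#H/q) e^{-x̄}`,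
`x̄ ≤ a q/#H ≤ 2.1 a ≤ 4200`, so `-log(1-ℓ) ≤ 4202`, and `(ℓ - μ/2)² ≥ 1/5`.
`log (1/2) - aμ - log (1-μ/2) = log (als a m)` because `e^{-aμ} = als (1+m) = 2 als (1-μ/2)`.
-/

set_option autoImplicit false

open Finset Filter

namespace Pool.Agent.LC

open Pool.Agent.LO Pool.Agent.LIN Pool.Agent.THR Pool.Agent.COR

private noncomputable def D1_k (r : ℝ) : ℝ := (r + 1) / 2 - 2 / (r + 1) - Real.log r

private theorem D1_kder {r : ℝ} (hr : 0 < r) :
    HasDerivAt D1_k ((r - 1) * (r ^ 2 + r + 2) / (2 * r * (r + 1) ^ 2)) r := by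
  have h0 : r + 1 ≠ 0 := by linarith
  have h1 : HasDerivAt (fun r : ℝ => (r + 1) / 2) (1 / 2) r :=
    ((hasDerivAt_id r).add_const 1).div_const 2
  have h2 : HasDerivAt (fun r : ℝ => 2 / (r + 1)) (-(2 / (r + 1) ^ 2)) r := by
    have h3 := (hasDerivAt_const r (2 : ℝ)).div ((hasDerivAt_id r).add_const (1 : ℝ)) h0
    refine h3.congr_deriv ?_
    simp only [id]
    field_simp
    ring
  have h4 : HasDerivAt Real.log r⁻¹ r := Real.hasDerivAt_log hr.ne'
  have h5 := (h1.sub h2).sub h4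
  refine h5.congr_deriv ?_
  field_simp
  ring

private theorem D1_knn {r : ℝ} (hr : 0 < r) : 0 ≤ D1_k r := by
  have hk1 : D1_k 1 = 0 := by
    unfold D1_k
    rw [Real.log_one]
    norm_num
  have hcont : ∀ s : Set ℝ, (∀ x ∈ s, 0 < x) → ContinuousOn D1_k s := fun s hs x hx =>
    (D1_kder (hs x hx)).continuousAt.continuousWithinAt
  rcases le_total 1 r with h | h
  · have hm : MonotoneOn D1_k (Set.Ici 1) := by
      refine monotoneOn_of_deriv_nonneg (convex_Ici 1)
        (hcont _ fun x hx => lt_of_lt_of_le one_pos hx) ?_ ?_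
      · intro x hx
        rw [interior_Ici] at hx
        exact (D1_kder (lt_trans one_pos hx)).differentiableAt.differentiableWithinAt
      · intro x hx
        rw [interior_Ici] at hx
        have hx1 : (1 : ℝ) < x := hx
        rw [(D1_kder (lt_trans one_pos hx1)).deriv]
        have : 0 < x := lt_trans one_pos hx1
        have h2 : 0 ≤ x - 1 := by linarith
        positivity
    have := hm (Set.mem_Ici.2 le_rfl) (Set.mem_Ici.2 h) h
    rw [hk1] at this
    exact this
  · have hm : AntitoneOn D1_k (Set.Ioc 0 1) := by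
      refine antitoneOn_of_deriv_nonpos (convex_Ioc 0 1) (hcont _ fun x hx => hx.1) ?_ ?_
      · intro x hx
        rw [interior_Ioc] at hx
        exact (D1_kder hx.1).differentiableAt.differentiableWithinAt
      · intro x hx
        rw [interior_Ioc] at hx
        rw [(D1_kder hx.1).deriv]
        have h3 : 0 < x := hx.1
        have h4 : x < 1 := hx.2
        refine div_nonpos_of_nonpos_of_nonneg ?_ (by positivity)
        have h5 : 0 < x ^ 2 + x + 2 := by positivity
        nlinarith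
    have := hm (Set.mem_Ioc.2 ⟨hr, h⟩) (Set.mem_Ioc.2 ⟨one_pos, le_rfl⟩) h
    rw [hk1] at this
    exact this

theorem Lm_ge {r : ℝ} (hr : 0 < r) : 0 ≤ Lm r := by
  unfold Lm
  have := Real.log_le_sub_one_of_pos hr
  linarith

theorem Lm_sq {r : ℝ} (hr : 0 < r) : (r - 1) ^ 2 ≤ 2 * (1 + r) * Lm r := by
  have h := D1_knn hr
  unfold D1_k at h
  unfold Lm
  have h1 : 0 < 1 + r := by linarith
  have h2 : 0 ≤ 2 * (1 + r) * ((r + 1) / 2 - 2 / (r + 1) - Real.log r) :=
    mul_nonneg (by linarith) h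
  have h3 : 2 * (1 + r) * ((r + 1) / 2 - 2 / (r + 1) - Real.log r) =
      2 * (1 + r) * (r - 1 - Real.log r) - (r - 1) ^ 2 := by
    have : r + 1 ≠ 0 := by linarith
    field_simp
    ring
  linarith

theorem Lm_quad {y γ Y : ℝ} (hy : 0 < y) (hγ : 0 < γ) (hY : y ≤ Y) : (y - γ) ^ 2 ≤ 2 * γ * (γ + Y) * Lm (y / γ) := by
  have h := Lm_sq (div_pos hy hγ)
  have h0 := Lm_ge (div_pos hy hγ)
  have h1 : γ ^ 2 * (y / γ - 1) ^ 2 ≤ γ ^ 2 * (2 * (1 + y / γ) * Lm (y / γ)) :=
    mul_le_mul_of_nonneg_left h (by positivity)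
  have h2 : γ ^ 2 * (y / γ - 1) ^ 2 = (y - γ) ^ 2 := by
    field_simp
  have h3 : γ ^ 2 * (2 * (1 + y / γ) * Lm (y / γ)) = 2 * γ * (γ + y) * Lm (y / γ) := by
    field_simp
  rw [h2, h3] at h1
  refine h1.trans ?_
  refine mul_le_mul_of_nonneg_right ?_ h0
  exact mul_le_mul_of_nonneg_left (by linarith) (by linarith)

private theorem D1_exp {v : ℝ} (hv : v ≤ 1) : Real.exp v ≤ 1 + v + v ^ 2 := by
  rcases le_or_gt (-1) v with h | h
  · have h1 := Real.abs_exp_sub_one_sub_id_le (x := v) (abs_le.2 ⟨h, hv⟩)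
    have h2 := le_abs_self (Real.exp v - 1 - v)
    linarith
  · have h1 : Real.exp v ≤ 1 := Real.exp_le_one_iff.2 (by linarith)
    nlinarith

private theorem D1_sq {ι : Type} (H : Finset ι) (h : ι → ℝ) (x θ : ℝ) (hx : ∑ c ∈ H, h c = H.card * x) :
    ∑ c ∈ H, (h c - θ) ^ 2 = ∑ c ∈ H, (h c - x) ^ 2 + H.card * (x - θ) ^ 2 := by
  have h1 : ∀ c ∈ H, (h c - θ) ^ 2 = (h c - x) ^ 2 + (2 * (x - θ) * h c + (θ ^ 2 - x ^ 2)) := by
    intro c _
    ring
  rw [Finset.sum_congr rfl h1, Finset.sum_add_distrib, Finset.sum_add_distrib, ← Finset.mul_sum, hx,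
    Finset.sum_const, nsmul_eq_mul]
  ring

private theorem D1_mean {ι : Type} (H : Finset ι) (hH : 0 < (H.card : ℝ)) (h : ι → ℝ) (h0 : ∀ c ∈ H, 0 ≤ h c)
    (x θ : ℝ) (hx : ∑ c ∈ H, h c = H.card * x) (hθ : θ ≤ 1 / 4) :
    Real.log ((∑ c ∈ H, Real.exp (-h c)) / H.card) ≤ -x + 4 / (H.card : ℝ) * ∑ c ∈ H, (h c - θ) ^ 2 := by
  have hne : H.Nonempty := Finset.card_pos.1 (by exact_mod_cast hH)
  have hP : 0 < ∑ c ∈ H, Real.exp (-h c) := Finset.sum_pos (fun c _ => Real.exp_pos _) hne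
  have hV0 : 0 ≤ ∑ c ∈ H, (h c - x) ^ 2 := Finset.sum_nonneg fun c _ => sq_nonneg _
  have hsq := D1_sq H h x θ hx
  rcases le_or_gt x 1 with hx1 | hx1
  · have h1 : ∑ c ∈ H, Real.exp (-h c) ≤
        Real.exp (-x) * ((H.card : ℝ) + ∑ c ∈ H, (h c - x) ^ 2) := by
      have h2 : ∀ c ∈ H, Real.exp (-h c) ≤ Real.exp (-x) * (1 + (x - h c) + (h c - x) ^ 2) := by
        intro c hc
        have h3 : Real.exp (-h c) = Real.exp (-x) * Real.exp (x - h c) := by
          rw [← Real.exp_add]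
          congr 1
          ring
        rw [h3]
        refine mul_le_mul_of_nonneg_left ?_ (Real.exp_nonneg _)
        have h4 := D1_exp (v := x - h c) (by have := h0 c hc; linarith)
        have h5 : (x - h c) ^ 2 = (h c - x) ^ 2 := by ring
        rw [h5] at h4
        exact h4
      refine (Finset.sum_le_sum h2).trans (le_of_eq ?_)
      rw [← Finset.mul_sum]
      congr 1
      rw [Finset.sum_add_distrib, Finset.sum_add_distrib, Finset.sum_sub_distrib, hx]
      simp only [Finset.sum_const, nsmul_eq_mul]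
      ring
    have h6 : (∑ c ∈ H, Real.exp (-h c)) / H.card ≤
        Real.exp (-x) * (1 + (∑ c ∈ H, (h c - x) ^ 2) / H.card) := by
      rw [div_le_iff₀ hH]
      refine h1.trans (le_of_eq ?_)
      field_simp
    have hW : 0 ≤ (∑ c ∈ H, (h c - x) ^ 2) / (H.card : ℝ) := div_nonneg hV0 hH.le
    have h7 : Real.log ((∑ c ∈ H, Real.exp (-h c)) / H.card) ≤
        -x + (∑ c ∈ H, (h c - x) ^ 2) / H.card := by
      refine (Real.log_le_log (div_pos hP hH) h6).trans ?_
      rw [Real.log_mul (Real.exp_pos _).ne' (by positivity), Real.log_exp]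
      have h8 := Real.log_le_sub_one_of_pos (x := 1 + (∑ c ∈ H, (h c - x) ^ 2) / (H.card : ℝ)) (by positivity)
      linarith
    refine h7.trans ?_
    have h9 : (∑ c ∈ H, (h c - x) ^ 2) / (H.card : ℝ) ≤ 4 / (H.card : ℝ) * ∑ c ∈ H, (h c - θ) ^ 2 := by
      rw [div_mul_eq_mul_div]
      refine div_le_div_of_nonneg_right ?_ hH.le
      rw [hsq]
      have : 0 ≤ (H.card : ℝ) * (x - θ) ^ 2 := by positivity
      linarith
    linarith
  · have h1 : (∑ c ∈ H, Real.exp (-h c)) / H.card ≤ 1 := by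
      rw [div_le_one hH]
      have h2 : ∀ c ∈ H, Real.exp (-h c) ≤ 1 := fun c hc =>
        Real.exp_le_one_iff.2 (by have := h0 c hc; linarith)
      refine (Finset.sum_le_sum h2).trans (le_of_eq ?_)
      simp
    have h3 : Real.log ((∑ c ∈ H, Real.exp (-h c)) / H.card) ≤ 0 :=
      Real.log_nonpos (div_pos hP hH).le h1
    have h4 : x ≤ 4 / (H.card : ℝ) * ∑ c ∈ H, (h c - θ) ^ 2 := by
      rw [hsq, div_mul_eq_mul_div, le_div_iff₀ hH]
      have h5 : x ≤ 4 * (x - θ) ^ 2 := by nlinarith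
      have h6 : x * (H.card : ℝ) ≤ 4 * (x - θ) ^ 2 * H.card := mul_le_mul_of_nonneg_right h5 hH.le
      nlinarith
    linarith

private theorem D1_A {l ν : ℝ} (hν0 : 0 ≤ ν) (hν : ν ≤ 1 / 4) (hl : l < 1) (hlow : -Real.log (1 - l) ≤ 6250) :
    -Real.log (1 - l) ≤ -Real.log (1 - ν) + (l - ν) / (1 - ν) + 10 ^ 5 * (l - ν) ^ 2 := by
  have h1 : 0 < 1 - l := by linarith
  have h2 : 0 < 1 - ν := by linarith
  rcases le_or_gt l (1 / 2) with h | h
  · have h3 := Real.log_le_sub_one_of_pos (div_pos h2 h1)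
    rw [Real.log_div h2.ne' h1.ne'] at h3
    have h4 : (1 - ν) / (1 - l) - 1 = (l - ν) / (1 - ν) + (l - ν) ^ 2 / ((1 - l) * (1 - ν)) := by
      field_simp
      ring
    have h5 : (l - ν) ^ 2 / ((1 - l) * (1 - ν)) ≤ 10 ^ 5 * (l - ν) ^ 2 := by
      rw [div_le_iff₀ (by positivity)]
      have h6 : 1 ≤ 10 ^ 5 * ((1 - l) * (1 - ν)) := by nlinarith
      have h7 := mul_le_mul_of_nonneg_left h6 (sq_nonneg (l - ν))
      nlinarith
    linarith
  · have h3 : 0 ≤ -Real.log (1 - ν) := by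
      have := Real.log_nonpos h2.le (by linarith : 1 - ν ≤ 1)
      linarith
    have h4 : 0 ≤ (l - ν) / (1 - ν) := div_nonneg (by linarith) h2.le
    have h5 : (1 / 4 : ℝ) ^ 2 ≤ (l - ν) ^ 2 := pow_le_pow_left₀ (by norm_num) (by linarith) 2
    have h6 : (6250 : ℝ) ≤ 10 ^ 5 * (l - ν) ^ 2 := by nlinarith
    linarith

theorem site_ineq {q : ℕ} (hq : 0 < q) {a m : ℝ} (ha : 1000 ≤ a) (ha2 : a ≤ 2000) (hm : MFE a m) (η : ℝ) (hη : 0 ≤ η) (hη1 : η ≤ 1 / 100)
    (H : Finset (Fin q)) (hH : |(H.card : ℝ) / q - 1 / 2| ≤ η) (h : Fin q → ℝ) (h0 : ∀ c, 0 ≤ h c) (hs : ∑ c, h c = a * q) :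
    Real.log ((∑ c, Real.exp (-h c)) / q) ≤ Real.log (als a m) - 1 / (H.card : ℝ) * ∑ c ∈ H, (h c - a * (1 - m)) +
      4 / (H.card : ℝ) * ∑ c ∈ H, (h c - a * (1 - m)) ^ 2 +
      ((∑ c ∈ Hᶜ, Real.exp (-h c) / ((∑ c, Real.exp (-h c)) / q)) / q - (1 - m) / 2) / (1 - (1 - m) / 2) +
      10 ^ 5 * ((∑ c ∈ Hᶜ, Real.exp (-h c) / ((∑ c, Real.exp (-h c)) / q)) / q - (1 - m) / 2) ^ 2 + 2 * η := by
  obtain ⟨hm0, hm1, hm2, hm3, -, hm5, -, hm7, -, -, hm10⟩ := mf_num ha hm
  have hq' : (0 : ℝ) < q := by exact_mod_cast hq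
  have hcard := abs_le.1 hH
  -- the number of elements of `H`
  have hN1 : (49 / 100 : ℝ) ≤ (H.card : ℝ) / q := by linarith [hcard.1]
  have hN2 : (H.card : ℝ) / q ≤ 1 / 2 + η := by linarith [hcard.2]
  have hN : 0 < (H.card : ℝ) := by
    have h1 : (49 / 100 : ℝ) * q ≤ H.card := (le_div_iff₀ hq').1 hN1
    nlinarith
  have hne : H.Nonempty := Finset.card_pos.1 (by exact_mod_cast hN)
  obtain ⟨x, hx⟩ : ∃ x : ℝ, ∑ c ∈ H, h c = H.card * x := ⟨(∑ c ∈ H, h c) / H.card, by field_simp⟩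
  have hexp4 : Real.exp (-a) ≤ 1 / 4 := by
    have h1 : a + 1 ≤ Real.exp a := Real.add_one_le_exp a
    rw [Real.exp_neg, inv_le_comm₀ (Real.exp_pos _) (by norm_num)]
    linarith
  have hθ : a * (1 - m) ≤ 1 / 4 := hm10.trans hexp4
  have hmu : 1 - m ≤ 1 / 4 := by nlinarith
  set P : ℝ := ∑ c ∈ H, Real.exp (-h c) with hPdef
  set L : ℝ := ∑ c ∈ Hᶜ, Real.exp (-h c) with hLdef
  have hP : 0 < P := Finset.sum_pos (fun c _ => Real.exp_pos _) hne
  have hL : 0 ≤ L := Finset.sum_nonneg fun c _ => (Real.exp_pos _).le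
  have hS : ∑ c, Real.exp (-h c) = P + L := (Finset.sum_add_sum_compl H _).symm
  have hE : 0 < (P + L) / q := div_pos (by linarith) hq'
  have hl : (∑ c ∈ Hᶜ, Real.exp (-h c) / ((∑ c, Real.exp (-h c)) / q)) / q = L / (P + L) := by
    rw [← Finset.sum_div, hS, ← hLdef]
    have h1 : P + L ≠ 0 := by linarith
    field_simp
  rw [hl, hS]
  have hone : 1 - L / (P + L) = P / (P + L) := by
    have h1 : P + L ≠ 0 := by linarith
    field_simp
    ring
  have hlt : L / (P + L) < 1 := by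
    rw [div_lt_one (by linarith)]
    linarith
  -- the total is at most `q`
  have htot : P + L ≤ q := by
    rw [← hS]
    have h2 : ∀ c ∈ (univ : Finset (Fin q)), Real.exp (-h c) ≤ 1 := fun c _ =>
      Real.exp_le_one_iff.2 (by have := h0 c; linarith)
    refine (Finset.sum_le_sum h2).trans (le_of_eq ?_)
    simp
  -- lower bound of `P`
  have hPlow : (H.card : ℝ) * Real.exp (-x) ≤ P := by
    have h2 : ∀ c ∈ H, Real.exp (-x) * (1 + (x - h c)) ≤ Real.exp (-h c) := by
      intro c _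
      have h3 : Real.exp (-h c) = Real.exp (-x) * Real.exp (x - h c) := by
        rw [← Real.exp_add]
        congr 1
        ring
      rw [h3]
      refine mul_le_mul_of_nonneg_left ?_ (Real.exp_nonneg _)
      have := Real.add_one_le_exp (x - h c)
      linarith
    refine le_trans (le_of_eq ?_) (Finset.sum_le_sum h2)
    rw [← Finset.mul_sum, Finset.sum_add_distrib, Finset.sum_sub_distrib, hx]
    simp only [Finset.sum_const, nsmul_eq_mul]
    ring
  have hxup : x ≤ 4100 := by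
    have h1 : ∑ c ∈ H, h c ≤ ∑ c, h c :=
      Finset.sum_le_sum_of_subset_of_nonneg (Finset.subset_univ _) fun c _ _ => h0 c
    rw [hx, hs] at h1
    have h2 : (49 / 100 : ℝ) * q ≤ H.card := (le_div_iff₀ hq').1 hN1
    by_contra hcon
    push Not at hcon
    have h3 : (49 / 100 : ℝ) * q * 4100 < H.card * x := by
      calc (49 / 100 : ℝ) * q * 4100 ≤ H.card * 4100 := by linarith
        _ < H.card * x := mul_lt_mul_of_pos_left hcon hN
    nlinarith
  have hlow : -Real.log (1 - L / (P + L)) ≤ 6250 := by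
    rw [hone]
    have h1 : (H.card : ℝ) / q * Real.exp (-x) ≤ P / (P + L) := by
      rw [le_div_iff₀ (by linarith)]
      calc (H.card : ℝ) / q * Real.exp (-x) * (P + L) ≤ (H.card : ℝ) / q * Real.exp (-x) * q :=
            mul_le_mul_of_nonneg_left htot (by positivity)
        _ = (H.card : ℝ) * Real.exp (-x) := by field_simp
        _ ≤ P := hPlow
    have h2 : (49 / 100 : ℝ) * Real.exp (-4100) ≤ P / (P + L) := by
      refine le_trans ?_ h1
      exact mul_le_mul hN1 (Real.exp_le_exp.2 (by linarith)) (Real.exp_nonneg _) (by positivity)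
    have h3 := Real.log_le_log (by positivity) h2
    rw [Real.log_mul (by norm_num) (Real.exp_pos _).ne', Real.log_exp] at h3
    have h4 : -2 ≤ Real.log (49 / 100 : ℝ) := by
      rw [Real.le_log_iff_exp_le (by norm_num)]
      have h5 : (2 : ℝ) + 1 ≤ Real.exp 2 := Real.add_one_le_exp 2
      rw [Real.exp_neg, inv_le_comm₀ (Real.exp_pos _) (by norm_num)]
      norm_num
      linarith
    linarith
  have hA := D1_A (l := L / (P + L)) (ν := (1 - m) / 2) (by linarith) (by linarith) hlt hlow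
  have hB := D1_mean H hN h (fun c _ => h0 c) x (a * (1 - m)) hx hθ
  rw [← hPdef] at hB
  -- the logarithm of the total
  have hlog : Real.log ((P + L) / q) = Real.log ((H.card : ℝ) / q) + Real.log (P / H.card) -
      Real.log (1 - L / (P + L)) := by
    rw [hone, Real.log_div (by linarith) hq'.ne', Real.log_div hN.ne' hq'.ne', Real.log_div hP.ne' hN.ne',
      Real.log_div hP.ne' (by linarith)]
    ring
  have hlogN : Real.log ((H.card : ℝ) / q) ≤ -Real.log 2 + 2 * η := by
    have h1 : (H.card : ℝ) / q ≤ (1 / 2) * (1 + 2 * η) := by linarith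
    have h2 := Real.log_le_log (by positivity) h1
    rw [Real.log_mul (by norm_num) (by linarith), one_div, Real.log_inv] at h2
    have h3 := Real.log_le_sub_one_of_pos (x := 1 + 2 * η) (by linarith)
    linarith
  have hals : Real.log (als a m) = -(a * (1 - m)) - Real.log 2 - Real.log (1 - (1 - m) / 2) := by
    have h1 : Real.exp (-(a * (1 - m))) = als a m * (2 * (1 - (1 - m) / 2)) := by
      rw [hm5]
      ring
    have h2 := congrArg Real.log h1
    rw [Real.log_exp, Real.log_mul hm7.ne' (by linarith), Real.log_mul (by norm_num) (by linarith)] at h2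
    linarith
  have hmean : 1 / (H.card : ℝ) * ∑ c ∈ H, (h c - a * (1 - m)) = x - a * (1 - m) := by
    rw [Finset.sum_sub_distrib, hx]
    simp only [Finset.sum_const, nsmul_eq_mul]
    field_simp
  rw [hlog, hals, hmean]
  linarith

end Pool.Agent.LC

end

/-! ### from `Lib_MP_2c424f_lc1.T6` -/

section

/-!
# LC1 T6: Azuma's inequality with exceptional differences

`az_stop`.  `mean φ = (∑ φ)/2^n`.  Induction over `n` (first bit) for the following statement.  For `φ : (Fin n → Bool) → ℝ` call `w` good if for all `i < n` the conditional means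
`E(φ | w_0..w_{i-1}, 0)` and `E(φ | w_0..w_{i-1}, 1)` differ by at most `2L`.  Then `E (exp (λ (φ - mean φ)) 1[good]) ≤ exp (n λ² L²/2)`
(`cosh x ≤ exp (x²/2)`).  With `λ = θ/(n L²)` and Markov: `P(good, |φ - mean| ≥ θ) ≤ 2 exp (-θ²/(2nL²))`.
`P(not good) ≤ ∑_i P(|E(φ|..0) - E(φ|..1)| > 2L)`; this difference is at most the conditional mean of `|φ(w) - φ(flip_i w)|`, so at most
`L + 2M P(B(w,i) | w_0..w_{i-1})`, so `> 2L` only if `P(B | ..) > L/(2M)`, probability `≤ (2M/L) P(B(w,i))`.  (`M > 0`; `n = 0` trivial.)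

`az_odd`: the pairs `(a,b)` of one parity are parametrised by all bits except `b_l`; flipping a bit and the bit `b_l` stays in the class.
-/

set_option autoImplicit false

open Finset Filter

namespace Pool.Agent.LC

open Pool.Agent.LO Pool.Agent.LIN Pool.Agent.THR Pool.Agent.COR

open scoped Classical in
private theorem T6_cn {α : Type} [Fintype α] (P : α → Prop) :
    cn P = ∑ x, if P x then (1 : ℝ) else 0 := by
  unfold cn
  rw [Finset.card_filter]
  push_cast
  rfl

private theorem T6_sum {n : ℕ} (f : (Fin (n + 1) → Bool) → ℝ) :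
    ∑ w, f w = ∑ v : Fin n → Bool, f (Fin.cons false v) + ∑ v : Fin n → Bool, f (Fin.cons true v) := by
  rw [← (Fin.consEquiv (fun _ : Fin (n + 1) => Bool)).sum_comp, Fintype.sum_prod_type,
    Fintype.sum_bool, add_comm]
  rfl

/-- mean over the cube -/
private noncomputable def T6_E {n : ℕ} (φ : (Fin n → Bool) → ℝ) : ℝ := (∑ w, φ w) / 2 ^ n

private theorem T6_E_succ {n : ℕ} (φ : (Fin (n + 1) → Bool) → ℝ) :
    T6_E φ = (T6_E (fun v => φ (Fin.cons false v)) + T6_E (fun v => φ (Fin.cons true v))) / 2 := by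
  unfold T6_E
  rw [T6_sum, pow_succ]
  field_simp

/-- good words: all conditional means differ by at most `2 L` -/
private def T6_G (L : ℝ) : (n : ℕ) → ((Fin n → Bool) → ℝ) → (Fin n → Bool) → Prop
  | 0, _, _ => True
  | n + 1, φ, w => |T6_E (fun v => φ (Fin.cons false v)) - T6_E (fun v => φ (Fin.cons true v))| ≤ 2 * L ∧
      T6_G L n (fun v => φ (Fin.cons (w 0) v)) (Fin.tail w)

private theorem T6_G_cons (L : ℝ) {n : ℕ} (φ : (Fin (n + 1) → Bool) → ℝ) (b : Bool) (v : Fin n → Bool) :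
    T6_G L (n + 1) φ (Fin.cons b v) ↔
      |T6_E (fun v => φ (Fin.cons false v)) - T6_E (fun v => φ (Fin.cons true v))| ≤ 2 * L ∧
        T6_G L n (fun v => φ (Fin.cons b v)) v := by
  rw [T6_G]
  simp only [Fin.cons_zero, Fin.tail_cons]

open scoped Classical in
private theorem T6_exp (L lam : ℝ) (n : ℕ) : ∀ φ : (Fin n → Bool) → ℝ,
    ∑ w, (if T6_G L n φ w then Real.exp (lam * (φ w - T6_E φ)) else 0) ≤
      2 ^ n * Real.exp (n * (lam ^ 2 * L ^ 2 / 2)) := by
  induction n with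
  | zero =>
    intro φ
    have h1 : ∀ w : Fin 0 → Bool, T6_E φ = φ w := by
      intro w
      unfold T6_E
      rw [Fintype.sum_unique]
      simp only [pow_zero, div_one]
      congr 1
      exact Subsingleton.elim _ _
    rw [Fintype.sum_unique, T6_G, if_pos trivial, ← h1]
    simp
  | succ n ih =>
    intro φ
    set D := T6_E (fun v => φ (Fin.cons false v)) - T6_E (fun v => φ (Fin.cons true v)) with hD
    by_cases hc : |D| ≤ 2 * L
    · rw [T6_sum]
      have h1 : ∀ b : Bool, ∑ v : Fin n → Bool, (if T6_G L (n + 1) φ (Fin.cons b v) then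
          Real.exp (lam * (φ (Fin.cons b v) - T6_E φ)) else 0) =
          Real.exp (lam * (T6_E (fun v => φ (Fin.cons b v)) - T6_E φ)) *
          ∑ v : Fin n → Bool, (if T6_G L n (fun v => φ (Fin.cons b v)) v then
            Real.exp (lam * (φ (Fin.cons b v) - T6_E (fun v => φ (Fin.cons b v)))) else 0) := by
        intro b
        rw [Finset.mul_sum]
        apply Finset.sum_congr rfl
        intro v _
        by_cases hG : T6_G L n (fun v => φ (Fin.cons b v)) v
        · rw [if_pos hG, if_pos ((T6_G_cons L φ b v).mpr ⟨hc, hG⟩), ← Real.exp_add]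
          congr 1
          ring
        · rw [if_neg hG, if_neg (fun h => hG ((T6_G_cons L φ b v).mp h).2), mul_zero]
      rw [h1 false, h1 true]
      have i0 := ih (fun v => φ (Fin.cons false v))
      have i1 := ih (fun v => φ (Fin.cons true v))
      have e0 : T6_E (fun v => φ (Fin.cons false v)) - T6_E φ = D / 2 := by
        rw [T6_E_succ, hD]
        ring
      have e1 : T6_E (fun v => φ (Fin.cons true v)) - T6_E φ = -(D / 2) := by
        rw [T6_E_succ, hD]
        ring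
      rw [e0, e1]
      have h2 : Real.exp (lam * (D / 2)) + Real.exp (lam * -(D / 2)) ≤
          2 * Real.exp (lam ^ 2 * L ^ 2 / 2) := by
        have h3 := Real.cosh_le_exp_half_sq (lam * (D / 2))
        rw [Real.cosh_eq] at h3
        have h4 : (lam * (D / 2)) ^ 2 / 2 ≤ lam ^ 2 * L ^ 2 / 2 := by
          have h5 : D ^ 2 ≤ (2 * L) ^ 2 := sq_le_sq' (by linarith [abs_le.mp hc]) (abs_le.mp hc).2
          have h6 : 0 ≤ lam ^ 2 := sq_nonneg _
          nlinarith
        have h5 := h3.trans (Real.exp_le_exp.mpr h4)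
        rw [show lam * -(D / 2) = -(lam * (D / 2)) by ring]
        linarith
      have hp : (0 : ℝ) ≤ 2 ^ n * Real.exp (n * (lam ^ 2 * L ^ 2 / 2)) := by positivity
      calc _ ≤ Real.exp (lam * (D / 2)) * (2 ^ n * Real.exp (n * (lam ^ 2 * L ^ 2 / 2))) +
            Real.exp (lam * -(D / 2)) * (2 ^ n * Real.exp (n * (lam ^ 2 * L ^ 2 / 2))) :=
            add_le_add (mul_le_mul_of_nonneg_left i0 (Real.exp_pos _).le)
              (mul_le_mul_of_nonneg_left i1 (Real.exp_pos _).le)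
        _ = (Real.exp (lam * (D / 2)) + Real.exp (lam * -(D / 2))) *
            (2 ^ n * Real.exp (n * (lam ^ 2 * L ^ 2 / 2))) := by ring
        _ ≤ (2 * Real.exp (lam ^ 2 * L ^ 2 / 2)) *
            (2 ^ n * Real.exp (n * (lam ^ 2 * L ^ 2 / 2))) := mul_le_mul_of_nonneg_right h2 hp
        _ = 2 ^ (n + 1) * Real.exp (((n + 1 : ℕ) : ℝ) * (lam ^ 2 * L ^ 2 / 2)) := by
            have : Real.exp (((n + 1 : ℕ) : ℝ) * (lam ^ 2 * L ^ 2 / 2)) =
                Real.exp (lam ^ 2 * L ^ 2 / 2) * Real.exp (n * (lam ^ 2 * L ^ 2 / 2)) := by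
              rw [← Real.exp_add]
              congr 1
              push_cast
              ring
            rw [this, pow_succ]
            ring
    · have h1 : ∑ w, (if T6_G L (n + 1) φ w then Real.exp (lam * (φ w - T6_E φ)) else 0) = 0 := by
        apply Finset.sum_eq_zero
        intro w _
        rw [if_neg]
        intro h
        rw [T6_G] at h
        exact hc h.1
      rw [h1]
      positivity

open scoped Classical in
private theorem T6_bad (M L : ℝ) (hM : 0 < M) (hL : 0 < L) (n : ℕ) :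
    ∀ (φ : (Fin n → Bool) → ℝ) (_ : ∀ w, |φ w| ≤ M) (B : (Fin n → Bool) → Fin n → Prop)
    (_ : ∀ w i, ¬ B w i → |φ w - φ (Function.update w i (!w i))| ≤ L),
    ∑ w, (if T6_G L n φ w then (0 : ℝ) else 1) ≤
      2 * M / L * ∑ i, ∑ w, (if B w i then (1 : ℝ) else 0) := by
  induction n with
  | zero =>
    intro φ _ B _
    have : ∑ w : Fin 0 → Bool, (if T6_G L 0 φ w then (0 : ℝ) else 1) = 0 := by
      apply Finset.sum_eq_zero
      intro w _
      rw [T6_G, if_pos trivial]
    rw [this]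
    simp
  | succ n ih =>
    intro φ hφ B h
    rw [Fin.sum_univ_succ]
    set b0 : ℝ := ∑ w, (if B w 0 then (1 : ℝ) else 0) with hb0
    have hk : 0 < 2 * M / L := by positivity
    have hrest : 0 ≤ ∑ i : Fin n, ∑ w, (if B w i.succ then (1 : ℝ) else 0) := by
      apply Finset.sum_nonneg
      intro i _
      apply Finset.sum_nonneg
      intro w _
      split_ifs <;> norm_num
    set D := T6_E (fun v => φ (Fin.cons false v)) - T6_E (fun v => φ (Fin.cons true v)) with hD
    by_cases hc : |D| ≤ 2 * L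
    · rw [T6_sum]
      have h1 : ∀ b : Bool, ∑ v : Fin n → Bool, (if T6_G L (n + 1) φ (Fin.cons b v) then
          (0 : ℝ) else 1) =
          ∑ v : Fin n → Bool, (if T6_G L n (fun v => φ (Fin.cons b v)) v then (0 : ℝ) else 1) := by
        intro b
        apply Finset.sum_congr rfl
        intro v _
        by_cases hG : T6_G L n (fun v => φ (Fin.cons b v)) v
        · rw [if_pos hG, if_pos ((T6_G_cons L φ b v).mpr ⟨hc, hG⟩)]
        · rw [if_neg hG, if_neg (fun h => hG ((T6_G_cons L φ b v).mp h).2)]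
      rw [h1 false, h1 true]
      have h2 : ∀ b : Bool, ∑ v : Fin n → Bool,
          (if T6_G L n (fun v => φ (Fin.cons b v)) v then (0 : ℝ) else 1) ≤
          2 * M / L * ∑ i : Fin n, ∑ v : Fin n → Bool,
            (if B (Fin.cons b v) i.succ then (1 : ℝ) else 0) := by
        intro b
        apply ih (fun v => φ (Fin.cons b v)) (fun v => hφ _) (fun v i => B (Fin.cons b v) i.succ)
        intro v i hB
        have h3 := h (Fin.cons b v) i.succ hB
        rw [← Fin.cons_update, Fin.cons_succ] at h3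
        exact h3
      have h3 : ∑ i : Fin n, ∑ w, (if B w i.succ then (1 : ℝ) else 0) =
          (∑ i : Fin n, ∑ v : Fin n → Bool, (if B (Fin.cons false v) i.succ then (1 : ℝ) else 0)) +
          ∑ i : Fin n, ∑ v : Fin n → Bool, (if B (Fin.cons true v) i.succ then (1 : ℝ) else 0) := by
        rw [← Finset.sum_add_distrib]
        apply Finset.sum_congr rfl
        intro i _
        rw [T6_sum]
      have hb0' : 0 ≤ b0 := by
        rw [hb0]
        apply Finset.sum_nonneg
        intro w _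
        split_ifs <;> norm_num
      have h4 := h2 false
      have h5 := h2 true
      rw [h3, mul_add, mul_add]
      have h6 : 0 ≤ 2 * M / L * b0 := by positivity
      linarith
    · push Not at hc
      have h1 : ∀ v : Fin n → Bool, |φ (Fin.cons false v) - φ (Fin.cons true v)| ≤
          L + M * ((if B (Fin.cons false v) 0 then (1 : ℝ) else 0) +
            (if B (Fin.cons true v) 0 then (1 : ℝ) else 0)) := by
        intro v
        have hMM : |φ (Fin.cons false v) - φ (Fin.cons true v)| ≤ 2 * M := by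
          have := abs_sub (φ (Fin.cons false v)) (φ (Fin.cons true v))
          linarith [hφ (Fin.cons false v), hφ (Fin.cons true v)]
        by_cases hB0 : B (Fin.cons false v) 0
        · by_cases hB1 : B (Fin.cons true v) 0
          · rw [if_pos hB0, if_pos hB1]
            linarith
          · have := h _ _ hB1
            rw [Fin.cons_zero, Fin.update_cons_zero, Bool.not_true, abs_sub_comm] at this
            rw [if_pos hB0, if_neg hB1]
            linarith
        · have := h _ _ hB0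
          rw [Fin.cons_zero, Fin.update_cons_zero, Bool.not_false] at this
          rw [if_neg hB0]
          split_ifs
          · linarith
          · linarith
      have h2 : |D| ≤ L + M * b0 / 2 ^ n := by
        have h3 : D = (∑ v : Fin n → Bool, (φ (Fin.cons false v) - φ (Fin.cons true v))) / 2 ^ n := by
          rw [hD, Finset.sum_sub_distrib, sub_div]
          rfl
        have h4 : |∑ v : Fin n → Bool, (φ (Fin.cons false v) - φ (Fin.cons true v))| ≤
            2 ^ n * L + M * b0 := by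
          refine (Finset.abs_sum_le_sum_abs _ _).trans ((Finset.sum_le_sum fun v _ => h1 v).trans ?_)
          rw [Finset.sum_add_distrib, ← Finset.mul_sum, Finset.sum_add_distrib, hb0, T6_sum]
          simp [Finset.card_univ]
        rw [h3, abs_div, abs_of_pos (by positivity : (0 : ℝ) < 2 ^ n)]
        have h5 : (0 : ℝ) < 2 ^ n := by positivity
        rw [div_le_iff₀ h5]
        have h6 : (L + M * b0 / 2 ^ n) * 2 ^ n = 2 ^ n * L + M * b0 := by
          field_simp
        rw [h6]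
        exact h4
      have h3 : L < M * b0 / 2 ^ n := by linarith
      have h5 : (0 : ℝ) < 2 ^ n := by positivity
      rw [lt_div_iff₀ h5] at h3
      have h4 : ∑ w, (if T6_G L (n + 1) φ w then (0 : ℝ) else 1) ≤ 2 ^ (n + 1) := by
        have h6 : ∀ w ∈ (univ : Finset (Fin (n + 1) → Bool)),
            (if T6_G L (n + 1) φ w then (0 : ℝ) else 1) ≤ 1 := by
          intro w _
          split_ifs <;> norm_num
        refine (Finset.sum_le_sum h6).trans ?_
        simp [Finset.card_univ]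
      refine h4.trans ?_
      rw [mul_add]
      have h7 : 2 ^ (n + 1) ≤ 2 * M / L * b0 := by
        rw [div_mul_eq_mul_div, le_div_iff₀ hL, pow_succ]
        linarith
      have h8 : 0 ≤ 2 * M / L * ∑ i : Fin n, ∑ w, (if B w i.succ then (1 : ℝ) else 0) := by
        positivity
      linarith

theorem az_stop (n : ℕ) (hn : 1 ≤ n) (φ : (Fin n → Bool) → ℝ) (M L θ : ℝ) (hM : 0 < M) (hφ : ∀ w, |φ w| ≤ M) (hL : 0 < L) (hθ : 0 ≤ θ)
    (B : (Fin n → Bool) → Fin n → Prop)
    (h : ∀ w i, ¬ B w i → |φ w - φ (Function.update w i (!w i))| ≤ L) :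
    cn (fun w : Fin n → Bool => θ ≤ |φ w - (∑ w', φ w') / 2 ^ n|) / 2 ^ n ≤
      2 * Real.exp (-(θ ^ 2 / (2 * n * L ^ 2))) + 2 * M / L * ∑ i, cn (fun w : Fin n → Bool => B w i) / 2 ^ n := by
  classical
  have hn' : (0 : ℝ) < n := by exact_mod_cast hn
  set m : ℝ := (∑ w', φ w') / 2 ^ n with hm
  have hmE : T6_E φ = m := rfl
  set lam : ℝ := θ / (n * L ^ 2) with hlam
  have hlam0 : 0 ≤ lam := by positivity
  have h1 := T6_exp L lam n φ
  have h2 := T6_exp L (-lam) n φ
  have h3 := T6_bad M L hM hL n φ hφ B h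
  rw [hmE] at h1 h2
  have hpt : ∀ w : Fin n → Bool, (if θ ≤ |φ w - m| then (1 : ℝ) else 0) ≤
      (if T6_G L n φ w then (0 : ℝ) else 1) +
      Real.exp (-(lam * θ)) * ((if T6_G L n φ w then Real.exp (lam * (φ w - m)) else 0) +
        (if T6_G L n φ w then Real.exp (-lam * (φ w - m)) else 0)) := by
    intro w
    by_cases hG : T6_G L n φ w
    · rw [if_pos hG, if_pos hG, if_pos hG, mul_add, ← Real.exp_add, ← Real.exp_add]
      split_ifs with hθ'
      · rcases le_abs.mp hθ' with h' | h'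
        · have h4 : (1 : ℝ) ≤ Real.exp (-(lam * θ) + lam * (φ w - m)) := by
            apply Real.one_le_exp
            nlinarith
          have h5 := Real.exp_pos (-(lam * θ) + -lam * (φ w - m))
          linarith
        · have h4 : (1 : ℝ) ≤ Real.exp (-(lam * θ) + -lam * (φ w - m)) := by
            apply Real.one_le_exp
            nlinarith
          have h5 := Real.exp_pos (-(lam * θ) + lam * (φ w - m))
          linarith
      · have h4 := Real.exp_pos (-(lam * θ) + lam * (φ w - m))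
        have h5 := Real.exp_pos (-(lam * θ) + -lam * (φ w - m))
        linarith
    · rw [if_neg hG, if_neg hG, if_neg hG]
      split_ifs <;> norm_num
  have hsum : cn (fun w : Fin n → Bool => θ ≤ |φ w - m|) ≤
      2 * M / L * ∑ i, ∑ w, (if B w i then (1 : ℝ) else 0) +
      Real.exp (-(lam * θ)) * (2 * (2 ^ n * Real.exp (n * (lam ^ 2 * L ^ 2 / 2)))) := by
    rw [T6_cn]
    refine (Finset.sum_le_sum fun w _ => hpt w).trans ?_
    rw [Finset.sum_add_distrib, ← Finset.mul_sum, Finset.sum_add_distrib]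
    rw [neg_sq] at h2
    have h4 : 0 ≤ Real.exp (-(lam * θ)) := (Real.exp_pos _).le
    have h5 := mul_le_mul_of_nonneg_left (add_le_add h1 h2) h4
    refine (add_le_add h3 h5).trans (le_of_eq ?_)
    ring
  have hexp : Real.exp (-(lam * θ)) * Real.exp (n * (lam ^ 2 * L ^ 2 / 2)) =
      Real.exp (-(θ ^ 2 / (2 * n * L ^ 2))) := by
    rw [← Real.exp_add]
    congr 1
    rw [hlam]
    field_simp
    ring
  have h2n : (0 : ℝ) < 2 ^ n := by positivity
  rw [div_le_iff₀ h2n]
  refine hsum.trans (le_of_eq ?_)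
  have h6 : Real.exp (-(lam * θ)) * (2 * (2 ^ n * Real.exp (n * (lam ^ 2 * L ^ 2 / 2)))) =
      2 ^ n * 2 * (Real.exp (-(lam * θ)) * Real.exp (n * (lam ^ 2 * L ^ 2 / 2))) := by ring
  rw [h6, hexp]
  have h7 : ∑ i, cn (fun w : Fin n → Bool => B w i) / 2 ^ n =
      (∑ i, ∑ w, (if B w i then (1 : ℝ) else 0)) / 2 ^ n := by
    rw [Finset.sum_div]
    apply Finset.sum_congr rfl
    intro i _
    rw [T6_cn]
  rw [h7]
  field_simp
  ring

/-- flip the bit `i` of `a` (`s = false`) or `b` (`s = true`) -/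
def flp {d : ℕ} (i : Fin d × Bool) (p : Bt d × Bt d) : Bt d × Bt d :=
  if i.2 then (p.1, Function.update p.2 i.1 (!p.2 i.1)) else (Function.update p.1 i.1 (!p.1 i.1), p.2)

private theorem T6_od_flp {d : ℕ} (a b : Bt d) (i : Fin d) :
    od (Function.update a i (!a i)) b ↔ ¬ od a b := by
  unfold od
  by_cases h : a i = b i
  · have h1 : (univ.filter fun r => Function.update a i (!a i) r ≠ b r) =
        insert i (univ.filter fun r => a r ≠ b r) := by
      ext r
      simp only [Finset.mem_filter, Finset.mem_univ, true_and, Finset.mem_insert]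
      by_cases hr : r = i
      · subst hr
        simp [h]
      · simp [hr]
    rw [h1, Finset.card_insert_of_notMem (by simp [h]), Nat.odd_add_one]
  · have h1 : (univ.filter fun r => a r ≠ b r) =
        insert i (univ.filter fun r => Function.update a i (!a i) r ≠ b r) := by
      ext r
      simp only [Finset.mem_filter, Finset.mem_univ, true_and, Finset.mem_insert]
      by_cases hr : r = i
      · subst hr
        simp [h]
      · simp [hr]
    have h2 : Function.update a i (!a i) i = b i := by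
      simp only [Function.update_self]
      cases ha : a i <;> cases hb : b i <;> simp_all
    rw [h1, Finset.card_insert_of_notMem (by rw [Finset.mem_filter, h2]; simp), Nat.odd_add_one,
      not_not]

private theorem T6_od_comm {d : ℕ} (a b : Bt d) : od a b ↔ od b a := by
  unfold od
  have : (univ.filter fun r => a r ≠ b r) = univ.filter fun r => b r ≠ a r := by
    ext r
    simp [ne_comm]
  rw [this]

private theorem T6_mem {d : ℕ} (e : Bool) (p : Bt d × Bt d) :
    p ∈ (pS e none : Finset (Bt d × Bt d)) ↔ (od p.1 p.2 ↔ e = false) := by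
  unfold pS
  cases e
  · simp [oS, inS]
  · simp [eS, inS]

private theorem T6_mem_flp {d : ℕ} (e : Bool) (i : Fin d × Bool) (p : Bt d × Bt d) :
    flp i p ∈ (pS e none : Finset (Bt d × Bt d)) ↔ p ∉ (pS e none : Finset (Bt d × Bt d)) := by
  rw [T6_mem, T6_mem]
  have h1 : od (flp i p).1 (flp i p).2 ↔ ¬ od p.1 p.2 := by
    unfold flp
    split_ifs
    · simp only
      rw [T6_od_comm, T6_od_flp, T6_od_comm]
    · simp only
      rw [T6_od_flp]
  rw [h1]
  tauto

private theorem T6_flp_flp {d : ℕ} (i : Fin d × Bool) (p : Bt d × Bt d) : flp i (flp i p) = p := by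
  unfold flp
  split_ifs
  · simp
  · simp

private theorem T6_flp_comm {d : ℕ} (i l : Fin d × Bool) (p : Bt d × Bt d) :
    flp i (flp l p) = flp l (flp i p) := by
  obtain ⟨i, s⟩ := i
  obtain ⟨l, t⟩ := l
  unfold flp
  by_cases hil : i = l
  · subst hil
    cases s <;> cases t <;> simp
  · have hli : l ≠ i := fun h => hil h.symm
    cases s <;> cases t <;> simp [hil, hli, Function.update_of_ne, Function.update_comm hli]

theorem az_odd {d : ℕ} (hd : 2 ≤ d) (e : Bool) (l : Fin d × Bool) (φ : Bt d × Bt d → ℝ) (M L θ : ℝ) (hM : 0 < M)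
    (hφ : ∀ p, |φ p| ≤ M) (hL : 0 < L) (hθ : 0 ≤ θ) (B : Bt d × Bt d → Fin d × Bool → Prop)
    (h : ∀ p ∈ pS e none, ∀ i, ¬ B p i → |φ p - φ (flp l (flp i p))| ≤ L) :
    cn (fun p : Bt d × Bt d => p ∈ pS e none ∧ θ ≤ |φ p - (∑ p' ∈ pS e none, φ p') / ((pS e none : Finset (Bt d × Bt d)).card : ℝ)|) /
        (4 ^ d / 2) ≤
      2 * Real.exp (-(θ ^ 2 / (4 * d * L ^ 2))) +
        2 * M / L * ∑ i, cn (fun p : Bt d × Bt d => p ∈ pS e none ∧ B p i) / (4 ^ d / 2) := by
  classical
  set P : Finset (Bt d × Bt d) := pS e none with hP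
  set ψ : Bt d × Bt d → ℝ := fun p => if p ∈ P then φ p else φ (flp l p) with hψ
  set B' : Bt d × Bt d → Fin d × Bool → Prop := fun p i => if p ∈ P then B p i else B (flp l p) i with hB'
  have hmemf : ∀ (i : Fin d × Bool) (p : Bt d × Bt d), flp i p ∈ P ↔ p ∉ P := fun i p => T6_mem_flp e i p
  have hψl : ∀ p, ψ (flp l p) = ψ p := by
    intro p
    simp only [hψ]
    by_cases hp : p ∈ P
    · rw [if_neg (by rw [hmemf]; simpa using hp), if_pos hp, T6_flp_flp]
    · rw [if_pos (by rw [hmemf]; exact hp), if_neg hp]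
  -- sums over all pairs are twice the sums over the class
  set F : Bt d × Bt d ≃ Bt d × Bt d := ⟨flp l, flp l, T6_flp_flp l, T6_flp_flp l⟩ with hF
  have hdouble : ∀ g : Bt d × Bt d → ℝ, (∀ p, g (flp l p) = g p) → ∑ p, g p = 2 * ∑ p ∈ P, g p := by
    intro g hg
    rw [← Finset.sum_filter_add_sum_filter_not univ (fun p => p ∈ P)]
    have e1 : univ.filter (fun p => p ∈ P) = P := by
      ext p
      simp
    have e2 : ∑ p ∈ univ.filter (fun p => ¬ p ∈ P), g p = ∑ p ∈ P, g p := by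
      apply Finset.sum_equiv F
      · intro p
        simp only [Finset.mem_filter, Finset.mem_univ, true_and]
        exact (hmemf l p).symm
      · intro p _
        exact (hg p).symm
    rw [e1, e2]
    ring
  have hcard : ((P.card : ℕ) : ℝ) = 4 ^ d / 2 := by
    have h1 := hdouble (fun _ => 1) (fun _ => rfl)
    rw [Finset.sum_const, Finset.sum_const, Finset.card_univ, Fintype.card_prod, Fintype.card_fun,
      Fintype.card_bool, Fintype.card_fin] at h1
    simp only [nsmul_eq_mul, mul_one] at h1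
    push_cast at h1
    have h2 : (2 : ℝ) ^ d * 2 ^ d = 4 ^ d := by
      rw [← mul_pow]
      norm_num
    rw [h2] at h1
    linarith
  -- the cube
  have hcd : Fintype.card (Fin d × Bool) = 2 * d := by
    rw [Fintype.card_prod, Fintype.card_fin, Fintype.card_bool, mul_comm]
  set e0 : Fin d × Bool ≃ Fin (2 * d) := Fintype.equivFinOfCardEq hcd with he0
  set T : (Fin (2 * d) → Bool) ≃ Bt d × Bt d :=
    { toFun := fun w => (fun i => w (e0 (i, false)), fun i => w (e0 (i, true)))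
      invFun := fun p j => if (e0.symm j).2 then p.2 (e0.symm j).1 else p.1 (e0.symm j).1
      left_inv := by
        intro w
        funext j
        obtain ⟨⟨i, s⟩, rfl⟩ := e0.surjective j
        cases s <;> simp
      right_inv := by
        rintro ⟨a, b⟩
        simp } with hT
  have hTflp : ∀ w j, T (Function.update w j (!w j)) = flp (e0.symm j) (T w) := by
    intro w j
    obtain ⟨⟨i, s⟩, rfl⟩ := e0.surjective j
    have hupd : ∀ (w : Fin (2 * d) → Bool) (i i' : Fin d) (s s' : Bool) (x : Bool),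
        Function.update w (e0 (i, s)) x (e0 (i', s')) =
          if i' = i ∧ s' = s then x else w (e0 (i', s')) := by
      intro w i i' s s' x
      by_cases hh : i' = i ∧ s' = s
      · rw [if_pos hh, hh.1, hh.2, Function.update_self]
      · rw [if_neg hh, Function.update_of_ne]
        intro h'
        apply hh
        have := e0.injective h'
        simpa using this
    rw [Equiv.symm_apply_apply]
    unfold flp
    cases s
    · simp only [hT, Equiv.coe_fn_mk, Bool.false_eq_true, if_false]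
      refine Prod.ext ?_ ?_
      · funext i'
        simp only
        rw [hupd, Function.update_apply]
        simp
      · funext i'
        simp only
        rw [hupd]
        simp
    · simp only [hT, Equiv.coe_fn_mk, if_true]
      refine Prod.ext ?_ ?_
      · funext i'
        simp only
        rw [hupd]
        simp
      · funext i'
        simp only
        rw [hupd, Function.update_apply]
        simp
  have hψM : ∀ w, |ψ (T w)| ≤ M := by
    intro w
    simp only [hψ]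
    split_ifs
    · exact hφ _
    · exact hφ _
  have hψL : ∀ w j, ¬ B' (T w) (e0.symm j) → |ψ (T w) - ψ (T (Function.update w j (!w j)))| ≤ L := by
    intro w j hB
    rw [hTflp]
    generalize T w = p at hB ⊢
    generalize e0.symm j = i at hB ⊢
    simp only [hB', hψ] at hB ⊢
    by_cases hp : p ∈ P
    · rw [if_pos hp] at hB
      rw [if_pos hp, if_neg (by rw [hmemf]; simpa using hp)]
      exact h p hp i hB
    · rw [if_neg hp] at hB
      rw [if_neg hp, if_pos (by rw [hmemf]; exact hp)]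
      have hp' : flp l p ∈ P := by
        rw [hmemf]
        exact hp
      have h1 := h (flp l p) hp' i hB
      rw [T6_flp_comm i l p, T6_flp_flp] at h1
      exact h1
  have hmain := az_stop (2 * d) (by omega) (fun w => ψ (T w)) M L θ hM hψM hL hθ
    (fun w j => B' (T w) (e0.symm j)) hψL
  -- translation
  have hmean : (∑ w', ψ (T w')) / 2 ^ (2 * d) = (∑ p' ∈ P, φ p') / ((P.card : ℕ) : ℝ) := by
    rw [Equiv.sum_comp T ψ, hdouble ψ hψl, hcard, pow_mul]
    have h1 : ∑ p ∈ P, ψ p = ∑ p ∈ P, φ p := by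
      apply Finset.sum_congr rfl
      intro p hp
      simp only [hψ]
      rw [if_pos hp]
    rw [h1]
    norm_num
    field_simp
  have hcnT : ∀ Q : Bt d × Bt d → Prop, (∀ p, Q (flp l p) ↔ Q p) →
      cn (fun w => Q (T w)) / 2 ^ (2 * d) = cn (fun p => p ∈ P ∧ Q p) / (4 ^ d / 2) := by
    intro Q hQ
    rw [T6_cn, Equiv.sum_comp T (fun p => if Q p then (1 : ℝ) else 0),
      hdouble _ (fun p => by simp only [hQ p]), pow_mul]
    have h1 : ∑ p ∈ P, (if Q p then (1 : ℝ) else 0) = cn (fun p => p ∈ P ∧ Q p) := by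
      unfold cn
      rw [← Finset.sum_filter, Finset.sum_const, nsmul_eq_mul, mul_one]
      congr 2
      ext p
      simp
    rw [h1]
    generalize cn (fun p => p ∈ P ∧ Q p) = Z
    rw [show (2 : ℝ) ^ 2 = 4 by norm_num]
    field_simp
  rw [hmean] at hmain
  set m : ℝ := (∑ p' ∈ P, φ p') / ((P.card : ℕ) : ℝ) with hm
  have h1 := hcnT (fun p => θ ≤ |ψ p - m|) (fun p => by rw [hψl])
  have h2 : cn (fun p => p ∈ P ∧ θ ≤ |ψ p - m|) = cn (fun p => p ∈ P ∧ θ ≤ |φ p - m|) := by
    congr 1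
    funext p
    apply propext
    apply and_congr_right
    intro hp
    simp only [hψ]
    rw [if_pos hp]
  have h3 : ∑ j, cn (fun w => B' (T w) (e0.symm j)) / 2 ^ (2 * d) =
      ∑ i, cn (fun p => p ∈ P ∧ B p i) / (4 ^ d / 2) := by
    rw [← Equiv.sum_comp e0]
    apply Finset.sum_congr rfl
    intro i _
    rw [Equiv.symm_apply_apply, hcnT (fun p => B' p i)]
    · congr 2
      funext p
      apply propext
      apply and_congr_right
      intro hp
      simp only [hB']
      rw [if_pos hp]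
    · intro p
      simp only [hB']
      by_cases hp : p ∈ P
      · rw [if_neg (by rw [hmemf]; simpa using hp), if_pos hp, T6_flp_flp]
      · rw [if_pos (by rw [hmemf]; exact hp), if_neg hp]
  rw [h1, h2, h3] at hmain
  have h4 : 2 * (((2 * d : ℕ)) : ℝ) * L ^ 2 = 4 * d * L ^ 2 := by
    push_cast
    ring
  rw [h4] at hmain
  exact hmain

end Pool.Agent.LC

end

/-! ### from `Lib_MP_2c424f_lc1.B4` -/

section

/-!
# LC1 B4: the `t`-step averages are nearly constant in the blocks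

Deterministic.  `G c := PP^[t] (bq c f)`, `0 ≤ G c ≤ q`.  In a block `u`, `φ p := G c (pt u p.1 p.2)`.  For `p ∈ pS e none` and a bit `i`: `x := pt u (flp i p)` is a neighbour of `pt u p` and of
`pt u (flp l (flp i p))` (flipping a bit moves the point by one step; fixed `l`, e.g. the first bit, if `i = l` the two points are equal).  So if `¬ Gb C₄ t f x` then `|φ p - φ (flp l (flp i p))| ≤ C₄/q`.
`az_odd` with `L = C₄/q`, `M = q`, `B p i := Gb C₄ t f (pt u (flp i p))`, for each `c` and `e`: the number of bad `p` is at most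
`(4^d/2) (2 exp (-δ² q²/(4 d C₄²))) + (2q²/C₄) ∑_i #{p : Gb (pt u (flp i p))}`.  Sum over `u`, `e`, `c`: `∑_u ∑_p 1[Gb (pt u (flp i p))] = 2^d #{x : Gb x} ≤ 2^d N'/d^(K+6)`, `N' = 2^d NN d k`,
so the total is at most `4^d NN d k (2 q exp (-c d) + q (2q²/C₄) (2d) / d^(K+6)) ≤ 4^d NN d k/d^K`  (`q ≤ d/500`).
-/

set_option autoImplicit false

open Finset Filter

namespace Pool.Agent.LC

open Pool.Agent.LO Pool.Agent.LIN Pool.Agent.THR Pool.Agent.COR

private theorem B4_cn {α : Type} [Fintype α] (P : α → Prop) : cn P = ∑ x, ind (P x) := by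
  unfold cn ind
  rw [Finset.natCast_card_filter]

private theorem B4_ind_nonneg (P : Prop) : 0 ≤ ind P := by
  unfold ind
  split_ifs <;> norm_num

private theorem B4_ind_mono {P Q : Prop} (h : P → Q) : ind P ≤ ind Q := by
  unfold ind
  by_cases hp : P
  · rw [if_pos hp, if_pos (h hp)]
  · rw [if_neg hp]
    split_ifs <;> norm_num

private theorem B4_ind_ex {ι : Type} [Fintype ι] {P : Prop} {Q : ι → Prop} (h : P → ∃ i, Q i) :
    ind P ≤ ∑ i, ind (Q i) := by
  by_cases hp : P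
  · obtain ⟨i, hi⟩ := h hp
    have h1 : ind (Q i) ≤ ∑ i, ind (Q i) :=
      Finset.single_le_sum (f := fun i => ind (Q i)) (fun i _ => B4_ind_nonneg _) (Finset.mem_univ i)
    refine le_trans ?_ h1
    unfold ind
    rw [if_pos hp, if_pos hi]
  · have h0 : ind P = 0 := by
      unfold ind
      rw [if_neg hp]
    rw [h0]
    exact Finset.sum_nonneg fun i _ => B4_ind_nonneg _

private theorem B4_cn_nonneg {α : Type} [Fintype α] (P : α → Prop) : 0 ≤ cn P := by
  unfold cn
  exact Nat.cast_nonneg _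

private theorem B4_cn_mono {α : Type} [Fintype α] {P Q : α → Prop} (h : ∀ x, P x → Q x) : cn P ≤ cn Q := by
  rw [B4_cn, B4_cn]
  exact Finset.sum_le_sum fun x _ => B4_ind_mono (h x)

private theorem B4_flp_flp {d : ℕ} (i : Fin d × Bool) (p : Bt d × Bt d) : flp i (flp i p) = p := by
  obtain ⟨j, s⟩ := i
  obtain ⟨a, b⟩ := p
  unfold flp
  cases s
  · simp
  · simp

private theorem B4_step_B4 {d k : ℕ} (u : Blk d k) (i : Fin d × Bool) (p : Bt d × Bt d) :
    ∃ σ : Stp d, pt u (flp i p).1 (flp i p).2 = pt u p.1 p.2 + sv σ := by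
  obtain ⟨j, s⟩ := i
  obtain ⟨a, b⟩ := p
  cases s
  · exact ⟨(j, !a j), (pt_flp u a b j).1⟩
  · exact ⟨(j, !b j), (pt_flp u a b j).2⟩

private theorem B4_step' {d k : ℕ} (u : Blk d k) (i : Fin d × Bool) (p : Bt d × Bt d) :
    ∃ σ : Stp d, pt u p.1 p.2 = pt u (flp i p).1 (flp i p).2 + sv σ := by
  obtain ⟨σ, hσ⟩ := B4_step_B4 u i (flp i p)
  rw [B4_flp_flp] at hσ
  exact ⟨σ, hσ⟩

private theorem B4_sumG {d k : ℕ} (G : Site d (k + 1) → Prop) (i : Fin d × Bool) :
    ∑ u : Blk d k, cn (fun p : Bt d × Bt d => G (pt u (flp i p).1 (flp i p).2)) = 2 ^ d * cn G := by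
  have h1 : ∀ u : Blk d k, cn (fun p : Bt d × Bt d => G (pt u (flp i p).1 (flp i p).2)) =
      ∑ a : Bt d, ∑ b : Bt d, ind (G (pt u a b)) := by
    intro u
    rw [B4_cn]
    have hinv : Function.Involutive (fun p : Bt d × Bt d => flp i p) := fun p => B4_flp_flp i p
    rw [Fintype.sum_equiv hinv.toPerm (fun p : Bt d × Bt d => ind (G (pt u (flp i p).1 (flp i p).2)))
      (fun p : Bt d × Bt d => ind (G (pt u p.1 p.2))) (fun _ => rfl)]
    rw [Fintype.sum_prod_type]
  rw [Finset.sum_congr rfl fun u _ => h1 u, sum_pt (fun x _ => ind (G x)), B4_cn, Finset.mul_sum]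
  refine Finset.sum_congr rfl fun x _ => ?_
  rw [Finset.sum_const, nsmul_eq_mul, Finset.card_univ, Fintype.card_fun, Fintype.card_bool, Fintype.card_fin]
  push_cast
  rfl

open scoped Classical in
private theorem B4_mem_pS {d : ℕ} (p : Bt d × Bt d) : p ∈ (pS (decide (¬ od p.1 p.2)) none : Finset (Bt d × Bt d)) := by
  unfold pS
  by_cases h : od p.1 p.2
  · have : decide (¬ od p.1 p.2) = false := by simpa using h
    rw [this]
    simp only [Bool.false_eq_true, if_false]
    unfold oS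
    rw [Finset.mem_filter]
    exact ⟨Finset.mem_univ _, h, trivial⟩
  · have : decide (¬ od p.1 p.2) = true := by simpa using h
    rw [this, if_pos rfl]
    unfold eS
    rw [Finset.mem_filter]
    exact ⟨Finset.mem_univ _, h, trivial⟩

private theorem B4_iter_range {d k : ℕ} (hd : 1 ≤ d) (t : ℕ) (g : Site d k → ℝ) (M : ℝ) (h0 : ∀ x, 0 ≤ g x) (hM : ∀ x, g x ≤ M)
    (x : Site d k) : |PP^[t] g x| ≤ M := by
  have h1 : 0 ≤ PP^[t] g x := by
    have := PPt_mono t (g := fun _ => (0 : ℝ)) (h := g) h0 x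
    rwa [PPt_const hd] at this
  have h2 : PP^[t] g x ≤ M := by
    have := PPt_mono t (g := g) (h := fun _ => M) hM x
    rwa [PPt_const hd] at this
  rw [abs_of_nonneg h1]
  exact h2

private theorem B4_tot {ι : Type} [Fintype ι] (n q A c : ℝ) (hn : (Fintype.card ι : ℝ) = n) (S : ι → ℝ) :
    ∑ u, q * (2 * (A + c * S u)) = 2 * q * (n * A + c * ∑ u, S u) := by
  have h : ∀ u ∈ (Finset.univ : Finset ι), q * (2 * (A + c * S u)) = 2 * q * A + (2 * q * c) * S u := fun u _ => by ring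
  rw [Finset.sum_congr rfl h, Finset.sum_add_distrib, Finset.sum_const, nsmul_eq_mul, Finset.card_univ, hn, ← Finset.mul_sum]
  ring

/-- one block, one colour, one parity -/
private theorem B4_one {d k q : ℕ} (hd : 2 ≤ d) (hq : 0 < q) (C₄ δ : ℝ) (hC : 0 < C₄) (hδ : 0 < δ) (t : ℕ)
    (f : Site d (k + 1) → Fin q) (u : Blk d k) (c : Fin q) (e : Bool) :
    cn (fun p : Bt d × Bt d => p ∈ (pS e none : Finset (Bt d × Bt d)) ∧
      δ ≤ |PP^[t] (bq c f) (pt u p.1 p.2) - Mp e none u (PP^[t] (bq c f))|) ≤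
    4 ^ d * Real.exp (-(δ ^ 2 / (4 * d * (C₄ / q) ^ 2))) +
      2 * q ^ 2 / C₄ * ∑ i : Fin d × Bool,
        cn (fun p : Bt d × Bt d => Gb C₄ t f (pt u (flp i p).1 (flp i p).2)) := by
  have hqR : (0 : ℝ) < q := by exact_mod_cast hq
  have hL : 0 < C₄ / (q : ℝ) := div_pos hC hqR
  have h4 : (0 : ℝ) < 4 ^ d / 2 := by positivity
  have haz := az_odd hd e ((⟨0, by omega⟩ : Fin d), false)
    (fun p : Bt d × Bt d => PP^[t] (bq c f) (pt u p.1 p.2)) q (C₄ / q) δ hqR
    (fun p => B4_iter_range (by omega) t (bq c f) q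
      (fun x => by unfold bq; split_ifs <;> positivity)
      (fun x => by unfold bq; split_ifs; exacts [le_refl _, hqR.le]) _)
    hL hδ.le (fun p i => Gb C₄ t f (pt u (flp i p).1 (flp i p).2))
    (fun p _ i hB => by
      obtain ⟨σ, hσ⟩ := B4_step' u i p
      obtain ⟨τ, hτ⟩ := B4_step_B4 u ((⟨0, by omega⟩ : Fin d), false) (flp i p)
      show |PP^[t] (bq c f) (pt u p.1 p.2) - PP^[t] (bq c f) (pt u _ _)| ≤ _
      rw [hσ, hτ]
      by_contra hlt
      exact hB ⟨c, σ, τ, not_le.1 hlt⟩)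
  rw [← Finset.sum_div] at haz
  have hsum : ∑ i : Fin d × Bool, cn (fun p : Bt d × Bt d => p ∈ (pS e none : Finset (Bt d × Bt d)) ∧
      Gb C₄ t f (pt u (flp i p).1 (flp i p).2)) ≤
      ∑ i : Fin d × Bool, cn (fun p : Bt d × Bt d => Gb C₄ t f (pt u (flp i p).1 (flp i p).2)) :=
    Finset.sum_le_sum fun i _ => B4_cn_mono fun x h => h.2
  rw [div_le_iff₀ h4] at haz
  have hMp : Mp e none u (PP^[t] (bq c f)) =
      (∑ p' ∈ (pS e none : Finset (Bt d × Bt d)), PP^[t] (bq c f) (pt u p'.1 p'.2)) /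
        ((pS e none : Finset (Bt d × Bt d)).card : ℝ) := rfl
  rw [hMp]
  refine haz.trans ?_
  have hk2 : (0 : ℝ) ≤ 2 * q / (C₄ / q) := by positivity
  calc (2 * Real.exp (-(δ ^ 2 / (4 * d * (C₄ / q) ^ 2))) + 2 * q / (C₄ / q) *
        ((∑ i : Fin d × Bool, cn (fun p : Bt d × Bt d => p ∈ (pS e none : Finset (Bt d × Bt d)) ∧
          Gb C₄ t f (pt u (flp i p).1 (flp i p).2))) / (4 ^ d / 2))) * (4 ^ d / 2)
      = 4 ^ d * Real.exp (-(δ ^ 2 / (4 * d * (C₄ / q) ^ 2))) + 2 * q / (C₄ / q) *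
        (∑ i : Fin d × Bool, cn (fun p : Bt d × Bt d => p ∈ (pS e none : Finset (Bt d × Bt d)) ∧
          Gb C₄ t f (pt u (flp i p).1 (flp i p).2))) := by
        field_simp
    _ ≤ 4 ^ d * Real.exp (-(δ ^ 2 / (4 * d * (C₄ / q) ^ 2))) + 2 * q / (C₄ / q) *
        (∑ i : Fin d × Bool, cn (fun p : Bt d × Bt d => Gb C₄ t f (pt u (flp i p).1 (flp i p).2))) := by
        have := mul_le_mul_of_nonneg_left hsum hk2
        linarith
    _ = _ := by
        congr 2
        field_simp

private theorem B4_evd (K : ℕ) (C₄ δ : ℝ) (hC : 0 < C₄) (hδ : 0 < δ) : ∀ᶠ d : ℕ in atTop,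
    4 * (d : ℝ) * Real.exp (-(δ ^ 2 / (4000000 * C₄ ^ 2) * d)) ≤ 1 / 2 / (d : ℝ) ^ K ∧
      64 / (C₄ * (d : ℝ) ^ 2) ≤ 1 / 2 := by
  have hκ : 0 < δ ^ 2 / (4000000 * C₄ ^ 2) := by positivity
  have h1 : Tendsto (fun d : ℕ => (d : ℝ) ^ (K + 1) * Real.exp (-(δ ^ 2 / (4000000 * C₄ ^ 2)) * d)) atTop (nhds 0) := by
    have h := (isLittleO_pow_exp_pos_mul_atTop (k := K + 1) hκ).tendsto_div_nhds_zero
    have h' := h.comp tendsto_natCast_atTop_atTop
    refine h'.congr fun d => ?_
    show (d : ℝ) ^ (K + 1) / Real.exp (δ ^ 2 / (4000000 * C₄ ^ 2) * d) = _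
    rw [neg_mul, Real.exp_neg, div_eq_mul_inv]
  have h2 : ∀ᶠ d : ℕ in atTop, (d : ℝ) ^ (K + 1) * Real.exp (-(δ ^ 2 / (4000000 * C₄ ^ 2)) * d) < 1 / 8 :=
    h1.eventually (gt_mem_nhds (by norm_num))
  obtain ⟨m, hm⟩ := exists_nat_ge (128 / C₄)
  filter_upwards [h2, eventually_ge_atTop (max m 1)] with d hd hdm
  have hd1 : 1 ≤ d := le_trans (le_max_right _ _) hdm
  have hd1R : (1 : ℝ) ≤ d := by exact_mod_cast hd1
  have hd0 : (0 : ℝ) < d := by linarith
  have hdm' : (m : ℝ) ≤ d := by exact_mod_cast le_trans (le_max_left _ _) hdm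
  refine ⟨?_, ?_⟩
  · rw [le_div_iff₀ (by positivity)]
    have e : -(δ ^ 2 / (4000000 * C₄ ^ 2)) * (d : ℝ) = -(δ ^ 2 / (4000000 * C₄ ^ 2) * d) := by ring
    rw [e] at hd
    have : 4 * (d : ℝ) * Real.exp (-(δ ^ 2 / (4000000 * C₄ ^ 2) * d)) * (d : ℝ) ^ K =
        4 * ((d : ℝ) ^ (K + 1) * Real.exp (-(δ ^ 2 / (4000000 * C₄ ^ 2) * d))) := by ring
    rw [this]
    linarith
  · rw [div_le_iff₀ (by positivity)]
    have h3 : 128 ≤ C₄ * (d : ℝ) := by
      have := hm.trans hdm'
      rw [div_le_iff₀ hC] at this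
      linarith
    have h4 : C₄ * (d : ℝ) ≤ C₄ * (d : ℝ) ^ 2 := by
      refine mul_le_mul_of_nonneg_left ?_ hC.le
      nlinarith
    linarith

open scoped Classical in
theorem blk_conc (C₄ : ℝ) (hC : 0 < C₄) (t : ℕ) (K : ℕ) (h : SRK (K + 6) fun _ _ _ f v => Gb C₄ t f v)
    (δ : ℝ) (hδ : 0 < δ) : TRK K fun _ _ q f p => ∃ c : Fin q,
      δ < |PP^[t] (bq c f) (tp p) - Mp (decide (¬ od p.2.1 p.2.2)) none p.1 (PP^[t] (bq c f))| := by
  have hb := WOP.blk h
  refine WOPb.mono hb ?_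
  refine ((EvT_d (ε := e3) (B4_evd K C₄ δ hC hδ)).and (EvT_d (eventually_ge_atTop 2))).mono ?_
  rintro d k q ⟨⟨hE1, hE2⟩, hd⟩ f _ hG hRg
  obtain ⟨hq, _, _, _, hqd, hqd', _, _, _⟩ := rg_pos (by omega) hRg
  have hG' := hG hRg
  have hqR : (0 : ℝ) < q := by exact_mod_cast hq
  have hd2 : (2 : ℝ) ≤ d := by exact_mod_cast hd
  have hd0 : (0 : ℝ) < d := by linarith
  have he3 : e3 = 1 / 1000 := rfl
  rw [he3] at hqd hqd'
  have hqd1 : (d : ℝ) ≤ 1000 * q := by linarith
  have hqd2 : (q : ℝ) ≤ 2 * d := by linarith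
  have hNN : 0 ≤ NN d k := by
    unfold NN
    positivity
  set E : ℝ := Real.exp (-(δ ^ 2 / (4 * d * (C₄ / q) ^ 2))) with hEdef
  have hE0 : 0 < E := Real.exp_pos _
  have hEle : E ≤ Real.exp (-(δ ^ 2 / (4000000 * C₄ ^ 2) * d)) := by
    rw [hEdef]
    refine Real.exp_le_exp.2 (neg_le_neg ?_)
    have e1 : δ ^ 2 / (4 * d * (C₄ / q) ^ 2) = δ ^ 2 * q ^ 2 / (4 * d * C₄ ^ 2) := by
      field_simp
    rw [e1, div_mul_eq_mul_div, div_le_div_iff₀ (by positivity) (by positivity)]
    have e2 : (d : ℝ) ^ 2 ≤ 1000000 * (q : ℝ) ^ 2 := by nlinarith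
    have e3' : (0 : ℝ) ≤ 4 * δ ^ 2 * C₄ ^ 2 := by positivity
    nlinarith [mul_le_mul_of_nonneg_left e2 e3']
  -- the sum
  set X : Blk d k → Fin d × Bool → ℝ := fun u i =>
    cn (fun p : Bt d × Bt d => Gb C₄ t f (pt u (flp i p).1 (flp i p).2)) with hX
  have hmain : cn (fun p : Tpl d k => ∃ c : Fin q,
      δ < |PP^[t] (bq c f) (tp p) - Mp (decide (¬ od p.2.1 p.2.2)) none p.1 (PP^[t] (bq c f))|) ≤
      ∑ u : Blk d k, ∑ _c : Fin q, ∑ _e : Bool, (4 ^ d * E + 2 * q ^ 2 / C₄ * ∑ i : Fin d × Bool, X u i) := by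
    rw [B4_cn, Fintype.sum_prod_type]
    refine Finset.sum_le_sum fun u _ => ?_
    have h1 : ∀ p : Bt d × Bt d, ind (∃ c : Fin q,
        δ < |PP^[t] (bq c f) (tp (u, p)) - Mp (decide (¬ od p.1 p.2)) none u (PP^[t] (bq c f))|) ≤
        ∑ c : Fin q, ∑ e : Bool, ind (p ∈ (pS e none : Finset (Bt d × Bt d)) ∧
          δ ≤ |PP^[t] (bq c f) (pt u p.1 p.2) - Mp e none u (PP^[t] (bq c f))|) := by
      intro p
      rw [← Fintype.sum_prod_type (f := fun ce : Fin q × Bool => ind (p ∈ (pS ce.2 none : Finset (Bt d × Bt d)) ∧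
          δ ≤ |PP^[t] (bq ce.1 f) (pt u p.1 p.2) - Mp ce.2 none u (PP^[t] (bq ce.1 f))|))]
      refine B4_ind_ex ?_
      rintro ⟨c, hc⟩
      exact ⟨(c, decide (¬ od p.1 p.2)), B4_mem_pS p, hc.le⟩
    refine (Finset.sum_le_sum fun p _ => h1 p).trans ?_
    rw [Finset.sum_comm]
    refine Finset.sum_le_sum fun c _ => ?_
    rw [Finset.sum_comm]
    refine Finset.sum_le_sum fun e _ => ?_
    rw [← B4_cn (fun p : Bt d × Bt d => p ∈ (pS e none : Finset (Bt d × Bt d)) ∧
          δ ≤ |PP^[t] (bq c f) (pt u p.1 p.2) - Mp e none u (PP^[t] (bq c f))|)]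
    exact B4_one hd hq C₄ δ hC hδ t f u c e
  refine hmain.trans ?_
  have hsumX : ∑ u : Blk d k, ∑ i : Fin d × Bool, X u i ≤ 2 * d * (4 ^ d * NN d k / (d : ℝ) ^ (K + 6)) := by
    rw [Finset.sum_comm]
    have h1 : ∀ i : Fin d × Bool, ∑ u : Blk d k, X u i ≤ 4 ^ d * NN d k / (d : ℝ) ^ (K + 6) := by
      intro i
      rw [hX]
      rw [B4_sumG (fun x => Gb C₄ t f x) i]
      have h2 : (2 : ℝ) ^ d * cn (fun x => Gb C₄ t f x) ≤ 2 ^ d * (NN d (k + 1) / (d : ℝ) ^ (K + 6)) :=
        mul_le_mul_of_nonneg_left hG' (by positivity)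
      refine h2.trans (le_of_eq ?_)
      rw [NN_succ]
      have : (4 : ℝ) ^ d = 2 ^ d * 2 ^ d := by
        rw [← mul_pow]
        norm_num
      rw [this]
      ring
    refine (Finset.sum_le_sum fun i _ => h1 i).trans (le_of_eq ?_)
    rw [Finset.sum_const, nsmul_eq_mul, Finset.card_univ, Fintype.card_prod, Fintype.card_fin, Fintype.card_bool]
    push_cast
    ring
  have htot : ∑ u : Blk d k, ∑ _c : Fin q, ∑ _e : Bool, (4 ^ d * E + 2 * q ^ 2 / C₄ * ∑ i : Fin d × Bool, X u i) =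
      2 * q * (NN d k * (4 ^ d * E) + 2 * q ^ 2 / C₄ * ∑ u : Blk d k, ∑ i : Fin d × Bool, X u i) := by
    simp only [Finset.sum_const, Finset.card_univ, Fintype.card_bool, Fintype.card_fin, nsmul_eq_mul, Nat.cast_ofNat]
    exact B4_tot _ _ _ _ (card_Blk d k) _
  rw [htot]
  have hdK : (0 : ℝ) < (d : ℝ) ^ K := by positivity
  -- first term
  have t1 : 2 * q * (NN d k * (4 ^ d * E)) ≤ 4 ^ d * NN d k * (1 / 2 / (d : ℝ) ^ K) := by
    have h1 : 2 * (q : ℝ) * E ≤ 1 / 2 / (d : ℝ) ^ K := by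
      refine le_trans ?_ hE1
      have h2 : 2 * (q : ℝ) ≤ 4 * d := by linarith
      exact mul_le_mul h2 hEle hE0.le (by positivity)
    have h2 : 2 * q * (NN d k * (4 ^ d * E)) = 4 ^ d * NN d k * (2 * q * E) := by ring
    rw [h2]
    exact mul_le_mul_of_nonneg_left h1 (by positivity)
  have t2 : 2 * q * (2 * q ^ 2 / C₄ * ∑ u : Blk d k, ∑ i : Fin d × Bool, X u i) ≤
      4 ^ d * NN d k * (1 / 2 / (d : ℝ) ^ K) := by
    have h1 : 2 * q * (2 * q ^ 2 / C₄ * ∑ u : Blk d k, ∑ i : Fin d × Bool, X u i) ≤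
        2 * q * (2 * q ^ 2 / C₄ * (2 * d * (4 ^ d * NN d k / (d : ℝ) ^ (K + 6)))) := by
      refine mul_le_mul_of_nonneg_left ?_ (by positivity)
      exact mul_le_mul_of_nonneg_left hsumX (by positivity)
    refine h1.trans ?_
    have h2 : 2 * q * (2 * q ^ 2 / C₄ * (2 * d * (4 ^ d * NN d k / (d : ℝ) ^ (K + 6)))) =
        4 ^ d * NN d k * (8 * q ^ 3 * d / (C₄ * (d : ℝ) ^ (K + 6))) := by
      field_simp
      ring
    rw [h2]
    refine mul_le_mul_of_nonneg_left ?_ (by positivity)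
    have h3 : (q : ℝ) ^ 3 ≤ (2 * d) ^ 3 := by gcongr
    calc 8 * (q : ℝ) ^ 3 * d / (C₄ * (d : ℝ) ^ (K + 6)) ≤ 8 * (2 * (d : ℝ)) ^ 3 * d / (C₄ * (d : ℝ) ^ (K + 6)) := by gcongr
      _ = 64 / (C₄ * (d : ℝ) ^ 2) / (d : ℝ) ^ K := by
          field_simp
          ring
      _ ≤ 1 / 2 / (d : ℝ) ^ K := by gcongr
  calc 2 * q * (NN d k * (4 ^ d * E) + 2 * q ^ 2 / C₄ * ∑ u : Blk d k, ∑ i : Fin d × Bool, X u i)
      = 2 * q * (NN d k * (4 ^ d * E)) + 2 * q * (2 * q ^ 2 / C₄ * ∑ u : Blk d k, ∑ i : Fin d × Bool, X u i) := by ring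
    _ ≤ 4 ^ d * NN d k * (1 / 2 / (d : ℝ) ^ K) + 4 ^ d * NN d k * (1 / 2 / (d : ℝ) ^ K) := add_le_add t1 t2
    _ = 4 ^ d * NN d k / (d : ℝ) ^ K := by ring

end Pool.Agent.LC

end

/-! ### from `Lib_MP_2c424f_thr.B5a` -/

section

/-!
# THR B5a: one block (paper proof: B5)

`y = ya c f`, `H = Ms none t G`: `Ms none t |y - G| ≤ √e₁`, `Ms none t |G - H| ≤ √e₂` (`Ms_sq`; `Ms none t ((G - H)²) = Ms none t (G²) - H²`), so `Ms none t |y - H| ≤ 2 √κ`, and `Ms s t |y - H| ≤ 8 √κ` for all `s` (`Ms_face`).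
`dst3 m yM H ≤ e₃ + 2 √κ ≤ 3 √κ` (`dst3` is `1`-Lipschitz, `κ ≤ √κ`), so some `τ` of the three values has `|H - τ| ≤ 3 √κ`; `|Ms s t bq - τ| ≤ κ + 8 √κ + 3 √κ ≤ 12 √κ ≤ η`;
`Ms none t 1[|y-τ| > η] ≤ Ms none t |y - τ|/η ≤ 5 √κ/η ≤ η`.
-/

set_option autoImplicit false

open Finset Filter

namespace Pool.Agent.THR

open Pool.Agent.LO Pool.Agent.LIN

private theorem B5a_dst {m yM y H : ℝ} : dst3 m yM H ≤ dst3 m yM y + |y - H| := by
  unfold dst3 dst2
  have h1 : |H - (1 - m)| ≤ |y - (1 - m)| + |y - H| := by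
    have := abs_sub_abs_le_abs_sub (H - (1 - m)) (y - (1 - m))
    have h2 : |H - (1 - m) - (y - (1 - m))| = |y - H| := by
      rw [← abs_neg]
      congr 1
      ring
    linarith
  have h2 : |H - (1 + m)| ≤ |y - (1 + m)| + |y - H| := by
    have := abs_sub_abs_le_abs_sub (H - (1 + m)) (y - (1 + m))
    have h2 : |H - (1 + m) - (y - (1 + m))| = |y - H| := by
      rw [← abs_neg]
      congr 1
      ring
    linarith
  have h3 : |H - yM| ≤ |y - yM| + |y - H| := by
    have := abs_sub_abs_le_abs_sub (H - yM) (y - yM)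
    have h2 : |H - yM - (y - yM)| = |y - H| := by
      rw [← abs_neg]
      congr 1
      ring
    linarith
  rw [← min_add_add_right, ← min_add_add_right]
  exact min_le_min (min_le_min h1 h2) h3

open scoped Classical in
/-- one block -/
theorem tau_one {d k q : ℕ} (hd : 2 ≤ d) (η κ m yM : ℝ) (hη : 0 < η) (hκ : 0 < κ) (hκ1 : κ ≤ 1) (h1 : 12 * Real.sqrt κ ≤ η)
    (h2 : 5 * Real.sqrt κ ≤ η ^ 2) (c : Fin q) (f : Site d (k + 1) → Fin q) (t : Blk d k) (G : Site d (k + 1) → ℝ)
    (e1 : Ms none t (fun x => (ya c f x - G x) ^ 2) ≤ κ) (e2 : Ms none t (fun x => G x ^ 2) - Ms none t G ^ 2 ≤ κ)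
    (e3 : Ms none t (fun x => dst3 m yM (ya c f x)) ≤ κ) (e4 : ∀ s, |Ms s t (fun x => bq c f x - ya c f x)| ≤ κ) :
    ∃ τ : ℝ, tauG η m yM c f t τ := by
  set r : ℝ := Real.sqrt κ with hr
  have hr0 : 0 ≤ r := Real.sqrt_nonneg κ
  have hrr : r * r = κ := Real.mul_self_sqrt hκ.le
  have hr1 : r ≤ 1 := by
    rw [hr, Real.sqrt_le_one]
    exact hκ1
  have hκr : κ ≤ r := by
    rw [← hrr]
    nlinarith
  set H : ℝ := Ms none t G with hH
  have hsq : ∀ x : ℝ, x ^ 2 ≤ κ → x ≤ r := by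
    intro x hx
    rw [hr]
    exact Real.le_sqrt_of_sq_le hx
  -- step 1
  have s1 : Ms none t (fun x => |ya c f x - G x|) ≤ r := by
    apply hsq
    refine le_trans (Ms_sq hd none t _) (le_trans (le_of_eq ?_) e1)
    congr 1
    funext x
    exact sq_abs _
  -- step 2
  have s2 : Ms none t (fun x => |G x - H|) ≤ r := by
    apply hsq
    refine le_trans (Ms_sq hd none t _) (le_trans (le_of_eq ?_) e2)
    have h3 : (fun x => |G x - H| ^ 2) = fun x => (G x ^ 2 - (2 * H) * G x) + H ^ 2 := by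
      funext x
      rw [sq_abs]
      ring
    rw [h3, Ms_add none t (fun x => G x ^ 2 - (2 * H) * G x) (fun _ => H ^ 2), Ms_const hd,
      Ms_sub none t (fun x => G x ^ 2) (fun x => (2 * H) * G x), Ms_mul]
    rw [← hH]
    ring
  -- step 3
  have s3 : Ms none t (fun x => |ya c f x - H|) ≤ 2 * r := by
    calc Ms none t (fun x => |ya c f x - H|) ≤ Ms none t (fun x => |ya c f x - G x| + |G x - H|) := by
          apply Ms_mono
          intro a b _
          exact abs_sub_le _ _ _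
      _ = Ms none t (fun x => |ya c f x - G x|) + Ms none t (fun x => |G x - H|) := Ms_add none t _ _
      _ ≤ 2 * r := by linarith
  have s4 : ∀ s, Ms s t (fun x => |ya c f x - H|) ≤ 8 * r := by
    intro s
    have := Ms_face hd s t (fun x => |ya c f x - H|) (fun x => abs_nonneg _)
    linarith
  -- step 5
  have s5 : dst3 m yM H ≤ 3 * r := by
    have h3 : Ms none t (fun _ => dst3 m yM H) ≤ Ms none t (fun x => dst3 m yM (ya c f x) + |ya c f x - H|) := by
      apply Ms_mono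
      intro a b _
      exact B5a_dst
    rw [Ms_const hd, Ms_add] at h3
    linarith
  obtain ⟨τ, hτ, hτH⟩ : ∃ τ : ℝ, (τ = 1 - m ∨ τ = yM ∨ τ = 1 + m) ∧ |H - τ| ≤ 3 * r := by
    unfold dst3 dst2 at s5
    rcases min_le_iff.1 s5 with h3 | h3
    · rcases min_le_iff.1 h3 with h4 | h4
      · exact ⟨1 - m, Or.inl rfl, h4⟩
      · exact ⟨1 + m, Or.inr (Or.inr rfl), h4⟩
    · exact ⟨yM, Or.inr (Or.inl rfl), h3⟩
  refine ⟨τ, hτ, ?_, ?_⟩
  · intro s
    have h3 : Ms s t (bq c f) - τ = Ms s t (fun x => bq c f x - ya c f x) + Ms s t (fun x => ya c f x - H) +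
        (H - τ) := by
      rw [Ms_sub s t (bq c f) (fun x => ya c f x), Ms_sub s t (fun x => ya c f x) (fun _ => H), Ms_const hd]
      ring
    rw [h3]
    have h4 : |Ms s t (fun x => ya c f x - H)| ≤ 8 * r := le_trans (Ms_abs s t _) (s4 s)
    have h5 := e4 s
    have h6 := abs_add_le (Ms s t (fun x => bq c f x - ya c f x) + Ms s t (fun x => ya c f x - H)) (H - τ)
    have h7 := abs_add_le (Ms s t (fun x => bq c f x - ya c f x)) (Ms s t (fun x => ya c f x - H))
    linarith
  · have h3 : Ms none t (fun v => if η < |ya c f v - τ| then (1 : ℝ) else 0) ≤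
        Ms none t (fun v => (1 / η) * (|ya c f v - H| + 3 * r)) := by
      apply Ms_mono
      intro a b _
      have h4 : |ya c f (pt t a b) - τ| ≤ |ya c f (pt t a b) - H| + 3 * r := by
        have := abs_sub_le (ya c f (pt t a b)) H τ
        linarith
      split_ifs with h5
      · rw [one_div, ← div_eq_inv_mul, le_div_iff₀ hη, one_mul]
        linarith
      · have := abs_nonneg (ya c f (pt t a b) - H)
        positivity
    refine le_trans h3 ?_
    rw [Ms_mul, Ms_add none t (fun x => |ya c f x - H|) (fun _ => 3 * r), Ms_const hd, one_div, ← div_eq_inv_mul,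
      div_le_iff₀ hη]
    nlinarith

end Pool.Agent.THR

end
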