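import Pool.Agent.Lib_MP_2c424f_m.M06
import Pool.Agent.Lib_MP_2c424f_m.M07
import Pool.Agent.Lib_MP_2c424f_m.M10
import Pool.Agent.Lib_MP_2c424f_m.M12
import Pool.Agent.Lib_MP_2c424f_m.M16
import Pool.Agent.Lib_MP_2c424f_m.M17

/-!
# MP_2c424f_pr, q_c grows linearly: merged library part M18

Concatenation of smaller files (each in its own section), only to save build time.
-/

namespace Pool.Agent.LO
end Pool.Agent.LO

namespace Pool.Agent.LIN
end Pool.Agent.LIN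

/-! ### from `Lib_MP_2c424f_thr.S4` -/

section

/-!
# THR S4: few irregular sites (paper proof: S4 union bound, S5)

`pair_sum`: with `∂G = {v : some neighbour in G}`, `|∂G| ≤ 2d|G|`: for `0 < x ≤ 1`,
`1[M/2 ≤ |A|] 1[B|G| ≤ 4|A|] ≤ 2^(|A| - M/2) x^(|G| - 4|A|/B)`, so the sum over `A ⊆ ∂G` is at most
`2^(-M/2) x^|G| (1+y)^(2d|G|)`, `y = 2 r x^(-4/B)`, and the sum over `G` is at most `2^(-M/2) (1 + x e^(2dy))^N`.
`fz_rare`: `cover`, `av_one` with `ν = 1/(100 d^K)`, `pair_sum` with `M = N/d^K`, `r = 9/q`, `x = d^(-K-1)`: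
`x^(-4/B) ≤ 2` for `d` large as `B ≥ ρ d`, `y ≤ 36/q`, `2 d y ≤ 36 a ≤ 36 A0`, exponent
`ν - (log 2)/(2 d^K) + e^(36 A0)/d^(K+1) ≤ -1/(4 d^K)`.
(`EvT_reg`, `EvT_d` give `B ≥ 1`, `τ ≥ 3`; the union bound is over the pairs `(G, A)` of `pair_sum`.)
`avail`: off the rare events for `K+1`: `|Fz b f|, |Bd b f| ≤ N/d^(K+1)` for both classes (take for `b` the class with
more frozen sites).  If `v` in the class `b` is not in `Bd b f` and `av f v < c1 q ≤ τ`, it has `≥ τ` frozen neighbours (`Vn_le`);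
the number of such `v` is at most `(2d/τ) |Fz (!b) f| ≤ 4 A0 4^A0 N/d^(K+2)`.
-/

set_option autoImplicit false

open Finset Filter

namespace Pool.Agent.THR

open Pool.Agent.LO Pool.Agent.LIN

open scoped Classical in
/-- number of colourings with a pair of the family of `pair_sum` -/
private theorem S4_count {d k q : ℕ} (b : Bool) (E M : ℝ) (B : ℕ) (P : (Site d k → Fin q) → Prop) (hE : 0 ≤ E)
    (hav : ∀ U : Finset (Site d k), U ⊆ cls b d k →
      (((prps d k q).filter fun f => ∀ v ∈ U, av f v = 1).card : ℝ) ≤ ZZ d k q * (9 / (q : ℝ)) ^ U.card * E)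
    (hP : ∀ f ∈ prps d k q, P f → ∃ G A : Finset (Site d k), A ⊆ Fz b f ∧ (∀ v ∈ A, ∃ σ : Stp d, v + sv σ ∈ G) ∧
      M / 2 ≤ (A.card : ℝ) ∧ (G.card : ℝ) * B ≤ 4 * A.card) :
    (((prps d k q).filter P).card : ℝ) ≤ ZZ d k q * E *
      ∑ p ∈ (univ : Finset (Finset (Site d k) × Finset (Site d k))).filter (fun p =>
        (∀ v ∈ p.2, ∃ σ : Stp d, v + sv σ ∈ p.1) ∧ M / 2 ≤ (p.2.card : ℝ) ∧ (p.1.card : ℝ) * B ≤ 4 * p.2.card),
      (9 / (q : ℝ)) ^ p.2.card := by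
  have hZ : 0 ≤ ZZ d k q := by
    unfold ZZ
    positivity
  set Fam : Finset (Finset (Site d k) × Finset (Site d k)) :=
    (univ : Finset (Finset (Site d k) × Finset (Site d k))).filter (fun p =>
        (∀ v ∈ p.2, ∃ σ : Stp d, v + sv σ ∈ p.1) ∧ M / 2 ≤ (p.2.card : ℝ) ∧ (p.1.card : ℝ) * B ≤ 4 * p.2.card)
    with hFam
  have h1 : (prps d k q).filter P ⊆ Fam.biUnion fun p =>
      (prps d k q).filter fun f => p.2 ⊆ cls b d k ∧ ∀ v ∈ p.2, av f v = 1 := by
    intro f hf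
    rw [mem_filter] at hf
    obtain ⟨G, A, hA, hG, hM, hB⟩ := hP f hf.1 hf.2
    refine mem_biUnion.2 ⟨(G, A), ?_, ?_⟩
    · rw [hFam]
      exact mem_filter.2 ⟨mem_univ _, hG, hM, hB⟩
    · refine mem_filter.2 ⟨hf.1, ?_, ?_⟩
      · intro v hv
        have := hA hv
        unfold Fz at this
        exact (mem_filter.1 this).1
      · intro v hv
        have := hA hv
        unfold Fz at this
        exact (mem_filter.1 this).2
  have h2 : (((prps d k q).filter P).card : ℝ) ≤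
      ∑ p ∈ Fam, (((prps d k q).filter fun f => p.2 ⊆ cls b d k ∧ ∀ v ∈ p.2, av f v = 1).card : ℝ) := by
    exact_mod_cast (card_le_card h1).trans card_biUnion_le
  refine h2.trans ?_
  rw [mul_sum]
  refine sum_le_sum fun p _ => ?_
  by_cases hp : p.2 ⊆ cls b d k
  · have h3 := hav p.2 hp
    have h4 : ((prps d k q).filter fun f => p.2 ⊆ cls b d k ∧ ∀ v ∈ p.2, av f v = 1) =
        (prps d k q).filter fun f => ∀ v ∈ p.2, av f v = 1 := by
      refine filter_congr fun f _ => ?_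
      exact ⟨fun h => h.2, fun h => ⟨hp, h⟩⟩
    rw [h4]
    refine h3.trans (le_of_eq ?_)
    ring
  · have h4 : ((prps d k q).filter fun f => p.2 ⊆ cls b d k ∧ ∀ v ∈ p.2, av f v = 1) = ∅ := by
      refine filter_false_of_mem fun f _ h => hp h.1
    rw [h4, card_empty, Nat.cast_zero]
    positivity

/-- the numbers -/
private theorem S4_num {N κ D e x l : ℝ} (hN : 0 ≤ N) (hκ : 0 ≤ κ) (hD : 0 < D) (hx : x = κ / D) (he : 4 * (e + 1) ≤ D)
    (hl : 0.69 ≤ l) : κ / 100 * N - κ * N / 2 * l + N * (x * e) ≤ -(N * x) := by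
  have h1 : (e + 1) / D ≤ 1 / 4 := by
    rw [div_le_div_iff₀ hD (by norm_num)]
    linarith
  have h2 : x * e + x ≤ κ * (1 / 4) := by
    have h3 : x * e + x = κ * ((e + 1) / D) := by
      rw [hx]
      field_simp
    rw [h3]
    exact mul_le_mul_of_nonneg_left h1 hκ
  have h4 : N * (x * e + x) ≤ N * (κ * (1 / 4)) := mul_le_mul_of_nonneg_left h2 hN
  have h5 : 0.69 * (κ * N) ≤ l * (κ * N) := mul_le_mul_of_nonneg_right hl (mul_nonneg hκ hN)
  nlinarith [mul_nonneg hκ hN]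

private theorem S4_floor {t ρ D : ℝ} (h : 1 ≤ t) (h1 : 2 * (ρ * D) ≤ t) : ρ * D ≤ (⌊t⌋₊ : ℝ) := by
  have h2 := Nat.lt_floor_add_one t
  have h3 : (1 : ℝ) ≤ (⌊t⌋₊ : ℝ) := by
    have : 1 ≤ ⌊t⌋₊ := Nat.le_floor (by exact_mod_cast h)
    exact_mod_cast this
  linarith

private theorem S4_x {D ρ B : ℝ} {K : ℕ} (hD : 1 ≤ D) (hρ : 0 < ρ) (hB : ρ * D ≤ B)
    (hlog : 4 * (K + 1) * Real.log D ≤ Real.log 2 * (ρ * D)) :
    ((1 / D ^ (K + 1)) : ℝ) ^ (-(4 / B)) ≤ 2 := by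
  have hD0 : 0 < D := by linarith
  have hB0 : 0 < B := lt_of_lt_of_le (mul_pos hρ hD0) hB
  have h1 : ((1 / D ^ (K + 1)) : ℝ) ^ (-(4 / B)) = Real.exp (4 * (K + 1) * Real.log D / B) := by
    rw [Real.rpow_def_of_pos (by positivity), one_div, Real.log_inv, Real.log_pow]
    congr 1
    push_cast
    ring
  rw [h1, ← Real.exp_log (show (0 : ℝ) < 2 by norm_num), Real.exp_le_exp, div_le_iff₀ hB0]
  have h2 : Real.log 2 * (ρ * D) ≤ Real.log 2 * B :=
    mul_le_mul_of_nonneg_left hB (Real.log_nonneg (by norm_num))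
  linarith

private theorem S4_ev (K : ℕ) {ρ : ℝ} (hρ : 0 < ρ) (e : ℝ) :
    ∀ᶠ d : ℕ in atTop, 4 * ((K : ℝ) + 1) * Real.log d ≤ Real.log 2 * (ρ * d) ∧ e ≤ d ∧ 1 ≤ ρ * d := by
  have hl2 : 0 < Real.log 2 := Real.log_pos (by norm_num)
  have h1 : Tendsto (fun d : ℕ => (d : ℝ)) atTop atTop := tendsto_natCast_atTop_atTop
  have h2 : ∀ᶠ x : ℝ in atTop, ‖Real.log x‖ ≤ Real.log 2 * ρ / (4 * ((K : ℝ) + 1)) * ‖x‖ :=
    (Real.isLittleO_log_id_atTop.def (by positivity))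
  have h3 := h1.eventually h2
  have h4 : ∀ᶠ d : ℕ in atTop, 1 / ρ ≤ (d : ℝ) := h1.eventually (eventually_ge_atTop _)
  have h5 : ∀ᶠ d : ℕ in atTop, e ≤ (d : ℝ) := h1.eventually (eventually_ge_atTop _)
  filter_upwards [h3, h4, h5] with d hd1 hd2 hd3
  refine ⟨?_, hd3, ?_⟩
  · have h6 : Real.log d ≤ Real.log 2 * ρ / (4 * ((K : ℝ) + 1)) * d := by
      have h7 := (le_abs_self (Real.log (d : ℝ))).trans hd1
      rw [Real.norm_eq_abs, abs_of_nonneg (Nat.cast_nonneg d)] at h7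
      exact h7
    have h8 := mul_le_mul_of_nonneg_left h6 (show (0 : ℝ) ≤ 4 * ((K : ℝ) + 1) by positivity)
    refine h8.trans (le_of_eq ?_)
    field_simp
  · rw [div_le_iff₀ hρ] at hd2
    linarith

private theorem S4_rare {ε : ℝ} (hε : 0 < ε) (hε1 : ε ≤ 1) (K : ℕ) :
    WOPi ε (fun _ _ _ => Bool) fun d k q b f =>
      (∀ b' : Bool, ((Bd b' f).card : ℝ) ≤ NN d k / (d : ℝ) ^ (K + 1)) → (Fz (!b) f).card ≤ (Fz b f).card →
        ((Fz b f).card : ℝ) ≤ NN d k / (d : ℝ) ^ K := by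
  classical
  have h40 : (0 : ℝ) < (4 : ℝ) ^ (-A0 ε) := by positivity
  obtain ⟨ρ, hρd⟩ : ∃ ρ : ℝ, ρ = ε * (4 : ℝ) ^ (-A0 ε) / 24 := ⟨_, rfl⟩
  have hρ : 0 < ρ := by rw [hρd]; positivity
  refine ⟨K + 1, (((av_one hε hε1 (fun d _ => 1 / ((d : ℝ) + 1) ^ K / 100) (fun d _ => by positivity)).and
    (EvT_reg hε hε1 8)).and (EvT_d (S4_ev K hρ (4 * (Real.exp (36 * A0 ε) + 1))))).mono ?_⟩
  rintro d k q ⟨⟨hav, hd8, hq8, hk8, hqd, -, -, hra, h2d⟩, hlog, he, hρ1⟩ b
  have hd : 8 ≤ d := by exact_mod_cast hd8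
  have hk : 8 ≤ k := by exact_mod_cast hk8
  have hd0 : (0 : ℝ) < d := by linarith
  have hq0 : (0 : ℝ) < q := by linarith
  have hN : 0 < NN d k := by unfold NN; positivity
  have hZ : 0 ≤ ZZ d k q := by unfold ZZ; positivity
  obtain ⟨κ, hκd⟩ : ∃ κ : ℝ, κ = 1 / (d : ℝ) ^ K := ⟨_, rfl⟩
  have hκ : 0 < κ := by rw [hκd]; positivity
  obtain ⟨x, hxd⟩ : ∃ x : ℝ, x = 1 / (d : ℝ) ^ (K + 1) := ⟨_, rfl⟩
  have hx : 0 < x := by rw [hxd]; positivity
  have hx1 : x ≤ 1 := by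
    rw [hxd, div_le_one (by positivity)]
    exact one_le_pow₀ (by linarith)
  have hxκ : x = κ / d := by
    rw [hxd, hκd, pow_succ]
    field_simp
  have hNκ : NN d k / (d : ℝ) ^ K = κ * NN d k := by rw [hκd]; ring
  have hNx : NN d k / (d : ℝ) ^ (K + 1) = NN d k * x := by rw [hxd]; ring
  obtain ⟨B, hBd⟩ : ∃ B : ℕ, B = ⌊(q : ℝ) * (4 : ℝ) ^ (-ra d q) / 12⌋₊ := ⟨_, rfl⟩
  have hq4 : 2 * (ρ * d) ≤ (q : ℝ) * (4 : ℝ) ^ (-ra d q) / 12 := by
    have h1 : (4 : ℝ) ^ (-A0 ε) ≤ (4 : ℝ) ^ (-ra d q) :=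
      Real.rpow_le_rpow_of_exponent_le (by norm_num) (by linarith)
    have h2 : ε * d * (4 : ℝ) ^ (-A0 ε) ≤ q * (4 : ℝ) ^ (-ra d q) := mul_le_mul hqd h1 h40.le hq0.le
    rw [hρd]
    linarith
  have hB : ρ * d ≤ B := by
    rw [hBd]
    exact S4_floor (by linarith) hq4
  have hB1 : 1 ≤ B := by
    have : (1 : ℝ) ≤ B := by linarith
    exact_mod_cast this
  have hκN8 : NN d k * x ≤ κ * NN d k / 8 := by
    rw [hxκ]
    have h1 : κ / d ≤ κ / 8 := div_le_div_of_nonneg_left hκ.le (by norm_num) hd8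
    have h2 := mul_le_mul_of_nonneg_left h1 hN.le
    linarith
  have hcount := S4_count b (Real.exp (1 / ((d : ℝ) + 1) ^ K / 100 * NN d k)) (κ * NN d k) B
    (fun f => ¬ ((∀ b' : Bool, ((Bd b' f).card : ℝ) ≤ NN d k / (d : ℝ) ^ (K + 1)) →
      (Fz (!b) f).card ≤ (Fz b f).card → ((Fz b f).card : ℝ) ≤ NN d k / (d : ℝ) ^ K)) (Real.exp_pos _).le
    (hav b) (by
      intro f hf hnf
      push Not at hnf
      obtain ⟨hf1, hf2, hf3⟩ := hnf
      have hP : Prp f := (mem_filter.1 hf).2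
      have h3 := hf1 b
      rw [hNx] at h3
      rw [hNκ] at hf3
      rw [hBd]
      exact cover (by omega) (by omega) b hP κ hκ (by linarith) hf3.le hf2 (h3.trans hκN8))
  have hpair := pair_sum (d := d) (k := k) (by omega) (κ * NN d k) (9 / (q : ℝ)) x B hB1 (by positivity) hx hx1
  have hν : 1 / ((d : ℝ) + 1) ^ K / 100 * NN d k ≤ κ / 100 * NN d k := by
    refine mul_le_mul_of_nonneg_right ?_ hN.le
    rw [hκd]
    have h1 : (d : ℝ) ^ K ≤ ((d : ℝ) + 1) ^ K := pow_le_pow_left₀ hd0.le (by linarith) K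
    have h2 : 1 / ((d : ℝ) + 1) ^ K ≤ 1 / (d : ℝ) ^ K := div_le_div_of_nonneg_left (by norm_num) (by positivity) h1
    linarith
  have hxB : x ^ (-(4 / (B : ℝ))) ≤ 2 := by
    rw [hxd]
    exact S4_x (by linarith) hρ hB hlog
  have hy : 2 * d * (2 * (9 / (q : ℝ)) * x ^ (-(4 / (B : ℝ)))) ≤ 36 * A0 ε := by
    calc 2 * d * (2 * (9 / (q : ℝ)) * x ^ (-(4 / (B : ℝ)))) ≤ 2 * d * (2 * (9 / (q : ℝ)) * 2) := by
          refine mul_le_mul_of_nonneg_left (mul_le_mul_of_nonneg_left hxB (by positivity)) (by positivity)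
      _ = 36 * ra d q := by
          rw [h2d]
          field_simp
          ring
      _ ≤ 36 * A0 ε := by linarith
  unfold Rar
  refine hcount.trans ?_
  calc ZZ d k q * Real.exp (1 / ((d : ℝ) + 1) ^ K / 100 * NN d k) * _
      ≤ ZZ d k q * Real.exp (κ / 100 * NN d k) * ((2 : ℝ) ^ (-(κ * NN d k / 2)) *
          Real.exp (NN d k * (x * Real.exp (36 * A0 ε)))) := by
        refine mul_le_mul (mul_le_mul_of_nonneg_left (Real.exp_le_exp.2 hν) hZ) (hpair.trans ?_)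
          (sum_nonneg fun p _ => by positivity) (by positivity)
        refine mul_le_mul_of_nonneg_left (Real.exp_le_exp.2 ?_) (by positivity)
        refine mul_le_mul_of_nonneg_left (mul_le_mul_of_nonneg_left (Real.exp_le_exp.2 hy) hx.le) hN.le
    _ ≤ ZZ d k q * Real.exp (-(NN d k / (d : ℝ) ^ (K + 1))) := by
        rw [Real.rpow_def_of_pos (by norm_num), mul_assoc, ← Real.exp_add, ← Real.exp_add, hNx]
        refine mul_le_mul_of_nonneg_left (Real.exp_le_exp.2 ?_) hZ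
        have h1 := S4_num (l := Real.log 2) hN.le hκ.le hd0 hxκ he (by linarith [Real.log_two_gt_d9])
        linarith

theorem fz_few {ε : ℝ} (hε : 0 < ε) (hε1 : ε ≤ 1) (K : ℕ) :
    WOP ε fun d k q f => ∀ b : Bool, ((Fz b f).card : ℝ) ≤ NN d k / (d : ℝ) ^ K := by
  have h1 := (S4_rare hε hε1 K).all (fun _ _ => 2) (by
    intro d k q
    rw [Fintype.card_bool]
    norm_num)
  refine (h1.and (Bd_few hε hε1 (K + 1))).mono ((EvT_reg hε hε1 1).mono ?_)
  rintro d k _ - f _ ⟨hf1, hf2⟩ b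
  rcases le_total (Fz (!b) f).card (Fz b f).card with h | h
  · exact hf1 b hf2 h
  · refine le_trans (by exact_mod_cast h) (hf1 (!b) hf2 ?_)
    rw [Bool.not_not]
    exact h

open scoped Classical in
private theorem S4_double {d k : ℕ} (F : Finset (Site d k)) :
    ∑ v : Site d k, (((univ.filter fun σ : Stp d => v + sv σ ∈ F).card : ℕ) : ℝ) = 2 * d * F.card := by
  have h1 : ∀ v : Site d k, (((univ.filter fun σ : Stp d => v + sv σ ∈ F).card : ℕ) : ℝ) =
      ∑ σ : Stp d, if v + sv σ ∈ F then (1 : ℝ) else 0 := by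
    intro v
    rw [card_filter, Nat.cast_sum]
    refine sum_congr rfl fun σ _ => ?_
    split_ifs <;> simp
  have h2 : ∀ σ : Stp d, ∑ v : Site d k, (if v + sv σ ∈ F then (1 : ℝ) else 0) = F.card := by
    intro σ
    rw [Fintype.sum_equiv (Equiv.addRight (sv σ)) (fun v => if v + sv σ ∈ F then (1 : ℝ) else 0)
      (fun v => if v ∈ F then (1 : ℝ) else 0) fun v => rfl, sum_boole]
    congr 2
    ext v
    simp
  rw [sum_congr rfl fun v _ => h1 v, sum_comm, sum_congr rfl fun σ _ => h2 σ, sum_const, card_univ,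
    Fintype.card_prod, Fintype.card_fin, Fintype.card_bool, nsmul_eq_mul]
  push_cast
  ring

private theorem S4_irr {d k q : ℕ} {ε : ℝ} (f : Site d k → Fin q) (hq : 0 < q)
    (hc : c1 ε ≤ (4 : ℝ) ^ (-ra d q) / 4) (hc0 : 0 < c1 ε) :
    irr ε f ≤ (Bd true f).card + (Bd false f).card +
      2 * d / (c1 ε * q) * (((Fz true f).card : ℝ) + (Fz false f).card) := by
  classical
  have hq0 : (0 : ℝ) < q := by exact_mod_cast hq
  have hcls : ∀ v : Site d k, ∃ b : Bool, v ∈ cls b d k := by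
    intro v
    by_cases h : v ∈ cls true d k
    · exact ⟨true, h⟩
    · exact ⟨false, (cls_not true v).2 h⟩
  obtain ⟨F, hF⟩ : ∃ F : Finset (Site d k), F = univ.filter fun u => av f u = 1 := ⟨_, rfl⟩
  have hFc : (F.card : ℝ) ≤ ((Fz true f).card : ℝ) + (Fz false f).card := by
    have h1 : F ⊆ Fz true f ∪ Fz false f := by
      intro u hu
      rw [hF, mem_filter] at hu
      obtain ⟨b, hb⟩ := hcls u
      rw [mem_union]
      cases b
      · right
        unfold Fz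
        exact mem_filter.2 ⟨hb, hu.2⟩
      · left
        unfold Fz
        exact mem_filter.2 ⟨hb, hu.2⟩
    exact_mod_cast (card_le_card h1).trans (card_union_le _ _)
  obtain ⟨I, hI⟩ : ∃ I : Finset (Site d k), I = univ.filter fun v => (av f v : ℝ) < c1 ε * q := ⟨_, rfl⟩
  have hirr : irr ε f = I.card := by
    rw [hI]
    rfl
  obtain ⟨J, hJ⟩ : ∃ J : Finset (Site d k), J = I \ (Bd true f ∪ Bd false f) := ⟨_, rfl⟩
  have h1 : (I.card : ℝ) ≤ J.card + ((Bd true f).card + (Bd false f).card) := by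
    have h2 : I.card ≤ J.card + (Bd true f ∪ Bd false f).card := by
      rw [hJ]
      have := card_le_card_sdiff_add_card (s := I) (t := Bd true f ∪ Bd false f)
      omega
    have h3 := card_union_le (Bd true f) (Bd false f)
    have h4 : I.card ≤ J.card + ((Bd true f).card + (Bd false f).card) := by omega
    exact_mod_cast h4
  have h2 : ∀ v ∈ J, c1 ε * q ≤ (((univ.filter fun σ : Stp d => v + sv σ ∈ F).card : ℕ) : ℝ) := by
    intro v hv
    rw [hJ, Finset.mem_sdiff, mem_union, not_or, hI, mem_filter] at hv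
    obtain ⟨⟨-, hv1⟩, hv2, hv3⟩ := hv
    have h3 : q * (4 : ℝ) ^ (-ra d q) / 2 ≤ (Vn f v : ℝ) := by
      by_contra hcon
      push Not at hcon
      obtain ⟨b, hb⟩ := hcls v
      cases b
      · exact hv3 (by unfold Bd; exact mem_filter.2 ⟨hb, hcon⟩)
      · exact hv2 (by unfold Bd; exact mem_filter.2 ⟨hb, hcon⟩)
    have h4 := Vn_le f v
    have h5 : (univ.filter fun σ : Stp d => av f (v + sv σ) = 1) =
        univ.filter fun σ : Stp d => v + sv σ ∈ F := by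
      refine filter_congr fun σ _ => ?_
      rw [hF, mem_filter]
      exact ⟨fun h => ⟨mem_univ _, h⟩, fun h => h.2⟩
    rw [← h5]
    have h6 : c1 ε * q ≤ (4 : ℝ) ^ (-ra d q) / 4 * q := mul_le_mul_of_nonneg_right hc hq0.le
    linarith
  have h3 : (J.card : ℝ) * (c1 ε * q) ≤ 2 * d * F.card := by
    rw [← S4_double F, ← nsmul_eq_mul]
    refine (card_nsmul_le_sum J _ _ h2).trans ?_
    exact sum_le_sum_of_subset_of_nonneg (subset_univ _) fun v _ _ => Nat.cast_nonneg _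
  have h4 : (J.card : ℝ) ≤ 2 * d / (c1 ε * q) * (((Fz true f).card : ℝ) + (Fz false f).card) := by
    rw [div_mul_eq_mul_div, le_div_iff₀ (by positivity)]
    exact h3.trans (mul_le_mul_of_nonneg_left hFc (by positivity))
  rw [hirr]
  linarith

/-- few irregular sites -/
theorem avail {ε : ℝ} (hε : 0 < ε) (hε1 : ε ≤ 1) (K : ℕ) :
    WOP ε fun d k q f => irr ε f ≤ NN d k / (d : ℝ) ^ K := by
  have hc0 : 0 < c1 ε := by unfold c1; positivity
  have hA0 : 0 < A0 ε := by unfold A0; positivity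
  refine ((fz_few hε hε1 (K + 1)).and (Bd_few hε hε1 (K + 1))).mono
    ((EvT_reg hε hε1 (max 1 (2 * (1 + A0 ε / c1 ε)))).mono ?_)
  rintro d k q ⟨hd, hq, -, -, -, -, hra, h2d⟩ f - ⟨hf1, hf2⟩
  have hd1 : (1 : ℝ) ≤ d := (le_max_left _ _).trans hd
  have hd2 : 2 * (1 + A0 ε / c1 ε) ≤ d := (le_max_right _ _).trans hd
  have hq1 : (1 : ℝ) ≤ q := (le_max_left _ _).trans hq
  have hq' : 0 < q := by exact_mod_cast (by linarith : (0 : ℝ) < q)
  have hq0 : (0 : ℝ) < q := by linarith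
  have hd0 : (0 : ℝ) < d := by linarith
  have hN : 0 ≤ NN d k := by unfold NN; positivity
  have hc : c1 ε ≤ (4 : ℝ) ^ (-ra d q) / 4 := by
    unfold c1
    have h1 : (4 : ℝ) ^ (-A0 ε) ≤ (4 : ℝ) ^ (-ra d q) :=
      Real.rpow_le_rpow_of_exponent_le (by norm_num) (by linarith)
    linarith
  obtain ⟨X, hX⟩ : ∃ X : ℝ, X = NN d k / (d : ℝ) ^ (K + 1) := ⟨_, rfl⟩
  have hX0 : 0 ≤ X := by rw [hX]; positivity
  have h1 := S4_irr (ε := ε) f hq' hc hc0
  have h2 : 2 * d / (c1 ε * q) ≤ A0 ε / c1 ε := by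
    rw [h2d, div_le_div_iff₀ (by positivity) hc0]
    have := mul_le_mul_of_nonneg_right hra (mul_nonneg hc0.le hq0.le)
    linarith
  have h3 : ((Fz true f).card : ℝ) + (Fz false f).card ≤ 2 * X := by
    have := hf1 true
    have := hf1 false
    rw [hX]
    linarith
  have h4 : ((Bd true f).card : ℝ) + (Bd false f).card ≤ 2 * X := by
    have := hf2 true
    have := hf2 false
    rw [hX]
    linarith
  have h5 : 2 * d / (c1 ε * q) * (((Fz true f).card : ℝ) + (Fz false f).card) ≤ A0 ε / c1 ε * (2 * X) :=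
    mul_le_mul h2 h3 (by positivity) (by positivity)
  have h6 : NN d k / (d : ℝ) ^ K = d * X := by
    rw [hX, pow_succ]
    field_simp
  rw [h6]
  have h7 : 2 * (1 + A0 ε / c1 ε) * X ≤ d * X := mul_le_mul_of_nonneg_right hd2 hX0
  linarith

end Pool.Agent.THR

end

/-! ### from `Lib_MP_2c424f_thr.R3a` -/

section

/-!
# THR R3a: two sums (paper proof: R3)

Index type of the uniform statements: `Ix d k q = Bool × Fin d × Fin d × Fin q × Fin q × (Site d k → ℝ)`.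
* `nP_sum`: `WOPi_tail` for the class `!b`; `∑_{u ∈ b} |w_u| n_c(u) = ∑_u ∑_{σ ∈ pl} |w_u| 1[f(u+σ) = c]`, mean (`fm_ind`)
  `∑∑ |w_u| z/x ≤ (4/(c1 q)) W + 4 irr` (every irregular site is `u + σ` at most once for each of the four `σ`), `avail (K+1)`; bounded differences `≤ 4`.
* `nP2_sum`: `1[n_c ≥ 2] ≤ ∑_{pairs σ ≠ σ'} 1[..] 1[..]` (6 pairs), mean of a product over two different neighbours (`fm_two`)
  `≤ 1/(c1 q)² + 1[u+σ irregular] + 1[u+σ' irregular]`; total `≤ 6/(c1 q)² W + 12 irr`.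
-/

set_option autoImplicit false

open Finset Filter

namespace Pool.Agent.THR

open Pool.Agent.LO Pool.Agent.LIN

/-- parameters: class, plane, two colours, weight function -/
abbrev Ix (d k q : ℕ) : Type := Bool × (Fin d × Fin d) × (Fin q × Fin q) × (Site d k → ℝ)

/-- admissible parameters -/
def okx {d k q : ℕ} (p : Ix d k q) : Prop := p.2.1.1 ≠ p.2.1.2 ∧ p.2.2.1.1 ≠ p.2.2.1.2 ∧ ∀ x, |p.2.2.2 x| ≤ 1

private theorem R3a_c1 (ε : ℝ) : 0 < c1 ε := by
  unfold c1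
  have : (0 : ℝ) < (4 : ℝ) ^ (-A0 ε) := Real.rpow_pos_of_pos (by norm_num) _
  positivity

private theorem R3a_NN (d k : ℕ) : 0 < NN d k := by
  unfold NN
  positivity

private theorem R3a_prp {d k q : ℕ} {f : Site d k → Fin q} (hf : f ∈ prps d k q) : Prp f := by
  classical
  unfold prps at hf
  exact (mem_filter.1 hf).2

private theorem R3a_nP {d k q : ℕ} (i j : Fin d) (c : Fin q) (f : Site d k → Fin q) (u : Site d k) :
    (nP i j c f u : ℝ) = ∑ σ ∈ pl i j, (if f (u + sv σ) = c then (1 : ℝ) else 0) := by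
  unfold nP
  rw [card_filter]
  push_cast
  rfl

private theorem R3a_lip {d k q : ℕ} (i j : Fin d) (hij : i ≠ j) (c : Fin q) (b : Bool)
    (w : Site d k → ℝ) (hw : ∀ x, |w x| ≤ 1) (φ : ℕ → ℝ) (hφ : ∀ m n : ℕ, |φ m - φ n| ≤ |(m : ℝ) - n|) :
    Lip (!b) 4 fun f => ∑ u ∈ cls b d k, |w u| * φ (nP i j c f u) := by
  classical
  intro f hf h hh v hv γ hγ
  rw [← sum_sub_distrib]
  refine (abs_sum_le_sum_abs _ _).trans ?_
  calc ∑ u ∈ cls b d k, |(|w u| * φ (nP i j c (Function.update h v γ) u) - |w u| * φ (nP i j c h u))|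
      ≤ ∑ u ∈ cls b d k, ∑ σ ∈ pl i j, (if u + sv σ = v then (1 : ℝ) else 0) := by
        refine sum_le_sum fun u _ => ?_
        rw [← mul_sub, abs_mul, abs_abs]
        have h1 : |φ (nP i j c (Function.update h v γ) u) - φ (nP i j c h u)| ≤
            ∑ σ ∈ pl i j, (if u + sv σ = v then (1 : ℝ) else 0) := by
          refine (hφ _ _).trans ?_
          rw [R3a_nP, R3a_nP, ← sum_sub_distrib]
          refine (abs_sum_le_sum_abs _ _).trans (sum_le_sum fun σ _ => ?_)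
          by_cases hv' : u + sv σ = v
          · rw [if_pos hv']
            split_ifs <;> norm_num
          · rw [if_neg hv', Function.update_of_ne hv', sub_self, abs_zero]
        calc |w u| * |φ (nP i j c (Function.update h v γ) u) - φ (nP i j c h u)|
            ≤ 1 * |φ (nP i j c (Function.update h v γ) u) - φ (nP i j c h u)| :=
              mul_le_mul_of_nonneg_right (hw u) (abs_nonneg _)
          _ ≤ _ := by
              rw [one_mul]
              exact h1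
    _ ≤ ∑ u : Site d k, ∑ σ ∈ pl i j, (if u + sv σ = v then (1 : ℝ) else 0) :=
        sum_le_sum_of_subset_of_nonneg (subset_univ _) fun _ _ _ =>
          sum_nonneg fun _ _ => by split_ifs <;> norm_num
    _ = ∑ σ ∈ pl i j, (1 : ℝ) := by
        rw [sum_comm]
        refine sum_congr rfl fun σ _ => ?_
        have h3 : ∀ u : Site d k, (u + sv σ = v) ↔ u = v - sv σ := fun u => eq_sub_iff_add_eq.symm
        simp_rw [h3]
        rw [sum_ite_eq' univ (v - sv σ) fun _ => (1 : ℝ), if_pos (mem_univ _)]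
    _ = 4 := by
        rw [sum_const, card_pl i j hij]
        norm_num

open scoped Classical in
private theorem R3a_irr {d k q : ℕ} (ε : ℝ) (f : Site d k → Fin q) (σ : Stp d) :
    ∑ u : Site d k, (if Rg ε f (u + sv σ) then (0 : ℝ) else 1) = irr ε f := by
  have h1 : ∑ u : Site d k, (if Rg ε f (u + sv σ) then (0 : ℝ) else 1) =
      ∑ v : Site d k, (if Rg ε f v then (0 : ℝ) else 1) :=
    Fintype.sum_equiv (Equiv.addRight (sv σ)) _ _ fun u => rfl
  rw [h1]
  unfold irr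
  rw [card_filter]
  push_cast
  refine sum_congr rfl fun v _ => ?_
  unfold Rg
  by_cases h : c1 ε * (q : ℝ) ≤ (av f v : ℝ)
  · rw [if_pos h, if_neg (not_lt.2 h)]
  · rw [if_neg h, if_pos (not_le.1 h)]

open scoped Classical in
/-- the sum of `|w|` times an indicator of irregularity of `u + σ` -/
private theorem R3a_wirr {d k q : ℕ} (ε : ℝ) (f : Site d k → Fin q) (σ : Stp d) (b : Bool) (w : Site d k → ℝ)
    (hw : ∀ x, |w x| ≤ 1) :
    ∑ u ∈ cls b d k, |w u| * (if Rg ε f (u + sv σ) then (0 : ℝ) else 1) ≤ irr ε f := by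
  rw [← R3a_irr ε f σ]
  refine (sum_le_sum fun u _ => ?_).trans
    (sum_le_sum_of_subset_of_nonneg (subset_univ (cls b d k)) fun _ _ _ => ?_)
  · have h2 : (0 : ℝ) ≤ if Rg ε f (u + sv σ) then (0 : ℝ) else 1 := by split_ifs <;> norm_num
    calc |w u| * (if Rg ε f (u + sv σ) then (0 : ℝ) else 1)
        ≤ 1 * (if Rg ε f (u + sv σ) then (0 : ℝ) else 1) := mul_le_mul_of_nonneg_right (hw u) h2
      _ = _ := one_mul _
  · split_ifs <;> norm_num

open scoped Classical in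
private theorem R3a_fi {ε : ℝ} {d k q : ℕ} (hk : 2 ≤ k) (hq : 1 ≤ q) (c : Fin q) (b : Bool)
    {f : Site d k → Fin q} (hf : Prp f) (u : Site d k) (hu : u ∈ cls b d k) (σ : Stp d) :
    0 ≤ fm (!b) (fun h => if h (u + sv σ) = c then (1 : ℝ) else 0) f ∧
    fm (!b) (fun h => if h (u + sv σ) = c then (1 : ℝ) else 0) f ≤ 1 ∧
    fm (!b) (fun h => if h (u + sv σ) = c then (1 : ℝ) else 0) f ≤
      1 / (c1 ε * q) + (if Rg ε f (u + sv σ) then (0 : ℝ) else 1) := by
  have hv : u + sv σ ∈ cls (!b) d k := (mem_cls_step (by omega) (!b) u σ).2 (by simpa using hu)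
  rw [fm_ind (by omega) (!b) hf _ hv c]
  have h1 := zz_av_le hf (u + sv σ) c
  refine ⟨h1.1, h1.2, ?_⟩
  by_cases hR : Rg ε f (u + sv σ)
  · rw [if_pos hR, add_zero]
    exact zz_reg hq (u + sv σ) hR c
  · rw [if_neg hR]
    have h2 : 0 ≤ 1 / (c1 ε * (q : ℝ)) := by
      have := R3a_c1 ε
      positivity
    linarith [h1.2]

private theorem R3a_mean1 {ε : ℝ} {d k q : ℕ} (hk : 2 ≤ k) (hq : 1 ≤ q) (i j : Fin d) (hij : i ≠ j)
    (c : Fin q) (b : Bool) (w : Site d k → ℝ) (hw : ∀ x, |w x| ≤ 1) {f : Site d k → Fin q} (hf : Prp f) :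
    fm (!b) (fun f => ∑ u ∈ cls b d k, |w u| * (nP i j c f u : ℝ)) f ≤
      4 / (c1 ε * q) * Wt b w + 4 * irr ε f := by
  classical
  rw [fm_sum]
  have h1 : ∀ u ∈ cls b d k, fm (!b) (fun h => |w u| * (nP i j c h u : ℝ)) f ≤
      |w u| * (4 / (c1 ε * q)) + ∑ σ ∈ pl i j, |w u| * (if Rg ε f (u + sv σ) then (0 : ℝ) else 1) := by
    intro u hu
    rw [fm_mul, ← mul_sum, ← mul_add]
    refine mul_le_mul_of_nonneg_left ?_ (abs_nonneg _)
    have h2 : (fun h : Site d k → Fin q => (nP i j c h u : ℝ)) =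
        fun h => ∑ σ ∈ pl i j, (if h (u + sv σ) = c then (1 : ℝ) else 0) := by
      funext h
      exact R3a_nP i j c h u
    rw [h2, fm_sum]
    have h3 : (4 : ℝ) / (c1 ε * q) = ∑ σ ∈ pl i j, 1 / (c1 ε * (q : ℝ)) := by
      rw [sum_const, card_pl i j hij, nsmul_eq_mul]
      push_cast
      ring
    rw [h3, ← sum_add_distrib]
    exact sum_le_sum fun σ _ => (R3a_fi hk hq c b hf u hu σ).2.2
  refine (sum_le_sum h1).trans ?_
  rw [sum_add_distrib, ← sum_mul, sum_comm]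
  have h4 : ∑ σ ∈ pl i j, ∑ u ∈ cls b d k, |w u| * (if Rg ε f (u + sv σ) then (0 : ℝ) else 1) ≤ 4 * irr ε f := by
    refine (sum_le_sum fun σ _ => R3a_wirr ε f σ b w hw).trans ?_
    rw [sum_const, card_pl i j hij, nsmul_eq_mul]
    norm_num
  have h5 : (∑ u ∈ cls b d k, |w u|) * (4 / (c1 ε * q)) = 4 / (c1 ε * q) * Wt b w := by
    unfold Wt
    ring
  rw [h5]
  linarith

private theorem R3a_two_le {d k q : ℕ} (i j : Fin d) (c : Fin q) (f : Site d k → Fin q) (u : Site d k) :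
    (if 2 ≤ nP i j c f u then (1 : ℝ) else 0) ≤
      ∑ p ∈ (pl i j).offDiag, (1 / 2) * ((if f (u + sv p.1) = c then (1 : ℝ) else 0) *
        (if f (u + sv p.2) = c then (1 : ℝ) else 0)) := by
  classical
  have hnn : ∀ p : Stp d × Stp d, (0 : ℝ) ≤ (1 / 2) * ((if f (u + sv p.1) = c then (1 : ℝ) else 0) *
        (if f (u + sv p.2) = c then (1 : ℝ) else 0)) := by
    intro p
    split_ifs <;> norm_num
  by_cases h : 2 ≤ nP i j c f u
  · rw [if_pos h]
    unfold nP at h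
    obtain ⟨a, ha, b, hb, hab⟩ := one_lt_card.1 (show 1 < _ from h)
    rw [mem_filter] at ha hb
    have hsub : ({(a, b), (b, a)} : Finset (Stp d × Stp d)) ⊆ (pl i j).offDiag := by
      intro p hp
      rw [mem_insert, mem_singleton] at hp
      rw [mem_offDiag]
      rcases hp with rfl | rfl
      · exact ⟨ha.1, hb.1, hab⟩
      · exact ⟨hb.1, ha.1, hab.symm⟩
    refine le_trans ?_ (sum_le_sum_of_subset_of_nonneg hsub fun p _ _ => hnn p)
    have hne : ((a, b) : Stp d × Stp d) ≠ (b, a) := by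
      intro h'
      exact hab (congrArg Prod.fst h')
    rw [sum_pair hne]
    simp only [ha.2, hb.2, if_true]
    norm_num
  · rw [if_neg h]
    exact sum_nonneg fun p _ => hnn p

private theorem R3a_mean2 {ε : ℝ} {d k q : ℕ} (hk : 2 ≤ k) (hq : 1 ≤ q) (i j : Fin d) (hij : i ≠ j)
    (c : Fin q) (b : Bool) (w : Site d k → ℝ) (hw : ∀ x, |w x| ≤ 1) {f : Site d k → Fin q} (hf : Prp f) :
    fm (!b) (fun f => ∑ u ∈ cls b d k, |w u| * (if 2 ≤ nP i j c f u then (1 : ℝ) else 0)) f ≤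
      6 / (c1 ε * q) ^ 2 * Wt b w + 12 * irr ε f := by
  classical
  rw [fm_sum]
  have hc := R3a_c1 ε
  have hq' : (0 : ℝ) < q := by exact_mod_cast hq
  have hcard : ((pl i j).offDiag).card = 12 := by
    rw [offDiag_card, card_pl i j hij]
  have h1 : ∀ u ∈ cls b d k, fm (!b) (fun h => |w u| * (if 2 ≤ nP i j c h u then (1 : ℝ) else 0)) f ≤
      |w u| * (6 / (c1 ε * q) ^ 2) + ∑ p ∈ (pl i j).offDiag, (1 / 2) *
        (|w u| * (if Rg ε f (u + sv p.1) then (0 : ℝ) else 1) +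
          |w u| * (if Rg ε f (u + sv p.2) then (0 : ℝ) else 1)) := by
    intro u hu
    rw [fm_mul]
    have h2 : fm (!b) (fun h => if 2 ≤ nP i j c h u then (1 : ℝ) else 0) f ≤
        6 / (c1 ε * q) ^ 2 + ∑ p ∈ (pl i j).offDiag, (1 / 2) *
          ((if Rg ε f (u + sv p.1) then (0 : ℝ) else 1) + (if Rg ε f (u + sv p.2) then (0 : ℝ) else 1)) := by
      refine (fm_mono (!b) hf fun h _ => R3a_two_le i j c h u).trans ?_
      rw [fm_sum]
      have h3 : (6 : ℝ) / (c1 ε * q) ^ 2 = ∑ p ∈ (pl i j).offDiag, (1 / 2) * (1 / (c1 ε * (q : ℝ))) ^ 2 := by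
        rw [sum_const, hcard, nsmul_eq_mul]
        push_cast
        rw [div_pow, one_pow]
        ring
      rw [h3, ← sum_add_distrib]
      refine sum_le_sum fun p hp => ?_
      rw [mem_offDiag] at hp
      rw [fm_mul, ← mul_add]
      refine mul_le_mul_of_nonneg_left ?_ (by norm_num)
      have hne : u + sv p.1 ≠ u + sv p.2 := fun h => hp.2.2 (sv_inj hk (add_left_cancel h))
      have hv1 : u + sv p.1 ∈ cls (!b) d k := (mem_cls_step (by omega) (!b) u p.1).2 (by simpa using hu)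
      have hv2 : u + sv p.2 ∈ cls (!b) d k := (mem_cls_step (by omega) (!b) u p.2).2 (by simpa using hu)
      have h4 := fm_two (by omega) (!b) hf (u + sv p.1) (u + sv p.2) hv1 hv2 hne
        (fun γ => if γ = c then (1 : ℝ) else 0) (fun γ => if γ = c then (1 : ℝ) else 0)
      rw [h4]
      obtain ⟨a1, a2, a3⟩ := R3a_fi (ε := ε) hk hq c b hf u hu p.1
      obtain ⟨b1, b2, b3⟩ := R3a_fi (ε := ε) hk hq c b hf u hu p.2
      have hpos : 0 ≤ 1 / (c1 ε * (q : ℝ)) := by positivity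
      by_cases hR1 : Rg ε f (u + sv p.1)
      · by_cases hR2 : Rg ε f (u + sv p.2)
        · rw [if_pos hR1, add_zero] at a3
          rw [if_pos hR2, add_zero] at b3
          rw [if_pos hR1, if_pos hR2, add_zero, add_zero, pow_two]
          exact mul_le_mul a3 b3 b1 hpos
        · rw [if_pos hR1, if_neg hR2]
          have h5 : 0 ≤ (1 / (c1 ε * (q : ℝ))) ^ 2 := by positivity
          nlinarith
      · rw [if_neg hR1]
        have h5 : 0 ≤ (1 / (c1 ε * (q : ℝ))) ^ 2 := by positivity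
        have h6 : (0 : ℝ) ≤ if Rg ε f (u + sv p.2) then (0 : ℝ) else 1 := by split_ifs <;> norm_num
        nlinarith
    calc |w u| * fm (!b) (fun h => if 2 ≤ nP i j c h u then (1 : ℝ) else 0) f
        ≤ |w u| * (6 / (c1 ε * q) ^ 2 + ∑ p ∈ (pl i j).offDiag, (1 / 2) *
          ((if Rg ε f (u + sv p.1) then (0 : ℝ) else 1) + (if Rg ε f (u + sv p.2) then (0 : ℝ) else 1))) :=
          mul_le_mul_of_nonneg_left h2 (abs_nonneg _)
      _ = _ := by
          rw [mul_add, mul_sum]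
          congr 1
          refine sum_congr rfl fun p _ => ?_
          ring
  refine (sum_le_sum h1).trans ?_
  rw [sum_add_distrib, ← sum_mul, sum_comm]
  have h4 : ∑ p ∈ (pl i j).offDiag, ∑ u ∈ cls b d k, (1 / 2) *
        (|w u| * (if Rg ε f (u + sv p.1) then (0 : ℝ) else 1) +
          |w u| * (if Rg ε f (u + sv p.2) then (0 : ℝ) else 1)) ≤ 12 * irr ε f := by
    have h6 : ∀ p ∈ (pl i j).offDiag, ∑ u ∈ cls b d k, (1 / 2) *
        (|w u| * (if Rg ε f (u + sv p.1) then (0 : ℝ) else 1) +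
          |w u| * (if Rg ε f (u + sv p.2) then (0 : ℝ) else 1)) ≤ irr ε f := by
      intro p _
      rw [← mul_sum, sum_add_distrib]
      have h7 := R3a_wirr ε f p.1 b w hw
      have h8 := R3a_wirr ε f p.2 b w hw
      linarith
    refine (sum_le_sum h6).trans ?_
    rw [sum_const, hcard, nsmul_eq_mul]
    norm_num
  have h5 : (∑ u ∈ cls b d k, |w u|) * (6 / (c1 ε * q) ^ 2) = 6 / (c1 ε * q) ^ 2 * Wt b w := by
    unfold Wt
    ring
  rw [h5]
  linarith

private theorem R3a_fin {N d : ℝ} (hN : 0 < N) (hd : 13 ≤ d) (K : ℕ) {A W : ℝ} {m : ℝ} (hm : 0 ≤ m) (hm' : m ≤ 12)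
    {F M I : ℝ} (h1 : F ≤ M + N / d ^ (K + 1)) (h2 : M ≤ A * W + m * I) (h3 : I ≤ N / d ^ (K + 1)) :
    F ≤ A * W + N / d ^ K := by
  have h4 : (13 : ℝ) * (N / d ^ (K + 1)) ≤ N / d ^ K := by
    have h5 : N / d ^ (K + 1) = (N / d ^ K) / d := by
      rw [pow_succ, div_mul_eq_div_div]
    have h6 : 0 < N / d ^ K := by positivity
    rw [h5, mul_div_assoc', div_le_iff₀ (by linarith)]
    nlinarith
  have h7 : 0 < N / d ^ (K + 1) := by
    have : (0 : ℝ) < d := by linarith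
    positivity
  nlinarith

theorem nP_sum {ε : ℝ} (hε : 0 < ε) (hε1 : ε ≤ 1) (K : ℕ) : WOPi ε Ix fun d k q p f => okx p →
    ∑ u ∈ cls p.1 d k, |p.2.2.2 u| * (nP p.2.1.1 p.2.1.2 p.2.2.1.1 f u : ℝ) ≤
      4 / (c1 ε * q) * Wt p.1 p.2.2.2 + NN d k / (d : ℝ) ^ K := by
  have hK := avail hε hε1 (K + 1)
  have hT := WOPi_tail hε hε1 Ix (fun _ _ _ p => !p.1) (fun _ _ _ p => okx p)
    (fun d k q p f => ∑ u ∈ cls p.1 d k, |p.2.2.2 u| * (nP p.2.1.1 p.2.1.2 p.2.2.1.1 f u : ℝ)) 1 (K + 1)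
    ((EvT_reg hε hε1 4).mono fun d k q hr p hok f hf h hh v hv γ hγ => by
      have h1 := R3a_lip p.2.1.1 p.2.1.2 hok.1 p.2.2.1.1 p.1 p.2.2.2 hok.2.2 (fun n => (n : ℝ))
        (fun m n => le_refl _) f hf h hh v hv γ hγ
      refine h1.trans ?_
      rw [pow_one]
      exact hr.1)
  refine (hT.and (hK.toi Ix)).mono ((EvT_reg hε hε1 13).mono fun d k q hr p f hf hP hok => ?_)
  obtain ⟨hd, hq, hk, -⟩ := hr
  have hk' : 2 ≤ k := by
    have : (2 : ℝ) ≤ k := by linarith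
    exact_mod_cast this
  have hq' : 1 ≤ q := by
    have : (1 : ℝ) ≤ q := by linarith
    exact_mod_cast this
  exact R3a_fin (R3a_NN d k) hd K (m := 4) (by norm_num) (by norm_num) (hP.1 hok)
    (R3a_mean1 hk' hq' p.2.1.1 p.2.1.2 hok.1 p.2.2.1.1 p.1 p.2.2.2 hok.2.2 (R3a_prp hf)) hP.2

theorem nP2_sum {ε : ℝ} (hε : 0 < ε) (hε1 : ε ≤ 1) (K : ℕ) : WOPi ε Ix fun d k q p f => okx p →
    ∑ u ∈ cls p.1 d k, |p.2.2.2 u| * (if 2 ≤ nP p.2.1.1 p.2.1.2 p.2.2.1.1 f u then (1 : ℝ) else 0) ≤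
      6 / (c1 ε * q) ^ 2 * Wt p.1 p.2.2.2 + NN d k / (d : ℝ) ^ K := by
  have hK := avail hε hε1 (K + 1)
  have hφ : ∀ m n : ℕ, |(if 2 ≤ m then (1 : ℝ) else 0) - (if 2 ≤ n then (1 : ℝ) else 0)| ≤ |(m : ℝ) - n| := by
    intro m n
    by_cases hmn : m = n
    · subst hmn
      rw [sub_self, sub_self]
    · have h1 : (1 : ℝ) ≤ |(m : ℝ) - n| := by
        have h2 : (1 : ℤ) ≤ |(m : ℤ) - n| := by
          refine Int.one_le_abs ?_
          omega
        have h3 : ((1 : ℤ) : ℝ) ≤ ((|(m : ℤ) - n| : ℤ) : ℝ) := by exact_mod_cast h2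
        simpa using h3
      refine le_trans ?_ h1
      split_ifs <;> norm_num
  have hT := WOPi_tail hε hε1 Ix (fun _ _ _ p => !p.1) (fun _ _ _ p => okx p)
    (fun d k q p f => ∑ u ∈ cls p.1 d k, |p.2.2.2 u| *
      (if 2 ≤ nP p.2.1.1 p.2.1.2 p.2.2.1.1 f u then (1 : ℝ) else 0)) 1 (K + 1)
    ((EvT_reg hε hε1 4).mono fun d k q hr p hok f hf h hh v hv γ hγ => by
      have h1 := R3a_lip p.2.1.1 p.2.1.2 hok.1 p.2.2.1.1 p.1 p.2.2.2 hok.2.2
        (fun n => if 2 ≤ n then (1 : ℝ) else 0) hφ f hf h hh v hv γ hγ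
      refine h1.trans ?_
      rw [pow_one]
      exact hr.1)
  refine (hT.and (hK.toi Ix)).mono ((EvT_reg hε hε1 13).mono fun d k q hr p f hf hP hok => ?_)
  obtain ⟨hd, hq, hk, -⟩ := hr
  have hk' : 2 ≤ k := by
    have : (2 : ℝ) ≤ k := by linarith
    exact_mod_cast this
  have hq' : 1 ≤ q := by
    have : (1 : ℝ) ≤ q := by linarith
    exact_mod_cast this
  exact R3a_fin (R3a_NN d k) hd K (m := 12) (by norm_num) (by norm_num) (hP.1 hok)
    (R3a_mean2 hk' hq' p.2.1.1 p.2.1.2 hok.1 p.2.2.1.1 p.1 p.2.2.2 hok.2.2 (R3a_prp hf)) hP.2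

end Pool.Agent.THR

end

/-! ### from `Lib_MP_2c424f_thr.R8a` -/

section

/-!
# THR R8a: two more sums (paper proof: R8)

* `one_sum`: `WOPi_tail` for the class `b`: mean `∑_{u ∈ b} |w_u| (z^c + z^c')/x ≤ (2/(c1 q)) W + 2 irr`.
* `two_sum`: `∑_{u ∈ b} |w_u| ∑_{τ ∈ fs} ∑_{ρ ∈ pl} 1[f(u+τ+ρ) ∈ {c,c'}]`, sites of the class `b`; resample `b`: mean
  `≤ ∑_u |w_u| · (2d · 4) · 2/(c1 q) + 16 d · irr`; `16 d/(c1 q) = 8 a/c1`; bounded differences `≤ 16 d`.
-/

set_option autoImplicit false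

open Finset Filter

namespace Pool.Agent.THR

open Pool.Agent.LO Pool.Agent.LIN

/-- number of the sites `u + D t`, `t ∈ T`, with colour `c` or `c'`, weighted sum over the class -/
private noncomputable def R8aPs {d k q : ℕ} {ι : Type} (b : Bool) (w : Site d k → ℝ) (T : Finset ι) (D : ι → Site d k)
    (c c' : Fin q) (f : Site d k → Fin q) : ℝ :=
  ∑ u ∈ cls b d k, |w u| * ∑ t ∈ T,
    ((if f (u + D t) = c then (1 : ℝ) else 0) + (if f (u + D t) = c' then (1 : ℝ) else 0))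

private theorem R8a_c1_pos (ε : ℝ) : 0 < c1 ε := by
  unfold c1
  positivity

private theorem R8a_diff {q : ℕ} (a e c c' : Fin q) :
    |((if a = c then (1 : ℝ) else 0) + (if a = c' then (1 : ℝ) else 0)) -
      ((if e = c then (1 : ℝ) else 0) + (if e = c' then (1 : ℝ) else 0))| ≤ 2 := by
  have h1 : ∀ (x y : Fin q), 0 ≤ (if x = y then (1 : ℝ) else 0) ∧ (if x = y then (1 : ℝ) else 0) ≤ 1 := by
    intro x y
    split_ifs <;> norm_num
  have ha := h1 a c
  have hb := h1 a c'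
  have hc := h1 e c
  have hd := h1 e c'
  rw [abs_le]
  constructor <;> linarith [ha.1, ha.2, hb.1, hb.2, hc.1, hc.2, hd.1, hd.2]

private theorem R8a_lip {d k q : ℕ} {ι : Type} (b : Bool) (w : Site d k → ℝ) (hw : ∀ x, |w x| ≤ 1)
    (T : Finset ι) (D : ι → Site d k) (c c' : Fin q) :
    Lip b (2 * (T.card : ℝ)) (R8aPs b w T D c c') := by
  classical
  intro f _ h _ v _ γ _
  unfold R8aPs
  rw [← Finset.sum_sub_distrib]
  calc |∑ u ∈ cls b d k, (|w u| * ∑ t ∈ T,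
        ((if Function.update h v γ (u + D t) = c then (1 : ℝ) else 0) +
          (if Function.update h v γ (u + D t) = c' then (1 : ℝ) else 0)) -
        |w u| * ∑ t ∈ T, ((if h (u + D t) = c then (1 : ℝ) else 0) + (if h (u + D t) = c' then (1 : ℝ) else 0)))|
      ≤ ∑ u ∈ cls b d k, ∑ t ∈ T, (if u + D t = v then (2 : ℝ) else 0) := by
        refine (Finset.abs_sum_le_sum_abs _ _).trans (Finset.sum_le_sum fun u _ => ?_)
        rw [← mul_sub, ← Finset.sum_sub_distrib, abs_mul, abs_abs]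
        calc |w u| * |∑ t ∈ T, (((if Function.update h v γ (u + D t) = c then (1 : ℝ) else 0) +
              (if Function.update h v γ (u + D t) = c' then (1 : ℝ) else 0)) -
              ((if h (u + D t) = c then (1 : ℝ) else 0) + (if h (u + D t) = c' then (1 : ℝ) else 0)))|
            ≤ 1 * |∑ t ∈ T, (((if Function.update h v γ (u + D t) = c then (1 : ℝ) else 0) +
              (if Function.update h v γ (u + D t) = c' then (1 : ℝ) else 0)) -
              ((if h (u + D t) = c then (1 : ℝ) else 0) + (if h (u + D t) = c' then (1 : ℝ) else 0)))| :=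
              mul_le_mul_of_nonneg_right (hw u) (abs_nonneg _)
          _ ≤ ∑ t ∈ T, (if u + D t = v then (2 : ℝ) else 0) := by
              rw [one_mul]
              refine (Finset.abs_sum_le_sum_abs _ _).trans (Finset.sum_le_sum fun t _ => ?_)
              by_cases hv : u + D t = v
              · rw [if_pos hv]
                exact R8a_diff _ _ _ _
              · rw [if_neg hv, Function.update_of_ne hv, sub_self, abs_zero]
    _ = ∑ t ∈ T, ∑ u ∈ cls b d k, (if u + D t = v then (2 : ℝ) else 0) := Finset.sum_comm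
    _ ≤ ∑ t ∈ T, (2 : ℝ) := by
        refine Finset.sum_le_sum fun t _ => ?_
        have h2 : ∀ u : Site d k, (u + D t = v) = (u = v - D t) := by
          intro u
          exact propext ⟨fun h => by rw [← h, add_sub_cancel_right], fun h => by rw [h, sub_add_cancel]⟩
        simp only [h2]
        rw [Finset.sum_ite_eq']
        split_ifs <;> norm_num
    _ = 2 * (T.card : ℝ) := by
        rw [Finset.sum_const, nsmul_eq_mul, mul_comm]

private theorem R8a_zz {ε : ℝ} {d k q : ℕ} (hq : 1 ≤ q) {f : Site d k → Fin q} (hf : Prp f) (v : Site d k) (c : Fin q) :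
    zz f v c / (av f v : ℝ) ≤ 1 / (c1 ε * q) + (if (av f v : ℝ) < c1 ε * q then (1 : ℝ) else 0) := by
  by_cases h : (av f v : ℝ) < c1 ε * q
  · rw [if_pos h]
    have h1 := (zz_av_le hf v c).2
    have h2 : 0 ≤ 1 / (c1 ε * q) := by
      have := R8a_c1_pos ε
      positivity
    linarith
  · rw [if_neg h, add_zero]
    exact zz_reg hq v (not_lt.mp h) c

private theorem R8a_irr (ε : ℝ) {d k q : ℕ} (b : Bool) (f : Site d k → Fin q) (s : Site d k) :
    ∑ u ∈ cls b d k, (if (av f (u + s) : ℝ) < c1 ε * q then (1 : ℝ) else 0) ≤ irr ε f := by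
  classical
  have h1 : ∑ u : Site d k, (if (av f (u + s) : ℝ) < c1 ε * q then (1 : ℝ) else 0) = irr ε f := by
    have h2 : irr ε f = ∑ x : Site d k, (if (av f x : ℝ) < c1 ε * q then (1 : ℝ) else 0) := by
      unfold irr
      rw [Finset.sum_ite, Finset.sum_const_zero, add_zero, Finset.sum_const, nsmul_eq_mul, mul_one]
    rw [h2]
    exact Fintype.sum_equiv (Equiv.addRight s) _ _ (fun x => by simp)
  rw [← h1]
  refine Finset.sum_le_univ_sum_of_nonneg fun u => ?_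
  split_ifs <;> norm_num

private theorem R8a_mean {ε : ℝ} {d k q : ℕ} {ι : Type} (hk : 1 ≤ k) (hq : 1 ≤ q) (b : Bool) (w : Site d k → ℝ)
    (hw : ∀ x, |w x| ≤ 1) (T : Finset ι) (D : ι → Site d k)
    (hD : ∀ u ∈ cls b d k, ∀ t ∈ T, u + D t ∈ cls b d k) (c c' : Fin q) {f : Site d k → Fin q} (hf : Prp f) :
    fm b (R8aPs b w T D c c') f ≤
      2 * (T.card : ℝ) / (c1 ε * q) * Wt b w + 2 * (T.card : ℝ) * irr ε f := by
  classical
  have hc1 := R8a_c1_pos ε
  have e1 : fm b (R8aPs b w T D c c') f = ∑ u ∈ cls b d k, |w u| * ∑ t ∈ T,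
      (zz f (u + D t) c / (av f (u + D t) : ℝ) + zz f (u + D t) c' / (av f (u + D t) : ℝ)) := by
    unfold R8aPs
    rw [fm_sum b f (cls b d k) (fun u h => |w u| * ∑ t ∈ T,
      ((if h (u + D t) = c then (1 : ℝ) else 0) + (if h (u + D t) = c' then (1 : ℝ) else 0)))]
    refine Finset.sum_congr rfl fun u hu => ?_
    rw [fm_mul, fm_sum b f T (fun t h =>
      ((if h (u + D t) = c then (1 : ℝ) else 0) + (if h (u + D t) = c' then (1 : ℝ) else 0)))]
    congr 1
    refine Finset.sum_congr rfl fun t ht => ?_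
    rw [fm_add b f (fun h => if h (u + D t) = c then (1 : ℝ) else 0)
      (fun h => if h (u + D t) = c' then (1 : ℝ) else 0)]
    rw [fm_ind hk b hf (u + D t) (hD u hu t ht) c, fm_ind hk b hf (u + D t) (hD u hu t ht) c']
  rw [e1]
  have e2 : ∀ u ∈ cls b d k, |w u| * ∑ t ∈ T,
      (zz f (u + D t) c / (av f (u + D t) : ℝ) + zz f (u + D t) c' / (av f (u + D t) : ℝ)) ≤
      2 * (T.card : ℝ) / (c1 ε * q) * |w u| +
        2 * ∑ t ∈ T, (if (av f (u + D t) : ℝ) < c1 ε * q then (1 : ℝ) else 0) := by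
    intro u _
    have e3 : ∑ t ∈ T, (zz f (u + D t) c / (av f (u + D t) : ℝ) + zz f (u + D t) c' / (av f (u + D t) : ℝ)) ≤
        2 * (T.card : ℝ) / (c1 ε * q) +
        2 * ∑ t ∈ T, (if (av f (u + D t) : ℝ) < c1 ε * q then (1 : ℝ) else 0) := by
      have e4 : 2 * (T.card : ℝ) / (c1 ε * q) = ∑ t ∈ T, 2 * (1 / (c1 ε * q)) := by
        rw [Finset.sum_const, nsmul_eq_mul]
        ring
      rw [e4, Finset.mul_sum, ← Finset.sum_add_distrib]
      refine Finset.sum_le_sum fun t _ => ?_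
      have := R8a_zz (ε := ε) hq hf (u + D t) c
      have := R8a_zz (ε := ε) hq hf (u + D t) c'
      linarith
    have e5 : 0 ≤ ∑ t ∈ T, (if (av f (u + D t) : ℝ) < c1 ε * q then (1 : ℝ) else 0) := by
      refine Finset.sum_nonneg fun t _ => ?_
      split_ifs <;> norm_num
    have e6 := mul_le_mul_of_nonneg_left e3 (abs_nonneg (w u))
    have e7 := mul_le_mul_of_nonneg_right (hw u) (mul_nonneg (by norm_num : (0 : ℝ) ≤ 2) e5)
    linarith
  refine (Finset.sum_le_sum e2).trans ?_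
  rw [Finset.sum_add_distrib, ← Finset.mul_sum, ← Finset.mul_sum, Finset.sum_comm]
  have e8 : ∑ t ∈ T, ∑ u ∈ cls b d k, (if (av f (u + D t) : ℝ) < c1 ε * q then (1 : ℝ) else 0) ≤
      (T.card : ℝ) * irr ε f := by
    refine (Finset.sum_le_sum fun t _ => R8a_irr ε b f (D t)).trans ?_
    rw [Finset.sum_const, nsmul_eq_mul]
  unfold Wt
  linarith

private theorem R8a_cls {d k : ℕ} (hk : 1 ≤ k) (b : Bool) {u : Site d k} (hu : u ∈ cls b d k) (σ τ : Stp d) :
    u + (sv σ + sv τ) ∈ cls b d k := by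
  rw [← add_assoc]
  cases b
  · simp only [cls, ods, Bool.false_eq_true, if_false, Finset.mem_filter, Finset.mem_univ, true_and] at hu ⊢
    rw [evn_step hk, evn_step hk, not_not]
    exact hu
  · simp only [cls, evs, if_true, Finset.mem_filter, Finset.mem_univ, true_and] at hu ⊢
    rw [evn_step hk, evn_step hk, not_not]
    exact hu

/-- absorb the error terms -/
private theorem R8a_err {d : ℕ} (N x a : ℝ) (K s : ℕ) (hd : 1 ≤ d) (hN : 0 ≤ N) (ha : 0 ≤ a)
    (hx : x ≤ N / (d : ℝ) ^ (K + 1 + s)) (had : a + 1 ≤ d) :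
    a * (d : ℝ) ^ s * x + N / (d : ℝ) ^ (K + 1) ≤ N / (d : ℝ) ^ K := by
  have hd0 : (0 : ℝ) < d := by exact_mod_cast hd
  have h1 : a * (d : ℝ) ^ s * x ≤ a * (d : ℝ) ^ s * (N / (d : ℝ) ^ (K + 1 + s)) :=
    mul_le_mul_of_nonneg_left hx (by positivity)
  have h2 : a * (d : ℝ) ^ s * (N / (d : ℝ) ^ (K + 1 + s)) = a * (N / (d : ℝ) ^ (K + 1)) := by
    rw [pow_add (d : ℝ) (K + 1) s]
    field_simp
  have h3 : N / (d : ℝ) ^ K = d * (N / (d : ℝ) ^ (K + 1)) := by
    rw [pow_succ]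
    field_simp
  have h4 : 0 ≤ N / (d : ℝ) ^ (K + 1) := by positivity
  have h5 := mul_le_mul_of_nonneg_right had h4
  rw [h3]
  linarith

private theorem R8a_NN (d k : ℕ) : 0 ≤ NN d k := by
  unfold NN
  positivity

theorem one_sum {ε : ℝ} (hε : 0 < ε) (hε1 : ε ≤ 1) (K : ℕ) : WOPi ε Ix fun d k q p f => okx p →
    ∑ u ∈ cls p.1 d k, |p.2.2.2 u| * (if f u = p.2.2.1.1 ∨ f u = p.2.2.1.2 then (1 : ℝ) else 0) ≤
      2 / (c1 ε * q) * Wt p.1 p.2.2.2 + NN d k / (d : ℝ) ^ K := by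
  have h1 := WOPi_tail hε hε1 Ix (fun _ _ _ p => p.1) (fun _ _ _ p => okx p)
    (fun d k q p f => R8aPs p.1 p.2.2.2 (univ : Finset Unit) (fun _ => 0) p.2.2.1.1 p.2.2.1.2 f) 1 (K + 1)
    (by
      refine (EvT_reg hε hε1 3).mono fun d k q h p hp => ?_
      have h2 := R8a_lip p.1 p.2.2.2 hp.2.2 (univ : Finset Unit) (fun _ => 0) p.2.2.1.1 p.2.2.1.2
      intro f hf h' hh v hv γ hγ
      refine (h2 f hf h' hh v hv γ hγ).trans ?_
      rw [pow_one]
      have h3 : ((univ : Finset Unit).card : ℝ) = 1 := by simp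
      rw [h3]
      linarith [h.1])
  refine (h1.and ((avail hε hε1 (K + 1)).toi Ix)).mono ?_
  refine (EvT_reg hε hε1 3).mono fun d k q h p f hf hpf hp => ?_
  obtain ⟨ha, hb⟩ := hpf
  have ha := ha hp
  have hfp : Prp f := by
    simpa [prps] using hf
  have hd : 1 ≤ d := by
    have : (1 : ℝ) ≤ d := by linarith [h.1]
    exact_mod_cast this
  have hq : 1 ≤ q := by
    have : (1 : ℝ) ≤ q := by linarith [h.2.1]
    exact_mod_cast this
  have hk : 1 ≤ k := by
    have : (1 : ℝ) ≤ k := by linarith [h.2.2.1]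
    exact_mod_cast this
  have hm := R8a_mean (ε := ε) hk hq p.1 p.2.2.2 hp.2.2 (univ : Finset Unit) (fun _ => 0)
    (fun u hu t _ => by simpa using hu) p.2.2.1.1 p.2.2.1.2 hfp
  have h3 : ((univ : Finset Unit).card : ℝ) = 1 := by simp
  rw [h3] at hm
  have he := R8a_err (NN d k) (irr ε f) 2 K 0 hd (R8a_NN d k) (by norm_num) (by simpa using hb) (by linarith [h.1])
  have h4 : ∑ u ∈ cls p.1 d k, |p.2.2.2 u| * (if f u = p.2.2.1.1 ∨ f u = p.2.2.1.2 then (1 : ℝ) else 0) ≤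
      R8aPs p.1 p.2.2.2 (univ : Finset Unit) (fun _ => 0) p.2.2.1.1 p.2.2.1.2 f := by
    unfold R8aPs
    refine Finset.sum_le_sum fun u _ => mul_le_mul_of_nonneg_left ?_ (abs_nonneg _)
    simp only [Finset.univ_unique, Finset.sum_singleton, add_zero]
    by_cases hc : f u = p.2.2.1.1
    · rw [if_pos (Or.inl hc), if_pos hc]
      split_ifs <;> norm_num
    · by_cases hc' : f u = p.2.2.1.2
      · rw [if_pos (Or.inr hc'), if_neg hc, if_pos hc']
        norm_num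
      · rw [if_neg (not_or.mpr ⟨hc, hc'⟩), if_neg hc, if_neg hc']
        norm_num
  rw [pow_zero] at he
  have hm' : fm p.1 (R8aPs p.1 p.2.2.2 (univ : Finset Unit) (fun _ => 0) p.2.2.1.1 p.2.2.1.2) f ≤
      2 / (c1 ε * q) * Wt p.1 p.2.2.2 + 2 * irr ε f := by
    simpa using hm
  have ha' : R8aPs p.1 p.2.2.2 (univ : Finset Unit) (fun _ => 0) p.2.2.1.1 p.2.2.1.2 f ≤
      fm p.1 (R8aPs p.1 p.2.2.2 (univ : Finset Unit) (fun _ => 0) p.2.2.1.1 p.2.2.1.2) f +
        NN d k / (d : ℝ) ^ (K + 1) := ha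
  linarith

theorem two_sum {ε : ℝ} (hε : 0 < ε) (hε1 : ε ≤ 1) (K : ℕ) : WOPi ε Ix fun d k q p f => okx p →
    ∑ u ∈ cls p.1 d k, |p.2.2.2 u| * ∑ τ ∈ fs p.2.1.1 p.2.1.2,
      ((nP p.2.1.1 p.2.1.2 p.2.2.1.1 f (u + sv τ) : ℝ) + nP p.2.1.1 p.2.1.2 p.2.2.1.2 f (u + sv τ)) ≤
      8 * A0 ε / c1 ε * Wt p.1 p.2.2.2 + NN d k / (d : ℝ) ^ K := by
  have hcard : ∀ {d : ℕ} (i j : Fin d), i ≠ j →
      ((fs i j ×ˢ pl i j).card : ℝ) ≤ 8 * d := by
    intro d i j hij
    rw [Finset.card_product, card_pl i j hij]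
    have h1 : (fs i j).card ≤ 2 * d := by
      refine (Finset.card_le_univ _).trans ?_
      simp only [Fintype.card_prod, Fintype.card_fin, Fintype.card_bool]
      omega
    have h2 : ((fs i j).card : ℝ) ≤ 2 * d := by exact_mod_cast h1
    push_cast
    linarith
  have h1 := WOPi_tail hε hε1 Ix (fun _ _ _ p => p.1) (fun _ _ _ p => okx p)
    (fun d k q p f => R8aPs p.1 p.2.2.2 (fs p.2.1.1 p.2.1.2 ×ˢ pl p.2.1.1 p.2.1.2)
      (fun s => sv s.1 + sv s.2) p.2.2.1.1 p.2.2.1.2 f) 2 (K + 1)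
    (by
      refine (EvT_reg hε hε1 17).mono fun d k _ h p hp => ?_
      have h2 := R8a_lip p.1 p.2.2.2 hp.2.2 (fs p.2.1.1 p.2.1.2 ×ˢ pl p.2.1.1 p.2.1.2)
        (fun s => (sv s.1 + sv s.2 : Site d k)) p.2.2.1.1 p.2.2.1.2
      intro f hf h' hh v hv γ hγ
      refine (h2 f hf h' hh v hv γ hγ).trans ?_
      have h3 := hcard p.2.1.1 p.2.1.2 hp.1
      have h4 : (16 : ℝ) * d ≤ d ^ 2 := by nlinarith [h.1]
      linarith)
  refine (h1.and ((avail hε hε1 (K + 2)).toi Ix)).mono ?_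
  refine (EvT_reg hε hε1 17).mono fun d k q h p f hf hpf hp => ?_
  obtain ⟨ha, hb⟩ := hpf
  have ha := ha hp
  have hfp : Prp f := by
    simpa [prps] using hf
  have hd : 1 ≤ d := by
    have : (1 : ℝ) ≤ d := by linarith [h.1]
    exact_mod_cast this
  have hq0 : (1 : ℝ) ≤ q := by linarith [h.2.1]
  have hq : 1 ≤ q := by
    exact_mod_cast hq0
  have hk : 1 ≤ k := by
    have : (1 : ℝ) ≤ k := by linarith [h.2.2.1]
    exact_mod_cast this
  have hm := R8a_mean (ε := ε) hk hq p.1 p.2.2.2 hp.2.2 (fs p.2.1.1 p.2.1.2 ×ˢ pl p.2.1.1 p.2.1.2)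
    (fun s => (sv s.1 + sv s.2 : Site d k))
    (fun u hu t _ => R8a_cls hk p.1 hu t.1 t.2) p.2.2.1.1 p.2.2.1.2 hfp
  have h3 := hcard p.2.1.1 p.2.1.2 hp.1
  have he := R8a_err (NN d k) (irr ε f) 16 K 1 hd (R8a_NN d k) (by norm_num) hb (by linarith [h.1])
  have h4 : ∑ u ∈ cls p.1 d k, |p.2.2.2 u| * ∑ τ ∈ fs p.2.1.1 p.2.1.2,
      ((nP p.2.1.1 p.2.1.2 p.2.2.1.1 f (u + sv τ) : ℝ) + nP p.2.1.1 p.2.1.2 p.2.2.1.2 f (u + sv τ)) =
      R8aPs p.1 p.2.2.2 (fs p.2.1.1 p.2.1.2 ×ˢ pl p.2.1.1 p.2.1.2)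
        (fun s => sv s.1 + sv s.2) p.2.2.1.1 p.2.2.1.2 f := by
    unfold R8aPs
    refine Finset.sum_congr rfl fun u _ => ?_
    congr 1
    rw [Finset.sum_product]
    refine Finset.sum_congr rfl fun τ _ => ?_
    rw [Finset.sum_add_distrib]
    simp only [nP, Finset.card_filter, Nat.cast_sum, Nat.cast_ite, Nat.cast_one, Nat.cast_zero, add_assoc]
  rw [h4]
  have hc1 := R8a_c1_pos ε
  have hW : 0 ≤ Wt p.1 p.2.2.2 := Finset.sum_nonneg fun _ _ => abs_nonneg _
  have hirr : 0 ≤ irr ε f := by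
    unfold irr
    positivity
  have h5 : 2 * ((fs p.2.1.1 p.2.1.2 ×ˢ pl p.2.1.1 p.2.1.2).card : ℝ) / (c1 ε * q) ≤ 8 * A0 ε / c1 ε := by
    have h6 : 2 * ((fs p.2.1.1 p.2.1.2 ×ˢ pl p.2.1.1 p.2.1.2).card : ℝ) ≤ 8 * ra d q * q := by
      have := h.2.2.2.2.2.2.2
      linarith
    have h7 : 8 * ra d q * q ≤ 8 * A0 ε * q := by
      have := h.2.2.2.2.2.2.1
      have hq1 : (0 : ℝ) ≤ q := by linarith
      nlinarith
    rw [div_le_div_iff₀ (by positivity) hc1]
    have h8 := mul_le_mul_of_nonneg_right (h6.trans h7) hc1.le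
    linarith
  have h6 := mul_le_mul_of_nonneg_right h5 hW
  have h7 : 2 * ((fs p.2.1.1 p.2.1.2 ×ˢ pl p.2.1.1 p.2.1.2).card : ℝ) * irr ε f ≤ 16 * (d : ℝ) * irr ε f :=
    mul_le_mul_of_nonneg_right (by linarith) hirr
  rw [pow_one] at he
  have ha' : R8aPs p.1 p.2.2.2 (fs p.2.1.1 p.2.1.2 ×ˢ pl p.2.1.1 p.2.1.2)
        (fun s => sv s.1 + sv s.2) p.2.2.1.1 p.2.2.1.2 f ≤
      fm p.1 (R8aPs p.1 p.2.2.2 (fs p.2.1.1 p.2.1.2 ×ˢ pl p.2.1.1 p.2.1.2)
        (fun s => sv s.1 + sv s.2) p.2.2.1.1 p.2.2.1.2) f + NN d k / (d : ℝ) ^ (K + 1) := ha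
  linarith

end Pool.Agent.THR

end

/-! ### from `Lib_MP_2c424f_thr.R3` -/

section

/-!
# THR R3: the sum rule (paper proof: R2, R3, R4)

Index type of the uniform statements: `Ix d k q = Bool × Fin d × Fin d × Fin q × Fin q × (Site d k → ℝ)`.
* `nP_sum`: resample the class `!b`; `∑_{u ∈ b} |w_u| n_c(u) = ∑_u ∑_{σ ∈ pl} |w_u| 1[f(u+σ) = c]`, mean
  `∑∑ |w_u| z/x ≤ (4/(c1 q)) W + 4 irr` (each site is `u + σ` for at most... once per `σ`); bounded differences `≤ 4`.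
* `nP2_sum`: `1[n_c ≥ 2] ≤ ∑_{σ < σ'} 1[..] 1[..]` (6 pairs), mean of a product over two different neighbours
  `≤ 1/(c1 q)² + 1[u+σ irregular] + 1[u+σ' irregular]`; total `≤ 6/(c1 q)² W + 12 irr`.
* `sum_rule`: `WOPi_tail` for `Ψ = ∑_{u ∈ b} w_u GF_u` and for `-Ψ` (a change at `v ∈ b` changes `GF_u` only for `u = v` and for
  `u = v - τ - ρ`: at most `1 + 4d²` summands, each by at most `4 CW`: `κ = 4`), `GF_mean`, `nP_sum`, `nP2_sum`, `avail`:
  `CW [ (8/(c1 q²)) · 2 · (4/(c1 q)) + (6/q) · 2 · 6/(c1 q)² ] = 136 CW/(c1² q³)`.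
-/

set_option autoImplicit false

open Finset Filter

namespace Pool.Agent.THR

open Pool.Agent.LO Pool.Agent.LIN

private theorem R3_c1 (ε : ℝ) : 0 < c1 ε := by
  unfold c1
  have : (0 : ℝ) < (4 : ℝ) ^ (-A0 ε) := Real.rpow_pos_of_pos (by norm_num) _
  positivity

private theorem R3_CW (ε : ℝ) : 0 < CW ε := by
  unfold CW
  exact Real.rpow_pos_of_pos (by norm_num) _

private theorem R3_NN (d k : ℕ) : 0 < NN d k := by
  unfold NN
  positivity

private theorem R3_prp {d k q : ℕ} {f : Site d k → Fin q} (hf : f ∈ prps d k q) : Prp f := by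
  classical
  unfold prps at hf
  exact (mem_filter.1 hf).2

private theorem R3_loc {d k q : ℕ} (ε : ℝ) (i j : Fin d) (c c' : Fin q) (h : Site d k → Fin q) (u v : Site d k)
    (γ : Fin q) (h0 : u ≠ v) (h1 : ∀ σ : Stp d, u + sv σ ≠ v) (h2 : ∀ τ ρ : Stp d, u + sv τ + sv ρ ≠ v) :
    GF ε i j c c' (Function.update h v γ) u = GF ε i j c c' h u := by
  classical
  unfold GF
  rw [VF_far ε i j c c' h u v γ (fun σ _ => h1 σ) (fun τ _ ρ _ _ => h2 τ ρ)]
  have h3 : aF i j (Function.update h v γ) u = aF i j h u := by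
    unfold aF
    congr 1
    refine filter_congr fun x _ => ?_
    refine forall₂_congr fun σ _ => ?_
    rw [Function.update_of_ne (h1 σ)]
  have h4 : sg c c' (Function.update h v γ) u = sg c c' h u := by
    unfold sg
    rw [Function.update_of_ne h0]
  have h5 : ∀ σ : Stp d, sg c c' (Function.update h v γ) (u + sv σ) = sg c c' h (u + sv σ) := by
    intro σ
    unfold sg
    rw [Function.update_of_ne (h1 σ)]
  rw [h3, h4, sum_congr rfl fun σ _ => h5 σ]

private theorem R3_lip {ε : ℝ} (hε : 0 < ε) {d k q : ℕ} (hq : 4 / c1 ε ≤ q) (ha : ra d q ≤ A0 ε)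
    (i j : Fin d) (hij : i ≠ j) (c c' : Fin q) (b : Bool) (w : Site d k → ℝ) (hw : ∀ x, |w x| ≤ 1) :
    Lip b (4 * CW ε * (1 + 2 * d + (2 * d) * (2 * d))) fun f => ∑ u ∈ cls b d k, w u * GF ε i j c c' f u := by
  classical
  intro f hf h hh v hv γ hγ
  have hCW := R3_CW ε
  rw [← sum_sub_distrib]
  refine (abs_sum_le_sum_abs _ _).trans ?_
  calc ∑ u ∈ cls b d k, |(w u * GF ε i j c c' (Function.update h v γ) u - w u * GF ε i j c c' h u)|
      ≤ ∑ u ∈ cls b d k, 4 * CW ε * ((if u = v then (1 : ℝ) else 0) + ∑ σ : Stp d, (if u + sv σ = v then (1 : ℝ) else 0) +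
          ∑ τ : Stp d, ∑ ρ : Stp d, (if u + sv τ + sv ρ = v then (1 : ℝ) else 0)) := by
        refine sum_le_sum fun u _ => ?_
        rw [← mul_sub, abs_mul]
        have hnn1 : (0 : ℝ) ≤ ∑ σ : Stp d, (if u + sv σ = v then (1 : ℝ) else 0) :=
          sum_nonneg fun _ _ => by split_ifs <;> norm_num
        have hnn2 : (0 : ℝ) ≤ ∑ τ : Stp d, ∑ ρ : Stp d, (if u + sv τ + sv ρ = v then (1 : ℝ) else 0) :=
          sum_nonneg fun _ _ => sum_nonneg fun _ _ => by split_ifs <;> norm_num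
        have hnn0 : (0 : ℝ) ≤ (if u = v then (1 : ℝ) else 0) := by split_ifs <;> norm_num
        have hG : |GF ε i j c c' (Function.update h v γ) u - GF ε i j c c' h u| ≤ 4 * CW ε := by
          have g1 := abs_le.1 (GF_bound hε hq ha i j hij c c' (Function.update h v γ) u)
          have g2 := abs_le.1 (GF_bound hε hq ha i j hij c c' h u)
          rw [abs_le]
          constructor <;> linarith [g1.1, g1.2, g2.1, g2.2]
        have hmain : |GF ε i j c c' (Function.update h v γ) u - GF ε i j c c' h u| ≤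
            4 * CW ε * ((if u = v then (1 : ℝ) else 0) + ∑ σ : Stp d, (if u + sv σ = v then (1 : ℝ) else 0) +
              ∑ τ : Stp d, ∑ ρ : Stp d, (if u + sv τ + sv ρ = v then (1 : ℝ) else 0)) := by
          by_cases h0 : u = v
          · refine hG.trans ?_
            rw [if_pos h0]
            nlinarith
          by_cases h1 : ∀ σ : Stp d, u + sv σ ≠ v
          swap
          · push Not at h1
            obtain ⟨σ, hσ⟩ := h1
            refine hG.trans ?_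
            have h3 : (1 : ℝ) ≤ ∑ σ : Stp d, (if u + sv σ = v then (1 : ℝ) else 0) := by
              have := single_le_sum (f := fun σ : Stp d => (if u + sv σ = v then (1 : ℝ) else 0))
                (fun _ _ => by split_ifs <;> norm_num) (mem_univ σ)
              simpa [hσ] using this
            nlinarith
          by_cases h2 : ∀ τ ρ : Stp d, u + sv τ + sv ρ ≠ v
          swap
          · push Not at h2
            obtain ⟨τ, ρ, hτ⟩ := h2
            refine hG.trans ?_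
            have h3 : (1 : ℝ) ≤ ∑ ρ : Stp d, (if u + sv τ + sv ρ = v then (1 : ℝ) else 0) := by
              have := single_le_sum (f := fun ρ : Stp d => (if u + sv τ + sv ρ = v then (1 : ℝ) else 0))
                (fun _ _ => by split_ifs <;> norm_num) (mem_univ ρ)
              simpa [hτ] using this
            have h4 : ∑ ρ : Stp d, (if u + sv τ + sv ρ = v then (1 : ℝ) else 0) ≤
                ∑ τ : Stp d, ∑ ρ : Stp d, (if u + sv τ + sv ρ = v then (1 : ℝ) else 0) :=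
              single_le_sum (f := fun τ : Stp d => ∑ ρ : Stp d, (if u + sv τ + sv ρ = v then (1 : ℝ) else 0))
                (fun _ _ => sum_nonneg fun _ _ => by split_ifs <;> norm_num) (mem_univ τ)
            nlinarith
          rw [R3_loc ε i j c c' h u v γ h0 h1 h2, sub_self, abs_zero]
          positivity
        calc |w u| * |GF ε i j c c' (Function.update h v γ) u - GF ε i j c c' h u|
            ≤ 1 * |GF ε i j c c' (Function.update h v γ) u - GF ε i j c c' h u| :=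
              mul_le_mul_of_nonneg_right (hw u) (abs_nonneg _)
          _ ≤ _ := by
              rw [one_mul]
              exact hmain
    _ ≤ ∑ u : Site d k, 4 * CW ε * ((if u = v then (1 : ℝ) else 0) + ∑ σ : Stp d, (if u + sv σ = v then (1 : ℝ) else 0) +
          ∑ τ : Stp d, ∑ ρ : Stp d, (if u + sv τ + sv ρ = v then (1 : ℝ) else 0)) :=
        sum_le_sum_of_subset_of_nonneg (subset_univ _) fun u _ _ => by
          have hnn1 : (0 : ℝ) ≤ ∑ σ : Stp d, (if u + sv σ = v then (1 : ℝ) else 0) :=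
            sum_nonneg fun _ _ => by split_ifs <;> norm_num
          have hnn2 : (0 : ℝ) ≤ ∑ τ : Stp d, ∑ ρ : Stp d, (if u + sv τ + sv ρ = v then (1 : ℝ) else 0) :=
            sum_nonneg fun _ _ => sum_nonneg fun _ _ => by split_ifs <;> norm_num
          have hnn0 : (0 : ℝ) ≤ (if u = v then (1 : ℝ) else 0) := by split_ifs <;> norm_num
          positivity
    _ = 4 * CW ε * (1 + 2 * d + (2 * d) * (2 * d)) := by
        rw [← mul_sum, sum_add_distrib, sum_add_distrib]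
        have e0 : ∑ u : Site d k, (if u = v then (1 : ℝ) else 0) = 1 := by
          rw [sum_ite_eq' univ v fun _ => (1 : ℝ), if_pos (mem_univ _)]
        have hcard : (Fintype.card (Stp d) : ℝ) = 2 * d := by
          rw [Fintype.card_prod, Fintype.card_fin, Fintype.card_bool]
          push_cast
          ring
        have e1 : ∑ u : Site d k, ∑ σ : Stp d, (if u + sv σ = v then (1 : ℝ) else 0) = 2 * d := by
          rw [sum_comm, ← hcard, ← Finset.card_univ, ← nsmul_one, ← sum_const]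
          refine sum_congr rfl fun σ _ => ?_
          have h3 : ∀ u : Site d k, (u + sv σ = v) ↔ u = v - sv σ := fun u => eq_sub_iff_add_eq.symm
          simp_rw [h3]
          rw [sum_ite_eq' univ (v - sv σ) fun _ => (1 : ℝ), if_pos (mem_univ _)]
        have e2 : ∑ u : Site d k, ∑ τ : Stp d, ∑ ρ : Stp d, (if u + sv τ + sv ρ = v then (1 : ℝ) else 0) =
            (2 * d) * (2 * d) := by
          rw [sum_comm]
          have e3 : ∀ τ : Stp d, ∑ u : Site d k, ∑ ρ : Stp d, (if u + sv τ + sv ρ = v then (1 : ℝ) else 0) = 2 * d := by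
            intro τ
            rw [← e1]
            exact Fintype.sum_equiv (Equiv.addRight (sv τ)) _ _ fun u => rfl
          rw [sum_congr rfl fun τ _ => e3 τ, sum_const, Finset.card_univ, nsmul_eq_mul, hcard]
        rw [e0, e1, e2]

private theorem R3_mean {ε : ℝ} (hε : 0 < ε) {d k q : ℕ} (hk : 2 ≤ k) (hq : 8 / c1 ε ≤ q) (ha : ra d q ≤ A0 ε)
    (i j : Fin d) (hij : i ≠ j) (c c' : Fin q) (hc : c ≠ c') (b : Bool) (w : Site d k → ℝ) {f : Site d k → Fin q}
    (hf : Prp f) :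
    fm b (fun h => ∑ u ∈ cls b d k, w u * GF ε i j c c' h u) f ≤ CW ε *
      (8 / (c1 ε * q ^ 2) * (∑ u ∈ cls b d k, |w u| * (nP i j c f u : ℝ) + ∑ u ∈ cls b d k, |w u| * (nP i j c' f u : ℝ)) +
        6 / q * (∑ u ∈ cls b d k, |w u| * (if 2 ≤ nP i j c f u then (1 : ℝ) else 0) +
          ∑ u ∈ cls b d k, |w u| * (if 2 ≤ nP i j c' f u then (1 : ℝ) else 0))) := by
  classical
  rw [fm_sum]
  have h1 : ∀ u ∈ cls b d k, fm b (fun h => w u * GF ε i j c c' h u) f ≤ CW ε *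
      (8 / (c1 ε * q ^ 2) * (|w u| * (nP i j c f u : ℝ) + |w u| * (nP i j c' f u : ℝ)) +
        6 / q * (|w u| * (if 2 ≤ nP i j c f u then (1 : ℝ) else 0) +
          |w u| * (if 2 ≤ nP i j c' f u then (1 : ℝ) else 0))) := by
    intro u hu
    rw [fm_mul]
    refine (le_abs_self _).trans ?_
    rw [abs_mul]
    have h2 := GF_mean hε hk hq ha i j hij c c' hc b hf u hu
    calc |w u| * |fm b (fun h => GF ε i j c c' h u) f|
        ≤ |w u| * (CW ε * (8 / (c1 ε * q ^ 2) * ((nP i j c f u : ℝ) + nP i j c' f u) +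
        6 / q * ((if 2 ≤ nP i j c f u then (1 : ℝ) else 0) + (if 2 ≤ nP i j c' f u then (1 : ℝ) else 0)))) :=
          mul_le_mul_of_nonneg_left h2 (abs_nonneg _)
      _ = _ := by ring
  refine (sum_le_sum h1).trans (le_of_eq ?_)
  rw [← mul_sum, sum_add_distrib, ← mul_sum, ← mul_sum, sum_add_distrib, sum_add_distrib]

private theorem R3_fin {N d q C e : ℝ} (hN : 0 < N) (hd : 2 ≤ d) (hC : 0 < C) (he : 0 < e) (hq : 0 < q)
    (hq1 : 8 / e ≤ q) (hq2 : 14 * C ≤ q) (K : ℕ) {W F M S1 S2 T1 T2 : ℝ}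
    (h1 : F ≤ M + N / d ^ (K + 1)) (h2 : M ≤ C * (8 / (e * q ^ 2) * (S1 + S2) + 6 / q * (T1 + T2)))
    (hS1 : S1 ≤ 4 / (e * q) * W + N / d ^ (K + 1)) (hS2 : S2 ≤ 4 / (e * q) * W + N / d ^ (K + 1))
    (hT1 : T1 ≤ 6 / (e * q) ^ 2 * W + N / d ^ (K + 1)) (hT2 : T2 ≤ 6 / (e * q) ^ 2 * W + N / d ^ (K + 1)) :
    F ≤ 136 * C / e ^ 2 / q ^ 3 * W + N / d ^ K := by
  have hx : 0 < N / d ^ (K + 1) := by
    have : (0 : ℝ) < d := by linarith
    positivity
  have h4 : 2 * (N / d ^ (K + 1)) ≤ N / d ^ K := by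
    have h5 : N / d ^ (K + 1) = (N / d ^ K) / d := by
      rw [pow_succ, div_mul_eq_div_div]
    have h6 : 0 < N / d ^ K := by
      have : (0 : ℝ) < d := by linarith
      positivity
    rw [h5, mul_div_assoc', div_le_iff₀ (by linarith)]
    nlinarith
  obtain ⟨x, hx'⟩ : ∃ x, x = N / d ^ (K + 1) := ⟨_, rfl⟩
  rw [← hx'] at h1 hS1 hS2 hT1 hT2 hx h4
  have h7 : M ≤ C * (8 / (e * q ^ 2) * (2 * (4 / (e * q) * W + x)) + 6 / q * (2 * (6 / (e * q) ^ 2 * W + x))) := by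
    refine h2.trans (mul_le_mul_of_nonneg_left ?_ hC.le)
    refine add_le_add (mul_le_mul_of_nonneg_left ?_ (by positivity)) (mul_le_mul_of_nonneg_left ?_ (by positivity)) <;>
      linarith
  have h8 : C * (8 / (e * q ^ 2) * (2 * (4 / (e * q) * W + x)) + 6 / q * (2 * (6 / (e * q) ^ 2 * W + x))) =
      136 * C / e ^ 2 / q ^ 3 * W + C * (16 / (e * q ^ 2) + 12 / q) * x := by
    field_simp
    ring
  have h9 : C * (16 / (e * q ^ 2) + 12 / q) ≤ 1 := by
    have h10 : 16 / (e * q ^ 2) ≤ 2 / q := by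
      rw [div_le_div_iff₀ (by positivity) hq]
      rw [div_le_iff₀ he] at hq1
      nlinarith [mul_pos he hq]
    have h11 : C * (16 / (e * q ^ 2) + 12 / q) ≤ C * (14 / q) := by
      refine mul_le_mul_of_nonneg_left ?_ hC.le
      have : (14 : ℝ) / q = 2 / q + 12 / q := by rw [← add_div]; norm_num
      linarith
    refine h11.trans ?_
    rw [mul_div_assoc', div_le_one hq]
    linarith
  have h12 : C * (16 / (e * q ^ 2) + 12 / q) * x ≤ 1 * x := mul_le_mul_of_nonneg_right h9 hx.le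
  linarith

private theorem R3_half {ε : ℝ} (hε : 0 < ε) (hε1 : ε ≤ 1) (K : ℕ) : WOPi ε Ix fun d k q p f => okx p →
    ∑ u ∈ cls p.1 d k, p.2.2.2 u * GF ε p.2.1.1 p.2.1.2 p.2.2.1.1 p.2.2.1.2 f u ≤
      C2 ε / (q : ℝ) ^ 3 * Wt p.1 p.2.2.2 + NN d k / (d : ℝ) ^ K := by
  have hCW := R3_CW ε
  have hc1 := R3_c1 ε
  have hT := WOPi_tail hε hε1 Ix (fun _ _ _ p => p.1) (fun _ _ _ p => okx p)
    (fun d k q p f => ∑ u ∈ cls p.1 d k, p.2.2.2 u * GF ε p.2.1.1 p.2.1.2 p.2.2.1.1 p.2.2.1.2 f u) 4 (K + 1)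
    ((EvT_reg hε hε1 (28 * CW ε + 4 / c1 ε + 1)).mono fun d k q hr p hok f hf h hh v hv γ hγ => by
      have hpos : 0 < 4 / c1 ε := by positivity
      have hq : 4 / c1 ε ≤ q := by linarith [hr.2.1]
      have ha : ra d q ≤ A0 ε := hr.2.2.2.2.2.2.1
      have h1 := R3_lip hε hq ha p.2.1.1 p.2.1.2 hok.1 p.2.2.1.1 p.2.2.1.2 p.1 p.2.2.2 hok.2.2
        f hf h hh v hv γ hγ
      refine h1.trans ?_
      have hd1 : (1 : ℝ) ≤ d := by linarith [hr.1]
      have hd2 : 28 * CW ε ≤ (d : ℝ) := by linarith [hr.1]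
      have hd3 : (d : ℝ) ≤ (d : ℝ) ^ 2 := by nlinarith
      have hd4 : (1 : ℝ) ≤ (d : ℝ) ^ 2 := by nlinarith
      have h5 : 4 * CW ε * (1 + 2 * (d : ℝ) + (2 * d) * (2 * d)) ≤ 4 * CW ε * (7 * (d : ℝ) ^ 2) := by
        refine mul_le_mul_of_nonneg_left ?_ (by positivity)
        nlinarith
      refine h5.trans ?_
      have h6 : (d : ℝ) ^ 4 = (d : ℝ) ^ 2 * (d : ℝ) ^ 2 := by ring
      rw [h6]
      have h7 : 28 * CW ε ≤ (d : ℝ) ^ 2 := hd2.trans hd3
      nlinarith)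
  have hS := nP_sum hε hε1 (K + 1)
  have hS' := hS.comap (ι' := Ix) fun _ _ _ p => (p.1, p.2.1, (p.2.2.1.2, p.2.2.1.1), p.2.2.2)
  have hR := nP2_sum hε hε1 (K + 1)
  have hR' := hR.comap (ι' := Ix) fun _ _ _ p => (p.1, p.2.1, (p.2.2.1.2, p.2.2.1.1), p.2.2.2)
  refine ((hT.and (hS.and hS')).and (hR.and hR')).mono
    ((EvT_reg hε hε1 (14 * CW ε + 8 / c1 ε + 2)).mono fun d k q hr p f hf hP hok => ?_)
  have hpos : 0 < 8 / c1 ε := by positivity
  have hd : (2 : ℝ) ≤ d := by linarith [hr.1]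
  have hq1 : 8 / c1 ε ≤ q := by linarith [hr.2.1]
  have hq2 : 14 * CW ε ≤ q := by linarith [hr.2.1]
  have hq3 : (0 : ℝ) < q := by linarith
  have hk : 2 ≤ k := by
    have : (2 : ℝ) ≤ k := by linarith [hr.2.2.1]
    exact_mod_cast this
  have ha : ra d q ≤ A0 ε := hr.2.2.2.2.2.2.1
  have hok' : okx ((p.1, p.2.1, (p.2.2.1.2, p.2.2.1.1), p.2.2.2) : Ix d k q) := ⟨hok.1, hok.2.1.symm, hok.2.2⟩
  obtain ⟨⟨hA, hB, hC⟩, hD, hE⟩ := hP
  exact R3_fin (R3_NN d k) hd hCW hc1 hq3 hq1 hq2 K (hA hok)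
    (R3_mean hε hk hq1 ha p.2.1.1 p.2.1.2 hok.1 p.2.2.1.1 p.2.2.1.2 hok.2.1 p.1 p.2.2.2 (R3_prp hf))
    (hB hok) (hC hok') (hD hok) (hE hok')

/-- the sum rule -/
theorem sum_rule {ε : ℝ} (hε : 0 < ε) (hε1 : ε ≤ 1) (K : ℕ) : WOPi ε Ix fun d k q p f => okx p →
    |∑ u ∈ cls p.1 d k, p.2.2.2 u * GF ε p.2.1.1 p.2.1.2 p.2.2.1.1 p.2.2.1.2 f u| ≤
      C2 ε / (q : ℝ) ^ 3 * Wt p.1 p.2.2.2 + NN d k / (d : ℝ) ^ K := by
  have h1 := R3_half hε hε1 K
  have h2 := h1.comap (ι' := Ix) fun _ _ _ p => (p.1, p.2.1, p.2.2.1, fun x => -p.2.2.2 x)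
  refine (h1.and h2).mono ((EvT_reg hε hε1 0).mono fun d k q _ p f _ hP hok => ?_)
  obtain ⟨hA, hB⟩ := hP
  have hok' : okx ((p.1, p.2.1, p.2.2.1, fun x => -p.2.2.2 x) : Ix d k q) :=
    ⟨hok.1, hok.2.1, fun x => by
      show |(-p.2.2.2 x)| ≤ 1
      rw [abs_neg]
      exact hok.2.2 x⟩
  have hA' := hA hok
  have hB' := hB hok'
  have hW : Wt p.1 (fun x => -p.2.2.2 x) = Wt p.1 p.2.2.2 := by
    unfold Wt
    exact sum_congr rfl fun u _ => abs_neg _
  have hB'' : -(∑ u ∈ cls p.1 d k, p.2.2.2 u * GF ε p.2.1.1 p.2.1.2 p.2.2.1.1 p.2.2.1.2 f u) ≤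
      C2 ε / (q : ℝ) ^ 3 * Wt p.1 p.2.2.2 + NN d k / (d : ℝ) ^ K := by
    rw [← hW, ← sum_neg_distrib]
    refine le_trans (le_of_eq ?_) hB'
    refine sum_congr rfl fun u _ => ?_
    show -(p.2.2.2 u * _) = -p.2.2.2 u * _
    rw [neg_mul]
  exact abs_le.2 ⟨by linarith, hA'⟩

end Pool.Agent.THR

end

/-! ### from `Lib_MP_2c424f_thr.R6` -/

section

/-!
# THR R6: the sum over one direction (paper proof: R6)

`C` = exponent of `sum_rule` for `K`, `l₀ = 1/d^(C+1)`, `l = ± l₀`.  For every `p`: on the good event of `sum_rule`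
`|∑ wP GF| ≤ (C2/q³) Wt (wP p) + N/d^K`, off it `≤ 2 CW N` (`GF_bound`), so
`∑_f exp (l ∑ wP GF) ≤ Z · (exp (l₀ (..)) + exp (2 CW l₀ N - N/d^C)) ≤ 2 Z exp (l₀ (..))` (`2 CW ≤ d`).
With `TF_moment`, `wP_sum`, `card_Yf` (`m² |Yf| = N`), `m = 2^k`:
`∑_f exp (l ∑ w TF) ≤ Z · q^(N/(2m)) · 2 · exp (l₀ ((C2/(4q³)) W + N/(4 d^K)))`.  Markov at level `(C2/q³) W + N/d^K`:
`≤ Z q^(N/(2m)) 2 exp (-(3/4) l₀ N/d^K) ≤ Z exp (-N/d^(C+K+2))` for `k` large (`q^(N/2m) = exp (N log q/(2m))`).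
-/

set_option autoImplicit false

open Finset Filter

namespace Pool.Agent.THR

open Pool.Agent.LO Pool.Agent.LIN

/-- parameters with a step -/
abbrev Ixs (d k q : ℕ) : Type := Ix d k q × Stp d

private theorem R6_CW (ε : ℝ) : 0 < CW ε := by
  unfold CW
  exact Real.rpow_pos_of_pos (by norm_num) _

private theorem R6_c1 (ε : ℝ) : 0 < c1 ε := by
  unfold c1
  have : (0 : ℝ) < (4 : ℝ) ^ (-A0 ε) := Real.rpow_pos_of_pos (by norm_num) _
  positivity

private theorem R6_NN (d k : ℕ) : 0 < NN d k := by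
  unfold NN
  positivity

private theorem R6_C2 (ε : ℝ) : 0 ≤ C2 ε := by
  unfold C2
  have := R6_CW ε
  positivity

private theorem R6_cls (b : Bool) (d k : ℕ) : ((cls b d k).card : ℝ) ≤ NN d k := by
  classical
  have h1 : (cls b d k).card ≤ Fintype.card (Site d k) := card_le_univ _
  have h2 : Fintype.card (Site d k) = (2 ^ k) ^ d := by
    show Fintype.card (Fin d → ZMod (2 ^ k)) = _
    rw [Fintype.card_fun, ZMod.card, Fintype.card_fin]
  rw [h2] at h1
  unfold NN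
  exact_mod_cast h1

/-- the moment of the summands `GF` -/
private theorem R6_one {d k q : ℕ} {ε : ℝ} (hε : 0 < ε) (hq : 4 / c1 ε ≤ q) (ha : ra d q ≤ A0 ε)
    (hd1 : 1 ≤ d) (hd : 2 * CW ε ≤ d) (C K : ℕ) (i j : Fin d) (hij : i ≠ j) (c c' : Fin q) (b : Bool)
    (w : Site d k → ℝ) (hw : ∀ x, |w x| ≤ 1) (l : ℝ) (hl : |l| = 1 / (d : ℝ) ^ (C + 1))
    (hR : Rar C d k q fun f => ¬ |∑ u ∈ cls b d k, w u * GF ε i j c c' f u| ≤
      C2 ε / (q : ℝ) ^ 3 * Wt b w + NN d k / (d : ℝ) ^ K) :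
    ∑ f ∈ prps d k q, Real.exp (l * ∑ v ∈ cls b d k, w v * GF ε i j c c' f v) ≤
      2 * ZZ d k q * Real.exp (1 / (d : ℝ) ^ (C + 1) * (C2 ε / (q : ℝ) ^ 3 * Wt b w + NN d k / (d : ℝ) ^ K)) := by
  classical
  set L : ℝ := C2 ε / (q : ℝ) ^ 3 * Wt b w + NN d k / (d : ℝ) ^ K with hL
  set l0 : ℝ := 1 / (d : ℝ) ^ (C + 1) with hl0
  have hdR : (1 : ℝ) ≤ d := by exact_mod_cast hd1
  have hd0 : (0 : ℝ) < d := by linarith
  have hl0p : 0 < l0 := by positivity
  have hN := R6_NN d k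
  have hWt : 0 ≤ Wt b w := by
    unfold Wt
    exact sum_nonneg fun _ _ => abs_nonneg _
  have hC2 := R6_C2 ε
  have hLp : 0 ≤ L := by
    have h1 : 0 ≤ C2 ε / (q : ℝ) ^ 3 * Wt b w := by positivity
    have h2 : 0 ≤ NN d k / (d : ℝ) ^ K := by positivity
    linarith
  set S : (Site d k → Fin q) → ℝ := fun f => ∑ v ∈ cls b d k, w v * GF ε i j c c' f v with hS
  have hSall : ∀ f, |S f| ≤ 2 * CW ε * NN d k := by
    intro f
    calc |S f| ≤ ∑ v ∈ cls b d k, |w v * GF ε i j c c' f v| := abs_sum_le_sum_abs _ _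
      _ ≤ ∑ v ∈ cls b d k, 2 * CW ε := by
          refine sum_le_sum fun v _ => ?_
          rw [abs_mul]
          have h1 := GF_bound hε hq ha i j hij c c' f v
          calc |w v| * |GF ε i j c c' f v| ≤ 1 * (2 * CW ε) :=
                mul_le_mul (hw v) h1 (abs_nonneg _) (by norm_num)
            _ = _ := one_mul _
      _ = 2 * CW ε * ((cls b d k).card : ℝ) := by
          rw [sum_const, nsmul_eq_mul]
          ring
      _ ≤ 2 * CW ε * NN d k := mul_le_mul_of_nonneg_left (R6_cls b d k) (by have := R6_CW ε; positivity)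
  have hlS : ∀ f, l * S f ≤ l0 * |S f| := by
    intro f
    calc l * S f ≤ |l * S f| := le_abs_self _
      _ = l0 * |S f| := by rw [abs_mul, hl]
  -- split
  have hsplit : ∑ f ∈ prps d k q, Real.exp (l * S f) ≤
      ∑ f ∈ prps d k q, (Real.exp (l0 * L) + if ¬ |S f| ≤ L then Real.exp (l0 * (2 * CW ε * NN d k)) else 0) := by
    refine sum_le_sum fun f _ => ?_
    by_cases h : |S f| ≤ L
    · rw [if_neg (not_not.2 h), add_zero]
      exact Real.exp_le_exp.2 ((hlS f).trans (mul_le_mul_of_nonneg_left h hl0p.le))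
    · rw [if_pos h]
      have h1 : Real.exp (l * S f) ≤ Real.exp (l0 * (2 * CW ε * NN d k)) :=
        Real.exp_le_exp.2 ((hlS f).trans (mul_le_mul_of_nonneg_left (hSall f) hl0p.le))
      have h2 := Real.exp_pos (l0 * L)
      linarith
  refine hsplit.trans ?_
  rw [sum_add_distrib, sum_const, nsmul_eq_mul, ← sum_filter, sum_const, nsmul_eq_mul]
  have hcard : (((prps d k q).filter fun f => ¬ |S f| ≤ L).card : ℝ) ≤
      ZZ d k q * Real.exp (-(NN d k / (d : ℝ) ^ C)) := by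
    unfold Rar at hR
    refine le_trans (le_of_eq ?_) hR
    congr 2
    ext f
    simp only [mem_filter, hS]
  have hZ : 0 ≤ ZZ d k q := by
    unfold ZZ
    positivity
  have h3 : l0 * (2 * CW ε * NN d k) ≤ NN d k / (d : ℝ) ^ C := by
    have h4 : NN d k / (d : ℝ) ^ C = l0 * (d * NN d k) := by
      rw [hl0, pow_succ]
      field_simp
    rw [h4]
    exact mul_le_mul_of_nonneg_left (mul_le_mul_of_nonneg_right hd hN.le) hl0p.le
  have h5 : (((prps d k q).filter fun f => ¬ |S f| ≤ L).card : ℝ) * Real.exp (l0 * (2 * CW ε * NN d k)) ≤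
      ZZ d k q * Real.exp (l0 * L) := by
    calc (((prps d k q).filter fun f => ¬ |S f| ≤ L).card : ℝ) * Real.exp (l0 * (2 * CW ε * NN d k))
        ≤ (ZZ d k q * Real.exp (-(NN d k / (d : ℝ) ^ C))) * Real.exp (l0 * (2 * CW ε * NN d k)) :=
          mul_le_mul_of_nonneg_right hcard (Real.exp_pos _).le
      _ = ZZ d k q * Real.exp (-(NN d k / (d : ℝ) ^ C) + l0 * (2 * CW ε * NN d k)) := by
          rw [mul_assoc, ← Real.exp_add]
      _ ≤ ZZ d k q * Real.exp (l0 * L) := by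
          refine mul_le_mul_of_nonneg_left (Real.exp_le_exp.2 ?_) hZ
          have : 0 ≤ l0 * L := mul_nonneg hl0p.le hLp
          linarith
  have h6 : ((prps d k q).card : ℝ) = ZZ d k q := rfl
  rw [h6]
  linarith

/-- the moment of the summands `TF` -/
private theorem R6_two {d k q : ℕ} (hk : 1 ≤ k) (hq : 0 < q) {ε : ℝ} (i j : Fin d) (hij : i ≠ j) (c c' : Fin q)
    (b : Bool) (w : Site d k → ℝ) (hw : ∀ x, ¬ pev i j x → w x = 0) (σ : Stp d) (hσ : σ ∈ pl i j) (l l0 A B : ℝ)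
    (h : ∀ p ∈ evp k, ∑ f ∈ prps d k q, Real.exp (l * ∑ v ∈ cls b d k, wP i j w p v * GF ε i j c c' f v) ≤
      2 * ZZ d k q * Real.exp (l0 * (A * Wt b (wP i j w p) + B))) :
    ∑ f ∈ prps d k q, Real.exp (l * ∑ u ∈ cls b d k, w u * TF ε i j c c' σ f u) ≤
      ZZ d k q * Real.exp (NN d k * Real.log q / (2 * 2 ^ k) + Real.log 2 + l0 * (A * Wt b w + B) / 4) := by
  classical
  set m : ℝ := (2 : ℝ) ^ k with hm
  have hm1 : 1 ≤ m := one_le_pow₀ (by norm_num)
  have hm0 : 0 < m := by linarith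
  have hZ : 0 ≤ ZZ d k q := by
    unfold ZZ
    positivity
  have hmom := TF_moment hk ε l i j hij c c' b w hw σ hσ
  obtain ⟨hs1, hs2⟩ := wP_sum hk i j hij b w hw
  have hY := card_Yf (k := k) i j hij
  have hE : (2 * (2 ^ k) ^ 2 : ℕ) ≠ 0 := by positivity
  refine (pow_le_pow_iff_left₀ (sum_nonneg fun _ _ => (Real.exp_pos _).le)
    (mul_nonneg hZ (Real.exp_pos _).le) hE).1 ?_
  refine hmom.trans ?_
  have hprod : ∏ p ∈ evp k, ∑ f ∈ prps d k q, Real.exp (l * ∑ v ∈ cls b d k, wP i j w p v * GF ε i j c c' f v) ≤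
      ∏ p ∈ evp k, (2 * ZZ d k q * Real.exp (l0 * (A * Wt b (wP i j w p) + B))) :=
    prod_le_prod (fun _ _ => sum_nonneg fun _ _ => (Real.exp_pos _).le) h
  have hq0 : (0 : ℝ) < q := by exact_mod_cast hq
  refine (mul_le_mul_of_nonneg_left hprod (by positivity)).trans ?_
  rw [prod_mul_distrib, prod_const, mul_pow, ← Real.exp_sum]
  have hsum : ∑ p ∈ evp k, l0 * (A * Wt b (wP i j w p) + B) = l0 * (m ^ 2 / 2 * (A * Wt b w + B)) := by
    rw [← mul_sum, sum_add_distrib, ← mul_sum, hs1, sum_const, nsmul_eq_mul, hs2]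
    ring
  rw [hsum]
  have hcardle : (evp k).card ≤ 2 * (2 ^ k) ^ 2 := by
    have h1 : ((evp k).card : ℝ) ≤ ((2 * (2 ^ k) ^ 2 : ℕ) : ℝ) := by
      rw [hs2]
      push_cast
      nlinarith [sq_nonneg ((2 : ℝ) ^ k)]
    exact_mod_cast h1
  have hZpow : ZZ d k q ^ (2 * (2 ^ k) ^ 2 - (evp k).card) * ZZ d k q ^ (evp k).card =
      ZZ d k q ^ (2 * (2 ^ k) ^ 2) := by
    rw [← pow_add, Nat.sub_add_cancel hcardle]
  have e1 : ((q : ℝ) ^ Fintype.card (Yf i j k)) ^ ((2 ^ k) ^ 3) = Real.exp (NN d k * m * Real.log q) := by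
    rw [← pow_mul, ← Real.exp_log (pow_pos hq0 _), Real.log_pow]
    congr 1
    push_cast
    rw [← hY]
    ring
  have e2 : (2 : ℝ) ^ (evp k).card = Real.exp (m ^ 2 / 2 * Real.log 2) := by
    rw [← Real.exp_log (pow_pos (by norm_num : (0 : ℝ) < 2) (evp k).card), Real.log_pow, hs2]
  rw [e1, e2]
  have e3 : Real.exp (NN d k * m * Real.log q) * ZZ d k q ^ (2 * (2 ^ k) ^ 2 - (evp k).card) *
      (Real.exp (m ^ 2 / 2 * Real.log 2) * ZZ d k q ^ (evp k).card *
        Real.exp (l0 * (m ^ 2 / 2 * (A * Wt b w + B)))) =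
      ZZ d k q ^ (2 * (2 ^ k) ^ 2) * Real.exp (NN d k * m * Real.log q + m ^ 2 / 2 * Real.log 2 +
        l0 * (m ^ 2 / 2 * (A * Wt b w + B))) := by
    rw [← hZpow, Real.exp_add, Real.exp_add]
    ring
  rw [e3, mul_pow, ← Real.exp_nat_mul]
  refine mul_le_mul_of_nonneg_left (Real.exp_le_exp.2 ?_) (by positivity)
  push_cast
  have hlog2 : 0 < Real.log 2 := Real.log_pos (by norm_num)
  have e4 : 2 * ((2 : ℝ) ^ k) ^ 2 * (NN d k * Real.log q / (2 * 2 ^ k) + Real.log 2 + l0 * (A * Wt b w + B) / 4) =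
      NN d k * m * Real.log q + 2 * m ^ 2 * Real.log 2 + l0 * (m ^ 2 / 2 * (A * Wt b w + B)) := by
    rw [← hm]
    field_simp
    ring
  rw [e4]
  nlinarith [mul_pos (pow_pos hm0 2) hlog2]

/-- Markov -/
private theorem R6_mark {d k q : ℕ} (T : (Site d k → Fin q) → ℝ) (l0 L R : ℝ) (hl0 : 0 ≤ l0)
    (h1 : ∑ f ∈ prps d k q, Real.exp (l0 * T f) ≤ ZZ d k q * Real.exp R)
    (h2 : ∑ f ∈ prps d k q, Real.exp (-l0 * T f) ≤ ZZ d k q * Real.exp R) (P : (Site d k → Fin q) → Prop)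
    [DecidablePred P] (hP : ∀ f, P f → ¬ |T f| ≤ L) :
    (((prps d k q).filter P).card : ℝ) ≤ ZZ d k q * Real.exp (Real.log 2 + R - l0 * L) := by
  have h3 : (((prps d k q).filter P).card : ℝ) * Real.exp (l0 * L) ≤ 2 * (ZZ d k q * Real.exp R) := by
    calc (((prps d k q).filter P).card : ℝ) * Real.exp (l0 * L)
        = ∑ f ∈ (prps d k q).filter P, Real.exp (l0 * L) := by
          rw [sum_const, nsmul_eq_mul]
      _ ≤ ∑ f ∈ (prps d k q).filter P, (Real.exp (l0 * T f) + Real.exp (-l0 * T f)) := by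
          refine sum_le_sum fun f hf => ?_
          have h4 := hP f (mem_filter.1 hf).2
          rw [not_le] at h4
          rcases lt_abs.1 h4 with h5 | h5
          · have h6 : Real.exp (l0 * L) ≤ Real.exp (l0 * T f) :=
              Real.exp_le_exp.2 (mul_le_mul_of_nonneg_left h5.le hl0)
            have := Real.exp_pos (-l0 * T f)
            linarith
          · have h6 : Real.exp (l0 * L) ≤ Real.exp (-l0 * T f) := by
              refine Real.exp_le_exp.2 ?_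
              nlinarith
            have := Real.exp_pos (l0 * T f)
            linarith
      _ ≤ ∑ f ∈ prps d k q, (Real.exp (l0 * T f) + Real.exp (-l0 * T f)) :=
          sum_le_sum_of_subset_of_nonneg (filter_subset _ _) fun _ _ _ => by positivity
      _ ≤ 2 * (ZZ d k q * Real.exp R) := by
          rw [sum_add_distrib]
          linarith
  have h7 : (((prps d k q).filter P).card : ℝ) =
      (((prps d k q).filter P).card : ℝ) * Real.exp (l0 * L) * Real.exp (-(l0 * L)) := by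
    rw [mul_assoc, ← Real.exp_add, add_neg_cancel, Real.exp_zero, mul_one]
  rw [h7]
  refine (mul_le_mul_of_nonneg_right h3 (Real.exp_pos _).le).trans (le_of_eq ?_)
  rw [show Real.log 2 + R - l0 * L = Real.log 2 + (R + -(l0 * L)) by ring, Real.exp_add, Real.exp_log (by norm_num),
    Real.exp_add]
  ring

private theorem R6_rar0 {C d k q : ℕ} {P : (Site d k → Fin q) → Prop} (h : ∀ f, ¬ P f) : Rar C d k q P := by
  classical
  unfold Rar
  have h0 : (((prps d k q).filter P).card : ℝ) = 0 := by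
    rw [filter_false_of_mem fun f _ => h f, card_empty, Nat.cast_zero]
  refine le_trans (le_of_eq ?_) (le_trans h0.le ?_)
  · congr 2
  · unfold ZZ
    positivity

private theorem R6_num {d k q : ℕ} {C K : ℕ} {X : ℝ} (hd : 4 ≤ d) (hX : 0 ≤ X)
    (hm : 2 * (d : ℝ) ^ (C + K + 1) * Real.log q ≤ (2 : ℝ) ^ k)
    (hN : 8 * Real.log 2 * (d : ℝ) ^ (C + K + 1) ≤ NN d k) :
    Real.log 2 + (NN d k * Real.log q / (2 * 2 ^ k) + Real.log 2 +
      1 / (d : ℝ) ^ (C + 1) * (X + NN d k / (d : ℝ) ^ K) / 4) -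
      1 / (d : ℝ) ^ (C + 1) * (X + NN d k / (d : ℝ) ^ K) ≤ -(NN d k / (d : ℝ) ^ (C + K + 2)) := by
  have hN0 := R6_NN d k
  have hd4 : (4 : ℝ) ≤ d := by exact_mod_cast hd
  have hd0 : (0 : ℝ) < d := by linarith
  have hm0 : (0 : ℝ) < (2 : ℝ) ^ k := by positivity
  set D : ℝ := (d : ℝ) ^ (C + K + 1) with hD
  have hD0 : 0 < D := by positivity
  have e1 : 1 / (d : ℝ) ^ (C + 1) * (NN d k / (d : ℝ) ^ K) = NN d k / D := by
    rw [hD, show C + K + 1 = (C + 1) + K by ring, pow_add _ (C + 1) K, div_mul_div_comm, one_mul]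
  have e2 : NN d k / (d : ℝ) ^ (C + K + 2) = NN d k / D / d := by
    rw [hD, show C + K + 2 = (C + K + 1) + 1 by ring, pow_succ, div_div]
  have e3 : 0 ≤ 1 / (d : ℝ) ^ (C + 1) * X := by positivity
  have e4 : NN d k / D / d ≤ NN d k / D / 4 := by
    have : 0 < NN d k / D := by positivity
    exact div_le_div_of_nonneg_left this.le (by norm_num) hd4
  have e5 : NN d k * Real.log q / (2 * 2 ^ k) ≤ NN d k / D / 4 := by
    rw [div_div, div_le_div_iff₀ (by positivity) (by positivity)]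
    have : NN d k * Real.log q * (D * 4) = 2 * NN d k * (2 * D * Real.log q) := by ring
    rw [this]
    have h2 := mul_le_mul_of_nonneg_left hm (show 0 ≤ 2 * NN d k by positivity)
    linarith
  have e6 : 2 * Real.log 2 ≤ NN d k / D / 4 := by
    rw [div_div, le_div_iff₀ (by positivity)]
    linarith
  rw [mul_add, e1, e2]
  linarith

theorem TF_rule {ε : ℝ} (hε : 0 < ε) (hε1 : ε ≤ 1) (K : ℕ) : WOPi ε Ixs fun d k q p f => okx p.1 →
    p.2 ∈ pl p.1.2.1.1 p.1.2.1.2 → (∀ x, ¬ pev p.1.2.1.1 p.1.2.1.2 x → p.1.2.2.2 x = 0) →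
    |∑ u ∈ cls p.1.1 d k, p.1.2.2.2 u * TF ε p.1.2.1.1 p.1.2.1.2 p.1.2.2.1.1 p.1.2.2.1.2 p.2 f u| ≤
      C2 ε / (q : ℝ) ^ 3 * Wt p.1.1 p.1.2.2.2 + NN d k / (d : ℝ) ^ K := by
  classical
  obtain ⟨C, hC⟩ := sum_rule hε hε1 K
  refine ⟨C + K + 2, (((hC.and (EvT_reg hε hε1 (2 * CW ε + 4 / c1 ε + 4))).and
    (EvT_pow fun d q => 2 * (d : ℝ) ^ (C + K + 1) * Real.log q)).and
    (EvT_NN fun d _ => 8 * Real.log 2 * (d : ℝ) ^ (C + K + 1))).mono ?_⟩
  rintro d k q ⟨⟨⟨h1, hr⟩, h2⟩, h3⟩ ⟨⟨b, ⟨i, j⟩, ⟨c, c'⟩, w⟩, σ⟩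
  dsimp only at h2 h3 ⊢
  have hCW := R6_CW ε
  have hc1 := R6_c1 ε
  have hpos : 0 < 4 / c1 ε := by positivity
  have hq4 : 4 / c1 ε ≤ q := by linarith [hr.2.1]
  have hq0 : 0 < q := by
    have : (0 : ℝ) < q := by linarith
    exact_mod_cast this
  have hd4 : 4 ≤ d := by
    have : (4 : ℝ) ≤ d := by linarith [hr.1]
    exact_mod_cast this
  have hdCW : 2 * CW ε ≤ d := by linarith [hr.1]
  have hk : 1 ≤ k := by
    have : (1 : ℝ) ≤ k := by linarith [hr.2.2.1]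
    exact_mod_cast this
  have ha : ra d q ≤ A0 ε := hr.2.2.2.2.2.2.1
  have hd1 : 1 ≤ d := by omega
  by_cases hok : okx ((b, (i, j), (c, c'), w) : Ix d k q) ∧ σ ∈ pl i j ∧ (∀ x, ¬ pev i j x → w x = 0)
  swap
  · -- the premises fail: the event is empty
    refine R6_rar0 fun f hf => hf fun g1 g2 g3 => absurd ⟨g1, g2, g3⟩ hok
  obtain ⟨hok1, hσ, hw⟩ := hok
  have hij : i ≠ j := hok1.1
  have hwb : ∀ x, |w x| ≤ 1 := hok1.2.2
  have hWt : 0 ≤ Wt b w := by
    unfold Wt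
    exact sum_nonneg fun _ _ => abs_nonneg _
  have hwP : ∀ p : ZMod (2 ^ k) × ZMod (2 ^ k), ∀ x, |wP i j w p x| ≤ 1 := by
    intro p x
    unfold wP
    split_ifs
    · exact hwb _
    · simp
  have hone : ∀ l : ℝ, |l| = 1 / (d : ℝ) ^ (C + 1) → ∀ p ∈ evp k,
      ∑ f ∈ prps d k q, Real.exp (l * ∑ v ∈ cls b d k, wP i j w p v * GF ε i j c c' f v) ≤
      2 * ZZ d k q * Real.exp (1 / (d : ℝ) ^ (C + 1) *
        (C2 ε / (q : ℝ) ^ 3 * Wt b (wP i j w p) + NN d k / (d : ℝ) ^ K)) := by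
    intro l hl p _
    refine R6_one hε hq4 ha hd1 hdCW C K i j hij c c' b (wP i j w p) (hwP p) l hl ?_
    refine (h1 ((b, (i, j), (c, c'), wP i j w p) : Ix d k q)).mono fun f _ hf hg => hf (hg ?_)
    exact ⟨hij, hok1.2.1, hwP p⟩
  have hl0 : (0 : ℝ) < 1 / (d : ℝ) ^ (C + 1) := by
    have : (0 : ℝ) < d := by exact_mod_cast hd1
    positivity
  have hA := R6_two hk hq0 i j hij c c' b w hw σ hσ (1 / (d : ℝ) ^ (C + 1)) (1 / (d : ℝ) ^ (C + 1))
    (C2 ε / (q : ℝ) ^ 3) (NN d k / (d : ℝ) ^ K) (hone _ (abs_of_pos hl0))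
  have hB := R6_two hk hq0 i j hij c c' b w hw σ hσ (-(1 / (d : ℝ) ^ (C + 1))) (1 / (d : ℝ) ^ (C + 1))
    (C2 ε / (q : ℝ) ^ 3) (NN d k / (d : ℝ) ^ K) (hone _ (by rw [abs_neg, abs_of_pos hl0]))
  have hM := R6_mark (fun f => ∑ u ∈ cls b d k, w u * TF ε i j c c' σ f u) (1 / (d : ℝ) ^ (C + 1))
    (C2 ε / (q : ℝ) ^ 3 * Wt b w + NN d k / (d : ℝ) ^ K) _ hl0.le hA hB
    (fun f => ¬ (okx ((b, (i, j), (c, c'), w) : Ix d k q) → σ ∈ pl i j → (∀ x, ¬ pev i j x → w x = 0) →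
      |∑ u ∈ cls b d k, w u * TF ε i j c c' σ f u| ≤ C2 ε / (q : ℝ) ^ 3 * Wt b w + NN d k / (d : ℝ) ^ K))
    (fun f hf hg => hf fun _ _ _ => hg)
  unfold Rar
  refine le_trans (le_of_eq ?_) (hM.trans ?_)
  · congr 2
    ext f
    simp only [mem_filter]
  · refine mul_le_mul_of_nonneg_left (Real.exp_le_exp.2 ?_) (by unfold ZZ; positivity)
    have hC2 := R6_C2 ε
    exact R6_num hd4 (by positivity) h2 h3

end Pool.Agent.THR

end
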