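import Pool.Agent.Lib_MP_2c424f_m.M15
import Pool.Agent.Lib_MP_2c424f_m.M18

/-!
# MP_2c424f_pr, q_c grows linearly: merged library part M19

Concatenation of smaller files (each in its own section), only to save build time.
-/

namespace Pool.Agent.LO
end Pool.Agent.LO

namespace Pool.Agent.LIN
end Pool.Agent.LIN

namespace Pool.Agent.THR
end Pool.Agent.THR

namespace Pool.Agent.COR
end Pool.Agent.COR

/-! ### from `Lib_MP_2c424f_lc1.T2` -/

section

/-!
# LC1 T2: rare sites and rare triples, elementary rules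

* `SRK.mono`, `SRK.le`, `SRK.or`: `WOP.mono`, `WOP.and`; `2 N/d^(K+1) ≤ N/d^K` for `d ≥ 2`.
* `SRK.nb`: `#{v : ∃ σ, B (v+σ)} ≤ 2d #{v : B v}` (translation), `2d/d^2 ≤ 1`.
* `SRK.avgs`: Markov: `#{v : x < PP^[s] g v} ≤ (∑ g)/x` (`PPt_total`), `g` the indicator; union over `s ≤ S` (`S + 1 ≤ d`).
* `TRK_of_SRK`, `SRK_of_TRK`: for a site `x` and a bit vector `b` there is exactly one `(t,a)` with `pt t a b = x` (THR B7a `pt_tb`, `tb_pt`,
  or `LO.sum_pt`), so `#{p : B (tp p)} = 2^d #{x : B x}`; `NN d (k+1) = 2^d NN d k`.  In `SRK_of_TRK` the statement for `k + 1`, `k` large,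
  gives the statement for all large `k`.
* `TRK_blk`: every block has `4^d` triples.
-/

set_option autoImplicit false

open Finset Filter

namespace Pool.Agent.LC

open Pool.Agent.LO Pool.Agent.LIN Pool.Agent.THR Pool.Agent.COR

private theorem T2_cn {α : Type} [Fintype α] (P : α → Prop) : cn P = ∑ x, ind (P x) := by
  classical
  unfold cn ind
  rw [Finset.sum_boole]

private theorem T2_ind0 (P : Prop) : 0 ≤ ind P := by
  unfold ind
  split_ifs <;> norm_num

private theorem T2_ind_mono {P Q : Prop} (h : P → Q) : ind P ≤ ind Q := by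
  unfold ind
  by_cases hP : P
  · rw [if_pos hP, if_pos (h hP)]
  · rw [if_neg hP]
    split_ifs <;> norm_num

private theorem T2_mono {α : Type} [Fintype α] {P Q : α → Prop} (h : ∀ x, P x → Q x) : cn P ≤ cn Q := by
  rw [T2_cn, T2_cn]
  exact Finset.sum_le_sum fun x _ => T2_ind_mono (h x)

private theorem T2_or {α : Type} [Fintype α] (P Q : α → Prop) : cn (fun x => P x ∨ Q x) ≤ cn P + cn Q := by
  rw [T2_cn, T2_cn, T2_cn, ← Finset.sum_add_distrib]
  refine Finset.sum_le_sum fun x _ => ?_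
  unfold ind
  by_cases hP : P x <;> by_cases hQ : Q x <;> simp [hP, hQ]

private theorem T2_ex {α ι : Type} [Fintype α] (S : Finset ι) (P : ι → α → Prop) :
    cn (fun x => ∃ i ∈ S, P i x) ≤ ∑ i ∈ S, cn (P i) := by
  classical
  have h1 : ∑ i ∈ S, cn (P i) = ∑ x, ∑ i ∈ S, ind (P i x) := by
    rw [Finset.sum_comm]
    exact Finset.sum_congr rfl fun i _ => T2_cn _
  rw [T2_cn, h1]
  refine Finset.sum_le_sum fun x _ => ?_
  by_cases h : ∃ i ∈ S, P i x
  · obtain ⟨i, hi, hx⟩ := h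
    calc ind (∃ i ∈ S, P i x) ≤ 1 := by
          unfold ind
          split_ifs <;> norm_num
      _ = ind (P i x) := by
          unfold ind
          rw [if_pos hx]
      _ ≤ ∑ i ∈ S, ind (P i x) :=
          Finset.single_le_sum (f := fun i => ind (P i x)) (fun i _ => T2_ind0 _) hi
  · have h2 : ind (∃ i ∈ S, P i x) = 0 := by
      unfold ind
      rw [if_neg h]
    rw [h2]
    exact Finset.sum_nonneg fun i _ => T2_ind0 _

private theorem T2_NN (d k : ℕ) : 0 ≤ NN d k := by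
  unfold NN
  positivity

private theorem T2_pow {d K K' : ℕ} (hd : 1 ≤ d) (hK : K' ≤ K) (N : ℝ) (hN : 0 ≤ N) :
    N / (d : ℝ) ^ K ≤ N / (d : ℝ) ^ K' := by
  have hd1 : (1 : ℝ) ≤ d := by exact_mod_cast hd
  exact div_le_div_of_nonneg_left hN (by positivity) (pow_le_pow_right₀ hd1 hK)

private theorem T2_two {d K : ℕ} (hd : 2 ≤ d) (N : ℝ) (hN : 0 ≤ N) :
    N / (d : ℝ) ^ (K + 1) + N / (d : ℝ) ^ (K + 1) ≤ N / (d : ℝ) ^ K := by
  have hd1 : (2 : ℝ) ≤ d := by exact_mod_cast hd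
  have h0 : (0 : ℝ) < (d : ℝ) ^ K := by positivity
  rw [← two_mul, ← mul_div_assoc, div_le_div_iff₀ (by positivity) h0, pow_succ]
  have h1 : 0 ≤ N * (d : ℝ) ^ K := by positivity
  nlinarith

private theorem T2_shift {d k : ℕ} (P : Site d k → Prop) (τ : Site d k) :
    cn (fun v => P (v + τ)) = cn P := by
  rw [T2_cn, T2_cn]
  exact Equiv.sum_comp (Equiv.addRight τ) (fun v => ind (P v))

private theorem T2_nb {d k : ℕ} (P : Site d k → Prop) :
    cn (fun v => ∃ σ : Stp d, P (v + sv σ)) ≤ 2 * d * cn P := by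
  have h1 : cn (fun v : Site d k => ∃ σ : Stp d, P (v + sv σ)) ≤
      cn (fun v : Site d k => ∃ σ ∈ (univ : Finset (Stp d)), P (v + sv σ)) :=
    T2_mono fun v ⟨σ, h⟩ => ⟨σ, Finset.mem_univ σ, h⟩
  refine h1.trans ((T2_ex _ _).trans ?_)
  rw [Finset.sum_congr rfl fun σ _ => T2_shift P (sv σ), Finset.sum_const, Finset.card_univ,
    nsmul_eq_mul]
  have h2 : Fintype.card (Stp d) = d * 2 := by simp
  rw [h2]
  push_cast
  rw [mul_comm (d : ℝ) 2]

private theorem T2_markov {α : Type} [Fintype α] (φ : α → ℝ) (hφ : ∀ v, 0 ≤ φ v) (x : ℝ) :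
    x * cn (fun v => x < φ v) ≤ ∑ v, φ v := by
  rw [T2_cn, Finset.mul_sum]
  refine Finset.sum_le_sum fun v _ => ?_
  unfold ind
  split_ifs with h
  · rw [mul_one]
    exact h.le
  · rw [mul_zero]
    exact hφ v

private theorem T2_avg {d k : ℕ} (hd : 1 ≤ d) (P : Site d k → Prop) (s : ℕ) (x : ℝ) :
    x * cn (fun v => x < PP^[s] (fun u => ind (P u)) v) ≤ cn P := by
  have h0 : ∀ v : Site d k, 0 ≤ PP^[s] (fun u => ind (P u)) v := by
    intro v
    have h1 := PPt_mono s (g := fun _ : Site d k => (0 : ℝ)) (h := fun u => ind (P u))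
      (fun u => T2_ind0 _) v
    rwa [PPt_const hd s 0 v] at h1
  have h2 := T2_markov (fun v : Site d k => PP^[s] (fun u => ind (P u)) v) h0 x
  rw [PPt_total hd s, ← T2_cn] at h2
  exact h2

private theorem T2_tp {d k : ℕ} (P : Site d (k + 1) → Prop) :
    cn (fun p : Tpl d k => P (tp p)) = 2 ^ d * cn P := by
  have h1 := sum_pt (d := d) (k := k) (fun x _ => ind (P x))
  rw [T2_cn, T2_cn]
  have h2 : ∑ p : Tpl d k, ind (P (tp p)) =
      ∑ t : Blk d k, ∑ a : Bt d, ∑ b : Bt d, ind (P (pt t a b)) := by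
    rw [Fintype.sum_prod_type]
    refine Finset.sum_congr rfl fun t _ => ?_
    rw [Fintype.sum_prod_type]
    rfl
  rw [h2, h1, Finset.mul_sum]
  refine Finset.sum_congr rfl fun x _ => ?_
  rw [Finset.sum_const, Finset.card_univ, nsmul_eq_mul]
  have h3 : Fintype.card (Bt d) = 2 ^ d := by simp
  rw [h3]
  push_cast
  rfl

private theorem T2_bl {d k : ℕ} (P : Blk d k → Prop) :
    cn (fun p : Tpl d k => P p.1) = 4 ^ d * cn P := by
  rw [T2_cn, T2_cn]
  have h2 : ∑ p : Tpl d k, ind (P p.1) = ∑ t : Blk d k, ∑ _q : Bt d × Bt d, ind (P t) := by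
    rw [Fintype.sum_prod_type]
  rw [h2, Finset.mul_sum]
  refine Finset.sum_congr rfl fun t _ => ?_
  rw [Finset.sum_const, Finset.card_univ, nsmul_eq_mul]
  have h3 : Fintype.card (Bt d × Bt d) = 4 ^ d := by
    rw [Fintype.card_prod]
    have h4 : Fintype.card (Bt d) = 2 ^ d := by simp
    rw [h4, ← mul_pow]
    norm_num
  rw [h3]
  push_cast
  rfl

theorem SRK.mono {K : ℕ} {B B' : ∀ d k q : ℕ, (Site d k → Fin q) → Site d k → Prop} (h : SRK K B)
    (hB : EvT e3 fun d k q => Rg d q → ∀ f ∈ prps d k q, ∀ v, B' d k q f v → B d k q f v) : SRK K B' := by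
  refine WOP.mono h (hB.mono fun d k q hd f hf h1 hR => ?_)
  exact (T2_mono fun v => hd hR f hf v).trans (h1 hR)

theorem SRK.le {K K' : ℕ} (hK : K' ≤ K) {B : ∀ d k q : ℕ, (Site d k → Fin q) → Site d k → Prop} (h : SRK K B) : SRK K' B := by
  refine WOP.mono h ((EvT_d (eventually_ge_atTop 1)).mono fun d k q hd f hf h1 hR => ?_)
  exact (h1 hR).trans (T2_pow hd hK _ (T2_NN d k))

theorem SRK.or {K : ℕ} {B B' : ∀ d k q : ℕ, (Site d k → Fin q) → Site d k → Prop} (h : SRK (K + 1) B) (h' : SRK (K + 1) B') :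
    SRK K fun d k q f v => B d k q f v ∨ B' d k q f v := by
  refine WOP.mono (WOP.and h h') ((EvT_d (eventually_ge_atTop 2)).mono fun d k q hd f hf h1 hR => ?_)
  refine (T2_or _ _).trans ((add_le_add (h1.1 hR) (h1.2 hR)).trans ?_)
  exact T2_two hd _ (T2_NN d k)

theorem SRK.nb {K : ℕ} {B : ∀ d k q : ℕ, (Site d k → Fin q) → Site d k → Prop} (h : SRK (K + 2) B) :
    SRK K fun d k q f v => ∃ σ : Stp d, B d k q f (v + sv σ) := by
  refine WOP.mono h ((EvT_d (eventually_ge_atTop 2)).mono fun d k q hd f hf h1 hR => ?_)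
  refine (T2_nb _).trans ?_
  have hd1 : (2 : ℝ) ≤ d := by exact_mod_cast hd
  refine (mul_le_mul_of_nonneg_left (h1 hR) (by positivity)).trans ?_
  have h0 : (0 : ℝ) < (d : ℝ) ^ K := by positivity
  have hN := T2_NN d k
  rw [← mul_div_assoc, div_le_div_iff₀ (by positivity) h0, pow_add]
  have h2 : 0 ≤ NN d k * (d : ℝ) ^ K := by positivity
  have h3 : (2 * d : ℝ) ≤ (d : ℝ) ^ 2 := by nlinarith
  nlinarith [mul_le_mul_of_nonneg_left h3 h2]

theorem SRK.avgs {K K' : ℕ} {B : ∀ d k q : ℕ, (Site d k → Fin q) → Site d k → Prop} (h : SRK (K + K' + 1) B) (S : ℕ) :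
    SRK K fun d k q f v => ∃ s ≤ S, 1 / (d : ℝ) ^ K' < PP^[s] (fun u => ind (B d k q f u)) v := by
  refine WOP.mono h ((EvT_d (eventually_ge_atTop (S + 1))).mono fun d k q hd f hf h1 hR => ?_)
  have hd0 : 1 ≤ d := by omega
  have hd1 : (1 : ℝ) ≤ d := by exact_mod_cast hd0
  have hdS : ((S + 1 : ℕ) : ℝ) ≤ d := by exact_mod_cast hd
  have hN := T2_NN d k
  have h2 : cn (fun v : Site d k => ∃ s ≤ S, 1 / (d : ℝ) ^ K' < PP^[s] (fun u => ind (B d k q f u)) v) ≤
      ∑ s ∈ Finset.range (S + 1), cn (fun v : Site d k => 1 / (d : ℝ) ^ K' <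
        PP^[s] (fun u => ind (B d k q f u)) v) := by
    refine le_trans (T2_mono fun v => ?_) (T2_ex (Finset.range (S + 1)) fun s (v : Site d k) =>
      1 / (d : ℝ) ^ K' < PP^[s] (fun u => ind (B d k q f u)) v)
    rintro ⟨s, hs, h3⟩
    exact ⟨s, Finset.mem_range.2 (by omega), h3⟩
  refine h2.trans ?_
  have h3 : ∀ s ∈ Finset.range (S + 1), cn (fun v : Site d k => 1 / (d : ℝ) ^ K' <
      PP^[s] (fun u => ind (B d k q f u)) v) ≤ (d : ℝ) ^ K' * (NN d k / (d : ℝ) ^ (K + K' + 1)) := by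
    intro s _
    have h4 := T2_avg hd0 (B d k q f) s (1 / (d : ℝ) ^ K')
    have h5 := h4.trans (h1 hR)
    rw [div_mul_eq_mul_div, one_mul, div_le_iff₀ (by positivity)] at h5
    rw [mul_comm]
    exact h5
  refine (Finset.sum_le_sum h3).trans ?_
  rw [Finset.sum_const, Finset.card_range, nsmul_eq_mul]
  have h0 : (0 : ℝ) < (d : ℝ) ^ K := by positivity
  have h6 : ((S + 1 : ℕ) : ℝ) * ((d : ℝ) ^ K' * (NN d k / (d : ℝ) ^ (K + K' + 1))) =
      ((S + 1 : ℕ) : ℝ) / d * (NN d k / (d : ℝ) ^ K) := by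
    rw [pow_succ, pow_add]
    field_simp
  rw [h6]
  have h7 : ((S + 1 : ℕ) : ℝ) / d ≤ 1 := by
    rw [div_le_one (by positivity)]
    exact hdS
  have h8 : 0 ≤ NN d k / (d : ℝ) ^ K := by positivity
  nlinarith

theorem SR.mono {B B' : ∀ d k q : ℕ, (Site d k → Fin q) → Site d k → Prop} (h : SR B)
    (hB : EvT e3 fun d k q => Rg d q → ∀ f ∈ prps d k q, ∀ v, B' d k q f v → B d k q f v) : SR B' := by
  exact fun K => (h K).mono hB

theorem SR.or {B B' : ∀ d k q : ℕ, (Site d k → Fin q) → Site d k → Prop} (h : SR B) (h' : SR B') :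
    SR fun d k q f v => B d k q f v ∨ B' d k q f v := by
  exact fun K => (h (K + 1)).or (h' (K + 1))

theorem SR.nb {B : ∀ d k q : ℕ, (Site d k → Fin q) → Site d k → Prop} (h : SR B) :
    SR fun d k q f v => ∃ σ : Stp d, B d k q f (v + sv σ) := by
  exact fun K => (h (K + 2)).nb

theorem SR.avgs {B : ∀ d k q : ℕ, (Site d k → Fin q) → Site d k → Prop} (h : SR B) (K' S : ℕ) :
    SR fun d k q f v => ∃ s ≤ S, 1 / (d : ℝ) ^ K' < PP^[s] (fun u => ind (B d k q f u)) v := by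
  exact fun K => (h (K + K' + 1)).avgs S

theorem TRK.mono {K : ℕ} {B B' : ∀ d k q : ℕ, (Site d (k + 1) → Fin q) → Tpl d k → Prop} (h : TRK K B)
    (hB : EvT e3 fun d k q => Rg d q → ∀ f ∈ prps d (k + 1) q, ∀ p, B' d k q f p → B d k q f p) : TRK K B' := by
  refine WOPb.mono h (hB.mono fun d k q hd f hf h1 hR => ?_)
  exact (T2_mono fun v => hd hR f hf v).trans (h1 hR)

theorem TRK.le {K K' : ℕ} (hK : K' ≤ K) {B : ∀ d k q : ℕ, (Site d (k + 1) → Fin q) → Tpl d k → Prop} (h : TRK K B) : TRK K' B := by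
  refine WOPb.mono h ((EvT_d (eventually_ge_atTop 1)).mono fun d k q hd f hf h1 hR => ?_)
  exact (h1 hR).trans (T2_pow hd hK _ (mul_nonneg (by positivity) (T2_NN d k)))

theorem TRK.or {K : ℕ} {B B' : ∀ d k q : ℕ, (Site d (k + 1) → Fin q) → Tpl d k → Prop} (h : TRK (K + 1) B) (h' : TRK (K + 1) B') :
    TRK K fun d k q f p => B d k q f p ∨ B' d k q f p := by
  refine WOPb.mono (WOPb.and h h') ((EvT_d (eventually_ge_atTop 2)).mono fun d k q hd f hf h1 hR => ?_)
  refine (T2_or _ _).trans ((add_le_add (h1.1 hR) (h1.2 hR)).trans ?_)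
  exact T2_two hd _ (mul_nonneg (by positivity) (T2_NN d k))

theorem TRK_of_SRK {K : ℕ} {B : ∀ d k q : ℕ, (Site d k → Fin q) → Site d k → Prop} (h : SRK K B) :
    TRK K fun d k q f p => B d (k + 1) q f (tp p) := by
  refine WOPb.mono (WOP.blk h) ((EvT_d (eventually_ge_atTop 1)).mono fun d k q hd f hf h1 hR => ?_)
  rw [T2_tp]
  refine (mul_le_mul_of_nonneg_left (h1 hR) (by positivity)).trans_eq ?_
  have h4 : (4 : ℝ) ^ d = 2 ^ d * 2 ^ d := by
    rw [← mul_pow]
    norm_num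
  rw [NN_succ, h4]
  ring

theorem SRK_of_TRK {K : ℕ} {B : ∀ d k q : ℕ, (Site d k → Fin q) → Site d k → Prop}
    (h : TRK K fun d k q f p => B d (k + 1) q f (tp p)) : SRK K B := by
  obtain ⟨C, d₀, hC⟩ := h
  refine ⟨C, d₀, fun d q hd h1 h2 => ?_⟩
  obtain ⟨k₀, hk₀⟩ := eventually_atTop.1 (hC d q hd h1 h2)
  refine eventually_atTop.2 ⟨k₀ + 1, fun k hk => ?_⟩
  obtain ⟨m, rfl⟩ : ∃ m, k = m + 1 := ⟨k - 1, by omega⟩
  refine (hk₀ m (by omega)).mono fun f _ hn hn' => hn fun hR => ?_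
  have h3 := hn' hR
  rw [T2_tp] at h3
  have h4 : (4 : ℝ) ^ d = 2 ^ d * 2 ^ d := by
    rw [← mul_pow]
    norm_num
  have h5 : (4 : ℝ) ^ d * NN d m / (d : ℝ) ^ K = 2 ^ d * (NN d (m + 1) / (d : ℝ) ^ K) := by
    rw [NN_succ, h4]
    ring
  rw [h5] at h3
  exact le_of_mul_le_mul_left h3 (by positivity)

theorem TRK_blk {K : ℕ} {B : ∀ d k q : ℕ, (Site d (k + 1) → Fin q) → Blk d k → Prop}
    (h : WOPb e3 fun d k q f => Rg d q → cn (B d k q f) ≤ NN d k / (d : ℝ) ^ K) : TRK K fun d k q f p => B d k q f p.1 := by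
  refine WOPb.mono h ((EvT_d (eventually_ge_atTop 1)).mono fun d k q hd f hf h1 hR => ?_)
  rw [T2_bl]
  refine (mul_le_mul_of_nonneg_left (h1 hR) (by positivity)).trans_eq ?_
  ring

end Pool.Agent.LC

end

/-! ### from `Lib_MP_2c424f_lc1.C0` -/

section

/-!
# LC1 C0: elementary facts about `hc`; regular sites

* `zc f x v c = 1` iff no neighbour of `x`, except `v`, has the colour `c`; `zz f x c ≤ zc f x v c` and equality if `f v ≠ c`;  if `f v = c` and `v ~ x` then `zz f x c = 0`.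
* `reg_pt`: `avail` (THR S4); `irr`.
* `nc_pt`: all sites within two steps are regular (`SR.nb` twice).
-/

set_option autoImplicit false

open Finset Filter

namespace Pool.Agent.LC

open Pool.Agent.LO Pool.Agent.LIN Pool.Agent.THR Pool.Agent.COR

variable {d k q : ℕ}

private theorem C0_mem (f : Site d k → Fin q) (x : Site d k) (c : Fin q) :
    c ∈ SS f x ↔ ∃ τ : Stp d, f (x + sv τ) = c := by
  unfold SS
  simp only [Finset.mem_image, Finset.mem_univ, true_and]

private theorem C0_opp (v : Site d k) (σ : Stp d) : v + sv σ + sv (σ.1, !σ.2) = v := by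
  rw [add_assoc, show (sv σ : Site d k) + sv (σ.1, !σ.2) = 0 from sv_opp σ.1 σ.2, add_zero]

private theorem C0_card : (Fintype.card (Stp d) : ℝ) = 2 * d := by
  rw [Fintype.card_prod, Fintype.card_fin, Fintype.card_bool]
  push_cast
  ring

theorem zc_01 (f : Site d k → Fin q) (x v : Site d k) (c : Fin q) : zc f x v c = 0 ∨ zc f x v c = 1 := by
  unfold zc
  split_ifs
  · exact Or.inr rfl
  · exact Or.inl rfl

theorem zz_le_zc (f : Site d k → Fin q) (x v : Site d k) (c : Fin q) : zz f x c ≤ zc f x v c := by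
  by_cases h : c ∈ SS f x
  · have h1 : zz f x c = 0 := by
      unfold zz
      rw [if_pos h]
    rw [h1]
    rcases zc_01 f x v c with h2 | h2 <;> rw [h2]
    exact zero_le_one
  · have h1 : zz f x c = 1 := by
      unfold zz
      rw [if_neg h]
    have h2 : zc f x v c = 1 := by
      unfold zc
      rw [if_pos]
      intro τ _ hτ
      exact h ((C0_mem f x c).2 ⟨τ, hτ⟩)
    rw [h1, h2]

private theorem C0_zz_eq (f : Site d k → Fin q) (x v : Site d k) (c : Fin q) (h : f v ≠ c) :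
    zc f x v c = zz f x c := by
  by_cases hc : c ∈ SS f x
  · have h1 : zz f x c = 0 := by
      unfold zz
      rw [if_pos hc]
    have h2 : zc f x v c = 0 := by
      unfold zc
      rw [if_neg]
      intro hall
      obtain ⟨τ, hτ⟩ := (C0_mem f x c).1 hc
      refine hall τ ?_ hτ
      intro hx
      rw [hx] at hτ
      exact h hτ
    rw [h1, h2]
  · refine le_antisymm ?_ (zz_le_zc f x v c)
    have h1 : zz f x c = 1 := by
      unfold zz
      rw [if_neg hc]
    rw [h1]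
    rcases zc_01 f x v c with h2 | h2 <;> rw [h2]
    exact zero_le_one

theorem hc_eq (f : Site d k → Fin q) (v : Site d k) (c : Fin q) (h : f v ≠ c) : hc c f v = hh c f v := by
  unfold hc THR.hh
  exact Finset.sum_congr rfl fun σ _ => by rw [C0_zz_eq f _ v c h]

theorem hh_le_hc (f : Site d k → Fin q) (v : Site d k) (c : Fin q) : hh c f v ≤ hc c f v := by
  unfold hc THR.hh
  exact Finset.sum_le_sum fun σ _ =>
    div_le_div_of_nonneg_right (zz_le_zc f _ v c) (Nat.cast_nonneg _)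

theorem hh_self (f : Site d k → Fin q) (v : Site d k) : hh (f v) f v = 0 := by
  unfold THR.hh
  refine Finset.sum_eq_zero fun σ _ => ?_
  have h1 : f v ∈ SS f (v + sv σ) := (C0_mem f _ _).2 ⟨(σ.1, !σ.2), by rw [C0_opp]⟩
  have h2 : zz f (v + sv σ) (f v) = 0 := by
    unfold zz
    rw [if_pos h1]
  rw [h2, zero_div]

theorem hc_le {f : Site d k → Fin q} (hf : Prp f) (v : Site d k) (c : Fin q) : 0 ≤ hc c f v ∧ hc c f v ≤ 2 * d := by
  have h1 : ∀ σ : Stp d, 0 ≤ zc f (v + sv σ) v c / (av f (v + sv σ) : ℝ) ∧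
      zc f (v + sv σ) v c / (av f (v + sv σ) : ℝ) ≤ 1 := by
    intro σ
    have h2 : (1 : ℝ) ≤ av f (v + sv σ) := by exact_mod_cast av_pos hf (v + sv σ)
    rcases zc_01 f (v + sv σ) v c with h3 | h3
    · rw [h3, zero_div]
      exact ⟨le_rfl, zero_le_one⟩
    · rw [h3]
      refine ⟨div_nonneg zero_le_one (by linarith), ?_⟩
      rw [div_le_one (by linarith)]
      exact h2
  unfold hc
  refine ⟨Finset.sum_nonneg fun σ _ => (h1 σ).1, ?_⟩
  calc ∑ σ : Stp d, zc f (v + sv σ) v c / (av f (v + sv σ) : ℝ) ≤ ∑ _σ : Stp d, (1 : ℝ) :=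
        Finset.sum_le_sum fun σ _ => (h1 σ).2
    _ = 2 * d := by
        rw [Finset.sum_const, nsmul_eq_mul, mul_one, Finset.card_univ, C0_card]

private theorem C0_true : EvT e3 fun _ _ _ => True :=
  (EvT_d (P := fun _ => True) (Filter.Eventually.of_forall fun _ => trivial)).mono
    fun _ _ _ _ => trivial

theorem reg_pt : SR fun _ _ _ f v => ¬ THR.Rg e3 f v := by
  intro K
  have he : 0 < e3 := by unfold e3; norm_num
  have he1 : e3 ≤ 1 := by unfold e3; norm_num
  refine (avail he he1 K).mono (C0_true.mono ?_)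
  intro d k q _ f _ h _
  refine le_trans (le_of_eq ?_) h
  unfold cn irr THR.Rg
  congr 2
  ext v
  simp only [Finset.mem_filter, Finset.mem_univ, true_and, not_le]

theorem nc_pt : SR fun d _ _ f v => ¬ (THR.Rg e3 f v ∧ (∀ σ : Stp d, THR.Rg e3 f (v + sv σ)) ∧
    ∀ σ τ : Stp d, THR.Rg e3 f (v + sv σ + sv τ)) := by
  refine (reg_pt.or (reg_pt.nb.or reg_pt.nb.nb)).mono (C0_true.mono ?_)
  intro d k q _ _ f _ v h
  by_contra hcon
  push Not at hcon
  obtain ⟨h1, h2, h3⟩ := hcon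
  exact h ⟨h1, h2, h3⟩

end Pool.Agent.LC

end

/-! ### from `Lib_MP_2c424f_lc1.F6` -/

section

/-!
# LC1 F6: from the analytic to the combinatorial notion of typical sites (deterministic)

`X = tG d k = gV univ`: `X.Adj v x` iff `x = v + sv σ` for some `σ` (`k ≥ 3`: the `v + sv σ` are distinct), so `∑_{x ∈ nb X v} φ x = ∑_σ φ (v + sv σ)`; `c ∈ Rc X f (v + sv σ) v` iff `zc f (v + sv σ) v c = 1`;
`nc X f (v + sv σ) v c = nfx c f (v + sv σ) v`; `nv X f v c = nf c f v`; `c ∈ Rv X f v` iff `zz f v c = 1`; `(Rv X f v).card = av f v`.  `a = ra d q`, `m = ms d q`; `ep d q * (2d) = e^{-a} q`.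
`tS evn A v c`: `hs A v c = a (1-m) ≤ 3a e^{-2a}` (`mf_num`); `¬ tS`: `hs A v c = a (1+m) ≥ 1.9 a`.  `e^{-2100} ≤ e^{-a}/4`.
* `o1`: `∑_σ zc ≤ q hc c f v ≤ q (3a e^{-2a} + e^{-2100}) ≤ q e^{-a}` (`av ≤ q`).   * `o2`: `f4`.
* `o3`: `¬ tS evn A v c` implies `tS evn A (v+σ) c` (`gm_step`, `evn_step`), so `hh c f (v+σ) ≤ hc c f (v+σ) ≤ 1.1 e^{-a}` (`hh_le_hc`), and `f5`.
* `e1`: `q3`.   * `e2`: `c ∈ Rv`, `¬ tS`, `c ≠ f v`: `hh c f v = hc c f v ≥ 1.79 a` (`hc_eq`): at most `e^{-a} q/2 + 1 ≤ e^{-a} q` colours (`f1`).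
* `e3`: `f2`.   * `e4`: `tS`: `hh ≤ hc ≤ 1.1 e^{-a}`; `f3`.
-/

set_option autoImplicit false

open Finset Filter

namespace Pool.Agent.LC

open Pool.Agent.LO Pool.Agent.LIN Pool.Agent.THR Pool.Agent.COR

/-- site with good local statistics -/
structure FG {d k q : ℕ} (f : Site d k → Fin q) (v : Site d k) : Prop where
  f1 : cn (fun c : Fin q => zz f v c = 1 ∧ 1.79 * ra d q ≤ hh c f v) ≤ Real.exp (-ra d q) * q / 2
  f2 : ∑ c : Fin q, nf c f v ^ 4 ≤ 1000 * ra d q ^ 4 * q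
  f3 : ∑ c : Fin q, ind (hh c f v ≤ 1.1 * Real.exp (-ra d q)) * nf c f v ^ 2 ≤ Real.exp (-ra d q / 2) * q
  f4 : ∀ c : Fin q, ∑ σ : Stp d, nfx c f (v + sv σ) v ^ 2 ≤ 20 * ra d q ^ 2 * (2 * d)
  f5 : ∀ c : Fin q, ∑ σ : Stp d, hh c f (v + sv σ) ≤ 1.1 * Real.exp (-ra d q) * (2 * d) →
    ∑ σ : Stp d, nfx c f (v + sv σ) v ≤ Real.exp (-ra d q / 2) * (2 * d)
  q3 : (q : ℝ) / 3 ≤ av f v

private theorem F6_add_ne {d k : ℕ} (hk : 3 ≤ k) (v : Site d k) (σ : Stp d) : v ≠ v + sv σ := by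
  intro h
  have h0 : (sv σ : Site d k) = 0 := by
    have := h.symm
    rwa [add_eq_left] at this
  have h1 : (sv σ : Site d k) + sv (σ.1, !σ.2) = 0 := sv_opp σ.1 σ.2
  rw [h0, zero_add] at h1
  have h2 : σ = (σ.1, !σ.2) := sv_inj (by omega : 2 ≤ k) (h0.trans h1.symm)
  have h3 := congrArg Prod.snd h2
  simp at h3

private theorem F6_adj {d k : ℕ} (hk : 3 ≤ k) (v x : Site d k) :
    (tG d k).Adj v x ↔ ∃ σ : Stp d, x = v + sv σ := by
  constructor
  · intro h
    exact h.2.2.2.1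
  · rintro ⟨σ, rfl⟩
    refine ⟨F6_add_ne hk v σ, Finset.mem_univ _, Finset.mem_univ _, ⟨σ, rfl⟩, ⟨(σ.1, !σ.2), ?_⟩⟩
    rw [add_assoc, show (sv σ : Site d k) + sv (σ.1, !σ.2) = 0 from sv_opp σ.1 σ.2, add_zero]

private theorem F6_inj {d k : ℕ} (hk : 3 ≤ k) (v : Site d k) :
    Function.Injective fun σ : Stp d => v + sv σ := by
  intro σ τ h
  exact sv_inj (by omega : 2 ≤ k) (add_left_cancel h)

private theorem F6_sum {d k : ℕ} (hk : 3 ≤ k) (v : Site d k) (φ : Site d k → ℝ) :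
    ∑ x ∈ nb (tG d k) v, φ x = ∑ σ : Stp d, φ (v + sv σ) := by
  classical
  have h1 : nb (tG d k) v = Finset.univ.image fun σ : Stp d => v + sv σ := by
    ext x
    simp only [nb, Finset.mem_filter, Finset.mem_univ, true_and, Finset.mem_image]
    rw [F6_adj hk]
    constructor
    · rintro ⟨σ, rfl⟩
      exact ⟨σ, rfl⟩
    · rintro ⟨σ, rfl⟩
      exact ⟨σ, rfl⟩
  rw [h1, Finset.sum_image fun σ _ τ _ h => F6_inj hk v h]

private theorem F6_card {d k : ℕ} (hk : 3 ≤ k) (v : Site d k) (P : Site d k → Prop) (Q : Stp d → Prop)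
    (S : Finset (Site d k)) (T : Finset (Stp d)) (hS : ∀ x, x ∈ S ↔ (tG d k).Adj v x ∧ P x)
    (hT : ∀ σ, σ ∈ T ↔ Q σ) (h : ∀ σ, P (v + sv σ) ↔ Q σ) : S.card = T.card := by
  symm
  refine Finset.card_bij (fun σ _ => v + sv σ) ?_ ?_ ?_
  · intro σ hσ
    rw [hS, F6_adj hk]
    exact ⟨⟨σ, rfl⟩, (h σ).2 ((hT σ).1 hσ)⟩
  · intro σ _ τ _ hστ
    exact F6_inj hk v hστ
  · intro x hx
    rw [hS, F6_adj hk] at hx
    obtain ⟨⟨σ, rfl⟩, hP⟩ := hx
    exact ⟨σ, (hT σ).2 ((h σ).1 hP), rfl⟩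

private theorem F6_nv {d k q : ℕ} (hk : 3 ≤ k) (f : Site d k → Fin q) (v : Site d k) (c : Fin q) :
    (nv (tG d k) f v c : ℝ) = nf c f v := by
  unfold nv nf
  rw [Nat.cast_inj]
  refine F6_card hk v (fun x => f x = c) (fun σ => f (v + sv σ) = c) _ _ ?_ ?_ fun σ => Iff.rfl
  · intro x
    simp
  · intro σ
    simp

private theorem F6_nc {d k q : ℕ} (hk : 3 ≤ k) (f : Site d k → Fin q) (x v : Site d k) (c : Fin q) :
    (nc (tG d k) f x v c : ℝ) = nfx c f x v := by
  unfold nc nfx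
  rw [Nat.cast_inj]
  refine F6_card hk x (fun y => y ≠ v ∧ f y = c) (fun σ => x + sv σ ≠ v ∧ f (x + sv σ) = c) _ _
    ?_ ?_ fun σ => Iff.rfl
  · intro y
    simp
  · intro σ
    simp

private theorem F6_mem_SS {d k q : ℕ} (f : Site d k → Fin q) (x : Site d k) (c : Fin q) :
    c ∈ SS f x ↔ ∃ τ : Stp d, f (x + sv τ) = c := by
  unfold SS
  simp only [Finset.mem_image, Finset.mem_univ, true_and]

private theorem F6_Rv {d k q : ℕ} (hk : 3 ≤ k) (f : Site d k → Fin q) (v : Site d k) :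
    Rv (tG d k) f v = (SS f v)ᶜ := by
  ext c
  rw [Finset.mem_compl, F6_mem_SS]
  simp only [Rv, Finset.mem_filter, Finset.mem_univ, true_and]
  constructor
  · rintro h ⟨τ, hτ⟩
    exact h (v + sv τ) ((F6_adj hk v _).2 ⟨τ, rfl⟩) hτ
  · intro h x hx hc
    obtain ⟨σ, rfl⟩ := (F6_adj hk v x).1 hx
    exact h ⟨σ, hc⟩

private theorem F6_Rv_card {d k q : ℕ} (hk : 3 ≤ k) (f : Site d k → Fin q) (v : Site d k) :
    (Rv (tG d k) f v).card = av f v := by
  rw [F6_Rv hk, Finset.card_compl, Fintype.card_fin]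
  rfl

open scoped Classical in
private theorem F6_Rc {d k q : ℕ} (hk : 3 ≤ k) (f : Site d k → Fin q) (x v : Site d k) (c : Fin q) :
    (if c ∈ Rc (tG d k) f x v then (1 : ℝ) else 0) = zc f x v c := by
  have h1 : c ∈ Rc (tG d k) f x v ↔ ∀ τ : Stp d, x + sv τ ≠ v → f (x + sv τ) ≠ c := by
    simp only [Rc, Finset.mem_filter, Finset.mem_univ, true_and]
    constructor
    · intro h τ hτ
      exact h _ ((F6_adj hk x _).2 ⟨τ, rfl⟩) hτ
    · intro h y hy hyv
      obtain ⟨τ, rfl⟩ := (F6_adj hk x y).1 hy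
      exact h τ hyv
  unfold zc
  by_cases h : ∀ τ : Stp d, x + sv τ ≠ v → f (x + sv τ) ≠ c
  · rw [if_pos (h1.2 h), if_pos h]
  · rw [if_neg (fun h' => h (h1.1 h')), if_neg h]

open scoped Classical in
private theorem F6_o1 {d k q : ℕ} (hk : 3 ≤ k) {f : Site d k → Fin q} (hf : Prp f) (v : Site d k)
    (c : Fin q) (S : Finset (Site d k))
    (hS : ∀ x, x ∈ S ↔ (tG d k).Adj v x ∧ c ∈ Rc (tG d k) f x v) : (S.card : ℝ) ≤ q * hc c f v := by
  have h1 : (S.card : ℝ) = ∑ σ : Stp d, zc f (v + sv σ) v c := by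
    have h2 : S.card = (Finset.univ.filter fun σ : Stp d => c ∈ Rc (tG d k) f (v + sv σ) v).card :=
      F6_card hk v (fun x => c ∈ Rc (tG d k) f x v) (fun σ => c ∈ Rc (tG d k) f (v + sv σ) v) _ _ hS
        (fun σ => by simp) fun σ => Iff.rfl
    rw [h2, ← Finset.sum_boole]
    exact Finset.sum_congr rfl fun σ _ => F6_Rc hk f _ v c
  rw [h1]
  unfold hc
  rw [Finset.mul_sum]
  refine Finset.sum_le_sum fun σ _ => ?_
  have h2 : (1 : ℝ) ≤ av f (v + sv σ) := by exact_mod_cast av_pos hf (v + sv σ)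
  have h3 : (av f (v + sv σ) : ℝ) ≤ q := by
    have : av f (v + sv σ) ≤ q := by
      unfold av
      exact Nat.sub_le _ _
    exact_mod_cast this
  have h4 : 0 ≤ zc f (v + sv σ) v c := by
    rcases zc_01 f (v + sv σ) v c with h5 | h5 <;> rw [h5]
    exact zero_le_one
  rw [mul_div_assoc', le_div_iff₀ (by linarith), mul_comm]
  exact mul_le_mul_of_nonneg_right h3 h4

open scoped Classical in
private theorem F6_cn {α : Type} [Fintype α] (P : α → Prop) (S : Finset α) (hS : ∀ x, x ∈ S ↔ P x) :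
    (S.card : ℝ) = cn P := by
  unfold cn
  have h : S = Finset.univ.filter P := by
    ext x
    rw [hS, Finset.mem_filter]
    simp
  rw [h]

private theorem F6_num {a : ℝ} (h1 : 1000 ≤ a) (h2 : a ≤ 2000) {m : ℝ}
    (hm : 1 - m ≤ 3 * Real.exp (-(2 * a))) : a * (1 - m) + Real.exp (-2100) ≤ Real.exp (-a) := by
  have h3 : a * (1 - m) ≤ Real.exp (-a) / 2 := by
    have h4 : a * (1 - m) ≤ a * (3 * Real.exp (-(2 * a))) :=
      mul_le_mul_of_nonneg_left hm (by linarith)
    have h5 : Real.exp (-(2 * a)) = Real.exp (-a) * Real.exp (-a) := by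
      rw [← Real.exp_add]; congr 1; ring
    have h6 : 6 * a ≤ Real.exp a := by
      have := Real.quadratic_le_exp_of_nonneg (x := a) (by linarith)
      nlinarith
    have h7 : 6 * a * Real.exp (-a) ≤ 1 := by
      have h8 : Real.exp a * Real.exp (-a) = 1 := by rw [← Real.exp_add]; simp
      have h9 := mul_le_mul_of_nonneg_right h6 (Real.exp_pos (-a)).le
      linarith
    have h8 := mul_le_mul_of_nonneg_right h7 (Real.exp_pos (-a)).le
    rw [h5] at h4
    nlinarith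
  have h4 : Real.exp (-2100) ≤ Real.exp (-a) / 2 := by
    have h5 : Real.exp (-2100) = Real.exp (-a) * Real.exp (a - 2100) := by
      rw [← Real.exp_add]; congr 1; ring
    have h6 : Real.exp (a - 2100) ≤ 1 / 2 := by
      have h7 : Real.exp (a - 2100) ≤ Real.exp (-1) := Real.exp_le_exp.2 (by linarith)
      have h8 : Real.exp (-1) ≤ 1 / 2 := by
        rw [Real.exp_neg, ← one_div]
        apply one_div_le_one_div_of_le (by norm_num)
        have := Real.add_one_le_exp (1 : ℝ)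
        linarith
      linarith
    rw [h5]
    have := mul_le_mul_of_nonneg_left h6 (Real.exp_pos (-a)).le
    linarith
  linarith

theorem ty_det : ∃ d₀ : ℕ, ∀ d : ℕ, d₀ ≤ d → ∀ k q : ℕ, 3 ≤ k → Rg d q → ∀ f : Site d k → Fin q, Prp f →
    ∀ (A : Finset (Fin q)) (v : Site d k), TS (Real.exp (-2100)) A f v → (∀ σ : Stp d, TS (Real.exp (-2100)) A f (v + sv σ)) →
    FG f v → Ty d (tG d k) evn A f v := by
  classical
  obtain ⟨d₀, hd₀⟩ := exists_nat_ge (2000 * Real.exp 2000)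
  refine ⟨d₀ + 1, ?_⟩
  intro d hd k q hk hR f hf A v hTS hTSn hFG
  have hd1 : 1 ≤ d := by omega
  obtain ⟨hq0, ha1, ha2, hdq, -, -, -, -, -⟩ := rg_pos hd1 hR
  obtain ⟨hm0, hm1, hm3, hm4, -, -, -, -, -, -, hx⟩ := mf_num ha1 (ms_spec hd1 hR)
  set a : ℝ := ra d q with ha
  set m : ℝ := ms d q with hm
  have hq : (0 : ℝ) < q := by exact_mod_cast hq0
  have hnum := F6_num ha1 ha2 hm3
  have he1 : Real.exp (-a) ≤ 1 := Real.exp_le_one_iff.2 (by linarith)
  have he0 := Real.exp_pos (-a)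
  have hep : ep d q * (2 * d) = Real.exp (-a) * q := by
    unfold ep
    rw [← ha, hdq]
    field_simp
  have hgm_t : ∀ c, tS evn A v c → gm A v c = 1 + m := by
    intro c hc
    unfold gm
    rw [if_pos hc]
  have hgm_f : ∀ c, ¬ tS evn A v c → gm A v c = 1 - m := by
    intro c hc
    unfold gm
    rw [if_neg hc]
  -- bounds for `hc`
  have hc_t : ∀ c, tS evn A v c → hc c f v ≤ Real.exp (-a) := by
    intro c hc
    have h1 := (abs_le.1 (hTS.1 c)).2
    unfold hs at h1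
    rw [hgm_t c hc, ← ha] at h1
    have h2 : a * (2 - (1 + m)) = a * (1 - m) := by ring
    rw [h2] at h1
    linarith
  have hc_f : ∀ c, ¬ tS evn A v c → 1.79 * a ≤ hc c f v := by
    intro c hc
    have h1 := (abs_le.1 (hTS.1 c)).1
    unfold hs at h1
    rw [hgm_f c hc, ← ha] at h1
    have h2 : a * (2 - (1 - m)) = 2 * a - a * (1 - m) := by ring
    rw [h2] at h1
    have h3 : 0 ≤ a * (1 - m) := mul_nonneg (by linarith) hm4.le
    linarith
  have hc_n : ∀ c, ¬ tS evn A v c → ∀ σ : Stp d, hh c f (v + sv σ) ≤ 1.1 * Real.exp (-a) := by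
    intro c hc σ
    have h1 := (abs_le.1 ((hTSn σ).1 c)).2
    unfold hs at h1
    rw [gm_step (by omega), hgm_f c hc, ← ha] at h1
    have h2 : a * (2 - (2 - (1 - m))) = a * (1 - m) := by ring
    rw [h2] at h1
    have h3 := hh_le_hc f (v + sv σ) c
    linarith
  refine ⟨⟨?_, ?_, ?_⟩, ⟨?_, ?_, ?_, ?_⟩⟩
  · -- o1
    intro c hc
    have h1 := F6_o1 hk hf v c ((nb (tG d k) v).filter fun x => c ∈ Rc (tG d k) f x v) (fun x => by
      simp [nb])
    rw [hep]
    refine h1.trans ?_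
    rw [mul_comm]
    exact mul_le_mul_of_nonneg_right (hc_t c hc) hq.le
  · -- o2
    intro c
    rw [F6_sum hk v fun x => (nc (tG d k) f x v c : ℝ) ^ 2]
    simp only [F6_nc hk]
    exact hFG.f4 c
  · -- o3
    intro c hc
    rw [F6_sum hk v fun x => (nc (tG d k) f x v c : ℝ)]
    simp only [F6_nc hk]
    refine hFG.f5 c ?_
    calc ∑ σ : Stp d, hh c f (v + sv σ) ≤ ∑ _σ : Stp d, 1.1 * Real.exp (-a) :=
          Finset.sum_le_sum fun σ _ => hc_n c hc σ
      _ = 1.1 * Real.exp (-a) * (2 * d) := by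
          rw [Finset.sum_const, nsmul_eq_mul, Finset.card_univ, Fintype.card_prod, Fintype.card_fin,
            Fintype.card_bool]
          push_cast
          ring
  · -- e1
    rw [F6_Rv_card hk]
    exact hFG.q3
  · -- e2
    have h1 := hFG.f1
    have hsub : ((Rv (tG d k) f v).filter fun c => ¬ tS evn A v c) ⊆
        (Finset.univ.filter fun c : Fin q => zz f v c = 1 ∧ 1.79 * ra d q ≤ hh c f v) ∪ {f v} := by
      intro c hc
      rw [Finset.mem_filter, F6_Rv hk, Finset.mem_compl] at hc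
      rw [Finset.mem_union, Finset.mem_filter, Finset.mem_singleton]
      by_cases h2 : c = f v
      · exact Or.inr h2
      · left
        refine ⟨Finset.mem_univ _, ?_, ?_⟩
        · unfold zz
          rw [if_neg hc.1]
        · rw [← hc_eq f v c (Ne.symm h2)]
          exact hc_f c hc.2
    have h2 : (((Rv (tG d k) f v).filter fun c => ¬ tS evn A v c).card : ℝ) ≤
        ((Finset.univ.filter fun c : Fin q => zz f v c = 1 ∧ 1.79 * ra d q ≤ hh c f v).card : ℝ) + 1 := by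
      have h3 := (Finset.card_le_card hsub).trans (Finset.card_union_le _ _)
      rw [Finset.card_singleton] at h3
      exact_mod_cast h3
    have h3 : 2 ≤ Real.exp (-a) * q := by
      have h4 : Real.exp (-2000) ≤ Real.exp (-a) := Real.exp_le_exp.2 (by linarith)
      have h5 : 2000 * Real.exp 2000 ≤ d := hd₀.trans (by
        have : d₀ ≤ d := by omega
        exact_mod_cast this)
      have h6 : 2 * Real.exp 2000 ≤ q := by
        have h7 : 2 * (d : ℝ) ≤ 2000 * q := by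
          rw [hdq]
          exact mul_le_mul_of_nonneg_right ha2 hq.le
        linarith
      have h7 : Real.exp (-2000) * Real.exp 2000 = 1 := by
        rw [← Real.exp_add]; simp
      have h8 : Real.exp (-2000) * (2 * Real.exp 2000) ≤ Real.exp (-2000) * q :=
        mul_le_mul_of_nonneg_left h6 (Real.exp_pos _).le
      have h9 := mul_le_mul_of_nonneg_right h4 hq.le
      linarith
    have h4 : ((Finset.univ.filter fun c : Fin q => zz f v c = 1 ∧ 1.79 * ra d q ≤ hh c f v).card : ℝ)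
        ≤ Real.exp (-a) * q / 2 := by
      rw [F6_cn (fun c : Fin q => zz f v c = 1 ∧ 1.79 * ra d q ≤ hh c f v) _ (fun c => by simp)]
      exact h1
    calc (((Rv (tG d k) f v).filter fun c => ¬ tS evn A v c).card : ℝ)
        ≤ Real.exp (-a) * q / 2 + 1 := h2.trans (by linarith)
      _ ≤ Real.exp (-a) * q := by linarith
  · -- e3
    simp only [F6_nv hk]
    exact hFG.f2
  · -- e4
    simp only [F6_nv hk]
    refine le_trans ?_ hFG.f3
    rw [Finset.sum_filter]
    refine Finset.sum_le_sum fun c _ => ?_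
    have h0 : 0 ≤ ind (hh c f v ≤ 1.1 * Real.exp (-a)) * nf c f v ^ 2 := by
      unfold ind
      split_ifs <;> positivity
    by_cases hc : tS evn A v c
    · rw [if_pos hc]
      have h1 : hh c f v ≤ 1.1 * Real.exp (-a) := by
        have h2 := hh_le_hc f v c
        have h3 := hc_t c hc
        linarith
      have h2 : ind (hh c f v ≤ 1.1 * Real.exp (-a)) = 1 := by
        unfold ind
        rw [if_pos h1]
      rw [h2, one_mul]
    · rw [if_neg hc]
      exact h0

end Pool.Agent.LC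

end
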