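import Pool.Agent.Lib_MP_2c424f_m.M01
import Pool.Agent.Lib_MP_2c424f_m.M20

/-!
# MP_2c424f_pr, q_c grows linearly: merged library part M21

Concatenation of smaller files (each in its own section), only to save build time.
-/

namespace Pool.Agent.LO
end Pool.Agent.LO

namespace Pool.Agent.LIN
end Pool.Agent.LIN

namespace Pool.Agent.THR
end Pool.Agent.THR

namespace Pool.Agent.COR
end Pool.Agent.COR

namespace Pool.Agent.LC
end Pool.Agent.LC

/-! ### from `Lib_MP_2c424f_lc7.E14` -/

section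

/-!
# LC7 E14: paths in the box and the Harnack inequality

* `bG_deg`: at most `2 d` neighbours.
* `path_low`: from `0` to `x` inside `∏ [0, x i]`, `∑ x i ≤ d M` steps; `path_high`: from the corner `(N, …, N)` to `y` inside `∏ [y i, N]` (increase or decrease the
  coordinates one after the other).
* `harn`: `x`, `y` with `x i < y j` for all `i, j` (so the two regions are disjoint; `d ≥ 1`): `harnack_path` along the reversed path from `0` to `x` (avoids `y`), then
  (`WK_symm`) from the corner to `y` (avoids `0`: `y i > 0`): `WK x y ≤ (1 + q 4^d)^(m) WK 0 y ≤ (1 + q 4^d)^(m + m') WK (corner) 0`; `m, m' ≤ d M`.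
  (`1 ≤ 1 + q 4^d`, so the exponents may be increased; `WK_nonneg`.)
-/

set_option autoImplicit false

open Finset Filter

namespace Pool.Agent.LC

open Pool.Agent.LO Pool.Agent.LIN Pool.Agent.THR Pool.Agent.COR

private theorem E14_sum {d N : ℕ} (x y : BxV d N) (i : Fin d) (h : ∀ j, j ≠ i → x j = y j) :
    (∑ j, (x j).val) + (y i).val = (∑ j, (y j).val) + (x i).val := by
  have h1 : ∑ j, (x j).val = (x i).val + ∑ j ∈ univ.erase i, (x j).val :=
    (add_sum_erase univ (fun j => (x j).val) (mem_univ i)).symm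
  have h2 : ∑ j, (y j).val = (y i).val + ∑ j ∈ univ.erase i, (y j).val :=
    (add_sum_erase univ (fun j => (y j).val) (mem_univ i)).symm
  have h3 : ∑ j ∈ univ.erase i, (x j).val = ∑ j ∈ univ.erase i, (y j).val := by
    refine sum_congr rfl fun j hj => ?_
    rw [h j (ne_of_mem_erase hj)]
  rw [h1, h2, h3]
  omega

theorem bG_par' (d l : ℕ) : Par (bG d l) bev := by
  rintro x y ⟨i, h, h'⟩
  have hs := E14_sum x y i h
  unfold bev
  rw [Nat.even_iff, Nat.even_iff]
  rcases h' with h' | h' <;> omega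

open scoped Classical in
theorem bG_deg (d l : ℕ) (v : BxV d l) : (univ.filter fun x => (bG d l).Adj v x).card ≤ 2 * d := by
  have hsub : (univ.filter fun x => (bG d l).Adj v x) ⊆ (univ : Finset (Fin d × Bool)).image fun p =>
      Function.update v p.1 (if p.2 then (⟨min ((v p.1).val + 1) l, by omega⟩ : Fin (l + 1))
        else ⟨(v p.1).val - 1, by have := (v p.1).isLt; omega⟩) := by
    intro x hx
    simp only [mem_filter, mem_univ, true_and] at hx
    obtain ⟨i, h, h'⟩ := hx
    simp only [mem_image, mem_univ, true_and, Prod.exists]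
    rcases h' with h' | h'
    · refine ⟨i, true, ?_⟩
      funext j
      by_cases hj : j = i
      · subst hj
        have := (x j).isLt
        rw [Function.update_self]
        apply Fin.ext
        simp only [if_true]
        omega
      · rw [Function.update_of_ne hj, h j hj]
    · refine ⟨i, false, ?_⟩
      funext j
      by_cases hj : j = i
      · subst hj
        rw [Function.update_self]
        apply Fin.ext
        simp only [Bool.false_eq_true, if_false]
        omega
      · rw [Function.update_of_ne hj, h j hj]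
  calc (univ.filter fun x => (bG d l).Adj v x).card ≤ _ := card_le_card hsub
    _ ≤ (univ : Finset (Fin d × Bool)).card := card_image_le
    _ = 2 * d := by rw [card_univ, Fintype.card_prod, Fintype.card_fin, Fintype.card_bool, mul_comm]

private theorem E14_gen {W : Type} [Fintype W] [DecidableEq W] {q : ℕ} {G : SimpleGraph W} {ev : W → Prop}
    (hG : Par G ev) (Δ : ℕ) (hΔ : ∀ v, (nb G v).card ≤ Δ) (y x₀ : W) (μ : W → ℕ) (P : W → Prop)
    (h0 : ∀ x, P x → μ x = 0 → x = x₀) (hs : ∀ x, P x → μ x ≠ 0 → ∃ x', P x' ∧ μ x' + 1 = μ x ∧ G.Adj x' x)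
    (hy : ∀ x, P x → y ≠ x) (n : ℕ) : ∀ x, P x → μ x = n → WK q G x y ≤ (1 + (q : ℝ) * 2 ^ Δ) ^ n * WK q G x₀ y := by
  induction n with
  | zero =>
    intro x hx hn
    rw [h0 x hx hn, pow_zero, one_mul]
  | succ n ih =>
    intro x hx hn
    obtain ⟨x', hx', hμ, hadj⟩ := hs x hx (by omega)
    have h1 := ih x' hx' (by omega)
    have h2 := harnack (q := q) hG hadj (hy x' hx') (hy x hx) Δ (hΔ x')
    have h3 : (0 : ℝ) ≤ 1 + (q : ℝ) * 2 ^ Δ := by positivity
    calc WK q G x y ≤ (1 + (q : ℝ) * 2 ^ Δ) * WK q G x' y := h2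
      _ ≤ (1 + (q : ℝ) * 2 ^ Δ) * ((1 + (q : ℝ) * 2 ^ Δ) ^ n * WK q G x₀ y) :=
        mul_le_mul_of_nonneg_left h1 h3
      _ = (1 + (q : ℝ) * 2 ^ Δ) ^ (n + 1) * WK q G x₀ y := by ring

private theorem E14_low {d q N M : ℕ} (hd : 1 ≤ d) (x y : BxV d N) (hx : ∀ i, (x i).val ≤ M)
    (hxy : ∀ i j, (x i).val < (y j).val) :
    WK q (bG d N) x y ≤ (1 + (q : ℝ) * 4 ^ d) ^ (d * M) * WK q (bG d N) (fun _ => 0) y := by
  classical
  have e4 : (2 : ℝ) ^ (2 * d) = 4 ^ d := by
    rw [pow_mul]; norm_num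
  have h := E14_gen (q := q) (bG_par' d N) (2 * d) (fun v => bG_deg d N v) y (fun _ => 0)
    (fun x => ∑ i, (x i).val) (fun x => ∀ i j, (x i).val < (y j).val) ?_ ?_ ?_ (∑ i, (x i).val) x hxy rfl
  · rw [e4] at h
    refine h.trans (mul_le_mul_of_nonneg_right ?_ (WK_nonneg _ _ _))
    refine pow_le_pow_right₀ ?_ ?_
    · have : (0 : ℝ) ≤ (q : ℝ) * 4 ^ d := by positivity
      linarith
    · calc ∑ i, (x i).val ≤ ∑ _i : Fin d, M := sum_le_sum fun i _ => hx i
        _ = d * M := by rw [sum_const, card_univ, Fintype.card_fin, smul_eq_mul]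
  · intro z _ hz
    funext i
    apply Fin.ext
    have := (sum_eq_zero_iff.1 hz) i (mem_univ i)
    simpa using this
  · intro z hz hne
    obtain ⟨i, hi⟩ : ∃ i, (z i).val ≠ 0 := by
      by_contra hc
      exact hne (sum_eq_zero fun i _ => by
        by_contra h'
        exact hc ⟨i, h'⟩)
    have hadj : (bG d N).Adj (Function.update z i ⟨(z i).val - 1, by have := (z i).isLt; omega⟩) z := by
      refine ⟨i, fun j hj => Function.update_of_ne hj _ _, Or.inl ?_⟩
      rw [Function.update_self]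
      show (z i).val - 1 + 1 = (z i).val
      omega
    refine ⟨Function.update z i ⟨(z i).val - 1, by have := (z i).isLt; omega⟩, ?_, ?_, hadj⟩
    · intro j k
      by_cases hj : j = i
      · subst hj
        rw [Function.update_self]
        show (z j).val - 1 < (y k).val
        have := hz j k
        omega
      · rw [Function.update_of_ne hj]
        exact hz j k
    · have hs := E14_sum (Function.update z i (⟨(z i).val - 1, by have := (z i).isLt; omega⟩ : Fin (N + 1))) z i
        (fun j hj => Function.update_of_ne hj _ _)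
      rw [Function.update_self] at hs
      have hs' : (∑ j, ((Function.update z i (⟨(z i).val - 1, by have := (z i).isLt; omega⟩ : Fin (N + 1))) j).val) +
          (z i).val = (∑ j, (z j).val) + ((z i).val - 1) := hs
      show (∑ j, ((Function.update z i (⟨(z i).val - 1, by have := (z i).isLt; omega⟩ : Fin (N + 1))) j).val) + 1 =
        ∑ j, (z j).val
      omega
  · intro z hz he
    have := hz ⟨0, by omega⟩ ⟨0, by omega⟩
    rw [he] at this
    omega

private theorem E14_high {d q N M : ℕ} (hd : 1 ≤ d) (y : BxV d N) (hy : ∀ i, N ≤ (y i).val + M)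
    (hy0 : ∀ i, 0 < (y i).val) :
    WK q (bG d N) y (fun _ => 0) ≤ (1 + (q : ℝ) * 4 ^ d) ^ (d * M) *
      WK q (bG d N) (fun _ => Fin.last N) (fun _ => 0) := by
  classical
  have e4 : (2 : ℝ) ^ (2 * d) = 4 ^ d := by
    rw [pow_mul]; norm_num
  have h := E14_gen (q := q) (bG_par' d N) (2 * d) (fun v => bG_deg d N v) (fun _ => 0) (fun _ => Fin.last N)
    (fun x => ∑ i, (N - (x i).val)) (fun x => ∀ i, 0 < (x i).val) ?_ ?_ ?_ (∑ i, (N - (y i).val)) y hy0 rfl
  · rw [e4] at h
    refine h.trans (mul_le_mul_of_nonneg_right ?_ (WK_nonneg _ _ _))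
    refine pow_le_pow_right₀ ?_ ?_
    · have : (0 : ℝ) ≤ (q : ℝ) * 4 ^ d := by positivity
      linarith
    · calc ∑ i, (N - (y i).val) ≤ ∑ _i : Fin d, M := sum_le_sum fun i _ => by
            have := hy i
            omega
        _ = d * M := by rw [sum_const, card_univ, Fintype.card_fin, smul_eq_mul]
  · intro z _ hz
    funext i
    apply Fin.ext
    have h1 := (sum_eq_zero_iff.1 hz) i (mem_univ i)
    have h2 := (z i).isLt
    show (z i).val = N
    omega
  · intro z hz hne
    obtain ⟨i, hi⟩ : ∃ i, N - (z i).val ≠ 0 := by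
      by_contra hc
      exact hne (sum_eq_zero fun i _ => by
        by_contra h'
        exact hc ⟨i, h'⟩)
    have hlt : (z i).val + 1 < N + 1 := by omega
    have hadj : (bG d N).Adj (Function.update z i ⟨(z i).val + 1, hlt⟩) z := by
      refine ⟨i, fun j hj => Function.update_of_ne hj _ _, Or.inr ?_⟩
      rw [Function.update_self]
    refine ⟨Function.update z i ⟨(z i).val + 1, hlt⟩, ?_, ?_, hadj⟩
    · intro j
      by_cases hj : j = i
      · subst hj
        rw [Function.update_self]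
        show 0 < (z j).val + 1
        omega
      · rw [Function.update_of_ne hj]
        exact hz j
    · have h1 : ∑ j, (N - (Function.update z i (⟨(z i).val + 1, hlt⟩ : Fin (N + 1)) j).val) =
          (N - ((z i).val + 1)) + ∑ j ∈ univ.erase i, (N - (z j).val) := by
        rw [← add_sum_erase univ _ (mem_univ i), Function.update_self]
        congr 1
        refine sum_congr rfl fun j hj => ?_
        rw [Function.update_of_ne (ne_of_mem_erase hj)]
      have h2 : ∑ j, (N - (z j).val) = (N - (z i).val) + ∑ j ∈ univ.erase i, (N - (z j).val) :=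
        (add_sum_erase univ (fun j => N - (z j).val) (mem_univ i)).symm
      show ∑ j, (N - (Function.update z i (⟨(z i).val + 1, hlt⟩ : Fin (N + 1)) j).val) + 1 =
        ∑ j, (N - (z j).val)
      rw [h1, h2]
      omega
  · intro z hz he
    have := hz ⟨0, by omega⟩
    rw [← he] at this
    exact absurd this (by simp)

theorem harn {d q N M : ℕ} (hd : 1 ≤ d) (x y : BxV d N) (hx : ∀ i, (x i).val ≤ M) (hy : ∀ i, N ≤ (y i).val + M)
    (hxy : ∀ i j, (x i).val < (y j).val) :
    WK q (bG d N) x y ≤ (1 + (q : ℝ) * 4 ^ d) ^ (2 * (d * M)) * WK q (bG d N) (fun _ => 0) (fun _ => Fin.last N) := by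
  have hC : (0 : ℝ) ≤ (1 + (q : ℝ) * 4 ^ d) ^ (d * M) := by positivity
  have s1 := E14_low (q := q) hd x y hx hxy
  have s2 := E14_high (q := q) hd y hy (fun i => lt_of_le_of_lt (Nat.zero_le _) (hxy i i))
  have hp := bG_par' d N
  calc WK q (bG d N) x y ≤ (1 + (q : ℝ) * 4 ^ d) ^ (d * M) * WK q (bG d N) (fun _ => 0) y := s1
    _ = (1 + (q : ℝ) * 4 ^ d) ^ (d * M) * WK q (bG d N) y (fun _ => 0) := by
        rw [WK_symm hp (fun _ => 0) y]
    _ ≤ (1 + (q : ℝ) * 4 ^ d) ^ (d * M) * ((1 + (q : ℝ) * 4 ^ d) ^ (d * M) *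
        WK q (bG d N) (fun _ => Fin.last N) (fun _ => 0)) := mul_le_mul_of_nonneg_left s2 hC
    _ = (1 + (q : ℝ) * 4 ^ d) ^ (2 * (d * M)) * WK q (bG d N) (fun _ => Fin.last N) (fun _ => 0) := by
        rw [two_mul (d * M), pow_add (1 + (q : ℝ) * 4 ^ d)]
        ring
    _ = _ := by rw [WK_symm hp (fun _ => Fin.last N) (fun _ => 0)]

end Pool.Agent.LC

end

/-! ### from `Lib_MP_2c424f_lc7.E01` -/

section

/-!
# LC7 E01: the magnetisation

`ra d q = 2 d/q ∈ [1000, 2000]`; `mfe_exists`, so `ms d q` satisfies `MFE`; `mfe_nondeg`: `a² (1 - m²) < 1`; `mfe_lt`: `m < 1`.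
-/

set_option autoImplicit false

open Finset Filter

namespace Pool.Agent.LC

open Pool.Agent.LO Pool.Agent.LIN Pool.Agent.THR Pool.Agent.COR

private theorem E01_q {d q : ℕ} (hR : Rg d q) (hd : 1 ≤ d) : 2 ≤ q := by
  obtain ⟨⟨k, hk⟩, -, h⟩ := hR
  omega

private theorem E01_ra {d q : ℕ} (hR : Rg d q) (hd : 1 ≤ d) : 1000 ≤ ra d q := by
  have hq := E01_q hR hd
  have hq' : (0 : ℝ) < q := by exact_mod_cast (by omega : 0 < q)
  have h : ((1000 * q : ℕ) : ℝ) ≤ ((2 * d : ℕ) : ℝ) := by exact_mod_cast hR.2.1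
  push_cast at h
  unfold ra
  rw [le_div_iff₀ hq']
  exact h

theorem ms_MFE {d q : ℕ} (hR : Rg d q) (hd : 1 ≤ d) : MFE (ra d q) (ms d q) := by
  have h1 := E01_ra hR hd
  have h2 : ∃ m : ℝ, MFE (ra d q) m := mfe_exists _ (by linarith)
  unfold ms
  rw [dif_pos h2]
  exact h2.choose_spec

theorem ms_ge {d q : ℕ} (hR : Rg d q) (hd : 1 ≤ d) : 999 / 1000 ≤ ms d q ∧ ms d q < 1 := by
  have h1 := E01_ra hR hd
  have h2 := ms_MFE hR hd
  refine ⟨?_, mfe_lt _ _ h2⟩
  have h3 := mfe_nondeg _ _ (by linarith) h2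
  have h4 : 0 < ms d q := h2.1
  have h5 := mfe_lt _ _ h2
  by_contra hc
  push Not at hc
  have h6 : (ms d q) ^ 2 ≤ (999 / 1000) ^ 2 := by
    apply pow_le_pow_left₀ h4.le hc.le
  have h7 : (1000 : ℝ) ^ 2 ≤ (ra d q) ^ 2 := pow_le_pow_left₀ (by norm_num) h1 2
  have h8 : (0 : ℝ) ≤ 1 - (ms d q) ^ 2 - (1 - (999 / 1000) ^ 2) := by linarith
  nlinarith

theorem Rg_pos {d q : ℕ} (hR : Rg d q) (hd : 1 ≤ d) : 2 ≤ q := by
  exact E01_q hR hd

end Pool.Agent.LC

end

/-! ### from `Lib_MP_2c424f_lc7.E02` -/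

section

/-!
# LC7 E02: neighbouring good blocks have the same label

The face `a j = b j = true` of `g` is the face `a j = b j = false` of `g'`; `frq e (some (j, true)) c g = frq e (some (j, false)) c g'` (bijection of the pairs of
bit vectors, `od` is the same).  If `c` has the label `st false` for `g` the frequency at the even points of the face is `≥ 1 + m - η`; if it had the label
`st true` for `g'` it would be `≤ 1 - m + η` (`η = 1/1000`, `m ≥ 999/1000`).  So the labels agree (`G0P`: every colour has a label).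
Also `st true` and `st false` exclude each other.
-/

set_option autoImplicit false

open Finset Filter

namespace Pool.Agent.LC

open Pool.Agent.LO Pool.Agent.LIN Pool.Agent.THR Pool.Agent.COR

private theorem e02_flp {d : ℕ} (a : Bt d) (j : Fin d) : flp (flp a j) j = a := by
  funext i
  by_cases h : i = j
  · subst h
    simp [flp]
  · simp [flp, Function.update_of_ne h]

private theorem e02_flpj {d : ℕ} (a : Bt d) (j : Fin d) : flp a j j = !a j := by
  simp [flp]

private theorem e02_od {d : ℕ} (a b : Bt d) (j : Fin d) : od (flp a j) (flp b j) ↔ od a b := by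
  unfold od
  have : (univ.filter fun i => flp a j i ≠ flp b j i) = univ.filter fun i => a i ≠ b i := by
    ext i
    simp only [mem_filter, mem_univ, true_and]
    by_cases h : i = j
    · subst h
      rw [e02_flpj, e02_flpj]
      simp
    · simp [flp, Function.update_of_ne h]
  rw [this]

open scoped Classical in
private theorem e02_mem_e {d : ℕ} (s : Shp d) (p : Bt d × Bt d) :
    p ∈ eS s ↔ ¬ od p.1 p.2 ∧ inS s p.1 p.2 := by
  unfold eS
  rw [mem_filter]
  exact ⟨fun h => h.2, fun h => ⟨mem_univ _, h⟩⟩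

open scoped Classical in
private theorem e02_mem_o {d : ℕ} (s : Shp d) (p : Bt d × Bt d) :
    p ∈ oS s ↔ od p.1 p.2 ∧ inS s p.1 p.2 := by
  unfold oS
  rw [mem_filter]
  exact ⟨fun h => h.2, fun h => ⟨mem_univ _, h⟩⟩

/-- the points of the shape with the parity `e` -/
private noncomputable def eoS {d : ℕ} (e : Bool) (s : Shp d) : Finset (Bt d × Bt d) := if e then eS s else oS s

private theorem e02_mem {d : ℕ} (e : Bool) (s : Shp d) (p : Bt d × Bt d) :
    p ∈ eoS e s ↔ (od p.1 p.2 ↔ e = false) ∧ inS s p.1 p.2 := by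
  unfold eoS
  cases e
  · simp only [Bool.false_eq_true, if_false]
    rw [e02_mem_o]
    simp
  · simp only [if_true]
    rw [e02_mem_e]
    simp

private theorem e02_face {d : ℕ} (e : Bool) (j : Fin d) (β : Bool) (p : Bt d × Bt d)
    (hp : p ∈ eoS e (some (j, β))) : (flp p.1 j, flp p.2 j) ∈ eoS e (some (j, !β)) := by
  rw [e02_mem] at hp ⊢
  refine ⟨?_, ?_⟩
  · change od (flp p.1 j) (flp p.2 j) ↔ _
    rw [e02_od]
    exact hp.1
  · have h : p.1 j = β ∧ p.2 j = β := hp.2
    change flp p.1 j j = !β ∧ flp p.2 j j = !β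
    rw [e02_flpj, e02_flpj, h.1, h.2]
    exact ⟨rfl, rfl⟩

private theorem e02_frq {d q : ℕ} (e : Bool) (s : Shp d) (c : Fin q) (g : Pat d q) :
    frq e s c g = (∑ p ∈ eoS e s, if g p.1 p.2 = c then (q : ℝ) else 0) / ((eoS e s).card : ℝ) := by
  unfold frq eoS
  congr 1

private theorem frq_face {d q : ℕ} (e : Bool) (j : Fin d) (c : Fin q) (g g' : Pat d q)
    (h : ∀ a b : Bt d, a j = true → b j = true → g a b = g' (flp a j) (flp b j)) :
    frq e (some (j, true)) c g = frq e (some (j, false)) c g' := by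
  rw [e02_frq, e02_frq]
  have hinv : ∀ p : Bt d × Bt d, (flp (flp p.1 j) j, flp (flp p.2 j) j) = p := fun p => by
    rw [e02_flp, e02_flp]
  have hc : (eoS e (some (j, true))).card = (eoS e (some (j, false))).card := by
    refine Finset.card_bij' (fun p _ => (flp p.1 j, flp p.2 j)) (fun p _ => (flp p.1 j, flp p.2 j))
      (fun p hp => e02_face e j true p hp) (fun p hp => e02_face e j false p hp)
      (fun p _ => hinv p) (fun p _ => hinv p)
  have hs : (∑ p ∈ eoS e (some (j, true)), if g p.1 p.2 = c then (q : ℝ) else 0) =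
      ∑ p ∈ eoS e (some (j, false)), if g' p.1 p.2 = c then (q : ℝ) else 0 := by
    refine Finset.sum_bij' (fun p _ => (flp p.1 j, flp p.2 j)) (fun p _ => (flp p.1 j, flp p.2 j))
      (fun p hp => e02_face e j true p hp) (fun p hp => e02_face e j false p hp)
      (fun p _ => hinv p) (fun p _ => hinv p) (fun p hp => ?_)
    rw [e02_mem] at hp
    have h1 : p.1 j = true ∧ p.2 j = true := hp.2
    rw [h p.1 p.2 h1.1 h1.2]
  rw [hc, hs]

private theorem e02_lab {d q : ℕ} {g : Pat d q} (hg : G0P g) (c : Fin q) : st et true c g ∨ st et false c g := by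
  by_contra hno
  rw [not_or] at hno
  exact hg c hno

open scoped Classical in
private theorem e02_ALP {d q : ℕ} (g : Pat d q) (c : Fin q) : c ∈ ALP g ↔ st et false c g := by
  unfold ALP
  rw [mem_filter]
  exact ⟨fun h => h.2, fun h => ⟨mem_univ _, h⟩⟩

/-- the labels of the faces exclude each other -/
private theorem e02_key {d q : ℕ} (hR : Rg d q) (hd : 1 ≤ d) (j : Fin d) (β β' : Bool) (g g' : Pat d q) (c : Fin q)
    (hf : frq true (some (j, β)) c g = frq true (some (j, β')) c g') (h1 : st et false c g) (h2 : st et true c g') :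
    False := by
  have hm := (ms_ge hR hd).1
  have h3 := (h1 (some (j, β))).1
  have h4 := (h2 (some (j, β'))).2
  simp only [Bool.not_false] at h3
  rw [hf] at h3
  rw [abs_le] at h3 h4
  unfold et at h3 h4
  linarith [h3.1, h4.2]

theorem ALP_adj {d q : ℕ} (hR : Rg d q) (hd : 1 ≤ d) (j : Fin d) (g g' : Pat d q)
    (h : ∀ a b : Bt d, a j = true → b j = true → g a b = g' (flp a j) (flp b j)) (hg : G0P g) (hg' : G0P g') :
    ALP g = ALP g' := by
  have hf : ∀ c, frq true (some (j, true)) c g = frq true (some (j, false)) c g' := fun c =>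
    frq_face true j c g g' h
  ext c
  rw [e02_ALP, e02_ALP]
  constructor
  · intro h1
    rcases e02_lab hg' c with h2 | h2
    · exact (e02_key hR hd j true false g g' c (hf c) h1 h2).elim
    · exact h2
  · intro h1
    rcases e02_lab hg c with h2 | h2
    · exact (e02_key hR hd j false true g' g c (hf c).symm h1 h2).elim
    · exact h2

theorem not_ALP {d q : ℕ} (g : Pat d q) (hg : G0P g) (c : Fin q) (hc : c ∉ ALP g) : st et true c g := by
  rcases e02_lab hg c with h | h
  · exact h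
  · exact (hc ((e02_ALP g c).2 h)).elim

end Pool.Agent.LC

end

/-! ### from `Lib_MP_2c424f_lc6a.Defs` -/

section

/-!
# MP_2c424f_pr, corners in the linear regime, part VI.A: definitions

Boxes `D = a + ∏ [0, m i]` inside the big box `{0..N}^d`.
-/

set_option autoImplicit false

open Finset Filter

namespace Pool.Agent.LC

open Pool.Agent.LO Pool.Agent.LIN Pool.Agent.THR Pool.Agent.COR

section box
variable {d : ℕ}

/-- vertices of the box with the side lengths `m` -/
abbrev DV (m : Fin d → ℕ) := ∀ i, Fin (m i + 1)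

/-- its graph -/
def DG (m : Fin d → ℕ) : SimpleGraph (DV m) := prG (fun i => m i + 1) fun i => lnG false (m i + 1)

/-- its boundary -/
def Dgl (m : Fin d → ℕ) (x : DV m) : Prop := ∃ i, (x i).val = 0 ∨ (x i).val = m i

/-- the position in the big box -/
def plc {N : ℕ} (a m : Fin d → ℕ) (x : DV m) : BxV d N := fun i => Fin.ofNat (N + 1) (a i + (x i).val)

end box

end Pool.Agent.LC

end

/-! ### from `Lib_MP_2c424f_lc7.Defs` -/

section

/-!
# MP_2c424f_pr, corners in the linear regime, part VII: definitions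

Everything is a function of one number `e` (`2^e` is the side of the cells): `h = s = 4^e`, `L = 2^(5e)`, `w = 2 L`.  The big box has the side
`NS e K = w 2^K + 6 h + 2`; large blocks `t : Blk d K` (coordinates `(t i).val ∈ {0, …, 2^K - 1}`) at the position `aS e t = 2 h + 2 + w t`, side
`lm false L s = 2 (L - 1) + 2 s`; a domino `(u, j)` is the union of the large blocks `u` and `LO.nxt u j`: its side in the direction `j` is `lm false (2 L) s`.
-/

set_option autoImplicit false

open Finset Filter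

namespace Pool.Agent.LC

open Pool.Agent.LO Pool.Agent.LIN Pool.Agent.THR Pool.Agent.COR

/-- `h = s = 4^e` -/
def hS (e : ℕ) : ℕ := 4 ^ e

/-- `w = 2 L` -/
def wS (e : ℕ) : ℕ := 2 * 2 ^ (5 * e)

/-- side of the big box -/
def NS (e K : ℕ) : ℕ := wS e * 2 ^ K + 6 * hS e + 2

/-- exponent of the number of blocks: single block (`none`) or domino in the direction `j` -/
def rS (e : ℕ) {d : ℕ} (j : Option (Fin d)) (i : Fin d) : ℕ := if j = some i then 5 * e + 1 else 5 * e

/-- half lengths -/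
def LS (e : ℕ) {d : ℕ} (j : Option (Fin d)) (i : Fin d) : ℕ := 2 ^ rS e j i

/-- the side of the cells -/
noncomputable def eC (C d : ℕ) : ℕ := Nat.clog 2 (d ^ C)

section
variable {d q K : ℕ}

/-- position of a large block -/
def aS (e : ℕ) (t : Blk d K) (i : Fin d) : ℕ := 2 * hS e + 2 + wS e * (t i).val

/-- the colouring in a large block or domino -/
def fD (e : ℕ) (u : Blk d K) (j : Option (Fin d)) (f : BxV d (NS e K) → Fin q) :
    WV (fun _ : Fin d => false) (LS e j) (hS e) → Fin q :=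
  fun x => f (plc (aS e u) (fun i => lm false (LS e j i) (hS e)) x)

end

section
variable {d q : ℕ}

/-- the pattern of a block of a doubled box -/
def Wpat (L : Fin d → ℕ) (s : ℕ) (f : WV (fun _ : Fin d => false) L s → Fin q) (t : Fin d → ℕ) : Pat d q :=
  fun a b => f (Wpt (fun _ => false) L s t a b)

open scoped Classical in
/-- pure: most blocks are good with the same label -/
def WPU (L : Fin d → ℕ) (s : ℕ) (f : WV (fun _ : Fin d => false) L s → Fin q) : Prop :=
  ∃ A : Finset (Fin q), A.card = q / 2 ∧ (49 : ℝ) / 50 * ∏ i, ((L i : ℝ) - 1) ≤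
    ((univ.filter fun t : ∀ i, Fin (nbk false (L i)) => GDP (Wpat L s f fun i => (t i).val) ∧
      ALP (Wpat L s f fun i => (t i).val) = A).card : ℝ)

end

section
variable {d q K : ℕ}

/-- one of the dominoes which contain the large block is not pure -/
def BADd (e : ℕ) (t : Blk d K) (f : BxV d (NS e K) → Fin q) : Prop :=
  ∃ (u : Blk d K) (j : Fin d), (u j).val + 1 < 2 ^ K ∧ (u = t ∨ LO.nxt u j = t) ∧ ¬ WPU (LS e (some j)) (hS e) (fD e u (some j) f)

open scoped Classical in
/-- most blocks of the large block are good with the label `A` -/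
def NGd (e : ℕ) (A : Finset (Fin q)) (t : Blk d K) (f : BxV d (NS e K) → Fin q) : Prop :=
  (19 : ℝ) / 20 * ∏ i, ((LS e (none : Option (Fin d)) i : ℝ) - 1) ≤
    ((univ.filter fun τ : ∀ i : Fin d, Fin (nbk false (LS e (none : Option (Fin d)) i)) =>
      GDP (Wpat (LS e none) (hS e) (fD e t none f) fun i => (τ i).val) ∧
        ALP (Wpat (LS e none) (hS e) (fD e t none f) fun i => (τ i).val) = A).card : ℝ)

open scoped Classical in
/-- in at least half of the blocks of the large block the colour `c` belongs to the label -/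
def labD (e : ℕ) (c : Fin q) (t : Blk d K) (f : BxV d (NS e K) → Fin q) : Prop :=
  (1 : ℝ) / 2 * ∏ i, ((LS e (none : Option (Fin d)) i : ℝ) - 1) ≤
    ((univ.filter fun τ : ∀ i : Fin d, Fin (nbk false (LS e (none : Option (Fin d)) i)) =>
      c ∈ ALP (Wpat (LS e none) (hS e) (fD e t none f) fun i => (τ i).val)).card : ℝ)

/-- far large blocks -/
def farD (t t' : Blk d K) : Prop := ∃ i, (t i).val + 4 ≤ (t' i).val ∨ (t' i).val + 4 ≤ (t i).val

end

end Pool.Agent.LC

end

/-! ### from `Lib_MP_2c424f_lc7.E10` -/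

section

/-!
# LC7 E10: labels of the large blocks

As `Lib_MP_2c424f_cor/F07.lean`.  `e ≥ 2`, so `L = 2^(5e) ≥ 1000`.
* `fD_pat`: the block `τ` of the large block `u` is the block `τ` of the domino `(u, j)`, the block `τ` of `LO.nxt u j` is the block
  `update τ j (τ j + L)` of the domino (`(LO.nxt u j j).val = (u j).val + 1`, positions `aS + s + 2 τ`).
* `dom_NGd`: the domino has `(2L-1)/(L-1) ≤ 2.01` times as many blocks as a large block, so at most `2.01/50 ≤ 1/20` of the blocks are exceptional.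
* `NGd_lab`: `#{τ : c ∈ ALP}` is at least `19/20` of all if `c ∈ A`, at most `1/20` if not.
* `good_NGd` (`K ≥ 1`, `d ≥ 1`): some domino contains the large block; `good_adjd`.
-/

set_option autoImplicit false

open Finset Filter

namespace Pool.Agent.LC

open Pool.Agent.LO Pool.Agent.LIN Pool.Agent.THR Pool.Agent.COR

variable {d q K : ℕ}

private theorem E10_L {e : ℕ} (he : 2 ≤ e) : 1000 ≤ 2 ^ (5 * e) := by
  calc 1000 ≤ 2 ^ 10 := by norm_num
    _ ≤ 2 ^ (5 * e) := Nat.pow_le_pow_right (by norm_num) (by omega)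

private theorem E10_Ln (e : ℕ) (i : Fin d) : LS e (none : Option (Fin d)) i = 2 ^ (5 * e) := by
  unfold LS rS
  rw [if_neg (by simp)]

private theorem E10_Lj (e : ℕ) (j : Fin d) : LS e (some j) j = 2 * 2 ^ (5 * e) := by
  unfold LS rS
  rw [if_pos rfl, pow_succ, mul_comm]

private theorem E10_Lo (e : ℕ) {i j : Fin d} (h : i ≠ j) : LS e (some j) i = 2 ^ (5 * e) := by
  unfold LS rS
  rw [if_neg (by simpa using fun h' => h h'.symm)]

private theorem E10_Lge (e : ℕ) (i j : Fin d) : 2 ^ (5 * e) ≤ LS e (some j) i := by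
  by_cases h : i = j
  · subst h
    rw [E10_Lj]
    omega
  · rw [E10_Lo e h]

private theorem E10_b01 (a : Bool) : b01 a ≤ 1 := by
  unfold b01
  split_ifs <;> omega

private theorem E10_pat {e : ℕ} (u : Blk d K) (j : Option (Fin d)) (f : BxV d (NS e K) → Fin q)
    (τ : Fin d → ℕ) (hτ : ∀ i, τ i + 1 < LS e j i) :
    Wpat (LS e j) (hS e) (fD e u j f) τ = fun a b => f fun i =>
      Fin.ofNat (NS e K + 1) (aS e u i + (hS e + 2 * τ i + b01 (a i) + b01 (b i))) := by
  funext a b
  show f _ = f _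
  congr 1
  funext i
  have h1 : (Wpt (fun _ => false) (LS e j) (hS e) τ a b i).val =
      hS e + 2 * τ i + b01 (a i) + b01 (b i) := by
    have h2 := hτ i
    have h3 := E10_b01 (a i)
    have h4 := E10_b01 (b i)
    show (hS e + 2 * τ i + b01 (a i) + b01 (b i)) % (2 * (LS e j i - 1) + 2 * hS e + 1) = _
    exact Nat.mod_eq_of_lt (by omega)
  show Fin.ofNat (NS e K + 1) (aS e u i + (Wpt (fun _ => false) (LS e j) (hS e) τ a b i).val) = _
  rw [h1]

theorem fD_pat1 {e : ℕ} (he : 1 ≤ e) (u : Blk d K) (j : Fin d) (f : BxV d (NS e K) → Fin q) (hu : (u j).val + 1 < 2 ^ K)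
    (τ : Fin d → ℕ) (hτ : ∀ i, τ i + 1 < 2 ^ (5 * e)) :
    Wpat (LS e none) (hS e) (fD e u none f) τ = Wpat (LS e (some j)) (hS e) (fD e u (some j) f) τ := by
  rw [E10_pat u none f τ fun i => by rw [E10_Ln]; exact hτ i,
    E10_pat u (some j) f τ fun i => (hτ i).trans_le (E10_Lge e i j)]

private theorem E10_val {z : ZMod (2 ^ K)} (h : z.val + 1 < 2 ^ K) : (z + 1).val = z.val + 1 := by
  have h1 : (1 : ZMod (2 ^ K)).val = 1 := by
    rw [ZMod.val_one_eq_one_mod, Nat.mod_eq_of_lt (by omega)]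
  rw [ZMod.val_add_of_lt (by rw [h1]; exact h), h1]

theorem fD_pat2 {e : ℕ} (he : 1 ≤ e) (u : Blk d K) (j : Fin d) (f : BxV d (NS e K) → Fin q) (hu : (u j).val + 1 < 2 ^ K)
    (τ : Fin d → ℕ) (hτ : ∀ i, τ i + 1 < 2 ^ (5 * e)) :
    Wpat (LS e none) (hS e) (fD e (LO.nxt u j) none f) τ =
      Wpat (LS e (some j)) (hS e) (fD e u (some j) f) (Function.update τ j (τ j + 2 ^ (5 * e))) := by
  rw [E10_pat (LO.nxt u j) none f τ fun i => by rw [E10_Ln]; exact hτ i, E10_pat u (some j) f]
  · funext a b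
    congr 1
    funext i
    congr 1
    by_cases hi : i = j
    · subst hi
      rw [Function.update_self]
      unfold aS LO.nxt
      rw [Function.update_self, E10_val hu]
      unfold wS
      ring
    · rw [Function.update_of_ne hi]
      unfold aS LO.nxt
      rw [Function.update_of_ne hi]
  · intro i
    by_cases hi : i = j
    · subst hi
      rw [Function.update_self, E10_Lj]
      have := hτ i
      omega
    · rw [Function.update_of_ne hi, E10_Lo e hi]
      exact hτ i

private theorem E10_inj {S T : Type*} [Fintype S] [Fintype T] (φ : S → T) (hφ : Function.Injective φ)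
    (p : T → Prop) [DecidablePred p] (p' : S → Prop) [DecidablePred p'] (hp : ∀ x, p' x ↔ p (φ x))
    (a b : ℝ) (ha : (Fintype.card S : ℝ) = a) (hb : (Fintype.card T : ℝ) = b)
    (hT : (49 : ℝ) / 50 * b ≤ (((univ : Finset T).filter p).card : ℝ)) (ha0 : 0 ≤ a)
    (hab : b ≤ 201 / 100 * a) : (19 : ℝ) / 20 * a ≤ (((univ : Finset S).filter p').card : ℝ) := by
  classical
  have h1 : (((univ : Finset S).filter p').card : ℝ) + (((univ : Finset S).filter fun x => ¬ p' x).card : ℝ) = a := by
    rw [← ha, ← Finset.card_univ]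
    exact_mod_cast Finset.card_filter_add_card_filter_not (s := (univ : Finset S)) p'
  have h2 : (((univ : Finset T).filter p).card : ℝ) + (((univ : Finset T).filter fun x => ¬ p x).card : ℝ) = b := by
    rw [← hb, ← Finset.card_univ]
    exact_mod_cast Finset.card_filter_add_card_filter_not (s := (univ : Finset T)) p
  have h3 : (((univ : Finset S).filter fun x => ¬ p' x).card : ℝ) ≤
      (((univ : Finset T).filter fun x => ¬ p x).card : ℝ) := by
    have h4 : ((univ : Finset S).filter fun x => ¬ p' x).card ≤ ((univ : Finset T).filter fun x => ¬ p x).card := by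
      refine Finset.card_le_card_of_injOn φ ?_ hφ.injOn
      intro x hx
      have hx' := (Finset.mem_filter.1 (Finset.mem_coe.1 hx)).2
      exact Finset.mem_coe.2 (Finset.mem_filter.2 ⟨mem_univ _, fun h => hx' ((hp x).2 h)⟩)
    exact_mod_cast h4
  linarith

private theorem E10_card (m : Fin d → ℕ) (hm : ∀ i, 1 ≤ m i) :
    (Fintype.card (∀ i, Fin (nbk false (m i))) : ℝ) = ∏ i, ((m i : ℝ) - 1) := by
  rw [Fintype.card_pi]
  push_cast
  refine Finset.prod_congr rfl fun i _ => ?_
  rw [Fintype.card_fin]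
  show (((m i - 1 : ℕ)) : ℝ) = _
  rw [Nat.cast_sub (hm i), Nat.cast_one]

private theorem E10_ratio {e : ℕ} (he : 2 ≤ e) (j : Fin d) : (∏ i, ((LS e (some j) i : ℝ) - 1)) ≤
    201 / 100 * ∏ i, ((LS e (none : Option (Fin d)) i : ℝ) - 1) := by
  have hL : (1000 : ℝ) ≤ 2 ^ (5 * e) := by exact_mod_cast E10_L he
  rw [← mul_prod_erase univ (fun i => ((LS e (some j) i : ℝ) - 1)) (mem_univ j),
    ← mul_prod_erase univ (fun i => ((LS e (none : Option (Fin d)) i : ℝ) - 1)) (mem_univ j)]
  have h1 : ∏ i ∈ univ.erase j, ((LS e (some j) i : ℝ) - 1) =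
      ∏ i ∈ univ.erase j, ((LS e (none : Option (Fin d)) i : ℝ) - 1) := by
    refine Finset.prod_congr rfl fun i hi => ?_
    rw [E10_Lo e (ne_of_mem_erase hi), E10_Ln]
  rw [h1, ← mul_assoc]
  apply mul_le_mul_of_nonneg_right
  · rw [E10_Lj, E10_Ln]
    push_cast
    linarith
  · refine Finset.prod_nonneg fun i _ => ?_
    rw [E10_Ln]
    push_cast
    linarith

private theorem E10_pos {e : ℕ} (he : 2 ≤ e) :
    0 < ∏ i, ((LS e (none : Option (Fin d)) i : ℝ) - 1) := by
  have hL : (1000 : ℝ) ≤ 2 ^ (5 * e) := by exact_mod_cast E10_L he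
  refine Finset.prod_pos fun i _ => ?_
  rw [E10_Ln]
  push_cast
  linarith

private theorem E10_L1 (e : ℕ) (j : Option (Fin d)) (i : Fin d) : 1 ≤ LS e j i :=
  Nat.one_le_pow _ _ (by norm_num)

theorem dom_NGd {e : ℕ} (he : 2 ≤ e) (u : Blk d K) (j : Fin d) (h : (u j).val + 1 < 2 ^ K) (f : BxV d (NS e K) → Fin q)
    (hP : WPU (LS e (some j)) (hS e) (fD e u (some j) f)) :
    ∃ A : Finset (Fin q), A.card = q / 2 ∧ NGd e A u f ∧ NGd e A (LO.nxt u j) f := by
  classical
  obtain ⟨A, hA, hA2⟩ := hP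
  have hlt : ∀ (τ : ∀ i : Fin d, Fin (nbk false (LS e (none : Option (Fin d)) i))) (i : Fin d),
      (τ i).val + 1 < 2 ^ (5 * e) := by
    intro τ i
    have h1 : (τ i).val < LS e (none : Option (Fin d)) i - 1 := (τ i).isLt
    have h2 := E10_Ln (d := d) e i
    omega
  refine ⟨A, hA, ?_, ?_⟩
  · unfold NGd
    have hb : ∀ (τ : ∀ i : Fin d, Fin (nbk false (LS e (none : Option (Fin d)) i))) (i : Fin d),
        (τ i).val < nbk false (LS e (some j) i) := by
      intro τ i
      have h1 := hlt τ i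
      have h2 := E10_Lge e i j
      show (τ i).val < LS e (some j) i - 1
      omega
    refine E10_inj (fun τ i => ⟨(τ i).val, hb τ i⟩) ?_ _ _ ?_ _ _ (E10_card _ (E10_L1 e _))
      (E10_card _ (E10_L1 e _)) hA2 (E10_pos he).le (E10_ratio he j)
    · intro τ τ' hh
      funext i
      have h1 := congrArg Fin.val (congrFun hh i)
      have h2 : (τ i).val = (τ' i).val := h1
      exact Fin.ext h2
    · intro τ
      have h1 := fD_pat1 (by omega) u j f h (fun i => (τ i).val) (hlt τ)
      show (GDP (Wpat (LS e none) (hS e) (fD e u none f) fun i => (τ i).val) ∧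
        ALP (Wpat (LS e none) (hS e) (fD e u none f) fun i => (τ i).val) = A) ↔
        (GDP (Wpat (LS e (some j)) (hS e) (fD e u (some j) f) fun i => (τ i).val) ∧
        ALP (Wpat (LS e (some j)) (hS e) (fD e u (some j) f) fun i => (τ i).val) = A)
      rw [h1]
  · unfold NGd
    have hb : ∀ (τ : ∀ i : Fin d, Fin (nbk false (LS e (none : Option (Fin d)) i))) (i : Fin d),
        Function.update (fun i => (τ i).val) j ((τ j).val + 2 ^ (5 * e)) i < nbk false (LS e (some j) i) := by
      intro τ i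
      have h1 := hlt τ i
      show Function.update (fun i => (τ i).val) j ((τ j).val + 2 ^ (5 * e)) i < LS e (some j) i - 1
      by_cases hi : i = j
      · subst hi
        rw [Function.update_self, E10_Lj]
        omega
      · rw [Function.update_of_ne hi, E10_Lo e hi]
        omega
    refine E10_inj (fun τ i => ⟨Function.update (fun i => (τ i).val) j ((τ j).val + 2 ^ (5 * e)) i, hb τ i⟩)
      ?_ _ _ ?_ _ _ (E10_card _ (E10_L1 e _))
      (E10_card _ (E10_L1 e _)) hA2 (E10_pos he).le (E10_ratio he j)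
    · intro τ τ' hh
      funext i
      have h1 := congrArg Fin.val (congrFun hh i)
      have h2 : Function.update (fun i => (τ i).val) j ((τ j).val + 2 ^ (5 * e)) i =
        Function.update (fun i => (τ' i).val) j ((τ' j).val + 2 ^ (5 * e)) i := h1
      by_cases hi : i = j
      · subst hi
        rw [Function.update_self, Function.update_self] at h2
        exact Fin.ext (by omega)
      · rw [Function.update_of_ne hi, Function.update_of_ne hi] at h2
        exact Fin.ext h2
    · intro τ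
      have h1 := fD_pat2 (by omega) u j f h (fun i => (τ i).val) (hlt τ)
      show (GDP (Wpat (LS e none) (hS e) (fD e (LO.nxt u j) none f) fun i => (τ i).val) ∧
        ALP (Wpat (LS e none) (hS e) (fD e (LO.nxt u j) none f) fun i => (τ i).val) = A) ↔
        (GDP (Wpat (LS e (some j)) (hS e) (fD e u (some j) f)
          fun i => Function.update (fun i => (τ i).val) j ((τ j).val + 2 ^ (5 * e)) i) ∧
        ALP (Wpat (LS e (some j)) (hS e) (fD e u (some j) f)
          fun i => Function.update (fun i => (τ i).val) j ((τ j).val + 2 ^ (5 * e)) i) = A)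
      rw [h1]

theorem NGd_lab {e : ℕ} (he : 2 ≤ e) {A : Finset (Fin q)} {t : Blk d K} {f : BxV d (NS e K) → Fin q} (h : NGd e A t f)
    (c : Fin q) : labD e c t f ↔ c ∈ A := by
  classical
  have hpos := E10_pos (d := d) he
  have hcard : (((univ : Finset (∀ i : Fin d, Fin (nbk false (LS e (none : Option (Fin d)) i)))).card : ℕ) : ℝ) =
      ∏ i, ((LS e (none : Option (Fin d)) i : ℝ) - 1) := by
    rw [Finset.card_univ]
    exact E10_card _ (E10_L1 e _)
  unfold NGd at h
  unfold labD
  constructor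
  · intro hl
    by_contra hc
    have h1 : Disjoint ((univ : Finset (∀ i : Fin d, Fin (nbk false (LS e (none : Option (Fin d)) i)))).filter fun τ =>
        GDP (Wpat (LS e none) (hS e) (fD e t none f) fun i => (τ i).val) ∧
        ALP (Wpat (LS e none) (hS e) (fD e t none f) fun i => (τ i).val) = A)
        (univ.filter fun τ => c ∈ ALP (Wpat (LS e none) (hS e) (fD e t none f) fun i => (τ i).val)) := by
      rw [disjoint_left]
      intro τ h2 h3
      rw [mem_filter] at h2 h3
      have h4 := h3.2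
      rw [h2.2.2] at h4
      exact hc h4
    have h2 := card_le_card (subset_univ (((univ : Finset (∀ i : Fin d, Fin (nbk false
      (LS e (none : Option (Fin d)) i)))).filter fun τ =>
        GDP (Wpat (LS e none) (hS e) (fD e t none f) fun i => (τ i).val) ∧
        ALP (Wpat (LS e none) (hS e) (fD e t none f) fun i => (τ i).val) = A) ∪
        (univ.filter fun τ => c ∈ ALP (Wpat (LS e none) (hS e) (fD e t none f) fun i => (τ i).val))))
    rw [card_union_of_disjoint h1] at h2
    have h3 := (Nat.cast_le (α := ℝ)).2 h2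
    rw [Nat.cast_add, hcard] at h3
    linarith
  · intro hc
    have h2 : ((univ : Finset (∀ i : Fin d, Fin (nbk false (LS e (none : Option (Fin d)) i)))).filter fun τ =>
        GDP (Wpat (LS e none) (hS e) (fD e t none f) fun i => (τ i).val) ∧
        ALP (Wpat (LS e none) (hS e) (fD e t none f) fun i => (τ i).val) = A) ⊆
        (univ.filter fun τ => c ∈ ALP (Wpat (LS e none) (hS e) (fD e t none f) fun i => (τ i).val)) := by
      intro τ hτ
      rw [mem_filter] at hτ ⊢
      exact ⟨hτ.1, by rw [hτ.2.2]; exact hc⟩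
    have h3 := (Nat.cast_le (α := ℝ)).2 (card_le_card h2)
    linarith

theorem good_NGd {e : ℕ} (he : 2 ≤ e) (hd : 1 ≤ d) (hK : 1 ≤ K) {t : Blk d K} {f : BxV d (NS e K) → Fin q}
    (h : ¬ BADd e t f) : ∃ A : Finset (Fin q), A.card = q / 2 ∧ NGd e A t f := by
  let j : Fin d := ⟨0, hd⟩
  have hK2 : 2 ^ 1 ≤ 2 ^ K := Nat.pow_le_pow_right (by norm_num) hK
  have hlt : (t j).val < 2 ^ K := ZMod.val_lt (t j)
  by_cases hj : (t j).val + 1 < 2 ^ K
  · have hP : WPU (LS e (some j)) (hS e) (fD e t (some j) f) := by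
      by_contra hP
      exact h ⟨t, j, hj, Or.inl rfl, hP⟩
    obtain ⟨A, hA, h1, -⟩ := dom_NGd he t j hj f hP
    exact ⟨A, hA, h1⟩
  · have h1 : (1 : ZMod (2 ^ K)).val = 1 := by
      rw [ZMod.val_one_eq_one_mod, Nat.mod_eq_of_lt (by omega)]
    have hv : (t j - 1).val = (t j).val - 1 := by
      rw [ZMod.val_sub (by rw [h1]; omega), h1]
    let u : Blk d K := Function.update t j (t j - 1)
    have huj : u j = t j - 1 := Function.update_self _ _ _
    have hnx : LO.nxt u j = t := by
      unfold LO.nxt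
      rw [huj, sub_add_cancel]
      show Function.update (Function.update t j (t j - 1)) j (t j) = t
      rw [Function.update_idem, Function.update_eq_self]
    have hju : (u j).val + 1 < 2 ^ K := by
      rw [huj, hv]
      omega
    have hP : WPU (LS e (some j)) (hS e) (fD e u (some j) f) := by
      by_contra hP
      exact h ⟨u, j, hju, Or.inr hnx, hP⟩
    obtain ⟨A, hA, -, h2⟩ := dom_NGd he u j hju f hP
    rw [hnx] at h2
    exact ⟨A, hA, h2⟩

theorem good_adjd {e : ℕ} (he : 2 ≤ e) {t : Blk d K} (j : Fin d) (hj : (t j).val + 1 < 2 ^ K)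
    {f : BxV d (NS e K) → Fin q} (h : ¬ BADd e t f) (c : Fin q) : labD e c t f ↔ labD e c (LO.nxt t j) f := by
  have hP : WPU (LS e (some j)) (hS e) (fD e t (some j) f) := by
    by_contra hP
    exact h ⟨t, j, hj, Or.inl rfl, hP⟩
  obtain ⟨A, -, h1, h2⟩ := dom_NGd he t j hj f hP
  rw [NGd_lab he h1 c, NGd_lab he h2 c]

end Pool.Agent.LC

end

/-! ### from `Lib_MP_2c424f_cor.K02` -/

section

/-!
# Sites of opposite parity have the same colour with probability at most `1/q` (piece K02, (A1))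

For colours `a ≠ b`: `#{f v = a, f w = a} ≤ #{f v = a, f w = b}`: flip the `ab`-cluster of `w`
(`S = {x : kcl f a b w x}`, `kun_of`); `v` is not in it, because `v`, `w` have opposite parity and the same colour
(`kcl_col`); the map is injective (it is an involution on the colourings for which `v` is not in the cluster of `w`:
the clusters do not change, `kcl_kfl`, `kfl_kfl`).  Sum over `b ≠ a`:
`(q-1) #{f v = f w = a} ≤ #{f v = a, f w ≠ a}`, so `q #{f v = f w = a} ≤ #{f v = a}`; sum over `a`.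
-/

set_option autoImplicit false

open Finset

namespace Pool.Agent.COR

variable {W : Type} [Fintype W] [DecidableEq W] {q : ℕ}

private theorem K02_congr (G : SimpleGraph W) {P Q : (W → Fin q) → Prop} (h : ∀ f, P f ↔ Q f) :
    cG G P = cG G Q := by
  have e : P = Q := funext fun f => propext (h f)
  rw [e]

private theorem K02_split (G : SimpleGraph W) (P : (W → Fin q) → Prop) (w : W) :
    ∑ b : Fin q, cG G (fun f : W → Fin q => P f ∧ f w = b) = cG G P := by
  classical
  unfold cG
  have h := Finset.card_eq_sum_card_fiberwise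
    (s := univ.filter fun f : W → Fin q => PrG G f ∧ P f) (t := (univ : Finset (Fin q)))
    (f := fun f : W → Fin q => f w) (fun _ _ => mem_univ _)
  rw [h]
  push_cast
  refine Finset.sum_congr rfl fun b _ => ?_
  congr 2
  ext f
  simp only [mem_filter, mem_univ, true_and]
  tauto

private theorem K02_flip {G : SimpleGraph W} {ev : W → Prop} (hG : Par G ev) {v w : W}
    (hvw : ¬ (ev v ↔ ev w)) {a b : Fin q} (hab : a ≠ b) :
    cG G (fun f : W → Fin q => f v = a ∧ f w = a) ≤ cG G (fun f : W → Fin q => f v = a ∧ f w = b) := by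
  classical
  unfold cG
  rw [Nat.cast_le]
  set S : (W → Fin q) → Finset W := fun f => univ.filter fun x => kcl G f a b w x with hS
  refine Finset.card_le_card_of_injOn (fun f => kfl a b (S f) f) ?_ ?_
  · intro f hf
    simp only [coe_filter, mem_univ, true_and, Set.mem_setOf_eq] at hf ⊢
    obtain ⟨hp, hv, hw⟩ := hf
    have hk : kun G f a b (S f) := by
      have := kun_of (G := G) (f := f) (i := a) (j := b) (fun x => kcl G f a b w x)
        (fun x y h h' => kcl_trans h' h)
      convert this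
    have hvS : v ∉ S f := by
      intro hin
      have hin2 : kcl G f a b w v := by
        rw [hS] at hin
        simpa using hin
      have := kcl_col hG hp (Or.inl hw) hin2
      rw [hv, hw] at this
      have h2 := this.2 rfl
      exact hvw ⟨fun h => h2.2 h, fun h => h2.1 h⟩
    have hwS : w ∈ S f := by
      rw [hS]
      simp only [mem_filter, mem_univ, true_and]
      exact Relation.ReflTransGen.refl
    refine ⟨PrG_kfl hp a b hk, ?_, ?_⟩
    · simp only [kfl, if_neg hvS]
      exact hv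
    · simp only [kfl, if_pos hwS]
      rw [hw, Equiv.swap_apply_left]
  · intro f hf g hg he
    have he' : kfl a b (S f) f = kfl a b (S g) g := he
    have e1 : ∀ f : W → Fin q, S f = S (kfl a b (S f) f) := by
      intro f
      rw [hS]
      ext x
      simp only [mem_filter, mem_univ, true_and]
      exact (kcl_kfl G a b _ f w x).symm
    have e2 : S f = S g := by
      rw [e1 f, e1 g, he']
    have e3 := kfl_kfl a b (S f) f
    rw [he', e2, kfl_kfl] at e3
    exact e3.symm

theorem kempe_le {G : SimpleGraph W} {ev : W → Prop} (hG : Par G ev) {v w : W} (hvw : ¬ (ev v ↔ ev w)) :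
    (q : ℝ) * cG G (fun f : W → Fin q => f v = f w) ≤ cG G (fun _ : W → Fin q => True) := by
  have key : ∀ a : Fin q, (q : ℝ) * cG G (fun f : W → Fin q => f v = a ∧ f w = a) ≤
      cG G (fun f : W → Fin q => f v = a) := by
    intro a
    rw [← K02_split G (fun f : W → Fin q => f v = a) w]
    have e : (q : ℝ) * cG G (fun f : W → Fin q => f v = a ∧ f w = a) =
        ∑ _b : Fin q, cG G (fun f : W → Fin q => f v = a ∧ f w = a) := by
      rw [Finset.sum_const, Finset.card_univ, Fintype.card_fin, nsmul_eq_mul]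
    rw [e]
    refine Finset.sum_le_sum fun b _ => ?_
    by_cases hab : a = b
    · subst hab
      exact le_refl _
    · exact K02_flip hG hvw hab
  have e1 : cG G (fun f : W → Fin q => f v = f w) =
      ∑ a : Fin q, cG G (fun f : W → Fin q => f v = a ∧ f w = a) := by
    rw [← K02_split G (fun f : W → Fin q => f v = f w) w]
    refine Finset.sum_congr rfl fun b _ => K02_congr G fun f => ?_
    constructor
    · rintro ⟨h1, h2⟩
      exact ⟨h1.trans h2, h2⟩
    · rintro ⟨h1, h2⟩
      exact ⟨h1.trans h2.symm, h2⟩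
  have e2 : cG G (fun _ : W → Fin q => True) = ∑ a : Fin q, cG G (fun f : W → Fin q => f v = a) := by
    rw [← K02_split G (fun _ : W → Fin q => True) v]
    refine Finset.sum_congr rfl fun b _ => K02_congr G fun f => ?_
    simp
  rw [e1, e2, Finset.mul_sum]
  exact Finset.sum_le_sum fun a _ => key a

end Pool.Agent.COR

end

/-! ### from `Lib_MP_2c424f_cor.K03` -/

section

/-!
# Adding edges (piece K03, (A2))

`E` contains all edges of `G'` which are not edges of `G` (in one of the two orders).  Induction on `E` (add the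
edges of `G'` from `E` one by one; every intermediate graph is `≤ G'`, so `ev` is a parity for it): adding one edge
`vw` removes the colourings with `f v = f w`, at most a proportion `1/q` (`kempe_le`).
Convenient: for a finset `E` let `G_E` have the adjacency `G.Adj x y ∨ (G'.Adj x y ∧ ((x,y) ∈ E ∨ (y,x) ∈ E))`.
-/

set_option autoImplicit false

open Finset

namespace Pool.Agent.COR

variable {W : Type} [Fintype W] [DecidableEq W] {q : ℕ}

/-- intermediate graph -/
private def K03_g (G G' : SimpleGraph W) (E : Finset (W × W)) : SimpleGraph W where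
  Adj x y := G.Adj x y ∨ (G'.Adj x y ∧ ((x, y) ∈ E ∨ (y, x) ∈ E))
  symm := ⟨fun _ _ h => h.elim (fun h => Or.inl h.symm) (fun h => Or.inr ⟨h.1.symm, h.2.symm⟩)⟩
  loopless := ⟨fun x h => h.elim (fun h => G.loopless.irrefl x h) (fun h => G'.loopless.irrefl x h.1)⟩

private theorem K03_adj (G G' : SimpleGraph W) (E : Finset (W × W)) (x y : W) :
    (K03_g G G' E).Adj x y ↔ (G.Adj x y ∨ (G'.Adj x y ∧ ((x, y) ∈ E ∨ (y, x) ∈ E))) := Iff.rfl

private theorem K03_mono {G H : SimpleGraph W} {P Q : (W → Fin q) → Prop}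
    (h : ∀ f : W → Fin q, PrG G f → P f → PrG H f ∧ Q f) : cG G P ≤ cG H Q := by
  classical
  unfold cG
  have h1 : (univ.filter fun f : W → Fin q => PrG G f ∧ P f) ⊆
      (univ.filter fun f : W → Fin q => PrG H f ∧ Q f) := by
    intro f hf
    rw [mem_filter] at hf ⊢
    exact ⟨mem_univ _, h f hf.2.1 hf.2.2⟩
  exact_mod_cast card_le_card h1

private theorem K03_split (G : SimpleGraph W) (P : (W → Fin q) → Prop) :
    cG G (fun _ : W → Fin q => True) = cG G P + cG G (fun f => ¬ P f) := by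
  classical
  have h1 : (univ.filter fun f : W → Fin q => PrG G f ∧ True) =
      (univ.filter fun f : W → Fin q => PrG G f ∧ P f) ∪
      (univ.filter fun f : W → Fin q => PrG G f ∧ ¬ P f) := by
    ext f
    simp only [mem_filter, mem_union, mem_univ, true_and, and_true]
    tauto
  have h2 : Disjoint (univ.filter fun f : W → Fin q => PrG G f ∧ P f)
      (univ.filter fun f : W → Fin q => PrG G f ∧ ¬ P f) := by
    rw [disjoint_left]
    intro f hf hf'
    rw [mem_filter] at hf hf'
    exact hf'.2.2 hf.2.2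
  have h3 := card_union_of_disjoint h2
  rw [← h1] at h3
  have h4 : ((univ.filter fun f : W → Fin q => PrG G f ∧ True).card : ℝ) =
      (univ.filter fun f : W → Fin q => PrG G f ∧ P f).card +
      (univ.filter fun f : W → Fin q => PrG G f ∧ ¬ P f).card := by
    exact_mod_cast h3
  unfold cG
  convert h4

private theorem K03_nonneg (G : SimpleGraph W) (P : (W → Fin q) → Prop) : 0 ≤ cG G P := by
  unfold cG
  positivity

private theorem K03_step {G G' : SimpleGraph W} {ev : W → Prop} (hG : Par G' ev) (hle : G ≤ G')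
    (hq : 1 ≤ q) (E : Finset (W × W)) (v w : W) :
    (1 - 1 / (q : ℝ)) * cG (K03_g G G' E) (fun _ : W → Fin q => True) ≤
      cG (K03_g G G' (insert (v, w) E)) (fun _ : W → Fin q => True) := by
  classical
  have hq0 : (1 : ℝ) ≤ q := by exact_mod_cast hq
  have hqp : (0 : ℝ) < q := by linarith
  have hH : Par (K03_g G G' E) ev := by
    intro x y hxy
    rw [K03_adj] at hxy
    exact hxy.elim (fun h => hG x y (hle h)) (fun h => hG x y h.1)
  by_cases hvw : G'.Adj v w
  · have hev : ¬ (ev v ↔ ev w) := by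
      have := hG v w hvw
      tauto
    have h1 := kempe_le (q := q) hH hev
    have h2 := K03_split (q := q) (K03_g G G' E) (fun f => f v = f w)
    have h3 : cG (K03_g G G' E) (fun f : W → Fin q => ¬ f v = f w) ≤
        cG (K03_g G G' (insert (v, w) E)) (fun _ : W → Fin q => True) := by
      refine K03_mono fun f hf hf2 => ⟨?_, trivial⟩
      intro x y hxy
      rw [K03_adj] at hxy
      rcases hxy with hxy | ⟨hxy, hm⟩
      · exact hf x y ((K03_adj _ _ _ _ _).2 (Or.inl hxy))
      · rw [mem_insert, mem_insert] at hm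
        rcases hm with (hm | hm) | (hm | hm)
        · obtain ⟨rfl, rfl⟩ := Prod.mk.inj hm
          exact hf2
        · exact hf x y ((K03_adj _ _ _ _ _).2 (Or.inr ⟨hxy, Or.inl hm⟩))
        · obtain ⟨rfl, rfl⟩ := Prod.mk.inj hm
          exact fun h => hf2 h.symm
        · exact hf x y ((K03_adj _ _ _ _ _).2 (Or.inr ⟨hxy, Or.inr hm⟩))
    have h4 : cG (K03_g G G' E) (fun f : W → Fin q => f v = f w) ≤
        1 / (q : ℝ) * cG (K03_g G G' E) (fun _ : W → Fin q => True) := by
      rw [one_div, ← div_eq_inv_mul, le_div_iff₀ hqp, mul_comm]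
      exact h1
    linarith
  · have h1 : cG (K03_g G G' E) (fun _ : W → Fin q => True) ≤
        cG (K03_g G G' (insert (v, w) E)) (fun _ : W → Fin q => True) := by
      refine K03_mono fun f hf _ => ⟨?_, trivial⟩
      intro x y hxy
      rw [K03_adj] at hxy
      rcases hxy with hxy | ⟨hxy, hm⟩
      · exact hf x y ((K03_adj _ _ _ _ _).2 (Or.inl hxy))
      · rw [mem_insert, mem_insert] at hm
        rcases hm with (hm | hm) | (hm | hm)
        · obtain ⟨rfl, rfl⟩ := Prod.mk.inj hm
          exact absurd hxy hvw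
        · exact hf x y ((K03_adj _ _ _ _ _).2 (Or.inr ⟨hxy, Or.inl hm⟩))
        · obtain ⟨rfl, rfl⟩ := Prod.mk.inj hm
          exact absurd hxy.symm hvw
        · exact hf x y ((K03_adj _ _ _ _ _).2 (Or.inr ⟨hxy, Or.inr hm⟩))
    have h2 := K03_nonneg (q := q) (K03_g G G' E) (fun _ => True)
    have h3 : 0 ≤ 1 / (q : ℝ) := by positivity
    nlinarith

private theorem K03_all {G G' : SimpleGraph W} {ev : W → Prop} (hG : Par G' ev) (hle : G ≤ G')
    (hq : 1 ≤ q) (E : Finset (W × W)) :
    (1 - 1 / (q : ℝ)) ^ E.card * cG G (fun _ : W → Fin q => True) ≤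
      cG (K03_g G G' E) (fun _ : W → Fin q => True) := by
  classical
  have hq0 : (1 : ℝ) ≤ q := by exact_mod_cast hq
  have hqp : (0 : ℝ) < q := by linarith
  have h0 : 0 ≤ 1 - 1 / (q : ℝ) := by
    have : 1 / (q : ℝ) ≤ 1 := by
      rw [div_le_one hqp]
      exact hq0
    linarith
  induction E using Finset.induction_on with
  | empty =>
    rw [card_empty, pow_zero, one_mul]
    refine K03_mono fun f hf _ => ⟨?_, trivial⟩
    intro x y hxy
    rw [K03_adj] at hxy
    rcases hxy with hxy | ⟨_, hm⟩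
    · exact hf x y hxy
    · simp at hm
  | insert e E he ih =>
    obtain ⟨v, w⟩ := e
    rw [card_insert_of_notMem he, pow_succ]
    refine le_trans ?_ (K03_step hG hle hq E v w)
    calc (1 - 1 / (q : ℝ)) ^ E.card * (1 - 1 / (q : ℝ)) * cG G (fun _ : W → Fin q => True)
        = (1 - 1 / (q : ℝ)) * ((1 - 1 / (q : ℝ)) ^ E.card * cG G (fun _ : W → Fin q => True)) := by
          ring
      _ ≤ (1 - 1 / (q : ℝ)) * cG (K03_g G G' E) (fun _ : W → Fin q => True) :=
          mul_le_mul_of_nonneg_left ih h0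

theorem add_edges {G G' : SimpleGraph W} {ev : W → Prop} (hG : Par G' ev) (hle : G ≤ G') (hq : 1 ≤ q)
    (E : Finset (W × W)) (hE : ∀ x y, G'.Adj x y → G.Adj x y ∨ (x, y) ∈ E ∨ (y, x) ∈ E) :
    (1 - 1 / (q : ℝ)) ^ E.card * cG G (fun _ : W → Fin q => True) ≤ cG G' (fun _ : W → Fin q => True) := by
  refine (K03_all hG hle hq E).trans ?_
  refine K03_mono fun f hf _ => ⟨?_, trivial⟩
  intro x y hxy
  refine hf x y ((K03_adj _ _ _ _ _).2 ?_)
  rcases hE x y hxy with h | h
  · exact Or.inl h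
  · exact Or.inr ⟨hxy, h⟩

end Pool.Agent.COR

end

/-! ### from `Lib_MP_2c424f_lc6a.A3` -/

section

/-!
# LC6a A3: removing the edges at few sites

* `rmv_le`: fewer edges, more proper colourings.
* `rmv_add`: `COR.add_edges` (K03) with `G' = TC G`, the graph `rmv (TC G) R` and `E = {(p, p') : R p.1, (TC G).Adj p p'}`; `|E| ≤ 2 |R| Δ` (for every `p` with `R p.1`, at
  most `Δ` neighbours); `(1 - 1/q)^n` is decreasing in `n`.
-/

set_option autoImplicit false

open Finset Filter

namespace Pool.Agent.LC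

open Pool.Agent.LO Pool.Agent.LIN Pool.Agent.THR Pool.Agent.COR

private theorem A3_mono {W : Type} [Fintype W] [DecidableEq W] {q : ℕ} {G H : SimpleGraph W}
    {P Q : (W → Fin q) → Prop} (h : ∀ f : W → Fin q, PrG G f → P f → PrG H f ∧ Q f) :
    cG G P ≤ cG H Q := by
  classical
  unfold cG
  have h1 : (univ.filter fun f : W → Fin q => PrG G f ∧ P f) ⊆
      (univ.filter fun f : W → Fin q => PrG H f ∧ Q f) := by
    intro f hf
    rw [mem_filter] at hf ⊢
    exact ⟨mem_univ _, h f hf.2.1 hf.2.2⟩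
  exact_mod_cast card_le_card h1

theorem rmv_le {V : Type} [Fintype V] [DecidableEq V] {q : ℕ} (X : SimpleGraph (V × Bool)) (R : V → Prop) :
    cG X (fun _ : V × Bool → Fin q => True) ≤ cG (rmv X R) (fun _ : V × Bool → Fin q => True) := by
  exact A3_mono fun f hf _ => ⟨fun x y hxy => hf x y hxy.1, trivial⟩

open scoped Classical in
theorem rmv_add {V : Type} [Fintype V] [DecidableEq V] {q : ℕ} (hq : 1 ≤ q) (G : SimpleGraph V) (ev : V → Prop)
    (hG : Par G ev) (Δ : ℕ) (hΔ : ∀ v, (nb G v).card ≤ Δ) (R : V → Prop) :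
    (1 - 1 / (q : ℝ)) ^ (2 * Δ * (univ.filter fun v => R v).card) * cG (rmv (TC G) R) (fun _ : V × Bool → Fin q => True) ≤
      cG (TC G) (fun _ : V × Bool → Fin q => True) := by
  obtain ⟨P, hP⟩ : ∃ P : Finset (V × Bool), P = (univ.filter fun v => R v) ×ˢ (univ : Finset Bool) :=
    ⟨_, rfl⟩
  obtain ⟨E, hE⟩ : ∃ E : Finset ((V × Bool) × (V × Bool)),
      E = P.biUnion fun p => (nb G p.1).image fun v => (p, (v, p.2)) := ⟨_, rfl⟩
  have hmem : ∀ p p' : V × Bool, R p.1 → (TC G).Adj p p' → (p, p') ∈ E := by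
    intro p p' hR hadj
    rw [hE, mem_biUnion]
    refine ⟨p, ?_, ?_⟩
    · rw [hP, mem_product, mem_filter]
      exact ⟨⟨mem_univ _, hR⟩, mem_univ _⟩
    · rw [mem_image]
      refine ⟨p'.1, ?_, ?_⟩
      · unfold nb
        rw [mem_filter]
        exact ⟨mem_univ _, hadj.1⟩
      · exact Prod.ext rfl (Prod.ext rfl hadj.2)
  have hcard : E.card ≤ 2 * Δ * (univ.filter fun v => R v).card := by
    rw [hE]
    refine card_biUnion_le.trans ?_
    calc ∑ p ∈ P, ((nb G p.1).image fun v => (p, (v, p.2))).card ≤ ∑ _p ∈ P, Δ :=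
          sum_le_sum fun p _ => card_image_le.trans (hΔ p.1)
      _ = P.card * Δ := by rw [sum_const, smul_eq_mul]
      _ = 2 * Δ * (univ.filter fun v => R v).card := by
          rw [hP, card_product, card_univ, Fintype.card_bool]
          ring
  have hpar : Par (TC G) (fun p => ev p.1) := fun x y hxy => hG x.1 y.1 hxy.1
  have hle : rmv (TC G) R ≤ TC G := fun x y hxy => hxy.1
  have h1 := add_edges (q := q) hpar hle hq E (by
    intro x y hxy
    by_cases hx : R x.1
    · exact Or.inr (Or.inl (hmem x y hx hxy))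
    · by_cases hy : R y.1
      · exact Or.inr (Or.inr (hmem y x hy hxy.symm))
      · exact Or.inl ⟨hxy, hx, hy⟩)
  have hq0 : (1 : ℝ) ≤ q := by exact_mod_cast hq
  have hqp : (0 : ℝ) < q := by linarith
  have h2 : 1 / (q : ℝ) ≤ 1 := by
    rw [div_le_one hqp]
    exact hq0
  have h3 : 0 ≤ 1 / (q : ℝ) := by positivity
  have h4 : (1 - 1 / (q : ℝ)) ^ (2 * Δ * (univ.filter fun v => R v).card) ≤
      (1 - 1 / (q : ℝ)) ^ E.card :=
    pow_le_pow_of_le_one (by linarith) (by linarith) hcard
  have h5 : 0 ≤ cG (rmv (TC G) R) (fun _ : V × Bool → Fin q => True) := by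
    unfold cG
    positivity
  exact (mul_le_mul_of_nonneg_right h4 h5).trans h1

end Pool.Agent.LC

end

/-! ### from `Lib_MP_2c424f_lc5.V01` -/

section

/-!
# Part V, V01: exchanging the two copies on the part of the layer next to the level 0

Let `F` be `X`-proper, `Φ = fb i F false`, `Ψ = fb i F true`, and suppose `sp G lv h Φ Ψ Del`.
`I := {p : ∃ p₀, lv p₀ + 1 = h, p₀ ∉ Del, p₀ →* p}` where `→*` is the reflexive transitive closure of
`cf a b ∧ b ∉ Del`.  So `I ∩ Del = ∅`, every `p ∉ Del` with `lv p + 1 = h` is in `I`, and no point of `I` has level `0`.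
`W := {p : p ∉ I, p ∉ Del}`.  `F'`: for `p ∈ W` exchange the values at `i false p` and `i true p`; `F' = F` elsewhere.
1. `F'` is proper on `dlG X' (Del.image (i false) ∪ Del.image (i true))`:
   two points `i b p`, `i b p'` with `G.Adj p p'`, `p, p' ∉ Del`: both in `W` or both in `I`: clear (`adj`, `adj'`);
   `p ∈ W`, `p' ∈ I`: no conflict edge (`cf` is symmetric up to `G.Adj` symmetry, otherwise `p ∈ I`), so
   `F (i (!b) p) ≠ F (i b p')`.
   A point `v` outside the layer and `i b p`, `p ∉ Del`, `X'`-adjacent: by `oi`, `X.Adj v (i (if lv p = 0 then !b else b) p)`;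
   by `out`, `lv p = 0` (then `p ∈ W` and `F' (i b p) = F (i (!b) p) ≠ F v`) or `lv p + 1 = h` (then `p ∈ I` and nothing changes;
   `lv p ≠ 0` as `2 ≤ h`).   Two points outside: `oo`.
2. `F ↦ F'` is injective on the set of these `F`: the conflict relation `cf` on pairs of points outside `Del` is the same for
   `F` and `F'` (both in `W`: the two equalities are exchanged; both in `I`: nothing changes; `p ∈ W`, `p' ∈ I`: no conflict
   for `F`; for `F'` a conflict would be `Ψ p = Ψ p'` or `Φ p = Φ p'`, impossible since `F` is proper).  So `I` (the closure from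
   the level `h - 1`) is the same for `F` and `F'`, hence `W`, and `F` is recovered by exchanging again.
-/

set_option autoImplicit false

open Finset Filter

namespace Pool.Agent.LC

open Pool.Agent.LO Pool.Agent.LIN Pool.Agent.THR Pool.Agent.COR

section V01
variable {V Λ : Type} {q : ℕ}

open scoped Classical in
/-- exchange of the two copies on `W` -/
private noncomputable def V01_sg (i : Bool → Λ → V) (W : Λ → Prop) (v : V) : V :=
  if h : ∃ bp : Bool × Λ, W bp.2 ∧ v = i bp.1 bp.2 then i (!h.choose.1) h.choose.2 else v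

private theorem V01_sg_in {i : Bool → Λ → V}
    (inj : ∀ b b' p p', i b p = i b' p' → b = b' ∧ p = p') {W : Λ → Prop} {b : Bool} {p : Λ}
    (h : W p) : V01_sg i W (i b p) = i (!b) p := by
  have hex : ∃ bp : Bool × Λ, W bp.2 ∧ i b p = i bp.1 bp.2 := ⟨(b, p), h, rfl⟩
  unfold V01_sg
  rw [dif_pos hex]
  have h2 := inj _ _ _ _ hex.choose_spec.2
  rw [← h2.1, ← h2.2]

private theorem V01_sg_nin {i : Bool → Λ → V}
    (inj : ∀ b b' p p', i b p = i b' p' → b = b' ∧ p = p') {W : Λ → Prop} {b : Bool} {p : Λ}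
    (h : ¬ W p) : V01_sg i W (i b p) = i b p := by
  unfold V01_sg
  rw [dif_neg]
  rintro ⟨bp, h1, h2⟩
  exact h ((inj _ _ _ _ h2).2 ▸ h1)

private theorem V01_sg_out {i : Bool → Λ → V} {W : Λ → Prop} {v : V}
    (hv : ∀ b p, v ≠ i b p) : V01_sg i W v = v := by
  unfold V01_sg
  rw [dif_neg]
  rintro ⟨bp, _, h2⟩
  exact hv _ _ h2

private theorem V01_sg_sg {i : Bool → Λ → V}
    (inj : ∀ b b' p p', i b p = i b' p' → b = b' ∧ p = p') {W : Λ → Prop} (v : V) :
    V01_sg i W (V01_sg i W v) = v := by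
  by_cases hv : ∀ b p, v ≠ i b p
  · rw [V01_sg_out hv, V01_sg_out hv]
  · push Not at hv
    obtain ⟨b, p, rfl⟩ := hv
    by_cases hp : W p
    · rw [V01_sg_in inj hp, V01_sg_in inj hp, Bool.not_not]
    · rw [V01_sg_nin inj hp, V01_sg_nin inj hp]

private theorem V01_cf_symm {G : SimpleGraph Λ} {Φ Ψ : Λ → Fin q} {a b : Λ} (h : cf G Φ Ψ a b) :
    cf G Φ Ψ b a := ⟨h.1.symm, h.2.elim (fun e => Or.inr e.symm) (fun e => Or.inl e.symm)⟩

/-- the points joined to the level `h - 1` -/
private def V01_I (G : SimpleGraph Λ) (lv : Λ → ℕ) (h : ℕ) (Φ Ψ : Λ → Fin q) (Del : Finset Λ)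
    (p : Λ) : Prop :=
  ∃ p₀, lv p₀ + 1 = h ∧ p₀ ∉ Del ∧
    Relation.ReflTransGen (fun a b => cf G Φ Ψ a b ∧ a ∉ Del ∧ b ∉ Del) p₀ p

private theorem V01_I_nd {G : SimpleGraph Λ} {lv : Λ → ℕ} {h : ℕ} {Φ Ψ : Λ → Fin q}
    {Del : Finset Λ} {p : Λ} (hp : V01_I G lv h Φ Ψ Del p) : p ∉ Del := by
  obtain ⟨p₀, _, h2, h3⟩ := hp
  rcases Relation.ReflTransGen.cases_tail h3 with h4 | ⟨c, _, h4⟩
  · rw [h4]; exact h2
  · exact h4.2.2

private theorem V01_I_step {G : SimpleGraph Λ} {lv : Λ → ℕ} {h : ℕ} {Φ Ψ : Λ → Fin q}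
    {Del : Finset Λ} {p p' : Λ} (hp : V01_I G lv h Φ Ψ Del p) (hc : cf G Φ Ψ p p')
    (hp' : p' ∉ Del) : V01_I G lv h Φ Ψ Del p' := by
  have hd := V01_I_nd hp
  obtain ⟨p₀, h1, h2, h3⟩ := hp
  exact ⟨p₀, h1, h2, h3.tail ⟨hc, hd, hp'⟩⟩

private theorem V01_I_lv {G : SimpleGraph Λ} {lv : Λ → ℕ} {h : ℕ} {Φ Ψ : Λ → Fin q}
    {Del : Finset Λ} (hs : sp G lv h Φ Ψ Del) {p : Λ} (hp : V01_I G lv h Φ Ψ Del p) :
    lv p ≠ 0 := by
  obtain ⟨p₀, h1, h2, h3⟩ := hp
  refine hs p₀ p h1 h2 ?_
  clear h2 hs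
  induction h3 with
  | refl => exact Relation.ReflTransGen.refl
  | tail _ h5 ih => exact ih.tail ⟨h5.1, h5.2.2⟩

/-- the exchanged points -/
private def V01_W (G : SimpleGraph Λ) (lv : Λ → ℕ) (h : ℕ) (Φ Ψ : Λ → Fin q) (Del : Finset Λ)
    (p : Λ) : Prop := ¬ V01_I G lv h Φ Ψ Del p ∧ p ∉ Del

/-- the new colouring -/
private noncomputable def V01_sw (G : SimpleGraph Λ) (lv : Λ → ℕ) (h : ℕ) (i : Bool → Λ → V)
    (Del : Finset Λ) (F : V → Fin q) : V → Fin q :=
  fun v => F (V01_sg i (V01_W G lv h (fb i F false) (fb i F true) Del) v)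

private theorem V01_cf {G : SimpleGraph Λ} {lv : Λ → ℕ} {h : ℕ} {Φ Ψ Φ' Ψ' : Λ → Fin q}
    {Del : Finset Λ} (hΦ : PrG G Φ) (hΨ : PrG G Ψ)
    (h1 : ∀ p, V01_W G lv h Φ Ψ Del p → Φ' p = Ψ p ∧ Ψ' p = Φ p)
    (h2 : ∀ p, ¬ V01_W G lv h Φ Ψ Del p → Φ' p = Φ p ∧ Ψ' p = Ψ p) {a b : Λ} (ha : a ∉ Del)
    (hb : b ∉ Del) : cf G Φ' Ψ' a b ↔ cf G Φ Ψ a b := by
  unfold cf
  refine and_congr_right fun hab => ?_
  by_cases wa : V01_W G lv h Φ Ψ Del a
  · by_cases wb : V01_W G lv h Φ Ψ Del b
    · rw [(h1 a wa).1, (h1 a wa).2, (h1 b wb).1, (h1 b wb).2]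
      exact Or.comm
    · rw [(h1 a wa).1, (h1 a wa).2, (h2 b wb).1, (h2 b wb).2]
      have ib : V01_I G lv h Φ Ψ Del b := by
        by_contra hc
        exact wb ⟨hc, hb⟩
      constructor
      · rintro (e | e)
        · exact absurd e (hΨ a b hab)
        · exact absurd e (hΦ a b hab)
      · intro e
        exact absurd (V01_I_step ib (V01_cf_symm ⟨hab, e⟩) ha) wa.1
  · by_cases wb : V01_W G lv h Φ Ψ Del b
    · rw [(h2 a wa).1, (h2 a wa).2, (h1 b wb).1, (h1 b wb).2]
      have ia : V01_I G lv h Φ Ψ Del a := by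
        by_contra hc
        exact wa ⟨hc, ha⟩
      constructor
      · rintro (e | e)
        · exact absurd e (hΦ a b hab)
        · exact absurd e (hΨ a b hab)
      · intro e
        exact absurd (V01_I_step ia ⟨hab, e⟩ hb) wb.1
    · rw [(h2 a wa).1, (h2 a wa).2, (h2 b wb).1, (h2 b wb).2]

private theorem V01_I_eq {G : SimpleGraph Λ} {lv : Λ → ℕ} {h : ℕ} {Φ Ψ Φ' Ψ' : Λ → Fin q}
    {Del : Finset Λ} (hc : ∀ a b, a ∉ Del → b ∉ Del → (cf G Φ' Ψ' a b ↔ cf G Φ Ψ a b)) :
    V01_I G lv h Φ' Ψ' Del = V01_I G lv h Φ Ψ Del := by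
  have e : (fun a b => cf G Φ' Ψ' a b ∧ a ∉ Del ∧ b ∉ Del) =
      fun a b => cf G Φ Ψ a b ∧ a ∉ Del ∧ b ∉ Del := by
    funext a b
    refine propext ⟨fun hh => ⟨(hc a b hh.2.1 hh.2.2).mp hh.1, hh.2⟩,
      fun hh => ⟨(hc a b hh.2.1 hh.2.2).mpr hh.1, hh.2⟩⟩
  unfold V01_I
  rw [e]

private theorem V01_card {α : Type} [Fintype α] (P Q : α → Prop) {i₁ : DecidablePred P}
    {i₂ : DecidablePred Q} (f : α → α) (h1 : ∀ a, P a → Q (f a))
    (h2 : ∀ a b, P a → P b → f a = f b → a = b) :
    (univ.filter P).card ≤ (univ.filter Q).card := by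
  refine Finset.card_le_card_of_injOn f (fun a ha => ?_) (fun a ha b hb hab => ?_)
  · exact Finset.mem_coe.mpr (Finset.mem_filter.mpr
      ⟨Finset.mem_univ _, h1 a (Finset.mem_filter.mp (Finset.mem_coe.mp ha)).2⟩)
  · exact h2 a b (Finset.mem_filter.mp (Finset.mem_coe.mp ha)).2
      (Finset.mem_filter.mp (Finset.mem_coe.mp hb)).2 hab

end V01

open scoped Classical in
theorem swap_le {V Λ : Type} [Fintype V] [DecidableEq V] [Fintype Λ] [DecidableEq Λ] {q h : ℕ}
    {X X' : SimpleGraph V} {ev : V → Prop} {G : SimpleGraph Λ} {lv : Λ → ℕ} {i : Bool → Λ → V}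
    (hL : Layer h X X' ev G lv i) (hh : 2 ≤ h) (Del : Finset Λ) :
    cG X (fun F : V → Fin q => sp G lv h (fb i F false) (fb i F true) Del) ≤
      cG (dlG X' (Del.image (i false) ∪ Del.image (i true))) (fun _ : V → Fin q => True) := by
  have inj := hL.inj
  have prF : ∀ F : V → Fin q, PrG X F → ∀ b, PrG G (fb i F b) := fun F hF b p p' hpp' =>
    hF _ _ ((hL.adj b b p p').mpr ⟨rfl, hpp'⟩)
  have hW : ∀ F : V → Fin q, PrG X F →
      V01_W G lv h (fb i (V01_sw G lv h i Del F) false) (fb i (V01_sw G lv h i Del F) true) Del =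
        V01_W G lv h (fb i F false) (fb i F true) Del := by
    intro F hF
    have e : V01_I G lv h (fb i (V01_sw G lv h i Del F) false)
        (fb i (V01_sw G lv h i Del F) true) Del =
        V01_I G lv h (fb i F false) (fb i F true) Del := by
      refine V01_I_eq fun a b ha hb =>
        V01_cf (lv := lv) (h := h) (prF F hF false) (prF F hF true) ?_ ?_ ha hb
      · intro p hp
        simp only [fb, V01_sw, V01_sg_in inj hp, Bool.not_false, Bool.not_true, and_self]
      · intro p hp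
        simp only [fb, V01_sw, V01_sg_nin inj hp, and_self]
    unfold V01_W
    rw [e]
  unfold cG
  refine Nat.cast_le.mpr (V01_card _ _ (V01_sw G lv h i Del) ?_ ?_)
  · rintro F ⟨hF1, hs⟩
    refine ⟨?_, trivial⟩
    set Wp := V01_W G lv h (fb i F false) (fb i F true) Del with hWp
    set Ip := V01_I G lv h (fb i F false) (fb i F true) Del with hIp
    have hI : ∀ p, p ∉ Del → ¬ Wp p → Ip p := by
      intro p hp hw
      by_contra hc
      exact hw ⟨hc, hp⟩
    have hin : ∀ b p, Wp p → V01_sw G lv h i Del F (i b p) = F (i (!b) p) := by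
      intro b p hp
      unfold V01_sw
      rw [V01_sg_in inj hp]
    have hnin : ∀ b p, ¬ Wp p → V01_sw G lv h i Del F (i b p) = F (i b p) := by
      intro b p hp
      unfold V01_sw
      rw [V01_sg_nin inj hp]
    have hout : ∀ v, (∀ b p, v ≠ i b p) → V01_sw G lv h i Del F v = F v := by
      intro v hv
      unfold V01_sw
      rw [V01_sg_out hv]
    have hDel : ∀ b p, i b p ∉ Del.image (i false) ∪ Del.image (i true) → p ∉ Del := by
      intro b p hp hd
      refine hp (Finset.mem_union.mpr ?_)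
      cases b
      · exact Or.inl (Finset.mem_image_of_mem _ hd)
      · exact Or.inr (Finset.mem_image_of_mem _ hd)
    have key : ∀ v b p, (∀ b p, v ≠ i b p) → p ∉ Del → X'.Adj v (i b p) →
        V01_sw G lv h i Del F v ≠ V01_sw G lv h i Del F (i b p) := by
      intro v b p hv hp hadj
      have h1 := (hL.oi b p v hv).mp hadj
      have h2 := hL.out _ p v hv h1
      rw [hout v hv]
      by_cases h0 : lv p = 0
      · rw [if_pos h0] at h1
        have hw : Wp p := ⟨fun hc => V01_I_lv hs hc h0, hp⟩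
        rw [hin b p hw]
        exact hF1 _ _ h1
      · rw [if_neg h0] at h1
        have hlv : lv p + 1 = h := h2.resolve_left h0
        have hw : ¬ Wp p := fun hc => hc.1 ⟨p, hlv, hp, Relation.ReflTransGen.refl⟩
        rw [hnin b p hw]
        exact hF1 _ _ h1
    have key2 : ∀ b p p', p ∉ Del → p' ∉ Del → G.Adj p p' → Wp p → ¬ Wp p' →
        V01_sw G lv h i Del F (i b p) ≠ V01_sw G lv h i Del F (i b p') := by
      intro b p p' hp hp' hadj hw hw'
      rw [hin b p hw, hnin b p' hw']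
      intro e
      have hI' := hI p' hp' hw'
      have hc : cf G (fb i F false) (fb i F true) p p' := by
        refine ⟨hadj, ?_⟩
        cases b
        · exact Or.inr e
        · exact Or.inl e
      exact hw.1 (V01_I_step hI' (V01_cf_symm hc) hp)
    intro v w hvw
    obtain ⟨hadj, hv, hw⟩ := hvw
    by_cases ov : ∀ b p, v ≠ i b p
    · by_cases ow : ∀ b p, w ≠ i b p
      · rw [hout v ov, hout w ow]
        exact hF1 _ _ ((hL.oo v w ov ow).mp hadj)
      · push Not at ow
        obtain ⟨b, p, rfl⟩ := ow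
        exact key v b p ov (hDel b p hw) hadj
    · push Not at ov
      obtain ⟨b, p, rfl⟩ := ov
      by_cases ow : ∀ b p, w ≠ i b p
      · exact (key w b p ow (hDel b p hv) hadj.symm).symm
      · push Not at ow
        obtain ⟨b', p', rfl⟩ := ow
        obtain ⟨rfl, hpp'⟩ := (hL.adj' b b' p p').mp hadj
        have hp := hDel b p hv
        have hp' := hDel b p' hw
        by_cases w1 : Wp p
        · by_cases w2 : Wp p'
          · rw [hin b p w1, hin b p' w2]
            exact hF1 _ _ ((hL.adj _ _ p p').mpr ⟨rfl, hpp'⟩)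
          · exact key2 b p p' hp hp' hpp' w1 w2
        · by_cases w2 : Wp p'
          · exact (key2 b p' p hp' hp hpp'.symm w2 w1).symm
          · rw [hnin b p w1, hnin b p' w2]
            exact hF1 _ _ ((hL.adj _ _ p p').mpr ⟨rfl, hpp'⟩)
  · rintro F₁ F₂ ⟨hF1, _⟩ ⟨hF2, _⟩ he
    have e1 := hW F₁ hF1
    have e2 := hW F₂ hF2
    rw [he, e2] at e1
    funext v
    have e3 := congrFun he (V01_sg i (V01_W G lv h (fb i F₁ false) (fb i F₁ true) Del) v)
    simp only [V01_sw] at e3
    rw [← e1] at e3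
    simp only [V01_sg_sg inj] at e3
    exact e3

end Pool.Agent.LC

end

/-! ### from `Lib_MP_2c424f_lc5.V02` -/

section

/-!
# Part V, V02: deleting the edges at few sites

`COR.add_edges` with `G = dlG X D`, `G' = X`, `E` = the pairs `(v, w)` with `v ∈ D`, `X.Adj v w`: at most `4 d |D|` pairs, so
`(1 - 1/q)^{4 d |D|} Z(dlG) ≤ Z(X)`, and `1/(1 - 1/q) ≤ e^{2/q}` for `q ≥ 2` (`1 - x ≥ e^{-2x}` for `0 ≤ x ≤ 1/2`).
-/

set_option autoImplicit false

open Finset Filter

namespace Pool.Agent.LC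

open Pool.Agent.LO Pool.Agent.LIN Pool.Agent.THR Pool.Agent.COR

theorem V02_exp {x : ℝ} (h0 : 0 ≤ x) (h1 : x ≤ 1 / 2) : Real.exp (-(2 * x)) ≤ 1 - x := by
  have h2 : 0 < 1 + 2 * x := by linarith
  have h3 : 1 + 2 * x ≤ Real.exp (2 * x) := by
    have := Real.add_one_le_exp (2 * x)
    linarith
  rw [Real.exp_neg]
  calc (Real.exp (2 * x))⁻¹ ≤ (1 + 2 * x)⁻¹ := inv_anti₀ h2 h3
    _ ≤ 1 - x := by
      rw [inv_le_iff_one_le_mul₀ h2]
      nlinarith

theorem dl_le {V : Type} [Fintype V] [DecidableEq V] {d q : ℕ} (hq : 2 ≤ q) {X : SimpleGraph V} {ev : V → Prop}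
    (hP : Par X ev) (hdeg : ∀ v, (nb X v).card ≤ 4 * d) (D : Finset V) :
    cG (dlG X D) (fun _ : V → Fin q => True) ≤
      Real.exp (8 * d * D.card / q) * cG X (fun _ : V → Fin q => True) := by
  classical
  set E : Finset (V × V) := D.biUnion fun v => (nb X v).image fun w => (v, w) with hE
  have hcard : E.card ≤ D.card * (4 * d) := by
    refine Finset.card_biUnion_le.trans ?_
    calc ∑ v ∈ D, ((nb X v).image fun w => (v, w)).card ≤ ∑ _v ∈ D, 4 * d :=
          Finset.sum_le_sum fun v _ => Finset.card_image_le.trans (hdeg v)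
      _ = D.card * (4 * d) := by rw [Finset.sum_const, smul_eq_mul]
  have hle : dlG X D ≤ X := fun v w h => h.1
  have h1 := add_edges (q := q) hP hle (by omega) E (by
    intro x y hxy
    by_cases hx : x ∈ D
    · right; left
      exact Finset.mem_biUnion.2 ⟨x, hx, Finset.mem_image.2 ⟨y, by simp [nb, hxy], rfl⟩⟩
    · by_cases hy : y ∈ D
      · right; right
        exact Finset.mem_biUnion.2 ⟨y, hy, Finset.mem_image.2 ⟨x, by simp [nb, hxy.symm], rfl⟩⟩
      · left
        exact ⟨hxy, hx, hy⟩)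
  have hq0 : (0 : ℝ) < q := by
    have : 0 < q := by omega
    exact_mod_cast this
  have hq2 : (2 : ℝ) ≤ q := by exact_mod_cast hq
  have hx0 : (0 : ℝ) ≤ 1 / q := by positivity
  have hx1 : (1 : ℝ) / q ≤ 1 / 2 := one_div_le_one_div_of_le (by norm_num) hq2
  have h2 := V02_exp hx0 hx1
  have h3 : Real.exp (-(8 * d * D.card / q)) ≤ (1 - 1 / (q : ℝ)) ^ E.card := by
    calc Real.exp (-(8 * d * D.card / q)) ≤ Real.exp (E.card * -(2 * (1 / (q : ℝ)))) := by
          apply Real.exp_le_exp.2
          have h4 : (E.card : ℝ) ≤ D.card * (4 * d) := by exact_mod_cast hcard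
          have h5 : (E.card : ℝ) * (2 * (1 / (q : ℝ))) ≤ D.card * (4 * d) * (2 * (1 / (q : ℝ))) :=
            mul_le_mul_of_nonneg_right h4 (by positivity)
          have h6 : (D.card : ℝ) * (4 * d) * (2 * (1 / (q : ℝ))) = 8 * d * D.card / q := by ring
          linarith
      _ = Real.exp (-(2 * (1 / (q : ℝ)))) ^ E.card := by rw [Real.exp_nat_mul]
      _ ≤ _ := pow_le_pow_left₀ (Real.exp_pos _).le h2 _
  have hZ : 0 ≤ cG (dlG X D) (fun _ : V → Fin q => True) := by
    unfold cG
    positivity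
  have h7 : Real.exp (-(8 * d * D.card / q)) * cG (dlG X D) (fun _ : V → Fin q => True) ≤
      cG X (fun _ : V → Fin q => True) := (mul_le_mul_of_nonneg_right h3 hZ).trans h1
  calc cG (dlG X D) (fun _ : V → Fin q => True)
      = Real.exp (8 * d * D.card / q) * (Real.exp (-(8 * d * D.card / q)) *
          cG (dlG X D) (fun _ : V → Fin q => True)) := by
        rw [← mul_assoc, ← Real.exp_add]
        simp
    _ ≤ _ := mul_le_mul_of_nonneg_left h7 (Real.exp_pos _).le

end Pool.Agent.LC

end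

/-! ### from `Lib_MP_2c424f_lc5.V12a` -/

section

/-!
# Part V, V12a: a window with few points of a set; number of small subsets

`window`: the windows `b₀ = 1 + w (n+1)`, `w < N = (h - 3) / (n + 1)` are disjoint and satisfy `b₀ + n + 2 ≤ h`; one of them has at
most `|A| / N` points of `A`, and `h ≤ 2 (n+1) N` as `2n + 8 ≤ h` (`(n+1) N ≥ h - 3 - n`).
`small_subsets`: `∑_{D ⊆ W, |D| ≤ s} 1 ≤ ∑_{D ⊆ W} e^{L (s - |D|)} = e^{L s} (1 + e^{-L})^{|W|}` and `1 + x ≤ e^x`.
-/

set_option autoImplicit false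

open Finset Filter

namespace Pool.Agent.LC

open Pool.Agent.LO Pool.Agent.LIN Pool.Agent.THR Pool.Agent.COR

open scoped Classical in
theorem window {Λ : Type} [Fintype Λ] [DecidableEq Λ] (lv : Λ → ℕ) (h n : ℕ) (hn : 2 * n + 8 ≤ h) (A : Finset Λ) :
    ∃ b₀, 1 ≤ b₀ ∧ b₀ + n + 2 ≤ h ∧ (A ∩ wn lv b₀ (b₀ + n)).card * h ≤ 2 * (n + 1) * A.card := by
  set N : ℕ := (h - 3) / (n + 1) with hN
  have hN1 : N * (n + 1) ≤ h - 3 := Nat.div_mul_le_self _ _
  have hN2 : h - 3 < N * (n + 1) + (n + 1) := by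
    have := Nat.lt_div_mul_add (a := h - 3) (b := n + 1) (by omega)
    rw [← hN] at this
    exact this
  have hNpos : 0 < N := by
    rw [hN]
    exact Nat.div_pos (by omega) (by omega)
  have hh : h ≤ 2 * (N * (n + 1)) := by omega
  have hdisj : ∀ w ∈ range N, ∀ w' ∈ range N, w ≠ w' →
      Disjoint (A ∩ wn lv (1 + w * (n + 1)) (1 + w * (n + 1) + n))
        (A ∩ wn lv (1 + w' * (n + 1)) (1 + w' * (n + 1) + n)) := by
    intro w _ w' _ hne
    rw [Finset.disjoint_left]
    intro x hx hx'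
    simp only [wn, mem_inter, mem_filter, mem_univ, true_and] at hx hx'
    obtain ⟨_, h1, h2⟩ := hx
    obtain ⟨_, h3, h4⟩ := hx'
    rcases lt_or_gt_of_ne hne with hlt | hgt
    · have h5 : (w + 1) * (n + 1) ≤ w' * (n + 1) := Nat.mul_le_mul_right _ hlt
      have h6 : (w + 1) * (n + 1) = w * (n + 1) + (n + 1) := by ring
      omega
    · have h5 : (w' + 1) * (n + 1) ≤ w * (n + 1) := Nat.mul_le_mul_right _ hgt
      have h6 : (w' + 1) * (n + 1) = w' * (n + 1) + (n + 1) := by ring
      omega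
  have hsum : ∑ w ∈ range N, (A ∩ wn lv (1 + w * (n + 1)) (1 + w * (n + 1) + n)).card ≤ A.card := by
    rw [← Finset.card_biUnion hdisj]
    apply Finset.card_le_card
    intro x hx
    rw [Finset.mem_biUnion] at hx
    obtain ⟨w, _, hw⟩ := hx
    exact (Finset.mem_inter.1 hw).1
  obtain ⟨w, hw, hle⟩ := Finset.exists_le_of_sum_le (s := range N)
    (f := fun w => (A ∩ wn lv (1 + w * (n + 1)) (1 + w * (n + 1) + n)).card * h)
    (g := fun _ => 2 * (n + 1) * A.card) (Finset.nonempty_range_iff.2 hNpos.ne') (by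
      rw [← Finset.sum_mul, Finset.sum_const, Finset.card_range, smul_eq_mul]
      calc (∑ w ∈ range N, (A ∩ wn lv (1 + w * (n + 1)) (1 + w * (n + 1) + n)).card) * h
          ≤ A.card * (2 * (N * (n + 1))) := Nat.mul_le_mul hsum hh
        _ = N * (2 * (n + 1) * A.card) := by ring)
  refine ⟨1 + w * (n + 1), by omega, ?_, hle⟩
  have h5 : (w + 1) * (n + 1) ≤ N * (n + 1) := Nat.mul_le_mul_right _ (Finset.mem_range.1 hw)
  have h6 : (w + 1) * (n + 1) = w * (n + 1) + (n + 1) := by ring
  omega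

open scoped Classical in
theorem small_subsets {Λ : Type} [DecidableEq Λ] (W : Finset Λ) (s L : ℝ) (hL : 0 ≤ L) :
    ((W.powerset.filter fun D => (D.card : ℝ) ≤ s).card : ℝ) ≤ Real.exp (L * s + W.card * Real.exp (-L)) := by
  have h1 : ((W.powerset.filter fun D => (D.card : ℝ) ≤ s).card : ℝ)
      ≤ ∑ D ∈ W.powerset, Real.exp (L * s) * ∏ _i ∈ D, Real.exp (-L) := by
    have h2 : ((W.powerset.filter fun D => (D.card : ℝ) ≤ s).card : ℝ)
        = ∑ D ∈ W.powerset.filter (fun D => (D.card : ℝ) ≤ s), (1 : ℝ) := by simp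
    rw [h2]
    refine le_trans (Finset.sum_le_sum (g := fun D => Real.exp (L * s) * ∏ _i ∈ D, Real.exp (-L)) ?_)
      (Finset.sum_le_sum_of_subset_of_nonneg (Finset.filter_subset _ _) ?_)
    · intro D hD
      have h3 : (D.card : ℝ) ≤ s := (Finset.mem_filter.1 hD).2
      rw [Finset.prod_const, ← Real.exp_nat_mul, ← Real.exp_add]
      apply Real.one_le_exp
      have h4 := mul_le_mul_of_nonneg_left h3 hL
      linarith
    · intro D _ _
      positivity
  have h5 : ∑ D ∈ W.powerset, Real.exp (L * s) * ∏ _i ∈ D, Real.exp (-L)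
      = Real.exp (L * s) * (1 + Real.exp (-L)) ^ W.card := by
    rw [← Finset.mul_sum, ← Finset.prod_one_add, Finset.prod_const]
  rw [h5] at h1
  refine h1.trans ?_
  rw [Real.exp_add, Real.exp_nat_mul]
  have h6 : 1 + Real.exp (-L) ≤ Real.exp (Real.exp (-L)) := by
    have := Real.add_one_le_exp (Real.exp (-L))
    linarith
  gcongr

end Pool.Agent.LC

end

/-! ### from `Lib_MP_2c424f_lc2.A11` -/

section

/-!
# LC2 A11: product formula for isolated boxes

`COR.indep` with `W = V`, `F = Fin q`, the index set `Option ι` (finset `insertNone S`), the disjoint sets of vertices: images of the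
boxes (`some j`) and the complement of their union (`none`); `E (some j) f`: `f` is proper on the edges inside the image of `κ j`
and `P j (f ∘ κ j)`; `E none f`: `f` is proper on the edges inside the complement.  There are no other edges (`hcl`).
`#{E (some j)} = cG (H j) (P j) · q^(|V| - |W j|)` (restriction to the image; `κ j` is injective), the same for `P = True`; divide.
(All sums are finite; `1 ≤ q`.)
-/

set_option autoImplicit false

open Finset Filter

namespace Pool.Agent.LC

open Pool.Agent.LO Pool.Agent.LIN Pool.Agent.THR Pool.Agent.COR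

private theorem ext_pr_A11 {V W : Type} [Fintype V] [DecidableEq V] [Fintype W] [DecidableEq W]
    {q : ℕ} (X : SimpleGraph V) (H : SimpleGraph W) (κ : W → V) (hinj : Function.Injective κ)
    (hadj : ∀ u u', X.Adj (κ u) (κ u') ↔ H.Adj u u')
    (hcl : ∀ u v, X.Adj (κ u) v → ∃ u', v = κ u') (F : V → Fin q) (g : W → Fin q)
    (hF : PrG X F) (hg : PrG H g) : PrG X (Function.extend κ g F) := by
  intro x y hxy
  by_cases hx : ∃ u, κ u = x
  · obtain ⟨u, rfl⟩ := hx
    obtain ⟨u', rfl⟩ := hcl u y hxy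
    rw [hinj.extend_apply, hinj.extend_apply]
    exact hg _ _ ((hadj _ _).1 hxy)
  · by_cases hy : ∃ u, κ u = y
    · obtain ⟨u, rfl⟩ := hy
      obtain ⟨u', hu'⟩ := hcl u x hxy.symm
      exact absurd ⟨u', hu'.symm⟩ hx
    · rw [Function.extend_apply' _ _ _ hx, Function.extend_apply' _ _ _ hy]
      exact hF _ _ hxy

private theorem res_pr_A11 {V W : Type} [Fintype V] [DecidableEq V] [Fintype W] [DecidableEq W]
    {q : ℕ} (X : SimpleGraph V) (H : SimpleGraph W) (κ : W → V)
    (hadj : ∀ u u', X.Adj (κ u) (κ u') ↔ H.Adj u u') (F : V → Fin q) (hF : PrG X F) :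
    PrG H (fun u => F (κ u)) := by
  intro x y hxy
  exact hF _ _ ((hadj _ _).2 hxy)

private theorem ext_eq_A11 {V W : Type} {q : ℕ} (κ : W → V) (hinj : Function.Injective κ)
    (F : V → Fin q) (g : W → Fin q) :
    Function.extend κ (fun u => F (κ u)) (Function.extend κ g F) = F := by
  funext v
  by_cases hv : ∃ u, κ u = v
  · obtain ⟨u, rfl⟩ := hv
    rw [hinj.extend_apply]
  · rw [Function.extend_apply' _ _ _ hv, Function.extend_apply' _ _ _ hv]

private theorem step_A11 {V W : Type} [Fintype V] [DecidableEq V] [Fintype W] [DecidableEq W]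
    {q : ℕ} (X : SimpleGraph V) (H : SimpleGraph W) (κ : W → V) (hinj : Function.Injective κ)
    (hadj : ∀ u u', X.Adj (κ u) (κ u') ↔ H.Adj u u')
    (hcl : ∀ u v, X.Adj (κ u) v → ∃ u', v = κ u') (Q : (V → Fin q) → Prop)
    (hQ : ∀ F F' : V → Fin q, (∀ v, (¬ ∃ u, κ u = v) → F v = F' v) → Q F → Q F')
    (P : (W → Fin q) → Prop) :
    cG X (fun F : V → Fin q => Q F ∧ P fun u => F (κ u)) * cG H (fun _ : W → Fin q => True) =
      cG X Q * cG H P := by
  classical
  unfold cG
  rw [← Nat.cast_mul, ← Nat.cast_mul, ← Finset.card_product, ← Finset.card_product]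
  refine congrArg _ (Finset.card_nbij'
    (fun p => (Function.extend κ p.2 p.1, fun u => p.1 (κ u)))
    (fun p => (Function.extend κ p.2 p.1, fun u => p.1 (κ u))) ?_ ?_ ?_ ?_)
  · intro p hp
    simp only [Finset.coe_product, Set.mem_prod, Finset.mem_coe, Finset.mem_filter,
      Finset.mem_univ, true_and, and_true] at hp ⊢
    obtain ⟨⟨h1, h2, h3⟩, h4⟩ := hp
    refine ⟨⟨ext_pr_A11 X H κ hinj hadj hcl _ _ h1 h4, hQ _ _ ?_ h2⟩,
      res_pr_A11 X H κ hadj _ h1, h3⟩
    intro v hv
    rw [Function.extend_apply' _ _ _ hv]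
  · intro p hp
    simp only [Finset.coe_product, Set.mem_prod, Finset.mem_coe, Finset.mem_filter,
      Finset.mem_univ, true_and, and_true] at hp ⊢
    obtain ⟨⟨h1, h2⟩, h3, h4⟩ := hp
    refine ⟨⟨ext_pr_A11 X H κ hinj hadj hcl _ _ h1 h3, hQ _ _ ?_ h2, ?_⟩,
      res_pr_A11 X H κ hadj _ h1⟩
    · intro v hv
      rw [Function.extend_apply' _ _ _ hv]
    · have h5 : (fun u => Function.extend κ p.2 p.1 (κ u)) = p.2 := by
        funext u
        rw [hinj.extend_apply]
      rw [h5]
      exact h4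
  · intro p _
    refine Prod.ext (ext_eq_A11 κ hinj p.1 p.2) ?_
    funext u
    exact hinj.extend_apply _ _ _
  · intro p _
    refine Prod.ext (ext_eq_A11 κ hinj p.1 p.2) ?_
    funext u
    exact hinj.extend_apply _ _ _

/-- the general form: `H j` any finite graphs -/
theorem prod_cells {V ι : Type} [Fintype V] [DecidableEq V] (W : ι → Type) [∀ j, Fintype (W j)] [∀ j, DecidableEq (W j)]
    {q : ℕ} (hq : 1 ≤ q) (X : SimpleGraph V) (S : Finset ι) (H : ∀ j, SimpleGraph (W j)) (κ : ∀ j, W j → V)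
    (hinj : ∀ j ∈ S, Function.Injective (κ j)) (hdis : ∀ j ∈ S, ∀ j' ∈ S, j ≠ j' → ∀ u u', κ j u ≠ κ j' u')
    (hadj : ∀ j ∈ S, ∀ u u', X.Adj (κ j u) (κ j u') ↔ (H j).Adj u u')
    (hcl : ∀ j ∈ S, ∀ u v, X.Adj (κ j u) v → ∃ u', v = κ j u') (P : ∀ j, (W j → Fin q) → Prop) :
    cG X (fun F : V → Fin q => ∀ j ∈ S, P j fun u => F (κ j u)) *
        ∏ j ∈ S, cG (H j) (fun _ : W j → Fin q => True) =
      cG X (fun _ : V → Fin q => True) * ∏ j ∈ S, cG (H j) (P j) := by
  classical
  induction S using Finset.induction_on with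
  | empty => simp
  | insert j S hj ih =>
    have ih' := ih (fun a ha => hinj a (mem_insert_of_mem ha))
      (fun a ha b hb => hdis a (mem_insert_of_mem ha) b (mem_insert_of_mem hb))
      (fun a ha => hadj a (mem_insert_of_mem ha)) (fun a ha => hcl a (mem_insert_of_mem ha))
    have h1 := step_A11 X (H j) (κ j) (hinj j (mem_insert_self j S))
      (hadj j (mem_insert_self j S)) (hcl j (mem_insert_self j S))
      (fun F : V → Fin q => ∀ j' ∈ S, P j' fun u => F (κ j' u)) (by
        intro F F' hFF hF j' hj'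
        have h2 : (fun u => F' (κ j' u)) = fun u => F (κ j' u) := by
          funext u
          refine (hFF _ ?_).symm
          rintro ⟨u', hu'⟩
          exact hdis j (mem_insert_self j S) j' (mem_insert_of_mem hj')
            (fun e => hj (e ▸ hj')) u' u hu'
        rw [h2]
        exact hF j' hj') (P j)
    have h3 : (fun F : V → Fin q => ∀ j' ∈ insert j S, P j' fun u => F (κ j' u)) =
        fun F : V → Fin q => (∀ j' ∈ S, P j' fun u => F (κ j' u)) ∧ P j fun u => F (κ j u) := by
      funext F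
      rw [Finset.forall_mem_insert, and_comm]
    rw [h3, Finset.prod_insert hj, Finset.prod_insert hj, ← mul_assoc, h1, mul_right_comm, ih']
    ring

end Pool.Agent.LC

end

/-! ### from `Lib_MP_2c424f_lc2.A08` -/

section

/-!
# LC2 A08: typicality is local

`κ` injective; near `u` the neighbours of `κ x` are the images of the neighbours of `x` (`x = u` and all neighbours `x` of `u`).
Then `nb X (κ x)` is the image of `nb H x`, `Rv`, `Rc`, `nv`, `nc` agree at these `x` (with `F ∘ κ`), so `TyO`, `TyE` agree.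
-/

set_option autoImplicit false

open Finset Filter

namespace Pool.Agent.LC

open Pool.Agent.LO Pool.Agent.LIN Pool.Agent.THR Pool.Agent.COR

private theorem nb_map {V W : Type} [Fintype V] [Fintype W] (H : SimpleGraph W) (X : SimpleGraph V)
    (κ : W → V) (hinj : Function.Injective κ) (x : W)
    (hx : ∀ v, X.Adj (κ x) v ↔ ∃ y, v = κ y ∧ H.Adj x y) :
    nb X (κ x) = (nb H x).map ⟨κ, hinj⟩ := by
  classical
  ext v
  simp only [nb, mem_filter, mem_univ, true_and, Finset.mem_map, Function.Embedding.coeFn_mk]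
  rw [hx v]
  constructor
  · rintro ⟨y, rfl, hy⟩
    exact ⟨y, hy, rfl⟩
  · rintro ⟨y, hy, rfl⟩
    exact ⟨y, rfl, hy⟩

private theorem Rv_map {V W : Type} [Fintype V] [Fintype W] {q : ℕ} (H : SimpleGraph W) (X : SimpleGraph V)
    (κ : W → V) (F : V → Fin q) (x : W)
    (hx : ∀ v, X.Adj (κ x) v ↔ ∃ y, v = κ y ∧ H.Adj x y) :
    Rv X F (κ x) = Rv H (fun w => F (κ w)) x := by
  classical
  ext c
  simp only [Rv, mem_filter, mem_univ, true_and]
  constructor
  · intro h y hy
    exact h (κ y) ((hx (κ y)).2 ⟨y, rfl, hy⟩)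
  · intro h v hv
    obtain ⟨y, rfl, hy⟩ := (hx v).1 hv
    exact h y hy

private theorem Rc_map {V W : Type} [Fintype V] [Fintype W] {q : ℕ} (H : SimpleGraph W) (X : SimpleGraph V)
    (κ : W → V) (hinj : Function.Injective κ) (F : V → Fin q) (x u : W)
    (hx : ∀ v, X.Adj (κ x) v ↔ ∃ y, v = κ y ∧ H.Adj x y) :
    Rc X F (κ x) (κ u) = Rc H (fun w => F (κ w)) x u := by
  classical
  ext c
  simp only [Rc, mem_filter, mem_univ, true_and]
  constructor
  · intro h y hy hyu
    exact h (κ y) ((hx (κ y)).2 ⟨y, rfl, hy⟩) (fun e => hyu (hinj e))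
  · intro h v hv hvu
    obtain ⟨y, rfl, hy⟩ := (hx v).1 hv
    exact h y hy (fun e => hvu (by rw [e]))

private theorem nv_map {V W : Type} [Fintype V] [Fintype W] {q : ℕ} (H : SimpleGraph W) (X : SimpleGraph V)
    (κ : W → V) (hinj : Function.Injective κ) (F : V → Fin q) (x : W) (c : Fin q)
    (hx : ∀ v, X.Adj (κ x) v ↔ ∃ y, v = κ y ∧ H.Adj x y) :
    nv X F (κ x) c = nv H (fun w => F (κ w)) x c := by
  classical
  unfold nv
  rw [← card_map (⟨κ, hinj⟩ : W ↪ V)]
  congr 1
  ext v
  simp only [mem_filter, mem_univ, true_and, Finset.mem_map, Function.Embedding.coeFn_mk]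
  constructor
  · rintro ⟨hv, hc⟩
    obtain ⟨y, rfl, hy⟩ := (hx v).1 hv
    exact ⟨y, ⟨hy, hc⟩, rfl⟩
  · rintro ⟨y, ⟨hy, hc⟩, rfl⟩
    exact ⟨(hx _).2 ⟨y, rfl, hy⟩, hc⟩

private theorem nc_map {V W : Type} [Fintype V] [Fintype W] {q : ℕ} (H : SimpleGraph W) (X : SimpleGraph V)
    (κ : W → V) (hinj : Function.Injective κ) (F : V → Fin q) (x u : W) (c : Fin q)
    (hx : ∀ v, X.Adj (κ x) v ↔ ∃ y, v = κ y ∧ H.Adj x y) :
    nc X F (κ x) (κ u) c = nc H (fun w => F (κ w)) x u c := by
  classical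
  unfold nc
  rw [← card_map (⟨κ, hinj⟩ : W ↪ V)]
  congr 1
  ext v
  simp only [mem_filter, mem_univ, true_and, Finset.mem_map, Function.Embedding.coeFn_mk]
  constructor
  · rintro ⟨hv, hvu, hc⟩
    obtain ⟨y, rfl, hy⟩ := (hx v).1 hv
    exact ⟨y, ⟨hy, fun e => hvu (by rw [e]), hc⟩, rfl⟩
  · rintro ⟨y, ⟨hy, hyu, hc⟩, rfl⟩
    exact ⟨(hx _).2 ⟨y, rfl, hy⟩, fun e => hyu (hinj e), hc⟩

theorem Ty_map {V W : Type} [Fintype V] [Fintype W] {d q : ℕ} (H : SimpleGraph W) (X : SimpleGraph V) (ev : V → Prop)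
    (evW : W → Prop) (κ : W → V) (hinj : Function.Injective κ) (hpar : ∀ x, ev (κ x) ↔ evW x) (A : Finset (Fin q))
    (F : V → Fin q) (u : W)
    (hu : ∀ v, X.Adj (κ u) v ↔ ∃ x, v = κ x ∧ H.Adj u x)
    (hx : ∀ x, H.Adj u x → ∀ v, X.Adj (κ x) v ↔ ∃ y, v = κ y ∧ H.Adj x y) :
    Ty d X ev A F (κ u) ↔ Ty d H evW A (fun w => F (κ w)) u := by
  classical
  have htS : ∀ c, tS ev A (κ u) c ↔ tS evW A u c := by
    intro c
    unfold tS
    rw [hpar u]
  have hnb : nb X (κ u) = (nb H u).map ⟨κ, hinj⟩ := nb_map H X κ hinj u hu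
  have hRv : Rv X F (κ u) = Rv H (fun w => F (κ w)) u := Rv_map H X κ F u hu
  have hnv : ∀ c, nv X F (κ u) c = nv H (fun w => F (κ w)) u c := fun c => nv_map H X κ hinj F u c hu
  have hadj : ∀ x, x ∈ nb H u → H.Adj u x := by
    intro x hxm
    simpa [nb] using hxm
  have hO : TyO d X ev A F (κ u) ↔ TyO d H evW A (fun w => F (κ w)) u := by
    have h1 : ∀ c, (((nb X (κ u)).filter fun x => c ∈ Rc X F x (κ u)).card : ℝ) =
        (((nb H u).filter fun x => c ∈ Rc H (fun w => F (κ w)) x u).card : ℝ) := by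
      intro c
      congr 1
      rw [hnb, filter_map, card_map]
      congr 1
      apply filter_congr
      intro x hxm
      simp only [Function.comp, Function.Embedding.coeFn_mk]
      rw [Rc_map H X κ hinj F x u (hx x (hadj x hxm))]
    have h2 : ∀ (φ : ℕ → ℝ) (c : Fin q), ∑ x ∈ nb X (κ u), φ (nc X F x (κ u) c) =
        ∑ x ∈ nb H u, φ (nc H (fun w => F (κ w)) x u c) := by
      intro φ c
      rw [hnb, sum_map]
      apply sum_congr rfl
      intro x hxm
      simp only [Function.Embedding.coeFn_mk]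
      rw [nc_map H X κ hinj F x u c (hx x (hadj x hxm))]
    constructor
    · intro h
      refine ⟨?_, ?_, ?_⟩
      · intro c hc
        rw [← h1 c]
        exact h.o1 c ((htS c).2 hc)
      · intro c
        rw [← h2 (fun n => (n : ℝ) ^ 2) c]
        exact h.o2 c
      · intro c hc
        rw [← h2 (fun n => (n : ℝ)) c]
        exact h.o3 c (fun e => hc ((htS c).1 e))
    · intro h
      refine ⟨?_, ?_, ?_⟩
      · intro c hc
        rw [h1 c]
        exact h.o1 c ((htS c).1 hc)
      · intro c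
        rw [h2 (fun n => (n : ℝ) ^ 2) c]
        exact h.o2 c
      · intro c hc
        rw [h2 (fun n => (n : ℝ)) c]
        exact h.o3 c (fun e => hc ((htS c).2 e))
  have hE : TyE d X ev A F (κ u) ↔ TyE d H evW A (fun w => F (κ w)) u := by
    have h2 : (Rv X F (κ u)).filter (fun c => ¬ tS ev A (κ u) c) =
        (Rv H (fun w => F (κ w)) u).filter (fun c => ¬ tS evW A u c) := by
      rw [hRv]
      apply filter_congr
      intro c _
      rw [htS c]
    have h4 : univ.filter (fun c => tS ev A (κ u) c) = univ.filter (fun c => tS evW A u c) := by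
      apply filter_congr
      intro c _
      rw [htS c]
    constructor
    · intro h
      refine ⟨?_, ?_, ?_, ?_⟩
      · rw [← hRv]
        exact h.e1
      · rw [← h2]
        exact h.e2
      · simp only [← hnv]
        exact h.e3
      · rw [← h4]
        simp only [← hnv]
        exact h.e4
    · intro h
      refine ⟨?_, ?_, ?_, ?_⟩
      · rw [hRv]
        exact h.e1
      · rw [h2]
        exact h.e2
      · simp only [hnv]
        exact h.e3
      · rw [h4]
        simp only [hnv]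
        exact h.e4
  unfold Ty
  rw [hO, hE]

end Pool.Agent.LC

end

/-! ### from `Lib_MP_2c424f_lin.L7a` -/

section

/-!
# H30 L7a: conditional means, and the rare events for `z`, `ζ`, `ξ` (6.3)(iii)

* `fm_zz`: for `v ∈ cls b`, given the class `b` the neighbours of `v` are independent and uniform on their available
  colours; `zz h v c = ∏_σ 1[h (v + sv σ) ≠ c]` (distinct neighbours for `k ≥ 2`), so by `fm_prod` (class `!b`)
  `fm (!b) (zz · v c) f = ∏_σ (1 - zz f (v+sv σ) c / av f (v+sv σ)) = zt f v c`.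
* `zt h v c = zt f v c` and `PP (zz h · c) v = PP (zz f · c) v` for `h ∈ fib (!b) f`, `v ∈ cls b` (they depend on the
  class `b`).
* `zt_nonneg`, `zt_le_one`: `zz f u c = 1` implies `1 ≤ av f u` (and `0/0 = 0`).
* `fm_zm`: by `PP_fib`, `fm_zz` it is `ζ m ≤ m exp (-(2d/q) m) ≤ q/(2ed) ≤ q/(5d)` (`y exp (-y) ≤ 1/e`, `Real.add_one_le_exp`).
* `zt_le`: `zt ≤ exp (-(2d/q) m)`, `m = PP (zz · c) v` (`1 - y ≤ exp (-y)`, `av ≤ q`), `0 ≤ zt ≤ 1`.
-/

set_option autoImplicit false

open Finset Filter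

namespace Pool.Agent.LIN

open Pool.Agent.LO

variable {d k q : ℕ}

private theorem L7a_fac (f : Site d k → Fin q) (u : Site d k) (c : Fin q) :
    0 ≤ 1 - zz f u c / (av f u : ℝ) ∧ 1 - zz f u c / (av f u : ℝ) ≤ 1 ∧
      1 - zz f u c / (av f u : ℝ) ≤ Real.exp (-(zz f u c / q)) := by
  have hq : 0 < q := lt_of_le_of_lt (Nat.zero_le _) c.isLt
  have hq' : (0 : ℝ) < q := by exact_mod_cast hq
  unfold zz
  split_ifs with h
  · simp
  · have hcard : (SS f u).card < q := by
      have h1 := Finset.card_lt_univ_of_notMem h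
      rwa [Fintype.card_fin] at h1
    have hav : 1 ≤ av f u := by unfold av; omega
    have hav' : (1 : ℝ) ≤ av f u := by exact_mod_cast hav
    have havq : (av f u : ℝ) ≤ q := by
      have : av f u ≤ q := Nat.sub_le _ _
      exact_mod_cast this
    have h1 : (1 : ℝ) / av f u ≤ 1 := by
      rw [div_le_one (by linarith)]; exact hav'
    have h2 : (0 : ℝ) ≤ 1 / av f u := by positivity
    refine ⟨by linarith, by linarith, ?_⟩
    have h3 : (1 : ℝ) / q ≤ 1 / av f u := one_div_le_one_div_of_le (by linarith) havq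
    have h4 := Real.add_one_le_exp (-(1 / (q : ℝ)))
    linarith

theorem zt_nonneg (f : Site d k → Fin q) (v : Site d k) (c : Fin q) : 0 ≤ zt f v c :=
  Finset.prod_nonneg fun _ _ => (L7a_fac f _ c).1

theorem zt_le_one (f : Site d k → Fin q) (v : Site d k) (c : Fin q) : zt f v c ≤ 1 :=
  Finset.prod_le_one (fun _ _ => (L7a_fac f _ c).1) fun _ _ => (L7a_fac f _ c).2.1

theorem zt_le (hd : 1 ≤ d) {f : Site d k → Fin q} (hf : Prp f) (v : Site d k) (c : Fin q) :
    zt f v c ≤ Real.exp (-(2 * d / q * PP (fun x => zz f x c) v)) := by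
  have hd' : (0 : ℝ) < d := by exact_mod_cast hd
  have h1 : zt f v c ≤ ∏ σ : Stp d, Real.exp (-(zz f (v + sv σ) c / q)) :=
    Finset.prod_le_prod (fun _ _ => (L7a_fac f _ c).1) fun _ _ => (L7a_fac f _ c).2.2
  refine h1.trans (le_of_eq ?_)
  rw [← Real.exp_sum]
  congr 1
  rw [Finset.sum_neg_distrib, ← Finset.sum_div]
  unfold PP
  field_simp

theorem zt_fib (hk : 2 ≤ k) (b : Bool) {f h : Site d k → Fin q} (hh : h ∈ fib (!b) f) (v : Site d k)
    (hv : v ∈ cls b d k) (c : Fin q) : zt h v c = zt f v c := by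
  unfold zt
  refine Finset.prod_congr rfl fun σ _ => ?_
  have h1 : v + sv σ ∈ cls (!b) d k := by
    rw [mem_cls_step (by omega), Bool.not_not]
    exact hv
  have h2 := fib_SS (by omega) (!b) hh _ h1
  unfold zz av
  rw [h2]

theorem PP_fib (hk : 2 ≤ k) (b : Bool) {f h : Site d k → Fin q} (hh : h ∈ fib (!b) f) (v : Site d k)
    (hv : v ∈ cls b d k) (c : Fin q) : PP (fun x => zz h x c) v = PP (fun x => zz f x c) v := by
  unfold PP
  congr 1
  refine Finset.sum_congr rfl fun σ _ => ?_
  have h1 : v + sv σ ∈ cls (!b) d k := by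
    rw [mem_cls_step (by omega), Bool.not_not]
    exact hv
  have h2 := fib_SS (by omega) (!b) hh _ h1
  simp only [zz]
  rw [h2]

end Pool.Agent.LIN

end

/-! ### from `Lib_MP_2c424f_thr.M1` -/

section

/-!
# THR M1: elementary facts on `hh`, `al`, `ya` (paper proof: M, first lines, M1)

`∑_c zz/av = 1` at every site (`sum_zz_av`), so `∑_c hh = 2d`, `mc hh = 2d/q = a`; convexity of `exp`: `al ≥ exp (-a)`.
`zt_exp`: `v` nice: `p_u = zz/av ≤ 1/(c1 q) ≤ 1/2`; `exp (-p-p²) ≤ 1-p ≤ exp (-p)`; `0 ≤ exp (-hh) - zt ≤ ∑ p² ≤ 2d/(c1 q)²`.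
`ya_diff`: `e^(-h)/α - e^(-h')/α'`, `α, α' ≥ e^(-a)`, `|α - α'| ≤ mc |h - h'|`.
-/

set_option autoImplicit false

open Finset Filter

namespace Pool.Agent.THR

open Pool.Agent.LO Pool.Agent.LIN

variable {d k q : ℕ}

private theorem M1_zz (f : Site d k → Fin q) (v : Site d k) (c : Fin q) : 0 ≤ zz f v c ∧ zz f v c ≤ 1 := by
  unfold zz
  split_ifs <;> norm_num

private theorem M1_card : (Fintype.card (Stp d) : ℝ) = 2 * d := by
  rw [Fintype.card_prod, Fintype.card_fin, Fintype.card_bool]
  push_cast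
  ring

private theorem M1_c1 (ε : ℝ) : 0 < c1 ε := by
  unfold c1
  positivity

private theorem M1_p {f : Site d k → Fin q} (hf : Prp f) (u : Site d k) (c : Fin q) :
    0 ≤ zz f u c / (av f u : ℝ) ∧ zz f u c / (av f u : ℝ) ≤ 1 := by
  have h1 : (1 : ℝ) ≤ av f u := by exact_mod_cast av_pos hf u
  obtain ⟨h2, h3⟩ := M1_zz f u c
  refine ⟨div_nonneg h2 (by linarith), ?_⟩
  rw [div_le_one (by linarith)]
  linarith

private theorem M1_preg {ε : ℝ} (hq : 1 ≤ q) (f : Site d k → Fin q) (u : Site d k) (c : Fin q) (h : Rg ε f u) :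
    zz f u c / (av f u : ℝ) ≤ 1 / (c1 ε * q) := by
  have hq' : (1 : ℝ) ≤ q := by exact_mod_cast hq
  have h0 := M1_c1 ε
  have h1 : 0 < c1 ε * q := by positivity
  have h2 : c1 ε * q ≤ (av f u : ℝ) := h
  obtain ⟨_, h3⟩ := M1_zz f u c
  exact div_le_div₀ zero_le_one h3 h1 h2

theorem hh_nonneg (c : Fin q) (f : Site d k → Fin q) (v : Site d k) : 0 ≤ hh c f v := by
  unfold hh
  refine Finset.sum_nonneg fun σ _ => ?_
  exact div_nonneg (M1_zz f _ c).1 (Nat.cast_nonneg _)

theorem hh_le {f : Site d k → Fin q} (hf : Prp f) (c : Fin q) (v : Site d k) : hh c f v ≤ 2 * d := by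
  unfold hh
  calc ∑ σ : Stp d, zz f (v + sv σ) c / (av f (v + sv σ) : ℝ) ≤ ∑ _σ : Stp d, (1 : ℝ) :=
        Finset.sum_le_sum fun σ _ => (M1_p hf _ c).2
    _ = 2 * d := by
        rw [Finset.sum_const, Finset.card_univ, nsmul_eq_mul, M1_card, mul_one]

theorem hh_le_reg {ε : ℝ} (hq : 1 ≤ q) (c : Fin q) (f : Site d k → Fin q) (v : Site d k) (h : Nc ε f v) :
    hh c f v ≤ ra d q / c1 ε := by
  unfold hh
  have hq' : (1 : ℝ) ≤ q := by exact_mod_cast hq
  have h0 := M1_c1 ε
  calc ∑ σ : Stp d, zz f (v + sv σ) c / (av f (v + sv σ) : ℝ) ≤ ∑ _σ : Stp d, 1 / (c1 ε * q) :=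
        Finset.sum_le_sum fun σ _ => M1_preg hq f _ c (h σ)
    _ = ra d q / c1 ε := by
        rw [Finset.sum_const, Finset.card_univ, nsmul_eq_mul, M1_card]
        unfold ra
        field_simp

theorem sum_hh {f : Site d k → Fin q} (hf : Prp f) (v : Site d k) : ∑ c, hh c f v = 2 * d := by
  unfold hh
  rw [Finset.sum_comm]
  have h1 : ∀ σ ∈ (univ : Finset (Stp d)), ∑ c, zz f (v + sv σ) c / (av f (v + sv σ) : ℝ) = 1 := by
    intro σ _
    rw [← Finset.sum_div, ← av_eq]
    have h2 : (1 : ℝ) ≤ av f (v + sv σ) := by exact_mod_cast av_pos hf _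
    exact div_self (by linarith)
  rw [Finset.sum_congr rfl h1, Finset.sum_const, Finset.card_univ, nsmul_eq_mul, M1_card, mul_one]

theorem al_ge (hq : 1 ≤ q) {f : Site d k → Fin q} (hf : Prp f) (v : Site d k) : Real.exp (-ra d q) ≤ al f v := by
  have hq' : (1 : ℝ) ≤ q := by exact_mod_cast hq
  unfold al
  rw [le_div_iff₀ (by linarith)]
  have h1 : ∀ c ∈ (univ : Finset (Fin q)),
      Real.exp (-ra d q) * (1 + (ra d q - hh c f v)) ≤ Real.exp (-hh c f v) := by
    intro c _
    have h2 : Real.exp (-hh c f v) = Real.exp (-ra d q) * Real.exp (ra d q - hh c f v) := by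
      rw [← Real.exp_add]
      congr 1
      ring
    rw [h2]
    refine mul_le_mul_of_nonneg_left ?_ (Real.exp_nonneg _)
    have h3 := Real.add_one_le_exp (ra d q - hh c f v)
    linarith
  refine le_trans (le_of_eq ?_) (Finset.sum_le_sum h1)
  rw [← Finset.mul_sum]
  congr 1
  rw [Finset.sum_add_distrib, Finset.sum_sub_distrib, sum_hh hf v]
  simp only [Finset.sum_const, Finset.card_univ, Fintype.card_fin, nsmul_eq_mul, mul_one]
  unfold ra
  field_simp
  ring

theorem al_le (hq : 1 ≤ q) (f : Site d k → Fin q) (v : Site d k) : al f v ≤ 1 := by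
  have hq' : (1 : ℝ) ≤ q := by exact_mod_cast hq
  unfold al
  rw [div_le_one (by linarith)]
  calc ∑ c : Fin q, Real.exp (-hh c f v) ≤ ∑ _c : Fin q, (1 : ℝ) :=
        Finset.sum_le_sum fun c _ => Real.exp_le_one_iff.mpr (by linarith [hh_nonneg c f v])
    _ = q := by
        rw [Finset.sum_const, Finset.card_univ, Fintype.card_fin, nsmul_eq_mul, mul_one]

private theorem M1_al_pos (hq : 1 ≤ q) (f : Site d k → Fin q) (v : Site d k) : 0 < al f v := by
  have hq' : (1 : ℝ) ≤ q := by exact_mod_cast hq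
  unfold al
  refine div_pos (Finset.sum_pos (fun c _ => Real.exp_pos _) ?_) (by linarith)
  exact ⟨⟨0, by omega⟩, Finset.mem_univ _⟩

theorem ya_mean (hq : 1 ≤ q) (f : Site d k → Fin q) (v : Site d k) : mc (fun c => ya c f v) = 1 := by
  have hq' : (1 : ℝ) ≤ q := by exact_mod_cast hq
  have h1 := M1_al_pos hq f v
  unfold mc ya
  rw [← Finset.sum_div]
  have h2 : ∑ c : Fin q, Real.exp (-hh c f v) = al f v * q := by
    unfold al
    field_simp
  rw [h2]
  field_simp

theorem ya_bound (hq : 1 ≤ q) {f : Site d k → Fin q} (hf : Prp f) (c : Fin q) (v : Site d k) :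
    0 < ya c f v ∧ ya c f v ≤ Real.exp (ra d q) := by
  have h1 := M1_al_pos hq f v
  have h2 := al_ge hq hf v
  unfold ya
  refine ⟨div_pos (Real.exp_pos _) h1, ?_⟩
  rw [div_le_iff₀ h1]
  have h3 : Real.exp (-hh c f v) ≤ 1 := Real.exp_le_one_iff.mpr (by linarith [hh_nonneg c f v])
  have h4 : Real.exp (ra d q) * Real.exp (-ra d q) = 1 := by
    rw [← Real.exp_add, add_neg_cancel, Real.exp_zero]
  calc Real.exp (-hh c f v) ≤ 1 := h3
    _ = Real.exp (ra d q) * Real.exp (-ra d q) := h4.symm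
    _ ≤ _ := mul_le_mul_of_nonneg_left h2 (Real.exp_nonneg _)

theorem exp_hh (hq : 1 ≤ q) (f : Site d k → Fin q) (c : Fin q) (v : Site d k) :
    Real.exp (-hh c f v) = al f v * ya c f v := by
  have h1 := M1_al_pos hq f v
  unfold ya
  field_simp

private theorem M1_prod {ι : Type*} (s : Finset ι) (a b : ι → ℝ) (ha : ∀ i ∈ s, 0 ≤ a i ∧ a i ≤ 1)
    (hb : ∀ i ∈ s, 0 ≤ b i ∧ b i ≤ 1) : |∏ i ∈ s, a i - ∏ i ∈ s, b i| ≤ ∑ i ∈ s, |a i - b i| := by
  classical
  induction s using Finset.induction_on with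
  | empty => simp
  | insert i s hi ih =>
    rw [Finset.prod_insert hi, Finset.prod_insert hi, Finset.sum_insert hi]
    have h1 := ih (fun j hj => ha j (Finset.mem_insert_of_mem hj)) (fun j hj => hb j (Finset.mem_insert_of_mem hj))
    obtain ⟨h2, h3⟩ := ha i (Finset.mem_insert_self i s)
    have h4 : 0 ≤ ∏ j ∈ s, b j := Finset.prod_nonneg fun j hj => (hb j (Finset.mem_insert_of_mem hj)).1
    have h5 : ∏ j ∈ s, b j ≤ 1 :=
      Finset.prod_le_one (fun j hj => (hb j (Finset.mem_insert_of_mem hj)).1)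
        fun j hj => (hb j (Finset.mem_insert_of_mem hj)).2
    have h6 : a i * ∏ j ∈ s, a j - b i * ∏ j ∈ s, b j =
        a i * (∏ j ∈ s, a j - ∏ j ∈ s, b j) + (a i - b i) * ∏ j ∈ s, b j := by ring
    rw [h6]
    refine (abs_add_le _ _).trans ?_
    rw [abs_mul, abs_mul, abs_of_nonneg h2, abs_of_nonneg h4]
    have h7 : a i * |∏ j ∈ s, a j - ∏ j ∈ s, b j| ≤ |∏ j ∈ s, a j - ∏ j ∈ s, b j| :=
      mul_le_of_le_one_left (abs_nonneg _) h3
    have h8 : |a i - b i| * ∏ j ∈ s, b j ≤ |a i - b i| := mul_le_of_le_one_right (abs_nonneg _) h5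
    linarith

private theorem M1_exp2 (p : ℝ) (h0 : 0 ≤ p) (h1 : p ≤ 1) : |1 - p - Real.exp (-p)| ≤ p ^ 2 := by
  have h2 := Real.abs_exp_sub_one_sub_id_le (x := -p) (by rw [abs_neg, abs_of_nonneg h0]; exact h1)
  have h3 : 1 - p - Real.exp (-p) = -(Real.exp (-p) - 1 - -p) := by ring
  rw [h3, abs_neg]
  calc |Real.exp (-p) - 1 - -p| ≤ (-p) ^ 2 := h2
    _ = p ^ 2 := by ring

theorem zt_exp {ε : ℝ} (hε : 0 < ε) (hq : 2 / c1 ε ≤ q) {f : Site d k → Fin q} (hf : Prp f) (c : Fin q) (v : Site d k)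
    (h : Nc ε f v) : |zt f v c - Real.exp (-hh c f v)| ≤ ra d q / (c1 ε ^ 2 * q) := by
  have h0 := M1_c1 ε
  have hq' : (0 : ℝ) < q := lt_of_lt_of_le (by positivity) hq
  have hq1 : 1 ≤ q := by
    have : 0 < q := by exact_mod_cast hq'
    omega
  have h1 : Real.exp (-hh c f v) = ∏ σ : Stp d, Real.exp (-(zz f (v + sv σ) c / (av f (v + sv σ) : ℝ))) := by
    rw [← Real.exp_sum, Finset.sum_neg_distrib]
    rfl
  rw [h1]
  unfold zt
  have h2 := M1_prod (univ : Finset (Stp d)) (fun σ => 1 - zz f (v + sv σ) c / (av f (v + sv σ) : ℝ))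
    (fun σ => Real.exp (-(zz f (v + sv σ) c / (av f (v + sv σ) : ℝ))))
    (fun σ _ => ⟨by linarith [(M1_p hf (v + sv σ) c).2], by linarith [(M1_p hf (v + sv σ) c).1]⟩)
    (fun σ _ => ⟨Real.exp_nonneg _, Real.exp_le_one_iff.mpr (by linarith [(M1_p hf (v + sv σ) c).1])⟩)
  refine h2.trans ?_
  have h3 : ∀ σ ∈ (univ : Finset (Stp d)), |1 - zz f (v + sv σ) c / (av f (v + sv σ) : ℝ) -
      Real.exp (-(zz f (v + sv σ) c / (av f (v + sv σ) : ℝ)))| ≤ (1 / (c1 ε * q)) ^ 2 := by
    intro σ _
    have h4 := M1_exp2 _ (M1_p hf (v + sv σ) c).1 (M1_p hf (v + sv σ) c).2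
    refine h4.trans ?_
    exact pow_le_pow_left₀ (M1_p hf (v + sv σ) c).1 (M1_preg hq1 f _ c (h σ)) 2
  refine (Finset.sum_le_sum h3).trans (le_of_eq ?_)
  rw [Finset.sum_const, Finset.card_univ, nsmul_eq_mul, M1_card]
  unfold ra
  field_simp

theorem zt_exp' {f : Site d k → Fin q} (hf : Prp f) (c : Fin q) (v : Site d k) :
    |zt f v c - Real.exp (-hh c f v)| ≤ 1 := by
  have h1 := zt_nonneg f v c
  have h2 := zt_le_one f v c
  have h3 := Real.exp_nonneg (-hh c f v)
  have h4 : Real.exp (-hh c f v) ≤ 1 := Real.exp_le_one_iff.mpr (by linarith [hh_nonneg c f v])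
  rw [abs_le]
  constructor <;> linarith

private theorem M1_expL (x y : ℝ) (hx : 0 ≤ x) (hy : 0 ≤ y) : |Real.exp (-x) - Real.exp (-y)| ≤ |x - y| := by
  have key : ∀ s t : ℝ, 0 ≤ s → s ≤ t → |Real.exp (-s) - Real.exp (-t)| ≤ |s - t| := by
    intro s t hs hst
    have h1 : Real.exp (-t) ≤ Real.exp (-s) := Real.exp_le_exp.mpr (by linarith)
    rw [abs_of_nonneg (by linarith), abs_of_nonpos (by linarith)]
    have h2 : Real.exp (-t) = Real.exp (-s) * Real.exp (s - t) := by
      rw [← Real.exp_add]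
      congr 1
      ring
    have h3 := Real.add_one_le_exp (s - t)
    have h4 : Real.exp (-s) ≤ 1 := Real.exp_le_one_iff.mpr (by linarith)
    have h5 := Real.exp_nonneg (-s)
    rw [h2]
    nlinarith
  rcases le_total x y with h | h
  · exact key x y hx h
  · rw [abs_sub_comm, abs_sub_comm x y]
    exact key y x hy h

theorem al_diff (f : Site d k → Fin q) (v w : Site d k) :
    |al f v - al f w| ≤ mc (fun c => |hh c f v - hh c f w|) := by
  unfold al mc
  rw [← sub_div, abs_div, Nat.abs_cast, ← Finset.sum_sub_distrib]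
  refine div_le_div_of_nonneg_right ?_ (Nat.cast_nonneg _)
  refine (Finset.abs_sum_le_sum_abs _ _).trans (Finset.sum_le_sum fun c _ => ?_)
  exact M1_expL _ _ (hh_nonneg c f v) (hh_nonneg c f w)

theorem ya_diff (hq : 1 ≤ q) {f : Site d k → Fin q} (hf : Prp f) (c : Fin q) (v w : Site d k) :
    |ya c f v - ya c f w| ≤ Real.exp (ra d q) * |hh c f v - hh c f w| +
      Real.exp (2 * ra d q) * mc (fun γ => |hh γ f v - hh γ f w|) := by
  have h1 := M1_al_pos hq f v
  have h2 := M1_al_pos hq f w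
  have h3 := al_ge hq hf v
  have h4 := al_ge hq hf w
  have h5 := al_diff f v w
  have h6 := M1_expL _ _ (hh_nonneg c f v) (hh_nonneg c f w)
  have h7 : Real.exp (-hh c f w) ≤ 1 := Real.exp_le_one_iff.mpr (by linarith [hh_nonneg c f w])
  have h8 := Real.exp_nonneg (-hh c f w)
  have h9 : 1 / al f v ≤ Real.exp (ra d q) := by
    rw [div_le_iff₀ h1]
    calc (1 : ℝ) = Real.exp (ra d q) * Real.exp (-ra d q) := by
          rw [← Real.exp_add, add_neg_cancel, Real.exp_zero]
      _ ≤ _ := mul_le_mul_of_nonneg_left h3 (Real.exp_nonneg _)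
  have h10 : 1 / al f w ≤ Real.exp (ra d q) := by
    rw [div_le_iff₀ h2]
    calc (1 : ℝ) = Real.exp (ra d q) * Real.exp (-ra d q) := by
          rw [← Real.exp_add, add_neg_cancel, Real.exp_zero]
      _ ≤ _ := mul_le_mul_of_nonneg_left h4 (Real.exp_nonneg _)
  have h11 : ya c f v - ya c f w = (1 / al f v) * (Real.exp (-hh c f v) - Real.exp (-hh c f w)) +
      Real.exp (-hh c f w) * ((1 / al f v) * (1 / al f w)) * (al f w - al f v) := by
    unfold ya
    field_simp
    ring
  have h12 : (0 : ℝ) ≤ 1 / al f v := by positivity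
  have h13 : (0 : ℝ) ≤ 1 / al f w := by positivity
  have h14 : (1 / al f v) * (1 / al f w) ≤ Real.exp (2 * ra d q) := by
    have h15 : Real.exp (2 * ra d q) = Real.exp (ra d q) * Real.exp (ra d q) := by
      rw [← Real.exp_add]
      congr 1
      ring
    rw [h15]
    exact mul_le_mul h9 h10 h13 (Real.exp_nonneg _)
  rw [h11]
  refine (abs_add_le _ _).trans (add_le_add ?_ ?_)
  · rw [abs_mul, abs_of_nonneg h12]
    exact mul_le_mul h9 h6 (abs_nonneg _) (Real.exp_nonneg _)
  · rw [abs_mul, abs_of_nonneg (by positivity), abs_sub_comm]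
    refine mul_le_mul ?_ h5 (abs_nonneg _) (Real.exp_nonneg _)
    refine le_trans ?_ h14
    exact mul_le_of_le_one_left (by positivity) h7

/-- `hh`, `al`, `ya`, `zt` at sites of the class `b` are constant on the fibres of the class `!b` -/
theorem loc_fib (hk : 2 ≤ k) (b : Bool) {f h : Site d k → Fin q} (hh' : h ∈ fib (!b) f) (v : Site d k)
    (hv : v ∈ cls b d k) (c : Fin q) : hh c h v = hh c f v ∧ al h v = al f v ∧ ya c h v = ya c f v := by
  have h0 : ∀ γ : Fin q, hh γ h v = hh γ f v := by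
    intro γ
    unfold hh
    refine Finset.sum_congr rfl fun σ _ => ?_
    have h1 : v + sv σ ∈ cls (!b) d k := by
      rw [mem_cls_step (by omega), Bool.not_not]
      exact hv
    have h2 := fib_SS (by omega) (!b) hh' _ h1
    unfold zz av
    rw [h2]
  have h3 : al h v = al f v := by
    unfold al
    congr 1
    exact Finset.sum_congr rfl fun γ _ => by rw [h0 γ]
  refine ⟨h0 c, h3, ?_⟩
  unfold ya
  rw [h0 c, h3]

/-- translation -/
theorem loc_transl (f : Site d k → Fin q) (v w : Site d k) (c : Fin q) :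
    hh c (fun x => f (x + w)) v = hh c f (v + w) ∧ al (fun x => f (x + w)) v = al f (v + w) ∧
      ya c (fun x => f (x + w)) v = ya c f (v + w) ∧ gg c (fun x => f (x + w)) v = gg c f (v + w) ∧
      av (fun x => f (x + w)) v = av f (v + w) ∧ zz (fun x => f (x + w)) v c = zz f (v + w) c ∧
      zt (fun x => f (x + w)) v c = zt f (v + w) c := by
  have hS : ∀ x : Site d k, SS (fun x => f (x + w)) x = SS f (x + w) := by
    intro x
    unfold SS
    refine Finset.image_congr fun σ _ => ?_
    show f (x + sv σ + w) = f (x + w + sv σ)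
    rw [add_right_comm]
  have hz : ∀ (x : Site d k) (γ : Fin q), zz (fun x => f (x + w)) x γ = zz f (x + w) γ := by
    intro x γ
    unfold zz
    rw [hS]
  have ha : ∀ x : Site d k, av (fun x => f (x + w)) x = av f (x + w) := by
    intro x
    unfold av
    rw [hS]
  have hH : ∀ (x : Site d k) (γ : Fin q), hh γ (fun x => f (x + w)) x = hh γ f (x + w) := by
    intro x γ
    unfold hh
    refine Finset.sum_congr rfl fun σ _ => ?_
    rw [hz, ha, add_right_comm]
  have hA : ∀ x : Site d k, al (fun x => f (x + w)) x = al f (x + w) := by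
    intro x
    unfold al
    congr 1
    exact Finset.sum_congr rfl fun γ _ => by rw [hH]
  refine ⟨hH v c, hA v, ?_, ?_, ha v, hz v c, ?_⟩
  · unfold ya
    rw [hH, hA]
  · unfold gg
    rw [hz, ha]
  · unfold zt
    refine Finset.prod_congr rfl fun σ _ => ?_
    rw [hz, ha, add_right_comm]

end Pool.Agent.THR

end

/-! ### from `Lib_MP_2c424f_lin.L7c` -/

section

/-!
# H30 L7c: conditional means, and the rare events for `z`, `ζ`, `ξ` (6.3)(iii)

* `fm_zz`: for `v ∈ cls b`, given the class `b` the neighbours of `v` are independent and uniform on their available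
  colours; `zz h v c = ∏_σ 1[h (v + sv σ) ≠ c]` (distinct neighbours for `k ≥ 2`), so by `fm_prod` (class `!b`)
  `fm (!b) (zz · v c) f = ∏_σ (1 - zz f (v+sv σ) c / av f (v+sv σ)) = zt f v c`.
* `zt h v c = zt f v c` and `PP (zz h · c) v = PP (zz f · c) v` for `h ∈ fib (!b) f`, `v ∈ cls b` (they depend on the
  class `b`).
* `zt_nonneg`, `zt_le_one`: `zz f u c = 1` implies `1 ≤ av f u` (and `0/0 = 0`).
* `fm_zm`: by `PP_fib`, `fm_zz` it is `ζ m ≤ m exp (-(2d/q) m) ≤ q/(2ed) ≤ q/(5d)` (`y exp (-y) ≤ 1/e`, `Real.add_one_le_exp`).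
* `zt_le`: `zt ≤ exp (-(2d/q) m)`, `m = PP (zz · c) v` (`1 - y ≤ exp (-y)`, `av ≤ q`), `0 ≤ zt ≤ 1`.
-/

set_option autoImplicit false

open Finset Filter

namespace Pool.Agent.LIN

open Pool.Agent.LO

variable {d k q : ℕ}

private theorem L7c_step (hk : 2 ≤ k) (b : Bool) {v : Site d k} (hv : v ∈ cls b d k)
    (σ : Stp d) : v + sv σ ∈ cls (!b) d k := by
  rw [mem_cls_step (by omega), Bool.not_not]
  exact hv

theorem fm_zz (hk : 2 ≤ k) (b : Bool) {f : Site d k → Fin q} (hf : Prp f) (v : Site d k)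
    (hv : v ∈ cls b d k) (c : Fin q) : fm (!b) (fun h => zz h v c) f = zt f v c := by
  classical
  obtain ⟨U, hU⟩ : ∃ U : Finset (Site d k), U = univ.image fun σ : Stp d => v + sv σ := ⟨_, rfl⟩
  have hUc : U ⊆ cls (!b) d k := by
    intro x hx
    rw [hU, mem_image] at hx
    obtain ⟨σ, -, rfl⟩ := hx
    exact L7c_step hk b hv σ
  have hinj : ∀ σ ∈ (univ : Finset (Stp d)), ∀ σ' ∈ (univ : Finset (Stp d)),
      v + (sv σ : Site d k) = v + sv σ' → σ = σ' := fun σ _ σ' _ h =>
    sv_inj hk (add_left_cancel h)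
  have h1 : ∀ h : Site d k → Fin q, zz h v c = ∏ u ∈ U, (if h u = c then (0 : ℝ) else 1) := by
    intro h
    rw [hU, Finset.prod_image hinj]
    unfold zz SS
    by_cases hc : c ∈ univ.image fun σ : Stp d => h (v + sv σ)
    · rw [if_pos hc]
      obtain ⟨σ, -, hσ⟩ := mem_image.1 hc
      symm
      apply Finset.prod_eq_zero (mem_univ σ)
      exact if_pos hσ
    · rw [if_neg hc]
      refine (Finset.prod_eq_one fun σ _ => if_neg fun hσ => hc ?_).symm
      exact mem_image.2 ⟨σ, mem_univ σ, hσ⟩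
  have h2 : (fun h : Site d k → Fin q => zz h v c) =
      fun h => ∏ u ∈ U, (fun (_ : Site d k) (c' : Fin q) => if c' = c then (0 : ℝ) else 1) u (h u) := by
    funext h
    exact h1 h
  rw [h2]
  refine (fm_prod (by omega) (!b) hf U hUc
    (fun (_ : Site d k) (c' : Fin q) => if c' = c then (0 : ℝ) else 1)).trans ?_
  rw [hU, Finset.prod_image hinj]
  unfold zt
  refine Finset.prod_congr rfl fun σ _ => ?_
  set u := v + sv σ with hu
  have hcard : ((SS f u)ᶜ.card : ℝ) = av f u := by
    rw [Finset.card_compl, Fintype.card_fin]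
    rfl
  have h3 : (∑ c' ∈ (SS f u)ᶜ, (if c' = c then (0 : ℝ) else 1)) = av f u - zz f u c := by
    have h4 : ∀ c' ∈ (SS f u)ᶜ, (if c' = c then (0 : ℝ) else 1) =
        1 - (if c' = c then (1 : ℝ) else 0) := by
      intro c' _
      split_ifs <;> norm_num
    rw [Finset.sum_congr rfl h4, Finset.sum_sub_distrib, Finset.sum_const, nsmul_eq_mul, mul_one,
      hcard, Finset.sum_ite_eq']
    congr 1
    unfold zz
    by_cases hc : c ∈ SS f u
    · rw [if_neg (by simpa using hc), if_pos hc]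
    · rw [if_pos (by simpa using hc), if_neg hc]
  rw [h3]
  have hav : (av f u : ℝ) ≠ 0 := by
    have h5 : f u ∉ SS f u := by
      intro h6
      obtain ⟨τ, -, hτ⟩ := mem_image.1 h6
      exact hf u τ hτ
    have h7 := Finset.card_lt_univ_of_notMem h5
    rw [Fintype.card_fin] at h7
    have h8 : 1 ≤ av f u := by unfold av; omega
    have h9 : (1 : ℝ) ≤ av f u := by exact_mod_cast h8
    linarith
  rw [sub_div, div_self hav]

/-- conditional mean of `z_v m_v` -/
theorem fm_zm (hd : 1 ≤ d) (hk : 2 ≤ k) (hq : 1 ≤ q) (b : Bool) {f : Site d k → Fin q} (hf : Prp f) (v : Site d k)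
    (hv : v ∈ cls b d k) (c : Fin q) :
    fm (!b) (fun h => zz h v c * PP (fun x => zz h x c) v) f ≤ q / (5 * d) := by
  have hd' : (0 : ℝ) < d := by exact_mod_cast hd
  have hq' : (0 : ℝ) < q := by exact_mod_cast hq
  obtain ⟨m, hm⟩ : ∃ m, m = PP (fun x => zz f x c) v := ⟨_, rfl⟩
  have h1 : fm (!b) (fun h => zz h v c * PP (fun x => zz h x c) v) f =
      fm (!b) (fun h => zz h v c) f * m := by
    unfold fm
    rw [div_mul_eq_mul_div, Finset.sum_mul]
    congr 1
    refine Finset.sum_congr rfl fun h hh => ?_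
    show zz h v c * PP (fun x => zz h x c) v = zz h v c * m
    rw [PP_fib hk b hh v hv c, hm]
  rw [h1, fm_zz hk b hf v hv c]
  have hz : ∀ x, 0 ≤ zz f x c := fun x => by unfold zz; split_ifs <;> norm_num
  have hm0 : 0 ≤ m := by
    rw [hm]
    unfold PP
    exact div_nonneg (Finset.sum_nonneg fun σ _ => hz _) (by positivity)
  have h2 := zt_le hd hf v c
  rw [← hm] at h2
  have h3 : zt f v c * m ≤ Real.exp (-(2 * d / q * m)) * m := mul_le_mul_of_nonneg_right h2 hm0
  refine h3.trans ?_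
  -- `y exp (-y) ≤ 1 / e`
  obtain ⟨y, hy⟩ : ∃ y : ℝ, y = 2 * d / q * m := ⟨_, rfl⟩
  have h4 : y * Real.exp (-y) ≤ Real.exp (-1) := by
    have h5 := Real.add_one_le_exp (y - 1)
    have h6 : y ≤ Real.exp (y - 1) := by linarith
    calc y * Real.exp (-y) ≤ Real.exp (y - 1) * Real.exp (-y) :=
          mul_le_mul_of_nonneg_right h6 (Real.exp_pos _).le
      _ = Real.exp (-1) := by rw [← Real.exp_add]; congr 1; ring
  have h5 : Real.exp (-1) ≤ 2 / 5 := by
    rw [Real.exp_neg, inv_eq_one_div, div_le_div_iff₀ (Real.exp_pos _) (by norm_num)]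
    have := Real.exp_one_gt_d9
    linarith
  have h6 : Real.exp (-(2 * d / q * m)) * m = (y * Real.exp (-y)) * (q / (2 * d)) := by
    rw [hy]
    field_simp
  rw [h6]
  calc (y * Real.exp (-y)) * (q / (2 * d)) ≤ (2 / 5) * (q / (2 * d)) :=
        mul_le_mul_of_nonneg_right (h4.trans h5) (by positivity)
    _ = q / (5 * d) := by field_simp

end Pool.Agent.LIN

end

/-! ### from `Lib_MP_2c424f_thr.C4a` -/

section

/-!
# THR C4a: two elementary inequalities (paper proof: C4)

* `gibbs`: Jensen's inequality for the logarithm: `log ∑_{p>0} F = log ∑ p (F/p) ≥ ∑ p log (F/p)`.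
* `log_lower`: `x ≥ μ/2`: `log (x/μ) ≥ -|x-μ|/min x μ ≥ -2|x-μ|/μ`; `1 ≤ x < μ/2`: `log x ≥ 0 ≥ log μ - 4 log μ (x-μ)²/μ²`.
-/

set_option autoImplicit false

open Finset Filter

namespace Pool.Agent.THR

open Pool.Agent.LO Pool.Agent.LIN

theorem gibbs {Ω : Type*} [Fintype Ω] (p F : Ω → ℝ) (hp : ∀ ω, 0 ≤ p ω) (hs : ∑ ω, p ω = 1) (hF : ∀ ω, 0 < p ω → 1 ≤ F ω) :
    ∑ ω, p ω * Real.log (F ω) - ∑ ω, p ω * Real.log (p ω) ≤ Real.log (∑ ω, if 0 < p ω then F ω else 0) := by
  have h := strictConcaveOn_log_Ioi.concaveOn.le_map_sum (t := (univ : Finset Ω)) (w := p)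
    (p := fun ω => if 0 < p ω then F ω / p ω else 1) (fun ω _ => hp ω) hs (fun ω _ => by
      simp only [Set.mem_Ioi]
      split_ifs with h0
      · exact div_pos (by linarith [hF ω h0]) h0
      · exact one_pos)
  refine le_trans (le_of_eq ?_) (h.trans (le_of_eq ?_))
  · rw [← sum_sub_distrib]
    refine sum_congr rfl fun ω _ => ?_
    by_cases h0 : 0 < p ω
    · have h1 : 0 < F ω := by linarith [hF ω h0]
      simp only [h0, if_true, smul_eq_mul]
      rw [Real.log_div h1.ne' h0.ne']
      ring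
    · have h1 : p ω = 0 := le_antisymm (not_lt.1 h0) (hp ω)
      simp [h1]
  · congr 1
    refine sum_congr rfl fun ω _ => ?_
    by_cases h0 : 0 < p ω
    · simp only [h0, if_true, smul_eq_mul]
      field_simp
    · have h1 : p ω = 0 := le_antisymm (not_lt.1 h0) (hp ω)
      simp [h1]

theorem log_lower (x μ : ℝ) (hx : 1 ≤ x) (hμ : 2 ≤ μ) :
    Real.log μ - 2 * |x - μ| / μ - 4 * Real.log μ * (x - μ) ^ 2 / μ ^ 2 ≤ Real.log x := by
  have hμ0 : 0 < μ := by linarith
  have hx0 : 0 < x := by linarith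
  have hlμ : 0 ≤ Real.log μ := Real.log_nonneg (by linarith)
  have h3 : 0 ≤ 4 * Real.log μ * (x - μ) ^ 2 / μ ^ 2 := by positivity
  have h2 : 0 ≤ 2 * |x - μ| / μ := by positivity
  rcases le_or_gt (μ / 2) x with h | h
  · have h1 := Real.one_sub_inv_le_log_of_pos (div_pos hx0 hμ0)
    rw [Real.log_div hx0.ne' hμ0.ne'] at h1
    have h4 : -(2 * |x - μ| / μ) ≤ 1 - (x / μ)⁻¹ := by
      have h5 : 1 - (x / μ)⁻¹ = (x - μ) / x := by
        field_simp
      rw [h5]
      have h6 : -(|x - μ| / x) ≤ (x - μ) / x := by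
        rw [← neg_div]
        exact div_le_div_of_nonneg_right (neg_abs_le _) hx0.le
      have h7 : |x - μ| / x ≤ 2 * |x - μ| / μ := by
        rw [div_le_div_iff₀ hx0 hμ0]
        nlinarith [abs_nonneg (x - μ)]
      linarith
    linarith
  · have h4 : Real.log μ ≤ 4 * Real.log μ * (x - μ) ^ 2 / μ ^ 2 := by
      rw [le_div_iff₀ (by positivity)]
      have h5 : μ ^ 2 ≤ 4 * (x - μ) ^ 2 := by nlinarith
      nlinarith
    have h5 : 0 ≤ Real.log x := Real.log_nonneg hx
    linarith

end Pool.Agent.THR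

end

/-! ### from `Lib_MP_2c424f_thr.C4c` -/

section

/-!
# THR C4c: one site (paper proof: C4)

`q = Q + 1`.  `p_c = (1+m)/(2h)` for `c < h = ⌊Q/2⌋`, `(1-m)/(2(Q-h))` for `h ≤ c < Q`, `0` for the last colour.
* `-∑ p log p = ((1+m)/2) log (2h/(1+m)) + ((1-m)/2) log (2(Q-h)/(1-m)) ≥ log (Q-1) - ((1+m)log(1+m)+(1-m)log(1-m))/2`.
* `X` = number of colours not used by `2d` independent `p`-distributed colours: `E X = ∑_c (1-p_c)^(2d) ≥ q (α* - C/q)`
  (`(1-p)^(2d) ≥ exp (-2d(p+p²))`, `2d p_c` close to `a(1±m)`, `(e^(-a(1+m)) + e^(-a(1-m)))/2 = α*`), variance `≤ 8 d` (bounded differences: Efron-Stein for independent coordinates or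
  `LIN.mcdiarmid` for small `l`; the variance is also `≤ E X` by negative correlation: `P(c, c' both unused) = (1 - p_c - p_c')^(2d) ≤ (1-p_c)^(2d) (1-p_c')^(2d)`, so
  `Var X ≤ ∑_c (1-p_c)^(2d) ≤ q`, which is the simplest way), `X ≥ 1` with the last colour unused.
* `log_lower` with `μ = E X` (`≥ q e^(-A0)/2`): `E log X ≥ log μ - 2 √(Var)/μ - 4 log μ Var/μ² ≥ log (q α*) - δ/2` for `q` large.
* `phi_eq`.
-/

set_option autoImplicit false

open Finset Filter

namespace Pool.Agent.THR

open Pool.Agent.LO Pool.Agent.LIN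

private theorem c4c_prod {ι α : Type*} [Fintype ι] [DecidableEq ι] [Fintype α] [DecidableEq α] (p u : α → ℝ) :
    ∑ s : ι → α, (∏ i, p (s i)) * (∏ i, u (s i)) = (∑ c, p c * u c) ^ Fintype.card ι := by
  have h := Finset.prod_univ_sum (fun _ : ι => (univ : Finset α)) (fun _ c => p c * u c)
  rw [Fintype.piFinset_univ] at h
  rw [Finset.prod_const, Finset.card_univ] at h
  rw [h]
  refine Finset.sum_congr rfl fun s _ => ?_
  rw [← Finset.prod_mul_distrib]

private theorem c4c_ind {ι α : Type*} [Fintype ι] [DecidableEq ι] [Fintype α] [DecidableEq α] (s : ι → α) (c : α) :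
    (if c ∈ ((univ.image s)ᶜ : Finset α) then (1 : ℝ) else 0) = ∏ i, (if s i = c then (0 : ℝ) else 1) := by
  by_cases h : c ∈ (univ.image s : Finset α)
  · obtain ⟨i, _, hi⟩ := Finset.mem_image.1 h
    rw [if_neg (by simpa using ⟨i, hi⟩)]
    refine (Finset.prod_eq_zero (Finset.mem_univ i) ?_).symm
    rw [if_pos hi]
  · rw [if_pos (by simpa using h)]
    refine (Finset.prod_eq_one fun i _ => ?_).symm
    rw [if_neg]
    intro hi
    exact h (Finset.mem_image.2 ⟨i, Finset.mem_univ i, hi⟩)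

private theorem c4c_card {ι α : Type*} [Fintype ι] [DecidableEq ι] [Fintype α] [DecidableEq α] (s : ι → α) :
    ((((univ.image s)ᶜ : Finset α).card : ℕ) : ℝ) = ∑ c : α, ∏ i, (if s i = c then (0 : ℝ) else 1) := by
  rw [Finset.card_eq_sum_ones, Nat.cast_sum]
  simp_rw [← c4c_ind]
  rw [Finset.sum_ite_mem]
  simp

private theorem c4c_E1 {ι α : Type*} [Fintype ι] [DecidableEq ι] [Fintype α] [DecidableEq α] (p : α → ℝ)
    (hs : ∑ c, p c = 1) (c : α) :
    ∑ s : ι → α, (∏ i, p (s i)) * ∏ i, (if s i = c then (0 : ℝ) else 1) = (1 - p c) ^ Fintype.card ι := by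
  rw [c4c_prod p (fun j => if j = c then (0 : ℝ) else 1)]
  congr 1
  have : ∀ j, p j * (if j = c then (0 : ℝ) else 1) = p j - (if j = c then p j else 0) := by
    intro j; split_ifs <;> ring
  simp_rw [this]
  rw [Finset.sum_sub_distrib, hs, Finset.sum_ite_eq' univ c p]
  simp

private theorem c4c_E2 {ι α : Type*} [Fintype ι] [DecidableEq ι] [Fintype α] [DecidableEq α] (p : α → ℝ)
    (hs : ∑ c, p c = 1) (c c' : α) (hcc : c ≠ c') :
    ∑ s : ι → α, (∏ i, p (s i)) * ((∏ i, (if s i = c then (0 : ℝ) else 1)) * ∏ i, (if s i = c' then (0 : ℝ) else 1)) =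
      (1 - p c - p c') ^ Fintype.card ι := by
  simp_rw [← Finset.prod_mul_distrib (f := fun i => if _ = c then (0 : ℝ) else 1)]
  have := c4c_prod (ι := ι) p (fun j => (if j = c then (0 : ℝ) else 1) * (if j = c' then (0 : ℝ) else 1))
  rw [this]
  congr 1
  have : ∀ j, p j * ((if j = c then (0 : ℝ) else 1) * (if j = c' then (0 : ℝ) else 1)) =
      p j - (if j = c then p j else 0) - (if j = c' then p j else 0) := by
    intro j
    by_cases h1 : j = c
    · have h2 : j ≠ c' := h1 ▸ hcc
      rw [if_pos h1, if_neg h2, if_pos h1, if_neg h2]; ring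
    · by_cases h2 : j = c'
      · rw [if_neg h1, if_pos h2, if_neg h1, if_pos h2]; ring
      · rw [if_neg h1, if_neg h2, if_neg h1, if_neg h2]; ring
  simp_rw [this]
  rw [Finset.sum_sub_distrib, Finset.sum_sub_distrib, hs, Finset.sum_ite_eq' univ c p, Finset.sum_ite_eq' univ c' p]
  simp

/-- mean -/
private theorem c4c_mean {ι α : Type*} [Fintype ι] [DecidableEq ι] [Fintype α] [DecidableEq α] (p : α → ℝ)
    (hs : ∑ c, p c = 1) :
    ∑ s : ι → α, (∏ i, p (s i)) * (((univ.image s)ᶜ : Finset α).card : ℝ) = ∑ c, (1 - p c) ^ Fintype.card ι := by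
  simp_rw [c4c_card, Finset.mul_sum]
  rw [Finset.sum_comm]
  exact Finset.sum_congr rfl fun c _ => c4c_E1 p hs c

private theorem c4c_two {α : Type*} [Fintype α] [DecidableEq α] (p : α → ℝ)
    (hp : ∀ c, 0 ≤ p c) (hs : ∑ c, p c = 1) (c c' : α) (hcc : c ≠ c') : p c + p c' ≤ 1 := by
  rw [← hs, ← Finset.sum_pair hcc]
  exact Finset.sum_le_sum_of_subset_of_nonneg (Finset.subset_univ _) fun i _ _ => hp i

private theorem c4c_sq {ι α : Type*} [Fintype ι] [DecidableEq ι] [Fintype α] [DecidableEq α] (p : α → ℝ)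
    (hp : ∀ c, 0 ≤ p c) (hs : ∑ c, p c = 1) :
    ∑ s : ι → α, (∏ i, p (s i)) * (((univ.image s)ᶜ : Finset α).card : ℝ) ^ 2 ≤
      (∑ c, (1 - p c) ^ Fintype.card ι) + (∑ c, (1 - p c) ^ Fintype.card ι) ^ 2 := by
  have h1 : ∀ c, 0 ≤ 1 - p c := by
    intro c
    have : p c ≤ ∑ c, p c := Finset.single_le_sum (fun i _ => hp i) (Finset.mem_univ c)
    linarith
  set F : α → (ι → α) → ℝ := fun c s => ∏ i, (if s i = c then (0 : ℝ) else 1) with hF
  have hFF : ∀ c s, F c s * F c s = F c s := by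
    intro c s
    simp only [hF]
    rw [← c4c_ind]
    split_ifs <;> ring
  have e1 : ∑ s : ι → α, (∏ i, p (s i)) * (((univ.image s)ᶜ : Finset α).card : ℝ) ^ 2 =
      ∑ c, ∑ c', ∑ s : ι → α, (∏ i, p (s i)) * (F c s * F c' s) := by
    simp_rw [c4c_card, pow_two, Finset.sum_mul_sum, Finset.mul_sum]
    rw [Finset.sum_comm]
    refine Finset.sum_congr rfl fun c _ => ?_
    rw [Finset.sum_comm]
  rw [e1, pow_two, Finset.sum_mul_sum, ← Finset.sum_add_distrib]
  refine Finset.sum_le_sum fun c _ => ?_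
  rw [← Finset.add_sum_erase _ _ (Finset.mem_univ c)]
  have e2 : ∑ s : ι → α, (∏ i, p (s i)) * (F c s * F c s) = (1 - p c) ^ Fintype.card ι := by
    simp_rw [hFF]
    exact c4c_E1 p hs c
  rw [e2]
  refine add_le_add le_rfl ?_
  calc ∑ c' ∈ univ.erase c, ∑ s : ι → α, (∏ i, p (s i)) * (F c s * F c' s)
      = ∑ c' ∈ univ.erase c, (1 - p c - p c') ^ Fintype.card ι := by
        refine Finset.sum_congr rfl fun c' hc' => ?_
        exact c4c_E2 p hs c c' (Finset.ne_of_mem_erase hc').symm
    _ ≤ ∑ c' ∈ univ.erase c, (1 - p c) ^ Fintype.card ι * (1 - p c') ^ Fintype.card ι := by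
        refine Finset.sum_le_sum fun c' hc' => ?_
        rw [← mul_pow]
        have h2 := c4c_two p hp hs c c' (Finset.ne_of_mem_erase hc').symm
        refine pow_le_pow_left₀ (by linarith) ?_ _
        nlinarith [mul_nonneg (hp c) (hp c')]
    _ ≤ ∑ c', (1 - p c) ^ Fintype.card ι * (1 - p c') ^ Fintype.card ι := by
        refine Finset.sum_le_sum_of_subset_of_nonneg (Finset.subset_univ _) fun i _ _ => ?_
        exact mul_nonneg (pow_nonneg (h1 c) _) (pow_nonneg (h1 i) _)

private theorem c4c_var {ι α : Type*} [Fintype ι] [DecidableEq ι] [Fintype α] [DecidableEq α] (p : α → ℝ)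
    (hp : ∀ c, 0 ≤ p c) (hs : ∑ c, p c = 1) (μ : ℝ) (hμ : μ = ∑ c, (1 - p c) ^ Fintype.card ι) :
    ∑ s : ι → α, (∏ i, p (s i)) * ((((univ.image s)ᶜ : Finset α).card : ℝ) - μ) ^ 2 ≤ μ := by
  have hone : ∑ s : ι → α, (∏ i, p (s i)) = 1 := by
    have := c4c_prod (ι := ι) p (fun _ => 1)
    simpa [hs] using this
  have hm := c4c_mean (ι := ι) p hs
  have h2 := c4c_sq (ι := ι) p hp hs
  rw [← hμ] at hm h2
  have : ∑ s : ι → α, (∏ i, p (s i)) * ((((univ.image s)ᶜ : Finset α).card : ℝ) - μ) ^ 2 =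
      ∑ s : ι → α, (∏ i, p (s i)) * (((univ.image s)ᶜ : Finset α).card : ℝ) ^ 2 -
        2 * μ * ∑ s : ι → α, (∏ i, p (s i)) * (((univ.image s)ᶜ : Finset α).card : ℝ) +
          μ ^ 2 * ∑ s : ι → α, (∏ i, p (s i)) := by
    rw [Finset.mul_sum, Finset.mul_sum, ← Finset.sum_sub_distrib, ← Finset.sum_add_distrib]
    exact Finset.sum_congr rfl fun s _ => by ring
  rw [this, hm, hone]
  nlinarith


private theorem c4c_log {ι α : Type*} [Fintype ι] [DecidableEq ι] [Fintype α] [DecidableEq α] (p : α → ℝ)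
    (hp : ∀ c, 0 ≤ p c) (hs : ∑ c, p c = 1) (l : α) (hl : p l = 0) (μ : ℝ)
    (hμ : μ = ∑ c, (1 - p c) ^ Fintype.card ι) (hμ2 : 2 ≤ μ) (t : ℝ) (ht : 0 < t) :
    Real.log μ - t - (1 / t + 4 * Real.log μ) / μ ≤
      ∑ s : ι → α, (∏ i, p (s i)) * Real.log (((univ.image s)ᶜ : Finset α).card) := by
  have hone : ∑ s : ι → α, (∏ i, p (s i)) = 1 := by
    have := c4c_prod (ι := ι) p (fun _ => 1)
    simpa [hs] using this
  have hvar := c4c_var (ι := ι) p hp hs μ hμ
  have hμ0 : 0 < μ := by linarith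
  have hlog : 0 ≤ Real.log μ := Real.log_nonneg (by linarith)
  set K : ℝ := (1 / t + 4 * Real.log μ) / μ ^ 2 with hK
  have hK0 : 0 ≤ K := by positivity
  have hpt : ∀ s : ι → α, (∏ i, p (s i)) * (Real.log μ - t - K * ((((univ.image s)ᶜ : Finset α).card : ℝ) - μ) ^ 2) ≤
      (∏ i, p (s i)) * Real.log (((univ.image s)ᶜ : Finset α).card) := by
    intro s
    by_cases h0 : (∏ i, p (s i)) = 0
    · rw [h0]; simp
    · refine mul_le_mul_of_nonneg_left ?_ (Finset.prod_nonneg fun i _ => hp _)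
      have hcard : (1 : ℝ) ≤ (((univ.image s)ᶜ : Finset α).card : ℝ) := by
        have : 0 < ((univ.image s)ᶜ : Finset α).card := by
          refine Finset.card_pos.2 ⟨l, ?_⟩
          rw [Finset.mem_compl]
          intro hmem
          obtain ⟨i, _, hi⟩ := Finset.mem_image.1 hmem
          exact h0 (Finset.prod_eq_zero (Finset.mem_univ i) (by rw [hi, hl]))
        exact_mod_cast this
      generalize (((univ.image s)ᶜ : Finset α).card : ℝ) = x at hcard ⊢
      have h1 := log_lower x μ hcard hμ2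
      refine le_trans ?_ h1
      have h2 : 2 * |x - μ| / μ ≤ t + (1 / t) * (x - μ) ^ 2 / μ ^ 2 := by
        have e1 : (1 / t) * (x - μ) ^ 2 / μ ^ 2 = (|x - μ| / μ) ^ 2 / t := by
          rw [div_pow, sq_abs]; field_simp
        rw [e1, mul_div_assoc]
        set z := |x - μ| / μ
        have : 0 ≤ (z - t) ^ 2 / t := by positivity
        have e2 : (z - t) ^ 2 / t = z ^ 2 / t - 2 * z + t := by field_simp; ring
        rw [e2] at this
        linarith
      have h3 : K * (x - μ) ^ 2 = (1 / t) * (x - μ) ^ 2 / μ ^ 2 + 4 * Real.log μ * (x - μ) ^ 2 / μ ^ 2 := by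
        rw [hK]; ring
      rw [h3]
      linarith
  have hsum := Finset.sum_le_sum fun s (_ : s ∈ (univ : Finset (ι → α))) => hpt s
  refine le_trans ?_ hsum
  have e : ∑ s : ι → α, (∏ i, p (s i)) * (Real.log μ - t - K * ((((univ.image s)ᶜ : Finset α).card : ℝ) - μ) ^ 2) =
      (Real.log μ - t) * (∑ s : ι → α, (∏ i, p (s i))) -
        K * ∑ s : ι → α, (∏ i, p (s i)) * ((((univ.image s)ᶜ : Finset α).card : ℝ) - μ) ^ 2 := by
    rw [Finset.mul_sum, Finset.mul_sum, ← Finset.sum_sub_distrib]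
    exact Finset.sum_congr rfl fun s _ => by ring
  rw [e, hone]
  have h4 : K * (∑ s : ι → α, (∏ i, p (s i)) * ((((univ.image s)ᶜ : Finset α).card : ℝ) - μ) ^ 2) ≤ K * μ :=
    mul_le_mul_of_nonneg_left hvar hK0
  have h5 : K * μ = (1 / t + 4 * Real.log μ) / μ := by
    rw [hK]; field_simp
  linarith

private noncomputable def c4c_pp (Q : ℕ) (m : ℝ) (c : ℕ) : ℝ :=
  if c < Q / 2 then (1 + m) / (2 * ((Q / 2 : ℕ) : ℝ)) else
    if c < Q then (1 - m) / (2 * ((Q - Q / 2 : ℕ) : ℝ)) else 0

private theorem c4c_sum (Q : ℕ) (m : ℝ) (F : ℝ → ℝ) :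
    ∑ c : Fin (Q + 1), F (c4c_pp Q m c.val) = ((Q / 2 : ℕ) : ℝ) * F ((1 + m) / (2 * ((Q / 2 : ℕ) : ℝ))) +
      ((Q - Q / 2 : ℕ) : ℝ) * F ((1 - m) / (2 * ((Q - Q / 2 : ℕ) : ℝ))) + F 0 := by
  rw [Fin.sum_univ_castSucc]
  have e0 : F (c4c_pp Q m (Fin.last Q).val) = F 0 := by
    rw [c4c_pp, if_neg (by simp only [Fin.val_last]; omega), if_neg (by simp)]
  rw [e0]
  congr 1
  have e1 : ∑ c : Fin Q, F (c4c_pp Q m (Fin.castSucc c).val) = ∑ c ∈ range Q, F (c4c_pp Q m c) := by
    rw [← Fin.sum_univ_eq_sum_range (fun c => F (c4c_pp Q m c)) Q]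
    rfl
  rw [e1, ← Finset.sum_range_add_sum_Ico _ (Nat.div_le_self Q 2)]
  congr 1
  · rw [Finset.sum_congr rfl (g := fun _ => F ((1 + m) / (2 * ((Q / 2 : ℕ) : ℝ))))]
    · rw [Finset.sum_const, Finset.card_range, nsmul_eq_mul]
    · intro c hc
      rw [c4c_pp, if_pos (Finset.mem_range.1 hc)]
  · rw [Finset.sum_congr rfl (g := fun _ => F ((1 - m) / (2 * ((Q - Q / 2 : ℕ) : ℝ))))]
    · rw [Finset.sum_const, Nat.card_Ico, nsmul_eq_mul]
    · intro c hc
      obtain ⟨h1, h2⟩ := Finset.mem_Ico.1 hc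
      rw [c4c_pp, if_neg (by omega), if_pos h2]

private theorem c4c_exp (p : ℝ) (h0 : 0 ≤ p) (h1 : p ≤ 1 / 2) : Real.exp (-(p + 2 * p ^ 2)) ≤ 1 - p := by
  have hpos : 0 < 1 - p := by linarith
  rw [← Real.le_log_iff_exp_le hpos]
  refine le_trans ?_ (Real.one_sub_inv_le_log_of_pos hpos)
  rw [show 1 - (1 - p)⁻¹ = -p / (1 - p) by field_simp; ring, le_div_iff₀ hpos]
  nlinarith [mul_nonneg h0 (mul_nonneg h0 (by linarith : 0 ≤ 1 - 2 * p))]

/-- one factor -/
private theorem c4c_pow (n : ℕ) (a q b H : ℝ) (hn : (n : ℝ) = a * q) (ha : 0 ≤ a) (hq : 12 ≤ q) (hb0 : 0 ≤ b)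
    (hb : b ≤ 2) (hH : q - 2 ≤ 2 * H) :
    Real.exp (-(a * b)) * Real.exp (-(40 * a / q)) ≤ (1 - b / (2 * H)) ^ n := by
  have hy : 0 < q - 2 := by linarith
  have hH0 : 0 < 2 * H := by linarith
  set p : ℝ := b / (2 * H) with hp
  have hp0 : 0 ≤ p := by positivity
  have hpy : p ≤ b / (q - 2) := div_le_div_of_nonneg_left hb0 hy hH
  have hpy2 : b / (q - 2) ≤ 1 / 2 := by
    rw [div_le_iff₀ hy]; linarith
  have h1 := c4c_exp p hp0 (hpy.trans hpy2)
  have h2 : Real.exp (-(p + 2 * p ^ 2)) ^ n ≤ (1 - p) ^ n := pow_le_pow_left₀ (Real.exp_nonneg _) h1 n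
  refine le_trans ?_ h2
  rw [← Real.exp_nat_mul, ← Real.exp_add]
  refine Real.exp_le_exp.2 ?_
  rw [hn]
  have h3 : p ≤ b / q + 4 * 1 / q ^ 2 * b := by
    refine hpy.trans ?_
    rw [div_le_iff₀ hy]
    have : (b / q + 4 * 1 / q ^ 2 * b) * (q - 2) = b + b * (2 * q - 8) / q ^ 2 := by
      field_simp; ring
    rw [this]
    have : 0 ≤ b * (2 * q - 8) / q ^ 2 := by
      have : 0 ≤ 2 * q - 8 := by linarith
      positivity
    linarith
  have h4 : p ^ 2 ≤ 16 / q ^ 2 := by
    have h5 : p ≤ 4 / q := by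
      refine hpy.trans ?_
      rw [div_le_div_iff₀ hy (by linarith)]
      nlinarith
    calc p ^ 2 ≤ (4 / q) ^ 2 := pow_le_pow_left₀ hp0 h5 2
      _ = 16 / q ^ 2 := by rw [div_pow]; norm_num
  have h6 : a * q * (p + 2 * p ^ 2) ≤ a * q * (b / q + 4 * 1 / q ^ 2 * b + 2 * (16 / q ^ 2)) := by
    refine mul_le_mul_of_nonneg_left ?_ (by positivity)
    linarith
  have h7 : a * q * (b / q + 4 * 1 / q ^ 2 * b + 2 * (16 / q ^ 2)) = a * b + a * (4 * b + 32) / q := by
    field_simp; ring
  have h8 : a * (4 * b + 32) / q ≤ 40 * a / q := by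
    refine div_le_div_of_nonneg_right ?_ (by linarith)
    nlinarith
  linarith

private theorem c4c_large (A κ δ : ℝ) (hκ : 0 < κ) (hδ : 0 < δ) : ∃ M : ℝ, 12 ≤ M ∧ ∀ x : ℝ, M ≤ x →
    8 / x + 40 * A / x + δ / 4 + (4 / δ + 4 * Real.log x) / (κ * x) ≤ δ ∧ 40 * A / x ≤ 1 ∧ 2 ≤ κ * x := by
  have t1 : Tendsto (fun x : ℝ => (8 + 40 * A) / x) atTop (nhds 0) := tendsto_const_nhds.div_atTop tendsto_id
  have t2 : Tendsto (fun x : ℝ => (4 / δ / κ) / x) atTop (nhds 0) := tendsto_const_nhds.div_atTop tendsto_id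
  have t3 : Tendsto (fun x : ℝ => (4 / κ) * (Real.log x ^ 1 / (1 * x + 0))) atTop (nhds ((4 / κ) * 0)) :=
    (Real.tendsto_pow_log_div_mul_add_atTop 1 0 1 one_ne_zero).const_mul _
  have t4 : Tendsto (fun x : ℝ => 40 * A / x) atTop (nhds 0) := tendsto_const_nhds.div_atTop tendsto_id
  rw [mul_zero] at t3
  have e1 := t1.eventually (gt_mem_nhds (show (0 : ℝ) < δ / 4 by positivity))
  have e2 := t2.eventually (gt_mem_nhds (show (0 : ℝ) < δ / 4 by positivity))
  have e3 := t3.eventually (gt_mem_nhds (show (0 : ℝ) < δ / 4 by positivity))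
  have e4 := t4.eventually (gt_mem_nhds (show (0 : ℝ) < 1 by norm_num))
  have e5 : ∀ᶠ x : ℝ in atTop, 2 / κ ≤ x := eventually_ge_atTop _
  obtain ⟨M, hM⟩ := eventually_atTop.1 (e1.and (e2.and (e3.and (e4.and e5))))
  refine ⟨max M 12, le_max_right _ _, fun x hx => ?_⟩
  obtain ⟨h1, h2, h3, h4, h5⟩ := hM x (le_trans (le_max_left _ _) hx)
  have hx12 : 12 ≤ x := le_trans (le_max_right _ _) hx
  have hx0 : 0 < x := by linarith
  refine ⟨?_, h4.le, ?_⟩
  · have e : 8 / x + 40 * A / x + δ / 4 + (4 / δ + 4 * Real.log x) / (κ * x) =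
        (8 + 40 * A) / x + δ / 4 + (4 / δ / κ) / x + (4 / κ) * (Real.log x ^ 1 / (1 * x + 0)) := by
      field_simp; ring
    rw [e]
    linarith
  · rw [div_le_iff₀ hκ] at h5
    linarith

/-- the explicit weights -/
private theorem c4c_core (Q d : ℕ) (a m q δ κ A : ℝ) (hq : q = (Q : ℝ) + 1) (ha : 0 ≤ a) (haA : a ≤ A)
    (hd : 2 * (d : ℝ) = a * q) (hm0 : 0 < m) (hm1 : m < 1) (hδ : 0 < δ) (hκ : κ = Real.exp (-1 - A) / 2)
    (hq12 : 12 ≤ q)
    (h1 : 8 / q + 40 * A / q + δ / 4 + (4 / δ + 4 * Real.log q) / (κ * q) ≤ δ) (h2 : 40 * A / q ≤ 1)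
    (h3 : 2 ≤ κ * q) (hMF : MFE a m) :
    ∃ p : Fin (Q + 1) → ℝ, (∀ c, 0 ≤ p c) ∧ ∑ c, p c = 1 ∧ p (Fin.last Q) = 0 ∧
      2 * Real.log q + Phi a m - δ ≤
        (∑ s : Stp d → Fin (Q + 1), (∏ σ, p (s σ)) * Real.log (((univ.image s)ᶜ : Finset (Fin (Q + 1))).card)) -
          ∑ c, p c * Real.log (p c) := by
  have hq0 : 0 < q := by linarith
  have hQ11 : (11 : ℝ) ≤ Q := by linarith
  have hQ11' : 11 ≤ Q := by exact_mod_cast hQ11
  have hH1n : Q ≤ 2 * (Q / 2) + 1 := by omega
  have hH2n : Q ≤ 2 * (Q - Q / 2) := by omega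
  have hHs : Q / 2 + (Q - Q / 2) = Q := by omega
  have hH1 : q - 2 ≤ 2 * ((Q / 2 : ℕ) : ℝ) := by
    have : (Q : ℝ) ≤ 2 * ((Q / 2 : ℕ) : ℝ) + 1 := by exact_mod_cast hH1n
    linarith
  have hH2 : q - 2 ≤ 2 * ((Q - Q / 2 : ℕ) : ℝ) := by
    have : (Q : ℝ) ≤ 2 * ((Q - Q / 2 : ℕ) : ℝ) := by exact_mod_cast hH2n
    linarith
  have hH1p : 0 < ((Q / 2 : ℕ) : ℝ) := by linarith
  have hH2p : 0 < ((Q - Q / 2 : ℕ) : ℝ) := by linarith
  have hsum := c4c_sum Q m
  set H1 : ℝ := ((Q / 2 : ℕ) : ℝ) with hH1def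
  set H2 : ℝ := ((Q - Q / 2 : ℕ) : ℝ) with hH2def
  set p : Fin (Q + 1) → ℝ := fun c => c4c_pp Q m c.val with hpdef
  have hp : ∀ c, 0 ≤ p c := by
    intro c
    simp only [hpdef, c4c_pp]
    split_ifs
    · positivity
    · exact div_nonneg (by linarith) (by positivity)
    · exact le_rfl
  have hs : ∑ c, p c = 1 := by
    have := hsum (fun x => x)
    simp only [hpdef]
    rw [this]
    field_simp
    ring
  have hlast : p (Fin.last Q) = 0 := by
    simp only [hpdef, c4c_pp, Fin.val_last]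
    rw [if_neg (by omega), if_neg (by omega)]
  refine ⟨p, hp, hs, hlast, ?_⟩
  -- the number of steps
  have hcard : (Fintype.card (Stp d) : ℝ) = a * q := by
    rw [Fintype.card_prod, Fintype.card_fin, Fintype.card_bool]
    push_cast
    linarith
  -- the mean
  set n : ℕ := Fintype.card (Stp d) with hn
  set μ : ℝ := ∑ c, (1 - p c) ^ n with hμ
  have hμe : μ = H1 * (1 - (1 + m) / (2 * H1)) ^ n + H2 * (1 - (1 - m) / (2 * H2)) ^ n + (1 - 0) ^ n := by
    have := hsum (fun x => (1 - x) ^ n)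
    rw [hμ]
    exact this
  have hals : 0 < als a m := als_pos a m
  have halsb := als_bounds a m ha (abs_le.2 ⟨by linarith, by linarith⟩)
  have hb1 := c4c_pow n a q (1 + m) H1 hcard ha hq12 (by linarith) (by linarith) hH1
  have hb2 := c4c_pow n a q (1 - m) H2 hcard ha hq12 (by linarith) (by linarith) hH2
  have halse : als a m = (Real.exp (-(a * (1 + m))) + Real.exp (-(a * (1 - m)))) / 2 := by
    rw [als, Real.cosh_eq, show -(a * (1 + m)) = -a + -(a * m) by ring, show -(a * (1 - m)) = -a + a * m by ring,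
      Real.exp_add, Real.exp_add]
    ring
  have hθ : Real.exp (-(40 * A / q)) ≤ Real.exp (-(40 * a / q)) := by
    refine Real.exp_le_exp.2 (neg_le_neg ?_)
    exact div_le_div_of_nonneg_right (by linarith) hq0.le
  have hμlow : (q - 2) * (Real.exp (-(40 * A / q)) * als a m) ≤ μ := by
    have g1 : (q - 2) / 2 * (Real.exp (-(a * (1 + m))) * Real.exp (-(40 * a / q))) ≤
        H1 * (1 - (1 + m) / (2 * H1)) ^ n := by
      refine mul_le_mul (by linarith) hb1 (by positivity) (by positivity)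
    have g2 : (q - 2) / 2 * (Real.exp (-(a * (1 - m))) * Real.exp (-(40 * a / q))) ≤
        H2 * (1 - (1 - m) / (2 * H2)) ^ n := by
      refine mul_le_mul (by linarith) hb2 (by positivity) (by positivity)
    have g3 : (q - 2) * (Real.exp (-(40 * A / q)) * als a m) ≤ (q - 2) * (Real.exp (-(40 * a / q)) * als a m) :=
      mul_le_mul_of_nonneg_left (mul_le_mul_of_nonneg_right hθ hals.le) (by linarith)
    have g4 : (q - 2) * (Real.exp (-(40 * a / q)) * als a m) =
        (q - 2) / 2 * (Real.exp (-(a * (1 + m))) * Real.exp (-(40 * a / q))) +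
          (q - 2) / 2 * (Real.exp (-(a * (1 - m))) * Real.exp (-(40 * a / q))) := by
      rw [halse]; ring
    have g5 : (0 : ℝ) ≤ (1 - 0) ^ n := pow_nonneg (by norm_num) n
    rw [hμe]
    calc (q - 2) * (Real.exp (-(40 * A / q)) * als a m) ≤ _ := g3
      _ = _ := g4
      _ ≤ H1 * (1 - (1 + m) / (2 * H1)) ^ n + H2 * (1 - (1 - m) / (2 * H2)) ^ n := add_le_add g1 g2
      _ ≤ _ := le_add_of_nonneg_right g5
  have hμκ : κ * q ≤ μ := by
    refine le_trans ?_ hμlow
    have k1 : Real.exp (-1) ≤ Real.exp (-(40 * A / q)) := Real.exp_le_exp.2 (by linarith)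
    have k2 : Real.exp (-A) ≤ als a m := le_trans (Real.exp_le_exp.2 (by linarith)) halsb.1
    have k3 : Real.exp (-1 - A) ≤ Real.exp (-(40 * A / q)) * als a m := by
      rw [show -1 - A = -1 + -A by ring, Real.exp_add]
      exact mul_le_mul k1 k2 (Real.exp_nonneg _) (Real.exp_nonneg _)
    calc κ * q = (q / 2) * Real.exp (-1 - A) := by rw [hκ]; ring
      _ ≤ (q - 2) * (Real.exp (-(40 * A / q)) * als a m) := by
        refine mul_le_mul (by linarith) k3 (Real.exp_nonneg _) (by linarith)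
  have hμ2 : 2 ≤ μ := h3.trans hμκ
  have hμ0 : 0 < μ := by linarith
  have hμq : μ ≤ q := by
    have : μ ≤ ∑ c : Fin (Q + 1), (1 : ℝ) := by
      rw [hμ]
      refine Finset.sum_le_sum fun c _ => ?_
      have hc1 : p c ≤ ∑ c, p c := Finset.single_le_sum (fun i _ => hp i) (Finset.mem_univ c)
      exact pow_le_one₀ (by linarith) (by linarith [hp c])
    rw [Finset.sum_const, Finset.card_univ, Fintype.card_fin, nsmul_eq_mul, mul_one] at this
    push_cast at this
    linarith
  have hlogE := c4c_log (ι := Stp d) p hp hs (Fin.last Q) hlast μ hμ hμ2 (δ / 4) (by positivity)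
  -- logarithms
  have hy : 0 < q - 2 := by linarith
  have hlogy : Real.log q - 4 / q ≤ Real.log (q - 2) := by
    have := Real.log_le_sub_one_of_pos (show 0 < q / (q - 2) by positivity)
    rw [Real.log_div hq0.ne' hy.ne'] at this
    have e : q / (q - 2) - 1 ≤ 4 / q := by
      rw [show q / (q - 2) - 1 = 2 / (q - 2) by field_simp; ring, div_le_div_iff₀ hy hq0]
      linarith
    linarith
  have hlogμ : Real.log (q - 2) - 40 * A / q + Real.log (als a m) ≤ Real.log μ := by
    have := Real.log_le_log (by positivity) hμlow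
    rw [Real.log_mul hy.ne' (by positivity), Real.log_mul (by positivity) hals.ne', Real.log_exp] at this
    linarith
  have herr : (1 / (δ / 4) + 4 * Real.log μ) / μ ≤ (4 / δ + 4 * Real.log q) / (κ * q) := by
    have k1 : 1 / (δ / 4) = 4 / δ := by field_simp
    rw [k1]
    have k2 : Real.log μ ≤ Real.log q := Real.log_le_log hμ0 hμq
    have k3 : 0 ≤ Real.log q := Real.log_nonneg (by linarith)
    exact div_le_div₀ (by positivity) (by linarith) (by linarith) hμκ
  -- the entropy
  have hent : Real.log (q - 2) - ((1 + m) * Real.log (1 + m) + (1 - m) * Real.log (1 - m)) / 2 ≤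
      -∑ c, p c * Real.log (p c) := by
    have e := hsum (fun x => x * Real.log x)
    have e' : ∑ c, p c * Real.log (p c) = H1 * ((1 + m) / (2 * H1) * Real.log ((1 + m) / (2 * H1))) +
        H2 * ((1 - m) / (2 * H2) * Real.log ((1 - m) / (2 * H2))) + 0 * Real.log 0 := e
    rw [e', Real.log_div (by linarith) (by positivity), Real.log_div (by linarith) (by positivity)]
    have f1 : H1 * ((1 + m) / (2 * H1) * (Real.log (1 + m) - Real.log (2 * H1))) =
        (1 + m) / 2 * (Real.log (1 + m) - Real.log (2 * H1)) := by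
      field_simp
    have f2 : H2 * ((1 - m) / (2 * H2) * (Real.log (1 - m) - Real.log (2 * H2))) =
        (1 - m) / 2 * (Real.log (1 - m) - Real.log (2 * H2)) := by
      field_simp
    rw [f1, f2]
    have l1 : Real.log (q - 2) ≤ Real.log (2 * H1) := Real.log_le_log hy hH1
    have l2 : Real.log (q - 2) ≤ Real.log (2 * H2) := Real.log_le_log hy hH2
    have m1 : (1 + m) / 2 * Real.log (q - 2) ≤ (1 + m) / 2 * Real.log (2 * H1) :=
      mul_le_mul_of_nonneg_left l1 (by linarith)
    have m2 : (1 - m) / 2 * Real.log (q - 2) ≤ (1 - m) / 2 * Real.log (2 * H2) :=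
      mul_le_mul_of_nonneg_left l2 (by linarith)
    have m3 : Real.log (q - 2) = (1 + m) / 2 * Real.log (q - 2) + (1 - m) / 2 * Real.log (q - 2) := by ring
    linarith
  have hphi := phi_eq a m hMF
  have hfin : 8 / q = 4 / q + 4 / q := by ring
  rw [hphi]
  linarith

/-- one site -/
theorem one_site {ε : ℝ} (hε : 0 < ε) (hε1 : ε ≤ 1) (δ : ℝ) (hδ : 0 < δ) : EvT ε fun d _ q => ∀ m : ℝ, MFE (ra d q) m →
    ∃ (Q : ℕ) (p : Fin (Q + 1) → ℝ), q = Q + 1 ∧ (∀ c, 0 ≤ p c) ∧ ∑ c, p c = 1 ∧ p (Fin.last Q) = 0 ∧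
      2 * Real.log q + Phi (ra d q) m - δ ≤
        (∑ s : Stp d → Fin (Q + 1), (∏ σ, p (s σ)) * Real.log (((univ.image s)ᶜ : Finset (Fin (Q + 1))).card)) -
          ∑ c, p c * Real.log (p c) := by
  obtain ⟨M, hM12, hM⟩ := c4c_large (A0 ε) (Real.exp (-1 - A0 ε) / 2) δ (by positivity) hδ
  refine (EvT_reg hε hε1 M).mono ?_
  rintro d k q ⟨_, hMq, _, _, _, ha1, haA, hdq⟩ m hMF
  obtain ⟨h1, h2, h3⟩ := hM q hMq
  have hq12 : (12 : ℝ) ≤ q := hM12.trans hMq
  have hq12' : 12 ≤ q := by exact_mod_cast hq12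
  have ha0 : 0 ≤ ra d q := by
    rw [ra]; positivity
  obtain ⟨p, hp1, hp2, hp3, hp4⟩ := c4c_core (q - 1) d (ra d q) m q δ (Real.exp (-1 - A0 ε) / 2) (A0 ε)
    (by rw [Nat.cast_sub (by omega)]; push_cast; ring) ha0 haA hdq hMF.1 (mfe_lt _ _ hMF) hδ rfl hq12 h1 h2 h3 hMF
  exact ⟨q - 1, p, by omega, hp1, hp2, hp3, hp4⟩

end Pool.Agent.THR

end

/-! ### from `Lib_MP_2c424f_thr.C4b` -/

section

/-!
# THR C4b: product measure (paper proof: C4)

`Z ≥ ∑_{g : even sites → colours, no site has the last colour} ∏_{v odd} x_v(g)`, `x_v ≥ 1` (the last colour is available), `gibbs` for the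
product measure `∏_{u even} p (g u)`: `log Z ≥ ∑_{v odd} E log x_v - (N/2) ∑_c p_c log p_c`, and the `2d` neighbours of `v` are different sites
(`k ≥ 2`), so `E log x_v = ∑_s ∏_σ p (s σ) log |(image s)ᶜ|`.  (A proper colouring is determined by its restriction to the even sites and for every odd site an available
colour.)
-/

set_option autoImplicit false

open Finset Filter

namespace Pool.Agent.THR

open Pool.Agent.LO Pool.Agent.LIN

/-- marginals of a product measure -/
private theorem C4b_marg {E S C : Type*} [Fintype E] [DecidableEq E] [Fintype S] [DecidableEq S] [Fintype C]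
    [DecidableEq C] (ι : S → E)
    (hι : Function.Injective ι) (p : C → ℝ) (hs : ∑ c, p c = 1) (Φ : (S → C) → ℝ) :
    ∑ g : E → C, (∏ u, p (g u)) * Φ (fun σ => g (ι σ)) = ∑ s : S → C, (∏ σ, p (s σ)) * Φ s := by
  classical
  rw [← Finset.sum_fiberwise_of_maps_to (s := univ) (t := (univ : Finset (S → C)))
    (g := fun g : E → C => fun σ => g (ι σ)) (fun _ _ => mem_univ _)]
  refine Finset.sum_congr rfl fun s _ => ?_
  have h1 : ∀ g ∈ univ.filter (fun g : E → C => (fun σ => g (ι σ)) = s),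
      (∏ u, p (g u)) * Φ (fun σ => g (ι σ)) = (∏ u, p (g u)) * Φ s := by
    intro g hg
    rw [(mem_filter.mp hg).2]
  rw [Finset.sum_congr rfl h1, ← Finset.sum_mul]
  congr 1
  let T : E → Finset C := fun u => univ.filter fun c => ∀ σ, ι σ = u → c = s σ
  have h2 : univ.filter (fun g : E → C => (fun σ => g (ι σ)) = s) = Fintype.piFinset T := by
    ext g
    simp only [mem_filter, mem_univ, true_and, Fintype.mem_piFinset, T]
    constructor
    · rintro rfl u σ rfl
      rfl
    · intro h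
      funext σ
      exact h (ι σ) σ rfl
  rw [h2, ← Finset.prod_univ_sum]
  have h3 : ∀ σ, ∑ c ∈ T (ι σ), p c = p (s σ) := by
    intro σ
    have : T (ι σ) = {s σ} := by
      ext c
      simp only [T, mem_filter, mem_univ, true_and, mem_singleton]
      constructor
      · intro h; exact h σ rfl
      · rintro rfl τ hτ
        rw [hι hτ]
    rw [this, sum_singleton]
  have h4 : ∀ u, u ∉ univ.image ι → ∑ c ∈ T u, p c = 1 := by
    intro u hu
    have : T u = univ := by
      ext c
      simp only [T, mem_filter, mem_univ, true_and, iff_true]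
      intro σ hσ
      exact absurd (mem_image.mpr ⟨σ, mem_univ _, hσ⟩) hu
    rw [this, hs]
  rw [← Finset.prod_subset (Finset.subset_univ (univ.image ι)) (fun u _ hu => h4 u hu),
    Finset.prod_image (fun a _ b _ h => hι h)]
  exact Finset.prod_congr rfl fun σ _ => h3 σ

/-- extension of a colouring of the even sites by the last colour -/
private noncomputable def C4b_G {d k Q : ℕ} (g : {x : Site d k // evn x} → Fin (Q + 1)) : Site d k → Fin (Q + 1) := by
  classical
  exact fun x => if h : evn x then g ⟨x, h⟩ else Fin.last Q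

private theorem C4b_G_even {d k Q : ℕ} (g : {x : Site d k // evn x} → Fin (Q + 1)) (x : Site d k) (h : evn x) :
    C4b_G g x = g ⟨x, h⟩ := by
  unfold C4b_G
  rw [dif_pos h]

open scoped Classical in
/-- allowed colours of the extension -/
private noncomputable def C4b_T {d k Q : ℕ} (g : {x : Site d k // evn x} → Fin (Q + 1)) (x : Site d k) :
    Finset (Fin (Q + 1)) :=
  if evn x then {C4b_G g x} else (SS (C4b_G g) x)ᶜ

private theorem C4b_prp {d k Q : ℕ} (hk : 1 ≤ k) (g : {x : Site d k // evn x} → Fin (Q + 1)) (f : Site d k → Fin (Q + 1))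
    (hf : ∀ x, f x ∈ C4b_T g x) : Prp f := by
  classical
  have key : ∀ (x : Site d k) (σ : Stp d), ¬ evn x → f x ≠ f (x + sv σ) := by
    intro x σ hx
    have h1 := hf x
    have h2 := hf (x + sv σ)
    have he : evn (x + sv σ) := (evn_step hk x σ).mpr hx
    unfold C4b_T at h1 h2
    rw [if_neg hx, mem_compl] at h1
    rw [if_pos he, mem_singleton] at h2
    intro h
    apply h1
    rw [h, h2]
    exact mem_image.mpr ⟨σ, mem_univ _, rfl⟩
  intro x σ
  by_cases hx : evn x
  · have ho : ¬ evn (x + sv σ) := by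
      rw [evn_step hk]; exact not_not.mpr hx
    have h := key (x + sv σ) (σ.1, !σ.2) ho
    have h2 : x + sv σ + sv (σ.1, !σ.2) = x := by
      rw [add_assoc, show (sv σ : Site d k) = sv (σ.1, σ.2) from rfl, sv_opp, add_zero]
    rw [h2] at h
    exact h
  · exact fun h => key x σ hx h.symm

open scoped Classical in
/-- the sum over the colourings of the even sites is at most the number of proper colourings -/
private theorem C4b_count {d k Q : ℕ} (hk : 1 ≤ k) :
    ∑ g : {x : Site d k // evn x} → Fin (Q + 1), ∏ v ∈ ods d k, (((SS (C4b_G g) v)ᶜ).card : ℝ) ≤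
      ZZ d k (Q + 1) := by
  classical
  have h1 : ∀ g : {x : Site d k // evn x} → Fin (Q + 1),
      ∏ v ∈ ods d k, ((SS (C4b_G g) v)ᶜ).card = (Fintype.piFinset (C4b_T g)).card := by
    intro g
    rw [Fintype.card_piFinset, ← Finset.prod_filter_mul_prod_filter_not univ (fun x : Site d k => evn x)]
    have h2 : ∏ x ∈ univ.filter (fun x : Site d k => evn x), (C4b_T g x).card = 1 := by
      refine Finset.prod_eq_one fun x hx => ?_
      unfold C4b_T
      rw [if_pos (mem_filter.mp hx).2, card_singleton]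
    rw [h2, one_mul]
    have h3 : ods d k = univ.filter (fun x : Site d k => ¬ evn x) := by
      unfold ods
      ext x
      simp only [mem_filter, mem_univ, true_and]
    rw [h3]
    refine Finset.prod_congr rfl fun x hx => ?_
    unfold C4b_T
    rw [if_neg (mem_filter.mp hx).2]
  have hdisj : ((univ : Finset ({x : Site d k // evn x} → Fin (Q + 1))) :
      Set ({x : Site d k // evn x} → Fin (Q + 1))).PairwiseDisjoint
      (fun g => Fintype.piFinset (C4b_T g)) := by
    intro g _ g' _ hne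
    rw [Function.onFun, Finset.disjoint_left]
    intro f hf hf'
    apply hne
    funext u
    have e1 := Fintype.mem_piFinset.mp hf u.1
    have e2 := Fintype.mem_piFinset.mp hf' u.1
    unfold C4b_T at e1 e2
    rw [if_pos u.2, mem_singleton, C4b_G_even g u.1 u.2] at e1
    rw [if_pos u.2, mem_singleton, C4b_G_even g' u.1 u.2] at e2
    rw [← e1, ← e2]
  have h5 : ∑ g : {x : Site d k // evn x} → Fin (Q + 1), ∏ v ∈ ods d k, ((SS (C4b_G g) v)ᶜ).card ≤
      (prps d k (Q + 1)).card := by
    calc ∑ g : {x : Site d k // evn x} → Fin (Q + 1), ∏ v ∈ ods d k, ((SS (C4b_G g) v)ᶜ).card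
        = ∑ g : {x : Site d k // evn x} → Fin (Q + 1), (Fintype.piFinset (C4b_T g)).card :=
          Finset.sum_congr rfl fun g _ => h1 g
      _ = (univ.biUnion fun g : {x : Site d k // evn x} → Fin (Q + 1) => Fintype.piFinset (C4b_T g)).card :=
          (Finset.card_biUnion hdisj).symm
      _ ≤ (prps d k (Q + 1)).card := by
          refine Finset.card_le_card fun f hf => ?_
          obtain ⟨g, _, hg⟩ := mem_biUnion.mp hf
          unfold prps
          rw [mem_filter]
          exact ⟨mem_univ _, C4b_prp hk g f (Fintype.mem_piFinset.mp hg)⟩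
  unfold ZZ
  exact_mod_cast h5

/-- reduction to one site: `p` a probability vector which vanishes at the last colour -/
theorem Z_product {d k Q : ℕ} (hd : 1 ≤ d) (hk : 2 ≤ k) (p : Fin (Q + 1) → ℝ) (hp : ∀ c, 0 ≤ p c) (hs : ∑ c, p c = 1)
    (hl : p (Fin.last Q) = 0) :
    NN d k / 2 * ((∑ s : Stp d → Fin (Q + 1), (∏ σ, p (s σ)) * Real.log (((univ.image s)ᶜ : Finset (Fin (Q + 1))).card)) -
      ∑ c, p c * Real.log (p c)) ≤ Real.log (ZZ d k (Q + 1)) := by
  classical
  have hk1 : 1 ≤ k := by omega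
  let P : ({x : Site d k // evn x} → Fin (Q + 1)) → ℝ := fun g => ∏ u, p (g u)
  let F : ({x : Site d k // evn x} → Fin (Q + 1)) → ℝ := fun g =>
    ∏ v ∈ ods d k, (((SS (C4b_G g) v)ᶜ).card : ℝ)
  have hP : ∀ g, 0 ≤ P g := fun g => Finset.prod_nonneg fun u _ => hp _
  have hPs : ∑ g, P g = 1 := by
    have h := C4b_marg (E := {x : Site d k // evn x}) (S := Empty) (fun e => e.elim)
      (fun a => a.elim) p hs (fun _ => 1)
    simp only [mul_one] at h
    rw [h]
    simp
  have hpos : ∀ g, 0 < P g → ∀ u, 0 < p (g u) := by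
    intro g hg u
    rcases (hp (g u)).lt_or_eq with h | h
    · exact h
    · exfalso
      have : P g = 0 := Finset.prod_eq_zero (mem_univ u) h.symm
      linarith
  -- the last colour is available
  have hx : ∀ g, 0 < P g → ∀ v ∈ ods d k, 1 ≤ (((SS (C4b_G g) v)ᶜ).card : ℝ) := by
    intro g hg v hv
    have hvo : ¬ evn v := by
      unfold ods at hv
      exact (mem_filter.mp hv).2
    have h1 : Fin.last Q ∈ (SS (C4b_G g) v)ᶜ := by
      rw [mem_compl]
      intro h
      obtain ⟨σ, _, hσ⟩ := mem_image.mp h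
      rw [C4b_G_even g _ ((evn_step hk1 v σ).mpr hvo)] at hσ
      have h2 := hpos g hg ⟨v + sv σ, (evn_step hk1 v σ).mpr hvo⟩
      rw [hσ, hl] at h2
      exact lt_irrefl _ h2
    have h2 : 1 ≤ ((SS (C4b_G g) v)ᶜ).card := Finset.card_pos.mpr ⟨_, h1⟩
    exact_mod_cast h2
  have hF : ∀ g, 0 < P g → 1 ≤ F g := by
    intro g hg
    have h1 : 0 < ∏ v ∈ ods d k, ((SS (C4b_G g) v)ᶜ).card := Finset.prod_pos fun v hv => by
      have := hx g hg v hv
      have h2 : 1 ≤ ((SS (C4b_G g) v)ᶜ).card := by exact_mod_cast this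
      omega
    have h2 : 1 ≤ ∏ v ∈ ods d k, ((SS (C4b_G g) v)ᶜ).card := h1
    have h3 : (1 : ℝ) ≤ ((∏ v ∈ ods d k, ((SS (C4b_G g) v)ᶜ).card : ℕ) : ℝ) := by exact_mod_cast h2
    rw [Nat.cast_prod] at h3
    exact h3
  have hg := gibbs P F hP hPs hF
  -- the sum is at most `Z`
  have hle : ∑ g, (if 0 < P g then F g else 0) ≤ ZZ d k (Q + 1) := by
    refine le_trans (Finset.sum_le_sum fun g _ => ?_) (C4b_count (d := d) (k := k) (Q := Q) hk1)
    have : 0 ≤ F g := Finset.prod_nonneg fun v _ => Nat.cast_nonneg _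
    split_ifs
    · exact le_refl _
    · exact this
  have hge : 0 < ∑ g, (if 0 < P g then F g else 0) := by
    obtain ⟨g, _, hgp⟩ : ∃ g ∈ (univ : Finset ({x : Site d k // evn x} → Fin (Q + 1))), 0 < P g := by
      by_contra hc
      push Not at hc
      have : ∑ g, P g ≤ 0 := Finset.sum_nonpos fun g hg => hc g hg
      linarith
    have h1 : ∀ g, 0 ≤ (if 0 < P g then F g else 0) := by
      intro g
      split_ifs with h
      · exact le_trans zero_le_one (hF g h)
      · exact le_refl _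
    refine Finset.sum_pos' (fun g _ => h1 g) ⟨g, mem_univ _, ?_⟩
    rw [if_pos hgp]
    exact lt_of_lt_of_le zero_lt_one (hF g hgp)
  refine le_trans (le_trans (le_of_eq ?_) hg) (Real.log_le_log hge hle)
  -- the entropy term
  have hent : ∑ g, P g * Real.log (P g) = NN d k / 2 * ∑ c, p c * Real.log (p c) := by
    have e1 : ∀ g, P g * Real.log (P g) = ∑ u, P g * Real.log (p (g u)) := by
      intro g
      rcases (hP g).lt_or_eq with h | h
      · rw [← Finset.mul_sum]
        congr 1
        exact Real.log_prod fun u _ => (hpos g h u).ne'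
      · rw [← h]
        simp
    rw [Finset.sum_congr rfl fun g _ => e1 g, Finset.sum_comm]
    have e2 : ∀ u : {x : Site d k // evn x}, ∑ g, P g * Real.log (p (g u)) = ∑ c, p c * Real.log (p c) := by
      intro u
      have h := C4b_marg (E := {x : Site d k // evn x}) (S := Unit) (fun _ => u)
        (fun a b _ => rfl) p hs (fun s => Real.log (p (s ())))
      rw [h]
      rw [← (Equiv.funUnique Unit (Fin (Q + 1))).sum_comp]
      refine Finset.sum_congr rfl fun s _ => ?_
      simp
    rw [Finset.sum_congr rfl fun u _ => e2 u, Finset.sum_const, nsmul_eq_mul]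
    congr 1
    rw [← card_evs hd hk1, Finset.card_univ, Fintype.card_subtype]
    unfold evs
    congr 2
  -- the main term
  have hmain : ∑ g, P g * Real.log (F g) = NN d k / 2 *
      ∑ s : Stp d → Fin (Q + 1), (∏ σ, p (s σ)) * Real.log (((univ.image s)ᶜ : Finset (Fin (Q + 1))).card) := by
    have e1 : ∀ g, P g * Real.log (F g) = ∑ v ∈ ods d k, P g * Real.log (((SS (C4b_G g) v)ᶜ).card : ℝ) := by
      intro g
      rcases (hP g).lt_or_eq with h | h
      · rw [← Finset.mul_sum]
        congr 1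
        exact Real.log_prod fun v hv => (lt_of_lt_of_le zero_lt_one (hx g h v hv)).ne'
      · rw [← h]
        simp
    rw [Finset.sum_congr rfl fun g _ => e1 g, Finset.sum_comm]
    have e2 : ∀ v ∈ ods d k, ∑ g, P g * Real.log (((SS (C4b_G g) v)ᶜ).card : ℝ) =
        ∑ s : Stp d → Fin (Q + 1), (∏ σ, p (s σ)) * Real.log (((univ.image s)ᶜ : Finset (Fin (Q + 1))).card) := by
      intro v hv
      have hvo : ¬ evn v := by
        unfold ods at hv
        exact (mem_filter.mp hv).2
      have hinj : Function.Injective (fun σ : Stp d =>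
          (⟨v + sv σ, (evn_step hk1 v σ).mpr hvo⟩ : {x : Site d k // evn x})) := by
        intro a b hab
        have h1 := congrArg Subtype.val hab
        exact sv_inj hk (add_left_cancel h1)
      have h := C4b_marg (E := {x : Site d k // evn x}) (S := Stp d) _ hinj p hs
        (fun s => Real.log (((univ.image s)ᶜ : Finset (Fin (Q + 1))).card))
      rw [← h]
      refine Finset.sum_congr rfl fun g _ => ?_
      have h2 : SS (C4b_G g) v = univ.image (fun σ : Stp d =>
          g ⟨v + sv σ, (evn_step hk1 v σ).mpr hvo⟩) := by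
        unfold SS
        refine Finset.image_congr fun σ _ => ?_
        exact C4b_G_even g _ _
      rw [h2]
    rw [Finset.sum_congr rfl e2, Finset.sum_const, nsmul_eq_mul, card_ods hd hk1]
  rw [hent, hmain]
  ring

end Pool.Agent.THR

end

/-! ### from `Lib_MP_2c424f_thr.C4` -/

section

/-!
# THR C4: lower bound of the partition function (paper proof: C4)

`q = Q + 1`; the last colour is not used on the even sites.  Product measure on the even sites: `p_c = (1+m)/(2h)` for `c < h = ⌊Q/2⌋`,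
`(1-m)/(2(Q-h))` for `h ≤ c < Q`, `0` for the last colour.
* `gibbs`: for weights `p ≥ 0`, `∑ p = 1` and `F : Ω → ℝ` with values `≥ 1`: `log ∑_{ω, p ω > 0} F ω ≥ ∑ p ω log F ω - ∑ p ω log p ω` (Jensen).
* `Z ≥ ∑_{g : even sites → first Q colours} ∏_{v odd} x_v(g)`, `x_v ≥ 1` (the last colour is available).
* `-∑ p log p = ((1+m)/2) log (2h/(1+m)) + ((1-m)/2) log (2(Q-h)/(1-m)) ≥ log (Q-1) - ((1+m)log(1+m)+(1-m)log(1-m))/2`.
* `X` = number of colours not used by `2d` independent `p`-distributed colours: `E X ≥ ∑_c (1-p_c)^(2d) ≥ q (α* - C/q)`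
  (`(1-p)^(2d) ≥ exp (-2d(p+p²))`, `2d p_c` close to `a(1±m)`), variance `≤ 8 d` (bounded differences; Efron-Stein or `mcdiarmid`), and for `x ≥ 1`, `μ ≥ 2`:
  `log x ≥ log μ - 2|x-μ|/μ - 4 log μ (x-μ)²/μ²`.  So `E log X ≥ log (q α*) - δ`.
-/

set_option autoImplicit false

open Finset Filter

namespace Pool.Agent.THR

open Pool.Agent.LO Pool.Agent.LIN

theorem Z_lower {ε : ℝ} (hε : 0 < ε) (hε1 : ε ≤ 1) (δ : ℝ) (hδ : 0 < δ) : EvT ε fun d k q => ∀ m : ℝ, MFE (ra d q) m →
    NN d k / 2 * (2 * Real.log q + Phi (ra d q) m) - δ * NN d k ≤ Real.log (ZZ d k q) := by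
  refine ((one_site hε hε1 (2 * δ) (by linarith)).and (EvT_reg hε hε1 2)).mono ?_
  rintro d k q ⟨h1, h2, _, h3, _⟩ m hm
  have hd : 1 ≤ d := by
    have : 2 ≤ d := by exact_mod_cast h2
    omega
  have hk : 2 ≤ k := by exact_mod_cast h3
  have hN : 0 ≤ NN d k := by
    unfold NN
    positivity
  obtain ⟨Q, p, rfl, hp, hs, hl, hb⟩ := h1 m hm
  have hz := Z_product hd hk p hp hs hl
  have hm2 := mul_le_mul_of_nonneg_left hb (by linarith : 0 ≤ NN d k / 2)
  refine le_trans (le_of_eq ?_) (hm2.trans hz)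
  ring

end Pool.Agent.THR

end

/-! ### from `Lib_MP_2c424f_thr.C3c` -/

section

/-!
# THR C3c: the energy-entropy estimate (paper proof: C3 (iv)), deterministic

`x = u + σ`.  `-mc (ya_u log ya_u) = mc (ya_u hh_u) + log al_u` (`exp_hh`, `ya_mean`), so
`a mc (ya_u ya_x) + log al_u + log al_x = -mc (ya_u log ya_u) + mc (ya_u (a ya_x - hh_u)) + log al_x`, and `∑_u mc |a ya_x - hh_u|` is small by `mf` and Cauchy-Schwarz, `ya ≤ e^a`;
`log al_x ≤ log α* + (al_x-α*)/α*`, `al_x = mc exp (-hh_x)`, `|hh_x - a ya_u|` is small in mean (`mf` at the site `x` with the opposite step),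
so `al_x ≤ mc exp (-a ya_u) + small`, `α* ≥ e^(-a)` (`als_bounds`).  So the left side is at most
`∑_u (mc (ψ(ya_u)) - 1 + log α*) + errors = ∑_u (Phi - mc (L (ya_u))) + errors` since `mc ya_u = 1` (`mc (ell (ya_u)) = ell 1`); `|cls b| = N/2`.
-/

set_option autoImplicit false

open Finset Filter

namespace Pool.Agent.THR

open Pool.Agent.LO Pool.Agent.LIN

private theorem C3c_add {q : ℕ} (F G : Fin q → ℝ) : mc (fun c => F c + G c) = mc F + mc G := by
  unfold mc
  rw [sum_add_distrib, add_div]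

private theorem C3c_mul {q : ℕ} (r : ℝ) (F : Fin q → ℝ) : mc (fun c => r * F c) = r * mc F := by
  unfold mc
  rw [← mul_sum, mul_div_assoc]

private theorem C3c_mono {q : ℕ} {F G : Fin q → ℝ} (h : ∀ c, F c ≤ G c) : mc F ≤ mc G := by
  unfold mc
  exact div_le_div_of_nonneg_right (sum_le_sum fun c _ => h c) (Nat.cast_nonneg q)

private theorem C3c_one {q : ℕ} (hq : 1 ≤ q) (r : ℝ) : mc (fun _ : Fin q => r) = r := by
  unfold mc
  have : (0 : ℝ) < q := by exact_mod_cast hq
  rw [sum_const, card_univ, Fintype.card_fin, nsmul_eq_mul, mul_div_cancel_left₀ _ this.ne']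

private theorem C3c_exp {x y : ℝ} (hx : 0 ≤ x) : Real.exp (-x) ≤ Real.exp (-y) + |x - y| := by
  by_cases h : y ≤ x
  · have : Real.exp (-x) ≤ Real.exp (-y) := Real.exp_le_exp.2 (by linarith)
    have h2 := abs_nonneg (x - y)
    linarith
  · push Not at h
    have h1 : Real.exp (-x) ≤ 1 := by
      rw [← Real.exp_zero]
      exact Real.exp_le_exp.2 (by linarith)
    have h2 : 1 - (y - x) ≤ Real.exp (-(y - x)) := by
      have := Real.add_one_le_exp (-(y - x))
      linarith
    have h3 : Real.exp (-y) = Real.exp (-x) * Real.exp (-(y - x)) := by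
      rw [← Real.exp_add]
      congr 1
      ring
    have h4 : |x - y| = y - x := by
      rw [abs_sub_comm]
      exact abs_of_pos (by linarith)
    have h5 := Real.exp_pos (-x)
    rw [h3, h4]
    have h6 : Real.exp (-x) * (1 - (y - x)) ≤ Real.exp (-x) * Real.exp (-(y - x)) :=
      mul_le_mul_of_nonneg_left h2 h5.le
    nlinarith

private theorem C3c_site {d k q : ℕ} (hq : 1 ≤ q) {f : Site d k → Fin q} (hf : Prp f) (m : ℝ) (hm : |m| ≤ 1)
    (u x : Site d k) :
    ra d q * mc (fun c => ya c f u * ya c f x) + Real.log (al f u) + Real.log (al f x) ≤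
      Phi (ra d q) m - mc (fun c => LL (ra d q) m (ya c f u)) +
      Real.exp (ra d q) * mc (fun c => |hh c f u - ra d q * ya c f x|) +
      Real.exp (ra d q) * mc (fun c => |hh c f x - ra d q * ya c f u|) := by
  set a := ra d q with ha
  have ha0 : 0 ≤ a := by
    rw [ha]
    unfold ra
    positivity
  have hals := als_bounds a m ha0 hm
  have hαs := als_pos a m
  have halu : 0 < al f u := (Real.exp_pos _).trans_le (al_ge hq hf u)
  have halx : 0 < al f x := (Real.exp_pos _).trans_le (al_ge hq hf x)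
  have h1 : ∀ c, Real.log (ya c f u) = -hh c f u - Real.log (al f u) := by
    intro c
    have h2 := exp_hh hq f c u
    have h3 := (ya_bound hq hf c u).1
    have h4 := congrArg Real.log h2
    rw [Real.log_exp, Real.log_mul halu.ne' h3.ne'] at h4
    linarith
  have hA : a * mc (fun c => ya c f u * ya c f x) + Real.log (al f u) ≤
      mc (fun c => Real.negMulLog (ya c f u)) +
        Real.exp a * mc (fun c => |hh c f u - a * ya c f x|) := by
    have h6 : mc (fun c => a * (ya c f u * ya c f x) + Real.log (al f u) * ya c f u) ≤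
        mc (fun c => Real.negMulLog (ya c f u) + Real.exp a * |hh c f u - a * ya c f x|) := by
      refine C3c_mono fun c => ?_
      obtain ⟨h3, h4⟩ := ya_bound hq hf c u
      rw [Real.negMulLog, h1 c]
      have h5 : ya c f u * (a * ya c f x - hh c f u) ≤ Real.exp a * |hh c f u - a * ya c f x| := by
        calc ya c f u * (a * ya c f x - hh c f u) ≤ ya c f u * |hh c f u - a * ya c f x| :=
              mul_le_mul_of_nonneg_left (by rw [abs_sub_comm]; exact le_abs_self _) h3.le
          _ ≤ _ := mul_le_mul_of_nonneg_right h4 (abs_nonneg _)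
      nlinarith
    rw [C3c_add, C3c_add, C3c_mul, C3c_mul, C3c_mul, ya_mean hq f u, mul_one] at h6
    exact h6
  have hB : Real.log (al f x) ≤ Real.log (als a m) - 1 + mc (fun c => Fy a m (ya c f u)) +
      Real.exp a * mc (fun c => |hh c f x - a * ya c f u|) := by
    have h2 : Real.log (al f x) ≤ Real.log (als a m) + (al f x / als a m - 1) := by
      have h3 := Real.log_le_sub_one_of_pos (div_pos halx hαs)
      rw [Real.log_div halx.ne' hαs.ne'] at h3
      linarith
    have h4 : al f x / als a m ≤ mc (fun c => Fy a m (ya c f u)) +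
        Real.exp a * mc (fun c => |hh c f x - a * ya c f u|) := by
      have h5 : al f x / als a m = mc (fun c => (1 / als a m) * Real.exp (-hh c f x)) := by
        rw [C3c_mul]
        unfold al mc
        ring
      rw [h5, ← C3c_mul (Real.exp a), ← C3c_add]
      refine C3c_mono fun c => ?_
      have h6 := C3c_exp (y := a * ya c f u) (hh_nonneg c f x)
      have h7 : 1 / als a m ≤ Real.exp a := by
        rw [div_le_iff₀ hαs]
        have h8 := mul_le_mul_of_nonneg_left hals.1 (Real.exp_pos a).le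
        rw [← Real.exp_add, add_neg_cancel, Real.exp_zero] at h8
        exact h8
      calc 1 / als a m * Real.exp (-hh c f x)
          ≤ 1 / als a m * (Real.exp (-(a * ya c f u)) + |hh c f x - a * ya c f u|) :=
            mul_le_mul_of_nonneg_left h6 (by positivity)
        _ = Fy a m (ya c f u) + 1 / als a m * |hh c f x - a * ya c f u| := by
            unfold Fy
            ring
        _ ≤ Fy a m (ya c f u) + Real.exp a * |hh c f x - a * ya c f u| := by
            have := mul_le_mul_of_nonneg_right h7 (abs_nonneg (hh c f x - a * ya c f u))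
            linarith
    linarith
  have hC : mc (fun c => Real.negMulLog (ya c f u)) + mc (fun c => Fy a m (ya c f u)) =
      ell a m 1 - mc (fun c => LL a m (ya c f u)) := by
    have h2 : mc (fun c => ell a m (ya c f u)) = ell a m 1 := by
      have h3 : (fun c => ell a m (ya c f u)) = fun c =>
          (ell a m 1 - (psi a m (1 + m) - psi a m (1 - m)) / (2 * m)) +
            (psi a m (1 + m) - psi a m (1 - m)) / (2 * m) * ya c f u := by
        funext c
        unfold ell
        ring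
      rw [h3, C3c_add, C3c_one hq, C3c_mul, ya_mean hq f u]
      ring
    have h3 : mc (fun c => Real.negMulLog (ya c f u)) + mc (fun c => Fy a m (ya c f u)) +
        mc (fun c => LL a m (ya c f u)) = mc (fun c => ell a m (ya c f u)) := by
      rw [← C3c_add, ← C3c_add]
      congr 1
      funext c
      unfold LL psi
      ring
    linarith
  have hP : Phi a m = ell a m 1 - 1 + Real.log (als a m) := rfl
  rw [hP]
  linarith

private theorem C3c_card (d k : ℕ) : (Fintype.card (Site d k) : ℝ) = NN d k := by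
  rw [Fintype.card_fun, Fintype.card_fin, ZMod.card]
  push_cast
  rfl

private theorem C3c_cs {d k q : ℕ} (hq : 1 ≤ q) (s : ℝ) (hs : 0 < s) (F : Fin q → Site d k → ℝ)
    (h : ∀ c, ∑ u, F c u ^ 2 ≤ s ^ 2 * NN d k) : ∑ u, mc (fun c => |F c u|) ≤ s * NN d k := by
  have h1 : ∑ u, mc (fun c => |F c u|) = mc (fun c => ∑ u, |F c u|) := by
    unfold mc
    rw [← sum_div, sum_comm]
  rw [h1]
  have h2 : ∀ c, ∑ u, |F c u| ≤ s * NN d k := by
    intro c
    have h3 : ∀ u, |F c u| ≤ F c u ^ 2 / (2 * s) + s / 2 := by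
      intro u
      have h4 : 0 ≤ (|F c u| - s) ^ 2 := sq_nonneg _
      have h5 : |F c u| ^ 2 = F c u ^ 2 := sq_abs _
      have h6 : F c u ^ 2 / (2 * s) + s / 2 - |F c u| = (|F c u| - s) ^ 2 / (2 * s) := by
        rw [sub_sq, h5]
        field_simp
        ring
      have h7 : 0 ≤ (|F c u| - s) ^ 2 / (2 * s) := by positivity
      linarith
    calc ∑ u, |F c u| ≤ ∑ u, (F c u ^ 2 / (2 * s) + s / 2) := sum_le_sum fun u _ => h3 u
      _ = (∑ u, F c u ^ 2) / (2 * s) + NN d k * (s / 2) := by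
          rw [sum_add_distrib, ← sum_div, sum_const, card_univ, nsmul_eq_mul, C3c_card]
      _ ≤ (s ^ 2 * NN d k) / (2 * s) + NN d k * (s / 2) := by
          have := div_le_div_of_nonneg_right (h c) (by positivity : 0 ≤ 2 * s)
          linarith
      _ = s * NN d k := by
          field_simp
          ring
  calc mc (fun c => ∑ u, |F c u|) ≤ mc (fun _ : Fin q => s * NN d k) := C3c_mono h2
    _ = _ := C3c_one hq _

private theorem C3c_prp {d k q : ℕ} {f : Site d k → Fin q} (hf : f ∈ prps d k q) : Prp f := by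
  classical
  unfold prps at hf
  exact (mem_filter.1 hf).2

/-- (iv) -/
theorem env_det {ε : ℝ} (hε : 0 < ε) (hε1 : ε ≤ 1) (C₆ : ℝ) (t : ℕ) (δ : ℝ) (hδ : 0 < δ) :
    ∃ δ' : ℝ, 0 < δ' ∧ EvT ε fun d k q => ∀ (b : Bool) (σ : Stp d) (m : ℝ), MFE (ra d q) m → ∀ f ∈ prps d k q,
      Good ε δ' C₆ t f →
      ∑ u ∈ cls b d k, (ra d q * mc (fun c => ya c f u * ya c f (u + sv σ)) + Real.log (al f u) +
          Real.log (al f (u + sv σ))) ≤
        NN d k / 2 * Phi (ra d q) m - ∑ u ∈ cls b d k, mc (fun c => LL (ra d q) m (ya c f u)) + δ * NN d k := by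
  classical
  set s : ℝ := δ / (2 * Real.exp (A0 ε)) with hs
  have hE := Real.exp_pos (A0 ε)
  have hs0 : 0 < s := by positivity
  refine ⟨s ^ 2, by positivity, (EvT_reg hε hε1 1).mono fun d k q hr b σ m hm f hf hG => ?_⟩
  obtain ⟨hd, hq, hk, -, -, -, hA0, -⟩ := hr
  have hd' : 1 ≤ d := by exact_mod_cast hd
  have hk' : 1 ≤ k := by exact_mod_cast hk
  have hq' : 1 ≤ q := by exact_mod_cast hq
  have hP := C3c_prp hf
  have hm1 : |m| ≤ 1 := by
    have h1 := mfe_lt _ m hm
    rw [abs_of_pos hm.1]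
    exact h1.le
  have hN : 0 ≤ NN d k := by
    unfold NN
    positivity
  have hea : Real.exp (ra d q) ≤ Real.exp (A0 ε) := Real.exp_le_exp.2 hA0
  have hnn : ∀ F : Fin q → ℝ, 0 ≤ mc (fun c => |F c|) := by
    intro F
    unfold mc
    exact div_nonneg (sum_nonneg fun c _ => abs_nonneg _) (Nat.cast_nonneg q)
  have h1 : ∑ u ∈ cls b d k, mc (fun c => |hh c f u - ra d q * ya c f (u + sv σ)|) ≤ s * NN d k := by
    refine (sum_le_sum_of_subset_of_nonneg (subset_univ _) fun u _ _ =>
      hnn fun c => hh c f u - ra d q * ya c f (u + sv σ)).trans ?_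
    exact C3c_cs hq' s hs0 (fun c u => hh c f u - ra d q * ya c f (u + sv σ)) fun c => hG.mf c σ
  have h2 : ∑ u ∈ cls b d k, mc (fun c => |hh c f (u + sv σ) - ra d q * ya c f u|) ≤ s * NN d k := by
    refine (sum_le_sum_of_subset_of_nonneg (subset_univ _) fun u _ _ =>
      hnn fun c => hh c f (u + sv σ) - ra d q * ya c f u).trans ?_
    have h3 := C3c_cs hq' s hs0 (fun c u => hh c f u - ra d q * ya c f (u + sv (opp σ))) fun c => hG.mf c (opp σ)
    have h4 : ∑ u : Site d k, mc (fun c => |hh c f (u + sv σ) - ra d q * ya c f u|) =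
        ∑ u : Site d k, mc (fun c => |hh c f u - ra d q * ya c f (u + sv (opp σ))|) := by
      refine Fintype.sum_equiv (Equiv.addRight (sv σ)) _ _ fun u => ?_
      have h5 : u + sv σ + sv (opp σ) = u := by
        have h6 : (sv σ : Site d k) + sv (opp σ) = 0 := sv_opp σ.1 σ.2
        rw [add_assoc, h6, add_zero]
      rw [Equiv.coe_addRight, h5]
    rw [h4]
    exact h3
  have h3 : ∑ u ∈ cls b d k, (ra d q * mc (fun c => ya c f u * ya c f (u + sv σ)) + Real.log (al f u) +
          Real.log (al f (u + sv σ))) ≤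
      ∑ u ∈ cls b d k, (Phi (ra d q) m - mc (fun c => LL (ra d q) m (ya c f u)) +
      Real.exp (ra d q) * mc (fun c => |hh c f u - ra d q * ya c f (u + sv σ)|) +
      Real.exp (ra d q) * mc (fun c => |hh c f (u + sv σ) - ra d q * ya c f u|)) :=
    sum_le_sum fun u _ => C3c_site hq' hP m hm1 u (u + sv σ)
  refine h3.trans ?_
  rw [sum_add_distrib, sum_add_distrib, sum_sub_distrib, ← mul_sum, ← mul_sum, sum_const, nsmul_eq_mul,
    card_cls hd' hk' b]
  have h4 : Real.exp (ra d q) * ∑ u ∈ cls b d k, mc (fun c => |hh c f u - ra d q * ya c f (u + sv σ)|) ≤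
      Real.exp (A0 ε) * (s * NN d k) :=
    mul_le_mul hea h1 (sum_nonneg fun u _ => hnn fun c => hh c f u - ra d q * ya c f (u + sv σ)) hE.le
  have h5 : Real.exp (ra d q) * ∑ u ∈ cls b d k, mc (fun c => |hh c f (u + sv σ) - ra d q * ya c f u|) ≤
      Real.exp (A0 ε) * (s * NN d k) :=
    mul_le_mul hea h2 (sum_nonneg fun u _ => hnn fun c => hh c f (u + sv σ) - ra d q * ya c f u) hE.le
  have h6 : Real.exp (A0 ε) * (s * NN d k) = δ / 2 * NN d k := by
    rw [hs]
    field_simp
  rw [h6] at h4 h5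
  linarith

end Pool.Agent.THR

end

/-! ### from `Lib_MP_2c424f_lin.F2b` -/

section

/-!
# H30 F2b: Finner's inequality on the torus, resummation of one class

* `cls` basics: a step changes the class, `card (cls b d k) = N/2`.
* `finner_cls`: `finner` with `U` = class `!b`, `V` = class `b`, `J = Stp d`, `Nb v σ = v + sv σ` (injective in `σ` for
  `k ≥ 2`, `sv_inj`); the sum over `f : Site d k → S` has the factor `|S|^(N/2)` from the class `b`.
* `resum`: given the colours on the class `!b`, the colours on the class `b` are chosen independently, `av f v`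
  possibilities at `v`; on the right side the values on the class `b` are free (`q^(N/2)`).
  `av f v` depends only on the colours of the neighbours of `v`.
-/

set_option autoImplicit false

open Finset

namespace Pool.Agent.LIN

open Pool.Agent.LO

variable {d k q : ℕ}

theorem finner_cls (hd : 1 ≤ d) (hk : 2 ≤ k) {S : Type*} [Fintype S] (b : Bool) (g : (Stp d → S) → ℝ)
    (hg : ∀ c, 0 ≤ g c) :
    ∑ f : Site d k → S, ∏ v ∈ cls b d k, g (fun σ => f (v + sv σ)) ≤
      (Fintype.card S : ℝ) ^ (NN d k / 2) * (∑ c : Stp d → S, g c ^ (2 * d)) ^ (NN d k / (4 * d)) := by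
  classical
  have hk1 : 1 ≤ k := by omega
  have hnot : ∀ v ∈ cls b d k, ∀ σ : Stp d, v + sv σ ∉ cls b d k := by
    intro v hv σ
    rw [mem_cls_step hk1, cls_not]
    exact not_not.2 hv
  set e := Equiv.piEquivPiSubtypeProd (fun x : Site d k => x ∈ cls b d k) (fun _ => S) with he
  let Nb : {x : Site d k // x ∈ cls b d k} → Stp d → {x : Site d k // ¬ x ∈ cls b d k} :=
    fun v σ => ⟨v.1 + sv σ, hnot v.1 v.2 σ⟩
  have hb : ∀ σ, Function.Bijective fun v => Nb v σ := by
    intro σ
    constructor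
    · intro v v' h
      exact Subtype.ext (add_right_cancel (congrArg Subtype.val h))
    · rintro ⟨u, hu⟩
      have h0 : (sv (σ.1, !σ.2) : Site d k) + sv σ = 0 := by
        rw [add_comm]
        exact sv_opp σ.1 σ.2
      have h1 : u + sv (σ.1, !σ.2) ∈ cls b d k := (mem_cls_step hk1 b u _).2 ((cls_not b u).2 hu)
      refine ⟨⟨u + sv (σ.1, !σ.2), h1⟩, Subtype.ext ?_⟩
      change u + sv (σ.1, !σ.2) + sv σ = u
      rw [add_assoc, h0, add_zero]
  have hi : ∀ v, Function.Injective (Nb v) := by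
    intro v σ σ' h
    exact sv_inj hk (add_left_cancel (congrArg Subtype.val h))
  have : Nonempty (Stp d) := ⟨(⟨0, hd⟩, true)⟩
  have hF := finner Nb hb hi (fun _ => g) (fun _ => hg)
  have hJ : Fintype.card (Stp d) = 2 * d := by
    rw [show Fintype.card (Stp d) = Fintype.card (Fin d × Bool) from rfl, Fintype.card_prod,
      Fintype.card_fin, Fintype.card_bool, mul_comm]
  rw [hJ, prod_const, card_univ, Fintype.card_coe] at hF
  have hX : 0 ≤ ∑ c : Stp d → S, g c ^ (2 * d) := sum_nonneg fun c _ => pow_nonneg (hg c) _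
  have hd0 : (0 : ℝ) < d := by exact_mod_cast hd
  have hpow : ((∑ c : Stp d → S, g c ^ (2 * d)) ^ ((1 : ℝ) / (2 * d : ℕ))) ^ (cls b d k).card =
      (∑ c : Stp d → S, g c ^ (2 * d)) ^ (NN d k / (4 * d)) := by
    rw [← Real.rpow_natCast, ← Real.rpow_mul hX, card_cls hd hk1]
    congr 1
    push_cast
    field_simp
    ring
  rw [hpow] at hF
  have hS : (Fintype.card S : ℝ) ^ (NN d k / 2) =
      (Fintype.card S : ℝ) ^ (cls b d k).card := by
    rw [← card_cls hd hk1 b, Real.rpow_natCast]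
  have hL : ∑ f : Site d k → S, ∏ v ∈ cls b d k, g (fun σ => f (v + sv σ)) =
      (Fintype.card S : ℝ) ^ (cls b d k).card *
        ∑ f : {x : Site d k // ¬ x ∈ cls b d k} → S,
          ∏ v : {x : Site d k // x ∈ cls b d k}, g (fun σ => f (Nb v σ)) := by
    rw [← e.symm.sum_comp, Fintype.sum_prod_type]
    have h1 : ∀ (a : {x : Site d k // x ∈ cls b d k} → S)
        (h : {x : Site d k // ¬ x ∈ cls b d k} → S),
        ∏ v ∈ cls b d k, g (fun σ => e.symm (a, h) (v + sv σ)) =
          ∏ v : {x : Site d k // x ∈ cls b d k}, g (fun σ => h (Nb v σ)) := by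
      intro a h
      rw [← prod_coe_sort]
      refine prod_congr rfl fun v _ => ?_
      congr 1
      funext σ
      simp only [he, Equiv.piEquivPiSubtypeProd_symm_apply, dif_neg (hnot v.1 v.2 σ)]
      rfl
    rw [sum_congr rfl fun a _ => sum_congr rfl fun h _ => h1 a h, sum_const, card_univ,
      Fintype.card_fun, Fintype.card_coe, nsmul_eq_mul, Nat.cast_pow]
  rw [hL, hS]
  exact mul_le_mul_of_nonneg_left hF (pow_nonneg (Nat.cast_nonneg _) _)

end Pool.Agent.LIN

end

/-! ### from `Lib_MP_2c424f_lin.F3b` -/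

section

/-!
# H30 F3b: typicality and pressure

`WW b w = ∑_{g : class !b → [q]} ∏_{v ∈ cls b} (x_v + w)`, `x_v` = number of colours available at `v` (may be `0`); written
with free values on the class `b`, divided by `q^{N/2}`.  `WW b 0 = ZZ` (`resum` with `φ = 1`), `WW` is monotone in `w`,
`WW b 1 ≤ ZZ (q+1)` (last colour on the class `b` only).
* `typ_expw`: `finner_cls` with `g c = ((x + w)/q) exp ((1-2x/q)^2)`, `x = q - card (image c)`: with `A = image c`,
  `t = 1 - 2|A|/q`: `∑_c (q g(c))^(2d) ≤ ∑_{A ⊆ [q]} (|A| (q-|A|+w) exp (t²))^(2d) ≤ 2^q ((q²/4)(1 + 4ew/q))^(2d)`, because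
  `|A| (q-|A|+w) ≤ (q²/4)(1-t²) + q w`, `(1-t²) exp (t²) ≤ 1`, `exp (t²) ≤ e`.  So the left side is at most
  `(2^q (q²/4)^(2d) (1+4ew/q)^(2d))^(N/4d) ≤ exp (N (log (q/2) + q log 2/(4d) + 6w/q))` (the factors `q^(N/2)` cancel).
* `typ_exp0`: `w = 0` and `resum` with `φ _ x = exp ((1 - 2x/q)^2)`.  `pressure_le`: `exp ≥ 1`.
* `pressure_ge`: odd sites coloured from `⌊q/2⌋` colours, even sites from the other `⌈q/2⌉`:
  `ZZ ≥ (⌊q/2⌋ ⌈q/2⌉)^(N/2) ≥ ((q²-1)/4)^(N/2)`, `log (1 - 1/q²) ≥ -2/q²` for `q ≥ 2`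
  (`Lib_MP_2c424f_lo/Pbd.lean` has a lower bound of this kind).
-/

set_option autoImplicit false

open Finset

namespace Pool.Agent.LIN

open Pool.Agent.LO

variable {d k q : ℕ}

private theorem F3b_card_image (A : Finset (Fin q)) :
    ((univ.filter fun c : Stp d → Fin q => univ.image c = A).card : ℝ) ≤ (A.card : ℝ) ^ (2 * d) := by
  have h1 : (univ.filter fun c : Stp d → Fin q => univ.image c = A) ⊆
      Fintype.piFinset (fun _ : Stp d => A) := by
    intro c hc
    rw [mem_filter] at hc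
    rw [Fintype.mem_piFinset]
    intro σ
    rw [← hc.2]
    exact mem_image_of_mem _ (mem_univ _)
  have h2 := card_le_card h1
  rw [Fintype.card_piFinset] at h2
  have h3 : ∏ _σ : Stp d, A.card = A.card ^ (2 * d) := by
    rw [prod_const]
    congr 1
    simp [Fintype.card_prod, mul_comm]
  rw [h3] at h2
  exact_mod_cast h2

private theorem F3b_pt (hq : 2 ≤ q) (a w : ℝ) (ha : 0 ≤ a) (haq : a ≤ q) (hw : 0 ≤ w) :
    a * ((q - a + w) * Real.exp ((1 - 2 * ((q - a) / q)) ^ 2)) ≤
      (q : ℝ) ^ 2 / 4 * (1 + 4 * Real.exp 1 * w / q) := by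
  have hq0 : (0 : ℝ) < q := by
    have : 0 < q := by omega
    exact_mod_cast this
  have hqne : (q : ℝ) ≠ 0 := hq0.ne'
  set s : ℝ := (1 - 2 * ((q - a) / q)) ^ 2 with hs
  have hsa : a * (q - a) = (q : ℝ) ^ 2 / 4 * (1 - s) := by
    rw [hs]
    field_simp
    ring
  have hs1 : s ≤ 1 := by
    have h0 : 0 ≤ a * (q - a) := mul_nonneg ha (by linarith)
    rw [hsa] at h0
    by_contra hcon
    push Not at hcon
    have : (q : ℝ) ^ 2 / 4 * (1 - s) < 0 := mul_neg_of_pos_of_neg (by positivity) (by linarith)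
    linarith
  have he1 : (1 - s) * Real.exp s ≤ 1 := by
    have h1 : 1 - s ≤ Real.exp (-s) := by
      have := Real.add_one_le_exp (-s)
      linarith
    calc (1 - s) * Real.exp s ≤ Real.exp (-s) * Real.exp s :=
          mul_le_mul_of_nonneg_right h1 (Real.exp_pos s).le
      _ = 1 := by rw [← Real.exp_add]; simp
  have he2 : Real.exp s ≤ Real.exp 1 := Real.exp_le_exp.mpr hs1
  have h1 : a * ((q - a + w) * Real.exp s) =
      (q : ℝ) ^ 2 / 4 * ((1 - s) * Real.exp s) + a * w * Real.exp s := by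
    calc a * ((q - a + w) * Real.exp s) = (a * (q - a)) * Real.exp s + a * w * Real.exp s := by ring
      _ = _ := by rw [hsa]; ring
  have h2 : a * w * Real.exp s ≤ q * w * Real.exp 1 := by
    apply mul_le_mul (mul_le_mul_of_nonneg_right haq hw) he2 (Real.exp_pos s).le
    positivity
  have h3 : (q : ℝ) ^ 2 / 4 * (1 + 4 * Real.exp 1 * w / q) = (q : ℝ) ^ 2 / 4 + q * w * Real.exp 1 := by
    field_simp
  rw [h1, h3]
  have h4 : (q : ℝ) ^ 2 / 4 * ((1 - s) * Real.exp s) ≤ (q : ℝ) ^ 2 / 4 * 1 :=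
    mul_le_mul_of_nonneg_left he1 (by positivity)
  linarith

/-- the local weight -/
private noncomputable def F3bg (d q : ℕ) (w : ℝ) (c : Stp d → Fin q) : ℝ :=
  ((((q - (univ.image c).card : ℕ) : ℝ) + w) / q) *
    Real.exp ((1 - 2 * ((((q - (univ.image c).card : ℕ) : ℝ)) / q)) ^ 2)

private theorem F3b_sum (hq : 2 ≤ q) (w : ℝ) (hw : 0 ≤ w) :
    ∑ c : Stp d → Fin q, F3bg d q w c ^ (2 * d) ≤
      2 ^ q * ((q : ℝ) / 4 * (1 + 4 * Real.exp 1 * w / q)) ^ (2 * d) := by
  have hq0 : (0 : ℝ) < q := by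
    have : 0 < q := by omega
    exact_mod_cast this
  have hqne : (q : ℝ) ≠ 0 := hq0.ne'
  -- group by the image
  have h1 : ∑ c : Stp d → Fin q, F3bg d q w c ^ (2 * d) =
      ∑ A : Finset (Fin q), ∑ c ∈ univ.filter (fun c : Stp d → Fin q => univ.image c = A),
        F3bg d q w c ^ (2 * d) := by
    rw [sum_fiberwise]
  rw [h1]
  have h2 : ∀ A : Finset (Fin q),
      ∑ c ∈ univ.filter (fun c : Stp d → Fin q => univ.image c = A), F3bg d q w c ^ (2 * d) ≤
        ((q : ℝ) / 4 * (1 + 4 * Real.exp 1 * w / q)) ^ (2 * d) := by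
    intro A
    have hAq : A.card ≤ q := by
      have := card_le_univ A
      simpa using this
    have hAqR : (A.card : ℝ) ≤ q := by exact_mod_cast hAq
    set x : ℝ := (q : ℝ) - A.card with hx
    have hx0 : 0 ≤ x := by rw [hx]; linarith
    set y : ℝ := ((x + w) / q) * Real.exp ((1 - 2 * (x / q)) ^ 2) with hy
    have hy0 : 0 ≤ y := by rw [hy]; positivity
    have h3 : ∑ c ∈ univ.filter (fun c : Stp d → Fin q => univ.image c = A), F3bg d q w c ^ (2 * d) =
        ((univ.filter fun c : Stp d → Fin q => univ.image c = A).card : ℝ) * y ^ (2 * d) := by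
      rw [← nsmul_eq_mul, ← sum_const]
      apply sum_congr rfl
      intro c hc
      rw [mem_filter] at hc
      unfold F3bg
      rw [hc.2, Nat.cast_sub hAq]
    rw [h3]
    calc ((univ.filter fun c : Stp d → Fin q => univ.image c = A).card : ℝ) * y ^ (2 * d)
        ≤ (A.card : ℝ) ^ (2 * d) * y ^ (2 * d) :=
          mul_le_mul_of_nonneg_right (F3b_card_image A) (by positivity)
      _ = ((A.card : ℝ) * y) ^ (2 * d) := (mul_pow _ _ _).symm
      _ ≤ ((q : ℝ) / 4 * (1 + 4 * Real.exp 1 * w / q)) ^ (2 * d) := by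
          apply pow_le_pow_left₀ (by positivity)
          have h4 := F3b_pt hq (A.card : ℝ) w (by positivity) hAqR hw
          have h5 : (A.card : ℝ) * y =
              ((A.card : ℝ) * ((q - A.card + w) * Real.exp ((1 - 2 * ((q - A.card) / q)) ^ 2))) / q := by
            rw [hy, hx]
            ring
          rw [h5, div_le_iff₀ hq0]
          calc _ ≤ _ := h4
            _ = _ := by ring
  calc ∑ A : Finset (Fin q), ∑ c ∈ univ.filter (fun c : Stp d → Fin q => univ.image c = A),
        F3bg d q w c ^ (2 * d)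
      ≤ ∑ _A : Finset (Fin q), ((q : ℝ) / 4 * (1 + 4 * Real.exp 1 * w / q)) ^ (2 * d) :=
        sum_le_sum fun A _ => h2 A
    _ = _ := by
        rw [sum_const, nsmul_eq_mul, card_univ, Fintype.card_finset, Fintype.card_fin]
        push_cast
        rfl

theorem typ_expw (hd : 1 ≤ d) (hk : 2 ≤ k) (hq : 2 ≤ q) (b : Bool) (w : ℝ) (hw : 0 ≤ w) (hw1 : w ≤ 1) :
    ∑ f : Site d k → Fin q, ∏ v ∈ cls b d k, ((((av f v : ℝ) + w) / q) * Real.exp ((1 - 2 * xi f v) ^ 2)) ≤
      Real.exp (NN d k * (Real.log (q / 2) + q * Real.log 2 / (4 * d) + 6 * w / q)) := by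
  have hq0 : (0 : ℝ) < q := by
    have : 0 < q := by omega
    exact_mod_cast this
  have hqne : (q : ℝ) ≠ 0 := hq0.ne'
  have hd0 : (0 : ℝ) < d := by
    have : 0 < d := by omega
    exact_mod_cast this
  have hN0 : 0 ≤ NN d k := by unfold NN; positivity
  have hg0 : ∀ c : Stp d → Fin q, 0 ≤ F3bg d q w c := by
    intro c
    unfold F3bg
    positivity
  have key := finner_cls hd hk b (F3bg d q w) hg0
  have h1 : ∑ f : Site d k → Fin q,
      ∏ v ∈ cls b d k, ((((av f v : ℝ) + w) / q) * Real.exp ((1 - 2 * xi f v) ^ 2)) =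
      ∑ f : Site d k → Fin q, ∏ v ∈ cls b d k, F3bg d q w (fun σ => f (v + sv σ)) := rfl
  rw [h1]
  refine key.trans ?_
  set u : ℝ := 1 + 4 * Real.exp 1 * w / q with hu
  have hu1 : 1 ≤ u := by
    rw [hu]
    have : 0 ≤ 4 * Real.exp 1 * w / q := by positivity
    linarith
  have hu0 : 0 < u := by linarith
  have hS0 : 0 ≤ ∑ c : Stp d → Fin q, F3bg d q w c ^ (2 * d) :=
    sum_nonneg fun c _ => pow_nonneg (hg0 c) _
  have h2 : (∑ c : Stp d → Fin q, F3bg d q w c ^ (2 * d)) ^ (NN d k / (4 * d)) ≤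
      (2 ^ q * ((q : ℝ) / 4 * u) ^ (2 * d)) ^ (NN d k / (4 * d)) :=
    Real.rpow_le_rpow hS0 (F3b_sum hq w hw) (by positivity)
  rw [Fintype.card_fin]
  have h3 : (q : ℝ) ^ (NN d k / 2) = Real.exp (Real.log q * (NN d k / 2)) := by
    rw [Real.rpow_def_of_pos hq0]
  have h4 : (2 ^ q * ((q : ℝ) / 4 * u) ^ (2 * d)) ^ (NN d k / (4 * d)) =
      Real.exp ((q * Real.log 2 + 2 * d * (Real.log q - Real.log 4 + Real.log u)) * (NN d k / (4 * d))) := by
    rw [Real.rpow_def_of_pos (by positivity)]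
    congr 2
    rw [Real.log_mul (by positivity) (by positivity), Real.log_pow, Real.log_pow,
      Real.log_mul (by positivity) hu0.ne', Real.log_div hqne (by norm_num)]
    push_cast
    ring
  calc (q : ℝ) ^ (NN d k / 2) * (∑ c : Stp d → Fin q, F3bg d q w c ^ (2 * d)) ^ (NN d k / (4 * d))
      ≤ (q : ℝ) ^ (NN d k / 2) * (2 ^ q * ((q : ℝ) / 4 * u) ^ (2 * d)) ^ (NN d k / (4 * d)) :=
        mul_le_mul_of_nonneg_left h2 (by positivity)
    _ = Real.exp (Real.log q * (NN d k / 2) +
          (q * Real.log 2 + 2 * d * (Real.log q - Real.log 4 + Real.log u)) * (NN d k / (4 * d))) := by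
        rw [h3, h4, ← Real.exp_add]
    _ ≤ _ := by
        apply Real.exp_le_exp.mpr
        have h5 : Real.log u ≤ 4 * Real.exp 1 * w / q := by
          have := Real.log_le_sub_one_of_pos hu0
          rw [hu] at this ⊢
          linarith
        have h6 : Real.exp 1 ≤ 3 := by
          have := Real.exp_one_lt_d9
          linarith
        have h7 : Real.log 4 = 2 * Real.log 2 := by
          rw [show (4 : ℝ) = 2 ^ 2 by norm_num, Real.log_pow]
          push_cast
          ring
        have h8 : Real.log (q / 2) = Real.log q - Real.log 2 := Real.log_div hqne (by norm_num)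
        have h9 : Real.log u ≤ 12 * w / q := by
          refine h5.trans ?_
          apply div_le_div_of_nonneg_right _ hq0.le
          nlinarith
        have h10 : Real.log q * (NN d k / 2) +
          (q * Real.log 2 + 2 * d * (Real.log q - Real.log 4 + Real.log u)) * (NN d k / (4 * d)) =
          NN d k * (Real.log (q / 2) + q * Real.log 2 / (4 * d)) + NN d k / 2 * Real.log u := by
          rw [h7, h8]
          field_simp
          ring
        rw [h10]
        have h11 : NN d k / 2 * Real.log u ≤ NN d k / 2 * (12 * w / q) :=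
          mul_le_mul_of_nonneg_left h9 (by positivity)
        have h12 : NN d k / 2 * (12 * w / q) = NN d k * (6 * w / q) := by ring
        rw [mul_add (NN d k) (_ + _)]
        linarith

end Pool.Agent.LIN

end

/-! ### from `Lib_MP_2c424f_lc3.T23` -/

section

/-!
# Part III, T23: products; deleting the edges at few vertices

`cP_mul`: a pair is a pair.  `cP_dl`: `cP_mul` and `dl_le` (`V02`): `exp(8 d |S| / q)^2 = exp(8 a |S|)`; `deg`, `q ≥ 2` (`num_q`).
-/

set_option autoImplicit false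

open Finset Filter

namespace Pool.Agent.LC3

open Pool.Agent.LO Pool.Agent.LIN Pool.Agent.THR Pool.Agent.COR Pool.Agent.LC

section
variable {V : Type} [Fintype V] [DecidableEq V] {d q j : ℕ}

private theorem T23_mul (G : SimpleGraph V) (P Q : (V → Fin q) → Prop) (R : (V → Fin q × Fin q) → Prop)
    (hR : ∀ ω, R ω ↔ P (fo ω) ∧ Q (go ω)) : cP G R = cG G P * cG G Q := by
  classical
  unfold cP cG
  rw [← Nat.cast_mul, ← Finset.card_product]
  refine congrArg (fun n : ℕ => (n : ℝ)) ?_
  refine Finset.card_bij (fun ω _ => (fo ω, go ω)) ?_ ?_ ?_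
  · intro ω hω
    rw [Finset.mem_filter, hR] at hω
    rw [Finset.mem_product, Finset.mem_filter, Finset.mem_filter]
    exact ⟨⟨Finset.mem_univ _, hω.2.1.1, hω.2.2.1⟩, ⟨Finset.mem_univ _, hω.2.1.2, hω.2.2.2⟩⟩
  · intro ω _ ω' _ h
    rw [Prod.mk.injEq] at h
    funext v
    exact Prod.ext (congrFun h.1 v) (congrFun h.2 v)
  · rintro ⟨f, g⟩ h
    rw [Finset.mem_product, Finset.mem_filter, Finset.mem_filter] at h
    refine ⟨fun v => (f v, g v), ?_, rfl⟩
    rw [Finset.mem_filter, hR]
    exact ⟨Finset.mem_univ _, ⟨h.1.2.1, h.2.2.1⟩, h.1.2.2, h.2.2.2⟩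

theorem cP_mul (G : SimpleGraph V) (P Q : (V → Fin q) → Prop) :
    cP G (fun ω => P (fo ω) ∧ Q (go ω)) = cG G P * cG G Q := by
  exact T23_mul G P Q _ fun _ => Iff.rfl

theorem cP_dl (D : Bal V d q j) (S : Finset V) :
    cP (dlG D.G S) (fun _ : V → Fin q × Fin q => True) ≤
      Real.exp (8 * ra d q * S.card) * (cG D.G fun _ : V → Fin q => True) ^ 2 := by
  classical
  have hd : 1 ≤ d := le_trans (by norm_num) D.dl
  have hq : 2 ≤ q := by
    have h1 := (num_q D.rg hd).1
    obtain ⟨r, hr⟩ := D.rg.1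
    omega
  have hq0 : (0 : ℝ) < q := by
    have : 0 < q := by omega
    exact_mod_cast this
  have h1 : cP (dlG D.G S) (fun _ : V → Fin q × Fin q => True) =
      (cG (dlG D.G S) fun _ : V → Fin q => True) * (cG (dlG D.G S) fun _ : V → Fin q => True) := by
    rw [← cP_mul]
    refine congrArg (cP (dlG D.G S)) ?_
    funext ω
    exact (and_self True).symm
  have hdeg : ∀ v, (nb D.G v).card ≤ 4 * d := by
    intro v
    rw [D.deg v]
    omega
  have h2 := dl_le hq D.par hdeg S
  have h0 : 0 ≤ cG (dlG D.G S) (fun _ : V → Fin q => True) := by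
    unfold cG
    positivity
  have h3 : 0 ≤ cG D.G (fun _ : V → Fin q => True) := by
    unfold cG
    positivity
  rw [h1]
  have h4 : Real.exp (8 * ra d q * S.card) =
      Real.exp (8 * d * S.card / q) * Real.exp (8 * d * S.card / q) := by
    rw [← Real.exp_add]
    congr 1
    unfold ra
    field_simp
    ring
  rw [h4]
  calc cG (dlG D.G S) (fun _ : V → Fin q => True) * cG (dlG D.G S) (fun _ : V → Fin q => True) ≤
      (Real.exp (8 * d * S.card / q) * cG D.G fun _ : V → Fin q => True) *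
        (Real.exp (8 * d * S.card / q) * cG D.G fun _ : V → Fin q => True) :=
        mul_le_mul h2 h2 h0 (mul_nonneg (Real.exp_pos _).le h3)
    _ = _ := by ring

end

end Pool.Agent.LC3

end

/-! ### from `Lib_MP_2c424f_lc2.B01` -/

section

/-!
# LC2 B01: sums over rings and paths of states as traces and matrix elements

`S` a finite set of states.  Induction on the length (see also `e2a` lemmas in `Lib_MP_2c424f_lin/E2a.lean`: ring sums as traces).
* `ring_pow`: `∑_{σ : Fin (n+1) → S} ∏_i M (σ i) (σ (i+1 mod n+1)) = Tr (M^(n+1))`.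
* `path_mat`: `∑_{σ : Fin (n+1) → S} u (σ 0) w (σ n) ∏_{i<n} (A i) (σ i) (σ (i+1)) = u ⬝ᵥ (A 0 ⋯ A (n-1)) *ᵥ w`.
* `ring_mat`: the same for rings with different matrices.
-/

set_option autoImplicit false

open Finset Matrix

namespace Pool.Agent.LC

variable {S : Type} [Fintype S] [DecidableEq S]

theorem path_mat (n : ℕ) (A : ℕ → Matrix S S ℝ) (u w : S → ℝ) :
    ∑ σ : Fin (n + 1) → S, u (σ 0) * w (σ (Fin.last n)) * ∏ i : Fin n, A i (σ i.castSucc) (σ i.succ) =
      u ⬝ᵥ (((List.range n).map A).prod *ᵥ w) := by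
  induction n generalizing A u with
  | zero =>
    have e : (∑ σ : Fin 1 → S, u (σ 0) * w (σ 0)) = ∑ s : S, u s * w s :=
      Fintype.sum_equiv (Equiv.funUnique (Fin 1) S) _ _ fun σ => rfl
    simpa [dotProduct] using e
  | succ n ih =>
    rw [← Equiv.sum_comp (Fin.consEquiv fun _ : Fin (n + 2) => S), Fintype.sum_prod_type]
    rw [List.range_succ_eq_map, List.map_cons, List.prod_cons, List.map_map,
      ← Matrix.mulVec_mulVec, Matrix.dotProduct_mulVec]
    have h := ih (fun i => A (i + 1)) (u ᵥ* A 0)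
    have h2 : (A ∘ Nat.succ) = fun i => A (i + 1) := rfl
    rw [h2, ← h, Finset.sum_comm]
    refine Finset.sum_congr rfl fun τ _ => ?_
    have h3 : ∀ s : S, u ((Fin.consEquiv fun _ : Fin (n + 2) => S) (s, τ) 0) *
        w ((Fin.consEquiv fun _ : Fin (n + 2) => S) (s, τ) (Fin.last (n + 1))) *
        ∏ i : Fin (n + 1), A i ((Fin.consEquiv fun _ : Fin (n + 2) => S) (s, τ) i.castSucc)
          ((Fin.consEquiv fun _ : Fin (n + 2) => S) (s, τ) i.succ) =
        u s * A 0 s (τ 0) * (w (τ (Fin.last n)) *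
          ∏ i : Fin n, A (i + 1) (τ i.castSucc) (τ i.succ)) := by
      intro s
      have e0 : (Fin.consEquiv fun _ : Fin (n + 2) => S) (s, τ) 0 = s := rfl
      have e1 : ∀ j : Fin (n + 1), (Fin.consEquiv fun _ : Fin (n + 2) => S) (s, τ) j.succ = τ j :=
        fun j => rfl
      rw [Fin.prod_univ_succ, ← Fin.succ_last]
      have e2 : (Fin.castSucc (0 : Fin (n + 1))) = 0 := rfl
      simp only [e0, e1, e2, ← Fin.succ_castSucc, Fin.val_zero, Fin.val_succ]
      ring
    rw [Finset.sum_congr rfl fun s _ => h3 s, ← Finset.sum_mul]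
    have h4 : ∑ s, u s * A 0 s (τ 0) = (u ᵥ* A 0) (τ 0) := rfl
    rw [h4]
    ring

theorem ring_mat (n : ℕ) (A : ℕ → Matrix S S ℝ) :
    ∑ σ : Fin (n + 1) → S, ∏ i : Fin (n + 1), A i (σ i) (σ (i + 1)) =
      (((List.range (n + 1)).map A).prod).trace := by
  rw [List.range_succ, List.map_append, List.prod_append, List.map_singleton, List.prod_singleton]
  set P := ((List.range n).map A).prod with hP
  have h1 : ∀ s t : S, P s t = ∑ σ : Fin (n + 1) → S,
      (Pi.single s 1 : S → ℝ) (σ 0) * (Pi.single t 1 : S → ℝ) (σ (Fin.last n)) *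
        ∏ i : Fin n, A i (σ i.castSucc) (σ i.succ) := by
    intro s t
    rw [path_mat n A (Pi.single s 1) (Pi.single t 1), ← hP]
    simp
  have h2 : (P * A n).trace = ∑ s, ∑ t, P s t * A n t s := by
    simp [Matrix.trace, Matrix.mul_apply]
  rw [h2]
  simp_rw [h1, Finset.sum_mul]
  rw [Finset.sum_congr rfl fun s _ => Finset.sum_comm, Finset.sum_comm]
  refine Finset.sum_congr rfl fun σ _ => ?_
  rw [Finset.sum_eq_single (σ 0), Finset.sum_eq_single (σ (Fin.last n))]
  · rw [Fin.prod_univ_castSucc, Fin.last_add_one]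
    simp only [Pi.single_eq_same, one_mul, Fin.val_castSucc, Fin.coeSucc_eq_succ, Fin.val_last]
  · intro t _ ht
    rw [Pi.single_eq_of_ne (Ne.symm ht)]
    simp
  · intro h
    exact absurd (Finset.mem_univ _) h
  · intro s _ hs
    refine Finset.sum_eq_zero fun t _ => ?_
    rw [Pi.single_eq_of_ne (Ne.symm hs)]
    simp
  · intro h
    exact absurd (Finset.mem_univ _) h

theorem ring_pow (n : ℕ) (M : Matrix S S ℝ) :
    ∑ σ : Fin (n + 1) → S, ∏ i : Fin (n + 1), M (σ i) (σ (i + 1)) = (M ^ (n + 1)).trace := by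
  have h := ring_mat n fun _ => M
  simpa using h

end Pool.Agent.LC

end

/-! ### from `Lib_MP_2c424f_lc2.B02` -/

section

/-!
# LC2 B02: splitting off one direction

`∀ i, Fin (n i)` is `Fin (n j) × ∀ i : {i // i ≠ j}, Fin (n i)` (`Equiv.piSplitAt`); a colouring is a family of layers
`σ : Fin (n j) → S`, `S = (∀ i : {i // i ≠ j}, Fin (n i)) → Fin q`; it is proper iff every layer is proper (`prG` over the index type
`{i // i ≠ j}`) and layers which are neighbours in `R j` differ everywhere.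

`Zt_double`: `T σ σ' = 1[σ, σ' proper, σ y ≠ σ' y for all y]` is symmetric, `Zt n = Tr (T^(n j))` (`ring_pow`; for `n j ≥ 2`), and for even
`n j = 2 r`: `T^(2 r) = T^r (T^r)ᵀ` is positive semidefinite, so `Tr (P^2) = ∑ P_ab^2 ≤ ∑ P_aa P_bb = (Tr P)^2` for `P = T^(n j)`
(cf. `zig_mono` in `Lib_MP_2c424f_lin/E2.lean`).
-/

set_option autoImplicit false

open Finset Matrix

namespace Pool.Agent.LC

open Pool.Agent.LO Pool.Agent.LIN Pool.Agent.THR Pool.Agent.COR

/-- put the coordinate `j` -/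
def inj {I : Type} [DecidableEq I] {n : I → ℕ} (j : I) (a : Fin (n j)) (y : ∀ i : {i // i ≠ j}, Fin (n i)) : ∀ i, Fin (n i) :=
  (Equiv.piSplitAt j fun i => Fin (n i)).symm (a, y)

private theorem inj_same {I : Type} [DecidableEq I] {n : I → ℕ} (j : I) (a : Fin (n j))
    (y : ∀ i : {i // i ≠ j}, Fin (n i)) : inj j a y j = a := by
  unfold inj
  simp [Equiv.piSplitAt]

private theorem inj_ne {I : Type} [DecidableEq I] {n : I → ℕ} (j : I) (a : Fin (n j))
    (y : ∀ i : {i // i ≠ j}, Fin (n i)) (i : I) (h : i ≠ j) : inj j a y i = y ⟨i, h⟩ := by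
  unfold inj
  simp [Equiv.piSplitAt, h]

private theorem inj_surj {I : Type} [DecidableEq I] {n : I → ℕ} (j : I) (x : ∀ i, Fin (n i)) :
    inj j (x j) (fun i => x i) = x := by
  funext i
  by_cases h : i = j
  · subst h
    exact inj_same _ _ _
  · rw [inj_ne j _ _ i h]

/-- proper colourings in layers -/
theorem split_proper {I : Type} [DecidableEq I] {n : I → ℕ} {q : ℕ} (j : I) (R : ∀ i, SimpleGraph (Fin (n i)))
    (f : (∀ i, Fin (n i)) → Fin q) :
    PrG (prG n R) f ↔
      (∀ a, PrG (prG (fun i : {i // i ≠ j} => n i) fun i => R i) fun y => f (inj j a y)) ∧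
        ∀ a a', (R j).Adj a a' → ∀ y, f (inj j a y) ≠ f (inj j a' y) := by
  constructor
  · intro h
    refine ⟨fun a y y' hy => h _ _ ?_, fun a a' ha y => h _ _ ?_⟩
    · obtain ⟨i, h1, h2⟩ := hy
      refine ⟨i.1, fun k hk => ?_, ?_⟩
      · by_cases hkj : k = j
        · subst hkj
          rw [inj_same, inj_same]
        · rw [inj_ne j _ _ k hkj, inj_ne j _ _ k hkj]
          exact h1 ⟨k, hkj⟩ fun h3 => hk (congrArg Subtype.val h3)
      · rw [inj_ne j _ _ i.1 i.2, inj_ne j _ _ i.1 i.2]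
        exact h2
    · refine ⟨j, fun k hk => ?_, ?_⟩
      · rw [inj_ne j _ _ k hk, inj_ne j _ _ k hk]
      · rw [inj_same, inj_same]
        exact ha
  · rintro ⟨h1, h2⟩ x y ⟨i, h3, h4⟩
    by_cases hij : i = j
    · subst hij
      have e : (fun k : {k // k ≠ i} => x k) = fun k : {k // k ≠ i} => y k := by
        funext k
        exact h3 k.1 k.2
      have h5 := h2 (x i) (y i) h4 fun k => x k
      rw [inj_surj, e, inj_surj] at h5
      exact h5
    · have e : x j = y j := h3 j fun h => hij h.symm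
      have h5 := h1 (x j) (fun k => x k) (fun k => y k) ⟨⟨i, hij⟩, fun k hk => h3 k.1 fun h =>
        hk (Subtype.ext h), h4⟩
      simp only at h5
      rw [inj_surj] at h5
      rw [e, inj_surj] at h5
      exact h5

/-- the equivalence of colourings and families of layers -/
def layE {I : Type} [DecidableEq I] {n : I → ℕ} (C : Type) (j : I) :
    ((∀ i, Fin (n i)) → C) ≃ (Fin (n j) → (∀ i : {i // i ≠ j}, Fin (n i)) → C) :=
  ((Equiv.piSplitAt j fun i => Fin (n i)).arrowCongr (Equiv.refl C)).trans (Equiv.curry _ _ _)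

theorem layE_apply {I : Type} [DecidableEq I] {n : I → ℕ} (C : Type) (j : I) (f : (∀ i, Fin (n i)) → C) (a : Fin (n j))
    (y : ∀ i : {i // i ≠ j}, Fin (n i)) : layE C j f a y = f (inj j a y) := rfl

open scoped Classical in
/-- the transfer matrix -/
private noncomputable def B02_M {J : Type} [Fintype J] [DecidableEq J] (n : J → ℕ) (q : ℕ) :
    Matrix ((∀ i, Fin (n i)) → Fin q) ((∀ i, Fin (n i)) → Fin q) ℝ := fun σ σ' =>
  if (PrG (prG n fun i => lnG true (n i)) σ ∧ PrG (prG n fun i => lnG true (n i)) σ' ∧ ∀ y, σ y ≠ σ' y) then 1 else 0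

private theorem B02_symm {J : Type} [Fintype J] [DecidableEq J] (n : J → ℕ) (q : ℕ) :
    (B02_M n q)ᵀ = B02_M n q := by
  ext σ σ'
  rw [Matrix.transpose_apply]
  unfold B02_M
  have : (PrG (prG n fun i => lnG true (n i)) σ' ∧ PrG (prG n fun i => lnG true (n i)) σ ∧ ∀ y, σ' y ≠ σ y) ↔
      (PrG (prG n fun i => lnG true (n i)) σ ∧ PrG (prG n fun i => lnG true (n i)) σ' ∧ ∀ y, σ y ≠ σ' y) := by
    constructor
    · rintro ⟨h1, h2, h3⟩
      exact ⟨h2, h1, fun y => (h3 y).symm⟩
    · rintro ⟨h1, h2, h3⟩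
      exact ⟨h2, h1, fun y => (h3 y).symm⟩
  by_cases h : (PrG (prG n fun i => lnG true (n i)) σ ∧ PrG (prG n fun i => lnG true (n i)) σ' ∧ ∀ y, σ y ≠ σ' y)
  · rw [if_pos h, if_pos (this.2 h)]
  · rw [if_neg h, if_neg (fun h' => h (this.1 h'))]

private theorem lnG_succ (m : ℕ) (hm : 1 ≤ m) (a : Fin (m + 1)) : (lnG true (m + 1)).Adj a (a + 1) := by
  have hm' : 1 % (m + 1) = 1 := Nat.mod_eq_of_lt (by omega)
  have hv : (a + 1).val = if a.val = m then 0 else a.val + 1 := by
    rw [Fin.val_add_one]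
    by_cases h : a.val = m
    · have h1 : a = Fin.last m := Fin.ext h
      rw [if_pos h1, if_pos h]
    · have h1 : a ≠ Fin.last m := fun h2 => h (congrArg Fin.val h2)
      rw [if_neg h1, if_neg h]
  refine ⟨?_, ?_⟩
  · intro h
    have h1 := congrArg Fin.val h
    rw [hv] at h1
    split_ifs at h1 <;> omega
  · rw [hv]
    split_ifs with h
    · exact Or.inr (Or.inr ⟨rfl, Or.inr ⟨rfl, by omega⟩⟩)
    · exact Or.inl rfl

private theorem lnG_adj (m : ℕ) (a b : Fin (m + 1)) (h : (lnG true (m + 1)).Adj a b) :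
    b = a + 1 ∨ a = b + 1 := by
  have hv : ∀ a : Fin (m + 1), (a + 1).val = if a.val = m then 0 else a.val + 1 := by
    intro a
    rw [Fin.val_add_one]
    by_cases h : a.val = m
    · have h1 : a = Fin.last m := Fin.ext h
      rw [if_pos h1, if_pos h]
    · have h1 : a ≠ Fin.last m := fun h2 => h (congrArg Fin.val h2)
      rw [if_neg h1, if_neg h]
  obtain ⟨h1, h2⟩ := h
  have ha := a.2
  have hb := b.2
  rcases h2 with h2 | h2 | ⟨-, h2 | h2⟩
  · left
    apply Fin.ext
    rw [hv a, if_neg (by omega)]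
    omega
  · right
    apply Fin.ext
    rw [hv b, if_neg (by omega)]
    omega
  · right
    apply Fin.ext
    rw [hv b, if_pos (by omega)]
    omega
  · left
    apply Fin.ext
    rw [hv a, if_pos (by omega)]
    omega

open scoped Classical in
private theorem B02_ring {J : Type} [Fintype J] [DecidableEq J] (n : J → ℕ) (q N : ℕ) (hN : 2 ≤ N) :
    ((univ.filter fun σ : Fin N → (∀ i, Fin (n i)) → Fin q =>
      (∀ a, PrG (prG n fun i => lnG true (n i)) (σ a)) ∧
        ∀ a a', (lnG true N).Adj a a' → ∀ y, σ a y ≠ σ a' y).card : ℝ) = ((B02_M n q) ^ N).trace := by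
  obtain ⟨m, rfl⟩ : ∃ m, N = m + 1 := ⟨N - 1, by omega⟩
  rw [← ring_pow m (B02_M n q), Finset.card_filter]
  push_cast
  refine Finset.sum_congr rfl fun σ _ => ?_
  by_cases h : (∀ a, PrG (prG n fun i => lnG true (n i)) (σ a)) ∧
        ∀ a a', (lnG true (m + 1)).Adj a a' → ∀ y, σ a y ≠ σ a' y
  · rw [if_pos h]
    symm
    refine Finset.prod_eq_one fun i _ => ?_
    unfold B02_M
    rw [if_pos ⟨h.1 _, h.1 _, h.2 _ _ (lnG_succ m (by omega) i)⟩]
  · rw [if_neg h]
    symm
    by_contra h0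
    apply h
    have h1 : ∀ i, B02_M n q (σ i) (σ (i + 1)) ≠ 0 := by
      intro i hi
      exact h0 (Finset.prod_eq_zero (Finset.mem_univ i) hi)
    have h2 : ∀ i, PrG (prG n fun i => lnG true (n i)) (σ i) ∧
        PrG (prG n fun i => lnG true (n i)) (σ (i + 1)) ∧ ∀ y, σ i y ≠ σ (i + 1) y := by
      intro i
      by_contra h3
      apply h1 i
      unfold B02_M
      rw [if_neg h3]
    refine ⟨fun a => (h2 a).1, fun a a' ha y => ?_⟩
    rcases lnG_adj m a a' ha with h3 | h3
    · rw [h3]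
      exact (h2 a).2.2 y
    · rw [h3]
      exact ((h2 a').2.2 y).symm

private theorem B02_tr {d q : ℕ} (n : Fin d → ℕ) (j : Fin d) (h2 : 2 ≤ n j) :
    Zt q n = ((B02_M (fun i : {i // i ≠ j} => n i) q) ^ (n j)).trace := by
  classical
  rw [← B02_ring _ q (n j) h2]
  unfold Zt cG
  rw [Nat.cast_inj]
  refine Finset.card_equiv (layE (Fin q) j) fun f => ?_
  simp only [Finset.mem_filter, Finset.mem_univ, true_and, and_true]
  exact split_proper j _ f

theorem Zt_double {d q : ℕ} (n : Fin d → ℕ) (j : Fin d) (hn : Even (n j)) (h2 : 2 ≤ n j) :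
    Zt q (Function.update n j (2 * n j)) ≤ Zt q n ^ 2 := by
  classical
  have e1 : Zt q (Function.update n j (2 * n j)) =
      ((B02_M (fun i : {i // i ≠ j} => n i) q) ^ (2 * n j)).trace := by
    rw [B02_tr (Function.update n j (2 * n j)) j (by rw [Function.update_self]; omega)]
    have h3 : ∀ (n' : {i // i ≠ j} → ℕ) (N : ℕ), n' = (fun i : {i // i ≠ j} => n i) → N = 2 * n j →
        ((B02_M n' q) ^ N).trace = ((B02_M (fun i : {i // i ≠ j} => n i) q) ^ (2 * n j)).trace := by
      rintro _ _ rfl rfl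
      rfl
    refine h3 _ _ ?_ (Function.update_self _ _ _)
    funext i
    exact Function.update_of_ne i.2 _ _
  rw [e1, B02_tr n j h2]
  obtain ⟨r, hr⟩ := hn
  obtain ⟨M, hM⟩ : ∃ M, M = B02_M (fun i : {i // i ≠ j} => n i) q := ⟨_, rfl⟩
  have hMs : Mᵀ = M := by
    rw [hM]
    exact B02_symm _ _
  rw [← hM]
  obtain ⟨G, hG⟩ : ∃ G, G = M ^ r := ⟨_, rfl⟩
  have hGs : Gᵀ = G := by
    rw [hG, Matrix.transpose_pow, hMs]
  obtain ⟨P, hP⟩ : ∃ P, P = M ^ (n j) := ⟨_, rfl⟩
  have hPG : P = G * Gᵀ := by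
    rw [hGs, hP, hG, hr, pow_add]
  have hPP : M ^ (2 * n j) = P * Pᵀ := by
    have : Pᵀ = P := by rw [hP, Matrix.transpose_pow, hMs]
    rw [this, hP, two_mul, pow_add]
  rw [hPP, ← hP]
  have h4 : ∀ a b, P a b ^ 2 ≤ P a a * P b b := by
    intro a b
    have h5 : ∀ a b, P a b = ∑ c, G a c * G b c := by
      intro a b
      rw [hPG, Matrix.mul_apply]
      simp only [Matrix.transpose_apply]
    rw [h5 a b, h5 a a, h5 b b]
    have := Finset.sum_mul_sq_le_sq_mul_sq univ (fun c => G a c) (fun c => G b c)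
    calc (∑ c, G a c * G b c) ^ 2 ≤ (∑ c, G a c ^ 2) * ∑ c, G b c ^ 2 := this
      _ = (∑ c, G a c * G a c) * ∑ c, G b c * G b c := by simp only [sq]
  unfold Matrix.trace
  simp only [Matrix.diag_apply, Matrix.mul_apply, Matrix.transpose_apply]
  rw [sq, Finset.sum_mul_sum]
  refine Finset.sum_le_sum fun a _ => Finset.sum_le_sum fun b _ => ?_
  rw [← sq]
  exact h4 a b

end Pool.Agent.LC

end

/-! ### from `Lib_MP_2c424f_lc2.B03` -/

section

/-!
# LC2 B03: upper bound of the number of colourings of the big torus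

`ZZ d (k+1) q = Zt (fun _ => 2^(k+1))` (`ZMod (2^(k+1))` is `Fin (2^(k+1))`; neighbours are `x ± e_i`), and `Zt_double` iterated:
`Zt (fun i => 2^(e i) n i) ≤ (Zt n)^(2^(∑ e i))`.
-/

set_option autoImplicit false

open Finset

namespace Pool.Agent.LC

open Pool.Agent.LO Pool.Agent.LIN Pool.Agent.THR Pool.Agent.COR

theorem Zt_pow {d q : ℕ} (n e : Fin d → ℕ) (hn : ∀ i, Even (n i) ∧ 2 ≤ n i) :
    Zt q (fun i => 2 ^ e i * n i) ≤ Zt q n ^ (2 ^ ∑ i, e i) := by
  classical
  have key : ∀ (N : ℕ) (e : Fin d → ℕ), ∑ i, e i = N →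
      Zt q (fun i => 2 ^ e i * n i) ≤ Zt q n ^ (2 ^ N) := by
    intro N
    induction N with
    | zero =>
      intro e he
      have h0 : ∀ i, e i = 0 := fun i => (Finset.sum_eq_zero_iff.1 he) i (Finset.mem_univ i)
      have h1 : (fun i => 2 ^ e i * n i) = n := by
        funext i
        rw [h0 i, pow_zero, one_mul]
      rw [h1, pow_zero, pow_one]
    | succ N ih =>
      intro e he
      obtain ⟨j, hj⟩ : ∃ j, e j ≠ 0 := by
        by_contra h
        push Not at h
        rw [Finset.sum_eq_zero fun i _ => h i] at he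
        omega
      obtain ⟨e', he'⟩ : ∃ e' : Fin d → ℕ, e' = Function.update e j (e j - 1) := ⟨_, rfl⟩
      have hj' : e' j = e j - 1 := by rw [he', Function.update_self]
      have hne : ∀ i, i ≠ j → e' i = e i := fun i hi => by rw [he', Function.update_of_ne hi]
      have hs : ∑ i, e' i = N := by
        have h1 := Finset.add_sum_erase univ e' (Finset.mem_univ j)
        have h2 := Finset.add_sum_erase univ e (Finset.mem_univ j)
        have h3 : ∑ i ∈ univ.erase j, e' i = ∑ i ∈ univ.erase j, e i :=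
          Finset.sum_congr rfl fun i hi => hne i (Finset.mem_erase.1 hi).1
        omega
      have h1 : (fun i => 2 ^ e i * n i) =
          Function.update (fun i => 2 ^ e' i * n i) j (2 * (fun i => 2 ^ e' i * n i) j) := by
        funext i
        by_cases hi : i = j
        · subst hi
          have h4 : e i = e' i + 1 := by omega
          rw [Function.update_self, h4, pow_succ]
          ring
        · rw [Function.update_of_ne hi, hne i hi]
      rw [h1]
      refine (Zt_double (fun i => 2 ^ e' i * n i) j ?_ ?_).trans ?_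
      · exact (hn j).1.mul_left _
      · have h2 := (hn j).2
        have h3 : 1 ≤ 2 ^ e' j := Nat.one_le_two_pow
        change 2 ≤ 2 ^ e' j * n j
        nlinarith
      · have h0 : 0 ≤ Zt q (fun i => 2 ^ e' i * n i) := by
          unfold Zt cG
          exact Nat.cast_nonneg _
        calc Zt q (fun i => 2 ^ e' i * n i) ^ 2 ≤ (Zt q n ^ (2 ^ N)) ^ 2 :=
              pow_le_pow_left₀ h0 (ih e' hs) 2
          _ = Zt q n ^ (2 ^ (N + 1)) := by rw [← pow_mul, pow_succ]
  exact key _ e rfl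

private theorem B03_val (N : ℕ) (hN : 2 ≤ N) (z : ZMod N) :
    (z + 1).val = if z.val + 1 = N then 0 else z.val + 1 := by
  have : NeZero N := ⟨by omega⟩
  have : Fact (1 < N) := ⟨by omega⟩
  have h1 := ZMod.val_lt z
  rw [ZMod.val_add, ZMod.val_one]
  split_ifs with h
  · rw [h, Nat.mod_self]
  · exact Nat.mod_eq_of_lt (by omega)

private theorem B03_adj (N : ℕ) (hN : 2 ≤ N) (z w : ZMod N) (a b : Fin N) (ha : a.val = z.val) (hb : b.val = w.val) :
    (lnG true N).Adj a b ↔ w = z + 1 ∨ z = w + 1 := by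
  have hne : NeZero N := ⟨by omega⟩
  have hz := ZMod.val_lt z
  have hw := ZMod.val_lt w
  have h1 : ∀ z w : ZMod N, w = z + 1 ↔ w.val = if z.val + 1 = N then 0 else z.val + 1 := by
    intro z w
    rw [← B03_val N hN z]
    exact ⟨fun h => by rw [h], fun h => ZMod.val_injective N h⟩
  rw [h1 z w, h1 w z]
  constructor
  · rintro ⟨h2, h3⟩
    rw [ha, hb] at h3
    rcases h3 with h3 | h3 | ⟨-, h3 | h3⟩
    · left
      rw [if_neg (by omega)]
      omega
    · right
      rw [if_neg (by omega)]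
      omega
    · right
      rw [if_pos (by omega)]
      omega
    · left
      rw [if_pos (by omega)]
      omega
  · intro h
    refine ⟨fun h2 => ?_, ?_⟩
    · have h3 : z.val = w.val := by rw [← ha, ← hb, h2]
      rw [h3] at h
      rcases h with h | h <;> split_ifs at h <;> omega
    · rw [ha, hb]
      rcases h with h | h
      · split_ifs at h with h4
        · exact Or.inr (Or.inr ⟨rfl, Or.inr ⟨h, h4⟩⟩)
        · exact Or.inl h.symm
      · split_ifs at h with h4
        · exact Or.inr (Or.inr ⟨rfl, Or.inl ⟨h, h4⟩⟩)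
        · exact Or.inr (Or.inl h.symm)

theorem ZZ_Zt (d k q : ℕ) : ZZ d (k + 1) q = Zt q (fun _ : Fin d => 2 ^ (k + 1)) := by
  classical
  have hN2 : 2 ≤ 2 ^ (k + 1) := by
    rw [pow_succ]
    have : 1 ≤ 2 ^ k := Nat.one_le_two_pow
    omega
  obtain ⟨E, hE⟩ : ∃ E : Site d (k + 1) ≃ (∀ _ : Fin d, Fin (2 ^ (k + 1))), ∀ x i, (E x i).val = (x i).val :=
    ⟨Equiv.piCongrRight fun _ => ⟨fun z => ⟨z.val, ZMod.val_lt z⟩, fun a => (a.val : ZMod (2 ^ (k + 1))),
      fun z => by simp, fun a => by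
        apply Fin.ext
        exact ZMod.val_cast_of_lt a.2⟩, fun x i => rfl⟩
  unfold ZZ Zt cG prps
  rw [Nat.cast_inj]
  refine Finset.card_equiv (E.arrowCongr (Equiv.refl (Fin q))) fun f => ?_
  simp only [Finset.mem_filter, Finset.mem_univ, true_and, and_true]
  constructor
  · rintro h x y ⟨i, h1, h2⟩
    obtain ⟨x, rfl⟩ := E.surjective x
    obtain ⟨y, rfl⟩ := E.surjective y
    change f (E.symm (E x)) ≠ f (E.symm (E y))
    rw [Equiv.symm_apply_apply, Equiv.symm_apply_apply]
    have h3 : ∀ j, j ≠ i → x j = y j := by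
      intro j hj
      apply ZMod.val_injective
      rw [← hE, ← hE, h1 j hj]
    have h4 := (B03_adj _ hN2 (x i) (y i) _ _ (hE x i) (hE y i)).1 h2
    rcases h4 with h4 | h4
    · have h5 : y = x + sv (i, true) := by
        funext j
        by_cases hj : j = i
        · subst hj
          rw [Pi.add_apply]
          unfold sv
          simp [h4]
        · rw [Pi.add_apply]
          unfold sv
          simp [hj, h3 j hj]
      rw [h5]
      exact (h x (i, true)).symm
    · have h5 : x = y + sv (i, true) := by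
        funext j
        by_cases hj : j = i
        · subst hj
          rw [Pi.add_apply]
          unfold sv
          simp [h4]
        · rw [Pi.add_apply]
          unfold sv
          simp [hj, h3 j hj]
      rw [h5]
      exact h y (i, true)
  · intro h x σ
    have h1 := h (E (x + sv σ)) (E x) ⟨σ.1, fun j hj => ?_, ?_⟩
    · change f (E.symm (E (x + sv σ))) ≠ f (E.symm (E x)) at h1
      rw [Equiv.symm_apply_apply, Equiv.symm_apply_apply] at h1
      exact h1
    · apply Fin.ext
      rw [hE, hE, Pi.add_apply]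
      unfold sv
      simp [hj]
    · refine (B03_adj _ hN2 _ _ _ _ (hE (x + sv σ) σ.1) (hE x σ.1)).2 ?_
      rw [Pi.add_apply]
      unfold sv
      rw [Pi.single_eq_same]
      rcases σ with ⟨i, b⟩
      cases b
      · left
        simp
      · right
        simp

/-- `r i ≤ k`; the sides are `2^(r i + 1)` -/
theorem ZZ_le_Zt {d k q : ℕ} (r : Fin d → ℕ) (hr : ∀ i, r i ≤ k) :
    ZZ d (k + 1) q ≤ Zt q (fun i => 2 ^ (r i + 1)) ^ (2 ^ ∑ i, (k - r i)) := by
  rw [ZZ_Zt]
  have h1 := Zt_pow (q := q) (fun i => 2 ^ (r i + 1)) (fun i => k - r i) fun i =>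
    ⟨⟨2 ^ r i, by rw [pow_succ]; ring⟩, by
      rw [pow_succ]
      have : 1 ≤ 2 ^ r i := Nat.one_le_two_pow
      omega⟩
  have h2 : (fun _ : Fin d => 2 ^ (k + 1)) = fun i => 2 ^ (k - r i) * 2 ^ (r i + 1) := by
    funext i
    rw [← pow_add]
    congr 1
    have := hr i
    omega
  rw [h2]
  exact h1

end Pool.Agent.LC

end

/-! ### from `Lib_MP_2c424f_lc6.C06` -/

section

/-!
# LC6 C06: products of a cross section with a path, or with a path and a cycle

For `R` any graph on `Fin n`: the pairs counted by `N2 (H.boxProd R) gl True` are the families `σ : Fin n → (Y → Fin q × Fin q)` with all `σ a` `vld`,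
`dif (σ a) (σ a')` for `R.Adj a a'`, and `smy (σ a)` for the glued `a`.
* `N2_path`: `R` = path with `m + 1 ≥ 2` vertices: `path_mat` with `A i = T`.
* `N2_RX` (`s ≥ 1`, `L ≥ 1`): the graph `RX s L` is the disjoint union of a path with `2 s + 1` vertices `0, …, s-1, s+2L, …, 2s+2L` and of a cycle with
  `2 L` vertices `s, …, s+2L-1`; the sum over `σ` is the product of the two sums (`Fin (2s+2L+1) ≃ Fin (2s+1) ⊕ Fin (2L)`), `path_mat`, `ring_pow`.
-/

set_option autoImplicit false

open Finset Matrix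

namespace Pool.Agent.LC

open Pool.Agent.LO Pool.Agent.LIN Pool.Agent.THR Pool.Agent.COR

variable {Y : Type} [Fintype Y] [DecidableEq Y]

section c06

/-- the condition on a family of layers -/
private def C06_ok {q : ℕ} (H : SimpleGraph Y) (g : Y → Prop) {V : Type} (r : V → V → Prop) (G : V → Prop)
    (σ : V → Y → Fin q × Fin q) : Prop :=
  (∀ a, vld H g (σ a)) ∧ (∀ a b, r a b → dif (σ a) (σ b)) ∧ ∀ a, G a → smy (σ a)

open scoped Classical in
/-- number of the families of layers -/
private noncomputable def C06_Z (q : ℕ) (H : SimpleGraph Y) (g : Y → Prop) {V : Type} [Fintype V] [DecidableEq V]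
    (r : V → V → Prop) (G : V → Prop) : ℝ :=
  ∑ σ : V → Y → Fin q × Fin q, if C06_ok H g r G σ then (1 : ℝ) else 0

omit [Fintype Y] [DecidableEq Y] in
private theorem C06_dif_symm {q : ℕ} {σ τ : Y → Fin q × Fin q} (h : dif σ τ) : dif τ σ :=
  fun y => ⟨(h y).1.symm, (h y).2.symm⟩

/-- pairs of colourings of a product as families of layers -/
private def C06_e (q : ℕ) (Y V : Type) :
    ((Y × V → Fin q) × (Y × V → Fin q)) ≃ (V → Y → Fin q × Fin q) where
  toFun p := fun a y => (p.1 (y, a), p.2 (y, a))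
  invFun σ := (fun z => (σ z.2 z.1).1, fun z => (σ z.2 z.1).2)
  left_inv _ := rfl
  right_inv _ := rfl

open scoped Classical in
private theorem C06_N2 (q : ℕ) (H : SimpleGraph Y) (g : Y → Prop) {V : Type} [Fintype V] [DecidableEq V]
    (R : SimpleGraph V) (r : V → V → Prop) (h1 : ∀ a b, r a b → R.Adj a b) (h2 : ∀ a b, R.Adj a b → r a b ∨ r b a)
    (G : V → Prop) (gl : Y × V → Prop) (hgl : ∀ y a, gl (y, a) ↔ g y ∨ G a) :
    N2 (H.boxProd R) gl (fun _ : Y × V → Fin q => True) = C06_Z q H g r G := by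
  unfold N2 C06_Z
  rw [Finset.card_filter]
  push_cast
  refine Fintype.sum_equiv (M := ℝ) (C06_e q Y V) _ _ (fun p => ?_)
  congr 1
  apply propext
  show (PrG (H.boxProd R) p.1 ∧ PrG (H.boxProd R) p.2 ∧ (∀ x, gl x → p.1 x = p.2 x) ∧ True) ↔
    C06_ok H g r G (fun a y => (p.1 (y, a), p.2 (y, a)))
  unfold C06_ok vld dif smy PrG
  constructor
  · rintro ⟨ha, hb, hc, -⟩
    refine ⟨fun a => ⟨fun y y' hy => ?_, fun y y' hy => ?_, fun y hy => ?_⟩, fun a b hab y => ⟨?_, ?_⟩, fun a hG y => ?_⟩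
    · exact ha _ _ (by rw [SimpleGraph.boxProd_adj]; exact Or.inl ⟨hy, rfl⟩)
    · exact hb _ _ (by rw [SimpleGraph.boxProd_adj]; exact Or.inl ⟨hy, rfl⟩)
    · exact hc _ ((hgl y a).mpr (Or.inl hy))
    · exact ha _ _ (by rw [SimpleGraph.boxProd_adj]; exact Or.inr ⟨h1 a b hab, rfl⟩)
    · exact hb _ _ (by rw [SimpleGraph.boxProd_adj]; exact Or.inr ⟨h1 a b hab, rfl⟩)
    · exact hc _ ((hgl y a).mpr (Or.inr hG))
  · rintro ⟨ha, hb, hc⟩
    refine ⟨?_, ?_, ?_, trivial⟩
    · rintro ⟨y, a⟩ ⟨y', a'⟩ hadj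
      rw [SimpleGraph.boxProd_adj] at hadj
      rcases hadj with ⟨hy, rfl⟩ | ⟨hR, rfl⟩
      · exact (ha a).1 y y' hy
      · rcases h2 _ _ hR with h | h
        · exact (hb _ _ h y).1
        · exact (hb _ _ h y).1.symm
    · rintro ⟨y, a⟩ ⟨y', a'⟩ hadj
      rw [SimpleGraph.boxProd_adj] at hadj
      rcases hadj with ⟨hy, rfl⟩ | ⟨hR, rfl⟩
      · exact (ha a).2.1 y y' hy
      · rcases h2 _ _ hR with h | h
        · exact (hb _ _ h y).2
        · exact (hb _ _ h y).2.symm
    · rintro ⟨y, a⟩ hx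
      rcases (hgl y a).mp hx with h | h
      · exact (ha a).2.2 y h
      · exact hc a h y

open scoped Classical in
/-- a path -/
private theorem C06_path (q : ℕ) (H : SimpleGraph Y) (g : Y → Prop) (m : ℕ) (hm : 1 ≤ m) :
    C06_Z q H g (fun a b : Fin (m + 1) => a.val + 1 = b.val) (fun a => a.val = 0 ∨ a.val = m) =
      vY q Y ⬝ᵥ ((TY q H g ^ m) *ᵥ vY q Y) := by
  have h := path_mat m (fun _ => TY q H g) (vY q Y) (vY q Y)
  have e : ((List.range m).map (fun _ => TY q H g)).prod = TY q H g ^ m := by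
    rw [List.map_const', List.prod_replicate, List.length_range]
  rw [e] at h
  rw [← h]
  unfold C06_Z
  refine Finset.sum_congr rfl (fun σ _ => ?_)
  have e1 : ∀ i : Fin m, TY q H g (σ i.castSucc) (σ i.succ) =
      if vld H g (σ i.castSucc) ∧ vld H g (σ i.succ) ∧ dif (σ i.castSucc) (σ i.succ) then (1 : ℝ) else 0 := fun i => rfl
  rw [Finset.prod_congr rfl (fun i _ => e1 i), Finset.prod_ite_zero]
  simp only [Finset.prod_const_one, mem_univ, true_implies, vY]
  have e2 : C06_ok H g (fun a b : Fin (m + 1) => a.val + 1 = b.val) (fun a => a.val = 0 ∨ a.val = m) σ ↔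
      (smy (σ 0) ∧ smy (σ (Fin.last m)) ∧ ∀ i : Fin m, vld H g (σ i.castSucc) ∧ vld H g (σ i.succ) ∧
        dif (σ i.castSucc) (σ i.succ)) := by
    constructor
    · rintro ⟨ha, hb, hc⟩
      exact ⟨hc 0 (Or.inl rfl), hc (Fin.last m) (Or.inr rfl), fun i => ⟨ha _, ha _, hb _ _ rfl⟩⟩
    · rintro ⟨ha, hb, hc⟩
      refine ⟨fun a => ?_, fun a b hab => ?_, fun a hG => ?_⟩
      · by_cases h0 : a.val < m
        · exact (hc ⟨a.val, h0⟩).1
        · have h1 : a = (⟨m - 1, by omega⟩ : Fin m).succ := by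
            apply Fin.ext
            have := a.isLt
            simp only [Fin.succ_mk]
            omega
          rw [h1]
          exact (hc _).2.1
      · have hab' : a.val + 1 = b.val := hab
        have h0 : a.val < m := by have := b.isLt; omega
        have h2 : b = (⟨a.val, h0⟩ : Fin m).succ := by
          apply Fin.ext
          simp only [Fin.succ_mk]
          exact hab'.symm
        rw [h2]
        exact (hc ⟨a.val, h0⟩).2.2
      · rcases hG with h | h
        · have : a = 0 := Fin.ext h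
          rw [this]; exact ha
        · have : a = Fin.last m := Fin.ext h
          rw [this]; exact hb
  by_cases h1 : smy (σ 0)
  · by_cases h2 : smy (σ (Fin.last m))
    · simp only [e2, h1, h2, true_and, if_true, one_mul]
    · simp only [e2, h1, h2, false_and, and_false, if_false, zero_mul, mul_zero]
  · simp only [e2, h1, false_and, if_false, zero_mul]

open scoped Classical in
/-- a cycle -/
private theorem C06_ring (q : ℕ) (H : SimpleGraph Y) (g : Y → Prop) (n : ℕ) :
    C06_Z q H g (fun a b : Fin (n + 1) => a + 1 = b) (fun _ => False) = (TY q H g ^ (n + 1)).trace := by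
  rw [← ring_pow n (TY q H g)]
  unfold C06_Z
  refine Finset.sum_congr rfl (fun σ _ => ?_)
  have e1 : ∀ i : Fin (n + 1), TY q H g (σ i) (σ (i + 1)) =
      if vld H g (σ i) ∧ vld H g (σ (i + 1)) ∧ dif (σ i) (σ (i + 1)) then (1 : ℝ) else 0 := fun i => rfl
  rw [Finset.prod_congr rfl (fun i _ => e1 i), Finset.prod_ite_zero]
  simp only [Finset.prod_const_one, mem_univ, true_implies]
  congr 1
  apply propext
  constructor
  · rintro ⟨ha, hb, -⟩
    exact fun i => ⟨ha _, ha _, hb _ _ rfl⟩
  · intro hc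
    refine ⟨fun a => (hc a).1, fun a b hab => ?_, fun a hG => hG.elim⟩
    have hab' : a + 1 = b := hab
    rw [← hab']
    exact (hc a).2.2

open scoped Classical in
/-- a disjoint union -/
private theorem C06_sum (q : ℕ) (H : SimpleGraph Y) (g : Y → Prop) {V A B : Type} [Fintype V] [Fintype A] [Fintype B]
    [DecidableEq V] [DecidableEq A] [DecidableEq B]
    (e : A ⊕ B ≃ V) (r : V → V → Prop) (G : V → Prop) (rA : A → A → Prop) (rB : B → B → Prop) (GA : A → Prop)
    (GB : B → Prop) (h1 : ∀ a b, r (e (Sum.inl a)) (e (Sum.inl b)) ↔ rA a b)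
    (h2 : ∀ a b, r (e (Sum.inr a)) (e (Sum.inr b)) ↔ rB a b)
    (h3 : ∀ a b, ¬ r (e (Sum.inl a)) (e (Sum.inr b))) (h4 : ∀ a b, ¬ r (e (Sum.inr b)) (e (Sum.inl a)))
    (h5 : ∀ a, G (e (Sum.inl a)) ↔ GA a) (h6 : ∀ b, G (e (Sum.inr b)) ↔ GB b) :
    C06_Z q H g r G = C06_Z q H g rA GA * C06_Z q H g rB GB := by
  unfold C06_Z
  rw [Finset.sum_mul_sum, ← Finset.sum_product', Finset.univ_product_univ]
  refine Fintype.sum_equiv ((Equiv.arrowCongr e.symm (Equiv.refl _)).trans (Equiv.sumArrowEquivProdArrow A B _)) _ _ (fun σ => ?_)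
  show (if C06_ok H g r G σ then (1 : ℝ) else 0) =
    (if C06_ok H g rA GA (fun a => σ (e (Sum.inl a))) then (1 : ℝ) else 0) *
      (if C06_ok H g rB GB (fun b => σ (e (Sum.inr b))) then (1 : ℝ) else 0)
  have key : C06_ok H g r G σ ↔ C06_ok H g rA GA (fun a => σ (e (Sum.inl a))) ∧
      C06_ok H g rB GB (fun b => σ (e (Sum.inr b))) := by
    constructor
    · rintro ⟨ha, hb, hc⟩
      exact ⟨⟨fun a => ha _, fun a b hab => hb _ _ ((h1 a b).mpr hab), fun a hG => hc _ ((h5 a).mpr hG)⟩,
        ⟨fun a => ha _, fun a b hab => hb _ _ ((h2 a b).mpr hab), fun a hG => hc _ ((h6 a).mpr hG)⟩⟩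
    · rintro ⟨⟨ha, hb, hc⟩, ⟨ha', hb', hc'⟩⟩
      refine ⟨fun v => ?_, fun v w hvw => ?_, fun v hG => ?_⟩
      · obtain ⟨x, rfl⟩ := e.surjective v
        rcases x with a | b
        · exact ha a
        · exact ha' b
      · obtain ⟨x, rfl⟩ := e.surjective v
        obtain ⟨y, rfl⟩ := e.surjective w
        rcases x with a | b <;> rcases y with a' | b'
        · exact hb _ _ ((h1 a a').mp hvw)
        · exact absurd hvw (h3 _ _)
        · exact absurd hvw (h4 _ _)
        · exact hb' _ _ ((h2 b b').mp hvw)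
      · obtain ⟨x, rfl⟩ := e.surjective v
        rcases x with a | b
        · exact hc a ((h5 a).mp hG)
        · exact hc' b ((h6 b).mp hG)
  by_cases hA : C06_ok H g rA GA (fun a => σ (e (Sum.inl a)))
  · simp only [key, hA, true_and, if_true, one_mul]
  · simp only [key, hA, false_and, if_false, zero_mul]

/-- the splitting of the vertices of `RX s L` -/
private def C06_f (s L : ℕ) : Fin (2 * s + 1) ⊕ Fin (2 * L) → Fin (2 * s + 2 * L + 1)
  | Sum.inl i => ⟨if i.val < s then i.val else i.val + 2 * L, by have := i.isLt; split_ifs <;> omega⟩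
  | Sum.inr j => ⟨s + j.val, by have := j.isLt; omega⟩

private theorem C06_f_bij (s L : ℕ) : Function.Bijective (C06_f s L) := by
  rw [Fintype.bijective_iff_injective_and_card]
  constructor
  · intro x y hxy
    have h := congrArg Fin.val hxy
    rcases x with a | b <;> rcases y with a' | b' <;> simp only [C06_f] at h
    · congr 1
      apply Fin.ext
      split_ifs at h <;> omega
    · exfalso
      have := b'.isLt
      split_ifs at h <;> omega
    · exfalso
      have := b.isLt
      split_ifs at h <;> omega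
    · congr 1
      apply Fin.ext
      omega
  · rw [Fintype.card_sum, Fintype.card_fin, Fintype.card_fin, Fintype.card_fin]
    omega

end c06

theorem N2_path (q : ℕ) (H : SimpleGraph Y) (g : Y → Prop) (m : ℕ) (hm : 1 ≤ m) :
    N2 (H.boxProd (lnG false (m + 1))) (glp g m) (fun _ : Y × Fin (m + 1) → Fin q => True) =
      vY q Y ⬝ᵥ ((TY q H g ^ m) *ᵥ vY q Y) := by
  rw [← C06_path q H g m hm]
  apply C06_N2
  · intro a b hab
    refine ⟨fun h => ?_, Or.inl hab⟩
    have : a.val + 1 = b.val := hab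
    rw [h] at this
    omega
  · rintro a b ⟨-, h | h | ⟨h, -⟩⟩
    · exact Or.inl h
    · exact Or.inr h
    · exact absurd h (by simp)
  · intro y a
    rfl

theorem N2_RX (q : ℕ) (H : SimpleGraph Y) (g : Y → Prop) (s L : ℕ) (hs : 1 ≤ s) (hL : 1 ≤ L) :
    N2 (H.boxProd (RX s L)) (glp g (2 * s + 2 * L)) (fun _ : Y × Fin (2 * s + 2 * L + 1) → Fin q => True) =
      (vY q Y ⬝ᵥ ((TY q H g ^ (2 * s)) *ᵥ vY q Y)) * (TY q H g ^ (2 * L)).trace := by
  obtain ⟨n, hn⟩ : ∃ n, 2 * L = n + 1 := ⟨2 * L - 1, by omega⟩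
  have hring := C06_ring q H g n
  rw [← C06_path q H g (2 * s) (by omega)]
  have hN := C06_N2 q H g (RX s L) (fun a b => nxt s L a.val b.val)
    (by
      intro a b hab
      refine ⟨fun h => ?_, Or.inl hab⟩
      have h' : nxt s L a.val b.val := hab
      rw [h] at h'
      unfold nxt at h'
      omega)
    (fun a b hab => hab.2) (fun a => a.val = 0 ∨ a.val = 2 * s + 2 * L) (glp g (2 * s + 2 * L)) (fun y a => Iff.rfl)
  rw [hN]
  have hring2 : C06_Z q H g (fun a b : Fin (2 * L) => (a.val + 1 = b.val) ∨ (a.val + 1 = 2 * L ∧ b.val = 0)) (fun _ => False) =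
      (TY q H g ^ (2 * L)).trace := by
    rw [hn, ← hring]
    congr 1
    funext a b
    apply propext
    rw [Fin.ext_iff, Fin.val_add, Fin.val_one']
    have ha := a.isLt
    have hb := b.isLt
    rcases Nat.lt_or_ge (a.val + 1) (n + 1) with h | h
    · rw [Nat.mod_eq_of_lt (by omega : 1 < n + 1), Nat.mod_eq_of_lt h]
      omega
    · have h0 : a.val = n := by omega
      rw [Nat.mod_eq_of_lt (by omega : 1 < n + 1), h0, Nat.mod_self]
      omega
  rw [← hring2]
  refine C06_sum q H g (Equiv.ofBijective _ (C06_f_bij s L)) _ _ _ _ _ _ ?_ ?_ ?_ ?_ ?_ ?_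
  · intro a b
    simp only [Equiv.ofBijective_apply, C06_f, nxt]
    have := a.isLt
    have := b.isLt
    split_ifs <;> omega
  · intro a b
    simp only [Equiv.ofBijective_apply, C06_f, nxt]
    have := a.isLt
    have := b.isLt
    omega
  · intro a b
    simp only [Equiv.ofBijective_apply, C06_f, nxt]
    have := a.isLt
    have := b.isLt
    split_ifs <;> omega
  · intro a b
    simp only [Equiv.ofBijective_apply, C06_f, nxt]
    have := a.isLt
    have := b.isLt
    split_ifs <;> omega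
  · intro a
    simp only [Equiv.ofBijective_apply, C06_f]
    have := a.isLt
    split_ifs <;> omega
  · intro b
    simp only [Equiv.ofBijective_apply, C06_f, iff_false]
    have := b.isLt
    omega

end Pool.Agent.LC

end
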