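import Pool.Agent.Lib_MP_2c424f_m.M04
import Pool.Agent.Lib_MP_2c424f_m.M12
import Pool.Agent.Lib_MP_2c424f_m.M21

/-!
# MP_2c424f_pr, q_c grows linearly: merged library part M22

Concatenation of smaller files (each in its own section), only to save build time.
-/

namespace Pool.Agent.LO
end Pool.Agent.LO

namespace Pool.Agent.LIN
end Pool.Agent.LIN

namespace Pool.Agent.THR
end Pool.Agent.THR

namespace Pool.Agent.COR
end Pool.Agent.COR

namespace Pool.Agent.LC
end Pool.Agent.LC

/-! ### from `Lib_MP_2c424f_cor.C04` -/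

section

/-!
# Blocks and exchanges of two colours (piece C04, (C1))

`f`, `f'` have the same sets `{· = c}` on the closed block `t` for all colours `c ≠ i, j` (e.g. `f' = kfl i j S f`).  Then `zb`, `zj`
(hence `mb`, `mj`, `lab0`) agree for these colours (`pt_step`: an allowed step leads to a point of the block), so `AL f t` and
`AL f' t` agree outside `{i, j}`; if they have the same cardinality the numbers of elements in `{i, j}` agree.
`AL_lab0`: `c ∈ AL f t` iff `lab0`; if no colour is bad, `c ∉ AL f t` iff `lab1`; `c ∈ AL f t → mb f t c ≤ dl q`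
(`mb_le_mj`, `d ≥ 1`).
-/

set_option autoImplicit false

open Finset

namespace Pool.Agent.COR

open Pool.Agent.LO

variable {d k q : ℕ}

private theorem C04_mem {f : Site d (k + 1) → Fin q} {t : Blk d k} {c : Fin q} :
    c ∈ AL f t ↔ lab0 f t c := by
  classical
  unfold AL
  rw [Finset.mem_filter]
  exact ⟨fun h => h.2, fun h => ⟨Finset.mem_univ _, h⟩⟩

private theorem C04_mj (t : Blk d k) (f f' : Site d (k + 1) → Fin q) (c : Fin q)
    (h : ∀ a b, (f' (pt t a b) = c ↔ f (pt t a b) = c)) (j : Fin d) :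
    mj f' t c j = mj f t c j := by
  classical
  unfold mj
  congr 1
  funext a b
  unfold zj
  have h1 : (∀ σ : Stp d, σ.1 ≠ j → alw a b σ → f' (pt t a b + sv σ) ≠ c) ↔
      ∀ σ : Stp d, σ.1 ≠ j → alw a b σ → f (pt t a b + sv σ) ≠ c := by
    refine forall_congr' fun σ => forall_congr' fun _ => forall_congr' fun hσ => ?_
    obtain ⟨a', b', hab⟩ := pt_step t a b σ hσ
    rw [hab]
    exact not_congr (h a' b')
  simp only [h1]

open scoped Classical in
private theorem C04_card {i j : Fin q} (hij : i ≠ j) (A : Finset (Fin q)) :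
    A.card = ((A.erase i).erase j).card + ((if i ∈ A then 1 else 0) + (if j ∈ A then 1 else 0)) := by
  by_cases hi : i ∈ A
  · by_cases hj : j ∈ A
    · have h1 : j ∈ A.erase i := Finset.mem_erase.2 ⟨hij.symm, hj⟩
      have h2 := Finset.card_erase_add_one h1
      have h3 := Finset.card_erase_add_one hi
      rw [if_pos hi, if_pos hj]
      omega
    · have h1 : j ∉ A.erase i := fun h => hj (Finset.mem_of_mem_erase h)
      have h3 := Finset.card_erase_add_one hi
      rw [if_pos hi, if_neg hj, Finset.erase_eq_of_notMem h1]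
      omega
  · rw [Finset.erase_eq_of_notMem hi, if_neg hi]
    by_cases hj : j ∈ A
    · have h3 := Finset.card_erase_add_one hj
      rw [if_pos hj]
      omega
    · rw [if_neg hj, Finset.erase_eq_of_notMem hj]
      omega

open scoped Classical in
theorem AL_bal {i j : Fin q} (hij : i ≠ j) (t : Blk d k) (f f' : Site d (k + 1) → Fin q)
    (h : ∀ a b c, c ≠ i → c ≠ j → (f' (pt t a b) = c ↔ f (pt t a b) = c))
    (hc : (AL f' t).card = (AL f t).card) :
    (∀ c, c ≠ i → c ≠ j → (c ∈ AL f' t ↔ c ∈ AL f t)) ∧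
      (if i ∈ AL f' t then 1 else 0) + (if j ∈ AL f' t then 1 else 0) =
        (if i ∈ AL f t then 1 else 0) + (if j ∈ AL f t then (1 : ℕ) else 0) := by
  have h1 : ∀ c, c ≠ i → c ≠ j → (c ∈ AL f' t ↔ c ∈ AL f t) := by
    intro c hci hcj
    rw [C04_mem, C04_mem]
    unfold lab0
    refine forall_congr' fun l => ?_
    rw [C04_mj t f f' c (fun a b => h a b c hci hcj) l]
  refine ⟨h1, ?_⟩
  have h2 : ((AL f' t).erase i).erase j = ((AL f t).erase i).erase j := by
    ext c
    simp only [Finset.mem_erase]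
    constructor
    · rintro ⟨hj, hi, hm⟩
      exact ⟨hj, hi, (h1 c hi hj).1 hm⟩
    · rintro ⟨hj, hi, hm⟩
      exact ⟨hj, hi, (h1 c hi hj).2 hm⟩
  have h3 := C04_card hij (AL f' t)
  have h4 := C04_card hij (AL f t)
  rw [h2] at h3
  omega

theorem AL_mb (hd : 1 ≤ d) {f : Site d (k + 1) → Fin q} {t : Blk d k} {c : Fin q} (h : c ∈ AL f t) :
    mb f t c ≤ dl q := by
  rw [C04_mem] at h
  exact (mb_le_mj f t c ⟨0, hd⟩).trans (h ⟨0, hd⟩)

theorem GD_iff (hd : 1 ≤ d) (hq : 1 ≤ q) {f : Site d (k + 1) → Fin q} {t : Blk d k} (h : ∀ c, ¬ bad c t f)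
    (c : Fin q) : (c ∉ AL f t ↔ lab1 f t c) ∧ (c ∈ AL f t ↔ ¬ lab1 f t c) := by
  have hlt : dl q < 1 - dl q := by
    unfold dl
    have hq' : (1 : ℝ) ≤ q := by exact_mod_cast hq
    have h1 : 1 / (100 * (q : ℝ)) ≤ 1 / 100 :=
      one_div_le_one_div_of_le (by norm_num) (by linarith)
    linarith
  have h0 : lab0 f t c → ¬ lab1 f t c := by
    intro h0 h1
    have h2 : mb f t c ≤ dl q := AL_mb hd (C04_mem.2 h0)
    unfold lab1 at h1
    linarith
  have hb := h c
  unfold bad at hb
  rw [C04_mem]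
  tauto

end Pool.Agent.COR

end

/-! ### from `Lib_MP_2c424f_lo.Dom` -/

section

/-!
# The linear code (piece DOM)

`hh s i` is additive and does not depend on the coordinate `i`; the map `t ↦ sg s i t` gives steps
which change it by `t`; so for every `a` the sites with `hh s i = a` dominate.
-/

set_option autoImplicit false

open Finset

namespace Pool.Agent.LO

variable {d k s : ℕ}

private theorem Dom_hh_eq (hs : s ≤ k) (i : Fin d) (x : Site d k) :
    hh s i x = ∑ j, (kap i j : ZMod (2 ^ s)) *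
      ZMod.castHom (pow_dvd_pow 2 hs) (ZMod (2 ^ s)) (x j) := by
  unfold hh
  refine Finset.sum_congr rfl fun j _ => ?_
  rw [Nat.cast_mul, ZMod.natCast_val, ZMod.castHom_apply]

theorem hh_step (hs : s ≤ k) (i : Fin d) (x : Site d k) (j : Fin d) (b : Bool) :
    hh s i (x + sv (j, b)) = hh s i x + (if b then (kap i j : ZMod (2 ^ s)) else -(kap i j : ZMod (2 ^ s))) := by
  rw [Dom_hh_eq hs, Dom_hh_eq hs]
  simp only [Pi.add_apply, map_add, mul_add, Finset.sum_add_distrib]
  congr 1
  rw [Finset.sum_eq_single j]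
  · unfold sv
    cases b <;> simp [-ZMod.castHom_apply]
  · intro l _ hl
    unfold sv
    simp [Pi.single_eq_of_ne hl]
  · intro h
    exact absurd (Finset.mem_univ j) h

theorem hh_same (hs : s ≤ k) (i : Fin d) (x : Site d k) (b : Bool) :
    hh s i (x + sv (i, b)) = hh s i x := by
  rw [hh_step hs]
  have h : kap i i = 0 := by
    unfold kap
    have : i.val + (d - i.val) = d := by have := i.isLt; omega
    rw [this, Nat.mod_self]
  cases b <;> simp [h]

private theorem Dom_kap (i : Fin d) (t : ℕ) (ht : t < d) : kap i (jj i t) = t := by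
  unfold kap jj
  simp only
  rw [Nat.add_mod, Nat.mod_mod, ← Nat.add_mod]
  have h1 : i.val + t + (d - i.val) = t + d := by have := i.isLt; omega
  rw [h1, Nat.add_mod_right, Nat.mod_eq_of_lt ht]

theorem hh_vv (hs : s ≤ k) (h1 : d ≤ 2 ^ s) (h2 : 2 ^ s < 2 * d) (i : Fin d) (a : ZMod (2 ^ s))
    (u : Site d k) : hh s i (vv s i a u) = a := by
  unfold vv sg
  set t : ZMod (2 ^ s) := a - hh s i u with ht
  have htv : ((t.val : ℕ) : ZMod (2 ^ s)) = t := ZMod.natCast_zmod_val t
  by_cases h : t.val < d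
  · rw [if_pos h, hh_step hs, Dom_kap i _ h, if_pos rfl, htv, ht]
    ring
  · rw [if_neg h, hh_step hs]
    have hlt : t.val < 2 ^ s := ZMod.val_lt t
    have h3 : 2 ^ s - t.val < d := by omega
    rw [Dom_kap i _ h3]
    have h4 : ((2 ^ s - t.val : ℕ) : ZMod (2 ^ s)) = -t := by
      rw [Nat.cast_sub hlt.le, htv]
      have : (((2 ^ s : ℕ) : ZMod (2 ^ s))) = 0 := ZMod.natCast_self _
      rw [this, zero_sub]
    rw [h4]
    simp only [Bool.false_eq_true, if_false, neg_neg, ht]
    ring

theorem evn_vv (hk : 1 ≤ k) (i : Fin d) (a : ZMod (2 ^ s)) (u : Site d k) :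
    evn (vv s i a u) ↔ ¬ evn u := by
  unfold vv
  exact evn_step hk u _

/-- averaging over the random value `a` -/
theorem avg_vv (hk : 1 ≤ k) (i : Fin d) (φ : Site d k → ℝ) :
    ∑ a : ZMod (2 ^ s), ∑ u ∈ evs d k, φ (vv s i a u) = 2 ^ s * ∑ v ∈ ods d k, φ v := by
  rw [Finset.sum_comm]
  have h1 : ∀ u ∈ evs d k, ∑ a : ZMod (2 ^ s), φ (vv s i a u) =
      ∑ t : ZMod (2 ^ s), φ (u + sv (sg s i t)) := by
    intro u _
    unfold vv
    exact Equiv.sum_comp (Equiv.subRight (hh s i u)) fun t => φ (u + sv (sg s i t))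
  rw [Finset.sum_congr rfl h1, Finset.sum_comm]
  have h2 : ∀ t ∈ (Finset.univ : Finset (ZMod (2 ^ s))),
      ∑ u ∈ evs d k, φ (u + sv (sg s i t)) = ∑ v ∈ ods d k, φ v :=
    fun t _ => sum_step hk (sg s i t) φ
  rw [Finset.sum_congr rfl h2, Finset.sum_const, Finset.card_univ, ZMod.card, nsmul_eq_mul]
  push_cast
  rfl

end Pool.Agent.LO

end

/-! ### from `Lib_MP_2c424f_lo.Bayes` -/

section

/-!
# Sequential summation (piece BAYES)

If the weight `w v f` depends on `f v` and on the values `f u` with `rk u < rk v` only, and sums to at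
most `1` over the value at `v`, then the sum over all `f` of the product is at most `1`.
Proof: by `Finset.induction_on_max_value rk` show for every finset `A` that
`∑ f, ∏ v ∈ A, w v f ≤ (card α) ^ (card V - A.card)`; step: average over the value at the new vertex.
-/

set_option autoImplicit false

open Finset

namespace Pool.Agent.LO

/-- averaging over the value at `v` -/
private theorem Bayes_avg {V α : Type} [Fintype V] [DecidableEq V] [Fintype α] (v : V)
    (F : (V → α) → ℝ) :
    ∑ f : V → α, ∑ c : α, F (Function.update f v c) = Fintype.card α * ∑ f : V → α, F f := by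
  classical
  -- the map `(f, c) ↦ (update f v c, f v)` is an involution
  have h : ∑ p : (V → α) × α, F (Function.update p.1 v p.2) = ∑ p : (V → α) × α, F p.1 := by
    refine Finset.sum_nbij' (fun p => (Function.update p.1 v p.2, p.1 v))
      (fun p => (Function.update p.1 v p.2, p.1 v)) ?_ ?_ ?_ ?_ ?_
    · intro p _; exact mem_univ _
    · intro p _; exact mem_univ _
    · rintro ⟨f, c⟩ _
      simp
    · rintro ⟨f, c⟩ _
      simp
    · rintro ⟨f, c⟩ _
      rfl
  rw [Fintype.sum_prod_type, Fintype.sum_prod_type] at h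
  rw [h]
  simp [Finset.mul_sum]

theorem bayes {V α : Type} [Fintype V] [DecidableEq V] [Fintype α] (rk : V → ℕ)
    (w : V → (V → α) → ℝ) (h0 : ∀ v f, 0 ≤ w v f)
    (hdep : ∀ v (f g : V → α), (∀ u, rk u < rk v → f u = g u) → f v = g v → w v f = w v g)
    (hsum : ∀ v f, ∑ c, w v (Function.update f v c) ≤ 1) :
    ∑ f : V → α, ∏ v, w v f ≤ 1 := by
  classical
  have hcomb : ∀ A : Finset V, (Fintype.card α : ℝ) ^ A.card * ∑ f : V → α, ∏ v ∈ A, w v f ≤
      (Fintype.card α : ℝ) ^ Fintype.card V := by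
    intro A
    refine Finset.induction_on_max_value rk A (by simp) fun a s ha hmax ih => ?_
    · 
      rw [Finset.card_insert_of_notMem ha]
      -- the product over s does not depend on the value at a
      have hs : ∀ (f : V → α) (c : α), ∏ v ∈ s, w v (Function.update f a c) = ∏ v ∈ s, w v f := by
        intro f c
        refine Finset.prod_congr rfl fun v hv => ?_
        have hva : v ≠ a := fun h => ha (h ▸ hv)
        refine hdep v _ _ (fun u hu => ?_) ?_
        · have : u ≠ a := by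
            rintro rfl
            exact absurd (hmax v hv) (not_le.2 hu)
          exact Function.update_of_ne this _ _
        · exact Function.update_of_ne hva _ _
      have h1 : (Fintype.card α : ℝ) * ∑ f : V → α, ∏ v ∈ insert a s, w v f ≤
          ∑ f : V → α, ∏ v ∈ s, w v f := by
        rw [← Bayes_avg a]
        refine Finset.sum_le_sum fun f _ => ?_
        have : ∑ c, ∏ v ∈ insert a s, w v (Function.update f a c) =
            (∑ c, w a (Function.update f a c)) * ∏ v ∈ s, w v f := by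
          rw [Finset.sum_mul]
          refine Finset.sum_congr rfl fun c _ => ?_
          rw [Finset.prod_insert ha, hs]
        rw [this]
        calc (∑ c, w a (Function.update f a c)) * ∏ v ∈ s, w v f ≤ 1 * ∏ v ∈ s, w v f :=
              mul_le_mul_of_nonneg_right (hsum a f) (Finset.prod_nonneg fun v _ => h0 v f)
          _ = _ := one_mul _
      calc (Fintype.card α : ℝ) ^ (s.card + 1) * ∑ f : V → α, ∏ v ∈ insert a s, w v f
          = (Fintype.card α : ℝ) ^ s.card * ((Fintype.card α : ℝ) * ∑ f : V → α, ∏ v ∈ insert a s, w v f) := by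
            ring
        _ ≤ (Fintype.card α : ℝ) ^ s.card * ∑ f : V → α, ∏ v ∈ s, w v f :=
            mul_le_mul_of_nonneg_left h1 (by positivity)
        _ ≤ _ := ih
  have h := hcomb Finset.univ
  rw [Finset.card_univ] at h
  rcases Nat.eq_zero_or_pos (Fintype.card α) with h' | h'
  · -- `α` is empty
    rcases Nat.eq_zero_or_pos (Fintype.card V) with h'' | h''
    · rw [h''] at h
      simpa using h
    · obtain ⟨v⟩ := Fintype.card_pos_iff.1 h''
      have he : IsEmpty α := Fintype.card_eq_zero_iff.1 h'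
      have : IsEmpty (V → α) := ⟨fun f => he.elim (f v)⟩
      simp
  · have hp : (0 : ℝ) < (Fintype.card α : ℝ) ^ Fintype.card V := by positivity
    exact (mul_le_iff_le_one_right hp).1 h

end Pool.Agent.LO

end

/-! ### from `Lib_MP_2c424f_lo.KrA` -/

section

/-!
# Kraft inequality, line part (piece KRA)

The sets `SS f v`, `v` on the code lines `{v odd : hh s i v = a}` (lines in direction `i`), are coded
along the lines, from `v i = 0, 1` upwards.  Use `bayes` with the rank `(v i).val`; the sum over a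
finset `B ⊆ Fin q` of `ε ^ |A ∆ B| (1 - ε) ^ (q - |A ∆ B|)` is `1`.
-/

set_option autoImplicit false

open Finset

namespace Pool.Agent.LO

variable {d k q s : ℕ}

open scoped Classical in
/-- weight of the set at `v` -/
noncomputable def w1 (q : ℕ) (ε : ℝ) (s : ℕ) (i : Fin d) (a : ZMod (2 ^ s)) (v : Site d k)
    (g : Site d k → Finset (Fin q)) : ℝ :=
  if ¬ evn v ∧ hh s i v = a then
    (if (v i).val < 2 then Real.exp (-((q : ℝ) * Real.log 2))
      else Real.exp (-(cst ε (g v) (g (v + sv (i, false) + sv (i, false))))))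
  else (if g v = ∅ then 1 else 0)

/-- the coordinate of the site two steps back -/
private theorem KrA_val (hk : 2 ≤ k) (i : Fin d) (v : Site d k) (h : ¬ (v i).val < 2) :
    ((v + sv (i, false) + sv (i, false) : Site d k) i).val = (v i).val - 2 := by
  have h4 : 4 ≤ 2 ^ k := by
    calc 4 = 2 ^ 2 := by norm_num
      _ ≤ 2 ^ k := Nat.pow_le_pow_right (by norm_num) hk
  have hlt : (v i).val < 2 ^ k := ZMod.val_lt _
  have e : (v + sv (i, false) + sv (i, false) : Site d k) i = (((v i).val - 2 : ℕ) : ZMod (2 ^ k)) := by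
    rw [Nat.cast_sub (by omega), ZMod.natCast_zmod_val]
    simp only [Pi.add_apply, sv, Pi.single_eq_same, Bool.false_eq_true, if_false]
    push_cast
    ring
  rw [e, ZMod.val_natCast, Nat.mod_eq_of_lt (by omega)]

/-- the transition probabilities sum to `1` -/
private theorem KrA_trans {ε : ℝ} (he : 0 < ε) (he1 : ε < 1) (B : Finset (Fin q)) :
    ∑ A : Finset (Fin q), Real.exp (-(cst ε A B)) = 1 := by
  classical
  have h1 : ∀ C : Finset (Fin q), Real.exp (-(cst ε (symmDiff C B) B)) =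
      ε ^ C.card * (1 - ε) ^ (q - C.card) := by
    intro C
    unfold cst
    have hC : symmDiff (symmDiff C B) B = C := by
      rw [symmDiff_assoc, symmDiff_self, symmDiff_bot]
    rw [hC]
    have hc : C.card ≤ q := by
      have := Finset.card_le_univ C
      rwa [Fintype.card_fin] at this
    rw [one_div, one_div, Real.log_inv, Real.log_inv]
    have e : -((C.card : ℝ) * -Real.log ε + ((q : ℝ) - C.card) * -Real.log (1 - ε)) =
        Real.log ε * (C.card : ℝ) + Real.log (1 - ε) * ((q - C.card : ℕ) : ℝ) := by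
      rw [Nat.cast_sub hc]; ring
    rw [e, Real.exp_add, Real.exp_mul, Real.exp_mul, Real.exp_log he, Real.exp_log (by linarith),
      Real.rpow_natCast, Real.rpow_natCast]
  have h2 : ∑ A : Finset (Fin q), Real.exp (-(cst ε A B)) =
      ∑ C : Finset (Fin q), Real.exp (-(cst ε (symmDiff C B) B)) := by
    refine Finset.sum_bij' (fun A _ => symmDiff A B) (fun C _ => symmDiff C B)
      (fun _ _ => mem_univ _) (fun _ _ => mem_univ _) ?_ ?_ ?_
    · intro A _
      rw [symmDiff_assoc, symmDiff_self, symmDiff_bot]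
    · intro C _
      rw [symmDiff_assoc, symmDiff_self, symmDiff_bot]
    · intro A _
      rw [symmDiff_assoc, symmDiff_self, symmDiff_bot]
  rw [h2, Finset.sum_congr rfl fun C _ => h1 C]
  have h3 := Fintype.sum_pow_mul_eq_add_pow (Fin q) ε (1 - ε)
  rw [Fintype.card_fin] at h3
  rw [h3]
  simp

theorem kraftA (hk : 2 ≤ k) {ε : ℝ} (he : 0 < ε) (he1 : ε < 1)
    (i : Fin d) (a : ZMod (2 ^ s)) :
    ∑ g : Site d k → Finset (Fin q), ∏ v, w1 q ε s i a v g ≤ 1 := by
  classical
  refine bayes (fun v => (v i).val) (fun v g => w1 q ε s i a v g) ?_ ?_ ?_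
  · intro v g
    unfold w1
    split_ifs
    · exact (Real.exp_pos _).le
    · exact (Real.exp_pos _).le
    · exact zero_le_one
    · exact le_refl _
  · intro v f g hu hv
    by_cases h1 : ¬ evn v ∧ hh s i v = a
    · by_cases h2 : (v i).val < 2
      · simp only [w1, if_pos h1, if_pos h2]
      · have h3 : f (v + sv (i, false) + sv (i, false)) = g (v + sv (i, false) + sv (i, false)) := by
          apply hu
          rw [KrA_val hk i v h2]
          omega
        simp only [w1, if_pos h1, if_neg h2, hv, h3]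
    · simp only [w1, if_neg h1, hv]
  · intro v g
    by_cases h1 : ¬ evn v ∧ hh s i v = a
    · by_cases h2 : (v i).val < 2
      · simp only [w1, if_pos h1, if_pos h2]
        rw [Finset.sum_const, card_univ, Fintype.card_finset, Fintype.card_fin, nsmul_eq_mul]
        rw [Real.exp_neg, mul_comm (q : ℝ), Real.exp_mul, Real.exp_log (by norm_num : (0 : ℝ) < 2),
          Real.rpow_natCast]
        push_cast
        rw [mul_inv_cancel₀ (by positivity)]
      · have hne : v + sv (i, false) + sv (i, false) ≠ v := by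
          intro h
          have := KrA_val hk i v h2
          rw [h] at this
          omega
        have e : ∀ c : Finset (Fin q), w1 q ε s i a v (Function.update g v c) =
            Real.exp (-(cst ε c (g (v + sv (i, false) + sv (i, false))))) := by
          intro c
          simp only [w1, if_pos h1, if_neg h2, Function.update_self, Function.update_of_ne hne]
        rw [Finset.sum_congr rfl fun c _ => e c, KrA_trans he he1]
    · have e : ∀ c : Finset (Fin q), w1 q ε s i a v (Function.update g v c) =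
            if c = ∅ then 1 else 0 := by
        intro c
        simp only [w1, if_neg h1, Function.update_self]
      rw [Finset.sum_congr rfl fun c _ => e c]
      simp

open scoped Classical in
/-- the product of the weights at the actual sets is `exp (-T1)` -/
theorem w1_eq (hs : s ≤ k) (hk : 2 ≤ k) (ε : ℝ) (f : Site d k → Fin q) (i : Fin d)
    (a : ZMod (2 ^ s)) :
    ∏ v, w1 q ε s i a v (fun v => if ¬ evn v ∧ hh s i v = a then SS f v else ∅) =
      Real.exp (-(T1 ε s f i a)) := by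
  have hev : ∀ v : Site d k, evn (v + sv (i, false) + sv (i, false)) ↔ evn v := by
    intro v
    rw [evn_step (by omega), evn_step (by omega), not_not]
  have hh2 : ∀ v : Site d k, hh s i (v + sv (i, false) + sv (i, false)) = hh s i v := by
    intro v
    rw [hh_same hs, hh_same hs]
  unfold T1
  rw [← Finset.sum_neg_distrib, Real.exp_sum]
  have hfil : (ods d k).filter (fun v => hh s i v = a) =
      univ.filter (fun v : Site d k => ¬ evn v ∧ hh s i v = a) := by
    unfold ods
    rw [Finset.filter_filter]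
  rw [hfil, Finset.prod_filter]
  refine Finset.prod_congr rfl fun v _ => ?_
  by_cases h1 : ¬ evn v ∧ hh s i v = a
  · rw [if_pos h1]
    unfold w1
    rw [if_pos h1]
    by_cases h2 : (v i).val < 2
    · rw [if_pos h2, if_pos h2]
    · rw [if_neg h2, if_neg h2]
      beta_reduce
      rw [if_pos h1, if_pos (by rw [hev, hh2]; exact h1)]
  · rw [if_neg h1]
    unfold w1
    beta_reduce
    rw [if_neg h1, if_neg h1, if_pos rfl]

end Pool.Agent.LO

end

/-! ### from `Lib_MP_2c424f_lo.KrB` -/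

section

/-!
# Kraft inequality (piece KRB)

For fixed `i`, `a`, `R` and fixed sets `g v` on the code lines, use `bayes` for `f` with rank `0` on
even sites in `R`, `1` on the other even sites, `2` on odd sites and the weights
`1(f u ∈ g (vv u)) / |g (vv u)|`, `gg (nn (f u)) / aa`, `1(f v ∉ SS f v) / av f v`.  Then sum over `g`
with `kraftA`: `exp (-TT)` is the product of `w1` and of these weights at `g = SS f` on the lines.
-/

set_option autoImplicit false

open Finset

namespace Pool.Agent.LO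

variable {d k q s : ℕ}

private theorem KrB_gg_pos {ε : ℝ} (he : 0 < ε) (n : ℝ) : 0 < gg ε n := by
  unfold gg
  positivity

private theorem KrB_SS_congr {f g : Site d k → Fin q} {v : Site d k}
    (h : ∀ σ : Stp d, f (v + sv σ) = g (v + sv σ)) : SS f v = SS g v := by
  unfold SS
  exact Finset.image_congr fun σ _ => h σ

private theorem KrB_UU_congr {f g : Site d k → Fin q} {R : Finset (Site d k)} {v : Site d k}
    (c : Fin q) (h : ∀ σ : Stp d, v + sv σ ∈ R → f (v + sv σ) = g (v + sv σ)) :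
    UU f R v c = UU g R v c := by
  unfold UU
  have : (∃ σ : Stp d, v + sv σ ∈ R ∧ f (v + sv σ) = c) ↔
      (∃ σ : Stp d, v + sv σ ∈ R ∧ g (v + sv σ) = c) := by
    constructor
    · rintro ⟨σ, h1, h2⟩
      exact ⟨σ, h1, (h σ h1) ▸ h2⟩
    · rintro ⟨σ, h1, h2⟩
      exact ⟨σ, h1, (h σ h1).symm ▸ h2⟩
  simp only [this]

private theorem KrB_nn_congr (hk : 1 ≤ k) {f g : Site d k → Fin q} {R : Finset (Site d k)}
    {u : Site d k} (hu : evn u) (c : Fin q) (h : ∀ w, evn w → w ∈ R → f w = g w) :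
    nn f R u c = nn g R u c := by
  unfold nn
  congr 1
  refine Finset.sum_congr rfl fun σ _ => KrB_UU_congr c fun τ hτ => h _ ?_ hτ
  rw [evn_step hk, evn_step hk, not_not]
  exact hu

private theorem KrB_aa_congr (hk : 1 ≤ k) (ε : ℝ) {f g : Site d k → Fin q}
    {R : Finset (Site d k)} {u : Site d k} (hu : evn u) (h : ∀ w, evn w → w ∈ R → f w = g w) :
    aa ε f R u = aa ε g R u := by
  unfold aa
  exact Finset.sum_congr rfl fun c _ => by rw [KrB_nn_congr hk hu c h]

open scoped Classical in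
/-- the weights of the colours, for given sets on the lines -/
private noncomputable def KrB_w (ε : ℝ) (s : ℕ) (i : Fin d) (a : ZMod (2 ^ s))
    (R : Finset (Site d k)) (g : Site d k → Finset (Fin q)) (v : Site d k)
    (f : Site d k → Fin q) : ℝ :=
  if evn v then
    if v ∈ R then (if f v ∈ g (vv s i a v) then 1 / ((g (vv s i a v)).card : ℝ) else 0)
    else gg ε (nn f R v (f v)) / aa ε f R v
  else (if f v ∈ SS f v then 0 else 1 / (av f v : ℝ))

private theorem KrB_w_nonneg {ε : ℝ} (he : 0 < ε) (i : Fin d) (a : ZMod (2 ^ s))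
    (R : Finset (Site d k)) (g : Site d k → Finset (Fin q)) (v : Site d k)
    (f : Site d k → Fin q) : 0 ≤ KrB_w ε s i a R g v f := by
  unfold KrB_w
  split_ifs
  · positivity
  · exact le_rfl
  · exact div_nonneg (KrB_gg_pos he _).le
      (Finset.sum_nonneg fun c _ => (KrB_gg_pos he _).le)
  · exact le_rfl
  · positivity

open scoped Classical in
/-- ranks -/
private noncomputable def KrB_rk (R : Finset (Site d k)) (v : Site d k) : ℕ :=
  if evn v then (if v ∈ R then 0 else 1) else 2

private theorem KrB_rk_R {R : Finset (Site d k)} {v : Site d k} (hv : evn v) (h : v ∈ R) :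
    KrB_rk R v = 0 := by
  unfold KrB_rk
  rw [if_pos hv, if_pos h]

private theorem KrB_rk_N {R : Finset (Site d k)} {v : Site d k} (hv : evn v) (h : v ∉ R) :
    KrB_rk R v = 1 := by
  unfold KrB_rk
  rw [if_pos hv, if_neg h]

private theorem KrB_rk_odd {R : Finset (Site d k)} {v : Site d k} (hv : ¬ evn v) :
    KrB_rk R v = 2 := by
  unfold KrB_rk
  rw [if_neg hv]

private theorem KrB_rk_evn {R : Finset (Site d k)} {v : Site d k} (hv : evn v) :
    KrB_rk R v < 2 := by
  by_cases h : v ∈ R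
  · rw [KrB_rk_R hv h]; norm_num
  · rw [KrB_rk_N hv h]; norm_num

private theorem KrB_dep (hk : 1 ≤ k) (ε : ℝ) (i : Fin d) (a : ZMod (2 ^ s))
    (R : Finset (Site d k)) (g : Site d k → Finset (Fin q)) (v : Site d k)
    (f f' : Site d k → Fin q) (h : ∀ u, KrB_rk R u < KrB_rk R v → f u = f' u) (h' : f v = f' v) :
    KrB_w ε s i a R g v f = KrB_w ε s i a R g v f' := by
  unfold KrB_w
  by_cases hv : evn v
  · rw [if_pos hv, if_pos hv]
    by_cases hR : v ∈ R
    · rw [if_pos hR, if_pos hR, h']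
    · rw [if_neg hR, if_neg hR]
      have hw : ∀ w, evn w → w ∈ R → f w = f' w := by
        intro w hw hwR
        apply h
        rw [KrB_rk_R hw hwR, KrB_rk_N hv hR]
        norm_num
      rw [h', KrB_nn_congr hk hv _ hw, KrB_aa_congr hk ε hv hw]
  · rw [if_neg hv, if_neg hv]
    have hS : SS f v = SS f' v := by
      apply KrB_SS_congr
      intro σ
      apply h
      rw [KrB_rk_odd hv]
      apply KrB_rk_evn
      rw [evn_step hk]
      exact hv
    unfold av
    rw [hS, h']

private theorem KrB_sum (hk : 1 ≤ k) {ε : ℝ} (he : 0 < ε) (i : Fin d) (a : ZMod (2 ^ s))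
    (R : Finset (Site d k)) (g : Site d k → Finset (Fin q)) (v : Site d k)
    (f : Site d k → Fin q) :
    ∑ c, KrB_w ε s i a R g v (Function.update f v c) ≤ 1 := by
  classical
  unfold KrB_w
  by_cases hv : evn v
  · simp only [if_pos hv]
    by_cases hR : v ∈ R
    · simp only [if_pos hR, Function.update_self]
      rw [← Finset.sum_filter, Finset.sum_const, nsmul_eq_mul, Finset.filter_mem_eq_inter,
        Finset.univ_inter]
      rcases Nat.eq_zero_or_pos (g (vv s i a v)).card with h0 | h0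
      · rw [h0]; norm_num
      · rw [mul_one_div, div_self]
        exact_mod_cast h0.ne'
    · simp only [if_neg hR, Function.update_self]
      have hw : ∀ c, ∀ w, evn w → w ∈ R → (Function.update f v c) w = f w := by
        intro c w _ hwR
        apply Function.update_of_ne
        rintro rfl
        exact hR hwR
      have h1 : ∀ c, gg ε (nn (Function.update f v c) R v c) / aa ε (Function.update f v c) R v
          = gg ε (nn f R v c) / aa ε f R v := by
        intro c
        rw [KrB_nn_congr hk hv c (hw c), KrB_aa_congr hk ε hv (hw c)]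
      simp only [h1]
      rw [← Finset.sum_div]
      exact div_self_le_one _
  · simp only [if_neg hv, Function.update_self]
    have hS : ∀ c, SS (Function.update f v c) v = SS f v := by
      intro c
      apply KrB_SS_congr
      intro σ
      apply Function.update_of_ne
      intro h
      have h2 := evn_step hk v σ
      rw [h] at h2
      exact (not_iff_self h2.symm)
    have h1 : ∀ c, (if c ∈ SS (Function.update f v c) v then (0 : ℝ)
        else 1 / (av (Function.update f v c) v : ℝ)) = if c ∉ SS f v then 1 / (av f v : ℝ) else 0 := by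
      intro c
      unfold av
      rw [hS c]
      by_cases hc : c ∈ SS f v
      · rw [if_pos hc, if_neg (not_not.mpr hc)]
      · rw [if_neg hc, if_pos hc]
    simp only [h1]
    rw [← Finset.sum_filter, Finset.sum_const, nsmul_eq_mul]
    have h2 : ((univ : Finset (Fin q)).filter fun c => c ∉ SS f v).card = av f v := by
      unfold av
      have h3 : ((univ : Finset (Fin q)).filter fun c => c ∉ SS f v) = (SS f v)ᶜ := by
        ext c
        simp
      rw [h3, Finset.card_compl, Fintype.card_fin]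
    rw [h2, mul_one_div]
    exact div_self_le_one _

private theorem KrB_bayes (hk : 1 ≤ k) {ε : ℝ} (he : 0 < ε) (i : Fin d) (a : ZMod (2 ^ s))
    (R : Finset (Site d k)) (g : Site d k → Finset (Fin q)) :
    ∑ f : Site d k → Fin q, ∏ v, KrB_w ε s i a R g v f ≤ 1 :=
  bayes (KrB_rk R) (KrB_w ε s i a R g) (KrB_w_nonneg he i a R g) (KrB_dep hk ε i a R g)
    (KrB_sum hk he i a R g)

open scoped Classical in
/-- the sets on the code lines -/
private noncomputable def KrB_G (s : ℕ) (i : Fin d) (a : ZMod (2 ^ s)) (f : Site d k → Fin q) :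
    Site d k → Finset (Fin q) :=
  fun v => if ¬ evn v ∧ hh s i v = a then SS f v else ∅

private theorem KrB_w1_nonneg (ε : ℝ) (i : Fin d) (a : ZMod (2 ^ s)) (v : Site d k)
    (g : Site d k → Finset (Fin q)) : 0 ≤ w1 q ε s i a v g := by
  unfold w1
  split_ifs
  · exact (Real.exp_pos _).le
  · exact (Real.exp_pos _).le
  · norm_num
  · exact le_rfl

/-- the neighbour on the code lines sees the own colour -/
private theorem KrB_mem (i : Fin d) (a : ZMod (2 ^ s)) (f : Site d k → Fin q) (u : Site d k) :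
    f u ∈ SS f (vv s i a u) := by
  unfold SS vv
  rw [Finset.mem_image]
  refine ⟨((sg s i (a - hh s i u)).1, !(sg s i (a - hh s i u)).2), mem_univ _, ?_⟩
  congr 1
  rw [add_assoc, sv_opp, add_zero]

private theorem KrB_prod (hd : 2 ≤ d) (hk : 2 ≤ k) (hs : s ≤ k) (h1 : d ≤ 2 ^ s)
    (h2 : 2 ^ s < 2 * d) {ε : ℝ} (he : 0 < ε) (i : Fin d) (a : ZMod (2 ^ s))
    (R : Finset (Site d k)) {f : Site d k → Fin q} (hf : Prp f) :
    ∏ v, KrB_w ε s i a R (KrB_G s i a f) v f =
      Real.exp (-(T2 s f i a R + T3 ε f R + T4 f)) := by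
  classical
  have hk1 : 1 ≤ k := by omega
  have hsplit : ∀ F : Site d k → ℝ, ∏ v, F v =
      ((∏ v ∈ (evs d k).filter (fun u => u ∈ R), F v) *
        ∏ v ∈ (evs d k).filter (fun u => u ∉ R), F v) * ∏ v ∈ ods d k, F v := by
    intro F
    rw [Finset.prod_filter_mul_prod_filter_not (evs d k) (fun u => u ∈ R) F]
    unfold evs ods
    rw [Finset.prod_filter_mul_prod_filter_not]
  rw [hsplit]
  have e2 : ∏ v ∈ (evs d k).filter (fun u => u ∈ R), KrB_w ε s i a R (KrB_G s i a f) v f
      = Real.exp (-(T2 s f i a R)) := by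
    unfold T2
    rw [← Finset.sum_neg_distrib, Real.exp_sum]
    apply Finset.prod_congr rfl
    intro u hu
    have hu1 := Finset.mem_filter.mp hu
    have hev : evn u := by
      have := hu1.1
      unfold evs at this
      exact (Finset.mem_filter.mp this).2
    unfold KrB_w
    rw [if_pos hev, if_pos hu1.2]
    have hG : KrB_G s i a f (vv s i a u) = SS f (vv s i a u) := by
      unfold KrB_G
      rw [if_pos]
      refine ⟨?_, hh_vv hs h1 h2 i a u⟩
      rw [evn_vv hk1, not_not]
      exact hev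
    rw [hG, if_pos (KrB_mem i a f u), Real.exp_neg, Real.exp_log, one_div]
    exact_mod_cast SS_card_pos (by omega) f _
  have e3 : ∏ v ∈ (evs d k).filter (fun u => u ∉ R), KrB_w ε s i a R (KrB_G s i a f) v f
      = Real.exp (-(T3 ε f R)) := by
    unfold T3
    rw [← Finset.sum_neg_distrib, Real.exp_sum]
    apply Finset.prod_congr rfl
    intro u hu
    have hu1 := Finset.mem_filter.mp hu
    have hev : evn u := by
      have := hu1.1
      unfold evs at this
      exact (Finset.mem_filter.mp this).2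
    unfold KrB_w
    rw [if_pos hev, if_neg hu1.2]
    have ha : 0 < aa ε f R u := by
      unfold aa
      exact Finset.sum_pos (fun c _ => KrB_gg_pos he _) ⟨f u, mem_univ _⟩
    rw [neg_sub, Real.exp_sub, Real.exp_log (KrB_gg_pos he _), Real.exp_log ha]
  have e4 : ∏ v ∈ ods d k, KrB_w ε s i a R (KrB_G s i a f) v f = Real.exp (-(T4 f)) := by
    unfold T4
    rw [← Finset.sum_neg_distrib, Real.exp_sum]
    apply Finset.prod_congr rfl
    intro v hv
    have hodd : ¬ evn v := by
      unfold ods at hv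
      exact (Finset.mem_filter.mp hv).2
    unfold KrB_w
    rw [if_neg hodd, if_neg]
    · rw [Real.exp_neg, Real.exp_log, one_div]
      have := av_pos hf v
      exact_mod_cast this
    · unfold SS
      rw [Finset.mem_image]
      rintro ⟨σ, _, hσ⟩
      exact hf v σ hσ
  rw [e2, e3, e4, ← Real.exp_add, ← Real.exp_add]
  congr 1
  ring

theorem kraft (hd : 2 ≤ d) (hk : 2 ≤ k) (hs : s ≤ k) (h1 : d ≤ 2 ^ s) (h2 : 2 ^ s < 2 * d)
    {ε : ℝ} (he : 0 < ε) (he1 : ε < 1) (i : Fin d) (a : ZMod (2 ^ s)) (R : Finset (Site d k)) :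
    ∑ f ∈ prps d k q, Real.exp (-(TT ε s f i a R)) ≤ 1 := by
  classical
  have hk1 : 1 ≤ k := by omega
  have hterm : ∀ f ∈ prps d k q, Real.exp (-(TT ε s f i a R)) ≤
      ∑ g : Site d k → Finset (Fin q), (∏ v, w1 q ε s i a v g) *
        ∏ v, KrB_w ε s i a R g v f := by
    intro f hf
    have hP : Prp f := by
      unfold prps at hf
      exact (Finset.mem_filter.mp hf).2
    have h3 : Real.exp (-(TT ε s f i a R)) =
        (∏ v, w1 q ε s i a v (KrB_G s i a f)) * ∏ v, KrB_w ε s i a R (KrB_G s i a f) v f := by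
      rw [KrB_prod hd hk hs h1 h2 he i a R hP]
      have h4 : ∏ v, w1 q ε s i a v (KrB_G s i a f) = Real.exp (-(T1 ε s f i a)) :=
        w1_eq hs hk ε f i a
      rw [h4, ← Real.exp_add]
      congr 1
      unfold TT
      ring
    rw [h3]
    exact Finset.single_le_sum
      (f := fun g : Site d k → Finset (Fin q) => (∏ v, w1 q ε s i a v g) *
        ∏ v, KrB_w ε s i a R g v f)
      (fun g _ => mul_nonneg (Finset.prod_nonneg fun v _ => KrB_w1_nonneg ε i a v g)
        (Finset.prod_nonneg fun v _ => KrB_w_nonneg he i a R g v f)) (mem_univ _)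
  calc ∑ f ∈ prps d k q, Real.exp (-(TT ε s f i a R))
      ≤ ∑ f ∈ prps d k q, ∑ g : Site d k → Finset (Fin q), (∏ v, w1 q ε s i a v g) *
        ∏ v, KrB_w ε s i a R g v f := Finset.sum_le_sum hterm
    _ ≤ ∑ f : Site d k → Fin q, ∑ g : Site d k → Finset (Fin q), (∏ v, w1 q ε s i a v g) *
        ∏ v, KrB_w ε s i a R g v f := by
        apply Finset.sum_le_sum_of_subset_of_nonneg (Finset.subset_univ _)
        intro f _ _
        exact Finset.sum_nonneg fun g _ =>
          mul_nonneg (Finset.prod_nonneg fun v _ => KrB_w1_nonneg ε i a v g)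
            (Finset.prod_nonneg fun v _ => KrB_w_nonneg he i a R g v f)
    _ = ∑ g : Site d k → Finset (Fin q), (∏ v, w1 q ε s i a v g) *
        ∑ f : Site d k → Fin q, ∏ v, KrB_w ε s i a R g v f := by
        rw [Finset.sum_comm]
        exact Finset.sum_congr rfl fun g _ => by rw [Finset.mul_sum]
    _ ≤ ∑ g : Site d k → Finset (Fin q), (∏ v, w1 q ε s i a v g) * 1 := by
        apply Finset.sum_le_sum
        intro g _
        exact mul_le_mul_of_nonneg_left (KrB_bayes hk1 he i a R g)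
          (Finset.prod_nonneg fun v _ => KrB_w1_nonneg ε i a v g)
    _ = ∑ g : Site d k → Finset (Fin q), ∏ v, w1 q ε s i a v g := by
        simp only [mul_one]
    _ ≤ 1 := kraftA hk he he1 i a

end Pool.Agent.LO

end

/-! ### from `Lib_MP_2c424f_cor.F01` -/

section

/-!
# Lines (piece F01, (F1) abstract)

`P = piFinset s`, `|P| = ∏ |s i|`.  For `t, t' ∈ P` let `u m` (`m = 0, …, d`) be the point with coordinates `t' i` for `i < m` and `t i`
for `i ≥ m`.  `(t, t')` is called bad at `m < d` if the line `{update (u m) m y : y ∈ s m}` meets `B`.  For fixed `m` the map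
`(t,t') ↦ (u m, complementary point)` is a bijection of `P × P`, and at most `|B| |s m| ≤ |B| w ≤ |P|/(100 d)` points `u ∈ P` have a
line in direction `m` which meets `B`; so at most `|P|²/(100 d)` pairs are bad at `m`, at most `|P|²/100` pairs are bad.  For a pair
which is not bad: `lab t = lab t'` (`hl` along the path), `t, t' ∉ B` (`d ≥ 1`).  So some `t` has at least `0.99 |P|` partners `t'`;
`A = lab t`.
-/

set_option autoImplicit false

open Finset

namespace Pool.Agent.COR

private def mixp {d : ℕ} {α : Type} (t t' : Fin d → α) (m : ℕ) : Fin d → α :=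
  fun i => if i.val < m then t' i else t i

private theorem mixp_zero {d : ℕ} {α : Type} (t t' : Fin d → α) : mixp t t' 0 = t := by
  funext i; simp [mixp]

private theorem mixp_full {d : ℕ} {α : Type} (t t' : Fin d → α) : mixp t t' d = t' := by
  funext i; simp [mixp, i.isLt]

private theorem mixp_succ {d : ℕ} {α : Type} (t t' : Fin d → α) (m : Fin d) :
    mixp t t' (m.val + 1) = Function.update (mixp t t' m.val) m (t' m) := by
  classical
  funext i
  by_cases h : i = m
  · subst h; simp [mixp]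
  · have h' : i.val ≠ m.val := fun e => h (Fin.ext e)
    rw [Function.update_of_ne h]
    simp only [mixp]
    have : (i.val < m.val + 1) ↔ (i.val < m.val) := by omega
    simp [this]

private theorem mixp_mem {d : ℕ} {α : Type} (s : Fin d → Finset α) (t t' : Fin d → α)
    (ht : t ∈ Fintype.piFinset s) (ht' : t' ∈ Fintype.piFinset s) (m : ℕ) :
    mixp t t' m ∈ Fintype.piFinset s := by
  rw [Fintype.mem_piFinset] at *
  intro i
  simp only [mixp]
  split_ifs
  · exact ht' i
  · exact ht i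

private theorem mixp_inj {d : ℕ} {α : Type} (t t' v v' : Fin d → α) (m : ℕ)
    (h1 : mixp t t' m = mixp v v' m) (h2 : mixp t' t m = mixp v' v m) : t = v ∧ t' = v' := by
  constructor
  · funext i
    by_cases h : i.val < m
    · have := congrFun h2 i
      simpa [mixp, h] using this
    · have := congrFun h1 i
      simpa [mixp, h] using this
  · funext i
    by_cases h : i.val < m
    · have := congrFun h1 i
      simpa [mixp, h] using this
    · have := congrFun h2 i
      simpa [mixp, h] using this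

open scoped Classical in
private noncomputable def lbad {d : ℕ} {α : Type} (s : Fin d → Finset α) (B : Finset (Fin d → α))
    (m : Fin d) : Finset (Fin d → α) :=
  (Fintype.piFinset s).filter fun v => ∃ y ∈ s m, Function.update v m y ∈ B

open scoped Classical in
private theorem lbad_card {d : ℕ} {α : Type} (s : Fin d → Finset α) (B : Finset (Fin d → α))
    (m : Fin d) : (lbad s B m).card ≤ B.card * (s m).card := by
  have hsub : lbad s B m ⊆ (B ×ˢ s m).image (fun p => Function.update p.1 m p.2) := by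
    intro v hv
    simp only [lbad, Finset.mem_filter, Fintype.mem_piFinset] at hv
    obtain ⟨hvP, y, hy, hyB⟩ := hv
    rw [Finset.mem_image]
    refine ⟨(Function.update v m y, v m), Finset.mem_product.2 ⟨hyB, hvP m⟩, ?_⟩
    simp
  calc (lbad s B m).card ≤ ((B ×ˢ s m).image (fun p => Function.update p.1 m p.2)).card :=
        Finset.card_le_card hsub
    _ ≤ (B ×ˢ s m).card := Finset.card_image_le
    _ = B.card * (s m).card := Finset.card_product _ _

open scoped Classical in
private theorem pairs_card {d : ℕ} {α : Type} (s : Fin d → Finset α) (B : Finset (Fin d → α))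
    (m : Fin d) :
    (((Fintype.piFinset s) ×ˢ (Fintype.piFinset s)).filter
      fun p => mixp p.1 p.2 m.val ∈ lbad s B m).card ≤
      (lbad s B m).card * (Fintype.piFinset s).card := by
  rw [← Finset.card_product]
  apply Finset.card_le_card_of_injOn (fun p => (mixp p.1 p.2 m.val, mixp p.2 p.1 m.val))
  · intro p hp
    simp only [Finset.coe_filter, Finset.mem_product, Set.mem_ofPred_eq] at hp
    simp only [Finset.coe_product, Set.mem_prod, Finset.mem_coe]
    exact ⟨hp.2, mixp_mem s _ _ hp.1.2 hp.1.1 _⟩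
  · intro p _ q _ hpq
    simp only [Prod.mk.injEq] at hpq
    obtain ⟨h1, h2⟩ := mixp_inj _ _ _ _ _ hpq.1 hpq.2
    exact Prod.ext h1 h2

open scoped Classical in
theorem lines {d : ℕ} (hd : 1 ≤ d) {α L : Type} (s : Fin d → Finset α) (hne : ∀ i, (s i).Nonempty) (w : ℝ)
    (hs : ∀ i, ((s i).card : ℝ) ≤ w) (B : Finset (Fin d → α))
    (hB : (B.card : ℝ) * (100 * d * w) ≤ ∏ i, ((s i).card : ℝ)) (lab : (Fin d → α) → L)
    (hl : ∀ t ∈ Fintype.piFinset s, ∀ i, ∀ x ∈ s i, (∀ y ∈ s i, Function.update t i y ∉ B) →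
      lab (Function.update t i x) = lab t) :
    ∃ A : L, 49 / 50 * ∏ i, ((s i).card : ℝ) ≤
      (((Fintype.piFinset s).filter fun t => t ∉ B ∧ lab t = A).card : ℝ) := by
  have hPc : ((Fintype.piFinset s).card : ℝ) = ∏ i, ((s i).card : ℝ) := by
    rw [Fintype.card_piFinset]; push_cast; rfl
  rw [← hPc] at hB ⊢
  set P := Fintype.piFinset s with hPdef
  have hPne : P.Nonempty := Fintype.piFinset_nonempty.2 hne
  have hPpos : (0 : ℝ) < P.card := by exact_mod_cast hPne.card_pos
  have hd0 : (0 : ℝ) < d := by exact_mod_cast hd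
  -- bad pairs
  set bp : (Fin d → α) → (Fin d → α) → Prop := fun t t' => ∃ m : Fin d, mixp t t' m.val ∈ lbad s B m
    with hbp
  have hbound : (((P ×ˢ P).filter fun p => bp p.1 p.2).card : ℝ) ≤ (P.card : ℝ) ^ 2 / 100 := by
    have h1 : ((P ×ˢ P).filter fun p => bp p.1 p.2).card ≤
        ∑ m : Fin d, ((P ×ˢ P).filter fun p => mixp p.1 p.2 m.val ∈ lbad s B m).card := by
      have hsub : ((P ×ˢ P).filter fun p => bp p.1 p.2) ⊆
          (Finset.univ : Finset (Fin d)).biUnion
            (fun m => (P ×ˢ P).filter fun p => mixp p.1 p.2 m.val ∈ lbad s B m) := by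
        intro p hp
        rw [Finset.mem_filter] at hp
        obtain ⟨hp1, m, hm⟩ := hp
        rw [Finset.mem_biUnion]
        exact ⟨m, Finset.mem_univ _, Finset.mem_filter.2 ⟨hp1, hm⟩⟩
      exact (Finset.card_le_card hsub).trans Finset.card_biUnion_le
    have h2 : ∀ m : Fin d, ((((P ×ˢ P).filter fun p => mixp p.1 p.2 m.val ∈ lbad s B m).card : ℕ) : ℝ)
        ≤ (B.card : ℝ) * w * P.card := by
      intro m
      have ha := pairs_card s B m
      have hb := lbad_card s B m
      have hc : ((P ×ˢ P).filter fun p => mixp p.1 p.2 m.val ∈ lbad s B m).card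
          ≤ B.card * (s m).card * P.card := ha.trans (Nat.mul_le_mul_right _ hb)
      have hc' : ((((P ×ˢ P).filter fun p => mixp p.1 p.2 m.val ∈ lbad s B m).card : ℕ) : ℝ)
          ≤ (B.card : ℝ) * (s m).card * P.card := by exact_mod_cast hc
      refine hc'.trans ?_
      apply mul_le_mul_of_nonneg_right _ hPpos.le
      exact mul_le_mul_of_nonneg_left (hs m) (Nat.cast_nonneg _)
    calc (((P ×ˢ P).filter fun p => bp p.1 p.2).card : ℝ)
        ≤ ∑ m : Fin d, ((((P ×ˢ P).filter fun p => mixp p.1 p.2 m.val ∈ lbad s B m).card : ℕ) : ℝ) := by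
          exact_mod_cast h1
      _ ≤ ∑ _m : Fin d, (B.card : ℝ) * w * P.card := Finset.sum_le_sum fun m _ => h2 m
      _ = d * ((B.card : ℝ) * w * P.card) := by simp
      _ = ((B.card : ℝ) * (100 * d * w)) * P.card / 100 := by ring
      _ ≤ (P.card : ℝ) * P.card / 100 := by
          apply div_le_div_of_nonneg_right _ (by norm_num)
          exact mul_le_mul_of_nonneg_right hB hPpos.le
      _ = (P.card : ℝ) ^ 2 / 100 := by ring
  -- averaging
  have hsum : (((P ×ˢ P).filter fun p => bp p.1 p.2).card : ℝ) =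
      ∑ t ∈ P, ((P.filter fun t' => bp t t').card : ℝ) := by
    rw [Finset.card_filter, Finset.sum_product]
    push_cast
    apply Finset.sum_congr rfl
    intro t _
    rw [Finset.card_filter]
    push_cast
    rfl
  obtain ⟨t, htP, ht⟩ : ∃ t ∈ P, ((P.filter fun t' => bp t t').card : ℝ) ≤ (P.card : ℝ) / 100 := by
    by_contra hcon
    push Not at hcon
    have h3 : ∑ t ∈ P, ((P.card : ℝ) / 100) < ∑ t ∈ P, ((P.filter fun t' => bp t t').card : ℝ) :=
      Finset.sum_lt_sum_of_nonempty hPne hcon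
    rw [← hsum] at h3
    simp only [Finset.sum_const, nsmul_eq_mul] at h3
    have : (P.card : ℝ) * ((P.card : ℝ) / 100) = (P.card : ℝ) ^ 2 / 100 := by ring
    rw [this] at h3
    exact absurd hbound (not_le.2 h3)
  refine ⟨lab t, ?_⟩
  have hgood : ∀ t' ∈ P, ¬ bp t t' → t' ∉ B ∧ lab t' = lab t := by
    intro t' ht' hnb
    have hmiss : ∀ m : Fin d, ∀ y ∈ s m, Function.update (mixp t t' m.val) m y ∉ B := by
      intro m y hy hin
      apply hnb
      refine ⟨m, ?_⟩
      simp only [lbad, Finset.mem_filter]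
      exact ⟨mixp_mem s t t' htP ht' _, y, hy, hin⟩
    have ht'm : ∀ m, t' m ∈ s m := Fintype.mem_piFinset.1 ht'
    have hlab : ∀ m : ℕ, m ≤ d → lab (mixp t t' m) = lab t := by
      intro m
      induction m with
      | zero => intro _; rw [mixp_zero]
      | succ m ih =>
        intro hm
        have hmd : m < d := hm
        have := mixp_succ t t' ⟨m, hmd⟩
        simp only at this
        rw [this, hl _ (mixp_mem s t t' htP ht' _) _ _ (ht'm _) (hmiss ⟨m, hmd⟩)]
        exact ih (by omega)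
    constructor
    · have hm : d - 1 < d := by omega
      have h5 := mixp_succ t t' ⟨d - 1, hm⟩
      simp only at h5
      have h6 : d - 1 + 1 = d := by omega
      rw [h6, mixp_full] at h5
      rw [h5]
      exact hmiss ⟨d - 1, hm⟩ _ (ht'm _)
    · have h7 := hlab d le_rfl
      rwa [mixp_full] at h7
  have hsplit : (P.filter fun t' => bp t t').card + (P.filter fun t' => ¬ bp t t').card = P.card :=
    Finset.card_filter_add_card_filter_not _
  have hle : (P.filter fun t' => ¬ bp t t').card ≤ (P.filter fun t' => t' ∉ B ∧ lab t' = lab t).card := by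
    apply Finset.card_le_card
    intro t' ht'
    rw [Finset.mem_filter] at ht' ⊢
    exact ⟨ht'.1, hgood t' ht'.1 ht'.2⟩
  have hsplit' : ((P.filter fun t' => bp t t').card : ℝ) + ((P.filter fun t' => ¬ bp t t').card : ℝ)
      = P.card := by exact_mod_cast hsplit
  have hle' : ((P.filter fun t' => ¬ bp t t').card : ℝ) ≤
      ((P.filter fun t' => t' ∉ B ∧ lab t' = lab t).card : ℝ) := by exact_mod_cast hle
  linarith

end Pool.Agent.COR

end

/-! ### from `Lib_MP_2c424f_lc5.V10a` -/

section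

/-!
# Part V, V10a: the four ways to be joined to two points

`x` a point with `|Rv G f x| ≥ q/3`, `|Rv G g x| ≥ q/3`; `(u, v)` uniform in `Rv G f x × Rv G g x`.
`cj J f g y u v ∧ cj J f g y' u v` implies one of:
 1. `u = g y = g y'`, `u ∉ J`;   2. `v = f y = f y'`, `v ∉ J`;   3. `u = g y ∉ J`, `v = f y' ∉ J`;   4. `v = f y ∉ J`, `u = g y' ∉ J`.
Number of pairs `(u, v)` in case 1: at most `1[g y ∈ Rv G f x, g y ∉ J, g y' = g y] |Rv G g x|`; divided by `|Rv f| |Rv g|` and
`1/|Rv f| ≤ 3/q`; case 2 the same with `f`, `g` exchanged; cases 3, 4: at most one pair, and `1/(|Rv f| |Rv g|) ≤ 9/q²`.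
Sum over the neighbours `y' ≠ y` of `x`: `#{y' ~ x, y' ≠ y, g y' = g y} = nc G g x y (g y)`.
-/

set_option autoImplicit false

open Finset Filter

namespace Pool.Agent.LC

open Pool.Agent.LO Pool.Agent.LIN Pool.Agent.THR Pool.Agent.COR

open scoped Classical in
private theorem V10a_card {Λ : Type} [Fintype Λ] {q : ℕ} (G : SimpleGraph Λ) (J : Finset (Fin q))
    (f g : Λ → Fin q) (x y y' : Λ) :
    ((Rv G f x ×ˢ Rv G g x).filter fun w => cj J f g y w.1 w.2 ∧ cj J f g y' w.1 w.2).card ≤
      (if (g y ∈ Rv G f x ∧ g y ∉ J) ∧ g y' = g y then (Rv G g x).card else 0) +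
      (if (f y ∈ Rv G g x ∧ f y ∉ J) ∧ f y' = f y then (Rv G f x).card else 0) +
      (if f y' ∈ Rv G g x ∧ f y' ∉ J then 1 else 0) +
      (if g y' ∈ Rv G f x ∧ g y' ∉ J then 1 else 0) := by
  have hsub : ((Rv G f x ×ˢ Rv G g x).filter fun w => cj J f g y w.1 w.2 ∧ cj J f g y' w.1 w.2) ⊆
      (((if (g y ∈ Rv G f x ∧ g y ∉ J) ∧ g y' = g y then {g y} ×ˢ Rv G g x else ∅) ∪
      (if (f y ∈ Rv G g x ∧ f y ∉ J) ∧ f y' = f y then Rv G f x ×ˢ {f y} else ∅)) ∪
      (if f y' ∈ Rv G g x ∧ f y' ∉ J then {(g y, f y')} else ∅)) ∪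
      (if g y' ∈ Rv G f x ∧ g y' ∉ J then {(g y', f y)} else ∅) := by
    rintro ⟨u, v⟩ hw
    rw [mem_filter, mem_product] at hw
    obtain ⟨⟨hu, hv⟩, h1, h2⟩ := hw
    simp only at hu hv h1 h2
    rw [mem_union, mem_union, mem_union]
    rcases h1 with ⟨h1, h1J⟩ | ⟨h1, h1J⟩ <;> rcases h2 with ⟨h2, h2J⟩ | ⟨h2, h2J⟩
    · refine Or.inl (Or.inl (Or.inl ?_))
      have e : g y' = g y := by rw [← h2, ← h1]
      rw [if_pos ⟨⟨by rw [← h1]; exact hu, by rw [← h1]; exact h1J⟩, e⟩, mem_product]
      exact ⟨mem_singleton.2 h1, hv⟩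
    · refine Or.inl (Or.inr ?_)
      rw [if_pos ⟨by rw [← h2]; exact hv, by rw [← h2]; exact h2J⟩, mem_singleton, h1, h2]
    · refine Or.inr ?_
      rw [if_pos ⟨by rw [← h2]; exact hu, by rw [← h2]; exact h2J⟩, mem_singleton, h1, h2]
    · refine Or.inl (Or.inl (Or.inr ?_))
      have e : f y' = f y := by rw [← h2, ← h1]
      rw [if_pos ⟨⟨by rw [← h1]; exact hv, by rw [← h1]; exact h1J⟩, e⟩, mem_product]
      exact ⟨hu, mem_singleton.2 h1⟩
  refine (card_le_card hsub).trans ?_
  refine (card_union_le _ _).trans (add_le_add ?_ ?_)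
  · refine (card_union_le _ _).trans (add_le_add ?_ ?_)
    · refine (card_union_le _ _).trans (add_le_add ?_ ?_)
      · split_ifs
        · rw [card_product, card_singleton, one_mul]
        · rw [card_empty]
      · split_ifs
        · rw [card_product, card_singleton, mul_one]
        · rw [card_empty]
    · split_ifs
      · rw [card_singleton]
      · rw [card_empty]
  · split_ifs
    · rw [card_singleton]
    · rw [card_empty]

open scoped Classical in
private theorem V10a_pc {Λ : Type} [Fintype Λ] {q : ℕ} (G : SimpleGraph Λ) (J : Finset (Fin q))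
    (f g : Λ → Fin q) (x y y' : Λ) (hq : 1 ≤ q) (hf : (q : ℝ) / 3 ≤ ((Rv G f x).card : ℝ))
    (hg : (q : ℝ) / 3 ≤ ((Rv G g x).card : ℝ)) :
    pc G J f g x y y' ≤
      3 / q * (if (g y ∈ Rv G f x ∧ g y ∉ J) ∧ g y' = g y then (1 : ℝ) else 0) +
      3 / q * (if (f y ∈ Rv G g x ∧ f y ∉ J) ∧ f y' = f y then (1 : ℝ) else 0) +
      9 / (q : ℝ) ^ 2 * (if f y' ∈ Rv G g x ∧ f y' ∉ J then (1 : ℝ) else 0) +
      9 / (q : ℝ) ^ 2 * (if g y' ∈ Rv G f x ∧ g y' ∉ J then (1 : ℝ) else 0) := by
  have hq0 : (0 : ℝ) < q := by exact_mod_cast hq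
  have hcard := V10a_card G J f g x y y'
  unfold pc
  set a : ℝ := ((Rv G f x).card : ℝ) with ha
  set b : ℝ := ((Rv G g x).card : ℝ) with hb
  have ha0 : 0 < a := lt_of_lt_of_le (by positivity) hf
  have hb0 : 0 < b := lt_of_lt_of_le (by positivity) hg
  have h1 : 1 / a ≤ 3 / q := by
    rw [div_le_div_iff₀ ha0 hq0]
    linarith
  have h2 : 1 / b ≤ 3 / q := by
    rw [div_le_div_iff₀ hb0 hq0]
    linarith
  have h3 : 1 / (a * b) ≤ 9 / (q : ℝ) ^ 2 := by
    have h4 : 1 / (a * b) = 1 / a * (1 / b) := by rw [one_div_mul_one_div]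
    have h5 : (9 : ℝ) / (q : ℝ) ^ 2 = 3 / q * (3 / q) := by ring
    rw [h4, h5]
    exact mul_le_mul h1 h2 (by positivity) (by positivity)
  have hc : (((Rv G f x ×ˢ Rv G g x).filter fun w => cj J f g y w.1 w.2 ∧
      cj J f g y' w.1 w.2).card : ℝ) ≤
      (if (g y ∈ Rv G f x ∧ g y ∉ J) ∧ g y' = g y then b else 0) +
      (if (f y ∈ Rv G g x ∧ f y ∉ J) ∧ f y' = f y then a else 0) +
      (if f y' ∈ Rv G g x ∧ f y' ∉ J then 1 else 0) +
      (if g y' ∈ Rv G f x ∧ g y' ∉ J then 1 else 0) := by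
    rw [ha, hb]
    exact_mod_cast hcard
  refine (div_le_div_of_nonneg_right hc (mul_pos ha0 hb0).le).trans ?_
  rw [add_div, add_div, add_div]
  refine add_le_add (add_le_add (add_le_add ?_ ?_) ?_) ?_
  · split_ifs
    · rw [mul_one]
      refine le_trans (le_of_eq ?_) h1
      field_simp
    · rw [zero_div, mul_zero]
  · split_ifs
    · rw [mul_one]
      refine le_trans (le_of_eq ?_) h2
      field_simp
    · rw [zero_div, mul_zero]
  · split_ifs
    · rw [mul_one]
      exact h3
    · rw [zero_div, mul_zero]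
  · split_ifs
    · rw [mul_one]
      exact h3
    · rw [zero_div, mul_zero]

open scoped Classical in
private theorem V10a_nc {Λ : Type} [Fintype Λ] {q : ℕ} (G : SimpleGraph Λ) (h : Λ → Fin q)
    (x y : Λ) (p : Prop) [Decidable p] :
    ∑ y' ∈ (nb G x).erase y, (if p ∧ h y' = h y then (1 : ℝ) else 0) ≤
      if p then (nc G h x y (h y) : ℝ) else 0 := by
  by_cases hp : p
  · simp only [hp, true_and, if_true]
    rw [sum_boole]
    refine Nat.cast_le.2 (card_le_card fun z hz => ?_)
    rw [mem_filter, mem_erase, nb, mem_filter] at hz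
    rw [mem_filter]
    exact ⟨mem_univ _, hz.1.2.2, hz.1.1, hz.2⟩
  · simp [hp]

open scoped Classical in
private theorem V10a_filter {Λ : Type} [Fintype Λ] (G : SimpleGraph Λ)
    (x y : Λ) (p : Λ → Prop) [DecidablePred p] :
    ∑ y' ∈ (nb G x).erase y, (if p y' then (1 : ℝ) else 0) ≤ (((nb G x).filter p).card : ℝ) := by
  rw [sum_boole]
  exact Nat.cast_le.2 (card_le_card (filter_subset_filter _ (erase_subset _ _)))

open scoped Classical in
theorem pc_row {Λ : Type} [Fintype Λ] {q : ℕ} (G : SimpleGraph Λ) (J : Finset (Fin q)) (f g : Λ → Fin q) (x y : Λ)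
    (hq : 1 ≤ q) (hf : (q : ℝ) / 3 ≤ ((Rv G f x).card : ℝ)) (hg : (q : ℝ) / 3 ≤ ((Rv G g x).card : ℝ)) :
    ∑ y' ∈ (nb G x).erase y, pc G J f g x y y' ≤
      3 / q * (if g y ∈ Rv G f x ∧ g y ∉ J then (nc G g x y (g y) : ℝ) else 0) +
      3 / q * (if f y ∈ Rv G g x ∧ f y ∉ J then (nc G f x y (f y) : ℝ) else 0) +
      9 / (q : ℝ) ^ 2 * (((nb G x).filter fun y' => f y' ∈ Rv G g x ∧ f y' ∉ J).card : ℝ) +
      9 / (q : ℝ) ^ 2 * (((nb G x).filter fun y' => g y' ∈ Rv G f x ∧ g y' ∉ J).card : ℝ) := by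
  have hq0 : (0 : ℝ) < q := by exact_mod_cast hq
  refine (sum_le_sum fun y' _ => V10a_pc G J f g x y y' hq hf hg).trans ?_
  rw [sum_add_distrib, sum_add_distrib, sum_add_distrib, ← mul_sum, ← mul_sum, ← mul_sum,
    ← mul_sum]
  refine add_le_add (add_le_add (add_le_add ?_ ?_) ?_) ?_
  · exact mul_le_mul_of_nonneg_left (V10a_nc G g x y _) (by positivity)
  · exact mul_le_mul_of_nonneg_left (V10a_nc G f x y _) (by positivity)
  · exact mul_le_mul_of_nonneg_left (V10a_filter G x y _) (by positivity)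
  · exact mul_le_mul_of_nonneg_left (V10a_filter G x y _) (by positivity)

end Pool.Agent.LC

end

/-! ### from `Lib_MP_2c424f_thr.B3b` -/

section

/-!
# THR B3b: fluctuation of the block densities (paper proof: B3, first part)

Index type: `Fin q × Shp d`.  `Ψ f = ∑_t (Ms s t (bq c f - gg c f))²`, class `false` (odd sites; the colours of the odd sites are independent given the even ones, `gg c` at an odd site is
constant on the fibre and equal to the mean of `bq c`: `fm_ind`).
* Mean: `fm_var` with `c_v = q Ww s t v`: `fm (Ms ..)² ≤ 4 q² ∑ Ww² ≤ 4 q² · 4/2^d` (`Ww_max`, `Ww_one`); sum over `t`: `≤ NN d k · 16 q²/2^d ≤ NN d k/(2 d^4)` for large `d` (`q ≤ 2d`).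
* `Lip`: a change at `v` changes `Ms ..` by at most `q Ww s t v`, `|Ms ..| ≤ q`, so the square by at most `2 q² Ww s t v`; sum over `t`: `8 q²/2^d ≤ d³/2^d` (`Ww_sum`).
* `WOPb_tail` with `κ = 3`, `K = 5`.
-/

set_option autoImplicit false

open Finset Filter

namespace Pool.Agent.THR

open Pool.Agent.LO Pool.Agent.LIN

section B3baux
variable {d k q : ℕ}

/-- the fluctuation of the block density -/
private noncomputable def B3bF (s : Shp d) (t : Blk d k) (c : Fin q) (f : Site d (k + 1) → Fin q) : ℝ :=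
  Ms s t fun x => bq c f x - gg c f x

private theorem B3b_gg {f h : Site d (k + 1) → Fin q} (hh : h ∈ fib false f) (x : Site d (k + 1))
    (hx : x ∈ cls false d (k + 1)) (c : Fin q) : gg c h x = gg c f x := by
  have h1 : SS h x = SS f x := fib_SS (by omega) false hh x hx
  unfold gg zz av
  rw [h1]

private theorem B3b_upd {f h : Site d (k + 1) → Fin q} (hh : h ∈ fib false f) (v : Site d (k + 1))
    (hv : v ∈ cls false d (k + 1)) (γ : Fin q) (hγ : γ ∉ SS f v) : Function.update h v γ ∈ fib false f := by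
  classical
  unfold fib at hh ⊢
  rw [Fintype.mem_piFinset] at hh ⊢
  intro x
  by_cases hx : x = v
  · subst hx
    rw [Function.update_self, if_pos hv]
    exact mem_compl.2 hγ
  · rw [Function.update_of_ne hx]
    exact hh x

private theorem B3b_bq0 (c : Fin q) (f : Site d (k + 1) → Fin q) (x : Site d (k + 1)) :
    0 ≤ bq c f x ∧ bq c f x ≤ q := by
  unfold bq
  have h0 : (0 : ℝ) ≤ q := Nat.cast_nonneg q
  split_ifs
  · exact ⟨h0, le_rfl⟩
  · exact ⟨le_rfl, h0⟩

private theorem B3b_gg0 (c : Fin q) {f : Site d (k + 1) → Fin q} (hf : Prp f) (x : Site d (k + 1)) :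
    0 ≤ gg c f x ∧ gg c f x ≤ q := by
  have h1 : gg c f x = q * (zz f x c / (av f x : ℝ)) := by
    unfold gg
    rw [mul_div_assoc]
  have h0 : (0 : ℝ) ≤ q := Nat.cast_nonneg q
  obtain ⟨h2, h3⟩ := zz_av_le hf x c
  rw [h1]
  exact ⟨mul_nonneg h0 h2, mul_le_of_le_one_right h0 h3⟩

/-- on the fibre -/
private theorem B3b_repr (s : Shp d) (t : Blk d k) (c : Fin q) {f h : Site d (k + 1) → Fin q}
    (hh : h ∈ fib false f) :
    B3bF s t c h = ∑ x ∈ cls false d (k + 1), Ww s t x * (bq c h x - gg c f x) := by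
  classical
  unfold B3bF
  rw [Ww_repr]
  have h1 : ∑ x ∈ cls false d (k + 1), Ww s t x * (bq c h x - gg c f x) =
      ∑ x ∈ cls false d (k + 1), Ww s t x * (bq c h x - gg c h x) := by
    refine sum_congr rfl fun x hx => ?_
    rw [B3b_gg hh x hx c]
  rw [h1]
  refine (sum_subset (subset_univ _) fun x _ hx => ?_).symm
  rw [Ww_par s t x hx, zero_mul]

private theorem B3b_abs (hd : 2 ≤ d) (s : Shp d) (t : Blk d k) (c : Fin q) {f h : Site d (k + 1) → Fin q}
    (hf : Prp f) (hh : h ∈ fib false f) : |B3bF s t c h| ≤ q := by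
  rw [B3b_repr s t c hh]
  refine (abs_sum_le_sum_abs _ _).trans ?_
  have h1 : ∀ x ∈ cls false d (k + 1), |Ww s t x * (bq c h x - gg c f x)| ≤ Ww s t x * q := by
    intro x _
    rw [abs_mul, abs_of_nonneg (Ww_nonneg s t x)]
    refine mul_le_mul_of_nonneg_left ?_ (Ww_nonneg s t x)
    obtain ⟨a1, a2⟩ := B3b_bq0 c h x
    obtain ⟨a3, a4⟩ := B3b_gg0 c hf x
    rw [abs_le]
    constructor <;> linarith
  refine (sum_le_sum h1).trans ?_
  rw [← sum_mul]
  have h2 : ∑ x ∈ cls false d (k + 1), Ww s t x ≤ 1 := by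
    rw [← Ww_one hd s t]
    exact sum_le_sum_of_subset_of_nonneg (subset_univ _) fun x _ _ => Ww_nonneg s t x
  exact mul_le_of_le_one_left (Nat.cast_nonneg q) h2

private theorem B3b_diff (s : Shp d) (t : Blk d k) (c : Fin q) {f h : Site d (k + 1) → Fin q}
    (hh : h ∈ fib false f) (v : Site d (k + 1)) (hv : v ∈ cls false d (k + 1)) (γ : Fin q) (hγ : γ ∉ SS f v) :
    |B3bF s t c (Function.update h v γ) - B3bF s t c h| ≤ q * Ww s t v := by
  classical
  rw [B3b_repr s t c (B3b_upd hh v hv γ hγ), B3b_repr s t c hh, ← sum_sub_distrib]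
  have h1 : ∑ x ∈ cls false d (k + 1), (Ww s t x * (bq c (Function.update h v γ) x - gg c f x) -
      Ww s t x * (bq c h x - gg c f x)) = Ww s t v * (bq c (Function.update h v γ) v - bq c h v) := by
    rw [sum_eq_single_of_mem v hv]
    · ring
    · intro x _ hx
      have h2 : bq c (Function.update h v γ) x = bq c h x := by
        unfold bq
        rw [Function.update_of_ne hx]
      rw [h2, sub_self]
  rw [h1, abs_mul, abs_of_nonneg (Ww_nonneg s t v), mul_comm]
  refine mul_le_mul_of_nonneg_right ?_ (Ww_nonneg s t v)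
  obtain ⟨a1, a2⟩ := B3b_bq0 c h v
  obtain ⟨a3, a4⟩ := B3b_bq0 c (Function.update h v γ) v
  rw [abs_le]
  constructor <;> linarith

/-- the mean is zero -/
private theorem B3b_mean (s : Shp d) (t : Blk d k) (c : Fin q) {f : Site d (k + 1) → Fin q} (hf : Prp f) :
    fm false (B3bF s t c) f = 0 := by
  classical
  have h1 : fm false (B3bF s t c) f =
      fm false (fun h => ∑ x ∈ cls false d (k + 1), Ww s t x * (bq c h x - gg c f x)) f :=
    fm_congr false fun h hh => B3b_repr s t c hh
  rw [h1, fm_sum]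
  refine sum_eq_zero fun x hx => ?_
  rw [fm_mul, fm_sub, fm_const false hf]
  have h2 : fm false (fun h => bq c h x) f = q * (zz f x c / (av f x : ℝ)) := by
    rw [← fm_ind (by omega) false hf x hx c, ← fm_mul]
    refine fm_congr false fun h _ => ?_
    unfold bq
    split_ifs <;> simp
  rw [h2]
  unfold gg
  rw [mul_div_assoc, sub_self, mul_zero]

/-- the variance -/
private theorem B3b_var (hd : 2 ≤ d) (hk : 1 ≤ k) (s : Shp d) (t : Blk d k) (c : Fin q)
    {f : Site d (k + 1) → Fin q} (hf : Prp f) :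
    fm false (fun h => B3bF s t c h ^ 2) f ≤ 16 * (q : ℝ) ^ 2 / 2 ^ d := by
  classical
  have h1 := fm_var (k := k + 1) (by omega) false hf (B3bF s t c) (fun v => q * Ww s t v)
    (fun v => mul_nonneg (Nat.cast_nonneg q) (Ww_nonneg s t v))
    (fun h hh v hv γ hγ => B3b_diff s t c hh v hv γ hγ)
  rw [B3b_mean s t c hf] at h1
  simp only [sub_zero] at h1
  refine h1.trans ?_
  have h2 : ∀ v ∈ cls false d (k + 1), ((q : ℝ) * Ww s t v) ^ 2 ≤ (q : ℝ) ^ 2 * (4 / 2 ^ d) * Ww s t v := by
    intro v _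
    have h3 := Ww_max hd s t v
    have h4 := Ww_nonneg s t v
    have h5 : ((q : ℝ) * Ww s t v) ^ 2 = (q : ℝ) ^ 2 * (Ww s t v * Ww s t v) := by ring
    rw [h5, mul_assoc]
    refine mul_le_mul_of_nonneg_left ?_ (by positivity)
    exact mul_le_mul_of_nonneg_right h3 h4
  have h6 : ∑ x ∈ cls false d (k + 1), Ww s t x ≤ 1 := by
    rw [← Ww_one hd s t]
    exact sum_le_sum_of_subset_of_nonneg (subset_univ _) fun x _ _ => Ww_nonneg s t x
  have h7 : ∑ v ∈ cls false d (k + 1), ((q : ℝ) * Ww s t v) ^ 2 ≤ (q : ℝ) ^ 2 * (4 / 2 ^ d) := by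
    refine (sum_le_sum h2).trans ?_
    rw [← mul_sum]
    exact mul_le_of_le_one_right (by positivity) h6
  calc 4 * ∑ v ∈ cls false d (k + 1), ((q : ℝ) * Ww s t v) ^ 2 ≤ 4 * ((q : ℝ) ^ 2 * (4 / 2 ^ d)) := by linarith
    _ = 16 * (q : ℝ) ^ 2 / 2 ^ d := by ring

/-- the functional -/
private noncomputable def B3bPsi (i : Fin q × Shp d) (f : Site d (k + 1) → Fin q) : ℝ :=
  ∑ t : Blk d k, B3bF i.2 t i.1 f ^ 2

private theorem B3b_fm (hd : 2 ≤ d) (hk : 1 ≤ k) (i : Fin q × Shp d) {f : Site d (k + 1) → Fin q} (hf : Prp f) :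
    fm false (B3bPsi i) f ≤ NN d k * (16 * (q : ℝ) ^ 2 / 2 ^ d) := by
  have h1 : fm false (B3bPsi i) f = ∑ t : Blk d k, fm false (fun h => B3bF i.2 t i.1 h ^ 2) f := by
    unfold B3bPsi
    exact fm_sum false f univ fun (t : Blk d k) h => B3bF i.2 t i.1 h ^ 2
  rw [h1]
  refine (sum_le_sum fun t _ => B3b_var hd hk i.2 t i.1 hf).trans ?_
  rw [sum_const, card_univ, nsmul_eq_mul, card_Blk]

private theorem B3b_lip (hd : 2 ≤ d) (i : Fin q × Shp d) (κ : ℝ) (hκ : 8 * (q : ℝ) ^ 2 / 2 ^ d ≤ κ) :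
    Lip false κ (B3bPsi (k := k) i) := by
  classical
  intro f hf h hh v hv γ hγ
  have hfP : Prp f := (mem_filter.1 hf).2
  have hh' := B3b_upd hh v hv γ hγ
  have hq0 : (0 : ℝ) ≤ q := Nat.cast_nonneg q
  unfold B3bPsi
  rw [← sum_sub_distrib]
  refine (abs_sum_le_sum_abs _ _).trans ?_
  have h1 : ∀ t ∈ (univ : Finset (Blk d k)),
      |B3bF i.2 t i.1 (Function.update h v γ) ^ 2 - B3bF i.2 t i.1 h ^ 2| ≤ 2 * (q : ℝ) ^ 2 * Ww i.2 t v := by
    intro t _
    have h2 := B3b_diff i.2 t i.1 hh v hv γ hγ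
    have h3 := B3b_abs hd i.2 t i.1 hfP hh'
    have h4 := B3b_abs hd i.2 t i.1 hfP hh
    have h5 : B3bF i.2 t i.1 (Function.update h v γ) ^ 2 - B3bF i.2 t i.1 h ^ 2 =
        (B3bF i.2 t i.1 (Function.update h v γ) - B3bF i.2 t i.1 h) *
          (B3bF i.2 t i.1 (Function.update h v γ) + B3bF i.2 t i.1 h) := by ring
    rw [h5, abs_mul]
    have h6 : |B3bF i.2 t i.1 (Function.update h v γ) + B3bF i.2 t i.1 h| ≤ 2 * q := by
      refine (abs_add_le _ _).trans ?_
      linarith
    calc |B3bF i.2 t i.1 (Function.update h v γ) - B3bF i.2 t i.1 h| *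
          |B3bF i.2 t i.1 (Function.update h v γ) + B3bF i.2 t i.1 h| ≤ (q * Ww i.2 t v) * (2 * q) :=
          mul_le_mul h2 h6 (abs_nonneg _) (mul_nonneg hq0 (Ww_nonneg _ _ _))
      _ = 2 * (q : ℝ) ^ 2 * Ww i.2 t v := by ring
  refine (sum_le_sum h1).trans ?_
  rw [← mul_sum]
  have h7 := Ww_sum (k := k) hd i.2 v
  calc 2 * (q : ℝ) ^ 2 * ∑ t : Blk d k, Ww i.2 t v ≤ 2 * (q : ℝ) ^ 2 * (4 / 2 ^ d) :=
        mul_le_mul_of_nonneg_left h7 (by positivity)
    _ = 8 * (q : ℝ) ^ 2 / 2 ^ d := by ring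
    _ ≤ κ := hκ

private theorem B3b_pow : ∀ᶠ d : ℕ in atTop, 128 * (d : ℝ) ^ 6 ≤ 2 ^ d := by
  have h1 : Tendsto (fun n : ℕ => (n : ℝ) ^ 6 / (2 : ℝ) ^ n) atTop (nhds 0) :=
    tendsto_pow_const_div_const_pow_of_one_lt 6 (by norm_num)
  have h2 := h1.eventually (gt_mem_nhds (by norm_num : (0 : ℝ) < 1 / 128))
  filter_upwards [h2] with n hn
  rw [div_lt_iff₀ (by positivity)] at hn
  linarith

end B3baux

theorem blk_bq {ε : ℝ} (hε : 0 < ε) (hε1 : ε ≤ 1) : WOPb ε fun d k q f => ∀ (c : Fin q) (s : Shp d),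
    ∑ t : Blk d k, Ms s t (fun x => bq c f x - gg c f x) ^ 2 ≤ NN d k / (d : ℝ) ^ 4 := by
  classical
  have hreg := (EvT_reg hε hε1 32).and (EvT_d (ε := ε) B3b_pow)
  have hL : EvT ε fun d k q => ∀ i : Fin q × Shp d, Lip false ((d : ℝ) ^ 3 / 2 ^ d) (B3bPsi (k := k) i) := by
    refine hreg.mono fun d k q h i => ?_
    obtain ⟨⟨h1, h2, h3, h4, h5, -⟩, -⟩ := h
    have hd2 : 2 ≤ d := by
      have : (2 : ℝ) ≤ d := by linarith
      exact_mod_cast this
    refine B3b_lip hd2 i _ ?_
    refine div_le_div_of_nonneg_right ?_ (by positivity)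
    have hq2 : (q : ℝ) ≤ 2 * d := by nlinarith
    have hq0 : (0 : ℝ) ≤ q := Nat.cast_nonneg q
    have h6 : (q : ℝ) ^ 2 ≤ (2 * d) ^ 2 := pow_le_pow_left₀ hq0 hq2 2
    have h7 : 32 * (d : ℝ) ^ 2 ≤ d * (d : ℝ) ^ 2 := mul_le_mul_of_nonneg_right h1 (by positivity)
    calc 8 * (q : ℝ) ^ 2 ≤ 8 * (2 * d) ^ 2 := by linarith
      _ = 32 * (d : ℝ) ^ 2 := by ring
      _ ≤ d * (d : ℝ) ^ 2 := h7
      _ = (d : ℝ) ^ 3 := by ring
  have hT := WOPb_tail hε hε1 (fun d _ q => Fin q × Shp d) (fun d q => q * (2 * d + 1))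
    (fun d k q => by
      rw [Fintype.card_prod, Fintype.card_option, Fintype.card_prod, Fintype.card_fin, Fintype.card_fin,
        Fintype.card_bool]
      push_cast
      refine le_of_eq ?_
      ring) (fun _ _ _ _ => false) (fun d k q i => B3bPsi (k := k) i) 3 5 hL
  refine hT.mono ?_
  refine hreg.mono fun d k q h f hf hΨ c s => ?_
  obtain ⟨⟨h1, h2, h3, h4, h5, -⟩, hp⟩ := h
  have hfP : Prp f := (mem_filter.1 hf).2
  have hd2 : 2 ≤ d := by
    have : (2 : ℝ) ≤ d := by linarith
    exact_mod_cast this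
  have hk1 : 1 ≤ k := by
    have : (1 : ℝ) ≤ k := by linarith
    exact_mod_cast this
  have hN : 0 ≤ NN d k := by
    unfold NN
    positivity
  have h6 := hΨ (c, s)
  have h7 := B3b_fm hd2 hk1 (c, s) hfP
  have h8 : B3bPsi (k := k) (c, s) f = ∑ t : Blk d k, Ms s t (fun x => bq c f x - gg c f x) ^ 2 := rfl
  rw [← h8]
  have hd0 : (0 : ℝ) < d := by linarith
  have hq2 : (q : ℝ) ≤ 2 * d := by nlinarith
  have hq0 : (0 : ℝ) ≤ q := Nat.cast_nonneg q
  have h9 : 16 * (q : ℝ) ^ 2 / 2 ^ d ≤ 1 / (2 * (d : ℝ) ^ 4) := by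
    rw [div_le_div_iff₀ (by positivity) (by positivity)]
    have h10 : (q : ℝ) ^ 2 ≤ (2 * d) ^ 2 := pow_le_pow_left₀ hq0 hq2 2
    calc 16 * (q : ℝ) ^ 2 * (2 * (d : ℝ) ^ 4) ≤ 16 * (2 * d) ^ 2 * (2 * (d : ℝ) ^ 4) := by
          refine mul_le_mul_of_nonneg_right ?_ (by positivity)
          linarith
      _ = 128 * (d : ℝ) ^ 6 := by ring
      _ ≤ 2 ^ d := hp
      _ = 1 * 2 ^ d := by ring
  have h11 : NN d k / (d : ℝ) ^ 5 ≤ NN d k * (1 / (2 * (d : ℝ) ^ 4)) := by
    rw [div_eq_mul_one_div]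
    refine mul_le_mul_of_nonneg_left ?_ hN
    refine one_div_le_one_div_of_le (by positivity) ?_
    have h12 : 2 * (d : ℝ) ^ 4 ≤ d * (d : ℝ) ^ 4 := mul_le_mul_of_nonneg_right (by linarith) (by positivity)
    calc 2 * (d : ℝ) ^ 4 ≤ d * (d : ℝ) ^ 4 := h12
      _ = (d : ℝ) ^ 5 := by ring
  have h13 := mul_le_mul_of_nonneg_left h9 hN
  have h14 : NN d k * (1 / (2 * (d : ℝ) ^ 4)) + NN d k * (1 / (2 * (d : ℝ) ^ 4)) = NN d k / (d : ℝ) ^ 4 := by
    field_simp
    ring
  linarith

end Pool.Agent.THR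

end

/-! ### from `Lib_MP_2c424f_thr.B3c` -/

section

/-!
# THR B3c: fluctuation of the block means of `zz` (paper proof: B3, second part)

Index type: `Fin q × Shp d`.  `Ψ f = ∑_t (Ms s t ((zz - zt)/al))²`, resample the even sites (class `true`): for an odd site `x`, `zt f x c` and `al f x` are constant on the fibre
(`loc_fib`, and `zt` depends on `zz`, `av` at the even sites), `zz f x c` has mean `zt f x c` (`LIN.fm_zz`).
* Mean: a change at the even site `u` changes `zz` at the `2d` neighbours `x` of `u` by at most `1`, `1/al ≤ e^a` (`al_ge`), so `fm_var` with `c_u = e^a ∑_{x ~ u} Ww s t x`: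
  `4 ∑ c_u² ≤ 4 e^(2a) · 2d · 2d · ∑_x Ww² ≤ 64 e^(2a) d²/2^d` (Cauchy-Schwarz, every `x` has `2d` neighbours `u`); sum over `t`: `≤ NN d k/(2 d^4)` for large `d`.
* `Lip`: `|Ms ..| ≤ e^a`; the square changes by at most `2 e^(2a) ∑_{x ~ u} Ww s t x`, sum over `t`: `2 e^(2a) · 2d · 4/2^d ≤ d²/2^d`... (`κ = 3`).
* `WOPb_tail` with `κ = 3`, `K = 5`.
-/

set_option autoImplicit false

open Finset Filter

namespace Pool.Agent.THR

open Pool.Agent.LO Pool.Agent.LIN

variable {d k q : ℕ}

private theorem B3c_mem (b : Bool) (f h : Site d k → Fin q) :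
    h ∈ fib b f ↔ (∀ x ∈ cls b d k, h x ∉ SS f x) ∧ ∀ x, x ∉ cls b d k → h x = f x := by
  unfold fib
  rw [Fintype.mem_piFinset]
  constructor
  · intro hh
    refine ⟨fun x hx => ?_, fun x hx => ?_⟩
    · have := hh x
      rw [if_pos hx, mem_compl] at this
      exact this
    · have := hh x
      rw [if_neg hx, mem_singleton] at this
      exact this
  · rintro ⟨h1, h2⟩ x
    split_ifs with hx
    · exact mem_compl.2 (h1 x hx)
    · exact mem_singleton.2 (h2 x hx)

private theorem B3c_prps (f : Site d k → Fin q) : f ∈ prps d k q ↔ Prp f := by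
  unfold prps
  simp only [mem_filter, mem_univ, true_and]

private theorem B3c_upd (b : Bool) {f h : Site d k → Fin q} (hh : h ∈ fib b f) {v : Site d k}
    (hv : v ∈ cls b d k) {γ : Fin q} (hγ : γ ∉ SS f v) : Function.update h v γ ∈ fib b f := by
  rw [B3c_mem] at hh ⊢
  refine ⟨fun x hx => ?_, fun x hx => ?_⟩
  · by_cases hxv : x = v
    · subst hxv
      rw [Function.update_self]
      exact hγ
    · rw [Function.update_of_ne hxv]
      exact hh.1 x hx
  · have hxv : x ≠ v := fun e => hx (e ▸ hv)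
    rw [Function.update_of_ne hxv]
    exact hh.2 x hx

private theorem B3c_zz01 (f : Site d k → Fin q) (v : Site d k) (c : Fin q) : 0 ≤ zz f v c ∧ zz f v c ≤ 1 := by
  unfold zz
  split_ifs <;> norm_num

/-- change of `zz` -/
private theorem B3c_dz (h : Site d k → Fin q) (v : Site d k) (γ : Fin q) (x : Site d k) (c : Fin q) :
    |zz (Function.update h v γ) x c - zz h x c| ≤ ∑ σ : Stp d, (if x = v + sv σ then (1 : ℝ) else 0) := by
  classical
  by_cases hx : ∃ σ : Stp d, x = v + sv σ
  · obtain ⟨σ, hσ⟩ := hx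
    have h1 := B3c_zz01 (Function.update h v γ) x c
    have h2 := B3c_zz01 h x c
    have h3 : |zz (Function.update h v γ) x c - zz h x c| ≤ 1 := by
      rw [abs_le]
      constructor <;> linarith
    refine h3.trans ?_
    have h4 := Finset.single_le_sum (f := fun τ : Stp d => if x = v + sv τ then (1 : ℝ) else 0)
      (fun τ _ => by split_ifs <;> norm_num) (Finset.mem_univ σ)
    simp only [if_pos hσ] at h4
    exact h4
  · have h1 : SS (Function.update h v γ) x = SS h x := by
      unfold SS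
      refine image_congr fun τ _ => ?_
      have h2 : x + sv τ ≠ v := by
        intro e
        refine hx ⟨(τ.1, !τ.2), ?_⟩
        rw [← e, add_assoc]
        have h3 : (sv τ : Site d k) + sv (τ.1, !τ.2) = 0 := sv_opp τ.1 τ.2
        rw [h3, add_zero]
      show Function.update h v γ (x + sv τ) = h (x + sv τ)
      rw [Function.update_of_ne h2]
    have h2 : zz (Function.update h v γ) x c = zz h x c := by
      unfold zz
      rw [h1]
    rw [h2, sub_self, abs_zero]
    exact Finset.sum_nonneg fun τ _ => by split_ifs <;> norm_num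

/-- `zt` is constant on the fibre -/
private theorem B3c_zt (hk : 1 ≤ k) {f h : Site d k → Fin q} (hh : h ∈ fib true f) (x : Site d k)
    (hx : x ∈ cls false d k) (c : Fin q) : zt h x c = zt f x c := by
  unfold zt
  refine Finset.prod_congr rfl fun σ _ => ?_
  have h1 : x + sv σ ∈ cls true d k := by
    rw [mem_cls_step hk]
    exact hx
  have h2 := fib_SS hk true hh _ h1
  unfold zz av
  rw [h2]

/-- the block mean with frozen `zt`, `al` -/
private noncomputable def B3c_F (s : Shp d) (t : Blk d k) (f : Site d (k + 1) → Fin q) (c : Fin q)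
    (h : Site d (k + 1) → Fin q) : ℝ := ∑ x, Ww s t x * ((zz h x c - zt f x c) / al f x)

private theorem B3c_Ms (hk : 1 ≤ k) (s : Shp d) (t : Blk d k) {f h : Site d (k + 1) → Fin q}
    (hh : h ∈ fib true f) (c : Fin q) :
    Ms s t (fun x => (zz h x c - zt h x c) / al h x) = B3c_F s t f c h := by
  rw [Ww_repr]
  unfold B3c_F
  refine Finset.sum_congr rfl fun x _ => ?_
  by_cases hx : x ∈ cls false d (k + 1)
  · have h1 := (loc_fib (k := k + 1) (by omega) false (f := f) (h := h) hh x hx c).2.1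
    rw [B3c_zt (by omega) hh x hx c, h1]
  · rw [Ww_par s t x hx, zero_mul, zero_mul]

private theorem B3c_Fabs (hd : 2 ≤ d) (hq : 1 ≤ q) (s : Shp d) (t : Blk d k) {f : Site d (k + 1) → Fin q}
    (hf : Prp f) (c : Fin q) (h : Site d (k + 1) → Fin q) : |B3c_F s t f c h| ≤ Real.exp (ra d q) := by
  unfold B3c_F
  have h1 : ∀ x ∈ (univ : Finset (Site d (k + 1))), |Ww s t x * ((zz h x c - zt f x c) / al f x)| ≤
      Ww s t x * Real.exp (ra d q) := by
    intro x _
    rw [abs_mul, abs_of_nonneg (Ww_nonneg s t x)]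
    refine mul_le_mul_of_nonneg_left ?_ (Ww_nonneg s t x)
    have h2 := al_ge hq hf x
    have h3 : 0 < al f x := lt_of_lt_of_le (Real.exp_pos _) h2
    rw [abs_div, abs_of_pos h3, div_le_iff₀ h3]
    have h4 := B3c_zz01 h x c
    have h5 := zt_nonneg f x c
    have h6 := zt_le_one f x c
    have h7 : |zz h x c - zt f x c| ≤ 1 := by
      rw [abs_le]
      constructor <;> linarith
    refine h7.trans ?_
    calc (1 : ℝ) = Real.exp (ra d q) * Real.exp (-ra d q) := by
          rw [← Real.exp_add, add_neg_cancel, Real.exp_zero]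
      _ ≤ _ := mul_le_mul_of_nonneg_left h2 (Real.exp_nonneg _)
  refine (Finset.abs_sum_le_sum_abs _ _).trans ((Finset.sum_le_sum h1).trans (le_of_eq ?_))
  rw [← Finset.sum_mul, Ww_one hd, one_mul]

private theorem B3c_Fdif (hq : 1 ≤ q) (s : Shp d) (t : Blk d k) {f : Site d (k + 1) → Fin q}
    (hf : Prp f) (c : Fin q) (h : Site d (k + 1) → Fin q) (v : Site d (k + 1)) (γ : Fin q) :
    |B3c_F s t f c (Function.update h v γ) - B3c_F s t f c h| ≤
      Real.exp (ra d q) * ∑ σ : Stp d, Ww s t (v + sv σ) := by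
  classical
  unfold B3c_F
  rw [← Finset.sum_sub_distrib]
  have h1 : ∀ x ∈ (univ : Finset (Site d (k + 1))),
      |Ww s t x * ((zz (Function.update h v γ) x c - zt f x c) / al f x) -
        Ww s t x * ((zz h x c - zt f x c) / al f x)| ≤
      ∑ σ : Stp d, (if x = v + sv σ then Real.exp (ra d q) * Ww s t x else 0) := by
    intro x _
    have e : Ww s t x * ((zz (Function.update h v γ) x c - zt f x c) / al f x) -
        Ww s t x * ((zz h x c - zt f x c) / al f x) =
        Ww s t x * ((zz (Function.update h v γ) x c - zz h x c) / al f x) := by ring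
    rw [e, abs_mul, abs_of_nonneg (Ww_nonneg s t x)]
    have h2 := al_ge hq hf x
    have h3 : 0 < al f x := lt_of_lt_of_le (Real.exp_pos _) h2
    have h4 : 1 / al f x ≤ Real.exp (ra d q) := by
      rw [div_le_iff₀ h3]
      calc (1 : ℝ) = Real.exp (ra d q) * Real.exp (-ra d q) := by
            rw [← Real.exp_add, add_neg_cancel, Real.exp_zero]
        _ ≤ _ := mul_le_mul_of_nonneg_left h2 (Real.exp_nonneg _)
    have h5 := B3c_dz h v γ x c
    have h6 : |(zz (Function.update h v γ) x c - zz h x c) / al f x| ≤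
        (∑ σ : Stp d, (if x = v + sv σ then (1 : ℝ) else 0)) * Real.exp (ra d q) := by
      rw [div_eq_mul_one_div, abs_mul, abs_of_pos (by positivity : 0 < 1 / al f x)]
      exact mul_le_mul h5 h4 (by positivity)
        (Finset.sum_nonneg fun τ _ => by split_ifs <;> norm_num)
    refine (mul_le_mul_of_nonneg_left h6 (Ww_nonneg s t x)).trans (le_of_eq ?_)
    rw [Finset.sum_mul, Finset.mul_sum]
    refine Finset.sum_congr rfl fun σ _ => ?_
    split_ifs
    · ring
    · ring
  refine (Finset.abs_sum_le_sum_abs _ _).trans ((Finset.sum_le_sum h1).trans (le_of_eq ?_))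
  rw [Finset.sum_comm, Finset.mul_sum]
  refine Finset.sum_congr rfl fun σ _ => ?_
  rw [Finset.sum_ite_eq' univ (v + sv σ) (fun x => Real.exp (ra d q) * Ww s t x)]
  simp

private theorem B3c_cardS : (Fintype.card (Stp d) : ℝ) = 2 * d := by
  rw [Fintype.card_prod, Fintype.card_fin, Fintype.card_bool]
  push_cast
  ring

private theorem B3c_Fmean (hk : 1 ≤ k) (s : Shp d) (t : Blk d k) {f : Site d (k + 1) → Fin q}
    (hf : Prp f) (c : Fin q) : fm true (B3c_F s t f c) f = 0 := by
  have e1 : fm true (B3c_F s t f c) f =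
      ∑ x, fm true (fun h => Ww s t x * ((zz h x c - zt f x c) / al f x)) f :=
    fm_sum true f univ (fun x h => Ww s t x * ((zz h x c - zt f x c) / al f x))
  rw [e1]
  refine Finset.sum_eq_zero fun x _ => ?_
  by_cases hx : x ∈ cls false d (k + 1)
  · have e2 : (fun h : Site d (k + 1) → Fin q => Ww s t x * ((zz h x c - zt f x c) / al f x)) =
        fun h => (Ww s t x / al f x) * (zz h x c - zt f x c) := by
      funext h
      ring
    rw [e2, fm_mul, fm_sub, fm_const true hf]
    have h1 := fm_zz (by omega) false hf x hx c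
    have h2 : fm true (fun h : Site d (k + 1) → Fin q => zz h x c) f = zt f x c := h1
    rw [h2, sub_self, mul_zero]
  · have e2 : (fun h : Site d (k + 1) → Fin q => Ww s t x * ((zz h x c - zt f x c) / al f x)) =
        fun _ => 0 := by
      funext h
      rw [Ww_par s t x hx, zero_mul]
    rw [e2, fm_const true hf]

private theorem B3c_Fvar (hd : 2 ≤ d) (hk : 1 ≤ k) (hq : 1 ≤ q) (s : Shp d) (t : Blk d k)
    {f : Site d (k + 1) → Fin q} (hf : Prp f) (c : Fin q) :
    fm true (fun h => B3c_F s t f c h ^ 2) f ≤ 64 * Real.exp (ra d q) ^ 2 * d ^ 2 / 2 ^ d := by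
  classical
  have h1 := fm_var (d := d) (k := k + 1) (q := q) (by omega) true hf (B3c_F s t f c)
    (fun v => Real.exp (ra d q) * ∑ σ : Stp d, Ww s t (v + sv σ))
    (fun v => mul_nonneg (Real.exp_nonneg _) (Finset.sum_nonneg fun σ _ => Ww_nonneg s t _))
    (fun h _ v _ γ _ => B3c_Fdif hq s t hf c h v γ)
  rw [B3c_Fmean hk s t hf c] at h1
  simp only [sub_zero] at h1
  refine h1.trans ?_
  have h2 : ∀ v ∈ cls true d (k + 1), (Real.exp (ra d q) * ∑ σ : Stp d, Ww s t (v + sv σ)) ^ 2 ≤
      Real.exp (ra d q) ^ 2 * ((2 * d) * ∑ σ : Stp d, Ww s t (v + sv σ) ^ 2) := by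
    intro v _
    rw [mul_pow]
    refine mul_le_mul_of_nonneg_left ?_ (by positivity)
    have h3 := sq_sum_le_card_mul_sum_sq (s := (univ : Finset (Stp d)))
      (f := fun σ => Ww s t (v + sv σ))
    rw [Finset.card_univ, B3c_cardS] at h3
    exact h3
  have h4 : ∑ v ∈ cls true d (k + 1), (Real.exp (ra d q) * ∑ σ : Stp d, Ww s t (v + sv σ)) ^ 2 ≤
      Real.exp (ra d q) ^ 2 * ((2 * d) * ((2 * d) * (4 / 2 ^ d))) := by
    refine (Finset.sum_le_sum h2).trans ?_
    rw [← Finset.mul_sum, ← Finset.mul_sum]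
    refine mul_le_mul_of_nonneg_left (mul_le_mul_of_nonneg_left ?_ (by positivity)) (by positivity)
    have h5 : ∑ v ∈ cls true d (k + 1), ∑ σ : Stp d, Ww s t (v + sv σ) ^ 2 ≤
        ∑ v : Site d (k + 1), ∑ σ : Stp d, Ww s t (v + sv σ) ^ 2 :=
      Finset.sum_le_sum_of_subset_of_nonneg (Finset.subset_univ _)
        (fun v _ _ => Finset.sum_nonneg fun σ _ => sq_nonneg _)
    refine h5.trans ?_
    rw [Finset.sum_comm]
    have h6 : ∀ σ ∈ (univ : Finset (Stp d)), ∑ v : Site d (k + 1), Ww s t (v + sv σ) ^ 2 ≤ 4 / 2 ^ d := by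
      intro σ _
      have e : ∑ v : Site d (k + 1), Ww s t (v + sv σ) ^ 2 = ∑ x : Site d (k + 1), Ww s t x ^ 2 :=
        Fintype.sum_equiv (Equiv.addRight (sv σ)) _ _ (fun v => rfl)
      rw [e]
      calc ∑ x : Site d (k + 1), Ww s t x ^ 2 ≤ ∑ x : Site d (k + 1), 4 / 2 ^ d * Ww s t x := by
            refine Finset.sum_le_sum fun x _ => ?_
            rw [sq]
            exact mul_le_mul_of_nonneg_right (Ww_max hd s t x) (Ww_nonneg s t x)
        _ = 4 / 2 ^ d := by rw [← Finset.mul_sum, Ww_one hd, mul_one]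
    refine (Finset.sum_le_sum h6).trans (le_of_eq ?_)
    rw [Finset.sum_const, nsmul_eq_mul, Finset.card_univ, B3c_cardS]
  calc 4 * ∑ v ∈ cls true d (k + 1), (Real.exp (ra d q) * ∑ σ : Stp d, Ww s t (v + sv σ)) ^ 2
      ≤ 4 * (Real.exp (ra d q) ^ 2 * ((2 * d) * ((2 * d) * (4 / 2 ^ d)))) :=
        mul_le_mul_of_nonneg_left h4 (by norm_num)
    _ = _ := by ring

private noncomputable def B3c_Psi (c : Fin q) (s : Shp d) (f : Site d (k + 1) → Fin q) : ℝ :=
  ∑ t : Blk d k, Ms s t (fun x => (zz f x c - zt f x c) / al f x) ^ 2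

private theorem B3c_mean (hd : 2 ≤ d) (hk : 1 ≤ k) (hq : 1 ≤ q) (c : Fin q) (s : Shp d)
    {f : Site d (k + 1) → Fin q} (hf : Prp f) :
    fm true (B3c_Psi (k := k) c s) f ≤ NN d k * (64 * Real.exp (ra d q) ^ 2 * d ^ 2 / 2 ^ d) := by
  have e1 : fm true (B3c_Psi (k := k) c s) f = fm true (fun h => ∑ t : Blk d k, B3c_F s t f c h ^ 2) f := by
    refine fm_congr true fun h hh => ?_
    unfold B3c_Psi
    exact Finset.sum_congr rfl fun t _ => by rw [B3c_Ms hk s t hh c]
  have e2 : fm true (fun h => ∑ t : Blk d k, B3c_F s t f c h ^ 2) f =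
      ∑ t : Blk d k, fm true (fun h => B3c_F s t f c h ^ 2) f :=
    fm_sum true f univ (fun t h => B3c_F s t f c h ^ 2)
  rw [e1, e2]
  refine (Finset.sum_le_sum fun t _ => B3c_Fvar hd hk hq s t hf c).trans (le_of_eq ?_)
  rw [Finset.sum_const, nsmul_eq_mul, Finset.card_univ, card_Blk]

private theorem B3c_lip (hd : 2 ≤ d) (hk : 1 ≤ k) (hq : 1 ≤ q) (c : Fin q) (s : Shp d)
    (hdd : 16 * Real.exp (ra d q) ^ 2 ≤ (d : ℝ) ^ 2) :
    Lip true ((d : ℝ) ^ 3 / 2 ^ d) (B3c_Psi (k := k) (q := q) c s) := by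
  intro f hf h hh v hv γ hγ
  rw [B3c_prps] at hf
  have hh' := B3c_upd true hh hv hγ
  unfold B3c_Psi
  rw [← Finset.sum_sub_distrib]
  have h1 : ∀ t ∈ (univ : Finset (Blk d k)),
      |Ms s t (fun x => (zz (Function.update h v γ) x c - zt (Function.update h v γ) x c) /
          al (Function.update h v γ) x) ^ 2 -
        Ms s t (fun x => (zz h x c - zt h x c) / al h x) ^ 2| ≤
      2 * Real.exp (ra d q) * (Real.exp (ra d q) * ∑ σ : Stp d, Ww s t (v + sv σ)) := by
    intro t _
    rw [B3c_Ms hk s t hh' c, B3c_Ms hk s t hh c]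
    have h2 := B3c_Fabs (k := k) hd hq s t hf c (Function.update h v γ)
    have h3 := B3c_Fabs (k := k) hd hq s t hf c h
    have h4 := B3c_Fdif hq s t hf c h v γ
    have e : B3c_F s t f c (Function.update h v γ) ^ 2 - B3c_F s t f c h ^ 2 =
        (B3c_F s t f c (Function.update h v γ) + B3c_F s t f c h) *
        (B3c_F s t f c (Function.update h v γ) - B3c_F s t f c h) := by ring
    rw [e, abs_mul]
    refine mul_le_mul ?_ h4 (abs_nonneg _) (by positivity)
    refine (abs_add_le _ _).trans ?_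
    linarith
  refine (Finset.abs_sum_le_sum_abs _ _).trans ((Finset.sum_le_sum h1).trans ?_)
  rw [← Finset.mul_sum, ← Finset.mul_sum, Finset.sum_comm]
  have h5 : ∑ σ : Stp d, ∑ t : Blk d k, Ww s t (v + sv σ) ≤ 2 * d * (4 / 2 ^ d) := by
    refine (Finset.sum_le_sum fun σ _ => Ww_sum hd s (v + sv σ)).trans (le_of_eq ?_)
    rw [Finset.sum_const, nsmul_eq_mul, Finset.card_univ, B3c_cardS]
  have hE : 0 < Real.exp (ra d q) := Real.exp_pos _
  calc 2 * Real.exp (ra d q) * (Real.exp (ra d q) * ∑ σ : Stp d, ∑ t : Blk d k, Ww s t (v + sv σ))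
      ≤ 2 * Real.exp (ra d q) * (Real.exp (ra d q) * (2 * d * (4 / 2 ^ d))) := by gcongr
    _ = 16 * Real.exp (ra d q) ^ 2 * (d / 2 ^ d) := by ring
    _ ≤ (d : ℝ) ^ 2 * (d / 2 ^ d) := mul_le_mul_of_nonneg_right hdd (by positivity)
    _ = _ := by ring

theorem blk_zz {ε : ℝ} (hε : 0 < ε) (hε1 : ε ≤ 1) : WOPb ε fun d k q f => ∀ (c : Fin q) (s : Shp d),
    ∑ t : Blk d k, Ms s t (fun x => (zz f x c - zt f x c) / al f x) ^ 2 ≤ NN d k / (d : ℝ) ^ 4 := by
  -- the size of `d`
  have hev : ∀ᶠ d : ℕ in atTop, 16 * Real.exp (A0 ε) ^ 2 ≤ (d : ℝ) ^ 2 ∧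
      64 * Real.exp (A0 ε) ^ 2 * (d : ℝ) ^ 2 / 2 ^ d ≤ 1 / (2 * (d : ℝ) ^ 4) ∧ 2 ≤ d := by
    have h1 : ∀ᶠ d : ℕ in atTop, 16 * Real.exp (A0 ε) ^ 2 ≤ (d : ℝ) ^ 2 :=
      ((tendsto_pow_atTop (n := 2) (by norm_num)).comp
        tendsto_natCast_atTop_atTop).eventually_ge_atTop _
    have h2 : Tendsto (fun n : ℕ => (n : ℝ) ^ 6 / 2 ^ n) atTop (nhds 0) :=
      tendsto_pow_const_div_const_pow_of_one_lt 6 (by norm_num)
    have hE : 0 < Real.exp (A0 ε) := Real.exp_pos _
    have h3 := h2.eventually (gt_mem_nhds (show (0 : ℝ) < 1 / (128 * Real.exp (A0 ε) ^ 2) by positivity))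
    filter_upwards [h1, h3, eventually_ge_atTop 2] with d g1 g2 g3
    refine ⟨g1, ?_, g3⟩
    have hd0 : (0 : ℝ) < d := by
      have : 0 < d := by omega
      exact_mod_cast this
    have g4 : (d : ℝ) ^ 6 / 2 ^ d ≤ 1 / (128 * Real.exp (A0 ε) ^ 2) := g2.le
    rw [div_le_div_iff₀ (by positivity) (by positivity)] at g4 ⊢
    linarith
  have hEv := (EvT_d (ε := ε) hev).and (EvT_reg hε hε1 1)
  have hR : ∀ {d q : ℕ}, ra d q ≤ A0 ε → Real.exp (ra d q) ^ 2 ≤ Real.exp (A0 ε) ^ 2 := by
    intro d q h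
    exact pow_le_pow_left₀ (Real.exp_nonneg _) (Real.exp_le_exp.2 h) 2
  have hT := WOPb_tail hε hε1 (fun d _ q => Fin q × Shp d)
    (fun d q => (Fintype.card (Fin q × Shp d) : ℝ)) (fun _ _ _ => le_rfl) (fun _ _ _ _ => true)
    (fun d k q i f => B3c_Psi (k := k) i.1 i.2 f) 3 5 (hEv.mono fun d k q h i => by
      obtain ⟨⟨g1, g2, g3⟩, g4, g5, g6, -, -, -, g7, -⟩ := h
      have hq : 1 ≤ q := by exact_mod_cast g5
      have hk : 1 ≤ k := by exact_mod_cast g6
      exact B3c_lip g3 hk hq i.1 i.2 (le_trans (by have := hR g7; linarith) g1))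
  refine hT.mono (hEv.mono fun d k q h f hf hΨ c s => ?_)
  obtain ⟨⟨g1, g2, g3⟩, g4, g5, g6, -, -, -, g7, -⟩ := h
  have hq : 1 ≤ q := by exact_mod_cast g5
  have hk : 1 ≤ k := by exact_mod_cast g6
  rw [B3c_prps] at hf
  have h1 := hΨ (c, s)
  have h2 := B3c_mean g3 hk hq c s hf
  have hN : 0 ≤ NN d k := by unfold NN; positivity
  have hd2 : (2 : ℝ) ≤ d := by exact_mod_cast g3
  have hd0 : (0 : ℝ) < d := by linarith
  have h3 : 64 * Real.exp (ra d q) ^ 2 * (d : ℝ) ^ 2 / 2 ^ d ≤ 1 / (2 * (d : ℝ) ^ 4) := by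
    refine le_trans ?_ g2
    have := hR g7
    gcongr
  have h4 := mul_le_mul_of_nonneg_left h3 hN
  have h5 : NN d k / (d : ℝ) ^ 5 ≤ NN d k * (1 / (2 * (d : ℝ) ^ 4)) := by
    have e : NN d k * (1 / (2 * (d : ℝ) ^ 4)) = NN d k / (2 * (d : ℝ) ^ 4) := by ring
    rw [e]
    refine div_le_div_of_nonneg_left hN (by positivity) ?_
    have : (d : ℝ) ^ 5 = d * d ^ 4 := by ring
    rw [this]
    exact mul_le_mul_of_nonneg_right hd2 (by positivity)
  have h6 : NN d k / (d : ℝ) ^ 4 = NN d k * (1 / (2 * (d : ℝ) ^ 4)) + NN d k * (1 / (2 * (d : ℝ) ^ 4)) := by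
    field_simp
    ring
  have h7 : B3c_Psi (k := k) c s f ≤ fm true (B3c_Psi (k := k) c s) f + NN d k / (d : ℝ) ^ 5 := h1
  have h8 : B3c_Psi (k := k) c s f ≤ NN d k / (d : ℝ) ^ 4 := by
    rw [h6]
    linarith
  exact h8

end Pool.Agent.THR

end

/-! ### from `Lib_MP_2c424f_lc3.T05` -/

section

/-!
# Part III, T05: classes of pairs with the same odd vertices

`cl_eq`: a pair `ω'` with `ω' = ω` at the odd vertices is proper iff `(ω' x).1 ∈ Rv G (fo ω) x`, `(ω' x).2 ∈ Rv G (go ω) x` for all even `x` (every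
edge joins an even and an odd vertex, `Par`; `Rv` depends on the odd vertices only).
`sum_cl_avg`: `ω' ∈ cl ω ↔ ω ∈ cl ω'` for proper `ω, ω'`, and then `cl ω = cl ω'`; exchange the sums:
`∑_{ω'} h ω' ∑_{ω ∈ cl ω'} 1 / |cl ω'| = ∑_{ω'} h ω'`.   `sum_cl_le`, `card_cl_le` follow from it (`h` = 1 on `R`).
-/

set_option autoImplicit false

open Finset Filter

namespace Pool.Agent.LC3

open Pool.Agent.LO Pool.Agent.LIN Pool.Agent.THR Pool.Agent.COR Pool.Agent.LC

section
variable {V : Type} [Fintype V] [DecidableEq V] {q : ℕ}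

private theorem T05_mem (G : SimpleGraph V) (ev : V → Prop) (ω ω' : V → Fin q × Fin q) :
    ω' ∈ cl G ev ω ↔ PrP G ω' ∧ so ev ω' ω := by
  unfold cl
  simp only [Finset.mem_filter, Finset.mem_univ, true_and]

private theorem T05_Rv (G : SimpleGraph V) (F : V → Fin q) (v : V) (c : Fin q) :
    c ∈ Rv G F v ↔ ∀ x, G.Adj v x → F x ≠ c := by
  unfold Rv
  simp only [Finset.mem_filter, Finset.mem_univ, true_and]

theorem cl_eq (G : SimpleGraph V) (ev : V → Prop) (hP : Par G ev) (ω : V → Fin q × Fin q) :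
    cl G ev ω = Fintype.piFinset (Sx G ev ω) := by
  ext ω'
  rw [T05_mem, Fintype.mem_piFinset]
  constructor
  · rintro ⟨⟨h1, h2⟩, h3⟩ v
    unfold Sx
    by_cases hv : ev v
    · rw [if_pos hv, Finset.mem_product, T05_Rv, T05_Rv]
      refine ⟨fun x hx => ?_, fun x hx => ?_⟩
      · have hxo : ¬ ev x := (hP v x hx).1 hv
        have e : fo ω x = fo ω' x := by
          unfold fo
          rw [h3 x hxo]
        rw [e]
        exact (h1 v x hx).symm
      · have hxo : ¬ ev x := (hP v x hx).1 hv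
        have e : go ω x = go ω' x := by
          unfold go
          rw [h3 x hxo]
        rw [e]
        exact (h2 v x hx).symm
    · rw [if_neg hv, Finset.mem_singleton]
      exact h3 v hv
  · intro h
    have hodd : ∀ v, ¬ ev v → ω' v = ω v := by
      intro v hv
      have h1 := h v
      unfold Sx at h1
      rw [if_neg hv, Finset.mem_singleton] at h1
      exact h1
    have heven : ∀ v, ev v → (∀ x, G.Adj v x → fo ω x ≠ fo ω' v) ∧
        ∀ x, G.Adj v x → go ω x ≠ go ω' v := by
      intro v hv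
      have h1 := h v
      unfold Sx at h1
      rw [if_pos hv, Finset.mem_product, T05_Rv, T05_Rv] at h1
      exact h1
    refine ⟨⟨fun x y hxy => ?_, fun x y hxy => ?_⟩, hodd⟩
    · by_cases hx : ev x
      · have hy : ¬ ev y := (hP x y hxy).1 hx
        have e : fo ω' y = fo ω y := by
          unfold fo
          rw [hodd y hy]
        rw [e]
        exact ((heven x hx).1 y hxy).symm
      · have hy : ev y := by
          by_contra hy
          exact hx ((hP x y hxy).2 hy)
        have e : fo ω' x = fo ω x := by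
          unfold fo
          rw [hodd x hx]
        rw [e]
        exact (heven y hy).1 x hxy.symm
    · by_cases hx : ev x
      · have hy : ¬ ev y := (hP x y hxy).1 hx
        have e : go ω' y = go ω y := by
          unfold go
          rw [hodd y hy]
        rw [e]
        exact ((heven x hx).2 y hxy).symm
      · have hy : ev y := by
          by_contra hy
          exact hx ((hP x y hxy).2 hy)
        have e : go ω' x = go ω x := by
          unfold go
          rw [hodd x hx]
        rw [e]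
        exact (heven y hy).2 x hxy.symm

theorem mem_cl_self (G : SimpleGraph V) (ev : V → Prop) {ω : V → Fin q × Fin q} (h : PrP G ω) : ω ∈ cl G ev ω :=
  (T05_mem G ev ω ω).2 ⟨h, fun _ _ => rfl⟩

private theorem T05_congr (G : SimpleGraph V) (ev : V → Prop) {ω ω' : V → Fin q × Fin q}
    (h : so ev ω' ω) : cl G ev ω' = cl G ev ω := by
  ext w
  rw [T05_mem, T05_mem]
  constructor
  · rintro ⟨h1, h2⟩
    exact ⟨h1, fun v hv => (h2 v hv).trans (h v hv)⟩
  · rintro ⟨h1, h2⟩
    exact ⟨h1, fun v hv => (h2 v hv).trans (h v hv).symm⟩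

private theorem T05_pos (G : SimpleGraph V) (ev : V → Prop) {ω : V → Fin q × Fin q}
    (h : PrP G ω) : (0 : ℝ) < ((cl G ev ω).card : ℝ) := by
  have h1 : 0 < (cl G ev ω).card := Finset.card_pos.2 ⟨ω, mem_cl_self G ev h⟩
  exact_mod_cast h1

theorem sum_cl_avg (G : SimpleGraph V) (ev : V → Prop) (Ω : Finset (V → Fin q × Fin q)) (hp : ∀ ω ∈ Ω, PrP G ω)
    (hc : ∀ ω ∈ Ω, cl G ev ω ⊆ Ω) (h : (V → Fin q × Fin q) → ℝ) :
    ∑ ω ∈ Ω, (∑ ω' ∈ cl G ev ω, h ω') / ((cl G ev ω).card : ℝ) = ∑ ω ∈ Ω, h ω := by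
  have h1 : ∀ ω ∈ Ω, (∑ ω' ∈ cl G ev ω, h ω') / ((cl G ev ω).card : ℝ) =
      ∑ ω' ∈ cl G ev ω, h ω' / ((cl G ev ω').card : ℝ) := by
    intro ω hω
    rw [Finset.sum_div]
    refine Finset.sum_congr rfl fun ω' hω' => ?_
    rw [T05_congr G ev ((T05_mem G ev ω ω').1 hω').2]
  rw [Finset.sum_congr rfl h1]
  rw [Finset.sum_comm' (t' := Ω) (s' := fun ω' => cl G ev ω')]
  · refine Finset.sum_congr rfl fun ω' hω' => ?_
    rw [Finset.sum_const, nsmul_eq_mul]
    have h2 := T05_pos G ev (hp ω' hω')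
    field_simp
  · intro ω ω'
    constructor
    · rintro ⟨hω, hω'⟩
      refine ⟨?_, hc ω hω hω'⟩
      exact (T05_mem G ev ω' ω).2
        ⟨hp ω hω, fun v hv => (((T05_mem G ev ω ω').1 hω').2 v hv).symm⟩
    · rintro ⟨hω, hω'⟩
      refine ⟨hc ω' hω' hω, ?_⟩
      exact (T05_mem G ev ω ω').2
        ⟨hp ω' hω', fun v hv => (((T05_mem G ev ω' ω).1 hω).2 v hv).symm⟩

theorem sum_cl_le (G : SimpleGraph V) (ev : V → Prop) (Ω : Finset (V → Fin q × Fin q)) (hp : ∀ ω ∈ Ω, PrP G ω)
    (hc : ∀ ω ∈ Ω, cl G ev ω ⊆ Ω) (h : (V → Fin q × Fin q) → ℝ) (K : ℝ)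
    (hK : ∀ ω ∈ Ω, ∑ ω' ∈ cl G ev ω, h ω' ≤ K * ((cl G ev ω).card : ℝ)) :
    ∑ ω ∈ Ω, h ω ≤ K * (Ω.card : ℝ) := by
  rw [← sum_cl_avg G ev Ω hp hc h]
  have h1 : ∀ ω ∈ Ω, (∑ ω' ∈ cl G ev ω, h ω') / ((cl G ev ω).card : ℝ) ≤ K := by
    intro ω hω
    rw [div_le_iff₀ (T05_pos G ev (hp ω hω))]
    exact hK ω hω
  refine (Finset.sum_le_sum h1).trans (le_of_eq ?_)
  rw [Finset.sum_const, nsmul_eq_mul, mul_comm]

open scoped Classical in
theorem card_cl_le (G : SimpleGraph V) (ev : V → Prop) (Ω : Finset (V → Fin q × Fin q)) (hp : ∀ ω ∈ Ω, PrP G ω)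
    (hc : ∀ ω ∈ Ω, cl G ev ω ⊆ Ω) (R : (V → Fin q × Fin q) → Prop) (M : ℝ)
    (hM : ∀ ω ∈ Ω, ((cl G ev ω).card : ℝ) ≤ M * (((cl G ev ω).filter R).card : ℝ)) :
    (Ω.card : ℝ) ≤ M * ((Ω.filter R).card : ℝ) := by
  have h1 : ∀ s : Finset (V → Fin q × Fin q),
      ∑ ω ∈ s, (if R ω then (1 : ℝ) else 0) = ((s.filter R).card : ℝ) := by
    intro s
    rw [Finset.sum_boole]
  rw [← h1 Ω, ← sum_cl_avg G ev Ω hp hc, Finset.mul_sum]
  have h2 : ∀ ω ∈ Ω, (1 : ℝ) ≤
      M * ((∑ ω' ∈ cl G ev ω, if R ω' then (1 : ℝ) else 0) / ((cl G ev ω).card : ℝ)) := by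
    intro ω hω
    rw [h1, mul_div_assoc', le_div_iff₀ (T05_pos G ev (hp ω hω)), one_mul]
    exact hM ω hω
  refine le_trans (le_of_eq ?_) (Finset.sum_le_sum h2)
  rw [Finset.sum_const, nsmul_eq_mul, mul_one]

end

end Pool.Agent.LC3

end
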