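import Pool.Agent.Lib_MP_2c424f_m.M06
import Pool.Agent.Lib_MP_2c424f_m.M10
import Pool.Agent.Lib_MP_2c424f_m.M14
import Pool.Agent.Lib_MP_2c424f_m.M22

/-!
# MP_2c424f_pr, q_c grows linearly: merged library part M23

Concatenation of smaller files (each in its own section), only to save build time.
-/

namespace Pool.Agent.LO
end Pool.Agent.LO

namespace Pool.Agent.LIN
end Pool.Agent.LIN

namespace Pool.Agent.THR
end Pool.Agent.THR

namespace Pool.Agent.COR
end Pool.Agent.COR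

namespace Pool.Agent.LC
end Pool.Agent.LC

/-! ### from `Lib_MP_2c424f_lo.Main23` -/

section

/-!
# The main expectation (piece MAIN)

`E T2 = ½ ∑_v log |SS f v| ≤ ½ ∑_v ℓ(q - x_v)` (`avg_vv`, `ER_in`), `log aa ≤ ℓ(aa) + κ |aa - k_u|`,
`ℓ` is affine, `aa = q - ∑ n - ∑ n (1 - n) + q ε`, `∑_u ∑_c m_u^c = ∑_v x_v` (`sum_nbr`).
-/

set_option autoImplicit false

open Finset

namespace Pool.Agent.LO

variable {d k q s : ℕ}

open scoped Classical in
/-- a sum over the sites of `R`, in the mean -/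
private theorem Main23_ER_in (A : Finset (Site d k)) (φ : Site d k → ℝ) :
    ER (fun R => ∑ u ∈ A.filter (fun u => u ∈ R), φ u) = (∑ u ∈ A, φ u) / 2 := by
  have h1 : (fun R : Finset (Site d k) => ∑ u ∈ A.filter (fun u => u ∈ R), φ u) =
      fun R => ∑ u ∈ A, φ u * (if u ∈ R then (1 : ℝ) else 0) := by
    funext R
    rw [Finset.sum_filter]
    refine Finset.sum_congr rfl fun u _ => ?_
    split_ifs <;> simp
  rw [h1, ER_sum, Finset.sum_div]
  refine Finset.sum_congr rfl fun u _ => ?_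
  rw [ER_mul, ER_in]
  ring

open scoped Classical in
/-- a sum over the sites outside `R`, in the mean -/
private theorem Main23_ER_out (A : Finset (Site d k)) (φ : Site d k → ℝ) :
    ER (fun R => ∑ u ∈ A.filter (fun u => u ∉ R), φ u) = (∑ u ∈ A, φ u) / 2 := by
  have h1 : (fun R : Finset (Site d k) => ∑ u ∈ A.filter (fun u => u ∉ R), φ u) =
      fun R => ∑ u ∈ A, φ u * (if u ∉ R then (1 : ℝ) else 0) := by
    funext R
    rw [Finset.sum_filter]
    refine Finset.sum_congr rfl fun u _ => ?_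
    split_ifs <;> simp
  rw [h1, ER_sum, Finset.sum_div]
  refine Finset.sum_congr rfl fun u _ => ?_
  rw [ER_mul, ER_notin]
  ring

/-- the mean number of available colours around the even sites -/
private theorem Main23_sum_mm (hd : 1 ≤ d) (hk : 1 ≤ k) (f : Site d k → Fin q) :
    ∑ u ∈ evs d k, ∑ c, mm f u c = ∑ v ∈ ods d k, (av f v : ℝ) := by
  have h1 : ∀ u ∈ evs d k, ∑ c, mm f u c = (∑ σ : Stp d, (av f (u + sv σ) : ℝ)) / (2 * d) := by
    intro u _
    unfold mm
    rw [← Finset.sum_div, Finset.sum_comm]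
    congr 1
    refine Finset.sum_congr rfl fun σ _ => ?_
    rw [av_eq]
  rw [Finset.sum_congr rfl h1, ← Finset.sum_div, Finset.sum_comm]
  have h2 : ∀ σ ∈ (univ : Finset (Stp d)), ∑ u ∈ evs d k, (av f (u + sv σ) : ℝ) =
      ∑ v ∈ ods d k, (av f v : ℝ) := fun σ _ => sum_step hk σ fun v => (av f v : ℝ)
  rw [Finset.sum_congr rfl h2, Finset.sum_const, Finset.card_univ, Fintype.card_prod,
    Fintype.card_fin, Fintype.card_bool, nsmul_eq_mul]
  have hd' : (0 : ℝ) < d := by exact_mod_cast hd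
  push_cast
  field_simp

/-- the code length of the colours on `R` -/
private theorem Main23_T2 (hd : 1 ≤ d) (hk : 1 ≤ k) (hq : 2 ≤ q) {f : Site d k → Fin q} :
    (∑ i : Fin d, ∑ a : ZMod (2 ^ s), ER (fun R => T2 s f i a R)) / (d * 2 ^ s) ≤
      (NN d k / 2 * Real.log ((q1 q : ℝ) * q2 q) - ∑ v ∈ ods d k, ell q (av f v)) / 2 := by
  have hd' : (0 : ℝ) < d := by exact_mod_cast hd
  have h1 : ∀ i : Fin d, ∑ a : ZMod (2 ^ s), ER (fun R => T2 s f i a R) =
      2 ^ s * (∑ v ∈ ods d k, Real.log ((SS f v).card)) / 2 := by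
    intro i
    have h2 : ∀ a ∈ (univ : Finset (ZMod (2 ^ s))), ER (fun R => T2 s f i a R) =
        (∑ u ∈ evs d k, Real.log ((SS f (vv s i a u)).card)) / 2 := by
      intro a _
      unfold T2
      exact Main23_ER_in (evs d k) fun u => Real.log ((SS f (vv s i a u)).card)
    rw [Finset.sum_congr rfl h2, ← Finset.sum_div,
      avg_vv hk i fun v => Real.log ((SS f v).card)]
  rw [Finset.sum_congr rfl fun i _ => h1 i, Finset.sum_const, Finset.card_univ, Fintype.card_fin,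
    nsmul_eq_mul]
  have h3 : (d : ℝ) * (2 ^ s * (∑ v ∈ ods d k, Real.log ((SS f v).card)) / 2) / (d * 2 ^ s) =
      (∑ v ∈ ods d k, Real.log ((SS f v).card)) / 2 := by
    field_simp
  rw [h3]
  refine div_le_div_of_nonneg_right ?_ (by norm_num)
  have h4 : NN d k / 2 * Real.log ((q1 q : ℝ) * q2 q) - ∑ v ∈ ods d k, ell q (av f v) =
      ∑ v ∈ ods d k, (Real.log ((q1 q : ℝ) * q2 q) - ell q (av f v)) := by
    rw [Finset.sum_sub_distrib, Finset.sum_const, nsmul_eq_mul, card_ods hd hk]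
  rw [h4]
  refine Finset.sum_le_sum fun v _ => ?_
  refine (log_le_ell hq _ (SS_card_pos hd f v)).trans ?_
  have h5 := ell_add hq (av f v : ℝ)
  have h6 : (q : ℝ) - av f v = ((SS f v).card : ℝ) := by
    unfold av
    have h7 : (SS f v).card ≤ q := by
      have := Finset.card_le_univ (SS f v)
      rwa [Fintype.card_fin] at this
    rw [Nat.cast_sub h7]
    ring
  rw [h6] at h5
  linarith

/-- the weight at one site -/
private theorem Main23_aa (hq : 2 ≤ q) {ε : ℝ} (he : 0 < ε) (f : Site d k → Fin q)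
    (R : Finset (Site d k)) (u : Site d k) :
    Real.log (aa ε f R u) ≤ (Real.log ((q1 q : ℝ) * q2 q) - ell q (∑ c, mm f u c)) -
      sl q * (∑ c, nn f R u c * (1 - nn f R u c)) - sl q * (∑ c, (nn f R u c - mm f u c)) +
      sl q * (q * ε) + kp q * (5 / 2 * (∑ c, nn f R u c * (1 - nn f R u c)) + q * ε) := by
  have hpos : 0 < aa ε f R u := by
    unfold aa
    refine Finset.sum_pos (fun c _ => ?_) ⟨⟨0, by omega⟩, Finset.mem_univ _⟩
    unfold gg
    positivity
  have hb : ∀ c : Fin q, ∃ b : ℤ, |gg ε (nn f R u c) - b| ≤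
      5 / 2 * (nn f R u c * (1 - nn f R u c)) + ε := fun c =>
    gg_near he.le (nn_nonneg f R u c) (nn_le_one f R u c)
  choose b hb using hb
  have h1 := log_le_ell_real hq (aa ε f R u) hpos (∑ c, b c)
  have h2 : |aa ε f R u - ((∑ c, b c : ℤ) : ℝ)| ≤
      5 / 2 * (∑ c, nn f R u c * (1 - nn f R u c)) + q * ε := by
    have h3 : aa ε f R u - ((∑ c, b c : ℤ) : ℝ) = ∑ c, (gg ε (nn f R u c) - b c) := by
      unfold aa
      rw [Finset.sum_sub_distrib]
      push_cast
      rfl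
    rw [h3]
    refine (Finset.abs_sum_le_sum_abs _ _).trans ?_
    refine (Finset.sum_le_sum fun c _ => hb c).trans (le_of_eq ?_)
    rw [Finset.sum_add_distrib, ← Finset.mul_sum, Finset.sum_const, Finset.card_univ,
      Fintype.card_fin, nsmul_eq_mul]
  have h4 : aa ε f R u = (q - ∑ c, mm f u c) - (∑ c, nn f R u c * (1 - nn f R u c)) -
      (∑ c, (nn f R u c - mm f u c)) + q * ε := by
    have h5 : ∀ c : Fin q, gg ε (nn f R u c) = 1 - mm f u c - nn f R u c * (1 - nn f R u c) -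
        (nn f R u c - mm f u c) + ε := by
      intro c
      unfold gg
      ring
    unfold aa
    rw [Finset.sum_congr rfl fun c _ => h5 c]
    simp only [Finset.sum_add_distrib, Finset.sum_sub_distrib, Finset.sum_const, Finset.card_univ,
      Fintype.card_fin, nsmul_eq_mul, mul_one]
  have h6 : ell q (aa ε f R u) = ell q (q - ∑ c, mm f u c) -
      sl q * (∑ c, nn f R u c * (1 - nn f R u c)) - sl q * (∑ c, (nn f R u c - mm f u c)) +
      sl q * (q * ε) := by
    rw [h4]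
    unfold ell
    ring
  have h7 := ell_add hq (∑ c, mm f u c)
  have h8 := mul_le_mul_of_nonneg_left h2 (kp_nonneg hq)
  linarith

theorem main23 (hd : 2 ≤ d) (hk : 2 ≤ k) (hq : 2 ≤ q) {ε : ℝ} (he : 0 < ε)
    {f : Site d k → Fin q} (hf : Prp f) :
    (∑ i : Fin d, ∑ a : ZMod (2 ^ s), ER (fun R => T2 s f i a R)) / (d * 2 ^ s) +
      ER (fun R => T3 ε f R) + T4 f ≤
    NN d k / 2 * Real.log ((q1 q : ℝ) * q2 q) - sl q * (G1 f + G2 f) +
      kp q * (5 / 2 * G1 f + q * ε * NN d k / 4) + sl q * q * ε * NN d k / 4 + KK ε f -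
      ∑ v ∈ ods d k, (ell q (av f v) - Real.log (av f v)) := by
  classical
  have hd1 : 1 ≤ d := by omega
  have hk1 : 1 ≤ k := by omega
  have hT2 := Main23_T2 (s := s) (f := f) hd1 hk1 hq
  -- the third part
  set S1 : Finset (Site d k) → ℝ := fun R =>
    ∑ u ∈ (evs d k).filter (fun u => u ∉ R), ∑ c, nn f R u c * (1 - nn f R u c) with hS1
  set S2 : Finset (Site d k) → ℝ := fun R =>
    ∑ u ∈ (evs d k).filter (fun u => u ∉ R), ∑ c, (nn f R u c - mm f u c) with hS2
  set S3 : Finset (Site d k) → ℝ := fun R =>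
    ∑ u ∈ (evs d k).filter (fun u => u ∉ R), -Real.log (gg ε (nn f R u (f u))) with hS3
  set S4 : Finset (Site d k) → ℝ := fun R =>
    ∑ u ∈ (evs d k).filter (fun u => u ∉ R),
      (Real.log ((q1 q : ℝ) * q2 q) - ell q (∑ c, mm f u c)) with hS4
  set S5 : Finset (Site d k) → ℝ := fun R =>
    ∑ u ∈ (evs d k).filter (fun u => u ∉ R), ((q : ℝ) * ε) with hS5
  have hT3 : ER (fun R => T3 ε f R) ≤ ER (fun R => S4 R + ((-sl q) * S1 R + ((-sl q) * S2 R +
      (sl q * S5 R + (kp q * (5 / 2) * S1 R + (kp q * S5 R + S3 R)))))) := by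
    refine ER_mono fun R => ?_
    simp only [hS1, hS2, hS3, hS4, hS5, Finset.mul_sum, ← Finset.sum_add_distrib]
    unfold T3
    refine Finset.sum_le_sum fun u _ => ?_
    have h1 := Main23_aa hq he f R u
    simp only [← Finset.mul_sum, ← Finset.sum_sub_distrib] at h1 ⊢
    linarith
  rw [ER_add, ER_add, ER_add, ER_add, ER_add, ER_add, ER_mul, ER_mul, ER_mul, ER_mul, ER_mul] at hT3
  have e1 : ER S1 = G1 f := rfl
  have e2 : ER S2 = G2 f := rfl
  have e3 : ER S3 = KK ε f := rfl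
  have e4 : ER S4 = (NN d k / 2 * Real.log ((q1 q : ℝ) * q2 q) - ∑ v ∈ ods d k, ell q (av f v)) / 2 := by
    rw [hS4, Main23_ER_out (evs d k) fun u =>
      (Real.log ((q1 q : ℝ) * q2 q) - ell q (∑ c, mm f u c))]
    rw [Finset.sum_sub_distrib, Finset.sum_const, nsmul_eq_mul, card_evs hd1 hk1]
    have h1 : ∑ u ∈ evs d k, ell q (∑ c, mm f u c) = ∑ v ∈ ods d k, ell q (av f v) := by
      unfold ell
      simp only [mul_sub, Finset.sum_add_distrib, Finset.sum_sub_distrib, Finset.sum_const,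
        nsmul_eq_mul, ← Finset.mul_sum]
      rw [Main23_sum_mm hd1 hk1 f, card_evs hd1 hk1, card_ods hd1 hk1]
    rw [h1]
  have e5 : ER S5 = q * ε * NN d k / 4 := by
    rw [hS5, Main23_ER_out (evs d k) fun _ => ((q : ℝ) * ε), Finset.sum_const, nsmul_eq_mul,
      card_evs hd1 hk1]
    ring
  rw [e1, e2, e3, e4, e5] at hT3
  have hT4 : T4 f = ∑ v ∈ ods d k, Real.log (av f v) := rfl
  rw [Finset.sum_sub_distrib, hT4]
  have := hT2
  nlinarith [hT3, hT2]

end Pool.Agent.LO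

end

/-! ### from `Lib_MP_2c424f_lo.TOne` -/

section

/-!
# The mean cost of the lines (piece TONE)

Every `v` with `(v i).val ≥ 2` gives the pair `(u - e_i, u + e_i)` with `u = v - e_i` even.  Sum over
`a` first (every `v` has exactly one `a`), `2^s ≥ d`, `log (1/(1-ε)) ≤ 2ε`, and
`∑_i |SS (u-e_i) ∆ SS (u+e_i)| ≤ ∑_c 2 d min (m, 1-m) ≤ 4 d ∑_c m (1-m)`.
-/

set_option autoImplicit false

open Finset

namespace Pool.Agent.LO

variable {d k q s : ℕ}

private theorem TOne_log {ε : ℝ} (he : 0 < ε) (he1 : ε ≤ 1 / 2) :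
    Real.log (1 / (1 - ε)) ≤ 2 * ε := by
  have h1 : 0 < 1 - ε := by linarith
  have h2 := Real.log_le_sub_one_of_pos (show 0 < 1 / (1 - ε) by positivity)
  have h3 : 1 / (1 - ε) - 1 ≤ 2 * ε := by
    have h4 : 1 / (1 - ε) ≤ 1 + 2 * ε := by
      rw [div_le_iff₀ h1]
      nlinarith
    linarith
  linarith

private theorem TOne_log_nonneg {ε : ℝ} (he : 0 < ε) (he1 : ε ≤ 1 / 2) :
    0 ≤ Real.log (1 / ε) := by
  apply Real.log_nonneg
  rw [le_div_iff₀ he]
  linarith

private theorem TOne_zz (f : Site d k → Fin q) (v : Site d k) (c : Fin q) :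
    zz f v c = 0 ∨ zz f v c = 1 := by
  unfold zz
  split_ifs
  · exact Or.inl rfl
  · exact Or.inr rfl

private theorem TOne_symm (f : Site d k → Fin q) (v w : Site d k) :
    ((symmDiff (SS f v) (SS f w)).card : ℝ) = ∑ c, |zz f v c - zz f w c| := by
  rw [Finset.card_eq_sum_ones, Nat.cast_sum]
  rw [← Finset.sum_subset (Finset.subset_univ (symmDiff (SS f v) (SS f w)))]
  · refine Finset.sum_congr rfl fun c hc => ?_
    rw [Finset.mem_symmDiff] at hc
    unfold zz
    rcases hc with ⟨h1, h2⟩ | ⟨h1, h2⟩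
    · rw [if_pos h1, if_neg h2]
      norm_num
    · rw [if_neg h2, if_pos h1]
      norm_num
  · intro c _ hc
    rw [Finset.mem_symmDiff, not_or] at hc
    unfold zz
    by_cases h1 : c ∈ SS f v
    · by_cases h2 : c ∈ SS f w
      · rw [if_pos h1, if_pos h2]
        norm_num
      · exact absurd ⟨h1, h2⟩ hc.1
    · by_cases h2 : c ∈ SS f w
      · exact absurd ⟨h2, h1⟩ hc.2
      · rw [if_neg h1, if_neg h2]
        norm_num

private theorem TOne_pair (hd : 1 ≤ d) (f : Site d k → Fin q) (u : Site d k) (c : Fin q) :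
    ∑ i : Fin d, |zz f (u + sv (i, true)) c - zz f (u + sv (i, false)) c| ≤
      4 * d * (mm f u c * (1 - mm f u c)) := by
  have hd0 : (0 : ℝ) < d := by exact_mod_cast hd
  set S : ℝ := ∑ σ : Stp d, zz f (u + sv σ) c with hS
  have hS2 : S = ∑ i : Fin d, (zz f (u + sv (i, true)) c + zz f (u + sv (i, false)) c) := by
    rw [hS, Fintype.sum_prod_type]
    refine Finset.sum_congr rfl fun i _ => ?_
    rw [Fintype.sum_bool]
  have hA1 : ∑ i : Fin d, |zz f (u + sv (i, true)) c - zz f (u + sv (i, false)) c| ≤ S := by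
    rw [hS2]
    refine Finset.sum_le_sum fun i _ => ?_
    rcases TOne_zz f (u + sv (i, true)) c with h | h <;>
      rcases TOne_zz f (u + sv (i, false)) c with h' | h' <;> rw [h, h'] <;> norm_num
  have hA2 : ∑ i : Fin d, |zz f (u + sv (i, true)) c - zz f (u + sv (i, false)) c| ≤
      2 * d - S := by
    have h2 : (2 * d - S : ℝ) =
        ∑ i : Fin d, (2 - (zz f (u + sv (i, true)) c + zz f (u + sv (i, false)) c)) := by
      rw [Finset.sum_sub_distrib, ← hS2, Finset.sum_const, Finset.card_univ, Fintype.card_fin,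
        nsmul_eq_mul]
      ring
    rw [h2]
    refine Finset.sum_le_sum fun i _ => ?_
    rcases TOne_zz f (u + sv (i, true)) c with h | h <;>
      rcases TOne_zz f (u + sv (i, false)) c with h' | h' <;> rw [h, h'] <;> norm_num
  set A : ℝ := ∑ i : Fin d, |zz f (u + sv (i, true)) c - zz f (u + sv (i, false)) c| with hA
  have hm : mm f u c = S / (2 * d) := rfl
  have h3 : 4 * (d : ℝ) * (mm f u c * (1 - mm f u c)) = S * (2 * d - S) / d := by
    rw [hm]
    field_simp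
    ring
  rw [h3, le_div_iff₀ hd0]
  have h0 : 0 ≤ A := Finset.sum_nonneg fun i _ => abs_nonneg _
  rcases le_total S d with h | h
  · nlinarith [mul_le_mul_of_nonneg_right hA1 hd0.le]
  · nlinarith [mul_le_mul_of_nonneg_right hA2 hd0.le]

private theorem TOne_cnt (i : Fin d) [DecidablePred fun v : Site d k => (v i).val < 2] :
    (((ods d k).filter (fun v => (v i).val < 2)).card : ℝ) * 2 ^ k ≤ NN d k := by
  classical
  set A := (ods d k).filter (fun v => (v i).val < 2) with hA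
  have h : (A ×ˢ (univ : Finset (ZMod (2 ^ k)))).card ≤ (univ : Finset (Site d k)).card := by
    refine Finset.card_le_card_of_injOn (fun p => Function.update p.1 i p.2)
      (fun _ _ => mem_univ _) ?_
    rintro ⟨v, c⟩ hv ⟨v', c'⟩ hv' he
    simp only at he
    have hc : c = c' := by
      have := congrFun he i
      simpa using this
    have hj : ∀ j, j ≠ i → v j = v' j := by
      intro j hj
      have := congrFun he j
      simpa [Function.update_of_ne hj] using this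
    have hv1 : v ∈ A := (Finset.mem_product.1 hv).1
    have hv1' : v' ∈ A := (Finset.mem_product.1 hv').1
    rw [hA, Finset.mem_filter] at hv1 hv1'
    have ho : ¬ evn v := by
      have := hv1.1
      unfold ods at this
      exact (Finset.mem_filter.1 this).2
    have ho' : ¬ evn v' := by
      have := hv1'.1
      unfold ods at this
      exact (Finset.mem_filter.1 this).2
    have hs : ∑ j ∈ univ.erase i, (v j).val = ∑ j ∈ univ.erase i, (v' j).val := by
      refine Finset.sum_congr rfl fun j hj' => ?_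
      rw [hj j (Finset.ne_of_mem_erase hj')]
    have hi : (v i).val = (v' i).val := by
      unfold evn at ho ho'
      rw [← Finset.add_sum_erase _ _ (Finset.mem_univ i), Nat.even_iff] at ho ho'
      rw [hs] at ho
      have h1 := hv1.2
      have h2 := hv1'.2
      omega
    have hvi : v i = v' i := ZMod.val_injective _ hi
    have hvv : v = v' := by
      funext j
      by_cases hji : j = i
      · rw [hji]
        exact hvi
      · exact hj j hji
    rw [hvv, hc]
  rw [Finset.card_product, Finset.card_univ, ZMod.card, Finset.card_univ] at h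
  rw [← card_site d k]
  exact_mod_cast h

private theorem TOne_dir (hd : 2 ≤ d) (hk : 1 ≤ k) {ε : ℝ} (he : 0 < ε)
    (he1 : ε ≤ 1 / 2) (f : Site d k → Fin q) (i : Fin d) :
    ∑ a : ZMod (2 ^ s), T1 ε s f i a ≤
      Real.log (1 / ε) * ∑ u ∈ evs d k, ∑ c, |zz f (u + sv (i, true)) c - zz f (u + sv (i, false)) c|
        + NN d k * q * ε + NN d k * q / 2 ^ k := by
  classical
  have hL := TOne_log_nonneg he he1
  have hE := TOne_log he he1
  have hq0 : (0 : ℝ) ≤ q := Nat.cast_nonneg q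
  have hT : ∑ a : ZMod (2 ^ s), T1 ε s f i a = ∑ v ∈ ods d k,
      (if (v i).val < 2 then (q : ℝ) * Real.log 2
        else cst ε (SS f v) (SS f (v + sv (i, false) + sv (i, false)))) := by
    unfold T1
    exact Finset.sum_fiberwise (ods d k) (fun v => hh s i v) _
  have hb : ∀ v ∈ ods d k, (if (v i).val < 2 then (q : ℝ) * Real.log 2
        else cst ε (SS f v) (SS f (v + sv (i, false) + sv (i, false)))) ≤
      (if (v i).val < 2 then (q : ℝ) else 0) +
        (Real.log (1 / ε) * ∑ c, |zz f v c - zz f (v + sv (i, false) + sv (i, false)) c|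
          + q * (2 * ε)) := by
    intro v _
    have hc0 : 0 ≤ ∑ c, |zz f v c - zz f (v + sv (i, false) + sv (i, false)) c| :=
      Finset.sum_nonneg fun c _ => abs_nonneg _
    split_ifs with h
    · have h2 : Real.log 2 ≤ 1 := by
        have := Real.log_le_sub_one_of_pos (show (0 : ℝ) < 2 by norm_num)
        linarith
      have h3 : (q : ℝ) * Real.log 2 ≤ q := by nlinarith
      have h4 : 0 ≤ Real.log (1 / ε) *
        ∑ c, |zz f v c - zz f (v + sv (i, false) + sv (i, false)) c| := mul_nonneg hL hc0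
      have h5 : 0 ≤ (q : ℝ) * (2 * ε) := by positivity
      linarith
    · unfold cst
      rw [TOne_symm]
      set X := ∑ c, |zz f v c - zz f (v + sv (i, false) + sv (i, false)) c| with hX
      have h6 : 0 ≤ Real.log (1 / (1 - ε)) := by
        apply Real.log_nonneg
        rw [le_div_iff₀ (by linarith)]
        linarith
      have h7 : (q - X) * Real.log (1 / (1 - ε)) ≤ q * (2 * ε) := by
        calc (q - X) * Real.log (1 / (1 - ε)) ≤ q * Real.log (1 / (1 - ε)) :=
              mul_le_mul_of_nonneg_right (by linarith) h6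
          _ ≤ q * (2 * ε) := mul_le_mul_of_nonneg_left hE hq0
      nlinarith
  rw [hT]
  refine (Finset.sum_le_sum hb).trans ?_
  rw [Finset.sum_add_distrib, Finset.sum_add_distrib]
  have h1 : ∑ v ∈ ods d k, (if (v i).val < 2 then (q : ℝ) else 0) ≤ NN d k * q / 2 ^ k := by
    rw [← Finset.sum_filter, Finset.sum_const, nsmul_eq_mul]
    have := TOne_cnt (d := d) (k := k) i
    rw [le_div_iff₀ (by positivity)]
    calc (((ods d k).filter (fun v => (v i).val < 2)).card : ℝ) * q * 2 ^ k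
        = (((ods d k).filter (fun v => (v i).val < 2)).card : ℝ) * 2 ^ k * q := by ring
      _ ≤ NN d k * q := mul_le_mul_of_nonneg_right this hq0
  have h2 : ∑ v ∈ ods d k, (q : ℝ) * (2 * ε) = NN d k * q * ε := by
    rw [Finset.sum_const, nsmul_eq_mul, card_ods (by omega) hk]
    ring
  have h3 : ∑ v ∈ ods d k, Real.log (1 / ε) *
      ∑ c, |zz f v c - zz f (v + sv (i, false) + sv (i, false)) c| =
      Real.log (1 / ε) * ∑ u ∈ evs d k,
        ∑ c, |zz f (u + sv (i, true)) c - zz f (u + sv (i, false)) c| := by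
    rw [← Finset.mul_sum]
    congr 1
    rw [← sum_step hk (i, true) fun v =>
      ∑ c, |zz f v c - zz f (v + sv (i, false) + sv (i, false)) c|]
    refine Finset.sum_congr rfl fun u _ => ?_
    have h4 : u + sv (i, true) + sv (i, false) + sv (i, false) = u + sv (i, false) := by
      have := sv_opp (d := d) (k := k) i true
      simp only [Bool.not_true] at this
      rw [add_assoc u, this, add_zero]
    rw [h4]
  rw [h2, h3]
  linarith

theorem ET1 (hd : 2 ≤ d) (hk : 2 ≤ k) (hs : s ≤ k) (h1 : d ≤ 2 ^ s) {ε : ℝ} (he : 0 < ε)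
    (he1 : ε ≤ 1 / 2) (f : Site d k → Fin q) :
    (∑ i : Fin d, ∑ a : ZMod (2 ^ s), T1 ε s f i a) / (d * 2 ^ s) ≤
      4 * Real.log (1 / ε) / d * ∑ c, II f c + NN d k * q * ε / d + NN d k * q / (2 ^ k * d) := by
  have hd0 : (0 : ℝ) < d := by
    have : 0 < d := by omega
    exact_mod_cast this
  have hs0 : (0 : ℝ) < 2 ^ s := by positivity
  have hds : (d : ℝ) ≤ 2 ^ s := by exact_mod_cast h1
  have hL := TOne_log_nonneg he he1
  have hq0 : (0 : ℝ) ≤ q := Nat.cast_nonneg q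
  have hN0 : 0 ≤ NN d k := by unfold NN; positivity
  have hI0 : ∀ c, 0 ≤ II f c := by
    intro c
    unfold II
    refine Finset.sum_nonneg fun u _ => ?_
    have h := TOne_pair (by omega : 1 ≤ d) f u c
    have h0 : 0 ≤ ∑ i : Fin d, |zz f (u + sv (i, true)) c - zz f (u + sv (i, false)) c| :=
      Finset.sum_nonneg fun i _ => abs_nonneg _
    have h4 : (0 : ℝ) < 4 * d := by positivity
    by_contra hneg
    push Not at hneg
    nlinarith
  have hII0 : 0 ≤ ∑ c, II f c := Finset.sum_nonneg fun c _ => hI0 c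
  have hsum : ∑ i : Fin d, ∑ a : ZMod (2 ^ s), T1 ε s f i a ≤
      Real.log (1 / ε) * (4 * d * ∑ c, II f c) + d * (NN d k * q * ε) +
        d * (NN d k * q / 2 ^ k) := by
    have h2 : ∑ i : Fin d, ∑ a : ZMod (2 ^ s), T1 ε s f i a ≤
        ∑ i : Fin d, (Real.log (1 / ε) *
          ∑ u ∈ evs d k, ∑ c, |zz f (u + sv (i, true)) c - zz f (u + sv (i, false)) c|
        + NN d k * q * ε + NN d k * q / 2 ^ k) :=
      Finset.sum_le_sum fun i _ => TOne_dir hd (by omega) he he1 f i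
    refine h2.trans ?_
    rw [Finset.sum_add_distrib, Finset.sum_add_distrib, ← Finset.mul_sum]
    simp only [Finset.sum_const, Finset.card_univ, Fintype.card_fin, nsmul_eq_mul]
    have h3 : ∑ i : Fin d, ∑ u ∈ evs d k,
        ∑ c, |zz f (u + sv (i, true)) c - zz f (u + sv (i, false)) c| ≤ 4 * d * ∑ c, II f c := by
      have h4 : ∑ i : Fin d, ∑ u ∈ evs d k,
        ∑ c, |zz f (u + sv (i, true)) c - zz f (u + sv (i, false)) c| =
          ∑ c, ∑ u ∈ evs d k,
            ∑ i : Fin d, |zz f (u + sv (i, true)) c - zz f (u + sv (i, false)) c| := by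
        rw [Finset.sum_comm]
        rw [Finset.sum_comm (s := (univ : Finset (Fin q)))]
        refine Finset.sum_congr rfl fun u _ => ?_
        rw [Finset.sum_comm]
      rw [h4, Finset.mul_sum]
      refine Finset.sum_le_sum fun c _ => ?_
      unfold II
      rw [Finset.mul_sum]
      exact Finset.sum_le_sum fun u _ => TOne_pair (by omega) f u c
    have h5 := mul_le_mul_of_nonneg_left h3 hL
    linarith
  have hX0 : 0 ≤ Real.log (1 / ε) * (4 * ∑ c, II f c) + NN d k * q * ε + NN d k * q / 2 ^ k := by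
    positivity
  calc (∑ i : Fin d, ∑ a : ZMod (2 ^ s), T1 ε s f i a) / (d * 2 ^ s)
      ≤ (Real.log (1 / ε) * (4 * d * ∑ c, II f c) + d * (NN d k * q * ε) +
        d * (NN d k * q / 2 ^ k)) / (d * 2 ^ s) :=
        div_le_div_of_nonneg_right hsum (by positivity)
    _ = (Real.log (1 / ε) * (4 * ∑ c, II f c) + NN d k * q * ε + NN d k * q / 2 ^ k) / 2 ^ s := by
        field_simp
    _ ≤ (Real.log (1 / ε) * (4 * ∑ c, II f c) + NN d k * q * ε + NN d k * q / 2 ^ k) / d :=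
        div_le_div_of_nonneg_left hX0 hd0 hds
    _ = _ := by
        field_simp

end Pool.Agent.LO

end

/-! ### from `Lib_MP_2c424f_lo.Star` -/

section

/-!
# The coding bound (piece STAR)

`main23`, `ET1`, `KK_le` and arithmetic; `Loss ≤ (s/2)(G1+G2) + gaps` because `G1 + G2 ≥ (I + Q)/4`,
`sl q ≥ 1/q2 ≥ 4/(3q)`; `20 kp ≤ sl`; `q ≤ d/(1000 log d)`.
-/

set_option autoImplicit false

open Finset

namespace Pool.Agent.LO

variable {d k q s : ℕ}

/-- the mean of the total code length -/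
private theorem Star_mean (hd : 1 ≤ d) (ε : ℝ) (f : Site d k → Fin q) :
    (∑ i : Fin d, ∑ a : ZMod (2 ^ s), ER (fun R => TT ε s f i a R)) / (d * 2 ^ s) =
      (∑ i : Fin d, ∑ a : ZMod (2 ^ s), T1 ε s f i a) / (d * 2 ^ s) +
      ((∑ i : Fin d, ∑ a : ZMod (2 ^ s), ER (fun R => T2 s f i a R)) / (d * 2 ^ s) +
        ER (fun R => T3 ε f R) + T4 f) := by
  have hd0 : (0 : ℝ) < d := by exact_mod_cast hd
  have h1 : ∀ (i : Fin d) (a : ZMod (2 ^ s)), ER (fun R => TT ε s f i a R) =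
      T1 ε s f i a + ER (fun R => T2 s f i a R) + (ER (fun R => T3 ε f R) + T4 f) := by
    intro i a
    unfold TT
    rw [ER_add, ER_add, ER_add, ER_const, ER_const]
    ring
  have h2 : ∑ i : Fin d, ∑ a : ZMod (2 ^ s), ER (fun R => TT ε s f i a R) =
      (∑ i : Fin d, ∑ a : ZMod (2 ^ s), T1 ε s f i a) +
      (∑ i : Fin d, ∑ a : ZMod (2 ^ s), ER (fun R => T2 s f i a R)) +
      d * 2 ^ s * (ER (fun R => T3 ε f R) + T4 f) := by
    have h3 : ∀ i : Fin d, ∑ a : ZMod (2 ^ s), ER (fun R => TT ε s f i a R) =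
        (∑ a : ZMod (2 ^ s), T1 ε s f i a) + (∑ a : ZMod (2 ^ s), ER (fun R => T2 s f i a R)) +
          2 ^ s * (ER (fun R => T3 ε f R) + T4 f) := by
      intro i
      rw [Finset.sum_congr rfl (fun a _ => h1 i a), Finset.sum_add_distrib, Finset.sum_add_distrib,
        Finset.sum_const, Finset.card_univ, ZMod.card, nsmul_eq_mul]
      push_cast
      ring
    rw [Finset.sum_congr rfl (fun i _ => h3 i), Finset.sum_add_distrib, Finset.sum_add_distrib,
      Finset.sum_const, Finset.card_univ, Fintype.card_fin, nsmul_eq_mul]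
    ring
  rw [h2]
  have h4 : (0 : ℝ) < d * 2 ^ s := by positivity
  rw [add_div, add_div, mul_div_cancel_left₀ _ h4.ne']
  ring

private theorem Star_log_two : (69 / 100 : ℝ) ≤ Real.log 2 := by
  have := Real.log_two_gt_d9
  linarith

/-- the cut-off `Y` -/
private theorem Star_Y (hd : 100 ≤ d) : ∃ Y : ℕ, (1 / 2 : ℝ) ^ Y ≤ 1 / (d : ℝ) ^ 6 ∧
    (Y : ℝ) ≤ 20 * Real.log d := by
  refine ⟨6 * (Nat.log 2 d + 1), ?_, ?_⟩
  · have h1 : d < 2 ^ (Nat.log 2 d + 1) := Nat.lt_pow_succ_log_self (by norm_num) d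
    have h2 : (d : ℝ) ≤ 2 ^ (Nat.log 2 d + 1) := by exact_mod_cast h1.le
    have hd0 : (0 : ℝ) < d := by
      have : 0 < d := by omega
      exact_mod_cast this
    rw [mul_comm 6, pow_mul, one_div_pow, one_div_pow]
    apply one_div_le_one_div_of_le (by positivity)
    exact pow_le_pow_left₀ hd0.le h2 6
  · have hd0 : (0 : ℝ) < d := by
      have : 0 < d := by omega
      exact_mod_cast this
    have h1 : (2 : ℝ) ^ Nat.log 2 d ≤ d := by exact_mod_cast Nat.pow_log_le_self 2 (by omega)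
    have h2 := Real.log_le_log (by positivity) h1
    rw [Real.log_pow] at h2
    have h3 := Star_log_two
    have h4 : (1 : ℝ) ≤ Real.log d := by
      rw [Real.le_log_iff_exp_le hd0]
      have := Real.exp_one_lt_d9
      have h5 : (100 : ℝ) ≤ d := by exact_mod_cast hd
      linarith
    have h6 : (0 : ℝ) ≤ (Nat.log 2 d : ℝ) := Nat.cast_nonneg _
    push_cast
    nlinarith

private theorem Star_four (hd : 100 ≤ d) : (1 / 4 : ℝ) ^ d ≤ 1 / (d : ℝ) ^ 6 := by
  have h : ∀ n : ℕ, 10 ≤ n → n ^ 6 ≤ 4 ^ n := by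
    intro n hn
    induction n, hn using Nat.le_induction with
    | base => norm_num
    | succ n hn ih =>
      have h1 : (n + 1) ^ 6 ≤ 4 * n ^ 6 := by
        have h2 : ((n : ℝ) + 1) ^ 6 ≤ 4 * (n : ℝ) ^ 6 := by
          have hn' : (10 : ℝ) ≤ n := by exact_mod_cast hn
          have h3 : (n : ℝ) + 1 ≤ 11 / 10 * n := by linarith
          calc ((n : ℝ) + 1) ^ 6 ≤ (11 / 10 * (n : ℝ)) ^ 6 := pow_le_pow_left₀ (by positivity) h3 6
            _ = (11 / 10) ^ 6 * (n : ℝ) ^ 6 := by ring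
            _ ≤ 4 * (n : ℝ) ^ 6 := by
              apply mul_le_mul_of_nonneg_right _ (by positivity)
              norm_num
        exact_mod_cast h2
      calc (n + 1) ^ 6 ≤ 4 * n ^ 6 := h1
        _ ≤ 4 * 4 ^ n := Nat.mul_le_mul_left 4 ih
        _ = 4 ^ (n + 1) := by ring
  have h1 := h d (by omega)
  have h2 : (d : ℝ) ^ 6 ≤ 4 ^ d := by exact_mod_cast h1
  have hd0 : (0 : ℝ) < d := by
    have : 0 < d := by omega
    exact_mod_cast this
  rw [one_div_pow]
  exact one_div_le_one_div_of_le (by positivity) h2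

/-- the slope times `q` -/
private theorem Star_sl (hq : 2 ≤ q) (h : Even q ∨ 41 ≤ q) : 4 / (3 * (q : ℝ)) ≤ sl q ∧
    sl q * q ≤ 3 := by
  have hq0 : (0 : ℝ) < q := by
    have : 0 < q := by omega
    exact_mod_cast this
  have hq1 := q1_pos hq
  have hq1' : (0 : ℝ) < q1 q := by exact_mod_cast hq1
  constructor
  · refine le_trans ?_ (sl_ge hq)
    have h1 : 4 * q2 q ≤ 3 * q := by
      unfold q2
      rcases h with h | h
      · obtain ⟨r, hr⟩ := h
        omega
      · omega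
    have h2 : 0 < q2 q := by
      unfold q2
      omega
    have h1' : 4 * (q2 q : ℝ) ≤ 3 * q := by exact_mod_cast h1
    have h2' : (0 : ℝ) < q2 q := by exact_mod_cast h2
    rw [div_le_div_iff₀ (by positivity) h2']
    linarith
  · have h1 : q ≤ 3 * q1 q := by
      unfold q1
      omega
    have h1' : (q : ℝ) ≤ 3 * q1 q := by exact_mod_cast h1
    calc sl q * q ≤ 1 / (q1 q : ℝ) * q := mul_le_mul_of_nonneg_right (sl_le hq) hq0.le
      _ = q / q1 q := by ring
      _ ≤ 3 := by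
        rw [div_le_iff₀ hq1']
        linarith

/-- the arithmetic -/
private theorem Star_arith {D Q L lam S K g1 g2 I J Y : ℝ} (hD : 100 ≤ D) (hL : 1 ≤ L) (hQ : 0 < Q)
    (hA : Q * (1000 * L) ≤ D) (hlam : lam = 4 * L) (hS : 4 / (3 * Q) ≤ S)
    (hK : 20 * K ≤ S) (hg1 : 0 ≤ g1) (hg2 : 0 ≤ g2)
    (hI : I ≤ 2 * (g1 + g2)) (hJ : J ≤ 2 * g2)
    (hY0 : 0 ≤ Y) (hY : Y ≤ 20 * L) :
    4 * lam / D * I + K * (5 / 2 * g1) + 3 * (Y / (2 * D) * J) + lam * (32 / D * J) +
      1 / (6 * Q) * (I + J) ≤ S * (g1 + g2) := by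
  have hDp : (0 : ℝ) < D := by linarith
  have hLD : L / D ≤ 1 / (1000 * Q) := by
    rw [div_le_div_iff₀ hDp (by positivity)]
    linarith
  have h1 : 4 * lam / D * I ≤ 32 * (L / D) * (g1 + g2) := by
    have : 4 * lam / D = 16 * (L / D) := by rw [hlam]; ring
    rw [this]
    have h0 : 0 ≤ 16 * (L / D) := by positivity
    nlinarith [mul_le_mul_of_nonneg_left hI h0]
  have h2 : K * (5 / 2 * g1) ≤ S / 8 * g1 := by
    nlinarith [mul_le_mul_of_nonneg_right hK hg1]
  have h3 : 3 * (Y / (2 * D) * J) ≤ 60 * (L / D) * g2 := by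
    have e : 3 * (Y / (2 * D) * J) = 3 / 2 * (Y / D) * J := by ring
    rw [e]
    have h0 : 0 ≤ 3 / 2 * (Y / D) := by positivity
    have h4 : 3 / 2 * (Y / D) * J ≤ 3 / 2 * (Y / D) * (2 * g2) := mul_le_mul_of_nonneg_left hJ h0
    have h5 : Y / D ≤ 20 * (L / D) := by
      rw [← mul_div_assoc]
      exact div_le_div_of_nonneg_right hY hDp.le
    nlinarith [mul_le_mul_of_nonneg_right h5 hg2]
  have h4 : lam * (32 / D * J) ≤ 256 * (L / D) * g2 := by
    have e : lam * (32 / D * J) = 128 * (L / D) * J := by rw [hlam]; ring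
    rw [e]
    have h0 : 0 ≤ 128 * (L / D) := by positivity
    nlinarith [mul_le_mul_of_nonneg_left hJ h0]
  have h5 : 1 / (6 * Q) * (I + J) ≤ 2 / 3 * (1 / Q) * (g1 + g2) := by
    have e : 1 / (6 * Q) * (I + J) = 1 / 6 * (1 / Q) * (I + J) := by
      field_simp
    rw [e]
    have h0 : 0 ≤ 1 / 6 * (1 / Q) := by positivity
    have h6 : I + J ≤ 4 * (g1 + g2) := by linarith
    nlinarith [mul_le_mul_of_nonneg_left h6 h0]
  have hLD' : L / D ≤ 1 / 1000 * (1 / Q) := by
    have e : 1 / (1000 * Q) = 1 / 1000 * (1 / Q) := by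
      field_simp
    rw [← e]
    exact hLD
  have hS' : 4 / 3 * (1 / Q) ≤ S := by
    have e : 4 / (3 * Q) = 4 / 3 * (1 / Q) := by
      field_simp
    rw [← e]
    exact hS
  set P := 1 / Q with hP
  have hP0 : 0 < P := by positivity
  set M := L / D with hM
  have hM0 : 0 ≤ M := by positivity
  have hsum : 32 * M * (g1 + g2) + S / 8 * g1 + 60 * M * g2 + 256 * M * g2 + 2 / 3 * P * (g1 + g2) ≤
      S * (g1 + g2) := by
    have ha : 0 ≤ g1 * (7 / 8 * S - 32 * M - 2 / 3 * P) := mul_nonneg hg1 (by linarith)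
    have hb : 0 ≤ g2 * (S - 32 * M - 316 * M - 2 / 3 * P) := mul_nonneg hg2 (by linarith)
    nlinarith
  linarith

/-- the small terms -/
private theorem Star_small {D Q L lam S K N W H F : ℝ} (hD : 100 ≤ D) (hN : 0 ≤ N) (hQ : 0 < Q)
    (hL : 1 ≤ L) (hLD : L ≤ D) (hA : Q * (1000 * L) ≤ D) (hlam : lam = 4 * L)
    (hSQ : S * Q ≤ 3) (hK : 20 * K ≤ S) (hW : D ^ 5 ≤ W) (hH : H ≤ 1 / D ^ 6) (hF : F ≤ 1 / D ^ 6)
    (hF0 : 0 ≤ F) :
    N * Q * (1 / D ^ 4) / D + N * Q / (W * D) + K * (Q * (1 / D ^ 4) * N / 4) +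
      S * Q * (1 / D ^ 4) * N / 4 + 3 * (N / 2 * H) + lam * (N / 2 * F) ≤ 3 * N / D ^ 4 := by
  have hDp : (0 : ℝ) < D := by linarith
  have hWp : (0 : ℝ) < W := lt_of_lt_of_le (by positivity) hW
  have hQD : Q / D ≤ 1 / 1000 := by
    rw [div_le_div_iff₀ hDp (by norm_num)]
    nlinarith
  set E := 1 / D ^ 4 with hE
  have hE0 : 0 < E := by positivity
  have hNE : 0 ≤ N * E := by positivity
  have h1 : N * Q * E / D ≤ 1 / 1000 * (N * E) := by
    have e : N * Q * E / D = (Q / D) * (N * E) := by ring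
    rw [e]
    exact mul_le_mul_of_nonneg_right hQD hNE
  have h2 : N * Q / (W * D) ≤ 1 / 1000 * (N * E) := by
    have e : N * Q / (W * D) = (Q / D) * (N * (1 / W)) := by
      field_simp
    rw [e]
    have h3 : 1 / W ≤ E := by
      rw [hE]
      apply one_div_le_one_div_of_le (by positivity)
      refine le_trans ?_ hW
      have : D ^ 5 = D ^ 4 * D := by ring
      rw [this]
      have h4 : 0 < D ^ 4 := by positivity
      nlinarith
    have h4 : N * (1 / W) ≤ N * E := mul_le_mul_of_nonneg_left h3 hN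
    have h5 : 0 ≤ N * (1 / W) := by positivity
    calc Q / D * (N * (1 / W)) ≤ 1 / 1000 * (N * (1 / W)) := mul_le_mul_of_nonneg_right hQD h5
      _ ≤ 1 / 1000 * (N * E) := by linarith
  have hKQ : K * Q ≤ 3 / 20 := by nlinarith [mul_le_mul_of_nonneg_right hK hQ.le]
  have h3 : K * (Q * E * N / 4) ≤ 1 / 10 * (N * E) := by
    have e : K * (Q * E * N / 4) = (K * Q) * (N * E) / 4 := by ring
    rw [e]
    nlinarith [mul_le_mul_of_nonneg_right hKQ hNE]
  have h4 : S * Q * E * N / 4 ≤ 3 / 4 * (N * E) := by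
    have e : S * Q * E * N / 4 = (S * Q) * (N * E) / 4 := by ring
    rw [e]
    nlinarith [mul_le_mul_of_nonneg_right hSQ hNE]
  have hE6 : 1 / D ^ 6 ≤ 1 / 1000 * E ∧ D * (1 / D ^ 6) ≤ 1 / 100 * E := by
    have e1 : 1 / D ^ 6 = (1 / D ^ 2) * E := by
      rw [hE]
      field_simp
    have e2 : D * (1 / D ^ 6) = (1 / D) * E := by
      rw [hE]
      field_simp
    have e3 : 1 / D ≤ 1 / 100 := one_div_le_one_div_of_le (by norm_num) hD
    have e4 : 1 / D ^ 2 ≤ 1 / 1000 := by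
      apply one_div_le_one_div_of_le (by norm_num)
      nlinarith
    constructor
    · rw [e1]
      exact mul_le_mul_of_nonneg_right e4 hE0.le
    · rw [e2]
      exact mul_le_mul_of_nonneg_right e3 hE0.le
  have h5 : 3 * (N / 2 * H) ≤ 1 / 100 * (N * E) := by
    have h7 : H ≤ 1 / 1000 * E := le_trans hH hE6.1
    nlinarith [mul_le_mul_of_nonneg_left h7 hN]
  have h6 : lam * (N / 2 * F) ≤ 1 / 10 * (N * E) := by
    have h7 : L * F ≤ D * (1 / D ^ 6) := mul_le_mul hLD hF hF0 hDp.le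
    have h8 : L * F ≤ 1 / 100 * E := le_trans h7 hE6.2
    have e : lam * (N / 2 * F) = 2 * (N * (L * F)) := by
      rw [hlam]
      ring
    rw [e]
    nlinarith [mul_le_mul_of_nonneg_left h8 hN]
  have e : 3 * N / D ^ 4 = 3 * (N * E) := by
    rw [hE]
    ring
  rw [e]
  linarith

/-- `ε = d^{-4}`, `Y = ⌈6 log₂ d⌉` -/
theorem star : ∃ d₀ : ℕ, ∀ d : ℕ, d₀ ≤ d → ∀ q : ℕ, Adm d q → ∀ k s : ℕ, d ≤ 2 ^ s → 2 ^ s < 2 * d →
    d ^ 5 ≤ 2 ^ k → ∀ f : Site d k → Fin q, Prp f →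
    (∑ i : Fin d, ∑ a : ZMod (2 ^ s), ER (fun R => TT (1 / (d : ℝ) ^ 4) s f i a R)) / (d * 2 ^ s) ≤
      NN d k / 2 * Real.log ((q1 q : ℝ) * q2 q) - Loss f + 3 * NN d k / (d : ℝ) ^ 4 := by
  refine ⟨100, ?_⟩
  intro d hd q hA k s hs1 hs2 hk f hf
  obtain ⟨hq, hqq, hA'⟩ := hA
  have hdR : (100 : ℝ) ≤ d := by exact_mod_cast hd
  have hd0 : (0 : ℝ) < d := by linarith
  have hq0 : (0 : ℝ) < q := by
    have : 0 < q := by omega
    exact_mod_cast this
  have hlog1 : (1 : ℝ) ≤ Real.log d := by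
    rw [Real.le_log_iff_exp_le hd0]
    have := Real.exp_one_lt_d9
    linarith
  have hlogd : Real.log d ≤ d := by
    have := Real.log_le_sub_one_of_pos hd0
    linarith
  have hk3 : 3 ≤ k := by
    by_contra hcon
    have h1 : 2 ^ k ≤ 2 ^ 2 := Nat.pow_le_pow_right (by norm_num) (by omega)
    have h2 : 100 ^ 5 ≤ d ^ 5 := Nat.pow_le_pow_left hd 5
    norm_num at h1 h2
    omega
  have hsk : s ≤ k := by
    by_contra hcon
    have h1 : 2 ^ k ≤ 2 ^ s := Nat.pow_le_pow_right (by norm_num) (by omega)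
    have h2 : 2 * d ≤ d ^ 5 := by
      calc 2 * d ≤ d ^ 4 * d := by
            apply Nat.mul_le_mul_right
            calc 2 ≤ 100 ^ 4 := by norm_num
              _ ≤ d ^ 4 := Nat.pow_le_pow_left hd 4
        _ = d ^ 5 := by ring
    omega
  have he : (0 : ℝ) < 1 / (d : ℝ) ^ 4 := by positivity
  have he1 : 1 / (d : ℝ) ^ 4 ≤ 1 / 2 := by
    apply one_div_le_one_div_of_le (by norm_num)
    calc (2 : ℝ) ≤ 100 ^ 4 := by norm_num
      _ ≤ (d : ℝ) ^ 4 := pow_le_pow_left₀ (by norm_num) hdR 4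
  have hlam : Real.log (1 / (1 / (d : ℝ) ^ 4)) = 4 * Real.log d := by
    rw [one_div_one_div, Real.log_pow]
    norm_num
  obtain ⟨Y, hY1, hY2⟩ := Star_Y hd
  have hF := Star_four hd
  obtain ⟨hS, hSQ⟩ := Star_sl hq hqq
  have hK := kp_le hq hqq
  have hN : 0 ≤ NN d k := by unfold NN; positivity
  have hT1 := ET1 (by omega : 2 ≤ d) (by omega : 2 ≤ k) hsk hs1 he he1 f
  have hM := main23 (s := s) (by omega : 2 ≤ d) (by omega : 2 ≤ k) hq he hf
  have hKK := KK_le (by omega : 2 ≤ d) hk3 he he1 f Y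
  have hG2 := G2_ge (by omega : 1 ≤ d) (by omega : 2 ≤ k) f
  have hG12 := G12_ge f
  have hG1n := G1_nonneg f
  have hG2n := G2_nonneg f
  rw [hlam] at hT1 hKK
  rw [Star_mean (by omega) (1 / (d : ℝ) ^ 4) f]
  have hW : (d : ℝ) ^ 5 ≤ 2 ^ k := by exact_mod_cast hk
  have h1 := Star_arith (D := d) (Q := q) (L := Real.log d) (lam := 4 * Real.log d) (S := sl q)
    (K := kp q) (g1 := G1 f) (g2 := G2 f) (I := ∑ c, II f c) (J := ∑ c, QQ f c) (Y := Y)
    hdR hlog1 hq0 hA' rfl hS hK hG1n hG2n (by linarith) (by linarith) (Nat.cast_nonneg _) hY2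
  have h2 := Star_small (D := d) (Q := q) (L := Real.log d) (lam := 4 * Real.log d) (S := sl q)
    (K := kp q) (N := NN d k) (W := 2 ^ k) (H := (1 / 2 : ℝ) ^ Y) (F := (1 / 4 : ℝ) ^ d)
    hdR hN hq0 hlog1 hlogd hA' rfl hSQ hK hW hY1 hF (by positivity)
  unfold Loss
  rw [Finset.sum_add_distrib]
  have h3 : kp q * (5 / 2 * G1 f + q * (1 / (d : ℝ) ^ 4) * NN d k / 4) =
      kp q * (5 / 2 * G1 f) + kp q * (q * (1 / (d : ℝ) ^ 4) * NN d k / 4) := by ring
  rw [h3] at hM
  have h4 : 3 * (Y / (2 * (d : ℝ)) * ∑ c, QQ f c + NN d k / 2 * (1 / 2) ^ Y) =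
      3 * (Y / (2 * (d : ℝ)) * ∑ c, QQ f c) + 3 * (NN d k / 2 * (1 / 2) ^ Y) := by ring
  have h5 : 4 * Real.log d * (32 / d * ∑ c, QQ f c + NN d k / 2 * (1 / 4) ^ d) =
      4 * Real.log d * (32 / d * ∑ c, QQ f c) + 4 * Real.log d * (NN d k / 2 * (1 / 4) ^ d) := by ring
  rw [h4, h5] at hKK
  linarith

end Pool.Agent.LO

end

/-! ### from `Lib_MP_2c424f_lo.Pbd` -/

section

/-!
# The probability bound (piece PBD)

`s = Nat.clog 2 d`.  For `f ∈ A`: `exp (-(mean of TT)) ≤ mean of exp (-TT)` (Jensen), sum over `f ∈ A`, `kraft`;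
`star` and `ZZ_ge`.
-/

set_option autoImplicit false

open Finset

namespace Pool.Agent.LO

private theorem Pbd_clog {d : ℕ} (hd : 2 ≤ d) : ∃ s : ℕ, d ≤ 2 ^ s ∧ 2 ^ s < 2 * d := by
  refine ⟨Nat.clog 2 d, Nat.le_pow_clog (by norm_num) d, ?_⟩
  have h := Nat.pow_pred_clog_lt_self (b := 2) (by norm_num) (x := d) (by omega)
  have h1 : 0 < Nat.clog 2 d := Nat.clog_pos (by norm_num) hd
  have h2 : 2 ^ Nat.clog 2 d = 2 * 2 ^ (Nat.clog 2 d).pred := by
    conv_lhs => rw [← Nat.succ_pred_eq_of_pos h1]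
    rw [pow_succ]
    ring
  rw [h2]
  omega

private theorem Pbd_mean {d k q s : ℕ} (hd : 1 ≤ d) (A : Finset (Site d k → Fin q)) (B : ℝ)
    (T : (Site d k → Fin q) → Fin d → ZMod (2 ^ s) → Finset (Site d k) → ℝ)
    (hT : ∀ i a R, ∑ f ∈ A, Real.exp (-(T f i a R)) ≤ 1)
    (hB : ∀ f ∈ A, (∑ i : Fin d, ∑ a : ZMod (2 ^ s), ER (fun R => T f i a R)) / (d * 2 ^ s) ≤ B) :
    (A.card : ℝ) ≤ Real.exp B := by
  have hd0 : (0 : ℝ) < d := by exact_mod_cast hd
  have hW : (0 : ℝ) < d * 2 ^ s := by positivity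
  -- pointwise
  have h1 : ∀ i a R, ∑ f ∈ A, (1 + B + (-1) * T f i a R) ≤ Real.exp B := by
    intro i a R
    have h2 : ∑ f ∈ A, (1 + B + (-1) * T f i a R) ≤
        ∑ f ∈ A, Real.exp B * Real.exp (-(T f i a R)) := by
      refine Finset.sum_le_sum fun f _ => ?_
      rw [← Real.exp_add]
      have := Real.add_one_le_exp (B + -(T f i a R))
      linarith
    rw [← Finset.mul_sum] at h2
    calc _ ≤ _ := h2
      _ ≤ Real.exp B * 1 := mul_le_mul_of_nonneg_left (hT i a R) (Real.exp_pos _).le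
      _ = Real.exp B := mul_one _
  -- expectation over `R`
  have h2 : ∀ i a, ∑ f ∈ A, (1 + B + (-1) * ER (fun R => T f i a R)) ≤ Real.exp B := by
    intro i a
    have h3 := ER_mono (d := d) (k := k) (fun R => h1 i a R)
    rw [ER_const, ER_sum] at h3
    calc ∑ f ∈ A, (1 + B + (-1) * ER (fun R => T f i a R))
        = ∑ f ∈ A, ER (fun R => 1 + B + (-1) * T f i a R) := by
          refine Finset.sum_congr rfl fun f _ => ?_
          rw [ER_add, ER_const, ER_mul]
      _ ≤ _ := h3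
  -- sum over `i`, `a`
  have h3 : ∑ i : Fin d, ∑ a : ZMod (2 ^ s), ∑ f ∈ A, (1 + B + (-1) * ER (fun R => T f i a R)) ≤
      d * 2 ^ s * Real.exp B := by
    calc _ ≤ ∑ i : Fin d, ∑ a : ZMod (2 ^ s), Real.exp B :=
          Finset.sum_le_sum fun i _ => Finset.sum_le_sum fun a _ => h2 i a
      _ = d * 2 ^ s * Real.exp B := by
          rw [Finset.sum_const, Finset.sum_const, Finset.card_univ, Finset.card_univ, ZMod.card,
            Fintype.card_fin, nsmul_eq_mul, nsmul_eq_mul]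
          push_cast
          ring
  have h4 : ∑ i : Fin d, ∑ a : ZMod (2 ^ s), ∑ f ∈ A, (1 + B + (-1) * ER (fun R => T f i a R)) =
      ∑ f ∈ A, (d * 2 ^ s * (1 + B) -
        ∑ i : Fin d, ∑ a : ZMod (2 ^ s), ER (fun R => T f i a R)) := by
    have h5 : ∀ i : Fin d, ∑ a : ZMod (2 ^ s), ∑ f ∈ A, (1 + B + (-1) * ER (fun R => T f i a R)) =
        ∑ f ∈ A, ∑ a : ZMod (2 ^ s), (1 + B + (-1) * ER (fun R => T f i a R)) :=
      fun i => Finset.sum_comm
    rw [Finset.sum_congr rfl fun i _ => h5 i, Finset.sum_comm]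
    refine Finset.sum_congr rfl fun f _ => ?_
    have h6 : ∀ i : Fin d, ∑ a : ZMod (2 ^ s), (1 + B + (-1) * ER (fun R => T f i a R)) =
        2 ^ s * (1 + B) - ∑ a : ZMod (2 ^ s), ER (fun R => T f i a R) := by
      intro i
      rw [Finset.sum_add_distrib, ← Finset.mul_sum, Finset.sum_const, Finset.card_univ, ZMod.card,
        nsmul_eq_mul]
      push_cast
      ring
    rw [Finset.sum_congr rfl fun i _ => h6 i, Finset.sum_sub_distrib, Finset.sum_const,
      Finset.card_univ, Fintype.card_fin, nsmul_eq_mul]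
    ring
  have h5 : ∑ f ∈ A, (d * 2 ^ s : ℝ) ≤ ∑ f ∈ A, (d * 2 ^ s * (1 + B) -
        ∑ i : Fin d, ∑ a : ZMod (2 ^ s), ER (fun R => T f i a R)) := by
    refine Finset.sum_le_sum fun f hf => ?_
    have := hB f hf
    rw [div_le_iff₀ hW] at this
    linarith
  rw [Finset.sum_const, nsmul_eq_mul] at h5
  rw [h4] at h3
  have h6 := h5.trans h3
  rw [mul_comm (A.card : ℝ)] at h6
  exact le_of_mul_le_mul_left h6 hW

/-- Jensen, `kraft` and `star` -/
private theorem Pbd_card : ∃ d₀ : ℕ, 100 ≤ d₀ ∧ ∀ d : ℕ, d₀ ≤ d → ∀ q : ℕ, Adm d q → ∀ k : ℕ,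
    d ^ 5 ≤ 2 ^ k →
    ∀ (A : Finset (Site d k → Fin q)), (∀ f ∈ A, Prp f) → ∀ l : ℝ, (∀ f ∈ A, l ≤ Loss f) →
    (A.card : ℝ) ≤ Real.exp (NN d k / 2 * Real.log ((q1 q : ℝ) * q2 q) - l +
      3 * NN d k / (d : ℝ) ^ 4) := by
  classical
  obtain ⟨d₀, h0⟩ := star
  refine ⟨max d₀ 100, le_max_right _ _, ?_⟩
  intro d hd q hA k hk A hAf l hl
  have hd1 : d₀ ≤ d := (le_max_left _ _).trans hd
  have hd2 : 100 ≤ d := (le_max_right _ _).trans hd
  obtain ⟨s, hs1, hs2⟩ := Pbd_clog (by omega : 2 ≤ d)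
  have hk2 : 2 ≤ k := by
    by_contra hcon
    have h1 : 2 ^ k ≤ 2 ^ 1 := Nat.pow_le_pow_right (by norm_num) (by omega)
    have h2 : 100 ^ 5 ≤ d ^ 5 := Nat.pow_le_pow_left hd2 5
    norm_num at h1 h2
    omega
  have hsk : s ≤ k := by
    by_contra hcon
    have h1 : 2 ^ k ≤ 2 ^ s := Nat.pow_le_pow_right (by norm_num) (by omega)
    have h2 : 2 * d ≤ d ^ 5 := by
      calc 2 * d ≤ d ^ 4 * d := by
            apply Nat.mul_le_mul_right
            calc 2 ≤ 100 ^ 4 := by norm_num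
              _ ≤ d ^ 4 := Nat.pow_le_pow_left hd2 4
        _ = d ^ 5 := by ring
    omega
  have hdR : (100 : ℝ) ≤ d := by exact_mod_cast hd2
  have he : (0 : ℝ) < 1 / (d : ℝ) ^ 4 := by positivity
  have he1 : 1 / (d : ℝ) ^ 4 < 1 := by
    rw [div_lt_one (by positivity)]
    calc (1 : ℝ) < 100 ^ 4 := by norm_num
      _ ≤ (d : ℝ) ^ 4 := pow_le_pow_left₀ (by norm_num) hdR 4
  refine Pbd_mean (s := s) (by omega) A _ (fun f i a R => TT (1 / (d : ℝ) ^ 4) s f i a R) ?_ ?_
  · intro i a R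
    refine le_trans ?_ (kraft (q := q) (by omega : 2 ≤ d) hk2 hsk hs1 hs2 he he1 i a R)
    refine Finset.sum_le_sum_of_subset_of_nonneg ?_ fun f _ _ => (Real.exp_pos _).le
    intro f hf
    unfold prps
    exact Finset.mem_filter.2 ⟨mem_univ f, hAf f hf⟩
  · intro f hf
    have h1 := h0 d hd1 q hA k s hs1 hs2 hk f (hAf f hf)
    have h2 := hl f hf
    refine h1.trans ?_
    linarith

theorem pbd : ∃ d₀ : ℕ, ∀ d : ℕ, d₀ ≤ d → ∀ q : ℕ, Adm d q → ∀ k : ℕ, d ^ 5 ≤ 2 ^ k →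
    ∀ (A : Finset (Site d k → Fin q)), (∀ f ∈ A, Prp f) → ∀ l : ℝ, (∀ f ∈ A, l ≤ Loss f) →
    (A.card : ℝ) ≤ ZZ d k q * Real.exp (-l + 3 * NN d k / (d : ℝ) ^ 4) := by
  obtain ⟨d₀, hd₀, h0⟩ := Pbd_card
  refine ⟨d₀, ?_⟩
  intro d hd q hA k hk A hAf l hl
  have h1 := h0 d hd q hA k hk A hAf l hl
  have hd2 : 100 ≤ d := hd₀.trans hd
  have hk1 : 1 ≤ k := by
    by_contra hcon
    have h1 : 2 ^ k ≤ 2 ^ 0 := Nat.pow_le_pow_right (by norm_num) (by omega)
    have h2 : 100 ^ 5 ≤ d ^ 5 := Nat.pow_le_pow_left hd2 5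
    norm_num at h1 h2
    omega
  have h2 := ZZ_ge (d := d) (k := k) (q := q) (by omega) hk1 hA.1
  refine h1.trans ?_
  calc Real.exp (NN d k / 2 * Real.log ((q1 q : ℝ) * q2 q) - l + 3 * NN d k / (d : ℝ) ^ 4)
      = Real.exp (NN d k / 2 * Real.log ((q1 q : ℝ) * q2 q)) *
        Real.exp (-l + 3 * NN d k / (d : ℝ) ^ 4) := by
        rw [← Real.exp_add]
        congr 1
        ring
    _ ≤ _ := mul_le_mul_of_nonneg_right h2 (Real.exp_pos _).le

end Pool.Agent.LO

end

/-! ### from `Lib_MP_2c424f_lo.PBad` -/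

section

/-!
# Probability of bad blocks (piece PBAD)

`pbd` for the set of colourings with all blocks bad (`lemB`: `Loss ≥ δ N / (96 q d) ≥ N/d^3 + 3N/d^4`),
then `chess` with `r = exp (-2^d / d^3)`, `N = 2^d * card (Blk d k)`.
-/

set_option autoImplicit false

open Finset

namespace Pool.Agent.LO

/-- the chessboard base -/
noncomputable def rr (d : ℕ) : ℝ := Real.exp (-((2 : ℝ) ^ d / (d : ℝ) ^ 3))

private theorem PBad_II_nonneg {d k q : ℕ} (f : Site d k → Fin q) (c : Fin q) : 0 ≤ II f c := by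
  unfold II
  refine Finset.sum_nonneg fun u _ => ?_
  exact mul_nonneg (mm_nonneg f u c) (sub_nonneg.2 (mm_le_one f u c))

private theorem PBad_QQ_nonneg {d k q : ℕ} (f : Site d k → Fin q) (c : Fin q) : 0 ≤ QQ f c := by
  unfold QQ
  refine Finset.sum_nonneg fun v _ => ?_
  split_ifs
  · exact le_rfl
  · positivity

private theorem PBad_loss {d k q : ℕ} (hq : 2 ≤ q) {f : Site d k → Fin q} (hf : Prp f) (c : Fin q) :
    1 / (6 * (q : ℝ)) * (II f c + QQ f c) ≤ Loss f := by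
  unfold Loss
  have hq0 : (0 : ℝ) < q := by
    have : 0 < q := by omega
    exact_mod_cast this
  have h1 : II f c + QQ f c ≤ ∑ c, (II f c + QQ f c) :=
    Finset.single_le_sum (f := fun c => II f c + QQ f c)
      (fun c' _ => add_nonneg (PBad_II_nonneg f c') (PBad_QQ_nonneg f c')) (Finset.mem_univ c)
  have h2 : 0 ≤ ∑ v ∈ ods d k, (ell q (av f v) - Real.log (av f v)) :=
    Finset.sum_nonneg fun v _ => sub_nonneg.2 (log_le_ell hq (av f v) (av_pos hf v))
  have h3 : 1 / (6 * (q : ℝ)) * (II f c + QQ f c) ≤ 1 / (6 * (q : ℝ)) * ∑ c, (II f c + QQ f c) :=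
    mul_le_mul_of_nonneg_left h1 (by positivity)
  linarith

private theorem PBad_arith {d q : ℕ} (hd : 100 ≤ d) (hq : 2 ≤ q) (hA : (q : ℝ) * (1000 * Real.log d) ≤ d)
    {N : ℝ} (hN : 0 ≤ N) :
    N / (d : ℝ) ^ 3 + 3 * N / (d : ℝ) ^ 4 ≤
      1 / (6 * (q : ℝ)) * (dl q * N / (16 * d)) := by
  have hd' : (100 : ℝ) ≤ d := by exact_mod_cast hd
  have hq' : (2 : ℝ) ≤ q := by exact_mod_cast hq
  have hlog : (1 : ℝ) ≤ Real.log d := by
    rw [Real.le_log_iff_exp_le (by linarith)]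
    have := Real.exp_one_lt_d9
    linarith
  have h1 : (q : ℝ) * 1000 ≤ d := by
    have : (q : ℝ) * 1000 ≤ (q : ℝ) * (1000 * Real.log d) := by
      apply mul_le_mul_of_nonneg_left _ (by linarith)
      linarith
    linarith
  have hdp : (0 : ℝ) < d := by linarith
  have hqp : (0 : ℝ) < q := by linarith
  have h2 : (q : ℝ) ^ 2 * 1000000 ≤ (d : ℝ) ^ 2 := by nlinarith
  have e1 : 1 / (6 * (q : ℝ)) * (dl q * N / (16 * d)) = N * (1 / (9600 * ((q : ℝ) ^ 2 * d))) := by
    unfold dl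
    field_simp
    ring
  have e2 : N / (d : ℝ) ^ 3 + 3 * N / (d : ℝ) ^ 4 = N * (1 / (d : ℝ) ^ 3 + 3 / (d : ℝ) ^ 4) := by
    ring
  rw [e1, e2]
  apply mul_le_mul_of_nonneg_left _ hN
  have e3 : 3 / (d : ℝ) ^ 4 ≤ 1 / (d : ℝ) ^ 3 := by
    rw [div_le_div_iff₀ (by positivity) (by positivity)]
    have : (d : ℝ) ^ 4 = d * (d : ℝ) ^ 3 := by ring
    rw [this]
    nlinarith [pow_pos hdp 3]
  have e4 : 2 / (d : ℝ) ^ 3 ≤ 1 / (9600 * ((q : ℝ) ^ 2 * d)) := by
    rw [div_le_div_iff₀ (by positivity) (by positivity)]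
    have : (d : ℝ) ^ 3 = d * (d : ℝ) ^ 2 := by ring
    rw [this]
    nlinarith [mul_le_mul_of_nonneg_left h2 hdp.le, mul_pos hdp (pow_pos hdp 2)]
  have e5 : 2 / (d : ℝ) ^ 3 = 1 / (d : ℝ) ^ 3 + 1 / (d : ℝ) ^ 3 := by ring
  linarith

theorem pbad : ∃ d₀ : ℕ, ∀ d : ℕ, d₀ ≤ d → ∀ q : ℕ, Adm d q → ∀ k : ℕ, d ^ 5 ≤ 2 ^ k → ∀ c : Fin q,
    ∀ Γ : Finset (Blk d k), cE (bad (q := q) c) Γ ≤ ZZ d (k + 1) q * rr d ^ Γ.card := by
  classical
  obtain ⟨d₀, hp⟩ := pbd
  refine ⟨max d₀ 100, ?_⟩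
  intro d hd q hA k hk c
  have hd0 : d₀ ≤ d := le_trans (le_max_left _ _) hd
  have hd100 : 100 ≤ d := le_trans (le_max_right _ _) hd
  have hk1 : 1 ≤ k := by
    by_contra hcon
    have hk0 : k = 0 := by omega
    subst hk0
    have : 100 ^ 5 ≤ d ^ 5 := Nat.pow_le_pow_left hd100 5
    norm_num at this hk
    omega
  have hkk : d ^ 5 ≤ 2 ^ (k + 1) := le_trans hk (Nat.pow_le_pow_right (by norm_num) (by omega))
  have hq2 : 2 ≤ q := hA.1
  have hq1 : 1 ≤ q := by omega
  have hd1 : 1 ≤ d := by omega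
  have hNN : 0 ≤ NN d (k + 1) := by unfold NN; positivity
  have hqp : (0 : ℝ) < q := by exact_mod_cast (show 0 < q by omega)
  have hfull : cE (bad (q := q) c) (univ : Finset (Blk d k)) ≤
      ZZ d (k + 1) q * rr d ^ (Fintype.card (Blk d k)) := by
    unfold cE
    have h1 := hp d hd0 q hA (k + 1) hkk
      ((prps d (k + 1) q).filter fun f => ∀ t ∈ (univ : Finset (Blk d k)), bad c t f)
      (fun f hf => by
        have := (Finset.mem_filter.1 hf).1
        unfold prps at this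
        exact (Finset.mem_filter.1 this).2)
      (NN d (k + 1) / (d : ℝ) ^ 3 + 3 * NN d (k + 1) / (d : ℝ) ^ 4)
      (fun f hf => by
        have h2 := Finset.mem_filter.1 hf
        have hf' : Prp f := by
          have := h2.1
          unfold prps at this
          exact (Finset.mem_filter.1 this).2
        have h3 := lemB hd1 hq1 f c (fun t => h2.2 t (Finset.mem_univ t))
        have h4 := PBad_loss hq2 hf' c
        have h5 := PBad_arith hd100 hq2 hA.2.2 hNN
        have h6 := mul_le_mul_of_nonneg_left h3 (show 0 ≤ 1 / (6 * (q : ℝ)) by positivity)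
        linarith)
    refine le_trans h1 ?_
    have hZ : 0 ≤ ZZ d (k + 1) q := by unfold ZZ; positivity
    apply mul_le_mul_of_nonneg_left _ hZ
    unfold rr
    rw [← Real.exp_nat_mul]
    apply Real.exp_le_exp.2
    have hc : (Fintype.card (Blk d k) : ℝ) = NN d k := card_site d k
    rw [hc]
    have hNk : NN d (k + 1) = NN d k * 2 ^ d := by
      unfold NN
      rw [pow_succ, mul_pow]
    have : NN d k * -((2 : ℝ) ^ d / (d : ℝ) ^ 3) = -(NN d (k + 1) / (d : ℝ) ^ 3) := by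
      rw [hNk]; ring
    rw [this]
    linarith
  exact chess hk1 (cE (bad (q := q) c)) (ZZ d (k + 1) q) (rr d) (Real.exp_pos _)
    (by unfold ZZ; positivity) (fun Γ => by unfold cE; positivity)
    (fun j α Γ => rp hk1 (bad c) (fun t f g h => bad_loc c t f g h)
      (fun j α t f => bad_sym c j α t f) j α Γ)
    (by
      unfold cE ZZ
      exact_mod_cast Finset.card_le_card (Finset.filter_subset _ _))
    hfull

end Pool.Agent.LO

end

/-! ### from `Lib_MP_2c424f_lo.PDiff2` -/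

section

/-!
# Labels agree, with the true size of the error (piece PDIFF2)

`multi` with `pbad`, `lab_adj`; `4 * 4^d * rr d ≤ 1/d^5`.
-/

set_option autoImplicit false

open Finset

namespace Pool.Agent.LO

/-- for large `d` the base is tiny -/
private theorem PDiff2_rr_small : ∃ d₀ : ℕ, ∀ d : ℕ, d₀ ≤ d →
    4 * (d : ℝ) ^ 5 * (4 ^ d * rr d) ≤ 1 := by
  have h1 : ∀ᶠ n : ℕ in Filter.atTop, (n : ℝ) ^ 4 / (2 : ℝ) ^ n < 1 / 3 :=
    (tendsto_pow_const_div_const_pow_of_one_lt 4 (by norm_num : (1 : ℝ) < 2)).eventually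
      (gt_mem_nhds (by norm_num))
  have h2 : ∀ᶠ n : ℕ in Filter.atTop, (n : ℝ) ^ 5 / (5 : ℝ) ^ n < 1 / 4 :=
    (tendsto_pow_const_div_const_pow_of_one_lt 5 (by norm_num : (1 : ℝ) < 5)).eventually
      (gt_mem_nhds (by norm_num))
  obtain ⟨d₀, hd₀⟩ := Filter.eventually_atTop.1 (h1.and h2)
  refine ⟨max d₀ 1, fun d hd => ?_⟩
  obtain ⟨ha, hb⟩ := hd₀ d (le_trans (le_max_left _ _) hd)
  have hd1 : 1 ≤ d := le_trans (le_max_right _ _) hd
  have hdr : (0 : ℝ) < d := by exact_mod_cast hd1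
  have h2p : (0 : ℝ) < 2 ^ d := by positivity
  have h5p : (0 : ℝ) < 5 ^ d := by positivity
  rw [div_lt_div_iff₀ h2p (by norm_num)] at ha
  rw [div_lt_div_iff₀ h5p (by norm_num)] at hb
  have hx : 3 * (d : ℝ) ≤ 2 ^ d / (d : ℝ) ^ 3 := by
    rw [le_div_iff₀ (by positivity)]
    nlinarith
  have he : (20 : ℝ) ≤ Real.exp 3 := by
    have h := Real.exp_one_gt_d9
    have h3 : Real.exp 3 = Real.exp 1 ^ 3 := by
      rw [← Real.exp_nat_mul]; norm_num
    rw [h3]
    calc (20 : ℝ) ≤ 2.7182818283 ^ 3 := by norm_num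
      _ ≤ Real.exp 1 ^ 3 := pow_le_pow_left₀ (by norm_num) h.le 3
  have hexp : (20 : ℝ) ^ d ≤ Real.exp (2 ^ d / (d : ℝ) ^ 3) := by
    calc (20 : ℝ) ^ d ≤ Real.exp 3 ^ d := pow_le_pow_left₀ (by norm_num) he d
      _ = Real.exp (3 * d) := by rw [← Real.exp_nat_mul]; ring_nf
      _ ≤ _ := Real.exp_le_exp.2 hx
  have h20 : (20 : ℝ) ^ d = 4 ^ d * 5 ^ d := by rw [← mul_pow]; norm_num
  have hE : 0 < Real.exp (2 ^ d / (d : ℝ) ^ 3) := Real.exp_pos _
  rw [rr, Real.exp_neg, ← mul_assoc, ← div_eq_mul_inv, div_le_one hE]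
  calc 4 * (d : ℝ) ^ 5 * 4 ^ d ≤ 5 ^ d * 4 ^ d := by
        apply mul_le_mul_of_nonneg_right _ (by positivity)
        linarith
    _ = 20 ^ d := by rw [h20]; ring
    _ ≤ _ := hexp

open scoped Classical in
theorem pdiff2 : ∃ d₀ : ℕ, ∀ d : ℕ, d₀ ≤ d → ∀ q : ℕ, Adm d q → ∀ k : ℕ, d ^ 5 ≤ 2 ^ k →
    ∀ (c : Fin q) (t t' : Blk d k),
    (((prps d (k + 1) q).filter fun f => bad c t f ∨ ¬ (lab1 f t c ↔ lab1 f t' c)).card : ℝ) ≤
      ZZ d (k + 1) q * (1 / (d : ℝ) ^ 5) := by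
  obtain ⟨d₁, h₁⟩ := pbad
  obtain ⟨d₂, h₂⟩ := PDiff2_rr_small
  refine ⟨max (max d₁ d₂) 3, fun d hd q hA k hk c t t' => ?_⟩
  have hd1 : d₁ ≤ d := le_trans (le_trans (le_max_left _ _) (le_max_left _ _)) hd
  have hd2 : d₂ ≤ d := le_trans (le_trans (le_max_right _ _) (le_max_left _ _)) hd
  have hd3 : 3 ≤ d := le_trans (le_max_right _ _) hd
  have hB := h₁ d hd1 q hA k hk c
  have hr := h₂ d hd2
  obtain ⟨hq2, -, hqd⟩ := hA
  have hd3r : (3 : ℝ) ≤ d := by exact_mod_cast hd3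
  have hk1 : 1 ≤ k := by
    by_contra h
    have h0 : k = 0 := by omega
    rw [h0] at hk
    have : 3 ^ 5 ≤ d ^ 5 := Nat.pow_le_pow_left hd3 5
    omega
  have hrpos : 0 < rr d := Real.exp_pos _
  have h4 : (0 : ℝ) < 4 ^ d * rr d := by positivity
  have hle : 4 * (4 ^ d * rr d) ≤ 1 / (d : ℝ) ^ 5 := by
    rw [le_div_iff₀ (by positivity)]
    linarith
  have hhalf : 4 ^ d * rr d ≤ 1 / 2 := by
    have : 1 / (d : ℝ) ^ 5 ≤ 1 := by
      rw [div_le_one (by positivity)]
      exact one_le_pow₀ (by linarith)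
    linarith
  have hm := multi (prps d (k + 1) q) hd3 (fun f t => bad c t f) (fun f t => lab1 f t c) (rr d)
    hrpos.le hhalf (fun Γ => by
      have := hB Γ
      unfold cE ZZ at this
      exact this)
    (fun f _ s j _ hb1 hb2 => lab_adj (by omega) hk1 (by omega) c f s j hb1 hb2) t t'
  refine hm.trans ?_
  unfold ZZ
  exact mul_le_mul_of_nonneg_left hle (Nat.cast_nonneg _)

end Pool.Agent.LO

end

/-! ### from `Lib_MP_2c424f_lo.Expec` -/

section

/-!
# Mean values (piece EXPEC)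

`pbd` with `l = 4 N / d^4`: all but `ZZ / d^4` colourings have a loss below `4 N / d^4`.
-/

set_option autoImplicit false

open Finset

namespace Pool.Agent.LO

theorem II_nonneg' {d k q : ℕ} (f : Site d k → Fin q) (c : Fin q) : 0 ≤ II f c := by
  unfold II
  refine Finset.sum_nonneg fun u _ => ?_
  exact mul_nonneg (mm_nonneg f u c) (sub_nonneg.2 (mm_le_one f u c))

theorem QQ_nonneg' {d k q : ℕ} (f : Site d k → Fin q) (c : Fin q) : 0 ≤ QQ f c := by
  unfold QQ
  refine Finset.sum_nonneg fun v _ => ?_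
  split_ifs
  · exact le_rfl
  · positivity

theorem IQ_le {d k q : ℕ} (hd : 1 ≤ d) (hk : 1 ≤ k) (f : Site d k → Fin q) :
    ∑ c, (II f c + QQ f c) ≤ q * NN d k := by
  have h1 : ∀ c ∈ (univ : Finset (Fin q)), II f c + QQ f c ≤ NN d k := by
    intro c _
    have h2 : II f c ≤ NN d k / 2 := by
      rw [← card_evs hd hk]
      unfold II
      have : ∀ u ∈ evs d k, mm f u c * (1 - mm f u c) ≤ 1 := by
        intro u _
        have h3 := mm_nonneg f u c
        have h4 := mm_le_one f u c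
        nlinarith
      refine (sum_le_sum this).trans (le_of_eq ?_)
      simp
    have h3 : QQ f c ≤ NN d k / 2 := by
      rw [← card_ods hd hk]
      unfold QQ
      have : ∀ v ∈ ods d k, (if yy f v c = 0 then (0 : ℝ) else (1 / 2 : ℝ) ^ yy f v c) ≤ 1 := by
        intro v _
        split_ifs
        · exact zero_le_one
        · exact pow_le_one₀ (by norm_num) (by norm_num)
      refine (sum_le_sum this).trans (le_of_eq ?_)
      simp
    linarith
  refine (sum_le_sum h1).trans (le_of_eq ?_)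
  rw [sum_const, card_univ, Fintype.card_fin, nsmul_eq_mul]

theorem IQ_le_Loss {d k q : ℕ} (hq : 2 ≤ q) {f : Site d k → Fin q} (hf : Prp f) :
    ∑ c, (II f c + QQ f c) ≤ 6 * q * Loss f := by
  have hq0 : (0 : ℝ) < q := by exact_mod_cast (show 0 < q by omega)
  have h2 : 0 ≤ ∑ v ∈ ods d k, (ell q (av f v) - Real.log (av f v)) :=
    sum_nonneg fun v _ => sub_nonneg.2 (log_le_ell hq (av f v) (av_pos hf v))
  have h3 : 1 / (6 * (q : ℝ)) * ∑ c, (II f c + QQ f c) ≤ Loss f := by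
    unfold Loss
    linarith
  have h4 := mul_le_mul_of_nonneg_left h3 (show 0 ≤ 6 * (q : ℝ) by positivity)
  have e : 6 * (q : ℝ) * (1 / (6 * (q : ℝ)) * ∑ c, (II f c + QQ f c)) = ∑ c, (II f c + QQ f c) := by
    field_simp
  linarith

open scoped Classical in
theorem avn_le_Loss {d k q : ℕ} (hq : 2 ≤ q) {f : Site d k → Fin q} (hf : Prp f) :
    ∑ v ∈ ods d k, (if ¬ (av f v = q1 q ∨ av f v = q2 q) then (1 : ℝ) else 0) ≤
      4 * (q : ℝ) ^ 2 * Loss f := by
  have hq0 : (0 : ℝ) < q := by exact_mod_cast (show 0 < q by omega)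
  have h1 : ∀ v ∈ ods d k, (if ¬ (av f v = q1 q ∨ av f v = q2 q) then (1 : ℝ) else 0) ≤
      4 * (q : ℝ) ^ 2 * (ell q (av f v) - Real.log (av f v)) := by
    intro v _
    by_cases h : av f v = q1 q ∨ av f v = q2 q
    · rw [if_neg (not_not.2 h)]
      have := sub_nonneg.2 (log_le_ell hq (av f v) (av_pos hf v))
      positivity
    · rw [if_pos h]
      rw [not_or] at h
      have h2 := gap_int hq (av f v) (av_pos hf v) h.1 h.2
      have h3 := mul_le_mul_of_nonneg_left h2 (show 0 ≤ 4 * (q : ℝ) ^ 2 by positivity)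
      have e : 4 * (q : ℝ) ^ 2 * (1 / (4 * (q : ℝ) ^ 2)) = 1 := by field_simp
      linarith
  refine (sum_le_sum h1).trans ?_
  rw [← mul_sum]
  apply mul_le_mul_of_nonneg_left _ (by positivity)
  unfold Loss
  have h4 : 0 ≤ ∑ c, (II f c + QQ f c) :=
    sum_nonneg fun c _ => add_nonneg (II_nonneg' f c) (QQ_nonneg' f c)
  have h5 : 0 ≤ 1 / (6 * (q : ℝ)) * ∑ c, (II f c + QQ f c) := by positivity
  linarith

/-- basic consequences of the assumptions -/
theorem basic_num {d q k : ℕ} (hd : 243 ≤ d) (hA : Adm d q) (hk : d ^ 5 ≤ 2 ^ k) :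
    (243 : ℝ) ≤ d ∧ (2 : ℝ) ≤ q ∧ (5000 : ℝ) * q ≤ d ∧ 1 ≤ k ∧ (d : ℝ) ^ 10 ≤ NN d k := by
  have hdR : (243 : ℝ) ≤ d := by exact_mod_cast hd
  obtain ⟨hq2, -, hqd⟩ := hA
  have hq2R : (2 : ℝ) ≤ q := by exact_mod_cast hq2
  have hlog : (5 : ℝ) ≤ Real.log d := by
    rw [Real.le_log_iff_exp_le (by linarith)]
    have h := Real.exp_one_lt_d9
    have h5 : Real.exp 5 = Real.exp 1 ^ 5 := by
      rw [← Real.exp_nat_mul]; norm_num
    rw [h5]
    calc Real.exp 1 ^ 5 ≤ (2.7182818286 : ℝ) ^ 5 := pow_le_pow_left₀ (Real.exp_pos 1).le h.le 5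
      _ ≤ 243 := by norm_num
      _ ≤ d := hdR
  refine ⟨hdR, hq2R, by nlinarith, ?_, ?_⟩
  · by_contra h
    have h0 : k = 0 := by omega
    rw [h0] at hk
    have : 243 ^ 5 ≤ d ^ 5 := Nat.pow_le_pow_left hd 5
    norm_num at this hk
    omega
  · have h1 : (d : ℝ) ^ 5 ≤ (2 : ℝ) ^ k := by exact_mod_cast hk
    have h2 : (1 : ℝ) ≤ (2 : ℝ) ^ k := one_le_pow₀ (by norm_num)
    unfold NN
    calc (d : ℝ) ^ 10 = ((d : ℝ) ^ 5) ^ 2 := by ring
      _ ≤ ((2 : ℝ) ^ k) ^ 2 := pow_le_pow_left₀ (by positivity) h1 2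
      _ ≤ ((2 : ℝ) ^ k) ^ d := pow_le_pow_right₀ h2 (by omega)

open scoped Classical in
/-- most colourings have a small loss -/
theorem typ : ∃ d₀ : ℕ, ∀ d : ℕ, d₀ ≤ d → ∀ q : ℕ, Adm d q → ∀ k : ℕ, d ^ 5 ≤ 2 ^ k →
    (((prps d k q).filter fun f => 4 * NN d k / (d : ℝ) ^ 4 ≤ Loss f).card : ℝ) ≤
      ZZ d k q * (1 / (d : ℝ) ^ 4) := by
  obtain ⟨d₀, hp⟩ := pbd
  refine ⟨max d₀ 243, fun d hd q hA k hk => ?_⟩
  have hd0 : d₀ ≤ d := le_trans (le_max_left _ _) hd
  have hd1 : 243 ≤ d := le_trans (le_max_right _ _) hd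
  obtain ⟨hdR, -, -, -, hN⟩ := basic_num hd1 hA hk
  have h1 := hp d hd0 q hA k hk ((prps d k q).filter fun f => 4 * NN d k / (d : ℝ) ^ 4 ≤ Loss f)
    (fun f hf => by
      have := (mem_filter.1 hf).1
      unfold prps at this
      exact (mem_filter.1 this).2) (4 * NN d k / (d : ℝ) ^ 4)
    (fun f hf => (mem_filter.1 hf).2)
  refine h1.trans ?_
  have hZ : 0 ≤ ZZ d k q := by unfold ZZ; positivity
  apply mul_le_mul_of_nonneg_left _ hZ
  have e1 : -(4 * NN d k / (d : ℝ) ^ 4) + 3 * NN d k / (d : ℝ) ^ 4 = -(NN d k / (d : ℝ) ^ 4) := by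
    ring
  have hd4 : (0 : ℝ) < (d : ℝ) ^ 4 := by positivity
  have h2 : (d : ℝ) ^ 4 ≤ NN d k / (d : ℝ) ^ 4 := by
    rw [le_div_iff₀ hd4]
    calc (d : ℝ) ^ 4 * (d : ℝ) ^ 4 = (d : ℝ) ^ 8 := by ring
      _ ≤ (d : ℝ) ^ 10 := pow_le_pow_right₀ (by linarith) (by norm_num)
      _ ≤ _ := hN
  rw [e1, Real.exp_neg, ← one_div]
  apply one_div_le_one_div_of_le hd4
  have h3 := Real.add_one_le_exp (NN d k / (d : ℝ) ^ 4)
  linarith

open scoped Classical in
/-- mean of a functional which is bounded by a multiple of the loss -/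
theorem mean_gen : ∃ d₀ : ℕ, ∀ d : ℕ, d₀ ≤ d → ∀ q : ℕ, Adm d q → ∀ k : ℕ, d ^ 5 ≤ 2 ^ k →
    ∀ (Φ : (Site d k → Fin q) → ℝ) (a b : ℝ), 0 ≤ a → 0 ≤ b → (∀ f, Prp f → Φ f ≤ a * Loss f) →
    (∀ f, Prp f → Φ f ≤ b) →
    ∑ f ∈ prps d k q, Φ f ≤ (4 * a * NN d k + b) / (d : ℝ) ^ 4 * ZZ d k q := by
  obtain ⟨d₀, ht⟩ := typ
  refine ⟨max d₀ 1, fun d hd q hA k hk Φ a b ha hb h1 h2 => ?_⟩
  have hd0 : d₀ ≤ d := le_trans (le_max_left _ _) hd
  have hd1 : 1 ≤ d := le_trans (le_max_right _ _) hd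
  have hdR : (1 : ℝ) ≤ d := by exact_mod_cast hd1
  have h3 := ht d hd0 q hA k hk
  have hNN : 0 ≤ NN d k := by unfold NN; positivity
  have hpt : ∀ f ∈ prps d k q, Φ f ≤ a * (4 * NN d k / (d : ℝ) ^ 4) +
      (if 4 * NN d k / (d : ℝ) ^ 4 ≤ Loss f then b else 0) := by
    intro f hf
    have hf' : Prp f := by
      unfold prps at hf
      exact (mem_filter.1 hf).2
    split_ifs with h
    · have := h2 f hf'
      have h4 : 0 ≤ a * (4 * NN d k / (d : ℝ) ^ 4) := by positivity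
      linarith
    · have h4 := not_le.1 h
      have h5 := mul_le_mul_of_nonneg_left h4.le ha
      have := h1 f hf'
      linarith
  refine (sum_le_sum hpt).trans ?_
  rw [sum_add_distrib, sum_const, nsmul_eq_mul, ← sum_filter, sum_const, nsmul_eq_mul]
  have hZc : ((prps d k q).card : ℝ) = ZZ d k q := rfl
  rw [hZc]
  have h6 := mul_le_mul_of_nonneg_right h3 hb
  have e : (4 * a * NN d k + b) / (d : ℝ) ^ 4 * ZZ d k q =
      ZZ d k q * (a * (4 * NN d k / (d : ℝ) ^ 4)) + ZZ d k q * (1 / (d : ℝ) ^ 4) * b := by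
    field_simp
  rw [e]
  linarith

open scoped Classical in
/-- mean number of deviations -/
theorem mean_dev : ∃ d₀ : ℕ, ∀ d : ℕ, d₀ ≤ d → ∀ q : ℕ, Adm d q → ∀ k : ℕ, d ^ 5 ≤ 2 ^ k →
    ∀ t₁ : Blk d k,
    ∑ f ∈ prps d (k + 1) q, (∑ c, ∑ t : Blk d k, dev f t c + ∑ c, ∑ t : Blk d k, dif f t₁ t c) ≤
      NN d k * (1 / (16 * (d : ℝ) ^ 2)) * ZZ d (k + 1) q := by
  obtain ⟨d₁, hg⟩ := mean_gen
  obtain ⟨d₂, hpd⟩ := pdiff2
  refine ⟨max (max d₁ d₂) 243, fun d hd q hA k hk t₁ => ?_⟩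
  have hd1 : d₁ ≤ d := le_trans (le_trans (le_max_left _ _) (le_max_left _ _)) hd
  have hd2 : d₂ ≤ d := le_trans (le_trans (le_max_right _ _) (le_max_left _ _)) hd
  have hd3 : 243 ≤ d := le_trans (le_max_right _ _) hd
  obtain ⟨hdR, hqR, hqd, hk1, hN⟩ := basic_num hd3 hA hk
  have hdp : 1 ≤ d := by omega
  have hq2 : 2 ≤ q := hA.1
  have hq1 : 1 ≤ q := by omega
  have hkk : d ^ 5 ≤ 2 ^ (k + 1) := le_trans hk (Nat.pow_le_pow_right (by norm_num) (by omega))
  have hZ : 0 ≤ ZZ d (k + 1) q := by unfold ZZ; positivity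
  have hNk : NN d (k + 1) = NN d k * 2 ^ d := by
    unfold NN
    rw [pow_succ, mul_pow]
  have hNp : 0 ≤ NN d k := by unfold NN; positivity
  have hcb : (Fintype.card (Blk d k) : ℝ) = NN d k := card_site d k
  -- the part with the loss
  have hA1 : ∑ f ∈ prps d (k + 1) q, ∑ c, (II f c + QQ f c) ≤
      (4 * (6 * q) * NN d (k + 1) + q * NN d (k + 1)) / (d : ℝ) ^ 4 * ZZ d (k + 1) q :=
    hg d hd1 q hA (k + 1) hkk (fun f => ∑ c, (II f c + QQ f c)) (6 * q) (q * NN d (k + 1))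
      (by positivity) (by unfold NN; positivity) (fun f hf => IQ_le_Loss hq2 hf)
      (fun f _ => IQ_le hdp (by omega) f)
  -- the part with the labels
  have hA2 : ∀ (c : Fin q) (t : Blk d k),
      ∑ f ∈ prps d (k + 1) q, ((if bad c t f then (1 : ℝ) else 0) + dif f t₁ t c) ≤
        2 * (ZZ d (k + 1) q * (1 / (d : ℝ) ^ 5)) := by
    intro c t
    have h1 := hpd d hd2 q hA k hk c t t₁
    have h2 : ∀ f ∈ prps d (k + 1) q, (if bad c t f then (1 : ℝ) else 0) + dif f t₁ t c ≤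
        2 * (if (bad c t f ∨ ¬ (lab1 f t c ↔ lab1 f t₁ c)) then (1 : ℝ) else 0) := by
      intro f _
      unfold dif
      by_cases hb : bad c t f
      · by_cases hl : (lab1 f t c ↔ lab1 f t₁ c) <;> simp [hb, hl] <;> norm_num
      · by_cases hl : (lab1 f t c ↔ lab1 f t₁ c) <;> simp [hb, hl]
    refine (sum_le_sum h2).trans ?_
    rw [← mul_sum, sum_ite, sum_const_zero, add_zero, sum_const, nsmul_eq_mul, mul_one]
    exact mul_le_mul_of_nonneg_left h1 (by norm_num)
  -- pointwise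
  have hpt : ∀ f ∈ prps d (k + 1) q,
      (∑ c, ∑ t : Blk d k, dev f t c + ∑ c, ∑ t : Blk d k, dif f t₁ t c) ≤
      10 * d / 2 ^ d * ∑ c, (II f c + QQ f c) +
        ∑ c, ∑ t : Blk d k, ((if bad c t f then (1 : ℝ) else 0) + dif f t₁ t c) := by
    intro f _
    have h1 := sum_le_sum fun c (_ : c ∈ (univ : Finset (Fin q))) => dev_sum (k := k) hdp hq1 f c
    rw [sum_add_distrib] at h1
    have h2 : ∑ c, 10 * d * (II f c + QQ f c) / 2 ^ d = 10 * d / 2 ^ d * ∑ c, (II f c + QQ f c) := by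
      rw [mul_sum]
      refine sum_congr rfl fun c _ => ?_
      ring
    rw [h2] at h1
    have h3 : ∑ c, ∑ t : Blk d k, ((if bad c t f then (1 : ℝ) else 0) + dif f t₁ t c) =
        ∑ c, ∑ t : Blk d k, (if bad c t f then (1 : ℝ) else 0) + ∑ c, ∑ t : Blk d k, dif f t₁ t c := by
      simp only [sum_add_distrib]
    rw [h3]
    linarith
  refine (sum_le_sum hpt).trans ?_
  rw [sum_add_distrib, ← mul_sum]
  have hA3 : ∑ f ∈ prps d (k + 1) q, ∑ c, ∑ t : Blk d k,
      ((if bad c t f then (1 : ℝ) else 0) + dif f t₁ t c) ≤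
      q * NN d k * (2 * (ZZ d (k + 1) q * (1 / (d : ℝ) ^ 5))) := by
    rw [sum_comm]
    have h1 : ∀ c ∈ (univ : Finset (Fin q)), ∑ f ∈ prps d (k + 1) q, ∑ t : Blk d k,
        ((if bad c t f then (1 : ℝ) else 0) + dif f t₁ t c) ≤
        NN d k * (2 * (ZZ d (k + 1) q * (1 / (d : ℝ) ^ 5))) := by
      intro c _
      rw [sum_comm]
      refine (sum_le_sum fun t _ => hA2 c t).trans (le_of_eq ?_)
      rw [sum_const, card_univ, nsmul_eq_mul, hcb]
    refine (sum_le_sum h1).trans (le_of_eq ?_)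
    rw [sum_const, card_univ, nsmul_eq_mul, Fintype.card_fin]
    ring
  have hA4 := mul_le_mul_of_nonneg_left hA1 (show 0 ≤ 10 * (d : ℝ) / 2 ^ d by positivity)
  have e1 : 10 * (d : ℝ) / 2 ^ d *
      ((4 * (6 * q) * NN d (k + 1) + q * NN d (k + 1)) / (d : ℝ) ^ 4 * ZZ d (k + 1) q) =
      NN d k * (250 * q / (d : ℝ) ^ 3) * ZZ d (k + 1) q := by
    rw [hNk]
    field_simp
    ring
  rw [e1] at hA4
  have e2 : (q : ℝ) * NN d k * (2 * (ZZ d (k + 1) q * (1 / (d : ℝ) ^ 5))) =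
      NN d k * (2 * q / (d : ℝ) ^ 5) * ZZ d (k + 1) q := by
    field_simp
  rw [e2] at hA3
  have h5 : 250 * (q : ℝ) / (d : ℝ) ^ 3 + 2 * q / (d : ℝ) ^ 5 ≤ 1 / (16 * (d : ℝ) ^ 2) := by
    have hd0 : (0 : ℝ) < d := by linarith
    have h6 : 2 * (q : ℝ) / (d : ℝ) ^ 5 ≤ 2 * q / (d : ℝ) ^ 3 := by
      apply div_le_div_of_nonneg_left (by positivity) (by positivity)
      exact pow_le_pow_right₀ (by linarith) (by norm_num)
    have h7 : 250 * (q : ℝ) / (d : ℝ) ^ 3 + 2 * q / (d : ℝ) ^ 3 ≤ 1 / (16 * (d : ℝ) ^ 2) := by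
      rw [← add_div, div_le_div_iff₀ (by positivity) (by positivity)]
      have : (250 * (q : ℝ) + 2 * q) * (16 * (d : ℝ) ^ 2) = (4032 * q) * (d : ℝ) ^ 2 := by ring
      rw [this]
      have h8 : (d : ℝ) ^ 3 = d * (d : ℝ) ^ 2 := by ring
      rw [h8, one_mul]
      apply mul_le_mul_of_nonneg_right _ (by positivity)
      linarith
    linarith
  have h9 : NN d k * (250 * q / (d : ℝ) ^ 3) * ZZ d (k + 1) q +
      NN d k * (2 * q / (d : ℝ) ^ 5) * ZZ d (k + 1) q ≤
      NN d k * (1 / (16 * (d : ℝ) ^ 2)) * ZZ d (k + 1) q := by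
    rw [← add_mul, ← mul_add]
    apply mul_le_mul_of_nonneg_right _ hZ
    exact mul_le_mul_of_nonneg_left h5 hNp
  linarith

end Pool.Agent.LO

end

/-! ### from `Lib_MP_2c424f_cor.S04` -/

section

/-!
# All blocks unbalanced (piece S04, (S4))

`q` even, so `q1 q = q2 q = q/2`.  Fix a block `t`; no colour is bad, so `c ∉ AL f t` means `lab1 f t c`; `lab0` and
`lab1` exclude each other (`mb ≤ mj ≤ dl q < 1 - dl q`), so `#{c : lab1} = q - |AL| ≠ q/2`.  For an odd point `v` of the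
block with `zz f v c = 1(lab1 f t c)` for all `c`: `av f v = ∑_c zz = #{c : lab1} ≠ q/2` (`av_eq`).  So
`1(av f v = q/2) ≤ ∑_c |zz f v c - 1(lab1 f t c)|`, whose `EB`-mean is `∑_c dev f t c` (`dev_lab1`, `dev_not`, `mt`).
Sum over `t`: `sum_EB` on the left, `dev_sum` (no bad blocks) and `IQ_le_Loss` on the right:
`(2/2^d) #{v odd : av = q/2} ≤ 10 d ∑_c (II + QQ)/2^d ≤ 60 d q Loss / 2^d`.  `avn_le_Loss`: `#{v odd : av ≠ q/2} ≤ 4 q² Loss`.
Sum: `N/2 ≤ (30 d q + 4 q²) Loss ≤ 34 d q Loss` (`q ≤ d`).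
-/

set_option autoImplicit false

open Finset

namespace Pool.Agent.COR

open Pool.Agent.LO

variable {d k q : ℕ}

open scoped Classical in
private theorem S04_card (hq : 2 ≤ q) (hqe : Even q) (hd : 1 ≤ d) {f : Site d (k + 1) → Fin q}
    {t : Blk d k} (h : unb t f) : (univ.filter fun c => lab1 f t c).card ≠ q / 2 := by
  obtain ⟨hb, hA⟩ := h
  have h1 : ∀ c, lab1 f t c ↔ ¬ lab0 f t c := by
    intro c
    constructor
    · intro h1 h0
      have h2 : mb f t c ≤ dl q := (mb_le_mj f t c ⟨0, hd⟩).trans (h0 ⟨0, hd⟩)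
      have h3 : 1 - dl q ≤ mb f t c := h1
      have h4 : dl q ≤ 1 / 200 := by
        unfold dl
        have h5 : (2 : ℝ) ≤ q := by exact_mod_cast hq
        rw [div_le_div_iff₀ (by positivity) (by norm_num)]
        linarith
      linarith
    · intro h0
      by_contra h1
      exact hb c ⟨h1, h0⟩
  have h2 : (univ.filter fun c => lab1 f t c) = (AL f t)ᶜ := by
    ext c
    unfold AL
    simp only [mem_filter, mem_univ, true_and, mem_compl]
    exact h1 c
  rw [h2, Finset.card_compl, Fintype.card_fin]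
  obtain ⟨m, hm⟩ := hqe
  have h3 : (AL f t).card ≤ q := by
    have := Finset.card_le_univ (AL f t)
    rwa [Fintype.card_fin] at this
  omega

open scoped Classical in
private theorem S04_pt (hq : 2 ≤ q) (hqe : Even q) (hd : 1 ≤ d) {f : Site d (k + 1) → Fin q}
    {t : Blk d k} (h : unb t f) (v : Site d (k + 1)) :
    (if av f v = q1 q ∨ av f v = q2 q then (1 : ℝ) else 0) ≤
      ∑ c, |zz f v c - (if lab1 f t c then 1 else 0)| := by
  split_ifs with hv
  · have h1 := S04_card hq hqe hd h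
    have h2 : av f v = q / 2 := by
      obtain ⟨m, hm⟩ := hqe
      unfold q1 q2 at hv
      omega
    have h3 : (1 : ℝ) ≤ |(av f v : ℝ) - ((univ.filter fun c => lab1 f t c).card : ℝ)| := by
      have h4 : (1 : ℤ) ≤ |(av f v : ℤ) - ((univ.filter fun c => lab1 f t c).card : ℤ)| := by
        apply Int.one_le_abs
        omega
      exact_mod_cast h4
    refine h3.trans ?_
    rw [av_eq, Finset.card_filter]
    push_cast
    rw [← Finset.sum_sub_distrib]
    exact Finset.abs_sum_le_sum_abs _ _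
  · exact Finset.sum_nonneg fun c _ => abs_nonneg _

theorem unb_loss (hd : 1 ≤ d) (hq : 2 ≤ q) (hqe : Even q) (hqd : q ≤ d) {f : Site d (k + 1) → Fin q} (hf : Prp f)
    (h : ∀ t : Blk d k, unb t f) : NN d (k + 1) / (68 * d * q) ≤ Loss f := by
  classical
  have hdR : (1 : ℝ) ≤ d := by exact_mod_cast hd
  have hqR : (2 : ℝ) ≤ q := by exact_mod_cast hq
  have hqdR : (q : ℝ) ≤ d := by exact_mod_cast hqd
  have hL0 : 0 ≤ Loss f := by
    have h1 := IQ_le_Loss hq hf
    have h2 : 0 ≤ ∑ c, (II f c + QQ f c) :=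
      Finset.sum_nonneg fun c _ => add_nonneg (II_nonneg' f c) (QQ_nonneg' f c)
    by_contra hcon
    push Not at hcon
    have h3 : 6 * (q : ℝ) * Loss f < 0 := by
      have : 0 < 6 * (q : ℝ) := by linarith
      nlinarith
    linarith
  -- one block
  have hblk : ∀ t : Blk d k, EB (fun a b => if av f (pt t a b) = q1 q ∨ av f (pt t a b) = q2 q
      then (1 : ℝ) else 0) ≤ ∑ c, dev f t c := by
    intro t
    refine (EB_mono fun a b _ => S04_pt hq hqe hd (h t) (pt t a b)).trans (le_of_eq ?_)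
    rw [EB_sum]
    rfl
  have hsum := Finset.sum_le_sum fun (t : Blk d k) (_ : t ∈ univ) => hblk t
  rw [sum_EB hd (fun v => if av f v = q1 q ∨ av f v = q2 q then (1 : ℝ) else 0),
    Finset.sum_comm] at hsum
  have hdev : ∑ c, ∑ t : Blk d k, dev f t c ≤ 10 * d / 2 ^ d * (6 * q * Loss f) := by
    calc ∑ c, ∑ t : Blk d k, dev f t c
        ≤ ∑ c, (10 * d * (II f c + QQ f c) / 2 ^ d) := by
          refine Finset.sum_le_sum fun c _ => ?_
          refine (dev_sum hd (by omega) f c).trans (le_of_eq ?_)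
          have h1 : ∑ t : Blk d k, (if bad c t f then (1 : ℝ) else 0) = 0 :=
            Finset.sum_eq_zero fun t _ => if_neg ((h t).1 c)
          rw [h1, add_zero]
      _ = 10 * d / 2 ^ d * ∑ c, (II f c + QQ f c) := by
          rw [Finset.mul_sum]
          exact Finset.sum_congr rfl fun c _ => by ring
      _ ≤ 10 * d / 2 ^ d * (6 * q * Loss f) :=
          mul_le_mul_of_nonneg_left (IQ_le_Loss hq hf) (by positivity)
  have h2d : (0 : ℝ) < 2 ^ d := by positivity
  have hG : ∑ v ∈ ods d (k + 1), (if av f v = q1 q ∨ av f v = q2 q then (1 : ℝ) else 0) ≤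
      30 * d * q * Loss f := by
    have h1 := hsum.trans hdev
    have h2 : 2 / 2 ^ d * ∑ v ∈ ods d (k + 1),
        (if av f v = q1 q ∨ av f v = q2 q then (1 : ℝ) else 0) ≤
        2 / 2 ^ d * (30 * d * q * Loss f) := by
      refine h1.trans (le_of_eq ?_)
      ring
    exact le_of_mul_le_mul_left h2 (by positivity)
  have hN := avn_le_Loss hq hf
  have hcard : NN d (k + 1) / 2 = ∑ v ∈ ods d (k + 1),
      ((if av f v = q1 q ∨ av f v = q2 q then (1 : ℝ) else 0) +
        (if ¬ (av f v = q1 q ∨ av f v = q2 q) then (1 : ℝ) else 0)) := by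
    rw [← card_ods hd (Nat.le_add_left 1 k), Finset.card_eq_sum_ones]
    push_cast
    refine Finset.sum_congr rfl fun v _ => ?_
    by_cases hv : av f v = q1 q ∨ av f v = q2 q
    · rw [if_pos hv, if_neg (not_not.2 hv), add_zero]
    · rw [if_neg hv, if_pos hv, zero_add]
  rw [Finset.sum_add_distrib] at hcard
  rw [div_le_iff₀ (by positivity)]
  have h5 : 4 * (q : ℝ) ^ 2 * Loss f ≤ 4 * d * q * Loss f := by
    have h6 : 4 * (q : ℝ) ^ 2 ≤ 4 * d * q := by nlinarith
    exact mul_le_mul_of_nonneg_right h6 hL0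
  nlinarith

end Pool.Agent.COR

end

/-! ### from `Lib_MP_2c424f_cor.S01` -/

section

/-!
# The coding bound with the precision `d^{-45}` (piece S01)

The proof of `star8` (file `Lib_MP_2c424f_fb/Star8.lean`, copy it) with other numbers: `ε = d^{-45}`, `log (1/ε) = 45 log d`,
`Y = 47 (log₂ d + 1)`, so `(1/2)^Y ≤ d^{-47}` and `Y ≤ 188 log d`, `(1/4)^d ≤ d^{-47}` for `d ≥ 400` (or any large `d₀`),
`2^k ≥ d^46`.  In `Star8_arith` the sum of the coefficients is now
`360 M (g1+g2) + S/8 g1 + 564 M g2 + 2880 M g2 + (2/3) P (g1+g2) ≤ S (g1+g2)` with `M = log d / d ≤ P/6000`, `P = 1/q`,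
`S ≥ (4/3) P`: `3804/6000 + 2/3 ≤ 4/3`.
-/

set_option autoImplicit false

open Finset

namespace Pool.Agent.COR

open Pool.Agent.LO

/-- admissible for the coding bound -/
def Adm6 (d q : ℕ) : Prop := 2 ≤ q ∧ (Even q ∨ 41 ≤ q) ∧ (q : ℝ) * (6000 * Real.log d) ≤ d

/-- the mean of the total code length -/
private theorem S01_mean {d k q s : ℕ} (hd : 1 ≤ d) (ε : ℝ) (f : Site d k → Fin q) :
    (∑ i : Fin d, ∑ a : ZMod (2 ^ s), ER (fun R => TT ε s f i a R)) / (d * 2 ^ s) =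
      (∑ i : Fin d, ∑ a : ZMod (2 ^ s), T1 ε s f i a) / (d * 2 ^ s) +
      ((∑ i : Fin d, ∑ a : ZMod (2 ^ s), ER (fun R => T2 s f i a R)) / (d * 2 ^ s) +
        ER (fun R => T3 ε f R) + T4 f) := by
  have hd0 : (0 : ℝ) < d := by exact_mod_cast hd
  have h1 : ∀ (i : Fin d) (a : ZMod (2 ^ s)), ER (fun R => TT ε s f i a R) =
      T1 ε s f i a + ER (fun R => T2 s f i a R) + (ER (fun R => T3 ε f R) + T4 f) := by
    intro i a
    unfold TT
    rw [ER_add, ER_add, ER_add, ER_const, ER_const]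
    ring
  have h2 : ∑ i : Fin d, ∑ a : ZMod (2 ^ s), ER (fun R => TT ε s f i a R) =
      (∑ i : Fin d, ∑ a : ZMod (2 ^ s), T1 ε s f i a) +
      (∑ i : Fin d, ∑ a : ZMod (2 ^ s), ER (fun R => T2 s f i a R)) +
      d * 2 ^ s * (ER (fun R => T3 ε f R) + T4 f) := by
    have h3 : ∀ i : Fin d, ∑ a : ZMod (2 ^ s), ER (fun R => TT ε s f i a R) =
        (∑ a : ZMod (2 ^ s), T1 ε s f i a) + (∑ a : ZMod (2 ^ s), ER (fun R => T2 s f i a R)) +
          2 ^ s * (ER (fun R => T3 ε f R) + T4 f) := by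
      intro i
      rw [Finset.sum_congr rfl (fun a _ => h1 i a), Finset.sum_add_distrib, Finset.sum_add_distrib,
        Finset.sum_const, Finset.card_univ, ZMod.card, nsmul_eq_mul]
      push_cast
      ring
    rw [Finset.sum_congr rfl (fun i _ => h3 i), Finset.sum_add_distrib, Finset.sum_add_distrib,
      Finset.sum_const, Finset.card_univ, Fintype.card_fin, nsmul_eq_mul]
    ring
  rw [h2]
  have h4 : (0 : ℝ) < d * 2 ^ s := by positivity
  rw [add_div, add_div, mul_div_cancel_left₀ _ h4.ne']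
  ring

private theorem S01_log_two : (69 / 100 : ℝ) ≤ Real.log 2 := by
  have := Real.log_two_gt_d9
  linarith

/-- the cut-off `Y` -/
private theorem S01_Y {d : ℕ} (hd : 400 ≤ d) : ∃ Y : ℕ, (1 / 2 : ℝ) ^ Y ≤ 1 / (d : ℝ) ^ 47 ∧
    (Y : ℝ) ≤ 188 * Real.log d := by
  refine ⟨47 * (Nat.log 2 d + 1), ?_, ?_⟩
  · have h1 : d < 2 ^ (Nat.log 2 d + 1) := Nat.lt_pow_succ_log_self (by norm_num) d
    have h2 : (d : ℝ) ≤ 2 ^ (Nat.log 2 d + 1) := by exact_mod_cast h1.le
    have hd0 : (0 : ℝ) < d := by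
      have : 0 < d := by omega
      exact_mod_cast this
    rw [mul_comm 47, pow_mul, one_div_pow, one_div_pow]
    apply one_div_le_one_div_of_le (by positivity)
    exact pow_le_pow_left₀ hd0.le h2 47
  · have hd0 : (0 : ℝ) < d := by
      have : 0 < d := by omega
      exact_mod_cast this
    have h1 : (2 : ℝ) ^ Nat.log 2 d ≤ d := by exact_mod_cast Nat.pow_log_le_self 2 (by omega)
    have h2 := Real.log_le_log (by positivity) h1
    rw [Real.log_pow] at h2
    have h3 := S01_log_two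
    have h4 : (1 : ℝ) ≤ Real.log d := by
      rw [Real.le_log_iff_exp_le hd0]
      have := Real.exp_one_lt_d9
      have h5 : (400 : ℝ) ≤ d := by exact_mod_cast hd
      linarith
    have h6 : (0 : ℝ) ≤ (Nat.log 2 d : ℝ) := Nat.cast_nonneg _
    push_cast
    nlinarith

private theorem S01_four {d : ℕ} (hd : 400 ≤ d) : (1 / 4 : ℝ) ^ d ≤ 1 / (d : ℝ) ^ 47 := by
  have h : ∀ n : ℕ, 400 ≤ n → n ^ 47 ≤ 4 ^ n := by
    intro n hn
    induction n, hn using Nat.le_induction with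
    | base =>
      calc 400 ^ 47 ≤ (4 ^ 5) ^ 47 := Nat.pow_le_pow_left (by norm_num) 47
        _ = 4 ^ 235 := by rw [← pow_mul]
        _ ≤ 4 ^ 400 := Nat.pow_le_pow_right (by norm_num) (by norm_num)
    | succ n hn ih =>
      have h1 : (n + 1) ^ 47 ≤ 4 * n ^ 47 := by
        have h2 : ((n : ℝ) + 1) ^ 47 ≤ 4 * (n : ℝ) ^ 47 := by
          have hn' : (400 : ℝ) ≤ n := by exact_mod_cast hn
          have h3 : (n : ℝ) + 1 ≤ 401 / 400 * n := by linarith
          calc ((n : ℝ) + 1) ^ 47 ≤ (401 / 400 * (n : ℝ)) ^ 47 :=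
                pow_le_pow_left₀ (by positivity) h3 47
            _ = (401 / 400) ^ 47 * (n : ℝ) ^ 47 := by rw [mul_pow]
            _ ≤ 4 * (n : ℝ) ^ 47 := by
              apply mul_le_mul_of_nonneg_right _ (by positivity)
              norm_num
        exact_mod_cast h2
      calc (n + 1) ^ 47 ≤ 4 * n ^ 47 := h1
        _ ≤ 4 * 4 ^ n := Nat.mul_le_mul_left 4 ih
        _ = 4 ^ (n + 1) := by ring
  have h1 := h d (by omega)
  have h2 : (d : ℝ) ^ 47 ≤ 4 ^ d := by exact_mod_cast h1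
  have hd0 : (0 : ℝ) < d := by
    have : 0 < d := by omega
    exact_mod_cast this
  rw [one_div_pow]
  exact one_div_le_one_div_of_le (by positivity) h2

/-- the slope times `q` -/
private theorem S01_sl {q : ℕ} (hq : 2 ≤ q) (h : Even q ∨ 41 ≤ q) : 4 / (3 * (q : ℝ)) ≤ sl q ∧
    sl q * q ≤ 3 := by
  have hq0 : (0 : ℝ) < q := by
    have : 0 < q := by omega
    exact_mod_cast this
  have hq1 := q1_pos hq
  have hq1' : (0 : ℝ) < q1 q := by exact_mod_cast hq1
  constructor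
  · refine le_trans ?_ (sl_ge hq)
    have h1 : 4 * q2 q ≤ 3 * q := by
      unfold q2
      rcases h with h | h
      · obtain ⟨r, hr⟩ := h
        omega
      · omega
    have h2 : 0 < q2 q := by
      unfold q2
      omega
    have h1' : 4 * (q2 q : ℝ) ≤ 3 * q := by exact_mod_cast h1
    have h2' : (0 : ℝ) < q2 q := by exact_mod_cast h2
    rw [div_le_div_iff₀ (by positivity) h2']
    linarith
  · have h1 : q ≤ 3 * q1 q := by
      unfold q1
      omega
    have h1' : (q : ℝ) ≤ 3 * q1 q := by exact_mod_cast h1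
    calc sl q * q ≤ 1 / (q1 q : ℝ) * q := mul_le_mul_of_nonneg_right (sl_le hq) hq0.le
      _ = q / q1 q := by ring
      _ ≤ 3 := by
        rw [div_le_iff₀ hq1']
        linarith

/-- the arithmetic -/
private theorem S01_arith {D Q L lam S K g1 g2 I J Y : ℝ} (hD : 400 ≤ D) (hL : 1 ≤ L) (hQ : 0 < Q)
    (hA : Q * (6000 * L) ≤ D) (hlam : lam = 45 * L) (hS : 4 / (3 * Q) ≤ S)
    (hK : 20 * K ≤ S) (hg1 : 0 ≤ g1) (hg2 : 0 ≤ g2)
    (hI : I ≤ 2 * (g1 + g2)) (hJ : J ≤ 2 * g2)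
    (hY0 : 0 ≤ Y) (hY : Y ≤ 188 * L) :
    4 * lam / D * I + K * (5 / 2 * g1) + 3 * (Y / (2 * D) * J) + lam * (32 / D * J) +
      1 / (6 * Q) * (I + J) ≤ S * (g1 + g2) := by
  have hDp : (0 : ℝ) < D := by linarith
  have hLD : L / D ≤ 1 / (6000 * Q) := by
    rw [div_le_div_iff₀ hDp (by positivity)]
    linarith
  have h1 : 4 * lam / D * I ≤ 360 * (L / D) * (g1 + g2) := by
    have : 4 * lam / D = 180 * (L / D) := by rw [hlam]; ring
    rw [this]
    have h0 : 0 ≤ 180 * (L / D) := by positivity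
    nlinarith [mul_le_mul_of_nonneg_left hI h0]
  have h2 : K * (5 / 2 * g1) ≤ S / 8 * g1 := by
    nlinarith [mul_le_mul_of_nonneg_right hK hg1]
  have h3 : 3 * (Y / (2 * D) * J) ≤ 564 * (L / D) * g2 := by
    have e : 3 * (Y / (2 * D) * J) = 3 / 2 * (Y / D) * J := by ring
    rw [e]
    have h0 : 0 ≤ 3 / 2 * (Y / D) := by positivity
    have h4 : 3 / 2 * (Y / D) * J ≤ 3 / 2 * (Y / D) * (2 * g2) := mul_le_mul_of_nonneg_left hJ h0
    have h5 : Y / D ≤ 188 * (L / D) := by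
      rw [← mul_div_assoc]
      exact div_le_div_of_nonneg_right hY hDp.le
    nlinarith [mul_le_mul_of_nonneg_right h5 hg2]
  have h4 : lam * (32 / D * J) ≤ 2880 * (L / D) * g2 := by
    have e : lam * (32 / D * J) = 1440 * (L / D) * J := by rw [hlam]; ring
    rw [e]
    have h0 : 0 ≤ 1440 * (L / D) := by positivity
    nlinarith [mul_le_mul_of_nonneg_left hJ h0]
  have h5 : 1 / (6 * Q) * (I + J) ≤ 2 / 3 * (1 / Q) * (g1 + g2) := by
    have e : 1 / (6 * Q) * (I + J) = 1 / 6 * (1 / Q) * (I + J) := by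
      field_simp
    rw [e]
    have h0 : 0 ≤ 1 / 6 * (1 / Q) := by positivity
    have h6 : I + J ≤ 4 * (g1 + g2) := by linarith
    nlinarith [mul_le_mul_of_nonneg_left h6 h0]
  have hLD' : L / D ≤ 1 / 6000 * (1 / Q) := by
    have e : 1 / (6000 * Q) = 1 / 6000 * (1 / Q) := by
      field_simp
    rw [← e]
    exact hLD
  have hS' : 4 / 3 * (1 / Q) ≤ S := by
    have e : 4 / (3 * Q) = 4 / 3 * (1 / Q) := by
      field_simp
    rw [← e]
    exact hS
  set P := 1 / Q with hP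
  have hP0 : 0 < P := by positivity
  set M := L / D with hM
  have hM0 : 0 ≤ M := by positivity
  have hsum : 360 * M * (g1 + g2) + S / 8 * g1 + 564 * M * g2 + 2880 * M * g2 +
      2 / 3 * P * (g1 + g2) ≤ S * (g1 + g2) := by
    have ha : 0 ≤ g1 * (7 / 8 * S - 360 * M - 2 / 3 * P) := mul_nonneg hg1 (by linarith)
    have hb : 0 ≤ g2 * (S - 360 * M - 3444 * M - 2 / 3 * P) := mul_nonneg hg2 (by linarith)
    nlinarith
  linarith

/-- the small terms -/
private theorem S01_small {D Q L lam S K N W H F : ℝ} (hD : 400 ≤ D) (hN : 0 ≤ N) (hQ : 0 < Q)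
    (hL : 1 ≤ L) (hLD : L ≤ D) (hA : Q * (6000 * L) ≤ D) (hlam : lam = 45 * L)
    (hSQ : S * Q ≤ 3) (hK : 20 * K ≤ S) (hW : D ^ 46 ≤ W) (hH : H ≤ 1 / D ^ 47)
    (hF : F ≤ 1 / D ^ 47) (hF0 : 0 ≤ F) :
    N * Q * (1 / D ^ 45) / D + N * Q / (W * D) + K * (Q * (1 / D ^ 45) * N / 4) +
      S * Q * (1 / D ^ 45) * N / 4 + 3 * (N / 2 * H) + lam * (N / 2 * F) ≤ 3 * N / D ^ 45 := by
  have hDp : (0 : ℝ) < D := by linarith
  have hWp : (0 : ℝ) < W := lt_of_lt_of_le (by positivity) hW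
  have hQD : Q / D ≤ 1 / 1000 := by
    rw [div_le_div_iff₀ hDp (by norm_num)]
    nlinarith
  set E := 1 / D ^ 45 with hE
  have hE0 : 0 < E := by positivity
  have hNE : 0 ≤ N * E := by positivity
  have h1 : N * Q * E / D ≤ 1 / 1000 * (N * E) := by
    have e : N * Q * E / D = (Q / D) * (N * E) := by ring
    rw [e]
    exact mul_le_mul_of_nonneg_right hQD hNE
  have h2 : N * Q / (W * D) ≤ 1 / 1000 * (N * E) := by
    have e : N * Q / (W * D) = (Q / D) * (N * (1 / W)) := by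
      field_simp
    rw [e]
    have h3 : 1 / W ≤ E := by
      rw [hE]
      apply one_div_le_one_div_of_le (by positivity)
      refine le_trans ?_ hW
      have : D ^ 46 = D ^ 45 * D := by ring
      rw [this]
      have h4 : 0 < D ^ 45 := by positivity
      nlinarith
    have h4 : N * (1 / W) ≤ N * E := mul_le_mul_of_nonneg_left h3 hN
    have h5 : 0 ≤ N * (1 / W) := by positivity
    calc Q / D * (N * (1 / W)) ≤ 1 / 1000 * (N * (1 / W)) := mul_le_mul_of_nonneg_right hQD h5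
      _ ≤ 1 / 1000 * (N * E) := by linarith
  have hKQ : K * Q ≤ 3 / 20 := by nlinarith [mul_le_mul_of_nonneg_right hK hQ.le]
  have h3 : K * (Q * E * N / 4) ≤ 1 / 10 * (N * E) := by
    have e : K * (Q * E * N / 4) = (K * Q) * (N * E) / 4 := by ring
    rw [e]
    nlinarith [mul_le_mul_of_nonneg_right hKQ hNE]
  have h4 : S * Q * E * N / 4 ≤ 3 / 4 * (N * E) := by
    have e : S * Q * E * N / 4 = (S * Q) * (N * E) / 4 := by ring
    rw [e]
    nlinarith [mul_le_mul_of_nonneg_right hSQ hNE]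
  have hE6 : 1 / D ^ 47 ≤ 1 / 1000 * E ∧ D * (1 / D ^ 47) ≤ 1 / 400 * E := by
    have e1 : 1 / D ^ 47 = (1 / D ^ 2) * E := by
      rw [hE, one_div_mul_one_div, ← pow_add]
    have e2 : D * (1 / D ^ 47) = (1 / D) * E := by
      rw [e1, ← mul_assoc]
      congr 1
      field_simp
    have e3 : 1 / D ≤ 1 / 400 := one_div_le_one_div_of_le (by norm_num) hD
    have e4 : 1 / D ^ 2 ≤ 1 / 1000 := by
      apply one_div_le_one_div_of_le (by norm_num)
      nlinarith
    constructor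
    · rw [e1]
      exact mul_le_mul_of_nonneg_right e4 hE0.le
    · rw [e2]
      exact mul_le_mul_of_nonneg_right e3 hE0.le
  have h5 : 3 * (N / 2 * H) ≤ 1 / 100 * (N * E) := by
    have h7 : H ≤ 1 / 1000 * E := le_trans hH hE6.1
    nlinarith [mul_le_mul_of_nonneg_left h7 hN]
  have h6 : lam * (N / 2 * F) ≤ 1 / 10 * (N * E) := by
    have h7 : L * F ≤ D * (1 / D ^ 47) := mul_le_mul hLD hF hF0 hDp.le
    have h8 : L * F ≤ 1 / 400 * E := le_trans h7 hE6.2
    have e : lam * (N / 2 * F) = 45 / 2 * (N * (L * F)) := by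
      rw [hlam]
      ring
    rw [e]
    nlinarith [mul_le_mul_of_nonneg_left h8 hN]
  have e : 3 * N / D ^ 45 = 3 * (N * E) := by
    rw [hE]
    ring
  rw [e]
  linarith

theorem star45 : ∃ d₀ : ℕ, ∀ d : ℕ, d₀ ≤ d → ∀ q : ℕ, Adm6 d q → ∀ k s : ℕ, d ≤ 2 ^ s → 2 ^ s < 2 * d →
    d ^ 46 ≤ 2 ^ k → ∀ f : Site d k → Fin q, Prp f →
    (∑ i : Fin d, ∑ a : ZMod (2 ^ s), ER (fun R => TT (1 / (d : ℝ) ^ 45) s f i a R)) / (d * 2 ^ s) ≤
      NN d k / 2 * Real.log ((q1 q : ℝ) * q2 q) - Loss f + 3 * NN d k / (d : ℝ) ^ 45 := by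
  refine ⟨400, ?_⟩
  intro d hd q hA k s hs1 hs2 hk f hf
  obtain ⟨hq, hqq, hA'⟩ := hA
  have hdR : (400 : ℝ) ≤ d := by exact_mod_cast hd
  have hd0 : (0 : ℝ) < d := by linarith
  have hq0 : (0 : ℝ) < q := by
    have : 0 < q := by omega
    exact_mod_cast this
  have hlog1 : (1 : ℝ) ≤ Real.log d := by
    rw [Real.le_log_iff_exp_le hd0]
    have := Real.exp_one_lt_d9
    linarith
  have hlogd : Real.log d ≤ d := by
    have := Real.log_le_sub_one_of_pos hd0
    linarith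
  have hk3 : 3 ≤ k := by
    by_contra hcon
    have h1 : 2 ^ k ≤ 2 ^ 2 := Nat.pow_le_pow_right (by norm_num) (by omega)
    have h2 : 400 ^ 46 ≤ d ^ 46 := Nat.pow_le_pow_left hd 46
    norm_num at h1 h2
    omega
  have hsk : s ≤ k := by
    by_contra hcon
    have h1 : 2 ^ k ≤ 2 ^ s := Nat.pow_le_pow_right (by norm_num) (by omega)
    have h2 : 2 * d ≤ d ^ 46 := by
      calc 2 * d ≤ d ^ 45 * d := by
            apply Nat.mul_le_mul_right
            calc 2 ≤ 400 ^ 45 := by norm_num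
              _ ≤ d ^ 45 := Nat.pow_le_pow_left hd 45
        _ = d ^ 46 := by ring
    omega
  have he : (0 : ℝ) < 1 / (d : ℝ) ^ 45 := by positivity
  have he1 : 1 / (d : ℝ) ^ 45 ≤ 1 / 2 := by
    apply one_div_le_one_div_of_le (by norm_num)
    calc (2 : ℝ) ≤ 400 ^ 45 := by norm_num
      _ ≤ (d : ℝ) ^ 45 := pow_le_pow_left₀ (by norm_num) hdR 45
  have hlam : Real.log (1 / (1 / (d : ℝ) ^ 45)) = 45 * Real.log d := by
    rw [one_div_one_div, Real.log_pow]
    norm_num
  obtain ⟨Y, hY1, hY2⟩ := S01_Y hd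
  have hF := S01_four hd
  obtain ⟨hS, hSQ⟩ := S01_sl hq hqq
  have hK := kp_le hq hqq
  have hN : 0 ≤ NN d k := by unfold NN; positivity
  have hT1 := ET1 (by omega : 2 ≤ d) (by omega : 2 ≤ k) hsk hs1 he he1 f
  have hM := main23 (s := s) (by omega : 2 ≤ d) (by omega : 2 ≤ k) hq he hf
  have hKK := KK_le (by omega : 2 ≤ d) hk3 he he1 f Y
  have hG2 := G2_ge (by omega : 1 ≤ d) (by omega : 2 ≤ k) f
  have hG12 := G12_ge f
  have hG1n := G1_nonneg f
  have hG2n := G2_nonneg f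
  rw [hlam] at hT1 hKK
  rw [S01_mean (by omega) (1 / (d : ℝ) ^ 45) f]
  have hW : (d : ℝ) ^ 46 ≤ 2 ^ k := by exact_mod_cast hk
  have h1 := S01_arith (D := d) (Q := q) (L := Real.log d) (lam := 45 * Real.log d) (S := sl q)
    (K := kp q) (g1 := G1 f) (g2 := G2 f) (I := ∑ c, II f c) (J := ∑ c, QQ f c) (Y := Y)
    hdR hlog1 hq0 hA' rfl hS hK hG1n hG2n (by linarith) (by linarith) (Nat.cast_nonneg _) hY2
  have h2 := S01_small (D := d) (Q := q) (L := Real.log d) (lam := 45 * Real.log d) (S := sl q)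
    (K := kp q) (N := NN d k) (W := 2 ^ k) (H := (1 / 2 : ℝ) ^ Y) (F := (1 / 4 : ℝ) ^ d)
    hdR hN hq0 hlog1 hlogd hA' rfl hSQ hK hW hY1 hF (by positivity)
  unfold Loss
  rw [Finset.sum_add_distrib]
  have h3 : kp q * (5 / 2 * G1 f + q * (1 / (d : ℝ) ^ 45) * NN d k / 4) =
      kp q * (5 / 2 * G1 f) + kp q * (q * (1 / (d : ℝ) ^ 45) * NN d k / 4) := by ring
  rw [h3] at hM
  have h4 : 3 * (Y / (2 * (d : ℝ)) * ∑ c, QQ f c + NN d k / 2 * (1 / 2) ^ Y) =
      3 * (Y / (2 * (d : ℝ)) * ∑ c, QQ f c) + 3 * (NN d k / 2 * (1 / 2) ^ Y) := by ring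
  have h5 : 45 * Real.log d * (32 / d * ∑ c, QQ f c + NN d k / 2 * (1 / 4) ^ d) =
      45 * Real.log d * (32 / d * ∑ c, QQ f c) + 45 * Real.log d * (NN d k / 2 * (1 / 4) ^ d) := by ring
  rw [h4, h5] at hKK
  linarith

end Pool.Agent.COR

end

/-! ### from `Lib_MP_2c424f_cor.S02` -/

section

/-!
# The number of colourings with a large loss (piece S02, (S1))

The proof of `pbd8` / `Pbd_card` (files `Lib_MP_2c424f_fb/Pbd8.lean`, `Lib_MP_2c424f_lo/Pbd.lean`, copy it) with `star45`: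
`s = Nat.clog 2 d`; for `f ∈ A`: `exp (-(mean of TT)) ≤ mean of exp (-TT)` (Jensen), sum over `f ∈ A`, `kraft`.  No lower
bound of `ZZ` is used.  For even `q`: `q1 q = q2 q = q/2`, `N/2 log (q1 q2) = N log (q/2)`.
-/

set_option autoImplicit false

open Finset

namespace Pool.Agent.COR

open Pool.Agent.LO

private theorem S02_clog {d : ℕ} (hd : 2 ≤ d) : ∃ s : ℕ, d ≤ 2 ^ s ∧ 2 ^ s < 2 * d := by
  refine ⟨Nat.clog 2 d, Nat.le_pow_clog (by norm_num) d, ?_⟩
  have h := Nat.pow_pred_clog_lt_self (b := 2) (by norm_num) (x := d) (by omega)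
  have h1 : 0 < Nat.clog 2 d := Nat.clog_pos (by norm_num) hd
  have h2 : 2 ^ Nat.clog 2 d = 2 * 2 ^ (Nat.clog 2 d).pred := by
    conv_lhs => rw [← Nat.succ_pred_eq_of_pos h1]
    rw [pow_succ]
    ring
  rw [h2]
  omega

private theorem S02_mean {d k q s : ℕ} (hd : 1 ≤ d) (A : Finset (Site d k → Fin q)) (B : ℝ)
    (T : (Site d k → Fin q) → Fin d → ZMod (2 ^ s) → Finset (Site d k) → ℝ)
    (hT : ∀ i a R, ∑ f ∈ A, Real.exp (-(T f i a R)) ≤ 1)
    (hB : ∀ f ∈ A, (∑ i : Fin d, ∑ a : ZMod (2 ^ s), ER (fun R => T f i a R)) / (d * 2 ^ s) ≤ B) :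
    (A.card : ℝ) ≤ Real.exp B := by
  have hd0 : (0 : ℝ) < d := by exact_mod_cast hd
  have hW : (0 : ℝ) < d * 2 ^ s := by positivity
  -- pointwise
  have h1 : ∀ i a R, ∑ f ∈ A, (1 + B + (-1) * T f i a R) ≤ Real.exp B := by
    intro i a R
    have h2 : ∑ f ∈ A, (1 + B + (-1) * T f i a R) ≤
        ∑ f ∈ A, Real.exp B * Real.exp (-(T f i a R)) := by
      refine Finset.sum_le_sum fun f _ => ?_
      rw [← Real.exp_add]
      have := Real.add_one_le_exp (B + -(T f i a R))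
      linarith
    rw [← Finset.mul_sum] at h2
    calc _ ≤ _ := h2
      _ ≤ Real.exp B * 1 := mul_le_mul_of_nonneg_left (hT i a R) (Real.exp_pos _).le
      _ = Real.exp B := mul_one _
  -- expectation over `R`
  have h2 : ∀ i a, ∑ f ∈ A, (1 + B + (-1) * ER (fun R => T f i a R)) ≤ Real.exp B := by
    intro i a
    have h3 := ER_mono (d := d) (k := k) (fun R => h1 i a R)
    rw [ER_const, ER_sum] at h3
    calc ∑ f ∈ A, (1 + B + (-1) * ER (fun R => T f i a R))
        = ∑ f ∈ A, ER (fun R => 1 + B + (-1) * T f i a R) := by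
          refine Finset.sum_congr rfl fun f _ => ?_
          rw [ER_add, ER_const, ER_mul]
      _ ≤ _ := h3
  -- sum over `i`, `a`
  have h3 : ∑ i : Fin d, ∑ a : ZMod (2 ^ s), ∑ f ∈ A, (1 + B + (-1) * ER (fun R => T f i a R)) ≤
      d * 2 ^ s * Real.exp B := by
    calc _ ≤ ∑ i : Fin d, ∑ a : ZMod (2 ^ s), Real.exp B :=
          Finset.sum_le_sum fun i _ => Finset.sum_le_sum fun a _ => h2 i a
      _ = d * 2 ^ s * Real.exp B := by
          rw [Finset.sum_const, Finset.sum_const, Finset.card_univ, Finset.card_univ, ZMod.card,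
            Fintype.card_fin, nsmul_eq_mul, nsmul_eq_mul]
          push_cast
          ring
  have h4 : ∑ i : Fin d, ∑ a : ZMod (2 ^ s), ∑ f ∈ A, (1 + B + (-1) * ER (fun R => T f i a R)) =
      ∑ f ∈ A, (d * 2 ^ s * (1 + B) -
        ∑ i : Fin d, ∑ a : ZMod (2 ^ s), ER (fun R => T f i a R)) := by
    have h5 : ∀ i : Fin d, ∑ a : ZMod (2 ^ s), ∑ f ∈ A, (1 + B + (-1) * ER (fun R => T f i a R)) =
        ∑ f ∈ A, ∑ a : ZMod (2 ^ s), (1 + B + (-1) * ER (fun R => T f i a R)) :=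
      fun i => Finset.sum_comm
    rw [Finset.sum_congr rfl fun i _ => h5 i, Finset.sum_comm]
    refine Finset.sum_congr rfl fun f _ => ?_
    have h6 : ∀ i : Fin d, ∑ a : ZMod (2 ^ s), (1 + B + (-1) * ER (fun R => T f i a R)) =
        2 ^ s * (1 + B) - ∑ a : ZMod (2 ^ s), ER (fun R => T f i a R) := by
      intro i
      rw [Finset.sum_add_distrib, ← Finset.mul_sum, Finset.sum_const, Finset.card_univ, ZMod.card,
        nsmul_eq_mul]
      push_cast
      ring
    rw [Finset.sum_congr rfl fun i _ => h6 i, Finset.sum_sub_distrib, Finset.sum_const,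
      Finset.card_univ, Fintype.card_fin, nsmul_eq_mul]
    ring
  have h5 : ∑ f ∈ A, (d * 2 ^ s : ℝ) ≤ ∑ f ∈ A, (d * 2 ^ s * (1 + B) -
        ∑ i : Fin d, ∑ a : ZMod (2 ^ s), ER (fun R => T f i a R)) := by
    refine Finset.sum_le_sum fun f hf => ?_
    have := hB f hf
    rw [div_le_iff₀ hW] at this
    linarith
  rw [Finset.sum_const, nsmul_eq_mul] at h5
  rw [h4] at h3
  have h6 := h5.trans h3
  rw [mul_comm (A.card : ℝ)] at h6
  exact le_of_mul_le_mul_left h6 hW

/-- Jensen, `kraft` and `star45` -/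
private theorem S02_card : ∃ d₀ : ℕ, 100 ≤ d₀ ∧ ∀ d : ℕ, d₀ ≤ d → ∀ q : ℕ, Adm6 d q → ∀ k : ℕ,
    d ^ 46 ≤ 2 ^ k →
    ∀ (A : Finset (Site d k → Fin q)), (∀ f ∈ A, Prp f) → ∀ l : ℝ, (∀ f ∈ A, l ≤ Loss f) →
    (A.card : ℝ) ≤ Real.exp (NN d k / 2 * Real.log ((q1 q : ℝ) * q2 q) - l +
      3 * NN d k / (d : ℝ) ^ 45) := by
  classical
  obtain ⟨d₀, h0⟩ := star45
  refine ⟨max d₀ 100, le_max_right _ _, ?_⟩
  intro d hd q hA k hk A hAf l hl
  have hd1 : d₀ ≤ d := (le_max_left _ _).trans hd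
  have hd2 : 100 ≤ d := (le_max_right _ _).trans hd
  obtain ⟨s, hs1, hs2⟩ := S02_clog (by omega : 2 ≤ d)
  have h2d : 2 * d ≤ 2 ^ k := by
    refine le_trans ?_ hk
    calc 2 * d ≤ d ^ 45 * d := by
          apply Nat.mul_le_mul_right
          calc 2 ≤ d ^ 1 := by
                rw [pow_one]
                omega
            _ ≤ d ^ 45 := Nat.pow_le_pow_right (by omega) (by norm_num)
      _ = d ^ 46 := by ring
  have hk2 : 2 ≤ k := by
    by_contra hcon
    have h1 : 2 ^ k ≤ 2 ^ 1 := Nat.pow_le_pow_right (by norm_num) (by omega)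
    omega
  have hsk : s ≤ k := by
    by_contra hcon
    have h1 : 2 ^ k ≤ 2 ^ s := Nat.pow_le_pow_right (by norm_num) (by omega)
    omega
  have hdR : (100 : ℝ) ≤ d := by exact_mod_cast hd2
  have he : (0 : ℝ) < 1 / (d : ℝ) ^ 45 := by positivity
  have he1 : 1 / (d : ℝ) ^ 45 < 1 := by
    rw [div_lt_one (by positivity)]
    exact one_lt_pow₀ (by linarith) (by norm_num)
  refine S02_mean (s := s) (by omega) A _ (fun f i a R => TT (1 / (d : ℝ) ^ 45) s f i a R) ?_ ?_
  · intro i a R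
    refine le_trans ?_ (kraft (q := q) (by omega : 2 ≤ d) hk2 hsk hs1 hs2 he he1 i a R)
    refine Finset.sum_le_sum_of_subset_of_nonneg ?_ fun f _ _ => (Real.exp_pos _).le
    intro f hf
    unfold prps
    exact Finset.mem_filter.2 ⟨mem_univ f, hAf f hf⟩
  · intro f hf
    have h1 := h0 d hd1 q hA k s hs1 hs2 hk f (hAf f hf)
    have h2 := hl f hf
    refine h1.trans ?_
    linarith

theorem pbd45 : ∃ d₀ : ℕ, ∀ d : ℕ, d₀ ≤ d → ∀ q : ℕ, Adm6 d q → Even q → ∀ k : ℕ, d ^ 46 ≤ 2 ^ k →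
    ∀ (A : Finset (Site d k → Fin q)), (∀ f ∈ A, Prp f) → ∀ l : ℝ, (∀ f ∈ A, l ≤ Loss f) →
    (A.card : ℝ) ≤ Real.exp (NN d k * Real.log ((q : ℝ) / 2) - l + 3 * NN d k / (d : ℝ) ^ 45) := by
  obtain ⟨d₀, _, h0⟩ := S02_card
  refine ⟨d₀, ?_⟩
  intro d hd q hA hq k hk A hAf l hl
  have h1 := h0 d hd q hA k hk A hAf l hl
  refine h1.trans (le_of_eq ?_)
  obtain ⟨r, rfl⟩ := hq
  have e1 : q1 (r + r) = r := by
    unfold q1
    omega
  have e2 : q2 (r + r) = r := by
    unfold q2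
    omega
  have hr : 0 < r := by
    have := hA.1
    omega
  have hr0 : (r : ℝ) ≠ 0 := by exact_mod_cast hr.ne'
  have e3 : ((r + r : ℕ) : ℝ) / 2 = r := by
    push_cast
    ring
  rw [e1, e2, e3, Real.log_mul hr0 hr0]
  congr 1
  ring

end Pool.Agent.COR

end

/-! ### from `Lib_MP_2c424f_cor.B04` -/

section

/-!
# The constant families of types, without the faces (piece B04, (B3))

`free`: all functions, `q^N`, `N = 2^d · #blocks` (`card_site`).  For `pr` and the bad types: `∀ t, prB t f` implies `Prp f`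
(every site and every step belong to a closed block: `x = pt t a b` with `sum_pt`-type bijection `BSum`, choose the bit `b j`
so that the step `(j,β)` is allowed: if `x j` is odd both steps in direction `j` are allowed, if it is even take `b j = !β`).
`pbd45` with `l = 0` for `pr`;  `bd c`: `Loss ≥ (II + QQ)/(6q)` (`IQ_le_Loss`) and `lemB`:
`Loss ≥ dl q N/(96 q d) = N/(9600 q² d) ≥ N/d³` ;  `bt c`: `lemBT` with `θ = th d`: `Loss ≥ θ N/(96 q d) ≥ N/d^15`
(`q ≤ d/10^4`) ;  `ub`: `unb_loss`: `Loss ≥ N/(68 d q) ≥ N/d³`.  `exp (N log (q/2) - l + 3N/d^45) ≤ (Nn s)^#blocks`.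
-/

set_option autoImplicit false

open Finset

namespace Pool.Agent.COR

open Pool.Agent.LO

/-- the bases of the types -/
noncomputable def Nn {d q : ℕ} : Ty d q → ℝ
  | .free => (q : ℝ) ^ (2 ^ d)
  | .fc _ _ => Real.exp ((2 : ℝ) ^ d * ((Real.log ((q : ℝ) / 2) + 3 / ((d : ℝ) - 1) ^ 45) / 4 + 3 / 4 * Real.log q))
  | s => Real.exp ((2 : ℝ) ^ d * (Real.log ((q : ℝ) / 2) + 3 / (d : ℝ) ^ 45)) * rT s

/-- `s` is not a face type -/
def Ty.nf {d q : ℕ} : Ty d q → Prop
  | .fc _ _ => False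
  | _ => True

/-- every site is `pt t a b` for every `b` -/
private theorem B04_pt {d k : ℕ} (x : Site d (k + 1)) (b : Bt d) :
    ∃ (t : Blk d k) (a : Bt d), pt t a b = x := by
  classical
  by_contra hno
  push Not at hno
  have h := sum_pt (d := d) (k := k) (fun y b' => if y = x ∧ b' = b then (1 : ℝ) else 0)
  have h1 : ∑ t : Blk d k, ∑ a : Bt d, ∑ b' : Bt d,
      (if pt t a b' = x ∧ b' = b then (1 : ℝ) else 0) = 0 := by
    refine Finset.sum_eq_zero fun t _ => Finset.sum_eq_zero fun a _ => Finset.sum_eq_zero fun b' _ => ?_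
    rw [if_neg]
    rintro ⟨h2, rfl⟩
    exact hno t a h2
  have h2 : (1 : ℝ) ≤ ∑ y : Site d (k + 1), ∑ b' : Bt d, (if y = x ∧ b' = b then (1 : ℝ) else 0) := by
    have h3 : (1 : ℝ) ≤ ∑ b' : Bt d, (if x = x ∧ b' = b then (1 : ℝ) else 0) := by
      have h4 := Finset.single_le_sum (s := (univ : Finset (Bt d)))
        (f := fun b' => if x = x ∧ b' = b then (1 : ℝ) else 0)
        (fun b' _ => by split_ifs <;> norm_num) (mem_univ b)
      rw [if_pos ⟨rfl, rfl⟩] at h4
      exact h4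
    refine h3.trans ?_
    exact Finset.single_le_sum (s := (univ : Finset (Site d (k + 1))))
      (f := fun y => ∑ b' : Bt d, (if y = x ∧ b' = b then (1 : ℝ) else 0))
      (fun y _ => Finset.sum_nonneg fun b' _ => by split_ifs <;> norm_num) (mem_univ x)
  have h3 : (0 : ℝ) = ∑ y : Site d (k + 1), ∑ b' : Bt d, (if y = x ∧ b' = b then (1 : ℝ) else 0) :=
    h1.symm.trans h
  linarith

theorem prB_all {d k q : ℕ} {f : Site d (k + 1) → Fin q} (h : ∀ t : Blk d k, prB t f) : Prp f := by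
  rintro x ⟨j, β⟩
  obtain ⟨t, a, hx⟩ := B04_pt x (fun _ => !β)
  have h1 := h t a (fun _ => !β) (j, β) (by
    unfold alw
    cases β <;> simp)
  rw [hx] at h1
  exact h1

private theorem B04_Loss_nonneg {d k q : ℕ} (hq : 2 ≤ q) {f : Site d k → Fin q} (hf : Prp f) :
    0 ≤ Loss f := by
  have h1 := IQ_le_Loss hq hf
  have h2 : 0 ≤ ∑ c, (II f c + QQ f c) :=
    sum_nonneg fun c _ => add_nonneg (II_nonneg' f c) (QQ_nonneg' f c)
  have hq0 : (0 : ℝ) < 6 * q := by
    have : (0 : ℝ) < q := by exact_mod_cast (show 0 < q by omega)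
    linarith
  by_contra hneg
  push Not at hneg
  have := mul_neg_of_pos_of_neg hq0 hneg
  linarith

private theorem B04_NN (d k : ℕ) : NN d (k + 1) = (Fintype.card (Blk d k) : ℝ) * 2 ^ d := by
  have h : (Fintype.card (Blk d k) : ℝ) = NN d k := card_site d k
  rw [h]
  unfold NN
  rw [pow_succ, mul_pow]

private theorem B04_NN_pos (d k : ℕ) : 0 < NN d k := by
  unfold NN
  positivity

/-- the numbers -/
private theorem B04_exp (d k : ℕ) (Lg E ρ : ℝ) :
    (Real.exp ((2 : ℝ) ^ d * (Lg + 3 / E)) * Real.exp (-((2 : ℝ) ^ d * ρ))) ^ (Fintype.card (Blk d k)) =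
      Real.exp (NN d (k + 1) * Lg - NN d (k + 1) * ρ + 3 * NN d (k + 1) / E) := by
  rw [← Real.exp_add, ← Real.exp_nat_mul, B04_NN]
  congr 1
  ring

/-- the general bound -/
private theorem B04_gen {d k q : ℕ} (E : Blk d k → (Site d (k + 1) → Fin q) → Prop) (ρ : ℝ)
    (hP : ∀ f : Site d (k + 1) → Fin q, (∀ t, E t f) → Prp f)
    (hL : ∀ f : Site d (k + 1) → Fin q, (∀ t, E t f) → NN d (k + 1) * ρ ≤ Loss f)
    (hb : ∀ (A : Finset (Site d (k + 1) → Fin q)), (∀ f ∈ A, Prp f) → ∀ l : ℝ,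
      (∀ f ∈ A, l ≤ Loss f) → (A.card : ℝ) ≤ Real.exp (NN d (k + 1) * Real.log ((q : ℝ) / 2) - l +
        3 * NN d (k + 1) / (d : ℝ) ^ 45)) :
    cT (fun (_ : Unit) t f => E t f) (fun _ : Blk d k => ()) ≤
      (Real.exp ((2 : ℝ) ^ d * (Real.log ((q : ℝ) / 2) + 3 / (d : ℝ) ^ 45)) *
        Real.exp (-((2 : ℝ) ^ d * ρ))) ^ (Fintype.card (Blk d k)) := by
  classical
  rw [B04_exp]
  unfold cT
  refine hb _ ?_ _ ?_
  · intro f hf
    exact hP f (Finset.mem_filter.1 hf).2
  · intro f hf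
    exact hL f (Finset.mem_filter.1 hf).2

private theorem B04_cT {d k q : ℕ} (s : Ty d q) :
    cT Ev (fun _ : Blk d k => s) = cT (fun (_ : Unit) (t : Blk d k) f => Ev s t f)
      (fun _ : Blk d k => ()) := rfl

private theorem B04_loss {d k q : ℕ} (hq : 2 ≤ q) {θ : ℝ} {f : Site d (k + 1) → Fin q} (hf : Prp f)
    (c : Fin q) (hd : 1 ≤ d) (h : θ * NN d (k + 1) / (16 * d) ≤ II f c + QQ f c) :
    NN d (k + 1) * (θ / (96 * q * d)) ≤ Loss f := by
  have h1 := IQ_le_Loss hq hf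
  have h2 : II f c + QQ f c ≤ ∑ c, (II f c + QQ f c) :=
    Finset.single_le_sum (f := fun c => II f c + QQ f c)
      (fun c _ => add_nonneg (II_nonneg' f c) (QQ_nonneg' f c)) (mem_univ c)
  have hq0 : (0 : ℝ) < q := by exact_mod_cast (show 0 < q by omega)
  have hd0 : (0 : ℝ) < d := by exact_mod_cast hd
  have h3 : θ * NN d (k + 1) / (16 * d) ≤ 6 * q * Loss f := h.trans (h2.trans h1)
  rw [div_le_iff₀ (by positivity)] at h3
  have e : NN d (k + 1) * (θ / (96 * q * d)) = θ * NN d (k + 1) / (96 * q * d) := by ring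
  rw [e, div_le_iff₀ (by positivity)]
  linarith

private theorem B04_a1 {d q : ℝ} (hq : 4 ≤ q) (hqd : q * 10000 ≤ d) :
    1 / d ^ 3 ≤ 1 / (100 * q) / (96 * q * d) := by
  have hd : 0 < d := by linarith
  have hq0 : 0 < q := by linarith
  rw [div_div, div_le_div_iff₀ (by positivity) (by positivity)]
  have h1 : (q * 10000) * (q * 10000) ≤ d * d := mul_le_mul hqd hqd (by positivity) hd.le
  have h2 : 9600 * (q * q) ≤ d * d := by nlinarith [mul_pos hq0 hq0]
  have h3 : 9600 * (q * q) * d ≤ d * d * d := mul_le_mul_of_nonneg_right h2 hd.le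
  calc 1 * (100 * q * (96 * q * d)) = 9600 * (q * q) * d := by ring
    _ ≤ d * d * d := h3
    _ = 1 * d ^ 3 := by ring

private theorem B04_a2 {d q : ℝ} (hq : 4 ≤ q) (hqd : q * 10000 ≤ d) :
    1 / d ^ 15 ≤ 1 / d ^ 12 / (96 * q * d) := by
  have hd : 0 < d := by linarith
  have hq0 : 0 < q := by linarith
  rw [div_div, div_le_div_iff₀ (by positivity) (by positivity)]
  have h1 : 96 * q ≤ d * d := by nlinarith
  have h3 : 96 * q * d ^ 13 ≤ d * d * d ^ 13 := mul_le_mul_of_nonneg_right h1 (by positivity)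
  calc 1 * (d ^ 12 * (96 * q * d)) = 96 * q * d ^ 13 := by ring
    _ ≤ d * d * d ^ 13 := h3
    _ = 1 * d ^ 15 := by ring

private theorem B04_a3 {d q : ℝ} (hq : 4 ≤ q) (hqd : q * 10000 ≤ d) :
    1 / d ^ 3 ≤ 1 / (68 * d * q) := by
  have hd : 0 < d := by linarith
  have hq0 : 0 < q := by linarith
  rw [div_le_div_iff₀ (by positivity) (by positivity)]
  have h1 : 68 * q ≤ d * d := by nlinarith
  have h3 : 68 * q * d ≤ d * d * d := mul_le_mul_of_nonneg_right h1 hd.le
  calc 1 * (68 * d * q) = 68 * q * d := by ring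
    _ ≤ d * d * d := h3
    _ = 1 * d ^ 3 := by ring

/-- the free type -/
private theorem B04_free (d k q : ℕ) :
    cT Ev (fun _ : Blk d k => (Ty.free : Ty d q)) ≤ Nn (Ty.free : Ty d q) ^ (Fintype.card (Blk d k)) := by
  classical
  have h1 : cT Ev (fun _ : Blk d k => (Ty.free : Ty d q)) ≤
      ((Fintype.card (Site d (k + 1) → Fin q) : ℕ) : ℝ) := by
    unfold cT
    exact_mod_cast Finset.card_le_univ _
  refine h1.trans (le_of_eq ?_)
  show _ = ((q : ℝ) ^ (2 ^ d)) ^ (Fintype.card (Blk d k))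
  rw [Fintype.card_fun, Fintype.card_fin, ← pow_mul]
  push_cast
  congr 1
  have h2 : ((Fintype.card (Site d (k + 1)) : ℕ) : ℝ) = ((2 ^ d * Fintype.card (Blk d k) : ℕ) : ℝ) := by
    rw [card_site, B04_NN]
    push_cast
    ring
  exact_mod_cast h2

theorem const_nf : ∃ d₀ : ℕ, ∀ d : ℕ, d₀ ≤ d → ∀ q : ℕ, AdmC d q → ∀ k : ℕ, d ^ 46 ≤ 2 ^ k →
    ∀ s : Ty d q, s.nf → cT Ev (fun _ : Blk d k => s) ≤ Nn s ^ (Fintype.card (Blk d k)) := by
  obtain ⟨d₀, h0⟩ := pbd45
  refine ⟨max d₀ 100, ?_⟩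
  intro d hd q hA k hk s hs
  have hd1 : d₀ ≤ d := (le_max_left _ _).trans hd
  have hd2 : 100 ≤ d := (le_max_right _ _).trans hd
  obtain ⟨hq4, hqe, hqd⟩ := hA
  have hdR : (100 : ℝ) ≤ d := by exact_mod_cast hd2
  have hqR : (4 : ℝ) ≤ q := by exact_mod_cast hq4
  have hlog : 1 ≤ Real.log d := by
    have h1 : Real.exp 1 ≤ d := Real.exp_one_lt_d9.le.trans (by linarith)
    have h2 := Real.log_le_log (Real.exp_pos 1) h1
    rwa [Real.log_exp] at h2
  have hqd1 : (q : ℝ) * 10000 ≤ d := by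
    have h1 : (q : ℝ) * 10000 ≤ q * (10000 * Real.log d) :=
      mul_le_mul_of_nonneg_left (by linarith) (by linarith)
    exact h1.trans hqd
  have hAdm : Adm6 d q := by
    refine ⟨by omega, Or.inl hqe, ?_⟩
    have h1 : (q : ℝ) * (6000 * Real.log d) ≤ q * (10000 * Real.log d) :=
      mul_le_mul_of_nonneg_left (by linarith) (by linarith)
    exact h1.trans hqd
  have hk' : d ^ 46 ≤ 2 ^ (k + 1) := hk.trans (Nat.pow_le_pow_right (by norm_num) (Nat.le_succ k))
  have hb := h0 d hd1 q hAdm hqe (k + 1) hk'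
  have hq2 : 2 ≤ q := by omega
  have hd0 : 1 ≤ d := by omega
  have hNp := (B04_NN_pos d (k + 1)).le
  cases s with
  | free => exact B04_free d k q
  | pr =>
    rw [B04_cT]
    have h1 := B04_gen (d := d) (k := k) (q := q) (fun t f => Ev (Ty.pr : Ty d q) t f) 0
      (fun f hf => prB_all hf) (fun f hf => by
        rw [mul_zero]
        exact B04_Loss_nonneg hq2 (prB_all hf)) hb
    refine h1.trans (le_of_eq ?_)
    congr 1
    show _ = Real.exp ((2 : ℝ) ^ d * (Real.log ((q : ℝ) / 2) + 3 / (d : ℝ) ^ 45)) * 1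
    rw [mul_zero, neg_zero, Real.exp_zero]
  | bd c =>
    rw [B04_cT]
    have h1 := B04_gen (d := d) (k := k) (q := q) (fun t f => Ev (Ty.bd c : Ty d q) t f) (1 / (d : ℝ) ^ 3)
      (fun f hf => prB_all fun t => (hf t).1) (fun f hf => by
        have hP : Prp f := prB_all fun t => (hf t).1
        have h2 := B04_loss hq2 hP c hd0 (lemB hd0 (by omega) f c fun t => (hf t).2)
        refine le_trans (mul_le_mul_of_nonneg_left ?_ hNp) h2
        exact B04_a1 hqR hqd1) hb
    refine h1.trans (le_of_eq ?_)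
    congr 1
    show _ = Real.exp ((2 : ℝ) ^ d * (Real.log ((q : ℝ) / 2) + 3 / (d : ℝ) ^ 45)) * r1 d
    unfold r1
    congr 3
    ring
  | bt c =>
    rw [B04_cT]
    have hth0 : 0 < th d := by
      unfold th
      positivity
    have hth1 : th d ≤ 1 / 2 := by
      unfold th
      rw [div_le_div_iff₀ (by positivity) (by norm_num)]
      have h5 : (2 : ℝ) ≤ (d : ℝ) ^ 12 := by
        calc (2 : ℝ) ≤ (d : ℝ) ^ 1 := by
              rw [pow_one]
              linarith
          _ ≤ (d : ℝ) ^ 12 := pow_le_pow_right₀ (by linarith) (by norm_num)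
      linarith
    have h1 := B04_gen (d := d) (k := k) (q := q) (fun t f => Ev (Ty.bt c : Ty d q) t f) (1 / (d : ℝ) ^ 15)
      (fun f hf => prB_all fun t => (hf t).1) (fun f hf => by
        have hP : Prp f := prB_all fun t => (hf t).1
        have h2 := B04_loss hq2 hP c hd0 (lemBT hd0 (by omega) hth0 hth1 f c fun t => (hf t).2)
        refine le_trans (mul_le_mul_of_nonneg_left ?_ hNp) h2
        exact B04_a2 hqR hqd1) hb
    refine h1.trans (le_of_eq ?_)
    congr 1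
    show _ = Real.exp ((2 : ℝ) ^ d * (Real.log ((q : ℝ) / 2) + 3 / (d : ℝ) ^ 45)) * r2 d
    unfold r2
    congr 3
    ring
  | ub =>
    rw [B04_cT]
    have hqd2 : q ≤ d := by
      have : (q : ℝ) ≤ d := by linarith
      exact_mod_cast this
    have h1 := B04_gen (d := d) (k := k) (q := q) (fun t f => Ev (Ty.ub : Ty d q) t f) (1 / (d : ℝ) ^ 3)
      (fun f hf => prB_all fun t => (hf t).1) (fun f hf => by
        have hP : Prp f := prB_all fun t => (hf t).1
        have h2 := unb_loss hd0 hq2 hqe hqd2 hP fun t => (hf t).2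
        refine le_trans (mul_le_mul_of_nonneg_left (B04_a3 hqR hqd1) hNp) ?_
        rw [mul_one_div]
        exact h2) hb
    refine h1.trans (le_of_eq ?_)
    congr 1
    show _ = Real.exp ((2 : ℝ) ^ d * (Real.log ((q : ℝ) / 2) + 3 / (d : ℝ) ^ 45)) * r1 d
    unfold r1
    congr 3
    ring
  | fc j m => exact hs.elim

end Pool.Agent.COR

end

/-! ### from `Lib_MP_2c424f_cor.B07` -/

section

/-!
# The types of a box (piece B07, (B4))

`a`, `b` even corners of a box, `a i < b i`, `b i + 4 ≤ 2^(k+1)`.  `flo j` / `fup j` = the blocks which touch the box along its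
lower / upper face in direction `j`.  `asg`: the given types on `Γ`, `pr` on the other blocks of `gr a b`, face types with the
residue mod `4` of `a j` resp. `b j` on `flo j`, `fup j`, `free` elsewhere (these sets of blocks are disjoint, for all `j`).
`asg_event`: a closed block of `gr a b` is contained in the box; in a block of `flo j` the points whose `j`-coordinate has the
residue of `a j` mod `4` are those with `x j = a j` (the block has the `j`-coordinates `a j - 2, a j - 1, a j` mod `2^(k+1)`), they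
lie in the box, and a step in another direction inside the block stays there.
`asg_card`: `ℓ i = (b i - a i)/2`: `|gr| = ∏ ℓ i`, `|flo j| = |fup j| = ∏_{i ≠ j} ℓ i`.
-/

set_option autoImplicit false

open Finset

namespace Pool.Agent.COR

open Pool.Agent.LO

variable {d k q : ℕ}

open scoped Classical in
/-- blocks below the lower face in direction `j` -/
noncomputable def flo (a b : Fin d → ℕ) (j : Fin d) : Finset (Blk d k) :=
  univ.filter fun t => t j + 1 = ((a j / 2 : ℕ) : ZMod (2 ^ k)) ∧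
    ∀ i, i ≠ j → a i ≤ 2 * (t i).val ∧ 2 * (t i).val + 2 ≤ b i

open scoped Classical in
/-- blocks above the upper face in direction `j` -/
noncomputable def fup (a b : Fin d → ℕ) (j : Fin d) : Finset (Blk d k) :=
  univ.filter fun t => 2 * (t j).val = b j ∧
    ∀ i, i ≠ j → a i ≤ 2 * (t i).val ∧ 2 * (t i).val + 2 ≤ b i

open scoped Classical in
/-- the types of a box -/
noncomputable def asg (a b : Fin d → ℕ) (Γ : Finset (Blk d k)) (τ : Blk d k → Ty d q) : Blk d k → Ty d q :=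
  fun t => if t ∈ Γ then τ t else if t ∈ gr a b then Ty.pr
    else if h : ∃ j, t ∈ flo a b j then Ty.fc h.choose (decide (a h.choose % 4 = 2))
    else if h : ∃ j, t ∈ fup a b j then Ty.fc h.choose (decide (b h.choose % 4 = 2))
    else Ty.free

/-- the hypotheses on the corners of a box -/
def evb (k : ℕ) (a b : Fin d → ℕ) : Prop := ∀ i, Even (a i) ∧ Even (b i) ∧ a i < b i ∧ b i + 4 ≤ 2 ^ (k + 1)

private theorem B07_pt (t : Blk d k) (a b : Bt d) (j : Fin d) :
    pt t a b j = ((2 * (t j).val + (if a j then 1 else 0) + (if b j then 1 else 0) : ℕ) :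
      ZMod (2 ^ (k + 1))) := by
  simp only [pt, bas, bv, Pi.add_apply]
  push_cast
  rfl

private theorem B07_val (t : Blk d k) (a b : Bt d) (j : Fin d) :
    ∃ ε : ℕ, ε ≤ 2 ∧ (pt t a b j).val = (2 * (t j).val + ε) % 2 ^ (k + 1) := by
  refine ⟨(if a j then 1 else 0) + (if b j then 1 else 0), ?_, ?_⟩
  · split_ifs <;> omega
  · rw [B07_pt, ZMod.val_natCast, add_assoc]

private theorem B07_coord {a b : ℕ} (t : Blk d k) (a' b' : Bt d) (i : Fin d)
    (h : a ≤ 2 * (t i).val ∧ 2 * (t i).val + 2 ≤ b) (hb : b < 2 ^ (k + 1)) :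
    a ≤ (pt t a' b' i).val ∧ (pt t a' b' i).val ≤ b := by
  obtain ⟨ε, hε, h1⟩ := B07_val t a' b' i
  rw [h1, Nat.mod_eq_of_lt (by omega)]
  omega

private theorem B07_lo {a : ℕ} {z : ZMod (2 ^ k)} (ha : Even a) (hak : a + 6 ≤ 2 ^ (k + 1))
    (h : z + 1 = ((a / 2 : ℕ) : ZMod (2 ^ k))) :
    (2 * z.val + 2 = a) ∨ (a = 0 ∧ 2 * z.val + 2 = 2 ^ (k + 1)) := by
  have h1 : ((z.val + 1 : ℕ) : ZMod (2 ^ k)) = ((a / 2 : ℕ) : ZMod (2 ^ k)) := by
    rw [Nat.cast_add, Nat.cast_one, ZMod.natCast_zmod_val]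
    exact h
  rw [ZMod.natCast_eq_natCast_iff'] at h1
  have h2 := ZMod.val_lt z
  have h3 : 2 ^ (k + 1) = 2 * 2 ^ k := by ring
  obtain ⟨c, hc⟩ := ha
  have h4 : (a / 2) % 2 ^ k = a / 2 := Nat.mod_eq_of_lt (by omega)
  rw [h4] at h1
  rcases Nat.lt_or_ge (z.val + 1) (2 ^ k) with h5 | h5
  · rw [Nat.mod_eq_of_lt h5] at h1
    left
    omega
  · have h6 : z.val + 1 = 2 ^ k := by omega
    rw [h6, Nat.mod_self] at h1
    right
    omega

private theorem B07_lo_val {a : ℕ} (hk : 1 ≤ k) (t : Blk d k) (a' b' : Bt d) (j : Fin d)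
    (ha : Even a) (hak : a + 6 ≤ 2 ^ (k + 1)) (h : t j + 1 = ((a / 2 : ℕ) : ZMod (2 ^ k)))
    (hm : (pt t a' b' j).val % 4 = a % 4) : (pt t a' b' j).val = a := by
  obtain ⟨ε, hε, h1⟩ := B07_val t a' b' j
  obtain ⟨c, hc⟩ : 4 ∣ 2 ^ (k + 1) := by
    have : (2 : ℕ) ^ 2 ∣ 2 ^ (k + 1) := pow_dvd_pow 2 (by omega)
    simpa using this
  rcases B07_lo ha hak h with h2 | ⟨h2, h3⟩
  · rw [Nat.mod_eq_of_lt (by omega)] at h1
    omega
  · by_cases hε2 : ε = 2
    · rw [hε2, h3, Nat.mod_self] at h1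
      omega
    · rw [Nat.mod_eq_of_lt (by omega)] at h1
      omega

private theorem B07_up_val {b : ℕ} (t : Blk d k) (a' b' : Bt d) (j : Fin d)
    (hbk : b + 4 ≤ 2 ^ (k + 1)) (h : 2 * (t j).val = b)
    (hm : (pt t a' b' j).val % 4 = b % 4) : (pt t a' b' j).val = b := by
  obtain ⟨ε, hε, h1⟩ := B07_val t a' b' j
  rw [Nat.mod_eq_of_lt (by omega)] at h1
  omega

private theorem B07_fc {a b : Fin d → ℕ} (hab : evb k a b)
    (f : Site d (k + 1) → Fin q) (hf : PrV (bx a b) f) (t : Blk d k) (j : Fin d) (v : ℕ) (m : Bool)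
    (hv : a j ≤ v ∧ v ≤ b j)
    (hm : ∀ a' b', (pt t a' b' j).val % 4 = (if m then 2 else 0) → (pt t a' b' j).val = v)
    (h : ∀ i, i ≠ j → a i ≤ 2 * (t i).val ∧ 2 * (t i).val + 2 ≤ b i) : fcE j m t f := by
  intro a' b' σ hσ hj hmod
  have h1 := hm a' b' hmod
  obtain ⟨a'', b'', h2⟩ := pt_step t a' b' σ hσ
  have h3 : pt t a' b' ∈ bx a b := by
    unfold bx
    rw [mem_filter]
    refine ⟨mem_univ _, fun i => ?_⟩
    by_cases hi : i = j
    · subst hi
      rw [h1]
      exact hv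
    · exact B07_coord t a' b' i (h i hi) (by have := (hab i).2.2.2; omega)
  have h4 : pt t a' b' + sv σ ∈ bx a b := by
    unfold bx
    rw [mem_filter]
    refine ⟨mem_univ _, fun i => ?_⟩
    by_cases hi : i = j
    · subst hi
      have h5 : (pt t a' b' + sv σ : Site d (k + 1)) i = pt t a' b' i := by
        rw [Pi.add_apply, sv, Pi.single_eq_of_ne (Ne.symm hj), add_zero]
      rw [h5, h1]
      exact hv
    · rw [h2]
      exact B07_coord t a'' b'' i (h i hi) (by have := (hab i).2.2.2; omega)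
  exact hf _ h3 σ h4

private theorem B07_res {n : ℕ} (hn : Even n) : (if decide (n % 4 = 2) = true then 2 else 0) = n % 4 := by
  obtain ⟨c, hc⟩ := hn
  by_cases h : n % 4 = 2
  · simp [h]
  · simp only [h, decide_false, Bool.false_eq_true, if_false]
    omega

private theorem B07_card (K m n : ℕ) [NeZero K] (hmn : n ≤ K) :
    (univ.filter fun z : ZMod K => m ≤ z.val ∧ z.val < n).card = n - m := by
  rw [← Nat.card_Ico, ← Finset.card_image_of_injective _ (ZMod.val_injective K)]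
  congr 1
  ext x
  simp only [mem_image, mem_filter, mem_univ, true_and, mem_Ico]
  constructor
  · rintro ⟨z, hz, rfl⟩
    exact hz
  · intro hx
    exact ⟨(x : ZMod K), by rw [ZMod.val_natCast_of_lt (by omega)]; exact hx,
      ZMod.val_natCast_of_lt (by omega)⟩

theorem asg_event (hk : 1 ≤ k) {a b : Fin d → ℕ} (hab : evb k a b) (Γ : Finset (Blk d k)) (hΓ : Γ ⊆ gr a b)
    (τ : Blk d k → Ty d q) (f : Site d (k + 1) → Fin q) (hf : PrV (bx a b) f) (h : ∀ t ∈ Γ, Ev (τ t) t f) :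
    ∀ t, Ev (asg a b Γ τ t) t f := by
  classical
  intro t
  unfold asg
  by_cases h1 : t ∈ Γ
  · rw [if_pos h1]
    exact h t h1
  rw [if_neg h1]
  by_cases h2 : t ∈ gr a b
  · rw [if_pos h2]
    change prB t f
    have h3 : ∀ i, a i ≤ 2 * (t i).val ∧ 2 * (t i).val + 2 ≤ b i := by
      unfold gr at h2
      exact (mem_filter.1 h2).2
    have h4 : ∀ a' b', pt t a' b' ∈ bx a b := by
      intro a' b'
      unfold bx
      rw [mem_filter]
      refine ⟨mem_univ _, fun i => ?_⟩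
      exact B07_coord t a' b' i (h3 i) (by have := (hab i).2.2.2; omega)
    intro a' b' σ hσ
    obtain ⟨a'', b'', h5⟩ := pt_step t a' b' σ hσ
    refine hf _ (h4 a' b') σ ?_
    rw [h5]
    exact h4 _ _
  rw [if_neg h2]
  by_cases h3 : ∃ j, t ∈ flo a b j
  · rw [dif_pos h3]
    have h4 := h3.choose_spec
    generalize h3.choose = j at h4
    change fcE j (decide (a j % 4 = 2)) t f
    unfold flo at h4
    have h5 := (mem_filter.1 h4).2
    obtain ⟨e1, e2, e3, e4⟩ := hab j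
    refine B07_fc hab f hf t j (a j) _ ⟨le_rfl, e3.le⟩ ?_ h5.2
    intro a' b' hm
    rw [B07_res e1] at hm
    refine B07_lo_val hk t a' b' j e1 ?_ h5.1 hm
    obtain ⟨c, hc⟩ := e1
    obtain ⟨c', hc'⟩ := e2
    omega
  rw [dif_neg h3]
  by_cases h4 : ∃ j, t ∈ fup a b j
  · rw [dif_pos h4]
    have h6 := h4.choose_spec
    generalize h4.choose = j at h6
    change fcE j (decide (b j % 4 = 2)) t f
    unfold fup at h6
    have h5 := (mem_filter.1 h6).2
    obtain ⟨e1, e2, e3, e4⟩ := hab j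
    refine B07_fc hab f hf t j (b j) _ ⟨e3.le, le_rfl⟩ ?_ h5.2
    intro a' b' hm
    rw [B07_res e2] at hm
    exact B07_up_val t a' b' j e4 h5.1 hm
  rw [dif_neg h4]
  trivial

theorem card_gr {a b : Fin d → ℕ} (hab : evb k a b) :
    (gr a b : Finset (Blk d k)).card = ∏ i, ((b i - a i) / 2) := by
  classical
  have h : (gr a b : Finset (Blk d k)) = Fintype.piFinset fun i =>
      univ.filter fun z : ZMod (2 ^ k) => a i / 2 ≤ z.val ∧ z.val < b i / 2 := by
    ext t
    unfold gr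
    rw [mem_filter, Fintype.mem_piFinset]
    simp only [mem_univ, true_and, mem_filter]
    refine forall_congr' fun i => ?_
    obtain ⟨⟨c, hc⟩, ⟨c', hc'⟩, e3, e4⟩ := hab i
    constructor
    · intro h
      omega
    · intro h
      omega
  rw [h, Fintype.card_piFinset]
  refine prod_congr rfl fun i _ => ?_
  obtain ⟨⟨c, hc⟩, ⟨c', hc'⟩, e3, e4⟩ := hab i
  have h3 : 2 ^ (k + 1) = 2 * 2 ^ k := by ring
  rw [B07_card (2 ^ k) _ _ (by omega)]
  omega

theorem card_bx {a b : Fin d → ℕ} (hab : ∀ i, a i ≤ b i ∧ b i < 2 ^ (k + 1)) :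
    (bx a b : Finset (Site d (k + 1))).card = ∏ i, (b i - a i + 1) := by
  classical
  have h : (bx a b : Finset (Site d (k + 1))) = Fintype.piFinset fun i =>
      univ.filter fun z : ZMod (2 ^ (k + 1)) => a i ≤ z.val ∧ z.val < b i + 1 := by
    ext t
    unfold bx
    rw [mem_filter, Fintype.mem_piFinset]
    simp only [mem_univ, true_and, mem_filter]
    refine forall_congr' fun i => ?_
    constructor
    · intro h
      omega
    · intro h
      omega
  rw [h, Fintype.card_piFinset]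
  refine prod_congr rfl fun i _ => ?_
  obtain ⟨h1, h2⟩ := hab i
  rw [B07_card (2 ^ (k + 1)) _ _ (by omega)]
  omega

private theorem B07_not_lo {a b : Fin d → ℕ} (hab : evb k a b) {t : Blk d k} {j : Fin d}
    (h1 : t j + 1 = ((a j / 2 : ℕ) : ZMod (2 ^ k)))
    (h2 : a j ≤ 2 * (t j).val ∧ 2 * (t j).val + 2 ≤ b j) : False := by
  obtain ⟨e1, e2, e3, e4⟩ := hab j
  have e5 : a j + 6 ≤ 2 ^ (k + 1) := by
    obtain ⟨c, hc⟩ := e1
    obtain ⟨c', hc'⟩ := e2
    omega
  rcases B07_lo e1 e5 h1 with h3 | ⟨h3, h4⟩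
  · omega
  · omega

private theorem B07_not_lo_up {a b : Fin d → ℕ} (hab : evb k a b) {t : Blk d k} {j : Fin d}
    (h1 : t j + 1 = ((a j / 2 : ℕ) : ZMod (2 ^ k)))
    (h2 : 2 * (t j).val = b j) : False := by
  obtain ⟨e1, e2, e3, e4⟩ := hab j
  have e5 : a j + 6 ≤ 2 ^ (k + 1) := by
    obtain ⟨c, hc⟩ := e1
    obtain ⟨c', hc'⟩ := e2
    omega
  rcases B07_lo e1 e5 h1 with h3 | ⟨h3, h4⟩
  · omega
  · omega

private theorem B07_mem_gr {a b : Fin d → ℕ} {t : Blk d k} : t ∈ gr a b ↔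
    ∀ i, a i ≤ 2 * (t i).val ∧ 2 * (t i).val + 2 ≤ b i := by
  unfold gr
  rw [mem_filter]
  simp only [mem_univ, true_and]

private theorem B07_mem_flo {a b : Fin d → ℕ} {j : Fin d} {t : Blk d k} : t ∈ flo a b j ↔
    (t j + 1 = ((a j / 2 : ℕ) : ZMod (2 ^ k)) ∧
    ∀ i, i ≠ j → a i ≤ 2 * (t i).val ∧ 2 * (t i).val + 2 ≤ b i) := by
  unfold flo
  rw [mem_filter]
  simp only [mem_univ, true_and]

private theorem B07_mem_fup {a b : Fin d → ℕ} {j : Fin d} {t : Blk d k} : t ∈ fup a b j ↔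
    (2 * (t j).val = b j ∧
    ∀ i, i ≠ j → a i ≤ 2 * (t i).val ∧ 2 * (t i).val + 2 ≤ b i) := by
  unfold fup
  rw [mem_filter]
  simp only [mem_univ, true_and]

private theorem B07_card_in {a b : Fin d → ℕ} (hab : evb k a b) (i : Fin d) :
    (univ.filter fun z : ZMod (2 ^ k) => a i / 2 ≤ z.val ∧ z.val < b i / 2).card =
      (b i - a i) / 2 := by
  obtain ⟨⟨c, hc⟩, ⟨c', hc'⟩, e3, e4⟩ := hab i
  have h3 : 2 ^ (k + 1) = 2 * 2 ^ k := by ring
  rw [B07_card (2 ^ k) _ _ (by omega)]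
  omega

private theorem B07_card_face {a b : Fin d → ℕ} (hab : evb k a b) (j : Fin d) (z0 : ZMod (2 ^ k))
    (S : Finset (Blk d k)) (hS : ∀ t, t ∈ S ↔ (t j = z0 ∧
    ∀ i, i ≠ j → a i ≤ 2 * (t i).val ∧ 2 * (t i).val + 2 ≤ b i)) :
    S.card = ∏ i ∈ univ.erase j, ((b i - a i) / 2) := by
  classical
  have h : S = Fintype.piFinset fun i => if i = j then {z0} else
      univ.filter fun z : ZMod (2 ^ k) => a i / 2 ≤ z.val ∧ z.val < b i / 2 := by
    ext t
    rw [hS, Fintype.mem_piFinset]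
    constructor
    · rintro ⟨h1, h2⟩ i
      by_cases hi : i = j
      · rw [if_pos hi, mem_singleton, hi, h1]
      · rw [if_neg hi, mem_filter]
        refine ⟨mem_univ _, ?_⟩
        have h3 := h2 i hi
        obtain ⟨⟨c, hc⟩, ⟨c', hc'⟩, e3, e4⟩ := hab i
        omega
    · intro h1
      refine ⟨?_, fun i hi => ?_⟩
      · have h2 := h1 j
        rw [if_pos rfl, mem_singleton] at h2
        exact h2
      · have h2 := h1 i
        rw [if_neg hi, mem_filter] at h2
        have h3 := h2.2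
        obtain ⟨⟨c, hc⟩, ⟨c', hc'⟩, e3, e4⟩ := hab i
        omega
  rw [h, Fintype.card_piFinset, ← Finset.mul_prod_erase univ _ (mem_univ j)]
  rw [if_pos rfl, card_singleton, one_mul]
  refine prod_congr rfl fun i hi => ?_
  rw [if_neg (Finset.ne_of_mem_erase hi)]
  exact B07_card_in hab i

private theorem B07_card_flo {a b : Fin d → ℕ} (hab : evb k a b) (j : Fin d) :
    (flo a b j : Finset (Blk d k)).card = ∏ i ∈ univ.erase j, ((b i - a i) / 2) := by
  refine B07_card_face hab j (((a j / 2 : ℕ) : ZMod (2 ^ k)) - 1) _ fun t => ?_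
  rw [B07_mem_flo, eq_sub_iff_add_eq]

private theorem B07_card_fup {a b : Fin d → ℕ} (hab : evb k a b) (j : Fin d) :
    (fup a b j : Finset (Blk d k)).card = ∏ i ∈ univ.erase j, ((b i - a i) / 2) := by
  refine B07_card_face hab j ((b j / 2 : ℕ) : ZMod (2 ^ k)) _ fun t => ?_
  rw [B07_mem_fup]
  have h : 2 * (t j).val = b j ↔ t j = ((b j / 2 : ℕ) : ZMod (2 ^ k)) := by
    obtain ⟨e1, ⟨c', hc'⟩, e3, e4⟩ := hab j
    have h3 : 2 ^ (k + 1) = 2 * 2 ^ k := by ring
    constructor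
    · intro h
      rw [← h, Nat.mul_div_cancel_left _ (by norm_num), ZMod.natCast_zmod_val]
    · intro h
      rw [h, ZMod.val_natCast_of_lt (by omega)]
      omega
  rw [h]

open scoped Classical in
private noncomputable def B07_FF (k : ℕ) (a b : Fin d → ℕ) : Finset (Blk d k) :=
  (univ.biUnion fun j => flo a b j) ∪ univ.biUnion fun j => fup a b j

private theorem B07_card_FF {a b : Fin d → ℕ} (hab : evb k a b) :
    (B07_FF k a b).card = ∑ j : Fin d, 2 * ∏ i ∈ univ.erase j, ((b i - a i) / 2) := by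
  classical
  unfold B07_FF
  rw [card_union_of_disjoint, card_biUnion, card_biUnion, ← sum_add_distrib]
  · refine sum_congr rfl fun j _ => ?_
    rw [B07_card_flo hab, B07_card_fup hab]
    ring
  · intro i _ j _ hij
    change Disjoint (fup a b i) (fup a b j)
    rw [disjoint_left]
    intro t h1 h2
    rw [B07_mem_fup] at h1 h2
    have h3 := h1.2 j (Ne.symm hij)
    have h4 := h2.1
    omega
  · intro i _ j _ hij
    change Disjoint (flo a b i) (flo a b j)
    rw [disjoint_left]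
    intro t h1 h2
    rw [B07_mem_flo] at h1 h2
    exact B07_not_lo hab h2.1 (h1.2 j (Ne.symm hij))
  · rw [disjoint_left]
    intro t h1 h2
    rw [mem_biUnion] at h1 h2
    obtain ⟨i, _, h1⟩ := h1
    obtain ⟨j, _, h2⟩ := h2
    rw [B07_mem_flo] at h1
    rw [B07_mem_fup] at h2
    by_cases hij : i = j
    · subst hij
      exact B07_not_lo_up hab h1.1 h2.1
    · exact B07_not_lo hab h1.1 (h2.2 i hij)

private theorem B07_disj {a b : Fin d → ℕ} (hab : evb k a b) :
    Disjoint (gr a b : Finset (Blk d k)) (B07_FF k a b) := by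
  classical
  unfold B07_FF
  rw [disjoint_left]
  intro t h1 h2
  rw [B07_mem_gr] at h1
  rw [mem_union, mem_biUnion, mem_biUnion] at h2
  rcases h2 with ⟨j, _, h2⟩ | ⟨j, _, h2⟩
  · rw [B07_mem_flo] at h2
    exact B07_not_lo hab h2.1 (h1 j)
  · rw [B07_mem_fup] at h2
    have h3 := h1 j
    have h4 := h2.1
    omega

/-- the product of the bases -/
theorem asg_prod {a b : Fin d → ℕ} (hab : evb k a b) (Γ : Finset (Blk d k)) (hΓ : Γ ⊆ gr a b)
    (τ : Blk d k → Ty d q) :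
    ∏ t, Nn (asg a b Γ τ t) = (∏ t ∈ Γ, Nn (τ t)) * Nn (Ty.pr : Ty d q) ^ (∏ i, ((b i - a i) / 2) - Γ.card) *
      (∏ j : Fin d, Nn (Ty.fc j true : Ty d q) ^ (2 * ∏ i ∈ univ.erase j, ((b i - a i) / 2))) *
      Nn (Ty.free : Ty d q) ^ (Fintype.card (Blk d k) - ∏ i, ((b i - a i) / 2) -
        ∑ j : Fin d, 2 * ∏ i ∈ univ.erase j, ((b i - a i) / 2)) := by
  classical
  set K : ℝ := Real.exp ((2 : ℝ) ^ d * ((Real.log ((q : ℝ) / 2) + 3 / ((d : ℝ) - 1) ^ 45) / 4 +
    3 / 4 * Real.log q)) with hK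
  have hK1 : ∀ (j : Fin d) (m : Bool), Nn (Ty.fc j m : Ty d q) = K := fun _ _ => rfl
  simp only [hK1]
  rw [prod_pow_eq_pow_sum, ← B07_card_FF hab, ← card_gr (k := k) hab]
  have hdis := B07_disj hab
  have h1 : ∏ t, Nn (asg a b Γ τ t) = (∏ t ∈ Γ, Nn (asg a b Γ τ t)) *
      (∏ t ∈ gr a b \ Γ, Nn (asg a b Γ τ t)) * (∏ t ∈ B07_FF k a b, Nn (asg a b Γ τ t)) *
      ∏ t ∈ (univ \ gr a b) \ B07_FF k a b, Nn (asg a b Γ τ t) := by
    have hsub : B07_FF k a b ⊆ univ \ gr a b := by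
      intro t ht
      rw [mem_sdiff]
      exact ⟨mem_univ _, fun h => disjoint_left.1 hdis h ht⟩
    rw [← prod_sdiff (subset_univ (gr a b : Finset (Blk d k))), ← prod_sdiff hΓ, ← prod_sdiff hsub]
    ring
  rw [h1]
  congr 1
  · congr 1
    · congr 1
      · refine prod_congr rfl fun t ht => ?_
        unfold asg
        rw [if_pos ht]
      · rw [← card_sdiff_of_subset hΓ, ← prod_const]
        refine prod_congr rfl fun t ht => ?_
        rw [mem_sdiff] at ht
        unfold asg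
        rw [if_neg ht.2, if_pos ht.1]
    · rw [← prod_const]
      refine prod_congr rfl fun t ht => ?_
      have h2 : t ∉ gr a b := fun h => disjoint_left.1 hdis h ht
      have h3 : t ∉ Γ := fun h => h2 (hΓ h)
      unfold asg
      rw [if_neg h3, if_neg h2]
      by_cases h4 : ∃ j, t ∈ flo a b j
      · rw [dif_pos h4]
        exact hK1 _ _
      · rw [dif_neg h4]
        have h5 : ∃ j, t ∈ fup a b j := by
          unfold B07_FF at ht
          rw [mem_union, mem_biUnion, mem_biUnion] at ht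
          rcases ht with ⟨j, _, h⟩ | ⟨j, _, h⟩
          · exact absurd ⟨j, h⟩ h4
          · exact ⟨j, h⟩
        rw [dif_pos h5]
        exact hK1 _ _
  · have hcard : ((univ \ gr a b) \ B07_FF k a b : Finset (Blk d k)).card =
        Fintype.card (Blk d k) - (gr a b : Finset (Blk d k)).card - (B07_FF k a b).card := by
      rw [card_sdiff_of_subset, card_sdiff_of_subset (subset_univ _), card_univ]
      intro t ht
      rw [mem_sdiff]
      exact ⟨mem_univ _, fun h => disjoint_left.1 hdis h ht⟩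
    rw [← hcard, ← prod_const]
    refine prod_congr rfl fun t ht => ?_
    rw [mem_sdiff, mem_sdiff] at ht
    have h2 : t ∉ gr a b := ht.1.2
    have h3 : t ∉ Γ := fun h => h2 (hΓ h)
    have h4 : ¬ ∃ j, t ∈ flo a b j := by
      rintro ⟨j, hj⟩
      refine ht.2 ?_
      unfold B07_FF
      exact mem_union_left _ (mem_biUnion.2 ⟨j, mem_univ _, hj⟩)
    have h5 : ¬ ∃ j, t ∈ fup a b j := by
      rintro ⟨j, hj⟩
      refine ht.2 ?_
      unfold B07_FF
      exact mem_union_right _ (mem_biUnion.2 ⟨j, mem_univ _, hj⟩)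
    unfold asg
    rw [if_neg h3, if_neg h2, dif_neg h4, dif_neg h5]

/-- the blocks in the three families are different, so there are enough blocks -/
theorem asg_room {a b : Fin d → ℕ} (hab : evb k a b) :
    ∏ i, ((b i - a i) / 2) + ∑ j : Fin d, 2 * ∏ i ∈ univ.erase j, ((b i - a i) / 2) ≤
      Fintype.card (Blk d k) := by
  classical
  rw [← B07_card_FF hab, ← card_gr (k := k) hab, ← card_union_of_disjoint (B07_disj hab)]
  exact card_le_univ _

end Pool.Agent.COR

end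

/-! ### from `Lib_MP_2c424f_lc5.V10` -/

section

/-!
# Part V, V10: (A1), rows of the two-step conflict walk

`B ⊆ A`, `J = A \ B`.  `∑_{y'} Mk y y' = ∑_{x ~ y} ∑_{y' ~ x, y' ≠ y} pc x y y'`.  `pc_row` for the `x ~ y` (even, typical).
First term: `c = g y ∉ J`, i.e. `c ∉ A` or `c ∈ B`: `row12` with `(f, A)`, `(g, B)`.  Second term: `c = f y`: `c ∉ B` or `c ∈ A` always:
`row12` with `(g, B)`, `(f, A)`.  Third: `row34` with `(F₁, A₁) = (f, A)`, `(F₂, A₂) = (g, B)` (`c ∉ J → c ∈ A ∨ c ∉ B`); fourth: `(g, B)`,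
`(f, A)` (`c ∉ J → c ∈ B ∨ c ∉ A`).  At most `2d` points `x`; `2d/q = a`:
`∑ ≤ 2 · (3/q) a e^{-a/2} 2d + 2 · (9/q²) 2d · 7 a e^{-a/2} q = (6 a² + 126 a²) e^{-a/2} ≤ 200 a² e^{-a/2}`.
-/

set_option autoImplicit false

open Finset Filter

namespace Pool.Agent.LC

open Pool.Agent.LO Pool.Agent.LIN Pool.Agent.THR Pool.Agent.COR

open scoped Classical in
theorem row_le {Λ : Type} [Fintype Λ] {d q : ℕ} (hR : Rg d q) (hq : 1 ≤ q) (G : SimpleGraph Λ) (ev : Λ → Prop)
    (hP : Par G ev) (A B : Finset (Fin q)) (hB : B ⊆ A) (f g : Λ → Fin q) (y : Λ) (hy : ¬ ev y)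
    (hc : cert d G ev A B f g y) :
    ∑ y', Mk G (A \ B) f g y y' ≤ rh d q := by
  obtain ⟨⟨hAf, hBg, hdy⟩, hx⟩ := hc
  have hq0 : (0 : ℝ) < q := by exact_mod_cast hq
  set J : Finset (Fin q) := A \ B with hJ
  have hJ1 : ∀ c, c ∉ J → c ∉ A ∨ c ∈ B := by
    intro c hc
    by_cases h : c ∈ A
    · right
      by_contra h2
      exact hc (mem_sdiff.2 ⟨h, h2⟩)
    · exact Or.inl h
  set a : ℝ := ra d q with ha
  have hqa : a * q = 2 * d := by
    rw [ha, ra]
    field_simp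
  have ha1000 : (1000 : ℝ) ≤ a := by
    have h1 : (1000 : ℝ) * q ≤ 2 * d := by exact_mod_cast hR.2.1
    rw [← hqa] at h1
    exact le_of_mul_le_mul_right h1 hq0
  have ha0 : 0 < a := by linarith
  set E : ℝ := Real.exp (-a / 2) with hE
  have hE0 : 0 < E := Real.exp_pos _
  have hev : ∀ x ∈ nb G y, ev x := by
    intro x hx
    have h1 : G.Adj y x := by simpa [nb] using hx
    have h2 := hP x y h1.symm
    exact h2.2 hy
  -- rewrite the sum
  have h1 : ∑ y', Mk G J f g y y' = ∑ x ∈ nb G y, ∑ y' ∈ (nb G x).erase y, pc G J f g x y y' := by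
    unfold Mk
    rw [sum_comm]
    have h2 : ∀ x : Λ, (∑ y' : Λ, if G.Adj y x ∧ G.Adj x y' ∧ y ≠ y' then pc G J f g x y y' else 0) =
        if G.Adj y x then ∑ y' ∈ (nb G x).erase y, pc G J f g x y y' else 0 := by
      intro x
      by_cases h : G.Adj y x
      · simp only [h, true_and, if_true]
        rw [← sum_filter]
        apply sum_congr _ (fun _ _ => rfl)
        ext y'
        simp only [mem_filter, mem_univ, true_and, mem_erase, nb]
        constructor
        · rintro ⟨h3, h4⟩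
          exact ⟨fun h5 => h4 h5.symm, h3⟩
        · rintro ⟨h3, h4⟩
          exact ⟨h4, fun h5 => h3 h5.symm⟩
      · simp [h]
    rw [sum_congr rfl fun x _ => h2 x, ← sum_filter]
    rfl
  rw [h1]
  have h2 : ∑ x ∈ nb G y, ∑ y' ∈ (nb G x).erase y, pc G J f g x y y' ≤
      ∑ x ∈ nb G y, (3 / (q : ℝ) * (if g y ∈ Rv G f x ∧ g y ∉ J then (nc G g x y (g y) : ℝ) else 0) +
      3 / q * (if f y ∈ Rv G g x ∧ f y ∉ J then (nc G f x y (f y) : ℝ) else 0) +
      126 / q * (a * E)) := by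
    apply sum_le_sum
    intro x hxy
    obtain ⟨hxA, hxB, hdx⟩ := hx x hxy
    refine (pc_row G J f g x y hq hxA.e1 hxB.e1).trans ?_
    have h3 := row34 (d := d) (by linarith : (1 : ℝ) ≤ ra d q) G ev J A B (fun c hc => by
      rcases hJ1 c hc with h | h
      · exact Or.inr fun h' => h (hB h')
      · exact Or.inl (hB h)) f g x (hev x hxy) hxA hxB
    have h4 := row34 (d := d) (by linarith : (1 : ℝ) ≤ ra d q) G ev J B A (fun c hc => (hJ1 c hc).symm)
      g f x (hev x hxy) hxB hxA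
    have h5 : 9 / (q : ℝ) ^ 2 * (((nb G x).filter fun y' => f y' ∈ Rv G g x ∧ f y' ∉ J).card : ℝ) ≤
        63 / q * (a * E) := by
      calc 9 / (q : ℝ) ^ 2 * (((nb G x).filter fun y' => f y' ∈ Rv G g x ∧ f y' ∉ J).card : ℝ)
          ≤ 9 / (q : ℝ) ^ 2 * (7 * a * E * q) := by
            apply mul_le_mul_of_nonneg_left h3 (by positivity)
        _ = 63 / q * (a * E) := by field_simp; ring
    have h6 : 9 / (q : ℝ) ^ 2 * (((nb G x).filter fun y' => g y' ∈ Rv G f x ∧ g y' ∉ J).card : ℝ) ≤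
        63 / q * (a * E) := by
      calc 9 / (q : ℝ) ^ 2 * (((nb G x).filter fun y' => g y' ∈ Rv G f x ∧ g y' ∉ J).card : ℝ)
          ≤ 9 / (q : ℝ) ^ 2 * (7 * a * E * q) := by
            apply mul_le_mul_of_nonneg_left h4 (by positivity)
        _ = 63 / q * (a * E) := by field_simp; ring
    have h7 : 126 / (q : ℝ) * (a * E) = 63 / q * (a * E) + 63 / q * (a * E) := by ring
    rw [h7]
    linarith
  refine h2.trans ?_
  rw [sum_add_distrib, sum_add_distrib, ← mul_sum, ← mul_sum, sum_const, nsmul_eq_mul]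
  have hn : 0 ≤ a * E * (2 * d) := by positivity
  have h3 : ∑ x ∈ nb G y, (if g y ∈ Rv G f x ∧ g y ∉ J then (nc G g x y (g y) : ℝ) else 0) ≤
      a * E * (2 * d) := by
    by_cases h : g y ∈ J
    · simp only [h, not_true_eq_false, and_false, if_false, sum_const_zero]
      exact hn
    · simp only [h, not_false_eq_true, and_true]
      exact row12 (by linarith : (20 : ℝ) ≤ ra d q) G ev A B f g y hy hAf hBg (g y) (hJ1 _ h)
  have h4 : ∑ x ∈ nb G y, (if f y ∈ Rv G g x ∧ f y ∉ J then (nc G f x y (f y) : ℝ) else 0) ≤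
      a * E * (2 * d) := by
    by_cases h : f y ∈ J
    · simp only [h, not_true_eq_false, and_false, if_false, sum_const_zero]
      exact hn
    · simp only [h, not_false_eq_true, and_true]
      refine row12 (by linarith : (20 : ℝ) ≤ ra d q) G ev B A g f y hy hBg hAf (f y) ?_
      by_cases h' : f y ∈ B
      · exact Or.inr (hB h')
      · exact Or.inl h'
  have h5 : ((nb G y).card : ℝ) ≤ 2 * d := by exact_mod_cast hdy
  have h6 : ((nb G y).card : ℝ) * (126 / q * (a * E)) ≤ 2 * d * (126 / q * (a * E)) :=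
    mul_le_mul_of_nonneg_right h5 (by positivity)
  have h7 : 3 / (q : ℝ) * ∑ x ∈ nb G y, (if g y ∈ Rv G f x ∧ g y ∉ J then (nc G g x y (g y) : ℝ) else 0) ≤
      3 / q * (a * E * (2 * d)) := mul_le_mul_of_nonneg_left h3 (by positivity)
  have h8 : 3 / (q : ℝ) * ∑ x ∈ nb G y, (if f y ∈ Rv G g x ∧ f y ∉ J then (nc G f x y (f y) : ℝ) else 0) ≤
      3 / q * (a * E * (2 * d)) := mul_le_mul_of_nonneg_left h4 (by positivity)
  have h9 : 3 / (q : ℝ) * (a * E * (2 * d)) = 3 * (a ^ 2 * E) := by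
    rw [← hqa]; field_simp
  have h10 : 2 * (d : ℝ) * (126 / q * (a * E)) = 126 * (a ^ 2 * E) := by
    rw [← hqa]; field_simp
  have h11 : rh d q = 200 * (a ^ 2 * E) := by
    rw [rh, ← ha, ← hE]; ring
  have h12 : 0 ≤ a ^ 2 * E := by positivity
  rw [h11]
  rw [h9] at h7 h8
  rw [h10] at h6
  linarith

end Pool.Agent.LC

end

/-! ### from `Lib_MP_2c424f_lo.Pair` -/

section

/-!
# The pair lemma (piece PAIR)

For all odd sites `x`, `y` of the torus, at any distance: except for a proportion `1/(2 d^2)` of the proper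
colourings, `x` and `y` see the same set of colours, and the number of available colours is `⌊q/2⌋` or
`⌈q/2⌉`.
-/

set_option autoImplicit false

open Finset

namespace Pool.Agent.LO

open scoped Classical in
/-- the deviation from the majority set -/
theorem dvt_le : ∃ d₀ : ℕ, ∀ d : ℕ, d₀ ≤ d → ∀ q : ℕ, Adm d q → ∀ k : ℕ, d ^ 5 ≤ 2 ^ k →
    ∀ x : Site d (k + 1), ¬ evn x →
    ∑ f ∈ prps d (k + 1) q, (if (SS f x)ᶜ ≠ Bst f then (1 : ℝ) else 0) ≤
      ZZ d (k + 1) q * (1 / (8 * (d : ℝ) ^ 2)) := by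
  obtain ⟨d₁, hm⟩ := mean_dev
  refine ⟨max d₁ 243, fun d hd q hA k hk x hx => ?_⟩
  have hd1 : d₁ ≤ d := le_trans (le_max_left _ _) hd
  have hd3 : 243 ≤ d := le_trans (le_max_right _ _) hd
  obtain ⟨hdR, hqR, hqd, hk1, hN⟩ := basic_num hd3 hA hk
  have hdp : 1 ≤ d := by omega
  have h1 := hm d hd1 q hA k hk (fun _ => 0)
  have hNk : NN d (k + 1) = NN d k * 2 ^ d := by
    unfold NN
    rw [pow_succ, mul_pow]
  have hNp : 0 < NN d k := by unfold NN; positivity
  have hcard : ((ods d (k + 1)).card : ℝ) = NN d (k + 1) / 2 := card_ods hdp (by omega)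
  -- sum over the odd sites
  have h2 : ((ods d (k + 1)).card : ℝ) *
      ∑ f ∈ prps d (k + 1) q, (if (SS f x)ᶜ ≠ Bst f then (1 : ℝ) else 0) =
      ∑ f ∈ prps d (k + 1) q, ∑ v ∈ ods d (k + 1), (if (SS f v)ᶜ ≠ Bst f then (1 : ℝ) else 0) := by
    rw [sum_comm, ← nsmul_eq_mul, ← sum_const]
    refine sum_congr rfl fun v hv => ?_
    have hv' : ¬ evn v := by
      unfold ods at hv
      exact (mem_filter.1 hv).2
    exact dvt_const (by omega) hx hv'
  have h3 : 2 / 2 ^ d *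
      ∑ f ∈ prps d (k + 1) q, ∑ v ∈ ods d (k + 1), (if (SS f v)ᶜ ≠ Bst f then (1 : ℝ) else 0) ≤
      2 * ∑ f ∈ prps d (k + 1) q,
        (∑ c, ∑ t : Blk d k, dev f t c + ∑ c, ∑ t : Blk d k, dif f (fun _ => 0) t c) := by
    rw [mul_sum, mul_sum]
    exact sum_le_sum fun f _ => maj_count hdp f (fun _ => 0)
  rw [← h2, hcard, hNk] at h3
  set S := ∑ f ∈ prps d (k + 1) q, (if (SS f x)ᶜ ≠ Bst f then (1 : ℝ) else 0) with hS
  have e1 : 2 / 2 ^ d * (NN d k * 2 ^ d / 2 * S) = NN d k * S := by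
    field_simp
  rw [e1] at h3
  have h4 : NN d k * S ≤ NN d k * (ZZ d (k + 1) q * (1 / (8 * (d : ℝ) ^ 2))) := by
    refine h3.trans ((mul_le_mul_of_nonneg_left h1 (by norm_num)).trans (le_of_eq ?_))
    field_simp
    ring
  exact le_of_mul_le_mul_left h4 hNp

open scoped Classical in
/-- the number of available colours -/
theorem avt_le : ∃ d₀ : ℕ, ∀ d : ℕ, d₀ ≤ d → ∀ q : ℕ, Adm d q → ∀ k : ℕ, d ^ 5 ≤ 2 ^ k →
    ∀ x : Site d (k + 1), ¬ evn x →
    ∑ f ∈ prps d (k + 1) q, (if ¬ (av f x = q1 q ∨ av f x = q2 q) then (1 : ℝ) else 0) ≤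
      ZZ d (k + 1) q * (1 / (4 * (d : ℝ) ^ 2)) := by
  obtain ⟨d₁, hm⟩ := mean_gen
  refine ⟨max d₁ 243, fun d hd q hA k hk x hx => ?_⟩
  have hd1 : d₁ ≤ d := le_trans (le_max_left _ _) hd
  have hd3 : 243 ≤ d := le_trans (le_max_right _ _) hd
  obtain ⟨hdR, hqR, hqd, hk1, hN⟩ := basic_num hd3 hA hk
  have hdp : 1 ≤ d := by omega
  have hq2 : 2 ≤ q := hA.1
  have hkk : d ^ 5 ≤ 2 ^ (k + 1) := le_trans hk (Nat.pow_le_pow_right (by norm_num) (by omega))
  have hNp : 0 < NN d (k + 1) := by unfold NN; positivity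
  have hZ : 0 ≤ ZZ d (k + 1) q := by unfold ZZ; positivity
  have hcard : ((ods d (k + 1)).card : ℝ) = NN d (k + 1) / 2 := card_ods hdp (by omega)
  have h1 := hm d hd1 q hA (k + 1) hkk
    (fun f => ∑ v ∈ ods d (k + 1), (if ¬ (av f v = q1 q ∨ av f v = q2 q) then (1 : ℝ) else 0))
    (4 * (q : ℝ) ^ 2) (NN d (k + 1) / 2) (by positivity) (by positivity)
    (fun f hf => avn_le_Loss hq2 hf)
    (fun f _ => by
      rw [← hcard]
      have : ∀ v ∈ ods d (k + 1), (if ¬ (av f v = q1 q ∨ av f v = q2 q) then (1 : ℝ) else 0) ≤ 1 := by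
        intro v _
        split_ifs <;> norm_num
      refine (sum_le_sum this).trans (le_of_eq ?_)
      simp)
  have h2 : ((ods d (k + 1)).card : ℝ) *
      ∑ f ∈ prps d (k + 1) q, (if ¬ (av f x = q1 q ∨ av f x = q2 q) then (1 : ℝ) else 0) =
      ∑ f ∈ prps d (k + 1) q, ∑ v ∈ ods d (k + 1),
        (if ¬ (av f v = q1 q ∨ av f v = q2 q) then (1 : ℝ) else 0) := by
    rw [sum_comm, ← nsmul_eq_mul, ← sum_const]
    refine sum_congr rfl fun v _ => ?_
    convert avt_const (q := q) x v (fun n => ¬ (n = q1 q ∨ n = q2 q))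
  rw [← h2, hcard] at h1
  set S := ∑ f ∈ prps d (k + 1) q, (if ¬ (av f x = q1 q ∨ av f x = q2 q) then (1 : ℝ) else 0) with hS
  have hd0 : (0 : ℝ) < d := by linarith
  have h3 : (4 * (4 * (q : ℝ) ^ 2) * NN d (k + 1) + NN d (k + 1) / 2) / (d : ℝ) ^ 4 * ZZ d (k + 1) q ≤
      NN d (k + 1) / 2 * (ZZ d (k + 1) q * (1 / (4 * (d : ℝ) ^ 2))) := by
    have e1 : (4 * (4 * (q : ℝ) ^ 2) * NN d (k + 1) + NN d (k + 1) / 2) / (d : ℝ) ^ 4 * ZZ d (k + 1) q =
        (NN d (k + 1) / 2 * ZZ d (k + 1) q) * ((32 * (q : ℝ) ^ 2 + 1) / (d : ℝ) ^ 4) := by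
      ring
    have e2 : NN d (k + 1) / 2 * (ZZ d (k + 1) q * (1 / (4 * (d : ℝ) ^ 2))) =
        (NN d (k + 1) / 2 * ZZ d (k + 1) q) * (1 / (4 * (d : ℝ) ^ 2)) := by
      ring
    rw [e1, e2]
    apply mul_le_mul_of_nonneg_left _ (by positivity)
    rw [div_le_div_iff₀ (by positivity) (by positivity)]
    have h4 : (32 * (q : ℝ) ^ 2 + 1) * 4 ≤ (d : ℝ) ^ 2 := by nlinarith
    have h5 : (d : ℝ) ^ 4 = (d : ℝ) ^ 2 * (d : ℝ) ^ 2 := by ring
    rw [h5, one_mul]
    have h6 := mul_le_mul_of_nonneg_right h4 (show 0 ≤ (d : ℝ) ^ 2 by positivity)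
    linarith
  have h4 := h1.trans h3
  exact le_of_mul_le_mul_left h4 (by positivity)

open scoped Classical in
theorem pair : ∃ d₀ : ℕ, ∀ d : ℕ, d₀ ≤ d → ∀ q : ℕ, Adm d q → ∀ k : ℕ, d ^ 5 ≤ 2 ^ k →
    ∀ x y : Site d (k + 1), ¬ evn x → ¬ evn y →
    (((prps d (k + 1) q).filter fun f =>
        SS f x ≠ SS f y ∨ ¬ (av f x = q1 q ∨ av f x = q2 q)).card : ℝ) ≤
      ZZ d (k + 1) q * (1 / (2 * (d : ℝ) ^ 2)) := by
  obtain ⟨d₁, h₁⟩ := dvt_le
  obtain ⟨d₂, h₂⟩ := avt_le
  refine ⟨max (max d₁ d₂) 1, fun d hd q hA k hk x y hx hy => ?_⟩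
  have hd1 : d₁ ≤ d := le_trans (le_trans (le_max_left _ _) (le_max_left _ _)) hd
  have hd2 : d₂ ≤ d := le_trans (le_trans (le_max_right _ _) (le_max_left _ _)) hd
  have hd3 : 1 ≤ d := le_trans (le_max_right _ _) hd
  have a1 := h₁ d hd1 q hA k hk x hx
  have a2 := h₁ d hd1 q hA k hk y hy
  have a3 := h₂ d hd2 q hA k hk x hx
  have hpt : ∀ f ∈ prps d (k + 1) q,
      (if (SS f x ≠ SS f y ∨ ¬ (av f x = q1 q ∨ av f x = q2 q)) then (1 : ℝ) else 0) ≤
      (if (SS f x)ᶜ ≠ Bst f then (1 : ℝ) else 0) + (if (SS f y)ᶜ ≠ Bst f then (1 : ℝ) else 0) +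
        (if ¬ (av f x = q1 q ∨ av f x = q2 q) then (1 : ℝ) else 0) := by
    intro f _
    have n1 : (0 : ℝ) ≤ (if (SS f x)ᶜ ≠ Bst f then (1 : ℝ) else 0) := by split_ifs <;> norm_num
    have n2 : (0 : ℝ) ≤ (if (SS f y)ᶜ ≠ Bst f then (1 : ℝ) else 0) := by split_ifs <;> norm_num
    have n3 : (0 : ℝ) ≤ (if ¬ (av f x = q1 q ∨ av f x = q2 q) then (1 : ℝ) else 0) := by
      split_ifs <;> norm_num
    by_cases hav : av f x = q1 q ∨ av f x = q2 q
    · by_cases hS : SS f x = SS f y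
      · rw [if_neg]
        · linarith
        · rw [not_or]
          exact ⟨not_not.2 hS, not_not.2 hav⟩
      · have hS' : (SS f x)ᶜ ≠ Bst f ∨ (SS f y)ᶜ ≠ Bst f := by
          by_contra hcon
          rw [not_or, not_not, not_not] at hcon
          exact hS (compl_injective (hcon.1.trans hcon.2.symm))
        rcases hS' with h | h
        · rw [if_pos h] at n1 ⊢
          split_ifs <;> linarith
        · rw [if_pos h] at n2 ⊢
          split_ifs <;> linarith
    · rw [if_pos hav] at n3 ⊢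
      split_ifs <;> linarith
  have h3 := sum_le_sum hpt
  rw [sum_add_distrib, sum_add_distrib] at h3
  have h4 : (((prps d (k + 1) q).filter fun f =>
        SS f x ≠ SS f y ∨ ¬ (av f x = q1 q ∨ av f x = q2 q)).card : ℝ) =
      ∑ f ∈ prps d (k + 1) q,
        (if (SS f x ≠ SS f y ∨ ¬ (av f x = q1 q ∨ av f x = q2 q)) then (1 : ℝ) else 0) := by
    rw [sum_ite, sum_const_zero, add_zero, sum_const, nsmul_eq_mul, mul_one]
  rw [h4]
  have e : ZZ d (k + 1) q * (1 / (2 * (d : ℝ) ^ 2)) = ZZ d (k + 1) q * (1 / (8 * (d : ℝ) ^ 2)) +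
      ZZ d (k + 1) q * (1 / (8 * (d : ℝ) ^ 2)) + ZZ d (k + 1) q * (1 / (4 * (d : ℝ) ^ 2)) := by
    have hd0 : (0 : ℝ) < d := by exact_mod_cast hd3
    field_simp
    ring
  rw [e]
  linarith

end Pool.Agent.LO

end

/-! ### from `Lib_MP_2c424f_lo.MainA2` -/

section

/-!
# The two-point function of the torus (piece MAINA2)

For every two sites of the torus.  Same parity: `P(f x = f y) ≥ (1 - 1/d^2)/⌈q/2⌉`, by resampling the colour
of `x`.  Different parity: `P(f x = f y) ≤ 1/d^2`.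
-/

set_option autoImplicit false

open Finset

namespace Pool.Agent.LO

variable {d k q : ℕ}

theorem step_ne (hk : 1 ≤ k) (x : Site d k) (σ : Stp d) : x + sv σ ≠ x := by
  intro h
  have h1 := evn_step hk x σ
  rw [h] at h1
  by_cases hx : evn x
  · exact (h1.1 hx) hx
  · exact hx (h1.2 hx)

theorem step_back (x : Site d k) (σ : Stp d) : x + sv σ + sv (σ.1, !σ.2) = x := by
  obtain ⟨j, b⟩ := σ
  rw [add_assoc, sv_opp, add_zero]

theorem SS_update (hk : 1 ≤ k) (f : Site d k → Fin q) (x : Site d k) (c : Fin q) :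
    SS (Function.update f x c) x = SS f x := by
  unfold SS
  have h : ∀ σ : Stp d, Function.update f x c (x + sv σ) = f (x + sv σ) := fun σ =>
    Function.update_of_ne (step_ne hk x σ) _ _
  simp only [h]

theorem mem_prps (f : Site d k → Fin q) : f ∈ prps d k q ↔ Prp f := by
  classical
  unfold prps
  rw [mem_filter]
  simp only [mem_univ, true_and]

theorem self_notin_SS {f : Site d k → Fin q} (hf : Prp f) (x : Site d k) : f x ∉ SS f x := by
  intro h
  unfold SS at h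
  rw [mem_image] at h
  obtain ⟨σ, _, h⟩ := h
  exact hf x σ h

theorem Prp_update (hk : 1 ≤ k) {f : Site d k → Fin q} (hf : Prp f) (x : Site d k) (c : Fin q)
    (hc : c ∉ SS f x) : Prp (Function.update f x c) := by
  have hc' : ∀ σ : Stp d, f (x + sv σ) ≠ c := by
    intro σ h
    apply hc
    unfold SS
    rw [mem_image]
    exact ⟨σ, mem_univ _, h⟩
  intro z σ
  by_cases hz : z = x
  · subst hz
    rw [Function.update_self, Function.update_of_ne (step_ne hk z σ)]
    exact hc' σ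
  · rw [Function.update_of_ne hz]
    by_cases hz2 : z + sv σ = x
    · rw [hz2, Function.update_self]
      have h1 := step_back z σ
      rw [hz2] at h1
      have h2 := hc' (σ.1, !σ.2)
      rw [h1] at h2
      exact h2.symm
    · rw [Function.update_of_ne hz2]
      exact hf z σ

open scoped Classical in
/-- resampling the colour of `x` -/
theorem resample (hk : 1 ≤ k) (x y : Site d k) (hxy : y ≠ x) :
    (((prps d k q).filter fun f => f x = f y).card : ℝ) =
      ∑ f ∈ prps d k q, (if f y ∉ SS f x then (1 : ℝ) / (av f x : ℝ) else 0) := by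
  have hcard : ∀ f : Site d k → Fin q, (((SS f x)ᶜ).card : ℝ) = (av f x : ℝ) := by
    intro f
    unfold av
    rw [card_compl, Fintype.card_fin]
  -- left side
  have h1 : (((prps d k q).filter fun f => f x = f y).card : ℝ) =
      ∑ f ∈ prps d k q, ∑ c ∈ (SS f x)ᶜ, (if f x = f y then (1 : ℝ) / (av f x : ℝ) else 0) := by
    rw [card_filter, Nat.cast_sum]
    refine sum_congr rfl fun f hf => ?_
    rw [mem_prps] at hf
    rw [sum_const, nsmul_eq_mul, hcard]
    have hp : (0 : ℝ) < av f x := by exact_mod_cast av_pos hf x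
    split_ifs
    · rw [Nat.cast_one]
      field_simp
    · simp
  -- right side
  have h2 : ∑ f ∈ prps d k q, (if f y ∉ SS f x then (1 : ℝ) / (av f x : ℝ) else 0) =
      ∑ f ∈ prps d k q, ∑ c ∈ (SS f x)ᶜ, (if c = f y then (1 : ℝ) / (av f x : ℝ) else 0) := by
    refine sum_congr rfl fun f _ => ?_
    rw [sum_ite_eq' ((SS f x)ᶜ) (f y)]
    simp only [mem_compl]
  rw [h1, h2, Finset.sum_sigma', Finset.sum_sigma']
  refine Finset.sum_bij' (fun p _ => ⟨Function.update p.1 x p.2, p.1 x⟩)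
    (fun p _ => ⟨Function.update p.1 x p.2, p.1 x⟩) ?_ ?_ ?_ ?_ ?_
  · rintro ⟨f, c⟩ h
    rw [mem_sigma] at h ⊢
    obtain ⟨hf, hc⟩ := h
    simp only [mem_prps, mem_compl] at hf hc ⊢
    rw [SS_update hk]
    exact ⟨Prp_update hk hf x c hc, self_notin_SS hf x⟩
  · rintro ⟨f, c⟩ h
    rw [mem_sigma] at h ⊢
    obtain ⟨hf, hc⟩ := h
    simp only [mem_prps, mem_compl] at hf hc ⊢
    rw [SS_update hk]
    exact ⟨Prp_update hk hf x c hc, self_notin_SS hf x⟩
  · rintro ⟨f, c⟩ _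
    simp
  · rintro ⟨f, c⟩ _
    simp
  · rintro ⟨f, c⟩ _
    simp only
    have e1 : av (Function.update f x c) x = av f x := by
      unfold av
      rw [SS_update hk]
    rw [e1, Function.update_of_ne hxy]

open scoped Classical in
private theorem mainA2_card_transl (τ x y : Site d k) :
    (((prps d k q).filter fun f => f x = f y).card : ℝ) =
      (((prps d k q).filter fun f => f (x + τ) = f (y + τ)).card : ℝ) := by
  rw [card_filter, card_filter, Nat.cast_sum, Nat.cast_sum]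
  exact (sum_transl τ (fun f => ((if f x = f y then 1 else 0 : ℕ) : ℝ))).symm

theorem q2_pos (hq : 2 ≤ q) : 1 ≤ q2 q := by
  unfold q2
  omega

theorem q1_le_q2 (q : ℕ) : q1 q ≤ q2 q := by
  unfold q1 q2
  omega

open scoped Classical in
/-- same parity, odd -/
private theorem mainA2_odd (hk : 1 ≤ k) (hq : 2 ≤ q) (x y : Site d k) (ε : ℝ) (hε : 0 ≤ ε)
    (h : (((prps d k q).filter fun f =>
        SS f x ≠ SS f y ∨ ¬ (av f x = q1 q ∨ av f x = q2 q)).card : ℝ) ≤ ZZ d k q * ε) :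
    (1 - ε) * (1 / (q2 q : ℝ)) * ZZ d k q ≤
      (((prps d k q).filter fun f => f x = f y).card : ℝ) := by
  have hq2 : (1 : ℝ) ≤ q2 q := by exact_mod_cast q2_pos hq
  have hZ : 0 ≤ ZZ d k q := by unfold ZZ; positivity
  by_cases hxy : y = x
  · subst hxy
    have h1 : (((prps d k q).filter fun f => f y = f y).card : ℝ) = ZZ d k q := by
      unfold ZZ
      congr 2
      exact filter_true_of_mem fun _ _ => rfl
    rw [h1]
    have h2 : 1 / (q2 q : ℝ) ≤ 1 := by
      rw [div_le_one (by linarith)]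
      exact hq2
    have h3 : 0 ≤ 1 / (q2 q : ℝ) := by positivity
    have h4 : (1 - ε) * (1 / (q2 q : ℝ)) ≤ 1 := by nlinarith
    nlinarith
  · rw [resample hk x y hxy]
    have hpt : ∀ f ∈ prps d k q, 1 / (q2 q : ℝ) * (1 -
        (if (SS f x ≠ SS f y ∨ ¬ (av f x = q1 q ∨ av f x = q2 q)) then (1 : ℝ) else 0)) ≤
        (if f y ∉ SS f x then (1 : ℝ) / (av f x : ℝ) else 0) := by
      intro f hf
      rw [mem_prps] at hf
      have hp : (1 : ℝ) ≤ av f x := by exact_mod_cast av_pos hf x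
      by_cases hb : SS f x ≠ SS f y ∨ ¬ (av f x = q1 q ∨ av f x = q2 q)
      · rw [if_pos hb, sub_self, mul_zero]
        have h0 : (0 : ℝ) ≤ 1 / (av f x : ℝ) := by positivity
        by_cases hm : f y ∉ SS f x
        · rw [if_pos hm]
          exact h0
        · rw [if_neg hm]
      · rw [if_neg hb, sub_zero, mul_one]
        rw [not_or, not_not, not_not] at hb
        obtain ⟨hS, ha⟩ := hb
        have h1 : f y ∉ SS f x := by
          rw [hS]
          exact self_notin_SS hf y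
        rw [if_pos h1]
        apply one_div_le_one_div_of_le (by linarith)
        have h2 : av f x ≤ q2 q := by
          rcases ha with h | h
          · rw [h]; exact q1_le_q2 q
          · exact h.le
        exact_mod_cast h2
    have h3 := sum_le_sum hpt
    refine le_trans (le_trans ?_ (le_of_eq (mul_sum (prps d k q) _ _))) h3
    rw [sum_sub_distrib, sum_const, nsmul_eq_mul, mul_one]
    have h4 : (((prps d k q).filter fun f =>
        SS f x ≠ SS f y ∨ ¬ (av f x = q1 q ∨ av f x = q2 q)).card : ℝ) =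
      ∑ f ∈ prps d k q,
        (if (SS f x ≠ SS f y ∨ ¬ (av f x = q1 q ∨ av f x = q2 q)) then (1 : ℝ) else 0) := by
      rw [sum_ite, sum_const_zero, add_zero, sum_const, nsmul_eq_mul, mul_one]
    rw [← h4]
    have hZc : ((prps d k q).card : ℝ) = ZZ d k q := rfl
    rw [hZc]
    have h5 : 0 ≤ 1 / (q2 q : ℝ) := by positivity
    have h6 : ZZ d k q - ZZ d k q * ε ≤ ZZ d k q - (((prps d k q).filter fun f =>
        SS f x ≠ SS f y ∨ ¬ (av f x = q1 q ∨ av f x = q2 q)).card : ℝ) := by linarith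
    have h7 := mul_le_mul_of_nonneg_left h6 h5
    refine le_trans (le_of_eq ?_) h7
    ring

open scoped Classical in
/-- different parity: `x` odd, `y` even, `v` a neighbour of `y` -/
private theorem mainA2_diff (x y : Site d k) (σ : Stp d) (ε : ℝ)
    (h : (((prps d k q).filter fun f =>
        SS f x ≠ SS f (y + sv σ) ∨ ¬ (av f x = q1 q ∨ av f x = q2 q)).card : ℝ) ≤ ZZ d k q * ε) :
    (((prps d k q).filter fun f => f x = f y).card : ℝ) ≤ ε * ZZ d k q := by
  have h1 : ((prps d k q).filter fun f => f x = f y) ⊆ ((prps d k q).filter fun f =>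
        SS f x ≠ SS f (y + sv σ) ∨ ¬ (av f x = q1 q ∨ av f x = q2 q)) := by
    intro f hf
    rw [mem_filter] at hf ⊢
    refine ⟨hf.1, Or.inl fun hS => ?_⟩
    have hp := (mem_prps f).1 hf.1
    apply self_notin_SS hp x
    rw [hS, hf.2]
    unfold SS
    rw [mem_image]
    exact ⟨(σ.1, !σ.2), mem_univ _, by rw [step_back]⟩
  have h2 : (((prps d k q).filter fun f => f x = f y).card : ℝ) ≤ (((prps d k q).filter fun f =>
        SS f x ≠ SS f (y + sv σ) ∨ ¬ (av f x = q1 q ∨ av f x = q2 q)).card : ℝ) := by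
    exact_mod_cast card_le_card h1
  linarith

open scoped Classical in
/-- the two-point function of the torus, for every two sites -/
theorem mainA2 : ∃ d₀ : ℕ, ∀ d : ℕ, d₀ ≤ d → ∀ q : ℕ, Adm d q → ∀ k : ℕ, d ^ 5 ≤ 2 ^ k →
    ∀ x y : Site d (k + 1),
    ((evn x ↔ evn y) → (1 - 1 / (d : ℝ) ^ 2) * (1 / (q2 q : ℝ)) * ZZ d (k + 1) q ≤
      (((prps d (k + 1) q).filter fun f => f x = f y).card : ℝ)) ∧
    (¬ (evn x ↔ evn y) → (((prps d (k + 1) q).filter fun f => f x = f y).card : ℝ) ≤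
      1 / (d : ℝ) ^ 2 * ZZ d (k + 1) q) := by
  obtain ⟨d₁, hp⟩ := pair
  refine ⟨max d₁ 2, fun d hd q hA k hk x y => ?_⟩
  have hd1 : d₁ ≤ d := le_trans (le_max_left _ _) hd
  have hd2 : 2 ≤ d := le_trans (le_max_right _ _) hd
  have hdR : (2 : ℝ) ≤ d := by exact_mod_cast hd2
  have hq2 : 2 ≤ q := hA.1
  have hk1 : 1 ≤ k + 1 := by omega
  have hP := hp d hd1 q hA k hk
  have hZ : 0 ≤ ZZ d (k + 1) q := by unfold ZZ; positivity
  have hε : ZZ d (k + 1) q * (1 / (2 * (d : ℝ) ^ 2)) ≤ ZZ d (k + 1) q * (1 / (d : ℝ) ^ 2) := by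
    apply mul_le_mul_of_nonneg_left _ hZ
    apply one_div_le_one_div_of_le (by positivity)
    nlinarith
  have hε0 : 0 ≤ 1 / (d : ℝ) ^ 2 := by positivity
  set σ : Stp d := (⟨0, by omega⟩, true) with hσ
  constructor
  · intro hpar
    by_cases hx : evn x
    · have hy : evn y := hpar.1 hx
      have hx' : ¬ evn (x + sv σ) := fun h => (evn_step hk1 x σ).1 h hx
      have hy' : ¬ evn (y + sv σ) := fun h => (evn_step hk1 y σ).1 h hy
      rw [mainA2_card_transl (sv σ) x y]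
      exact mainA2_odd hk1 hq2 _ _ _ hε0 ((hP _ _ hx' hy').trans hε)
    · have hy : ¬ evn y := fun h => hx (hpar.2 h)
      exact mainA2_odd hk1 hq2 _ _ _ hε0 ((hP _ _ hx hy).trans hε)
  · intro hpar
    by_cases hx : evn x
    · have hy : ¬ evn y := fun h => hpar ⟨fun _ => h, fun _ => hx⟩
      have hx' : ¬ evn (x + sv σ) := fun h => (evn_step hk1 x σ).1 h hx
      have h1 := mainA2_diff y x σ _ ((hP _ _ hy hx').trans hε)
      have h2 : ((prps d (k + 1) q).filter fun f => f x = f y) =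
          ((prps d (k + 1) q).filter fun f => f y = f x) :=
        filter_congr fun f _ => eq_comm
      rw [h2]
      exact h1
    · have hy : evn y := by
        by_contra h
        exact hpar ⟨fun h' => absurd h' hx, fun h' => absurd h' h⟩
      have hy' : ¬ evn (y + sv σ) := fun h => (evn_step hk1 y σ).1 h hy
      exact mainA2_diff x y σ _ ((hP _ _ hx hy').trans hε)

end Pool.Agent.LO

end

/-! ### from `Lib_MP_2c424f_cor.V01` -/

section

/-!
# Properness on a set of sites and the graph of a set of sites (piece V01)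

`k ≥ 1`: `x + sv σ ≠ x` (`step_ne`), the step back is `sv (σ.1, !σ.2)` (`step_back`), a step changes the parity
(`evn_step`).  A vertex has at most `2 d` neighbours.
-/

set_option autoImplicit false

open Finset

namespace Pool.Agent.COR

open Pool.Agent.LO

variable {d k q : ℕ}

theorem prV_iff (hk : 1 ≤ k) (V : Finset (Site d k)) (f : Site d k → Fin q) : PrV V f ↔ PrG (gV V) f := by
  constructor
  · rintro h x y ⟨-, hx, hy, ⟨σ, rfl⟩, -⟩
    exact (h x hx σ hy).symm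
  · intro h x hx σ hy
    exact (h x (x + sv σ) ⟨(step_ne hk x σ).symm, hx, hy, ⟨σ, rfl⟩,
      ⟨(σ.1, !σ.2), (step_back x σ).symm⟩⟩).symm

theorem cV_eq (hk : 1 ≤ k) (V : Finset (Site d k)) (P : (Site d k → Fin q) → Prop) : cV V P = cG (gV V) P := by
  unfold cV cG
  congr 2
  ext f
  simp only [mem_filter, prV_iff hk]

theorem par_gV (hk : 1 ≤ k) (V : Finset (Site d k)) : Par (gV V) evn := by
  rintro x y ⟨-, -, -, ⟨σ, rfl⟩, -⟩
  have h := evn_step hk x σ
  tauto

open scoped Classical in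
theorem deg_gV (V : Finset (Site d k)) (v : Site d k) :
    (univ.filter fun u => (gV V).Adj v u).card ≤ 2 * d := by
  have hsub : (univ.filter fun u => (gV V).Adj v u) ⊆
      (univ : Finset (Stp d)).image (fun σ => v + sv σ) := by
    intro u hu
    rw [mem_filter] at hu
    obtain ⟨-, -, -, -, ⟨σ, hσ⟩, -⟩ := hu
    rw [mem_image]
    exact ⟨σ, mem_univ _, hσ.symm⟩
  refine (card_le_card hsub).trans (card_image_le.trans ?_)
  rw [card_univ, Fintype.card_prod, Fintype.card_fin, Fintype.card_bool, mul_comm]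

theorem gV_adj (hk : 1 ≤ k) (V : Finset (Site d k)) (x : Site d k) (σ : Stp d) :
    (gV V).Adj x (x + sv σ) ↔ x ∈ V ∧ x + sv σ ∈ V := by
  constructor
  · rintro ⟨-, hx, hy, -⟩
    exact ⟨hx, hy⟩
  · rintro ⟨hx, hy⟩
    exact ⟨(step_ne hk x σ).symm, hx, hy, ⟨σ, rfl⟩, ⟨(σ.1, !σ.2), (step_back x σ).symm⟩⟩

theorem PrV_mono {V V' : Finset (Site d k)} (h : V ⊆ V') {f : Site d k → Fin q} (hf : PrV V' f) : PrV V f :=
  fun x hx σ hy => hf x (h hx) σ (h hy)

theorem cV_mono {V : Finset (Site d k)} {P P' : (Site d k → Fin q) → Prop} (h : ∀ f, PrV V f → P f → P' f) :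
    cV V P ≤ cV V P' := by
  classical
  unfold cV
  rw [Nat.cast_le]
  refine card_le_card fun f hf => ?_
  rw [mem_filter] at hf ⊢
  exact ⟨hf.1, hf.2.1, h f hf.2.1 hf.2.2⟩

private theorem cV_antiV01 {V V' : Finset (Site d k)} (h : V ⊆ V') (P : (Site d k → Fin q) → Prop) :
    cV V' P ≤ cV V P := by
  classical
  unfold cV
  rw [Nat.cast_le]
  refine card_le_card fun f hf => ?_
  rw [mem_filter] at hf ⊢
  exact ⟨hf.1, PrV_mono h hf.2.1, hf.2.2⟩

theorem ZV_mono {V V' : Finset (Site d k)} (h : V ⊆ V') : ZV q V' ≤ ZV q V :=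
  cV_antiV01 h _

/-- `PrV univ` is properness on the torus -/
theorem prV_univ (f : Site d k → Fin q) : PrV univ f ↔ Prp f :=
  ⟨fun h x σ => h x (mem_univ _) σ (mem_univ _), fun h x _ σ _ => h x σ⟩

end Pool.Agent.COR

end

/-! ### from `Lib_MP_2c424f_lc2.A05` -/

section

/-!
# LC2 A05: the charts of the tiles

Coordinatewise.  `n = 2^(k+1)` is the side of the torus, `2^s` the side of the tiles, `1 ≤ s ≤ k` (so the number `2^(k+1-s)` of the
tiles in a direction is even and `n ≥ 2 · 2^s`).  If `T i` is even the coordinate of `un T u` is `2^s T i + u i`, otherwise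
`2^s (T i + 1) - u i` (value `n ≡ 0` is possible).
* `un_bpt`: `2^s (T i + 1) - (2 t i + a + b) = 2 (2^s/2 (T i + 1) - 1 - t i) + (1 - a) + (1 - b)`.
* `un_glue`: if `un T u = un T' u'` then `u = u'` (fold map).
* `un_mem`: every site is `un T u` for some `T`, `u`.
* `un_adj`: neighbours in the box are neighbours on the torus; `un_nbr`: for `u` at distance `≥ 1` from the boundary all
  neighbours on the torus are in the tile.
-/

set_option autoImplicit false

open Finset Filter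

namespace Pool.Agent.LC

open Pool.Agent.LO Pool.Agent.LIN Pool.Agent.THR Pool.Agent.COR

/-! ### one coordinate -/

/-- the chart in one coordinate -/
private def A05_c (L T u : ℕ) : ℕ := if T % 2 = 1 then L * (T + 1) - u else L * T + u

private theorem A05_lo (L T u : ℕ) (hu : u ≤ L) : L * T ≤ A05_c L T u := by
  unfold A05_c
  split_ifs
  · rw [Nat.mul_add]; omega
  · omega

private theorem A05_hi (L T u : ℕ) (hu : u ≤ L) : A05_c L T u ≤ L * T + L := by
  unfold A05_c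
  split_ifs
  · rw [Nat.mul_add]; omega
  · omega

private theorem A05_fold (L T u : ℕ) (hL : 1 ≤ L) (hu : u ≤ L) :
    (if A05_c L T u % (2 * L) ≤ L then A05_c L T u % (2 * L) else 2 * L - A05_c L T u % (2 * L)) = u := by
  rcases Nat.even_or_odd' T with ⟨t, ht | ht⟩
  · have h1 : A05_c L T u = 2 * L * t + u := by
      unfold A05_c
      rw [if_neg (by omega), ht]
      ring
    rw [h1, Nat.mul_add_mod, Nat.mod_eq_of_lt (by omega : u < 2 * L), if_pos hu]
  · rcases Nat.eq_zero_or_pos u with h0 | h0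
    · have h1 : A05_c L T u = 2 * L * (t + 1) := by
        unfold A05_c
        rw [if_pos (by omega), ht, h0, Nat.sub_zero]
        ring
      rw [h1, Nat.mul_mod_right, if_pos (Nat.zero_le _), h0]
    · have h1 : A05_c L T u = 2 * L * t + (2 * L - u) := by
        unfold A05_c
        rw [if_pos (by omega), ht]
        have h2 : L * (2 * t + 1 + 1) = 2 * L * t + 2 * L := by ring
        rw [h2]
        omega
      rw [h1, Nat.mul_add_mod, Nat.mod_eq_of_lt (by omega : 2 * L - u < 2 * L)]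
      split_ifs <;> omega

private theorem A05_glue (L m T T' u u' : ℕ) (hL : 1 ≤ L) (hu : u ≤ L) (hu' : u' ≤ L)
    (h : A05_c L T u ≡ A05_c L T' u' [MOD L * (2 * m)]) : u = u' := by
  have h1 : A05_c L T u ≡ A05_c L T' u' [MOD 2 * L] := h.of_dvd ⟨m, by ring⟩
  have h2 := A05_fold L T u hL hu
  have h3 := A05_fold L T' u' hL hu'
  rw [show A05_c L T u % (2 * L) = A05_c L T' u' % (2 * L) from h1, h3] at h2
  exact h2.symm

private theorem A05_tile (L M T T' u : ℕ) (h0 : 0 < u) (hu : u < L) (hT : T < M) (hT' : T' < M)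
    (h : A05_c L T u ≡ A05_c L T' u [MOD L * M]) : T = T' := by
  have e1 : ∀ S, L * S < A05_c L S u ∧ A05_c L S u < L * S + L := by
    intro S
    unfold A05_c
    split_ifs
    · rw [Nat.mul_add]; omega
    · omega
  have e2 : ∀ S, S < M → A05_c L S u < L * M := by
    intro S hS
    have := Nat.mul_le_mul_left L (show S + 1 ≤ M from hS)
    rw [Nat.mul_add] at this
    have := (e1 S).2
    omega
  have h1 := Nat.ModEq.eq_of_lt_of_lt h (e2 T hT) (e2 T' hT')
  rcases Nat.lt_trichotomy T T' with h2 | h2 | h2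
  · have h3 := Nat.mul_le_mul_left L (show T + 1 ≤ T' from h2)
    rw [Nat.mul_add] at h3
    have h4 := (e1 T).2
    have h5 := (e1 T').1
    omega
  · exact h2
  · have h3 := Nat.mul_le_mul_left L (show T' + 1 ≤ T from h2)
    rw [Nat.mul_add] at h3
    have h4 := (e1 T').2
    have h5 := (e1 T).1
    omega

private theorem A05_step (L m T u u' : ℕ) (hL : 2 ≤ L) (hm : 1 ≤ m) (hu : u ≤ L) (hu' : u' ≤ L)
    (h : A05_c L T u' ≡ A05_c L T u + 1 [MOD L * (2 * m)]) : u' = u + 1 ∨ u = u' + 1 := by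
  have hn : 2 * L ≤ L * (2 * m) := by nlinarith
  have a1 := A05_lo L T u hu
  have a2 := A05_hi L T u hu
  have a3 := A05_lo L T u' hu'
  have a4 := A05_hi L T u' hu'
  have key : A05_c L T u' = A05_c L T u + 1 := by
    rcases Nat.le_total (A05_c L T u + 1) (A05_c L T u') with h1 | h1
    · have h2 := (Nat.modEq_iff_dvd' h1).1 h.symm
      rcases Nat.eq_zero_or_pos (A05_c L T u' - (A05_c L T u + 1)) with h3 | h3
      · omega
      · have := Nat.le_of_dvd h3 h2
        omega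
    · have h2 := (Nat.modEq_iff_dvd' h1).1 h
      rcases Nat.eq_zero_or_pos (A05_c L T u + 1 - A05_c L T u') with h3 | h3
      · omega
      · have := Nat.le_of_dvd h3 h2
        omega
  unfold A05_c at key
  split_ifs at key
  · rw [Nat.mul_add] at key
    omega
  · omega

/-- moving by one inside a tile -/
private theorem A05_mv (L T u u' : ℕ) (hu : u ≤ L) (hu' : u' ≤ L) (h : u' = u + 1 ∨ u = u' + 1) :
    A05_c L T u' = A05_c L T u + 1 ∨ A05_c L T u = A05_c L T u' + 1 := by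
  unfold A05_c
  split_ifs
  · rw [Nat.mul_add]
    omega
  · omega

private theorem A05_nb (L T u : ℕ) (h1 : 1 ≤ u) (h2 : u + 1 ≤ L) (e : Bool) : ∃ v, v ≤ L ∧
    ((e = true → A05_c L T v = A05_c L T u + 1) ∧ (e = false → A05_c L T v + 1 = A05_c L T u)) := by
  by_cases hp : T % 2 = 1
  · cases e
    · refine ⟨u + 1, h2, fun h => Bool.noConfusion h, fun _ => ?_⟩
      unfold A05_c
      rw [if_pos hp, if_pos hp, Nat.mul_add]
      omega
    · refine ⟨u - 1, by omega, fun _ => ?_, fun h => Bool.noConfusion h⟩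
      unfold A05_c
      rw [if_pos hp, if_pos hp, Nat.mul_add]
      omega
  · cases e
    · refine ⟨u - 1, by omega, fun h => Bool.noConfusion h, fun _ => ?_⟩
      unfold A05_c
      rw [if_neg hp, if_neg hp]
      omega
    · refine ⟨u + 1, h2, fun _ => ?_, fun h => Bool.noConfusion h⟩
      unfold A05_c
      rw [if_neg hp, if_neg hp]
      omega

private theorem A05_par (h T u : ℕ) (hu : u ≤ 2 * h) : A05_c (2 * h) T u % 2 = u % 2 := by
  unfold A05_c
  split_ifs
  · have h1 : 2 * h * (T + 1) = 2 * (h * T) + 2 * h := by ring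
    rw [h1]
    omega
  · have h1 : 2 * h * T = 2 * (h * T) := by ring
    rw [h1]
    omega

/-- the powers of two -/
private theorem A05_pow {k s : ℕ} (hs : 1 ≤ s) (hk : s ≤ k) : ∃ h m : ℕ, 2 ^ s = 2 * h ∧ 2 ^ (k + 1 - s) = 2 * m ∧
    2 ^ (k + 1) = 2 ^ s * (2 * m) ∧ 2 ^ k = h * (2 * m) ∧ 1 ≤ h ∧ 1 ≤ m ∧ 2 ^ s / 2 = h := by
  obtain ⟨a, rfl⟩ : ∃ a, s = a + 1 := ⟨s - 1, by omega⟩
  obtain ⟨b, rfl⟩ : ∃ b, k = a + 1 + b := ⟨k - (a + 1), by omega⟩
  refine ⟨2 ^ a, 2 ^ b, by ring, ?_, by ring, by ring, Nat.one_le_two_pow, Nat.one_le_two_pow, ?_⟩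
  · rw [show a + 1 + b + 1 - (a + 1) = b + 1 by omega]
    ring
  · rw [pow_succ]
    omega

private theorem A05_un {d k s : ℕ} (T : Fin d → Fin (2 ^ (k + 1 - s))) (u : BxV d (2 ^ s)) (i : Fin d) :
    un (k := k) T u i = ((A05_c (2 ^ s) (T i).val (u i).val : ℕ) : ZMod (2 ^ (k + 1))) := by
  rfl

private theorem A05_le {d s : ℕ} (u : BxV d (2 ^ s)) (i : Fin d) : (u i).val ≤ 2 ^ s := by
  have := (u i).isLt
  omega

private theorem A05_sur {k s : ℕ} (hs : 1 ≤ s) (hk : s ≤ k) (x : ZMod (2 ^ (k + 1))) :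
    ∃ (T : Fin (2 ^ (k + 1 - s))) (u u' : Fin (2 ^ s + 1)),
      ((A05_c (2 ^ s) T.val u.val : ℕ) : ZMod (2 ^ (k + 1))) = x ∧
      ((A05_c (2 ^ s) T.val u'.val : ℕ) : ZMod (2 ^ (k + 1))) = x + 1 ∧
      (u.val + 1 = u'.val ∨ u'.val + 1 = u.val) := by
  obtain ⟨h, m, e1, e2, e3, e4, e5, e6, e7⟩ := A05_pow hs hk
  have hpos : 0 < 2 ^ s := by positivity
  have hv : x.val < 2 ^ s * (2 * m) := by
    rw [← e3]
    exact ZMod.val_lt x
  have hT : x.val / 2 ^ s < 2 ^ (k + 1 - s) := by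
    rw [e2]
    exact Nat.div_lt_of_lt_mul hv
  have hdm : 2 ^ s * (x.val / 2 ^ s) + x.val % 2 ^ s = x.val := Nat.div_add_mod _ _
  have hr : x.val % 2 ^ s < 2 ^ s := Nat.mod_lt _ hpos
  have hx : ((x.val : ℕ) : ZMod (2 ^ (k + 1))) = x := ZMod.natCast_zmod_val x
  by_cases hp : (x.val / 2 ^ s) % 2 = 1
  · refine ⟨⟨x.val / 2 ^ s, hT⟩, ⟨2 ^ s - x.val % 2 ^ s, by omega⟩, ⟨2 ^ s - x.val % 2 ^ s - 1, by omega⟩, ?_, ?_, ?_⟩
    · have h1 : A05_c (2 ^ s) (x.val / 2 ^ s) (2 ^ s - x.val % 2 ^ s) = x.val := by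
        unfold A05_c
        rw [if_pos hp, Nat.mul_add]
        omega
      rw [h1, hx]
    · have h1 : A05_c (2 ^ s) (x.val / 2 ^ s) (2 ^ s - x.val % 2 ^ s - 1) = x.val + 1 := by
        unfold A05_c
        rw [if_pos hp, Nat.mul_add]
        omega
      rw [h1, Nat.cast_add, hx, Nat.cast_one]
    · right
      show 2 ^ s - x.val % 2 ^ s - 1 + 1 = 2 ^ s - x.val % 2 ^ s
      omega
  · refine ⟨⟨x.val / 2 ^ s, hT⟩, ⟨x.val % 2 ^ s, by omega⟩, ⟨x.val % 2 ^ s + 1, by omega⟩, ?_, ?_, ?_⟩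
    · have h1 : A05_c (2 ^ s) (x.val / 2 ^ s) (x.val % 2 ^ s) = x.val := by
        unfold A05_c
        rw [if_neg hp]
        omega
      rw [h1, hx]
    · have h1 : A05_c (2 ^ s) (x.val / 2 ^ s) (x.val % 2 ^ s + 1) = x.val + 1 := by
        unfold A05_c
        rw [if_neg hp]
        omega
      rw [h1, Nat.cast_add, hx, Nat.cast_one]
    · left
      rfl

/-! ### the statements -/

theorem un_bpt {d k s : ℕ} (hs : 1 ≤ s) (hk : s ≤ k) (T : Fin d → Fin (2 ^ (k + 1 - s)))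
    (t : Fin d → Fin (2 ^ s / 2)) (a b : Bt d) : un T (bpt t a b) = pt (unB T t) (xr (tb T) a) (xr (tb T) b) := by
  obtain ⟨h, m, e1, e2, e3, e4, e5, e6, e7⟩ := A05_pow hs hk
  funext i
  have ht : (t i).val < h := by
    have := (t i).isLt
    omega
  have hT : (T i).val < 2 * m := by
    have := (T i).isLt
    omega
  have hT2 : h * (T i).val + h ≤ 2 ^ k := by
    rw [e4]
    have := Nat.mul_le_mul_left h (show (T i).val + 1 ≤ 2 * m from hT)
    rw [Nat.mul_add] at this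
    omega
  have hval : ((unB (k := k) T t i).val : ℕ) =
      (if (T i).val % 2 = 1 then h * ((T i).val + 1) - 1 - (t i).val else h * (T i).val + (t i).val) := by
    unfold unB
    generalize (t i).val = r at ht
    rw [e7]
    apply ZMod.val_natCast_of_lt
    split_ifs
    · rw [Nat.mul_add]
      omega
    · omega
  have hb : ∀ c : Bool, b01 c ≤ 1 := by
    intro c
    cases c <;> simp [b01]
  rw [A05_un]
  show _ = bas (unB T t) i + bv (xr (tb T) a) i + bv (xr (tb T) b) i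
  unfold bas bv
  rw [hval]
  have hbp : ((bpt t a b i).val : ℕ) = 2 * (t i).val + b01 (a i) + b01 (b i) := rfl
  have h3 : 2 ^ s * (T i).val = 2 * (h * (T i).val) := by
    rw [e1]
    ring
  rw [hbp]
  by_cases hp : (T i).val % 2 = 1
  · rw [if_pos hp]
    have hx : ∀ c : Bt d, (if xr (tb T) c i = true then (1 : ZMod (2 ^ (k + 1))) else 0) =
        ((1 - b01 (c i) : ℕ) : ZMod (2 ^ (k + 1))) := by
      intro c
      unfold xr tb b01
      cases c i <;> simp [hp]
    rw [hx a, hx b, ← Nat.cast_add, ← Nat.cast_add]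
    congr 1
    unfold A05_c
    rw [if_pos hp]
    rw [Nat.mul_add, Nat.mul_add, h3]
    have := hb (a i)
    have := hb (b i)
    omega
  · rw [if_neg hp]
    have hx : ∀ c : Bt d, (if xr (tb T) c i = true then (1 : ZMod (2 ^ (k + 1))) else 0) =
        ((b01 (c i) : ℕ) : ZMod (2 ^ (k + 1))) := by
      intro c
      unfold xr tb b01
      cases c i <;> simp [hp]
    rw [hx a, hx b, ← Nat.cast_add, ← Nat.cast_add]
    congr 1
    unfold A05_c
    rw [if_neg hp, h3]
    omega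

theorem un_glue {d k s : ℕ} (hs : 1 ≤ s) (hk : s ≤ k) (T T' : Fin d → Fin (2 ^ (k + 1 - s))) (u u' : BxV d (2 ^ s))
    (h : un (k := k) T u = un T' u') : u = u' := by
  obtain ⟨h', m, e1, e2, e3, e4, e5, e6, e7⟩ := A05_pow hs hk
  funext i
  have h1 := congrFun h i
  rw [A05_un, A05_un, ZMod.natCast_eq_natCast_iff, e3] at h1
  exact Fin.ext (A05_glue _ m _ _ _ _ (by omega) (A05_le u i) (A05_le u' i) h1)

theorem un_bdy {d k s : ℕ} (hs : 1 ≤ s) (hk : s ≤ k) (T T' : Fin d → Fin (2 ^ (k + 1 - s))) (u u' : BxV d (2 ^ s))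
    (h : un (k := k) T u = un T' u') : T = T' ∨ u ∈ bdy d (2 ^ s) := by
  obtain ⟨h', m, e1, e2, e3, e4, e5, e6, e7⟩ := A05_pow hs hk
  have hu := un_glue hs hk T T' u u' h
  subst hu
  by_cases hb : u ∈ bdy d (2 ^ s)
  · exact Or.inr hb
  · left
    funext i
    have hi : ¬ ((u i).val = 0 ∨ (u i).val = 2 ^ s) := by
      intro h0
      exact hb (by unfold bdy; rw [Finset.mem_filter]; exact ⟨Finset.mem_univ _, i, h0⟩)
    have h1 := congrFun h i
    rw [A05_un, A05_un, ZMod.natCast_eq_natCast_iff, e3] at h1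
    have hle := A05_le u i
    have hT := (T i).isLt
    have hT' := (T' i).isLt
    exact Fin.ext (A05_tile (2 ^ s) (2 * m) _ _ (u i).val (by omega) (by omega) (by omega) (by omega) h1)

theorem un_mem {d k s : ℕ} (hs : 1 ≤ s) (hk : s ≤ k) (x : Site d (k + 1)) :
    ∃ (T : Fin d → Fin (2 ^ (k + 1 - s))) (u : BxV d (2 ^ s)), un T u = x := by
  choose T u u' h1 _ _ using fun i => A05_sur hs hk (x i)
  exact ⟨T, u, funext fun i => (A05_un T u i).trans (h1 i)⟩

/-- edges in the direction `+` -/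
private theorem A05_edge {d k s : ℕ} (hs : 1 ≤ s) (hk : s ≤ k) (x : Site d (k + 1)) (j : Fin d) :
    ∃ (T : Fin d → Fin (2 ^ (k + 1 - s))) (u u' : BxV d (2 ^ s)), un T u = x ∧ un T u' = x + sv (j, true) ∧
      (bG d (2 ^ s)).Adj u u' := by
  choose T u u' h1 h2 h3 using fun i => A05_sur hs hk (x i)
  refine ⟨T, u, Function.update u j (u' j), funext fun i => (A05_un T u i).trans (h1 i), ?_, ?_⟩
  · funext i
    rw [A05_un]
    by_cases hij : i = j
    · subst hij
      rw [Function.update_self, h2]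
      simp [sv]
    · rw [Function.update_of_ne hij, h1]
      simp [sv, hij]
  · refine ⟨j, fun i hi => ?_, ?_⟩
    · rw [Function.update_of_ne hi]
    · rw [Function.update_self]
      exact h3 j

/-- an edge of the torus lies in a tile -/
theorem un_edge {d k s : ℕ} (hs : 1 ≤ s) (hk : s ≤ k) (x : Site d (k + 1)) (σ : Stp d) :
    ∃ (T : Fin d → Fin (2 ^ (k + 1 - s))) (u u' : BxV d (2 ^ s)), un T u = x ∧ un T u' = x + sv σ ∧
      (bG d (2 ^ s)).Adj u u' := by
  obtain ⟨j, e⟩ := σ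
  cases e
  · obtain ⟨T, u, u', h1, h2, h3⟩ := A05_edge hs hk (x + sv (j, false)) j
    refine ⟨T, u', u, ?_, h1, h3.symm⟩
    rw [h2]
    funext i
    by_cases hij : i = j
    · subst hij
      simp [sv]
    · simp [sv, hij]
  · exact A05_edge hs hk x j

/-- the step of the torus belonging to a step of the box -/
private theorem A05_box {d k s : ℕ} (hk : s ≤ k) (T : Fin d → Fin (2 ^ (k + 1 - s))) (u u' : BxV d (2 ^ s))
    (i : Fin d) (h : ∀ j, j ≠ i → u j = u' j) (h' : (u i).val + 1 = (u' i).val ∨ (u' i).val + 1 = (u i).val) :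
    ∃ e : Bool, un (k := k) T u' = un T u + sv (i, e) := by
  have hm := A05_mv (2 ^ s) (T i).val (u i).val (u' i).val (A05_le u i) (A05_le u' i)
    (by rcases h' with h' | h'
        · exact Or.inl h'.symm
        · exact Or.inr h'.symm)
  have ho : ∀ (e : Bool) (j : Fin d), j ≠ i → un (k := k) T u' j = (un T u + sv (i, e) : Site d (k + 1)) j := by
    intro e j hj
    rw [A05_un, Pi.add_apply, A05_un, h j hj]
    simp [sv, hj]
  rcases hm with hm | hm
  · refine ⟨true, funext fun j => ?_⟩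
    by_cases hj : j = i
    · subst hj
      rw [A05_un, Pi.add_apply, A05_un, hm, Nat.cast_add, Nat.cast_one]
      simp [sv]
    · exact ho true j hj
  · refine ⟨false, funext fun j => ?_⟩
    by_cases hj : j = i
    · subst hj
      rw [A05_un, Pi.add_apply, A05_un, hm, Nat.cast_add, Nat.cast_one]
      simp [sv]
    · exact ho false j hj

theorem un_adj {d k s : ℕ} (hs : 1 ≤ s) (hk : s ≤ k) (T : Fin d → Fin (2 ^ (k + 1 - s))) (u u' : BxV d (2 ^ s)) :
    (tG d (k + 1)).Adj (un T u) (un T u') ↔ (bG d (2 ^ s)).Adj u u' := by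
  obtain ⟨h', m, e1, e2, e3, e4, e5, e6, e7⟩ := A05_pow hs hk
  constructor
  · intro h
    obtain ⟨σ, hσ⟩ := h.2.2.2.1
    refine ⟨σ.1, fun j hj => ?_, ?_⟩
    · have h1 := congrFun hσ j
      rw [Pi.add_apply, show (sv σ : Site d (k + 1)) j = 0 by simp [sv, hj], add_zero, A05_un, A05_un,
        ZMod.natCast_eq_natCast_iff, e3] at h1
      exact (Fin.ext (A05_glue _ m _ _ _ _ (by omega) (A05_le u' j) (A05_le u j) h1)).symm
    · have h1 := congrFun hσ σ.1
      rw [Pi.add_apply, A05_un, A05_un] at h1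
      obtain ⟨i, e⟩ := σ
      cases e
      · have h2 : ((A05_c (2 ^ s) (T i).val (u i).val : ℕ) : ZMod (2 ^ (k + 1))) =
            ((A05_c (2 ^ s) (T i).val (u' i).val + 1 : ℕ) : ZMod (2 ^ (k + 1))) := by
          have h3 : (sv (i, false) : Site d (k + 1)) i = -1 := by simp [sv]
          rw [h3] at h1
          rw [Nat.cast_add, Nat.cast_one, h1]
          ring
        rw [ZMod.natCast_eq_natCast_iff, e3] at h2
        rcases A05_step (2 ^ s) m (T i).val (u' i).val (u i).val (by omega) e6 (A05_le u' i) (A05_le u i) h2 with h4 | h4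
        · exact Or.inr h4.symm
        · exact Or.inl h4.symm
      · have h2 : ((A05_c (2 ^ s) (T i).val (u' i).val : ℕ) : ZMod (2 ^ (k + 1))) =
            ((A05_c (2 ^ s) (T i).val (u i).val + 1 : ℕ) : ZMod (2 ^ (k + 1))) := by
          have h3 : (sv (i, true) : Site d (k + 1)) i = 1 := by simp [sv]
          rw [h3] at h1
          rw [Nat.cast_add, Nat.cast_one, h1]
        rw [ZMod.natCast_eq_natCast_iff, e3] at h2
        rcases A05_step (2 ^ s) m (T i).val (u i).val (u' i).val (by omega) e6 (A05_le u i) (A05_le u' i) h2 with h4 | h4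
        · exact Or.inl h4.symm
        · exact Or.inr h4.symm
  · rintro ⟨i, h, h1⟩
    obtain ⟨e, he⟩ := A05_box hk T u u' i h h1
    rw [he]
    exact (gV_adj (by omega : 1 ≤ k + 1) univ (un T u) (i, e)).2 ⟨Finset.mem_univ _, Finset.mem_univ _⟩

theorem un_nbr {d k s : ℕ} (hs : 1 ≤ s) (hk : s ≤ k) (T : Fin d → Fin (2 ^ (k + 1 - s))) (u : BxV d (2 ^ s))
    (hu : inn 1 u) (x : Site d (k + 1)) (hx : (tG d (k + 1)).Adj (un T u) x) : ∃ u', x = un T u' := by
  obtain ⟨⟨i, e⟩, hσ⟩ := hx.2.2.2.1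
  obtain ⟨v, hv, h1⟩ := A05_nb (2 ^ s) (T i).val (u i).val (hu i).1 (hu i).2 e
  refine ⟨Function.update u i ⟨v, by omega⟩, hσ.trans (funext fun j => ?_)⟩
  rw [A05_un, Pi.add_apply, A05_un]
  by_cases hj : j = i
  · subst hj
    rw [Function.update_self]
    cases e
    · rw [← h1.2 rfl, Nat.cast_add, Nat.cast_one]
      simp [sv]
    · rw [h1.1 rfl, Nat.cast_add, Nat.cast_one]
      simp [sv]
  · rw [Function.update_of_ne hj]
    simp [sv, hj]

theorem un_evn {d k s : ℕ} (hs : 1 ≤ s) (hk : s ≤ k) (T : Fin d → Fin (2 ^ (k + 1 - s))) (u : BxV d (2 ^ s)) :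
    evn (un (k := k) T u) ↔ bev u := by
  obtain ⟨h, m, e1, e2, e3, e4, e5, e6, e7⟩ := A05_pow hs hk
  have hi : ∀ i, (un (k := k) T u i).val % 2 = (u i).val % 2 := by
    intro i
    have hle := A05_le u i
    rw [A05_un, ZMod.val_natCast]
    generalize (u i).val = v at hle
    rw [e3, show 2 ^ s * (2 * m) = 2 * (2 ^ s * m) by ring, Nat.mod_mul_right_mod, e1]
    rw [e1] at hle
    exact A05_par h _ _ hle
  unfold evn bev
  rw [Nat.even_iff, Nat.even_iff, Finset.sum_nat_mod, Finset.sum_nat_mod univ 2 fun i => (u i).val]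
  simp only [hi]

/-- the blocks of the tiles -/
theorem unB_bij {d k s : ℕ} (hs : 1 ≤ s) (hk : s ≤ k) : Function.Bijective
    (fun p : (Fin d → Fin (2 ^ (k + 1 - s))) × (Fin d → Fin (2 ^ s / 2)) => (unB p.1 p.2 : Blk d k)) := by
  obtain ⟨h, m, e1, e2, e3, e4, e5, e6, e7⟩ := A05_pow hs hk
  have hT : ∀ T : Fin (2 ^ (k + 1 - s)), h * T.val + h ≤ 2 ^ k := by
    intro T
    have h1 := T.isLt
    rw [e4]
    have := Nat.mul_le_mul_left h (show T.val + 1 ≤ 2 * m by omega)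
    rw [Nat.mul_add] at this
    omega
  have hval : ∀ (T : Fin d → Fin (2 ^ (k + 1 - s))) (t : Fin d → Fin (2 ^ s / 2)) (i : Fin d),
      ((unB (k := k) T t i).val : ℕ) =
      (if (T i).val % 2 = 1 then h * ((T i).val + 1) - 1 - (t i).val else h * (T i).val + (t i).val) := by
    intro T t i
    have ht := (t i).isLt
    have hT := hT (T i)
    unfold unB
    generalize (t i).val = r at ht
    rw [e7] at ht ⊢
    apply ZMod.val_natCast_of_lt
    split_ifs
    · rw [Nat.mul_add]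
      omega
    · omega
  constructor
  · rintro ⟨T, t⟩ ⟨T', t'⟩ he
    have he' : ∀ i, T i = T' i ∧ t i = t' i := by
      intro i
      have h1 := congrArg ZMod.val (congrFun he i)
      simp only at h1
      rw [hval, hval] at h1
      have ht := (t i).isLt
      have ht' := (t' i).isLt
      have key : (T i).val = (T' i).val := by
        rcases Nat.lt_trichotomy (T i).val (T' i).val with h2 | h2 | h2
        · have h3 := Nat.mul_le_mul_left h (show (T i).val + 1 ≤ (T' i).val from h2)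
          rw [Nat.mul_add] at h3
          split_ifs at h1 <;> (try simp only [Nat.mul_add] at h1) <;> omega
        · exact h2
        · have h3 := Nat.mul_le_mul_left h (show (T' i).val + 1 ≤ (T i).val from h2)
          rw [Nat.mul_add] at h3
          split_ifs at h1 <;> (try simp only [Nat.mul_add] at h1) <;> omega
      refine ⟨Fin.ext key, Fin.ext ?_⟩
      rw [key] at h1
      split_ifs at h1 <;> (try simp only [Nat.mul_add] at h1) <;> omega
    exact Prod.ext (funext fun i => (he' i).1) (funext fun i => (he' i).2)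
  · intro b
    have hh : 0 < h := e5
    have hT' : ∀ i, (b i).val / h < 2 ^ (k + 1 - s) := by
      intro i
      rw [e2]
      apply Nat.div_lt_of_lt_mul
      rw [← e4]
      exact ZMod.val_lt _
    have hr : ∀ i, (b i).val % h < h := fun i => Nat.mod_lt _ hh
    have ht' : ∀ i, (if (b i).val / h % 2 = 1 then h - 1 - (b i).val % h else (b i).val % h) < 2 ^ s / 2 := by
      intro i
      have := hr i
      split_ifs <;> omega
    refine ⟨(fun i => ⟨(b i).val / h, hT' i⟩, fun i => ⟨_, ht' i⟩), funext fun i => ?_⟩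
    apply ZMod.val_injective
    simp only
    rw [hval]
    simp only
    have hdm := Nat.div_add_mod (b i).val h
    have := hr i
    split_ifs
    · rw [Nat.mul_add]
      omega
    · omega

theorem card_bdy (d l : ℕ) (hl : 1 ≤ l) : (bdy d l).card = (l + 1) ^ d - (l - 1) ^ d := by
  classical
  have h1 : (bdy d l) = univ \ (Fintype.piFinset fun _ : Fin d => univ.filter fun a : Fin (l + 1) => a.val ≠ 0 ∧ a.val ≠ l) := by
    ext u
    simp only [bdy, Finset.mem_filter, Finset.mem_univ, true_and, Finset.mem_sdiff, Fintype.mem_piFinset, not_forall,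
      not_and_or, ne_eq, not_not]
  have h2 : (univ.filter fun a : Fin (l + 1) => a.val ≠ 0 ∧ a.val ≠ l).card = l - 1 := by
    have h3 : (univ.filter fun a : Fin (l + 1) => a.val ≠ 0 ∧ a.val ≠ l) = univ \ {0, Fin.last l} := by
      ext a
      simp only [Finset.mem_filter, Finset.mem_univ, true_and, Finset.mem_sdiff, Finset.mem_insert, Finset.mem_singleton,
        Fin.ext_iff, Fin.val_zero, Fin.val_last, not_or, ne_eq]
    rw [h3, Finset.card_sdiff_of_subset (Finset.subset_univ _), Finset.card_univ, Fintype.card_fin,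
      Finset.card_pair]
    · omega
    · intro h4
      have := congrArg Fin.val h4
      simp at this
      omega
  rw [h1, Finset.card_sdiff_of_subset (Finset.subset_univ _), Finset.card_univ, Fintype.card_piFinset]
  simp only [h2, Finset.prod_const, Finset.card_univ, Fintype.card_fin, Fintype.card_fun]

end Pool.Agent.LC

end

/-! ### from `Lib_MP_2c424f_lc2.A09` -/

section

/-!
# LC2 A09: the box event in all tiles

`M` tiles, `n' = 2^s / 2` blocks per direction in a tile, `M n'^d = (2^k)^d`.  For every tile the first or the second alternative of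
`EvB` holds; so one of the two holds in at least half of the tiles.
* first: the pattern of the block `t` of the tile `T` is `rP (tb T) (pat f (unB T t))` (`un_bpt`, `xr_xr`), so `GDP` is the same
  (`GDP_rP`); sum over the tiles with `unB_bij`.
* second: the same for `G0P`, `ALP`; at points with `inn 3` `Ty_map` applies with `κ = un T` (`un_glue`, `un_adj`, `un_nbr`: all
  points within distance 2 are at distance `≥ 1` from the boundary; `un_evn`), and `un T (bpt t a b) = pt (unB T t) (xr ..) (xr ..)`; the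
  map `(T, t, a, b) ↦ (unB T t, xr (tb T) a, xr (tb T) b)` is injective.
`2 / d^(K+1) ≤ 1 / d^K` for `d ≥ 2`.
-/

set_option autoImplicit false

open Finset Filter

namespace Pool.Agent.LC

open Pool.Agent.LO Pool.Agent.LIN Pool.Agent.THR Pool.Agent.COR

private theorem A09_sum {ι : Type*} [Fintype ι] {x : ℝ} {g : ι → ℝ} {S : Finset ι} (hS : S.Nonempty)
    (h : ∀ T ∈ S, x < g T) (h0 : ∀ T, 0 ≤ g T) : (S.card : ℝ) * x < ∑ T, g T := by
  have h1 : (S.card : ℝ) * x = ∑ _T ∈ S, x := by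
    rw [Finset.sum_const, nsmul_eq_mul]
  have h2 : ∑ _T ∈ S, x < ∑ T ∈ S, g T := Finset.sum_lt_sum_of_nonempty hS h
  have h3 : ∑ T ∈ S, g T ≤ ∑ T, g T :=
    Finset.sum_le_sum_of_subset_of_nonneg (Finset.subset_univ S) fun T _ _ => h0 T
  linarith

private theorem A09_arith {d k s K : ℕ} (hd : 2 ≤ d) (hs : 1 ≤ s) (hk : s ≤ k) {c : ℝ}
    (hc : ((2 : ℝ) ^ (k + 1 - s)) ^ d ≤ 2 * c) {w : ℝ} (hw : 0 ≤ w) :
    w * (2 ^ k) ^ d / (d : ℝ) ^ (K + 1) ≤ c * (w * ((2 ^ s / 2 : ℕ) : ℝ) ^ d / (d : ℝ) ^ K) := by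
  obtain ⟨r, rfl⟩ : ∃ r, s = r + 1 := ⟨s - 1, by omega⟩
  have e1 : (2 ^ (r + 1) / 2 : ℕ) = 2 ^ r := by
    rw [pow_succ]
    omega
  rw [e1]
  push_cast
  have e2 : ((2 : ℝ) ^ k) ^ d = ((2 : ℝ) ^ (k + 1 - (r + 1))) ^ d * ((2 : ℝ) ^ r) ^ d := by
    rw [← mul_pow, ← pow_add]
    congr 2
    omega
  have hd0 : (0 : ℝ) < d := by
    have : 0 < d := by omega
    exact_mod_cast this
  have hd2 : (2 : ℝ) ≤ d := by exact_mod_cast hd
  have hK : (0 : ℝ) < (d : ℝ) ^ K := pow_pos hd0 K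
  have hr : (0 : ℝ) < ((2 : ℝ) ^ r) ^ d := by positivity
  rw [e2, pow_succ (d : ℝ) K, div_le_iff₀ (by positivity)]
  have e3 : c * (w * ((2 : ℝ) ^ r) ^ d / (d : ℝ) ^ K) * ((d : ℝ) ^ K * d) =
      c * w * ((2 : ℝ) ^ r) ^ d * d := by
    field_simp
  rw [e3]
  have hc0 : 0 ≤ c := by
    have : (0 : ℝ) < ((2 : ℝ) ^ (k + 1 - (r + 1))) ^ d := by positivity
    linarith
  have h1 : 2 * c ≤ d * c := mul_le_mul_of_nonneg_right hd2 hc0
  have h2 : ((2 : ℝ) ^ (k + 1 - (r + 1))) ^ d ≤ d * c := hc.trans h1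
  calc w * (((2 : ℝ) ^ (k + 1 - (r + 1))) ^ d * ((2 : ℝ) ^ r) ^ d)
      = (w * ((2 : ℝ) ^ r) ^ d) * ((2 : ℝ) ^ (k + 1 - (r + 1))) ^ d := by ring
    _ ≤ (w * ((2 : ℝ) ^ r) ^ d) * (d * c) := mul_le_mul_of_nonneg_left h2 (by positivity)
    _ = c * w * ((2 : ℝ) ^ r) ^ d * d := by ring

private theorem A09_pat {d k s q : ℕ} (hs : 1 ≤ s) (hk : s ≤ k) (f : Site d (k + 1) → Fin q)
    (T : Fin d → Fin (2 ^ (k + 1 - s))) (t : Fin d → Fin (2 ^ s / 2)) :
    (fun a b => f (un T (bpt t a b))) = rP (tb T) (pat f (unB T t)) := by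
  funext a b
  rw [un_bpt hs hk]
  rfl

private theorem A09_Ty {d k s q : ℕ} (hs : 1 ≤ s) (hk : s ≤ k) (f : Site d (k + 1) → Fin q)
    (T : Fin d → Fin (2 ^ (k + 1 - s))) (A : Finset (Fin q)) (u : BxV d (2 ^ s)) (hu : inn 3 u) :
    Ty d (tG d (k + 1)) evn A f (un T u) ↔ Ty d (bG d (2 ^ s)) bev A (fun w => f (un T w)) u := by
  have hinn : ∀ x, (bG d (2 ^ s)).Adj u x → inn 1 x := by
    rintro x ⟨i, hj, hi⟩ j
    by_cases hji : j = i
    · subst hji
      have := hu j
      rcases hi with hi | hi <;> constructor <;> omega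
    · have := hu j
      rw [← hj j hji]
      constructor <;> omega
  have hu1 : inn 1 u := fun j => ⟨by have := (hu j).1; omega, by have := (hu j).2; omega⟩
  have key : ∀ x, inn 1 x → ∀ v, (tG d (k + 1)).Adj (un T x) v ↔
      ∃ y, v = un T y ∧ (bG d (2 ^ s)).Adj x y := by
    intro x hx v
    constructor
    · intro hv
      obtain ⟨y, rfl⟩ := un_nbr hs hk T x hx v hv
      exact ⟨y, rfl, (un_adj hs hk T x y).1 hv⟩
    · rintro ⟨y, rfl, hy⟩
      exact (un_adj hs hk T x y).2 hy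
  exact Ty_map (bG d (2 ^ s)) (tG d (k + 1)) evn bev (un T)
    (fun x y hxy => un_glue hs hk T T x y hxy) (un_evn hs hk T) A f u (key u hu1)
    fun x hx => key x (hinn x hx)

open scoped Classical in
private theorem A09_first {d k s q : ℕ} (hs : 1 ≤ s) (hk : s ≤ k) (f : Site d (k + 1) → Fin q) :
    ∑ T : Fin d → Fin (2 ^ (k + 1 - s)), ((univ.filter fun t : Fin d → Fin (2 ^ s / 2) =>
      ¬ GDP (fun a b => f (un T (bpt t a b)))).card : ℝ) =
      ((univ.filter fun t : Blk d k => ¬ GDP (pat f t)).card : ℝ) := by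
  rw [← Nat.cast_sum, Nat.cast_inj, ← Finset.card_sigma]
  refine Finset.card_bij (fun p _ => (unB p.1 p.2 : Blk d k)) ?_ ?_ ?_
  · rintro ⟨T, t⟩ hp
    simp only [Finset.mem_sigma, Finset.mem_univ, true_and, Finset.mem_filter] at hp
    simp only [Finset.mem_filter, Finset.mem_univ, true_and]
    rwa [A09_pat hs hk, GDP_rP] at hp
  · rintro ⟨T, t⟩ _ ⟨T', t'⟩ _ h
    have := (unB_bij (d := d) hs hk).1 (a₁ := (T, t)) (a₂ := (T', t')) h
    simp only [Prod.mk.injEq] at this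
    obtain ⟨rfl, rfl⟩ := this
    rfl
  · intro b hb
    obtain ⟨⟨T, t⟩, rfl⟩ := (unB_bij (d := d) hs hk).2 b
    refine ⟨⟨T, t⟩, ?_, rfl⟩
    simp only [Finset.mem_filter, Finset.mem_univ, true_and] at hb
    simp only [Finset.mem_sigma, Finset.mem_univ, true_and, Finset.mem_filter]
    rwa [A09_pat hs hk, GDP_rP]

open scoped Classical in
private theorem A09_second {d k s q : ℕ} (hs : 1 ≤ s) (hk : s ≤ k) (f : Site d (k + 1) → Fin q) :
    ∑ T : Fin d → Fin (2 ^ (k + 1 - s)),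
      ((univ.filter fun p : (Fin d → Fin (2 ^ s / 2)) × Bt d × Bt d => inn 3 (bpt p.1 p.2.1 p.2.2) ∧
        G0P (fun a b => f (un T (bpt p.1 a b))) ∧
        ¬ Ty d (bG d (2 ^ s)) bev (ALP (fun a b => f (un T (bpt p.1 a b)))) (fun u => f (un T u))
          (bpt p.1 p.2.1 p.2.2)).card : ℝ) ≤ (nAt f : ℝ) := by
  rw [← Nat.cast_sum, Nat.cast_le, ← Finset.card_sigma]
  unfold nAt
  refine Finset.card_le_card_of_injOn
    (fun p => ((unB p.1 p.2.1 : Blk d k), xr (tb p.1) p.2.2.1, xr (tb p.1) p.2.2.2)) ?_ ?_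
  · rintro ⟨T, t, a, b⟩ hp
    simp only [Finset.coe_sigma, Set.mem_sigma_iff, Finset.coe_univ, Set.mem_univ, true_and,
      Finset.coe_filter, Finset.mem_univ, Set.mem_setOf_eq] at hp
    simp only [Finset.coe_filter, Finset.mem_univ, true_and, Set.mem_setOf_eq]
    obtain ⟨h1, h2, h3⟩ := hp
    rw [A09_pat hs hk, G0P_rP] at h2
    rw [A09_pat hs hk, ALP_rP, ← A09_Ty hs hk f T _ _ h1, un_bpt hs hk] at h3
    exact ⟨h2, h3⟩
  · rintro ⟨T, t, a, b⟩ _ ⟨T', t', a', b'⟩ _ h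
    simp only [Prod.mk.injEq] at h
    obtain ⟨h1, h2, h3⟩ := h
    have := (unB_bij (d := d) hs hk).1 (a₁ := (T, t)) (a₂ := (T', t')) h1
    simp only [Prod.mk.injEq] at this
    obtain ⟨rfl, rfl⟩ := this
    have h4 := congrArg (xr (tb T)) h2
    have h5 := congrArg (xr (tb T)) h3
    rw [xr_xr, xr_xr] at h4 h5
    rw [h4, h5]

open scoped Classical in
theorem EvB_torus {d k s q : ℕ} (hd : 2 ≤ d) (hs : 1 ≤ s) (hk : s ≤ k) (K : ℕ) (f : Site d (k + 1) → Fin q)
    (h : ∀ T : Fin d → Fin (2 ^ (k + 1 - s)), EvB K fun u : BxV d (2 ^ s) => f (un T u)) :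
    ((2 : ℝ) ^ k) ^ d / (d : ℝ) ^ (K + 1) < ((univ.filter fun t : Blk d k => ¬ GDP (pat f t)).card : ℝ) ∨
      (4 : ℝ) ^ d * (2 ^ k) ^ d / (d : ℝ) ^ (K + 1) < (nAt f : ℝ) := by
  set P : (Fin d → Fin (2 ^ (k + 1 - s))) → Prop := fun T =>
    (((2 ^ s / 2 : ℕ) : ℝ) ^ d / (d : ℝ) ^ K <
      ((univ.filter fun t : Fin d → Fin (2 ^ s / 2) => ¬ GDP (fun a b => f (un T (bpt t a b)))).card : ℝ))
    with hP
  have hcard : (Fintype.card (Fin d → Fin (2 ^ (k + 1 - s))) : ℝ) = ((2 : ℝ) ^ (k + 1 - s)) ^ d := by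
    rw [Fintype.card_fun, Fintype.card_fin, Fintype.card_fin]
    push_cast
    rfl
  have hsum : ((univ.filter P).card : ℝ) + ((univ.filter fun T => ¬ P T).card : ℝ) =
      ((2 : ℝ) ^ (k + 1 - s)) ^ d := by
    rw [← hcard, ← Nat.cast_add, Finset.card_filter_add_card_filter_not, Finset.card_univ]
  have hpos : (0 : ℝ) < ((2 : ℝ) ^ (k + 1 - s)) ^ d := by positivity
  by_cases hc : ((2 : ℝ) ^ (k + 1 - s)) ^ d ≤ 2 * ((univ.filter P).card : ℝ)
  · left
    have hne : (univ.filter P).Nonempty := by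
      rw [← Finset.card_pos]
      have : (0 : ℝ) < ((univ.filter P).card : ℝ) := by linarith
      exact_mod_cast this
    have h1 := A09_sum hne (fun T hT => (Finset.mem_filter.1 hT).2) fun T => Nat.cast_nonneg _
    rw [A09_first hs hk] at h1
    have h2 := A09_arith (K := K) hd hs hk hc (w := 1) zero_le_one
    rw [one_mul, one_mul] at h2
    exact h2.trans_lt h1
  · right
    rw [not_le] at hc
    have hc' : ((2 : ℝ) ^ (k + 1 - s)) ^ d ≤ 2 * ((univ.filter fun T => ¬ P T).card : ℝ) := by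
      linarith
    have hne : (univ.filter fun T => ¬ P T).Nonempty := by
      rw [← Finset.card_pos]
      have : (0 : ℝ) < ((univ.filter fun T => ¬ P T).card : ℝ) := by linarith
      exact_mod_cast this
    have h1 := A09_sum (x := 4 ^ d * ((2 ^ s / 2 : ℕ) : ℝ) ^ d / (d : ℝ) ^ K)
      (g := fun T => ((univ.filter fun p : (Fin d → Fin (2 ^ s / 2)) × Bt d × Bt d =>
        inn 3 (bpt p.1 p.2.1 p.2.2) ∧ G0P (fun a b => f (un T (bpt p.1 a b))) ∧
        ¬ Ty d (bG d (2 ^ s)) bev (ALP (fun a b => f (un T (bpt p.1 a b)))) (fun u => f (un T u))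
          (bpt p.1 p.2.1 p.2.2)).card : ℝ)) hne (fun T hT => by
        rcases h T with h1 | h1
        · exact absurd h1 (Finset.mem_filter.1 hT).2
        · exact h1) fun T => Nat.cast_nonneg _
    have h2 := A09_arith (K := K) hd hs hk hc' (w := 4 ^ d) (by positivity)
    exact h2.trans_lt (h1.trans_le (A09_second hs hk f))

end Pool.Agent.LC

end

/-! ### from `Lib_MP_2c424f_lc2.A07` -/

section

/-!
# LC2 A07: upper bound of the number of colourings of the torus by those of the tiles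

`f ↦ (f ∘ un T)_T` is injective on `prps` (`un_mem`), every `f ∘ un T` is proper on the box (`un_adj`).
-/

set_option autoImplicit false

open Finset Filter

namespace Pool.Agent.LC

open Pool.Agent.LO Pool.Agent.LIN Pool.Agent.THR Pool.Agent.COR

theorem tile_upper {d k s q : ℕ} (hs : 1 ≤ s) (hk : s ≤ k) :
    ZZ d (k + 1) q ≤ (cG (bG d (2 ^ s)) (fun _ : BxV d (2 ^ s) → Fin q => True)) ^
      Fintype.card (Fin d → Fin (2 ^ (k + 1 - s))) := by
  classical
  set B : Finset (BxV d (2 ^ s) → Fin q) :=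
    univ.filter fun g : BxV d (2 ^ s) → Fin q => PrG (bG d (2 ^ s)) g ∧ True with hB
  have hcG : cG (bG d (2 ^ s)) (fun _ : BxV d (2 ^ s) → Fin q => True) = (B.card : ℝ) := by
    unfold cG
    rw [hB]
    congr
  rw [hcG]
  unfold ZZ
  have h1 : (prps d (k + 1) q).card ≤
      (Fintype.piFinset fun _ : Fin d → Fin (2 ^ (k + 1 - s)) => B).card := by
    refine Finset.card_le_card_of_injOn
      (fun f => fun T u => f (un T u)) ?_ ?_
    · intro f hf
      have hp : Prp f := by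
        unfold prps at hf
        simpa using hf
      rw [Finset.mem_coe, Fintype.mem_piFinset]
      intro T
      rw [hB, Finset.mem_filter]
      refine ⟨mem_univ _, ?_, trivial⟩
      intro u u' huu
      have h2 := (un_adj hs hk T u u').2 huu
      obtain ⟨σ, hσ⟩ := h2.2.2.2.1
      show f (un T u) ≠ f (un T u')
      rw [hσ]
      exact (hp _ σ).symm
    · intro f _ f' _ hff
      funext x
      obtain ⟨T, u, rfl⟩ := un_mem hs hk x
      exact congrFun (congrFun hff T) u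
  rw [Fintype.card_piFinset, Finset.prod_const, Finset.card_univ] at h1
  calc (((prps d (k + 1) q).card : ℕ) : ℝ)
      ≤ ((B.card ^ Fintype.card (Fin d → Fin (2 ^ (k + 1 - s))) : ℕ) : ℝ) := by
        exact_mod_cast h1
    _ = (B.card : ℝ) ^ Fintype.card (Fin d → Fin (2 ^ (k + 1 - s))) := by push_cast; rfl

end Pool.Agent.LC

end

/-! ### from `Lib_MP_2c424f_lc2.A06` -/

section

/-!
# LC2 A06: tiling the torus by reflected copies of the box

`N ξ P` = number of proper `F` on the box with `F = ξ` on the boundary and `P F`.  For a family `(F_T)` of such `F` (one `ξ`) the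
function `f (un T u) = F_T u` is well defined (`un_glue`, `un_bdy`, `un_mem`), it is proper (`un_edge`), and
`f ∘ un T = F_T`; so `∑_ξ (N ξ P)^M ≤ #{f ∈ prps : ∀ T, P (f ∘ un T)}`, `M` = number of tiles, `ξ` over the functions on the boundary
(`q^|bdy|` of them).  Power mean (`inner_mul_le..`; Mathlib `pow_sum_div_card_le_sum_pow` or `Real.pow_sum_div_card_le_sum_pow`):
`(∑_ξ N ξ P)^M ≤ (q^|bdy|)^(M-1) ∑_ξ (N ξ P)^M`.  (Here: the largest `N ξ P` is enough.)
-/

set_option autoImplicit false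

open Finset Filter

namespace Pool.Agent.LC

open Pool.Agent.LO Pool.Agent.LIN Pool.Agent.THR Pool.Agent.COR

open scoped Classical in
private theorem A06_pig {A B : Type} [Fintype B] [Nonempty B] (S : Finset A) (ρ : A → B) :
    ∃ (b : B) (S' : Finset A), S' ⊆ S ∧ (∀ a ∈ S', ρ a = b) ∧ S.card ≤ Fintype.card B * S'.card := by
  obtain ⟨b, -, hb⟩ := Finset.exists_max_image (univ : Finset B)
    (fun b => (S.filter fun a => ρ a = b).card) univ_nonempty
  refine ⟨b, S.filter fun a => ρ a = b, Finset.filter_subset _ _, fun a ha => (Finset.mem_filter.mp ha).2, ?_⟩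
  rw [Finset.card_eq_sum_card_fiberwise (f := ρ) (s := S) (t := (univ : Finset B)) fun F _ => by simp]
  refine (Finset.sum_le_card_nsmul _ _ _ hb).trans ?_
  rw [smul_eq_mul, Finset.card_univ]

private theorem A06_card (d l q : ℕ) :
    Fintype.card ({u // u ∈ bdy d l} → Fin q) = q ^ (bdy d l).card := by
  rw [Fintype.card_fun, Fintype.card_coe, Fintype.card_fin]

private theorem A06_pi {A B : Type} [Fintype A] [DecidableEq A] (S : Finset B) :
    S.card ^ Fintype.card A = (Fintype.piFinset fun _ : A => S).card := by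
  rw [Fintype.card_piFinset, Finset.prod_const, Finset.card_univ]

private theorem A06_fin {a b r n m q : ℕ} (h1 : a ≤ q ^ m * b) (h2 : b ^ n ≤ r) :
    (a : ℝ) ^ n ≤ ((q : ℝ) ^ m) ^ n * (r : ℝ) := by
  have h3 : a ^ n ≤ (q ^ m) ^ n * r := by
    refine (Nat.pow_le_pow_left h1 n).trans ?_
    rw [mul_pow]
    exact Nat.mul_le_mul_left _ h2
  exact_mod_cast h3

open scoped Classical in
private theorem A06_glue {d k s q : ℕ} (hs : 1 ≤ s) (hk : s ≤ k) (P : (BxV d (2 ^ s) → Fin q) → Prop)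
    (S : Finset (BxV d (2 ^ s) → Fin q)) (hS : ∀ F ∈ S, PrG (bG d (2 ^ s)) F ∧ P F)
    (ξ : {u // u ∈ bdy d (2 ^ s)} → Fin q)
    (hξ : ∀ F ∈ S, (fun u : {u // u ∈ bdy d (2 ^ s)} => F u.1) = ξ) :
    S.card ^ Fintype.card (Fin d → Fin (2 ^ (k + 1 - s))) ≤
      ((prps d (k + 1) q).filter fun f => ∀ T : Fin d → Fin (2 ^ (k + 1 - s)), P fun u => f (un T u)).card := by
  choose Tx ux hx using fun x : Site d (k + 1) => un_mem (d := d) (k := k) (s := s) hs hk x
  have key : ∀ F : (Fin d → Fin (2 ^ (k + 1 - s))) → (BxV d (2 ^ s) → Fin q), (∀ T, F T ∈ S) →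
      ∀ T u, F (Tx (un T u)) (ux (un T u)) = F T u := by
    intro F hF T u
    have h1 := hx (un T u)
    have h2 : ux (un T u) = u := un_glue hs hk _ _ _ _ h1
    rw [h2] at h1 ⊢
    rcases un_bdy hs hk _ _ _ _ h1 with h3 | h3
    · rw [h3]
    · have h4 := congrFun (hξ _ (hF (Tx (un T u)))) ⟨u, h3⟩
      have h5 := congrFun (hξ _ (hF T)) ⟨u, h3⟩
      exact h4.trans h5.symm
  have hcard : S.card ^ Fintype.card (Fin d → Fin (2 ^ (k + 1 - s))) =
      (Fintype.piFinset fun _ : Fin d → Fin (2 ^ (k + 1 - s)) => S).card := A06_pi S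
  rw [hcard]
  refine Finset.card_le_card_of_injOn (fun F x => F (Tx x) (ux x)) ?_ ?_
  · intro F hF
    have hF' : ∀ T, F T ∈ S := fun T => Fintype.mem_piFinset.mp (Finset.mem_coe.mp hF) T
    refine Finset.mem_coe.mpr (Finset.mem_filter.mpr ⟨?_, ?_⟩)
    · refine Finset.mem_filter.mpr ⟨Finset.mem_univ _, ?_⟩
      intro x σ
      obtain ⟨T, u, u', h1, h2, h3⟩ := un_edge (s := s) hs hk x σ
      show F (Tx (x + sv σ)) (ux (x + sv σ)) ≠ F (Tx x) (ux x)
      rw [← h2, ← h1, key F hF', key F hF']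
      exact ((hS _ (hF' T)).1 u u' h3).symm
    · intro T
      have h1 : (fun u => F (Tx (un T u)) (ux (un T u))) = F T := by
        funext u
        exact key F hF' T u
      show P fun u => F (Tx (un T u)) (ux (un T u))
      rw [h1]
      exact (hS _ (hF' T)).2
  · intro F hF G hG hFG
    have hF' : ∀ T, F T ∈ S := fun T => Fintype.mem_piFinset.mp (Finset.mem_coe.mp hF) T
    have hG' : ∀ T, G T ∈ S := fun T => Fintype.mem_piFinset.mp (Finset.mem_coe.mp hG) T
    funext T u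
    rw [← key F hF' T u, ← key G hG' T u]
    exact congrFun hFG (un T u)

open scoped Classical in
theorem tile_lower {d k s q : ℕ} (hs : 1 ≤ s) (hk : s ≤ k) (hq : 1 ≤ q) (P : (BxV d (2 ^ s) → Fin q) → Prop) :
    (cG (bG d (2 ^ s)) P) ^ Fintype.card (Fin d → Fin (2 ^ (k + 1 - s))) ≤
      ((q : ℝ) ^ (bdy d (2 ^ s)).card) ^ Fintype.card (Fin d → Fin (2 ^ (k + 1 - s))) *
        (((prps d (k + 1) q).filter fun f => ∀ T : Fin d → Fin (2 ^ (k + 1 - s)), P fun u => f (un T u)).card : ℝ) := by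
  have hne : Nonempty (Fin q) := ⟨⟨0, hq⟩⟩
  obtain ⟨ξ, S', hS', hξ, hξ0⟩ := A06_pig
    (univ.filter fun f : BxV d (2 ^ s) → Fin q => PrG (bG d (2 ^ s)) f ∧ P f)
    (fun F => fun u : {u // u ∈ bdy d (2 ^ s)} => F u.1)
  rw [A06_card] at hξ0
  exact A06_fin hξ0 (A06_glue (k := k) hs hk P S' (fun F hF => (Finset.mem_filter.mp (hS' hF)).2) ξ hξ)

end Pool.Agent.LC

end

/-! ### from `Lib_MP_2c424f_lc3.T26` -/

section

/-!
# Part III, T26: the graph of the torus

`tG d k = gV univ`: `x ≠ y` and `y = x + sv σ`, `x = y + sv σ'` for some steps.  For `k ≥ 2` the `2 d` vectors `sv σ` are different and not 0, `-sv (i, b) = sv (i, !b)`, so `nb` is the image of the steps.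
`evn (x + sv σ) ↔ ¬ evn x` for `k ≥ 1` (see `Lib_MP_2c424f_lo/Basic.lean` or `COR`).  `half`: `x ↦ x + sv σ` exchanges even and odd sites (`d ≥ 1`).
`cG_prps`: `PrG (tG d k) f ↔ Prp f` (`f (x + sv σ) ≠ f x`; `x + sv σ ≠ x` as `k ≥ 1`).
-/

set_option autoImplicit false

open Finset Filter

namespace Pool.Agent.LC3

open Pool.Agent.LO Pool.Agent.LIN Pool.Agent.THR Pool.Agent.COR Pool.Agent.LC

section
variable {d k q : ℕ}

theorem tG_par (hk : 2 ≤ k) : Par (tG d k) evn := par_gV (by omega) univ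

private theorem T26_adj (hk : 2 ≤ k) (x y : Site d k) :
    (tG d k).Adj x y ↔ ∃ σ : Stp d, y = x + sv σ := by
  unfold tG
  constructor
  · rintro ⟨-, -, -, h, -⟩
    exact h
  · rintro ⟨σ, rfl⟩
    exact (gV_adj (by omega) univ x σ).2 ⟨mem_univ _, mem_univ _⟩

theorem tG_deg (hk : 2 ≤ k) (v : Site d k) : (nb (tG d k) v).card = 2 * d := by
  classical
  have h1 : nb (tG d k) v = (univ : Finset (Stp d)).image fun σ => v + sv σ := by
    ext x
    unfold nb
    rw [mem_filter, mem_image, T26_adj hk]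
    constructor
    · rintro ⟨-, σ, rfl⟩
      exact ⟨σ, mem_univ _, rfl⟩
    · rintro ⟨σ, -, rfl⟩
      exact ⟨mem_univ _, σ, rfl⟩
  rw [h1, card_image_of_injective, card_univ, Fintype.card_prod, Fintype.card_fin,
    Fintype.card_bool, mul_comm]
  intro σ τ h
  exact sv_inj hk (add_left_cancel h)

open scoped Classical in
theorem tG_half (hd : 1 ≤ d) (hk : 2 ≤ k) :
    2 * (univ.filter fun v : Site d k => evn v).card = Fintype.card (Site d k) := by
  have hk1 : 1 ≤ k := by omega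
  set σ : Stp d := (⟨0, by omega⟩, true) with hσ
  have h1 : (univ.filter fun v : Site d k => evn v).card =
      (univ.filter fun v : Site d k => ¬ evn v).card := by
    refine Finset.card_bij (fun v _ => v + sv σ) ?_ ?_ ?_
    · intro v hv
      rw [mem_filter] at hv ⊢
      refine ⟨mem_univ _, ?_⟩
      rw [evn_step hk1]
      exact not_not.2 hv.2
    · intro v _ w _ h
      exact add_right_cancel h
    · intro v hv
      rw [mem_filter] at hv
      refine ⟨v - sv σ, ?_, sub_add_cancel _ _⟩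
      rw [mem_filter]
      refine ⟨mem_univ _, ?_⟩
      have h2 := evn_step hk1 (v - sv σ) σ
      rw [sub_add_cancel] at h2
      by_contra h3
      exact hv.2 (h2.2 h3)
  have h2 := Finset.card_filter_add_card_filter_not (s := (univ : Finset (Site d k)))
    (fun v => evn v)
  rw [card_univ] at h2
  omega

theorem tG_shift (hd : 1 ≤ d) (hk : 2 ≤ k) : ∃ s : Equiv.Perm (Site d k),
    (∀ x y, (tG d k).Adj (s x) (s y) ↔ (tG d k).Adj x y) ∧ ∀ v, evn (s v) ↔ ¬ evn v := by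
  set σ : Stp d := (⟨0, by omega⟩, true) with hσ
  refine ⟨Equiv.addRight (sv σ), fun x y => ?_, fun v => ?_⟩
  · rw [T26_adj hk, T26_adj hk]
    simp only [Equiv.coe_addRight]
    constructor
    · rintro ⟨τ, hτ⟩
      refine ⟨τ, ?_⟩
      rw [add_right_comm] at hτ
      exact add_right_cancel hτ
    · rintro ⟨τ, rfl⟩
      exact ⟨τ, add_right_comm _ _ _⟩
  · exact evn_step (by omega) v σ

open scoped Classical in
theorem cG_prps (hk : 2 ≤ k) (P : (Site d k → Fin q) → Prop) :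
    cG (tG d k) P = (((prps d k q).filter P).card : ℝ) := by
  have hk1 : 1 ≤ k := by omega
  unfold cG prps
  rw [Finset.filter_filter]
  congr 2
  ext f
  rw [mem_filter, mem_filter]
  have h : PrG (tG d k) f ↔ Prp f := by
    unfold tG
    rw [← prV_iff hk1]
    unfold PrV Prp
    exact ⟨fun h x σ => h x (mem_univ _) σ (mem_univ _), fun h x _ σ _ => h x σ⟩
  rw [h]

theorem NN_card : NN d k = (Fintype.card (Site d k) : ℝ) := (card_site d k).symm

end

end Pool.Agent.LC3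

end

/-! ### from `Lib_MP_2c424f_lc3.T24` -/

section

/-!
# Part III, T24: sums over `X` and `Y`

`sum_X`: every term is at most `exp(8 a s)`, `s = 6 N / d^5`, and there are at most `exp(L s + N e^{-L})` sets (`small_subsets`, `W = univ`), `L = 4 log d`: the exponent is
`N (48 a / d^5 + 24 log d / d^5 + 1/d^4) ≤ N / d^3` (`a ≤ 2000`, `d ≥ 10^10`).
`sum_Y`: with `n0 = jN / 10^20`, `r = 2 (j/q)^2 e^{8a}`, `λ = e^{-9a}`: `∑_{|Y| ≤ n0} r^{|Y|} ≤ λ^{-n0} ∑_Y (r λ)^{|Y|} = e^{9 a n0} (1 + r λ)^N ≤ exp(9 a n0 + 2 (j/q)^2 e^{-a} N) ≤ exp(jN / 10^10)`.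
(`∑_Y x^{|Y|} = (1 + x)^N`: `Finset.sum_pow_mul_eq_add_pow` or `Finset.prod_one_add`.)
-/

set_option autoImplicit false

open Finset Filter

namespace Pool.Agent.LC3

open Pool.Agent.LO Pool.Agent.LIN Pool.Agent.THR Pool.Agent.COR Pool.Agent.LC

section
variable {V : Type} [Fintype V] [DecidableEq V] {d q j : ℕ}

open scoped Classical in
theorem sum_X (D : Bal V d q j) :
    ∑ X ∈ univ.filter (fun X : Finset V => (X.card : ℝ) ≤ 6 * (Fintype.card V : ℝ) / (d : ℝ) ^ 5),
      Real.exp (8 * ra d q * X.card) ≤ Real.exp ((Fintype.card V : ℝ) / (d : ℝ) ^ 3) := by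
  have hd : (10 : ℝ) ^ 10 ≤ (d : ℝ) := by exact_mod_cast D.dl
  have hd0 : (0 : ℝ) < d := lt_of_lt_of_le (by positivity) hd
  have hd1 : 1 ≤ d := by
    have : (1 : ℝ) ≤ d := le_trans (by norm_num) hd
    exact_mod_cast this
  obtain ⟨ha1, ha2⟩ := num_a D.rg hd1
  set N : ℝ := (Fintype.card V : ℝ) with hN
  have hN0 : 0 ≤ N := Nat.cast_nonneg _
  set s : ℝ := 6 * N / (d : ℝ) ^ 5 with hs
  have hs0 : 0 ≤ s := by positivity
  have hlog0 : 0 ≤ Real.log d := Real.log_nonneg (le_trans (by norm_num) hd)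
  have hlog : Real.log d ≤ d := (Real.log_le_sub_one_of_pos hd0).trans (by linarith)
  have hcard := small_subsets (univ : Finset V) s (4 * Real.log d) (by positivity)
  have hset : ((univ : Finset V).powerset.filter fun D => (D.card : ℝ) ≤ s)
      = univ.filter (fun X : Finset V => (X.card : ℝ) ≤ s) := by
    ext X
    simp
  rw [hset, Finset.card_univ, ← hN] at hcard
  have hexp : Real.exp (-(4 * Real.log d)) = 1 / (d : ℝ) ^ 4 := by
    rw [Real.exp_neg, show (4 : ℝ) * Real.log d = ((4 : ℕ) : ℝ) * Real.log d by norm_num, Real.exp_nat_mul,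
      Real.exp_log hd0, one_div]
  rw [hexp] at hcard
  have hterm : ∀ X ∈ univ.filter (fun X : Finset V => (X.card : ℝ) ≤ s),
      Real.exp (8 * ra d q * X.card) ≤ Real.exp (8 * ra d q * s) := by
    intro X hX
    apply Real.exp_le_exp.2
    have hX' : (X.card : ℝ) ≤ s := (Finset.mem_filter.1 hX).2
    apply mul_le_mul_of_nonneg_left hX'
    linarith
  calc ∑ X ∈ univ.filter (fun X : Finset V => (X.card : ℝ) ≤ s), Real.exp (8 * ra d q * X.card)
      ≤ ∑ _X ∈ univ.filter (fun X : Finset V => (X.card : ℝ) ≤ s), Real.exp (8 * ra d q * s) :=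
        Finset.sum_le_sum hterm
    _ = ((univ.filter (fun X : Finset V => (X.card : ℝ) ≤ s)).card : ℝ) * Real.exp (8 * ra d q * s) := by
        rw [Finset.sum_const, nsmul_eq_mul]
    _ ≤ Real.exp (4 * Real.log d * s + N * (1 / (d : ℝ) ^ 4)) * Real.exp (8 * ra d q * s) :=
        mul_le_mul_of_nonneg_right hcard (Real.exp_pos _).le
    _ = Real.exp (4 * Real.log d * s + N * (1 / (d : ℝ) ^ 4) + 8 * ra d q * s) := by
        rw [← Real.exp_add]
    _ ≤ Real.exp (N / (d : ℝ) ^ 3) := by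
        apply Real.exp_le_exp.2
        have h1 : 4 * Real.log d * s ≤ 4 * d * s := by
          apply mul_le_mul_of_nonneg_right _ hs0
          linarith
        have h2 : 8 * ra d q * s ≤ 16000 * s := by
          apply mul_le_mul_of_nonneg_right _ hs0
          linarith
        have h3 : 16000 * s ≤ d * s := by
          apply mul_le_mul_of_nonneg_right _ hs0
          exact le_trans (by norm_num) hd
        have h4 : (5 * d : ℝ) * s = 30 * N / (d : ℝ) ^ 4 := by
          rw [hs]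
          field_simp
          ring
        have h5 : 31 * N / (d : ℝ) ^ 4 ≤ N / (d : ℝ) ^ 3 := by
          rw [div_le_div_iff₀ (by positivity) (by positivity)]
          have h6 : (31 : ℝ) ≤ d := le_trans (by norm_num) hd
          have h7 : 0 ≤ N * (d : ℝ) ^ 3 := by positivity
          nlinarith [mul_le_mul_of_nonneg_right h6 h7]
        have h8 : 31 * N / (d : ℝ) ^ 4 = 30 * N / (d : ℝ) ^ 4 + N * (1 / (d : ℝ) ^ 4) := by ring
        nlinarith

open scoped Classical in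
theorem sum_Y (D : Bal V d q j) :
    ∑ Y ∈ univ.filter (fun Y : Finset V => (Y.card : ℝ) ≤ jN D / 10 ^ 20),
      (2 * (j : ℝ) ^ 2 / (q : ℝ) ^ 2) ^ Y.card * Real.exp (8 * ra d q * Y.card) ≤ Real.exp (jN D / 10 ^ 10) := by
  have hd : (10 : ℝ) ^ 10 ≤ (d : ℝ) := by exact_mod_cast D.dl
  have hd1 : 1 ≤ d := by
    have : (1 : ℝ) ≤ d := le_trans (by norm_num) hd
    exact_mod_cast this
  obtain ⟨ha1, ha2⟩ := num_a D.rg hd1
  obtain ⟨he, _, _⟩ := num_e D.rg hd1
  set a : ℝ := ra d q with ha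
  set n0 : ℝ := jN D / 10 ^ 20 with hn0
  set x : ℝ := 2 * (j : ℝ) ^ 2 / (q : ℝ) ^ 2 * Real.exp (-a) with hx
  have hx0 : 0 ≤ x := by positivity
  have hterm : ∀ Y ∈ univ.filter (fun Y : Finset V => (Y.card : ℝ) ≤ n0),
      (2 * (j : ℝ) ^ 2 / (q : ℝ) ^ 2) ^ Y.card * Real.exp (8 * a * Y.card)
        ≤ Real.exp (9 * a * n0) * ∏ _i ∈ Y, x := by
    intro Y hY
    have hY' : (Y.card : ℝ) ≤ n0 := (Finset.mem_filter.1 hY).2
    rw [Finset.prod_const, hx, mul_pow, ← Real.exp_nat_mul]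
    have h1 : Real.exp (8 * a * Y.card) ≤ Real.exp (9 * a * n0) * Real.exp ((Y.card : ℝ) * -a) := by
      rw [← Real.exp_add]
      apply Real.exp_le_exp.2
      have : 9 * a * (Y.card : ℝ) ≤ 9 * a * n0 := mul_le_mul_of_nonneg_left hY' (by linarith)
      linarith
    calc (2 * (j : ℝ) ^ 2 / (q : ℝ) ^ 2) ^ Y.card * Real.exp (8 * a * Y.card)
        ≤ (2 * (j : ℝ) ^ 2 / (q : ℝ) ^ 2) ^ Y.card * (Real.exp (9 * a * n0) * Real.exp ((Y.card : ℝ) * -a)) :=
          mul_le_mul_of_nonneg_left h1 (by positivity)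
      _ = Real.exp (9 * a * n0) * ((2 * (j : ℝ) ^ 2 / (q : ℝ) ^ 2) ^ Y.card * Real.exp ((Y.card : ℝ) * -a)) := by
          ring
  calc ∑ Y ∈ univ.filter (fun Y : Finset V => (Y.card : ℝ) ≤ n0),
        (2 * (j : ℝ) ^ 2 / (q : ℝ) ^ 2) ^ Y.card * Real.exp (8 * a * Y.card)
      ≤ ∑ Y ∈ univ.filter (fun Y : Finset V => (Y.card : ℝ) ≤ n0), Real.exp (9 * a * n0) * ∏ _i ∈ Y, x :=
        Finset.sum_le_sum hterm
    _ ≤ ∑ Y ∈ (univ : Finset V).powerset, Real.exp (9 * a * n0) * ∏ _i ∈ Y, x := by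
        apply Finset.sum_le_sum_of_subset_of_nonneg
        · intro Y _
          simp
        · intro Y _ _
          apply mul_nonneg (Real.exp_pos _).le
          exact Finset.prod_nonneg fun _ _ => hx0
    _ = Real.exp (9 * a * n0) * (1 + x) ^ Fintype.card V := by
        rw [← Finset.mul_sum, ← Finset.prod_one_add, Finset.prod_const, Finset.card_univ]
    _ ≤ Real.exp (9 * a * n0) * Real.exp ((Fintype.card V : ℝ) * x) := by
        apply mul_le_mul_of_nonneg_left _ (Real.exp_pos _).le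
        rw [Real.exp_nat_mul]
        have h6 : 1 + x ≤ Real.exp x := by
          have := Real.add_one_le_exp x
          linarith
        gcongr
    _ = Real.exp (9 * a * n0 + (Fintype.card V : ℝ) * x) := by rw [← Real.exp_add]
    _ ≤ Real.exp (jN D / 10 ^ 10) := by
        apply Real.exp_le_exp.2
        have hj0 : 0 ≤ jN D := by
          unfold jN
          positivity
        have h1 : (Fintype.card V : ℝ) * x = 2 * jN D * Real.exp (-a) := by
          rw [hx]
          unfold jN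
          rw [div_pow]
          ring
        have h2 : 2 * jN D * Real.exp (-a) ≤ 2 * jN D * (1 / 10 ^ 100) :=
          mul_le_mul_of_nonneg_left he (by linarith)
        have h3 : 9 * a * n0 ≤ 18000 * n0 := by
          have : 0 ≤ n0 := by positivity
          apply mul_le_mul_of_nonneg_right _ this
          linarith
        rw [h1]
        have h4 : (18000 : ℝ) * n0 + 2 * jN D * (1 / 10 ^ 100) ≤ jN D / 10 ^ 10 := by
          rw [hn0]
          have h5 : jN D / 10 ^ 10 - (18000 * (jN D / 10 ^ 20) + 2 * jN D * (1 / 10 ^ 100))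
              = jN D * (1 / 10 ^ 10 - 18000 / 10 ^ 20 - 2 / 10 ^ 100) := by ring
          have h6 : (0 : ℝ) ≤ 1 / 10 ^ 10 - 18000 / 10 ^ 20 - 2 / 10 ^ 100 := by norm_num
          have h7 := mul_nonneg hj0 h6
          linarith
        linarith

end

end Pool.Agent.LC3

end

/-! ### from `Lib_MP_2c424f_lc3.T21` -/

section

/-!
# Part III, T21: one class of images

`G' = dlG G (X ∪ Y)` is bipartite.  `cl G' ev ω = piFinset (Sx G' ev ω)` (`cl_eq`).  The number of its elements with the property is the product over the vertices of the numbers of the allowed values, and for even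
`x ∉ X` the proportion of the allowed values is `1 - |R ∩ J2| |R' ∩ J1| / (|R| |R'|) ≤ exp(-|R ∩ J2| |R' ∩ J1| / q^2)`, `R = Rv G' (fo ω) x`, `R' = Rv G' (go ω) x` (if one of the sets is empty the class is empty: nothing to prove; `|R|, |R'| ≤ q`).
`|R ∩ J2| ≥ j - s_x`, `s_x = #{y ~ x in G' : (ω y).1 ∈ J2}`, `|R' ∩ J1| ≥ j - s'_x`, `s'_x = #{y ~ x in G' : (ω y).2 ∈ J1}`, so `|R ∩ J2| |R' ∩ J1| ≥ j^2 - j s_x - j s'_x` (in all cases).
`∑_x s_x ≤ 2 d n1`, `∑_x s'_x ≤ 2 d n1` (neighbours of even vertices in `G'` are odd and outside `X ∪ Y`; degrees `≤ 2 d`), `n1 = (j/q) N / 10^20`; number of even `x ∉ X` at least `N/2 - N/100`.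
Exponent: `((0.49) N j^2 - j · 4 d n1) / q^2 ≥ jN / 3` as `4 d / q = 2 a ≤ 4000`.
-/

set_option autoImplicit false

open Finset Filter

namespace Pool.Agent.LC3

open Pool.Agent.LO Pool.Agent.LIN Pool.Agent.THR Pool.Agent.COR Pool.Agent.LC

section
variable {V : Type} [Fintype V] [DecidableEq V] {d q j : ℕ}

open scoped Classical in
/-- few neighbours with colours in `J'`, many free colours of `J'` -/
private theorem T21_R (G : SimpleGraph V) (F : V → Fin q) (x : V) (J' : Finset (Fin q)) :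
    (J'.card : ℝ) - ((univ.filter fun y => G.Adj x y ∧ F y ∈ J').card : ℝ) ≤ (((Rv G F x) ∩ J').card : ℝ) := by
  have h1 : J' ⊆ (Rv G F x ∩ J') ∪ (univ.filter fun y => G.Adj x y ∧ F y ∈ J').image F := by
    intro c hc
    by_cases h : c ∈ Rv G F x
    · exact Finset.mem_union_left _ (Finset.mem_inter.2 ⟨h, hc⟩)
    · refine Finset.mem_union_right _ ?_
      unfold Rv at h
      rw [Finset.mem_filter] at h
      have h2 : ∃ y, G.Adj x y ∧ F y = c := by
        by_contra hcon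
        push Not at hcon
        exact h ⟨Finset.mem_univ _, hcon⟩
      obtain ⟨y, hy, hyc⟩ := h2
      exact Finset.mem_image.2 ⟨y, Finset.mem_filter.2 ⟨Finset.mem_univ _, hy, hyc ▸ hc⟩, hyc⟩
  have h2 : J'.card ≤ (Rv G F x ∩ J').card + (univ.filter fun y => G.Adj x y ∧ F y ∈ J').card :=
    (Finset.card_le_card h1).trans ((Finset.card_union_le _ _).trans (Nat.add_le_add_left Finset.card_image_le _))
  have h3 : (J'.card : ℝ) ≤ ((Rv G F x ∩ J').card : ℝ) + ((univ.filter fun y => G.Adj x y ∧ F y ∈ J').card : ℝ) := by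
    exact_mod_cast h2
  linarith

private theorem T21_alg {a b s t J : ℝ} (ha : 0 ≤ a) (hb : 0 ≤ b) (hs : 0 ≤ s) (ht : 0 ≤ t) (hJ : 0 ≤ J)
    (h1 : J - s ≤ a) (h2 : J - t ≤ b) : J ^ 2 - J * s - J * t ≤ a * b := by
  rcases le_total J s with h | h
  · have h3 : 0 ≤ a * b := mul_nonneg ha hb
    have h4 : J * J ≤ J * s := mul_le_mul_of_nonneg_left h hJ
    have h5 : 0 ≤ J * t := mul_nonneg hJ ht
    nlinarith
  · rcases le_total J t with h' | h'
    · have h3 : 0 ≤ a * b := mul_nonneg ha hb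
      have h4 : J * J ≤ J * t := mul_le_mul_of_nonneg_left h' hJ
      have h5 : 0 ≤ J * s := mul_nonneg hJ hs
      nlinarith
    · have h3 : (J - s) * (J - t) ≤ a * b := mul_le_mul h1 h2 (by linarith) ha
      have h4 : 0 ≤ s * t := mul_nonneg hs ht
      nlinarith

open scoped Classical in
/-- double counting -/
private theorem T21_deg (D : Bal V d q j) (E : Finset V) (F : V → Fin q) (J' : Finset (Fin q)) :
    ∑ x ∈ univ.filter (fun x => D.ev x), (((univ.filter fun y => (dlG D.G E).Adj x y ∧ F y ∈ J').card : ℕ) : ℝ) ≤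
      2 * d * ((univ.filter fun v => ¬ D.ev v ∧ v ∉ E ∧ F v ∈ J').card : ℝ) := by
  have h1 : ∀ x ∈ univ.filter (fun x => D.ev x), (univ.filter fun y => (dlG D.G E).Adj x y ∧ F y ∈ J').card =
      ((univ.filter fun v => ¬ D.ev v ∧ v ∉ E ∧ F v ∈ J').bipartiteAbove (fun x y => (dlG D.G E).Adj x y) x).card := by
    intro x hx
    have hx' := (Finset.mem_filter.1 hx).2
    congr 1
    ext y
    unfold Finset.bipartiteAbove
    simp only [Finset.mem_filter, Finset.mem_univ, true_and]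
    constructor
    · rintro ⟨h2, h3⟩
      exact ⟨⟨(D.par x y h2.1).1 hx', h2.2.2, h3⟩, h2⟩
    · rintro ⟨⟨-, -, h3⟩, h2⟩
      exact ⟨h2, h3⟩
  have h2 : ∑ x ∈ univ.filter (fun x => D.ev x), (univ.filter fun y => (dlG D.G E).Adj x y ∧ F y ∈ J').card =
      ∑ y ∈ univ.filter (fun v => ¬ D.ev v ∧ v ∉ E ∧ F v ∈ J'),
        ((univ.filter fun x => D.ev x).bipartiteBelow (fun x y => (dlG D.G E).Adj x y) y).card := by
    rw [Finset.sum_congr rfl h1]
    exact Finset.sum_card_bipartiteAbove_eq_sum_card_bipartiteBelow _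
  have h3 : ∑ y ∈ univ.filter (fun v => ¬ D.ev v ∧ v ∉ E ∧ F v ∈ J'),
        ((univ.filter fun x => D.ev x).bipartiteBelow (fun x y => (dlG D.G E).Adj x y) y).card ≤
      (univ.filter fun v => ¬ D.ev v ∧ v ∉ E ∧ F v ∈ J').card * (2 * d) := by
    refine Finset.sum_le_card_nsmul _ _ _ fun y _ => ?_
    rw [← D.deg y]
    refine Finset.card_le_card fun x hx => ?_
    unfold Finset.bipartiteBelow at hx
    rw [Finset.mem_filter] at hx
    unfold nb
    exact Finset.mem_filter.2 ⟨Finset.mem_univ _, hx.2.1.symm⟩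
  have h4 := h2.trans_le h3
  have h5 : ((∑ x ∈ univ.filter (fun x => D.ev x), (univ.filter fun y => (dlG D.G E).Adj x y ∧ F y ∈ J').card : ℕ) : ℝ) ≤
      (((univ.filter fun v => ¬ D.ev v ∧ v ∉ E ∧ F v ∈ J').card * (2 * d) : ℕ) : ℝ) := by exact_mod_cast h4
  push_cast at h5
  linarith

open scoped Classical in
/-- proportion of the allowed values -/
private theorem T21_fac (R R' J1 J2 : Finset (Fin q)) :
    (((R ×ˢ R').filter fun a : Fin q × Fin q => ¬ (a.1 ∈ J2 ∧ a.2 ∈ J1)).card : ℝ) ≤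
      Real.exp (-(((R ∩ J2).card : ℝ) * ((R' ∩ J1).card : ℝ) / (q : ℝ) ^ 2)) * ((R ×ˢ R').card : ℝ) := by
  have h1 : ((R ×ˢ R').filter fun a : Fin q × Fin q => (a.1 ∈ J2 ∧ a.2 ∈ J1)) = (R ∩ J2) ×ˢ (R' ∩ J1) := by
    ext a
    simp only [Finset.mem_filter, Finset.mem_product, Finset.mem_inter]
    tauto
  have h2 := Finset.card_filter_add_card_filter_not (s := R ×ˢ R') (fun a : Fin q × Fin q => (a.1 ∈ J2 ∧ a.2 ∈ J1))
  rw [h1, Finset.card_product] at h2
  have h3 : (((R ∩ J2).card : ℝ) * ((R' ∩ J1).card : ℝ)) +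
      (((R ×ˢ R').filter fun a : Fin q × Fin q => ¬ (a.1 ∈ J2 ∧ a.2 ∈ J1)).card : ℝ) = ((R ×ˢ R').card : ℝ) := by
    exact_mod_cast h2
  set P : ℝ := ((R ∩ J2).card : ℝ) * ((R' ∩ J1).card : ℝ) with hP
  have hP0 : 0 ≤ P := by positivity
  set M : ℝ := ((R ×ˢ R').card : ℝ) with hM
  have hM0 : 0 ≤ M := by positivity
  have hR : (R.card : ℝ) ≤ q := by
    have : R.card ≤ q := by simpa using Finset.card_le_univ R
    exact_mod_cast this
  have hR' : (R'.card : ℝ) ≤ q := by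
    have : R'.card ≤ q := by simpa using Finset.card_le_univ R'
    exact_mod_cast this
  have hMq : M ≤ (q : ℝ) ^ 2 := by
    rw [hM, Finset.card_product]
    push_cast
    have : (0 : ℝ) ≤ R'.card := by positivity
    nlinarith
  have h4 : (((R ×ˢ R').filter fun a : Fin q × Fin q => ¬ (a.1 ∈ J2 ∧ a.2 ∈ J1)).card : ℝ) = M - P := by linarith
  rw [h4]
  rcases eq_or_lt_of_le hM0 with h | h
  · have hPM : P ≤ M := by
      have : (0 : ℝ) ≤ (((R ×ˢ R').filter fun a : Fin q × Fin q => ¬ (a.1 ∈ J2 ∧ a.2 ∈ J1)).card : ℝ) := by positivity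
      linarith
    rw [← h]
    linarith
  · have hq : (0 : ℝ) < (q : ℝ) ^ 2 := lt_of_lt_of_le h hMq
    have h5 : 1 - P / (q : ℝ) ^ 2 ≤ Real.exp (-(P / (q : ℝ) ^ 2)) := by
      have := Real.add_one_le_exp (-(P / (q : ℝ) ^ 2))
      linarith
    have h6 : P / (q : ℝ) ^ 2 ≤ P / M := div_le_div_of_nonneg_left hP0 h hMq
    have h7 : P = P / M * M := by field_simp
    calc M - P = (1 - P / M) * M := by rw [sub_mul, one_mul, ← h7]
      _ ≤ (1 - P / (q : ℝ) ^ 2) * M := mul_le_mul_of_nonneg_right (by linarith) hM0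
      _ ≤ Real.exp (-(P / (q : ℝ) ^ 2)) * M := mul_le_mul_of_nonneg_right h5 hM0

open scoped Classical in
theorem class_le (D : Bal V d q j) (X Y : Finset V) (hX : (X.card : ℝ) ≤ (Fintype.card V : ℝ) / 100)
    (ω : V → Fin q × Fin q)
    (h1 : ((univ.filter fun v => ¬ D.ev v ∧ v ∉ X ∪ Y ∧ (ω v).1 ∈ D.J2).card : ℝ) ≤
      (j : ℝ) / q * Fintype.card V / 10 ^ 20)
    (h2 : ((univ.filter fun v => ¬ D.ev v ∧ v ∉ X ∪ Y ∧ (ω v).2 ∈ D.J1).card : ℝ) ≤
      (j : ℝ) / q * Fintype.card V / 10 ^ 20) :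
    (((cl (dlG D.G (X ∪ Y)) D.ev ω).filter fun ω' =>
        ∀ x, D.ev x → x ∉ X → ¬ ((ω' x).1 ∈ D.J2 ∧ (ω' x).2 ∈ D.J1)).card : ℝ) ≤
      Real.exp (-(jN D / 3)) * ((cl (dlG D.G (X ∪ Y)) D.ev ω).card : ℝ) := by
  have hPar : Par (dlG D.G (X ∪ Y)) D.ev := fun x y h => D.par x y h.1
  set G' := dlG D.G (X ∪ Y) with hG'
  rw [cl_eq G' D.ev hPar ω]
  -- the allowed values
  let T : V → Finset (Fin q × Fin q) := fun v =>
    if D.ev v ∧ v ∉ X then (Sx G' D.ev ω v).filter fun a => ¬ (a.1 ∈ D.J2 ∧ a.2 ∈ D.J1) else Sx G' D.ev ω v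
  have hT : ((Fintype.piFinset (Sx G' D.ev ω)).filter fun ω' : V → Fin q × Fin q =>
      ∀ x, D.ev x → x ∉ X → ¬ ((ω' x).1 ∈ D.J2 ∧ (ω' x).2 ∈ D.J1)) = Fintype.piFinset T := by
    ext ω'
    simp only [Finset.mem_filter, Fintype.mem_piFinset, T]
    constructor
    · rintro ⟨h3, h4⟩ v
      by_cases hv : D.ev v ∧ v ∉ X
      · rw [if_pos hv]
        exact Finset.mem_filter.2 ⟨h3 v, h4 v hv.1 hv.2⟩
      · rw [if_neg hv]
        exact h3 v
    · intro h3
      refine ⟨fun v => ?_, fun v hv1 hv2 => ?_⟩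
      · have h4 := h3 v
        by_cases hv : D.ev v ∧ v ∉ X
        · rw [if_pos hv] at h4
          exact (Finset.mem_filter.1 h4).1
        · rw [if_neg hv] at h4
          exact h4
      · have h4 := h3 v
        rw [if_pos ⟨hv1, hv2⟩] at h4
        exact (Finset.mem_filter.1 h4).2
  rw [hT, Fintype.card_piFinset, Fintype.card_piFinset]
  push_cast
  -- the exponents
  let w : V → ℝ := fun v => if D.ev v ∧ v ∉ X then
    ((Rv G' (fo ω) v ∩ D.J2).card : ℝ) * ((Rv G' (go ω) v ∩ D.J1).card : ℝ) / (q : ℝ) ^ 2 else 0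
  have hfac : ∀ v, ((T v).card : ℝ) ≤ Real.exp (-w v) * ((Sx G' D.ev ω v).card : ℝ) := by
    intro v
    by_cases hv : D.ev v ∧ v ∉ X
    · simp only [T, w, if_pos hv]
      have hS : Sx G' D.ev ω v = Rv G' (fo ω) v ×ˢ Rv G' (go ω) v := if_pos hv.1
      rw [hS]
      exact T21_fac _ _ D.J1 D.J2
    · simp only [T, w, if_neg hv, neg_zero, Real.exp_zero, one_mul]
      exact le_rfl
  have hprod : ∏ v, ((T v).card : ℝ) ≤ Real.exp (-∑ v, w v) * ∏ v, ((Sx G' D.ev ω v).card : ℝ) := by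
    calc ∏ v, ((T v).card : ℝ) ≤ ∏ v, (Real.exp (-w v) * ((Sx G' D.ev ω v).card : ℝ)) :=
          Finset.prod_le_prod (fun v _ => by positivity) fun v _ => hfac v
      _ = Real.exp (-∑ v, w v) * ∏ v, ((Sx G' D.ev ω v).card : ℝ) := by
          rw [Finset.prod_mul_distrib, ← Real.exp_sum, Finset.sum_neg_distrib]
  refine hprod.trans (mul_le_mul_of_nonneg_right (Real.exp_le_exp.2 (neg_le_neg ?_)) (by positivity))
  -- lower bound for the exponent
  have hj : (1 : ℝ) ≤ j := by exact_mod_cast D.j1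
  have hjq : 50 * (j : ℝ) ≤ q := by exact_mod_cast D.jq
  have hq : (0 : ℝ) < q := by linarith
  have hd : 2 * (d : ℝ) ≤ 2000 * q := by exact_mod_cast D.rg.2.2
  set N : ℝ := (Fintype.card V : ℝ) with hN
  have hN0 : 0 ≤ N := by positivity
  let s : V → ℝ := fun x => (((univ.filter fun y => G'.Adj x y ∧ (ω y).1 ∈ D.J2).card : ℕ) : ℝ)
  let s' : V → ℝ := fun x => (((univ.filter fun y => G'.Adj x y ∧ (ω y).2 ∈ D.J1).card : ℕ) : ℝ)
  have hs0 : ∀ x, 0 ≤ s x := fun x => by simp only [s]; positivity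
  have hs0' : ∀ x, 0 ≤ s' x := fun x => by simp only [s']; positivity
  have hw : ∀ x, D.ev x → x ∉ X → ((j : ℝ) ^ 2 - j * s x - j * s' x) / (q : ℝ) ^ 2 ≤ w x := by
    intro x hx1 hx2
    simp only [w, if_pos (And.intro hx1 hx2)]
    refine div_le_div_of_nonneg_right ?_ (by positivity)
    refine T21_alg (by positivity) (by positivity) (hs0 x) (hs0' x) (by positivity) ?_ ?_
    · have h3 := T21_R G' (fo ω) x D.J2
      rw [D.c2] at h3
      exact h3
    · have h3 := T21_R G' (go ω) x D.J1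
      rw [D.c1] at h3
      exact h3
  have hsum1 : ∑ x ∈ univ.filter (fun x => D.ev x), s x ≤ 2 * d * ((j : ℝ) / q * N / 10 ^ 20) := by
    refine (T21_deg D (X ∪ Y) (fun v => (ω v).1) D.J2).trans ?_
    exact mul_le_mul_of_nonneg_left h1 (by positivity)
  have hsum2 : ∑ x ∈ univ.filter (fun x => D.ev x), s' x ≤ 2 * d * ((j : ℝ) / q * N / 10 ^ 20) := by
    refine (T21_deg D (X ∪ Y) (fun v => (ω v).2) D.J1).trans ?_
    exact mul_le_mul_of_nonneg_left h2 (by positivity)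
  -- the number of the even vertices outside `X`
  have hcard : N / 2 - N / 100 ≤ ((univ.filter fun x => D.ev x ∧ x ∉ X).card : ℝ) := by
    have h3 : (univ.filter fun x => D.ev x).card ≤ (univ.filter fun x => D.ev x ∧ x ∉ X).card + X.card := by
      refine (Finset.card_le_card ?_).trans (Finset.card_union_le _ _)
      intro x hx
      by_cases hxX : x ∈ X
      · exact Finset.mem_union_right _ hxX
      · exact Finset.mem_union_left _ (Finset.mem_filter.2 ⟨Finset.mem_univ _, (Finset.mem_filter.1 hx).2, hxX⟩)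
    have h4 : 2 * ((univ.filter fun x => D.ev x).card : ℝ) = N := by
      have := D.half
      rw [hN]
      exact_mod_cast this
    have h5 : ((univ.filter fun x => D.ev x).card : ℝ) ≤ ((univ.filter fun x => D.ev x ∧ x ∉ X).card : ℝ) + (X.card : ℝ) := by
      exact_mod_cast h3
    linarith
  have hwsum : ∑ v, w v = ∑ x ∈ univ.filter (fun x => D.ev x ∧ x ∉ X), w x := by
    rw [Finset.sum_filter]
    refine Finset.sum_congr rfl fun v _ => ?_
    by_cases hv : D.ev v ∧ v ∉ X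
    · rw [if_pos hv]
    · rw [if_neg hv]
      simp only [w, if_neg hv]
  have hsub : ∀ f : V → ℝ, (∀ x, 0 ≤ f x) → ∑ x ∈ univ.filter (fun x => D.ev x ∧ x ∉ X), f x ≤
      ∑ x ∈ univ.filter (fun x => D.ev x), f x := by
    intro f hf
    refine Finset.sum_le_sum_of_subset_of_nonneg (fun x hx => ?_) (fun x _ _ => hf x)
    rw [Finset.mem_filter] at hx ⊢
    exact ⟨hx.1, hx.2.1⟩
  have hA : ∑ x ∈ univ.filter (fun x => D.ev x ∧ x ∉ X), ((j : ℝ) ^ 2 - j * s x - j * s' x) ≤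
      (q : ℝ) ^ 2 * ∑ v, w v := by
    rw [hwsum, Finset.mul_sum]
    refine Finset.sum_le_sum fun x hx => ?_
    obtain ⟨-, hx1, hx2⟩ := Finset.mem_filter.1 hx
    have h3 := hw x hx1 hx2
    rw [div_le_iff₀ (by positivity)] at h3
    linarith
  have hB : ∑ x ∈ univ.filter (fun x => D.ev x ∧ x ∉ X), ((j : ℝ) ^ 2 - j * s x - j * s' x) =
      ((univ.filter fun x => D.ev x ∧ x ∉ X).card : ℝ) * (j : ℝ) ^ 2 -
        j * ∑ x ∈ univ.filter (fun x => D.ev x ∧ x ∉ X), s x -
        j * ∑ x ∈ univ.filter (fun x => D.ev x ∧ x ∉ X), s' x := by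
    rw [Finset.sum_sub_distrib, Finset.sum_sub_distrib, Finset.mul_sum, Finset.mul_sum, Finset.sum_const, nsmul_eq_mul]
  have hC1 := (hsub s hs0).trans hsum1
  have hC2 := (hsub s' hs0').trans hsum2
  have hD1 : 2 * (d : ℝ) * ((j : ℝ) / q * N / 10 ^ 20) ≤ 2000 * (j * N / 10 ^ 20) := by
    have h3 : 2 * (d : ℝ) * ((j : ℝ) / q * N / 10 ^ 20) = (2 * d) / q * (j * N / 10 ^ 20) := by
      field_simp
    rw [h3]
    refine mul_le_mul_of_nonneg_right ?_ (by positivity)
    rw [div_le_iff₀ hq]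
    exact hd
  have hE : (N / 2 - N / 100) * (j : ℝ) ^ 2 - j * (2000 * (j * N / 10 ^ 20)) - j * (2000 * (j * N / 10 ^ 20)) ≤
      (q : ℝ) ^ 2 * ∑ v, w v := by
    have h3 : (N / 2 - N / 100) * (j : ℝ) ^ 2 ≤ ((univ.filter fun x => D.ev x ∧ x ∉ X).card : ℝ) * (j : ℝ) ^ 2 :=
      mul_le_mul_of_nonneg_right hcard (by positivity)
    have h4 : (j : ℝ) * ∑ x ∈ univ.filter (fun x => D.ev x ∧ x ∉ X), s x ≤ j * (2000 * (j * N / 10 ^ 20)) :=
      mul_le_mul_of_nonneg_left (hC1.trans hD1) (by positivity)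
    have h5 : (j : ℝ) * ∑ x ∈ univ.filter (fun x => D.ev x ∧ x ∉ X), s' x ≤ j * (2000 * (j * N / 10 ^ 20)) :=
      mul_le_mul_of_nonneg_left (hC2.trans hD1) (by positivity)
    linarith
  have hF : (q : ℝ) ^ 2 * (jN D / 3) ≤ (q : ℝ) ^ 2 * ∑ v, w v := by
    refine le_trans ?_ hE
    have h3 : (q : ℝ) ^ 2 * (jN D / 3) = (j : ℝ) ^ 2 * N / 3 := by
      unfold jN
      rw [← hN]
      field_simp
    rw [h3]
    have h4 : 0 ≤ (j : ℝ) ^ 2 * N := by positivity
    nlinarith
  exact le_of_mul_le_mul_left hF (by positivity)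

end

end Pool.Agent.LC3

end

/-! ### from `Lib_MP_2c424f_lc3.T22` -/

section

/-!
# Part III, T22: the images for fixed `X`, `Y`

`G' = dlG G (X ∪ Y)`.
`tgt_le`: `Ω` = the `ω` with `PrP G' ω`, `s1 ∧ s2` on `Y` (`Y` consists of odd vertices), and the two counting conditions of `tgt`: closed under `cl G' ev` (all conditions except `PrP` concern odd vertices).
`sum_cl_le` with `h` = indicator of the third condition of `tgt`, `K = exp(-jN/3)`, `class_le`.
`Y_factor`: the vertices of `Y` are isolated in `G'`.  Induction over `Y' ⊆ Y`: the map `(ω, a) ↦ (Function.update ω y a, ω y)` is injective from `{PrP, conditions on insert y Y'} × (Fin q × Fin q)` to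
`{PrP, conditions on Y'} × {a : s1 a ∧ s2 a}`, and `#{a : s1 a ∧ s2 a} = 2 j^2` (`J1 × J2` and `J2 × J1`).
-/

set_option autoImplicit false

open Finset Filter

namespace Pool.Agent.LC3

open Pool.Agent.LO Pool.Agent.LIN Pool.Agent.THR Pool.Agent.COR Pool.Agent.LC

section
variable {V : Type} [Fintype V] [DecidableEq V] {d q j : ℕ}

omit [Fintype V] [DecidableEq V] in
private theorem T22_card {α : Type} [Fintype α] (P : α → Prop) (i1 i2 : DecidablePred P) :
    ((@Finset.filter α P i1 univ).card : ℝ) = ((@Finset.filter α P i2 univ).card : ℝ) := by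
  have e : i1 = i2 := Subsingleton.elim _ _
  subst e
  rfl

open scoped Classical in
omit [DecidableEq V] in
private theorem T22_good (D : Bal V d q j) :
    ((univ.filter fun a : Fin q × Fin q => s1 D a ∧ s2 D a).card : ℝ) ≤ 2 * (j : ℝ) ^ 2 := by
  have h1 : (univ.filter fun a : Fin q × Fin q => s1 D a ∧ s2 D a) ⊆ D.J1 ×ˢ D.J2 ∪ D.J2 ×ˢ D.J1 := by
    intro a ha
    obtain ⟨h1, h2⟩ := (Finset.mem_filter.1 ha).2
    have hdis : ∀ c, c ∈ D.J1 → c ∈ D.J2 → False := fun c hc hc' =>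
      Finset.disjoint_left.1 D.dis hc hc'
    rw [Finset.mem_union, Finset.mem_product, Finset.mem_product]
    rcases h1 with h1 | h1
    · rcases h2 with h2 | h2
      · exact (hdis _ h1 h2).elim
      · exact Or.inl ⟨h1, h2⟩
    · rcases h2 with h2 | h2
      · exact Or.inr ⟨h2, h1⟩
      · exact (hdis _ h1 h2).elim
  have h2 : (univ.filter fun a : Fin q × Fin q => s1 D a ∧ s2 D a).card ≤ j * j + j * j := by
    refine (Finset.card_le_card h1).trans ((Finset.card_union_le _ _).trans ?_)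
    rw [Finset.card_product, Finset.card_product, D.c1, D.c2]
  have h3 : ((univ.filter fun a : Fin q × Fin q => s1 D a ∧ s2 D a).card : ℝ) ≤ (j : ℝ) * j + j * j := by
    exact_mod_cast h2
  linarith

omit [Fintype V] in
private theorem T22_upd (G : SimpleGraph V) (X : Finset V) {y : V} (hy : y ∈ X) (ω : V → Fin q × Fin q)
    (a : Fin q × Fin q) (h : PrP (dlG G X) ω) : PrP (dlG G X) (Function.update ω y a) := by
  have key : ∀ x, x ∉ X → Function.update ω y a x = ω x := by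
    intro x hx
    have hne : x ≠ y := by
      rintro rfl
      exact hx hy
    exact Function.update_of_ne hne _ _
  constructor
  · intro u v huv
    have e1 := key u huv.2.1
    have e2 := key v huv.2.2
    show (Function.update ω y a u).1 ≠ (Function.update ω y a v).1
    rw [e1, e2]
    exact h.1 u v huv
  · intro u v huv
    have e1 := key u huv.2.1
    have e2 := key v huv.2.2
    show (Function.update ω y a u).2 ≠ (Function.update ω y a v).2
    rw [e1, e2]
    exact h.2 u v huv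

open scoped Classical in
private theorem T22_step (D : Bal V d q j) (X Z : Finset V) (y : V) (hy : y ∈ X) (hyZ : y ∉ Z) :
    cP (dlG D.G X) (fun ω => ∀ z ∈ insert y Z, s1 D (ω z) ∧ s2 D (ω z)) ≤
      (2 * (j : ℝ) ^ 2 / (q : ℝ) ^ 2) * cP (dlG D.G X) (fun ω => ∀ z ∈ Z, s1 D (ω z) ∧ s2 D (ω z)) := by
  have hq : (0 : ℝ) < (q : ℝ) := by
    have h1 := D.j1
    have h2 := D.jq
    have h3 : 0 < q := by omega
    exact_mod_cast h3
  set S1 : Finset (V → Fin q × Fin q) :=
    univ.filter fun ω => PrP (dlG D.G X) ω ∧ ∀ z ∈ insert y Z, s1 D (ω z) ∧ s2 D (ω z) with hS1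
  set S0 : Finset (V → Fin q × Fin q) :=
    univ.filter fun ω => PrP (dlG D.G X) ω ∧ ∀ z ∈ Z, s1 D (ω z) ∧ s2 D (ω z) with hS0
  have hc1 : cP (dlG D.G X) (fun ω => ∀ z ∈ insert y Z, s1 D (ω z) ∧ s2 D (ω z)) = (S1.card : ℝ) :=
    T22_card _ _ _
  have hc0 : cP (dlG D.G X) (fun ω => ∀ z ∈ Z, s1 D (ω z) ∧ s2 D (ω z)) = (S0.card : ℝ) :=
    T22_card _ _ _
  rw [hc1, hc0]
  have hinj : (S1 ×ˢ (univ : Finset (Fin q × Fin q))).card ≤
      (S0 ×ˢ (univ.filter fun a : Fin q × Fin q => s1 D a ∧ s2 D a)).card := by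
    refine Finset.card_le_card_of_injOn (fun p => (Function.update p.1 y p.2, p.1 y)) ?_ ?_
    · rintro ⟨ω, a⟩ hp
      rw [Finset.mem_coe, Finset.mem_product] at hp
      obtain ⟨h1, h2⟩ := (Finset.mem_filter.1 hp.1).2
      rw [Finset.mem_coe, Finset.mem_product]
      refine ⟨Finset.mem_filter.2 ⟨Finset.mem_univ _, T22_upd D.G X hy ω a h1, ?_⟩,
        Finset.mem_filter.2 ⟨Finset.mem_univ _, h2 y (Finset.mem_insert_self y Z)⟩⟩
      intro z hz
      have hne : z ≠ y := fun e => hyZ (e ▸ hz)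
      show s1 D (Function.update ω y a z) ∧ s2 D (Function.update ω y a z)
      rw [Function.update_of_ne hne]
      exact h2 z (Finset.mem_insert_of_mem hz)
    · rintro ⟨ω, a⟩ _ ⟨ω', a'⟩ _ h
      have h1 : Function.update ω y a = Function.update ω' y a' := (Prod.mk.inj h).1
      have h2 : ω y = ω' y := (Prod.mk.inj h).2
      have h3 : a = a' := by
        have h4 := congrFun h1 y
        rwa [Function.update_self, Function.update_self] at h4
      have h5 : ω = ω' := by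
        funext x
        by_cases hx : x = y
        · rw [hx, h2]
        · have h6 := congrFun h1 x
          rwa [Function.update_of_ne hx, Function.update_of_ne hx] at h6
      rw [h3, h5]
  rw [Finset.card_product, Finset.card_product, Finset.card_univ, Fintype.card_prod, Fintype.card_fin] at hinj
  have h1 : (S1.card : ℝ) * ((q : ℝ) * q) ≤
      (S0.card : ℝ) * ((univ.filter fun a : Fin q × Fin q => s1 D a ∧ s2 D a).card : ℝ) := by
    exact_mod_cast hinj
  have h2 : (S1.card : ℝ) * ((q : ℝ) * q) ≤ (S0.card : ℝ) * (2 * (j : ℝ) ^ 2) :=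
    h1.trans (mul_le_mul_of_nonneg_left (T22_good D) (Nat.cast_nonneg _))
  rw [div_mul_eq_mul_div, le_div_iff₀ (by positivity)]
  calc (S1.card : ℝ) * (q : ℝ) ^ 2 = (S1.card : ℝ) * ((q : ℝ) * q) := by ring
    _ ≤ (S0.card : ℝ) * (2 * (j : ℝ) ^ 2) := h2
    _ = 2 * (j : ℝ) ^ 2 * (S0.card : ℝ) := by ring

open scoped Classical in
theorem tgt_le (D : Bal V d q j) (X Y : Finset V) (hX : (X.card : ℝ) ≤ (Fintype.card V : ℝ) / 100)
    (hY : ∀ y ∈ Y, ¬ D.ev y) :
    ((univ.filter fun ω : V → Fin q × Fin q => tgt D X Y ω).card : ℝ) ≤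
      Real.exp (-(jN D / 3)) * cP (dlG D.G (X ∪ Y)) (fun ω => ∀ y ∈ Y, s1 D (ω y) ∧ s2 D (ω y)) := by
  set G' := dlG D.G (X ∪ Y) with hG'
  set Ω : Finset (V → Fin q × Fin q) := univ.filter fun ω => PrP G' ω ∧ (∀ y ∈ Y, s1 D (ω y) ∧ s2 D (ω y)) ∧
    (((univ.filter fun v => ¬ D.ev v ∧ v ∉ X ∪ Y ∧ (ω v).1 ∈ D.J2).card : ℝ) ≤ (j : ℝ) / q * Fintype.card V / 10 ^ 20) ∧
    (((univ.filter fun v => ¬ D.ev v ∧ v ∉ X ∪ Y ∧ (ω v).2 ∈ D.J1).card : ℝ) ≤ (j : ℝ) / q * Fintype.card V / 10 ^ 20)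
    with hΩ
  have hp : ∀ ω ∈ Ω, PrP G' ω := fun ω hω => (Finset.mem_filter.1 hω).2.1
  have hc : ∀ ω ∈ Ω, cl G' D.ev ω ⊆ Ω := by
    intro ω hω ω' hω'
    obtain ⟨-, h1, h2, h3, h4⟩ := Finset.mem_filter.1 hω
    have hcl : PrP G' ω' ∧ so D.ev ω' ω := by
      unfold cl at hω'
      exact (Finset.mem_filter.1 hω').2
    obtain ⟨h5, h6⟩ := hcl
    refine Finset.mem_filter.2 ⟨Finset.mem_univ _, h5, ?_, ?_, ?_⟩
    · intro y hy
      rw [h6 y (hY y hy)]
      exact h2 y hy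
    · have e : (univ.filter fun v => ¬ D.ev v ∧ v ∉ X ∪ Y ∧ (ω' v).1 ∈ D.J2) =
          univ.filter fun v => ¬ D.ev v ∧ v ∉ X ∪ Y ∧ (ω v).1 ∈ D.J2 := by
        refine Finset.filter_congr fun v _ => and_congr_right fun hv => ?_
        rw [h6 v hv]
      rw [e]
      exact h3
    · have e : (univ.filter fun v => ¬ D.ev v ∧ v ∉ X ∪ Y ∧ (ω' v).2 ∈ D.J1) =
          univ.filter fun v => ¬ D.ev v ∧ v ∉ X ∪ Y ∧ (ω v).2 ∈ D.J1 := by
        refine Finset.filter_congr fun v _ => and_congr_right fun hv => ?_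
        rw [h6 v hv]
      rw [e]
      exact h4
  have hmain := sum_cl_le G' D.ev Ω hp hc
    (fun ω => if (∀ x, D.ev x → x ∉ X → ¬ ((ω x).1 ∈ D.J2 ∧ (ω x).2 ∈ D.J1)) then (1 : ℝ) else 0)
    (Real.exp (-(jN D / 3))) (by
      intro ω hω
      obtain ⟨-, h1, h2, h3, h4⟩ := Finset.mem_filter.1 hω
      rw [Finset.sum_boole]
      exact class_le D X Y hX ω h3 h4)
  rw [Finset.sum_boole] at hmain
  have e1 : (univ.filter fun ω : V → Fin q × Fin q => tgt D X Y ω) =
      Ω.filter fun ω => ∀ x, D.ev x → x ∉ X → ¬ ((ω x).1 ∈ D.J2 ∧ (ω x).2 ∈ D.J1) := by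
    rw [hΩ, Finset.filter_filter]
    refine Finset.filter_congr fun ω _ => ?_
    unfold tgt
    constructor
    · rintro ⟨h1, h2, h3, h4, h5⟩
      exact ⟨⟨h1, h2, h4, h5⟩, h3⟩
    · rintro ⟨⟨h1, h2, h4, h5⟩, h3⟩
      exact ⟨h1, h2, h3, h4, h5⟩
  rw [e1]
  refine hmain.trans (mul_le_mul_of_nonneg_left ?_ (Real.exp_pos _).le)
  have e2 : Ω.card ≤ (univ.filter fun ω : V → Fin q × Fin q => PrP G' ω ∧ ∀ y ∈ Y, s1 D (ω y) ∧ s2 D (ω y)).card := by
    refine Finset.card_le_card fun ω hω => ?_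
    obtain ⟨-, h1, h2, -⟩ := Finset.mem_filter.1 hω
    exact Finset.mem_filter.2 ⟨Finset.mem_univ _, h1, h2⟩
  have e3 : (Ω.card : ℝ) ≤
      ((univ.filter fun ω : V → Fin q × Fin q => PrP G' ω ∧ ∀ y ∈ Y, s1 D (ω y) ∧ s2 D (ω y)).card : ℝ) := by
    exact_mod_cast e2
  exact e3.trans (le_of_eq (T22_card _ _ _))

open scoped Classical in
theorem Y_factor (D : Bal V d q j) (X Y : Finset V) :
    cP (dlG D.G (X ∪ Y)) (fun ω => ∀ y ∈ Y, s1 D (ω y) ∧ s2 D (ω y)) ≤
      (2 * (j : ℝ) ^ 2 / (q : ℝ) ^ 2) ^ Y.card * cP (dlG D.G (X ∪ Y)) (fun _ : V → Fin q × Fin q => True) := by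
  have key : ∀ Z : Finset V, Z ⊆ Y → cP (dlG D.G (X ∪ Y)) (fun ω => ∀ z ∈ Z, s1 D (ω z) ∧ s2 D (ω z)) ≤
      (2 * (j : ℝ) ^ 2 / (q : ℝ) ^ 2) ^ Z.card * cP (dlG D.G (X ∪ Y)) (fun _ : V → Fin q × Fin q => True) := by
    intro Z
    induction Z using Finset.induction_on with
    | empty =>
      intro _
      rw [Finset.card_empty, pow_zero, one_mul]
      refine le_of_eq ?_
      congr 1
      funext ω
      simp
    | insert y Z hyZ ih =>
      intro hsub
      have h1 := T22_step D (X ∪ Y) Z y (Finset.mem_union_right _ (hsub (Finset.mem_insert_self y Z))) hyZ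
      have h2 := ih fun z hz => hsub (Finset.mem_insert_of_mem hz)
      rw [Finset.card_insert_of_notMem hyZ, pow_succ']
      calc _ ≤ _ := h1
        _ ≤ _ := mul_le_mul_of_nonneg_left h2 (by positivity)
        _ = _ := by ring
  exact key Y (Finset.Subset.refl Y)

end

end Pool.Agent.LC3

end

/-! ### from `Lib_MP_2c424f_lc3.T09` -/

section

/-!
# Part III, T09: (A2)

`x` even, `(u, v)` uniform in `Rv G f x × Rv G g x`, `H(u, v) = #{y ~ x : (u = g y, u ∉ J) or (v = f y, v ∉ J)}`, `J = A \ B`.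
`H ≤ 1[u ∉ J] nv G g x u + 1[v ∉ J] nv G f x v`, so `H^2 ≤ 2 (…)^2 + 2 (…)^2`.  Sum over `(u, v)`:
`2 |Rv g| ∑_{u ∈ Rv f, u ∉ J} (nv g u)^2 + 2 |Rv f| ∑_{v ∈ Rv g, v ∉ J} (nv f v)^2`, and `1 ≤ 3 |Rv f| / q` etc. (E1).
First sum: `u ∈ B`: (E4) for `(g, B)`: `≤ e^{-a/2} q`;  `u ∉ A`, `u ∈ Rv f`: at most `e^{-a} q` colours ((E2) for `(f, A)`, type B), Cauchy-Schwarz and
(E3) for `g`: `≤ (e^{-a} q)^{1/2} (1000 a^4 q)^{1/2} ≤ 32 a^2 e^{-a/2} q`.   Second sum: `v ∈ B ⊆ A`: (E4) for `(f, A)`;  `v ∉ A`, so `v ∉ B`, `v ∈ Rv g`: at most `e^{-a} q`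
((E2) for `(g, B)`), (E3) for `f`.   Total: `(6/q) (2 e^{-a/2} q + 64 a^2 e^{-a/2} q) |Rv f| |Rv g| = (12 + 384 a^2) e^{-a/2} … ≤ 400 a^2 e^{-a/2} …`, `= 2 rh`.
-/

set_option autoImplicit false

open Finset Filter

namespace Pool.Agent.LC3

open Pool.Agent.LO Pool.Agent.LIN Pool.Agent.THR Pool.Agent.COR Pool.Agent.LC

section
variable {V : Type} [Fintype V] [DecidableEq V] {d q : ℕ}

private theorem t09_sq_le {u v : ℝ} (h : u ^ 2 ≤ v ^ 2) (hv : 0 ≤ v) : u ≤ v :=
  (le_abs_self u).trans (abs_le_of_sq_le_sq h hv)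

private theorem t09_exp (a : ℝ) : Real.exp (-a / 2) ^ 2 = Real.exp (-a) := by
  rw [← Real.exp_nat_mul]
  congr 1
  push_cast
  ring

omit [DecidableEq V] in
private theorem t09_small (ha : 0 < ra d q) (G : SimpleGraph V) (ev : V → Prop)
    (A₁ : Finset (Fin q)) (F₁ : V → Fin q) (x : V) (h1 : TyE d G ev A₁ F₁ x)
    (S : Finset (Fin q)) (hS : (S.card : ℝ) ≤ Real.exp (-ra d q) * q) :
    ∑ c ∈ S, (nv G F₁ x c : ℝ) ^ 2 ≤ 32 * ra d q ^ 2 * Real.exp (-ra d q / 2) * q := by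
  have hq : (0 : ℝ) ≤ q := Nat.cast_nonneg q
  have h3 := h1.e3
  have he := t09_exp (ra d q)
  set a : ℝ := ra d q with hadef
  set E : ℝ := Real.exp (-a / 2) with hE
  have hE0 : 0 < E := Real.exp_pos _
  refine t09_sq_le ?_ (by positivity)
  have h8 := sq_sum_le_card_mul_sum_sq (s := S) (f := fun c => (nv G F₁ x c : ℝ) ^ 2)
  refine h8.trans ?_
  have h5 : ∑ c ∈ S, ((nv G F₁ x c : ℝ) ^ 2) ^ 2 ≤ 1000 * a ^ 4 * q := by
    refine le_trans ?_ h3
    refine (Finset.sum_le_sum_of_subset_of_nonneg (Finset.subset_univ S)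
      fun c _ _ => by positivity).trans (le_of_eq ?_)
    exact Finset.sum_congr rfl fun c _ => by ring
  have h9 : (S.card : ℝ) * ∑ c ∈ S, ((nv G F₁ x c : ℝ) ^ 2) ^ 2 ≤
      (Real.exp (-a) * q) * (1000 * a ^ 4 * q) :=
    mul_le_mul hS h5 (Finset.sum_nonneg fun c _ => by positivity) (by positivity)
  refine h9.trans ?_
  rw [← he]
  have h10 : (0 : ℝ) ≤ E ^ 2 * a ^ 4 * q ^ 2 := by positivity
  nlinarith

open scoped Classical in
omit [DecidableEq V] in
private theorem t09_part (ha : 0 < ra d q) (G : SimpleGraph V) (ev : V → Prop)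
    (J A₁ A₂ : Finset (Fin q)) (hJ : ∀ c, c ∉ J → c ∈ A₁ ∨ c ∉ A₂) (F₁ F₂ : V → Fin q) (x : V)
    (hx : ev x) (h1 : TyE d G ev A₁ F₁ x) (h2 : TyE d G ev A₂ F₂ x) :
    ∑ c ∈ Rv G F₂ x, (if c ∉ J then (nv G F₁ x c : ℝ) ^ 2 else 0) ≤
      (1 + 32 * ra d q ^ 2) * Real.exp (-ra d q / 2) * q := by
  set S : Finset (Fin q) := (Rv G F₂ x).filter fun c => ¬ tS ev A₂ x c with hSdef
  have hS : (S.card : ℝ) ≤ Real.exp (-ra d q) * q := h2.e2
  have hn := t09_small ha G ev A₁ F₁ x h1 S hS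
  have h4 := h1.e4
  set S₁ : Finset (Fin q) := univ.filter fun c => tS ev A₁ x c with hS1
  have hle : ∑ c ∈ Rv G F₂ x, (if c ∉ J then (nv G F₁ x c : ℝ) ^ 2 else 0) ≤
      ∑ c ∈ S₁, (nv G F₁ x c : ℝ) ^ 2 + ∑ c ∈ S, (nv G F₁ x c : ℝ) ^ 2 := by
    rw [← Finset.sum_filter]
    have hsub : ((Rv G F₂ x).filter fun c => c ∉ J) ⊆ S₁ ∪ S := by
      intro c hc
      rw [Finset.mem_filter] at hc
      rw [Finset.mem_union]
      by_cases h5 : c ∈ A₁
      · left
        rw [hS1, Finset.mem_filter]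
        exact ⟨Finset.mem_univ _, ⟨fun _ => h5, fun _ => hx⟩⟩
      · right
        rw [hSdef, Finset.mem_filter]
        refine ⟨hc.1, fun h6 => ?_⟩
        rcases hJ c hc.2 with h7 | h7
        · exact h5 h7
        · exact h7 (h6.1 hx)
    refine (Finset.sum_le_sum_of_subset_of_nonneg hsub fun c _ _ => by positivity).trans ?_
    rw [← Finset.sum_union_inter]
    have : 0 ≤ ∑ c ∈ S₁ ∩ S, (nv G F₁ x c : ℝ) ^ 2 :=
      Finset.sum_nonneg fun c _ => by positivity
    linarith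
  refine hle.trans ((add_le_add h4 hn).trans (le_of_eq ?_))
  ring

open scoped Classical in
omit [DecidableEq V] in
private theorem t09_H (G : SimpleGraph V) (J : Finset (Fin q)) (f g : V → Fin q) (x : V)
    (u v : Fin q) :
    (((nb G x).filter fun y => cj J f g y u v).card : ℝ) ≤
      (if u ∉ J then (nv G g x u : ℝ) else 0) + (if v ∉ J then (nv G f x v : ℝ) else 0) := by
  have h1 : ((nb G x).filter fun y => cj J f g y u v) ⊆
      (if u ∉ J then (univ.filter fun y => G.Adj x y ∧ g y = u) else ∅) ∪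
      (if v ∉ J then (univ.filter fun y => G.Adj x y ∧ f y = v) else ∅) := by
    intro y hy
    rw [Finset.mem_filter] at hy
    obtain ⟨h2, h3⟩ := hy
    unfold nb at h2
    rw [Finset.mem_filter] at h2
    rw [Finset.mem_union]
    unfold cj at h3
    rcases h3 with ⟨h4, h5⟩ | ⟨h4, h5⟩
    · left
      rw [if_pos h5, Finset.mem_filter]
      exact ⟨Finset.mem_univ _, h2.2, h4.symm⟩
    · right
      rw [if_pos h5, Finset.mem_filter]
      exact ⟨Finset.mem_univ _, h2.2, h4.symm⟩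
  have h2 := (Finset.card_le_card h1).trans (Finset.card_union_le _ _)
  have h3 : (((nb G x).filter fun y => cj J f g y u v).card : ℝ) ≤
      (((if u ∉ J then (univ.filter fun y => G.Adj x y ∧ g y = u) else ∅ : Finset V).card : ℕ) : ℝ)
      + (((if v ∉ J then (univ.filter fun y => G.Adj x y ∧ f y = v) else ∅ : Finset V).card : ℕ)
        : ℝ) := by
    exact_mod_cast h2
  refine h3.trans (add_le_add ?_ ?_)
  · by_cases hu : u ∈ J
    · simp [hu]
    · rw [if_pos hu, if_pos hu]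
      exact le_rfl
  · by_cases hv : v ∈ J
    · simp [hv]
    · rw [if_pos hv, if_pos hv]
      exact le_rfl

open scoped Classical in
theorem hx_sq (hR : Rg d q) (hd : 1 ≤ d) (G : SimpleGraph V) (ev : V → Prop) (A B : Finset (Fin q)) (hB : B ⊆ A)
    (f g : V → Fin q) (x : V) (hx : ev x) (hf : TyE d G ev A f x) (hg : TyE d G ev B g x) :
    ∑ a ∈ Rv G f x ×ˢ Rv G g x, (((nb G x).filter fun y => cj (A \ B) f g y a.1 a.2).card : ℝ) ^ 2 ≤
      2 * rh d q * (((Rv G f x).card : ℝ) * ((Rv G g x).card : ℝ)) := by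
  have ha := (num_a hR hd).1
  have ha0 : 0 < ra d q := by linarith
  have p1 := t09_part ha0 G ev (A \ B) B A (by
    intro c hc
    rw [Finset.mem_sdiff] at hc
    tauto) g f x hx hg hf
  have p2 := t09_part ha0 G ev (A \ B) A B (by
    intro c hc
    rw [Finset.mem_sdiff] at hc
    have := @hB c
    tauto) f g x hx hf hg
  have e1 := hf.e1
  have e2 := hg.e1
  set r := ((Rv G f x).card : ℝ) with hr
  set t := ((Rv G g x).card : ℝ) with ht
  set a := ra d q with hadef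
  set E := Real.exp (-a / 2) with hE
  have hE0 : 0 < E := Real.exp_pos _
  have hq : (0 : ℝ) ≤ q := Nat.cast_nonneg q
  have hr0 : 0 ≤ r := Nat.cast_nonneg _
  have ht0 : 0 ≤ t := Nat.cast_nonneg _
  have hmain : ∑ a ∈ Rv G f x ×ˢ Rv G g x,
      (((nb G x).filter fun y => cj (A \ B) f g y a.1 a.2).card : ℝ) ^ 2 ≤
      2 * (t * ((1 + 32 * a ^ 2) * E * q)) + 2 * (r * ((1 + 32 * a ^ 2) * E * q)) := by
    have h1 : ∑ b ∈ Rv G f x ×ˢ Rv G g x,
        (((nb G x).filter fun y => cj (A \ B) f g y b.1 b.2).card : ℝ) ^ 2 ≤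
        ∑ b ∈ Rv G f x ×ˢ Rv G g x,
          (2 * (if b.1 ∉ A \ B then (nv G g x b.1 : ℝ) ^ 2 else 0) +
            2 * (if b.2 ∉ A \ B then (nv G f x b.2 : ℝ) ^ 2 else 0)) := by
      apply Finset.sum_le_sum
      intro b _
      have h2 := t09_H G (A \ B) f g x b.1 b.2
      have h3 : (((nb G x).filter fun y => cj (A \ B) f g y b.1 b.2).card : ℝ) ^ 2 ≤
          ((if b.1 ∉ A \ B then (nv G g x b.1 : ℝ) else 0) +
            (if b.2 ∉ A \ B then (nv G f x b.2 : ℝ) else 0)) ^ 2 :=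
        pow_le_pow_left₀ (Nat.cast_nonneg _) h2 2
      refine h3.trans ?_
      set X := (if b.1 ∉ A \ B then (nv G g x b.1 : ℝ) else 0) with hX
      set Y := (if b.2 ∉ A \ B then (nv G f x b.2 : ℝ) else 0) with hY
      have h4 : (if b.1 ∉ A \ B then (nv G g x b.1 : ℝ) ^ 2 else 0) = X ^ 2 := by
        rw [hX]; split_ifs <;> simp
      have h5 : (if b.2 ∉ A \ B then (nv G f x b.2 : ℝ) ^ 2 else 0) = Y ^ 2 := by
        rw [hY]; split_ifs <;> simp
      rw [h4, h5]
      nlinarith [sq_nonneg (X - Y)]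
    refine h1.trans ?_
    rw [Finset.sum_add_distrib, Finset.sum_product, Finset.sum_product]
    have h2 : ∑ u ∈ Rv G f x, ∑ _v ∈ Rv G g x,
        2 * (if u ∉ A \ B then (nv G g x u : ℝ) ^ 2 else 0) =
        2 * (t * ∑ u ∈ Rv G f x, (if u ∉ A \ B then (nv G g x u : ℝ) ^ 2 else 0)) := by
      simp_rw [Finset.sum_const, nsmul_eq_mul]
      rw [Finset.mul_sum, Finset.mul_sum]
      exact Finset.sum_congr rfl fun u _ => by rw [ht]; ring
    have h3 : ∑ _u ∈ Rv G f x, ∑ v ∈ Rv G g x,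
        2 * (if v ∉ A \ B then (nv G f x v : ℝ) ^ 2 else 0) =
        2 * (r * ∑ v ∈ Rv G g x, (if v ∉ A \ B then (nv G f x v : ℝ) ^ 2 else 0)) := by
      rw [Finset.sum_const, nsmul_eq_mul, ← Finset.mul_sum, hr]
      ring
    dsimp only
    rw [h2, h3]
    have h4 := mul_le_mul_of_nonneg_left p1 ht0
    have h5 := mul_le_mul_of_nonneg_left p2 hr0
    linarith
  refine hmain.trans ?_
  have hrh : rh d q = 200 * a ^ 2 * E := rfl
  rw [hrh]
  have h6 : t * q ≤ 3 * (r * t) := by nlinarith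
  have h7 : r * q ≤ 3 * (r * t) := by nlinarith
  have h8 : (0 : ℝ) ≤ (1 + 32 * a ^ 2) * E := by positivity
  have h9 := mul_le_mul_of_nonneg_left (add_le_add h6 h7) h8
  have h10 : (0 : ℝ) ≤ r * t := mul_nonneg hr0 ht0
  have h11 : (0 : ℝ) ≤ (16 * a ^ 2 - 12) * E * (r * t) := by
    have : (0 : ℝ) ≤ 16 * a ^ 2 - 12 := by nlinarith
    positivity
  nlinarith

end

end Pool.Agent.LC3

end

/-! ### from `Lib_MP_2c424f_lc3.T10` -/

section

/-!
# Part III, T10: the kernels of the conflict walk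

`S = Sx G ev ω₀` (non-empty: it contains the values of `ω₀`, `PrP`), `cf = cfB D ω₀`.
`PKer`: `p1`, `p2`: if the vertices are adjacent and outside `X0` these are the definitions of `P1B`, `P2B` (`pc`), otherwise the sets are empty.
`Ker` with `ρ = rh`, `b = 6 a`, `ρ' = 2 rh`: `o2`: for `y ∉ X0`: the sum is at most `∑_{y'} Mk G (A \ B) f g y y' ≤ rh` (`row_le`; `y ∉ X0` means `cert`); for `y ∈ X0` it is 0.
`o1`: `P1B x y ≤ 1/|Rv f x| + 1/|Rv g x| ≤ 6/q` for `x ∉ X0` ((E1)), and `y` has `2 d` neighbours: `12 d / q = 6 a`.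
`e1`, `e2`: for `x ∉ X0` (both `TyE`): `∑_y P1B x y ≤ (∑_a H(a)) / (|Rv f| |Rv g|)`, `∑_{y,y'} P2B x y y' ≤ (∑_a H(a)^2) / (|Rv f| |Rv g|)`, `H ≤ H^2` for natural numbers,
`hx_sq`.
-/

set_option autoImplicit false

open Finset Filter

namespace Pool.Agent.LC3

open Pool.Agent.LO Pool.Agent.LIN Pool.Agent.THR Pool.Agent.COR Pool.Agent.LC

section
variable {V : Type} [Fintype V] [DecidableEq V] {d q j : ℕ}

private theorem T10_ev (D : Bal V d q j) (ω₀ : V → Fin q × Fin q) {x : V} (hx : D.ev x) (h : x ∉ X0 D ω₀) :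
    TyE d D.G D.ev D.A (fo ω₀) x ∧ TyE d D.G D.ev D.B (go ω₀) x := by
  by_contra hc
  refine h ?_
  unfold X0
  simp only [Finset.mem_filter, Finset.mem_univ, true_and]
  exact Or.inl ⟨hx, hc⟩

private theorem T10_od (D : Bal V d q j) (ω₀ : V → Fin q × Fin q) {y : V} (hy : ¬ D.ev y) (h : y ∉ X0 D ω₀) :
    cert d D.G D.ev D.A D.B (fo ω₀) (go ω₀) y := by
  by_contra hc
  refine h ?_
  unfold X0
  simp only [Finset.mem_filter, Finset.mem_univ, true_and]
  exact Or.inr ⟨hy, hc⟩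

private theorem T10_n1 (D : Bal V d q j) (ω₀ : V → Fin q × Fin q) (x y : V) : 0 ≤ P1B D ω₀ x y := by
  unfold P1B
  split_ifs
  · positivity
  · exact le_rfl

private theorem T10_pc {Λ : Type} [Fintype Λ] (G : SimpleGraph Λ) (J : Finset (Fin q)) (f g : Λ → Fin q)
    (x y y' : Λ) : 0 ≤ pc G J f g x y y' := by
  unfold pc
  positivity

private theorem T10_n2 (D : Bal V d q j) (ω₀ : V → Fin q × Fin q) (x y y' : V) : 0 ≤ P2B D ω₀ x y y' := by
  unfold P2B
  split_ifs
  · exact T10_pc _ _ _ _ _ _ _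
  · exact le_rfl

private theorem T10_mem_nb (G : SimpleGraph V) (x y : V) : y ∈ nb G x ↔ G.Adj x y := by
  unfold nb
  simp only [Finset.mem_filter, Finset.mem_univ, true_and]

theorem pker (D : Bal V d q j) {ω₀ : V → Fin q × Fin q} (h : PrP D.G ω₀) :
    PKer (Sx D.G D.ev ω₀) D.ev (cfB D ω₀) (P1B D ω₀) (P2B D ω₀) := by
  classical
  have hmem : ∀ v, D.ev v → (ω₀ v).1 ∈ Rv D.G (fo ω₀) v ∧ (ω₀ v).2 ∈ Rv D.G (go ω₀) v := by
    intro v _
    unfold Rv
    simp only [Finset.mem_filter, Finset.mem_univ, true_and]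
    exact ⟨fun x hx => (h.1 v x hx).symm, fun x hx => (h.2 v x hx).symm⟩
  have hS : ∀ x, D.ev x → Sx D.G D.ev ω₀ x = Rv D.G (fo ω₀) x ×ˢ Rv D.G (go ω₀) x := by
    intro x hx
    unfold Sx
    rw [if_pos hx]
  have hcard : ∀ x, D.ev x → ((Sx D.G D.ev ω₀ x).card : ℝ) =
      ((Rv D.G (fo ω₀) x).card : ℝ) * ((Rv D.G (go ω₀) x).card : ℝ) := by
    intro x hx
    rw [hS x hx, Finset.card_product]
    push_cast
    rfl
  have hpos : ∀ x, D.ev x → 0 < ((Rv D.G (fo ω₀) x).card : ℝ) * ((Rv D.G (go ω₀) x).card : ℝ) := by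
    intro x hx
    have h1 : 0 < (Rv D.G (fo ω₀) x).card := Finset.card_pos.2 ⟨_, (hmem x hx).1⟩
    have h2 : 0 < (Rv D.G (go ω₀) x).card := Finset.card_pos.2 ⟨_, (hmem x hx).2⟩
    have h1' : (0 : ℝ) < ((Rv D.G (fo ω₀) x).card : ℝ) := by exact_mod_cast h1
    have h2' : (0 : ℝ) < ((Rv D.G (go ω₀) x).card : ℝ) := by exact_mod_cast h2
    positivity
  refine ⟨?_, ?_, ?_⟩
  · intro v
    refine ⟨ω₀ v, ?_⟩
    by_cases hv : D.ev v
    · rw [hS v hv, Finset.mem_product]
      exact hmem v hv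
    · unfold Sx
      rw [if_neg hv, Finset.mem_singleton]
  · intro x y hx hy
    by_cases hc : D.G.Adj x y ∧ x ∉ X0 D ω₀ ∧ y ∉ X0 D ω₀
    · have hP : P1B D ω₀ x y = _ := if_pos ⟨hx, hy, hc.1, hc.2.1, hc.2.2⟩
      rw [hP, hcard x hx, div_mul_cancel₀ _ (hpos x hx).ne', Nat.cast_le]
      refine Finset.card_le_card fun a ha => ?_
      rw [Finset.mem_filter, hS x hx] at ha
      rw [Finset.mem_filter]
      exact ⟨ha.1, ha.2.2.2.2⟩
    · have h0 : ((Sx D.G D.ev ω₀ x).filter fun a => cfB D ω₀ x y a).card = 0 := by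
        rw [Finset.card_eq_zero, Finset.filter_eq_empty_iff]
        intro a _ ha
        exact hc ⟨ha.1, ha.2.1, ha.2.2.1⟩
      rw [h0, Nat.cast_zero]
      exact mul_nonneg (T10_n1 D ω₀ x y) (Nat.cast_nonneg _)
  · intro x y y' hx hy hy' hne
    by_cases hc : D.G.Adj x y ∧ D.G.Adj x y' ∧ x ∉ X0 D ω₀ ∧ y ∉ X0 D ω₀ ∧ y' ∉ X0 D ω₀
    · have hP : P2B D ω₀ x y y' = _ :=
        if_pos ⟨hx, hy, hy', hc.1, hc.2.1, hne, hc.2.2.1, hc.2.2.2.1, hc.2.2.2.2⟩
      rw [hP, hcard x hx]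
      unfold pc
      rw [div_mul_cancel₀ _ (hpos x hx).ne', Nat.cast_le]
      refine Finset.card_le_card fun a ha => ?_
      rw [Finset.mem_filter, hS x hx] at ha
      rw [Finset.mem_filter]
      exact ⟨ha.1, ha.2.1.2.2.2, ha.2.2.2.2.2⟩
    · have h0 : ((Sx D.G D.ev ω₀ x).filter fun a => cfB D ω₀ x y a ∧ cfB D ω₀ x y' a).card = 0 := by
        rw [Finset.card_eq_zero, Finset.filter_eq_empty_iff]
        intro a _ ha
        exact hc ⟨ha.1.1, ha.2.1, ha.1.2.1, ha.1.2.2.1, ha.2.2.2.1⟩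
      rw [h0, Nat.cast_zero]
      exact mul_nonneg (T10_n2 D ω₀ x y y') (Nat.cast_nonneg _)

open scoped Classical in
/-- conflicts with one neighbour -/
private theorem T10_cj_card (G : SimpleGraph V) (J : Finset (Fin q)) (f g : V → Fin q) (x y : V) :
    ((Rv G f x ×ˢ Rv G g x).filter fun a => cj J f g y a.1 a.2).card ≤
      (Rv G f x).card + (Rv G g x).card := by
  have h1 : ((Rv G f x ×ˢ Rv G g x).filter fun a => cj J f g y a.1 a.2) ⊆
      (Rv G f x ×ˢ {f y}) ∪ ({g y} ×ˢ Rv G g x) := by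
    intro a ha
    rw [Finset.mem_filter, Finset.mem_product] at ha
    rw [Finset.mem_union, Finset.mem_product, Finset.mem_product, Finset.mem_singleton, Finset.mem_singleton]
    rcases ha.2 with h | h
    · exact Or.inr ⟨h.1, ha.1.2⟩
    · exact Or.inl ⟨ha.1.1, h.1⟩
  refine (Finset.card_le_card h1).trans ((Finset.card_union_le _ _).trans ?_)
  rw [Finset.card_product, Finset.card_product, Finset.card_singleton, Finset.card_singleton, mul_one, one_mul]

open scoped Classical in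
/-- the sum over the neighbours -/
private theorem T10_sum1 (G : SimpleGraph V) (J : Finset (Fin q)) (f g : V → Fin q) (x : V) :
    ∑ y ∈ nb G x, (((Rv G f x ×ˢ Rv G g x).filter fun a => cj J f g y a.1 a.2).card : ℝ) =
      ∑ a ∈ Rv G f x ×ˢ Rv G g x, (((nb G x).filter fun y => cj J f g y a.1 a.2).card : ℝ) := by
  have h1 : ∀ y : V, (((Rv G f x ×ˢ Rv G g x).filter fun a => cj J f g y a.1 a.2).card : ℝ) =
      ∑ a ∈ Rv G f x ×ˢ Rv G g x, if cj J f g y a.1 a.2 then (1 : ℝ) else 0 := by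
    intro y
    rw [Finset.sum_boole]
  have h2 : ∀ a : Fin q × Fin q, (((nb G x).filter fun y => cj J f g y a.1 a.2).card : ℝ) =
      ∑ y ∈ nb G x, if cj J f g y a.1 a.2 then (1 : ℝ) else 0 := by
    intro a
    rw [Finset.sum_boole]
  rw [Finset.sum_congr rfl fun y _ => h1 y, Finset.sum_congr rfl fun a _ => h2 a, Finset.sum_comm]

open scoped Classical in
/-- the sum over the pairs of neighbours -/
private theorem T10_sum2 (G : SimpleGraph V) (J : Finset (Fin q)) (f g : V → Fin q) (x : V) :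
    ∑ y ∈ nb G x, ∑ y' ∈ nb G x, pc G J f g x y y' =
      (∑ a ∈ Rv G f x ×ˢ Rv G g x, (((nb G x).filter fun y => cj J f g y a.1 a.2).card : ℝ) ^ 2) /
        (((Rv G f x).card : ℝ) * ((Rv G g x).card : ℝ)) := by
  have h1 : ∀ y y' : V, pc G J f g x y y' =
      (∑ a ∈ Rv G f x ×ˢ Rv G g x, (if cj J f g y a.1 a.2 then (1 : ℝ) else 0) *
        (if cj J f g y' a.1 a.2 then (1 : ℝ) else 0)) /
        (((Rv G f x).card : ℝ) * ((Rv G g x).card : ℝ)) := by
    intro y y'
    unfold pc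
    congr 1
    rw [← Finset.sum_boole]
    refine Finset.sum_congr rfl fun a _ => ?_
    by_cases ha : cj J f g y a.1 a.2
    · by_cases hb : cj J f g y' a.1 a.2
      · rw [if_pos ⟨ha, hb⟩, if_pos ha, if_pos hb, mul_one]
      · rw [if_neg fun h => hb h.2, if_neg hb, mul_zero]
    · rw [if_neg fun h => ha h.1, if_neg ha, zero_mul]
  have h2 : ∀ a : Fin q × Fin q, (((nb G x).filter fun y => cj J f g y a.1 a.2).card : ℝ) ^ 2 =
      ∑ y ∈ nb G x, ∑ y' ∈ nb G x, (if cj J f g y a.1 a.2 then (1 : ℝ) else 0) *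
        (if cj J f g y' a.1 a.2 then (1 : ℝ) else 0) := by
    intro a
    rw [← Finset.sum_mul_sum, Finset.sum_boole, sq]
  rw [Finset.sum_congr rfl fun y _ => Finset.sum_congr rfl fun y' _ => h1 y y',
    Finset.sum_congr rfl fun a _ => h2 a]
  simp_rw [← Finset.sum_div]
  congr 1
  rw [Finset.sum_comm]
  have h3 : ∀ y ∈ nb G x, ∑ y' ∈ nb G x, ∑ a ∈ Rv G f x ×ˢ Rv G g x,
      (if cj J f g y' a.1 a.2 then (1 : ℝ) else 0) * (if cj J f g y a.1 a.2 then (1 : ℝ) else 0) =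
      ∑ a ∈ Rv G f x ×ˢ Rv G g x, ∑ y' ∈ nb G x,
      (if cj J f g y' a.1 a.2 then (1 : ℝ) else 0) * (if cj J f g y a.1 a.2 then (1 : ℝ) else 0) :=
    fun y _ => Finset.sum_comm
  rw [Finset.sum_congr rfl h3, Finset.sum_comm]
  refine Finset.sum_congr rfl fun a _ => ?_
  rw [Finset.sum_comm]

theorem ker (D : Bal V d q j) (ω₀ : V → Fin q × Fin q) :
    Ker D.ev (P1B D ω₀) (P2B D ω₀) (rh d q) (6 * ra d q) (2 * rh d q) := by
  classical
  have hd1 : 1 ≤ d := le_trans (by norm_num) D.dl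
  obtain ⟨hq1, -, -⟩ := num_q D.rg hd1
  have hq0 : (0 : ℝ) < q := by exact_mod_cast hq1
  have hra0 : 0 ≤ ra d q := by
    unfold ra
    positivity
  have hrh0 : 0 ≤ rh d q := by
    unfold rh
    positivity
  have hcpos : ∀ x, D.ev x → x ∉ X0 D ω₀ →
      (q : ℝ) / 3 ≤ ((Rv D.G (fo ω₀) x).card : ℝ) ∧ (q : ℝ) / 3 ≤ ((Rv D.G (go ω₀) x).card : ℝ) := by
    intro x hx hx0
    obtain ⟨h1, h2⟩ := T10_ev D ω₀ hx hx0
    exact ⟨h1.e1, h2.e1⟩
  have hsq : ∀ x, D.ev x → x ∉ X0 D ω₀ →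
      (∑ a ∈ Rv D.G (fo ω₀) x ×ˢ Rv D.G (go ω₀) x,
        (((nb D.G x).filter fun y => cj (D.A \ D.B) (fo ω₀) (go ω₀) y a.1 a.2).card : ℝ) ^ 2) /
        (((Rv D.G (fo ω₀) x).card : ℝ) * ((Rv D.G (go ω₀) x).card : ℝ)) ≤ 2 * rh d q := by
    intro x hx hx0
    obtain ⟨h1, h2⟩ := T10_ev D ω₀ hx hx0
    obtain ⟨c1, c2⟩ := hcpos x hx hx0
    have c1' : 0 < ((Rv D.G (fo ω₀) x).card : ℝ) := lt_of_lt_of_le (by positivity) c1
    have c2' : 0 < ((Rv D.G (go ω₀) x).card : ℝ) := lt_of_lt_of_le (by positivity) c2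
    rw [div_le_iff₀ (mul_pos c1' c2')]
    exact hx_sq D.rg hd1 D.G D.ev D.A D.B D.sub (fo ω₀) (go ω₀) x hx h1 h2
  refine
  { n1 := T10_n1 D ω₀
    n2 := T10_n2 D ω₀
    z1 := fun x y hy => if_neg fun h => h.2.1 hy
    z2 := fun x y y' hy => if_neg fun h => hy.elim h.2.1 h.2.2.1
    sy := ?_
    r0 := hrh0
    b0 := by positivity
    r0' := by positivity
    o2 := ?_
    o1 := ?_
    e1 := ?_
    e2 := ?_ }
  · intro x y y'
    have hpc : pc D.G (D.A \ D.B) (fo ω₀) (go ω₀) x y y' = pc D.G (D.A \ D.B) (fo ω₀) (go ω₀) x y' y := by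
      unfold pc
      congr 3
      refine Finset.filter_congr fun a _ => and_comm
    by_cases hc : D.ev x ∧ ¬ D.ev y ∧ ¬ D.ev y' ∧ D.G.Adj x y ∧ D.G.Adj x y' ∧ y ≠ y' ∧ x ∉ X0 D ω₀ ∧
        y ∉ X0 D ω₀ ∧ y' ∉ X0 D ω₀
    · obtain ⟨g1, g2, g3, g4, g5, g6, g7, g8, g9⟩ := hc
      have e1 : P2B D ω₀ x y y' = _ := if_pos ⟨g1, g2, g3, g4, g5, g6, g7, g8, g9⟩
      have e2 : P2B D ω₀ x y' y = _ := if_pos ⟨g1, g3, g2, g5, g4, g6.symm, g7, g9, g8⟩
      rw [e1, e2, hpc]
    · have e1 : P2B D ω₀ x y y' = 0 := if_neg hc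
      have e2 : P2B D ω₀ x y' y = 0 := if_neg fun h => hc
        ⟨h.1, h.2.2.1, h.2.1, h.2.2.2.2.1, h.2.2.2.1, h.2.2.2.2.2.1.symm, h.2.2.2.2.2.2.1,
          h.2.2.2.2.2.2.2.2, h.2.2.2.2.2.2.2.1⟩
      rw [e1, e2]
  · -- o2
    intro y hy
    by_cases hy0 : y ∈ X0 D ω₀
    · have h0 : ∀ x y', P2B D ω₀ x y y' = 0 := fun x y' => if_neg fun h => h.2.2.2.2.2.2.2.1 hy0
      simp only [h0, Finset.sum_const_zero]
      exact hrh0
    · have hrow := row_le D.rg hq1 D.G D.ev D.par D.A D.B D.sub (fo ω₀) (go ω₀) y hy (T10_od D ω₀ hy hy0)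
      refine le_trans ?_ hrow
      rw [Finset.sum_comm]
      refine Finset.sum_le_sum fun y' _ => ?_
      unfold Mk
      refine Finset.sum_le_sum fun x _ => ?_
      by_cases hc : D.ev x ∧ ¬ D.ev y ∧ ¬ D.ev y' ∧ D.G.Adj x y ∧ D.G.Adj x y' ∧ y ≠ y' ∧ x ∉ X0 D ω₀ ∧
          y ∉ X0 D ω₀ ∧ y' ∉ X0 D ω₀
      · have e1 : P2B D ω₀ x y y' = _ := if_pos hc
        rw [e1, if_pos ⟨hc.2.2.2.1.symm, hc.2.2.2.2.1, hc.2.2.2.2.2.1⟩]
      · have e1 : P2B D ω₀ x y y' = 0 := if_neg hc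
        rw [e1]
        split_ifs
        · exact T10_pc _ _ _ _ _ _ _
        · exact le_rfl
  · -- o1
    intro y hy
    have h1 : ∀ x, P1B D ω₀ x y ≤ if x ∈ nb D.G y then (6 : ℝ) / q else 0 := by
      intro x
      by_cases hc : D.ev x ∧ ¬ D.ev y ∧ D.G.Adj x y ∧ x ∉ X0 D ω₀ ∧ y ∉ X0 D ω₀
      · have e1 : P1B D ω₀ x y = _ := if_pos hc
        rw [e1, if_pos ((T10_mem_nb D.G y x).2 hc.2.2.1.symm)]
        obtain ⟨c1, c2⟩ := hcpos x hc.1 hc.2.2.2.1
        have c1' : 0 < ((Rv D.G (fo ω₀) x).card : ℝ) := lt_of_lt_of_le (by positivity) c1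
        have c2' : 0 < ((Rv D.G (go ω₀) x).card : ℝ) := lt_of_lt_of_le (by positivity) c2
        have h2 := T10_cj_card D.G (D.A \ D.B) (fo ω₀) (go ω₀) x y
        have h3 : ((((Rv D.G (fo ω₀) x ×ˢ Rv D.G (go ω₀) x).filter fun a =>
            cj (D.A \ D.B) (fo ω₀) (go ω₀) y a.1 a.2).card : ℕ) : ℝ) ≤
            ((Rv D.G (fo ω₀) x).card : ℝ) + ((Rv D.G (go ω₀) x).card : ℝ) := by exact_mod_cast h2
        rw [div_le_div_iff₀ (mul_pos c1' c2') hq0]
        nlinarith [mul_nonneg (sub_nonneg.2 c1) c2'.le, mul_nonneg (sub_nonneg.2 c2) c1'.le]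
      · have e1 : P1B D ω₀ x y = 0 := if_neg hc
        rw [e1]
        split_ifs
        · positivity
        · exact le_rfl
    refine (Finset.sum_le_sum fun x _ => h1 x).trans ?_
    rw [← Finset.sum_filter, Finset.sum_const, nsmul_eq_mul]
    have h2 : (Finset.univ.filter fun x => x ∈ nb D.G y) = nb D.G y := by
      ext x
      simp
    rw [h2, D.deg y]
    unfold ra
    push_cast
    apply le_of_eq
    field_simp
  · -- e1
    intro x hx
    by_cases hx0 : x ∈ X0 D ω₀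
    · have h0 : ∀ y, P1B D ω₀ x y = 0 := fun y => if_neg fun h => h.2.2.2.1 hx0
      simp only [h0, Finset.sum_const_zero]
      positivity
    · refine le_trans ?_ (hsq x hx hx0)
      have h1 : ∀ y, P1B D ω₀ x y ≤ if y ∈ nb D.G x then
          (((Rv D.G (fo ω₀) x ×ˢ Rv D.G (go ω₀) x).filter fun a =>
            cj (D.A \ D.B) (fo ω₀) (go ω₀) y a.1 a.2).card : ℝ) /
          (((Rv D.G (fo ω₀) x).card : ℝ) * ((Rv D.G (go ω₀) x).card : ℝ)) else 0 := by
        intro y
        by_cases hc : D.ev x ∧ ¬ D.ev y ∧ D.G.Adj x y ∧ x ∉ X0 D ω₀ ∧ y ∉ X0 D ω₀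
        · have e1 : P1B D ω₀ x y = _ := if_pos hc
          rw [e1, if_pos ((T10_mem_nb D.G x y).2 hc.2.2.1)]
        · have e1 : P1B D ω₀ x y = 0 := if_neg hc
          rw [e1]
          split_ifs
          · positivity
          · exact le_rfl
      refine (Finset.sum_le_sum fun y _ => h1 y).trans ?_
      rw [← Finset.sum_filter]
      have h2 : (Finset.univ.filter fun y => y ∈ nb D.G x) = nb D.G x := by
        ext y
        simp
      rw [h2, ← Finset.sum_div, T10_sum1]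
      refine div_le_div_of_nonneg_right ?_ (by positivity)
      refine Finset.sum_le_sum fun a _ => ?_
      have h3 : ((nb D.G x).filter fun y => cj (D.A \ D.B) (fo ω₀) (go ω₀) y a.1 a.2).card ≤
          ((nb D.G x).filter fun y => cj (D.A \ D.B) (fo ω₀) (go ω₀) y a.1 a.2).card ^ 2 := by
        generalize ((nb D.G x).filter fun y => cj (D.A \ D.B) (fo ω₀) (go ω₀) y a.1 a.2).card = m
        nlinarith [Nat.zero_le m, sq_nonneg m, Nat.le_mul_self m]
      exact_mod_cast h3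
  · -- e2
    intro x hx
    by_cases hx0 : x ∈ X0 D ω₀
    · have h0 : ∀ y y', P2B D ω₀ x y y' = 0 := fun y y' => if_neg fun h => h.2.2.2.2.2.2.1 hx0
      simp only [h0, Finset.sum_const_zero]
      positivity
    · refine le_trans ?_ (hsq x hx hx0)
      rw [← T10_sum2]
      have h1 : ∀ y y', P2B D ω₀ x y y' ≤ if y' ∈ nb D.G x then
          (if y ∈ nb D.G x then pc D.G (D.A \ D.B) (fo ω₀) (go ω₀) x y y' else 0) else 0 := by
        intro y y'
        by_cases hc : D.ev x ∧ ¬ D.ev y ∧ ¬ D.ev y' ∧ D.G.Adj x y ∧ D.G.Adj x y' ∧ y ≠ y' ∧ x ∉ X0 D ω₀ ∧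
            y ∉ X0 D ω₀ ∧ y' ∉ X0 D ω₀
        · have e1 : P2B D ω₀ x y y' = _ := if_pos hc
          rw [e1, if_pos ((T10_mem_nb D.G x y').2 hc.2.2.2.2.1), if_pos ((T10_mem_nb D.G x y).2 hc.2.2.2.1)]
        · have e1 : P2B D ω₀ x y y' = 0 := if_neg hc
          rw [e1]
          split_ifs
          · exact T10_pc _ _ _ _ _ _ _
          · exact le_rfl
          · exact le_rfl
      have h2 : (Finset.univ.filter fun y => y ∈ nb D.G x) = nb D.G x := by
        ext y
        simp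
      have h3 : ∀ y, ∑ y', P2B D ω₀ x y y' ≤ if y ∈ nb D.G x then
          ∑ y' ∈ nb D.G x, pc D.G (D.A \ D.B) (fo ω₀) (go ω₀) x y y' else 0 := by
        intro y
        refine (Finset.sum_le_sum fun y' _ => h1 y y').trans ?_
        rw [← Finset.sum_filter, h2]
        split_ifs
        · exact le_rfl
        · rw [Finset.sum_const_zero]
      refine (Finset.sum_le_sum fun y _ => h3 y).trans ?_
      rw [← Finset.sum_filter, h2]

end

end Pool.Agent.LC3

end

/-! ### from `Lib_MP_2c424f_lc3.T13` -/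

section

/-!
# Part III, T13: expected number of generic paths

`paths_sum` (file `PercB.lean`) with `c = 4` and `T10`, `S = Sx G ev ω₀`; for `ω ∈ cl G ev ω₀` (`cl_eq`) and `gen D ω l` all consecutive pairs of `l` are
`cfl D.ev (cfB D ω₀) ω`-related (as in `T12`; `X0_so`).  `(2 (4 · 2 ρ) + 4 ρ + 4 · 2 ρ · (4 · 6 a)) ≤ 10^{-50}`, `4 ρ ≤ 10^{-50}` (`num_e`, `num_a`).
-/

set_option autoImplicit false

open Finset Filter

namespace Pool.Agent.LC3

open Pool.Agent.LO Pool.Agent.LIN Pool.Agent.THR Pool.Agent.COR Pool.Agent.LC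

section
variable {V : Type} [Fintype V] [DecidableEq V] {d q j : ℕ}

private theorem T13_chain (D : Bal V d q j) {ω₀ ω : V → Fin q × Fin q} (hso : so D.ev ω ω₀) :
    ∀ l : List V, (∀ s ∈ l, s ∉ X0 D ω) → l.IsChain (gc D ω) → l.IsChain (cfl D.ev (cfB D ω₀) ω) := by
  have hX : X0 D ω = X0 D ω₀ := X0_so D hso
  intro l
  induction l with
  | nil => intro _ _; exact List.isChain_nil
  | cons s l ih =>
    cases l with
    | nil => intro _ _; exact List.isChain_singleton _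
    | cons t l =>
      intro h1 h2
      rw [List.isChain_cons_cons] at h2 ⊢
      refine ⟨?_, ih (fun x hx => h1 x (List.mem_cons_of_mem _ hx)) h2.2⟩
      have hs : s ∉ X0 D ω₀ := by rw [← hX]; exact h1 s (by simp)
      have ht : t ∉ X0 D ω₀ := by rw [← hX]; exact h1 t (by simp)
      obtain ⟨hadj, hc⟩ := h2.1
      by_cases hev : D.ev s
      · have hnt : ¬ D.ev t := (D.par s t hadj).1 hev
        have e : ω t = ω₀ t := hso t hnt
        refine Or.inl ⟨hev, hnt, hadj, hs, ht, ?_⟩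
        rcases hc with ⟨h3, h4⟩ | ⟨h3, h4⟩
        · exact Or.inl ⟨by rw [h3, e]; rfl, h4⟩
        · exact Or.inr ⟨by rw [h3, e]; rfl, h4⟩
      · have het : D.ev t := by
          by_contra hnt
          exact hev ((D.par s t hadj).2 hnt)
        have e : ω s = ω₀ s := hso s hev
        refine Or.inr ⟨hev, het, hadj.symm, ht, hs, ?_⟩
        rcases hc with ⟨h3, h4⟩ | ⟨h3, h4⟩
        · exact Or.inr ⟨by rw [← h3, e]; rfl, by rw [← h3]; exact h4⟩
        · exact Or.inl ⟨by rw [← h3, e]; rfl, by rw [← h3]; exact h4⟩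

open scoped Classical in
theorem gen_sum (D : Bal V d q j) {ω₀ : V → Fin q × Fin q} (h : PrP D.G ω₀) (n : ℕ) :
    ∑ ω ∈ cl D.G D.ev ω₀, ∑ l ∈ (Pth D).filter (fun l => l.length = n + 2), (if gen D ω l then (4 : ℝ) ^ evl D l else 0) ≤
      (Fintype.card V : ℝ) * ((1 / 10 ^ 50) * (1 / 10 ^ 50) ^ (n / 2)) * ((cl D.G D.ev ω₀).card : ℝ) := by
  have hd : 1 ≤ d := le_trans (by norm_num) D.dl
  have hS := pker D h
  have hK := ker D ω₀
  have ha := num_a D.rg hd
  have he := (num_e D.rg hd).2.2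
  have hr0 : 0 ≤ rh d q := hK.r0
  have hcl := cl_eq D.G D.ev D.par ω₀
  have htop := cnt_true_pos hS.ne
  have hcc : cnt (Sx D.G D.ev ω₀) (fun _ => True) = ((cl D.G D.ev ω₀).card : ℝ) := by
    rw [hcl]
    simp [cnt]
  set A := (Pth D).filter (fun l => l.length = n + 2) with hA
  have hAm : ∀ l ∈ A, l.Nodup ∧ l.length = n + 2 := by
    intro l hl
    rw [hA, Finset.mem_filter] at hl
    refine ⟨?_, hl.2⟩
    have h1 := hl.1
    rw [Pth, Finset.mem_filter] at h1
    exact h1.2.1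
  have hmain := paths_sum hS hK 4 (by norm_num) n A hAm
  rw [Finset.sum_comm]
  have h1 : ∀ l ∈ A, ∑ ω ∈ cl D.G D.ev ω₀, (if gen D ω l then (4 : ℝ) ^ evl D l else 0) ≤
      (4 : ℝ) ^ (l.filter fun s => D.ev s).length *
        (cnt (Sx D.G D.ev ω₀) (fun ω => l.IsChain (cfl D.ev (cfB D ω₀) ω)) /
          cnt (Sx D.G D.ev ω₀) fun _ => True) * ((cl D.G D.ev ω₀).card : ℝ) := by
    intro l hl
    rw [← Finset.sum_filter, Finset.sum_const, nsmul_eq_mul, mul_assoc, ← hcc, div_mul_cancel₀ _ htop.ne',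
      mul_comm]
    refine mul_le_mul_of_nonneg_left ?_ (by positivity)
    rw [cnt, ← hcl]
    refine Nat.cast_le.2 (Finset.card_le_card ?_)
    intro ω hω
    rw [Finset.mem_filter] at hω
    have h2 := hω.1
    rw [cl, Finset.mem_filter] at h2
    have h3 := T13_chain D h2.2.2 l hω.2.1 hω.2.2
    simp only [Finset.mem_filter]
    exact ⟨hω.1, h3⟩
  refine (Finset.sum_le_sum h1).trans ?_
  rw [← Finset.sum_mul]
  refine mul_le_mul_of_nonneg_right (hmain.trans ?_) (Nat.cast_nonneg _)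
  refine mul_le_mul_of_nonneg_left ?_ (Nat.cast_nonneg _)
  have h3 : 2 * (4 * (2 * rh d q)) + 4 * rh d q + 4 * (2 * rh d q) * (4 * (6 * ra d q)) ≤ 1 / 10 ^ 50 := by
    have h4 : rh d q * ra d q ≤ rh d q * 2000 := mul_le_mul_of_nonneg_left ha.2 hr0
    have h5 : 2 * (4 * (2 * rh d q)) + 4 * rh d q + 4 * (2 * rh d q) * (4 * (6 * ra d q)) ≤
        400000 * rh d q := by nlinarith
    refine h5.trans ((mul_le_mul_of_nonneg_left he (by norm_num)).trans ?_)
    norm_num
  have h6 : 4 * rh d q ≤ 1 / 10 ^ 50 := by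
    refine (mul_le_mul_of_nonneg_left he (by norm_num)).trans ?_
    norm_num
  exact mul_le_mul h3 (pow_le_pow_left₀ (by positivity) h6 _) (by positivity) (by positivity)

end

end Pool.Agent.LC3

end

/-! ### from `Lib_MP_2c424f_lc3.T15` -/

section

/-!
# Part III, T15: expected number of chains with a given length

Exchange the sums.  `Ech D ω l` implies `gen D ω l` (`X0 ⊆ Del`), so the second bound follows from `gen_sum` and `sum_cl_le` (`Ω = OM D`, `OM_cl`).
First bound: `chain_count` for every `l`, `|l| = n + 2 ≤ q/20`, `|B| ≥ 0.48 q`: `4 j^2 / (|B| - |l|)^2 ≤ 25 (j/q)^2`.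
-/

set_option autoImplicit false

open Finset Filter

namespace Pool.Agent.LC3

open Pool.Agent.LO Pool.Agent.LIN Pool.Agent.THR Pool.Agent.COR Pool.Agent.LC

section
variable {V : Type} [Fintype V] [DecidableEq V] {d q j : ℕ}

private theorem T15_gen (D : Bal V d q j) {ω : V → Fin q × Fin q} {l : List V} (h : Ech D ω l) : gen D ω l := by
  refine ⟨fun s hs hx => h.1 s hs ?_, h.2.1⟩
  unfold Del
  exact Finset.mem_union_left _ hx

open scoped Classical in
private theorem T15_OM (D : Bal V d q j) (ω : V → Fin q × Fin q) (hω : ω ∈ OM D) : PrP D.G ω := by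
  unfold OM at hω
  exact (Finset.mem_filter.1 hω).2.1

open scoped Classical in
private theorem T15_gsum (D : Bal V d q j) (n : ℕ) :
    ∑ ω ∈ OM D, ∑ l ∈ (Pth D).filter (fun l => l.length = n + 2), (if gen D ω l then (4 : ℝ) ^ evl D l else 0) ≤
      (Fintype.card V : ℝ) * ((1 / 10 ^ 50) * (1 / 10 ^ 50) ^ (n / 2)) * ((OM D).card : ℝ) :=
  sum_cl_le D.G D.ev (OM D) (T15_OM D) (fun _ hω => OM_cl D hω)
    (fun ω => ∑ l ∈ (Pth D).filter (fun l => l.length = n + 2), (if gen D ω l then (4 : ℝ) ^ evl D l else 0))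
    ((Fintype.card V : ℝ) * ((1 / 10 ^ 50) * (1 / 10 ^ 50) ^ (n / 2)))
    (fun ω hω => gen_sum D (T15_OM D ω hω) n)

open scoped Classical in
private theorem T15_count (D : Bal V d q j) (P : (V → Fin q × Fin q) → Prop) (c : ℝ) :
    ∑ ω ∈ OM D, (if P ω then c else 0) = c * (((OM D).filter P).card : ℝ) := by
  rw [← Finset.sum_filter, Finset.sum_const, nsmul_eq_mul, mul_comm]

private theorem T15_num {x b n j q : ℝ} (hx : 0 ≤ x) (hn : 0 ≤ n) (hq : 0 < q) (hb : 43 / 100 * q ≤ b)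
    (h : x * b ^ 2 ≤ 4 * j ^ 2 * n) : x ≤ 25 * (j / q) ^ 2 * n := by
  have h1 : (43 / 100 * q) ^ 2 ≤ b ^ 2 := pow_le_pow_left₀ (by positivity) hb 2
  have h2 : x * (43 / 100 * q) ^ 2 ≤ 4 * j ^ 2 * n := (mul_le_mul_of_nonneg_left h1 hx).trans h
  have h3 : (25 : ℝ) * (j / q) ^ 2 * n = 25 * (j ^ 2 * n) / q ^ 2 := by
    rw [div_pow]
    ring
  rw [h3, le_div_iff₀ (by positivity)]
  have h4 : 0 ≤ j ^ 2 * n := by positivity
  nlinarith [h2, h4]

open scoped Classical in
private theorem T15_one (D : Bal V d q j) (n : ℕ) (hn : 20 * (n + 2) ≤ q) (l : List V)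
    (hl : l.Nodup) (hle : l.length = n + 2) :
    (((OM D).filter fun ω => Ech D ω l).card : ℝ) ≤
      25 * ((j : ℝ) / q) ^ 2 * (((OM D).filter fun ω => gen D ω l).card : ℝ) := by
  have hB := (card_B D).2
  have hn' : (20 : ℝ) * ((n : ℝ) + 2) ≤ q := by exact_mod_cast hn
  have hq : (0 : ℝ) < q := by
    have h0 : (0 : ℝ) ≤ n := Nat.cast_nonneg n
    linarith
  have hlr : (l.length : ℝ) = (n : ℝ) + 2 := by
    rw [hle]
    push_cast
    ring
  have h1 : (43 : ℝ) / 100 * q ≤ (D.B.card : ℝ) - l.length := by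
    rw [hlr]
    linarith
  have h2 : l.length ≤ D.B.card := by
    have h3 : (l.length : ℝ) ≤ (D.B.card : ℝ) := by linarith
    exact_mod_cast h3
  exact T15_num (Nat.cast_nonneg _) (Nat.cast_nonneg _) hq h1 (chain_count D l hl (by omega) h2)

open scoped Classical in
theorem ech_long (D : Bal V d q j) (n : ℕ) :
    ∑ ω ∈ OM D, ∑ l ∈ (Pth D).filter (fun l => l.length = n + 2), (if Ech D ω l then (4 : ℝ) ^ evl D l else 0) ≤
      (Fintype.card V : ℝ) * ((1 / 10 ^ 50) * (1 / 10 ^ 50) ^ (n / 2)) * ((OM D).card : ℝ) := by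
  refine (Finset.sum_le_sum fun ω _ => Finset.sum_le_sum fun l _ => ?_).trans (T15_gsum D n)
  by_cases h : Ech D ω l
  · rw [if_pos h, if_pos (T15_gen D h)]
  · rw [if_neg h]
    split_ifs
    · positivity
    · exact le_refl 0

open scoped Classical in
theorem ech_short (D : Bal V d q j) (n : ℕ) (hn : 20 * (n + 2) ≤ q) :
    ∑ ω ∈ OM D, ∑ l ∈ (Pth D).filter (fun l => l.length = n + 2), (if Ech D ω l then (4 : ℝ) ^ evl D l else 0) ≤
      25 * ((j : ℝ) / q) ^ 2 * ((Fintype.card V : ℝ) * ((1 / 10 ^ 50) * (1 / 10 ^ 50) ^ (n / 2)) * ((OM D).card : ℝ)) := by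
  refine le_trans ?_ (mul_le_mul_of_nonneg_left (T15_gsum D n) (by positivity))
  rw [Finset.sum_comm, Finset.sum_comm (s := OM D), Finset.mul_sum]
  refine Finset.sum_le_sum fun l hl => ?_
  rw [T15_count, T15_count]
  have hl1 := Finset.mem_filter.1 hl
  have hnd : l.Nodup := by
    have h1 := hl1.1
    unfold Pth at h1
    exact (Finset.mem_filter.1 h1).2.1
  have h2 := mul_le_mul_of_nonneg_left (T15_one D n hn l hnd hl1.2)
    (by positivity : (0 : ℝ) ≤ (4 : ℝ) ^ evl D l)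
  refine h2.trans (le_of_eq ?_)
  ring

end

end Pool.Agent.LC3

end

/-! ### from `Lib_MP_2c424f_lc3.T08` -/

section

/-!
# Part III, T08: ports at one vertex

`T = {x}` in `port1`, `port2`.  `s1 a ∧ s2 a` means `a.1 ∈ J1, a.2 ∈ J2` or `a.1 ∈ J2, a.2 ∈ J1` (`J1`, `J2` disjoint).
`even_count`: `#(.1 ∈ J1, .2 ∈ J2, x ∉ X0) (|B| - 1) ≤ j #(.2 ∈ J2, x ∉ X0)` (`port1`), `#(.2 ∈ J2, x ∉ X0) (|B| - 1) ≤ j #(.2 ∉ A, x ∉ X0)` (`port2`), and
`.2 ∉ A` implies `.2 ∉ B`; the other case is the same with `J1`, `J2` exchanged (`X0_sw1`, `X0_sw2`).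
`odd_count`: first `port2`, then `port1`, `B ⊆ A`.   `J_count`: `port1`.
-/

set_option autoImplicit false

open Finset Filter

namespace Pool.Agent.LC3

open Pool.Agent.LO Pool.Agent.LIN Pool.Agent.THR Pool.Agent.COR Pool.Agent.LC

section
variable {V : Type} [Fintype V] [DecidableEq V] {d q j : ℕ}

omit [DecidableEq V] in
private theorem t08_J (D : Bal V d q j) : D.J1 ⊆ D.A \ D.B ∧ D.J2 ⊆ D.A \ D.B := by
  rw [D.un]
  exact ⟨subset_union_left, subset_union_right⟩

private theorem t08_B (D : Bal V d q j) : (0 : ℝ) ≤ (D.B.card : ℝ) - 1 := by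
  have h1 := (card_B D).2
  have h2 : (50 : ℝ) * j ≤ q := by exact_mod_cast D.jq
  have h3 : (1 : ℝ) ≤ j := by exact_mod_cast D.j1
  linarith

open scoped Classical in
/-- the number of pairs in `OM` with a property -/
private noncomputable def nf_T08 (D : Bal V d q j) (P : (V → Fin q × Fin q) → Prop) : ℝ :=
  (((OM D).filter P).card : ℝ)

private theorem nf_def (D : Bal V d q j) (P : (V → Fin q × Fin q) → Prop) (h : DecidablePred P) :
    ((@Finset.filter _ P h (OM D)).card : ℝ) = nf_T08 D P := by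
  unfold nf_T08
  congr!

private theorem nf_mono (D : Bal V d q j) {P P' : (V → Fin q × Fin q) → Prop}
    (h : ∀ ω, P ω → P' ω) : nf_T08 D P ≤ nf_T08 D P' := by
  classical
  have h1 : (OM D).filter P ⊆ (OM D).filter P' := by
    intro ω hω
    rw [mem_filter] at hω ⊢
    exact ⟨hω.1, h ω hω.2⟩
  have h2 : (((OM D).filter P).card : ℝ) ≤ (((OM D).filter P').card : ℝ) := by
    exact_mod_cast card_le_card h1
  rwa [nf_def, nf_def] at h2

private theorem nf_port1 (D : Bal V d q j) (J' : Finset (Fin q)) (hJ : J' ⊆ D.A \ D.B)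
    (E : (V → Fin q × Fin q) → Prop) (s : V)
    (hE : ∀ ω, E ω → (ω s).1 ∈ J' → ∀ c ∈ D.B, E (sw1 (ω s).1 c ω)) :
    nf_T08 D (fun ω => E ω ∧ (ω s).1 ∈ J') * ((D.B.card : ℝ) - 1) ≤ J'.card * nf_T08 D E := by
  have p1 := port1 D J' hJ E {s} s (mem_singleton_self s) (fun ω h1 h2 c hc _ => hE ω h1 h2 c hc)
  rw [card_singleton, Nat.cast_one, nf_def, nf_def] at p1
  exact p1.trans (mul_le_mul_of_nonneg_left (nf_mono D fun ω h => h.1) (Nat.cast_nonneg _))

private theorem nf_port1' (D : Bal V d q j) (J' : Finset (Fin q)) (hJ : J' ⊆ D.A \ D.B) (s : V) :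
    nf_T08 D (fun ω => (ω s).1 ∈ J') * ((D.B.card : ℝ) - 1) ≤
      J'.card * nf_T08 D (fun ω => (ω s).1 ∈ D.A) := by
  have p1 := port1 D J' hJ (fun _ => True) {s} s (mem_singleton_self s)
    (fun ω h1 h2 c hc _ => trivial)
  rw [card_singleton, Nat.cast_one, nf_def, nf_def] at p1
  exact (mul_le_mul_of_nonneg_right (nf_mono D fun ω h => ⟨trivial, h⟩) (t08_B D)).trans
    (p1.trans (mul_le_mul_of_nonneg_left (nf_mono D fun ω h => D.sub h.2) (Nat.cast_nonneg _)))

private theorem nf_port2 (D : Bal V d q j) (J' : Finset (Fin q)) (hJ : J' ⊆ D.A \ D.B)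
    (E : (V → Fin q × Fin q) → Prop) (s : V)
    (hE : ∀ ω, E ω → (ω s).2 ∈ J' → ∀ c, c ∉ D.A → E (sw2 (ω s).2 c ω)) :
    nf_T08 D (fun ω => E ω ∧ (ω s).2 ∈ J') * ((D.B.card : ℝ) - 1) ≤
      J'.card * nf_T08 D (fun ω => E ω ∧ (ω s).2 ∉ D.A) := by
  have p1 := port2 D J' hJ E {s} s (mem_singleton_self s) (fun ω h1 h2 c hc _ => hE ω h1 h2 c hc)
  rw [card_singleton, Nat.cast_one, nf_def, nf_def, card_Ac D] at p1
  exact p1

/-- the two cases -/
private theorem t08_split (D : Bal V d q j) (P : (V → Fin q × Fin q) → Prop) (x : V) :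
    nf_T08 D (fun ω => P ω ∧ s1 D (ω x) ∧ s2 D (ω x)) ≤
      nf_T08 D (fun ω => (P ω ∧ (ω x).2 ∈ D.J2) ∧ (ω x).1 ∈ D.J1) +
      nf_T08 D (fun ω => (P ω ∧ (ω x).2 ∈ D.J1) ∧ (ω x).1 ∈ D.J2) := by
  classical
  have hdis : ∀ c, c ∈ D.J1 → c ∈ D.J2 → False := fun c h1 h2 =>
    (Finset.disjoint_left.1 D.dis h1) h2
  have h1 : ((OM D).filter fun ω => P ω ∧ s1 D (ω x) ∧ s2 D (ω x)) ⊆
      ((OM D).filter fun ω => (P ω ∧ (ω x).2 ∈ D.J2) ∧ (ω x).1 ∈ D.J1) ∪
      ((OM D).filter fun ω => (P ω ∧ (ω x).2 ∈ D.J1) ∧ (ω x).1 ∈ D.J2) := by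
    intro ω hω
    rw [mem_union, mem_filter, mem_filter]
    rw [mem_filter] at hω
    obtain ⟨h1, h2, h3, h4⟩ := hω
    rcases h3 with h3 | h3 <;> rcases h4 with h4 | h4
    · exact (hdis _ h3 h4).elim
    · exact Or.inl ⟨h1, ⟨h2, h4⟩, h3⟩
    · exact Or.inr ⟨h1, ⟨h2, h3⟩, h4⟩
    · exact (hdis _ h3 h4).elim
  have h2 : ((((OM D).filter fun ω => P ω ∧ s1 D (ω x) ∧ s2 D (ω x)).card : ℕ) : ℝ) ≤
      (((OM D).filter fun ω => (P ω ∧ (ω x).2 ∈ D.J2) ∧ (ω x).1 ∈ D.J1).card : ℝ) +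
      (((OM D).filter fun ω => (P ω ∧ (ω x).2 ∈ D.J1) ∧ (ω x).1 ∈ D.J2).card : ℝ) := by
    exact_mod_cast (card_le_card h1).trans (card_union_le _ _)
  rwa [nf_def, nf_def, nf_def] at h2

private theorem t08_chain {N1 N2 N3 b j : ℝ} (hb : 0 ≤ b) (hj : 0 ≤ j) (h1 : N1 * b ≤ j * N2)
    (h2 : N2 * b ≤ j * N3) : N1 * b ^ 2 ≤ j ^ 2 * N3 :=
  calc N1 * b ^ 2 = (N1 * b) * b := by ring
    _ ≤ (j * N2) * b := mul_le_mul_of_nonneg_right h1 hb
    _ = j * (N2 * b) := by ring
    _ ≤ j * (j * N3) := mul_le_mul_of_nonneg_left h2 hj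
    _ = j ^ 2 * N3 := by ring

private theorem t08_even (D : Bal V d q j) (x : V) (J' J'' : Finset (Fin q)) (h1 : J' ⊆ D.A \ D.B)
    (h2 : J'' ⊆ D.A \ D.B) (c1 : J'.card = j) (c2 : J''.card = j) :
    nf_T08 D (fun ω => (x ∉ X0 D ω ∧ (ω x).2 ∈ J'') ∧ (ω x).1 ∈ J') * ((D.B.card : ℝ) - 1) ^ 2 ≤
      (j : ℝ) ^ 2 * nf_T08 D (fun ω => x ∉ X0 D ω ∧ (ω x).2 ∉ D.B) := by
  have hj : (0 : ℝ) ≤ j := Nat.cast_nonneg j
  have p1 := nf_port1 D J' h1 (fun ω => x ∉ X0 D ω ∧ (ω x).2 ∈ J'') x (by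
    intro ω hE hs c hc
    have h3 := Finset.mem_sdiff.1 (h1 hs)
    refine ⟨?_, hE.2⟩
    rw [X0_sw1 D (iff_of_true h3.1 (D.sub hc))]
    exact hE.1)
  have p2 := nf_port2 D J'' h2 (fun ω => x ∉ X0 D ω) x (by
    intro ω hE hs c hc
    have h3 := Finset.mem_sdiff.1 (h2 hs)
    rw [X0_sw2 D (iff_of_false h3.2 (fun h => hc (D.sub h)))]
    exact hE)
  rw [c1] at p1
  rw [c2] at p2
  exact t08_chain (t08_B D) hj p1 (p2.trans (mul_le_mul_of_nonneg_left
    (nf_mono D fun ω h => ⟨h.1, fun h' => h.2 (D.sub h')⟩) hj))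

private theorem t08_odd (D : Bal V d q j) (y : V) (J' J'' : Finset (Fin q)) (h1 : J' ⊆ D.A \ D.B)
    (h2 : J'' ⊆ D.A \ D.B) (c1 : J'.card = j) (c2 : J''.card = j) :
    nf_T08 D (fun ω => (True ∧ (ω y).2 ∈ J'') ∧ (ω y).1 ∈ J') * ((D.B.card : ℝ) - 1) ^ 2 ≤
      (j : ℝ) ^ 2 * nf_T08 D (fun ω => (ω y).1 ∈ D.A) := by
  have hj : (0 : ℝ) ≤ j := Nat.cast_nonneg j
  have p1 := nf_port1' D J' h1 y
  rw [c1] at p1
  have p2 := nf_port2 D J'' h2 (fun ω => (ω y).1 ∈ J') y (fun ω hE hs c hc => hE)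
  rw [c2] at p2
  refine t08_chain (t08_B D) hj ?_ p1
  exact (mul_le_mul_of_nonneg_right (nf_mono D fun ω h => ⟨h.2, h.1.2⟩) (t08_B D)).trans
    (p2.trans (mul_le_mul_of_nonneg_left (nf_mono D fun ω h => h.1) hj))

open scoped Classical in
theorem even_count (D : Bal V d q j) (x : V) :
    (((OM D).filter fun ω => x ∉ X0 D ω ∧ s1 D (ω x) ∧ s2 D (ω x)).card : ℝ) * ((D.B.card : ℝ) - 1) ^ 2 ≤
      2 * (j : ℝ) ^ 2 * (((OM D).filter fun ω => x ∉ X0 D ω ∧ (ω x).2 ∉ D.B).card : ℝ) := by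
  rw [nf_def, nf_def]
  have h0 := t08_split D (fun ω => x ∉ X0 D ω) x
  have h1 := t08_even D x D.J1 D.J2 (t08_J D).1 (t08_J D).2 D.c1 D.c2
  have h2 := t08_even D x D.J2 D.J1 (t08_J D).2 (t08_J D).1 D.c2 D.c1
  have h3 := mul_le_mul_of_nonneg_right h0 (sq_nonneg ((D.B.card : ℝ) - 1))
  linarith

open scoped Classical in
theorem odd_count (D : Bal V d q j) (y : V) :
    (((OM D).filter fun ω => s1 D (ω y) ∧ s2 D (ω y)).card : ℝ) * ((D.B.card : ℝ) - 1) ^ 2 ≤
      2 * (j : ℝ) ^ 2 * (((OM D).filter fun ω => (ω y).1 ∈ D.A).card : ℝ) := by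
  rw [nf_def, nf_def]
  have h0 := t08_split D (fun _ => True) y
  have m0 := nf_mono D (P := fun ω => s1 D (ω y) ∧ s2 D (ω y))
    (P' := fun ω => True ∧ s1 D (ω y) ∧ s2 D (ω y)) (fun ω h => ⟨trivial, h⟩)
  have h1 := t08_odd D y D.J1 D.J2 (t08_J D).1 (t08_J D).2 D.c1 D.c2
  have h2 := t08_odd D y D.J2 D.J1 (t08_J D).2 (t08_J D).1 D.c2 D.c1
  have h3 := mul_le_mul_of_nonneg_right (m0.trans h0) (sq_nonneg ((D.B.card : ℝ) - 1))
  linarith

open scoped Classical in
theorem J_count (D : Bal V d q j) (J' : Finset (Fin q)) (hJ : J' ⊆ D.A \ D.B) (y : V) :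
    (((OM D).filter fun ω => (ω y).1 ∈ J').card : ℝ) * ((D.B.card : ℝ) - 1) ≤
      J'.card * (((OM D).filter fun ω => (ω y).1 ∈ D.A).card : ℝ) := by
  rw [nf_def, nf_def]
  exact nf_port1' D J' hJ y

end

end Pool.Agent.LC3

end

/-! ### from `Lib_MP_2c424f_lc3.T11` -/

section

/-!
# Part III, T11: rare values at a typical even vertex

`(E2)` for `(g, B)`: at most `e^{-a} q` colours of `Rv G g x` are not in `B` (`x` even: type B means `∉ B`), and `q ≤ 3 |Rv G g x|` ((E1)).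
`rare_sum`: sum over the classes (`cl_eq`, `sum_cl_le`): in the class of `ω` with `x ∉ X0` the values at `x` are uniform in `Rv f x × Rv g x`
(`cnt_site` in `Perc.lean`, `cnt (Sx ..)` = number of elements of the class); `X0` is constant on a class.
-/

set_option autoImplicit false

open Finset Filter

namespace Pool.Agent.LC3

open Pool.Agent.LO Pool.Agent.LIN Pool.Agent.THR Pool.Agent.COR Pool.Agent.LC

section
variable {V : Type} [Fintype V] [DecidableEq V] {d q j : ℕ}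

open scoped Classical in
theorem site_rare (D : Bal V d q j) (ω : V → Fin q × Fin q) {x : V} (hx : D.ev x) (hX : x ∉ X0 D ω) :
    (((Rv D.G (fo ω) x ×ˢ Rv D.G (go ω) x).filter fun a => a.2 ∉ D.B).card : ℝ) ≤
      3 * Real.exp (-ra d q) * (((Rv D.G (fo ω) x ×ˢ Rv D.G (go ω) x).card : ℕ) : ℝ) := by
  have hT : TyE d D.G D.ev D.A (fo ω) x ∧ TyE d D.G D.ev D.B (go ω) x := by
    by_contra hcon
    refine hX ?_
    unfold X0
    exact Finset.mem_filter.2 ⟨Finset.mem_univ _, Or.inl ⟨hx, hcon⟩⟩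
  have e1 := hT.2.e1
  have e2 := hT.2.e2
  have hsub : ((Rv D.G (fo ω) x ×ˢ Rv D.G (go ω) x).filter fun a => a.2 ∉ D.B) ⊆
      Rv D.G (fo ω) x ×ˢ ((Rv D.G (go ω) x).filter fun c => ¬ tS D.ev D.B x c) := by
    intro a ha
    obtain ⟨ha1, ha2⟩ := Finset.mem_filter.1 ha
    obtain ⟨ha3, ha4⟩ := Finset.mem_product.1 ha1
    refine Finset.mem_product.2 ⟨ha3, Finset.mem_filter.2 ⟨ha4, ?_⟩⟩
    intro ht
    exact ha2 (ht.1 hx)
  have hc := Finset.card_le_card hsub
  rw [Finset.card_product] at hc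
  have hc' : (((Rv D.G (fo ω) x ×ˢ Rv D.G (go ω) x).filter fun a => a.2 ∉ D.B).card : ℝ) ≤
      ((Rv D.G (fo ω) x).card : ℝ) * (((Rv D.G (go ω) x).filter fun c => ¬ tS D.ev D.B x c).card : ℝ) := by
    exact_mod_cast hc
  refine hc'.trans ?_
  rw [Finset.card_product]
  push_cast
  have hq : (q : ℝ) ≤ 3 * ((Rv D.G (go ω) x).card : ℝ) := by linarith
  have h0 : (0 : ℝ) ≤ ((Rv D.G (fo ω) x).card : ℝ) := Nat.cast_nonneg _
  have hE : (0 : ℝ) ≤ Real.exp (-ra d q) := (Real.exp_pos _).le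
  calc ((Rv D.G (fo ω) x).card : ℝ) * (((Rv D.G (go ω) x).filter fun c => ¬ tS D.ev D.B x c).card : ℝ)
      ≤ ((Rv D.G (fo ω) x).card : ℝ) * (Real.exp (-ra d q) * (3 * ((Rv D.G (go ω) x).card : ℝ))) :=
        mul_le_mul_of_nonneg_left (e2.trans (mul_le_mul_of_nonneg_left hq hE)) h0
    _ = 3 * Real.exp (-ra d q) * (((Rv D.G (fo ω) x).card : ℝ) * ((Rv D.G (go ω) x).card : ℝ)) := by ring

open scoped Classical in
theorem rare_sum (D : Bal V d q j) {x : V} (hx : D.ev x) :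
    (((OM D).filter fun ω => x ∉ X0 D ω ∧ (ω x).2 ∉ D.B).card : ℝ) ≤ 3 * Real.exp (-ra d q) * ((OM D).card : ℝ) := by
  have hOM : ∀ ω ∈ OM D, PrP D.G ω := by
    intro ω hω
    unfold OM at hω
    exact (Finset.mem_filter.1 hω).2.1
  have hE : (0 : ℝ) ≤ 3 * Real.exp (-ra d q) := mul_nonneg (by norm_num) (Real.exp_pos _).le
  rw [← Finset.sum_boole]
  refine sum_cl_le D.G D.ev (OM D) hOM (fun ω hω => OM_cl D hω) _ _ ?_
  intro ω hω
  rw [Finset.sum_boole]
  by_cases hX : x ∈ X0 D ω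
  · have he : ((cl D.G D.ev ω).filter fun ω' => x ∉ X0 D ω' ∧ (ω' x).2 ∉ D.B) = ∅ := by
      refine Finset.filter_eq_empty_iff.2 ?_
      intro ω' hω' hcon
      refine hcon.1 ?_
      have hso : so D.ev ω' ω := by
        unfold cl at hω'
        exact (Finset.mem_filter.1 hω').2.2
      rw [X0_so D hso]
      exact hX
    rw [he, Finset.card_empty, Nat.cast_zero]
    exact mul_nonneg hE (Nat.cast_nonneg _)
  · have hsub : ((cl D.G D.ev ω).filter fun ω' => x ∉ X0 D ω' ∧ (ω' x).2 ∉ D.B) ⊆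
        (Fintype.piFinset (Sx D.G D.ev ω)).filter fun ω' => (ω' x).2 ∉ D.B := by
      rw [cl_eq D.G D.ev D.par ω]
      intro ω' hω'
      obtain ⟨h1, h2⟩ := Finset.mem_filter.1 hω'
      exact Finset.mem_filter.2 ⟨h1, h2.2⟩
    have hle : (((cl D.G D.ev ω).filter fun ω' => x ∉ X0 D ω' ∧ (ω' x).2 ∉ D.B).card : ℝ) ≤
        cnt (Sx D.G D.ev ω) (fun ω' => (ω' x).2 ∉ D.B) := by
      unfold cnt
      exact_mod_cast (Finset.card_le_card hsub).trans (le_of_eq (by congr))
    refine hle.trans ?_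
    have hsite := cnt_site (Sx D.G D.ev ω) x (fun a => a.2 ∉ D.B)
    have hcl : ((cl D.G D.ev ω).card : ℝ) = cnt (Sx D.G D.ev ω) (fun _ => True) := by
      unfold cnt
      rw [cl_eq D.G D.ev D.par ω]
      congr 2
      ext ω'
      simp only [Finset.mem_filter, and_true]
    have hSx : Sx D.G D.ev ω x = Rv D.G (fo ω) x ×ˢ Rv D.G (go ω) x := by
      unfold Sx
      rw [if_pos hx]
    have hrare := site_rare D ω hx hX
    rw [← hSx] at hrare
    have hpos : (0 : ℝ) < ((Sx D.G D.ev ω x).card : ℝ) := by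
      have h1 : ω ∈ Fintype.piFinset (Sx D.G D.ev ω) := by
        rw [← cl_eq D.G D.ev D.par ω]
        exact mem_cl_self D.G D.ev (hOM ω hω)
      have h2 := Fintype.mem_piFinset.1 h1 x
      exact_mod_cast Finset.card_pos.2 ⟨_, h2⟩
    rw [hcl]
    have h0 : 0 ≤ cnt (Sx D.G D.ev ω) (fun _ => True) := cnt_nonneg _ _
    refine le_of_mul_le_mul_right ?_ hpos
    rw [hsite]
    have hcalc : ((((Sx D.G D.ev ω x).filter fun a => a.2 ∉ D.B).card : ℕ) : ℝ) * cnt (Sx D.G D.ev ω) (fun _ => True)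
        ≤ 3 * Real.exp (-ra d q) * cnt (Sx D.G D.ev ω) (fun _ => True) * ((Sx D.G D.ev ω x).card : ℝ) := by
      calc ((((Sx D.G D.ev ω x).filter fun a => a.2 ∉ D.B).card : ℕ) : ℝ) * cnt (Sx D.G D.ev ω) (fun _ => True)
          ≤ (3 * Real.exp (-ra d q) * ((Sx D.G D.ev ω x).card : ℝ)) * cnt (Sx D.G D.ev ω) (fun _ => True) :=
            mul_le_mul_of_nonneg_right hrare h0
        _ = 3 * Real.exp (-ra d q) * cnt (Sx D.G D.ev ω) (fun _ => True) * ((Sx D.G D.ev ω x).card : ℝ) := by ring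
    refine le_trans (le_of_eq ?_) hcalc
    congr

end

end Pool.Agent.LC3

end

/-! ### from `Lib_MP_2c424f_lc3.T16` -/

section

/-!
# Part III, T16: expected number of all chains

`wch` = sum over the lengths `1` and `n + 2`, `n + 2 ≤ |V|` (the empty list is not in `Pth`).
Length 1: `l = [x]`, `x` even, `Ech` implies `x ∉ X0`, `s1`, `s2`; weight 4; `even_count`, `rare_sum`, `|B| - 1 ≥ 0.47 q`, `|V|/2` (at most `|V|`) vertices, `e^{-a} ≤ 10^{-100}`.
Lengths `n + 2 ≤ q/20`: `ech_short`, `∑_n 10^{-50} (10^{-50})^{⌊n/2⌋} ≤ 3 · 10^{-50}`.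
Lengths `n + 2 > q/20`: `ech_long`; `∑_{n + 2 > q/20} (10^{-50})^{⌊n/2⌋} ≤ 3 (10^{-50})^{q/50} ≤ 1/q^2 ≤ (j/q)^2` (`q ≥ 10^7`, because `d ≥ 10^10`, `num_q`).
-/

set_option autoImplicit false

open Finset Filter

namespace Pool.Agent.LC3

open Pool.Agent.LO Pool.Agent.LIN Pool.Agent.THR Pool.Agent.COR Pool.Agent.LC

private theorem geo_le {r : ℝ} (h0 : 0 ≤ r) (h1 : r ≤ 1 / 10) (k : ℕ) :
    ∑ m ∈ range k, r ^ m + 10 / 9 * r ^ k ≤ 10 / 9 := by
  induction k with
  | zero => simp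
  | succ k ih =>
    rw [Finset.sum_range_succ, pow_succ]
    have h2 : 0 ≤ r ^ k := pow_nonneg h0 _
    nlinarith

private theorem geo_half {r : ℝ} (h0 : 0 ≤ r) (h1 : r ≤ 1 / 10) (N : ℕ) :
    ∑ n ∈ range N, r ^ (n / 2) ≤ 3 := by
  have h2 : ∀ k : ℕ, ∑ n ∈ range (2 * k), r ^ (n / 2) = 2 * ∑ m ∈ range k, r ^ m := by
    intro k
    induction k with
    | zero => simp
    | succ k ih =>
      rw [show 2 * (k + 1) = 2 * k + 1 + 1 from rfl, Finset.sum_range_succ, Finset.sum_range_succ, ih,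
        Finset.sum_range_succ, show 2 * k / 2 = k by omega, show (2 * k + 1) / 2 = k by omega]
      ring
  have h3 : ∑ n ∈ range N, r ^ (n / 2) ≤ ∑ n ∈ range (2 * N), r ^ (n / 2) :=
    Finset.sum_le_sum_of_subset_of_nonneg (Finset.range_mono (by omega)) fun _ _ _ => pow_nonneg h0 _
  have h4 := geo_le h0 h1 N
  have h5 : 0 ≤ r ^ N := pow_nonneg h0 _
  rw [h2] at h3
  linarith

private theorem long_num {q n : ℕ} (h : q < 20 * (n + 2)) (hq : 1000 ≤ q) :
    (q : ℝ) ^ 2 * (1 / 10 ^ 50) ^ (n / 2) ≤ (1 / 10 ^ 25) ^ (n / 2) := by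
  set m := n / 2 with hm
  have h1 : q ≤ 100 * m := by omega
  have h2 : 1 ≤ m := by omega
  have h3 : (m : ℝ) ≤ 10 ^ m := by
    have : m < 10 ^ m := Nat.lt_pow_self (by norm_num)
    exact_mod_cast this.le
  have h4 : (q : ℝ) ≤ 100 * m := by exact_mod_cast h1
  have h5 : (q : ℝ) ^ 2 ≤ (10 ^ 25) ^ m := by
    have h6 : (0 : ℝ) ≤ q := Nat.cast_nonneg _
    have h7 : (q : ℝ) ^ 2 ≤ (100 * 10 ^ m) ^ 2 := by
      refine pow_le_pow_left₀ h6 (h4.trans ?_) 2
      exact mul_le_mul_of_nonneg_left h3 (by norm_num)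
    refine h7.trans ?_
    have h8 : ((100 : ℝ) * 10 ^ m) ^ 2 = 10 ^ 4 * 100 ^ m := by
      rw [mul_pow, ← pow_mul, mul_comm m 2, pow_mul]
      norm_num
    rw [h8]
    have h9 : (10 : ℝ) ^ 4 ≤ (10 ^ 4) ^ m := le_self_pow₀ (by norm_num) (by omega)
    calc (10 : ℝ) ^ 4 * 100 ^ m ≤ (10 ^ 4) ^ m * 100 ^ m :=
          mul_le_mul_of_nonneg_right h9 (by positivity)
      _ = (10 ^ 4 * 100) ^ m := (mul_pow _ _ _).symm
      _ ≤ (10 ^ 25) ^ m := pow_le_pow_left₀ (by norm_num) (by norm_num) m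
  have h10 : ((1 : ℝ) / 10 ^ 50) ^ m = (1 / 10 ^ 25) ^ m * (1 / 10 ^ 25) ^ m := by
    rw [← mul_pow]
    norm_num
  rw [h10]
  have h11 : (0 : ℝ) ≤ (1 / 10 ^ 25) ^ m := by positivity
  calc (q : ℝ) ^ 2 * ((1 / 10 ^ 25) ^ m * (1 / 10 ^ 25) ^ m)
      ≤ (10 ^ 25) ^ m * ((1 / 10 ^ 25) ^ m * (1 / 10 ^ 25) ^ m) :=
        mul_le_mul_of_nonneg_right h5 (mul_nonneg h11 h11)
    _ = ((10 ^ 25) ^ m * (1 / 10 ^ 25) ^ m) * (1 / 10 ^ 25) ^ m := by ring
    _ = (1 / 10 ^ 25) ^ m := by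
        rw [← mul_pow]
        norm_num

section
variable {V : Type} [Fintype V] [DecidableEq V] {d q j : ℕ}

private theorem bal_num (D : Bal V d q j) : 10 ^ 7 ≤ q ∧ (47 : ℝ) / 100 * q ≤ (D.B.card : ℝ) - 1 ∧
    Real.exp (-ra d q) ≤ 1 / 10 ^ 100 := by
  have hd : 1 ≤ d := le_trans (by norm_num) D.dl
  obtain ⟨h1, h2, h3⟩ := num_q D.rg hd
  have h4 : 10 ^ 7 ≤ q := by
    have := D.dl
    omega
  have h5 := (card_B D).2
  have h6 : (10 : ℝ) ^ 7 ≤ q := by exact_mod_cast h4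
  refine ⟨h4, ?_, (num_e D.rg hd).1⟩
  nlinarith

open scoped Classical in
private theorem len_one (D : Bal V d q j) :
    ∑ ω ∈ OM D, ∑ l ∈ (Pth D).filter (fun l => l.length = 1), (if Ech D ω l then (4 : ℝ) ^ evl D l else 0) ≤
      jN D / 10 ^ 60 * ((OM D).card : ℝ) := by
  have h1 : ∀ ω ∈ OM D, ∑ l ∈ (Pth D).filter (fun l => l.length = 1),
      (if Ech D ω l then (4 : ℝ) ^ evl D l else 0) ≤
      ∑ x ∈ univ.filter (fun x => D.ev x), (if x ∉ X0 D ω ∧ s1 D (ω x) ∧ s2 D (ω x) then (4 : ℝ) else 0) := by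
    intro ω _
    have hsub : (Pth D).filter (fun l => l.length = 1) ⊆
        (univ.filter (fun x => D.ev x)).image (fun x => [x]) := by
      intro l hl
      rw [Finset.mem_filter] at hl
      obtain ⟨x, rfl⟩ := List.length_eq_one_iff.1 hl.2
      have h2 := (Finset.mem_filter.1 hl.1).2.2
      obtain ⟨s, hs, hs'⟩ := h2
      rw [List.mem_singleton] at hs
      subst hs
      exact Finset.mem_image.2 ⟨s, Finset.mem_filter.2 ⟨Finset.mem_univ _, hs'⟩, rfl⟩
    refine (Finset.sum_le_sum_of_subset_of_nonneg hsub fun l _ _ => ?_).trans ?_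
    · split_ifs
      · positivity
      · exact le_rfl
    · rw [Finset.sum_image (fun x _ y _ h => by simpa using h)]
      refine Finset.sum_le_sum fun x hx => ?_
      have hev : D.ev x := (Finset.mem_filter.1 hx).2
      by_cases hE : Ech D ω [x]
      · rw [if_pos hE, if_pos]
        · have : evl D [x] = 1 := by
            unfold evl
            simp [hev]
          rw [this]
          norm_num
        · obtain ⟨e1, -, ⟨s, hs, e3⟩, ⟨t, ht, e4⟩⟩ := hE
          have h5 := e1 x (List.mem_singleton_self x)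
          simp only [List.head?_cons, Option.mem_def, Option.some.injEq] at hs
          simp only [List.getLast?_singleton, Option.mem_def, Option.some.injEq] at ht
          subst hs
          subst ht
          refine ⟨fun h => h5 ?_, e3, e4⟩
          unfold Del
          exact Finset.mem_union_left _ h
      · rw [if_neg hE]
        split_ifs
        · norm_num
        · exact le_rfl
  refine (Finset.sum_le_sum h1).trans ?_
  rw [Finset.sum_comm]
  obtain ⟨hq, hB, he⟩ := bal_num D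
  have hq' : (10 : ℝ) ^ 7 ≤ q := by exact_mod_cast hq
  have hq0 : (0 : ℝ) < q := by linarith
  have h2 : ∀ x ∈ univ.filter (fun x => D.ev x),
      ∑ ω ∈ OM D, (if x ∉ X0 D ω ∧ s1 D (ω x) ∧ s2 D (ω x) then (4 : ℝ) else 0) ≤
      ((j : ℝ) / q) ^ 2 / 10 ^ 60 * ((OM D).card : ℝ) := by
    intro x hx
    have hev : D.ev x := (Finset.mem_filter.1 hx).2
    rw [← Finset.sum_filter, Finset.sum_const, nsmul_eq_mul]
    have h3 := even_count D x
    have h4 := rare_sum D hev
    set c : ℝ := (((OM D).filter fun ω => x ∉ X0 D ω ∧ s1 D (ω x) ∧ s2 D (ω x)).card : ℝ) with hc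
    set r : ℝ := (((OM D).filter fun ω => x ∉ X0 D ω ∧ (ω x).2 ∉ D.B).card : ℝ) with hr
    set M : ℝ := ((OM D).card : ℝ) with hM
    have hc0 : 0 ≤ c := Nat.cast_nonneg _
    have hM0 : 0 ≤ M := Nat.cast_nonneg _
    have h5 : r ≤ 3 / 10 ^ 100 * M := by
      refine h4.trans ?_
      refine mul_le_mul_of_nonneg_right ?_ hM0
      calc 3 * Real.exp (-ra d q) ≤ 3 * (1 / 10 ^ 100) := mul_le_mul_of_nonneg_left he (by norm_num)
        _ = 3 / 10 ^ 100 := by ring
    have h6 : c * (47 / 100 * q) ^ 2 ≤ c * ((D.B.card : ℝ) - 1) ^ 2 :=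
      mul_le_mul_of_nonneg_left (pow_le_pow_left₀ (by positivity) hB 2) hc0
    have h7 : 2 * (j : ℝ) ^ 2 * r ≤ 2 * (j : ℝ) ^ 2 * (3 / 10 ^ 100 * M) :=
      mul_le_mul_of_nonneg_left h5 (by positivity)
    have h8 : c * (47 / 100 * q) ^ 2 ≤ 2 * (j : ℝ) ^ 2 * (3 / 10 ^ 100 * M) := h6.trans (h3.trans h7)
    have h9 : ((j : ℝ) / q) ^ 2 / 10 ^ 60 * M = (j : ℝ) ^ 2 * M / 10 ^ 60 / q ^ 2 := by
      field_simp
    rw [h9, le_div_iff₀ (by positivity)]
    have h10 : c * (q : ℝ) ^ 2 * (2209 / 10000) ≤ 6 / 10 ^ 100 * ((j : ℝ) ^ 2 * M) := by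
      calc c * (q : ℝ) ^ 2 * (2209 / 10000) = c * (47 / 100 * q) ^ 2 := by ring
        _ ≤ 2 * (j : ℝ) ^ 2 * (3 / 10 ^ 100 * M) := h8
        _ = 6 / 10 ^ 100 * ((j : ℝ) ^ 2 * M) := by ring
    have h11 : 0 ≤ (j : ℝ) ^ 2 * M := mul_nonneg (by positivity) hM0
    have h12 : c * 4 * (q : ℝ) ^ 2 = (40000 / 2209) * (c * (q : ℝ) ^ 2 * (2209 / 10000)) := by ring
    rw [h12]
    calc (40000 / 2209) * (c * (q : ℝ) ^ 2 * (2209 / 10000))
        ≤ (40000 / 2209) * (6 / 10 ^ 100 * ((j : ℝ) ^ 2 * M)) :=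
          mul_le_mul_of_nonneg_left h10 (by norm_num)
      _ = (40000 / 2209 * (6 / 10 ^ 100)) * ((j : ℝ) ^ 2 * M) := by ring
      _ ≤ (1 / 10 ^ 60) * ((j : ℝ) ^ 2 * M) := mul_le_mul_of_nonneg_right (by norm_num) h11
      _ = (j : ℝ) ^ 2 * M / 10 ^ 60 := by ring
  refine (Finset.sum_le_sum h2).trans ?_
  rw [Finset.sum_const, nsmul_eq_mul]
  have h3 : (((univ.filter (fun x => D.ev x)).card : ℕ) : ℝ) ≤ Fintype.card V := by
    exact_mod_cast Finset.card_le_univ _
  have h4 : 0 ≤ ((j : ℝ) / q) ^ 2 / 10 ^ 60 * ((OM D).card : ℝ) := by positivity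
  calc _ ≤ (Fintype.card V : ℝ) * (((j : ℝ) / q) ^ 2 / 10 ^ 60 * ((OM D).card : ℝ)) :=
        mul_le_mul_of_nonneg_right h3 h4
    _ = _ := by
        unfold jN
        ring

open scoped Classical in
private theorem len_two (D : Bal V d q j) (n : ℕ) :
    ∑ ω ∈ OM D, ∑ l ∈ (Pth D).filter (fun l => l.length = n + 2), (if Ech D ω l then (4 : ℝ) ^ evl D l else 0) ≤
      (25 / 10 ^ 50 * jN D * ((OM D).card : ℝ)) * (1 / 10 ^ 25) ^ (n / 2) := by
  obtain ⟨hq, -, -⟩ := bal_num D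
  have hq' : (10 : ℝ) ^ 7 ≤ q := by exact_mod_cast hq
  have hq0 : (0 : ℝ) < q := by linarith
  have hM0 : (0 : ℝ) ≤ ((OM D).card : ℝ) := Nat.cast_nonneg _
  have hV0 : (0 : ℝ) ≤ Fintype.card V := Nat.cast_nonneg _
  by_cases h : 20 * (n + 2) ≤ q
  · refine (ech_short D n h).trans ?_
    have h1 : ((1 : ℝ) / 10 ^ 50) ^ (n / 2) ≤ (1 / 10 ^ 25) ^ (n / 2) :=
      pow_le_pow_left₀ (by norm_num) (by norm_num) _
    calc 25 * ((j : ℝ) / q) ^ 2 * ((Fintype.card V : ℝ) * ((1 / 10 ^ 50) * (1 / 10 ^ 50) ^ (n / 2)) *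
          ((OM D).card : ℝ)) = (25 / 10 ^ 50 * jN D * ((OM D).card : ℝ)) * (1 / 10 ^ 50) ^ (n / 2) := by
          unfold jN
          ring
      _ ≤ _ := mul_le_mul_of_nonneg_left h1 (by unfold jN; positivity)
  · refine (ech_long D n).trans ?_
    have h1 := long_num (n := n) (not_le.1 h) (le_trans (by norm_num) hq)
    have hj : (1 : ℝ) ≤ (j : ℝ) ^ 2 := by
      have : (1 : ℝ) ≤ j := by exact_mod_cast D.j1
      nlinarith
    have h2 : ((1 : ℝ) / 10 ^ 50) ^ (n / 2) ≤ ((j : ℝ) / q) ^ 2 * (1 / 10 ^ 25) ^ (n / 2) := by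
      rw [div_pow (j : ℝ), div_mul_eq_mul_div, le_div_iff₀ (by positivity)]
      calc ((1 : ℝ) / 10 ^ 50) ^ (n / 2) * (q : ℝ) ^ 2 = (q : ℝ) ^ 2 * (1 / 10 ^ 50) ^ (n / 2) := by ring
        _ ≤ (1 / 10 ^ 25) ^ (n / 2) := h1
        _ = 1 * (1 / 10 ^ 25) ^ (n / 2) := (one_mul _).symm
        _ ≤ (j : ℝ) ^ 2 * (1 / 10 ^ 25) ^ (n / 2) := mul_le_mul_of_nonneg_right hj (by positivity)
    calc (Fintype.card V : ℝ) * ((1 / 10 ^ 50) * (1 / 10 ^ 50) ^ (n / 2)) * ((OM D).card : ℝ)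
        = ((Fintype.card V : ℝ) * ((OM D).card : ℝ) / 10 ^ 50) * (1 / 10 ^ 50) ^ (n / 2) := by ring
      _ ≤ ((Fintype.card V : ℝ) * ((OM D).card : ℝ) / 10 ^ 50) * (((j : ℝ) / q) ^ 2 * (1 / 10 ^ 25) ^ (n / 2)) :=
          mul_le_mul_of_nonneg_left h2 (by positivity)
      _ = (1 / 10 ^ 50 * jN D * ((OM D).card : ℝ)) * (1 / 10 ^ 25) ^ (n / 2) := by
          unfold jN
          ring
      _ ≤ _ := by
          refine mul_le_mul_of_nonneg_right ?_ (by positivity)
          refine mul_le_mul_of_nonneg_right ?_ hM0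
          refine mul_le_mul_of_nonneg_right (by norm_num) ?_
          unfold jN
          positivity

theorem wch_sum (D : Bal V d q j) : ∑ ω ∈ OM D, wch D ω ≤ jN D / 10 ^ 40 * ((OM D).card : ℝ) := by
  classical
  have hjN : 0 ≤ jN D := by
    unfold jN
    positivity
  have hM0 : (0 : ℝ) ≤ ((OM D).card : ℝ) := Nat.cast_nonneg _
  have h1 : ∀ ω, wch D ω = ∑ m ∈ range (Fintype.card V + 2), ∑ l ∈ (Pth D).filter (fun l => l.length = m),
      (if Ech D ω l then (4 : ℝ) ^ evl D l else 0) := by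
    intro ω
    unfold wch
    rw [Finset.sum_fiberwise_of_maps_to]
    · intro l hl
      have h2 := (mem_LT _ _).1 (Finset.mem_filter.1 hl).1
      rw [Finset.mem_range]
      omega
  have h2 : ∑ ω ∈ OM D, wch D ω = ∑ m ∈ range (Fintype.card V + 2), ∑ ω ∈ OM D,
      ∑ l ∈ (Pth D).filter (fun l => l.length = m), (if Ech D ω l then (4 : ℝ) ^ evl D l else 0) := by
    rw [Finset.sum_comm]
    exact Finset.sum_congr rfl fun ω _ => h1 ω
  rw [h2, Finset.sum_range_succ', Finset.sum_range_succ']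
  have h3 : ∑ ω ∈ OM D, ∑ l ∈ (Pth D).filter (fun l => l.length = 0),
      (if Ech D ω l then (4 : ℝ) ^ evl D l else 0) = 0 := by
    refine Finset.sum_eq_zero fun ω _ => ?_
    have : (Pth D).filter (fun l => l.length = 0) = ∅ := by
      rw [Finset.filter_eq_empty_iff]
      intro l hl h
      have h4 := List.length_eq_zero_iff.1 h
      subst h4
      obtain ⟨s, hs, -⟩ := (Finset.mem_filter.1 hl).2.2
      simp at hs
    rw [this, Finset.sum_empty]
  rw [h3, add_zero]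
  have h4 := len_one D
  have h5 : ∑ n ∈ range (Fintype.card V), ∑ ω ∈ OM D,
      ∑ l ∈ (Pth D).filter (fun l => l.length = n + 1 + 1), (if Ech D ω l then (4 : ℝ) ^ evl D l else 0) ≤
      (25 / 10 ^ 50 * jN D * ((OM D).card : ℝ)) * 3 := by
    refine (Finset.sum_le_sum fun n _ => len_two D n).trans ?_
    rw [← Finset.mul_sum]
    refine mul_le_mul_of_nonneg_left (geo_half (by norm_num) (by norm_num) _) ?_
    positivity
  have h6 : ∑ ω ∈ OM D, ∑ l ∈ (Pth D).filter (fun l => l.length = 0 + 1),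
      (if Ech D ω l then (4 : ℝ) ^ evl D l else 0) ≤ jN D / 10 ^ 60 * ((OM D).card : ℝ) := h4
  refine (add_le_add h5 h6).trans ?_
  have h7 : 0 ≤ jN D * ((OM D).card : ℝ) := mul_nonneg hjN hM0
  calc 25 / 10 ^ 50 * jN D * ((OM D).card : ℝ) * 3 + jN D / 10 ^ 60 * ((OM D).card : ℝ)
      = (75 / 10 ^ 50 + 1 / 10 ^ 60) * (jN D * ((OM D).card : ℝ)) := by ring
    _ ≤ (1 / 10 ^ 40) * (jN D * ((OM D).card : ℝ)) := mul_le_mul_of_nonneg_right (by norm_num) h7
    _ = jN D / 10 ^ 40 * ((OM D).card : ℝ) := by ring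

end

end Pool.Agent.LC3

end

/-! ### from `Lib_MP_2c424f_lc3.T17` -/

section

/-!
# Part III, T17: typical odd vertices (Markov)

Four times Markov in `OM D`: each condition of `QQ` fails for at most `|OM| / 8` pairs.
`∑_{OM} Wcl = ∑_{OM} wch` (`sum_cl_avg`, `OM_cl`), `wch_sum`.
`∑_{OM} |X00| = ∑_{y odd} #{OM : s1, s2 at y} ≤ 2 j^2 / (|B| - 1)^2 ∑_{OM} nJ A ≤ 10 (j/q)^2 N / 10^50 |OM|` (`odd_count`, `nA_le`).
`∑_{OM} nJ J_i ≤ j / (|B| - 1) ∑_{OM} nJ A ≤ 3 (j/q) N / 10^50 |OM|` (`J_count`).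
-/

set_option autoImplicit false

open Finset Filter

namespace Pool.Agent.LC3

open Pool.Agent.LO Pool.Agent.LIN Pool.Agent.THR Pool.Agent.COR Pool.Agent.LC

open scoped Classical in
private theorem T17_markov {α : Type} (Ω : Finset α) (f : α → ℝ) (hf : ∀ ω ∈ Ω, 0 ≤ f ω) (t K : ℝ) (ht : 0 ≤ t)
    (hK : 0 ≤ K) (h : ∑ ω ∈ Ω, f ω ≤ t * K) : ((Ω.filter fun ω => t < f ω).card : ℝ) ≤ K := by
  have h1 : t * ((Ω.filter fun ω => t < f ω).card : ℝ) ≤ ∑ ω ∈ Ω.filter (fun ω => t < f ω), f ω := by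
    have h2 : ∑ _ω ∈ Ω.filter (fun ω => t < f ω), t ≤ ∑ ω ∈ Ω.filter (fun ω => t < f ω), f ω :=
      Finset.sum_le_sum fun ω hω => (Finset.mem_filter.1 hω).2.le
    rw [Finset.sum_const, nsmul_eq_mul] at h2
    linarith
  have h3 : ∑ ω ∈ Ω.filter (fun ω => t < f ω), f ω ≤ ∑ ω ∈ Ω, f ω :=
    Finset.sum_le_sum_of_subset_of_nonneg (Finset.filter_subset _ _) fun ω hω _ => hf ω hω
  rcases ht.lt_or_eq with ht0 | ht0
  · have h4 : t * ((Ω.filter fun ω => t < f ω).card : ℝ) ≤ t * K := h1.trans (h3.trans h)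
    exact le_of_mul_le_mul_left h4 ht0
  · have h5 : ∑ ω ∈ Ω, f ω = 0 := by
      apply le_antisymm
      · rw [← ht0, zero_mul] at h
        exact h
      · exact Finset.sum_nonneg hf
    have h6 := (Finset.sum_eq_zero_iff_of_nonneg hf).1 h5
    have h7 : (Ω.filter fun ω => t < f ω) = ∅ := by
      rw [Finset.filter_eq_empty_iff]
      intro ω hω hlt
      rw [h6 ω hω, ← ht0] at hlt
      exact lt_irrefl _ hlt
    rw [h7, Finset.card_empty, Nat.cast_zero]
    exact hK

private theorem T17_swap {α V : Type} (Ω : Finset α) (W : Finset V) (P : V → α → Prop)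
    [∀ ω, DecidablePred fun v => P v ω] [∀ v, DecidablePred fun ω => P v ω] :
    ∑ ω ∈ Ω, ((W.filter fun v => P v ω).card : ℝ) = ∑ v ∈ W, ((Ω.filter fun ω => P v ω).card : ℝ) := by
  classical
  have h1 : ∀ ω, ((W.filter fun v => P v ω).card : ℝ) = ∑ v ∈ W, if P v ω then (1 : ℝ) else 0 := by
    intro ω
    rw [Finset.sum_ite, Finset.sum_const, Finset.sum_const_zero, add_zero, nsmul_eq_mul, mul_one]
  have h2 : ∀ v, ((Ω.filter fun ω => P v ω).card : ℝ) = ∑ ω ∈ Ω, if P v ω then (1 : ℝ) else 0 := by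
    intro v
    rw [Finset.sum_ite, Finset.sum_const, Finset.sum_const_zero, add_zero, nsmul_eq_mul, mul_one]
  rw [Finset.sum_congr rfl fun ω _ => h1 ω, Finset.sum_congr rfl fun v _ => h2 v, Finset.sum_comm]

section
variable {V : Type} [Fintype V] [DecidableEq V] {d q j : ℕ}

open scoped Classical in
private theorem T17_nJ (D : Bal V d q j) (J' : Finset (Fin q)) :
    ∑ ω ∈ OM D, nJ D J' ω
      = ∑ v ∈ univ.filter (fun v => ¬ D.ev v), (((OM D).filter fun ω => (ω v).1 ∈ J').card : ℝ) := by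
  refine Eq.trans ?_ (T17_swap (OM D) (univ.filter fun v => ¬ D.ev v) fun v ω => (ω v).1 ∈ J')
  refine Finset.sum_congr rfl fun ω _ => ?_
  unfold nJ
  have e : (univ.filter fun v => ¬ D.ev v ∧ (ω v).1 ∈ J')
      = (univ.filter fun v => ¬ D.ev v).filter fun v => (ω v).1 ∈ J' := by
    ext v
    simp only [Finset.mem_filter, Finset.mem_univ, true_and]
  rw [← e]

open scoped Classical in
private theorem T17_X00 (D : Bal V d q j) :
    ∑ ω ∈ OM D, ((X00 D ω).card : ℝ)
      = ∑ v ∈ univ.filter (fun v => ¬ D.ev v), (((OM D).filter fun ω => s1 D (ω v) ∧ s2 D (ω v)).card : ℝ) := by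
  refine Eq.trans ?_ (T17_swap (OM D) (univ.filter fun v => ¬ D.ev v) fun v ω => s1 D (ω v) ∧ s2 D (ω v))
  refine Finset.sum_congr rfl fun ω _ => ?_
  unfold X00
  have e : (univ.filter fun v => ¬ D.ev v ∧ s1 D (ω v) ∧ s2 D (ω v))
      = (univ.filter fun v => ¬ D.ev v).filter fun v => s1 D (ω v) ∧ s2 D (ω v) := by
    ext v
    simp only [Finset.mem_filter, Finset.mem_univ, true_and]
  rw [← e]

private theorem T17_nA (D : Bal V d q j) :
    ∑ ω ∈ OM D, nJ D D.A ω ≤ (Fintype.card V : ℝ) / 10 ^ 50 * ((OM D).card : ℝ) := by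
  refine (Finset.sum_le_sum fun ω hω => nA_le D hω).trans (le_of_eq ?_)
  rw [Finset.sum_const, nsmul_eq_mul, mul_comm]

private theorem T17_q (D : Bal V d q j) : (10 : ℝ) ^ 7 ≤ (q : ℝ) := by
  have hd1 : 1 ≤ d := le_trans (by norm_num) D.dl
  obtain ⟨_, _, h3⟩ := num_q D.rg hd1
  have h4 := D.dl
  have h5 : 10 ^ 7 ≤ q := by omega
  exact_mod_cast h5

private theorem T17_B (D : Bal V d q j) : (47 : ℝ) / 100 * q ≤ (D.B.card : ℝ) - 1 := by
  have h1 := T17_q D
  have h2 := (card_B D).2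
  have h3 : (1 : ℝ) ≤ 1 / 100 * q := by
    have : (1 : ℝ) / 100 * 10 ^ 7 ≤ 1 / 100 * q := by linarith
    refine le_trans ?_ this
    norm_num
  linarith

open scoped Classical in
private theorem T17_J (D : Bal V d q j) (J' : Finset (Fin q)) (hJ : J' ⊆ D.A \ D.B) (hc : J'.card = j) :
    ∑ ω ∈ OM D, nJ D J' ω ≤ 3 * ((j : ℝ) / q * Fintype.card V) / 10 ^ 50 * ((OM D).card : ℝ) := by
  have hq := T17_q D
  have hq0 : (0 : ℝ) < q := lt_of_lt_of_le (by positivity) hq
  have hB := T17_B D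
  have hb0 : (0 : ℝ) < (D.B.card : ℝ) - 1 := lt_of_lt_of_le (by positivity) hB
  have h1 : (∑ ω ∈ OM D, nJ D J' ω) * ((D.B.card : ℝ) - 1) ≤ j * ∑ ω ∈ OM D, nJ D D.A ω := by
    rw [T17_nJ, T17_nJ, Finset.sum_mul, Finset.mul_sum]
    refine Finset.sum_le_sum fun y _ => ?_
    have := J_count D J' hJ y
    rw [hc] at this
    exact this
  have h2 : (j : ℝ) * ∑ ω ∈ OM D, nJ D D.A ω ≤ j * ((Fintype.card V : ℝ) / 10 ^ 50 * ((OM D).card : ℝ)) :=
    mul_le_mul_of_nonneg_left (T17_nA D) (Nat.cast_nonneg _)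
  have hR : 0 ≤ 3 * ((j : ℝ) / q * Fintype.card V) / 10 ^ 50 * ((OM D).card : ℝ) := by positivity
  have h3 : (j : ℝ) * ((Fintype.card V : ℝ) / 10 ^ 50 * ((OM D).card : ℝ)) ≤
      3 * ((j : ℝ) / q * Fintype.card V) / 10 ^ 50 * ((OM D).card : ℝ) * ((D.B.card : ℝ) - 1) := by
    have h4 : 3 * ((j : ℝ) / q * Fintype.card V) / 10 ^ 50 * ((OM D).card : ℝ) * (47 / 100 * q)
        ≤ 3 * ((j : ℝ) / q * Fintype.card V) / 10 ^ 50 * ((OM D).card : ℝ) * ((D.B.card : ℝ) - 1) :=
      mul_le_mul_of_nonneg_left hB hR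
    refine le_trans ?_ h4
    have h5 : 3 * ((j : ℝ) / q * Fintype.card V) / 10 ^ 50 * ((OM D).card : ℝ) * (47 / 100 * q)
        = 141 / 100 * (j * ((Fintype.card V : ℝ) / 10 ^ 50 * ((OM D).card : ℝ))) := by
      field_simp
      ring
    rw [h5]
    have h6 : 0 ≤ (j : ℝ) * ((Fintype.card V : ℝ) / 10 ^ 50 * ((OM D).card : ℝ)) := by positivity
    linarith
  exact le_of_mul_le_mul_right (h1.trans (h2.trans h3)) hb0

open scoped Classical in
private theorem T17_X (D : Bal V d q j) :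
    ∑ ω ∈ OM D, ((X00 D ω).card : ℝ) ≤ 10 * jN D / 10 ^ 50 * ((OM D).card : ℝ) := by
  have hq := T17_q D
  have hq0 : (0 : ℝ) < q := lt_of_lt_of_le (by positivity) hq
  have hB := T17_B D
  have hb0 : (0 : ℝ) < (D.B.card : ℝ) - 1 := lt_of_lt_of_le (by positivity) hB
  have h1 : (∑ ω ∈ OM D, ((X00 D ω).card : ℝ)) * ((D.B.card : ℝ) - 1) ^ 2
      ≤ 2 * (j : ℝ) ^ 2 * ∑ ω ∈ OM D, nJ D D.A ω := by
    rw [T17_nJ, T17_X00, Finset.sum_mul, Finset.mul_sum]
    exact Finset.sum_le_sum fun y _ => odd_count D y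
  have h2 : 2 * (j : ℝ) ^ 2 * ∑ ω ∈ OM D, nJ D D.A ω
      ≤ 2 * (j : ℝ) ^ 2 * ((Fintype.card V : ℝ) / 10 ^ 50 * ((OM D).card : ℝ)) :=
    mul_le_mul_of_nonneg_left (T17_nA D) (by positivity)
  have hjN : 0 ≤ jN D := by
    unfold jN
    positivity
  have hR : 0 ≤ 10 * jN D / 10 ^ 50 * ((OM D).card : ℝ) := by positivity
  have h3 : 2 * (j : ℝ) ^ 2 * ((Fintype.card V : ℝ) / 10 ^ 50 * ((OM D).card : ℝ)) ≤
      10 * jN D / 10 ^ 50 * ((OM D).card : ℝ) * ((D.B.card : ℝ) - 1) ^ 2 := by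
    have hsq : (47 / 100 * (q : ℝ)) ^ 2 ≤ ((D.B.card : ℝ) - 1) ^ 2 := by
      apply pow_le_pow_left₀ (by positivity) hB
    have h4 : 10 * jN D / 10 ^ 50 * ((OM D).card : ℝ) * (47 / 100 * (q : ℝ)) ^ 2
        ≤ 10 * jN D / 10 ^ 50 * ((OM D).card : ℝ) * ((D.B.card : ℝ) - 1) ^ 2 :=
      mul_le_mul_of_nonneg_left hsq hR
    refine le_trans ?_ h4
    have h5 : 10 * jN D / 10 ^ 50 * ((OM D).card : ℝ) * (47 / 100 * (q : ℝ)) ^ 2
        = 11045 / 10000 * (2 * (j : ℝ) ^ 2 * ((Fintype.card V : ℝ) / 10 ^ 50 * ((OM D).card : ℝ))) := by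
      unfold jN
      field_simp
      ring
    rw [h5]
    have h6 : 0 ≤ 2 * (j : ℝ) ^ 2 * ((Fintype.card V : ℝ) / 10 ^ 50 * ((OM D).card : ℝ)) := by positivity
    linarith
  exact le_of_mul_le_mul_right (h1.trans (h2.trans h3)) (by positivity)

private theorem T17_pr (D : Bal V d q j) {ω : V → Fin q × Fin q} (h : ω ∈ OM D) : PrP D.G ω := by
  classical
  unfold OM at h
  simp only [Finset.mem_filter] at h
  exact h.2.1

private theorem T17_wch0 (D : Bal V d q j) (ω : V → Fin q × Fin q) : 0 ≤ wch D ω := by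
  unfold wch
  refine Finset.sum_nonneg fun l _ => ?_
  split_ifs
  · positivity
  · exact le_refl _

private theorem T17_Wcl0 (D : Bal V d q j) (ω : V → Fin q × Fin q) : 0 ≤ Wcl D ω := by
  unfold Wcl
  exact div_nonneg (Finset.sum_nonneg fun _ _ => T17_wch0 D _) (Nat.cast_nonneg _)

open scoped Classical in
theorem QQ_half (D : Bal V d q j) : ((OM D).card : ℝ) ≤ 2 * (((OM D).filter fun ω => QQ D ω).card : ℝ) := by
  set M : ℝ := ((OM D).card : ℝ) with hM
  have hM0 : 0 ≤ M := Nat.cast_nonneg _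
  have hjN : 0 ≤ jN D := by
    unfold jN
    positivity
  have hjq : 0 ≤ (j : ℝ) / q * Fintype.card V := by positivity
  have hJ1 : D.J1 ⊆ D.A \ D.B := by
    rw [D.un]
    exact Finset.subset_union_left
  have hJ2 : D.J2 ⊆ D.A \ D.B := by
    rw [D.un]
    exact Finset.subset_union_right
  have b1 := T17_markov (OM D) (fun ω => Wcl D ω) (fun ω _ => T17_Wcl0 D ω) (jN D / 10 ^ 20) (M / 8) (by positivity)
    (by positivity) (by
      have h1 : ∑ ω ∈ OM D, Wcl D ω = ∑ ω ∈ OM D, wch D ω := by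
        unfold Wcl
        exact sum_cl_avg D.G D.ev (OM D) (fun ω h => T17_pr D h) (fun ω h => OM_cl D h) (wch D)
      rw [h1]
      refine (wch_sum D).trans ?_
      have h2 : jN D / 10 ^ 20 * (M / 8) - jN D / 10 ^ 40 * M = jN D * M * (1 / 10 ^ 20 / 8 - 1 / 10 ^ 40) := by ring
      have h3 : 0 ≤ jN D * M * (1 / 10 ^ 20 / 8 - 1 / 10 ^ 40) :=
        mul_nonneg (mul_nonneg hjN hM0) (by norm_num)
      rw [← hM]
      linarith)
  have b2 := T17_markov (OM D) (fun ω => ((X00 D ω).card : ℝ)) (fun ω _ => Nat.cast_nonneg _) (jN D / 10 ^ 20) (M / 8)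
    (by positivity) (by positivity) (by
      refine (T17_X D).trans ?_
      have h2 : jN D / 10 ^ 20 * (M / 8) - 10 * jN D / 10 ^ 50 * M
          = jN D * M * (1 / 10 ^ 20 / 8 - 10 / 10 ^ 50) := by ring
      have h3 : 0 ≤ jN D * M * (1 / 10 ^ 20 / 8 - 10 / 10 ^ 50) :=
        mul_nonneg (mul_nonneg hjN hM0) (by norm_num)
      rw [← hM]
      linarith)
  have hJ : ∀ J' : Finset (Fin q), J' ⊆ D.A \ D.B → J'.card = j →
      (((OM D).filter fun ω => (j : ℝ) / q * Fintype.card V / 10 ^ 20 < nJ D J' ω).card : ℝ) ≤ M / 8 := by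
    intro J' h1 h2
    refine T17_markov (OM D) (fun ω => nJ D J' ω) (fun ω _ => ?_) _ (M / 8) (by positivity) (by positivity) ?_
    · unfold nJ
      exact Nat.cast_nonneg _
    · refine (T17_J D J' h1 h2).trans ?_
      set t : ℝ := (j : ℝ) / q * Fintype.card V with ht
      have h2 : t / 10 ^ 20 * (M / 8) - 3 * t / 10 ^ 50 * M = t * M * (1 / 10 ^ 20 / 8 - 3 / 10 ^ 50) := by ring
      have h3 : 0 ≤ t * M * (1 / 10 ^ 20 / 8 - 3 / 10 ^ 50) :=
        mul_nonneg (mul_nonneg hjq hM0) (by norm_num)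
      rw [← hM]
      linarith
  have b3 := hJ D.J1 hJ1 D.c1
  have b4 := hJ D.J2 hJ2 D.c2
  have hcov : OM D ⊆ ((OM D).filter fun ω => QQ D ω) ∪
      (((OM D).filter fun ω => jN D / 10 ^ 20 < Wcl D ω) ∪
      (((OM D).filter fun ω => jN D / 10 ^ 20 < ((X00 D ω).card : ℝ)) ∪
      (((OM D).filter fun ω => (j : ℝ) / q * Fintype.card V / 10 ^ 20 < nJ D D.J1 ω) ∪
      ((OM D).filter fun ω => (j : ℝ) / q * Fintype.card V / 10 ^ 20 < nJ D D.J2 ω)))) := by
    intro ω hω
    simp only [Finset.mem_union, Finset.mem_filter]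
    by_cases h1 : Wcl D ω ≤ jN D / 10 ^ 20
    · by_cases h2 : ((X00 D ω).card : ℝ) ≤ jN D / 10 ^ 20
      · by_cases h3 : nJ D D.J1 ω ≤ (j : ℝ) / q * Fintype.card V / 10 ^ 20
        · by_cases h4 : nJ D D.J2 ω ≤ (j : ℝ) / q * Fintype.card V / 10 ^ 20
          · exact Or.inl ⟨hω, h1, h2, h3, h4⟩
          · exact Or.inr (Or.inr (Or.inr (Or.inr ⟨hω, not_le.1 h4⟩)))
        · exact Or.inr (Or.inr (Or.inr (Or.inl ⟨hω, not_le.1 h3⟩)))
      · exact Or.inr (Or.inr (Or.inl ⟨hω, not_le.1 h2⟩))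
    · exact Or.inr (Or.inl ⟨hω, not_le.1 h1⟩)
  have hle : (OM D).card ≤ ((OM D).filter fun ω => QQ D ω).card +
      (((OM D).filter fun ω => jN D / 10 ^ 20 < Wcl D ω).card +
      (((OM D).filter fun ω => jN D / 10 ^ 20 < ((X00 D ω).card : ℝ)).card +
      (((OM D).filter fun ω => (j : ℝ) / q * Fintype.card V / 10 ^ 20 < nJ D D.J1 ω).card +
      ((OM D).filter fun ω => (j : ℝ) / q * Fintype.card V / 10 ^ 20 < nJ D D.J2 ω).card))) := by
    refine (Finset.card_le_card hcov).trans ?_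
    refine (Finset.card_union_le _ _).trans (Nat.add_le_add_left ?_ _)
    refine (Finset.card_union_le _ _).trans (Nat.add_le_add_left ?_ _)
    refine (Finset.card_union_le _ _).trans (Nat.add_le_add_left ?_ _)
    exact Finset.card_union_le _ _
  have hle' : M ≤ (((OM D).filter fun ω => QQ D ω).card : ℝ) +
      ((((OM D).filter fun ω => jN D / 10 ^ 20 < Wcl D ω).card : ℝ) +
      ((((OM D).filter fun ω => jN D / 10 ^ 20 < ((X00 D ω).card : ℝ)).card : ℝ) +
      ((((OM D).filter fun ω => (j : ℝ) / q * Fintype.card V / 10 ^ 20 < nJ D D.J1 ω).card : ℝ) +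
      (((OM D).filter fun ω => (j : ℝ) / q * Fintype.card V / 10 ^ 20 < nJ D D.J2 ω).card : ℝ)))) := by
    rw [hM]
    exact_mod_cast hle
  linarith

end

end Pool.Agent.LC3

end

/-! ### from `Lib_MP_2c424f_lc3.T12` -/

section

/-!
# Part III, T12: the local lemma (III.C)

`paths_lll` (file `PercB.lean`) with `ev = D.ev`, `cf = cfB D ω₀`, `S = Sx G ev ω₀`, `P1B`, `P2B`, `ρ = rh`, `b = 6 a`, `ρ' = 2 rh` (`T10`), `Ev = Pth D`,
`E l ω = Ech D (mix ω) l`, `mix ω v = ω v` for even `v`, `ω₀ v` for odd `v`, `p0 = 3 e^{-a}`.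
For `ω ∈ piFinset S` we have `mix ω = ω`, `so ω ω₀`, so `Del D ω = Del D ω₀` (`Del_so`).  `hdep`: `Del D (mix ω)` does not depend on `ω`; the rest of `Ech` uses the values at the
vertices of `l` only.  `hE`: a generic conflict edge `s t` (one even, one odd: `Par`) outside `X0` is `cfl D.ev (cfB D ω₀) ω s t` (`cj` with `Φ = fo ω₀`, `Ψ = go ω₀`).
`hE1`: `s1 a ∧ s2 a` implies `a.2 ∉ B`: `site_rare` and `cnt_site`; if `x ∈ X0` the event is empty.   `hsm`, `hρ`: `num_e`, `num_a`.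
The sum in the conclusion is `Wcl D ω₀` (exchange the sums; `evl`).
-/

set_option autoImplicit false

open Finset Filter

namespace Pool.Agent.LC3

open Pool.Agent.LO Pool.Agent.LIN Pool.Agent.THR Pool.Agent.COR Pool.Agent.LC

section
variable {V : Type} [Fintype V] [DecidableEq V] {d q j : ℕ}

open scoped Classical in
/-- `ω` at the even vertices, `ω₀` at the odd ones -/
private noncomputable def mix (ev : V → Prop) (ω₀ ω : V → Fin q × Fin q) : V → Fin q × Fin q :=
  fun v => if ev v then ω v else ω₀ v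

private theorem mix_so (ev : V → Prop) (ω₀ ω : V → Fin q × Fin q) : so ev (mix ev ω₀ ω) ω₀ := by
  intro v hv
  unfold mix
  rw [if_neg hv]

private theorem mix_mem (G : SimpleGraph V) (ev : V → Prop) (ω₀ ω : V → Fin q × Fin q)
    (h : ∀ v, ω v ∈ Sx G ev ω₀ v) : mix ev ω₀ ω = ω := by
  funext v
  unfold mix
  split_ifs with hv
  · rfl
  · have h1 := h v
    unfold Sx at h1
    rw [if_neg hv, Finset.mem_singleton] at h1
    exact h1.symm

private theorem Ech_iff (D : Bal V d q j) {ω ω₀ : V → Fin q × Fin q} (h : so D.ev ω ω₀) (l : List V) :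
    Ech D ω l ↔ (∀ s ∈ l, s ∉ Del D ω₀) ∧ l.IsChain (gc D ω) ∧ (∃ s ∈ l.head?, s1 D (ω s)) ∧
      ∃ s ∈ l.getLast?, s2 D (ω s) := by
  unfold Ech
  rw [Del_so D h]

private theorem Ech_congr (D : Bal V d q j) (ω₀ : V → Fin q × Fin q) {ω ω' : V → Fin q × Fin q} (l : List V)
    (h : ∀ s ∈ l, mix D.ev ω₀ ω s = mix D.ev ω₀ ω' s) (hE : Ech D (mix D.ev ω₀ ω) l) :
    Ech D (mix D.ev ω₀ ω') l := by
  rw [Ech_iff D (mix_so _ _ _)] at hE ⊢
  obtain ⟨h1, h2, ⟨s, hs, h3⟩, ⟨t, ht, h4⟩⟩ := hE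
  refine ⟨h1, ?_, ⟨s, hs, ?_⟩, ⟨t, ht, ?_⟩⟩
  · refine List.IsChain.imp_of_mem_imp (fun a b ha hb hab => ?_) h2
    unfold gc at hab ⊢
    rw [h a ha, h b hb] at hab
    exact hab
  · rwa [← h s (List.mem_of_mem_head? hs)]
  · rwa [← h t (List.mem_of_mem_getLast? ht)]

private theorem s12_notB (D : Bal V d q j) {a : Fin q × Fin q} (h1 : s1 D a) (h2 : s2 D a) : a.2 ∉ D.B := by
  have hJ : ∀ c, c ∈ D.J1 ∪ D.J2 → c ∉ D.B := by
    intro c hc
    rw [← D.un, Finset.mem_sdiff] at hc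
    exact hc.2
  have hd : ∀ c, c ∈ D.J1 → c ∉ D.J2 := fun c hc hc' => Finset.disjoint_left.1 D.dis hc hc'
  rcases h1 with h1 | h1
  · rcases h2 with h2 | h2
    · exact absurd h2 (hd _ h1)
    · exact hJ _ (Finset.mem_union_right _ h2)
  · exact hJ _ (Finset.mem_union_left _ h1)

private theorem gc_cfl (D : Bal V d q j) {ω ω₀ : V → Fin q × Fin q} (h : so D.ev ω ω₀) {s t : V}
    (hs : s ∉ X0 D ω₀) (ht : t ∉ X0 D ω₀) (hg : gc D ω s t) : cfl D.ev (cfB D ω₀) ω s t := by
  obtain ⟨hadj, hg⟩ := hg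
  have hp := D.par s t hadj
  by_cases hev : D.ev s
  · have hto : ¬ D.ev t := hp.1 hev
    refine Or.inl ⟨hev, hto, hadj, hs, ht, ?_⟩
    have h1 : ω t = ω₀ t := h t hto
    rw [h1] at hg
    rcases hg with hg | hg
    · exact Or.inl ⟨hg.1, hg.2⟩
    · exact Or.inr ⟨hg.1, hg.2⟩
  · have hte : D.ev t := by
      by_contra h'
      exact hev (hp.2 h')
    refine Or.inr ⟨hev, hte, hadj.symm, ht, hs, ?_⟩
    have h1 : ω s = ω₀ s := h s hev
    rw [h1] at hg
    rcases hg with hg | hg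
    · exact Or.inr ⟨hg.1.symm, by rw [← hg.1]; exact hg.2⟩
    · exact Or.inl ⟨hg.1.symm, by rw [← hg.1]; exact hg.2⟩

private theorem card_ext {α : Type*} {A B : Finset α} (h : ∀ a, a ∈ A ↔ a ∈ B) : A.card = B.card := by
  rw [Finset.ext h]

open scoped Classical in
private theorem cnt_card {ι α : Type*} [Fintype ι] [DecidableEq ι] [DecidableEq α] {S : ι → Finset α} {E : (ι → α) → Prop}
    {T : Finset (ι → α)} (h : ∀ ω, ω ∈ Fintype.piFinset S ∧ E ω ↔ ω ∈ T) : cnt S E = (T.card : ℝ) := by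
  unfold cnt
  refine congrArg (Nat.cast : ℕ → ℝ) (card_ext fun ω => ?_)
  rw [Finset.mem_filter]
  exact h ω

open scoped Classical in
theorem NL_ge (D : Bal V d q j) {ω₀ : V → Fin q × Fin q} (h : PrP D.G ω₀) :
    Real.exp (-(2 * Wcl D ω₀)) * ((cl D.G D.ev ω₀).card : ℝ) ≤ (((cl D.G D.ev ω₀).filter fun ω => NL D ω).card : ℝ) := by
  have hd : 1 ≤ d := le_trans (by norm_num) D.dl
  obtain ⟨he1, he2, he3⟩ := num_e D.rg hd
  obtain ⟨ha1, ha2⟩ := num_a D.rg hd
  have hK := ker D ω₀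
  have hS := pker D h
  have hcl := cl_eq D.G D.ev D.par ω₀
  set S := Sx D.G D.ev ω₀ with hSdef
  have hrh0 : 0 ≤ rh d q := hK.r0
  have hmain := paths_lll hS hK (by nlinarith) (Pth D)
    (fun l hl => (Finset.mem_filter.1 hl).2.1) (fun l hl => (Finset.mem_filter.1 hl).2.2)
    (fun l ω => Ech D (mix D.ev ω₀ ω) l)
    (by
      intro l _ ω ω' hω
      have h1 : ∀ s ∈ l, mix D.ev ω₀ ω s = mix D.ev ω₀ ω' s := by
        intro s hs
        unfold mix
        split_ifs with hev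
        · exact hω s (Finset.mem_filter.2 ⟨List.mem_toFinset.2 hs, hev⟩)
        · rfl
      exact ⟨Ech_congr D ω₀ l h1, Ech_congr D ω₀ l fun s hs => (h1 s hs).symm⟩)
    (by
      intro l _ _ ω hω hE
      have h1 : mix D.ev ω₀ ω = ω := mix_mem D.G D.ev ω₀ ω hω
      have h2 : so D.ev ω ω₀ := by
        rw [← h1]
        exact mix_so _ _ _
      change Ech D (mix D.ev ω₀ ω) l at hE
      rw [h1, Ech_iff D h2] at hE
      have h3 : ∀ s ∈ l, s ∉ X0 D ω₀ := by
        intro s hs hX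
        refine hE.1 s hs ?_
        unfold Del
        exact Finset.mem_union_left _ hX
      exact List.IsChain.imp_of_mem_imp (fun a b ha hb hab => gc_cfl D h2 (h3 a ha) (h3 b hb) hab) hE.2.1)
    (3 * Real.exp (-ra d q)) (by positivity)
    (by
      intro x hx _
      by_cases hX : x ∈ X0 D ω₀
      · have h1 : cnt S (fun ω => Ech D (mix D.ev ω₀ ω) [x]) ≤ cnt S (fun _ => False) := by
          refine cnt_mono fun ω _ hE => ?_
          rw [Ech_iff D (mix_so _ _ _)] at hE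
          refine hE.1 x (List.mem_singleton_self x) ?_
          unfold Del
          exact Finset.mem_union_left _ hX
        have h2 : cnt S (fun _ : V → Fin q × Fin q => False) = 0 := by
          unfold cnt
          simp
        rw [h2] at h1
        exact h1.trans (mul_nonneg (by positivity) (cnt_nonneg _ _))
      · have h1 : cnt S (fun ω => Ech D (mix D.ev ω₀ ω) [x]) ≤ cnt S (fun ω => (fun a : Fin q × Fin q => a.2 ∉ D.B) (ω x)) := by
          refine cnt_mono fun ω _ hE => ?_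
          rw [Ech_iff D (mix_so _ _ _)] at hE
          obtain ⟨-, -, ⟨s, hs, e3⟩, ⟨t, ht, e4⟩⟩ := hE
          simp only [List.head?_cons, Option.mem_def, Option.some.injEq] at hs
          simp only [List.getLast?_singleton, Option.mem_def, Option.some.injEq] at ht
          subst hs
          subst ht
          have h3 : mix D.ev ω₀ ω x = ω x := by
            unfold mix
            rw [if_pos hx]
          rw [h3] at e3 e4
          exact s12_notB D e3 e4
        refine h1.trans ?_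
        have h4 := cnt_site S x (fun a : Fin q × Fin q => a.2 ∉ D.B)
        have h5 : S x = Rv D.G (fo ω₀) x ×ˢ Rv D.G (go ω₀) x := by
          rw [hSdef]
          unfold Sx
          rw [if_pos hx]
        have h6 := site_rare D ω₀ hx hX
        rw [← h5] at h6
        have h7 : (0 : ℝ) < ((S x).card : ℕ) := by exact_mod_cast (hS.ne x).card_pos
        refine le_of_mul_le_mul_right ?_ h7
        refine h4.le.trans ?_
        refine (mul_le_mul_of_nonneg_right ?_ (cnt_nonneg _ _)).trans_eq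
          (show (3 * Real.exp (-ra d q) * (((S x).card : ℕ) : ℝ)) * cnt S (fun _ => True) = _ by ring)
        refine le_trans (le_of_eq ?_) h6
        refine congrArg (Nat.cast : ℕ → ℝ) (card_ext fun a => ?_)
        simp only [Finset.mem_filter])
    (by
      have h1 : 0 ≤ ra d q := by linarith
      have h2 : 2 * (1 + 4 * (6 * ra d q)) ≤ 10 ^ 5 := by linarith
      have h3 : 0 ≤ 2 * (1 + 4 * (6 * ra d q)) := by positivity
      have h4 : (2 * (1 + 4 * (6 * ra d q))) ^ 2 ≤ 10 ^ 10 := by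
        calc (2 * (1 + 4 * (6 * ra d q))) ^ 2 ≤ (10 ^ 5) ^ 2 := pow_le_pow_left₀ h3 h2 2
          _ = 10 ^ 10 := by norm_num
      have h5 : 4 * (2 * rh d q) ≤ 8 / 10 ^ 60 := by linarith
      have h6 : 0 ≤ 4 * (2 * rh d q) := by positivity
      have h7 : 4 * (2 * rh d q) * (2 * (1 + 4 * (6 * ra d q))) ≤ 8 / 10 ^ 60 * 10 ^ 5 :=
        mul_le_mul h5 h2 h3 (by norm_num)
      have h8 : 4 * (2 * rh d q) * (2 * (1 + 4 * (6 * ra d q))) ^ 2 ≤ 8 / 10 ^ 60 * 10 ^ 10 :=
        mul_le_mul h5 h4 (by positivity) (by norm_num)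
      have h9 : 4 * (3 * Real.exp (-ra d q)) ≤ 12 / 10 ^ 100 := by linarith
      refine le_trans (add_le_add h9 (add_le_add (mul_le_mul_of_nonneg_left h7 (by norm_num : (0 : ℝ) ≤ 2)) h8)) ?_
      norm_num)
  -- translation
  have hT : cnt S (fun _ => True) = ((cl D.G D.ev ω₀).card : ℝ) := by
    refine cnt_card fun ω => ?_
    rw [hcl]
    simp
  have hmix : ∀ ω ∈ cl D.G D.ev ω₀, mix D.ev ω₀ ω = ω := by
    intro ω hω
    rw [hcl] at hω
    exact mix_mem D.G D.ev ω₀ ω (Fintype.mem_piFinset.1 hω)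
  have hN : cnt S (fun ω => ∀ l ∈ Pth D, ¬ Ech D (mix D.ev ω₀ ω) l) =
      (((cl D.G D.ev ω₀).filter fun ω => NL D ω).card : ℝ) := by
    refine cnt_card fun ω => ?_
    rw [← hcl, Finset.mem_filter]
    refine and_congr_right fun hω => ?_
    rw [hmix ω hω]
    rfl
  have hEl : ∀ l, cnt S (fun ω => Ech D (mix D.ev ω₀ ω) l) =
      (((cl D.G D.ev ω₀).filter fun ω => Ech D ω l).card : ℝ) := by
    intro l
    refine cnt_card fun ω => ?_
    rw [← hcl, Finset.mem_filter]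
    refine and_congr_right fun hω => ?_
    rw [hmix ω hω]
  have hW : ∑ l ∈ Pth D, 4 ^ (l.filter fun s => D.ev s).length *
      (cnt S (fun ω => Ech D (mix D.ev ω₀ ω) l) / cnt S fun _ => True) = Wcl D ω₀ := by
    unfold Wcl wch
    rw [Finset.sum_comm, Finset.sum_div]
    refine Finset.sum_congr rfl fun l _ => ?_
    rw [hEl, hT, ← Finset.sum_filter, Finset.sum_const, nsmul_eq_mul]
    unfold evl
    ring
  rw [hW, hN, hT] at hmain
  exact hmain

end

end Pool.Agent.LC3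

end

/-! ### from `Lib_MP_2c424f_lc3.T18` -/

section

/-!
# Part III, T18: pairs without chains

`card_cl_le` with `Ω = (OM D).filter QQ` (closed: `OM_cl`, `QQ_so`), `R = NL D`, `M = e^{2 jN/10^20}`: `NL_ge` and `Wcl ≤ jN / 10^20` on `Ω`.  Then `QQ_half`.
-/

set_option autoImplicit false

open Finset Filter

namespace Pool.Agent.LC3

open Pool.Agent.LO Pool.Agent.LIN Pool.Agent.THR Pool.Agent.COR Pool.Agent.LC

section
variable {V : Type} [Fintype V] [DecidableEq V] {d q j : ℕ}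

open scoped Classical in
theorem QQ_NL (D : Bal V d q j) :
    ((OM D).card : ℝ) ≤ 2 * Real.exp (2 * (jN D / 10 ^ 20)) * (((OM D).filter fun ω => QQ D ω ∧ NL D ω).card : ℝ) := by
  have hOMp : ∀ ω ∈ OM D, PrP D.G ω := by
    intro ω hω
    unfold OM at hω
    exact (Finset.mem_filter.1 hω).2.1
  have hp : ∀ ω ∈ (OM D).filter fun ω => QQ D ω, PrP D.G ω := fun ω hω => hOMp ω (Finset.mem_filter.1 hω).1
  have hc : ∀ ω ∈ (OM D).filter fun ω => QQ D ω, cl D.G D.ev ω ⊆ (OM D).filter fun ω => QQ D ω := by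
    intro ω hω ω' hω'
    obtain ⟨h1, h2⟩ := Finset.mem_filter.1 hω
    have hso : so D.ev ω' ω := by
      unfold cl at hω'
      exact (Finset.mem_filter.1 hω').2.2
    exact Finset.mem_filter.2 ⟨OM_cl D h1 hω', (QQ_so D hso).2 h2⟩
  have hmain := card_cl_le D.G D.ev ((OM D).filter fun ω => QQ D ω) hp hc (fun ω => NL D ω)
    (Real.exp (2 * (jN D / 10 ^ 20))) (by
      intro ω hω
      obtain ⟨h1, h2⟩ := Finset.mem_filter.1 hω
      have h3 := NL_ge D (hOMp ω h1)
      have h4 : Wcl D ω ≤ jN D / 10 ^ 20 := h2.1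
      have h5 : Real.exp (-(2 * (jN D / 10 ^ 20))) ≤ Real.exp (-(2 * Wcl D ω)) := by
        rw [Real.exp_le_exp]
        linarith
      have h6 : Real.exp (-(2 * (jN D / 10 ^ 20))) * ((cl D.G D.ev ω).card : ℝ) ≤
          (((cl D.G D.ev ω).filter fun ω => NL D ω).card : ℝ) :=
        (mul_le_mul_of_nonneg_right h5 (Nat.cast_nonneg _)).trans h3
      calc ((cl D.G D.ev ω).card : ℝ) = Real.exp (2 * (jN D / 10 ^ 20)) *
            (Real.exp (-(2 * (jN D / 10 ^ 20))) * ((cl D.G D.ev ω).card : ℝ)) := by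
            rw [← mul_assoc, ← Real.exp_add, add_neg_cancel, Real.exp_zero, one_mul]
        _ ≤ _ := mul_le_mul_of_nonneg_left h6 (Real.exp_pos _).le)
  rw [Finset.filter_filter] at hmain
  calc ((OM D).card : ℝ) ≤ _ := QQ_half D
    _ ≤ 2 * (Real.exp (2 * (jN D / 10 ^ 20)) * (((OM D).filter fun ω => QQ D ω ∧ NL D ω).card : ℝ)) :=
        mul_le_mul_of_nonneg_left hmain (by norm_num)
    _ = _ := by ring

end

end Pool.Agent.LC3

end

/-! ### from `Lib_MP_2c424f_lc3.T25` -/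

section

/-!
# Part III, T25: BALANCE on a graph

`|OM| = cG (TTo A) cG (TTo B)` (`cP_mul`).  `QQ_NL`.  The pairs of `OM` with `QQ`, `NL` are in `src D X Y` for `X = X0`, `Y = X00` (odd vertices), `|X| ≤ 6 N / d^5` (`X0_card`, `≤ N/100`), `|Y| ≤ jN / 10^20`; so their number is at most
`∑_X ∑_Y #src ≤ ∑_X ∑_Y #tgt` (`swap_count`) `≤ ∑_X ∑_Y e^{-jN/3} (2 j^2/q^2)^{|Y|} e^{8 a (|X| + |Y|)} Z^2` (`tgt_le`, `Y_factor`, `cP_dl`, `|X ∪ Y| ≤ |X| + |Y|`) `≤ e^{-jN/3 + N/d^3 + jN/10^10} Z^2` (`sum_X`, `sum_Y`).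
`jN ≥ N / q^2 ≥ 250000 N / d^2` (`j ≥ 1`, `500 q ≤ d`), so `N/d^3 ≤ jN / 10^10`, and `2 ≤ exp(jN / 100)` as `N ≥ d^3`.
-/

set_option autoImplicit false

open Finset Filter

namespace Pool.Agent.LC3

open Pool.Agent.LO Pool.Agent.LIN Pool.Agent.THR Pool.Agent.COR Pool.Agent.LC

section
variable {V : Type} [Fintype V] [DecidableEq V] {d q j : ℕ}

private theorem T25_jN_nonneg (D : Bal V d q j) : 0 ≤ jN D := by
  unfold jN
  positivity

open scoped Classical in
private theorem T25_src (D : Bal V d q j) (X Y : Finset V)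
    (hX : (X.card : ℝ) ≤ 6 * (Fintype.card V : ℝ) / (d : ℝ) ^ 5) :
    ((univ.filter fun ω : V → Fin q × Fin q => src D X Y ω).card : ℝ) ≤
      Real.exp (-(jN D / 3)) * (cG D.G fun _ : V → Fin q => True) ^ 2 *
        (Real.exp (8 * ra d q * X.card) *
          ((2 * (j : ℝ) ^ 2 / (q : ℝ) ^ 2) ^ Y.card * Real.exp (8 * ra d q * Y.card))) := by
  have hd : (10 : ℝ) ^ 10 ≤ d := by exact_mod_cast D.dl
  have hd0 : (0 : ℝ) < d := lt_of_lt_of_le (by norm_num) hd
  have hN0 : (0 : ℝ) ≤ Fintype.card V := Nat.cast_nonneg _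
  have ha := num_a D.rg (le_trans (by norm_num) D.dl)
  by_cases hY : ∀ y ∈ Y, ¬ D.ev y
  · have hX' : (X.card : ℝ) ≤ (Fintype.card V : ℝ) / 100 := by
      refine hX.trans ?_
      rw [div_le_div_iff₀ (by positivity) (by norm_num)]
      have h5 : (600 : ℝ) ≤ (d : ℝ) ^ 5 := by
        calc (600 : ℝ) ≤ (10 ^ 10) ^ 5 := by norm_num
          _ ≤ (d : ℝ) ^ 5 := pow_le_pow_left₀ (by norm_num) hd 5
      nlinarith
    have h1 : ((univ.filter fun ω : V → Fin q × Fin q => src D X Y ω).card : ℝ) ≤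
        ((univ.filter fun ω : V → Fin q × Fin q => tgt D X Y ω).card : ℝ) := by
      exact_mod_cast swap_count D X Y
    have h2 := tgt_le D X Y hX' hY
    have h3 := Y_factor D X Y
    have h4 := cP_dl D (X ∪ Y)
    have h5 : Real.exp (8 * ra d q * ((X ∪ Y).card : ℝ)) ≤
        Real.exp (8 * ra d q * X.card) * Real.exp (8 * ra d q * Y.card) := by
      rw [← Real.exp_add, Real.exp_le_exp]
      have h6 : (((X ∪ Y).card : ℕ) : ℝ) ≤ (X.card : ℝ) + Y.card := by exact_mod_cast card_union_le X Y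
      have h7 : (0 : ℝ) ≤ 8 * ra d q := by linarith [ha.1]
      nlinarith
    have hZ : 0 ≤ (cG D.G fun _ : V → Fin q => True) ^ 2 := sq_nonneg _
    have hr : 0 ≤ (2 * (j : ℝ) ^ 2 / (q : ℝ) ^ 2) ^ Y.card := by positivity
    calc _ ≤ _ := h1
      _ ≤ _ := h2
      _ ≤ Real.exp (-(jN D / 3)) * ((2 * (j : ℝ) ^ 2 / (q : ℝ) ^ 2) ^ Y.card *
          (Real.exp (8 * ra d q * X.card) * Real.exp (8 * ra d q * Y.card) *
            (cG D.G fun _ : V → Fin q => True) ^ 2)) := by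
          refine mul_le_mul_of_nonneg_left (h3.trans (mul_le_mul_of_nonneg_left (h4.trans ?_) hr)) (Real.exp_pos _).le
          exact mul_le_mul_of_nonneg_right h5 hZ
      _ = _ := by ring
  · have h0 : (univ.filter fun ω : V → Fin q × Fin q => src D X Y ω) = ∅ := by
      rw [Finset.filter_eq_empty_iff]
      intro ω _ h
      apply hY
      intro y hy
      rw [← h.2.2.1] at hy
      unfold X00 at hy
      exact (Finset.mem_filter.1 hy).2.1
    rw [h0, Finset.card_empty, Nat.cast_zero]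
    positivity

theorem balance (D : Bal V d q j) (hN : (d : ℝ) ^ 3 ≤ Fintype.card V) :
    cG D.G (fun F : V → Fin q => TTo d D.G D.ev D.A F) * cG D.G (fun F : V → Fin q => TTo d D.G D.ev D.B F) ≤
      (cG D.G fun _ : V → Fin q => True) ^ 2 * Real.exp (-(jN D / 4)) := by
  classical
  have hd1 : 1 ≤ d := le_trans (by norm_num) D.dl
  have hd : (10 : ℝ) ^ 10 ≤ d := by exact_mod_cast D.dl
  have hd0 : (0 : ℝ) < d := lt_of_lt_of_le (by norm_num) hd
  have hq := num_q D.rg hd1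
  have hq0 : (0 : ℝ) < q := by exact_mod_cast hq.1
  have hq5 : (500 : ℝ) * q ≤ d := by exact_mod_cast hq.2.1
  have hj1 : (1 : ℝ) ≤ j := by exact_mod_cast D.j1
  set N : ℝ := (Fintype.card V : ℝ) with hNdef
  have hN0 : 0 ≤ N := Nat.cast_nonneg _
  set Z : ℝ := cG D.G fun _ : V → Fin q => True with hZdef
  have hZ2 : 0 ≤ Z ^ 2 := sq_nonneg _
  -- size of jN
  have hjN : 250000 * N / (d : ℝ) ^ 2 ≤ jN D := by
    have h1 : N / (q : ℝ) ^ 2 ≤ jN D := by
      unfold jN
      rw [div_pow, ← hNdef]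
      rw [div_mul_eq_mul_div]
      refine div_le_div_of_nonneg_right ?_ (by positivity)
      have : (1 : ℝ) ≤ (j : ℝ) ^ 2 := one_le_pow₀ hj1
      nlinarith
    refine le_trans ?_ h1
    rw [div_le_div_iff₀ (by positivity) (by positivity)]
    have h2 : (500 * (q : ℝ)) ^ 2 ≤ (d : ℝ) ^ 2 := pow_le_pow_left₀ (by positivity) hq5 2
    nlinarith
  have hjN1 : 250000 * (d : ℝ) ≤ jN D := by
    refine le_trans ?_ hjN
    rw [le_div_iff₀ (by positivity)]
    nlinarith
  have hjN2 : N / (d : ℝ) ^ 3 ≤ jN D / 10 ^ 10 := by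
    have h1 : N / (d : ℝ) ^ 3 = (250000 * N / (d : ℝ) ^ 2) / (250000 * d) := by
      field_simp
    rw [h1]
    have h2 : (0 : ℝ) ≤ 250000 * N / (d : ℝ) ^ 2 := by positivity
    calc (250000 * N / (d : ℝ) ^ 2) / (250000 * d) ≤ (250000 * N / (d : ℝ) ^ 2) / 10 ^ 10 := by
          refine div_le_div_of_nonneg_left h2 (by norm_num) ?_
          nlinarith
      _ ≤ jN D / 10 ^ 10 := div_le_div_of_nonneg_right hjN (by norm_num)
  have hjN0 : 0 ≤ jN D := T25_jN_nonneg D
  have htwo : (2 : ℝ) ≤ Real.exp (jN D / 100) := by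
    have h1 := Real.add_one_le_exp (jN D / 100)
    have h2 : (1 : ℝ) ≤ jN D / 100 := by
      rw [le_div_iff₀ (by norm_num)]
      nlinarith
    linarith
  -- the number of pairs
  have hOM : cG D.G (fun F : V → Fin q => TTo d D.G D.ev D.A F) * cG D.G (fun F : V → Fin q => TTo d D.G D.ev D.B F) =
      ((OM D).card : ℝ) := by
    rw [← cP_mul]
    unfold cP
    exact congrArg (fun S : Finset (V → Fin q × Fin q) => (S.card : ℝ)) (by
      ext ω
      simp only [OM, Finset.mem_filter])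
  rw [hOM]
  set SX : Finset (Finset V) := univ.filter (fun X : Finset V => (X.card : ℝ) ≤ 6 * (Fintype.card V : ℝ) / (d : ℝ) ^ 5)
  set SY : Finset (Finset V) := univ.filter (fun Y : Finset V => (Y.card : ℝ) ≤ jN D / 10 ^ 20)
  have hsub : (OM D).filter (fun ω => QQ D ω ∧ NL D ω) ⊆
      SX.biUnion fun X => SY.biUnion fun Y => univ.filter fun ω : V → Fin q × Fin q => src D X Y ω := by
    intro ω hω
    obtain ⟨h1, h2, h3⟩ := Finset.mem_filter.1 hω
    rw [Finset.mem_biUnion]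
    refine ⟨X0 D ω, Finset.mem_filter.2 ⟨Finset.mem_univ _, X0_card D h1⟩, ?_⟩
    rw [Finset.mem_biUnion]
    refine ⟨X00 D ω, Finset.mem_filter.2 ⟨Finset.mem_univ _, h2.2.1⟩, ?_⟩
    refine Finset.mem_filter.2 ⟨Finset.mem_univ _, ?_⟩
    have h4 : PrP D.G ω := by
      unfold OM at h1
      exact (Finset.mem_filter.1 h1).2.1
    exact ⟨h4, rfl, rfl, h3, h2.2.2.1, h2.2.2.2⟩
  have hcount : (((OM D).filter fun ω => QQ D ω ∧ NL D ω).card : ℝ) ≤
      ∑ X ∈ SX, ∑ Y ∈ SY, ((univ.filter fun ω : V → Fin q × Fin q => src D X Y ω).card : ℝ) := by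
    have h1 : ((OM D).filter fun ω => QQ D ω ∧ NL D ω).card ≤
        ∑ X ∈ SX, ∑ Y ∈ SY, (univ.filter fun ω : V → Fin q × Fin q => src D X Y ω).card := by
      refine (Finset.card_le_card hsub).trans (Finset.card_biUnion_le.trans (Finset.sum_le_sum fun X _ => ?_))
      exact Finset.card_biUnion_le
    exact_mod_cast h1
  have hsum : ∑ X ∈ SX, ∑ Y ∈ SY, ((univ.filter fun ω : V → Fin q × Fin q => src D X Y ω).card : ℝ) ≤
      Real.exp (-(jN D / 3)) * Z ^ 2 * (Real.exp (N / (d : ℝ) ^ 3) * Real.exp (jN D / 10 ^ 10)) := by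
    calc _ ≤ ∑ X ∈ SX, ∑ Y ∈ SY, Real.exp (-(jN D / 3)) * Z ^ 2 *
          (Real.exp (8 * ra d q * X.card) *
            ((2 * (j : ℝ) ^ 2 / (q : ℝ) ^ 2) ^ Y.card * Real.exp (8 * ra d q * Y.card))) := by
          refine Finset.sum_le_sum fun X hX => Finset.sum_le_sum fun Y _ => ?_
          exact T25_src D X Y (Finset.mem_filter.1 hX).2
      _ = Real.exp (-(jN D / 3)) * Z ^ 2 * ((∑ X ∈ SX, Real.exp (8 * ra d q * X.card)) *
            ∑ Y ∈ SY, (2 * (j : ℝ) ^ 2 / (q : ℝ) ^ 2) ^ Y.card * Real.exp (8 * ra d q * Y.card)) := by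
          rw [Finset.sum_mul_sum, Finset.mul_sum]
          refine Finset.sum_congr rfl fun X _ => ?_
          rw [Finset.mul_sum]
      _ ≤ _ := by
          refine mul_le_mul_of_nonneg_left (mul_le_mul (sum_X D) (sum_Y D) ?_ (Real.exp_pos _).le)
            (mul_nonneg (Real.exp_pos _).le hZ2)
          exact Finset.sum_nonneg fun Y _ => by positivity
  have hQ := QQ_NL D
  calc ((OM D).card : ℝ) ≤ _ := hQ
    _ ≤ 2 * Real.exp (2 * (jN D / 10 ^ 20)) *
        (Real.exp (-(jN D / 3)) * Z ^ 2 * (Real.exp (N / (d : ℝ) ^ 3) * Real.exp (jN D / 10 ^ 10))) :=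
        mul_le_mul_of_nonneg_left (hcount.trans hsum) (by positivity)
    _ ≤ Real.exp (jN D / 100) * Real.exp (2 * (jN D / 10 ^ 20)) *
        (Real.exp (-(jN D / 3)) * Z ^ 2 * (Real.exp (N / (d : ℝ) ^ 3) * Real.exp (jN D / 10 ^ 10))) := by
        refine mul_le_mul_of_nonneg_right (mul_le_mul_of_nonneg_right htwo (Real.exp_pos _).le) (by positivity)
    _ = Z ^ 2 * Real.exp (jN D / 100 + 2 * (jN D / 10 ^ 20) + (-(jN D / 3)) + N / (d : ℝ) ^ 3 + jN D / 10 ^ 10) := by
        rw [Real.exp_add, Real.exp_add, Real.exp_add, Real.exp_add]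
        ring
    _ ≤ Z ^ 2 * Real.exp (-(jN D / 4)) := by
        refine mul_le_mul_of_nonneg_left (Real.exp_le_exp.2 ?_) hZ2
        linarith

end

end Pool.Agent.LC3

end

/-! ### from `Lib_MP_2c424f_lc3.T28` -/

section

/-!
# Part III, T28: BALANCE on the torus, one set `A`

WLOG (`TT_symm`, `tG_shift`) `|A| > q/2`; choose `B ⊆ A` with `|B| = q - |A|`, `|A \ B| = 2 |A| - q = 2 j` (`q` even), split it in two halves.  `Bal` with `G = tG d k`, `ev = evn` (`T26`).  `T = {f proper : #{¬ Ty A} ≤ N/d^6}`: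
`|T_A| = |T_B|` (`TT_symm`), `T_A ⊆ TTo A`, `T_B ⊆ TTo B` (a vertex counted in `TTo` is not typical); `balance`: `|T_A|^2 ≤ Z^2 exp(-jN/4)`, `jN ≥ N/q^2`, square root.
For `|A| < q/2` apply this to a set of size `q - |A|` and `TT_symm`.  (`50 j ≤ q` from the hypothesis on `|A|`.)  `N = 2^{k d} ≥ d^3` is a hypothesis.
-/

set_option autoImplicit false

open Finset Filter

namespace Pool.Agent.LC3

open Pool.Agent.LO Pool.Agent.LIN Pool.Agent.THR Pool.Agent.COR Pool.Agent.LC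

open scoped Classical in
private theorem T28_big {d k q : ℕ} (hR : Rg d q) (hd : 10 ^ 10 ≤ d) (hk : 2 ≤ k) (hN : (d : ℝ) ^ 3 ≤ NN d k)
    (A : Finset (Fin q)) (hA : q / 2 < A.card) (hA' : 50 * (A.card - q / 2) ≤ q) :
    cG (tG d k) (fun F : Site d k → Fin q => ((univ.filter fun v => ¬ Ty d (tG d k) evn A F v).card : ℝ) ≤
      NN d k / (d : ℝ) ^ 6) ≤
      (cG (tG d k) fun _ : Site d k → Fin q => True) * Real.exp (-(NN d k / (8 * (q : ℝ) ^ 2))) := by
  have hd1 : 1 ≤ d := le_trans (by norm_num) hd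
  have hq := num_q hR hd1
  have hq0 : (0 : ℝ) < q := by exact_mod_cast hq.1
  have hev : Even q := hR.1
  have hq2 : 2 * (q / 2) = q := Nat.two_mul_div_two_of_even hev
  have hAq : A.card ≤ q := by
    have := Finset.card_le_univ A
    rwa [Fintype.card_fin] at this
  set j : ℕ := A.card - q / 2 with hj
  have hAj : A.card = q / 2 + j := by omega
  -- the set B
  obtain ⟨B, hBA, hBc⟩ := Finset.exists_subset_card_eq (s := A) (n := q - A.card) (by omega)
  have hJc : (A \ B).card = 2 * j := by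
    rw [Finset.card_sdiff_of_subset hBA, hBc]
    omega
  obtain ⟨J1, hJ1, hJ1c⟩ := Finset.exists_subset_card_eq (s := A \ B) (n := j) (by omega)
  let D : Bal (Site d k) d q j :=
    { G := tG d k
      ev := evn
      A := A
      B := B
      J1 := J1
      J2 := (A \ B) \ J1
      rg := hR
      dl := hd
      par := tG_par hk
      deg := tG_deg hk
      half := tG_half hd1 hk
      sub := hBA
      un := (Finset.union_sdiff_of_subset hJ1).symm
      dis := Finset.disjoint_sdiff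
      c1 := hJ1c
      c2 := by
        rw [Finset.card_sdiff_of_subset hJ1, hJ1c, hJc]
        omega
      AB := by omega
      j1 := by omega
      jq := hA' }
  obtain ⟨s, hs, hse⟩ := tG_shift (d := d) (k := k) hd1 hk
  set r : ℝ := NN d k / (d : ℝ) ^ 6 with hr
  set Z : ℝ := cG (tG d k) fun _ : Site d k → Fin q => True with hZ
  have hZ0 : 0 ≤ Z := Nat.cast_nonneg _
  set tA : ℝ := cG (tG d k) (fun F : Site d k → Fin q =>
    ((univ.filter fun v => ¬ Ty d (tG d k) evn A F v).card : ℝ) ≤ r) with htA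
  set tB : ℝ := cG (tG d k) (fun F : Site d k → Fin q =>
    ((univ.filter fun v => ¬ Ty d (tG d k) evn B F v).card : ℝ) ≤ r) with htB
  have hsym : tA = tB := TT_symm (tG d k) evn s hs hse A B (by omega) r
  have hmono : ∀ A' : Finset (Fin q), cG (tG d k) (fun F : Site d k → Fin q =>
      ((univ.filter fun v => ¬ Ty d (tG d k) evn A' F v).card : ℝ) ≤ r) ≤
      cG (tG d k) (fun F : Site d k → Fin q => TTo d (tG d k) evn A' F) := by
    intro A'
    unfold cG
    refine Nat.cast_le.2 (Finset.card_le_card fun F hF => ?_)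
    simp only [Finset.mem_filter, Finset.mem_univ, true_and] at hF ⊢
    refine ⟨hF.1, ?_⟩
    unfold TTo
    rw [← NN_card]
    refine le_trans (Nat.cast_le.2 (Finset.card_le_card fun v hv => ?_)) hF.2
    simp only [Finset.mem_filter, Finset.mem_univ, true_and] at hv ⊢
    intro hT
    rcases hv with ⟨_, h⟩ | ⟨_, h⟩
    · exact h hT.2
    · exact h hT.1
  have hb := balance D (by rw [← NN_card]; exact hN)
  have htA0 : 0 ≤ tA := Nat.cast_nonneg _
  have hsq : tA ^ 2 ≤ (Z * Real.exp (-(NN d k / (8 * (q : ℝ) ^ 2)))) ^ 2 := by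
    calc tA ^ 2 = tA * tB := by rw [← hsym, sq]
      _ ≤ cG (tG d k) (fun F : Site d k → Fin q => TTo d (tG d k) evn A F) *
          cG (tG d k) (fun F : Site d k → Fin q => TTo d (tG d k) evn B F) :=
          mul_le_mul (hmono A) (hmono B) (Nat.cast_nonneg _) (Nat.cast_nonneg _)
      _ ≤ Z ^ 2 * Real.exp (-(jN D / 4)) := hb
      _ ≤ Z ^ 2 * Real.exp (-(NN d k / (4 * (q : ℝ) ^ 2))) := by
          refine mul_le_mul_of_nonneg_left (Real.exp_le_exp.2 (neg_le_neg ?_)) (sq_nonneg _)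
          unfold jN
          rw [← NN_card]
          have hj1 : (1 : ℝ) ≤ j := by exact_mod_cast D.j1
          have hN0 : 0 ≤ NN d k := by unfold NN; positivity
          have h1 : (1 / (q : ℝ)) ^ 2 ≤ ((j : ℝ) / q) ^ 2 := by
            refine pow_le_pow_left₀ (by positivity) ?_ 2
            exact div_le_div_of_nonneg_right hj1 hq0.le
          calc NN d k / (4 * (q : ℝ) ^ 2) = (1 / (q : ℝ)) ^ 2 * NN d k / 4 := by field_simp
            _ ≤ ((j : ℝ) / q) ^ 2 * NN d k / 4 := by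
              refine div_le_div_of_nonneg_right (mul_le_mul_of_nonneg_right h1 hN0) (by norm_num)
      _ = _ := by
          rw [mul_pow, ← Real.exp_nat_mul]
          have h8 : ((2 : ℕ) : ℝ) * -(NN d k / (8 * (q : ℝ) ^ 2)) = -(NN d k / (4 * (q : ℝ) ^ 2)) := by
            push_cast
            rw [show (8 : ℝ) * (q : ℝ) ^ 2 = 2 * (4 * (q : ℝ) ^ 2) by ring, div_mul_eq_div_div_swap]
            ring
          rw [h8]
  exact (abs_le_of_sq_le_sq' hsq (mul_nonneg hZ0 (Real.exp_pos _).le)).2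

open scoped Classical in
theorem unb_one {d k q : ℕ} (hR : Rg d q) (hd : 10 ^ 10 ≤ d) (hk : 2 ≤ k) (hN : (d : ℝ) ^ 3 ≤ NN d k)
    (A : Finset (Fin q)) (hA : A.card ≠ q / 2) (hA' : |(A.card : ℝ) - q / 2| ≤ q / 50) :
    (((prps d k q).filter fun f => ((univ.filter fun v => ¬ Ty d (tG d k) evn A f v).card : ℝ) ≤
      NN d k / (d : ℝ) ^ 6).card : ℝ) ≤ ZZ d k q * Real.exp (-(NN d k / (8 * (q : ℝ) ^ 2))) := by
  have hd1 : 1 ≤ d := le_trans (by norm_num) hd
  have hev : Even q := hR.1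
  have hq2 : 2 * (q / 2) = q := Nat.two_mul_div_two_of_even hev
  have hq2' : ((q / 2 : ℕ) : ℝ) = (q : ℝ) / 2 := by
    have : (2 : ℝ) * ((q / 2 : ℕ) : ℝ) = q := by exact_mod_cast hq2
    linarith
  have hAq : A.card ≤ q := by
    have := Finset.card_le_univ A
    rwa [Fintype.card_fin] at this
  have hZ : ZZ d k q = cG (tG d k) fun _ : Site d k → Fin q => True := by
    rw [cG_prps hk, Finset.filter_true]
    rfl
  rw [← cG_prps hk, hZ]
  rcases lt_or_gt_of_ne hA with hlt | hgt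
  · -- pass to a set with `q - |A|` elements
    obtain ⟨B, hBA, hBc⟩ := Finset.exists_subset_card_eq (s := (univ : Finset (Fin q))) (n := q - A.card)
      (by rw [Finset.card_univ, Fintype.card_fin]; omega)
    obtain ⟨s, hs, hse⟩ := tG_shift (d := d) (k := k) hd1 hk
    rw [TT_symm (tG d k) evn s hs hse A B (by omega) (NN d k / (d : ℝ) ^ 6)]
    refine T28_big hR hd hk hN B (by omega) ?_
    have h1 : (50 : ℝ) * ((q / 2 : ℕ) - A.card) ≤ q := by
      rw [hq2']
      have := (abs_le.1 hA').1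
      linarith
    have h2 : (50 : ℤ) * ((q / 2 : ℕ) - A.card) ≤ q := by exact_mod_cast h1
    omega
  · refine T28_big hR hd hk hN A hgt ?_
    have h1 : (50 : ℝ) * (A.card - (q / 2 : ℕ)) ≤ q := by
      rw [hq2']
      have := (abs_le.1 hA').2
      linarith
    have h2 : (50 : ℤ) * (A.card - (q / 2 : ℕ)) ≤ q := by exact_mod_cast h1
    omega

end Pool.Agent.LC3

end

/-! ### from `Lib_MP_2c424f_lc6.C04` -/

section

/-!
# LC6 C04: symmetry of the slab matrices

* `TY_symm`: `dif` and the rest are symmetric.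
* `Qs_symm`: reflection of the direction `j`: `l3 a b c (!x) (!y) = l3 c b a x y`; the pattern of `c, b, a` is `rP r` of the pattern of `a, b, c`,
  `r` = the bit `j` (`Ypt` does not depend on the bits `j`); `BDP_rP`.
* `Ps_none`: with `Γ = fun _ => none` no event: `T^2`.
* `Ps_update`: the slab event `ℓ'` of `fun t => Γ (update t j ℓ)` is the slab event `ℓ` of `Γ` (replace `t` by `update t j _`: `Ypt` and the
  conditions on `t i`, `i ≠ j`, do not change).
-/

set_option autoImplicit false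

open Finset Matrix

namespace Pool.Agent.LC

open Pool.Agent.LO Pool.Agent.LIN Pool.Agent.THR Pool.Agent.COR

variable {d q : ℕ}

private theorem C04_dif {Y : Type} (σ σ' : Y → Fin q × Fin q) : dif σ σ' ↔ dif σ' σ := by
  unfold dif
  constructor
  · intro h y
    exact ⟨(h y).1.symm, (h y).2.symm⟩
  · intro h y
    exact ⟨(h y).1.symm, (h y).2.symm⟩

private theorem C04_TY {Y : Type} (q : ℕ) (H : SimpleGraph Y) (g : Y → Prop) (a b : Y → Fin q × Fin q) :
    TY q H g a b = TY q H g b a := by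
  unfold TY
  simp only [Matrix.of_apply]
  have h : (vld H g a ∧ vld H g b ∧ dif a b) ↔ (vld H g b ∧ vld H g a ∧ dif b a) := by
    constructor
    · rintro ⟨h1, h2, h3⟩
      exact ⟨h2, h1, (C04_dif a b).1 h3⟩
    · rintro ⟨h1, h2, h3⟩
      exact ⟨h2, h1, (C04_dif a b).2 h3⟩
  by_cases hh : vld H g a ∧ vld H g b ∧ dif a b
  · rw [if_pos hh, if_pos (h.1 hh)]
  · rw [if_neg hh, if_neg fun h' => hh (h.2 h')]

theorem TY_symm {Y : Type} (q : ℕ) (H : SimpleGraph Y) (g : Y → Prop) : (TY q H g)ᵀ = TY q H g := by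
  ext a b
  rw [Matrix.transpose_apply]
  exact C04_TY q H g b a

theorem TY_nonneg {Y : Type} (q : ℕ) (H : SimpleGraph Y) (g : Y → Prop) (a b : Y → Fin q × Fin q) : 0 ≤ TY q H g a b := by
  unfold TY
  simp only [Matrix.of_apply]
  split_ifs
  · exact zero_le_one
  · exact le_refl _

private theorem C04_l3 {A : Type} (a b c : A) (x y : Bool) : l3 a b c (!x) (!y) = l3 c b a x y := by
  cases x <;> cases y <;> rfl

private theorem C04_Q (j : Fin d) (p : {i // i ≠ j} → Bool) (L : Fin d → ℕ) (s : ℕ)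
    (Γ : (Fin d → ℕ) → Option (Option (Fin q))) (ℓ : ℕ) (a b c : YV j p L s → Fin q × Fin q)
    (h : Qs j p L s Γ ℓ a b c) : Qs j p L s Γ ℓ c b a := by
  intro t ht hi τ hτ
  have h1 := h t ht hi τ hτ
  have h2 : (fun α β : Bt d => (l3 c b a (α j) (β j) (Ypt j p L s t α β)).1) =
      rP (fun i => decide (i = j)) fun α β : Bt d => (l3 a b c (α j) (β j) (Ypt j p L s t α β)).1 := by
    funext α β
    have e1 : ∀ γ : Bt d, xr (fun i => decide (i = j)) γ j = !(γ j) := by
      intro γ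
      simp [xr]
    have e2 : ∀ (γ : Bt d) (i : {i // i ≠ j}), xr (fun i => decide (i = j)) γ i = γ i := by
      intro γ i
      simp [xr, i.2]
    have e3 : Ypt j p L s t (xr (fun i => decide (i = j)) α) (xr (fun i => decide (i = j)) β) = Ypt j p L s t α β := by
      funext i
      unfold Ypt
      rw [e2, e2]
    unfold rP
    beta_reduce
    rw [e1, e1, e3, C04_l3]
  rw [h2, BDP_rP]
  exact h1

theorem Ps_symm (j : Fin d) (p : {i // i ≠ j} → Bool) (L : Fin d → ℕ) (s : ℕ)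
    (Γ : (Fin d → ℕ) → Option (Option (Fin q))) (ℓ : ℕ) : (Ps j p L s Γ ℓ)ᵀ = Ps j p L s Γ ℓ := by
  classical
  ext a c
  rw [Matrix.transpose_apply]
  unfold Ps
  simp only [Matrix.of_apply]
  refine Finset.sum_congr rfl fun b _ => ?_
  rw [C04_TY q (YG j p L s) (Ygl j p L s) c b, C04_TY q (YG j p L s) (Ygl j p L s) b a, mul_comm (TY q (YG j p L s) (Ygl j p L s) b c)]
  by_cases h : Qs j p L s Γ ℓ a b c
  · rw [if_pos h, if_pos (C04_Q j p L s Γ ℓ a b c h)]
  · rw [if_neg h, if_neg fun h' => h (C04_Q j p L s Γ ℓ c b a h')]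

theorem Ps_none (j : Fin d) (p : {i // i ≠ j} → Bool) (L : Fin d → ℕ) (s ℓ : ℕ) :
    Ps (q := q) j p L s (fun _ => none) ℓ = TY q (YG j p L s) (Ygl j p L s) ^ 2 := by
  classical
  ext a c
  rw [pow_two, Matrix.mul_apply]
  unfold Ps
  simp only [Matrix.of_apply]
  refine Finset.sum_congr rfl fun b _ => ?_
  have h : Qs j p L s (fun _ => none) ℓ a b c := by
    intro t _ _ τ hτ
    exact absurd hτ (by simp)
  rw [if_pos h, mul_one]

theorem Ps_update (j : Fin d) (p : {i // i ≠ j} → Bool) (L : Fin d → ℕ) (s : ℕ)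
    (Γ : (Fin d → ℕ) → Option (Option (Fin q))) (ℓ ℓ' : ℕ) :
    Ps j p L s (fun t => Γ (Function.update t j ℓ)) ℓ' = Ps j p L s Γ ℓ := by
  classical
  have hY : ∀ (t : Fin d → ℕ) (m : ℕ) (α β : Bt d), Ypt j p L s (Function.update t j m) α β = Ypt j p L s t α β := by
    intro t m α β
    funext i
    unfold Ypt
    rw [Function.update_of_ne i.2]
  have hQ : ∀ a b c, Qs j p L s (fun t => Γ (Function.update t j ℓ)) ℓ' a b c ↔ Qs j p L s Γ ℓ a b c := by
    intro a b c
    constructor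
    · intro h t ht hi τ hτ
      have h1 := h (Function.update t j ℓ') (by simp)
        (fun i => by rw [Function.update_of_ne i.2]; exact hi i) τ
        (by
          have : Function.update (Function.update t j ℓ') j ℓ = t := by
            rw [Function.update_idem, ← ht, Function.update_eq_self]
          simp only [this]
          exact hτ)
      simp only [hY] at h1
      exact h1
    · intro h t ht hi τ hτ
      have h1 := h (Function.update t j ℓ) (by simp)
        (fun i => by rw [Function.update_of_ne i.2]; exact hi i) τ hτ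
      simp only [hY] at h1
      exact h1
  ext a c
  unfold Ps
  simp only [Matrix.of_apply]
  refine Finset.sum_congr rfl fun b _ => ?_
  by_cases h : Qs j p L s Γ ℓ a b c
  · rw [if_pos h, if_pos ((hQ a b c).2 h)]
  · rw [if_neg h, if_neg fun h' => h ((hQ a b c).1 h')]

end Pool.Agent.LC

end

/-! ### from `Lib_MP_2c424f_lc2.B04` -/

section

/-!
# LC2 B04: tiling the big torus by translates of a small torus

Small torus: `WV (fun _ => true) L s` with `L i = 2^(r i)`: `Fin (2 L i - 1 + 1)` in direction `i`.  `M = ∏ 2^(k - r i)` tiles.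
Boundary `{x : ∃ i, x i = 0}`, at most `∑_i N / (2 L i)` points (`N` = number of points).  For a function `ξ` on the boundary and a family
`(F_T)` of proper colourings of the small torus, all equal to `ξ` on the boundary, with all blocks `BDP τ`, the function
`f (2 L T + u) = F_T u` is proper on the big torus with all blocks `BDP τ` (a neighbour or a point of a block in the next tile is in
the boundary, where `F_T` and the colouring of the next tile agree; `Wpt` is taken modulo `2 L i`).  Then the power mean inequality as in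
`A06`.
-/

set_option autoImplicit false

open Finset

namespace Pool.Agent.LC

open Pool.Agent.LO Pool.Agent.LIN Pool.Agent.THR Pool.Agent.COR

section B04

variable {d k q s : ℕ} {r : Fin d → ℕ}

private theorem B04_n (ρ s : ℕ) : lm true (2 ^ ρ) s + 1 = 2 ^ (ρ + 1) := by
  have h : 1 ≤ 2 ^ ρ := Nat.one_le_two_pow
  unfold lm
  rw [if_pos rfl, pow_succ]
  omega

private abbrev B04W (r : Fin d → ℕ) (s : ℕ) : Type := WV (fun _ : Fin d => true) (fun i => 2 ^ r i) s

private abbrev B04T (k : ℕ) (r : Fin d → ℕ) : Type := ∀ i : Fin d, Fin (2 ^ (k - r i))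

/-- the point of the small torus -/
private def B04red (r : Fin d → ℕ) (s : ℕ) (m : Fin d → ℕ) : B04W r s := fun i => Fin.ofNat _ (m i)

/-- the tile -/
private def B04tile (k : ℕ) (r : Fin d → ℕ) (m : Fin d → ℕ) : B04T k r := fun i =>
  ⟨m i / 2 ^ (r i + 1) % 2 ^ (k - r i), Nat.mod_lt _ (by positivity)⟩

private theorem B04red_val (m : Fin d → ℕ) (i : Fin d) :
    (B04red r s m i).val = m i % 2 ^ (r i + 1) := by
  rw [← B04_n (r i) s]
  rfl

/-- the colouring of the big torus -/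
private def B04big (F : B04T k r → B04W r s → Fin q) (x : Site d (k + 1)) : Fin q :=
  F (B04tile k r fun i => (x i).val) (B04red r s fun i => (x i).val)

private theorem B04_cast (hr : ∀ i, r i ≤ k) (F : B04T k r → B04W r s → Fin q) (m : Fin d → ℕ) :
    B04big F (fun i => ((m i : ℕ) : ZMod (2 ^ (k + 1)))) = F (B04tile k r m) (B04red r s m) := by
  have hp : ∀ i, 2 ^ (k + 1) = 2 ^ (r i + 1) * 2 ^ (k - r i) := by
    intro i
    rw [← pow_add]
    congr 1
    have := hr i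
    omega
  have h1 : (B04tile k r fun i => (((m i : ℕ) : ZMod (2 ^ (k + 1)))).val) = B04tile k r m := by
    funext i
    refine Fin.ext ?_
    change (((m i : ℕ) : ZMod (2 ^ (k + 1)))).val / 2 ^ (r i + 1) % 2 ^ (k - r i) =
      m i / 2 ^ (r i + 1) % 2 ^ (k - r i)
    rw [ZMod.val_natCast, hp i, Nat.mod_mul_right_div_self, Nat.mod_mod]
  have h2 : (B04red r s fun i => (((m i : ℕ) : ZMod (2 ^ (k + 1)))).val) = B04red r s m := by
    funext i
    refine Fin.ext ?_
    rw [B04red_val, B04red_val, ZMod.val_natCast]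
    exact Nat.mod_mod_of_dvd _ (Dvd.intro _ (hp i).symm)
  unfold B04big
  rw [h1, h2]

private theorem B04_bd {F : B04T k r → B04W r s → Fin q}
    (hF : ∀ T T' v, (∃ i, (v i).val = 0) → F T v = F T' v) (m : Fin d → ℕ) (T : B04T k r)
    (h : (∀ i, m i / 2 ^ (r i + 1) % 2 ^ (k - r i) = (T i).val) ∨ ∃ i, m i % 2 ^ (r i + 1) = 0) :
    F (B04tile k r m) (B04red r s m) = F T (B04red r s m) := by
  rcases h with h | ⟨i, hi⟩
  · have h1 : B04tile k r m = T := by
      funext i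
      exact Fin.ext (h i)
    rw [h1]
  · refine hF _ _ _ ⟨i, ?_⟩
    rw [B04red_val]
    exact hi

private theorem B04_adj (m : Fin d → ℕ) (j : Fin d) :
    (WG (fun _ : Fin d => true) (fun i => 2 ^ r i) s).Adj (B04red r s m)
      (B04red r s (Function.update m j (m j + 1))) := by
  refine ⟨j, fun i hi => ?_, ?_⟩
  · refine Fin.ext ?_
    rw [B04red_val, B04red_val, Function.update_of_ne hi]
  · have h1 := B04red_val (s := s) (r := r) m j
    have h2 := B04red_val (s := s) (r := r) (Function.update m j (m j + 1)) j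
    rw [Function.update_self] at h2
    have hn := B04_n (r j) s
    have hpos : 2 ≤ 2 ^ (r j + 1) := by
      rw [pow_succ]
      have := Nat.one_le_two_pow (n := r j)
      omega
    have hlt : m j % 2 ^ (r j + 1) < 2 ^ (r j + 1) := Nat.mod_lt _ (by omega)
    have h3 : (m j + 1) % 2 ^ (r j + 1) = (m j % 2 ^ (r j + 1) + 1) % 2 ^ (r j + 1) := by
      rw [Nat.add_mod, Nat.mod_eq_of_lt (show 1 < 2 ^ (r j + 1) by omega)]
    rcases Nat.lt_or_ge (m j % 2 ^ (r j + 1) + 1) (2 ^ (r j + 1)) with h4 | h4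
    · rw [h3, Nat.mod_eq_of_lt h4] at h2
      refine ⟨fun he => ?_, Or.inl ?_⟩
      · have h5 := congrArg Fin.val he
        rw [h1, h2] at h5
        omega
      · rw [h1, h2]
    · have h5 : m j % 2 ^ (r j + 1) + 1 = 2 ^ (r j + 1) := by omega
      rw [h3, h5, Nat.mod_self] at h2
      refine ⟨fun he => ?_, Or.inr (Or.inr ⟨rfl, Or.inr ⟨h2, ?_⟩⟩)⟩
      · have h6 := congrArg Fin.val he
        rw [h1, h2] at h6
        omega
      · rw [h1]
        exact h5.trans hn.symm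

private theorem B04_step (hr : ∀ i, r i ≤ k) {F : B04T k r → B04W r s → Fin q}
    (hF : ∀ T T' v, (∃ i, (v i).val = 0) → F T v = F T' v)
    (hP : ∀ T, PrG (WG (fun _ : Fin d => true) (fun i => 2 ^ r i) s) (F T))
    (x : Site d (k + 1)) (j : Fin d) : B04big F (x + Pi.single j 1) ≠ B04big F x := by
  set m : Fin d → ℕ := fun i => (x i).val with hm
  have hx : x = fun i => ((m i : ℕ) : ZMod (2 ^ (k + 1))) := by
    funext i
    exact (ZMod.natCast_zmod_val (x i)).symm
  have hx' : x + Pi.single j 1 =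
      fun i => ((Function.update m j (m j + 1) i : ℕ) : ZMod (2 ^ (k + 1))) := by
    funext i
    by_cases hi : i = j
    · subst hi
      rw [Pi.add_apply, Pi.single_eq_same, Function.update_self, Nat.cast_add, Nat.cast_one]
      congr 1
      exact (ZMod.natCast_zmod_val (x i)).symm
    · rw [Pi.add_apply, Pi.single_eq_of_ne hi, Function.update_of_ne hi, add_zero]
      exact (ZMod.natCast_zmod_val (x i)).symm
  have h1 : B04big F x = F (B04tile k r m) (B04red r s m) := by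
    rw [hx]
    exact B04_cast hr F m
  have h2 : B04big F (x + Pi.single j 1) =
      F (B04tile k r (Function.update m j (m j + 1))) (B04red r s (Function.update m j (m j + 1))) := by
    rw [hx']
    exact B04_cast hr F _
  have h3 : F (B04tile k r (Function.update m j (m j + 1)))
      (B04red r s (Function.update m j (m j + 1))) =
      F (B04tile k r m) (B04red r s (Function.update m j (m j + 1))) := by
    refine B04_bd hF _ _ ?_
    by_cases hb : (m j + 1) % 2 ^ (r j + 1) = 0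
    · exact Or.inr ⟨j, by rw [Function.update_self]; exact hb⟩
    · refine Or.inl fun i => ?_
      by_cases hi : i = j
      · subst hi
        rw [Function.update_self]
        have h4 : (m i + 1) / 2 ^ (r i + 1) = m i / 2 ^ (r i + 1) := by
          rw [Nat.succ_div, if_neg, add_zero]
          intro h5
          exact hb (Nat.mod_eq_zero_of_dvd h5)
        rw [h4]
        rfl
      · rw [Function.update_of_ne hi]
        rfl
  rw [h1, h2, h3]
  exact (hP _ _ _ (B04_adj m j)).symm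

private theorem B04_prp (hr : ∀ i, r i ≤ k) {F : B04T k r → B04W r s → Fin q}
    (hF : ∀ T T' v, (∃ i, (v i).val = 0) → F T v = F T' v)
    (hP : ∀ T, PrG (WG (fun _ : Fin d => true) (fun i => 2 ^ r i) s) (F T)) : Prp (B04big F) := by
  rintro x ⟨j, b⟩
  cases b with
  | true => exact B04_step hr hF hP x j
  | false =>
    have h1 := B04_step hr hF hP (x + Pi.single j (-1)) j
    have h2 : x + Pi.single j (-1) + Pi.single j (1 : ZMod (2 ^ (k + 1))) = x := by
      rw [add_assoc, ← Pi.single_add, neg_add_cancel, Pi.single_zero, add_zero]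
    rw [h2] at h1
    exact h1.symm

private theorem B04_pat (hr : ∀ i, r i ≤ k) {F : B04T k r → B04W r s → Fin q}
    (hF : ∀ T T' v, (∃ i, (v i).val = 0) → F T v = F T' v) (t : Blk d k) :
    pat (B04big F) t = fun a b => F (fun i => ⟨(t i).val / 2 ^ r i, by
      have h1 := (t i).val_lt
      have h2 : 2 ^ k = 2 ^ r i * 2 ^ (k - r i) := by
        rw [← pow_add]
        congr 1
        have := hr i
        omega
      exact Nat.div_lt_of_lt_mul (by rw [← h2]; exact h1)⟩)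
      (Wpt (fun _ : Fin d => true) (fun i => 2 ^ r i) s (fun i => (t i).val % 2 ^ r i) a b) := by
  funext a b
  set m : Fin d → ℕ := fun i => 2 * (t i).val + b01 (a i) + b01 (b i) with hm
  have hx : pt t a b = fun i => ((m i : ℕ) : ZMod (2 ^ (k + 1))) := by
    funext i
    have e : ∀ c : Bool, ((b01 c : ℕ) : ZMod (2 ^ (k + 1))) = if c then 1 else 0 := by
      intro c
      cases c <;> simp [b01]
    rw [hm]
    simp only [Nat.cast_add]
    rw [e, e]
    rfl
  have h1 : pat (B04big F) t a b = F (B04tile k r m) (B04red r s m) := by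
    change B04big F (pt t a b) = _
    rw [hx]
    exact B04_cast hr F m
  have hb : ∀ c : Bool, b01 c ≤ 1 := by
    intro c
    unfold b01
    split_ifs <;> omega
  have hpw : ∀ i, 2 ^ (r i + 1) = 2 * 2 ^ r i := fun i => by rw [pow_succ, mul_comm]
  have hdm : ∀ i, m i = 2 ^ (r i + 1) * ((t i).val / 2 ^ r i) +
      (2 * ((t i).val % 2 ^ r i) + b01 (a i) + b01 (b i)) := by
    intro i
    have h2 := Nat.div_add_mod (t i).val (2 ^ r i)
    have h3 : m i = 2 * (t i).val + b01 (a i) + b01 (b i) := rfl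
    rw [h3, hpw i]
    conv_lhs => rw [← h2]
    ring
  have h2 : B04red r s m =
      Wpt (fun _ : Fin d => true) (fun i => 2 ^ r i) s (fun i => (t i).val % 2 ^ r i) a b := by
    funext i
    refine Fin.ext ?_
    rw [B04red_val, hdm i, Nat.mul_add_mod]
    rw [← B04_n (r i) s]
    change _ = (off true s + 2 * ((t i).val % 2 ^ r i) + b01 (a i) + b01 (b i)) % _
    have h4 : off true s = 0 := rfl
    rw [h4, zero_add]
  rw [h1, ← h2]
  refine B04_bd hF m _ ?_
  by_cases hall : ∀ i, 2 * ((t i).val % 2 ^ r i) + b01 (a i) + b01 (b i) < 2 ^ (r i + 1)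
  · refine Or.inl fun i => ?_
    have h5 : m i / 2 ^ (r i + 1) = (t i).val / 2 ^ r i := by
      rw [hdm i, Nat.mul_add_div (by positivity), Nat.div_eq_of_lt (hall i), add_zero]
    rw [h5]
    refine Nat.mod_eq_of_lt ?_
    have h6 := (t i).val_lt
    have h7 : 2 ^ k = 2 ^ r i * 2 ^ (k - r i) := by
      rw [← pow_add]
      congr 1
      have := hr i
      omega
    exact Nat.div_lt_of_lt_mul (by rw [← h7]; exact h6)
  · push Not at hall
    obtain ⟨i, hi⟩ := hall
    refine Or.inr ⟨i, ?_⟩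
    have h5 : (t i).val % 2 ^ r i < 2 ^ r i := Nat.mod_lt _ (by positivity)
    have h6 := hb (a i)
    have h7 := hb (b i)
    have h8 := hpw i
    have h9 : 2 * ((t i).val % 2 ^ r i) + b01 (a i) + b01 (b i) = 2 ^ (r i + 1) := by omega
    rw [hdm i, h9, Nat.mul_add_mod, Nat.mod_self]

private theorem B04_inj (hr : ∀ i, r i ≤ k) :
    Function.Injective (B04big : (B04T k r → B04W r s → Fin q) → Site d (k + 1) → Fin q) := by
  intro F F' h
  funext T v
  set m : Fin d → ℕ := fun i => 2 ^ (r i + 1) * (T i).val + (v i).val with hm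
  have hv : ∀ i, (v i).val < 2 ^ (r i + 1) := by
    intro i
    rw [← B04_n (r i) s]
    exact (v i).isLt
  have h1 : B04tile k r m = T := by
    funext i
    refine Fin.ext ?_
    change (2 ^ (r i + 1) * (T i).val + (v i).val) / 2 ^ (r i + 1) % 2 ^ (k - r i) = (T i).val
    rw [Nat.mul_add_div (by positivity), Nat.div_eq_of_lt (hv i), add_zero,
      Nat.mod_eq_of_lt (T i).isLt]
  have h2 : B04red r s m = v := by
    funext i
    refine Fin.ext ?_
    rw [B04red_val]
    change (2 ^ (r i + 1) * (T i).val + (v i).val) % 2 ^ (r i + 1) = (v i).val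
    rw [Nat.mul_add_mod, Nat.mod_eq_of_lt (hv i)]
  have h3 := congrFun h fun i => ((m i : ℕ) : ZMod (2 ^ (k + 1)))
  rw [B04_cast hr, B04_cast hr, h1, h2] at h3
  exact h3

end B04

open scoped Classical in
theorem tile_trans {d k q s : ℕ} (hq : 1 ≤ q) (r : Fin d → ℕ) (hr : ∀ i, r i ≤ k) (τ : Option (Fin q)) :
    (cG (WG (fun _ : Fin d => true) (fun i => 2 ^ r i) s) (fun f : WV (fun _ : Fin d => true) (fun i => 2 ^ r i) s → Fin q =>
      WE (fun _ => true) (fun i => 2 ^ r i) s (fun _ => some τ) f)) ^ (2 ^ ∑ i, (k - r i)) ≤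
      ((q : ℝ) ^ ((univ.filter fun x : WV (fun _ : Fin d => true) (fun i => 2 ^ r i) s => ∃ i, (x i).val = 0).card)) ^
        (2 ^ ∑ i, (k - r i)) * cE (fun (t : Blk d k) f => BDP τ (pat (q := q) f t)) univ := by
  set B : Finset (B04W r s) := univ.filter fun x => ∃ i, (x i).val = 0 with hB
  set S : Finset (B04W r s → Fin q) := univ.filter fun f =>
    PrG (WG (fun _ : Fin d => true) (fun i => 2 ^ r i) s) f ∧
      WE (fun _ => true) (fun i => 2 ^ r i) s (fun _ => some τ) f with hS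
  have hne : Nonempty (Fin q) := ⟨⟨0, hq⟩⟩
  -- a frequent boundary function
  obtain ⟨ξ, -, hξ⟩ := Finset.exists_max_image (univ : Finset (B → Fin q))
    (fun ξ => (S.filter fun f => (fun x : B => f x.1) = ξ).card) Finset.univ_nonempty
  set Sξ : Finset (B04W r s → Fin q) := S.filter fun f => (fun x : B => f x.1) = ξ with hSξ
  have h1 : (S.card : ℝ) ≤ (q : ℝ) ^ B.card * (Sξ.card : ℝ) := by
    have h2 : S.card = ∑ ξ' : B → Fin q, (S.filter fun f => (fun x : B => f x.1) = ξ').card :=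
      Finset.card_eq_sum_card_fiberwise fun f _ => Finset.mem_coe.2 (Finset.mem_univ _)
    have h3 : S.card ≤ q ^ B.card * Sξ.card := by
      rw [h2]
      refine le_trans (Finset.sum_le_card_nsmul _ _ _ fun ξ' h => hξ ξ' h) (le_of_eq ?_)
      rw [Finset.card_univ, Fintype.card_fun, Fintype.card_fin, Fintype.card_coe, smul_eq_mul]
    exact_mod_cast h3
  have hMc : Fintype.card (B04T k r) = 2 ^ ∑ i, (k - r i) := by
    rw [Fintype.card_pi]
    simp only [Fintype.card_fin]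
    exact Finset.prod_pow_eq_pow_sum _ _ _
  have hcG : cG (WG (fun _ : Fin d => true) (fun i => 2 ^ r i) s)
      (fun f : WV (fun _ : Fin d => true) (fun i => 2 ^ r i) s → Fin q =>
        WE (fun _ => true) (fun i => 2 ^ r i) s (fun _ => some τ) f) = (S.card : ℝ) := by
    unfold cG
    rw [hS]
  have h4 : (Sξ.card : ℝ) ^ (2 ^ ∑ i, (k - r i)) ≤
      cE (fun (t : Blk d k) f => BDP τ (pat (q := q) f t)) univ := by
    have h5 : Sξ.card ^ (2 ^ ∑ i, (k - r i)) =
        (Fintype.piFinset fun _ : B04T k r => Sξ).card := by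
      rw [Fintype.card_piFinset, Finset.prod_const, Finset.card_univ, hMc]
    unfold cE
    rw [← Nat.cast_pow, h5]
    refine Nat.cast_le.2 (Finset.card_le_card_of_injOn B04big ?_ (B04_inj hr).injOn)
    intro F hF
    have hF1 : ∀ T, F T ∈ Sξ := Fintype.mem_piFinset.1 (Finset.mem_coe.1 hF)
    have hF2 : ∀ T, PrG (WG (fun _ : Fin d => true) (fun i => 2 ^ r i) s) (F T) ∧
        WE (fun _ => true) (fun i => 2 ^ r i) s (fun _ => some τ) (F T) := by
      intro T
      have h6 := (Finset.mem_filter.1 (hF1 T)).1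
      exact (Finset.mem_filter.1 h6).2
    have hF3 : ∀ T T' v, (∃ i, (v i).val = 0) → F T v = F T' v := by
      intro T T' v hv
      have h6 := (Finset.mem_filter.1 (hF1 T)).2
      have h7 := (Finset.mem_filter.1 (hF1 T')).2
      have hvB : v ∈ B := Finset.mem_filter.2 ⟨Finset.mem_univ _, hv⟩
      have h8 := congrFun h6 ⟨v, hvB⟩
      have h9 := congrFun h7 ⟨v, hvB⟩
      exact h8.trans h9.symm
    refine Finset.mem_coe.2 (Finset.mem_filter.2 ⟨Finset.mem_filter.2 ⟨Finset.mem_univ _, ?_⟩, ?_⟩)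
    · exact B04_prp hr hF3 fun T => (hF2 T).1
    · intro t _
      rw [B04_pat hr hF3 t]
      refine (hF2 _).2 (fun i => (t i).val % 2 ^ r i) (fun i => ?_) τ rfl
      exact Nat.mod_lt _ (by positivity)
  rw [hcG]
  have h0 : (0 : ℝ) ≤ (q : ℝ) ^ B.card := by positivity
  calc (S.card : ℝ) ^ (2 ^ ∑ i, (k - r i))
      ≤ ((q : ℝ) ^ B.card * (Sξ.card : ℝ)) ^ (2 ^ ∑ i, (k - r i)) :=
        pow_le_pow_left₀ (Nat.cast_nonneg _) h1 _
    _ = ((q : ℝ) ^ B.card) ^ (2 ^ ∑ i, (k - r i)) * (Sξ.card : ℝ) ^ (2 ^ ∑ i, (k - r i)) := mul_pow _ _ _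
    _ ≤ _ := mul_le_mul_of_nonneg_left h4 (pow_nonneg h0 _)

end Pool.Agent.LC

end
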