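import Pool.Agent.Lib_MP_2c424f_m.M13
import Pool.Agent.Lib_MP_2c424f_m.M21

/-!
# MP_2c424f_pr, q_c grows linearly: merged library part M24

Concatenation of smaller files (each in its own section), only to save build time.
-/

namespace Pool.Agent.LO
end Pool.Agent.LO

namespace Pool.Agent.LIN
end Pool.Agent.LIN

namespace Pool.Agent.THR
end Pool.Agent.THR

namespace Pool.Agent.COR
end Pool.Agent.COR

/-! ### from `Lib_MP_2c424f_lc6a.B1` -/

section

/-!
# LC6a B1: the slabs

All points of a slab of the box `k` have all coordinates in `[a k - h, a k + m k + h]`.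
* `slb_in`, `slb_su`: let `x` be in the slab `(k, σ)`.  `In x`: if `x` is in the box `k'` and `k' ≠ k`, the direction `i` of `sep` gives a contradiction (the intervals
  `[a k i - h, a k i + m k i + h]` and `[a k' i, a k' i + m k' i]` are disjoint); so `k' = k`, and in the direction `σ.1` this is `0 ≤ dp` (`dp ≤ h ≤ m`).  The same for `Su`:
  the coordinates `i ≠ σ.1` are not `a i`, `a i + m i`; in the direction `σ.1`: `dp = 0` (`dp = m` is impossible, `m > h`).
* `slb_rr`: let `RR x` with `k', i, i'`.  `k' ≠ k`: as before (`RR` gives coordinates in `[a k' - h, a k' + m k' + h]`).  `k' = k`: `i' ≠ σ.1` is impossible (`okc`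
  in the direction `i'`), so `i' = σ.1`, `i ≠ σ.1`: `okc` in the direction `i` contradicts that `x i` is within `h` of a face.
* `slb_uniq`: `k ≠ k'`: the direction `i` of `sep`, `x i` and `x' i` differ by at most `1`, the distance of the intervals is at least `4`.  `k = k'`: if `σ.1 ≠ σ'.1` then `x (σ'.1)` is
  `okc` and `x' (σ'.1)` is within `h` of a face: the difference is at least `2`.  If `σ.1 = σ'.1`, `σ.2 ≠ σ'.2`: `m ≥ 8 h + 8`.
* `su_slb`: `Su x` with the box `k` and the direction `i`; for `i' ≠ i`, `¬ RR x` gives `okc k i' x`.  `σ = (i, false)` or `(i, true)`.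
* `in_adj`: `In x`, not `Su x`: all coordinates of `x` are strictly inside, so `y` is in the box.
-/

set_option autoImplicit false

open Finset Filter

namespace Pool.Agent.LC

open Pool.Agent.LO Pool.Agent.LIN Pool.Agent.THR Pool.Agent.COR

variable {d N h : ℕ} {ι : Type} (D : Bxs d N h ι)

private theorem B1_rng {k : ι} {σ : Stp d} {x : BxV d N} (hx : D.slb k σ x) (i : Fin d) :
    D.a k i ≤ (x i).val + h ∧ (x i).val ≤ D.a k i + D.m k i + h := by
  rcases eq_or_ne i σ.1 with e | e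
  · have h1 := hx.2
    unfold Bxs.dp at h1
    rw [← e] at h1
    by_cases hσ : σ.2 = true
    · rw [if_pos hσ] at h1
      omega
    · rw [if_neg hσ] at h1
      omega
  · have h1 := hx.1 i e
    unfold Bxs.okc at h1
    omega

private theorem B1_sep {k k' : ι} (hk : k ∈ D.I) (hk' : k' ∈ D.I) {x x' : BxV d N}
    (hx : ∀ i, D.a k i ≤ (x i).val + h ∧ (x i).val ≤ D.a k i + D.m k i + h)
    (hx' : ∀ i, D.a k' i ≤ (x' i).val + h ∧ (x' i).val ≤ D.a k' i + D.m k' i + h)
    (hd : ∀ i, (x i).val ≤ (x' i).val + 1 ∧ (x' i).val ≤ (x i).val + 1) : k = k' := by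
  by_contra hne
  obtain ⟨i, hi⟩ := D.sep k hk k' hk' hne
  have h1 := hx i
  have h2 := hx' i
  have h3 := hd i
  omega

private theorem B1_refl (x : BxV d N) : ∀ i, (x i).val ≤ (x i).val + 1 ∧ (x i).val ≤ (x i).val + 1 :=
  fun _ => ⟨Nat.le_succ _, Nat.le_succ _⟩

private theorem B1_inD {k : ι} {x : BxV d N} (hx : D.inD k x) (i : Fin d) :
    D.a k i ≤ (x i).val + h ∧ (x i).val ≤ D.a k i + D.m k i + h := by
  have h1 := hx i
  omega

private theorem B1_in {k : ι} (hk : k ∈ D.I) {σ : Stp d} {x : BxV d N} (hx : D.slb k σ x)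
    (h0 : 0 ≤ D.dp k σ x) : D.inD k x := by
  intro i
  rcases eq_or_ne i σ.1 with e | e
  · have h1 := hx.2
    have h2 := D.big k hk i
    unfold Bxs.dp at h1 h0
    rw [← e] at h1 h0
    by_cases hσ : σ.2 = true
    · rw [if_pos hσ] at h1 h0
      omega
    · rw [if_neg hσ] at h1 h0
      omega
  · have h1 := hx.1 i e
    unfold Bxs.okc at h1
    omega

theorem slb_in {k : ι} (hk : k ∈ D.I) {σ : Stp d} {x : BxV d N} (hx : D.slb k σ x) : D.In x ↔ 0 ≤ D.dp k σ x := by
  constructor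
  · rintro ⟨k', hk', hin⟩
    obtain rfl := B1_sep D hk hk' (B1_rng D hx) (B1_inD D hin) (B1_refl x)
    have h1 := hin σ.1
    unfold Bxs.dp
    split_ifs <;> omega
  · intro h0
    exact ⟨k, hk, B1_in D hk hx h0⟩

theorem slb_su {k : ι} (hk : k ∈ D.I) {σ : Stp d} {x : BxV d N} (hx : D.slb k σ x) : D.Su x ↔ D.dp k σ x = 0 := by
  constructor
  · rintro ⟨k', hk', hin, i, hi⟩
    obtain rfl := B1_sep D hk hk' (B1_rng D hx) (B1_inD D hin) (B1_refl x)
    have h2 := D.big k hk i
    rcases eq_or_ne i σ.1 with e | e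
    · have h1 := hx.2
      unfold Bxs.dp at h1 ⊢
      rw [← e] at h1 ⊢
      by_cases hσ : σ.2 = true
      · rw [if_pos hσ] at h1 ⊢
        omega
      · rw [if_neg hσ] at h1 ⊢
        omega
    · have h1 := hx.1 i e
      unfold Bxs.okc at h1
      omega
  · intro h0
    refine ⟨k, hk, B1_in D hk hx h0.ge, σ.1, ?_⟩
    unfold Bxs.dp at h0
    by_cases hσ : σ.2 = true
    · rw [if_pos hσ] at h0
      omega
    · rw [if_neg hσ] at h0
      omega

theorem slb_rr {k : ι} (hk : k ∈ D.I) {σ : Stp d} {x : BxV d N} (hx : D.slb k σ x) : ¬ D.RR x := by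
  rintro ⟨k', hk', i, i', hne, hall, hor⟩
  have hrng : ∀ j, D.a k' j ≤ (x j).val + h ∧ (x j).val ≤ D.a k' j + D.m k' j + h := by
    intro j
    have h2 := D.big k' hk' j
    rcases eq_or_ne j i with e | e
    · rw [e] at h2 ⊢
      rcases hor with ⟨h3, h4, h5⟩ | ⟨h3, h4⟩
      · omega
      · omega
    · rcases eq_or_ne j i' with e' | e'
      · rw [e'] at h2 ⊢
        rcases hor with ⟨h3, h4, h5⟩ | ⟨h3, h4⟩
        · omega
        · omega
      · have h3 := hall j e e'
        omega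
  obtain rfl := B1_sep D hk hk' (B1_rng D hx) hrng (B1_refl x)
  rcases eq_or_ne i' σ.1 with e | e
  · have h1 := hx.1 i (fun e' => hne (e'.trans e.symm))
    unfold Bxs.okc at h1
    rcases hor with ⟨h3, h4, h5⟩ | ⟨h3, h4⟩
    · omega
    · omega
  · have h1 := hx.1 i' e
    unfold Bxs.okc at h1
    rcases hor with ⟨h3, h4, h5⟩ | ⟨h3, h4⟩
    · omega
    · omega

private theorem B1_near {x x' : BxV d N} (h : x = x' ∨ (bG d N).Adj x x') :
    ∀ i, (x i).val ≤ (x' i).val + 1 ∧ (x' i).val ≤ (x i).val + 1 := by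
  intro i
  rcases h with rfl | ⟨j, h1, h2⟩
  · omega
  · rcases eq_or_ne i j with rfl | e
    · omega
    · rw [h1 i e]
      omega

theorem slb_uniq {k k' : ι} (hk : k ∈ D.I) (hk' : k' ∈ D.I) {σ σ' : Stp d} {x x' : BxV d N} (hx : D.slb k σ x)
    (hx' : D.slb k' σ' x') (h : x = x' ∨ (bG d N).Adj x x') : k = k' ∧ σ = σ' := by
  have hn := B1_near h
  obtain rfl := B1_sep D hk hk' (B1_rng D hx) (B1_rng D hx') hn
  refine ⟨rfl, ?_⟩
  have h3 := hn σ'.1
  have hd := hx.2
  have hd' := hx'.2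
  have hb := D.big k hk σ'.1
  unfold Bxs.dp at hd hd'
  rcases eq_or_ne σ'.1 σ.1 with e | e
  · rw [← e] at hd
    refine Prod.ext e.symm ?_
    by_contra hne
    by_cases hσ : σ.2 = true
    · have hσ' : ¬ σ'.2 = true := fun h4 => hne (hσ.trans h4.symm)
      rw [if_pos hσ] at hd
      rw [if_neg hσ'] at hd'
      omega
    · have hσ' : σ'.2 = true := by
        by_contra h4
        rw [Bool.not_eq_true] at hσ h4
        exact hne (hσ.trans h4.symm)
      rw [if_neg hσ] at hd
      rw [if_pos hσ'] at hd'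
      omega
  · exfalso
    have h1 := hx.1 σ'.1 e
    unfold Bxs.okc at h1
    by_cases hσ' : σ'.2 = true
    · rw [if_pos hσ'] at hd'
      omega
    · rw [if_neg hσ'] at hd'
      omega

theorem su_slb {x : BxV d N} (hx : D.Su x) (hR : ¬ D.RR x) : ∃ k ∈ D.I, ∃ σ : Stp d, D.slb k σ x ∧ D.dp k σ x = 0 := by
  obtain ⟨k, hk, hin, i, hi⟩ := hx
  have hok : ∀ i', i' ≠ i → D.okc k i' x := by
    intro i' hi'
    by_contra hcon
    refine hR ⟨k, hk, i, i', hi'.symm, fun j _ _ => hin j, Or.inl ⟨hi, hin i', ?_⟩⟩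
    unfold Bxs.okc at hcon
    omega
  rcases hi with hi | hi
  · have h0 : D.dp k (i, false) x = 0 := by
      unfold Bxs.dp
      simp only [Bool.false_eq_true, if_false]
      omega
    refine ⟨k, hk, (i, false), ⟨hok, ?_, ?_⟩, h0⟩
    · rw [h0]
      omega
    · rw [h0]
      omega
  · have h0 : D.dp k (i, true) x = 0 := by
      unfold Bxs.dp
      simp only [if_true]
      omega
    refine ⟨k, hk, (i, true), ⟨hok, ?_, ?_⟩, h0⟩
    · rw [h0]
      omega
    · rw [h0]
      omega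

private theorem B1_adj {x y : BxV d N} (h : (bG d N).Adj x y) (hx : ¬ D.Su x) (hin : D.In x) : D.In y := by
  obtain ⟨k, hk, hk'⟩ := hin
  refine ⟨k, hk, fun i => ?_⟩
  have h1 := B1_near (Or.inr h) i
  have h2 := hk' i
  have h3 : (x i).val ≠ D.a k i := fun e => hx ⟨k, hk, hk', i, Or.inl e⟩
  have h4 : (x i).val ≠ D.a k i + D.m k i := fun e => hx ⟨k, hk, hk', i, Or.inr e⟩
  omega

theorem in_adj {x y : BxV d N} (h : (bG d N).Adj x y) (hx : ¬ D.Su x) (hy : ¬ D.Su y) : D.In x ↔ D.In y :=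
  ⟨B1_adj D h hx, B1_adj D h.symm hy⟩

end Pool.Agent.LC

end

/-! ### from `Lib_MP_2c424f_thr.A5b` -/

section

/-!
# THR A5b: consequences for good colourings, second part (paper proof: A5)

`a = ra d q`, `a1 ε ≤ a ≤ A0 ε` (`EvT_reg`), `1 < a1 ε`, `0 ≤ ya ≤ e^a` (`ya_bound`), `N = NN d k`.
* `pin_d2`: `est2` and the hypothesis on `LL` (both classes); `|ya - (1 + m eps)| = dst2 m ya` (`eps = 1` iff `ya ≥ 1`).
* `pin_fl`, first part: `m · mc eps = mc ((1 + m eps) - ya)` (`ya_mean`), `m ≥ gap`.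
* second part: if `eps_v = eps_{v+σ} = e` then `2 m = |(1 + m e) - (1 - m e)| ≤ |ya_v - (1+me)| + |F (ya_{v+σ}) - F (1 + m e)| + |ya_v - F (ya_{v+σ})|`
  (`Fy_add`, `Fy_sub`: `F (1 + m e) = 1 - m e`), `Fy_lip`, `m ≥ gap`.
-/

set_option autoImplicit false

open Finset Filter

namespace Pool.Agent.THR

open Pool.Agent.LO Pool.Agent.LIN

private theorem A5b_a1 {ε : ℝ} (hε : 0 < ε) (hε1 : ε ≤ 1) : 1 < a1 ε := by
  unfold a1
  rw [one_lt_div (by linarith)]
  linarith

section aux
variable {d k q : ℕ}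

private theorem A5b_mc_mono (φ ψ : Fin q → ℝ) (h : ∀ c, φ c ≤ ψ c) : mc φ ≤ mc ψ := by
  unfold mc
  exact div_le_div_of_nonneg_right (Finset.sum_le_sum fun c _ => h c) (Nat.cast_nonneg q)

private theorem A5b_mc_add (φ ψ : Fin q → ℝ) : mc (fun c => φ c + ψ c) = mc φ + mc ψ := by
  unfold mc
  rw [Finset.sum_add_distrib, add_div]

private theorem A5b_mc_mul (a : ℝ) (φ : Fin q → ℝ) : mc (fun c => a * φ c) = a * mc φ := by
  unfold mc
  rw [← Finset.mul_sum, mul_div_assoc]

private theorem A5b_mc_const (hq : 1 ≤ q) (a : ℝ) : mc (fun _ : Fin q => a) = a := by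
  have hq' : (1 : ℝ) ≤ q := by exact_mod_cast hq
  unfold mc
  rw [Finset.sum_const, Finset.card_univ, Fintype.card_fin, nsmul_eq_mul]
  field_simp

private theorem A5b_mc_abs (φ : Fin q → ℝ) : |mc φ| ≤ mc fun c => |φ c| := by
  unfold mc
  rw [abs_div, abs_of_nonneg (Nat.cast_nonneg q : (0 : ℝ) ≤ q)]
  exact div_le_div_of_nonneg_right (Finset.abs_sum_le_sum_abs _ _) (Nat.cast_nonneg q)

/-- if all the sums over the sites are small, so is the sum of the means -/
private theorem A5b_mc_sum (hq : 1 ≤ q) (g : Fin q → Site d k → ℝ) (B : ℝ) (h : ∀ c, ∑ v, g c v ≤ B) :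
    ∑ v, mc (fun c => g c v) ≤ B := by
  have h1 : ∑ v, mc (fun c => g c v) = mc fun c => ∑ v, g c v := by
    unfold mc
    rw [← Finset.sum_div, Finset.sum_comm]
  rw [h1]
  exact (A5b_mc_mono _ (fun _ => B) h).trans (le_of_eq (A5b_mc_const hq B))

private theorem A5b_two (g : Site d k → ℝ) :
    ∑ u ∈ cls true d k, g u + ∑ u ∈ cls false d k, g u = ∑ u, g u := by
  classical
  have h0 : ∀ b : Bool, ∑ u ∈ cls b d k, g u = ∑ u, if u ∈ cls b d k then g u else 0 := by
    intro b
    rw [← Finset.sum_filter]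
    refine Finset.sum_congr ?_ fun _ _ => rfl
    ext u
    simp
  rw [h0, h0, ← Finset.sum_add_distrib]
  refine Finset.sum_congr rfl fun x _ => ?_
  have h1 := cls_not (d := d) (k := k) true x
  by_cases h2 : x ∈ cls true d k
  · have h3 : x ∉ cls false d k := fun h => (h1.1 h) h2
    rw [if_pos h2, if_neg h3, add_zero]
  · have h3 : x ∈ cls false d k := h1.2 h2
    rw [if_neg h2, if_pos h3, zero_add]

private theorem A5b_one : ∑ _v : Site d k, (1 : ℝ) = NN d k := by
  rw [Finset.sum_const, Finset.card_univ, nsmul_eq_mul, mul_one]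
  exact card_site d k

private theorem A5b_shift (g : Site d k → ℝ) (σ : Stp d) : ∑ v, g (v + sv σ) = ∑ v, g v :=
  Equiv.sum_comp (Equiv.addRight (sv σ)) g

private theorem A5b_eps (c : Fin q) (f : Site d k → Fin q) (v : Site d k) :
    eps c f v = 1 ∧ 1 ≤ ya c f v ∨ eps c f v = -1 ∧ ya c f v < 1 := by
  unfold eps
  split_ifs with h
  · exact Or.inl ⟨rfl, h⟩
  · exact Or.inr ⟨rfl, not_le.1 h⟩

private theorem A5b_dst (c : Fin q) (f : Site d k → Fin q) (v : Site d k) (m : ℝ) (hm : 0 < m) :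
    |ya c f v - (1 + m * eps c f v)| ≤ dst2 m (ya c f v) := by
  unfold dst2
  rcases A5b_eps c f v with ⟨h1, h2⟩ | ⟨h1, h2⟩
  · rw [h1, mul_one]
    refine le_min ?_ le_rfl
    rw [abs_of_nonneg (by linarith : 0 ≤ ya c f v - (1 - m))]
    exact abs_le.2 ⟨by linarith, by linarith⟩
  · rw [h1]
    have h3 : 1 + m * -1 = 1 - m := by ring
    rw [h3]
    refine le_min le_rfl ?_
    rw [abs_of_nonpos (by linarith : ya c f v - (1 + m) ≤ 0)]
    exact abs_le.2 ⟨by linarith, by linarith⟩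

private theorem A5b_Feps {a m : ℝ} (h : MFE a m) (c : Fin q) (f : Site d k → Fin q) (v : Site d k) :
    Fy a m (1 + m * eps c f v) = 1 - m * eps c f v := by
  rcases A5b_eps c f v with ⟨h1, _⟩ | ⟨h1, _⟩
  · rw [h1, mul_one, Fy_add a m h]
  · rw [h1]
    have h3 : 1 + m * -1 = 1 - m := by ring
    rw [h3, Fy_sub a m h]
    ring

private theorem A5b_prp {f : Site d k → Fin q} (hf : f ∈ prps d k q) : Prp f := by
  classical
  unfold prps at hf
  exact (Finset.mem_filter.1 hf).2

private theorem A5b_epos {m : ℝ} (hm : 0 < m) (hm1 : m < 1) (c : Fin q) (f : Site d k → Fin q)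
    (v : Site d k) : 0 ≤ 1 + m * eps c f v := by
  rcases A5b_eps c f v with ⟨h1, _⟩ | ⟨h1, _⟩ <;> rw [h1] <;> linarith

private theorem A5b_flip {a m g L : ℝ} (ha : 1 < a) (h : MFE a m) (hg : 0 < g) (hgm : g ≤ m)
    (hL : a * Real.exp a ≤ L) (hq : 1 ≤ q) {f : Site d k → Fin q} (hf : Prp f) (σ : Stp d) (c : Fin q)
    (v : Site d k) :
    (if eps c f v = eps c f (v + sv σ) then (1 : ℝ) else 0) ≤
      1 / (2 * g) * (|ya c f v - (1 + m * eps c f v)| +
        L * |ya c f (v + sv σ) - (1 + m * eps c f (v + sv σ))| +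
        |ya c f v - Fy a m (ya c f (v + sv σ))|) := by
  have hm : 0 < m := h.1
  have hm1 := mfe_lt a m h
  have hL0 : 0 ≤ L := le_trans (by positivity) hL
  split_ifs with he
  · have h1 := (Fy_lip a m (ya c f (v + sv σ)) (1 + m * eps c f (v + sv σ)) ha h
      (ya_bound hq hf c _).1.le (A5b_epos hm hm1 c f _)).1
    rw [A5b_Feps h] at h1
    have h2 : a * Real.exp a * |ya c f (v + sv σ) - (1 + m * eps c f (v + sv σ))| ≤
        L * |ya c f (v + sv σ) - (1 + m * eps c f (v + sv σ))| :=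
      mul_le_mul_of_nonneg_right hL (abs_nonneg _)
    have h3 : 2 * m ≤ |ya c f v - (1 + m * eps c f v)| +
        |Fy a m (ya c f (v + sv σ)) - (1 - m * eps c f (v + sv σ))| +
        |ya c f v - Fy a m (ya c f (v + sv σ))| := by
      rw [← he]
      have h4 : |(1 + m * eps c f v) - (1 - m * eps c f v)| = 2 * m := by
        rcases A5b_eps c f v with ⟨h1, _⟩ | ⟨h1, _⟩
        · rw [h1, abs_of_nonneg (by linarith)]; ring
        · rw [h1, abs_of_nonpos (by linarith)]; ring
      rw [← h4]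
      have h5 : (1 + m * eps c f v) - (1 - m * eps c f v) =
          -(ya c f v - (1 + m * eps c f v)) +
          (Fy a m (ya c f (v + sv σ)) - (1 - m * eps c f v)) +
          (ya c f v - Fy a m (ya c f (v + sv σ))) := by ring
      rw [h5]
      refine (abs_add_le _ _).trans (add_le_add ((abs_add_le _ _).trans (add_le_add ?_ le_rfl)) le_rfl)
      rw [abs_neg]
    rw [one_div, ← div_eq_inv_mul, le_div_iff₀ (by positivity)]
    linarith
  · positivity

end aux

theorem pin_d2 {ε : ℝ} (hε : 0 < ε) (hε1 : ε ≤ 1) (δ : ℝ) (hδ : 0 < δ) : ∃ δ' : ℝ, 0 < δ' ∧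
    EvT ε fun d k q => ∀ m : ℝ, MFE (ra d q) m → ∀ f ∈ prps d k q,
      (∀ b : Bool, ∑ u ∈ cls b d k, mc (fun c => LL (ra d q) m (ya c f u)) ≤ δ' * NN d k) →
      ∑ v : Site d k, mc (fun c => |ya c f v - (1 + m * eps c f v)|) ≤ δ * NN d k := by
  obtain ⟨C, hC, hCe⟩ := est2 (a1 ε) (A0 ε) (Real.exp (A0 ε)) (A5b_a1 hε hε1) (δ / 2) (by linarith)
  refine ⟨δ / (4 * C), by positivity, (EvT_reg hε hε1 1).mono fun d k q hr m hm f hf hb => ?_⟩
  obtain ⟨_, hq1, _, _, _, hra, hrA, _⟩ := hr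
  have hq : 1 ≤ q := by exact_mod_cast hq1
  have hfP : Prp f := A5b_prp hf
  have h1 : ∀ v : Site d k, mc (fun c => |ya c f v - (1 + m * eps c f v)|) ≤
      δ / 2 + C * mc (fun c => LL (ra d q) m (ya c f v)) := by
    intro v
    refine (A5b_mc_mono _ (fun c => δ / 2 + C * LL (ra d q) m (ya c f v)) fun c => ?_).trans
      (le_of_eq ?_)
    · obtain ⟨h2, h3⟩ := ya_bound hq hfP c v
      exact (A5b_dst c f v m hm.1).trans (hCe _ _ _ hra hrA hm h2.le
        (h3.trans (Real.exp_le_exp.2 hrA)))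
    · rw [A5b_mc_add, A5b_mc_const hq, A5b_mc_mul]
  have h2 := hb true
  have h3 := hb false
  have h4 := A5b_two (d := d) (k := k) fun u => mc (fun c => LL (ra d q) m (ya c f u))
  calc ∑ v : Site d k, mc (fun c => |ya c f v - (1 + m * eps c f v)|)
      ≤ ∑ v : Site d k, (δ / 2 * 1 + C * mc (fun c => LL (ra d q) m (ya c f v))) :=
        Finset.sum_le_sum fun v _ => by rw [mul_one]; exact h1 v
    _ = δ / 2 * NN d k + C * ∑ v, mc (fun c => LL (ra d q) m (ya c f v)) := by
        rw [Finset.sum_add_distrib, ← Finset.mul_sum, ← Finset.mul_sum, A5b_one]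
    _ ≤ δ / 2 * NN d k + C * (2 * (δ / (4 * C) * NN d k)) := by
        have : ∑ v, mc (fun c => LL (ra d q) m (ya c f v)) ≤ 2 * (δ / (4 * C) * NN d k) := by
          rw [← h4]
          linarith
        have := mul_le_mul_of_nonneg_left this hC.le
        linarith
    _ = δ * NN d k := by
        field_simp
        ring

theorem pin_fl {ε : ℝ} (hε : 0 < ε) (hε1 : ε ≤ 1) (δ : ℝ) (hδ : 0 < δ) : ∃ δ' : ℝ, 0 < δ' ∧
    EvT ε fun d k q => ∀ m : ℝ, MFE (ra d q) m → ∀ f ∈ prps d k q,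
      (∀ (c : Fin q) (σ : Stp d), ∑ v : Site d k, |ya c f v - Fy (ra d q) m (ya c f (v + sv σ))| ≤ δ' * NN d k) →
      (∑ v : Site d k, mc (fun c => |ya c f v - (1 + m * eps c f v)|) ≤ δ' * NN d k) →
      (∑ v : Site d k, |mc (fun c => eps c f v)| ≤ δ * NN d k) ∧
      ∀ σ : Stp d, ∑ v : Site d k, mc (fun c => if eps c f v = eps c f (v + sv σ) then (1 : ℝ) else 0) ≤ δ * NN d k := by
  obtain ⟨g, hg, hg1, hgap⟩ := gap (a1 ε) (A0 ε) (A5b_a1 hε hε1)
  obtain ⟨L, hL⟩ : ∃ L : ℝ, L = A0 ε * Real.exp (A0 ε) := ⟨_, rfl⟩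
  have hA0 : 0 < A0 ε := by unfold A0; positivity
  have hL0 : 0 < L := by rw [hL]; positivity
  refine ⟨g * δ / (2 + L), by positivity, (EvT_reg hε hε1 1).mono fun d k q hr m hm f hf h1 h2 => ?_⟩
  obtain ⟨_, hq1, _, _, _, hra, hrA, _⟩ := hr
  have hq : 1 ≤ q := by exact_mod_cast hq1
  have hfP : Prp f := A5b_prp hf
  have hN : 0 ≤ NN d k := by unfold NN; positivity
  have ha : 1 < ra d q := (A5b_a1 hε hε1).trans_le hra
  obtain ⟨yM, hyM⟩ := ym_exists (ra d q) m ha hm
  have hgm := (hgap _ _ _ hra hrA hm hyM).1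
  have hm0 : 0 < m := hm.1
  have hLa : ra d q * Real.exp (ra d q) ≤ L := by
    rw [hL]
    exact mul_le_mul hrA (Real.exp_le_exp.2 hrA) (Real.exp_nonneg _) hA0.le
  constructor
  · have h3 : ∀ v : Site d k, |mc (fun c => eps c f v)| ≤
        1 / g * mc (fun c => |ya c f v - (1 + m * eps c f v)|) := by
      intro v
      have h4 : m * mc (fun c => eps c f v) = mc (fun c => (1 + m * eps c f v) + -1 * ya c f v) := by
        rw [A5b_mc_add, A5b_mc_add, A5b_mc_mul, A5b_mc_mul, A5b_mc_const hq, ya_mean hq]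
        ring
      have h5 : m * |mc (fun c => eps c f v)| ≤ mc (fun c => |ya c f v - (1 + m * eps c f v)|) := by
        rw [← abs_of_pos hm0, ← abs_mul, abs_of_pos hm0, h4]
        refine (A5b_mc_abs _).trans (A5b_mc_mono _ _ fun c => le_of_eq ?_)
        rw [← abs_neg]
        congr 1
        ring
      rw [one_div, ← div_eq_inv_mul, le_div_iff₀ hg]
      have h6 := mul_le_mul_of_nonneg_right hgm (abs_nonneg (mc fun c => eps c f v))
      linarith
    calc ∑ v : Site d k, |mc (fun c => eps c f v)|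
        ≤ ∑ v : Site d k, 1 / g * mc (fun c => |ya c f v - (1 + m * eps c f v)|) :=
          Finset.sum_le_sum fun v _ => h3 v
      _ = 1 / g * ∑ v : Site d k, mc (fun c => |ya c f v - (1 + m * eps c f v)|) := by
          rw [← Finset.mul_sum]
      _ ≤ 1 / g * (g * δ / (2 + L) * NN d k) := mul_le_mul_of_nonneg_left h2 (by positivity)
      _ = δ * NN d k * (1 / (2 + L)) := by field_simp
      _ ≤ δ * NN d k * 1 := by
          refine mul_le_mul_of_nonneg_left ?_ (by positivity)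
          rw [div_le_one (by linarith)]
          linarith
      _ = δ * NN d k := mul_one _
  · intro σ
    have h3 : ∀ v : Site d k, mc (fun c => if eps c f v = eps c f (v + sv σ) then (1 : ℝ) else 0) ≤
        1 / (2 * g) * (mc (fun c => |ya c f v - (1 + m * eps c f v)|) +
          L * mc (fun c => |ya c f (v + sv σ) - (1 + m * eps c f (v + sv σ))|) +
          mc (fun c => |ya c f v - Fy (ra d q) m (ya c f (v + sv σ))|)) := by
      intro v
      refine (A5b_mc_mono _ _ fun c => A5b_flip ha hm hg hgm hLa hq hfP σ c v).trans (le_of_eq ?_)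
      rw [A5b_mc_mul, A5b_mc_add, A5b_mc_add, A5b_mc_mul]
    have h4 : ∑ v : Site d k, mc (fun c => |ya c f v - Fy (ra d q) m (ya c f (v + sv σ))|) ≤
        g * δ / (2 + L) * NN d k := A5b_mc_sum hq _ _ fun c => h1 c σ
    have h5 : ∑ v : Site d k, mc (fun c => |ya c f (v + sv σ) - (1 + m * eps c f (v + sv σ))|) =
        ∑ v : Site d k, mc (fun c => |ya c f v - (1 + m * eps c f v)|) :=
      A5b_shift (fun v => mc (fun c => |ya c f v - (1 + m * eps c f v)|)) σ
    calc ∑ v : Site d k, mc (fun c => if eps c f v = eps c f (v + sv σ) then (1 : ℝ) else 0)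
        ≤ ∑ v : Site d k, 1 / (2 * g) * (mc (fun c => |ya c f v - (1 + m * eps c f v)|) +
          L * mc (fun c => |ya c f (v + sv σ) - (1 + m * eps c f (v + sv σ))|) +
          mc (fun c => |ya c f v - Fy (ra d q) m (ya c f (v + sv σ))|)) :=
          Finset.sum_le_sum fun v _ => h3 v
      _ = 1 / (2 * g) * (∑ v : Site d k, mc (fun c => |ya c f v - (1 + m * eps c f v)|) +
          L * ∑ v : Site d k, mc (fun c => |ya c f v - (1 + m * eps c f v)|) +
          ∑ v : Site d k, mc (fun c => |ya c f v - Fy (ra d q) m (ya c f (v + sv σ))|)) := by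
          rw [← Finset.mul_sum, Finset.sum_add_distrib, Finset.sum_add_distrib, ← Finset.mul_sum, h5]
      _ ≤ 1 / (2 * g) * (g * δ / (2 + L) * NN d k + L * (g * δ / (2 + L) * NN d k) +
          g * δ / (2 + L) * NN d k) := by
          refine mul_le_mul_of_nonneg_left ?_ (by positivity)
          exact add_le_add (add_le_add h2 (mul_le_mul_of_nonneg_left h2 hL0.le)) h4
      _ = δ / 2 * NN d k := by
          field_simp
          ring
      _ ≤ δ * NN d k := by
          refine mul_le_mul_of_nonneg_right ?_ hN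
          linarith

end Pool.Agent.THR

end

/-! ### from `Lib_MP_2c424f_thr.A5a` -/

section

/-!
# THR A5a: consequences for good colourings, first part (paper proof: A5)

`a = ra d q`, `a1 ε ≤ a ≤ A0 ε` (`EvT_reg`), `1 < a1 ε`, `0 ≤ ya ≤ e^a` (`ya_bound`), `N = NN d k`; from `ℓ²` to `ℓ¹` by Cauchy-Schwarz.
`u = v + σ₀` for a fixed step (sums over all `v` = sums over all `u`); the sums of `mc LL` over both classes add up to at most `2 δ' N`.
* `pin_al`, first part: `al_v = mc exp (-hh_v)`, `|exp (-hh_v) - exp (-a ya_u)| ≤ |hh_v - a ya_u|` (`mf`), `est1` (with `η = δ/4` say) and `mc (α*(2 - ya_u)) = α*` (`ya_mean`).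
* second part: `ya_v = exp (-hh_v)/al_v`, `Fy (ya_u) = exp (-a ya_u)/α*`, both denominators `≥ e^(-a)` (`al_ge`, `als_bounds`); `mf` and the first part.
* `pin_d3`: `est3`, `|ya_v - F (F (ya_v))| ≤ |ya_v - F (ya_{v+σ})| + C |ya_{v+σ} - F (ya_v)|` (`Fy_lip`, hypothesis twice, the second time at the site `v+σ` with the opposite step).
-/

set_option autoImplicit false

open Finset Filter

namespace Pool.Agent.THR

open Pool.Agent.LO Pool.Agent.LIN

private theorem A5a_expL (x y : ℝ) (hx : 0 ≤ x) (hy : 0 ≤ y) : |Real.exp (-x) - Real.exp (-y)| ≤ |x - y| := by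
  have key : ∀ s t : ℝ, 0 ≤ s → s ≤ t → |Real.exp (-s) - Real.exp (-t)| ≤ |s - t| := by
    intro s t hs hst
    have h1 : Real.exp (-t) ≤ Real.exp (-s) := Real.exp_le_exp.mpr (by linarith)
    rw [abs_of_nonneg (by linarith), abs_of_nonpos (by linarith)]
    have h2 : Real.exp (-t) = Real.exp (-s) * Real.exp (s - t) := by
      rw [← Real.exp_add]
      congr 1
      ring
    have h3 := Real.add_one_le_exp (s - t)
    have h4 : Real.exp (-s) ≤ 1 := Real.exp_le_one_iff.mpr (by linarith)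
    have h5 := Real.exp_nonneg (-s)
    rw [h2]
    nlinarith
  rcases le_total x y with h | h
  · exact key x y hx h
  · rw [abs_sub_comm, abs_sub_comm x y]
    exact key y x hy h

private theorem A5a_shift {d k : ℕ} (w : Site d k) (φ : Site d k → ℝ) : ∑ v, φ (v + w) = ∑ v, φ v :=
  Fintype.sum_equiv (Equiv.addRight w) _ _ fun _ => rfl

private theorem A5a_card (d k : ℕ) : ((univ : Finset (Site d k)).card : ℝ) = NN d k := by
  rw [card_univ, card_site]

private theorem A5a_NN (d k : ℕ) : 0 ≤ NN d k := by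
  unfold NN
  positivity

/-- from l2 to l1 -/
private theorem A5a_cs {d k : ℕ} (φ : Site d k → ℝ) (κ s : ℝ) (hs : 0 ≤ s) (hκ : κ ≤ s ^ 2)
    (h : ∑ v, φ v ^ 2 ≤ κ * NN d k) : ∑ v, |φ v| ≤ s * NN d k := by
  have hN := A5a_NN d k
  have h1 := sq_sum_le_card_mul_sum_sq (s := (univ : Finset (Site d k))) (f := fun v => |φ v|)
  simp only [sq_abs] at h1
  rw [A5a_card] at h1
  have h2 : (∑ v, |φ v|) ^ 2 ≤ (s * NN d k) ^ 2 := by
    calc (∑ v, |φ v|) ^ 2 ≤ NN d k * ∑ v, φ v ^ 2 := h1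
      _ ≤ NN d k * (κ * NN d k) := mul_le_mul_of_nonneg_left h hN
      _ ≤ NN d k * (s ^ 2 * NN d k) := by gcongr
      _ = _ := by ring
  exact abs_le_of_sq_le_sq' h2 (by positivity) |>.2

private theorem A5a_mc_mono {q : ℕ} (φ ψ : Fin q → ℝ) (h : ∀ c, φ c ≤ ψ c) : mc φ ≤ mc ψ := by
  unfold mc
  exact div_le_div_of_nonneg_right (sum_le_sum fun c _ => h c) (Nat.cast_nonneg _)

private theorem A5a_mc_add {q : ℕ} (φ ψ : Fin q → ℝ) : mc (fun c => φ c + ψ c) = mc φ + mc ψ := by
  unfold mc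
  rw [sum_add_distrib, add_div]

private theorem A5a_mc_mul {q : ℕ} (r : ℝ) (φ : Fin q → ℝ) : mc (fun c => r * φ c) = r * mc φ := by
  unfold mc
  rw [← mul_sum, mul_div_assoc]

private theorem A5a_mc_const {q : ℕ} (hq : 1 ≤ q) (r : ℝ) : mc (fun _ : Fin q => r) = r := by
  have : (0 : ℝ) < q := by exact_mod_cast hq
  unfold mc
  rw [sum_const, card_univ, Fintype.card_fin, nsmul_eq_mul]
  field_simp

private theorem A5a_mc_abs {q : ℕ} (φ : Fin q → ℝ) : |mc φ| ≤ mc fun c => |φ c| := by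
  unfold mc
  rw [abs_div, Nat.abs_cast]
  exact div_le_div_of_nonneg_right (abs_sum_le_sum_abs _ _) (Nat.cast_nonneg _)

private theorem A5a_mc_sum {q : ℕ} {ι : Type*} (A : Finset ι) (φ : ι → Fin q → ℝ) :
    ∑ v ∈ A, mc (φ v) = mc fun c => ∑ v ∈ A, φ v c := by
  unfold mc
  rw [← sum_div, sum_comm]

private theorem A5a_a1 {ε : ℝ} (hε : 0 < ε) (hε1 : ε ≤ 1) : 1 < a1 ε := by
  unfold a1
  rw [lt_div_iff₀ (by linarith)]
  linarith

private theorem A5a_prp {d k q : ℕ} {f : Site d k → Fin q} (hf : f ∈ prps d k q) : Prp f := by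
  classical
  unfold prps at hf
  exact (mem_filter.1 hf).2

/-- a sum over all sites is the sum over the two classes -/
private theorem A5a_cls {d k : ℕ} (φ : Site d k → ℝ) : ∑ v, φ v = ∑ v ∈ cls true d k, φ v + ∑ v ∈ cls false d k, φ v := by
  classical
  simp only [cls, if_true, Bool.false_eq_true, if_false]
  unfold evs ods
  exact (sum_filter_add_sum_filter_not univ _ _).symm

theorem pin_al {ε : ℝ} (hε : 0 < ε) (hε1 : ε ≤ 1) (C₆ : ℝ) (t : ℕ) (δ : ℝ) (hδ : 0 < δ) : ∃ δ' : ℝ, 0 < δ' ∧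
    EvT ε fun d k q => ∀ m yM : ℝ, MFE (ra d q) m → YM (ra d q) m yM → ∀ f ∈ prps d k q, Good ε δ' C₆ t f →
      (∀ b : Bool, ∑ u ∈ cls b d k, mc (fun c => LL (ra d q) m (ya c f u)) ≤ δ' * NN d k) →
      (∑ v : Site d k, |al f v - als (ra d q) m| ≤ δ * NN d k) ∧
      ∀ (c : Fin q) (σ : Stp d), ∑ v : Site d k, |ya c f v - Fy (ra d q) m (ya c f (v + sv σ))| ≤ δ * NN d k := by
  have ha1 := A5a_a1 hε hε1
  set K : ℝ := Real.exp (A0 ε) with hK
  have hK1 : 1 ≤ K := by
    rw [hK]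
    exact Real.one_le_exp (by unfold A0; positivity)
  set κ : ℝ := δ / (2 * K ^ 2) with hκ
  have hκ0 : 0 < κ := by positivity
  have hκδ : K ^ 2 * κ = δ / 2 := by
    rw [hκ]
    field_simp
  have hκδ1 : K * κ ≤ δ / 2 := by
    rw [← hκδ]
    nlinarith [mul_nonneg hκ0.le (sub_nonneg.2 hK1)]
  have hκδ2 : κ ≤ δ := by
    nlinarith [mul_nonneg hκ0.le (sub_nonneg.2 hK1)]
  obtain ⟨C, hC, hest⟩ := est1 (a1 ε) (A0 ε) K ha1 (κ / 4) (by positivity)
  refine ⟨min ((κ / 4) ^ 2) (κ / (8 * C)), by positivity, ?_⟩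
  set δ' : ℝ := min ((κ / 4) ^ 2) (κ / (8 * C)) with hδ'
  have hd1 : δ' ≤ (κ / 4) ^ 2 := min_le_left _ _
  have hd2 : C * (2 * δ') ≤ κ / 4 := by
    have h1 : δ' ≤ κ / (8 * C) := min_le_right _ _
    have h2 : C * (2 * δ') ≤ C * (2 * (κ / (8 * C))) := by gcongr
    refine h2.trans (le_of_eq ?_)
    field_simp
    norm_num
  refine (EvT_reg hε hε1 1).mono ?_
  rintro d k q ⟨hd, hq, -, -, -, haa, haA, -⟩ m yM hm hM f hf hG hLL
  have hf' : Prp f := A5a_prp hf
  have hq1 : 1 ≤ q := by exact_mod_cast hq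
  have hd1' : 1 ≤ d := by exact_mod_cast hd
  have hN := A5a_NN d k
  set a := ra d q with hadef
  have ha : 1 < a := lt_of_lt_of_le ha1 haa
  have hy0 : ∀ c v, 0 ≤ ya c f v := fun c v => (ya_bound hq1 hf' c v).1.le
  have hyK : ∀ c v, ya c f v ≤ K := fun c v => (ya_bound hq1 hf' c v).2.trans (Real.exp_le_exp.2 haA)
  have hmf : ∀ (c : Fin q) (σ : Stp d), ∑ u, |hh c f u - a * ya c f (u + sv σ)| ≤ κ / 4 * NN d k := fun c σ =>
    A5a_cs _ _ _ (by positivity) hd1 (hG.mf c σ)
  have hexp : ∀ c v (σ : Stp d), |Real.exp (-hh c f v) - Real.exp (-(a * ya c f (v + sv σ)))| ≤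
      |hh c f v - a * ya c f (v + sv σ)| := fun c v σ =>
    A5a_expL _ _ (hh_nonneg c f v) (mul_nonneg (by linarith) (hy0 c _))
  have hLLs : ∑ u : Site d k, mc (fun c => LL a m (ya c f u)) ≤ 2 * δ' * NN d k := by
    rw [A5a_cls]
    have h1 := hLL true
    have h2 := hLL false
    linarith
  have hfirst : ∑ v : Site d k, |al f v - als a m| ≤ κ * NN d k := by
    set σ : Stp d := (⟨0, hd1'⟩, true) with hσ
    have hpt : ∀ v : Site d k, |al f v - als a m| ≤
        mc (fun c => |hh c f v - a * ya c f (v + sv σ)|) + κ / 4 +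
          C * mc (fun c => LL a m (ya c f (v + sv σ))) := by
      intro v
      have e1 : al f v = mc fun c => Real.exp (-hh c f v) := rfl
      have e2 : als a m = mc fun c => als a m * (2 - ya c f (v + sv σ)) := by
        rw [A5a_mc_mul]
        have e3 : mc (fun c : Fin q => 2 - ya c f (v + sv σ)) = 1 := by
          have e4 : (fun c : Fin q => 2 - ya c f (v + sv σ)) = fun c => (2 : ℝ) + (-1) * ya c f (v + sv σ) := by
            funext c
            ring
          rw [e4, A5a_mc_add, A5a_mc_mul, A5a_mc_const hq1, ya_mean hq1]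
          norm_num
        rw [e3, mul_one]
      have e5 : al f v - als a m = mc fun c => (Real.exp (-hh c f v) - als a m * (2 - ya c f (v + sv σ))) := by
        have e6 : (fun c => (Real.exp (-hh c f v) - als a m * (2 - ya c f (v + sv σ)))) =
            fun c => Real.exp (-hh c f v) + (-1) * (als a m * (2 - ya c f (v + sv σ))) := by
          funext c
          ring
        rw [e6, A5a_mc_add, A5a_mc_mul (-1) (fun c => als a m * (2 - ya c f (v + sv σ))), ← e2, ← e1]
        ring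
      rw [e5]
      refine (A5a_mc_abs _).trans ?_
      have e7 : mc (fun c => |hh c f v - a * ya c f (v + sv σ)|) + κ / 4 +
          C * mc (fun c => LL a m (ya c f (v + sv σ))) =
          mc fun c => |hh c f v - a * ya c f (v + sv σ)| + (κ / 4 + C * LL a m (ya c f (v + sv σ))) := by
        rw [A5a_mc_add, A5a_mc_add (fun _ => κ / 4) (fun c => C * LL a m (ya c f (v + sv σ))), A5a_mc_mul,
          A5a_mc_const hq1]
        ring
      rw [e7]
      refine A5a_mc_mono _ _ fun c => ?_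
      have e8 : Real.exp (-hh c f v) - als a m * (2 - ya c f (v + sv σ)) =
          (Real.exp (-hh c f v) - Real.exp (-(a * ya c f (v + sv σ)))) +
            (Real.exp (-(a * ya c f (v + sv σ))) - als a m * (2 - ya c f (v + sv σ))) := by ring
      rw [e8]
      exact (abs_add_le _ _).trans (add_le_add (hexp c v σ) (hest a m _ haa haA hm (hy0 c _) (hyK c _)))
    refine (sum_le_sum fun v _ => hpt v).trans ?_
    rw [sum_add_distrib, sum_add_distrib, sum_const, nsmul_eq_mul, A5a_card, ← mul_sum]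
    have h1 : ∑ v : Site d k, mc (fun c => |hh c f v - a * ya c f (v + sv σ)|) ≤ κ / 4 * NN d k := by
      rw [A5a_mc_sum]
      refine (A5a_mc_mono _ _ fun c => hmf c σ).trans (A5a_mc_const hq1 _).le
    have h2 : ∑ v : Site d k, mc (fun c => LL a m (ya c f (v + sv σ))) =
        ∑ v : Site d k, mc (fun c => LL a m (ya c f v)) :=
      A5a_shift (sv σ) fun v => mc (fun c => LL a m (ya c f v))
    rw [h2]
    have h3 : C * ∑ v : Site d k, mc (fun c => LL a m (ya c f v)) ≤ κ / 4 * NN d k := by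
      calc C * ∑ v : Site d k, mc (fun c => LL a m (ya c f v)) ≤ C * (2 * δ' * NN d k) :=
            mul_le_mul_of_nonneg_left hLLs hC.le
        _ = C * (2 * δ') * NN d k := by ring
        _ ≤ κ / 4 * NN d k := mul_le_mul_of_nonneg_right hd2 hN
    nlinarith
  refine ⟨hfirst.trans (mul_le_mul_of_nonneg_right hκδ2 hN), fun c σ => ?_⟩
  have hals := als_bounds a m (by linarith) (by rw [abs_of_pos hm.1]; exact (mfe_lt a m hm).le)
  have hKa : ∀ x : ℝ, Real.exp (-a) ≤ x → 1 / x ≤ K := by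
    intro x hx
    have h0 : 0 < x := lt_of_lt_of_le (Real.exp_pos _) hx
    rw [div_le_iff₀ h0]
    calc (1 : ℝ) = Real.exp a * Real.exp (-a) := by rw [← Real.exp_add, add_neg_cancel, Real.exp_zero]
      _ ≤ K * x := mul_le_mul (Real.exp_le_exp.2 haA) hx (Real.exp_nonneg _) (by linarith)
  have hpt : ∀ v : Site d k, |ya c f v - Fy a m (ya c f (v + sv σ))| ≤
      K * |hh c f v - a * ya c f (v + sv σ)| + K ^ 2 * |al f v - als a m| := by
    intro v
    have hal := al_ge hq1 hf' v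
    have h1 := hKa _ hal
    have h2 := hKa _ hals.1
    have h3 : 0 < al f v := lt_of_lt_of_le (Real.exp_pos _) hal
    have h4 : 0 < als a m := als_pos a m
    have e1 : ya c f v - Fy a m (ya c f (v + sv σ)) =
        1 / al f v * (Real.exp (-hh c f v) - Real.exp (-(a * ya c f (v + sv σ)))) +
          Real.exp (-(a * ya c f (v + sv σ))) * (1 / al f v * (1 / als a m)) * (als a m - al f v) := by
      unfold ya Fy
      field_simp
      ring
    rw [e1]
    refine (abs_add_le _ _).trans (add_le_add ?_ ?_)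
    · rw [abs_mul, abs_of_pos (by positivity)]
      exact mul_le_mul h1 (hexp c v σ) (abs_nonneg _) (by linarith)
    · rw [abs_mul, abs_of_nonneg (by positivity), abs_sub_comm]
      refine mul_le_mul_of_nonneg_right ?_ (abs_nonneg _)
      have h5 : Real.exp (-(a * ya c f (v + sv σ))) ≤ 1 :=
        Real.exp_le_one_iff.2 (by have := mul_nonneg (by linarith : (0:ℝ) ≤ a) (hy0 c (v + sv σ)); linarith)
      have h6 : 1 / al f v * (1 / als a m) ≤ K * K := mul_le_mul h1 h2 (by positivity) (by linarith)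
      calc Real.exp (-(a * ya c f (v + sv σ))) * (1 / al f v * (1 / als a m))
          ≤ 1 * (K * K) := mul_le_mul h5 h6 (by positivity) zero_le_one
        _ = K ^ 2 := by ring
  refine (sum_le_sum fun v _ => hpt v).trans ?_
  rw [sum_add_distrib, ← mul_sum, ← mul_sum]
  have h1 := mul_le_mul_of_nonneg_left (hmf c σ) (by linarith : 0 ≤ K)
  have h2 := mul_le_mul_of_nonneg_left hfirst (by positivity : 0 ≤ K ^ 2)
  have h3 : K * (κ / 4 * NN d k) ≤ δ / 8 * NN d k := by
    have : K * (κ / 4 * NN d k) = K * κ / 4 * NN d k := by ring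
    rw [this]
    exact mul_le_mul_of_nonneg_right (by linarith) hN
  have h4 : K ^ 2 * (κ * NN d k) = δ / 2 * NN d k := by
    rw [← mul_assoc, hκδ]
  have h5 : 0 ≤ δ * NN d k := by positivity
  linarith

theorem pin_d3 {ε : ℝ} (hε : 0 < ε) (hε1 : ε ≤ 1) (δ : ℝ) (hδ : 0 < δ) : ∃ δ' : ℝ, 0 < δ' ∧
    EvT ε fun d k q => ∀ m yM : ℝ, MFE (ra d q) m → YM (ra d q) m yM → ∀ f ∈ prps d k q,
      (∀ (c : Fin q) (σ : Stp d), ∑ v : Site d k, |ya c f v - Fy (ra d q) m (ya c f (v + sv σ))| ≤ δ' * NN d k) →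
      ∀ c : Fin q, ∑ v : Site d k, dst3 m yM (ya c f v) ≤ δ * NN d k := by
  have ha1 := A5a_a1 hε hε1
  set K : ℝ := Real.exp (A0 ε) with hK
  have hA0 : 0 ≤ A0 ε := by unfold A0; positivity
  obtain ⟨C, hC, hest⟩ := est3 (a1 ε) (A0 ε) K ha1 (δ / 2) (by positivity)
  refine ⟨δ / (2 * (C * (1 + A0 ε * K))), by positivity, ?_⟩
  set δ' : ℝ := δ / (2 * (C * (1 + A0 ε * K))) with hδ'
  have hδ'' : C * ((1 + A0 ε * K) * δ') = δ / 2 := by
    have h0 : (0 : ℝ) < 1 + A0 ε * K := by positivity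
    rw [hδ']
    field_simp
  refine (EvT_reg hε hε1 1).mono ?_
  rintro d k q ⟨hd, hq, -, -, -, haa, haA, -⟩ m yM hm hM f hf hF c
  have hf' : Prp f := A5a_prp hf
  have hq1 : 1 ≤ q := by exact_mod_cast hq
  have hd1' : 1 ≤ d := by exact_mod_cast hd
  have hN := A5a_NN d k
  set a := ra d q with hadef
  have ha : 1 < a := lt_of_lt_of_le ha1 haa
  have hy0 : ∀ v, 0 ≤ ya c f v := fun v => (ya_bound hq1 hf' c v).1.le
  have hyK : ∀ v, ya c f v ≤ K := fun v => (ya_bound hq1 hf' c v).2.trans (Real.exp_le_exp.2 haA)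
  set i₀ : Fin d := ⟨0, hd1'⟩ with hi₀
  have hopp : (sv (i₀, true) : Site d k) + sv (i₀, false) = 0 := sv_opp i₀ true
  have hpt : ∀ v : Site d k, dst3 m yM (ya c f v) ≤ δ / 2 + C * (|ya c f v - Fy a m (ya c f (v + sv (i₀, true)))| +
      A0 ε * K * |ya c f (v + sv (i₀, true)) - Fy a m (ya c f (v + sv (i₀, true) + sv (i₀, false)))|) := by
    intro v
    refine (hest a m yM _ haa haA hm hM (hy0 v) (hyK v)).trans ?_
    refine add_le_add le_rfl (mul_le_mul_of_nonneg_left ?_ hC.le)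
    rw [add_assoc v, hopp, add_zero]
    have hl0 := Fy_lip a m (ya c f v) (ya c f v) ha hm (hy0 v) (hy0 v)
    have hl := (Fy_lip a m (ya c f (v + sv (i₀, true))) (Fy a m (ya c f v)) ha hm (hy0 _) hl0.2.1.le).1
    have e1 : ya c f v - Fy a m (Fy a m (ya c f v)) = (ya c f v - Fy a m (ya c f (v + sv (i₀, true)))) +
        (Fy a m (ya c f (v + sv (i₀, true))) - Fy a m (Fy a m (ya c f v))) := by ring
    rw [e1]
    refine (abs_add_le _ _).trans (add_le_add le_rfl (hl.trans ?_))
    refine mul_le_mul_of_nonneg_right ?_ (abs_nonneg _)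
    exact mul_le_mul haA (Real.exp_le_exp.2 haA) (Real.exp_nonneg _) hA0
  refine (sum_le_sum fun v _ => hpt v).trans ?_
  rw [sum_add_distrib, sum_const, nsmul_eq_mul, A5a_card, ← mul_sum, sum_add_distrib, ← mul_sum]
  have h1 := hF c (i₀, true)
  have h2 := hF c (i₀, false)
  have h3 : ∑ v : Site d k, |ya c f (v + sv (i₀, true)) - Fy a m (ya c f (v + sv (i₀, true) + sv (i₀, false)))| ≤
      δ' * NN d k := by
    refine le_trans (le_of_eq ?_) h2
    exact A5a_shift (sv (i₀, true)) fun v => |ya c f v - Fy a m (ya c f (v + sv (i₀, false)))|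
  have h4 : C * (∑ v : Site d k, |ya c f v - Fy a m (ya c f (v + sv (i₀, true)))| +
      A0 ε * K * ∑ v : Site d k, |ya c f (v + sv (i₀, true)) - Fy a m (ya c f (v + sv (i₀, true) + sv (i₀, false)))|) ≤
      C * (δ' * NN d k + A0 ε * K * (δ' * NN d k)) := by
    refine mul_le_mul_of_nonneg_left (add_le_add h1 (mul_le_mul_of_nonneg_left h3 ?_)) hC.le
    positivity
  have h5 : C * (δ' * NN d k + A0 ε * K * (δ' * NN d k)) = δ / 2 * NN d k := by
    rw [← hδ'']
    ring
  linarith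

end Pool.Agent.THR

end
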