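import Pool.Agent.Lib_MP_2c424f_m.M12
import Pool.Agent.Lib_MP_2c424f_m.M21

/-!
# MP_2c424f_pr, q_c grows linearly: merged library part M25

Concatenation of smaller files (each in its own section), only to save build time.
-/

namespace Pool.Agent.LO
end Pool.Agent.LO

namespace Pool.Agent.LIN
end Pool.Agent.LIN

namespace Pool.Agent.THR
end Pool.Agent.THR

namespace Pool.Agent.COR
end Pool.Agent.COR

/-! ### from `Lib_MP_2c424f_lc5.V08` -/

section

/-!
# Part V, V08: a small separating set (deterministic)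

`W = wn lv b₀ (b₀ + n)`.  Let `C` be the graph on `Λ` with edges `cf G Φ Ψ a b`, `a, b ∈ W` (`cf` is symmetric).  For `p ∈ W` let
`ψ p ≤ r` mean: there are a point `p₀ ∉ St` with `lv p₀ = b₀ + n` and a walk `w` of `C` from `p₀` to `p` with
`(w.support.toFinset ∩ A).card ≤ r` (one point walks are allowed).  Extending a walk by one step `a → b` adds at most 1, and
nothing if `b ∉ A`.
(i) if `lv p = b₀` then `ψ p ≥ m` (i.e. no such walk has fewer than `m` points in `A`): replace the walk by a path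
 (`Walk.bypass` / `toPath`, its support is contained in the old one); its length is at least `n` (levels change by at most 1
 per step); its first `n` steps (`getVert k`, `k ≤ n`) contradict `hSt`.
(ii) `X_r := {p ∈ A ∩ W : ψ p = r}`, `1 ≤ r ≤ m`: disjoint subsets of `A ∩ W`, so `|X_r| ≤ |A ∩ W| / m` for some `r`.
 `Del := St ∪ X_r` (only the points with `lv = b₀ + n` of `St` are needed).
(iii) `sp`: induction along the path.  Invariant of a point `p` of the path: `b₀ < lv p` and (`lv p ≤ b₀ + n → ψ p < r`).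
 Start: `lv p = h - 1 > b₀ + n`.  Step `a → b`, `b ∉ Del`: if `lv a > b₀ + n` and `lv b = b₀ + n`: `b ∉ St`, so `ψ b ≤ 1[b ∈ A] ≤ r`, and
 `ψ b = r` would give `b ∈ X_r`.  If `b₀ < lv a ≤ b₀ + n` and `lv b ≤ b₀ + n`: `b₀ ≤ lv b`, `ψ b ≤ ψ a + 1[b ∈ A] ≤ r` with equality
 only if `b ∈ A`, i.e. `b ∈ X_r`; so `ψ b < r ≤ m` and `lv b ≠ b₀` by (i).
 At the end `lv p' > b₀ ≥ 1`.
-/

set_option autoImplicit false

open Finset Filter

namespace Pool.Agent.LC

open Pool.Agent.LO Pool.Agent.LIN Pool.Agent.THR Pool.Agent.COR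

section
variable {Λ : Type} [DecidableEq Λ] {q : ℕ}

private lemma cf_symm_V08 {G : SimpleGraph Λ} {Φ Ψ : Λ → Fin q} {a b : Λ} (h : cf G Φ Ψ a b) :
    cf G Φ Ψ b a :=
  ⟨h.1.symm, h.2.elim (fun e => Or.inr e.symm) (fun e => Or.inl e.symm)⟩

/-- the conflict graph in the window -/
private def cgV08 (G : SimpleGraph Λ) (Φ Ψ : Λ → Fin q) (W : Finset Λ) : SimpleGraph Λ where
  Adj a b := cf G Φ Ψ a b ∧ a ∈ W ∧ b ∈ W
  symm := ⟨fun _ _ h => ⟨cf_symm_V08 h.1, h.2.2, h.2.1⟩⟩
  loopless := ⟨fun v h => G.loopless.irrefl v h.1.1⟩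

/-- `p` is reached from the level `t` by a walk with at most `r` points in `A` -/
private def RV08 (G : SimpleGraph Λ) (lv : Λ → ℕ) (Φ Ψ : Λ → Fin q) (W A St : Finset Λ) (t r : ℕ)
    (p : Λ) : Prop :=
  ∃ p₀, lv p₀ = t ∧ p₀ ∉ St ∧ p₀ ∈ W ∧
    ∃ w : (cgV08 G Φ Ψ W).Walk p₀ p, (w.support.toFinset ∩ A).card ≤ r

variable {G : SimpleGraph Λ} {lv : Λ → ℕ} {Φ Ψ : Λ → Fin q} {W A St : Finset Λ} {t r : ℕ}

private lemma mono_V08 {r' : ℕ} {p : Λ} (h : RV08 G lv Φ Ψ W A St t r p) (hr : r ≤ r') :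
    RV08 G lv Φ Ψ W A St t r' p := by
  obtain ⟨p₀, h1, h2, h3, w, hw⟩ := h
  exact ⟨p₀, h1, h2, h3, w, hw.trans hr⟩

private lemma start_V08 {p : Λ} (hp : lv p = t) (hS : p ∉ St) (hW : p ∈ W) :
    RV08 G lv Φ Ψ W A St t 1 p ∧ (p ∉ A → RV08 G lv Φ Ψ W A St t 0 p) := by
  refine ⟨⟨p, hp, hS, hW, SimpleGraph.Walk.nil, ?_⟩, fun hA => ⟨p, hp, hS, hW, SimpleGraph.Walk.nil, ?_⟩⟩
  · have h1 : ((SimpleGraph.Walk.nil : (cgV08 G Φ Ψ W).Walk p p).support.toFinset ∩ A) ⊆ {p} := by
      intro x hx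
      simpa using (Finset.mem_inter.mp hx).1
    exact (Finset.card_le_card h1).trans (by simp)
  · have h1 : ((SimpleGraph.Walk.nil : (cgV08 G Φ Ψ W).Walk p p).support.toFinset ∩ A) = ∅ := by
      ext x
      simp only [SimpleGraph.Walk.support_nil, List.toFinset_cons, List.toFinset_nil,
        Finset.mem_inter, Finset.mem_insert, Finset.notMem_empty, or_false, iff_false, not_and]
      rintro rfl
      exact hA
    rw [h1]
    simp

private lemma step_V08 {a b : Λ} (h : RV08 G lv Φ Ψ W A St t r a) (hc : cf G Φ Ψ a b) (ha : a ∈ W)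
    (hb : b ∈ W) :
    RV08 G lv Φ Ψ W A St t (r + 1) b ∧ (b ∉ A → RV08 G lv Φ Ψ W A St t r b) := by
  obtain ⟨p₀, h1, h2, h3, w, hw⟩ := h
  have hadj : (cgV08 G Φ Ψ W).Adj a b := ⟨hc, ha, hb⟩
  have hsup : (w.concat hadj).support.toFinset = insert b w.support.toFinset := by
    rw [SimpleGraph.Walk.support_concat]
    ext x
    simp [or_comm]
  refine ⟨⟨p₀, h1, h2, h3, w.concat hadj, ?_⟩, fun hA => ⟨p₀, h1, h2, h3, w.concat hadj, ?_⟩⟩
  · rw [hsup]
    have h4 : insert b w.support.toFinset ∩ A ⊆ insert b (w.support.toFinset ∩ A) := by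
      intro x hx
      rw [Finset.mem_inter, Finset.mem_insert] at hx
      rw [Finset.mem_insert, Finset.mem_inter]
      tauto
    exact (Finset.card_le_card h4).trans ((Finset.card_insert_le _ _).trans (by omega))
  · rw [hsup, Finset.insert_inter_of_notMem hA]
    exact hw

private lemma lvl_V08 (hlvl : ∀ p p', G.Adj p p' → lv p ≤ lv p' + 1) {a b : Λ}
    (w : (cgV08 G Φ Ψ W).Walk a b) : lv a ≤ lv b + w.length := by
  induction w with
  | nil => simp
  | cons h p ih =>
    have := hlvl _ _ h.1.1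
    rw [SimpleGraph.Walk.length_cons]
    omega

private lemma supp_V08 {a b : Λ} (w : (cgV08 G Φ Ψ W).Walk a b) (ha : a ∈ W) :
    ∀ x ∈ w.support, x ∈ W := by
  induction w with
  | nil =>
    intro x hx
    simp at hx
    rw [hx]
    exact ha
  | cons h p ih =>
    intro x hx
    rw [SimpleGraph.Walk.support_cons, List.mem_cons] at hx
    rcases hx with rfl | hx
    · exact ha
    · exact ih h.2.2 x hx

private lemma low_V08 (hlvl : ∀ p p', G.Adj p p' → lv p ≤ lv p' + 1) {b₀ n m : ℕ}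
    (hSt : ∀ p, lv p = b₀ + n → p ∉ St → ¬ CP G Φ Ψ W A n m p) {p : Λ} (hp : lv p = b₀)
    (hr : RV08 G lv Φ Ψ W A St (b₀ + n) r p) : m ≤ r := by
  by_contra hcon
  push Not at hcon
  obtain ⟨p₀, h1, h2, h3, w, hw⟩ := hr
  refine hSt p₀ h1 h2 ?_
  have hpath : w.bypass.IsPath := w.bypass_isPath
  have hlen : n ≤ w.bypass.length := by
    have := lvl_V08 hlvl w.bypass
    omega
  refine ⟨w.bypass.getVert, by simp, ?_, ?_, ?_, ?_⟩
  · intro k _
    exact supp_V08 w.bypass h3 _ (w.bypass.getVert_mem_support k)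
  · intro k hk
    exact (w.bypass.adj_getVert_succ (by omega : k < w.bypass.length)).1
  · intro k hk l hl hkl
    exact hpath.getVert_injOn (by simp; omega) (by simp; omega) hkl
  · refine lt_of_le_of_lt (Finset.card_le_card ?_) (lt_of_le_of_lt hw hcon)
    intro x hx
    rw [Finset.mem_inter, Finset.mem_image] at hx
    obtain ⟨⟨k, _, rfl⟩, hA⟩ := hx
    rw [Finset.mem_inter, List.mem_toFinset]
    exact ⟨w.support_bypass_subset_support (w.bypass.getVert_mem_support k), hA⟩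

end

open scoped Classical in
theorem exists_del {Λ : Type} [Fintype Λ] [DecidableEq Λ] {q h : ℕ} (G : SimpleGraph Λ) (lv : Λ → ℕ)
    (hlvl : ∀ p p', G.Adj p p' → lv p ≤ lv p' + 1) (Φ Ψ : Λ → Fin q) (A St : Finset Λ) (b₀ n m : ℕ) (hm : 1 ≤ m)
    (h1 : 1 ≤ b₀) (h2 : b₀ + n + 2 ≤ h)
    (hSt : ∀ p, lv p = b₀ + n → p ∉ St → ¬ CP G Φ Ψ (wn lv b₀ (b₀ + n)) A n m p) :
    ∃ Del ⊆ St ∪ (A ∩ wn lv b₀ (b₀ + n)), sp G lv h Φ Ψ Del ∧
      (Del.card : ℝ) ≤ St.card + ((A ∩ wn lv b₀ (b₀ + n)).card : ℝ) / m := by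
  have hmemW : ∀ p, p ∈ wn lv b₀ (b₀ + n) ↔ b₀ ≤ lv p ∧ lv p ≤ b₀ + n := by
    intro p
    simp [wn]
  set W := wn lv b₀ (b₀ + n) with hWdef
  set R : ℕ → Λ → Prop := fun r p => RV08 G lv Φ Ψ W A St (b₀ + n) r p with hR
  have hmono : ∀ {r r' : ℕ} {p : Λ}, R r p → r ≤ r' → R r' p := fun h hr => mono_V08 h hr
  have hlow : ∀ {r : ℕ} {p : Λ}, lv p = b₀ → R r p → m ≤ r := fun hp h => low_V08 hlvl hSt hp h
  set X : ℕ → Finset Λ := fun r => (A ∩ W).filter fun p => R (r + 1) p ∧ ¬ R r p with hX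
  -- a small level set
  have hdisj : ∀ r ∈ Finset.range m, ∀ r' ∈ Finset.range m, r ≠ r' → Disjoint (X r) (X r') := by
    have key : ∀ r r' : ℕ, r < r' → Disjoint (X r) (X r') := by
      intro r r' hlt
      rw [Finset.disjoint_left]
      intro p hp hp'
      rw [hX, Finset.mem_filter] at hp hp'
      exact hp'.2.2 (hmono hp.2.1 (by omega))
    intro r _ r' _ hne
    rcases lt_or_gt_of_ne hne with h | h
    · exact key r r' h
    · exact (key r' r h).symm
  have hsum : ∑ r ∈ Finset.range m, (X r).card ≤ (A ∩ W).card := by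
    rw [← Finset.card_biUnion hdisj]
    refine Finset.card_le_card ?_
    intro p hp
    rw [Finset.mem_biUnion] at hp
    obtain ⟨r, _, hr⟩ := hp
    exact (Finset.mem_filter.mp hr).1
  obtain ⟨r, hrm, hrX⟩ : ∃ r ∈ Finset.range m, (X r).card * m ≤ (A ∩ W).card := by
    by_contra hcon
    push Not at hcon
    have h3 : ∑ r ∈ Finset.range m, (A ∩ W).card < ∑ r ∈ Finset.range m, (X r).card * m := by
      refine Finset.sum_lt_sum_of_nonempty ?_ fun r hr => hcon r hr
      exact ⟨0, Finset.mem_range.mpr (by omega)⟩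
    rw [← Finset.sum_mul, Finset.sum_const, Finset.card_range, smul_eq_mul, mul_comm] at h3
    have h4 : (∑ r ∈ Finset.range m, (X r).card) * m ≤ (A ∩ W).card * m :=
      Nat.mul_le_mul_right m hsum
    omega
  rw [Finset.mem_range] at hrm
  refine ⟨St ∪ X r, ?_, ?_, ?_⟩
  · exact Finset.union_subset_union (Finset.Subset.refl _) (Finset.filter_subset _ _)
  · -- no crossing
    have inv : ∀ p p', lv p + 1 = h → p ∉ St ∪ X r →
        Relation.ReflTransGen (fun a b => cf G Φ Ψ a b ∧ b ∉ St ∪ X r) p p' →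
        b₀ < lv p' ∧ (lv p' ≤ b₀ + n → R r p') := by
      intro p p' hp _ hpath
      induction hpath with
      | refl => exact ⟨by omega, fun h => by omega⟩
      | @tail a b _ hab ih =>
        obtain ⟨hcf, hbD⟩ := hab
        rw [Finset.mem_union, not_or] at hbD
        obtain ⟨hbS, hbX⟩ := hbD
        have hl1 := hlvl a b hcf.1
        have hl2 := hlvl b a hcf.1.symm
        by_cases hb : lv b ≤ b₀ + n
        · -- the claim for `b`
          have hRb : b₀ ≤ lv b ∧ R r b := by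
            by_cases ha : lv a ≤ b₀ + n
            · have hbl : b₀ ≤ lv b := by
                have := ih.1
                omega
              have haW : a ∈ W := (hmemW a).mpr ⟨le_of_lt ih.1, ha⟩
              have hbW : b ∈ W := (hmemW b).mpr ⟨hbl, hb⟩
              have hst := step_V08 (ih.2 ha) hcf haW hbW
              refine ⟨hbl, ?_⟩
              by_cases hbA : b ∈ A
              · by_contra hcon
                exact hbX (Finset.mem_filter.mpr ⟨Finset.mem_inter.mpr ⟨hbA, hbW⟩, hst.1, hcon⟩)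
              · exact hst.2 hbA
            · have hbe : lv b = b₀ + n := by omega
              have hbW : b ∈ W := (hmemW b).mpr ⟨by omega, hb⟩
              have hst := start_V08 (G := G) (Φ := Φ) (Ψ := Ψ) (A := A) (lv := lv) hbe hbS hbW
              refine ⟨by omega, ?_⟩
              by_cases hbA : b ∈ A
              · by_contra hcon
                exact hbX (Finset.mem_filter.mpr ⟨Finset.mem_inter.mpr ⟨hbA, hbW⟩,
                  hmono hst.1 (by omega), hcon⟩)
              · exact hmono (hst.2 hbA) (by omega)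
          refine ⟨?_, fun _ => hRb.2⟩
          rcases eq_or_lt_of_le hRb.1 with h5 | h5
          · have := hlow h5.symm hRb.2
            omega
          · exact h5
        · exact ⟨by omega, fun h => absurd h hb⟩
    intro p p' hp hpD hpath
    have := (inv p p' hp hpD hpath).1
    omega
  · have h1 : ((St ∪ X r).card : ℝ) ≤ St.card + (X r).card := by
      exact_mod_cast Finset.card_union_le _ _
    have h2 : ((X r).card : ℝ) ≤ ((A ∩ W).card : ℝ) / m := by
      have hm0 : (0 : ℝ) < m := by exact_mod_cast (by omega : 0 < m)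
      rw [le_div_iff₀ hm0]
      exact_mod_cast hrX
    linarith

end Pool.Agent.LC

end

/-! ### from `Lib_MP_2c424f_lc1.A4` -/

section

/-!
# LC1 A4: block statistics for both parities

The same proofs as THR B3a, B3b (`blk_bq`), B3c (`blk_zz`) with `eS` instead of `oS` (`cls true` instead of `cls false`); for `e = false`
`Mp false s t φ = Ms s t φ` (definition) and the statements are `blk_bq`, `blk_zz`.  `#eS = #oS` (flip one bit not fixed by the shape, `d ≥ 2`).
-/

set_option autoImplicit false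

open Finset Filter

namespace Pool.Agent.LC

open Pool.Agent.LO Pool.Agent.LIN Pool.Agent.THR Pool.Agent.COR


section A4a
variable {d k : ℕ}



open scoped Classical in
private noncomputable def A4a_ok (s : Shp d) : Finset (Bt d) :=
  univ.filter fun b => ∀ j β, s = some (j, β) → b j = β

private theorem A4a_ok_card (s : Shp d) : ((A4a_ok s).card : ℝ) = if s = none then (2 : ℝ) ^ d else (2 : ℝ) ^ (d - 1) := by
  classical
  cases s with
  | none =>
    rw [if_pos rfl]
    have : A4a_ok (none : Shp d) = univ := by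
      unfold A4a_ok
      ext b
      simp
    rw [this, Finset.card_univ, Fintype.card_fun, Fintype.card_bool, Fintype.card_fin]
    push_cast
    rfl
  | some jb =>
    obtain ⟨j, β⟩ := jb
    rw [if_neg (by simp)]
    have h1 : A4a_ok (some (j, β) : Shp d) = Fintype.piFinset (fun i => if i = j then ({β} : Finset Bool) else univ) := by
      unfold A4a_ok
      ext b
      simp only [mem_filter, mem_univ, true_and, Option.some.injEq, Prod.mk.injEq, Fintype.mem_piFinset]
      constructor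
      · intro h i
        by_cases hi : i = j
        · subst hi
          rw [if_pos rfl, mem_singleton]
          exact h i β ⟨rfl, rfl⟩
        · rw [if_neg hi]
          exact mem_univ _
      · rintro h j' β' ⟨h1, h2⟩
        subst h1 h2
        have := h j
        rw [if_pos rfl, mem_singleton] at this
        exact this
    rw [h1, Fintype.card_piFinset]
    have h2 : ∀ i : Fin d, (if i = j then ({β} : Finset Bool) else univ).card = if i = j then 1 else 2 := by
      intro i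
      by_cases hi : i = j
      · rw [if_pos hi, if_pos hi, card_singleton]
      · rw [if_neg hi, if_neg hi, Finset.card_univ, Fintype.card_bool]
    rw [Finset.prod_congr rfl fun i _ => h2 i, Finset.prod_ite, Finset.prod_const_one, one_mul, Finset.prod_const]
    have h3 : (univ.filter fun i : Fin d => ¬ i = j).card = d - 1 := by
      rw [Finset.filter_not, Finset.card_sdiff_of_subset (Finset.filter_subset _ _), Finset.card_univ, Fintype.card_fin]
      congr 1
      rw [Finset.card_eq_one]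
      exact ⟨j, by ext i; simp⟩
    rw [h3]
    push_cast
    rfl

private theorem A4a_mem_ok {s : Shp d} {a b : Bt d} (h : inS s a b) : b ∈ A4a_ok s := by
  classical
  unfold A4a_ok
  rw [mem_filter]
  refine ⟨mem_univ _, ?_⟩
  rintro j β rfl
  exact h.2


open scoped Classical in
private theorem A4_card_in (s : Shp d) : ((univ.filter fun p : Bt d × Bt d => inS s p.1 p.2).card : ℝ) =
    if s = none then (4 : ℝ) ^ d else (4 : ℝ) ^ (d - 1) := by
  classical
  have h1 : (univ.filter fun p : Bt d × Bt d => inS s p.1 p.2) = A4a_ok s ×ˢ A4a_ok s := by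
    ext ⟨a, b⟩
    unfold A4a_ok
    rw [mem_filter, mem_product, mem_filter, mem_filter]
    simp only [mem_univ, true_and]
    cases s with
    | none => simp [inS]
    | some jb =>
      obtain ⟨j, β⟩ := jb
      simp only [inS, Option.some.injEq, Prod.mk.injEq]
      constructor
      · rintro ⟨h1, h2⟩
        exact ⟨fun j' β' h => by obtain ⟨h3, h4⟩ := h; subst h3 h4; exact h1,
          fun j' β' h => by obtain ⟨h3, h4⟩ := h; subst h3 h4; exact h2⟩
      · rintro ⟨h1, h2⟩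
        exact ⟨h1 j β ⟨rfl, rfl⟩, h2 j β ⟨rfl, rfl⟩⟩
  rw [h1, card_product]
  push_cast
  rw [A4a_ok_card]
  split_ifs
  · rw [← mul_pow]; norm_num
  · rw [← mul_pow]; norm_num

theorem pS_card {d : ℕ} (hd : 2 ≤ d) (e : Bool) (s : Shp d) :
    ((pS e s : Finset (Bt d × Bt d)).card : ℝ) = if s = none then (4 : ℝ) ^ d / 2 else (4 : ℝ) ^ (d - 1) / 2 := by
  classical
  unfold pS
  cases e with
  | false =>
    simp only [Bool.false_eq_true, if_false]
    exact oS_card hd s
  | true =>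
    simp only [if_true]
    have h1 : (eS s).card + (oS s).card = (univ.filter fun p : Bt d × Bt d => inS s p.1 p.2).card := by
      unfold eS oS
      rw [← card_union_of_disjoint]
      · congr 1
        ext p
        simp only [mem_union, mem_filter, mem_univ, true_and]
        tauto
      · rw [disjoint_left]
        intro p hp hp'
        exact (mem_filter.1 hp).2.1 (mem_filter.1 hp').2.1
    have h2 : ((eS s).card : ℝ) + ((oS s).card : ℝ) =
        ((univ.filter fun p : Bt d × Bt d => inS s p.1 p.2).card : ℝ) := by exact_mod_cast h1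
    rw [A4_card_in, oS_card hd s] at h2
    split_ifs at h2 ⊢ <;> linarith

private theorem A4_mem_pS {eb : Bool} {s : Shp d} {p : Bt d × Bt d} (h : p ∈ pS eb s) :
    inS s p.1 p.2 ∧ (eb = true ↔ ¬ od p.1 p.2) := by
  classical
  unfold pS at h
  cases eb with
  | false =>
    simp only [Bool.false_eq_true, if_false] at h
    unfold oS at h
    have h1 := (mem_filter.1 h).2
    exact ⟨h1.2, by simp [h1.1]⟩
  | true =>
    simp only [if_true] at h
    unfold eS at h
    have h1 := (mem_filter.1 h).2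
    exact ⟨h1.2, by simp [h1.1]⟩

private theorem A4a_ratio (hd : 2 ≤ d) (eb : Bool) (s : Shp d) : ((A4a_ok s).card : ℝ) / ((pS eb s : Finset (Bt d × Bt d)).card : ℝ) ≤ 4 / 2 ^ d := by
  rw [A4a_ok_card, pS_card hd eb s]
  by_cases hs : s = none
  · rw [if_pos hs, if_pos hs]
    have h4 : (4 : ℝ) ^ d = 2 ^ d * 2 ^ d := by rw [← mul_pow]; norm_num
    rw [h4, div_le_div_iff₀ (by positivity) (by positivity)]
    have : (0:ℝ) < 2 ^ d := by positivity
    nlinarith
  · rw [if_neg hs, if_neg hs]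
    have h4 : (4 : ℝ) ^ (d - 1) = 2 ^ (d - 1) * 2 ^ (d - 1) := by rw [← mul_pow]; norm_num
    have h5 : (2 : ℝ) ^ d = 2 * 2 ^ (d - 1) := by
      rw [← pow_succ']
      congr 1
      omega
    rw [h4, h5, div_le_div_iff₀ (by positivity) (by positivity)]
    have : (0:ℝ) < 2 ^ (d - 1) := by positivity
    nlinarith

open scoped Classical in
/-- weight of a site in the block mean -/
private noncomputable def A4_W (eb : Bool) (s : Shp d) (t : Blk d k) (x : Site d (k + 1)) : ℝ :=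
  (((pS eb s).filter fun p => pt t p.1 p.2 = x).card : ℝ) / ((pS eb s).card : ℝ)

private theorem A4_card_pos (hd : 2 ≤ d) (eb : Bool) (s : Shp d) : (0 : ℝ) < ((pS eb s : Finset (Bt d × Bt d)).card : ℝ) := by
  rw [pS_card hd eb s]
  split_ifs <;> positivity

private theorem A4_Mp_const (hd : 2 ≤ d) (eb : Bool) (s : Shp d) (t : Blk d k) (c : ℝ) : Mp eb s t (fun _ => c) = c := by
  unfold Mp
  rw [Finset.sum_const, nsmul_eq_mul, mul_comm, mul_div_assoc, div_self (A4_card_pos hd eb s).ne', mul_one]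

private theorem A4a_bv_inj : Function.Injective (bv : Bt d → Site d (k + 1)) := by
  intro a a' h
  funext i
  have h1 := congrFun h i
  unfold bv at h1
  have h2 : (1 : ZMod (2 ^ (k + 1))) ≠ 0 := by
    have : Fact (1 < 2 ^ (k + 1)) := ⟨Nat.one_lt_two_pow (by omega)⟩
    exact one_ne_zero
  cases ha : a i <;> cases ha' : a' i <;> simp only [ha, ha', if_true, Bool.false_eq_true, if_false] at h1 ⊢
  · exact absurd h1.symm h2
  · exact absurd h1 h2

private theorem A4a_pt_inj (t : Blk d k) (a a' b : Bt d) (h : pt t a b = pt t a' b) : a = a' := by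
  unfold pt at h
  have h1 : bas t + bv a = bas t + bv a' := add_right_cancel h
  exact A4a_bv_inj (add_left_cancel h1)

private theorem A4_W_nonneg (eb : Bool) (s : Shp d) (t : Blk d k) (x : Site d (k + 1)) : 0 ≤ A4_W eb s t x := by
  unfold A4_W
  positivity

private theorem A4_W_repr (eb : Bool) (s : Shp d) (t : Blk d k) (φ : Site d (k + 1) → ℝ) : Mp eb s t φ = ∑ x, A4_W eb s t x * φ x := by
  classical
  unfold Mp A4_W
  have h1 : ∑ p ∈ pS eb s, φ (pt t p.1 p.2) =
      ∑ x : Site d (k + 1), (((pS eb s).filter fun p => pt t p.1 p.2 = x).card : ℝ) * φ x := by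
    rw [← Finset.sum_fiberwise (pS eb s) (fun p => pt t p.1 p.2)]
    refine Finset.sum_congr rfl fun x _ => ?_
    rw [Finset.sum_congr rfl (fun p hp => by rw [(Finset.mem_filter.1 hp).2] : ∀ p ∈ (pS eb s).filter
      (fun p => pt t p.1 p.2 = x), φ (pt t p.1 p.2) = φ x)]
    rw [Finset.sum_const, nsmul_eq_mul]
  rw [h1, Finset.sum_div]
  refine Finset.sum_congr rfl fun x _ => ?_
  rw [div_mul_eq_mul_div]

private theorem A4_W_one (hd : 2 ≤ d) (eb : Bool) (s : Shp d) (t : Blk d k) : ∑ x, A4_W eb s t x = 1 := by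
  have h := A4_W_repr eb s t (fun _ : Site d (k + 1) => (1 : ℝ))
  rw [A4_Mp_const hd eb s t] at h
  simp only [mul_one] at h
  exact h.symm

private theorem A4_W_max (hd : 2 ≤ d) (eb : Bool) (s : Shp d) (t : Blk d k) (x : Site d (k + 1)) : A4_W eb s t x ≤ 4 / 2 ^ d := by
  classical
  unfold A4_W
  refine le_trans ?_ (A4a_ratio hd eb s)
  refine div_le_div_of_nonneg_right ?_ (Nat.cast_nonneg _)
  have h : ((pS eb s).filter fun p => pt t p.1 p.2 = x).card ≤ (A4a_ok s).card := by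
    refine Finset.card_le_card_of_injOn (fun p => p.2) ?_ ?_
    · intro p hp
      have hp' := Finset.mem_filter.1 (Finset.mem_coe.1 hp)
      exact A4a_mem_ok (A4_mem_pS hp'.1).1
    · rintro ⟨a, b⟩ hp ⟨a', b'⟩ hp' hb
      have h1 := (Finset.mem_filter.1 (Finset.mem_coe.1 hp)).2
      have h2 := (Finset.mem_filter.1 (Finset.mem_coe.1 hp')).2
      simp only at hb h1 h2
      subst hb
      rw [A4a_pt_inj t a a' b (h1.trans h2.symm)]
  exact_mod_cast h

private theorem A4_W_sum (hd : 2 ≤ d) (eb : Bool) (s : Shp d) (x : Site d (k + 1)) : ∑ t : Blk d k, A4_W eb s t x ≤ 4 / 2 ^ d := by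
  classical
  unfold A4_W
  rw [← Finset.sum_div]
  refine le_trans ?_ (A4a_ratio hd eb s)
  refine div_le_div_of_nonneg_right ?_ (Nat.cast_nonneg _)
  have h := sum_pt (d := d) (k := k) (fun y b => if y = x ∧ b ∈ A4a_ok s then (1:ℝ) else 0)
  have hR : ∑ y : Site d (k + 1), ∑ b : Bt d, (if y = x ∧ b ∈ A4a_ok s then (1:ℝ) else 0) = (A4a_ok s).card := by
    rw [Finset.sum_eq_single x]
    · simp only [true_and]
      rw [← Finset.sum_filter, Finset.filter_univ_mem, Finset.sum_const, nsmul_eq_mul, mul_one]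
    · intro y _ hy
      refine Finset.sum_eq_zero fun b _ => ?_
      rw [if_neg]
      rintro ⟨h1, _⟩
      exact hy h1
    · intro hx
      exact absurd (mem_univ _) hx
  rw [← hR, ← h]
  refine Finset.sum_le_sum fun t _ => ?_
  rw [Finset.card_filter]
  push_cast
  have hsub : ∀ p ∈ pS eb s, (if pt t p.1 p.2 = x then (1:ℝ) else 0) ≤
      (if pt t p.1 p.2 = x ∧ p.2 ∈ A4a_ok s then (1:ℝ) else 0) := by
    intro p hp
    have h2 : p.2 ∈ A4a_ok s := A4a_mem_ok (A4_mem_pS hp).1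
    by_cases h3 : pt t p.1 p.2 = x
    · rw [if_pos h3, if_pos ⟨h3, h2⟩]
    · rw [if_neg h3]
      positivity
  refine (Finset.sum_le_sum hsub).trans ?_
  have h4 : ∑ p : Bt d × Bt d, (if pt t p.1 p.2 = x ∧ p.2 ∈ A4a_ok s then (1:ℝ) else 0) =
      ∑ a : Bt d, ∑ b : Bt d, (if pt t a b = x ∧ b ∈ A4a_ok s then (1:ℝ) else 0) := by
    rw [← Finset.univ_product_univ, Finset.sum_product]
  rw [← h4]
  exact Finset.sum_le_sum_of_subset_of_nonneg (Finset.subset_univ _) fun p _ _ => by positivity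

private theorem A4_W_par (eb : Bool) (s : Shp d) (t : Blk d k) (x : Site d (k + 1)) (hx : x ∉ cls eb d (k + 1)) :
    A4_W eb s t x = 0 := by
  classical
  unfold A4_W
  have h1 : ((pS eb s).filter fun p => pt t p.1 p.2 = x) = ∅ := by
    rw [Finset.filter_eq_empty_iff]
    intro p hp hpx
    apply hx
    have hod := (A4_mem_pS hp).2
    rw [← hpx]
    unfold cls
    cases eb with
    | false =>
      rw [if_neg (by simp)]
      unfold ods
      rw [mem_filter]
      refine ⟨mem_univ _, ?_⟩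
      rw [evn_pt]
      simpa using hod
    | true =>
      rw [if_pos rfl]
      unfold evs
      rw [mem_filter]
      refine ⟨mem_univ _, ?_⟩
      rw [evn_pt]
      exact hod.1 rfl
  rw [h1]
  simp


end A4a


section A4b
variable {d k q : ℕ}

/-- the fluctuation of the block density -/
private noncomputable def A4bF (eb : Bool) (s : Shp d) (t : Blk d k) (c : Fin q) (f : Site d (k + 1) → Fin q) : ℝ :=
  Mp eb s t fun x => bq c f x - gg c f x

private theorem A4b_gg (eb : Bool) {f h : Site d (k + 1) → Fin q} (hh : h ∈ fib eb f) (x : Site d (k + 1))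
    (hx : x ∈ cls eb d (k + 1)) (c : Fin q) : gg c h x = gg c f x := by
  have h1 : SS h x = SS f x := fib_SS (by omega) eb hh x hx
  unfold THR.gg zz av
  rw [h1]

private theorem A4b_upd (eb : Bool) {f h : Site d (k + 1) → Fin q} (hh : h ∈ fib eb f) (v : Site d (k + 1))
    (hv : v ∈ cls eb d (k + 1)) (γ : Fin q) (hγ : γ ∉ SS f v) : Function.update h v γ ∈ fib eb f := by
  classical
  unfold fib at hh ⊢
  rw [Fintype.mem_piFinset] at hh ⊢
  intro x
  by_cases hx : x = v
  · subst hx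
    rw [Function.update_self, if_pos hv]
    exact mem_compl.2 hγ
  · rw [Function.update_of_ne hx]
    exact hh x

private theorem A4b_bq0 (c : Fin q) (f : Site d (k + 1) → Fin q) (x : Site d (k + 1)) :
    0 ≤ bq c f x ∧ bq c f x ≤ q := by
  unfold bq
  have h0 : (0 : ℝ) ≤ q := Nat.cast_nonneg q
  split_ifs
  · exact ⟨h0, le_rfl⟩
  · exact ⟨le_rfl, h0⟩

private theorem A4b_gg0 (c : Fin q) {f : Site d (k + 1) → Fin q} (hf : Prp f) (x : Site d (k + 1)) :
    0 ≤ gg c f x ∧ gg c f x ≤ q := by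
  have h1 : gg c f x = q * (zz f x c / (av f x : ℝ)) := by
    unfold THR.gg
    rw [mul_div_assoc]
  have h0 : (0 : ℝ) ≤ q := Nat.cast_nonneg q
  obtain ⟨h2, h3⟩ := zz_av_le hf x c
  rw [h1]
  exact ⟨mul_nonneg h0 h2, mul_le_of_le_one_right h0 h3⟩

/-- on the fibre -/
private theorem A4b_repr (eb : Bool) (s : Shp d) (t : Blk d k) (c : Fin q) {f h : Site d (k + 1) → Fin q}
    (hh : h ∈ fib eb f) :
    A4bF eb s t c h = ∑ x ∈ cls eb d (k + 1), A4_W eb s t x * (bq c h x - gg c f x) := by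
  classical
  unfold A4bF
  rw [A4_W_repr eb]
  have h1 : ∑ x ∈ cls eb d (k + 1), A4_W eb s t x * (bq c h x - gg c f x) =
      ∑ x ∈ cls eb d (k + 1), A4_W eb s t x * (bq c h x - gg c h x) := by
    refine sum_congr rfl fun x hx => ?_
    rw [A4b_gg eb hh x hx c]
  rw [h1]
  refine (sum_subset (subset_univ _) fun x _ hx => ?_).symm
  rw [A4_W_par eb s t x hx, zero_mul]

private theorem A4b_abs (eb : Bool) (hd : 2 ≤ d) (s : Shp d) (t : Blk d k) (c : Fin q) {f h : Site d (k + 1) → Fin q}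
    (hf : Prp f) (hh : h ∈ fib eb f) : |A4bF eb s t c h| ≤ q := by
  rw [A4b_repr eb s t c hh]
  refine (abs_sum_le_sum_abs _ _).trans ?_
  have h1 : ∀ x ∈ cls eb d (k + 1), |A4_W eb s t x * (bq c h x - gg c f x)| ≤ A4_W eb s t x * q := by
    intro x _
    rw [abs_mul, abs_of_nonneg (A4_W_nonneg eb s t x)]
    refine mul_le_mul_of_nonneg_left ?_ (A4_W_nonneg eb s t x)
    obtain ⟨a1, a2⟩ := A4b_bq0 c h x
    obtain ⟨a3, a4⟩ := A4b_gg0 c hf x
    rw [abs_le]
    constructor <;> linarith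
  refine (sum_le_sum h1).trans ?_
  rw [← sum_mul]
  have h2 : ∑ x ∈ cls eb d (k + 1), A4_W eb s t x ≤ 1 := by
    rw [← A4_W_one hd eb s t]
    exact sum_le_sum_of_subset_of_nonneg (subset_univ _) fun x _ _ => A4_W_nonneg eb s t x
  exact mul_le_of_le_one_left (Nat.cast_nonneg q) h2

private theorem A4b_diff (eb : Bool) (s : Shp d) (t : Blk d k) (c : Fin q) {f h : Site d (k + 1) → Fin q}
    (hh : h ∈ fib eb f) (v : Site d (k + 1)) (hv : v ∈ cls eb d (k + 1)) (γ : Fin q) (hγ : γ ∉ SS f v) :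
    |A4bF eb s t c (Function.update h v γ) - A4bF eb s t c h| ≤ q * A4_W eb s t v := by
  classical
  rw [A4b_repr eb s t c (A4b_upd eb hh v hv γ hγ), A4b_repr eb s t c hh, ← sum_sub_distrib]
  have h1 : ∑ x ∈ cls eb d (k + 1), (A4_W eb s t x * (bq c (Function.update h v γ) x - gg c f x) -
      A4_W eb s t x * (bq c h x - gg c f x)) = A4_W eb s t v * (bq c (Function.update h v γ) v - bq c h v) := by
    rw [sum_eq_single_of_mem v hv]
    · ring
    · intro x _ hx
      have h2 : bq c (Function.update h v γ) x = bq c h x := by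
        unfold bq
        rw [Function.update_of_ne hx]
      rw [h2, sub_self]
  rw [h1, abs_mul, abs_of_nonneg (A4_W_nonneg eb s t v), mul_comm]
  refine mul_le_mul_of_nonneg_right ?_ (A4_W_nonneg eb s t v)
  obtain ⟨a1, a2⟩ := A4b_bq0 c h v
  obtain ⟨a3, a4⟩ := A4b_bq0 c (Function.update h v γ) v
  rw [abs_le]
  constructor <;> linarith

/-- the mean is zero -/
private theorem A4b_mean (eb : Bool) (s : Shp d) (t : Blk d k) (c : Fin q) {f : Site d (k + 1) → Fin q} (hf : Prp f) :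
    fm eb (A4bF eb s t c) f = 0 := by
  classical
  have h1 : fm eb (A4bF eb s t c) f =
      fm eb (fun h => ∑ x ∈ cls eb d (k + 1), A4_W eb s t x * (bq c h x - gg c f x)) f :=
    fm_congr eb fun h hh => A4b_repr eb s t c hh
  rw [h1, fm_sum]
  refine sum_eq_zero fun x hx => ?_
  rw [fm_mul, fm_sub, fm_const eb hf]
  have h2 : fm eb (fun h => bq c h x) f = q * (zz f x c / (av f x : ℝ)) := by
    rw [← fm_ind (by omega) eb hf x hx c, ← fm_mul]
    refine fm_congr eb fun h _ => ?_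
    unfold bq
    split_ifs <;> simp
  rw [h2]
  unfold THR.gg
  rw [mul_div_assoc, sub_self, mul_zero]

/-- the variance -/
private theorem A4b_var (eb : Bool) (hd : 2 ≤ d) (hk : 1 ≤ k) (s : Shp d) (t : Blk d k) (c : Fin q)
    {f : Site d (k + 1) → Fin q} (hf : Prp f) :
    fm eb (fun h => A4bF eb s t c h ^ 2) f ≤ 16 * (q : ℝ) ^ 2 / 2 ^ d := by
  classical
  have h1 := fm_var (k := k + 1) (by omega) eb hf (A4bF eb s t c) (fun v => q * A4_W eb s t v)
    (fun v => mul_nonneg (Nat.cast_nonneg q) (A4_W_nonneg eb s t v))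
    (fun h hh v hv γ hγ => A4b_diff eb s t c hh v hv γ hγ)
  rw [A4b_mean eb s t c hf] at h1
  simp only [sub_zero] at h1
  refine h1.trans ?_
  have h2 : ∀ v ∈ cls eb d (k + 1), ((q : ℝ) * A4_W eb s t v) ^ 2 ≤ (q : ℝ) ^ 2 * (4 / 2 ^ d) * A4_W eb s t v := by
    intro v _
    have h3 := A4_W_max hd eb s t v
    have h4 := A4_W_nonneg eb s t v
    have h5 : ((q : ℝ) * A4_W eb s t v) ^ 2 = (q : ℝ) ^ 2 * (A4_W eb s t v * A4_W eb s t v) := by ring
    rw [h5, mul_assoc]
    refine mul_le_mul_of_nonneg_left ?_ (by positivity)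
    exact mul_le_mul_of_nonneg_right h3 h4
  have h6 : ∑ x ∈ cls eb d (k + 1), A4_W eb s t x ≤ 1 := by
    rw [← A4_W_one hd eb s t]
    exact sum_le_sum_of_subset_of_nonneg (subset_univ _) fun x _ _ => A4_W_nonneg eb s t x
  have h7 : ∑ v ∈ cls eb d (k + 1), ((q : ℝ) * A4_W eb s t v) ^ 2 ≤ (q : ℝ) ^ 2 * (4 / 2 ^ d) := by
    refine (sum_le_sum h2).trans ?_
    rw [← mul_sum]
    exact mul_le_of_le_one_right (by positivity) h6
  calc 4 * ∑ v ∈ cls eb d (k + 1), ((q : ℝ) * A4_W eb s t v) ^ 2 ≤ 4 * ((q : ℝ) ^ 2 * (4 / 2 ^ d)) := by linarith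
    _ = 16 * (q : ℝ) ^ 2 / 2 ^ d := by ring

/-- the functional -/
private noncomputable def A4bPsi (eb : Bool) (i : Fin q × Shp d) (f : Site d (k + 1) → Fin q) : ℝ :=
  ∑ t : Blk d k, A4bF eb i.2 t i.1 f ^ 2

private theorem A4b_fm (eb : Bool) (hd : 2 ≤ d) (hk : 1 ≤ k) (i : Fin q × Shp d) {f : Site d (k + 1) → Fin q} (hf : Prp f) :
    fm eb (A4bPsi eb i) f ≤ NN d k * (16 * (q : ℝ) ^ 2 / 2 ^ d) := by
  have h1 : fm eb (A4bPsi eb i) f = ∑ t : Blk d k, fm eb (fun h => A4bF eb i.2 t i.1 h ^ 2) f := by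
    unfold A4bPsi
    exact fm_sum eb f univ fun (t : Blk d k) h => A4bF eb i.2 t i.1 h ^ 2
  rw [h1]
  refine (sum_le_sum fun t _ => A4b_var eb hd hk i.2 t i.1 hf).trans ?_
  rw [sum_const, card_univ, nsmul_eq_mul, card_Blk]

private theorem A4b_lip (eb : Bool) (hd : 2 ≤ d) (i : Fin q × Shp d) (κ : ℝ) (hκ : 8 * (q : ℝ) ^ 2 / 2 ^ d ≤ κ) :
    Lip eb κ (A4bPsi (k := k) eb i) := by
  classical
  intro f hf h hh v hv γ hγ
  have hfP : Prp f := (mem_filter.1 hf).2
  have hh' := A4b_upd eb hh v hv γ hγ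
  have hq0 : (0 : ℝ) ≤ q := Nat.cast_nonneg q
  unfold A4bPsi
  rw [← sum_sub_distrib]
  refine (abs_sum_le_sum_abs _ _).trans ?_
  have h1 : ∀ t ∈ (univ : Finset (Blk d k)),
      |A4bF eb i.2 t i.1 (Function.update h v γ) ^ 2 - A4bF eb i.2 t i.1 h ^ 2| ≤ 2 * (q : ℝ) ^ 2 * A4_W eb i.2 t v := by
    intro t _
    have h2 := A4b_diff eb i.2 t i.1 hh v hv γ hγ
    have h3 := A4b_abs eb hd i.2 t i.1 hfP hh'
    have h4 := A4b_abs eb hd i.2 t i.1 hfP hh
    have h5 : A4bF eb i.2 t i.1 (Function.update h v γ) ^ 2 - A4bF eb i.2 t i.1 h ^ 2 =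
        (A4bF eb i.2 t i.1 (Function.update h v γ) - A4bF eb i.2 t i.1 h) *
          (A4bF eb i.2 t i.1 (Function.update h v γ) + A4bF eb i.2 t i.1 h) := by ring
    rw [h5, abs_mul]
    have h6 : |A4bF eb i.2 t i.1 (Function.update h v γ) + A4bF eb i.2 t i.1 h| ≤ 2 * q := by
      refine (abs_add_le _ _).trans ?_
      linarith
    calc |A4bF eb i.2 t i.1 (Function.update h v γ) - A4bF eb i.2 t i.1 h| *
          |A4bF eb i.2 t i.1 (Function.update h v γ) + A4bF eb i.2 t i.1 h| ≤ (q * A4_W eb i.2 t v) * (2 * q) :=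
          mul_le_mul h2 h6 (abs_nonneg _) (mul_nonneg hq0 (A4_W_nonneg _ _ _ _))
      _ = 2 * (q : ℝ) ^ 2 * A4_W eb i.2 t v := by ring
  refine (sum_le_sum h1).trans ?_
  rw [← mul_sum]
  have h7 := A4_W_sum (k := k) hd eb i.2 v
  calc 2 * (q : ℝ) ^ 2 * ∑ t : Blk d k, A4_W eb i.2 t v ≤ 2 * (q : ℝ) ^ 2 * (4 / 2 ^ d) :=
        mul_le_mul_of_nonneg_left h7 (by positivity)
    _ = 8 * (q : ℝ) ^ 2 / 2 ^ d := by ring
    _ ≤ κ := hκ

private theorem A4b_pow : ∀ᶠ d : ℕ in atTop, 128 * (d : ℝ) ^ 6 ≤ 2 ^ d := by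
  have h1 : Tendsto (fun n : ℕ => (n : ℝ) ^ 6 / (2 : ℝ) ^ n) atTop (nhds 0) :=
    tendsto_pow_const_div_const_pow_of_one_lt 6 (by norm_num)
  have h2 := h1.eventually (gt_mem_nhds (by norm_num : (0 : ℝ) < 1 / 128))
  filter_upwards [h2] with n hn
  rw [div_lt_iff₀ (by positivity)] at hn
  linarith



private theorem A4_blk_bq {ε : ℝ} (hε : 0 < ε) (hε1 : ε ≤ 1) (eb : Bool) : WOPb ε fun d k q f => ∀ (c : Fin q) (s : Shp d),
    ∑ t : Blk d k, Mp eb s t (fun x => bq c f x - gg c f x) ^ 2 ≤ NN d k / (d : ℝ) ^ 4 := by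
  classical
  have hreg := (EvT_reg hε hε1 32).and (EvT_d (ε := ε) A4b_pow)
  have hL : EvT ε fun d k q => ∀ i : Fin q × Shp d, Lip eb ((d : ℝ) ^ 3 / 2 ^ d) (A4bPsi (k := k) eb i) := by
    refine hreg.mono fun d k q h i => ?_
    obtain ⟨⟨h1, h2, h3, h4, h5, -⟩, -⟩ := h
    have hd2 : 2 ≤ d := by
      have : (2 : ℝ) ≤ d := by linarith
      exact_mod_cast this
    refine A4b_lip eb hd2 i _ ?_
    refine div_le_div_of_nonneg_right ?_ (by positivity)
    have hq2 : (q : ℝ) ≤ 2 * d := by nlinarith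
    have hq0 : (0 : ℝ) ≤ q := Nat.cast_nonneg q
    have h6 : (q : ℝ) ^ 2 ≤ (2 * d) ^ 2 := pow_le_pow_left₀ hq0 hq2 2
    have h7 : 32 * (d : ℝ) ^ 2 ≤ d * (d : ℝ) ^ 2 := mul_le_mul_of_nonneg_right h1 (by positivity)
    calc 8 * (q : ℝ) ^ 2 ≤ 8 * (2 * d) ^ 2 := by linarith
      _ = 32 * (d : ℝ) ^ 2 := by ring
      _ ≤ d * (d : ℝ) ^ 2 := h7
      _ = (d : ℝ) ^ 3 := by ring
  have hT := WOPb_tail hε hε1 (fun d _ q => Fin q × Shp d) (fun d q => q * (2 * d + 1))
    (fun d k q => by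
      rw [Fintype.card_prod, Fintype.card_option, Fintype.card_prod, Fintype.card_fin, Fintype.card_fin,
        Fintype.card_bool]
      push_cast
      refine le_of_eq ?_
      ring) (fun _ _ _ _ => eb) (fun d k q i => A4bPsi (k := k) eb i) 3 5 hL
  refine hT.mono ?_
  refine hreg.mono fun d k q h f hf hΨ c s => ?_
  obtain ⟨⟨h1, h2, h3, h4, h5, -⟩, hp⟩ := h
  have hfP : Prp f := (mem_filter.1 hf).2
  have hd2 : 2 ≤ d := by
    have : (2 : ℝ) ≤ d := by linarith
    exact_mod_cast this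
  have hk1 : 1 ≤ k := by
    have : (1 : ℝ) ≤ k := by linarith
    exact_mod_cast this
  have hN : 0 ≤ NN d k := by
    unfold NN
    positivity
  have h6 := hΨ (c, s)
  have h7 := A4b_fm eb hd2 hk1 (c, s) hfP
  have h8 : A4bPsi (k := k) eb (c, s) f = ∑ t : Blk d k, Mp eb s t (fun x => bq c f x - gg c f x) ^ 2 := rfl
  rw [← h8]
  have hd0 : (0 : ℝ) < d := by linarith
  have hq2 : (q : ℝ) ≤ 2 * d := by nlinarith
  have hq0 : (0 : ℝ) ≤ q := Nat.cast_nonneg q
  have h9 : 16 * (q : ℝ) ^ 2 / 2 ^ d ≤ 1 / (2 * (d : ℝ) ^ 4) := by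
    rw [div_le_div_iff₀ (by positivity) (by positivity)]
    have h10 : (q : ℝ) ^ 2 ≤ (2 * d) ^ 2 := pow_le_pow_left₀ hq0 hq2 2
    calc 16 * (q : ℝ) ^ 2 * (2 * (d : ℝ) ^ 4) ≤ 16 * (2 * d) ^ 2 * (2 * (d : ℝ) ^ 4) := by
          refine mul_le_mul_of_nonneg_right ?_ (by positivity)
          linarith
      _ = 128 * (d : ℝ) ^ 6 := by ring
      _ ≤ 2 ^ d := hp
      _ = 1 * 2 ^ d := by ring
  have h11 : NN d k / (d : ℝ) ^ 5 ≤ NN d k * (1 / (2 * (d : ℝ) ^ 4)) := by
    rw [div_eq_mul_one_div]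
    refine mul_le_mul_of_nonneg_left ?_ hN
    refine one_div_le_one_div_of_le (by positivity) ?_
    have h12 : 2 * (d : ℝ) ^ 4 ≤ d * (d : ℝ) ^ 4 := mul_le_mul_of_nonneg_right (by linarith) (by positivity)
    calc 2 * (d : ℝ) ^ 4 ≤ d * (d : ℝ) ^ 4 := h12
      _ = (d : ℝ) ^ 5 := by ring
  have h13 := mul_le_mul_of_nonneg_left h9 hN
  have h14 : NN d k * (1 / (2 * (d : ℝ) ^ 4)) + NN d k * (1 / (2 * (d : ℝ) ^ 4)) = NN d k / (d : ℝ) ^ 4 := by
    field_simp
    ring
  linarith


end A4b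

section A4c
variable {d k q : ℕ}



private theorem A4c_mem (b : Bool) (f h : Site d k → Fin q) :
    h ∈ fib b f ↔ (∀ x ∈ cls b d k, h x ∉ SS f x) ∧ ∀ x, x ∉ cls b d k → h x = f x := by
  unfold fib
  rw [Fintype.mem_piFinset]
  constructor
  · intro hh
    refine ⟨fun x hx => ?_, fun x hx => ?_⟩
    · have := hh x
      rw [if_pos hx, mem_compl] at this
      exact this
    · have := hh x
      rw [if_neg hx, mem_singleton] at this
      exact this
  · rintro ⟨h1, h2⟩ x
    split_ifs with hx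
    · exact mem_compl.2 (h1 x hx)
    · exact mem_singleton.2 (h2 x hx)

private theorem A4c_prps (f : Site d k → Fin q) : f ∈ prps d k q ↔ Prp f := by
  unfold prps
  simp only [mem_filter, mem_univ, true_and]

private theorem A4c_upd (b : Bool) {f h : Site d k → Fin q} (hh : h ∈ fib b f) {v : Site d k}
    (hv : v ∈ cls b d k) {γ : Fin q} (hγ : γ ∉ SS f v) : Function.update h v γ ∈ fib b f := by
  rw [A4c_mem] at hh ⊢
  refine ⟨fun x hx => ?_, fun x hx => ?_⟩
  · by_cases hxv : x = v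
    · subst hxv
      rw [Function.update_self]
      exact hγ
    · rw [Function.update_of_ne hxv]
      exact hh.1 x hx
  · have hxv : x ≠ v := fun e => hx (e ▸ hv)
    rw [Function.update_of_ne hxv]
    exact hh.2 x hx

private theorem A4c_zz01 (f : Site d k → Fin q) (v : Site d k) (c : Fin q) : 0 ≤ zz f v c ∧ zz f v c ≤ 1 := by
  unfold zz
  split_ifs <;> norm_num

/-- change of `zz` -/
private theorem A4c_dz (h : Site d k → Fin q) (v : Site d k) (γ : Fin q) (x : Site d k) (c : Fin q) :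
    |zz (Function.update h v γ) x c - zz h x c| ≤ ∑ σ : Stp d, (if x = v + sv σ then (1 : ℝ) else 0) := by
  classical
  by_cases hx : ∃ σ : Stp d, x = v + sv σ
  · obtain ⟨σ, hσ⟩ := hx
    have h1 := A4c_zz01 (Function.update h v γ) x c
    have h2 := A4c_zz01 h x c
    have h3 : |zz (Function.update h v γ) x c - zz h x c| ≤ 1 := by
      rw [abs_le]
      constructor <;> linarith
    refine h3.trans ?_
    have h4 := Finset.single_le_sum (f := fun τ : Stp d => if x = v + sv τ then (1 : ℝ) else 0)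
      (fun τ _ => by split_ifs <;> norm_num) (Finset.mem_univ σ)
    simp only [if_pos hσ] at h4
    exact h4
  · have h1 : SS (Function.update h v γ) x = SS h x := by
      unfold SS
      refine image_congr fun τ _ => ?_
      have h2 : x + sv τ ≠ v := by
        intro e
        refine hx ⟨(τ.1, !τ.2), ?_⟩
        rw [← e, add_assoc]
        have h3 : (sv τ : Site d k) + sv (τ.1, !τ.2) = 0 := sv_opp τ.1 τ.2
        rw [h3, add_zero]
      show Function.update h v γ (x + sv τ) = h (x + sv τ)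
      rw [Function.update_of_ne h2]
    have h2 : zz (Function.update h v γ) x c = zz h x c := by
      unfold zz
      rw [h1]
    rw [h2, sub_self, abs_zero]
    exact Finset.sum_nonneg fun τ _ => by split_ifs <;> norm_num

/-- `zt` is constant on the fibre -/
private theorem A4c_zt (eb : Bool) (hk : 1 ≤ k) {f h : Site d k → Fin q} (hh : h ∈ fib (!eb) f) (x : Site d k)
    (hx : x ∈ cls eb d k) (c : Fin q) : zt h x c = zt f x c := by
  unfold zt
  refine Finset.prod_congr rfl fun σ _ => ?_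
  have h1 : x + sv σ ∈ cls (!eb) d k := by
    rw [mem_cls_step hk, Bool.not_not]
    exact hx
  have h2 := fib_SS hk (!eb) hh _ h1
  unfold zz av
  rw [h2]

/-- the block mean with frozen `zt`, `al` -/
private noncomputable def A4c_F (eb : Bool) (s : Shp d) (t : Blk d k) (f : Site d (k + 1) → Fin q) (c : Fin q)
    (h : Site d (k + 1) → Fin q) : ℝ := ∑ x, A4_W eb s t x * ((zz h x c - zt f x c) / al f x)

private theorem A4c_Ms (eb : Bool) (hk : 1 ≤ k) (s : Shp d) (t : Blk d k) {f h : Site d (k + 1) → Fin q}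
    (hh : h ∈ fib (!eb) f) (c : Fin q) :
    Mp eb s t (fun x => (zz h x c - zt h x c) / al h x) = A4c_F eb s t f c h := by
  rw [A4_W_repr eb]
  unfold A4c_F
  refine Finset.sum_congr rfl fun x _ => ?_
  by_cases hx : x ∈ cls eb d (k + 1)
  · have h1 := (loc_fib (k := k + 1) (by omega) eb (f := f) (h := h) hh x hx c).2.1
    rw [A4c_zt eb (by omega) hh x hx c, h1]
  · rw [A4_W_par eb s t x hx, zero_mul, zero_mul]

private theorem A4c_Fabs (eb : Bool) (hd : 2 ≤ d) (hq : 1 ≤ q) (s : Shp d) (t : Blk d k) {f : Site d (k + 1) → Fin q}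
    (hf : Prp f) (c : Fin q) (h : Site d (k + 1) → Fin q) : |A4c_F eb s t f c h| ≤ Real.exp (ra d q) := by
  unfold A4c_F
  have h1 : ∀ x ∈ (univ : Finset (Site d (k + 1))), |A4_W eb s t x * ((zz h x c - zt f x c) / al f x)| ≤
      A4_W eb s t x * Real.exp (ra d q) := by
    intro x _
    rw [abs_mul, abs_of_nonneg (A4_W_nonneg eb s t x)]
    refine mul_le_mul_of_nonneg_left ?_ (A4_W_nonneg eb s t x)
    have h2 := al_ge hq hf x
    have h3 : 0 < al f x := lt_of_lt_of_le (Real.exp_pos _) h2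
    rw [abs_div, abs_of_pos h3, div_le_iff₀ h3]
    have h4 := A4c_zz01 h x c
    have h5 := zt_nonneg f x c
    have h6 := zt_le_one f x c
    have h7 : |zz h x c - zt f x c| ≤ 1 := by
      rw [abs_le]
      constructor <;> linarith
    refine h7.trans ?_
    calc (1 : ℝ) = Real.exp (ra d q) * Real.exp (-ra d q) := by
          rw [← Real.exp_add, add_neg_cancel, Real.exp_zero]
      _ ≤ _ := mul_le_mul_of_nonneg_left h2 (Real.exp_nonneg _)
  refine (Finset.abs_sum_le_sum_abs _ _).trans ((Finset.sum_le_sum h1).trans (le_of_eq ?_))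
  rw [← Finset.sum_mul, A4_W_one hd eb, one_mul]

private theorem A4c_Fdif (eb : Bool) (hq : 1 ≤ q) (s : Shp d) (t : Blk d k) {f : Site d (k + 1) → Fin q}
    (hf : Prp f) (c : Fin q) (h : Site d (k + 1) → Fin q) (v : Site d (k + 1)) (γ : Fin q) :
    |A4c_F eb s t f c (Function.update h v γ) - A4c_F eb s t f c h| ≤
      Real.exp (ra d q) * ∑ σ : Stp d, A4_W eb s t (v + sv σ) := by
  classical
  unfold A4c_F
  rw [← Finset.sum_sub_distrib]
  have h1 : ∀ x ∈ (univ : Finset (Site d (k + 1))),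
      |A4_W eb s t x * ((zz (Function.update h v γ) x c - zt f x c) / al f x) -
        A4_W eb s t x * ((zz h x c - zt f x c) / al f x)| ≤
      ∑ σ : Stp d, (if x = v + sv σ then Real.exp (ra d q) * A4_W eb s t x else 0) := by
    intro x _
    have e : A4_W eb s t x * ((zz (Function.update h v γ) x c - zt f x c) / al f x) -
        A4_W eb s t x * ((zz h x c - zt f x c) / al f x) =
        A4_W eb s t x * ((zz (Function.update h v γ) x c - zz h x c) / al f x) := by ring
    rw [e, abs_mul, abs_of_nonneg (A4_W_nonneg eb s t x)]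
    have h2 := al_ge hq hf x
    have h3 : 0 < al f x := lt_of_lt_of_le (Real.exp_pos _) h2
    have h4 : 1 / al f x ≤ Real.exp (ra d q) := by
      rw [div_le_iff₀ h3]
      calc (1 : ℝ) = Real.exp (ra d q) * Real.exp (-ra d q) := by
            rw [← Real.exp_add, add_neg_cancel, Real.exp_zero]
        _ ≤ _ := mul_le_mul_of_nonneg_left h2 (Real.exp_nonneg _)
    have h5 := A4c_dz h v γ x c
    have h6 : |(zz (Function.update h v γ) x c - zz h x c) / al f x| ≤
        (∑ σ : Stp d, (if x = v + sv σ then (1 : ℝ) else 0)) * Real.exp (ra d q) := by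
      rw [div_eq_mul_one_div, abs_mul, abs_of_pos (by positivity : 0 < 1 / al f x)]
      exact mul_le_mul h5 h4 (by positivity)
        (Finset.sum_nonneg fun τ _ => by split_ifs <;> norm_num)
    refine (mul_le_mul_of_nonneg_left h6 (A4_W_nonneg eb s t x)).trans (le_of_eq ?_)
    rw [Finset.sum_mul, Finset.mul_sum]
    refine Finset.sum_congr rfl fun σ _ => ?_
    split_ifs
    · ring
    · ring
  refine (Finset.abs_sum_le_sum_abs _ _).trans ((Finset.sum_le_sum h1).trans (le_of_eq ?_))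
  rw [Finset.sum_comm, Finset.mul_sum]
  refine Finset.sum_congr rfl fun σ _ => ?_
  rw [Finset.sum_ite_eq' univ (v + sv σ) (fun x => Real.exp (ra d q) * A4_W eb s t x)]
  simp

private theorem A4c_cardS : (Fintype.card (Stp d) : ℝ) = 2 * d := by
  rw [Fintype.card_prod, Fintype.card_fin, Fintype.card_bool]
  push_cast
  ring

private theorem A4c_Fmean (eb : Bool) (hk : 1 ≤ k) (s : Shp d) (t : Blk d k) {f : Site d (k + 1) → Fin q}
    (hf : Prp f) (c : Fin q) : fm (!eb) (A4c_F eb s t f c) f = 0 := by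
  have e1 : fm (!eb) (A4c_F eb s t f c) f =
      ∑ x, fm (!eb) (fun h => A4_W eb s t x * ((zz h x c - zt f x c) / al f x)) f :=
    fm_sum (!eb) f univ (fun x h => A4_W eb s t x * ((zz h x c - zt f x c) / al f x))
  rw [e1]
  refine Finset.sum_eq_zero fun x _ => ?_
  by_cases hx : x ∈ cls eb d (k + 1)
  · have e2 : (fun h : Site d (k + 1) → Fin q => A4_W eb s t x * ((zz h x c - zt f x c) / al f x)) =
        fun h => (A4_W eb s t x / al f x) * (zz h x c - zt f x c) := by
      funext h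
      ring
    rw [e2, fm_mul, fm_sub, fm_const (!eb) hf]
    have h1 := fm_zz (by omega) eb hf x hx c
    have h2 : fm (!eb) (fun h : Site d (k + 1) → Fin q => zz h x c) f = zt f x c := h1
    rw [h2, sub_self, mul_zero]
  · have e2 : (fun h : Site d (k + 1) → Fin q => A4_W eb s t x * ((zz h x c - zt f x c) / al f x)) =
        fun _ => 0 := by
      funext h
      rw [A4_W_par eb s t x hx, zero_mul]
    rw [e2, fm_const (!eb) hf]

private theorem A4c_Fvar (eb : Bool) (hd : 2 ≤ d) (hk : 1 ≤ k) (hq : 1 ≤ q) (s : Shp d) (t : Blk d k)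
    {f : Site d (k + 1) → Fin q} (hf : Prp f) (c : Fin q) :
    fm (!eb) (fun h => A4c_F eb s t f c h ^ 2) f ≤ 64 * Real.exp (ra d q) ^ 2 * d ^ 2 / 2 ^ d := by
  classical
  have h1 := fm_var (d := d) (k := k + 1) (q := q) (by omega) (!eb) hf (A4c_F eb s t f c)
    (fun v => Real.exp (ra d q) * ∑ σ : Stp d, A4_W eb s t (v + sv σ))
    (fun v => mul_nonneg (Real.exp_nonneg _) (Finset.sum_nonneg fun σ _ => A4_W_nonneg eb s t _))
    (fun h _ v _ γ _ => A4c_Fdif eb hq s t hf c h v γ)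
  rw [A4c_Fmean eb hk s t hf c] at h1
  simp only [sub_zero] at h1
  refine h1.trans ?_
  have h2 : ∀ v ∈ cls (!eb) d (k + 1), (Real.exp (ra d q) * ∑ σ : Stp d, A4_W eb s t (v + sv σ)) ^ 2 ≤
      Real.exp (ra d q) ^ 2 * ((2 * d) * ∑ σ : Stp d, A4_W eb s t (v + sv σ) ^ 2) := by
    intro v _
    rw [mul_pow]
    refine mul_le_mul_of_nonneg_left ?_ (by positivity)
    have h3 := sq_sum_le_card_mul_sum_sq (s := (univ : Finset (Stp d)))
      (f := fun σ => A4_W eb s t (v + sv σ))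
    rw [Finset.card_univ, A4c_cardS] at h3
    exact h3
  have h4 : ∑ v ∈ cls (!eb) d (k + 1), (Real.exp (ra d q) * ∑ σ : Stp d, A4_W eb s t (v + sv σ)) ^ 2 ≤
      Real.exp (ra d q) ^ 2 * ((2 * d) * ((2 * d) * (4 / 2 ^ d))) := by
    refine (Finset.sum_le_sum h2).trans ?_
    rw [← Finset.mul_sum, ← Finset.mul_sum]
    refine mul_le_mul_of_nonneg_left (mul_le_mul_of_nonneg_left ?_ (by positivity)) (by positivity)
    have h5 : ∑ v ∈ cls (!eb) d (k + 1), ∑ σ : Stp d, A4_W eb s t (v + sv σ) ^ 2 ≤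
        ∑ v : Site d (k + 1), ∑ σ : Stp d, A4_W eb s t (v + sv σ) ^ 2 :=
      Finset.sum_le_sum_of_subset_of_nonneg (Finset.subset_univ _)
        (fun v _ _ => Finset.sum_nonneg fun σ _ => sq_nonneg _)
    refine h5.trans ?_
    rw [Finset.sum_comm]
    have h6 : ∀ σ ∈ (univ : Finset (Stp d)), ∑ v : Site d (k + 1), A4_W eb s t (v + sv σ) ^ 2 ≤ 4 / 2 ^ d := by
      intro σ _
      have e : ∑ v : Site d (k + 1), A4_W eb s t (v + sv σ) ^ 2 = ∑ x : Site d (k + 1), A4_W eb s t x ^ 2 :=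
        Fintype.sum_equiv (Equiv.addRight (sv σ)) _ _ (fun v => rfl)
      rw [e]
      calc ∑ x : Site d (k + 1), A4_W eb s t x ^ 2 ≤ ∑ x : Site d (k + 1), 4 / 2 ^ d * A4_W eb s t x := by
            refine Finset.sum_le_sum fun x _ => ?_
            rw [sq]
            exact mul_le_mul_of_nonneg_right (A4_W_max hd eb s t x) (A4_W_nonneg eb s t x)
        _ = 4 / 2 ^ d := by rw [← Finset.mul_sum, A4_W_one hd eb, mul_one]
    refine (Finset.sum_le_sum h6).trans (le_of_eq ?_)
    rw [Finset.sum_const, nsmul_eq_mul, Finset.card_univ, A4c_cardS]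
  calc 4 * ∑ v ∈ cls (!eb) d (k + 1), (Real.exp (ra d q) * ∑ σ : Stp d, A4_W eb s t (v + sv σ)) ^ 2
      ≤ 4 * (Real.exp (ra d q) ^ 2 * ((2 * d) * ((2 * d) * (4 / 2 ^ d)))) :=
        mul_le_mul_of_nonneg_left h4 (by norm_num)
    _ = _ := by ring

private noncomputable def A4c_Psi (eb : Bool) (c : Fin q) (s : Shp d) (f : Site d (k + 1) → Fin q) : ℝ :=
  ∑ t : Blk d k, Mp eb s t (fun x => (zz f x c - zt f x c) / al f x) ^ 2

private theorem A4c_mean (eb : Bool) (hd : 2 ≤ d) (hk : 1 ≤ k) (hq : 1 ≤ q) (c : Fin q) (s : Shp d)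
    {f : Site d (k + 1) → Fin q} (hf : Prp f) :
    fm (!eb) (A4c_Psi (k := k) eb c s) f ≤ NN d k * (64 * Real.exp (ra d q) ^ 2 * d ^ 2 / 2 ^ d) := by
  have e1 : fm (!eb) (A4c_Psi (k := k) eb c s) f = fm (!eb) (fun h => ∑ t : Blk d k, A4c_F eb s t f c h ^ 2) f := by
    refine fm_congr (!eb) fun h hh => ?_
    unfold A4c_Psi
    exact Finset.sum_congr rfl fun t _ => by rw [A4c_Ms eb hk s t hh c]
  have e2 : fm (!eb) (fun h => ∑ t : Blk d k, A4c_F eb s t f c h ^ 2) f =
      ∑ t : Blk d k, fm (!eb) (fun h => A4c_F eb s t f c h ^ 2) f :=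
    fm_sum (!eb) f univ (fun t h => A4c_F eb s t f c h ^ 2)
  rw [e1, e2]
  refine (Finset.sum_le_sum fun t _ => A4c_Fvar eb hd hk hq s t hf c).trans (le_of_eq ?_)
  rw [Finset.sum_const, nsmul_eq_mul, Finset.card_univ, card_Blk]

private theorem A4c_lip (eb : Bool) (hd : 2 ≤ d) (hk : 1 ≤ k) (hq : 1 ≤ q) (c : Fin q) (s : Shp d)
    (hdd : 16 * Real.exp (ra d q) ^ 2 ≤ (d : ℝ) ^ 2) :
    Lip (!eb) ((d : ℝ) ^ 3 / 2 ^ d) (A4c_Psi (k := k) (q := q) eb c s) := by
  intro f hf h hh v hv γ hγ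
  rw [A4c_prps] at hf
  have hh' := A4c_upd (!eb) hh hv hγ
  unfold A4c_Psi
  rw [← Finset.sum_sub_distrib]
  have h1 : ∀ t ∈ (univ : Finset (Blk d k)),
      |Mp eb s t (fun x => (zz (Function.update h v γ) x c - zt (Function.update h v γ) x c) /
          al (Function.update h v γ) x) ^ 2 -
        Mp eb s t (fun x => (zz h x c - zt h x c) / al h x) ^ 2| ≤
      2 * Real.exp (ra d q) * (Real.exp (ra d q) * ∑ σ : Stp d, A4_W eb s t (v + sv σ)) := by
    intro t _
    rw [A4c_Ms eb hk s t hh' c, A4c_Ms eb hk s t hh c]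
    have h2 := A4c_Fabs eb (k := k) hd hq s t hf c (Function.update h v γ)
    have h3 := A4c_Fabs eb (k := k) hd hq s t hf c h
    have h4 := A4c_Fdif eb hq s t hf c h v γ
    have e : A4c_F eb s t f c (Function.update h v γ) ^ 2 - A4c_F eb s t f c h ^ 2 =
        (A4c_F eb s t f c (Function.update h v γ) + A4c_F eb s t f c h) *
        (A4c_F eb s t f c (Function.update h v γ) - A4c_F eb s t f c h) := by ring
    rw [e, abs_mul]
    refine mul_le_mul ?_ h4 (abs_nonneg _) (by positivity)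
    refine (abs_add_le _ _).trans ?_
    linarith
  refine (Finset.abs_sum_le_sum_abs _ _).trans ((Finset.sum_le_sum h1).trans ?_)
  rw [← Finset.mul_sum, ← Finset.mul_sum, Finset.sum_comm]
  have h5 : ∑ σ : Stp d, ∑ t : Blk d k, A4_W eb s t (v + sv σ) ≤ 2 * d * (4 / 2 ^ d) := by
    refine (Finset.sum_le_sum fun σ _ => A4_W_sum hd eb s (v + sv σ)).trans (le_of_eq ?_)
    rw [Finset.sum_const, nsmul_eq_mul, Finset.card_univ, A4c_cardS]
  have hE : 0 < Real.exp (ra d q) := Real.exp_pos _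
  calc 2 * Real.exp (ra d q) * (Real.exp (ra d q) * ∑ σ : Stp d, ∑ t : Blk d k, A4_W eb s t (v + sv σ))
      ≤ 2 * Real.exp (ra d q) * (Real.exp (ra d q) * (2 * d * (4 / 2 ^ d))) := by gcongr
    _ = 16 * Real.exp (ra d q) ^ 2 * (d / 2 ^ d) := by ring
    _ ≤ (d : ℝ) ^ 2 * (d / 2 ^ d) := mul_le_mul_of_nonneg_right hdd (by positivity)
    _ = _ := by ring

private theorem A4_blk_zz {ε : ℝ} (hε : 0 < ε) (hε1 : ε ≤ 1) (eb : Bool) : WOPb ε fun d k q f => ∀ (c : Fin q) (s : Shp d),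
    ∑ t : Blk d k, Mp eb s t (fun x => (zz f x c - zt f x c) / al f x) ^ 2 ≤ NN d k / (d : ℝ) ^ 4 := by
  -- the size of `d`
  have hev : ∀ᶠ d : ℕ in atTop, 16 * Real.exp (A0 ε) ^ 2 ≤ (d : ℝ) ^ 2 ∧
      64 * Real.exp (A0 ε) ^ 2 * (d : ℝ) ^ 2 / 2 ^ d ≤ 1 / (2 * (d : ℝ) ^ 4) ∧ 2 ≤ d := by
    have h1 : ∀ᶠ d : ℕ in atTop, 16 * Real.exp (A0 ε) ^ 2 ≤ (d : ℝ) ^ 2 :=
      ((tendsto_pow_atTop (n := 2) (by norm_num)).comp
        tendsto_natCast_atTop_atTop).eventually_ge_atTop _
    have h2 : Tendsto (fun n : ℕ => (n : ℝ) ^ 6 / 2 ^ n) atTop (nhds 0) :=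
      tendsto_pow_const_div_const_pow_of_one_lt 6 (by norm_num)
    have hE : 0 < Real.exp (A0 ε) := Real.exp_pos _
    have h3 := h2.eventually (gt_mem_nhds (show (0 : ℝ) < 1 / (128 * Real.exp (A0 ε) ^ 2) by positivity))
    filter_upwards [h1, h3, eventually_ge_atTop 2] with d g1 g2 g3
    refine ⟨g1, ?_, g3⟩
    have hd0 : (0 : ℝ) < d := by
      have : 0 < d := by omega
      exact_mod_cast this
    have g4 : (d : ℝ) ^ 6 / 2 ^ d ≤ 1 / (128 * Real.exp (A0 ε) ^ 2) := g2.le
    rw [div_le_div_iff₀ (by positivity) (by positivity)] at g4 ⊢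
    linarith
  have hEv := (EvT_d (ε := ε) hev).and (EvT_reg hε hε1 1)
  have hR : ∀ {d q : ℕ}, ra d q ≤ A0 ε → Real.exp (ra d q) ^ 2 ≤ Real.exp (A0 ε) ^ 2 := by
    intro d q h
    exact pow_le_pow_left₀ (Real.exp_nonneg _) (Real.exp_le_exp.2 h) 2
  have hT := WOPb_tail hε hε1 (fun d _ q => Fin q × Shp d)
    (fun d q => (Fintype.card (Fin q × Shp d) : ℝ)) (fun _ _ _ => le_rfl) (fun _ _ _ _ => (!eb))
    (fun d k q i f => A4c_Psi (k := k) eb i.1 i.2 f) 3 5 (hEv.mono fun d k q h i => by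
      obtain ⟨⟨g1, g2, g3⟩, g4, g5, g6, -, -, -, g7, -⟩ := h
      have hq : 1 ≤ q := by exact_mod_cast g5
      have hk : 1 ≤ k := by exact_mod_cast g6
      exact A4c_lip eb g3 hk hq i.1 i.2 (le_trans (by have := hR g7; linarith) g1))
  refine hT.mono (hEv.mono fun d k q h f hf hΨ c s => ?_)
  obtain ⟨⟨g1, g2, g3⟩, g4, g5, g6, -, -, -, g7, -⟩ := h
  have hq : 1 ≤ q := by exact_mod_cast g5
  have hk : 1 ≤ k := by exact_mod_cast g6
  rw [A4c_prps] at hf
  have h1 := hΨ (c, s)
  have h2 := A4c_mean eb g3 hk hq c s hf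
  have hN : 0 ≤ NN d k := by unfold NN; positivity
  have hd2 : (2 : ℝ) ≤ d := by exact_mod_cast g3
  have hd0 : (0 : ℝ) < d := by linarith
  have h3 : 64 * Real.exp (ra d q) ^ 2 * (d : ℝ) ^ 2 / 2 ^ d ≤ 1 / (2 * (d : ℝ) ^ 4) := by
    refine le_trans ?_ g2
    have := hR g7
    gcongr
  have h4 := mul_le_mul_of_nonneg_left h3 hN
  have h5 : NN d k / (d : ℝ) ^ 5 ≤ NN d k * (1 / (2 * (d : ℝ) ^ 4)) := by
    have e : NN d k * (1 / (2 * (d : ℝ) ^ 4)) = NN d k / (2 * (d : ℝ) ^ 4) := by ring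
    rw [e]
    refine div_le_div_of_nonneg_left hN (by positivity) ?_
    have : (d : ℝ) ^ 5 = d * d ^ 4 := by ring
    rw [this]
    exact mul_le_mul_of_nonneg_right hd2 (by positivity)
  have h6 : NN d k / (d : ℝ) ^ 4 = NN d k * (1 / (2 * (d : ℝ) ^ 4)) + NN d k * (1 / (2 * (d : ℝ) ^ 4)) := by
    field_simp
    ring
  have h7 : A4c_Psi (k := k) eb c s f ≤ fm (!eb) (A4c_Psi (k := k) eb c s) f + NN d k / (d : ℝ) ^ 5 := h1
  have h8 : A4c_Psi (k := k) eb c s f ≤ NN d k / (d : ℝ) ^ 4 := by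
    rw [h6]
    linarith
  exact h8


end A4c

private theorem A4_e3 : 0 < e3 ∧ e3 ≤ 1 := by
  unfold e3
  constructor <;> norm_num

theorem blk_bq2 : WOPb e3 fun d k q f => ∀ (e : Bool) (c : Fin q) (s : Shp d),
    ∑ t : Blk d k, Mp e s t (fun x => bq c f x - gg c f x) ^ 2 ≤ NN d k / (d : ℝ) ^ 4 := by
  have h := (A4_blk_bq A4_e3.1 A4_e3.2 true).and (A4_blk_bq A4_e3.1 A4_e3.2 false)
  refine h.mono ⟨0, fun d q _ _ _ => Filter.Eventually.of_forall fun k f _ hf e => ?_⟩
  cases e with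
  | true => exact hf.1
  | false => exact hf.2

theorem blk_zz2 : WOPb e3 fun d k q f => ∀ (e : Bool) (c : Fin q) (s : Shp d),
    ∑ t : Blk d k, Mp e s t (fun x => (zz f x c - zt f x c) / al f x) ^ 2 ≤ NN d k / (d : ℝ) ^ 4 := by
  have h := (A4_blk_zz A4_e3.1 A4_e3.2 true).and (A4_blk_zz A4_e3.1 A4_e3.2 false)
  refine h.mono ⟨0, fun d q _ _ _ => Filter.Eventually.of_forall fun k f _ hf e => ?_⟩
  cases e with
  | true => exact hf.1
  | false => exact hf.2

end Pool.Agent.LC

end
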