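import Pool.Agent.Lib_MP_2c424f_m.M19
import Pool.Agent.Lib_MP_2c424f_m.M21

/-!
# MP_2c424f_pr, q_c grows linearly: merged library part M26

Concatenation of smaller files (each in its own section), only to save build time.
-/

namespace Pool.Agent.LO
end Pool.Agent.LO

namespace Pool.Agent.LIN
end Pool.Agent.LIN

namespace Pool.Agent.THR
end Pool.Agent.THR

namespace Pool.Agent.COR
end Pool.Agent.COR

/-! ### from `Lib_MP_2c424f_lc5.V05` -/

section

/-!
# Part V, V05: given the colours of the odd vertices, the colours of the even vertices are independent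

The `X`-proper `F` with `F = F₀` on the odd vertices are (if `F₀` is such that there is one) exactly the functions with
`F w = F₀ w` for odd `w` and `F v ∈ Rv X F₀ v` for even `v` (`Rv X F₀ v` depends on the odd vertices only, `Par`), i.e. the
elements of a `Fintype.piFinset`.  The number of those with `E k (F (u k)) (F (v k))` for all `k` is the product over the pairs
`(u k, v k)` of the numbers of pairs in `E k` times the product of the `|Rv|` over the other even vertices (all `u k`, `v l`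
are different).  If some `Rv X F₀ v`, `v` even, is empty then both sides vanish.
(E.g. induction on `n`, or: the map `F ↦ (F ∘ u, F ∘ v, F restricted to the rest)`.)
-/

set_option autoImplicit false

open Finset Filter

namespace Pool.Agent.LC

open Pool.Agent.LO Pool.Agent.LIN Pool.Agent.THR Pool.Agent.COR

private theorem V05_prod {V : Type} [Fintype V] [DecidableEq V] (f : V → ℕ) {x y : V} (h : x ≠ y) :
    ∏ w, f w = f x * f y * ∏ w ∈ (univ.erase x).erase y, f w := by
  rw [← Finset.mul_prod_erase univ f (mem_univ x),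
    ← Finset.mul_prod_erase (univ.erase x) f (mem_erase.2 ⟨h.symm, mem_univ y⟩), mul_assoc]

open scoped Classical in
/-- the sets with one pair of vertices pinned -/
private noncomputable def V05_pin {V : Type} {q : ℕ} (S : V → Finset (Fin q)) (x y : V) (w : Fin q × Fin q) :
    V → Finset (Fin q) := fun z => if z = x then {w.1} else if z = y then {w.2} else S z

open scoped Classical in
private theorem V05_count {V : Type} [Fintype V] [DecidableEq V] {q : ℕ} : ∀ (n : ℕ) (u v : Fin n → V)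
    (_ : Function.Injective u) (_ : Function.Injective v) (_ : ∀ k l, u k ≠ v l)
    (E : Fin n → Fin q → Fin q → Prop) (S : V → Finset (Fin q)),
    ((Fintype.piFinset S).filter fun F => ∀ k, E k (F (u k)) (F (v k))).card *
        ∏ k, ((S (u k)).card * (S (v k)).card) =
      (∏ k, (((S (u k)) ×ˢ (S (v k))).filter fun w => E k w.1 w.2).card) * ∏ w, (S w).card := by
  intro n
  induction n with
  | zero =>
    intro u v _ _ _ E S
    simp
  | succ n ih =>
    intro u v hui hvi huv E S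
    set t : Finset (Fin q × Fin q) := ((S (u 0)) ×ˢ (S (v 0))).filter fun w => E 0 w.1 w.2 with ht
    have huk : ∀ k : Fin n, u k.succ ≠ u 0 := fun k h => Fin.succ_ne_zero k (hui h)
    have hvk : ∀ k : Fin n, v k.succ ≠ v 0 := fun k h => Fin.succ_ne_zero k (hvi h)
    have hpu : ∀ (w : Fin q × Fin q) (k : Fin n), V05_pin S (u 0) (v 0) w (u k.succ) = S (u k.succ) := by
      intro w k
      simp only [V05_pin, huk k, if_false, huv k.succ 0]
    have hpv : ∀ (w : Fin q × Fin q) (k : Fin n), V05_pin S (u 0) (v 0) w (v k.succ) = S (v k.succ) := by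
      intro w k
      simp only [V05_pin, hvk k, if_false, (huv 0 k.succ).symm]
    have hfib : ((Fintype.piFinset S).filter fun F => ∀ k, E k (F (u k)) (F (v k))).card =
        ∑ w ∈ t, ((Fintype.piFinset (V05_pin S (u 0) (v 0) w)).filter fun F =>
          ∀ k : Fin n, E k.succ (F (u k.succ)) (F (v k.succ))).card := by
      rw [Finset.card_eq_sum_card_fiberwise (f := fun F : V → Fin q => (F (u 0), F (v 0))) (t := t)]
      · refine Finset.sum_congr rfl fun w hw => ?_
        congr 1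
        ext F
        rw [ht, mem_filter, mem_product] at hw
        simp only [mem_filter, Fintype.mem_piFinset]
        constructor
        · rintro ⟨⟨h1, h2⟩, h3⟩
          refine ⟨fun z => ?_, fun k => h2 k.succ⟩
          unfold V05_pin
          by_cases hz : z = u 0
          · rw [if_pos hz, mem_singleton, ← h3, hz]
          · rw [if_neg hz]
            by_cases hz' : z = v 0
            · rw [if_pos hz', mem_singleton, ← h3, hz']
            · rw [if_neg hz']
              exact h1 z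
        · rintro ⟨h1, h2⟩
          have e1 : F (u 0) = w.1 := by
            have := h1 (u 0)
            unfold V05_pin at this
            rwa [if_pos rfl, mem_singleton] at this
          have e2 : F (v 0) = w.2 := by
            have := h1 (v 0)
            unfold V05_pin at this
            rwa [if_neg (huv 0 0).symm, if_pos rfl, mem_singleton] at this
          refine ⟨⟨fun z => ?_, fun k => ?_⟩, by rw [e1, e2]⟩
          · by_cases hz : z = u 0
            · rw [hz, e1]; exact hw.1.1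
            · by_cases hz' : z = v 0
              · rw [hz', e2]; exact hw.1.2
              · have := h1 z
                unfold V05_pin at this
                rwa [if_neg hz, if_neg hz'] at this
          · refine Fin.cases ?_ (fun k => ?_) k
            · rw [e1, e2]; exact hw.2
            · exact h2 k
      · intro F hF
        rw [Finset.mem_coe, mem_filter, Fintype.mem_piFinset] at hF
        rw [Finset.mem_coe, ht, mem_filter, mem_product]
        exact ⟨⟨hF.1 _, hF.1 _⟩, hF.2 0⟩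
    have hterm : ∀ w ∈ t, ((Fintype.piFinset (V05_pin S (u 0) (v 0) w)).filter fun F =>
          ∀ k : Fin n, E k.succ (F (u k.succ)) (F (v k.succ))).card *
          ∏ k : Fin (n + 1), ((S (u k)).card * (S (v k)).card) =
        (∏ k : Fin n, (((S (u k.succ)) ×ˢ (S (v k.succ))).filter fun w => E k.succ w.1 w.2).card) *
          ∏ z, (S z).card := by
      intro w _
      have h1 := ih (fun k => u k.succ) (fun k => v k.succ) (fun a b h => Fin.succ_injective _ (hui h))
        (fun a b h => Fin.succ_injective _ (hvi h)) (fun k l => huv k.succ l.succ) (fun k => E k.succ)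
        (V05_pin S (u 0) (v 0) w)
      simp only [hpu, hpv] at h1
      have h2 := V05_prod (fun z => (S z).card) (huv 0 0)
      have h3 := V05_prod (fun z => (V05_pin S (u 0) (v 0) w z).card) (huv 0 0)
      have h4 : ∏ z ∈ (univ.erase (u 0)).erase (v 0), (V05_pin S (u 0) (v 0) w z).card =
          ∏ z ∈ (univ.erase (u 0)).erase (v 0), (S z).card := by
        refine Finset.prod_congr rfl fun z hz => ?_
        rw [mem_erase, mem_erase] at hz
        unfold V05_pin
        rw [if_neg hz.2.1, if_neg hz.1]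
      have h5 : (V05_pin S (u 0) (v 0) w (u 0)).card = 1 := by
        unfold V05_pin
        rw [if_pos rfl, card_singleton]
      have h6 : (V05_pin S (u 0) (v 0) w (v 0)).card = 1 := by
        unfold V05_pin
        rw [if_neg (huv 0 0).symm, if_pos rfl, card_singleton]
      rw [h4, h5, h6, one_mul, one_mul] at h3
      rw [Fin.prod_univ_succ, h2, mul_left_comm, h1, h3]
      ring
    rw [hfib, Finset.sum_mul, Finset.sum_congr rfl hterm, Finset.sum_const, smul_eq_mul, ← mul_assoc]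
    congr 1
    rw [Fin.prod_univ_succ]

private theorem V05_cG {W : Type} [Fintype W] [DecidableEq W] {q : ℕ} (X : SimpleGraph W)
    (P : (W → Fin q) → Prop) (T : Finset (W → Fin q)) (h : ∀ F, (PrG X F ∧ P F) ↔ F ∈ T) :
    cG X P = ((T.card : ℕ) : ℝ) := by
  unfold cG
  congr 2
  ext F
  rw [← h F]
  simp

open scoped Classical in
private theorem V05_fib {V : Type} [Fintype V] [DecidableEq V] {q : ℕ} {X : SimpleGraph V} {ev : V → Prop}
    (hP : Par X ev) (F₀ F : V → Fin q) :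
    (PrG X F ∧ ∀ w, ¬ ev w → F w = F₀ w) ↔ ∀ w, F w ∈ if ev w then Rv X F₀ w else {F₀ w} := by
  constructor
  · rintro ⟨h1, h2⟩ w
    by_cases hw : ev w
    · rw [if_pos hw]
      unfold Rv
      rw [mem_filter]
      refine ⟨mem_univ _, fun x hx h => ?_⟩
      have hx' : ¬ ev x := (hP w x hx).1 hw
      rw [← h2 x hx'] at h
      exact h1 w x hx h.symm
    · rw [if_neg hw, mem_singleton]
      exact h2 w hw
  · intro h
    have h2 : ∀ w, ¬ ev w → F w = F₀ w := by
      intro w hw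
      have := h w
      rwa [if_neg hw, mem_singleton] at this
    have h3 : ∀ w, ev w → ∀ x, X.Adj w x → F w ≠ F x := by
      intro w hw x hx he
      have h4 := h w
      rw [if_pos hw] at h4
      unfold Rv at h4
      rw [mem_filter] at h4
      have hx' : ¬ ev x := (hP w x hx).1 hw
      exact h4.2 x hx (by rw [he, h2 x hx'])
    refine ⟨fun x y hxy => ?_, h2⟩
    by_cases hx : ev x
    · exact h3 x hx y hxy
    · have hy : ev y := by
        by_contra hy
        exact hx ((hP x y hxy).2 hy)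
      exact (h3 y hy x hxy.symm).symm

open scoped Classical in
theorem fib_indep {V : Type} [Fintype V] [DecidableEq V] {q : ℕ} {X : SimpleGraph V} {ev : V → Prop} (hP : Par X ev)
    (F₀ : V → Fin q) {n : ℕ} (u v : Fin n → V) (hu : ∀ k, ev (u k)) (hv : ∀ k, ev (v k))
    (hui : Function.Injective u) (hvi : Function.Injective v) (huv : ∀ k l, u k ≠ v l)
    (E : Fin n → Fin q → Fin q → Prop) :
    cG X (fun F : V → Fin q => (∀ w, ¬ ev w → F w = F₀ w) ∧ ∀ k, E k (F (u k)) (F (v k))) ≤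
      (∏ k, ((((Rv X F₀ (u k)) ×ˢ (Rv X F₀ (v k))).filter fun w => E k w.1 w.2).card : ℝ) /
        (((Rv X F₀ (u k)).card : ℝ) * ((Rv X F₀ (v k)).card : ℝ))) *
      cG X (fun F : V → Fin q => ∀ w, ¬ ev w → F w = F₀ w) := by
  set S : V → Finset (Fin q) := fun w => if ev w then Rv X F₀ w else {F₀ w} with hS
  have hSu : ∀ k, S (u k) = Rv X F₀ (u k) := fun k => by rw [hS]; exact if_pos (hu k)
  have hSv : ∀ k, S (v k) = Rv X F₀ (v k) := fun k => by rw [hS]; exact if_pos (hv k)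
  have e1 : cG X (fun F : V → Fin q => ∀ w, ¬ ev w → F w = F₀ w) = ((∏ w, (S w).card : ℕ) : ℝ) := by
    rw [← Fintype.card_piFinset]
    exact V05_cG X _ _ fun F => (V05_fib hP F₀ F).trans Fintype.mem_piFinset.symm
  have e2 : cG X (fun F : V → Fin q => (∀ w, ¬ ev w → F w = F₀ w) ∧ ∀ k, E k (F (u k)) (F (v k))) =
      ((((Fintype.piFinset S).filter fun F => ∀ k, E k (F (u k)) (F (v k))).card : ℕ) : ℝ) := by
    refine V05_cG X _ _ fun F => ?_
    rw [mem_filter, Fintype.mem_piFinset]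
    constructor
    · rintro ⟨h1, h2, h3⟩
      exact ⟨(V05_fib hP F₀ F).1 ⟨h1, h2⟩, h3⟩
    · rintro ⟨h1, h3⟩
      obtain ⟨h4, h5⟩ := (V05_fib hP F₀ F).2 h1
      exact ⟨h4, h5, h3⟩
  clear_value S
  have h1 := V05_count n u v hui hvi huv E S
  simp only [hSu, hSv] at h1
  rw [e1, e2, Finset.prod_div_distrib, div_mul_eq_mul_div]
  by_cases hz : (∏ k, (((Rv X F₀ (u k)).card : ℝ) * ((Rv X F₀ (v k)).card : ℝ))) = 0
  · -- an empty set
    have h2 : (((Fintype.piFinset S).filter fun F => ∀ k, E k (F (u k)) (F (v k))).card : ℕ) = 0 := by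
      rw [Finset.prod_eq_zero_iff] at hz
      obtain ⟨k, _, hk⟩ := hz
      rw [Finset.card_eq_zero, Finset.filter_eq_empty_iff]
      intro F hF
      rw [Fintype.mem_piFinset] at hF
      exfalso
      rcases mul_eq_zero.1 hk with h | h
      · have h3 : Rv X F₀ (u k) = ∅ := by
          rw [← Finset.card_eq_zero]
          exact_mod_cast h
        have h4 := hF (u k)
        rw [hSu, h3] at h4
        exact notMem_empty _ h4
      · have h3 : Rv X F₀ (v k) = ∅ := by
          rw [← Finset.card_eq_zero]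
          exact_mod_cast h
        have h4 := hF (v k)
        rw [hSv, h3] at h4
        exact notMem_empty _ h4
    rw [h2, Nat.cast_zero]
    exact div_nonneg (mul_nonneg (Finset.prod_nonneg fun k _ => Nat.cast_nonneg _) (Nat.cast_nonneg _))
      (Finset.prod_nonneg fun k _ => mul_nonneg (Nat.cast_nonneg _) (Nat.cast_nonneg _))
  · have hpos : 0 < ∏ k, (((Rv X F₀ (u k)).card : ℝ) * ((Rv X F₀ (v k)).card : ℝ)) :=
      lt_of_le_of_ne (Finset.prod_nonneg fun k _ => mul_nonneg (Nat.cast_nonneg _) (Nat.cast_nonneg _)) (Ne.symm hz)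
    rw [le_div_iff₀ hpos]
    have h3 := congrArg (fun m : ℕ => (m : ℝ)) h1
    simp only [Nat.cast_mul, Nat.cast_prod] at h3 ⊢
    exact h3.le

end Pool.Agent.LC

end

/-! ### from `Lib_MP_2c424f_lc1.D2` -/

section

/-!
# LC1 D2: the gap of one colour

`log (ya c f u) = - hh c f u - log (al f u)`.  `γ := gs A v s c ∈ {1 + m, 1 - m}`, `e^{-a(2-γ)} = als γ` (`mf_num`), so `log γ = -a(2-γ) - log als`, and `γ ≥ 1 - m = e^{-a(1+m)}/als ≥ e^{-4000}`.
`PP^[s] (Lm (ya/γ)) v = (PP^[s] ya v)/γ - 1 + PP^[s] hh v + PP^[s] (log al) v + log γ` (linearity, `PPt_const`) `= Gp + ((PP^[s] ya v)/γ - 1) + (PP^[s] hh v - a(2-γ))`.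
`gap_quad`: `Lm_quad` with `Y = e^a` (`ya_bound`), `PPt_mono`: for `γ = 1 - m ≤ 3e^{-2a}`: `2γ(γ + e^a) ≤ 12 e^{-a}`; in general `≤ 8 e^{2000}`.
-/

set_option autoImplicit false

open Finset Filter

namespace Pool.Agent.LC

open Pool.Agent.LO Pool.Agent.LIN Pool.Agent.THR Pool.Agent.COR

variable {d k q : ℕ}

theorem gm_cases (A : Finset (Fin q)) (v : Site d k) (s : ℕ) (c : Fin q) :
    gs A v s c = 1 + ms d q ∨ gs A v s c = 1 - ms d q := by
  have h : gm A v c = 1 + ms d q ∨ gm A v c = 1 - ms d q := by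
    unfold gm
    split_ifs
    · exact Or.inl rfl
    · exact Or.inr rfl
  unfold gs
  split_ifs
  · exact h
  · rcases h with h | h
    · right
      rw [h]
      ring
    · left
      rw [h]
      ring

private theorem D2_add (s : ℕ) (g h : Site d k → ℝ) (x : Site d k) :
    PP^[s] (fun y => g y + h y) x = PP^[s] g x + PP^[s] h x := by
  have h1 := PPt_sub s g (fun y => (-1) * h y) x
  rw [PPt_mul] at h1
  have h2 : (fun y => g y - (-1) * h y) = fun y => g y + h y := by
    funext y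
    ring
  rw [h2] at h1
  rw [h1]
  ring

/-- facts about `γ` -/
private theorem D2_gs (hd : 1 ≤ d) (hR : Rg d q) (A : Finset (Fin q)) (v : Site d k) (s : ℕ) (c : Fin q) :
    Real.exp (-4000) ≤ gs A v s c ∧ gs A v s c ≤ 2 ∧
      Real.log (gs A v s c) = -(ra d q * (2 - gs A v s c)) - Real.log (als (ra d q) (ms d q)) := by
  obtain ⟨-, ha, ha2, -⟩ := rg_pos hd hR
  obtain ⟨hm0, hm1, -, hmu, -, h1, h2, h3, h4, -, -⟩ := mf_num ha (ms_spec hd hR)
  have hlow : Real.exp (-4000) ≤ 1 - ms d q := by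
    have h5 : Real.exp (-4000) ≤ Real.exp (-(ra d q * (1 + ms d q))) := by
      refine Real.exp_le_exp.2 ?_
      nlinarith
    rw [h2] at h5
    have h6 : als (ra d q) (ms d q) * (1 - ms d q) ≤ 1 * (1 - ms d q) :=
      mul_le_mul_of_nonneg_right h4 hmu.le
    linarith
  rcases gm_cases A v s c with h | h
  · rw [h]
    refine ⟨by linarith, by linarith, ?_⟩
    have h5 := congrArg Real.log h1
    rw [Real.log_exp, Real.log_mul h3.ne' (by linarith)] at h5
    have h6 : (2 : ℝ) - (1 + ms d q) = 1 - ms d q := by ring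
    rw [h6]
    linarith
  · rw [h]
    refine ⟨hlow, by linarith, ?_⟩
    have h5 := congrArg Real.log h2
    rw [Real.log_exp, Real.log_mul h3.ne' (by linarith)] at h5
    have h6 : (2 : ℝ) - (1 - ms d q) = 1 + ms d q := by ring
    rw [h6]
    linarith

/-- the mean of `Lm` -/
private theorem D2_eq (hd : 1 ≤ d) (hR : Rg d q) {f : Site d k → Fin q} (hf : Prp f) (A : Finset (Fin q))
    (v : Site d k) (s : ℕ) (c : Fin q) :
    PP^[s] (fun u => Lm (ya c f u / gs A v s c)) v - Gp f v s =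
      (PP^[s] (ya c f) v - gs A v s c) / gs A v s c +
        (PP^[s] (hh c f) v - ra d q * (2 - gs A v s c)) := by
  obtain ⟨hq, -⟩ := rg_pos hd hR
  obtain ⟨hg0, -, hlog⟩ := D2_gs hd hR A v s c
  have hg : 0 < gs A v s c := lt_of_lt_of_le (Real.exp_pos _) hg0
  have hfun : (fun u => Lm (ya c f u / gs A v s c)) = fun u =>
      (((gs A v s c)⁻¹ * ya c f u + hh c f u) + Real.log (al f u)) + (Real.log (gs A v s c) - 1) := by
    funext u
    have hal : 0 < al f u := lt_of_lt_of_le (Real.exp_pos _) (al_ge hq hf u)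
    have hya : Real.log (ya c f u) = -hh c f u - Real.log (al f u) := by
      unfold ya
      rw [Real.log_div (Real.exp_pos _).ne' hal.ne', Real.log_exp]
    have hypos := (ya_bound hq hf c u).1
    unfold Lm
    rw [Real.log_div hypos.ne' hg.ne', hya]
    ring
  rw [hfun, D2_add s (fun u => ((gs A v s c)⁻¹ * ya c f u + hh c f u) + Real.log (al f u))
    (fun _ => Real.log (gs A v s c) - 1), PPt_const hd,
    D2_add s (fun u => (gs A v s c)⁻¹ * ya c f u + hh c f u) (fun u => Real.log (al f u)),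
    D2_add s (fun u => (gs A v s c)⁻¹ * ya c f u) (hh c f), PPt_mul s _ (ya c f)]
  unfold Gp
  rw [hlog]
  field_simp
  ring

theorem gap_eq (hd : 1 ≤ d) (hR : Rg d q) {f : Site d k → Fin q} (hf : Prp f) (A : Finset (Fin q)) (v : Site d k) (s : ℕ) (η : ℝ)
    (hη : 0 ≤ η) (hG : GapH η A f v s) (c : Fin q) :
    |PP^[s] (fun u => Lm (ya c f u / gs A v s c)) v - Gp f v s| ≤ Real.exp 4001 * η := by
  obtain ⟨hg0, -, -⟩ := D2_gs hd hR A v s c
  have hg : 0 < gs A v s c := lt_of_lt_of_le (Real.exp_pos _) hg0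
  rw [D2_eq hd hR hf]
  refine (abs_add_le _ _).trans ?_
  have h1 : |(PP^[s] (ya c f) v - gs A v s c) / gs A v s c| ≤ Real.exp 4000 * η := by
    rw [abs_div, abs_of_pos hg, div_le_iff₀ hg]
    have h2 : 1 ≤ Real.exp 4000 * gs A v s c := by
      have h3 : Real.exp 4000 * Real.exp (-4000) = 1 := by
        rw [← Real.exp_add]
        norm_num
      rw [← h3]
      exact mul_le_mul_of_nonneg_left hg0 (Real.exp_nonneg _)
    have h4 := hG.y c
    calc |PP^[s] (ya c f) v - gs A v s c| ≤ η := h4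
      _ = η * 1 := (mul_one _).symm
      _ ≤ η * (Real.exp 4000 * gs A v s c) := mul_le_mul_of_nonneg_left h2 hη
      _ = Real.exp 4000 * η * gs A v s c := by ring
  have h5 := hG.h c
  have h6 : Real.exp 4000 + 1 ≤ Real.exp 4001 := by
    have h7 : Real.exp 4001 = Real.exp 4000 * Real.exp 1 := by
      rw [← Real.exp_add]
      norm_num
    have h8 : (1 : ℝ) + 1 ≤ Real.exp 1 := Real.add_one_le_exp 1
    have h9 : (1 : ℝ) ≤ Real.exp 4000 := Real.one_le_exp (by norm_num)
    rw [h7]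
    nlinarith
  calc |(PP^[s] (ya c f) v - gs A v s c) / gs A v s c| + |PP^[s] (hh c f) v - ra d q * (2 - gs A v s c)|
      ≤ Real.exp 4000 * η + η := add_le_add h1 h5
    _ = (Real.exp 4000 + 1) * η := by ring
    _ ≤ Real.exp 4001 * η := mul_le_mul_of_nonneg_right h6 hη

private theorem D2_quad (hd : 1 ≤ d) (hR : Rg d q) {f : Site d k → Fin q} (hf : Prp f) (A : Finset (Fin q))
    (v : Site d k) (s : ℕ) (η : ℝ) (hη : 0 ≤ η) (hG : GapH η A f v s) (c : Fin q) (K : ℝ) (hK : 0 ≤ K)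
    (hK2 : 2 * gs A v s c * (gs A v s c + Real.exp (ra d q)) ≤ K) :
    PP^[s] (fun u => (ya c f u - gs A v s c) ^ 2) v ≤ K * (Gp f v s + Real.exp 4001 * η) := by
  obtain ⟨hq, -⟩ := rg_pos hd hR
  obtain ⟨hg0, -, -⟩ := D2_gs hd hR A v s c
  have hg : 0 < gs A v s c := lt_of_lt_of_le (Real.exp_pos _) hg0
  have h1 : ∀ u, (ya c f u - gs A v s c) ^ 2 ≤ K * Lm (ya c f u / gs A v s c) := by
    intro u
    obtain ⟨hy, hy2⟩ := ya_bound hq hf c u
    refine (Lm_quad hy hg hy2).trans ?_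
    exact mul_le_mul_of_nonneg_right hK2 (Lm_ge (div_pos hy hg))
  refine (PPt_mono s h1 v).trans ?_
  rw [PPt_mul s K (fun u => Lm (ya c f u / gs A v s c))]
  refine mul_le_mul_of_nonneg_left ?_ hK
  have h2 := (abs_le.1 (gap_eq hd hR hf A v s η hη hG c)).2
  linarith

theorem gap_lo (hd : 1 ≤ d) (hR : Rg d q) {f : Site d k → Fin q} (hf : Prp f) (A : Finset (Fin q)) (v : Site d k) (s : ℕ) (η : ℝ)
    (hη : 0 ≤ η) (hG : GapH η A f v s) (c : Fin q) (hc : gs A v s c = 1 - ms d q) :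
    PP^[s] (fun u => (ya c f u - (1 - ms d q)) ^ 2) v ≤ 12 * Real.exp (-ra d q) * (Gp f v s + Real.exp 4001 * η) := by
  obtain ⟨-, ha, -⟩ := rg_pos hd hR
  obtain ⟨-, -, hmu, hmu0, -⟩ := mf_num ha (ms_spec hd hR)
  have h := D2_quad hd hR hf A v s η hη hG c (12 * Real.exp (-ra d q)) (by positivity) (by
    rw [hc]
    have h1 : Real.exp (-(2 * ra d q)) = Real.exp (-ra d q) * Real.exp (-ra d q) := by
      rw [← Real.exp_add]
      congr 1
      ring
    have h2 : Real.exp (-ra d q) * Real.exp (ra d q) = 1 := by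
      rw [← Real.exp_add]
      simp
    have h3 : Real.exp (-ra d q) ≤ 1 := Real.exp_le_one_iff.2 (by linarith)
    have h4 : (1001 : ℝ) ≤ Real.exp (ra d q) := by
      have := Real.add_one_le_exp (ra d q)
      linarith
    have h5 : 0 < Real.exp (-ra d q) := Real.exp_pos _
    have h6 : 1 - ms d q ≤ Real.exp (ra d q) := by nlinarith
    calc 2 * (1 - ms d q) * (1 - ms d q + Real.exp (ra d q))
        ≤ 2 * (1 - ms d q) * (Real.exp (ra d q) + Real.exp (ra d q)) :=
          mul_le_mul_of_nonneg_left (by linarith) (by linarith)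
      _ = 4 * Real.exp (ra d q) * (1 - ms d q) := by ring
      _ ≤ 4 * Real.exp (ra d q) * (3 * Real.exp (-(2 * ra d q))) :=
          mul_le_mul_of_nonneg_left hmu (by positivity)
      _ = 12 * Real.exp (-ra d q) * (Real.exp (-ra d q) * Real.exp (ra d q)) := by
          rw [h1]
          ring
      _ = 12 * Real.exp (-ra d q) := by rw [h2, mul_one])
  rwa [hc] at h

theorem gap_quad (hd : 1 ≤ d) (hR : Rg d q) {f : Site d k → Fin q} (hf : Prp f) (A : Finset (Fin q)) (v : Site d k) (s : ℕ) (η : ℝ)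
    (hη : 0 ≤ η) (hG : GapH η A f v s) (c : Fin q) :
    PP^[s] (fun u => (ya c f u - gs A v s c) ^ 2) v ≤ 8 * Real.exp 2000 * (Gp f v s + Real.exp 4001 * η) := by
  obtain ⟨-, -, ha2, -⟩ := rg_pos hd hR
  obtain ⟨hg0, hg2, -⟩ := D2_gs hd hR A v s c
  have hg : 0 < gs A v s c := lt_of_lt_of_le (Real.exp_pos _) hg0
  refine D2_quad hd hR hf A v s η hη hG c (8 * Real.exp 2000) (by positivity) ?_
  have h1 : Real.exp (ra d q) ≤ Real.exp 2000 := Real.exp_le_exp.2 ha2
  have h2 : (2 : ℝ) ≤ Real.exp 2000 := by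
    have := Real.add_one_le_exp (2000 : ℝ)
    linarith
  calc 2 * gs A v s c * (gs A v s c + Real.exp (ra d q))
      ≤ 2 * gs A v s c * (Real.exp 2000 + Real.exp 2000) :=
        mul_le_mul_of_nonneg_left (by linarith) (by linarith)
    _ ≤ 2 * 2 * (Real.exp 2000 + Real.exp 2000) :=
        mul_le_mul_of_nonneg_right (by linarith) (by positivity)
    _ = 8 * Real.exp 2000 := by ring

end Pool.Agent.LC

end

/-! ### from `Lib_MP_2c424f_lc1.D4` -/

section

/-!
# LC1 D4: linear growth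

`D j c u := |hc c f u - a (2 - gs A v j c)|`, `Db j u := mc (fun c => D j c u)`, `X j u := D j c u + Db j u`.
(1) `γ = gs A v j c`, `hs = a(2-γ)`, `e^{-hs} = als γ`: `|ya c f w - γ| ≤ |e^{-hh} - e^{-hs}|/al + γ |al - als|/al ≤ e^a |hh - hs| + 2e^a |al - als|`, `al ≥ e^{-a}`;
    `|al f w - als| ≤ mc |e^{-hh} - e^{-hs}| + |als| |mc (gs A v j) - 1| ≤ mc |hh - hs| + 2η` (`hA`: `mc (gs) = 1 + O(η)`);  `|hh - hs| ≤ D j c w + 2a 1[f w = c]` (`hc_eq`, `hh_self`), `mc` of it `≤ Db + 2a/q`.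
    So `|ya c f w - γ_j| ≤ 2e^a (X j w + 2a 1[f w = c] + 2a/q + 2η)`.
(2) `u` not `Xs η`: `D j c u ≤ a |PP (ya c f) u - gs A v (j+1) c| + η ≤ a PP |ya c f - gs A v (j+1) c| u + η`  (`2 - gs A v j c = gs A v (j+1) c`), `PP 1[f · = c] u = nf c f u/(2d) ≤ η`.
    Hence `X j u ≤ e^{2100} (PP (X (j+1)) u + η)`; for all `u`: `X j u ≤ 8d` (`hc_le`, `2a ≤ 4000 ≤ 2d`).  So `X j u ≤ e^{2100} (PP (X (j+1)) u + η) + 8d 1[Xs u]`.
(3) iterate `t` times at `v`: `X 0 v ≤ e^{2100 t} PP^[t] (X t) v + t e^{2100 t} η + ∑_{j<t} e^{2100 j} 8d PP^[j] 1[Xs] v`, and `PP^[t] (X t) v ≤ a PP^[t+1] |ya - gs| v + η + 8d PP^[t] 1[Xs] v` (for `c` and the mean over the colours),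
    `PP^[t+1] |ya - gs| v ≤ √ζ` (`PPt_sq`).   All together `≤ e^{2200 (t+2)} (√ζ + η)`.
`al_near`: (1) at `v` itself.
-/

set_option autoImplicit false

open Finset Filter

namespace Pool.Agent.LC

open Pool.Agent.LO Pool.Agent.LIN Pool.Agent.THR Pool.Agent.COR

variable {d k q : ℕ}

/-! ### the mean over the colours -/

private theorem D4_mc_mono {φ ψ : Fin q → ℝ} (h : ∀ c, φ c ≤ ψ c) : mc φ ≤ mc ψ := by
  unfold mc
  exact div_le_div_of_nonneg_right (Finset.sum_le_sum fun c _ => h c) (Nat.cast_nonneg _)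

private theorem D4_mc_add (φ ψ : Fin q → ℝ) : mc (fun c => φ c + ψ c) = mc φ + mc ψ := by
  unfold mc
  rw [Finset.sum_add_distrib, add_div]

private theorem D4_mc_sub (φ ψ : Fin q → ℝ) : mc (fun c => φ c - ψ c) = mc φ - mc ψ := by
  unfold mc
  rw [Finset.sum_sub_distrib, sub_div]

private theorem D4_mc_mul (r : ℝ) (φ : Fin q → ℝ) : mc (fun c => r * φ c) = r * mc φ := by
  unfold mc
  rw [← Finset.mul_sum, mul_div_assoc]

private theorem D4_mc_const (hq : 0 < q) (r : ℝ) : mc (fun _ : Fin q => r) = r := by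
  have hq' : (0 : ℝ) < q := by exact_mod_cast hq
  unfold mc
  rw [Finset.sum_const, Finset.card_univ, Fintype.card_fin, nsmul_eq_mul]
  field_simp

private theorem D4_mc_abs (φ : Fin q → ℝ) : |mc φ| ≤ mc fun c => |φ c| := by
  unfold mc
  rw [abs_div, Nat.abs_cast]
  exact div_le_div_of_nonneg_right (Finset.abs_sum_le_sum_abs _ _) (Nat.cast_nonneg _)

private theorem D4_mc_one (w : Fin q) : mc (fun c => ind (w = c)) = 1 / q := by
  have h : ∑ c : Fin q, ind (w = c) = 1 := by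
    rw [Finset.sum_eq_single w]
    · unfold ind
      rw [if_pos rfl]
    · intro b _ hb
      unfold ind
      rw [if_neg fun h => hb h.symm]
    · intro h
      exact absurd (Finset.mem_univ w) h
  show (∑ c : Fin q, ind (w = c)) / (q : ℝ) = 1 / q
  rw [h]

private theorem D4_PP_mc (t : ℕ) (g : Fin q → Site d k → ℝ) (x : Site d k) :
    PP^[t] (fun u => mc fun c => g c u) x = mc fun c => PP^[t] (g c) x := by
  have h1 : (fun u => mc fun c => g c u) = fun u => (1 / (q : ℝ)) * ∑ c, g c u := by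
    funext u
    unfold mc
    ring
  rw [h1, PPt_mul, PPt_sum]
  unfold mc
  ring

private theorem D4_PP_add (t : ℕ) (g h : Site d k → ℝ) (x : Site d k) :
    PP^[t] (fun u => g u + h u) x = PP^[t] g x + PP^[t] h x := by
  have h1 : (fun u => g u + h u) = fun u => g u - (-1) * h u := by
    funext u
    ring
  rw [h1, PPt_sub t g (fun u => (-1) * h u), PPt_mul]
  ring

private theorem D4_PP_one (g : Site d k → ℝ) (x : Site d k) : PP^[1] g x = PP g x := rfl

/-! ### the mean-field values -/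

private theorem D4_gs_succ (A : Finset (Fin q)) (v : Site d k) (j : ℕ) (c : Fin q) :
    gs A v (j + 1) c = 2 - gs A v j c := by
  unfold gs
  by_cases h : Even j
  · have h1 : ¬ Even (j + 1) := by
      rw [Nat.even_add_one, not_not]
      exact h
    rw [if_pos h, if_neg h1]
  · have h1 : Even (j + 1) := by
      rw [Nat.even_add_one]
      exact h
    rw [if_neg h, if_pos h1]
    ring

private theorem D4_gs_bd (hd : 1 ≤ d) (hR : Rg d q) (A : Finset (Fin q)) (v : Site d k) (j : ℕ) (c : Fin q) :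
    0 ≤ gs A v j c ∧ gs A v j c ≤ 2 ∧
      Real.exp (-(ra d q * (2 - gs A v j c))) = als (ra d q) (ms d q) * gs A v j c := by
  have hra := (rg_pos hd hR).2.1
  obtain ⟨h0, h1, _, h2, _, h3, h4, _⟩ := mf_num hra (ms_spec hd hR)
  rcases gm_cases A v j c with h | h
  · rw [h]
    refine ⟨by linarith, by linarith, ?_⟩
    rw [← h3]
    congr 2
    ring
  · rw [h]
    refine ⟨by linarith, by linarith, ?_⟩
    rw [← h4]
    congr 2
    ring

private theorem D4_gm_mc (hd : 1 ≤ d) (hR : Rg d q) (A : Finset (Fin q)) (v : Site d k) (η : ℝ)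
    (hA : |(A.card : ℝ) / q - 1 / 2| ≤ η) : |mc (gm A v) - 1| ≤ 2 * η := by
  classical
  have hra := (rg_pos hd hR).2.1
  have hq := (rg_pos hd hR).1
  have hq' : (0 : ℝ) < q := by exact_mod_cast hq
  obtain ⟨h0, h1, _⟩ := mf_num hra (ms_spec hd hR)
  have hη : 0 ≤ η := le_trans (abs_nonneg _) hA
  have key : |2 * ms d q * ((A.card : ℝ) / q - 1 / 2)| ≤ 2 * η := by
    rw [abs_mul, abs_of_pos (by linarith : (0 : ℝ) < 2 * ms d q)]
    have := mul_le_mul (by linarith : 2 * ms d q ≤ 2) hA (abs_nonneg _) (by norm_num)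
    linarith
  have hs1 : ∑ c : Fin q, (if c ∈ A then (2 * ms d q) else 0) = 2 * ms d q * A.card := by
    rw [Finset.sum_ite_mem, Finset.univ_inter, Finset.sum_const, nsmul_eq_mul]
    ring
  by_cases hv : evn v
  · have e1 : ∀ c, gm A v c = (1 - ms d q) + (if c ∈ A then (2 * ms d q) else 0) := by
      intro c
      unfold gm tS
      by_cases hc : c ∈ A
      · rw [if_pos hc, if_pos (by tauto)]
        ring
      · rw [if_neg hc, if_neg (by tauto)]
        ring
    have e2 : mc (gm A v) - 1 = 2 * ms d q * ((A.card : ℝ) / q - 1 / 2) := by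
      unfold mc
      rw [Finset.sum_congr rfl fun c _ => e1 c, Finset.sum_add_distrib, hs1, Finset.sum_const,
        Finset.card_univ, Fintype.card_fin, nsmul_eq_mul]
      field_simp
      ring
    rw [e2]
    exact key
  · have e1 : ∀ c, gm A v c = (1 + ms d q) - (if c ∈ A then (2 * ms d q) else 0) := by
      intro c
      unfold gm tS
      by_cases hc : c ∈ A
      · rw [if_pos hc, if_neg (by tauto)]
        ring
      · rw [if_neg hc, if_pos (by tauto)]
        ring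
    have e2 : mc (gm A v) - 1 = -(2 * ms d q * ((A.card : ℝ) / q - 1 / 2)) := by
      unfold mc
      rw [Finset.sum_congr rfl fun c _ => e1 c, Finset.sum_sub_distrib, hs1, Finset.sum_const,
        Finset.card_univ, Fintype.card_fin, nsmul_eq_mul]
      field_simp
      ring
    rw [e2, abs_neg]
    exact key

private theorem D4_gs_mc (hd : 1 ≤ d) (hR : Rg d q) (A : Finset (Fin q)) (v : Site d k) (j : ℕ) (η : ℝ)
    (hA : |(A.card : ℝ) / q - 1 / 2| ≤ η) : |mc (gs A v j) - 1| ≤ 2 * η := by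
  have h1 := D4_gm_mc hd hR A v η hA
  have hq := (rg_pos hd hR).1
  by_cases h : Even j
  · have e : gs A v j = gm A v := by
      funext c
      unfold gs
      rw [if_pos h]
    rw [e]
    exact h1
  · have e : gs A v j = fun c => 2 - gm A v c := by
      funext c
      unfold gs
      rw [if_neg h]
    rw [e, D4_mc_sub (fun _ => (2 : ℝ)) (gm A v), D4_mc_const hq]
    have e2 : 2 - mc (gm A v) - 1 = -(mc (gm A v) - 1) := by ring
    rw [e2, abs_neg]
    exact h1

/-! ### one step -/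

private noncomputable def D4_D (A : Finset (Fin q)) (f : Site d k → Fin q) (v : Site d k) (j : ℕ) (c : Fin q) (u : Site d k) : ℝ :=
  |hc c f u - ra d q * (2 - gs A v j c)|

private noncomputable def D4_B (A : Finset (Fin q)) (f : Site d k → Fin q) (v : Site d k) (j : ℕ) (u : Site d k) : ℝ :=
  mc fun c => D4_D A f v j c u

private theorem D4_ind (P : Prop) : 0 ≤ ind P := by
  unfold ind
  split_ifs <;> norm_num

private theorem D4_hh (hd : 1 ≤ d) (hR : Rg d q) (f : Site d k → Fin q) (A : Finset (Fin q))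
    (v : Site d k) (j : ℕ) (c : Fin q) (w : Site d k) :
    |hh c f w - ra d q * (2 - gs A v j c)| ≤ D4_D A f v j c w + 2 * ra d q * ind (f w = c) := by
  have hra := (rg_pos hd hR).2.1
  obtain ⟨h0, h2, _⟩ := D4_gs_bd hd hR A v j c
  by_cases h : f w = c
  · have e1 : hh c f w = 0 := by
      rw [← h]
      exact hh_self f w
    have e2 : ind (f w = c) = 1 := by
      unfold ind
      rw [if_pos h]
    have e3 : 0 ≤ D4_D A f v j c w := abs_nonneg _
    rw [e1, e2, zero_sub, abs_neg, abs_of_nonneg (mul_nonneg (by linarith) (by linarith))]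
    nlinarith
  · have e1 : ind (f w = c) = 0 := by
      unfold ind
      rw [if_neg h]
    rw [e1, mul_zero, add_zero, ← hc_eq f w c h]
    exact le_refl _

private theorem D4_expL (x y : ℝ) (hx : 0 ≤ x) (hy : 0 ≤ y) :
    |Real.exp (-x) - Real.exp (-y)| ≤ |x - y| := by
  have key : ∀ a b : ℝ, 0 ≤ a → a ≤ b → |Real.exp (-a) - Real.exp (-b)| ≤ |a - b| := by
    intro a b ha hab
    have h1 : Real.exp (-b) ≤ Real.exp (-a) := Real.exp_le_exp.2 (by linarith)
    have h2 : Real.exp (-a) ≤ 1 := Real.exp_le_one_iff.2 (by linarith)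
    have h3 : Real.exp (-b) = Real.exp (-a) * Real.exp (-(b - a)) := by
      rw [← Real.exp_add]
      congr 1
      ring
    have h4 := Real.add_one_le_exp (-(b - a))
    rw [abs_of_nonneg (by linarith), abs_of_nonpos (by linarith), h3]
    have h5 := Real.exp_pos (-a)
    nlinarith
  rcases le_total x y with h | h
  · exact key x y hx h
  · rw [abs_sub_comm, abs_sub_comm x y]
    exact key y x hy h

private theorem D4_al (hd : 1 ≤ d) (hR : Rg d q) (f : Site d k → Fin q) (A : Finset (Fin q))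
    (v : Site d k) (j : ℕ) (η : ℝ) (hA : |(A.card : ℝ) / q - 1 / 2| ≤ η) (w : Site d k) :
    |al f w - als (ra d q) (ms d q)| ≤ D4_B A f v j w + 2 * ra d q / q + 2 * η := by
  have hra := (rg_pos hd hR).2.1
  have hq := (rg_pos hd hR).1
  obtain ⟨h0, h1, _, h2, _, h3, h4, h5, h6, _⟩ := mf_num hra (ms_spec hd hR)
  have e1 : al f w = mc (fun c => Real.exp (-hh c f w)) := rfl
  have e2 : mc (fun c => Real.exp (-(ra d q * (2 - gs A v j c)))) = als (ra d q) (ms d q) * mc (gs A v j) := by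
    rw [← D4_mc_mul]
    congr 1
    funext c
    exact (D4_gs_bd hd hR A v j c).2.2
  have e3 : al f w - als (ra d q) (ms d q) = mc (fun c => Real.exp (-hh c f w) - Real.exp (-(ra d q * (2 - gs A v j c)))) +
      als (ra d q) (ms d q) * (mc (gs A v j) - 1) := by
    rw [D4_mc_sub (fun c => Real.exp (-hh c f w)) (fun c => Real.exp (-(ra d q * (2 - gs A v j c)))), e1, e2]
    ring
  rw [e3]
  refine (abs_add_le _ _).trans ?_
  have e4 : |als (ra d q) (ms d q) * (mc (gs A v j) - 1)| ≤ 2 * η := by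
    rw [abs_mul, abs_of_pos h5]
    have h7 := D4_gs_mc hd hR A v j η hA
    calc als (ra d q) (ms d q) * |mc (gs A v j) - 1| ≤ 1 * |mc (gs A v j) - 1| :=
          mul_le_mul_of_nonneg_right h6 (abs_nonneg _)
      _ ≤ 2 * η := by linarith
  have e5 : |mc (fun c => Real.exp (-hh c f w) - Real.exp (-(ra d q * (2 - gs A v j c))))| ≤
      D4_B A f v j w + 2 * ra d q / q := by
    refine (D4_mc_abs _).trans ?_
    have e6 : D4_B A f v j w + 2 * ra d q / q = mc (fun c => D4_D A f v j c w + 2 * ra d q * ind (f w = c)) := by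
      rw [D4_mc_add (fun c => D4_D A f v j c w) (fun c => 2 * ra d q * ind (f w = c)), D4_mc_mul, D4_mc_one]
      unfold D4_B
      ring
    rw [e6]
    refine D4_mc_mono fun c => ?_
    refine (D4_expL _ _ (hh_nonneg c f w) ?_).trans (D4_hh hd hR f A v j c w)
    have h8 := (D4_gs_bd hd hR A v j c).2.1
    exact mul_nonneg (by linarith) (by linarith)
  linarith

private theorem D4_ya (hd : 1 ≤ d) (hR : Rg d q) {f : Site d k → Fin q} (hf : Prp f) (A : Finset (Fin q))
    (v : Site d k) (j : ℕ) (η : ℝ) (hA : |(A.card : ℝ) / q - 1 / 2| ≤ η) (c : Fin q) (w : Site d k) :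
    |ya c f w - gs A v j c| ≤ 2 * Real.exp (ra d q) * (D4_D A f v j c w + D4_B A f v j w +
      2 * ra d q * ind (f w = c) + 2 * ra d q / q + 2 * η) := by
  have hra := (rg_pos hd hR).2.1
  have hq := (rg_pos hd hR).1
  obtain ⟨g0, g2, g3⟩ := D4_gs_bd hd hR A v j c
  have h1 := al_ge hq hf w
  have h2 : 0 < al f w := lt_of_lt_of_le (Real.exp_pos _) h1
  have h3 := D4_al hd hR f A v j η hA w
  have h4 := D4_hh hd hR f A v j c w
  have h5 : |Real.exp (-hh c f w) - Real.exp (-(ra d q * (2 - gs A v j c)))| ≤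
      D4_D A f v j c w + 2 * ra d q * ind (f w = c) :=
    (D4_expL _ _ (hh_nonneg c f w) (mul_nonneg (by linarith) (by linarith))).trans h4
  have h9 : 1 / al f w ≤ Real.exp (ra d q) := by
    rw [div_le_iff₀ h2]
    calc (1 : ℝ) = Real.exp (ra d q) * Real.exp (-ra d q) := by
          rw [← Real.exp_add, add_neg_cancel, Real.exp_zero]
      _ ≤ _ := mul_le_mul_of_nonneg_left h1 (Real.exp_nonneg _)
  have e1 : ya c f w - gs A v j c = (1 / al f w) * ((Real.exp (-hh c f w) - Real.exp (-(ra d q * (2 - gs A v j c)))) -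
      gs A v j c * (al f w - als (ra d q) (ms d q))) := by
    rw [g3]
    unfold ya
    field_simp
    ring
  have e2 : |(Real.exp (-hh c f w) - Real.exp (-(ra d q * (2 - gs A v j c)))) -
      gs A v j c * (al f w - als (ra d q) (ms d q))| ≤
      2 * (D4_D A f v j c w + D4_B A f v j w + 2 * ra d q * ind (f w = c) + 2 * ra d q / q + 2 * η) := by
    refine (abs_sub _ _).trans ?_
    rw [abs_mul, abs_of_nonneg g0]
    have h6 : gs A v j c * |al f w - als (ra d q) (ms d q)| ≤ 2 * (D4_B A f v j w + 2 * ra d q / q + 2 * η) := by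
      calc gs A v j c * |al f w - als (ra d q) (ms d q)| ≤ 2 * |al f w - als (ra d q) (ms d q)| :=
            mul_le_mul_of_nonneg_right g2 (abs_nonneg _)
        _ ≤ _ := by linarith
    have h7 : 0 ≤ D4_D A f v j c w := abs_nonneg _
    have h8 : 0 ≤ 2 * ra d q * ind (f w = c) := mul_nonneg (by linarith) (D4_ind _)
    linarith
  rw [e1, abs_mul, abs_of_pos (by positivity : 0 < 1 / al f w)]
  calc 1 / al f w * |(Real.exp (-hh c f w) - Real.exp (-(ra d q * (2 - gs A v j c)))) -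
      gs A v j c * (al f w - als (ra d q) (ms d q))| ≤
      Real.exp (ra d q) * (2 * (D4_D A f v j c w + D4_B A f v j w + 2 * ra d q * ind (f w = c) + 2 * ra d q / q + 2 * η)) :=
        mul_le_mul h9 e2 (abs_nonneg _) (Real.exp_nonneg _)
    _ = _ := by ring

/-- the number of neighbours of one colour as a mean -/
private theorem D4_nf (hd : 1 ≤ d) (c : Fin q) (f : Site d k → Fin q) (u : Site d k) :
    PP (fun w => ind (f w = c)) u = nf c f u / (2 * d) := by
  unfold PP nf ind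
  congr 1
  rw [Finset.card_filter]
  push_cast
  refine Finset.sum_congr rfl fun σ _ => ?_
  by_cases h : f (u + sv σ) = c
  · rw [if_pos h, if_pos h]
  · rw [if_neg h, if_neg h]

/-- not exceptional: the local equation -/
private theorem D4_loc (hd : 1 ≤ d) (hR : Rg d q) (f : Site d k → Fin q) (A : Finset (Fin q)) (v : Site d k) (j : ℕ)
    (η : ℝ) (c : Fin q) (u : Site d k) (hu : ¬ Xs η f u) :
    D4_D A f v j c u ≤ η + ra d q * PP (fun w => |ya c f w - gs A v (j + 1) c|) u := by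
  have hra := (rg_pos hd hR).2.1
  unfold Xs at hu
  push Not at hu
  have h1 := hu.1 c
  have h2 : PP (ya c f) u - gs A v (j + 1) c = PP (fun w => ya c f w - gs A v (j + 1) c) u := by
    have h3 := PPt_sub 1 (ya c f) (fun _ => gs A v (j + 1) c) u
    rw [PPt_const hd] at h3
    exact h3.symm
  have h4 : |PP (fun w => ya c f w - gs A v (j + 1) c) u| ≤ PP (fun w => |ya c f w - gs A v (j + 1) c|) u :=
    PPt_abs 1 (fun w => ya c f w - gs A v (j + 1) c) u
  unfold D4_D
  rw [← D4_gs_succ]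
  have e1 : hc c f u - ra d q * gs A v (j + 1) c = (hc c f u - ra d q * PP (ya c f) u) +
      ra d q * (PP (ya c f) u - gs A v (j + 1) c) := by ring
  rw [e1]
  refine (abs_add_le _ _).trans (add_le_add h1 ?_)
  rw [abs_mul, abs_of_nonneg (by linarith : (0 : ℝ) ≤ ra d q), h2]
  exact mul_le_mul_of_nonneg_left h4 (by linarith)

private theorem D4_D_le (hd : 2000 ≤ d) (hR : Rg d q) {f : Site d k → Fin q} (hf : Prp f) (A : Finset (Fin q))
    (v : Site d k) (j : ℕ) (c : Fin q) (u : Site d k) : D4_D A f v j c u ≤ 2 * d := by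
  have hd1 : 1 ≤ d := by omega
  have hd' : (2000 : ℝ) ≤ d := by exact_mod_cast hd
  have hra := (rg_pos hd1 hR).2.1
  have hra2 := (rg_pos hd1 hR).2.2.1
  obtain ⟨g0, g2, _⟩ := D4_gs_bd hd1 hR A v j c
  obtain ⟨h0, h1⟩ := hc_le hf u c
  have h2 : 0 ≤ ra d q * (2 - gs A v j c) := mul_nonneg (by linarith) (by linarith)
  have h3 : ra d q * (2 - gs A v j c) ≤ 2000 * 2 := mul_le_mul hra2 (by linarith) (by linarith) (by norm_num)
  unfold D4_D
  rw [abs_le]
  constructor <;> linarith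

private theorem D4_D0 (A : Finset (Fin q)) (f : Site d k → Fin q) (v : Site d k) (j : ℕ) (c : Fin q) (u : Site d k) :
    0 ≤ D4_D A f v j c u := abs_nonneg _

private theorem D4_B0 (A : Finset (Fin q)) (f : Site d k → Fin q) (v : Site d k) (j : ℕ) (u : Site d k) :
    0 ≤ D4_B A f v j u := by
  unfold D4_B mc
  exact div_nonneg (Finset.sum_nonneg fun c _ => D4_D0 A f v j c u) (Nat.cast_nonneg _)

private theorem D4_B_le (hd : 2000 ≤ d) (hR : Rg d q) {f : Site d k → Fin q} (hf : Prp f) (A : Finset (Fin q))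
    (v : Site d k) (j : ℕ) (u : Site d k) : D4_B A f v j u ≤ 2 * d := by
  have hq := (rg_pos (by omega : 1 ≤ d) hR).1
  unfold D4_B
  refine (D4_mc_mono fun c => D4_D_le hd hR hf A v j c u).trans ?_
  rw [D4_mc_const hq]

private theorem D4_exp_num {a : ℝ} (ha : 1000 ≤ a) (ha2 : a ≤ 2000) :
    6 * a * Real.exp a ≤ Real.exp 2100 ∧ 2 + 4 * a * Real.exp a * (3 * a + 2) ≤ Real.exp 2100 := by
  have h1 : Real.exp a ≤ Real.exp 2000 := Real.exp_le_exp.2 ha2
  have h2 : Real.exp 2100 = Real.exp 2000 * Real.exp 100 := by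
    rw [← Real.exp_add]
    norm_num
  have h3 : (2 : ℝ) ^ 100 ≤ Real.exp 100 := by
    have h4 : (2 : ℝ) ≤ Real.exp 1 := by
      have := Real.add_one_le_exp (1 : ℝ)
      linarith
    calc (2 : ℝ) ^ 100 ≤ Real.exp 1 ^ 100 := pow_le_pow_left₀ (by norm_num) h4 _
      _ = Real.exp 100 := by
          rw [← Real.exp_nat_mul]
          norm_num
  have h5 : (1 : ℝ) ≤ Real.exp 2000 := Real.one_le_exp (by norm_num)
  have h6 := Real.exp_pos a
  have h7 : (10 : ℝ) ^ 10 ≤ Real.exp 100 := le_trans (by norm_num) h3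
  constructor
  · rw [h2]
    calc 6 * a * Real.exp a ≤ 12000 * Real.exp 2000 :=
          mul_le_mul (by linarith) h1 h6.le (by norm_num)
      _ ≤ Real.exp 2000 * Real.exp 100 := by nlinarith
  · rw [h2]
    have h8 : 4 * a * Real.exp a * (3 * a + 2) ≤ 8000 * Real.exp 2000 * 6002 := by
      refine mul_le_mul (mul_le_mul (by linarith) h1 h6.le (by norm_num)) (by linarith) (by linarith) (by positivity)
    nlinarith

/-- one step of the growth, for all sites -/
private theorem D4_step (hd : 2000 ≤ d) (hR : Rg d q) {f : Site d k → Fin q} (hf : Prp f) (A : Finset (Fin q))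
    (v : Site d k) (j : ℕ) (η : ℝ) (hη : 0 < η) (hq : 1 / η ≤ q) (hA : |(A.card : ℝ) / q - 1 / 2| ≤ η)
    (c : Fin q) (u : Site d k) :
    D4_D A f v j c u + D4_B A f v j u ≤
      (Real.exp 2100 * PP (fun w => D4_D A f v (j + 1) c w + D4_B A f v (j + 1) w) u + Real.exp 2100 * η) +
        8 * d * ind (Xs η f u) := by
  have hd1 : 1 ≤ d := by omega
  have hd' : (2000 : ℝ) ≤ d := by exact_mod_cast hd
  have hdp : (0 : ℝ) < d := by linarith
  have hra := (rg_pos hd1 hR).2.1
  have hra2 := (rg_pos hd1 hR).2.2.1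
  have hq0 := (rg_pos hd1 hR).1
  have hq' : (0 : ℝ) < q := by exact_mod_cast hq0
  have hK := D4_exp_num hra hra2
  have hK0 := Real.exp_pos 2100
  have hP0 : ∀ g : Site d k → ℝ, (∀ w, 0 ≤ g w) → 0 ≤ PP g u := by
    intro g hg
    have h := PPt_mono 1 (g := fun _ => (0 : ℝ)) (h := g) hg u
    rw [PPt_const hd1] at h
    exact h
  by_cases hu : Xs η f u
  · have e1 : ind (Xs η f u) = 1 := by
      unfold ind
      rw [if_pos hu]
    have e2 := D4_D_le hd hR hf A v j c u
    have e3 := D4_B_le hd hR hf A v j u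
    have e4 : 0 ≤ PP (fun w => D4_D A f v (j + 1) c w + D4_B A f v (j + 1) w) u :=
      hP0 _ fun w => add_nonneg (D4_D0 _ _ _ _ _ _) (D4_B0 _ _ _ _ _)
    have e5 : 0 ≤ Real.exp 2100 * PP (fun w => D4_D A f v (j + 1) c w + D4_B A f v (j + 1) w) u + Real.exp 2100 * η := by
      positivity
    rw [e1]
    linarith
  · have hnf : ∀ c : Fin q, nf c f u ≤ η * d := by
      unfold Xs at hu
      push Not at hu
      exact hu.2
    have hqη : 2 * ra d q / q ≤ 2 * ra d q * η := by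
      have h1 : 1 / (q : ℝ) ≤ η := by
        rw [div_le_iff₀ hη] at hq
        rw [div_le_iff₀ hq']
        linarith
      calc 2 * ra d q / q = 2 * ra d q * (1 / q) := by ring
        _ ≤ _ := mul_le_mul_of_nonneg_left h1 (by linarith)
    have hstep : ∀ c : Fin q, D4_D A f v j c u ≤ η + 2 * ra d q * Real.exp (ra d q) *
        (PP (D4_D A f v (j + 1) c) u + PP (D4_B A f v (j + 1)) u + (3 * ra d q + 2) * η) := by
      intro c
      refine (D4_loc hd1 hR f A v j η c u hu).trans ?_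
      have h1 : PP (fun w => |ya c f w - gs A v (j + 1) c|) u ≤ PP (fun w => 2 * Real.exp (ra d q) *
          ((D4_D A f v (j + 1) c w + D4_B A f v (j + 1) w) + (2 * ra d q * ind (f w = c) +
            (2 * ra d q / q + 2 * η)))) u := by
        refine PPt_mono 1 (g := fun w => |ya c f w - gs A v (j + 1) c|) (h := fun w => 2 * Real.exp (ra d q) *
          ((D4_D A f v (j + 1) c w + D4_B A f v (j + 1) w) + (2 * ra d q * ind (f w = c) +
            (2 * ra d q / q + 2 * η)))) (fun w => ?_) u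
        refine (D4_ya hd1 hR hf A v (j + 1) η hA c w).trans (le_of_eq ?_)
        ring
      have h2 : PP (fun w => 2 * Real.exp (ra d q) *
          ((D4_D A f v (j + 1) c w + D4_B A f v (j + 1) w) + (2 * ra d q * ind (f w = c) +
            (2 * ra d q / q + 2 * η)))) u = 2 * Real.exp (ra d q) *
          ((PP (D4_D A f v (j + 1) c) u + PP (D4_B A f v (j + 1)) u) + (2 * ra d q * PP (fun w => ind (f w = c)) u +
            (2 * ra d q / q + 2 * η))) := by
        have g1 := PPt_mul 1 (2 * Real.exp (ra d q)) (fun w => (D4_D A f v (j + 1) c w + D4_B A f v (j + 1) w) +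
          (2 * ra d q * ind (f w = c) + (2 * ra d q / q + 2 * η))) u
        have g2 := D4_PP_add 1 (fun w => D4_D A f v (j + 1) c w + D4_B A f v (j + 1) w)
          (fun w => 2 * ra d q * ind (f w = c) + (2 * ra d q / q + 2 * η)) u
        have g3 := D4_PP_add 1 (D4_D A f v (j + 1) c) (D4_B A f v (j + 1)) u
        have g4 := D4_PP_add 1 (fun w => 2 * ra d q * ind (f w = c)) (fun _ => 2 * ra d q / q + 2 * η) u
        have g5 := PPt_mul 1 (2 * ra d q) (fun w => ind (f w = c)) u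
        have g6 := PPt_const hd1 1 (2 * ra d q / q + 2 * η) u
        rw [g3, g4, g5, g6] at g2
        rw [g2] at g1
        exact g1
      have h3 : PP (fun w => ind (f w = c)) u ≤ η / 2 := by
        rw [D4_nf hd1, div_le_iff₀ (by linarith)]
        have := hnf c
        linarith
      have h4 : 2 * ra d q * PP (fun w => ind (f w = c)) u ≤ ra d q * η := by
        calc 2 * ra d q * PP (fun w => ind (f w = c)) u ≤ 2 * ra d q * (η / 2) :=
              mul_le_mul_of_nonneg_left h3 (by linarith)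
          _ = _ := by ring
      have h5 : PP (fun w => |ya c f w - gs A v (j + 1) c|) u ≤ 2 * Real.exp (ra d q) *
          (PP (D4_D A f v (j + 1) c) u + PP (D4_B A f v (j + 1)) u + (3 * ra d q + 2) * η) := by
        refine (h1.trans (le_of_eq h2)).trans ?_
        refine mul_le_mul_of_nonneg_left ?_ (by positivity)
        linarith
      have h6 := mul_le_mul_of_nonneg_left h5 (by linarith : (0 : ℝ) ≤ ra d q)
      linarith
    have hB : D4_B A f v j u ≤ η + 2 * ra d q * Real.exp (ra d q) *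
        (2 * PP (D4_B A f v (j + 1)) u + (3 * ra d q + 2) * η) := by
      unfold D4_B
      refine (D4_mc_mono hstep).trans (le_of_eq ?_)
      have g1 : mc (fun c : Fin q => PP (D4_D A f v (j + 1) c) u) = PP (D4_B A f v (j + 1)) u :=
        (D4_PP_mc 1 (fun c => D4_D A f v (j + 1) c) u).symm
      have g2 := D4_mc_add (q := q) (fun _ => η) (fun c => 2 * ra d q * Real.exp (ra d q) *
        (PP (D4_D A f v (j + 1) c) u + PP (D4_B A f v (j + 1)) u + (3 * ra d q + 2) * η))
      have g3 := D4_mc_mul (q := q) (2 * ra d q * Real.exp (ra d q)) (fun c =>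
        (PP (D4_D A f v (j + 1) c) u + PP (D4_B A f v (j + 1)) u + (3 * ra d q + 2) * η))
      have g4 := D4_mc_add (q := q) (fun c => PP (D4_D A f v (j + 1) c) u + PP (D4_B A f v (j + 1)) u)
        (fun _ => (3 * ra d q + 2) * η)
      have g5 := D4_mc_add (q := q) (fun c => PP (D4_D A f v (j + 1) c) u) (fun _ => PP (D4_B A f v (j + 1)) u)
      rw [D4_mc_const hq0] at g2 g4 g5
      rw [g2, g3, g4, g5, g1]
      have g6 : (PP (fun u => mc fun c => D4_D A f v (j + 1) c u) u) = PP (D4_B A f v (j + 1)) u := rfl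
      try rw [g6]
      ring
    have e1 : ind (Xs η f u) = 0 := by
      unfold ind
      rw [if_neg hu]
    have e2 : PP (fun w => D4_D A f v (j + 1) c w + D4_B A f v (j + 1) w) u =
        PP (D4_D A f v (j + 1) c) u + PP (D4_B A f v (j + 1)) u :=
      D4_PP_add 1 (D4_D A f v (j + 1) c) (D4_B A f v (j + 1)) u
    have e3 : 0 ≤ PP (D4_D A f v (j + 1) c) u := hP0 _ fun w => D4_D0 _ _ _ _ _ _
    have e4 : 0 ≤ PP (D4_B A f v (j + 1)) u := hP0 _ fun w => D4_B0 _ _ _ _ _
    have e5 := hstep c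
    rw [e1, e2, mul_zero, add_zero]
    have e6 : 0 < Real.exp (ra d q) := Real.exp_pos _
    have e7 : 6 * ra d q * Real.exp (ra d q) * (PP (D4_D A f v (j + 1) c) u + PP (D4_B A f v (j + 1)) u) ≤
        Real.exp 2100 * (PP (D4_D A f v (j + 1) c) u + PP (D4_B A f v (j + 1)) u) :=
      mul_le_mul_of_nonneg_right hK.1 (by linarith)
    have e8 : (2 + 4 * ra d q * Real.exp (ra d q) * (3 * ra d q + 2)) * η ≤ Real.exp 2100 * η :=
      mul_le_mul_of_nonneg_right hK.2 hη.le
    have e9 : 0 ≤ ra d q * Real.exp (ra d q) * PP (D4_D A f v (j + 1) c) u := by positivity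
    nlinarith

/-- the iteration -/
private theorem D4_iter (hd : 2000 ≤ d) (hR : Rg d q) {f : Site d k → Fin q} (hf : Prp f) (A : Finset (Fin q))
    (v : Site d k) (t : ℕ) (η : ℝ) (hη : 0 < η) (hq : 1 / η ≤ q) (hA : |(A.card : ℝ) / q - 1 / 2| ≤ η)
    (h2 : ∀ j ≤ t, 8 * (d : ℝ) * PP^[j] (fun u => ind (Xs η f u)) v ≤ η) (c : Fin q) (n : ℕ) (hn : n ≤ t) :
    D4_D A f v 0 c v + D4_B A f v 0 v ≤
      Real.exp 2100 ^ n * PP^[n] (fun w => D4_D A f v n c w + D4_B A f v n w) v + 2 * n * Real.exp 2100 ^ n * η := by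
  have hK1 : (1 : ℝ) ≤ Real.exp 2100 := Real.one_le_exp (by norm_num)
  induction n with
  | zero =>
    simp
  | succ n ih =>
    refine (ih (by omega)).trans ?_
    have h1 : PP^[n] (fun w => D4_D A f v n c w + D4_B A f v n w) v ≤
        PP^[n] (fun u => (Real.exp 2100 * PP (fun w => D4_D A f v (n + 1) c w + D4_B A f v (n + 1) w) u +
          Real.exp 2100 * η) + 8 * d * ind (Xs η f u)) v :=
      PPt_mono n (fun u => D4_step hd hR hf A v n η hη hq hA c u) v
    have h3 : PP^[n] (fun u => (Real.exp 2100 * PP (fun w => D4_D A f v (n + 1) c w + D4_B A f v (n + 1) w) u +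
          Real.exp 2100 * η) + 8 * d * ind (Xs η f u)) v =
        (Real.exp 2100 * PP^[n + 1] (fun w => D4_D A f v (n + 1) c w + D4_B A f v (n + 1) w) v + Real.exp 2100 * η) +
          8 * d * PP^[n] (fun u => ind (Xs η f u)) v := by
      rw [D4_PP_add n (fun u => Real.exp 2100 * PP (fun w => D4_D A f v (n + 1) c w + D4_B A f v (n + 1) w) u +
          Real.exp 2100 * η) (fun u => 8 * d * ind (Xs η f u)),
        D4_PP_add n (fun u => Real.exp 2100 * PP (fun w => D4_D A f v (n + 1) c w + D4_B A f v (n + 1) w) u)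
          (fun _ => Real.exp 2100 * η), PPt_const (by omega : 1 ≤ d),
        PPt_mul n (8 * (d : ℝ)) (fun u => ind (Xs η f u)),
        PPt_mul n (Real.exp 2100) (PP (fun w => D4_D A f v (n + 1) c w + D4_B A f v (n + 1) w)),
        Function.iterate_succ_apply]
    have h4 := h2 n (by omega)
    have h5 : PP^[n] (fun w => D4_D A f v n c w + D4_B A f v n w) v ≤
        Real.exp 2100 * PP^[n + 1] (fun w => D4_D A f v (n + 1) c w + D4_B A f v (n + 1) w) v +
          (Real.exp 2100 * η + η) := by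
      refine (h1.trans (le_of_eq h3)).trans ?_
      linarith
    have h6 := mul_le_mul_of_nonneg_left h5 (by positivity : (0 : ℝ) ≤ Real.exp 2100 ^ n)
    have h7 : Real.exp 2100 ^ (n + 1) = Real.exp 2100 ^ n * Real.exp 2100 := pow_succ _ _
    have h8 : Real.exp 2100 ^ n ≤ Real.exp 2100 ^ (n + 1) := by
      rw [h7]
      exact le_mul_of_one_le_right (by positivity) hK1
    have h9 : 0 ≤ Real.exp 2100 ^ n := by positivity
    have h10 : 2 * (n : ℝ) * Real.exp 2100 ^ n * η ≤ 2 * n * Real.exp 2100 ^ (n + 1) * η := by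
      refine mul_le_mul_of_nonneg_right (mul_le_mul_of_nonneg_left h8 (by positivity)) hη.le
    have h11 : Real.exp 2100 ^ n * η ≤ Real.exp 2100 ^ (n + 1) * η := mul_le_mul_of_nonneg_right h8 hη.le
    push_cast
    calc Real.exp 2100 ^ n * PP^[n] (fun w => D4_D A f v n c w + D4_B A f v n w) v + 2 * n * Real.exp 2100 ^ n * η
        ≤ Real.exp 2100 ^ n * (Real.exp 2100 * PP^[n + 1] (fun w => D4_D A f v (n + 1) c w + D4_B A f v (n + 1) w) v +
          (Real.exp 2100 * η + η)) + 2 * n * Real.exp 2100 ^ (n + 1) * η := add_le_add h6 h10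
      _ = Real.exp 2100 ^ (n + 1) * PP^[n + 1] (fun w => D4_D A f v (n + 1) c w + D4_B A f v (n + 1) w) v +
          (Real.exp 2100 ^ (n + 1) * η + Real.exp 2100 ^ n * η) + 2 * n * Real.exp 2100 ^ (n + 1) * η := by
          rw [h7]
          ring
      _ ≤ _ := by linarith

/-- the last step -/
private theorem D4_last (hd : 2000 ≤ d) (hR : Rg d q) {f : Site d k → Fin q} (hf : Prp f) (A : Finset (Fin q))
    (v : Site d k) (t : ℕ) (η ζ : ℝ) (hη : 0 < η)
    (h1 : ∀ c : Fin q, PP^[t + 1] (fun u => (ya c f u - gs A v (t + 1) c) ^ 2) v ≤ ζ)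
    (h2 : 8 * (d : ℝ) * PP^[t] (fun u => ind (Xs η f u)) v ≤ η) (c : Fin q) :
    PP^[t] (D4_D A f v t c) v ≤ 2000 * Real.sqrt ζ + 2 * η := by
  have hd1 : 1 ≤ d := by omega
  have hra := (rg_pos hd1 hR).2.1
  have hra2 := (rg_pos hd1 hR).2.2.1
  have hdp : (0 : ℝ) < d := by
    have : (2000 : ℝ) ≤ d := by exact_mod_cast hd
    linarith
  have hstep : ∀ u, D4_D A f v t c u ≤ (η + ra d q * PP (fun w => |ya c f w - gs A v (t + 1) c|) u) +
      2 * d * ind (Xs η f u) := by
    intro u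
    have hP0 : 0 ≤ PP (fun w => |ya c f w - gs A v (t + 1) c|) u := by
      have h := PPt_mono 1 (g := fun _ => (0 : ℝ)) (h := fun w => |ya c f w - gs A v (t + 1) c|)
        (fun w => abs_nonneg _) u
      rw [PPt_const hd1] at h
      exact h
    by_cases hu : Xs η f u
    · have e1 : ind (Xs η f u) = 1 := by
        unfold ind
        rw [if_pos hu]
      have e2 := D4_D_le hd hR hf A v t c u
      have e3 : 0 ≤ ra d q * PP (fun w => |ya c f w - gs A v (t + 1) c|) u := mul_nonneg (by linarith) hP0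
      rw [e1]
      linarith
    · have e1 : ind (Xs η f u) = 0 := by
        unfold ind
        rw [if_neg hu]
      rw [e1, mul_zero, add_zero]
      exact D4_loc hd1 hR f A v t η c u hu
  have h3 := PPt_mono t hstep v
  rw [D4_PP_add t (fun u => η + ra d q * PP (fun w => |ya c f w - gs A v (t + 1) c|) u) (fun u => 2 * d * ind (Xs η f u)),
    D4_PP_add t (fun _ => η) (fun u => ra d q * PP (fun w => |ya c f w - gs A v (t + 1) c|) u), PPt_const hd1,
    PPt_mul t (2 * (d : ℝ)) (fun u => ind (Xs η f u)),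
    PPt_mul t (ra d q) (PP (fun w => |ya c f w - gs A v (t + 1) c|)), ← Function.iterate_succ_apply] at h3
  have h4 : PP^[t + 1] (fun w => |ya c f w - gs A v (t + 1) c|) v ≤ Real.sqrt ζ := by
    refine Real.le_sqrt_of_sq_le ?_
    refine (PPt_sq hd1 (t + 1) (fun w => |ya c f w - gs A v (t + 1) c|) v).trans ?_
    have e : (fun y => |ya c f y - gs A v (t + 1) c| ^ 2) = fun y => (ya c f y - gs A v (t + 1) c) ^ 2 := by
      funext y
      exact sq_abs _
    rw [e]
    exact h1 c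
  have h5 : ra d q * PP^[t + 1] (fun w => |ya c f w - gs A v (t + 1) c|) v ≤ 2000 * Real.sqrt ζ := by
    calc ra d q * PP^[t + 1] (fun w => |ya c f w - gs A v (t + 1) c|) v ≤ ra d q * Real.sqrt ζ :=
          mul_le_mul_of_nonneg_left h4 (by linarith)
      _ ≤ _ := mul_le_mul_of_nonneg_right hra2 (Real.sqrt_nonneg _)
  have h6 : 0 ≤ PP^[t] (fun u => ind (Xs η f u)) v := by
    have h := PPt_mono t (g := fun _ => (0 : ℝ)) (h := fun u => ind (Xs η f u)) (fun w => D4_ind _) v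
    rw [PPt_const hd1] at h
    exact h
  have h7 : 0 ≤ d * PP^[t] (fun u => ind (Xs η f u)) v := mul_nonneg hdp.le h6
  linarith

theorem growth (hd : 2000 ≤ d) (hR : Rg d q) {f : Site d k → Fin q} (hf : Prp f) (A : Finset (Fin q)) (v : Site d k) (t : ℕ) (η ζ : ℝ)
    (hη : 0 < η) (hη1 : η ≤ 1 / 1000) (hζ : 0 ≤ ζ) (hq : 1 / η ≤ q) (hA : |(A.card : ℝ) / q - 1 / 2| ≤ η)
    (h1 : ∀ c : Fin q, PP^[t + 1] (fun u => (ya c f u - gs A v (t + 1) c) ^ 2) v ≤ ζ)
    (h2 : ∀ j ≤ t, 8 * (d : ℝ) * PP^[j] (fun u => ind (Xs η f u)) v ≤ η) (c : Fin q) :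
    |hc c f v - hs A v c| ≤ Real.exp (2200 * (t + 2)) * (Real.sqrt ζ + η) := by
  have hd1 : 1 ≤ d := by omega
  have hq0 := (rg_pos hd1 hR).1
  have hK1 : (1 : ℝ) ≤ Real.exp 2100 := Real.one_le_exp (by norm_num)
  have e0 : |hc c f v - hs A v c| = D4_D A f v 0 c v := by
    unfold D4_D hs gs
    rw [if_pos Even.zero]
  have e1 := D4_iter hd hR hf A v t η hη hq hA h2 c t le_rfl
  have e2 : ∀ c, PP^[t] (D4_D A f v t c) v ≤ 2000 * Real.sqrt ζ + 2 * η :=
    fun c => D4_last hd hR hf A v t η ζ hη h1 (h2 t le_rfl) c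
  have e3 : PP^[t] (D4_B A f v t) v ≤ 2000 * Real.sqrt ζ + 2 * η := by
    have g1 : PP^[t] (D4_B A f v t) v = mc fun c => PP^[t] (D4_D A f v t c) v :=
      D4_PP_mc t (fun c => D4_D A f v t c) v
    rw [g1]
    refine (D4_mc_mono e2).trans ?_
    rw [D4_mc_const hq0]
  have e4 : PP^[t] (fun w => D4_D A f v t c w + D4_B A f v t w) v ≤ 4000 * Real.sqrt ζ + 4 * η := by
    rw [D4_PP_add t (D4_D A f v t c) (D4_B A f v t)]
    have := e2 c
    linarith
  have e5 := D4_B0 A f v 0 v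
  have e6 : 0 ≤ Real.exp 2100 ^ t := by positivity
  have e7 := mul_le_mul_of_nonneg_left e4 e6
  have e8 : Real.exp (2200 * (t + 2)) = Real.exp 2100 ^ t * Real.exp (100 * t + 4400) := by
    rw [← Real.exp_nat_mul, ← Real.exp_add]
    congr 1
    ring
  have e9 := Real.add_one_le_exp (100 * (t : ℝ) + 4400)
  have ht0 : (0 : ℝ) ≤ t := Nat.cast_nonneg _
  have hs0 := Real.sqrt_nonneg ζ
  have e10 : 4000 * Real.sqrt ζ + (4 + 2 * t) * η ≤ Real.exp (100 * t + 4400) * (Real.sqrt ζ + η) := by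
    rw [mul_add]
    refine add_le_add (mul_le_mul_of_nonneg_right (by linarith) hs0) (mul_le_mul_of_nonneg_right (by linarith) hη.le)
  have e11 := mul_le_mul_of_nonneg_left e10 e6
  rw [e0, e8]
  calc D4_D A f v 0 c v ≤ D4_D A f v 0 c v + D4_B A f v 0 v := by linarith
    _ ≤ Real.exp 2100 ^ t * (4000 * Real.sqrt ζ + 4 * η) + 2 * t * Real.exp 2100 ^ t * η := by linarith
    _ = Real.exp 2100 ^ t * (4000 * Real.sqrt ζ + (4 + 2 * t) * η) := by ring
    _ ≤ _ := by
        rw [mul_assoc]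
        exact e11

theorem al_near (hd : 1 ≤ d) (hR : Rg d q) {f : Site d k → Fin q} (hf : Prp f) (A : Finset (Fin q)) (v : Site d k) (η θ : ℝ)
    (hη : 0 < η) (hq : 1 / η ≤ q) (hA : |(A.card : ℝ) / q - 1 / 2| ≤ η) (h : ∀ c : Fin q, |hc c f v - hs A v c| ≤ θ) :
    |al f v - als (ra d q) (ms d q)| ≤ θ + 5000 * η := by
  have hra := (rg_pos hd hR).2.1
  have hra2 := (rg_pos hd hR).2.2.1
  have hq0 := (rg_pos hd hR).1
  have hq' : (0 : ℝ) < q := by exact_mod_cast hq0
  have h1 := D4_al hd hR f A v 0 η hA v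
  have h2 : D4_B A f v 0 v ≤ θ := by
    unfold D4_B
    refine (D4_mc_mono (ψ := fun _ => θ) fun c => ?_).trans (le_of_eq (D4_mc_const hq0 θ))
    have h3 := h c
    unfold D4_D gs
    rw [if_pos Even.zero]
    exact h3
  have h4 : 2 * ra d q / q ≤ 4000 * η := by
    have h5 : 1 / (q : ℝ) ≤ η := by
      rw [div_le_iff₀ hη] at hq
      rw [div_le_iff₀ hq']
      linarith
    calc 2 * ra d q / q = 2 * ra d q * (1 / q) := by ring
      _ ≤ 4000 * η := mul_le_mul (by linarith) h5 (by positivity) (by norm_num)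
  linarith

end Pool.Agent.LC

end

/-! ### from `Lib_MP_2c424f_lc1.D3` -/

section

/-!
# LC1 D3: contraction of the gap

`m = ms d q`, `μ = 1 - m`, `H := {c : gs A v s c = 1 + m}`.  `mc (ya · f u) = 1` (THR `ya_mean`), so `mc (gs A v s) = 1 + O(η)`, `|#H/q - 1/2| ≤ η` (`m ≥ 0.99`).
`site_ineq` at every site `u` with `h c = hh c f u` (`sum_hh`: `∑_c hh = 2d = a q`), `al f u = (∑ e^{-hh})/q`, `ya = e^{-hh}/al`; apply `PP^[s]` at `v` (`PPt_mono`, linearity):
  `Gp f v s ≤ -(1/#H) ∑_H (PP^[s] hh v - aμ) + (4/#H) ∑_H PP^[s] (hh - aμ)² v + (E ℓ - μ/2)/(1-μ/2) + 10^5 E (ℓ - μ/2)² + 2η`,  `ℓ u = (1/q) ∑_{c ∉ H} ya c f u`, `E = PP^[s] .. v`.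
* `|PP^[s] hh v - aμ| ≤ η` for `c ∈ H`;  `|E ℓ - μ/2| ≤ 2η`;  `E (ℓ - μ/2)² ≤ 2 (1/q) ∑_{c ∉ H} PP^[s] (ya - μ)² v + 2η² ≤ 24 e^{-a} (Gp⁺ + e^{4001} η) + 2η²` (`gap_lo` at `s`).
* `c ∈ H`: at a site `u` which is not `Xs η`: if `f u ≠ c`: `hh = hc` (`hc_eq`), `(hh - aμ)² ≤ 2a² (PP ya u - μ)² + 2η² ≤ 2a² PP ((ya - μ)²) u + 2η²`; if `f u = c`: `hh = 0`, `(aμ)² ≤ 1`;
  at a site `Xs`: `(hh - aμ)² ≤ 8 d²`.  `(1/#H) ∑_{c ∈ H} 1[f u = c] ≤ 1/#H ≤ 4/q ≤ 4η`.  `PP^[s] (PP φ) = PP^[s+1] φ`.  `gs A v (s+1) c = 1 - m` for `c ∈ H`: `gap_lo` at `s+1`: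
  `(4/#H) ∑_H .. ≤ 96 a² e^{-a} (Gp(s+1)⁺ + e^{4001} η) + 8η² + 16η + 4η`.
`96 a² e^{-a} ≤ 1/4`, `24 * 10^5 e^{-a} ≤ 1/4` for `a ≥ 1000`.
`gap_iter`: `x ≤ (x⁺ + y⁺)/4 + e^{4100}η` gives `x⁺ ≤ y⁺/3 + (4/3) e^{4100} η`; `Gp ≤ 1` (`al ≤ 1`, `als ≥ e^{-1}`); iterate `J` times: `Gp(t)⁺ ≤ 3^{-J} + 2 e^{4100} η ≤ 3 e^{4100} η`.
Then `gap_quad`: `8 e^{2000} (3 e^{4100} + e^{4001}) η ≤ e^{7000} η`.
-/

set_option autoImplicit false

open Finset Filter

namespace Pool.Agent.LC

open Pool.Agent.LO Pool.Agent.LIN Pool.Agent.THR Pool.Agent.COR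

variable {d k q : ℕ}

private theorem D3_add (s : ℕ) (g h : Site d k → ℝ) (x : Site d k) :
    PP^[s] (fun y => g y + h y) x = PP^[s] g x + PP^[s] h x := by
  rw [Kt_repr s (fun y => g y + h y) x, Kt_repr s g x, Kt_repr s h x, ← Finset.sum_add_distrib]
  exact Finset.sum_congr rfl fun y _ => by ring

private theorem D3_num {a : ℝ} (ha : 1000 ≤ a) :
    96 * a ^ 2 * Real.exp (-a) ≤ 1 / 4 ∧ 24 * 10 ^ 5 * Real.exp (-a) ≤ 1 / 4 := by
  have h1 : a ^ 4 / 24 ≤ Real.exp a := by
    have h := Real.pow_div_factorial_le_exp a (by linarith) 4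
    have h4 : ((Nat.factorial 4 : ℕ) : ℝ) = 24 := by norm_num [Nat.factorial]
    rwa [h4] at h
  have hp := Real.exp_pos a
  have h2 : (10 : ℝ) ^ 6 ≤ a ^ 2 := by nlinarith
  have h3 : a ^ 4 = a ^ 2 * a ^ 2 := by ring
  constructor
  · rw [Real.exp_neg, ← div_eq_mul_inv, div_le_iff₀ hp]
    nlinarith
  · rw [Real.exp_neg, ← div_eq_mul_inv, div_le_iff₀ hp]
    nlinarith

private theorem D3_gs_succ (A : Finset (Fin q)) (v : Site d k) (s : ℕ) (c : Fin q) :
    gs A v (s + 1) c = 2 - gs A v s c := by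
  unfold gs
  by_cases h : Even s
  · rw [if_pos h, if_neg (by rw [Nat.even_add_one]; exact not_not.mpr h)]
  · rw [if_neg h, if_pos (by rw [Nat.even_add_one]; exact h)]
    ring

private theorem D3_mu (hd : 1 ≤ d) (hR : Rg d q) : 0 < 1 - ms d q ∧ 1 - ms d q ≤ 1 / 1000 ∧
    0 ≤ ra d q * (1 - ms d q) ∧ ra d q * (1 - ms d q) ≤ 1 := by
  obtain ⟨-, ha, -⟩ := rg_pos hd hR
  obtain ⟨-, -, -, hmu0, -, -, -, -, -, -, hmu⟩ := mf_num ha (ms_spec hd hR)
  have hea : Real.exp (-ra d q) ≤ 1 := Real.exp_le_one_iff.2 (by linarith)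
  have h1 : 1000 * (1 - ms d q) ≤ ra d q * (1 - ms d q) := mul_le_mul_of_nonneg_right ha hmu0.le
  refine ⟨hmu0, by linarith, mul_nonneg (by linarith) hmu0.le, by linarith⟩

private theorem D3_card (hd : 1 ≤ d) (hR : Rg d q) {f : Site d k → Fin q} (A : Finset (Fin q)) (v : Site d k)
    (s : ℕ) (η : ℝ) (hG : GapH η A f v s) (H : Finset (Fin q)) (hH : ∀ c, c ∈ H ↔ gs A v s c = 1 + ms d q) :
    |(H.card : ℝ) / q - 1 / 2| ≤ η := by
  classical
  obtain ⟨hq, -⟩ := rg_pos hd hR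
  obtain ⟨hmu0, hmu1, -, -⟩ := D3_mu hd hR
  have hq0 : (0 : ℝ) < q := by exact_mod_cast hq
  have e1 : ∑ c, PP^[s] (ya c f) v = q := by
    rw [← PPt_sum s univ (fun c => ya c f) v]
    have h1 : (fun y => ∑ c, ya c f y) = fun _ => (q : ℝ) := by
      funext y
      have h2 := ya_mean hq f y
      unfold mc at h2
      rwa [div_eq_one_iff_eq hq0.ne'] at h2
    rw [h1, PPt_const hd]
  have e2 : ∑ c, gs A v s c = q * (1 - ms d q) + 2 * ms d q * H.card := by
    have h1 : ∀ c ∈ (univ : Finset (Fin q)), gs A v s c = (1 - ms d q) + 2 * ms d q * (if c ∈ H then (1 : ℝ) else 0) := by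
      intro c _
      by_cases hc : c ∈ H
      · rw [if_pos hc, (hH c).1 hc]
        ring
      · rw [if_neg hc]
        rcases gm_cases A v s c with h | h
        · exact absurd ((hH c).2 h) hc
        · rw [h]
          ring
    rw [Finset.sum_congr rfl h1, Finset.sum_add_distrib, Finset.sum_const, Finset.card_univ, Fintype.card_fin,
      nsmul_eq_mul, ← Finset.mul_sum, Finset.sum_ite_mem, Finset.univ_inter, Finset.sum_const, nsmul_eq_mul, mul_one]
  have e3 : |∑ c, (PP^[s] (ya c f) v - gs A v s c)| ≤ q * η := by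
    refine (Finset.abs_sum_le_sum_abs _ _).trans ?_
    refine (Finset.sum_le_sum fun c _ => hG.y c).trans (le_of_eq ?_)
    rw [Finset.sum_const, Finset.card_univ, Fintype.card_fin, nsmul_eq_mul]
  rw [Finset.sum_sub_distrib, e1, e2, abs_le] at e3
  obtain ⟨h1, h2⟩ := e3
  set μ := 1 - ms d q with hμ
  have hm : ms d q = 1 - μ := by rw [hμ]; ring
  rw [hm] at h1 h2
  have h4 : (H.card : ℝ) = (H.card : ℝ) / q * q := (div_mul_cancel₀ _ hq0.ne').symm
  set x := (H.card : ℝ) / q with hx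
  rw [h4] at h1 h2
  have h1' : -η ≤ 1 - μ - 2 * (1 - μ) * x := by
    have h5 : q * -η ≤ q * (1 - μ - 2 * (1 - μ) * x) := by nlinarith
    exact le_of_mul_le_mul_left h5 hq0
  have h2' : 1 - μ - 2 * (1 - μ) * x ≤ η := by
    have h5 : q * (1 - μ - 2 * (1 - μ) * x) ≤ q * η := by nlinarith
    exact le_of_mul_le_mul_left h5 hq0
  have hη0 : 0 ≤ η := by linarith
  rw [abs_le]
  constructor
  · by_contra hcon
    push Not at hcon
    nlinarith
  · by_contra hcon
    push Not at hcon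
    nlinarith

private theorem D3_site (hd : 1 ≤ d) (hR : Rg d q) {f : Site d k → Fin q} (hf : Prp f) (η : ℝ) (u : Site d k)
    (c : Fin q) :
    (hh c f u - ra d q * (1 - ms d q)) ^ 2 ≤
      ((2 * ra d q ^ 2 * PP (fun y => (ya c f y - (1 - ms d q)) ^ 2) u + 2 * η ^ 2) +
      (if f u = c then (1 : ℝ) else 0)) + 8 * (d : ℝ) ^ 2 * ind (Xs η f u) := by
  obtain ⟨hq, ha, ha2, h2d, -⟩ := rg_pos hd hR
  obtain ⟨hmu0, hmu1, hamu0, hamu1⟩ := D3_mu hd hR
  have hdr : (1 : ℝ) ≤ d := by exact_mod_cast hd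
  set a := ra d q with ha_def
  set μ := 1 - ms d q with hμ_def
  have hP : 0 ≤ PP (fun y => (ya c f y - μ) ^ 2) u := by
    have h := PPt_mono 1 (g := fun _ => (0 : ℝ)) (h := fun y => (ya c f y - μ) ^ 2) (fun _ => sq_nonneg _) u
    rw [PPt_const hd] at h
    exact h
  have hP2 : 0 ≤ 2 * a ^ 2 * PP (fun y => (ya c f y - μ) ^ 2) u := by positivity
  have hη2 : 0 ≤ 2 * η ^ 2 := by positivity
  by_cases hX : Xs η f u
  · have h0 : ind (Xs η f u) = 1 := by
      unfold ind
      rw [if_pos hX]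
    rw [h0]
    have h1 := hh_nonneg c f u
    have h2 := hh_le hf c u
    have h4 : (hh c f u - a * μ) ^ 2 ≤ (2 * (d : ℝ)) ^ 2 := by
      apply sq_le_sq' <;> linarith
    have h5 : (0 : ℝ) ≤ if f u = c then (1 : ℝ) else 0 := by
      split_ifs <;> norm_num
    nlinarith
  · have h0 : ind (Xs η f u) = 0 := by
      unfold ind
      rw [if_neg hX]
    rw [h0]
    unfold Xs at hX
    push Not at hX
    obtain ⟨hX1, -⟩ := hX
    by_cases hc : f u = c
    · rw [if_pos hc, ← hc, hh_self]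
      rw [← hc] at hP2
      have h3 : (0 - a * μ) ^ 2 ≤ 1 := by nlinarith
      nlinarith
    · rw [if_neg hc]
      have h1 := hX1 c
      rw [hc_eq f u c hc] at h1
      have h2 : (PP (ya c f) u - μ) ^ 2 ≤ PP (fun y => (ya c f y - μ) ^ 2) u := by
        have h := PPt_sq hd 1 (fun y => ya c f y - μ) u
        rw [PPt_sub 1 (ya c f) (fun _ => μ) u, PPt_const hd] at h
        exact h
      have h4 : (hh c f u - a * PP (ya c f) u) ^ 2 ≤ η ^ 2 := sq_le_sq' (abs_le.1 h1).1 (abs_le.1 h1).2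
      have h3 : (hh c f u - a * μ) ^ 2 ≤
          2 * (hh c f u - a * PP (ya c f) u) ^ 2 + 2 * (a * (PP (ya c f) u - μ)) ^ 2 := by
        nlinarith [sq_nonneg ((hh c f u - a * PP (ya c f) u) - a * (PP (ya c f) u - μ))]
      have h5 : (a * (PP (ya c f) u - μ)) ^ 2 ≤ a ^ 2 * PP (fun y => (ya c f y - μ) ^ 2) u := by
        rw [mul_pow]
        exact mul_le_mul_of_nonneg_left h2 (sq_nonneg a)
      linarith

private theorem D3_T2 (hd : 1 ≤ d) (hR : Rg d q) {f : Site d k → Fin q} (hf : Prp f) (A : Finset (Fin q)) (v : Site d k)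
    (s : ℕ) (η : ℝ) (hη : 0 < η) (hq : 1 / η ≤ q) (hG : GapH η A f v s)
    (hG' : GapH η A f v (s + 1)) (H : Finset (Fin q)) (hH : ∀ c ∈ H, gs A v s c = 1 + ms d q)
    (hc : (q : ℝ) * (49 / 100) ≤ H.card) :
    4 / (H.card : ℝ) * PP^[s] (fun u => ∑ c ∈ H, (hh c f u - ra d q * (1 - ms d q)) ^ 2) v ≤
      (max (Gp f v (s + 1)) 0 + Real.exp 4001 * η) / 4 + 8 * η ^ 2 + 13 * η := by
  classical
  obtain ⟨hq1, ha, ha2, h2d, -⟩ := rg_pos hd hR
  obtain ⟨hmu0, hmu1, hamu0, hamu1⟩ := D3_mu hd hR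
  have hq0 : (0 : ℝ) < q := by exact_mod_cast hq1
  have hH0 : (0 : ℝ) < H.card := by nlinarith
  set G1 := max (Gp f v (s + 1)) 0 with hG1
  set B := 2 * ra d q ^ 2 * (12 * Real.exp (-ra d q) * (G1 + Real.exp 4001 * η)) + 2 * η ^ 2 + η with hB
  have h1 : ∀ c ∈ H, PP^[s] (fun u => (hh c f u - ra d q * (1 - ms d q)) ^ 2) v ≤
      B + PP^[s] (fun u => if f u = c then (1 : ℝ) else 0) v := by
    intro c hcH
    have hgs : gs A v (s + 1) c = 1 - ms d q := by
      rw [D3_gs_succ, hH c hcH]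
      ring
    have hlo := gap_lo hd hR hf A v (s + 1) η hη.le hG' c hgs
    have hlo' : PP^[s + 1] (fun u => (ya c f u - (1 - ms d q)) ^ 2) v ≤
        12 * Real.exp (-ra d q) * (G1 + Real.exp 4001 * η) := by
      refine hlo.trans (mul_le_mul_of_nonneg_left ?_ (by positivity))
      have := le_max_left (Gp f v (s + 1)) 0
      linarith
    have hm := PPt_mono s (fun u => D3_site hd hR hf η u c) v
    rw [D3_add s (fun u => (2 * ra d q ^ 2 * PP (fun y => (ya c f y - (1 - ms d q)) ^ 2) u + 2 * η ^ 2) +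
        (if f u = c then (1 : ℝ) else 0)) (fun u => 8 * (d : ℝ) ^ 2 * ind (Xs η f u)) v,
      D3_add s (fun u => 2 * ra d q ^ 2 * PP (fun y => (ya c f y - (1 - ms d q)) ^ 2) u + 2 * η ^ 2)
        (fun u => if f u = c then (1 : ℝ) else 0) v,
      D3_add s (fun u => 2 * ra d q ^ 2 * PP (fun y => (ya c f y - (1 - ms d q)) ^ 2) u) (fun _ => 2 * η ^ 2) v,
      PPt_const hd, PPt_mul, PPt_mul] at hm
    have hit : PP^[s] (PP (fun y => (ya c f y - (1 - ms d q)) ^ 2)) v =
        PP^[s + 1] (fun u => (ya c f u - (1 - ms d q)) ^ 2) v := rfl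
    have hm' : PP^[s] (fun u => PP (fun y => (ya c f y - (1 - ms d q)) ^ 2) u) v ≤
        12 * Real.exp (-ra d q) * (G1 + Real.exp 4001 * η) := by
      calc PP^[s] (fun u => PP (fun y => (ya c f y - (1 - ms d q)) ^ 2) u) v =
            PP^[s + 1] (fun u => (ya c f u - (1 - ms d q)) ^ 2) v := rfl
        _ ≤ _ := hlo'
    have he := hG.e
    have h3 : 2 * ra d q ^ 2 * PP^[s] (fun u => PP (fun y => (ya c f y - (1 - ms d q)) ^ 2) u) v ≤
        2 * ra d q ^ 2 * (12 * Real.exp (-ra d q) * (G1 + Real.exp 4001 * η)) :=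
      mul_le_mul_of_nonneg_left hm' (by positivity)
    rw [hB]
    linarith
  have h2 : ∑ c ∈ H, PP^[s] (fun u => if f u = c then (1 : ℝ) else 0) v ≤ 1 := by
    rw [← PPt_sum s H (fun c u => if f u = c then (1 : ℝ) else 0) v]
    have h3 := PPt_mono s (g := fun y => ∑ c ∈ H, if f y = c then (1 : ℝ) else 0) (h := fun _ => (1 : ℝ)) (fun y => by
      rw [Finset.sum_ite_eq]
      split_ifs <;> norm_num) v
    rwa [PPt_const hd] at h3
  have h3 : PP^[s] (fun u => ∑ c ∈ H, (hh c f u - ra d q * (1 - ms d q)) ^ 2) v ≤ H.card * B + 1 := by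
    rw [PPt_sum s H (fun c u => (hh c f u - ra d q * (1 - ms d q)) ^ 2) v]
    refine (Finset.sum_le_sum h1).trans ?_
    rw [Finset.sum_add_distrib, Finset.sum_const, nsmul_eq_mul]
    linarith
  have h4 : 4 / (H.card : ℝ) * PP^[s] (fun u => ∑ c ∈ H, (hh c f u - ra d q * (1 - ms d q)) ^ 2) v ≤
      4 * B + 4 / H.card := by
    have h5 : 4 / (H.card : ℝ) * PP^[s] (fun u => ∑ c ∈ H, (hh c f u - ra d q * (1 - ms d q)) ^ 2) v ≤
        4 / (H.card : ℝ) * (H.card * B + 1) := mul_le_mul_of_nonneg_left h3 (by positivity)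
    have h6 : 4 / (H.card : ℝ) * (H.card * B + 1) = 4 * B + 4 / H.card := by
      field_simp
    linarith
  have h7 : 4 / (H.card : ℝ) ≤ 9 * η := by
    rw [div_le_iff₀ hH0]
    have h8 : 1 ≤ η * q := by
      rw [div_le_iff₀ hη] at hq
      linarith
    nlinarith
  have hnum := (D3_num ha).1
  have hG0 : 0 ≤ G1 + Real.exp 4001 * η := add_nonneg (le_max_right _ _) (by positivity)
  have h9 : 4 * B ≤ (G1 + Real.exp 4001 * η) / 4 + 8 * η ^ 2 + 4 * η := by
    have h10 : 96 * ra d q ^ 2 * Real.exp (-ra d q) * (G1 + Real.exp 4001 * η) ≤ 1 / 4 * (G1 + Real.exp 4001 * η) :=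
      mul_le_mul_of_nonneg_right hnum hG0
    rw [hB]
    linarith
  linarith

private theorem D3_lsq (hd : 1 ≤ d) (hR : Rg d q) (f : Site d k → Fin q) (η : ℝ)
    (H : Finset (Fin q)) (hH : |(H.card : ℝ) / q - 1 / 2| ≤ η) (u : Site d k) :
    ((∑ c ∈ Hᶜ, ya c f u) / q - (1 - ms d q) / 2) ^ 2 ≤
      2 / (q : ℝ) * ∑ c ∈ Hᶜ, (ya c f u - (1 - ms d q)) ^ 2 + 2 * η ^ 2 := by
  classical
  obtain ⟨hq1, -⟩ := rg_pos hd hR
  obtain ⟨hmu0, hmu1, -, -⟩ := D3_mu hd hR
  have hq0 : (0 : ℝ) < q := by exact_mod_cast hq1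
  set μ := 1 - ms d q with hμ
  have hn : ((Hᶜ.card : ℕ) : ℝ) = q - H.card := by
    rw [Finset.card_compl, Fintype.card_fin, Nat.cast_sub]
    have := Finset.card_le_univ H
    rwa [Fintype.card_fin] at this
  have hnq : ((Hᶜ.card : ℕ) : ℝ) ≤ q := by
    rw [hn]
    have : (0 : ℝ) ≤ H.card := Nat.cast_nonneg _
    linarith
  have h1 : (∑ c ∈ Hᶜ, (ya c f u - μ)) ^ 2 ≤ (Hᶜ.card : ℝ) * ∑ c ∈ Hᶜ, (ya c f u - μ) ^ 2 := by
    have h := sq_sum_le_card_mul_sum_sq (s := Hᶜ) (f := fun c => ya c f u - μ)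
    exact_mod_cast h
  have hS0 : 0 ≤ ∑ c ∈ Hᶜ, (ya c f u - μ) ^ 2 := Finset.sum_nonneg fun _ _ => sq_nonneg _
  have h2 : ((∑ c ∈ Hᶜ, (ya c f u - μ)) / q) ^ 2 ≤ 1 / (q : ℝ) * ∑ c ∈ Hᶜ, (ya c f u - μ) ^ 2 := by
    rw [div_pow, div_le_iff₀ (by positivity)]
    have h3 : 1 / (q : ℝ) * (∑ c ∈ Hᶜ, (ya c f u - μ) ^ 2) * (q : ℝ) ^ 2 = q * ∑ c ∈ Hᶜ, (ya c f u - μ) ^ 2 := by
      field_simp
    rw [h3]
    exact h1.trans (mul_le_mul_of_nonneg_right hnq hS0)
  have h4 : (∑ c ∈ Hᶜ, ya c f u) / q - μ / 2 =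
      (∑ c ∈ Hᶜ, (ya c f u - μ)) / q + μ * (1 / 2 - (H.card : ℝ) / q) := by
    rw [Finset.sum_sub_distrib, Finset.sum_const, nsmul_eq_mul, hn]
    field_simp
    ring
  have h5 : (μ * (1 / 2 - (H.card : ℝ) / q)) ^ 2 ≤ η ^ 2 := by
    rw [mul_pow]
    have h6 : (1 / 2 - (H.card : ℝ) / q) ^ 2 ≤ η ^ 2 := by
      obtain ⟨h7, h8⟩ := abs_le.1 hH
      apply sq_le_sq' <;> linarith
    have h9 : μ ^ 2 ≤ 1 := by nlinarith
    calc μ ^ 2 * (1 / 2 - (H.card : ℝ) / q) ^ 2 ≤ 1 * η ^ 2 :=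
          mul_le_mul h9 h6 (sq_nonneg _) zero_le_one
      _ = η ^ 2 := one_mul _
  rw [h4]
  have h10 : ((∑ c ∈ Hᶜ, (ya c f u - μ)) / q + μ * (1 / 2 - (H.card : ℝ) / q)) ^ 2 ≤
      2 * ((∑ c ∈ Hᶜ, (ya c f u - μ)) / q) ^ 2 + 2 * (μ * (1 / 2 - (H.card : ℝ) / q)) ^ 2 := by
    nlinarith [sq_nonneg ((∑ c ∈ Hᶜ, (ya c f u - μ)) / q - μ * (1 / 2 - (H.card : ℝ) / q))]
  have h11 : 2 / (q : ℝ) * ∑ c ∈ Hᶜ, (ya c f u - μ) ^ 2 = 2 * (1 / (q : ℝ) * ∑ c ∈ Hᶜ, (ya c f u - μ) ^ 2) := by
    ring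
  rw [h11]
  linarith

private theorem D3_T4 (hd : 1 ≤ d) (hR : Rg d q) {f : Site d k → Fin q} (hf : Prp f) (A : Finset (Fin q)) (v : Site d k)
    (s : ℕ) (η : ℝ) (hη : 0 < η) (hG : GapH η A f v s) (H : Finset (Fin q))
    (hH : |(H.card : ℝ) / q - 1 / 2| ≤ η) (hH' : ∀ c ∈ Hᶜ, gs A v s c = 1 - ms d q) :
    PP^[s] (fun u => ((∑ c ∈ Hᶜ, ya c f u) / q - (1 - ms d q) / 2) ^ 2) v ≤
      24 * Real.exp (-ra d q) * (max (Gp f v s) 0 + Real.exp 4001 * η) + 2 * η ^ 2 := by
  classical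
  obtain ⟨hq1, -⟩ := rg_pos hd hR
  have hq0 : (0 : ℝ) < q := by exact_mod_cast hq1
  have hm := PPt_mono s (fun u => D3_lsq hd hR f η H hH u) v
  rw [D3_add s (fun u => 2 / (q : ℝ) * ∑ c ∈ Hᶜ, (ya c f u - (1 - ms d q)) ^ 2) (fun _ => 2 * η ^ 2) v, PPt_const hd,
    PPt_mul, PPt_sum s Hᶜ (fun c u => (ya c f u - (1 - ms d q)) ^ 2) v] at hm
  set G0 := max (Gp f v s) 0 with hG0
  have hpos : 0 ≤ 12 * Real.exp (-ra d q) * (G0 + Real.exp 4001 * η) :=
    mul_nonneg (by positivity) (add_nonneg (le_max_right _ _) (by positivity))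
  have h1 : ∑ c ∈ Hᶜ, PP^[s] (fun u => (ya c f u - (1 - ms d q)) ^ 2) v ≤
      q * (12 * Real.exp (-ra d q) * (G0 + Real.exp 4001 * η)) := by
    have h2 : ∀ c ∈ Hᶜ, PP^[s] (fun u => (ya c f u - (1 - ms d q)) ^ 2) v ≤
        12 * Real.exp (-ra d q) * (G0 + Real.exp 4001 * η) := by
      intro c hc
      refine (gap_lo hd hR hf A v s η hη.le hG c (hH' c hc)).trans (mul_le_mul_of_nonneg_left ?_ (by positivity))
      have := le_max_left (Gp f v s) 0
      linarith
    refine (Finset.sum_le_sum h2).trans ?_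
    rw [Finset.sum_const, nsmul_eq_mul]
    refine mul_le_mul_of_nonneg_right ?_ hpos
    have h3 := Finset.card_le_univ Hᶜ
    rw [Fintype.card_fin] at h3
    exact_mod_cast h3
  have h4 : 2 / (q : ℝ) * ∑ c ∈ Hᶜ, PP^[s] (fun u => (ya c f u - (1 - ms d q)) ^ 2) v ≤
      24 * Real.exp (-ra d q) * (G0 + Real.exp 4001 * η) := by
    refine (mul_le_mul_of_nonneg_left h1 (by positivity)).trans (le_of_eq ?_)
    field_simp
    ring
  linarith

private theorem D3_T3 (hd : 1 ≤ d) (hR : Rg d q) {f : Site d k → Fin q} (A : Finset (Fin q)) (v : Site d k)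
    (s : ℕ) (η : ℝ) (hη : 0 < η) (hη1 : η ≤ 1 / 1000) (hG : GapH η A f v s) (H : Finset (Fin q))
    (hH : |(H.card : ℝ) / q - 1 / 2| ≤ η) (hH' : ∀ c ∈ Hᶜ, gs A v s c = 1 - ms d q) :
    PP^[s] (fun u => ((∑ c ∈ Hᶜ, ya c f u) / q - (1 - ms d q) / 2) / (1 - (1 - ms d q) / 2)) v ≤ 2 * η := by
  classical
  obtain ⟨hq1, -⟩ := rg_pos hd hR
  obtain ⟨hmu0, hmu1, -, -⟩ := D3_mu hd hR
  have hq0 : (0 : ℝ) < q := by exact_mod_cast hq1
  set μ := 1 - ms d q with hμ
  have e1 : (fun u => ((∑ c ∈ Hᶜ, ya c f u) / q - μ / 2) / (1 - μ / 2)) =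
      fun u => (1 / (1 - μ / 2) * (1 / (q : ℝ))) * (∑ c ∈ Hᶜ, ya c f u) - μ / 2 / (1 - μ / 2) := by
    funext u
    ring
  rw [e1, PPt_sub s (fun u => (1 / (1 - μ / 2) * (1 / (q : ℝ))) * (∑ c ∈ Hᶜ, ya c f u)) (fun _ => μ / 2 / (1 - μ / 2)) v,
    PPt_const hd, PPt_mul, PPt_sum s Hᶜ (fun c u => ya c f u) v]
  have hn : ((Hᶜ.card : ℕ) : ℝ) = q - H.card := by
    rw [Finset.card_compl, Fintype.card_fin, Nat.cast_sub]
    have := Finset.card_le_univ H
    rwa [Fintype.card_fin] at this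
  have h1 : ∑ c ∈ Hᶜ, PP^[s] (fun u => ya c f u) v ≤ (q - H.card) * (μ + η) := by
    have h2 : ∀ c ∈ Hᶜ, PP^[s] (fun u => ya c f u) v ≤ μ + η := by
      intro c hc
      have h3 := hG.y c
      rw [hH' c hc, abs_le] at h3
      have h4 : PP^[s] (fun u => ya c f u) v = PP^[s] (ya c f) v := rfl
      rw [h4]
      linarith [h3.2]
    refine (Finset.sum_le_sum h2).trans (le_of_eq ?_)
    rw [Finset.sum_const, nsmul_eq_mul, hn]
  have hx : (H.card : ℝ) = (H.card : ℝ) / q * q := (div_mul_cancel₀ _ hq0.ne').symm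
  set x := (H.card : ℝ) / q with hxd
  obtain ⟨hx1, hx2⟩ := abs_le.1 hH
  have hden : 0 < 1 - μ / 2 := by linarith
  have h5 : 1 / (1 - μ / 2) * (1 / (q : ℝ)) * ∑ c ∈ Hᶜ, PP^[s] (fun u => ya c f u) v ≤
      1 / (1 - μ / 2) * ((1 - x) * (μ + η)) := by
    rw [mul_assoc]
    refine mul_le_mul_of_nonneg_left ?_ (by positivity)
    rw [one_div, inv_mul_le_iff₀ hq0]
    refine h1.trans (le_of_eq ?_)
    rw [hx]
    ring
  have h6 : 1 / (1 - μ / 2) * ((1 - x) * (μ + η)) - μ / 2 / (1 - μ / 2) = ((1 - x) * (μ + η) - μ / 2) / (1 - μ / 2) := by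
    ring
  have h7 : ((1 - x) * (μ + η) - μ / 2) / (1 - μ / 2) ≤ 2 * η := by
    rw [div_le_iff₀ hden]
    nlinarith
  linarith

private theorem D3_T1 (hd : 1 ≤ d) {f : Site d k → Fin q} (A : Finset (Fin q)) (v : Site d k)
    (s : ℕ) (η : ℝ) (hG : GapH η A f v s) (H : Finset (Fin q))
    (hH : ∀ c ∈ H, gs A v s c = 1 + ms d q) (hc : (0 : ℝ) < H.card) :
    -(1 / (H.card : ℝ)) * PP^[s] (fun u => ∑ c ∈ H, (hh c f u - ra d q * (1 - ms d q))) v ≤ η := by
  classical
  rw [PPt_sum s H (fun c u => hh c f u - ra d q * (1 - ms d q)) v]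
  have h1 : -(H.card * η) ≤ ∑ c ∈ H, PP^[s] (fun u => hh c f u - ra d q * (1 - ms d q)) v := by
    have h2 : ∀ c ∈ H, -η ≤ PP^[s] (fun u => hh c f u - ra d q * (1 - ms d q)) v := by
      intro c hcH
      rw [PPt_sub s (hh c f) (fun _ => ra d q * (1 - ms d q)) v, PPt_const hd]
      have h3 := hG.h c
      rw [hH c hcH, abs_le] at h3
      have h4 := h3.1
      have h5 : 2 - (1 + ms d q) = 1 - ms d q := by ring
      rw [h5] at h4
      exact h4
    refine le_trans (le_of_eq ?_) (Finset.sum_le_sum h2)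
    rw [Finset.sum_const, nsmul_eq_mul]
    ring
  have h6 : -(1 / (H.card : ℝ)) * ∑ c ∈ H, PP^[s] (fun u => hh c f u - ra d q * (1 - ms d q)) v =
      (-∑ c ∈ H, PP^[s] (fun u => hh c f u - ra d q * (1 - ms d q)) v) / H.card := by
    ring
  rw [h6, div_le_iff₀ hc]
  linarith

private theorem D3_exp : (1000 : ℝ) ≤ Real.exp 4001 ∧ 2 * Real.exp 4001 ≤ Real.exp 4100 ∧
    40 * Real.exp 6100 ≤ Real.exp 7000 ∧ (1 : ℝ) ≤ Real.exp 4100 := by
  have h1 := Real.add_one_le_exp (4001 : ℝ)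
  have h2 : (2 : ℝ) ≤ Real.exp 99 := by
    have := Real.add_one_le_exp (99 : ℝ)
    linarith
  have h3 : (40 : ℝ) ≤ Real.exp 900 := by
    have := Real.add_one_le_exp (900 : ℝ)
    linarith
  have h4 : Real.exp 4100 = Real.exp 99 * Real.exp 4001 := by
    rw [← Real.exp_add]
    norm_num
  have h5 : Real.exp 7000 = Real.exp 900 * Real.exp 6100 := by
    rw [← Real.exp_add]
    norm_num
  refine ⟨by linarith, ?_, ?_, ?_⟩
  · rw [h4]
    exact mul_le_mul_of_nonneg_right h2 (Real.exp_pos _).le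
  · rw [h5]
    exact mul_le_mul_of_nonneg_right h3 (Real.exp_pos _).le
  · have := Real.add_one_le_exp (4100 : ℝ)
    linarith

theorem gap_step (hd : 1 ≤ d) (hR : Rg d q) {f : Site d k → Fin q} (hf : Prp f) (A : Finset (Fin q)) (v : Site d k) (s : ℕ) (η : ℝ)
    (hη : 0 < η) (hη1 : η ≤ 1 / 1000) (hq : 1 / η ≤ q) (hG : GapH η A f v s) (hG' : GapH η A f v (s + 1)) :
    Gp f v s ≤ (max (Gp f v s) 0 + max (Gp f v (s + 1)) 0) / 4 + Real.exp 4100 * η := by
  classical
  obtain ⟨hq1, ha, ha2, h2d, -⟩ := rg_pos hd hR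
  have hq0 : (0 : ℝ) < q := by exact_mod_cast hq1
  set H : Finset (Fin q) := univ.filter fun c => gs A v s c = 1 + ms d q with hHdef
  have hmem : ∀ c, c ∈ H ↔ gs A v s c = 1 + ms d q := by
    intro c
    rw [hHdef, Finset.mem_filter]
    exact ⟨fun h => h.2, fun h => ⟨Finset.mem_univ _, h⟩⟩
  have hcard := D3_card hd hR A v s η hG H hmem
  have hHin : ∀ c ∈ H, gs A v s c = 1 + ms d q := fun c hc => (hmem c).1 hc
  have hHout : ∀ c ∈ Hᶜ, gs A v s c = 1 - ms d q := by
    intro c hc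
    rw [Finset.mem_compl] at hc
    rcases gm_cases A v s c with h | h
    · exact absurd ((hmem c).2 h) hc
    · exact h
  have hc49 : (q : ℝ) * (49 / 100) ≤ H.card := by
    have h1 := (abs_le.1 hcard).1
    have h2 : (49 / 100 : ℝ) ≤ (H.card : ℝ) / q := by linarith
    rw [le_div_iff₀ hq0] at h2
    linarith
  have hH0 : (0 : ℝ) < H.card := by nlinarith
  have hpt : ∀ u : Site d k, Real.log (al f u) ≤
      ((((Real.log (als (ra d q) (ms d q)) + -(1 / (H.card : ℝ)) * ∑ c ∈ H, (hh c f u - ra d q * (1 - ms d q))) +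
      4 / (H.card : ℝ) * ∑ c ∈ H, (hh c f u - ra d q * (1 - ms d q)) ^ 2) +
      ((∑ c ∈ Hᶜ, ya c f u) / q - (1 - ms d q) / 2) / (1 - (1 - ms d q) / 2)) +
      10 ^ 5 * ((∑ c ∈ Hᶜ, ya c f u) / q - (1 - ms d q) / 2) ^ 2) + 2 * η := by
    intro u
    have h := site_ineq hq1 ha ha2 (ms_spec hd hR) η hη.le (by linarith) H hcard (fun c => hh c f u)
      (fun c => hh_nonneg c f u) (by rw [sum_hh hf u]; exact h2d)
    unfold ya al
    linarith
  have hE := PPt_mono s hpt v
  rw [D3_add s (fun u => (((Real.log (als (ra d q) (ms d q)) + -(1 / (H.card : ℝ)) * ∑ c ∈ H, (hh c f u - ra d q * (1 - ms d q))) +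
      4 / (H.card : ℝ) * ∑ c ∈ H, (hh c f u - ra d q * (1 - ms d q)) ^ 2) +
      ((∑ c ∈ Hᶜ, ya c f u) / q - (1 - ms d q) / 2) / (1 - (1 - ms d q) / 2)) +
      10 ^ 5 * ((∑ c ∈ Hᶜ, ya c f u) / q - (1 - ms d q) / 2) ^ 2) (fun _ => 2 * η) v,
    D3_add s (fun u => ((Real.log (als (ra d q) (ms d q)) + -(1 / (H.card : ℝ)) * ∑ c ∈ H, (hh c f u - ra d q * (1 - ms d q))) +
      4 / (H.card : ℝ) * ∑ c ∈ H, (hh c f u - ra d q * (1 - ms d q)) ^ 2) +
      ((∑ c ∈ Hᶜ, ya c f u) / q - (1 - ms d q) / 2) / (1 - (1 - ms d q) / 2))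
      (fun u => 10 ^ 5 * ((∑ c ∈ Hᶜ, ya c f u) / q - (1 - ms d q) / 2) ^ 2) v,
    D3_add s (fun u => (Real.log (als (ra d q) (ms d q)) + -(1 / (H.card : ℝ)) * ∑ c ∈ H, (hh c f u - ra d q * (1 - ms d q))) +
      4 / (H.card : ℝ) * ∑ c ∈ H, (hh c f u - ra d q * (1 - ms d q)) ^ 2)
      (fun u => ((∑ c ∈ Hᶜ, ya c f u) / q - (1 - ms d q) / 2) / (1 - (1 - ms d q) / 2)) v,
    D3_add s (fun u => Real.log (als (ra d q) (ms d q)) + -(1 / (H.card : ℝ)) * ∑ c ∈ H, (hh c f u - ra d q * (1 - ms d q)))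
      (fun u => 4 / (H.card : ℝ) * ∑ c ∈ H, (hh c f u - ra d q * (1 - ms d q)) ^ 2) v,
    D3_add s (fun _ => Real.log (als (ra d q) (ms d q)))
      (fun u => -(1 / (H.card : ℝ)) * ∑ c ∈ H, (hh c f u - ra d q * (1 - ms d q))) v,
    PPt_const hd, PPt_const hd,
    PPt_mul s (-(1 / (H.card : ℝ))) (fun u => ∑ c ∈ H, (hh c f u - ra d q * (1 - ms d q))) v,
    PPt_mul s (4 / (H.card : ℝ)) (fun u => ∑ c ∈ H, (hh c f u - ra d q * (1 - ms d q)) ^ 2) v,
    PPt_mul s (10 ^ 5) (fun u => ((∑ c ∈ Hᶜ, ya c f u) / q - (1 - ms d q) / 2) ^ 2) v] at hE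
  have t1 := D3_T1 hd A v s η hG H hHin hH0
  have t2 := D3_T2 hd hR hf A v s η hη hq hG hG' H hHin hc49
  have t3 := D3_T3 hd hR A v s η hη hη1 hG H hcard hHout
  have t4 := D3_T4 hd hR hf A v s η hη hG H hcard hHout
  have hG0 : 0 ≤ max (Gp f v s) 0 + Real.exp 4001 * η := add_nonneg (le_max_right _ _) (by positivity)
  have t5 : 24 * 10 ^ 5 * Real.exp (-ra d q) * (max (Gp f v s) 0 + Real.exp 4001 * η) ≤
      1 / 4 * (max (Gp f v s) 0 + Real.exp 4001 * η) := mul_le_mul_of_nonneg_right (D3_num ha).2 hG0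
  have hηη : η ^ 2 ≤ η / 1000 := by nlinarith
  obtain ⟨x1, x2, -, -⟩ := D3_exp
  have x1' : 1000 * η ≤ Real.exp 4001 * η := mul_le_mul_of_nonneg_right x1 hη.le
  have x2' : 2 * Real.exp 4001 * η ≤ Real.exp 4100 * η := mul_le_mul_of_nonneg_right x2 hη.le
  have hGp : Gp f v s = PP^[s] (fun u => Real.log (al f u)) v - Real.log (als (ra d q) (ms d q)) := rfl
  rw [hGp] at t5 t4 ⊢
  linarith

private theorem D3_le_one (hd : 1 ≤ d) (hR : Rg d q) {f : Site d k → Fin q} (hf : Prp f) (v : Site d k) (s : ℕ) :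
    max (Gp f v s) 0 ≤ 1 := by
  obtain ⟨hq1, ha, -⟩ := rg_pos hd hR
  obtain ⟨-, -, -, -, -, -, -, hals0, -, halse, -⟩ := mf_num ha (ms_spec hd hR)
  refine max_le ?_ zero_le_one
  unfold Gp
  have h1 : PP^[s] (fun u => Real.log (al f u)) v ≤ 0 := by
    have h2 := PPt_mono s (g := fun u => Real.log (al f u)) (h := fun _ => (0 : ℝ)) (fun u => by
      refine Real.log_nonpos ?_ (al_le hq1 f u)
      exact (Real.exp_pos _).le.trans (al_ge hq1 hf u)) v
    rwa [PPt_const hd] at h2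
  have h3 : -1 ≤ Real.log (als (ra d q) (ms d q)) := by
    rw [Real.le_log_iff_exp_le hals0]
    exact halse
  linarith

private theorem D3_step {x y E : ℝ} (hE : 0 ≤ E) (h : x ≤ (max x 0 + max y 0) / 4 + E) :
    max x 0 ≤ max y 0 / 3 + 4 / 3 * E := by
  have hy : 0 ≤ max y 0 := le_max_right _ _
  rcases le_total x 0 with hx | hx
  · rw [max_eq_right hx]
    positivity
  · rw [max_eq_left hx] at h ⊢
    linarith

private theorem D3_iter (hd : 1 ≤ d) (hR : Rg d q) {f : Site d k → Fin q} (hf : Prp f) (A : Finset (Fin q)) (v : Site d k) (η : ℝ)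
    (hη : 0 < η) (hη1 : η ≤ 1 / 1000) (hq : 1 / η ≤ q) (n : ℕ) :
    ∀ s, (∀ j, s ≤ j → j ≤ s + n → GapH η A f v j) → max (Gp f v s) 0 ≤ (1 / 3 : ℝ) ^ n + 2 * (Real.exp 4100 * η) := by
  induction n with
  | zero =>
    intro s _
    have h1 := D3_le_one hd hR hf v s
    have h2 : 0 ≤ 2 * (Real.exp 4100 * η) := by positivity
    rw [pow_zero]
    linarith
  | succ n ih =>
    intro s hs
    have h1 := gap_step hd hR hf A v s η hη hη1 hq (hs s le_rfl (by omega)) (hs (s + 1) (by omega) (by omega))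
    have h2 := D3_step (by positivity) h1
    have h3 := ih (s + 1) (fun j hj1 hj2 => hs j (by omega) (by omega))
    rw [pow_succ]
    linarith

theorem gap_iter (hd : 1 ≤ d) (hR : Rg d q) {f : Site d k → Fin q} (hf : Prp f) (A : Finset (Fin q)) (v : Site d k) (t J : ℕ) (η : ℝ)
    (hη : 0 < η) (hη1 : η ≤ 1 / 1000) (hq : 1 / η ≤ q) (hJ : (1 / 3 : ℝ) ^ J ≤ η)
    (hG : ∀ s, t ≤ s → s ≤ t + J + 1 → GapH η A f v s) (s : ℕ) (hs : s = t ∨ s = t + 1) (c : Fin q) :
    PP^[s] (fun u => (ya c f u - gs A v s c) ^ 2) v ≤ Real.exp 7000 * η := by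
  have h1 := D3_iter hd hR hf A v η hη hη1 hq J s (fun j hj1 hj2 => hG j (by omega) (by omega))
  have h2 := gap_quad hd hR hf A v s η hη.le (hG s (by omega) (by omega)) c
  obtain ⟨-, x2, x3, x4⟩ := D3_exp
  have h3 : Gp f v s ≤ 3 * (Real.exp 4100 * η) := by
    have h4 := le_max_left (Gp f v s) 0
    have h5 : η ≤ Real.exp 4100 * η := le_mul_of_one_le_left hη.le x4
    linarith
  have h6 : Gp f v s + Real.exp 4001 * η ≤ 4 * Real.exp 4100 * η := by
    have h7 : 2 * Real.exp 4001 * η ≤ Real.exp 4100 * η := mul_le_mul_of_nonneg_right x2 hη.le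
    have h8 : 0 ≤ Real.exp 4001 * η := by positivity
    linarith
  have h9 : 8 * Real.exp 2000 * (Gp f v s + Real.exp 4001 * η) ≤ 8 * Real.exp 2000 * (4 * Real.exp 4100 * η) :=
    mul_le_mul_of_nonneg_left h6 (by positivity)
  have h10 : 8 * Real.exp 2000 * (4 * Real.exp 4100 * η) = 32 * Real.exp 6100 * η := by
    have h11 : Real.exp 6100 = Real.exp 2000 * Real.exp 4100 := by
      rw [← Real.exp_add]
      norm_num
    rw [h11]
    ring
  have h12 : 32 * Real.exp 6100 * η ≤ Real.exp 7000 * η := by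
    refine mul_le_mul_of_nonneg_right ?_ hη.le
    have := Real.exp_pos (6100 : ℝ)
    linarith
  linarith

end Pool.Agent.LC

end
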