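import Pool.Agent.Lib_MP_2c424f_m.M06
import Pool.Agent.Lib_MP_2c424f_m.M12
import Pool.Agent.Lib_MP_2c424f_m.M21

/-!
# MP_2c424f_pr, q_c grows linearly: merged library part M27

Concatenation of smaller files (each in its own section), only to save build time.
-/

namespace Pool.Agent.LO
end Pool.Agent.LO

namespace Pool.Agent.LIN
end Pool.Agent.LIN

namespace Pool.Agent.THR
end Pool.Agent.THR

namespace Pool.Agent.COR
end Pool.Agent.COR

/-! ### from `Lib_MP_2c424f_lc1.T4` -/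

section

/-!
# LC1 T4: deviations on a fibre; product formula

* `fm_mcd`: `fib b f = Fintype.piFinset t` (`t x = (SS f x)ᶜ` on the class, `{f x}` off it); `LIN.mcdiarmid` for `λ F`, `λ = θ/(2S)`, `λ c_v ≤ 1`:
  mean of `exp (λ (F - mean)) ≤ exp (λ² S)`; Markov: `exp (-λθ + λ²S) = exp (-θ²/(4S))`; the same for `-F`.  (Compare THR T1, private `T1_mcd`.)
* `fm_prod`: the sites of the class are independent on the fibre: induction over `U` with THR `fm_indep2` (or directly: sums over `piFinset` factorise).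
* `fm_expn`: `X = ∑_{u ∈ U} 1[h u = c]`: product formula, `fm (e^{x 1[h u = c]}) = 1 + (e^x - 1) z_u/x_u ≤ exp ((e^x-1) z_u/x_u)`.
-/

set_option autoImplicit false

open Finset Filter

namespace Pool.Agent.LC

open Pool.Agent.LO Pool.Agent.LIN Pool.Agent.THR Pool.Agent.COR

variable {d k q : ℕ}

private theorem T4_mcd (b : Bool) {f : Site d k → Fin q} (hf : Prp f)
    (F : (Site d k → Fin q) → ℝ) (c : Site d k → ℝ) (hc0 : ∀ v, 0 ≤ c v)
    (hc1 : ∀ v ∈ cls b d k, c v ≤ 1)
    (hF : ∀ h ∈ fib b f, ∀ v ∈ cls b d k, ∀ γ, γ ∉ SS f v → |F (Function.update h v γ) - F h| ≤ c v) :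
    fm b (fun h => Real.exp (F h)) f ≤ Real.exp (fm b F f + ∑ v ∈ cls b d k, c v ^ 2) := by
  classical
  have hself := fib_self b hf
  set t : Site d k → Finset (Fin q) := fun x => if x ∈ cls b d k then (SS f x)ᶜ else {f x} with ht
  have hfib : fib b f = Fintype.piFinset t := by
    unfold fib
    rw [ht]
  have htne : ∀ i, (t i).Nonempty := fun i =>
    ⟨f i, Fintype.mem_piFinset.1 (hfib ▸ hself) i⟩
  have hdiff : ∀ h ∈ Fintype.piFinset t, ∀ i, ∀ a ∈ t i,
      |F (Function.update h i a) - F h| ≤ if i ∈ cls b d k then c i else 0 := by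
    intro h hh i a ha
    by_cases hi : i ∈ cls b d k
    · rw [if_pos hi]
      refine hF h (hfib ▸ hh) i hi a ?_
      rw [ht] at ha
      dsimp only at ha
      rw [if_pos hi] at ha
      exact Finset.mem_compl.1 ha
    · have hti : t i = {f i} := by
        rw [ht]
        dsimp only
        rw [if_neg hi]
      have h1 : a = f i := by
        rw [hti] at ha
        exact Finset.mem_singleton.1 ha
      have h2 : h i = f i := by
        have := Fintype.mem_piFinset.1 hh i
        rw [hti] at this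
        exact Finset.mem_singleton.1 this
      have h3 : Function.update h i a = h := by
        rw [h1, ← h2, Function.update_eq_self]
      rw [h3, sub_self, abs_zero, if_neg hi]
  have hmc := mcdiarmid t htne F (fun i => if i ∈ cls b d k then c i else 0)
    (fun i => by
      split_ifs
      · exact hc0 i
      · exact le_rfl)
    (fun i => by
      split_ifs with hi
      · exact hc1 i hi
      · exact zero_le_one) hdiff
  have hcard : 0 < ((Fintype.piFinset t).card : ℝ) := by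
    rw [← hfib]
    exact_mod_cast Finset.card_pos.2 ⟨f, hself⟩
  have hsum : ∑ i, (if i ∈ cls b d k then c i else 0) ^ 2 = ∑ v ∈ cls b d k, c v ^ 2 := by
    have h1 : ∀ i, (if i ∈ cls b d k then c i else 0) ^ 2 = if i ∈ cls b d k then c i ^ 2 else 0 := by
      intro i
      split_ifs
      · rfl
      · simp
    rw [Finset.sum_congr rfl fun i _ => h1 i, Finset.sum_ite_mem, Finset.univ_inter]
  rw [hsum] at hmc
  unfold fm
  rw [hfib, div_le_iff₀ hcard, mul_comm]
  exact hmc

private theorem T4_center (b : Bool) {f : Site d k → Fin q} (hf : Prp f)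
    (F : (Site d k → Fin q) → ℝ) (l : ℝ) :
    fm b (fun h => l * (F h - fm b F f)) f = 0 := by
  rw [fm_mul, fm_sub, fm_const b hf, sub_self, mul_zero]

private theorem T4_exp (b : Bool) {f : Site d k → Fin q} (hf : Prp f) (F : (Site d k → Fin q) → ℝ)
    (c : Site d k → ℝ) (hc : ∀ v, 0 ≤ c v)
    (h : ∀ h ∈ fib b f, ∀ v ∈ cls b d k, ∀ γ, γ ∉ SS f v → |F (Function.update h v γ) - F h| ≤ c v)
    (S l s : ℝ) (hS : ∑ v ∈ cls b d k, c v ^ 2 ≤ S) (hs : |s| = l)
    (hcS : ∀ v ∈ cls b d k, l * c v ≤ 1) :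
    fm b (fun h => Real.exp (s * (F h - fm b F f))) f ≤ Real.exp (l ^ 2 * S) := by
  have hl0 : 0 ≤ l := by
    rw [← hs]
    exact abs_nonneg s
  have h2 := T4_mcd b hf (fun h => s * (F h - fm b F f)) (fun v => l * c v)
    (fun v => mul_nonneg hl0 (hc v)) hcS (by
      intro g hg v hv γ hγ
      have h3 := h g hg v hv γ hγ
      have h4 : s * (F (Function.update g v γ) - fm b F f) - s * (F g - fm b F f) =
          s * (F (Function.update g v γ) - F g) := by ring
      rw [h4, abs_mul, hs]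
      exact mul_le_mul_of_nonneg_left h3 hl0)
  rw [T4_center b hf F s, zero_add] at h2
  refine h2.trans (Real.exp_le_exp.2 ?_)
  have h5 : ∑ v ∈ cls b d k, (l * c v) ^ 2 = l ^ 2 * ∑ v ∈ cls b d k, c v ^ 2 := by
    rw [Finset.mul_sum]
    refine Finset.sum_congr rfl fun v _ => ?_
    ring
  rw [h5]
  exact mul_le_mul_of_nonneg_left hS (sq_nonneg l)

private theorem T4_point (θ l x : ℝ) (hl : 0 ≤ l) :
    ind (θ ≤ |x|) ≤ Real.exp (-(l * θ)) * (Real.exp (l * x) + Real.exp (-l * x)) := by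
  unfold ind
  split_ifs with h
  · rw [mul_add, ← Real.exp_add, ← Real.exp_add]
    rcases le_total 0 x with hx | hx
    · rw [abs_of_nonneg hx] at h
      have h1 : 0 ≤ -(l * θ) + l * x := by nlinarith
      have h2 := Real.one_le_exp h1
      have h3 := Real.exp_pos (-(l * θ) + -l * x)
      linarith
    · rw [abs_of_nonpos hx] at h
      have h1 : 0 ≤ -(l * θ) + -l * x := by nlinarith
      have h2 := Real.one_le_exp h1
      have h3 := Real.exp_pos (-(l * θ) + l * x)
      linarith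
  · positivity

theorem fm_mcd (hk : 2 ≤ k) (b : Bool) {f : Site d k → Fin q} (hf : Prp f) (F : (Site d k → Fin q) → ℝ)
    (c : Site d k → ℝ) (hc : ∀ v, 0 ≤ c v)
    (h : ∀ h ∈ fib b f, ∀ v ∈ cls b d k, ∀ γ, γ ∉ SS f v → |F (Function.update h v γ) - F h| ≤ c v)
    (S θ : ℝ) (hS : ∑ v ∈ cls b d k, c v ^ 2 ≤ S) (hS0 : 0 < S) (hθ : 0 ≤ θ) (hcS : ∀ v ∈ cls b d k, θ * c v ≤ 2 * S) :
    fm b (fun h => ind (θ ≤ |F h - fm b F f|)) f ≤ 2 * Real.exp (-(θ ^ 2 / (4 * S))) := by
  have _ := hk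
  set l : ℝ := θ / (2 * S) with hl
  have hl0 : 0 ≤ l := by positivity
  have hlc : ∀ v ∈ cls b d k, l * c v ≤ 1 := by
    intro v hv
    have h1 := hcS v hv
    rw [hl, div_mul_eq_mul_div, div_le_one (by positivity)]
    exact h1
  have h1 := T4_exp b hf F c hc h S l l hS (abs_of_nonneg hl0) hlc
  have h2 := T4_exp b hf F c hc h S l (-l) hS (by rw [abs_neg, abs_of_nonneg hl0]) hlc
  have h3 : fm b (fun h => ind (θ ≤ |F h - fm b F f|)) f ≤
      fm b (fun h => Real.exp (-(l * θ)) * (Real.exp (l * (F h - fm b F f)) +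
        Real.exp (-l * (F h - fm b F f)))) f :=
    fm_mono b hf fun g _ => T4_point θ l _ hl0
  rw [fm_mul, fm_add] at h3
  refine h3.trans ?_
  have h4 : Real.exp (-(l * θ)) * (Real.exp (l ^ 2 * S) + Real.exp (l ^ 2 * S)) =
      2 * Real.exp (-(θ ^ 2 / (4 * S))) := by
    have h5 : -(θ ^ 2 / (4 * S)) = -(l * θ) + l ^ 2 * S := by
      rw [hl]
      field_simp
      ring
    rw [h5, Real.exp_add]
    ring
  rw [← h4]
  exact mul_le_mul_of_nonneg_left (add_le_add h1 h2) (Real.exp_pos _).le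

theorem fm_prod (hk : 2 ≤ k) (b : Bool) {f : Site d k → Fin q} (hf : Prp f) (U : Finset (Site d k)) (hU : U ⊆ cls b d k)
    (g : Site d k → Fin q → ℝ) : fm b (fun h => ∏ u ∈ U, g u (h u)) f = ∏ u ∈ U, fm b (fun h => g u (h u)) f := by
  rw [Pool.Agent.LIN.fm_prod (by omega : 1 ≤ k) b hf U hU g]
  refine Finset.prod_congr rfl fun u hu => ?_
  rw [fm_one (by omega : 1 ≤ k) b hf u (hU hu) (g u)]

open scoped Classical in
theorem fm_expn (hk : 2 ≤ k) (b : Bool) {f : Site d k → Fin q} (hf : Prp f) (U : Finset (Site d k)) (hU : U ⊆ cls b d k)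
    (c : Fin q) (x : ℝ) (hx : 0 ≤ x) :
    fm b (fun h => Real.exp (x * ((U.filter fun u => h u = c).card : ℝ))) f ≤
      Real.exp ((Real.exp x - 1) * ∑ u ∈ U, zz f u c / (av f u : ℝ)) := by
  have hk1 : 1 ≤ k := by omega
  have h1 : ∀ h : Site d k → Fin q, Real.exp (x * ((U.filter fun u => h u = c).card : ℝ)) =
      ∏ u ∈ U, (1 + (Real.exp x - 1) * (if h u = c then (1 : ℝ) else 0)) := by
    intro h
    have h2 : ((U.filter fun u => h u = c).card : ℝ) = ∑ u ∈ U, (if h u = c then (1 : ℝ) else 0) := by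
      rw [Finset.sum_boole]
    rw [h2, Finset.mul_sum, Real.exp_sum]
    refine Finset.prod_congr rfl fun u _ => ?_
    split_ifs
    · rw [mul_one, mul_one]
      ring
    · rw [mul_zero, mul_zero, Real.exp_zero, add_zero]
  have h3 : fm b (fun h => Real.exp (x * ((U.filter fun u => h u = c).card : ℝ))) f =
      fm b (fun h => ∏ u ∈ U, (1 + (Real.exp x - 1) * (if h u = c then (1 : ℝ) else 0))) f :=
    fm_congr b fun h _ => h1 h
  rw [h3, fm_prod hk b hf U hU (fun _ γ => 1 + (Real.exp x - 1) * (if γ = c then (1 : ℝ) else 0)),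
    Finset.mul_sum, Real.exp_sum]
  have hx1 : 0 ≤ Real.exp x - 1 := by
    have := Real.one_le_exp hx
    linarith
  have h4 : ∀ u ∈ U, fm b (fun h => 1 + (Real.exp x - 1) * (if h u = c then (1 : ℝ) else 0)) f =
      1 + (Real.exp x - 1) * (zz f u c / (av f u : ℝ)) := by
    intro u hu
    rw [fm_add, fm_const b hf, fm_mul, fm_ind hk1 b hf u (hU hu) c]
  refine Finset.prod_le_prod (fun u hu => ?_) fun u hu => ?_
  · rw [h4 u hu]
    have h5 := (zz_av_le hf u c).1
    positivity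
  · rw [h4 u hu, add_comm]
    exact Real.add_one_le_exp _

end Pool.Agent.LC

end

/-! ### from `Lib_MP_2c424f_lc1.F0` -/

section

/-!
# LC1 F0: numbers of neighbours with a given colour on a fibre

`v` in the class `b`.  `nf c h v` depends on the colours of the neighbours (class `!b`), `nfx c h (v+σ) v` on the colours of the second neighbours (class `b`).  The neighbours of a site are distinct (`k ≥ 3`).
* `comm_nb`: if `w = v + σ + τ ≠ v` then `σ` is determined up to two values (`w - v` is `± e_i ± e_j` or `± 2 e_i`; side `2^k ≥ 8`).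
* `nf_exp`, `nfx_exp`: `fm_expn` with `U` the set of the neighbours (except `v`); `∑_{u ∈ U} zz/av ≤ hh`.
* `nf_mean`, `nfx_mean`: mean of `1[h u = c]` is `zz f u c/av f u` (`fm_ind`).
* `nf_sq`, `nfx_sq`: square of a sum of indicators; different sites are independent (THR `fm_indep2` or `fm_prod`): mean at most `λ + λ²`.
* `nf_four`: `n⁴ ≤ (λ/e)⁴ e^{4n/λ}` (`x⁴ ≤ e^{4(x-1)}` for `x = n/λ ≥ 0`) and `nf_exp` with `x = 4/λ`, `(e^x - 1) λ ≤ 4 + 16/λ` for `x ≤ 1`, `λ = 3a ≥ 3000`: `λ⁴ e^{16/λ} ≤ 2 λ⁴ ≤ 200 a⁴`.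
* `loc_hh_fib`, `loc_hh_fib2`: `hh c f v` depends on the colours of the class of `v` only (THR M1 `loc_fib`).
-/

set_option autoImplicit false

open Finset Filter

namespace Pool.Agent.LC

open Pool.Agent.LO Pool.Agent.LIN Pool.Agent.THR Pool.Agent.COR

variable {d k q : ℕ}

/-! ### sums over neighbours -/

open scoped Classical in
/-- the neighbours of a site -/
private noncomputable def F0_U (v : Site d k) : Finset (Site d k) := univ.image fun σ : Stp d => v + sv σ

private theorem F0_sum (hk : 2 ≤ k) (v : Site d k) (g : Site d k → ℝ) :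
    ∑ u ∈ F0_U v, g u = ∑ σ : Stp d, g (v + sv σ) := by
  classical
  unfold F0_U
  rw [Finset.sum_image]
  intro a _ b _ h
  exact sv_inj hk (add_left_cancel h)

private theorem F0_sub (hk : 1 ≤ k) {b : Bool} {v : Site d k} (hv : v ∈ cls b d k) : F0_U v ⊆ cls (!b) d k := by
  classical
  intro u hu
  unfold F0_U at hu
  obtain ⟨σ, _, rfl⟩ := Finset.mem_image.1 hu
  rw [mem_cls_step hk, Bool.not_not]
  exact hv

private theorem F0_nf (hk : 2 ≤ k) (c : Fin q) (h : Site d k → Fin q) (v : Site d k) :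
    nf c h v = ∑ u ∈ F0_U v, (if h u = c then (1 : ℝ) else 0) := by
  classical
  rw [F0_sum hk]
  unfold nf
  rw [Finset.natCast_card_filter]

private theorem F0_nfx (hk : 2 ≤ k) (c : Fin q) (h : Site d k → Fin q) (x v : Site d k) :
    nfx c h x v = ∑ u ∈ (F0_U x).filter (fun u => u ≠ v), (if h u = c then (1 : ℝ) else 0) := by
  classical
  rw [Finset.sum_filter, F0_sum hk]
  unfold nfx
  rw [Finset.natCast_card_filter]
  refine Finset.sum_congr rfl fun τ _ => ?_
  by_cases h1 : x + sv τ = v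
  · rw [if_neg (fun hh => hh.1 h1), if_neg (fun hh => hh h1)]
  · by_cases h2 : h (x + sv τ) = c
    · rw [if_pos ⟨h1, h2⟩, if_pos h1, if_pos h2]
    · rw [if_neg (fun hh => h2 hh.2), if_pos h1, if_neg h2]

private theorem F0_exp (hk : 2 ≤ k) (b : Bool) {f : Site d k → Fin q} (hf : Prp f) (U : Finset (Site d k))
    (hU : U ⊆ cls b d k) (c : Fin q) (x : ℝ) (hx : 0 ≤ x) :
    fm b (fun h => Real.exp (x * ∑ u ∈ U, (if h u = c then (1 : ℝ) else 0))) f ≤
      Real.exp ((Real.exp x - 1) * ∑ u ∈ U, zz f u c / (av f u : ℝ)) := by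
  classical
  refine le_trans (le_of_eq ?_) (fm_expn hk b hf U hU c x hx)
  refine fm_congr b fun h _ => ?_
  rw [Finset.natCast_card_filter]

private theorem F0_ind (hk : 2 ≤ k) (b : Bool) {f : Site d k → Fin q} (hf : Prp f) (u : Site d k)
    (hu : u ∈ cls b d k) (c : Fin q) :
    fm b (fun h => if h u = c then (1 : ℝ) else 0) f = zz f u c / (av f u : ℝ) := by
  classical
  refine Eq.trans ?_ (fm_ind (by omega) b hf u hu c)
  refine fm_congr b fun h _ => ?_
  by_cases h1 : h u = c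
  · simp only [h1, if_true]
  · simp only [h1, if_false]

private theorem F0_mean (hk : 2 ≤ k) (b : Bool) {f : Site d k → Fin q} (hf : Prp f) (U : Finset (Site d k))
    (hU : U ⊆ cls b d k) (c : Fin q) :
    fm b (fun h => ∑ u ∈ U, (if h u = c then (1 : ℝ) else 0)) f = ∑ u ∈ U, zz f u c / (av f u : ℝ) := by
  rw [fm_sum b f U (fun u h => if h u = c then (1 : ℝ) else 0)]
  exact Finset.sum_congr rfl fun u hu => F0_ind hk b hf u (hU hu) c

private theorem F0_sq (hk : 2 ≤ k) (b : Bool) {f : Site d k → Fin q} (hf : Prp f) (U : Finset (Site d k))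
    (hU : U ⊆ cls b d k) (c : Fin q) :
    fm b (fun h => (∑ u ∈ U, (if h u = c then (1 : ℝ) else 0)) ^ 2) f ≤
      ∑ u ∈ U, zz f u c / (av f u : ℝ) + (∑ u ∈ U, zz f u c / (av f u : ℝ)) ^ 2 := by
  classical
  have h1 : fm b (fun h => (∑ u ∈ U, (if h u = c then (1 : ℝ) else 0)) ^ 2) f =
      ∑ u ∈ U, ∑ w ∈ U, fm b (fun h => (if h u = c then (1 : ℝ) else 0) * (if h w = c then (1 : ℝ) else 0)) f := by
    rw [← Finset.sum_congr rfl fun u _ => fm_sum b f U
      (fun w h => (if h u = c then (1 : ℝ) else 0) * (if h w = c then (1 : ℝ) else 0))]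
    rw [← fm_sum b f U
      (fun u h => ∑ w ∈ U, (if h u = c then (1 : ℝ) else 0) * (if h w = c then (1 : ℝ) else 0))]
    refine fm_congr b fun h _ => ?_
    rw [sq, Finset.sum_mul_sum]
  have h2 : ∀ u ∈ U, ∀ w ∈ U,
      fm b (fun h => (if h u = c then (1 : ℝ) else 0) * (if h w = c then (1 : ℝ) else 0)) f ≤
      (if u = w then zz f u c / (av f u : ℝ) else 0) + zz f u c / (av f u : ℝ) * (zz f w c / (av f w : ℝ)) := by
    intro u hu w hw
    have hu1 := zz_av_le hf u c
    have hw1 := zz_av_le hf w c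
    by_cases huw : u = w
    · subst huw
      rw [if_pos rfl]
      have h3 : fm b (fun h => (if h u = c then (1 : ℝ) else 0) * (if h u = c then (1 : ℝ) else 0)) f =
          fm b (fun h => if h u = c then (1 : ℝ) else 0) f := by
        refine fm_congr b fun h _ => ?_
        split_ifs <;> norm_num
      rw [h3, F0_ind hk b hf u (hU hu) c]
      have := mul_nonneg hu1.1 hu1.1
      linarith
    · rw [if_neg huw, zero_add]
      have h3 := fm_two (by omega) b hf u w (hU hu) (hU hw) huw (fun γ => if γ = c then (1 : ℝ) else 0)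
        (fun γ => if γ = c then (1 : ℝ) else 0)
      rw [F0_ind hk b hf u (hU hu) c, F0_ind hk b hf w (hU hw) c] at h3
      exact h3.le
  rw [h1]
  refine (Finset.sum_le_sum fun u hu => Finset.sum_le_sum fun w hw => h2 u hu w hw).trans (le_of_eq ?_)
  simp only [Finset.sum_add_distrib]
  congr 1
  · refine Finset.sum_congr rfl fun u hu => ?_
    rw [Finset.sum_ite_eq, if_pos hu]
  · rw [sq, Finset.sum_mul_sum]

private theorem F0_hh (hk : 2 ≤ k) (c : Fin q) (f : Site d k → Fin q) (v : Site d k) :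
    ∑ u ∈ F0_U v, zz f u c / (av f u : ℝ) = hh c f v := by
  rw [F0_sum hk]
  rfl

private theorem F0_hhx (hk : 2 ≤ k) (c : Fin q) {f : Site d k → Fin q} (hf : Prp f) (x v : Site d k) :
    0 ≤ ∑ u ∈ (F0_U x).filter (fun u => u ≠ v), zz f u c / (av f u : ℝ) ∧
    ∑ u ∈ (F0_U x).filter (fun u => u ≠ v), zz f u c / (av f u : ℝ) ≤ hh c f x := by
  refine ⟨Finset.sum_nonneg fun u _ => (zz_av_le hf u c).1, ?_⟩
  rw [← F0_hh hk]
  exact Finset.sum_le_sum_of_subset_of_nonneg (Finset.filter_subset _ _) fun u _ _ => (zz_av_le hf u c).1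

/-! ### coordinates of the steps -/

private def F0_s (σ : Stp d) : ℤ := if σ.2 then 1 else -1

private def F0_e (σ : Stp d) (i : Fin d) : ℤ := if i = σ.1 then F0_s σ else 0

private theorem F0_sv (σ : Stp d) (i : Fin d) : (sv σ : Site d k) i = ((F0_e σ i : ℤ) : ZMod (2 ^ k)) := by
  unfold sv F0_e F0_s
  rw [Pi.single_apply]
  split_ifs <;> simp

private theorem F0_zero (hk : 3 ≤ k) {n : ℤ} (h1 : -4 ≤ n) (h2 : n ≤ 4) (h : ((n : ℤ) : ZMod (2 ^ k)) = 0) : n = 0 := by
  rw [ZMod.intCast_zmod_eq_zero_iff_dvd] at h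
  have h8 : 8 ≤ 2 ^ k := by
    calc 8 = 2 ^ 3 := by norm_num
      _ ≤ 2 ^ k := Nat.pow_le_pow_right (by norm_num) hk
  obtain ⟨m, hm⟩ := h
  have h8' : (8 : ℤ) ≤ ((2 ^ k : ℕ) : ℤ) := by exact_mod_cast h8
  by_contra hn
  have hm0 : m ≠ 0 := by
    rintro rfl
    rw [mul_zero] at hm
    exact hn hm
  rcases lt_or_gt_of_ne hm0 with hlt | hgt
  · nlinarith
  · nlinarith

private theorem F0_s_cases (σ : Stp d) : F0_s σ = 1 ∨ F0_s σ = -1 := by
  unfold F0_s
  split_ifs <;> simp

private theorem F0_e_cases (σ : Stp d) (i : Fin d) : F0_e σ i = 0 ∨ (i = σ.1 ∧ F0_e σ i = F0_s σ) := by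
  unfold F0_e
  by_cases h : i = σ.1
  · right
    exact ⟨h, if_pos h⟩
  · left
    exact if_neg h

private theorem F0_ext {σ τ : Stp d} (h1 : σ.1 = τ.1) (h2 : F0_s σ = F0_s τ) : σ = τ := by
  refine Prod.ext h1 ?_
  unfold F0_s at h2
  cases hs : σ.2 <;> cases ht : τ.2 <;> rw [hs, ht] at h2 <;> simp at h2 ⊢

private theorem F0_two (hk : 3 ≤ k) {σ τ σ' τ' : Stp d} (hne : (sv σ : Site d k) + sv τ ≠ 0)
    (h : (sv σ : Site d k) + sv τ = sv σ' + sv τ') : σ = σ' ∨ σ = τ' := by
  by_contra hcon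
  rw [not_or] at hcon
  obtain ⟨hc1, hc2⟩ := hcon
  have h1 := congrFun h σ.1
  simp only [Pi.add_apply, F0_sv] at h1
  have ea : F0_e σ σ.1 = F0_s σ := by
    unfold F0_e
    rw [if_pos rfl]
  have eb := F0_e_cases τ σ.1
  have ec := F0_e_cases σ' σ.1
  have ed := F0_e_cases τ' σ.1
  have sa := F0_s_cases σ
  have sb := F0_s_cases τ
  have sc := F0_s_cases σ'
  have sd := F0_s_cases τ'
  -- the second step does not cancel the first one
  have hb : F0_e τ σ.1 = 0 ∨ F0_e τ σ.1 = F0_s σ := by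
    rcases eb with eb | ⟨eb1, eb2⟩
    · left
      exact eb
    · right
      rw [eb2]
      by_contra hs
      apply hne
      have hs' : F0_s τ = -F0_s σ := by omega
      funext i
      simp only [Pi.add_apply, F0_sv, Pi.zero_apply]
      rw [← Int.cast_add]
      have : F0_e σ i + F0_e τ i = 0 := by
        unfold F0_e
        rw [← eb1, hs']
        split_ifs <;> omega
      rw [this, Int.cast_zero]
  have hc : F0_e σ' σ.1 = 0 ∨ F0_e σ' σ.1 = -F0_s σ := by
    rcases ec with ec | ⟨ec1, ec2⟩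
    · left
      exact ec
    · right
      rw [ec2]
      have : F0_s σ' ≠ F0_s σ := fun hh => hc1 (F0_ext ec1 hh.symm)
      omega
  have hd : F0_e τ' σ.1 = 0 ∨ F0_e τ' σ.1 = -F0_s σ := by
    rcases ed with ed | ⟨ed1, ed2⟩
    · left
      exact ed
    · right
      rw [ed2]
      have : F0_s τ' ≠ F0_s σ := fun hh => hc2 (F0_ext ed1 hh.symm)
      omega
  have h2 : ((F0_e σ σ.1 + F0_e τ σ.1 - (F0_e σ' σ.1 + F0_e τ' σ.1) : ℤ) : ZMod (2 ^ k)) = 0 := by
    push_cast
    rw [h1, sub_self]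
  rw [ea] at h2
  have h3 := F0_zero hk (by omega) (by omega) h2
  omega

private theorem F0_cn2 (P : Stp d → Prop) (a b : Stp d) (h : ∀ σ, P σ → σ = a ∨ σ = b) : cn P ≤ 2 := by
  classical
  have h5 : (2 : ℝ) = ((2 : ℕ) : ℝ) := by norm_num
  unfold cn
  rw [h5]
  refine Nat.cast_le.2 (le_trans (Finset.card_le_card ?_) (Finset.card_le_two (a := a) (b := b)))
  intro σ hσ
  rcases h σ (Finset.mem_filter.1 hσ).2 with rfl | rfl <;> simp

private theorem F0_cn0 (P : Stp d → Prop) (h : ∀ σ, ¬ P σ) : cn P ≤ 2 := by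
  classical
  unfold cn
  rw [Finset.filter_false_of_mem fun σ _ => h σ]
  norm_num

theorem comm_nb (hk : 3 ≤ k) {v w : Site d k} (h : w ≠ v) : cn (fun σ : Stp d => ∃ τ : Stp d, w = v + sv σ + sv τ) ≤ 2 := by
  by_cases hex : ∃ σ τ : Stp d, w = v + sv σ + sv τ
  · obtain ⟨σ₀, τ₀, h0⟩ := hex
    refine F0_cn2 _ σ₀ τ₀ ?_
    rintro σ ⟨τ, hτ⟩
    have h2 : (sv σ : Site d k) + sv τ = sv σ₀ + sv τ₀ := by
      have h3 : v + (sv σ + sv τ) = v + (sv σ₀ + sv τ₀) := by
        rw [← add_assoc, ← add_assoc, ← hτ, ← h0]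
      exact add_left_cancel h3
    have h4 : (sv σ : Site d k) + sv τ ≠ 0 := by
      intro h5
      apply h
      rw [hτ, add_assoc, h5, add_zero]
    exact F0_two hk h4 h2
  · exact F0_cn0 _ fun σ hσ => hex ⟨σ, hσ⟩

theorem nf_exp (hk : 3 ≤ k) {b : Bool} {f : Site d k → Fin q} (hf : Prp f) {v : Site d k} (hv : v ∈ cls b d k) (c : Fin q) (x : ℝ)
    (hx : 0 ≤ x) : fm (!b) (fun h => Real.exp (x * nf c h v)) f ≤ Real.exp ((Real.exp x - 1) * hh c f v) := by
  have h1 := F0_exp (by omega) (!b) hf (F0_U v) (F0_sub (by omega) hv) c x hx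
  rw [F0_hh (by omega)] at h1
  refine le_trans (le_of_eq ?_) h1
  exact fm_congr _ fun h _ => by rw [F0_nf (by omega)]

theorem nfx_exp (hk : 3 ≤ k) {b : Bool} {f : Site d k → Fin q} (hf : Prp f) {v : Site d k} (hv : v ∈ cls b d k) (c : Fin q) (σ : Stp d)
    (x : ℝ) (hx : 0 ≤ x) :
    fm b (fun h => Real.exp (x * nfx c h (v + sv σ) v)) f ≤ Real.exp ((Real.exp x - 1) * hh c f (v + sv σ)) := by
  have hv' : v + sv σ ∈ cls (!b) d k := by
    rw [mem_cls_step (by omega), Bool.not_not]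
    exact hv
  have hsub : (F0_U (v + sv σ)).filter (fun u => u ≠ v) ⊆ cls b d k := by
    have := F0_sub (by omega) hv'
    rw [Bool.not_not] at this
    exact (Finset.filter_subset _ _).trans this
  have h1 := F0_exp (by omega) b hf _ hsub c x hx
  refine le_trans (le_of_eq ?_) (h1.trans (Real.exp_le_exp.2 ?_))
  · exact fm_congr _ fun h _ => by rw [F0_nfx (by omega)]
  · refine mul_le_mul_of_nonneg_left (F0_hhx (by omega) c hf _ _).2 ?_
    have := Real.one_le_exp hx
    linarith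

theorem nfx_mean (hk : 3 ≤ k) {b : Bool} {f : Site d k → Fin q} (hf : Prp f) {v : Site d k} (hv : v ∈ cls b d k) (c : Fin q)
    (σ : Stp d) : fm b (fun h => nfx c h (v + sv σ) v) f ≤ hh c f (v + sv σ) := by
  have hv' : v + sv σ ∈ cls (!b) d k := by
    rw [mem_cls_step (by omega), Bool.not_not]
    exact hv
  have hsub : (F0_U (v + sv σ)).filter (fun u => u ≠ v) ⊆ cls b d k := by
    have := F0_sub (by omega) hv'
    rw [Bool.not_not] at this
    exact (Finset.filter_subset _ _).trans this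
  have h1 := F0_mean (by omega) b hf _ hsub c
  refine le_trans (le_of_eq ?_) (F0_hhx (by omega) c hf (v + sv σ) v).2
  rw [← h1]
  exact fm_congr _ fun h _ => by rw [F0_nfx (by omega)]

theorem nf_sq (hk : 3 ≤ k) {b : Bool} {f : Site d k → Fin q} (hf : Prp f) {v : Site d k} (hv : v ∈ cls b d k) (c : Fin q) :
    fm (!b) (fun h => nf c h v ^ 2) f ≤ hh c f v + hh c f v ^ 2 := by
  have h1 := F0_sq (by omega) (!b) hf (F0_U v) (F0_sub (by omega) hv) c
  rw [F0_hh (by omega)] at h1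
  refine le_trans (le_of_eq ?_) h1
  exact fm_congr _ fun h _ => by rw [F0_nf (by omega)]

theorem nfx_sq (hk : 3 ≤ k) {b : Bool} {f : Site d k → Fin q} (hf : Prp f) {v : Site d k} (hv : v ∈ cls b d k) (c : Fin q)
    (σ : Stp d) : fm b (fun h => nfx c h (v + sv σ) v ^ 2) f ≤ hh c f (v + sv σ) + hh c f (v + sv σ) ^ 2 := by
  have hv' : v + sv σ ∈ cls (!b) d k := by
    rw [mem_cls_step (by omega), Bool.not_not]
    exact hv
  have hsub : (F0_U (v + sv σ)).filter (fun u => u ≠ v) ⊆ cls b d k := by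
    have := F0_sub (by omega) hv'
    rw [Bool.not_not] at this
    exact (Finset.filter_subset _ _).trans this
  have h1 := F0_sq (by omega) b hf _ hsub c
  obtain ⟨h2, h3⟩ := F0_hhx (by omega) c hf (v + sv σ) v
  refine le_trans (le_of_eq ?_) (h1.trans (add_le_add h3 (pow_le_pow_left₀ h2 h3 2)))
  exact fm_congr _ fun h _ => by rw [F0_nfx (by omega)]

theorem nf_four (hk : 3 ≤ k) {b : Bool} {f : Site d k → Fin q} (hf : Prp f) {v : Site d k} (hv : v ∈ cls b d k) (c : Fin q) {a : ℝ}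
    (ha : 1000 ≤ a) (h : hh c f v ≤ 3 * a) : fm (!b) (fun h => nf c h v ^ 4) f ≤ 200 * a ^ 4 := by
  set l : ℝ := 3 * a with hl
  have hl0 : 3000 ≤ l := by linarith
  have hlp : 0 < l := by linarith
  have h4 : 0 < 4 / l := by positivity
  have h41 : 4 / l ≤ 1 := by
    rw [div_le_one hlp]
    linarith
  have hpt : ∀ n : ℝ, 0 ≤ n → n ^ 4 ≤ (l ^ 4 * Real.exp (-4)) * Real.exp (4 / l * n) := by
    intro n hn
    have h1 : n / l ≤ Real.exp (n / l - 1) := by
      have := Real.add_one_le_exp (n / l - 1)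
      linarith
    have h2 : (n / l) ^ 4 ≤ Real.exp (n / l - 1) ^ 4 := pow_le_pow_left₀ (by positivity) h1 4
    have h3 : Real.exp (n / l - 1) ^ 4 = Real.exp (-4) * Real.exp (4 / l * n) := by
      rw [← Real.exp_nat_mul, ← Real.exp_add]
      congr 1
      push_cast
      ring
    rw [h3] at h2
    have h5 : n ^ 4 = l ^ 4 * (n / l) ^ 4 := by
      field_simp
    rw [h5]
    calc l ^ 4 * (n / l) ^ 4 ≤ l ^ 4 * (Real.exp (-4) * Real.exp (4 / l * n)) :=
          mul_le_mul_of_nonneg_left h2 (by positivity)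
      _ = _ := by ring
  have h1 : fm (!b) (fun h => nf c h v ^ 4) f ≤
      fm (!b) (fun h => (l ^ 4 * Real.exp (-4)) * Real.exp (4 / l * nf c h v)) f :=
    fm_mono _ hf fun g _ => hpt _ (by unfold nf; positivity)
  rw [fm_mul] at h1
  have h2 := nf_exp hk hf hv c (4 / l) h4.le
  have h5 : Real.exp (4 / l) - 1 ≤ 4 / l + (4 / l) ^ 2 := by
    have h6 := Real.abs_exp_sub_one_sub_id_le (x := 4 / l) (by rw [abs_of_pos h4]; exact h41)
    have h7 := (abs_le.1 h6).2
    linarith
  have h6 : (Real.exp (4 / l) - 1) * hh c f v ≤ 4 + 16 / l := by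
    have h7 : (4 / l + (4 / l) ^ 2) * l = 4 + 16 / l := by
      field_simp
      ring
    have h8 : 0 ≤ Real.exp (4 / l) - 1 := by
      have := Real.one_le_exp h4.le
      linarith
    calc (Real.exp (4 / l) - 1) * hh c f v ≤ (Real.exp (4 / l) - 1) * l := mul_le_mul_of_nonneg_left h h8
      _ ≤ (4 / l + (4 / l) ^ 2) * l := mul_le_mul_of_nonneg_right h5 hlp.le
      _ = _ := h7
  have h7 : Real.exp (16 / l) ≤ 2 := by
    have h8 : 16 / l ≤ 1 / 2 := by
      rw [div_le_iff₀ hlp]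
      linarith
    have h9 : 0 < 16 / l := by positivity
    have h10 := Real.abs_exp_sub_one_sub_id_le (x := 16 / l) (by rw [abs_of_pos h9]; linarith)
    have h11 := (abs_le.1 h10).2
    nlinarith
  refine h1.trans ?_
  calc l ^ 4 * Real.exp (-4) * fm (!b) (fun h => Real.exp (4 / l * nf c h v)) f
      ≤ l ^ 4 * Real.exp (-4) * Real.exp (4 + 16 / l) :=
        mul_le_mul_of_nonneg_left (h2.trans (Real.exp_le_exp.2 h6)) (by positivity)
    _ = l ^ 4 * Real.exp (16 / l) := by
        rw [mul_assoc, ← Real.exp_add]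
        congr 2
        ring
    _ ≤ l ^ 4 * 2 := mul_le_mul_of_nonneg_left h7 (by positivity)
    _ = 162 * a ^ 4 := by
        rw [hl]
        ring
    _ ≤ 200 * a ^ 4 := by
        have : 0 < a ^ 4 := by positivity
        linarith

theorem loc_hh_fib (hk : 3 ≤ k) {b : Bool} {f : Site d k → Fin q} {v : Site d k} (hv : v ∈ cls b d k) (c : Fin q)
    {h : Site d k → Fin q} (hh' : h ∈ fib (!b) f) : hh c h v = hh c f v :=
  (loc_fib (by omega) b hh' v hv c).1

theorem loc_hh_fib2 (hk : 3 ≤ k) {b : Bool} {f : Site d k → Fin q} {v : Site d k} (hv : v ∈ cls b d k) (c : Fin q) (σ : Stp d)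
    {h : Site d k → Fin q} (hh' : h ∈ fib b f) : hh c h (v + sv σ) = hh c f (v + sv σ) := by
  have hv' : v + sv σ ∈ cls (!b) d k := by
    rw [mem_cls_step (by omega), Bool.not_not]
    exact hv
  refine (loc_fib (by omega) (!b) ?_ _ hv' c).1
  rw [Bool.not_not]
  exact hh'

end Pool.Agent.LC

end

/-! ### from `Lib_MP_2c424f_thr.B4` -/

section

/-!
# THR B4: deterministic errors (paper proof: B4)

`f` good, `a = ra d q ≤ A0 ε`, `N = NN d k`.
* `gg - zz/al = zz (q/x) (al - x/q)/al`: at regular sites (`Rg`) `≤ (e^a/c1) |x/q - al|`, Cauchy-Schwarz with `avl`; at irregular sites `≤ q + e^a ≤ 2q`... and there are at most `N/d^4` of them (`irr4`),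
  `q ≤ 2d`.
* `zt/al - ya = (zt - exp (-hh))/al` (`exp_hh`): at nice sites `≤ e^a a/(c1² q)` (`zt_exp`), at the other sites (at most `2 d irr`, `not_nice`) `≤ e^a` (`zt_exp'`).
-/

set_option autoImplicit false

open Finset Filter

namespace Pool.Agent.THR

open Pool.Agent.LO Pool.Agent.LIN

private theorem B4_c1_pos (ε : ℝ) : 0 < c1 ε := by
  unfold c1
  have : (0 : ℝ) < (4 : ℝ) ^ (-A0 ε) := Real.rpow_pos_of_pos (by norm_num) _
  positivity

private theorem B4_inv {A x : ℝ} (h : Real.exp (-A) ≤ x) : 0 < x ∧ 1 / x ≤ Real.exp A := by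
  have h0 : 0 < x := (Real.exp_pos _).trans_le h
  refine ⟨h0, ?_⟩
  rw [div_le_iff₀ h0]
  calc (1 : ℝ) = Real.exp A * Real.exp (-A) := by rw [← Real.exp_add]; simp
    _ ≤ _ := mul_le_mul_of_nonneg_left h (Real.exp_pos _).le

private theorem B4_zz {d k q : ℕ} (f : Site d k → Fin q) (v : Site d k) (c : Fin q) :
    0 ≤ zz f v c ∧ zz f v c ≤ 1 := by
  unfold zz
  split_ifs
  · exact ⟨le_rfl, zero_le_one⟩
  · exact ⟨zero_le_one, le_rfl⟩

private theorem B4_pow {d : ℕ} (hd : 1 ≤ d) {C N : ℝ} (hC : 0 ≤ C) (hN : 0 ≤ N) :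
    C * d * (N / (d : ℝ) ^ 4) ≤ C / d * N := by
  have hd' : (1 : ℝ) ≤ d := by exact_mod_cast hd
  have hd0 : (0 : ℝ) < d := by linarith
  have h1 : C * d * (N / (d : ℝ) ^ 4) = C / d * N * (1 / (d : ℝ) ^ 2) := by
    field_simp
  have h2 : 1 / (d : ℝ) ^ 2 ≤ 1 := by
    rw [div_le_iff₀ (by positivity), one_mul]
    exact one_le_pow₀ hd'
  rw [h1]
  exact mul_le_of_le_one_right (by positivity) h2

theorem gg_det {ε : ℝ} (hε : 0 < ε) (hε1 : ε ≤ 1) (C₆ : ℝ) (t : ℕ) (δ : ℝ) (hδ : 0 < δ) : ∃ δ' : ℝ, 0 < δ' ∧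
    EvT ε fun d k q => ∀ f ∈ prps d k q, Good ε δ' C₆ t f → ∀ c : Fin q,
      ∑ v : Site d k, |gg c f v - zz f v c / al f v| ≤ δ * NN d k := by
  classical
  set E : ℝ := Real.exp (A0 ε) with hEdef
  have hE : 0 < E := Real.exp_pos _
  have hc1 := B4_c1_pos ε
  set s : ℝ := δ * c1 ε / (2 * E) with hsdef
  have hs : 0 < s := by positivity
  refine ⟨s ^ 2, by positivity, ?_⟩
  refine (EvT_reg hε hε1 (max 1 (2 * (2 + E) / δ))).mono ?_
  rintro d k q ⟨hdM, hqM, hkM, -, hq2, -, hraA, -⟩ f hf hG c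
  have hd1 : (1 : ℝ) ≤ d := (le_max_left _ _).trans hdM
  have hq1 : (1 : ℝ) ≤ q := (le_max_left _ _).trans hqM
  have hdE : 2 * (2 + E) / δ ≤ d := (le_max_right _ _).trans hdM
  have hd : 1 ≤ d := by exact_mod_cast hd1
  have hq : 1 ≤ q := by exact_mod_cast hq1
  have hqr : (0 : ℝ) < q := by linarith
  have hN : 0 ≤ NN d k := by unfold NN; positivity
  have hprp : Prp f := by simpa [prps] using hf
  have hal : ∀ v, 0 < al f v ∧ 1 / al f v ≤ E := fun v =>
    B4_inv ((Real.exp_le_exp.2 (by linarith : -A0 ε ≤ -ra d q)).trans (al_ge hq hprp v))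
  -- one site
  have hone : ∀ v, |gg c f v - zz f v c / al f v| ≤
      E / c1 ε * |(av f v : ℝ) / q - al f v| +
        (q + E) * (if (av f v : ℝ) < c1 ε * q then (1 : ℝ) else 0) := by
    intro v
    obtain ⟨h0, h1⟩ := hal v
    obtain ⟨z0, z1⟩ := B4_zz f v c
    have hav : (1 : ℝ) ≤ av f v := by exact_mod_cast av_pos hprp v
    have hav0 : (0 : ℝ) < av f v := by linarith
    split_ifs with hr
    · have e1 : |gg c f v| ≤ q := by
        unfold gg
        rw [abs_of_nonneg (by positivity), div_le_iff₀ hav0]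
        calc (q : ℝ) * zz f v c ≤ q * 1 := mul_le_mul_of_nonneg_left z1 hqr.le
          _ ≤ q * av f v := mul_le_mul_of_nonneg_left hav hqr.le
      have e2 : |zz f v c / al f v| ≤ E := by
        rw [abs_of_nonneg (by positivity)]
        calc zz f v c / al f v = zz f v c * (1 / al f v) := by ring
          _ ≤ 1 * (1 / al f v) := mul_le_mul_of_nonneg_right z1 (by positivity)
          _ ≤ E := by rw [one_mul]; exact h1
      have e3 := abs_sub (gg c f v) (zz f v c / al f v)
      have e4 : 0 ≤ E / c1 ε * |(av f v : ℝ) / q - al f v| := by positivity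
      linarith
    · have hr' : c1 ε * q ≤ av f v := not_lt.1 hr
      have e1 : gg c f v - zz f v c / al f v =
          zz f v c * (q / av f v) * (1 / al f v) * (al f v - av f v / q) := by
        unfold gg
        field_simp
      rw [e1, abs_mul, mul_zero, add_zero, abs_sub_comm (al f v)]
      refine mul_le_mul_of_nonneg_right ?_ (abs_nonneg _)
      rw [abs_of_nonneg (by positivity)]
      have e2 : (q : ℝ) / av f v ≤ 1 / c1 ε := by
        rw [div_le_div_iff₀ hav0 hc1]
        linarith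
      calc zz f v c * (q / av f v) * (1 / al f v) ≤ 1 * (1 / c1 ε) * E := by
            refine mul_le_mul (mul_le_mul z1 e2 (by positivity) zero_le_one) h1 (by positivity)
              (by positivity)
        _ = E / c1 ε := by ring
  have hav2 : ∑ v, |(av f v : ℝ) / q - al f v| ≤ s * NN d k := by
    have h3 : ∀ v, |(av f v : ℝ) / q - al f v| ≤
        ((av f v : ℝ) / q - al f v) ^ 2 / (2 * s) + s / 2 := by
      intro v
      set x := |(av f v : ℝ) / q - al f v| with hx
      have e1 : ((av f v : ℝ) / q - al f v) ^ 2 = x ^ 2 := (sq_abs _).symm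
      rw [e1]
      have e2 : x ^ 2 / (2 * s) + s / 2 - x = (x - s) ^ 2 / (2 * s) := by
        field_simp
        ring
      have e3 : 0 ≤ (x - s) ^ 2 / (2 * s) := by positivity
      linarith
    calc ∑ v, |(av f v : ℝ) / q - al f v|
        ≤ ∑ v : Site d k, (((av f v : ℝ) / q - al f v) ^ 2 / (2 * s) + s / 2) :=
          sum_le_sum fun v _ => h3 v
      _ = (∑ v : Site d k, ((av f v : ℝ) / q - al f v) ^ 2) / (2 * s) + NN d k * (s / 2) := by
          rw [sum_add_distrib, sum_div, sum_const, nsmul_eq_mul, card_univ, card_site]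
      _ ≤ s ^ 2 * NN d k / (2 * s) + NN d k * (s / 2) :=
          add_le_add (div_le_div_of_nonneg_right hG.avl (by positivity)) le_rfl
      _ = s * NN d k := by
          field_simp
          ring
  have hirr : ∑ v : Site d k, (if (av f v : ℝ) < c1 ε * q then (1 : ℝ) else 0) ≤
      NN d k / (d : ℝ) ^ 4 := by
    refine le_trans (le_of_eq ?_) hG.irr4
    unfold irr
    rw [sum_boole]
  calc ∑ v : Site d k, |gg c f v - zz f v c / al f v|
      ≤ ∑ v : Site d k, (E / c1 ε * |(av f v : ℝ) / q - al f v| +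
        (q + E) * (if (av f v : ℝ) < c1 ε * q then (1 : ℝ) else 0)) := sum_le_sum fun v _ => hone v
    _ = E / c1 ε * ∑ v : Site d k, |(av f v : ℝ) / q - al f v| +
        (q + E) * ∑ v : Site d k, (if (av f v : ℝ) < c1 ε * q then (1 : ℝ) else 0) := by
        rw [sum_add_distrib, mul_sum, mul_sum]
    _ ≤ E / c1 ε * (s * NN d k) + (q + E) * (NN d k / (d : ℝ) ^ 4) :=
        add_le_add (mul_le_mul_of_nonneg_left hav2 (by positivity))
          (mul_le_mul_of_nonneg_left hirr (by positivity))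
    _ ≤ δ / 2 * NN d k + δ / 2 * NN d k := by
        refine add_le_add (le_of_eq ?_) ?_
        · rw [hsdef]
          field_simp
        · have e1 : (q : ℝ) + E ≤ (2 + E) * d := by nlinarith
          calc (q + E) * (NN d k / (d : ℝ) ^ 4) ≤ (2 + E) * d * (NN d k / (d : ℝ) ^ 4) :=
                mul_le_mul_of_nonneg_right e1 (by positivity)
            _ ≤ (2 + E) / d * NN d k := B4_pow hd (by positivity) hN
            _ ≤ δ / 2 * NN d k := by
                refine mul_le_mul_of_nonneg_right ?_ hN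
                rw [div_le_div_iff₀ (by linarith) (by norm_num)]
                rw [div_le_iff₀ hδ] at hdE
                linarith
    _ = δ * NN d k := by ring

theorem zt_det {ε : ℝ} (hε : 0 < ε) (hε1 : ε ≤ 1) (C₆ : ℝ) (t : ℕ) (δ : ℝ) (hδ : 0 < δ) :
    EvT ε fun d k q => ∀ f ∈ prps d k q, irr ε f ≤ NN d k / (d : ℝ) ^ 4 → ∀ c : Fin q,
      ∑ v : Site d k, |zt f v c / al f v - ya c f v| ≤ δ * NN d k := by
  classical
  set E : ℝ := Real.exp (A0 ε) with hEdef
  have hE : 0 < E := Real.exp_pos _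
  have hc1 := B4_c1_pos ε
  have hA0 : 0 < A0 ε := by unfold A0; positivity
  refine (EvT_reg hε hε1 (max (max 1 (2 / c1 ε))
    (max (4 * E / δ) (2 * E * A0 ε / (c1 ε ^ 2 * δ))))).mono ?_
  rintro d k q ⟨hdM, hqM, hkM, -, hq2, -, hraA, -⟩ f hf hG c
  have hd1 : (1 : ℝ) ≤ d := ((le_max_left _ _).trans (le_max_left _ _)).trans hdM
  have hq1 : (1 : ℝ) ≤ q := ((le_max_left _ _).trans (le_max_left _ _)).trans hqM
  have hqc : 2 / c1 ε ≤ q := ((le_max_right _ _).trans (le_max_left _ _)).trans hqM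
  have hdE : 4 * E / δ ≤ d := ((le_max_left _ _).trans (le_max_right _ _)).trans hdM
  have hqE : 2 * E * A0 ε / (c1 ε ^ 2 * δ) ≤ q :=
    ((le_max_right _ _).trans (le_max_right _ _)).trans hqM
  have hd : 1 ≤ d := by exact_mod_cast hd1
  have hq : 1 ≤ q := by exact_mod_cast hq1
  have hqr : (0 : ℝ) < q := by linarith
  have hN : 0 ≤ NN d k := by unfold NN; positivity
  have hprp : Prp f := by simpa [prps] using hf
  have hra0 : 0 ≤ ra d q := by unfold ra; positivity
  have hal : ∀ v, 0 < al f v ∧ 1 / al f v ≤ E := fun v =>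
    B4_inv ((Real.exp_le_exp.2 (by linarith : -A0 ε ≤ -ra d q)).trans (al_ge hq hprp v))
  have hone : ∀ v, |zt f v c / al f v - ya c f v| ≤
      E * (A0 ε / (c1 ε ^ 2 * q)) + E * (if ¬ Nc ε f v then (1 : ℝ) else 0) := by
    intro v
    obtain ⟨h0, h1⟩ := hal v
    have e1 : zt f v c / al f v - ya c f v = (1 / al f v) * (zt f v c - Real.exp (-hh c f v)) := by
      rw [exp_hh hq f c v]
      field_simp
    rw [e1, abs_mul, abs_of_nonneg (by positivity : 0 ≤ 1 / al f v), ← mul_add]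
    refine mul_le_mul h1 ?_ (abs_nonneg _) hE.le
    by_cases hn : Nc ε f v
    · rw [if_neg (not_not.2 hn), add_zero]
      refine (zt_exp hε hqc hprp c v hn).trans ?_
      exact div_le_div_of_nonneg_right hraA (by positivity)
    · rw [if_pos hn]
      have e2 := zt_exp' hprp c v
      have e3 : 0 ≤ A0 ε / (c1 ε ^ 2 * q) := by positivity
      linarith
  have hnn : ∑ v : Site d k, (if ¬ Nc ε f v then (1 : ℝ) else 0) ≤
      2 * d * (NN d k / (d : ℝ) ^ 4) := by
    refine le_trans (le_of_eq ?_) ((not_nice ε f).trans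
      (mul_le_mul_of_nonneg_left hG (by positivity)))
    rw [sum_boole]
  calc ∑ v : Site d k, |zt f v c / al f v - ya c f v|
      ≤ ∑ v : Site d k, (E * (A0 ε / (c1 ε ^ 2 * q)) +
        E * (if ¬ Nc ε f v then (1 : ℝ) else 0)) := sum_le_sum fun v _ => hone v
    _ = NN d k * (E * (A0 ε / (c1 ε ^ 2 * q))) +
        E * ∑ v : Site d k, (if ¬ Nc ε f v then (1 : ℝ) else 0) := by
        rw [sum_add_distrib, sum_const, nsmul_eq_mul, card_univ, card_site, mul_sum]
    _ ≤ NN d k * (E * (A0 ε / (c1 ε ^ 2 * q))) + E * (2 * d * (NN d k / (d : ℝ) ^ 4)) :=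
        add_le_add le_rfl (mul_le_mul_of_nonneg_left hnn hE.le)
    _ ≤ δ / 2 * NN d k + δ / 2 * NN d k := by
        refine add_le_add ?_ ?_
        · rw [mul_comm]
          refine mul_le_mul_of_nonneg_right ?_ hN
          have e1 : E * (A0 ε / (c1 ε ^ 2 * q)) = E * A0 ε / (c1 ε ^ 2) / q := by
            field_simp
          rw [e1, div_le_iff₀ hqr]
          rw [div_le_iff₀ (by positivity)] at hqE
          rw [div_le_iff₀ (by positivity)]
          linarith
        · have e1 : E * (2 * d * (NN d k / (d : ℝ) ^ 4)) =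
              (2 * E) * d * (NN d k / (d : ℝ) ^ 4) := by ring
          rw [e1]
          refine (B4_pow hd (by positivity) hN).trans (mul_le_mul_of_nonneg_right ?_ hN)
          rw [div_le_div_iff₀ (by linarith) (by norm_num)]
          rw [div_le_iff₀ hδ] at hdE
          linarith
    _ = δ * NN d k := by ring

end Pool.Agent.THR

end

/-! ### from `Lib_MP_2c424f_lin.G3b` -/

section

/-!
# H30 G3b: adding a colour

* `extra`: `resum` with `φ _ x = 1 + 1/x`: `≤ WW b 1 ≤ ZZ (q+1)` (for `x = 0` the term `x (1 + 1/x)` is `0 ≤ x + 1`).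
* `mean_dev`: Jensen and `typ_exp`.
* `ratio_w`: let `⟨·⟩` be the mean with the weights `∏ ((x_v + w)/q)` (total mass `WW b w > 0`).
  `WW b 1/WW b w = ⟨∏ (x_v+1)/(x_v+w)⟩ ≥ exp ⟨∑ log ((x_v+1)/(x_v+w))⟩` (Jensen; for `w = 0` a configuration with some
  `x_v = 0` has weight `0`: use `log` only on the support, or prove the case `w > 0` and let `w → 0`; or
  `∏ a_v ≥ W exp (⟨∑ ..⟩)` by the weighted inequality `y ≥ e^m (1 + log y - m)`).  `log ((x+1)/(x+w)) ≥ (1-w)/(x+1)` and
  `1/(x+1) ≥ 4/q - 4(x+1)/q²`, so with `n = N/2`, `ξ = x/q`: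
  `∑ log ≥ (1-w) (4n/q - (4/q) ∑ ξ_v - 4n/q²)`, `⟨∑ (ξ_v - 1/2)⟩ ≤ (1/2) (n ⟨∑ (1-2ξ_v)²⟩)^(1/2)` and by Jensen, `typ_expw`,
  `WW b w ≥ ZZ` and `pressure_ge`: `⟨∑ (1-2ξ_v)²⟩ ≤ N (q log 2/(4d) + 6w/q + 1/q²) ≤ 7 δ N = 14 δ n`.  So
  `⟨∑ log⟩ ≥ (1-w)(N/q)(1 - √(14δ) - 2/q)`.
* `ratio_ge`: `w = 0`.
-/

set_option autoImplicit false

open Finset

namespace Pool.Agent.LIN

open Pool.Agent.LO

variable {d k q : ℕ}

/-- Jensen for `exp` with finitely many weights -/
private theorem G3b_jensen {ι : Type*} (s : Finset ι) (a T : ι → ℝ) (ha : ∀ i ∈ s, 0 ≤ a i) {W : ℝ}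
    (hW : ∑ i ∈ s, a i = W) (hW0 : 0 < W) :
    W * Real.exp ((∑ i ∈ s, a i * T i) / W) ≤ ∑ i ∈ s, a i * Real.exp (T i) := by
  set m : ℝ := (∑ i ∈ s, a i * T i) / W with hm
  have hmW : ∑ i ∈ s, a i * T i = m * W := by
    rw [hm]
    field_simp
  have h1 : ∑ i ∈ s, a i * (Real.exp m * (1 + T i - m)) = W * Real.exp m := by
    have h2 : ∀ i ∈ s, a i * (Real.exp m * (1 + T i - m)) =
        Real.exp m * (a i * T i) + Real.exp m * (1 - m) * a i := fun i _ => by ring
    rw [sum_congr rfl h2, sum_add_distrib, ← mul_sum, ← mul_sum, hmW, hW]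
    ring
  rw [← h1]
  refine sum_le_sum fun i hi => mul_le_mul_of_nonneg_left ?_ (ha i hi)
  have h3 : Real.exp (T i) = Real.exp m * Real.exp (T i - m) := by
    rw [← Real.exp_add]
    congr 1
    ring
  rw [h3]
  refine mul_le_mul_of_nonneg_left ?_ (Real.exp_pos m).le
  have h4 := Real.add_one_le_exp (T i - m)
  linarith

/-- one factor -/
private theorem G3b_fac {x w q : ℝ} (hx : 0 ≤ x) (hw : 0 ≤ w) (hw1 : w ≤ 1) (hq : 0 < q) :
    (x + w) / q * Real.exp ((1 - w) * (4 / q - 4 / q ^ 2 - 4 / q * (x / q))) ≤ (x + 1) / q := by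
  have h1 : 4 / q - 4 / q ^ 2 - 4 / q * (x / q) ≤ 1 / (x + 1) := by
    have h2 : 1 / (x + 1) - (4 / q - 4 / q ^ 2 - 4 / q * (x / q)) =
        (q - 2 * (x + 1)) ^ 2 / ((x + 1) * q ^ 2) := by
      have : x + 1 ≠ 0 := by positivity
      field_simp
      ring
    have h3 : 0 ≤ (q - 2 * (x + 1)) ^ 2 / ((x + 1) * q ^ 2) := by positivity
    linarith
  have h4 : (1 - w) * (4 / q - 4 / q ^ 2 - 4 / q * (x / q)) ≤ (1 - w) / (x + 1) := by
    calc (1 - w) * (4 / q - 4 / q ^ 2 - 4 / q * (x / q)) ≤ (1 - w) * (1 / (x + 1)) :=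
          mul_le_mul_of_nonneg_left h1 (by linarith)
      _ = (1 - w) / (x + 1) := by ring
  have h5 : (x + w) ≤ (x + 1) * Real.exp (-((1 - w) / (x + 1))) := by
    have h6 := Real.add_one_le_exp (-((1 - w) / (x + 1)))
    have h7 : (x + 1) * (-((1 - w) / (x + 1)) + 1) = x + w := by
      have : x + 1 ≠ 0 := by positivity
      field_simp
      ring
    rw [← h7]
    exact mul_le_mul_of_nonneg_left h6 (by positivity)
  calc (x + w) / q * Real.exp ((1 - w) * (4 / q - 4 / q ^ 2 - 4 / q * (x / q)))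
      ≤ (x + w) / q * Real.exp ((1 - w) / (x + 1)) :=
        mul_le_mul_of_nonneg_left (Real.exp_le_exp.2 h4) (by positivity)
    _ ≤ ((x + 1) * Real.exp (-((1 - w) / (x + 1)))) / q * Real.exp ((1 - w) / (x + 1)) := by
        gcongr
    _ = (x + 1) / q := by
        rw [Real.exp_neg]
        have := (Real.exp_pos ((1 - w) / (x + 1))).ne'
        field_simp

private theorem G3b_params {δ : ℝ} (hδ : 0 < δ) (hδ1 : δ ≤ 1 / 2) (h1 : 1 / δ ≤ q)
    (h2 : (q : ℝ) ≤ δ * d) : 1 ≤ d ∧ 2 ≤ q := by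
  have hq : (2 : ℝ) ≤ q := by
    refine le_trans ?_ h1
    rw [le_div_iff₀ hδ]
    linarith
  have hd : (0 : ℝ) < d := by
    have : 0 < δ * d := by linarith
    exact (pos_iff_pos_of_mul_pos this).1 hδ
  exact ⟨by exact_mod_cast hd, by exact_mod_cast hq⟩

private theorem G3b_num {δ w : ℝ} (hδ : 0 < δ) (hδ1 : δ ≤ 1 / 2) (h1 : 1 / δ ≤ q)
    (h2 : (q : ℝ) ≤ δ * d) (hd : 1 ≤ d) (hq : 2 ≤ q) (hw1 : w ≤ 1) :
    (q : ℝ) * Real.log 2 / (4 * d) + 6 * w / q + 1 / (q : ℝ) ^ 2 ≤ 7 * δ := by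
  have hd0 : (0 : ℝ) < d := by exact_mod_cast hd
  have hq0 : (0 : ℝ) < q := by
    have : (2 : ℝ) ≤ q := by exact_mod_cast hq
    linarith
  have hlog : Real.log 2 ≤ 1 := by
    have := Real.log_two_lt_d9
    linarith
  have hlog0 : 0 ≤ Real.log 2 := Real.log_nonneg (by norm_num)
  have e1 : (q : ℝ) * Real.log 2 / (4 * d) ≤ δ / 4 := by
    rw [div_le_div_iff₀ (by positivity) (by norm_num)]
    nlinarith [mul_le_mul_of_nonneg_left hlog hq0.le]
  have e2 : 1 / (q : ℝ) ≤ δ := by
    rw [div_le_iff₀ hq0]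
    rw [div_le_iff₀ hδ] at h1
    linarith
  have e20 : 0 ≤ 1 / (q : ℝ) := by positivity
  have e3 : 6 * w / q ≤ 6 * δ := by
    calc 6 * w / q = 6 * w * (1 / q) := by ring
      _ ≤ 6 * 1 * (1 / q) := by gcongr
      _ ≤ 6 * δ := by linarith
  have e4 : 1 / (q : ℝ) ^ 2 ≤ δ / 2 := by
    calc 1 / (q : ℝ) ^ 2 = (1 / q) * (1 / q) := by ring
      _ ≤ δ * δ := mul_le_mul e2 e2 e20 hδ.le
      _ ≤ δ / 2 := by nlinarith
  linarith

theorem ratio_w {δ : ℝ} (hδ : 0 < δ) (hδ1 : δ ≤ 1 / 2) (h1 : 1 / δ ≤ q) (h2 : (q : ℝ) ≤ δ * d) (hk : 2 ≤ k)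
    (b : Bool) (w : ℝ) (hw : 0 ≤ w) (hw1 : w ≤ 1) :
    Real.log (WW d k q b w) + NN d k / q * ((1 - w) * (1 - Real.sqrt (14 * δ) - 2 / q)) ≤
      Real.log (WW d k q b 1) := by
  obtain ⟨hd, hq⟩ := G3b_params hδ hδ1 h1 h2
  have hq0 : (0 : ℝ) < q := by
    have : (2 : ℝ) ≤ q := by exact_mod_cast hq
    linarith
  have hN0 : 0 < NN d k := by
    unfold NN
    positivity
  -- the total weight
  set W : ℝ := WW d k q b w with hWdef
  have hZW : ZZ d k q ≤ W := by
    rw [← WW_zero (by omega) (by omega) b]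
    exact WW_mono b le_rfl hw
  have hW0 : 0 < W := lt_of_lt_of_le (ZZ_pos (by omega) hq) hZW
  set a : (Site d k → Fin q) → ℝ := fun f => ∏ v ∈ cls b d k, (((av f v : ℝ) + w) / q) with hadef
  have ha : ∀ f, 0 ≤ a f := fun f => prod_nonneg fun v _ => by positivity
  have haW : ∑ f, a f = W := rfl
  -- mean of the square deviation
  set T : (Site d k → Fin q) → ℝ := fun f => ∑ v ∈ cls b d k, (1 - 2 * xi f v) ^ 2 with hTdef
  have hT : (∑ f, a f * T f) / W ≤ 7 * δ * NN d k := by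
    have j1 := G3b_jensen univ a T (fun f _ => ha f) haW hW0
    have j2 : ∑ f, a f * Real.exp (T f) ≤
        Real.exp (NN d k * (Real.log (q / 2) + q * Real.log 2 / (4 * d) + 6 * w / q)) := by
      refine le_trans (le_of_eq (sum_congr rfl fun f _ => ?_)) (typ_expw hd hk hq b w hw hw1)
      rw [hadef, hTdef]
      simp only
      rw [Real.exp_sum, ← prod_mul_distrib]
    have j3 : Real.exp (NN d k * (Real.log (q / 2) - 1 / (q : ℝ) ^ 2)) ≤ W := by
      refine le_trans ?_ hZW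
      rw [← Real.le_log_iff_exp_le (ZZ_pos (by omega) hq)]
      exact pressure_ge hd hk hq
    have j4 : Real.exp (NN d k * (Real.log (q / 2) - 1 / (q : ℝ) ^ 2) + (∑ f, a f * T f) / W) ≤
        Real.exp (NN d k * (Real.log (q / 2) + q * Real.log 2 / (4 * d) + 6 * w / q)) := by
      rw [Real.exp_add]
      exact le_trans (mul_le_mul_of_nonneg_right j3 (Real.exp_pos _).le) (j1.trans j2)
    rw [Real.exp_le_exp] at j4
    have j5 := mul_le_mul_of_nonneg_left (G3b_num (w := w) hδ hδ1 h1 h2 hd hq hw1) hN0.le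
    linarith
  -- the logarithm of the factor
  set L : (Site d k → Fin q) → ℝ := fun f => ∑ v ∈ cls b d k,
    ((1 - w) * (4 / q - 4 / (q : ℝ) ^ 2 - 4 / q * ((av f v : ℝ) / q))) with hLdef
  have hL1 : ∀ f, a f * Real.exp (L f) ≤ ∏ v ∈ cls b d k, (((av f v : ℝ) + 1) / q) := by
    intro f
    rw [hadef, hLdef]
    simp only
    rw [Real.exp_sum, ← prod_mul_distrib]
    exact prod_le_prod (fun v _ => by positivity) fun v _ => G3b_fac (by positivity) hw hw1 hq0
  have hL2 : W * Real.exp ((∑ f, a f * L f) / W) ≤ WW d k q b 1 :=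
    (G3b_jensen univ a L (fun f _ => ha f) haW hW0).trans (sum_le_sum fun f _ => hL1 f)
  -- lower bound for the mean of `L`
  set θ : ℝ := Real.sqrt (14 * δ) with hθdef
  have hθ0 : 0 < θ := Real.sqrt_pos.2 (by linarith)
  have hθ2 : θ ^ 2 = 14 * δ := Real.sq_sqrt (by linarith)
  have hcard := card_cls (d := d) (k := k) hd (by omega) b
  have hLT : ∀ f, NN d k / q * ((1 - w) * (1 - θ / 2 - 2 / q)) -
      (1 - w) / (q * θ) * T f ≤ L f := by
    intro f
    have k1 : ∀ v ∈ cls b d k, (1 - w) * (2 / q * (1 - θ / 2 - 2 / q)) -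
        (1 - w) / (q * θ) * (1 - 2 * xi f v) ^ 2 ≤
        (1 - w) * (4 / q - 4 / (q : ℝ) ^ 2 - 4 / q * ((av f v : ℝ) / q)) := by
      intro v _
      have k2 : (1 - w) * (4 / q - 4 / (q : ℝ) ^ 2 - 4 / q * ((av f v : ℝ) / q)) -
          ((1 - w) * (2 / q * (1 - θ / 2 - 2 / q)) -
            (1 - w) / (q * θ) * (1 - 2 * xi f v) ^ 2) =
          (1 - w) / (q * θ) * (θ + (1 - 2 * xi f v)) ^ 2 := by
        unfold xi
        field_simp
        ring
      have k3 : 0 ≤ (1 - w) / (q * θ) * (θ + (1 - 2 * xi f v)) ^ 2 :=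
        mul_nonneg (div_nonneg (by linarith) (by positivity)) (sq_nonneg _)
      linarith
    have k4 := sum_le_sum k1
    rw [sum_sub_distrib, sum_const, nsmul_eq_mul, hcard, ← mul_sum] at k4
    refine le_trans (le_of_eq ?_) k4
    rw [hTdef]
    simp only
    ring
  have hLm : NN d k / q * ((1 - w) * (1 - θ - 2 / q)) ≤ (∑ f, a f * L f) / W := by
    have m1 : ∑ f, a f * (NN d k / q * ((1 - w) * (1 - θ / 2 - 2 / q)) -
        (1 - w) / (q * θ) * T f) ≤ ∑ f, a f * L f :=
      sum_le_sum fun f _ => mul_le_mul_of_nonneg_left (hLT f) (ha f)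
    have m2 : ∑ f, a f * (NN d k / q * ((1 - w) * (1 - θ / 2 - 2 / q)) -
        (1 - w) / (q * θ) * T f) = NN d k / q * ((1 - w) * (1 - θ / 2 - 2 / q)) * W -
        (1 - w) / (q * θ) * ∑ f, a f * T f := by
      rw [← haW, mul_sum, mul_sum, ← sum_sub_distrib]
      exact sum_congr rfl fun f _ => by ring
    rw [m2] at m1
    have m3 : ∑ f, a f * T f ≤ 7 * δ * NN d k * W := (div_le_iff₀ hW0).1 hT
    have m4 : (1 - w) / (q * θ) * ∑ f, a f * T f ≤ (1 - w) / (q * θ) * (7 * δ * NN d k * W) :=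
      mul_le_mul_of_nonneg_left m3 (div_nonneg (by linarith) (by positivity))
    have m5 : (1 - w) / (q * θ) * (7 * δ * NN d k * W) =
        NN d k / q * ((1 - w) * (θ / 2)) * W := by
      have : 7 * δ = θ ^ 2 / 2 := by rw [hθ2]; ring
      rw [this]
      field_simp
    rw [le_div_iff₀ hW0]
    have m6 : NN d k / q * ((1 - w) * (1 - θ - 2 / q)) * W =
        NN d k / q * ((1 - w) * (1 - θ / 2 - 2 / q)) * W - NN d k / q * ((1 - w) * (θ / 2)) * W := by
      ring
    rw [m6]
    linarith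
  have hfin : W * Real.exp (NN d k / q * ((1 - w) * (1 - θ - 2 / q))) ≤ WW d k q b 1 :=
    (mul_le_mul_of_nonneg_left (Real.exp_le_exp.2 hLm) hW0.le).trans hL2
  have hlogf := Real.log_le_log (by positivity) hfin
  rwa [Real.log_mul hW0.ne' (Real.exp_pos _).ne', Real.log_exp] at hlogf

theorem ratio_ge {δ : ℝ} (hδ : 0 < δ) (hδ1 : δ ≤ 1 / 2) (h1 : 1 / δ ≤ q) (h2 : (q : ℝ) ≤ δ * d) (hk : 2 ≤ k) :
    Real.log (ZZ d k q) + NN d k / q * (1 - Real.sqrt (14 * δ) - 2 / q) ≤ Real.log (ZZ d k (q + 1)) := by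
  obtain ⟨hd, hq⟩ := G3b_params hδ hδ1 h1 h2
  have h3 := ratio_w hδ hδ1 h1 h2 hk true 0 le_rfl zero_le_one
  rw [WW_zero (by omega) (by omega) true, sub_zero, one_mul] at h3
  have h4 : 0 < WW d k q true 1 := by
    refine lt_of_lt_of_le (ZZ_pos (d := d) (k := k) (by omega) hq) ?_
    rw [← WW_zero (by omega) (by omega) true]
    exact WW_mono true le_rfl zero_le_one
  exact h3.trans (Real.log_le_log h4 (WW_one (by omega) (by omega) true))

end Pool.Agent.LIN

end

/-! ### from `Lib_MP_2c424f_lc6.C08` -/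

section

/-!
# LC6 C08: parity and degrees in the two-sheeted products

* `YG_par`: one coordinate changes by `1` (or between `0` and the odd last index `2 L - 1` of a cycle).
* `D2_par`: neighbours in `R` have values of different parity.
* `YG_deg`: every point has at most 2 neighbours in each of the `d - 1` directions; `D2_deg`: a glued point has at most twice the degree in the base.
-/

set_option autoImplicit false

open Finset

namespace Pool.Agent.LC

open Pool.Agent.LO Pool.Agent.LIN Pool.Agent.THR Pool.Agent.COR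

private lemma card_le_two {V : Type} [Fintype V] (X : SimpleGraph V) (a : V) (P Q : V → Prop)
    (h : ∀ x, X.Adj a x → P x ∨ Q x) (hP : ∀ x y, P x → P y → x = y) (hQ : ∀ x y, Q x → Q y → x = y) :
    (nb X a).card ≤ 2 := by
  classical
  have h1 : nb X a ⊆ univ.filter P ∪ univ.filter Q := by
    intro x hx
    have hx' : X.Adj a x := by
      unfold nb at hx
      exact (mem_filter.1 hx).2
    rcases h x hx' with h | h
    · exact mem_union_left _ (mem_filter.2 ⟨mem_univ _, h⟩)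
    · exact mem_union_right _ (mem_filter.2 ⟨mem_univ _, h⟩)
  have h2 : (univ.filter P).card ≤ 1 := card_le_one.2 fun x hx y hy => hP x y (mem_filter.1 hx).2 (mem_filter.1 hy).2
  have h3 : (univ.filter Q).card ≤ 1 := card_le_one.2 fun x hx y hy => hQ x y (mem_filter.1 hx).2 (mem_filter.1 hy).2
  calc (nb X a).card ≤ (univ.filter P ∪ univ.filter Q).card := card_le_card h1
    _ ≤ (univ.filter P).card + (univ.filter Q).card := card_union_le _ _
    _ ≤ 2 := by omega

private lemma lnG_deg' (p : Bool) (n : ℕ) (a : Fin n) : (nb (lnG p n) a).card ≤ 2 := by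
  refine card_le_two _ a (fun b => a.val + 1 = b.val ∨ (b.val = 0 ∧ a.val + 1 = n))
    (fun b => b.val + 1 = a.val ∨ (a.val = 0 ∧ b.val + 1 = n)) ?_ ?_ ?_
  · rintro b ⟨-, h | h | ⟨-, h | h⟩⟩
    · exact Or.inl (Or.inl h)
    · exact Or.inr (Or.inl h)
    · exact Or.inr (Or.inr h)
    · exact Or.inl (Or.inr h)
  · intro x y hx hy
    have := x.isLt
    have := y.isLt
    apply Fin.ext
    omega
  · intro x y hx hy
    have := x.isLt
    have := y.isLt
    apply Fin.ext
    omega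

private lemma par_step (a b n : ℕ) (p : Bool) (hn : p = true → Even n)
    (h : a + 1 = b ∨ b + 1 = a ∨ (p = true ∧ ((a = 0 ∧ b + 1 = n) ∨ (b = 0 ∧ a + 1 = n)))) :
    Even a ↔ ¬ Even b := by
  simp only [Nat.even_iff] at *
  rcases h with h | h | ⟨hp, h | h⟩
  · omega
  · omega
  · have := hn hp
    omega
  · have := hn hp
    omega

theorem YG_par {d : ℕ} (j : Fin d) (p : {i // i ≠ j} → Bool) (L : Fin d → ℕ) (s : ℕ) (hL : ∀ i, 1 ≤ L i) :
    Par (YG j p L s) (Yev j p L s) := by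
  rintro x y ⟨i, h, h'⟩
  have h1 : (Even (x i).val ↔ ¬ Even (y i).val) := by
    refine par_step _ _ (lm (p i) (L i) s + 1) (p i) ?_ h'.2
    intro hp
    have := hL i
    unfold lm
    rw [if_pos hp]
    exact ⟨L i, by omega⟩
  have e : ∀ z : YV j p L s, Yev j p L s z ↔ Even ((z i).val + ∑ k ∈ univ.erase i, (z k).val) := by
    intro z
    unfold Yev
    rw [add_sum_erase _ (fun k => (z k).val) (mem_univ i)]
  have e2 : ∑ k ∈ univ.erase i, (x k).val = ∑ k ∈ univ.erase i, (y k).val :=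
    sum_congr rfl fun k hk => by rw [h k (mem_erase.1 hk).1]
  rw [e x, e y, e2, Nat.even_add, Nat.even_add]
  tauto

open scoped Classical in
theorem YG_deg {d : ℕ} (j : Fin d) (p : {i // i ≠ j} → Bool) (L : Fin d → ℕ) (s : ℕ) (y : YV j p L s) :
    (nb (YG j p L s) y).card ≤ 2 * (d - 1) := by
  have h1 : nb (YG j p L s) y ⊆ (univ : Finset {i // i ≠ j}).biUnion fun i =>
      (nb (lnG (p i) (lm (p i) (L i) s + 1)) (y i)).image fun b => Function.update y i b := by
    intro x hx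
    unfold nb at hx
    obtain ⟨i, h, h'⟩ := (mem_filter.1 hx).2
    refine mem_biUnion.2 ⟨i, mem_univ _, mem_image.2 ⟨x i, ?_, ?_⟩⟩
    · unfold nb
      exact mem_filter.2 ⟨mem_univ _, h'⟩
    · funext k
      by_cases hk : k = i
      · subst hk
        exact Function.update_self _ _ _
      · rw [Function.update_of_ne hk]
        exact h k hk
  calc (nb (YG j p L s) y).card ≤ _ := card_le_card h1
    _ ≤ ∑ i : {i // i ≠ j}, ((nb (lnG (p i) (lm (p i) (L i) s + 1)) (y i)).image fun b => Function.update y i b).card :=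
        card_biUnion_le
    _ ≤ ∑ _i : {i // i ≠ j}, 2 := sum_le_sum fun i _ => le_trans card_image_le (lnG_deg' _ _ _)
    _ = 2 * (d - 1) := by
        rw [sum_const, card_univ, smul_eq_mul]
        simp [Fintype.card_subtype_compl, mul_comm]

theorem D2_par {Y : Type} [Fintype Y] [DecidableEq Y] {n : ℕ} (H : SimpleGraph Y) (gl : Y × Fin n → Prop) (evY : Y → Prop) (hH : Par H evY)
    (R : SimpleGraph (Fin n)) (hR : ∀ a b, R.Adj a b → (Even a.val ↔ ¬ Even b.val)) :
    Par (D2 (H.boxProd R) gl) (evP evY) := by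
  rintro x y ⟨h, -⟩
  unfold evP
  rcases (SimpleGraph.boxProd_adj.1 h) with ⟨h1, h2⟩ | ⟨h1, h2⟩
  · have := hH _ _ h1
    rw [h2]
    tauto
  · have := hR _ _ h1
    rw [h2]
    tauto

theorem D2_deg {Y : Type} [Fintype Y] [DecidableEq Y] {n : ℕ} (H : SimpleGraph Y) (gl : Y × Fin n → Prop) (D : ℕ)
    (hH : ∀ y, (nb H y).card ≤ D) (R : SimpleGraph (Fin n)) (hR : ∀ a, (nb R a).card ≤ 2) (z : (Y × Fin n) × Bool) :
    (nb (D2 (H.boxProd R) gl) z).card ≤ 2 * (D + 2) := by
  classical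
  have h1 : nb (D2 (H.boxProd R) gl) z ⊆
      ((nb H z.1.1).image (fun y => (y, z.1.2)) ∪ (nb R z.1.2).image (fun a => (z.1.1, a))) ×ˢ (univ : Finset Bool) := by
    intro x hx
    unfold nb at hx
    have hx' := (mem_filter.1 hx).2.1
    refine mem_product.2 ⟨?_, mem_univ _⟩
    rcases (SimpleGraph.boxProd_adj.1 hx') with ⟨h1, h2⟩ | ⟨h1, h2⟩
    · refine mem_union_left _ (mem_image.2 ⟨x.1.1, ?_, ?_⟩)
      · unfold nb
        exact mem_filter.2 ⟨mem_univ _, h1⟩
      · rw [h2]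
    · refine mem_union_right _ (mem_image.2 ⟨x.1.2, ?_, ?_⟩)
      · unfold nb
        exact mem_filter.2 ⟨mem_univ _, h1⟩
      · rw [h2]
  calc (nb (D2 (H.boxProd R) gl) z).card ≤ _ := card_le_card h1
    _ = ((nb H z.1.1).image (fun y => (y, z.1.2)) ∪ (nb R z.1.2).image (fun a => (z.1.1, a))).card * 2 := by
        rw [card_product]
        simp
    _ ≤ (((nb H z.1.1).image (fun y => (y, z.1.2))).card + ((nb R z.1.2).image (fun a => (z.1.1, a))).card) * 2 :=
        Nat.mul_le_mul_right _ (card_union_le _ _)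
    _ ≤ (D + 2) * 2 := Nat.mul_le_mul_right _ (add_le_add (le_trans card_image_le (hH _)) (le_trans card_image_le (hR _)))
    _ = 2 * (D + 2) := mul_comm _ _

theorem RX_par (s L : ℕ) (a b : Fin (2 * s + 2 * L + 1)) (h : (RX s L).Adj a b) : Even a.val ↔ ¬ Even b.val := by
  obtain ⟨-, h⟩ := h
  unfold nxt at h
  simp only [Nat.even_iff]
  omega

theorem RX_deg (s L : ℕ) (a : Fin (2 * s + 2 * L + 1)) : (nb (RX s L) a).card ≤ 2 := by
  refine card_le_two _ a (fun b => nxt s L a.val b.val) (fun b => nxt s L b.val a.val) ?_ ?_ ?_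
  · intro b h
    exact h.2
  · intro x y hx hy
    unfold nxt at hx hy
    apply Fin.ext
    omega
  · intro x y hx hy
    unfold nxt at hx hy
    apply Fin.ext
    omega

theorem lnG_par (n : ℕ) (a b : Fin n) (h : (lnG false n).Adj a b) : Even a.val ↔ ¬ Even b.val := by
  exact par_step _ _ n false (fun h => absurd h (by simp)) h.2

theorem lnG_deg (p : Bool) (n : ℕ) (a : Fin n) : (nb (lnG p n) a).card ≤ 2 := by
  exact lnG_deg' p n a

end Pool.Agent.LC

end
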