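import Pool.Agent.Lib_MP_2c424f_m.M19
import Pool.Agent.Lib_MP_2c424f_m.M22
import Pool.Agent.Lib_MP_2c424f_m.M27

/-!
# MP_2c424f_pr, q_c grows linearly: merged library part M28

Concatenation of smaller files (each in its own section), only to save build time.
-/

namespace Pool.Agent.LO
end Pool.Agent.LO

namespace Pool.Agent.LIN
end Pool.Agent.LIN

namespace Pool.Agent.THR
end Pool.Agent.THR

namespace Pool.Agent.COR
end Pool.Agent.COR

/-! ### from `Lib_MP_2c424f_lc7.E12` -/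

section

/-!
# LC7 E12: equal colours in two large blocks

Let `T` be the set of the triples `(τ, a, b)`, `τ` a block of the large block, `od a b`; `x(τ, a, b) = plc .. (Wpt .. τ a b)`.  For `f` with `NGd A t f`, `NGd A t' f`:
for `c ∉ A` the proportion of the triples of `t` with colour `c` is at least `19/20 (1 + m - η)/q ≥ 1.89/q` (`not_ALP`: `frq false none c ≥ 1 + m - η`; all blocks
have the same number `|oS none|` of odd pairs).  So the proportion of the pairs of triples with equal colours is at least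
`∑_{c ∉ A} (1.89/q)² ≥ (q/2) 3.57/q² ≥ 1.78/q`.
-/

set_option autoImplicit false

open Finset Filter

namespace Pool.Agent.LC

open Pool.Agent.LO Pool.Agent.LIN Pool.Agent.THR Pool.Agent.COR

variable {d q K : ℕ}

open scoped Classical in
/-- the triples -/
noncomputable def TT (d e : ℕ) : Finset ((∀ i : Fin d, Fin (nbk false (LS e (none : Option (Fin d)) i))) × Bt d × Bt d) :=
  univ.filter fun p => od p.2.1 p.2.2

/-- the site of a triple -/
def xT (e : ℕ) (t : Blk d K) (p : (∀ i : Fin d, Fin (nbk false (LS e (none : Option (Fin d)) i))) × Bt d × Bt d) : BxV d (NS e K) :=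
  plc (aS e t) (fun i => lm false (LS e (none : Option (Fin d)) i) (hS e))
    (Wpt (fun _ => false) (LS e none) (hS e) (fun i => (p.1 i).val) p.2.1 p.2.2)

open scoped Classical in
/-- number of the odd points of a pattern with the colour `c` -/
private noncomputable def E12_n {d q : ℕ} (g : Pat d q) (c : Fin q) : ℕ :=
  ((oS (none : Shp d)).filter fun p => g p.1 p.2 = c).card

open scoped Classical in
private theorem E12_frq {d q : ℕ} (hq : 0 < q) (g : Pat d q) (c : Fin q) (y : ℝ) (h : y ≤ frq false none c g) :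
    y / q * ((oS (none : Shp d)).card : ℝ) ≤ (E12_n g c : ℝ) := by
  have hq' : (0 : ℝ) < q := by exact_mod_cast hq
  have hs : (∑ p ∈ oS (none : Shp d), if g p.1 p.2 = c then (q : ℝ) else 0) = (E12_n g c : ℝ) * q := by
    unfold E12_n
    rw [← Finset.sum_filter, Finset.sum_const, nsmul_eq_mul]
  have hf : frq false none c g = (E12_n g c : ℝ) * q / ((oS (none : Shp d)).card : ℝ) := by
    unfold frq
    simp only [Bool.false_eq_true, if_false]
    rw [hs]
  rcases Nat.eq_zero_or_pos (oS (none : Shp d)).card with h0 | h0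
  · rw [h0]
    simp
  · have h0' : (0 : ℝ) < ((oS (none : Shp d)).card : ℝ) := by exact_mod_cast h0
    rw [hf, le_div_iff₀ h0'] at h
    rw [div_mul_eq_mul_div, div_le_iff₀ hq']
    exact h

open scoped Classical in
private theorem E12_TT (e : ℕ) (P : ((∀ i : Fin d, Fin (nbk false (LS e (none : Option (Fin d)) i))) × Bt d × Bt d) → Prop)
    [DecidablePred P] :
    ((TT d e).filter P).card = ∑ τ : ∀ i : Fin d, Fin (nbk false (LS e (none : Option (Fin d)) i)),
      ((oS (none : Shp d)).filter fun p => P (τ, p)).card := by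
  unfold TT
  rw [Finset.filter_filter, Finset.card_filter, Fintype.sum_prod_type]
  refine Finset.sum_congr rfl fun τ _ => ?_
  unfold oS
  rw [Finset.filter_filter, Finset.card_filter]
  refine Finset.sum_congr rfl fun p _ => ?_
  simp only [inS, and_true]

open scoped Classical in
private theorem E12_TTc (e : ℕ) :
    ((TT d e).card : ℝ) = (∏ i : Fin d, ((LS e (none : Option (Fin d)) i : ℝ) - 1)) * ((oS (none : Shp d)).card : ℝ) := by
  have h := E12_TT (d := d) e fun _ => True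
  rw [Finset.filter_true] at h
  rw [h]
  have h1 : ∀ τ : ∀ i : Fin d, Fin (nbk false (LS e (none : Option (Fin d)) i)),
      ((oS (none : Shp d)).filter fun _ => True).card = (oS (none : Shp d)).card := fun τ => by
    rw [Finset.filter_true]
  rw [Finset.sum_congr rfl fun τ _ => h1 τ, Finset.sum_const, Finset.card_univ, Fintype.card_pi]
  push_cast [nsmul_eq_mul]
  congr 1
  refine Finset.prod_congr rfl fun i _ => ?_
  rw [Fintype.card_fin]
  unfold nbk
  simp only [Bool.false_eq_true, if_false]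
  rw [Nat.cast_sub]
  · simp
  · unfold LS
    exact Nat.one_le_two_pow

open scoped Classical in
private theorem E12_low {e : ℕ} (hR : Rg d q) (hd : 1 ≤ d) (t : Blk d K) (f : BxV d (NS e K) → Fin q)
    (A : Finset (Fin q)) (h : NGd e A t f) (c : Fin q) (hc : c ∉ A) :
    (189 : ℝ) / 100 / q * ((TT d e).card : ℝ) ≤ (((TT d e).filter fun p => f (xT e t p) = c).card : ℝ) := by
  have hq : 0 < q := lt_of_lt_of_le (by norm_num) (Rg_pos hR hd)
  have hq' : (0 : ℝ) < q := by exact_mod_cast hq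
  have hm := (ms_ge hR hd).1
  set G : Finset (∀ i : Fin d, Fin (nbk false (LS e (none : Option (Fin d)) i))) :=
    univ.filter fun τ => GDP (Wpat (LS e none) (hS e) (fD e t none f) fun i => (τ i).val) ∧
        ALP (Wpat (LS e none) (hS e) (fD e t none f) fun i => (τ i).val) = A with hG
  set P : ℝ := ∏ i : Fin d, ((LS e (none : Option (Fin d)) i : ℝ) - 1) with hP
  have hNG : (19 : ℝ) / 20 * P ≤ (G.card : ℝ) := h
  set o : ℝ := ((oS (none : Shp d)).card : ℝ) with ho
  have ho0 : 0 ≤ o := Nat.cast_nonneg _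
  have h1 : ∀ τ ∈ G, (1997 : ℝ) / 1000 / q * o ≤
      (E12_n (Wpat (LS e none) (hS e) (fD e t none f) fun i => (τ i).val) c : ℝ) := by
    intro τ hτ
    rw [hG, Finset.mem_filter] at hτ
    obtain ⟨-, hg, hA⟩ := hτ
    refine E12_frq hq _ c _ ?_
    have h2 := (not_ALP _ hg.1 c (by rw [hA]; exact hc) none).1
    simp only [Bool.not_true] at h2
    rw [abs_le] at h2
    unfold et at h2
    linarith [h2.1]
  have h3 : (((TT d e).filter fun p => f (xT e t p) = c).card : ℝ) =
      ∑ τ : ∀ i : Fin d, Fin (nbk false (LS e (none : Option (Fin d)) i)),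
        (E12_n (Wpat (LS e none) (hS e) (fD e t none f) fun i => (τ i).val) c : ℝ) := by
    rw [E12_TT]
    push_cast
    rfl
  rw [h3, E12_TTc]
  calc (189 : ℝ) / 100 / q * (P * o) ≤ (19 / 20 * P) * ((1997 : ℝ) / 1000 / q * o) := by
        have hP0 : 0 ≤ P := Finset.prod_nonneg fun i _ => by
          have : (1 : ℝ) ≤ (LS e (none : Option (Fin d)) i : ℝ) := by
            have : 1 ≤ LS e (none : Option (Fin d)) i := Nat.one_le_two_pow
            exact_mod_cast this
          linarith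
        have h4 : (189 : ℝ) / 100 / q * (P * o) = (189 / 100) * (P * o / q) := by ring
        have h5 : (19 / 20 * P) * ((1997 : ℝ) / 1000 / q * o) = (19 / 20 * (1997 / 1000)) * (P * o / q) := by ring
        rw [h4, h5]
        have h6 : 0 ≤ P * o / q := by positivity
        nlinarith
    _ ≤ (G.card : ℝ) * ((1997 : ℝ) / 1000 / q * o) := mul_le_mul_of_nonneg_right hNG (by positivity)
    _ = ∑ τ ∈ G, (1997 : ℝ) / 1000 / q * o := by rw [Finset.sum_const, nsmul_eq_mul]
    _ ≤ ∑ τ ∈ G, (E12_n (Wpat (LS e none) (hS e) (fD e t none f) fun i => (τ i).val) c : ℝ) :=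
        Finset.sum_le_sum h1
    _ ≤ _ := Finset.sum_le_sum_of_subset_of_nonneg (Finset.subset_univ _) fun _ _ _ => Nat.cast_nonneg _

open scoped Classical in
private theorem E12_pairs {α : Type} (S : Finset α) (u v : α → Fin q) :
    (((S ×ˢ S).filter fun p => u p.1 = v p.2).card : ℝ) =
      ∑ c : Fin q, ((S.filter fun p => u p = c).card : ℝ) * ((S.filter fun p => v p = c).card : ℝ) := by
  have h : ((S ×ˢ S).filter fun p => u p.1 = v p.2).card =
      ∑ c : Fin q, (((S ×ˢ S).filter fun p => u p.1 = v p.2).filter fun p => u p.1 = c).card :=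
    Finset.card_eq_sum_card_fiberwise (fun _ _ => Finset.mem_coe.2 (Finset.mem_univ _))
  rw [h]
  push_cast
  refine Finset.sum_congr rfl fun c _ => ?_
  rw [← Nat.cast_mul, ← Finset.card_product]
  congr 2
  ext p
  simp only [Finset.mem_filter, Finset.mem_product]
  constructor
  · rintro ⟨⟨⟨h1, h2⟩, h3⟩, h4⟩
    exact ⟨⟨h1, h4⟩, h2, by rw [← h3]; exact h4⟩
  · rintro ⟨⟨h1, h2⟩, h3, h4⟩
    exact ⟨⟨⟨h1, h3⟩, by rw [h2, h4]⟩, h2⟩

open scoped Classical in
theorem equal_cols {e : ℕ} (he : 2 ≤ e) (hR : Rg d q) (hd : 1 ≤ d) (t t' : Blk d K) (f : BxV d (NS e K) → Fin q)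
    (A : Finset (Fin q)) (hA : A.card = q / 2) (h : NGd e A t f) (h' : NGd e A t' f) :
    (17 : ℝ) / 10 * ((TT d e).card : ℝ) ^ 2 ≤
      q * (((TT d e ×ˢ TT d e).filter fun p => f (xT e t p.1) = f (xT e t' p.2)).card : ℝ) := by
  have hq : 0 < q := lt_of_lt_of_le (by norm_num) (Rg_pos hR hd)
  have hq' : (0 : ℝ) < q := by exact_mod_cast hq
  rw [E12_pairs (TT d e) (fun p => f (xT e t p)) (fun p => f (xT e t' p))]
  set N : ℝ := ((TT d e).card : ℝ) with hN
  have hN0 : 0 ≤ N := Nat.cast_nonneg _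
  have h1 : ∑ c ∈ univ.filter (fun c => c ∉ A), ((189 : ℝ) / 100 / q * N) * ((189 : ℝ) / 100 / q * N) ≤
      ∑ c : Fin q, (((TT d e).filter fun p => f (xT e t p) = c).card : ℝ) *
        (((TT d e).filter fun p => f (xT e t' p) = c).card : ℝ) := by
    refine le_trans (Finset.sum_le_sum fun c hc => ?_)
      (Finset.sum_le_sum_of_subset_of_nonneg (Finset.subset_univ _) fun _ _ _ => by positivity)
    rw [Finset.mem_filter] at hc
    exact mul_le_mul (E12_low hR hd t f A h c hc.2) (E12_low hR hd t' f A h' c hc.2) (by positivity) (by positivity)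
  have h2 : (q : ℝ) / 2 ≤ ((univ.filter (fun c => c ∉ A)).card : ℝ) := by
    have h3 : (univ.filter (fun c => c ∉ A)) = Aᶜ := by
      ext c
      simp
    rw [h3, Finset.card_compl, Fintype.card_fin, hA]
    have h4 : q ≤ 2 * (q - q / 2) := by omega
    have h5 : (q : ℝ) ≤ 2 * ((q - q / 2 : ℕ) : ℝ) := by exact_mod_cast h4
    linarith
  rw [Finset.sum_const, nsmul_eq_mul] at h1
  have h6 : (0 : ℝ) ≤ ((189 : ℝ) / 100 / q * N) * ((189 : ℝ) / 100 / q * N) := by positivity
  have h7 := (mul_le_mul_of_nonneg_right h2 h6).trans h1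
  have h8 : (q : ℝ) / 2 * (((189 : ℝ) / 100 / q * N) * ((189 : ℝ) / 100 / q * N)) = (35721 / 20000) * N ^ 2 / q := by
    field_simp
    ring
  rw [h8, div_le_iff₀ hq'] at h7
  nlinarith [sq_nonneg N]

end Pool.Agent.LC

end

/-! ### from `Lib_MP_2c424f_lc5.V03` -/

section

/-!
# Part V, V03: counting the colourings for which some small set separates

Union bound over `Del ∈ DD`, `swap_le`, `dl_le` with `D = Del.image (i false) ∪ Del.image (i true)`, `|D| ≤ 2 |Del| ≤ 2 s`.
-/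

set_option autoImplicit false

open Finset Filter

namespace Pool.Agent.LC

open Pool.Agent.LO Pool.Agent.LIN Pool.Agent.THR Pool.Agent.COR

open scoped Classical in
theorem V03_union {V : Type} [Fintype V] [DecidableEq V] {q : ℕ} (X : SimpleGraph V) {κ : Type} (DD : Finset κ)
    (P : κ → (V → Fin q) → Prop) (B : ℝ) (hB : ∀ k ∈ DD, cG X (P k) ≤ B) :
    cG X (fun F : V → Fin q => ∃ k ∈ DD, P k F) ≤ DD.card * B := by
  have h1 : cG X (fun F : V → Fin q => ∃ k ∈ DD, P k F) ≤ ∑ k ∈ DD, cG X (P k) := by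
    unfold cG
    rw [← Nat.cast_sum]
    refine Nat.cast_le.2 (le_trans (Finset.card_le_card fun F hF => ?_) Finset.card_biUnion_le)
    simp only [Finset.mem_filter, Finset.mem_univ, true_and] at hF
    obtain ⟨h2, k, hk, h3⟩ := hF
    refine Finset.mem_biUnion.2 ⟨k, hk, ?_⟩
    simp only [Finset.mem_filter, Finset.mem_univ, true_and]
    exact ⟨h2, h3⟩
  refine h1.trans ((Finset.sum_le_sum hB).trans (le_of_eq ?_))
  rw [Finset.sum_const, nsmul_eq_mul]

open scoped Classical in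
theorem sep_count {V Λ : Type} [Fintype V] [DecidableEq V] [Fintype Λ] [DecidableEq Λ] {d q h : ℕ} (hq : 2 ≤ q)
    {X X' : SimpleGraph V} {ev : V → Prop} {G : SimpleGraph Λ} {lv : Λ → ℕ} {i : Bool → Λ → V}
    (hP : Par X' ev) (hdeg : ∀ v, (nb X' v).card ≤ 4 * d) (hL : Layer h X X' ev G lv i) (hh : 2 ≤ h)
    (DD : Finset (Finset Λ)) (s : ℝ) (hs : ∀ D ∈ DD, (D.card : ℝ) ≤ s) :
    cG X (fun F : V → Fin q => ∃ D ∈ DD, sp G lv h (fb i F false) (fb i F true) D) ≤
      DD.card * Real.exp (16 * d * s / q) * cG X' (fun _ : V → Fin q => True) := by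
  rw [mul_assoc]
  refine V03_union X DD _ _ fun D hD => ?_
  refine (swap_le hL hh D).trans ((dl_le hq hP hdeg _).trans ?_)
  refine mul_le_mul_of_nonneg_right (Real.exp_le_exp.2 ?_) (by unfold cG; positivity)
  have h1 : (D.image (i false) ∪ D.image (i true)).card ≤ 2 * D.card := by
    refine (Finset.card_union_le _ _).trans ?_
    have h2 := Finset.card_image_le (s := D) (f := i false)
    have h3 := Finset.card_image_le (s := D) (f := i true)
    omega
  have h4 : ((D.image (i false) ∪ D.image (i true)).card : ℝ) ≤ 2 * s := by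
    calc _ ≤ ((2 * D.card : ℕ) : ℝ) := Nat.cast_le.2 h1
      _ = 2 * (D.card : ℝ) := by push_cast; ring
      _ ≤ 2 * s := by linarith [hs D hD]
  have hq0 : (0 : ℝ) ≤ q := Nat.cast_nonneg _
  refine div_le_div_of_nonneg_right ?_ hq0
  calc 8 * (d : ℝ) * ((D.image (i false) ∪ D.image (i true)).card : ℝ) ≤ 8 * d * (2 * s) :=
        mul_le_mul_of_nonneg_left h4 (by positivity)
    _ = 16 * d * s := by ring

end Pool.Agent.LC

end

/-! ### from `Lib_MP_2c424f_lc1.T1` -/

section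

/-!
# LC1 T1: balls and locality

`nr r u v`: `v` is reached from `u` by at most `r` steps (induction over `r`).
`av f v`, `SS f v`, `zz f v c` depend on `f` at the sites within distance `1` of `v`; `hh`, `al`, `ya`, `zt`, `hc`, `gg (v+σ)` on the sites within
distance `2`; averages `PP^[t]` add `t`.
-/

set_option autoImplicit false

open Finset Filter

namespace Pool.Agent.LC

open Pool.Agent.LO Pool.Agent.LIN Pool.Agent.THR Pool.Agent.COR

variable {d k q : ℕ}

theorem nr_self (r : ℕ) (u : Site d k) : nr r u u := by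
  induction r with
  | zero => exact rfl
  | succ r ih => exact Or.inl ih

theorem nr_step (u : Site d k) (σ : Stp d) : nr 1 u (u + sv σ) :=
  Or.inr ⟨σ, rfl⟩

theorem nr_mono {r s : ℕ} (h : r ≤ s) {u v : Site d k} (hu : nr r u v) : nr s u v := by
  induction s, h using Nat.le_induction with
  | base => exact hu
  | succ s _ ih => exact Or.inl ih

theorem nr_trans {r s : ℕ} {u v w : Site d k} (h : nr r u v) (h' : nr s v w) : nr (r + s) u w := by
  induction r generalizing u with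
  | zero =>
    have h1 : u = v := h
    subst h1
    rw [Nat.zero_add]
    exact h'
  | succ r ih =>
    rcases h with h | ⟨σ, h⟩
    · exact nr_mono (by omega) (ih h)
    · have h2 : nr (r + s + 1) u w := Or.inr ⟨σ, ih h⟩
      have h3 : r + 1 + s = r + s + 1 := by omega
      rw [h3]
      exact h2

private theorem T1_neg (σ : Stp d) : (sv (σ.1, !σ.2) : Site d k) = -sv σ := by
  unfold sv
  rw [← Pi.single_neg]
  congr 1
  cases σ.2 <;> simp

theorem nr_symm {r : ℕ} {u v : Site d k} (h : nr r u v) : nr r v u := by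
  induction r generalizing u with
  | zero => exact (show u = v from h).symm
  | succ r ih =>
    rcases h with h | ⟨σ, h⟩
    · exact Or.inl (ih h)
    · have h1 : nr r v (u + sv σ) := ih h
      have h2 : nr 1 (u + sv σ) u := by
        have h3 := nr_step (u + sv σ) (σ.1, !σ.2)
        rw [T1_neg, add_neg_cancel_right] at h3
        exact h3
      exact nr_trans h1 h2

theorem nr_card (r : ℕ) (u : Site d k) : cn (nr r u) ≤ (2 * (d : ℝ) + 1) ^ r := by
  classical
  induction r generalizing u with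
  | zero =>
    have h1 : (univ.filter (nr 0 u)).card ≤ 1 := by
      rw [Finset.card_le_one]
      intro a ha b hb
      have h2 : u = a := (Finset.mem_filter.1 ha).2
      have h3 : u = b := (Finset.mem_filter.1 hb).2
      rw [← h2, ← h3]
    unfold cn
    rw [pow_zero]
    refine le_trans (le_of_eq ?_) (Nat.cast_le.2 h1 |>.trans (le_of_eq Nat.cast_one))
    congr 2
  | succ r ih =>
    have hsub : (univ.filter (nr (r + 1) u)) ⊆ (univ.filter (nr r u)) ∪
        (univ : Finset (Stp d)).biUnion (fun σ => univ.filter (nr r (u + sv σ))) := by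
      intro v hv
      rw [Finset.mem_union, Finset.mem_biUnion]
      rcases (Finset.mem_filter.1 hv).2 with h | ⟨σ, h⟩
      · exact Or.inl (Finset.mem_filter.2 ⟨mem_univ _, h⟩)
      · exact Or.inr ⟨σ, mem_univ _, Finset.mem_filter.2 ⟨mem_univ _, h⟩⟩
    have h1 : ((univ.filter (nr (r + 1) u)).card : ℝ) ≤ ((univ.filter (nr r u)).card : ℝ) +
        ∑ σ : Stp d, ((univ.filter (nr r (u + sv σ))).card : ℝ) := by
      have h2 := (Finset.card_le_card hsub).trans ((Finset.card_union_le _ _).trans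
        (Nat.add_le_add_left Finset.card_biUnion_le _))
      exact_mod_cast h2
    have h3 : ∀ w : Site d k, ((univ.filter (nr r w)).card : ℝ) ≤ (2 * (d : ℝ) + 1) ^ r := by
      intro w
      refine le_trans (le_of_eq ?_) (ih w)
      unfold cn
      congr 2
    have h4 : ∑ σ : Stp d, ((univ.filter (nr r (u + sv σ))).card : ℝ) ≤
        2 * (d : ℝ) * (2 * (d : ℝ) + 1) ^ r := by
      refine le_trans (Finset.sum_le_sum fun σ _ => h3 (u + sv σ)) (le_of_eq ?_)
      rw [Finset.sum_const, nsmul_eq_mul, Finset.card_univ, Fintype.card_prod, Fintype.card_fin, Fintype.card_bool]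
      push_cast
      ring
    have h5 : cn (nr (r + 1) u) = ((univ.filter (nr (r + 1) u)).card : ℝ) := by
      unfold cn
      congr 2
    rw [h5, pow_succ]
    linarith [h1, h3 u, h4]

theorem loc_av {f g : Site d k → Fin q} {v : Site d k} (h : ∀ u, nr 1 v u → f u = g u) :
    SS f v = SS g v ∧ av f v = av g v ∧ ∀ c, zz f v c = zz g v c := by
  have h1 : SS f v = SS g v := by
    unfold SS
    congr 1
    funext σ
    exact h _ (nr_step v σ)
  refine ⟨h1, ?_, fun c => ?_⟩
  · unfold av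
    rw [h1]
  · unfold zz
    rw [h1]

theorem loc_hh {f g : Site d k → Fin q} {v : Site d k} (h : ∀ u, nr 2 v u → f u = g u) (c : Fin q) :
    hh c f v = hh c g v ∧ al f v = al g v ∧ ya c f v = ya c g v ∧ zt f v c = zt g v c ∧ hc c f v = hc c g v := by
  have h0 : ∀ σ : Stp d, ∀ u, nr 1 (v + sv σ) u → f u = g u := fun σ u hu => h u (Or.inr ⟨σ, hu⟩)
  have h1 : ∀ c, hh c f v = hh c g v := by
    intro c
    unfold THR.hh
    refine Finset.sum_congr rfl fun σ _ => ?_
    rw [(loc_av (h0 σ)).2.2 c, (loc_av (h0 σ)).2.1]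
  have h2 : al f v = al g v := by
    unfold al
    rw [Finset.sum_congr rfl fun c _ => by rw [h1 c]]
  refine ⟨h1 c, h2, ?_, ?_, ?_⟩
  · unfold ya
    rw [h1 c, h2]
  · unfold zt
    refine Finset.prod_congr rfl fun σ _ => ?_
    rw [(loc_av (h0 σ)).2.2 c, (loc_av (h0 σ)).2.1]
  · unfold hc
    refine Finset.sum_congr rfl fun σ _ => ?_
    have h3 : zc f (v + sv σ) v c = zc g (v + sv σ) v c := by
      unfold zc
      have h4 : ∀ τ : Stp d, f (v + sv σ + sv τ) = g (v + sv σ + sv τ) := fun τ =>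
        h0 σ _ (nr_step _ τ)
      simp only [h4]
    rw [h3, (loc_av (h0 σ)).2.1]

theorem loc_PPt (t : ℕ) {φ ψ : Site d k → ℝ} {v : Site d k} (h : ∀ u, nr t v u → φ u = ψ u) :
    PP^[t] φ v = PP^[t] ψ v := by
  induction t generalizing v with
  | zero => exact h v rfl
  | succ t ih =>
    rw [Function.iterate_succ_apply', Function.iterate_succ_apply']
    unfold PP
    congr 1
    exact Finset.sum_congr rfl fun σ _ => ih fun u hu => h u (Or.inr ⟨σ, hu⟩)

end Pool.Agent.LC

end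

/-! ### from `Lib_MP_2c424f_lc1.T3` -/

section

/-!
# LC1 T3: local rarity

`v` runs through the class `b`; one resamples the class `rcl o b` (`b` if `o`, `!b` otherwise).
`R` is a property which does not change under this resampling and fails rarely; on `R` the conditional probability of `B` is at most `d^(-K)`,
every `K`; `B`, `R` depend on the colours within distance `r`.  Then `B` is rare.

Proof.  `Ψ_b f := #{v ∈ cls b : B f v ∧ R f v}`.  Changing `f` at one site `u` affects only the `v` with `nr r v u` (`nr_symm`, `nr_card`): `Lip (rcl o b) (d^κ)` with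
`(2d+1)^r ≤ d^κ`, `κ = 2r` (`d ≥ 3`).  `WOPi_tail` (index `b`, level `K+2`): `Ψ_b f ≤ fm (rcl o b) Ψ_b f + N/d^(K+2)`; `fm (rcl o b) Ψ_b f = ∑_{v ∈ cls b} fm (rcl o b) 1[B ∧ R] f
≤ N/d^(K+2)`: for `v` with `R f v` by `hp`; otherwise all `h` in the fibre have `¬ R h v` and the mean is `0`.  Sum over `b`, plus `#{¬ R}`.
-/

set_option autoImplicit false

open Finset Filter

namespace Pool.Agent.LC

open Pool.Agent.LO Pool.Agent.LIN Pool.Agent.THR Pool.Agent.COR

/-- the resampled class -/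
def rcl (o b : Bool) : Bool := if o then b else !b

/-- number of the bad sites of the class `b` -/
private noncomputable def T3_Psi {d k q : ℕ} (B R : (Site d k → Fin q) → Site d k → Prop) (b : Bool)
    (f : Site d k → Fin q) : ℝ := ∑ v ∈ cls b d k, ind (B f v ∧ R f v)

private theorem T3_ind_nonneg (P : Prop) : 0 ≤ ind P := by
  unfold ind
  split_ifs <;> norm_num

private theorem T3_ind_le_one (P : Prop) : ind P ≤ 1 := by
  unfold ind
  split_ifs <;> norm_num

private theorem T3_ind_mono {P Q : Prop} (h : P → Q) : ind P ≤ ind Q := by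
  unfold ind
  split_ifs with h1 h2
  · exact le_refl _
  · exact absurd (h h1) h2
  · norm_num
  · exact le_refl _

private theorem T3_ind_false {P : Prop} (h : ¬ P) : ind P = 0 := by
  unfold ind
  rw [if_neg h]

private theorem T3_ind_true {P : Prop} (h : P) : ind P = 1 := by
  unfold ind
  rw [if_pos h]

private theorem T3_ind_congr {P Q : Prop} (h : P ↔ Q) : ind P = ind Q := by
  rw [propext h]

private theorem T3_cn {α : Type} [Fintype α] (P : α → Prop) : cn P = ∑ v, ind (P v) := by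
  classical
  unfold cn ind
  rw [Finset.sum_ite]
  simp

private theorem T3_lip {d k q r : ℕ} (hd : 3 ≤ d) (B R : (Site d k → Fin q) → Site d k → Prop)
    (lR : ∀ (f g : Site d k → Fin q) (v : Site d k), (∀ u, nr r v u → f u = g u) → (R f v ↔ R g v))
    (lB : ∀ (f g : Site d k → Fin q) (v : Site d k), (∀ u, nr r v u → f u = g u) → (B f v ↔ B g v))
    (b b' : Bool) : Lip b' ((d : ℝ) ^ (2 * r)) (T3_Psi B R b) := by
  intro f _ h _ v _ γ _
  unfold T3_Psi
  rw [← Finset.sum_sub_distrib]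
  have h1 : ∀ w : Site d k, |ind (B (Function.update h v γ) w ∧ R (Function.update h v γ) w) - ind (B h w ∧ R h w)| ≤
      ind (nr r v w) := by
    intro w
    by_cases hw : nr r v w
    · rw [T3_ind_true hw, abs_le]
      have a1 := T3_ind_nonneg (B (Function.update h v γ) w ∧ R (Function.update h v γ) w)
      have a2 := T3_ind_le_one (B (Function.update h v γ) w ∧ R (Function.update h v γ) w)
      have a3 := T3_ind_nonneg (B h w ∧ R h w)
      have a4 := T3_ind_le_one (B h w ∧ R h w)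
      constructor <;> linarith
    · have h2 : ∀ u, nr r w u → Function.update h v γ u = h u := by
        intro u hu
        have h3 : u ≠ v := by
          rintro rfl
          exact hw (nr_symm hu)
        exact Function.update_of_ne h3 _ _
      rw [T3_ind_congr (and_congr (lB _ _ w h2) (lR _ _ w h2)), sub_self, abs_zero]
      exact T3_ind_nonneg _
  calc |∑ w ∈ cls b d k, (ind (B (Function.update h v γ) w ∧ R (Function.update h v γ) w) - ind (B h w ∧ R h w))|
      ≤ ∑ w ∈ cls b d k, |ind (B (Function.update h v γ) w ∧ R (Function.update h v γ) w) - ind (B h w ∧ R h w)| :=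
        Finset.abs_sum_le_sum_abs _ _
    _ ≤ ∑ w ∈ cls b d k, ind (nr r v w) := Finset.sum_le_sum fun w _ => h1 w
    _ ≤ ∑ w, ind (nr r v w) :=
        Finset.sum_le_sum_of_subset_of_nonneg (Finset.subset_univ _) fun w _ _ => T3_ind_nonneg _
    _ = cn (nr r v) := (T3_cn _).symm
    _ ≤ (2 * (d : ℝ) + 1) ^ r := nr_card r v
    _ ≤ ((d : ℝ) ^ 2) ^ r := by
        have hd' : (3 : ℝ) ≤ d := by exact_mod_cast hd
        have h4 : 2 * (d : ℝ) + 1 ≤ (d : ℝ) ^ 2 := by nlinarith
        exact pow_le_pow_left₀ (by positivity) h4 r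
    _ = (d : ℝ) ^ (2 * r) := by rw [← pow_mul]

private theorem T3_fm {d k q : ℕ} (B R : (Site d k → Fin q) → Site d k → Prop) (b b' : Bool)
    (f : Site d k → Fin q) (x : ℝ) (hx : 0 ≤ x)
    (hm : ∀ v ∈ cls b d k, ∀ h ∈ fib b' f, (R h v ↔ R f v))
    (hp : ∀ v ∈ cls b d k, R f v → fm b' (fun h => ind (B h v)) f ≤ x) :
    fm b' (T3_Psi B R b) f ≤ ((cls b d k).card : ℝ) * x := by
  have h1 : fm b' (T3_Psi B R b) f = ∑ v ∈ cls b d k, fm b' (fun h => ind (B h v ∧ R h v)) f := by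
    unfold fm T3_Psi
    rw [Finset.sum_comm, Finset.sum_div]
  rw [h1, ← nsmul_eq_mul]
  refine Finset.sum_le_card_nsmul _ _ _ fun v hv => ?_
  by_cases hv' : R f v
  · refine le_trans ?_ (hp v hv hv')
    unfold fm
    refine div_le_div_of_nonneg_right ?_ (Nat.cast_nonneg _)
    exact Finset.sum_le_sum fun h _ => T3_ind_mono fun h => h.1
  · unfold fm
    rw [Finset.sum_eq_zero, zero_div]
    · exact hx
    · intro h hh
      exact T3_ind_false fun h2 => hv' ((hm v hv h hh).1 h2.2)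

private theorem T3_cls (d k : ℕ) (φ : Site d k → ℝ) :
    ∑ v, φ v = ∑ v ∈ cls true d k, φ v + ∑ v ∈ cls false d k, φ v := by
  classical
  have h1 := Finset.sum_filter_add_sum_filter_not (univ : Finset (Site d k)) (fun x => evn x) φ
  rw [← h1]
  rfl

private theorem T3_card (b : Bool) (d k : ℕ) : ((cls b d k).card : ℝ) ≤ NN d k := by
  have h1 : (cls b d k).card ≤ Fintype.card (Site d k) := Finset.card_le_univ _
  have h2 : Fintype.card (Site d k) = (2 ^ k) ^ d := by
    rw [Fintype.card_fun, ZMod.card, Fintype.card_fin]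
  rw [h2] at h1
  unfold NN
  exact_mod_cast h1

theorem SR_local (o : Bool) (r : ℕ) (R B : ∀ d k q : ℕ, (Site d k → Fin q) → Site d k → Prop)
    (hR : SR fun d k q f v => ¬ R d k q f v)
    (lR : ∀ (d k q : ℕ) (f g : Site d k → Fin q) (v : Site d k), (∀ u, nr r v u → f u = g u) → (R d k q f v ↔ R d k q g v))
    (lB : ∀ (d k q : ℕ) (f g : Site d k → Fin q) (v : Site d k), (∀ u, nr r v u → f u = g u) → (B d k q f v ↔ B d k q g v))
    (hm : EvT e3 fun d k q => Rg d q → ∀ f ∈ prps d k q, ∀ b, ∀ v ∈ cls b d k, ∀ h ∈ fib (rcl o b) f, (R d k q h v ↔ R d k q f v))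
    (hp : ∀ K : ℕ, EvT e3 fun d k q => Rg d q → ∀ f ∈ prps d k q, ∀ b, ∀ v ∈ cls b d k, R d k q f v →
      fm (rcl o b) (fun h => ind (B d k q h v)) f ≤ 1 / (d : ℝ) ^ K) : SR B := by
  intro K
  have he : (0 : ℝ) < e3 := by unfold e3; norm_num
  have he1 : e3 ≤ 1 := by unfold e3; norm_num
  have hL : EvT e3 fun d k q => ∀ i : Bool, Rg d q → Lip (rcl o i) ((d : ℝ) ^ (2 * r))
      (T3_Psi (B d k q) (R d k q) i) := by
    refine (EvT_d (eventually_ge_atTop 3)).mono fun d k q hd i _ => ?_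
    exact T3_lip hd (B d k q) (R d k q) (lR d k q) (lB d k q) i (rcl o i)
  have hT := WOPi_tail he he1 (fun _ _ _ => Bool) (fun _ _ _ i => rcl o i) (fun d _ q _ => Rg d q)
    (fun d k q i => T3_Psi (B d k q) (R d k q) i) (2 * r) (K + 2) hL
  have hT2 := WOPi.all hT (fun _ _ => 2) (fun _ _ _ => by simp)
  refine (hT2.and (hR (K + 1))).mono ?_
  refine ((hm.and (hp (K + 2))).and (EvT_d (eventually_ge_atTop 3))).mono ?_
  rintro d k q ⟨⟨h1, h2⟩, hd⟩ f hf ⟨h3, h4⟩ hRg
  have h1' := h1 hRg f hf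
  have h2' := h2 hRg f hf
  have h4' := h4 hRg
  have hd' : (3 : ℝ) ≤ d := by exact_mod_cast hd
  have hd0 : (0 : ℝ) < d := by linarith
  have hN : 0 ≤ NN d k := by unfold NN; positivity
  have hb : ∀ b : Bool, T3_Psi (B d k q) (R d k q) b f ≤ 2 * (NN d k / (d : ℝ) ^ (K + 2)) := by
    intro b
    have h5 := h3 b hRg
    have h6 := T3_fm (B d k q) (R d k q) b (rcl o b) f (1 / (d : ℝ) ^ (K + 2)) (by positivity) (h1' b) (h2' b)
    have h7 : ((cls b d k).card : ℝ) * (1 / (d : ℝ) ^ (K + 2)) ≤ NN d k / (d : ℝ) ^ (K + 2) := by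
      rw [mul_one_div]
      exact div_le_div_of_nonneg_right (T3_card b d k) (by positivity)
    linarith
  have h8 : cn (B d k q f) ≤ T3_Psi (B d k q) (R d k q) true f + T3_Psi (B d k q) (R d k q) false f +
      cn (fun v => ¬ R d k q f v) := by
    rw [T3_cn, T3_cn]
    unfold T3_Psi
    rw [← T3_cls, ← Finset.sum_add_distrib]
    refine Finset.sum_le_sum fun v _ => ?_
    by_cases hv : R d k q f v
    · have h9 : ind (B d k q f v) ≤ ind (B d k q f v ∧ R d k q f v) := T3_ind_mono fun h => ⟨h, hv⟩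
      have h10 := T3_ind_nonneg (¬ R d k q f v)
      linarith
    · have h9 := T3_ind_nonneg (B d k q f v ∧ R d k q f v)
      have h10 := T3_ind_le_one (B d k q f v)
      rw [T3_ind_true (P := ¬ R d k q f v) hv]
      linarith
  have h11 : 4 * (NN d k / (d : ℝ) ^ (K + 2)) + NN d k / (d : ℝ) ^ (K + 1) ≤ NN d k / (d : ℝ) ^ K := by
    have h12 : 4 * (NN d k / (d : ℝ) ^ (K + 2)) + NN d k / (d : ℝ) ^ (K + 1) =
        NN d k / (d : ℝ) ^ K * (4 / (d : ℝ) ^ 2 + 1 / d) := by
      field_simp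
      ring
    rw [h12]
    have h13 : 4 / (d : ℝ) ^ 2 + 1 / d ≤ 1 := by
      rw [div_add_div _ _ (by positivity) (by positivity), div_le_one (by positivity)]
      nlinarith
    have h14 : 0 ≤ NN d k / (d : ℝ) ^ K := by positivity
    nlinarith
  have h15 := hb true
  have h16 := hb false
  have h17 : cn (fun v => ¬ R d k q f v) ≤ NN d k / (d : ℝ) ^ (K + 1) := h4'
  linarith

end Pool.Agent.LC

end

/-! ### from `Lib_MP_2c424f_lc1.B5` -/

section

/-!
# LC1 B5: averages of the colour and of its conditional probability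

`SR_local` with `o = true` (resample the class `b` of `v`; `t` even, so `PP^[t]` at `v` averages over the class `b`, `Kt_cls`), `R = True`, radius `t + 2`.  `gg c f y` for `y` in the class `b`
depends on the other class only, it is the conditional mean of `bq c f y` (`fm_ind`).  `fm_mcd` with the influences `q Kt t v y`, `∑ (q Kt)² ≤ q² sup Kt =: S` (`Kt_one`, `Kt_sup` with `2s = t`,
`s ≥ 10`: `sup Kt ≤ (8s)^(2s)/(2d)^10`), so `S ≤ C d^(-8)` and `2 exp (-δ²/(4S)) ≤ 1/(q d^K)`; union over `c`.  `2^k > t` for `k` large.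
-/

set_option autoImplicit false

open Finset Filter

namespace Pool.Agent.LC

open Pool.Agent.LO Pool.Agent.LIN Pool.Agent.THR Pool.Agent.COR

private theorem B5_ind_nonneg (P : Prop) : 0 ≤ ind P := by
  unfold ind
  split_ifs <;> norm_num

private theorem B5_ind_mono {P Q : Prop} (h : P → Q) : ind P ≤ ind Q := by
  unfold ind
  by_cases hp : P
  · rw [if_pos hp, if_pos (h hp)]
  · rw [if_neg hp]
    split_ifs <;> norm_num

private theorem B5_ind_ex {ι : Type} [Fintype ι] {P : Prop} {Q : ι → Prop} (h : P → ∃ i, Q i) :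
    ind P ≤ ∑ i, ind (Q i) := by
  by_cases hp : P
  · obtain ⟨i, hi⟩ := h hp
    have h1 : ind (Q i) ≤ ∑ i, ind (Q i) :=
      Finset.single_le_sum (f := fun i => ind (Q i)) (fun i _ => B5_ind_nonneg _) (Finset.mem_univ i)
    refine le_trans ?_ h1
    unfold ind
    rw [if_pos hp, if_pos hi]
  · have h0 : ind P = 0 := by
      unfold ind
      rw [if_neg hp]
    rw [h0]
    exact Finset.sum_nonneg fun i _ => B5_ind_nonneg _

private theorem B5_loc {d k q : ℕ} (t : ℕ) (c : Fin q) {f g : Site d k → Fin q} {v : Site d k}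
    (h : ∀ u, nr (t + 2) v u → f u = g u) :
    PP^[t] (bq c f) v = PP^[t] (bq c g) v ∧ PP^[t] (gg c f) v = PP^[t] (gg c g) v := by
  constructor
  · refine loc_PPt t fun u hu => ?_
    unfold bq
    rw [h u (nr_mono (by omega) hu)]
  · refine loc_PPt t fun u hu => ?_
    have hl : ∀ w, nr 1 u w → f w = g w := fun w hw => h w (nr_mono (by omega) (nr_trans hu hw))
    obtain ⟨_, h2, h3⟩ := loc_av hl
    unfold THR.gg
    rw [h2, h3 c]

/-- the fibre mean -/
private theorem B5_mean {d k q : ℕ} (hk : 1 ≤ k) (t : ℕ) (ht : Even t) (b : Bool) {f : Site d k → Fin q} (hf : Prp f)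
    (v : Site d k) (hv : v ∈ cls b d k) (c : Fin q) (h : Site d k → Fin q) (hh : h ∈ fib b f) :
    fm b (fun h => PP^[t] (bq c h) v) f = PP^[t] (gg c h) v := by
  have h1 : (fun h : Site d k → Fin q => PP^[t] (bq c h) v) = fun h => ∑ y, Kt t v y * bq c h y := by
    funext h
    exact Kt_repr t _ v
  rw [h1, fm_sum b f (Finset.univ) (fun y h => Kt t v y * bq c h y), Kt_repr t (gg c h) v]
  refine Finset.sum_congr rfl fun y _ => ?_
  by_cases hy : y ∈ cls b d k
  · rw [fm_mul b f (Kt t v y) (fun h => bq c h y)]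
    congr 1
    have h2 : (fun h : Site d k → Fin q => bq c h y) = fun h => (q : ℝ) * (if h y = c then (1 : ℝ) else 0) := by
      funext h
      unfold bq
      split_ifs
      · rw [mul_one]
      · rw [mul_zero]
    rw [h2, fm_mul b f (q : ℝ) (fun h => if h y = c then (1 : ℝ) else 0)]
    have h3 := fm_ind hk b hf y hy c
    have h4 : fm b (fun h => if h y = c then (1 : ℝ) else 0) f = zz f y c / (av f y : ℝ) := by
      rw [← h3]
    rw [h4]
    unfold THR.gg
    have hS := fib_SS hk b hh y hy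
    have e1 : zz h y c = zz f y c := by
      unfold zz
      rw [hS]
    have e2 : av h y = av f y := by
      unfold av
      rw [hS]
    rw [e1, e2]
    ring
  · have hy' : y ∈ cls (!b) d k := (cls_not b y).2 hy
    rw [fm_mul b f (Kt t v y) (fun h => bq c h y), Kt_cls hk t ht b v y hv hy']
    ring

private theorem B5_inf {d k q : ℕ} (t : ℕ) (c : Fin q) (v y : Site d k) (h : Site d k → Fin q) (γ : Fin q) :
    |PP^[t] (bq c (Function.update h y γ)) v - PP^[t] (bq c h) v| ≤ q * Kt t v y := by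
  classical
  rw [Kt_repr t (bq c (Function.update h y γ)) v, Kt_repr t (bq c h) v, ← Finset.sum_sub_distrib]
  have hK := Kt_nonneg t v y
  rw [Finset.sum_eq_single y]
  · rw [← mul_sub, abs_mul, abs_of_nonneg hK, mul_comm (q : ℝ)]
    refine mul_le_mul_of_nonneg_left ?_ hK
    have hq : (0 : ℝ) ≤ q := Nat.cast_nonneg q
    unfold bq
    split_ifs <;> simp
  · intro z _ hz
    have : bq c (Function.update h y γ) z = bq c h z := by
      unfold bq
      rw [Function.update_of_ne hz]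
    rw [this, sub_self]
  · intro h
    exact absurd (Finset.mem_univ _) h

private theorem B5_evd (K : ℕ) (κ : ℝ) (hκ : 0 < κ) : ∀ᶠ d : ℕ in atTop,
    2 * d * (2 * Real.exp (-(κ * (2 * (d : ℝ)) ^ 8))) ≤ 1 / (d : ℝ) ^ K := by
  have h1 : Tendsto (fun d : ℕ => (d : ℝ) ^ (K + 1) * Real.exp (-κ * d)) atTop (nhds 0) := by
    have h := (isLittleO_pow_exp_pos_mul_atTop (k := K + 1) hκ).tendsto_div_nhds_zero
    have h' := h.comp tendsto_natCast_atTop_atTop
    refine h'.congr fun d => ?_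
    show (d : ℝ) ^ (K + 1) / Real.exp (κ * d) = _
    rw [neg_mul, Real.exp_neg, div_eq_mul_inv]
  have h2 : ∀ᶠ d : ℕ in atTop, (d : ℝ) ^ (K + 1) * Real.exp (-κ * d) < 1 / 4 :=
    h1.eventually (gt_mem_nhds (by norm_num))
  filter_upwards [h2, eventually_ge_atTop 1] with d hd hd1
  have hd1R : (1 : ℝ) ≤ d := by exact_mod_cast hd1
  have hd0 : (0 : ℝ) < d := by linarith
  have h3 : (d : ℝ) ≤ (2 * (d : ℝ)) ^ 8 := by
    calc (d : ℝ) ≤ 2 * d := by linarith
      _ ≤ (2 * (d : ℝ)) ^ 8 := le_self_pow₀ (by linarith) (by norm_num)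
  have h4 : Real.exp (-(κ * (2 * (d : ℝ)) ^ 8)) ≤ Real.exp (-κ * d) := by
    refine Real.exp_le_exp.2 ?_
    rw [neg_mul]
    exact neg_le_neg (mul_le_mul_of_nonneg_left h3 hκ.le)
  rw [le_div_iff₀ (by positivity)]
  calc 2 * d * (2 * Real.exp (-(κ * (2 * (d : ℝ)) ^ 8))) * (d : ℝ) ^ K
      ≤ 2 * d * (2 * Real.exp (-κ * d)) * (d : ℝ) ^ K := by gcongr
    _ = 4 * ((d : ℝ) ^ (K + 1) * Real.exp (-κ * d)) := by ring
    _ ≤ 1 := by linarith

/-- the conditional probability -/
private theorem B5_prob {d k q : ℕ} (hd : 1 ≤ d) (hk : 2 ≤ k) (s : ℕ) (hs : 10 ≤ s) (hks : 2 * s < 2 ^ k) (δ : ℝ) (hδ : 0 < δ)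
    (hq : 0 < q) (hq2 : (q : ℝ) ≤ 2 * d) (hqδ : δ ≤ q) (b : Bool) {f : Site d k → Fin q} (hf : Prp f)
    (v : Site d k) (hv : v ∈ cls b d k) :
    fm b (fun h => ind (∃ c : Fin q, δ < |PP^[2 * s] (bq c h) v - PP^[2 * s] (gg c h) v|)) f ≤
      2 * d * (2 * Real.exp (-(δ ^ 2 / (4 * (8 * (s : ℝ)) ^ (2 * s)) * (2 * (d : ℝ)) ^ 8))) := by
  have hqR : (0 : ℝ) < q := by exact_mod_cast hq
  have hd1 : (1 : ℝ) ≤ d := by exact_mod_cast hd
  have hd0 : (0 : ℝ) < d := by linarith
  have hs0 : (0 : ℝ) < s := by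
    have : 0 < s := by omega
    exact_mod_cast this
  set κ : ℝ := (8 * (s : ℝ)) ^ (2 * s) / (2 * (d : ℝ)) ^ s with hκ
  have hκ0 : 0 < κ := by positivity
  have hKs : ∀ u y : Site d k, Kt (2 * s) u y ≤ κ := fun u y => Kt_sup hd s hks u y
  have hone : ∀ c : Fin q, fm b (fun h => ind (δ ≤ |PP^[2 * s] (bq c h) v - fm b (fun h => PP^[2 * s] (bq c h) v) f|)) f ≤
      2 * Real.exp (-(δ ^ 2 / (4 * (q ^ 2 * κ)))) := by
    intro c
    refine fm_mcd hk b hf (fun h => PP^[2 * s] (bq c h) v) (fun y => q * Kt (2 * s) v y)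
      (fun y => mul_nonneg hqR.le (Kt_nonneg _ _ _)) (fun h _ y _ γ _ => B5_inf (2 * s) c v y h γ) (q ^ 2 * κ) δ ?_ (by positivity) hδ.le ?_
    · calc ∑ y ∈ cls b d k, (q * Kt (2 * s) v y) ^ 2 ≤ ∑ y ∈ cls b d k, q ^ 2 * κ * Kt (2 * s) v y := by
            refine Finset.sum_le_sum fun y _ => ?_
            have h1 := hKs v y
            have h2 := Kt_nonneg (2 * s) v y
            calc (q * Kt (2 * s) v y) ^ 2 = q ^ 2 * Kt (2 * s) v y * Kt (2 * s) v y := by ring
              _ ≤ q ^ 2 * κ * Kt (2 * s) v y := by gcongr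
        _ ≤ ∑ y, q ^ 2 * κ * Kt (2 * s) v y := by
            refine Finset.sum_le_sum_of_subset_of_nonneg (Finset.subset_univ _) fun y _ _ => ?_
            have h2 := Kt_nonneg (2 * s) v y
            positivity
        _ = q ^ 2 * κ := by rw [← Finset.mul_sum, Kt_one hd, mul_one]
    · intro y _
      have h1 := hKs v y
      have h2 := Kt_nonneg (2 * s) v y
      calc δ * (q * Kt (2 * s) v y) ≤ q * (q * κ) := by gcongr
        _ ≤ 2 * (q ^ 2 * κ) := by nlinarith [mul_pos (pow_pos hqR 2) hκ0]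
  have hexp : Real.exp (-(δ ^ 2 / (4 * (q ^ 2 * κ)))) ≤
      Real.exp (-(δ ^ 2 / (4 * (8 * (s : ℝ)) ^ (2 * s)) * (2 * (d : ℝ)) ^ 8)) := by
    refine Real.exp_le_exp.2 (neg_le_neg ?_)
    have hC : (0 : ℝ) < (8 * (s : ℝ)) ^ (2 * s) := by positivity
    have h1 : q ^ 2 * κ ≤ (8 * (s : ℝ)) ^ (2 * s) / (2 * (d : ℝ)) ^ 8 := by
      have h2 : (2 * (d : ℝ)) ^ 10 ≤ (2 * (d : ℝ)) ^ s := pow_le_pow_right₀ (by linarith) hs
      rw [hκ]
      calc (q : ℝ) ^ 2 * ((8 * (s : ℝ)) ^ (2 * s) / (2 * (d : ℝ)) ^ s)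
          ≤ (2 * (d : ℝ)) ^ 2 * ((8 * (s : ℝ)) ^ (2 * s) / (2 * (d : ℝ)) ^ 10) := by gcongr
        _ = (8 * (s : ℝ)) ^ (2 * s) / (2 * (d : ℝ)) ^ 8 := by
            field_simp
    calc δ ^ 2 / (4 * (8 * (s : ℝ)) ^ (2 * s)) * (2 * (d : ℝ)) ^ 8
        = δ ^ 2 / (4 * ((8 * (s : ℝ)) ^ (2 * s) / (2 * (d : ℝ)) ^ 8)) := by field_simp
      _ ≤ δ ^ 2 / (4 * (q ^ 2 * κ)) := by gcongr
  calc fm b (fun h => ind (∃ c : Fin q, δ < |PP^[2 * s] (bq c h) v - PP^[2 * s] (gg c h) v|)) f
      ≤ fm b (fun h => ∑ c : Fin q, ind (δ ≤ |PP^[2 * s] (bq c h) v - fm b (fun h => PP^[2 * s] (bq c h) v) f|)) f := by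
        refine fm_mono b hf fun h hh => ?_
        refine B5_ind_ex ?_
        rintro ⟨c, hc⟩
        refine ⟨c, ?_⟩
        rw [B5_mean (by omega) (2 * s) (even_two_mul s) b hf v hv c h hh]
        exact hc.le
    _ = ∑ c : Fin q, fm b (fun h => ind (δ ≤ |PP^[2 * s] (bq c h) v - fm b (fun h => PP^[2 * s] (bq c h) v) f|)) f :=
        fm_sum b f Finset.univ _
    _ ≤ ∑ _c : Fin q, 2 * Real.exp (-(δ ^ 2 / (4 * (q ^ 2 * κ)))) := Finset.sum_le_sum fun c _ => hone c
    _ = q * (2 * Real.exp (-(δ ^ 2 / (4 * (q ^ 2 * κ))))) := by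
        rw [Finset.sum_const, nsmul_eq_mul, Finset.card_univ, Fintype.card_fin]
    _ ≤ 2 * d * (2 * Real.exp (-(δ ^ 2 / (4 * (8 * (s : ℝ)) ^ (2 * s)) * (2 * (d : ℝ)) ^ 8))) := by gcongr

theorem smooth_pt (t : ℕ) (ht : Even t) (ht' : 20 ≤ t) (δ : ℝ) (hδ : 0 < δ) : SR fun _ _ q f v =>
    ∃ c : Fin q, δ < |PP^[t] (bq c f) v - PP^[t] (gg c f) v| := by
  obtain ⟨s, hs⟩ := ht
  have hs2 : t = 2 * s := by omega
  clear hs
  subst hs2
  have hs10 : 10 ≤ s := by omega
  refine SR_local true (2 * s + 2) (fun _ _ _ _ _ => True) _ ?_ ?_ ?_ ?_ ?_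
  · intro K
    refine ⟨0, 0, fun d q _ _ _ => Eventually.of_forall fun k => ?_⟩
    unfold Rar
    refine le_trans (le_of_eq (?_ : _ = (0 : ℝ))) ?_
    · rw [Nat.cast_eq_zero, Finset.card_eq_zero]
      refine Finset.eq_empty_of_forall_notMem fun f hf => ?_
      have hn := ((@Finset.mem_filter _ _ (_) _ _).1 hf).2
      apply hn
      intro _
      have : cn (fun v : Site d k => ¬ True) = 0 := by
        unfold cn
        rw [Nat.cast_eq_zero, Finset.card_eq_zero]
        exact Finset.eq_empty_of_forall_notMem fun v hv => ((@Finset.mem_filter _ _ (_) _ _).1 hv).2 trivial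
      show cn (fun v : Site d k => ¬ True) ≤ _
      rw [this]
      have hNN : 0 ≤ NN d k := by
        unfold NN
        positivity
      positivity
    · have hZ : 0 ≤ ZZ d k q := by
        unfold ZZ
        positivity
      positivity
  · intro d k q f g v _
    exact Iff.rfl
  · intro d k q f g v h
    constructor
    · rintro ⟨c, hc⟩
      obtain ⟨h1, h2⟩ := B5_loc (2 * s) c h
      exact ⟨c, by rw [← h1, ← h2]; exact hc⟩
    · rintro ⟨c, hc⟩
      obtain ⟨h1, h2⟩ := B5_loc (2 * s) c h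
      exact ⟨c, by rw [h1, h2]; exact hc⟩
  · refine ⟨0, fun d q _ _ _ => Eventually.of_forall fun k => ?_⟩
    intro _ f _ b v _ h _
    exact Iff.rfl
  · intro K
    have hκ : 0 < δ ^ 2 / (4 * (8 * (s : ℝ)) ^ (2 * s)) := by
      have : (0 : ℝ) < s := by
        have : 0 < s := by omega
        exact_mod_cast this
      positivity
    refine ((((EvT_d (ε := e3) (B5_evd K _ hκ)).and (EvT_d (eventually_ge_atTop 1))).and
      (EvT_reg (ε := e3) (by unfold e3; norm_num) (by unfold e3; norm_num) (max 2 δ))).and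
      (EvT_pow (ε := e3) fun _ _ => ((2 * s + 1 : ℕ) : ℝ))).mono ?_
    rintro d k q ⟨⟨⟨h1, hd⟩, hreg⟩, hpw⟩ hRg f hf b v hv _
    have hk : 2 ≤ k := by
      have : (2 : ℝ) ≤ k := le_trans (le_max_left _ _) hreg.2.2.1
      exact_mod_cast this
    have hks : 2 * s < 2 ^ k := by
      have : ((2 * s + 1 : ℕ) : ℝ) ≤ ((2 ^ k : ℕ) : ℝ) := by
        push_cast
        push_cast at hpw
        exact hpw
      have := Nat.cast_le.1 this
      omega
    obtain ⟨hq, _, _, _, _, hqd', _, _, _⟩ := rg_pos hd hRg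
    have hd0 : (1 : ℝ) ≤ d := by exact_mod_cast hd
    have hq2 : (q : ℝ) ≤ 2 * d := by
      have he3 : e3 = 1 / 1000 := rfl
      rw [he3] at hqd'
      linarith
    have hfP : Prp f := by
      unfold prps at hf
      exact ((@Finset.mem_filter _ _ (_) _ _).1 hf).2
    exact (B5_prob hd hk s hs10 hks δ hδ hq hq2 (le_trans (le_max_right _ _) hreg.2.1) b hfP v hv).trans h1

end Pool.Agent.LC

end

/-! ### from `Lib_MP_2c424f_lc1.C1` -/

section

/-!
# LC1 C1: the number of available colours, the number of neighbours of one colour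

`SR_local` with `o = false` (`v ∈ cls b`, resample the class `!b` of the neighbours), `R f v := ∀ σ, THR.Rg e3 f (v+σ)` (`av f (v+σ)` depends on the class `b`: does not change, `reg_pt` and `SR.nb`).
* `av_pt`: `al f v` does not change (THR M1 `loc_fib`); `av f v = ∑_c zz f v c`, mean `∑_c zt f v c` (LIN), `|zt - e^{-hh}| ≤ a/(c1² q)` (`zt_exp`, `Nc`), so the mean of `av/q` is within `δ/2` of `al`;
  changing the colour of one neighbour changes `av f v` by at most `1`: `fm_mcd` with `S = 2d`, `θ = δq/2`: `2 exp (-δ²q²/(32 d)) ≤ d^(-K)`.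
* `nf_pt`: `nf c f v = ∑_σ 1[f (v+σ) = c]`, mean `hh c f v ≤ 2d/(c1 q)`; changes by at most `1`: `fm_mcd`, `θ = δd/2`, union over `c`.   (`k ≥ 2`: the neighbours are distinct.)
-/

set_option autoImplicit false

open Finset Filter

namespace Pool.Agent.LC

open Pool.Agent.LO Pool.Agent.LIN Pool.Agent.THR Pool.Agent.COR

private theorem C1_ind_mono {P Q : Prop} (h : P → Q) : ind P ≤ ind Q := by
  unfold ind
  by_cases hP : P
  · rw [if_pos hP, if_pos (h hP)]
  · rw [if_neg hP]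
    split_ifs <;> norm_num

private theorem C1_ind_ex {α : Type} [Fintype α] (P : α → Prop) : ind (∃ c, P c) ≤ ∑ c, ind (P c) := by
  have h0 : ∀ c, 0 ≤ ind (P c) := fun c => by
    unfold ind
    split_ifs <;> norm_num
  by_cases h : ∃ c, P c
  · obtain ⟨c, hc⟩ := h
    have h1 : ind (∃ c, P c) ≤ ind (P c) := C1_ind_mono fun _ => hc
    exact h1.trans (single_le_sum (f := fun c => ind (P c)) (fun c _ => h0 c) (mem_univ c))
  · have h1 : ind (∃ c, P c) = 0 := by
      unfold ind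
      rw [if_neg h]
    rw [h1]
    exact sum_nonneg fun c _ => h0 c

private theorem C1_exp (K : ℕ) {c : ℝ} (hc : 0 < c) :
    ∀ᶠ d : ℕ in atTop, 4 * (d : ℝ) * Real.exp (-(c * d)) ≤ 1 / (d : ℝ) ^ K := by
  have h1 : Tendsto (fun d : ℕ => c * (d : ℝ)) atTop atTop :=
    (tendsto_natCast_atTop_atTop).const_mul_atTop hc
  have h2 := (Real.tendsto_pow_mul_exp_neg_atTop_nhds_zero (K + 1)).comp h1
  have h3 : (0 : ℝ) < c ^ (K + 1) / 4 := by positivity
  filter_upwards [h2.eventually (ge_mem_nhds h3), eventually_ge_atTop 1] with d h4 hd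
  have hd' : (0 : ℝ) < d := by exact_mod_cast hd
  simp only [Function.comp_apply] at h4
  rw [le_div_iff₀ (by positivity)]
  have h5 : (c * d) ^ (K + 1) * Real.exp (-(c * d)) = c ^ (K + 1) * ((d : ℝ) ^ (K + 1) * Real.exp (-(c * d))) := by
    rw [mul_pow]; ring
  rw [h5] at h4
  have h6 : (d : ℝ) ^ (K + 1) * Real.exp (-(c * d)) ≤ 1 / 4 := by
    have h7 : (0 : ℝ) < c ^ (K + 1) := by positivity
    have h8 : c ^ (K + 1) * ((d : ℝ) ^ (K + 1) * Real.exp (-(c * d))) ≤ c ^ (K + 1) * (1 / 4) := by linarith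
    exact le_of_mul_le_mul_left h8 h7
  have h9 : 4 * (d : ℝ) * Real.exp (-(c * d)) * (d : ℝ) ^ K = 4 * ((d : ℝ) ^ (K + 1) * Real.exp (-(c * d))) := by
    rw [pow_succ]; ring
  rw [h9]
  linarith

variable {d k q : ℕ}

private theorem C1_step {b : Bool} (hk : 1 ≤ k) {v : Site d k} (hv : v ∈ cls b d k) (σ : Stp d) :
    v + sv σ ∈ cls (!b) d k := by
  rw [mem_cls_step hk, Bool.not_not]
  exact hv

private theorem C1_card : ((univ : Finset (Stp d)).card : ℝ) = 2 * d := by
  rw [card_univ, Fintype.card_prod, Fintype.card_fin, Fintype.card_bool]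
  push_cast
  ring

private theorem C1_mcd (hk : 2 ≤ k) (b : Bool) {f : Site d k → Fin q} (hf : Prp f) (v : Site d k)
    (F : (Site d k → Fin q) → ℝ) (hF : ∀ h w γ, |F (Function.update h w γ) - F h| ≤ 1)
    (hF0 : ∀ h w γ, (∀ σ : Stp d, w ≠ v + sv σ) → F (Function.update h w γ) = F h)
    (θ : ℝ) (hθ : 0 ≤ θ) (hθ' : θ ≤ 4 * d) (hd : 1 ≤ d) :
    fm b (fun h => ind (θ ≤ |F h - fm b F f|)) f ≤ 2 * Real.exp (-(θ ^ 2 / (8 * d))) := by
  classical
  have hd' : (0 : ℝ) < d := by exact_mod_cast hd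
  have key := fm_mcd hk b hf F (fun w => if w ∈ univ.image (fun σ : Stp d => v + sv σ) then (1 : ℝ) else 0)
    (fun w => by split_ifs <;> norm_num) ?_ (2 * d) θ ?_ (by positivity) hθ ?_
  · have e1 : (4 : ℝ) * (2 * d) = 8 * d := by ring
    rw [e1] at key
    exact key
  · intro h _ w _ γ _
    by_cases hw : w ∈ univ.image (fun σ : Stp d => v + sv σ)
    · simp only [if_pos hw]
      exact hF h w γ
    · simp only [if_neg hw]
      rw [hF0 h w γ fun σ hσ => hw (mem_image.2 ⟨σ, mem_univ σ, hσ.symm⟩), sub_self, abs_zero]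
  · have e2 : ∀ w ∈ cls b d k, (if w ∈ univ.image (fun σ : Stp d => v + sv σ) then (1 : ℝ) else 0) ^ 2 =
        if w ∈ univ.image (fun σ : Stp d => v + sv σ) then (1 : ℝ) else 0 := fun w _ => by
      split_ifs <;> norm_num
    rw [sum_congr rfl e2, ← sum_filter, sum_const, nsmul_eq_mul, mul_one, ← C1_card]
    refine Nat.cast_le.2 ((card_le_card ?_).trans (card_image_le (s := (univ : Finset (Stp d))) (f := fun σ => v + sv σ)))
    intro w hw
    exact (mem_filter.1 hw).2
  · intro w _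
    split_ifs
    · linarith
    · linarith

private theorem C1_av1 (v : Site d k) (h : Site d k → Fin q) (w : Site d k) (γ : Fin q) :
    |(av (Function.update h w γ) v : ℝ) - av h v| ≤ 1 := by
  have hc : ∀ g : Site d k → Fin q, (av g v : ℝ) = q - ((SS g v).card : ℝ) := by
    intro g
    unfold av
    rw [Nat.cast_sub]
    have := card_le_univ (SS g v)
    rwa [Fintype.card_fin] at this
  have h1 : SS (Function.update h w γ) v ⊆ insert γ (SS h v) := by
    intro c hcc
    unfold SS at hcc ⊢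
    obtain ⟨σ, -, hσ⟩ := mem_image.1 hcc
    by_cases e : v + sv σ = w
    · rw [e, Function.update_self] at hσ
      rw [← hσ]
      exact mem_insert_self _ _
    · rw [Function.update_of_ne e] at hσ
      exact mem_insert_of_mem (mem_image.2 ⟨σ, mem_univ σ, hσ⟩)
  have h2 : SS h v ⊆ insert (h w) (SS (Function.update h w γ) v) := by
    intro c hcc
    unfold SS at hcc ⊢
    obtain ⟨σ, -, hσ⟩ := mem_image.1 hcc
    by_cases e : v + sv σ = w
    · rw [e] at hσ
      rw [← hσ]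
      exact mem_insert_self _ _
    · refine mem_insert_of_mem (mem_image.2 ⟨σ, mem_univ σ, ?_⟩)
      rw [Function.update_of_ne e]
      exact hσ
  have h3 : ((SS (Function.update h w γ) v).card : ℝ) ≤ (SS h v).card + 1 := by
    exact_mod_cast (card_le_card h1).trans (card_insert_le _ _)
  have h4 : ((SS h v).card : ℝ) ≤ (SS (Function.update h w γ) v).card + 1 := by
    exact_mod_cast (card_le_card h2).trans (card_insert_le _ _)
  rw [hc, hc, abs_le]
  constructor <;> linarith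

private theorem C1_av0 (v : Site d k) (h : Site d k → Fin q) (w : Site d k) (γ : Fin q)
    (hw : ∀ σ : Stp d, w ≠ v + sv σ) : (av (Function.update h w γ) v : ℝ) = av h v := by
  have h1 : SS (Function.update h w γ) v = SS h v := by
    unfold SS
    refine image_congr fun σ _ => ?_
    exact Function.update_of_ne (fun e => hw σ e.symm) _ _
  unfold av
  rw [h1]

open scoped Classical in
private theorem C1_nf (c : Fin q) (h : Site d k → Fin q) (v : Site d k) :
    nf c h v = ∑ σ : Stp d, if h (v + sv σ) = c then (1 : ℝ) else 0 := by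
  unfold nf
  rw [sum_boole]

private theorem C1_nf1 (hk : 2 ≤ k) (c : Fin q) (v : Site d k) (h : Site d k → Fin q) (w : Site d k) (γ : Fin q) :
    |nf c (Function.update h w γ) v - nf c h v| ≤ 1 := by
  classical
  rw [C1_nf, C1_nf, ← sum_sub_distrib]
  by_cases hw : ∃ σ₀ : Stp d, v + sv σ₀ = w
  · obtain ⟨σ₀, hσ₀⟩ := hw
    rw [sum_eq_single σ₀]
    · split_ifs <;> norm_num
    · intro σ _ hσ
      have e : v + sv σ ≠ w := fun e => hσ (sv_inj hk (add_left_cancel (e.trans hσ₀.symm)))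
      rw [Function.update_of_ne e, sub_self]
    · intro hn
      exact absurd (mem_univ σ₀) hn
  · have e1 : ∀ σ ∈ (univ : Finset (Stp d)), ((if Function.update h w γ (v + sv σ) = c then (1 : ℝ) else 0) -
        if h (v + sv σ) = c then (1 : ℝ) else 0) = 0 := fun σ _ => by
      have e : v + sv σ ≠ w := fun e => hw ⟨σ, e⟩
      rw [Function.update_of_ne e, sub_self]
    rw [sum_congr rfl e1, sum_const_zero, abs_zero]
    exact zero_le_one

private theorem C1_nf0 (c : Fin q) (v : Site d k) (h : Site d k → Fin q) (w : Site d k) (γ : Fin q)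
    (hw : ∀ σ : Stp d, w ≠ v + sv σ) : nf c (Function.update h w γ) v = nf c h v := by
  classical
  rw [C1_nf, C1_nf]
  refine sum_congr rfl fun σ _ => ?_
  rw [Function.update_of_ne (fun e => hw σ e.symm)]

private theorem C1_fmav (hk : 2 ≤ k) (b : Bool) {f : Site d k → Fin q} (hf : Prp f) (v : Site d k)
    (hv : v ∈ cls b d k) : fm (!b) (fun h => (av h v : ℝ)) f = ∑ c, zt f v c := by
  have e1 : (fun h : Site d k → Fin q => (av h v : ℝ)) = fun h => ∑ c, zz h v c := funext fun h => av_eq h v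
  rw [e1, fm_sum]
  exact sum_congr rfl fun c _ => fm_zz hk b hf v hv c

private theorem C1_fmnf (hk : 2 ≤ k) (b : Bool) {f : Site d k → Fin q} (hf : Prp f) (v : Site d k)
    (hv : v ∈ cls b d k) (c : Fin q) : fm (!b) (fun h => nf c h v) f = hh c f v := by
  classical
  have e1 : (fun h : Site d k → Fin q => nf c h v) = fun h => ∑ σ : Stp d, if h (v + sv σ) = c then (1 : ℝ) else 0 :=
    funext fun h => C1_nf c h v
  rw [e1, fm_sum]
  unfold THR.hh
  exact sum_congr rfl fun σ _ => fm_ind (by omega) (!b) hf (v + sv σ) (C1_step (by omega) hv σ) c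

private theorem C1_loc (B : ∀ d k q : ℕ, (Site d k → Fin q) → Site d k → Prop)
    (lB : ∀ (d k q : ℕ) (f g : Site d k → Fin q) (v : Site d k), (∀ u, nr 2 v u → f u = g u) → (B d k q f v ↔ B d k q g v))
    (hp : ∀ K : ℕ, EvT e3 fun d k q => Rg d q → ∀ f ∈ prps d k q, ∀ b, ∀ v ∈ cls b d k,
      (∀ σ : Stp d, THR.Rg e3 f (v + sv σ)) → fm (!b) (fun h => ind (B d k q h v)) f ≤ 1 / (d : ℝ) ^ K) : SR B := by
  refine SR_local false 2 (fun d k q f v => ∀ σ : Stp d, THR.Rg e3 f (v + sv σ)) B ?_ ?_ lB ?_ hp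
  · refine reg_pt.nb.mono ?_
    have h0 : EvT e3 fun d _ _ => 1 ≤ d := EvT_d (eventually_ge_atTop 1)
    refine h0.mono fun d k q _ _ f _ v h => ?_
    exact not_forall.1 h
  · intro d k q f g v h
    have h1 : ∀ σ : Stp d, av f (v + sv σ) = av g (v + sv σ) := by
      intro σ
      refine (loc_av fun u hu => h u ?_).2.1
      exact nr_trans (nr_step v σ) hu
    unfold THR.Rg
    simp only [h1]
  · have h0 : EvT e3 fun _ k _ => 1 ≤ k := by
      have h1 := EvT_reg (ε := e3) (by unfold e3; norm_num) (by unfold e3; norm_num) 1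
      refine h1.mono fun d k q h => ?_
      exact_mod_cast h.2.2.1
    refine h0.mono fun d k q hk _ f _ b v hv h hh' => ?_
    have h1 : ∀ σ : Stp d, av h (v + sv σ) = av f (v + sv σ) := by
      intro σ
      unfold av
      rw [fib_SS hk (!b) hh' (v + sv σ) (C1_step hk hv σ)]
    unfold THR.Rg
    simp only [h1]

private theorem C1_prps {f : Site d k → Fin q} (hf : f ∈ prps d k q) : Prp f := by
  classical
  unfold prps at hf
  exact (mem_filter.1 hf).2

private theorem C1_mean {δ : ℝ} (hδ : 0 < δ) (hq : 2 / c1 e3 ≤ q) (hq2 : 2000 / (c1 e3 ^ 2 * q) ≤ δ / 2)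
    (hra : ra d q ≤ 2000) {f : Site d k → Fin q} (hf : Prp f) (v : Site d k) (h : ∀ σ : Stp d, THR.Rg e3 f (v + sv σ)) :
    |(∑ c, zt f v c) - q * al f v| ≤ q * (δ / 2) := by
  have hc1 : 0 < c1 e3 := by
    unfold c1
    positivity
  have hq0 : (0 : ℝ) < q := lt_of_lt_of_le (by positivity) hq
  have e0 : (q : ℝ) * al f v = ∑ c : Fin q, Real.exp (-hh c f v) := by
    unfold al
    field_simp
  rw [e0, ← sum_sub_distrib]
  refine (abs_sum_le_sum_abs _ _).trans ?_
  have e1 : ∀ c ∈ (univ : Finset (Fin q)), |zt f v c - Real.exp (-hh c f v)| ≤ δ / 2 := by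
    intro c _
    refine (zt_exp (ε := e3) (by unfold e3; norm_num) hq hf c v h).trans (le_trans ?_ hq2)
    exact div_le_div_of_nonneg_right hra (by positivity)
  refine (sum_le_sum e1).trans ?_
  rw [sum_const, card_univ, Fintype.card_fin, nsmul_eq_mul]

private theorem C1_av (δ : ℝ) (hδ : 0 < δ) (hδ1 : δ ≤ 1) : SR fun _ _ q f v => δ < |(av f v : ℝ) / q - al f v| := by
  have hc1 : 0 < c1 e3 := by
    unfold c1
    positivity
  refine C1_loc (fun _ _ q f v => δ < |(av f v : ℝ) / q - al f v|) ?_ ?_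
  · intro d k q f g v h
    rw [(loc_av fun u hu => h u (nr_mono (by norm_num) hu)).2.1, (loc_hh h (f v)).2.1]
  · intro K
    obtain ⟨M, hM⟩ : ∃ M : ℝ, M = 2 / c1 e3 + 2000 / (c1 e3 ^ 2 * (δ / 2)) + 2 := ⟨_, rfl⟩
    have hM1 : 0 ≤ 2 / c1 e3 := by positivity
    have hM2 : 0 ≤ 2000 / (c1 e3 ^ 2 * (δ / 2)) := by positivity
    have h1 := EvT_reg (ε := e3) (by unfold e3; norm_num) (by unfold e3; norm_num) M
    have hc : (0 : ℝ) < δ ^ 2 * e3 ^ 2 / 32 := by unfold e3; positivity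
    have h2 : EvT e3 fun d _ _ => 4 * (d : ℝ) * Real.exp (-(δ ^ 2 * e3 ^ 2 / 32 * d)) ≤ 1 / (d : ℝ) ^ K := EvT_d (C1_exp K hc)
    refine (h1.and h2).mono ?_
    rintro d k q ⟨⟨hd, hq, hk, hreg, hreg', -, -, hda⟩, hexp⟩ hR f hf b v hv hreg2
    have hd1 : (1 : ℝ) ≤ d := by linarith
    have hd1' : 1 ≤ d := by exact_mod_cast hd1
    have hk2 : 2 ≤ k := by
      have : (2 : ℝ) ≤ k := by linarith
      exact_mod_cast this
    have hq0 : (0 : ℝ) < q := by linarith
    obtain ⟨-, -, hra, -⟩ := rg_pos hd1' hR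
    have hfP := C1_prps hf
    have hm := C1_mean hδ (by linarith) (by
      rw [div_le_iff₀ (by positivity)]
      have e1 : 2000 / (c1 e3 ^ 2 * (δ / 2)) ≤ q := by linarith
      rw [div_le_iff₀ (by positivity)] at e1
      linarith) hra hfP v hreg2
    rw [← C1_fmav hk2 b hfP v hv] at hm
    have hle : ∀ h ∈ fib (!b) f, ind (δ < |(av h v : ℝ) / q - al h v|) ≤
        ind (δ / 2 * q ≤ |(av h v : ℝ) - fm (!b) (fun h => (av h v : ℝ)) f|) := by
      intro h hh'
      refine C1_ind_mono fun hlt => ?_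
      rw [(loc_fib hk2 b hh' v hv (f v)).2.1] at hlt
      have e2 : |(av h v : ℝ) - q * al f v| = q * |(av h v : ℝ) / q - al f v| := by
        rw [← abs_of_pos hq0, ← abs_mul, abs_of_pos hq0]
        congr 1
        field_simp
      have e3' : q * δ ≤ |(av h v : ℝ) - q * al f v| := by
        rw [e2]
        exact mul_le_mul_of_nonneg_left hlt.le hq0.le
      have e4 := abs_sub_le (av h v : ℝ) (fm (!b) (fun h => (av h v : ℝ)) f) (q * al f v)
      linarith
    refine (fm_mono (!b) hfP hle).trans ?_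
    have hθ : δ / 2 * q ≤ 4 * d := by
      have e5 : δ / 2 * q ≤ 1 / 2 * q := mul_le_mul_of_nonneg_right (by linarith) hq0.le
      have e6 : (q : ℝ) ≤ 2 * d := by
        refine hreg'.trans ?_
        refine mul_le_mul_of_nonneg_right ?_ (by linarith)
        unfold e3
        norm_num
      linarith
    refine (C1_mcd hk2 (!b) hfP v (fun h => (av h v : ℝ)) (fun h w γ => C1_av1 v h w γ)
      (fun h w γ hw => C1_av0 v h w γ hw) (δ / 2 * q) (by positivity) hθ hd1').trans ?_
    refine le_trans ?_ hexp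
    have e7 : δ ^ 2 * e3 ^ 2 / 32 * d ≤ (δ / 2 * q) ^ 2 / (8 * d) := by
      rw [le_div_iff₀ (by linarith)]
      have e8 : (e3 * d) ^ 2 ≤ (q : ℝ) ^ 2 := pow_le_pow_left₀ (by unfold e3; positivity) hreg 2
      have e9 : δ ^ 2 * (e3 * d) ^ 2 ≤ δ ^ 2 * (q : ℝ) ^ 2 := mul_le_mul_of_nonneg_left e8 (by positivity)
      calc δ ^ 2 * e3 ^ 2 / 32 * d * (8 * d) = δ ^ 2 * (e3 * d) ^ 2 / 4 := by ring
        _ ≤ δ ^ 2 * (q : ℝ) ^ 2 / 4 := by linarith
        _ = (δ / 2 * q) ^ 2 := by ring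
    have e10 : Real.exp (-((δ / 2 * q) ^ 2 / (8 * d))) ≤ Real.exp (-(δ ^ 2 * e3 ^ 2 / 32 * d)) :=
      Real.exp_le_exp.2 (by linarith)
    have e11 := Real.exp_pos (-(δ ^ 2 * e3 ^ 2 / 32 * d))
    have e12 : 2 * Real.exp (-(δ ^ 2 * e3 ^ 2 / 32 * d)) ≤ 4 * d * Real.exp (-(δ ^ 2 * e3 ^ 2 / 32 * d)) :=
      mul_le_mul_of_nonneg_right (by linarith) e11.le
    linarith

theorem av_pt (δ : ℝ) (hδ : 0 < δ) : SR fun _ _ q f v => δ < |(av f v : ℝ) / q - al f v| := by
  refine (C1_av (min δ 1) (lt_min hδ one_pos) (min_le_right _ _)).mono ?_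
  have h0 : EvT e3 fun d _ _ => 1 ≤ d := EvT_d (eventually_ge_atTop 1)
  exact h0.mono fun d k q _ _ f _ v h => lt_of_le_of_lt (min_le_left _ _) h

private theorem C1_nfp (δ : ℝ) (hδ : 0 < δ) (hδ1 : δ ≤ 1) : SR fun d _ q f v => ∃ c : Fin q, δ * d < nf c f v := by
  have hc1 : 0 < c1 e3 := by
    unfold c1
    positivity
  refine C1_loc (fun d _ q f v => ∃ c : Fin q, δ * d < nf c f v) ?_ ?_
  · intro d k q f g v h
    have h1 : ∀ c, nf c f v = nf c g v := by
      intro c
      classical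
      rw [C1_nf, C1_nf]
      refine sum_congr rfl fun σ _ => ?_
      rw [h _ (nr_mono (by norm_num) (nr_step v σ))]
    simp only [h1]
  · intro K
    obtain ⟨M, hM⟩ : ∃ M : ℝ, M = 2000 / c1 e3 / (δ / 2) + 2 := ⟨_, rfl⟩
    have hM1 : 0 ≤ 2000 / c1 e3 / (δ / 2) := by positivity
    have h1 := EvT_reg (ε := e3) (by unfold e3; norm_num) (by unfold e3; norm_num) M
    have hc : (0 : ℝ) < δ ^ 2 / 32 := by positivity
    have h2 : EvT e3 fun d _ _ => 4 * (d : ℝ) * Real.exp (-(δ ^ 2 / 32 * d)) ≤ 1 / (d : ℝ) ^ K := EvT_d (C1_exp K hc)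
    refine (h1.and h2).mono ?_
    rintro d k q ⟨⟨hd, hq, hk, hreg, hreg', -, -, hda⟩, hexp⟩ hR f hf b v hv hreg2
    have hd1 : (1 : ℝ) ≤ d := by linarith
    have hd1' : 1 ≤ d := by exact_mod_cast hd1
    have hd0 : (0 : ℝ) < d := by linarith
    have hk2 : 2 ≤ k := by
      have : (2 : ℝ) ≤ k := by linarith
      exact_mod_cast this
    have hq0 : (0 : ℝ) < q := by linarith
    have hq1 : 1 ≤ q := by exact_mod_cast hq0
    obtain ⟨-, -, hra, -⟩ := rg_pos hd1' hR
    have hfP := C1_prps hf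
    have hmean : ∀ c : Fin q, fm (!b) (fun h => nf c h v) f ≤ δ / 2 * d := by
      intro c
      rw [C1_fmnf hk2 b hfP v hv c]
      refine (hh_le_reg hq1 c f v hreg2).trans ?_
      have e1 : 2000 / c1 e3 / (δ / 2) ≤ d := by linarith
      rw [div_le_iff₀ (by positivity)] at e1
      have e2 : ra d q / c1 e3 ≤ 2000 / c1 e3 := div_le_div_of_nonneg_right hra hc1.le
      linarith
    have hle : ∀ h ∈ fib (!b) f, ind (∃ c : Fin q, δ * d < nf c h v) ≤
        ∑ c : Fin q, ind (δ / 2 * d ≤ |nf c h v - fm (!b) (fun h => nf c h v) f|) := by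
      intro h _
      refine (C1_ind_ex fun c : Fin q => δ * d < nf c h v).trans (sum_le_sum fun c _ => ?_)
      refine C1_ind_mono fun hlt => ?_
      refine le_trans ?_ (le_abs_self _)
      have := hmean c
      linarith
    refine (fm_mono (!b) hfP hle).trans ?_
    rw [fm_sum]
    have hθ : δ / 2 * d ≤ 4 * d := mul_le_mul_of_nonneg_right (by linarith) hd0.le
    have hone : ∀ c ∈ (univ : Finset (Fin q)),
        fm (!b) (fun h => ind (δ / 2 * d ≤ |nf c h v - fm (!b) (fun h => nf c h v) f|)) f ≤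
          2 * Real.exp (-(δ ^ 2 / 32 * d)) := by
      intro c _
      refine (C1_mcd hk2 (!b) hfP v (fun h => nf c h v) (fun h w γ => C1_nf1 hk2 c v h w γ)
        (fun h w γ hw => C1_nf0 c v h w γ hw) (δ / 2 * d) (by positivity) hθ hd1').trans (le_of_eq ?_)
      have e7 : (δ / 2 * d) ^ 2 / (8 * (d : ℝ)) = δ ^ 2 / 32 * d := by
        field_simp
        ring
      rw [e7]
    refine (sum_le_sum hone).trans ?_
    rw [sum_const, card_univ, Fintype.card_fin, nsmul_eq_mul]
    refine le_trans ?_ hexp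
    have e6 : (q : ℝ) ≤ 2 * d := by
      refine hreg'.trans ?_
      refine mul_le_mul_of_nonneg_right ?_ (by linarith)
      unfold e3
      norm_num
    have e11 := Real.exp_pos (-(δ ^ 2 / 32 * (d : ℝ)))
    calc (q : ℝ) * (2 * Real.exp (-(δ ^ 2 / 32 * (d : ℝ)))) ≤ 2 * d * (2 * Real.exp (-(δ ^ 2 / 32 * (d : ℝ)))) :=
          mul_le_mul_of_nonneg_right e6 (by positivity)
      _ = 4 * (d : ℝ) * Real.exp (-(δ ^ 2 / 32 * (d : ℝ))) := by ring

theorem nf_pt (δ : ℝ) (hδ : 0 < δ) : SR fun d _ q f v => ∃ c : Fin q, δ * d < nf c f v := by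
  refine (C1_nfp (min δ 1) (lt_min hδ one_pos) (min_le_right _ _)).mono ?_
  have h0 : EvT e3 fun d _ _ => 1 ≤ d := EvT_d (eventually_ge_atTop 1)
  refine h0.mono fun d k q _ _ f _ v h => ?_
  obtain ⟨c, hc⟩ := h
  exact ⟨c, lt_of_le_of_lt (mul_le_mul_of_nonneg_right (min_le_left _ _) (Nat.cast_nonneg _)) hc⟩

end Pool.Agent.LC

end

/-! ### from `Lib_MP_2c424f_lc1.C4` -/

section

/-!
# LC1 C4: averages of `gg` and `ya`

`PP^[s] |gg - zz/al| v`: at regular sites with `|av/q - al| ≤ δ'` at most `δ' e^a/c1`, elsewhere at most `q + e^a`: `SR.avgs` (with `K' = 2`) for the exceptional sites.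
`PP^[s] |zt/al - ya| v`: `zt_exp` at sites with regular neighbours (`≤ C/q`), elsewhere `≤ e^a`: `SR.avgs`.
`X := PP^[s] ((zz - zt)/al) v`: `v ∈ cls b`.  The averaged sites `u` are in the class `b` (`s` even) or `!b` (`s` odd); resample the other class `β'` (`o = false` for `s` even, `o = true` for `s` odd);
`zt`, `al` at the sites `u` do not change, `fm (zz f u c) = zt f u c` (LIN `fm_zt` or so, `fm_prod`), so the mean of `X` is `0`.  A site `w ∈ β'` changes `X` by at most `c_w = ∑_{u ~ w} Kt s v u e^a`; `c_w ≤ 2d e^a sup Kt`,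
`∑_w c_w ≤ 2d e^a`, so `∑ c_w² ≤ 4d² e^{2a} sup Kt ≤ C d^(-7)` (`Kt_sup` for `2⌊s/2⌋`, `Kt_succ_le`, `s ≥ 20`).  `fm_mcd`.  `SR_local`, radius `s + 2`, `R = True`.
-/

set_option autoImplicit false

open Finset Filter

namespace Pool.Agent.LC

open Pool.Agent.LO Pool.Agent.LIN Pool.Agent.THR Pool.Agent.COR

section aux
variable {d k q : ℕ}

/-- the centred part -/
private noncomputable def C4_X (c : Fin q) (f : Site d k → Fin q) (u : Site d k) : ℝ :=
  (zz f u c - zt f u c) / al f u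

private theorem C4_upd (b : Bool) {f h : Site d k → Fin q} (hh : h ∈ fib b f) (v : Site d k)
    (hv : v ∈ cls b d k) (γ : Fin q) (hγ : γ ∉ SS f v) : Function.update h v γ ∈ fib b f := by
  classical
  unfold fib at hh ⊢
  rw [Fintype.mem_piFinset] at hh ⊢
  intro x
  by_cases hx : x = v
  · subst hx
    rw [Function.update_self, if_pos hv]
    exact mem_compl.2 hγ
  · rw [Function.update_of_ne hx]
    exact hh x

private theorem C4_prp {f : Site d k → Fin q} (hf : f ∈ prps d k q) : Prp f := by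
  classical
  exact (Finset.mem_filter.1 hf).2

private theorem C4_zz01 (f : Site d k → Fin q) (x : Site d k) (c : Fin q) : 0 ≤ zz f x c ∧ zz f x c ≤ 1 := by
  unfold zz
  split_ifs <;> norm_num

private theorem C4_on_fib (hk : 2 ≤ k) (b : Bool) {f h : Site d k → Fin q} (hh : h ∈ fib (!b) f) (u : Site d k)
    (hu : u ∈ cls b d k) (c : Fin q) : C4_X c h u = (1 / al f u) * (zz h u c - zt f u c) := by
  unfold C4_X
  rw [zt_fib hk b hh u hu c, (loc_fib hk b hh u hu c).2.1]
  ring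

private theorem C4_mean1 (hk : 2 ≤ k) (b : Bool) {f : Site d k → Fin q} (hf : Prp f) (u : Site d k)
    (hu : u ∈ cls b d k) (c : Fin q) : fm (!b) (fun h => C4_X c h u) f = 0 := by
  have h1 : fm (!b) (fun h => C4_X c h u) f = fm (!b) (fun h => (1 / al f u) * (zz h u c - zt f u c)) f :=
    fm_congr (!b) fun h hh => C4_on_fib hk b hh u hu c
  rw [h1, fm_mul, fm_sub, fm_zz hk b hf u hu c, fm_const (!b) hf]
  ring

private theorem C4_mean (hk : 2 ≤ k) (b : Bool) {f : Site d k → Fin q} (hf : Prp f) (t : ℕ) (v : Site d k)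
    (h0 : ∀ y : Site d k, y ∉ cls b d k → Kt t v y = 0) (c : Fin q) :
    fm (!b) (fun h => PP^[t] (C4_X c h) v) f = 0 := by
  have h1 : (fun h : Site d k → Fin q => PP^[t] (C4_X c h) v) = fun h => ∑ y, Kt t v y * C4_X c h y :=
    funext fun h => Kt_repr t _ v
  rw [h1, fm_sum]
  refine Finset.sum_eq_zero fun y _ => ?_
  rw [fm_mul]
  by_cases hy : y ∈ cls b d k
  · rw [C4_mean1 hk b hf y hy c, mul_zero]
  · rw [h0 y hy, zero_mul]

private theorem C4_inv {f : Site d k → Fin q} (hq : 1 ≤ q) (hf : Prp f) (y : Site d k) :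
    0 < al f y ∧ 1 / al f y ≤ Real.exp (ra d q) := by
  have hal := al_ge hq hf y
  have hal0 : 0 < al f y := (Real.exp_pos _).trans_le hal
  refine ⟨hal0, ?_⟩
  rw [div_le_iff₀ hal0]
  calc (1 : ℝ) = Real.exp (ra d q) * Real.exp (-ra d q) := by rw [← Real.exp_add]; simp
    _ ≤ _ := mul_le_mul_of_nonneg_left hal (Real.exp_pos _).le

private theorem C4_diff (hk : 2 ≤ k) (hq : 1 ≤ q) (b : Bool) {f h : Site d k → Fin q} (hf : Prp f)
    (hh : h ∈ fib (!b) f) (w : Site d k) (hw : w ∈ cls (!b) d k) (γ : Fin q) (hγ : γ ∉ SS f w) (c : Fin q)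
    (y : Site d k) (hy : y ∈ cls b d k) :
    |C4_X c (Function.update h w γ) y - C4_X c h y| ≤
      Real.exp (ra d q) * ∑ σ : Stp d, (if w + sv σ = y then (1 : ℝ) else 0) := by
  have h1 := C4_upd (!b) hh w hw γ hγ
  rw [C4_on_fib hk b h1 y hy c, C4_on_fib hk b hh y hy c]
  obtain ⟨hal0, hE⟩ := C4_inv hq hf y
  have h2 : 1 / al f y * (zz (Function.update h w γ) y c - zt f y c) - 1 / al f y * (zz h y c - zt f y c) =
      1 / al f y * (zz (Function.update h w γ) y c - zz h y c) := by ring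
  rw [h2, abs_mul, abs_of_nonneg (by positivity : (0 : ℝ) ≤ 1 / al f y)]
  refine mul_le_mul hE ?_ (abs_nonneg _) (Real.exp_pos _).le
  by_cases hn : ∃ σ : Stp d, w + sv σ = y
  · obtain ⟨σ, hσ⟩ := hn
    have h3 : (1 : ℝ) ≤ ∑ σ : Stp d, (if w + sv σ = y then (1 : ℝ) else 0) := by
      have h4 := Finset.single_le_sum (f := fun σ : Stp d => if w + sv σ = y then (1 : ℝ) else 0)
        (fun σ _ => by split_ifs <;> norm_num) (Finset.mem_univ σ)
      have h5 : (if w + sv σ = y then (1 : ℝ) else 0) = 1 := if_pos hσ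
      exact (le_of_eq h5.symm).trans h4
    refine le_trans ?_ h3
    have a1 := C4_zz01 (Function.update h w γ) y c
    have a2 := C4_zz01 h y c
    rw [abs_le]
    constructor <;> linarith
  · have h3 : (fun σ : Stp d => Function.update h w γ (y + sv σ)) = fun σ => h (y + sv σ) := by
      funext σ
      refine Function.update_of_ne ?_ _ _
      intro hc
      refine hn ⟨(σ.1, !σ.2), ?_⟩
      rw [← hc, add_assoc, show (sv σ : Site d k) + sv (σ.1, !σ.2) = 0 from sv_opp σ.1 σ.2, add_zero]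
    have h4 : SS (Function.update h w γ) y = SS h y := by
      unfold SS
      rw [h3]
    have h5 : zz (Function.update h w γ) y c = zz h y c := by
      unfold zz
      rw [h4]
    rw [h5, sub_self, abs_zero]
    exact Finset.sum_nonneg fun σ _ => by split_ifs <;> norm_num

private theorem C4_lip (hk : 2 ≤ k) (hq : 1 ≤ q) (b : Bool) {f h : Site d k → Fin q} (hf : Prp f)
    (hh : h ∈ fib (!b) f) (w : Site d k) (hw : w ∈ cls (!b) d k) (γ : Fin q) (hγ : γ ∉ SS f w) (c : Fin q)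
    (t : ℕ) (v : Site d k) (h0 : ∀ y : Site d k, y ∉ cls b d k → Kt t v y = 0) :
    |PP^[t] (C4_X c (Function.update h w γ)) v - PP^[t] (C4_X c h) v| ≤
      Real.exp (ra d q) * ∑ σ : Stp d, Kt t v (w + sv σ) := by
  classical
  rw [Kt_repr, Kt_repr, ← Finset.sum_sub_distrib]
  refine (Finset.abs_sum_le_sum_abs _ _).trans ?_
  have h1 : ∀ y, |Kt t v y * C4_X c (Function.update h w γ) y - Kt t v y * C4_X c h y| ≤
      Real.exp (ra d q) * ∑ σ : Stp d, (if w + sv σ = y then Kt t v y else 0) := by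
    intro y
    rw [← mul_sub, abs_mul, abs_of_nonneg (Kt_nonneg _ _ _)]
    by_cases hy : y ∈ cls b d k
    · have h2 := C4_diff hk hq b hf hh w hw γ hγ c y hy
      refine (mul_le_mul_of_nonneg_left h2 (Kt_nonneg _ _ _)).trans (le_of_eq ?_)
      rw [mul_left_comm, Finset.mul_sum]
      congr 1
      refine Finset.sum_congr rfl fun σ _ => ?_
      split_ifs
      · rw [mul_one]
      · rw [mul_zero]
    · rw [h0 y hy, zero_mul]
      refine mul_nonneg (Real.exp_pos _).le (Finset.sum_nonneg fun σ _ => ?_)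
      split_ifs <;> exact le_rfl
  refine (Finset.sum_le_sum fun y _ => h1 y).trans (le_of_eq ?_)
  rw [← Finset.mul_sum, Finset.sum_comm]
  congr 1
  refine Finset.sum_congr rfl fun σ _ => ?_
  rw [Finset.sum_ite_eq, if_pos (Finset.mem_univ _)]

private theorem C4_card : (Fintype.card (Stp d) : ℝ) = 2 * d := by
  rw [Fintype.card_prod, Fintype.card_fin, Fintype.card_bool]
  push_cast
  ring

private theorem C4_s1 (t : ℕ) (v : Site d k) (κ : ℝ) (hκ : ∀ y, Kt t v y ≤ κ) (w : Site d k) :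
    0 ≤ ∑ σ : Stp d, Kt t v (w + sv σ) ∧ ∑ σ : Stp d, Kt t v (w + sv σ) ≤ 2 * d * κ := by
  refine ⟨Finset.sum_nonneg fun σ _ => Kt_nonneg _ _ _, ?_⟩
  have h1 := Finset.sum_le_card_nsmul (Finset.univ : Finset (Stp d)) (fun σ => Kt t v (w + sv σ)) κ
    (fun σ _ => hκ _)
  rw [nsmul_eq_mul, Finset.card_univ, C4_card] at h1
  exact h1

private theorem C4_s2 (hd : 1 ≤ d) (t : ℕ) (v : Site d k) :
    ∑ w : Site d k, ∑ σ : Stp d, Kt t v (w + sv σ) = 2 * d := by
  rw [Finset.sum_comm]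
  have h1 : ∀ σ : Stp d, ∑ w : Site d k, Kt t v (w + sv σ) = 1 := by
    intro σ
    rw [← Kt_one hd t v]
    exact Fintype.sum_equiv (Equiv.addRight (sv σ)) _ _ (fun _ => rfl)
  rw [Finset.sum_congr rfl fun σ _ => h1 σ, Finset.sum_const, nsmul_eq_mul, mul_one, Finset.card_univ, C4_card]

private theorem C4_sq (hd : 1 ≤ d) (t : ℕ) (v : Site d k) (κ : ℝ) (hκ : ∀ y, Kt t v y ≤ κ) (E : ℝ)
    (A : Finset (Site d k)) :
    ∑ w ∈ A, (E * ∑ σ : Stp d, Kt t v (w + sv σ)) ^ 2 ≤ 4 * (d : ℝ) ^ 2 * E ^ 2 * κ := by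
  calc ∑ w ∈ A, (E * ∑ σ : Stp d, Kt t v (w + sv σ)) ^ 2
      ≤ ∑ w : Site d k, (E * ∑ σ : Stp d, Kt t v (w + sv σ)) ^ 2 :=
        Finset.sum_le_sum_of_subset_of_nonneg (Finset.subset_univ _) fun w _ _ => sq_nonneg _
    _ ≤ ∑ w : Site d k, (E ^ 2 * (2 * d * κ)) * ∑ σ : Stp d, Kt t v (w + sv σ) := by
        refine Finset.sum_le_sum fun w _ => ?_
        obtain ⟨h1, h2⟩ := C4_s1 t v κ hκ w
        rw [mul_pow, sq (∑ σ : Stp d, Kt t v (w + sv σ)), ← mul_assoc]
        refine mul_le_mul_of_nonneg_right ?_ h1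
        exact mul_le_mul_of_nonneg_left h2 (sq_nonneg _)
    _ = 4 * (d : ℝ) ^ 2 * E ^ 2 * κ := by
        rw [← Finset.mul_sum, C4_s2 hd]
        ring

private theorem C4_kap (hd : 1 ≤ d) (t : ℕ) (ht : 20 ≤ t) (hk : 2 * (t / 2) < 2 ^ k) (u y : Site d k) :
    Kt t u y ≤ (8 * ((t / 2 : ℕ) : ℝ)) ^ (2 * (t / 2)) / (d : ℝ) ^ 10 := by
  have hd' : (1 : ℝ) ≤ d := by exact_mod_cast hd
  have h1 : ∀ u y : Site d k, Kt (2 * (t / 2)) u y ≤ (8 * ((t / 2 : ℕ) : ℝ)) ^ (2 * (t / 2)) / (d : ℝ) ^ 10 := by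
    intro u y
    refine (Kt_sup hd (t / 2) hk u y).trans ?_
    refine div_le_div_of_nonneg_left (by positivity) (by positivity) ?_
    have h2 : (d : ℝ) ^ 10 ≤ (d : ℝ) ^ (t / 2) := pow_le_pow_right₀ hd' (by omega)
    refine h2.trans ?_
    exact pow_le_pow_left₀ (by positivity) (by linarith) _
  rcases Nat.even_or_odd' t with ⟨m, hm | hm⟩
  · have h2 : 2 * (t / 2) = t := by omega
    have h3 := h1 u y
    rw [show Kt (2 * (t / 2)) u y = Kt t u y from by rw [h2]] at h3
    exact h3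
  · have h2 : 2 * (t / 2) + 1 = t := by omega
    have h3 := Kt_succ_le hd (2 * (t / 2)) _ h1 u y
    rw [show Kt (2 * (t / 2) + 1) u y = Kt t u y from by rw [h2]] at h3
    exact h3

/-- the deviation for one colour -/
private theorem C4_dev (hd : 1 ≤ d) (hk : 2 ≤ k) (hq : 1 ≤ q) (b : Bool) {f : Site d k → Fin q} (hf : Prp f)
    (t : ℕ) (v : Site d k) (h0 : ∀ y : Site d k, y ∉ cls b d k → Kt t v y = 0) (c : Fin q)
    (E M θ : ℝ) (hE : Real.exp (ra d q) ≤ E) (hθ : 0 ≤ θ) (hκ : ∀ y, Kt t v y ≤ M / (d : ℝ) ^ 10)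
    (h1 : 4 * E ^ 2 * M ≤ d) (h2 : θ * E * M ≤ d) :
    fm (!b) (fun h => ind (θ < |PP^[t] (C4_X c h) v|)) f ≤ 2 * Real.exp (-(θ ^ 2 / 4 * (d : ℝ))) := by
  have hd' : (1 : ℝ) ≤ d := by exact_mod_cast hd
  have hd0 : (0 : ℝ) < d := by linarith
  have hE0 : 0 < E := (Real.exp_pos _).trans_le hE
  have hm := C4_mean hk b hf t v h0 c
  have h3 := fm_mcd hk (!b) hf (fun h => PP^[t] (C4_X c h) v) (fun w => E * ∑ σ : Stp d, Kt t v (w + sv σ))
    (fun w => mul_nonneg hE0.le (C4_s1 t v _ hκ w).1)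
    (fun h hh w hw γ hγ => (C4_lip hk hq b hf hh w hw γ hγ c t v h0).trans
      (mul_le_mul_of_nonneg_right hE (C4_s1 t v _ hκ w).1)) (1 / (d : ℝ) ^ 7) θ ?_ (by positivity) hθ ?_
  · rw [hm] at h3
    have h4 : fm (!b) (fun h => ind (θ < |PP^[t] (C4_X c h) v|)) f ≤
        fm (!b) (fun h => ind (θ ≤ |PP^[t] (C4_X c h) v - 0|)) f := by
      refine fm_mono (!b) hf fun h _ => ?_
      rw [sub_zero]
      unfold ind
      split_ifs with a1 a2 a2
      · exact le_rfl
      · exact absurd a1.le a2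
      · exact zero_le_one
      · exact le_rfl
    refine h4.trans (h3.trans ?_)
    refine mul_le_mul_of_nonneg_left (Real.exp_le_exp.2 (neg_le_neg ?_)) zero_le_two
    have h5 : θ ^ 2 / (4 * (1 / (d : ℝ) ^ 7)) = θ ^ 2 / 4 * (d : ℝ) ^ 7 := by
      field_simp
    rw [h5]
    refine mul_le_mul_of_nonneg_left ?_ (by positivity)
    calc (d : ℝ) = (d : ℝ) ^ 1 := (pow_one _).symm
      _ ≤ (d : ℝ) ^ 7 := pow_le_pow_right₀ hd' (by norm_num)
  · refine (C4_sq hd t v _ hκ E _).trans ?_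
    have h4 : 4 * (d : ℝ) ^ 2 * E ^ 2 * (M / (d : ℝ) ^ 10) = (4 * E ^ 2 * M) / (d : ℝ) ^ 8 := by
      field_simp
    rw [h4]
    calc (4 * E ^ 2 * M) / (d : ℝ) ^ 8 ≤ (d : ℝ) / (d : ℝ) ^ 8 :=
          div_le_div_of_nonneg_right h1 (by positivity)
      _ = 1 / (d : ℝ) ^ 7 := by field_simp
  · intro w _
    have h4 := (C4_s1 t v _ hκ w).2
    calc θ * (E * ∑ σ : Stp d, Kt t v (w + sv σ)) ≤ θ * (E * (2 * d * (M / (d : ℝ) ^ 10))) :=
          mul_le_mul_of_nonneg_left (mul_le_mul_of_nonneg_left h4 hE0.le) hθ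
      _ = 2 * (θ * E * M) / (d : ℝ) ^ 9 := by field_simp
      _ ≤ 2 * (d : ℝ) / (d : ℝ) ^ 9 :=
          div_le_div_of_nonneg_right (mul_le_mul_of_nonneg_left h2 zero_le_two) (by positivity)
      _ = 2 * (1 / (d : ℝ) ^ 8) := by field_simp
      _ ≤ 2 * (1 / (d : ℝ) ^ 7) := by
          refine mul_le_mul_of_nonneg_left ?_ zero_le_two
          exact one_div_le_one_div_of_le (by positivity) (pow_le_pow_right₀ hd' (by norm_num))

private theorem C4_union (b : Bool) {f : Site d k → Fin q} (hf : Prp f) (B : Fin q → (Site d k → Fin q) → Prop)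
    (x : ℝ) (hx : ∀ c, fm b (fun h => ind (B c h)) f ≤ x) : fm b (fun h => ind (∃ c, B c h)) f ≤ q * x := by
  have h1 : fm b (fun h => ind (∃ c, B c h)) f ≤ fm b (fun h => ∑ c : Fin q, ind (B c h)) f := by
    refine fm_mono b hf fun h _ => ?_
    have h2 : ∀ c, 0 ≤ ind (B c h) := fun c => by
      unfold ind
      split_ifs <;> norm_num
    by_cases hc : ∃ c, B c h
    · obtain ⟨c, hc'⟩ := hc
      have h3 := Finset.single_le_sum (f := fun c => ind (B c h)) (fun c _ => h2 c) (Finset.mem_univ c)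
      have h4 : ind (B c h) = 1 := if_pos hc'
      have h5 : ind (∃ c, B c h) = 1 := if_pos ⟨c, hc'⟩
      rw [h5, ← h4]
      exact h3
    · have h5 : ind (∃ c, B c h) = 0 := if_neg hc
      rw [h5]
      exact Finset.sum_nonneg fun c _ => h2 c
  refine h1.trans ?_
  rw [fm_sum b f Finset.univ (fun c h => ind (B c h))]
  have h2 := Finset.sum_le_card_nsmul (Finset.univ : Finset (Fin q)) (fun c => fm b (fun h => ind (B c h)) f) x
    (fun c _ => hx c)
  rw [nsmul_eq_mul, Finset.card_univ, Fintype.card_fin] at h2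
  exact h2

private theorem C4_loc (θ : ℝ) (t : ℕ) (f g : Site d k → Fin q) (v : Site d k)
    (h : ∀ u, nr (t + 2) v u → f u = g u) :
    (∃ c : Fin q, θ < |PP^[t] (C4_X c f) v|) ↔ ∃ c : Fin q, θ < |PP^[t] (C4_X c g) v| := by
  have h1 : ∀ c : Fin q, PP^[t] (C4_X c f) v = PP^[t] (C4_X c g) v := by
    intro c
    refine loc_PPt t fun u hu => ?_
    have h2 : ∀ w, nr 2 u w → f w = g w := fun w hw => h w (nr_trans hu hw)
    have h3 : ∀ w, nr 1 u w → f w = g w := fun w hw => h2 w (nr_mono (by norm_num) hw)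
    unfold C4_X
    rw [(loc_av h3).2.2 c, (loc_hh h2 c).2.1, (loc_hh h2 c).2.2.2.1]
  constructor
  · rintro ⟨c, hc⟩
    exact ⟨c, by rw [← h1 c]; exact hc⟩
  · rintro ⟨c, hc⟩
    exact ⟨c, by rw [h1 c]; exact hc⟩

end aux

private theorem C4_exp (θ : ℝ) (hθ : 0 < θ) (K : ℕ) :
    ∀ᶠ d : ℕ in atTop, 2 * (d : ℝ) * (2 * Real.exp (-(θ ^ 2 / 4 * (d : ℝ)))) ≤ 1 / (d : ℝ) ^ K := by
  have h1 := (isLittleO_pow_exp_pos_mul_atTop (k := K + 1) (b := θ ^ 2 / 4) (by positivity)).bound
    (by norm_num : (0 : ℝ) < 1 / 4)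
  have h2 := (tendsto_natCast_atTop_atTop (R := ℝ)).eventually h1
  filter_upwards [h2, eventually_ge_atTop 1] with d hd hd1
  have hd' : (1 : ℝ) ≤ d := by exact_mod_cast hd1
  rw [Real.norm_of_nonneg (by positivity), Real.norm_of_nonneg (Real.exp_pos _).le] at hd
  rw [le_div_iff₀ (by positivity)]
  have h3 := Real.exp_pos (θ ^ 2 / 4 * (d : ℝ))
  rw [Real.exp_neg]
  have h4 : 2 * (d : ℝ) * (2 * (Real.exp (θ ^ 2 / 4 * (d : ℝ)))⁻¹) * (d : ℝ) ^ K =
      4 * (d : ℝ) ^ (K + 1) / Real.exp (θ ^ 2 / 4 * (d : ℝ)) := by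
    rw [pow_succ, div_eq_mul_inv]
    ring
  rw [h4, div_le_one h3]
  linarith

private theorem C4_main (s : ℕ) (hs : 20 ≤ s) (θ : ℝ) (hθ : 0 < θ) : SR fun _ _ q f v =>
    ∃ c : Fin q, θ < |PP^[s] (C4_X c f) v| := by
  set E : ℝ := Real.exp 2000 with hE
  set M : ℝ := (8 * ((s / 2 : ℕ) : ℝ)) ^ (2 * (s / 2))
  have he : 0 < e3 := by unfold e3; norm_num
  have he1 : e3 ≤ 1 := by unfold e3; norm_num
  have hbig : ∀ K : ℕ, EvT e3 fun d k q => Rg d q → 1 ≤ d ∧ 2 ≤ k ∧ 1 ≤ q ∧ 2 * (s / 2) < 2 ^ k ∧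
      Real.exp (ra d q) ≤ E ∧ 4 * E ^ 2 * M ≤ d ∧ θ * E * M ≤ d ∧
      (q : ℝ) * (2 * Real.exp (-(θ ^ 2 / 4 * (d : ℝ)))) ≤ 1 / (d : ℝ) ^ K := by
    intro K
    refine (((EvT_d ((C4_exp θ hθ K).and ((tendsto_natCast_atTop_atTop (R := ℝ)).eventually
      ((eventually_ge_atTop (4 * E ^ 2 * M)).and (eventually_ge_atTop (θ * E * M)))))).and
      (EvT_reg he he1 2)).and (EvT_pow (ε := e3) fun _ _ => ((2 * (s / 2) : ℕ) : ℝ) + 1)).mono ?_
    rintro d k q ⟨⟨⟨h1, h2, h3⟩, h4⟩, h5⟩ hR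
    have hd2 : (2 : ℝ) ≤ d := h4.1
    have hq2 : (2 : ℝ) ≤ q := h4.2.1
    have hk2 : (2 : ℝ) ≤ k := h4.2.2.1
    have hd : 1 ≤ d := by
      have : 2 ≤ d := by exact_mod_cast hd2
      omega
    have hq : 1 ≤ q := by
      have : 2 ≤ q := by exact_mod_cast hq2
      omega
    refine ⟨hd, by exact_mod_cast hk2, hq, ?_, ?_, h2, h3, ?_⟩
    · have h6 : ((2 * (s / 2) + 1 : ℕ) : ℝ) ≤ ((2 ^ k : ℕ) : ℝ) := by
        push_cast
        push_cast at h5
        exact h5
      have h7 : 2 * (s / 2) + 1 ≤ 2 ^ k := by exact_mod_cast h6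
      omega
    · exact Real.exp_le_exp.2 (rg_pos hd hR).2.2.1
    · have h6 : (q : ℝ) ≤ 2 * d := by
        have h7 := h4.2.2.2.2.1
        have h8 : e3 * (d : ℝ) ≥ 0 := by positivity
        nlinarith
      exact (mul_le_mul_of_nonneg_right h6 (by positivity)).trans h1
  by_cases hev : Even s
  · refine SR_local false (s + 2) (fun _ _ _ _ _ => True) _ ?_ ?_ ?_ ?_ ?_
    · exact reg_pt.mono ((EvT_d (P := fun _ => True) (Filter.Eventually.of_forall fun _ => trivial)).mono
        fun d k q _ _ f _ v h => absurd trivial h)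
    · intro d k q f g v _
      exact Iff.rfl
    · intro d k q f g v h
      exact C4_loc θ s f g v h
    · exact (EvT_d (P := fun _ => True) (Filter.Eventually.of_forall fun _ => trivial)).mono
        fun d k q _ _ f _ b v _ h _ => Iff.rfl
    · intro K
      refine (hbig K).mono fun d k q h hR f hf b v hv _ => ?_
      obtain ⟨hd, hk, hq, hk', hEr, h1, h2, h3⟩ := h hR
      have hf' : Prp f := C4_prp hf
      refine (C4_union (!b) hf' (fun c h => θ < |PP^[s] (C4_X c h) v|) _ fun c => ?_).trans h3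
      refine C4_dev hd hk hq b hf' s v ?_ c E M θ hEr hθ.le (fun y => C4_kap hd s hs hk' v y) h1 h2
      intro y hy
      exact Kt_cls (by omega) s hev b v y hv ((cls_not b y).2 hy)
  · refine SR_local true (s + 2) (fun _ _ _ _ _ => True) _ ?_ ?_ ?_ ?_ ?_
    · exact reg_pt.mono ((EvT_d (P := fun _ => True) (Filter.Eventually.of_forall fun _ => trivial)).mono
        fun d k q _ _ f _ v h => absurd trivial h)
    · intro d k q f g v _
      exact Iff.rfl
    · intro d k q f g v h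
      exact C4_loc θ s f g v h
    · exact (EvT_d (P := fun _ => True) (Filter.Eventually.of_forall fun _ => trivial)).mono
        fun d k q _ _ f _ b v _ h _ => Iff.rfl
    · intro K
      refine (hbig K).mono fun d k q h hR f hf b v hv _ => ?_
      obtain ⟨hd, hk, hq, hk', hEr, h1, h2, h3⟩ := h hR
      have hf' : Prp f := C4_prp hf
      refine (C4_union b hf' (fun c h => θ < |PP^[s] (C4_X c h) v|) _ fun c => ?_).trans h3
      have h4 := C4_dev hd hk hq (!b) hf' s v (fun y hy => ?_) c E M θ hEr hθ.le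
        (fun y => C4_kap hd s hs hk' v y) h1 h2
      · rw [Bool.not_not] at h4
        exact h4
      · refine Kt_cls' (by omega) s hev b v y hv ?_
        by_contra hc
        exact hy ((cls_not b y).2 hc)

section aux2
variable {d k q : ℕ}

/-- exceptional site -/
private def C4_Bad (δ : ℝ) (f : Site d k → Fin q) (u : Site d k) : Prop :=
  (δ < |(av f u : ℝ) / q - al f u| ∨ ¬ THR.Rg e3 f u) ∨ ∃ σ : Stp d, ¬ THR.Rg e3 f (u + sv σ)

private theorem C4_pw (hq : 1 ≤ q) (hc : 2 / c1 e3 ≤ q) (δ E : ℝ) (hδ : 0 ≤ δ) (hE : Real.exp (ra d q) ≤ E)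
    (ha : ra d q ≤ 2000) {f : Site d k → Fin q} (hf : Prp f) (c : Fin q) (u : Site d k) :
    |THR.gg c f u - ya c f u - C4_X c f u| ≤
      (δ * E / c1 e3 + E * 2000 / (c1 e3 ^ 2 * q)) + (q + 2 * E) * ind (C4_Bad δ f u) := by
  have hq0 : (0 : ℝ) < q := by exact_mod_cast hq
  have hc1 : 0 < c1 e3 := by
    unfold c1
    positivity
  have hE0 : 0 < E := (Real.exp_pos _).trans_le hE
  obtain ⟨hal0, hinv⟩ := C4_inv hq hf u
  have hinv' : 1 / al f u ≤ E := hinv.trans hE
  have hav : (1 : ℝ) ≤ av f u := by exact_mod_cast av_pos hf u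
  have hav0 : (0 : ℝ) < av f u := by linarith
  have hz := C4_zz01 f u c
  have h1 : THR.gg c f u - ya c f u - C4_X c f u =
      zz f u c * ((q : ℝ) / av f u - 1 / al f u) + (zt f u c - Real.exp (-THR.hh c f u)) * (1 / al f u) := by
    unfold THR.gg ya C4_X
    field_simp
    ring
  have h2 : |THR.gg c f u - ya c f u - C4_X c f u| ≤
      |(q : ℝ) / av f u - 1 / al f u| + |zt f u c - Real.exp (-THR.hh c f u)| * E := by
    rw [h1]
    refine (abs_add_le _ _).trans (add_le_add ?_ ?_)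
    · rw [abs_mul, abs_of_nonneg hz.1]
      exact mul_le_of_le_one_left (abs_nonneg _) hz.2
    · rw [abs_mul, abs_of_nonneg (by positivity : (0 : ℝ) ≤ 1 / al f u)]
      exact mul_le_mul_of_nonneg_left hinv' (abs_nonneg _)
  refine h2.trans ?_
  by_cases hB : C4_Bad δ f u
  · have h3 : ind (C4_Bad δ f u) = 1 := if_pos hB
    rw [h3, mul_one]
    have h4 : |(q : ℝ) / av f u - 1 / al f u| ≤ q + E := by
      have h5 : 0 ≤ (q : ℝ) / av f u := by positivity
      have h6 : (q : ℝ) / av f u ≤ q := div_le_self hq0.le hav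
      have h7 : 0 ≤ 1 / al f u := by positivity
      rw [abs_le]
      constructor <;> linarith
    have h5 := zt_exp' hf c u
    have h6 : |zt f u c - Real.exp (-THR.hh c f u)| * E ≤ 1 * E := mul_le_mul_of_nonneg_right h5 hE0.le
    have h7 : 0 ≤ δ * E / c1 e3 := by positivity
    have h8 : 0 ≤ E * 2000 / (c1 e3 ^ 2 * q) := by positivity
    linarith
  · have h3 : ind (C4_Bad δ f u) = 0 := if_neg hB
    rw [h3, mul_zero, add_zero]
    unfold C4_Bad at hB
    push Not at hB
    obtain ⟨⟨b1, b2⟩, b3⟩ := hB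
    have hreg : c1 e3 * q ≤ (av f u : ℝ) := b2
    refine add_le_add ?_ ?_
    · have h4 : (q : ℝ) / av f u - 1 / al f u = (al f u - (av f u : ℝ) / q) * ((q : ℝ) / av f u) * (1 / al f u) := by
        field_simp
      have h5 : (q : ℝ) / av f u ≤ 1 / c1 e3 := by
        rw [div_le_div_iff₀ hav0 hc1, one_mul, mul_comm]
        exact hreg
      rw [h4, abs_mul, abs_mul, abs_of_nonneg (by positivity : (0 : ℝ) ≤ (q : ℝ) / av f u),
        abs_of_nonneg (by positivity : (0 : ℝ) ≤ 1 / al f u), abs_sub_comm]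
      calc |(av f u : ℝ) / q - al f u| * ((q : ℝ) / av f u) * (1 / al f u) ≤ δ * (1 / c1 e3) * E := by
            refine mul_le_mul (mul_le_mul b1 h5 (by positivity) hδ) hinv' (by positivity) (by positivity)
        _ = δ * E / c1 e3 := by ring
    · have h4 := zt_exp (ε := e3) (by unfold e3; norm_num) hc hf c u b3
      have h5 : ra d q / (c1 e3 ^ 2 * q) ≤ 2000 / (c1 e3 ^ 2 * q) :=
        div_le_div_of_nonneg_right ha (by positivity)
      calc |zt f u c - Real.exp (-THR.hh c f u)| * E ≤ 2000 / (c1 e3 ^ 2 * q) * E :=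
            mul_le_mul_of_nonneg_right (h4.trans h5) hE0.le
        _ = E * 2000 / (c1 e3 ^ 2 * q) := by ring

end aux2

theorem gy_pt (s : ℕ) (hs : 20 ≤ s) (δ : ℝ) (hδ : 0 < δ) : SR fun _ _ q f v =>
    ∃ c : Fin q, δ < |PP^[s] (gg c f) v - PP^[s] (ya c f) v| := by
  set E : ℝ := Real.exp 2000 with hE
  have hE0 : 0 < E := Real.exp_pos _
  have hc1 : 0 < c1 e3 := by
    unfold c1
    positivity
  have he : 0 < e3 := by unfold e3; norm_num
  have he1 : e3 ≤ 1 := by unfold e3; norm_num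
  set θ : ℝ := δ / 3 with hθ
  have hθ0 : 0 < θ := by positivity
  set δ' : ℝ := θ * c1 e3 / E with hδ'
  have hδ0 : 0 < δ' := by positivity
  have hbad : SR fun _ _ q f v => C4_Bad (q := q) δ' f v :=
    ((av_pt δ' hδ0).or reg_pt).or reg_pt.nb
  refine ((C4_main s hs θ hθ0).or (hbad.avgs 2 s)).mono ?_
  refine ((EvT_reg he he1 (max 2 (max (2 / c1 e3) (2 * (E * 2000) / (c1 e3 ^ 2 * θ))))).and
    (EvT_d ((tendsto_natCast_atTop_atTop (R := ℝ)).eventually
      ((eventually_ge_atTop (4 / θ * (1 + E))).and (eventually_ge_atTop (1 : ℝ)))))).mono ?_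
  rintro d k q ⟨h4, h5, h6⟩ hR f hf v ⟨c, hc⟩
  have hq2 : max 2 (max (2 / c1 e3) (2 * (E * 2000) / (c1 e3 ^ 2 * θ))) ≤ (q : ℝ) := h4.2.1
  have hqa : (2 : ℝ) ≤ q := (le_max_left _ _).trans hq2
  have hqb : 2 / c1 e3 ≤ q := ((le_max_left _ _).trans (le_max_right _ _)).trans hq2
  have hqc : 2 * (E * 2000) / (c1 e3 ^ 2 * θ) ≤ q := ((le_max_right _ _).trans (le_max_right _ _)).trans hq2
  have hq : 1 ≤ q := by
    have : 2 ≤ q := by exact_mod_cast hqa
    omega
  have hq0 : (0 : ℝ) < q := by linarith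
  have hd : 1 ≤ d := by exact_mod_cast h6
  have hd0 : (0 : ℝ) < d := by linarith
  have hf' : Prp f := C4_prp hf
  obtain ⟨_, _, hra, _, _, hqd, _⟩ := rg_pos hd hR
  have hEr : Real.exp (ra d q) ≤ E := Real.exp_le_exp.2 hra
  by_contra hcon
  push Not at hcon
  obtain ⟨g1, g2⟩ := hcon
  have g1' := g1 c
  have g2' := g2 s le_rfl
  have h7 := C4_pw hq hqb δ' E hδ0.le hEr hra hf' c
  have h8 : PP^[s] (THR.gg c f) v - PP^[s] (ya c f) v =
      PP^[s] (C4_X c f) v + PP^[s] (fun u => THR.gg c f u - ya c f u - C4_X c f u) v := by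
    have e1 := PPt_sub s (fun u => THR.gg c f u - ya c f u) (C4_X c f) v
    have e2 := PPt_sub s (THR.gg c f) (ya c f) v
    rw [e1, e2]
    ring
  have h9 : |PP^[s] (fun u => THR.gg c f u - ya c f u - C4_X c f u) v| ≤
      (δ' * E / c1 e3 + E * 2000 / (c1 e3 ^ 2 * q)) + (q + 2 * E) * (1 / (d : ℝ) ^ 2) := by
    refine (PPt_abs s _ v).trans ((PPt_mono s h7 v).trans ?_)
    have e1 : PP^[s] (fun u => (δ' * E / c1 e3 + E * 2000 / (c1 e3 ^ 2 * q)) + (q + 2 * E) * ind (C4_Bad δ' f u)) v =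
        PP^[s] (fun _ => δ' * E / c1 e3 + E * 2000 / (c1 e3 ^ 2 * q)) v -
          PP^[s] (fun u => (-(q + 2 * E)) * ind (C4_Bad δ' f u)) v := by
      rw [← PPt_sub]
      exact congrArg (fun g : Site d k → ℝ => PP^[s] g v) (funext fun u => by ring)
    rw [e1, PPt_const hd, PPt_mul]
    have e2 : (q + 2 * E) * PP^[s] (fun u => ind (C4_Bad δ' f u)) v ≤ (q + 2 * E) * (1 / (d : ℝ) ^ 2) :=
      mul_le_mul_of_nonneg_left g2' (by positivity)
    linarith
  have h10 : δ' * E / c1 e3 = θ := by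
    rw [hδ']
    field_simp
  have h11 : E * 2000 / (c1 e3 ^ 2 * q) ≤ θ / 2 := by
    rw [div_le_div_iff₀ (by positivity) (by norm_num)]
    rw [div_le_iff₀ (by positivity)] at hqc
    nlinarith
  have h12 : (q + 2 * E) * (1 / (d : ℝ) ^ 2) ≤ θ / 2 := by
    have h13 : (q : ℝ) ≤ 2 * d := by
      have h14 : 0 ≤ e3 * (d : ℝ) := by positivity
      nlinarith
    have h15 : 4 * (1 + E) ≤ θ * d := by
      have h16 := h5
      rw [div_mul_eq_mul_div, div_le_iff₀ hθ0] at h16
      linarith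
    rw [mul_one_div, div_le_div_iff₀ (by positivity) (by norm_num)]
    nlinarith
  have h17 : |PP^[s] (THR.gg c f) v - PP^[s] (ya c f) v| ≤ θ + (θ + θ / 2 + θ / 2) := by
    rw [h8]
    refine (abs_add_le _ _).trans (add_le_add g1' (h9.trans ?_))
    rw [h10]
    linarith
  have h18 : δ < |PP^[s] (THR.gg c f) v - PP^[s] (ya c f) v| := hc
  have h19 : θ + (θ + θ / 2 + θ / 2) = δ := by
    rw [hθ]
    ring
  linarith

end Pool.Agent.LC

end

/-! ### from `Lib_MP_2c424f_lc1.T5` -/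

section

/-!
# LC1 T5: Bernstein's inequality for functions of the indicators of one colour

* `bern`: as `LIN.mcdiarmid` (L5: Doob averages over the coordinates one after the other), but the increment in the coordinate `i` is a centred two-valued variable:
  a function `X` on `t i` with `X a = X a'` for `a, a' ≠ c i`, `|X a - X a'| ≤ M i ≤ 1`, and the fraction of `c i` in `t i` is `≤ p i`:
  mean of `exp (X - mean X)` is `(1-π) e^{-πδ} + π e^{(1-π)δ} ≤ exp (π (e^δ - 1 - δ)) ≤ exp (p i * M i ^ 2)`, `π` the fraction, `δ` the difference, `|δ| ≤ 1`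
  (`log (1 + π (e^δ - 1)) ≤ π (e^δ - 1)`, `e^δ - 1 - δ ≤ δ²` for `|δ| ≤ 1`).  The averages over other coordinates keep both properties.
* `fm_bern`: `bern` for `± λ F` on the fibre, `M = λ M` on `W`, `0` elsewhere; Markov.
-/

set_option autoImplicit false

open Finset Filter

namespace Pool.Agent.LC

open Pool.Agent.LO Pool.Agent.LIN Pool.Agent.THR Pool.Agent.COR

section

variable {ι α : Type*} [DecidableEq ι]

private noncomputable def T5_avg (t : ι → Finset α) (i : ι) (G : (ι → α) → ℝ) (f : ι → α) : ℝ :=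
  (∑ a ∈ t i, G (Function.update f i a)) / (t i).card

private noncomputable def T5_S (t : ι → Finset α) : List ι → ((ι → α) → ℝ) → (ι → α) → ℝ
  | [], G => G
  | i :: l, G => T5_avg t i (T5_S t l G)

/-- one coordinate -/
private theorem T5_one (T : Finset α) (hT : T.Nonempty) (H : α → ℝ) (c : α) (M p : ℝ) (hM1 : M ≤ 1) (hp0 : 0 ≤ p)
    (hH : ∀ a ∈ T, ∀ b ∈ T, |H a - H b| ≤ M) (hc : ∀ a ∈ T, ∀ b ∈ T, a ≠ c → b ≠ c → H a = H b)
    (hp : 0 < M → c ∈ T → 1 / (T.card : ℝ) ≤ p) :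
    (∑ a ∈ T, Real.exp (H a)) / T.card ≤ Real.exp ((∑ a ∈ T, H a) / T.card + p * M ^ 2) := by
  classical
  have hT0 : (0 : ℝ) < T.card := by exact_mod_cast hT.card_pos
  have hM0 : 0 ≤ M := by
    obtain ⟨a, ha⟩ := hT
    exact (abs_nonneg _).trans (hH a ha a ha)
  have hconst : (∀ a ∈ T, ∀ b ∈ T, H a = H b) →
      (∑ a ∈ T, Real.exp (H a)) / T.card ≤ Real.exp ((∑ a ∈ T, H a) / T.card + p * M ^ 2) := by
    intro h
    obtain ⟨b, hb⟩ := hT
    have h1 : ∑ a ∈ T, Real.exp (H a) = T.card * Real.exp (H b) := by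
      rw [Finset.sum_congr rfl fun a ha => by rw [h a ha b hb], Finset.sum_const, nsmul_eq_mul]
    have h2 : ∑ a ∈ T, H a = T.card * H b := by
      rw [Finset.sum_congr rfl fun a ha => h a ha b hb, Finset.sum_const, nsmul_eq_mul]
    rw [h1, h2, mul_div_cancel_left₀ _ hT0.ne', mul_div_cancel_left₀ _ hT0.ne']
    exact Real.exp_le_exp.2 (le_add_of_nonneg_right (by positivity))
  by_cases hcT : c ∈ T
  · by_cases hMz : 0 < M
    · by_cases hex : ∃ b ∈ T, b ≠ c
      · obtain ⟨b, hb, hbc⟩ := hex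
        set β : ℝ := H b with hβ
        set δ : ℝ := H c - β with hδ
        set π : ℝ := 1 / (T.card : ℝ) with hπ
        have hπ0 : 0 ≤ π := by positivity
        have hoff : ∀ a ∈ T.erase c, H a = β := by
          intro a ha
          rw [Finset.mem_erase] at ha
          exact hc a ha.2 b hb ha.1 hbc
        have hcard : ((T.erase c).card : ℝ) = T.card - 1 := by
          rw [Finset.card_erase_of_mem hcT, Nat.cast_sub hT.card_pos]
          simp
        have h1 : ∑ a ∈ T, Real.exp (H a) = T.card * (Real.exp β * (1 + π * (Real.exp δ - 1))) := by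
          rw [← Finset.add_sum_erase T _ hcT, Finset.sum_congr rfl fun a ha => by rw [hoff a ha],
            Finset.sum_const, nsmul_eq_mul, hcard]
          have h2 : Real.exp (H c) = Real.exp β * Real.exp δ := by
            rw [← Real.exp_add, hδ]
            congr 1
            ring
          rw [h2, hπ]
          field_simp
          ring
        have h2 : ∑ a ∈ T, H a = T.card * (β + π * δ) := by
          rw [← Finset.add_sum_erase T _ hcT, Finset.sum_congr rfl fun a ha => hoff a ha,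
            Finset.sum_const, nsmul_eq_mul, hcard, hπ, hδ]
          field_simp
          ring
        rw [h1, h2, mul_div_cancel_left₀ _ hT0.ne', mul_div_cancel_left₀ _ hT0.ne']
        have h3 : |δ| ≤ M := hH c hcT b hb
        have h4 : Real.exp δ - 1 ≤ δ + δ ^ 2 := by
          have := (abs_le.1 (Real.abs_exp_sub_one_sub_id_le (h3.trans hM1))).2
          linarith
        have h5 : δ ^ 2 ≤ M ^ 2 := by
          rw [← sq_abs δ]
          exact pow_le_pow_left₀ (abs_nonneg _) h3 2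
        have h6 : π * δ ^ 2 ≤ p * M ^ 2 :=
          mul_le_mul (hp hMz hcT) h5 (sq_nonneg _) hp0
        calc Real.exp β * (1 + π * (Real.exp δ - 1)) ≤ Real.exp β * Real.exp (π * (Real.exp δ - 1)) := by
              refine mul_le_mul_of_nonneg_left ?_ (Real.exp_pos _).le
              have := Real.add_one_le_exp (π * (Real.exp δ - 1))
              linarith
          _ = Real.exp (β + π * (Real.exp δ - 1)) := (Real.exp_add _ _).symm
          _ ≤ Real.exp (β + π * δ + p * M ^ 2) := by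
              refine Real.exp_le_exp.2 ?_
              have h7 : π * (Real.exp δ - 1) ≤ π * (δ + δ ^ 2) := mul_le_mul_of_nonneg_left h4 hπ0
              linarith
      · refine hconst fun a ha b hb => ?_
        have h1 : ∀ x ∈ T, x = c := by
          intro x hx
          by_contra hxc
          exact hex ⟨x, hx, hxc⟩
        rw [h1 a ha, h1 b hb]
    · refine hconst fun a ha b hb => ?_
      have h1 := (hH a ha b hb).trans (not_lt.1 hMz)
      have h2 := abs_nonpos_iff.1 h1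
      linarith
  · refine hconst fun a ha b hb => ?_
    exact hc a ha b hb (fun h => hcT (h ▸ ha)) (fun h => hcT (h ▸ hb))

private theorem T5_inv (t : ι → Finset α) (G : (ι → α) → ℝ) :
    ∀ (l : List ι) (i : ι), i ∈ l → ∀ (f : ι → α) (a : α),
      T5_S t l G (Function.update f i a) = T5_S t l G f
  | [], i, hi, f, a => by simp at hi
  | j :: l, i, hi, f, a => by
    change T5_avg t j (T5_S t l G) (Function.update f i a) = T5_avg t j (T5_S t l G) f
    unfold T5_avg
    by_cases hij : i = j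
    · subst hij
      simp only [Function.update_idem]
    · have hi' : i ∈ l := by
        rcases List.mem_cons.1 hi with h | h
        · exact absurd h hij
        · exact h
      congr 1
      refine Finset.sum_congr rfl fun b _ => ?_
      rw [Function.update_comm hij, T5_inv t G l i hi']

private theorem T5_const [Fintype ι] (S : (ι → α) → ℝ)
    (h : ∀ i f a, S (Function.update f i a) = S f) (f g : ι → α) : S g = S f := by
  have key : ∀ s : Finset ι, S (fun i => if i ∈ s then g i else f i) = S f := by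
    intro s
    induction s using Finset.induction_on with
    | empty => simp
    | insert a s ha ih =>
      have h1 : (fun i => if i ∈ insert a s then g i else f i) =
          Function.update (fun i => if i ∈ s then g i else f i) a (g a) := by
        funext i
        by_cases hi : i = a
        · subst hi
          simp
        · simp [hi]
      rw [h1, h, ih]
  have h2 := key univ
  simpa using h2

private theorem T5_mem [Fintype ι] [DecidableEq α] (t : ι → Finset α) {f : ι → α}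
    (hf : f ∈ Fintype.piFinset t) {i : ι} {a : α} (ha : a ∈ t i) :
    Function.update f i a ∈ Fintype.piFinset t := by
  rw [Fintype.mem_piFinset] at hf ⊢
  intro j
  by_cases h : j = i
  · subst h
    rwa [Function.update_self]
  · rw [Function.update_of_ne h]
    exact hf j

private theorem T5_sum1 [Fintype ι] [DecidableEq α] (t : ι → Finset α) (ht : ∀ i, (t i).Nonempty)
    (i : ι) (G : (ι → α) → ℝ) :
    ∑ f ∈ Fintype.piFinset t, T5_avg t i G f = ∑ f ∈ Fintype.piFinset t, G f := by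
  have hT0 : (0 : ℝ) < (t i).card := by exact_mod_cast (ht i).card_pos
  have h1 : ∑ f ∈ Fintype.piFinset t, ∑ a ∈ t i, G (Function.update f i a) =
      ∑ f ∈ Fintype.piFinset t, ∑ a ∈ t i, G f := by
    rw [← Finset.sum_product', ← Finset.sum_product']
    refine Finset.sum_nbij' (fun p => (Function.update p.1 i p.2, p.1 i))
      (fun p => (Function.update p.1 i p.2, p.1 i)) ?_ ?_ ?_ ?_ ?_
    · rintro ⟨f, a⟩ hp
      rw [Finset.mem_product] at hp ⊢
      exact ⟨T5_mem t hp.1 hp.2, (Fintype.mem_piFinset.1 hp.1) i⟩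
    · rintro ⟨f, a⟩ hp
      rw [Finset.mem_product] at hp ⊢
      exact ⟨T5_mem t hp.1 hp.2, (Fintype.mem_piFinset.1 hp.1) i⟩
    · rintro ⟨f, a⟩ _
      simp
    · rintro ⟨f, a⟩ _
      simp
    · rintro ⟨f, a⟩ _
      rfl
  unfold T5_avg
  rw [← Finset.sum_div, h1]
  simp only [Finset.sum_const, nsmul_eq_mul]
  rw [← Finset.mul_sum, mul_div_cancel_left₀ _ hT0.ne']

end

theorem bern {ι α : Type*} [Fintype ι] [DecidableEq ι] [DecidableEq α] (t : ι → Finset α)
    (ht : ∀ i, (t i).Nonempty) (F : (ι → α) → ℝ) (c : ι → α) (M p : ι → ℝ) (hM : ∀ i, 0 ≤ M i) (hM1 : ∀ i, M i ≤ 1)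
    (hF : ∀ f ∈ Fintype.piFinset t, ∀ i, ∀ a ∈ t i, |F (Function.update f i a) - F f| ≤ M i)
    (hc : ∀ f ∈ Fintype.piFinset t, ∀ i, ∀ a ∈ t i, ∀ a' ∈ t i, a ≠ c i → a' ≠ c i →
      F (Function.update f i a) = F (Function.update f i a'))
    (hp : ∀ i, 0 < M i → c i ∈ t i → 1 / ((t i).card : ℝ) ≤ p i) (hp0 : ∀ i, 0 ≤ p i) :
    ∑ f ∈ Fintype.piFinset t, Real.exp (F f) ≤
      ((Fintype.piFinset t).card : ℝ) * Real.exp ((∑ f ∈ Fintype.piFinset t, F f) /
        ((Fintype.piFinset t).card : ℝ) + ∑ i, p i * M i ^ 2) := by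

  have hdiff : ∀ (l : List ι), ∀ f ∈ Fintype.piFinset t, ∀ i ∉ l, ∀ a ∈ t i,
      |T5_S t l F (Function.update f i a) - T5_S t l F f| ≤ M i := by
    intro l
    induction l with
    | nil => exact fun f hf i _ a ha => hF f hf i a ha
    | cons j l ih =>
      intro f hf i hi a ha
      rw [List.mem_cons, not_or] at hi
      have hT0 : (0 : ℝ) < (t j).card := by exact_mod_cast (ht j).card_pos
      change |T5_avg t j (T5_S t l F) (Function.update f i a) - T5_avg t j (T5_S t l F) f| ≤ M i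
      unfold T5_avg
      rw [← sub_div, ← Finset.sum_sub_distrib, abs_div, abs_of_pos hT0, div_le_iff₀ hT0]
      refine (Finset.abs_sum_le_sum_abs _ _).trans ?_
      refine (Finset.sum_le_sum (g := fun _ => M i) fun b hb => ?_).trans ?_
      · rw [Function.update_comm hi.1]
        exact ih _ (T5_mem t hf hb) i hi.2 a ha
      · rw [Finset.sum_const, nsmul_eq_mul, mul_comm]
  have hcst : ∀ (l : List ι), ∀ f ∈ Fintype.piFinset t, ∀ i ∉ l, ∀ a ∈ t i, ∀ a' ∈ t i, a ≠ c i → a' ≠ c i →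
      T5_S t l F (Function.update f i a) = T5_S t l F (Function.update f i a') := by
    intro l
    induction l with
    | nil => exact fun f hf i _ a ha a' ha' h1 h2 => hc f hf i a ha a' ha' h1 h2
    | cons j l ih =>
      intro f hf i hi a ha a' ha' h1 h2
      rw [List.mem_cons, not_or] at hi
      change T5_avg t j (T5_S t l F) (Function.update f i a) = T5_avg t j (T5_S t l F) (Function.update f i a')
      unfold T5_avg
      congr 1
      refine Finset.sum_congr rfl fun b hb => ?_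
      rw [Function.update_comm hi.1, Function.update_comm hi.1]
      exact ih _ (T5_mem t hf hb) i hi.2 a ha a' ha' h1 h2
  have hexp : ∀ (l : List ι), l.Nodup → ∀ f ∈ Fintype.piFinset t,
      T5_S t l (fun g => Real.exp (F g)) f ≤
        Real.exp (T5_S t l F f + (l.map fun i => p i * M i ^ 2).sum) := by
    intro l
    induction l with
    | nil =>
      intro _ f _
      simp [T5_S]
    | cons j l ih =>
      intro hl f hf
      rw [List.nodup_cons] at hl
      have hT0 : (0 : ℝ) < (t j).card := by exact_mod_cast (ht j).card_pos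
      change (∑ a ∈ t j, T5_S t l (fun g => Real.exp (F g)) (Function.update f j a)) / (t j).card ≤
        Real.exp ((∑ a ∈ t j, T5_S t l F (Function.update f j a)) / (t j).card + _)
      have h1 : (∑ a ∈ t j, T5_S t l (fun g => Real.exp (F g)) (Function.update f j a)) ≤
          (∑ a ∈ t j, Real.exp (T5_S t l F (Function.update f j a))) *
            Real.exp ((l.map fun i => p i * M i ^ 2).sum) := by
        rw [Finset.sum_mul]
        refine Finset.sum_le_sum fun a ha => ?_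
        rw [← Real.exp_add]
        exact ih hl.2 _ (T5_mem t hf ha)
      have h2 := T5_one (t j) (ht j) (fun a => T5_S t l F (Function.update f j a)) (c j) (M j) (p j) (hM1 j) (hp0 j) (by
        intro a ha b hb
        have h3 := hdiff l (Function.update f j b) (T5_mem t hf hb) j hl.1 a ha
        rwa [Function.update_idem] at h3) (by
        intro a ha b hb hac hbc
        exact hcst l f hf j hl.1 a ha b hb hac hbc) (hp j)
      rw [List.map_cons, List.sum_cons, ← add_assoc, Real.exp_add]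
      calc _ ≤ (∑ a ∈ t j, Real.exp (T5_S t l F (Function.update f j a))) *
            Real.exp ((l.map fun i => p i * M i ^ 2).sum) / (t j).card :=
            div_le_div_of_nonneg_right h1 hT0.le
        _ = (∑ a ∈ t j, Real.exp (T5_S t l F (Function.update f j a))) / (t j).card *
            Real.exp ((l.map fun i => p i * M i ^ 2).sum) := by ring
        _ ≤ _ := mul_le_mul_of_nonneg_right h2 (Real.exp_pos _).le
  have hsum : ∀ (l : List ι) (G : (ι → α) → ℝ),
      ∑ f ∈ Fintype.piFinset t, T5_S t l G f = ∑ f ∈ Fintype.piFinset t, G f := by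
    intro l
    induction l with
    | nil => exact fun G => rfl
    | cons j l ih => exact fun G => (T5_sum1 t ht j _).trans (ih G)
  obtain ⟨f₀, hf₀⟩ : (Fintype.piFinset t).Nonempty := Fintype.piFinset_nonempty.2 ht
  have hcard : (0 : ℝ) < (Fintype.piFinset t).card := by exact_mod_cast Finset.card_pos.2 ⟨f₀, hf₀⟩
  have hval : ∀ G : (ι → α) → ℝ, ∑ f ∈ Fintype.piFinset t, G f =
      ((Fintype.piFinset t).card : ℝ) * T5_S t (univ : Finset ι).toList G f₀ := by
    intro G
    rw [← hsum (univ : Finset ι).toList G]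
    have h1 : ∀ f, T5_S t (univ : Finset ι).toList G f = T5_S t (univ : Finset ι).toList G f₀ :=
      fun f => T5_const _ (fun i g a => T5_inv t G _ i (by simp) g a) f₀ f
    simp only [h1, Finset.sum_const, nsmul_eq_mul]
  have h1 := hexp (univ : Finset ι).toList (Finset.nodup_toList _) f₀ hf₀
  rw [hval (fun f => Real.exp (F f)), hval F, mul_div_cancel_left₀ _ hcard.ne']
  refine mul_le_mul_of_nonneg_left ?_ hcard.le
  rwa [← Multiset.sum_coe, ← Multiset.map_coe, Finset.coe_toList] at h1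

variable {d k q : ℕ}

private theorem T5_mcd (b : Bool) {f : Site d k → Fin q} (hf : Prp f) (c : Fin q)
    (F : (Site d k → Fin q) → ℝ) (W : Finset (Site d k)) (M p : ℝ) (hM : 0 ≤ M) (hM1 : M ≤ 1) (hp0 : 0 ≤ p)
    (h0 : ∀ h ∈ fib b f, ∀ v ∈ cls b d k, v ∉ W → ∀ γ, γ ∉ SS f v → F (Function.update h v γ) = F h)
    (h1 : ∀ h ∈ fib b f, ∀ v ∈ cls b d k, v ∈ W → ∀ γ, γ ∉ SS f v → |F (Function.update h v γ) - F h| ≤ M)
    (h2 : ∀ h ∈ fib b f, ∀ v ∈ cls b d k, ∀ γ γ', γ ∉ SS f v → γ' ∉ SS f v → γ ≠ c → γ' ≠ c →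
      F (Function.update h v γ) = F (Function.update h v γ'))
    (hp : ∀ v ∈ cls b d k, v ∈ W → 1 / (av f v : ℝ) ≤ p) :
    fm b (fun h => Real.exp (F h)) f ≤ Real.exp (fm b F f + p * M ^ 2 * W.card) := by
  classical
  have hself := fib_self b hf
  set t : Site d k → Finset (Fin q) := fun x => if x ∈ cls b d k then (SS f x)ᶜ else {f x} with ht
  have hfib : fib b f = Fintype.piFinset t := by
    unfold fib
    rw [ht]
  have htne : ∀ i, (t i).Nonempty := fun i =>
    ⟨f i, Fintype.mem_piFinset.1 (hfib ▸ hself) i⟩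
  have hton : ∀ i, i ∈ cls b d k → ∀ a, a ∈ t i → a ∉ SS f i := by
    intro i hi a ha
    rw [ht] at ha
    dsimp only at ha
    rw [if_pos hi] at ha
    exact Finset.mem_compl.1 ha
  have htoff : ∀ i, i ∉ cls b d k → ∀ h ∈ Fintype.piFinset t, ∀ a ∈ t i, Function.update h i a = h := by
    intro i hi h hh a ha
    have hti : t i = {f i} := by
      rw [ht]
      dsimp only
      rw [if_neg hi]
    have h1 : a = f i := by
      rw [hti] at ha
      exact Finset.mem_singleton.1 ha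
    have h2 : h i = f i := by
      have := Fintype.mem_piFinset.1 hh i
      rw [hti] at this
      exact Finset.mem_singleton.1 this
    rw [h1, ← h2, Function.update_eq_self]
  have hb := bern t htne F (fun _ => c) (fun v => if v ∈ cls b d k ∧ v ∈ W then M else 0) (fun _ => p)
    (fun i => by
      split_ifs
      · exact hM
      · exact le_rfl)
    (fun i => by
      split_ifs
      · exact hM1
      · exact zero_le_one)
    (by
      intro h hh i a ha
      by_cases hi : i ∈ cls b d k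
      · by_cases hw : i ∈ W
        · rw [if_pos ⟨hi, hw⟩]
          exact h1 h (hfib ▸ hh) i hi hw a (hton i hi a ha)
        · rw [if_neg fun e => hw e.2, h0 h (hfib ▸ hh) i hi hw a (hton i hi a ha), sub_self, abs_zero]
      · rw [if_neg fun e => hi e.1, htoff i hi h hh a ha, sub_self, abs_zero])
    (by
      intro h hh i a ha a' ha' hac hac'
      by_cases hi : i ∈ cls b d k
      · exact h2 h (hfib ▸ hh) i hi a a' (hton i hi a ha) (hton i hi a' ha') hac hac'
      · rw [htoff i hi h hh a ha, htoff i hi h hh a' ha'])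
    (by
      intro i hi _
      by_cases hiw : i ∈ cls b d k ∧ i ∈ W
      · have h3 := hp i hiw.1 hiw.2
        have h4 : (t i).card = av f i := by
          rw [ht]
          dsimp only
          rw [if_pos hiw.1, Finset.card_compl, Fintype.card_fin]
          rfl
        rw [h4]
        exact h3
      · exfalso
        rw [if_neg hiw] at hi
        exact lt_irrefl _ hi)
    (fun _ => hp0)
  have hcard : 0 < ((Fintype.piFinset t).card : ℝ) := by
    rw [← hfib]
    exact_mod_cast Finset.card_pos.2 ⟨f, hself⟩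
  have hsum : ∑ i, p * (if i ∈ cls b d k ∧ i ∈ W then M else 0) ^ 2 ≤ p * M ^ 2 * W.card := by
    have h3 : ∀ i, p * (if i ∈ cls b d k ∧ i ∈ W then M else 0) ^ 2 ≤ if i ∈ W then p * M ^ 2 else 0 := by
      intro i
      by_cases hw : i ∈ W
      · rw [if_pos hw]
        split_ifs
        · exact le_rfl
        · rw [zero_pow two_ne_zero, mul_zero]
          positivity
      · rw [if_neg hw, if_neg fun e => hw e.2, zero_pow two_ne_zero, mul_zero]
    refine (Finset.sum_le_sum fun i _ => h3 i).trans ?_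
    rw [Finset.sum_ite_mem, Finset.univ_inter, Finset.sum_const, nsmul_eq_mul, mul_comm]
  unfold fm
  rw [hfib, div_le_iff₀ hcard, mul_comm]
  refine hb.trans ?_
  refine mul_le_mul_of_nonneg_left ?_ hcard.le
  refine Real.exp_le_exp.2 ?_
  linarith

private theorem T5_exp (b : Bool) {f : Site d k → Fin q} (hf : Prp f) (c : Fin q) (F : (Site d k → Fin q) → ℝ)
    (W : Finset (Site d k)) (M p lam s : ℝ) (hM : 0 ≤ M) (hp0 : 0 ≤ p) (hs : |s| = lam) (hlM : lam * M ≤ 1)
    (h0 : ∀ h ∈ fib b f, ∀ v ∈ cls b d k, v ∉ W → ∀ γ, γ ∉ SS f v → F (Function.update h v γ) = F h)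
    (h1 : ∀ h ∈ fib b f, ∀ v ∈ cls b d k, v ∈ W → ∀ γ, γ ∉ SS f v → |F (Function.update h v γ) - F h| ≤ M)
    (h2 : ∀ h ∈ fib b f, ∀ v ∈ cls b d k, ∀ γ γ', γ ∉ SS f v → γ' ∉ SS f v → γ ≠ c → γ' ≠ c →
      F (Function.update h v γ) = F (Function.update h v γ'))
    (hp : ∀ v ∈ cls b d k, v ∈ W → 1 / (av f v : ℝ) ≤ p) :
    fm b (fun h => Real.exp (s * (F h - fm b F f))) f ≤ Real.exp (lam ^ 2 * M ^ 2 * p * W.card) := by
  have hl0 : 0 ≤ lam := by
    rw [← hs]
    exact abs_nonneg s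
  have h3 := T5_mcd b hf c (fun h => s * (F h - fm b F f)) W (lam * M) p (mul_nonneg hl0 hM) hlM hp0
    (by
      intro g hg v hv hw γ hγ
      rw [h0 g hg v hv hw γ hγ])
    (by
      intro g hg v hv hw γ hγ
      have h4 : s * (F (Function.update g v γ) - fm b F f) - s * (F g - fm b F f) =
          s * (F (Function.update g v γ) - F g) := by ring
      rw [h4, abs_mul, hs]
      exact mul_le_mul_of_nonneg_left (h1 g hg v hv hw γ hγ) hl0)
    (by
      intro g hg v hv γ γ' hγ hγ' hc hc'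
      rw [h2 g hg v hv γ γ' hγ hγ' hc hc'])
    hp
  rw [fm_mul, fm_sub, fm_const b hf, sub_self, mul_zero, zero_add] at h3
  refine h3.trans (Real.exp_le_exp.2 (le_of_eq ?_))
  ring

private theorem T5_point (lam θ x : ℝ) (hl : 0 ≤ lam) :
    ind (θ ≤ |x|) ≤ Real.exp (-(lam * θ)) * (Real.exp (lam * x) + Real.exp (-lam * x)) := by
  unfold ind
  split_ifs with h
  · rw [mul_add, ← Real.exp_add, ← Real.exp_add]
    rcases le_total 0 x with hx | hx
    · rw [abs_of_nonneg hx] at h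
      have h1 : 0 ≤ -(lam * θ) + lam * x := by nlinarith
      have h2 := Real.one_le_exp h1
      have h3 := Real.exp_pos (-(lam * θ) + -lam * x)
      linarith
    · rw [abs_of_nonpos hx] at h
      have h1 : 0 ≤ -(lam * θ) + -lam * x := by nlinarith
      have h2 := Real.one_le_exp h1
      have h3 := Real.exp_pos (-(lam * θ) + lam * x)
      linarith
  · positivity

theorem fm_bern (hk : 2 ≤ k) (b : Bool) {f : Site d k → Fin q} (hf : Prp f) (c : Fin q) (F : (Site d k → Fin q) → ℝ)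
    (W : Finset (Site d k)) (M p lam θ : ℝ) (hM : 0 ≤ M) (hp0 : 0 ≤ p) (hl : 0 ≤ lam) (hlM : lam * M ≤ 1)
    (h0 : ∀ h ∈ fib b f, ∀ v ∈ cls b d k, v ∉ W → ∀ γ, γ ∉ SS f v → F (Function.update h v γ) = F h)
    (h1 : ∀ h ∈ fib b f, ∀ v ∈ cls b d k, v ∈ W → ∀ γ, γ ∉ SS f v → |F (Function.update h v γ) - F h| ≤ M)
    (h2 : ∀ h ∈ fib b f, ∀ v ∈ cls b d k, ∀ γ γ', γ ∉ SS f v → γ' ∉ SS f v → γ ≠ c → γ' ≠ c →
      F (Function.update h v γ) = F (Function.update h v γ'))
    (hp : ∀ v ∈ cls b d k, v ∈ W → 1 / (av f v : ℝ) ≤ p) :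
    fm b (fun h => ind (θ ≤ |F h - fm b F f|)) f ≤ 2 * Real.exp (-(lam * θ) + lam ^ 2 * M ^ 2 * p * W.card) := by
  have _ := hk
  have e1 := T5_exp b hf c F W M p lam lam hM hp0 (abs_of_nonneg hl) hlM h0 h1 h2 hp
  have e2 := T5_exp b hf c F W M p lam (-lam) hM hp0 (by rw [abs_neg, abs_of_nonneg hl]) hlM h0 h1 h2 hp
  have e3 : fm b (fun h => ind (θ ≤ |F h - fm b F f|)) f ≤
      fm b (fun h => Real.exp (-(lam * θ)) * (Real.exp (lam * (F h - fm b F f)) +
        Real.exp (-lam * (F h - fm b F f)))) f :=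
    fm_mono b hf fun g _ => T5_point lam θ _ hl
  rw [fm_mul, fm_add] at e3
  refine e3.trans ?_
  rw [Real.exp_add]
  have e4 := mul_le_mul_of_nonneg_left (add_le_add e1 e2) (Real.exp_pos (-(lam * θ))).le
  refine e4.trans (le_of_eq ?_)
  ring

end Pool.Agent.LC

end

/-! ### from `Lib_MP_2c424f_lc1.C2` -/

section

/-!
# LC1 C2: `hc` with `av` replaced by `q al`

`F c f v := ∑_σ zc f (v+σ) v c / (q al f (v+σ))`.  Claim: `SR (∃ c, δ < |F - a PP (ya c f) v|)`.
`SR_local` with `o = true` (`v ∈ cls b`, resample the class `b`; `al f x`, `hh c f x`, `ya` for `x ~ v` (class `!b`) depend on `av, zz` at the sites `w` of the class `b`, i.e. on `f` on the class `!b`: do not change,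
THR M1 `loc_fib` with `!b`), `R f v :=` all sites `v + σ + τ` are regular (does not change either; includes `w = v`).  Radius 3.
Mean of `F`: the sites `w ~ x`, `w ≠ v` are independent (`fm_prod` / LIN): `∏_{w ~ x, w ≠ v} (1 - z_w/x_w)`, compared with `e^{-hh c f x}`: `zt f x c = (1 - z_v/x_v) ∏ ..`, `z_v/x_v ≤ 1/(c1 q)`,
`|zt f x c - e^{-hh}| ≤ a/(c1² q)` (`zt_exp`); so `|mean F - a PP (ya c f) v| ≤ 2d C e^a/(q²) ≤ δ/2`, as `a PP (ya c f) v = (1/q) ∑_σ e^{-hh}/al`.
`fm_bern` for `F` (it depends on the indicators of `c` at the sites `w = v + σ + τ ≠ v`, at most `4d²`; a site `w ≠ v` has at most two common neighbours with `v` (`k ≥ 3`), so `M = 2e^a/q`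
(`al ≥ e^{-a}`), `p = 1/(c1 q)`), `lam = s q`, `s` small constant: `-(lam δ/2) + lam² M² p 4d² ≤ -c q`; union over `c`.
-/

set_option autoImplicit false

open Finset Filter

namespace Pool.Agent.LC

open Pool.Agent.LO Pool.Agent.LIN Pool.Agent.THR Pool.Agent.COR

section
variable {d k q : ℕ}

private theorem C2_zc (f : Site d k → Fin q) (x v : Site d k) (c : Fin q) :
    zc f x v c = ∏ u ∈ (univ.image fun σ : Stp d => x + sv σ).erase v, (if f u = c then (0 : ℝ) else 1) := by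
  unfold zc
  split_ifs with h
  · symm
    refine prod_eq_one fun u hu => ?_
    obtain ⟨huv, hu⟩ := mem_erase.1 hu
    obtain ⟨σ, -, rfl⟩ := mem_image.1 hu
    exact if_neg (h σ huv)
  · push Not at h
    obtain ⟨τ, h1, h2⟩ := h
    have h3 : x + sv τ ∈ (univ.image fun σ : Stp d => x + sv σ).erase v :=
      mem_erase.2 ⟨h1, mem_image.2 ⟨τ, mem_univ _, rfl⟩⟩
    symm
    apply Finset.prod_eq_zero h3
    exact if_pos h2

private theorem C2_upd (h : Site d k → Fin q) (x v u : Site d k) (γ c : Fin q)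
    (hu : ∀ τ : Stp d, x + sv τ = u → u = v) :
    zc (Function.update h u γ) x v c = zc h x v c := by
  have h1 : (∀ τ : Stp d, x + sv τ ≠ v → Function.update h u γ (x + sv τ) ≠ c) ↔
      (∀ τ : Stp d, x + sv τ ≠ v → h (x + sv τ) ≠ c) := by
    refine forall_congr' fun τ => forall_congr' fun hτ => ?_
    rw [Function.update_of_ne]
    intro h2
    exact hτ (h2.trans (hu τ h2))
  unfold zc
  exact if_congr h1 rfl rfl

private theorem C2_upd2 (h : Site d k → Fin q) (x v u : Site d k) (γ γ' c : Fin q) (hγ : γ ≠ c) (hγ' : γ' ≠ c) :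
    zc (Function.update h u γ) x v c = zc (Function.update h u γ') x v c := by
  have h1 : (∀ τ : Stp d, x + sv τ ≠ v → Function.update h u γ (x + sv τ) ≠ c) ↔
      (∀ τ : Stp d, x + sv τ ≠ v → Function.update h u γ' (x + sv τ) ≠ c) := by
    refine forall_congr' fun τ => forall_congr' fun hτ => ?_
    by_cases h2 : x + sv τ = u
    · rw [h2, Function.update_self, Function.update_self]
      exact iff_of_true hγ hγ'
    · rw [Function.update_of_ne h2, Function.update_of_ne h2]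
  unfold zc
  exact if_congr h1 rfl rfl

private theorem C2_abs (h h' : Site d k → Fin q) (x v : Site d k) (c : Fin q) :
    |zc h x v c - zc h' x v c| ≤ 1 := by
  rcases zc_01 h x v c with h1 | h1 <;> rcases zc_01 h' x v c with h2 | h2 <;> rw [h1, h2] <;> norm_num

private theorem C2_al {f : Site d k → Fin q} (hf : Prp f) (hq : 1 ≤ q) (x : Site d k) (A : ℝ) (hA : ra d q ≤ A) :
    0 < (q : ℝ) * al f x ∧ 1 / ((q : ℝ) * al f x) ≤ Real.exp A / q := by
  have hq' : (0 : ℝ) < q := by exact_mod_cast hq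
  have h1 := al_ge hq hf x
  have h2 : 0 < al f x := lt_of_lt_of_le (Real.exp_pos _) h1
  refine ⟨mul_pos hq' h2, ?_⟩
  rw [div_le_div_iff₀ (mul_pos hq' h2) hq']
  have h3 : Real.exp (-A) ≤ al f x := le_trans (Real.exp_le_exp.2 (by linarith)) h1
  have h4 : 1 ≤ Real.exp A * al f x := by
    calc (1 : ℝ) = Real.exp A * Real.exp (-A) := by rw [← Real.exp_add, add_neg_cancel, Real.exp_zero]
      _ ≤ _ := mul_le_mul_of_nonneg_left h3 (Real.exp_nonneg _)
  nlinarith

private theorem C2_cmn (hk : 3 ≤ k) (v u : Site d k) (huv : u ≠ v) :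
    (univ.filter fun σ : Stp d => ∃ τ : Stp d, v + sv σ + sv τ = u).card ≤ 2 := by
  refine le_trans ?_ (cmn_card hk v u (Ne.symm huv))
  refine card_le_card_of_injOn (fun σ => v + sv σ) ?_ ?_
  · intro σ hσ
    obtain ⟨τ, hτ⟩ := (mem_filter.1 (mem_coe.1 hσ)).2
    refine mem_coe.2 (mem_inter.2 ⟨mem_image_of_mem _ (mem_univ σ), mem_image.2 ⟨(τ.1, !τ.2), mem_univ _, ?_⟩⟩)
    have h5 : (sv τ : Site d k) + sv (τ.1, !τ.2) = 0 := sv_opp τ.1 τ.2
    show u + sv (τ.1, !τ.2) = v + sv σ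
    rw [← hτ, add_assoc, h5, add_zero]
  · intro σ _ σ' _ h
    exact sv_inj (by omega) (add_left_cancel h)

private theorem C2_lip (hk : 3 ≤ k) (hq : 1 ≤ q) {f : Site d k → Fin q} (hf : Prp f) (h : Site d k → Fin q)
    (v u : Site d k) (huv : u ≠ v) (γ c : Fin q) (A : ℝ) (hA : ra d q ≤ A) :
    |∑ σ : Stp d, zc (Function.update h u γ) (v + sv σ) v c / (q * al f (v + sv σ)) -
      ∑ σ : Stp d, zc h (v + sv σ) v c / (q * al f (v + sv σ))| ≤ 2 * (Real.exp A / q) := by
  rw [← sum_sub_distrib]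
  refine (abs_sum_le_sum_abs _ _).trans ?_
  have h1 : ∀ σ ∈ (univ : Finset (Stp d)), |zc (Function.update h u γ) (v + sv σ) v c / (q * al f (v + sv σ)) -
      zc h (v + sv σ) v c / (q * al f (v + sv σ))| ≤
      if ∃ τ : Stp d, v + sv σ + sv τ = u then Real.exp A / q else 0 := by
    intro σ _
    obtain ⟨h2, h3⟩ := C2_al hf hq (v + sv σ) A hA
    split_ifs with h4
    · rw [← sub_div, abs_div, abs_of_pos h2]
      refine le_trans ?_ h3
      exact div_le_div_of_nonneg_right (C2_abs _ _ _ _ _) h2.le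
    · rw [C2_upd h (v + sv σ) v u γ c fun τ hτ => absurd ⟨τ, hτ⟩ h4, sub_self, abs_zero]
  refine (sum_le_sum h1).trans ?_
  rw [← sum_filter, sum_const, nsmul_eq_mul]
  refine mul_le_mul_of_nonneg_right ?_ (by positivity)
  exact_mod_cast C2_cmn hk v u huv

private theorem C2_prod (s : Finset (Site d k)) (p : Site d k → ℝ) (h0 : ∀ i, 0 ≤ p i) (h1 : ∀ i, p i ≤ 1) :
    0 ≤ ∏ i ∈ s, (1 - p i) ∧ ∏ i ∈ s, (1 - p i) ≤ 1 :=
  ⟨prod_nonneg fun i _ => by linarith [h1 i], prod_le_one (fun i _ => by linarith [h1 i]) fun i _ => by linarith [h0 i]⟩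

/-- mean of `zc` -/
private theorem C2_mean (hk : 2 ≤ k) (b : Bool) {f : Site d k → Fin q} (hf : Prp f) (x v : Site d k)
    (hx : x ∈ cls (!b) d k) (hv : ∃ τ : Stp d, x + sv τ = v) (c : Fin q) (A : ℝ) (hA : ra d q ≤ A)
    (hq : 2 / c1 e3 ≤ q) (hR : ∀ τ : Stp d, THR.Rg e3 f (x + sv τ)) :
    |fm b (fun h => zc h x v c) f - Real.exp (-hh c f x)| ≤ (1 / c1 e3 + A / c1 e3 ^ 2) / q := by
  have hc1 : 0 < c1 e3 := by
    unfold c1
    positivity
  have hq0 : (0 : ℝ) < q := lt_of_lt_of_le (by positivity) hq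
  have hq1 : 1 ≤ q := by
    have : 0 < q := by exact_mod_cast hq0
    omega
  obtain ⟨τ, hτ⟩ := hv
  have h1 : fm b (fun h => zc h x v c) f =
      ∏ u ∈ (univ.image fun σ : Stp d => x + sv σ).erase v, (1 - zz f u c / (av f u : ℝ)) := by
    rw [show (fun h : Site d k → Fin q => zc h x v c) =
      fun h => ∏ u ∈ (univ.image fun σ : Stp d => x + sv σ).erase v, (if h u = c then (0 : ℝ) else 1) from
      funext fun h => C2_zc h x v c]
    refine T2c_mean (by omega) b hf _ ?_ c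
    intro u hu
    obtain ⟨σ, -, rfl⟩ := mem_image.1 (mem_of_mem_erase hu)
    rw [mem_cls_step (by omega)]
    exact hx
  have h2 : zt f x c = (1 - zz f v c / (av f v : ℝ)) *
      ∏ u ∈ (univ.image fun σ : Stp d => x + sv σ).erase v, (1 - zz f u c / (av f u : ℝ)) := by
    have h3 : v ∈ univ.image fun σ : Stp d => x + sv σ := mem_image.2 ⟨τ, mem_univ _, hτ⟩
    rw [mul_prod_erase _ (fun u => 1 - zz f u c / (av f u : ℝ)) h3,
      prod_image fun σ _ σ' _ h => sv_inj hk (add_left_cancel h)]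
    rfl
  have h3 := zt_exp (ε := e3) (by unfold e3; norm_num) hq hf c x hR
  obtain ⟨h4, h5⟩ := C2_prod ((univ.image fun σ : Stp d => x + sv σ).erase v)
    (fun u => zz f u c / (av f u : ℝ)) (fun u => (zz_av_le hf u c).1) (fun u => (zz_av_le hf u c).2)
  have h6 := (zz_av_le hf v c).1
  have h7 : zz f v c / (av f v : ℝ) ≤ 1 / (c1 e3 * q) := by
    refine zz_reg hq1 v ?_ c
    rw [← hτ]
    exact hR τ
  rw [h1]
  set P := ∏ u ∈ (univ.image fun σ : Stp d => x + sv σ).erase v, (1 - zz f u c / (av f u : ℝ)) with hP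
  set p := zz f v c / (av f v : ℝ) with hp
  have h8 : |P - zt f x c| ≤ 1 / (c1 e3 * q) := by
    rw [h2]
    have h9 : P - (1 - p) * P = p * P := by ring
    rw [h9, abs_of_nonneg (mul_nonneg h6 h4)]
    calc p * P ≤ p * 1 := mul_le_mul_of_nonneg_left h5 h6
      _ = p := mul_one _
      _ ≤ _ := h7
  have h10 : ra d q / (c1 e3 ^ 2 * q) ≤ A / (c1 e3 ^ 2 * q) := by gcongr
  calc |P - Real.exp (-hh c f x)| ≤ |P - zt f x c| + |zt f x c - Real.exp (-hh c f x)| := abs_sub_le _ _ _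
    _ ≤ 1 / (c1 e3 * q) + A / (c1 e3 ^ 2 * q) := add_le_add h8 (h3.trans h10)
    _ = _ := by field_simp

/-- mean of the sum -/
private theorem C2_mu (hk : 2 ≤ k) (hd : 1 ≤ d) (b : Bool) {f : Site d k → Fin q} (hf : Prp f) (v : Site d k)
    (hv : v ∈ cls b d k) (c : Fin q) (A : ℝ) (hA0 : 0 ≤ A) (hA : ra d q ≤ A)
    (hq : 2 / c1 e3 ≤ q) (hR : ∀ σ τ : Stp d, THR.Rg e3 f (v + sv σ + sv τ)) :
    |fm b (fun h => ∑ σ : Stp d, zc h (v + sv σ) v c / (q * al f (v + sv σ))) f - ra d q * PP (ya c f) v| ≤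
      A * (1 / c1 e3 + A / c1 e3 ^ 2) * Real.exp A / q := by
  have hc1 : 0 < c1 e3 := by
    unfold c1
    positivity
  have hq0 : (0 : ℝ) < q := lt_of_lt_of_le (by positivity) hq
  have hq1 : 1 ≤ q := by
    have : 0 < q := by exact_mod_cast hq0
    omega
  have hd0 : (0 : ℝ) < d := by exact_mod_cast hd
  have h1 : ra d q * PP (ya c f) v = ∑ σ : Stp d, Real.exp (-hh c f (v + sv σ)) / (q * al f (v + sv σ)) := by
    unfold PP ra ya
    have h2 : ∑ σ : Stp d, Real.exp (-hh c f (v + sv σ)) / (q * al f (v + sv σ)) =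
        (∑ σ : Stp d, Real.exp (-hh c f (v + sv σ)) / al f (v + sv σ)) / q := by
      rw [sum_div]
      refine sum_congr rfl fun σ _ => ?_
      rw [div_div, mul_comm (q : ℝ)]
    rw [h2]
    field_simp
  have h3 : fm b (fun h => ∑ σ : Stp d, zc h (v + sv σ) v c / (q * al f (v + sv σ))) f =
      ∑ σ : Stp d, fm b (fun h => zc h (v + sv σ) v c) f / (q * al f (v + sv σ)) := by
    rw [fm_sum b f (univ : Finset (Stp d)) fun σ h => zc h (v + sv σ) v c / (q * al f (v + sv σ))]
    refine sum_congr rfl fun σ _ => ?_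
    have h4 : (fun h : Site d k → Fin q => zc h (v + sv σ) v c / (q * al f (v + sv σ))) =
        fun h => (1 / (q * al f (v + sv σ))) * zc h (v + sv σ) v c := by
      funext h
      ring
    rw [h4, fm_mul]
    ring
  rw [h1, h3, ← sum_sub_distrib]
  refine (abs_sum_le_sum_abs _ _).trans ?_
  have h5 : ∀ σ ∈ (univ : Finset (Stp d)), |fm b (fun h => zc h (v + sv σ) v c) f / (q * al f (v + sv σ)) -
      Real.exp (-hh c f (v + sv σ)) / (q * al f (v + sv σ))| ≤
      ((1 / c1 e3 + A / c1 e3 ^ 2) / q) * (Real.exp A / q) := by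
    intro σ _
    obtain ⟨h6, h7⟩ := C2_al hf hq1 (v + sv σ) A hA
    have h8 : v + sv σ ∈ cls (!b) d k := by
      rw [mem_cls_step (by omega), Bool.not_not]
      exact hv
    have h9 := C2_mean hk b hf (v + sv σ) v h8 ⟨(σ.1, !σ.2), by rw [add_assoc, sv_opp, add_zero]⟩ c A hA hq (hR σ)
    rw [← sub_div, abs_div, abs_of_pos h6, div_eq_mul_one_div]
    exact mul_le_mul h9 h7 (by positivity) (by positivity)
  refine (sum_le_sum h5).trans ?_
  rw [sum_const, card_univ, nsmul_eq_mul]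
  have h6 : ((Fintype.card (Stp d) : ℕ) : ℝ) = ra d q * q := by
    rw [Fintype.card_prod, Fintype.card_fin, Fintype.card_bool]
    unfold ra
    push_cast
    field_simp
  rw [h6]
  have h7 : ra d q * q * ((1 / c1 e3 + A / c1 e3 ^ 2) / q * (Real.exp A / q)) =
      ra d q * ((1 / c1 e3 + A / c1 e3 ^ 2) * Real.exp A / q) := by
    field_simp
  rw [h7]
  have h8 : A * (1 / c1 e3 + A / c1 e3 ^ 2) * Real.exp A / q =
      A * ((1 / c1 e3 + A / c1 e3 ^ 2) * Real.exp A / q) := by ring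
  rw [h8]
  exact mul_le_mul_of_nonneg_right hA (by positivity)

/-- locality -/
private theorem C2_loc (f g : Site d k → Fin q) (v : Site d k) (h : ∀ u, nr 3 v u → f u = g u) :
    (∀ σ τ : Stp d, SS f (v + sv σ + sv τ) = SS g (v + sv σ + sv τ)) ∧
      ∀ (σ : Stp d) (c : Fin q), al f (v + sv σ) = al g (v + sv σ) ∧ ya c f (v + sv σ) = ya c g (v + sv σ) ∧
        zc f (v + sv σ) v c = zc g (v + sv σ) v c := by
  have h1 : ∀ σ τ : Stp d, SS f (v + sv σ + sv τ) = SS g (v + sv σ + sv τ) := by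
    intro σ τ
    unfold SS
    refine image_congr fun ρ _ => ?_
    exact h _ (Or.inr ⟨σ, Or.inr ⟨τ, Or.inr ⟨ρ, rfl⟩⟩⟩)
  have h2 : ∀ (σ : Stp d) (c : Fin q), hh c f (v + sv σ) = hh c g (v + sv σ) := by
    intro σ c
    unfold THR.hh
    refine sum_congr rfl fun τ _ => ?_
    unfold zz av
    rw [h1 σ τ]
  have h3 : ∀ σ : Stp d, al f (v + sv σ) = al g (v + sv σ) := by
    intro σ
    unfold al
    congr 1
    exact sum_congr rfl fun c _ => by rw [h2 σ c]
  refine ⟨h1, fun σ c => ⟨h3 σ, ?_, ?_⟩⟩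
  · unfold ya
    rw [h2 σ c, h3 σ]
  · have h4 : (∀ τ : Stp d, v + sv σ + sv τ ≠ v → f (v + sv σ + sv τ) ≠ c) ↔
        (∀ τ : Stp d, v + sv σ + sv τ ≠ v → g (v + sv σ + sv τ) ≠ c) := by
      refine forall_congr' fun τ => forall_congr' fun _ => ?_
      rw [h _ (Or.inr ⟨σ, Or.inr ⟨τ, Or.inl rfl⟩⟩)]
    unfold zc
    exact if_congr h4 rfl rfl

/-- Bernstein -/
private theorem C2_bern (hk : 3 ≤ k) (b : Bool) {f : Site d k → Fin q} (hf : Prp f) (v : Site d k) (c : Fin q) (A s δ : ℝ) (hA0 : 0 < A) (hA : ra d q ≤ A)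
    (hq : 2 / c1 e3 ≤ q) (hR : ∀ σ τ : Stp d, THR.Rg e3 f (v + sv σ + sv τ)) (hs : 0 < s)
    (hs1 : 2 * s * Real.exp A ≤ 1) (hs2 : 16 * s * Real.exp A ^ 2 * A ^ 2 ≤ δ * c1 e3) :
    fm b (fun h => ind (δ / 2 ≤ |∑ σ : Stp d, zc h (v + sv σ) v c / (q * al f (v + sv σ)) -
      fm b (fun h => ∑ σ : Stp d, zc h (v + sv σ) v c / (q * al f (v + sv σ))) f|)) f ≤
      2 * Real.exp (-(s * δ / 4 * q)) := by
  have hc1 : 0 < c1 e3 := by
    unfold c1
    positivity
  have hq0 : (0 : ℝ) < q := lt_of_lt_of_le (by positivity) hq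
  have hq1 : 1 ≤ q := by
    have : 0 < q := by exact_mod_cast hq0
    omega
  set W : Finset (Site d k) := (univ.image fun p : Stp d × Stp d => v + sv p.1 + sv p.2).erase v with hW
  have h := fm_bern (d := d) (k := k) (q := q) (by omega) b hf c
    (fun h => ∑ σ : Stp d, zc h (v + sv σ) v c / (q * al f (v + sv σ))) W (2 * (Real.exp A / q)) (1 / (c1 e3 * q))
    (s * q) (δ / 2) (by positivity) (by positivity) (by positivity) (by
      have : s * q * (2 * (Real.exp A / q)) = 2 * s * Real.exp A := by field_simp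
      rw [this]
      exact hs1) ?_ ?_ ?_ ?_
  · refine h.trans ?_
    refine mul_le_mul_of_nonneg_left (Real.exp_le_exp.2 ?_) (by norm_num)
    have h1 : (W.card : ℝ) ≤ (A * q) ^ 2 := by
      have h2 : W.card ≤ (2 * d) ^ 2 := by
        refine (card_le_card (erase_subset _ _)).trans (card_image_le.trans (le_of_eq ?_))
        rw [card_univ, Fintype.card_prod, Fintype.card_prod, Fintype.card_fin, Fintype.card_bool]
        ring
      have h3 : 2 * (d : ℝ) ≤ A * q := by
        have : 2 * (d : ℝ) = ra d q * q := by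
          unfold ra
          field_simp
        rw [this]
        exact mul_le_mul_of_nonneg_right hA hq0.le
      calc (W.card : ℝ) ≤ (2 * (d : ℝ)) ^ 2 := by exact_mod_cast h2
        _ ≤ _ := pow_le_pow_left₀ (by positivity) h3 2
    have h4 : (s * q) ^ 2 * (2 * (Real.exp A / q)) ^ 2 * (1 / (c1 e3 * q)) * (W.card : ℝ) ≤
        (s * q) ^ 2 * (2 * (Real.exp A / q)) ^ 2 * (1 / (c1 e3 * q)) * (A * q) ^ 2 :=
      mul_le_mul_of_nonneg_left h1 (by positivity)
    have h5 : (s * q) ^ 2 * (2 * (Real.exp A / q)) ^ 2 * (1 / (c1 e3 * q)) * (A * q) ^ 2 =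
        s * q / 4 * ((16 * s * Real.exp A ^ 2 * A ^ 2) / c1 e3) := by
      field_simp
      ring
    have h6 : (16 * s * Real.exp A ^ 2 * A ^ 2) / c1 e3 ≤ δ := by
      rw [div_le_iff₀ hc1]
      exact hs2
    have h7 : s * q / 4 * ((16 * s * Real.exp A ^ 2 * A ^ 2) / c1 e3) ≤ s * q / 4 * δ :=
      mul_le_mul_of_nonneg_left h6 (by positivity)
    have h8 := h4.trans (h5.le.trans h7)
    calc -(s * q * (δ / 2)) + (s * q) ^ 2 * (2 * (Real.exp A / q)) ^ 2 * (1 / (c1 e3 * q)) * (W.card : ℝ)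
        ≤ -(s * q * (δ / 2)) + s * q / 4 * δ := by linarith
      _ = -(s * δ / 4 * q) := by ring
  · intro h _ u _ hu γ _
    refine sum_congr rfl fun σ _ => ?_
    congr 1
    refine C2_upd h (v + sv σ) v u γ c fun τ hτ => ?_
    by_contra huv
    exact hu (mem_erase.2 ⟨huv, mem_image.2 ⟨(σ, τ), mem_univ _, hτ⟩⟩)
  · intro h _ u _ hu γ _
    exact C2_lip hk hq1 hf h v u (ne_of_mem_erase hu) γ c A hA
  · intro h _ u _ γ γ' _ _ h1 h2
    refine sum_congr rfl fun σ _ => ?_
    rw [C2_upd2 h (v + sv σ) v u γ γ' c h1 h2]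
  · intro u _ hu
    obtain ⟨p, -, rfl⟩ := mem_image.1 (mem_of_mem_erase hu)
    have h1 : c1 e3 * q ≤ (av f (v + sv p.1 + sv p.2) : ℝ) := hR p.1 p.2
    exact one_div_le_one_div_of_le (by positivity) h1

end

/-- numbers -/
private theorem C2_num (κ C δ B : ℝ) (hκ : 0 < κ) (hδ : 0 < δ) (K : ℕ) : ∀ᶠ d : ℕ in atTop, ∀ q : ℕ, d ≤ 1000 * q →
    B ≤ q ∧ C / q ≤ δ ∧ q * (2 * Real.exp (-(κ * q))) ≤ 1 / (d : ℝ) ^ K := by
  have h1 := (Real.tendsto_pow_mul_exp_neg_atTop_nhds_zero (K + 1)).eventually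
    (ge_mem_nhds (show (0 : ℝ) < κ ^ (K + 1) / (2 * 1000 ^ K) by positivity))
  obtain ⟨X, hX⟩ := eventually_atTop.1 h1
  obtain ⟨m, hm⟩ := exists_nat_ge (1000 * (|X| / κ + |B| + |C| / δ + 1))
  filter_upwards [eventually_ge_atTop (max m 1)] with d hd q hdq
  have hm' : (m : ℝ) ≤ d := by exact_mod_cast (le_max_left _ _).trans hd
  have hd1 : (1 : ℝ) ≤ d := by exact_mod_cast (le_max_right _ _).trans hd
  have hdq' : (d : ℝ) ≤ 1000 * q := by exact_mod_cast hdq
  have hXk : 0 ≤ |X| / κ := by positivity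
  have hCd : 0 ≤ |C| / δ := by positivity
  have hB0 := abs_nonneg B
  have hq : |X| / κ + |B| + |C| / δ + 1 ≤ q := by linarith
  have hq0 : (0 : ℝ) < q := by linarith
  refine ⟨by linarith [le_abs_self B], ?_, ?_⟩
  · rw [div_le_iff₀ hq0]
    have h2 : |C| / δ ≤ q := by linarith
    rw [div_le_iff₀ hδ] at h2
    linarith [le_abs_self C]
  · have h2 : X ≤ κ * q := by
      have h3 : |X| / κ ≤ q := by linarith
      rw [div_le_iff₀ hκ] at h3
      linarith [le_abs_self X]
    have h3 := hX _ h2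
    rw [le_div_iff₀ (by positivity)] at h3 ⊢
    have h4 : (d : ℝ) ^ K ≤ (1000 * q) ^ K := pow_le_pow_left₀ (by linarith) hdq' K
    calc q * (2 * Real.exp (-(κ * q))) * (d : ℝ) ^ K ≤ q * (2 * Real.exp (-(κ * q))) * (1000 * q) ^ K :=
          mul_le_mul_of_nonneg_left h4 (by positivity)
      _ = ((κ * q) ^ (K + 1) * Real.exp (-(κ * q)) * (2 * 1000 ^ K)) / κ ^ (K + 1) := by
          rw [mul_pow, mul_pow, pow_succ (q : ℝ) K]
          field_simp
      _ ≤ κ ^ (K + 1) / κ ^ (K + 1) := div_le_div_of_nonneg_right h3 (by positivity)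
      _ = 1 := div_self (by positivity)

theorem hF_pt (δ : ℝ) (hδ : 0 < δ) : SR fun d _ q f v => ∃ c : Fin q,
    δ < |(∑ σ : Stp d, zc f (v + sv σ) v c / (q * al f (v + sv σ))) - ra d q * PP (ya c f) v| := by
  have hc1 : 0 < c1 e3 := by
    unfold c1
    positivity
  have hE := Real.exp_pos 2000
  refine SR_local true 3 (fun d _ _ f v => ∀ σ τ : Stp d, THR.Rg e3 f (v + sv σ + sv τ)) _ ?_ ?_ ?_ ?_ ?_
  · refine SR.mono nc_pt ?_
    refine ⟨0, fun d q _ _ _ => Eventually.of_forall fun k _ f _ v h1 h2 => h1 h2.2.2⟩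
  · intro d k q f g v h
    obtain ⟨h1, -⟩ := C2_loc f g v h
    refine forall_congr' fun σ => forall_congr' fun τ => ?_
    unfold THR.Rg av
    rw [h1 σ τ]
  · intro d k q f g v h
    obtain ⟨-, h1⟩ := C2_loc f g v h
    refine exists_congr fun c => ?_
    have h2 : (∑ σ : Stp d, zc f (v + sv σ) v c / (q * al f (v + sv σ))) =
        ∑ σ : Stp d, zc g (v + sv σ) v c / (q * al g (v + sv σ)) :=
      sum_congr rfl fun σ _ => by rw [(h1 σ c).1, (h1 σ c).2.2]
    have h3 : PP (ya c f) v = PP (ya c g) v := by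
      unfold PP
      congr 1
      exact sum_congr rfl fun σ _ => (h1 σ c).2.1
    rw [h2, h3]
  · refine (EvT_reg (ε := e3) (by unfold e3; norm_num) (by unfold e3; norm_num) 1).mono ?_
    intro d k q hreg _ f _ b v hv h hh
    have hk : 1 ≤ k := by exact_mod_cast hreg.2.2.1
    have hr : rcl true b = b := by simp [rcl]
    rw [hr] at hh
    refine forall_congr' fun σ => forall_congr' fun τ => ?_
    have h1 : v + sv σ + sv τ ∈ cls b d k := by
      rw [mem_cls_step hk, mem_cls_step hk, Bool.not_not]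
      exact hv
    unfold THR.Rg av
    rw [fib_SS hk b hh _ h1]
  · intro K
    obtain ⟨s, hs, hs1, hs2⟩ : ∃ s : ℝ, 0 < s ∧ 2 * s * Real.exp 2000 ≤ 1 ∧
        16 * s * Real.exp 2000 ^ 2 * 2000 ^ 2 ≤ δ * c1 e3 := by
      refine ⟨min (1 / (2 * Real.exp 2000)) (δ * c1 e3 / (16 * Real.exp 2000 ^ 2 * 2000 ^ 2)),
        lt_min (by positivity) (by positivity), ?_, ?_⟩
      · have h1 := min_le_left (1 / (2 * Real.exp 2000)) (δ * c1 e3 / (16 * Real.exp 2000 ^ 2 * 2000 ^ 2))
        rw [le_div_iff₀ (by positivity)] at h1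
        linarith
      · have h1 := min_le_right (1 / (2 * Real.exp 2000)) (δ * c1 e3 / (16 * Real.exp 2000 ^ 2 * 2000 ^ 2))
        rw [le_div_iff₀ (by positivity)] at h1
        linarith
    refine ((EvT_reg (ε := e3) (by unfold e3; norm_num) (by unfold e3; norm_num) 3).and
      (EvT_d (C2_num (s * δ / 4) (2000 * (1 / c1 e3 + 2000 / c1 e3 ^ 2) * Real.exp 2000) (δ / 2) (2 / c1 e3)
        (by positivity) (by positivity) K))).mono ?_
    rintro d k q ⟨hreg, hnum⟩ hRg f hf b v hv hR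
    have hf' : Prp f := by
      unfold prps at hf
      simpa using hf
    have hk : 3 ≤ k := by exact_mod_cast hreg.2.2.1
    have hd : 3 ≤ d := by exact_mod_cast hreg.1
    obtain ⟨hq, hmu, hexp⟩ := hnum q (by have := hRg.2.2; omega)
    have hq0 : (0 : ℝ) < q := lt_of_lt_of_le (by positivity) hq
    have hA : ra d q ≤ 2000 := by
      unfold ra
      rw [div_le_iff₀ hq0]
      exact_mod_cast hRg.2.2
    have hr : rcl true b = b := by simp [rcl]
    rw [hr]
    have h1 : ∀ h ∈ fib b f, ind (∃ c : Fin q,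
        δ < |(∑ σ : Stp d, zc h (v + sv σ) v c / (q * al h (v + sv σ))) - ra d q * PP (ya c h) v|) ≤
        ∑ c : Fin q, ind (δ / 2 ≤ |∑ σ : Stp d, zc h (v + sv σ) v c / (q * al f (v + sv σ)) -
          fm b (fun h => ∑ σ : Stp d, zc h (v + sv σ) v c / (q * al f (v + sv σ))) f|) := by
      intro h hh
      have h0 : ∀ P : Prop, 0 ≤ ind P := by
        intro P
        unfold ind
        split_ifs <;> norm_num
      by_cases hP : ∃ c : Fin q,
        δ < |(∑ σ : Stp d, zc h (v + sv σ) v c / (q * al h (v + sv σ))) - ra d q * PP (ya c h) v|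
      · obtain ⟨c, hc⟩ := hP
        have h2 : ∀ σ : Stp d, v + sv σ ∈ cls (!b) d k := by
          intro σ
          rw [mem_cls_step (by omega), Bool.not_not]
          exact hv
        have h' : h ∈ fib (!(!b)) f := by
          rw [Bool.not_not]
          exact hh
        have h3 := fun σ : Stp d => loc_fib (by omega) (!b) h' (v + sv σ) (h2 σ) c
        have h4 : (∑ σ : Stp d, zc h (v + sv σ) v c / (q * al h (v + sv σ))) =
            ∑ σ : Stp d, zc h (v + sv σ) v c / (q * al f (v + sv σ)) :=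
          sum_congr rfl fun σ _ => by rw [(h3 σ).2.1]
        have h5 : PP (ya c h) v = PP (ya c f) v := by
          unfold PP
          congr 1
          exact sum_congr rfl fun σ _ => (h3 σ).2.2
        rw [h4, h5] at hc
        have h6 := (C2_mu (by omega) (by omega) b hf' v hv c 2000 (by norm_num) hA hq hR).trans hmu
        have h7 := abs_sub_le (∑ σ : Stp d, zc h (v + sv σ) v c / (q * al f (v + sv σ)))
          (fm b (fun h => ∑ σ : Stp d, zc h (v + sv σ) v c / (q * al f (v + sv σ))) f) (ra d q * PP (ya c f) v)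
        have h8 : δ / 2 ≤ |∑ σ : Stp d, zc h (v + sv σ) v c / (q * al f (v + sv σ)) -
          fm b (fun h => ∑ σ : Stp d, zc h (v + sv σ) v c / (q * al f (v + sv σ))) f| := by linarith
        have h9 : ∀ P : Prop, ind P ≤ 1 := by
          intro P
          unfold ind
          split_ifs <;> norm_num
        refine (h9 _).trans (le_trans (le_of_eq ?_) (single_le_sum (fun c _ => h0 _) (mem_univ c)))
        unfold ind
        exact (if_pos h8).symm
      · have h2 : ind (∃ c : Fin q,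
          δ < |(∑ σ : Stp d, zc h (v + sv σ) v c / (q * al h (v + sv σ))) - ra d q * PP (ya c h) v|) = 0 := by
          unfold ind
          exact if_neg hP
        rw [h2]
        exact sum_nonneg fun c _ => h0 _
    refine (fm_mono b hf' h1).trans ?_
    rw [fm_sum b f (univ : Finset (Fin q)) fun c h => ind (δ / 2 ≤ |∑ σ : Stp d, zc h (v + sv σ) v c /
      (q * al f (v + sv σ)) - fm b (fun h => ∑ σ : Stp d, zc h (v + sv σ) v c / (q * al f (v + sv σ))) f|)]
    refine (sum_le_sum fun c _ => C2_bern hk b hf' v c 2000 s δ (by norm_num) hA hq hR hs hs1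
      hs2).trans ?_
    rw [sum_const, card_univ, Fintype.card_fin, nsmul_eq_mul]
    exact hexp

end Pool.Agent.LC

end

/-! ### from `Lib_MP_2c424f_lc1.C3` -/

section

/-!
# LC1 C3: the local mean-field equation at single sites

`|hc - F| ≤ ∑_σ |1/av - 1/(q al)| ≤ 2d δ'/(c1 q * e^{-a})` if all neighbours are regular and have `|av/q - al| ≤ δ'` (`av_pt`, `nc_pt`, `SR.nb`); `hF_pt`.
-/

set_option autoImplicit false

open Finset Filter

namespace Pool.Agent.LC

open Pool.Agent.LO Pool.Agent.LIN Pool.Agent.THR Pool.Agent.COR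

private theorem C3_term {A B z q c b e : ℝ} (hq : 0 < q) (hc : 0 < c) (hb : 0 < b) (hz : z = 0 ∨ z = 1)
    (hA : c * q ≤ A) (hB : b ≤ B) (h : |A / q - B| ≤ e) : |z / A - z / (q * B)| ≤ e / (c * q * b) := by
  have hcq : 0 < c * q := mul_pos hc hq
  have hA0 : 0 < A := lt_of_lt_of_le hcq hA
  have hB0 : 0 < B := lt_of_lt_of_le hb hB
  have he : 0 ≤ e := le_trans (abs_nonneg _) h
  rcases hz with hz | hz
  · rw [hz, zero_div, zero_div, sub_zero, abs_zero]
    positivity
  · have e1 : z / A - z / (q * B) = (B - A / q) / (A * B) := by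
      rw [hz]
      field_simp
    rw [e1, abs_div, abs_of_pos (mul_pos hA0 hB0), abs_sub_comm]
    exact div_le_div₀ he h (by positivity) (mul_le_mul hA hB hb.le hA0.le)

theorem hc_pt (δ : ℝ) (hδ : 0 < δ) : SR fun d _ q f v => ∃ c : Fin q, δ < |hc c f v - ra d q * PP (ya c f) v| := by
  have hc1 : 0 < c1 e3 := by
    unfold c1
    positivity
  obtain ⟨b, hb⟩ : ∃ b : ℝ, b = Real.exp (-2000) := ⟨_, rfl⟩
  have hb0 : 0 < b := by rw [hb]; exact Real.exp_pos _
  obtain ⟨e, he⟩ : ∃ e : ℝ, e = δ / 2 * (c1 e3 * b) / 2000 := ⟨_, rfl⟩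
  have he0 : 0 < e := by rw [he]; positivity
  have h1 := ((av_pt e he0).nb.or reg_pt.nb).or (hF_pt (δ / 2) (by positivity))
  refine h1.mono ?_
  have hd : EvT e3 fun d _ _ => 1 ≤ d := EvT_d (eventually_ge_atTop 1)
  refine hd.mono ?_
  rintro d k q hd1 hR f hf v ⟨c, hcc⟩
  obtain ⟨hq, -, ha, hra, -⟩ := rg_pos hd1 hR
  have hq0 : (0 : ℝ) < q := by exact_mod_cast hq
  have hfP : Prp f := by
    classical
    unfold prps at hf
    exact (mem_filter.1 hf).2
  by_contra hneg
  rw [not_or, not_or] at hneg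
  obtain ⟨⟨n1, n2⟩, n3⟩ := hneg
  rw [not_exists] at n1 n2 n3
  have t1 : ∀ σ : Stp d, |(av f (v + sv σ) : ℝ) / q - al f (v + sv σ)| ≤ e := fun σ => not_lt.1 (n1 σ)
  have t2 : ∀ σ : Stp d, c1 e3 * q ≤ (av f (v + sv σ) : ℝ) := fun σ => not_not.1 (n2 σ)
  have t3 := not_lt.1 (n3 c)
  have t4 : ∀ σ : Stp d, b ≤ al f (v + sv σ) := fun σ => by
    refine le_trans ?_ (al_ge hq hfP (v + sv σ))
    rw [hb]
    exact Real.exp_le_exp.2 (by linarith)
  have key : |hc c f v - ∑ σ : Stp d, zc f (v + sv σ) v c / (q * al f (v + sv σ))| ≤ δ / 2 := by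
    unfold hc
    rw [← sum_sub_distrib]
    refine (abs_sum_le_sum_abs _ _).trans ?_
    have g1 : ∀ σ ∈ (univ : Finset (Stp d)),
        |zc f (v + sv σ) v c / (av f (v + sv σ) : ℝ) - zc f (v + sv σ) v c / (q * al f (v + sv σ))| ≤
          e / (c1 e3 * q * b) := fun σ _ =>
      C3_term hq0 hc1 hb0 (zc_01 f (v + sv σ) v c) (t2 σ) (t4 σ) (t1 σ)
    refine (sum_le_sum g1).trans ?_
    rw [sum_const, card_univ, Fintype.card_prod, Fintype.card_fin, Fintype.card_bool, nsmul_eq_mul]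
    push_cast
    have g2 : (d : ℝ) * 2 * (e / (c1 e3 * q * b)) = ra d q * e / (c1 e3 * b) := by
      rw [mul_comm (d : ℝ) 2, hra]
      field_simp
    rw [g2]
    calc ra d q * e / (c1 e3 * b) ≤ 2000 * e / (c1 e3 * b) := by
          refine div_le_div_of_nonneg_right ?_ (by positivity)
          exact mul_le_mul_of_nonneg_right ha he0.le
      _ = δ / 2 := by
          rw [he]
          field_simp
  have key2 := abs_sub_le (hc c f v) (∑ σ : Stp d, zc f (v + sv σ) v c / (q * al f (v + sv σ)))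
    (ra d q * PP (ya c f) v)
  linarith

end Pool.Agent.LC

end

/-! ### from `Lib_MP_2c424f_lc1.E1` -/

section

/-!
# LC1 E1: the exceptional sites of the growth argument are rare

`GE_SRK`: `¬ GE` is the disjunction of five events.  `g`: `SRK.avgs` for `Gb C₄ t` with `K' = 2`, level `K + 1` (`K + 1 + 2 + 1 ≤ K + 6`, `SRK.le`).  `m`: `SR.avgs` for `smooth_pt t δ`.
`y`: finite union of `gy_pt s δ`, `t ≤ s ≤ S` (`s ≥ 20`), induction over `S` with `SR.or`.
`x`: `Xs η` is rare by `hc_pt η`, `nf_pt η`; `SR.avgs` with `K' = 3`.  `a`: `av_pt δ`.  The last four are combined with `SR.or`, then `SRK.or` once.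
-/

set_option autoImplicit false

open Finset Filter

namespace Pool.Agent.LC

open Pool.Agent.LO Pool.Agent.LIN Pool.Agent.THR Pool.Agent.COR

/-- site without exceptional averages -/
structure GE {d k q : ℕ} (η δ C₄ : ℝ) (t S : ℕ) (f : Site d k → Fin q) (v : Site d k) : Prop where
  g : ∀ s ≤ S, PP^[s] (fun u => ind (Gb C₄ t f u)) v ≤ 1 / (d : ℝ) ^ 2
  m : ∀ s ≤ S, PP^[s] (fun u => ind (∃ c : Fin q, δ < |PP^[t] (bq c f) u - PP^[t] (gg c f) u|)) v ≤ 1 / (d : ℝ) ^ 2
  y : ∀ s, t ≤ s → s ≤ S → ∀ c : Fin q, |PP^[s] (gg c f) v - PP^[s] (ya c f) v| ≤ δ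
  x : ∀ s ≤ S, PP^[s] (fun u => ind (Xs η f u)) v ≤ 1 / (d : ℝ) ^ 3
  a : |(av f v : ℝ) / q - al f v| ≤ δ

private theorem E1_all {P : ℕ → ℕ → ℕ → Prop} (h : ∀ d k q, P d k q) : EvT e3 P :=
  ⟨0, fun d q _ _ _ => Filter.Eventually.of_forall fun k => h d k q⟩

private theorem E1_y (δ : ℝ) (hδ : 0 < δ) (S : ℕ) : SR fun _ _ q f v =>
    ∃ s, 20 ≤ s ∧ s ≤ S ∧ ∃ c : Fin q, δ < |PP^[s] (gg c f) v - PP^[s] (ya c f) v| := by
  induction S with
  | zero =>
    refine (gy_pt 20 le_rfl δ hδ).mono (E1_all ?_)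
    rintro d k q _ f _ v ⟨s, h1, h2, _⟩
    omega
  | succ S ih =>
    by_cases h : 20 ≤ S + 1
    · refine (ih.or (gy_pt (S + 1) h δ hδ)).mono (E1_all ?_)
      rintro d k q _ f _ v ⟨s, h1, h2, c, hc⟩
      rcases Nat.lt_or_ge s (S + 1) with h3 | h3
      · exact Or.inl ⟨s, h1, by omega, c, hc⟩
      · have h4 : s = S + 1 := by omega
        subst h4
        exact Or.inr ⟨c, hc⟩
    · refine ih.mono (E1_all ?_)
      rintro d k q _ f _ v ⟨s, h1, h2, _⟩
      omega

private theorem E1_x (η : ℝ) (hη : 0 < η) : SR fun _ _ _ f v => Xs η f v :=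
  ((hc_pt η hη).or (nf_pt η hη)).mono (E1_all fun _ _ _ _ _ _ _ h => h)

theorem GE_SRK (C₄ : ℝ) (K t : ℕ) (ht : Even t) (ht' : 20 ≤ t) (h : SRK (K + 6) fun _ _ _ f v => Gb C₄ t f v)
    (η δ : ℝ) (hη : 0 < η) (hδ : 0 < δ) (S : ℕ) : SRK K fun _ _ _ f v => ¬ GE η δ C₄ t S f v := by
  have hg := SRK.avgs (K := K + 1) (K' := 2) (h.le (by omega)) S
  have hm := (smooth_pt t ht ht' δ hδ).avgs 2 S
  have hy := E1_y δ hδ S
  have hx := (E1_x η hη).avgs 3 S
  have ha := av_pt δ hδ
  refine (SRK.or hg ((hm.or (hy.or (hx.or ha))) (K + 1))).mono (E1_all ?_)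
  intro d k q _ f _ v hn
  by_contra hcon
  rw [not_or, not_or, not_or, not_or] at hcon
  obtain ⟨c1, c2, c3, c4, c5⟩ := hcon
  refine hn ⟨?_, ?_, ?_, ?_, ?_⟩
  · intro s hs
    by_contra h1
    exact c1 ⟨s, hs, not_le.1 h1⟩
  · intro s hs
    by_contra h1
    exact c2 ⟨s, hs, not_le.1 h1⟩
  · intro s h1 h2 c
    by_contra h3
    exact c3 ⟨s, ht'.trans h1, h2, c, not_le.1 h3⟩
  · intro s hs
    by_contra h1
    exact c4 ⟨s, hs, not_le.1 h1⟩
  · exact not_lt.1 c5

end Pool.Agent.LC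

end

/-! ### from `Lib_MP_2c424f_lc1.F3` -/

section

/-!
# LC1 F3: colours with a small field

`SR_local`, `o = false`, `R = True`, radius 2.  `H = {c : hh c f v ≤ 1.1 e^{-a}}` does not change on the fibre of `!b`.  `T := d^{1/16}`.  `P(∃ c ∈ H, T < nf c) ≤ q e^{-T} e^{2}` (`nf_exp` with `x = 1`).
`F h := ∑_{c ∈ H} min (nf c h v) T ^ 2`: mean `≤ q * 1.1 e^{-a} (1 + 1.1 e^{-a}) ≤ e^{-a/2} q/4` (`nf_sq`, `a ≥ 1000`); a neighbour changes `F` by at most `2T²`; `fm_mcd` with `S = 2d (2T²)²`, `θ = e^{-a/2} q/4`.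
-/

set_option autoImplicit false

open Finset Filter

namespace Pool.Agent.LC

open Pool.Agent.LO Pool.Agent.LIN Pool.Agent.THR Pool.Agent.COR

private theorem F3_ind_nonneg (P : Prop) : 0 ≤ ind P := by
  unfold ind
  split_ifs <;> norm_num

private theorem F3_ind_true {P : Prop} (h : P) : ind P = 1 := by
  unfold ind
  rw [if_pos h]

private theorem F3_ind_false {P : Prop} (h : ¬ P) : ind P = 0 := by
  unfold ind
  rw [if_neg h]

/-- `10 d e^{-c d^{1/16}} ≤ d^{-K}` for `d` large -/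
private theorem F3_ev (K : ℕ) {c : ℝ} (hc : 0 < c) :
    ∀ᶠ d : ℕ in atTop, 10 * (d : ℝ) * Real.exp (-(c * (d : ℝ) ^ (1 / 16 : ℝ))) ≤ 1 / (d : ℝ) ^ K := by
  have h0 : Tendsto (fun d : ℕ => (d : ℝ) ^ (1 / 16 : ℝ)) atTop atTop :=
    (tendsto_rpow_atTop (by norm_num)).comp tendsto_natCast_atTop_atTop
  have h1 : Tendsto (fun d : ℕ => c * (d : ℝ) ^ (1 / 16 : ℝ)) atTop atTop := h0.const_mul_atTop hc
  have h2 := (Real.tendsto_pow_mul_exp_neg_atTop_nhds_zero (16 * (K + 1))).comp h1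
  have h3 : (0 : ℝ) < c ^ (16 * (K + 1)) / 10 := by positivity
  filter_upwards [h2.eventually (ge_mem_nhds h3), eventually_ge_atTop 1] with d h4 hd
  have hd' : (0 : ℝ) < d := by exact_mod_cast hd
  simp only [Function.comp_apply] at h4
  rw [le_div_iff₀ (by positivity)]
  have h16 : ((d : ℝ) ^ (1 / 16 : ℝ)) ^ (16 * (K + 1)) = (d : ℝ) ^ (K + 1) := by
    rw [pow_mul, ← Real.rpow_natCast ((d : ℝ) ^ (1 / 16 : ℝ)) 16, ← Real.rpow_mul hd'.le]
    norm_num
  rw [mul_pow, h16] at h4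
  have h7 : (0 : ℝ) < c ^ (16 * (K + 1)) := by positivity
  have h6 : (d : ℝ) ^ (K + 1) * Real.exp (-(c * (d : ℝ) ^ (1 / 16 : ℝ))) ≤ 1 / 10 := by
    have h8 : c ^ (16 * (K + 1)) * ((d : ℝ) ^ (K + 1) * Real.exp (-(c * (d : ℝ) ^ (1 / 16 : ℝ)))) ≤
        c ^ (16 * (K + 1)) * (1 / 10) := by linarith
    exact le_of_mul_le_mul_left h8 h7
  have h9 : 10 * (d : ℝ) * Real.exp (-(c * (d : ℝ) ^ (1 / 16 : ℝ))) * (d : ℝ) ^ K =
      10 * ((d : ℝ) ^ (K + 1) * Real.exp (-(c * (d : ℝ) ^ (1 / 16 : ℝ)))) := by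
    rw [pow_succ]; ring
  rw [h9]
  linarith

variable {d k q : ℕ}

private theorem F3_card : ((univ : Finset (Stp d)).card : ℝ) = 2 * d := by
  rw [card_univ, Fintype.card_prod, Fintype.card_fin, Fintype.card_bool]
  push_cast
  ring

private theorem F3_mcd (hk : 2 ≤ k) (b : Bool) {f : Site d k → Fin q} (hf : Prp f) (v : Site d k)
    (F : (Site d k → Fin q) → ℝ) (L : ℝ) (hL : 0 < L) (hF : ∀ h w γ, |F (Function.update h w γ) - F h| ≤ L)
    (hF0 : ∀ h w γ, (∀ σ : Stp d, w ≠ v + sv σ) → F (Function.update h w γ) = F h)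
    (θ : ℝ) (hθ : 0 ≤ θ) (hθ' : θ ≤ 4 * d * L) (hd : 1 ≤ d) :
    fm b (fun h => ind (θ ≤ |F h - fm b F f|)) f ≤ 2 * Real.exp (-(θ ^ 2 / (8 * d * L ^ 2))) := by
  classical
  have hd' : (0 : ℝ) < d := by exact_mod_cast hd
  have key := fm_mcd hk b hf F (fun w => if w ∈ univ.image (fun σ : Stp d => v + sv σ) then L else 0)
    (fun w => by split_ifs <;> [exact hL.le; exact le_rfl]) ?_ (2 * d * L ^ 2) θ ?_ (by positivity) hθ ?_
  · have e1 : (4 : ℝ) * (2 * d * L ^ 2) = 8 * d * L ^ 2 := by ring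
    rw [e1] at key
    exact key
  · intro h _ w _ γ _
    by_cases hw : w ∈ univ.image (fun σ : Stp d => v + sv σ)
    · simp only [if_pos hw]
      exact hF h w γ
    · simp only [if_neg hw]
      rw [hF0 h w γ fun σ hσ => hw (mem_image.2 ⟨σ, mem_univ σ, hσ.symm⟩), sub_self, abs_zero]
  · have e2 : ∀ w ∈ cls b d k, (if w ∈ univ.image (fun σ : Stp d => v + sv σ) then L else 0) ^ 2 =
        if w ∈ univ.image (fun σ : Stp d => v + sv σ) then L ^ 2 else 0 := fun w _ => by
      split_ifs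
      · rfl
      · norm_num
    rw [sum_congr rfl e2, ← sum_filter, sum_const, nsmul_eq_mul, ← F3_card]
    refine mul_le_mul_of_nonneg_right (Nat.cast_le.2 ((card_le_card ?_).trans
      (card_image_le (s := (univ : Finset (Stp d))) (f := fun σ => v + sv σ)))) (sq_nonneg L)
    intro w hw
    exact (mem_filter.1 hw).2
  · intro w _
    split_ifs
    · nlinarith
    · have : 0 ≤ 2 * (2 * (d : ℝ) * L ^ 2) := by positivity
      linarith

open scoped Classical in
private theorem F3_nf (c : Fin q) (h : Site d k → Fin q) (v : Site d k) :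
    nf c h v = ∑ σ : Stp d, if h (v + sv σ) = c then (1 : ℝ) else 0 := by
  unfold nf
  rw [sum_boole]

private theorem F3_nf_nonneg (c : Fin q) (h : Site d k → Fin q) (v : Site d k) : 0 ≤ nf c h v := by
  unfold nf
  exact Nat.cast_nonneg _

private theorem F3_nf0 (c : Fin q) (v : Site d k) (h : Site d k → Fin q) (w : Site d k) (γ : Fin q)
    (hw : ∀ σ : Stp d, w ≠ v + sv σ) : nf c (Function.update h w γ) v = nf c h v := by
  classical
  rw [F3_nf, F3_nf]
  refine sum_congr rfl fun σ _ => ?_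
  rw [Function.update_of_ne (fun e => hw σ e.symm)]

private theorem F3_nf_other (c : Fin q) (v : Site d k) (h : Site d k → Fin q) (w : Site d k) (γ : Fin q)
    (h1 : h w ≠ c) (h2 : γ ≠ c) : nf c (Function.update h w γ) v = nf c h v := by
  classical
  rw [F3_nf, F3_nf]
  refine sum_congr rfl fun σ _ => ?_
  by_cases e : v + sv σ = w
  · rw [e, Function.update_self, if_neg h1, if_neg h2]
  · rw [Function.update_of_ne e]

private theorem F3_trunc {x T : ℝ} (hx : 0 ≤ x) (hT : 0 ≤ T) : 0 ≤ (min x T) ^ 2 ∧ (min x T) ^ 2 ≤ T ^ 2 :=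
  ⟨sq_nonneg _, pow_le_pow_left₀ (le_min hx hT) (min_le_right _ _) 2⟩

private theorem F3_lip (H : Finset (Fin q)) (T : ℝ) (hT : 0 ≤ T) (v : Site d k) (h : Site d k → Fin q) (w : Site d k)
    (γ : Fin q) : |(∑ c ∈ H, (min (nf c (Function.update h w γ) v) T) ^ 2) - ∑ c ∈ H, (min (nf c h v) T) ^ 2| ≤ 2 * T ^ 2 := by
  classical
  rw [← sum_sub_distrib]
  refine (abs_sum_le_sum_abs _ _).trans ?_
  have h1 : ∀ c ∈ H, |(min (nf c (Function.update h w γ) v) T) ^ 2 - (min (nf c h v) T) ^ 2| ≤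
      if c ∈ ({h w, γ} : Finset (Fin q)) then T ^ 2 else 0 := by
    intro c _
    by_cases hc : c ∈ ({h w, γ} : Finset (Fin q))
    · rw [if_pos hc, abs_le]
      obtain ⟨a1, a2⟩ := F3_trunc (F3_nf_nonneg c (Function.update h w γ) v) hT
      obtain ⟨a3, a4⟩ := F3_trunc (F3_nf_nonneg c h v) hT
      constructor <;> linarith
    · rw [if_neg hc]
      rw [mem_insert, mem_singleton, not_or] at hc
      rw [F3_nf_other c v h w γ (fun e => hc.1 e.symm) (fun e => hc.2 e.symm), sub_self, abs_zero]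
  refine (sum_le_sum h1).trans ?_
  have h2 : ∑ c ∈ H, (if c ∈ ({h w, γ} : Finset (Fin q)) then T ^ 2 else 0) ≤
      ∑ c : Fin q, (if c ∈ ({h w, γ} : Finset (Fin q)) then T ^ 2 else 0) := by
    refine sum_le_sum_of_subset_of_nonneg (subset_univ _) fun c _ _ => ?_
    split_ifs
    · exact sq_nonneg T
    · exact le_rfl
  refine h2.trans ?_
  rw [← sum_filter, sum_const, nsmul_eq_mul]
  refine mul_le_mul_of_nonneg_right ?_ (sq_nonneg T)
  have h3 : (univ.filter fun c : Fin q => c ∈ ({h w, γ} : Finset (Fin q))) ⊆ {h w, γ} := fun c hc => (mem_filter.1 hc).2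
  have h4 := (card_le_card h3).trans card_le_two
  exact_mod_cast h4

/-- the deterministic inequality between the indicators -/
private theorem F3_point (H : Finset (Fin q)) (T θ μ : ℝ) (n : Fin q → ℝ)
    (hμ : μ ≤ θ) :
    ind (4 * θ < ∑ c ∈ H, n c ^ 2) ≤ (∑ c ∈ H, Real.exp (-T) * Real.exp (1 * n c)) +
      ind (θ ≤ |(∑ c ∈ H, (min (n c) T) ^ 2) - μ|) := by
  have h0 : ∀ c, 0 ≤ Real.exp (-T) * Real.exp (1 * n c) := fun c => by positivity
  by_cases hB : 4 * θ < ∑ c ∈ H, n c ^ 2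
  · rw [F3_ind_true hB]
    by_cases hT : ∃ c ∈ H, T < n c
    · obtain ⟨c, hc, hcT⟩ := hT
      have h1 : (1 : ℝ) ≤ Real.exp (-T) * Real.exp (1 * n c) := by
        rw [← Real.exp_add]
        exact Real.one_le_exp (by linarith)
      have h2 := single_le_sum (f := fun c => Real.exp (-T) * Real.exp (1 * n c)) (fun c _ => h0 c) hc
      have h3 := F3_ind_nonneg (θ ≤ |(∑ c ∈ H, (min (n c) T) ^ 2) - μ|)
      have h4 : Real.exp (-T) * Real.exp (1 * n c) ≤ ∑ c ∈ H, Real.exp (-T) * Real.exp (1 * n c) := h2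
      linarith
    · push Not at hT
      have h1 : ∑ c ∈ H, (min (n c) T) ^ 2 = ∑ c ∈ H, n c ^ 2 :=
        sum_congr rfl fun c hc => by rw [min_eq_left (hT c hc)]
      have h2 : 0 ≤ ∑ c ∈ H, Real.exp (-T) * Real.exp (1 * n c) := sum_nonneg fun c _ => h0 c
      have h3 : θ ≤ |(∑ c ∈ H, (min (n c) T) ^ 2) - μ| := by
        refine le_trans ?_ (le_abs_self _)
        rw [h1]
        have h5 : 0 ≤ ∑ c ∈ H, n c ^ 2 := sum_nonneg fun c _ => sq_nonneg _
        by_cases hθ : 0 ≤ θ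
        · linarith
        · push Not at hθ
          linarith
      rw [F3_ind_true h3]
      linarith
  · rw [F3_ind_false hB]
    exact add_nonneg (sum_nonneg fun c _ => h0 c) (F3_ind_nonneg _)

private theorem F3_exp_one : Real.exp 1 ≤ 3 := by
  have := Real.exp_one_lt_d9
  linarith

/-- the conditional probability -/
private theorem F3_prob (hd : 1 ≤ d) (hk : 3 ≤ k) (hR : Rg d q) (T : ℝ) (hT : 1 ≤ T) (b : Bool) {f : Site d k → Fin q}
    (hf : Prp f) (v : Site d k) (hv : v ∈ cls b d k) :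
    fm (!b) (fun h => ind (Real.exp (-ra d q / 2) * q <
      ∑ c : Fin q, ind (hh c h v ≤ 1.1 * Real.exp (-ra d q)) * nf c h v ^ 2)) f ≤
      8 * d * Real.exp (-T) + 2 * Real.exp (-((Real.exp (-1000) * q / 4) ^ 2 / (8 * d * (2 * T ^ 2) ^ 2))) := by
  classical
  obtain ⟨hq, hra1, hra2, hda, -, hqd, -, -, -⟩ := rg_pos hd hR
  have hd1 : (1 : ℝ) ≤ d := by exact_mod_cast hd
  have hq0 : (0 : ℝ) < q := by exact_mod_cast hq
  have hqd' : (q : ℝ) ≤ d := by nlinarith
  set H : Finset (Fin q) := univ.filter fun c => hh c f v ≤ 1.1 * Real.exp (-ra d q) with hH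
  set E : ℝ := Real.exp (-ra d q) with hE
  set θ : ℝ := Real.exp (-ra d q / 2) * q / 4 with hθ
  have hE0 : 0 < E := Real.exp_pos _
  have hE1 : E ≤ 1 := by
    rw [hE]
    exact Real.exp_le_one_iff.2 (by linarith)
  have hs0 : 0 < Real.exp (-ra d q / 2) := Real.exp_pos _
  have hs1 : Real.exp (-ra d q / 2) ≤ 1 / 500 := by
    have h1 : Real.exp (-ra d q / 2) ≤ Real.exp (-500) := Real.exp_le_exp.2 (by linarith)
    have h2 : Real.exp (-500) ≤ 1 / 500 := by
      rw [Real.exp_neg, ← one_div]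
      have h3 := Real.add_one_le_exp (500 : ℝ)
      exact one_div_le_one_div_of_le (by norm_num) (by linarith)
    exact h1.trans h2
  have hEs : E = Real.exp (-ra d q / 2) * Real.exp (-ra d q / 2) := by
    rw [hE, ← Real.exp_add]
    congr 1
    ring
  have hθ0 : 0 < θ := by positivity
  -- the mean
  have hmean : fm (!b) (fun h => ∑ c ∈ H, (min (nf c h v) T) ^ 2) f ≤ θ := by
    rw [fm_sum]
    have h1 : ∀ c ∈ H, fm (!b) (fun h => (min (nf c h v) T) ^ 2) f ≤ 3 * E := by
      intro c hc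
      have hc' : hh c f v ≤ 1.1 * E := (mem_filter.1 hc).2
      have hc0 : 0 ≤ hh c f v := hh_nonneg c f v
      have h2 : fm (!b) (fun h => (min (nf c h v) T) ^ 2) f ≤ fm (!b) (fun h => nf c h v ^ 2) f := by
        refine fm_mono (!b) hf fun h _ => ?_
        exact pow_le_pow_left₀ (le_min (F3_nf_nonneg c h v) (by linarith)) (min_le_left _ _) 2
      refine h2.trans ((nf_sq hk hf hv c).trans ?_)
      have h3 : hh c f v ^ 2 ≤ (1.1 * E) ^ 2 := pow_le_pow_left₀ hc0 hc' 2
      have h4 : (1.1 * E) ^ 2 ≤ 1.21 * E := by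
        have : (1.1 * E) ^ 2 = 1.21 * (E * E) := by ring
        rw [this]
        nlinarith
      linarith
    refine (sum_le_sum h1).trans ?_
    rw [sum_const, nsmul_eq_mul]
    have h5 : ((H.card : ℕ) : ℝ) ≤ q := by
      have := card_le_univ H
      rw [Fintype.card_fin] at this
      exact_mod_cast this
    calc (H.card : ℝ) * (3 * E) ≤ q * (3 * E) := mul_le_mul_of_nonneg_right h5 (by positivity)
      _ ≤ θ := by
        rw [hθ, hEs]
        have h6 : 0 < (q : ℝ) * Real.exp (-ra d q / 2) := by positivity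
        nlinarith
  -- comparison of the indicators
  have hle : ∀ h ∈ fib (!b) f, ind (Real.exp (-ra d q / 2) * q < ∑ c : Fin q, ind (hh c h v ≤ 1.1 * E) * nf c h v ^ 2) ≤
      (∑ c ∈ H, Real.exp (-T) * Real.exp (1 * nf c h v)) +
        ind (θ ≤ |(∑ c ∈ H, (min (nf c h v) T) ^ 2) - fm (!b) (fun h => ∑ c ∈ H, (min (nf c h v) T) ^ 2) f|) := by
    intro h hh'
    have h1 : ∑ c : Fin q, ind (hh c h v ≤ 1.1 * E) * nf c h v ^ 2 = ∑ c ∈ H, nf c h v ^ 2 := by
      rw [hH, sum_filter]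
      refine sum_congr rfl fun c _ => ?_
      rw [loc_hh_fib hk hv c hh']
      by_cases hc : hh c f v ≤ 1.1 * E
      · rw [F3_ind_true hc, if_pos hc, one_mul]
      · rw [F3_ind_false hc, if_neg hc, zero_mul]
    have h2 : Real.exp (-ra d q / 2) * q = 4 * θ := by
      rw [hθ]; ring
    rw [h1, h2]
    exact F3_point H T θ _ (fun c => nf c h v) hmean
  refine (fm_mono (!b) hf hle).trans ?_
  rw [fm_add, fm_sum]
  refine add_le_add ?_ ?_
  · -- the exponential moments
    have h1 : ∀ c ∈ H, fm (!b) (fun h => Real.exp (-T) * Real.exp (1 * nf c h v)) f ≤ 8 * Real.exp (-T) := by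
      intro c hc
      have hc' : hh c f v ≤ 1.1 * E := (mem_filter.1 hc).2
      have hc0 : 0 ≤ hh c f v := hh_nonneg c f v
      rw [fm_mul]
      have h2 := nf_exp hk hf hv c 1 zero_le_one
      have h3 : (Real.exp 1 - 1) * hh c f v ≤ 2 := by
        have h4 := F3_exp_one
        have h5 : hh c f v ≤ 1 := by
          have h6 : E ≤ 1 / 500 * (1 / 500) := by
            rw [hEs]
            exact mul_le_mul hs1 hs1 hs0.le (by norm_num)
          linarith
        have h7 : 0 ≤ Real.exp 1 - 1 := by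
          have := Real.add_one_le_exp (1 : ℝ)
          linarith
        nlinarith
      have h8 : Real.exp 2 ≤ 8 := by
        have h9 : Real.exp 2 = Real.exp 1 * Real.exp 1 := by
          rw [← Real.exp_add]; norm_num
        have h10 := Real.exp_one_lt_d9
        have h11 := Real.exp_pos 1
        rw [h9]
        nlinarith
      have h9 : fm (!b) (fun h => Real.exp (1 * nf c h v)) f ≤ 8 :=
        h2.trans ((Real.exp_le_exp.2 h3).trans h8)
      have h10 := Real.exp_pos (-T)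
      nlinarith
    refine (sum_le_sum h1).trans ?_
    rw [sum_const, nsmul_eq_mul]
    have h5 : ((H.card : ℕ) : ℝ) ≤ q := by
      have := card_le_univ H
      rw [Fintype.card_fin] at this
      exact_mod_cast this
    have h10 := Real.exp_pos (-T)
    calc (H.card : ℝ) * (8 * Real.exp (-T)) ≤ d * (8 * Real.exp (-T)) :=
          mul_le_mul_of_nonneg_right (h5.trans hqd') (by positivity)
      _ = 8 * d * Real.exp (-T) := by ring
  · -- the deviation
    have h1 := F3_mcd (by omega : 2 ≤ k) (!b) hf v (fun h => ∑ c ∈ H, (min (nf c h v) T) ^ 2) (2 * T ^ 2) (by positivity)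
      (fun h w γ => F3_lip H T (by linarith) v h w γ)
      (fun h w γ hw => by
        refine sum_congr rfl fun c _ => ?_
        rw [F3_nf0 c v h w γ hw]) θ hθ0.le (by
        have h2 : θ ≤ q := by
          rw [hθ]
          nlinarith
        have h3 : (1 : ℝ) ≤ T ^ 2 := one_le_pow₀ hT
        nlinarith) hd
    refine h1.trans ?_
    have h2 : (Real.exp (-1000) * q / 4) ^ 2 / (8 * d * (2 * T ^ 2) ^ 2) ≤ θ ^ 2 / (8 * d * (2 * T ^ 2) ^ 2) := by
      refine div_le_div_of_nonneg_right ?_ (by positivity)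
      refine pow_le_pow_left₀ (by positivity) ?_ 2
      rw [hθ]
      have h3 : Real.exp (-1000) ≤ Real.exp (-ra d q / 2) := Real.exp_le_exp.2 (by linarith)
      have h4 : Real.exp (-1000) * q ≤ Real.exp (-ra d q / 2) * q := mul_le_mul_of_nonneg_right h3 hq0.le
      linarith
    have h3 : Real.exp (-(θ ^ 2 / (8 * d * (2 * T ^ 2) ^ 2))) ≤
        Real.exp (-((Real.exp (-1000) * q / 4) ^ 2 / (8 * d * (2 * T ^ 2) ^ 2))) := Real.exp_le_exp.2 (by linarith)
    linarith

private theorem F3_prps {f : Site d k → Fin q} (hf : f ∈ prps d k q) : Prp f := by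
  classical
  unfold prps at hf
  exact (mem_filter.1 hf).2

theorem f3_pt : SR fun d _ q f v => Real.exp (-ra d q / 2) * q <
    ∑ c : Fin q, ind (hh c f v ≤ 1.1 * Real.exp (-ra d q)) * nf c f v ^ 2 := by
  refine SR_local false 2 (fun _ _ _ _ _ => True) _ ?_ ?_ ?_ ?_ ?_
  · refine reg_pt.mono ?_
    have h0 : EvT e3 fun d _ _ => 1 ≤ d := EvT_d (eventually_ge_atTop 1)
    exact h0.mono fun d k q _ _ f _ v h => absurd trivial h
  · intro d k q f g v _
    exact Iff.rfl
  · intro d k q f g v h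
    have h1 : ∀ c, nf c f v = nf c g v := by
      intro c
      classical
      rw [F3_nf, F3_nf]
      refine sum_congr rfl fun σ _ => ?_
      rw [h _ (nr_mono (by norm_num) (nr_step v σ))]
    have h2 : ∀ c, hh c f v = hh c g v := fun c => (loc_hh h c).1
    simp only [h1, h2]
  · have h0 : EvT e3 fun d _ _ => 1 ≤ d := EvT_d (eventually_ge_atTop 1)
    exact h0.mono fun d k q _ _ f _ b v _ h _ => Iff.rfl
  · intro K
    set c₀ : ℝ := Real.exp (-1000) ^ 2 / (512 * 10 ^ 6) with hc₀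
    have hc₀0 : 0 < c₀ := by positivity
    have hc₀1 : c₀ ≤ 1 := by
      rw [hc₀, div_le_one (by positivity)]
      have h1 : Real.exp (-1000) ≤ 1 := Real.exp_le_one_iff.2 (by norm_num)
      have h2 : Real.exp (-1000) ^ 2 ≤ 1 := pow_le_one₀ (Real.exp_pos _).le h1
      linarith
    have hexp : EvT e3 fun d _ _ => 10 * (d : ℝ) * Real.exp (-(c₀ * (d : ℝ) ^ (1 / 16 : ℝ))) ≤ 1 / (d : ℝ) ^ K :=
      EvT_d (F3_ev K hc₀0)
    refine ((EvT_reg (ε := e3) (by unfold e3; norm_num) (by unfold e3; norm_num) 3).and hexp).mono ?_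
    rintro d k q ⟨⟨hd, hq, hk, hreg, hreg', -, -, hda⟩, hexp⟩ hR f hf b v hv _
    have hd1 : (1 : ℝ) ≤ d := by linarith
    have hd1' : 1 ≤ d := by exact_mod_cast hd1
    have hd0 : (0 : ℝ) < d := by linarith
    have hk3 : 3 ≤ k := by exact_mod_cast hk
    have hq0 : (0 : ℝ) < q := by linarith
    set T : ℝ := (d : ℝ) ^ (1 / 16 : ℝ) with hT
    have hT1 : 1 ≤ T := Real.one_le_rpow hd1 (by norm_num)
    have hT0 : 0 < T := by linarith
    have hT16 : T ^ 16 = d := by
      rw [hT, ← Real.rpow_natCast ((d : ℝ) ^ (1 / 16 : ℝ)) 16, ← Real.rpow_mul hd0.le]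
      norm_num
    have hp := F3_prob hd1' hk3 hR T hT1 b (F3_prps hf) v hv
    refine le_trans (le_trans hp ?_) hexp
    have h1 : Real.exp (-T) ≤ Real.exp (-(c₀ * T)) := Real.exp_le_exp.2 (by nlinarith)
    have h2 : Real.exp (-((Real.exp (-1000) * q / 4) ^ 2 / (8 * d * (2 * T ^ 2) ^ 2))) ≤ Real.exp (-(c₀ * T)) := by
      refine Real.exp_le_exp.2 (neg_le_neg ?_)
      rw [le_div_iff₀ (by positivity)]
      have h3 : (e3 * d) ^ 2 ≤ (q : ℝ) ^ 2 := pow_le_pow_left₀ (by unfold e3; positivity) hreg 2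
      have h4 : T ^ 5 ≤ T ^ 16 := pow_le_pow_right₀ hT1 (by norm_num)
      rw [hT16] at h4
      have h5 : c₀ * T * (8 * d * (2 * T ^ 2) ^ 2) = 32 * c₀ * d * T ^ 5 := by ring
      have h6 : (Real.exp (-1000) * q / 4) ^ 2 = Real.exp (-1000) ^ 2 / 16 * (q : ℝ) ^ 2 := by ring
      rw [h5, h6]
      calc 32 * c₀ * d * T ^ 5 ≤ 32 * c₀ * d * d := mul_le_mul_of_nonneg_left h4 (by positivity)
        _ = Real.exp (-1000) ^ 2 / 16 * (e3 * d) ^ 2 := by
          rw [hc₀]
          unfold e3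
          ring
        _ ≤ Real.exp (-1000) ^ 2 / 16 * (q : ℝ) ^ 2 := mul_le_mul_of_nonneg_left h3 (by positivity)
    have h3 := Real.exp_pos (-(c₀ * T))
    calc 8 * (d : ℝ) * Real.exp (-T) + 2 * Real.exp (-((Real.exp (-1000) * q / 4) ^ 2 / (8 * d * (2 * T ^ 2) ^ 2)))
        ≤ 8 * (d : ℝ) * Real.exp (-(c₀ * T)) + 2 * Real.exp (-(c₀ * T)) := by
          refine add_le_add (mul_le_mul_of_nonneg_left h1 (by positivity)) (mul_le_mul_of_nonneg_left h2 (by norm_num))
      _ ≤ 10 * (d : ℝ) * Real.exp (-(c₀ * T)) := by nlinarith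

end Pool.Agent.LC

end

/-! ### from `Lib_MP_2c424f_lc1.F1` -/

section

/-!
# LC1 F1: few available colours with a large field

`SR_local`, `o = false`, `R = True`, radius 2.  `v ∈ cls b`: the set `H = {c : 1.79 a ≤ hh c f v}` does not change on the fibre of `!b` (`loc_hh_fib`).  `F h = ∑_{c ∈ H} zz h v c`, mean `∑_{c ∈ H} zt f v c ≤ q e^{-1.79a} ≤ e^{-a} q/4`
(`zt ≤ e^{-hh}`: `1 - x ≤ e^{-x}`).  A neighbour changes `F` by at most `1`: `fm_mcd` with `S = 2d`, `θ = e^{-a} q/4`: `≤ 2 exp (-e^{-2a} q²/(128 d)) ≤ d^(-K)`.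
-/

set_option autoImplicit false

open Finset Filter

namespace Pool.Agent.LC

open Pool.Agent.LO Pool.Agent.LIN Pool.Agent.THR Pool.Agent.COR

variable {d k q : ℕ}

private theorem F1_zt_le {f : Site d k → Fin q} (hf : Prp f) (v : Site d k) (c : Fin q) :
    zt f v c ≤ Real.exp (-hh c f v) := by
  unfold zt THR.hh
  rw [← Finset.sum_neg_distrib, Real.exp_sum]
  refine Finset.prod_le_prod (fun σ _ => ?_) fun σ _ => ?_
  · have h1 := (zz_av_le hf (v + sv σ) c).2
    have h2 := (zz_av_le hf (v + sv σ) c).1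
    have h3 : zz f (v + sv σ) c / (av f (v + sv σ) : ℝ) ≤ 1 := by
      have h4 : (1 : ℝ) ≤ av f (v + sv σ) := by exact_mod_cast av_pos hf (v + sv σ)
      have h5 : zz f (v + sv σ) c ≤ 1 := by
        unfold zz
        split_ifs
        · exact zero_le_one
        · exact le_rfl
      rw [div_le_one (by linarith)]
      exact h5.trans h4
    linarith
  · have h1 := Real.add_one_le_exp (-(zz f (v + sv σ) c / (av f (v + sv σ) : ℝ)))
    linarith

private theorem F1_zz_01 (f : Site d k → Fin q) (v : Site d k) (c : Fin q) : zz f v c = 0 ∨ zz f v c = 1 := by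
  unfold zz
  split_ifs
  · exact Or.inl rfl
  · exact Or.inr rfl

private theorem F1_mem (f : Site d k → Fin q) (x : Site d k) (c : Fin q) :
    c ∈ SS f x ↔ ∃ τ : Stp d, f (x + sv τ) = c := by
  unfold SS
  simp only [Finset.mem_image, Finset.mem_univ, true_and]

private theorem F1_zz_congr {f g : Site d k → Fin q} {v : Site d k} {c : Fin q} (h : c ∈ SS f v ↔ c ∈ SS g v) :
    zz f v c = zz g v c := by
  unfold zz
  by_cases h1 : c ∈ SS f v
  · rw [if_pos h1, if_pos (h.1 h1)]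
  · rw [if_neg h1, if_neg fun h2 => h1 (h.2 h2)]

private theorem F1_zz_upd (h : Site d k → Fin q) (v u : Site d k) (γ c : Fin q) :
    |zz (Function.update h u γ) v c - zz h v c| ≤ ind (c = h u) + ind (c = γ) := by
  have hi : ∀ P : Prop, 0 ≤ ind P := by
    intro P
    unfold ind
    split_ifs <;> norm_num
  have hi1 : ∀ P : Prop, P → ind P = 1 := by
    intro P hP
    unfold ind
    rw [if_pos hP]
  have habs : |zz (Function.update h u γ) v c - zz h v c| ≤ 1 := by
    rcases F1_zz_01 (Function.update h u γ) v c with h1 | h1 <;> rcases F1_zz_01 h v c with h2 | h2 <;>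
      rw [h1, h2] <;> norm_num
  by_cases h1 : c = h u
  · rw [hi1 _ h1]
    linarith [hi (c = γ)]
  · by_cases h2 : c = γ
    · rw [hi1 _ h2]
      linarith [hi (c = h u)]
    · have h3 : zz (Function.update h u γ) v c = zz h v c := by
        refine F1_zz_congr ?_
        rw [F1_mem, F1_mem]
        refine exists_congr fun τ => ?_
        by_cases h4 : v + sv τ = u
        · rw [h4, Function.update_self]
          exact ⟨fun h5 => absurd h5.symm h2, fun h5 => absurd h5.symm h1⟩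
        · rw [Function.update_of_ne h4]
      rw [h3, sub_self, abs_zero]
      linarith [hi (c = h u), hi (c = γ)]

private theorem F1_zz_off (h : Site d k → Fin q) (v u : Site d k) (γ c : Fin q) (hu : ∀ τ : Stp d, v + sv τ ≠ u) :
    zz (Function.update h u γ) v c = zz h v c := by
  refine F1_zz_congr ?_
  rw [F1_mem, F1_mem]
  refine exists_congr fun τ => ?_
  rw [Function.update_of_ne (hu τ)]

private theorem F1_ind_sum (x : Fin q) : ∑ c : Fin q, ind (c = x) = 1 := by
  classical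
  unfold ind
  rw [Finset.sum_eq_single x]
  · rw [if_pos rfl]
  · intro c _ hc
    rw [if_neg hc]
  · intro h
    exact absurd (Finset.mem_univ x) h

private theorem F1_lip (H : Finset (Fin q)) (h : Site d k → Fin q) (v u : Site d k) (γ : Fin q) :
    |∑ c ∈ H, zz (Function.update h u γ) v c - ∑ c ∈ H, zz h v c| ≤ 2 * ind (∃ τ : Stp d, v + sv τ = u) := by
  have hi : ∀ P : Prop, 0 ≤ ind P := by
    intro P
    unfold ind
    split_ifs <;> norm_num
  by_cases hu : ∃ τ : Stp d, v + sv τ = u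
  · have h0 : ind (∃ τ : Stp d, v + sv τ = u) = 1 := by
      unfold ind
      rw [if_pos hu]
    rw [h0, ← Finset.sum_sub_distrib]
    calc |∑ c ∈ H, (zz (Function.update h u γ) v c - zz h v c)|
        ≤ ∑ c ∈ H, |zz (Function.update h u γ) v c - zz h v c| := Finset.abs_sum_le_sum_abs _ _
      _ ≤ ∑ c ∈ H, (ind (c = h u) + ind (c = γ)) := Finset.sum_le_sum fun c _ => F1_zz_upd h v u γ c
      _ ≤ ∑ c : Fin q, (ind (c = h u) + ind (c = γ)) :=
          Finset.sum_le_sum_of_subset_of_nonneg (Finset.subset_univ _) fun c _ _ => by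
            linarith [hi (c = h u), hi (c = γ)]
      _ = 2 * 1 := by
          rw [Finset.sum_add_distrib, F1_ind_sum, F1_ind_sum]
          norm_num
  · have h0 : ∀ c ∈ H, zz (Function.update h u γ) v c = zz h v c := fun c _ =>
      F1_zz_off h v u γ c fun τ hτ => hu ⟨τ, hτ⟩
    rw [Finset.sum_congr rfl h0, sub_self, abs_zero]
    linarith [hi (∃ τ : Stp d, v + sv τ = u)]

private theorem F1_nb (v : Site d k) (A : Finset (Site d k)) :
    ∑ u ∈ A, (2 * ind (∃ τ : Stp d, v + sv τ = u)) ^ 2 ≤ 8 * (d : ℝ) := by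
  classical
  have h1 : ∀ u : Site d k, (2 * ind (∃ τ : Stp d, v + sv τ = u)) ^ 2 ≤ ∑ τ : Stp d, (if v + sv τ = u then (4 : ℝ) else 0) := by
    intro u
    by_cases hu : ∃ τ : Stp d, v + sv τ = u
    · obtain ⟨τ, hτ⟩ := hu
      have h2 : ind (∃ τ : Stp d, v + sv τ = u) = 1 := by
        unfold ind
        rw [if_pos ⟨τ, hτ⟩]
      rw [h2]
      have h3 : (if v + sv τ = u then (4 : ℝ) else 0) ≤ ∑ τ : Stp d, (if v + sv τ = u then (4 : ℝ) else 0) :=
        Finset.single_le_sum (f := fun τ : Stp d => if v + sv τ = u then (4 : ℝ) else 0) (fun τ' _ => by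
          split_ifs
          · norm_num
          · exact le_rfl) (Finset.mem_univ τ)
      rw [if_pos hτ] at h3
      linarith
    · have h2 : ind (∃ τ : Stp d, v + sv τ = u) = 0 := by
        unfold ind
        rw [if_neg hu]
      rw [h2]
      have h3 : (0 : ℝ) ≤ ∑ τ : Stp d, (if v + sv τ = u then (4 : ℝ) else 0) :=
        Finset.sum_nonneg fun τ _ => by
          split_ifs
          · norm_num
          · exact le_rfl
      linarith
  calc ∑ u ∈ A, (2 * ind (∃ τ : Stp d, v + sv τ = u)) ^ 2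
      ≤ ∑ u : Site d k, (2 * ind (∃ τ : Stp d, v + sv τ = u)) ^ 2 :=
        Finset.sum_le_sum_of_subset_of_nonneg (Finset.subset_univ _) fun u _ _ => sq_nonneg _
    _ ≤ ∑ u : Site d k, ∑ τ : Stp d, (if v + sv τ = u then (4 : ℝ) else 0) := Finset.sum_le_sum fun u _ => h1 u
    _ = ∑ τ : Stp d, ∑ u : Site d k, (if v + sv τ = u then (4 : ℝ) else 0) := Finset.sum_comm
    _ = ∑ _τ : Stp d, (4 : ℝ) := by
        refine Finset.sum_congr rfl fun τ _ => ?_
        rw [Finset.sum_ite_eq, if_pos (Finset.mem_univ _)]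
    _ = 8 * d := by
        rw [Finset.sum_const, nsmul_eq_mul, Finset.card_univ, Fintype.card_prod, Fintype.card_fin, Fintype.card_bool]
        push_cast
        ring

private theorem F1_cn (P : Fin q → Prop) (f : Site d k → Fin q) (v : Site d k) (H : Finset (Fin q))
    (hH : ∀ c, c ∈ H ↔ P c) : cn (fun c : Fin q => zz f v c = 1 ∧ P c) = ∑ c ∈ H, zz f v c := by
  classical
  unfold cn
  have h1 : (univ.filter fun c : Fin q => zz f v c = 1 ∧ P c) = H.filter fun c => zz f v c = 1 := by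
    ext c
    simp only [Finset.mem_filter, Finset.mem_univ, true_and, hH]
    exact and_comm
  have h2 : ∀ c ∈ H, zz f v c = if zz f v c = 1 then (1 : ℝ) else 0 := by
    intro c _
    rcases F1_zz_01 f v c with h3 | h3
    · rw [h3, if_neg (by norm_num)]
    · rw [h3, if_pos rfl]
  rw [Finset.sum_congr rfl h2, Finset.sum_boole, ← h1]
  congr 2
  ext c
  simp only [Finset.mem_filter]

private theorem F1_ev (K : ℕ) : ∀ᶠ d : ℕ in atTop,
    2 * Real.exp (-(Real.exp (-4000) / 512000000 * d)) ≤ 1 / (d : ℝ) ^ K := by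
  have hb : (0 : ℝ) < Real.exp (-4000) / 512000000 := by positivity
  have h := (isLittleO_pow_exp_pos_mul_atTop (k := K) hb).bound (c := 1 / 2) (by norm_num)
  have h' := tendsto_natCast_atTop_atTop.eventually h
  filter_upwards [h', eventually_ge_atTop 1] with d hd hd1
  have hd0 : (0 : ℝ) < d := by exact_mod_cast hd1
  rw [Real.norm_of_nonneg (by positivity), Real.norm_of_nonneg (Real.exp_pos _).le] at hd
  rw [Real.exp_neg, le_div_iff₀ (by positivity)]
  have he := Real.exp_pos (Real.exp (-4000) / 512000000 * (d : ℝ))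
  have h3 : 2 * (Real.exp (Real.exp (-4000) / 512000000 * (d : ℝ)))⁻¹ * (d : ℝ) ^ K =
      2 * (d : ℝ) ^ K / Real.exp (Real.exp (-4000) / 512000000 * (d : ℝ)) := by
    field_simp
  rw [h3, div_le_one he]
  linarith

private theorem F1_main (hk : 3 ≤ k) (hd : 1 ≤ d) (hR : Rg d q) {f : Site d k → Fin q} (hf : Prp f) (b : Bool)
    (v : Site d k) (hv : v ∈ cls b d k) :
    fm (!b) (fun h => ind (Real.exp (-ra d q) * q / 2 < cn (fun c : Fin q => zz h v c = 1 ∧ 1.79 * ra d q ≤ hh c h v))) f ≤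
      2 * Real.exp (-(Real.exp (-4000) / 512000000 * d)) := by
  classical
  obtain ⟨_, hR1, hR2⟩ := hR
  have hR1' : 1000 * (q : ℝ) ≤ 2 * d := by exact_mod_cast hR1
  have hR2' : 2 * (d : ℝ) ≤ 2000 * q := by exact_mod_cast hR2
  have hd0 : (1 : ℝ) ≤ d := by exact_mod_cast hd
  have hq0 : (0 : ℝ) < q := by linarith
  set a : ℝ := ra d q with ha
  have ha1 : 1000 ≤ a := by
    rw [ha]
    unfold ra
    rw [le_div_iff₀ hq0]
    exact hR1'
  have ha2 : a ≤ 2000 := by
    rw [ha]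
    unfold ra
    rw [div_le_iff₀ hq0]
    exact hR2'
  set H : Finset (Fin q) := univ.filter fun c => 1.79 * a ≤ hh c f v with hH
  have hHm : ∀ c, c ∈ H ↔ 1.79 * a ≤ hh c f v := by
    intro c
    rw [hH]
    simp only [Finset.mem_filter, Finset.mem_univ, true_and]
  set F : (Site d k → Fin q) → ℝ := fun h => ∑ c ∈ H, zz h v c with hF
  have hmean : fm (!b) F f = ∑ c ∈ H, zt f v c := by
    rw [hF, fm_sum]
    exact Finset.sum_congr rfl fun c _ => fm_zz (by omega) b hf v hv c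
  have hmean2 : fm (!b) F f ≤ Real.exp (-a) * q / 4 := by
    rw [hmean]
    have h1 : ∀ c ∈ H, zt f v c ≤ Real.exp (-a) / 4 := by
      intro c hc
      have h2 := F1_zt_le hf v c
      have h3 := (hHm c).1 hc
      have h4 : Real.exp (-hh c f v) ≤ Real.exp (-a + -(0.79 * a)) := Real.exp_le_exp.2 (by linarith)
      rw [Real.exp_add] at h4
      have h5 : Real.exp (-(0.79 * a)) ≤ 1 / 4 := by
        rw [Real.exp_neg, inv_le_comm₀ (Real.exp_pos _) (by norm_num)]
        have h6 := Real.add_one_le_exp (0.79 * a)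
        have h7 : (4 : ℝ) ≤ 0.79 * a + 1 := by
          have : (0.79 : ℝ) * 1000 ≤ 0.79 * a := mul_le_mul_of_nonneg_left ha1 (by norm_num)
          norm_num at this ⊢
          linarith
        norm_num
        linarith
      have h8 := Real.exp_pos (-a)
      have h9 : Real.exp (-a) * Real.exp (-(0.79 * a)) ≤ Real.exp (-a) * (1 / 4) :=
        mul_le_mul_of_nonneg_left h5 h8.le
      linarith
    calc ∑ c ∈ H, zt f v c ≤ ∑ _c ∈ H, Real.exp (-a) / 4 := Finset.sum_le_sum h1
      _ = (H.card : ℝ) * (Real.exp (-a) / 4) := by rw [Finset.sum_const, nsmul_eq_mul]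
      _ ≤ (q : ℝ) * (Real.exp (-a) / 4) := by
          refine mul_le_mul_of_nonneg_right ?_ (by positivity)
          have h2 : H.card ≤ q := by
            refine (Finset.card_le_univ H).trans ?_
            rw [Fintype.card_fin]
          exact_mod_cast h2
      _ = Real.exp (-a) * q / 4 := by ring
  set θ : ℝ := Real.exp (-a) * q / 4 with hθ
  have hea : Real.exp (-a) ≤ 1 := Real.exp_le_one_iff.2 (by linarith)
  have hea0 := Real.exp_pos (-a)
  have hqd : (q : ℝ) ≤ d := by linarith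
  have hθ1 : θ ≤ d := by
    rw [hθ]
    nlinarith
  have hθ0 : 0 ≤ θ := by positivity
  have hi : ∀ P : Prop, 0 ≤ ind P ∧ ind P ≤ 1 := by
    intro P
    unfold ind
    split_ifs <;> norm_num
  have hm := fm_mcd (by omega) (!b) hf F (fun u => 2 * ind (∃ τ : Stp d, v + sv τ = u))
    (fun u => by
      have := (hi (∃ τ : Stp d, v + sv τ = u)).1
      positivity) (fun h _ u _ γ _ => F1_lip H h v u γ) (8 * d) θ (F1_nb v _) (by positivity) hθ0 (by
        intro u _
        have h1 := (hi (∃ τ : Stp d, v + sv τ = u)).2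
        have h2 := (hi (∃ τ : Stp d, v + sv τ = u)).1
        have h3 : θ * (2 * ind (∃ τ : Stp d, v + sv τ = u)) ≤ d * (2 * 1) :=
          mul_le_mul hθ1 (by linarith) (by linarith) (by linarith)
        linarith)
  have hle : fm (!b) (fun h => ind (Real.exp (-a) * q / 2 < cn (fun c : Fin q => zz h v c = 1 ∧ 1.79 * a ≤ hh c h v))) f ≤
      fm (!b) (fun h => ind (θ ≤ |F h - fm (!b) F f|)) f := by
    refine fm_mono (!b) hf fun h hh' => ?_
    by_cases h1 : Real.exp (-a) * q / 2 < cn (fun c : Fin q => zz h v c = 1 ∧ 1.79 * a ≤ hh c h v)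
    · have h2 : cn (fun c : Fin q => zz h v c = 1 ∧ 1.79 * a ≤ hh c h v) = F h := by
        refine F1_cn (fun c => 1.79 * a ≤ hh c h v) h v H fun c => ?_
        rw [hHm c, loc_hh_fib hk hv c hh']
      rw [h2] at h1
      have h3 : θ ≤ |F h - fm (!b) F f| := by
        refine le_trans ?_ (le_abs_self _)
        have h4 : θ = Real.exp (-a) * q / 2 - Real.exp (-a) * q / 4 := by
          rw [hθ]
          ring
        rw [h4]
        linarith
      have h5 : ind (θ ≤ |F h - fm (!b) F f|) = 1 := by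
        unfold ind
        rw [if_pos h3]
      rw [h5]
      exact (hi _).2
    · have h5 : ind (Real.exp (-a) * q / 2 < cn (fun c : Fin q => zz h v c = 1 ∧ 1.79 * a ≤ hh c h v)) = 0 := by
        unfold ind
        rw [if_neg h1]
      rw [h5]
      exact (hi _).1
  refine hle.trans (hm.trans ?_)
  refine mul_le_mul_of_nonneg_left (Real.exp_le_exp.2 (neg_le_neg ?_)) (by norm_num)
  have h1 : Real.exp (-4000) ≤ Real.exp (-a) ^ 2 := by
    rw [← Real.exp_nat_mul]
    refine Real.exp_le_exp.2 ?_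
    push_cast
    linarith
  have h2 : (d : ℝ) ^ 2 ≤ 1000000 * (q : ℝ) ^ 2 := by nlinarith
  have h3 : θ ^ 2 / (4 * (8 * (d : ℝ))) = Real.exp (-a) ^ 2 * (q : ℝ) ^ 2 / (512 * d) := by
    rw [hθ]
    field_simp
    ring
  rw [h3, le_div_iff₀ (by positivity)]
  have h4 : Real.exp (-4000) / 512000000 * (d : ℝ) * (512 * d) = Real.exp (-4000) * ((d : ℝ) ^ 2 / 1000000) := by
    ring
  rw [h4]
  refine mul_le_mul h1 ?_ (by positivity) (by positivity)
  linarith

private theorem F1_true : EvT e3 fun _ _ _ => True :=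
  (EvT_d (P := fun _ => True) (Filter.Eventually.of_forall fun _ => trivial)).mono
    fun _ _ _ _ => trivial

theorem f1_pt : SR fun d _ q f v => Real.exp (-ra d q) * q / 2 < cn (fun c : Fin q => zz f v c = 1 ∧ 1.79 * ra d q ≤ hh c f v) := by
  refine SR_local false 2 (fun _ _ _ _ _ => True) _ ?_ ?_ ?_ ?_ ?_
  · exact reg_pt.mono (F1_true.mono fun _ _ _ _ _ _ _ _ h => absurd trivial h)
  · intro _ _ _ _ _ _ _
    exact Iff.rfl
  · intro d k q f g v h
    have h1 := (loc_av (fun u hu => h u (nr_mono (by norm_num) hu))).2.2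
    have h2 : ∀ c, hh c f v = hh c g v := fun c => (loc_hh h c).1
    simp only [h1, h2]
  · exact F1_true.mono fun _ _ _ _ _ _ _ _ _ _ _ _ => Iff.rfl
  · intro K
    have he : (0 : ℝ) < e3 := by unfold e3; norm_num
    have he1 : e3 ≤ 1 := by unfold e3; norm_num
    refine (((EvT_d (F1_ev K)).and (EvT_d (eventually_ge_atTop 1))).and (EvT_reg he he1 3)).mono ?_
    rintro d k q ⟨⟨h1, h2⟩, h3⟩ hR f hf b v hv _
    have hk : 3 ≤ k := by
      have h4 : (3 : ℝ) ≤ k := h3.2.2.1
      exact_mod_cast h4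
    have hf' : Prp f := by
      classical
      unfold prps at hf
      exact (Finset.mem_filter.1 hf).2
    exact (F1_main hk h2 hR hf' b v hv).trans h1

end Pool.Agent.LC

end

/-! ### from `Lib_MP_2c424f_lc6.C03` -/

section

/-!
# LC6 C03: the product domains in layers

A pair `(f, g)` of colourings of `WV per L s` is a family of layers `σ : Fin (lm (per j) (L j) s + 1) → (YV → Fin q × Fin q)`,
`σ a y = (f (inj j a y), g (inj j a y))` (`layE`, `split_proper` of `Lib_MP_2c424f_lc2/B02.lean`; note `YV j (fun i => per i) L s` is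
definitionally the type of the families over `{i // i ≠ j}`).  The pair is counted in `N2` iff every layer is `vld`, neighbouring layers are
`dif`, the layers `0` and last are `smy` if `per j = false`, and the events hold.
The block `t` has its points in the layers `off + 2 t j + {0, 1, 2}`: `Wpt per L s t a b = inj j (Fin.ofNat _ (..)) (Ypt ..)`, so for
`off + 2 t_j = 2 ℓ'` the event is `Qs` (with `ℓ = t j`) of the layers `2ℓ', 2ℓ'+1, 2ℓ'+2`.
* `path_val` (`s` even, `s ≥ 1`, `m = lm false (L j) s = 2 (L j - 1 + s)`): `slab_path` with `n = L j - 1 + s`, `u = w = vY`,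
  `M ℓ a b c = T a b T b c [Qs (ℓ - s/2) a b c if s/2 ≤ ℓ < s/2 + L j - 1]`; the free slabs give `T^2`, in all `T^s` before and after.
* `ring_val` (`m + 1 = 2 L j`): `slab_ring` with `n = L j`.
-/

set_option autoImplicit false

open Finset Matrix

namespace Pool.Agent.LC

open Pool.Agent.LO Pool.Agent.LIN Pool.Agent.THR Pool.Agent.COR

variable {d q : ℕ}

private theorem c3_inj_same {I : Type} [DecidableEq I] {n : I → ℕ} (j : I) (a : Fin (n j))
    (y : ∀ i : {i // i ≠ j}, Fin (n i)) : inj j a y j = a := by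
  unfold inj
  simp [Equiv.piSplitAt]

private theorem c3_inj_ne {I : Type} [DecidableEq I] {n : I → ℕ} (j : I) (a : Fin (n j))
    (y : ∀ i : {i // i ≠ j}, Fin (n i)) (i : I) (h : i ≠ j) : inj j a y i = y ⟨i, h⟩ := by
  unfold inj
  simp [Equiv.piSplitAt, h]

private theorem c3_inj_surj {I : Type} [DecidableEq I] {n : I → ℕ} (j : I) (x : ∀ i, Fin (n i)) :
    inj j (x j) (fun i => x i) = x := by
  funext i
  by_cases h : i = j
  · subst h
    exact c3_inj_same _ _ _
  · rw [c3_inj_ne j _ _ i h]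

/-- pairs of colourings are families of layers -/
private def pairE (q : ℕ) (per : Fin d → Bool) (L : Fin d → ℕ) (s : ℕ) (j : Fin d) :
    ((WV per L s → Fin q) × (WV per L s → Fin q)) ≃
      (Fin (lm (per j) (L j) s + 1) → YV j (fun i => per i) L s → Fin q × Fin q) :=
  (Equiv.arrowProdEquivProdArrow (WV per L s) (fun _ => Fin q) (fun _ => Fin q)).symm.trans
    (layE (n := fun i => lm (per i) (L i) s + 1) (Fin q × Fin q) j)

private theorem pairE_apply (per : Fin d → Bool) (L : Fin d → ℕ) (s : ℕ) (j : Fin d)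
    (p : (WV per L s → Fin q) × (WV per L s → Fin q)) (a : Fin (lm (per j) (L j) s + 1))
    (y : YV j (fun i => per i) L s) :
    pairE q per L s j p a y =
      (p.1 (inj (n := fun i => lm (per i) (L i) s + 1) j a y), p.2 (inj (n := fun i => lm (per i) (L i) s + 1) j a y)) := rfl

private theorem Wpt_inj (per : Fin d → Bool) (L : Fin d → ℕ) (s : ℕ) (j : Fin d) (t : Fin d → ℕ) (α β : Bt d) :
    Wpt per L s t α β = inj (n := fun i => lm (per i) (L i) s + 1) j
      (Fin.ofNat (lm (per j) (L j) s + 1) (off (per j) s + 2 * t j + b01 (α j) + b01 (β j)))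
      (Ypt j (fun i => per i) L s t α β) := by
  funext i
  by_cases h : i = j
  · subst h
    rw [c3_inj_same]
    rfl
  · rw [c3_inj_ne j _ _ i h]
    rfl

private theorem l3_b01 {A : Type} (N o : ℕ) (σ : Fin (N + 1) → A) (x y : Bool) :
    σ (Fin.ofNat (N + 1) (o + b01 x + b01 y)) =
      l3 (σ (Fin.ofNat (N + 1) o)) (σ (Fin.ofNat (N + 1) (o + 1))) (σ (Fin.ofNat (N + 1) (o + 2))) x y := by
  cases x <;> cases y <;> rfl

open scoped Classical in
private theorem N2_layers (per : Fin d → Bool) (L : Fin d → ℕ) (s : ℕ) (j : Fin d)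
    (Γ : (Fin d → ℕ) → Option (Option (Fin q))) :
    N2 (WG per L s) (Wgl per L s) (WE per L s Γ) =
      ∑ σ : Fin (lm (per j) (L j) s + 1) → YV j (fun i => per i) L s → Fin q × Fin q,
        (if (∀ a, vld (YG j (fun i => per i) L s) (Ygl j (fun i => per i) L s) (σ a)) ∧
            (∀ a a', (lnG (per j) (lm (per j) (L j) s + 1)).Adj a a' → dif (σ a) (σ a')) ∧
            (∀ a : Fin (lm (per j) (L j) s + 1), per j = false → (a.val = 0 ∨ a.val = lm (per j) (L j) s) → smy (σ a)) ∧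
            ∀ ℓ < nbk (per j) (L j), Qs j (fun i => per i) L s Γ ℓ
              (σ (Fin.ofNat (lm (per j) (L j) s + 1) (off (per j) s + 2 * ℓ)))
              (σ (Fin.ofNat (lm (per j) (L j) s + 1) (off (per j) s + 2 * ℓ + 1)))
              (σ (Fin.ofNat (lm (per j) (L j) s + 1) (off (per j) s + 2 * ℓ + 2))) then (1 : ℝ) else 0) := by
  unfold N2
  rw [Finset.sum_boole, Nat.cast_inj]
  refine Finset.card_equiv (pairE q per L s j) fun p => ?_
  simp only [Finset.mem_filter, Finset.mem_univ, true_and]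
  have h1 := split_proper (n := fun i => lm (per i) (L i) s + 1) j
    (fun i => lnG (per i) (lm (per i) (L i) s + 1)) p.1
  have h2 := split_proper (n := fun i => lm (per i) (L i) s + 1) j
    (fun i => lnG (per i) (lm (per i) (L i) s + 1)) p.2
  have hW : ∀ t : Fin d → ℕ, ∀ α β : Bt d, p.1 (Wpt per L s t α β) =
      (l3 (pairE q per L s j p (Fin.ofNat (lm (per j) (L j) s + 1) (off (per j) s + 2 * t j)))
        (pairE q per L s j p (Fin.ofNat (lm (per j) (L j) s + 1) (off (per j) s + 2 * t j + 1)))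
        (pairE q per L s j p (Fin.ofNat (lm (per j) (L j) s + 1) (off (per j) s + 2 * t j + 2)))
        (α j) (β j) (Ypt j (fun i => per i) L s t α β)).1 := by
    intro t α β
    rw [Wpt_inj per L s j t α β, ← l3_b01]
    rfl
  constructor
  · rintro ⟨hf, hg, hgl, hE⟩
    obtain ⟨hf1, hf2⟩ := h1.1 hf
    obtain ⟨hg1, hg2⟩ := h2.1 hg
    refine ⟨fun a => ⟨fun y y' hy => hf1 a y y' hy, fun y y' hy => hg1 a y y' hy, ?_⟩, fun a a' ha y => ⟨hf2 a a' ha y, hg2 a a' ha y⟩, ?_, ?_⟩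
    · rintro y ⟨i, hi, hi2⟩
      refine hgl (inj (n := fun i => lm (per i) (L i) s + 1) j a y) ⟨i.1, hi, ?_⟩
      have := c3_inj_ne (n := fun i => lm (per i) (L i) s + 1) j a y i.1 i.2
      rw [this]
      exact hi2
    · intro a hp ha y
      refine hgl (inj (n := fun i => lm (per i) (L i) s + 1) j a y) ⟨j, hp, ?_⟩
      have := c3_inj_same (n := fun i => lm (per i) (L i) s + 1) j a y
      rw [this]
      exact ha
    · intro ℓ hℓ t ht htn τ hτ
      have h3 := hE t (fun i => by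
        by_cases h : i = j
        · subst h
          rw [ht]
          exact hℓ
        · exact htn ⟨i, h⟩) τ hτ
      have e : (fun α β => p.1 (Wpt per L s t α β)) = fun α β =>
          (l3 (pairE q per L s j p (Fin.ofNat (lm (per j) (L j) s + 1) (off (per j) s + 2 * ℓ)))
        (pairE q per L s j p (Fin.ofNat (lm (per j) (L j) s + 1) (off (per j) s + 2 * ℓ + 1)))
        (pairE q per L s j p (Fin.ofNat (lm (per j) (L j) s + 1) (off (per j) s + 2 * ℓ + 2)))
        (α j) (β j) (Ypt j (fun i => per i) L s t α β)).1 := by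
        funext α β
        rw [hW t α β, ht]
      rw [e] at h3
      exact h3
  · rintro ⟨hv, hd, hs, hQ⟩
    refine ⟨h1.2 ⟨fun a y y' hy => (hv a).1 y y' hy, fun a a' ha y => (hd a a' ha y).1⟩,
      h2.2 ⟨fun a y y' hy => (hv a).2.1 y y' hy, fun a a' ha y => (hd a a' ha y).2⟩, ?_, ?_⟩
    · rintro x ⟨i, hi, hi2⟩
      have e := c3_inj_surj (n := fun i => lm (per i) (L i) s + 1) j x
      by_cases h : i = j
      · subst h
        have h4 := hs (x i) hi hi2 (fun k => x k)
        rw [pairE_apply] at h4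
        simp only at h4
        rw [e] at h4
        exact h4
      · have h4 := (hv (x j)).2.2 (fun k => x k) ⟨⟨i, h⟩, hi, hi2⟩
        rw [pairE_apply] at h4
        simp only at h4
        rw [e] at h4
        exact h4
    · intro t ht τ hτ
      have h4 := hQ (t j) (ht j) t rfl (fun i => ht i.1) τ hτ
      have e : (fun α β => p.1 (Wpt per L s t α β)) = fun α β =>
          (l3 (pairE q per L s j p (Fin.ofNat (lm (per j) (L j) s + 1) (off (per j) s + 2 * t j)))
        (pairE q per L s j p (Fin.ofNat (lm (per j) (L j) s + 1) (off (per j) s + 2 * t j + 1)))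
        (pairE q per L s j p (Fin.ofNat (lm (per j) (L j) s + 1) (off (per j) s + 2 * t j + 2)))
        (α j) (β j) (Ypt j (fun i => per i) L s t α β)).1 := by
        funext α β
        exact hW t α β
      rw [e]
      exact h4

private theorem ofNat_val (m k : ℕ) (h : k ≤ m) : (Fin.ofNat (m + 1) k).val = k := by
  show k % (m + 1) = k
  exact Nat.mod_eq_of_lt (by omega)

private theorem eq_ofNat (m : ℕ) (a : Fin (m + 1)) : a = Fin.ofNat (m + 1) a.val := by
  apply Fin.ext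
  rw [ofNat_val m _ (by omega)]

private theorem prod_sq {S : Type} [Fintype S] [DecidableEq S] (T : Matrix S S ℝ) (F : ℕ → Matrix S S ℝ) (k : ℕ)
    (h : ∀ ℓ < k, F ℓ = T * T) : ((List.range k).map F).prod = T ^ (2 * k) := by
  induction k with
  | zero => simp
  | succ k ih =>
    rw [List.range_succ, List.map_append, List.prod_append, ih fun ℓ hℓ => h ℓ (by omega)]
    simp only [List.map_cons, List.map_nil, List.prod_cons, List.prod_nil, mul_one]
    rw [h k (by omega), show 2 * (k + 1) = 2 * k + 2 by ring, pow_add, pow_two]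

open scoped Classical in
private theorem path_sum {S : Type} [Fintype S] [DecidableEq S] (m n s' K : ℕ) (hm : m = 2 * n) (hn : n = s' + K + s')
    (hs : 1 ≤ s') (V : S → Prop) (D : S → S → Prop) (hD : ∀ a b, D a b → D b a) (Y : S → Prop) (Q : ℕ → S → S → S → Prop)
    (T : Matrix S S ℝ) (hT : ∀ a b, T a b = if V a ∧ V b ∧ D a b then 1 else 0)
    (P : ℕ → Matrix S S ℝ) (hP : ∀ ℓ a c, P ℓ a c = ∑ b, T a b * T b c * (if Q ℓ a b c then 1 else 0))
    (v : S → ℝ) (hv : ∀ a, v a = if Y a then 1 else 0) :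
    ∑ σ : Fin (m + 1) → S, (if (∀ a, V (σ a)) ∧ (∀ a a', (lnG false (m + 1)).Adj a a' → D (σ a) (σ a')) ∧
        (∀ a : Fin (m + 1), (a.val = 0 ∨ a.val = m) → Y (σ a)) ∧
        ∀ ℓ < K, Q ℓ (σ (Fin.ofNat (m + 1) (2 * s' + 2 * ℓ))) (σ (Fin.ofNat (m + 1) (2 * s' + 2 * ℓ + 1)))
          (σ (Fin.ofNat (m + 1) (2 * s' + 2 * ℓ + 2))) then (1 : ℝ) else 0) =
      v ⬝ᵥ ((T ^ (2 * s') * ((List.range K).map P).prod * T ^ (2 * s')) *ᵥ v) := by
  obtain ⟨M, hM⟩ : ∃ M : ℕ → S → S → S → ℝ, ∀ ℓ a b c, M ℓ a b c =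
      if (V a ∧ V b ∧ D a b) ∧ (V c ∧ D b c) ∧ (s' ≤ ℓ → ℓ < s' + K → Q (ℓ - s') a b c) then 1 else 0 :=
    ⟨fun ℓ a b c => if (V a ∧ V b ∧ D a b) ∧ (V c ∧ D b c) ∧ (s' ≤ ℓ → ℓ < s' + K → Q (ℓ - s') a b c) then 1 else 0,
      fun _ _ _ _ => rfl⟩
  have hprod : (((List.range n).map fun ℓ => (Matrix.of fun a c => ∑ b, M ℓ a b c : Matrix S S ℝ)).prod) =
      T ^ (2 * s') * ((List.range K).map P).prod * T ^ (2 * s') := by
    have hfree : ∀ ℓ, ¬ (s' ≤ ℓ ∧ ℓ < s' + K) → (Matrix.of fun a c => ∑ b, M ℓ a b c : Matrix S S ℝ) = T * T := by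
      intro ℓ hℓ
      ext a c
      rw [Matrix.of_apply, Matrix.mul_apply]
      refine Finset.sum_congr rfl fun b _ => ?_
      rw [hM, hT, hT]
      by_cases h1 : V a ∧ V b ∧ D a b
      · by_cases h2 : V c ∧ D b c
        · rw [if_pos ⟨h1, h2, fun h3 h4 => absurd ⟨h3, h4⟩ hℓ⟩, if_pos h1, if_pos ⟨h1.2.1, h2.1, h2.2⟩, mul_one]
        · rw [if_neg fun h => h2 h.2.1, if_neg (c := V b ∧ V c ∧ D b c) fun h => h2 ⟨h.2.1, h.2.2⟩, mul_zero]
      · rw [if_neg fun h => h1 h.1, if_neg h1, zero_mul]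
    have hmid : ∀ ℓ < K, (Matrix.of fun a c => ∑ b, M (s' + ℓ) a b c : Matrix S S ℝ) = P ℓ := by
      intro ℓ hℓ
      ext a c
      rw [Matrix.of_apply, hP]
      refine Finset.sum_congr rfl fun b _ => ?_
      rw [hM, hT, hT, show s' + ℓ - s' = ℓ by omega]
      by_cases h1 : V a ∧ V b ∧ D a b
      · by_cases h2 : V c ∧ D b c
        · by_cases h3 : Q ℓ a b c
          · rw [if_pos ⟨h1, h2, fun _ _ => h3⟩, if_pos h1, if_pos ⟨h1.2.1, h2.1, h2.2⟩, if_pos h3, mul_one, mul_one]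
          · rw [if_neg fun h => h3 (h.2.2 (by omega) (by omega)), if_neg h3, mul_zero]
        · rw [if_neg fun h => h2 h.2.1, if_neg (c := V b ∧ V c ∧ D b c) fun h => h2 ⟨h.2.1, h.2.2⟩, mul_zero, zero_mul]
      · rw [if_neg fun h => h1 h.1, if_neg h1, zero_mul, zero_mul]
    rw [hn, List.range_add, List.range_add, List.map_append, List.map_append, List.prod_append, List.prod_append]
    rw [prod_sq T _ s' fun ℓ hℓ => hfree ℓ (by omega), List.map_map, List.map_map]
    congr 1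
    · congr 2
      refine List.map_congr_left fun ℓ hℓ => ?_
      exact hmid ℓ (List.mem_range.1 hℓ)
    · refine prod_sq T _ s' fun ℓ _ => ?_
      exact hfree (s' + K + ℓ) (by omega)
  rw [← hprod, ← slab_path n m hm M v v]
  refine Finset.sum_congr rfl fun σ _ => ?_
  rw [hv, hv]
  have hE : (∏ ℓ ∈ range n, M ℓ (σ (Fin.ofNat (m + 1) (2 * ℓ))) (σ (Fin.ofNat (m + 1) (2 * ℓ + 1)))
      (σ (Fin.ofNat (m + 1) (2 * ℓ + 2)))) = if ∀ ℓ ∈ range n,
        (V (σ (Fin.ofNat (m + 1) (2 * ℓ))) ∧ V (σ (Fin.ofNat (m + 1) (2 * ℓ + 1))) ∧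
          D (σ (Fin.ofNat (m + 1) (2 * ℓ))) (σ (Fin.ofNat (m + 1) (2 * ℓ + 1)))) ∧
        (V (σ (Fin.ofNat (m + 1) (2 * ℓ + 2))) ∧ D (σ (Fin.ofNat (m + 1) (2 * ℓ + 1))) (σ (Fin.ofNat (m + 1) (2 * ℓ + 2)))) ∧
        (s' ≤ ℓ → ℓ < s' + K → Q (ℓ - s') (σ (Fin.ofNat (m + 1) (2 * ℓ))) (σ (Fin.ofNat (m + 1) (2 * ℓ + 1)))
          (σ (Fin.ofNat (m + 1) (2 * ℓ + 2)))) then (1 : ℝ) else 0 := by
    rw [Finset.prod_congr rfl fun ℓ _ => hM ℓ _ _ _, Finset.prod_ite_zero, Finset.prod_const_one]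
  rw [hE]
  have h0 : ((0 : Fin (m + 1)) : ℕ) = 0 := rfl
  have hl : ((Fin.last m : Fin (m + 1)) : ℕ) = m := rfl
  by_cases hc : (∀ a, V (σ a)) ∧ (∀ a a', (lnG false (m + 1)).Adj a a' → D (σ a) (σ a')) ∧
        (∀ a : Fin (m + 1), (a.val = 0 ∨ a.val = m) → Y (σ a)) ∧
        ∀ ℓ < K, Q ℓ (σ (Fin.ofNat (m + 1) (2 * s' + 2 * ℓ))) (σ (Fin.ofNat (m + 1) (2 * s' + 2 * ℓ + 1)))
          (σ (Fin.ofNat (m + 1) (2 * s' + 2 * ℓ + 2)))
  · rw [if_pos hc, if_pos (hc.2.2.1 0 (Or.inl h0)), if_pos (hc.2.2.1 (Fin.last m) (Or.inr hl)), if_pos, mul_one, mul_one]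
    obtain ⟨h1, h2, -, h4⟩ := hc
    have hadj : ∀ k, k + 1 ≤ m → D (σ (Fin.ofNat (m + 1) k)) (σ (Fin.ofNat (m + 1) (k + 1))) := by
      intro k hk
      refine h2 _ _ ⟨?_, Or.inl ?_⟩
      · intro h
        have := congrArg Fin.val h
        rw [ofNat_val m _ (by omega), ofNat_val m _ (by omega)] at this
        omega
      · rw [ofNat_val m _ (by omega), ofNat_val m _ (by omega)]
    intro ℓ hℓ
    rw [Finset.mem_range] at hℓ
    refine ⟨⟨h1 _, h1 _, hadj _ (by omega)⟩, ⟨h1 _, hadj (2 * ℓ + 1) (by omega)⟩, fun h5 h6 => ?_⟩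
    have h7 := h4 (ℓ - s') (by omega)
    rw [show 2 * s' + 2 * (ℓ - s') = 2 * ℓ by omega] at h7
    exact h7
  · rw [if_neg hc]
    symm
    by_cases hy0 : Y (σ 0)
    swap
    · rw [if_neg hy0, zero_mul, zero_mul]
    by_cases hyl : Y (σ (Fin.last m))
    swap
    · rw [if_neg hyl, mul_zero, zero_mul]
    rw [if_pos hy0, if_pos hyl, if_neg, mul_zero]
    intro hall
    apply hc
    have hall' : ∀ ℓ < n, _ := fun ℓ hℓ => hall ℓ (Finset.mem_range.2 hℓ)
    have hD2 : ∀ k, k + 1 ≤ m → D (σ (Fin.ofNat (m + 1) k)) (σ (Fin.ofNat (m + 1) (k + 1))) := by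
      intro k hk
      rcases Nat.even_or_odd' k with ⟨r, hr | hr⟩
      · rw [hr]
        exact (hall' r (by omega)).1.2.2
      · rw [hr]
        exact (hall' r (by omega)).2.1.2
    refine ⟨fun a => ?_, fun a a' ha => ?_, fun a ha => ?_, fun ℓ hℓ => ?_⟩
    · rw [eq_ofNat m a]
      have ha := a.2
      rcases Nat.even_or_odd' a.val with ⟨r, hr | hr⟩
      · by_cases hrn : r < n
        · rw [hr]
          exact (hall' r hrn).1.1
        · rw [hr, show 2 * r = 2 * (r - 1) + 2 by omega]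
          exact (hall' (r - 1) (by omega)).2.1.1
      · rw [hr]
        exact (hall' r (by omega)).1.2.1
    · obtain ⟨h1, h2⟩ := ha
      have ha := a.2
      have ha' := a'.2
      rcases h2 with h2 | h2 | ⟨h2, -⟩
      · have := hD2 a.val (by omega)
        rw [h2, ← eq_ofNat, ← eq_ofNat] at this
        exact this
      · have := hD2 a'.val (by omega)
        rw [h2, ← eq_ofNat, ← eq_ofNat] at this
        exact hD _ _ this
      · exact absurd h2 (by decide)
    · rcases ha with ha | ha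
      · rwa [show a = 0 from Fin.ext ha]
      · rwa [show a = Fin.last m from Fin.ext ha]
    · have h7 := (hall' (s' + ℓ) (by omega)).2.2 (by omega) (by omega)
      rw [show 2 * (s' + ℓ) = 2 * s' + 2 * ℓ by ring, show s' + ℓ - s' = ℓ by omega] at h7
      exact h7

open scoped Classical in
private theorem ring_sum {S : Type} [Fintype S] [DecidableEq S] (m n : ℕ) (hm : m + 1 = 2 * n) (hn : 1 ≤ n)
    (V : S → Prop) (D : S → S → Prop) (hD : ∀ a b, D a b → D b a) (Q : ℕ → S → S → S → Prop)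
    (T : Matrix S S ℝ) (hT : ∀ a b, T a b = if V a ∧ V b ∧ D a b then 1 else 0)
    (P : ℕ → Matrix S S ℝ) (hP : ∀ ℓ a c, P ℓ a c = ∑ b, T a b * T b c * (if Q ℓ a b c then 1 else 0)) :
    ∑ σ : Fin (m + 1) → S, (if (∀ a, V (σ a)) ∧ (∀ a a', (lnG true (m + 1)).Adj a a' → D (σ a) (σ a')) ∧
        ∀ ℓ < n, Q ℓ (σ (Fin.ofNat (m + 1) (2 * ℓ))) (σ (Fin.ofNat (m + 1) (2 * ℓ + 1)))
          (σ (Fin.ofNat (m + 1) (2 * ℓ + 2))) then (1 : ℝ) else 0) =
      (((List.range n).map P).prod).trace := by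
  obtain ⟨M, hM⟩ : ∃ M : ℕ → S → S → S → ℝ, ∀ ℓ a b c, M ℓ a b c =
      if (V a ∧ V b ∧ D a b) ∧ (V c ∧ D b c) ∧ Q ℓ a b c then 1 else 0 :=
    ⟨fun ℓ a b c => if (V a ∧ V b ∧ D a b) ∧ (V c ∧ D b c) ∧ Q ℓ a b c then 1 else 0,
      fun _ _ _ _ => rfl⟩
  have hPM : (fun ℓ => (Matrix.of fun a c => ∑ b, M ℓ a b c : Matrix S S ℝ)) = P := by
    funext ℓ
    ext a c
    rw [Matrix.of_apply, hP]
    refine Finset.sum_congr rfl fun b _ => ?_
    rw [hM, hT, hT]
    by_cases h1 : V a ∧ V b ∧ D a b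
    · by_cases h2 : V c ∧ D b c
      · by_cases h3 : Q ℓ a b c
        · rw [if_pos ⟨h1, h2, h3⟩, if_pos h1, if_pos ⟨h1.2.1, h2.1, h2.2⟩, if_pos h3, mul_one, mul_one]
        · rw [if_neg fun h => h3 h.2.2, if_neg h3, mul_zero]
      · rw [if_neg fun h => h2 h.2.1, if_neg (c := V b ∧ V c ∧ D b c) fun h => h2 ⟨h.2.1, h.2.2⟩, mul_zero, zero_mul]
    · rw [if_neg fun h => h1 h.1, if_neg h1, zero_mul, zero_mul]
  rw [← hPM, ← slab_ring n m hn hm M]
  refine Finset.sum_congr rfl fun σ _ => ?_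
  have hE : (∏ ℓ ∈ range n, M ℓ (σ (Fin.ofNat (m + 1) (2 * ℓ))) (σ (Fin.ofNat (m + 1) (2 * ℓ + 1)))
      (σ (Fin.ofNat (m + 1) (2 * ℓ + 2)))) = if ∀ ℓ ∈ range n,
        (V (σ (Fin.ofNat (m + 1) (2 * ℓ))) ∧ V (σ (Fin.ofNat (m + 1) (2 * ℓ + 1))) ∧
          D (σ (Fin.ofNat (m + 1) (2 * ℓ))) (σ (Fin.ofNat (m + 1) (2 * ℓ + 1)))) ∧
        (V (σ (Fin.ofNat (m + 1) (2 * ℓ + 2))) ∧ D (σ (Fin.ofNat (m + 1) (2 * ℓ + 1))) (σ (Fin.ofNat (m + 1) (2 * ℓ + 2)))) ∧
        Q ℓ (σ (Fin.ofNat (m + 1) (2 * ℓ))) (σ (Fin.ofNat (m + 1) (2 * ℓ + 1)))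
          (σ (Fin.ofNat (m + 1) (2 * ℓ + 2))) then (1 : ℝ) else 0 := by
    rw [Finset.prod_congr rfl fun ℓ _ => hM ℓ _ _ _, Finset.prod_ite_zero, Finset.prod_const_one]
  rw [hE]
  by_cases hc : (∀ a, V (σ a)) ∧ (∀ a a', (lnG true (m + 1)).Adj a a' → D (σ a) (σ a')) ∧
        ∀ ℓ < n, Q ℓ (σ (Fin.ofNat (m + 1) (2 * ℓ))) (σ (Fin.ofNat (m + 1) (2 * ℓ + 1)))
          (σ (Fin.ofNat (m + 1) (2 * ℓ + 2)))
  · rw [if_pos hc, if_pos]
    obtain ⟨h1, h2, h4⟩ := hc
    have hadj : ∀ k, k ≤ m → D (σ (Fin.ofNat (m + 1) k)) (σ (Fin.ofNat (m + 1) (k + 1))) := by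
      intro k hk
      by_cases hkm : k = m
      · have e : Fin.ofNat (m + 1) (k + 1) = Fin.ofNat (m + 1) 0 := by
          apply Fin.ext
          show (k + 1) % (m + 1) = 0 % (m + 1)
          rw [hkm]
          simp
        rw [e]
        refine h2 _ _ ⟨?_, Or.inr (Or.inr ⟨rfl, Or.inr ⟨?_, ?_⟩⟩)⟩
        · intro h
          have := congrArg Fin.val h
          rw [ofNat_val m _ (by omega), ofNat_val m _ (by omega)] at this
          omega
        · rw [ofNat_val m _ (by omega)]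
        · rw [ofNat_val m _ (by omega)]
          omega
      · refine h2 _ _ ⟨?_, Or.inl ?_⟩
        · intro h
          have := congrArg Fin.val h
          rw [ofNat_val m _ (by omega), ofNat_val m _ (by omega)] at this
          omega
        · rw [ofNat_val m _ (by omega), ofNat_val m _ (by omega)]
    intro ℓ hℓ
    rw [Finset.mem_range] at hℓ
    exact ⟨⟨h1 _, h1 _, hadj _ (by omega)⟩, ⟨h1 _, hadj (2 * ℓ + 1) (by omega)⟩, h4 ℓ hℓ⟩
  · rw [if_neg hc]
    symm
    rw [if_neg]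
    intro hall
    apply hc
    have hall' : ∀ ℓ < n, _ := fun ℓ hℓ => hall ℓ (Finset.mem_range.2 hℓ)
    have hD2 : ∀ k, k ≤ m → D (σ (Fin.ofNat (m + 1) k)) (σ (Fin.ofNat (m + 1) (k + 1))) := by
      intro k hk
      rcases Nat.even_or_odd' k with ⟨r, hr | hr⟩
      · rw [hr]
        exact (hall' r (by omega)).1.2.2
      · rw [hr]
        exact (hall' r (by omega)).2.1.2
    refine ⟨fun a => ?_, fun a a' ha => ?_, fun ℓ hℓ => ?_⟩
    · rw [eq_ofNat m a]
      have ha := a.2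
      rcases Nat.even_or_odd' a.val with ⟨r, hr | hr⟩
      · rw [hr]
        exact (hall' r (by omega)).1.1
      · rw [hr]
        exact (hall' r (by omega)).1.2.1
    · obtain ⟨h1, h2⟩ := ha
      have ha := a.2
      have ha' := a'.2
      rcases h2 with h2 | h2 | ⟨-, ⟨h2, h3⟩ | ⟨h2, h3⟩⟩
      · have := hD2 a.val (by omega)
        rw [h2, ← eq_ofNat, ← eq_ofNat] at this
        exact this
      · have := hD2 a'.val (by omega)
        rw [h2, ← eq_ofNat, ← eq_ofNat] at this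
        exact hD _ _ this
      · have h5 := hD2 a'.val (by omega)
        have h6 : Fin.ofNat (m + 1) (a'.val + 1) = a := by
          apply Fin.ext
          show (a'.val + 1) % (m + 1) = a.val
          rw [h3, h2, Nat.mod_self]
        rw [h6, ← eq_ofNat] at h5
        exact hD _ _ h5
      · have h5 := hD2 a.val (by omega)
        have h6 : Fin.ofNat (m + 1) (a.val + 1) = a' := by
          apply Fin.ext
          show (a.val + 1) % (m + 1) = a'.val
          rw [h3, h2, Nat.mod_self]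
        rw [h6, ← eq_ofNat] at h5
        exact h5
    · exact (hall' ℓ hℓ).2.2

private theorem dif_symm' {Y : Type} (σ σ' : Y → Fin q × Fin q) (h : dif σ σ') : dif σ' σ :=
  fun y => ⟨(h y).1.symm, (h y).2.symm⟩

open scoped Classical in
private theorem TY_eq {Y : Type} (H : SimpleGraph Y) (g : Y → Prop) (a b : Y → Fin q × Fin q) :
    TY q H g a b = if vld H g a ∧ vld H g b ∧ dif a b then 1 else 0 := by
  unfold TY
  rw [Matrix.of_apply]

open scoped Classical in
private theorem Ps_eq (j : Fin d) (p : {i // i ≠ j} → Bool) (L : Fin d → ℕ) (s : ℕ)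
    (Γ : (Fin d → ℕ) → Option (Option (Fin q))) (ℓ : ℕ) (a c : YV j p L s → Fin q × Fin q) :
    Ps j p L s Γ ℓ a c = ∑ b, TY q (YG j p L s) (Ygl j p L s) a b * TY q (YG j p L s) (Ygl j p L s) b c *
      (if Qs j p L s Γ ℓ a b c then 1 else 0) := by
  unfold Ps
  rw [Matrix.of_apply]

theorem path_val (per : Fin d → Bool) (L : Fin d → ℕ) (s : ℕ) (j : Fin d) (hj : per j = false) (hs : Even s) (hs1 : 1 ≤ s)
    (hL : 1 ≤ L j) (Γ : (Fin d → ℕ) → Option (Option (Fin q))) :
    N2 (WG per L s) (Wgl per L s) (WE per L s Γ) =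
      vY q (YV j (fun i => per i) L s) ⬝ᵥ
        ((TY q (YG j (fun i => per i) L s) (Ygl j (fun i => per i) L s) ^ s *
          ((List.range (L j - 1)).map (Ps j (fun i => per i) L s Γ)).prod *
          TY q (YG j (fun i => per i) L s) (Ygl j (fun i => per i) L s) ^ s) *ᵥ vY q (YV j (fun i => per i) L s)) := by
  classical
  obtain ⟨s', hs'⟩ := hs
  have hs2 : s = 2 * s' := by omega
  rw [N2_layers per L s j Γ]
  have key : ∀ (pj : Bool), pj = false →
      ∑ σ : Fin (lm pj (L j) s + 1) → YV j (fun i => per i) L s → Fin q × Fin q,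
        (if (∀ a, vld (YG j (fun i => per i) L s) (Ygl j (fun i => per i) L s) (σ a)) ∧
            (∀ a a', (lnG pj (lm pj (L j) s + 1)).Adj a a' → dif (σ a) (σ a')) ∧
            (∀ a : Fin (lm pj (L j) s + 1), pj = false → (a.val = 0 ∨ a.val = lm pj (L j) s) → smy (σ a)) ∧
            ∀ ℓ < nbk pj (L j), Qs j (fun i => per i) L s Γ ℓ
              (σ (Fin.ofNat (lm pj (L j) s + 1) (off pj s + 2 * ℓ)))
              (σ (Fin.ofNat (lm pj (L j) s + 1) (off pj s + 2 * ℓ + 1)))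
              (σ (Fin.ofNat (lm pj (L j) s + 1) (off pj s + 2 * ℓ + 2))) then (1 : ℝ) else 0) =
      vY q (YV j (fun i => per i) L s) ⬝ᵥ
        ((TY q (YG j (fun i => per i) L s) (Ygl j (fun i => per i) L s) ^ s *
          ((List.range (L j - 1)).map (Ps j (fun i => per i) L s Γ)).prod *
          TY q (YG j (fun i => per i) L s) (Ygl j (fun i => per i) L s) ^ s) *ᵥ vY q (YV j (fun i => per i) L s)) := by
    rintro _ rfl
    have h1 := path_sum (lm false (L j) s) (L j - 1 + s) s' (L j - 1)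
      (by unfold lm; rw [if_neg (by decide)]; ring) (by omega) (by omega)
      (vld (YG j (fun i => per i) L s) (Ygl j (fun i => per i) L s)) dif dif_symm' smy
      (Qs j (fun i => per i) L s Γ) (TY q (YG j (fun i => per i) L s) (Ygl j (fun i => per i) L s))
      (TY_eq _ _) (Ps j (fun i => per i) L s Γ) (fun ℓ a c => Ps_eq j _ L s Γ ℓ a c)
      (vY q (YV j (fun i => per i) L s)) (fun a => rfl)
    have e1 : off false s = 2 * s' := by unfold off; rw [if_neg (by decide)]; exact hs2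
    have e2 : nbk false (L j) = L j - 1 := rfl
    have e3 : TY q (YG j (fun i => per i) L s) (Ygl j (fun i => per i) L s) ^ s =
      TY q (YG j (fun i => per i) L s) (Ygl j (fun i => per i) L s) ^ (2 * s') := congrArg _ hs2
    rw [e3, ← h1, e1, e2]
    refine Finset.sum_congr rfl fun σ _ => ?_
    refine if_congr ?_ rfl rfl
    simp only [forall_const]
  exact key (per j) hj

theorem ring_val (per : Fin d → Bool) (L : Fin d → ℕ) (s : ℕ) (j : Fin d) (hj : per j = true) (hL : 1 ≤ L j)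
    (Γ : (Fin d → ℕ) → Option (Option (Fin q))) :
    N2 (WG per L s) (Wgl per L s) (WE per L s Γ) =
      (((List.range (L j)).map (Ps j (fun i => per i) L s Γ)).prod).trace := by
  classical
  rw [N2_layers per L s j Γ]
  have key : ∀ (pj : Bool), pj = true →
      ∑ σ : Fin (lm pj (L j) s + 1) → YV j (fun i => per i) L s → Fin q × Fin q,
        (if (∀ a, vld (YG j (fun i => per i) L s) (Ygl j (fun i => per i) L s) (σ a)) ∧
            (∀ a a', (lnG pj (lm pj (L j) s + 1)).Adj a a' → dif (σ a) (σ a')) ∧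
            (∀ a : Fin (lm pj (L j) s + 1), pj = false → (a.val = 0 ∨ a.val = lm pj (L j) s) → smy (σ a)) ∧
            ∀ ℓ < nbk pj (L j), Qs j (fun i => per i) L s Γ ℓ
              (σ (Fin.ofNat (lm pj (L j) s + 1) (off pj s + 2 * ℓ)))
              (σ (Fin.ofNat (lm pj (L j) s + 1) (off pj s + 2 * ℓ + 1)))
              (σ (Fin.ofNat (lm pj (L j) s + 1) (off pj s + 2 * ℓ + 2))) then (1 : ℝ) else 0) =
      (((List.range (L j)).map (Ps j (fun i => per i) L s Γ)).prod).trace := by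
    rintro _ rfl
    have h1 := ring_sum (lm true (L j) s) (L j)
      (by unfold lm; rw [if_pos rfl]; omega) hL
      (vld (YG j (fun i => per i) L s) (Ygl j (fun i => per i) L s)) dif dif_symm'
      (Qs j (fun i => per i) L s Γ) (TY q (YG j (fun i => per i) L s) (Ygl j (fun i => per i) L s))
      (TY_eq _ _) (Ps j (fun i => per i) L s Γ) (fun ℓ a c => Ps_eq j _ L s Γ ℓ a c)
    have e1 : off true s = 0 := rfl
    have e2 : nbk true (L j) = L j := rfl
    rw [← h1, e1, e2]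
    refine Finset.sum_congr rfl fun σ _ => ?_
    refine if_congr ?_ rfl rfl
    simp only [Bool.true_eq_false, false_implies, implies_true, true_and, Nat.zero_add]
  exact key (per j) hj

end Pool.Agent.LC

end

/-! ### from `Lib_MP_2c424f_lc6.C02` -/

section

/-!
# LC6 C02: trace Hölder and log-convexity (linear algebra)

`T`, `P ℓ` real symmetric matrices, `v` a vector, `L = 2^r`.
* `slab_holder`: `⟨v, T^s P_0 ⋯ P_{L-2} T^s v⟩ = Tr (B P_0 ⋯ P_{L-2})`, `B = x xᵀ` (`vecMulVec x x`), `x = T^s v`.  For `r = 0` (`L = 1`) there is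
  nothing to do.  For `r = r' + 1`: `LIN.trace_holder r'` with `A 0 = B`, `A (ℓ+1) = P ℓ`; `Tr ((B Bᵀ)^(2^r')) = ⟨x, x⟩^L`,
  `Tr ((P Pᵀ)^(2^r')) = Tr (P^L)`; `⟨x, x⟩ = ⟨v, T^(2s) v⟩`.
* `log_conv`: `x = T^m v`, `a_k = ⟨x, T^(2k) x⟩ ≥ 0`: `a_1^L ≤ a_0^(L-1) a_L` for `L = 2^r` (induction: `a_k^2 ≤ a_0 a_{2k}`, Cauchy–Schwarz) and
  `a_L ≤ Tr (T^(2L)) a_0` (`xᵀ A x ≤ Tr A · |x|^2` for `A = T^L (T^L)ᵀ`: `xᵀ A x = |T^L x|^2 ≤ |x|^2 ∑_ab (T^L)_ab^2`).
* `slab_main`: `N := ⟨v, T^s P_0 ⋯ T^s v⟩`.  `N^L Zp ≤ ⟨v,T^(2s)v⟩^L (∏_ℓ Tr (P_ℓ^L)) Zp ≤ (⟨v,T^(2s)v⟩ Zp)^L (∏ ρ_ℓ)^L ≤ c^L ⟨v,T^(m+2)v⟩^L (∏ ρ)^L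
  ≤ c^L Zp Zf^L (∏ ρ)^L`, `m = 2 (L-1) + 2 s`; cancel `Zp` and take the `L`-th root.
-/

set_option autoImplicit false

open Finset Matrix

namespace Pool.Agent.LC

variable {S : Type} [Fintype S] [DecidableEq S]

private theorem C02_trace_vv (x y : S → ℝ) : (vecMulVec x y).trace = x ⬝ᵥ y := by
  simp [Matrix.trace, vecMulVec_apply, dotProduct]

private theorem C02_pow_sym (T : Matrix S S ℝ) (hT : Tᵀ = T) (k : ℕ) : (T ^ k)ᵀ = T ^ k := by
  rw [Matrix.transpose_pow, hT]

private theorem C02_move (A : Matrix S S ℝ) (hA : Aᵀ = A) (x y : S → ℝ) :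
    x ⬝ᵥ (A *ᵥ y) = (A *ᵥ x) ⬝ᵥ y := by
  rw [Matrix.dotProduct_mulVec, ← Matrix.mulVec_transpose, hA]

private theorem C02_sq (T : Matrix S S ℝ) (hT : Tᵀ = T) (k : ℕ) (v : S → ℝ) :
    v ⬝ᵥ ((T ^ (2 * k)) *ᵥ v) = (T ^ k *ᵥ v) ⬝ᵥ (T ^ k *ᵥ v) := by
  rw [two_mul, pow_add, ← Matrix.mulVec_mulVec, C02_move _ (C02_pow_sym T hT k)]

private theorem C02_self_nonneg (x : S → ℝ) : 0 ≤ x ⬝ᵥ x := by
  unfold dotProduct
  exact Finset.sum_nonneg fun i _ => mul_self_nonneg _

private theorem C02_nonneg (T : Matrix S S ℝ) (hT : Tᵀ = T) (k : ℕ) (v : S → ℝ) :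
    0 ≤ v ⬝ᵥ ((T ^ (2 * k)) *ᵥ v) := by
  rw [C02_sq T hT]
  exact C02_self_nonneg _

private theorem C02_CS (x y : S → ℝ) : (x ⬝ᵥ y) ^ 2 ≤ (x ⬝ᵥ x) * (y ⬝ᵥ y) := by
  unfold dotProduct
  have h := Finset.sum_mul_sq_le_sq_mul_sq univ x y
  refine h.trans (le_of_eq ?_)
  congr 1
  · exact Finset.sum_congr rfl fun i _ => sq _
  · exact Finset.sum_congr rfl fun i _ => sq _

private theorem C02_trace_tt (A : Matrix S S ℝ) : (A * Aᵀ).trace = ∑ i, ∑ j, A i j ^ 2 := by
  simp only [Matrix.trace, Matrix.diag_apply, Matrix.mul_apply, Matrix.transpose_apply, sq]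

private theorem C02_op (A : Matrix S S ℝ) (x : S → ℝ) :
    (A *ᵥ x) ⬝ᵥ (A *ᵥ x) ≤ (A * Aᵀ).trace * (x ⬝ᵥ x) := by
  rw [C02_trace_tt]
  unfold dotProduct
  rw [Finset.sum_mul]
  apply Finset.sum_le_sum
  intro i _
  rw [← sq]
  have h := C02_CS (A i) x
  have e : (A *ᵥ x) i = A i ⬝ᵥ x := rfl
  rw [e]
  refine h.trans (le_of_eq ?_)
  unfold dotProduct
  congr 1
  exact Finset.sum_congr rfl fun j _ => (sq _).symm

private theorem C02_rank_pow (x : S → ℝ) (k : ℕ) :
    (((vecMulVec x x) * (vecMulVec x x)ᵀ) ^ (k + 1)).trace = (x ⬝ᵥ x) ^ (2 * (k + 1)) := by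
  set d := x ⬝ᵥ x with hd
  have h1 : vecMulVec x x * (vecMulVec x x)ᵀ = d • vecMulVec x x := by
    rw [transpose_vecMulVec, vecMulVec_mul_vecMulVec, ← hd]
    ext i j
    simp [vecMulVec_apply]
    ring
  have h0 : vecMulVec x x * vecMulVec x x = d • vecMulVec x x := by
    rw [transpose_vecMulVec] at h1
    exact h1
  have h2 : ∀ k : ℕ, (vecMulVec x x) ^ (k + 1) = d ^ k • vecMulVec x x := by
    intro k
    induction k with
    | zero => simp
    | succ k ih =>
      rw [pow_succ, ih, Matrix.smul_mul, h0, smul_smul, pow_succ]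
  rw [h1, smul_pow, h2, smul_smul, Matrix.trace_smul, C02_trace_vv, ← hd, smul_eq_mul]
  ring

private theorem C02_trace_pow_nonneg (r : ℕ) (P : Matrix S S ℝ) (hP : Pᵀ = P) :
    0 ≤ (P ^ (2 ^ (r + 1))).trace := by
  have h : P ^ (2 ^ (r + 1)) = P ^ (2 ^ r) * (P ^ (2 ^ r))ᵀ := by
    rw [C02_pow_sym P hP, ← pow_add, pow_succ]
    congr 1
    ring
  rw [h, C02_trace_tt]
  exact Finset.sum_nonneg fun i _ => Finset.sum_nonneg fun j _ => sq_nonneg _

theorem slab_holder (r s : ℕ) (T : Matrix S S ℝ) (hT : Tᵀ = T) (P : ℕ → Matrix S S ℝ) (hP : ∀ ℓ, (P ℓ)ᵀ = P ℓ) (v : S → ℝ)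
    (h0 : 0 ≤ v ⬝ᵥ ((T ^ s * ((List.range (2 ^ r - 1)).map P).prod * T ^ s) *ᵥ v)) :
    (v ⬝ᵥ ((T ^ s * ((List.range (2 ^ r - 1)).map P).prod * T ^ s) *ᵥ v)) ^ (2 ^ r) ≤
      (v ⬝ᵥ ((T ^ (2 * s)) *ᵥ v)) ^ (2 ^ r) * ∏ ℓ ∈ range (2 ^ r - 1), (P ℓ ^ (2 ^ r)).trace := by
  rcases r with _ | r
  · simp only [pow_zero, Nat.sub_self, List.range_zero, List.map_nil, List.prod_nil, mul_one,
      Finset.range_zero, Finset.prod_empty, pow_one]
    rw [← pow_add, two_mul]
  · obtain ⟨M, hM⟩ : ∃ M, 2 ^ (r + 1) = M + 1 := ⟨2 ^ (r + 1) - 1, by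
      have : 0 < 2 ^ (r + 1) := by positivity
      omega⟩
    obtain ⟨k, hk⟩ : ∃ k, 2 ^ r = k + 1 := ⟨2 ^ r - 1, by
      have : 0 < 2 ^ r := by positivity
      omega⟩
    set x : S → ℝ := T ^ s *ᵥ v with hx
    set Q : Matrix S S ℝ := ((List.range (2 ^ (r + 1) - 1)).map P).prod with hQ
    have hN : v ⬝ᵥ ((T ^ s * Q * T ^ s) *ᵥ v) = x ⬝ᵥ (Q *ᵥ x) := by
      rw [Matrix.mul_assoc, ← Matrix.mulVec_mulVec, ← Matrix.mulVec_mulVec,
        C02_move _ (C02_pow_sym T hT s)]
    rw [hN] at h0 ⊢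
    set g : ℕ → Matrix S S ℝ := fun j => if j = 0 then vecMulVec x x else P (j - 1) with hg
    have hold := Pool.Agent.LIN.trace_holder r (fun j : Fin (2 ^ (r + 1)) => g j.val)
    have e1 : List.ofFn (fun j : Fin (2 ^ (r + 1)) => g j.val) =
        (List.range (2 ^ (r + 1))).map g := by
      apply List.ext_getElem
      · simp
      · intro i h1 h2
        simp
    rw [e1, Finset.prod_fin_eq_prod_range] at hold
    have e2 : ∏ i ∈ range (2 ^ (r + 1)), (if h : i < 2 ^ (r + 1) then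
        ((g (⟨i, h⟩ : Fin (2 ^ (r + 1))).val * (g (⟨i, h⟩ : Fin (2 ^ (r + 1))).val)ᵀ) ^ 2 ^ r).trace
          else 1) = ∏ i ∈ range (M + 1), ((g i * (g i)ᵀ) ^ 2 ^ r).trace := by
      rw [← hM]
      apply Finset.prod_congr rfl
      intro i hi
      rw [Finset.mem_range] at hi
      rw [dif_pos hi]
    rw [e2, Finset.prod_range_succ', hM, List.range_succ_eq_map, List.map_cons, List.map_map,
      List.prod_cons] at hold
    have e3 : ((List.range M).map (g ∘ Nat.succ)).prod = Q := by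
      rw [hQ, hM, Nat.add_sub_cancel]
      congr 1
    have e4 : g 0 = vecMulVec x x := by rw [hg]; simp
    have e5 : (g 0 * Q).trace = x ⬝ᵥ (Q *ᵥ x) := by
      rw [e4, vecMulVec_mul, C02_trace_vv, dotProduct_comm, ← Matrix.dotProduct_mulVec]
    rw [e3, e5, abs_of_nonneg h0] at hold
    rw [hM]
    refine hold.trans (le_of_eq ?_)
    have e6 : ((g 0 * (g 0)ᵀ) ^ 2 ^ r).trace = (v ⬝ᵥ ((T ^ (2 * s)) *ᵥ v)) ^ (M + 1) := by
      rw [e4, hk, C02_rank_pow, C02_sq T hT, ← hx, ← hM, pow_succ 2 r, hk]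
      congr 1
      ring
    have e7 : ∏ i ∈ range M, ((g (i + 1) * (g (i + 1))ᵀ) ^ 2 ^ r).trace =
        ∏ ℓ ∈ range (M + 1 - 1), (P ℓ ^ (M + 1)).trace := by
      rw [Nat.add_sub_cancel]
      apply Finset.prod_congr rfl
      intro i _
      have e8 : g (i + 1) = P i := by rw [hg]; simp
      rw [e8, hP i, ← sq, ← pow_mul, ← hM, pow_succ 2 r]
      congr 2
      ring
    rw [e6, e7, mul_comm]

theorem log_conv (r m : ℕ) (T : Matrix S S ℝ) (hT : Tᵀ = T) (v : S → ℝ) :
    (v ⬝ᵥ ((T ^ (2 * m + 2)) *ᵥ v)) ^ (2 ^ r) ≤ (T ^ (2 * 2 ^ r)).trace * (v ⬝ᵥ ((T ^ (2 * m)) *ᵥ v)) ^ (2 ^ r) := by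
  set x : S → ℝ := T ^ m *ᵥ v with hx
  have ha : ∀ k : ℕ, v ⬝ᵥ ((T ^ (2 * m + 2 * k)) *ᵥ v) = x ⬝ᵥ ((T ^ (2 * k)) *ᵥ x) := by
    intro k
    rw [show 2 * m + 2 * k = m + (2 * k + m) by ring, pow_add, pow_add, ← Matrix.mulVec_mulVec,
      ← Matrix.mulVec_mulVec, C02_move _ (C02_pow_sym T hT m)]
  have h0 : v ⬝ᵥ ((T ^ (2 * m)) *ᵥ v) = x ⬝ᵥ x := by
    have := ha 0
    simpa using this
  have h1 : v ⬝ᵥ ((T ^ (2 * m + 2)) *ᵥ v) = x ⬝ᵥ ((T ^ (2 * 1)) *ᵥ x) := by
    have := ha 1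
    simpa using this
  rw [h0, h1]
  set a : ℕ → ℝ := fun k => x ⬝ᵥ ((T ^ (2 * k)) *ᵥ x) with haa
  have hnn : ∀ k, 0 ≤ a k := fun k => C02_nonneg T hT k x
  have hx0 : 0 ≤ x ⬝ᵥ x := C02_self_nonneg x
  have hcs : ∀ k, a k ^ 2 ≤ (x ⬝ᵥ x) * a (2 * k) := by
    intro k
    have h := C02_CS x ((T ^ (2 * k)) *ᵥ x)
    have e : ((T ^ (2 * k)) *ᵥ x) ⬝ᵥ ((T ^ (2 * k)) *ᵥ x) = a (2 * k) := by
      rw [haa]
      simp only
      rw [C02_sq T hT]
    rw [e] at h
    exact h
  have hind : ∀ r : ℕ, a 1 ^ (2 ^ r) ≤ (x ⬝ᵥ x) ^ (2 ^ r - 1) * a (2 ^ r) := by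
    intro r
    induction r with
    | zero => simp
    | succ r ih =>
      have hp : 0 < 2 ^ r := by positivity
      calc a 1 ^ (2 ^ (r + 1)) = (a 1 ^ (2 ^ r)) ^ 2 := by rw [← pow_mul, pow_succ]
        _ ≤ ((x ⬝ᵥ x) ^ (2 ^ r - 1) * a (2 ^ r)) ^ 2 :=
            pow_le_pow_left₀ (pow_nonneg (hnn 1) _) ih 2
        _ = ((x ⬝ᵥ x) ^ (2 ^ r - 1)) ^ 2 * a (2 ^ r) ^ 2 := by ring
        _ ≤ ((x ⬝ᵥ x) ^ (2 ^ r - 1)) ^ 2 * ((x ⬝ᵥ x) * a (2 * 2 ^ r)) :=
            mul_le_mul_of_nonneg_left (hcs _) (by positivity)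
        _ = (x ⬝ᵥ x) ^ (2 ^ (r + 1) - 1) * a (2 ^ (r + 1)) := by
            rw [← pow_mul, ← mul_assoc, ← pow_succ]
            congr 2
            · have : 2 ^ (r + 1) = 2 * 2 ^ r := by ring
              omega
            · ring
  have hlast : a (2 ^ r) ≤ (T ^ (2 * 2 ^ r)).trace * (x ⬝ᵥ x) := by
    rw [haa]
    simp only
    rw [C02_sq T hT]
    have h := C02_op (T ^ (2 ^ r)) x
    rw [C02_pow_sym T hT, ← pow_add, ← two_mul] at h
    exact h
  have hp : 0 < 2 ^ r := by positivity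
  calc a 1 ^ (2 ^ r) ≤ (x ⬝ᵥ x) ^ (2 ^ r - 1) * a (2 ^ r) := hind r
    _ ≤ (x ⬝ᵥ x) ^ (2 ^ r - 1) * ((T ^ (2 * 2 ^ r)).trace * (x ⬝ᵥ x)) :=
        mul_le_mul_of_nonneg_left hlast (by positivity)
    _ = (T ^ (2 * 2 ^ r)).trace * ((x ⬝ᵥ x) ^ (2 ^ r - 1) * (x ⬝ᵥ x)) := by ring
    _ = (T ^ (2 * 2 ^ r)).trace * (x ⬝ᵥ x) ^ (2 ^ r) := by
        rw [← pow_succ, show 2 ^ r - 1 + 1 = 2 ^ r by omega]

theorem slab_main (r s : ℕ) (T : Matrix S S ℝ) (hT : Tᵀ = T) (P : ℕ → Matrix S S ℝ) (hP : ∀ ℓ, (P ℓ)ᵀ = P ℓ) (v : S → ℝ)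
    (h0 : 0 ≤ v ⬝ᵥ ((T ^ s * ((List.range (2 ^ r - 1)).map P).prod * T ^ s) *ᵥ v))
    (hZ : 0 < (T ^ (2 * 2 ^ r)).trace) (c : ℝ) (hc : 0 ≤ c)
    (hsw : (v ⬝ᵥ ((T ^ (2 * s)) *ᵥ v)) * (T ^ (2 * 2 ^ r)).trace ≤ c * (v ⬝ᵥ ((T ^ (2 * s + 2 * 2 ^ r)) *ᵥ v)))
    (ρ : ℕ → ℝ) (hρ : ∀ ℓ, 0 ≤ ρ ℓ) (hb : ∀ ℓ < 2 ^ r - 1, (P ℓ ^ (2 ^ r)).trace ≤ (T ^ (2 * 2 ^ r)).trace * ρ ℓ ^ (2 ^ r)) :
    v ⬝ᵥ ((T ^ s * ((List.range (2 ^ r - 1)).map P).prod * T ^ s) *ᵥ v) ≤
      c * (v ⬝ᵥ ((T ^ (2 * (2 ^ r - 1) + 2 * s)) *ᵥ v)) * ∏ ℓ ∈ range (2 ^ r - 1), ρ ℓ := by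
  set Nn : ℝ := v ⬝ᵥ ((T ^ s * ((List.range (2 ^ r - 1)).map P).prod * T ^ s) *ᵥ v) with hNn
  set Zp : ℝ := (T ^ (2 * 2 ^ r)).trace with hZp
  set A : ℝ := v ⬝ᵥ ((T ^ (2 * s)) *ᵥ v) with hA
  set L : ℕ := 2 ^ r with hL
  have hL1 : 1 ≤ L := Nat.one_le_two_pow
  have hA0 : 0 ≤ A := C02_nonneg T hT s v
  have h1 := slab_holder r s T hT P hP v h0
  rw [← hNn, ← hA, ← hL] at h1
  set R : ℝ := ∏ ℓ ∈ range (L - 1), ρ ℓ with hR
  have hR0 : 0 ≤ R := Finset.prod_nonneg fun ℓ _ => hρ ℓ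
  have h2 : ∏ ℓ ∈ range (L - 1), (P ℓ ^ L).trace ≤ ∏ ℓ ∈ range (L - 1), (Zp * ρ ℓ ^ L) := by
    apply Finset.prod_le_prod
    · intro ℓ hℓ
      rcases r with _ | r'
      · simp [hL] at hℓ
      · exact C02_trace_pow_nonneg r' (P ℓ) (hP ℓ)
    · intro ℓ hℓ
      exact hb ℓ (Finset.mem_range.mp hℓ)
  have h3 : ∏ ℓ ∈ range (L - 1), (Zp * ρ ℓ ^ L) = Zp ^ (L - 1) * R ^ L := by
    rw [Finset.prod_mul_distrib, Finset.prod_const, Finset.card_range, Finset.prod_pow]
  rw [h3] at h2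
  have h4 : Nn ^ L * Zp ≤ (A * Zp) ^ L * R ^ L := by
    calc Nn ^ L * Zp ≤ (A ^ L * (Zp ^ (L - 1) * R ^ L)) * Zp :=
          mul_le_mul_of_nonneg_right (h1.trans (mul_le_mul_of_nonneg_left h2 (by positivity))) hZ.le
      _ = A ^ L * (Zp ^ (L - 1) * Zp) * R ^ L := by ring
      _ = (A * Zp) ^ L * R ^ L := by
          rw [← pow_succ, show L - 1 + 1 = L by omega, mul_pow]
  set A' : ℝ := v ⬝ᵥ ((T ^ (2 * (L - 1) + 2 * s)) *ᵥ v) with hA'
  have e1 : 2 * (L - 1) + 2 * s = 2 * (s + (L - 1)) := by ring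
  have hA'0 : 0 ≤ A' := by
    rw [hA', e1]
    exact C02_nonneg T hT _ v
  have h5 := log_conv r (s + (L - 1)) T hT v
  rw [show 2 * (s + (L - 1)) + 2 = 2 * s + 2 * L by omega, ← hL, ← hZp, ← e1, ← hA'] at h5
  have hAZ : 0 ≤ A * Zp := mul_nonneg hA0 hZ.le
  have h6 : Nn ^ L * Zp ≤ (c * A' * R) ^ L * Zp := by
    calc Nn ^ L * Zp ≤ (A * Zp) ^ L * R ^ L := h4
      _ ≤ (c * (v ⬝ᵥ ((T ^ (2 * s + 2 * L)) *ᵥ v))) ^ L * R ^ L :=
          mul_le_mul_of_nonneg_right (pow_le_pow_left₀ hAZ hsw L) (by positivity)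
      _ = c ^ L * (v ⬝ᵥ ((T ^ (2 * s + 2 * L)) *ᵥ v)) ^ L * R ^ L := by rw [mul_pow]
      _ ≤ c ^ L * (Zp * A' ^ L) * R ^ L :=
          mul_le_mul_of_nonneg_right (mul_le_mul_of_nonneg_left h5 (by positivity)) (by positivity)
      _ = (c * A' * R) ^ L * Zp := by
          rw [mul_pow, mul_pow]
          ring
  have h7 : Nn ^ L ≤ (c * A' * R) ^ L := le_of_mul_le_mul_right h6 hZ
  exact (pow_le_pow_iff_left₀ h0 (by positivity) (by omega)).mp h7

end Pool.Agent.LC

end

/-! ### from `Lib_MP_2c424f_lc7.E04` -/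

section

/-!
# LC7 E04: union bound over the families of bad blocks

Let at least `m₀` blocks of `f` be not good.  For each of them choose `τ` with `BDP τ` (`not_GDP`) and let `Γ t = some τ`, `Γ t = none` elsewhere (also
outside the range): `WE Γ f` and `Wn Γ ≥ m₀`.  There are `(q+2)^(∏ nbk)` such families.  `x ≤ 1`.  `B` is the bound for each family.
-/

set_option autoImplicit false

open Finset Filter

namespace Pool.Agent.LC

open Pool.Agent.LO Pool.Agent.LIN Pool.Agent.THR Pool.Agent.COR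

open scoped Classical in
/-- extension of a family by `none` -/
private noncomputable def E04_ext {d q : ℕ} (n : Fin d → ℕ) (g : (∀ i, Fin (n i)) → Option (Option (Fin q))) :
    (Fin d → ℕ) → Option (Option (Fin q)) :=
  fun t => if h : ∀ i, t i < n i then g (fun i => ⟨t i, h i⟩) else none

private theorem E04_ext_val {d q : ℕ} (n : Fin d → ℕ) (g : (∀ i, Fin (n i)) → Option (Option (Fin q)))
    (t : ∀ i, Fin (n i)) : E04_ext n g (fun i => (t i).val) = g t := by
  unfold E04_ext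
  rw [dif_pos (fun i => (t i).isLt)]

open scoped Classical in
private theorem E04_union {W : Type} [Fintype W] [DecidableEq W] {q : ℕ} (B : SimpleGraph W) (gl : W → Prop)
    (P : (W → Fin q) → Prop) {ι : Type} (S : Finset ι) (Q : ι → (W → Fin q) → Prop)
    (h : ∀ f, P f → ∃ i ∈ S, Q i f) : N2 B gl P ≤ ∑ i ∈ S, N2 B gl (Q i) := by
  unfold N2
  rw [← Nat.cast_sum]
  apply Nat.cast_le.2
  refine le_trans (Finset.card_le_card ?_) Finset.card_biUnion_le
  intro p hp
  rw [Finset.mem_filter] at hp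
  obtain ⟨i, hi, hQ⟩ := h p.1 hp.2.2.2.2
  exact Finset.mem_biUnion.2 ⟨i, hi, Finset.mem_filter.2 ⟨hp.1, hp.2.1, hp.2.2.1, hp.2.2.2.1, hQ⟩⟩

open scoped Classical in
theorem many_bad {d q : ℕ} (L : Fin d → ℕ) (s : ℕ) (m₀ Z x : ℝ) (hZ : 0 ≤ Z) (hx : 0 < x) (hx1 : x ≤ 1)
    (hb : ∀ Γ : (Fin d → ℕ) → Option (Option (Fin q)),
      N2 (WG (fun _ : Fin d => false) L s) (Wgl (fun _ : Fin d => false) L s) (WE (fun _ => false) L s Γ) ≤
        Z * x ^ Wn (fun _ => false) L Γ) :
    N2 (WG (fun _ : Fin d => false) L s) (Wgl (fun _ : Fin d => false) L s) (fun f : WV (fun _ : Fin d => false) L s → Fin q =>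
        m₀ ≤ ((univ.filter fun t : ∀ i, Fin (nbk false (L i)) => ¬ GDP (Wpat L s f fun i => (t i).val)).card : ℝ)) ≤
      ((q : ℝ) + 2) ^ (∏ i, nbk false (L i)) * Z * x ^ m₀ := by
  let S : Finset ((∀ i, Fin (nbk false (L i))) → Option (Option (Fin q))) := univ.filter fun g =>
    m₀ ≤ ((Wn (fun _ : Fin d => false) L (E04_ext (fun i => nbk false (L i)) g) : ℕ) : ℝ)
  have h1 := E04_union (WG (fun _ : Fin d => false) L s) (Wgl (fun _ : Fin d => false) L s)
    (fun f : WV (fun _ : Fin d => false) L s → Fin q =>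
        m₀ ≤ ((univ.filter fun t : ∀ i, Fin (nbk false (L i)) => ¬ GDP (Wpat L s f fun i => (t i).val)).card : ℝ))
    S (fun g => WE (fun _ => false) L s (E04_ext (fun i => nbk false (L i)) g)) (by
      intro f hf
      have hch : ∀ t : (∀ i, Fin (nbk false (L i))), ∃ o : Option (Option (Fin q)),
          (¬ GDP (Wpat L s f fun i => (t i).val) ↔ o ≠ none) ∧
          ∀ τ, o = some τ → BDP τ (Wpat L s f fun i => (t i).val) := by
        intro t
        by_cases h : GDP (Wpat L s f fun i => (t i).val)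
        · exact ⟨none, ⟨fun h' => absurd h h', fun h' => absurd rfl h'⟩, fun τ hτ => by simp at hτ⟩
        · obtain ⟨τ, hτ⟩ := (not_GDP _).1 h
          refine ⟨some τ, ⟨fun _ => by simp, fun _ => h⟩, fun τ' hτ' => ?_⟩
          rw [← Option.some.inj hτ']
          exact hτ
      choose g hg1 hg2 using hch
      refine ⟨g, ?_, ?_⟩
      · refine Finset.mem_filter.2 ⟨Finset.mem_univ _, le_trans hf ?_⟩
        apply Nat.cast_le.2
        refine Finset.card_le_card ?_
        intro t ht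
        refine Finset.mem_filter.2 ⟨Finset.mem_univ _, ?_⟩
        rw [E04_ext_val (fun i => nbk false (L i)) g t]
        exact (hg1 t).1 (Finset.mem_filter.1 ht).2
      · intro t ht τ hτ
        have h2 := E04_ext_val (fun i => nbk false (L i)) g (fun i => ⟨t i, ht i⟩)
        exact hg2 (fun i => ⟨t i, ht i⟩) τ (h2.symm.trans hτ))
  refine h1.trans ?_
  have h2 : ∀ g ∈ S, N2 (WG (fun _ : Fin d => false) L s) (Wgl (fun _ : Fin d => false) L s)
      (WE (fun _ => false) L s (E04_ext (fun i => nbk false (L i)) g)) ≤ Z * x ^ m₀ := by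
    intro g hg
    refine (hb _).trans ?_
    refine mul_le_mul_of_nonneg_left ?_ hZ
    rw [← Real.rpow_natCast]
    exact Real.rpow_le_rpow_of_exponent_ge hx hx1 (Finset.mem_filter.1 hg).2
  refine (Finset.sum_le_sum h2).trans ?_
  rw [Finset.sum_const, nsmul_eq_mul, mul_assoc]
  refine mul_le_mul_of_nonneg_right ?_ (mul_nonneg hZ (Real.rpow_nonneg hx.le _))
  have h3 : S.card ≤ (q + 2) ^ (∏ i, nbk false (L i)) := by
    refine (Finset.card_le_univ S).trans (le_of_eq ?_)
    rw [Fintype.card_fun, Fintype.card_option, Fintype.card_option, Fintype.card_fin, Fintype.card_pi]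
    simp only [Fintype.card_fin]
  calc ((S.card : ℕ) : ℝ) ≤ (((q + 2) ^ (∏ i, nbk false (L i)) : ℕ) : ℝ) := Nat.cast_le.2 h3
    _ = ((q : ℝ) + 2) ^ (∏ i, nbk false (L i)) := by push_cast; ring

end Pool.Agent.LC

end

/-! ### from `Lib_MP_2c424f_lc7.E03` -/

section

/-!
# LC7 E03: boxes which are not pure

As `COR.not_pure` (`Lib_MP_2c424f_cor/F02.lean`).  If the conclusion fails apply `COR.lines` with `α = ℕ`, `s i = range (L i - 1)`,
`B = {t : ¬ GDP (Wpat t)}`, `lab t = ALP (Wpat t)`, `w` = the bound `Lm`; consecutive blocks `t`, `update t i (t i + 1)` share a face: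
`Wpt .. t a b = Wpt .. (update t i (t i + 1)) (LO.flp a i) (LO.flp b i)` if `a i = b i = true` (`ALP_adj`).  Some block is `GDP` with `ALP = A`, so `|A| = q/2`.
-/

set_option autoImplicit false

open Finset Filter

namespace Pool.Agent.LC

open Pool.Agent.LO Pool.Agent.LIN Pool.Agent.THR Pool.Agent.COR

private theorem E03_adj {d q : ℕ} (L : Fin d → ℕ) (s : ℕ) (f : WV (fun _ : Fin d => false) L s → Fin q)
    (t : Fin d → ℕ) (i : Fin d) (m : ℕ) (a b : Bt d) (ha : a i = true) (hb : b i = true) :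
    Wpat L s f (Function.update t i m) a b =
      Wpat L s f (Function.update t i (m + 1)) (LO.flp a i) (LO.flp b i) := by
  unfold Wpat
  congr 1
  funext k
  unfold Wpt
  congr 1
  by_cases hk : k = i
  · subst hk
    unfold LO.flp
    simp only [Function.update_self, ha, hb]
    simp only [b01, Bool.not_true]
    norm_num
    ring
  · unfold LO.flp
    rw [Function.update_of_ne hk, Function.update_of_ne hk, Function.update_of_ne hk,
      Function.update_of_ne hk]

private theorem E03_lines {d : ℕ} (hd : 1 ≤ d) {α L : Type} (s : Fin d → Finset α) (hne : ∀ i, (s i).Nonempty)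
    (w : ℝ) (hs : ∀ i, ((s i).card : ℝ) ≤ w) (B : Finset (Fin d → α))
    (hB : (B.card : ℝ) * (100 * d * w) ≤ ∏ i, ((s i).card : ℝ)) (lab : (Fin d → α) → L)
    (hl : ∀ t ∈ Fintype.piFinset s, ∀ i, ∀ x ∈ s i, (∀ y ∈ s i, Function.update t i y ∉ B) →
      lab (Function.update t i x) = lab t) :
    ∃ (A : L) (P : Finset (Fin d → α)), (∀ t ∈ P, t ∈ Fintype.piFinset s ∧ t ∉ B ∧ lab t = A) ∧
      49 / 50 * ∏ i, ((s i).card : ℝ) ≤ (P.card : ℝ) := by
  classical
  obtain ⟨A, hA⟩ := lines hd s hne w hs B hB lab hl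
  refine ⟨A, _, fun t ht => ?_, hA⟩
  exact Finset.mem_filter.1 ht

private theorem E03_line {d q : ℕ} (hR : Rg d q) (hd : 1 ≤ d) (L : Fin d → ℕ) (s : ℕ)
    (f : WV (fun _ : Fin d => false) L s → Fin q) (t : Fin d → ℕ) (i : Fin d) (n : ℕ)
    (hG : ∀ m, m < n → GDP (Wpat L s f (Function.update t i m))) (m : ℕ) (hm : m < n) :
    ALP (Wpat L s f (Function.update t i m)) = ALP (Wpat L s f (Function.update t i 0)) := by
  induction m with
  | zero => rfl
  | succ m ih =>
    rw [← ih (by omega)]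
    exact (ALP_adj hR hd i _ _ (fun a b ha hb => E03_adj L s f t i m a b ha hb)
      (hG m (by omega)).1 (hG (m + 1) hm).1).symm

open scoped Classical in
theorem not_WPU {d q : ℕ} (hR : Rg d q) (hd : 1 ≤ d) (L : Fin d → ℕ) (s : ℕ) (hL : ∀ i, 2 ≤ L i) (Lm : ℝ) (hLm : ∀ i, (L i : ℝ) ≤ Lm)
    (f : WV (fun _ : Fin d => false) L s → Fin q) (h : ¬ WPU L s f) :
    (∏ i, ((L i : ℝ) - 1)) / (100 * d * Lm) ≤
      ((univ.filter fun t : ∀ i, Fin (nbk false (L i)) => ¬ GDP (Wpat L s f fun i => (t i).val)).card : ℝ) := by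
  classical
  by_contra hcon
  push Not at hcon
  have hnb : ∀ i, nbk false (L i) = L i - 1 := fun i => rfl
  set σ : Fin d → Finset ℕ := fun i => Finset.range (L i - 1) with hσ
  have hσc : ∀ i, ((σ i).card : ℝ) = (L i : ℝ) - 1 := by
    intro i
    rw [hσ, Finset.card_range, Nat.cast_sub (by have := hL i; omega)]
    simp
  have hprod : ∏ i, ((σ i).card : ℝ) = ∏ i, ((L i : ℝ) - 1) :=
    Finset.prod_congr rfl fun i _ => hσc i
  have hne : ∀ i, (σ i).Nonempty := by
    intro i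
    rw [hσ]
    exact Finset.nonempty_range_iff.2 (by have := hL i; omega)
  have hcw : ∀ i, ((σ i).card : ℝ) ≤ Lm := by
    intro i
    rw [hσc]
    have := hLm i
    linarith
  have hLm0 : (0 : ℝ) < Lm := by
    have h1 := hLm ⟨0, by omega⟩
    have h2 : (2 : ℝ) ≤ (L ⟨0, by omega⟩ : ℝ) := by exact_mod_cast hL _
    linarith
  let ι : (∀ i, Fin (nbk false (L i))) → (Fin d → ℕ) := fun t i => (t i).val
  have hιinj : Function.Injective ι := by
    intro t t' h1
    funext i
    exact Fin.ext (congrFun h1 i)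
  set B : Finset (Fin d → ℕ) := (univ.filter fun t : ∀ i, Fin (nbk false (L i)) =>
    ¬ GDP (Wpat L s f fun i => (t i).val)).image ι with hB
  have hBcard : (B.card : ℝ) = ((univ.filter fun t : ∀ i, Fin (nbk false (L i)) =>
      ¬ GDP (Wpat L s f fun i => (t i).val)).card : ℝ) := by
    rw [hB, Finset.card_image_of_injective _ hιinj]
  have hmem : ∀ t : Fin d → ℕ, t ∈ Fintype.piFinset σ → ∃ t' : ∀ i, Fin (nbk false (L i)), ι t' = t := by
    intro t ht
    refine ⟨fun i => ⟨t i, ?_⟩, rfl⟩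
    have h1 := Fintype.mem_piFinset.1 ht i
    rw [hσ] at h1
    exact Finset.mem_range.1 h1
  have hmB : ∀ t, t ∈ Fintype.piFinset σ → (t ∉ B ↔ GDP (Wpat L s f t)) := by
    intro t ht
    obtain ⟨t', rfl⟩ := hmem t ht
    rw [hB, Finset.mem_image]
    constructor
    · intro h1
      by_contra h2
      exact h1 ⟨t', Finset.mem_filter.2 ⟨Finset.mem_univ _, h2⟩, rfl⟩
    · rintro h1 ⟨t'', h2, h3⟩
      have h4 := hιinj h3
      subst h4
      exact (Finset.mem_filter.1 h2).2 h1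
  have hd0 : (0 : ℝ) < d := by exact_mod_cast hd
  have hdw : (0 : ℝ) < 100 * d * Lm := by positivity
  have hBc : (B.card : ℝ) * (100 * d * Lm) ≤ ∏ i, ((σ i).card : ℝ) := by
    rw [hprod, hBcard]
    rw [lt_div_iff₀ hdw] at hcon
    exact hcon.le
  obtain ⟨A, P, hP, hA⟩ := E03_lines hd σ hne Lm hcw B hBc (fun t => ALP (Wpat L s f t)) (by
    intro t ht i x hx hall
    have hup : ∀ y ∈ σ i, Function.update t i y ∈ Fintype.piFinset σ := by
      intro y hy
      rw [Fintype.mem_piFinset]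
      intro j
      by_cases hj : j = i
      · subst hj
        rw [Function.update_self]
        exact hy
      · rw [Function.update_of_ne hj]
        exact Fintype.mem_piFinset.1 ht j
    have hmr : ∀ y, y ∈ σ i ↔ y < L i - 1 := by
      intro y
      rw [hσ]
      exact Finset.mem_range
    have hG : ∀ m, m < L i - 1 → GDP (Wpat L s f (Function.update t i m)) := by
      intro m hm
      have h3 : m ∈ σ i := (hmr m).2 hm
      exact (hmB _ (hup _ h3)).1 (hall _ h3)
    have hline := E03_line hR hd L s f t i (L i - 1) hG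
    have h1 := hline x ((hmr x).1 hx)
    have h2 := hline (t i) ((hmr _).1 (Fintype.mem_piFinset.1 ht i))
    rw [Function.update_eq_self] at h2
    show ALP (Wpat L s f (Function.update t i x)) = ALP (Wpat L s f t)
    rw [h1, h2])
  rw [hprod] at hA
  have hA' : 49 / 50 * ∏ i, ((L i : ℝ) - 1) ≤
      ((univ.filter fun t : ∀ i, Fin (nbk false (L i)) => GDP (Wpat L s f fun i => (t i).val) ∧
        ALP (Wpat L s f fun i => (t i).val) = A).card : ℝ) := by
    refine hA.trans ?_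
    have h2 : P ⊆ (univ.filter fun t : ∀ i, Fin (nbk false (L i)) =>
        GDP (Wpat L s f fun i => (t i).val) ∧ ALP (Wpat L s f fun i => (t i).val) = A).image ι := by
      intro t ht
      obtain ⟨h3, h4, h5⟩ := hP t ht
      obtain ⟨t', rfl⟩ := hmem t h3
      exact Finset.mem_image.2 ⟨t', Finset.mem_filter.2 ⟨Finset.mem_univ _, (hmB _ h3).1 h4, h5⟩, rfl⟩
    have h6 := (Finset.card_le_card h2).trans Finset.card_image_le
    exact_mod_cast h6
  have hpos : (0 : ℝ) < ∏ i, ((L i : ℝ) - 1) := by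
    refine Finset.prod_pos fun i _ => ?_
    have h2 : (2 : ℝ) ≤ (L i : ℝ) := by exact_mod_cast hL i
    linarith
  refine h ⟨A, ?_, hA'⟩
  have h1 : (0 : ℝ) < ((univ.filter fun t : ∀ i, Fin (nbk false (L i)) => GDP (Wpat L s f fun i => (t i).val) ∧
      ALP (Wpat L s f fun i => (t i).val) = A).card : ℝ) := by
    refine lt_of_lt_of_le ?_ hA'
    exact mul_pos (by norm_num) hpos
  have h2 : 0 < (univ.filter fun t : ∀ i, Fin (nbk false (L i)) => GDP (Wpat L s f fun i => (t i).val) ∧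
      ALP (Wpat L s f fun i => (t i).val) = A).card := by
    exact_mod_cast h1
  obtain ⟨t, ht⟩ := Finset.card_pos.1 h2
  have ht' := (Finset.mem_filter.1 ht).2
  rw [← ht'.2]
  exact ht'.1.2

end Pool.Agent.LC

end
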