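import Pool.Agent.Lib_MP_2c424f_m.M21

/-!
# MP_2c424f_pr, q_c grows linearly: merged library part M29

Concatenation of smaller files (each in its own section), only to save build time.
-/

namespace Pool.Agent.LO
end Pool.Agent.LO

namespace Pool.Agent.LIN
end Pool.Agent.LIN

/-! ### from `Lib_MP_2c424f_thr.M4` -/

section

/-!
# THR M4: mean-field equations (paper proof: M4), deterministic

`hh_u - a ya_{u+σ} = ∑_{x ~ u} [z_x/x_x - z_x/(q al_x)] + ∑ (z_x - zt_x)/(q al_x) + ∑ (zt_x - e^(-h_x))/(q al_x)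
  + ((1/q) ∑_{x ~ u} ya_x - a ya_{u+σ})`, `(x+y+z+w)² ≤ 4(..)`.
1: regular `x`: `|z/x - z/(q al)| ≤ (e^a/(c1 q)) |x/q - al|`, irregular: `≤ 1 + e^a/q ≤ 2`; by Cauchy-Schwarz the square of the sum over the `2d` neighbours is
`≤ 2d ∑_x (..)²`; sum over `u`: `≤ (2d)² [ (e^a/(c1 q))² δ₂ N + 4 irr ]`.   2: `lln`.   3: `≤ (2d/q) e^a a/(c1² q)` if all neighbours `x` are
nice, else each bad `x` contributes `≤ e^a/q`.   4: `(1/q) ∑_x ya_x = a · mean`, `|ya_x - ya_{x'}|` by `ya_diff`, Cauchy-Schwarz (mean over steps, mean over colours), `hom`.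
-/

set_option autoImplicit false

open Finset Filter

namespace Pool.Agent.THR

open Pool.Agent.LO Pool.Agent.LIN

private theorem M4_transl {d k : ℕ} (g : Site d k → ℝ) (a : Site d k) : ∑ x, g (x + a) = ∑ x, g x :=
  Equiv.sum_comp (Equiv.addRight a) g

private theorem M4_card (d : ℕ) : ((univ : Finset (Stp d)).card : ℝ) = 2 * d := by
  have h : Fintype.card (Stp d) = d * 2 := by
    rw [show Fintype.card (Stp d) = Fintype.card (Fin d × Bool) from rfl, Fintype.card_prod, Fintype.card_fin,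
      Fintype.card_bool]
  rw [Finset.card_univ, h]
  push_cast
  ring

/-- sum over the sites of the sum over the steps -/
private theorem M4_sum {d k : ℕ} (g : Site d k → ℝ) :
    ∑ u : Site d k, ∑ σ : Stp d, g (u + sv σ) = 2 * d * ∑ x, g x := by
  rw [Finset.sum_comm]
  rw [Finset.sum_congr rfl fun σ _ => M4_transl g (sv σ), Finset.sum_const, nsmul_eq_mul, M4_card]

/-- Cauchy-Schwarz over the steps, summed over the sites -/
private theorem M4_cs {d k : ℕ} (t : Site d k → ℝ) :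
    ∑ u : Site d k, (∑ σ : Stp d, t (u + sv σ)) ^ 2 ≤ (2 * d) ^ 2 * ∑ x, t x ^ 2 := by
  calc ∑ u : Site d k, (∑ σ : Stp d, t (u + sv σ)) ^ 2
      ≤ ∑ u : Site d k, (2 * d) * ∑ σ : Stp d, t (u + sv σ) ^ 2 := by
        refine Finset.sum_le_sum fun u _ => ?_
        have h := sq_sum_le_card_mul_sum_sq (s := (univ : Finset (Stp d))) (f := fun σ => t (u + sv σ))
        rwa [M4_card] at h
    _ = (2 * d) ^ 2 * ∑ x, t x ^ 2 := by
        rw [← Finset.mul_sum, M4_sum (fun x => t x ^ 2)]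
        ring

private theorem M4_zz {d k q : ℕ} (f : Site d k → Fin q) (v : Site d k) (c : Fin q) : 0 ≤ zz f v c ∧ zz f v c ≤ 1 := by
  unfold zz
  split_ifs <;> norm_num

private theorem M4_mc_sq {q : ℕ} (hq : 1 ≤ q) (φ : Fin q → ℝ) : mc φ ^ 2 ≤ mc (fun c => φ c ^ 2) := by
  unfold mc
  have hq0 : (0 : ℝ) < q := by exact_mod_cast hq
  have h := sq_sum_le_card_mul_sum_sq (s := (univ : Finset (Fin q))) (f := φ)
  rw [Finset.card_univ, Fintype.card_fin] at h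
  rw [div_pow, div_le_div_iff₀ (by positivity) hq0]
  nlinarith

/-- term 1 -/
private theorem M4_t1 {d k q : ℕ} {ε : ℝ} (hq : 1 ≤ q) (hc1 : 0 < c1 ε) (heq : Real.exp (ra d q) ≤ q)
    {f : Site d k → Fin q} (hf : Prp f) (c : Fin q) (x : Site d k) :
    (zz f x c / (av f x : ℝ) - zz f x c / (q * al f x)) ^ 2 ≤
      (Real.exp (ra d q) / (c1 ε * q)) ^ 2 * ((av f x : ℝ) / q - al f x) ^ 2 +
        4 * (if (av f x : ℝ) < c1 ε * q then 1 else 0) := by
  have hq0 : (0 : ℝ) < q := by exact_mod_cast hq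
  have hal := al_ge hq hf x
  have hal0 : 0 < al f x := lt_of_lt_of_le (Real.exp_pos _) hal
  obtain ⟨z0, z1⟩ := M4_zz f x c
  set e := Real.exp (ra d q) with he
  have he0 : 0 < e := Real.exp_pos _
  have hinv : 1 ≤ e * al f x := by
    have h1 : e * Real.exp (-ra d q) = 1 := by
      rw [he, ← Real.exp_add]
      simp
    calc (1 : ℝ) = e * Real.exp (-ra d q) := h1.symm
      _ ≤ e * al f x := mul_le_mul_of_nonneg_left hal he0.le
  split_ifs with hirr
  · -- irregular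
    have a1 : 0 ≤ zz f x c / (av f x : ℝ) := div_nonneg z0 (Nat.cast_nonneg _)
    have a2 : zz f x c / (av f x : ℝ) ≤ 1 := by
      rcases Nat.eq_zero_or_pos (av f x) with h | h
      · rw [h]
        simp
      · have : (1 : ℝ) ≤ av f x := by exact_mod_cast h
        rw [div_le_one (by linarith)]
        linarith
    have a3 : 0 ≤ zz f x c / (q * al f x) := by positivity
    have a4 : zz f x c / (q * al f x) ≤ 1 := by
      rw [div_le_one (by positivity)]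
      nlinarith
    have a5 : 0 ≤ (e / (c1 ε * q)) ^ 2 * ((av f x : ℝ) / q - al f x) ^ 2 := by positivity
    have a6 : |zz f x c / (av f x : ℝ) - zz f x c / (q * al f x)| ≤ 1 := by
      rw [abs_le]
      constructor <;> linarith
    have a7 := sq_le_sq' (abs_le.1 a6).1 (abs_le.1 a6).2
    linarith
  · -- regular
    push Not at hirr
    have hav0 : (0 : ℝ) < av f x := lt_of_lt_of_le (by positivity) hirr
    have key : |zz f x c / (av f x : ℝ) - zz f x c / (q * al f x)| ≤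
        e / (c1 ε * q) * |(av f x : ℝ) / q - al f x| := by
      have e1 : zz f x c / (av f x : ℝ) - zz f x c / (q * al f x) =
          -(zz f x c / ((av f x : ℝ) * al f x)) * ((av f x : ℝ) / q - al f x) := by
        field_simp
        ring
      rw [e1, abs_mul, abs_neg, abs_of_nonneg (by positivity)]
      refine mul_le_mul_of_nonneg_right ?_ (abs_nonneg _)
      rw [div_le_div_iff₀ (by positivity) (by positivity)]
      calc zz f x c * (c1 ε * q) ≤ 1 * (av f x : ℝ) := mul_le_mul z1 hirr (by positivity) (by norm_num)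
        _ ≤ (e * al f x) * (av f x : ℝ) := mul_le_mul_of_nonneg_right hinv hav0.le
        _ = e * ((av f x : ℝ) * al f x) := by ring
    have h2 := sq_le_sq' (abs_le.1 key).1 (abs_le.1 key).2
    rw [mul_pow, sq_abs] at h2
    linarith

open scoped Classical in
/-- term 3 -/
private theorem M4_t3 {d k q : ℕ} {ε : ℝ} (hε : 0 < ε) (hq : 1 ≤ q) (hq2 : 2 / c1 ε ≤ q)
    {f : Site d k → Fin q} (hf : Prp f) (c : Fin q) (x : Site d k) :
    ((zt f x c - Real.exp (-hh c f x)) / (q * al f x)) ^ 2 ≤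
      (Real.exp (ra d q) / q) ^ 2 * ((ra d q / (c1 ε ^ 2 * q)) ^ 2 +
        ∑ σ : Stp d, (if (av f (x + sv σ) : ℝ) < c1 ε * q then 1 else 0)) := by
  have hq0 : (0 : ℝ) < q := by exact_mod_cast hq
  have hal := al_ge hq hf x
  have hal0 : 0 < al f x := lt_of_lt_of_le (Real.exp_pos _) hal
  set e := Real.exp (ra d q) with he
  have he0 : 0 < e := Real.exp_pos _
  have hinv : 1 ≤ e * al f x := by
    have h1 : e * Real.exp (-ra d q) = 1 := by
      rw [he, ← Real.exp_add]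
      simp
    calc (1 : ℝ) = e * Real.exp (-ra d q) := h1.symm
      _ ≤ e * al f x := mul_le_mul_of_nonneg_left hal he0.le
  have h1 : ((zt f x c - Real.exp (-hh c f x)) / (q * al f x)) ^ 2 ≤
      (e / q) ^ 2 * (zt f x c - Real.exp (-hh c f x)) ^ 2 := by
    rw [div_pow, div_pow, div_mul_eq_mul_div, div_le_div_iff₀ (by positivity) (by positivity), mul_pow]
    have h2 : 1 ≤ (e * al f x) ^ 2 := one_le_pow₀ hinv
    have h3 : 0 ≤ (zt f x c - Real.exp (-hh c f x)) ^ 2 * (q : ℝ) ^ 2 := by positivity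
    nlinarith
  refine h1.trans (mul_le_mul_of_nonneg_left ?_ (by positivity))
  have hnn : 0 ≤ ∑ σ : Stp d, (if (av f (x + sv σ) : ℝ) < c1 ε * q then (1 : ℝ) else 0) :=
    Finset.sum_nonneg fun σ _ => by split_ifs <;> norm_num
  by_cases hnc : Nc ε f x
  · have h2 := zt_exp hε hq2 hf c x hnc
    have h3 := sq_le_sq' (abs_le.1 h2).1 (abs_le.1 h2).2
    linarith
  · have h2 := zt_exp' hf c x
    have h3 := sq_le_sq' (abs_le.1 h2).1 (abs_le.1 h2).2
    have h4 : (1 : ℝ) ≤ ∑ σ : Stp d, (if (av f (x + sv σ) : ℝ) < c1 ε * q then (1 : ℝ) else 0) := by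
      unfold Nc Rg at hnc
      push Not at hnc
      obtain ⟨σ, hσ⟩ := hnc
      have h5 := Finset.single_le_sum (f := fun σ : Stp d => (if (av f (x + sv σ) : ℝ) < c1 ε * q then (1 : ℝ) else 0))
        (fun σ _ => by split_ifs <;> norm_num) (Finset.mem_univ σ)
      simpa [hσ] using h5
    have h6 : 0 ≤ (ra d q / (c1 ε ^ 2 * q)) ^ 2 := sq_nonneg _
    linarith

/-- term 4 -/
private theorem M4_t4 {d k q : ℕ} (hq : 1 ≤ q) {f : Site d k → Fin q} (hf : Prp f) {D : ℝ}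
    (hom : ∀ (c : Fin q) (σ τ : Stp d), ∑ x : Site d k, (hh c f (x + sv σ) - hh c f (x + sv τ)) ^ 2 ≤ D)
    (c : Fin q) (σ τ : Stp d) :
    ∑ u : Site d k, (ya c f (u + sv τ) - ya c f (u + sv σ)) ^ 2 ≤ 4 * Real.exp (ra d q) ^ 4 * D := by
  have hq0 : (0 : ℝ) < q := by exact_mod_cast hq
  set e := Real.exp (ra d q) with he
  have he2 : Real.exp (2 * ra d q) = e ^ 2 := by
    rw [he, ← Real.exp_nat_mul]
    norm_num
  have hra : 0 ≤ ra d q := by
    unfold ra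
    positivity
  have he1 : 1 ≤ e := Real.one_le_exp hra
  have pt : ∀ u : Site d k, (ya c f (u + sv τ) - ya c f (u + sv σ)) ^ 2 ≤
      2 * e ^ 2 * (hh c f (u + sv τ) - hh c f (u + sv σ)) ^ 2 +
        2 * e ^ 4 * mc (fun γ => (hh γ f (u + sv τ) - hh γ f (u + sv σ)) ^ 2) := by
    intro u
    have h1 := ya_diff hq hf c (u + sv τ) (u + sv σ)
    rw [he2] at h1
    set A := |hh c f (u + sv τ) - hh c f (u + sv σ)| with hA
    set B := mc (fun γ => |hh γ f (u + sv τ) - hh γ f (u + sv σ)|) with hB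
    have h2 := sq_le_sq' (abs_le.1 h1).1 (abs_le.1 h1).2
    have h3 : B ^ 2 ≤ mc (fun γ => (hh γ f (u + sv τ) - hh γ f (u + sv σ)) ^ 2) := by
      refine (M4_mc_sq hq _).trans (le_of_eq ?_)
      congr 1
      funext γ
      rw [sq_abs]
    have h4 : A ^ 2 = (hh c f (u + sv τ) - hh c f (u + sv σ)) ^ 2 := by rw [hA, sq_abs]
    have h5 : (e * A + e ^ 2 * B) ^ 2 ≤ 2 * (e * A) ^ 2 + 2 * (e ^ 2 * B) ^ 2 := by
      nlinarith [sq_nonneg (e * A - e ^ 2 * B)]
    have h6 : 2 * e ^ 4 * B ^ 2 ≤ 2 * e ^ 4 * mc (fun γ => (hh γ f (u + sv τ) - hh γ f (u + sv σ)) ^ 2) :=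
      mul_le_mul_of_nonneg_left h3 (by positivity)
    rw [← h4]
    calc (ya c f (u + sv τ) - ya c f (u + sv σ)) ^ 2 ≤ (e * A + e ^ 2 * B) ^ 2 := h2
      _ ≤ 2 * (e * A) ^ 2 + 2 * (e ^ 2 * B) ^ 2 := h5
      _ = 2 * e ^ 2 * A ^ 2 + 2 * e ^ 4 * B ^ 2 := by ring
      _ ≤ _ := by linarith
  have hD : 0 ≤ D := (Finset.sum_nonneg fun x _ => sq_nonneg _).trans (hom c σ σ)
  have hmc : ∑ u : Site d k, mc (fun γ => (hh γ f (u + sv τ) - hh γ f (u + sv σ)) ^ 2) ≤ D := by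
    unfold mc
    rw [← Finset.sum_div, Finset.sum_comm, div_le_iff₀ hq0]
    calc ∑ γ : Fin q, ∑ u : Site d k, (hh γ f (u + sv τ) - hh γ f (u + sv σ)) ^ 2
        ≤ ∑ γ : Fin q, D := Finset.sum_le_sum fun γ _ => hom γ τ σ
      _ = D * q := by
        rw [Finset.sum_const, Finset.card_univ, Fintype.card_fin, nsmul_eq_mul]
        ring
  calc ∑ u : Site d k, (ya c f (u + sv τ) - ya c f (u + sv σ)) ^ 2
      ≤ ∑ u : Site d k, (2 * e ^ 2 * (hh c f (u + sv τ) - hh c f (u + sv σ)) ^ 2 +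
        2 * e ^ 4 * mc (fun γ => (hh γ f (u + sv τ) - hh γ f (u + sv σ)) ^ 2)) :=
        Finset.sum_le_sum fun u _ => pt u
    _ = 2 * e ^ 2 * ∑ u : Site d k, (hh c f (u + sv τ) - hh c f (u + sv σ)) ^ 2 +
        2 * e ^ 4 * ∑ u : Site d k, mc (fun γ => (hh γ f (u + sv τ) - hh γ f (u + sv σ)) ^ 2) := by
        rw [Finset.sum_add_distrib, Finset.mul_sum, Finset.mul_sum]
    _ ≤ 2 * e ^ 2 * D + 2 * e ^ 4 * D := by
        refine add_le_add (mul_le_mul_of_nonneg_left (hom c τ σ) (by positivity))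
          (mul_le_mul_of_nonneg_left hmc (by positivity))
    _ ≤ 4 * e ^ 4 * D := by
        have h7 : e ^ 2 ≤ e ^ 4 := pow_le_pow_right₀ he1 (by norm_num)
        nlinarith

/-- the decomposition -/
private theorem M4_dec {d k q : ℕ} (hq : 1 ≤ q) {f : Site d k → Fin q} (hf : Prp f) (c : Fin q) (σ : Stp d)
    (u : Site d k) :
    hh c f u - ra d q * ya c f (u + sv σ) =
      ∑ τ : Stp d, (zz f (u + sv τ) c / (av f (u + sv τ) : ℝ) - zz f (u + sv τ) c / (q * al f (u + sv τ))) +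
      ∑ τ : Stp d, (zz f (u + sv τ) c - zt f (u + sv τ) c) / (q * al f (u + sv τ)) +
      ∑ τ : Stp d, (zt f (u + sv τ) c - Real.exp (-hh c f (u + sv τ))) / (q * al f (u + sv τ)) +
      ∑ τ : Stp d, (ya c f (u + sv τ) - ya c f (u + sv σ)) / q := by
  have hq0 : (0 : ℝ) < q := by exact_mod_cast hq
  rw [← Finset.sum_add_distrib, ← Finset.sum_add_distrib, ← Finset.sum_add_distrib]
  have h1 : ra d q * ya c f (u + sv σ) = ∑ τ : Stp d, ya c f (u + sv σ) / q := by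
    rw [Finset.sum_const, nsmul_eq_mul, M4_card]
    unfold ra
    ring
  rw [h1]
  unfold hh
  rw [← Finset.sum_sub_distrib]
  refine Finset.sum_congr rfl fun τ _ => ?_
  have hal0 : 0 < al f (u + sv τ) := lt_of_lt_of_le (Real.exp_pos _) (al_ge hq hf _)
  have h2 : ya c f (u + sv τ) / q = Real.exp (-hh c f (u + sv τ)) / (q * al f (u + sv τ)) := by
    unfold ya
    rw [div_div, mul_comm (al f (u + sv τ))]
  have h3 : (ya c f (u + sv τ) - ya c f (u + sv σ)) / q =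
      Real.exp (-hh c f (u + sv τ)) / (q * al f (u + sv τ)) - ya c f (u + sv σ) / q := by
    rw [sub_div, h2]
  rw [h3, sub_div, sub_div]
  unfold hh
  ring

open scoped Classical in
private theorem M4_main {d k q : ℕ} {ε D : ℝ} (hε : 0 < ε) (hq : 1 ≤ q) (hc1 : 0 < c1 ε) (hq2 : 2 / c1 ε ≤ q)
    (heq : Real.exp (ra d q) ≤ q) {f : Site d k → Fin q} (hf : Prp f)
    (hom : ∀ (c : Fin q) (σ τ : Stp d), ∑ x : Site d k, (hh c f (x + sv σ) - hh c f (x + sv τ)) ^ 2 ≤ D)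
    (avl : ∑ v : Site d k, ((av f v : ℝ) / q - al f v) ^ 2 ≤ D)
    (lln : ∀ c : Fin q, ∑ u : Site d k,
        (∑ σ : Stp d, (zz f (u + sv σ) c - zt f (u + sv σ) c) / (q * al f (u + sv σ))) ^ 2 ≤ D)
    (c : Fin q) (σ : Stp d) :
    ∑ u : Site d k, (hh c f u - ra d q * ya c f (u + sv σ)) ^ 2 ≤
      4 * ((ra d q ^ 2 * Real.exp (ra d q) ^ 2 / c1 ε ^ 2 + 1 + 4 * ra d q ^ 2 * Real.exp (ra d q) ^ 4) * D +
        (16 * d ^ 2 + 2 * d * ra d q ^ 2 * Real.exp (ra d q) ^ 2) * irr ε f +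
        ra d q ^ 4 * Real.exp (ra d q) ^ 2 / (c1 ε ^ 4 * q ^ 2) * NN d k) := by
  have hq0 : (0 : ℝ) < q := by exact_mod_cast hq
  set e := Real.exp (ra d q) with he
  have he0 : 0 < e := Real.exp_pos _
  have hD : 0 ≤ D := (Finset.sum_nonneg fun x _ => sq_nonneg _).trans avl
  have hirr : ∑ x : Site d k, (if (av f x : ℝ) < c1 ε * q then (1 : ℝ) else 0) = irr ε f := by
    unfold irr
    rw [Finset.sum_boole]
  have h2d : (2 * d : ℝ) = ra d q * q := by
    unfold ra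
    field_simp
  have hcardS : ((univ : Finset (Site d k)).card : ℝ) = NN d k := by
    unfold NN
    rw [Finset.card_univ, Fintype.card_fun, Fintype.card_fin, ZMod.card]
    push_cast
    rfl
  -- the four parts
  have b1 : ∑ u : Site d k, (∑ τ : Stp d, (zz f (u + sv τ) c / (av f (u + sv τ) : ℝ) -
      zz f (u + sv τ) c / (q * al f (u + sv τ)))) ^ 2 ≤
      ra d q ^ 2 * e ^ 2 / c1 ε ^ 2 * D + 16 * d ^ 2 * irr ε f := by
    refine (M4_cs fun x => zz f x c / (av f x : ℝ) - zz f x c / (q * al f x)).trans ?_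
    have h1 : ∑ x : Site d k, (zz f x c / (av f x : ℝ) - zz f x c / (q * al f x)) ^ 2 ≤
        (e / (c1 ε * q)) ^ 2 * D + 4 * irr ε f := by
      calc ∑ x : Site d k, (zz f x c / (av f x : ℝ) - zz f x c / (q * al f x)) ^ 2
          ≤ ∑ x : Site d k, ((e / (c1 ε * q)) ^ 2 * ((av f x : ℝ) / q - al f x) ^ 2 +
            4 * (if (av f x : ℝ) < c1 ε * q then 1 else 0)) :=
            Finset.sum_le_sum fun x _ => M4_t1 hq hc1 heq hf c x
        _ = (e / (c1 ε * q)) ^ 2 * ∑ x : Site d k, ((av f x : ℝ) / q - al f x) ^ 2 + 4 * irr ε f := by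
            rw [Finset.sum_add_distrib, ← Finset.mul_sum, ← Finset.mul_sum, hirr]
        _ ≤ _ := by
            have := mul_le_mul_of_nonneg_left avl (sq_nonneg (e / (c1 ε * q)))
            linarith
    refine (mul_le_mul_of_nonneg_left h1 (by positivity)).trans (le_of_eq ?_)
    have h3 : (2 * (d : ℝ)) ^ 2 * ((e / (c1 ε * q)) ^ 2 * D + 4 * irr ε f) =
        (2 * (d : ℝ)) ^ 2 * ((e / (c1 ε * q)) ^ 2 * D) + 16 * d ^ 2 * irr ε f := by ring
    rw [h3, h2d]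
    congr 1
    field_simp
  have b3 : ∑ u : Site d k, (∑ τ : Stp d, (zt f (u + sv τ) c - Real.exp (-hh c f (u + sv τ))) /
      (q * al f (u + sv τ))) ^ 2 ≤
      ra d q ^ 4 * e ^ 2 / (c1 ε ^ 4 * q ^ 2) * NN d k + 2 * d * ra d q ^ 2 * e ^ 2 * irr ε f := by
    refine (M4_cs fun x => (zt f x c - Real.exp (-hh c f x)) / (q * al f x)).trans ?_
    have h1 : ∑ x : Site d k, ((zt f x c - Real.exp (-hh c f x)) / (q * al f x)) ^ 2 ≤
        (e / q) ^ 2 * ((ra d q / (c1 ε ^ 2 * q)) ^ 2 * NN d k + 2 * d * irr ε f) := by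
      calc ∑ x : Site d k, ((zt f x c - Real.exp (-hh c f x)) / (q * al f x)) ^ 2
          ≤ ∑ x : Site d k, (e / q) ^ 2 * ((ra d q / (c1 ε ^ 2 * q)) ^ 2 +
            ∑ τ : Stp d, (if (av f (x + sv τ) : ℝ) < c1 ε * q then 1 else 0)) :=
            Finset.sum_le_sum fun x _ => M4_t3 hε hq hq2 hf c x
        _ = (e / q) ^ 2 * ((ra d q / (c1 ε ^ 2 * q)) ^ 2 * NN d k + 2 * d * irr ε f) := by
            rw [← Finset.mul_sum, Finset.sum_add_distrib, Finset.sum_const, nsmul_eq_mul, hcardS,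
              M4_sum (fun x => if (av f x : ℝ) < c1 ε * q then (1 : ℝ) else 0), hirr]
            ring
    refine (mul_le_mul_of_nonneg_left h1 (by positivity)).trans (le_of_eq ?_)
    have h3 : (2 * (d : ℝ)) ^ 2 * ((e / q) ^ 2 * ((ra d q / (c1 ε ^ 2 * q)) ^ 2 * NN d k + 2 * d * irr ε f)) =
        (2 * (d : ℝ)) ^ 2 * (e / q) ^ 2 * ((ra d q / (c1 ε ^ 2 * q)) ^ 2 * NN d k) +
        (2 * (d : ℝ)) ^ 2 * (e / q) ^ 2 * (2 * d * irr ε f) := by ring
    have h4 : (2 * (d : ℝ)) ^ 2 * (e / q) ^ 2 = ra d q ^ 2 * e ^ 2 := by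
      rw [h2d]
      field_simp
    rw [h3, h4]
    have h5 : ra d q ^ 2 * e ^ 2 * ((ra d q / (c1 ε ^ 2 * q)) ^ 2 * NN d k) =
        ra d q ^ 4 * e ^ 2 / (c1 ε ^ 4 * q ^ 2) * NN d k := by
      field_simp
    rw [h5]
    ring
  have b4 : ∑ u : Site d k, (∑ τ : Stp d, (ya c f (u + sv τ) - ya c f (u + sv σ)) / q) ^ 2 ≤
      4 * ra d q ^ 2 * e ^ 4 * D := by
    calc ∑ u : Site d k, (∑ τ : Stp d, (ya c f (u + sv τ) - ya c f (u + sv σ)) / q) ^ 2
        ≤ ∑ u : Site d k, (2 * d) * ∑ τ : Stp d, ((ya c f (u + sv τ) - ya c f (u + sv σ)) / q) ^ 2 := by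
          refine Finset.sum_le_sum fun u _ => ?_
          have h := sq_sum_le_card_mul_sum_sq (s := (univ : Finset (Stp d)))
            (f := fun τ => (ya c f (u + sv τ) - ya c f (u + sv σ)) / q)
          rwa [M4_card] at h
      _ = (2 * d) / q ^ 2 * ∑ τ : Stp d, ∑ u : Site d k, (ya c f (u + sv τ) - ya c f (u + sv σ)) ^ 2 := by
          rw [← Finset.mul_sum, Finset.sum_comm]
          rw [div_mul_eq_mul_div, mul_div_assoc, Finset.sum_div]
          congr 1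
          refine Finset.sum_congr rfl fun τ _ => ?_
          rw [Finset.sum_div]
          refine Finset.sum_congr rfl fun u _ => ?_
          rw [div_pow]
      _ ≤ (2 * d) / q ^ 2 * ∑ τ : Stp d, 4 * e ^ 4 * D := by
          refine mul_le_mul_of_nonneg_left (Finset.sum_le_sum fun τ _ => M4_t4 hq hf hom c σ τ) (by positivity)
      _ = 4 * ra d q ^ 2 * e ^ 4 * D := by
          rw [Finset.sum_const, nsmul_eq_mul, M4_card, h2d]
          field_simp
  -- conclusion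
  have pt : ∀ u : Site d k, (hh c f u - ra d q * ya c f (u + sv σ)) ^ 2 ≤
      4 * ((∑ τ : Stp d, (zz f (u + sv τ) c / (av f (u + sv τ) : ℝ) -
        zz f (u + sv τ) c / (q * al f (u + sv τ)))) ^ 2 +
      (∑ τ : Stp d, (zz f (u + sv τ) c - zt f (u + sv τ) c) / (q * al f (u + sv τ))) ^ 2 +
      (∑ τ : Stp d, (zt f (u + sv τ) c - Real.exp (-hh c f (u + sv τ))) / (q * al f (u + sv τ))) ^ 2 +
      (∑ τ : Stp d, (ya c f (u + sv τ) - ya c f (u + sv σ)) / q) ^ 2) := by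
    intro u
    rw [M4_dec hq hf c σ u]
    have gen : ∀ x y z w : ℝ, (x + y + z + w) ^ 2 ≤ 4 * (x ^ 2 + y ^ 2 + z ^ 2 + w ^ 2) := by
      intro x y z w
      nlinarith [sq_nonneg (x - y), sq_nonneg (x - z), sq_nonneg (x - w), sq_nonneg (y - z), sq_nonneg (y - w),
        sq_nonneg (z - w)]
    exact gen _ _ _ _
  refine (Finset.sum_le_sum fun u _ => pt u).trans ?_
  rw [← Finset.mul_sum, Finset.sum_add_distrib, Finset.sum_add_distrib, Finset.sum_add_distrib]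
  have b2 := lln c
  nlinarith

theorem mf_det {ε : ℝ} (hε : 0 < ε) (hε1 : ε ≤ 1) (δ : ℝ) (hδ : 0 < δ) : ∃ δ' : ℝ, 0 < δ' ∧
    EvT ε fun d k q => ∀ f ∈ prps d k q, irr ε f ≤ NN d k / (d : ℝ) ^ 4 →
      (∀ (c : Fin q) (σ τ : Stp d), ∑ x : Site d k, (hh c f (x + sv σ) - hh c f (x + sv τ)) ^ 2 ≤ δ' * NN d k) →
      (∑ v : Site d k, ((av f v : ℝ) / q - al f v) ^ 2 ≤ δ' * NN d k) →
      (∀ c : Fin q, ∑ u : Site d k,
        (∑ σ : Stp d, (zz f (u + sv σ) c - zt f (u + sv σ) c) / (q * al f (u + sv σ))) ^ 2 ≤ δ' * NN d k) →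
      ∀ (c : Fin q) (σ : Stp d), ∑ u : Site d k, (hh c f u - ra d q * ya c f (u + sv σ)) ^ 2 ≤ δ * NN d k := by
  have hc1 : 0 < c1 ε := by
    unfold c1
    positivity
  set a := A0 ε with ha
  have ha0 : 0 < a := by
    rw [ha]
    unfold A0
    positivity
  set E := Real.exp a with hE
  have hE0 : 0 < E := Real.exp_pos _
  set K1 : ℝ := a ^ 2 * E ^ 2 / c1 ε ^ 2 + 1 + 4 * a ^ 2 * E ^ 4 with hK1
  set K2 : ℝ := 16 + 2 * a ^ 2 * E ^ 2 + a ^ 4 * E ^ 2 / (c1 ε ^ 4 * ε ^ 2) with hK2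
  have hK1p : 0 < K1 := by positivity
  have hK2p : 0 < K2 := by positivity
  refine ⟨δ / (8 * K1), by positivity, max 1 (max ⌈8 * K2 / δ⌉₊ (max ⌈2 / c1 ε / ε⌉₊ ⌈E / ε⌉₊)), ?_⟩
  intro d q hd hqd _
  refine Filter.Eventually.of_forall fun k f hf hir hom avl lln c σ => ?_
  have hd1 : (1 : ℝ) ≤ d := by
    exact_mod_cast (le_max_left _ _).trans hd
  have hd2 : 8 * K2 / δ ≤ d := by
    refine (Nat.le_ceil _).trans ?_
    exact_mod_cast (le_max_left _ _).trans ((le_max_right _ _).trans hd)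
  have hd3 : 2 / c1 ε / ε ≤ d := by
    refine (Nat.le_ceil _).trans ?_
    exact_mod_cast (le_max_left _ _).trans ((le_max_right _ _).trans ((le_max_right _ _).trans hd))
  have hd4 : E / ε ≤ d := by
    refine (Nat.le_ceil _).trans ?_
    exact_mod_cast (le_max_right _ _).trans ((le_max_right _ _).trans ((le_max_right _ _).trans hd))
  have hq0 : (0 : ℝ) < q := lt_of_lt_of_le (by positivity) hqd
  have hq : 1 ≤ q := by
    have : 0 < q := by exact_mod_cast hq0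
    omega
  have hq2 : 2 / c1 ε ≤ q := by
    rw [div_le_iff₀ hε] at hd3
    linarith
  have hra0 : 0 ≤ ra d q := by
    unfold ra
    positivity
  have hra : ra d q ≤ a := by
    rw [ha]
    unfold ra A0
    rw [div_le_div_iff₀ hq0 hε]
    nlinarith
  have heE : Real.exp (ra d q) ≤ E := Real.exp_le_exp.2 hra
  have heq : Real.exp (ra d q) ≤ q := by
    rw [div_le_iff₀ hε] at hd4
    linarith
  have hfP : Prp f := by
    classical
    unfold prps at hf
    exact (Finset.mem_filter.1 hf).2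
  have hN : 0 < NN d k := by
    unfold NN
    positivity
  have main := M4_main hε hq hc1 hq2 heq hfP hom avl lln c σ
  refine main.trans ?_
  set e := Real.exp (ra d q) with he
  have he0 : 0 < e := Real.exp_pos _
  have p1 : ra d q ^ 2 ≤ a ^ 2 := pow_le_pow_left₀ hra0 hra 2
  have p2 : ra d q ^ 4 ≤ a ^ 4 := pow_le_pow_left₀ hra0 hra 4
  have p3 : e ^ 2 ≤ E ^ 2 := pow_le_pow_left₀ he0.le heE 2
  have p4 : e ^ 4 ≤ E ^ 4 := pow_le_pow_left₀ he0.le heE 4
  have p5 : ra d q ^ 2 * e ^ 2 ≤ a ^ 2 * E ^ 2 := mul_le_mul p1 p3 (by positivity) (by positivity)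
  have p6 : ra d q ^ 2 * e ^ 4 ≤ a ^ 2 * E ^ 4 := mul_le_mul p1 p4 (by positivity) (by positivity)
  have p7 : ra d q ^ 4 * e ^ 2 ≤ a ^ 4 * E ^ 2 := mul_le_mul p2 p3 (by positivity) (by positivity)
  have q1 : ra d q ^ 2 * e ^ 2 / c1 ε ^ 2 + 1 + 4 * ra d q ^ 2 * e ^ 4 ≤ K1 := by
    have h1 : ra d q ^ 2 * e ^ 2 / c1 ε ^ 2 ≤ a ^ 2 * E ^ 2 / c1 ε ^ 2 :=
      div_le_div_of_nonneg_right p5 (by positivity)
    rw [hK1]
    nlinarith
  have q2 : (ra d q ^ 2 * e ^ 2 / c1 ε ^ 2 + 1 + 4 * ra d q ^ 2 * e ^ 4) * (δ / (8 * K1) * NN d k) ≤ δ / 8 * NN d k := by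
    refine (mul_le_mul_of_nonneg_right q1 (by positivity)).trans (le_of_eq ?_)
    field_simp
  have hd0 : (0 : ℝ) < d := by linarith
  have hdd : (d : ℝ) ≤ (d : ℝ) ^ 2 := by
    rw [sq]
    exact le_mul_of_one_le_right hd0.le hd1
  have hirr0 : 0 ≤ irr ε f := by
    unfold irr
    positivity
  have q3 : (16 * (d : ℝ) ^ 2 + 2 * d * ra d q ^ 2 * e ^ 2) * irr ε f ≤ (16 + 2 * a ^ 2 * E ^ 2) / d * NN d k := by
    have h1 : 16 * (d : ℝ) ^ 2 + 2 * d * ra d q ^ 2 * e ^ 2 ≤ (16 + 2 * a ^ 2 * E ^ 2) * d ^ 2 := by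
      have h2 : 2 * (d : ℝ) * (ra d q ^ 2 * e ^ 2) ≤ 2 * d * (a ^ 2 * E ^ 2) :=
        mul_le_mul_of_nonneg_left p5 (by positivity)
      have h3 : 2 * (d : ℝ) * (a ^ 2 * E ^ 2) ≤ 2 * (d ^ 2) * (a ^ 2 * E ^ 2) := by
        refine mul_le_mul_of_nonneg_right ?_ (by positivity)
        linarith
      calc 16 * (d : ℝ) ^ 2 + 2 * d * ra d q ^ 2 * e ^ 2
          = 16 * (d : ℝ) ^ 2 + 2 * (d : ℝ) * (ra d q ^ 2 * e ^ 2) := by ring
        _ ≤ 16 * (d : ℝ) ^ 2 + 2 * (d ^ 2) * (a ^ 2 * E ^ 2) := by linarith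
        _ = (16 + 2 * a ^ 2 * E ^ 2) * d ^ 2 := by ring
    calc (16 * (d : ℝ) ^ 2 + 2 * d * ra d q ^ 2 * e ^ 2) * irr ε f
        ≤ (16 + 2 * a ^ 2 * E ^ 2) * d ^ 2 * (NN d k / (d : ℝ) ^ 4) :=
          mul_le_mul h1 hir hirr0 (by positivity)
      _ = (16 + 2 * a ^ 2 * E ^ 2) / d ^ 2 * NN d k := by
          field_simp
      _ ≤ (16 + 2 * a ^ 2 * E ^ 2) / d * NN d k := by
          refine mul_le_mul_of_nonneg_right ?_ hN.le
          exact div_le_div_of_nonneg_left (by positivity) hd0 hdd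
  have q4 : ra d q ^ 4 * e ^ 2 / (c1 ε ^ 4 * q ^ 2) * NN d k ≤ a ^ 4 * E ^ 2 / (c1 ε ^ 4 * ε ^ 2) / d * NN d k := by
    refine mul_le_mul_of_nonneg_right ?_ hN.le
    rw [div_div]
    refine div_le_div₀ (by positivity) p7 (by positivity) ?_
    have h1 : ε ^ 2 * d ≤ (q : ℝ) ^ 2 := by
      have h2 : (ε * d) ^ 2 ≤ (q : ℝ) ^ 2 := pow_le_pow_left₀ (by positivity) hqd 2
      have h3 : ε ^ 2 * (d : ℝ) ≤ ε ^ 2 * (d : ℝ) ^ 2 := by
        exact mul_le_mul_of_nonneg_left hdd (by positivity)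
      calc ε ^ 2 * (d : ℝ) ≤ ε ^ 2 * (d : ℝ) ^ 2 := h3
        _ = (ε * d) ^ 2 := by ring
        _ ≤ _ := h2
    calc c1 ε ^ 4 * ε ^ 2 * (d : ℝ) = c1 ε ^ 4 * (ε ^ 2 * d) := by ring
      _ ≤ c1 ε ^ 4 * (q : ℝ) ^ 2 := mul_le_mul_of_nonneg_left h1 (by positivity)
  have q5 : (16 + 2 * a ^ 2 * E ^ 2) / d + a ^ 4 * E ^ 2 / (c1 ε ^ 4 * ε ^ 2) / d ≤ δ / 8 := by
    have h0 : (16 + 2 * a ^ 2 * E ^ 2) / d + a ^ 4 * E ^ 2 / (c1 ε ^ 4 * ε ^ 2) / d = K2 / d := by
      rw [← add_div]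
    rw [h0, div_le_iff₀ hd0]
    rw [div_le_iff₀ hδ] at hd2
    linarith
  have q6 := mul_le_mul_of_nonneg_right q5 hN.le
  rw [add_mul] at q6
  linarith

end Pool.Agent.THR

end
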