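import Pool.Agent.Lib_MP_2c424f_m.M03
import Pool.Agent.Lib_MP_2c424f_m.M21

/-!
# MP_2c424f_pr, q_c grows linearly: merged library part M32

Concatenation of smaller files (each in its own section), only to save build time.
-/

namespace Pool.Agent.LO
end Pool.Agent.LO

namespace Pool.Agent.LIN
end Pool.Agent.LIN

/-! ### from `Lib_MP_2c424f_thr.C3a` -/

section

/-!
# THR C3a: correlation of the indicators (paper proof: C3 (i)), deterministic

`∑_{u ∈ b} PP^(2t+1) (bq (f u) f) u = (1/q) ∑_c ∑_{u ∈ b} bq c f u · PP^(2t+1) (bq c f) u = (1/q) ∑_c ∑_{u ∈ b} PP^t (bq c f) u · PP^(t+1) (bq c f) u`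
(`PPt_adj`; for even `t` the kernel preserves the class: `Kt_cls`), and `PP^t bq ≈ PP^t gg ≈ ya_u` (`smo`, `sm0`), `PP^(t+1) bq ≈ PP^(t+1) gg ≈ ya_{u+σ}` (`smo` and
`PPt_l2`, `sm1`) in `ℓ²`, `0 ≤ ya ≤ e^a` (`ya_bound`, `a ≤ A0`); Cauchy-Schwarz: `= ∑_{u ∈ b} mc (ya_u ya_{u+σ}) ± small N`.
-/

set_option autoImplicit false

open Finset Filter

namespace Pool.Agent.THR

open Pool.Agent.LO Pool.Agent.LIN

private theorem C3a_not {d k : ℕ} (b : Bool) (x : Site d k) (h : x ∉ cls b d k) : x ∈ cls (!b) d k := by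
  unfold cls evs ods at *
  cases b <;> simp_all

private theorem C3a_class {d k : ℕ} (hk : 1 ≤ k) (t : ℕ) (ht : Even t) (b : Bool) (g : Site d k → ℝ) (x : Site d k) :
    PP^[t] (fun y => if y ∈ cls b d k then g y else 0) x = if x ∈ cls b d k then PP^[t] g x else 0 := by
  rw [Kt_repr t _ x]
  by_cases hx : x ∈ cls b d k
  · rw [if_pos hx, Kt_repr t g x]
    refine Finset.sum_congr rfl fun y _ => ?_
    by_cases hy : y ∈ cls b d k
    · rw [if_pos hy]
    · rw [if_neg hy, Kt_cls hk t ht b x y hx (C3a_not b y hy), zero_mul, zero_mul]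
  · rw [if_neg hx]
    refine Finset.sum_eq_zero fun y _ => ?_
    by_cases hy : y ∈ cls b d k
    · have h1 : y ∈ cls (!(!b)) d k := by
        rw [Bool.not_not]
        exact hy
      rw [Kt_cls hk t ht (!b) x y (C3a_not b x hx) h1, zero_mul]
    · rw [if_neg hy, mul_zero]

private theorem C3a_pair {d k : ℕ} (hk : 1 ≤ k) (t : ℕ) (ht : Even t) (b : Bool) (g : Site d k → ℝ) :
    ∑ u ∈ cls b d k, g u * PP^[2 * t + 1] g u = ∑ u ∈ cls b d k, PP^[t] g u * PP^[t + 1] g u := by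
  have e0 : ∀ u, PP^[2 * t + 1] g u = PP^[t] (PP^[t + 1] g) u := by
    intro u
    rw [← Function.iterate_add_apply, show t + (t + 1) = 2 * t + 1 by ring]
  have e1 : ∀ φ ψ : Site d k → ℝ, ∑ u ∈ cls b d k, φ u * ψ u =
      ∑ u, (if u ∈ cls b d k then φ u else 0) * ψ u := by
    intro φ ψ
    have h1 : ∀ u, (if u ∈ cls b d k then φ u else 0) * ψ u = if u ∈ cls b d k then φ u * ψ u else 0 := by
      intro u
      split_ifs
      · rfl
      · rw [zero_mul]
    rw [Finset.sum_congr rfl fun u _ => h1 u, Finset.sum_ite_mem, Finset.univ_inter]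
  rw [Finset.sum_congr rfl fun u _ => by rw [e0 u], e1 g (PP^[t] (PP^[t + 1] g)), ← PPt_adj,
    e1 (PP^[t] g) (PP^[t + 1] g)]
  refine Finset.sum_congr rfl fun u _ => ?_
  rw [C3a_class hk t ht b g u]

private theorem C3a_pt (δ Y A B a b : ℝ) (hδ : 0 < δ) (ha : |a| ≤ Y) (hb : |b| ≤ Y) :
    A * B ≤ a * b + (1 / 2 + Y ^ 2 / δ) * ((A - a) ^ 2 + (B - b) ^ 2) + δ / 2 := by
  have key : ∀ x y : ℝ, |y| ≤ Y → x * y ≤ Y ^ 2 / δ * x ^ 2 + δ / 4 := by
    intro x y hy
    have h1 : x * y ≤ |x| * Y := by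
      calc x * y ≤ |x * y| := le_abs_self _
        _ = |x| * |y| := abs_mul _ _
        _ ≤ |x| * Y := mul_le_mul_of_nonneg_left hy (abs_nonneg _)
    have h2 : |x| * Y ≤ Y ^ 2 / δ * x ^ 2 + δ / 4 := by
      rw [← sq_abs x]
      have h3 : Y ^ 2 / δ * |x| ^ 2 + δ / 4 - |x| * Y = (Y * |x| - δ / 2) ^ 2 / δ := by
        field_simp
        ring
      have h4 : 0 ≤ (Y * |x| - δ / 2) ^ 2 / δ := by positivity
      linarith
    exact h1.trans h2
  have k1 := key (A - a) b hb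
  have k2 := key (B - b) a ha
  have k3 : (A - a) * (B - b) ≤ 1 / 2 * ((A - a) ^ 2 + (B - b) ^ 2) := by
    nlinarith [sq_nonneg ((A - a) - (B - b))]
  have k4 : A * B = a * b + (A - a) * (B - b) + (A - a) * b + (B - b) * a := by ring
  rw [k4, add_mul, mul_add (Y ^ 2 / δ)]
  linarith

private theorem C3a_NN (d k : ℕ) : 0 < NN d k := by
  unfold NN
  positivity

private theorem C3a_mean {d k q : ℕ} (hq : 1 ≤ q) (b : Bool) (t : ℕ) (f : Site d k → Fin q) :
    ∑ u ∈ cls b d k, PP^[t] (bq (f u) f) u =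
      mc (fun c => ∑ u ∈ cls b d k, bq c f u * PP^[t] (bq c f) u) := by
  unfold mc
  have hq0 : (q : ℝ) ≠ 0 := by
    have : (1 : ℝ) ≤ q := by exact_mod_cast hq
    positivity
  rw [eq_div_iff hq0, Finset.sum_comm, Finset.sum_mul]
  refine Finset.sum_congr rfl fun u _ => ?_
  have h1 : ∀ c : Fin q, bq c f u * PP^[t] (bq c f) u = if f u = c then q * PP^[t] (bq c f) u else 0 := by
    intro c
    have : bq c f u = if f u = c then (q : ℝ) else 0 := rfl
    rw [this]
    split_ifs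
    · rfl
    · rw [zero_mul]
  rw [Finset.sum_congr rfl fun c _ => h1 c, Finset.sum_ite_eq, if_pos (Finset.mem_univ _), mul_comm]

private theorem C3a_l2 {ι : Type*} [Fintype ι] (x y z : ι → ℝ) :
    ∑ i, (x i - z i) ^ 2 ≤ 2 * (∑ i, (x i - y i) ^ 2 + ∑ i, (y i - z i) ^ 2) := by
  rw [← Finset.sum_add_distrib, Finset.mul_sum]
  refine Finset.sum_le_sum fun i _ => ?_
  nlinarith [sq_nonneg ((x i - y i) - (y i - z i))]

/-- correlation of the indicators (i) -/
theorem corr_det {ε : ℝ} (hε : 0 < ε) (hε1 : ε ≤ 1) (C₆ : ℝ) (t : ℕ) (ht : Even t) (ht' : 20 ≤ t) (δ : ℝ) (hδ : 0 < δ) :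
    ∃ δ' : ℝ, 0 < δ' ∧ EvT ε fun d k q => ∀ (b : Bool) (σ : Stp d), ∀ f ∈ prps d k q, Good ε δ' C₆ t f →
      ∑ u ∈ cls b d k, PP^[2 * t + 1] (bq (f u) f) u ≤
        ∑ u ∈ cls b d k, mc (fun c => ya c f u * ya c f (u + sv σ)) + δ * NN d k := by
  set Y : ℝ := Real.exp (A0 ε) with hY
  set K : ℝ := 1 / 2 + Y ^ 2 / δ with hK
  have hK0 : 0 < K := by positivity
  refine ⟨δ / (16 * K), by positivity, ?_⟩
  refine (EvT_reg hε hε1 (max 1 (1 / (δ / (16 * K))))).mono ?_
  rintro d k q ⟨hd, hq, hk, -, -, -, hra, -⟩ b σ f hf hG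
  set δ' : ℝ := δ / (16 * K) with hδ'
  have hδ'0 : 0 < δ' := by positivity
  have hd1 : (1 : ℝ) ≤ d := (le_max_left _ _).trans hd
  have hd1' : 1 ≤ d := by exact_mod_cast hd1
  have hq1 : (1 : ℝ) ≤ q := (le_max_left _ _).trans hq
  have hq1' : 1 ≤ q := by exact_mod_cast hq1
  have hk1 : (1 : ℝ) ≤ k := (le_max_left _ _).trans hk
  have hk1' : 1 ≤ k := by exact_mod_cast hk1
  have hdδ : NN d k / (d : ℝ) ^ 4 ≤ δ' * NN d k := by
    have h1 : 1 / δ' ≤ d := (le_max_right _ _).trans hd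
    have h2 : (d : ℝ) ≤ (d : ℝ) ^ 4 := le_self_pow₀ hd1 (by norm_num)
    have h3 : 1 ≤ δ' * (d : ℝ) ^ 4 := by
      have h4 : 1 ≤ δ' * d := by
        rw [div_le_iff₀ hδ'0] at h1
        linarith
      exact h4.trans (mul_le_mul_of_nonneg_left h2 hδ'0.le)
    rw [div_le_iff₀ (by positivity)]
    have := C3a_NN d k
    nlinarith
  have hPrp : Prp f := by
    classical
    have hf' := hf
    unfold prps at hf'
    exact (Finset.mem_filter.mp hf').2
  have hN := C3a_NN d k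
  have hya : ∀ c v, |ya c f v| ≤ Y := by
    intro c v
    have h := ya_bound hq1' hPrp c v
    rw [abs_of_pos h.1]
    exact h.2.trans (Real.exp_le_exp.mpr hra)
  have hc : ∀ c : Fin q, ∑ u ∈ cls b d k, bq c f u * PP^[2 * t + 1] (bq c f) u ≤
      ∑ u ∈ cls b d k, ya c f u * ya c f (u + sv σ) + δ * NN d k := by
    intro c
    rw [C3a_pair hk1' t ht b (bq c f)]
    have hA : ∑ u, (PP^[t] (bq c f) u - ya c f u) ^ 2 ≤ 4 * δ' * NN d k := by
      have h1 := C3a_l2 (fun u => PP^[t] (bq c f) u) (fun u => PP^[t] (gg c f) u) (fun u => ya c f u)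
      have h2 := hG.smo c
      have h3 := hG.sm0 c
      linarith
    have hB : ∑ u, (PP^[t + 1] (bq c f) u - ya c f (u + sv σ)) ^ 2 ≤ 4 * δ' * NN d k := by
      have h1 := C3a_l2 (fun u => PP^[t + 1] (bq c f) u) (fun u => PP^[t + 1] (gg c f) u)
        (fun u => ya c f (u + sv σ))
      have h2 : ∑ x, (PP^[t + 1] (bq c f) x - PP^[t + 1] (gg c f) x) ^ 2 ≤ NN d k / (d : ℝ) ^ 4 := by
        refine le_trans ?_ (hG.smo c)
        refine le_trans (le_of_eq ?_)
          (PPt_l2 hd1' 1 (fun x => PP^[t] (bq c f) x - PP^[t] (gg c f) x))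
        refine Finset.sum_congr rfl fun x _ => ?_
        rw [PPt_sub 1]
        congr 2
        · rw [← Function.iterate_add_apply, add_comm 1 t]
        · rw [← Function.iterate_add_apply, add_comm 1 t]
      have h3 := hG.sm1 c σ
      linarith
    have hsub : ∀ φ : Site d k → ℝ, (∀ u, 0 ≤ φ u) → ∑ u ∈ cls b d k, φ u ≤ ∑ u, φ u := fun φ hφ =>
      Finset.sum_le_univ_sum_of_nonneg hφ
    have hA' := (hsub (fun u => (PP^[t] (bq c f) u - ya c f u) ^ 2) fun u => sq_nonneg _).trans hA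
    have hB' := (hsub (fun u => (PP^[t + 1] (bq c f) u - ya c f (u + sv σ)) ^ 2) fun u => sq_nonneg _).trans hB
    have h1' : ∑ _u ∈ cls b d k, δ / 2 ≤ δ / 2 * NN d k := by
      refine (hsub (fun _ => δ / 2) fun _ => by positivity).trans (le_of_eq ?_)
      rw [Finset.sum_const, nsmul_eq_mul, Finset.card_univ, card_site, mul_comm]
    calc ∑ u ∈ cls b d k, PP^[t] (bq c f) u * PP^[t + 1] (bq c f) u
        ≤ ∑ u ∈ cls b d k, (ya c f u * ya c f (u + sv σ) +
            K * ((PP^[t] (bq c f) u - ya c f u) ^ 2 + (PP^[t + 1] (bq c f) u - ya c f (u + sv σ)) ^ 2) +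
              δ / 2) := Finset.sum_le_sum fun u _ => C3a_pt δ Y _ _ _ _ hδ (hya c u) (hya c _)
      _ = ∑ u ∈ cls b d k, ya c f u * ya c f (u + sv σ) +
            K * (∑ u ∈ cls b d k, (PP^[t] (bq c f) u - ya c f u) ^ 2 +
              ∑ u ∈ cls b d k, (PP^[t + 1] (bq c f) u - ya c f (u + sv σ)) ^ 2) +
            ∑ _u ∈ cls b d k, δ / 2 := by
          rw [Finset.sum_add_distrib, Finset.sum_add_distrib, ← Finset.mul_sum, Finset.sum_add_distrib]
      _ ≤ ∑ u ∈ cls b d k, ya c f u * ya c f (u + sv σ) + K * (4 * δ' * NN d k + 4 * δ' * NN d k) +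
            δ / 2 * NN d k :=
          add_le_add (add_le_add le_rfl (mul_le_mul_of_nonneg_left (add_le_add hA' hB') hK0.le)) h1'
      _ = ∑ u ∈ cls b d k, ya c f u * ya c f (u + sv σ) + δ * NN d k := by
          have h9 : K * δ' = δ / 16 := by
            rw [hδ']
            field_simp
          have h10 : K * (4 * δ' * NN d k + 4 * δ' * NN d k) = 8 * (K * δ') * NN d k := by ring
          rw [h10, h9]
          ring
  rw [C3a_mean hq1' b (2 * t + 1) f]
  have hmc : ∑ u ∈ cls b d k, mc (fun c => ya c f u * ya c f (u + sv σ)) + δ * NN d k =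
      mc (fun c => ∑ u ∈ cls b d k, ya c f u * ya c f (u + sv σ) + δ * NN d k) := by
    unfold mc
    rw [← Finset.sum_div, Finset.sum_comm, Finset.sum_add_distrib, Finset.sum_const, nsmul_eq_mul,
      Finset.card_univ, Fintype.card_fin]
    field_simp
  rw [hmc]
  unfold mc
  exact div_le_div_of_nonneg_right (Finset.sum_le_sum fun c _ => hc c) (by positivity)

end Pool.Agent.THR

end
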