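import Pool.Agent.Lib_MP_2c424f_m.M04
import Pool.Agent.Lib_MP_2c424f_m.M13
import Pool.Agent.Lib_MP_2c424f_m.M18
import Pool.Agent.Lib_MP_2c424f_m.M32

/-!
# MP_2c424f_pr, q_c grows linearly: merged library part M33

Concatenation of smaller files (each in its own section), only to save build time.
-/

namespace Pool.Agent.LO
end Pool.Agent.LO

namespace Pool.Agent.LIN
end Pool.Agent.LIN

/-! ### from `Lib_MP_2c424f_thr.R8` -/

section

/-!
# THR R8: unweighting (paper proof: R8)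

* `one_sum`: resample the class `b`: mean `∑_{u ∈ b} |w_u| (z^c + z^c')/x ≤ (2/(c1 q)) W + 2 irr`.
* `two_sum`: `∑_{u ∈ b} |w_u| ∑_{τ ∈ fs} ∑_{ρ ∈ pl} 1[f(u+τ+ρ) ∈ {c,c'}]`, sites of the class `b`; resample `b`: mean
  `≤ ∑_u |w_u| · (2d · 4) · 2/(c1 q) + 16 d · irr`; `16 d/(c1 q) = 8 a/c1`; bounded differences `≤ 8 d · 2`.
* `unweight`: `|VF - V1| ≤ CW 1[av f u < c1 q]` (`av_aF`).  `Ψ = ± ∑ w_u (V1_u - 1) sg(u+σ)`, class `!b` (a change at a
  site changes at most `2d + 1` summands by `≤ 2 (CW+1)`), `V1_mean` at nice `u`, `≤ CW + 1` at the other `u`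
  (at most `2 d irr`, `not_nice`), `one_sum`, `two_sum`, `avail`.
-/

set_option autoImplicit false

open Finset Filter

namespace Pool.Agent.THR

open Pool.Agent.LO Pool.Agent.LIN

private theorem R8_c1_pos (ε : ℝ) : 0 < c1 ε := by
  unfold c1; positivity

private theorem R8_CW_pos (ε : ℝ) : 0 < CW ε := by
  unfold CW; positivity

private theorem R8_NN_pos (d k : ℕ) : 0 < NN d k := by
  unfold NN; positivity

/-- the sum whose mean is computed -/
private noncomputable def R8Psi (ε : ℝ) {d k q : ℕ} (p : Ixs d k q) (f : Site d k → Fin q) : ℝ :=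
  ∑ u ∈ cls p.1.1 d k, p.1.2.2.2 u *
    ((V1 ε p.1.2.1.1 p.1.2.1.2 p.1.2.2.1.1 p.1.2.2.1.2 f u - 1) * sg p.1.2.2.1.1 p.1.2.2.1.2 f (u + sv p.2))

section
variable {d k q : ℕ}

private theorem R8_two (hk : 1 ≤ k) (b : Bool) (u : Site d k) (hu : u ∈ cls b d k) (τ ρ : Stp d) :
    u + sv τ + sv ρ ∈ cls b d k := by
  rw [mem_cls_step hk, mem_cls_step hk, Bool.not_not]
  exact hu

private theorem R8_eq (hk : 1 ≤ k) (ε : ℝ) (i j : Fin d) (c c' : Fin q) (b : Bool) (u : Site d k) (hu : u ∈ cls b d k)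
    (v : Site d k) (hv : v ∈ cls (!b) d k) (h : Site d k → Fin q) (γ : Fin q) (σ : Stp d)
    (hne : ∀ ρ : Stp d, u + sv ρ ≠ v) :
    V1 ε i j c c' (Function.update h v γ) u = V1 ε i j c c' h u ∧
      sg c c' (Function.update h v γ) (u + sv σ) = sg c c' h (u + sv σ) := by
  have h2 : ∀ τ ρ : Stp d, Function.update h v γ (u + sv τ + sv ρ) = h (u + sv τ + sv ρ) := by
    intro τ ρ
    refine Function.update_of_ne ?_ _ _
    intro h3
    have h4 := R8_two hk b u hu τ ρ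
    rw [h3] at h4
    exact (cls_not b v).1 hv h4
  have h1 : ∀ τ : Stp d, Function.update h v γ (u + sv τ) = h (u + sv τ) := by
    intro τ
    exact Function.update_of_ne (hne τ) _ _
  have hx : ∀ τ : Stp d, xS i j (Function.update h v γ) u τ = xS i j h u τ := by
    intro τ
    unfold xS
    simp only [h2]
  have hp : ∀ τ : Stp d, pF i j c c' (Function.update h v γ) u τ = pF i j c c' h u τ := by
    intro τ
    unfold pF
    rw [hx τ]
  have hr : r1 ε i j (Function.update h v γ) u = r1 ε i j h u := by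
    unfold r1
    simp only [hx]
  have hW : WF i j c c' (Function.update h v γ) u = WF i j c c' h u := by
    unfold WF
    simp only [hp]
  have hB : BF i j c c' (Function.update h v γ) u = BF i j c c' h u := by
    unfold BF
    simp only [h1]
  constructor
  · unfold V1
    rw [hW, hB]
    by_cases hrr : r1 ε i j h u
    · rw [if_pos hrr, if_pos (hr.symm ▸ hrr)]
    · rw [if_neg hrr, if_neg (hr.symm ▸ hrr)]
  · unfold sg
    rw [h1 σ]

private theorem R8_term {ε : ℝ} (hε : 0 < ε) (hq : 8 / c1 ε ≤ q) (ha : ra d q ≤ A0 ε) (i j : Fin d) (c c' : Fin q)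
    (f : Site d k → Fin q) (u v : Site d k) :
    |(V1 ε i j c c' f u - 1) * sg c c' f v| ≤ CW ε + 1 := by
  have hc := R8_c1_pos ε
  have hq4 : 4 / c1 ε ≤ q := by
    refine le_trans ?_ hq
    gcongr
    norm_num
  have h1 := V1_bound hε hq4 ha i j c c' f u
  have h2 := sg_abs c c' f v
  have h3 : |V1 ε i j c c' f u - 1| ≤ CW ε + 1 := by
    rw [abs_le]
    constructor <;> linarith [h1.1, h1.2]
  rw [abs_mul]
  calc |V1 ε i j c c' f u - 1| * |sg c c' f v| ≤ (CW ε + 1) * 1 :=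
        mul_le_mul h3 h2 (abs_nonneg _) (by linarith [R8_CW_pos ε])
    _ = CW ε + 1 := mul_one _

open scoped Classical in
private theorem R8_card (v : Site d k) :
    (((univ : Finset (Site d k)).filter fun u => ∃ ρ : Stp d, u + sv ρ = v).card : ℝ) ≤ 2 * d := by
  have h1 : ((univ : Finset (Site d k)).filter fun u => ∃ ρ : Stp d, u + sv ρ = v) ⊆
      (univ : Finset (Stp d)).image fun ρ => v - sv ρ := by
    intro u hu
    rw [mem_filter] at hu
    obtain ⟨-, ρ, hρ⟩ := hu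
    rw [mem_image]
    exact ⟨ρ, mem_univ _, by rw [← hρ]; abel⟩
  have h2 := (card_le_card h1).trans card_image_le
  have h3 : (univ : Finset (Stp d)).card = d * 2 := by simp
  rw [h3] at h2
  have h4 : (((univ : Finset (Site d k)).filter fun u => ∃ ρ : Stp d, u + sv ρ = v).card : ℝ) ≤ ((d * 2 : ℕ) : ℝ) := by
    exact_mod_cast h2
  push_cast at h4
  linarith

private theorem R8_lip (hk : 1 ≤ k) {ε : ℝ} (hε : 0 < ε) (hq : 8 / c1 ε ≤ q) (ha : ra d q ≤ A0 ε)
    (hd : 4 * (CW ε + 1) ≤ d) (p : Ixs d k q) (hp : okx p.1) : Lip (!p.1.1) ((d : ℝ) ^ 2) (R8Psi ε p) := by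
  classical
  intro f _ h _ v hv γ _
  obtain ⟨⟨b, ⟨i, j⟩, ⟨c, c'⟩, w⟩, σ⟩ := p
  obtain ⟨_, _, hw⟩ := hp
  simp only at hv hw
  unfold R8Psi
  simp only
  rw [← sum_sub_distrib]
  refine (abs_sum_le_sum_abs _ _).trans ?_
  have h1 : ∀ u ∈ cls b d k,
      |w u * ((V1 ε i j c c' (Function.update h v γ) u - 1) * sg c c' (Function.update h v γ) (u + sv σ)) -
        w u * ((V1 ε i j c c' h u - 1) * sg c c' h (u + sv σ))| ≤
      if (∃ ρ : Stp d, u + sv ρ = v) then 2 * (CW ε + 1) else 0 := by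
    intro u hu
    split_ifs with hex
    · rw [← mul_sub, abs_mul]
      have h2 := R8_term hε hq ha i j c c' (Function.update h v γ) u (u + sv σ)
      have h3 := R8_term hε hq ha i j c c' h u (u + sv σ)
      have h4 : |(V1 ε i j c c' (Function.update h v γ) u - 1) * sg c c' (Function.update h v γ) (u + sv σ) -
          (V1 ε i j c c' h u - 1) * sg c c' h (u + sv σ)| ≤ 2 * (CW ε + 1) := by
        refine (abs_sub _ _).trans ?_
        linarith
      calc |w u| * |(V1 ε i j c c' (Function.update h v γ) u - 1) * sg c c' (Function.update h v γ) (u + sv σ) -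
          (V1 ε i j c c' h u - 1) * sg c c' h (u + sv σ)| ≤ 1 * (2 * (CW ε + 1)) :=
            mul_le_mul (hw u) h4 (abs_nonneg _) zero_le_one
        _ = 2 * (CW ε + 1) := one_mul _
    · push Not at hex
      obtain ⟨h2, h3⟩ := R8_eq hk ε i j c c' b u hu v hv h γ σ hex
      rw [h2, h3, sub_self, abs_zero]
  refine (sum_le_sum h1).trans ?_
  have h2 : ∑ u ∈ cls b d k, (if (∃ ρ : Stp d, u + sv ρ = v) then 2 * (CW ε + 1) else 0) ≤
      ∑ u : Site d k, (if (∃ ρ : Stp d, u + sv ρ = v) then 2 * (CW ε + 1) else 0) := by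
    refine sum_le_sum_of_subset_of_nonneg (subset_univ _) ?_
    intro u _ _
    have := R8_CW_pos ε
    split_ifs
    · linarith
    · exact le_refl _
  refine h2.trans ?_
  rw [← sum_filter, sum_const, nsmul_eq_mul]
  have h3 := R8_card (d := d) (k := k) v
  have hCW := R8_CW_pos ε
  calc (((univ : Finset (Site d k)).filter fun u => ∃ ρ : Stp d, u + sv ρ = v).card : ℝ) * (2 * (CW ε + 1)) ≤
      (2 * d) * (2 * (CW ε + 1)) := by
        refine mul_le_mul_of_nonneg_right h3 ?_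
        linarith
    _ = d * (4 * (CW ε + 1)) := by ring
    _ ≤ d * d := by
        refine mul_le_mul_of_nonneg_left hd ?_
        positivity
    _ = (d : ℝ) ^ 2 := by ring

open scoped Classical in
private theorem R8_not_nice (ε : ℝ) (f : Site d k → Fin q) :
    (((univ : Finset (Site d k)).filter fun u => ¬ Nc ε f u).card : ℝ) ≤ 2 * d * irr ε f := by
  have h1 : ((univ : Finset (Site d k)).filter fun u => ¬ Nc ε f u) ⊆
      (univ : Finset (Stp d)).biUnion fun σ => (univ : Finset (Site d k)).filter fun u => ¬ Rg ε f (u + sv σ) := by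
    intro u hu
    rw [mem_filter] at hu
    have h2 := hu.2
    unfold Nc at h2
    push Not at h2
    obtain ⟨σ, hσ⟩ := h2
    rw [mem_biUnion]
    exact ⟨σ, mem_univ _, mem_filter.2 ⟨mem_univ _, hσ⟩⟩
  have h2 : ∀ σ : Stp d, ((((univ : Finset (Site d k)).filter fun u => ¬ Rg ε f (u + sv σ)).card : ℕ) : ℝ) =
      irr ε f := by
    intro σ
    unfold irr
    congr 1
    refine card_bij (fun u _ => u + sv σ) ?_ ?_ ?_
    · intro u hu
      rw [mem_filter] at hu ⊢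
      refine ⟨mem_univ _, ?_⟩
      have h3 := hu.2
      unfold Rg at h3
      exact not_le.1 h3
    · intro u _ v _ huv
      exact add_right_cancel huv
    · intro v hv
      rw [mem_filter] at hv
      refine ⟨v - sv σ, mem_filter.2 ⟨mem_univ _, ?_⟩, sub_add_cancel _ _⟩
      rw [sub_add_cancel]
      unfold Rg
      exact not_le.2 hv.2
  have h3 : (((univ : Finset (Site d k)).filter fun u => ¬ Nc ε f u).card : ℝ) ≤
      ∑ σ : Stp d, ((((univ : Finset (Site d k)).filter fun u => ¬ Rg ε f (u + sv σ)).card : ℕ) : ℝ) := by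
    have h4 := (card_le_card h1).trans card_biUnion_le
    exact_mod_cast h4
  refine h3.trans (le_of_eq ?_)
  rw [sum_congr rfl fun σ _ => h2 σ, sum_const, nsmul_eq_mul]
  have h5 : ((univ : Finset (Stp d)).card : ℝ) = 2 * d := by
    simp
    ring
  rw [h5]

open scoped Classical in
private theorem R8_VF (ε : ℝ) (hε : 0 < ε) (hq : 8 / c1 ε ≤ q) (ha : ra d q ≤ A0 ε) (i j : Fin d) (hij : i ≠ j)
    (c c' : Fin q) (f : Site d k → Fin q) (u : Site d k) :
    |VF ε i j c c' f u - V1 ε i j c c' f u| ≤ CW ε * if (av f u : ℝ) < c1 ε * q then 1 else 0 := by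
  have hc := R8_c1_pos ε
  have hCW := R8_CW_pos ε
  have hq4 : 4 / c1 ε ≤ q := by
    refine le_trans ?_ hq
    gcongr
    norm_num
  have h1 := V1_bound hε hq4 ha i j c c' f u
  have h2 : (av f u : ℝ) ≤ aF i j f u := by exact_mod_cast (av_aF i j hij f u).1
  unfold VF
  by_cases h : c1 ε * q ≤ (aF i j f u : ℝ)
  · rw [if_pos h, sub_self, abs_zero]
    refine mul_nonneg hCW.le ?_
    split_ifs <;> norm_num
  · rw [if_neg h, if_pos (lt_of_le_of_lt h2 (not_le.1 h)), zero_sub, abs_neg, mul_one, abs_of_nonneg h1.1]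
    exact h1.2

open scoped Classical in
private theorem R8_mean (hk : 2 ≤ k) {ε : ℝ} (hε : 0 < ε) (hq : 8 / c1 ε ≤ q) (ha : ra d q ≤ A0 ε) (ha0 : 0 ≤ ra d q)
    (b : Bool) (i j : Fin d) (c c' : Fin q) (w : Site d k → ℝ) (σ : Stp d) (hij : i ≠ j) (hc : c ≠ c')
    (hw : ∀ x, |w x| ≤ 1) (hσ : σ ∈ pl i j) {f : Site d k → Fin q} (hf : Prp f) :
    |fm (!b) (R8Psi ε (((b, (i, j), (c, c'), w) : Ix d k q), σ)) f| ≤
      2 * CW ε / (c1 ε * q) * (ra d q / c1 ε * (∑ u ∈ cls b d k, |w u| * (if f u = c ∨ f u = c' then (1 : ℝ) else 0)) +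
        1 / (c1 ε * q) * (∑ u ∈ cls b d k, |w u| * ∑ τ ∈ fs i j,
          ((nP i j c f (u + sv τ) : ℝ) + nP i j c' f (u + sv τ))) +
        10 * ra d q / (c1 ε ^ 2 * q) * Wt b w) + (CW ε + 1) * (2 * d * irr ε f) := by
  have hc1 := R8_c1_pos ε
  have hCW := R8_CW_pos ε
  have h0 : fm (!b) (R8Psi ε (((b, (i, j), (c, c'), w) : Ix d k q), σ)) f =
      ∑ u ∈ cls b d k, w u * fm (!b) (fun h => (V1 ε i j c c' h u - 1) * sg c c' h (u + sv σ)) f := by
    unfold R8Psi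
    simp only
    rw [fm_sum]
    refine sum_congr rfl fun u _ => ?_
    rw [← fm_mul]
  rw [h0]
  refine (abs_sum_le_sum_abs _ _).trans ?_
  set X : Site d k → ℝ := fun u => 2 * CW ε / (c1 ε * q) * (ra d q / c1 ε * (if f u = c ∨ f u = c' then (1 : ℝ) else 0) +
        1 / (c1 ε * q) * ∑ τ ∈ fs i j, ((nP i j c f (u + sv τ) : ℝ) + nP i j c' f (u + sv τ)) +
        10 * ra d q / (c1 ε ^ 2 * q)) with hX
  have hX0 : ∀ u, 0 ≤ X u := by
    intro u
    simp only [hX]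
    have h1 : (0 : ℝ) ≤ if f u = c ∨ f u = c' then (1 : ℝ) else 0 := by split_ifs <;> norm_num
    positivity
  have h1 : ∀ u ∈ cls b d k, |w u * fm (!b) (fun h => (V1 ε i j c c' h u - 1) * sg c c' h (u + sv σ)) f| ≤
      |w u| * X u + (CW ε + 1) * (if ¬ Nc ε f u then 1 else 0) := by
    intro u hu
    rw [abs_mul]
    by_cases hn : Nc ε f u
    · rw [if_neg (not_not.2 hn), mul_zero, add_zero]
      exact mul_le_mul_of_nonneg_left (V1_mean hε hk hq ha i j hij c c' hc b hf u hu hn σ hσ) (abs_nonneg _)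
    · rw [if_pos hn, mul_one]
      have h2 : |fm (!b) (fun h => (V1 ε i j c c' h u - 1) * sg c c' h (u + sv σ)) f| ≤ CW ε + 1 := by
        refine (fm_abs _ _ _).trans ?_
        refine (fm_mono (!b) hf (G := fun _ => CW ε + 1) fun h _ => ?_).trans (le_of_eq (fm_const (!b) hf _))
        exact R8_term hε hq ha i j c c' h u (u + sv σ)
      calc |w u| * |fm (!b) (fun h => (V1 ε i j c c' h u - 1) * sg c c' h (u + sv σ)) f| ≤ 1 * (CW ε + 1) :=
            mul_le_mul (hw u) h2 (abs_nonneg _) zero_le_one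
        _ ≤ |w u| * X u + (CW ε + 1) := by
            have := mul_nonneg (abs_nonneg (w u)) (hX0 u)
            linarith
  refine (sum_le_sum h1).trans ?_
  rw [sum_add_distrib]
  refine add_le_add (le_of_eq ?_) ?_
  · have h2 : ∀ u ∈ cls b d k, |w u| * X u = 2 * CW ε / (c1 ε * q) *
        (ra d q / c1 ε * (|w u| * (if f u = c ∨ f u = c' then (1 : ℝ) else 0)) +
        1 / (c1 ε * q) * (|w u| * ∑ τ ∈ fs i j, ((nP i j c f (u + sv τ) : ℝ) + nP i j c' f (u + sv τ))) +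
        10 * ra d q / (c1 ε ^ 2 * q) * |w u|) := by
      intro u _
      simp only [hX]
      ring
    rw [sum_congr rfl h2, ← mul_sum, sum_add_distrib, sum_add_distrib, ← mul_sum, ← mul_sum, ← mul_sum]
    rfl
  · rw [← mul_sum]
    refine mul_le_mul_of_nonneg_left ?_ (by linarith)
    refine le_trans ?_ (R8_not_nice ε f)
    rw [← sum_filter, sum_const, nsmul_eq_mul, mul_one]
    have h3 : ((cls b d k).filter fun u => ¬ Nc ε f u).card ≤ ((univ : Finset (Site d k)).filter fun u => ¬ Nc ε f u).card :=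
      card_le_card (filter_subset_filter _ (subset_univ _))
    exact_mod_cast h3

open scoped Classical in
private theorem R8_split (ε : ℝ) (hε : 0 < ε) (hq : 8 / c1 ε ≤ q) (ha : ra d q ≤ A0 ε) (b : Bool) (i j : Fin d)
    (hij : i ≠ j) (c c' : Fin q) (w : Site d k → ℝ) (hw : ∀ x, |w x| ≤ 1) (σ : Stp d) (f : Site d k → Fin q) :
    |∑ u ∈ cls b d k, w u * ((VF ε i j c c' f u - 1) * sg c c' f (u + sv σ))| ≤
      |R8Psi ε (((b, (i, j), (c, c'), w) : Ix d k q), σ) f| + CW ε * irr ε f := by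
  have hCW := R8_CW_pos ε
  have h1 : ∑ u ∈ cls b d k, w u * ((VF ε i j c c' f u - 1) * sg c c' f (u + sv σ)) =
      R8Psi ε (((b, (i, j), (c, c'), w) : Ix d k q), σ) f +
        ∑ u ∈ cls b d k, w u * ((VF ε i j c c' f u - V1 ε i j c c' f u) * sg c c' f (u + sv σ)) := by
    unfold R8Psi
    simp only
    rw [← sum_add_distrib]
    refine sum_congr rfl fun u _ => ?_
    ring
  rw [h1]
  refine (abs_add_le _ _).trans ?_
  refine add_le_add le_rfl ?_
  refine (abs_sum_le_sum_abs _ _).trans ?_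
  have h2 : ∀ u ∈ cls b d k, |w u * ((VF ε i j c c' f u - V1 ε i j c c' f u) * sg c c' f (u + sv σ))| ≤
      CW ε * (if (av f u : ℝ) < c1 ε * q then 1 else 0) := by
    intro u _
    have h3 := R8_VF ε hε hq ha i j hij c c' f u
    have h4 := sg_abs c c' f (u + sv σ)
    have h5 : (0 : ℝ) ≤ CW ε * (if (av f u : ℝ) < c1 ε * q then 1 else 0) := (abs_nonneg _).trans h3
    rw [abs_mul, abs_mul]
    calc |w u| * (|VF ε i j c c' f u - V1 ε i j c c' f u| * |sg c c' f (u + sv σ)|) ≤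
        1 * ((CW ε * (if (av f u : ℝ) < c1 ε * q then 1 else 0)) * 1) :=
          mul_le_mul (hw u) (mul_le_mul h3 h4 (abs_nonneg _) h5) (mul_nonneg (abs_nonneg _) (abs_nonneg _)) zero_le_one
      _ = CW ε * (if (av f u : ℝ) < c1 ε * q then 1 else 0) := by ring
  refine (sum_le_sum h2).trans ?_
  rw [← mul_sum]
  refine mul_le_mul_of_nonneg_left ?_ hCW.le
  rw [← sum_filter, sum_const, nsmul_eq_mul, mul_one]
  unfold irr
  have h3 : ((cls b d k).filter fun u => (av f u : ℝ) < c1 ε * q).card ≤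
      ((univ : Finset (Site d k)).filter fun u => (av f u : ℝ) < c1 ε * q).card :=
    card_le_card (filter_subset_filter _ (subset_univ _))
  exact_mod_cast h3

end

theorem unweight {ε : ℝ} (hε : 0 < ε) (hε1 : ε ≤ 1) : ∃ C₃ : ℝ, 0 < C₃ ∧ ∀ K : ℕ,
    WOPi ε Ixs fun d k q p f => okx p.1 → p.2 ∈ pl p.1.2.1.1 p.1.2.1.2 →
      |∑ u ∈ cls p.1.1 d k, p.1.2.2.2 u *
          ((VF ε p.1.2.1.1 p.1.2.1.2 p.1.2.2.1.1 p.1.2.2.1.2 f u - 1) * sg p.1.2.2.1.1 p.1.2.2.1.2 f (u + sv p.2))| ≤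
        C₃ / (q : ℝ) ^ 2 * Wt p.1.1 p.1.2.2.2 + NN d k / (d : ℝ) ^ K := by
  have hc1 := R8_c1_pos ε
  have hCW := R8_CW_pos ε
  have hA0 : 0 < A0 ε := by unfold A0; positivity
  refine ⟨40 * CW ε * A0 ε / c1 ε ^ 3, by positivity, fun K => ?_⟩
  set M : ℝ := 2 + 4 * (CW ε + 1) + 8 / c1 ε + 2 * CW ε / c1 ε * (A0 ε / c1 ε + 1 / c1 ε) + (3 * CW ε + 4) with hM
  have hM2 : 2 ≤ M := by
    have : 0 ≤ 4 * (CW ε + 1) + 8 / c1 ε + 2 * CW ε / c1 ε * (A0 ε / c1 ε + 1 / c1 ε) + (3 * CW ε + 4) := by positivity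
    linarith
  have hMa : 4 * (CW ε + 1) ≤ M := by
    have : 0 ≤ 2 + 8 / c1 ε + 2 * CW ε / c1 ε * (A0 ε / c1 ε + 1 / c1 ε) + (3 * CW ε + 4) := by positivity
    linarith
  have hMb : 8 / c1 ε ≤ M := by
    have : 0 ≤ 2 + 4 * (CW ε + 1) + 2 * CW ε / c1 ε * (A0 ε / c1 ε + 1 / c1 ε) + (3 * CW ε + 4) := by positivity
    linarith
  have hMc : 2 * CW ε / c1 ε * (A0 ε / c1 ε + 1 / c1 ε) ≤ M := by
    have : 0 ≤ 2 + 4 * (CW ε + 1) + 8 / c1 ε + (3 * CW ε + 4) := by positivity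
    linarith
  have hMd : 3 * CW ε + 4 ≤ M := by
    have : 0 ≤ 2 + 4 * (CW ε + 1) + 8 / c1 ε + 2 * CW ε / c1 ε * (A0 ε / c1 ε + 1 / c1 ε) := by positivity
    linarith
  have hreg := EvT_reg hε hε1 M
  have hL : EvT ε fun d k q => ∀ i : Ixs d k q, (okx i.1 ∧ i.2 ∈ pl i.1.2.1.1 i.1.2.1.2) →
      Lip (!i.1.1) ((d : ℝ) ^ 2) (R8Psi ε i) := by
    refine hreg.mono ?_
    intro d k q h i hi
    obtain ⟨h1, h2, h3, -, -, -, h7, -⟩ := h
    refine R8_lip ?_ hε (hMb.trans h2) h7 (hMa.trans h1) i hi.1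
    have h4 : (1 : ℝ) ≤ k := by linarith
    exact_mod_cast h4
  have hL' : EvT ε fun d k q => ∀ i : Ixs d k q, (okx i.1 ∧ i.2 ∈ pl i.1.2.1.1 i.1.2.1.2) →
      Lip (!i.1.1) ((d : ℝ) ^ 2) (fun f => - R8Psi ε i f) := by
    refine hL.mono ?_
    intro d k q h i hi f hf g hg v hv γ hγ
    have h1 := h i hi f hf g hg v hv γ hγ
    rw [neg_sub_neg, abs_sub_comm]
    exact h1
  have t1 := WOPi_tail hε hε1 Ixs (fun d k q p => !p.1.1) (fun d k q p => okx p.1 ∧ p.2 ∈ pl p.1.2.1.1 p.1.2.1.2)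
    (fun d k q p => R8Psi ε p) 2 (K + 2) hL
  have t2 := WOPi_tail hε hε1 Ixs (fun d k q p => !p.1.1) (fun d k q p => okx p.1 ∧ p.2 ∈ pl p.1.2.1.1 p.1.2.1.2)
    (fun d k q p f => - R8Psi ε p f) 2 (K + 2) hL'
  have t3 := (one_sum hε hε1 (K + 2)).comap (ι' := Ixs) (fun d k q p => p.1)
  have t4 := (two_sum hε hε1 (K + 2)).comap (ι' := Ixs) (fun d k q p => p.1)
  have t5 := (avail hε hε1 (K + 3)).toi Ixs
  refine (t1.and (t2.and (t3.and (t4.and t5)))).mono ?_
  refine hreg.mono ?_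
  intro d k q hr p f hf hall hok hσ
  obtain ⟨hd, hqM, hkM, hq1, hq2, ha1, haA, h2d⟩ := hr
  obtain ⟨u1, u2, u3, u4, u5⟩ := hall
  have hfP : Prp f := by
    classical
    unfold prps at hf
    exact (mem_filter.1 hf).2
  obtain ⟨⟨b, ⟨i, j⟩, ⟨c, c'⟩, w⟩, σ⟩ := p
  have u1' := u1 ⟨hok, hσ⟩
  have u2' := u2 ⟨hok, hσ⟩
  have u3' := u3 hok
  have u4' := u4 hok
  obtain ⟨hij, hcc, hw⟩ := hok
  simp only at u1' u2' u3' u4' hij hcc hw hσ ⊢
  have hk2 : 2 ≤ k := by
    have h4 : (2 : ℝ) ≤ k := by linarith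
    exact_mod_cast h4
  have hq8 : 8 / c1 ε ≤ q := hMb.trans hqM
  have ha0 : 0 ≤ ra d q := by unfold ra; positivity
  have hdpos : (0 : ℝ) < d := by linarith
  have hqpos : (0 : ℝ) < q := by linarith
  have hN := R8_NN_pos d k
  have hmean := R8_mean hk2 hε hq8 haA ha0 b i j c c' w σ hij hcc hw hσ hfP
  have hsplit := R8_split ε hε hq8 haA b i j hij c c' w hw σ f
  -- the value of the sum
  have hΨ : |R8Psi ε (((b, (i, j), (c, c'), w) : Ix d k q), σ) f| ≤
      |fm (!b) (R8Psi ε (((b, (i, j), (c, c'), w) : Ix d k q), σ)) f| + NN d k / (d : ℝ) ^ (K + 2) := by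
    have hneg : fm (!b) (fun f => - R8Psi ε (((b, (i, j), (c, c'), w) : Ix d k q), σ) f) f =
        - fm (!b) (R8Psi ε (((b, (i, j), (c, c'), w) : Ix d k q), σ)) f := by
      have := fm_mul (!b) f (-1) (R8Psi ε (((b, (i, j), (c, c'), w) : Ix d k q), σ))
      simp only [neg_mul, one_mul] at this
      exact this
    rw [hneg] at u2'
    rw [abs_le]
    constructor
    · have := neg_abs_le (fm (!b) (R8Psi ε (((b, (i, j), (c, c'), w) : Ix d k q), σ)) f)
      linarith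
    · have := le_abs_self (fm (!b) (R8Psi ε (((b, (i, j), (c, c'), w) : Ix d k q), σ)) f)
      linarith
  set W := Wt b w with hW
  have hW0 : 0 ≤ W := by
    rw [hW]
    unfold Wt
    positivity
  set S1 := ∑ u ∈ cls b d k, |w u| * (if f u = c ∨ f u = c' then (1 : ℝ) else 0) with hS1
  set S2 := ∑ u ∈ cls b d k, |w u| * ∑ τ ∈ fs i j, ((nP i j c f (u + sv τ) : ℝ) + nP i j c' f (u + sv τ)) with hS2
  set D := NN d k / (d : ℝ) ^ (K + 2) with hD
  have hD0 : 0 < D := by positivity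
  have hirr : irr ε f ≤ D / d := by
    refine u5.trans (le_of_eq ?_)
    rw [hD, pow_succ (d : ℝ) (K + 2), div_div]
  have hDK : NN d k / (d : ℝ) ^ K = D * (d : ℝ) ^ 2 := by
    rw [hD, pow_add]
    field_simp
  -- main term
  have m1 : 2 * CW ε / (c1 ε * q) * (ra d q / c1 ε * S1 + 1 / (c1 ε * q) * S2 + 10 * ra d q / (c1 ε ^ 2 * q) * W) ≤
      2 * CW ε / (c1 ε * q) * (A0 ε / c1 ε * (2 / (c1 ε * q) * W + D) + 1 / (c1 ε * q) * (8 * A0 ε / c1 ε * W + D) +
        10 * A0 ε / (c1 ε ^ 2 * q) * W) := by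
    have hS10 : 0 ≤ 2 / (c1 ε * q) * W + D := by positivity
    gcongr
  have m2 : 2 * CW ε / (c1 ε * q) * (A0 ε / c1 ε * (2 / (c1 ε * q) * W + D) + 1 / (c1 ε * q) * (8 * A0 ε / c1 ε * W + D) +
        10 * A0 ε / (c1 ε ^ 2 * q) * W) = 40 * CW ε * A0 ε / c1 ε ^ 3 / (q : ℝ) ^ 2 * W +
        2 * CW ε / c1 ε * (A0 ε / c1 ε + 1 / (c1 ε * q)) / q * D := by
    field_simp
    ring
  have m3 : 2 * CW ε / c1 ε * (A0 ε / c1 ε + 1 / (c1 ε * q)) / q ≤ 1 := by
    rw [div_le_one hqpos]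
    refine le_trans ?_ (hMc.trans hqM)
    have hq1' : (1 : ℝ) ≤ q := by linarith
    gcongr
    exact le_mul_of_one_le_right hc1.le hq1'
  have m4 : (CW ε + 1) * (2 * d * irr ε f) ≤ (CW ε + 1) * (2 * D) := by
    have h1 : 2 * d * irr ε f ≤ 2 * D := by
      calc 2 * d * irr ε f ≤ 2 * d * (D / d) := by gcongr
        _ = 2 * D := by field_simp
    exact mul_le_mul_of_nonneg_left h1 (by linarith)
  have m5 : CW ε * irr ε f ≤ CW ε * D := by
    refine mul_le_mul_of_nonneg_left (hirr.trans ?_) hCW.le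
    rw [div_le_iff₀ hdpos]
    have : (1 : ℝ) ≤ d := by linarith
    exact le_mul_of_one_le_right hD0.le this
  have m6 : 2 * CW ε / c1 ε * (A0 ε / c1 ε + 1 / (c1 ε * q)) / q * D ≤ 1 * D :=
    mul_le_mul_of_nonneg_right m3 hD0.le
  have m7 : (3 * CW ε + 4) * D ≤ D * (d : ℝ) ^ 2 := by
    rw [mul_comm]
    refine mul_le_mul_of_nonneg_left ?_ hD0.le
    have h1 : 3 * CW ε + 4 ≤ d := hMd.trans hd
    have h2 : (1 : ℝ) ≤ d := by linarith
    calc 3 * CW ε + 4 ≤ d := h1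
      _ = d * 1 := (mul_one _).symm
      _ ≤ d * d := mul_le_mul_of_nonneg_left h2 hdpos.le
      _ = (d : ℝ) ^ 2 := by ring
  rw [hDK]
  linarith

end Pool.Agent.THR

end

/-! ### from `Lib_MP_2c424f_thr.R9` -/

section

/-!
# THR R9: isotropy for fixed weights (paper proof: R7, R9)

* `iso_even`: weights supported on even plane positions, `σ, σ' ∈ pl i j`: `TF_rule` for `σ` and `σ'`, difference
  `∑ w VF (1/q)(sg(u+σ) - sg(u+σ'))`, times `q` (use `K+1` and `q ≤ 2d ≤ d²`... any loss `q·N/d^(K+2) ≤ N/(4 d^K)`), and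
  `unweight` for `σ` and `σ'`.
* `iso`: for `σ = σ'` trivial.  Otherwise choose `i ≠ j` with `σ, σ' ∈ pl i j` (`d ≥ 2`).  `w = w' + w''` (even and odd plane
  positions); for `w''` translate by `e = sv (i,true)`: `∑_{u ∈ b} w''_u sg f (u+σ) = ∑_{u' ∈ !b} w''(u'+e) sg (f(·+e)) (u'+σ)`, and
  `w''(·+e)` is supported on even plane positions (`WOPi.transl`, `WOPi.comap`, `WOPi.and`).  The weights add up to `Wt b w`.
-/

set_option autoImplicit false

open Finset Filter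

namespace Pool.Agent.THR

open Pool.Agent.LO Pool.Agent.LIN

/-- parameters: class, colours, steps, weight function -/
abbrev Iw (d k q : ℕ) : Type := Bool × (Fin q × Fin q) × (Stp d × Stp d) × (Site d k → ℝ)

private theorem R9_NN_nonneg (d k : ℕ) : 0 ≤ NN d k := by
  unfold NN; positivity

private theorem R9_loss {d q : ℕ} {N : ℝ} (hN : 0 ≤ N) (K : ℕ) (hd : (6 : ℝ) ≤ d) (hq : (q : ℝ) ≤ 2 * d) :
    (2 * (q : ℝ) + 2) * (N / (d : ℝ) ^ (K + 2)) ≤ N / (d : ℝ) ^ K := by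
  have hd0 : (0 : ℝ) < d := by linarith
  have hp : (0 : ℝ) < (d : ℝ) ^ K := pow_pos hd0 _
  have e1 : N / (d : ℝ) ^ (K + 2) = N / (d : ℝ) ^ K * (1 / (d : ℝ) ^ 2) := by
    rw [pow_add]
    field_simp
  rw [e1]
  have h1 : (2 * (q : ℝ) + 2) * (1 / (d : ℝ) ^ 2) ≤ 1 := by
    rw [mul_one_div, div_le_one (by positivity)]
    nlinarith
  have h2 : 0 ≤ N / (d : ℝ) ^ K := div_nonneg hN hp.le
  calc (2 * (q : ℝ) + 2) * (N / (d : ℝ) ^ K * (1 / (d : ℝ) ^ 2))
      = (2 * (q : ℝ) + 2) * (1 / (d : ℝ) ^ 2) * (N / (d : ℝ) ^ K) := by ring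
    _ ≤ 1 * (N / (d : ℝ) ^ K) := mul_le_mul_of_nonneg_right h1 h2
    _ = N / (d : ℝ) ^ K := one_mul _

private theorem R9_split {ε : ℝ} {d k q : ℕ} (hq : 0 < q) (i j : Fin d) (c c' : Fin q) (b : Bool)
    (w : Site d k → ℝ) (σ σ' : Stp d) (f : Site d k → Fin q) :
    ∑ u ∈ cls b d k, w u * (sg c c' f (u + sv σ) - sg c c' f (u + sv σ')) =
      (q : ℝ) * (∑ u ∈ cls b d k, w u * TF ε i j c c' σ f u - ∑ u ∈ cls b d k, w u * TF ε i j c c' σ' f u) -
        (∑ u ∈ cls b d k, w u * ((VF ε i j c c' f u - 1) * sg c c' f (u + sv σ))) +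
        ∑ u ∈ cls b d k, w u * ((VF ε i j c c' f u - 1) * sg c c' f (u + sv σ')) := by
  have hq0 : (q : ℝ) ≠ 0 := by exact_mod_cast hq.ne'
  rw [← sum_sub_distrib, mul_sum, ← sum_sub_distrib, ← sum_add_distrib]
  refine sum_congr rfl fun u _ => ?_
  unfold TF
  field_simp
  ring

theorem iso_even {ε : ℝ} (hε : 0 < ε) (hε1 : ε ≤ 1) : ∃ C₄ : ℝ, 0 < C₄ ∧ ∀ K : ℕ,
    WOPi ε (fun d k q => Ixs d k q × Stp d) fun d k q p f => okx p.1.1 → p.1.2 ∈ pl p.1.1.2.1.1 p.1.1.2.1.2 →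
      p.2 ∈ pl p.1.1.2.1.1 p.1.1.2.1.2 → (∀ x, ¬ pev p.1.1.2.1.1 p.1.1.2.1.2 x → p.1.1.2.2.2 x = 0) →
      |∑ u ∈ cls p.1.1.1 d k, p.1.1.2.2.2 u *
          (sg p.1.1.2.2.1.1 p.1.1.2.2.1.2 f (u + sv p.1.2) - sg p.1.1.2.2.1.1 p.1.1.2.2.1.2 f (u + sv p.2))| ≤
        C₄ / (q : ℝ) ^ 2 * Wt p.1.1.1 p.1.1.2.2.2 + NN d k / (d : ℝ) ^ K := by
  obtain ⟨C₃, hC3, hun⟩ := unweight hε hε1
  have hC2 : 0 < C2 ε := by
    unfold C2 CW c1
    positivity
  refine ⟨2 * C2 ε + 2 * C₃, by positivity, fun K => ?_⟩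
  have t1 := (TF_rule hε hε1 (K + 2)).comap (ι' := fun d k q => Ixs d k q × Stp d) (fun d k q p => (p.1.1, p.1.2))
  have t2 := (TF_rule hε hε1 (K + 2)).comap (ι' := fun d k q => Ixs d k q × Stp d) (fun d k q p => (p.1.1, p.2))
  have t3 := (hun (K + 2)).comap (ι' := fun d k q => Ixs d k q × Stp d) (fun d k q p => (p.1.1, p.1.2))
  have t4 := (hun (K + 2)).comap (ι' := fun d k q => Ixs d k q × Stp d) (fun d k q p => (p.1.1, p.2))
  refine (((t1.and t2).and (t3.and t4))).mono ((EvT_reg hε hε1 6).mono ?_)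
  rintro d k q ⟨hd, hq6, -, -, hq2, -, -, -⟩ p f - ⟨⟨h1, h2⟩, h3, h4⟩ hok hs1 hs2 hw
  have hq0 : (0 : ℝ) < q := by linarith
  have hqn : 0 < q := by exact_mod_cast hq0
  have g1 := h1 hok hs1 hw
  have g2 := h2 hok hs2 hw
  have g3 := h3 hok hs1
  have g4 := h4 hok hs2
  have hd0 : (0 : ℝ) ≤ d := by linarith
  have hq2' : (q : ℝ) ≤ 2 * d := by nlinarith
  have hloss := R9_loss (q := q) (R9_NN_nonneg d k) K hd hq2'
  rw [R9_split (ε := ε) hqn p.1.1.2.1.1 p.1.1.2.1.2]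
  set W := Wt p.1.1.1 p.1.1.2.2.2 with hW
  set E := NN d k / (d : ℝ) ^ (K + 2) with hE
  set a := ∑ u ∈ cls p.1.1.1 d k, p.1.1.2.2.2 u * TF ε p.1.1.2.1.1 p.1.1.2.1.2 p.1.1.2.2.1.1 p.1.1.2.2.1.2 p.1.2 f u
    with ha
  set a' := ∑ u ∈ cls p.1.1.1 d k, p.1.1.2.2.2 u * TF ε p.1.1.2.1.1 p.1.1.2.1.2 p.1.1.2.2.1.1 p.1.1.2.2.1.2 p.2 f u
    with ha'
  set m := ∑ u ∈ cls p.1.1.1 d k, p.1.1.2.2.2 u * ((VF ε p.1.1.2.1.1 p.1.1.2.1.2 p.1.1.2.2.1.1 p.1.1.2.2.1.2 f u - 1) *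
    sg p.1.1.2.2.1.1 p.1.1.2.2.1.2 f (u + sv p.1.2)) with hm
  set m' := ∑ u ∈ cls p.1.1.1 d k, p.1.1.2.2.2 u * ((VF ε p.1.1.2.1.1 p.1.1.2.1.2 p.1.1.2.2.1.1 p.1.1.2.2.1.2 f u - 1) *
    sg p.1.1.2.2.1.1 p.1.1.2.2.1.2 f (u + sv p.2)) with hm'
  have hb1 : |a| ≤ C2 ε / (q : ℝ) ^ 3 * W + E := g1
  have hb2 : |a'| ≤ C2 ε / (q : ℝ) ^ 3 * W + E := g2
  have hb3 : |m| ≤ C₃ / (q : ℝ) ^ 2 * W + E := g3
  have hb4 : |m'| ≤ C₃ / (q : ℝ) ^ 2 * W + E := g4
  have hb5 : |(q : ℝ) * (a - a') - m + m'| ≤ (q : ℝ) * (|a| + |a'|) + |m| + |m'| := by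
    have e1 : |(q : ℝ) * (a - a') - m + m'| ≤ |(q : ℝ) * (a - a') - m| + |m'| := abs_add_le _ _
    have e2 : |(q : ℝ) * (a - a') - m| ≤ |(q : ℝ) * (a - a')| + |m| := abs_sub _ _
    have e3 : |(q : ℝ) * (a - a')| ≤ (q : ℝ) * (|a| + |a'|) := by
      rw [abs_mul, abs_of_pos hq0]
      exact mul_le_mul_of_nonneg_left (abs_sub _ _) hq0.le
    linarith
  have hb6 : (q : ℝ) * (|a| + |a'|) ≤ 2 * C2 ε / (q : ℝ) ^ 2 * W + 2 * q * E := by
    calc (q : ℝ) * (|a| + |a'|) ≤ q * (2 * (C2 ε / (q : ℝ) ^ 3 * W + E)) :=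
          mul_le_mul_of_nonneg_left (by linarith) hq0.le
      _ = _ := by
          field_simp
  have e4 : (2 * C2 ε + 2 * C₃) / (q : ℝ) ^ 2 * W = 2 * C2 ε / (q : ℝ) ^ 2 * W + 2 * (C₃ / (q : ℝ) ^ 2 * W) := by
    ring
  rw [e4]
  have e5 : (2 * (q : ℝ) + 2) * E = 2 * q * E + 2 * E := by ring
  rw [e5] at hloss
  linarith

private theorem R9_val_even {k : ℕ} (hk : 1 ≤ k) (n : ℕ) (a : ZMod (2 ^ k)) :
    Even (a.val + n) ↔ ZMod.castHom (dvd_pow_self 2 (by omega : k ≠ 0)) (ZMod 2) a + (n : ZMod 2) = 0 := by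
  rw [← ZMod.natCast_eq_zero_iff_even]
  have h := map_natCast (ZMod.castHom (dvd_pow_self 2 (by omega : k ≠ 0)) (ZMod 2)) a.val
  rw [ZMod.natCast_zmod_val] at h
  rw [h]
  push_cast
  rfl

private theorem R9_pev {d k : ℕ} (hk : 1 ≤ k) {i j : Fin d} (hij : i ≠ j) (x : Site d k) (hx : ¬ pev i j x) :
    pev i j (x + sv (i, true)) := by
  unfold pev at hx ⊢
  have hi : (x + sv (i, true) : Site d k) i = x i + 1 := by
    simp [sv]
  have hj : (x + sv (i, true) : Site d k) j = x j := by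
    simp only [sv, Pi.add_apply]
    rw [Pi.single_eq_of_ne hij.symm, add_zero]
  rw [hi, hj, R9_val_even hk, map_add, map_one]
  rw [R9_val_even hk] at hx
  generalize ZMod.castHom (dvd_pow_self 2 (by omega : k ≠ 0)) (ZMod 2) (x i) = a at hx ⊢
  generalize ((x j).val : ZMod 2) = b at hx ⊢
  revert a b
  decide

open scoped Classical in
private noncomputable def R9_oth {d : ℕ} (i : Fin d) : Fin d := if h : ∃ j, j ≠ i then h.choose else i

private theorem R9_oth_ne {d : ℕ} (hd : 2 ≤ d) (i : Fin d) : R9_oth i ≠ i := by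
  have h : ∃ j, j ≠ i := by
    by_cases h0 : i = ⟨0, by omega⟩
    · refine ⟨⟨1, by omega⟩, ?_⟩
      rw [h0]
      intro h1
      have := congrArg Fin.val h1
      simp at this
    · exact ⟨⟨0, by omega⟩, fun h1 => h0 h1.symm⟩
  unfold R9_oth
  rw [dif_pos h]
  exact h.choose_spec

/-- second direction -/
private noncomputable def R9_jj {d : ℕ} (σ σ' : Stp d) : Fin d := if σ'.1 = σ.1 then R9_oth σ.1 else σ'.1

private theorem R9_jj_ne {d : ℕ} (hd : 2 ≤ d) (σ σ' : Stp d) : σ.1 ≠ R9_jj σ σ' := by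
  unfold R9_jj
  split_ifs with h
  · exact (R9_oth_ne hd σ.1).symm
  · exact fun h1 => h h1.symm

private theorem R9_mem1 {d : ℕ} (σ σ' : Stp d) : σ ∈ pl σ.1 (R9_jj σ σ') := by
  unfold pl
  rw [mem_filter]
  exact ⟨mem_univ _, Or.inl rfl⟩

private theorem R9_mem2 {d : ℕ} (σ σ' : Stp d) : σ' ∈ pl σ.1 (R9_jj σ σ') := by
  unfold pl
  rw [mem_filter]
  refine ⟨mem_univ _, ?_⟩
  unfold R9_jj
  split_ifs with h
  · exact Or.inl h
  · exact Or.inr rfl

open scoped Classical in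
/-- weights on even plane positions -/
private noncomputable def R9_w1 {d k : ℕ} (i j : Fin d) (w : Site d k → ℝ) (x : Site d k) : ℝ :=
  if pev i j x then w x else 0

open scoped Classical in
/-- weights on odd plane positions, translated -/
private noncomputable def R9_w2 {d k : ℕ} (i j : Fin d) (w : Site d k → ℝ) (x : Site d k) : ℝ :=
  if pev i j (x + sv (i, true)) then 0 else w (x + sv (i, true))

private theorem R9_sum_shift {d k : ℕ} (hk : 1 ≤ k) (b : Bool) (i : Fin d) (F : Site d k → ℝ) :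
    ∑ u ∈ cls (!b) d k, F (u + sv (i, true)) = ∑ u ∈ cls b d k, F u := by
  classical
  refine Finset.sum_bij' (fun v _ => v + sv (i, true)) (fun v _ => v + sv (i, false)) ?_ ?_ ?_ ?_ ?_
  · intro v hv
    rw [mem_cls_step hk]
    exact hv
  · intro v hv
    rw [mem_cls_step hk, Bool.not_not]
    exact hv
  · intro v _
    have h := sv_opp (k := k) i true
    simp only [Bool.not_true] at h
    rw [add_assoc, h, add_zero]
  · intro v _
    have h := sv_opp (k := k) i false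
    simp only [Bool.not_false] at h
    rw [add_assoc, h, add_zero]
  · intro v _
    rfl

/-- isotropy of the colour densities, fixed weights -/
theorem iso {ε : ℝ} (hε : 0 < ε) (hε1 : ε ≤ 1) : ∃ C₄ : ℝ, 0 < C₄ ∧ ∀ K : ℕ,
    WOPi ε Iw fun d k q p f => p.2.1.1 ≠ p.2.1.2 → (∀ x, |p.2.2.2 x| ≤ 1) →
      ∑ u ∈ cls p.1 d k, p.2.2.2 u *
          (sg p.2.1.1 p.2.1.2 f (u + sv p.2.2.1.1) - sg p.2.1.1 p.2.1.2 f (u + sv p.2.2.1.2)) ≤
        C₄ / (q : ℝ) ^ 2 * Wt p.1 p.2.2.2 + NN d k / (d : ℝ) ^ K := by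
  classical
  obtain ⟨C₄, hC4, hev⟩ := iso_even hε hε1
  refine ⟨C₄, hC4, fun K => ?_⟩
  have t1 := (hev (K + 1)).comap (ι' := Iw) (fun d k q p =>
    (((p.1, (p.2.2.1.1.1, R9_jj p.2.2.1.1 p.2.2.1.2), p.2.1,
      R9_w1 p.2.2.1.1.1 (R9_jj p.2.2.1.1 p.2.2.1.2) p.2.2.2), p.2.2.1.1), p.2.2.1.2))
  have t2 := ((hev (K + 1)).comap (ι' := Iw) (fun d k q p =>
    ((((!p.1), (p.2.2.1.1.1, R9_jj p.2.2.1.1 p.2.2.1.2), p.2.1,
      R9_w2 p.2.2.1.1.1 (R9_jj p.2.2.1.1 p.2.2.1.2) p.2.2.2), p.2.2.1.1), p.2.2.1.2))).transl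
      (fun d k q p => sv (p.2.2.1.1.1, true))
  refine (t1.and t2).mono ((EvT_reg hε hε1 2).mono ?_)
  rintro d k q ⟨hd, -, hk2, -, -, -, -, -⟩ ⟨b, ⟨c, c'⟩, ⟨σ, σ'⟩, w⟩ f - ⟨h1, h2⟩ hcc hw
  simp only at h1 h2 hcc hw ⊢
  have hd2 : 2 ≤ d := by exact_mod_cast hd
  have hk1 : 1 ≤ k := by
    have : (1 : ℝ) ≤ k := by linarith
    exact_mod_cast this
  set i := σ.1 with hi
  set j := R9_jj σ σ' with hj
  have hij : i ≠ j := R9_jj_ne hd2 σ σ'
  have hw1 : ∀ x, |R9_w1 i j w x| ≤ 1 := by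
    intro x
    unfold R9_w1
    split_ifs
    · exact hw x
    · simp
  have hw2 : ∀ x, |R9_w2 i j w x| ≤ 1 := by
    intro x
    unfold R9_w2
    split_ifs
    · simp
    · exact hw _
  have g1 := h1 ⟨hij, hcc, hw1⟩ (R9_mem1 σ σ') (R9_mem2 σ σ') (fun x hx => by
    unfold R9_w1
    exact if_neg hx)
  have g2 := h2 ⟨hij, hcc, hw2⟩ (R9_mem1 σ σ') (R9_mem2 σ σ') (fun x hx => by
    unfold R9_w2
    exact if_pos (R9_pev hk1 hij x hx))
  -- the two sums
  have e1 : ∑ u ∈ cls b d k, w u * (sg c c' f (u + sv σ) - sg c c' f (u + sv σ')) =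
      ∑ u ∈ cls b d k, R9_w1 i j w u * (sg c c' f (u + sv σ) - sg c c' f (u + sv σ')) +
      ∑ u ∈ cls (!b) d k, R9_w2 i j w u * (sg c c' (fun x => f (x + sv (i, true))) (u + sv σ) -
        sg c c' (fun x => f (x + sv (i, true))) (u + sv σ')) := by
    have e2 : ∑ u ∈ cls (!b) d k, R9_w2 i j w u * (sg c c' (fun x => f (x + sv (i, true))) (u + sv σ) -
        sg c c' (fun x => f (x + sv (i, true))) (u + sv σ')) =
        ∑ u ∈ cls b d k, (if pev i j u then 0 else w u) * (sg c c' f (u + sv σ) - sg c c' f (u + sv σ')) := by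
      rw [← R9_sum_shift hk1 b i (fun u => (if pev i j u then 0 else w u) *
        (sg c c' f (u + sv σ) - sg c c' f (u + sv σ')))]
      refine sum_congr rfl fun u _ => ?_
      unfold R9_w2 sg
      have e3 : ∀ τ : Stp d, u + sv τ + sv (i, true) = u + sv (i, true) + sv τ := fun τ => by abel
      simp only [e3]
    rw [e2, ← sum_add_distrib]
    refine sum_congr rfl fun u _ => ?_
    unfold R9_w1
    split_ifs <;> ring
  have e4 : Wt b w = Wt b (R9_w1 i j w) + Wt (!b) (R9_w2 i j w) := by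
    unfold Wt
    have e5 : ∑ u ∈ cls (!b) d k, |R9_w2 i j w u| = ∑ u ∈ cls b d k, |if pev i j u then 0 else w u| := by
      rw [← R9_sum_shift hk1 b i (fun u => |if pev i j u then 0 else w u|)]
      rfl
    rw [e5, ← sum_add_distrib]
    refine sum_congr rfl fun u _ => ?_
    unfold R9_w1
    split_ifs <;> simp
  have hd0 : (0 : ℝ) < d := by linarith
  have e6 : NN d k / (d : ℝ) ^ (K + 1) ≤ NN d k / (d : ℝ) ^ K / 2 := by
    rw [pow_succ, ← div_div]
    exact div_le_div_of_nonneg_left (div_nonneg (R9_NN_nonneg d k) (by positivity)) (by norm_num) hd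
  have g1' := (le_abs_self _).trans g1
  have g2' := (le_abs_self _).trans g2
  rw [e1, e4, mul_add]
  linarith

end Pool.Agent.THR

end

/-! ### from `Lib_MP_2c424f_thr.N3` -/

section

/-!
# THR N3: adapted weights (paper proof: N1, N2)

`K = 4`, `C` the exponent of `iso` for `K = 5` (say), `K₂ = C + 3`, `B = d^K₂`, `s = K₂ + 20`, `t = 2s`.
Net: functions `η : Site → Fin 3` (values `-1,0,1`) with at most `2N/B` nonzero values; their number is
`≤ x^(-2N/B) (1+2x)^N`, `x = 1/B`, i.e. `≤ exp ((2N/B) log B + 2N/B) ≤ exp (N/d^(C+2))`, so `Rar_union` (index type = the subtype of the net times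
the finite parameters `Bool, Fin q, Fin q, Stp d, Stp d`) gives: off a rare event `iso` holds for all weights
`w = clip (B PP^t η)` (clipping to `[-1,1]`).
For `φ` with values in `{-1,0,1}` supported in the class `b`: `R` from `net_exists` (`Kt_sup`), `η = 1_R φ`; `|w - PP^t φ| ≤ |B PP^t η - PP^t φ|`
since `|PP^t φ| ≤ 1`; `∑_x φ_x D_x = ∑_u (PP^t φ)_u (sg (u+σ) - sg (u+σ'))` (`PPt_adj`, `PPt_transl`), and `PP^t φ` vanishes off the class `b`.
The errors: `(2 + C₄/q²)·2N √(B κ) ≤ N/(2 d^4)` since `B κ ≤ d^K₂ (8s)^(2s)/(2d)^s`.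
-/

set_option autoImplicit false

open Finset Filter

namespace Pool.Agent.THR

open Pool.Agent.LO Pool.Agent.LIN

/-- clipping to `[-1,1]` -/
private noncomputable def N3_clip (x : ℝ) : ℝ := max (-1) (min 1 x)

private theorem N3_clip_abs (x : ℝ) : |N3_clip x| ≤ 1 := by
  unfold N3_clip
  rw [abs_le]
  exact ⟨le_max_left _ _, max_le (by norm_num) (min_le_left _ _)⟩

private theorem N3_clip_sub (x y : ℝ) (hy : |y| ≤ 1) : |N3_clip x - y| ≤ |x - y| := by
  unfold N3_clip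
  obtain ⟨h1, h2⟩ := abs_le.1 hy
  rcases le_total x 1 with hx | hx
  · rw [min_eq_right hx]
    rcases le_total (-1) x with h3 | h3
    · rw [max_eq_right h3]
    · rw [max_eq_left h3, abs_of_nonpos (by linarith), abs_of_nonpos (by linarith)]
      linarith
  · rw [min_eq_left hx, max_eq_right (by norm_num), abs_of_nonneg (by linarith),
      abs_of_nonneg (by linarith)]
    linarith

/-- value of a code -/
private noncomputable def N3_val (a : Fin 3) : ℝ :=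
  if a.val = 0 then 0 else if a.val = 1 then 1 else -1

/-- code of a value -/
private noncomputable def N3_code (x : ℝ) : Fin 3 := by
  classical exact if x = 0 then 0 else if x = 1 then 1 else 2

private theorem N3_val_code (x : ℝ) (h : x = 0 ∨ x = 1 ∨ x = -1) : N3_val (N3_code x) = x := by
  unfold N3_val N3_code
  rcases h with h | h | h
  · subst h; simp
  · subst h; simp
  · subst h; norm_num

private theorem N3_code_zero : N3_code 0 = 0 := by
  unfold N3_code; simp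

/-- the weight of a code function -/
private noncomputable def N3_w {d k : ℕ} (t B : ℕ) (η : Site d k → Fin 3) (u : Site d k) : ℝ :=
  N3_clip (B * PP^[t] (fun x => N3_val (η x)) u)

private theorem N3_sg_abs {d k q : ℕ} (c c' : Fin q) (f : Site d k → Fin q) (v : Site d k) :
    |sg c c' f v| ≤ 1 := by
  unfold sg
  split_ifs <;> norm_num

open scoped Classical in
private theorem N3_det {d k q : ℕ} (hd : 1 ≤ d) (hk : 1 ≤ k) (t B : ℕ) (ht : Even t) (hB : 1 ≤ B)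
    (κ : ℝ) (hκ0 : 0 < κ) (hκ : ∀ u y : Site d k, Kt t u y ≤ κ) (C₄ e : ℝ) (hC₄ : 0 ≤ C₄)
    (he : 0 ≤ e) (f : Site d k → Fin q)
    (H : ∀ (η : Site d k → Fin 3),
      (((univ.filter fun x => (η x).val ≠ 0).card : ℝ) ≤ 2 * NN d k / B) →
      ∀ (b : Bool) (c c' : Fin q) (σ τ : Stp d), c ≠ c' →
       ∑ u ∈ cls b d k, N3_w t B η u * (sg c c' f (u + sv σ) - sg c c' f (u + sv τ)) ≤
        C₄ / (q : ℝ) ^ 2 * Wt b (N3_w t B η) + e)
    (b : Bool) (c c' : Fin q) (σ τ : Stp d) (φ : Site d k → ℝ)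
    (hφ : ∀ x, φ x = 0 ∨ φ x = 1 ∨ φ x = -1) (hφb : ∀ x, x ∉ cls b d k → φ x = 0) :
    ∑ x, φ x * (PP^[t] (sg c c' f) (x + sv σ) - PP^[t] (sg c c' f) (x + sv τ)) ≤
      C₄ / (q : ℝ) ^ 2 * ∑ x, |φ x| +
        ((C₄ / (q : ℝ) ^ 2 + 2) * (2 * NN d k * Real.sqrt (B * κ)) + e) := by
  have hNN : 0 ≤ NN d k := by unfold NN; positivity
  by_cases hcc : c = c'
  · have h0 : sg c c' f = fun _ => (0 : ℝ) := by
      funext v
      unfold sg
      rw [hcc]; ring
    have h1 : ∀ x, PP^[t] (sg c c' f) x = 0 := fun x => by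
      rw [h0]; exact PPt_const hd t 0 x
    have h2 : ∑ x, φ x * (PP^[t] (sg c c' f) (x + sv σ) - PP^[t] (sg c c' f) (x + sv τ)) = 0 := by
      refine Finset.sum_eq_zero fun x _ => ?_
      rw [h1, h1]; ring
    rw [h2]
    have : 0 ≤ ∑ x, |φ x| := Finset.sum_nonneg fun x _ => abs_nonneg _
    positivity
  have hφ1 : ∀ x, |φ x| ≤ 1 := fun x => by
    rcases hφ x with h | h | h <;> rw [h] <;> norm_num
  obtain ⟨R, hR1, hR2⟩ := net_exists hd t B hB κ hκ0 hκ φ hφ1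
  set E0 : ℝ := 2 * NN d k * Real.sqrt (B * κ) with hE0
  -- the code
  set η : Site d k → Fin 3 := fun x => if x ∈ R then N3_code (φ x) else 0 with hη
  have hval : (fun x => N3_val (η x)) = fun x => if x ∈ R then φ x else 0 := by
    funext x
    simp only [hη]
    by_cases hx : x ∈ R
    · simp only [hx, if_true]; exact N3_val_code _ (hφ x)
    · simp only [hx, if_false]; simp [N3_val]
  have hsupp : (((univ.filter fun x => (η x).val ≠ 0).card : ℝ) ≤ 2 * NN d k / B) := by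
    refine le_trans ?_ hR1
    have : (univ.filter fun x => (η x).val ≠ 0) ⊆ R := by
      intro x hx
      by_contra h
      simp [hη, h] at hx
    exact_mod_cast Finset.card_le_card this
  have hH := H η hsupp b c c' σ τ hcc
  -- abbreviations
  set w := N3_w t B η with hw
  set P : Site d k → ℝ := PP^[t] φ with hP
  have hPabs : ∀ u, |P u| ≤ 1 := fun u => by
    refine (PPt_abs t φ u).trans ?_
    refine (PPt_mono t hφ1 u).trans ?_
    rw [PPt_const hd]
  have hwP : ∑ u, |w u - P u| ≤ E0 := by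
    refine le_trans (Finset.sum_le_sum fun u _ => ?_) hR2
    rw [hw]
    unfold N3_w
    rw [hval]
    exact N3_clip_sub _ _ (hPabs u)
  -- the sum
  have hs1 : ∀ ρ : Stp d, ∑ x, φ x * PP^[t] (sg c c' f) (x + sv ρ) =
      ∑ u, P u * sg c c' f (u + sv ρ) := by
    intro ρ
    rw [hP, PPt_adj t φ (fun u => sg c c' f (u + sv ρ))]
    refine Finset.sum_congr rfl fun x _ => ?_
    rw [PPt_transl]
  have hPoff : ∀ u, u ∉ cls b d k → P u = 0 := by
    intro u hu
    rw [hP, Kt_repr]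
    refine Finset.sum_eq_zero fun y _ => ?_
    by_cases hy : y ∈ cls b d k
    · rw [Kt_cls hk t ht (!b) u y ((cls_not b u).2 hu) (by rw [Bool.not_not]; exact hy), zero_mul]
    · rw [hφb y hy, mul_zero]
  have hsum : ∑ x, φ x * (PP^[t] (sg c c' f) (x + sv σ) - PP^[t] (sg c c' f) (x + sv τ)) =
      ∑ u ∈ cls b d k, P u * (sg c c' f (u + sv σ) - sg c c' f (u + sv τ)) := by
    simp only [mul_sub, Finset.sum_sub_distrib]
    rw [hs1, hs1]
    congr 1
    · symm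
      refine Finset.sum_subset (Finset.subset_univ _) fun u _ hu => ?_
      rw [hPoff u hu, zero_mul]
    · symm
      refine Finset.sum_subset (Finset.subset_univ _) fun u _ hu => ?_
      rw [hPoff u hu, zero_mul]
  have hsplit : ∑ u ∈ cls b d k, P u * (sg c c' f (u + sv σ) - sg c c' f (u + sv τ)) ≤
      ∑ u ∈ cls b d k, w u * (sg c c' f (u + sv σ) - sg c c' f (u + sv τ)) + 2 * E0 := by
    have h1 : ∑ u ∈ cls b d k, P u * (sg c c' f (u + sv σ) - sg c c' f (u + sv τ)) ≤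
        ∑ u ∈ cls b d k, (w u * (sg c c' f (u + sv σ) - sg c c' f (u + sv τ)) +
          2 * |w u - P u|) := by
      refine Finset.sum_le_sum fun u _ => ?_
      have h2 : |sg c c' f (u + sv σ) - sg c c' f (u + sv τ)| ≤ 2 := by
        have a1 := N3_sg_abs c c' f (u + sv σ)
        have a2 := N3_sg_abs c c' f (u + sv τ)
        have := abs_sub (sg c c' f (u + sv σ)) (sg c c' f (u + sv τ))
        linarith
      have h3 : (P u - w u) * (sg c c' f (u + sv σ) - sg c c' f (u + sv τ)) ≤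
          |w u - P u| * 2 := by
        refine (le_abs_self _).trans ?_
        rw [abs_mul, abs_sub_comm]
        exact mul_le_mul_of_nonneg_left h2 (abs_nonneg _)
      linarith
    refine h1.trans ?_
    rw [Finset.sum_add_distrib, ← Finset.mul_sum]
    have h4 : ∑ u ∈ cls b d k, |w u - P u| ≤ ∑ u, |w u - P u| :=
      Finset.sum_le_sum_of_subset_of_nonneg (Finset.subset_univ _) fun _ _ _ => abs_nonneg _
    linarith
  have hWt : Wt b w ≤ ∑ x, |φ x| + E0 := by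
    unfold Wt
    calc ∑ u ∈ cls b d k, |w u| ≤ ∑ u, |w u| :=
          Finset.sum_le_sum_of_subset_of_nonneg (Finset.subset_univ _) fun _ _ _ => abs_nonneg _
      _ ≤ ∑ u, (PP^[t] (fun y => |φ y|) u + |w u - P u|) := by
          refine Finset.sum_le_sum fun u _ => ?_
          have h1 := PPt_abs t φ u
          have h2 : |w u| ≤ |P u| + |w u - P u| := by
            have := abs_add_le (P u) (w u - P u)
            rwa [add_sub_cancel] at this
          have h3 : |P u| ≤ PP^[t] (fun y => |φ y|) u := h1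
          linarith
      _ = ∑ u, PP^[t] (fun y => |φ y|) u + ∑ u, |w u - P u| := Finset.sum_add_distrib
      _ ≤ _ := by
          rw [PPt_total hd]
          linarith
  have hq : 0 ≤ C₄ / (q : ℝ) ^ 2 := by positivity
  rw [hsum]
  have := mul_le_mul_of_nonneg_left hWt hq
  have hE0' : 0 ≤ E0 := by positivity
  nlinarith

open scoped Classical in
/-- index type of the union -/
private abbrev N3_ix (d k q B : ℕ) : Type :=
  {η : Site d k → Fin 3 // (((univ.filter fun x => (η x).val ≠ 0).card : ℝ) ≤ 2 * NN d k / B)} ×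
    (Bool × (Fin q × Fin q) × (Stp d × Stp d))

open scoped Classical in
private noncomputable instance N3_fin (d k q B : ℕ) : Fintype (N3_ix d k q B) := inferInstance

private theorem N3_log {d k q B : ℕ} (hd : 1 ≤ d) (hq : 1 ≤ q) (hB : 1 ≤ B) :
    Real.log (Fintype.card (N3_ix d k q B)) ≤
      NN d k * (2 * Real.log B + 2) / B + Real.log (8 * (q : ℝ) ^ 2 * (d : ℝ) ^ 2) := by
  classical
  have hNN : 0 ≤ NN d k := by unfold NN; positivity
  have hd0 : (0 : ℝ) < d := by exact_mod_cast hd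
  have hq0 : (0 : ℝ) < q := by exact_mod_cast hq
  have h1 := net_card (d := d) (k := k) B hB
  set A : ℕ := ((univ : Finset (Site d k → Fin 3)).filter fun η =>
      ((univ.filter fun x => (η x).val ≠ 0).card : ℝ) ≤ 2 * NN d k / B).card with hA
  have hcard : Fintype.card (N3_ix d k q B) = A * (2 * ((q * q) * ((d * 2) * (d * 2)))) := by
    rw [Fintype.card_prod, Fintype.card_prod, Fintype.card_prod, Fintype.card_prod,
      Fintype.card_prod, Fintype.card_prod, Fintype.card_fin, Fintype.card_fin, Fintype.card_bool,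
      Fintype.card_subtype]
  have hA1 : 1 ≤ A := by
    rw [hA, Nat.one_le_iff_ne_zero, Finset.card_ne_zero]
    refine ⟨fun _ => 0, ?_⟩
    simp only [Finset.mem_filter, Finset.mem_univ, true_and]
    have : (univ.filter fun x : Site d k => ((0 : Fin 3) : Fin 3).val ≠ 0) = ∅ := by
      ext x; simp
    rw [this]
    simp only [Finset.card_empty, Nat.cast_zero]
    positivity
  have hA0 : (0 : ℝ) < A := by exact_mod_cast hA1
  have hp : (0 : ℝ) < 8 * (q : ℝ) ^ 2 * (d : ℝ) ^ 2 := by positivity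
  have e : ((Fintype.card (N3_ix d k q B) : ℕ) : ℝ) = A * (8 * (q : ℝ) ^ 2 * (d : ℝ) ^ 2) := by
    rw [hcard]; push_cast; ring
  rw [e, Real.log_mul hA0.ne' hp.ne']
  have h2 : Real.log A ≤ NN d k * (2 * Real.log B + 2) / B := by
    rw [Real.log_le_iff_le_exp hA0]
    exact h1
  linarith

/-- the numbers -/
private theorem N3_num (C₄ : ℝ) (hC₄ : 0 < C₄) (K₂ s d q : ℕ) (NNr : ℝ) (hN : 0 ≤ NNr)
    (hs : s = K₂ + 20) (hd : 1 ≤ d) (hq : 1 ≤ q)
    (hM : (C₄ + 2) * 2 * (8 * (s : ℝ)) ^ s ≤ d) :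
    (C₄ / (q : ℝ) ^ 2 + 2) * (2 * NNr * Real.sqrt (((d ^ K₂ : ℕ) : ℝ) *
      ((8 * (s : ℝ)) ^ (2 * s) / (2 * (d : ℝ)) ^ s))) + NNr / (d : ℝ) ^ 5 ≤
      2 * NNr / (d : ℝ) ^ 4 := by
  have hd1 : (1 : ℝ) ≤ d := by exact_mod_cast hd
  have hd0 : (0 : ℝ) < d := by linarith
  have hq1 : (1 : ℝ) ≤ q := by exact_mod_cast hq
  have hs0 : (0 : ℝ) ≤ s := Nat.cast_nonneg _
  have h1 : Real.sqrt (((d ^ K₂ : ℕ) : ℝ) * ((8 * (s : ℝ)) ^ (2 * s) / (2 * (d : ℝ)) ^ s)) ≤
      (8 * (s : ℝ)) ^ s / (d : ℝ) ^ 10 := by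
    rw [show (8 * (s : ℝ)) ^ s / (d : ℝ) ^ 10 = Real.sqrt (((8 * (s : ℝ)) ^ s / (d : ℝ) ^ 10) ^ 2)
      from (Real.sqrt_sq (by positivity)).symm]
    apply Real.sqrt_le_sqrt
    have e1 : (2 * (d : ℝ)) ^ s = 2 ^ s * ((d : ℝ) ^ K₂ * (d : ℝ) ^ 20) := by
      rw [mul_pow, hs, pow_add (d : ℝ)]
    have e2 : (((8 * (s : ℝ)) ^ s / (d : ℝ) ^ 10) ^ 2) = (8 * (s : ℝ)) ^ (2 * s) / (d : ℝ) ^ 20 := by
      rw [div_pow, ← pow_mul, ← pow_mul, mul_comm s 2]
    rw [e1, e2]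
    push_cast
    have h2 : (1 : ℝ) ≤ 2 ^ s := one_le_pow₀ (by norm_num)
    have e3 : (d : ℝ) ^ K₂ * ((8 * (s : ℝ)) ^ (2 * s) / (2 ^ s * ((d : ℝ) ^ K₂ * (d : ℝ) ^ 20))) =
        ((8 * (s : ℝ)) ^ (2 * s) / (d : ℝ) ^ 20) / 2 ^ s := by
      field_simp
    rw [e3]
    exact div_le_self (by positivity) h2
  have h3 : C₄ / (q : ℝ) ^ 2 ≤ C₄ := div_le_self hC₄.le (one_le_pow₀ hq1)
  have h4 : (C₄ / (q : ℝ) ^ 2 + 2) * (2 * NNr * Real.sqrt (((d ^ K₂ : ℕ) : ℝ) *
      ((8 * (s : ℝ)) ^ (2 * s) / (2 * (d : ℝ)) ^ s))) ≤ NNr / (d : ℝ) ^ 5 := by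
    calc (C₄ / (q : ℝ) ^ 2 + 2) * (2 * NNr * Real.sqrt (((d ^ K₂ : ℕ) : ℝ) *
      ((8 * (s : ℝ)) ^ (2 * s) / (2 * (d : ℝ)) ^ s)))
        ≤ (C₄ + 2) * (2 * NNr * ((8 * (s : ℝ)) ^ s / (d : ℝ) ^ 10)) := by
          gcongr
      _ = NNr * ((C₄ + 2) * 2 * (8 * (s : ℝ)) ^ s) / (d : ℝ) ^ 10 := by ring
      _ ≤ NNr * (d : ℝ) / (d : ℝ) ^ 10 := by gcongr
      _ = NNr / (d : ℝ) ^ 9 := by field_simp
      _ ≤ NNr / (d : ℝ) ^ 5 := by
          apply div_le_div_of_nonneg_left hN (by positivity)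
          exact pow_le_pow_right₀ hd1 (by norm_num)
  have h5 : NNr / (d : ℝ) ^ 5 ≤ NNr / (d : ℝ) ^ 4 := by
    apply div_le_div_of_nonneg_left hN (by positivity)
    exact pow_le_pow_right₀ hd1 (by norm_num)
  have h6 : 2 * NNr / (d : ℝ) ^ 4 = NNr / (d : ℝ) ^ 4 + NNr / (d : ℝ) ^ 4 := by ring
  rw [h6]
  linarith

theorem iso_adapt {ε : ℝ} (hε : 0 < ε) (hε1 : ε ≤ 1) : ∃ (t : ℕ) (C₄ : ℝ), Even t ∧ 20 ≤ t ∧ 0 < C₄ ∧
    WOP ε fun d k q f => ∀ (b : Bool) (c c' : Fin q) (σ τ : Stp d) (φ : Site d k → ℝ),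
      (∀ x, φ x = 0 ∨ φ x = 1 ∨ φ x = -1) → (∀ x, x ∉ cls b d k → φ x = 0) →
      ∑ x, φ x * (PP^[t] (sg c c' f) (x + sv σ) - PP^[t] (sg c c' f) (x + sv τ)) ≤
        C₄ / (q : ℝ) ^ 2 * ∑ x, |φ x| + 2 * NN d k / (d : ℝ) ^ 4 := by
  obtain ⟨C₄, hC₄, hiso⟩ := iso hε hε1
  obtain ⟨C, hC⟩ := hiso 5
  obtain ⟨K₂, hK₂⟩ : ∃ K₂ : ℕ, K₂ = C + 3 := ⟨_, rfl⟩
  obtain ⟨s, hs⟩ : ∃ s : ℕ, s = K₂ + 20 := ⟨_, rfl⟩
  refine ⟨2 * s, C₄, even_two_mul s, by omega, hC₄, C + 1, ?_⟩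
  have hreg := EvT_reg hε hε1 (2 + (4 * (K₂ : ℝ) + 4) + (C₄ + 2) * 2 * (8 * (s : ℝ)) ^ s)
  have hNNl := EvT_NN (ε := ε) fun d q =>
    2 * ((d : ℝ) ^ (C + 1) * Real.log (8 * (q : ℝ) ^ 2 * (d : ℝ) ^ 2))
  have hpow := EvT_pow (ε := ε) fun _ _ => (2 * (s : ℝ) + 1)
  refine EvT.mono (((hC.and hreg).and hNNl).and hpow) fun d k q h => ?_
  obtain ⟨⟨⟨hR, hMd, hMq, hMk, -⟩, hNl⟩, hk2⟩ := h
  have hX : 0 ≤ (C₄ + 2) * 2 * (8 * (s : ℝ)) ^ s := by positivity
  have hK0 : (0 : ℝ) ≤ K₂ := Nat.cast_nonneg _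
  have hd2 : 2 ≤ d := by
    have : (2 : ℝ) ≤ d := by linarith
    exact_mod_cast this
  have hd1 : 1 ≤ d := by omega
  have hq1 : 1 ≤ q := by
    have : (1 : ℝ) ≤ q := by linarith
    exact_mod_cast this
  have hk1 : 1 ≤ k := by
    have : (1 : ℝ) ≤ k := by linarith
    exact_mod_cast this
  have hd0 : (0 : ℝ) < d := by exact_mod_cast (show 0 < d by omega)
  have hdr : (1 : ℝ) ≤ d := by exact_mod_cast hd1
  have hNN : 0 ≤ NN d k := by unfold NN; positivity
  obtain ⟨B, hB⟩ : ∃ B : ℕ, B = d ^ K₂ := ⟨_, rfl⟩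
  have hB1 : 1 ≤ B := by rw [hB]; exact Nat.one_le_pow _ _ (by omega)
  have hs1 : 1 ≤ s := by omega
  have hs0 : (0 : ℝ) < s := by exact_mod_cast (show 0 < s by omega)
  -- union
  have hlog : (d : ℝ) ^ (C + 1) * Real.log (Fintype.card (N3_ix d k q B)) ≤ NN d k := by
    have h1 := N3_log (k := k) hd1 hq1 hB1
    have h2 : Real.log B = K₂ * Real.log d := by
      rw [hB]; push_cast; rw [Real.log_pow]
    have h3 : Real.log d ≤ d := by
      have := Real.log_le_sub_one_of_pos hd0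
      linarith
    have hBr : (B : ℝ) = (d : ℝ) ^ (C + 1) * (d : ℝ) ^ 2 := by
      rw [hB, hK₂]; push_cast; rw [← pow_add]
    have h4 : (d : ℝ) ^ (C + 1) * (NN d k * (2 * Real.log B + 2) / B) =
        NN d k * ((2 * Real.log B + 2) / (d : ℝ) ^ 2) := by
      rw [hBr]; field_simp
    have h5 : (2 * Real.log B + 2) / (d : ℝ) ^ 2 ≤ 1 / 2 := by
      rw [div_le_iff₀ (by positivity), h2]
      nlinarith
    calc (d : ℝ) ^ (C + 1) * Real.log (Fintype.card (N3_ix d k q B))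
        ≤ (d : ℝ) ^ (C + 1) * (NN d k * (2 * Real.log B + 2) / B +
          Real.log (8 * (q : ℝ) ^ 2 * (d : ℝ) ^ 2)) :=
          mul_le_mul_of_nonneg_left h1 (by positivity)
      _ = NN d k * ((2 * Real.log B + 2) / (d : ℝ) ^ 2) +
          (d : ℝ) ^ (C + 1) * Real.log (8 * (q : ℝ) ^ 2 * (d : ℝ) ^ 2) := by
          rw [mul_add, h4]
      _ ≤ NN d k * (1 / 2) + NN d k / 2 := by
          have := mul_le_mul_of_nonneg_left h5 hNN
          linarith
      _ = NN d k := by ring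
  have hU := Rar_union (ι := N3_ix d k q B) hd2
    (P := fun i f => ¬ (i.2.2.1.1 ≠ i.2.2.1.2 →
      (∀ x, |N3_w (2 * s) B i.1.1 x| ≤ 1) →
      ∑ u ∈ cls i.2.1 d k, N3_w (2 * s) B i.1.1 u *
          (sg i.2.2.1.1 i.2.2.1.2 f (u + sv i.2.2.2.1) -
            sg i.2.2.1.1 i.2.2.1.2 f (u + sv i.2.2.2.2)) ≤
        C₄ / (q : ℝ) ^ 2 * Wt i.2.1 (N3_w (2 * s) B i.1.1) + NN d k / (d : ℝ) ^ 5))
    (fun i => hR (i.2.1, i.2.2.1, i.2.2.2, N3_w (2 * s) B i.1.1)) hlog
  refine hU.mono fun f _ hf => ?_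
  by_contra hno
  push Not at hno
  apply hf
  have hkap : 0 < (8 * (s : ℝ)) ^ (2 * s) / (2 * (d : ℝ)) ^ s := by positivity
  have hkk : 2 * s < 2 ^ k := by
    have : (2 * (s : ℝ) + 1) ≤ 2 ^ k := hk2
    have h2 : 2 * s + 1 ≤ 2 ^ k := by exact_mod_cast this
    omega
  intro b c c' σ τ φ hφ hφb
  have hdet := N3_det hd1 hk1 (2 * s) B (even_two_mul s) hB1 _ hkap
    (fun u y => Kt_sup hd1 s hkk u y) C₄ (NN d k / (d : ℝ) ^ 5) hC₄.le (by positivity) f
    (fun η hη b c c' σ τ hcc => hno (⟨η, hη⟩, b, (c, c'), (σ, τ)) hcc fun x => by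
      unfold N3_w; exact N3_clip_abs _) b c c' σ τ φ hφ hφb
  have hnum := N3_num C₄ hC₄ K₂ s d q (NN d k) hNN hs hd1 hq1 (by linarith)
  rw [hB] at hdet
  linarith

end Pool.Agent.THR

end

/-! ### from `Lib_MP_2c424f_thr.N4` -/

section

/-!
# THR N4: gradients of the smoothed indicators (paper proof: N3, N4)

`φ = sign D · 1[|D| > C₄/q²]` on the class `b`: `∑_{x ∈ b} (|D_x| - C₄/q²)_+ ≤ 2N/d^4`, both classes: `4N/d^4`.
`bq c f x - 1 = ∑_{c'} sg c c' f x` (for `c' = c` the term is `0`), so with `PPt_sum`, `PPt_const`, `PPt_sub`: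
`PP^t (bq c)(x+σ) - PP^t (bq c)(x+τ) = ∑_{c'} D^{c,c'}_x`; absolute value `≤ C₄/q + E_x`, `E_x = ∑_{c'} (|D|-C₄/q²)_+ ≤ 2q`, square
`≤ 2C₄²/q² + 2E_x² ≤ 2C₄²/q² + 4q E_x`, `∑_x E_x ≤ q · 4N/d^4`; `16 q²/d^4 ≤ 256/q²` since `q ≤ 2d`.  `C₅ = 2C₄² + 256`.
-/

set_option autoImplicit false

open Finset Filter

namespace Pool.Agent.THR

open Pool.Agent.LO Pool.Agent.LIN

/-- positive part of `|D| - θ` -/
private noncomputable def N4_m (θ y : ℝ) : ℝ := max (|y| - θ) 0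

open scoped Classical in
/-- the test function -/
private noncomputable def N4_phi {d k : ℕ} (θ : ℝ) (D : Site d k → ℝ) (b : Bool) (x : Site d k) : ℝ :=
  if x ∈ cls b d k ∧ θ < |D x| then (if 0 < D x then 1 else -1) else 0

open scoped Classical in
private theorem N4_phi_eq {d k : ℕ} {θ : ℝ} (D : Site d k → ℝ) (b : Bool) (x : Site d k) :
    N4_phi θ D b x * D x - θ * |N4_phi θ D b x| = if x ∈ cls b d k then N4_m θ (D x) else 0 := by
  unfold N4_phi N4_m
  by_cases h1 : x ∈ cls b d k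
  · by_cases h2 : θ < |D x|
    · rw [if_pos ⟨h1, h2⟩, if_pos h1]
      by_cases h3 : 0 < D x
      · rw [if_pos h3, abs_one, abs_of_pos h3] at *
        rw [max_eq_left (by linarith)]
        ring
      · have h4 : D x ≤ 0 := not_lt.1 h3
        rw [if_neg h3, abs_neg, abs_one, abs_of_nonpos h4] at *
        rw [max_eq_left (by linarith)]
        ring
    · rw [if_neg (fun h => h2 h.2), if_pos h1, max_eq_right (by linarith)]
      simp
  · rw [if_neg (fun h => h1 h.1), if_neg h1]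
    simp

private theorem N4_m_nonneg (θ y : ℝ) : 0 ≤ N4_m θ y := le_max_right _ _

private theorem N4_abs_le (θ y : ℝ) : |y| ≤ θ + N4_m θ y := by
  have := le_max_left (|y| - θ) 0
  unfold N4_m
  linarith

private theorem N4_m_le {θ y : ℝ} (hθ : 0 < θ) (hy : |y| ≤ 2) : N4_m θ y ≤ 2 := by
  unfold N4_m
  exact max_le (by linarith) (by norm_num)

open scoped Classical in
private theorem N4_two {d k : ℕ} (g : Site d k → ℝ) :
    ∑ x, (if x ∈ cls true d k then g x else 0) + ∑ x, (if x ∈ cls false d k then g x else 0) =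
      ∑ x, g x := by
  rw [← Finset.sum_add_distrib]
  refine Finset.sum_congr rfl fun x _ => ?_
  have h1 := cls_not (d := d) (k := k) true x
  by_cases h2 : x ∈ cls true d k
  · have h3 : x ∉ cls false d k := fun h => (h1.1 h) h2
    rw [if_pos h2, if_neg h3, add_zero]
  · have h3 : x ∈ cls false d k := h1.2 h2
    rw [if_neg h2, if_pos h3, zero_add]

private theorem N4_class {d k : ℕ} {θ M : ℝ} (D : Site d k → ℝ)
    (h : ∀ (b : Bool) (φ : Site d k → ℝ), (∀ x, φ x = 0 ∨ φ x = 1 ∨ φ x = -1) →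
      (∀ x, x ∉ cls b d k → φ x = 0) → ∑ x, φ x * D x ≤ θ * ∑ x, |φ x| + M) :
    ∑ x, N4_m θ (D x) ≤ 2 * M := by
  classical
  have hb : ∀ b : Bool, ∑ x, (if x ∈ cls b d k then N4_m θ (D x) else 0) ≤ M := by
    intro b
    have h1 := h b (N4_phi θ D b) (fun x => by
      unfold N4_phi
      split_ifs <;> simp) (fun x hx => by
      unfold N4_phi
      rw [if_neg (fun h => hx h.1)])
    have h2 : ∑ x, (if x ∈ cls b d k then N4_m θ (D x) else 0) =
        ∑ x, N4_phi θ D b x * D x - θ * ∑ x, |N4_phi θ D b x| := by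
      rw [Finset.mul_sum, ← Finset.sum_sub_distrib]
      exact Finset.sum_congr rfl fun x _ => (N4_phi_eq D b x).symm
    rw [h2]
    linarith
  rw [← N4_two]
  have h1 := hb true
  have h2 := hb false
  linarith

private theorem N4_sg_sum {d k q : ℕ} (c : Fin q) (f : Site d k → Fin q) (x : Site d k) :
    ∑ c', sg c c' f x = bq c f x - 1 := by
  classical
  unfold sg bq
  rw [Finset.sum_sub_distrib]
  congr 1
  · rw [Finset.sum_const, Finset.card_univ, Fintype.card_fin]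
    by_cases h : f x = c
    · simp [h]
    · simp [h]
  · rw [Finset.sum_ite_eq]
    simp

private theorem N4_bq {d k q : ℕ} (hd : 1 ≤ d) (t : ℕ) (c : Fin q) (f : Site d k → Fin q) (x : Site d k) :
    PP^[t] (bq c f) x = 1 + ∑ c', PP^[t] (sg c c' f) x := by
  have h1 : PP^[t] (fun y => ∑ c', sg c c' f y) x = ∑ c', PP^[t] (sg c c' f) x :=
    PPt_sum t univ (fun c' => sg c c' f) x
  have h2 : (fun y => ∑ c', sg c c' f y) = fun y => bq c f y - (fun _ => (1 : ℝ)) y := by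
    funext y
    exact N4_sg_sum c f y
  rw [h2, PPt_sub, PPt_const hd] at h1
  rw [← h1]
  ring

private theorem N4_sg_le {d k q : ℕ} (c c' : Fin q) (f : Site d k → Fin q) (x : Site d k) :
    |sg c c' f x| ≤ 1 := by
  classical
  unfold sg
  split_ifs <;> norm_num

private theorem N4_PP_le {d k q : ℕ} (hd : 1 ≤ d) (t : ℕ) (c c' : Fin q) (f : Site d k → Fin q)
    (x : Site d k) : |PP^[t] (sg c c' f) x| ≤ 1 := by
  refine (PPt_abs t _ x).trans ?_
  refine (PPt_mono t (h := fun _ => (1 : ℝ)) (fun y => N4_sg_le c c' f y) x).trans ?_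
  rw [PPt_const hd]

private theorem N4_det {d k q : ℕ} (hd : 1 ≤ d) (hq : 1 ≤ q) (hqd : (q : ℝ) ≤ 2 * d) {C₄ : ℝ}
    (hC : 0 < C₄) (t : ℕ) (f : Site d k → Fin q) (c : Fin q) (σ τ : Stp d)
    (h : ∀ (b : Bool) (c' : Fin q) (φ : Site d k → ℝ),
      (∀ x, φ x = 0 ∨ φ x = 1 ∨ φ x = -1) → (∀ x, x ∉ cls b d k → φ x = 0) →
      ∑ x, φ x * (PP^[t] (sg c c' f) (x + sv σ) - PP^[t] (sg c c' f) (x + sv τ)) ≤
        C₄ / (q : ℝ) ^ 2 * ∑ x, |φ x| + 2 * NN d k / (d : ℝ) ^ 4) :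
    ∑ x : Site d k, (PP^[t] (bq c f) (x + sv σ) - PP^[t] (bq c f) (x + sv τ)) ^ 2 ≤
      (2 * C₄ ^ 2 + 256) * NN d k / (q : ℝ) ^ 2 := by
  have hq0 : (0 : ℝ) < q := by exact_mod_cast hq
  have hd0 : (0 : ℝ) < d := by exact_mod_cast hd
  have hθ : 0 < C₄ / (q : ℝ) ^ 2 := by positivity
  obtain ⟨D, hD⟩ : ∃ D : Fin q → Site d k → ℝ, D = fun c' x =>
      PP^[t] (sg c c' f) (x + sv σ) - PP^[t] (sg c c' f) (x + sv τ) := ⟨_, rfl⟩
  obtain ⟨θ, hθe⟩ : ∃ θ : ℝ, θ = C₄ / (q : ℝ) ^ 2 := ⟨_, rfl⟩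
  have hN : 0 ≤ NN d k := by unfold NN; positivity
  have h1 : ∀ c', ∑ x, N4_m θ (D c' x) ≤ 4 * NN d k / (d : ℝ) ^ 4 := by
    intro c'
    have h2 := N4_class (θ := θ) (M := 2 * NN d k / (d : ℝ) ^ 4) (D c')
      (fun b φ h3 h4 => by rw [hD, hθe]; exact h b c' φ h3 h4)
    refine h2.trans (le_of_eq ?_)
    ring
  obtain ⟨E, hE⟩ : ∃ E : Site d k → ℝ, E = fun x => ∑ c', N4_m θ (D c' x) := ⟨_, rfl⟩
  have hE0 : ∀ x, 0 ≤ E x := by
    intro x
    rw [hE]
    exact Finset.sum_nonneg fun c' _ => N4_m_nonneg _ _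
  have hD2 : ∀ c' x, |D c' x| ≤ 2 := by
    intro c' x
    rw [hD]
    refine (abs_sub _ _).trans ?_
    have h2 := N4_PP_le hd t c c' f (x + sv σ)
    have h3 := N4_PP_le hd t c c' f (x + sv τ)
    linarith
  have hE2 : ∀ x, E x ≤ 2 * q := by
    intro x
    rw [hE]
    refine (Finset.sum_le_sum fun c' _ => N4_m_le (by rw [hθe]; exact hθ) (hD2 c' x)).trans ?_
    rw [Finset.sum_const, Finset.card_univ, Fintype.card_fin, nsmul_eq_mul, mul_comm]
  have hEs : ∑ x, E x ≤ q * (4 * NN d k / (d : ℝ) ^ 4) := by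
    rw [hE, Finset.sum_comm]
    refine (Finset.sum_le_sum fun c' _ => h1 c').trans ?_
    rw [Finset.sum_const, Finset.card_univ, Fintype.card_fin, nsmul_eq_mul]
  have hterm : ∀ x : Site d k, (PP^[t] (bq c f) (x + sv σ) - PP^[t] (bq c f) (x + sv τ)) ^ 2 ≤
      2 * C₄ ^ 2 / (q : ℝ) ^ 2 + 4 * q * E x := by
    intro x
    have h2 : PP^[t] (bq c f) (x + sv σ) - PP^[t] (bq c f) (x + sv τ) = ∑ c', D c' x := by
      rw [N4_bq hd, N4_bq hd, hD, Finset.sum_sub_distrib]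
      ring
    have h3 : |∑ c', D c' x| ≤ C₄ / q + E x := by
      refine (Finset.abs_sum_le_sum_abs _ _).trans ?_
      refine (Finset.sum_le_sum fun c' _ => N4_abs_le θ (D c' x)).trans ?_
      rw [Finset.sum_add_distrib, Finset.sum_const, Finset.card_univ, Fintype.card_fin,
        nsmul_eq_mul, hE, hθe]
      refine add_le_add (le_of_eq ?_) le_rfl
      field_simp
    rw [h2, ← sq_abs]
    have h4 := hE0 x
    have h5 := hE2 x
    have h6 : 0 ≤ C₄ / (q : ℝ) := by positivity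
    have h7 : |∑ c', D c' x| ^ 2 ≤ (C₄ / q + E x) ^ 2 := pow_le_pow_left₀ (abs_nonneg _) h3 2
    have h8 : (C₄ / q + E x) ^ 2 ≤ 2 * (C₄ / q) ^ 2 + 2 * E x ^ 2 := by
      nlinarith [sq_nonneg (C₄ / (q : ℝ) - E x)]
    have h9 : 2 * E x ^ 2 ≤ 4 * q * E x := by nlinarith
    have h10 : 2 * (C₄ / (q : ℝ)) ^ 2 = 2 * C₄ ^ 2 / (q : ℝ) ^ 2 := by
      rw [div_pow]; ring
    linarith
  have hcard : ∑ _x : Site d k, (1 : ℝ) = NN d k := by
    rw [Finset.sum_const, Finset.card_univ, nsmul_eq_mul, mul_one]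
    exact card_site d k
  calc ∑ x : Site d k, (PP^[t] (bq c f) (x + sv σ) - PP^[t] (bq c f) (x + sv τ)) ^ 2
      ≤ ∑ x : Site d k, (2 * C₄ ^ 2 / (q : ℝ) ^ 2 + 4 * q * E x) :=
        Finset.sum_le_sum fun x _ => hterm x
    _ = 2 * C₄ ^ 2 / (q : ℝ) ^ 2 * NN d k + 4 * q * ∑ x, E x := by
        have h2 : ∑ _x : Site d k, 2 * C₄ ^ 2 / (q : ℝ) ^ 2 = 2 * C₄ ^ 2 / (q : ℝ) ^ 2 * NN d k := by
          rw [← hcard, Finset.mul_sum]
          exact Finset.sum_congr rfl fun _ _ => (mul_one _).symm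
        rw [Finset.sum_add_distrib, ← Finset.mul_sum, h2]
    _ ≤ 2 * C₄ ^ 2 / (q : ℝ) ^ 2 * NN d k + 4 * q * (q * (4 * NN d k / (d : ℝ) ^ 4)) := by
        have := mul_le_mul_of_nonneg_left hEs (by positivity : (0 : ℝ) ≤ 4 * q)
        linarith
    _ ≤ (2 * C₄ ^ 2 + 256) * NN d k / (q : ℝ) ^ 2 := by
        have h2 : (q : ℝ) ^ 4 ≤ 16 * (d : ℝ) ^ 4 := by
          calc (q : ℝ) ^ 4 ≤ (2 * (d : ℝ)) ^ 4 := pow_le_pow_left₀ hq0.le hqd 4
            _ = 16 * (d : ℝ) ^ 4 := by ring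
        have h3 : 4 * (q : ℝ) * (q * (4 * NN d k / (d : ℝ) ^ 4)) ≤ 256 * NN d k / (q : ℝ) ^ 2 := by
          rw [le_div_iff₀ (by positivity)]
          have h4 : 4 * (q : ℝ) * (q * (4 * NN d k / (d : ℝ) ^ 4)) * (q : ℝ) ^ 2 =
              16 * NN d k * (q ^ 4 / (d : ℝ) ^ 4) := by
            field_simp
            ring
          rw [h4]
          have h5 : (q : ℝ) ^ 4 / (d : ℝ) ^ 4 ≤ 16 := by
            rw [div_le_iff₀ (by positivity)]
            exact h2
          nlinarith [mul_le_mul_of_nonneg_left h5 (by positivity : (0 : ℝ) ≤ 16 * NN d k)]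
        have h6 : (2 * C₄ ^ 2 + 256) * NN d k / (q : ℝ) ^ 2 =
            2 * C₄ ^ 2 / (q : ℝ) ^ 2 * NN d k + 256 * NN d k / (q : ℝ) ^ 2 := by
          ring
        rw [h6]
        linarith

theorem grad_bq {ε : ℝ} (hε : 0 < ε) (hε1 : ε ≤ 1) : ∃ (t : ℕ) (C₅ : ℝ), Even t ∧ 20 ≤ t ∧ 0 < C₅ ∧
    WOP ε fun d k q f => ∀ (c : Fin q) (σ τ : Stp d),
      ∑ x : Site d k, (PP^[t] (bq c f) (x + sv σ) - PP^[t] (bq c f) (x + sv τ)) ^ 2 ≤ C₅ * NN d k / (q : ℝ) ^ 2 := by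
  obtain ⟨t, C₄, ht, ht20, hC, hW⟩ := iso_adapt hε hε1
  refine ⟨t, 2 * C₄ ^ 2 + 256, ht, ht20, by positivity, ?_⟩
  refine hW.mono ⟨1, fun d q hd hq1 hq2 => Eventually.of_forall fun k f _ hP c σ τ => ?_⟩
  have hq : 1 ≤ q := by
    have := c.2
    omega
  have hqd : (q : ℝ) ≤ 2 * d := by
    have : 0 ≤ ε * (d : ℝ) := by positivity
    linarith [sub_mul 2 ε (d : ℝ)]
  exact N4_det hd hq hqd hC t f c σ τ (fun b c' φ h1 h2 => hP b c c' σ τ φ h1 h2)

end Pool.Agent.THR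

end

/-! ### from `Lib_MP_2c424f_thr.N6` -/

section

/-!
# THR N6: gradients of the conditional means, homogeneity (paper proof: N6, N7, M0)

* `grad_gg`: `∇PP^t gg = ∇PP^t bq - ∇PP^t (bq - gg)`, `(x+y)² ≤ 2x²+2y²`: `2C₅N/q² + 8N/d^4 ≤ C₆N/q²`.
* `log_convex`: `V k = ∑_x (PP^k F x)²`, `V k ^ 2 ≤ V (k-1) V (k+1)` (`PPt_adj`, Cauchy-Schwarz), so `V 1 ^ t ≤ V 0 ^ (t-1) V t`
  (if `V 0 = 0` or `V 1 = 0` trivial; otherwise the ratios increase).
* `hom`: `F x = gg c f (x+σ) - gg c f (x+τ)`; `V 0 ≤ 4 ∑ gg² ≤ 4(N/c1² + q² irr) ≤ C N` (`gg ≤ 1/c1` at regular sites, `≤ q` elsewhere,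
  `avail 2`), `V t ≤ C₆N/q²`; if `V 1 > δ N` then `(δN)^t ≤ (CN)^(t-1) C₆ N/q²`, impossible for `q` large.
  `hh c f v = ra · PP (gg c f) v`.
-/

set_option autoImplicit false

open Finset Filter

namespace Pool.Agent.THR

open Pool.Agent.LO Pool.Agent.LIN

private theorem N6_shift {d k : ℕ} (F : Site d k → ℝ) (v : Site d k) : ∑ x, F (x + v) = ∑ x, F x :=
  Fintype.sum_equiv (Equiv.addRight v) _ _ (fun _ => rfl)

theorem grad_gg {ε : ℝ} (hε : 0 < ε) (hε1 : ε ≤ 1) : ∃ (t : ℕ) (C₆ : ℝ), Even t ∧ 20 ≤ t ∧ 0 < C₆ ∧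
    WOP ε fun d k q f => ∀ (c : Fin q) (σ τ : Stp d),
      ∑ x : Site d k, (PP^[t] (gg c f) (x + sv σ) - PP^[t] (gg c f) (x + sv τ)) ^ 2 ≤ C₆ * NN d k / (q : ℝ) ^ 2 := by
  obtain ⟨t, C₅, hte, ht, hC₅, hW⟩ := grad_bq hε hε1
  refine ⟨t, 2 * C₅ + 128, hte, ht, by linarith, ?_⟩
  have hS := smooth hε hε1 t hte ht
  refine (hW.and hS).mono ((EvT_reg hε hε1 1).mono ?_)
  rintro d k q ⟨hd, hq, -, hεq, hq2, -, -, -⟩ f hf ⟨h1, h2⟩ c σ τ
  have hN : (0 : ℝ) ≤ NN d k := by unfold NN; positivity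
  have h3 := h2 c
  set G : Site d k → ℝ := fun x => PP^[t] (bq c f) x - PP^[t] (gg c f) x with hG
  have hpt : ∀ x : Site d k, (PP^[t] (gg c f) (x + sv σ) - PP^[t] (gg c f) (x + sv τ)) ^ 2 ≤
      2 * (PP^[t] (bq c f) (x + sv σ) - PP^[t] (bq c f) (x + sv τ)) ^ 2 +
        (4 * G (x + sv σ) ^ 2 + 4 * G (x + sv τ) ^ 2) := by
    intro x
    have e : PP^[t] (gg c f) (x + sv σ) - PP^[t] (gg c f) (x + sv τ) =
        (PP^[t] (bq c f) (x + sv σ) - PP^[t] (bq c f) (x + sv τ)) - G (x + sv σ) + G (x + sv τ) := by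
      simp only [hG]; ring
    rw [e]
    nlinarith [sq_nonneg ((PP^[t] (bq c f) (x + sv σ) - PP^[t] (bq c f) (x + sv τ)) + (G (x + sv σ) - G (x + sv τ))),
      sq_nonneg (G (x + sv σ) + G (x + sv τ))]
  have hsum : ∑ x : Site d k, (PP^[t] (gg c f) (x + sv σ) - PP^[t] (gg c f) (x + sv τ)) ^ 2 ≤
      2 * ∑ x : Site d k, (PP^[t] (bq c f) (x + sv σ) - PP^[t] (bq c f) (x + sv τ)) ^ 2 + 8 * ∑ x, G x ^ 2 := by
    calc _ ≤ ∑ x : Site d k, (2 * (PP^[t] (bq c f) (x + sv σ) - PP^[t] (bq c f) (x + sv τ)) ^ 2 +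
        (4 * G (x + sv σ) ^ 2 + 4 * G (x + sv τ) ^ 2)) := Finset.sum_le_sum fun x _ => hpt x
      _ = _ := by
        rw [Finset.sum_add_distrib, Finset.sum_add_distrib, ← Finset.mul_sum, ← Finset.mul_sum, ← Finset.mul_sum,
          N6_shift (fun x => G x ^ 2), N6_shift (fun x => G x ^ 2)]
        ring
  have hGs : ∑ x, G x ^ 2 ≤ NN d k / (d : ℝ) ^ 4 := h3
  have h4 : NN d k / (d : ℝ) ^ 4 ≤ 16 * NN d k / (q : ℝ) ^ 2 := by
    have hqp : (0 : ℝ) < (q : ℝ) ^ 2 := by positivity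
    have hdp : (0 : ℝ) < (d : ℝ) ^ 4 := by positivity
    rw [div_le_div_iff₀ hdp hqp]
    have hq2d : (q : ℝ) ≤ 2 * d := by nlinarith
    have : (q : ℝ) ^ 2 ≤ 16 * (d : ℝ) ^ 4 := by
      have h5 : (q : ℝ) ^ 2 ≤ (2 * d) ^ 2 := by gcongr
      have h6 : (d : ℝ) ^ 2 ≤ (d : ℝ) ^ 4 := pow_le_pow_right₀ hd (by norm_num)
      nlinarith
    nlinarith
  calc _ ≤ 2 * (C₅ * NN d k / (q : ℝ) ^ 2) + 8 * (16 * NN d k / (q : ℝ) ^ 2) := by
        linarith [h1 c σ τ]
    _ = _ := by ring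

private theorem N6_step {d k : ℕ} (G : Site d k → ℝ) :
    (∑ x, PP G x ^ 2) ^ 2 ≤ (∑ x, G x ^ 2) * ∑ x, PP (PP G) x ^ 2 := by
  have h1 : ∑ x, PP G x ^ 2 = ∑ x, G x * PP (PP G) x := by
    have h := PPt_adj 1 G (PP G)
    simp only [Function.iterate_one] at h
    rw [← h]
    exact Finset.sum_congr rfl fun x _ => by ring
  rw [h1]
  exact Finset.sum_mul_sq_le_sq_mul_sq _ _ _

theorem log_convex {d k : ℕ} (t : ℕ) (ht : 1 ≤ t) (F : Site d k → ℝ) :
    (∑ x, PP F x ^ 2) ^ t ≤ (∑ x, F x ^ 2) ^ (t - 1) * ∑ x, PP^[t] F x ^ 2 := by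
  set V : ℕ → ℝ := fun n => ∑ x, PP^[n] F x ^ 2 with hV
  have hV0 : ∀ n, 0 ≤ V n := fun n => Finset.sum_nonneg fun x _ => sq_nonneg _
  have hst : ∀ n, V (n + 1) ^ 2 ≤ V n * V (n + 2) := by
    intro n
    have h := N6_step (PP^[n] F)
    have e1 : PP (PP^[n] F) = PP^[n + 1] F := by rw [Function.iterate_succ_apply']
    have e2 : PP (PP^[n + 1] F) = PP^[n + 2] F := by rw [← Function.iterate_succ_apply' PP (n + 1)]
    rw [e1, e2] at h
    exact h
  have hR : ∀ n, V 1 * V n ≤ V 0 * V (n + 1) := by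
    intro n
    induction n with
    | zero => exact le_of_eq (mul_comm _ _)
    | succ n ih =>
      rcases (hV0 (n + 1)).eq_or_lt with h0 | h0
      · rw [← h0, mul_zero]; exact mul_nonneg (hV0 _) (hV0 _)
      · have h1 : V 1 * V (n + 1) * V (n + 1) ≤ V 0 * V (n + 2) * V (n + 1) := by
          calc V 1 * V (n + 1) * V (n + 1) = V 1 * V (n + 1) ^ 2 := by ring
            _ ≤ V 1 * (V n * V (n + 2)) := mul_le_mul_of_nonneg_left (hst n) (hV0 1)
            _ = (V 1 * V n) * V (n + 2) := by ring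
            _ ≤ (V 0 * V (n + 1)) * V (n + 2) := mul_le_mul_of_nonneg_right ih (hV0 _)
            _ = _ := by ring
        exact le_of_mul_le_mul_right h1 h0
  have hmain : ∀ n, V 1 ^ (n + 1) ≤ V 0 ^ n * V (n + 1) := by
    intro n
    induction n with
    | zero => simp
    | succ n ih =>
      calc V 1 ^ (n + 1 + 1) = V 1 ^ (n + 1) * V 1 := pow_succ _ _
        _ ≤ V 0 ^ n * V (n + 1) * V 1 := mul_le_mul_of_nonneg_right ih (hV0 1)
        _ = V 0 ^ n * (V 1 * V (n + 1)) := by ring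
        _ ≤ V 0 ^ n * (V 0 * V (n + 1 + 1)) := mul_le_mul_of_nonneg_left (hR (n + 1)) (pow_nonneg (hV0 0) _)
        _ = _ := by ring
  obtain ⟨n, rfl⟩ : ∃ n, t = n + 1 := ⟨t - 1, by omega⟩
  exact hmain n

theorem hh_eq {d k q : ℕ} (hd : 1 ≤ d) (hq : 1 ≤ q) (c : Fin q) (f : Site d k → Fin q) (v : Site d k) :
    hh c f v = ra d q * PP (gg c f) v := by
  have hd' : (d : ℝ) ≠ 0 := by positivity
  have hq' : (q : ℝ) ≠ 0 := by positivity
  unfold hh ra PP gg
  rw [mul_div_assoc', Finset.mul_sum, Finset.sum_div]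
  refine Finset.sum_congr rfl fun σ _ => ?_
  field_simp

open scoped Classical in
private theorem N6_gg {d k q : ℕ} {ε : ℝ} (hd : 1 ≤ d) (hq : 1 ≤ q) (hq2 : (q : ℝ) ≤ 2 * d)
    {f : Site d k → Fin q} (hf : Prp f) (hirr : irr ε f ≤ NN d k / (d : ℝ) ^ 4) (c : Fin q) :
    ∑ x : Site d k, gg c f x ^ 2 ≤ (1 / c1 ε ^ 2 + 4) * NN d k := by
  have hc1 : 0 < c1 ε := by unfold c1; positivity
  have hq0 : (0 : ℝ) < q := by positivity
  have hd0 : (1 : ℝ) ≤ d := by exact_mod_cast hd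
  have hN : (0 : ℝ) ≤ NN d k := by unfold NN; positivity
  have hz : ∀ v, 0 ≤ zz f v c ∧ zz f v c ≤ 1 := by
    intro v
    rcases zz_zero_or_one f v c with h | h <;> rw [h] <;> norm_num
  have hpt : ∀ x : Site d k, gg c f x ^ 2 ≤ 1 / c1 ε ^ 2 + (q : ℝ) ^ 2 * if (av f x : ℝ) < c1 ε * q then 1 else 0 := by
    intro x
    have hav : (1 : ℝ) ≤ av f x := by exact_mod_cast av_pos hf x
    have hg0 : 0 ≤ gg c f x := by
      unfold gg; exact div_nonneg (mul_nonneg hq0.le (hz x).1) (by positivity)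
    have hc2 : 0 ≤ 1 / c1 ε ^ 2 := by positivity
    split_ifs with h
    · have : gg c f x ≤ q := by
        unfold gg
        rw [div_le_iff₀ (by positivity)]
        nlinarith [(hz x).1, (hz x).2]
      have := pow_le_pow_left₀ hg0 this 2
      linarith
    · push Not at h
      have : gg c f x ≤ 1 / c1 ε := by
        unfold gg
        rw [div_le_div_iff₀ (by positivity) hc1]
        nlinarith [(hz x).1, (hz x).2, mul_pos hc1 hq0]
      have := pow_le_pow_left₀ hg0 this 2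
      rw [div_pow, one_pow] at this
      linarith
  calc ∑ x : Site d k, gg c f x ^ 2 ≤ ∑ x : Site d k, (1 / c1 ε ^ 2 + (q : ℝ) ^ 2 *
        if (av f x : ℝ) < c1 ε * q then 1 else 0) := Finset.sum_le_sum fun x _ => hpt x
    _ = 1 / c1 ε ^ 2 * NN d k + (q : ℝ) ^ 2 * irr ε f := by
        rw [Finset.sum_add_distrib, ← Finset.mul_sum]
        congr 1
        · rw [Finset.sum_const, Finset.card_univ, nsmul_eq_mul]
          have : ((Fintype.card (Site d k) : ℕ) : ℝ) = NN d k := card_site d k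
          rw [this, mul_comm]
        · unfold irr
          rw [Finset.sum_ite, Finset.sum_const_zero, add_zero, Finset.sum_const, nsmul_eq_mul, mul_one]
    _ ≤ 1 / c1 ε ^ 2 * NN d k + (2 * (d : ℝ)) ^ 2 * (NN d k / (d : ℝ) ^ 4) := by
        gcongr
        unfold irr; positivity
    _ ≤ 1 / c1 ε ^ 2 * NN d k + 4 * NN d k := by
        have h7 : (2 * (d : ℝ)) ^ 2 * (NN d k / (d : ℝ) ^ 4) ≤ 4 * NN d k := by
          rw [mul_div_assoc', div_le_iff₀ (by positivity)]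
          have h6 : (d : ℝ) ^ 2 ≤ (d : ℝ) ^ 4 := pow_le_pow_right₀ hd0 (by norm_num)
          nlinarith
        linarith
    _ = _ := by ring

/-- deterministic form of homogeneity -/
theorem hom_det {ε : ℝ} (hε : 0 < ε) (hε1 : ε ≤ 1) (t : ℕ) (ht : 1 ≤ t) (C₆ : ℝ) (hC : 0 < C₆) (δ : ℝ) (hδ : 0 < δ) :
    EvT ε fun d k q => ∀ f ∈ prps d k q, irr ε f ≤ NN d k / (d : ℝ) ^ 4 → ∀ (c : Fin q) (σ τ : Stp d),
      ∑ x : Site d k, (PP^[t] (gg c f) (x + sv σ) - PP^[t] (gg c f) (x + sv τ)) ^ 2 ≤ C₆ * NN d k / (q : ℝ) ^ 2 →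
      ∑ x : Site d k, (hh c f (x + sv σ) - hh c f (x + sv τ)) ^ 2 ≤ δ * NN d k := by
  have hc1 : 0 < c1 ε := by unfold c1; positivity
  have hA0 : 0 < A0 ε := by unfold A0; positivity
  set C : ℝ := 4 * (1 / c1 ε ^ 2 + 4) with hCdef
  have hCpos : 0 < C := by positivity
  set δ' : ℝ := δ / A0 ε ^ 2 with hδ'
  have hδ'pos : 0 < δ' := by positivity
  refine (EvT_reg hε hε1 (max 1 (C ^ (t - 1) * C₆ / δ' ^ t))).mono ?_
  rintro d k q ⟨hd, hq, -, hεq, hq2, -, hra, hraq⟩ f hf hirr c σ τ hV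
  have hd1 : (1 : ℝ) ≤ d := le_trans (le_max_left _ _) hd
  have hq1 : (1 : ℝ) ≤ q := le_trans (le_max_left _ _) hq
  have hqM : C ^ (t - 1) * C₆ / δ' ^ t ≤ q := le_trans (le_max_right _ _) hq
  have hd1' : 1 ≤ d := by exact_mod_cast hd1
  have hq1' : 1 ≤ q := by exact_mod_cast hq1
  have hN : (0 : ℝ) < NN d k := by unfold NN; positivity
  have hq2d : (q : ℝ) ≤ 2 * d := by nlinarith
  have hfP : Prp f := by
    classical
    unfold prps at hf
    rw [Finset.mem_filter] at hf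
    exact hf.2
  have hgs := N6_gg hd1' hq1' hq2d hfP hirr c
  set F : Site d k → ℝ := fun x => gg c f (x + sv σ) - gg c f (x + sv τ) with hF
  -- V 0
  have hV0 : ∑ x, F x ^ 2 ≤ C * NN d k := by
    have : ∀ x, F x ^ 2 ≤ 2 * gg c f (x + sv σ) ^ 2 + 2 * gg c f (x + sv τ) ^ 2 := by
      intro x
      simp only [hF]
      nlinarith [sq_nonneg (gg c f (x + sv σ) + gg c f (x + sv τ))]
    calc ∑ x, F x ^ 2 ≤ ∑ x, (2 * gg c f (x + sv σ) ^ 2 + 2 * gg c f (x + sv τ) ^ 2) :=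
          Finset.sum_le_sum fun x _ => this x
      _ = 4 * ∑ x, gg c f x ^ 2 := by
          rw [Finset.sum_add_distrib, ← Finset.mul_sum, ← Finset.mul_sum, N6_shift (fun x => gg c f x ^ 2),
            N6_shift (fun x => gg c f x ^ 2)]
          ring
      _ ≤ 4 * ((1 / c1 ε ^ 2 + 4) * NN d k) := by linarith
      _ = _ := by rw [hCdef]; ring
  have hPt : ∀ (n : ℕ) (x : Site d k), PP^[n] F x = PP^[n] (gg c f) (x + sv σ) - PP^[n] (gg c f) (x + sv τ) := by
    intro n x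
    rw [hF, PPt_sub n (fun y => gg c f (y + sv σ)) (fun y => gg c f (y + sv τ)) x, PPt_transl, PPt_transl]
  have hVt : ∑ x, PP^[t] F x ^ 2 ≤ C₆ * NN d k / (q : ℝ) ^ 2 := by
    simpa only [hPt t] using hV
  have hhs : ∑ x : Site d k, (hh c f (x + sv σ) - hh c f (x + sv τ)) ^ 2 = ra d q ^ 2 * ∑ x, PP F x ^ 2 := by
    rw [Finset.mul_sum]
    refine Finset.sum_congr rfl fun x _ => ?_
    have h1 := hPt 1 x
    simp only [Function.iterate_one] at h1
    rw [h1, hh_eq hd1' hq1', hh_eq hd1' hq1']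
    ring
  have hra0 : 0 ≤ ra d q := by unfold ra; positivity
  have hlc := log_convex t ht F
  have hV1 : ∑ x, PP F x ^ 2 ≤ δ' * NN d k := by
    by_contra hcon
    push Not at hcon
    have h1 : (δ' * NN d k) ^ t < (∑ x, PP F x ^ 2) ^ t :=
      pow_lt_pow_left₀ hcon (by positivity) (by omega)
    have h2 : (∑ x, F x ^ 2) ^ (t - 1) * ∑ x, PP^[t] F x ^ 2 ≤
        (C * NN d k) ^ (t - 1) * (C₆ * NN d k / (q : ℝ) ^ 2) := by
      have h00 : 0 ≤ ∑ x, F x ^ 2 := Finset.sum_nonneg fun x _ => sq_nonneg _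
      have h01 : 0 ≤ ∑ x, PP^[t] F x ^ 2 := Finset.sum_nonneg fun x _ => sq_nonneg _
      exact mul_le_mul (pow_le_pow_left₀ h00 hV0 _) hVt h01 (by positivity)
    have h3 : (δ' * NN d k) ^ t < (C * NN d k) ^ (t - 1) * (C₆ * NN d k / (q : ℝ) ^ 2) := by linarith
    have h4 : (C * NN d k) ^ (t - 1) * (C₆ * NN d k / (q : ℝ) ^ 2) =
        (C ^ (t - 1) * C₆ / (q : ℝ) ^ 2) * NN d k ^ t := by
      obtain ⟨n, rfl⟩ : ∃ n, t = n + 1 := ⟨t - 1, by omega⟩
      simp only [Nat.add_sub_cancel]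
      rw [mul_pow, pow_succ (NN d k) n]
      ring
    rw [h4, mul_pow] at h3
    have h5 : δ' ^ t < C ^ (t - 1) * C₆ / (q : ℝ) ^ 2 := lt_of_mul_lt_mul_right h3 (by positivity)
    rw [lt_div_iff₀ (by positivity)] at h5
    rw [div_le_iff₀ (by positivity)] at hqM
    have h6 : (q : ℝ) ≤ (q : ℝ) ^ 2 := by nlinarith
    have h7 : (q : ℝ) * δ' ^ t ≤ δ' ^ t * (q : ℝ) ^ 2 := by
      rw [mul_comm]
      exact mul_le_mul_of_nonneg_left h6 (by positivity)
    linarith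
  rw [hhs]
  have hra2 : ra d q ^ 2 ≤ A0 ε ^ 2 := pow_le_pow_left₀ hra0 hra 2
  calc ra d q ^ 2 * ∑ x, PP F x ^ 2 ≤ A0 ε ^ 2 * (δ' * NN d k) :=
        mul_le_mul hra2 hV1 (Finset.sum_nonneg fun x _ => sq_nonneg _) (by positivity)
    _ = δ * NN d k := by
        rw [hδ']
        field_simp

end Pool.Agent.THR

end

/-! ### from `Lib_MP_2c424f_thr.M5` -/

section

/-!
# THR M5: the smoothed densities are the mean-field densities (paper proof: M5), deterministic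

`‖g‖ = (∑ g²)^(1/2)`; `PP` is a contraction (`PPt_l2`), commutes with translations.  From homogeneity `‖h(·+σ) - h(·+τ)‖ ≤ √(δ'N)`:
`(PP² h - h)(x)` is the mean over `σ, τ` of `h(x+σ+opp τ) - h(x + τ + opp τ)`, so `‖PP² h - h‖ ≤ √(δ'N)`, `‖PP^(2j) h - h‖ ≤ j √(δ'N)`;
`‖PP h - h(·+σ)‖ ≤ √(δ'N)`.  `gg`: `a PP gg = hh`.  `t` even:
* `a PP^t gg = PP^(t-1) h = PP (PP^(t-2) h)`, distance to `h(·+σ)` at most `(t/2) √(δ'N)`, and `‖h(·+σ) - a ya‖ ≤ √(δ'N)` by `mf` with the opposite step.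
* `a PP^(t+1) gg = PP^t h`, close to `h`, close to `a ya(·+σ)`.
* `PP^(2t) h` close to `h`.      `a ≥ 1`.
-/

set_option autoImplicit false

open Finset Filter

namespace Pool.Agent.THR

open Pool.Agent.LO Pool.Agent.LIN

/-! ### Norms -/

/-- `(∑ g²)^(1/2)` -/
private noncomputable def M5_n {d k : ℕ} (g : Site d k → ℝ) : ℝ :=
  ‖(WithLp.toLp 2 g : EuclideanSpace ℝ (Site d k))‖

private theorem M5_n_nonneg {d k : ℕ} (g : Site d k → ℝ) : 0 ≤ M5_n g := norm_nonneg _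

private theorem M5_n_sq {d k : ℕ} (g : Site d k → ℝ) : M5_n g ^ 2 = ∑ x, g x ^ 2 := by
  unfold M5_n
  rw [EuclideanSpace.norm_sq_eq]
  exact Finset.sum_congr rfl fun x _ => by simp

private theorem M5_n_le {d k : ℕ} {g : Site d k → ℝ} {D : ℝ} (hD : 0 ≤ D) (h : ∑ x, g x ^ 2 ≤ D ^ 2) :
    M5_n g ≤ D := by
  rw [← M5_n_sq] at h
  exact (sq_le_sq₀ (M5_n_nonneg g) hD).mp h

private theorem M5_n_le' {d k : ℕ} {g : Site d k → ℝ} {D : ℝ} (h : M5_n g ≤ D) :
    ∑ x, g x ^ 2 ≤ D ^ 2 := by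
  rw [← M5_n_sq]
  exact pow_le_pow_left₀ (M5_n_nonneg g) h 2

private theorem M5_n_add {d k : ℕ} (g h : Site d k → ℝ) :
    M5_n (fun x => g x + h x) ≤ M5_n g + M5_n h := by
  have h1 := norm_add_le (WithLp.toLp 2 g : EuclideanSpace ℝ (Site d k)) (WithLp.toLp 2 h)
  exact h1

private theorem M5_n_smul {d k : ℕ} (c : ℝ) (g : Site d k → ℝ) :
    M5_n (fun x => c * g x) = |c| * M5_n g := by
  have h1 := norm_smul c (WithLp.toLp 2 g : EuclideanSpace ℝ (Site d k))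
  exact h1

private theorem M5_n_zero {d k : ℕ} : M5_n (fun _ : Site d k => (0 : ℝ)) = 0 := by
  have h1 := M5_n_sq (fun _ : Site d k => (0 : ℝ))
  simpa using h1

private theorem M5_n_sum {d k : ℕ} {ι : Type*} (A : Finset ι) (g : ι → Site d k → ℝ) :
    M5_n (fun x => ∑ i ∈ A, g i x) ≤ ∑ i ∈ A, M5_n (g i) := by
  classical
  induction A using Finset.induction_on with
  | empty => simp [M5_n_zero]
  | insert i A hi ih =>
    simp only [Finset.sum_insert hi]
    exact (M5_n_add _ _).trans (add_le_add le_rfl ih)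

private theorem M5_n_transl {d k : ℕ} (g : Site d k → ℝ) (v : Site d k) :
    M5_n (fun x => g (x + v)) = M5_n g := by
  have h1 : M5_n (fun x => g (x + v)) ^ 2 = M5_n g ^ 2 := by
    rw [M5_n_sq, M5_n_sq]
    exact Fintype.sum_equiv (Equiv.addRight v) _ _ fun x => by simp
  exact (sq_eq_sq₀ (M5_n_nonneg _) (M5_n_nonneg _)).mp h1

/-- the mean over the steps of functions of norm at most `D` -/
private theorem M5_n_mean {d k : ℕ} (hd : 1 ≤ d) (D : ℝ) (g : Stp d → Site d k → ℝ)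
    (h : ∀ σ, M5_n (g σ) ≤ D) : M5_n (fun x => (∑ σ, g σ x) / (2 * d)) ≤ D := by
  have hd0 : (0 : ℝ) < 2 * d := by
    have : (1 : ℝ) ≤ d := by exact_mod_cast hd
    linarith
  have h1 : (fun x => (∑ σ, g σ x) / (2 * d)) = fun x => (1 / (2 * d : ℝ)) * ∑ σ, g σ x := by
    funext x
    ring
  rw [h1, M5_n_smul, abs_of_pos (by positivity)]
  have h2 : M5_n (fun x => ∑ σ, g σ x) ≤ 2 * d * D := by
    refine (M5_n_sum _ _).trans ?_
    refine (Finset.sum_le_sum fun σ _ => h σ).trans ?_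
    rw [Finset.sum_const, Finset.card_univ, Fintype.card_prod, Fintype.card_fin, Fintype.card_bool,
      nsmul_eq_mul]
    push_cast
    linarith
  calc 1 / (2 * d : ℝ) * M5_n (fun x => ∑ σ, g σ x) ≤ 1 / (2 * d : ℝ) * (2 * d * D) :=
        mul_le_mul_of_nonneg_left h2 (by positivity)
    _ = D := by field_simp

private theorem M5_opp {d k : ℕ} (σ : Stp d) : (sv σ : Site d k) + sv (opp σ) = 0 := by
  obtain ⟨i, b⟩ := σ
  unfold sv opp
  cases b <;> simp [← Pi.single_add]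

private theorem M5_opp' {d k : ℕ} (σ : Stp d) : (sv (opp σ) : Site d k) + sv σ = 0 := by
  rw [add_comm, M5_opp]

private theorem M5_card {d k : ℕ} (hd : 1 ≤ d) (c : ℝ) (σ : Stp d) :
    c = (∑ _τ : Stp d, c) / (2 * d) := by
  have hd0 : (2 * d : ℝ) ≠ 0 := by
    have : (1 : ℝ) ≤ d := by exact_mod_cast hd
    positivity
  rw [Finset.sum_const, Finset.card_univ, Fintype.card_prod, Fintype.card_fin, Fintype.card_bool,
    nsmul_eq_mul]
  push_cast
  field_simp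

/-- `‖PP h - h(·+σ)‖ ≤ D` -/
private theorem M5_a {d k : ℕ} (hd : 1 ≤ d) (D : ℝ) (h : Site d k → ℝ)
    (hh : ∀ σ τ : Stp d, M5_n (fun x => h (x + sv σ) - h (x + sv τ)) ≤ D) (σ : Stp d) :
    M5_n (fun x => PP h x - h (x + sv σ)) ≤ D := by
  have h1 : (fun x => PP h x - h (x + sv σ)) =
      fun x => (∑ τ : Stp d, (h (x + sv τ) - h (x + sv σ))) / (2 * d) := by
    funext x
    rw [Finset.sum_sub_distrib, sub_div, ← M5_card (k := k) hd _ σ]
    rfl
  rw [h1]
  exact M5_n_mean hd D (fun τ x => h (x + sv τ) - h (x + sv σ)) fun τ => hh τ σ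

/-- `‖PP² h - h‖ ≤ D` -/
private theorem M5_b {d k : ℕ} (hd : 1 ≤ d) (D : ℝ) (h : Site d k → ℝ)
    (hh : ∀ σ τ : Stp d, M5_n (fun x => h (x + sv σ) - h (x + sv τ)) ≤ D) :
    M5_n (fun x => PP (PP h) x - h x) ≤ D := by
  have σ0 : Stp d := (⟨0, hd⟩, true)
  have h1 : (fun x => PP (PP h) x - h x) =
      fun x => (∑ τ : Stp d, (PP h (x + sv τ) - h (x + sv τ + sv (opp τ)))) / (2 * d) := by
    funext x
    have h2 : ∀ τ : Stp d, x + sv τ + sv (opp τ) = x := fun τ => by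
      rw [add_assoc, M5_opp, add_zero]
    simp only [h2]
    rw [Finset.sum_sub_distrib, sub_div, ← M5_card (k := k) hd _ σ0]
    rfl
  rw [h1]
  refine M5_n_mean hd D (fun τ x => PP h (x + sv τ) - h (x + sv τ + sv (opp τ))) fun τ => ?_
  have h3 := M5_n_transl (fun y => PP h y - h (y + sv (opp τ))) (sv τ)
  have h4 := M5_a hd D h hh (opp τ)
  rw [← h3] at h4
  exact h4

/-- contraction -/
private theorem M5_contr {d k : ℕ} (hd : 1 ≤ d) (t : ℕ) (g : Site d k → ℝ) :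
    M5_n (fun x => PP^[t] g x) ≤ M5_n g := by
  apply M5_n_le (M5_n_nonneg g)
  rw [M5_n_sq]
  exact PPt_l2 hd t g

/-- `‖PP^(2j) h - h‖ ≤ j D` -/
private theorem M5_c {d k : ℕ} (hd : 1 ≤ d) (D : ℝ) (h : Site d k → ℝ)
    (hh : ∀ σ τ : Stp d, M5_n (fun x => h (x + sv σ) - h (x + sv τ)) ≤ D) (j : ℕ) :
    M5_n (fun x => PP^[2 * j] h x - h x) ≤ j * D := by
  induction j with
  | zero =>
    have : (fun x : Site d k => PP^[2 * 0] h x - h x) = fun _ => 0 := by
      funext x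
      simp
    rw [this, M5_n_zero]
    simp
  | succ j ih =>
    have h1 : (fun x : Site d k => PP^[2 * (j + 1)] h x - h x) =
        fun x => PP^[2 * j] (fun y => PP (PP h) y - h y) x + (PP^[2 * j] h x - h x) := by
      funext x
      rw [PPt_sub]
      have h2 : PP^[2 * (j + 1)] h = PP^[2 * j] (PP (PP h)) := by
        rw [show 2 * (j + 1) = 2 * j + 1 + 1 by ring, Function.iterate_succ_apply,
          Function.iterate_succ_apply]
      rw [h2]
      have h3 : PP^[2 * j] (fun y => PP (PP h) y) x = PP^[2 * j] (PP (PP h)) x := rfl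
      ring
    rw [h1]
    refine (M5_n_add _ _).trans ?_
    have h4 := (M5_contr hd (2 * j) (fun y => PP (PP h) y - h y)).trans (M5_b hd D h hh)
    push_cast
    linarith

/-- `a PP^[t+1] g = PP^[t] h` if `h = a PP g` -/
private theorem M5_shift {d k : ℕ} (a : ℝ) (g h : Site d k → ℝ) (hg : ∀ x, h x = a * PP g x) (t : ℕ)
    (x : Site d k) : a * PP^[t + 1] g x = PP^[t] h x := by
  have h1 : h = fun x => a * PP g x := funext hg
  rw [h1, PPt_mul, Function.iterate_succ_apply]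

theorem sm_det {ε : ℝ} (hε : 0 < ε) (hε1 : ε ≤ 1) (t : ℕ) (ht : Even t) (ht' : 2 ≤ t) (δ : ℝ) (hδ : 0 < δ) :
    ∃ δ' : ℝ, 0 < δ' ∧ EvT ε fun d k q => ∀ f ∈ prps d k q,
      (∀ (c : Fin q) (σ τ : Stp d), ∑ x : Site d k, (hh c f (x + sv σ) - hh c f (x + sv τ)) ^ 2 ≤ δ' * NN d k) →
      (∀ (c : Fin q) (σ : Stp d), ∑ u : Site d k, (hh c f u - ra d q * ya c f (u + sv σ)) ^ 2 ≤ δ' * NN d k) →
      (∀ c : Fin q, ∑ u : Site d k, (PP^[t] (gg c f) u - ya c f u) ^ 2 ≤ δ * NN d k) ∧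
      (∀ (c : Fin q) (σ : Stp d), ∑ u : Site d k, (PP^[t + 1] (gg c f) u - ya c f (u + sv σ)) ^ 2 ≤ δ * NN d k) ∧
      ∀ c : Fin q, ∑ u : Site d k, (PP^[2 * t] (hh c f) u - hh c f u) ^ 2 ≤ δ * NN d k := by
  have ht1 : (0 : ℝ) < (t : ℝ) + 1 := by positivity
  refine ⟨δ / ((t : ℝ) + 1) ^ 2, by positivity, 1, fun d q hd hq1 hq2 => Eventually.of_forall fun k => ?_⟩
  intro f hf hhom hmf
  have hd1 : (1 : ℝ) ≤ d := by exact_mod_cast hd
  have hq0 : (0 : ℝ) < q := by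
    have : 0 < ε * d := by positivity
    linarith
  have hq : 1 ≤ q := by exact_mod_cast (show 0 < q by exact_mod_cast hq0)
  have ha : 1 ≤ ra d q := by
    unfold ra
    rw [le_div_iff₀ hq0]
    nlinarith
  have hN : 0 < NN d k := by
    unfold NN
    positivity
  set D : ℝ := Real.sqrt (δ / ((t : ℝ) + 1) ^ 2 * NN d k) with hDdef
  have hD0 : 0 ≤ D := Real.sqrt_nonneg _
  have hD2 : D ^ 2 = δ / ((t : ℝ) + 1) ^ 2 * NN d k := Real.sq_sqrt (by positivity)
  have hfin : ∀ r : ℝ, 0 ≤ r → r ≤ (t : ℝ) + 1 → (r * D) ^ 2 ≤ δ * NN d k := by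
    intro r hr hr1
    calc (r * D) ^ 2 = r ^ 2 * D ^ 2 := by ring
      _ ≤ ((t : ℝ) + 1) ^ 2 * D ^ 2 :=
          mul_le_mul_of_nonneg_right (pow_le_pow_left₀ hr hr1 2) (sq_nonneg D)
      _ = δ * NN d k := by
          rw [hD2]
          field_simp
  obtain ⟨s, hs⟩ := ht
  have hs1 : 1 ≤ s := by omega
  have hts : (t : ℝ) = 2 * s := by
    rw [hs]
    push_cast
    ring
  have hs1' : (1 : ℝ) ≤ s := by exact_mod_cast hs1
  have hh1 : ∀ (c : Fin q) (σ τ : Stp d),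
      M5_n (fun x => hh c f (x + sv σ) - hh c f (x + sv τ)) ≤ D := by
    intro c σ τ
    apply M5_n_le hD0
    rw [hD2]
    exact hhom c σ τ
  have hm1 : ∀ (c : Fin q) (σ : Stp d),
      M5_n (fun u => hh c f u - ra d q * ya c f (u + sv σ)) ≤ D := by
    intro c σ
    apply M5_n_le hD0
    rw [hD2]
    exact hmf c σ
  have hgh : ∀ (c : Fin q) (x : Site d k), hh c f x = ra d q * PP (gg c f) x :=
    fun c x => hh_eq hd hq c f x
  refine ⟨fun c => ?_, fun c σ => ?_, fun c => ?_⟩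
  · -- first statement
    have σ : Stp d := (⟨0, hd⟩, true)
    have h1 : M5_n (fun u => ra d q * (PP^[t] (gg c f) u - ya c f u)) ≤ (s + 1) * D := by
      have e1 : (fun u => ra d q * (PP^[t] (gg c f) u - ya c f u)) = fun u =>
          (PP^[1] (fun y => PP^[2 * (s - 1)] (hh c f) y - hh c f y) u +
            (PP (hh c f) u - hh c f (u + sv σ))) +
            (hh c f (u + sv σ) - ra d q * ya c f (u + sv σ + sv (opp σ))) := by
        funext u
        rw [PPt_sub, mul_sub]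
        have e2 : ra d q * PP^[t] (gg c f) u = PP^[1] (fun y => PP^[2 * (s - 1)] (hh c f) y) u := by
          have e3 : t = (2 * (s - 1) + 1) + 1 := by omega
          rw [e3, M5_shift (ra d q) (gg c f) (hh c f) (hgh c)]
          rw [Function.iterate_succ_apply']
          rfl
        rw [e2, add_assoc u, M5_opp, add_zero]
        have e4 : PP^[1] (fun y => hh c f y) u = PP (hh c f) u := rfl
        rw [e4]
        ring
      rw [e1]
      refine (M5_n_add _ _).trans ?_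
      have h2 := M5_n_add (fun u => PP^[1] (fun y => PP^[2 * (s - 1)] (hh c f) y - hh c f y) u)
        (fun u => PP (hh c f) u - hh c f (u + sv σ))
      have h3 := (M5_contr hd 1 (fun y => PP^[2 * (s - 1)] (hh c f) y - hh c f y)).trans
        (M5_c hd D (hh c f) (hh1 c) (s - 1))
      have h4 := M5_a hd D (hh c f) (hh1 c) σ
      have h5 : M5_n (fun u => hh c f (u + sv σ) - ra d q * ya c f (u + sv σ + sv (opp σ))) ≤ D := by
        have h6 := M5_n_transl (fun u => hh c f u - ra d q * ya c f (u + sv (opp σ))) (sv σ)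
        have h7 := hm1 c (opp σ)
        rw [← h6] at h7
        exact h7
      have h8 : ((s - 1 : ℕ) : ℝ) = s - 1 := by
        rw [Nat.cast_sub hs1]
        simp
      rw [h8] at h3
      linarith
    rw [M5_n_smul, abs_of_pos (by linarith)] at h1
    have h9 : M5_n (fun u => PP^[t] (gg c f) u - ya c f u) ≤ (s + 1) * D := by
      refine le_trans ?_ h1
      exact le_mul_of_one_le_left (M5_n_nonneg _) ha
    exact (M5_n_le' h9).trans (hfin _ (by linarith) (by linarith))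
  · -- second statement
    have h1 : M5_n (fun u => ra d q * (PP^[t + 1] (gg c f) u - ya c f (u + sv σ))) ≤ (s + 1) * D := by
      have e1 : (fun u => ra d q * (PP^[t + 1] (gg c f) u - ya c f (u + sv σ))) = fun u =>
          (PP^[2 * s] (hh c f) u - hh c f u) + (hh c f u - ra d q * ya c f (u + sv σ)) := by
        funext u
        rw [mul_sub, M5_shift (ra d q) (gg c f) (hh c f) (hgh c), show t = 2 * s by omega]
        ring
      rw [e1]
      refine (M5_n_add _ _).trans ?_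
      have h2 := M5_c hd D (hh c f) (hh1 c) s
      have h3 := hm1 c σ
      linarith
    rw [M5_n_smul, abs_of_pos (by linarith)] at h1
    have h9 : M5_n (fun u => PP^[t + 1] (gg c f) u - ya c f (u + sv σ)) ≤ (s + 1) * D := by
      refine le_trans ?_ h1
      exact le_mul_of_one_le_left (M5_n_nonneg _) ha
    exact (M5_n_le' h9).trans (hfin _ (by linarith) (by linarith))
  · -- third statement
    have h2 := M5_c hd D (hh c f) (hh1 c) t
    exact (M5_n_le' h2).trans (hfin _ (by positivity) (by linarith))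

end Pool.Agent.THR

end

/-! ### from `Lib_MP_2c424f_thr.C3b` -/

section

/-!
# THR C3b: the smoothed indicators and the densities (paper proof: C3 (ii)), deterministic

`a PP^(2t+1) bq ≈ a PP^(2t+1) gg = PP^(2t) hh ≈ hh`: `smo` and `PPt_l2` (applied to `PP^(t+1)`), `hh_eq`, `sm2`; Cauchy-Schwarz from `ℓ²` to `ℓ¹`, mean over the colours.
-/

set_option autoImplicit false

open Finset Filter

namespace Pool.Agent.THR

open Pool.Agent.LO Pool.Agent.LIN

private theorem C3b_NN (d k : ℕ) : 0 < NN d k := by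
  unfold NN; positivity

private theorem C3b_l1 {d k : ℕ} (φ : Site d k → ℝ) (M : ℝ) (hM : 0 ≤ M)
    (h : ∑ u, φ u ^ 2 ≤ M ^ 2 * NN d k) : ∑ u, |φ u| ≤ M * NN d k := by
  have hN := C3b_NN d k
  have h1 : (∑ u, |φ u|) ^ 2 ≤ (M * NN d k) ^ 2 := by
    have h2 := sq_sum_le_card_mul_sum_sq (s := (Finset.univ : Finset (Site d k))) (f := fun u => |φ u|)
    rw [Finset.card_univ, card_site] at h2
    simp only [sq_abs] at h2
    calc (∑ u, |φ u|) ^ 2 ≤ NN d k * ∑ u, φ u ^ 2 := h2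
      _ ≤ NN d k * (M ^ 2 * NN d k) := mul_le_mul_of_nonneg_left h hN.le
      _ = (M * NN d k) ^ 2 := by ring
  exact (sq_le_sq₀ (Finset.sum_nonneg fun u _ => abs_nonneg _) (mul_nonneg hM hN.le)).mp h1

private theorem C3b_split {d k q : ℕ} (hd : 1 ≤ d) (hq : 1 ≤ q) (t : ℕ) (c : Fin q) (f : Site d k → Fin q)
    (u : Site d k) : ra d q * PP^[2 * t + 1] (bq c f) u - hh c f u =
      ra d q * PP^[t + 1] (fun x => PP^[t] (bq c f) x - PP^[t] (gg c f) x) u +
        (PP^[2 * t] (hh c f) u - hh c f u) := by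
  have h1 : PP^[2 * t] (hh c f) u = ra d q * PP^[2 * t + 1] (gg c f) u := by
    have h2 : hh c f = fun v => ra d q * PP (gg c f) v := funext fun v => hh_eq hd hq c f v
    rw [h2, PPt_mul, Function.iterate_succ_apply]
  have h3 : ∀ g : Site d k → ℝ, PP^[2 * t + 1] g = PP^[t + 1] (PP^[t] g) := by
    intro g
    rw [← Function.iterate_add_apply, show t + 1 + t = 2 * t + 1 by omega]
  rw [h1, PPt_sub, h3 (bq c f), h3 (gg c f)]
  ring

/-- (ii) -/
theorem dens_det {ε : ℝ} (hε : 0 < ε) (hε1 : ε ≤ 1) (C₆ : ℝ) (t : ℕ) (ht : Even t) (ht' : 20 ≤ t) (δ : ℝ) (hδ : 0 < δ) :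
    ∃ δ' : ℝ, 0 < δ' ∧ EvT ε fun d k q => ∀ f ∈ prps d k q, Good ε δ' C₆ t f →
      ∑ u : Site d k, mc (fun γ => |ra d q * PP^[2 * t + 1] (bq γ f) u - hh γ f u|) ≤ δ * NN d k := by
  have hA0 : 0 < A0 ε := by unfold A0; positivity
  refine ⟨(δ / 2) ^ 2, by positivity, ⌈2 * A0 ε / δ⌉₊ + 1, fun d q hd hq1 _ =>
    Filter.Eventually.of_forall fun k f _ hG => ?_⟩
  have hd1 : 1 ≤ d := by omega
  have hdR : (1 : ℝ) ≤ d := by exact_mod_cast hd1
  have hqR : (0 : ℝ) < q := lt_of_lt_of_le (by positivity) hq1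
  have hq : 1 ≤ q := by exact_mod_cast hqR
  have hN := C3b_NN d k
  have hdA : 2 * A0 ε / δ ≤ d := by
    refine (Nat.le_ceil _).trans ?_
    exact_mod_cast (by omega : ⌈2 * A0 ε / δ⌉₊ ≤ d)
  have hra0 : 0 ≤ ra d q := by unfold ra; positivity
  have hra : ra d q ≤ A0 ε := by
    unfold ra A0
    rw [div_le_div_iff₀ hqR hε]
    nlinarith
  have hsmall : ra d q / (d : ℝ) ^ 2 ≤ δ / 2 := by
    rw [div_le_iff₀ (by positivity)]
    have h1 : 2 * A0 ε ≤ d * δ := by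
      rwa [div_le_iff₀ hδ] at hdA
    have h2 : (d : ℝ) ≤ (d : ℝ) ^ 2 := by nlinarith
    have h3 : (d : ℝ) * δ ≤ (d : ℝ) ^ 2 * δ := mul_le_mul_of_nonneg_right h2 hδ.le
    linarith
  have key : ∀ γ : Fin q, ∑ u : Site d k, |ra d q * PP^[2 * t + 1] (bq γ f) u - hh γ f u| ≤
      δ * NN d k := by
    intro γ
    have h1 : ∑ u : Site d k, (ra d q * PP^[t + 1] (fun x => PP^[t] (bq γ f) x - PP^[t] (gg γ f) x) u) ^ 2 ≤
        (δ / 2) ^ 2 * NN d k := by
      have h2 := PPt_l2 hd1 (t + 1) (fun x => PP^[t] (bq γ f) x - PP^[t] (gg γ f) x)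
      have h3 := hG.smo γ
      calc ∑ u : Site d k, (ra d q * PP^[t + 1] (fun x => PP^[t] (bq γ f) x - PP^[t] (gg γ f) x) u) ^ 2
          = ra d q ^ 2 * ∑ u : Site d k, PP^[t + 1] (fun x => PP^[t] (bq γ f) x - PP^[t] (gg γ f) x) u ^ 2 := by
            rw [Finset.mul_sum]
            exact Finset.sum_congr rfl fun u _ => by ring
        _ ≤ ra d q ^ 2 * (NN d k / (d : ℝ) ^ 4) :=
            mul_le_mul_of_nonneg_left (h2.trans h3) (by positivity)
        _ = (ra d q / (d : ℝ) ^ 2) ^ 2 * NN d k := by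
            field_simp
        _ ≤ (δ / 2) ^ 2 * NN d k := by
            apply mul_le_mul_of_nonneg_right _ hN.le
            exact pow_le_pow_left₀ (by positivity) hsmall 2
    have h4 := C3b_l1 _ (δ / 2) (by positivity) h1
    have h5 := C3b_l1 (fun u => PP^[2 * t] (hh γ f) u - hh γ f u) (δ / 2) (by positivity) (hG.sm2 γ)
    calc ∑ u : Site d k, |ra d q * PP^[2 * t + 1] (bq γ f) u - hh γ f u|
        ≤ ∑ u : Site d k, (|ra d q * PP^[t + 1] (fun x => PP^[t] (bq γ f) x - PP^[t] (gg γ f) x) u| +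
            |PP^[2 * t] (hh γ f) u - hh γ f u|) := by
          refine Finset.sum_le_sum fun u _ => ?_
          rw [C3b_split hd1 hq]
          exact abs_add_le _ _
      _ ≤ δ / 2 * NN d k + δ / 2 * NN d k := by
          rw [Finset.sum_add_distrib]
          exact add_le_add h4 h5
      _ = δ * NN d k := by ring
  unfold mc
  rw [← Finset.sum_div, Finset.sum_comm, div_le_iff₀ hqR]
  calc ∑ γ : Fin q, ∑ u : Site d k, |ra d q * PP^[2 * t + 1] (bq γ f) u - hh γ f u|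
      ≤ ∑ _γ : Fin q, δ * NN d k := Finset.sum_le_sum fun γ _ => key γ
    _ = δ * NN d k * q := by
        rw [Finset.sum_const, Finset.card_univ, Fintype.card_fin, nsmul_eq_mul]
        ring

end Pool.Agent.THR

end

/-! ### from `Lib_MP_2c424f_thr.C3` -/

section

/-!
# THR C3: the length of the code (paper proof: C3), deterministic

`b` = the coded class, `σ₀` a fixed step.  For `f` good with small `δ'`:
(i) `∑_{u ∈ b} PP^(2t+1) (bq (f u) f) u = (1/q) ∑_c ∑_{u ∈ b} bq c f u · PP^(2t+1) (bq c f) u = (1/q) ∑_c ∑_{u ∈ b} PP^t (bq c f) u · PP^(t+1) (bq c f) u`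
   (`PPt_adj`; for even `t` the kernel preserves the class: `Kt_cls`), and `PP^t bq ≈ PP^t gg ≈ ya_u` (`smo`, `sm0`), `PP^(t+1) bq ≈ PP^(t+1) gg ≈ ya_{u+σ₀}` (`smo` and
   `PPt_l2`, `sm1`) in `ℓ²`, `0 ≤ ya ≤ e^a`; Cauchy-Schwarz: `= ∑_{u ∈ b} mc (ya_u ya_{u+σ₀}) ± small N`.
(ii) `log ∑_γ exp (-H_u γ) ≤ log (q al_u) + (mc exp (-H_u) - al_u)/al_u`, `|mc exp (-H_u) - al_u| ≤ mc |H_u - hh_u|` provided both are `≥ 0`; the sum over `u` is small:
   `|H - a PP^(2t+1) bq|` (hypothesis), `a PP^(2t+1) bq ≈ a PP^(2t+1) gg = PP^(2t) hh ≈ hh` (`smo`, `PPt_l2`, `hh_eq`, `sm2`).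
(iii) `log av_v ≤ log (q al_v) + (av_v/q - al_v)/al_v` (`avl`).
(iv) `a mc (ya_u ya_x) + log al_u + log al_x` with `x = u + σ₀`: `-mc (ya_u log ya_u) = mc (ya_u hh_u) + log al_u` (`ya_mean`), `mf`; `log al_x ≤ log α* + (al_x-α*)/α*`,
   `al_x = mc exp (-hh_x)`, `|hh_x - a ya_u|` (`mf` with the opposite step).  So it is `≤ mc (ψ(ya_u)) - 1 + log α* + errors = Phi - mc (L (ya_u)) + errors` since
   `mc ya_u = 1` (`mc (ell (ya_u)) = ell 1`).
-/

set_option autoImplicit false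

open Finset Filter

namespace Pool.Agent.THR

open Pool.Agent.LO Pool.Agent.LIN

/-- monotone in `δ` -/
private theorem C3_good_mono {d k q : ℕ} {ε δ δ' C₆ : ℝ} {t : ℕ} {f : Site d k → Fin q}
    (h : Good ε δ C₆ t f) (hδ : δ ≤ δ') : Good ε δ' C₆ t f := by
  have hN : 0 ≤ NN d k := by unfold NN; positivity
  have hb : δ * NN d k ≤ δ' * NN d k := mul_le_mul_of_nonneg_right hδ hN
  exact ⟨h.irr4, h.grad, h.smo, fun c σ τ => (h.hom c σ τ).trans hb, h.avl.trans hb,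
    fun c σ => (h.mf c σ).trans hb, fun c => (h.sm0 c).trans hb, fun c σ => (h.sm1 c σ).trans hb,
    fun c => (h.sm2 c).trans hb⟩

private theorem C3_log {x y : ℝ} (hx : 0 < x) (hy : 0 < y) :
    Real.log x ≤ Real.log y + (x - y) / y := by
  have h := Real.log_le_sub_one_of_pos (div_pos hx hy)
  rw [Real.log_div hx.ne' hy.ne'] at h
  have e : (x - y) / y = x / y - 1 := by field_simp
  linarith

private theorem C3_exp {x y : ℝ} (hx : 0 ≤ x) : Real.exp (-x) - Real.exp (-y) ≤ |x - y| := by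
  rcases le_total y x with h | h
  · have h1 : Real.exp (-x) ≤ Real.exp (-y) := Real.exp_le_exp.2 (by linarith)
    have h2 := abs_nonneg (x - y)
    linarith
  · have h1 : Real.exp (-y) = Real.exp (-x) * Real.exp (-(y - x)) := by
      rw [← Real.exp_add]
      congr 1
      ring
    have h2 : 1 - (y - x) ≤ Real.exp (-(y - x)) := by
      have := Real.add_one_le_exp (-(y - x))
      linarith
    have h3 : Real.exp (-x) ≤ 1 := Real.exp_le_one_iff.2 (by linarith)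
    have h4 : 0 < Real.exp (-x) := Real.exp_pos _
    have h5 : |x - y| = y - x := by rw [abs_sub_comm]; exact abs_of_nonneg (by linarith)
    rw [h5, h1]
    nlinarith [mul_le_mul_of_nonneg_left h2 h4.le, mul_le_mul_of_nonneg_right h3 (by linarith : 0 ≤ y - x)]

private theorem C3_PP_nonneg {d k : ℕ} (t : ℕ) (g : Site d k → ℝ) (hg : ∀ x, 0 ≤ g x)
    (u : Site d k) : 0 ≤ PP^[t] g u := by
  rw [Kt_repr]
  exact sum_nonneg fun y _ => mul_nonneg (Kt_nonneg t u y) (hg y)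

private theorem C3_Hs_nonneg {d k q : ℕ} (t : ℕ) (R : Finset (Site d k)) (f : Site d k → Fin q)
    (u : Site d k) (γ : Fin q) : 0 ≤ Hs t R f u γ := by
  unfold Hs
  refine mul_nonneg ?_ (C3_PP_nonneg _ _ (fun x => ?_) _)
  · unfold ra
    positivity
  · unfold bq
    split_ifs <;> positivity

private theorem C3_shift {d k : ℕ} (hk : 1 ≤ k) (b : Bool) (σ : Stp d) (φ : Site d k → ℝ) :
    ∑ v ∈ cls (!b) d k, φ v = ∑ u ∈ cls b d k, φ (u + sv σ) := by
  symm
  refine Finset.sum_bij' (fun u _ => u + sv σ) (fun v _ => v - sv σ) ?_ ?_ ?_ ?_ ?_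
  · intro u hu
    show u + sv σ ∈ cls (!b) d k
    rw [mem_cls_step hk, Bool.not_not]
    exact hu
  · intro v hv
    show v - sv σ ∈ cls b d k
    have h := mem_cls_step hk (!b) (v - sv σ) σ
    rw [sub_add_cancel, Bool.not_not] at h
    exact h.1 hv
  · intro u _
    exact add_sub_cancel_right _ _
  · intro v _
    exact sub_add_cancel _ _
  · intro u _
    rfl

private theorem C3_mc_tri {q : ℕ} (x y z : Fin q → ℝ) :
    mc (fun γ => |x γ - z γ|) ≤ mc (fun γ => |x γ - y γ|) + mc (fun γ => |y γ - z γ|) := by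
  unfold mc
  rw [← add_div, ← sum_add_distrib]
  refine div_le_div_of_nonneg_right (sum_le_sum fun γ _ => abs_sub_le _ _ _) (Nat.cast_nonneg _)

/-- one log-sum-exp -/
private theorem C3_lse {d k q : ℕ} {A : ℝ} (hq : 1 ≤ q) {f : Site d k → Fin q} (u : Site d k)
    (hal : Real.exp (-A) ≤ al f u) (H : Fin q → ℝ) (hH : ∀ γ, 0 ≤ H γ) :
    Real.log (∑ γ, Real.exp (-H γ)) ≤
      Real.log q + Real.log (al f u) + Real.exp A * mc (fun γ => |H γ - hh γ f u|) := by
  have hqr : (0 : ℝ) < q := by exact_mod_cast hq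
  have halp : 0 < al f u := (Real.exp_pos _).trans_le hal
  have hne : (univ : Finset (Fin q)).Nonempty := ⟨⟨0, hq⟩, mem_univ _⟩
  have hS : 0 < ∑ γ, Real.exp (-H γ) := sum_pos (fun γ _ => Real.exp_pos _) hne
  have h1 := C3_log hS (mul_pos hqr halp)
  rw [Real.log_mul hqr.ne' halp.ne'] at h1
  have h2 : ∑ γ, Real.exp (-H γ) - q * al f u ≤ q * mc (fun γ => |H γ - hh γ f u|) := by
    have e1 : (q : ℝ) * al f u = ∑ γ, Real.exp (-hh γ f u) := by
      unfold al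
      field_simp
    have e2 : (q : ℝ) * mc (fun γ => |H γ - hh γ f u|) = ∑ γ, |H γ - hh γ f u| := by
      unfold mc
      field_simp
    rw [e1, e2, ← sum_sub_distrib]
    exact sum_le_sum fun γ _ => C3_exp (hH γ)
  have h3 : (∑ γ, Real.exp (-H γ) - q * al f u) / (q * al f u) ≤
      Real.exp A * mc (fun γ => |H γ - hh γ f u|) := by
    rw [div_le_iff₀ (mul_pos hqr halp)]
    refine h2.trans ?_
    have hm : 0 ≤ mc (fun γ => |H γ - hh γ f u|) := by
      unfold mc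
      exact div_nonneg (sum_nonneg fun _ _ => abs_nonneg _) hqr.le
    have h4 : 1 ≤ Real.exp A * al f u := by
      calc (1 : ℝ) = Real.exp A * Real.exp (-A) := by rw [← Real.exp_add]; simp
        _ ≤ _ := mul_le_mul_of_nonneg_left hal (Real.exp_pos _).le
    calc (q : ℝ) * mc (fun γ => |H γ - hh γ f u|)
        = (q * mc (fun γ => |H γ - hh γ f u|)) * 1 := by ring
      _ ≤ (q * mc (fun γ => |H γ - hh γ f u|)) * (Real.exp A * al f u) :=
        mul_le_mul_of_nonneg_left h4 (mul_nonneg hqr.le hm)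
      _ = _ := by ring
  linarith

/-- one availability -/
private theorem C3_av {d k q : ℕ} {A : ℝ} (hq : 1 ≤ q) {f : Site d k → Fin q} (v : Site d k)
    (hal : Real.exp (-A) ≤ al f v) (hav : 1 ≤ av f v) :
    Real.log (av f v) ≤ Real.log q + Real.log (al f v) +
      Real.exp A * |(av f v : ℝ) / q - al f v| := by
  have hqr : (0 : ℝ) < q := by exact_mod_cast hq
  have halp : 0 < al f v := (Real.exp_pos _).trans_le hal
  have havp : (0 : ℝ) < av f v := by exact_mod_cast hav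
  have h1 := C3_log (div_pos havp hqr) halp
  rw [Real.log_div havp.ne' hqr.ne'] at h1
  have h3 : ((av f v : ℝ) / q - al f v) / al f v ≤ Real.exp A * |(av f v : ℝ) / q - al f v| := by
    rw [div_le_iff₀ halp]
    have h4 : 1 ≤ Real.exp A * al f v := by
      calc (1 : ℝ) = Real.exp A * Real.exp (-A) := by rw [← Real.exp_add]; simp
        _ ≤ _ := mul_le_mul_of_nonneg_left hal (Real.exp_pos _).le
    calc (av f v : ℝ) / q - al f v ≤ |(av f v : ℝ) / q - al f v| * 1 := by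
          rw [mul_one]; exact le_abs_self _
      _ ≤ |(av f v : ℝ) / q - al f v| * (Real.exp A * al f v) :=
        mul_le_mul_of_nonneg_left h4 (abs_nonneg _)
      _ = _ := by ring
  linarith

theorem J_det {ε : ℝ} (hε : 0 < ε) (hε1 : ε ≤ 1) (C₆ : ℝ) (t : ℕ) (ht : Even t) (ht' : 20 ≤ t) (δ : ℝ) (hδ : 0 < δ) :
    ∃ δ' : ℝ, 0 < δ' ∧ EvT ε fun d k q => ∀ (b : Bool) (m : ℝ), MFE (ra d q) m → ∀ f ∈ prps d k q,
      Good ε δ' C₆ t f → ∀ R : Finset (Site d k),
      ∑ u ∈ cls b d k, |Hs t R f u (f u) - ra d q * PP^[2 * t + 1] (bq (f u) f) u| ≤ δ' * NN d k →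
      ∑ u ∈ cls b d k, mc (fun γ => |Hs t R f u γ - ra d q * PP^[2 * t + 1] (bq γ f) u|) ≤ δ' * NN d k →
      JJ b (Hs t R f) f ≤ NN d k / 2 * (2 * Real.log q + Phi (ra d q) m) -
        ∑ u ∈ cls b d k, mc (fun c => LL (ra d q) m (ya c f u)) + δ * NN d k := by
  have hA0 : 0 < A0 ε := by unfold A0; positivity
  set E : ℝ := Real.exp (A0 ε) with hEdef
  have hE : 0 < E := Real.exp_pos _
  obtain ⟨δa, hδa, ha⟩ := corr_det hε hε1 C₆ t ht ht' (δ / (5 * A0 ε)) (by positivity)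
  obtain ⟨δb, hδb, hb⟩ := dens_det hε hε1 C₆ t ht ht' (δ / (5 * E)) (by positivity)
  obtain ⟨δc, hδc, hc⟩ := env_det hε hε1 C₆ t (δ / 5) (by positivity)
  set s : ℝ := δ / (5 * E) with hsdef
  have hs : 0 < s := by positivity
  refine ⟨min (min δa δb) (min δc (min (δ / (5 * (1 + E))) (s ^ 2))), by positivity, ?_⟩
  refine (((ha.and hb).and hc).and (EvT_reg hε hε1 1)).mono ?_
  rintro d k q ⟨⟨⟨Ha, Hb⟩, Hc⟩, hd1, hq1, hk1, -, -, -, hraA, -⟩ b m hm f hf hG R hR1 hR2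
  have hd : 1 ≤ d := by exact_mod_cast hd1
  have hq : 1 ≤ q := by exact_mod_cast hq1
  have hk : 1 ≤ k := by exact_mod_cast hk1
  have hqr : (0 : ℝ) < q := by linarith
  have hN : 0 ≤ NN d k := by unfold NN; positivity
  have hprp : Prp f := by
    classical
    simpa [prps] using hf
  set δ' : ℝ := min (min δa δb) (min δc (min (δ / (5 * (1 + E))) (s ^ 2))) with hδ'def
  have la : δ' ≤ δa := (min_le_left _ _).trans (min_le_left _ _)
  have lb : δ' ≤ δb := (min_le_left _ _).trans (min_le_right _ _)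
  have lc : δ' ≤ δc := (min_le_right _ _).trans (min_le_left _ _)
  have ld : δ' ≤ δ / (5 * (1 + E)) :=
    (min_le_right _ _).trans ((min_le_right _ _).trans (min_le_left _ _))
  have le : δ' ≤ s ^ 2 := (min_le_right _ _).trans ((min_le_right _ _).trans (min_le_right _ _))
  have hra0 : 0 ≤ ra d q := by unfold ra; positivity
  set σ : Stp d := (⟨0, hd⟩, true) with hσdef
  have c1 := Ha b σ f hf (C3_good_mono hG la)
  have c2 := Hb f hf (C3_good_mono hG lb)
  have c3 := Hc b σ m hm f hf (C3_good_mono hG lc)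
  have hal : ∀ v, Real.exp (-A0 ε) ≤ al f v := fun v =>
    (Real.exp_le_exp.2 (by linarith)).trans (al_ge hq hprp v)
  -- (i)
  have s1 : ∑ u ∈ cls b d k, Hs t R f u (f u) ≤
      ra d q * ∑ u ∈ cls b d k, mc (fun c => ya c f u * ya c f (u + sv σ)) +
        δ / 5 * NN d k + δ' * NN d k := by
    have h1 : ∑ u ∈ cls b d k, Hs t R f u (f u) ≤
        ∑ u ∈ cls b d k, ra d q * PP^[2 * t + 1] (bq (f u) f) u + δ' * NN d k := by
      refine le_trans ?_ (add_le_add_right hR1 _)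
      rw [← sum_add_distrib]
      refine sum_le_sum fun u _ => ?_
      have := le_abs_self (Hs t R f u (f u) - ra d q * PP^[2 * t + 1] (bq (f u) f) u)
      linarith
    rw [← mul_sum] at h1
    have h2 := mul_le_mul_of_nonneg_left c1 hra0
    have h3 : ra d q * (δ / (5 * A0 ε) * NN d k) ≤ δ / 5 * NN d k := by
      have e1 : A0 ε * (δ / (5 * A0 ε) * NN d k) = δ / 5 * NN d k := by
        field_simp
      rw [← e1]
      exact mul_le_mul_of_nonneg_right hraA (by positivity)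
    linarith
  -- (ii)
  have s2 : ∑ u ∈ cls b d k, Real.log (∑ γ, Real.exp (-Hs t R f u γ)) ≤
      NN d k / 2 * Real.log q + ∑ u ∈ cls b d k, Real.log (al f u) +
        E * (δ' * NN d k) + δ / 5 * NN d k := by
    have h1 : ∑ u ∈ cls b d k, Real.log (∑ γ, Real.exp (-Hs t R f u γ)) ≤
        ∑ u ∈ cls b d k, (Real.log q + Real.log (al f u) +
          E * (mc (fun γ => |Hs t R f u γ - ra d q * PP^[2 * t + 1] (bq γ f) u|) +
            mc (fun γ => |ra d q * PP^[2 * t + 1] (bq γ f) u - hh γ f u|))) := by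
      refine sum_le_sum fun u _ => ?_
      refine (C3_lse hq u (hal u) (fun γ => Hs t R f u γ) (C3_Hs_nonneg t R f u)).trans ?_
      have := mul_le_mul_of_nonneg_left (C3_mc_tri (fun γ => Hs t R f u γ)
        (fun γ => ra d q * PP^[2 * t + 1] (bq γ f) u) (fun γ => hh γ f u)) hE.le
      linarith
    have h2 : ∑ u ∈ cls b d k, mc (fun γ => |ra d q * PP^[2 * t + 1] (bq γ f) u - hh γ f u|) ≤
        δ / (5 * E) * NN d k := by
      refine le_trans ?_ c2
      refine sum_le_sum_of_subset_of_nonneg (subset_univ _) fun u _ _ => ?_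
      unfold mc
      exact div_nonneg (sum_nonneg fun _ _ => abs_nonneg _) hqr.le
    rw [sum_add_distrib, sum_add_distrib, sum_const, nsmul_eq_mul, card_cls hd hk, ← mul_sum,
      sum_add_distrib] at h1
    have h3 := mul_le_mul_of_nonneg_left (add_le_add hR2 h2) hE.le
    have e1 : E * (δ / (5 * E) * NN d k) = δ / 5 * NN d k := by
      field_simp
    rw [mul_add E (δ' * NN d k), e1] at h3
    linarith
  -- (iii)
  have s3 : ∑ v ∈ cls (!b) d k, Real.log (av f v) ≤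
      NN d k / 2 * Real.log q + ∑ u ∈ cls b d k, Real.log (al f (u + sv σ)) +
        δ / 5 * NN d k := by
    have h1 : ∑ v ∈ cls (!b) d k, Real.log (av f v) ≤
        ∑ v ∈ cls (!b) d k, (Real.log q + Real.log (al f v) +
          E * |(av f v : ℝ) / q - al f v|) :=
      sum_le_sum fun v _ => C3_av hq v (hal v) (av_pos hprp v)
    have h2 : ∑ v ∈ cls (!b) d k, |(av f v : ℝ) / q - al f v| ≤ s * NN d k := by
      have h3 : ∀ v, |(av f v : ℝ) / q - al f v| ≤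
          ((av f v : ℝ) / q - al f v) ^ 2 / (2 * s) + s / 2 := by
        intro v
        set x := |(av f v : ℝ) / q - al f v| with hx
        have e1 : ((av f v : ℝ) / q - al f v) ^ 2 = x ^ 2 := (sq_abs _).symm
        rw [e1]
        have e2 : x ^ 2 / (2 * s) + s / 2 - x = (x - s) ^ 2 / (2 * s) := by
          field_simp
          ring
        have e3 : 0 ≤ (x - s) ^ 2 / (2 * s) := by positivity
        linarith
      have h4 : ∑ v ∈ cls (!b) d k, ((av f v : ℝ) / q - al f v) ^ 2 ≤ s ^ 2 * NN d k := by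
        calc ∑ v ∈ cls (!b) d k, ((av f v : ℝ) / q - al f v) ^ 2
            ≤ ∑ v, ((av f v : ℝ) / q - al f v) ^ 2 :=
              sum_le_sum_of_subset_of_nonneg (subset_univ _) fun v _ _ => sq_nonneg _
          _ ≤ δ' * NN d k := hG.avl
          _ ≤ s ^ 2 * NN d k := mul_le_mul_of_nonneg_right le hN
      calc ∑ v ∈ cls (!b) d k, |(av f v : ℝ) / q - al f v|
          ≤ ∑ v ∈ cls (!b) d k, (((av f v : ℝ) / q - al f v) ^ 2 / (2 * s) + s / 2) :=
            sum_le_sum fun v _ => h3 v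
        _ = (∑ v ∈ cls (!b) d k, ((av f v : ℝ) / q - al f v) ^ 2) / (2 * s) +
            NN d k / 2 * (s / 2) := by
            rw [sum_add_distrib, sum_div, sum_const, nsmul_eq_mul, card_cls hd hk]
        _ ≤ s ^ 2 * NN d k / (2 * s) + NN d k / 2 * (s / 2) :=
            add_le_add (div_le_div_of_nonneg_right h4 (by positivity)) le_rfl
        _ = (3 / 4) * (s * NN d k) := by
            field_simp
            ring
        _ ≤ s * NN d k := by
            have : 0 ≤ s * NN d k := by positivity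
            linarith
    rw [sum_add_distrib, sum_add_distrib, sum_const, nsmul_eq_mul, card_cls hd hk, ← mul_sum,
      C3_shift hk b σ (fun v => Real.log (al f v))] at h1
    have h3 := mul_le_mul_of_nonneg_left h2 hE.le
    have e1 : E * (s * NN d k) = δ / 5 * NN d k := by
      rw [hsdef]
      field_simp
    rw [e1] at h3
    linarith
  -- (iv)
  have s4 : (1 + E) * (δ' * NN d k) ≤ δ / 5 * NN d k := by
    have h1 := mul_le_mul_of_nonneg_right ld hN
    have h2 := mul_le_mul_of_nonneg_left h1 (by positivity : (0 : ℝ) ≤ 1 + E)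
    have e1 : (1 + E) * (δ / (5 * (1 + E)) * NN d k) = δ / 5 * NN d k := by
      field_simp
    rwa [e1] at h2
  unfold JJ
  rw [sum_add_distrib]
  rw [sum_add_distrib, sum_add_distrib, ← mul_sum] at c3
  have e5 : NN d k / 2 * (2 * Real.log q + Phi (ra d q) m) =
      NN d k / 2 * Real.log q + NN d k / 2 * Real.log q + NN d k / 2 * Phi (ra d q) m := by ring
  rw [e5]
  rw [add_mul, one_mul] at s4
  linarith

end Pool.Agent.THR

end
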