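import Pool.Agent.Lib_MP_2c424f_m.M15
import Pool.Agent.Lib_MP_2c424f_m.M33

/-!
# MP_2c424f_pr, q_c grows linearly: merged library part M34

Concatenation of smaller files (each in its own section), only to save build time.
-/

namespace Pool.Agent.LO
end Pool.Agent.LO

namespace Pool.Agent.LIN
end Pool.Agent.LIN

namespace Pool.Agent.THR
end Pool.Agent.THR

namespace Pool.Agent.COR
end Pool.Agent.COR

/-! ### from `Lib_MP_2c424f_lc6.C10` -/

section

/-!
# LC6 C10: the cells cover almost everything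

* `kk_bound`: `kk l n ≥ (n - 4)/(l+2) - 1`, so `kk l n (l+1) ≥ (n - l - 6)(l+1)/(l+2) ≥ n (1 - (l+6)/n)(1 - 1/(l+2)) ≥ n (1 - 3/x)` if `x ≤ l`, `l x ≤ n`, `l ≥ 6`
  (`(l+6)/n ≤ 2/x`).
* `card_CI`: the cardinality; with `x = d^(C+2)`: product over `d` factors, `(1 - 3/x)^d ≥ 1 - 3 d/x ≥ 1 - 1/d^C` for `d ≥ 3`.
-/

set_option autoImplicit false

open Finset

namespace Pool.Agent.LC

open Pool.Agent.LO Pool.Agent.LIN Pool.Agent.THR Pool.Agent.COR

theorem kk_bound (l n : ℕ) (x : ℝ) (hx : 1 ≤ x) (hl : 6 ≤ l) (hxl : x ≤ l) (hn : l * x ≤ n) :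
    (n : ℝ) * (1 - 3 / x) ≤ kk l n * ((l : ℝ) + 1) := by
  have hl' : (6 : ℝ) ≤ l := by exact_mod_cast hl
  have hx0 : (0 : ℝ) < x := by linarith
  have hn6 : (6 : ℝ) ≤ n := by nlinarith
  have hn6' : 6 ≤ n := by exact_mod_cast hn6
  have h1 : n ≤ kk l n * (l + 2) + l + 5 := by
    unfold kk
    have h2 := Nat.div_add_mod (n - 4) (l + 2)
    have h3 := Nat.mod_lt (n - 4) (show 0 < l + 2 by omega)
    have h4 : (l + 2) * ((n - 4) / (l + 2)) = (n - 4) / (l + 2) * (l + 2) := Nat.mul_comm _ _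
    omega
  have h1' : (n : ℝ) ≤ kk l n * ((l : ℝ) + 2) + l + 5 := by exact_mod_cast h1
  have h5 : ((n : ℝ) - l - 5) * (l + 1) ≤ (kk l n * ((l : ℝ) + 1)) * (l + 2) := by
    have h6 : (n : ℝ) - l - 5 ≤ kk l n * ((l : ℝ) + 2) := by linarith
    calc ((n : ℝ) - l - 5) * (l + 1) ≤ (kk l n * ((l : ℝ) + 2)) * (l + 1) :=
          mul_le_mul_of_nonneg_right h6 (by positivity)
      _ = _ := by ring
  have h7 : (n : ℝ) * (1 - 3 / x) * (l + 2) ≤ ((n : ℝ) - l - 5) * (l + 1) := by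
    have h8 : (n : ℝ) ≤ n * (l + 2) / x := by
      rw [le_div_iff₀ hx0]
      exact mul_le_mul_of_nonneg_left (by linarith) (by positivity)
    have h9 : (l : ℝ) * (l + 2) ≤ n * (l + 2) / x := by
      rw [le_div_iff₀ hx0]
      calc (l : ℝ) * (l + 2) * x = (l * x) * (l + 2) := by ring
        _ ≤ n * (l + 2) := mul_le_mul_of_nonneg_right hn (by positivity)
    have h10 : (n : ℝ) * (1 - 3 / x) * (l + 2) = n * (l + 2) - 3 * (n * (l + 2) / x) := by
      field_simp
    rw [h10]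
    nlinarith
  have h11 : (0 : ℝ) < (l : ℝ) + 2 := by positivity
  exact le_of_mul_le_mul_right (h7.trans h5) h11

theorem cover {d : ℕ} (C : ℕ) (hd : 3 ≤ d) (j : Fin d) (p : {i // i ≠ j} → Bool) (L : Fin d → ℕ) (s l h : ℕ)
    (hl : (d : ℝ) ^ (C + 2) ≤ l) (hl6 : 6 ≤ l) (hh : (l : ℝ) * (d : ℝ) ^ (C + 2) ≤ h)
    (hn : ∀ i : {i // i ≠ j}, h ≤ lm (p i) (L i) s + 1) :
    (h : ℝ) * (2 * ∏ i : {i // i ≠ j}, ((lm (p i) (L i) s + 1 : ℕ) : ℝ)) * (1 - 1 / (d : ℝ) ^ C) ≤
      Fintype.card (CI j p L s l h) * ((l : ℝ) + 1) ^ d := by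
  have hd' : (3 : ℝ) ≤ d := by exact_mod_cast hd
  set x : ℝ := (d : ℝ) ^ (C + 2) with hx
  have hx9 : (9 : ℝ) ≤ x := by
    have h1 : (d : ℝ) ^ 2 ≤ x := pow_le_pow_right₀ (by linarith) (by omega)
    nlinarith
  have hx0 : (0 : ℝ) < x := by linarith
  have hx3 : 3 / x ≤ 1 / 3 := by
    rw [div_le_div_iff₀ hx0 (by norm_num)]
    linarith
  have hx3' : 0 ≤ 3 / x := by positivity
  have hkh := kk_bound l h x (by linarith) hl6 hl hh
  have hki : ∀ i : {i // i ≠ j}, ((lm (p i) (L i) s + 1 : ℕ) : ℝ) * (1 - 3 / x) ≤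
      kk l (lm (p i) (L i) s + 1) * ((l : ℝ) + 1) := by
    intro i
    refine kk_bound l _ x (by linarith) hl6 hl (hh.trans ?_)
    exact_mod_cast hn i
  have hcard : (Fintype.card (CI j p L s l h) : ℝ) =
      2 * (∏ i : {i // i ≠ j}, (kk l (lm (p i) (L i) s + 1) : ℝ)) * kk l h := by
    rw [Fintype.card_prod, Fintype.card_prod, Fintype.card_bool, Fintype.card_pi, Fintype.card_fin]
    push_cast
    congr 2
    refine prod_congr rfl fun i _ => ?_
    rw [Fintype.card_fin]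
  have hcd : (univ : Finset {i // i ≠ j}).card + 1 = d := by
    rw [card_univ, Fintype.card_subtype_compl, Fintype.card_fin, Fintype.card_subtype_eq]
    omega
  have hpow : ((l : ℝ) + 1) ^ d = (∏ _i : {i // i ≠ j}, ((l : ℝ) + 1)) * (l + 1) := by
    rw [prod_const, ← pow_succ, hcd]
  have hpow2 : (1 - 3 / x) ^ d = (∏ _i : {i // i ≠ j}, (1 - 3 / x)) * (1 - 3 / x) := by
    rw [prod_const, ← pow_succ, hcd]
  have hprod : (∏ i : {i // i ≠ j}, ((lm (p i) (L i) s + 1 : ℕ) : ℝ)) * (∏ _i : {i // i ≠ j}, (1 - 3 / x)) ≤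
      (∏ i : {i // i ≠ j}, (kk l (lm (p i) (L i) s + 1) : ℝ)) * ∏ _i : {i // i ≠ j}, ((l : ℝ) + 1) := by
    rw [← prod_mul_distrib, ← prod_mul_distrib]
    refine prod_le_prod (fun i _ => mul_nonneg (Nat.cast_nonneg _) (by linarith)) fun i _ => hki i
  have hber : 1 - 1 / (d : ℝ) ^ C ≤ (1 - 3 / x) ^ d := by
    have h1 := one_add_mul_le_pow (show (-2 : ℝ) ≤ -(3 / x) by linarith) d
    have h2 : (d : ℝ) * (3 / x) ≤ 1 / (d : ℝ) ^ C := by
      have h3 : x = (d : ℝ) ^ C * d * d := by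
        rw [hx, pow_add]
        ring
      rw [h3]
      have hC : (0 : ℝ) < (d : ℝ) ^ C := by positivity
      have hd0 : (0 : ℝ) < d := by linarith
      have h4 : (d : ℝ) * (3 / ((d : ℝ) ^ C * d * d)) = 3 / ((d : ℝ) ^ C * d) := by
        field_simp
      rw [h4, div_le_div_iff₀ (by positivity) hC]
      nlinarith
    have h5 : (1 - 3 / x : ℝ) = 1 + -(3 / x) := by ring
    rw [h5]
    linarith
  set N : ℝ := ∏ i : {i // i ≠ j}, ((lm (p i) (L i) s + 1 : ℕ) : ℝ) with hN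
  have hN0 : 0 ≤ N := prod_nonneg fun i _ => Nat.cast_nonneg _
  calc (h : ℝ) * (2 * N) * (1 - 1 / (d : ℝ) ^ C) ≤ (h : ℝ) * (2 * N) * (1 - 3 / x) ^ d :=
        mul_le_mul_of_nonneg_left hber (by positivity)
    _ = 2 * ((N * ∏ _i : {i // i ≠ j}, (1 - 3 / x)) * (h * (1 - 3 / x))) := by
        rw [hpow2]
        ring
    _ ≤ 2 * (((∏ i : {i // i ≠ j}, (kk l (lm (p i) (L i) s + 1) : ℝ)) * ∏ _i : {i // i ≠ j}, ((l : ℝ) + 1)) *
        (kk l h * (l + 1))) := by
        refine mul_le_mul_of_nonneg_left (mul_le_mul hprod hkh ?_ ?_) (by norm_num)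
        · exact mul_nonneg (Nat.cast_nonneg _) (by linarith)
        · exact mul_nonneg (prod_nonneg fun i _ => Nat.cast_nonneg _) (prod_nonneg fun i _ => by positivity)
    _ = Fintype.card (CI j p L s l h) * ((l : ℝ) + 1) ^ d := by
        rw [hcard, hpow]
        ring

end Pool.Agent.LC

end

/-! ### from `Lib_MP_2c424f_lc6a.B5` -/

section

/-!
# LC6a B5: the cells cover almost all of the layer

`card Cix = ∑_{k ∈ I} ∑_σ ∏_j ncl l k σ j`.  Let `x = d^(C+2)`, `x ≥ 121`.  `kk_bound` (`lc6.C10`): `kk l h * (l+1) ≥ h (1 - 3/x)`, and with `n = m j - 4 h - 3` (`l x ≤ h ≤ n`, `h x ≤ m j`):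
`kk l n * (l+1) ≥ n (1 - 3/x) ≥ (m j + 1) (1 - 8/x) (1 - 3/x)` (`4 h + 4 ≤ 8 h ≤ 8 (m j + 1)/x`).  So for every `(k, σ)`:
`(∏_j ncl) (l+1)^d ≥ h ∏_{j ≠ σ.1} (m j + 1) * (1 - 11/x)^d` and `(1 - 11/x)^d ≥ 1 - 11 d/x ≥ 1 - 1/d^C` (`one_add_mul_le_pow`; `d ≥ 11`).  `∑_σ = 2 ∑_i`.
-/

set_option autoImplicit false

open Finset Filter

namespace Pool.Agent.LC

open Pool.Agent.LO Pool.Agent.LIN Pool.Agent.THR Pool.Agent.COR

variable {d N h : ℕ} {ι : Type} (D : Bxs d N h ι)

private theorem fac_B5 (l n M : ℕ) (x : ℝ) (hx : 121 ≤ x) (hl6 : 6 ≤ l) (hxl : x ≤ l) (hh : (l : ℝ) * x ≤ h)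
    (hM : (h : ℝ) * x ≤ M) (h8 : 8 * h + 8 ≤ M) (hn : n = M - 4 * h - 3) :
    ((M : ℝ) + 1) * (1 - 11 / x) ≤ kk l n * ((l : ℝ) + 1) := by
  have hx0 : (0 : ℝ) < x := by linarith
  have hl' : (6 : ℝ) ≤ l := by exact_mod_cast hl6
  have hh1 : (1 : ℝ) ≤ h := by nlinarith
  have hnM : n + 4 * h + 3 = M := by omega
  have hnM' : (n : ℝ) + 4 * h + 3 = M := by exact_mod_cast hnM
  have hhn : (h : ℝ) ≤ n := by
    have h1 : h ≤ n := by omega
    exact_mod_cast h1
  have hk := kk_bound l n x (by linarith) hl6 hxl (hh.trans hhn)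
  refine le_trans ?_ hk
  have h1 : ((M : ℝ) + 1) * (1 - 8 / x) ≤ n := by
    have h2 : 8 * (h : ℝ) ≤ ((M : ℝ) + 1) * (8 / x) := by
      rw [mul_div_assoc', le_div_iff₀ hx0]
      nlinarith
    nlinarith
  have h3 : 3 / x ≤ 1 := by
    rw [div_le_one hx0]
    linarith
  have hM0 : (0 : ℝ) ≤ (M : ℝ) + 1 := by positivity
  have h4 : 1 - 11 / x ≤ (1 - 8 / x) * (1 - 3 / x) := by
    have h5 : 11 / x = 8 / x + 3 / x := by ring
    have h6 : 0 ≤ 8 / x * (3 / x) := by positivity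
    nlinarith
  calc ((M : ℝ) + 1) * (1 - 11 / x) ≤ ((M : ℝ) + 1) * ((1 - 8 / x) * (1 - 3 / x)) := mul_le_mul_of_nonneg_left h4 hM0
    _ = (((M : ℝ) + 1) * (1 - 8 / x)) * (1 - 3 / x) := by ring
    _ ≤ n * (1 - 3 / x) := mul_le_mul_of_nonneg_right h1 (by linarith)

private theorem one_B5 (C l : ℕ) (hd : 11 ≤ d) (hl : (d : ℝ) ^ (C + 2) ≤ l) (hl6 : 6 ≤ l) (hh : (l : ℝ) * (d : ℝ) ^ (C + 2) ≤ h)
    (hm : ∀ k ∈ D.I, ∀ i, (h : ℝ) * (d : ℝ) ^ (C + 2) ≤ D.m k i) (k : ι) (hk : k ∈ D.I) (i : Fin d) (b : Bool) :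
    (h : ℝ) * (∏ i' ∈ univ.erase i, ((D.m k i' : ℝ) + 1)) * (1 - 1 / (d : ℝ) ^ C) ≤
      (∏ j, (D.ncl l k (i, b) j : ℝ)) * ((l : ℝ) + 1) ^ d := by
  have hd' : (11 : ℝ) ≤ d := by exact_mod_cast hd
  have hx2 : (d : ℝ) ^ 2 ≤ (d : ℝ) ^ (C + 2) := pow_le_pow_right₀ (by linarith) (by omega)
  set x : ℝ := (d : ℝ) ^ (C + 2) with hx
  have hx121 : (121 : ℝ) ≤ x := by nlinarith
  have hx0 : (0 : ℝ) < x := by linarith
  have hy : 11 / x ≤ 1 := by
    rw [div_le_one hx0]
    linarith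
  have hy0 : 0 ≤ 11 / x := by positivity
  have hl' : (6 : ℝ) ≤ l := by exact_mod_cast hl6
  have key : ∀ j : Fin d, (if j = i then (h : ℝ) else (D.m k j : ℝ) + 1) * (1 - 11 / x) ≤
      (D.ncl l k (i, b) j : ℝ) * ((l : ℝ) + 1) := by
    intro j
    unfold Bxs.ncl
    by_cases hj : j = i
    · rw [if_pos hj, if_pos hj]
      refine le_trans ?_ (kk_bound l h x (by linarith) hl6 hl hh)
      refine mul_le_mul_of_nonneg_left ?_ (Nat.cast_nonneg h)
      have h1 : 3 / x ≤ 11 / x := div_le_div_of_nonneg_right (by norm_num) hx0.le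
      linarith
    · rw [if_neg hj, if_neg hj]
      exact fac_B5 l _ (D.m k j) x hx121 hl6 hl hh (hm k hk j) (D.big k hk j) rfl
  have h1 : ∏ j : Fin d, ((if j = i then (h : ℝ) else (D.m k j : ℝ) + 1) * (1 - 11 / x)) ≤
      ∏ j, ((D.ncl l k (i, b) j : ℝ) * ((l : ℝ) + 1)) := by
    refine prod_le_prod (fun j _ => mul_nonneg ?_ (by linarith)) fun j _ => key j
    split_ifs <;> positivity
  rw [prod_mul_distrib, prod_mul_distrib, prod_const, prod_const, card_univ, Fintype.card_fin] at h1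
  have h2 : ∏ j : Fin d, (if j = i then (h : ℝ) else (D.m k j : ℝ) + 1) =
      (h : ℝ) * ∏ i' ∈ univ.erase i, ((D.m k i' : ℝ) + 1) := by
    rw [← mul_prod_erase univ _ (mem_univ i), if_pos rfl]
    congr 1
    refine prod_congr rfl fun j hj => ?_
    rw [if_neg (ne_of_mem_erase hj)]
  rw [h2] at h1
  refine le_trans ?_ h1
  refine mul_le_mul_of_nonneg_left ?_ (mul_nonneg (Nat.cast_nonneg h) (prod_nonneg fun j _ => by positivity))
  have h3 := one_add_mul_le_pow (a := -(11 / x)) (by linarith) d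
  have h4 : 1 - 1 / (d : ℝ) ^ C ≤ 1 + d * (-(11 / x)) := by
    have h5 : (d : ℝ) * (11 / x) ≤ 1 / (d : ℝ) ^ C := by
      rw [mul_div_assoc', div_le_div_iff₀ hx0 (by positivity), hx, pow_add]
      have h6 : 0 < (d : ℝ) ^ C := by positivity
      have h7 : (d : ℝ) * 11 ≤ (d : ℝ) ^ 2 := by nlinarith
      have h8 := mul_le_mul_of_nonneg_right h7 h6.le
      linarith
    linarith
  refine h4.trans (h3.trans (le_of_eq ?_))
  congr 1

theorem cells_cover (C l : ℕ) (hd : 11 ≤ d) (hl : (d : ℝ) ^ (C + 2) ≤ l) (hl6 : 6 ≤ l) (hh : (l : ℝ) * (d : ℝ) ^ (C + 2) ≤ h)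
    (hm : ∀ k ∈ D.I, ∀ i, (h : ℝ) * (d : ℝ) ^ (C + 2) ≤ D.m k i) :
    (h : ℝ) * D.YY * (1 - 1 / (d : ℝ) ^ C) ≤ Fintype.card (D.Cix l) * ((l : ℝ) + 1) ^ d := by
  have hcard : (Fintype.card (D.Cix l) : ℝ) = ∑ k ∈ D.I, ∑ i : Fin d, ∑ b : Bool, ∏ j, (D.ncl l k (i, b) j : ℝ) := by
    rw [Fintype.card_sigma]
    push_cast
    rw [Fintype.sum_prod_type, ← sum_coe_sort D.I]
    refine sum_congr rfl fun k _ => ?_
    rw [← Fintype.sum_prod_type (f := fun σ : Fin d × Bool => ∏ j, (D.ncl l k σ j : ℝ))]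
    refine sum_congr rfl fun σ _ => ?_
    rw [Fintype.card_pi]
    push_cast
    exact prod_congr rfl fun j _ => by rw [Fintype.card_fin]
  rw [hcard, Bxs.YY, mul_sum, sum_mul, sum_mul]
  refine sum_le_sum fun k hk => ?_
  rw [mul_sum, mul_sum, sum_mul, sum_mul]
  refine sum_le_sum fun i _ => ?_
  rw [sum_mul]
  have h1 := one_B5 D C l hd hl hl6 hh hm k hk i
  rw [Fintype.sum_bool]
  have h2 := h1 true
  have h3 := h1 false
  linarith

end Pool.Agent.LC

end

/-! ### from `Lib_MP_2c424f_lc6a.B2` -/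

section

/-!
# LC6a B2: neighbours of slab points; the mirror image

* `slb_nb`: let `y` differ from `x` in the direction `i` by `1`.  `i = σ.1`: `|dp y - dp x| = 1`, the other coordinates are `okc`.  `i ≠ σ.1`: `dp y = dp x`; if `y i` is not
  `okc` then `y i = a i + 2 h + 1` or `y i + 2 h + 1 = a i + m i`, and `RR y` (with the directions `σ.1`, `i`; `x (σ.1)` is within `h` of the face `σ`).
* `mir_val`: the values do not exceed `N` (`lo`, `hi`, `dp ≥ -h`).
* `mir_adj`: both points are changed in the direction `σ.1` by the same reflection.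
* `mir_ev`: `2 a - x` and `2 (a + m) - x` have the parity of `x`; only one summand of `∑ i, (x i).val` changes.
-/

set_option autoImplicit false

open Finset Filter

namespace Pool.Agent.LC

open Pool.Agent.LO Pool.Agent.LIN Pool.Agent.THR Pool.Agent.COR

variable {d N h : ℕ} {ι : Type} (D : Bxs d N h ι)

theorem slb_nb {k : ι} (hk : k ∈ D.I) {σ : Stp d} {x y : BxV d N} (hx : D.slb k σ x) (h : (bG d N).Adj x y)
    (hR : ¬ D.RR y) : (∀ i, i ≠ σ.1 → D.okc k i y) ∧ |D.dp k σ y - D.dp k σ x| ≤ 1 := by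
  obtain ⟨i, hi1, hi2⟩ := h
  have hdif : ((y σ.1).val : ℤ) - (x σ.1).val ≤ 1 ∧ -1 ≤ ((y σ.1).val : ℤ) - (x σ.1).val := by
    rcases eq_or_ne σ.1 i with e | e
    · rw [e]
      omega
    · rw [hi1 _ e]
      omega
  constructor
  · intro i' hi'
    have h1 := hx.1 i' hi'
    unfold Bxs.okc at h1 ⊢
    rcases eq_or_ne i' i with e | e
    · by_contra hcon
      refine hR ⟨k, hk, σ.1, i', fun e' => hi' e'.symm, ?_, Or.inr ⟨?_, ?_⟩⟩
      · intro j hj hj'
        have h2 := hx.1 j hj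
        unfold Bxs.okc at h2
        rw [← hi1 j (fun e' => hj' (e'.trans e.symm))]
        omega
      · have h3 : σ.1 ≠ i := fun e' => hi' (e.trans e'.symm)
        rw [← hi1 σ.1 h3]
        have h4 := hx.2
        unfold Bxs.dp at h4
        by_cases hσ : σ.2 = true
        · rw [if_pos hσ] at h4
          right
          omega
        · rw [if_neg hσ] at h4
          left
          omega
      · rw [e] at hcon h1 ⊢
        omega
    · rw [← hi1 i' e]
      exact h1
  · unfold Bxs.dp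
    rw [abs_le]
    by_cases hσ : σ.2 = true
    · rw [if_pos hσ, if_pos hσ]
      omega
    · rw [if_neg hσ, if_neg hσ]
      omega

private theorem B2_val {k : ι} (hk : k ∈ D.I) {σ : Stp d} {x : BxV d N} (hx : D.slb k σ x) (j : Fin d) :
    ((D.mir k σ x) j).val = if j = σ.1 then
      (if σ.2 then 2 * (D.a k j + D.m k j) - (x j).val else 2 * D.a k j - (x j).val) else (x j).val := by
  unfold Bxs.mir
  by_cases hj : j = σ.1
  · rw [if_pos hj, if_pos hj, Fin.val_ofNat]
    refine Nat.mod_eq_of_lt ?_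
    have h1 := D.lo k hk j
    have h2 := D.hi k hk j
    have h3 := hx.2
    unfold Bxs.dp at h3
    rw [← hj] at h3
    by_cases hσ : σ.2 = true
    · rw [if_pos hσ] at h3 ⊢
      omega
    · rw [if_neg hσ] at h3 ⊢
      omega
  · rw [if_neg hj, if_neg hj]

theorem mir_slb {k : ι} (hk : k ∈ D.I) {σ : Stp d} {x : BxV d N} (hx : D.slb k σ x) :
    D.slb k σ (D.mir k σ x) ∧ D.dp k σ (D.mir k σ x) = -D.dp k σ x ∧ D.mir k σ (D.mir k σ x) = x := by
  have hv := B2_val D hk hx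
  have h1 := D.lo k hk σ.1
  have h2 := D.hi k hk σ.1
  have h3 := hx.2
  have hdp : D.dp k σ (D.mir k σ x) = -D.dp k σ x := by
    unfold Bxs.dp at h3 ⊢
    rw [hv σ.1, if_pos rfl]
    by_cases hσ : σ.2 = true
    · simp only [if_pos hσ] at h3 ⊢
      omega
    · simp only [if_neg hσ] at h3 ⊢
      omega
  have hs : D.slb k σ (D.mir k σ x) := by
    refine ⟨fun i hi => ?_, ?_, ?_⟩
    · have h4 := hx.1 i hi
      unfold Bxs.okc at h4 ⊢
      rw [hv i, if_neg hi]
      exact h4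
    · rw [hdp]
      omega
    · rw [hdp]
      omega
  refine ⟨hs, hdp, ?_⟩
  funext j
  apply Fin.ext
  rw [B2_val D hk hs j, hv j]
  by_cases hj : j = σ.1
  · rw [if_pos hj, if_pos hj]
    unfold Bxs.dp at h3
    rw [← hj] at h1 h2 h3
    by_cases hσ : σ.2 = true
    · simp only [if_pos hσ] at h3 ⊢
      omega
    · simp only [if_neg hσ] at h3 ⊢
      omega
  · rw [if_neg hj, if_neg hj]

private theorem B2_adj {k : ι} (hk : k ∈ D.I) {σ : Stp d} {x y : BxV d N} (hx : D.slb k σ x) (hy : D.slb k σ y)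
    (h : (bG d N).Adj x y) : (bG d N).Adj (D.mir k σ x) (D.mir k σ y) := by
  obtain ⟨i, hi1, hi2⟩ := h
  have hvx := B2_val D hk hx
  have hvy := B2_val D hk hy
  refine ⟨i, fun j hj => ?_, ?_⟩
  · apply Fin.ext
    rw [hvx j, hvy j, hi1 j hj]
  · rw [hvx i, hvy i]
    by_cases hi : i = σ.1
    · rw [if_pos hi, if_pos hi]
      have h1 := D.lo k hk i
      have h2 := D.hi k hk i
      have h3 := hx.2
      have h4 := hy.2
      unfold Bxs.dp at h3 h4
      rw [← hi] at h3 h4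
      by_cases hσ : σ.2 = true
      · simp only [if_pos hσ] at h3 h4 ⊢
        omega
      · simp only [if_neg hσ] at h3 h4 ⊢
        omega
    · rw [if_neg hi, if_neg hi]
      exact hi2

theorem mir_adj {k : ι} (hk : k ∈ D.I) {σ : Stp d} {x y : BxV d N} (hx : D.slb k σ x) (hy : D.slb k σ y) :
    (bG d N).Adj (D.mir k σ x) (D.mir k σ y) ↔ (bG d N).Adj x y := by
  refine ⟨fun h' => ?_, B2_adj D hk hx hy⟩
  obtain ⟨sx, -, ex⟩ := mir_slb D hk hx
  obtain ⟨sy, -, ey⟩ := mir_slb D hk hy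
  have h1 := B2_adj D hk sx sy h'
  rwa [ex, ey] at h1

theorem mir_ev {k : ι} (hk : k ∈ D.I) {σ : Stp d} {x : BxV d N} (hx : D.slb k σ x) : bev (D.mir k σ x) ↔ bev x := by
  have hv := B2_val D hk hx
  unfold bev
  rw [← Finset.add_sum_erase univ (fun i => ((D.mir k σ x) i).val) (mem_univ σ.1),
    ← Finset.add_sum_erase univ (fun i => (x i).val) (mem_univ σ.1)]
  have h1 : ∑ i ∈ univ.erase σ.1, ((D.mir k σ x) i).val = ∑ i ∈ univ.erase σ.1, (x i).val := by
    refine Finset.sum_congr rfl fun i hi => ?_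
    rw [hv i, if_neg (Finset.ne_of_mem_erase hi)]
  have h2 : Even ((D.mir k σ x) σ.1).val ↔ Even (x σ.1).val := by
    rw [hv σ.1, if_pos rfl, Nat.even_iff, Nat.even_iff]
    have h3 := D.lo k hk σ.1
    have h4 := D.hi k hk σ.1
    have h5 := hx.2
    unfold Bxs.dp at h5
    by_cases hσ : σ.2 = true
    · simp only [if_pos hσ] at h5 ⊢
      omega
    · simp only [if_neg hσ] at h5 ⊢
      omega
  rw [h1, Nat.even_add, Nat.even_add, h2]

/-- neighbours in a slab: the coordinates which are not changed -/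
theorem slb_foot {k : ι} {σ : Stp d} {x y z : BxV d N} (h : (bG d N).Adj x y) (h' : (bG d N).Adj x z)
    (h1 : D.dp k σ y ≠ D.dp k σ x) (h2 : D.dp k σ y = D.dp k σ z) : y = z := by
  obtain ⟨i, hi1, hi2⟩ := h
  obtain ⟨i', hi1', hi2'⟩ := h'
  have e : σ.1 = i := by
    by_contra hne
    apply h1
    unfold Bxs.dp
    rw [hi1 σ.1 hne]
  have e' : σ.1 = i' := by
    by_contra hne
    apply h1
    rw [h2]
    unfold Bxs.dp
    rw [hi1' σ.1 hne]
  funext j
  rcases eq_or_ne j σ.1 with rfl | hj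
  · apply Fin.ext
    unfold Bxs.dp at h2
    by_cases hσ : σ.2 = true
    · simp only [if_pos hσ] at h2
      omega
    · simp only [if_neg hσ] at h2
      omega
  · rw [← hi1 j (fun h => hj (h.trans e.symm)), ← hi1' j (fun h => hj (h.trans e'.symm))]

end Pool.Agent.LC

end

/-! ### from `Lib_MP_2c424f_lc5.V15` -/

section

/-!
# Part V, V15: the number of points which are not certified

Points of `At`: (a) outside all cells: `|Λ| - |ι| (l+1)^d` (`Cells.inj`);  (b) `κ j z` with `¬ inn 4 z`: at most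
`8 d (l+1)^{d-1}` for each `j` (some coordinate is in `{0,1,2,3} ∪ {l-3,..,l}`);  (c) `y = κ j z` odd with `inn 4 z`, not `cert`:
the degree conditions hold (`nb_cell`, `card_nb_box`), so `TyO` fails at `y` for `Φ` or `Ψ`, or `TyE` fails for `Φ` or `Ψ` at a neighbour
`x = κ j z'`, `(bG d l).Adj z z'`, `inn 3 z'`.  By `TyO_cell`, `TyE_cell` one of `z`, `z'` is in
`E_j(Φ) := {z : inn 3 z ∧ ¬ Ty d (bG d l) bev A (Φ ∘ κ j) z}` or in `E_j(Ψ)`; each element of these sets serves at most `2d + 1` points `z`.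
-/

set_option autoImplicit false

open Finset Filter

namespace Pool.Agent.LC

open Pool.Agent.LO Pool.Agent.LIN Pool.Agent.THR Pool.Agent.COR

theorem V15_inn_mono {d l m m' : ℕ} (h : m' ≤ m) {u : BxV d l} (hu : inn m u) : inn m' u := fun i => by
  have := hu i
  omega

open scoped Classical in
theorem V15_slab {d l : ℕ} (i : Fin d) (B : Finset (Fin (l + 1))) :
    (univ.filter fun z : BxV d l => z i ∈ B).card = B.card * (l + 1) ^ (d - 1) := by
  have h1 : (univ.filter fun z : BxV d l => z i ∈ B) =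
      Fintype.piFinset (fun j : Fin d => if j = i then B else univ) := by
    ext z
    rw [Finset.mem_filter, Fintype.mem_piFinset]
    constructor
    · rintro ⟨_, hz⟩ j
      by_cases hj : j = i
      · subst hj
        rw [if_pos rfl]
        exact hz
      · rw [if_neg hj]
        exact Finset.mem_univ _
    · intro h
      have := h i
      rw [if_pos rfl] at this
      exact ⟨Finset.mem_univ _, this⟩
  rw [h1, Fintype.card_piFinset, ← Finset.mul_prod_erase univ _ (Finset.mem_univ i), if_pos rfl]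
  congr 1
  have h2 : ∀ j ∈ (univ : Finset (Fin d)).erase i, (if j = i then B else univ).card = l + 1 := by
    intro j hj
    rw [if_neg (Finset.ne_of_mem_erase hj), Finset.card_univ, Fintype.card_fin]
  rw [Finset.prod_congr rfl h2, Finset.prod_const, Finset.card_erase_of_mem (Finset.mem_univ i), Finset.card_univ,
    Fintype.card_fin]

open scoped Classical in
theorem V15_B {l : ℕ} : (univ.filter fun v : Fin (l + 1) => v.val < 4 ∨ l < v.val + 4).card ≤ 8 := by
  have h1 : (univ.filter fun v : Fin (l + 1) => v.val < 4 ∨ l < v.val + 4) ⊆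
      (univ.filter fun v : Fin (l + 1) => v.val < 4) ∪ (univ.filter fun v : Fin (l + 1) => l < v.val + 4) := by
    intro v hv
    rw [Finset.mem_filter] at hv
    rw [Finset.mem_union, Finset.mem_filter, Finset.mem_filter]
    rcases hv.2 with h | h
    · exact Or.inl ⟨Finset.mem_univ _, h⟩
    · exact Or.inr ⟨Finset.mem_univ _, h⟩
  have h2 : (univ.filter fun v : Fin (l + 1) => v.val < 4).card ≤ (range 4).card := by
    refine Finset.card_le_card_of_injOn (fun v => v.val) ?_ ?_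
    · intro v hv
      have := (Finset.mem_filter.1 (Finset.mem_coe.1 hv)).2
      exact Finset.mem_coe.2 (Finset.mem_range.2 this)
    · intro v _ w _ h
      exact Fin.ext h
  have h3 : (univ.filter fun v : Fin (l + 1) => l < v.val + 4).card ≤ (range 4).card := by
    refine Finset.card_le_card_of_injOn (fun v => l - v.val) ?_ ?_
    · intro v hv
      have := (Finset.mem_filter.1 (Finset.mem_coe.1 hv)).2
      refine Finset.mem_coe.2 (Finset.mem_range.2 ?_)
      show l - v.val < 4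
      omega
    · intro v _ w _ h
      have hv := v.isLt
      have hw := w.isLt
      have h' : l - v.val = l - w.val := h
      exact Fin.ext (by omega)
  rw [Finset.card_range] at h2 h3
  calc _ ≤ _ := Finset.card_le_card h1
    _ ≤ _ := Finset.card_union_le _ _
    _ ≤ 8 := by omega

open scoped Classical in
theorem V15_bd {d l : ℕ} : (univ.filter fun z : BxV d l => ¬ inn 4 z).card ≤ 8 * d * (l + 1) ^ (d - 1) := by
  have h1 : (univ.filter fun z : BxV d l => ¬ inn 4 z) ⊆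
      univ.biUnion fun i : Fin d => univ.filter fun z : BxV d l =>
        z i ∈ (univ.filter fun v : Fin (l + 1) => v.val < 4 ∨ l < v.val + 4) := by
    intro z hz
    rw [Finset.mem_filter] at hz
    have h := hz.2
    unfold inn at h
    push Not at h
    obtain ⟨i, hi⟩ := h
    rw [Finset.mem_biUnion]
    refine ⟨i, Finset.mem_univ _, ?_⟩
    rw [Finset.mem_filter, Finset.mem_filter]
    refine ⟨Finset.mem_univ _, Finset.mem_univ _, ?_⟩
    by_cases h4 : 4 ≤ (z i).val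
    · exact Or.inr (hi h4)
    · exact Or.inl (by omega)
  calc _ ≤ _ := Finset.card_le_card h1
    _ ≤ _ := Finset.card_biUnion_le
    _ = ∑ i : Fin d, (univ.filter fun v : Fin (l + 1) => v.val < 4 ∨ l < v.val + 4).card * (l + 1) ^ (d - 1) :=
        Finset.sum_congr rfl fun i _ => V15_slab i _
    _ = d * ((univ.filter fun v : Fin (l + 1) => v.val < 4 ∨ l < v.val + 4).card * (l + 1) ^ (d - 1)) := by
        rw [Finset.sum_const, Finset.card_univ, Fintype.card_fin, smul_eq_mul]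
    _ ≤ d * (8 * (l + 1) ^ (d - 1)) := by
        gcongr
        exact V15_B
    _ = 8 * d * (l + 1) ^ (d - 1) := by ring

open scoped Classical in
theorem V15_nbs {d l : ℕ} (E : Finset (BxV d l)) :
    (E.biUnion fun z' => insert z' (nb (bG d l) z')).card ≤ (2 * d + 1) * E.card := by
  calc _ ≤ _ := Finset.card_biUnion_le
    _ ≤ ∑ _z' ∈ E, (2 * d + 1) := by
        refine Finset.sum_le_sum fun z' _ => ?_
        refine (Finset.card_insert_le _ _).trans ?_
        have := card_nb_box z'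
        omega
    _ = (2 * d + 1) * E.card := by rw [Finset.sum_const, smul_eq_mul, mul_comm]

open scoped Classical in
theorem At_le {Λ ι : Type} [Fintype Λ] [DecidableEq Λ] [Fintype ι] {d l q : ℕ} {G : SimpleGraph Λ} {ev : Λ → Prop}
    {κ : ι → BxV d l → Λ} (hC : Cells d l G ev κ) (A : Finset (Fin q)) (Φ Ψ : Λ → Fin q) :
    ((At d G ev A Φ Ψ).card : ℝ) ≤
      ((Fintype.card Λ : ℝ) - Fintype.card ι * ((l : ℝ) + 1) ^ d) +
      Fintype.card ι * (8 * d * ((l : ℝ) + 1) ^ (d - 1)) +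
      (2 * d + 1) * ∑ j : ι,
        (((univ.filter fun z : BxV d l => inn 3 z ∧ ¬ Ty d (bG d l) bev A (fun w => Φ (κ j w)) z).card : ℝ) +
          ((univ.filter fun z : BxV d l => inn 3 z ∧ ¬ Ty d (bG d l) bev A (fun w => Ψ (κ j w)) z).card : ℝ)) := by
  set EΦ : ι → Finset (BxV d l) := fun j =>
    univ.filter fun z : BxV d l => inn 3 z ∧ ¬ Ty d (bG d l) bev A (fun w => Φ (κ j w)) z with hEΦ
  set EΨ : ι → Finset (BxV d l) := fun j =>
    univ.filter fun z : BxV d l => inn 3 z ∧ ¬ Ty d (bG d l) bev A (fun w => Ψ (κ j w)) z with hEΨ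
  set I : Finset Λ := (univ : Finset (ι × BxV d l)).image fun p => κ p.1 p.2 with hI
  have hIc : I.card = Fintype.card ι * (l + 1) ^ d := by
    rw [hI, Finset.card_image_of_injective, Finset.card_univ, Fintype.card_prod]
    · congr 1
      show Fintype.card (Fin d → Fin (l + 1)) = _
      rw [Fintype.card_fun, Fintype.card_fin, Fintype.card_fin]
    · rintro ⟨j, u⟩ ⟨j', u'⟩ h
      obtain ⟨h1, h2⟩ := hC.inj j j' u u' h
      subst h1 h2
      rfl
  have hcov : At d G ev A Φ Ψ ⊆ (Iᶜ ∪ (univ : Finset ι).biUnion fun j =>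
      ((univ.filter fun z : BxV d l => ¬ inn 4 z).image (κ j))) ∪ (univ : Finset ι).biUnion fun j =>
      (((EΦ j).biUnion fun z' => insert z' (nb (bG d l) z')) ∪
        ((EΨ j).biUnion fun z' => insert z' (nb (bG d l) z'))).image (κ j) := by
    intro y hy
    rw [At, Finset.mem_filter] at hy
    obtain ⟨_, hodd, hcert⟩ := hy
    by_cases hyI : y ∈ I
    · rw [hI, Finset.mem_image] at hyI
      obtain ⟨⟨j, z⟩, _, rfl⟩ := hyI
      by_cases h4 : inn 4 z
      · refine Finset.mem_union_right _ (Finset.mem_biUnion.2 ⟨j, Finset.mem_univ _, ?_⟩)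
        refine Finset.mem_image_of_mem _ ?_
        by_contra hno
        apply hcert
        have hno' : ∀ z' : BxV d l, (z = z' ∨ (bG d l).Adj z' z) → z' ∉ EΦ j ∧ z' ∉ EΨ j := by
          intro z' hz'
          have hmem : z ∈ insert z' (nb (bG d l) z') := by
            rw [Finset.mem_insert, nb, Finset.mem_filter]
            exact hz'.imp id fun h => ⟨Finset.mem_univ _, h⟩
          constructor
          · intro h
            exact hno (Finset.mem_union_left _ (Finset.mem_biUnion.2 ⟨z', h, hmem⟩))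
          · intro h
            exact hno (Finset.mem_union_right _ (Finset.mem_biUnion.2 ⟨z', h, hmem⟩))
        have hTy : ∀ z' : BxV d l, (z = z' ∨ (bG d l).Adj z' z) → inn 3 z' →
            Ty d (bG d l) bev A (fun w => Φ (κ j w)) z' ∧ Ty d (bG d l) bev A (fun w => Ψ (κ j w)) z' := by
          intro z' hz' h3
          obtain ⟨ha, hb⟩ := hno' z' hz'
          constructor
          · by_contra hn
            exact ha (Finset.mem_filter.2 ⟨Finset.mem_univ _, h3, hn⟩)
          · by_contra hn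
            exact hb (Finset.mem_filter.2 ⟨Finset.mem_univ _, h3, hn⟩)
        have hcard : ∀ z' : BxV d l, inn 1 z' → (nb G (κ j z')).card ≤ 2 * d := by
          intro z' h1
          rw [nb_cell hC j h1]
          exact Finset.card_image_le.trans (card_nb_box z')
        have h3 : inn 3 z := V15_inn_mono (by norm_num) h4
        have h2 : inn 2 z := V15_inn_mono (by norm_num) h4
        have h1 : inn 1 z := V15_inn_mono (by norm_num) h4
        obtain ⟨hTΦ, hTΨ⟩ := hTy z (Or.inl rfl) h3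
        refine ⟨⟨(TyO_cell hC A Φ j h2).2 hTΦ.1, (TyO_cell hC A Ψ j h2).2 hTΨ.1, hcard z h1⟩, ?_⟩
        intro x hx
        rw [nb_cell hC j h1, Finset.mem_image] at hx
        obtain ⟨z', hz', rfl⟩ := hx
        rw [nb, Finset.mem_filter] at hz'
        have hz3 : inn 3 z' := inn_adj hz'.2 h4
        have hz1 : inn 1 z' := V15_inn_mono (by norm_num) hz3
        obtain ⟨hTΦ', hTΨ'⟩ := hTy z' (Or.inr hz'.2.symm) hz3
        exact ⟨(TyE_cell hC A Φ j hz1).2 hTΦ'.2, (TyE_cell hC A Ψ j hz1).2 hTΨ'.2, hcard z' hz1⟩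
      · refine Finset.mem_union_left _ (Finset.mem_union_right _ (Finset.mem_biUnion.2 ⟨j, Finset.mem_univ _, ?_⟩))
        exact Finset.mem_image_of_mem _ (Finset.mem_filter.2 ⟨Finset.mem_univ _, h4⟩)
    · exact Finset.mem_union_left _ (Finset.mem_union_left _ (Finset.mem_compl.2 hyI))
  have hc1 : ((Iᶜ).card : ℝ) = (Fintype.card Λ : ℝ) - Fintype.card ι * ((l : ℝ) + 1) ^ d := by
    have h := Finset.card_add_card_compl I
    have h' : ((Iᶜ).card : ℝ) = (Fintype.card Λ : ℝ) - (I.card : ℝ) := by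
      rw [← h]
      push_cast
      ring
    rw [h', hIc]
    push_cast
    ring
  have hc2 : (((univ : Finset ι).biUnion fun j =>
      ((univ.filter fun z : BxV d l => ¬ inn 4 z).image (κ j))).card : ℝ) ≤
      Fintype.card ι * (8 * d * ((l : ℝ) + 1) ^ (d - 1)) := by
    have h : ((univ : Finset ι).biUnion fun j =>
        ((univ.filter fun z : BxV d l => ¬ inn 4 z).image (κ j))).card ≤
        Fintype.card ι * (8 * d * (l + 1) ^ (d - 1)) := by
      calc _ ≤ _ := Finset.card_biUnion_le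
        _ ≤ ∑ _j : ι, 8 * d * (l + 1) ^ (d - 1) := by
            refine Finset.sum_le_sum fun j _ => ?_
            exact Finset.card_image_le.trans V15_bd
        _ = _ := by rw [Finset.sum_const, Finset.card_univ, smul_eq_mul]
    exact_mod_cast h
  have hc3 : (((univ : Finset ι).biUnion fun j =>
      (((EΦ j).biUnion fun z' => insert z' (nb (bG d l) z')) ∪
        ((EΨ j).biUnion fun z' => insert z' (nb (bG d l) z'))).image (κ j)).card : ℝ) ≤
      (2 * d + 1) * ∑ j : ι, (((EΦ j).card : ℝ) + ((EΨ j).card : ℝ)) := by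
    have h : ((univ : Finset ι).biUnion fun j =>
        (((EΦ j).biUnion fun z' => insert z' (nb (bG d l) z')) ∪
          ((EΨ j).biUnion fun z' => insert z' (nb (bG d l) z'))).image (κ j)).card ≤
        (2 * d + 1) * ∑ j : ι, ((EΦ j).card + (EΨ j).card) := by
      calc _ ≤ _ := Finset.card_biUnion_le
        _ ≤ ∑ j : ι, (2 * d + 1) * ((EΦ j).card + (EΨ j).card) := by
            refine Finset.sum_le_sum fun j _ => ?_
            refine Finset.card_image_le.trans ((Finset.card_union_le _ _).trans ?_)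
            rw [mul_add]
            exact add_le_add (V15_nbs _) (V15_nbs _)
        _ = _ := by rw [Finset.mul_sum]
    exact_mod_cast h
  have hfin : ((At d G ev A Φ Ψ).card : ℝ) ≤ ((Iᶜ).card : ℝ) + (((univ : Finset ι).biUnion fun j =>
      ((univ.filter fun z : BxV d l => ¬ inn 4 z).image (κ j))).card : ℝ) + (((univ : Finset ι).biUnion fun j =>
      (((EΦ j).biUnion fun z' => insert z' (nb (bG d l) z')) ∪
        ((EΨ j).biUnion fun z' => insert z' (nb (bG d l) z'))).image (κ j)).card : ℝ) := by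
    have h := (Finset.card_le_card hcov).trans
      ((Finset.card_union_le _ _).trans (Nat.add_le_add_right (Finset.card_union_le _ _) _))
    exact_mod_cast h
  rw [hc1] at hfin
  linarith

end Pool.Agent.LC

end

/-! ### from `Lib_MP_2c424f_lc1.B1` -/

section

/-!
# LC1 B1: adapted weights at every level

THR N3 (`iso_adapt`) is the case `K = 4`; its proof uses `iso` at the level `5`.  Copy it with `iso` at the level `K + 1`, `C` its exponent, `K₂ = C + K + 3`,
`B = d^K₂`, `s = K₂ + 2K + 20`, `t = 2s`, net of functions with at most `2N/B` nonzero values.  `C₄` comes from `iso` and does not depend on `K`.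
-/

set_option autoImplicit false

open Finset Filter

namespace Pool.Agent.LC

open Pool.Agent.LO Pool.Agent.LIN Pool.Agent.THR

/-- clipping to `[-1,1]` -/
private noncomputable def B1_clip (x : ℝ) : ℝ := max (-1) (min 1 x)

private theorem B1_clip_abs (x : ℝ) : |B1_clip x| ≤ 1 := by
  unfold B1_clip
  rw [abs_le]
  exact ⟨le_max_left _ _, max_le (by norm_num) (min_le_left _ _)⟩

private theorem B1_clip_sub (x y : ℝ) (hy : |y| ≤ 1) : |B1_clip x - y| ≤ |x - y| := by
  unfold B1_clip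
  obtain ⟨h1, h2⟩ := abs_le.1 hy
  rcases le_total x 1 with hx | hx
  · rw [min_eq_right hx]
    rcases le_total (-1) x with h3 | h3
    · rw [max_eq_right h3]
    · rw [max_eq_left h3, abs_of_nonpos (by linarith), abs_of_nonpos (by linarith)]
      linarith
  · rw [min_eq_left hx, max_eq_right (by norm_num), abs_of_nonneg (by linarith),
      abs_of_nonneg (by linarith)]
    linarith

/-- value of a code -/
private noncomputable def B1_val (a : Fin 3) : ℝ :=
  if a.val = 0 then 0 else if a.val = 1 then 1 else -1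

/-- code of a value -/
private noncomputable def B1_code (x : ℝ) : Fin 3 := by
  classical exact if x = 0 then 0 else if x = 1 then 1 else 2

private theorem B1_val_code (x : ℝ) (h : x = 0 ∨ x = 1 ∨ x = -1) : B1_val (B1_code x) = x := by
  unfold B1_val B1_code
  rcases h with h | h | h
  · subst h; simp
  · subst h; simp
  · subst h; norm_num

private theorem B1_code_zero : B1_code 0 = 0 := by
  unfold B1_code; simp

/-- the weight of a code function -/
private noncomputable def B1_w {d k : ℕ} (t B : ℕ) (η : Site d k → Fin 3) (u : Site d k) : ℝ :=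
  B1_clip (B * PP^[t] (fun x => B1_val (η x)) u)

private theorem B1_sg_abs {d k q : ℕ} (c c' : Fin q) (f : Site d k → Fin q) (v : Site d k) :
    |sg c c' f v| ≤ 1 := by
  unfold THR.sg
  split_ifs <;> norm_num

open scoped Classical in
private theorem B1_det {d k q : ℕ} (hd : 1 ≤ d) (hk : 1 ≤ k) (t B : ℕ) (ht : Even t) (hB : 1 ≤ B)
    (κ : ℝ) (hκ0 : 0 < κ) (hκ : ∀ u y : Site d k, Kt t u y ≤ κ) (C₄ e : ℝ) (hC₄ : 0 ≤ C₄)
    (he : 0 ≤ e) (f : Site d k → Fin q)
    (H : ∀ (η : Site d k → Fin 3),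
      (((univ.filter fun x => (η x).val ≠ 0).card : ℝ) ≤ 2 * NN d k / B) →
      ∀ (b : Bool) (c c' : Fin q) (σ τ : Stp d), c ≠ c' →
       ∑ u ∈ cls b d k, B1_w t B η u * (sg c c' f (u + sv σ) - sg c c' f (u + sv τ)) ≤
        C₄ / (q : ℝ) ^ 2 * Wt b (B1_w t B η) + e)
    (b : Bool) (c c' : Fin q) (σ τ : Stp d) (φ : Site d k → ℝ)
    (hφ : ∀ x, φ x = 0 ∨ φ x = 1 ∨ φ x = -1) (hφb : ∀ x, x ∉ cls b d k → φ x = 0) :
    ∑ x, φ x * (PP^[t] (sg c c' f) (x + sv σ) - PP^[t] (sg c c' f) (x + sv τ)) ≤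
      C₄ / (q : ℝ) ^ 2 * ∑ x, |φ x| +
        ((C₄ / (q : ℝ) ^ 2 + 2) * (2 * NN d k * Real.sqrt (B * κ)) + e) := by
  have hNN : 0 ≤ NN d k := by unfold NN; positivity
  by_cases hcc : c = c'
  · have h0 : sg c c' f = fun _ => (0 : ℝ) := by
      funext v
      unfold THR.sg
      rw [hcc]; ring
    have h1 : ∀ x, PP^[t] (sg c c' f) x = 0 := fun x => by
      rw [h0]; exact PPt_const hd t 0 x
    have h2 : ∑ x, φ x * (PP^[t] (sg c c' f) (x + sv σ) - PP^[t] (sg c c' f) (x + sv τ)) = 0 := by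
      refine Finset.sum_eq_zero fun x _ => ?_
      rw [h1, h1]; ring
    rw [h2]
    have : 0 ≤ ∑ x, |φ x| := Finset.sum_nonneg fun x _ => abs_nonneg _
    positivity
  have hφ1 : ∀ x, |φ x| ≤ 1 := fun x => by
    rcases hφ x with h | h | h <;> rw [h] <;> norm_num
  obtain ⟨R, hR1, hR2⟩ := net_exists hd t B hB κ hκ0 hκ φ hφ1
  set E0 : ℝ := 2 * NN d k * Real.sqrt (B * κ) with hE0
  -- the code
  set η : Site d k → Fin 3 := fun x => if x ∈ R then B1_code (φ x) else 0 with hη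
  have hval : (fun x => B1_val (η x)) = fun x => if x ∈ R then φ x else 0 := by
    funext x
    simp only [hη]
    by_cases hx : x ∈ R
    · simp only [hx, if_true]; exact B1_val_code _ (hφ x)
    · simp only [hx, if_false]; simp [B1_val]
  have hsupp : (((univ.filter fun x => (η x).val ≠ 0).card : ℝ) ≤ 2 * NN d k / B) := by
    refine le_trans ?_ hR1
    have : (univ.filter fun x => (η x).val ≠ 0) ⊆ R := by
      intro x hx
      by_contra h
      simp [hη, h] at hx
    exact_mod_cast Finset.card_le_card this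
  have hH := H η hsupp b c c' σ τ hcc
  -- abbreviations
  set w := B1_w t B η with hw
  set P : Site d k → ℝ := PP^[t] φ with hP
  have hPabs : ∀ u, |P u| ≤ 1 := fun u => by
    refine (PPt_abs t φ u).trans ?_
    refine (PPt_mono t hφ1 u).trans ?_
    rw [PPt_const hd]
  have hwP : ∑ u, |w u - P u| ≤ E0 := by
    refine le_trans (Finset.sum_le_sum fun u _ => ?_) hR2
    rw [hw]
    unfold B1_w
    rw [hval]
    exact B1_clip_sub _ _ (hPabs u)
  -- the sum
  have hs1 : ∀ ρ : Stp d, ∑ x, φ x * PP^[t] (sg c c' f) (x + sv ρ) =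
      ∑ u, P u * sg c c' f (u + sv ρ) := by
    intro ρ
    rw [hP, PPt_adj t φ (fun u => sg c c' f (u + sv ρ))]
    refine Finset.sum_congr rfl fun x _ => ?_
    rw [PPt_transl]
  have hPoff : ∀ u, u ∉ cls b d k → P u = 0 := by
    intro u hu
    rw [hP, Kt_repr]
    refine Finset.sum_eq_zero fun y _ => ?_
    by_cases hy : y ∈ cls b d k
    · rw [Kt_cls hk t ht (!b) u y ((cls_not b u).2 hu) (by rw [Bool.not_not]; exact hy), zero_mul]
    · rw [hφb y hy, mul_zero]
  have hsum : ∑ x, φ x * (PP^[t] (sg c c' f) (x + sv σ) - PP^[t] (sg c c' f) (x + sv τ)) =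
      ∑ u ∈ cls b d k, P u * (sg c c' f (u + sv σ) - sg c c' f (u + sv τ)) := by
    simp only [mul_sub, Finset.sum_sub_distrib]
    rw [hs1, hs1]
    congr 1
    · symm
      refine Finset.sum_subset (Finset.subset_univ _) fun u _ hu => ?_
      rw [hPoff u hu, zero_mul]
    · symm
      refine Finset.sum_subset (Finset.subset_univ _) fun u _ hu => ?_
      rw [hPoff u hu, zero_mul]
  have hsplit : ∑ u ∈ cls b d k, P u * (sg c c' f (u + sv σ) - sg c c' f (u + sv τ)) ≤
      ∑ u ∈ cls b d k, w u * (sg c c' f (u + sv σ) - sg c c' f (u + sv τ)) + 2 * E0 := by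
    have h1 : ∑ u ∈ cls b d k, P u * (sg c c' f (u + sv σ) - sg c c' f (u + sv τ)) ≤
        ∑ u ∈ cls b d k, (w u * (sg c c' f (u + sv σ) - sg c c' f (u + sv τ)) +
          2 * |w u - P u|) := by
      refine Finset.sum_le_sum fun u _ => ?_
      have h2 : |sg c c' f (u + sv σ) - sg c c' f (u + sv τ)| ≤ 2 := by
        have a1 := B1_sg_abs c c' f (u + sv σ)
        have a2 := B1_sg_abs c c' f (u + sv τ)
        have := abs_sub (sg c c' f (u + sv σ)) (sg c c' f (u + sv τ))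
        linarith
      have h3 : (P u - w u) * (sg c c' f (u + sv σ) - sg c c' f (u + sv τ)) ≤
          |w u - P u| * 2 := by
        refine (le_abs_self _).trans ?_
        rw [abs_mul, abs_sub_comm]
        exact mul_le_mul_of_nonneg_left h2 (abs_nonneg _)
      linarith
    refine h1.trans ?_
    rw [Finset.sum_add_distrib, ← Finset.mul_sum]
    have h4 : ∑ u ∈ cls b d k, |w u - P u| ≤ ∑ u, |w u - P u| :=
      Finset.sum_le_sum_of_subset_of_nonneg (Finset.subset_univ _) fun _ _ _ => abs_nonneg _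
    linarith
  have hWt : Wt b w ≤ ∑ x, |φ x| + E0 := by
    unfold Wt
    calc ∑ u ∈ cls b d k, |w u| ≤ ∑ u, |w u| :=
          Finset.sum_le_sum_of_subset_of_nonneg (Finset.subset_univ _) fun _ _ _ => abs_nonneg _
      _ ≤ ∑ u, (PP^[t] (fun y => |φ y|) u + |w u - P u|) := by
          refine Finset.sum_le_sum fun u _ => ?_
          have h1 := PPt_abs t φ u
          have h2 : |w u| ≤ |P u| + |w u - P u| := by
            have := abs_add_le (P u) (w u - P u)
            rwa [add_sub_cancel] at this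
          have h3 : |P u| ≤ PP^[t] (fun y => |φ y|) u := h1
          linarith
      _ = ∑ u, PP^[t] (fun y => |φ y|) u + ∑ u, |w u - P u| := Finset.sum_add_distrib
      _ ≤ _ := by
          rw [PPt_total hd]
          linarith
  have hq : 0 ≤ C₄ / (q : ℝ) ^ 2 := by positivity
  rw [hsum]
  have := mul_le_mul_of_nonneg_left hWt hq
  have hE0' : 0 ≤ E0 := by positivity
  nlinarith

open scoped Classical in
/-- index type of the union -/
private abbrev B1_ix (d k q B : ℕ) : Type :=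
  {η : Site d k → Fin 3 // (((univ.filter fun x => (η x).val ≠ 0).card : ℝ) ≤ 2 * NN d k / B)} ×
    (Bool × (Fin q × Fin q) × (Stp d × Stp d))

open scoped Classical in
private noncomputable instance B1_fin (d k q B : ℕ) : Fintype (B1_ix d k q B) := inferInstance

private theorem B1_log {d k q B : ℕ} (hd : 1 ≤ d) (hq : 1 ≤ q) (hB : 1 ≤ B) :
    Real.log (Fintype.card (B1_ix d k q B)) ≤
      NN d k * (2 * Real.log B + 2) / B + Real.log (8 * (q : ℝ) ^ 2 * (d : ℝ) ^ 2) := by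
  classical
  have hNN : 0 ≤ NN d k := by unfold NN; positivity
  have hd0 : (0 : ℝ) < d := by exact_mod_cast hd
  have hq0 : (0 : ℝ) < q := by exact_mod_cast hq
  have h1 := net_card (d := d) (k := k) B hB
  set A : ℕ := ((univ : Finset (Site d k → Fin 3)).filter fun η =>
      ((univ.filter fun x => (η x).val ≠ 0).card : ℝ) ≤ 2 * NN d k / B).card with hA
  have hcard : Fintype.card (B1_ix d k q B) = A * (2 * ((q * q) * ((d * 2) * (d * 2)))) := by
    rw [Fintype.card_prod, Fintype.card_prod, Fintype.card_prod, Fintype.card_prod,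
      Fintype.card_prod, Fintype.card_prod, Fintype.card_fin, Fintype.card_fin, Fintype.card_bool,
      Fintype.card_subtype]
  have hA1 : 1 ≤ A := by
    rw [hA, Nat.one_le_iff_ne_zero, Finset.card_ne_zero]
    refine ⟨fun _ => 0, ?_⟩
    simp only [Finset.mem_filter, Finset.mem_univ, true_and]
    have : (univ.filter fun x : Site d k => ((0 : Fin 3) : Fin 3).val ≠ 0) = ∅ := by
      ext x; simp
    rw [this]
    simp only [Finset.card_empty, Nat.cast_zero]
    positivity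
  have hA0 : (0 : ℝ) < A := by exact_mod_cast hA1
  have hp : (0 : ℝ) < 8 * (q : ℝ) ^ 2 * (d : ℝ) ^ 2 := by positivity
  have e : ((Fintype.card (B1_ix d k q B) : ℕ) : ℝ) = A * (8 * (q : ℝ) ^ 2 * (d : ℝ) ^ 2) := by
    rw [hcard]; push_cast; ring
  rw [e, Real.log_mul hA0.ne' hp.ne']
  have h2 : Real.log A ≤ NN d k * (2 * Real.log B + 2) / B := by
    rw [Real.log_le_iff_le_exp hA0]
    exact h1
  linarith

/-- the numbers -/
private theorem B1_num (C₄ : ℝ) (hC₄ : 0 < C₄) (K K₂ s d q : ℕ) (NNr : ℝ) (hN : 0 ≤ NNr)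
    (hs : s = K₂ + 2 * K + 20) (hd : 1 ≤ d) (hq : 1 ≤ q)
    (hM : (C₄ + 2) * 2 * (8 * (s : ℝ)) ^ s ≤ d) :
    (C₄ / (q : ℝ) ^ 2 + 2) * (2 * NNr * Real.sqrt (((d ^ K₂ : ℕ) : ℝ) *
      ((8 * (s : ℝ)) ^ (2 * s) / (2 * (d : ℝ)) ^ s))) + NNr / (d : ℝ) ^ (K + 1) ≤
      2 * NNr / (d : ℝ) ^ K := by
  have hd1 : (1 : ℝ) ≤ d := by exact_mod_cast hd
  have hd0 : (0 : ℝ) < d := by linarith
  have hq1 : (1 : ℝ) ≤ q := by exact_mod_cast hq
  have hs0 : (0 : ℝ) ≤ s := Nat.cast_nonneg _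
  have h1 : Real.sqrt (((d ^ K₂ : ℕ) : ℝ) * ((8 * (s : ℝ)) ^ (2 * s) / (2 * (d : ℝ)) ^ s)) ≤
      (8 * (s : ℝ)) ^ s / (d : ℝ) ^ (K + 10) := by
    rw [show (8 * (s : ℝ)) ^ s / (d : ℝ) ^ (K + 10) =
      Real.sqrt (((8 * (s : ℝ)) ^ s / (d : ℝ) ^ (K + 10)) ^ 2)
      from (Real.sqrt_sq (by positivity)).symm]
    apply Real.sqrt_le_sqrt
    have e1 : (2 * (d : ℝ)) ^ s = 2 ^ s * ((d : ℝ) ^ K₂ * (d : ℝ) ^ (2 * K + 20)) := by
      rw [mul_pow, hs, add_assoc K₂, pow_add (d : ℝ)]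
    have e2 : (((8 * (s : ℝ)) ^ s / (d : ℝ) ^ (K + 10)) ^ 2) =
        (8 * (s : ℝ)) ^ (2 * s) / (d : ℝ) ^ (2 * K + 20) := by
      rw [div_pow, ← pow_mul, ← pow_mul, mul_comm s 2, show (K + 10) * 2 = 2 * K + 20 by ring]
    rw [e1, e2]
    push_cast
    have h2 : (1 : ℝ) ≤ 2 ^ s := one_le_pow₀ (by norm_num)
    have e3 : (d : ℝ) ^ K₂ * ((8 * (s : ℝ)) ^ (2 * s) / (2 ^ s * ((d : ℝ) ^ K₂ * (d : ℝ) ^ (2 * K + 20)))) =
        ((8 * (s : ℝ)) ^ (2 * s) / (d : ℝ) ^ (2 * K + 20)) / 2 ^ s := by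
      field_simp
    rw [e3]
    exact div_le_self (by positivity) h2
  have h3 : C₄ / (q : ℝ) ^ 2 ≤ C₄ := div_le_self hC₄.le (one_le_pow₀ hq1)
  have h4 : (C₄ / (q : ℝ) ^ 2 + 2) * (2 * NNr * Real.sqrt (((d ^ K₂ : ℕ) : ℝ) *
      ((8 * (s : ℝ)) ^ (2 * s) / (2 * (d : ℝ)) ^ s))) ≤ NNr / (d : ℝ) ^ K := by
    calc (C₄ / (q : ℝ) ^ 2 + 2) * (2 * NNr * Real.sqrt (((d ^ K₂ : ℕ) : ℝ) *
      ((8 * (s : ℝ)) ^ (2 * s) / (2 * (d : ℝ)) ^ s)))
        ≤ (C₄ + 2) * (2 * NNr * ((8 * (s : ℝ)) ^ s / (d : ℝ) ^ (K + 10))) := by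
          gcongr
      _ = NNr * ((C₄ + 2) * 2 * (8 * (s : ℝ)) ^ s) / (d : ℝ) ^ (K + 10) := by ring
      _ ≤ NNr * (d : ℝ) / (d : ℝ) ^ (K + 10) := by gcongr
      _ = NNr / (d : ℝ) ^ (K + 9) := by
          rw [show K + 10 = (K + 9) + 1 by ring, pow_succ (d : ℝ) (K + 9)]
          field_simp
      _ ≤ NNr / (d : ℝ) ^ K := by
          apply div_le_div_of_nonneg_left hN (by positivity)
          exact pow_le_pow_right₀ hd1 (by omega)
  have h5 : NNr / (d : ℝ) ^ (K + 1) ≤ NNr / (d : ℝ) ^ K := by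
    apply div_le_div_of_nonneg_left hN (by positivity)
    exact pow_le_pow_right₀ hd1 (by omega)
  have h6 : 2 * NNr / (d : ℝ) ^ K = NNr / (d : ℝ) ^ K + NNr / (d : ℝ) ^ K := by ring
  rw [h6]
  linarith

theorem iso_K {ε : ℝ} (hε : 0 < ε) (hε1 : ε ≤ 1) : ∃ C₄ : ℝ, 0 < C₄ ∧ ∀ K : ℕ, ∃ t : ℕ, Even t ∧ 20 ≤ t ∧
    WOP ε fun d k q f => ∀ (b : Bool) (c c' : Fin q) (σ τ : Stp d) (φ : Site d k → ℝ),
      (∀ x, φ x = 0 ∨ φ x = 1 ∨ φ x = -1) → (∀ x, x ∉ cls b d k → φ x = 0) →
      ∑ x, φ x * (PP^[t] (sg c c' f) (x + sv σ) - PP^[t] (sg c c' f) (x + sv τ)) ≤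
        C₄ / (q : ℝ) ^ 2 * ∑ x, |φ x| + 2 * NN d k / (d : ℝ) ^ K := by
  obtain ⟨C₄, hC₄, hiso⟩ := iso hε hε1
  refine ⟨C₄, hC₄, fun K => ?_⟩
  obtain ⟨C, hC⟩ := hiso (K + 1)
  obtain ⟨K₂, hK₂⟩ : ∃ K₂ : ℕ, K₂ = C + 3 := ⟨_, rfl⟩
  obtain ⟨s, hs⟩ : ∃ s : ℕ, s = K₂ + 2 * K + 20 := ⟨_, rfl⟩
  refine ⟨2 * s, even_two_mul s, by omega, C + 1, ?_⟩
  have hreg := EvT_reg hε hε1 (2 + (4 * (K₂ : ℝ) + 4) + (C₄ + 2) * 2 * (8 * (s : ℝ)) ^ s)
  have hNNl := EvT_NN (ε := ε) fun d q =>
    2 * ((d : ℝ) ^ (C + 1) * Real.log (8 * (q : ℝ) ^ 2 * (d : ℝ) ^ 2))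
  have hpow := EvT_pow (ε := ε) fun _ _ => (2 * (s : ℝ) + 1)
  refine EvT.mono (((hC.and hreg).and hNNl).and hpow) fun d k q h => ?_
  obtain ⟨⟨⟨hR, hMd, hMq, hMk, -⟩, hNl⟩, hk2⟩ := h
  have hX : 0 ≤ (C₄ + 2) * 2 * (8 * (s : ℝ)) ^ s := by positivity
  have hK0 : (0 : ℝ) ≤ K₂ := Nat.cast_nonneg _
  have hd2 : 2 ≤ d := by
    have : (2 : ℝ) ≤ d := by linarith
    exact_mod_cast this
  have hd1 : 1 ≤ d := by omega
  have hq1 : 1 ≤ q := by
    have : (1 : ℝ) ≤ q := by linarith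
    exact_mod_cast this
  have hk1 : 1 ≤ k := by
    have : (1 : ℝ) ≤ k := by linarith
    exact_mod_cast this
  have hd0 : (0 : ℝ) < d := by exact_mod_cast (show 0 < d by omega)
  have hdr : (1 : ℝ) ≤ d := by exact_mod_cast hd1
  have hNN : 0 ≤ NN d k := by unfold NN; positivity
  obtain ⟨B, hB⟩ : ∃ B : ℕ, B = d ^ K₂ := ⟨_, rfl⟩
  have hB1 : 1 ≤ B := by rw [hB]; exact Nat.one_le_pow _ _ (by omega)
  have hs1 : 1 ≤ s := by omega
  have hs0 : (0 : ℝ) < s := by exact_mod_cast (show 0 < s by omega)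
  -- union
  have hlog : (d : ℝ) ^ (C + 1) * Real.log (Fintype.card (B1_ix d k q B)) ≤ NN d k := by
    have h1 := B1_log (k := k) hd1 hq1 hB1
    have h2 : Real.log B = K₂ * Real.log d := by
      rw [hB]; push_cast; rw [Real.log_pow]
    have h3 : Real.log d ≤ d := by
      have := Real.log_le_sub_one_of_pos hd0
      linarith
    have hBr : (B : ℝ) = (d : ℝ) ^ (C + 1) * (d : ℝ) ^ 2 := by
      rw [hB, hK₂]; push_cast; rw [← pow_add]
    have h4 : (d : ℝ) ^ (C + 1) * (NN d k * (2 * Real.log B + 2) / B) =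
        NN d k * ((2 * Real.log B + 2) / (d : ℝ) ^ 2) := by
      rw [hBr]; field_simp
    have h5 : (2 * Real.log B + 2) / (d : ℝ) ^ 2 ≤ 1 / 2 := by
      rw [div_le_iff₀ (by positivity), h2]
      nlinarith
    calc (d : ℝ) ^ (C + 1) * Real.log (Fintype.card (B1_ix d k q B))
        ≤ (d : ℝ) ^ (C + 1) * (NN d k * (2 * Real.log B + 2) / B +
          Real.log (8 * (q : ℝ) ^ 2 * (d : ℝ) ^ 2)) :=
          mul_le_mul_of_nonneg_left h1 (by positivity)
      _ = NN d k * ((2 * Real.log B + 2) / (d : ℝ) ^ 2) +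
          (d : ℝ) ^ (C + 1) * Real.log (8 * (q : ℝ) ^ 2 * (d : ℝ) ^ 2) := by
          rw [mul_add, h4]
      _ ≤ NN d k * (1 / 2) + NN d k / 2 := by
          have := mul_le_mul_of_nonneg_left h5 hNN
          linarith
      _ = NN d k := by ring
  have hU := Rar_union (ι := B1_ix d k q B) hd2
    (P := fun i f => ¬ (i.2.2.1.1 ≠ i.2.2.1.2 →
      (∀ x, |B1_w (2 * s) B i.1.1 x| ≤ 1) →
      ∑ u ∈ cls i.2.1 d k, B1_w (2 * s) B i.1.1 u *
          (sg i.2.2.1.1 i.2.2.1.2 f (u + sv i.2.2.2.1) -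
            sg i.2.2.1.1 i.2.2.1.2 f (u + sv i.2.2.2.2)) ≤
        C₄ / (q : ℝ) ^ 2 * Wt i.2.1 (B1_w (2 * s) B i.1.1) + NN d k / (d : ℝ) ^ (K + 1)))
    (fun i => hR (i.2.1, i.2.2.1, i.2.2.2, B1_w (2 * s) B i.1.1)) hlog
  refine hU.mono fun f _ hf => ?_
  by_contra hno
  push Not at hno
  apply hf
  have hkap : 0 < (8 * (s : ℝ)) ^ (2 * s) / (2 * (d : ℝ)) ^ s := by positivity
  have hkk : 2 * s < 2 ^ k := by
    have : (2 * (s : ℝ) + 1) ≤ 2 ^ k := hk2
    have h2 : 2 * s + 1 ≤ 2 ^ k := by exact_mod_cast this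
    omega
  intro b c c' σ τ φ hφ hφb
  have hdet := B1_det hd1 hk1 (2 * s) B (even_two_mul s) hB1 _ hkap
    (fun u y => Kt_sup hd1 s hkk u y) C₄ (NN d k / (d : ℝ) ^ (K + 1)) hC₄.le (by positivity) f
    (fun η hη b c c' σ τ hcc => hno (⟨η, hη⟩, b, (c, c'), (σ, τ)) hcc fun x => by
      unfold B1_w; exact B1_clip_abs _) b c c' σ τ φ hφ hφb
  have hnum := B1_num C₄ hC₄ K K₂ s d q (NN d k) hNN hs hd1 hq1 (by linarith)
  rw [hB] at hdet
  linarith

end Pool.Agent.LC

end

/-! ### from `Lib_MP_2c424f_lc1.B2` -/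

section

/-!
# LC1 B2: small gradients of the `t`-step averages outside few sites

Fix `b, c, c', σ, τ`, `D x := PP^[t] (sg c c' f) (x+σ) - PP^[t] (sg c c' f) (x+τ)`, `φ = 1` where `D x > 2C₄/q²` (`x ∈ cls b`): `iso_K` at the level `K + 8`:
`2C₄/q² #φ ≤ C₄/q² #φ + 2N/d^(K+8)`, so `#φ ≤ 2 q² N/(C₄ d^(K+8))`.  The union over `b, c, c', σ, τ` (at most `2 q² (2d)²`, both signs by exchanging `σ, τ`) has at most `N/d^K` sites.
Outside: `bq c f - 1 = ∑_{c'} sg c c' f` (`∑_{c'} 1[f = c'] = 1`, and `sg c c = 0`), so `|PP^[t](bq c f)(x+σ) - PP^[t](bq c f)(x+τ)| ≤ q * 2C₄/q²`.  `C₄' = 2 C₄`.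
-/

set_option autoImplicit false

open Finset Filter

namespace Pool.Agent.LC

open Pool.Agent.LO Pool.Agent.LIN Pool.Agent.THR Pool.Agent.COR

/-- the gradient of one difference -/
noncomputable def B2_D {d k q : ℕ} (t : ℕ) (f : Site d k → Fin q) (c c' : Fin q) (σ τ : Stp d) (x : Site d k) : ℝ :=
  PP^[t] (THR.sg c c' f) (x + sv σ) - PP^[t] (THR.sg c c' f) (x + sv τ)

theorem B2_bq {d k q : ℕ} (c : Fin q) (f : Site d k → Fin q) (v : Site d k) :
    bq c f v = ∑ c', THR.sg c c' f v + 1 := by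
  unfold bq THR.sg
  rw [Finset.sum_sub_distrib, Finset.sum_const, Finset.card_univ, Fintype.card_fin, nsmul_eq_mul]
  simp only [Finset.sum_ite_eq, Finset.mem_univ, if_true]
  split_ifs <;> simp

theorem B2_grad {d k q : ℕ} (hd : 1 ≤ d) (t : ℕ) (f : Site d k → Fin q) (c : Fin q) (σ τ : Stp d) (x : Site d k) :
    PP^[t] (bq c f) (x + sv σ) - PP^[t] (bq c f) (x + sv τ) = ∑ c', B2_D t f c c' σ τ x := by
  have h1 : ∀ y : Site d k, PP^[t] (bq c f) y = ∑ c', PP^[t] (THR.sg c c' f) y + 1 := by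
    intro y
    have h2 : bq c f = fun y => (∑ c', THR.sg c c' f y) - (-1 : ℝ) := by
      funext v
      rw [B2_bq]
      ring
    rw [h2, PPt_sub, PPt_sum, PPt_const hd]
    ring
  rw [h1, h1]
  unfold B2_D
  rw [Finset.sum_sub_distrib]
  ring

/-- the sites with a large gradient of one difference -/
noncomputable def B2_S {d k q : ℕ} (C₄ : ℝ) (t : ℕ) (f : Site d k → Fin q)
    (i : Bool × Fin q × Fin q × Stp d × Stp d) : Finset (Site d k) := by
  classical
  exact univ.filter fun x => x ∈ cls i.1 d k ∧ 2 * C₄ / (q : ℝ) ^ 2 < B2_D t f i.2.1 i.2.2.1 i.2.2.2.1 i.2.2.2.2 x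

theorem grad_K : ∃ C₄ : ℝ, 0 < C₄ ∧ ∀ K : ℕ, ∃ t : ℕ, Even t ∧ 20 ≤ t ∧ SRK K fun _ _ _ f v => Gb C₄ t f v := by
  classical
  obtain ⟨C₄, hC0, hC⟩ := iso_K (ε := e3) (by unfold e3; norm_num) (by unfold e3; norm_num)
  refine ⟨2 * C₄, by positivity, fun K => ?_⟩
  obtain ⟨t, ht, ht20, hW⟩ := hC (K + 8)
  refine ⟨t, ht, ht20, hW.mono ?_⟩
  obtain ⟨D0, hD0⟩ := exists_nat_ge (16 / C₄)
  refine ⟨max D0 2, fun d q hd _ _ => Filter.Eventually.of_forall fun k f hf hiso hR => ?_⟩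
  have hdD : D0 ≤ d := (le_max_left _ _).trans hd
  have hd2 : 2 ≤ d := (le_max_right _ _).trans hd
  have hdR : (2 : ℝ) ≤ d := by exact_mod_cast hd2
  obtain ⟨hq0, ha1, ha2, hda, -⟩ := rg_pos (by omega) hR
  have hq0R : (0 : ℝ) < q := by exact_mod_cast hq0
  have hqd : (q : ℝ) ≤ d := by
    have h1 : 1000 * (q : ℝ) ≤ 2 * d := by exact_mod_cast hR.2.1
    linarith
  have hN0 : 0 ≤ NN d k := by unfold NN; positivity
  -- the size of one set
  have h1 : ∀ i, ((B2_S C₄ t f i).card : ℝ) ≤ 2 * (q : ℝ) ^ 2 / C₄ * (NN d k / (d : ℝ) ^ (K + 8)) := by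
    rintro ⟨b, c, c', σ, τ⟩
    set A := B2_S C₄ t f (b, c, c', σ, τ) with hA
    have hAm : ∀ x, x ∈ A ↔ x ∈ cls b d k ∧ 2 * C₄ / (q : ℝ) ^ 2 < B2_D t f c c' σ τ x := by
      intro x
      rw [hA, B2_S, Finset.mem_filter]
      simp only [Finset.mem_univ, true_and]
    have h2 := hiso b c c' σ τ (fun x => if x ∈ A then 1 else 0) (fun x => by
      by_cases hx : x ∈ A
      · right; left; simp [hx]
      · left; simp [hx]) (fun x hx => by
      have : x ∉ A := fun h => hx ((hAm x).1 h).1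
      simp [this])
    have h3 : ∑ x, |(if x ∈ A then (1 : ℝ) else 0)| = (A.card : ℝ) := by
      have : ∀ x, |(if x ∈ A then (1 : ℝ) else 0)| = if x ∈ A then 1 else 0 := by
        intro x
        split_ifs <;> simp
      simp only [this]
      rw [Finset.sum_ite_mem, Finset.univ_inter, Finset.sum_const, nsmul_eq_mul, mul_one]
    have h4 : 2 * C₄ / (q : ℝ) ^ 2 * A.card ≤
        ∑ x, (if x ∈ A then (1 : ℝ) else 0) * (PP^[t] (THR.sg c c' f) (x + sv σ) - PP^[t] (THR.sg c c' f) (x + sv τ)) := by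
      have h5 : ∑ x, (if x ∈ A then (1 : ℝ) else 0) *
          (PP^[t] (THR.sg c c' f) (x + sv σ) - PP^[t] (THR.sg c c' f) (x + sv τ)) =
          ∑ x ∈ A, B2_D t f c c' σ τ x := by
        simp only [ite_mul, one_mul, zero_mul]
        rw [Finset.sum_ite_mem, Finset.univ_inter]
        rfl
      rw [h5]
      calc 2 * C₄ / (q : ℝ) ^ 2 * A.card = ∑ _x ∈ A, 2 * C₄ / (q : ℝ) ^ 2 := by
            rw [Finset.sum_const, nsmul_eq_mul, mul_comm]
        _ ≤ _ := Finset.sum_le_sum fun x hx => ((hAm x).1 hx).2.le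
    rw [h3] at h2
    have h6 : C₄ / (q : ℝ) ^ 2 * A.card ≤ 2 * NN d k / (d : ℝ) ^ (K + 8) := by
      have : 2 * C₄ / (q : ℝ) ^ 2 * A.card = 2 * (C₄ / (q : ℝ) ^ 2 * A.card) := by ring
      linarith
    have h7 : (A.card : ℝ) = (q : ℝ) ^ 2 / C₄ * (C₄ / (q : ℝ) ^ 2 * A.card) := by
      field_simp
    rw [h7]
    calc (q : ℝ) ^ 2 / C₄ * (C₄ / (q : ℝ) ^ 2 * A.card) ≤ (q : ℝ) ^ 2 / C₄ * (2 * NN d k / (d : ℝ) ^ (K + 8)) :=
          mul_le_mul_of_nonneg_left h6 (by positivity)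
      _ = _ := by ring
  -- the union
  have h2 : (univ.filter fun v => Gb (2 * C₄) t f v) ⊆
      (univ : Finset (Bool × Fin q × Fin q × Stp d × Stp d)).biUnion fun i => B2_S C₄ t f i := by
    intro v hv
    obtain ⟨c, σ, τ, h3⟩ := (Finset.mem_filter.1 hv).2
    rw [B2_grad (by omega)] at h3
    have h4 : ∃ c', 2 * C₄ / (q : ℝ) ^ 2 < |B2_D t f c c' σ τ v| := by
      by_contra h
      push Not at h
      have h5 : |∑ c', B2_D t f c c' σ τ v| ≤ 2 * C₄ / q := by
        refine (Finset.abs_sum_le_sum_abs _ _).trans ((Finset.sum_le_sum fun c' _ => h c').trans (le_of_eq ?_))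
        rw [Finset.sum_const, Finset.card_univ, Fintype.card_fin, nsmul_eq_mul]
        field_simp
      linarith
    obtain ⟨c', h4⟩ := h4
    have hcl : ∃ b, v ∈ cls b d k := by
      by_cases he : evn v
      · exact ⟨true, by simp [cls, evs, he]⟩
      · exact ⟨false, by simp [cls, ods, he]⟩
    obtain ⟨b, hb⟩ := hcl
    rcases lt_abs.1 h4 with h5 | h5
    · exact Finset.mem_biUnion.2 ⟨(b, c, c', σ, τ), Finset.mem_univ _, by
        rw [B2_S, Finset.mem_filter]
        exact ⟨Finset.mem_univ _, hb, h5⟩⟩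
    · refine Finset.mem_biUnion.2 ⟨(b, c, c', τ, σ), Finset.mem_univ _, ?_⟩
      rw [B2_S, Finset.mem_filter]
      refine ⟨Finset.mem_univ _, hb, ?_⟩
      have h6 : B2_D t f c c' τ σ v = -B2_D t f c c' σ τ v := by
        unfold B2_D
        ring
      rw [h6]
      exact h5
  have h3 : cn (fun v => Gb (2 * C₄) t f v) ≤
      8 * (q : ℝ) ^ 2 * d ^ 2 * (2 * (q : ℝ) ^ 2 / C₄ * (NN d k / (d : ℝ) ^ (K + 8))) := by
    unfold cn
    have h4 : ((univ.filter fun v => Gb (2 * C₄) t f v).card : ℝ) ≤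
        ∑ i : Bool × Fin q × Fin q × Stp d × Stp d, ((B2_S C₄ t f i).card : ℝ) := by
      rw [← Nat.cast_sum]
      exact Nat.cast_le.2 ((Finset.card_le_card h2).trans Finset.card_biUnion_le)
    have h5 := Finset.sum_le_sum fun i (_ : i ∈ (univ : Finset (Bool × Fin q × Fin q × Stp d × Stp d))) => h1 i
    rw [Finset.sum_const, Finset.card_univ, nsmul_eq_mul] at h5
    have h6 : ((Fintype.card (Bool × Fin q × Fin q × Stp d × Stp d) : ℕ) : ℝ) = 8 * (q : ℝ) ^ 2 * d ^ 2 := by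
      simp only [Stp, Fintype.card_prod, Fintype.card_fin, Fintype.card_bool]
      push_cast
      ring
    rw [h6] at h5
    refine le_trans (le_of_eq ?_) (h4.trans h5)
    exact congrArg _ (congrArg _ (Finset.filter_congr_decidable _ _ _))
  refine h3.trans ?_
  have hdp : (0 : ℝ) < (d : ℝ) ^ K := by positivity
  have h4 : 8 * (q : ℝ) ^ 2 * d ^ 2 * (2 * (q : ℝ) ^ 2 / C₄ * (NN d k / (d : ℝ) ^ (K + 8))) =
      (16 / C₄) * (q / d) ^ 4 * (1 / d ^ 2) * (NN d k / (d : ℝ) ^ K) := by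
    rw [pow_add]
    field_simp
    ring
  rw [h4]
  have h5 : ((q : ℝ) / d) ^ 4 ≤ 1 := pow_le_one₀ (by positivity) (by
    rw [div_le_one (by linarith)]
    exact hqd)
  have h6 : (16 / C₄) * (1 / (d : ℝ) ^ 2) ≤ 1 := by
    have h7 : 16 / C₄ ≤ d := hD0.trans (by exact_mod_cast hdD)
    rw [mul_one_div, div_le_one (by positivity)]
    nlinarith
  have h8 : 0 ≤ NN d k / (d : ℝ) ^ K := by positivity
  have h9 : (16 / C₄) * ((q : ℝ) / d) ^ 4 * (1 / d ^ 2) ≤ 1 := by
    calc (16 / C₄) * ((q : ℝ) / d) ^ 4 * (1 / d ^ 2) = ((q : ℝ) / d) ^ 4 * ((16 / C₄) * (1 / (d : ℝ) ^ 2)) := by ring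
      _ ≤ 1 * 1 := mul_le_mul h5 h6 (by positivity) (by norm_num)
      _ = 1 := by norm_num
  calc _ ≤ 1 * (NN d k / (d : ℝ) ^ K) := mul_le_mul_of_nonneg_right h9 h8
    _ = _ := one_mul _

end Pool.Agent.LC

end

/-! ### from `Lib_MP_2c424f_lc6a.A1` -/

section

/-!
# LC6a A1: Cauchy-Schwarz inequality for two sheets

Classes of vertices: inside (`In`, not `Su`), surface (`Su`), outside (not `In`).  By `hno` there is no edge between inside and outside.
Write `f = (x, ξ, y)` (values inside, on the surface, outside; e.g. `Equiv.piEquivPiSubtypeProd` twice).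
`PrG G f` iff `α x ξ ∧ β ξ y`, `α`: `f` is proper on the edges with both ends in `In`, `β`: on the edges with both ends not (`In` and not `Su`)
(edges between two surface points are in both).  `E f` depends on `(x, ξ)` only.
`cG G E = ∑_ξ a ξ * b ξ`, `a ξ = #{x : α x ξ ∧ E (x, ξ)}`, `b ξ = #{y : β ξ y}`; Cauchy-Schwarz (`Finset.sum_mul_sq_le_sq_mul_sq`):
`(cG G E)² ≤ (∑_ξ (a ξ)²) (∑_ξ (b ξ)²)`.  A colouring `F` of `V × Bool` is `(x, ξ, y), (x', ξ', y')` (sheets `false`, `true`); it is proper for `TX` iff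
`α x ξ ∧ α x' ξ ∧ β ξ' y ∧ β ξ' y'` (surface points of the sheet `false` see the inside neighbours on both sheets, those of the sheet `true` the outside
neighbours on both sheets).  So `cG TX E = ∑_{ξ, ξ'} #{x : α ∧ E} #{x' : α} (b ξ')² ≥ (∑ a²) (∑ b²)`.
-/

set_option autoImplicit false

open Finset Filter

namespace Pool.Agent.LC

open Pool.Agent.LO Pool.Agent.LIN Pool.Agent.THR Pool.Agent.COR

section
variable {V : Type} {q : ℕ}

/-- proper on the edges inside -/
private def A1_PI (G : SimpleGraph V) (In : V → Prop) (f : V → Fin q) : Prop :=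
  ∀ u v, In u → In v → G.Adj u v → f u ≠ f v

/-- proper on the edges outside and on the surface -/
private def A1_PO (G : SimpleGraph V) (In Su : V → Prop) (f : V → Fin q) : Prop :=
  ∀ u v, (In u → Su u) → (In v → Su v) → G.Adj u v → f u ≠ f v

private theorem A1_pr (G : SimpleGraph V) (In Su : V → Prop) (hSI : ∀ x, Su x → In x)
    (hno : ∀ x y, G.Adj x y → ¬ Su x → ¬ Su y → (In x ↔ In y)) (f : V → Fin q) :
    PrG G f ↔ A1_PI G In f ∧ A1_PO G In Su f := by
  constructor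
  · intro h
    exact ⟨fun u v _ _ huv => h u v huv, fun u v _ _ huv => h u v huv⟩
  · rintro ⟨h1, h2⟩ u v huv
    by_cases hu : In u
    · by_cases hv : In v
      · exact h1 u v hu hv huv
      · by_cases hsu : Su u
        · exact h2 u v (fun _ => hsu) (fun h => absurd h hv) huv
        · exact absurd ((hno u v huv hsu fun h => hv (hSI v h)).1 hu) hv
    · by_cases hv : In v
      · by_cases hsv : Su v
        · exact h2 u v (fun h => absurd h hu) (fun _ => hsv) huv
        · exact absurd ((hno u v huv (fun h => hu (hSI u h)) hsv).2 hv) hu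
      · exact h2 u v (fun h => absurd h hu) (fun h => absurd h hv) huv

open scoped Classical in
private theorem A1_TX (G : SimpleGraph V) (In Su : V → Prop) (hSI : ∀ x, Su x → In x)
    (hno : ∀ x y, G.Adj x y → ¬ Su x → ¬ Su y → (In x ↔ In y)) (F : V × Bool → Fin q)
    (f₀ f₁ g₀ g₁ : V → Fin q) (h₀ : ∀ v, F (v, false) = f₀ v) (h₁ : ∀ v, F (v, true) = f₁ v)
    (hg₀ : ∀ v, g₀ v = if Su v then f₀ v else f₁ v)
    (hg₁ : ∀ v, g₁ v = if Su v then f₁ v else f₀ v) :
    PrG (TX G In Su) F ↔ (A1_PI G In f₀ ∧ A1_PI G In g₀) ∧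
      (A1_PO G In Su g₁ ∧ A1_PO G In Su f₁) := by
  constructor
  · intro h
    have k : ∀ (u v : V) (s t : Bool), G.Adj u v → (((Su u ↔ Su v) ∧ s = t) ∨
        (Su u ∧ ¬ Su v ∧ (s = false ↔ In v)) ∨ (Su v ∧ ¬ Su u ∧ (t = false ↔ In u))) →
        F (u, s) ≠ F (v, t) := fun u v s t huv hc => h (u, s) (v, t) ⟨huv, hc⟩
    refine ⟨⟨?_, ?_⟩, ⟨?_, ?_⟩⟩
    · intro u v hu hv huv
      rw [← h₀, ← h₀]
      apply k u v false false huv
      by_cases hsu : Su u <;> by_cases hsv : Su v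
      · exact Or.inl ⟨by tauto, rfl⟩
      · exact Or.inr (Or.inl ⟨hsu, hsv, by tauto⟩)
      · exact Or.inr (Or.inr ⟨hsv, hsu, by tauto⟩)
      · exact Or.inl ⟨by tauto, rfl⟩
    · intro u v hu hv huv
      rw [hg₀, hg₀]
      by_cases hsu : Su u <;> by_cases hsv : Su v
      · rw [if_pos hsu, if_pos hsv, ← h₀, ← h₀]
        exact k u v false false huv (Or.inl ⟨by tauto, rfl⟩)
      · rw [if_pos hsu, if_neg hsv, ← h₀, ← h₁]
        exact k u v false true huv (Or.inr (Or.inl ⟨hsu, hsv, by tauto⟩))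
      · rw [if_neg hsu, if_pos hsv, ← h₀, ← h₁]
        exact k u v true false huv (Or.inr (Or.inr ⟨hsv, hsu, by tauto⟩))
      · rw [if_neg hsu, if_neg hsv, ← h₁, ← h₁]
        exact k u v true true huv (Or.inl ⟨by tauto, rfl⟩)
    · intro u v hu hv huv
      rw [hg₁, hg₁]
      by_cases hsu : Su u <;> by_cases hsv : Su v
      · rw [if_pos hsu, if_pos hsv, ← h₁, ← h₁]
        exact k u v true true huv (Or.inl ⟨by tauto, rfl⟩)
      · rw [if_pos hsu, if_neg hsv, ← h₀, ← h₁]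
        exact k u v true false huv (Or.inr (Or.inl ⟨hsu, hsv, by simp; tauto⟩))
      · rw [if_neg hsu, if_pos hsv, ← h₀, ← h₁]
        exact k u v false true huv (Or.inr (Or.inr ⟨hsv, hsu, by simp; tauto⟩))
      · rw [if_neg hsu, if_neg hsv, ← h₀, ← h₀]
        exact k u v false false huv (Or.inl ⟨by tauto, rfl⟩)
    · intro u v hu hv huv
      rw [← h₁, ← h₁]
      apply k u v true true huv
      by_cases hsu : Su u <;> by_cases hsv : Su v
      · exact Or.inl ⟨by tauto, rfl⟩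
      · exact Or.inr (Or.inl ⟨hsu, hsv, by simp; tauto⟩)
      · exact Or.inr (Or.inr ⟨hsv, hsu, by simp; tauto⟩)
      · exact Or.inl ⟨by tauto, rfl⟩
  · rintro ⟨⟨hI0, hI1⟩, ⟨hO0, hO1⟩⟩
    have key : ∀ (u v : V) (s t : Bool), G.Adj u v → Su u → ¬ Su v → (s = false ↔ In v) →
        F (u, s) ≠ F (v, t) := by
      intro u v s t huv hsu hsv hs
      by_cases hv : In v
      · have hs0 : s = false := hs.2 hv
        subst hs0
        cases t
        · rw [h₀, h₀]
          exact hI0 u v (hSI u hsu) hv huv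
        · have h := hI1 u v (hSI u hsu) hv huv
          rw [hg₀, hg₀, if_pos hsu, if_neg hsv] at h
          rw [h₀, h₁]
          exact h
      · have hs1 : s = true := by
          cases s
          · exact absurd (hs.1 rfl) hv
          · rfl
        subst hs1
        cases t
        · have h := hO0 u v (fun _ => hsu) (fun h => absurd h hv) huv
          rw [hg₁, hg₁, if_pos hsu, if_neg hsv] at h
          rw [h₀, h₁]
          exact h
        · rw [h₁, h₁]
          exact hO1 u v (fun _ => hsu) (fun h => absurd h hv) huv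
    rintro ⟨u, s⟩ ⟨v, t⟩ ⟨huv, hc⟩
    rcases hc with ⟨hc, hst⟩ | ⟨hsu, hsv, hs⟩ | ⟨hsv, hsu, ht⟩
    · have hst' : s = t := hst
      subst hst'
      have huv' : G.Adj u v := huv
      have hc' : Su u ↔ Su v := hc
      by_cases hsu : Su u
      · have hsv : Su v := hc'.1 hsu
        cases s
        · rw [h₀, h₀]
          exact hI0 u v (hSI u hsu) (hSI v hsv) huv'
        · rw [h₁, h₁]
          exact hO1 u v (fun _ => hsu) (fun _ => hsv) huv'
      · have hsv : ¬ Su v := fun h => hsu (hc'.2 h)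
        have hio := hno u v huv' hsu hsv
        by_cases hu : In u
        · have hv := hio.1 hu
          cases s
          · rw [h₀, h₀]
            exact hI0 u v hu hv huv'
          · have h := hI1 u v hu hv huv'
            rw [hg₀, hg₀, if_neg hsu, if_neg hsv] at h
            rw [h₁, h₁]
            exact h
        · have hv : ¬ In v := fun h => hu (hio.2 h)
          cases s
          · have h := hO0 u v (fun h => absurd h hu) (fun h => absurd h hv) huv'
            rw [hg₁, hg₁, if_neg hsu, if_neg hsv] at h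
            rw [h₀, h₀]
            exact h
          · rw [h₁, h₁]
            exact hO1 u v (fun h => absurd h hu) (fun h => absurd h hv) huv'
    · exact key u v s t huv hsu hsv hs
    · exact (key v u t s huv.symm hsv hsu ht).symm

open scoped Classical in
/-- a function with given values inside, on the surface, outside -/
private noncomputable def A1_g (In Su : V → Prop) (x : {v // In v ∧ ¬ Su v} → Fin q)
    (ξ : {v // Su v} → Fin q) (y : {v // ¬ In v} → Fin q) : V → Fin q := fun v =>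
  if hS : Su v then ξ ⟨v, hS⟩ else if hI : In v then x ⟨v, hI, hS⟩ else y ⟨v, hI⟩

private theorem A1_g_S (In Su : V → Prop) (x : {v // In v ∧ ¬ Su v} → Fin q)
    (ξ : {v // Su v} → Fin q) (y : {v // ¬ In v} → Fin q) {v : V} (hS : Su v) :
    A1_g In Su x ξ y v = ξ ⟨v, hS⟩ := by
  unfold A1_g
  rw [dif_pos hS]

private theorem A1_g_I (In Su : V → Prop) (x : {v // In v ∧ ¬ Su v} → Fin q)
    (ξ : {v // Su v} → Fin q) (y : {v // ¬ In v} → Fin q) {v : V} (hS : ¬ Su v) (hI : In v) :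
    A1_g In Su x ξ y v = x ⟨v, hI, hS⟩ := by
  unfold A1_g
  rw [dif_neg hS, dif_pos hI]

private theorem A1_g_O (In Su : V → Prop) (x : {v // In v ∧ ¬ Su v} → Fin q)
    (ξ : {v // Su v} → Fin q) (y : {v // ¬ In v} → Fin q) {v : V} (hS : ¬ Su v) (hI : ¬ In v) :
    A1_g In Su x ξ y v = y ⟨v, hI⟩ := by
  unfold A1_g
  rw [dif_neg hS, dif_neg hI]

/-- decomposition of a function -/
private noncomputable def A1_e (In Su : V → Prop) (hSI : ∀ x, Su x → In x) :
    (({v // In v ∧ ¬ Su v} → Fin q) × ({v // Su v} → Fin q) × ({v // ¬ In v} → Fin q)) ≃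
      (V → Fin q) where
  toFun p := A1_g In Su p.1 p.2.1 p.2.2
  invFun f := (fun v => f v.1, fun v => f v.1, fun v => f v.1)
  left_inv p := by
    obtain ⟨x, ξ, y⟩ := p
    refine Prod.ext ?_ (Prod.ext ?_ ?_)
    · funext v
      exact A1_g_I In Su x ξ y v.2.2 v.2.1
    · funext v
      exact A1_g_S In Su x ξ y v.2
    · funext v
      exact A1_g_O In Su x ξ y (fun h => v.2 (hSI _ h)) v.2
  right_inv f := by
    funext v
    by_cases hS : Su v
    · exact A1_g_S In Su _ _ _ hS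
    · by_cases hI : In v
      · exact A1_g_I In Su _ _ _ hS hI
      · exact A1_g_O In Su _ _ _ hS hI

end

open scoped Classical in
private noncomputable def A1_i (P : Prop) : ℝ := if P then 1 else 0

private theorem A1_i_and (P Q : Prop) : A1_i (P ∧ Q) = A1_i P * A1_i Q := by
  unfold A1_i
  by_cases hP : P <;> by_cases hQ : Q <;> simp [hP, hQ]

private theorem A1_i_congr {P Q : Prop} (h : P ↔ Q) : A1_i P = A1_i Q := by
  rw [propext h]

private theorem A1_i_nonneg (P : Prop) : 0 ≤ A1_i P := by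
  unfold A1_i
  split_ifs <;> norm_num

private theorem A1_i_mono {P Q : Prop} (h : P → Q) : A1_i P ≤ A1_i Q := by
  unfold A1_i
  by_cases hP : P
  · rw [if_pos hP, if_pos (h hP)]
  · rw [if_neg hP]
    split_ifs <;> norm_num

private theorem A1_cG {W : Type} [Fintype W] [DecidableEq W] {q : ℕ} (G : SimpleGraph W)
    (P : (W → Fin q) → Prop) : cG G P = ∑ f : W → Fin q, A1_i (PrG G f ∧ P f) := by
  classical
  unfold cG A1_i
  rw [Finset.card_filter, Nat.cast_sum]
  refine Finset.sum_congr rfl fun f _ => ?_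
  by_cases h : PrG G f ∧ P f
  · rw [if_pos h, if_pos h, Nat.cast_one]
  · rw [if_neg h, if_neg h, Nat.cast_zero]

/-- reordering of the six components -/
private def A1_r (X Ξ Y : Type) : ((Ξ × X × X) × (Ξ × Y × Y)) ≃ ((X × Ξ × Y) × (X × Ξ × Y)) where
  toFun p := ((p.1.2.1, p.1.1, p.2.2.1), (p.1.2.2, p.2.1, p.2.2.2))
  invFun p := ((p.1.2.1, p.1.1, p.2.1), (p.2.2.1, p.1.2.2, p.2.2.2))
  left_inv _ := rfl
  right_inv _ := rfl

/-- the functions on two sheets -/
private def A1_b (V : Type) (q : ℕ) : ((V → Fin q) × (V → Fin q)) ≃ (V × Bool → Fin q) where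
  toFun p := fun v => if v.2 then p.2 v.1 else p.1 v.1
  invFun F := (fun v => F (v, false), fun v => F (v, true))
  left_inv p := rfl
  right_inv F := by
    funext ⟨v, b⟩
    cases b <;> rfl

theorem cs_sheets {V : Type} [Fintype V] [DecidableEq V] {q : ℕ} (G : SimpleGraph V) (In Su : V → Prop)
    (hSI : ∀ x, Su x → In x) (hno : ∀ x y, G.Adj x y → ¬ Su x → ¬ Su y → (In x ↔ In y))
    (E : (V → Fin q) → Prop) (hE : ∀ f f' : V → Fin q, (∀ x, In x → f x = f' x) → E f → E f') :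
    cG G E ^ 2 ≤ cG (TX G In Su) (fun F : V × Bool → Fin q => E fun x => F (x, false)) := by
  classical
  set X := {v // In v ∧ ¬ Su v} → Fin q with hX
  set Ξ := {v // Su v} → Fin q with hΞ
  set Y := {v // ¬ In v} → Fin q with hY
  set g : X → Ξ → Y → V → Fin q := A1_g In Su with hg
  -- values inside do not depend on `y`, values outside not on `x`
  have gI : ∀ (x : X) (ξ : Ξ) (y y' : Y) (v : V), In v → g x ξ y v = g x ξ y' v := by
    intro x ξ y y' v hv
    by_cases hS : Su v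
    · rw [hg, A1_g_S In Su _ _ _ hS, A1_g_S In Su _ _ _ hS]
    · rw [hg, A1_g_I In Su _ _ _ hS hv, A1_g_I In Su _ _ _ hS hv]
  have gO : ∀ (x x' : X) (ξ : Ξ) (y : Y) (v : V), (In v → Su v) → g x ξ y v = g x' ξ y v := by
    intro x x' ξ y v hv
    by_cases hS : Su v
    · rw [hg, A1_g_S In Su _ _ _ hS, A1_g_S In Su _ _ _ hS]
    · have hI : ¬ In v := fun h => hS (hv h)
      rw [hg, A1_g_O In Su _ _ _ hS hI, A1_g_O In Su _ _ _ hS hI]
  set α : X → Ξ → Prop := fun x ξ => ∃ y : Y, A1_PI G In (g x ξ y) with hα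
  set β : Ξ → Y → Prop := fun ξ y => ∃ x : X, A1_PO G In Su (g x ξ y) with hβ
  set ε : X → Ξ → Prop := fun x ξ => ∃ y : Y, E (g x ξ y) with hε
  have eα : ∀ x ξ (y : Y), A1_PI G In (g x ξ y) ↔ α x ξ := by
    intro x ξ y
    constructor
    · intro h
      exact ⟨y, h⟩
    · rintro ⟨y', h⟩ u v hu hv huv
      rw [gI x ξ y y' u hu, gI x ξ y y' v hv]
      exact h u v hu hv huv
  have eβ : ∀ (x : X) ξ y, A1_PO G In Su (g x ξ y) ↔ β ξ y := by
    intro x ξ y
    constructor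
    · intro h
      exact ⟨x, h⟩
    · rintro ⟨x', h⟩ u v hu hv huv
      rw [gO x x' ξ y u hu, gO x x' ξ y v hv]
      exact h u v hu hv huv
  have eε : ∀ x ξ (y : Y), E (g x ξ y) ↔ ε x ξ := by
    intro x ξ y
    constructor
    · intro h
      exact ⟨y, h⟩
    · rintro ⟨y', h⟩
      exact hE _ _ (fun v hv => gI x ξ y' y v hv) h
  -- the sums
  set a : Ξ → ℝ := fun ξ => ∑ x : X, A1_i (α x ξ) * A1_i (ε x ξ) with ha
  set a₀ : Ξ → ℝ := fun ξ => ∑ x : X, A1_i (α x ξ) with ha₀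
  set b : Ξ → ℝ := fun ξ => ∑ y : Y, A1_i (β ξ y) with hb
  have h1 : cG G E = ∑ ξ : Ξ, a ξ * b ξ := by
    rw [A1_cG, ← Equiv.sum_comp (A1_e In Su hSI)]
    rw [Fintype.sum_prod_type]
    have h2 : ∀ (x : X), ∑ p : Ξ × Y, A1_i (PrG G (A1_e In Su hSI (x, p)) ∧ E (A1_e In Su hSI (x, p))) =
        ∑ ξ : Ξ, ∑ y : Y, (A1_i (α x ξ) * A1_i (ε x ξ)) * A1_i (β ξ y) := by
      intro x
      rw [Fintype.sum_prod_type]
      refine Finset.sum_congr rfl fun ξ _ => Finset.sum_congr rfl fun y _ => ?_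
      have h3 : A1_e In Su hSI (x, ξ, y) = g x ξ y := rfl
      rw [h3, A1_i_and, A1_i_congr (A1_pr G In Su hSI hno _), A1_i_and,
        A1_i_congr (eα x ξ y), A1_i_congr (eβ x ξ y), A1_i_congr (eε x ξ y)]
      ring
    rw [Finset.sum_congr rfl fun x _ => h2 x, Finset.sum_comm]
    refine Finset.sum_congr rfl fun ξ _ => ?_
    rw [ha, hb]
    simp only
    rw [Finset.sum_mul_sum]
  have h4 : cG (TX G In Su) (fun F : V × Bool → Fin q => E fun x => F (x, false)) =
      (∑ ξ : Ξ, a ξ * a₀ ξ) * ∑ ξ : Ξ, b ξ ^ 2 := by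
    rw [A1_cG, ← Equiv.sum_comp (A1_b V q),
      ← Equiv.sum_comp (Equiv.prodCongr (A1_e In Su hSI) (A1_e In Su hSI)),
      ← Equiv.sum_comp (A1_r X Ξ Y)]
    have h5 : ∀ p : (Ξ × X × X) × (Ξ × Y × Y),
        A1_i (PrG (TX G In Su) (A1_b V q (Equiv.prodCongr (A1_e In Su hSI) (A1_e In Su hSI)
          (A1_r X Ξ Y p))) ∧ E fun x => A1_b V q (Equiv.prodCongr (A1_e In Su hSI)
          (A1_e In Su hSI) (A1_r X Ξ Y p)) (x, false)) =
        ((A1_i (α p.1.2.1 p.1.1) * A1_i (ε p.1.2.1 p.1.1)) * A1_i (α p.1.2.2 p.1.1)) *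
          (A1_i (β p.2.1 p.2.2.1) * A1_i (β p.2.1 p.2.2.2)) := by
      rintro ⟨⟨ξ, x, x'⟩, ⟨ξ', y, y'⟩⟩
      have h6 := A1_TX G In Su hSI hno (A1_b V q (g x ξ y, g x' ξ' y')) (g x ξ y) (g x' ξ' y')
        (g x' ξ y') (g x ξ' y) (fun v => rfl) (fun v => rfl)
        (fun v => by
          by_cases hS : Su v
          · rw [if_pos hS, hg, A1_g_S In Su _ _ _ hS, A1_g_S In Su _ _ _ hS]
          · rw [if_neg hS]
            by_cases hI : In v
            · rw [hg, A1_g_I In Su _ _ _ hS hI, A1_g_I In Su _ _ _ hS hI]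
            · rw [hg, A1_g_O In Su _ _ _ hS hI, A1_g_O In Su _ _ _ hS hI])
        (fun v => by
          by_cases hS : Su v
          · rw [if_pos hS, hg, A1_g_S In Su _ _ _ hS, A1_g_S In Su _ _ _ hS]
          · rw [if_neg hS]
            by_cases hI : In v
            · rw [hg, A1_g_I In Su _ _ _ hS hI, A1_g_I In Su _ _ _ hS hI]
            · rw [hg, A1_g_O In Su _ _ _ hS hI, A1_g_O In Su _ _ _ hS hI])
      have h7 : A1_b V q (Equiv.prodCongr (A1_e In Su hSI) (A1_e In Su hSI)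
          (A1_r X Ξ Y ((ξ, x, x'), (ξ', y, y')))) = A1_b V q (g x ξ y, g x' ξ' y') := rfl
      rw [h7]
      have h8 : (fun v => A1_b V q (g x ξ y, g x' ξ' y') (v, false)) = g x ξ y := rfl
      rw [h8, A1_i_and, A1_i_congr h6, A1_i_and, A1_i_and, A1_i_and, A1_i_congr (eα x ξ y),
        A1_i_congr (eα x' ξ y'), A1_i_congr (eβ x ξ' y), A1_i_congr (eβ x' ξ' y'),
        A1_i_congr (eε x ξ y)]
      ring
    rw [Finset.sum_congr rfl fun p _ => h5 p, Fintype.sum_prod_type]
    dsimp only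
    rw [← Finset.sum_mul_sum]
    congr 1
    · rw [Fintype.sum_prod_type]
      refine Finset.sum_congr rfl fun ξ _ => ?_
      rw [ha, ha₀, Fintype.sum_prod_type]
      simp only
      rw [Finset.sum_mul_sum]
    · rw [Fintype.sum_prod_type]
      refine Finset.sum_congr rfl fun ξ _ => ?_
      rw [hb, Fintype.sum_prod_type, sq]
      simp only
      rw [Finset.sum_mul_sum]
  rw [h1, h4]
  refine (Finset.sum_mul_sq_le_sq_mul_sq univ a b).trans ?_
  refine mul_le_mul_of_nonneg_right ?_ (Finset.sum_nonneg fun ξ _ => sq_nonneg _)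
  refine Finset.sum_le_sum fun ξ _ => ?_
  rw [sq]
  have ha1 : 0 ≤ a ξ := Finset.sum_nonneg fun x _ => mul_nonneg (A1_i_nonneg _) (A1_i_nonneg _)
  refine mul_le_mul_of_nonneg_left ?_ ha1
  refine Finset.sum_le_sum fun x _ => ?_
  rw [← A1_i_and]
  exact A1_i_mono fun h => h.1

end Pool.Agent.LC

end

/-! ### from `Lib_MP_2c424f_lc6.C12` -/

section

/-!
# LC6 C12: counting the bad blocks

`t : ∀ i, Fin (nbk (per i) (L i))` is `(t j, t restricted to i ≠ j)` (`Equiv.piSplitAt`).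
-/

set_option autoImplicit false

open Finset

namespace Pool.Agent.LC

open Pool.Agent.LO Pool.Agent.LIN Pool.Agent.THR Pool.Agent.COR

variable {d q : ℕ}

theorem Wn_slabs (per : Fin d → Bool) (L : Fin d → ℕ) (j : Fin d) (Γ : (Fin d → ℕ) → Option (Option (Fin q))) :
    Wn per L Γ = ∑ ℓ ∈ range (nbk (per j) (L j)), wnS j (fun i => per i) L Γ ℓ := by
  classical
  have key : ∀ (x : Fin (nbk (per j) (L j))) (y : ∀ i : {i // i ≠ j}, Fin (nbk (per i) (L i))),
      (fun i => (((Equiv.piSplitAt j fun i => Fin (nbk (per i) (L i))).symm (x, y)) i).val) =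
        fun i => if h : i = j then x.val else (y ⟨i, h⟩).val := by
    intro x y
    funext i
    by_cases h : i = j
    · subst h
      simp [Equiv.piSplitAt]
    · simp [Equiv.piSplitAt, h]
  have h1 : Wn per L Γ = ∑ t : ∀ i, Fin (nbk (per i) (L i)), if Γ (fun i => (t i).val) ≠ none then 1 else 0 := by
    unfold Wn
    rw [Finset.card_filter]
  have h2 : ∀ ℓ, wnS j (fun i => per i) L Γ ℓ = ∑ t : ∀ i : {i // i ≠ j}, Fin (nbk (per i) (L i)),
      if Γ (fun i => if h : i = j then ℓ else (t ⟨i, h⟩).val) ≠ none then 1 else 0 := by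
    intro ℓ
    unfold wnS
    rw [Finset.card_filter]
  rw [h1, ← (Equiv.piSplitAt j fun i => Fin (nbk (per i) (L i))).symm.sum_comp, Fintype.sum_prod_type,
    ← Fin.sum_univ_eq_sum_range (fun ℓ => wnS j (fun i => per i) L Γ ℓ)]
  refine Finset.sum_congr rfl fun x _ => ?_
  rw [h2]
  refine Finset.sum_congr rfl fun y _ => ?_
  rw [key x y]

theorem Wn_update (per : Fin d → Bool) (L : Fin d → ℕ) (j : Fin d) (Γ : (Fin d → ℕ) → Option (Option (Fin q))) (ℓ : ℕ) :
    Wn (Function.update per j true) L (fun t => Γ (Function.update t j ℓ)) = L j * wnS j (fun i => per i) L Γ ℓ := by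
  classical
  rw [Wn_slabs (Function.update per j true) L j]
  have h1 : (fun i : {i // i ≠ j} => Function.update per j true i) = fun i : {i // i ≠ j} => per i := by
    funext i
    rw [Function.update_of_ne i.2]
  rw [h1]
  have h2 : ∀ ℓ', wnS j (fun i => per i) L (fun t => Γ (Function.update t j ℓ)) ℓ' = wnS j (fun i => per i) L Γ ℓ := by
    intro ℓ'
    unfold wnS
    congr 1
    refine Finset.filter_congr fun t _ => ?_
    have h3 : Function.update (fun i => if h : i = j then ℓ' else (t ⟨i, h⟩).val) j ℓ =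
        fun i => if h : i = j then ℓ else (t ⟨i, h⟩).val := by
      funext i
      by_cases h : i = j
      · subst h
        simp
      · rw [Function.update_of_ne h]
        simp [h]
    show Γ (Function.update (fun i => if h : i = j then ℓ' else (t ⟨i, h⟩).val) j ℓ) ≠ none ↔ _
    rw [h3]
  rw [Finset.sum_congr rfl fun ℓ' _ => h2 ℓ', Finset.sum_const, Finset.card_range, smul_eq_mul,
    Function.update_self]
  rfl

end Pool.Agent.LC

end
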