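import Pool.Agent.Lib_MP_2c424f_m.M34

/-!
# MP_2c424f_pr, q_c grows linearly: merged library part M35

Concatenation of smaller files (each in its own section), only to save build time.
-/

namespace Pool.Agent.LO
end Pool.Agent.LO

namespace Pool.Agent.LIN
end Pool.Agent.LIN

namespace Pool.Agent.THR
end Pool.Agent.THR

namespace Pool.Agent.COR
end Pool.Agent.COR

/-! ### from `Lib_MP_2c424f_lc6a.B7` -/

section

/-!
# LC6a B7: few removed sites

`{x : RR x}` is contained in the union over `k ∈ I` and the ordered pairs `i ≠ i'` of the set of the `x` with `x j ∈ [a j, a j + m j]` for `j ≠ i, i'` and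
(`x i ∈ {a, a + m}` and `x i'` in one of two intervals with `2 h + 2` points) or (`x i` in one of two intervals with `2 h + 1` points and `x i'` one of two values):
at most `(2 (4 h + 4) + 2 (4 h + 2)) ∏_{j ≠ i, i'} (m j + 1) ≤ 28 h ∏_{j ≠ i, i'} (m j + 1)` (`1 ≤ h`).  Since `h x ≤ m i' + 1`:
`h ∏_{j ≠ i, i'} (m j + 1) ≤ (1/x) ∏_{j ≠ i} (m j + 1)`.  Sum over `i'` (at most `d` values), `i`, `k`: `28 (d/x) ∑_k ∑_i ∏_{j ≠ i} (m j + 1) = 14 (d/x) YY`.
-/

set_option autoImplicit false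

open Finset Filter

namespace Pool.Agent.LC

open Pool.Agent.LO Pool.Agent.LIN Pool.Agent.THR Pool.Agent.COR

variable {d N h : ℕ} {ι : Type} (D : Bxs d N h ι)

private theorem B7_ival (N lo hi : ℕ) :
    (univ.filter fun t : Fin (N + 1) => lo ≤ t.val ∧ t.val ≤ hi).card ≤ hi + 1 - lo := by
  rw [← Nat.card_Icc]
  refine Finset.card_le_card_of_injOn (fun t => t.val) ?_ ?_
  · intro t ht
    have h := (Finset.mem_filter.1 ht).2
    exact Finset.mem_coe.2 (Finset.mem_Icc.2 h)
  · intro t _ t' _ h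
    exact Fin.ext h

private theorem B7_two (N lo1 hi1 lo2 hi2 : ℕ) (P : Fin (N + 1) → Prop) [DecidablePred P]
    (h : ∀ t, P t → (lo1 ≤ t.val ∧ t.val ≤ hi1) ∨ (lo2 ≤ t.val ∧ t.val ≤ hi2)) :
    (univ.filter P).card ≤ (hi1 + 1 - lo1) + (hi2 + 1 - lo2) := by
  have hsub : univ.filter P ⊆ (univ.filter fun t : Fin (N + 1) => lo1 ≤ t.val ∧ t.val ≤ hi1) ∪
      (univ.filter fun t : Fin (N + 1) => lo2 ≤ t.val ∧ t.val ≤ hi2) := by
    intro t ht
    rw [Finset.mem_union, Finset.mem_filter, Finset.mem_filter]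
    rcases h t (Finset.mem_filter.1 ht).2 with h1 | h1
    · exact Or.inl ⟨mem_univ _, h1⟩
    · exact Or.inr ⟨mem_univ _, h1⟩
  exact (Finset.card_le_card hsub).trans ((Finset.card_union_le _ _).trans
    (Nat.add_le_add (B7_ival N lo1 hi1) (B7_ival N lo2 hi2)))

private theorem B7_pi {d N : ℕ} (i i' : Fin d) (hne : i ≠ i') (A B : Finset (Fin (N + 1)))
    (C : Fin d → Finset (Fin (N + 1))) (S : BxV d N → Prop) [DecidablePred S]
    (hS : ∀ v, S v → v i ∈ A ∧ v i' ∈ B ∧ ∀ j, j ≠ i → j ≠ i' → v j ∈ C j) :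
    (univ.filter S).card ≤ A.card * (B.card * ∏ j ∈ (univ.erase i).erase i', (C j).card) := by
  set F : Fin d → Finset (Fin (N + 1)) := fun j => if j = i then A else if j = i' then B else C j with hF
  have hsub : univ.filter S ⊆ Fintype.piFinset F := by
    intro v hv
    obtain ⟨h1, h2, h3⟩ := hS v (Finset.mem_filter.1 hv).2
    rw [Fintype.mem_piFinset]
    intro j
    by_cases hj : j = i
    · rw [hF]
      simp only [if_pos hj]
      rw [hj]
      exact h1
    · by_cases hj' : j = i'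
      · rw [hF]
        simp only [if_neg hj, if_pos hj']
        rw [hj']
        exact h2
      · rw [hF]
        simp only [if_neg hj, if_neg hj']
        exact h3 j hj hj'
  refine (Finset.card_le_card hsub).trans (le_of_eq ?_)
  rw [Fintype.card_piFinset, ← Finset.mul_prod_erase univ (fun j => (F j).card) (Finset.mem_univ i),
    ← Finset.mul_prod_erase (univ.erase i) (fun j => (F j).card) (Finset.mem_erase.2 ⟨hne.symm, Finset.mem_univ i'⟩)]
  have h1 : (F i).card = A.card := by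
    rw [hF]
    simp only [if_true]
  have h2 : (F i').card = B.card := by
    rw [hF]
    simp only [if_neg hne.symm, if_true]
  rw [h1, h2]
  congr 2
  refine Finset.prod_congr rfl fun j hj => ?_
  have h3 := Finset.mem_erase.1 hj
  have h4 := Finset.mem_erase.1 h3.2
  rw [hF]
  simp only [if_neg h4.1, if_neg h3.1]

open scoped Classical in
/-- the removed sites of one box at one pair of directions -/
private def B7_S (k : ι) (i i' : Fin d) (x : BxV d N) : Prop :=
  (∀ j, j ≠ i → j ≠ i' → D.a k j ≤ (x j).val ∧ (x j).val ≤ D.a k j + D.m k j) ∧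
  ((((x i).val = D.a k i ∨ (x i).val = D.a k i + D.m k i) ∧ (D.a k i' ≤ (x i').val ∧ (x i').val ≤ D.a k i' + D.m k i') ∧
      ((x i').val ≤ D.a k i' + 2 * h + 1 ∨ D.a k i' + D.m k i' ≤ (x i').val + 2 * h + 1)) ∨
    (((D.a k i ≤ (x i).val + h ∧ (x i).val ≤ D.a k i + h) ∨
        (D.a k i + D.m k i ≤ (x i).val + h ∧ (x i).val ≤ D.a k i + D.m k i + h)) ∧
      ((x i').val = D.a k i' + 2 * h + 1 ∨ (x i').val + 2 * h + 1 = D.a k i' + D.m k i')))

open scoped Classical in
private theorem B7_S_card (hh : 1 ≤ h) {k : ι} (hk : k ∈ D.I) (i i' : Fin d) (hne : i ≠ i') :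
    (univ.filter fun v : BxV d N => B7_S D k i i' v).card ≤
      28 * h * ∏ j ∈ (univ.erase i).erase i', (D.m k j + 1) := by
  have hlo := D.lo k hk
  have hbig := D.big k hk
  set C : Fin d → Finset (Fin (N + 1)) := fun j =>
    univ.filter fun t : Fin (N + 1) => D.a k j ≤ t.val ∧ t.val ≤ D.a k j + D.m k j with hC
  have hCc : ∀ j, (C j).card ≤ D.m k j + 1 := by
    intro j
    have h1 := B7_ival N (D.a k j) (D.a k j + D.m k j)
    rw [hC]
    refine h1.trans ?_
    omega
  have hCp : ∏ j ∈ (univ.erase i).erase i', (C j).card ≤ ∏ j ∈ (univ.erase i).erase i', (D.m k j + 1) :=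
    Finset.prod_le_prod' fun j _ => hCc j
  have h1 : (univ.filter fun v : BxV d N =>
      (∀ j, j ≠ i → j ≠ i' → D.a k j ≤ (v j).val ∧ (v j).val ≤ D.a k j + D.m k j) ∧
      (((v i).val = D.a k i ∨ (v i).val = D.a k i + D.m k i) ∧ (D.a k i' ≤ (v i').val ∧ (v i').val ≤ D.a k i' + D.m k i') ∧
      ((v i').val ≤ D.a k i' + 2 * h + 1 ∨ D.a k i' + D.m k i' ≤ (v i').val + 2 * h + 1))).card ≤
      2 * ((4 * h + 4) * ∏ j ∈ (univ.erase i).erase i', (D.m k j + 1)) := by
    refine (B7_pi i i' hne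
      (univ.filter fun t : Fin (N + 1) => t.val = D.a k i ∨ t.val = D.a k i + D.m k i)
      (univ.filter fun t : Fin (N + 1) => (D.a k i' ≤ t.val ∧ t.val ≤ D.a k i' + D.m k i') ∧
        (t.val ≤ D.a k i' + 2 * h + 1 ∨ D.a k i' + D.m k i' ≤ t.val + 2 * h + 1)) C _ ?_).trans ?_
    · rintro v ⟨h1, h2, h3, h4⟩
      refine ⟨Finset.mem_filter.2 ⟨mem_univ _, h2⟩, Finset.mem_filter.2 ⟨mem_univ _, h3, h4⟩, fun j hj hj' => ?_⟩
      rw [hC]
      exact Finset.mem_filter.2 ⟨mem_univ _, h1 j hj hj'⟩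
    · have hA := B7_two N (D.a k i) (D.a k i) (D.a k i + D.m k i) (D.a k i + D.m k i)
        (fun t : Fin (N + 1) => t.val = D.a k i ∨ t.val = D.a k i + D.m k i) (by
          intro t ht
          rcases ht with ht | ht
          · left
            omega
          · right
            omega)
      have hB := B7_two N (D.a k i') (D.a k i' + 2 * h + 1) (D.a k i' + D.m k i' - (2 * h + 1)) (D.a k i' + D.m k i')
        (fun t : Fin (N + 1) => (D.a k i' ≤ t.val ∧ t.val ≤ D.a k i' + D.m k i') ∧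
        (t.val ≤ D.a k i' + 2 * h + 1 ∨ D.a k i' + D.m k i' ≤ t.val + 2 * h + 1)) (by
          intro t ht
          obtain ⟨ht1, ht2⟩ := ht
          rcases ht2 with ht | ht
          · left
            omega
          · right
            omega)
      have hbi := hbig i'
      have hli := hlo i'
      refine Nat.mul_le_mul (hA.trans (by omega)) (Nat.mul_le_mul (hB.trans (by omega)) hCp)
  have h2 : (univ.filter fun v : BxV d N =>
      (∀ j, j ≠ i → j ≠ i' → D.a k j ≤ (v j).val ∧ (v j).val ≤ D.a k j + D.m k j) ∧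
      (((D.a k i ≤ (v i).val + h ∧ (v i).val ≤ D.a k i + h) ∨
        (D.a k i + D.m k i ≤ (v i).val + h ∧ (v i).val ≤ D.a k i + D.m k i + h)) ∧
      ((v i').val = D.a k i' + 2 * h + 1 ∨ (v i').val + 2 * h + 1 = D.a k i' + D.m k i'))).card ≤
      (4 * h + 2) * (2 * ∏ j ∈ (univ.erase i).erase i', (D.m k j + 1)) := by
    refine (B7_pi i i' hne
      (univ.filter fun t : Fin (N + 1) => (D.a k i ≤ t.val + h ∧ t.val ≤ D.a k i + h) ∨
        (D.a k i + D.m k i ≤ t.val + h ∧ t.val ≤ D.a k i + D.m k i + h))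
      (univ.filter fun t : Fin (N + 1) => t.val = D.a k i' + 2 * h + 1 ∨ t.val + 2 * h + 1 = D.a k i' + D.m k i') C _ ?_).trans ?_
    · rintro v ⟨h1, h2, h3⟩
      refine ⟨Finset.mem_filter.2 ⟨mem_univ _, h2⟩, Finset.mem_filter.2 ⟨mem_univ _, h3⟩, fun j hj hj' => ?_⟩
      rw [hC]
      exact Finset.mem_filter.2 ⟨mem_univ _, h1 j hj hj'⟩
    · have hli := hlo i
      have hbi := hbig i
      have hA := B7_two N (D.a k i - h) (D.a k i + h) (D.a k i + D.m k i - h) (D.a k i + D.m k i + h)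
        (fun t : Fin (N + 1) => (D.a k i ≤ t.val + h ∧ t.val ≤ D.a k i + h) ∨
        (D.a k i + D.m k i ≤ t.val + h ∧ t.val ≤ D.a k i + D.m k i + h)) (by
          intro t ht
          rcases ht with ht | ht
          · left
            omega
          · right
            omega)
      have hB := B7_two N (D.a k i' + 2 * h + 1) (D.a k i' + 2 * h + 1) (D.a k i' + D.m k i' - (2 * h + 1))
        (D.a k i' + D.m k i' - (2 * h + 1))
        (fun t : Fin (N + 1) => t.val = D.a k i' + 2 * h + 1 ∨ t.val + 2 * h + 1 = D.a k i' + D.m k i') (by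
          intro t ht
          rcases ht with ht | ht
          · left
            omega
          · right
            omega)
      refine Nat.mul_le_mul (hA.trans (by omega)) (Nat.mul_le_mul (hB.trans (by omega)) hCp)
  have hsub : (univ.filter fun v : BxV d N => B7_S D k i i' v) ⊆ (univ.filter fun v : BxV d N =>
      (∀ j, j ≠ i → j ≠ i' → D.a k j ≤ (v j).val ∧ (v j).val ≤ D.a k j + D.m k j) ∧
      (((v i).val = D.a k i ∨ (v i).val = D.a k i + D.m k i) ∧ (D.a k i' ≤ (v i').val ∧ (v i').val ≤ D.a k i' + D.m k i') ∧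
      ((v i').val ≤ D.a k i' + 2 * h + 1 ∨ D.a k i' + D.m k i' ≤ (v i').val + 2 * h + 1))) ∪
      (univ.filter fun v : BxV d N =>
      (∀ j, j ≠ i → j ≠ i' → D.a k j ≤ (v j).val ∧ (v j).val ≤ D.a k j + D.m k j) ∧
      (((D.a k i ≤ (v i).val + h ∧ (v i).val ≤ D.a k i + h) ∨
        (D.a k i + D.m k i ≤ (v i).val + h ∧ (v i).val ≤ D.a k i + D.m k i + h)) ∧
      ((v i').val = D.a k i' + 2 * h + 1 ∨ (v i').val + 2 * h + 1 = D.a k i' + D.m k i'))) := by
    intro v hv
    obtain ⟨h3, h4⟩ := (Finset.mem_filter.1 hv).2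
    rw [Finset.mem_union, Finset.mem_filter, Finset.mem_filter]
    rcases h4 with h4 | h4
    · exact Or.inl ⟨mem_univ _, h3, h4⟩
    · exact Or.inr ⟨mem_univ _, h3, h4⟩
  refine (Finset.card_le_card hsub).trans ((Finset.card_union_le _ _).trans ((Nat.add_le_add h1 h2).trans ?_))
  set P := ∏ j ∈ (univ.erase i).erase i', (D.m k j + 1) with hP
  have h3 : 2 * ((4 * h + 4) * P) + (4 * h + 2) * (2 * P) = (16 * h + 12) * P := by ring
  rw [h3]
  exact Nat.mul_le_mul_right _ (by omega)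

open scoped Classical in
private theorem B7_S_real (hh : 1 ≤ h) (x : ℝ) (hx : 0 < x) {k : ι} (hk : k ∈ D.I)
    (hm : ∀ i, (h : ℝ) * x ≤ D.m k i) (i i' : Fin d) (hne : i ≠ i') :
    ((univ.filter fun v : BxV d N => B7_S D k i i' v).card : ℝ) ≤
      28 / x * ∏ j ∈ univ.erase i, ((D.m k j : ℝ) + 1) := by
  have h1 : ((univ.filter fun v : BxV d N => B7_S D k i i' v).card : ℝ) ≤
      28 * h * ∏ j ∈ (univ.erase i).erase i', ((D.m k j : ℝ) + 1) := by
    have h2 := B7_S_card D hh hk i i' hne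
    have h3 : (((univ.filter fun v : BxV d N => B7_S D k i i' v).card : ℕ) : ℝ) ≤
        ((28 * h * ∏ j ∈ (univ.erase i).erase i', (D.m k j + 1) : ℕ) : ℝ) := by exact_mod_cast h2
    push_cast at h3
    exact h3
  refine h1.trans ?_
  rw [← Finset.mul_prod_erase (univ.erase i) (fun j => (D.m k j : ℝ) + 1) (Finset.mem_erase.2 ⟨hne.symm, Finset.mem_univ i'⟩)]
  have hP : 0 ≤ ∏ j ∈ (univ.erase i).erase i', ((D.m k j : ℝ) + 1) :=
    Finset.prod_nonneg fun j _ => by positivity
  have h4 := hm i'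
  rw [← mul_assoc]
  refine mul_le_mul_of_nonneg_right ?_ hP
  rw [div_mul_eq_mul_div, le_div_iff₀ hx]
  nlinarith

open scoped Classical in
theorem RR_card (hh : 1 ≤ h) (x : ℝ) (hx : 0 < x) (hm : ∀ k ∈ D.I, ∀ i, (h : ℝ) * x ≤ D.m k i) :
    ((univ.filter fun v : BxV d N => D.RR v).card : ℝ) ≤ 14 * d / x * D.YY := by
  have hsub : (univ.filter fun v : BxV d N => D.RR v) ⊆
      D.I.biUnion fun k => (univ : Finset (Fin d)).biUnion fun i => (univ.erase i).biUnion fun i' =>
        univ.filter fun v : BxV d N => B7_S D k i i' v := by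
    intro v hv
    obtain ⟨k, hk, i, i', hne, h1⟩ := (Finset.mem_filter.1 hv).2
    rw [Finset.mem_biUnion]
    refine ⟨k, hk, ?_⟩
    rw [Finset.mem_biUnion]
    refine ⟨i, mem_univ _, ?_⟩
    rw [Finset.mem_biUnion]
    exact ⟨i', Finset.mem_erase.2 ⟨hne.symm, mem_univ _⟩, Finset.mem_filter.2 ⟨mem_univ _, h1⟩⟩
  have h1 : ((univ.filter fun v : BxV d N => D.RR v).card : ℝ) ≤ ∑ k ∈ D.I, ∑ i : Fin d, ∑ i' ∈ univ.erase i,
      ((univ.filter fun v : BxV d N => B7_S D k i i' v).card : ℝ) := by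
    have h2 : (univ.filter fun v : BxV d N => D.RR v).card ≤ ∑ k ∈ D.I, ∑ i : Fin d, ∑ i' ∈ univ.erase i,
        (univ.filter fun v : BxV d N => B7_S D k i i' v).card :=
      (Finset.card_le_card hsub).trans (Finset.card_biUnion_le.trans (Finset.sum_le_sum fun k _ =>
        Finset.card_biUnion_le.trans (Finset.sum_le_sum fun i _ => Finset.card_biUnion_le)))
    exact_mod_cast h2
  refine h1.trans ?_
  have h2 : ∀ k ∈ D.I, ∑ i : Fin d, ∑ i' ∈ univ.erase i, ((univ.filter fun v : BxV d N => B7_S D k i i' v).card : ℝ) ≤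
      14 * d / x * (2 * ∑ i, ∏ i' ∈ univ.erase i, ((D.m k i' : ℝ) + 1)) := by
    intro k hk
    have h3 : ∀ i : Fin d, ∑ i' ∈ univ.erase i, ((univ.filter fun v : BxV d N => B7_S D k i i' v).card : ℝ) ≤
        d * (28 / x * ∏ j ∈ univ.erase i, ((D.m k j : ℝ) + 1)) := by
      intro i
      have h0 : 0 ≤ 28 / x * ∏ j ∈ univ.erase i, ((D.m k j : ℝ) + 1) :=
        mul_nonneg (by positivity) (Finset.prod_nonneg fun j _ => by positivity)
      calc ∑ i' ∈ univ.erase i, ((univ.filter fun v : BxV d N => B7_S D k i i' v).card : ℝ)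
          ≤ ∑ _i' ∈ univ.erase i, (28 / x * ∏ j ∈ univ.erase i, ((D.m k j : ℝ) + 1)) :=
            Finset.sum_le_sum fun i' hi' => B7_S_real D hh x hx hk (hm k hk) i i' (Finset.mem_erase.1 hi').1.symm
        _ = ((univ.erase i).card : ℝ) * (28 / x * ∏ j ∈ univ.erase i, ((D.m k j : ℝ) + 1)) := by
            rw [Finset.sum_const, nsmul_eq_mul]
        _ ≤ d * (28 / x * ∏ j ∈ univ.erase i, ((D.m k j : ℝ) + 1)) := by
            refine mul_le_mul_of_nonneg_right ?_ h0
            have h4 : (univ.erase i).card ≤ d := by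
              refine (Finset.card_le_univ _).trans ?_
              rw [Fintype.card_fin]
            exact_mod_cast h4
    calc ∑ i : Fin d, ∑ i' ∈ univ.erase i, ((univ.filter fun v : BxV d N => B7_S D k i i' v).card : ℝ)
        ≤ ∑ i : Fin d, d * (28 / x * ∏ j ∈ univ.erase i, ((D.m k j : ℝ) + 1)) := Finset.sum_le_sum fun i _ => h3 i
      _ = 14 * d / x * (2 * ∑ i, ∏ i' ∈ univ.erase i, ((D.m k i' : ℝ) + 1)) := by
          rw [Finset.mul_sum, Finset.mul_sum]
          refine Finset.sum_congr rfl fun i _ => ?_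
          ring
  unfold Bxs.YY
  rw [Finset.mul_sum]
  exact Finset.sum_le_sum h2

end Pool.Agent.LC

end

/-! ### from `Lib_MP_2c424f_lc5.Defs5n` -/

section

/-!
# Part V: the numerical situation of the switching theorem

`l = 2^s` side of the cells, `h` number of levels, `n` number of cells, `λ` number of points of the layer, `Y` bound for the
size of the levels.
-/

set_option autoImplicit false

open Finset Filter

namespace Pool.Agent.LC

open Pool.Agent.LO Pool.Agent.LIN Pool.Agent.THR Pool.Agent.COR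

/-- the numerical hypotheses of `switch` -/
structure NumH (C d q s h n lam : ℕ) (Y : ℝ) : Prop where
  hR : Rg d q
  h1 : (d : ℝ) ^ C ≤ 2 ^ s
  h2 : (2 : ℝ) ^ s * (d : ℝ) ^ C ≤ h
  h3 : (h : ℝ) ^ 2 ≤ 2 ^ d
  h4 : 1 ≤ n
  h5 : (lam : ℝ) ≤ h * Y
  h6 : h * Y * (1 - 1 / (d : ℝ) ^ C) ≤ n * ((2 : ℝ) ^ s + 1) ^ d
  h7 : n * ((2 : ℝ) ^ s + 1) ^ d ≤ lam

end Pool.Agent.LC

end

/-! ### from `Lib_MP_2c424f_lc5.V14` -/

section

/-!
# Part V, V14: representations of the points of a box, atypical points of one box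

`reps_le`: a point `z` with `inn 1 z` (`1 ≤ z i ≤ l - 1`, `l` even) has at least (exactly) `2^d` representations `z = bpt t a b`: in every
coordinate two: `z i = 2 s`: `(s, 0, 0)` and `(s - 1, 1, 1)`; `z i = 2 s + 1`: `(s, 1, 0)` and `(s, 0, 1)`.
`cell_atyp`: apply it to `P z := inn 3 z ∧ ¬ Ty d (bG d l) bev A f z`; a triple `(t, a, b)` with `P (bpt t a b)` for which
`GDP (pattern of t)` and `ALP (pattern of t) = A` is counted in the first set on the right (`GDP` contains `G0P`); the others: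
at most `4^d` triples for each `t`.
-/

set_option autoImplicit false

open Finset Filter

namespace Pool.Agent.LC

open Pool.Agent.LO Pool.Agent.LIN Pool.Agent.THR Pool.Agent.COR

open scoped Classical in
theorem reps_le {d l : ℕ} (hl : Even l) (P : BxV d l → Prop) :
    2 ^ d * ((univ.filter fun z : BxV d l => inn 1 z ∧ P z).card : ℝ) ≤
      ((univ.filter fun p : (Fin d → Fin (l / 2)) × Bt d × Bt d => P (bpt p.1 p.2.1 p.2.2)).card : ℝ) := by
  have hl2 : 2 * (l / 2) = l := by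
    obtain ⟨m, hm⟩ := hl
    omega
  set S : Finset (BxV d l) := univ.filter fun z : BxV d l => inn 1 z ∧ P z with hS
  set T : Finset ((Fin d → Fin (l / 2)) × Bt d × Bt d) :=
    univ.filter fun p : (Fin d → Fin (l / 2)) × Bt d × Bt d => P (bpt p.1 p.2.1 p.2.2) with hT
  have hcardBt : (univ : Finset (Bt d)).card = 2 ^ d := by
    rw [Finset.card_univ]
    simp [Bt]
  rcases Nat.eq_zero_or_pos (l / 2) with h0 | hpos
  · -- `l = 0`
    have hl0 : l = 0 := by omega
    by_cases hd : d = 0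
    · subst hd
      have h1 : S.card ≤ T.card := by
        refine Finset.card_le_card_of_injOn (fun z => (fun i => i.elim0, fun i => i.elim0,
          fun i => i.elim0)) ?_ ?_
        · intro z hz
          rw [Finset.mem_coe, hS, Finset.mem_filter] at hz
          rw [Finset.mem_coe, hT, Finset.mem_filter]
          refine ⟨Finset.mem_univ _, ?_⟩
          have : z = bpt (fun i => i.elim0) (fun i => i.elim0) (fun i => i.elim0) :=
            funext fun i => i.elim0
          rw [← this]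
          exact hz.2.2
        · intro z _ z' _ _
          exact funext fun i => i.elim0
      have h2 : (S.card : ℝ) ≤ T.card := by exact_mod_cast h1
      simpa using h2
    · have h1 : S = ∅ := by
        rw [hS, Finset.filter_eq_empty_iff]
        intro z _ hz
        have := hz.1 ⟨0, by omega⟩
        omega
      rw [h1]
      simp
  · have hb : ∀ c : Bool, b01 c ≤ 1 := fun c => by
      unfold b01
      split_ifs <;> omega
    have key : (S ×ˢ (univ : Finset (Bt d))).card ≤ T.card := by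
      refine Finset.card_le_card_of_injOn (fun zb => (fun i =>
        (⟨min ((((zb.1 i).val - b01 (zb.2 i)) / 2)) (l / 2 - 1), by omega⟩ : Fin (l / 2)),
        fun i => decide (((zb.1 i).val - b01 (zb.2 i)) % 2 = 1), zb.2)) ?_ ?_
      · rintro ⟨z, b⟩ hz
        rw [Finset.mem_coe, Finset.mem_product, hS, Finset.mem_filter] at hz
        obtain ⟨⟨-, hz1, hz2⟩, -⟩ := hz
        rw [Finset.mem_coe, hT, Finset.mem_filter]
        refine ⟨Finset.mem_univ _, ?_⟩
        have : z = bpt (fun i =>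
            (⟨min ((((z i).val - b01 (b i)) / 2)) (l / 2 - 1), by omega⟩ : Fin (l / 2)))
            (fun i => decide (((z i).val - b01 (b i)) % 2 = 1)) b := by
          funext i
          apply Fin.ext
          show (z i).val = 2 * min (((z i).val - b01 (b i)) / 2) (l / 2 - 1) +
            b01 (decide (((z i).val - b01 (b i)) % 2 = 1)) + b01 (b i)
          have h1 : 1 ≤ (z i).val ∧ (z i).val + 1 ≤ l := hz1 i
          have h2 := hb (b i)
          have h3 : b01 (decide (((z i).val - b01 (b i)) % 2 = 1)) =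
              ((z i).val - b01 (b i)) % 2 := by
            unfold b01
            by_cases h : ((z i).val - (if b i then 1 else 0)) % 2 = 1
            · simp [h]
            · have h' : ((z i).val - (if b i then 1 else 0)) % 2 = 0 := by omega
              simp [h']
          rw [h3, min_eq_left (by omega)]
          omega
        rw [← this]
        exact hz2
      · rintro ⟨z, b⟩ hz ⟨z', b'⟩ hz' h
        rw [Finset.mem_coe, Finset.mem_product, hS, Finset.mem_filter] at hz hz'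
        obtain ⟨⟨-, hz1, -⟩, -⟩ := hz
        obtain ⟨⟨-, hz1', -⟩, -⟩ := hz'
        simp only [Prod.mk.injEq] at h
        obtain ⟨h1, h2, h3⟩ := h
        subst h3
        refine Prod.ext (funext fun i => Fin.ext ?_) rfl
        have e1 := congrFun h1 i
        have e2 := congrFun h2 i
        rw [Fin.mk.injEq] at e1
        have e1' : min (((z i).val - b01 (b i)) / 2) (l / 2 - 1) =
            min (((z' i).val - b01 (b i)) / 2) (l / 2 - 1) := e1
        have e3 : (((z i).val - b01 (b i)) % 2 = 1) ↔ (((z' i).val - b01 (b i)) % 2 = 1) := by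
          simpa using e2
        have h4 : 1 ≤ (z i).val ∧ (z i).val + 1 ≤ l := hz1 i
        have h5 : 1 ≤ (z' i).val ∧ (z' i).val + 1 ≤ l := hz1' i
        have h6 := hb (b i)
        show (z i).val = (z' i).val
        rw [min_eq_left (by omega), min_eq_left (by omega)] at e1'
        omega
    rw [Finset.card_product, hcardBt] at key
    have : ((S.card * 2 ^ d : ℕ) : ℝ) ≤ T.card := by exact_mod_cast key
    push_cast at this
    linarith

open scoped Classical in
theorem cell_atyp {d l q : ℕ} (hl : Even l) (f : BxV d l → Fin q) (A : Finset (Fin q)) :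
    2 ^ d * ((univ.filter fun z : BxV d l => inn 3 z ∧ ¬ Ty d (bG d l) bev A f z).card : ℝ) ≤
      ((univ.filter fun p : (Fin d → Fin (l / 2)) × Bt d × Bt d => inn 3 (bpt p.1 p.2.1 p.2.2) ∧
        G0P (fun a b => f (bpt p.1 a b)) ∧
        ¬ Ty d (bG d l) bev (ALP (fun a b => f (bpt p.1 a b))) f (bpt p.1 p.2.1 p.2.2)).card : ℝ) +
      4 ^ d * ((univ.filter fun t : Fin d → Fin (l / 2) => ¬ (GDP (fun a b => f (bpt t a b)) ∧
        ALP (fun a b => f (bpt t a b)) = A)).card : ℝ) := by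
  have h1 : 2 ^ d * ((univ.filter fun z : BxV d l =>
      inn 1 z ∧ (inn 3 z ∧ ¬ Ty d (bG d l) bev A f z)).card : ℝ) ≤
      ((univ.filter fun p : (Fin d → Fin (l / 2)) × Bt d × Bt d =>
        inn 3 (bpt p.1 p.2.1 p.2.2) ∧
          ¬ Ty d (bG d l) bev A f (bpt p.1 p.2.1 p.2.2)).card : ℝ) := by
    convert reps_le hl (fun z : BxV d l => inn 3 z ∧ ¬ Ty d (bG d l) bev A f z)
  have h2 : ((univ.filter fun z : BxV d l => inn 3 z ∧ ¬ Ty d (bG d l) bev A f z).card : ℝ) ≤
      ((univ.filter fun z : BxV d l => inn 1 z ∧ (inn 3 z ∧ ¬ Ty d (bG d l) bev A f z)).card : ℝ) := by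
    have : (univ.filter fun z : BxV d l => inn 3 z ∧ ¬ Ty d (bG d l) bev A f z) ⊆
        (univ.filter fun z : BxV d l => inn 1 z ∧ (inn 3 z ∧ ¬ Ty d (bG d l) bev A f z)) := by
      intro z hz
      rw [Finset.mem_filter] at hz ⊢
      refine ⟨hz.1, fun i => ?_, hz.2⟩
      have := hz.2.1 i
      omega
    exact_mod_cast Finset.card_le_card this
  set B : Finset (Fin d → Fin (l / 2)) := univ.filter fun t : Fin d → Fin (l / 2) =>
    ¬ (GDP (fun a b => f (bpt t a b)) ∧ ALP (fun a b => f (bpt t a b)) = A) with hB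
  set F : Finset ((Fin d → Fin (l / 2)) × Bt d × Bt d) :=
    univ.filter fun p : (Fin d → Fin (l / 2)) × Bt d × Bt d => inn 3 (bpt p.1 p.2.1 p.2.2) ∧
        G0P (fun a b => f (bpt p.1 a b)) ∧
        ¬ Ty d (bG d l) bev (ALP (fun a b => f (bpt p.1 a b))) f (bpt p.1 p.2.1 p.2.2) with hF
  have h3 : (univ.filter fun p : (Fin d → Fin (l / 2)) × Bt d × Bt d =>
      inn 3 (bpt p.1 p.2.1 p.2.2) ∧ ¬ Ty d (bG d l) bev A f (bpt p.1 p.2.1 p.2.2)) ⊆
      F ∪ B ×ˢ (univ : Finset (Bt d × Bt d)) := by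
    intro p hp
    rw [Finset.mem_filter] at hp
    rw [Finset.mem_union]
    by_cases hg : GDP (fun a b => f (bpt p.1 a b)) ∧ ALP (fun a b => f (bpt p.1 a b)) = A
    · left
      rw [hF, Finset.mem_filter]
      refine ⟨Finset.mem_univ _, hp.2.1, hg.1.1, ?_⟩
      rw [hg.2]
      exact hp.2.2
    · right
      rw [Finset.mem_product]
      refine ⟨?_, Finset.mem_univ _⟩
      rw [hB, Finset.mem_filter]
      exact ⟨Finset.mem_univ _, hg⟩
  have h4 : (univ : Finset (Bt d × Bt d)).card = 4 ^ d := by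
    rw [Finset.card_univ, Fintype.card_prod]
    have : Fintype.card (Bt d) = 2 ^ d := by simp [Bt]
    rw [this, ← mul_pow]
    norm_num
  have h5 := (Finset.card_le_card h3).trans (Finset.card_union_le _ _)
  rw [Finset.card_product, h4] at h5
  have h6 : ((univ.filter fun p : (Fin d → Fin (l / 2)) × Bt d × Bt d =>
      inn 3 (bpt p.1 p.2.1 p.2.2) ∧ ¬ Ty d (bG d l) bev A f (bpt p.1 p.2.1 p.2.2)).card : ℝ) ≤
      F.card + B.card * 4 ^ d := by exact_mod_cast h5
  have h7 : (0 : ℝ) ≤ 2 ^ d := by positivity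
  have h8 := mul_le_mul_of_nonneg_left h2 h7
  linarith

end Pool.Agent.LC

end

/-! ### from `Lib_MP_2c424f_lc5.V16` -/

section

/-!
# Part V, V16: cells in both copies; bound of `At` for an aligned colouring

`cells2`: the maps `(j, b), u ↦ i b (κ j u)` are cells of `X`: injectivity from `Layer.inj` and `Cells.inj`; `adj` from
`Layer.adj`; `cl`: the level of `κ j u` is in `1..h-2`, so a neighbour `v` of `i b (κ j u)` is in the layer (`out`), in the same copy and
`G`-adjacent (`adj`), hence in the cell (`Cells.cl`); `par` from `Layer.par`.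

`At_bound`: let `n = |ι|`, `N = 2 n (l/2)^d` the number of blocks.  Assume that at most `r` of the `2n` cells `(j, b)` have `EvB K'` and
that at most `τ N` of the blocks `(j, b, t)` do not satisfy `GDP ∧ ALP = A`.  `At_le`; the sum over the cells: a cell with `EvB` has at
most `(l+1)^d` points; for a cell without `EvB`, `cell_atyp` and the second part of `¬ EvB`:
`2^d #{...} ≤ 4^d (l/2)^d / d^K' + 4^d #{bad t in the cell}`.  Since `l` is even, `2^d (l/2 : ℕ)^d = l^d`.
-/

set_option autoImplicit false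

open Finset Filter

namespace Pool.Agent.LC

open Pool.Agent.LO Pool.Agent.LIN Pool.Agent.THR Pool.Agent.COR

variable {V Λ ι : Type} [Fintype V] [DecidableEq V] [Fintype Λ] [DecidableEq Λ] [Fintype ι] {d l q h : ℕ}
  {X X' : SimpleGraph V} {ev : V → Prop} {G : SimpleGraph Λ} {lv : Λ → ℕ} {i : Bool → Λ → V} {κ : ι → BxV d l → Λ}

omit [Fintype ι] in
theorem cells2 (hL : Layer h X X' ev G lv i) (hC : Cells d l G (fun p => ev (i false p)) κ)
    (hlv : ∀ j u, 1 ≤ lv (κ j u) ∧ lv (κ j u) + 2 ≤ h) :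
    Cells d l X ev (fun (jb : ι × Bool) u => i jb.2 (κ jb.1 u)) := by
  refine ⟨?_, ?_, ?_, ?_⟩
  · rintro ⟨j, b⟩ ⟨j', b'⟩ u u' huu
    obtain ⟨h1, h2⟩ := hL.inj b b' _ _ huu
    obtain ⟨h3, h4⟩ := hC.inj j j' u u' h2
    exact ⟨Prod.ext h3 h1, h4⟩
  · rintro ⟨j, b⟩ u u'
    refine (hL.adj b b _ _).trans ?_
    exact ⟨fun h' => (hC.adj j u u').1 h'.2, fun h' => ⟨rfl, (hC.adj j u u').2 h'⟩⟩
  · rintro ⟨j, b⟩ u hu v hv
    by_cases hx' : ∀ b' p', v ≠ i b' p'
    · have h1 := hlv j u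
      rcases hL.out b (κ j u) v hx' hv.symm with h0 | h0 <;> omega
    · push Not at hx'
      obtain ⟨b', p', rfl⟩ := hx'
      obtain ⟨h1, hpp⟩ := (hL.adj b b' _ p').1 hv
      obtain ⟨u', hu'⟩ := hC.cl j u hu p' hpp
      refine ⟨u', ?_⟩
      show i b' p' = i b (κ j u')
      rw [h1, hu']
  · rintro ⟨j, b⟩ u
    refine Iff.trans ?_ (hC.par j u)
    cases b
    · exact Iff.rfl
    · exact hL.par _

open scoped Classical in
theorem At_bound (hl : Even l) (hC : Cells d l G (fun p => ev (i false p)) κ) (A : Finset (Fin q)) (K' : ℕ) (r τ : ℝ)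
    (F : V → Fin q)
    (h1 : ((univ.filter fun jb : ι × Bool => EvB K' (fun u => F (i jb.2 (κ jb.1 u)))).card : ℝ) ≤ r)
    (h2 : ((univ.filter fun w : (ι × Bool) × (Fin d → Fin (l / 2)) =>
      ¬ (GDP (fun a b => F (i w.1.2 (κ w.1.1 (bpt w.2 a b)))) ∧
        ALP (fun a b => F (i w.1.2 (κ w.1.1 (bpt w.2 a b)))) = A)).card : ℝ) ≤
      τ * (2 * Fintype.card ι * ((l / 2 : ℕ) : ℝ) ^ d)) :
    ((At d G (fun p => ev (i false p)) A (fb i F false) (fb i F true)).card : ℝ) ≤
      ((Fintype.card Λ : ℝ) - Fintype.card ι * ((l : ℝ) + 1) ^ d) +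
      Fintype.card ι * (8 * d * ((l : ℝ) + 1) ^ (d - 1)) +
      (2 * d + 1) * (r * ((l : ℝ) + 1) ^ d + 2 * Fintype.card ι * (l : ℝ) ^ d / (d : ℝ) ^ K' +
        τ * (2 * Fintype.card ι * (l : ℝ) ^ d)) := by
  have h0 := At_le hC A (fb i F false) (fb i F true)
  set S : ι × Bool → ℝ := fun jb => ((univ.filter fun z : BxV d l => inn 3 z ∧
    ¬ Ty d (bG d l) bev A (fun w => F (i jb.2 (κ jb.1 w))) z).card : ℝ) with hS
  set bad : ι × Bool → ℝ := fun jb => ((univ.filter fun t : Fin d → Fin (l / 2) =>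
    ¬ (GDP (fun a b => F (i jb.2 (κ jb.1 (bpt t a b)))) ∧
      ALP (fun a b => F (i jb.2 (κ jb.1 (bpt t a b)))) = A)).card : ℝ) with hbad
  have hsum : ∑ j : ι, (S (j, false) + S (j, true)) = ∑ jb : ι × Bool, S jb := by
    rw [Fintype.sum_prod_type]
    refine Finset.sum_congr rfl fun j _ => ?_
    rw [Fintype.sum_bool, add_comm]
  have hb : ∑ jb : ι × Bool, bad jb ≤ τ * (2 * Fintype.card ι * ((l / 2 : ℕ) : ℝ) ^ d) := by
    refine le_trans (le_of_eq ?_) h2
    symm
    rw [Finset.card_filter, Nat.cast_sum]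
    refine (Fintype.sum_prod_type _).trans (Finset.sum_congr rfl fun jb _ => ?_)
    simp only [hbad, Finset.card_filter, Nat.cast_sum]
  have hl2 : (2 : ℝ) ^ d * ((l / 2 : ℕ) : ℝ) ^ d = (l : ℝ) ^ d := by
    obtain ⟨m, rfl⟩ := hl
    have h3 : (m + m) / 2 = m := by omega
    rw [h3, ← mul_pow]
    push_cast
    ring
  have hcell : ∀ jb : ι × Bool, S jb ≤ (if EvB K' (fun u => F (i jb.2 (κ jb.1 u))) then ((l : ℝ) + 1) ^ d else 0) +
      (l : ℝ) ^ d / (d : ℝ) ^ K' + 2 ^ d * bad jb := by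
    intro jb
    have hbad0 : 0 ≤ bad jb := Nat.cast_nonneg _
    by_cases hE : EvB K' (fun u => F (i jb.2 (κ jb.1 u)))
    · rw [if_pos hE]
      have h3 : S jb ≤ ((l : ℝ) + 1) ^ d := by
        have h4 : (univ.filter fun z : BxV d l => inn 3 z ∧
            ¬ Ty d (bG d l) bev A (fun w => F (i jb.2 (κ jb.1 w))) z).card ≤ Fintype.card (BxV d l) :=
          Finset.card_le_univ _
        have h5 : Fintype.card (BxV d l) = (l + 1) ^ d := by simp [BxV]
        rw [h5] at h4
        have h8 : S jb ≤ (((l + 1) ^ d : ℕ) : ℝ) := Nat.cast_le.mpr h4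
        rwa [Nat.cast_pow, Nat.cast_add, Nat.cast_one] at h8
      have h6 : 0 ≤ (l : ℝ) ^ d / (d : ℝ) ^ K' := by positivity
      have h7 : 0 ≤ 2 ^ d * bad jb := by positivity
      linarith
    · rw [if_neg hE, zero_add]
      have h3 := cell_atyp hl (fun u => F (i jb.2 (κ jb.1 u))) A
      have h4 : ((univ.filter fun p : (Fin d → Fin (l / 2)) × Bt d × Bt d => inn 3 (bpt p.1 p.2.1 p.2.2) ∧
          G0P (fun a b => (fun u => F (i jb.2 (κ jb.1 u))) (bpt p.1 a b)) ∧
          ¬ Ty d (bG d l) bev (ALP (fun a b => (fun u => F (i jb.2 (κ jb.1 u))) (bpt p.1 a b)))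
            (fun u => F (i jb.2 (κ jb.1 u))) (bpt p.1 p.2.1 p.2.2)).card : ℝ) ≤
          4 ^ d * ((l / 2 : ℕ) : ℝ) ^ d / (d : ℝ) ^ K' := by
        by_contra hcon
        exact hE (Or.inr (not_le.mp hcon))
      have h5 : (4 : ℝ) ^ d = 2 ^ d * 2 ^ d := by
        rw [← mul_pow]
        norm_num
      have h6 : (0 : ℝ) < 2 ^ d := by positivity
      refine le_of_mul_le_mul_left ?_ h6
      calc (2 : ℝ) ^ d * S jb ≤ _ := h3
        _ ≤ 4 ^ d * ((l / 2 : ℕ) : ℝ) ^ d / (d : ℝ) ^ K' + 4 ^ d * bad jb := add_le_add h4 le_rfl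
        _ = 2 ^ d * ((l : ℝ) ^ d / (d : ℝ) ^ K' + 2 ^ d * bad jb) := by
          rw [h5, ← hl2]
          ring
  have hS2 : ∑ jb : ι × Bool, S jb ≤ r * ((l : ℝ) + 1) ^ d + 2 * Fintype.card ι * (l : ℝ) ^ d / (d : ℝ) ^ K' +
      τ * (2 * Fintype.card ι * (l : ℝ) ^ d) := by
    refine (Finset.sum_le_sum fun jb _ => hcell jb).trans ?_
    rw [Finset.sum_add_distrib, Finset.sum_add_distrib, ← Finset.mul_sum, Finset.sum_const, ← Finset.sum_filter,
      Finset.sum_const, nsmul_eq_mul, nsmul_eq_mul, Finset.card_univ, Fintype.card_prod, Fintype.card_bool]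
    have h3 : (0 : ℝ) ≤ ((l : ℝ) + 1) ^ d := by positivity
    have h4 := mul_le_mul_of_nonneg_right h1 h3
    have h5 : (0 : ℝ) ≤ 2 ^ d := by positivity
    have h6 := mul_le_mul_of_nonneg_left hb h5
    have h7 : (2 : ℝ) ^ d * (τ * (2 * Fintype.card ι * ((l / 2 : ℕ) : ℝ) ^ d)) =
        τ * (2 * Fintype.card ι * (l : ℝ) ^ d) := by
      rw [← hl2]
      ring
    have h8 : ((Fintype.card ι * 2 : ℕ) : ℝ) * ((l : ℝ) ^ d / (d : ℝ) ^ K') =
        2 * Fintype.card ι * (l : ℝ) ^ d / (d : ℝ) ^ K' := by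
      push_cast
      ring
    rw [h8]
    linarith
  refine h0.trans (add_le_add le_rfl (mul_le_mul_of_nonneg_left ?_ (by positivity)))
  refine le_trans (le_of_eq ?_) hS2
  rw [← hsum]
  rfl

end Pool.Agent.LC

end

/-! ### from `Lib_MP_2c424f_lc5.V18` -/

section

/-!
# Part V, V18: alignment: many colourings have few uncertified points

`Bl = (ι × Bool) × (Fin d → Fin (l/2))`, `β ((j, b), t) a b' = i b (κ j (bpt t a b'))`, `n = |ι|`, `p = 2^{2n} e^{-θ n c}`, `r = θ n`.
`many_cells` (for the `2n` cells `(j, b)`, `hc`): the number of `F` for which at least `r` cells have `EvB K'` is at most `p Z`.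
Otherwise: at most `r + (2n)(l/2)^d/d^K'` ... precisely the number of the blocks without `GDP` is at most
`r (l/2)^d + 2n (l/2)^d / d^K' < θ (2n (l/2)^d)` (first part of `¬ EvB`; `hK : 1/d^K' < θ/2`; `n ≥ 1`, `l ≥ 2`), so the hypothesis `hp` of `alignG` holds.
`hpar`: `bev (bpt t a b) ↔ ¬ od a b` (`od`: odd number of ones in `a + b`) and `Cells.par`, `Layer.par`; `hfib`: a point of a closed block has
at most `2^d` representations (`a` determines `b`).
`alignG` (hypothesis `hs`): at least `Z/(2 cK)` colourings have at most `22 (q²/4+1) θ |Bl|` blocks without (`GDP` and `ALP = A₀`); remove the at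
most `p Z ≤ Z/(4 cK)` for which at least `r` cells have `EvB`; the others satisfy `At_bound` with `τ = 22 (q²/4+1) θ`.
-/

set_option autoImplicit false

open Finset Filter

namespace Pool.Agent.LC

open Pool.Agent.LO Pool.Agent.LIN Pool.Agent.THR Pool.Agent.COR

open scoped Classical in
theorem bpt_par {d l : ℕ} (t : Fin d → Fin (l / 2)) (a b : Bt d) : bev (bpt t a b) ↔ ¬ od a b := by
  unfold bev od
  have h1 : ∑ i, (bpt t a b i).val = 2 * (∑ i, ((t i).val + if a i = true ∧ b i = true then 1 else 0)) +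
      (univ.filter fun i => a i ≠ b i).card := by
    rw [card_filter, mul_sum, ← sum_add_distrib]
    refine sum_congr rfl fun i _ => ?_
    show 2 * (t i).val + b01 (a i) + b01 (b i) = _
    unfold b01
    cases a i <;> cases b i <;> simp <;> omega
  rw [h1, Nat.even_add, Nat.not_odd_iff_even]
  simp

open scoped Classical in
theorem bpt_fib {d l : ℕ} (t : Fin d → Fin (l / 2)) (v : BxV d l) :
    ((univ.filter fun p : Bt d × Bt d => bpt t p.1 p.2 = v).card : ℝ) ≤ 2 ^ d := by
  have h1 : (univ.filter fun p : Bt d × Bt d => bpt t p.1 p.2 = v).card ≤ (univ : Finset (Bt d)).card := by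
    refine card_le_card_of_injOn (fun p => p.1) (fun _ _ => mem_coe.2 (mem_univ _)) ?_
    rintro ⟨a, b⟩ h ⟨a', b'⟩ h' e
    have e1 : a = a' := e
    subst e1
    have h2 : bpt t a b = v := (mem_filter.1 (mem_coe.1 h)).2
    have h3 : bpt t a b' = v := (mem_filter.1 (mem_coe.1 h')).2
    have h4 : b = b' := by
      funext i
      have h5 : (bpt t a b i).val = (bpt t a b' i).val := by rw [h2, h3]
      have h6 : 2 * (t i).val + b01 (a i) + b01 (b i) = 2 * (t i).val + b01 (a i) + b01 (b' i) := h5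
      unfold b01 at h6
      cases hb : b i <;> cases hb' : b' i <;> simp [hb, hb'] at h6 ⊢
    rw [h4]
  have h2 : (univ : Finset (Bt d)).card = 2 ^ d := by
    rw [card_univ, Fintype.card_fun, Fintype.card_bool, Fintype.card_fin]
  rw [h2] at h1
  exact_mod_cast h1

open scoped Classical in
private theorem V18_cG {V : Type} [Fintype V] [DecidableEq V] {q : ℕ} (X : SimpleGraph V)
    (P : (V → Fin q) → Prop) (s : Finset (V → Fin q)) (hs : ∀ F, F ∈ s ↔ PrG X F ∧ P F) :
    cG X P = (s.card : ℝ) := by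
  unfold cG
  congr 2
  ext F
  rw [mem_filter, hs]
  exact ⟨fun h => h.2, fun h => ⟨mem_univ _, h⟩⟩

open scoped Classical in
private theorem V18_mono {V : Type} [Fintype V] [DecidableEq V] {q : ℕ} (X : SimpleGraph V) (P Q : (V → Fin q) → Prop)
    (h : ∀ F, P F → Q F) : cG X P ≤ cG X Q := by
  rw [V18_cG X P (univ.filter fun F => PrG X F ∧ P F) (by simp),
    V18_cG X Q (univ.filter fun F => PrG X F ∧ Q F) (by simp)]
  have h1 : (univ.filter fun F => PrG X F ∧ P F) ⊆ (univ.filter fun F => PrG X F ∧ Q F) := by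
    intro F hF
    rw [mem_filter] at hF ⊢
    exact ⟨mem_univ _, hF.2.1, h F hF.2.2⟩
  exact_mod_cast card_le_card h1

open scoped Classical in
private theorem V18_split {V : Type} [Fintype V] [DecidableEq V] {q : ℕ} (X : SimpleGraph V) (P Q R : (V → Fin q) → Prop)
    (h : ∀ F, P F → Q F ∨ R F) : cG X P ≤ cG X Q + cG X R := by
  rw [V18_cG X P (univ.filter fun F => PrG X F ∧ P F) (by simp),
    V18_cG X Q (univ.filter fun F => PrG X F ∧ Q F) (by simp),
    V18_cG X R (univ.filter fun F => PrG X F ∧ R F) (by simp)]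
  have h1 : (univ.filter fun F => PrG X F ∧ P F) ⊆
      (univ.filter fun F => PrG X F ∧ Q F) ∪ (univ.filter fun F => PrG X F ∧ R F) := by
    intro F hF
    rw [mem_union, mem_filter, mem_filter]
    rw [mem_filter] at hF
    rcases h F hF.2.2 with h2 | h2
    · exact Or.inl ⟨mem_univ _, hF.2.1, h2⟩
    · exact Or.inr ⟨mem_univ _, hF.2.1, h2⟩
  have h2 := (card_le_card h1).trans (card_union_le _ _)
  exact_mod_cast h2

open scoped Classical in
/-- counting the bad blocks -/
private theorem V18_cnt {α : Type} [Fintype α] {d m : ℕ} (E : α → Prop) (B : α → (Fin d → Fin m) → Prop) (y r θ n : ℝ)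
    (hm : 1 ≤ m) (hy : y < θ / 2) (hn : (Fintype.card α : ℝ) = 2 * n) (hn0 : 0 < n) (hr : r = θ * n) (hy0 : 0 ≤ y)
    (hE : ((univ.filter fun j => E j).card : ℝ) < r)
    (hB : ∀ j, ¬ E j → ((univ.filter fun t => ¬ B j t).card : ℝ) ≤ (m : ℝ) ^ d * y) :
    ((univ.filter fun w : α × (Fin d → Fin m) => ¬ B w.1 w.2).card : ℝ) < θ * (2 * n * (m : ℝ) ^ d) := by
  have hm0 : (0 : ℝ) < (m : ℝ) ^ d := by positivity
  have h1 : ((univ.filter fun w : α × (Fin d → Fin m) => ¬ B w.1 w.2).card : ℝ) =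
      ∑ j : α, ((univ.filter fun t => ¬ B j t).card : ℝ) := by
    have h2 : (univ.filter fun w : α × (Fin d → Fin m) => ¬ B w.1 w.2).card =
        ∑ j : α, (univ.filter fun t => ¬ B j t).card := by
      rw [card_filter, Fintype.sum_prod_type]
      refine sum_congr rfl fun j _ => ?_
      rw [card_filter]
    rw [h2]
    push_cast
    rfl
  have h3 : ∀ j, ((univ.filter fun t => ¬ B j t).card : ℝ) ≤
      (if E j then (m : ℝ) ^ d else 0) + (m : ℝ) ^ d * y := by
    intro j
    by_cases hj : E j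
    · rw [if_pos hj]
      have h4 : ((univ.filter fun t => ¬ B j t).card : ℝ) ≤ (m : ℝ) ^ d := by
        have h5 : (univ.filter fun t => ¬ B j t).card ≤ (univ : Finset (Fin d → Fin m)).card :=
          card_le_card (filter_subset _ _)
        rw [card_univ, Fintype.card_fun, Fintype.card_fin, Fintype.card_fin] at h5
        exact_mod_cast h5
      have h6 : 0 ≤ (m : ℝ) ^ d * y := by positivity
      linarith
    · rw [if_neg hj, zero_add]
      exact hB j hj
  rw [h1]
  refine (sum_le_sum fun j _ => h3 j).trans_lt ?_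
  rw [sum_add_distrib, ← sum_filter, sum_const, sum_const, nsmul_eq_mul, nsmul_eq_mul, card_univ, hn]
  have h7 : ((univ.filter fun j => E j).card : ℝ) * (m : ℝ) ^ d < r * (m : ℝ) ^ d :=
    mul_lt_mul_of_pos_right hE hm0
  have h8 : 2 * n * ((m : ℝ) ^ d * y) ≤ 2 * n * ((m : ℝ) ^ d * (θ / 2)) := by
    have : (m : ℝ) ^ d * y ≤ (m : ℝ) ^ d * (θ / 2) := mul_le_mul_of_nonneg_left hy.le hm0.le
    exact mul_le_mul_of_nonneg_left this (by linarith)
  rw [hr] at h7
  nlinarith [h7, h8]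

open scoped Classical in
private theorem V18_many {V Λ ι : Type} [Fintype V] [DecidableEq V] [Fintype ι] {d l q : ℕ}
    (X : SimpleGraph V) (i : Bool → Λ → V) (κ : ι → BxV d l → Λ) (K' : ℕ) (θ c : ℝ) (hc0 : 0 ≤ c) (n : ℕ)
    (hn : n = Fintype.card ι)
    (hc : ∀ S : Finset (ι × Bool), cG X (fun F : V → Fin q => ∀ jb ∈ S, EvB K' (fun u => F (i jb.2 (κ jb.1 u)))) ≤
      cG X (fun _ : V → Fin q => True) * Real.exp (-(S.card * c))) :
    cG X (fun F : V → Fin q => θ * n ≤
        ((univ.filter fun jb : ι × Bool => EvB K' (fun u => F (i jb.2 (κ jb.1 u)))).card : ℝ)) ≤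
      2 ^ (2 * n) * Real.exp (-(θ * n * c)) * cG X (fun _ : V → Fin q => True) := by
  have hmany := many_cells X (fun (jb : ι × Bool) (F : V → Fin q) => EvB K' (fun u => F (i jb.2 (κ jb.1 u)))) c
    (θ * n) hc0 hc
  have hcard : Fintype.card (ι × Bool) = 2 * n := by
    rw [Fintype.card_prod, Fintype.card_bool, mul_comm, hn]
  rw [hcard] at hmany
  exact hmany

open scoped Classical in
private theorem V18_ev {ι : Type} [Fintype ι] {d l q : ℕ}
    (f : ι × Bool → BxV d l → Fin q) (K' : ℕ) (θ : ℝ) (n : ℕ) (hn : n = Fintype.card ι) (hn0 : 1 ≤ n) (hl1 : 1 ≤ l / 2)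
    (hd : 1 ≤ d) (hK : 1 / (d : ℝ) ^ K' < θ / 2)
    (hcon : ((univ.filter fun jb : ι × Bool => EvB K' (f jb)).card : ℝ) < θ * n) :
    ((univ.filter fun w : (ι × Bool) × (Fin d → Fin (l / 2)) =>
          ¬ GDP (fun a b => f w.1 (bpt w.2 a b))).card : ℝ) < θ * (2 * n * ((l / 2 : ℕ) : ℝ) ^ d) := by
  have hcard : (Fintype.card (ι × Bool) : ℝ) = 2 * (n : ℝ) := by
    rw [Fintype.card_prod, Fintype.card_bool, hn]
    push_cast
    ring
  have hn1 : (0 : ℝ) < n := by exact_mod_cast hn0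
  refine V18_cnt (fun jb : ι × Bool => EvB K' (f jb))
    (fun jb t => GDP (fun a b => f jb (bpt t a b))) (1 / (d : ℝ) ^ K') (θ * n) θ n hl1 hK
    hcard hn1 rfl (by positivity) hcon ?_
  intro jb hjb
  have h1 := (not_or.1 hjb).1
  rw [not_lt] at h1
  refine h1.trans (le_of_eq ?_)
  ring

open scoped Classical in
private theorem V18_fib {V Λ ι : Type} [Fintype V] [DecidableEq V] [Fintype ι] {d l : ℕ} {X : SimpleGraph V} {ev : V → Prop}
    {i : Bool → Λ → V} {κ : ι → BxV d l → Λ}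
    (hc2 : Cells d l X ev (fun (jb : ι × Bool) u => i jb.2 (κ jb.1 u)))
    (w : (ι × Bool) × (Fin d → Fin (l / 2))) (v : V) :
      ((univ.filter fun p : Bt d × Bt d => i w.1.2 (κ w.1.1 (bpt w.2 p.1 p.2)) = v).card : ℝ) ≤ 2 ^ d := by
  by_cases h0 : ∃ p₀ : Bt d × Bt d, i w.1.2 (κ w.1.1 (bpt w.2 p₀.1 p₀.2)) = v
  · obtain ⟨p₀, hp₀⟩ := h0
    refine le_trans ?_ (bpt_fib w.2 (bpt w.2 p₀.1 p₀.2))
    have h1 : (univ.filter fun p : Bt d × Bt d => i w.1.2 (κ w.1.1 (bpt w.2 p.1 p.2)) = v) ⊆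
        (univ.filter fun p : Bt d × Bt d => bpt w.2 p.1 p.2 = bpt w.2 p₀.1 p₀.2) := by
      intro p hp
      rw [mem_filter] at hp ⊢
      exact ⟨mem_univ _, (hc2.inj w.1 w.1 _ _ (hp.2.trans hp₀.symm)).2⟩
    exact_mod_cast card_le_card h1
  · have h1 : (univ.filter fun p : Bt d × Bt d => i w.1.2 (κ w.1.1 (bpt w.2 p.1 p.2)) = v) = ∅ :=
      filter_eq_empty_iff.2 fun p _ hp => h0 ⟨p, hp⟩
    rw [h1, card_empty, Nat.cast_zero]
    positivity

open scoped Classical in
private theorem V18_bl {ι : Type} [Fintype ι] {d l : ℕ} :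
    (Fintype.card ((ι × Bool) × (Fin d → Fin (l / 2))) : ℝ) = 2 * Fintype.card ι * ((l / 2 : ℕ) : ℝ) ^ d := by
  rw [Fintype.card_prod, Fintype.card_prod, Fintype.card_bool, Fintype.card_fun, Fintype.card_fin, Fintype.card_fin]
  push_cast
  ring

open scoped Classical in
private theorem V18_hevent {V Λ ι : Type} [Fintype V] [DecidableEq V] [Fintype ι] {d l q : ℕ}
    (X : SimpleGraph V) (i : Bool → Λ → V) (κ : ι → BxV d l → Λ) (K' : ℕ) (θ : ℝ) (hι : 1 ≤ Fintype.card ι)
    (hl1 : 1 ≤ l / 2) (hd : 1 ≤ d) (hK : 1 / (d : ℝ) ^ K' < θ / 2) :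
    cG X (fun F : V → Fin q =>
      θ * Fintype.card ((ι × Bool) × (Fin d → Fin (l / 2))) ≤
        ((univ.filter fun w : (ι × Bool) × (Fin d → Fin (l / 2)) =>
          ¬ GDP (fun a b => F (i w.1.2 (κ w.1.1 (bpt w.2 a b))))).card : ℝ)) ≤
    cG X (fun F : V → Fin q => θ * (Fintype.card ι : ℕ) ≤
        ((univ.filter fun jb : ι × Bool => EvB K' (fun u => F (i jb.2 (κ jb.1 u)))).card : ℝ)) := by
  refine V18_mono X (fun F : V → Fin q =>
      θ * Fintype.card ((ι × Bool) × (Fin d → Fin (l / 2))) ≤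
        ((univ.filter fun w : (ι × Bool) × (Fin d → Fin (l / 2)) =>
          ¬ GDP (fun a b => F (i w.1.2 (κ w.1.1 (bpt w.2 a b))))).card : ℝ))
    (fun F : V → Fin q => θ * (Fintype.card ι : ℕ) ≤
        ((univ.filter fun jb : ι × Bool => EvB K' (fun u => F (i jb.2 (κ jb.1 u)))).card : ℝ)) ?_
  intro F hF
  by_contra hcon
  rw [not_le] at hcon
  have h1 := V18_ev (fun jb u => F (i jb.2 (κ jb.1 u))) K' θ (Fintype.card ι) rfl hι hl1 hd hK hcon
  have hF' : θ * Fintype.card ((ι × Bool) × (Fin d → Fin (l / 2))) ≤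
        ((univ.filter fun w : (ι × Bool) × (Fin d → Fin (l / 2)) =>
          ¬ GDP (fun a b => F (i w.1.2 (κ w.1.1 (bpt w.2 a b))))).card : ℝ) := hF
  rw [V18_bl] at hF'
  exact absurd hF' (not_le.2 h1)

open scoped Classical in
private theorem V18_fin {V Λ ι : Type} [Fintype V] [DecidableEq V] [Fintype Λ] [DecidableEq Λ] [Fintype ι] {d l q : ℕ}
    {X : SimpleGraph V} {ev : V → Prop} {G : SimpleGraph Λ} {i : Bool → Λ → V} {κ : ι → BxV d l → Λ} (hl : Even l)
    (hC : Cells d l G (fun p => ev (i false p)) κ) (A₀ : Finset (Fin q)) (K' : ℕ) (θ : ℝ) :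
    cG X (fun F : V → Fin q =>
        ((univ.filter fun w : (ι × Bool) × (Fin d → Fin (l / 2)) =>
          ¬ (GDP (fun a b => F (i w.1.2 (κ w.1.1 (bpt w.2 a b)))) ∧
            ALP (fun a b => F (i w.1.2 (κ w.1.1 (bpt w.2 a b)))) = A₀)).card : ℝ) ≤
          22 * ((q : ℝ) ^ 2 / 4 + 1) * θ * Fintype.card ((ι × Bool) × (Fin d → Fin (l / 2)))) ≤
      cG X (fun F : V → Fin q =>
        ((At d G (fun p => ev (i false p)) A₀ (fb i F false) (fb i F true)).card : ℝ) ≤
          ((Fintype.card Λ : ℝ) - Fintype.card ι * ((l : ℝ) + 1) ^ d) +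
          Fintype.card ι * (8 * d * ((l : ℝ) + 1) ^ (d - 1)) +
          (2 * d + 1) * (θ * Fintype.card ι * ((l : ℝ) + 1) ^ d + 2 * Fintype.card ι * (l : ℝ) ^ d / (d : ℝ) ^ K' +
            22 * ((q : ℝ) ^ 2 / 4 + 1) * θ * (2 * Fintype.card ι * (l : ℝ) ^ d))) +
      cG X (fun F : V → Fin q => θ * (Fintype.card ι : ℕ) ≤
        ((univ.filter fun jb : ι × Bool => EvB K' (fun u => F (i jb.2 (κ jb.1 u)))).card : ℝ)) := by
  refine V18_split X
    (fun F : V → Fin q =>
        ((univ.filter fun w : (ι × Bool) × (Fin d → Fin (l / 2)) =>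
          ¬ (GDP (fun a b => F (i w.1.2 (κ w.1.1 (bpt w.2 a b)))) ∧
            ALP (fun a b => F (i w.1.2 (κ w.1.1 (bpt w.2 a b)))) = A₀)).card : ℝ) ≤
          22 * ((q : ℝ) ^ 2 / 4 + 1) * θ * Fintype.card ((ι × Bool) × (Fin d → Fin (l / 2))))
    (fun F : V → Fin q =>
        ((At d G (fun p => ev (i false p)) A₀ (fb i F false) (fb i F true)).card : ℝ) ≤
          ((Fintype.card Λ : ℝ) - Fintype.card ι * ((l : ℝ) + 1) ^ d) +
          Fintype.card ι * (8 * d * ((l : ℝ) + 1) ^ (d - 1)) +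
          (2 * d + 1) * (θ * Fintype.card ι * ((l : ℝ) + 1) ^ d + 2 * Fintype.card ι * (l : ℝ) ^ d / (d : ℝ) ^ K' +
            22 * ((q : ℝ) ^ 2 / 4 + 1) * θ * (2 * Fintype.card ι * (l : ℝ) ^ d)))
    (fun F : V → Fin q => θ * (Fintype.card ι : ℕ) ≤
        ((univ.filter fun jb : ι × Bool => EvB K' (fun u => F (i jb.2 (κ jb.1 u)))).card : ℝ)) ?_
  intro F hF
  by_cases hr : θ * (Fintype.card ι : ℕ) ≤
      ((univ.filter fun jb : ι × Bool => EvB K' (fun u => F (i jb.2 (κ jb.1 u)))).card : ℝ)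
  · exact Or.inr hr
  · refine Or.inl ?_
    have hF' : ((univ.filter fun w : (ι × Bool) × (Fin d → Fin (l / 2)) =>
          ¬ (GDP (fun a b => F (i w.1.2 (κ w.1.1 (bpt w.2 a b)))) ∧
            ALP (fun a b => F (i w.1.2 (κ w.1.1 (bpt w.2 a b)))) = A₀)).card : ℝ) ≤
          22 * ((q : ℝ) ^ 2 / 4 + 1) * θ * Fintype.card ((ι × Bool) × (Fin d → Fin (l / 2))) := hF
    rw [V18_bl] at hF'
    exact At_bound hl hC A₀ K' (θ * (Fintype.card ι : ℕ)) (22 * ((q : ℝ) ^ 2 / 4 + 1) * θ) F (not_le.1 hr).le hF'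

private theorem V18_arith {Z T C p θ Q R : ℝ} (hZ0 : 0 ≤ Z) (hC1 : 0 < C) (hp0 : 0 ≤ p) (hθ : 0 < θ) (hθ1 : θ ≤ 1)
    (hQ : 0 ≤ Q) (hs : 4 * (Q + 1) * C * p / θ ≤ 1) (hal : 1 / (2 * C) * Z ≤ R) (hfin : R ≤ T + p * Z) :
    Z ≤ 4 * C * T := by
  have hp4 : 4 * C * p ≤ 1 := by
    have h1 : 4 * (Q + 1) * C * p ≤ θ := by
      rw [div_le_iff₀ hθ] at hs
      linarith
    have h2 : 0 ≤ Q * (C * p) := by positivity
    nlinarith
  have h1 : 1 / (2 * C) * Z ≤ T + p * Z := hal.trans hfin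
  have h2 : Z ≤ 2 * C * T + 2 * C * p * Z := by
    have h3 : 2 * C * (1 / (2 * C) * Z) ≤ 2 * C * (T + p * Z) := mul_le_mul_of_nonneg_left h1 (by positivity)
    have h4 : 2 * C * (1 / (2 * C) * Z) = Z := by
      field_simp
    rw [h4] at h3
    linarith
  have h5 : 2 * C * p * Z ≤ 1 / 2 * Z := mul_le_mul_of_nonneg_right (by linarith) hZ0
  linarith

theorem Z_le {V Λ ι : Type} [Fintype V] [DecidableEq V] [Fintype Λ] [DecidableEq Λ] [Fintype ι] {d l q h : ℕ}
    (hd : 1 ≤ d) (hR : Rg d q) {X X' : SimpleGraph V} {ev : V → Prop} {G : SimpleGraph Λ} {lv : Λ → ℕ}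
    {i : Bool → Λ → V} {κ : ι → BxV d l → Λ} (hP : Par X ev) (hL : Layer h X X' ev G lv i) (hl : Even l) (hl2 : 2 ≤ l)
    (hC : Cells d l G (fun p => ev (i false p)) κ) (hlv : ∀ j u, 1 ≤ lv (κ j u) ∧ lv (κ j u) + 2 ≤ h)
    (hι : 1 ≤ Fintype.card ι) (A₀ : Finset (Fin q)) (hA : A₀.card = q / 2) (K' : ℕ) (θ c : ℝ) (hθ : 0 < θ) (hθ1 : θ ≤ 1)
    (hK : 1 / (d : ℝ) ^ K' < θ / 2) (hc0 : 0 ≤ c)
    (hc : ∀ S : Finset (ι × Bool), cG X (fun F : V → Fin q => ∀ jb ∈ S, EvB K' (fun u => F (i jb.2 (κ jb.1 u)))) ≤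
      cG X (fun _ : V → Fin q => True) * Real.exp (-(S.card * c)))
    (hs : 4 * ((q : ℝ) ^ 2 / 4 + 1) * cK d q (2 * Fintype.card Λ) *
      (2 ^ (2 * Fintype.card ι) * Real.exp (-(θ * Fintype.card ι * c))) / θ ≤ 1) :
    cG X (fun _ : V → Fin q => True) ≤ 4 * cK d q (2 * Fintype.card Λ) *
      cG X (fun F : V → Fin q =>
        ((At d G (fun p => ev (i false p)) A₀ (fb i F false) (fb i F true)).card : ℝ) ≤
          ((Fintype.card Λ : ℝ) - Fintype.card ι * ((l : ℝ) + 1) ^ d) +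
          Fintype.card ι * (8 * d * ((l : ℝ) + 1) ^ (d - 1)) +
          (2 * d + 1) * (θ * Fintype.card ι * ((l : ℝ) + 1) ^ d + 2 * Fintype.card ι * (l : ℝ) ^ d / (d : ℝ) ^ K' +
            22 * ((q : ℝ) ^ 2 / 4 + 1) * θ * (2 * Fintype.card ι * (l : ℝ) ^ d))) := by
  have hl1 : 1 ≤ l / 2 := by omega
  have hc2 := cells2 hL hC hlv
  have hmany := V18_many X i κ K' θ c hc0 (Fintype.card ι) rfl hc
  have hinj : Function.Injective (fun w : Bool × Λ => i w.1 w.2) := by
    rintro ⟨b, p⟩ ⟨b', p'⟩ h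
    obtain ⟨h1, h2⟩ := hL.inj b b' p p' h
    rw [h1, h2]
  have hUc : (univ.image (fun w : Bool × Λ => i w.1 w.2)).card = 2 * Fintype.card Λ := by
    rw [card_image_of_injective _ hinj, card_univ, Fintype.card_prod, Fintype.card_bool]
  have hpar : ∀ (w : (ι × Bool) × (Fin d → Fin (l / 2))) (a b : Bt d),
      ev (i w.1.2 (κ w.1.1 (bpt w.2 a b))) ↔ ¬ od a b := fun w a b => (hc2.par w.1 _).trans (bpt_par w.2 a b)
  have hUm : ∀ (w : (ι × Bool) × (Fin d → Fin (l / 2))) (a b : Bt d),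
      i w.1.2 (κ w.1.1 (bpt w.2 a b)) ∈ univ.image (fun w : Bool × Λ => i w.1 w.2) := fun w a b => by
    rw [mem_image]
    exact ⟨(w.1.2, κ w.1.1 (bpt w.2 a b)), mem_univ _, rfl⟩
  have hal := alignG hd hR V ((ι × Bool) × (Fin d → Fin (l / 2))) X ev hP
    (fun w a b => i w.1.2 (κ w.1.1 (bpt w.2 a b))) hpar (V18_fib hc2) (univ.image (fun w : Bool × Λ => i w.1 w.2)) hUm
    A₀ hA θ (2 ^ (2 * Fintype.card ι) * Real.exp (-(θ * Fintype.card ι * c))) hθ hθ1
    ((V18_hevent X i κ K' θ hι hl1 hd hK).trans hmany) (by rw [hUc]; exact hs)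
  rw [hUc] at hal
  refine V18_arith (Nat.cast_nonneg _) (by unfold cK; positivity) (by positivity) hθ hθ1 (by positivity) hs hal ?_
  exact (V18_fin hl hC A₀ K' θ).trans (add_le_add le_rfl hmany)

end Pool.Agent.LC

end

/-! ### from `Lib_MP_2c424f_lc6.C07` -/

section

/-!
# LC6 C07: the layer of the switching in a product

`X = D2 (H □ RX s L) gl`, `X' = D2 (H □ path) gl`, copies `ib false`: positions `s, …, s+h-1`, `ib true`: positions `s+2L, …, s+2L+h-1`; `h ≤ s`, `h < 2 L`: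
the copies are disjoint, they do not contain the glued layers `0`, `2s+2L`, and the layers after them (`s+h`, `s+2L+h`) are outside.
`RX` and the path differ only in the edges `{s-1,s}`, `{s+2L-1,s+2L}` (path), `{s-1,s+2L}`, `{s,s+2L-1}` (`RX`), i.e. the outside neighbours at the level `0`
are exchanged. (`2 ≤ h`: for `h = 1` the field `oi` is false.)
-/

set_option autoImplicit false

open Finset

namespace Pool.Agent.LC

open Pool.Agent.LO Pool.Agent.LIN Pool.Agent.THR Pool.Agent.COR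

/-- position of the level `k` of the copy `b` -/
private def C07_pos (s L : ℕ) (b : Bool) (k : ℕ) : ℕ := s + (if b then 2 * L else 0) + k

private theorem C07_pos_false (s L k : ℕ) : C07_pos s L false k = s + k := by
  unfold C07_pos
  simp

private theorem C07_pos_true (s L k : ℕ) : C07_pos s L true k = s + 2 * L + k := by
  unfold C07_pos
  simp

section
variable {Y : Type} (H : SimpleGraph Y) (g : Y → Prop) (s L h : ℕ)

private theorem C07_val (hs : h ≤ s) (b : Bool) (z : (Y × Bool) × Fin h) :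
    (ib s L h b z).1.2.val = C07_pos s L b z.2.val := by
  have h1 := z.2.2
  change (s + (if b then 2 * L else 0) + z.2.val) % (2 * s + 2 * L + 1) = _
  rw [Nat.mod_eq_of_lt]
  · rfl
  · cases b
    · simp
      omega
    · simp
      omega

private theorem C07_glp (hs : h ≤ s) (_hh : 1 ≤ h) (b : Bool) (z : (Y × Bool) × Fin h) :
    glp g (2 * s + 2 * L) (ib s L h b z).1 ↔ g z.1.1 := by
  have h1 := z.2.2
  have h2 := C07_val (Y := Y) s L h hs b z
  unfold glp
  rw [h2]
  constructor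
  · rintro (h3 | h3 | h3)
    · exact h3
    · exfalso
      cases b
      · rw [C07_pos_false] at h3
        omega
      · rw [C07_pos_true] at h3
        omega
    · exfalso
      cases b
      · rw [C07_pos_false] at h3
        omega
      · rw [C07_pos_true] at h3
        omega
  · intro h3
    exact Or.inl h3

/-- adjacency in the copies -/
private def C07_core (p p' : (Y × Bool) × Fin h) : Prop :=
  ((H.Adj p.1.1 p'.1.1 ∧ p.2.val = p'.2.val) ∨ (p.1.1 = p'.1.1 ∧ (p.2.val + 1 = p'.2.val ∨ p'.2.val + 1 = p.2.val))) ∧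
    ¬ (p.1.2 = true ∧ g p.1.1) ∧ ¬ (p'.1.2 = true ∧ g p'.1.1) ∧ (p.1.2 = p'.1.2 ∨ g p.1.1 ∨ g p'.1.1)

private theorem C07_adj (R : SimpleGraph (Fin (2 * s + 2 * L + 1))) (hs : h ≤ s) (hh : 1 ≤ h) (hL : h < 2 * L)
    (hR : ∀ (b b' : Bool) (k k' : ℕ) (t t' : Fin (2 * s + 2 * L + 1)), k < h → k' < h → t.val = C07_pos s L b k →
      t'.val = C07_pos s L b' k' → (R.Adj t t' ↔ b = b' ∧ (k + 1 = k' ∨ k' + 1 = k)))
    (b b' : Bool) (p p' : (Y × Bool) × Fin h) :
    (D2 (H.boxProd R) (glp g (2 * s + 2 * L))).Adj (ib s L h b p) (ib s L h b' p') ↔ b = b' ∧ C07_core H g h p p' := by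
  have h1 := C07_val (Y := Y) s L h hs b p
  have h2 := C07_val (Y := Y) s L h hs b' p'
  have h3 := C07_glp g s L h hs hh b p
  have h4 := C07_glp g s L h hs hh b' p'
  have h5 := hR b b' p.2.val p'.2.val _ _ p.2.2 p'.2.2 h1 h2
  have h6 : (ib s L h b p).1.2 = (ib s L h b' p').1.2 ↔ b = b' ∧ p.2.val = p'.2.val := by
    rw [Fin.ext_iff, h1, h2]
    have h7 := p.2.2
    have h8 := p'.2.2
    cases b <;> cases b'
    · rw [C07_pos_false, C07_pos_false]
      simp
    · rw [C07_pos_false, C07_pos_true]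
      constructor
      · intro h9
        omega
      · rintro ⟨h9, -⟩
        simp at h9
    · rw [C07_pos_false, C07_pos_true]
      constructor
      · intro h9
        omega
      · rintro ⟨h9, -⟩
        simp at h9
    · rw [C07_pos_true, C07_pos_true]
      simp
  change ((H.boxProd R).Adj (ib s L h b p).1 (ib s L h b' p').1 ∧ ¬ (p.1.2 = true ∧ glp g (2 * s + 2 * L) (ib s L h b p).1) ∧
    ¬ (p'.1.2 = true ∧ glp g (2 * s + 2 * L) (ib s L h b' p').1) ∧
    (p.1.2 = p'.1.2 ∨ glp g (2 * s + 2 * L) (ib s L h b p).1 ∨ glp g (2 * s + 2 * L) (ib s L h b' p').1)) ↔ _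
  rw [h3, h4, SimpleGraph.boxProd_adj, h5, h6]
  unfold C07_core
  constructor
  · rintro ⟨h7 | h7, h8⟩
    · exact ⟨h7.2.1, Or.inl ⟨h7.1, h7.2.2⟩, h8⟩
    · exact ⟨h7.1.1, Or.inr ⟨h7.2, h7.1.2⟩, h8⟩
  · rintro ⟨h7, h9 | h9, h8⟩
    · exact ⟨Or.inl ⟨h9.1, h7, h9.2⟩, h8⟩
    · exact ⟨Or.inr ⟨⟨h7, h9.2⟩, h9.1⟩, h8⟩

private theorem C07_RX (_hs : h ≤ s) (hL : h < 2 * L) (b b' : Bool) (k k' : ℕ) (t t' : Fin (2 * s + 2 * L + 1)) (hk : k < h)
    (hk' : k' < h) (ht : t.val = C07_pos s L b k) (ht' : t'.val = C07_pos s L b' k') :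
    (RX s L).Adj t t' ↔ b = b' ∧ (k + 1 = k' ∨ k' + 1 = k) := by
  change (t ≠ t' ∧ (nxt s L t.val t'.val ∨ nxt s L t'.val t.val)) ↔ _
  rw [Ne, Fin.ext_iff, ht, ht']
  unfold nxt
  cases b <;> cases b'
  · rw [C07_pos_false, C07_pos_false]
    simp only [true_and]
    omega
  · rw [C07_pos_false, C07_pos_true]
    simp only [Bool.false_eq_true, false_and, iff_false]
    omega
  · rw [C07_pos_false, C07_pos_true]
    simp only [Bool.true_eq_false, false_and, iff_false]
    omega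
  · rw [C07_pos_true, C07_pos_true]
    simp only [true_and]
    omega

private theorem C07_ln (_hs : h ≤ s) (hL : h < 2 * L) (b b' : Bool) (k k' : ℕ) (t t' : Fin (2 * s + 2 * L + 1)) (hk : k < h)
    (hk' : k' < h) (ht : t.val = C07_pos s L b k) (ht' : t'.val = C07_pos s L b' k') :
    (lnG false (2 * s + 2 * L + 1)).Adj t t' ↔ b = b' ∧ (k + 1 = k' ∨ k' + 1 = k) := by
  change (t ≠ t' ∧ (t.val + 1 = t'.val ∨ t'.val + 1 = t.val ∨ (false = true ∧ _))) ↔ _
  rw [Ne, Fin.ext_iff, ht, ht']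
  simp only [Bool.false_eq_true, false_and, or_false]
  cases b <;> cases b'
  · rw [C07_pos_false, C07_pos_false]
    simp only [true_and]
    omega
  · rw [C07_pos_false, C07_pos_true]
    simp only [Bool.false_eq_true, false_and, iff_false]
    omega
  · rw [C07_pos_false, C07_pos_true]
    simp only [Bool.true_eq_false, false_and, iff_false]
    omega
  · rw [C07_pos_true, C07_pos_true]
    simp only [true_and]
    omega

/-- the points outside the copies -/
private theorem C07_outside (hs : h ≤ s) (v : (Y × Fin (2 * s + 2 * L + 1)) × Bool) (hv : ∀ b' p', v ≠ ib s L h b' p') :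
    ∀ (b : Bool) (k : ℕ), k < h → v.1.2.val ≠ C07_pos s L b k := by
  intro b k hk h1
  refine hv b ((v.1.1, v.2), ⟨k, hk⟩) ?_
  have h2 := C07_val (Y := Y) s L h hs b ((v.1.1, v.2), ⟨k, hk⟩)
  refine Prod.ext (Prod.ext rfl ?_) rfl
  apply Fin.ext
  rw [h2, h1]

end

theorem prod_layer {Y : Type} [Fintype Y] [DecidableEq Y] (H : SimpleGraph Y) (g evY : Y → Prop) (s L h : ℕ) (hh : 2 ≤ h)
    (hs : h ≤ s) (hL : h < 2 * L) :
    Layer h (D2 (H.boxProd (RX s L)) (glp g (2 * s + 2 * L)))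
      (D2 (H.boxProd (lnG false (2 * s + 2 * L + 1))) (glp g (2 * s + 2 * L))) (evP evY)
      (LG s L h H g) (fun z => z.2.val) (ib s L h) := by
  have hR := C07_RX s L h hs hL
  have hP := C07_ln s L h hs hL
  have hG : ∀ p p', (LG s L h H g).Adj p p' ↔ C07_core H g h p p' := by
    intro p p'
    change (D2 (H.boxProd (RX s L)) (glp g (2 * s + 2 * L))).Adj (ib s L h false p) (ib s L h false p') ↔ _
    rw [C07_adj H g s L h (RX s L) hs (by omega) hL hR]
    simp
  refine ⟨?_, ?_, ?_, ?_, ?_, ?_, ?_, ?_, ?_⟩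
  · intro b b' p p' h1
    have h2 := C07_val (Y := Y) s L h hs b p
    have h3 := C07_val (Y := Y) s L h hs b' p'
    have h4 : p.1.1 = p'.1.1 := congrArg (fun z => z.1.1) h1
    have h5 : p.1.2 = p'.1.2 := congrArg (fun z => z.2) h1
    rw [h1, h3] at h2
    have h6 := p.2.2
    have h7 := p'.2.2
    have h8 : b = b' ∧ p.2.val = p'.2.val := by
      cases b <;> cases b'
      · rw [C07_pos_false, C07_pos_false] at h2
        exact ⟨rfl, by omega⟩
      · rw [C07_pos_false, C07_pos_true] at h2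
        omega
      · rw [C07_pos_false, C07_pos_true] at h2
        omega
      · rw [C07_pos_true, C07_pos_true] at h2
        exact ⟨rfl, by omega⟩
    exact ⟨h8.1, Prod.ext (Prod.ext h4 h5) (Fin.ext h8.2)⟩
  · intro p
    exact p.2.2
  · intro p p' h1
    have h2 := ((hG p p').1 h1).1
    rcases h2 with ⟨-, h2⟩ | ⟨-, h2 | h2⟩
    · change p.2.val ≤ p'.2.val + 1
      omega
    · change p.2.val ≤ p'.2.val + 1
      omega
    · change p.2.val ≤ p'.2.val + 1
      omega
  · intro p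
    unfold evP
    rw [C07_val s L h hs true p, C07_val s L h hs false p, C07_pos_true, C07_pos_false]
    have h1 : Even (s + 2 * L + p.2.val) ↔ Even (s + p.2.val) := by
      have : s + 2 * L + p.2.val = 2 * L + (s + p.2.val) := by ring
      rw [this, Nat.even_add]
      simp
    rw [h1]
    exact Iff.rfl
  · intro b b' p p'
    rw [C07_adj H g s L h (RX s L) hs (by omega) hL hR, hG]
  · intro b b' p p'
    rw [C07_adj H g s L h _ hs (by omega) hL hP, hG]
  · intro b p v hv h1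
    have hv' := C07_outside s L h hs v hv
    have h2 := C07_val (Y := Y) s L h hs b p
    have h6 := p.2.2
    obtain ⟨h3, -⟩ := h1
    rw [SimpleGraph.boxProd_adj] at h3
    rcases h3 with ⟨-, h3⟩ | ⟨h3, -⟩
    · exfalso
      refine hv' b p.2.val p.2.2 ?_
      rw [← h2, h3]
    · change (v.1.2 ≠ _ ∧ (nxt s L v.1.2.val (ib s L h b p).1.2.val ∨ nxt s L (ib s L h b p).1.2.val v.1.2.val)) at h3
      rw [h2] at h3
      obtain ⟨-, h3⟩ := h3
      by_contra h4
      have h5 : p.2.val ≠ 0 ∧ p.2.val + 1 < h := by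
        have h7 : ¬ (p.2.val = 0 ∨ p.2.val + 1 = h) := h4
        omega
      have h8 := hv' b (p.2.val - 1) (by omega)
      have h9 := hv' b (p.2.val + 1) (by omega)
      unfold nxt at h3
      cases b
      · rw [C07_pos_false] at h3 h8 h9
        omega
      · rw [C07_pos_true] at h3 h8 h9
        omega
  · intro v w hv hw
    have hv' := C07_outside s L h hs v hv
    have hw' := C07_outside s L h hs w hw
    have v0 := hv' false 0 (by omega)
    have v1 := hv' true 0 (by omega)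
    have w0 := hw' false 0 (by omega)
    have w1 := hw' true 0 (by omega)
    rw [C07_pos_false] at v0 w0
    rw [C07_pos_true] at v1 w1
    have h1 : (lnG false (2 * s + 2 * L + 1)).Adj v.1.2 w.1.2 ↔ (RX s L).Adj v.1.2 w.1.2 := by
      change (v.1.2 ≠ w.1.2 ∧ (v.1.2.val + 1 = w.1.2.val ∨ w.1.2.val + 1 = v.1.2.val ∨ (false = true ∧ _))) ↔
        (v.1.2 ≠ w.1.2 ∧ (nxt s L v.1.2.val w.1.2.val ∨ nxt s L w.1.2.val v.1.2.val))
      unfold nxt
      simp only [Bool.false_eq_true, false_and, or_false]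
      refine and_congr Iff.rfl ?_
      omega
    change ((H.boxProd _).Adj v.1 w.1 ∧ _) ↔ ((H.boxProd _).Adj v.1 w.1 ∧ _)
    rw [SimpleGraph.boxProd_adj, SimpleGraph.boxProd_adj, h1]
  · intro b p v hv
    have hv' := C07_outside s L h hs v hv
    have h6 := p.2.2
    obtain ⟨b', hb'⟩ : ∃ b', b' = if p.2.val = 0 then !b else b := ⟨_, rfl⟩
    change _ ↔ (D2 (H.boxProd (RX s L)) (glp g (2 * s + 2 * L))).Adj v (ib s L h (if p.2.val = 0 then !b else b) p)
    rw [← hb']
    have h1 := C07_val (Y := Y) s L h hs b p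
    have h2 := C07_val (Y := Y) s L h hs b' p
    have h3 := C07_glp g s L h hs (by omega) b p
    have h4 := C07_glp g s L h hs (by omega) b' p
    have n1 : v.1.2 ≠ (ib s L h b p).1.2 := fun h5 => hv' b p.2.val p.2.2 (by rw [← h1, h5])
    have n2 : v.1.2 ≠ (ib s L h b' p).1.2 := fun h5 => hv' b' p.2.val p.2.2 (by rw [← h2, h5])
    have h7 : (lnG false (2 * s + 2 * L + 1)).Adj v.1.2 (ib s L h b p).1.2 ↔
        (RX s L).Adj v.1.2 (ib s L h b' p).1.2 := by
      change (v.1.2 ≠ _ ∧ (v.1.2.val + 1 = (ib s L h b p).1.2.val ∨ (ib s L h b p).1.2.val + 1 = v.1.2.val ∨ (false = true ∧ _))) ↔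
        (v.1.2 ≠ _ ∧ (nxt s L v.1.2.val (ib s L h b' p).1.2.val ∨ nxt s L (ib s L h b' p).1.2.val v.1.2.val))
      rw [h1, h2]
      simp only [Bool.false_eq_true, false_and, or_false, ne_eq, n1, n2, not_false_eq_true, true_and]
      unfold nxt
      have v0 := hv' false 0 (by omega)
      have v1 := hv' true 0 (by omega)
      have v2 := hv' false 1 (by omega)
      have v3 := hv' true 1 (by omega)
      have v4 : p.2.val ≠ 0 → v.1.2.val ≠ C07_pos s L b (p.2.val - 1) := fun _ => hv' b _ (by omega)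
      rw [C07_pos_false] at v0 v2
      rw [C07_pos_true] at v1 v3
      by_cases h0 : p.2.val = 0
      · rw [if_pos h0] at hb'
        rw [h0]
        cases b
        · subst hb'
          rw [Bool.not_false, C07_pos_false, C07_pos_true]
          omega
        · subst hb'
          rw [Bool.not_true, C07_pos_false, C07_pos_true]
          omega
      · rw [if_neg h0] at hb'
        have v4 := v4 h0
        subst hb'
        cases b'
        · rw [C07_pos_false] at v4 ⊢
          omega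
        · rw [C07_pos_true] at v4 ⊢
          omega
    change ((H.boxProd _).Adj v.1 (ib s L h b p).1 ∧ ¬ (v.2 = true ∧ glp g (2 * s + 2 * L) v.1) ∧
        ¬ (p.1.2 = true ∧ glp g (2 * s + 2 * L) (ib s L h b p).1) ∧
        (v.2 = p.1.2 ∨ glp g (2 * s + 2 * L) v.1 ∨ glp g (2 * s + 2 * L) (ib s L h b p).1)) ↔
      ((H.boxProd _).Adj v.1 (ib s L h b' p).1 ∧ ¬ (v.2 = true ∧ glp g (2 * s + 2 * L) v.1) ∧
        ¬ (p.1.2 = true ∧ glp g (2 * s + 2 * L) (ib s L h b' p).1) ∧
        (v.2 = p.1.2 ∨ glp g (2 * s + 2 * L) v.1 ∨ glp g (2 * s + 2 * L) (ib s L h b' p).1))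
    rw [h3, h4, SimpleGraph.boxProd_adj, SimpleGraph.boxProd_adj, h7]
    have e1 : (v.1.2 = (ib s L h b p).1.2) ↔ False := iff_false_intro n1
    have e2 : (v.1.2 = (ib s L h b' p).1.2) ↔ False := iff_false_intro n2
    rw [e1, e2]
    exact Iff.rfl

end Pool.Agent.LC

end
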