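import Pool.Agent.Lib_MP_2c424f_m.M24
import Pool.Agent.Lib_MP_2c424f_m.M35

/-!
# MP_2c424f_pr, q_c grows linearly: merged library part M36

Concatenation of smaller files (each in its own section), only to save build time.
-/

namespace Pool.Agent.LO
end Pool.Agent.LO

namespace Pool.Agent.LIN
end Pool.Agent.LIN

namespace Pool.Agent.THR
end Pool.Agent.THR

namespace Pool.Agent.COR
end Pool.Agent.COR

/-! ### from `Lib_MP_2c424f_lc6a.B3` -/

section

/-!
# LC6a B3: the layer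

A vertex `(y, c)` is an image of the layer iff (`c = true` and `y` is a slab point with `0 < dp`) or (`c = false` and `y` is a slab point with `dp < 0`) (`mir_slb`; `il_image`).
* `inj`: `slb_uniq` with `x = x'`; `mir` is injective on a slab (`mir (mir x) = x`).  `lt`: `dp ≤ h`.  `lvl`: `slb_nb` (`slb_rr`).  `par`: `mir_ev`.
* `adj`, `adj'`: `b ≠ b'`: the two points are on different sheets, none is on the surface (`slb_su`): no edge.  `b = b'`: neither is on the surface, so the edge is one of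
  `bG d N` and `slb_uniq` gives the same `(k, σ)`; `mir_adj`; `slb_rr`.
* `out`: `v = (y, c)`, neighbour of `(x, true)` or `(mir x, false)` =: `(x₁, c₁)`.  `slb_nb`: `y` is `okc` in the other directions and `|dp y - dp x₁| ≤ 1`.  If `0 < lv p` and
  `lv p + 1 < h` then `1 ≤ |dp y| ≤ h` and `dp y` has the sign of `dp x₁`, so `y` is not on the surface (`slb_su`), hence `c = c₁`: `v` is an image, contradiction.
* `oo`: `v = (y, c)`, `w = (y', c')`, not removed.  If both or none of `y, y'` are surface points: the same condition `c = c'`.  If `Su y`, not `Su y'` (or the other way round): `su_slb`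
  for `y`, `slb_nb` for `y'`: `y'` is a slab point (`2 ≤ h`) with `dp = ±1` (not `0` by `slb_su`).  `dp y' = 1`: `In y'`, and `(y', true)` is an image, so `c' = false`: `TX` says `c = false`, `TC` says `c = c'`.
  `dp y' = -1`: not `In y'`, `(y', false)` is an image, so `c' = true`; `TX` says `c = true`.
* `oi`: `v = (y, c)` outside.  Level `≠ 0`: `y` is not a surface point (a surface neighbour is a slab point of the same face by `su_slb`, `slb_uniq`, with `dp = 0`), both conditions are the same.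
  Level `0`: for `i b p = (x, true)`: both sides are equivalent to: `y` is the surface neighbour of `x` (the neighbour with `dp = 0`) and `c = true`: a neighbour `y` (not removed) of `x` with `c = true`
  is a slab point of the same face with `dp = 0, 1, 2` (`2 ≤ h`), `dp ≥ 1` would be an image.  A neighbour `y` of `mir x` is a slab point with `dp = 0, -1, -2`; if `dp < 0` then `TX` says `c = false` and `(y, false)` is an image;
  if `dp = 0`, `TX` says `c = true` (`mir x` is not in `In`); `slb_foot` and the foot of `x` is its own mirror image: the neighbour with `dp = 0` of `x` and of `mir x` is the same point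
  (`mir y` is a neighbour of `mir x` by `mir_adj`, `dp (mir y) = 0`, and `mir y = y` if `dp y = 0`).  The same for `i b p = (mir x, false)`.
-/

set_option autoImplicit false

open Finset Filter

namespace Pool.Agent.LC

open Pool.Agent.LO Pool.Agent.LIN Pool.Agent.THR Pool.Agent.COR

variable {d N h : ℕ} {ι : Type} (D : Bxs d N h ι)

/-- the images of the layer -/
theorem il_image (y : BxV d N) (c : Bool) : (∃ b p, (y, c) = D.il b p) ↔
    ∃ k ∈ D.I, ∃ σ : Stp d, D.slb k σ y ∧ ((c = true ∧ 0 < D.dp k σ y) ∨ (c = false ∧ D.dp k σ y < 0)) := by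
  constructor
  · rintro ⟨b, p, hp⟩
    obtain ⟨⟨⟨⟨k, hk⟩, σ⟩, x⟩, h1, h2⟩ := p
    cases b with
    | false =>
      have h3 : (y, c) = (x, true) := hp
      obtain ⟨rfl, rfl⟩ := Prod.mk.inj h3
      exact ⟨k, hk, σ, h1, Or.inl ⟨rfl, h2⟩⟩
    | true =>
      have h3 : (y, c) = (D.mir k σ x, false) := hp
      obtain ⟨rfl, rfl⟩ := Prod.mk.inj h3
      obtain ⟨h4, h5, h6⟩ := mir_slb D hk h1
      refine ⟨k, hk, σ, h4, Or.inr ⟨rfl, ?_⟩⟩
      have h7 : 0 < D.dp k σ x := h2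
      have h8 : D.dp k σ (D.mir k σ x) = -D.dp k σ x := h5
      omega
  · rintro ⟨k, hk, σ, h1, ⟨rfl, h2⟩ | ⟨rfl, h2⟩⟩
    · exact ⟨false, ⟨((⟨k, hk⟩, σ), y), h1, h2⟩, rfl⟩
    · obtain ⟨h4, h5, h6⟩ := mir_slb D hk h1
      refine ⟨true, ⟨((⟨k, hk⟩, σ), D.mir k σ y), h4, ?_⟩, ?_⟩
      · show 0 < D.dp k σ (D.mir k σ y)
        omega
      · show (y, false) = (D.mir k σ (D.mir k σ y), false)
        rw [h6]

private theorem B3_info (b : Bool) (p : D.Lam) : D.slb p.1.1.1.1 p.1.1.2 (D.il b p).1 ∧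
    D.dp p.1.1.1.1 p.1.1.2 (D.il b p).1 = (if b then -D.dp p.1.1.1.1 p.1.1.2 p.1.2 else D.dp p.1.1.1.1 p.1.1.2 p.1.2) ∧
    (D.il b p).2 = !b ∧ (D.il (!b) p).1 = D.mir p.1.1.1.1 p.1.1.2 (D.il b p).1 := by
  have h1 := mir_slb D p.1.1.1.2 p.2.1
  cases b with
  | false => exact ⟨p.2.1, rfl, rfl, rfl⟩
  | true => exact ⟨h1.1, h1.2.1, rfl, h1.2.2.symm⟩

private theorem B3_lv (p : D.Lam) : 1 ≤ D.dp p.1.1.1.1 p.1.1.2 p.1.2 ∧ D.dp p.1.1.1.1 p.1.1.2 p.1.2 ≤ h ∧
    ((D.lv p : ℕ) : ℤ) = D.dp p.1.1.1.1 p.1.1.2 p.1.2 - 1 := by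
  have h1 := p.2.1.2.2
  have h2 := p.2.2
  refine ⟨by omega, h1, ?_⟩
  unfold Bxs.lv
  omega

private theorem B3_sgn (b : Bool) (p : D.Lam) :
    (D.In (D.il b p).1 ↔ b = false) ∧ ¬ D.Su (D.il b p).1 ∧ ¬ D.RR (D.il b p).1 := by
  obtain ⟨h1, h2, -, -⟩ := B3_info D b p
  obtain ⟨h3, -, -⟩ := B3_lv D p
  have hk := p.1.1.1.2
  refine ⟨?_, ?_, slb_rr D hk h1⟩
  · rw [slb_in D hk h1, h2]
    cases b with
    | false => simp; omega
    | true => simp; omega
  · rw [slb_su D hk h1, h2]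
    cases b with
    | false => simp; omega
    | true => simp; omega

/-- a surface neighbour of a slab point is the foot -/
private theorem B3_su {k : ι} (hk : k ∈ D.I) {σ : Stp d} {x y : BxV d N} (hx : D.slb k σ x) (ha : (bG d N).Adj x y)
    (hS : D.Su y) (hR : ¬ D.RR y) : D.slb k σ y ∧ D.dp k σ y = 0 := by
  obtain ⟨k', hk', σ', h1, h2⟩ := su_slb D hS hR
  obtain ⟨rfl, rfl⟩ := slb_uniq D hk hk' hx h1 (Or.inr ha)
  exact ⟨h1, h2⟩

/-- neighbours of surface points outside the images -/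
private theorem B3_oo (hh : 1 ≤ h) {y y' : BxV d N} {c' : Bool} (hS : D.Su y) (hR : ¬ D.RR y) (ha : (bG d N).Adj y y')
    (hR' : ¬ D.RR y') (hS' : ¬ D.Su y') (hv : ∀ b p, (y', c') ≠ D.il b p) : c' = false ↔ D.In y' := by
  obtain ⟨k, hk, σ, h1, h2⟩ := su_slb D hS hR
  obtain ⟨h3, h4⟩ := slb_nb D hk h1 ha hR'
  rw [h2, sub_zero, abs_le] at h4
  have h5 : D.slb k σ y' := ⟨h3, by omega, by omega⟩
  have h6 : D.dp k σ y' ≠ 0 := fun h => hS' ((slb_su D hk h5).2 h)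
  rw [slb_in D hk h5]
  have h7 : ¬ ∃ b p, (y', c') = D.il b p := fun ⟨b, p, h⟩ => hv b p h
  rw [il_image] at h7
  cases c' with
  | false =>
    refine ⟨fun _ => ?_, fun _ => rfl⟩
    by_contra h8
    exact h7 ⟨k, hk, σ, h5, Or.inr ⟨rfl, by omega⟩⟩
  | true =>
    refine ⟨fun h => Bool.noConfusion h, fun h8 => ?_⟩
    exact (h7 ⟨k, hk, σ, h5, Or.inl ⟨rfl, by omega⟩⟩).elim

/-- a neighbour of a layer point, in the same sheet and outside the images, has depth `0` if the level is `0` -/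
private theorem B3_foot (hh : 2 ≤ h) (b : Bool) (p : D.Lam) (hl : D.lv p = 0) {y : BxV d N} {c : Bool}
    (hv : ∀ b p, (y, c) ≠ D.il b p) (ha : (bG d N).Adj (D.il b p).1 y) (hR : ¬ D.RR y)
    (hc : D.Su y ∨ c = (D.il b p).2) :
    D.slb p.1.1.1.1 p.1.1.2 y ∧ D.dp p.1.1.1.1 p.1.1.2 y = 0 := by
  obtain ⟨h1, h2, h3, -⟩ := B3_info D b p
  obtain ⟨h4, h5, h6⟩ := B3_lv D p
  have hk := p.1.1.1.2
  rcases hc with hS | hc
  · exact B3_su D hk h1 ha hS hR
  · obtain ⟨h7, h8⟩ := slb_nb D hk h1 ha hR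
    have h9 : D.dp p.1.1.1.1 p.1.1.2 p.1.2 = 1 := by omega
    rw [h9] at h2
    rw [h2, abs_le] at h8
    have h10 : D.slb p.1.1.1.1 p.1.1.2 y := by
      refine ⟨h7, ?_, ?_⟩ <;> cases b <;> simp at h8 <;> omega
    refine ⟨h10, ?_⟩
    have h11 : ¬ ∃ b p, (y, c) = D.il b p := fun ⟨b, p, h⟩ => hv b p h
    rw [il_image] at h11
    by_contra h12
    rw [h3] at hc
    cases b with
    | false =>
      simp at h8 hc
      exact h11 ⟨_, hk, _, h10, Or.inl ⟨hc, by omega⟩⟩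
    | true =>
      simp at h8 hc
      exact h11 ⟨_, hk, _, h10, Or.inr ⟨hc, by omega⟩⟩

private theorem B3_fix {k : ι} (hk : k ∈ D.I) {σ : Stp d} {y : BxV d N} (hy : D.dp k σ y = 0) : D.mir k σ y = y := by
  funext j
  unfold Bxs.mir
  split_ifs with h1 h2
  · subst h1
    unfold Bxs.dp at hy
    rw [if_pos h2] at hy
    ext
    have h3 := (y σ.1).isLt
    rw [Fin.val_ofNat, Nat.mod_eq_of_lt (by omega)]
    omega
  · subst h1
    unfold Bxs.dp at hy
    rw [if_neg h2] at hy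
    ext
    have h3 := (y σ.1).isLt
    rw [Fin.val_ofNat, Nat.mod_eq_of_lt (by omega)]
    omega
  · rfl

/-- the foot of a layer point is a neighbour of both copies -/
private theorem B3_both (b : Bool) (p : D.Lam) {y : BxV d N} (hy : D.slb p.1.1.1.1 p.1.1.2 y)
    (hy0 : D.dp p.1.1.1.1 p.1.1.2 y = 0) (ha : (bG d N).Adj (D.il b p).1 y) : (bG d N).Adj (D.il (!b) p).1 y := by
  obtain ⟨h1, -, -, h4⟩ := B3_info D b p
  have hk := p.1.1.1.2
  rw [h4]
  have h5 := (mir_adj D hk h1 hy).2 ha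
  rwa [B3_fix D hk hy0] at h5

private theorem B3_adj (X : SimpleGraph (BxV d N × Bool))
    (hX : ∀ v w : BxV d N × Bool, ¬ D.Su v.1 → ¬ D.Su w.1 → ¬ D.RR v.1 → ¬ D.RR w.1 →
      (X.Adj v w ↔ (bG d N).Adj v.1 w.1 ∧ v.2 = w.2)) (b b' : Bool) (p p' : D.Lam) :
    X.Adj (D.il b p) (D.il b' p') ↔ b = b' ∧ D.GrL.Adj p p' := by
  obtain ⟨h1, h2, h3, h4⟩ := B3_info D b p
  obtain ⟨h1', h2', h3', h4'⟩ := B3_info D b' p'
  obtain ⟨-, h5, h6⟩ := B3_sgn D b p
  obtain ⟨-, h5', h6'⟩ := B3_sgn D b' p'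
  rw [hX _ _ h5 h5' h6 h6', h3, h3']
  have hb : ((!b) = !b') ↔ b = b' := by cases b <;> cases b' <;> simp
  rw [hb, and_comm]
  refine and_congr_right fun hbb => ?_
  subst hbb
  obtain ⟨⟨⟨⟨k, hk⟩, σ⟩, x⟩, hx1, hx2⟩ := p
  obtain ⟨⟨⟨⟨k', hk'⟩, σ'⟩, x'⟩, hx1', hx2'⟩ := p'
  constructor
  · intro ha
    obtain ⟨e1, e2⟩ := slb_uniq D hk hk' h1 h1' (Or.inr ha)
    have e1' : k = k' := e1
    have e2' : σ = σ' := e2
    subst e1'
    subst e2'
    refine ⟨rfl, ?_⟩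
    cases b with
    | false => exact ha
    | true => exact (mir_adj D hk hx1 hx1').1 ha
  · rintro ⟨e1, ha⟩
    have e2 : ((⟨k, hk⟩ : {k // k ∈ D.I}), σ) = (⟨k', hk'⟩, σ') := e1
    obtain ⟨e3, e4⟩ := Prod.mk.inj e2
    have e5 : k = k' := congrArg Subtype.val e3
    subst e5
    subst e4
    cases b with
    | false => exact ha
    | true => exact (mir_adj D hk hx1 hx1').2 ha

theorem lay (hh : 2 ≤ h) : Layer h D.XX D.XC (fun v => bev v.1) D.GrL D.lv D.il := by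
  refine ⟨?_, ?_, ?_, ?_, ?_, ?_, ?_, ?_, ?_⟩
  · -- inj
    intro b b' p p' he
    obtain ⟨h1, -, h3, -⟩ := B3_info D b p
    obtain ⟨h1', -, h3', -⟩ := B3_info D b' p'
    have hb : b = b' := by
      have h5 : (!b) = !b' := by rw [← h3, ← h3', he]
      cases b <;> cases b' <;> simp at h5 ⊢
    subst hb
    refine ⟨rfl, ?_⟩
    obtain ⟨⟨⟨⟨k, hk⟩, σ⟩, x⟩, hx1, hx2⟩ := p
    obtain ⟨⟨⟨⟨k', hk'⟩, σ'⟩, x'⟩, hx1', hx2'⟩ := p'
    obtain ⟨e1, e2⟩ := slb_uniq D hk hk' h1 h1' (Or.inl (congrArg Prod.fst he))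
    have e1' : k = k' := e1
    have e2' : σ = σ' := e2
    subst e1'
    subst e2'
    have e3 : x = x' := by
      cases b with
      | false => exact congrArg Prod.fst he
      | true =>
        have h6 : D.mir k σ x = D.mir k σ x' := congrArg Prod.fst he
        have h7 : D.mir k σ (D.mir k σ x) = x := (mir_slb D hk hx1).2.2
        have h8 : D.mir k σ (D.mir k σ x') = x' := (mir_slb D hk hx1').2.2
        rw [← h7, h6, h8]
    subst e3
    rfl
  · -- lt
    intro p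
    obtain ⟨h4, h5, h6⟩ := B3_lv D p
    omega
  · -- lvl
    intro p p' hp
    obtain ⟨⟨⟨⟨k, hk⟩, σ⟩, x⟩, hx1, hx2⟩ := p
    obtain ⟨⟨⟨⟨k', hk'⟩, σ'⟩, x'⟩, hx1', hx2'⟩ := p'
    obtain ⟨e1, ha⟩ := hp
    have e2 : ((⟨k, hk⟩ : {k // k ∈ D.I}), σ) = (⟨k', hk'⟩, σ') := e1
    obtain ⟨e3, e4⟩ := Prod.mk.inj e2
    have e5 : k = k' := congrArg Subtype.val e3
    subst e5
    subst e4
    have h7 := (slb_nb D hk hx1 ha (slb_rr D hk hx1')).2
    have h8 : |D.dp k σ x' - D.dp k σ x| ≤ 1 := h7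
    rw [abs_le] at h8
    show (D.dp k σ x - 1).toNat ≤ (D.dp k σ x' - 1).toNat + 1
    omega
  · -- par
    intro p
    exact mir_ev D p.1.1.1.2 p.2.1
  · -- adj
    intro b b' p p'
    refine B3_adj D D.XX (fun v w hv hw hv' hw' => ?_) b b' p p'
    constructor
    · rintro ⟨⟨h1, h2⟩, -, -⟩
      refine ⟨h1, ?_⟩
      rcases h2 with h2 | h2 | h2
      · exact h2.2
      · exact absurd h2.1 hv
      · exact absurd h2.1 hw
    · rintro ⟨h1, h2⟩
      exact ⟨⟨h1, Or.inl ⟨iff_of_false hv hw, h2⟩⟩, hv', hw'⟩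
  · -- adj'
    intro b b' p p'
    refine B3_adj D D.XC (fun v w hv hw hv' hw' => ?_) b b' p p'
    exact ⟨fun h1 => h1.1, fun h1 => ⟨h1, hv', hw'⟩⟩
  · -- out
    rintro b p ⟨y, c⟩ hv ⟨⟨ha, hc⟩, hR, hR'⟩
    by_contra hne
    push Not at hne
    obtain ⟨h1, h2, h3, -⟩ := B3_info D b p
    obtain ⟨h4, h5, h6⟩ := B3_lv D p
    obtain ⟨-, hS, -⟩ := B3_sgn D b p
    have hk := p.1.1.1.2
    obtain ⟨h7, h8⟩ := slb_nb D hk h1 ha.symm hR
    have h9 : 2 ≤ D.dp p.1.1.1.1 p.1.1.2 p.1.2 ∧ D.dp p.1.1.1.1 p.1.1.2 p.1.2 + 1 ≤ h := by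
      obtain ⟨g1, g2⟩ := hne
      constructor <;> omega
    have h11 : ¬ ∃ b p, (y, c) = D.il b p := fun ⟨b, p, h⟩ => hv b p h
    rw [il_image] at h11
    rw [h2, abs_le] at h8
    have h10 : D.slb p.1.1.1.1 p.1.1.2 y := by
      refine ⟨h7, ?_, ?_⟩ <;> cases b <;> simp at h8 <;> omega
    have hSy : ¬ D.Su y := by
      rw [slb_su D hk h10]
      cases b <;> simp at h8 <;> omega
    have hcc : c = (D.il b p).2 := by
      rcases hc with h | h | h
      · exact h.2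
      · exact absurd h.1 hSy
      · exact absurd h.1 hS
    rw [h3] at hcc
    cases b with
    | false =>
      simp at h8 hcc
      exact h11 ⟨_, hk, _, h10, Or.inl ⟨hcc, by omega⟩⟩
    | true =>
      simp at h8 hcc
      exact h11 ⟨_, hk, _, h10, Or.inr ⟨hcc, by omega⟩⟩
  · -- oo
    rintro ⟨y, c⟩ ⟨y', c'⟩ hv hw
    have key : (bG d N).Adj y y' → ¬ D.RR y → ¬ D.RR y' → (c = c' ↔
        (((D.Su y ↔ D.Su y') ∧ c = c') ∨ (D.Su y ∧ ¬ D.Su y' ∧ (c = false ↔ D.In y')) ∨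
          (D.Su y' ∧ ¬ D.Su y ∧ (c' = false ↔ D.In y)))) := by
      intro ha hR hR'
      by_cases h1 : D.Su y
      · by_cases h2 : D.Su y'
        · simp [h1, h2]
        · have h3 := B3_oo D (by omega) h1 hR ha hR' h2 hw
          rw [← h3]
          simp only [h1, h2, not_true, not_false_iff, true_and, false_and, or_false, iff_false, false_or]
          cases c <;> cases c' <;> simp
      · by_cases h2 : D.Su y'
        · have h3 := B3_oo D (by omega) h2 hR' ha.symm hR h1 hv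
          rw [← h3]
          simp only [h1, h2, not_true, not_false_iff, true_and, false_and, iff_true, false_or]
          cases c <;> cases c' <;> simp
        · simp [h1, h2]
    constructor
    · rintro ⟨⟨ha, hc⟩, hR, hR'⟩
      exact ⟨⟨ha, (key ha hR hR').1 hc⟩, hR, hR'⟩
    · rintro ⟨⟨ha, hc⟩, hR, hR'⟩
      exact ⟨⟨ha, (key ha hR hR').2 hc⟩, hR, hR'⟩
  · -- oi
    rintro b p ⟨y, c⟩ hv
    obtain ⟨h1, h2, h3, h3b⟩ := B3_info D b p
    obtain ⟨h4, h5, h6⟩ := B3_lv D p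
    obtain ⟨hIn, hS, hRx⟩ := B3_sgn D b p
    obtain ⟨hIn', hS', hRx'⟩ := B3_sgn D (!b) p
    obtain ⟨-, -, h3', -⟩ := B3_info D (!b) p
    have hk := p.1.1.1.2
    by_cases hl : D.lv p = 0
    · rw [if_pos hl]
      constructor
      · rintro ⟨⟨ha, hc⟩, hR, -⟩
        have hc' : c = (D.il b p).2 := hc
        obtain ⟨h7, h8⟩ := B3_foot D hh b p hl hv ha.symm hR (Or.inr hc')
        have h9 := B3_both D b p h7 h8 ha.symm
        have hSy := (slb_su D hk h7).2 h8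
        refine ⟨⟨h9.symm, Or.inr (Or.inl ⟨hSy, hS', ?_⟩)⟩, hR, hRx'⟩
        show c = false ↔ D.In (D.il (!b) p).1
        rw [hIn', hc', h3]
      · rintro ⟨⟨ha, hc⟩, hR, -⟩
        have hcs : D.Su y ∨ c = (D.il (!b) p).2 := by
          rcases hc with h | h | h
          · exact Or.inr h.2
          · exact Or.inl h.1
          · exact absurd h.1 hS'
        obtain ⟨h7, h8⟩ := B3_foot D hh (!b) p hl hv ha.symm hR hcs
        have h9 := B3_both D (!b) p h7 h8 ha.symm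
        rw [Bool.not_not] at h9
        have hSy := (slb_su D hk h7).2 h8
        have hc2 : c = false ↔ D.In (D.il (!b) p).1 := by
          rcases hc with h | h | h
          · exact absurd (h.1.1 hSy) hS'
          · exact h.2.2
          · exact absurd h.1 hS'
        refine ⟨⟨h9.symm, ?_⟩, hR, hRx⟩
        show c = (D.il b p).2
        rw [h3]
        rw [hIn'] at hc2
        cases b <;> cases c <;> simp at hc2 ⊢
    · rw [if_neg hl]
      have hSy : (bG d N).Adj (D.il b p).1 y → ¬ D.RR y → ¬ D.Su y := by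
        intro ha hR hSy
        obtain ⟨-, h8⟩ := B3_su D hk h1 ha hSy hR
        have h9 := (slb_nb D hk h1 ha hR).2
        rw [h8, h2, abs_le] at h9
        cases b <;> simp at h9 <;> omega
      constructor
      · rintro ⟨⟨ha, hc⟩, hR, hR'⟩
        exact ⟨⟨ha, Or.inl ⟨iff_of_false (hSy ha.symm hR) hS, hc⟩⟩, hR, hR'⟩
      · rintro ⟨⟨ha, hc⟩, hR, hR'⟩
        refine ⟨⟨ha, ?_⟩, hR, hR'⟩
        rcases hc with h | h | h
        · exact h.2
        · exact absurd h.1 (hSy ha.symm hR)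
        · exact absurd h.1 hS

end Pool.Agent.LC

end

/-! ### from `Lib_MP_2c424f_lc5.V19a` -/

section

/-!
# Part V, V19a: numbers for the alignment

`l = 2^s`, `C = C₁ + 2 K₂ + 20`, `θ = d^{-(K₂+4)}`, `c = l^d / d^{C₁}`.
`Y ≥ (l+1)^d / h ≥ 3^d / 2^{d/2} ≥ 1` (`h Y ≥ λ ≥ n (l+1)^d`, `h ≤ 2^{d/2}`).
`n l^d ≥ n (l+1)^d / (1 + 1/l)^d ≥ h Y / 4` (`(1+1/l)^d ≤ e^{d/l} ≤ 2`, `1 - 1/d^C ≥ 1/2`).
`2 n log 2 ≤ θ n c / 2` since `l^d ≥ l ≥ d^C ≥ 4 d^{C₁+K₂+4}`; so `2^{2n} e^{-θ n c} ≤ e^{-θ n c/2} ≤ e^{-h Y / (8 d^{C₁+K₂+4})}`, and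
`h ≥ d^{2C}` gives an exponent of at least `d^{10} Y`.
`cK d q (2λ) = 2^{q³ λ / 2^d}` (`sz = 2^d/(2q)`), `q ≤ d`, `λ ≤ h Y ≤ 2^{d/2} Y`: at most `e^{d³ 2^{-d/2} Y} ≤ e^Y`.
`4 (q²/4+1)/θ ≤ 4 d² d^{K₂+4}`.
-/

set_option autoImplicit false

open Finset Filter

namespace Pool.Agent.LC

open Pool.Agent.LO Pool.Agent.LIN Pool.Agent.THR Pool.Agent.COR

theorem num1 (K₂ C₁ : ℕ) : ∃ d₀ : ℕ, ∀ (d q s h n lam : ℕ) (Y : ℝ), d₀ ≤ d →
    NumH (C₁ + 2 * K₂ + 20) d q s h n lam Y →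
    4 * ((q : ℝ) ^ 2 / 4 + 1) * cK d q (2 * lam) *
      (2 ^ (2 * n) * Real.exp (-(1 / (d : ℝ) ^ (K₂ + 4) * n * (((2 : ℝ) ^ s) ^ d / (d : ℝ) ^ C₁)))) /
        (1 / (d : ℝ) ^ (K₂ + 4)) ≤ 1 := by
  refine ⟨8 * (K₂ + 9), fun d q s h n lam Y hd H => ?_⟩
  obtain ⟨⟨-, hq1, hq2⟩, h1, h2, h3, h4, h5, h6, h7⟩ := H
  have hD0 : (8 * ((K₂ : ℝ) + 9)) ≤ d := by exact_mod_cast hd
  have hK0 : (0 : ℝ) ≤ K₂ := Nat.cast_nonneg _
  have hD : (72 : ℝ) ≤ d := by linarith
  have hD1 : (1 : ℝ) ≤ d := by linarith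
  have hDp : (0 : ℝ) < d := by linarith
  have hdpos : 1 ≤ d := by omega
  have hqd : (q : ℝ) ≤ d := by
    have : q ≤ d := by omega
    exact_mod_cast this
  have hq0 : (0 : ℝ) < q := by
    have : 0 < q := by omega
    exact_mod_cast this
  have hn1 : (1 : ℝ) ≤ n := by exact_mod_cast h4
  set L : ℝ := (2 : ℝ) ^ s with hL
  set D : ℝ := (d : ℝ) with hDdef
  have hL1 : 1 ≤ L := one_le_pow₀ (by norm_num)
  have hLp : 0 < L := by linarith
  -- powers of `D`
  have hDC2 : D ^ 2 ≤ D ^ (C₁ + 2 * K₂ + 20) := pow_le_pow_right₀ hD1 (by omega)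
  have hDsq : 72 * D ≤ D ^ 2 := by
    rw [sq]
    exact mul_le_mul_of_nonneg_right hD hDp.le
  have hDC1 : 2 ≤ D ^ (C₁ + 2 * K₂ + 20) := by linarith
  have hDCp : 0 < D ^ (C₁ + 2 * K₂ + 20) := by linarith
  have hDCD : D ^ (C₁ + 2 * K₂ + 20) ≤ D ^ (C₁ + 2 * K₂ + 20) * D ^ (C₁ + 2 * K₂ + 20) :=
    le_mul_of_one_le_right hDCp.le (by linarith)
  have hL2 : 2 * D ≤ L := by linarith
  -- `(L + 1)^d ≤ 2 L^d`
  have hpow : (L + 1) ^ d ≤ 2 * L ^ d := by
    have e1 : (L + 1) ^ d = L ^ d * (1 / L + 1) ^ d := by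
      rw [← mul_pow]
      congr 1
      field_simp
      ring
    have e2 : (1 / L + 1) ^ d ≤ Real.exp (1 / L) ^ d :=
      pow_le_pow_left₀ (by positivity) (Real.add_one_le_exp _) _
    have e3 : Real.exp (1 / L) ^ d = Real.exp (d * (1 / L)) := (Real.exp_nat_mul _ _).symm
    have e4 : (d : ℝ) * (1 / L) ≤ 1 / 2 := by
      rw [mul_one_div, div_le_iff₀ hLp]
      linarith
    have e5 : Real.exp (1 / 2) ≤ 2 := by
      have e6 : Real.exp (1 / 2) * Real.exp (1 / 2) = Real.exp 1 := by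
        rw [← Real.exp_add]
        norm_num
      have e7 := Real.exp_one_lt_d9
      by_contra hcon
      push Not at hcon
      have e8 := mul_lt_mul'' hcon hcon (by norm_num) (by norm_num)
      linarith
    have e8 : (1 / L + 1) ^ d ≤ 2 := by
      rw [e3] at e2
      exact e2.trans ((Real.exp_le_exp.mpr e4).trans e5)
    rw [e1, mul_comm (2 : ℝ)]
    exact mul_le_mul_of_nonneg_left e8 (by positivity)
  -- `Y ≥ h ≥ D^(2C)`
  have hH2 : D ^ (C₁ + 2 * K₂ + 20) * D ^ (C₁ + 2 * K₂ + 20) ≤ h :=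
    (mul_le_mul_of_nonneg_right h1 hDCp.le).trans h2
  have hHD : D ≤ h := by linarith
  have hHp : (0 : ℝ) < h := by linarith
  have hlow : (2 : ℝ) ^ d ≤ n * (L + 1) ^ d := by
    have e1 : (2 : ℝ) ^ d ≤ (L + 1) ^ d := pow_le_pow_left₀ (by norm_num) (by linarith) _
    exact e1.trans (le_mul_of_one_le_left (by positivity) hn1)
  have hYH : (h : ℝ) ≤ Y := by
    have e1 : (h : ℝ) * h ≤ h * Y := by
      calc (h : ℝ) * h = (h : ℝ) ^ 2 := (sq _).symm
        _ ≤ 2 ^ d := h3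
        _ ≤ n * (L + 1) ^ d := hlow
        _ ≤ lam := h7
        _ ≤ h * Y := h5
    exact le_of_mul_le_mul_left e1 hHp
  have hY1 : 1 ≤ Y := by linarith
  -- the exponent
  set P : ℝ := D ^ (K₂ + 4 + C₁) with hP
  have hPp : 0 < P := by positivity
  have hexp : 1 / D ^ (K₂ + 4) * n * (L ^ d / D ^ C₁) = n * L ^ d / P := by
    rw [hP, pow_add D (K₂ + 4) C₁]
    field_simp
  have hnL : h * Y / 4 ≤ n * L ^ d := by
    have e1 : 1 / D ^ (C₁ + 2 * K₂ + 20) ≤ 1 / 2 := one_div_le_one_div_of_le (by norm_num) hDC1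
    have e2 : 0 ≤ h * Y := by positivity
    have e3 : h * Y / 2 ≤ n * (L + 1) ^ d := by
      refine le_trans ?_ h6
      have e5 := mul_le_mul_of_nonneg_left e1 e2
      calc h * Y / 2 = h * Y - h * Y * (1 / 2) := by ring
        _ ≤ h * Y - h * Y * (1 / D ^ (C₁ + 2 * K₂ + 20)) := by linarith
        _ = h * Y * (1 - 1 / D ^ (C₁ + 2 * K₂ + 20)) := by ring
    have e4 : n * (L + 1) ^ d ≤ n * (2 * L ^ d) := mul_le_mul_of_nonneg_left hpow (by positivity)
    linarith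
  have hCsplit : D ^ (C₁ + 2 * K₂ + 20) = P * D ^ (K₂ + 16) := by
    rw [hP, ← pow_add]
    congr 1
    ring
  have hD16 : D ^ 2 ≤ D ^ (K₂ + 16) := pow_le_pow_right₀ hD1 (by omega)
  have hD2 : 4 ≤ D ^ (K₂ + 16) := by linarith
  have hE1 : 4 * n ≤ n * L ^ d / P := by
    rw [le_div_iff₀ hPp]
    have e1 : L ≤ L ^ d := le_self_pow₀ hL1 (by omega)
    have e2 : 4 * P ≤ L ^ d := by
      calc 4 * P = P * 4 := mul_comm _ _
        _ ≤ P * D ^ (K₂ + 16) := mul_le_mul_of_nonneg_left hD2 hPp.le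
        _ = D ^ (C₁ + 2 * K₂ + 20) := hCsplit.symm
        _ ≤ L := h1
        _ ≤ L ^ d := e1
    calc 4 * (n : ℝ) * P = n * (4 * P) := by ring
      _ ≤ n * L ^ d := mul_le_mul_of_nonneg_left e2 (by linarith)
  have hE2 : D ^ 2 * Y / 4 ≤ n * L ^ d / P := by
    rw [le_div_iff₀ hPp]
    refine le_trans ?_ hnL
    have e1 : P * D ^ 2 ≤ h := by
      calc P * D ^ 2 ≤ P * D ^ (K₂ + 16) := mul_le_mul_of_nonneg_left hD16 hPp.le
        _ = D ^ (C₁ + 2 * K₂ + 20) := hCsplit.symm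
        _ ≤ D ^ (C₁ + 2 * K₂ + 20) * D ^ (C₁ + 2 * K₂ + 20) := hDCD
        _ ≤ h := hH2
    have e2 : P * D ^ 2 * Y ≤ h * Y := mul_le_mul_of_nonneg_right e1 (by linarith)
    calc D ^ 2 * Y / 4 * P = P * D ^ 2 * Y / 4 := by ring
      _ ≤ h * Y / 4 := by linarith
  -- the factor `cK`
  have hcK : cK d q (2 * lam) ≤ Real.exp Y := by
    have e1 : (q : ℝ) ^ 2 / 4 * ((2 * lam : ℕ) : ℝ) / sz d q ≤ Y := by
      unfold sz
      have e2 : (q : ℝ) ^ 2 / 4 * ((2 * lam : ℕ) : ℝ) / ((2 : ℝ) ^ d / (2 * q)) =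
          (q : ℝ) ^ 3 * lam / 2 ^ d := by
        push_cast
        field_simp
        ring
      rw [e2, div_le_iff₀ (by positivity)]
      have e3 : (q : ℝ) ^ 3 ≤ D ^ 3 := pow_le_pow_left₀ hq0.le hqd 3
      have e4 : D ^ 3 ≤ h := by
        have e5 : D ^ 3 ≤ D ^ (C₁ + 2 * K₂ + 20) := pow_le_pow_right₀ hD1 (by omega)
        linarith
      have e7 : (0 : ℝ) ≤ lam := Nat.cast_nonneg _
      calc (q : ℝ) ^ 3 * lam ≤ h * (h * Y) :=
            mul_le_mul (e3.trans e4) h5 e7 hHp.le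
        _ = Y * (h : ℝ) ^ 2 := by ring
        _ ≤ Y * 2 ^ d := mul_le_mul_of_nonneg_left h3 (by linarith)
    have e8 : cK d q (2 * lam) ≤ (2 : ℝ) ^ Y :=
      Real.rpow_le_rpow_of_exponent_le (by norm_num) e1
    refine e8.trans ?_
    rw [Real.rpow_def_of_pos (by norm_num)]
    refine Real.exp_le_exp.mpr ?_
    have e9 := Real.log_two_lt_d9
    calc Real.log 2 * Y ≤ 1 * Y := mul_le_mul_of_nonneg_right (by linarith) (by linarith)
      _ = Y := one_mul _
  have h2n : (2 : ℝ) ^ (2 * n) ≤ Real.exp (n * L ^ d / P / 2) := by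
    have e1 : (2 : ℝ) ≤ Real.exp 1 := by
      have := Real.add_one_le_exp (1 : ℝ)
      linarith
    calc (2 : ℝ) ^ (2 * n) ≤ Real.exp 1 ^ (2 * n) := pow_le_pow_left₀ (by norm_num) e1 _
      _ = Real.exp (2 * n) := by
        rw [← Real.exp_nat_mul]
        congr 1
        push_cast
        ring
      _ ≤ _ := Real.exp_le_exp.mpr (by linarith)
  have hfirst : 4 * ((q : ℝ) ^ 2 / 4 + 1) ≤ Real.exp 3 * Real.exp D ^ 2 := by
    have e1 : (4 : ℝ) ≤ Real.exp 3 := by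
      have := Real.add_one_le_exp (3 : ℝ)
      linarith
    have e2 : D ≤ Real.exp D := by
      have := Real.add_one_le_exp D
      linarith
    have e3 : (q : ℝ) ^ 2 / 4 + 1 ≤ D ^ 2 := by
      have e5 : (q : ℝ) ^ 2 ≤ D ^ 2 := pow_le_pow_left₀ hq0.le hqd 2
      linarith
    have e4 : D ^ 2 ≤ Real.exp D ^ 2 := pow_le_pow_left₀ hDp.le e2 2
    exact mul_le_mul e1 (e3.trans e4) (by positivity) (by positivity)
  have hlast : D ^ (K₂ + 4) ≤ Real.exp D ^ (K₂ + 4) := by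
    have e2 : D ≤ Real.exp D := by
      have := Real.add_one_le_exp D
      linarith
    exact pow_le_pow_left₀ hDp.le e2 _
  have hcK0 : 0 ≤ cK d q (2 * lam) := by unfold cK; positivity
  rw [hexp, div_div_eq_mul_div, div_one]
  calc 4 * ((q : ℝ) ^ 2 / 4 + 1) * cK d q (2 * lam) *
        (2 ^ (2 * n) * Real.exp (-(n * L ^ d / P))) * D ^ (K₂ + 4)
      ≤ Real.exp 3 * Real.exp D ^ 2 * Real.exp Y *
        (Real.exp (n * L ^ d / P / 2) * Real.exp (-(n * L ^ d / P))) * Real.exp D ^ (K₂ + 4) := by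
        gcongr
    _ = Real.exp (3 + 2 * D + Y + (n * L ^ d / P / 2 + -(n * L ^ d / P)) + (K₂ + 4) * D) := by
        rw [Real.exp_add, Real.exp_add, Real.exp_add, Real.exp_add, Real.exp_add]
        congr 1
        · congr 2
          congr 1
          rw [← Real.exp_nat_mul]
          norm_num
        · rw [← Real.exp_nat_mul]
          congr 1
          push_cast
          ring
    _ ≤ Real.exp 0 := by
        refine Real.exp_le_exp.mpr ?_
        have e1 : D ^ 2 * Y / 8 ≤ n * L ^ d / P / 2 := by linarith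
        have e2 : (K₂ + 9) * D * Y ≤ D ^ 2 * Y / 8 := by
          have : (K₂ + 9) * D ≤ D ^ 2 / 8 := by
            have e6 := mul_le_mul_of_nonneg_right hD0 hDp.le
            rw [← sq] at e6
            linarith
          have := mul_le_mul_of_nonneg_right this (by linarith : (0 : ℝ) ≤ Y)
          linarith
        have e3 : (K₂ + 6) * D ≤ (K₂ + 6) * D * Y := by
          exact le_mul_of_one_le_right (by positivity) hY1
        have e4 : 3 + Y ≤ 3 * D * Y := by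
          have e6 : 216 * Y ≤ 3 * D * Y := mul_le_mul_of_nonneg_right (by linarith) (by linarith)
          linarith
        have e5 : (K₂ + 9) * D * Y = (K₂ + 6) * D * Y + 3 * D * Y := by ring
        linarith
    _ = 1 := Real.exp_zero

end Pool.Agent.LC

end
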