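import Pool.Agent.Lib_MP_2c424f_m.M26
import Pool.Agent.Lib_MP_2c424f_m.M28
import Pool.Agent.Lib_MP_2c424f_m.M33

/-!
# MP_2c424f_pr, q_c grows linearly: merged library part M38

Concatenation of smaller files (each in its own section), only to save build time.
-/

namespace Pool.Agent.LO
end Pool.Agent.LO

namespace Pool.Agent.LIN
end Pool.Agent.LIN

namespace Pool.Agent.THR
end Pool.Agent.THR

namespace Pool.Agent.COR
end Pool.Agent.COR

/-! ### from `Lib_MP_2c424f_lc1.E2b` -/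

section

/-!
# LC1 E2b: the hypotheses of the gap argument

`gapH_of`: with `δ = η/10^5`, `s = t + r`, `r ≤ J + 2`:  `PP^[s] (gg c f) v = PP^[r] (PP^[t] (gg c f)) v` is `gs A v s c` up to `2δ + q/d² + r (C₄/q + q/d²) ≤ 3δ` for `d` large (`q ≤ 2d/1000`; `gs A v (t+r) = gs A v r` as `t` is even).
`GapH.y`: `GE.y`.  `GapH.h`: `PP^[s] (hh c f) = a PP^[s+1] (gg c f)` (`hh = a PP gg`: THR `hh_eq` or so), `a ≤ 2000`, `gs A v (s+1) c = 2 - gs A v s c`.  `GapH.e`: `8/d ≤ η`.
-/

set_option autoImplicit false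

open Finset Filter

namespace Pool.Agent.LC

open Pool.Agent.LO Pool.Agent.LIN Pool.Agent.THR Pool.Agent.COR

variable {d k q : ℕ}

private theorem E2b_gs_succ (A : Finset (Fin q)) (v : Site d k) (s : ℕ) (c : Fin q) :
    gs A v (s + 1) c = 2 - gs A v s c := by
  unfold gs
  by_cases h : Even s
  · have h' : ¬ Even (s + 1) := by
      rw [Nat.even_add_one]
      exact fun h1 => h1 h
    rw [if_neg h', if_pos h]
  · have h' : Even (s + 1) := by
      rw [Nat.even_add_one]
      exact h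
    rw [if_pos h', if_neg h]
    ring

private theorem E2b_gs_add (A : Finset (Fin q)) (v : Site d k) {t : ℕ} (ht : Even t) (r : ℕ) (c : Fin q) :
    gs A v (t + r) c = gs A v r c := by
  unfold gs
  have h : Even (t + r) ↔ Even r := by
    rw [Nat.even_add]
    exact ⟨fun h => h.1 ht, fun h => ⟨fun _ => h, fun _ => ht⟩⟩
  by_cases h1 : Even r
  · rw [if_pos h1, if_pos (h.2 h1)]
  · rw [if_neg h1, if_neg fun h2 => h1 (h.1 h2)]

private theorem E2b_num (η C₄ : ℝ) (hη : 0 < η) (hC : 0 ≤ C₄) (J : ℕ) : ∃ d₀ : ℕ, ∀ d : ℕ, d₀ ≤ d → ∀ q : ℕ,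
    Rg d q → 1 ≤ d ∧ 1 ≤ q ∧ 8 / (d : ℝ) ≤ η ∧ (q : ℝ) * (1 / (d : ℝ) ^ 2) + (J + 2) * (C₄ / q + q * (1 / (d : ℝ) ^ 2)) ≤
      η / 10 ^ 5 := by
  obtain ⟨n, hn⟩ := exists_nat_gt ((8 / η) + (1 + (J + 2) * (1000 * C₄ + 1)) / (η / 10 ^ 5))
  refine ⟨n + 1, fun d hd q hR => ?_⟩
  obtain ⟨-, hR1, hR2⟩ := hR
  have hd1 : 1 ≤ d := by omega
  have hq1 : 1 ≤ q := by omega
  have hdn : (n : ℝ) ≤ d := by
    have : n ≤ d := by omega
    exact_mod_cast this
  have hd0 : (0 : ℝ) < d := by exact_mod_cast hd1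
  have hq0 : (0 : ℝ) < q := by exact_mod_cast hq1
  have h8 : 0 < 8 / η := by positivity
  have hδ : 0 < η / 10 ^ 5 := by positivity
  have hB0 : 0 ≤ 1 + ((J : ℝ) + 2) * (1000 * C₄ + 1) := by positivity
  have hB : 0 ≤ (1 + ((J : ℝ) + 2) * (1000 * C₄ + 1)) / (η / 10 ^ 5) := by positivity
  have h1 : 8 / η ≤ d := by linarith
  have h2 : (1 + ((J : ℝ) + 2) * (1000 * C₄ + 1)) / (η / 10 ^ 5) ≤ d := by linarith
  refine ⟨hd1, hq1, ?_, ?_⟩
  · rw [div_le_iff₀ hη] at h1
    rw [div_le_iff₀ hd0]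
    linarith
  · have hqd : (q : ℝ) ≤ d := by
      have : q ≤ d := by omega
      exact_mod_cast this
    have hdq : (d : ℝ) ≤ 1000 * q := by
      have : d ≤ 1000 * q := by omega
      exact_mod_cast this
    have e1 : (q : ℝ) * (1 / (d : ℝ) ^ 2) ≤ 1 / d := by
      rw [mul_one_div, div_le_div_iff₀ (by positivity) hd0]
      nlinarith
    have e2 : C₄ / q ≤ 1000 * C₄ / d := by
      rw [div_le_div_iff₀ hq0 hd0]
      nlinarith
    have e3 : (q : ℝ) * (1 / (d : ℝ) ^ 2) + ((J : ℝ) + 2) * (C₄ / q + q * (1 / (d : ℝ) ^ 2)) ≤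
        1 / d + ((J : ℝ) + 2) * (1000 * C₄ / d + 1 / d) := by
      have : (0 : ℝ) ≤ (J : ℝ) + 2 := by positivity
      have := mul_le_mul_of_nonneg_left (add_le_add e2 e1) this
      linarith
    refine e3.trans ?_
    have e4 : 1 / (d : ℝ) + ((J : ℝ) + 2) * (1000 * C₄ / d + 1 / d) =
        (1 + ((J : ℝ) + 2) * (1000 * C₄ + 1)) / d := by
      field_simp
    rw [e4, div_le_iff₀ hd0]
    rw [div_le_iff₀ hδ] at h2
    linarith

theorem gapH_of (η C₄ : ℝ) (hη : 0 < η) (hC : 0 ≤ C₄) (t J : ℕ) (ht : Even t) : ∃ d₀ : ℕ, ∀ d : ℕ, d₀ ≤ d → ∀ k q : ℕ, Rg d q →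
    ∀ f : Site d k → Fin q, Prp f → ∀ (A : Finset (Fin q)) (v : Site d k), GE η (η / 10 ^ 5) C₄ t (t + J + 3) f v →
    Pn (η / 10 ^ 5) t A f v → (∀ σ : Stp d, Pn (η / 10 ^ 5) t A f (v + sv σ)) →
    ∀ s, t ≤ s → s ≤ t + J + 1 → GapH η A f v s := by
  obtain ⟨d₀, hd₀⟩ := E2b_num η C₄ hη hC J
  refine ⟨d₀, fun d hd k q hR f hf A v hGE hP hPs s hts hsJ => ?_⟩
  obtain ⟨hd1, hq1, h8, hnum⟩ := hd₀ d hd q hR
  have hd0 : (0 : ℝ) < d := by exact_mod_cast hd1
  have hq0 : (0 : ℝ) < q := by exact_mod_cast hq1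
  have hδ : 0 < η / 10 ^ 5 := by positivity
  -- the main estimate
  have key : ∀ s, t ≤ s → s ≤ t + J + 2 → ∀ c, |PP^[s] (gg c f) v - gs A v s c| ≤ 3 * (η / 10 ^ 5) := by
    intro s hts hs c
    obtain ⟨r, rfl⟩ := Nat.exists_eq_add_of_le hts
    have hr : r ≤ J + 2 := by omega
    have a1 := avg_bq hd1 hR hf A v t r (η / 10 ^ 5) C₄ (1 / (d : ℝ) ^ 2) hδ.le hC (by positivity) hP hPs
      (fun s hs => hGE.g s (by omega)) c
    have a2 := avg_gg hd1 hR hf v t r (η / 10 ^ 5) (1 / (d : ℝ) ^ 2) hδ.le (hGE.m r (by omega)) c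
    have a3 : PP^[t + r] (gg c f) v = PP^[r] (PP^[t] (gg c f)) v := by
      rw [Nat.add_comm, Function.iterate_add_apply]
    rw [a3, E2b_gs_add A v ht r c]
    have a4 : (r : ℝ) * (C₄ / q + q * (1 / (d : ℝ) ^ 2)) ≤ (J + 2) * (C₄ / q + q * (1 / (d : ℝ) ^ 2)) := by
      refine mul_le_mul_of_nonneg_right ?_ (by positivity)
      have : r ≤ J + 2 := hr
      exact_mod_cast this
    have a5 : |PP^[r] (PP^[t] (gg c f)) v - gs A v r c| ≤
        |PP^[r] (PP^[t] (bq c f)) v - PP^[r] (PP^[t] (gg c f)) v| + |PP^[r] (PP^[t] (bq c f)) v - gs A v r c| := by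
      rw [abs_sub_comm (PP^[r] (PP^[t] (bq c f)) v) (PP^[r] (PP^[t] (gg c f)) v)]
      exact abs_sub_le _ _ _
    linarith
  refine ⟨fun c => ?_, fun c => ?_, ?_⟩
  · have b1 := key s hts (by omega) c
    have b2 := hGE.y s hts (by omega) c
    have b3 : |PP^[s] (ya c f) v - gs A v s c| ≤
        |PP^[s] (gg c f) v - PP^[s] (ya c f) v| + |PP^[s] (gg c f) v - gs A v s c| := by
      rw [abs_sub_comm (PP^[s] (gg c f) v) (PP^[s] (ya c f) v)]
      exact abs_sub_le _ _ _
    have b4 : 4 * (η / 10 ^ 5) ≤ η := by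
      rw [mul_div_assoc', div_le_iff₀ (by positivity)]
      nlinarith
    linarith
  · have b1 := key (s + 1) (by omega) (by omega) c
    have b2 : PP^[s] (hh c f) v = ra d q * PP^[s + 1] (gg c f) v := by
      have : hh c f = fun y : Site d k => ra d q * PP (gg c f) y := by
        funext y
        exact hh_eq hd1 hq1 c f y
      rw [this, PPt_mul, Function.iterate_succ_apply]
    rw [b2, ← E2b_gs_succ A v s c, ← mul_sub, abs_mul]
    have b3 : |ra d q| ≤ 2000 := by
      have h0 : 0 ≤ ra d q := by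
        unfold ra
        positivity
      rw [abs_of_nonneg h0]
      unfold ra
      rw [div_le_iff₀ hq0]
      have := hR.2.2
      exact_mod_cast this
    calc |ra d q| * |PP^[s + 1] (gg c f) v - gs A v (s + 1) c| ≤ 2000 * (3 * (η / 10 ^ 5)) :=
          mul_le_mul b3 b1 (abs_nonneg _) (by norm_num)
      _ ≤ η := by
          have : 2000 * (3 * (η / 10 ^ 5)) = 6 / 100 * η := by ring
          rw [this]
          linarith
  · have b1 := hGE.x s (by omega)
    calc 8 * (d : ℝ) ^ 2 * PP^[s] (fun u => ind (Xs η f u)) v ≤ 8 * (d : ℝ) ^ 2 * (1 / (d : ℝ) ^ 3) :=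
          mul_le_mul_of_nonneg_left b1 (by positivity)
      _ = 8 / d := by
          field_simp
      _ ≤ η := h8

end Pool.Agent.LC

end

/-! ### from `Lib_MP_2c424f_lc1.E3` -/

section

/-!
# LC1 E3: pinned sites are typical

Choose `η ≤ 1/1000` with `exp (2200 (t+2)) (√(exp 7000 η) + η) ≤ θ/4` and `5000 η ≤ θ/4`, `J` with `(1/3)^J ≤ η`, `δ = η/10^5`.  `GE_SRK` with `S = t + J + 3`; `SRK.mono`.
At a site `v` with `GE` and `Pn` at `v` and all `v + σ`: `gapH_of`, `gap_iter` (`s = t + 1`), `A_card`, `growth` with `ζ = exp 7000 η` (`h2` from `GE.x`: `8 d/d³ ≤ η`), `al_near`, `GE.a`: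
`TS θ A f v`.
-/

set_option autoImplicit false

open Finset Filter

namespace Pool.Agent.LC

open Pool.Agent.LO Pool.Agent.LIN Pool.Agent.THR Pool.Agent.COR

private theorem E3_par (t : ℕ) (θ : ℝ) (hθ : 0 < θ) : ∃ η : ℝ, 0 < η ∧ η ≤ 1 / 1000 ∧ 5000 * η ≤ θ / 4 ∧
    Real.exp (2200 * (t + 2)) * (Real.sqrt (Real.exp 7000 * η) + η) ≤ θ / 4 := by
  set E := Real.exp (2200 * ((t : ℝ) + 2)) with hE
  have hE0 : 0 < E := Real.exp_pos _
  have h7 := Real.exp_pos 7000
  refine ⟨min (min (1 / 1000) (θ / 20000)) (min (θ / (8 * E)) ((θ / (8 * E)) ^ 2 / Real.exp 7000)),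
    lt_min (lt_min (by norm_num) (by positivity)) (lt_min (by positivity) (by positivity)),
    (min_le_left _ _).trans (min_le_left _ _), ?_, ?_⟩
  · have h1 : min (min (1 / 1000) (θ / 20000)) (min (θ / (8 * E)) ((θ / (8 * E)) ^ 2 / Real.exp 7000)) ≤ θ / 20000 :=
      (min_le_left _ _).trans (min_le_right _ _)
    linarith
  · set η := min (min (1 / 1000) (θ / 20000)) (min (θ / (8 * E)) ((θ / (8 * E)) ^ 2 / Real.exp 7000)) with hη
    have h1 : η ≤ θ / (8 * E) := (min_le_right _ _).trans (min_le_left _ _)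
    have h2 : η ≤ (θ / (8 * E)) ^ 2 / Real.exp 7000 := (min_le_right _ _).trans (min_le_right _ _)
    have h3 : Real.exp 7000 * η ≤ (θ / (8 * E)) ^ 2 := by
      rw [le_div_iff₀ h7] at h2
      linarith
    have h4 : Real.sqrt (Real.exp 7000 * η) ≤ θ / (8 * E) := by
      rw [← Real.sqrt_sq (by positivity : 0 ≤ θ / (8 * E))]
      exact Real.sqrt_le_sqrt h3
    calc E * (Real.sqrt (Real.exp 7000 * η) + η) ≤ E * (θ / (8 * E) + θ / (8 * E)) :=
          mul_le_mul_of_nonneg_left (add_le_add h4 h1) hE0.le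
      _ = θ / 4 := by
          field_simp
          ring

theorem typ_site (C₄ : ℝ) (hC : 0 ≤ C₄) (K t : ℕ) (ht : Even t) (ht' : 20 ≤ t) (h : SRK (K + 6) fun _ _ _ f v => Gb C₄ t f v)
    (θ : ℝ) (hθ : 0 < θ) : ∃ δ : ℝ, 0 < δ ∧ SRK K fun d _ _ f v =>
      ∃ A, Pn δ t A f v ∧ (∀ σ : Stp d, Pn δ t A f (v + sv σ)) ∧ ¬ TS θ A f v := by
  have hε : 0 < e3 := by unfold e3; norm_num
  have hε1 : e3 ≤ 1 := by unfold e3; norm_num
  obtain ⟨η, hη, hη1, hη2, hη3⟩ := E3_par t θ hθ
  obtain ⟨J, hJ⟩ : ∃ J : ℕ, (1 / 3 : ℝ) ^ J ≤ η := by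
    obtain ⟨J, hJ⟩ := exists_pow_lt_of_lt_one hη (by norm_num : (1 / 3 : ℝ) < 1)
    exact ⟨J, hJ.le⟩
  have hδ : 0 < η / 10 ^ 5 := by positivity
  have hδη : η / 10 ^ 5 ≤ η := by
    rw [div_le_iff₀ (by norm_num)]
    nlinarith
  obtain ⟨d₀, hd₀⟩ := gapH_of η C₄ hη hC t J ht
  refine ⟨η / 10 ^ 5, hδ, (GE_SRK C₄ K t ht ht' h η (η / 10 ^ 5) hη hδ (t + J + 3)).mono ?_⟩
  refine ((EvT_d (eventually_ge_atTop (max d₀ 2000))).and (EvT_reg hε hε1 (max (1 / η) (8 / η)))).mono ?_
  rintro d k q ⟨hd, hMd, hMq, -⟩ hR f hf v ⟨A, hA1, hA2, hA3⟩ hGE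
  refine hA3 ?_
  have hd1 : d₀ ≤ d := (le_max_left _ _).trans hd
  have hd2 : 2000 ≤ d := (le_max_right _ _).trans hd
  have hd3 : 1 ≤ d := by omega
  have hf' : Prp f := by simpa [prps] using hf
  have hq : 1 / η ≤ q := (le_max_left _ _).trans hMq
  have h8 : 8 / η ≤ d := (le_max_right _ _).trans hMd
  have hcard : |(A.card : ℝ) / q - 1 / 2| ≤ η := (A_card hd3 hR hf' A v t _ hA1).trans hδη
  have hgap := hd₀ d hd1 k q hR f hf' A v hGE hA1 hA2
  have hit : ∀ c : Fin q, PP^[t + 1] (fun u => (ya c f u - gs A v (t + 1) c) ^ 2) v ≤ Real.exp 7000 * η := fun c =>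
    gap_iter hd3 hR hf' A v t J η hη hη1 hq hJ hgap (t + 1) (Or.inr rfl) c
  have hx : ∀ j ≤ t, 8 * (d : ℝ) * PP^[j] (fun u => ind (Xs η f u)) v ≤ η := by
    intro j hj
    have h1 := hGE.x j (by omega)
    have hdr : (1 : ℝ) ≤ d := by exact_mod_cast hd3
    have hd0 : (0 : ℝ) < d := by linarith
    have h2 : 8 * (d : ℝ) * PP^[j] (fun u => ind (Xs η f u)) v ≤ 8 * (d : ℝ) * (1 / (d : ℝ) ^ 3) :=
      mul_le_mul_of_nonneg_left h1 (by positivity)
    refine h2.trans ?_
    have h3 : 8 * (d : ℝ) * (1 / (d : ℝ) ^ 3) = 8 / (d : ℝ) / d := by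
      field_simp
    have h4 : 8 / (d : ℝ) ≤ η := by
      rw [div_le_iff₀ hd0]
      rw [div_le_iff₀ hη] at h8
      linarith
    rw [h3]
    refine (div_le_self (by positivity) hdr).trans h4
  have hgr : ∀ c, |hc c f v - hs A v c| ≤ θ / 4 := fun c =>
    (growth hd2 hR hf' A v t η (Real.exp 7000 * η) hη hη1 (by positivity) hq hcard hit hx c).trans hη3
  have hal := al_near hd3 hR hf' A v η (θ / 4) hη hq hcard hgr
  refine ⟨fun c => (hgr c).trans (by linarith), ?_⟩
  have ha := hGE.a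
  have h1 := abs_sub_le ((av f v : ℝ) / q) (al f v) (als (ra d q) (ms d q))
  linarith

end Pool.Agent.LC

end

/-! ### from `Lib_MP_2c424f_lc6.C05` -/

section

/-!
# LC6 C05: the two-sheeted graph and pairs of colourings

A colouring `F` of `W × Bool`: `f = F (·, false)`, `g x = F (x, true)` if `¬ gl x`, `g x = F (x, false)` if `gl x`.  `F` is proper for
`D2 B gl` iff `f` and `g` are proper for `B` (the edges inside the sheet `false` give `f`; the edges between the points of the sheet `true` and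
the glued points give `g`; edges between two glued points are in both).  The values at `(x, true)`, `gl x`, are free: factor `q^#gl`.
-/

set_option autoImplicit false

open Finset Matrix

namespace Pool.Agent.LC

open Pool.Agent.LO Pool.Agent.LIN Pool.Agent.THR Pool.Agent.COR

open scoped Classical in
private theorem C05_proper {W : Type} {q : ℕ} (B : SimpleGraph W) (gl : W → Prop) (F : W × Bool → Fin q) :
    PrG (D2 B gl) F ↔ PrG B (fun x => F (x, false)) ∧ PrG B (fun x => if gl x then F (x, false) else F (x, true)) := by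
  constructor
  · intro h
    refine ⟨fun x y hxy => ?_, fun x y hxy => ?_⟩
    · exact h (x, false) (y, false) ⟨hxy, by simp, by simp, Or.inl rfl⟩
    · dsimp only
      by_cases hx : gl x
      · by_cases hy : gl y
        · rw [if_pos hx, if_pos hy]
          exact h (x, false) (y, false) ⟨hxy, by simp, by simp, Or.inl rfl⟩
        · rw [if_pos hx, if_neg hy]
          exact h (x, false) (y, true) ⟨hxy, by simp, by simp [hy], Or.inr (Or.inl hx)⟩
      · by_cases hy : gl y
        · rw [if_neg hx, if_pos hy]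
          exact h (x, true) (y, false) ⟨hxy, by simp [hx], by simp, Or.inr (Or.inr hy)⟩
        · rw [if_neg hx, if_neg hy]
          exact h (x, true) (y, true) ⟨hxy, by simp [hx], by simp [hy], Or.inl rfl⟩
  · rintro ⟨h1, h2⟩ ⟨x, b⟩ ⟨y, c⟩ ⟨h3, h4, h5, h6⟩
    simp only at h3 h4 h5 h6
    have h7 := h1 x y h3
    have h8 := h2 x y h3
    dsimp only at h7 h8
    cases b <;> cases c
    · exact h7
    · have hy : ¬ gl y := fun h => h5 ⟨rfl, h⟩
      have hx : gl x := by
        rcases h6 with h6 | h6 | h6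
        · exact absurd h6 (by simp)
        · exact h6
        · exact absurd h6 hy
      rw [if_pos hx, if_neg hy] at h8
      exact h8
    · have hx : ¬ gl x := fun h => h4 ⟨rfl, h⟩
      have hy : gl y := by
        rcases h6 with h6 | h6 | h6
        · exact absurd h6 (by simp)
        · exact absurd h6 hx
        · exact h6
      rw [if_neg hx, if_pos hy] at h8
      exact h8
    · have hx : ¬ gl x := fun h => h4 ⟨rfl, h⟩
      have hy : ¬ gl y := fun h => h5 ⟨rfl, h⟩
      rw [if_neg hx, if_neg hy] at h8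
      exact h8

open scoped Classical in
theorem cG_D2 {W : Type} [Fintype W] [DecidableEq W] {q : ℕ} (B : SimpleGraph W) (gl : W → Prop) (P : (W → Fin q) → Prop) :
    cG (D2 B gl) (fun F : W × Bool → Fin q => P fun x => F (x, false)) =
      (q : ℝ) ^ (univ.filter fun x : W => gl x).card * N2 B gl P := by
  have hk : (univ : Finset ({x : W // gl x} → Fin q)).card = q ^ (univ.filter fun x : W => gl x).card := by
    rw [Finset.card_univ, Fintype.card_fun, Fintype.card_fin, Fintype.card_subtype]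
  unfold cG N2
  rw [← Nat.cast_pow, ← hk, ← Nat.cast_mul, ← Finset.card_product, Nat.cast_inj]
  refine Finset.card_bij' (fun F _ => ((fun x : {x : W // gl x} => F (x.1, true)),
      ((fun x => F (x, false)), fun x => if gl x then F (x, false) else F (x, true))))
    (fun z _ => fun p => if p.2 = true then (if h : gl p.1 then z.1 ⟨p.1, h⟩ else z.2.2 p.1) else z.2.1 p.1) ?_ ?_ ?_ ?_
  · intro F hF
    simp only [Finset.mem_filter, Finset.mem_univ, true_and] at hF
    simp only [Finset.mem_product, Finset.mem_filter, Finset.mem_univ, true_and]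
    have h1 := (C05_proper B gl F).1 hF.1
    exact ⟨h1.1, h1.2, fun x hx => by rw [if_pos hx], hF.2⟩
  · intro z hz
    simp only [Finset.mem_product, Finset.mem_filter, Finset.mem_univ, true_and] at hz
    simp only [Finset.mem_filter, Finset.mem_univ, true_and]
    obtain ⟨h1, h2, h3, h4⟩ := hz
    refine ⟨(C05_proper B gl _).2 ⟨?_, ?_⟩, ?_⟩
    · simpa using h1
    · have e : (fun x => if gl x then z.2.1 x else z.2.2 x) = z.2.2 := by
        funext x
        by_cases hx : gl x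
        · rw [if_pos hx, h3 x hx]
        · rw [if_neg hx]
      have e2 : (fun x => if gl x then (if (false : Bool) = true then (if h : gl x then z.1 ⟨x, h⟩ else z.2.2 x) else z.2.1 x)
          else (if (true : Bool) = true then (if h : gl x then z.1 ⟨x, h⟩ else z.2.2 x) else z.2.1 x)) = z.2.2 := by
        rw [← e]
        funext x
        by_cases hx : gl x
        · simp [hx]
        · simp [hx]
      rw [e2]
      exact h2
    · simpa using h4
  · intro F _
    funext p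
    obtain ⟨x, b⟩ := p
    cases b
    · simp
    · by_cases hx : gl x
      · simp [hx]
      · simp [hx]
  · intro z hz
    simp only [Finset.mem_product, Finset.mem_filter, Finset.mem_univ, true_and] at hz
    obtain ⟨h1, h2, h3, h4⟩ := hz
    refine Prod.ext ?_ (Prod.ext ?_ ?_)
    · funext x
      simp [x.2]
    · funext x
      simp
    · funext x
      by_cases hx : gl x
      · simp [hx, h3 x hx]
      · simp [hx]

end Pool.Agent.LC

end
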