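import Pool.Agent.Lib_MP_2c424f_m.M25
import Pool.Agent.Lib_MP_2c424f_m.M33

/-!
# MP_2c424f_pr, q_c grows linearly: merged library part M39

Concatenation of smaller files (each in its own section), only to save build time.
-/

namespace Pool.Agent.LO
end Pool.Agent.LO

namespace Pool.Agent.LIN
end Pool.Agent.LIN

namespace Pool.Agent.THR
end Pool.Agent.THR

namespace Pool.Agent.COR
end Pool.Agent.COR

/-! ### from `Lib_MP_2c424f_lc1.B3` -/

section

/-!
# LC1 B3: block means do not change under `t`-step averages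

Torus of side `2^(k+1)`, `N' = NN d (k+1) = 2^d N_b`, `N_b = NN d k` blocks.  `e` a parity, `m_u(x) := #{p ∈ pS e none : pt u p = x} / #(pS e none)` the law of the point of the block `u`,
`∑_u m_u(x) = 2/2^d` on the class of parity `e` and `0` on the other class (`LO.sum_pt`).  For `ω : Blk d k → {-1,0,1}` put `W^ω x := 2^(d-1) ∑_u ω_u m_u(x)`, so `|W^ω| ≤ 1`, and
`w := PP^[2j] W^ω`, `2j < t`, `|w| ≤ 1`.  THR `iso` (at the level `K' = K + 5`) for the weights `x ↦ w (x + sv σ)` and the steps `opp τ`, `σ`; number of weights: `≤ 3^(N_b) t 2d`, and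
`log 3 * N_b = log 3 * N'/2^d` is far below `N'/d^(C+1)` (`Rar_union`).  With the class `b` = class opposite to `e`:
  `∑_x (PP^[2j+2] W - PP^[2j] W)(x) s(x) = mean_{σ,τ} ∑_x w(x + σ + τ) s(x) - w(x) s(x) = mean_{σ,τ} ∑_y w(y + σ) [s(y - τ) - s(y + σ)]`  (`y = x + τ`, resp. `y = x - σ`),
so `|∑_u ω_u (Mp e none u (PP^[t] s) - Mp e none u s)| 2^(d-1) = |∑_x (PP^[t] W - W) s| ≤ (t/2) (C₄/q² 2^(d-1) ∑|ω| + N'/d^K')`, `s = sg c c' f` (`PPt_adj`).
With `ω = ± 1[|Mp e none u (PP^[t] s) - Mp e none u s| > t C₄/q²]`: at most `q² N_b 4/(C₄ d^K')` blocks.  Sum over `c'` as in B2; union over `c, c', e`.  `t C₄/q ≤ δ` for `d` large.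
-/

set_option autoImplicit false

open Finset Filter

namespace Pool.Agent.LC

open Pool.Agent.LO Pool.Agent.LIN Pool.Agent.THR Pool.Agent.COR

/-! ### the weights -/

private noncomputable def B3_W {d k : ℕ} (e : Bool) (ω : Blk d k → ℝ) (x : Site d (k + 1)) : ℝ :=
  (∑ u : Blk d k, ω u * ∑ p ∈ (pS e none : Finset (Bt d × Bt d)), if pt u p.1 p.2 = x then (1 : ℝ) else 0) / 2 ^ d

private theorem B3_count {d k : ℕ} (e : Bool) (x : Site d (k + 1)) :
    ∑ u : Blk d k, ∑ p ∈ (pS e none : Finset (Bt d × Bt d)), (if pt u p.1 p.2 = x then (1 : ℝ) else 0) ≤ 2 ^ d := by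
  have h := sum_pt (d := d) (k := k) (fun y _ => if y = x then (1 : ℝ) else 0)
  have h2 : ∑ y : Site d (k + 1), ∑ _b : Bt d, (if y = x then (1 : ℝ) else 0) = 2 ^ d := by
    rw [sum_comm]
    simp only [sum_ite_eq', mem_univ, if_true, sum_const, card_univ, Fintype.card_fun, Fintype.card_bool,
      Fintype.card_fin, nsmul_eq_mul, mul_one]
    push_cast
    rfl
  rw [← h2, ← h]
  refine sum_le_sum fun u _ => ?_
  rw [← Finset.sum_product', Finset.univ_product_univ]
  refine sum_le_sum_of_subset_of_nonneg (subset_univ _) fun p _ _ => ?_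
  split_ifs
  · exact zero_le_one
  · exact le_refl 0

private theorem B3_le {d k : ℕ} (e : Bool) (ω : Blk d k → ℝ) (hω : ∀ u, |ω u| ≤ 1) (x : Site d (k + 1)) :
    |B3_W e ω x| ≤ 1 := by
  unfold B3_W
  have hp : (0 : ℝ) < 2 ^ d := by positivity
  rw [abs_div, abs_of_pos hp, div_le_one hp]
  refine (abs_sum_le_sum_abs _ _).trans ((sum_le_sum fun u _ => ?_).trans (B3_count e x))
  have h0 : (0 : ℝ) ≤ ∑ p ∈ (pS e none : Finset (Bt d × Bt d)), (if pt u p.1 p.2 = x then (1 : ℝ) else 0) :=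
    sum_nonneg fun p _ => by
      split_ifs
      · exact zero_le_one
      · exact le_refl 0
  rw [abs_mul, abs_of_nonneg h0]
  exact mul_le_of_le_one_left h0 (hω u)

private theorem B3_card {d : ℕ} (hd : 2 ≤ d) (e : Bool) :
    ((pS e none : Finset (Bt d × Bt d)).card : ℝ) = (4 : ℝ) ^ d / 2 := by
  rw [pS_card hd, if_pos rfl]

private theorem B3_four (d : ℕ) : (4 : ℝ) ^ d = 2 ^ d * 2 ^ d := by
  rw [← mul_pow]
  norm_num

private theorem B3_sum {d k : ℕ} (hd : 2 ≤ d) (e : Bool) (ω : Blk d k → ℝ) (φ : Site d (k + 1) → ℝ) :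
    ∑ x, B3_W e ω x * φ x = 2 ^ d / 2 * ∑ u, ω u * Mp e none u φ := by
  have hp : (2 : ℝ) ^ d ≠ 0 := by positivity
  have e1 : ∀ x, B3_W e ω x * φ x =
      ∑ u : Blk d k, ∑ p ∈ (pS e none : Finset (Bt d × Bt d)),
        (if pt u p.1 p.2 = x then ω u * φ x / 2 ^ d else 0) := by
    intro x
    unfold B3_W
    rw [div_mul_eq_mul_div, sum_mul, sum_div]
    refine sum_congr rfl fun u _ => ?_
    rw [mul_sum, sum_mul, sum_div]
    refine sum_congr rfl fun p _ => ?_
    split_ifs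
    · ring
    · ring
  rw [sum_congr rfl fun x _ => e1 x, sum_comm, mul_sum]
  refine sum_congr rfl fun u _ => ?_
  rw [sum_comm]
  have e2 : ∀ p ∈ (pS e none : Finset (Bt d × Bt d)),
      ∑ x : Site d (k + 1), (if pt u p.1 p.2 = x then ω u * φ x / 2 ^ d else 0) =
        ω u / 2 ^ d * φ (pt u p.1 p.2) := by
    intro p _
    rw [sum_ite_eq, if_pos (mem_univ _)]
    ring
  rw [sum_congr rfl e2, ← mul_sum]
  unfold Mp
  rw [B3_card hd, B3_four]
  field_simp

private theorem B3_Mp_one {d k : ℕ} (hd : 2 ≤ d) (e : Bool) (u : Blk d k) (c : ℝ) :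
    Mp e none u (fun _ : Site d (k + 1) => c) = c := by
  unfold Mp
  have h : ((pS e none : Finset (Bt d × Bt d)).card : ℝ) ≠ 0 := by
    rw [B3_card hd]
    positivity
  rw [sum_const, nsmul_eq_mul]
  field_simp

private theorem B3_abs {d k : ℕ} (hd : 2 ≤ d) (e : Bool) (ω : Blk d k → ℝ) :
    ∑ x : Site d (k + 1), |B3_W e ω x| ≤ 2 ^ d / 2 * ∑ u, |ω u| := by
  have h := B3_sum (k := k) hd e (fun u => |ω u|) (fun _ => 1)
  simp only [B3_Mp_one hd, mul_one] at h
  rw [← h]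
  refine sum_le_sum fun x _ => ?_
  unfold B3_W
  have hp : (0 : ℝ) < 2 ^ d := by positivity
  rw [abs_div, abs_of_pos hp]
  refine div_le_div_of_nonneg_right ?_ hp.le
  refine (abs_sum_le_sum_abs _ _).trans (sum_le_sum fun u _ => ?_)
  have h0 : (0 : ℝ) ≤ ∑ p ∈ (pS e none : Finset (Bt d × Bt d)), (if pt u p.1 p.2 = x then (1 : ℝ) else 0) :=
    sum_nonneg fun p _ => by
      split_ifs
      · exact zero_le_one
      · exact le_refl 0
  rw [abs_mul, abs_of_nonneg h0]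

/-! ### two steps -/

private theorem B3_shift {d k : ℕ} (g : Site d k → ℝ) (a : Site d k) : ∑ x, g (x + a) = ∑ x, g x :=
  Fintype.sum_equiv (Equiv.addRight a) _ _ fun _ => rfl

private theorem B3_opp {d k : ℕ} (τ : Stp d) : (sv (THR.opp τ) : Site d k) + sv τ = 0 := by
  obtain ⟨j, b⟩ := τ
  have h := sv_opp (k := k) j b
  unfold THR.opp
  rw [add_comm]
  exact h

private theorem B3_stp (d : ℕ) : ((univ : Finset (Stp d)).card : ℝ) = 2 * d := by
  rw [card_univ, Fintype.card_prod, Fintype.card_fin, Fintype.card_bool]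
  push_cast
  ring

private theorem B3_two {d k : ℕ} (hd : 1 ≤ d) (w s : Site d k → ℝ) :
    ∑ x, (PP (PP w) x - w x) * s x =
      (∑ τ : Stp d, ∑ σ : Stp d, ∑ y, w (y + sv σ) * (s (y + sv (THR.opp τ)) - s (y + sv σ))) / (2 * d) ^ 2 := by
  have hd0 : (2 * (d : ℝ)) ≠ 0 := by positivity
  have e1 : ∀ τ σ : Stp d, ∑ y, w (y + sv σ) * (s (y + sv (THR.opp τ)) - s (y + sv σ)) =
      ∑ x, w (x + sv τ + sv σ) * s x - ∑ x, w x * s x := by
    intro τ σ
    rw [← B3_shift (fun x => w (x + sv τ + sv σ) * s x) (sv (THR.opp τ)), ← B3_shift (fun x => w x * s x) (sv σ),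
      ← sum_sub_distrib]
    refine sum_congr rfl fun y _ => ?_
    have h1 : y + sv (THR.opp τ) + sv τ + sv σ = y + sv σ := by
      rw [add_assoc y, B3_opp, add_zero]
    simp only [h1]
    ring
  have e2 : ∑ x, PP (PP w) x * s x = (∑ τ : Stp d, ∑ σ : Stp d, ∑ x, w (x + sv τ + sv σ) * s x) / (2 * d) ^ 2 := by
    have e3 : ∀ x, PP (PP w) x * s x = (∑ τ : Stp d, ∑ σ : Stp d, w (x + sv τ + sv σ) * s x) / (2 * d) ^ 2 := by
      intro x
      show (∑ τ : Stp d, (∑ σ : Stp d, w (x + sv τ + sv σ)) / (2 * d)) / (2 * d) * s x = _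
      rw [← sum_div, div_div, div_mul_eq_mul_div, sum_mul, pow_two]
      congr 1
      refine sum_congr rfl fun τ _ => ?_
      rw [sum_mul]
    rw [sum_congr rfl fun x _ => e3 x, ← sum_div, sum_comm]
    congr 1
    refine sum_congr rfl fun τ _ => ?_
    rw [sum_comm]
  have e4 : ∑ x, (PP (PP w) x - w x) * s x = ∑ x, PP (PP w) x * s x - ∑ x, w x * s x := by
    rw [← sum_sub_distrib]
    exact sum_congr rfl fun x _ => by ring
  rw [e4, e2]
  simp only [e1, sum_sub_distrib, sum_const, nsmul_eq_mul, B3_stp]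
  field_simp

private theorem B3_one_step {d k : ℕ} (hd : 1 ≤ d) (w s : Site d k → ℝ) (E : ℝ)
    (h : ∀ τ σ : Stp d, ∑ y, w (y + sv σ) * (s (y + sv (THR.opp τ)) - s (y + sv σ)) ≤ E) :
    ∑ x, (PP (PP w) x - w x) * s x ≤ E := by
  have hd0 : (0 : ℝ) < 2 * (d : ℝ) := by positivity
  rw [B3_two hd, div_le_iff₀ (by positivity)]
  refine (sum_le_sum fun τ _ => sum_le_sum fun σ _ => h τ σ).trans (le_of_eq ?_)
  simp only [sum_const, nsmul_eq_mul, B3_stp]
  ring

private theorem B3_tele {d k : ℕ} (hd : 1 ≤ d) (r : ℕ) (W s : Site d k → ℝ) (E : ℝ)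
    (h : ∀ j < r, ∀ τ σ : Stp d, ∑ y, PP^[2 * j] W (y + sv σ) * (s (y + sv (THR.opp τ)) - s (y + sv σ)) ≤ E) :
    ∑ x, W x * (PP^[2 * r] s x - s x) ≤ r * E := by
  have key : ∑ x, (PP^[2 * r] W x - W x) * s x ≤ r * E := by
    induction r with
    | zero => simp
    | succ r ih =>
      have h1 := ih fun j hj => h j (by omega)
      have h2 := B3_one_step hd (PP^[2 * r] W) s E (h r (by omega))
      have e1 : PP^[2 * (r + 1)] W = PP (PP (PP^[2 * r] W)) := by
        rw [show 2 * (r + 1) = 2 * r + 1 + 1 from by ring, Function.iterate_succ_apply',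
          Function.iterate_succ_apply']
      rw [e1]
      have e2 : ∑ x, (PP (PP (PP^[2 * r] W)) x - W x) * s x =
          ∑ x, (PP (PP (PP^[2 * r] W)) x - PP^[2 * r] W x) * s x + ∑ x, (PP^[2 * r] W x - W x) * s x := by
        rw [← sum_add_distrib]
        exact sum_congr rfl fun x _ => by ring
      rw [e2]
      push_cast
      linarith
  refine le_trans (le_of_eq ?_) key
  have h3 := PPt_adj (2 * r) W s
  have e3 : ∑ x, W x * (PP^[2 * r] s x - s x) = ∑ x, W x * PP^[2 * r] s x - ∑ x, W x * s x := by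
    rw [← sum_sub_distrib]
    exact sum_congr rfl fun x _ => by ring
  have e4 : ∑ x, (PP^[2 * r] W x - W x) * s x = ∑ x, PP^[2 * r] W x * s x - ∑ x, W x * s x := by
    rw [← sum_sub_distrib]
    exact sum_congr rfl fun x _ => by ring
  rw [e3, e4, h3]

private theorem B3_PPle {d k : ℕ} (hd : 1 ≤ d) (t : ℕ) (W : Site d k → ℝ) (hW : ∀ x, |W x| ≤ 1) (x : Site d k) :
    |PP^[t] W x| ≤ 1 := by
  refine (PPt_abs t W x).trans ?_
  have h := PPt_mono t (g := fun y => |W y|) (h := fun _ => (1 : ℝ)) hW x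
  rw [PPt_const hd] at h
  exact h

private theorem B3_PPabs {d k : ℕ} (hd : 1 ≤ d) (t : ℕ) (W : Site d k → ℝ) (a : Site d k) :
    ∑ y, |PP^[t] W (y + a)| ≤ ∑ x, |W x| := by
  rw [B3_shift (fun x => |PP^[t] W x|) a]
  refine (sum_le_sum fun x _ => PPt_abs t W x).trans (le_of_eq ?_)
  exact PPt_total hd t fun y => |W y|

private theorem B3_split {d k : ℕ} (g : Site d k → ℝ) :
    ∑ y, g y = ∑ y ∈ cls true d k, g y + ∑ y ∈ cls false d k, g y := by
  classical
  have h := sum_filter_add_sum_filter_not (univ : Finset (Site d k)) (fun x => evn x) g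
  rw [← h]
  unfold cls evs ods
  simp only [if_true, Bool.false_eq_true, if_false]

private theorem B3_Mp_sub {d k : ℕ} (e : Bool) (u : Blk d k) (φ ψ : Site d (k + 1) → ℝ) :
    Mp e none u (fun x => φ x - ψ x) = Mp e none u φ - Mp e none u ψ := by
  unfold Mp
  rw [sum_sub_distrib, sub_div]

private theorem B3_Mp_sum {d k : ℕ} {ι : Type} (A : Finset ι) (e : Bool) (u : Blk d k) (φ : ι → Site d (k + 1) → ℝ) :
    Mp e none u (fun x => ∑ i ∈ A, φ i x) = ∑ i ∈ A, Mp e none u (φ i) := by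
  unfold Mp
  rw [sum_comm, sum_div]

private theorem B3_iso_sum {d k : ℕ} (hd : 2 ≤ d) (e : Bool) (ω : Blk d k → ℝ) (r : ℕ)
    (s : Site d (k + 1) → ℝ) (A E : ℝ) (hA : 0 ≤ A)
    (h : ∀ j < r, ∀ (τ σ : Stp d) (b : Bool), ∑ y ∈ cls b d (k + 1),
        PP^[2 * j] (B3_W e ω) (y + sv σ) * (s (y + sv (THR.opp τ)) - s (y + sv σ)) ≤
      A * Wt b (fun y => PP^[2 * j] (B3_W e ω) (y + sv σ)) + E) :
    ∑ u, ω u * (Mp e none u (PP^[2 * r] s) - Mp e none u s) ≤ r * (A * ∑ u, |ω u| + 4 * E / 2 ^ d) := by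
  have hd1 : 1 ≤ d := by omega
  have hp : (0 : ℝ) < 2 ^ d := by positivity
  have h1 := B3_tele hd1 r (B3_W e ω) s (A * (2 ^ d / 2 * ∑ u, |ω u|) + 2 * E) (by
    intro j hj τ σ
    rw [B3_split]
    have g1 := h j hj τ σ true
    have g2 := h j hj τ σ false
    have g3 : Wt true (fun y => PP^[2 * j] (B3_W e ω) (y + sv σ)) + Wt false (fun y => PP^[2 * j] (B3_W e ω) (y + sv σ)) ≤
        2 ^ d / 2 * ∑ u, |ω u| := by
      unfold Wt
      rw [← B3_split fun y => |PP^[2 * j] (B3_W e ω) (y + sv σ)|]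
      exact (B3_PPabs hd1 (2 * j) (B3_W e ω) (sv σ)).trans (B3_abs hd e ω)
    have g4 := mul_le_mul_of_nonneg_left g3 hA
    rw [mul_add] at g4
    linarith)
  rw [B3_sum hd e ω fun x => PP^[2 * r] s x - s x] at h1
  simp only [B3_Mp_sub] at h1
  have h2 : (2 ^ d / 2 : ℝ) * ∑ u, ω u * (Mp e none u (PP^[2 * r] s) - Mp e none u s) ≤
      2 ^ d / 2 * (r * (A * ∑ u, |ω u| + 4 * E / 2 ^ d)) := by
    refine h1.trans (le_of_eq ?_)
    field_simp
    ring
  exact le_of_mul_le_mul_left h2 (by positivity)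

/-! ### counting -/

private noncomputable def B3_s (a : Fin 3) : ℝ := if a = 0 then 0 else if a = 1 then 1 else -1

private theorem B3_s_le (a : Fin 3) : |B3_s a| ≤ 1 := by
  unfold B3_s
  split_ifs <;> simp

private theorem B3_bad {d k : ℕ} (Δ : Blk d k → ℝ) (r : ℕ) (A E : ℝ) (hA : 0 < A) (hE : 0 ≤ E)
    (h : ∀ ω : Blk d k → Fin 3, ∑ u, B3_s (ω u) * Δ u ≤ r * (A * ∑ u, |B3_s (ω u)| + E)) :
    cn (fun u => 2 * ((r : ℝ) + 1) * A < |Δ u|) ≤ E / A := by
  classical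
  set θ : ℝ := 2 * ((r : ℝ) + 1) * A with hθ
  have hr : (0 : ℝ) ≤ r := Nat.cast_nonneg r
  have hθ0 : 0 < θ := by positivity
  have hcn : cn (fun u : Blk d k => θ < |Δ u|) = ∑ u, (if θ < |Δ u| then (1 : ℝ) else 0) := by
    unfold cn
    rw [sum_boole]
  set ω : Blk d k → Fin 3 := fun u => if θ < Δ u then 1 else if Δ u < -θ then 2 else 0 with hω
  have e1 : ∀ u, |B3_s (ω u)| = if θ < |Δ u| then (1 : ℝ) else 0 := by
    intro u
    by_cases h1 : θ < Δ u
    · have h2 : θ < |Δ u| := lt_of_lt_of_le h1 (le_abs_self _)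
      rw [if_pos h2]
      simp [hω, h1, B3_s]
    · by_cases h2 : Δ u < -θ
      · have h3 : θ < |Δ u| := by
          rw [lt_abs]
          right
          linarith
        rw [if_pos h3]
        simp [hω, h1, h2, B3_s]
      · have h3 : ¬ θ < |Δ u| := by
          rw [lt_abs]
          push Not
          constructor
          · linarith
          · linarith
        rw [if_neg h3]
        simp [hω, h1, h2, B3_s]
  have e2 : ∀ u, θ * (if θ < |Δ u| then (1 : ℝ) else 0) ≤ B3_s (ω u) * Δ u := by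
    intro u
    by_cases h1 : θ < Δ u
    · have h2 : θ < |Δ u| := lt_of_lt_of_le h1 (le_abs_self _)
      rw [if_pos h2]
      simp [hω, h1, B3_s]
      exact h1.le
    · by_cases h2 : Δ u < -θ
      · have h3 : θ < |Δ u| := by
          rw [lt_abs]
          right
          linarith
        rw [if_pos h3]
        simp [hω, h1, h2, B3_s]
        linarith
      · have h3 : ¬ θ < |Δ u| := by
          rw [lt_abs]
          push Not
          constructor
          · linarith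
          · linarith
        rw [if_neg h3]
        simp [hω, h1, h2, B3_s]
  have h1 := h ω
  simp only [e1] at h1
  have h2 : θ * ∑ u, (if θ < |Δ u| then (1 : ℝ) else 0) ≤ ∑ u, B3_s (ω u) * Δ u := by
    rw [mul_sum]
    exact sum_le_sum fun u _ => e2 u
  rw [hcn]
  set n : ℝ := ∑ u, (if θ < |Δ u| then (1 : ℝ) else 0) with hn
  have hn0 : 0 ≤ n := sum_nonneg fun u _ => by
    split_ifs
    · exact zero_le_one
    · exact le_refl 0
  rw [le_div_iff₀ hA]
  have h3 : θ * n ≤ r * (A * n + E) := h2.trans h1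
  have h4 : ((r : ℝ) + 1) * (n * A) ≤ ((r : ℝ) + 1) * E := by
    rw [hθ] at h3
    have h5 : 0 ≤ A * n := mul_nonneg hA.le hn0
    nlinarith
  exact le_of_mul_le_mul_left h4 (by positivity)

private theorem B3_cn_union {d k : ℕ} {ι : Type} [Fintype ι] (P : ι → Blk d k → Prop) (Q : Blk d k → Prop)
    (h : ∀ u, Q u → ∃ i, P i u) : cn Q ≤ ∑ i, cn (P i) := by
  classical
  unfold cn
  have h1 : (univ.filter Q) ⊆ (univ : Finset ι).biUnion fun i => univ.filter (P i) := by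
    intro u hu
    rw [mem_filter] at hu
    obtain ⟨i, hi⟩ := h u hu.2
    rw [mem_biUnion]
    exact ⟨i, mem_univ _, mem_filter.mpr ⟨mem_univ _, hi⟩⟩
  have h2 := (card_le_card h1).trans card_biUnion_le
  refine le_trans (le_of_eq ?_) ((Nat.cast_le (α := ℝ)).mpr h2 |>.trans (le_of_eq ?_))
  · congr 2
  · push_cast
    refine sum_congr rfl fun i _ => ?_
    congr 2

private theorem B3_bq {d k q : ℕ} (c : Fin q) (f : Site d k → Fin q) (x : Site d k) :
    bq c f x = (∑ c', sg c c' f x) - (-1) := by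
  classical
  have e1 : ∑ c' : Fin q, sg c c' f x = q * (if f x = c then (1 : ℝ) else 0) - 1 := by
    unfold THR.sg
    rw [sum_sub_distrib, sum_const, card_univ, Fintype.card_fin, nsmul_eq_mul]
    congr 1
    rw [sum_ite_eq, if_pos (mem_univ _)]
  rw [e1]
  unfold bq
  split_ifs
  · ring
  · ring

private theorem B3_Mbq {d k q : ℕ} (hd : 1 ≤ d) (t : ℕ) (e : Bool) (u : Blk d k) (c : Fin q)
    (f : Site d (k + 1) → Fin q) :
    Mp e none u (PP^[t] (bq c f)) - Mp e none u (bq c f) =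
      ∑ c', (Mp e none u (PP^[t] (THR.sg c c' f)) - Mp e none u (THR.sg c c' f)) := by
  have e1 : ∀ x, PP^[t] (bq c f) x - bq c f x = ∑ c', (PP^[t] (THR.sg c c' f) x - THR.sg c c' f x) := by
    intro x
    have h : bq c f = fun y => (∑ c', THR.sg c c' f y) - (-1) := funext fun y => B3_bq c f y
    rw [h, PPt_sub t (fun y => ∑ c', THR.sg c c' f y) (fun _ => -1), PPt_sum, PPt_const hd, sum_sub_distrib]
    ring
  rw [← B3_Mp_sub, funext e1, B3_Mp_sum]
  exact sum_congr rfl fun c' _ => B3_Mp_sub _ _ _ _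

private theorem B3_final {d k q : ℕ} (hd : 2 ≤ d) (f : Site d (k + 1) → Fin q) (r : ℕ) (A E δ : ℝ)
    (hA : 0 < A) (hE : 0 ≤ E) (hδ : q * (2 * ((r : ℝ) + 1) * A) ≤ δ)
    (H : ∀ (e b : Bool) (c c' : Fin q) (τ σ : Stp d) (j : Fin r) (ω : Blk d k → Fin 3), c ≠ c' →
      ∑ y ∈ cls b d (k + 1), PP^[2 * j.val] (B3_W e fun u => B3_s (ω u)) (y + sv σ) *
          (THR.sg c c' f (y + sv (THR.opp τ)) - THR.sg c c' f (y + sv σ)) ≤
        A * Wt b (fun y => PP^[2 * j.val] (B3_W e fun u => B3_s (ω u)) (y + sv σ)) + E) :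
    cn (fun u : Blk d k => ∃ (e : Bool) (c : Fin q),
      δ < |Mp e none u (PP^[2 * r] (bq c f)) - Mp e none u (bq c f)|) ≤
      2 * (q : ℝ) ^ 2 * (4 * E / 2 ^ d / A) := by
  have hd1 : 1 ≤ d := by omega
  have h1 : ∀ (e : Bool) (c c' : Fin q), cn (fun u : Blk d k => 2 * ((r : ℝ) + 1) * A <
      |Mp e none u (PP^[2 * r] (THR.sg c c' f)) - Mp e none u (THR.sg c c' f)|) ≤ 4 * E / 2 ^ d / A := by
    intro e c c'
    by_cases hcc : c = c'
    · subst hcc
      have e0 : THR.sg c c f = fun _ => 0 := by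
        funext x
        unfold THR.sg
        exact sub_self _
      have e1 : cn (fun u : Blk d k => 2 * ((r : ℝ) + 1) * A <
          |Mp e none u (PP^[2 * r] (THR.sg c c f)) - Mp e none u (THR.sg c c f)|) = 0 := by
        unfold cn
        rw [Nat.cast_eq_zero, card_eq_zero, filter_eq_empty_iff]
        intro u _
        rw [e0]
        have e2 : PP^[2 * r] (fun _ : Site d (k + 1) => (0 : ℝ)) = fun _ => 0 :=
          funext fun x => PPt_const hd1 _ _ _
        rw [e2, sub_self, abs_zero, not_lt]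
        positivity
      rw [e1]
      positivity
    · refine B3_bad _ r A (4 * E / 2 ^ d) hA (by positivity) fun ω => ?_
      exact B3_iso_sum hd e (fun u => B3_s (ω u)) r (THR.sg c c' f) A E hA.le
        fun j hj τ σ b => H e b c c' τ σ ⟨j, hj⟩ ω hcc
  refine (B3_cn_union (ι := Bool × Fin q × Fin q) (fun i u => 2 * ((r : ℝ) + 1) * A <
      |Mp i.1 none u (PP^[2 * r] (THR.sg i.2.1 i.2.2 f)) - Mp i.1 none u (THR.sg i.2.1 i.2.2 f)|) _ ?_).trans ?_
  · rintro u ⟨e, c, hu⟩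
    by_contra hcon
    push Not at hcon
    have h2 : |Mp e none u (PP^[2 * r] (bq c f)) - Mp e none u (bq c f)| ≤ δ := by
      rw [B3_Mbq hd1]
      refine (abs_sum_le_sum_abs _ _).trans (le_trans ?_ hδ)
      refine (sum_le_sum fun c' _ => hcon (e, c, c')).trans (le_of_eq ?_)
      rw [sum_const, card_univ, Fintype.card_fin, nsmul_eq_mul]
    exact absurd hu (not_lt.mpr h2)
  · refine (sum_le_sum fun i _ => h1 i.1 i.2.1 i.2.2).trans (le_of_eq ?_)
    rw [sum_const, card_univ, Fintype.card_prod, Fintype.card_prod, Fintype.card_bool, Fintype.card_fin, nsmul_eq_mul]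
    push_cast
    ring

/-! ### the union -/

private abbrev B3_I (r d k q : ℕ) : Type :=
  Bool × Bool × (Fin q × Fin q) × (Stp d × Stp d) × Fin r × (Blk d k → Fin 3)

private noncomputable def B3_p (r d k q : ℕ) (i : B3_I r d k q) : Iw d (k + 1) q :=
  (i.2.1, i.2.2.1, (THR.opp i.2.2.2.1.1, i.2.2.2.1.2),
    fun y => PP^[2 * i.2.2.2.2.1.val] (B3_W i.1 fun u => B3_s (i.2.2.2.2.2 u)) (y + sv i.2.2.2.1.2))

private theorem B3_cardI (r d k q : ℕ) : (Fintype.card (B3_I r d k q) : ℝ) =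
    16 * (q : ℝ) ^ 2 * (d : ℝ) ^ 2 * r * 3 ^ (Fintype.card (Blk d k)) := by
  rw [Fintype.card_prod, Fintype.card_prod, Fintype.card_prod, Fintype.card_prod, Fintype.card_prod,
    Fintype.card_prod, Fintype.card_prod, Fintype.card_prod, Fintype.card_fun]
  simp only [Fintype.card_bool, Fintype.card_fin]
  push_cast
  ring

private theorem B3_logI (r d k q : ℕ) (F : ℝ) (hF : 1 ≤ F) (h : 16 * (q : ℝ) ^ 2 * (d : ℝ) ^ 2 * r ≤ F) :
    Real.log (Fintype.card (B3_I r d k q)) ≤ Real.log F + 2 * NN d k := by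
  have hN : 0 ≤ NN d k := by
    unfold NN
    positivity
  have hlF : 0 ≤ Real.log F := Real.log_nonneg hF
  rcases Nat.eq_zero_or_pos (Fintype.card (B3_I r d k q)) with h0 | h0
  · rw [h0, Nat.cast_zero, Real.log_zero]
    positivity
  · have h1 : (Fintype.card (B3_I r d k q) : ℝ) ≤ F * 3 ^ (Fintype.card (Blk d k)) := by
      rw [B3_cardI]
      exact mul_le_mul_of_nonneg_right h (by positivity)
    have h2 := Real.log_le_log (by exact_mod_cast h0) h1
    rw [Real.log_mul (by positivity) (by positivity), Real.log_pow, card_Blk] at h2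
    have h3 : Real.log 3 ≤ 2 := by
      have := Real.log_le_sub_one_of_pos (show (0 : ℝ) < 3 by norm_num)
      linarith
    have h4 : NN d k * Real.log 3 ≤ NN d k * 2 := mul_le_mul_of_nonneg_left h3 hN
    linarith

private theorem B3_exp (C : ℕ) : ∀ᶠ d : ℕ in atTop, 4 * (d : ℝ) ^ C ≤ 2 ^ d := by
  have h := tendsto_pow_const_div_const_pow_of_one_lt C (one_lt_two (α := ℝ))
  have h1 := h.eventually (gt_mem_nhds (show (0 : ℝ) < 1 / 4 by norm_num))
  filter_upwards [h1] with d hd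
  rw [div_lt_iff₀ (by positivity)] at hd
  linarith

theorem blk_iso (t : ℕ) (ht : Even t) (K : ℕ) (δ : ℝ) (hδ : 0 < δ) : WOPb e3 fun d k q f => Rg d q →
    cn (fun u : Blk d k => ∃ (e : Bool) (c : Fin q), δ < |Mp e none u (PP^[t] (bq c f)) - Mp e none u (bq c f)|) ≤
      NN d k / (d : ℝ) ^ K := by
  obtain ⟨r, hr⟩ := ht
  have ht2 : t = 2 * r := by omega
  subst ht2
  have hε : 0 < e3 := by
    unfold e3
    norm_num
  have hε1 : e3 ≤ 1 := by
    unfold e3
    norm_num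
  obtain ⟨C₄, hC4, hiso⟩ := iso hε hε1
  obtain ⟨C, hC⟩ := hiso (K + 5)
  refine ⟨C + 1, (((hC.shift.and (EvT_reg hε hε1 (max (max 2 (128 / C₄)) (2 * ((r : ℝ) + 1) * C₄ / δ)))).and
    (EvT_d (B3_exp (C + 1)))).and
    (EvT_NN (ε := e3) fun d q => (d : ℝ) ^ (C + 1) * Real.log (16 * (q : ℝ) ^ 2 * (d : ℝ) ^ 2 * r + 1))).mono ?_⟩
  rintro d k q ⟨⟨⟨h1, hreg⟩, h2⟩, h3⟩
  obtain ⟨hMd, hMq, -, -, hq2, -, -, -⟩ := hreg
  have hd2 : (2 : ℝ) ≤ d := ((le_max_left _ _).trans (le_max_left _ _)).trans hMd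
  have hd : 2 ≤ d := by exact_mod_cast hd2
  have hdC : 128 / C₄ ≤ d := ((le_max_right _ _).trans (le_max_left _ _)).trans hMd
  have hq1 : (2 : ℝ) ≤ q := ((le_max_left _ _).trans (le_max_left _ _)).trans hMq
  have hqδ : 2 * ((r : ℝ) + 1) * C₄ / δ ≤ q := (le_max_right _ _).trans hMq
  have hq0 : (0 : ℝ) < q := by linarith
  have hd0 : (0 : ℝ) < d := by linarith
  have hqn : 0 < q := by exact_mod_cast hq0
  have hq2d : (q : ℝ) ≤ 2 * d := by nlinarith
  have hN : 0 ≤ NN d k := by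
    unfold NN
    positivity
  have hU : Rar (C + 1) d (k + 1) q fun f => ∃ i : B3_I r d k q, ¬ ((B3_p r d k q i).2.1.1 ≠ (B3_p r d k q i).2.1.2 →
      (∀ x, |(B3_p r d k q i).2.2.2 x| ≤ 1) →
      ∑ u ∈ cls (B3_p r d k q i).1 d (k + 1), (B3_p r d k q i).2.2.2 u *
          (THR.sg (B3_p r d k q i).2.1.1 (B3_p r d k q i).2.1.2 f (u + sv (B3_p r d k q i).2.2.1.1) -
            THR.sg (B3_p r d k q i).2.1.1 (B3_p r d k q i).2.1.2 f (u + sv (B3_p r d k q i).2.2.1.2)) ≤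
        C₄ / (q : ℝ) ^ 2 * Wt (B3_p r d k q i).1 (B3_p r d k q i).2.2.2 + NN d (k + 1) / (d : ℝ) ^ (K + 5)) := by
    refine Rar_union hd (fun i => h1 (B3_p r d k q i)) ?_
    have h4 := B3_logI r d k q (16 * (q : ℝ) ^ 2 * (d : ℝ) ^ 2 * r + 1)
      (by
        have : (0 : ℝ) ≤ 16 * (q : ℝ) ^ 2 * (d : ℝ) ^ 2 * r := by positivity
        linarith) (by linarith)
    have h5 : (0 : ℝ) ≤ (d : ℝ) ^ (C + 1) := by positivity
    refine (mul_le_mul_of_nonneg_left h4 h5).trans ?_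
    rw [NN_succ, mul_add]
    have h6 : (d : ℝ) ^ (C + 1) * (2 * NN d k) ≤ 2 ^ d / 2 * NN d k := by
      have : (d : ℝ) ^ (C + 1) * 2 ≤ 2 ^ d / 2 := by linarith
      calc (d : ℝ) ^ (C + 1) * (2 * NN d k) = (d : ℝ) ^ (C + 1) * 2 * NN d k := by ring
        _ ≤ _ := mul_le_mul_of_nonneg_right this hN
    have h7 : NN d k ≤ 2 ^ d / 2 * NN d k := by
      have : (1 : ℝ) ≤ 2 ^ d / 2 := by
        have h8 : (2 : ℝ) ^ 1 ≤ 2 ^ d := pow_le_pow_right₀ (by norm_num) (by omega)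
        linarith
      exact le_mul_of_one_le_left hN this
    linarith
  refine hU.mono ?_
  intro f _ hf
  by_contra hcon
  push Not at hcon
  refine hf fun _ => ?_
  have hE : (0 : ℝ) ≤ NN d (k + 1) / (d : ℝ) ^ (K + 5) := by
    have : 0 ≤ NN d (k + 1) := by
      unfold NN
      positivity
    positivity
  have hA : 0 < C₄ / (q : ℝ) ^ 2 := by positivity
  have hfin := B3_final hd f r (C₄ / (q : ℝ) ^ 2) (NN d (k + 1) / (d : ℝ) ^ (K + 5)) δ hA hE (by
      rw [div_le_iff₀ hδ] at hqδ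
      have e1 : (q : ℝ) * (2 * ((r : ℝ) + 1) * (C₄ / (q : ℝ) ^ 2)) = 2 * ((r : ℝ) + 1) * C₄ / q := by
        field_simp
      rw [e1, div_le_iff₀ hq0]
      linarith [mul_comm δ (q : ℝ)]) (by
      intro e b c c' τ σ j ω hcc
      exact hcon (e, b, (c, c'), (τ, σ), j, ω) hcc
        (fun x => B3_PPle (by omega) _ _ (B3_le e _ fun u => B3_s_le _) _))
  refine hfin.trans ?_
  rw [NN_succ]
  have h2d : (0 : ℝ) < 2 ^ d := by positivity
  have hdK : (0 : ℝ) < (d : ℝ) ^ K := by positivity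
  have e2 : 2 * (q : ℝ) ^ 2 * (4 * (2 ^ d * NN d k / (d : ℝ) ^ (K + 5)) / 2 ^ d / (C₄ / (q : ℝ) ^ 2)) =
      8 * (q : ℝ) ^ 4 / (C₄ * (d : ℝ) ^ 5) * (NN d k / (d : ℝ) ^ K) := by
    rw [pow_add]
    field_simp
    ring
  rw [e2]
  refine mul_le_of_le_one_left (by positivity) ?_
  rw [div_le_one (by positivity)]
  have h8 : (q : ℝ) ^ 4 ≤ (2 * (d : ℝ)) ^ 4 := pow_le_pow_left₀ hq0.le hq2d 4
  have h9 : 128 ≤ C₄ * d := by
    rw [div_le_iff₀ hC4] at hdC
    linarith [mul_comm (d : ℝ) C₄]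
  calc 8 * (q : ℝ) ^ 4 ≤ 8 * (2 * (d : ℝ)) ^ 4 := by linarith
    _ = 128 * (d : ℝ) ^ 4 := by ring
    _ ≤ C₄ * d * (d : ℝ) ^ 4 := mul_le_mul_of_nonneg_right h9 (by positivity)
    _ = C₄ * (d : ℝ) ^ 5 := by ring

end Pool.Agent.LC

end
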