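import Pool.Agent.Lib_MP_2c424f_m.M12
import Pool.Agent.Lib_MP_2c424f_m.M21

/-!
# MP_2c424f_pr, q_c grows linearly: merged library part M40

Concatenation of smaller files (each in its own section), only to save build time.
-/

namespace Pool.Agent.LO
end Pool.Agent.LO

namespace Pool.Agent.LIN
end Pool.Agent.LIN

namespace Pool.Agent.THR
end Pool.Agent.THR

namespace Pool.Agent.COR
end Pool.Agent.COR

/-! ### from `Lib_MP_2c424f_lc1.A2` -/

section

/-!
# LC1 A2: colourings with few sites of the colour `c` (deterministic count)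

`#{f proper : |I_c| ≤ N/(20q), #{v ∈ I_c : av f v < q/4} ≤ δ N/q} ≤ ZZ d k (q-1) exp (0.3 N/q)`, `I_c = {f = c}`.
For fixed `I = I_c` (independent) and `Y = {v ∈ I : av f v < q/4}`:
(1) recolour the sites of `I \ Y` by available colours other than `c` (at least `q/4 - 1 ≥ q/5` each; the sites of `I` are pairwise not adjacent, the map is injective for
    fixed `I`, `Y`; compare LIN N2a `recol`): `(q/5)^|I \ Y| #{f} ≤ #{g proper : {g = c} = Y}`;
(2) `#{g proper : {g = c} = Y} ≤ number of (q-1)-colourings of the graph T \ Y`; adding the at most `2d |Y|` edges at `Y` (COR K03 `add_edges`, the sites of `Y` are free: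
    a factor `(q-1)^{-|Y|}`): `≤ (1 - 1/(q-1))^(-2d|Y|) (q-1)^(-|Y|) ZZ d k (q-1) ≤ (e^{6000} * 2/q)^|Y| ZZ d k (q-1)`  (LIN N1 has a similar bound with 5/q).
(3) sum over `Y` (`|Y| ≤ δN/q`) and `I \ Y` (`≤ N/(20q)`): `∑_{|Y| ≤ J} l^|Y| ≤ s^(-J) (1 + s l)^N` for `0 < s ≤ 1`.  For `I \ Y`: `l = 5/q`, `J = N/(20q)`, `s = 1/100`:
    `exp ((N/q)(log 100 / 20 + 5/100)) ≤ exp (0.281 N/q)`.  For `Y`: `l = 2e^{6000}/q`, `J = δN/q`, `s = e^{-6100}`: `exp ((N/q)(6100 δ + 2e^{-100})) ≤ exp (0.01 N/q)`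
    for `δ ≤ 10^(-6)`.
-/

set_option autoImplicit false

open Finset Filter

namespace Pool.Agent.LC

open Pool.Agent.LO Pool.Agent.LIN Pool.Agent.THR Pool.Agent.COR

variable {d k q : ℕ}

open scoped Classical in
/-- recolourings of `I` -/
private noncomputable def A2_R {d k q : ℕ} (c : Fin q) (I : Finset (Site d k))
    (f : Site d k → Fin q) : Finset (Site d k → Fin q) :=
  Fintype.piFinset fun v => if v ∈ I then ((SS f v)ᶜ).erase c else {f v}

private theorem A2_mem {d k q : ℕ} {c : Fin q} {I : Finset (Site d k)}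
    {f g : Site d k → Fin q} (hg : g ∈ A2_R c I f) :
    (∀ v ∈ I, g v ≠ c ∧ g v ∉ SS f v) ∧ ∀ v, v ∉ I → g v = f v := by
  classical
  unfold A2_R at hg
  rw [Fintype.mem_piFinset] at hg
  refine ⟨fun v hv => ?_, fun v hv => ?_⟩
  · have h := hg v
    rw [if_pos hv] at h
    refine ⟨(Finset.mem_erase.1 h).1, ?_⟩
    exact Finset.mem_compl.1 (Finset.mem_erase.1 h).2
  · have h := hg v
    rw [if_neg hv] at h
    exact Finset.mem_singleton.1 h

private theorem A2_SS {d k q : ℕ} (f : Site d k → Fin q) (v : Site d k) (σ : Stp d) :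
    f (v + sv σ) ∈ SS f v :=
  Finset.mem_image_of_mem _ (Finset.mem_univ σ)

private theorem A2_prp {d k q : ℕ} {c : Fin q} {I : Finset (Site d k)}
    {f g : Site d k → Fin q} (hf : Prp f) (hI : ∀ v ∈ I, f v = c) (hg : g ∈ A2_R c I f) :
    Prp g := by
  obtain ⟨h1, h2⟩ := A2_mem hg
  intro x σ
  by_cases hx : x ∈ I
  · by_cases hy : x + sv σ ∈ I
    · exact absurd ((hI _ hy).trans (hI _ hx).symm) (hf x σ)
    · rw [h2 _ hy]
      intro h
      exact (h1 x hx).2 (h ▸ A2_SS f x σ)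
  · by_cases hy : x + sv σ ∈ I
    · rw [h2 _ hx]
      intro h
      have h3 : x = (x + sv σ) + sv (σ.1, !σ.2) := by
        rw [add_assoc, sv_opp, add_zero]
      have h4 : f x ∈ SS f (x + sv σ) := by
        have h5 := A2_SS f (x + sv σ) (σ.1, !σ.2)
        rwa [← h3] at h5
      exact (h1 _ hy).2 (h.symm ▸ h4)
    · rw [h2 _ hx, h2 _ hy]
      exact hf x σ

private theorem A2_card {d k q : ℕ} (hq : 20 ≤ q) (c : Fin q)
    (I : Finset (Site d k)) (f : Site d k → Fin q) (hf : Prp f) (hI : ∀ v ∈ I, f v = c)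
    (hx : ∀ v ∈ I, ¬ (av f v : ℝ) < q / 4) :
    ((q : ℝ) / 5) ^ I.card ≤ ((A2_R c I f).card : ℝ) := by
  classical
  have hcard : (A2_R c I f).card = ∏ v ∈ I, (((SS f v)ᶜ).erase c).card := by
    unfold A2_R
    rw [Fintype.card_piFinset]
    have h1 : ∀ v : Site d k, (if v ∈ I then ((SS f v)ᶜ).erase c else {f v}).card =
        if v ∈ I then (((SS f v)ᶜ).erase c).card else 1 := by
      intro v
      split_ifs
      · rfl
      · exact Finset.card_singleton _
    rw [Finset.prod_congr rfl fun v _ => h1 v, Finset.prod_ite_mem, Finset.univ_inter]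
  rw [hcard, Nat.cast_prod]
  rw [← Finset.prod_const]
  have hq0 : (20 : ℝ) ≤ q := by exact_mod_cast hq
  refine Finset.prod_le_prod (fun v _ => by positivity) fun v hv => ?_
  have hc : c ∈ (SS f v)ᶜ := by
    rw [Finset.mem_compl]
    intro h
    unfold SS at h
    obtain ⟨σ, -, h⟩ := Finset.mem_image.1 h
    exact hf v σ (h.trans (hI v hv).symm)
  have h2 : (((SS f v)ᶜ).erase c).card + 1 = av f v := by
    rw [Finset.card_erase_add_one hc, Finset.card_compl, Fintype.card_fin]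
    rfl
  have h3 : ((((SS f v)ᶜ).erase c).card : ℝ) + 1 = (av f v : ℝ) := by
    exact_mod_cast h2
  have h4 := hx v hv
  rw [not_lt] at h4
  linarith

open scoped Classical in
/-- sites of colour `c` with few available colours -/
private noncomputable def A2_Y {d k q : ℕ} (c : Fin q) (f : Site d k → Fin q) : Finset (Site d k) :=
  univ.filter fun v => f v = c ∧ (av f v : ℝ) < q / 4

open scoped Classical in
private theorem A2_recol {d k q : ℕ} (hq : 20 ≤ q) (c : Fin q) (I Y : Finset (Site d k)) :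
    (((prps d k q).filter fun f => Xc c f \ A2_Y c f = I ∧ A2_Y c f = Y).card : ℝ) *
      ((q : ℝ) / 5) ^ I.card ≤ (((prps d k q).filter fun g => Xc c g = Y).card : ℝ) := by
  classical
  have hF : ∀ f ∈ (prps d k q).filter fun f => Xc c f \ A2_Y c f = I ∧ A2_Y c f = Y,
      Prp f ∧ (∀ v ∈ I, f v = c ∧ ¬ (av f v : ℝ) < q / 4) ∧ ∀ v, v ∉ I → (f v = c ↔ v ∈ Y) := by
    intro f hf
    obtain ⟨hp, hI, hY⟩ := Finset.mem_filter.1 hf
    unfold prps at hp
    refine ⟨(Finset.mem_filter.1 hp).2, fun v hv => ?_, fun v hv => ?_⟩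
    · rw [← hI] at hv
      obtain ⟨h1, h2⟩ := Finset.mem_sdiff.1 hv
      have h3 : f v = c := (Finset.mem_filter.1 h1).2
      refine ⟨h3, fun h4 => h2 ?_⟩
      exact Finset.mem_filter.2 ⟨Finset.mem_univ _, h3, h4⟩
    · constructor
      · intro h1
        by_contra h2
        apply hv
        rw [← hI]
        refine Finset.mem_sdiff.2 ⟨Finset.mem_filter.2 ⟨Finset.mem_univ _, h1⟩, ?_⟩
        rw [hY]
        exact h2
      · intro h1
        rw [← hY] at h1
        exact (Finset.mem_filter.1 h1).2.1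
  have hdis : ∀ f ∈ (prps d k q).filter fun f => Xc c f \ A2_Y c f = I ∧ A2_Y c f = Y,
      ∀ f' ∈ (prps d k q).filter fun f => Xc c f \ A2_Y c f = I ∧ A2_Y c f = Y, f ≠ f' →
      Disjoint (A2_R c I f) (A2_R c I f') := by
    intro f hf f' hf' hne
    rw [Finset.disjoint_left]
    intro g hg hg'
    apply hne
    funext v
    by_cases hv : v ∈ I
    · rw [((hF f hf).2.1 v hv).1, ((hF f' hf').2.1 v hv).1]
    · rw [← (A2_mem hg).2 v hv, ← (A2_mem hg').2 v hv]
  have hsub : ((prps d k q).filter fun f => Xc c f \ A2_Y c f = I ∧ A2_Y c f = Y).biUnion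
      (A2_R c I) ⊆ (prps d k q).filter fun g => Xc c g = Y := by
    intro g hg
    obtain ⟨f, hf, hg⟩ := Finset.mem_biUnion.1 hg
    obtain ⟨hp, h1, h2⟩ := hF f hf
    have hgp : Prp g := A2_prp hp (fun v hv => (h1 v hv).1) hg
    refine Finset.mem_filter.2 ⟨?_, ?_⟩
    · unfold prps
      exact Finset.mem_filter.2 ⟨Finset.mem_univ _, hgp⟩
    · have hIY : ∀ v ∈ I, v ∉ Y := by
        intro v hv hvY
        obtain ⟨-, hI, hY⟩ := Finset.mem_filter.1 hf
        rw [← hI] at hv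
        rw [← hY] at hvY
        exact (Finset.mem_sdiff.1 hv).2 hvY
      ext v
      unfold Xc
      rw [Finset.mem_filter]
      by_cases hv : v ∈ I
      · constructor
        · intro h
          exact absurd h.2 ((A2_mem hg).1 v hv).1
        · intro h
          exact absurd h (hIY v hv)
      · rw [(A2_mem hg).2 v hv]
        constructor
        · intro h
          exact (h2 v hv).1 h.2
        · intro h
          exact ⟨Finset.mem_univ _, (h2 v hv).2 h⟩
  have hle : (((prps d k q).filter fun f => Xc c f \ A2_Y c f = I ∧ A2_Y c f = Y).biUnion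
      (A2_R c I)).card ≤ ((prps d k q).filter fun g => Xc c g = Y).card :=
    Finset.card_le_card hsub
  rw [Finset.card_biUnion hdis] at hle
  have hle' : (∑ f ∈ (prps d k q).filter fun f => Xc c f \ A2_Y c f = I ∧ A2_Y c f = Y,
      ((A2_R c I f).card : ℝ)) ≤ (((prps d k q).filter fun g => Xc c g = Y).card : ℝ) := by
    exact_mod_cast hle
  refine le_trans ?_ hle'
  rw [← nsmul_eq_mul, ← Finset.sum_const]
  refine Finset.sum_le_sum fun f hf => ?_
  obtain ⟨hp, h1, h2⟩ := hF f hf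
  exact A2_card hq c I f hp (fun v hv => (h1 v hv).1) fun v hv => (h1 v hv).2


/-! ### removal of the edges at `Y` -/

private theorem A2_ne {d k : ℕ} (hk : 1 ≤ k) (x : Site d k) (σ : Stp d) : x ≠ x + sv σ := by
  intro h
  have h1 := evn_step hk x σ
  rw [← h] at h1
  tauto

private theorem A2_par {d k : ℕ} (hk : 1 ≤ k) : Par (gV (univ : Finset (Site d k))) evn := by
  rintro x y ⟨_, _, _, ⟨σ, rfl⟩, _⟩
  have h1 := evn_step hk x σ
  tauto

private theorem A2_opp {d k : ℕ} (x : Site d k) (σ : Stp d) : x = (x + sv σ) + sv (σ.1, !σ.2) := by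
  rw [add_assoc, sv_opp, add_zero]

private theorem A2_cn {α : Type} [Fintype α] (P : α → Prop) (S : Finset α) (h : ∀ x, x ∈ S ↔ P x) :
    cn P = (S.card : ℝ) := by
  classical
  unfold cn
  norm_cast
  refine congrArg Finset.card (Finset.ext fun x => ?_)
  exact ⟨fun hx => (h x).2 (Finset.mem_filter.1 hx).2,
    fun hx => Finset.mem_filter.2 ⟨mem_univ _, (h x).1 hx⟩⟩

private theorem A2_cG' {W : Type} [Fintype W] [DecidableEq W] {m : ℕ} (G : SimpleGraph W)
    (P : (W → Fin m) → Prop) (S : Finset (W → Fin m)) (h : ∀ f, f ∈ S ↔ PrG G f ∧ P f) :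
    cG G P = (S.card : ℝ) := by
  classical
  unfold cG
  norm_cast
  refine congrArg Finset.card (Finset.ext fun x => ?_)
  exact ⟨fun hx => (h x).2 (Finset.mem_filter.1 hx).2,
    fun hx => Finset.mem_filter.2 ⟨mem_univ _, (h x).1 hx⟩⟩

private theorem A2_cG {W : Type} [Fintype W] [DecidableEq W] {m : ℕ} (G : SimpleGraph W)
    (S : Finset (W → Fin m)) (h : ∀ f, f ∈ S ↔ PrG G f) :
    cG G (fun _ : W → Fin m => True) = (S.card : ℝ) :=
  A2_cG' G _ S fun f => (h f).trans ⟨fun h => ⟨h, trivial⟩, fun h => h.1⟩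

private theorem A2_ZZ {d k m : ℕ} (hk : 1 ≤ k) :
    cG (gV (univ : Finset (Site d k))) (fun _ : Site d k → Fin m => True) ≤ ZZ d k m := by
  classical
  rw [A2_cG (gV (univ : Finset (Site d k))) (univ.filter fun f : Site d k → Fin m => PrG (gV univ) f)
    (fun f => by rw [mem_filter]; exact ⟨fun h => h.2, fun h => ⟨mem_univ _, h⟩⟩)]
  unfold ZZ prps
  rw [Nat.cast_le]
  refine Finset.card_le_card fun f hf => ?_
  rw [mem_filter] at hf ⊢
  refine ⟨mem_univ _, fun x σ => ?_⟩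
  have h1 : (gV (univ : Finset (Site d k))).Adj x (x + sv σ) :=
    ⟨A2_ne hk x σ, mem_univ _, mem_univ _, ⟨σ, rfl⟩, ⟨(σ.1, !σ.2), A2_opp x σ⟩⟩
  exact (hf.2 _ _ h1).symm

open scoped Classical in
private theorem A2_free {d k m : ℕ} (hm : 1 ≤ m) (c : Fin (m + 1)) (Y : Finset (Site d k)) :
    (m : ℝ) ^ Y.card * (((prps d k (m + 1)).filter fun g => Xc c g = Y).card : ℝ) ≤
      cG (gV Yᶜ) (fun _ : Site d k → Fin m => True) := by
  let e : Fin m ≃ {x : Fin (m + 1) // x ≠ c} := finSuccAboveEquiv c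
  let F : (Site d k → Fin (m + 1)) × (Y → Fin m) → (Site d k → Fin m) := fun p x =>
    if hx : x ∈ Y then p.2 ⟨x, hx⟩ else
      if hg : p.1 x = c then ⟨0, hm⟩ else e.symm ⟨p.1 x, hg⟩
  have hnc : ∀ g : Site d k → Fin (m + 1), Xc c g = Y → ∀ x, x ∉ Y → g x ≠ c := by
    intro g hg x hx h
    apply hx
    rw [← hg]
    simp only [Xc, mem_filter, mem_univ, true_and]
    exact h
  have hcc : ∀ g : Site d k → Fin (m + 1), Xc c g = Y → ∀ x, x ∈ Y → g x = c := by
    intro g hg x hx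
    rw [← hg] at hx
    simpa only [Xc, mem_filter, mem_univ, true_and] using hx
  have hF1 : ∀ p x (hx : x ∈ Y), F p x = p.2 ⟨x, hx⟩ := by
    intro p x hx
    exact dif_pos hx
  have hF2 : ∀ p x, x ∉ Y → ∀ hg : p.1 x ≠ c, F p x = e.symm ⟨p.1 x, hg⟩ := by
    intro p x hx hg
    exact (dif_neg hx).trans (dif_neg hg)
  rw [A2_cG (gV Yᶜ) (univ.filter fun f : Site d k → Fin m => PrG (gV Yᶜ) f)
    (fun f => by rw [mem_filter]; exact ⟨fun h => h.2, fun h => ⟨mem_univ _, h⟩⟩)]
  have hcard := Finset.card_le_card_of_injOn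
    (s := ((prps d k (m + 1)).filter fun g => Xc c g = Y) ×ˢ (univ : Finset (Y → Fin m)))
    (t := univ.filter fun f : Site d k → Fin m => PrG (gV Yᶜ) f) F ?_ ?_
  · rw [Finset.card_product, Finset.card_univ, Fintype.card_fun, Fintype.card_fin,
      Fintype.card_coe, mul_comm] at hcard
    exact_mod_cast hcard
  · rintro ⟨g, h⟩ hp
    simp only [Finset.coe_product, Finset.coe_filter, Finset.coe_univ, Set.mem_prod,
      Set.mem_ofPred_eq, Set.mem_univ, and_true, prps, mem_filter, mem_univ, true_and] at hp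
    obtain ⟨hg, hY⟩ := hp
    simp only [Finset.coe_filter, mem_univ, true_and, Set.mem_ofPred_eq]
    rintro x y ⟨_, hx, hy, ⟨σ, rfl⟩, _⟩
    rw [mem_compl] at hx hy
    rw [hF2 (g, h) x hx (hnc g hY x hx), hF2 (g, h) _ hy (hnc g hY _ hy)]
    intro heq
    have h1 := e.symm.injective heq
    exact hg x σ (congrArg Subtype.val h1).symm
  · rintro ⟨g, h⟩ hp ⟨g', h'⟩ hp' heq
    simp only [Finset.coe_product, Finset.coe_filter, Finset.coe_univ, Set.mem_prod,
      Set.mem_ofPred_eq, Set.mem_univ, and_true, prps, mem_filter, mem_univ, true_and] at hp hp'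
    obtain ⟨-, hY⟩ := hp
    obtain ⟨-, hY'⟩ := hp'
    refine Prod.ext ?_ ?_
    · funext x
      by_cases hx : x ∈ Y
      · exact (hcc g hY x hx).trans (hcc g' hY' x hx).symm
      · have h1 := congrFun heq x
        rw [hF2 (g, h) x hx (hnc g hY x hx), hF2 (g', h') x hx (hnc g' hY' x hx)] at h1
        exact congrArg Subtype.val (e.symm.injective h1)
    · funext ⟨x, hx⟩
      have h1 := congrFun heq x
      rw [hF1 (g, h) x hx, hF1 (g', h') x hx] at h1
      exact h1

private theorem A2_num {d m : ℕ} (h : Rg d (m + 1)) (hm : 999 ≤ m) :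
    1 ≤ (2 * Real.exp 2100 / ((m + 1 : ℕ) : ℝ)) * (m * (1 - 1 / (m : ℝ)) ^ (2 * d)) := by
  have hm' : (999 : ℝ) ≤ m := by exact_mod_cast hm
  have hm0 : (0 : ℝ) < m := by linarith
  have hd : (2 * d : ℝ) ≤ 2000 * (m + 1) := by exact_mod_cast h.2.2
  have hx : (0 : ℝ) < 1 / (m - 1) := by
    apply div_pos one_pos
    linarith
  have h1 : Real.exp (-(1 / ((m : ℝ) - 1))) ≤ 1 - 1 / m := by
    have h2 : 1 + 1 / ((m : ℝ) - 1) ≤ Real.exp (1 / ((m : ℝ) - 1)) := by
      have := Real.add_one_le_exp (1 / ((m : ℝ) - 1))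
      linarith
    have h3 : 1 - 1 / (m : ℝ) = (1 + 1 / ((m : ℝ) - 1))⁻¹ := by
      have h30 : (m : ℝ) - 1 ≠ 0 := by linarith
      have h31 : (m : ℝ) ≠ 0 := hm0.ne'
      have h32 : 1 + 1 / ((m : ℝ) - 1) = m / (m - 1) := by
        field_simp
        ring
      rw [h32, inv_div, sub_div, div_self h31]
    rw [h3, Real.exp_neg]
    exact inv_anti₀ (by linarith) h2
  have h4 : Real.exp (-2100) ≤ (1 - 1 / (m : ℝ)) ^ (2 * d) := by
    calc Real.exp (-2100) ≤ Real.exp (-(1 / ((m : ℝ) - 1)) * (2 * d : ℕ)) := by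
          apply Real.exp_le_exp.2
          have h5 : 1 / ((m : ℝ) - 1) * (2 * d) ≤ 2100 := by
            rw [one_div, ← div_eq_inv_mul, div_le_iff₀ (by linarith)]
            linarith
          push_cast
          linarith
      _ = Real.exp (-(1 / ((m : ℝ) - 1))) ^ (2 * d) := by
          rw [← Real.exp_nat_mul]
          congr 1
          ring
      _ ≤ _ := by gcongr
  have h5 : (2 * Real.exp 2100 / ((m + 1 : ℕ) : ℝ)) * (m * Real.exp (-2100)) = 2 * m / (m + 1) := by
    rw [Real.exp_neg]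
    push_cast
    have := (Real.exp_pos 2100).ne'
    field_simp
  calc (1 : ℝ) ≤ 2 * m / (m + 1) := by
        rw [le_div_iff₀ (by linarith)]
        linarith
    _ = (2 * Real.exp 2100 / ((m + 1 : ℕ) : ℝ)) * (m * Real.exp (-2100)) := h5.symm
    _ ≤ _ := by gcongr

open scoped Classical in
private theorem A2_removal {d k q : ℕ} (hk : 2 ≤ k) (h : Rg d q) (hq : 1000 ≤ q) (c : Fin q)
    (Y : Finset (Site d k)) :
    (((prps d k q).filter fun g => Xc c g = Y).card : ℝ) ≤
      (2 * Real.exp 2100 / (q : ℝ)) ^ Y.card * ZZ d k (q - 1) := by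
  obtain ⟨m, rfl⟩ : ∃ m, q = m + 1 := ⟨q - 1, by omega⟩
  rw [Nat.add_sub_cancel]
  have hm : 999 ≤ m := by omega
  have hm' : (999 : ℝ) ≤ m := by exact_mod_cast hm
  have hm0 : (0 : ℝ) < m := by linarith
  have h0 : 0 ≤ 1 - 1 / (m : ℝ) := by
    have : 1 / (m : ℝ) ≤ 1 := by
      rw [div_le_one hm0]
      linarith
    linarith
  have h01 : 1 - 1 / (m : ℝ) ≤ 1 := by
    have : 0 ≤ 1 / (m : ℝ) := by positivity
    linarith
  set n : ℝ := (((prps d k (m + 1)).filter fun g => Xc c g = Y).card : ℝ) with hn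
  have hn0 : 0 ≤ n := by rw [hn]; positivity
  set E : Finset (Site d k × Site d k) := (Y ×ˢ (univ : Finset (Stp d))).image fun p => (p.1, p.1 + sv p.2) with hE
  have hEc : E.card ≤ 2 * d * Y.card := by
    calc E.card ≤ (Y ×ˢ (univ : Finset (Stp d))).card := Finset.card_image_le
      _ = 2 * d * Y.card := by
          rw [Finset.card_product, Finset.card_univ, Fintype.card_prod, Fintype.card_fin, Fintype.card_bool]
          ring
  have h1 := A2_free (d := d) (k := k) (m := m) (by omega) c Y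
  rw [← hn] at h1
  have h2 := add_edges (q := m) (G := gV (Yᶜ)) (G' := gV (univ : Finset (Site d k))) (A2_par (by omega))
    (fun x y hxy => ⟨hxy.1, mem_univ _, mem_univ _, hxy.2.2.2⟩) (by omega) E (by
      rintro x y ⟨hne, _, _, ⟨σ, hσ⟩, ⟨τ, hτ⟩⟩
      by_cases hx : x ∈ Y
      · right; left
        rw [hE, mem_image]
        exact ⟨(x, σ), mem_product.2 ⟨hx, mem_univ _⟩, by rw [hσ]⟩
      · by_cases hy : y ∈ Y
        · right; right
          rw [hE, mem_image]
          exact ⟨(y, τ), mem_product.2 ⟨hy, mem_univ _⟩, by rw [hτ]⟩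
        · left
          exact ⟨hne, mem_compl.2 hx, mem_compl.2 hy, ⟨σ, hσ⟩, ⟨τ, hτ⟩⟩)
  have h3 := A2_ZZ (d := d) (k := k) (m := m) (by omega)
  have h4 : ((m : ℝ) * (1 - 1 / (m : ℝ)) ^ (2 * d)) ^ Y.card * n ≤ ZZ d k m := by
    calc ((m : ℝ) * (1 - 1 / (m : ℝ)) ^ (2 * d)) ^ Y.card * n
        = (1 - 1 / (m : ℝ)) ^ (2 * d * Y.card) * ((m : ℝ) ^ Y.card * n) := by
          rw [mul_pow, ← pow_mul]; ring
      _ ≤ (1 - 1 / (m : ℝ)) ^ E.card * ((m : ℝ) ^ Y.card * n) := by
          apply mul_le_mul_of_nonneg_right _ (by positivity)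
          exact pow_le_pow_of_le_one h0 h01 hEc
      _ ≤ (1 - 1 / (m : ℝ)) ^ E.card * cG (gV Yᶜ) (fun _ : Site d k → Fin m => True) := by
          apply mul_le_mul_of_nonneg_left h1 (by positivity)
      _ ≤ cG (gV (univ : Finset (Site d k))) (fun _ : Site d k → Fin m => True) := h2
      _ ≤ ZZ d k m := h3
  have h5 := A2_num h hm
  have h6 : 1 ≤ ((2 * Real.exp 2100 / ((m + 1 : ℕ) : ℝ)) * (m * (1 - 1 / (m : ℝ)) ^ (2 * d))) ^ Y.card :=
    one_le_pow₀ h5
  calc n = 1 * n := (one_mul n).symm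
    _ ≤ ((2 * Real.exp 2100 / ((m + 1 : ℕ) : ℝ)) * (m * (1 - 1 / (m : ℝ)) ^ (2 * d))) ^ Y.card * n := by
        gcongr
    _ = (2 * Real.exp 2100 / ((m + 1 : ℕ) : ℝ)) ^ Y.card * (((m : ℝ) * (1 - 1 / (m : ℝ)) ^ (2 * d)) ^ Y.card * n) := by
        rw [mul_pow]; ring
    _ ≤ (2 * Real.exp 2100 / ((m + 1 : ℕ) : ℝ)) ^ Y.card * ZZ d k m := by gcongr

/-- sums over small sets -/
private theorem A2_sum {d k : ℕ} {l σ J : ℝ} (hl : 0 ≤ l) (hσ : 0 ≤ σ) :
    ∑ Y ∈ (univ : Finset (Finset (Site d k))).filter (fun Y => (Y.card : ℝ) ≤ J), l ^ Y.card ≤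
      Real.exp (σ * J + l * Real.exp (-σ) * NN d k) := by
  classical
  have h1 : ∀ Y ∈ (univ : Finset (Finset (Site d k))).filter (fun Y => (Y.card : ℝ) ≤ J),
      l ^ Y.card ≤ Real.exp (σ * J) * (l * Real.exp (-σ)) ^ Y.card := by
    intro Y hY
    have hY' := (mem_filter.1 hY).2
    have h2 : 1 ≤ Real.exp (σ * J) * Real.exp (-σ) ^ Y.card := by
      rw [← Real.exp_nat_mul, ← Real.exp_add]
      apply Real.one_le_exp
      nlinarith
    calc l ^ Y.card = l ^ Y.card * 1 := (mul_one _).symm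
      _ ≤ l ^ Y.card * (Real.exp (σ * J) * Real.exp (-σ) ^ Y.card) := by gcongr
      _ = Real.exp (σ * J) * (l * Real.exp (-σ)) ^ Y.card := by rw [mul_pow]; ring
  have h3 : ∑ Y : Finset (Site d k), (l * Real.exp (-σ)) ^ Y.card =
      (l * Real.exp (-σ) + 1) ^ Fintype.card (Site d k) := by
    have := Fintype.sum_pow_mul_eq_add_pow (Site d k) (l * Real.exp (-σ)) 1
    simpa using this
  calc ∑ Y ∈ (univ : Finset (Finset (Site d k))).filter (fun Y => (Y.card : ℝ) ≤ J), l ^ Y.card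
      ≤ ∑ Y ∈ (univ : Finset (Finset (Site d k))).filter (fun Y => (Y.card : ℝ) ≤ J),
          Real.exp (σ * J) * (l * Real.exp (-σ)) ^ Y.card := Finset.sum_le_sum h1
    _ ≤ ∑ Y : Finset (Site d k), Real.exp (σ * J) * (l * Real.exp (-σ)) ^ Y.card :=
        Finset.sum_le_sum_of_subset_of_nonneg (Finset.filter_subset _ _) fun _ _ _ => by positivity
    _ = Real.exp (σ * J) * (l * Real.exp (-σ) + 1) ^ Fintype.card (Site d k) := by
        rw [← Finset.mul_sum, h3]
    _ ≤ Real.exp (σ * J) * Real.exp (l * Real.exp (-σ)) ^ Fintype.card (Site d k) := by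
        gcongr
        exact Real.add_one_le_exp _
    _ = Real.exp (σ * J + l * Real.exp (-σ) * NN d k) := by
        rw [← Real.exp_nat_mul, ← Real.exp_add, card_site]
        congr 1
        ring

theorem few_count (hd : 10000 ≤ d) (hk : 2 ≤ k) (h : Rg d q) (hq : 1000 ≤ q) (c : Fin q) :
    cn (fun f : Site d k → Fin q => Prp f ∧ cn (fun v => f v = c) ≤ NN d k / (20 * q) ∧
      cn (fun v => f v = c ∧ (av f v : ℝ) < q / 4) ≤ 1 / 10 ^ 6 * NN d k / q) ≤
      ZZ d k (q - 1) * Real.exp (3 / 10 * (NN d k / q)) := by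
  classical
  have hqR : (1000 : ℝ) ≤ q := by exact_mod_cast hq
  have hq0 : (0 : ℝ) < q := by linarith
  have hN : 0 < NN d k := by
    unfold NN
    positivity
  set JI : ℝ := NN d k / (20 * q) with hJI
  set JY : ℝ := 1 / 10 ^ 6 * NN d k / q with hJY
  set SI := (univ : Finset (Finset (Site d k))).filter (fun Y => (Y.card : ℝ) ≤ JI) with hSI
  set SY := (univ : Finset (Finset (Site d k))).filter (fun Y => (Y.card : ℝ) ≤ JY) with hSY
  set P : (Site d k → Fin q) → Prop := fun f => Prp f ∧ cn (fun v => f v = c) ≤ JI ∧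
      cn (fun v => f v = c ∧ (av f v : ℝ) < q / 4) ≤ JY with hP
  have hX : ∀ f : Site d k → Fin q, cn (fun v => f v = c) = ((Xc c f).card : ℝ) := by
    intro f
    exact A2_cn _ _ fun v => by
      unfold Xc
      rw [mem_filter]
      exact ⟨fun h => h.2, fun h => ⟨mem_univ _, h⟩⟩
  have hYY : ∀ f : Site d k → Fin q, cn (fun v => f v = c ∧ (av f v : ℝ) < q / 4) = ((A2_Y c f).card : ℝ) := by
    intro f
    exact A2_cn _ _ fun v => by
      unfold A2_Y
      rw [mem_filter]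
      exact ⟨fun h => h.2, fun h => ⟨mem_univ _, h⟩⟩
  have hcnP : cn P = ((univ.filter P).card : ℝ) := by
    exact A2_cn _ _ fun v => by
      rw [mem_filter]
      exact ⟨fun h => h.2, fun h => ⟨mem_univ _, h⟩⟩
  rw [hcnP]
  have hmaps : ∀ f ∈ univ.filter P, (Xc c f \ A2_Y c f, A2_Y c f) ∈ SI ×ˢ SY := by
    intro f hf
    obtain ⟨_, h1, h2⟩ := (mem_filter.1 hf).2
    rw [hX] at h1
    rw [hYY] at h2
    rw [mem_product, hSI, hSY, mem_filter, mem_filter]
    refine ⟨⟨mem_univ _, ?_⟩, mem_univ _, h2⟩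
    refine le_trans ?_ h1
    exact_mod_cast Finset.card_le_card Finset.sdiff_subset
  rw [Finset.card_eq_sum_card_fiberwise hmaps, Nat.cast_sum]
  have hfib : ∀ p ∈ SI ×ˢ SY, (((univ.filter P).filter fun f => (Xc c f \ A2_Y c f, A2_Y c f) = p).card : ℝ) ≤
      (5 / (q : ℝ)) ^ p.1.card * ((2 * Real.exp 2100 / (q : ℝ)) ^ p.2.card * ZZ d k (q - 1)) := by
    rintro ⟨I, Y⟩ _
    have h1 := A2_recol (d := d) (k := k) (q := q) (by omega) c I Y
    have h2 := A2_removal hk h hq c Y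
    have h3 : (((univ.filter P).filter fun f => (Xc c f \ A2_Y c f, A2_Y c f) = (I, Y)).card : ℝ) ≤
        (((prps d k q).filter fun f => Xc c f \ A2_Y c f = I ∧ A2_Y c f = Y).card : ℝ) := by
      rw [Nat.cast_le]
      refine Finset.card_le_card fun f hf => ?_
      rw [mem_filter] at hf
      obtain ⟨hf1, hf2⟩ := hf
      obtain ⟨hf3, hf4⟩ := Prod.mk.inj hf2
      refine mem_filter.2 ⟨?_, hf3, hf4⟩
      unfold prps
      exact mem_filter.2 ⟨mem_univ _, (mem_filter.1 hf1).2.1⟩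
    have h4 : (5 / (q : ℝ)) ^ I.card * ((q : ℝ) / 5) ^ I.card = 1 := by
      rw [← mul_pow]
      have : 5 / (q : ℝ) * ((q : ℝ) / 5) = 1 := by field_simp
      rw [this, one_pow]
    calc (((univ.filter P).filter fun f => (Xc c f \ A2_Y c f, A2_Y c f) = (I, Y)).card : ℝ)
        ≤ (((prps d k q).filter fun f => Xc c f \ A2_Y c f = I ∧ A2_Y c f = Y).card : ℝ) := h3
      _ = (5 / (q : ℝ)) ^ I.card *
          ((((prps d k q).filter fun f => Xc c f \ A2_Y c f = I ∧ A2_Y c f = Y).card : ℝ) * ((q : ℝ) / 5) ^ I.card) := by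
          rw [mul_comm ((((prps d k q).filter fun f => Xc c f \ A2_Y c f = I ∧ A2_Y c f = Y).card : ℝ)), ← mul_assoc,
            h4, one_mul]
      _ ≤ (5 / (q : ℝ)) ^ I.card * (((prps d k q).filter fun g => Xc c g = Y).card : ℝ) := by gcongr
      _ ≤ _ := by gcongr
  have hI : ∑ Y ∈ SI, (5 / (q : ℝ)) ^ Y.card ≤ Real.exp (4 * JI + 5 / (q : ℝ) * Real.exp (-4) * NN d k) :=
    A2_sum (by positivity) (by norm_num)
  have hY : ∑ Y ∈ SY, (2 * Real.exp 2100 / (q : ℝ)) ^ Y.card ≤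
      Real.exp (2200 * JY + 2 * Real.exp 2100 / (q : ℝ) * Real.exp (-2200) * NN d k) :=
    A2_sum (by positivity) (by norm_num)
  have hZ : 0 ≤ ZZ d k (q - 1) := by
    unfold ZZ
    positivity
  have he4 : Real.exp (-4) ≤ 1 / 54 := by
    rw [Real.exp_neg, one_div]
    apply inv_anti₀ (by norm_num)
    have h1 : Real.exp 4 = Real.exp 1 ^ 4 := by
      rw [← Real.exp_nat_mul]; norm_num
    rw [h1]
    have h2 := Real.exp_one_gt_d9
    calc (54 : ℝ) ≤ 2.7182818283 ^ 4 := by norm_num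
      _ ≤ Real.exp 1 ^ 4 := by gcongr
  have he5 : 2 * Real.exp 2100 / (q : ℝ) * Real.exp (-2200) ≤ 1 / 1000 / q := by
    have h1 : Real.exp 2100 * Real.exp (-2200) = Real.exp (-100) := by
      rw [← Real.exp_add]; norm_num
    have h2 : Real.exp (-100) ≤ 1 / 2000 := by
      rw [Real.exp_neg, one_div]
      apply inv_anti₀ (by norm_num)
      have h3 : Real.exp 100 = Real.exp 4 ^ 25 := by
        rw [← Real.exp_nat_mul]; norm_num
      have h4 : (5 : ℝ) ≤ Real.exp 4 := by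
        have := Real.add_one_le_exp (4 : ℝ)
        linarith
      rw [h3]
      calc (2000 : ℝ) ≤ 5 ^ 25 := by norm_num
        _ ≤ Real.exp 4 ^ 25 := by gcongr
    calc 2 * Real.exp 2100 / (q : ℝ) * Real.exp (-2200) = 2 * (Real.exp 2100 * Real.exp (-2200)) / q := by ring
      _ ≤ 2 * (1 / 2000) / q := by
          rw [h1]
          gcongr
      _ = 1 / 1000 / q := by norm_num
  calc ∑ p ∈ SI ×ˢ SY, (((univ.filter P).filter fun f => (Xc c f \ A2_Y c f, A2_Y c f) = p).card : ℝ)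
      ≤ ∑ p ∈ SI ×ˢ SY, (5 / (q : ℝ)) ^ p.1.card * ((2 * Real.exp 2100 / (q : ℝ)) ^ p.2.card * ZZ d k (q - 1)) :=
        Finset.sum_le_sum hfib
    _ = (∑ Y ∈ SI, (5 / (q : ℝ)) ^ Y.card) * (∑ Y ∈ SY, (2 * Real.exp 2100 / (q : ℝ)) ^ Y.card) *
          ZZ d k (q - 1) := by
        rw [Finset.sum_product, Finset.sum_mul_sum, Finset.sum_mul]
        refine Finset.sum_congr rfl fun I _ => ?_
        rw [Finset.sum_mul]
        refine Finset.sum_congr rfl fun Y _ => ?_
        ring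
    _ ≤ Real.exp (4 * JI + 5 / (q : ℝ) * Real.exp (-4) * NN d k) *
        Real.exp (2200 * JY + 2 * Real.exp 2100 / (q : ℝ) * Real.exp (-2200) * NN d k) * ZZ d k (q - 1) := by
        gcongr
    _ ≤ ZZ d k (q - 1) * Real.exp (3 / 10 * (NN d k / q)) := by
        rw [mul_comm, ← Real.exp_add]
        apply mul_le_mul_of_nonneg_left _ hZ
        apply Real.exp_le_exp.2
        have e1 : 4 * JI = 1 / 5 * (NN d k / q) := by
          rw [hJI]; field_simp; norm_num
        have e2 : 5 / (q : ℝ) * Real.exp (-4) * NN d k ≤ 5 / 54 * (NN d k / q) := by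
          calc 5 / (q : ℝ) * Real.exp (-4) * NN d k ≤ 5 / (q : ℝ) * (1 / 54) * NN d k := by gcongr
            _ = 5 / 54 * (NN d k / q) := by ring
        have e3 : 2200 * JY = 22 / 10 ^ 4 * (NN d k / q) := by
          rw [hJY]; ring
        have e4 : 2 * Real.exp 2100 / (q : ℝ) * Real.exp (-2200) * NN d k ≤ 1 / 1000 * (NN d k / q) := by
          calc 2 * Real.exp 2100 / (q : ℝ) * Real.exp (-2200) * NN d k ≤ 1 / 1000 / q * NN d k := by gcongr
            _ = 1 / 1000 * (NN d k / q) := by ring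
        have e5 : 0 < NN d k / q := by positivity
        rw [e1, e3]
        linarith

end Pool.Agent.LC

end
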