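import Pool.Agent.Lib_MP_2c424f_m.M15
import Pool.Agent.Lib_MP_2c424f_m.M22
import Pool.Agent.Lib_MP_2c424f_m.M24
import Pool.Agent.Lib_MP_2c424f_m.M25
import Pool.Agent.Lib_MP_2c424f_m.M27
import Pool.Agent.Lib_MP_2c424f_m.M29
import Pool.Agent.Lib_MP_2c424f_m.M30
import Pool.Agent.Lib_MP_2c424f_m.M31
import Pool.Agent.Lib_MP_2c424f_m.M33
import Pool.Agent.Lib_MP_2c424f_m.M40

/-!
# MP_2c424f_pr, q_c grows linearly: merged library part M41

Concatenation of smaller files (each in its own section), only to save build time.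
-/

namespace Pool.Agent.LO
end Pool.Agent.LO

namespace Pool.Agent.LIN
end Pool.Agent.LIN

namespace Pool.Agent.THR
end Pool.Agent.THR

namespace Pool.Agent.COR
end Pool.Agent.COR

/-! ### from `Lib_MP_2c424f_cor.EDefs` -/

section

/-!
# Surgery: definitions

`h = 2 d^30`, `w = 2 d^33`, the free box `G = {0,…,n}^d`, `n = w 2^K - 2`, inside the torus of side `2^(k+1) ≥ n + 4`.
Surgery boxes `D = [a,b]`: `w ∣ a i`, `b i - a i = w - 2` (or `2 w - 2` for at most one `i`).  A side `σ = (i, true)` (upper) or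
`(i, false)` (lower) is active if `D` does not touch the boundary of `G` there.  `qa σ`, `qb σ` = corners of the shell box of an
active side.
-/

set_option autoImplicit false

open Finset

namespace Pool.Agent.COR

open Pool.Agent.LO

/-- thickness of the shells -/
def hC (d : ℕ) : ℕ := 2 * d ^ 30

/-- side of the large blocks -/
def wC (d : ℕ) : ℕ := 2 * d ^ 33

/-- the free box is `{0,…,nC}^d` -/
def nC (d K : ℕ) : ℕ := wC d * 2 ^ K - 2

/-- `w^(d-1)` -/
noncomputable def W1 (d : ℕ) : ℝ := (wC d : ℝ) ^ (d - 1)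

/-- the free box in the torus -/
noncomputable def GB (d K k : ℕ) : Finset (Site d (k + 1)) := bx (fun _ => 0) (fun _ => nC d K)

/-- surgery boxes -/
def dbx (d K : ℕ) (a b : Fin d → ℕ) : Prop :=
  (∀ i, wC d ∣ a i ∧ b i ≤ nC d K ∧ (b i + 2 = a i + wC d ∨ b i + 2 = a i + 2 * wC d)) ∧
    ∃ i₀, ∀ i, i ≠ i₀ → b i + 2 = a i + wC d

/-- lower corner of the neighbourhood of `D` -/
def elo (d : ℕ) (a : Fin d → ℕ) : Fin d → ℕ := fun j => a j - (2 * hC d + 2)

/-- upper corner of the neighbourhood of `D` -/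
def ehi (d K : ℕ) (b : Fin d → ℕ) : Fin d → ℕ := fun j => min (nC d K) (b j + (2 * hC d + 2))

open scoped Classical in
/-- the active sides -/
noncomputable def sd (d K : ℕ) (a b : Fin d → ℕ) : Finset (Stp d) :=
  univ.filter fun σ => if σ.2 then b σ.1 < nC d K else 0 < a σ.1

/-- lower corner of the shell box of a side -/
def qa (d : ℕ) (a b : Fin d → ℕ) (σ : Stp d) : Fin d → ℕ :=
  Function.update (elo d a) σ.1 (if σ.2 then b σ.1 + 2 else a σ.1 - (2 * hC d + 2))

/-- upper corner of the shell box of a side -/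
def qb (d K : ℕ) (a b : Fin d → ℕ) (σ : Stp d) : Fin d → ℕ :=
  Function.update (ehi d K b) σ.1 (if σ.2 then b σ.1 + (2 * hC d + 2) else a σ.1 - 2)

/-- the shell box of a side -/
noncomputable def QB (d K k : ℕ) (a b : Fin d → ℕ) (σ : Stp d) : Finset (Site d (k + 1)) :=
  bx (qa d a b σ) (qb d K a b σ)

/-- the 2-blocks in the shell box -/
noncomputable def GQ (d K k : ℕ) (a b : Fin d → ℕ) (σ : Stp d) : Finset (Blk d k) :=
  gr (qa d a b σ) (qb d K a b σ)

open scoped Classical in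
/-- number of coordinates in which `x` is on the boundary of `[a,b]` -/
noncomputable def bdc {d k : ℕ} (a b : Fin d → ℕ) (x : Site d k) : ℕ :=
  (univ.filter fun i => (x i).val = a i ∨ (x i).val = b i).card

open scoped Classical in
/-- outer boundary of `S` in `V` -/
noncomputable def bdo {d k : ℕ} (V S : Finset (Site d k)) : Finset (Site d k) :=
  (V \ S).filter fun y => ∃ x ∈ S, ∃ σ : Stp d, y = x + sv σ

/-- the lower corner of the surgery region -/
def sa {d : ℕ} (a : Fin d → ℕ) (s : Stp d → ℕ) : Fin d → ℕ := fun i => if 0 < a i then a i - s (i, false) else a i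

/-- the upper corner of the surgery region -/
def sb {d : ℕ} (n : ℕ) (b : Fin d → ℕ) (s : Stp d → ℕ) : Fin d → ℕ :=
  fun i => if b i < n then b i + s (i, true) else b i

/-- the surgery region -/
noncomputable def SB (d K k : ℕ) (a b : Fin d → ℕ) (s : Stp d → ℕ) : Finset (Site d (k + 1)) :=
  bx (sa a s) (sb (nC d K) b s)

/-- admissible thicknesses -/
def okS (d : ℕ) (s : Stp d → ℕ) : Prop := ∀ σ, Odd (s σ) ∧ hC d < s σ ∧ s σ < 2 * hC d

end Pool.Agent.COR

end

/-! ### from `Lib_MP_2c424f_thr.M6` -/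

section

/-!
# THR M6: good colourings

`avail 4`, `grad_gg` (fixes `t`, `C₆`), `smooth t`, `hom_det`, `avl_wop`, `lln_wop`, `mf_det`, `sm_det`; union of the rare events
(`WOP.and`, `WOP.mono`).
-/

set_option autoImplicit false

open Finset Filter

namespace Pool.Agent.THR

open Pool.Agent.LO Pool.Agent.LIN

theorem good_wop {ε : ℝ} (hε : 0 < ε) (hε1 : ε ≤ 1) : ∃ (t : ℕ) (C₆ : ℝ), Even t ∧ 20 ≤ t ∧ 0 < C₆ ∧
    ∀ δ : ℝ, 0 < δ → WOP ε fun _ _ _ f => Good ε δ C₆ t f := by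
  obtain ⟨t, C₆, hte, ht, hC, hgr⟩ := grad_gg hε hε1
  refine ⟨t, C₆, hte, ht, hC, fun δ hδ => ?_⟩
  obtain ⟨δs, hδs, hsm⟩ := sm_det hε hε1 t hte (le_trans (by norm_num) ht) δ hδ
  have hδ1 : 0 < min δ δs := lt_min hδ hδs
  obtain ⟨δm, hδm, hmf⟩ := mf_det hε hε1 (min δ δs) hδ1
  have hδ2 : 0 < min (min δ δs) δm := lt_min hδ1 hδm
  have hhom := hom_det hε hε1 t (le_trans (by norm_num) ht) C₆ hC (min (min δ δs) δm) hδ2
  have hW := ((((avail hε hε1 4).and hgr).and (smooth hε hε1 t hte ht)).and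
    (avl_wop hε hε1 (min (min δ δs) δm) hδ2)).and (lln_wop hε hε1 δm hδm)
  refine hW.mono ?_
  refine ((hhom.and hmf).and hsm).mono ?_
  rintro d k q ⟨⟨h1, h2⟩, h3⟩ f hf ⟨⟨⟨⟨hirr, hgrad⟩, hsmo⟩, havl⟩, hlln⟩
  have hN : (0 : ℝ) ≤ NN d k := by
    unfold NN
    positivity
  have a1 : min (min δ δs) δm ≤ δ := le_trans (min_le_left _ _) (min_le_left _ _)
  have a2 : min (min δ δs) δm ≤ δs := le_trans (min_le_left _ _) (min_le_right _ _)
  have a3 : min (min δ δs) δm ≤ δm := min_le_right _ _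
  have a4 : min δ δs ≤ δ := min_le_left _ _
  have a5 : min δ δs ≤ δs := min_le_right _ _
  have hhom' : ∀ (c : Fin q) (σ τ : Stp d), ∑ x : Site d k, (hh c f (x + sv σ) - hh c f (x + sv τ)) ^ 2 ≤
      min (min δ δs) δm * NN d k := fun c σ τ => h1 f hf hirr c σ τ (hgrad c σ τ)
  have hmf' : ∀ (c : Fin q) (σ : Stp d), ∑ u : Site d k, (hh c f u - ra d q * ya c f (u + sv σ)) ^ 2 ≤
      min δ δs * NN d k :=
    h2 f hf hirr (fun c σ τ => (hhom' c σ τ).trans (mul_le_mul_of_nonneg_right a3 hN))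
      (havl.trans (mul_le_mul_of_nonneg_right a3 hN)) hlln
  obtain ⟨s0, s1, s2⟩ := h3 f hf (fun c σ τ => (hhom' c σ τ).trans (mul_le_mul_of_nonneg_right a2 hN))
    (fun c σ => (hmf' c σ).trans (mul_le_mul_of_nonneg_right a5 hN))
  exact
    { irr4 := hirr
      grad := hgrad
      smo := hsmo
      hom := fun c σ τ => (hhom' c σ τ).trans (mul_le_mul_of_nonneg_right a1 hN)
      avl := havl.trans (mul_le_mul_of_nonneg_right a1 hN)
      mf := fun c σ => (hmf' c σ).trans (mul_le_mul_of_nonneg_right a4 hN)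
      sm0 := s0
      sm1 := s1
      sm2 := s2 }

end Pool.Agent.THR

end

/-! ### from `Lib_MP_2c424f_thr.C5` -/

section

/-!
# THR C5: the environment is pinned (paper proof: C5)

Fix `δ`.  `J_det` with `δ/8`, `Z_lower` with `δ/8`, `sample_num` with `δ/8`.  `F` = proper colourings which are good (`δ'`) with
`∑_{u ∈ b} mc (L (ya_u)) > δN`.  For every `f ∈ F` take `R` from `sample_H`; for fixed `R` use `code` with `Hf = Hs t R`,
`Λ = (N/2)(2 log q + Phi) - δN + δN/8`.  Union bound over the sets `R` (the sample depends on `f`), `sample_num` counts them and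
contains the factor `q^|R|` of `code`: `|F| ≤ exp (δN/8) exp Λ ≤ Z exp (-δN/2)`, which is `Rar`.  Union with the rare event of `good_wop`.
-/

set_option autoImplicit false

open Finset Filter

namespace Pool.Agent.THR

open Pool.Agent.LO Pool.Agent.LIN

open scoped Classical in
/-- one step: the number of good colourings with a large deficit -/
private theorem C5_count {d k q : ℕ} (hk : 1 ≤ k) (hq : 1 ≤ q) (b : Bool) (t : ℕ) (N r Λ δn : ℝ)
    (F : Finset (Site d k → Fin q)) (hF : F ⊆ prps d k q) (G : (Site d k → Fin q) → Finset (Site d k) → Prop)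
    (hR : ∀ f ∈ F, ∃ R : Finset (Site d k), (R.card : ℝ) ≤ r ∧ G f R)
    (hJ : ∀ f ∈ F, ∀ R : Finset (Site d k), G f R → JJ b (Hs t R f) f ≤ Λ)
    (hn : (((univ : Finset (Finset (Site d k))).filter fun R => (R.card : ℝ) ≤ r).card : ℝ) * (q : ℝ) ^ r ≤
      Real.exp (δn * N)) : (F.card : ℝ) ≤ Real.exp (δn * N) * Real.exp Λ := by
  have hq1 : (1 : ℝ) ≤ q := by exact_mod_cast hq
  have hsub : F ⊆ ((univ : Finset (Finset (Site d k))).filter fun R => (R.card : ℝ) ≤ r).biUnion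
      fun R => F.filter fun f => G f R := by
    intro f hf
    obtain ⟨R, h1, h2⟩ := hR f hf
    rw [mem_biUnion]
    exact ⟨R, mem_filter.2 ⟨mem_univ _, h1⟩, mem_filter.2 ⟨hf, h2⟩⟩
  have h1 : (F.card : ℝ) ≤ ∑ R ∈ (univ : Finset (Finset (Site d k))).filter fun R => (R.card : ℝ) ≤ r,
      ((F.filter fun f => G f R).card : ℝ) := by
    exact_mod_cast (card_le_card hsub).trans card_biUnion_le
  have h2 : ∀ R ∈ (univ : Finset (Finset (Site d k))).filter fun R => (R.card : ℝ) ≤ r,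
      ((F.filter fun f => G f R).card : ℝ) ≤ (q : ℝ) ^ r * Real.exp Λ := by
    intro R hR
    have hR' : (R.card : ℝ) ≤ r := (mem_filter.1 hR).2
    have h3 := code hk hq b R (fun f => Hs t R f) (fun f g h => Hs_loc t R f g h) (F.filter fun f => G f R)
      ((filter_subset _ _).trans hF) Λ fun f hf => hJ f (mem_filter.1 hf).1 R (mem_filter.1 hf).2
    refine h3.trans (mul_le_mul_of_nonneg_right ?_ (Real.exp_pos _).le)
    rw [← Real.rpow_natCast]
    exact Real.rpow_le_rpow_of_exponent_le hq1 hR'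
  refine h1.trans ((sum_le_sum h2).trans ?_)
  rw [sum_const, nsmul_eq_mul, ← mul_assoc]
  exact mul_le_mul_of_nonneg_right hn (Real.exp_pos _).le

theorem env_wop {ε : ℝ} (hε : 0 < ε) (hε1 : ε ≤ 1) : ∃ (t : ℕ) (C₆ : ℝ), Even t ∧ 20 ≤ t ∧ 0 < C₆ ∧
    ∀ δ : ℝ, 0 < δ → WOP ε fun d k q f => Good ε δ C₆ t f ∧ ∀ (b : Bool) (m : ℝ), MFE (ra d q) m →
      ∑ u ∈ cls b d k, mc (fun c => LL (ra d q) m (ya c f u)) ≤ δ * NN d k := by
  classical
  obtain ⟨t, C₆, hte, ht, hC, hgood⟩ := good_wop hε hε1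
  refine ⟨t, C₆, hte, ht, hC, fun δ hδ => ?_⟩
  obtain ⟨δ', hδ', hJ⟩ := J_det hε hε1 C₆ t hte ht (δ / 8) (by positivity)
  have hS := sample_H hε hε1 t ht δ' hδ'
  have hn := sample_num hε hε1 (δ / 8) (by positivity)
  have hZ := Z_lower hε hε1 (δ / 8) (by positivity)
  have hW1 : WOPi ε (fun _ _ _ => Bool) fun d k q b f => Good ε δ' C₆ t f → ∀ m : ℝ, MFE (ra d q) m →
      ∑ u ∈ cls b d k, mc (fun c => LL (ra d q) m (ya c f u)) ≤ δ * NN d k := by
    refine ⟨1, ((((hJ.and hS).and hn).and hZ).and (EvT_reg hε hε1 (max 1 (2 / δ)))).mono ?_⟩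
    rintro d k q ⟨⟨⟨⟨HJ, HS⟩, Hn⟩, HZ⟩, hd1, hq1, hk1, -, -, hra, -, -⟩ b
    have hd : 1 ≤ d := by exact_mod_cast (le_max_left _ _).trans hd1
    have hq : 1 ≤ q := by exact_mod_cast (le_max_left _ _).trans hq1
    have hk : 1 ≤ k := by exact_mod_cast (le_max_left _ _).trans hk1
    have hdd : 2 / δ ≤ d := (le_max_right _ _).trans hd1
    have hd0 : (0 : ℝ) < d := by exact_mod_cast hd
    have hN : 0 ≤ NN d k := by unfold NN; positivity
    have hra1 : 1 < ra d q := by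
      refine lt_of_lt_of_le ?_ hra
      unfold a1
      rw [lt_div_iff₀ (by linarith)]
      linarith
    unfold Rar
    set F : Finset (Site d k → Fin q) := (prps d k q).filter fun f => ¬ (Good ε δ' C₆ t f → ∀ m : ℝ,
      MFE (ra d q) m → ∑ u ∈ cls b d k, mc (fun c => LL (ra d q) m (ya c f u)) ≤ δ * NN d k) with hFdef
    have hZ0 : 0 ≤ ZZ d k q := by unfold ZZ; positivity
    suffices hmain : (F.card : ℝ) ≤ ZZ d k q * Real.exp (-(NN d k / (d : ℝ) ^ 1)) by
      refine le_trans (le_of_eq ?_) hmain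
      rw [hFdef]
      exact congrArg Nat.cast (congrArg Finset.card (Finset.ext fun f => by simp only [mem_filter]))
    rcases F.eq_empty_or_nonempty with he | ⟨f₀, hf₀⟩
    · have h0 : (F.card : ℝ) = 0 := by rw [he]; simp
      rw [h0]
      exact mul_nonneg hZ0 (Real.exp_pos _).le
    · have hFs : F ⊆ prps d k q := filter_subset _ _
      have hZ1 : 0 < ZZ d k q := by
        unfold ZZ
        exact_mod_cast card_pos.2 ⟨f₀, hFs hf₀⟩
      obtain ⟨m, hm⟩ := mfe_exists (ra d q) hra1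
      have hFm : ∀ f ∈ F, Good ε δ' C₆ t f ∧
          δ * NN d k < ∑ u ∈ cls b d k, mc (fun c => LL (ra d q) m (ya c f u)) := by
        intro f hf
        have h1 := (mem_filter.1 hf).2
        push Not at h1
        obtain ⟨h2, m', hm', h3⟩ := h1
        rw [← mfe_unique (ra d q) m m' hra1 hm hm'] at h3
        exact ⟨h2, h3⟩
      set Λ : ℝ := NN d k / 2 * (2 * Real.log q + Phi (ra d q) m) - δ * NN d k + δ / 8 * NN d k with hΛ
      have h1 := C5_count hk hq b t (NN d k) (3 * NN d k / d) Λ (δ / 8) F hFs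
        (fun f R => ∑ u ∈ cls b d k, |Hs t R f u (f u) - ra d q * PP^[2 * t + 1] (bq (f u) f) u| ≤ δ' * NN d k ∧
          ∑ u ∈ cls b d k, mc (fun γ => |Hs t R f u γ - ra d q * PP^[2 * t + 1] (bq γ f) u|) ≤ δ' * NN d k)
        (fun f hf => HS b f (hFs hf))
        (fun f hf R hR => by
          have h2 := HJ b m hm f (hFs hf) (hFm f hf).1 R hR.1 hR.2
          have h3 := (hFm f hf).2
          rw [hΛ]
          linarith) (by convert Hn)
      have h2 := HZ m hm
      have h3 : Real.exp (δ / 8 * NN d k) * Real.exp Λ ≤ ZZ d k q * Real.exp (-(NN d k / (d : ℝ) ^ 1)) := by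
        rw [← Real.exp_add]
        calc Real.exp (δ / 8 * NN d k + Λ) ≤ Real.exp (Real.log (ZZ d k q) + -(NN d k / (d : ℝ) ^ 1)) := by
              refine Real.exp_le_exp.2 ?_
              have h4 : NN d k / (d : ℝ) ^ 1 ≤ δ / 2 * NN d k := by
                rw [pow_one, div_le_iff₀ hd0]
                have h5 : 1 ≤ δ / 2 * d := by
                  have h6 := mul_le_mul_of_nonneg_left hdd (by positivity : 0 ≤ δ / 2)
                  have h7 : δ / 2 * (2 / δ) = 1 := by field_simp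
                  linarith
                have h8 := mul_le_mul_of_nonneg_right h5 hN
                linarith
              have h9 : 0 ≤ δ * NN d k := by positivity
              rw [hΛ]
              linarith
          _ = ZZ d k q * Real.exp (-(NN d k / (d : ℝ) ^ 1)) := by
              rw [Real.exp_add, Real.exp_log hZ1]
      exact h1.trans h3
  have hW2 := WOPi.all hW1 (fun _ _ => 2) fun _ _ _ => by simp
  have hW3 := hgood (min δ δ') (lt_min hδ hδ')
  refine (hW3.and hW2).mono ⟨0, fun d q _ _ _ => Eventually.of_forall fun k f _ h => ?_⟩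
  obtain ⟨hG, hb⟩ := h
  have hN : 0 ≤ NN d k := by unfold NN; positivity
  have hmono : ∀ δ'' : ℝ, min δ δ' ≤ δ'' → Good ε δ'' C₆ t f := by
    intro δ'' hle
    have hb' : min δ δ' * NN d k ≤ δ'' * NN d k := mul_le_mul_of_nonneg_right hle hN
    exact ⟨hG.irr4, hG.grad, hG.smo, fun c σ τ => (hG.hom c σ τ).trans hb', hG.avl.trans hb',
      fun c σ => (hG.mf c σ).trans hb', fun c => (hG.sm0 c).trans hb', fun c σ => (hG.sm1 c σ).trans hb',
      fun c => (hG.sm2 c).trans hb'⟩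
  exact ⟨hmono δ (min_le_left _ _), fun b m hm => hb b (hmono δ' (min_le_right _ _)) m hm⟩

end Pool.Agent.THR

end

/-! ### from `Lib_MP_2c424f_thr.A5` -/

section

/-!
# THR A5: consequences for good colourings (paper proof: A5)

`a = ra d q`, `a1 ε ≤ a ≤ A0 ε` (`EvT_reg`), `1 < a1 ε`, `0 ≤ ya ≤ e^a` (`ya_bound`), `N = NN d k`; from `ℓ²` to `ℓ¹` by Cauchy-Schwarz.
`u = v + σ₀` for a fixed step (sums over all `v` = sums over all `u`); the sums of `mc LL` over both classes add up to at most `2 δ' N`.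
* `al`: `al_v = mc exp (-hh_v)`, `|exp (-hh_v) - exp (-a ya_u)| ≤ |hh_v - a ya_u|` (`mf`), `est1` and `mc (α*(2 - ya_u)) = α*` (`ya_mean`).
* `yF`: `ya_v = exp (-hh_v)/al_v`, `Fy (ya_u) = exp (-a ya_u)/α*`, both denominators `≥ e^(-a)` (`al_ge`, `als_bounds`); `mf` and `al`.
* `d3`: `est3`, `|ya_v - F (F (ya_v))| ≤ |ya_v - F (ya_{v+σ})| + C |ya_{v+σ} - F (ya_v)|` (`Fy_lip`, `yF` twice, the second time at the site `v+σ` with the opposite step).
* `d2`: `est2` and the hypothesis on `LL`; `|ya - (1 + m eps)| = dst2 m ya` (`eps = 1` iff `ya ≥ 1`).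
* `me`: `m · mc eps = mc ((1 + m eps) - ya)`, `m ≥ gap`.
* `fl`: if `eps_v = eps_{v+σ} = e` then `2 m ≤ |(1 + m e) - (1 - m e)| ≤ |ya_v - (1+me)| + |F (ya_{v+σ}) - F (1 + m e)| + |ya_v - F (ya_{v+σ})|`
  (`Fy_add`, `Fy_sub`: `F (1 + m e) = 1 - m e`), `Fy_lip`, `d2`, `yF`, `m ≥ gap`.
-/

set_option autoImplicit false

open Finset Filter

namespace Pool.Agent.THR

open Pool.Agent.LO Pool.Agent.LIN

/-- the densities are pinned -/
structure Pin {d k q : ℕ} (δ m yM : ℝ) (f : Site d k → Fin q) : Prop where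
  al : ∑ v : Site d k, |al f v - als (ra d q) m| ≤ δ * NN d k
  yF : ∀ (c : Fin q) (σ : Stp d), ∑ v : Site d k, |ya c f v - Fy (ra d q) m (ya c f (v + sv σ))| ≤ δ * NN d k
  d3 : ∀ c : Fin q, ∑ v : Site d k, dst3 m yM (ya c f v) ≤ δ * NN d k
  d2 : ∑ v : Site d k, mc (fun c => |ya c f v - (1 + m * eps c f v)|) ≤ δ * NN d k
  me : ∑ v : Site d k, |mc (fun c => eps c f v)| ≤ δ * NN d k
  fl : ∀ σ : Stp d, ∑ v : Site d k, mc (fun c => if eps c f v = eps c f (v + sv σ) then (1 : ℝ) else 0) ≤ δ * NN d k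

private theorem A5_good {ε δ δ' C₆ : ℝ} {t d k q : ℕ} {f : Site d k → Fin q} (hN : 0 ≤ NN d k) (h : δ' ≤ δ)
    (hG : Good ε δ' C₆ t f) : Good ε δ C₆ t f :=
  have e : δ' * NN d k ≤ δ * NN d k := mul_le_mul_of_nonneg_right h hN
  { irr4 := hG.irr4
    grad := hG.grad
    smo := hG.smo
    hom := fun c σ τ => (hG.hom c σ τ).trans e
    avl := hG.avl.trans e
    mf := fun c σ => (hG.mf c σ).trans e
    sm0 := fun c => (hG.sm0 c).trans e
    sm1 := fun c σ => (hG.sm1 c σ).trans e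
    sm2 := fun c => (hG.sm2 c).trans e }

/-- good and pinned -/
theorem pin_wop {ε : ℝ} (hε : 0 < ε) (hε1 : ε ≤ 1) : ∃ (t : ℕ) (C₆ : ℝ), Even t ∧ 20 ≤ t ∧ 0 < C₆ ∧
    ∀ δ : ℝ, 0 < δ → WOP ε fun d k q f => Good ε δ C₆ t f ∧ ∀ m yM : ℝ, MFE (ra d q) m → YM (ra d q) m yM →
      Pin δ m yM f := by
  obtain ⟨t, C₆, ht, ht20, hC₆, H⟩ := env_wop hε hε1
  refine ⟨t, C₆, ht, ht20, hC₆, fun δ hδ => ?_⟩
  obtain ⟨δf, hδf, Hf⟩ := pin_fl hε hε1 δ hδ
  obtain ⟨δ3, hδ3, H3⟩ := pin_d3 hε hε1 δ hδ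
  obtain ⟨δ2, hδ2, H2⟩ := pin_d2 hε hε1 (min δ δf) (lt_min hδ hδf)
  obtain ⟨δa, hδa, Ha⟩ := pin_al hε hε1 C₆ t (min δ (min δf δ3)) (lt_min hδ (lt_min hδf hδ3))
  have hpos : 0 < min δ (min δ2 δa) := lt_min hδ (lt_min hδ2 hδa)
  have l1 : min δ (min δ2 δa) ≤ δ := min_le_left _ _
  have l2 : min δ (min δ2 δa) ≤ δ2 := (min_le_right _ _).trans (min_le_left _ _)
  have l3 : min δ (min δ2 δa) ≤ δa := (min_le_right _ _).trans (min_le_right _ _)
  have r1 : min δ δf ≤ δ := min_le_left _ _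
  have r2 : min δ δf ≤ δf := min_le_right _ _
  have s1 : min δ (min δf δ3) ≤ δ := min_le_left _ _
  have s2 : min δ (min δf δ3) ≤ δf := (min_le_right _ _).trans (min_le_left _ _)
  have s3 : min δ (min δf δ3) ≤ δ3 := (min_le_right _ _).trans (min_le_right _ _)
  refine (H _ hpos).mono (((Hf.and H3).and (H2.and Ha)).mono ?_)
  rintro d k q ⟨⟨hf, h3⟩, h2, ha⟩ f hfp ⟨hG, hL⟩
  have hN : 0 ≤ NN d k := by unfold NN; positivity
  refine ⟨A5_good hN l1 hG, fun m yM hm hM => ?_⟩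
  have hGa : Good ε δa C₆ t f := A5_good hN l3 hG
  obtain ⟨ha1, ha2⟩ := ha m yM hm hM f hfp hGa fun b =>
    (hL b m hm).trans (mul_le_mul_of_nonneg_right l3 hN)
  have hd2 := h2 m hm f hfp fun b => (hL b m hm).trans (mul_le_mul_of_nonneg_right l2 hN)
  have hd3 := h3 m yM hm hM f hfp fun c σ => (ha2 c σ).trans (mul_le_mul_of_nonneg_right s3 hN)
  obtain ⟨hf1, hf2⟩ := hf m hm f hfp (fun c σ => (ha2 c σ).trans (mul_le_mul_of_nonneg_right s2 hN))
    (hd2.trans (mul_le_mul_of_nonneg_right r2 hN))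
  exact
    { al := ha1.trans (mul_le_mul_of_nonneg_right s1 hN)
      yF := fun c σ => (ha2 c σ).trans (mul_le_mul_of_nonneg_right s1 hN)
      d3 := hd3
      d2 := hd2.trans (mul_le_mul_of_nonneg_right r1 hN)
      me := hf1
      fl := hf2 }

end Pool.Agent.THR

end

/-! ### from `Lib_MP_2c424f_thr.B5` -/

section

/-!
# THR B5: almost all blocks are close to one of the three values (paper proof: B5), deterministic

Fix `c`.  `G = PP^[t₀] (gg c f)`, `y = ya c f`, `N = NN d k` = number of blocks, `N' = NN d (k+1) = 2^d N`.  Choose `κ > 0` with `12 √κ ≤ η`, `5 √κ ≤ η²`, `κ ≤ 1`.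
For a block `t`:
* `E₁ = Ms none t ((y - G)²)`: sum over `t` `≤ (2/2^d) δ' N' = 2 δ' N` (`sm0`, `Ms_sum`);
* `E₂ = Ms none t (G²) - (Ms none t G)²`: sum `≤ 4 d (C₆/q²) N ≤ δ' N` (`var_blocks`, `grad`);
* `E₃ = Ms none t (dst3 m yM y)`: sum `≤ 2 δ' N` (`Pin.d3`);
* `E₄ = max_s |Ms s t (bq - y)|`, `bq - y = (bq - gg) + (gg - zz/al) + (zz - zt)/al + (zt/al - y)`: the first and the third part: `∑_t ∑_s (Ms s t ..)² ≤ (2d+1) N/d^4` (hypotheses), the other two:
  `|Ms s t φ| ≤ 4 Ms none t |φ|` (`Ms_face`), sum over `t` `≤ 8 δ'' N` (`gg_det`, `zt_det`).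
So all but `δ N` blocks have `E₁, E₂, E₃ ≤ κ`, `E₄ ≤ κ`.  For such a block let `H = Ms none t G`: `Ms none t |y - H| ≤ √E₁ + √E₂ ≤ 2 √κ` (`Ms_sq`), so `Ms s t |y - H| ≤ 8 √κ` for all `s`;
`dst3 m yM H ≤ E₃ + 2 √κ ≤ 3 √κ` (`dst3` is `1`-Lipschitz), so some `τ` of the three values has `|H - τ| ≤ 3 √κ`; `|Ms s t bq - τ| ≤ κ + 8 √κ + 3 √κ ≤ 12 √κ ≤ η`;
`Ms none t 1[|y-τ| > η] ≤ Ms none t |y - τ|/η ≤ 5 √κ/η ≤ η`.
-/

set_option autoImplicit false

open Finset Filter

namespace Pool.Agent.THR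

open Pool.Agent.LO Pool.Agent.LIN

private theorem B5_shp (d : ℕ) : (Fintype.card (Shp d) : ℝ) = 2 * d + 1 := by
  rw [Fintype.card_option, Fintype.card_prod, Fintype.card_fin, Fintype.card_bool]
  push_cast
  ring

/-- one block, the four parts of the difference -/
private theorem B5_block {d k q : ℕ} (hd : 2 ≤ d) (η κ m yM : ℝ) (hη : 0 < η) (hκ : 0 < κ) (hκ1 : κ ≤ 1)
    (h1 : 12 * Real.sqrt κ ≤ η) (h2 : 5 * Real.sqrt κ ≤ η ^ 2) (c : Fin q) (f : Site d (k + 1) → Fin q) (t : Blk d k)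
    (G : Site d (k + 1) → ℝ)
    (e1 : Ms none t (fun x => (ya c f x - G x) ^ 2) ≤ κ) (e2 : Ms none t (fun x => G x ^ 2) - Ms none t G ^ 2 ≤ κ)
    (e3 : Ms none t (fun x => dst3 m yM (ya c f x)) ≤ κ)
    (p1 : ∀ s, Ms s t (fun x => bq c f x - gg c f x) ^ 2 ≤ (κ / 4) ^ 2)
    (p2 : Ms none t (fun x => |gg c f x - zz f x c / al f x|) ≤ κ / 16)
    (p3 : ∀ s, Ms s t (fun x => (zz f x c - zt f x c) / al f x) ^ 2 ≤ (κ / 4) ^ 2)
    (p4 : Ms none t (fun x => |zt f x c / al f x - ya c f x|) ≤ κ / 16) :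
    ∃ τ : ℝ, tauG η m yM c f t τ := by
  refine tau_one hd η κ m yM hη hκ hκ1 h1 h2 c f t G e1 e2 e3 fun s => ?_
  have hk4 : (0 : ℝ) ≤ κ / 4 := by positivity
  have q1 : |Ms s t (fun x => bq c f x - gg c f x)| ≤ κ / 4 := abs_le_of_sq_le_sq (p1 s) hk4
  have q3 : |Ms s t (fun x => (zz f x c - zt f x c) / al f x)| ≤ κ / 4 := abs_le_of_sq_le_sq (p3 s) hk4
  have q2 : |Ms s t (fun x => gg c f x - zz f x c / al f x)| ≤ κ / 4 := by
    refine (Ms_abs s t _).trans ?_
    refine (Ms_face hd s t _ fun x => abs_nonneg _).trans ?_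
    linarith
  have q4 : |Ms s t (fun x => zt f x c / al f x - ya c f x)| ≤ κ / 4 := by
    refine (Ms_abs s t _).trans ?_
    refine (Ms_face hd s t _ fun x => abs_nonneg _).trans ?_
    linarith
  have key : Ms s t (fun x => bq c f x - ya c f x) =
      Ms s t (fun x => bq c f x - gg c f x) + Ms s t (fun x => gg c f x - zz f x c / al f x) +
        Ms s t (fun x => (zz f x c - zt f x c) / al f x) + Ms s t (fun x => zt f x c / al f x - ya c f x) := by
    rw [← Ms_add, ← Ms_add, ← Ms_add]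
    congr 1
    funext x
    rw [sub_div]
    ring
  rw [key]
  have r1 := abs_le.1 q1
  have r2 := abs_le.1 q2
  have r3 := abs_le.1 q3
  have r4 := abs_le.1 q4
  rw [abs_le]
  constructor <;> linarith [r1.1, r1.2, r2.1, r2.2, r3.1, r3.2, r4.1, r4.2]

/-- sum of the block means of a nonnegative function -/
private theorem B5_sum {d k : ℕ} (hd : 2 ≤ d) (hk : 1 ≤ k) (D : ℝ) (φ : Site d (k + 1) → ℝ) (h0 : ∀ x, 0 ≤ φ x)
    (h : ∑ x, φ x ≤ D * NN d (k + 1)) : ∑ t : Blk d k, Ms none t φ ≤ 2 * D * NN d k := by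
  rw [Ms_sum hd hk]
  have h1 : ∑ v ∈ ods d (k + 1), φ v ≤ ∑ x, φ x :=
    Finset.sum_le_sum_of_subset_of_nonneg (Finset.subset_univ _) fun x _ _ => h0 x
  have h2 := h1.trans h
  rw [NN_succ] at h2
  have h3 : (0 : ℝ) < 2 ^ d := by positivity
  calc 2 / 2 ^ d * ∑ v ∈ ods d (k + 1), φ v ≤ 2 / 2 ^ d * (D * (2 ^ d * NN d k)) :=
        mul_le_mul_of_nonneg_left h2 (by positivity)
    _ = 2 * D * NN d k := by
        field_simp

private theorem B5_Ms0 {d k : ℕ} (hd : 2 ≤ d) (s : Shp d) (t : Blk d k) (φ : Site d (k + 1) → ℝ) (h : ∀ x, 0 ≤ φ x) :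
    0 ≤ Ms s t φ := by
  have h1 := Ms_mono (φ := fun _ => (0 : ℝ)) (ψ := φ) s t fun a b _ => h _
  rwa [Ms_const hd s t 0] at h1

private theorem B5_dst (m yM y : ℝ) : 0 ≤ dst3 m yM y := by
  unfold dst3 dst2
  exact le_min (le_min (abs_nonneg _) (abs_nonneg _)) (abs_nonneg _)

/-- the weight of the exceptional blocks, abstract form -/
private theorem B5_abs {T S : Type*} [Fintype T] [Fintype S] (κ δ N e : ℝ) (hκ : 0 < κ) (E1 E2 E3 P2 P4 : T → ℝ)
    (P1 P3 : S → T → ℝ) (n1 : ∀ t, 0 ≤ E1 t) (n2 : ∀ t, 0 ≤ E2 t) (n3 : ∀ t, 0 ≤ E3 t) (n4 : ∀ s t, 0 ≤ P1 s t)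
    (n5 : ∀ t, 0 ≤ P2 t) (n6 : ∀ s t, 0 ≤ P3 s t) (n7 : ∀ t, 0 ≤ P4 t)
    (s1 : ∑ t, E1 t ≤ κ * (δ / 8) * N) (s2 : ∑ t, E2 t ≤ κ * (δ / 8) * N) (s3 : ∑ t, E3 t ≤ κ * (δ / 8) * N)
    (s4 : ∀ s, ∑ t, P1 s t ≤ e) (s5 : 16 * ∑ t, P2 t ≤ κ * (δ / 8) * N) (s6 : ∀ s, ∑ t, P3 s t ≤ e)
    (s7 : 16 * ∑ t, P4 t ≤ κ * (δ / 8) * N) (b5 : 16 * ((Fintype.card S : ℝ) * e) ≤ κ ^ 2 * (δ / 8) * N) (hδ : 0 ≤ δ)
    (hN : 0 ≤ N) (P : T → Prop) [DecidablePred P]
    (hP : ∀ t, E1 t ≤ κ → E2 t ≤ κ → E3 t ≤ κ → (∀ s, P1 s t ≤ (κ / 4) ^ 2) → P2 t ≤ κ / 16 →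
      (∀ s, P3 s t ≤ (κ / 4) ^ 2) → P4 t ≤ κ / 16 → ¬ P t) :
    ((univ.filter P).card : ℝ) ≤ δ * N := by
  classical
  have a1 : ∀ t, 0 ≤ ∑ s, P1 s t := fun t => Finset.sum_nonneg fun s _ => n4 s t
  have a2 : ∀ t, 0 ≤ ∑ s, P3 s t := fun t => Finset.sum_nonneg fun s _ => n6 s t
  obtain ⟨W, hW⟩ : ∃ W : T → ℝ, ∀ t, W t = κ * (E1 t + E2 t + E3 t) + 16 * (∑ s, P1 s t + ∑ s, P3 s t) +
    16 * κ * (P2 t + P4 t) := ⟨_, fun t => rfl⟩
  have u1 : ∀ t, 0 ≤ κ * (E1 t + E2 t + E3 t) := fun t =>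
    mul_nonneg hκ.le (add_nonneg (add_nonneg (n1 t) (n2 t)) (n3 t))
  have u2 : ∀ t, 0 ≤ 16 * (∑ s, P1 s t + ∑ s, P3 s t) := fun t =>
    mul_nonneg (by norm_num) (add_nonneg (a1 t) (a2 t))
  have u3 : ∀ t, 0 ≤ 16 * κ * (P2 t + P4 t) := fun t =>
    mul_nonneg (by positivity) (add_nonneg (n5 t) (n7 t))
  have hWn : ∀ t, 0 ≤ W t := by
    intro t
    rw [hW]
    exact add_nonneg (add_nonneg (u1 t) (u2 t)) (u3 t)
  have hWb : ∀ t, W t < κ ^ 2 → ¬ P t := by
    intro t ht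
    rw [hW] at ht
    have v1 := u1 t
    have v2 := u2 t
    have v3 := u3 t
    have c1 : κ * (E1 t + E2 t + E3 t) ≤ κ * κ := by
      rw [← sq]
      linarith
    have c1' : E1 t + E2 t + E3 t ≤ κ := le_of_mul_le_mul_left c1 hκ
    have c2 : κ * (16 * (P2 t + P4 t)) ≤ κ * κ := by
      rw [← sq]
      linarith
    have c2' : 16 * (P2 t + P4 t) ≤ κ := le_of_mul_le_mul_left c2 hκ
    have c3 : 16 * (∑ s, P1 s t + ∑ s, P3 s t) ≤ κ ^ 2 := by linarith
    have m1 := n1 t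
    have m2 := n2 t
    have m3 := n3 t
    have m5 := n5 t
    have m7 := n7 t
    have m4 := a1 t
    have m6 := a2 t
    have e16 : (κ / 4) ^ 2 = κ ^ 2 / 16 := by ring
    refine hP t (by linarith) (by linarith) (by linarith) (fun s => ?_) (by linarith) (fun s => ?_) (by linarith)
    · have : P1 s t ≤ ∑ s, P1 s t := Finset.single_le_sum (f := fun s => P1 s t) (fun s _ => n4 s t) (Finset.mem_univ s)
      rw [e16]
      linarith
    · have : P3 s t ≤ ∑ s, P3 s t := Finset.single_le_sum (f := fun s => P3 s t) (fun s _ => n6 s t) (Finset.mem_univ s)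
      rw [e16]
      linarith
  have hκ2 : 0 < κ ^ 2 := by positivity
  have hcard : κ ^ 2 * ((univ.filter P).card : ℝ) ≤ ∑ t, W t := by
    calc κ ^ 2 * ((univ.filter P).card : ℝ) = ∑ t ∈ univ.filter P, κ ^ 2 := by
          rw [Finset.sum_const, nsmul_eq_mul, mul_comm]
      _ ≤ ∑ t ∈ univ.filter P, W t := by
          refine Finset.sum_le_sum fun t ht => ?_
          by_contra hc
          exact hWb t (not_le.1 hc) (Finset.mem_filter.1 ht).2
      _ ≤ ∑ t, W t := Finset.sum_le_sum_of_subset_of_nonneg (Finset.subset_univ _) fun t _ _ => hWn t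
  have t4 : ∑ t, ∑ s, P1 s t ≤ (Fintype.card S : ℝ) * e := by
    rw [Finset.sum_comm]
    refine (Finset.sum_le_sum fun s _ => s4 s).trans (le_of_eq ?_)
    rw [Finset.sum_const, Finset.card_univ, nsmul_eq_mul]
  have t6 : ∑ t, ∑ s, P3 s t ≤ (Fintype.card S : ℝ) * e := by
    rw [Finset.sum_comm]
    refine (Finset.sum_le_sum fun s _ => s6 s).trans (le_of_eq ?_)
    rw [Finset.sum_const, Finset.card_univ, nsmul_eq_mul]
  have hsum : ∑ t, W t = κ * ∑ t, E1 t + κ * ∑ t, E2 t + κ * ∑ t, E3 t +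
      (16 * ∑ t, ∑ s, P1 s t + 16 * ∑ t, ∑ s, P3 s t) + (κ * (16 * ∑ t, P2 t) + κ * (16 * ∑ t, P4 t)) := by
    rw [Finset.sum_congr rfl fun t _ => hW t]
    simp only [Finset.sum_add_distrib, ← Finset.mul_sum]
    ring
  have r1 : κ * ∑ t, E1 t ≤ κ * (κ * (δ / 8) * N) := mul_le_mul_of_nonneg_left s1 hκ.le
  have r2 : κ * ∑ t, E2 t ≤ κ * (κ * (δ / 8) * N) := mul_le_mul_of_nonneg_left s2 hκ.le
  have r3 : κ * ∑ t, E3 t ≤ κ * (κ * (δ / 8) * N) := mul_le_mul_of_nonneg_left s3 hκ.le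
  have r5 : κ * (16 * ∑ t, P2 t) ≤ κ * (κ * (δ / 8) * N) := mul_le_mul_of_nonneg_left s5 hκ.le
  have r7 : κ * (16 * ∑ t, P4 t) ≤ κ * (κ * (δ / 8) * N) := mul_le_mul_of_nonneg_left s7 hκ.le
  have n8 : 0 ≤ κ ^ 2 * (δ / 8) * N := by positivity
  have e8 : κ * (κ * (δ / 8) * N) = κ ^ 2 * (δ / 8) * N := by ring
  rw [e8] at r1 r2 r3 r5 r7
  have htot : ∑ t, W t ≤ κ ^ 2 * (δ * N) := by
    rw [hsum]
    have e9 : κ ^ 2 * (δ * N) = 8 * (κ ^ 2 * (δ / 8) * N) := by ring
    rw [e9]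
    linarith
  exact le_of_mul_le_mul_left (hcard.trans htot) hκ2

/-- the weight of the exceptional blocks -/
private theorem B5_count {d k q : ℕ} (hd : 2 ≤ d) (hk : 1 ≤ k) (η κ δ δ' δ'' m yM : ℝ) (hη : 0 < η) (hκ : 0 < κ)
    (hκ1 : κ ≤ 1) (h1 : 12 * Real.sqrt κ ≤ η) (h2 : 5 * Real.sqrt κ ≤ η ^ 2) (c : Fin q) (f : Site d (k + 1) → Fin q)
    (G : Site d (k + 1) → ℝ) (D : ℝ)
    (e1 : ∑ x, (ya c f x - G x) ^ 2 ≤ δ' * NN d (k + 1))
    (e2 : ∑ t : Blk d k, (Ms none t (fun x => G x ^ 2) - Ms none t G ^ 2) ≤ 4 * d * D * NN d k)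
    (e3 : ∑ x, dst3 m yM (ya c f x) ≤ δ' * NN d (k + 1))
    (p1 : ∀ s : Shp d, ∑ t : Blk d k, Ms s t (fun x => bq c f x - gg c f x) ^ 2 ≤ NN d k / (d : ℝ) ^ 4)
    (p2 : ∑ x, |gg c f x - zz f x c / al f x| ≤ δ'' * NN d (k + 1))
    (p3 : ∀ s : Shp d,
      ∑ t : Blk d k, Ms s t (fun x => (zz f x c - zt f x c) / al f x) ^ 2 ≤ NN d k / (d : ℝ) ^ 4)
    (p4 : ∑ x, |zt f x c / al f x - ya c f x| ≤ δ'' * NN d (k + 1))
    (b1 : 2 * δ' ≤ κ * (δ / 8)) (b2 : 4 * d * D ≤ κ * (δ / 8)) (b3 : 32 * δ'' ≤ κ * (δ / 8))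
    (b4 : 16 * (2 * (d : ℝ) + 1) ≤ κ ^ 2 * (δ / 8) * (d : ℝ) ^ 4) (hδ : 0 ≤ δ) (P : Blk d k → Prop) [DecidablePred P]
    (hP : ∀ t, (∃ τ : ℝ, tauG η m yM c f t τ) → ¬ P t) :
    ((univ.filter P).card : ℝ) ≤ δ * NN d k := by
  have nN : 0 ≤ NN d k := by unfold NN; positivity
  have s1 := B5_sum hd hk δ' _ (fun x => sq_nonneg _) e1
  have s3 := B5_sum hd hk δ' _ (fun x => B5_dst _ _ _) e3
  have s5 := B5_sum hd hk δ'' _ (fun x => abs_nonneg _) p2
  have s7 := B5_sum hd hk δ'' _ (fun x => abs_nonneg _) p4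
  have c1 : 2 * δ' * NN d k ≤ κ * (δ / 8) * NN d k := mul_le_mul_of_nonneg_right b1 nN
  have c2 : 4 * d * D * NN d k ≤ κ * (δ / 8) * NN d k := mul_le_mul_of_nonneg_right b2 nN
  have c3 : 32 * δ'' * NN d k ≤ κ * (δ / 8) * NN d k := mul_le_mul_of_nonneg_right b3 nN
  have hd0 : (0 : ℝ) < (d : ℝ) ^ 4 := by
    have : (0 : ℝ) < d := by
      have : 0 < d := by omega
      exact_mod_cast this
    positivity
  refine B5_abs (T := Blk d k) (S := Shp d) κ δ (NN d k) (NN d k / (d : ℝ) ^ 4) hκ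
    (fun t => Ms none t (fun x => (ya c f x - G x) ^ 2)) (fun t => Ms none t (fun x => G x ^ 2) - Ms none t G ^ 2)
    (fun t => Ms none t (fun x => dst3 m yM (ya c f x)))
    (fun t => Ms none t (fun x => |gg c f x - zz f x c / al f x|))
    (fun t => Ms none t (fun x => |zt f x c / al f x - ya c f x|))
    (fun s t => Ms s t (fun x => bq c f x - gg c f x) ^ 2)
    (fun s t => Ms s t (fun x => (zz f x c - zt f x c) / al f x) ^ 2)
    (fun t => B5_Ms0 hd _ _ _ fun x => sq_nonneg _) (fun t => sub_nonneg.2 (Ms_sq hd none t G))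
    (fun t => B5_Ms0 hd _ _ _ fun x => B5_dst _ _ _) (fun s t => sq_nonneg _)
    (fun t => B5_Ms0 hd _ _ _ fun x => abs_nonneg _) (fun s t => sq_nonneg _)
    (fun t => B5_Ms0 hd _ _ _ fun x => abs_nonneg _) (s1.trans c1) (e2.trans c2) (s3.trans c1) p1 ?_ p3 ?_ ?_ hδ nN P ?_
  · linarith
  · linarith
  · rw [B5_shp]
    calc 16 * ((2 * (d : ℝ) + 1) * (NN d k / (d : ℝ) ^ 4)) = 16 * (2 * (d : ℝ) + 1) * (NN d k / (d : ℝ) ^ 4) := by ring
      _ ≤ κ ^ 2 * (δ / 8) * (d : ℝ) ^ 4 * (NN d k / (d : ℝ) ^ 4) := mul_le_mul_of_nonneg_right b4 (by positivity)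
      _ = κ ^ 2 * (δ / 8) * NN d k := by field_simp
  · intro t x1 x2 x3 x4 x5 x6 x7
    exact hP t (B5_block hd η κ m yM hη hκ hκ1 h1 h2 c f t G x1 x2 x3 x4 x5 x6 x7)

open scoped Classical in
/-- number of exceptional blocks -/
theorem tau_det {ε : ℝ} (hε : 0 < ε) (hε1 : ε ≤ 1) (C₆ : ℝ) (t₀ : ℕ) (η δ : ℝ) (hη : 0 < η) (hδ : 0 < δ) : ∃ δ' : ℝ, 0 < δ' ∧
    EvT ε fun d k q => ∀ m yM : ℝ, MFE (ra d q) m → YM (ra d q) m yM → ∀ f ∈ prps d (k + 1) q,
      Good ε δ' C₆ t₀ f → Pin δ' m yM f →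
      (∀ (c : Fin q) (s : Shp d), ∑ t : Blk d k, Ms s t (fun x => bq c f x - gg c f x) ^ 2 ≤ NN d k / (d : ℝ) ^ 4) →
      (∀ (c : Fin q) (s : Shp d),
        ∑ t : Blk d k, Ms s t (fun x => (zz f x c - zt f x c) / al f x) ^ 2 ≤ NN d k / (d : ℝ) ^ 4) →
      ∀ c : Fin q, ((univ.filter fun t : Blk d k => ¬ ∃ τ, tauG η m yM c f t τ).card : ℝ) ≤ δ * NN d k := by
  -- the parameter
  obtain ⟨κ, hκ, hκ1, h1, h2⟩ : ∃ κ : ℝ, 0 < κ ∧ κ ≤ 1 ∧ 12 * Real.sqrt κ ≤ η ∧ 5 * Real.sqrt κ ≤ η ^ 2 := by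
    set r : ℝ := min 1 (min (η / 12) (η ^ 2 / 5)) with hr
    have hr0 : 0 < r := by
      rw [hr]
      refine lt_min one_pos (lt_min ?_ ?_) <;> positivity
    have hr1 : r ≤ 1 := min_le_left _ _
    have hr2 : r ≤ η / 12 := (min_le_right _ _).trans (min_le_left _ _)
    have hr3 : r ≤ η ^ 2 / 5 := (min_le_right _ _).trans (min_le_right _ _)
    refine ⟨r ^ 2, by positivity, pow_le_one₀ hr0.le hr1, ?_, ?_⟩
    · rw [Real.sqrt_sq hr0.le]
      linarith
    · rw [Real.sqrt_sq hr0.le]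
      linarith
  have hδ2 : 0 < κ * δ / 256 := by positivity
  obtain ⟨δ₁, hδ₁, hgg⟩ := gg_det hε hε1 C₆ t₀ (κ * δ / 256) hδ2
  have hzt := zt_det hε hε1 C₆ t₀ (κ * δ / 256) hδ2
  have hreg := EvT_reg hε hε1 (max 2 (max (32 * |C₆| / (ε ^ 2 * (κ * δ))) (384 / (κ ^ 2 * δ))))
  refine ⟨min δ₁ (κ * δ / 16), lt_min hδ₁ (by positivity), ((hgg.shift.and hzt.shift).and hreg).mono ?_⟩
  rintro d k q ⟨⟨hg, hz⟩, hMd, hMq, hMk, hdq, -, -, -, -⟩ m yM hm hyM f hf hG hPin hA hB c
  have hd2 : (2 : ℝ) ≤ d := (le_max_left _ _).trans hMd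
  have hd : 2 ≤ d := by exact_mod_cast hd2
  have hk2 : (2 : ℝ) ≤ k := (le_max_left _ _).trans hMk
  have hk : 1 ≤ k := by
    have : 2 ≤ k := by exact_mod_cast hk2
    omega
  have hM1 : 32 * |C₆| / (ε ^ 2 * (κ * δ)) ≤ d := ((le_max_left _ _).trans (le_max_right _ _)).trans hMd
  have hM2 : 384 / (κ ^ 2 * δ) ≤ d := ((le_max_right _ _).trans (le_max_right _ _)).trans hMd
  have hq0 : (0 : ℝ) < q := lt_of_lt_of_le (by positivity) hdq
  have hNN : 0 ≤ NN d (k + 1) := by unfold NN; positivity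
  have hG1 : Good ε δ₁ C₆ t₀ f := by
    have hle : min δ₁ (κ * δ / 16) * NN d (k + 1) ≤ δ₁ * NN d (k + 1) :=
      mul_le_mul_of_nonneg_right (min_le_left _ _) hNN
    exact ⟨hG.irr4, hG.grad, hG.smo, fun c σ τ => (hG.hom c σ τ).trans hle, hG.avl.trans hle,
      fun c σ => (hG.mf c σ).trans hle, fun c => (hG.sm0 c).trans hle, fun c σ => (hG.sm1 c σ).trans hle,
      fun c => (hG.sm2 c).trans hle⟩
  refine B5_count hd hk η κ δ (min δ₁ (κ * δ / 16)) (κ * δ / 256) m yM hη hκ hκ1 h1 h2 c f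
    (PP^[t₀] (gg c f)) (C₆ / (q : ℝ) ^ 2) ?_ ?_ (hPin.d3 c) (hA c) (hg f hf hG1 c) (hB c) (hz f hf hG.irr4 c)
    ?_ ?_ ?_ ?_ hδ.le _ fun t ht hn => hn ht
  · refine (le_of_eq (Finset.sum_congr rfl fun x _ => ?_)).trans (hG.sm0 c)
    ring
  · refine var_blocks hd hk _ _ fun σ τ => ?_
    refine (hG.grad c σ τ).trans (le_of_eq ?_)
    ring
  · have := min_le_right δ₁ (κ * δ / 16)
    linarith
  · have h3 : 32 * |C₆| ≤ d * (ε ^ 2 * (κ * δ)) := (div_le_iff₀ (by positivity)).1 hM1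
    have h4 : (ε * d) ^ 2 ≤ (q : ℝ) ^ 2 := pow_le_pow_left₀ (by positivity) hdq 2
    have h5 : (0 : ℝ) < (q : ℝ) ^ 2 := by positivity
    have h6 : 4 * (d : ℝ) * (C₆ / (q : ℝ) ^ 2) = 4 * d * C₆ / (q : ℝ) ^ 2 := by ring
    rw [h6, div_le_iff₀ h5]
    have h7 : C₆ ≤ |C₆| := le_abs_self _
    calc 4 * (d : ℝ) * C₆ ≤ 4 * d * |C₆| := mul_le_mul_of_nonneg_left h7 (by positivity)
      _ = d / 8 * (32 * |C₆|) := by ring
      _ ≤ d / 8 * (d * (ε ^ 2 * (κ * δ))) := mul_le_mul_of_nonneg_left h3 (by positivity)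
      _ = κ * (δ / 8) * (ε * d) ^ 2 := by ring
      _ ≤ κ * (δ / 8) * (q : ℝ) ^ 2 := mul_le_mul_of_nonneg_left h4 (by positivity)
  · have : 32 * (κ * δ / 256) = κ * (δ / 8) := by ring
    exact this.le
  · have h3 : 384 ≤ d * (κ ^ 2 * δ) := (div_le_iff₀ (by positivity)).1 hM2
    have hd1 : (1 : ℝ) ≤ d := by linarith
    have h4 : (1 : ℝ) ≤ (d : ℝ) ^ 2 := one_le_pow₀ hd1
    have h5 : 2 * (d : ℝ) + 1 ≤ 3 * d := by linarith
    calc 16 * (2 * (d : ℝ) + 1) ≤ 16 * (3 * d) := by linarith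
      _ = 384 * (d / 8) := by ring
      _ ≤ d * (κ ^ 2 * δ) * (d / 8) := mul_le_mul_of_nonneg_right h3 (by positivity)
      _ = κ ^ 2 * (δ / 8) * (d : ℝ) ^ 2 * 1 := by ring
      _ ≤ κ ^ 2 * (δ / 8) * (d : ℝ) ^ 2 * (d : ℝ) ^ 2 := mul_le_mul_of_nonneg_left h4 (by positivity)
      _ = κ ^ 2 * (δ / 8) * (d : ℝ) ^ 4 := by ring

end Pool.Agent.THR

end

/-! ### from `Lib_MP_2c424f_thr.B6a` -/

section

/-!
# THR B6a: block regularity with overwhelming probability (paper proof: B5, B6)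

`BReg η m yM c f` : all but `δ N` blocks are close to one of the three values, for every colour.
* `breg_wop`: `pin_wop` (fixes `t₀, C₆`), `WOP.blk`, `blk_bq`, `blk_zz`, `tau_det`.
* `not_bad`: `τ = 1 + m`: all `Ms s t bq ≥ 1 + m - η`; `τ = 1 - m < yM` or `τ = yM`: all `≤ yM + η` (`ym_bounds`, `1 < ra d q`).
* `all_bad`: if all blocks are bad then no block is close, so (with `δ = 1/2`) the colouring is in the rare set.
-/

set_option autoImplicit false

open Finset Filter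

namespace Pool.Agent.THR

open Pool.Agent.LO Pool.Agent.LIN

open scoped Classical in
theorem breg_wop {ε : ℝ} (hε : 0 < ε) (hε1 : ε ≤ 1) (η δ : ℝ) (hη : 0 < η) (hδ : 0 < δ) :
    WOPb ε fun d k q f => ∀ m yM : ℝ, MFE (ra d q) m → YM (ra d q) m yM → ∀ c : Fin q,
      ((univ.filter fun t : Blk d k => ¬ ∃ τ, tauG η m yM c f t τ).card : ℝ) ≤ δ * NN d k := by
  obtain ⟨t₀, C₆, -, -, -, hpin⟩ := pin_wop hε hε1
  obtain ⟨δ', hδ', hτ⟩ := tau_det hε hε1 C₆ t₀ η δ hη hδ
  refine ((((hpin δ' hδ').blk).and (blk_bq hε hε1)).and (blk_zz hε hε1)).mono (hτ.mono ?_)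
  intro d k q h f hf hP m yM hm hM c
  obtain ⟨⟨⟨h1, h2⟩, h3⟩, h4⟩ := hP
  exact h m yM hm hM f hf h1 (h2 m yM hm hM) h3 h4 c

theorem not_bad {d k q : ℕ} (η m yM : ℝ) (ha : 1 < ra d q) (hm : MFE (ra d q) m) (hM : YM (ra d q) m yM) (c : Fin q)
    (f : Site d (k + 1) → Fin q) (t : Blk d k) (τ : ℝ) (h : tauG η m yM c f t τ) : ¬ bdT (1 + m - η) (yM + η) c t f := by
  obtain ⟨h1, h2, -⟩ := h
  have hb := ym_bounds (ra d q) m yM ha hm hM
  rintro ⟨h3, h4⟩
  rcases h1 with h1 | h1 | h1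
  · refine h4 fun s => ?_
    have := (abs_le.1 (h2 s)).2
    rw [h1] at this
    linarith
  · refine h4 fun s => ?_
    have := (abs_le.1 (h2 s)).2
    rw [h1] at this
    linarith
  · refine h3 fun s => ?_
    have := (abs_le.1 (h2 s)).1
    rw [h1] at this
    linarith

theorem all_bad {ε : ℝ} (hε : 0 < ε) (hε1 : ε ≤ 1) (η : ℝ) (hη : 0 < η) : ∃ C : ℕ,
    EvT ε fun d k q => ∀ m yM : ℝ, MFE (ra d q) m → YM (ra d q) m yM → ∀ c : Fin q,
      cE (bdT (q := q) (k := k) (d := d) (1 + m - η) (yM + η) c) univ ≤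
        ZZ d (k + 1) q * Real.exp (-(NN d (k + 1) / (d : ℝ) ^ C)) := by
  classical
  obtain ⟨C, hC⟩ := breg_wop hε hε1 η (1 / 2) hη (by norm_num)
  refine ⟨C, (hC.and (EvT_reg hε hε1 1)).mono ?_⟩
  rintro d k q ⟨h, -, -, -, -, -, hr, -, -⟩ m yM hm hM c
  have ha : 1 < ra d q := by
    refine lt_of_lt_of_le ?_ hr
    unfold a1
    rw [lt_div_iff₀ (by linarith)]
    linarith
  unfold Rar at h
  refine le_trans ?_ h
  unfold cE
  have hsub : ((prps d (k + 1) q).filter fun f => ∀ t ∈ (univ : Finset (Blk d k)),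
      bdT (q := q) (k := k) (d := d) (1 + m - η) (yM + η) c t f) ⊆
      ((prps d (k + 1) q).filter fun f => ¬ ∀ m yM : ℝ, MFE (ra d q) m → YM (ra d q) m yM → ∀ c : Fin q,
        ((univ.filter fun t : Blk d k => ¬ ∃ τ, tauG η m yM c f t τ).card : ℝ) ≤ 1 / 2 * NN d k) := by
    intro f hf
    rw [mem_filter] at hf ⊢
    refine ⟨hf.1, fun hc => ?_⟩
    have h1 := hc m yM hm hM c
    have h2 : (univ.filter fun t : Blk d k => ¬ ∃ τ, tauG η m yM c f t τ) = univ := by
      refine filter_true_of_mem fun t _ => ?_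
      rintro ⟨τ, hτ⟩
      exact not_bad η m yM ha hm hM c f t τ hτ (hf.2 t (mem_univ t))
    rw [h2, card_univ, card_Blk] at h1
    have h3 : 0 < NN d k := by
      unfold NN
      positivity
    linarith
  have h5 := card_le_card hsub
  have h6 : ((((prps d (k + 1) q).filter fun f => ∀ t ∈ (univ : Finset (Blk d k)),
      bdT (q := q) (k := k) (d := d) (1 + m - η) (yM + η) c t f).card : ℕ) : ℝ) ≤
      (((prps d (k + 1) q).filter fun f => ¬ ∀ m yM : ℝ, MFE (ra d q) m → YM (ra d q) m yM → ∀ c : Fin q,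
        ((univ.filter fun t : Blk d k => ¬ ∃ τ, tauG η m yM c f t τ).card : ℝ) ≤ 1 / 2 * NN d k).card : ℝ) := by
    exact_mod_cast h5
  refine le_trans (le_of_eq ?_) (le_trans h6 (le_of_eq ?_))
  · congr 2
  · congr 2
    first
      | rfl
      | exact Finset.filter_congr_decidable _ _ _
      | (ext f; simp only [mem_filter])

end Pool.Agent.THR

end

/-! ### from `Lib_MP_2c424f_lc1.A5` -/

section

/-!
# LC1 A5: almost all blocks have a density pair `(τ, F τ)`

`breg_wop` (THR B6a) gives `tauG η' m yM c f t τ` for all but `δ' NN d k` of the blocks.  For the even points: `|Mp true s t (bq) - F τ| ≤ |Mp true s t (bq - gg)| +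
Mp true s t |gg - zz/al| + |Mp true s t ((zz - zt)/al)| + Mp true s t |zt/al - ya| + Mp true s t |ya - F τ|`, `Mp true s t ≤ 4 Mp true none t` for nonnegative functions.
The first and third terms: `blk_bq2`, `blk_zz2`; second and fourth: `gg_det`, `zt_det` (THR B4) and `∑_t Mp true none t |φ| ≤ C (mean of |φ|) * NN d k`; the last one:
every even pair is `flip` of an odd pair in `2d` ways (flip one of the `2d` bits), so `Mp true none t ψ = (1/2d) ∑_bits Mp false none t (ψ ∘ flip)`; the flipped point is a neighbour in the direction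
of the bit, so `|ya x' - F τ| ≤ ∑_{ρ = ±} |ya (x + ρ e_i) - F (ya x)| + |F (ya x) - F τ|`: `Pin.yF`, and `F` is Lipschitz on `[0, ∞)` (constant `a/als`), `|ya x - τ| ≤ η'` for all but `η'` of the odd
points of the block (tauG), `ya ≤ e^a`.  Markov's inequality for the number of blocks.  Both `η'` and `δ'` small depending on `η, δ`.
-/

set_option autoImplicit false

open Finset Filter

namespace Pool.Agent.LC

open Pool.Agent.LO Pool.Agent.LIN Pool.Agent.THR Pool.Agent.COR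

section basic
variable {d k q : ℕ}

private theorem A5_od_flp (a b : Bt d) (i : Fin d) : od (LO.flp a i) b ↔ ¬ od a b := by
  unfold od
  by_cases h : a i = b i
  · have h1 : (univ.filter fun r => LO.flp a i r ≠ b r) = insert i (univ.filter fun r => a r ≠ b r) := by
      ext r
      simp only [Finset.mem_filter, Finset.mem_univ, true_and, Finset.mem_insert]
      by_cases hr : r = i
      · subst hr
        simp [LO.flp, h]
      · simp [LO.flp, hr]
    rw [h1, Finset.card_insert_of_notMem (by simp [h]), Nat.odd_add_one]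
  · have h1 : (univ.filter fun r => a r ≠ b r) = insert i (univ.filter fun r => LO.flp a i r ≠ b r) := by
      ext r
      simp only [Finset.mem_filter, Finset.mem_univ, true_and, Finset.mem_insert]
      by_cases hr : r = i
      · subst hr
        simp [h]
      · simp [LO.flp, hr]
    have h2 : LO.flp a i i = b i := by
      simp only [LO.flp, Function.update_self]
      cases ha : a i <;> cases hb : b i <;> simp_all
    rw [h1, Finset.card_insert_of_notMem (by simp [h2]), Nat.odd_add_one, not_not]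

private theorem A5_flp_flp (a : Bt d) (i : Fin d) : LO.flp (LO.flp a i) i = a := by
  unfold LO.flp
  simp

private theorem A5_mem_eS (s : Shp d) (p : Bt d × Bt d) : p ∈ eS s ↔ ¬ od p.1 p.2 ∧ inS s p.1 p.2 := by
  simp [eS]

private theorem A5_mem_oS (s : Shp d) (p : Bt d × Bt d) : p ∈ oS s ↔ od p.1 p.2 ∧ inS s p.1 p.2 := by
  simp [oS]

private theorem A5_card (hd : 2 ≤ d) (s : Shp d) :
    ((eS s).card : ℝ) = if s = none then (4 : ℝ) ^ d / 2 else (4 : ℝ) ^ (d - 1) / 2 := by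
  have h := pS_card hd true s
  simpa [pS] using h

private theorem A5_card_pos (hd : 2 ≤ d) (s : Shp d) : (0 : ℝ) < ((eS s).card : ℝ) := by
  rw [A5_card hd s]
  split_ifs <;> positivity

private theorem A5_Mp (s : Shp d) (t : Blk d k) (φ : Site d (k + 1) → ℝ) :
    Mp true s t φ = (∑ p ∈ eS s, φ (pt t p.1 p.2)) / ((eS s).card : ℝ) := by
  simp [Mp, pS]

private theorem A5_Mpf (s : Shp d) (t : Blk d k) (φ : Site d (k + 1) → ℝ) : Mp false s t φ = Ms s t φ := by
  simp [Mp, pS, Ms]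

private theorem A5_mono (s : Shp d) (t : Blk d k) {φ ψ : Site d (k + 1) → ℝ} (h : ∀ x, φ x ≤ ψ x) :
    Mp true s t φ ≤ Mp true s t ψ := by
  rw [A5_Mp, A5_Mp]
  exact div_le_div_of_nonneg_right (Finset.sum_le_sum fun p _ => h _) (Nat.cast_nonneg _)

private theorem A5_add (s : Shp d) (t : Blk d k) (φ ψ : Site d (k + 1) → ℝ) :
    Mp true s t (fun x => φ x + ψ x) = Mp true s t φ + Mp true s t ψ := by
  rw [A5_Mp, A5_Mp, A5_Mp, Finset.sum_add_distrib, add_div]

private theorem A5_const (hd : 2 ≤ d) (s : Shp d) (t : Blk d k) (c : ℝ) : Mp true s t (fun _ => c) = c := by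
  rw [A5_Mp, Finset.sum_const, nsmul_eq_mul, mul_comm, mul_div_assoc, div_self (A5_card_pos hd s).ne', mul_one]

private theorem A5_abs (s : Shp d) (t : Blk d k) (φ : Site d (k + 1) → ℝ) :
    |Mp true s t φ| ≤ Mp true s t fun x => |φ x| := by
  rw [A5_Mp, A5_Mp, abs_div, Nat.abs_cast]
  exact div_le_div_of_nonneg_right (Finset.abs_sum_le_sum_abs _ _) (Nat.cast_nonneg _)

private theorem A5_face (hd : 2 ≤ d) (s : Shp d) (t : Blk d k) (φ : Site d (k + 1) → ℝ) (h : ∀ x, 0 ≤ φ x) :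
    Mp true s t φ ≤ 4 * Mp true none t φ := by
  classical
  have hsub : ∑ p ∈ eS s, φ (pt t p.1 p.2) ≤ ∑ p ∈ eS (none : Shp d), φ (pt t p.1 p.2) := by
    refine Finset.sum_le_sum_of_subset_of_nonneg ?_ fun p _ _ => h _
    intro p hp
    rw [A5_mem_eS] at hp ⊢
    exact ⟨hp.1, trivial⟩
  have h0 : 0 ≤ ∑ p ∈ eS (none : Shp d), φ (pt t p.1 p.2) := Finset.sum_nonneg fun p _ => h _
  have hn : ((eS (none : Shp d)).card : ℝ) = (4 : ℝ) ^ d / 2 := by
    rw [A5_card hd, if_pos rfl]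
  have hc : (4 : ℝ) ^ d / 2 ≤ 4 * ((eS s).card : ℝ) := by
    rw [A5_card hd s]
    have h4 : (4 : ℝ) ^ d = 4 ^ (d - 1) * 4 := by
      rw [← pow_succ]; congr 1; omega
    have h5 : (0 : ℝ) < 4 ^ (d - 1) := by positivity
    split_ifs
    · rw [h4]; linarith
    · rw [h4]; linarith
  have hp := A5_card_pos hd s
  have hp4 : (0 : ℝ) < (4 : ℝ) ^ d / 2 := by positivity
  rw [A5_Mp, A5_Mp, hn, ← mul_div_assoc, div_le_div_iff₀ hp hp4]
  calc (∑ p ∈ eS s, φ (pt t p.1 p.2)) * ((4 : ℝ) ^ d / 2)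
      ≤ (∑ p ∈ eS (none : Shp d), φ (pt t p.1 p.2)) * ((4 : ℝ) ^ d / 2) :=
        mul_le_mul_of_nonneg_right hsub hp4.le
    _ ≤ (∑ p ∈ eS (none : Shp d), φ (pt t p.1 p.2)) * (4 * ((eS s).card : ℝ)) :=
        mul_le_mul_of_nonneg_left hc h0
    _ = 4 * (∑ p ∈ eS (none : Shp d), φ (pt t p.1 p.2)) * ((eS s).card : ℝ) := by ring

/-- the even points are the flipped odd points -/
private theorem A5_flip (i : Fin d) (H : Bt d × Bt d → ℝ) :
    ∑ p ∈ eS (none : Shp d), H p = ∑ p ∈ oS (none : Shp d), H (LO.flp p.1 i, p.2) := by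
  refine Finset.sum_nbij' (fun p => (LO.flp p.1 i, p.2)) (fun p => (LO.flp p.1 i, p.2)) ?_ ?_ ?_ ?_ ?_
  · intro p hp
    rw [A5_mem_eS] at hp
    rw [A5_mem_oS]
    refine ⟨?_, trivial⟩
    rw [A5_od_flp]
    exact hp.1
  · intro p hp
    rw [A5_mem_oS] at hp
    rw [A5_mem_eS]
    refine ⟨?_, trivial⟩
    rw [A5_od_flp, not_not]
    exact hp.1
  · intro p _
    simp [A5_flp_flp]
  · intro p _
    simp [A5_flp_flp]
  · intro p _
    simp [A5_flp_flp]

private theorem A5_flip_le (hd : 2 ≤ d) (i : Fin d) (t : Blk d k) (ψ Φ : Site d (k + 1) → ℝ)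
    (h : ∀ x β, ψ (x + sv (i, β)) ≤ Φ x) : Mp true none t ψ ≤ Ms none t Φ := by
  have e1 : ((eS (none : Shp d)).card : ℝ) = ((oS (none : Shp d)).card : ℝ) := by
    rw [A5_card hd, oS_card hd]
  rw [A5_Mp, A5_flip i (fun p => ψ (pt t p.1 p.2)), e1]
  unfold Ms
  refine div_le_div_of_nonneg_right (Finset.sum_le_sum fun p _ => ?_) (Nat.cast_nonneg _)
  show ψ (pt t (LO.flp p.1 i) p.2) ≤ Φ (pt t p.1 p.2)
  rw [(pt_flp t p.1 p.2 i).1]
  exact h _ _

/-- sum of the block means over the odd points of a nonnegative function -/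
private theorem A5_sumo (hd : 2 ≤ d) (hk : 1 ≤ k) (D : ℝ) (φ : Site d (k + 1) → ℝ) (h0 : ∀ x, 0 ≤ φ x)
    (h : ∑ x, φ x ≤ D * NN d (k + 1)) : ∑ t : Blk d k, Ms none t φ ≤ 2 * D * NN d k := by
  rw [Ms_sum hd hk]
  have h1 : ∑ v ∈ ods d (k + 1), φ v ≤ ∑ x, φ x :=
    Finset.sum_le_sum_of_subset_of_nonneg (Finset.subset_univ _) fun x _ _ => h0 x
  have h2 := h1.trans h
  rw [NN_succ] at h2
  have h3 : (0 : ℝ) < 2 ^ d := by positivity
  calc 2 / 2 ^ d * ∑ v ∈ ods d (k + 1), φ v ≤ 2 / 2 ^ d * (D * (2 ^ d * NN d k)) :=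
        mul_le_mul_of_nonneg_left h2 (by positivity)
    _ = 2 * D * NN d k := by
        field_simp

private theorem A5_transl (τ : Site d (k + 1)) (φ : Site d (k + 1) → ℝ) : ∑ x, φ (x + τ) = ∑ x, φ x :=
  Fintype.sum_equiv (Equiv.addRight τ) _ _ fun _ => rfl

/-- sum of the block means over the even points of a nonnegative function -/
private theorem A5_sume (hd : 2 ≤ d) (hk : 1 ≤ k) (D : ℝ) (φ : Site d (k + 1) → ℝ) (h0 : ∀ x, 0 ≤ φ x)
    (h : ∑ x, φ x ≤ D * NN d (k + 1)) : ∑ t : Blk d k, Mp true none t φ ≤ 4 * D * NN d k := by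
  obtain ⟨i⟩ : Nonempty (Fin d) := ⟨⟨0, by omega⟩⟩
  have h1 : ∀ t : Blk d k, Mp true none t φ ≤ Ms none t fun x => φ (x + sv (i, true)) + φ (x + sv (i, false)) := by
    intro t
    refine A5_flip_le hd i t φ _ fun x β => ?_
    have e1 := h0 (x + sv (i, true))
    have e2 := h0 (x + sv (i, false))
    cases β
    · linarith
    · linarith
  refine (Finset.sum_le_sum fun t _ => h1 t).trans ?_
  have h2 := A5_sumo (k := k) hd hk (2 * D) (fun x => φ (x + sv (i, true)) + φ (x + sv (i, false)))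
    (fun x => add_nonneg (h0 _) (h0 _)) (by
      rw [Finset.sum_add_distrib, A5_transl, A5_transl]
      linarith)
  linarith

private theorem A5_exp {u v : ℝ} (hu : 0 ≤ u) (hv : 0 ≤ v) : |Real.exp (-u) - Real.exp (-v)| ≤ |u - v| := by
  wlog h : u ≤ v generalizing u v
  · rw [abs_sub_comm, abs_sub_comm u v]
    exact this hv hu (le_of_not_ge h)
  have e1 : Real.exp (-v) = Real.exp (-u) * Real.exp (-(v - u)) := by
    rw [← Real.exp_add]
    congr 1
    ring
  have e2 := Real.add_one_le_exp (-(v - u))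
  have e3 : Real.exp (-u) ≤ 1 := Real.exp_le_one_iff.mpr (by linarith)
  have e4 : Real.exp (-v) ≤ Real.exp (-u) := Real.exp_le_exp.mpr (by linarith)
  have e5 := Real.exp_pos (-u)
  rw [abs_of_nonneg (by linarith), abs_of_nonpos (by linarith), e1]
  nlinarith

private theorem A5_F {a m A y τ : ℝ} (ha0 : 0 ≤ a) (haA : a ≤ A) (hy : 0 ≤ y) (hτ : 0 ≤ τ) :
    |Fy a m y - Fy a m τ| ≤ A * Real.exp A * |y - τ| ∧ |Fy a m y - Fy a m τ| ≤ Real.exp A := by
  have h1 : Real.exp (-A) ≤ als a m := by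
    unfold als
    calc Real.exp (-A) ≤ Real.exp (-a) := Real.exp_le_exp.mpr (by linarith)
      _ = Real.exp (-a) * 1 := (mul_one _).symm
      _ ≤ Real.exp (-a) * Real.cosh (a * m) := mul_le_mul_of_nonneg_left (Real.one_le_cosh _) (Real.exp_pos _).le
  have h0 : 0 < als a m := (Real.exp_pos _).trans_le h1
  have h2 : 1 / als a m ≤ Real.exp A := by
    rw [div_le_iff₀ h0]
    calc (1 : ℝ) = Real.exp A * Real.exp (-A) := by rw [← Real.exp_add]; simp
      _ ≤ _ := mul_le_mul_of_nonneg_left h1 (Real.exp_pos _).le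
  have h3 : |Fy a m y - Fy a m τ| = |Real.exp (-(a * y)) - Real.exp (-(a * τ))| * (1 / als a m) := by
    unfold Fy
    rw [← sub_div, abs_div, abs_of_pos h0]
    ring
  have hay : 0 ≤ a * y := mul_nonneg ha0 hy
  have haτ : 0 ≤ a * τ := mul_nonneg ha0 hτ
  have hA0 : 0 ≤ A := ha0.trans haA
  constructor
  · have h4 := A5_exp hay haτ
    have h5 : |a * y - a * τ| = a * |y - τ| := by
      rw [← mul_sub, abs_mul, abs_of_nonneg ha0]
    rw [h3]
    calc |Real.exp (-(a * y)) - Real.exp (-(a * τ))| * (1 / als a m) ≤ (a * |y - τ|) * Real.exp A :=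
          mul_le_mul (h4.trans h5.le) h2 (by positivity) (by positivity)
      _ ≤ (A * |y - τ|) * Real.exp A := by gcongr
      _ = A * Real.exp A * |y - τ| := by ring
  · have h4 : |Real.exp (-(a * y)) - Real.exp (-(a * τ))| ≤ 1 := by
      have e1 : Real.exp (-(a * y)) ≤ 1 := Real.exp_le_one_iff.mpr (by linarith)
      have e2 : Real.exp (-(a * τ)) ≤ 1 := Real.exp_le_one_iff.mpr (by linarith)
      have e3 := Real.exp_pos (-(a * y))
      have e4 := Real.exp_pos (-(a * τ))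
      rw [abs_le]
      constructor <;> linarith
    rw [h3]
    calc |Real.exp (-(a * y)) - Real.exp (-(a * τ))| * (1 / als a m) ≤ 1 * Real.exp A :=
          mul_le_mul h4 h2 (by positivity) zero_le_one
      _ = Real.exp A := one_mul _

private theorem A5_ya (c : Fin q) (f : Site d k → Fin q) (v : Site d k) : 0 ≤ ya c f v := by
  unfold ya al
  positivity

/-- one block -/
private theorem A5_block (hd : 2 ≤ d) (i : Fin d) {η η' m yM A : ℝ} (hη' : 0 < η') (hle : η' ≤ η)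
    (hA : (A + 1) * Real.exp A * η' ≤ η / 48) (ha0 : 0 ≤ ra d q) (haA : ra d q ≤ A) (hm : 0 ≤ 1 - m) (hm' : 0 ≤ m)
    (hy : 0 ≤ yM) (c : Fin q) (f : Site d (k + 1) → Fin q) (t : Blk d k) (τ : ℝ) (hτ : tauG η' m yM c f t τ)
    (p1 : ∀ s, Mp true s t (fun x => bq c f x - gg c f x) ^ 2 ≤ (η / 6) ^ 2)
    (p2 : Mp true none t (fun x => |gg c f x - zz f x c / al f x|) ≤ η / 24)
    (p3 : ∀ s, Mp true s t (fun x => (zz f x c - zt f x c) / al f x) ^ 2 ≤ (η / 6) ^ 2)
    (p4 : Mp true none t (fun x => |zt f x c / al f x - ya c f x|) ≤ η / 24)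
    (p5 : Ms none t (fun x => |ya c f (x + sv (i, true)) - Fy (ra d q) m (ya c f x)| +
      |ya c f (x + sv (i, false)) - Fy (ra d q) m (ya c f x)|) ≤ η / 48) :
    tau2 η m yM c f t := by
  obtain ⟨t1, t2, t3⟩ := hτ
  have hη : 0 < η := hη'.trans_le hle
  have hτ0 : 0 ≤ τ := by
    rcases t1 with h | h | h <;> linarith
  have hA0 : 0 ≤ A := ha0.trans haA
  have hE := Real.exp_pos A
  set F : ℝ := Fy (ra d q) m τ with hF
  refine ⟨τ, t1, fun s => ?_, fun s => ?_⟩
  · rw [A5_Mpf]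
    exact (t2 s).trans hle
  · -- the last term
    have q5 : Mp true none t (fun x => |ya c f x - F|) ≤ η / 24 := by
      have h1 : Mp true none t (fun x => |ya c f x - F|) ≤
          Ms none t fun x => (|ya c f (x + sv (i, true)) - Fy (ra d q) m (ya c f x)| +
            |ya c f (x + sv (i, false)) - Fy (ra d q) m (ya c f x)|) + |Fy (ra d q) m (ya c f x) - F| := by
        refine A5_flip_le hd i t _ _ fun x β => ?_
        show |ya c f (x + sv (i, β)) - F| ≤ _
        have e1 := abs_sub_le (ya c f (x + sv (i, β))) (Fy (ra d q) m (ya c f x)) F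
        have e2 := abs_nonneg (ya c f (x + sv (i, true)) - Fy (ra d q) m (ya c f x))
        have e3 := abs_nonneg (ya c f (x + sv (i, false)) - Fy (ra d q) m (ya c f x))
        cases β
        · linarith
        · linarith
      have h2 : Ms none t (fun x => |Fy (ra d q) m (ya c f x) - F|) ≤
          Ms none t fun x => A * Real.exp A * η' + Real.exp A * (if η' < |ya c f x - τ| then (1 : ℝ) else 0) := by
        refine Ms_mono none t fun a b _ => ?_
        obtain ⟨e1, e2⟩ := A5_F (m := m) ha0 haA (A5_ya c f (pt t a b)) hτ0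
        have e0 : 0 ≤ A * Real.exp A := by positivity
        by_cases h : η' < |ya c f (pt t a b) - τ|
        · rw [if_pos h]
          have : 0 ≤ A * Real.exp A * η' := by positivity
          linarith
        · rw [if_neg h]
          have h3 : |ya c f (pt t a b) - τ| ≤ η' := not_lt.1 h
          have := mul_le_mul_of_nonneg_left h3 e0
          linarith
      rw [Ms_add none t (fun x => |ya c f (x + sv (i, true)) - Fy (ra d q) m (ya c f x)| +
            |ya c f (x + sv (i, false)) - Fy (ra d q) m (ya c f x)|) (fun x => |Fy (ra d q) m (ya c f x) - F|)] at h1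
      rw [Ms_add none t (fun _ => A * Real.exp A * η') (fun x => Real.exp A * (if η' < |ya c f x - τ| then (1 : ℝ) else 0)),
        Ms_const hd, Ms_mul] at h2
      have h3 := mul_le_mul_of_nonneg_left t3 hE.le
      have h4 : A * Real.exp A * η' + Real.exp A * η' = (A + 1) * Real.exp A * η' := by ring
      linarith
    have hk4 : (0 : ℝ) ≤ η / 6 := by positivity
    have q1 : |Mp true s t (fun x => bq c f x - gg c f x)| ≤ η / 6 := abs_le_of_sq_le_sq (p1 s) hk4
    have q3 : |Mp true s t (fun x => (zz f x c - zt f x c) / al f x)| ≤ η / 6 := abs_le_of_sq_le_sq (p3 s) hk4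
    have q2 : |Mp true s t (fun x => gg c f x - zz f x c / al f x)| ≤ η / 6 := by
      refine (A5_abs s t _).trans ?_
      refine (A5_face hd s t _ fun x => abs_nonneg _).trans ?_
      linarith
    have q4 : |Mp true s t (fun x => zt f x c / al f x - ya c f x)| ≤ η / 6 := by
      refine (A5_abs s t _).trans ?_
      refine (A5_face hd s t _ fun x => abs_nonneg _).trans ?_
      linarith
    have q6 : |Mp true s t (fun x => ya c f x - F)| ≤ η / 6 := by
      refine (A5_abs s t _).trans ?_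
      refine (A5_face hd s t _ fun x => abs_nonneg _).trans ?_
      linarith
    have key : Mp true s t (bq c f) =
        Mp true s t (fun x => bq c f x - gg c f x) + Mp true s t (fun x => gg c f x - zz f x c / al f x) +
          Mp true s t (fun x => (zz f x c - zt f x c) / al f x) + Mp true s t (fun x => zt f x c / al f x - ya c f x) +
          Mp true s t (fun x => ya c f x - F) + F := by
      have h2 : bq c f = fun x => (((((bq c f x - gg c f x) + (gg c f x - zz f x c / al f x)) +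
          ((zz f x c - zt f x c) / al f x)) + (zt f x c / al f x - ya c f x)) + (ya c f x - F)) + F := by
        funext x
        rw [sub_div]
        ring
      conv_lhs => rw [h2]
      rw [A5_add s t _ (fun _ => F), A5_const hd s t F, A5_add s t _ (fun x => ya c f x - F),
        A5_add s t _ (fun x => zt f x c / al f x - ya c f x), A5_add s t _ (fun x => (zz f x c - zt f x c) / al f x),
        A5_add s t _ (fun x => gg c f x - zz f x c / al f x)]
    rw [key]
    have r1 := abs_le.1 q1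
    have r2 := abs_le.1 q2
    have r3 := abs_le.1 q3
    have r4 := abs_le.1 q4
    have r6 := abs_le.1 q6
    rw [abs_le]
    constructor <;> linarith [r1.1, r1.2, r2.1, r2.2, r3.1, r3.2, r4.1, r4.2, r6.1, r6.2]

private theorem A5_mk {T : Type} [Fintype T] (P : T → Prop) (W : T → ℝ) (h0 : ∀ t, 0 ≤ W t) (h : ∀ t, P t → 1 ≤ W t) :
    cn P ≤ ∑ t, W t := by
  classical
  unfold cn
  have h1 : ((univ.filter P).card : ℝ) = ∑ t ∈ univ.filter P, (1 : ℝ) := by simp
  rw [h1]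
  calc ∑ t ∈ univ.filter P, (1 : ℝ) ≤ ∑ t ∈ univ.filter P, W t :=
        Finset.sum_le_sum fun t ht => h t (Finset.mem_filter.1 ht).2
    _ ≤ ∑ t, W t := Finset.sum_le_sum_of_subset_of_nonneg (Finset.subset_univ _) fun t _ _ => h0 t

private theorem A5_cn {T : Type} [Fintype T] (P : T → Prop) [inst : DecidablePred P] :
    cn P = ((univ.filter P).card : ℝ) := by
  unfold cn
  have h : inst = fun a => Classical.propDecidable (P a) := Subsingleton.elim _ _
  rw [h]

private theorem A5_ind {T : Type} [Fintype T] (P : T → Prop) : ∑ t, ind (P t) = cn P := by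
  classical
  unfold cn ind
  rw [Finset.sum_boole]

private theorem A5_shp (d : ℕ) : (Fintype.card (Shp d) : ℝ) = 2 * d + 1 := by
  rw [Fintype.card_option, Fintype.card_prod, Fintype.card_fin, Fintype.card_bool]
  push_cast
  ring

private theorem A5_Mp0 (s : Shp d) (t : Blk d k) (φ : Site d (k + 1) → ℝ) (h : ∀ x, 0 ≤ φ x) : 0 ≤ Mp true s t φ := by
  rw [A5_Mp]
  exact div_nonneg (Finset.sum_nonneg fun p _ => h _) (Nat.cast_nonneg _)

private theorem A5_Ms0 (s : Shp d) (t : Blk d k) (φ : Site d (k + 1) → ℝ) (h : ∀ x, 0 ≤ φ x) : 0 ≤ Ms s t φ := by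
  unfold Ms
  exact div_nonneg (Finset.sum_nonneg fun p _ => h _) (Nat.cast_nonneg _)

private theorem A5_sv (l : Fin d) (β : Bool) : (sv (l, β) : Site d k) + sv (l, !β) = 0 := by
  unfold sv
  rw [← Pi.single_add]
  cases β <;> simp

/-- number of exceptional blocks -/
private theorem A5_count (hd : 2 ≤ d) (hk : 1 ≤ k) (i : Fin d) {η η' m yM A δ : ℝ} (hδ : 0 < δ) (hη' : 0 < η')
    (hle : η' ≤ η) (hA : (A + 1) * Real.exp A * η' ≤ η / 48) (ha0 : 0 ≤ ra d q) (haA : ra d q ≤ A) (hm : 0 ≤ 1 - m)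
    (hm' : 0 ≤ m) (hy : 0 ≤ yM) (c : Fin q) (f : Site d (k + 1) → Fin q)
    (n0 : cn (fun t : Blk d k => ¬ ∃ τ, tauG η' m yM c f t τ) ≤ δ / 4 * NN d k)
    (n1 : ∀ s : Shp d, ∑ t : Blk d k, Mp true s t (fun x => bq c f x - gg c f x) ^ 2 ≤ NN d k / (d : ℝ) ^ 4)
    (n2 : ∑ x, |gg c f x - zz f x c / al f x| ≤ δ * η / 768 * NN d (k + 1))
    (n3 : ∀ s : Shp d,
      ∑ t : Blk d k, Mp true s t (fun x => (zz f x c - zt f x c) / al f x) ^ 2 ≤ NN d k / (d : ℝ) ^ 4)
    (n4 : ∑ x, |zt f x c / al f x - ya c f x| ≤ δ * η / 768 * NN d (k + 1))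
    (n5 : ∀ σ : Stp d, ∑ v, |ya c f v - Fy (ra d q) m (ya c f (v + sv σ))| ≤ δ * η / 768 * NN d (k + 1))
    (hdd : 864 / (η ^ 2 * δ) ≤ d) :
    cn (fun t : Blk d k => ¬ tau2 η m yM c f t) ≤ δ * NN d k := by
  classical
  have hη : 0 < η := hη'.trans_le hle
  have hN : 0 ≤ NN d k := by unfold NN; positivity
  have hd0 : (0 : ℝ) < d := by
    have : 0 < d := by omega
    exact_mod_cast this
  obtain ⟨E0, hE0⟩ : ∃ E : Blk d k → ℝ, ∀ t, E t = ind (¬ ∃ τ, tauG η' m yM c f t τ) := ⟨_, fun t => rfl⟩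
  obtain ⟨E1, hE1⟩ : ∃ E : Blk d k → ℝ, ∀ t, E t = ∑ s, Mp true s t (fun x => bq c f x - gg c f x) ^ 2 :=
    ⟨_, fun t => rfl⟩
  obtain ⟨E2, hE2⟩ : ∃ E : Blk d k → ℝ, ∀ t, E t = Mp true none t (fun x => |gg c f x - zz f x c / al f x|) :=
    ⟨_, fun t => rfl⟩
  obtain ⟨E3, hE3⟩ : ∃ E : Blk d k → ℝ, ∀ t, E t = ∑ s, Mp true s t (fun x => (zz f x c - zt f x c) / al f x) ^ 2 :=
    ⟨_, fun t => rfl⟩
  obtain ⟨E4, hE4⟩ : ∃ E : Blk d k → ℝ, ∀ t, E t = Mp true none t (fun x => |zt f x c / al f x - ya c f x|) :=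
    ⟨_, fun t => rfl⟩
  obtain ⟨E5, hE5⟩ : ∃ E : Blk d k → ℝ, ∀ t, E t = Ms none t (fun x =>
      |ya c f (x + sv (i, true)) - Fy (ra d q) m (ya c f x)| +
      |ya c f (x + sv (i, false)) - Fy (ra d q) m (ya c f x)|) := ⟨_, fun t => rfl⟩
  have m0 : ∀ t, 0 ≤ E0 t := fun t => by
    rw [hE0]
    unfold ind
    split_ifs <;> norm_num
  have m1 : ∀ t, 0 ≤ E1 t := fun t => by
    rw [hE1]
    exact Finset.sum_nonneg fun s _ => sq_nonneg _
  have m2 : ∀ t, 0 ≤ E2 t := fun t => by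
    rw [hE2]
    exact A5_Mp0 _ _ _ fun x => abs_nonneg _
  have m3 : ∀ t, 0 ≤ E3 t := fun t => by
    rw [hE3]
    exact Finset.sum_nonneg fun s _ => sq_nonneg _
  have m4 : ∀ t, 0 ≤ E4 t := fun t => by
    rw [hE4]
    exact A5_Mp0 _ _ _ fun x => abs_nonneg _
  have m5 : ∀ t, 0 ≤ E5 t := fun t => by
    rw [hE5]
    exact A5_Ms0 _ _ _ fun x => add_nonneg (abs_nonneg _) (abs_nonneg _)
  have hmk := A5_mk (fun t : Blk d k => ¬ tau2 η m yM c f t)
    (fun t => E0 t + 36 / η ^ 2 * E1 t + 24 / η * E2 t + 36 / η ^ 2 * E3 t + 24 / η * E4 t + 48 / η * E5 t) ?_ ?_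
  · refine hmk.trans ?_
    have s0 : ∑ t, E0 t ≤ δ / 4 * NN d k := by
      refine le_trans (le_of_eq ?_) n0
      rw [Finset.sum_congr rfl fun t _ => hE0 t]
      exact A5_ind _
    have s1 : ∑ t, E1 t ≤ (2 * d + 1) * (NN d k / (d : ℝ) ^ 4) := by
      rw [Finset.sum_congr rfl fun t _ => hE1 t, Finset.sum_comm, ← A5_shp, ← Finset.card_univ, ← nsmul_eq_mul,
        ← Finset.sum_const]
      exact Finset.sum_le_sum fun s _ => n1 s
    have s3 : ∑ t, E3 t ≤ (2 * d + 1) * (NN d k / (d : ℝ) ^ 4) := by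
      rw [Finset.sum_congr rfl fun t _ => hE3 t, Finset.sum_comm, ← A5_shp, ← Finset.card_univ, ← nsmul_eq_mul,
        ← Finset.sum_const]
      exact Finset.sum_le_sum fun s _ => n3 s
    have s2 : ∑ t, E2 t ≤ 4 * (δ * η / 768) * NN d k := by
      rw [Finset.sum_congr rfl fun t _ => hE2 t]
      exact A5_sume hd hk _ _ (fun x => abs_nonneg _) n2
    have s4 : ∑ t, E4 t ≤ 4 * (δ * η / 768) * NN d k := by
      rw [Finset.sum_congr rfl fun t _ => hE4 t]
      exact A5_sume hd hk _ _ (fun x => abs_nonneg _) n4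
    have n6 : ∀ β : Bool, ∑ x, |ya c f (x + sv (i, β)) - Fy (ra d q) m (ya c f x)| ≤
        δ * η / 768 * NN d (k + 1) := by
      intro β
      refine le_trans (le_of_eq ?_) (n5 (i, !β))
      rw [← A5_transl (sv (i, β)) fun v => |ya c f v - Fy (ra d q) m (ya c f (v + sv (i, !β)))|]
      refine Finset.sum_congr rfl fun x _ => ?_
      rw [add_assoc, A5_sv, add_zero]
    have s5 : ∑ t, E5 t ≤ 2 * (2 * (δ * η / 768)) * NN d k := by
      rw [Finset.sum_congr rfl fun t _ => hE5 t]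
      refine A5_sumo hd hk _ _ (fun x => add_nonneg (abs_nonneg _) (abs_nonneg _)) ?_
      rw [Finset.sum_add_distrib]
      have e1 := n6 true
      have e2 := n6 false
      linarith
    rw [Finset.sum_add_distrib, Finset.sum_add_distrib, Finset.sum_add_distrib, Finset.sum_add_distrib,
      Finset.sum_add_distrib, ← Finset.mul_sum, ← Finset.mul_sum, ← Finset.mul_sum, ← Finset.mul_sum, ← Finset.mul_sum]
    have hη2 : 0 < η ^ 2 := by positivity
    have w1 : 36 / η ^ 2 * ((2 * d + 1) * (NN d k / (d : ℝ) ^ 4)) ≤ δ / 8 * NN d k := by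
      have h3 : 864 ≤ d * (η ^ 2 * δ) := (div_le_iff₀ (by positivity)).1 hdd
      have hd1 : (1 : ℝ) ≤ d := by
        have : 1 ≤ d := by omega
        exact_mod_cast this
      have h4 : (1 : ℝ) ≤ (d : ℝ) ^ 2 := one_le_pow₀ hd1
      have h5 : 36 * (2 * (d : ℝ) + 1) ≤ δ / 8 * (η ^ 2 * (d : ℝ) ^ 4) := by
        calc 36 * (2 * (d : ℝ) + 1) ≤ 36 * (3 * d) := by linarith
          _ = 864 * (d / 8) := by ring
          _ ≤ d * (η ^ 2 * δ) * (d / 8) := mul_le_mul_of_nonneg_right h3 (by positivity)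
          _ = δ / 8 * (η ^ 2 * (d : ℝ) ^ 2) * 1 := by ring
          _ ≤ δ / 8 * (η ^ 2 * (d : ℝ) ^ 2) * (d : ℝ) ^ 2 := mul_le_mul_of_nonneg_left h4 (by positivity)
          _ = δ / 8 * (η ^ 2 * (d : ℝ) ^ 4) := by ring
      calc 36 / η ^ 2 * ((2 * d + 1) * (NN d k / (d : ℝ) ^ 4)) =
            36 * (2 * (d : ℝ) + 1) * (NN d k / (η ^ 2 * (d : ℝ) ^ 4)) := by field_simp
        _ ≤ δ / 8 * (η ^ 2 * (d : ℝ) ^ 4) * (NN d k / (η ^ 2 * (d : ℝ) ^ 4)) :=
            mul_le_mul_of_nonneg_right h5 (by positivity)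
        _ = δ / 8 * NN d k := by field_simp
    have v1 : 36 / η ^ 2 * ∑ t, E1 t ≤ δ / 8 * NN d k :=
      (mul_le_mul_of_nonneg_left s1 (by positivity)).trans w1
    have v3 : 36 / η ^ 2 * ∑ t, E3 t ≤ δ / 8 * NN d k :=
      (mul_le_mul_of_nonneg_left s3 (by positivity)).trans w1
    have w2 : 24 / η * (4 * (δ * η / 768) * NN d k) = δ / 8 * NN d k := by
      field_simp
      ring
    have w5 : 48 / η * (2 * (2 * (δ * η / 768)) * NN d k) = δ / 4 * NN d k := by
      field_simp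
      ring
    have v2 : 24 / η * ∑ t, E2 t ≤ δ / 8 * NN d k :=
      (mul_le_mul_of_nonneg_left s2 (by positivity)).trans w2.le
    have v4 : 24 / η * ∑ t, E4 t ≤ δ / 8 * NN d k :=
      (mul_le_mul_of_nonneg_left s4 (by positivity)).trans w2.le
    have v5 : 48 / η * ∑ t, E5 t ≤ δ / 4 * NN d k :=
      (mul_le_mul_of_nonneg_left s5 (by positivity)).trans w5.le
    linarith
  · intro t
    have := m0 t
    have := m1 t
    have := m2 t
    have := m3 t
    have := m4 t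
    have := m5 t
    positivity
  · intro t ht
    by_contra hW
    have hW' := not_le.1 hW
    have u1 : 0 ≤ 36 / η ^ 2 * E1 t := mul_nonneg (by positivity) (m1 t)
    have u2 : 0 ≤ 24 / η * E2 t := mul_nonneg (by positivity) (m2 t)
    have u3 : 0 ≤ 36 / η ^ 2 * E3 t := mul_nonneg (by positivity) (m3 t)
    have u4 : 0 ≤ 24 / η * E4 t := mul_nonneg (by positivity) (m4 t)
    have u5 : 0 ≤ 48 / η * E5 t := mul_nonneg (by positivity) (m5 t)
    have u0 := m0 t
    have x0 : E0 t < 1 := by linarith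
    have x1 : 36 / η ^ 2 * E1 t < 1 := by linarith
    have x2 : 24 / η * E2 t < 1 := by linarith
    have x3 : 36 / η ^ 2 * E3 t < 1 := by linarith
    have x4 : 24 / η * E4 t < 1 := by linarith
    have x5 : 48 / η * E5 t < 1 := by linarith
    have hη2 : 0 < η ^ 2 := by positivity
    have y1 : E1 t ≤ (η / 6) ^ 2 := by
      rw [div_mul_eq_mul_div, div_lt_one hη2] at x1
      nlinarith
    have y3 : E3 t ≤ (η / 6) ^ 2 := by
      rw [div_mul_eq_mul_div, div_lt_one hη2] at x3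
      nlinarith
    have y2 : E2 t ≤ η / 24 := by
      rw [div_mul_eq_mul_div, div_lt_one hη] at x2
      linarith
    have y4 : E4 t ≤ η / 24 := by
      rw [div_mul_eq_mul_div, div_lt_one hη] at x4
      linarith
    have y5 : E5 t ≤ η / 48 := by
      rw [div_mul_eq_mul_div, div_lt_one hη] at x5
      linarith
    have y0 : ∃ τ, tauG η' m yM c f t τ := by
      by_contra hc
      rw [hE0] at x0
      unfold ind at x0
      rw [if_pos hc] at x0
      exact lt_irrefl _ x0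
    obtain ⟨τ, hτ⟩ := y0
    rw [hE1] at y1
    rw [hE2] at y2
    rw [hE3] at y3
    rw [hE4] at y4
    rw [hE5] at y5
    refine ht (A5_block hd i hη' hle hA ha0 haA hm hm' hy c f t τ hτ (fun s => ?_) y2 (fun s => ?_) y4 y5)
    · exact (Finset.single_le_sum (f := fun s => Mp true s t (fun x => bq c f x - gg c f x) ^ 2)
        (fun s _ => sq_nonneg _) (Finset.mem_univ s)).trans y1
    · exact (Finset.single_le_sum (f := fun s => Mp true s t (fun x => (zz f x c - zt f x c) / al f x) ^ 2)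
        (fun s _ => sq_nonneg _) (Finset.mem_univ s)).trans y3

end basic

theorem tau2_wop (η δ : ℝ) (hη : 0 < η) (hδ : 0 < δ) :
    WOPb e3 fun d k q f => Rg d q → ∀ yM : ℝ, YM (ra d q) (ms d q) yM → ∀ c : Fin q,
      cn (fun t : Blk d k => ¬ tau2 η (ms d q) yM c f t) ≤ δ * NN d k := by
  have hε : 0 < e3 := by unfold e3; norm_num
  have hε1 : e3 ≤ 1 := by unfold e3; norm_num
  have hE := Real.exp_pos (A0 e3)
  have hA0 : 0 < A0 e3 := by unfold A0; positivity
  obtain ⟨η', hη', hle, hA⟩ : ∃ η' : ℝ, 0 < η' ∧ η' ≤ η ∧ (A0 e3 + 1) * Real.exp (A0 e3) * η' ≤ η / 48 := by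
    refine ⟨min η (η / 48 / ((A0 e3 + 1) * Real.exp (A0 e3))), lt_min hη (by positivity), min_le_left _ _, ?_⟩
    have h1 := min_le_right η (η / 48 / ((A0 e3 + 1) * Real.exp (A0 e3)))
    rw [le_div_iff₀ (by positivity)] at h1
    linarith
  have hδ2 : 0 < δ * η / 768 := by positivity
  obtain ⟨t₀, C₆, -, -, -, hpin⟩ := pin_wop hε hε1
  obtain ⟨δ₁, hδ₁, hgg⟩ := gg_det hε hε1 C₆ t₀ (δ * η / 768) hδ2
  have hzt := zt_det hε hε1 C₆ t₀ (δ * η / 768) hδ2
  have hreg := EvT_reg hε hε1 (max 2 (864 / (η ^ 2 * δ)))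
  have hb := breg_wop hε hε1 η' (δ / 4) hη' (by positivity)
  refine (((((hpin (min δ₁ (δ * η / 768)) (lt_min hδ₁ hδ2)).blk).and hb).and blk_bq2).and blk_zz2).mono
    (((hgg.shift.and hzt.shift).and hreg).mono ?_)
  rintro d k q ⟨⟨hg, hz⟩, hMd, hMq, hMk, hdq, -, -, haA, -⟩ f hf ⟨⟨⟨⟨hG, hP⟩, hB⟩, h3⟩, h4⟩ hR yM hyM c
  have hd2 : (2 : ℝ) ≤ d := (le_max_left _ _).trans hMd
  have hd : 2 ≤ d := by exact_mod_cast hd2
  have hk2 : (2 : ℝ) ≤ k := (le_max_left _ _).trans hMk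
  have hk : 1 ≤ k := by
    have : 2 ≤ k := by exact_mod_cast hk2
    omega
  obtain ⟨i⟩ : Nonempty (Fin d) := ⟨⟨0, by omega⟩⟩
  have hms := ms_spec (by omega : 1 ≤ d) hR
  obtain ⟨-, ha, -, -, -, -, -, -, -⟩ := rg_pos (by omega : 1 ≤ d) hR
  obtain ⟨hm0, hm1, -⟩ := mf_num ha hms
  have hNN : 0 ≤ NN d (k + 1) := by unfold NN; positivity
  have hle1 : min δ₁ (δ * η / 768) * NN d (k + 1) ≤ δ₁ * NN d (k + 1) :=
    mul_le_mul_of_nonneg_right (min_le_left _ _) hNN
  have hle2 : min δ₁ (δ * η / 768) * NN d (k + 1) ≤ δ * η / 768 * NN d (k + 1) :=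
    mul_le_mul_of_nonneg_right (min_le_right _ _) hNN
  have hG1 : Good e3 δ₁ C₆ t₀ f :=
    ⟨hG.irr4, hG.grad, hG.smo, fun c σ τ => (hG.hom c σ τ).trans hle1, hG.avl.trans hle1,
      fun c σ => (hG.mf c σ).trans hle1, fun c => (hG.sm0 c).trans hle1, fun c σ => (hG.sm1 c σ).trans hle1,
      fun c => (hG.sm2 c).trans hle1⟩
  have hPin := hP (ms d q) yM hms hyM
  have hB' := hB (ms d q) yM hms hyM c
  refine A5_count hd hk i hδ hη' hle hA (by linarith) haA (by linarith) hm0.le hyM.1 c f ?_ (fun s => h3 true c s)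
    (hg f hf hG1 c) (fun s => h4 true c s) (hz f hf hG.irr4 c) (fun σ => (hPin.yF c σ).trans hle2)
    ((le_max_right _ _).trans hMd)
  exact (@A5_cn _ _ _ (_)).trans_le hB'

end Pool.Agent.LC

end

/-! ### from `Lib_MP_2c424f_lc1.A1` -/

section

/-!
# LC1 A1: few sites of colour `c` with few available colours

`pin_wop` (with `ms_spec`): w.o.p. `∑ (av/q - al)² ≤ δ₁ N`, `∑ |al - als| ≤ δ₁ N`, `als ≥ 0.49`, so `#{v : av f v < q/4} ≤ C δ₁ N`.
For the class `b` of `v` resample `b` (`o = own class`): `1[av f v < q/4]` does not change, `P(f v = c) = zz/av ≤ 1/(c1 q)` at regular sites (`avail` for the others),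
`WOPi_tail` for the fluctuation (`κ = 0`, level `K = 3`: `N/d^3 ≤ δ N/(4q)`).  Choose `δ₁` small depending on `δ`, `c1`.
-/

set_option autoImplicit false

open Finset Filter

namespace Pool.Agent.LC

open Pool.Agent.LO Pool.Agent.LIN Pool.Agent.THR Pool.Agent.COR

section aux
variable {d k q : ℕ}

private theorem A1_prp {f : Site d k → Fin q} (hf : f ∈ prps d k q) : Prp f := by
  classical
  exact (mem_filter.1 hf).2

private theorem A1_NN (d k : ℕ) : 0 ≤ NN d k := by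
  unfold NN
  positivity

private theorem A1_cn {α : Type} [Fintype α] (P : α → Prop) [DecidablePred P] :
    cn P = ∑ v, if P v then (1 : ℝ) else 0 := by
  classical
  unfold cn
  rw [card_filter, Nat.cast_sum]
  refine sum_congr rfl fun v _ => ?_
  by_cases h : P v
  · simp [h]
  · simp [h]

open scoped Classical in
/-- sites of the class with colour `c` and few available colours -/
private noncomputable def A1Psi (b : Bool) (c : Fin q) (f : Site d k → Fin q) : ℝ :=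
  ∑ v ∈ cls b d k, if (av f v : ℝ) < q / 4 then (if f v = c then (1 : ℝ) else 0) else 0

private theorem A1_ne (hk : 1 ≤ k) (b : Bool) {u v : Site d k} (hu : u ∈ cls b d k) (hv : v ∈ cls b d k) (σ : Stp d) :
    u + sv σ ≠ v := by
  intro h
  rw [← h, mem_cls_step hk, cls_not] at hv
  exact hv hu

private theorem A1_av (hk : 1 ≤ k) (b : Bool) {u v : Site d k} (hu : u ∈ cls b d k) (hv : v ∈ cls b d k)
    (h : Site d k → Fin q) (γ : Fin q) : av (Function.update h v γ) u = av h u := by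
  unfold av SS
  rw [Finset.image_congr fun σ _ => (Function.update_of_ne (A1_ne hk b hu hv σ) γ h)]

private theorem A1_lip (hk : 1 ≤ k) (b : Bool) (c : Fin q) :
    Lip b ((d : ℝ) ^ 0) (A1Psi b c : (Site d k → Fin q) → ℝ) := by
  classical
  intro f _ h _ v hv γ _
  rw [pow_zero]
  unfold A1Psi
  rw [← sum_sub_distrib, ← add_sum_erase _ _ hv]
  rw [sum_eq_zero (s := (cls b d k).erase v), add_zero, A1_av hk b hv hv]
  · split_ifs <;> norm_num
  · intro u hu
    have hu1 := mem_erase.1 hu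
    rw [A1_av hk b hu1.2 hv, Function.update_of_ne hu1.1, sub_self]

private theorem A1_fm {ε : ℝ} (hk : 1 ≤ k) (hq : 1 ≤ q) (b : Bool) (c : Fin q) {f : Site d k → Fin q}
    (hf : Prp f) : fm b (A1Psi b c) f ≤
      1 / (c1 ε * q) * cn (fun v : Site d k => (av f v : ℝ) < q / 4) + irr ε f := by
  classical
  have h1 : fm b (A1Psi b c) f = ∑ v ∈ cls b d k,
      fm b (fun h => if (av h v : ℝ) < q / 4 then (if h v = c then (1 : ℝ) else 0) else 0) f := by
    unfold A1Psi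
    exact fm_sum b f _ _
  have h2 : ∀ v ∈ cls b d k,
      fm b (fun h => if (av h v : ℝ) < q / 4 then (if h v = c then (1 : ℝ) else 0) else 0) f ≤
      1 / (c1 ε * q) * (if (av f v : ℝ) < q / 4 then (1 : ℝ) else 0) +
        (if (av f v : ℝ) < c1 ε * q then (1 : ℝ) else 0) := by
    intro v hv
    have h3 : fm b (fun h => if (av h v : ℝ) < q / 4 then (if h v = c then (1 : ℝ) else 0) else 0) f =
        fm b (fun h => if (av f v : ℝ) < q / 4 then (if h v = c then (1 : ℝ) else 0) else 0) f := by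
      refine fm_congr b fun h hh => ?_
      have : av h v = av f v := by
        unfold av
        rw [fib_SS hk b hh v hv]
      rw [this]
    rw [h3]
    have hc0 : 0 < c1 ε := by
      unfold c1
      positivity
    have hq0 : (0 : ℝ) < q := by exact_mod_cast hq
    have h5 : 0 ≤ 1 / (c1 ε * q) := by positivity
    by_cases hs : (av f v : ℝ) < q / 4
    · simp only [if_pos hs]
      rw [fm_ind hk b hf v hv c, mul_one]
      by_cases hr : (av f v : ℝ) < c1 ε * q
      · rw [if_pos hr]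
        have := (zz_av_le hf v c).2
        linarith
      · rw [if_neg hr, add_zero]
        exact zz_reg hq v (not_lt.1 hr) c
    · simp only [if_neg hs]
      rw [fm_const b hf 0, mul_zero, zero_add]
      split_ifs <;> norm_num
  rw [h1]
  refine (sum_le_sum h2).trans ?_
  rw [sum_add_distrib, ← mul_sum]
  have hc0 : 0 < c1 ε := by
    unfold c1
    positivity
  have hq0 : (0 : ℝ) < q := by exact_mod_cast hq
  have h5 : 0 ≤ 1 / (c1 ε * q) := by positivity
  have h6 : ∑ v ∈ cls b d k, (if (av f v : ℝ) < q / 4 then (1 : ℝ) else 0) ≤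
      cn (fun v : Site d k => (av f v : ℝ) < q / 4) := by
    rw [A1_cn]
    refine sum_le_sum_of_subset_of_nonneg (subset_univ _) fun v _ _ => ?_
    split_ifs <;> norm_num
  have h7 : ∑ v ∈ cls b d k, (if (av f v : ℝ) < c1 ε * q then (1 : ℝ) else 0) ≤ irr ε f := by
    have h8 : irr ε f = ∑ v : Site d k, (if (av f v : ℝ) < c1 ε * q then (1 : ℝ) else 0) := by
      unfold irr
      rw [card_filter, Nat.cast_sum]
      refine sum_congr rfl fun v _ => ?_
      split_ifs <;> simp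
    rw [h8]
    refine sum_le_sum_of_subset_of_nonneg (subset_univ _) fun v _ _ => ?_
    split_ifs <;> norm_num
  have h9 := mul_le_mul_of_nonneg_left h6 h5
  linarith

private theorem A1_split (c : Fin q) (f : Site d k → Fin q) :
    cn (fun v : Site d k => f v = c ∧ (av f v : ℝ) < q / 4) = A1Psi true c f + A1Psi false c f := by
  classical
  rw [A1_cn]
  unfold A1Psi cls evs ods
  simp only [if_true, Bool.false_eq_true, if_false]
  rw [← sum_filter_add_sum_filter_not univ (fun v : Site d k => evn v)]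
  congr 1 <;>
  · refine sum_congr rfl fun v _ => ?_
    by_cases h1 : f v = c <;> by_cases h2 : (av f v : ℝ) < q / 4 <;> simp [h1, h2]

/-- few sites with few available colours -/
private theorem A1_small {δ s : ℝ} {f : Site d k → Fin q} (hs : 49 / 100 ≤ s)
    (hq : 0 < q)
    (h1 : ∑ v : Site d k, ((av f v : ℝ) / q - al f v) ^ 2 ≤ δ * NN d k)
    (h2 : ∑ v : Site d k, |al f v - s| ≤ δ * NN d k) :
    cn (fun v : Site d k => (av f v : ℝ) < q / 4) ≤ 80 * (δ * NN d k) := by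
  classical
  have hq0 : (0 : ℝ) < q := by exact_mod_cast hq
  rw [A1_cn]
  have h3 : ∀ v : Site d k, (if (av f v : ℝ) < q / 4 then (1 : ℝ) else 0) ≤
      70 * ((av f v : ℝ) / q - al f v) ^ 2 + 9 * |al f v - s| := by
    intro v
    split_ifs with h
    · have h4 : (av f v : ℝ) / q < 1 / 4 := by
        rw [div_lt_iff₀ hq0]
        linarith
      have h5 : s - al f v ≤ |al f v - s| := by
        rw [abs_sub_comm]
        exact le_abs_self _
      obtain ⟨x, hx⟩ : ∃ x : ℝ, x = al f v - (av f v : ℝ) / q := ⟨_, rfl⟩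
      have h6 : ((av f v : ℝ) / q - al f v) ^ 2 = x ^ 2 := by
        rw [hx]
        ring
      have h7 : 6 / 25 ≤ |al f v - s| + x := by
        rw [hx]
        linarith
      rw [h6]
      have h8 : 0 ≤ |al f v - s| := abs_nonneg _
      nlinarith [sq_nonneg (x - 3 / 25), sq_nonneg x]
    · positivity
  refine (sum_le_sum fun v _ => h3 v).trans ?_
  rw [sum_add_distrib, ← mul_sum, ← mul_sum]
  have h9 : 0 ≤ δ * NN d k := le_trans (sum_nonneg fun v _ => abs_nonneg _) h2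
  linarith

end aux

theorem few_small (δ : ℝ) (hδ : 0 < δ) : WOP e3 fun d k q f => Rg d q → ∀ c : Fin q,
    cn (fun v => f v = c ∧ (av f v : ℝ) < q / 4) ≤ δ * NN d k / q := by
  have hε : 0 < e3 := by
    unfold e3
    norm_num
  have hε1 : e3 ≤ 1 := by
    unfold e3
    norm_num
  have hc0 : 0 < c1 e3 := by
    unfold c1
    positivity
  obtain ⟨δ₁, hδ₁⟩ : ∃ δ₁ : ℝ, δ₁ = δ * c1 e3 / 320 := ⟨_, rfl⟩
  have hδ₁0 : 0 < δ₁ := by
    rw [hδ₁]
    positivity
  obtain ⟨t, C₆, -, -, -, hpin⟩ := pin_wop hε hε1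
  have hL : EvT e3 fun d k q => ∀ i : Bool × Fin q, True → Lip i.1 ((d : ℝ) ^ 0) (A1Psi i.1 i.2 : (Site d k → Fin q) → ℝ) := by
    refine (EvT_reg hε hε1 1).mono fun d k q h i _ => ?_
    have hk : 1 ≤ k := by exact_mod_cast h.2.2.1
    exact A1_lip hk i.1 i.2
  have hT := WOPi_tail hε hε1 (fun _ _ q => Bool × Fin q) (fun _ _ _ i => i.1) (fun _ _ _ _ => True)
    (fun _ _ _ i => A1Psi i.1 i.2) 0 3 hL
  have hT2 := WOPi.all hT (fun _ q => 2 * (q : ℝ)) (fun d k q => by simp)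
  refine ((hT2.and (avail hε hε1 3)).and (hpin δ₁ hδ₁0)).mono ?_
  refine (EvT_reg hε hε1 (16 / δ + 2)).mono fun d k q h f hf hP hR c => ?_
  obtain ⟨⟨hP1, hP2⟩, hP3, hP4⟩ := hP
  obtain ⟨h1, h2, h3, h4, h5, h6, h7, h8⟩ := h
  have hδ16 : 0 < 16 / δ := by positivity
  have g1 : 2 ≤ d := by
    have : (2 : ℝ) ≤ d := by linarith
    exact_mod_cast this
  have g2 : 2 ≤ k := by
    have : (2 : ℝ) ≤ k := by linarith
    exact_mod_cast this
  have g3 : 1 ≤ q := by
    have : (1 : ℝ) ≤ q := by linarith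
    exact_mod_cast this
  have hd0 : (0 : ℝ) < d := by linarith
  have hq0 : (0 : ℝ) < q := by linarith
  have hN0 : 0 ≤ NN d k := A1_NN d k
  have hfP : Prp f := A1_prp hf
  obtain ⟨r1, r2, r3, r4, r5, r6, -⟩ := rg_pos (by omega : 1 ≤ d) hR
  have hm := ms_spec (by omega : 1 ≤ d) hR
  obtain ⟨yM, hyM⟩ := ym_exists (ra d q) (ms d q) (by linarith) hm
  have hpn := hP4 _ yM hm hyM
  have hmf := mf_num r2 hm
  have hals : 49 / 100 ≤ als (ra d q) (ms d q) := by
    have e1 : |als (ra d q) (ms d q) - 1 / 2| ≤ Real.exp (-ra d q) := hmf.2.2.2.2.1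
    have e2 : Real.exp (-ra d q) ≤ 1 / 1001 := by
      have e3 : (1001 : ℝ) ≤ Real.exp (ra d q) := by
        have := Real.add_one_le_exp (ra d q)
        linarith
      rw [Real.exp_neg, inv_eq_one_div]
      exact one_div_le_one_div_of_le (by norm_num) e3
    have e3 := (abs_le.1 e1).1
    linarith
  have hsm := A1_small hals r1 hP3.avl hpn.al
  have ht1 := hP1 (true, c) trivial
  have ht2 := hP1 (false, c) trivial
  have hf1 := A1_fm (ε := e3) (by omega : 1 ≤ k) g3 true c hfP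
  have hf2 := A1_fm (ε := e3) (by omega : 1 ≤ k) g3 false c hfP
  rw [A1_split]
  have hX : 1 / (c1 e3 * q) * cn (fun v : Site d k => (av f v : ℝ) < q / 4) ≤ δ * NN d k / (4 * q) := by
    have e1 : 0 ≤ 1 / (c1 e3 * q) := by positivity
    refine (mul_le_mul_of_nonneg_left hsm e1).trans (le_of_eq ?_)
    rw [hδ₁]
    field_simp
    ring
  have hY : NN d k / (d : ℝ) ^ 3 ≤ δ * NN d k / (8 * q) := by
    have e1 : (q : ℝ) ≤ 2 * d := by
      have : (0 : ℝ) ≤ e3 * d := by positivity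
      linarith
    have e2 : 16 / δ ≤ (d : ℝ) ^ 2 := by nlinarith
    have e3 : 16 ≤ δ * (d : ℝ) ^ 2 := by
      rw [div_le_iff₀ hδ] at e2
      linarith
    rw [div_le_div_iff₀ (by positivity) (by positivity)]
    have e4 : 8 * (q : ℝ) ≤ δ * (d : ℝ) ^ 3 := by
      calc 8 * (q : ℝ) ≤ 16 * d := by linarith
        _ ≤ δ * (d : ℝ) ^ 2 * d := mul_le_mul_of_nonneg_right e3 hd0.le
        _ = δ * (d : ℝ) ^ 3 := by ring
    calc NN d k * (8 * q) ≤ NN d k * (δ * (d : ℝ) ^ 3) := mul_le_mul_of_nonneg_left e4 hN0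
      _ = δ * NN d k * (d : ℝ) ^ 3 := by ring
  have ht1' : A1Psi true c f ≤ fm true (A1Psi true c) f + NN d k / (d : ℝ) ^ 3 := ht1
  have ht2' : A1Psi false c f ≤ fm false (A1Psi false c) f + NN d k / (d : ℝ) ^ 3 := ht2
  have hZ : δ * NN d k / (4 * q) * 2 + δ * NN d k / (8 * q) * 4 = δ * NN d k / q := by
    field_simp
    ring
  linarith

end Pool.Agent.LC

end

/-! ### from `Lib_MP_2c424f_lc1.A3` -/

section

/-!
# LC1 A3: every colour is used

LIN G3b `ratio_ge` with `q - 1` colours, `δ = 1/400`: `log ZZ (q-1) + 0.7 N/q ≤ log ZZ q`.  With `few_small (10^-6)` and `few_count`: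
`#{|I_c| ≤ N/(20q)} ≤ ZZ exp (-0.4 N/q) + rare`; `q ≤ d`, so the exponent `max C 2 + 1` works.
-/

set_option autoImplicit false

open Finset Filter

namespace Pool.Agent.LC

open Pool.Agent.LO Pool.Agent.LIN Pool.Agent.THR Pool.Agent.COR

theorem lowc : ∃ C : ℕ, EvT e3 fun d k q => Rg d q → ∀ c : Fin q,
    Rar C d k q fun f => cn (fun v => f v = c) ≤ NN d k / (20 * q) := by
  classical
  obtain ⟨C₁, h1⟩ := few_small (1 / 10 ^ 6) (by norm_num)
  have he0 : (0 : ℝ) < e3 := by unfold e3; norm_num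
  have he1 : e3 ≤ (1 : ℝ) := by unfold e3; norm_num
  refine ⟨max C₁ 2 + 1, ?_⟩
  have hreg := EvT_reg (ε := e3) he0 he1 10000
  have hNN := EvT_NN (ε := e3) (fun d _ => (d : ℝ) ^ (max C₁ 2 + 1) * Real.log 2)
  refine ((h1.and hreg).and hNN).mono ?_
  rintro d k q ⟨⟨h1, hM1, hM2, hM3, -, -, -, -, -⟩, hNN⟩ hRg c
  have hd : 10000 ≤ d := by exact_mod_cast hM1
  have hq : 10000 ≤ q := by exact_mod_cast hM2
  have hk : 10000 ≤ k := by exact_mod_cast hM3
  have hN0 : 0 ≤ NN d k := by unfold NN; positivity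
  have hqr : (10000 : ℝ) ≤ q := hM2
  have hdr : (10000 : ℝ) ≤ d := hM1
  have hq0 : (0 : ℝ) < q := by linarith
  have hqd : (1000 : ℝ) * q ≤ 2 * d := by exact_mod_cast hRg.2.1
  obtain ⟨p, rfl⟩ : ∃ p, q = p + 1 := ⟨q - 1, by omega⟩
  have hp : (9999 : ℝ) ≤ p := by
    push_cast at hqr
    linarith
  have hp0 : (0 : ℝ) < p := by linarith
  -- the ratio
  have hratio : ZZ d k p * Real.exp (3 / 10 * (NN d k / ((p + 1 : ℕ) : ℝ))) ≤
      ZZ d k (p + 1) * Real.exp (-(2 / 5 * (NN d k / ((p + 1 : ℕ) : ℝ)))) := by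
    have h2 := ratio_ge (d := d) (k := k) (q := p) (δ := 1 / 400) (by norm_num) (by norm_num)
      (by norm_num; linarith) (by push_cast at hqd; linarith) (by omega)
    have hs : Real.sqrt (14 * (1 / 400)) ≤ 19 / 100 := by
      rw [Real.sqrt_le_left (by norm_num)]
      norm_num
    have h3 : (2 : ℝ) / p ≤ 1 / 100 := by
      rw [div_le_iff₀ hp0]
      linarith
    have h4 : NN d k / ((p + 1 : ℕ) : ℝ) ≤ NN d k / p := by
      apply div_le_div_of_nonneg_left hN0 hp0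
      push_cast
      linarith
    have h5 : 0 ≤ NN d k / ((p + 1 : ℕ) : ℝ) := by positivity
    have h6 : 7 / 10 * (NN d k / ((p + 1 : ℕ) : ℝ)) ≤
        NN d k / p * (1 - Real.sqrt (14 * (1 / 400)) - 2 / p) := by
      have h7 : 7 / 10 ≤ 1 - Real.sqrt (14 * (1 / 400)) - 2 / p := by linarith
      calc 7 / 10 * (NN d k / ((p + 1 : ℕ) : ℝ)) ≤ 7 / 10 * (NN d k / p) := by
            linarith
        _ = NN d k / p * (7 / 10) := by ring
        _ ≤ _ := mul_le_mul_of_nonneg_left h7 (h5.trans h4)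
    have hZ1 : 0 < ZZ d k p := ZZ_pos (by omega) (by omega)
    have hZ2 : 0 < ZZ d k (p + 1) := ZZ_pos (by omega) (by omega)
    have h8 : Real.log (ZZ d k p) + 7 / 10 * (NN d k / ((p + 1 : ℕ) : ℝ)) ≤
        Real.log (ZZ d k (p + 1)) := by linarith
    have h9 : ZZ d k p * Real.exp (7 / 10 * (NN d k / ((p + 1 : ℕ) : ℝ))) ≤ ZZ d k (p + 1) := by
      have h10 := Real.exp_le_exp.2 h8
      rwa [Real.exp_add, Real.exp_log hZ1, Real.exp_log hZ2] at h10
    have h11 : Real.exp (3 / 10 * (NN d k / ((p + 1 : ℕ) : ℝ))) =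
        Real.exp (7 / 10 * (NN d k / ((p + 1 : ℕ) : ℝ))) *
          Real.exp (-(2 / 5 * (NN d k / ((p + 1 : ℕ) : ℝ)))) := by
      rw [← Real.exp_add]
      congr 1
      ring
    rw [h11, ← mul_assoc]
    exact mul_le_mul_of_nonneg_right h9 (Real.exp_pos _).le
  -- the exponent
  have hexp : NN d k / (d : ℝ) ^ max C₁ 2 ≤ 2 / 5 * (NN d k / ((p + 1 : ℕ) : ℝ)) := by
    have hd1 : (1 : ℝ) ≤ d := by linarith
    have h2 : (d : ℝ) ^ 2 ≤ (d : ℝ) ^ max C₁ 2 := pow_le_pow_right₀ hd1 (le_max_right _ _)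
    have h3 : 5 / 2 * (((p + 1 : ℕ) : ℝ)) ≤ (d : ℝ) ^ 2 := by
      have h5 : 5 / 2 * (((p + 1 : ℕ) : ℝ)) ≤ d := by linarith
      have h6 : (d : ℝ) ≤ (d : ℝ) ^ 2 := le_self_pow₀ hd1 two_ne_zero
      exact h5.trans h6
    have h4 : 2 / 5 * (NN d k / ((p + 1 : ℕ) : ℝ)) = NN d k / (5 / 2 * ((p + 1 : ℕ) : ℝ)) := by
      field_simp
    rw [h4]
    exact div_le_div_of_nonneg_left hN0 (by positivity) (h3.trans h2)
  have hev : Rar (max C₁ 2) d k (p + 1) fun f => Prp f ∧
      cn (fun v => f v = c) ≤ NN d k / (20 * ((p + 1 : ℕ) : ℝ)) ∧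
      cn (fun v => f v = c ∧ (av f v : ℝ) < ((p + 1 : ℕ) : ℝ) / 4) ≤
        1 / 10 ^ 6 * NN d k / ((p + 1 : ℕ) : ℝ) := by
    have h2 := few_count (d := d) (k := k) (q := p + 1) hd (le_trans (by norm_num) hk) hRg
      (le_trans (by norm_num) hq) c
    have h3 : p + 1 - 1 = p := rfl
    rw [h3] at h2
    unfold Rar
    have hZ2 : 0 < ZZ d k (p + 1) := ZZ_pos (by omega) (by omega)
    refine le_trans (b := cn (fun f : Site d k → Fin (p + 1) => Prp f ∧
      cn (fun v => f v = c) ≤ NN d k / (20 * ((p + 1 : ℕ) : ℝ)) ∧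
      cn (fun v => f v = c ∧ (av f v : ℝ) < ((p + 1 : ℕ) : ℝ) / 4) ≤
        1 / 10 ^ 6 * NN d k / ((p + 1 : ℕ) : ℝ))) ?_ ?_
    · unfold cn
      exact_mod_cast card_le_card (fun f hf => by
        rw [mem_filter] at hf ⊢
        exact ⟨mem_univ _, hf.2⟩)
    refine h2.trans (hratio.trans ?_)
    exact mul_le_mul_of_nonneg_left (Real.exp_le_exp.2 (neg_le_neg hexp)) hZ2.le
  have hun := Rar_union (C := max C₁ 2) (ι := Bool) (d := d) (k := k) (q := p + 1)
    (P := fun b f => if b then ¬ (Rg d (p + 1) → ∀ c, cn (fun v => f v = c ∧ (av f v : ℝ) < ((p + 1 : ℕ) : ℝ) / 4) ≤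
        1 / 10 ^ 6 * NN d k / ((p + 1 : ℕ) : ℝ)) else Prp f ∧
      cn (fun v => f v = c) ≤ NN d k / (20 * ((p + 1 : ℕ) : ℝ)) ∧
      cn (fun v => f v = c ∧ (av f v : ℝ) < ((p + 1 : ℕ) : ℝ) / 4) ≤
        1 / 10 ^ 6 * NN d k / ((p + 1 : ℕ) : ℝ)) (by omega) ?_ ?_
  · refine hun.mono ?_
    intro f hf hlow
    by_cases hb : Rg d (p + 1) → ∀ c, cn (fun v => f v = c ∧ (av f v : ℝ) < ((p + 1 : ℕ) : ℝ) / 4) ≤
        1 / 10 ^ 6 * NN d k / ((p + 1 : ℕ) : ℝ)
    · refine ⟨false, ?_⟩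
      simp only [Bool.false_eq_true, if_false]
      have hf' : Prp f := by
        unfold prps at hf
        rw [mem_filter] at hf
        exact hf.2
      exact ⟨hf', hlow, hb hRg c⟩
    · exact ⟨true, by simpa using hb⟩
  · intro b
    cases b
    · simpa using hev
    · simpa using h1.mono_C (by omega) (le_max_left _ _)
  · rw [Fintype.card_bool]
    exact_mod_cast hNN

end Pool.Agent.LC

end

/-! ### from `Lib_MP_2c424f_lc1.A6` -/

section

/-!
# LC1 A6: all blocks without label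

`yM_small`: `yM = e^{-a yM}/als`, `als ≥ 0.49`; for `y = 1/100`, `a ≥ 1000`: `e^{-a y}/als ≤ e^{-10}/0.49 < y`, and `y ↦ y - e^{-ay}/als` is increasing.
`allbd`: if `bdP η c (pat f t)` for all `t` then (as `frq e s c (pat f t) = Mp e s t (bq c f)`, `Fy (1-m) = 1+m`, `Fy (1+m) = 1-m`) no block satisfies `tau2 η` with `τ = 1 ± m`, so by
`tau2_wop (min η (1/1000)) δ` all but `δ NN d k` of the blocks have the density `≤ 1/100 + 1/1000` at the odd points and `≤ 1/100 + 1/1000` at the even points (`F yM = yM`).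
`q |I_c| = ∑_x bq c f x = 2^(d-1) ∑_t (Mp false none t + Mp true none t) (bq c f)` (points `pt t a b`, `LO.sum_pt`).  The exceptional blocks contribute at most
`2^(d-1) ∑ (|Mp (bq - gg)| + Mp gg)`: `blk_bq2` and Cauchy-Schwarz, `gg ≤ 1/c1` at regular sites, `q` at the others (`avail`): `≤ small * N`.  So `|I_c| ≤ N/(20 q)`: `lowc` (shifted to `k+1`).
-/

set_option autoImplicit false

open Finset Filter

namespace Pool.Agent.LC

open Pool.Agent.LO Pool.Agent.LIN Pool.Agent.THR Pool.Agent.COR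

theorem yM_small {a m y : ℝ} (ha : 1000 ≤ a) (hm : MFE a m) (hy : YM a m y) : y ≤ 1 / 100 := by
  obtain ⟨-, -, -, -, h5, -⟩ := mf_num ha hm
  obtain ⟨hy0, hy1⟩ := hy
  by_contra hcon
  push Not at hcon
  have he1 : (2 : ℝ) ≤ Real.exp 1 := by
    have h := Real.add_one_le_exp (1 : ℝ)
    linarith
  have he10 : (1024 : ℝ) ≤ Real.exp 10 := by
    have h1 : Real.exp 10 = Real.exp 1 ^ 10 := by
      rw [← Real.exp_nat_mul]
      norm_num
    rw [h1]
    calc (1024 : ℝ) = 2 ^ 10 := by norm_num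
      _ ≤ Real.exp 1 ^ 10 := pow_le_pow_left₀ (by norm_num) he1 10
  have he : Real.exp (-10) ≤ 1 / 1024 := by
    rw [Real.exp_neg, ← one_div]
    exact one_div_le_one_div_of_le (by norm_num) he10
  have h6 : Real.exp (-a) ≤ 1 / 1024 := (Real.exp_le_exp.mpr (by linarith)).trans he
  have h7 : Real.exp (-(a * y)) ≤ 1 / 1024 := (Real.exp_le_exp.mpr (by nlinarith)).trans he
  have h8 : (49 : ℝ) / 100 ≤ als a m := by
    have h9 := (abs_le.mp h5).1
    linarith
  have h10 : y * als a m = Real.exp (-(a * y)) := by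
    have h11 : als a m ≠ 0 := by linarith
    have h12 : y = Real.exp (-(a * y)) / als a m := hy1
    rw [eq_div_iff h11] at h12
    exact h12
  nlinarith

theorem frq_eq {d k q : ℕ} (e : Bool) (s : Shp d) (c : Fin q) (f : Site d (k + 1) → Fin q) (t : Blk d k) :
    frq e s c (pat f t) = Mp e s t (bq c f) := rfl

section A6aux
variable {d k q : ℕ}

private theorem A6_ind0 (P : Prop) : 0 ≤ ind P := by
  classical
  unfold ind
  split_ifs <;> norm_num

private theorem A6_cn {α : Type} [Fintype α] (P : α → Prop) : cn P = ∑ x, ind (P x) := by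
  classical
  unfold cn ind
  rw [Finset.card_filter, Nat.cast_sum]
  refine Finset.sum_congr rfl fun x _ => ?_
  by_cases h : P x
  · rw [if_pos h, if_pos h, Nat.cast_one]
  · rw [if_neg h, if_neg h, Nat.cast_zero]

private theorem A6_add (e : Bool) (s : Shp d) (t : Blk d k) (φ ψ : Site d (k + 1) → ℝ) :
    Mp e s t (fun x => φ x + ψ x) = Mp e s t φ + Mp e s t ψ := by
  unfold Mp
  rw [Finset.sum_add_distrib, add_div]

private theorem A6_mul (e : Bool) (s : Shp d) (t : Blk d k) (a : ℝ) (φ : Site d (k + 1) → ℝ) :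
    Mp e s t (fun x => a * φ x) = a * Mp e s t φ := by
  unfold Mp
  rw [← Finset.mul_sum, mul_div_assoc]

private theorem A6_mono (e : Bool) (s : Shp d) (t : Blk d k) {φ ψ : Site d (k + 1) → ℝ} (h : ∀ x, φ x ≤ ψ x) :
    Mp e s t φ ≤ Mp e s t ψ := by
  unfold Mp
  exact div_le_div_of_nonneg_right (Finset.sum_le_sum fun p _ => h _) (Nat.cast_nonneg _)

private theorem A6_const (hd : 2 ≤ d) (e : Bool) (s : Shp d) (t : Blk d k) (a : ℝ) : Mp e s t (fun _ => a) = a := by
  have h1 : (0 : ℝ) < ((pS e s : Finset (Bt d × Bt d)).card : ℝ) := by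
    rw [pS_card hd]
    split_ifs <;> positivity
  unfold Mp
  rw [Finset.sum_const, nsmul_eq_mul, mul_comm, mul_div_assoc, div_self h1.ne', mul_one]

private theorem A6_nonneg (hd : 2 ≤ d) (e : Bool) (s : Shp d) (t : Blk d k) {φ : Site d (k + 1) → ℝ} (h : ∀ x, 0 ≤ φ x) :
    0 ≤ Mp e s t φ := by
  have h1 := A6_mono (φ := fun _ => (0 : ℝ)) (ψ := φ) e s t h
  rwa [A6_const hd] at h1

/-- sum over the blocks -/
private theorem A6_sum (hd : 2 ≤ d) (φ : Site d (k + 1) → ℝ) :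
    ∑ t : Blk d k, (Mp false none t φ + Mp true none t φ) = 2 / 2 ^ d * ∑ x, φ x := by
  classical
  have h1 : ∀ t : Blk d k, Mp false none t φ + Mp true none t φ =
      2 / 4 ^ d * ∑ a : Bt d, ∑ b : Bt d, φ (pt t a b) := by
    intro t
    have h2 : ∑ p ∈ (pS true none : Finset (Bt d × Bt d)), φ (pt t p.1 p.2) +
        ∑ p ∈ (pS false none : Finset (Bt d × Bt d)), φ (pt t p.1 p.2) = ∑ a : Bt d, ∑ b : Bt d, φ (pt t a b) := by
      have e1 : (pS true none : Finset (Bt d × Bt d)) = univ.filter fun p => ¬ od p.1 p.2 := by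
        ext p
        simp [pS, eS, inS]
      have e2 : (pS false none : Finset (Bt d × Bt d)) = univ.filter fun p => od p.1 p.2 := by
        ext p
        simp [pS, oS, inS]
      rw [e1, e2, add_comm, Finset.sum_filter_add_sum_filter_not, Fintype.sum_prod_type]
    have e3 := pS_card hd false (none : Shp d)
    have e4 := pS_card hd true (none : Shp d)
    rw [if_pos rfl] at e3 e4
    unfold Mp
    rw [e3, e4, ← h2]
    have h4 : (4 : ℝ) ^ d ≠ 0 := by positivity
    field_simp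
    ring
  rw [Finset.sum_congr rfl fun t _ => h1 t, ← Finset.mul_sum]
  have h3 := sum_pt (k := k) (d := d) (fun (x : Site d (k + 1)) (_ : Bt d) => φ x)
  rw [h3]
  have h4 : ∀ x : Site d (k + 1), ∑ _b : Bt d, φ x = 2 ^ d * φ x := by
    intro x
    rw [Finset.sum_const, Finset.card_univ, Fintype.card_fun, Fintype.card_bool, Fintype.card_fin, nsmul_eq_mul]
    push_cast
    rfl
  rw [Finset.sum_congr rfl fun x _ => h4 x, ← Finset.mul_sum]
  have h5 : (4 : ℝ) ^ d = 2 ^ d * 2 ^ d := by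
    rw [← mul_pow]
    norm_num
  rw [h5]
  have h6 : (2 : ℝ) ^ d ≠ 0 := by positivity
  field_simp

private theorem A6_gg (c : Fin q) {f : Site d (k + 1) → Fin q} (hf : Prp f) (hc : 0 < c1 e3) (hq : 1 ≤ q)
    (x : Site d (k + 1)) :
    0 ≤ THR.gg c f x ∧ THR.gg c f x ≤ 1 / c1 e3 + q * ind ((av f x : ℝ) < c1 e3 * q) := by
  classical
  have h1 : THR.gg c f x = q * (zz f x c / (av f x : ℝ)) := by
    unfold THR.gg
    rw [mul_div_assoc]
  have hq' : (1 : ℝ) ≤ q := by exact_mod_cast hq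
  obtain ⟨h2, h3⟩ := zz_av_le hf x c
  rw [h1]
  refine ⟨mul_nonneg (by linarith) h2, ?_⟩
  unfold ind
  split_ifs with h
  · have h4 : 0 < 1 / c1 e3 := by positivity
    nlinarith
  · have h4 := zz_reg hq x (not_lt.mp h) c
    rw [mul_zero, add_zero]
    calc (q : ℝ) * (zz f x c / (av f x : ℝ)) ≤ q * (1 / (c1 e3 * q)) :=
          mul_le_mul_of_nonneg_left h4 (by linarith)
      _ = 1 / c1 e3 := by
        field_simp

private theorem A6_abs (n x : ℝ) (hn : 0 < n) : x ≤ n * x ^ 2 + 1 / n := by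
  have h1 : n * x ^ 2 + 1 / n - x = n * (x - 1 / (2 * n)) ^ 2 + 3 / (4 * n) := by
    field_simp
    ring
  have h2 : 0 ≤ n * (x - 1 / (2 * n)) ^ 2 + 3 / (4 * n) := by positivity
  linarith

/-- the deterministic part -/
private theorem A6_det (hd : 400 ≤ d) (hq : 1 ≤ q) (hqd : (q : ℝ) ≤ d) (hc : 0 < c1 e3) (c : Fin q)
    {f : Site d (k + 1) → Fin q} (hf : Prp f) (B : Blk d k → Prop) (hB : cn B ≤ c1 e3 / 100 * NN d k)
    (hG : ∀ t, ¬ B t → Mp false none t (bq c f) + Mp true none t (bq c f) ≤ 22 / 1000)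
    (h2 : ∀ e : Bool, ∑ t : Blk d k, Mp e none t (fun x => bq c f x - THR.gg c f x) ^ 2 ≤ NN d k / (d : ℝ) ^ 4)
    (h3 : cn (fun v : Site d (k + 1) => (av f v : ℝ) < c1 e3 * q) ≤ NN d (k + 1) / (d : ℝ) ^ 3) :
    cn (fun v => f v = c) ≤ NN d (k + 1) / (20 * q) := by
  classical
  have hd2 : 2 ≤ d := by omega
  have hd' : (400 : ℝ) ≤ d := by exact_mod_cast hd
  have hd0 : (0 : ℝ) < d := by linarith
  have hq' : (1 : ℝ) ≤ q := by exact_mod_cast hq
  have hN0 : 0 ≤ NN d k := by unfold NN; positivity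
  set ι : Site d (k + 1) → ℝ := fun v => ind ((av f v : ℝ) < c1 e3 * q) with hι
  have hι0 : ∀ v, 0 ≤ ι v := fun v => A6_ind0 _
  set D : Bool → Blk d k → ℝ := fun e t => Mp e none t (fun x => bq c f x - THR.gg c f x) with hD
  have hsplit : ∀ e t, Mp e none t (bq c f) ≤ D e t + (1 / c1 e3 + q * Mp e none t ι) := by
    intro e t
    have h4 : Mp e none t (bq c f) = D e t + Mp e none t (THR.gg c f) := by
      have h6 := A6_add e none t (fun x => bq c f x - THR.gg c f x) (THR.gg c f)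
      rw [← h6]
      congr 1
      funext x
      ring
    have h5 : Mp e none t (THR.gg c f) ≤ 1 / c1 e3 + q * Mp e none t ι := by
      refine (A6_mono e none t fun x => (A6_gg c hf hc hq x).2).trans (le_of_eq ?_)
      rw [A6_add e none t (fun _ => 1 / c1 e3) (fun x => (q : ℝ) * ι x), A6_const hd2, A6_mul]
    rw [h4]
    linarith
  have hblk : ∀ t : Blk d k, Mp false none t (bq c f) + Mp true none t (bq c f) ≤
      22 / 1000 + (d * D false t ^ 2 + 1 / d) + (d * D true t ^ 2 + 1 / d) + 2 / c1 e3 * ind (B t) +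
        q * (Mp false none t ι + Mp true none t ι) := by
    intro t
    have n1 : 0 ≤ d * D false t ^ 2 + 1 / d := by positivity
    have n2 : 0 ≤ d * D true t ^ 2 + 1 / d := by positivity
    have n3 : 0 ≤ q * (Mp false none t ι + Mp true none t ι) := by
      have a1 := A6_nonneg hd2 false none t hι0
      have a2 := A6_nonneg hd2 true none t hι0
      positivity
    by_cases ht : B t
    · have e1 : ind (B t) = 1 := by
        unfold ind
        rw [if_pos ht]
      have s1 := hsplit false t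
      have s2 := hsplit true t
      have b1 := A6_abs d (D false t) hd0
      have b2 := A6_abs d (D true t) hd0
      have e2 : 2 / c1 e3 * (1 : ℝ) = 1 / c1 e3 + 1 / c1 e3 := by ring
      rw [e1, e2]
      nlinarith
    · have e1 : ind (B t) = 0 := by
        unfold ind
        rw [if_neg ht]
      rw [e1, mul_zero]
      have g1 := hG t ht
      linarith
  obtain ⟨E, hE⟩ : ∃ E : Blk d k → ℝ, ∀ t, E t = Mp false none t ι + Mp true none t ι := ⟨_, fun _ => rfl⟩
  have hEs : ∑ t : Blk d k, E t = 2 / 2 ^ d * ∑ x, ι x := by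
    rw [Finset.sum_congr rfl fun t _ => hE t]
    exact A6_sum hd2 ι
  have hR : ∑ t : Blk d k, (22 / 1000 + (d * D false t ^ 2 + 1 / d) + (d * D true t ^ 2 + 1 / d) +
      2 / c1 e3 * ind (B t) + q * E t) = NN d k * (22 / 1000) + (d * ∑ t : Blk d k, D false t ^ 2 + NN d k * (1 / d)) +
        (d * ∑ t : Blk d k, D true t ^ 2 + NN d k * (1 / d)) + 2 / c1 e3 * cn B + q * (2 / 2 ^ d * ∑ x, ι x) := by
    simp only [Finset.sum_add_distrib, ← Finset.mul_sum, Finset.sum_const, Finset.card_univ, nsmul_eq_mul, card_Blk, hEs,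
      ← A6_cn B]
  have hsum : 2 / 2 ^ d * ∑ x, bq c f x ≤ NN d k * (22 / 1000) + (d * ∑ t : Blk d k, D false t ^ 2 + NN d k * (1 / d)) +
        (d * ∑ t : Blk d k, D true t ^ 2 + NN d k * (1 / d)) + 2 / c1 e3 * cn B + q * (2 / 2 ^ d * ∑ x, ι x) := by
    rw [← hR, ← A6_sum hd2]
    refine Finset.sum_le_sum fun t _ => ?_
    rw [hE]
    exact hblk t
  have hbq : ∑ x, bq c f x = q * cn (fun v => f v = c) := by
    rw [A6_cn, Finset.mul_sum]
    refine Finset.sum_congr rfl fun x _ => ?_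
    unfold bq ind
    split_ifs <;> simp
  have hιs : ∑ x, ι x = cn (fun v : Site d (k + 1) => (av f v : ℝ) < c1 e3 * q) := (A6_cn _).symm
  rw [hbq, hιs] at hsum
  set I := cn (fun v => f v = c) with hI
  set J := cn (fun v : Site d (k + 1) => (av f v : ℝ) < c1 e3 * q) with hJ
  have q1 := h2 false
  have q2 := h2 true
  have hd3 : d * (NN d k / (d : ℝ) ^ 4) ≤ NN d k / d := by
    rw [div_eq_mul_inv, div_eq_mul_inv, ← mul_assoc, mul_comm (d : ℝ), mul_assoc]
    refine mul_le_mul_of_nonneg_left ?_ hN0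
    have h5 : (1 : ℝ) ≤ (d : ℝ) ^ 2 := one_le_pow₀ (by linarith)
    have h6 : (d : ℝ) * ((d : ℝ) ^ 4)⁻¹ = (d : ℝ)⁻¹ * ((d : ℝ) ^ 2)⁻¹ := by
      field_simp
    rw [h6]
    exact mul_le_of_le_one_right (by positivity) (inv_le_one_of_one_le₀ h5)
  have r1 : d * ∑ t : Blk d k, D false t ^ 2 ≤ NN d k / d := (mul_le_mul_of_nonneg_left q1 hd0.le).trans hd3
  have r2 : d * ∑ t : Blk d k, D true t ^ 2 ≤ NN d k / d := (mul_le_mul_of_nonneg_left q2 hd0.le).trans hd3
  have r3 : NN d k / d ≤ NN d k / 400 := div_le_div_of_nonneg_left hN0 (by norm_num) hd'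
  have r4 : 2 / c1 e3 * cn B ≤ NN d k / 50 := by
    calc 2 / c1 e3 * cn B ≤ 2 / c1 e3 * (c1 e3 / 100 * NN d k) := mul_le_mul_of_nonneg_left hB (by positivity)
      _ = NN d k / 50 := by
        field_simp
        ring
  have h2d : (0 : ℝ) < 2 ^ d := by positivity
  have r5 : q * (2 / 2 ^ d * J) ≤ NN d k / 100 := by
    have h7 : q * (2 / 2 ^ d * J) ≤ d * (2 / 2 ^ d * (NN d (k + 1) / (d : ℝ) ^ 3)) := by
      have hJ0 : 0 ≤ J := by rw [hJ, A6_cn]; exact Finset.sum_nonneg fun x _ => A6_ind0 _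
      refine mul_le_mul hqd (mul_le_mul_of_nonneg_left h3 (by positivity)) (by positivity) hd0.le
    refine h7.trans ?_
    rw [NN_succ]
    have h8 : (d : ℝ) * (2 / 2 ^ d * (2 ^ d * NN d k / (d : ℝ) ^ 3)) = 2 * NN d k / (d : ℝ) ^ 2 := by
      field_simp
    rw [h8, div_le_div_iff₀ (by positivity) (by norm_num)]
    have h9 : (200 : ℝ) ≤ (d : ℝ) ^ 2 := by nlinarith
    nlinarith
  have hfin : 2 / 2 ^ d * (q * I) ≤ NN d k / 10 := by
    have r6 : NN d k * (1 / (d : ℝ)) = NN d k / d := by ring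
    rw [r6] at hsum
    linarith
  rw [le_div_iff₀ (by positivity), NN_succ]
  have h10 : 2 / 2 ^ d * (q * I) = 2 * (q * I) / 2 ^ d := by ring
  rw [h10, div_le_iff₀ h2d] at hfin
  nlinarith

private theorem A6_union2 {C d k q : ℕ} {P Q : (Site d k → Fin q) → Prop} (hd : 2 ≤ d)
    (h : Rar C d k q P) (h' : Rar C d k q Q)
    (hN : (d : ℝ) ^ (C + 1) * Real.log 2 ≤ NN d k) :
    Rar (C + 1) d k q fun f => P f ∨ Q f := by
  have h1 : Rar (C + 1) d k q fun f => ∃ i : Bool, (fun b : Bool => if b then P else Q) i f := by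
    refine Rar_union hd ?_ ?_
    · intro i
      cases i
      · simpa using h'
      · simpa using h
    · rw [Fintype.card_bool]
      exact_mod_cast hN
  refine h1.mono ?_
  intro f _ hf
  rcases hf with hf | hf
  · exact ⟨true, by simpa using hf⟩
  · exact ⟨false, by simpa using hf⟩

end A6aux

theorem allbd (η : ℝ) (hη : 0 < η) : ∃ C : ℕ, EvT e3 fun d k q => Rg d q → ∀ c : Fin q,
    Rar C d (k + 1) q fun f => ∀ t : Blk d k, bdP η c (pat f t) := by
  classical
  have he : 0 < e3 := by unfold e3; norm_num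
  have he1 : e3 ≤ 1 := by unfold e3; norm_num
  have hc1 : 0 < c1 e3 := by
    unfold c1
    have : (0 : ℝ) < (4 : ℝ) ^ (-A0 e3) := Real.rpow_pos_of_pos (by norm_num) _
    positivity
  have hη' : 0 < min η (1 / 1000) := lt_min hη (by norm_num)
  obtain ⟨C, hW⟩ := ((tau2_wop (min η (1 / 1000)) (c1 e3 / 100) hη' (by positivity)).and blk_bq2).and
    (avail he he1 3).blk
  obtain ⟨C', hL⟩ := lowc
  refine ⟨max C C' + 1, ((((hW.and hL.shift).and (EvT_reg he he1 400)).and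
    (EvT_NN (ε := e3) fun d _ => (d : ℝ) ^ (max C C' + 1) * Real.log 2).shift)).mono ?_⟩
  rintro d k q ⟨⟨⟨h1, h2⟩, h3⟩, h4⟩ hR c
  have hd400 : 400 ≤ d := by exact_mod_cast h3.1
  have hd1 : 1 ≤ d := by omega
  obtain ⟨hq, ha, -⟩ := rg_pos hd1 hR
  have hqd : (q : ℝ) ≤ d := by
    have h5 := hR.2.1
    have h6 : (1000 : ℝ) * q ≤ 2 * d := by exact_mod_cast h5
    have h7 : (0 : ℝ) ≤ q := Nat.cast_nonneg q
    linarith
  have hms := ms_spec hd1 hR
  obtain ⟨yM, hyM⟩ := ym_exists (ra d q) (ms d q) (by linarith) hms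
  have hyS := yM_small ha hms hyM
  refine (A6_union2 (by omega) (h1.mono_C hd1 (le_max_left C C')) ((h2 hR c).mono_C hd1 (le_max_right C C')) h4).mono ?_
  intro f hf hbd
  by_contra hcon
  rw [not_or, not_not] at hcon
  obtain ⟨⟨⟨w1, w2⟩, w3⟩, w4⟩ := hcon
  refine w4 ?_
  have hP : Prp f := (mem_filter.1 hf).2
  refine A6_det hd400 hq hqd hc1 c hP (fun t => ¬ tau2 (min η (1 / 1000)) (ms d q) yM c f t)
    (w1 hR yM hyM c) ?_ (fun e => w2 e c none) ?_
  · intro t ht
    rw [not_not] at ht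
    obtain ⟨τ, hτ, t1, t2⟩ := ht
    obtain ⟨b1, b2⟩ := hbd t
    have hm1 : min η (1 / 1000) ≤ η := min_le_left _ _
    have hm2 : min η (1 / 1000) ≤ 1 / 1000 := min_le_right _ _
    rcases hτ with hτ | hτ | hτ
    · exfalso
      refine b2 fun s => ⟨?_, ?_⟩
      · have h5 := t2 s
        rw [hτ, Fy_sub _ _ hms] at h5
        rw [frq_eq]
        exact h5.trans hm1
      · have h5 := t1 s
        rw [hτ] at h5
        rw [frq_eq]
        exact h5.trans hm1
    · have h5 := (abs_le.mp (t1 none)).2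
      have h6 := (abs_le.mp (t2 none)).2
      rw [hτ] at h5 h6
      have h7 : Fy (ra d q) (ms d q) yM = yM := hyM.2.symm
      rw [h7] at h6
      linarith
    · exfalso
      refine b1 fun s => ⟨?_, ?_⟩
      · have h5 := t1 s
        rw [hτ] at h5
        rw [frq_eq]
        exact h5.trans hm1
      · have h5 := t2 s
        rw [hτ, Fy_add _ _ hms] at h5
        rw [frq_eq]
        exact h5.trans hm1
  · exact w3

end Pool.Agent.LC

end

/-! ### from `Lib_MP_2c424f_lc1.A7` -/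

section

/-!
# LC1 A7: few blocks without label

`bd_chess`: as THR B6 `pbadT` (LO.rp, LO.chess), with locality (`bdP` depends on the colours of the points of the closed block) and reflection invariance
(`pt (rb j α t) a' b' = rs j α (pt t a b)` with the bits of direction `j` complemented; parity of the pair unchanged, shapes are permuted), compare THR B1b `bdT_loc`, `bdT_sym`.
`bd_few`: union bound over `Γ`, `|Γ| ≥ N_b/d^(K+1)` (`N_b = NN d k`), and over the colours: `q 2^(N_b) exp (-2^d/d^C * N_b/d^(K+1)) ≤ exp (-N/d^(C+K+2))`, `N = 2^d N_b`.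
-/

set_option autoImplicit false

open Finset Filter

namespace Pool.Agent.LC

open Pool.Agent.LO Pool.Agent.LIN Pool.Agent.THR Pool.Agent.COR

private theorem A7_flp_self {d : ℕ} (a : Bt d) (j : Fin d) : LO.flp a j j = !a j := by
  unfold LO.flp
  exact Function.update_self _ _ _

private theorem A7_flp_ne {d : ℕ} (a : Bt d) (i j : Fin d) (h : i ≠ j) : LO.flp a j i = a i := by
  unfold LO.flp
  exact Function.update_of_ne h _ _

private theorem A7_flp_flp {d : ℕ} (a : Bt d) (j : Fin d) : LO.flp (LO.flp a j) j = a := by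
  funext i
  by_cases h : i = j
  · subst h
    rw [A7_flp_self, A7_flp_self, Bool.not_not]
  · rw [A7_flp_ne _ _ _ h, A7_flp_ne _ _ _ h]

private theorem A7_od {d : ℕ} (j : Fin d) (a b : Bt d) : od (LO.flp a j) (LO.flp b j) ↔ od a b := by
  unfold od
  have h : (univ.filter fun i => LO.flp a j i ≠ LO.flp b j i) = univ.filter fun i => a i ≠ b i := by
    apply Finset.filter_congr
    intro i _
    by_cases hi : i = j
    · subst hi
      rw [A7_flp_self, A7_flp_self]
      cases a i <;> cases b i <;> simp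
    · rw [A7_flp_ne _ _ _ hi, A7_flp_ne _ _ _ hi]
  rw [h]

/-- the reflected shape -/
private def A7_fl {d : ℕ} (j : Fin d) (s : Shp d) : Shp d :=
  match s with
  | none => none
  | some (i, β) => some (i, if i = j then !β else β)

private theorem A7_fl_fl {d : ℕ} (j : Fin d) (s : Shp d) : A7_fl j (A7_fl j s) = s := by
  rcases s with _ | ⟨i, β⟩
  · rfl
  · unfold A7_fl
    by_cases h : i = j <;> simp [h]

private theorem A7_inS {d : ℕ} (j : Fin d) (s : Shp d) (a b : Bt d) :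
    inS s a b ↔ inS (A7_fl j s) (LO.flp a j) (LO.flp b j) := by
  rcases s with _ | ⟨i, β⟩
  · exact Iff.rfl
  · unfold inS A7_fl
    by_cases h : i = j
    · subst h
      simp only [if_true, A7_flp_self]
      cases β <;> cases a i <;> cases b i <;> simp
    · simp only [if_neg h, A7_flp_ne _ _ _ h]

/-- the points of the shape of one parity -/
private noncomputable def A7_S {d : ℕ} (e : Bool) (s : Shp d) : Finset (Bt d × Bt d) :=
  if e then eS s else oS s

private theorem A7_mem {d : ℕ} (e : Bool) (s : Shp d) (p : Bt d × Bt d) :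
    p ∈ A7_S e s ↔ (od p.1 p.2 ↔ e = false) ∧ inS s p.1 p.2 := by
  classical
  unfold A7_S
  cases e
  · rw [if_neg (by simp)]
    unfold oS
    rw [mem_filter]
    simp
  · rw [if_pos rfl]
    unfold eS
    rw [mem_filter]
    simp

private theorem A7_sum {d : ℕ} (e : Bool) (s : Shp d) (j : Fin d) (F G : Bt d × Bt d → ℝ)
    (hFG : ∀ p, F p = G (LO.flp p.1 j, LO.flp p.2 j)) :
    ∑ p ∈ A7_S e s, F p = ∑ p ∈ A7_S e (A7_fl j s), G p := by
  refine Finset.sum_nbij' (fun p => (LO.flp p.1 j, LO.flp p.2 j)) (fun p => (LO.flp p.1 j, LO.flp p.2 j))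
    ?_ ?_ ?_ ?_ (fun p _ => hFG p)
  · intro p hp
    rw [A7_mem] at hp ⊢
    exact ⟨(A7_od j p.1 p.2).trans hp.1, (A7_inS j s p.1 p.2).1 hp.2⟩
  · intro p hp
    rw [A7_mem] at hp ⊢
    refine ⟨(A7_od j p.1 p.2).trans hp.1, ?_⟩
    rw [A7_inS j s, A7_flp_flp, A7_flp_flp]
    exact hp.2
  · intro p _
    simp only [A7_flp_flp]
  · intro p _
    simp only [A7_flp_flp]

private theorem A7_frq {d q : ℕ} (e : Bool) (s : Shp d) (c : Fin q) (g : Pat d q) (j : Fin d) :
    frq e s c (fun a b => g (LO.flp a j) (LO.flp b j)) = frq e (A7_fl j s) c g := by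
  have h1 := A7_sum e s j (fun p => if g (LO.flp p.1 j) (LO.flp p.2 j) = c then (q : ℝ) else 0)
    (fun p => if g p.1 p.2 = c then (q : ℝ) else 0) (fun _ => rfl)
  have h2 := A7_sum e s j (fun _ => 1) (fun _ => 1) (fun _ => rfl)
  rw [Finset.sum_const, Finset.sum_const, nsmul_eq_mul, nsmul_eq_mul, mul_one, mul_one] at h2
  unfold A7_S at h1 h2
  unfold frq
  rw [h2]
  congr 1

private theorem A7_st {d q : ℕ} (η : ℝ) (hi : Bool) (c : Fin q) (g : Pat d q) (j : Fin d)
    (h : st η hi c (fun a b => g (LO.flp a j) (LO.flp b j))) : st η hi c g := by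
  intro s
  have h1 := h (A7_fl j s)
  rw [A7_frq, A7_frq, A7_fl_fl] at h1
  exact h1

private theorem A7_sym {d k q : ℕ} (η : ℝ) (c : Fin q) (j : Fin d) (α : ZMod (2 ^ k)) (t : Blk d k)
    (f : Site d (k + 1) → Fin q) (hb : bdP η c (pat f t)) :
    bdP η c (pat (fun x => f (rs j α x)) (rb j α t)) := by
  have e : pat (fun x => f (rs j α x)) (rb j α t) = fun a b => pat f t (LO.flp a j) (LO.flp b j) := by
    funext a b
    unfold pat
    beta_reduce
    rw [rs_pt, rb_rb]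
  rw [e]
  exact ⟨fun h => hb.1 (A7_st η true c _ j h), fun h => hb.2 (A7_st η false c _ j h)⟩

private theorem A7_loc {d k q : ℕ} (η : ℝ) (c : Fin q) (t : Blk d k)
    (f g : Site d (k + 1) → Fin q) (h : ∀ a b, f (pt t a b) = g (pt t a b))
    (hb : bdP η c (pat f t)) : bdP η c (pat g t) := by
  have e : pat f t = pat g t := by
    funext a b
    exact h a b
  rwa [← e]

private theorem A7_ZZ (d k q : ℕ) : 0 ≤ ZZ d k q := by
  unfold ZZ
  positivity

private theorem A7_e3 : (0 : ℝ) < e3 := by unfold e3; norm_num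

private theorem A7_e3' : e3 ≤ (1 : ℝ) := by unfold e3; norm_num

theorem bd_chess (η : ℝ) (hη : 0 < η) : ∃ C : ℕ, EvT e3 fun d k q => Rg d q → ∀ (c : Fin q) (Γ : Finset (Blk d k)),
    cE (fun t f => bdP η c (pat f t)) Γ ≤ ZZ d (k + 1) q * Real.exp (-(2 ^ d / (d : ℝ) ^ C)) ^ Γ.card := by
  classical
  obtain ⟨C, hab⟩ := allbd η hη
  refine ⟨C, (hab.and (EvT_reg A7_e3 A7_e3' 1)).mono fun d k q h => ?_⟩
  obtain ⟨hab, -, -, hk, -⟩ := h
  have hk1 : 1 ≤ k := by exact_mod_cast hk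
  intro hR c
  have hfull : cE (fun t f => bdP η c (pat f t)) (univ : Finset (Blk d k)) ≤
      ZZ d (k + 1) q * Real.exp (-(2 ^ d / (d : ℝ) ^ C)) ^ (Fintype.card (Blk d k)) := by
    have h1 := hab hR c
    unfold Rar at h1
    have h2 : cE (fun t f => bdP η c (pat f t)) (univ : Finset (Blk d k)) ≤
        ZZ d (k + 1) q * Real.exp (-(NN d (k + 1) / (d : ℝ) ^ C)) := by
      refine le_trans (le_of_eq ?_) h1
      unfold cE
      congr 2
      ext f
      simp only [mem_filter, mem_univ, forall_const]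
    refine le_trans h2 ?_
    apply mul_le_mul_of_nonneg_left _ (A7_ZZ _ _ _)
    rw [← Real.exp_nat_mul]
    apply Real.exp_le_exp.2
    rw [card_Blk, NN_succ]
    have : NN d k * -((2 : ℝ) ^ d / (d : ℝ) ^ C) = -(2 ^ d * NN d k / (d : ℝ) ^ C) := by ring
    rw [this]
  exact chess hk1 (cE (fun t f => bdP η c (pat f t))) (ZZ d (k + 1) q)
    (Real.exp (-(2 ^ d / (d : ℝ) ^ C))) (Real.exp_pos _) (A7_ZZ _ _ _)
    (fun Γ => by unfold cE; positivity)
    (fun j α Γ => rp hk1 (fun t f => bdP η c (pat f t))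
      (fun t f g h hb => A7_loc η c t f g h hb)
      (fun j α t f hb => A7_sym η c j α t f hb) j α Γ)
    (by
      unfold cE ZZ
      exact_mod_cast Finset.card_le_card (Finset.filter_subset _ _))
    hfull

private theorem A7_Rar_false {C d k q : ℕ} {P : (Site d k → Fin q) → Prop} (h : ∀ f, ¬ P f) :
    Rar C d k q P := by
  classical
  unfold Rar
  have e : (prps d k q).filter P = ∅ := by
    ext f
    simp [h f]
  rw [filter_congr_decidable, e, Finset.card_empty, Nat.cast_zero]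
  exact mul_nonneg (A7_ZZ _ _ _) (Real.exp_pos _).le

private theorem A7_pow (m : ℕ) : ∀ᶠ d : ℕ in atTop, 2 * (d : ℝ) ^ m ≤ 2 ^ d := by
  have h1 : ∀ᶠ n : ℕ in Filter.atTop, (n : ℝ) ^ m / (2 : ℝ) ^ n < 1 / 2 :=
    (tendsto_pow_const_div_const_pow_of_one_lt m (by norm_num : (1 : ℝ) < 2)).eventually
      (gt_mem_nhds (by norm_num))
  filter_upwards [h1] with d hd
  have h2p : (0 : ℝ) < 2 ^ d := by positivity
  rw [div_lt_div_iff₀ h2p (by norm_num)] at hd
  linarith

private theorem A7_NN (d k : ℕ) : 0 ≤ NN d k := by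
  unfold NN
  positivity

theorem bd_few (η : ℝ) (hη : 0 < η) (K : ℕ) : WOPb e3 fun d k q f => Rg d q →
    cn (fun t : Blk d k => ∃ c : Fin q, bdP η c (pat f t)) ≤ NN d k / (d : ℝ) ^ K := by
  classical
  obtain ⟨C, hC⟩ := bd_chess η hη
  refine ⟨C + K + 1 + 1, ((((hC.and (EvT_reg A7_e3 A7_e3' 2)).and
    (EvT_d (A7_pow (C + K + 1 + 1)))).and (EvT_NN (ε := e3) fun _ q => (q : ℝ)))).mono ?_⟩
  rintro d k q ⟨⟨⟨hC, hd, hq, -⟩, hp⟩, hqN⟩
  by_cases hR : Rg d q
  swap
  · exact A7_Rar_false fun f hf => hf fun h => absurd h hR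
  have hC1 := hC hR
  have hdn : 2 ≤ d := by exact_mod_cast hd
  have hd0 : (0 : ℝ) < d := by linarith
  have hN := A7_NN d k
  have hqd : (q : ℝ) ≤ d := by
    have h1 : ((1000 * q : ℕ) : ℝ) ≤ ((2 * d : ℕ) : ℝ) := by exact_mod_cast hR.2.1
    push_cast at h1
    linarith
  have hq0 : (0 : ℝ) < q := by linarith
  have hone : ∀ i : Fin q × Finset (Blk d k), Rar (C + K + 1) d (k + 1) q fun f =>
      NN d k / (d : ℝ) ^ (K + 1) ≤ (i.2.card : ℝ) ∧ ∀ t ∈ i.2, bdP η i.1 (pat f t) := by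
    rintro ⟨c, Γ⟩
    by_cases hΓ : NN d k / (d : ℝ) ^ (K + 1) ≤ (Γ.card : ℝ)
    swap
    · exact A7_Rar_false fun f hf => hΓ hf.1
    have h1 := hC1 c Γ
    unfold Rar
    have h2 : ZZ d (k + 1) q * Real.exp (-(2 ^ d / (d : ℝ) ^ C)) ^ Γ.card ≤
        ZZ d (k + 1) q * Real.exp (-(NN d (k + 1) / (d : ℝ) ^ (C + K + 1))) := by
      apply mul_le_mul_of_nonneg_left _ (A7_ZZ _ _ _)
      rw [← Real.exp_nat_mul]
      apply Real.exp_le_exp.2
      rw [NN_succ]
      have h3 : (2 ^ d * NN d k / (d : ℝ) ^ (C + K + 1)) =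
          (2 ^ d / (d : ℝ) ^ C) * (NN d k / (d : ℝ) ^ (K + 1)) := by
        rw [div_mul_div_comm, ← pow_add, add_assoc]
      rw [h3, mul_neg, neg_le_neg_iff, mul_comm]
      exact mul_le_mul_of_nonneg_right hΓ (by positivity)
    refine le_trans (le_trans (le_of_eq ?_) h1) h2
    unfold cE
    congr 2
    ext f
    simp only [mem_filter, hΓ, true_and]
  have hun := Rar_union hdn hone (by
    have hcard : (Fintype.card (Fin q × Finset (Blk d k)) : ℝ) =
        q * 2 ^ (Fintype.card (Blk d k)) := by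
      rw [Fintype.card_prod, Fintype.card_fin, Fintype.card_finset]
      push_cast
      rfl
    rw [hcard, Real.log_mul hq0.ne' (by positivity), Real.log_pow, card_Blk, NN_succ]
    have h1 : Real.log q ≤ NN d k := by
      have := Real.log_le_sub_one_of_pos hq0
      linarith
    have h2 : Real.log 2 ≤ 1 := by
      have := Real.log_two_lt_d9
      linarith
    have h3 : Real.log q + NN d k * Real.log 2 ≤ 2 * NN d k := by nlinarith
    calc (d : ℝ) ^ (C + K + 1 + 1) * (Real.log q + NN d k * Real.log 2)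
        ≤ (d : ℝ) ^ (C + K + 1 + 1) * (2 * NN d k) :=
          mul_le_mul_of_nonneg_left h3 (by positivity)
      _ = 2 * (d : ℝ) ^ (C + K + 1 + 1) * NN d k := by ring
      _ ≤ 2 ^ d * NN d k := mul_le_mul_of_nonneg_right hp hN)
  refine hun.mono ?_
  intro f _ hf
  have hf2 : ¬ (cn (fun t : Blk d k => ∃ c : Fin q, bdP η c (pat f t)) ≤ NN d k / (d : ℝ) ^ K) :=
    fun h => hf fun _ => h
  by_contra hno
  apply hf2
  have hsm : ∀ c : Fin q, ((univ.filter fun t : Blk d k => bdP η c (pat f t)).card : ℝ) <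
      NN d k / (d : ℝ) ^ (K + 1) := by
    intro c
    by_contra hcc
    exact hno ⟨(c, univ.filter fun t : Blk d k => bdP η c (pat f t)), not_lt.mp hcc,
      fun t ht => (mem_filter.mp ht).2⟩
  have h1 : cn (fun t : Blk d k => ∃ c : Fin q, bdP η c (pat f t)) ≤
      ∑ c : Fin q, ((univ.filter fun t : Blk d k => bdP η c (pat f t)).card : ℝ) := by
    unfold cn
    have h2 : (univ.filter fun t : Blk d k => ∃ c : Fin q, bdP η c (pat f t)) ⊆
        (univ : Finset (Fin q)).biUnion fun c => univ.filter fun t : Blk d k =>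
          bdP η c (pat f t) := by
      intro t ht
      rw [mem_filter] at ht
      obtain ⟨_, c, hc⟩ := ht
      rw [mem_biUnion]
      exact ⟨c, mem_univ _, mem_filter.mpr ⟨mem_univ _, hc⟩⟩
    have h3 := (card_le_card h2).trans card_biUnion_le
    rw [filter_congr_decidable]
    exact_mod_cast h3
  refine h1.trans ?_
  refine (Finset.sum_le_sum fun c _ => (hsm c).le).trans ?_
  rw [Finset.sum_const, Finset.card_univ, Fintype.card_fin, nsmul_eq_mul]
  have h4 : NN d k / (d : ℝ) ^ K = d * (NN d k / (d : ℝ) ^ (K + 1)) := by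
    rw [pow_succ]
    field_simp
  rw [h4]
  exact mul_le_mul_of_nonneg_right hqd (by positivity)

end Pool.Agent.LC

end
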