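import Pool.Agent.Lib_MP_2c424f_m.M23
import Pool.Agent.Lib_MP_2c424f_m.M26
import Pool.Agent.Lib_MP_2c424f_m.M41

/-!
# MP_2c424f_pr, q_c grows linearly: merged library part M42

Concatenation of smaller files (each in its own section), only to save build time.
-/

namespace Pool.Agent.LO
end Pool.Agent.LO

namespace Pool.Agent.LIN
end Pool.Agent.LIN

namespace Pool.Agent.THR
end Pool.Agent.THR

namespace Pool.Agent.COR
end Pool.Agent.COR

/-! ### from `Lib_MP_2c424f_cor.E02` -/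

section

/-!
# Geometry of the shell boxes (piece E02)

`w`, `n + 2 = w 2^K` and all `a i`, `b i + 2` are multiples of `w` (so all corners are even); hence an active lower side has
`a i ≥ w`, an active upper side `b i + w ≤ n`; `w ≥ 8 h` (`d ≥ 10`), `h ≥ 2`.  `sd_nonempty`: in a direction `i ≠ i₀` (`d ≥ 2`) the box has
the length `w - 2 < n` (`K ≥ 1`), so one of the two sides is active.
-/

set_option autoImplicit false

open Finset

namespace Pool.Agent.COR

open Pool.Agent.LO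

variable {d K k : ℕ} {a b : Fin d → ℕ}

private theorem E02_w2 (d : ℕ) : 2 ∣ wC d := ⟨d ^ 33, rfl⟩

private theorem E02_h2 (d : ℕ) : 2 ∣ hC d := ⟨d ^ 30, rfl⟩

private theorem E02_hw (hd : 10 ≤ d) : 2 ≤ hC d ∧ 8 * hC d ≤ wC d := by
  have h1 : 1 ≤ d ^ 30 := Nat.one_le_pow _ _ (by omega)
  have h2 : 10 ^ 3 ≤ d ^ 3 := Nat.pow_le_pow_left hd 3
  have h3 : d ^ 33 = d ^ 3 * d ^ 30 := by ring
  have h4 : 10 ^ 3 * d ^ 30 ≤ d ^ 3 * d ^ 30 := Nat.mul_le_mul_right _ h2
  unfold hC wC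
  constructor
  · omega
  · rw [h3]
    omega

private theorem E02_n (hd : 10 ≤ d) (K : ℕ) : nC d K + 2 = wC d * 2 ^ K := by
  have h1 := E02_hw hd
  have h2 : wC d * 1 ≤ wC d * 2 ^ K := Nat.mul_le_mul_left _ (Nat.one_le_pow _ _ (by norm_num))
  unfold nC
  omega

private theorem E02_ne (hd : 10 ≤ d) (K : ℕ) : Even (nC d K) := by
  have h1 := E02_n hd K
  have h2 : 2 ∣ wC d * 2 ^ K := Dvd.dvd.mul_right (E02_w2 d) _
  rw [even_iff_two_dvd]
  omega

theorem dbx_even (hD : dbx d K a b) (i : Fin d) : Even (a i) ∧ Even (b i) := by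
  obtain ⟨h1, h2, h3⟩ := hD.1 i
  have h4 := E02_w2 d
  have h5 : 2 ∣ a i := h4.trans h1
  rw [even_iff_two_dvd, even_iff_two_dvd]
  refine ⟨h5, ?_⟩
  rcases h3 with h3 | h3 <;> omega

theorem dbx_act (hd : 10 ≤ d) (hD : dbx d K a b) (i : Fin d) :
    (0 < a i → wC d ≤ a i) ∧ (b i < nC d K → b i + wC d ≤ nC d K) ∧ a i + (wC d - 2) ≤ b i ∧
      b i ≤ a i + (2 * wC d - 2) := by
  obtain ⟨h1, h2, h3⟩ := hD.1 i
  have h4 := E02_hw hd
  have h5 := E02_n hd K
  refine ⟨fun h => Nat.le_of_dvd h h1, fun h => ?_, ?_, ?_⟩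
  · have h6 : ∃ m, b i + 2 = wC d * m := by
      obtain ⟨c, hc⟩ := h1
      rcases h3 with h3 | h3
      · exact ⟨c + 1, by rw [h3, hc]; ring⟩
      · exact ⟨c + 2, by rw [h3, hc]; ring⟩
    obtain ⟨m, hm⟩ := h6
    have h7 : wC d * m < wC d * 2 ^ K := by omega
    have h8 : m + 1 ≤ 2 ^ K := Nat.lt_of_mul_lt_mul_left h7
    have h9 : wC d * (m + 1) ≤ wC d * 2 ^ K := Nat.mul_le_mul_left _ h8
    rw [Nat.mul_add, Nat.mul_one] at h9
    omega
  · rcases h3 with h3 | h3 <;> omega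
  · rcases h3 with h3 | h3 <;> omega

private theorem E02_sd {σ : Stp d} : σ ∈ sd d K a b ↔
    (σ.2 = true ∧ b σ.1 < nC d K) ∨ (σ.2 = false ∧ 0 < a σ.1) := by
  classical
  unfold sd
  rw [mem_filter]
  cases h : σ.2 <;> simp

theorem sd_nonempty (hd : 10 ≤ d) (hK : 1 ≤ K) (hD : dbx d K a b) : (sd d K a b).Nonempty := by
  obtain ⟨i₀, h0⟩ := hD.2
  have h1 : ∃ i : Fin d, i ≠ i₀ := by
    by_cases h : i₀ = ⟨0, by omega⟩
    · refine ⟨⟨1, by omega⟩, fun h2 => ?_⟩
      rw [h] at h2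
      exact absurd (congrArg Fin.val h2) (by norm_num)
    · exact ⟨⟨0, by omega⟩, Ne.symm h⟩
  obtain ⟨i, hi⟩ := h1
  have h2 := h0 i hi
  have h3 := E02_hw hd
  have h4 := E02_n hd K
  have h5 : 2 ^ 1 ≤ 2 ^ K := Nat.pow_le_pow_right (by norm_num) hK
  have h6 : wC d * 2 ^ 1 ≤ wC d * 2 ^ K := Nat.mul_le_mul_left _ h5
  by_cases ha : 0 < a i
  · exact ⟨(i, false), E02_sd.2 (Or.inr ⟨rfl, ha⟩)⟩
  · refine ⟨(i, true), E02_sd.2 (Or.inl ⟨rfl, ?_⟩)⟩
    show b i < nC d K
    omega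

theorem evb_dbx (hd : 10 ≤ d) (hn : nC d K + 4 ≤ 2 ^ (k + 1)) (hD : dbx d K a b) : evb k a b := by
  intro i
  obtain ⟨h1, h2⟩ := dbx_even hD i
  obtain ⟨h3, h4, h5, h6⟩ := dbx_act hd hD i
  have h7 := E02_hw hd
  have h8 := (hD.1 i).2.1
  exact ⟨h1, h2, by omega, by omega⟩

/-- the corners in one direction -/
private theorem E02_q (hd : 10 ≤ d) (hD : dbx d K a b) {σ : Stp d}
    (hσ : σ ∈ sd d K a b) (i : Fin d) :
    Even (qa d a b σ i) ∧ Even (qb d K a b σ i) ∧ qa d a b σ i + 2 * hC d ≤ qb d K a b σ i ∧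
      qb d K a b σ i ≤ nC d K ∧ elo d a i ≤ qa d a b σ i ∧ qb d K a b σ i ≤ ehi d K b i ∧
      (i = σ.1 → b i < qa d a b σ i ∨ qb d K a b σ i < a i) := by
  obtain ⟨h1, h2⟩ := dbx_even hD i
  obtain ⟨h3, h4, h5, h6⟩ := dbx_act hd hD i
  obtain ⟨h7, h7'⟩ := E02_hw hd
  have h8 := (hD.1 i).2.1
  have h9 := E02_ne hd K
  rw [even_iff_two_dvd] at h1 h2 h9
  rw [even_iff_two_dvd, even_iff_two_dvd]
  unfold qa qb
  by_cases hi : i = σ.1
  · subst hi
    rw [Function.update_self, Function.update_self]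
    unfold elo ehi
    rcases E02_sd.1 hσ with ⟨hs, hs'⟩ | ⟨hs, hs'⟩
    · rw [hs, if_pos rfl, if_pos rfl]
      have h10 := h4 hs'
      refine ⟨by omega, by omega, by omega, by omega, by omega, ?_, fun _ => Or.inl (by omega)⟩
      exact le_min (by omega) le_rfl
    · have hf : ¬ (false = true) := Bool.false_ne_true
      rw [hs, if_neg hf, if_neg hf]
      have h10 := h3 hs'
      refine ⟨by omega, by omega, by omega, by omega, by omega, ?_, fun _ => Or.inr (by omega)⟩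
      exact le_min (by omega) (by omega)
  · rw [Function.update_of_ne hi, Function.update_of_ne hi]
    unfold elo ehi
    refine ⟨by omega, ?_, ?_, min_le_left _ _, le_rfl, le_rfl, fun h => absurd h hi⟩
    · rcases le_total (nC d K) (b i + (2 * hC d + 2)) with h | h
      · rw [min_eq_left h]
        exact h9
      · rw [min_eq_right h]
        omega
    · exact le_min (by omega) (by omega)

theorem evb_q (hd : 10 ≤ d) (hn : nC d K + 4 ≤ 2 ^ (k + 1)) (hD : dbx d K a b) {σ : Stp d}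
    (hσ : σ ∈ sd d K a b) :
    evb k (qa d a b σ) (qb d K a b σ) ∧ ∀ i, qa d a b σ i + 2 * hC d ≤ qb d K a b σ i := by
  have h7 := E02_hw hd
  refine ⟨fun i => ?_, fun i => (E02_q hd hD hσ i).2.2.1⟩
  obtain ⟨h1, h2, h3, h4, -⟩ := E02_q hd hD hσ i
  exact ⟨h1, h2, by omega, by omega⟩

private theorem E02_bx {a b : Fin d → ℕ} {x : Site d k} :
    x ∈ bx a b ↔ ∀ i, a i ≤ (x i).val ∧ (x i).val ≤ b i := by
  unfold bx
  rw [mem_filter]
  simp only [mem_univ, true_and]

/-- the shell boxes are in `G`, in the neighbourhood of `D` and do not meet `D` -/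
theorem QB_sub (hd : 10 ≤ d) (hn : nC d K + 4 ≤ 2 ^ (k + 1)) (hD : dbx d K a b) {σ : Stp d}
    (hσ : σ ∈ sd d K a b) :
    QB d K k a b σ ⊆ GB d K k ∧ QB d K k a b σ ⊆ bx (elo d a) (ehi d K b) ∧
      Disjoint (QB d K k a b σ) (bx a b) := by
  have hq := E02_q hd hD hσ
  refine ⟨fun x hx => ?_, fun x hx => ?_, ?_⟩
  · unfold QB at hx
    rw [E02_bx] at hx
    unfold GB
    rw [E02_bx]
    intro i
    have h1 := hx i
    have h2 := (hq i).2.2.2.1
    exact ⟨Nat.zero_le _, h1.2.trans h2⟩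
  · unfold QB at hx
    rw [E02_bx] at hx ⊢
    intro i
    have h1 := hx i
    obtain ⟨-, -, -, -, h2, h3, -⟩ := hq i
    exact ⟨h2.trans h1.1, h1.2.trans h3⟩
  · rw [disjoint_left]
    intro x hx hx'
    unfold QB at hx
    rw [E02_bx] at hx hx'
    have h1 := hx σ.1
    have h2 := hx' σ.1
    rcases (hq σ.1).2.2.2.2.2.2 rfl with h3 | h3 <;> omega

end Pool.Agent.COR

end

/-! ### from `Lib_MP_2c424f_cor.F02` -/

section

/-!
# Boxes which are not pure (piece F02, (F1))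

`gr a b = piFinset s`, `s i = {x : a i ≤ 2 x.val, 2 x.val + 2 ≤ b i}` (an interval of `(b i - a i)/2 ≤ w` consecutive values, without
wrapping since `b i + 4 ≤ 2^(k+1)`).  Suppose `100 d w #{t ∈ gr : ¬ GD t f} < |gr|` and apply `lines` with `B = {t ∈ gr : ¬ GD t f}`,
`lab t = AL f t`.  `hl`: on a line all of whose blocks are good, consecutive blocks `t`, `nxt t i` have the same `AL`
(`lab_adj` for each colour, `GD_iff`), so all blocks of the line have the same `AL` (induction).  The set `A` has `q/2` elements because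
some block (`|gr| > 0`) is `GD` with `AL = A`.
-/

set_option autoImplicit false

open Finset

namespace Pool.Agent.COR

open Pool.Agent.LO

variable {d k q : ℕ}

open scoped Classical in
/-- pure box -/
def PU (a b : Fin d → ℕ) (f : Site d (k + 1) → Fin q) : Prop :=
  ∃ A : Finset (Fin q), A.card = q / 2 ∧ 49 / 50 * ((gr a b : Finset (Blk d k)).card : ℝ) ≤
    (((gr a b : Finset (Blk d k)).filter fun t => GD t f ∧ AL f t = A).card : ℝ)

private theorem F02_pt (t : Blk d k) (a b : Bt d) (j : Fin d) :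
    pt t a b j = ((2 * (t j).val + (if a j then 1 else 0) + (if b j then 1 else 0) : ℕ) :
      ZMod (2 ^ (k + 1))) := by
  simp only [pt, bas, bv, Pi.add_apply]
  push_cast
  rfl

private theorem F02_mem_F02 {a b : Fin d → ℕ} (hab : ∀ i, b i < 2 ^ (k + 1)) (t : Blk d k)
    (ht : ∀ i, a i ≤ 2 * (t i).val ∧ 2 * (t i).val + 2 ≤ b i) (a' b' : Bt d) :
    pt t a' b' ∈ (bx a b : Finset (Site d (k + 1))) := by
  unfold bx
  rw [mem_filter]
  refine ⟨mem_univ _, fun i => ?_⟩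
  obtain ⟨h1, h2⟩ := ht i
  have h3 := hab i
  have h4 : (if a' i then 1 else 0) + (if b' i then 1 else 0) ≤ 2 := by
    split_ifs <;> omega
  rw [F02_pt, ZMod.val_natCast_of_lt (by omega)]
  omega

private theorem F02_gr {a b : Fin d → ℕ} {t : Blk d k} :
    t ∈ (gr a b : Finset (Blk d k)) ↔ ∀ i, a i ≤ 2 * (t i).val ∧ 2 * (t i).val + 2 ≤ b i := by
  unfold gr
  rw [mem_filter]
  simp only [mem_univ, true_and]

theorem PU_loc {a b : Fin d → ℕ} (hab : ∀ i, b i < 2 ^ (k + 1)) (f g : Site d (k + 1) → Fin q)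
    (h : ∀ x ∈ (bx a b : Finset (Site d (k + 1))), f x = g x) (hf : PU a b f) : PU a b g := by
  classical
  obtain ⟨A, hA, h1⟩ := hf
  refine ⟨A, hA, h1.trans ?_⟩
  have h3 : ((gr a b : Finset (Blk d k)).filter fun t => GD t f ∧ AL f t = A) ⊆
      (gr a b : Finset (Blk d k)).filter fun t => GD t g ∧ AL g t = A := by
    intro t ht
    obtain ⟨h4, h5⟩ := mem_filter.1 ht
    have h2 : ∀ a' b', f (pt t a' b') = g (pt t a' b') := fun a' b' =>
      h _ (F02_mem_F02 hab t (F02_gr.1 h4) a' b')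
    rw [GD_loc t f g h2, AL_loc t f g h2] at h5
    exact mem_filter.2 ⟨h4, h5⟩
  exact_mod_cast card_le_card h3

private theorem F02_lines {d : ℕ} (hd : 1 ≤ d) {α L : Type} (s : Fin d → Finset α) (hne : ∀ i, (s i).Nonempty)
    (w : ℝ) (hs : ∀ i, ((s i).card : ℝ) ≤ w) (B : Finset (Fin d → α))
    (hB : (B.card : ℝ) * (100 * d * w) ≤ ∏ i, ((s i).card : ℝ)) (lab : (Fin d → α) → L)
    (hl : ∀ t ∈ Fintype.piFinset s, ∀ i, ∀ x ∈ s i, (∀ y ∈ s i, Function.update t i y ∉ B) →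
      lab (Function.update t i x) = lab t) :
    ∃ (A : L) (P : Finset (Fin d → α)), (∀ t ∈ P, t ∈ Fintype.piFinset s ∧ t ∉ B ∧ lab t = A) ∧
      49 / 50 * ∏ i, ((s i).card : ℝ) ≤ (P.card : ℝ) := by
  classical
  obtain ⟨A, hA⟩ := lines hd s hne w hs B hB lab hl
  refine ⟨A, _, fun t ht => ?_, hA⟩
  exact Finset.mem_filter.1 ht

/-- adjacent good blocks have the same set -/
private theorem F02_step (hd : 2 ≤ d) (hk : 1 ≤ k) (hq : 1 ≤ q) (f : Site d (k + 1) → Fin q) (t : Blk d k)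
    (j : Fin d) (h1 : GD t f) (h2 : GD (nxt t j) f) : AL f (nxt t j) = AL f t := by
  ext c
  rw [(GD_iff (by omega) hq h1.1 c).2, (GD_iff (by omega) hq h2.1 c).2,
    lab_adj hd hk hq c f t j (h1.1 c) (h2.1 c)]

private theorem F02_line (hd : 2 ≤ d) (hk : 1 ≤ k) (hq : 1 ≤ q) (f : Site d (k + 1) → Fin q) (t : Blk d k)
    (j : Fin d) (lo hi : ℕ)
    (hG : ∀ m, lo ≤ m → m < hi → GD (Function.update t j ((m : ℕ) : ZMod (2 ^ k))) f) (m : ℕ) (h1 : lo ≤ m)
    (h2 : m < hi) : AL f (Function.update t j ((m : ℕ) : ZMod (2 ^ k))) =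
      AL f (Function.update t j ((lo : ℕ) : ZMod (2 ^ k))) := by
  induction m, h1 using Nat.le_induction with
  | base => rfl
  | succ m hm ih =>
    have h3 : nxt (Function.update t j ((m : ℕ) : ZMod (2 ^ k))) j =
        Function.update t j (((m + 1 : ℕ)) : ZMod (2 ^ k)) := by
      unfold nxt
      rw [Function.update_self, Function.update_idem, Nat.cast_add, Nat.cast_one]
    have h4 := F02_step hd hk hq f (Function.update t j ((m : ℕ) : ZMod (2 ^ k))) j
      (hG m hm (by omega)) (by rw [h3]; exact hG (m + 1) (by omega) h2)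
    rw [h3] at h4
    rw [h4]
    exact ih (by omega)

open scoped Classical in
theorem not_pure {K : ℕ} (hd : 10 ≤ d) (hk : 1 ≤ k) (hq : 1 ≤ q) (hn : nC d K + 4 ≤ 2 ^ (k + 1))
    {a b : Fin d → ℕ} (hD : dbx d K a b) (f : Site d (k + 1) → Fin q) (h : ¬ PU a b f) :
    ((gr a b : Finset (Blk d k)).card : ℝ) / (100 * d * wC d) ≤
      (((gr a b : Finset (Blk d k)).filter fun t => ¬ GD t f).card : ℝ) := by
  classical
  by_contra hcon
  push Not at hcon
  have hev := evb_dbx hd hn hD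
  have hw : 1 ≤ wC d := by
    unfold wC
    have : 1 ≤ d ^ 33 := Nat.one_le_pow _ _ (by omega)
    omega
  have hpw : 2 ^ (k + 1) = 2 * 2 ^ k := by ring
  set s : Fin d → Finset (ZMod (2 ^ k)) := fun i =>
    univ.filter fun z : ZMod (2 ^ k) => a i ≤ 2 * z.val ∧ 2 * z.val + 2 ≤ b i with hs
  have hms : ∀ i z, z ∈ s i ↔ a i ≤ 2 * z.val ∧ 2 * z.val + 2 ≤ b i := by
    intro i z
    rw [hs]
    simp only [mem_filter, mem_univ, true_and]
  have hgr : (gr a b : Finset (Blk d k)) = Fintype.piFinset s := by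
    ext t
    rw [F02_gr, Fintype.mem_piFinset]
    exact forall_congr' fun i => (hms i _).symm
  have hcard : ((gr a b : Finset (Blk d k)).card : ℝ) = ∏ i, ((s i).card : ℝ) := by
    rw [hgr, Fintype.card_piFinset]
    push_cast
    rfl
  have hne : ∀ i, (s i).Nonempty := by
    intro i
    obtain ⟨⟨c, hc⟩, ⟨c', hc'⟩, e3, e4⟩ := hev i
    refine ⟨((c : ℕ) : ZMod (2 ^ k)), (hms i _).2 ?_⟩
    rw [ZMod.val_natCast_of_lt (by omega)]
    omega
  have hsw : ∀ i, ((s i).card : ℝ) ≤ (wC d : ℝ) := by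
    intro i
    obtain ⟨⟨c, hc⟩, ⟨c', hc'⟩, e3, e4⟩ := hev i
    have h1 := (dbx_act hd hD i).2.2.2
    have h2 : ((s i).image ZMod.val) ⊆ Finset.Ico c c' := by
      intro x hx
      obtain ⟨z, hz, rfl⟩ := mem_image.1 hx
      have h3 := (hms i z).1 hz
      rw [mem_Ico]
      omega
    have h3 := card_le_card h2
    rw [Finset.card_image_of_injective _ (ZMod.val_injective _), Nat.card_Ico] at h3
    have h4 : (s i).card ≤ wC d := by omega
    exact_mod_cast h4
  set B : Finset (Blk d k) := (gr a b : Finset (Blk d k)).filter fun t => ¬ GD t f with hB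
  have hmB : ∀ t, t ∈ (gr a b : Finset (Blk d k)) → (t ∉ B ↔ GD t f) := by
    intro t ht
    rw [hB, mem_filter, not_and, not_not]
    exact ⟨fun h => h ht, fun h _ => h⟩
  have hdw : (0 : ℝ) < 100 * d * wC d := by
    have h1 : (0 : ℝ) < d := by exact_mod_cast (show 0 < d by omega)
    have h2 : (0 : ℝ) < wC d := by exact_mod_cast (show 0 < wC d by omega)
    positivity
  have hBc : (B.card : ℝ) * (100 * d * wC d) ≤ ∏ i, ((s i).card : ℝ) := by
    rw [← hcard]
    rw [lt_div_iff₀ hdw] at hcon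
    exact hcon.le
  obtain ⟨A, P, hP, hA⟩ := F02_lines (by omega) s hne (wC d) hsw B hBc (fun t => AL f t) (by
    intro t ht i x hx hall
    have hup : ∀ y ∈ s i, Function.update t i y ∈ (gr a b : Finset (Blk d k)) := by
      intro y hy
      rw [hgr, Fintype.mem_piFinset]
      intro j
      by_cases hj : j = i
      · subst hj
        rw [Function.update_self]
        exact hy
      · rw [Function.update_of_ne hj]
        exact Fintype.mem_piFinset.1 ht j
    obtain ⟨⟨c, hc⟩, ⟨c', hc'⟩, e3, e4⟩ := hev i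
    have hG : ∀ m, c ≤ m → m < c' → GD (Function.update t i ((m : ℕ) : ZMod (2 ^ k))) f := by
      intro m h1 h2
      have h3 : ((m : ℕ) : ZMod (2 ^ k)) ∈ s i := by
        rw [hms, ZMod.val_natCast_of_lt (by omega)]
        omega
      exact (hmB _ (hup _ h3)).1 (hall _ h3)
    have hline := F02_line (by omega) hk hq f t i c c' hG
    have hx' : ∀ y ∈ s i, AL f (Function.update t i y) =
        AL f (Function.update t i ((c : ℕ) : ZMod (2 ^ k))) := by
      intro y hy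
      have h1 := (hms i y).1 hy
      have h2 := hline y.val (by omega) (by omega)
      rw [ZMod.natCast_zmod_val] at h2
      exact h2
    have h1 := hx' x hx
    have h2 := hx' (t i) (Fintype.mem_piFinset.1 ht i)
    rw [Function.update_eq_self] at h2
    show AL f (Function.update t i x) = AL f t
    rw [h1, h2])
  have hA' : 49 / 50 * ∏ i, ((s i).card : ℝ) ≤
      (((gr a b : Finset (Blk d k)).filter fun t => GD t f ∧ AL f t = A).card : ℝ) := by
    refine hA.trans ?_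
    have h2 : P ⊆ (gr a b : Finset (Blk d k)).filter fun t => GD t f ∧ AL f t = A := by
      intro t ht
      obtain ⟨h3, h4, h5⟩ := hP t ht
      rw [← hgr] at h3
      exact mem_filter.2 ⟨h3, (hmB t h3).1 h4, h5⟩
    exact_mod_cast card_le_card h2
  have hpos : (0 : ℝ) < ∏ i, ((s i).card : ℝ) := by
    refine Finset.prod_pos fun i _ => ?_
    exact_mod_cast Finset.card_pos.2 (hne i)
  refine h ⟨A, ?_, ?_⟩
  · have h1 : (0 : ℝ) < (((gr a b : Finset (Blk d k)).filter fun t => GD t f ∧ AL f t = A).card : ℝ) := by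
      refine lt_of_lt_of_le ?_ hA'
      exact mul_pos (by norm_num) hpos
    have h2 : 0 < ((gr a b : Finset (Blk d k)).filter fun t => GD t f ∧ AL f t = A).card := by
      exact_mod_cast h1
    obtain ⟨t, ht⟩ := Finset.card_pos.1 h2
    rw [mem_filter] at ht
    rw [← ht.2.2]
    exact ht.2.1.2
  · rw [hcard]
    exact hA'

end Pool.Agent.COR

end

/-! ### from `Lib_MP_2c424f_cor.F05` -/

section

/-!
# The grid of the large blocks (piece F05, (F4) geometry)

Large blocks `t : Blk d K` (`(t i).val ∈ {0, …, 2^K - 1}`): the box `[wa t, wb t] = w t + [0, w-2]^d`; dominoes `[wa u, db u j]`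
(`(u j).val + 1 < 2^K`) contain the boxes of `u` and `nxt u j`.  `BAD t f`: one of the dominoes which contain the box of `t` is not pure.
`far_dom`: say `(t i).val + 4 ≤ (t' i).val`: the domino of `t` lies in `x i ≤ w ((t i).val + 2) - 2`, the one of `t'` in
`x i ≥ w ((t' i).val - 1) ≥ w ((t i).val + 3)`, the gap is larger than `2 h + 2`.
-/

set_option autoImplicit false

open Finset

namespace Pool.Agent.COR

open Pool.Agent.LO

variable {d k K q : ℕ}

/-- lower corner of a large block -/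
def wa (t : Blk d K) : Fin d → ℕ := fun i => wC d * (t i).val

/-- upper corner of a large block -/
def wb (t : Blk d K) : Fin d → ℕ := fun i => wC d * (t i).val + (wC d - 2)

/-- upper corner of a domino -/
def db (t : Blk d K) (j : Fin d) : Fin d → ℕ :=
  Function.update (wb t) j (wC d * (t j).val + (2 * wC d - 2))

/-- bad large blocks -/
def BAD (t : Blk d K) (f : Site d (k + 1) → Fin q) : Prop :=
  ∃ (u : Blk d K) (j : Fin d), (u j).val + 1 < 2 ^ K ∧ (u = t ∨ nxt u j = t) ∧ ¬ PU (wa u) (db u j) f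

/-- far apart -/
def farB (t t' : Blk d K) : Prop := ∃ i, (t i).val + 4 ≤ (t' i).val ∨ (t' i).val + 4 ≤ (t i).val

private theorem F05_hw (hd : 10 ≤ d) : 2 ≤ hC d ∧ 8 * hC d ≤ wC d := by
  have h1 : 1 ≤ d ^ 30 := Nat.one_le_pow _ _ (by omega)
  have h2 : 10 ^ 3 ≤ d ^ 3 := Nat.pow_le_pow_left hd 3
  have h3 : d ^ 33 = d ^ 3 * d ^ 30 := by ring
  have h4 : 10 ^ 3 * d ^ 30 ≤ d ^ 3 * d ^ 30 := Nat.mul_le_mul_right _ h2
  unfold hC wC
  constructor
  · omega
  · rw [h3]
    omega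

private theorem F05_n (hd : 10 ≤ d) (K : ℕ) : nC d K + 2 = wC d * 2 ^ K := by
  have h1 := F05_hw hd
  have h2 : wC d * 1 ≤ wC d * 2 ^ K := Nat.mul_le_mul_left _ (Nat.one_le_pow _ _ (by norm_num))
  unfold nC
  omega

/-- upper bound for a product `w * x` by a multiple of `w` -/
private theorem F05_mul {w x y c : ℕ} (h : x + c ≤ y) : w * x + c * w ≤ w * y := by
  have h1 := Nat.mul_le_mul_left w h
  rw [Nat.mul_add, Nat.mul_comm w c] at h1
  exact h1

private theorem F05_nxt (u : Blk d K) (j : Fin d) (h : (u j).val + 1 < 2 ^ K) (i : Fin d) :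
    (nxt u j i).val = if i = j then (u i).val + 1 else (u i).val := by
  unfold nxt
  by_cases hij : i = j
  · subst hij
    rw [if_pos rfl, Function.update_self]
    have h1 : Fact (1 < 2 ^ K) := ⟨by omega⟩
    rw [ZMod.val_add, ZMod.val_one, Nat.mod_eq_of_lt h]
  · rw [if_neg hij, Function.update_of_ne hij]

private theorem F05_db (u : Blk d K) (j i : Fin d) :
    db u j i = if i = j then wC d * (u i).val + (2 * wC d - 2) else wC d * (u i).val + (wC d - 2) := by
  unfold db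
  by_cases hij : i = j
  · subst hij
    rw [if_pos rfl, Function.update_self]
  · rw [if_neg hij, Function.update_of_ne hij]
    rfl

/-- position of a domino which contains the box of `t` -/
private theorem F05_pos (hd : 10 ≤ d) {t u : Blk d K} {j : Fin d} (h : (u j).val + 1 < 2 ^ K)
    (h1 : u = t ∨ nxt u j = t) (i : Fin d) :
    wC d * (t i).val ≤ wa u i + wC d ∧ db u j i + 2 ≤ wC d * (t i).val + 2 * wC d := by
  have hw := F05_hw hd
  have h2 := F05_db u j i
  have h3 : (t i).val = (u i).val ∨ i = j ∧ (t i).val = (u i).val + 1 := by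
    rcases h1 with rfl | rfl
    · exact Or.inl rfl
    · rw [F05_nxt u j h i]
      by_cases hij : i = j
      · right
        rw [if_pos hij]
        exact ⟨hij, rfl⟩
      · left
        rw [if_neg hij]
  have h4 : wa u i = wC d * (u i).val := rfl
  rw [h4, h2]
  rcases h3 with h3 | ⟨h3, h5⟩
  · rw [h3]
    by_cases hij : i = j
    · rw [if_pos hij]
      omega
    · rw [if_neg hij]
      omega
  · rw [h5, if_pos h3, Nat.mul_add, Nat.mul_one]
    omega

theorem dbx_dom (hd : 10 ≤ d) (u : Blk d K) (j : Fin d) (h : (u j).val + 1 < 2 ^ K) :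
    dbx d K (wa u) (db u j) := by
  have hw := F05_hw hd
  have hn := F05_n hd K
  have hne : NeZero (2 ^ K) := ⟨by positivity⟩
  refine ⟨fun i => ⟨⟨(u i).val, rfl⟩, ?_, ?_⟩, j, fun i hi => ?_⟩
  · rw [F05_db]
    by_cases hij : i = j
    · rw [if_pos hij]
      subst hij
      have h1 : wC d * (u i).val + 2 * wC d ≤ wC d * 2 ^ K := F05_mul (by omega)
      omega
    · rw [if_neg hij]
      have h2 : (u i).val < 2 ^ K := ZMod.val_lt (u i)
      have h1 : wC d * (u i).val + 1 * wC d ≤ wC d * 2 ^ K := F05_mul (by omega)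
      omega
  · have h4 : wa u i = wC d * (u i).val := rfl
    rw [F05_db, h4]
    by_cases hij : i = j
    · rw [if_pos hij]
      right
      omega
    · rw [if_neg hij]
      left
      omega
  · have h4 : wa u i = wC d * (u i).val := rfl
    rw [F05_db, h4, if_neg hi]
    omega

theorem far_dom (hd : 10 ≤ d) {t t' u u' : Blk d K} {j j' : Fin d} (ht : farB t t')
    (hu : (u j).val + 1 < 2 ^ K) (hu' : (u' j').val + 1 < 2 ^ K) (h1 : u = t ∨ nxt u j = t)
    (h2 : u' = t' ∨ nxt u' j' = t') (hn : nC d K + 4 ≤ 2 ^ (k + 1)) :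
    Disjoint (bx (wa u') (db u' j') : Finset (Site d (k + 1))) (bx (elo d (wa u)) (ehi d K (db u j))) := by
  classical
  have hw := F05_hw hd
  have _ := hn
  obtain ⟨i, hi⟩ := ht
  rw [Finset.disjoint_left]
  intro x hx hx'
  unfold bx at hx hx'
  rw [mem_filter] at hx hx'
  have h3 := hx.2 i
  have h4 := hx'.2 i
  have h5 := F05_pos hd hu h1 i
  have h6 := F05_pos hd hu' h2 i
  have h7 : elo d (wa u) i = wa u i - (2 * hC d + 2) := rfl
  have h8 : ehi d K (db u j) i ≤ db u j i + (2 * hC d + 2) := min_le_right _ _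
  rw [h7] at h4
  rcases hi with hi | hi
  · have h9 : wC d * (t i).val + 4 * wC d ≤ wC d * (t' i).val := F05_mul hi
    omega
  · have h9 : wC d * (t' i).val + 4 * wC d ≤ wC d * (t i).val := F05_mul hi
    omega

private theorem F05_comm {t t' : Blk d K} (h : farB t t') : farB t' t := by
  obtain ⟨i, h | h⟩ := h
  · exact ⟨i, Or.inr h⟩
  · exact ⟨i, Or.inl h⟩

private theorem F05_irr (t : Blk d K) : ¬ farB t t := by
  rintro ⟨i, h | h⟩ <;> omega

open scoped Classical in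
/-- the neighbourhood of a block -/
private noncomputable def F05_N (t : Blk d K) : Finset (Blk d K) :=
  haveI : NeZero (2 ^ K) := ⟨by positivity⟩
  Fintype.piFinset fun i => univ.filter fun y : ZMod (2 ^ K) =>
    y.val ≤ (t i).val + 3 ∧ (t i).val ≤ y.val + 3

private theorem F05_mem_N (t t' : Blk d K) (h : ¬ farB t t') : t' ∈ F05_N t := by
  classical
  unfold F05_N
  rw [Fintype.mem_piFinset]
  intro i
  rw [mem_filter]
  refine ⟨mem_univ _, ?_⟩
  have h1 : ¬ ((t i).val + 4 ≤ (t' i).val ∨ (t' i).val + 4 ≤ (t i).val) := fun h1 => h ⟨i, h1⟩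
  omega

private theorem F05_card_N (t : Blk d K) : (F05_N t).card ≤ 7 ^ d := by
  classical
  have hne : NeZero (2 ^ K) := ⟨by positivity⟩
  unfold F05_N
  rw [Fintype.card_piFinset]
  calc ∏ i, (univ.filter fun y : ZMod (2 ^ K) =>
        y.val ≤ (t i).val + 3 ∧ (t i).val ≤ y.val + 3).card ≤ ∏ _i : Fin d, 7 := by
        refine Finset.prod_le_prod (fun _ _ => Nat.zero_le _) fun i _ => ?_
        have h1 : ((univ.filter fun y : ZMod (2 ^ K) =>
            y.val ≤ (t i).val + 3 ∧ (t i).val ≤ y.val + 3).image ZMod.val).card =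
            (univ.filter fun y : ZMod (2 ^ K) =>
            y.val ≤ (t i).val + 3 ∧ (t i).val ≤ y.val + 3).card :=
          Finset.card_image_of_injective _ (ZMod.val_injective _)
        rw [← h1]
        refine (Finset.card_le_card (t := Finset.Icc ((t i).val - 3) ((t i).val + 3)) ?_).trans ?_
        · intro m hm
          rw [mem_image] at hm
          obtain ⟨y, hy, rfl⟩ := hm
          rw [mem_filter] at hy
          rw [mem_Icc]
          omega
        · rw [Nat.card_Icc]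
          omega
    _ = 7 ^ d := by
        rw [Finset.prod_const, Finset.card_univ, Fintype.card_fin]

/-- separated subsets: take a maximal one; every `t ∈ Γ` is at sup-distance at most `3` from it -/
theorem sep (Γ : Finset (Blk d K)) : ∃ Γ' ⊆ Γ, (∀ t ∈ Γ', ∀ t' ∈ Γ', t ≠ t' → farB t t') ∧
    Γ.card ≤ 7 ^ d * Γ'.card := by
  classical
  obtain ⟨Γ', hΓ', hmax⟩ := Finset.exists_max_image
    (Γ.powerset.filter fun S => ∀ t ∈ S, ∀ t' ∈ S, t ≠ t' → farB t t') Finset.card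
    ⟨∅, by rw [mem_filter, mem_powerset]; exact ⟨empty_subset _, fun t ht => absurd ht (notMem_empty t)⟩⟩
  rw [mem_filter, mem_powerset] at hΓ'
  refine ⟨Γ', hΓ'.1, hΓ'.2, ?_⟩
  have h1 : Γ ⊆ Γ'.biUnion F05_N := by
    intro t ht
    rw [mem_biUnion]
    by_contra hc
    push Not at hc
    have h2 : ∀ t' ∈ Γ', farB t' t := by
      intro t' ht'
      by_contra h3
      exact hc t' ht' (F05_mem_N t' t h3)
    have h3 : t ∉ Γ' := fun h3 => F05_irr t (h2 t h3)
    have h4 : insert t Γ' ∈ Γ.powerset.filter fun S => ∀ t ∈ S, ∀ t' ∈ S, t ≠ t' → farB t t' := by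
      rw [mem_filter, mem_powerset]
      refine ⟨insert_subset ht hΓ'.1, ?_⟩
      intro a ha b hb hab
      rw [mem_insert] at ha hb
      rcases ha with rfl | ha
      · rcases hb with rfl | hb
        · exact absurd rfl hab
        · exact F05_comm (h2 b hb)
      · rcases hb with rfl | hb
        · exact h2 a ha
        · exact hΓ'.2 a ha b hb hab
    have h5 := hmax _ h4
    rw [card_insert_of_notMem h3] at h5
    omega
  calc Γ.card ≤ (Γ'.biUnion F05_N).card := card_le_card h1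
    _ ≤ Γ'.card * 7 ^ d := card_biUnion_le_card_mul _ _ _ fun t _ => F05_card_N t
    _ = 7 ^ d * Γ'.card := Nat.mul_comm _ _

end Pool.Agent.COR

end

/-! ### from `Lib_MP_2c424f_lc7.E08` -/

section

/-!
# LC7 E08: geometry of the dominoes

* `farD_sep`: `COR.sep` (the same definition of far blocks).
* `far_pos`: `t`, `t'` far in the direction `i`, say `(t i).val + 4 ≤ (t' i).val`; the domino of `t` has `(u i).val ≤ (t i).val` and it ends before
  `aS u i + w + lm false L s` in the direction `i` if `j = i` (then `(u i).val ≤ (t i).val`, side `lm false (2 L) s = 2 w - 2 + 2 s`), in all cases before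
  `2 h + 2 + w (t i).val + 2 w - 2 + 2 s`; the domino of `t'` starts at `≥ 2 h + 2 + w ((t' i).val - 1)`; the gap is `≥ w + 2 - 2 s ≥ 2 h + 4` (`w = 2 · 32^e`, `e ≥ 1`).
-/

set_option autoImplicit false

open Finset Filter

namespace Pool.Agent.LC

open Pool.Agent.LO Pool.Agent.LIN Pool.Agent.THR Pool.Agent.COR

variable {d K : ℕ}

theorem farD_sep (Γ : Finset (Blk d K)) : ∃ Γ' ⊆ Γ, (∀ t ∈ Γ', ∀ t' ∈ Γ', t ≠ t' → farD t t') ∧
    Γ.card ≤ 7 ^ d * Γ'.card := by
  obtain ⟨Γ', h1, h2, h3⟩ := COR.sep Γ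
  exact ⟨Γ', h1, fun t ht t' ht' hne => h2 t ht t' ht' hne, h3⟩

private theorem E08_hw {e : ℕ} (he : 1 ≤ e) : 4 ≤ hS e ∧ 8 * hS e ≤ wS e := by
  have h1 : 4 ^ 1 ≤ 4 ^ e := Nat.pow_le_pow_right (by norm_num) he
  have h2 : 8 ^ 1 ≤ 8 ^ e := Nat.pow_le_pow_right (by norm_num) he
  have h3 : 2 ^ (5 * e) = 8 ^ e * 4 ^ e := by
    rw [← mul_pow, pow_mul]
    norm_num
  unfold hS wS
  constructor
  · omega
  · rw [h3]
    have h4 : 8 * 4 ^ e ≤ 8 ^ e * 4 ^ e := Nat.mul_le_mul_right _ (by omega)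
    omega

private theorem E08_mul {w x y c : ℕ} (h : x + c ≤ y) : w * x + c * w ≤ w * y := by
  have h1 := Nat.mul_le_mul_left w h
  rw [Nat.mul_add, Nat.mul_comm w c] at h1
  exact h1

private theorem E08_nxt (u : Blk d K) (j : Fin d) (h : (u j).val + 1 < 2 ^ K) (i : Fin d) :
    (LO.nxt u j i).val = if i = j then (u i).val + 1 else (u i).val := by
  unfold LO.nxt
  by_cases hij : i = j
  · subst hij
    rw [if_pos rfl, Function.update_self]
    have h1 : Fact (1 < 2 ^ K) := ⟨by omega⟩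
    rw [ZMod.val_add, ZMod.val_one, Nat.mod_eq_of_lt h]
  · rw [if_neg hij, Function.update_of_ne hij]

private theorem E08_lm (e : ℕ) (j i : Fin d) : lm false (LS e (some j) i) (hS e) + 2 =
    if i = j then 2 * wS e + 2 * hS e else wS e + 2 * hS e := by
  have h0 : 1 ≤ 2 ^ (5 * e) := Nat.one_le_pow _ _ (by norm_num)
  unfold lm LS rS wS
  by_cases hij : i = j
  · subst hij
    rw [if_pos rfl, if_pos rfl, pow_succ]
    simp only [Bool.false_eq_true, if_false]
    omega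
  · have h1 : ¬ (some j = some i) := fun h => hij (Option.some.inj h).symm
    rw [if_neg h1, if_neg hij]
    simp only [Bool.false_eq_true, if_false]
    omega

private theorem E08_pos {e : ℕ} {t u : Blk d K} {j : Fin d} (h : (u j).val + 1 < 2 ^ K)
    (h1 : u = t ∨ LO.nxt u j = t) (i : Fin d) :
    2 * hS e + 2 + wS e * (t i).val ≤ aS e u i + wS e ∧
      aS e u i + lm false (LS e (some j) i) (hS e) + 2 ≤
        2 * hS e + 2 + wS e * (t i).val + 2 * wS e + 2 * hS e := by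
  have h2 := E08_lm e j i
  have h3 : (t i).val = (u i).val ∨ i = j ∧ (t i).val = (u i).val + 1 := by
    rcases h1 with rfl | rfl
    · exact Or.inl rfl
    · rw [E08_nxt u j h i]
      by_cases hij : i = j
      · right
        rw [if_pos hij]
        exact ⟨hij, rfl⟩
      · left
        rw [if_neg hij]
  have h4 : aS e u i = 2 * hS e + 2 + wS e * (u i).val := rfl
  rw [h4]
  rcases h3 with h3 | ⟨h3, h5⟩
  · rw [h3]
    by_cases hij : i = j
    · rw [if_pos hij] at h2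
      omega
    · rw [if_neg hij] at h2
      omega
  · rw [if_pos h3] at h2
    rw [h5, Nat.mul_add, Nat.mul_one]
    omega

theorem far_pos {e : ℕ} (he : 1 ≤ e) {t t' u u' : Blk d K} {j j' : Fin d} (ht : farD t t')
    (hu : (u j).val + 1 < 2 ^ K) (hu' : (u' j').val + 1 < 2 ^ K) (h1 : u = t ∨ LO.nxt u j = t)
    (h2 : u' = t' ∨ LO.nxt u' j' = t') : ∃ i,
      aS e u i + lm false (LS e (some j) i) (hS e) + 2 * hS e + 4 ≤ aS e u' i ∨
      aS e u' i + lm false (LS e (some j') i) (hS e) + 2 * hS e + 4 ≤ aS e u i := by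
  have hw := E08_hw he
  obtain ⟨i, hi⟩ := ht
  refine ⟨i, ?_⟩
  have h5 := E08_pos (e := e) hu h1 i
  have h6 := E08_pos (e := e) hu' h2 i
  rcases hi with hi | hi
  · have h9 : wS e * (t i).val + 4 * wS e ≤ wS e * (t' i).val := E08_mul hi
    left
    omega
  · have h9 : wS e * (t' i).val + 4 * wS e ≤ wS e * (t i).val := E08_mul hi
    right
    omega

end Pool.Agent.LC

end

/-! ### from `Lib_MP_2c424f_lc6a.B6` -/

section

/-!
# LC6a B6: size of the levels

For every `(k, σ)` a point of the level `l` is determined by its coordinates in the directions `j ≠ σ.1` (the coordinate `σ.1` is determined by `lv`), which are in `[a j, a j + m j]`: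
at most `∏_{j ≠ σ.1} (m j + 1)` points.  `∑_σ = 2 ∑_i`.  (Inject `{p : lv p = l}` into `Σ (k, σ), ∏_{j : {j // j ≠ σ.1}} Fin (m k j + 1)`.)
-/

set_option autoImplicit false

open Finset Filter

namespace Pool.Agent.LC

open Pool.Agent.LO Pool.Agent.LIN Pool.Agent.THR Pool.Agent.COR

variable {d N h : ℕ} {ι : Type} (D : Bxs d N h ι)

open scoped Classical in
private theorem B6_fib (l : ℕ) (z : {k // k ∈ D.I} × Stp d) :
    ((univ.filter fun p : D.Lam => D.lv p = l).filter fun p => p.1.1 = z).card ≤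
      ∏ i' ∈ univ.erase z.2.1, (D.m z.1.1 i' + 1) := by
  obtain ⟨f, hf⟩ : ∃ f : D.Lam → Fin d → ℕ,
    f = fun p j => if j = z.2.1 then 0 else (p.1.2 j).val := ⟨_, rfl⟩
  obtain ⟨T, hT⟩ : ∃ T : Fin d → Finset ℕ, T = fun j => if j = z.2.1 then {0} else
    Finset.Icc (D.a z.1.1 j) (D.a z.1.1 j + D.m z.1.1 j) := ⟨_, rfl⟩
  have h1 : (Fintype.piFinset T).card = ∏ i' ∈ univ.erase z.2.1, (D.m z.1.1 i' + 1) := by
    rw [Fintype.card_piFinset, ← Finset.mul_prod_erase univ _ (Finset.mem_univ z.2.1)]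
    have h2 : (T z.2.1).card = 1 := by
      rw [hT]
      simp
    rw [h2, one_mul]
    apply Finset.prod_congr rfl
    intro j hj
    have hj' := (Finset.mem_erase.1 hj).1
    rw [hT]
    show (if j = z.2.1 then ({0} : Finset ℕ) else
      Finset.Icc (D.a z.1.1 j) (D.a z.1.1 j + D.m z.1.1 j)).card = _
    rw [if_neg hj', Nat.card_Icc]
    omega
  rw [← h1]
  refine Finset.card_le_card_of_injOn f ?_ ?_
  · intro p hp
    rw [Finset.mem_coe, Finset.mem_filter, Finset.mem_filter] at hp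
    obtain ⟨⟨-, hl⟩, hz⟩ := hp
    rw [Finset.mem_coe, Fintype.mem_piFinset]
    intro j
    rw [hT, hf]
    show (if j = z.2.1 then 0 else (p.1.2 j).val) ∈ (if j = z.2.1 then ({0} : Finset ℕ) else
      Finset.Icc (D.a z.1.1 j) (D.a z.1.1 j + D.m z.1.1 j))
    by_cases hj : j = z.2.1
    · rw [if_pos hj, if_pos hj, Finset.mem_singleton]
    · rw [if_neg hj, if_neg hj, Finset.mem_Icc]
      have h3 := p.2.1.1
      rw [hz] at h3
      have h4 := h3 j hj
      unfold Bxs.okc at h4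
      omega
  · intro p hp p' hp' he
    rw [Finset.mem_coe, Finset.mem_filter, Finset.mem_filter] at hp hp'
    obtain ⟨⟨-, hl⟩, hz⟩ := hp
    obtain ⟨⟨-, hl'⟩, hz'⟩ := hp'
    have hx : p.1.2 = p'.1.2 := by
      funext j
      apply Fin.ext
      by_cases hj : j = z.2.1
      · have h3 := p.2.2
        have h3' := p'.2.2
        have h5 : (D.dp p.1.1.1.1 p.1.1.2 p.1.2 - 1).toNat = l := hl
        have h5' : (D.dp p'.1.1.1.1 p'.1.1.2 p'.1.2 - 1).toNat = l := hl'
        rw [hz] at h3 h5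
        rw [hz'] at h3' h5'
        have h6 : D.dp z.1.1 z.2 p.1.2 = D.dp z.1.1 z.2 p'.1.2 := by omega
        unfold Bxs.dp at h6
        rw [hj]
        split_ifs at h6 <;> omega
      · have h3 := congrFun he j
        rw [hf] at h3
        have h4 : (if j = z.2.1 then 0 else (p.1.2 j).val) =
          (if j = z.2.1 then 0 else (p'.1.2 j).val) := h3
        rw [if_neg hj, if_neg hj] at h4
        exact h4
    apply Subtype.ext
    exact Prod.ext (hz.trans hz'.symm) hx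

open scoped Classical in
theorem level_card (l : ℕ) : ((univ.filter fun p : D.Lam => D.lv p = l).card : ℝ) ≤ D.YY := by
  have h1 : (univ.filter fun p : D.Lam => D.lv p = l).card =
      ∑ z : {k // k ∈ D.I} × Stp d,
        ((univ.filter fun p : D.Lam => D.lv p = l).filter fun p => p.1.1 = z).card :=
    Finset.card_eq_sum_card_fiberwise (fun p _ => Finset.mem_coe.2 (Finset.mem_univ p.1.1))
  have h2 : (univ.filter fun p : D.Lam => D.lv p = l).card ≤
      ∑ z : {k // k ∈ D.I} × Stp d, ∏ i' ∈ univ.erase z.2.1, (D.m z.1.1 i' + 1) := by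
    rw [h1]
    exact Finset.sum_le_sum fun z _ => B6_fib D l z
  have h3 : ((∑ z : {k // k ∈ D.I} × Stp d, ∏ i' ∈ univ.erase z.2.1, (D.m z.1.1 i' + 1) : ℕ) : ℝ)
      = D.YY := by
    unfold Bxs.YY
    rw [Fintype.sum_prod_type, Nat.cast_sum, ← Finset.sum_coe_sort D.I]
    refine Finset.sum_congr rfl fun k _ => ?_
    rw [Fintype.sum_prod_type, Nat.cast_sum, Finset.mul_sum]
    refine Finset.sum_congr rfl fun i _ => ?_
    rw [Fintype.sum_bool, ← two_mul, Nat.cast_mul, Nat.cast_prod]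
    push_cast
    rfl
  calc ((univ.filter fun p : D.Lam => D.lv p = l).card : ℝ)
      ≤ ((∑ z : {k // k ∈ D.I} × Stp d, ∏ i' ∈ univ.erase z.2.1, (D.m z.1.1 i' + 1) : ℕ) : ℝ) := by
        exact_mod_cast h2
    _ = D.YY := h3

end Pool.Agent.LC

end

/-! ### from `Lib_MP_2c424f_lc5.V19c` -/

section

/-!
# Part V, V19c: numbers for the separating set

`rh = 200 a² e^{-a/2}`, `a = 2d/q ≥ 1000`: `rh ≤ e^{-400}` (e.g. `e^{a/4} ≥ a²·...`: `a² ≤ 2·16² e^{a/4}/...`; any crude bound: `x^2 ≤ 64 e^{x/4}`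
for `x ≥ 0`, so `rh ≤ 12800 e^{-a/4} ≤ 12800 e^{-250} ≤ e^{-200}`).
`rh^{d²-d} (16 d²)^d ≤ e^{-200 (d²-d) + d log(16 d²)} ≤ e^{-d²}` for `d` large; the first term is at most
`(4d+1) 2 (2d²+3) Y e^{-d²} ≤ Y/(2 d^{K+3})`; the second is `2(2d²+3) Y / d^{K+7} ≤ 10 Y/d^{K+5} ≤ Y/(2 d^{K+3})` (`h > 0`).
-/

set_option autoImplicit false

open Finset Filter

namespace Pool.Agent.LC

open Pool.Agent.LO Pool.Agent.LIN Pool.Agent.THR Pool.Agent.COR

private theorem V19c_q_pos {d q : ℕ} (hd : 1 ≤ d) (hR : Rg d q) : 1 ≤ q := by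
  obtain ⟨_, _, h3⟩ := hR
  by_contra hq
  have : q = 0 := by omega
  subst this
  omega

private theorem V19c_ra {d q : ℕ} (hR : Rg d q) (hq : 1 ≤ q) : 1000 ≤ ra d q ∧ ra d q ≤ 2000 := by
  obtain ⟨_, h2, h3⟩ := hR
  have hq' : (0 : ℝ) < q := by exact_mod_cast hq
  have h2' : (1000 : ℝ) * q ≤ 2 * d := by exact_mod_cast h2
  have h3' : (2 : ℝ) * d ≤ 2000 * q := by exact_mod_cast h3
  unfold ra
  constructor
  · rwa [le_div_iff₀ hq']
  · rwa [div_le_iff₀ hq']

private theorem V19c_exp2 (n : ℕ) : (2 : ℝ) ^ n ≤ Real.exp n := by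
  have h1 : (2 : ℝ) ≤ Real.exp 1 := by
    have := Real.add_one_le_exp (1 : ℝ)
    linarith
  have h2 : Real.exp (n : ℝ) = Real.exp 1 ^ n := by
    rw [← Real.exp_nat_mul, mul_one]
  rw [h2]
  exact pow_le_pow_left₀ (by norm_num) h1 n

theorem rh_le {d q : ℕ} (hd : 1 ≤ d) (hR : Rg d q) (hq : 1 ≤ q) : rh d q ≤ Real.exp (-200) := by
  obtain ⟨h1, h2⟩ := V19c_ra hR hq
  unfold rh
  have h3 : Real.exp (-ra d q / 2) ≤ Real.exp (-500) := Real.exp_le_exp.2 (by linarith)
  have h4 : ra d q ^ 2 ≤ 2000 ^ 2 := pow_le_pow_left₀ (by linarith) h2 2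
  have h5 : (2 : ℝ) ^ 30 ≤ Real.exp 300 := by
    have h0 := V19c_exp2 30
    have h0' : Real.exp ((30 : ℕ) : ℝ) ≤ Real.exp 300 := Real.exp_le_exp.2 (by norm_num)
    exact h0.trans h0'
  have h6 : Real.exp (-200) = Real.exp 300 * Real.exp (-500) := by
    rw [← Real.exp_add]
    norm_num
  rw [h6]
  have h7 : (200 : ℝ) * ra d q ^ 2 ≤ Real.exp 300 := by
    refine le_trans ?_ h5
    calc (200 : ℝ) * ra d q ^ 2 ≤ 200 * 2000 ^ 2 := by linarith
      _ ≤ 2 ^ 30 := by norm_num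
  exact mul_le_mul h7 h3 (Real.exp_pos _).le (Real.exp_pos _).le

private theorem V19c_rh_nonneg (d q : ℕ) : 0 ≤ rh d q := by
  unfold rh
  positivity

private theorem V19c_main {d q : ℕ} (hd : 2 ≤ d) (hR : Rg d q) :
    rh d q ^ (d ^ 2 - d) * ((4 * (d : ℝ)) ^ 2) ^ d ≤ Real.exp (-((d : ℝ) ^ 2)) := by
  have hq := V19c_q_pos (by omega) hR
  have h1 := rh_le (by omega) hR hq
  have hdr : (2 : ℝ) ≤ d := by exact_mod_cast hd
  have hle : d ≤ d ^ 2 := by nlinarith
  have h2 : rh d q ^ (d ^ 2 - d) ≤ Real.exp (-200 * ((d : ℝ) ^ 2 - d)) := by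
    have h3 : Real.exp (-200 * ((d : ℝ) ^ 2 - d)) = Real.exp (-200) ^ (d ^ 2 - d) := by
      rw [← Real.exp_nat_mul, Nat.cast_sub hle]
      push_cast
      ring_nf
    rw [h3]
    exact pow_le_pow_left₀ (V19c_rh_nonneg d q) h1 _
  have h4 : 4 * (d : ℝ) ≤ Real.exp (2 + d) := by
    rw [Real.exp_add]
    have h5 : (4 : ℝ) ≤ Real.exp 2 := by
      have := V19c_exp2 2
      norm_num at this
      exact_mod_cast this
    have h6 : (d : ℝ) ≤ Real.exp d := by
      have := Real.add_one_le_exp (d : ℝ)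
      linarith
    exact mul_le_mul h5 h6 (by positivity) (Real.exp_pos _).le
  have h7 : ((4 * (d : ℝ)) ^ 2) ^ d ≤ Real.exp (2 * d * (2 + d)) := by
    have h8 : Real.exp (2 * d * (2 + (d : ℝ))) = (Real.exp (2 + d) ^ 2) ^ d := by
      rw [← pow_mul, ← Real.exp_nat_mul]
      push_cast
      ring_nf
    rw [h8]
    exact pow_le_pow_left₀ (by positivity) (pow_le_pow_left₀ (by positivity) h4 2) d
  calc rh d q ^ (d ^ 2 - d) * ((4 * (d : ℝ)) ^ 2) ^ d
      ≤ Real.exp (-200 * ((d : ℝ) ^ 2 - d)) * Real.exp (2 * d * (2 + d)) :=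
        mul_le_mul h2 h7 (by positivity) (Real.exp_pos _).le
    _ = Real.exp (-200 * ((d : ℝ) ^ 2 - d) + 2 * d * (2 + d)) := (Real.exp_add _ _).symm
    _ ≤ Real.exp (-((d : ℝ) ^ 2)) := Real.exp_le_exp.2 (by nlinarith)

theorem num3 (K : ℕ) : ∃ d₀ : ℕ, ∀ (d q h : ℕ) (Y : ℝ), d₀ ≤ d → Rg d q → 1 ≤ h → 0 ≤ Y →
    (4 * d + 1) * (2 * ((2 * ((d ^ 2 : ℕ) : ℝ) + 3) * Y * (rh d q ^ (d ^ 2 - d) * ((4 * d) ^ 2) ^ d))) +
      2 * (2 * ((d ^ 2 : ℕ) : ℝ) + 3) * (h * Y / (d : ℝ) ^ (K + 6)) / (h * d) ≤ Y / (d : ℝ) ^ (K + 3) := by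
  -- `100 x^(K+6) ≤ e^x` for `x` large
  have hlim : Tendsto (fun x : ℝ => x ^ (K + 6) * Real.exp (-x)) atTop (nhds 0) :=
    Real.tendsto_pow_mul_exp_neg_atTop_nhds_zero (K + 6)
  have hev : ∀ᶠ n : ℕ in atTop, (n : ℝ) ^ (K + 6) * Real.exp (-(n : ℝ)) < 1 / 100 :=
    (hlim.comp tendsto_natCast_atTop_atTop).eventually (gt_mem_nhds (by norm_num))
  obtain ⟨N, hN⟩ := eventually_atTop.1 hev
  refine ⟨max N 5, fun d q h Y hd hR hh hY => ?_⟩
  have hdN : N ≤ d := le_trans (le_max_left _ _) hd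
  have hd5 : 5 ≤ d := le_trans (le_max_right _ _) hd
  have hdr : (5 : ℝ) ≤ d := by exact_mod_cast hd5
  have hd0 : (0 : ℝ) < d := by linarith
  have hh0 : (0 : ℝ) < h := by exact_mod_cast hh
  have h1 := V19c_main (by omega) hR
  have h2 := hN d hdN
  have h3 : 100 * (d : ℝ) ^ (K + 6) ≤ Real.exp ((d : ℝ) ^ 2) := by
    rw [Real.exp_neg] at h2
    have h4 : (d : ℝ) ^ (K + 6) < 1 / 100 * Real.exp d := by
      rwa [← div_eq_mul_inv, div_lt_iff₀ (Real.exp_pos _)] at h2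
    have h5 : Real.exp (d : ℝ) ≤ Real.exp ((d : ℝ) ^ 2) := Real.exp_le_exp.2 (by nlinarith)
    linarith
  have hcast : ((d ^ 2 : ℕ) : ℝ) = (d : ℝ) ^ 2 := by push_cast; rfl
  rw [hcast]
  have hA : (4 * (d : ℝ) + 1) * (2 * ((2 * (d : ℝ) ^ 2 + 3) * Y * (rh d q ^ (d ^ 2 - d) * ((4 * (d : ℝ)) ^ 2) ^ d))) ≤
      Y / (2 * (d : ℝ) ^ (K + 3)) := by
    have h4 : (4 * (d : ℝ) + 1) * (2 * ((2 * (d : ℝ) ^ 2 + 3) * Y * (rh d q ^ (d ^ 2 - d) * ((4 * (d : ℝ)) ^ 2) ^ d))) ≤
        (5 * d) * (2 * ((5 * (d : ℝ) ^ 2) * Y * Real.exp (-((d : ℝ) ^ 2)))) := by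
      have h5 : 4 * (d : ℝ) + 1 ≤ 5 * d := by linarith
      have h6 : 2 * (d : ℝ) ^ 2 + 3 ≤ 5 * (d : ℝ) ^ 2 := by nlinarith
      have h7 : 0 ≤ rh d q ^ (d ^ 2 - d) * ((4 * (d : ℝ)) ^ 2) ^ d :=
        mul_nonneg (pow_nonneg (V19c_rh_nonneg d q) _) (by positivity)
      gcongr
    refine h4.trans ?_
    rw [le_div_iff₀ (by positivity), Real.exp_neg]
    have h8 : 0 < Real.exp ((d : ℝ) ^ 2) := Real.exp_pos _
    have h9 : 5 * (d : ℝ) * (2 * (5 * (d : ℝ) ^ 2 * Y * (Real.exp ((d : ℝ) ^ 2))⁻¹)) * (2 * (d : ℝ) ^ (K + 3)) =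
        Y * (100 * (d : ℝ) ^ (K + 6) / Real.exp ((d : ℝ) ^ 2)) := by
      rw [pow_add (d : ℝ) K 6, pow_add (d : ℝ) K 3]
      field_simp
      ring
    rw [h9]
    have h10 : 100 * (d : ℝ) ^ (K + 6) / Real.exp ((d : ℝ) ^ 2) ≤ 1 := (div_le_one h8).2 h3
    calc Y * (100 * (d : ℝ) ^ (K + 6) / Real.exp ((d : ℝ) ^ 2)) ≤ Y * 1 := by gcongr
      _ = Y := mul_one Y
  have hB : 2 * (2 * (d : ℝ) ^ 2 + 3) * (h * Y / (d : ℝ) ^ (K + 6)) / (h * d) ≤ Y / (2 * (d : ℝ) ^ (K + 3)) := by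
    have h4 : 2 * (2 * (d : ℝ) ^ 2 + 3) * (h * Y / (d : ℝ) ^ (K + 6)) / (h * d) =
        2 * (2 * (d : ℝ) ^ 2 + 3) * Y / ((d : ℝ) ^ (K + 3) * (d : ℝ) ^ 4) := by
      have e1 : (d : ℝ) ^ (K + 6) = (d : ℝ) ^ (K + 3) * (d : ℝ) ^ 3 := by rw [← pow_add]
      rw [e1]
      field_simp
    rw [h4, div_le_div_iff₀ (by positivity) (by positivity)]
    have h5 : 2 * (2 * (d : ℝ) ^ 2 + 3) * 2 ≤ (d : ℝ) ^ 4 := by
      have h25 : (25 : ℝ) ≤ (d : ℝ) ^ 2 := by nlinarith
      have e2 : (d : ℝ) ^ 4 = (d : ℝ) ^ 2 * (d : ℝ) ^ 2 := by ring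
      rw [e2]
      nlinarith
    have h6 : 0 ≤ Y * (d : ℝ) ^ (K + 3) := by positivity
    calc 2 * (2 * (d : ℝ) ^ 2 + 3) * Y * (2 * (d : ℝ) ^ (K + 3)) =
          (2 * (2 * (d : ℝ) ^ 2 + 3) * 2) * (Y * (d : ℝ) ^ (K + 3)) := by ring
      _ ≤ (d : ℝ) ^ 4 * (Y * (d : ℝ) ^ (K + 3)) := by gcongr
      _ = Y * ((d : ℝ) ^ (K + 3) * (d : ℝ) ^ 4) := by ring
  have hC : Y / (2 * (d : ℝ) ^ (K + 3)) + Y / (2 * (d : ℝ) ^ (K + 3)) = Y / (d : ℝ) ^ (K + 3) := by
    field_simp
    ring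
  linarith

end Pool.Agent.LC

end

/-! ### from `Lib_MP_2c424f_lc5.V04` -/

section

/-!
# Part V, V04: elementary facts about the layer

`Rv_layer`: for `1 ≤ lv p`, `lv p + 2 ≤ h` the `X`-neighbours of `i b p` are exactly the `i b p'` with `G.Adj p p'`
(`adj`; a neighbour outside the layer is impossible by `out`), so the sets of missing colours agree.
`par_layer`: `G` is bipartite with respect to `ev ∘ i false`.
`card_nb_layer`: `(nb G p).card ≤ (nb X (i b p)).card` (injective map `p' ↦ i b p'`).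
-/

set_option autoImplicit false

open Finset Filter

namespace Pool.Agent.LC

open Pool.Agent.LO Pool.Agent.LIN Pool.Agent.THR Pool.Agent.COR

variable {V Λ : Type} [Fintype V] [DecidableEq V] [Fintype Λ] [DecidableEq Λ] {q h : ℕ}
  {X X' : SimpleGraph V} {ev : V → Prop} {G : SimpleGraph Λ} {lv : Λ → ℕ} {i : Bool → Λ → V}

theorem Rv_layer (hL : Layer h X X' ev G lv i) {p : Λ} (h1 : 1 ≤ lv p) (h2 : lv p + 2 ≤ h) (b : Bool)
    (F : V → Fin q) : Rv X F (i b p) = Rv G (fb i F b) p := by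
  classical
  ext c
  simp only [Rv, Finset.mem_filter, Finset.mem_univ, true_and, fb]
  constructor
  · intro hc p' hp'
    exact hc (i b p') ((hL.adj b b p p').2 ⟨rfl, hp'⟩)
  · intro hc x hx
    by_cases hx' : ∀ b' p', x ≠ i b' p'
    · rcases hL.out b p x hx' hx.symm with h0 | h0 <;> omega
    · push Not at hx'
      obtain ⟨b', p', rfl⟩ := hx'
      obtain ⟨rfl, hpp⟩ := (hL.adj b b' p p').1 hx
      exact hc p' hpp

theorem par_layer (hL : Layer h X X' ev G lv i) (hP : Par X ev) : Par G (fun p => ev (i false p)) := by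
  intro x y hxy
  exact hP _ _ ((hL.adj false false x y).2 ⟨rfl, hxy⟩)

theorem ev_layer (hL : Layer h X X' ev G lv i) (b : Bool) (p : Λ) : ev (i b p) ↔ ev (i false p) := by
  cases b
  · exact Iff.rfl
  · exact hL.par p

theorem card_nb_layer (hL : Layer h X X' ev G lv i) (b : Bool) (p : Λ) :
    (nb G p).card ≤ (nb X (i b p)).card := by
  classical
  refine Finset.card_le_card_of_injOn (fun p' => i b p') ?_ ?_
  · intro p' hp'
    simp only [nb, Finset.coe_filter, Finset.mem_univ, true_and, Set.mem_setOf_eq] at hp' ⊢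
    exact (hL.adj b b p p').2 ⟨rfl, hp'⟩
  · intro p₁ _ p₂ _ h12
    exact (hL.inj b b p₁ p₂ h12).2

end Pool.Agent.LC

end

/-! ### from `Lib_MP_2c424f_lc5.V07` -/

section

/-!
# Part V, V07: the expected number of starting points of long conflict walks with few points in `A`

`Φ₀ = fb i F₀ false`, `Ψ₀ = fb i F₀ true`; `F` runs over the `X`-proper functions which agree with `F₀` on the odd vertices.
`|PT(F)| ≤ ∑_{y₀ ∈ W} ∑_{y, x} 1[y 0 = y₀, all y k ∈ W, < m indices in A, y k odd, x k even, x injective, x k ∈ W, y k ≠ y (k+1),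
G.Adj (y k) (x k), G.Adj (x k) (y (k+1))] · 1[conflicts at all edges]`  (parities: `par_layer`, the walk starts at an odd point).
For fixed `(y, x)` the conflicts at `x k` are the event `cj ∅ Φ₀ Ψ₀ (y k) (F (i false (x k))) (F (i true (x k)))` and the same for
`y (k+1)` (`y k`, `y (k+1)` odd, so `F` and `F₀` agree there).  `fib_indep` with `u k = i false (x k)`, `v k = i true (x k)` and
`Rv_layer` (applied to `F₀`): the number of the `F` is at most `∏_k pc G ∅ Φ₀ Ψ₀ (x k) (y k) (y (k+1))` times the size of the fibre.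
The sum over `x` (drop injectivity) of the product is `∏_k Mk (y k) (y (k+1))` (`Finset.prod_univ_sum`); then `walk_sum`.
-/

set_option autoImplicit false

open Finset Filter

namespace Pool.Agent.LC

open Pool.Agent.LO Pool.Agent.LIN Pool.Agent.THR Pool.Agent.COR

private theorem V07_pc_nonneg {Λ : Type} [Fintype Λ] {q : ℕ} (G : SimpleGraph Λ) (J : Finset (Fin q)) (Φ Ψ : Λ → Fin q)
    (x y y' : Λ) : 0 ≤ pc G J Φ Ψ x y y' := by
  unfold pc
  positivity

private theorem V07_pc_le_one {Λ : Type} [Fintype Λ] {q : ℕ} (G : SimpleGraph Λ) (J : Finset (Fin q)) (Φ Ψ : Λ → Fin q)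
    (x y y' : Λ) : pc G J Φ Ψ x y y' ≤ 1 := by
  classical
  unfold pc
  refine div_le_one_of_le₀ ?_ (by positivity)
  have h := Finset.card_filter_le (Rv G Φ x ×ˢ Rv G Ψ x) (fun w => cj J Φ Ψ y w.1 w.2 ∧ cj J Φ Ψ y' w.1 w.2)
  rw [Finset.card_product] at h
  exact_mod_cast h

private theorem V07_Mk_nonneg {Λ : Type} [Fintype Λ] {q : ℕ} (G : SimpleGraph Λ) (J : Finset (Fin q)) (Φ Ψ : Λ → Fin q)
    (y y' : Λ) : 0 ≤ Mk G J Φ Ψ y y' := by
  unfold Mk
  refine Finset.sum_nonneg fun x _ => ?_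
  split_ifs
  · exact V07_pc_nonneg _ _ _ _ _ _ _
  · exact le_rfl

open scoped Classical in
/-- conflict conditions of the walk -/
private def V07_C {V Λ : Type} {q : ℕ} (G : SimpleGraph Λ) (i : Bool → Λ → V) {n : ℕ} (F : V → Fin q)
    (s : (Fin (n + 1) → Λ) × (Fin n → Λ)) : Prop :=
  ∀ k : Fin n, cf G (fb i F false) (fb i F true) (s.1 k.castSucc) (s.2 k) ∧
    cf G (fb i F false) (fb i F true) (s.2 k) (s.1 k.succ)

open scoped Classical in
/-- walks which are counted -/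
private noncomputable def V07_S {V Λ : Type} [Fintype Λ] (G : SimpleGraph Λ) (ev : V → Prop) (i : Bool → Λ → V)
    (W A : Finset Λ) (n m : ℕ) (y₀ : Λ) : Finset ((Fin (n + 1) → Λ) × (Fin n → Λ)) :=
  univ.filter fun s => s.1 0 = y₀ ∧ Function.Injective s.2 ∧ (∀ k, s.1 k ∈ W) ∧ (∀ k, s.2 k ∈ W) ∧
    (∀ k : Fin n, G.Adj (s.1 k.castSucc) (s.2 k) ∧ G.Adj (s.2 k) (s.1 k.succ) ∧ s.1 k.castSucc ≠ s.1 k.succ) ∧
    (univ.filter fun k : Fin n => s.1 k.castSucc ∈ A).card ≤ m ∧ (∀ k, ¬ ev (i false (s.1 k))) ∧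
    ∀ k, ev (i false (s.2 k))

open scoped Classical in
private theorem V07_mem {V Λ : Type} [Fintype Λ] {G : SimpleGraph Λ} {ev : V → Prop} {i : Bool → Λ → V}
    {W A : Finset Λ} {n m : ℕ} {y₀ : Λ} {s : (Fin (n + 1) → Λ) × (Fin n → Λ)} :
    s ∈ V07_S G ev i W A n m y₀ ↔ s.1 0 = y₀ ∧ Function.Injective s.2 ∧ (∀ k, s.1 k ∈ W) ∧ (∀ k, s.2 k ∈ W) ∧
    (∀ k : Fin n, G.Adj (s.1 k.castSucc) (s.2 k) ∧ G.Adj (s.2 k) (s.1 k.succ) ∧ s.1 k.castSucc ≠ s.1 k.succ) ∧
    (univ.filter fun k : Fin n => s.1 k.castSucc ∈ A).card ≤ m ∧ (∀ k, ¬ ev (i false (s.1 k))) ∧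
    ∀ k, ev (i false (s.2 k)) := by
  unfold V07_S
  simp only [Finset.mem_filter, Finset.mem_univ, true_and]

private theorem V07_par {Λ : Type} {G : SimpleGraph Λ} {e : Λ → Prop} (hG : Par G e) {n : ℕ} (y : Fin (n + 1) → Λ)
    (x : Fin n → Λ) (h0 : ¬ e (y 0)) (h1 : ∀ k : Fin n, G.Adj (y k.castSucc) (x k) ∧ G.Adj (x k) (y k.succ)) :
    (∀ k, ¬ e (y k)) ∧ ∀ k, e (x k) := by
  have hy : ∀ k, ¬ e (y k) := by
    intro k
    induction k using Fin.induction with
    | zero => exact h0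
    | succ k ih =>
      have h2 := hG _ _ (h1 k).1
      have h3 := hG _ _ (h1 k).2
      tauto
  refine ⟨hy, fun k => ?_⟩
  have h2 := hG _ _ (h1 k).1
  have h3 := hy k.castSucc
  tauto

open scoped Classical in
private theorem V07_count {V Λ : Type} [Fintype V] [DecidableEq V] [Fintype Λ] [DecidableEq Λ] {q h : ℕ}
    {X X' : SimpleGraph V} {ev : V → Prop} {G : SimpleGraph Λ} {lv : Λ → ℕ} {i : Bool → Λ → V}
    (hP : Par X ev) (hL : Layer h X X' ev G lv i) (W A : Finset Λ)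
    (hW : ∀ p ∈ W, 1 ≤ lv p ∧ lv p + 2 ≤ h) (F₀ : V → Fin q) (n m : ℕ) (y₀ : Λ)
    (s : (Fin (n + 1) → Λ) × (Fin n → Λ)) (hs : s ∈ V07_S G ev i W A n m y₀) :
    cG X (fun F : V → Fin q => (∀ w, ¬ ev w → F w = F₀ w) ∧ V07_C G i F s) ≤
      (∏ k : Fin n, pc G ∅ (fb i F₀ false) (fb i F₀ true) (s.2 k) (s.1 k.castSucc) (s.1 k.succ)) *
        cG X (fun F : V → Fin q => ∀ w, ¬ ev w → F w = F₀ w) := by
  obtain ⟨-, hinj, -, hxW, -, -, hod, hev⟩ := V07_mem.1 hs
  obtain ⟨E, hE⟩ : ∃ E : Fin n → Fin q → Fin q → Prop,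
      E = fun k a b => cj ∅ (fb i F₀ false) (fb i F₀ true) (s.1 k.castSucc) a b ∧
      cj ∅ (fb i F₀ false) (fb i F₀ true) (s.1 k.succ) a b := ⟨_, rfl⟩
  have key := fib_indep hP F₀ (fun k => i false (s.2 k)) (fun k => i true (s.2 k)) hev
    (fun k => (ev_layer hL true _).2 (hev k))
    (fun a b hab => hinj (hL.inj _ _ _ _ hab).2) (fun a b hab => hinj (hL.inj _ _ _ _ hab).2)
    (fun k l hkl => by
      have := (hL.inj _ _ _ _ hkl).1
      exact Bool.noConfusion this) E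
  have hprod : (∏ k : Fin n, pc G ∅ (fb i F₀ false) (fb i F₀ true) (s.2 k) (s.1 k.castSucc) (s.1 k.succ)) =
      ∏ k : Fin n, ((((Rv X F₀ (i false (s.2 k))) ×ˢ (Rv X F₀ (i true (s.2 k)))).filter
        fun w => E k w.1 w.2).card : ℝ) /
        (((Rv X F₀ (i false (s.2 k))).card : ℝ) * ((Rv X F₀ (i true (s.2 k))).card : ℝ)) := by
    refine Finset.prod_congr rfl fun k _ => ?_
    have hw := hW _ (hxW k)
    rw [Rv_layer hL hw.1 hw.2 false F₀, Rv_layer hL hw.1 hw.2 true F₀]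
    unfold pc
    refine congrArg₂ (fun a b : ℝ => a / b) (congrArg Nat.cast (congrArg Finset.card ?_)) rfl
    ext w
    simp only [Finset.mem_filter, hE]
  rw [hprod]
  refine le_trans ?_ key
  unfold cG
  refine Nat.cast_le.2 (Finset.card_le_card ?_)
  intro F hF
  simp only [Finset.mem_filter, Finset.mem_univ, true_and] at hF ⊢
  obtain ⟨hpr, hag, hC⟩ := hF
  refine ⟨hpr, hag, fun k => ?_⟩
  rw [hE]
  have e1 : ∀ l, fb i F true (s.1 l) = fb i F₀ true (s.1 l) := fun l =>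
    hag _ (fun h' => hod l ((ev_layer hL true _).1 h'))
  have e0 : ∀ l, fb i F false (s.1 l) = fb i F₀ false (s.1 l) := fun l => hag _ (hod l)
  have hk := hC k
  constructor
  · rcases hk.1.2 with h | h
    · right
      refine ⟨?_, Finset.notMem_empty _⟩
      rw [← e0]
      exact h.symm
    · left
      refine ⟨?_, Finset.notMem_empty _⟩
      rw [← e1]
      exact h.symm
  · rcases hk.2.2 with h | h
    · left
      refine ⟨?_, Finset.notMem_empty _⟩
      rw [← e1]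
      exact h
    · right
      refine ⟨?_, Finset.notMem_empty _⟩
      rw [← e0]
      exact h

open scoped Classical in
private theorem V07_weight {V Λ : Type} [Fintype Λ] {q : ℕ}
    {ev : V → Prop} {G : SimpleGraph Λ} {i : Bool → Λ → V}
    (W A : Finset Λ) (ρ D : ℝ) (h0 : 0 ≤ ρ) (h1 : ρ ≤ 1) (hD : 1 ≤ D) (Φ Ψ : Λ → Fin q)
    (hρ : ∀ y ∈ W, ¬ ev (i false y) → y ∉ A → ∑ y', Mk G ∅ Φ Ψ y y' ≤ ρ)
    (hD' : ∀ y, ∑ y', Mk G ∅ Φ Ψ y y' ≤ D) (n m : ℕ) (y₀ : Λ) :
    ∑ s ∈ V07_S G ev i W A n m y₀, ∏ k : Fin n, pc G ∅ Φ Ψ (s.2 k) (s.1 k.castSucc) (s.1 k.succ) ≤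
      ρ ^ (n - m) * D ^ m := by
  set K : Λ → Λ → ℝ := fun y y' => if ¬ ev (i false y) then Mk G ∅ Φ Ψ y y' else 0 with hK
  have hK0 : ∀ y y', 0 ≤ K y y' := by
    intro y y'
    simp only [hK]
    split_ifs
    · exact le_rfl
    · exact V07_Mk_nonneg _ _ _ _ _ _
  have hKρ : ∀ y ∈ W, y ∉ A → ∑ y', K y y' ≤ ρ := by
    intro y hy hyA
    simp only [hK]
    by_cases he : ev (i false y)
    · simp [he, h0]
    · simpa [he] using hρ y hy he hyA
  have hKD : ∀ y ∈ W, ∑ y', K y y' ≤ D := by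
    intro y _
    simp only [hK]
    by_cases he : ev (i false y)
    · simp [he, (zero_le_one.trans hD)]
    · simpa [he] using hD' y
  refine le_trans ?_ (walk_sum K hK0 W A ρ D h0 h1 hD hKρ hKD n m y₀)
  set g : (Fin (n + 1) → Λ) → Fin n → Λ → ℝ := fun y k x =>
    if G.Adj (y k.castSucc) x ∧ G.Adj x (y k.succ) ∧ y k.castSucc ≠ y k.succ then
      pc G ∅ Φ Ψ x (y k.castSucc) (y k.succ) else 0 with hg
  have hg0 : ∀ y k x, 0 ≤ g y k x := by
    intro y k x
    simp only [hg]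
    split_ifs
    · exact V07_pc_nonneg _ _ _ _ _ _ _
    · exact le_rfl
  set Sy : Finset (Fin (n + 1) → Λ) := univ.filter (fun y : Fin (n + 1) → Λ => y 0 = y₀ ∧ (∀ k, y k ∈ W) ∧
        (univ.filter fun k : Fin n => y k.castSucc ∈ A).card ≤ m) with hSy
  set Sy' : Finset (Fin (n + 1) → Λ) := Sy.filter (fun y => ∀ k, ¬ ev (i false (y k))) with hSy'
  have hsub : V07_S G ev i W A n m y₀ ⊆ Sy' ×ˢ (univ : Finset (Fin n → Λ)) := by
    intro s hs
    obtain ⟨a1, -, a3, -, -, a6, a7, -⟩ := V07_mem.1 hs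
    rw [Finset.mem_product]
    refine ⟨?_, Finset.mem_univ _⟩
    rw [hSy', Finset.mem_filter, hSy, Finset.mem_filter]
    exact ⟨⟨Finset.mem_univ _, a1, a3, a6⟩, a7⟩
  calc ∑ s ∈ V07_S G ev i W A n m y₀, ∏ k : Fin n, pc G ∅ Φ Ψ (s.2 k) (s.1 k.castSucc) (s.1 k.succ)
      = ∑ s ∈ V07_S G ev i W A n m y₀, ∏ k : Fin n, g s.1 k (s.2 k) := by
        refine Finset.sum_congr rfl fun s hs => Finset.prod_congr rfl fun k _ => ?_
        obtain ⟨-, -, -, -, a5, -, -, -⟩ := V07_mem.1 hs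
        simp only [hg]
        rw [if_pos (a5 k)]
    _ ≤ ∑ s ∈ Sy' ×ˢ (univ : Finset (Fin n → Λ)), ∏ k : Fin n, g s.1 k (s.2 k) :=
        Finset.sum_le_sum_of_subset_of_nonneg hsub fun s _ _ => Finset.prod_nonneg fun k _ => hg0 _ _ _
    _ = ∑ y ∈ Sy', ∑ x : Fin n → Λ, ∏ k : Fin n, g y k (x k) := by
        rw [Finset.sum_product]
    _ = ∑ y ∈ Sy', ∏ k : Fin n, K (y k.castSucc) (y k.succ) := by
        refine Finset.sum_congr rfl fun y hy => ?_
        have hod := (Finset.mem_filter.1 hy).2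
        rw [← Fintype.piFinset_univ, ← Finset.prod_univ_sum]
        refine Finset.prod_congr rfl fun k _ => ?_
        simp only [hK, hg]
        rw [if_pos (hod _)]
        rfl
    _ ≤ ∑ y ∈ Sy, ∏ k : Fin n, K (y k.castSucc) (y k.succ) :=
        Finset.sum_le_sum_of_subset_of_nonneg (Finset.filter_subset _ _) fun y _ _ =>
          Finset.prod_nonneg fun k _ => hK0 _ _

open scoped Classical in
theorem PT_sum {V Λ : Type} [Fintype V] [DecidableEq V] [Fintype Λ] [DecidableEq Λ] {q h : ℕ}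
    {X X' : SimpleGraph V} {ev : V → Prop} {G : SimpleGraph Λ} {lv : Λ → ℕ} {i : Bool → Λ → V}
    (hP : Par X ev) (hL : Layer h X X' ev G lv i) (W A : Finset Λ)
    (hW : ∀ p ∈ W, 1 ≤ lv p ∧ lv p + 2 ≤ h) (ρ D : ℝ) (h0 : 0 ≤ ρ) (h1 : ρ ≤ 1) (hD : 1 ≤ D) (F₀ : V → Fin q)
    (hρ : ∀ y ∈ W, ¬ ev (i false y) → y ∉ A → ∑ y', Mk G ∅ (fb i F₀ false) (fb i F₀ true) y y' ≤ ρ)
    (hD' : ∀ y, ∑ y', Mk G ∅ (fb i F₀ false) (fb i F₀ true) y y' ≤ D) (n m : ℕ) :
    ∑ F ∈ univ.filter (fun F : V → Fin q => PrG X F ∧ ∀ w, ¬ ev w → F w = F₀ w),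
        ((PT G (fun p => ev (i false p)) (fb i F false) (fb i F true) W A n m).card : ℝ) ≤
      W.card * (ρ ^ (n - m) * D ^ m) * cG X (fun F : V → Fin q => ∀ w, ¬ ev w → F w = F₀ w) := by
  set Z := cG X (fun F : V → Fin q => ∀ w, ¬ ev w → F w = F₀ w) with hZ
  have hZ0 : 0 ≤ Z := by
    rw [hZ]
    unfold cG
    positivity
  set B := univ.filter (fun F : V → Fin q => PrG X F ∧ ∀ w, ¬ ev w → F w = F₀ w) with hB
  -- one function
  have hone : ∀ F ∈ B, ((PT G (fun p => ev (i false p)) (fb i F false) (fb i F true) W A n m).card : ℝ) ≤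
      ∑ y₀ ∈ W, ∑ s ∈ V07_S G ev i W A n m y₀, if V07_C G i F s then (1 : ℝ) else 0 := by
    intro F _
    unfold PT
    rw [Finset.card_filter]
    push_cast
    refine Finset.sum_le_sum fun y₀ _ => ?_
    split_ifs with hc
    · obtain ⟨hev0, y, x, hy0, hxi, hyW, hxW, hcf, hcard⟩ := hc
      have hpar := V07_par (par_layer hL hP) y x (by rw [hy0]; exact hev0)
        (fun k => ⟨(hcf k).1.1, (hcf k).2.1.1⟩)
      have hmem : (y, x) ∈ V07_S G ev i W A n m y₀ :=
        V07_mem.2 ⟨hy0, hxi, hyW, hxW, fun k => ⟨(hcf k).1.1, (hcf k).2.1.1, (hcf k).2.2⟩, hcard.le,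
          hpar.1, hpar.2⟩
      have hC : V07_C G i F (y, x) := fun k => ⟨(hcf k).1, (hcf k).2.1⟩
      calc (1 : ℝ) = if V07_C G i F (y, x) then (1 : ℝ) else 0 := by rw [if_pos hC]
        _ ≤ _ := Finset.single_le_sum (f := fun s => if V07_C G i F s then (1 : ℝ) else 0)
            (fun s _ => by split_ifs <;> norm_num) hmem
    · refine Finset.sum_nonneg fun s _ => ?_
      split_ifs <;> norm_num
  have hcnt : ∀ s : (Fin (n + 1) → Λ) × (Fin n → Λ), ∑ F ∈ B, (if V07_C G i F s then (1 : ℝ) else 0) =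
      cG X (fun F : V → Fin q => (∀ w, ¬ ev w → F w = F₀ w) ∧ V07_C G i F s) := by
    intro s
    unfold cG
    rw [Finset.sum_boole, hB, Finset.filter_filter]
    congr 2
    ext F
    simp only [Finset.mem_filter, Finset.mem_univ, true_and, and_assoc]
  calc ∑ F ∈ B, ((PT G (fun p => ev (i false p)) (fb i F false) (fb i F true) W A n m).card : ℝ)
      ≤ ∑ F ∈ B, ∑ y₀ ∈ W, ∑ s ∈ V07_S G ev i W A n m y₀, (if V07_C G i F s then (1 : ℝ) else 0) :=
        Finset.sum_le_sum hone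
    _ = ∑ y₀ ∈ W, ∑ s ∈ V07_S G ev i W A n m y₀, ∑ F ∈ B, (if V07_C G i F s then (1 : ℝ) else 0) := by
        rw [Finset.sum_comm]
        refine Finset.sum_congr rfl fun y₀ _ => ?_
        rw [Finset.sum_comm]
    _ ≤ ∑ y₀ ∈ W, ∑ s ∈ V07_S G ev i W A n m y₀,
          (∏ k : Fin n, pc G ∅ (fb i F₀ false) (fb i F₀ true) (s.2 k) (s.1 k.castSucc) (s.1 k.succ)) * Z := by
        refine Finset.sum_le_sum fun y₀ _ => Finset.sum_le_sum fun s hs => ?_
        rw [hcnt s]
        exact V07_count hP hL W A hW F₀ n m y₀ s hs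
    _ ≤ ∑ y₀ ∈ W, (ρ ^ (n - m) * D ^ m) * Z := by
        refine Finset.sum_le_sum fun y₀ _ => ?_
        rw [← Finset.sum_mul]
        exact mul_le_mul_of_nonneg_right (V07_weight W A ρ D h0 h1 hD _ _ hρ hD' n m y₀) hZ0
    _ = _ := by
        rw [Finset.sum_const, nsmul_eq_mul]
        ring

/-- the trivial row sum: `pc ≤ 1`, at most `4 d` neighbours `x` of `y` and at most `4 d` neighbours `y'` of `x` -/
theorem Mk_row_le {Λ : Type} [Fintype Λ] {d q : ℕ} (G : SimpleGraph Λ) (hdeg : ∀ p, (nb G p).card ≤ 4 * d)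
    (J : Finset (Fin q)) (Φ Ψ : Λ → Fin q) (y : Λ) : ∑ y', Mk G J Φ Ψ y y' ≤ (4 * d) ^ 2 := by
  classical
  have hdeg' : ∀ p, ((nb G p).card : ℝ) ≤ 4 * d := fun p => by exact_mod_cast hdeg p
  unfold Mk
  rw [Finset.sum_comm]
  have h1 : ∀ x, ∑ y', (if G.Adj y x ∧ G.Adj x y' ∧ y ≠ y' then pc G J Φ Ψ x y y' else 0) ≤
      if G.Adj y x then (4 * d : ℝ) else 0 := by
    intro x
    by_cases hx : G.Adj y x
    · rw [if_pos hx]
      calc ∑ y', (if G.Adj y x ∧ G.Adj x y' ∧ y ≠ y' then pc G J Φ Ψ x y y' else 0)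
          ≤ ∑ y', (if G.Adj x y' then (1 : ℝ) else 0) := by
            refine Finset.sum_le_sum fun y' _ => ?_
            by_cases h2 : G.Adj x y'
            · rw [if_pos h2]
              split_ifs
              · exact V07_pc_le_one _ _ _ _ _ _ _
              · exact zero_le_one
            · rw [if_neg h2, if_neg (fun h3 => h2 h3.2.1)]
        _ = ((nb G x).card : ℝ) := by
            unfold nb
            rw [Finset.sum_boole]
        _ ≤ _ := hdeg' x
    · rw [if_neg hx]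
      refine le_of_eq (Finset.sum_eq_zero fun y' _ => ?_)
      rw [if_neg (fun h3 => hx h3.1)]
  refine (Finset.sum_le_sum fun x _ => h1 x).trans ?_
  rw [← Finset.sum_filter, Finset.sum_const, nsmul_eq_mul]
  have h2 : (univ.filter fun x => G.Adj y x).card = (nb G y).card := by
    unfold nb
    congr 1
  rw [h2, pow_two]
  exact mul_le_mul_of_nonneg_right (hdeg' y) (by positivity)

end Pool.Agent.LC

end

/-! ### from `Lib_MP_2c424f_lc6a.B8` -/

section

/-!
# LC6a B8: factorisation over the boxes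

`prod_cells` (`lc2.A11`) with `X = TX (bG d N) In Su`, `S = I`, `W k = D2V (DV (m k)) (Dgl (m k))`, `H k = D2s (DG (m k)) (Dgl (m k))`, `κ k p = (plc (a k) (m k) p.1.1, p.1.2)`,
`P k F = E k (F (·, false))`; then `cG_D2s`.
* `plc_val`: `a i + x i ≤ N` (`hi`).  Every point `x` of the closed box `k` is `plc` of the point with the coordinates `x i - a i`.  Surface iff `Dgl`.
* `hdis`: `sep`.  `hadj`: `bG` and `DG = prG .. lnG false` have the same edges; the conditions of `TX` and `D2`: both glued: equal sheets (`false`); one glued: the glued point is in the sheet `false`, the other one is in `In`;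
  none: equal sheets.
* `hcl`: a neighbour `(y, c)` of `(plc u, b)`: `u` not on the surface: `y` is in the closed box `k` (coordinates strictly inside); if `y` is on the surface (of a box, which is `k` by `sep`) then `c = false`, else `c = b`.
  `u` on the surface, so `b = false`: `y` not in `In` is impossible (`TX` says `b = true`); `y` in the box `k'`: `k' = k` by `sep` (distance `1`); `y` on the surface: `c = b = false`.
-/

set_option autoImplicit false

open Finset Filter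

namespace Pool.Agent.LC

open Pool.Agent.LO Pool.Agent.LIN Pool.Agent.THR Pool.Agent.COR

variable {d N h : ℕ} {ι : Type} (D : Bxs d N h ι)

private theorem B8_val {k : ι} (hk : k ∈ D.I) (u : DV (D.m k)) (i : Fin d) :
    ((plc (D.a k) (D.m k) u : BxV d N) i).val = D.a k i + (u i).val := by
  have h1 := D.hi k hk i
  have h2 := (u i).isLt
  unfold plc
  rw [Fin.val_ofNat]
  exact Nat.mod_eq_of_lt (by omega)

theorem plc_val {k : ι} (hk : k ∈ D.I) (u : DV (D.m k)) (i : Fin d) :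
    ((plc (D.a k) (D.m k) u : BxV d N) i).val = D.a k i + (u i).val :=
  B8_val D hk u i

private theorem B8_in {k : ι} (hk : k ∈ D.I) (u : DV (D.m k)) : D.inD k (plc (D.a k) (D.m k) u : BxV d N) := by
  intro i
  have h1 := B8_val D hk u i
  have h2 := (u i).isLt
  constructor <;> omega

private theorem B8_ex {k : ι} (hk : k ∈ D.I) {x : BxV d N} (hx : D.inD k x) :
    ∃ u : DV (D.m k), (plc (D.a k) (D.m k) u : BxV d N) = x := by
  refine ⟨fun i => ⟨(x i).val - D.a k i, by have := hx i; omega⟩, ?_⟩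
  funext i
  apply Fin.ext
  rw [B8_val D hk]
  have := hx i
  simp only
  omega

private theorem B8_near {x y : BxV d N} (h : x = y ∨ (bG d N).Adj x y) (i : Fin d) :
    (x i).val ≤ (y i).val + 1 ∧ (y i).val ≤ (x i).val + 1 := by
  rcases h with h | ⟨j, h1, h2⟩
  · subst h
    omega
  · by_cases hij : i = j
    · subst hij
      omega
    · rw [h1 i hij]
      omega

private theorem B8_sep {k k' : ι} (hk : k ∈ D.I) (hk' : k' ∈ D.I) {x y : BxV d N} (hx : D.inD k x) (hy : D.inD k' y)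
    (h : x = y ∨ (bG d N).Adj x y) : k = k' := by
  by_contra hne
  obtain ⟨i, hi⟩ := D.sep k hk k' hk' hne
  have h1 := B8_near h i
  have h2 := hx i
  have h3 := hy i
  omega

private theorem B8_su {k : ι} (hk : k ∈ D.I) (u : DV (D.m k)) :
    D.Su (plc (D.a k) (D.m k) u : BxV d N) ↔ Dgl (D.m k) u := by
  constructor
  · rintro ⟨k', hk', h1, i, hi⟩
    have e := B8_sep D hk hk' (B8_in D hk u) h1 (Or.inl rfl)
    subst e
    have h2 := B8_val D hk u i
    exact ⟨i, by omega⟩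
  · rintro ⟨i, hi⟩
    have h2 := B8_val D hk u i
    exact ⟨k, hk, B8_in D hk u, i, by omega⟩

private theorem B8_adj {k : ι} (hk : k ∈ D.I) (u u' : DV (D.m k)) :
    (bG d N).Adj (plc (D.a k) (D.m k) u) (plc (D.a k) (D.m k) u') ↔ (DG (D.m k)).Adj u u' := by
  have hv := B8_val D hk u
  have hv' := B8_val D hk u'
  constructor
  · rintro ⟨i, h1, h2⟩
    refine ⟨i, ?_, ?_, ?_⟩
    · intro j hj
      have h3 := congrArg Fin.val (h1 j hj)
      rw [hv, hv'] at h3
      exact Fin.ext (by omega)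
    · intro e
      have h3 := congrArg Fin.val e
      rw [hv, hv'] at h2
      omega
    · rw [hv, hv'] at h2
      rcases h2 with h2 | h2
      · exact Or.inl (by omega)
      · exact Or.inr (Or.inl (by omega))
  · rintro ⟨i, h1, h2, h3⟩
    refine ⟨i, ?_, ?_⟩
    · intro j hj
      apply Fin.ext
      rw [hv, hv', h1 j hj]
    · rw [hv, hv']
      rcases h3 with h3 | h3 | ⟨h3, _⟩
      · exact Or.inl (by omega)
      · exact Or.inr (by omega)
      · exact absurd h3 (by simp)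

private theorem B8_TX {k : ι} (hk : k ∈ D.I) (u u' : D2V (DV (D.m k)) (Dgl (D.m k))) :
    (TX (bG d N) D.In D.Su).Adj (plc (D.a k) (D.m k) u.1.1, u.1.2) (plc (D.a k) (D.m k) u'.1.1, u'.1.2) ↔
      (D2s (DG (D.m k)) (Dgl (D.m k))).Adj u u' := by
  obtain ⟨⟨u, b⟩, hu⟩ := u
  obtain ⟨⟨u', b'⟩, hu'⟩ := u'
  have hI : D.In (plc (D.a k) (D.m k) u : BxV d N) := ⟨k, hk, B8_in D hk u⟩
  have hI' : D.In (plc (D.a k) (D.m k) u' : BxV d N) := ⟨k, hk, B8_in D hk u'⟩
  change ((bG d N).Adj (plc (D.a k) (D.m k) u) (plc (D.a k) (D.m k) u') ∧ (((D.Su (plc (D.a k) (D.m k) u) ↔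
      D.Su (plc (D.a k) (D.m k) u')) ∧ b = b') ∨ (D.Su (plc (D.a k) (D.m k) u) ∧ ¬ D.Su (plc (D.a k) (D.m k) u') ∧
      (b = false ↔ D.In (plc (D.a k) (D.m k) u'))) ∨ (D.Su (plc (D.a k) (D.m k) u') ∧ ¬ D.Su (plc (D.a k) (D.m k) u) ∧
      (b' = false ↔ D.In (plc (D.a k) (D.m k) u))))) ↔
    ((DG (D.m k)).Adj u u' ∧ ¬ (b = true ∧ Dgl (D.m k) u) ∧ ¬ (b' = true ∧ Dgl (D.m k) u') ∧
      (b = b' ∨ Dgl (D.m k) u ∨ Dgl (D.m k) u'))
  rw [B8_adj D hk, B8_su D hk, B8_su D hk]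
  simp only at hu hu'
  cases b <;> cases b' <;> simp only [hI, hI', Bool.true_eq_false, Bool.false_eq_true] <;> tauto

private theorem B8_cl {k : ι} (hk : k ∈ D.I) (u : D2V (DV (D.m k)) (Dgl (D.m k))) (v : BxV d N × Bool)
    (h : (TX (bG d N) D.In D.Su).Adj (plc (D.a k) (D.m k) u.1.1, u.1.2) v) :
    ∃ u' : D2V (DV (D.m k)) (Dgl (D.m k)), v = (plc (D.a k) (D.m k) u'.1.1, u'.1.2) := by
  obtain ⟨⟨u, b⟩, hu⟩ := u
  obtain ⟨y, c⟩ := v
  have hI : D.In (plc (D.a k) (D.m k) u : BxV d N) := ⟨k, hk, B8_in D hk u⟩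
  have h : (bG d N).Adj (plc (D.a k) (D.m k) u) y ∧ (((D.Su (plc (D.a k) (D.m k) u) ↔
      D.Su y) ∧ b = c) ∨ (D.Su (plc (D.a k) (D.m k) u) ∧ ¬ D.Su y ∧
      (b = false ↔ D.In y)) ∨ (D.Su y ∧ ¬ D.Su (plc (D.a k) (D.m k) u) ∧
      (c = false ↔ D.In (plc (D.a k) (D.m k) u)))) := h
  obtain ⟨hA, h⟩ := h
  have key : D.inD k y → ¬ (c = true ∧ D.Su y) →
      ∃ u' : D2V (DV (D.m k)) (Dgl (D.m k)), (y, c) = (plc (D.a k) (D.m k) u'.1.1, u'.1.2) := by
    intro hy hc
    obtain ⟨y0, rfl⟩ := B8_ex D hk hy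
    rw [B8_su D hk] at hc
    exact ⟨⟨(y0, c), hc⟩, rfl⟩
  have hin : ∀ z : BxV d N, D.In z → (bG d N).Adj (plc (D.a k) (D.m k) u) z → D.inD k z := by
    rintro z ⟨k', hk', hz⟩ hz'
    have e := B8_sep D hk hk' (B8_in D hk u) hz (Or.inr hz')
    subst e
    exact hz
  have hSI : ∀ z : BxV d N, D.Su z → D.In z := fun z ⟨k', hk', hz⟩ => ⟨k', hk', hz.1⟩
  have hu' : ¬ (b = true ∧ D.Su (plc (D.a k) (D.m k) u : BxV d N)) := by
    rw [B8_su D hk]
    exact hu
  by_cases hs : D.Su (plc (D.a k) (D.m k) u : BxV d N)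
  · have hb : b = false := by
      cases b
      · rfl
      · exact absurd ⟨rfl, hs⟩ hu'
    subst hb
    rcases h with ⟨h1, h2⟩ | ⟨_, h1, h2⟩ | ⟨_, h1, _⟩
    · exact key (hin y (hSI y (h1.1 hs)) hA) (by
        rintro ⟨h3, _⟩
        rw [h3] at h2
        exact Bool.noConfusion h2)
    · exact key (hin y (h2.1 rfl) hA) fun h3 => h1 h3.2
    · exact absurd hs h1
  · have hy : D.inD k y := by
      have hs' : ¬ Dgl (D.m k) u := by
        rw [← B8_su D hk]
        exact hs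
      intro i
      have h1 := B8_near (Or.inr hA) i
      have h2 := B8_val D hk u i
      have h3 := (u i).isLt
      have h4 : (u i).val ≠ 0 := fun e => hs' ⟨i, Or.inl e⟩
      have h5 : (u i).val ≠ D.m k i := fun e => hs' ⟨i, Or.inr e⟩
      omega
    refine key hy ?_
    rintro ⟨h1, h2⟩
    rcases h with ⟨h3, _⟩ | ⟨h3, _⟩ | ⟨_, _, h3⟩
    · exact hs (h3.2 h2)
    · exact hs h3
    · have h4 := h3.2 hI
      rw [h1] at h4
      exact Bool.noConfusion h4

private theorem B8_inj {k : ι} (hk : k ∈ D.I) : Function.Injective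
    fun u : D2V (DV (D.m k)) (Dgl (D.m k)) => ((plc (D.a k) (D.m k) u.1.1, u.1.2) : BxV d N × Bool) := by
  rintro ⟨⟨u, b⟩, hu⟩ ⟨⟨u', b'⟩, hu'⟩ h
  have h1 : (plc (D.a k) (D.m k) u : BxV d N) = plc (D.a k) (D.m k) u' := congrArg Prod.fst h
  have h2 : b = b' := congrArg Prod.snd h
  have h3 : u = u' := by
    funext i
    apply Fin.ext
    have h4 := congrArg Fin.val (congrFun h1 i)
    rw [B8_val D hk, B8_val D hk] at h4
    omega
  subst h2
  subst h3
  rfl

theorem fac_box {q : ℕ} (hq : 1 ≤ q) (E : ∀ k, (DV (D.m k) → Fin q) → Prop) :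
    cG (TX (bG d N) D.In D.Su) (fun F : BxV d N × Bool → Fin q => ∀ k ∈ D.I, E k fun u => F (plc (D.a k) (D.m k) u, false)) *
        ∏ k ∈ D.I, N2 (DG (D.m k)) (Dgl (D.m k)) (fun _ : DV (D.m k) → Fin q => True) =
      cG (TX (bG d N) D.In D.Su) (fun _ : BxV d N × Bool → Fin q => True) *
        ∏ k ∈ D.I, N2 (DG (D.m k)) (Dgl (D.m k)) (E k) := by
  classical
  have h := prod_cells (fun k => D2V (DV (D.m k)) (Dgl (D.m k))) hq (TX (bG d N) D.In D.Su) D.I
    (fun k => D2s (DG (D.m k)) (Dgl (D.m k)))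
    (fun k u => ((plc (D.a k) (D.m k) u.1.1, u.1.2) : BxV d N × Bool))
    (fun k hk => B8_inj D hk)
    (fun k hk k' hk' hne u u' e => hne (B8_sep D hk hk' (B8_in D hk u.1.1) (B8_in D hk' u'.1.1)
      (Or.inl (congrArg Prod.fst e))))
    (fun k hk u u' => B8_TX D hk u u')
    (fun k hk u v hv => B8_cl D hk u v hv)
    (fun k F => E k fun x => F ⟨(x, false), fun h => Bool.noConfusion h.1⟩)
  have h1 : ∀ k : ι, cG (D2s (DG (D.m k)) (Dgl (D.m k)))
      (fun F : D2V (DV (D.m k)) (Dgl (D.m k)) → Fin q => E k fun x => F ⟨(x, false), fun h => Bool.noConfusion h.1⟩) =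
      N2 (DG (D.m k)) (Dgl (D.m k)) (E k) := fun k => cG_D2s (DG (D.m k)) (Dgl (D.m k)) (E k)
  have h2 : ∀ k : ι, cG (D2s (DG (D.m k)) (Dgl (D.m k)))
      (fun _ : D2V (DV (D.m k)) (Dgl (D.m k)) → Fin q => True) =
      N2 (DG (D.m k)) (Dgl (D.m k)) (fun _ : DV (D.m k) → Fin q => True) :=
    fun k => cG_D2s (DG (D.m k)) (Dgl (D.m k)) fun _ => True
  simp only [h1, h2] at h
  exact h

end Pool.Agent.LC

end
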