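import Pool.Agent.Lib_MP_2c424f_m.M28
import Pool.Agent.Lib_MP_2c424f_m.M35
import Pool.Agent.Lib_MP_2c424f_m.M42

/-!
# MP_2c424f_pr, q_c grows linearly: merged library part M43

Concatenation of smaller files (each in its own section), only to save build time.
-/

namespace Pool.Agent.LO
end Pool.Agent.LO

namespace Pool.Agent.LIN
end Pool.Agent.LIN

namespace Pool.Agent.THR
end Pool.Agent.THR

namespace Pool.Agent.COR
end Pool.Agent.COR

/-! ### from `Lib_MP_2c424f_lc5.V19d` -/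

section

/-!
# Part V, V19d: the final numbers

`s' = Y/d^{K+3}`, `L = (K+6) log d`, `e^{-L} = d^{-(K+6)}`.  `Y ≥ (l+1)^d/h ≥ d^{C d}/2^{d/2}` (as in V19a), so `8 h ≤ 2^{d+3} ≤ exp(Y/d^{K+1})`.
`cK d q (2λ) ≤ exp(d³ 2^{-d/2} Y) ≤ exp(Y/d^{K+1})` (V19a).  `L s' = (K+6) log d Y/d^{K+3} ≤ Y/d^{K+2}`,
`(2d²+3) Y e^{-L} ≤ 3 Y/d^{K+4}`, `16 d s'/q = 8 a s' ≤ 16000 Y/d^{K+3} ≤ Y/d^{K+2}`.  The sum of the exponents is at most `Y/d^K`.
-/

set_option autoImplicit false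

open Finset Filter

namespace Pool.Agent.LC

open Pool.Agent.LO Pool.Agent.LIN Pool.Agent.THR Pool.Agent.COR

private theorem V19d_log (K d : ℕ) (hd : 4 * (K + 6) ^ 2 ≤ d) : ((K : ℝ) + 6) * Real.log d ≤ d := by
  have hd' : 4 * ((K : ℝ) + 6) ^ 2 ≤ d := by exact_mod_cast hd
  have hK : (0 : ℝ) ≤ K := Nat.cast_nonneg K
  have hd0 : (0 : ℝ) < d := lt_of_lt_of_le (by positivity) hd'
  have h1 : Real.log (Real.sqrt d) = Real.log d / 2 := Real.log_sqrt hd0.le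
  have h2 : Real.log (Real.sqrt d) ≤ Real.sqrt d - 1 := Real.log_le_sub_one_of_pos (Real.sqrt_pos.2 hd0)
  have h3 : 2 * ((K : ℝ) + 6) ≤ Real.sqrt d := by
    apply Real.le_sqrt_of_sq_le
    nlinarith
  have h4 : Real.sqrt d * Real.sqrt d = d := Real.mul_self_sqrt hd0.le
  have h5 : Real.log d ≤ 2 * Real.sqrt d := by linarith
  have h6 : 0 ≤ Real.sqrt d := Real.sqrt_nonneg _
  calc ((K : ℝ) + 6) * Real.log d ≤ ((K : ℝ) + 6) * (2 * Real.sqrt d) :=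
        mul_le_mul_of_nonneg_left h5 (by positivity)
    _ = 2 * ((K : ℝ) + 6) * Real.sqrt d := by ring
    _ ≤ Real.sqrt d * Real.sqrt d := mul_le_mul_of_nonneg_right h3 h6
    _ = d := h4

private theorem V19d_exp (K d : ℕ) (hd : 1 ≤ d) :
    Real.exp (-(((K : ℝ) + 6) * Real.log d)) = 1 / (d : ℝ) ^ (K + 6) := by
  have hd0 : (0 : ℝ) < d := by exact_mod_cast hd
  have h1 : ((K : ℝ) + 6) * Real.log d = Real.log ((d : ℝ) ^ (K + 6)) := by
    rw [Real.log_pow]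
    push_cast
    ring
  rw [Real.exp_neg, h1, Real.exp_log (by positivity), one_div]

theorem num4 (K C₁ : ℕ) : ∃ d₀ : ℕ, ∀ (d q s h n lam : ℕ) (Y : ℝ), d₀ ≤ d →
    NumH (C₁ + 2 * (K + 6) + 20) d q s h n lam Y →
    4 * cK d q (2 * lam) * (2 * (h * Real.exp ((K + 6) * Real.log d * (Y / (d : ℝ) ^ (K + 3)) +
      (((2 * d ^ 2 + 2 : ℕ) : ℝ) + 1) * Y * Real.exp (-((K + 6) * Real.log d))) *
      Real.exp (16 * d * (Y / (d : ℝ) ^ (K + 3)) / q))) ≤ Real.exp (Y / (d : ℝ) ^ K) := by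
  refine ⟨4 * (K + 6) ^ 2 + 16000, ?_⟩
  rintro d q s h n lam Y hd ⟨⟨-, hR1, hR2⟩, h1, h2, h3, h4, h5, -, h7⟩
  obtain ⟨C, hC⟩ : ∃ C, C = C₁ + 2 * (K + 6) + 20 := ⟨_, rfl⟩
  rw [← hC] at h1 h2
  have hdn : 16000 ≤ d := le_trans (Nat.le_add_left _ _) hd
  have hq : 1 ≤ q := by omega
  have hD : (16000 : ℝ) ≤ d := by exact_mod_cast hdn
  have hD0 : (0 : ℝ) < d := by linarith
  have hD1 : (1 : ℝ) ≤ d := by linarith
  have hq0 : (0 : ℝ) < q := by exact_mod_cast hq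
  have hqd : (q : ℝ) ≤ d := by
    have : q ≤ d := by omega
    exact_mod_cast this
  have hdq : (d : ℝ) ≤ 1000 * q := by
    have : d ≤ 1000 * q := by omega
    exact_mod_cast this
  have hlog := V19d_log K d (by omega)
  have hexp := V19d_exp K d (by omega)
  -- the size of `h`
  have hs : (1 : ℝ) ≤ 2 ^ s := one_le_pow₀ (by norm_num)
  have hDC : (1 : ℝ) ≤ (d : ℝ) ^ C := one_le_pow₀ hD1
  have hh : (d : ℝ) ^ C ≤ h := le_trans (le_mul_of_one_le_left (by positivity) hs) h2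
  have hh0 : (0 : ℝ) < h := by linarith
  have hC4 : (d : ℝ) ^ (K + 4) ≤ (d : ℝ) ^ C := pow_le_pow_right₀ hD1 (by omega)
  -- the size of `Y`
  have hn : (1 : ℝ) ≤ n := by exact_mod_cast h4
  have hY1 : ((2 : ℝ) ^ s + 1) ^ d ≤ h * Y := by
    have e1 : ((2 : ℝ) ^ s + 1) ^ d ≤ n * ((2 : ℝ) ^ s + 1) ^ d := le_mul_of_one_le_left (by positivity) hn
    linarith
  have hhd : (h : ℝ) ≤ 2 ^ d := by
    have e1 : (h : ℝ) * 1 ≤ h ^ 2 := by
      rw [sq]
      exact mul_le_mul_of_nonneg_left (by linarith) hh0.le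
    linarith
  have hY0 : 0 < Y := by
    have e1 : 0 < (h : ℝ) * Y := lt_of_lt_of_le (by positivity) hY1
    exact (pos_iff_pos_of_mul_pos e1).1 hh0
  have hY2 : (d : ℝ) ^ (K + 4) / 2 ≤ Y := by
    have e1 : (2 : ℝ) ^ d * Y ≥ h * Y := mul_le_mul_of_nonneg_right hhd hY0.le
    have e2 : ((d : ℝ) ^ C) ^ d ≤ ((2 : ℝ) ^ s + 1) ^ d := pow_le_pow_left₀ (by positivity) (by linarith) d
    have e3 : ((d : ℝ) ^ C) ^ d ≤ 2 ^ d * Y := by linarith
    have e4 : ((d : ℝ) ^ C / 2) ^ d ≤ Y := by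
      rw [div_pow, div_le_iff₀ (by positivity)]
      linarith
    have e5 : (1 : ℝ) ≤ (d : ℝ) ^ C / 2 := by
      have e6 : (d : ℝ) ^ 1 ≤ (d : ℝ) ^ C := pow_le_pow_right₀ hD1 (by omega)
      rw [pow_one] at e6
      linarith
    have e7 : (d : ℝ) ^ C / 2 ≤ ((d : ℝ) ^ C / 2) ^ d := le_self_pow₀ e5 (by omega)
    linarith
  obtain ⟨X, hX⟩ : ∃ X, X = Y / (d : ℝ) ^ (K + 1) := ⟨_, rfl⟩
  have hX0 : 0 ≤ X := by rw [hX]; positivity
  -- `8 h`
  have f1 : 8 * (h : ℝ) ≤ Real.exp X := by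
    have e1 : (d : ℝ) ^ (K + 4) / 2 / (d : ℝ) ^ (K + 1) ≤ X := by
      rw [hX]
      exact div_le_div_of_nonneg_right hY2 (by positivity)
    have e2 : (d : ℝ) ^ (K + 4) / 2 / (d : ℝ) ^ (K + 1) = (d : ℝ) ^ 3 / 2 := by
      rw [show K + 4 = (K + 1) + 3 by ring, pow_add]
      field_simp
    have e3 : 2 * (d : ℝ) ≤ (d : ℝ) ^ 3 / 2 := by
      have : (d : ℝ) ^ 3 = d * d * d := by ring
      rw [this]
      nlinarith
    have e4 : 2 * (d : ℝ) ≤ X := by linarith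
    have e5 : (8 : ℝ) ≤ 2 ^ d := by
      have e6 : (2 : ℝ) ^ 3 ≤ 2 ^ d := pow_le_pow_right₀ (by norm_num) (by omega)
      linarith
    have e7 : (2 : ℝ) ^ d ≤ Real.exp d := by
      have e8 : (2 : ℝ) ≤ Real.exp 1 := by
        have := Real.add_one_le_exp (1 : ℝ)
        linarith
      calc (2 : ℝ) ^ d ≤ (Real.exp 1) ^ d := pow_le_pow_left₀ (by norm_num) e8 d
        _ = Real.exp d := by rw [← Real.exp_nat_mul, mul_one]
    calc 8 * (h : ℝ) ≤ 2 ^ d * 2 ^ d := mul_le_mul e5 hhd hh0.le (by positivity)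
      _ ≤ Real.exp d * Real.exp d := mul_le_mul e7 e7 (by positivity) (Real.exp_nonneg _)
      _ = Real.exp (2 * d) := by rw [← Real.exp_add]; ring_nf
      _ ≤ Real.exp X := Real.exp_le_exp.2 e4
  -- `cK`
  have f2 : cK d q (2 * lam) ≤ Real.exp X := by
    unfold cK sz
    have e1 : (q : ℝ) ^ 2 / 4 * ((2 * lam : ℕ) : ℝ) / (2 ^ d / (2 * q)) = (q : ℝ) ^ 3 * lam / 2 ^ d := by
      push_cast
      field_simp
      ring
    rw [e1]
    have e2 : (q : ℝ) ^ 3 * lam / 2 ^ d ≤ X := by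
      have g1 : (q : ℝ) ^ 3 ≤ (d : ℝ) ^ 3 := pow_le_pow_left₀ hq0.le hqd 3
      have g2 : (q : ℝ) ^ 3 * lam ≤ (d : ℝ) ^ 3 * (h * Y) :=
        mul_le_mul g1 h5 (Nat.cast_nonneg _) (by positivity)
      rw [hX, div_le_div_iff₀ (by positivity) (by positivity)]
      calc (q : ℝ) ^ 3 * lam * (d : ℝ) ^ (K + 1) ≤ (d : ℝ) ^ 3 * (h * Y) * (d : ℝ) ^ (K + 1) :=
            mul_le_mul_of_nonneg_right g2 (by positivity)
        _ = Y * (h * (d : ℝ) ^ (K + 4)) := by ring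
        _ ≤ Y * (h * h) := by
            refine mul_le_mul_of_nonneg_left ?_ hY0.le
            exact mul_le_mul_of_nonneg_left (le_trans hC4 hh) hh0.le
        _ = Y * (h : ℝ) ^ 2 := by ring
        _ ≤ Y * 2 ^ d := mul_le_mul_of_nonneg_left h3 hY0.le
    have e3 : 0 ≤ (q : ℝ) ^ 3 * lam / 2 ^ d := by positivity
    have e4 : Real.log 2 ≤ 1 := by
      have := Real.log_le_sub_one_of_pos (show (0 : ℝ) < 2 by norm_num)
      linarith
    rw [Real.rpow_def_of_pos (by norm_num)]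
    apply Real.exp_le_exp.2
    calc Real.log 2 * ((q : ℝ) ^ 3 * lam / 2 ^ d) ≤ 1 * ((q : ℝ) ^ 3 * lam / 2 ^ d) :=
          mul_le_mul_of_nonneg_right e4 e3
      _ ≤ X := by rw [one_mul]; exact e2
  -- the exponents
  have hX3 : Y / (d : ℝ) ^ (K + 3) = X / (d : ℝ) ^ 2 := by
    rw [hX, show K + 3 = (K + 1) + 2 by ring, pow_add]
    field_simp
  have f3 : ((K : ℝ) + 6) * Real.log d * (Y / (d : ℝ) ^ (K + 3)) ≤ X / d := by
    rw [hX3]
    calc ((K : ℝ) + 6) * Real.log d * (X / (d : ℝ) ^ 2) ≤ d * (X / (d : ℝ) ^ 2) :=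
          mul_le_mul_of_nonneg_right hlog (by positivity)
      _ = X / d := by field_simp
  have f4 : (((2 * d ^ 2 + 2 : ℕ) : ℝ) + 1) * Y * Real.exp (-(((K : ℝ) + 6) * Real.log d)) ≤ X / d := by
    rw [hexp]
    have e1 : Y = X * (d : ℝ) ^ (K + 1) := by
      rw [hX]
      field_simp
    have e2 : (((2 * d ^ 2 + 2 : ℕ) : ℝ) + 1) * Y * (1 / (d : ℝ) ^ (K + 6)) =
        (2 * (d : ℝ) ^ 2 + 3) * X / (d : ℝ) ^ 5 := by
      rw [e1, show K + 6 = (K + 1) + 5 by ring, pow_add]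
      push_cast
      field_simp
      ring
    rw [e2, div_le_div_iff₀ (by positivity) hD0]
    have e3 : (2 * (d : ℝ) ^ 2 + 3) * d ≤ (d : ℝ) ^ 5 := by
      have g1 : 2 * (d : ℝ) ^ 2 + 3 ≤ (d : ℝ) ^ 3 := by nlinarith [sq_nonneg (d : ℝ)]
      have g2 : (d : ℝ) ^ 3 * d ≤ (d : ℝ) ^ 5 := by
        rw [← pow_succ]
        exact pow_le_pow_right₀ hD1 (by omega)
      exact le_trans (mul_le_mul_of_nonneg_right g1 hD0.le) g2
    calc (2 * (d : ℝ) ^ 2 + 3) * X * d = X * ((2 * (d : ℝ) ^ 2 + 3) * d) := by ring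
      _ ≤ X * (d : ℝ) ^ 5 := mul_le_mul_of_nonneg_left e3 hX0
  have f5 : 16 * d * (Y / (d : ℝ) ^ (K + 3)) / q ≤ X / d := by
    rw [hX3, div_le_iff₀ hq0]
    have e1 : 16 * (d : ℝ) * (X / (d : ℝ) ^ 2) = X / d * 16 := by
      field_simp
    rw [e1]
    refine mul_le_mul_of_nonneg_left ?_ (by positivity)
    linarith
  have hXd : X / d ≤ X / 5 := div_le_div_of_nonneg_left hX0 (by norm_num) (by linarith)
  have hfin : 5 * X ≤ Y / (d : ℝ) ^ K := by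
    have e1 : Y / (d : ℝ) ^ K = X * d := by
      rw [hX, pow_succ]
      field_simp
    rw [e1, mul_comm]
    exact mul_le_mul_of_nonneg_left (by linarith) hX0
  obtain ⟨E1, hE1⟩ : ∃ E1, E1 = ((K : ℝ) + 6) * Real.log d * (Y / (d : ℝ) ^ (K + 3)) := ⟨_, rfl⟩
  obtain ⟨E2, hE2⟩ : ∃ E2, E2 = (((2 * d ^ 2 + 2 : ℕ) : ℝ) + 1) * Y *
    Real.exp (-(((K : ℝ) + 6) * Real.log d)) := ⟨_, rfl⟩
  obtain ⟨E3, hE3⟩ : ∃ E3, E3 = 16 * d * (Y / (d : ℝ) ^ (K + 3)) / q := ⟨_, rfl⟩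
  rw [← hE1, ← hE2, ← hE3]
  rw [← hE1] at f3
  rw [← hE2] at f4
  rw [← hE3] at f5
  have hcK : 0 ≤ cK d q (2 * lam) := by
    unfold cK
    positivity
  calc 4 * cK d q (2 * lam) * (2 * (h * Real.exp (E1 + E2) * Real.exp E3))
      = (8 * h) * cK d q (2 * lam) * (Real.exp (E1 + E2) * Real.exp E3) := by ring
    _ ≤ Real.exp X * Real.exp X * (Real.exp (E1 + E2) * Real.exp E3) := by
        refine mul_le_mul_of_nonneg_right ?_ (by positivity)
        exact mul_le_mul f1 f2 hcK (Real.exp_nonneg _)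
    _ = Real.exp (X + X + (E1 + E2 + E3)) := by
        rw [← Real.exp_add, ← Real.exp_add, ← Real.exp_add]
    _ ≤ Real.exp (Y / (d : ℝ) ^ K) := by
        apply Real.exp_le_exp.2
        linarith

end Pool.Agent.LC

end

/-! ### from `Lib_MP_2c424f_lc5.V17` -/

section

/-!
# Part V, V17: colourings with few uncertified points

`n = 2 n₁ + 2` steps, `D = (4d)²`, `e = (n+1) Y ρ^{n₁-m} D^m`, `DD` = the subsets `D` of some window `wn lv b₀ (b₀+n)`, `b₀ < h`, with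
`|D| ≤ s`.
`DD_card`: `|wn lv b₀ (b₀+n)| ≤ (n+1) Y`; `small_subsets`.
`Q_le`: `half_fib` with `Q F := (|At(F)| ≤ t)` (`At_congr`, `par_layer`) and `R F := ∃ D ∈ DD, sp ...`; then `sep_count`.
Let `Q F₀`, `A = At(F₀)`, `b₀` from `window` (`2n+8 ≤ h`), `W = wn lv b₀ (b₀+n)`: `|A ∩ W| ≤ 2(n+1) t / h`.  `PT_sum` (rows: `row_le` with `A = B`,
`J = ∅` (`A \ A = ∅`), an odd `y ∉ At` is certified; `Mk_row_le`; `card_nb_layer`): the sum of `|PT(F)|` over the fibre of `F₀` is at most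
`e |fibre|`; so at least half of the fibre has `|PT(F)| ≤ 2 e` (Markov).  For these `F`: `At(F) = A`; `St := {p : lv p = b₀+n, CP}`,
`|St| ≤ (4d+1) 2 e` (`St_card`), `St ⊆ W`; `exists_del` gives `Del ⊆ W` with `|Del| ≤ (4d+1) 2 e + 2(n+1)t/(h m) ≤ s` and `sp`.
-/

set_option autoImplicit false

open Finset Filter

namespace Pool.Agent.LC

open Pool.Agent.LO Pool.Agent.LIN Pool.Agent.THR Pool.Agent.COR

open scoped Classical in
/-- small subsets of the windows -/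
noncomputable def DDs {Λ : Type} [Fintype Λ] [DecidableEq Λ] (lv : Λ → ℕ) (h n : ℕ) (s : ℝ) : Finset (Finset Λ) :=
  (range h).biUnion fun b₀ => (wn lv b₀ (b₀ + n)).powerset.filter fun D => (D.card : ℝ) ≤ s

open scoped Classical in
private theorem V17_wn {Λ : Type} [Fintype Λ] [DecidableEq Λ] (lv : Λ → ℕ) (b₀ n : ℕ) (Y : ℝ)
    (hY : ∀ l, ((univ.filter fun p : Λ => lv p = l).card : ℝ) ≤ Y) :
    ((wn lv b₀ (b₀ + n)).card : ℝ) ≤ (n + 1) * Y := by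
  have h1 : wn lv b₀ (b₀ + n) ⊆ (range (n + 1)).biUnion fun k => univ.filter fun p : Λ => lv p = b₀ + k := by
    intro p hp
    simp only [wn, mem_filter, mem_univ, true_and] at hp
    rw [mem_biUnion]
    refine ⟨lv p - b₀, mem_range.2 (by omega), ?_⟩
    rw [mem_filter]
    exact ⟨mem_univ _, by omega⟩
  have h2 := (card_le_card h1).trans card_biUnion_le
  calc ((wn lv b₀ (b₀ + n)).card : ℝ) ≤ ((∑ k ∈ range (n + 1), (univ.filter fun p : Λ => lv p = b₀ + k).card : ℕ) : ℝ) := by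
        exact_mod_cast h2
    _ = ∑ k ∈ range (n + 1), ((univ.filter fun p : Λ => lv p = b₀ + k).card : ℝ) := by push_cast; rfl
    _ ≤ ∑ _k ∈ range (n + 1), Y := sum_le_sum fun k _ => hY _
    _ = (n + 1) * Y := by
        rw [sum_const, card_range, nsmul_eq_mul]
        push_cast
        ring

theorem DD_card {Λ : Type} [Fintype Λ] [DecidableEq Λ] (lv : Λ → ℕ) (h n : ℕ) (s L Y : ℝ) (hL : 0 ≤ L)
    (hY : ∀ l, ((univ.filter fun p : Λ => lv p = l).card : ℝ) ≤ Y) :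
    ((DDs lv h n s).card : ℝ) ≤ h * Real.exp (L * s + (n + 1) * Y * Real.exp (-L)) := by
  classical
  have h1 : (DDs lv h n s).card ≤ ∑ b₀ ∈ range h, ((wn lv b₀ (b₀ + n)).powerset.filter fun D => (D.card : ℝ) ≤ s).card := by
    unfold DDs
    exact card_biUnion_le
  calc ((DDs lv h n s).card : ℝ)
      ≤ ((∑ b₀ ∈ range h, ((wn lv b₀ (b₀ + n)).powerset.filter fun D => (D.card : ℝ) ≤ s).card : ℕ) : ℝ) := by
        exact_mod_cast h1
    _ = ∑ b₀ ∈ range h, (((wn lv b₀ (b₀ + n)).powerset.filter fun D => (D.card : ℝ) ≤ s).card : ℝ) := by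
        push_cast
        rfl
    _ ≤ ∑ _b₀ ∈ range h, Real.exp (L * s + (n + 1) * Y * Real.exp (-L)) := by
        refine sum_le_sum fun b₀ _ => ?_
        refine (small_subsets _ s L hL).trans (Real.exp_le_exp.2 ?_)
        have h2 := mul_le_mul_of_nonneg_right (V17_wn lv b₀ n Y hY) (Real.exp_pos (-L)).le
        linarith
    _ = h * Real.exp (L * s + (n + 1) * Y * Real.exp (-L)) := by
        rw [sum_const, card_range, nsmul_eq_mul]

open scoped Classical in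
private theorem V17_cG {V : Type} [Fintype V] [DecidableEq V] {q : ℕ} (X : SimpleGraph V)
    (P : (V → Fin q) → Prop) (s : Finset (V → Fin q)) (hs : ∀ F, F ∈ s ↔ PrG X F ∧ P F) :
    cG X P = (s.card : ℝ) := by
  unfold cG
  congr 2
  ext F
  rw [mem_filter, hs]
  exact ⟨fun h => h.2, fun h => ⟨mem_univ _, h⟩⟩

open scoped Classical in
private theorem V17_le {V : Type} [Fintype V] [DecidableEq V] {q : ℕ} (X : SimpleGraph V)
    (P : (V → Fin q) → Prop) (s : Finset (V → Fin q)) (hs : ∀ F ∈ s, PrG X F ∧ P F) :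
    (s.card : ℝ) ≤ cG X P := by
  unfold cG
  refine Nat.cast_le.2 (card_le_card fun F hF => ?_)
  rw [mem_filter]
  exact ⟨mem_univ _, hs F hF⟩

open scoped Classical in
/-- Markov's inequality -/
private theorem V17_markov {α : Type} (S : Finset α) (f : α → ℝ) (hf : ∀ F ∈ S, 0 ≤ f F) (e : ℝ) (he : 0 ≤ e)
    (h : ∑ F ∈ S, f F ≤ e * S.card) : (S.card : ℝ) ≤ 2 * ((S.filter fun F => f F ≤ 2 * e).card : ℝ) := by
  rcases he.eq_or_lt with h0 | h0
  · have h1 : S.filter (fun F => f F ≤ 2 * e) = S := by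
      refine filter_true_of_mem fun F hF => ?_
      have h2 : f F ≤ ∑ F ∈ S, f F := single_le_sum hf hF
      rw [← h0] at h ⊢
      linarith
    rw [h1]
    have h2 : (0 : ℝ) ≤ (S.card : ℝ) := Nat.cast_nonneg _
    linarith
  · have h1 : (S.card : ℝ) = ((S.filter fun F => f F ≤ 2 * e).card : ℝ) + ((S.filter fun F => ¬ f F ≤ 2 * e).card : ℝ) := by
      rw [← card_filter_add_card_filter_not (s := S) (fun F => f F ≤ 2 * e)]
      push_cast
      rfl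
    have h2 : ((S.filter fun F => ¬ f F ≤ 2 * e).card : ℝ) * (2 * e) ≤ ∑ F ∈ S, f F := by
      calc ((S.filter fun F => ¬ f F ≤ 2 * e).card : ℝ) * (2 * e) = ∑ _F ∈ S.filter (fun F => ¬ f F ≤ 2 * e), 2 * e := by
            rw [sum_const, nsmul_eq_mul]
        _ ≤ ∑ F ∈ S.filter (fun F => ¬ f F ≤ 2 * e), f F :=
            sum_le_sum fun F hF => (not_le.1 (mem_filter.1 hF).2).le
        _ ≤ ∑ F ∈ S, f F := sum_le_sum_of_subset_of_nonneg (filter_subset _ _) fun F hF _ => hf F hF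
    have h3 : ((S.filter fun F => ¬ f F ≤ 2 * e).card : ℝ) * (2 * e) ≤ e * S.card := h2.trans h
    have h4 : 2 * ((S.filter fun F => ¬ f F ≤ 2 * e).card : ℝ) ≤ S.card := by
      have h5 : e * (2 * ((S.filter fun F => ¬ f F ≤ 2 * e).card : ℝ)) ≤ e * S.card := by linarith
      exact le_of_mul_le_mul_left h5 h0
    linarith

open scoped Classical in
/-- half of the fibre is separated by a small set -/
private theorem V17_fib {V Λ : Type} [Fintype V] [DecidableEq V] [Fintype Λ] [DecidableEq Λ] {d q h : ℕ} (hR : Rg d q)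
    (hq : 2 ≤ q) {X X' : SimpleGraph V} {ev : V → Prop} {G : SimpleGraph Λ} {lv : Λ → ℕ} {i : Bool → Λ → V}
    (hP : Par X ev) (hdeg : ∀ v, (nb X v).card ≤ 4 * d)
    (hL : Layer h X X' ev G lv i) (A₀ : Finset (Fin q)) (Y : ℝ)
    (hY : ∀ l, ((univ.filter fun p : Λ => lv p = l).card : ℝ) ≤ Y) (n₁ m : ℕ) (hm : 1 ≤ m)
    (hh : 2 * (2 * n₁ + 2) + 8 ≤ h) (hρ : rh d q ≤ 1) (hd : 1 ≤ d) (s t : ℝ)
    (hs : (4 * d + 1) * (2 * ((2 * n₁ + 3) * Y * (rh d q ^ (n₁ - m) * ((4 * d) ^ 2) ^ m))) +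
      2 * (2 * n₁ + 3) * t / (h * m) ≤ s) (F₀ : V → Fin q)
    (hQ : ((At d G (fun p => ev (i false p)) A₀ (fb i F₀ false) (fb i F₀ true)).card : ℝ) ≤ t) :
    cG X (fun F : V → Fin q => ∀ w, ¬ ev w → F w = F₀ w) ≤
      2 * cG X (fun F : V → Fin q => (∀ w, ¬ ev w → F w = F₀ w) ∧
        ∃ D ∈ DDs lv h (2 * n₁ + 2) s, sp G lv h (fb i F false) (fb i F true) D) := by
  have hPG : Par G (fun p => ev (i false p)) := par_layer hL hP
  have hdG : ∀ p, (nb G p).card ≤ 4 * d := fun p => (card_nb_layer hL false p).trans (hdeg _)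
  set A := At d G (fun p => ev (i false p)) A₀ (fb i F₀ false) (fb i F₀ true) with hA
  obtain ⟨b₀, hb1, hb2, hb3⟩ := window lv h (2 * n₁ + 2) hh A
  set W := wn lv b₀ (b₀ + (2 * n₁ + 2)) with hW
  have hWm : ∀ p ∈ W, b₀ ≤ lv p ∧ lv p ≤ b₀ + (2 * n₁ + 2) := by
    intro p hp
    simpa only [hW, wn, mem_filter, mem_univ, true_and] using hp
  have hY0 : 0 ≤ Y := (Nat.cast_nonneg _).trans (hY 0)
  have hρ0 : 0 ≤ rh d q := by
    unfold rh
    positivity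
  have hd1 : (1 : ℝ) ≤ (d : ℝ) := by exact_mod_cast hd
  have hD1 : (1 : ℝ) ≤ (4 * d : ℝ) ^ 2 := by
    have h1 : (1 : ℝ) ≤ 4 * d := by linarith
    exact one_le_pow₀ h1
  -- the mean of the number of starting points
  have hPT := PT_sum hP hL W A (fun p hp => by
      have h1 := hWm p hp
      exact ⟨by omega, by omega⟩) (rh d q) ((4 * d) ^ 2) hρ0 hρ hD1 F₀ (by
      intro y hy hev hyA
      have hc : cert d G (fun p => ev (i false p)) A₀ A₀ (fb i F₀ false) (fb i F₀ true) y := by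
        by_contra hcon
        refine hyA ?_
        rw [hA]
        unfold At
        rw [mem_filter]
        exact ⟨mem_univ _, hev, hcon⟩
      have h1 := row_le hR (by omega : 1 ≤ q) G (fun p => ev (i false p)) hPG A₀ A₀ (Finset.Subset.refl _)
        (fb i F₀ false) (fb i F₀ true) y hev hc
      rwa [sdiff_self] at h1) (fun y => Mk_row_le G hdG ∅ _ _ y) n₁ m
  set S := univ.filter (fun F : V → Fin q => PrG X F ∧ ∀ w, ¬ ev w → F w = F₀ w) with hS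
  have hcS : cG X (fun F : V → Fin q => ∀ w, ¬ ev w → F w = F₀ w) = (S.card : ℝ) :=
    V17_cG X _ S fun F => by rw [hS, mem_filter]; exact ⟨fun h => h.2, fun h => ⟨mem_univ _, h⟩⟩
  rw [hcS] at hPT ⊢
  set e : ℝ := (2 * n₁ + 3) * Y * (rh d q ^ (n₁ - m) * ((4 * d) ^ 2) ^ m) with he
  have hpw : 0 ≤ rh d q ^ (n₁ - m) * ((4 * (d : ℝ)) ^ 2) ^ m := by positivity
  have he0 : 0 ≤ e := by
    rw [he]
    positivity
  have hWc : (W.card : ℝ) ≤ (2 * n₁ + 3) * Y := by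
    have h1 := V17_wn lv b₀ (2 * n₁ + 2) Y hY
    push_cast at h1
    calc (W.card : ℝ) ≤ (2 * n₁ + 2 + 1) * Y := h1
      _ = (2 * n₁ + 3) * Y := by ring
  have hsum : ∑ F ∈ S, ((PT G (fun p => ev (i false p)) (fb i F false) (fb i F true) W A n₁ m).card : ℝ) ≤ e * S.card := by
    refine hPT.trans ?_
    refine mul_le_mul_of_nonneg_right ?_ (Nat.cast_nonneg _)
    rw [he]
    exact mul_le_mul_of_nonneg_right hWc hpw
  have hM := V17_markov S (fun F => ((PT G (fun p => ev (i false p)) (fb i F false) (fb i F true) W A n₁ m).card : ℝ))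
    (fun F _ => Nat.cast_nonneg _) e he0 hsum
  refine hM.trans ?_
  refine mul_le_mul_of_nonneg_left ?_ (by norm_num)
  refine V17_le X _ _ fun F hF => ?_
  rw [mem_filter, hS, mem_filter] at hF
  obtain ⟨⟨-, hF1, hF2⟩, hF3⟩ := hF
  refine ⟨hF1, hF2, ?_⟩
  -- the separating set
  have hStc := St_card hPG hdG (fb i F false) (fb i F true) W A n₁ m
  set St := univ.filter (fun p => CP G (fb i F false) (fb i F true) W A (2 * n₁ + 2) m p) with hSt
  have hStW : St ⊆ W := by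
    intro p hp
    rw [hSt, mem_filter] at hp
    obtain ⟨-, s', hs0, hsW, -⟩ := hp
    rw [← hs0]
    exact hsW 0 (Nat.zero_le _)
  obtain ⟨Del, hDel, hsp, hcard⟩ := exists_del (h := h) G lv hL.lvl (fb i F false) (fb i F true) A St b₀ (2 * n₁ + 2) m hm
    hb1 hb2 (by
      intro p _ hpS hCP
      refine hpS ?_
      rw [hSt, mem_filter]
      exact ⟨mem_univ _, hCP⟩)
  refine ⟨Del, ?_, hsp⟩
  unfold DDs
  rw [mem_biUnion]
  refine ⟨b₀, mem_range.2 (by omega), ?_⟩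
  rw [mem_filter, mem_powerset]
  refine ⟨hDel.trans (union_subset hStW inter_subset_right), ?_⟩
  have hh0 : (0 : ℝ) < h := by exact_mod_cast (by omega : 0 < h)
  have hm0 : (0 : ℝ) < m := by exact_mod_cast hm
  have h1 : (St.card : ℝ) ≤ (4 * d + 1) * (2 * e) := by
    calc (St.card : ℝ) ≤ (((4 * d + 1) * (PT G (fun p => ev (i false p)) (fb i F false) (fb i F true) W A n₁ m).card : ℕ) : ℝ) := by
          exact_mod_cast hStc
      _ = (4 * d + 1) * ((PT G (fun p => ev (i false p)) (fb i F false) (fb i F true) W A n₁ m).card : ℝ) := by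
          push_cast
          ring
      _ ≤ (4 * d + 1) * (2 * e) := mul_le_mul_of_nonneg_left hF3 (by positivity)
  have h2 : ((A ∩ W).card : ℝ) / m ≤ 2 * (2 * n₁ + 3) * t / (h * m) := by
    have h3 : ((A ∩ W).card : ℝ) * h ≤ 2 * (2 * n₁ + 3) * t := by
      calc ((A ∩ W).card : ℝ) * h = (((A ∩ W).card * h : ℕ) : ℝ) := by push_cast; ring
        _ ≤ ((2 * (2 * n₁ + 2 + 1) * A.card : ℕ) : ℝ) := by exact_mod_cast hb3
        _ = 2 * (2 * n₁ + 3) * (A.card : ℝ) := by push_cast; ring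
        _ ≤ 2 * (2 * n₁ + 3) * t := mul_le_mul_of_nonneg_left hQ (by positivity)
    rw [div_le_div_iff₀ hm0 (mul_pos hh0 hm0)]
    calc ((A ∩ W).card : ℝ) * (h * m) = (((A ∩ W).card : ℝ) * h) * m := by ring
      _ ≤ (2 * (2 * n₁ + 3) * t) * m := mul_le_mul_of_nonneg_right h3 hm0.le
  linarith

theorem Q_le {V Λ : Type} [Fintype V] [DecidableEq V] [Fintype Λ] [DecidableEq Λ] {d q h : ℕ} (hR : Rg d q)
    (hq : 2 ≤ q) {X X' : SimpleGraph V} {ev : V → Prop} {G : SimpleGraph Λ} {lv : Λ → ℕ} {i : Bool → Λ → V}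
    (hP : Par X ev) (hP' : Par X' ev) (hdeg : ∀ v, (nb X v).card ≤ 4 * d) (hdeg' : ∀ v, (nb X' v).card ≤ 4 * d)
    (hL : Layer h X X' ev G lv i) (A₀ : Finset (Fin q)) (Y : ℝ)
    (hY : ∀ l, ((univ.filter fun p : Λ => lv p = l).card : ℝ) ≤ Y) (n₁ m : ℕ) (hm : 1 ≤ m)
    (hh : 2 * (2 * n₁ + 2) + 8 ≤ h) (hρ : rh d q ≤ 1) (hd : 1 ≤ d) (s t : ℝ)
    (hs : (4 * d + 1) * (2 * ((2 * n₁ + 3) * Y * (rh d q ^ (n₁ - m) * ((4 * d) ^ 2) ^ m))) +
      2 * (2 * n₁ + 3) * t / (h * m) ≤ s) :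
    cG X (fun F : V → Fin q =>
        ((At d G (fun p => ev (i false p)) A₀ (fb i F false) (fb i F true)).card : ℝ) ≤ t) ≤
      2 * ((DDs lv h (2 * n₁ + 2) s).card * Real.exp (16 * d * s / q) * cG X' (fun _ : V → Fin q => True)) := by
  classical
  have hPG : Par G (fun p => ev (i false p)) := par_layer hL hP
  have h1 : cG X (fun F : V → Fin q =>
        ((At d G (fun p => ev (i false p)) A₀ (fb i F false) (fb i F true)).card : ℝ) ≤ t) ≤
      2 * cG X (fun F : V → Fin q => ∃ D ∈ DDs lv h (2 * n₁ + 2) s, sp G lv h (fb i F false) (fb i F true) D) := by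
    refine half_fib X ev _ _ ?_ ?_
    · intro F F' hFF
      have h2 := At_congr (d := d) hPG A₀ (fb i F false) (fb i F true) (fb i F' false) (fb i F' true) (by
        intro p hp
        refine ⟨hFF _ hp, hFF _ ?_⟩
        intro h3
        exact hp ((ev_layer hL true p).1 h3))
      show ((At d G (fun p => ev (i false p)) A₀ (fb i F false) (fb i F true)).card : ℝ) ≤ t ↔ _
      rw [h2]
    · intro F₀ hF₀
      exact V17_fib hR hq hP hdeg hL A₀ Y hY n₁ m hm hh hρ hd s t hs F₀ hF₀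
  have h2 := sep_count (d := d) hq hP' hdeg' hL (by omega : 2 ≤ h) (DDs lv h (2 * n₁ + 2) s) s (by
    intro D hD
    unfold DDs at hD
    rw [mem_biUnion] at hD
    obtain ⟨b₀, -, hD⟩ := hD
    exact (mem_filter.1 hD).2)
  exact h1.trans (mul_le_mul_of_nonneg_left h2 (by norm_num))

end Pool.Agent.LC

end

/-! ### from `Lib_MP_2c424f_lc7.E05` -/

section

/-!
# LC7 E05: numbers

`e = eC C d`: `d^C ≤ 2^e ≤ 2 d^C` (`Nat.le_pow_clog`, `Nat.pow_pred_clog_lt_self`).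
-/

set_option autoImplicit false

open Finset Filter

namespace Pool.Agent.LC

open Pool.Agent.LO Pool.Agent.LIN Pool.Agent.THR Pool.Agent.COR

private theorem e05_ge (C d : ℕ) : (d : ℝ) ^ C ≤ 2 ^ eC C d := by
  have h := Nat.le_pow_clog (b := 2) (by norm_num) (d ^ C)
  unfold eC
  exact_mod_cast h

private theorem e05_le (C : ℕ) {d : ℕ} (hd : 1 ≤ d) : (2 : ℝ) ^ eC C d ≤ 2 * (d : ℝ) ^ C := by
  have h1 : 1 ≤ d ^ C := Nat.one_le_pow _ _ hd
  have key : 2 ^ eC C d ≤ 2 * d ^ C := by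
    rcases Nat.eq_or_lt_of_le h1 with h2 | h2
    · have h3 : eC C d = 0 := by
        unfold eC
        rw [← h2]
        exact Nat.clog_one_right 2
      rw [h3, ← h2]
      norm_num
    · have h3 : 2 ^ (eC C d).pred < d ^ C := Nat.pow_pred_clog_lt_self (by norm_num) h2
      have h4 : 2 ^ eC C d ≤ 2 ^ ((eC C d).pred + 1) := by
        apply Nat.pow_le_pow_right (by norm_num)
        rw [Nat.pred_eq_sub_one]
        omega
      calc 2 ^ eC C d ≤ 2 ^ ((eC C d).pred + 1) := h4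
        _ = 2 * 2 ^ (eC C d).pred := by rw [pow_succ, mul_comm]
        _ ≤ 2 * d ^ C := Nat.mul_le_mul_left 2 h3.le
  exact_mod_cast key

theorem eC_le {C d : ℕ} (hd : 2 ≤ d) (hC : 1 ≤ C) : (d : ℝ) ^ C ≤ 2 ^ eC C d ∧ (2 : ℝ) ^ eC C d ≤ 2 * (d : ℝ) ^ C :=
  ⟨e05_ge C d, e05_le C (by omega)⟩

private theorem e05_small (A : ℝ) (k : ℕ) : ∃ d₀ : ℕ, ∀ d : ℕ, d₀ ≤ d → A * (d : ℝ) ^ k ≤ 2 ^ d := by
  have h := tendsto_pow_const_div_const_pow_of_one_lt k (r := (2 : ℝ)) (by norm_num)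
  have hpos : (0 : ℝ) < 1 / (|A| + 1) := by positivity
  have h2 := (h.eventually (gt_mem_nhds hpos)).exists_forall_of_atTop
  obtain ⟨d₀, hd₀⟩ := h2
  refine ⟨d₀, fun d hd => ?_⟩
  have h3 := hd₀ d hd
  have h4 : (0 : ℝ) < 2 ^ d := by positivity
  have h5 : (0 : ℝ) < |A| + 1 := by positivity
  rw [div_lt_div_iff₀ h4 h5, one_mul] at h3
  have h6 : (0 : ℝ) ≤ (d : ℝ) ^ k := by positivity
  have h7 : A ≤ |A| + 1 := by linarith [le_abs_self A]
  nlinarith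

/-- `h² ≤ 2^d`, `L ≤ 2^(d/2)` in the form `L² ≤ 2^d / d^a` -/
theorem eC_small (C a : ℕ) : ∃ d₀ : ℕ, ∀ d : ℕ, d₀ ≤ d →
    ((hS (eC C d) : ℝ)) ^ 2 ≤ 2 ^ d ∧ (d : ℝ) ^ a * ((2 : ℝ) ^ (5 * eC C d)) ^ 2 ≤ 2 ^ d := by
  obtain ⟨d₁, h₁⟩ := e05_small 16 (4 * C)
  obtain ⟨d₂, h₂⟩ := e05_small 1024 (a + 10 * C)
  refine ⟨max 1 (max d₁ d₂), fun d hd => ?_⟩
  have hd1 : 1 ≤ d := le_trans (le_max_left _ _) hd
  have hd2 : d₁ ≤ d := le_trans (le_trans (le_max_left _ _) (le_max_right _ _)) hd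
  have hd3 : d₂ ≤ d := le_trans (le_trans (le_max_right _ _) (le_max_right _ _)) hd
  have hE := e05_le C hd1
  have hE0 : (0 : ℝ) ≤ 2 ^ eC C d := by positivity
  constructor
  · refine le_trans ?_ (h₁ d hd2)
    have e1 : ((hS (eC C d) : ℝ)) ^ 2 = ((2 : ℝ) ^ eC C d) ^ 4 := by
      unfold hS
      push_cast
      rw [show (4 : ℝ) = 2 ^ 2 by norm_num, ← pow_mul, ← pow_mul, ← pow_mul]
      congr 1
      ring
    rw [e1]
    calc ((2 : ℝ) ^ eC C d) ^ 4 ≤ (2 * (d : ℝ) ^ C) ^ 4 := pow_le_pow_left₀ hE0 hE 4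
      _ = 16 * (d : ℝ) ^ (4 * C) := by
        rw [mul_pow, ← pow_mul, mul_comm C 4]
        norm_num
  · refine le_trans ?_ (h₂ d hd3)
    have e1 : ((2 : ℝ) ^ (5 * eC C d)) ^ 2 = ((2 : ℝ) ^ eC C d) ^ 10 := by
      rw [← pow_mul, ← pow_mul]
      congr 1
      ring
    rw [e1]
    calc (d : ℝ) ^ a * ((2 : ℝ) ^ eC C d) ^ 10 ≤ (d : ℝ) ^ a * (2 * (d : ℝ) ^ C) ^ 10 :=
          mul_le_mul_of_nonneg_left (pow_le_pow_left₀ hE0 hE 10) (by positivity)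
      _ = 1024 * (d : ℝ) ^ (a + 10 * C) := by
        rw [mul_pow, ← pow_mul, mul_comm C 10, pow_add]
        ring

private theorem e05_sq {C : ℕ} (hC : 2 ≤ C) {d : ℕ} (hd : 1 ≤ d) : (d : ℝ) ^ 2 ≤ 2 ^ eC C d := by
  refine le_trans ?_ (e05_ge C d)
  exact pow_le_pow_right₀ (by exact_mod_cast hd) hC

/-- `(w + 2 s)^(d-1) ≤ 2 w^(d-1)` -/
theorem w_pow (C : ℕ) (hC : 2 ≤ C) : ∃ d₀ : ℕ, ∀ d : ℕ, d₀ ≤ d →
    ((wS (eC C d) : ℝ) + 2 * hS (eC C d)) ^ (d - 1) ≤ 2 * (wS (eC C d) : ℝ) ^ (d - 1) := by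
  refine ⟨2, fun d hd => ?_⟩
  have hsq := e05_sq hC (show 1 ≤ d by omega)
  set e := eC C d with he
  have hd' : (2 : ℝ) ≤ d := by exact_mod_cast hd
  have hE1 : (1 : ℝ) ≤ 2 ^ e := one_le_pow₀ (by norm_num)
  have hw : (wS e : ℝ) = 2 * ((2 : ℝ) ^ e) ^ 5 := by
    unfold wS
    push_cast
    rw [← pow_mul, mul_comm e 5]
  have hh : (hS e : ℝ) = ((2 : ℝ) ^ e) ^ 2 := by
    unfold hS
    push_cast
    rw [← pow_mul, mul_comm e 2, pow_mul]
    norm_num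
  have hwpos : (0 : ℝ) < wS e := by
    rw [hw]
    positivity
  have hx : 2 * (hS e : ℝ) ≤ (wS e : ℝ) * (1 / (d : ℝ) ^ 2) := by
    rw [mul_one_div, le_div_iff₀ (by positivity), hw, hh]
    have h1 : (d : ℝ) ^ 2 ≤ ((2 : ℝ) ^ e) ^ 3 := by
      refine le_trans hsq ?_
      calc (2 : ℝ) ^ e = ((2 : ℝ) ^ e) ^ 1 := (pow_one _).symm
        _ ≤ ((2 : ℝ) ^ e) ^ 3 := pow_le_pow_right₀ hE1 (by norm_num)
    calc 2 * ((2 : ℝ) ^ e) ^ 2 * (d : ℝ) ^ 2 ≤ 2 * ((2 : ℝ) ^ e) ^ 2 * ((2 : ℝ) ^ e) ^ 3 :=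
          mul_le_mul_of_nonneg_left h1 (by positivity)
      _ = 2 * ((2 : ℝ) ^ e) ^ 5 := by ring
  have hexp : Real.exp (1 / 2) ≤ 2 := by
    have h1 : Real.exp (1 / 2) ^ 2 < 2 ^ 2 := by
      rw [← Real.exp_nat_mul]
      have h2 := Real.exp_one_lt_d9
      have h3 : ((2 : ℕ) : ℝ) * (1 / 2) = 1 := by norm_num
      rw [h3]
      linarith
    exact (lt_of_pow_lt_pow_left₀ 2 (by norm_num) h1).le
  have h0 : (wS e : ℝ) + 2 * hS e ≤ wS e * Real.exp (1 / (d : ℝ) ^ 2) := by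
    have h1 := Real.add_one_le_exp (1 / (d : ℝ) ^ 2)
    nlinarith
  have hnn : (0 : ℝ) ≤ (wS e : ℝ) + 2 * hS e := by positivity
  calc ((wS e : ℝ) + 2 * hS e) ^ (d - 1) ≤ (wS e * Real.exp (1 / (d : ℝ) ^ 2)) ^ (d - 1) :=
        pow_le_pow_left₀ hnn h0 _
    _ = (wS e : ℝ) ^ (d - 1) * Real.exp (((d - 1 : ℕ) : ℝ) * (1 / (d : ℝ) ^ 2)) := by
      rw [mul_pow, ← Real.exp_nat_mul]
    _ ≤ (wS e : ℝ) ^ (d - 1) * 2 := by
      refine mul_le_mul_of_nonneg_left (le_trans (Real.exp_le_exp.2 ?_) hexp) (by positivity)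
      rw [mul_one_div, div_le_iff₀ (by positivity)]
      have h2 : ((d - 1 : ℕ) : ℝ) ≤ d := by exact_mod_cast Nat.sub_le d 1
      nlinarith
    _ = 2 * (wS e : ℝ) ^ (d - 1) := mul_comm _ _

/-- `∏ (L i - 1) ≥ ∏ L i / 2` -/
theorem L_prod (C : ℕ) (hC : 2 ≤ C) : ∃ d₀ : ℕ, ∀ d : ℕ, d₀ ≤ d → ∀ j : Option (Fin d),
    (∏ i, (LS (eC C d) j i : ℝ)) / 2 ≤ ∏ i, ((LS (eC C d) j i : ℝ) - 1) := by
  refine ⟨2, fun d hd j => ?_⟩
  have hsq := e05_sq hC (show 1 ≤ d by omega)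
  set e := eC C d with he
  have hd' : (2 : ℝ) ≤ d := by exact_mod_cast hd
  have hdpos : (0 : ℝ) < (d : ℝ) ^ 2 := by positivity
  have hL : ∀ i : Fin d, (d : ℝ) ^ 2 ≤ LS e j i := by
    intro i
    refine le_trans hsq ?_
    have h1 : 2 ^ e ≤ LS e j i := by
      unfold LS
      apply Nat.pow_le_pow_right (by norm_num)
      unfold rS
      split_ifs <;> omega
    exact_mod_cast h1
  have h1 : ∀ i : Fin d, (LS e j i : ℝ) * (1 + -(1 / (d : ℝ) ^ 2)) ≤ (LS e j i : ℝ) - 1 := by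
    intro i
    have h2 : 1 ≤ (LS e j i : ℝ) * (1 / (d : ℝ) ^ 2) := by
      rw [mul_one_div, le_div_iff₀ hdpos, one_mul]
      exact hL i
    linarith
  have hs : 1 / (d : ℝ) ^ 2 ≤ 1 / 4 := by
    apply one_div_le_one_div_of_le (by norm_num)
    nlinarith
  have hbern := one_add_mul_le_pow (show (-2 : ℝ) ≤ -(1 / (d : ℝ) ^ 2) by linarith) d
  have h3 : (1 : ℝ) / 2 ≤ 1 + (d : ℝ) * -(1 / (d : ℝ) ^ 2) := by
    have h4 : (d : ℝ) * (1 / (d : ℝ) ^ 2) ≤ 1 / 2 := by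
      rw [mul_one_div, div_le_iff₀ hdpos]
      nlinarith
    linarith
  calc (∏ i, (LS e j i : ℝ)) / 2 = (∏ i, (LS e j i : ℝ)) * (1 / 2) := by ring
    _ ≤ (∏ i, (LS e j i : ℝ)) * (1 + -(1 / (d : ℝ) ^ 2)) ^ d :=
      mul_le_mul_of_nonneg_left (le_trans h3 hbern) (prod_nonneg fun i _ => Nat.cast_nonneg _)
    _ = ∏ i : Fin d, ((LS e j i : ℝ) * (1 + -(1 / (d : ℝ) ^ 2))) := by
      rw [prod_mul_distrib, prod_const, card_univ, Fintype.card_fin]
    _ ≤ ∏ i, ((LS e j i : ℝ) - 1) := by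
      refine prod_le_prod (fun i _ => ?_) (fun i _ => h1 i)
      refine mul_nonneg (Nat.cast_nonneg _) ?_
      linarith

end Pool.Agent.LC

end
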