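import Pool.Agent.Lib_MP_2c424f_m.M23
import Pool.Agent.Lib_MP_2c424f_m.M34
import Pool.Agent.Lib_MP_2c424f_m.M38
import Pool.Agent.Lib_MP_2c424f_m.M39
import Pool.Agent.Lib_MP_2c424f_m.M41

/-!
# MP_2c424f_pr, q_c grows linearly: merged library part M44

Concatenation of smaller files (each in its own section), only to save build time.
-/

namespace Pool.Agent.LO
end Pool.Agent.LO

namespace Pool.Agent.LIN
end Pool.Agent.LIN

namespace Pool.Agent.THR
end Pool.Agent.THR

namespace Pool.Agent.COR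
end Pool.Agent.COR

namespace Pool.Agent.LC
end Pool.Agent.LC

/-! ### from `Lib_MP_2c424f_lc1.B6` -/

section

/-!
# LC1 B6: pinning

`C₄` from `grad_K`; for `K` take `t` from `grad_K` at the level `K + 10`.  For `δ > 0` put `η = min (δ/4) (1/1000)`.  Outside the triples of `blk_conc (δ/4)` (level `K+2`), of the blocks of `blk_iso (δ/4)` and
`bd_few η` (`TRK_blk`, levels `K+2`): every colour `c` has a label with precision `η`: `st η true c` or `st η false c`; it is the label with precision `et` (the values `1 ± m` are separated), so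
`|Mp e none u (bq c f) - (1 ± m)| ≤ η` with the sign of `gm (ALP (pat f u)) (tp p) c` (`frq_eq`; `tp p` is even iff `¬ od p.2.1 p.2.2`: `LO.evn_pt`), and `Pn δ t (ALP (pat f u)) f (tp p)`.
-/

set_option autoImplicit false

open Finset Filter

namespace Pool.Agent.LC

open Pool.Agent.LO Pool.Agent.LIN Pool.Agent.THR Pool.Agent.COR

private theorem B6_st_et {d q : ℕ} {η : ℝ} (hη : η ≤ et) {hi : Bool} {c : Fin q} {g : Pat d q} (h : st η hi c g) :
    st et hi c g := fun s => ⟨(h s).1.trans hη, (h s).2.trans hη⟩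

private theorem B6_sep {d q : ℕ} (hm : 1 / 2 < ms d q) {c : Fin q} {g : Pat d q} (h : st et true c g)
    (h' : st et false c g) : False := by
  have h1 := (h none).1
  have h2 := (h' none).2
  have h3 : (!true) = false := rfl
  rw [h3] at h1
  have e : et = 1 / 1000 := rfl
  rw [e] at h1 h2
  rw [abs_le] at h1 h2
  linarith

/-- the frequency of a colour with a label at the points of the parity of `tp p` -/
private theorem B6_lab {d k q : ℕ} (hm : 1 / 2 < ms d q) {η : ℝ} (hη : η ≤ et) (f : Site d (k + 1) → Fin q)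
    (p : Tpl d k) (e : Bool) (he : e = true ↔ ¬ od p.2.1 p.2.2) (c : Fin q) (h : ¬ bdP η c (pat f p.1)) :
    |Mp e none p.1 (bq c f) - gm (ALP (pat f p.1)) (tp p) c| ≤ η := by
  classical
  have hv : evn (tp p) ↔ e = true := by
    rw [he]
    exact evn_pt _ _ _
  have hA : c ∈ ALP (pat f p.1) ↔ st et false c (pat f p.1) := by
    unfold ALP
    rw [Finset.mem_filter]
    simp only [Finset.mem_univ, true_and]
  rw [← frq_eq]
  unfold bdP at h
  rw [not_and_or, not_not, not_not] at h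
  rcases h with h | h
  · have hn : c ∉ ALP (pat f p.1) := fun hc => B6_sep hm (B6_st_et hη h) (hA.1 hc)
    obtain ⟨h1, h2⟩ := h none
    have e3 : (!true) = false := rfl
    rw [e3] at h1
    unfold gm tS
    cases e with
    | true =>
      have : ¬ (evn (tp p) ↔ c ∈ ALP (pat f p.1)) := fun hh => hn (hh.1 (hv.2 rfl))
      rw [if_neg this]
      exact h2
    | false =>
      have hne : ¬ evn (tp p) := fun hh => Bool.false_ne_true (hv.1 hh)
      have : (evn (tp p) ↔ c ∈ ALP (pat f p.1)) := ⟨fun hh => absurd hh hne, fun hh => absurd hh hn⟩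
      rw [if_pos this]
      exact h1
  · have hy : c ∈ ALP (pat f p.1) := hA.2 (B6_st_et hη h)
    obtain ⟨h1, h2⟩ := h none
    have e3 : (!false) = true := rfl
    rw [e3] at h1
    unfold gm tS
    cases e with
    | true =>
      have : (evn (tp p) ↔ c ∈ ALP (pat f p.1)) := ⟨fun _ => hy, fun _ => hv.2 rfl⟩
      rw [if_pos this]
      exact h1
    | false =>
      have hne : ¬ evn (tp p) := fun hh => Bool.false_ne_true (hv.1 hh)
      have : ¬ (evn (tp p) ↔ c ∈ ALP (pat f p.1)) := fun hh => hne (hh.2 hy)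
      rw [if_neg this]
      exact h2

theorem pin_T : ∃ C₄ : ℝ, 0 < C₄ ∧ ∀ K : ℕ, ∃ t : ℕ, Even t ∧ 20 ≤ t ∧ (SRK K fun _ _ _ f v => Gb C₄ t f v) ∧
    ∀ δ : ℝ, 0 < δ → TRK K fun _ _ _ f p => G0P (pat f p.1) ∧ ¬ Pn δ t (ALP (pat f p.1)) f (tp p) := by
  classical
  obtain ⟨C₄, hC, hgr⟩ := grad_K
  refine ⟨C₄, hC, fun K => ?_⟩
  obtain ⟨t, ht, ht20, hG⟩ := hgr (K + 10)
  refine ⟨t, ht, ht20, SRK.le (by omega) hG, fun δ hδ => ?_⟩
  set η : ℝ := min (δ / 4) (1 / 1000) with hη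
  have hη0 : 0 < η := lt_min (by linarith) (by norm_num)
  have hη1 : η ≤ δ / 4 := min_le_left _ _
  have hη2 : η ≤ et := min_le_right _ _
  have T1 := blk_conc C₄ hC t (K + 1) (SRK.le (by omega) hG) (δ / 4) (by linarith)
  have T2 := TRK_blk (blk_iso t ht (K + 2) (δ / 4) (by linarith))
  have T3 := TRK_blk (bd_few η hη0 (K + 2))
  have T := T1.or (T2.or T3)
  refine T.mono ((EvT_d (ε := e3) (eventually_ge_atTop 1)).mono ?_)
  rintro d k q hd hR f _ p ⟨_, hP⟩
  by_contra hcon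
  rw [not_or, not_or] at hcon
  obtain ⟨h1, h2, h3⟩ := hcon
  refine hP fun c => ?_
  have hm : 1 / 2 < ms d q := by
    obtain ⟨_, ha, _⟩ := rg_pos hd hR
    obtain ⟨_, _, hm3, _⟩ := mf_num ha (ms_spec hd hR)
    have h4 : Real.exp (-(2 * ra d q)) ≤ 1 / 2001 := by
      rw [Real.exp_neg, ← one_div]
      refine one_div_le_one_div_of_le (by norm_num) ?_
      have := Real.add_one_le_exp (2 * ra d q)
      linarith
    linarith
  set e : Bool := decide (¬ od p.2.1 p.2.2) with he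
  have g1 : |PP^[t] (bq c f) (tp p) - Mp e none p.1 (PP^[t] (bq c f))| ≤ δ / 4 := by
    by_contra hlt
    exact h1 ⟨c, not_le.1 hlt⟩
  have g2 : |Mp e none p.1 (PP^[t] (bq c f)) - Mp e none p.1 (bq c f)| ≤ δ / 4 := by
    by_contra hlt
    exact h2 ⟨e, c, not_le.1 hlt⟩
  have g3 : |Mp e none p.1 (bq c f) - gm (ALP (pat f p.1)) (tp p) c| ≤ η :=
    B6_lab hm hη2 f p e (by rw [he, decide_eq_true_iff]) c fun hb => h3 ⟨c, hb⟩
  rw [abs_le] at g1 g2 g3 ⊢
  constructor <;> linarith [g1.1, g1.2, g2.1, g2.2, g3.1, g3.2]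

end Pool.Agent.LC

end

/-! ### from `Lib_MP_2c424f_lc1.E4` -/

section

/-!
# LC1 E4: typical points of the good blocks

`typ_tpl`: `C₄` from `pin_T`, `t` from `pin_T` at the level `K + 12`, `δ` from `typ_site` at the level `K + 6`.  Let `p = (u, a, b)`, `A = ALP (pat f u)`, `x = tp p`, `p' = (u, flp (0, false) (a, b))`
(flip the first bit of `a`): `x' = tp p'` is a neighbour of `x` (the `0`-th coordinate changes by one).  Exceptional `p`:
 `¬ Pn (δ/2)` at `p` (`pin_T`), or at `p'` (`p ↦ p'` is an involution of the triples with the same block, so the number is the same);  `x` or some `x + σ` is `Gb` (`TRK_of_SRK`, `SRK.nb`);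
 `x` or some `x + σ` is exceptional for `typ_site` (`TRK_of_SRK`, `SRK.nb`).  Combine with `TRK.or`, `TRK.le`.
Otherwise: `x` not `Gb`: the values of `PP^[t] (bq c f)` at the `x + σ` differ by at most `C₄/q ≤ δ/2` from the value at `x'`, and `gm A (x+σ) = gm A x'` (`gm_step`): `Pn δ` at all `x + σ`.  `x + σ` not `Gb`: the values at `x + σ + τ`
differ by at most `C₄/q` from the value at `x = x + σ + opp σ`: `Pn δ` at all `x + σ + τ`.  So `TS θ` at `x` and at all `x + σ`.
-/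

set_option autoImplicit false

open Finset Filter

namespace Pool.Agent.LC

open Pool.Agent.LO Pool.Agent.LIN Pool.Agent.THR Pool.Agent.COR

/-- flip the first bit -/
private def E4_F (d k : ℕ) (p : Tpl d k) : Tpl d k :=
  if h : 0 < d then (p.1, Pool.Agent.LO.flp p.2.1 ⟨0, h⟩, p.2.2) else p

private theorem E4_F_fst {d k : ℕ} (p : Tpl d k) : (E4_F d k p).1 = p.1 := by
  unfold E4_F
  split_ifs <;> rfl

private theorem E4_F_F {d k : ℕ} (p : Tpl d k) : E4_F d k (E4_F d k p) = p := by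
  unfold E4_F
  split_ifs with h
  · obtain ⟨t, a, b⟩ := p
    refine Prod.ext rfl (Prod.ext ?_ rfl)
    show Pool.Agent.LO.flp (Pool.Agent.LO.flp a ⟨0, h⟩) ⟨0, h⟩ = a
    unfold Pool.Agent.LO.flp
    simp
  · rfl

private theorem E4_tp {d k : ℕ} (hd : 0 < d) (p : Tpl d k) :
    tp (E4_F d k p) = tp p + sv (⟨0, hd⟩, !(p.2.1 ⟨0, hd⟩)) := by
  unfold E4_F tp
  rw [dif_pos hd]
  exact (pt_flp p.1 p.2.1 p.2.2 ⟨0, hd⟩).1

private theorem E4_cn {d k : ℕ} (B : Tpl d k → Prop) : cn (fun p => B (E4_F d k p)) ≤ cn B := by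
  classical
  unfold cn
  have h : (univ.filter fun p => B (E4_F d k p)).card ≤ (univ.filter B).card := by
    refine card_le_card_of_injOn (E4_F d k) ?_ ?_
    · intro p hp
      rw [mem_coe, mem_filter] at hp ⊢
      exact ⟨mem_univ _, hp.2⟩
    · intro p _ p' _ hpp
      rw [← E4_F_F p, ← E4_F_F p']
      exact congrArg (E4_F d k) hpp
  exact_mod_cast h

private theorem E4_comap {K : ℕ} {B : ∀ d k q : ℕ, (Site d (k + 1) → Fin q) → Tpl d k → Prop} (h : TRK K B) :
    TRK K fun d k q f p => B d k q f (E4_F d k p) := by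
  unfold TRK at *
  refine WOPb.mono h ⟨0, fun d q _ _ _ => Eventually.of_forall fun k f _ h1 hR => ?_⟩
  exact (E4_cn (B d k q f)).trans (h1 hR)

private theorem E4_step {d k q t : ℕ} {f : Site d (k + 1) → Fin q} {A : Finset (Fin q)} {C₄ δ : ℝ}
    {x : Site d (k + 1)} (σ₀ : Stp d) (hq : C₄ / q ≤ δ / 2) (hG : ¬ Gb C₄ t f x)
    (h0 : Pn (δ / 2) t A f (x + sv σ₀)) (σ : Stp d) : Pn δ t A f (x + sv σ) := by
  intro c
  unfold Gb at hG
  push Not at hG
  have h1 := hG c σ σ₀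
  have h2 := h0 c
  have e : gm A (x + sv σ) c = gm A (x + sv σ₀) c := by
    rw [gm_step (Nat.succ_le_succ (Nat.zero_le k)), gm_step (Nat.succ_le_succ (Nat.zero_le k))]
  rw [e]
  have h3 := abs_sub_le (PP^[t] (bq c f) (x + sv σ)) (PP^[t] (bq c f) (x + sv σ₀)) (gm A (x + sv σ₀) c)
  linarith

theorem typ_tpl (K : ℕ) (θ : ℝ) (hθ : 0 < θ) : TRK K fun d _ _ f p => G0P (pat f p.1) ∧
    ¬ (TS θ (ALP (pat f p.1)) f (tp p) ∧ ∀ σ : Stp d, TS θ (ALP (pat f p.1)) f (tp p + sv σ)) := by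
  obtain ⟨C₄, hC₄, hpin⟩ := pin_T
  obtain ⟨t, ht, ht', hGb, hPn⟩ := hpin (K + 12)
  obtain ⟨δ, hδ, hS⟩ := typ_site C₄ hC₄.le (K + 6) t ht ht' hGb θ hθ
  have h1 : TRK (K + 12) _ := hPn (δ / 2) (by positivity)
  have h2 := E4_comap h1
  have h3 := TRK_of_SRK hGb
  have h4 : TRK (K + 10) _ := TRK_of_SRK (SRK.nb (K := K + 10) hGb)
  have h5 := TRK_of_SRK hS
  have h6 : TRK (K + 4) _ := TRK_of_SRK (SRK.nb (K := K + 4) hS)
  have hor := TRK.or (K := K + 1)
    (TRK.or (K := K + 2) (TRK.or (K := K + 3) (h1.le (by omega)) (h2.le (by omega)))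
      (TRK.or (K := K + 3) (h3.le (by omega)) (h4.le (by omega))))
    ((TRK.or (K := K + 3) (h5.le (by omega)) h6).le (by omega : K + 2 ≤ K + 3))
  refine TRK.mono (hor.le (by omega : K ≤ K + 1)) ?_
  refine (EvT_reg (ε := e3) (by unfold e3; norm_num) (by unfold e3; norm_num) (2 * C₄ / δ + 1)).mono ?_
  rintro d k q ⟨hMd, hMq, -, -, -, -, -, -⟩ hR f hf p ⟨hG0, hn⟩
  by_contra hcon
  have hd : 0 < d := by
    have h7 : (0 : ℝ) < d := lt_of_lt_of_le (by positivity) hMd
    exact_mod_cast h7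
  have hq0 : (0 : ℝ) < q := lt_of_lt_of_le (by positivity) hMq
  have hq : C₄ / q ≤ δ / 2 := by
    rw [div_le_iff₀ hq0]
    have h7 : 2 * C₄ / δ ≤ q := by linarith
    rw [div_le_iff₀ hδ] at h7
    linarith
  have e1 : ¬ (G0P (pat f p.1) ∧ ¬ Pn (δ / 2) t (ALP (pat f p.1)) f (tp p)) :=
    fun h => hcon (Or.inl (Or.inl (Or.inl h)))
  have e2 : ¬ (G0P (pat f (E4_F d k p).1) ∧
      ¬ Pn (δ / 2) t (ALP (pat f (E4_F d k p).1)) f (tp (E4_F d k p))) :=
    fun h => hcon (Or.inl (Or.inl (Or.inr h)))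
  have e3 : ¬ Gb C₄ t f (tp p) := fun h => hcon (Or.inl (Or.inr (Or.inl h)))
  have e4 : ¬ ∃ σ : Stp d, Gb C₄ t f (tp p + sv σ) := fun h => hcon (Or.inl (Or.inr (Or.inr h)))
  have e5 : ¬ ∃ A, Pn δ t A f (tp p) ∧ (∀ σ : Stp d, Pn δ t A f (tp p + sv σ)) ∧ ¬ TS θ A f (tp p) :=
    fun h => hcon (Or.inr (Or.inl h))
  have e6 : ¬ ∃ σ : Stp d, ∃ A, Pn δ t A f (tp p + sv σ) ∧
      (∀ τ : Stp d, Pn δ t A f (tp p + sv σ + sv τ)) ∧ ¬ TS θ A f (tp p + sv σ) :=
    fun h => hcon (Or.inr (Or.inr h))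
  rw [E4_F_fst, E4_tp hd] at e2
  have hx : Pn (δ / 2) t (ALP (pat f p.1)) f (tp p) := by
    by_contra h
    exact e1 ⟨hG0, h⟩
  have hx' : Pn (δ / 2) t (ALP (pat f p.1)) f (tp p + sv (⟨0, hd⟩, !(p.2.1 ⟨0, hd⟩))) := by
    by_contra h
    exact e2 ⟨hG0, h⟩
  have hxd : Pn δ t (ALP (pat f p.1)) f (tp p) := fun c => (hx c).trans (by linarith)
  have hn1 : ∀ σ : Stp d, Pn δ t (ALP (pat f p.1)) f (tp p + sv σ) := E4_step _ hq e3 hx'
  have hn2 : ∀ σ τ : Stp d, Pn δ t (ALP (pat f p.1)) f (tp p + sv σ + sv τ) := by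
    intro σ
    refine E4_step (opp σ) hq (fun h => e4 ⟨σ, h⟩) ?_
    rw [add_assoc, sv_opp', add_zero]
    exact hx
  refine hn ⟨?_, fun σ => ?_⟩
  · by_contra h
    exact e5 ⟨_, hxd, hn1, h⟩
  · by_contra h
    exact e6 ⟨σ, _, hn1 σ, hn2 σ, h⟩

end Pool.Agent.LC

end

/-! ### from `Lib_MP_2c424f_lc1.E5` -/

section

/-!
# LC1 E5: many available colours

`q3_pt`: `SRK_of_TRK`; `typ_tpl (K+1) (1/100)`: `av/q ≥ als - 1/100 ≥ 1/3` (`mf_num`, `ms_spec`); `bd_few et` (`TRK_blk`) for the blocks with `¬ G0P`.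
`q3n_pt`: `SR.nb` twice.
-/

set_option autoImplicit false

open Finset Filter

namespace Pool.Agent.LC

open Pool.Agent.LO Pool.Agent.LIN Pool.Agent.THR Pool.Agent.COR

theorem q3_pt : SR fun _ _ q f v => (av f v : ℝ) < q / 3 := by
  intro K
  apply SRK_of_TRK
  have het : (0 : ℝ) < et := by unfold et; norm_num
  have h1 := typ_tpl (K + 1) (1 / 100) (by norm_num)
  have h2 := TRK_blk (bd_few et het (K + 1))
  refine (h1.or h2).mono ?_
  refine (EvT_d (eventually_ge_atTop 1)).mono fun d k q hd hRg f _ p hp => ?_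
  by_cases hG : G0P (pat f p.1)
  · left
    refine ⟨hG, fun hT => ?_⟩
    have h3 := hT.1.2
    obtain ⟨hq, ha, _⟩ := rg_pos hd hRg
    obtain ⟨_, _, _, _, h4, _⟩ := mf_num ha (ms_spec hd hRg)
    have hq' : (0 : ℝ) < q := by exact_mod_cast hq
    have h5 : Real.exp (-ra d q) ≤ 1 / 1000 := by
      have h6 : ra d q + 1 ≤ Real.exp (ra d q) := Real.add_one_le_exp _
      rw [Real.exp_neg, inv_eq_one_div]
      apply one_div_le_one_div_of_le (by norm_num)
      linarith
    have h7 := (abs_le.1 h4).1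
    have h8 := (abs_le.1 h3).1
    have h9 : (1 : ℝ) / 3 ≤ (av f (tp p) : ℝ) / q := by linarith
    rw [le_div_iff₀ hq'] at h9
    have hp' : (av f (tp p) : ℝ) < q / 3 := hp
    linarith
  · right
    unfold G0P at hG
    push Not at hG
    exact hG

/-- all sites within two steps have at least `q/3` available colours -/
def Q3 {d k q : ℕ} (f : Site d k → Fin q) (v : Site d k) : Prop :=
  (q : ℝ) / 3 ≤ av f v ∧ (∀ σ : Stp d, (q : ℝ) / 3 ≤ av f (v + sv σ)) ∧ ∀ σ τ : Stp d, (q : ℝ) / 3 ≤ av f (v + sv σ + sv τ)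

theorem q3n_pt : SR fun _ _ _ f v => ¬ Q3 f v := by
  have h1 := q3_pt
  have h2 := h1.nb
  have h3 := h2.nb
  refine ((h1.or h2).or h3).mono ?_
  refine (EvT_d (eventually_ge_atTop 1)).mono fun d k q _ _ f _ v hv => ?_
  by_contra h0
  push Not at h0
  obtain ⟨⟨h4, h5⟩, h6⟩ := h0
  exact hv ⟨h4, h5, h6⟩

end Pool.Agent.LC

end

/-! ### from `Lib_MP_2c424f_lc1.F5` -/

section

/-!
# LC1 F5: first moment over the second neighbours, rare colour

`SR_local`, `o = true` (resample the class `b` of `v`), `R f v := ∀ σ τ, q/3 ≤ av f (v+σ+τ)` (`q3_pt.nb.nb`), radius 3.  `hh c f (v+σ)` does not change (`loc_hh_fib2`).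
`F h := ∑_σ nfx c h (v+σ) v`, mean `≤ ∑_σ hh c f (v+σ) ≤ 1.1 e^{-a} 2d ≤ e^{-a/2} 2d/2` (`nfx_mean`).  `fm_bern`: `F` depends on the indicators of `c` at the sites `w = v+σ+τ ≠ v` (at most `4d²`), `M = 2` (`comm_nb`), `p = 3/q`,
`θ = e^{-a/2} 2d/2`, `lam = s` a small constant: exponent `-s θ + 4 s² (3/q) 4d² ≤ -c d`.  Union over `c`.
-/

set_option autoImplicit false

open Finset Filter

namespace Pool.Agent.LC

open Pool.Agent.LO Pool.Agent.LIN Pool.Agent.THR Pool.Agent.COR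

private theorem F5_ind01 (P : Prop) : 0 ≤ ind P ∧ ind P ≤ 1 := by
  unfold ind
  split_ifs <;> norm_num

private theorem F5_ind_mono {P Q : Prop} (h : P → Q) : ind P ≤ ind Q := by
  unfold ind
  by_cases hP : P
  · rw [if_pos hP, if_pos (h hP)]
  · rw [if_neg hP]
    split_ifs <;> norm_num

private theorem F5_ind_ex {α : Type} [Fintype α] (P : α → Prop) : ind (∃ c, P c) ≤ ∑ c, ind (P c) := by
  by_cases h : ∃ c, P c
  · obtain ⟨c, hc⟩ := h
    have h1 : ind (∃ c, P c) ≤ ind (P c) := F5_ind_mono fun _ => hc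
    exact h1.trans (single_le_sum (f := fun c => ind (P c)) (fun c _ => (F5_ind01 _).1) (mem_univ c))
  · have h1 : ind (∃ c, P c) = 0 := by
      unfold ind
      rw [if_neg h]
    rw [h1]
    exact sum_nonneg fun c _ => (F5_ind01 _).1

private theorem F5_exp (K : ℕ) {c : ℝ} (hc : 0 < c) :
    ∀ᶠ d : ℕ in atTop, 4 * (d : ℝ) * Real.exp (-(c * d)) ≤ 1 / (d : ℝ) ^ K := by
  have h1 : Tendsto (fun d : ℕ => c * (d : ℝ)) atTop atTop :=
    (tendsto_natCast_atTop_atTop).const_mul_atTop hc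
  have h2 := (Real.tendsto_pow_mul_exp_neg_atTop_nhds_zero (K + 1)).comp h1
  have h3 : (0 : ℝ) < c ^ (K + 1) / 4 := by positivity
  filter_upwards [h2.eventually (ge_mem_nhds h3), eventually_ge_atTop 1] with d h4 hd
  have hd' : (0 : ℝ) < d := by exact_mod_cast hd
  simp only [Function.comp_apply] at h4
  rw [le_div_iff₀ (by positivity)]
  have h5 : (c * d) ^ (K + 1) * Real.exp (-(c * d)) = c ^ (K + 1) * ((d : ℝ) ^ (K + 1) * Real.exp (-(c * d))) := by
    rw [mul_pow]; ring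
  rw [h5] at h4
  have h6 : (d : ℝ) ^ (K + 1) * Real.exp (-(c * d)) ≤ 1 / 4 := by
    have h7 : (0 : ℝ) < c ^ (K + 1) := by positivity
    have h8 : c ^ (K + 1) * ((d : ℝ) ^ (K + 1) * Real.exp (-(c * d))) ≤ c ^ (K + 1) * (1 / 4) := by linarith
    exact le_of_mul_le_mul_left h8 h7
  have h9 : 4 * (d : ℝ) * Real.exp (-(c * d)) * (d : ℝ) ^ K = 4 * ((d : ℝ) ^ (K + 1) * Real.exp (-(c * d))) := by
    rw [pow_succ]
    ring
  linarith

private theorem F5_cn {T : Type} [Fintype T] (P : T → Prop) [inst : DecidablePred P] :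
    cn P = ((univ.filter P).card : ℝ) := by
  unfold cn
  have h : inst = fun a => Classical.propDecidable (P a) := Subsingleton.elim _ _
  rw [h]

private theorem F5_ind_sum {T : Type} [Fintype T] (P : T → Prop) : ∑ t, ind (P t) = cn P := by
  classical
  unfold cn ind
  rw [Finset.sum_boole]

section
variable {d k q : ℕ}

private theorem F5_nfx (c : Fin q) (f : Site d k → Fin q) (x v : Site d k) :
    nfx c f x v = ∑ τ : Stp d, ind (x + sv τ ≠ v ∧ f (x + sv τ) = c) := by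
  rw [F5_ind_sum]
  unfold nfx
  exact (F5_cn _).symm

/-- the sum -/
private noncomputable def F5_F (c : Fin q) (v : Site d k) (h : Site d k → Fin q) : ℝ :=
  ∑ σ : Stp d, nfx c h (v + sv σ) v

private theorem F5_upd (h : Site d k → Fin q) (x v u : Site d k) (γ c : Fin q)
    (hu : ∀ τ : Stp d, x + sv τ = u → u = v) :
    nfx c (Function.update h u γ) x v = nfx c h x v := by
  rw [F5_nfx, F5_nfx]
  refine sum_congr rfl fun τ _ => ?_
  congr 1
  refine propext (and_congr_right fun hτ => ?_)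
  rw [Function.update_of_ne]
  intro h2
  exact hτ (h2.trans (hu τ h2))

private theorem F5_upd2 (h : Site d k → Fin q) (x v u : Site d k) (γ γ' c : Fin q) (hγ : γ ≠ c) (hγ' : γ' ≠ c) :
    nfx c (Function.update h u γ) x v = nfx c (Function.update h u γ') x v := by
  rw [F5_nfx, F5_nfx]
  refine sum_congr rfl fun τ _ => ?_
  congr 1
  refine propext (and_congr_right fun hτ => ?_)
  by_cases h2 : x + sv τ = u
  · rw [h2, Function.update_self, Function.update_self]
    exact iff_of_false hγ hγ'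
  · rw [Function.update_of_ne h2, Function.update_of_ne h2]

private theorem F5_abs (hk : 3 ≤ k) (h : Site d k → Fin q) (x v u : Site d k) (γ c : Fin q) :
    |nfx c (Function.update h u γ) x v - nfx c h x v| ≤ 1 := by
  classical
  rw [F5_nfx, F5_nfx, ← sum_sub_distrib]
  refine (abs_sum_le_sum_abs _ _).trans ?_
  have h1 : ∀ τ ∈ (univ : Finset (Stp d)), |ind (x + sv τ ≠ v ∧ Function.update h u γ (x + sv τ) = c) -
      ind (x + sv τ ≠ v ∧ h (x + sv τ) = c)| ≤ if x + sv τ = u then (1 : ℝ) else 0 := by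
    intro τ _
    split_ifs with h2
    · have h3 := F5_ind01 (x + sv τ ≠ v ∧ Function.update h u γ (x + sv τ) = c)
      have h4 := F5_ind01 (x + sv τ ≠ v ∧ h (x + sv τ) = c)
      rw [abs_le]
      constructor <;> linarith [h3.1, h3.2, h4.1, h4.2]
    · rw [Function.update_of_ne h2, sub_self, abs_zero]
  refine (sum_le_sum h1).trans ?_
  rw [sum_boole]
  have h5 : (univ.filter fun τ : Stp d => x + sv τ = u).card ≤ 1 := by
    rw [card_le_one]
    intro a ha b hb
    have h6 := (mem_filter.1 ha).2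
    have h7 := (mem_filter.1 hb).2
    exact sv_inj (by omega) (add_left_cancel (h6.trans h7.symm))
  exact_mod_cast h5

private theorem F5_lip (hk : 3 ≤ k) (h : Site d k → Fin q) (v u : Site d k) (huv : u ≠ v) (γ c : Fin q) :
    |F5_F c v (Function.update h u γ) - F5_F c v h| ≤ 2 := by
  classical
  unfold F5_F
  rw [← sum_sub_distrib]
  refine (abs_sum_le_sum_abs _ _).trans ?_
  have h1 : ∀ σ ∈ (univ : Finset (Stp d)), |nfx c (Function.update h u γ) (v + sv σ) v - nfx c h (v + sv σ) v| ≤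
      ind (∃ τ : Stp d, u = v + sv σ + sv τ) := by
    intro σ _
    by_cases h4 : ∃ τ : Stp d, u = v + sv σ + sv τ
    · have h5 : ind (∃ τ : Stp d, u = v + sv σ + sv τ) = 1 := by
        unfold ind
        rw [if_pos h4]
      rw [h5]
      exact F5_abs hk h _ _ _ _ _
    · rw [F5_upd h (v + sv σ) v u γ c fun τ hτ => absurd ⟨τ, hτ.symm⟩ h4, sub_self, abs_zero]
      exact (F5_ind01 _).1
  refine (sum_le_sum h1).trans ?_
  have h2 : ∑ σ : Stp d, ind (∃ τ : Stp d, u = v + sv σ + sv τ) = cn (fun σ : Stp d => ∃ τ : Stp d, u = v + sv σ + sv τ) :=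
    F5_ind_sum _
  rw [h2]
  exact comm_nb hk huv

/-- locality -/
private theorem F5_loc (f g : Site d k → Fin q) (v : Site d k) (h : ∀ u, nr 3 v u → f u = g u) (c : Fin q) (σ : Stp d) :
    THR.hh c f (v + sv σ) = THR.hh c g (v + sv σ) ∧ nfx c f (v + sv σ) v = nfx c g (v + sv σ) v := by
  constructor
  · exact (loc_hh (fun u hu => h u (Or.inr ⟨σ, hu⟩)) c).1
  · rw [F5_nfx, F5_nfx]
    refine sum_congr rfl fun τ _ => ?_
    rw [h (v + sv σ + sv τ) (Or.inr ⟨σ, Or.inr ⟨τ, nr_self 1 _⟩⟩)]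

/-- Bernstein -/
private theorem F5_bern (hk : 3 ≤ k) (b : Bool) {f : Site d k → Fin q} (hf : Prp f) (v : Site d k) (c : Fin q) (s θ : ℝ)
    (hq : 0 < q) (hdq : (d : ℝ) ≤ 1000 * q)
    (hR : ∀ σ τ : Stp d, (q : ℝ) / 3 ≤ av f (v + sv σ + sv τ)) (hs : 0 < s) (hs1 : 2 * s ≤ 1)
    (hθ : 96000 * s * d ≤ θ) :
    fm b (fun h => ind (θ ≤ |F5_F c v h - fm b (F5_F c v) f|)) f ≤ 2 * Real.exp (-(s * θ / 2)) := by
  classical
  have hq0 : (0 : ℝ) < q := by exact_mod_cast hq
  set W : Finset (Site d k) := (univ.image fun p : Stp d × Stp d => v + sv p.1 + sv p.2).erase v with hW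
  have h := fm_bern (d := d) (k := k) (q := q) (by omega) b hf c (F5_F c v) W 2 (3 / q)
    s θ (by norm_num) (by positivity) hs.le (by linarith) ?_ ?_ ?_ ?_
  · refine h.trans ?_
    refine mul_le_mul_of_nonneg_left (Real.exp_le_exp.2 ?_) (by norm_num)
    have h1 : (W.card : ℝ) ≤ (2 * d) ^ 2 := by
      have h2 : W.card ≤ (2 * d) ^ 2 := by
        refine (card_le_card (erase_subset _ _)).trans (card_image_le.trans (le_of_eq ?_))
        rw [card_univ, Fintype.card_prod, Fintype.card_prod, Fintype.card_fin, Fintype.card_bool]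
        ring
      exact_mod_cast h2
    have h4 : s ^ 2 * 2 ^ 2 * (3 / q) * (W.card : ℝ) ≤ s ^ 2 * 2 ^ 2 * (3 / q) * (2 * d) ^ 2 :=
      mul_le_mul_of_nonneg_left h1 (by positivity)
    have h5 : s ^ 2 * 2 ^ 2 * (3 / q) * (2 * (d : ℝ)) ^ 2 ≤ 48000 * s ^ 2 * d := by
      have h6 : s ^ 2 * 2 ^ 2 * (3 / q) * (2 * (d : ℝ)) ^ 2 = 48 * s ^ 2 * d * (d / q) := by
        field_simp
        ring
      have h7 : (d : ℝ) / q ≤ 1000 := by
        rw [div_le_iff₀ hq0]
        exact hdq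
      rw [h6]
      calc 48 * s ^ 2 * d * (d / q) ≤ 48 * s ^ 2 * d * 1000 := mul_le_mul_of_nonneg_left h7 (by positivity)
        _ = 48000 * s ^ 2 * d := by ring
    have h8 : 48000 * s ^ 2 * d ≤ s * θ / 2 := by
      have := mul_le_mul_of_nonneg_left hθ hs.le
      nlinarith
    linarith
  · intro h _ u _ hu γ _
    unfold F5_F
    refine sum_congr rfl fun σ _ => ?_
    refine F5_upd h (v + sv σ) v u γ c fun τ hτ => ?_
    by_contra huv
    exact hu (mem_erase.2 ⟨huv, mem_image.2 ⟨(σ, τ), mem_univ _, hτ⟩⟩)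
  · intro h _ u _ hu γ _
    exact F5_lip hk h v u (ne_of_mem_erase hu) γ c
  · intro h _ u _ γ γ' _ _ h1 h2
    unfold F5_F
    exact sum_congr rfl fun σ _ => F5_upd2 h (v + sv σ) v u γ γ' c h1 h2
  · intro u _ hu
    obtain ⟨p, -, rfl⟩ := mem_image.1 (mem_of_mem_erase hu)
    have h1 := hR p.1 p.2
    have h2 : (0 : ℝ) < q / 3 := by positivity
    calc 1 / (av f (v + sv p.1 + sv p.2) : ℝ) ≤ 1 / ((q : ℝ) / 3) := one_div_le_one_div_of_le h2 h1
      _ = 3 / q := by field_simp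

/-- the mean -/
private theorem F5_mean (hk : 3 ≤ k) {b : Bool} {f : Site d k → Fin q} (hf : Prp f) {v : Site d k} (hv : v ∈ cls b d k)
    (c : Fin q) : fm b (F5_F c v) f ≤ ∑ σ : Stp d, THR.hh c f (v + sv σ) := by
  unfold F5_F
  rw [fm_sum b f (univ : Finset (Stp d)) fun σ h => nfx c h (v + sv σ) v]
  exact sum_le_sum fun σ _ => nfx_mean hk hf hv c σ

end

theorem f5_pt : SR fun d _ q f v => ∃ c : Fin q, ∑ σ : Stp d, hh c f (v + sv σ) ≤ 1.1 * Real.exp (-ra d q) * (2 * d) ∧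
    Real.exp (-ra d q / 2) * (2 * d) < ∑ σ : Stp d, nfx c f (v + sv σ) v := by
  have he : 0 < e3 := by unfold e3; norm_num
  have he1 : e3 ≤ 1 := by unfold e3; norm_num
  refine SR_local true 3 (fun d _ q f v => ∀ σ τ : Stp d, (q : ℝ) / 3 ≤ av f (v + sv σ + sv τ)) _ ?_ ?_ ?_ ?_ ?_
  · refine SR.mono q3n_pt ?_
    refine ⟨0, fun d q _ _ _ => Eventually.of_forall fun k _ f _ v h1 h2 => h1 h2.2.2⟩
  · intro d k q f g v h
    refine forall_congr' fun σ => forall_congr' fun τ => ?_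
    rw [(loc_av fun u hu => h u (Or.inr ⟨σ, Or.inr ⟨τ, hu⟩⟩)).2.1]
  · intro d k q f g v h
    refine exists_congr fun c => ?_
    rw [sum_congr rfl fun σ _ => (F5_loc f g v h c σ).1, sum_congr rfl fun σ _ => (F5_loc f g v h c σ).2]
  · refine (EvT_reg he he1 1).mono ?_
    intro d k q hreg _ f _ b v hv h hh
    have hk : 1 ≤ k := by exact_mod_cast hreg.2.2.1
    have hr : rcl true b = b := by simp [rcl]
    rw [hr] at hh
    refine forall_congr' fun σ => forall_congr' fun τ => ?_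
    have h1 : v + sv σ + sv τ ∈ cls b d k := by
      rw [mem_cls_step hk, mem_cls_step hk, Bool.not_not]
      exact hv
    unfold av
    rw [fib_SS hk b hh _ h1]
  · intro K
    have hE := Real.exp_pos (-1000)
    have hE1 : Real.exp (-1000) ≤ 1 := Real.exp_le_one_iff.2 (by norm_num)
    set s : ℝ := Real.exp (-1000) / 96000 with hs
    have hs0 : 0 < s := by positivity
    refine ((EvT_reg he he1 3).and (EvT_d (F5_exp K (c := s * Real.exp (-1000) / 2) (by positivity)))).mono ?_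
    rintro d k q ⟨hreg, hexp⟩ hRg f hf b v hv hR
    have hf' : Prp f := by
      unfold prps at hf
      simpa using hf
    have hk : 3 ≤ k := by exact_mod_cast hreg.2.2.1
    have hd : 3 ≤ d := by exact_mod_cast hreg.1
    have hd0 : (0 : ℝ) < d := by
      have : 0 < d := by omega
      exact_mod_cast this
    obtain ⟨hq, ha, ha2, h2d, -, hq2, -⟩ := rg_pos (by omega : 1 ≤ d) hRg
    have hq0 : (0 : ℝ) < q := by exact_mod_cast hq
    have hdq : (d : ℝ) ≤ 1000 * q := by nlinarith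
    have hr : rcl true b = b := by simp [rcl]
    rw [hr]
    set θ : ℝ := Real.exp (-ra d q / 2) * d with hθ
    have hθE : Real.exp (-1000) * d ≤ θ := by
      rw [hθ]
      exact mul_le_mul_of_nonneg_right (Real.exp_le_exp.2 (by linarith)) hd0.le
    have hsmall : 1.1 * Real.exp (-ra d q) * (2 * d) ≤ θ := by
      have h1 : Real.exp (-ra d q) = Real.exp (-ra d q / 2) * Real.exp (-ra d q / 2) := by
        rw [← Real.exp_add]
        congr 1
        ring
      have h2 : Real.exp (-ra d q / 2) ≤ 1 / 4 := by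
        have h3 := Real.add_one_le_exp (ra d q / 2)
        have h4 : Real.exp (-ra d q / 2) = 1 / Real.exp (ra d q / 2) := by
          rw [show -ra d q / 2 = -(ra d q / 2) by ring, Real.exp_neg, one_div]
        rw [h4]
        exact one_div_le_one_div_of_le (by norm_num) (by linarith)
      have h5 := Real.exp_pos (-ra d q / 2)
      have h6 : Real.exp (-ra d q) ≤ Real.exp (-ra d q / 2) * (1 / 4) := by
        rw [h1]
        exact mul_le_mul_of_nonneg_left h2 h5.le
      rw [hθ]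
      nlinarith
    have h1 : ∀ h ∈ fib b f, ind (∃ c : Fin q, ∑ σ : Stp d, THR.hh c h (v + sv σ) ≤ 1.1 * Real.exp (-ra d q) * (2 * d) ∧
        Real.exp (-ra d q / 2) * (2 * d) < ∑ σ : Stp d, nfx c h (v + sv σ) v) ≤
        ∑ c : Fin q, ind (θ ≤ |F5_F c v h - fm b (F5_F c v) f|) := by
      intro h hh
      refine (F5_ind_ex _).trans (sum_le_sum fun c _ => F5_ind_mono ?_)
      rintro ⟨h2, h3⟩
      rw [sum_congr rfl fun σ _ => loc_hh_fib2 hk hv c σ hh] at h2
      have h4 := F5_mean hk hf' hv c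
      have h5 : F5_F c v h = ∑ σ : Stp d, nfx c h (v + sv σ) v := rfl
      refine le_trans ?_ (le_abs_self _)
      rw [h5]
      have h6 : Real.exp (-ra d q / 2) * (2 * d) = 2 * θ := by
        rw [hθ]
        ring
      rw [h6] at h3
      linarith
    refine (fm_mono b hf' h1).trans ?_
    rw [fm_sum b f (univ : Finset (Fin q)) fun c h => ind (θ ≤ |F5_F c v h - fm b (F5_F c v) f|)]
    refine (sum_le_sum fun c _ => F5_bern hk b hf' v c s θ hq hdq hR hs0 (by rw [hs]; linarith) ?_).trans ?_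
    · have h2 : 96000 * s * d = Real.exp (-1000) * d := by
        rw [hs]
        ring
      rw [h2]
      exact hθE
    · rw [sum_const, card_univ, Fintype.card_fin, nsmul_eq_mul]
      refine le_trans ?_ hexp
      have h2 : Real.exp (-(s * θ / 2)) ≤ Real.exp (-(s * Real.exp (-1000) / 2 * d)) := by
        refine Real.exp_le_exp.2 (neg_le_neg ?_)
        have := mul_le_mul_of_nonneg_left hθE hs0.le
        linarith
      have h3 : (q : ℝ) ≤ 2 * d := by
        have : (0 : ℝ) < e3 * d := by positivity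
        linarith
      calc (q : ℝ) * (2 * Real.exp (-(s * θ / 2))) ≤ (2 * d) * (2 * Real.exp (-(s * Real.exp (-1000) / 2 * d))) :=
            mul_le_mul h3 (mul_le_mul_of_nonneg_left h2 (by norm_num)) (by positivity) (by positivity)
        _ = 4 * d * Real.exp (-(s * Real.exp (-1000) / 2 * d)) := by ring

end Pool.Agent.LC

end

/-! ### from `Lib_MP_2c424f_lc1.F4` -/

section

/-!
# LC1 F4: second moment over the second neighbours

`SR_local`, `o = true` (resample the class `b` of `v`), `R f v := ∀ σ τ, q/3 ≤ av f (v+σ+τ)` (`q3_pt.nb.nb`; class `b` sites: `av` does not change on the fibre of `b`), radius 3.  On `R`: `hh c f (v+σ) ≤ 3a`.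
`T := d^{1/16}`.  `P(∃ c σ, T < nfx c h (v+σ) v) ≤ 2d q e^{-T} e^{6a}` (`nfx_exp` with `x = 1`).  `F h := ∑_σ min (nfx c h (v+σ) v) T ^ 2`: mean `≤ 2d (3a + 9a²) ≤ 10 a² 2d` (`nfx_sq`).
`fm_bern`: `F` depends on the indicators of `c` at the sites `w = v+σ+τ ≠ v` (`W`, at most `4d²`); such a site changes `F` by at most `M = 2 * 3 T²` (`comm_nb`); `p = 3/q`; `θ = 10 a² 2d`, `lam = s/T⁴` with a small
constant `s > 0` (`lam M ≤ 1`): exponent `-s θ/T⁴ + s² 36/T⁴ * (3/q) * 4d² ≤ -c d/T⁴`.  Union over `c`.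
-/

set_option autoImplicit false

open Finset Filter

namespace Pool.Agent.LC

open Pool.Agent.LO Pool.Agent.LIN Pool.Agent.THR Pool.Agent.COR

variable {d k q : ℕ}

/-- the truncated second moment -/
private noncomputable def F4_F (T : ℝ) (c : Fin q) (v : Site d k) (h : Site d k → Fin q) : ℝ :=
  ∑ σ : Stp d, min (nfx c h (v + sv σ) v) T ^ 2

/-- the second neighbours -/
private noncomputable def F4_W (v : Site d k) : Finset (Site d k) := by
  classical exact univ.image fun p : Stp d × Stp d => v + sv p.1 + sv p.2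

private theorem F4_ind_nonneg (P : Prop) : 0 ≤ ind P := by
  unfold ind
  split_ifs <;> norm_num

private theorem F4_ind_true {P : Prop} (h : P) : ind P = 1 := by
  unfold ind
  rw [if_pos h]

private theorem F4_ind_false {P : Prop} (h : ¬ P) : ind P = 0 := by
  unfold ind
  rw [if_neg h]

private theorem F4_card : (Fintype.card (Stp d) : ℝ) = 2 * d := by
  rw [Fintype.card_prod, Fintype.card_fin, Fintype.card_bool]
  push_cast
  ring

private theorem F4_nfx_nonneg (c : Fin q) (h : Site d k → Fin q) (x v : Site d k) : 0 ≤ nfx c h x v := by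
  unfold nfx
  exact Nat.cast_nonneg _

private theorem F4_nfx_congr {c : Fin q} {g h : Site d k → Fin q} {x v : Site d k}
    (H : ∀ τ : Stp d, x + sv τ ≠ v → (g (x + sv τ) = c ↔ h (x + sv τ) = c)) : nfx c g x v = nfx c h x v := by
  unfold nfx
  congr 2
  ext τ
  simp only [mem_filter, mem_univ, true_and]
  constructor
  · rintro ⟨h1, h2⟩
    exact ⟨h1, (H τ h1).1 h2⟩
  · rintro ⟨h1, h2⟩
    exact ⟨h1, (H τ h1).2 h2⟩

private theorem F4_term {T n : ℝ} (hT : 0 ≤ T) (hn : 0 ≤ n) : 0 ≤ min n T ^ 2 ∧ min n T ^ 2 ≤ T ^ 2 :=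
  ⟨sq_nonneg _, pow_le_pow_left₀ (le_min hn hT) (min_le_right _ _) 2⟩

private theorem F4_cn {α : Type} [Fintype α] (P : α → Prop) : cn P = ∑ v, ind (P v) := by
  classical
  unfold cn ind
  rw [Finset.sum_ite]
  simp

private theorem F4_far (T : ℝ) (c : Fin q) (v w : Site d k) (hw : w ∉ F4_W v) (h : Site d k → Fin q) (γ : Fin q) :
    F4_F T c v (Function.update h w γ) = F4_F T c v h := by
  classical
  unfold F4_F
  refine Finset.sum_congr rfl fun σ _ => ?_
  rw [F4_nfx_congr]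
  intro τ _
  have h1 : v + sv σ + sv τ ≠ w := by
    intro h2
    apply hw
    unfold F4_W
    rw [mem_image]
    exact ⟨(σ, τ), mem_univ _, h2⟩
  rw [Function.update_of_ne h1]

private theorem F4_lip (hk : 3 ≤ k) {T : ℝ} (hT : 0 ≤ T) (c : Fin q) (v w : Site d k) (h : Site d k → Fin q) (γ : Fin q) :
    |F4_F T c v (Function.update h w γ) - F4_F T c v h| ≤ 2 * T ^ 2 := by
  by_cases hwv : w = v
  · have h1 : F4_F T c v (Function.update h w γ) = F4_F T c v h := by
      unfold F4_F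
      refine Finset.sum_congr rfl fun σ _ => ?_
      rw [F4_nfx_congr]
      intro τ hτ
      rw [Function.update_of_ne (by rw [hwv]; exact hτ)]
    rw [h1, sub_self, abs_zero]
    positivity
  · unfold F4_F
    rw [← Finset.sum_sub_distrib]
    have h1 : ∀ σ : Stp d, |min (nfx c (Function.update h w γ) (v + sv σ) v) T ^ 2 -
        min (nfx c h (v + sv σ) v) T ^ 2| ≤ ind (∃ τ : Stp d, w = v + sv σ + sv τ) * T ^ 2 := by
      intro σ
      by_cases hσ : ∃ τ : Stp d, w = v + sv σ + sv τ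
      · rw [F4_ind_true hσ, one_mul, abs_le]
        have a1 := F4_term hT (F4_nfx_nonneg c (Function.update h w γ) (v + sv σ) v)
        have a2 := F4_term hT (F4_nfx_nonneg c h (v + sv σ) v)
        constructor <;> linarith [a1.1, a1.2, a2.1, a2.2]
      · have h2 : nfx c (Function.update h w γ) (v + sv σ) v = nfx c h (v + sv σ) v := by
          refine F4_nfx_congr fun τ _ => ?_
          have h3 : v + sv σ + sv τ ≠ w := fun h4 => hσ ⟨τ, h4.symm⟩
          rw [Function.update_of_ne h3]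
        rw [h2, sub_self, abs_zero]
        exact mul_nonneg (F4_ind_nonneg _) (sq_nonneg _)
    calc |∑ σ : Stp d, (min (nfx c (Function.update h w γ) (v + sv σ) v) T ^ 2 -
          min (nfx c h (v + sv σ) v) T ^ 2)|
        ≤ ∑ σ : Stp d, |min (nfx c (Function.update h w γ) (v + sv σ) v) T ^ 2 -
          min (nfx c h (v + sv σ) v) T ^ 2| := Finset.abs_sum_le_sum_abs _ _
      _ ≤ ∑ σ : Stp d, ind (∃ τ : Stp d, w = v + sv σ + sv τ) * T ^ 2 := Finset.sum_le_sum fun σ _ => h1 σ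
      _ = cn (fun σ : Stp d => ∃ τ : Stp d, w = v + sv σ + sv τ) * T ^ 2 := by
          rw [← Finset.sum_mul, F4_cn]
      _ ≤ 2 * T ^ 2 := mul_le_mul_of_nonneg_right (comm_nb hk hwv) (sq_nonneg _)

private theorem F4_two (T : ℝ) (c : Fin q) (v w : Site d k) (h : Site d k → Fin q) (γ γ' : Fin q) (h1 : γ ≠ c)
    (h2 : γ' ≠ c) : F4_F T c v (Function.update h w γ) = F4_F T c v (Function.update h w γ') := by
  unfold F4_F
  refine Finset.sum_congr rfl fun σ _ => ?_
  rw [F4_nfx_congr]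
  intro τ _
  by_cases h3 : v + sv σ + sv τ = w
  · rw [h3, Function.update_self, Function.update_self]
    exact ⟨fun h => absurd h h1, fun h => absurd h h2⟩
  · rw [Function.update_of_ne h3, Function.update_of_ne h3]

private theorem F4_Wcard (v : Site d k) : ((F4_W v).card : ℝ) ≤ 4 * (d : ℝ) ^ 2 := by
  classical
  have h1 : (F4_W v).card ≤ (univ : Finset (Stp d × Stp d)).card := by
    unfold F4_W
    exact card_image_le
  have h2 : ((univ : Finset (Stp d × Stp d)).card : ℝ) = 4 * (d : ℝ) ^ 2 := by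
    rw [card_univ, Fintype.card_prod]
    push_cast
    rw [F4_card]
    ring
  rw [← h2]
  exact_mod_cast h1

private theorem F4_hh (hq : 1 ≤ q) {f : Site d k → Fin q} {v : Site d k} (c : Fin q)
    (hR : ∀ σ τ : Stp d, (q : ℝ) / 3 ≤ av f (v + sv σ + sv τ)) (σ : Stp d) : THR.hh c f (v + sv σ) ≤ 3 * ra d q := by
  have hq0 : (0 : ℝ) < q := by exact_mod_cast hq
  have h1 : ∀ τ : Stp d, zz f (v + sv σ + sv τ) c / (av f (v + sv σ + sv τ) : ℝ) ≤ 3 / q := by
    intro τ
    have h2 := hR σ τ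
    have h3 : (0 : ℝ) < av f (v + sv σ + sv τ) := lt_of_lt_of_le (by positivity) h2
    have h4 : zz f (v + sv σ + sv τ) c ≤ 1 := by
      unfold zz
      split_ifs <;> norm_num
    rw [div_le_div_iff₀ h3 hq0]
    nlinarith
  unfold THR.hh
  calc ∑ τ : Stp d, zz f (v + sv σ + sv τ) c / (av f (v + sv σ + sv τ) : ℝ) ≤ ∑ _τ : Stp d, (3 : ℝ) / q :=
        Finset.sum_le_sum fun τ _ => h1 τ
    _ = 3 * ra d q := by
        rw [Finset.sum_const, nsmul_eq_mul, Finset.card_univ, F4_card]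
        unfold ra
        ring

private theorem F4_mean (hk : 3 ≤ k) (hq : 1 ≤ q) {T : ℝ} (hT : 0 ≤ T) {b : Bool} {f : Site d k → Fin q} (hf : Prp f)
    {v : Site d k} (hv : v ∈ cls b d k) (c : Fin q)
    (hR : ∀ σ τ : Stp d, (q : ℝ) / 3 ≤ av f (v + sv σ + sv τ)) :
    fm b (F4_F T c v) f ≤ 2 * d * (3 * ra d q + 9 * ra d q ^ 2) := by
  have h1 : fm b (F4_F T c v) f = ∑ σ : Stp d, fm b (fun h => min (nfx c h (v + sv σ) v) T ^ 2) f := by
    unfold F4_F
    exact fm_sum b f univ fun σ h => min (nfx c h (v + sv σ) v) T ^ 2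
  rw [h1]
  have h2 : ∀ σ : Stp d, fm b (fun h => min (nfx c h (v + sv σ) v) T ^ 2) f ≤ 3 * ra d q + 9 * ra d q ^ 2 := by
    intro σ
    have h3 : fm b (fun h => min (nfx c h (v + sv σ) v) T ^ 2) f ≤ fm b (fun h => nfx c h (v + sv σ) v ^ 2) f := by
      refine fm_mono b hf fun h _ => ?_
      exact pow_le_pow_left₀ (le_min (F4_nfx_nonneg _ _ _ _) hT) (min_le_left _ _) 2
    have h4 := nfx_sq hk hf hv c σ
    have h5 := F4_hh hq c hR σ
    have h6 := hh_nonneg c f (v + sv σ)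
    have h7 : THR.hh c f (v + sv σ) ^ 2 ≤ (3 * ra d q) ^ 2 := pow_le_pow_left₀ h6 h5 2
    nlinarith
  calc ∑ σ : Stp d, fm b (fun h => min (nfx c h (v + sv σ) v) T ^ 2) f
      ≤ ∑ _σ : Stp d, (3 * ra d q + 9 * ra d q ^ 2) := Finset.sum_le_sum fun σ _ => h2 σ
    _ = 2 * d * (3 * ra d q + 9 * ra d q ^ 2) := by
        rw [Finset.sum_const, nsmul_eq_mul, Finset.card_univ, F4_card]

private theorem F4_tail (hk : 3 ≤ k) (hq : 1 ≤ q) (T : ℝ) {b : Bool} {f : Site d k → Fin q} (hf : Prp f)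
    {v : Site d k} (hv : v ∈ cls b d k) (c : Fin q)
    (hR : ∀ σ τ : Stp d, (q : ℝ) / 3 ≤ av f (v + sv σ + sv τ)) (σ : Stp d) :
    fm b (fun h => ind (T < nfx c h (v + sv σ) v)) f ≤ Real.exp (-T) * Real.exp (6 * ra d q) := by
  have h1 : fm b (fun h => ind (T < nfx c h (v + sv σ) v)) f ≤
      fm b (fun h => Real.exp (-T) * Real.exp (1 * nfx c h (v + sv σ) v)) f := by
    refine fm_mono b hf fun h _ => ?_
    by_cases h2 : T < nfx c h (v + sv σ) v
    · rw [F4_ind_true h2, ← Real.exp_add]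
      exact Real.one_le_exp (by linarith)
    · rw [F4_ind_false h2]
      positivity
  rw [fm_mul] at h1
  have h2 := nfx_exp hk hf hv c σ 1 zero_le_one
  have h3 := F4_hh hq c hR σ
  have h4 := hh_nonneg c f (v + sv σ)
  have h5 : (Real.exp 1 - 1) * THR.hh c f (v + sv σ) ≤ 6 * ra d q := by
    have h6 := Real.exp_one_lt_d9
    have h7 : Real.exp 1 - 1 ≤ 2 := by linarith
    calc (Real.exp 1 - 1) * THR.hh c f (v + sv σ) ≤ 2 * THR.hh c f (v + sv σ) :=
          mul_le_mul_of_nonneg_right h7 h4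
      _ ≤ 6 * ra d q := by linarith
  refine h1.trans (mul_le_mul_of_nonneg_left (h2.trans (Real.exp_le_exp.2 h5)) (Real.exp_pos _).le)

private theorem F4_dev (hk : 3 ≤ k) (hd : 1 ≤ d) (hRg : Rg d q) {T : ℝ} (hT : 1 ≤ T) (hTd : T ^ 16 = d) {b : Bool}
    {f : Site d k → Fin q} (hf : Prp f) {v : Site d k} (c : Fin q)
    (hR : ∀ σ τ : Stp d, (q : ℝ) / 3 ≤ av f (v + sv σ + sv τ)) :
    fm b (fun h => ind (10 * ra d q ^ 2 * (2 * d) ≤ |F4_F T c v h - fm b (F4_F T c v) f|)) f ≤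
      2 * Real.exp (-T) := by
  obtain ⟨hq, ha1, ha2, haq, -, -, -, -, -⟩ := rg_pos hd hRg
  have hq0 : (0 : ℝ) < q := by exact_mod_cast hq
  have hT0 : (0 : ℝ) < T := by linarith
  have hd0 : (0 : ℝ) < d := by exact_mod_cast hd
  have h := fm_bern (by omega : 2 ≤ k) b hf c (F4_F T c v) (F4_W v) (2 * T ^ 2) (3 / q) (1 / (2 * T ^ 4))
    (10 * ra d q ^ 2 * (2 * d)) (by positivity) (by positivity) (by positivity)
    (by
      have h1 : 1 / (2 * T ^ 4) * (2 * T ^ 2) = 1 / T ^ 2 := by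
        field_simp
      rw [h1, div_le_one (by positivity)]
      exact one_le_pow₀ hT)
    (fun h _ w _ hw γ _ => F4_far T c v w hw h γ)
    (fun h _ w _ _ γ _ => F4_lip hk hT0.le c v w h γ)
    (fun h _ w _ γ γ' _ _ h1 h2 => F4_two T c v w h γ γ' h1 h2)
    (by
      intro w _ hw
      classical
      unfold F4_W at hw
      rw [mem_image] at hw
      obtain ⟨p, -, rfl⟩ := hw
      have h2 := hR p.1 p.2
      have h3 : (0 : ℝ) < av f (v + sv p.1 + sv p.2) := lt_of_lt_of_le (by positivity) h2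
      rw [div_le_div_iff₀ h3 hq0]
      linarith)
  refine h.trans ?_
  refine mul_le_mul_of_nonneg_left (Real.exp_le_exp.2 ?_) (by norm_num)
  set a : ℝ := ra d q with ha
  have hW := F4_Wcard (d := d) (k := k) v
  have e1 : 1 / (2 * T ^ 4) * (10 * a ^ 2 * (2 * d)) = 10 * a ^ 2 * T ^ 12 := by
    rw [← hTd]
    field_simp
  have hdq : 12 * (d : ℝ) ^ 2 / q = 6 * a * d := by
    have h5 : (d : ℝ) = a * q / 2 := by linarith
    have h6 : (d : ℝ) ^ 2 = d * (a * q / 2) := by rw [sq]; nth_rewrite 2 [h5]; rfl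
    rw [h6]
    field_simp
    ring
  have e2 : (1 / (2 * T ^ 4)) ^ 2 * (2 * T ^ 2) ^ 2 * (3 / q) * (4 * (d : ℝ) ^ 2) = 6 * a * T ^ 12 := by
    have h5 : (1 / (2 * T ^ 4)) ^ 2 * (2 * T ^ 2) ^ 2 * (3 / q) * (4 * (d : ℝ) ^ 2) =
        (12 * (d : ℝ) ^ 2 / q) / T ^ 4 := by
      field_simp
      ring
    rw [h5, hdq, ← hTd]
    field_simp
  have e3' : (1 / (2 * T ^ 4)) ^ 2 * (2 * T ^ 2) ^ 2 * (3 / q) * ((F4_W v).card : ℝ) ≤ 6 * a * T ^ 12 := by
    rw [← e2]
    exact mul_le_mul_of_nonneg_left hW (by positivity)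
  rw [e1]
  have h7 : T ≤ T ^ 12 := le_self_pow₀ hT (by norm_num)
  have h8 : 0 < T ^ 12 := by positivity
  have h9 : 1 ≤ 10 * a ^ 2 - 6 * a := by nlinarith
  nlinarith

private theorem F4_asym (K : ℕ) : ∀ᶠ d : ℕ in atTop,
    4 * Real.exp 12000 * (d : ℝ) ^ (K + 2) ≤ Real.exp ((d : ℝ) ^ (1 / 16 : ℝ)) := by
  have h1 := Real.tendsto_pow_mul_exp_neg_atTop_nhds_zero (16 * (K + 2))
  have h2 : Tendsto (fun d : ℕ => ((d : ℝ)) ^ (1 / 16 : ℝ)) atTop atTop :=
    (tendsto_rpow_atTop (by norm_num)).comp tendsto_natCast_atTop_atTop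
  have h3 := h1.comp h2
  have h4 : (0 : ℝ) < 1 / (4 * Real.exp 12000) := by positivity
  filter_upwards [h3.eventually_le_const h4] with d hd
  simp only [Function.comp_apply] at hd
  have h5 : ((d : ℝ) ^ (1 / 16 : ℝ)) ^ (16 * (K + 2)) = (d : ℝ) ^ (K + 2) := by
    rw [pow_mul, ← Real.rpow_natCast ((d : ℝ) ^ (1 / 16 : ℝ)) 16, ← Real.rpow_mul (Nat.cast_nonneg _)]
    norm_num
  rw [h5, Real.exp_neg, ← div_eq_mul_inv, div_le_iff₀ (Real.exp_pos _), one_div, mul_comm _ (Real.exp _),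
    ← div_eq_mul_inv, le_div_iff₀ (by positivity)] at hd
  linarith

private theorem F4_hp (hk : 3 ≤ k) (hd : 1 ≤ d) (hRg : Rg d q) {T : ℝ} (hT : 1 ≤ T) (hTd : T ^ 16 = d) {b : Bool}
    {f : Site d k → Fin q} (hf : Prp f) {v : Site d k} (hv : v ∈ cls b d k)
    (hR : ∀ σ τ : Stp d, (q : ℝ) / 3 ≤ av f (v + sv σ + sv τ)) :
    fm b (fun h => ind (∃ c : Fin q, 20 * ra d q ^ 2 * (2 * d) < ∑ σ : Stp d, nfx c h (v + sv σ) v ^ 2)) f ≤
      4 * (d : ℝ) ^ 2 * Real.exp 12000 * Real.exp (-T) := by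
  obtain ⟨hq, ha1, ha2, haq, -, -, -, -, -⟩ := rg_pos hd hRg
  have hq0 : (0 : ℝ) < q := by exact_mod_cast hq
  have hT0 : (0 : ℝ) < T := by linarith
  have hd0 : (0 : ℝ) < d := by exact_mod_cast hd
  have hd1 : (1 : ℝ) ≤ d := by exact_mod_cast hd
  have hqd : (q : ℝ) ≤ d := by nlinarith
  have h1 : fm b (fun h => ind (∃ c : Fin q, 20 * ra d q ^ 2 * (2 * d) < ∑ σ : Stp d, nfx c h (v + sv σ) v ^ 2)) f ≤
      fm b (fun h => ∑ c : Fin q, (∑ σ : Stp d, ind (T < nfx c h (v + sv σ) v) +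
        ind (10 * ra d q ^ 2 * (2 * d) ≤ |F4_F T c v h - fm b (F4_F T c v) f|))) f := by
    refine fm_mono b hf fun h _ => ?_
    have hnn : ∀ c : Fin q, 0 ≤ ∑ σ : Stp d, ind (T < nfx c h (v + sv σ) v) +
        ind (10 * ra d q ^ 2 * (2 * d) ≤ |F4_F T c v h - fm b (F4_F T c v) f|) := fun c =>
      add_nonneg (Finset.sum_nonneg fun σ _ => F4_ind_nonneg _) (F4_ind_nonneg _)
    by_cases hB : ∃ c : Fin q, 20 * ra d q ^ 2 * (2 * d) < ∑ σ : Stp d, nfx c h (v + sv σ) v ^ 2
    · rw [F4_ind_true hB]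
      obtain ⟨c, hc⟩ := hB
      refine le_trans ?_ (Finset.single_le_sum (f := fun c : Fin q => ∑ σ : Stp d, ind (T < nfx c h (v + sv σ) v) +
        ind (10 * ra d q ^ 2 * (2 * d) ≤ |F4_F T c v h - fm b (F4_F T c v) f|)) (fun c _ => hnn c) (mem_univ c))
      by_cases hσ : ∃ σ : Stp d, T < nfx c h (v + sv σ) v
      · obtain ⟨σ, hσ⟩ := hσ
        have h2 := Finset.single_le_sum (f := fun σ : Stp d => ind (T < nfx c h (v + sv σ) v))
          (fun σ _ => F4_ind_nonneg _) (mem_univ σ)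
        rw [F4_ind_true hσ] at h2
        have h3 := F4_ind_nonneg (10 * ra d q ^ 2 * (2 * d) ≤ |F4_F T c v h - fm b (F4_F T c v) f|)
        linarith
      · push Not at hσ
        have h2 : F4_F T c v h = ∑ σ : Stp d, nfx c h (v + sv σ) v ^ 2 := by
          unfold F4_F
          refine Finset.sum_congr rfl fun σ _ => ?_
          rw [min_eq_left (hσ σ)]
        have h3 := F4_mean hk hq hT0.le hf hv c hR
        have h4 : 3 * ra d q + 9 * ra d q ^ 2 ≤ 10 * ra d q ^ 2 := by nlinarith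
        have h5 : 10 * ra d q ^ 2 * (2 * d) ≤ |F4_F T c v h - fm b (F4_F T c v) f| := by
          refine le_trans ?_ (le_abs_self _)
          rw [h2]
          have h6 : 2 * (d : ℝ) * (3 * ra d q + 9 * ra d q ^ 2) ≤ 2 * d * (10 * ra d q ^ 2) :=
            mul_le_mul_of_nonneg_left h4 (by positivity)
          linarith
        rw [F4_ind_true h5]
        have h6 : 0 ≤ ∑ σ : Stp d, ind (T < nfx c h (v + sv σ) v) := Finset.sum_nonneg fun σ _ => F4_ind_nonneg _
        linarith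
    · rw [F4_ind_false hB]
      exact Finset.sum_nonneg fun c _ => hnn c
  refine h1.trans ?_
  rw [fm_sum]
  have h2 : ∀ c : Fin q, fm b (fun h => ∑ σ : Stp d, ind (T < nfx c h (v + sv σ) v) +
        ind (10 * ra d q ^ 2 * (2 * d) ≤ |F4_F T c v h - fm b (F4_F T c v) f|)) f ≤
      2 * d * (Real.exp (-T) * Real.exp 12000) + 2 * Real.exp (-T) := by
    intro c
    rw [fm_add, fm_sum]
    refine add_le_add ?_ (F4_dev hk hd hRg hT hTd hf c hR)
    calc ∑ σ : Stp d, fm b (fun h => ind (T < nfx c h (v + sv σ) v)) f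
        ≤ ∑ _σ : Stp d, (Real.exp (-T) * Real.exp 12000) := by
          refine Finset.sum_le_sum fun σ _ => (F4_tail hk hq T hf hv c hR σ).trans ?_
          refine mul_le_mul_of_nonneg_left (Real.exp_le_exp.2 ?_) (Real.exp_pos _).le
          linarith
      _ = 2 * d * (Real.exp (-T) * Real.exp 12000) := by
          rw [Finset.sum_const, nsmul_eq_mul, Finset.card_univ, F4_card]
  calc ∑ c : Fin q, fm b (fun h => ∑ σ : Stp d, ind (T < nfx c h (v + sv σ) v) +
        ind (10 * ra d q ^ 2 * (2 * d) ≤ |F4_F T c v h - fm b (F4_F T c v) f|)) f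
      ≤ ∑ _c : Fin q, (2 * d * (Real.exp (-T) * Real.exp 12000) + 2 * Real.exp (-T)) :=
        Finset.sum_le_sum fun c _ => h2 c
    _ = q * (2 * d * (Real.exp (-T) * Real.exp 12000) + 2 * Real.exp (-T)) := by
        rw [Finset.sum_const, nsmul_eq_mul, Finset.card_univ, Fintype.card_fin]
    _ ≤ d * (2 * d * (Real.exp (-T) * Real.exp 12000) + 2 * d * (Real.exp (-T) * Real.exp 12000)) := by
        have h3 : (1 : ℝ) ≤ Real.exp 12000 := Real.one_le_exp (by norm_num)
        have h4 : 2 * Real.exp (-T) ≤ 2 * d * (Real.exp (-T) * Real.exp 12000) := by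
          have h5 : Real.exp (-T) ≤ Real.exp (-T) * Real.exp 12000 :=
            le_mul_of_one_le_right (Real.exp_pos _).le h3
          have h6 : 2 * (Real.exp (-T)) ≤ 2 * (Real.exp (-T) * Real.exp 12000) := by linarith
          have h7 : 0 ≤ Real.exp (-T) * Real.exp 12000 := by positivity
          nlinarith
        refine mul_le_mul hqd (add_le_add le_rfl h4) (by positivity) hd0.le
    _ = 4 * (d : ℝ) ^ 2 * Real.exp 12000 * Real.exp (-T) := by ring

theorem f4_pt : SR fun d _ q f v => ∃ c : Fin q, 20 * ra d q ^ 2 * (2 * d) < ∑ σ : Stp d, nfx c f (v + sv σ) v ^ 2 := by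
  have he0 : (0 : ℝ) < e3 := by unfold e3; norm_num
  have he1 : e3 ≤ (1 : ℝ) := by unfold e3; norm_num
  refine SR_local true 3 (fun d _ q f v => ∀ σ τ : Stp d, (q : ℝ) / 3 ≤ av f (v + sv σ + sv τ)) _ ?_ ?_ ?_ ?_ ?_
  · refine (q3_pt.nb.nb).mono ((EvT_d (P := fun _ => True) (Filter.Eventually.of_forall fun _ => trivial)).mono ?_)
    intro d k q _ _ f _ v hv
    push Not at hv
    exact hv
  · intro d k q f g v h
    have h1 : ∀ σ τ : Stp d, av f (v + sv σ + sv τ) = av g (v + sv σ + sv τ) := by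
      intro σ τ
      refine (loc_av fun u hu => h u ?_).2.1
      have h2 : nr 1 v (v + sv σ) := nr_step v σ
      have h3 : nr 1 (v + sv σ) (v + sv σ + sv τ) := nr_step _ τ
      have h4 := nr_trans (nr_trans h2 h3) hu
      exact h4
    constructor
    · intro h2 σ τ
      rw [← h1]
      exact h2 σ τ
    · intro h2 σ τ
      rw [h1]
      exact h2 σ τ
  · intro d k q f g v h
    have h1 : ∀ (c : Fin q) (σ : Stp d), nfx c f (v + sv σ) v = nfx c g (v + sv σ) v := by
      intro c σ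
      refine F4_nfx_congr fun τ _ => ?_
      have h2 : nr 1 v (v + sv σ) := nr_step v σ
      have h3 : nr 1 (v + sv σ) (v + sv σ + sv τ) := nr_step _ τ
      rw [h _ (nr_mono (by norm_num : 2 ≤ 3) (nr_trans h2 h3))]
    simp only [h1]
  · refine (EvT_reg he0 he1 1).mono ?_
    rintro d k q ⟨-, -, hk, -⟩ _ f _ b v hv h hh
    have hk1 : 1 ≤ k := by exact_mod_cast hk
    have hh' : h ∈ fib b f := hh
    have h1 : ∀ σ τ : Stp d, av h (v + sv σ + sv τ) = av f (v + sv σ + sv τ) := by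
      intro σ τ
      have h2 : v + sv σ + sv τ ∈ cls b d k := by
        rw [mem_cls_step hk1, mem_cls_step hk1, Bool.not_not]
        exact hv
      unfold av
      rw [fib_SS hk1 b hh' _ h2]
    simp only [h1]
  · intro K
    refine ((EvT_reg he0 he1 3).and (EvT_d (F4_asym K))).mono ?_
    rintro d k q ⟨⟨hd, -, hk, -⟩, has⟩ hRg f hf b v hv hR
    have hk3 : 3 ≤ k := by exact_mod_cast hk
    have hd3 : 3 ≤ d := by exact_mod_cast hd
    have hf' : Prp f := by
      classical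
      unfold prps at hf
      rw [mem_filter] at hf
      exact hf.2
    have hd0 : (0 : ℝ) < d := by linarith
    have hT : 1 ≤ (d : ℝ) ^ (1 / 16 : ℝ) := Real.one_le_rpow (by linarith) (by norm_num)
    have hTd : ((d : ℝ) ^ (1 / 16 : ℝ)) ^ 16 = d := by
      rw [← Real.rpow_natCast ((d : ℝ) ^ (1 / 16 : ℝ)) 16, ← Real.rpow_mul hd0.le]
      norm_num
    have h1 := F4_hp hk3 (by omega) hRg hT hTd hf' hv hR
    refine le_trans h1 ?_
    rw [Real.exp_neg, le_div_iff₀ (by positivity), ← div_eq_mul_inv, div_mul_eq_mul_div,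
      div_le_one (Real.exp_pos _)]
    refine le_trans (le_of_eq ?_) has
    rw [pow_add]
    ring

end Pool.Agent.LC

end

/-! ### from `Lib_MP_2c424f_lc1.F2` -/

section

/-!
# LC1 F2: fourth moment of the numbers of neighbours of one colour

`SR_local`, `o = false`, `R f v := ∀ σ, q/3 ≤ av f (v+σ)` (`q3_pt.nb`; `av f (v+σ)` does not change on the fibre of `!b`), radius 2.  On `R`: `hh c f v ≤ 2d * 3/q = 3a`.  `T := d^{1/16}`.
`P(∃ c, T < nf c) ≤ q e^{-T} e^{2 * 3a}` (`nf_exp` with `x = 1`).  `F h := ∑_c min (nf c h v) T ^ 4`: mean `≤ 200 a⁴ q` (`nf_four`); a neighbour changes `F` by at most `2 T⁴`; `fm_mcd` with `S = 2d (2T⁴)²`, `θ = 400 a⁴ q`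
(`θ 2T⁴ ≤ 2S` for `d` large): `2 exp (-c d/T⁸) = 2 exp (-c d^{1/2})`.  `ind B ≤ ind (∃ c, T < nf c) + ind (θ ≤ |F - mean|)`.
-/

set_option autoImplicit false

open Finset Filter

namespace Pool.Agent.LC

open Pool.Agent.LO Pool.Agent.LIN Pool.Agent.THR Pool.Agent.COR

private theorem F2_ind_nonneg (P : Prop) : 0 ≤ ind P := by
  unfold ind
  split_ifs <;> norm_num

private theorem F2_ind_le_one (P : Prop) : ind P ≤ 1 := by
  unfold ind
  split_ifs <;> norm_num

private theorem F2_ind_true {P : Prop} (h : P) : ind P = 1 := by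
  unfold ind
  rw [if_pos h]

private theorem F2_ind_false {P : Prop} (h : ¬ P) : ind P = 0 := by
  unfold ind
  rw [if_neg h]

section
variable {d k q : ℕ}

private theorem F2_card : (Fintype.card (Stp d) : ℝ) = 2 * d := by
  rw [Fintype.card_prod, Fintype.card_fin, Fintype.card_bool]
  push_cast
  ring

private theorem F2_nf_nonneg (c : Fin q) (f : Site d k → Fin q) (v : Site d k) : 0 ≤ nf c f v := by
  unfold nf
  positivity

private theorem F2_nf_congr {f g : Site d k → Fin q} {v : Site d k} (c : Fin q)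
    (h : ∀ σ : Stp d, f (v + sv σ) = c ↔ g (v + sv σ) = c) : nf c f v = nf c g v := by
  unfold nf
  congr 2
  exact Finset.filter_congr fun σ _ => h σ

/-- the truncated statistic -/
private noncomputable def F2_F (T : ℝ) (v : Site d k) (h : Site d k → Fin q) : ℝ :=
  ∑ c : Fin q, min (nf c h v) T ^ 4

private theorem F2_term {T x : ℝ} (hT : 0 ≤ T) (hx : 0 ≤ x) : 0 ≤ min x T ^ 4 ∧ min x T ^ 4 ≤ T ^ 4 := by
  have h0 : 0 ≤ min x T := le_min hx hT
  exact ⟨by positivity, pow_le_pow_left₀ h0 (min_le_right _ _) 4⟩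

private theorem F2_upd {T : ℝ} (hT : 0 ≤ T) (v u : Site d k) (h : Site d k → Fin q) (γ : Fin q) :
    |F2_F T v (Function.update h u γ) - F2_F T v h| ≤ if ∃ σ : Stp d, u = v + sv σ then 2 * T ^ 4 else 0 := by
  classical
  split_ifs with hu
  · unfold F2_F
    rw [← Finset.sum_sub_distrib]
    have h1 : ∀ c : Fin q, |min (nf c (Function.update h u γ) v) T ^ 4 - min (nf c h v) T ^ 4| ≤
        if c ∈ ({γ, h u} : Finset (Fin q)) then T ^ 4 else 0 := by
      intro c
      split_ifs with hc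
      · have a1 := F2_term hT (F2_nf_nonneg c (Function.update h u γ) v)
        have a2 := F2_term hT (F2_nf_nonneg c h v)
        rw [abs_le]
        constructor <;> linarith [a1.1, a1.2, a2.1, a2.2]
      · rw [Finset.mem_insert, Finset.mem_singleton, not_or] at hc
        have h2 : nf c (Function.update h u γ) v = nf c h v := by
          apply F2_nf_congr
          intro σ
          by_cases hσ : v + sv σ = u
          · rw [hσ, Function.update_self]
            exact ⟨fun h3 => absurd h3.symm hc.1, fun h3 => absurd h3.symm hc.2⟩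
          · rw [Function.update_of_ne hσ]
        rw [h2, sub_self, abs_zero]
    calc |∑ c : Fin q, (min (nf c (Function.update h u γ) v) T ^ 4 - min (nf c h v) T ^ 4)|
        ≤ ∑ c : Fin q, |min (nf c (Function.update h u γ) v) T ^ 4 - min (nf c h v) T ^ 4| :=
          Finset.abs_sum_le_sum_abs _ _
      _ ≤ ∑ c : Fin q, (if c ∈ ({γ, h u} : Finset (Fin q)) then T ^ 4 else 0) :=
          Finset.sum_le_sum fun c _ => h1 c
      _ = (({γ, h u} : Finset (Fin q)).card : ℝ) * T ^ 4 := by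
          rw [Finset.sum_ite_mem, Finset.univ_inter, Finset.sum_const, nsmul_eq_mul]
      _ ≤ 2 * T ^ 4 := by
          apply mul_le_mul_of_nonneg_right _ (by positivity)
          have : ({γ, h u} : Finset (Fin q)).card ≤ 2 := Finset.card_le_two
          exact_mod_cast this
  · have h2 : ∀ c : Fin q, nf c (Function.update h u γ) v = nf c h v := by
      intro c
      apply F2_nf_congr
      intro σ
      have hσ : v + sv σ ≠ u := fun h3 => hu ⟨σ, h3.symm⟩
      rw [Function.update_of_ne hσ]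
    have h3 : F2_F T v (Function.update h u γ) = F2_F T v h := by
      unfold F2_F
      exact Finset.sum_congr rfl fun c _ => by rw [h2 c]
    rw [h3, sub_self, abs_zero]

private theorem F2_sq {T : ℝ} (v : Site d k) (b : Bool) :
    ∑ u ∈ cls b d k, (if ∃ σ : Stp d, u = v + sv σ then 2 * T ^ 4 else 0) ^ 2 ≤ 8 * d * T ^ 8 := by
  classical
  have h1 : ∀ u : Site d k, (if ∃ σ : Stp d, u = v + sv σ then 2 * T ^ 4 else 0) ^ 2 =
      if u ∈ (univ : Finset (Stp d)).image (fun σ => v + sv σ) then 4 * T ^ 8 else 0 := by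
    intro u
    by_cases hu : ∃ σ : Stp d, u = v + sv σ
    · rw [if_pos hu, if_pos]
      · ring
      · obtain ⟨σ, hσ⟩ := hu
        exact Finset.mem_image.2 ⟨σ, Finset.mem_univ _, hσ.symm⟩
    · rw [if_neg hu, if_neg]
      · ring
      · intro h
        obtain ⟨σ, _, hσ⟩ := Finset.mem_image.1 h
        exact hu ⟨σ, hσ.symm⟩
  rw [Finset.sum_congr rfl fun u _ => h1 u]
  calc ∑ u ∈ cls b d k, (if u ∈ (univ : Finset (Stp d)).image (fun σ => v + sv σ) then 4 * T ^ 8 else 0)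
      ≤ ∑ u, (if u ∈ (univ : Finset (Stp d)).image (fun σ => (v + sv σ : Site d k)) then 4 * T ^ 8 else 0) := by
        apply Finset.sum_le_sum_of_subset_of_nonneg (Finset.subset_univ _)
        intro u _ _
        split_ifs
        · positivity
        · exact le_refl _
    _ = (((univ : Finset (Stp d)).image (fun σ => (v + sv σ : Site d k))).card : ℝ) * (4 * T ^ 8) := by
        rw [Finset.sum_ite_mem, Finset.univ_inter, Finset.sum_const, nsmul_eq_mul]
    _ ≤ (2 * d) * (4 * T ^ 8) := by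
        apply mul_le_mul_of_nonneg_right _ (by positivity)
        rw [← F2_card]
        have : ((univ : Finset (Stp d)).image (fun σ => (v + sv σ : Site d k))).card ≤ Fintype.card (Stp d) :=
          Finset.card_image_le
        exact_mod_cast this
    _ = 8 * d * T ^ 8 := by ring

private theorem F2_core (hd : 1 ≤ d) (hk : 3 ≤ k) (hR : Rg d q) {b : Bool} {f : Site d k → Fin q} (hf : Prp f)
    {v : Site d k} (hv : v ∈ cls b d k) (hav : ∀ σ : Stp d, (q : ℝ) / 3 ≤ av f (v + sv σ))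
    (T : ℝ) (hT1 : 1000 ≤ T) (hT : T ^ 16 = d) :
    fm (!b) (fun h => ind (1000 * ra d q ^ 4 * q < ∑ c : Fin q, nf c h v ^ 4)) f ≤
      d * Real.exp 12000 * Real.exp (-T) + 2 * Real.exp (-T) := by
  obtain ⟨hq, ha1, ha2, h2d, _, hqd, _, _, _⟩ := rg_pos hd hR
  set a := ra d q with ha
  have hqr : (0 : ℝ) < q := by exact_mod_cast hq
  have hdr : (1 : ℝ) ≤ d := by exact_mod_cast hd
  have hT0 : 0 ≤ T := by linarith
  have hqd' : (q : ℝ) ≤ d := by nlinarith
  -- the fields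
  have hhc : ∀ c : Fin q, hh c f v ≤ 3 * a := by
    intro c
    have h1 : ∀ σ : Stp d, zz f (v + sv σ) c / (av f (v + sv σ) : ℝ) ≤ 3 / q := by
      intro σ
      have h2 := hav σ
      have h3 : (0 : ℝ) < av f (v + sv σ) := lt_of_lt_of_le (by positivity) h2
      rw [div_le_div_iff₀ h3 hqr]
      have h4 : zz f (v + sv σ) c ≤ 1 := by
        unfold zz
        split_ifs <;> norm_num
      have h5 : zz f (v + sv σ) c * q ≤ 1 * q := mul_le_mul_of_nonneg_right h4 hqr.le
      linarith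
    unfold THR.hh
    calc ∑ σ : Stp d, zz f (v + sv σ) c / (av f (v + sv σ) : ℝ) ≤ ∑ σ : Stp d, (3 / q : ℝ) :=
          Finset.sum_le_sum fun σ _ => h1 σ
      _ = 2 * d * (3 / q) := by
          rw [Finset.sum_const, nsmul_eq_mul, Finset.card_univ, F2_card]
      _ = 3 * a := by
          rw [ha]
          unfold ra
          ring
  -- large numbers of neighbours
  have hbig : ∀ c : Fin q, fm (!b) (fun h => ind (T < nf c h v)) f ≤ Real.exp 12000 * Real.exp (-T) := by
    intro c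
    have h1 : fm (!b) (fun h => ind (T < nf c h v)) f ≤
        fm (!b) (fun h => Real.exp (-T) * Real.exp (1 * nf c h v)) f := by
      apply fm_mono _ hf
      intro h _
      by_cases hc : T < nf c h v
      · rw [F2_ind_true hc, ← Real.exp_add]
        apply Real.one_le_exp
        linarith
      · rw [F2_ind_false hc]
        positivity
    rw [fm_mul] at h1
    have h2 := nf_exp hk hf hv c 1 zero_le_one
    have h3 : (Real.exp 1 - 1) * hh c f v ≤ 12000 := by
      have h4 := Real.exp_one_lt_d9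
      have h5 := Real.one_le_exp (zero_le_one : (0 : ℝ) ≤ 1)
      have h6 : (Real.exp 1 - 1) * hh c f v ≤ (Real.exp 1 - 1) * 6000 := by
        apply mul_le_mul_of_nonneg_left _ (by linarith)
        linarith [hhc c]
      linarith
    have h7 := Real.exp_le_exp.2 h3
    calc fm (!b) (fun h => ind (T < nf c h v)) f ≤
        Real.exp (-T) * fm (!b) (fun h => Real.exp (1 * nf c h v)) f := h1
      _ ≤ Real.exp (-T) * Real.exp 12000 :=
          mul_le_mul_of_nonneg_left (h2.trans h7) (Real.exp_pos _).le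
      _ = Real.exp 12000 * Real.exp (-T) := mul_comm _ _
  -- the mean
  have hmean : fm (!b) (F2_F T v) f ≤ 200 * a ^ 4 * q := by
    have h1 : fm (!b) (F2_F T v) f = ∑ c : Fin q, fm (!b) (fun h => min (nf c h v) T ^ 4) f := by
      rw [← fm_sum]
      rfl
    rw [h1]
    calc ∑ c : Fin q, fm (!b) (fun h => min (nf c h v) T ^ 4) f ≤ ∑ c : Fin q, 200 * a ^ 4 := by
          refine Finset.sum_le_sum fun c _ => ?_
          refine le_trans (fm_mono _ hf fun h _ => ?_) (nf_four hk hf hv c ha1 (hhc c))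
          exact pow_le_pow_left₀ (le_min (F2_nf_nonneg c h v) hT0) (min_le_left _ _) 4
      _ = 200 * a ^ 4 * q := by
          rw [Finset.sum_const, nsmul_eq_mul, Finset.card_univ, Fintype.card_fin]
          ring
  have hmean0 : 0 ≤ fm (!b) (F2_F T v) f := by
    have h1 := fm_const (!b) hf (0 : ℝ)
    rw [← h1]
    apply fm_mono _ hf
    intro h _
    unfold F2_F
    exact Finset.sum_nonneg fun c _ => (F2_term hT0 (F2_nf_nonneg c h v)).1
  -- deviations
  have hapos : (0 : ℝ) < a := by linarith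
  have hθ : (400 * a ^ 4 * q : ℝ) = 800 * a ^ 3 * d := by
    have : (400 * a ^ 4 * q : ℝ) = 400 * a ^ 3 * (a * q) := by ring
    rw [this, ← h2d]
    ring
  have ha3 : (10 : ℝ) ^ 9 ≤ a ^ 3 := by
    calc (10 : ℝ) ^ 9 = 1000 ^ 3 := by norm_num
      _ ≤ a ^ 3 := pow_le_pow_left₀ (by norm_num) ha1 3
  have ha3' : a ^ 3 ≤ 8 * 10 ^ 9 := by
    calc a ^ 3 ≤ 2000 ^ 3 := pow_le_pow_left₀ hapos.le ha2 3
      _ = 8 * 10 ^ 9 := by norm_num
  have hT4 : (10 : ℝ) ^ 12 ≤ T ^ 4 := by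
    calc (10 : ℝ) ^ 12 = 1000 ^ 4 := by norm_num
      _ ≤ T ^ 4 := pow_le_pow_left₀ (by norm_num) hT1 4
  have hT8 : T ≤ T ^ 8 := by
    calc T = T ^ 1 := (pow_one T).symm
      _ ≤ T ^ 8 := pow_le_pow_right₀ (by linarith) (by norm_num)
  have hdev := fm_mcd (by omega : 2 ≤ k) (!b) hf (F2_F T v)
    (fun u => if ∃ σ : Stp d, u = v + sv σ then 2 * T ^ 4 else 0)
    (fun u => by
      split_ifs
      · positivity
      · exact le_refl _)
    (fun h _ u _ γ _ => F2_upd hT0 v u h γ) (8 * d * T ^ 8) (400 * a ^ 4 * q) (F2_sq v (!b)) (by positivity)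
    (by positivity) (by
      intro u _
      beta_reduce
      split_ifs
      · rw [hθ]
        have h1 : 800 * a ^ 3 ≤ 8 * T ^ 4 := by nlinarith
        have h2 : 800 * a ^ 3 * d * (2 * T ^ 4) = (800 * a ^ 3) * (2 * d * T ^ 4) := by ring
        rw [h2]
        calc (800 * a ^ 3) * (2 * d * T ^ 4) ≤ (8 * T ^ 4) * (2 * d * T ^ 4) :=
              mul_le_mul_of_nonneg_right h1 (by positivity)
          _ = 2 * (8 * d * T ^ 8) := by ring
      · rw [mul_zero]
        positivity)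
  have hexp : Real.exp (-((400 * a ^ 4 * q) ^ 2 / (4 * (8 * d * T ^ 8)))) ≤ Real.exp (-T) := by
    apply Real.exp_le_exp.2
    rw [neg_le_neg_iff, hθ, le_div_iff₀ (by positivity)]
    have h1 : T * (4 * (8 * d * T ^ 8)) ≤ 32 * (d * (T ^ 8 * T ^ 8)) := by
      have h2 : T * (4 * (8 * d * T ^ 8)) = 32 * (d * (T * T ^ 8)) := by ring
      rw [h2]
      have h3 : T * T ^ 8 ≤ T ^ 8 * T ^ 8 := mul_le_mul_of_nonneg_right hT8 (by positivity)
      have h4 : d * (T * T ^ 8) ≤ d * (T ^ 8 * T ^ 8) := mul_le_mul_of_nonneg_left h3 (by positivity)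
      linarith
    have h5 : T ^ 8 * T ^ 8 = d := by rw [← hT]; ring
    rw [h5] at h1
    have h6 : (32 : ℝ) ≤ (800 * a ^ 3) ^ 2 := by nlinarith
    have h7 : 32 * ((d : ℝ) * d) ≤ (800 * a ^ 3) ^ 2 * (d * d) := mul_le_mul_of_nonneg_right h6 (by positivity)
    calc T * (4 * (8 * d * T ^ 8)) ≤ 32 * ((d : ℝ) * d) := h1
      _ ≤ (800 * a ^ 3) ^ 2 * (d * d) := h7
      _ = (800 * a ^ 3 * d) ^ 2 := by ring
  -- the pointwise bound
  have hpt : fm (!b) (fun h => ind (1000 * a ^ 4 * q < ∑ c : Fin q, nf c h v ^ 4)) f ≤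
      fm (!b) (fun h => (∑ c : Fin q, ind (T < nf c h v)) +
        ind (400 * a ^ 4 * q ≤ |F2_F T v h - fm (!b) (F2_F T v) f|)) f := by
    apply fm_mono _ hf
    intro h _
    beta_reduce
    have hs0 : 0 ≤ ∑ c : Fin q, ind (T < nf c h v) := Finset.sum_nonneg fun c _ => F2_ind_nonneg _
    by_cases hB : 1000 * a ^ 4 * q < ∑ c : Fin q, nf c h v ^ 4
    · rw [F2_ind_true hB]
      by_cases hc : ∃ c : Fin q, T < nf c h v
      · obtain ⟨c, hc⟩ := hc
        have h1 : (1 : ℝ) ≤ ∑ c : Fin q, ind (T < nf c h v) := by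
          rw [← F2_ind_true hc]
          exact Finset.single_le_sum (f := fun c : Fin q => ind (T < nf c h v))
            (fun c _ => F2_ind_nonneg _) (Finset.mem_univ c)
        have h2 := F2_ind_nonneg (400 * a ^ 4 * q ≤ |F2_F T v h - fm (!b) (F2_F T v) f|)
        linarith
      · push Not at hc
        have h1 : F2_F T v h = ∑ c : Fin q, nf c h v ^ 4 := by
          unfold F2_F
          exact Finset.sum_congr rfl fun c _ => by rw [min_eq_left (hc c)]
        have h2 : 400 * a ^ 4 * q ≤ |F2_F T v h - fm (!b) (F2_F T v) f| := by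
          refine le_trans ?_ (le_abs_self _)
          rw [h1]
          have h3 : (0 : ℝ) ≤ a ^ 4 * q := by positivity
          linarith
        rw [F2_ind_true h2]
        linarith
    · rw [F2_ind_false hB]
      have h2 := F2_ind_nonneg (400 * a ^ 4 * q ≤ |F2_F T v h - fm (!b) (F2_F T v) f|)
      linarith
  refine hpt.trans ?_
  rw [fm_add, fm_sum]
  have h1 : ∑ c : Fin q, fm (!b) (fun h => ind (T < nf c h v)) f ≤ d * Real.exp 12000 * Real.exp (-T) := by
    calc ∑ c : Fin q, fm (!b) (fun h => ind (T < nf c h v)) f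
        ≤ ∑ _c : Fin q, Real.exp 12000 * Real.exp (-T) := Finset.sum_le_sum fun c _ => hbig c
      _ = q * (Real.exp 12000 * Real.exp (-T)) := by
          rw [Finset.sum_const, nsmul_eq_mul, Finset.card_univ, Fintype.card_fin]
      _ ≤ d * (Real.exp 12000 * Real.exp (-T)) := mul_le_mul_of_nonneg_right hqd' (by positivity)
      _ = d * Real.exp 12000 * Real.exp (-T) := by ring
  have h2 := hdev.trans (mul_le_mul_of_nonneg_left hexp (by norm_num))
  exact add_le_add h1 h2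

end

private theorem F2_large (K : ℕ) : ∀ᶠ d : ℕ in atTop, ∃ T : ℝ, 1000 ≤ T ∧ T ^ 16 = (d : ℝ) ∧
    (d : ℝ) * Real.exp 12000 * Real.exp (-T) + 2 * Real.exp (-T) ≤ 1 / (d : ℝ) ^ K := by
  have h1 : Tendsto (fun T : ℝ => Real.exp 12000 * (T ^ (16 * K + 16) * Real.exp (-T)) +
      2 * (T ^ (16 * K) * Real.exp (-T))) atTop (nhds (Real.exp 12000 * 0 + 2 * 0)) :=
    ((Real.tendsto_pow_mul_exp_neg_atTop_nhds_zero (16 * K + 16)).const_mul _).add
      ((Real.tendsto_pow_mul_exp_neg_atTop_nhds_zero (16 * K)).const_mul _)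
  rw [mul_zero, mul_zero, add_zero] at h1
  have h2 : ∀ᶠ T : ℝ in atTop, Real.exp 12000 * (T ^ (16 * K + 16) * Real.exp (-T)) +
      2 * (T ^ (16 * K) * Real.exp (-T)) < 1 := h1.eventually (gt_mem_nhds zero_lt_one)
  have h3 := h2.and (eventually_ge_atTop (1000 : ℝ))
  have h4 : Tendsto (fun d : ℕ => (d : ℝ) ^ (((16 : ℕ) : ℝ)⁻¹)) atTop atTop :=
    (tendsto_rpow_atTop (by norm_num)).comp tendsto_natCast_atTop_atTop
  refine (h4.eventually h3).mono fun d hd => ?_
  obtain ⟨hd1, hd2⟩ := hd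
  set T : ℝ := (d : ℝ) ^ (((16 : ℕ) : ℝ)⁻¹) with hT
  have h5 : T ^ 16 = (d : ℝ) := Real.rpow_inv_natCast_pow (Nat.cast_nonneg d) (by norm_num)
  refine ⟨T, hd2, h5, ?_⟩
  have hTp : (0 : ℝ) < T := by linarith
  rw [← h5, ← pow_mul, le_div_iff₀ (by positivity)]
  refine le_trans (le_of_eq ?_) hd1.le
  rw [pow_add]
  ring

theorem f2_pt : SR fun d _ q f v => 1000 * ra d q ^ 4 * q < ∑ c : Fin q, nf c f v ^ 4 := by
  have he : (0 : ℝ) < e3 ∧ e3 ≤ 1 := by
    unfold e3
    norm_num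
  refine SR_local false 2 (fun _ _ q f v => ∀ σ : Stp _, (q : ℝ) / 3 ≤ av f (v + sv σ))
    (fun d _ q f v => 1000 * ra d q ^ 4 * q < ∑ c : Fin q, nf c f v ^ 4) ?_ ?_ ?_ ?_ ?_
  · refine q3_pt.nb.mono ⟨0, fun d q _ _ _ => Eventually.of_forall fun k _ f _ v hv => ?_⟩
    push Not at hv
    exact hv
  · intro d k q f g v h
    have h1 : ∀ σ : Stp d, av f (v + sv σ) = av g (v + sv σ) := fun σ =>
      (loc_av fun u hu => h u (Or.inr ⟨σ, hu⟩)).2.1
    simp only [h1]
  · intro d k q f g v h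
    have h1 : ∀ c : Fin q, nf c f v = nf c g v := fun c =>
      F2_nf_congr c fun σ => by rw [h _ (nr_mono (by norm_num) (nr_step v σ))]
    simp only [h1]
  · refine (EvT_reg he.1 he.2 3).mono fun d k q hM _ f _ b v hv h hh => ?_
    have hk : 3 ≤ k := by exact_mod_cast hM.2.2.1
    have h1 : ∀ σ : Stp d, av h (v + sv σ) = av f (v + sv σ) := by
      intro σ
      have h2 : v + sv σ ∈ cls (!b) d k := by
        rw [mem_cls_step (by omega), Bool.not_not]
        exact hv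
      have h3 := fib_SS (by omega) (!b) hh _ h2
      unfold av
      rw [h3]
    simp only [h1]
  · intro K
    refine ((EvT_reg he.1 he.2 3).and (EvT_d (F2_large K))).mono fun d k q hM hR f hf b v hv hav => ?_
    obtain ⟨hM, T, hT1, hT, hle⟩ := hM
    have hk : 3 ≤ k := by exact_mod_cast hM.2.2.1
    have hd : 1 ≤ d := by
      have h1 : (3 : ℝ) ≤ d := hM.1
      have h2 : 3 ≤ d := by exact_mod_cast h1
      omega
    have hf' : Prp f := by
      classical
      unfold prps at hf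
      exact (Finset.mem_filter.1 hf).2
    exact (F2_core hd hk hR hf' hv hav T hT1 hT).trans hle

end Pool.Agent.LC

end

/-! ### from `Lib_MP_2c424f_lc1.F7` -/

section

/-!
# LC1 F7: the two theorems of Part I

`FG_pt`: `SR.or` of `f1_pt .. f5_pt`, `q3_pt`.
`typ'`: `typ_tpl (K+1) (exp (-2100))` and `TRK_of_SRK (FG_pt (K+1))`, `TRK.or`, `TRK.mono` with `ty_det` (for `k + 1 ≥ 3`): `TRK K (G0P ∧ ¬ Ty)`; `nAt f = cn (..)`; `EvR_of_EvT`; `NN d k = (2^k)^d`.
`allbad'`: `allbd et` and `EvR_of_EvT`.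
-/

set_option autoImplicit false

open Finset Filter

namespace Pool.Agent.LC

open Pool.Agent.LO Pool.Agent.LIN Pool.Agent.THR Pool.Agent.COR

private theorem F7_true : EvT e3 fun _ _ _ => True :=
  (EvT_d (P := fun _ => True) (Filter.Eventually.of_forall fun _ => trivial)).mono
    fun _ _ _ _ => trivial

private theorem F7_cn {d k q : ℕ} (f : Site d (k + 1) → Fin q) : (nAt f : ℝ) = cn fun p : Tpl d k => G0P (pat f p.1) ∧
      ¬ Ty d (tG d (k + 1)) evn (ALP (pat f p.1)) f (tp p) := by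
  unfold nAt cn tp
  have h : ∀ (i1 i2 : DecidablePred fun p : Blk d k × Bt d × Bt d => G0P (pat f p.1) ∧
      ¬ Ty d (tG d (k + 1)) evn (ALP (pat f p.1)) f (pt p.1 p.2.1 p.2.2)),
      (@Finset.filter _ _ i1 univ) = (@Finset.filter _ _ i2 univ) := by
    intro i1 i2
    ext p
    simp only [mem_filter, mem_univ, true_and]
  rw [h]

theorem FG_pt : SR fun _ _ _ f v => ¬ FG f v := by
  refine (f1_pt.or (f2_pt.or (f3_pt.or (f4_pt.or (f5_pt.or q3_pt))))).mono (F7_true.mono ?_)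
  intro d k q _ _ f _ v h
  by_contra hcon
  push Not at hcon
  obtain ⟨h1, h2, h3, h4, h5, h6⟩ := hcon
  exact h ⟨h1, h2, h3, h4, h5, h6⟩

private theorem F7_fg (K : ℕ) : TRK K fun _ _ _ f p => ¬ FG f (tp p) := by
  have h : SRK K fun d k q (f : Site d k → Fin q) (v : Site d k) => ¬ FG f v := FG_pt K
  have h2 := TRK_of_SRK h
  exact h2

private theorem F7_trk (K : ℕ) : TRK K fun d k _ f p => G0P (pat f p.1) ∧
    ¬ Ty d (tG d (k + 1)) evn (ALP (pat f p.1)) f (tp p) := by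
  classical
  have h1 := typ_tpl (K + 1) (Real.exp (-2100)) (Real.exp_pos _)
  have h3 := h1.or (F7_fg (K + 1))
  refine h3.mono ?_
  obtain ⟨d₀, hd₀⟩ := ty_det
  have hk : EvT e3 fun _ k _ => 3 ≤ k := ⟨0, fun d q _ _ _ => eventually_ge_atTop 3⟩
  refine ((EvT_d (eventually_ge_atTop d₀)).and hk).mono ?_
  rintro d k q ⟨hd, hk⟩ hR f hf p ⟨hG, hT⟩
  by_contra hcon
  push Not at hcon
  obtain ⟨c1, c2⟩ := hcon
  have hfP : Prp f := by
    unfold prps at hf
    exact (mem_filter.1 hf).2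
  obtain ⟨c3, c4⟩ := c1 hG
  exact hT (hd₀ d hd (k + 1) q (by omega) hR f hfP _ _ c3 c4 c2)

theorem typ' (K : ℕ) : ∃ C : ℕ, EvR fun d k q => Rar C d (k + 1) q fun f =>
    (4 : ℝ) ^ d * (2 ^ k) ^ d / (d : ℝ) ^ K < (nAt f : ℝ) := by
  obtain ⟨C, hC⟩ := F7_trk K
  refine ⟨C, EvR_of_EvT (hC.mono ?_)⟩
  intro d k q h hR
  refine h.mono ?_
  intro f _ hf
  rw [F7_cn] at hf
  rw [Classical.not_imp, not_le]
  exact ⟨hR, hf⟩

theorem allbad' : ∃ C : ℕ, EvR fun d k q => ∀ c : Fin q, Rar C d (k + 1) q fun f =>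
    ∀ t : Blk d k, bdP et c (pat f t) := by
  obtain ⟨C, hC⟩ := allbd et (by unfold et; norm_num)
  exact ⟨C, EvR_of_EvT hC⟩

end Pool.Agent.LC

end

/-! ### from `Lib_MP_2c424f_lc.PI` -/

section

/-!
# Part I: typicality on the torus (main statements)
-/

set_option autoImplicit false

open Finset Filter

namespace Pool.Agent.LC

open Pool.Agent.LO Pool.Agent.LIN Pool.Agent.THR Pool.Agent.COR

/-- I.1 -/
theorem typ (K : ℕ) : ∃ C : ℕ, EvR fun d k q => Rar C d (k + 1) q fun f =>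
    (4 : ℝ) ^ d * (2 ^ k) ^ d / (d : ℝ) ^ K < (nAt f : ℝ) :=
  typ' K

/-- I.2 -/
theorem allbad : ∃ C : ℕ, EvR fun d k q => ∀ c : Fin q, Rar C d (k + 1) q fun f =>
    ∀ t : Blk d k, bdP et c (pat f t) :=
  allbad'

end Pool.Agent.LC

end

/-! ### from `Lib_MP_2c424f_lc3.T29` -/

section

/-!
# Part III, T29: BALANCE: `allunb`

`typ 6` gives `C₁`.  Let all blocks be unbalanced (`UBP`), `f` not in the rare set of `typ 6`.  `A = ALP (pat f t)` does not depend on `t` (`ALP_const`), `|A| ≠ q/2`, `| |A| - q/2 | ≤ q/50` (`ALP_card`).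
`nAt f = #{(t, a, b) : ¬ Ty A f (pt t a b)} = 2^d #{v : ¬ Ty A f v}` (every site has `2^d` representations: `LO.sum_pt`, `Lib_MP_2c424f_lo/BSum.lean`), so `#{v : ¬ Ty} ≤ 2^d (2^k)^d / d^6 = NN d (k+1) / d^6`.
Union over the `≤ 2^q` sets `A`, `unb_one`: `≤ Z (2^q exp(-N/(8 q^2)) + exp(-N/d^{C₁})) ≤ Z exp(-N/d^C)`, `C = C₁ + 3`, for `k` large.
-/

set_option autoImplicit false

open Finset Filter

namespace Pool.Agent.LC3

open Pool.Agent.LO Pool.Agent.LIN Pool.Agent.THR Pool.Agent.COR Pool.Agent.LC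

open scoped Classical in
/-- every site has `2^d` representations as a point of a block -/
private theorem T29_rep {d k : ℕ} (P : Site d (k + 1) → Prop) :
    ((univ.filter fun p : Blk d k × Bt d × Bt d => P (pt p.1 p.2.1 p.2.2)).card : ℝ) =
      2 ^ d * ((univ.filter fun v : Site d (k + 1) => P v).card : ℝ) := by
  have h := sum_pt (d := d) (k := k) (fun x _ => if P x then (1 : ℝ) else 0)
  have h1 : ((univ.filter fun p : Blk d k × Bt d × Bt d => P (pt p.1 p.2.1 p.2.2)).card : ℝ) =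
      ∑ t : Blk d k, ∑ a : Bt d, ∑ b : Bt d, (if P (pt t a b) then (1 : ℝ) else 0) := by
    rw [Finset.card_filter]
    push_cast
    rw [Fintype.sum_prod_type]
    refine Finset.sum_congr rfl fun t _ => ?_
    rw [Fintype.sum_prod_type]
  rw [h1, h, Finset.card_filter]
  push_cast
  rw [Finset.mul_sum]
  refine Finset.sum_congr rfl fun x _ => ?_
  rw [Finset.sum_const, nsmul_eq_mul, Finset.card_univ, Fintype.card_fun, Fintype.card_bool, Fintype.card_fin]
  push_cast
  rfl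

private theorem T29_rep' {d k : ℕ} (P : Site d (k + 1) → Prop) (S : Finset (Blk d k × Bt d × Bt d))
    (S' : Finset (Site d (k + 1))) (hS : ∀ p, p ∈ S ↔ P (pt p.1 p.2.1 p.2.2)) (hS' : ∀ v, v ∈ S' ↔ P v) :
    (S.card : ℝ) = 2 ^ d * (S'.card : ℝ) := by
  classical
  have h := T29_rep P
  have h1 : S = univ.filter fun p : Blk d k × Bt d × Bt d => P (pt p.1 p.2.1 p.2.2) := by
    ext p
    rw [hS p]
    exact ⟨fun h => Finset.mem_filter.2 ⟨Finset.mem_univ _, h⟩, fun h => (Finset.mem_filter.1 h).2⟩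
  have h2 : S' = univ.filter fun v : Site d (k + 1) => P v := by
    ext v
    rw [hS' v]
    exact ⟨fun h => Finset.mem_filter.2 ⟨Finset.mem_univ _, h⟩, fun h => (Finset.mem_filter.1 h).2⟩
  rw [h1, h2]
  exact h

private theorem T29_to_rar {C d k q : ℕ} {P : (Site d k → Fin q) → Prop} (S : Finset (Site d k → Fin q))
    (hS : ∀ f ∈ prps d k q, P f → f ∈ S)
    (h : (S.card : ℝ) ≤ ZZ d k q * Real.exp (-(NN d k / (d : ℝ) ^ C))) : Rar C d k q P := by
  classical
  unfold Rar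
  refine le_trans (Nat.cast_le.2 (Finset.card_le_card fun f hf => ?_)) h
  obtain ⟨h1, h2⟩ := Finset.mem_filter.1 hf
  exact hS f h1 h2

private theorem T29_of_rar {C d k q : ℕ} {P : (Site d k → Fin q) → Prop} (h : Rar C d k q P)
    (S : Finset (Site d k → Fin q)) (hS : ∀ f ∈ S, f ∈ prps d k q ∧ P f) :
    (S.card : ℝ) ≤ ZZ d k q * Real.exp (-(NN d k / (d : ℝ) ^ C)) := by
  classical
  unfold Rar at h
  refine le_trans (Nat.cast_le.2 (Finset.card_le_card fun f hf => ?_)) h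
  exact Finset.mem_filter.2 (hS f hf)

private theorem T29_NN {d : ℕ} (hd : 1 ≤ d) (k : ℕ) : (k : ℝ) ≤ NN d (k + 1) := by
  unfold NN
  have h1 : (k : ℝ) ≤ 2 ^ (k + 1) := by
    have h2 : k < 2 ^ k := Nat.lt_two_pow_self
    have h3 : k ≤ 2 ^ (k + 1) := by
      rw [pow_succ]
      omega
    exact_mod_cast h3
  have h4 : (1 : ℝ) ≤ 2 ^ (k + 1) := one_le_pow₀ (by norm_num)
  calc (k : ℝ) ≤ 2 ^ (k + 1) := h1
    _ = (2 ^ (k + 1)) ^ 1 := (pow_one _).symm
    _ ≤ (2 ^ (k + 1)) ^ d := pow_le_pow_right₀ h4 hd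

/-- the arithmetic of the union bound -/
private theorem T29_arith {d q C : ℕ} (hd : 10 ^ 10 ≤ d) (hq1 : 1 ≤ q) (hq : 500 * q ≤ d) {N : ℝ}
    (hN : (d : ℝ) ^ (C + 10) ≤ N) :
    Real.exp (-(N / (d : ℝ) ^ C)) + 2 ^ q * Real.exp (-(N / (8 * (q : ℝ) ^ 2))) ≤
      Real.exp (-(N / (d : ℝ) ^ (C + 3))) := by
  have hd' : (10 : ℝ) ^ 10 ≤ d := by exact_mod_cast hd
  have hd0 : (0 : ℝ) < d := lt_of_lt_of_le (by norm_num) hd'
  have hd1 : (1 : ℝ) ≤ d := le_trans (by norm_num) hd'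
  have hq0 : (0 : ℝ) < q := by exact_mod_cast hq1
  have hq' : (500 : ℝ) * q ≤ d := by exact_mod_cast hq
  have hN0 : 0 ≤ N := le_trans (by positivity) hN
  set M : ℝ := N / (d : ℝ) ^ (C + 3) with hM
  have hM0 : 0 ≤ M := by positivity
  have hM7 : (d : ℝ) ^ 7 ≤ M := by
    rw [hM, le_div_iff₀ (by positivity), ← pow_add]
    rw [show 7 + (C + 3) = C + 10 by ring]
    exact hN
  have hMd : (d : ℝ) ≤ M := by
    refine le_trans ?_ hM7
    calc (d : ℝ) = (d : ℝ) ^ 1 := (pow_one _).symm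
      _ ≤ (d : ℝ) ^ 7 := pow_le_pow_right₀ hd1 (by norm_num)
  have h1 : 2 * M ≤ N / (d : ℝ) ^ C := by
    have : N / (d : ℝ) ^ C = (d : ℝ) ^ 3 * M := by
      rw [hM, pow_add]
      field_simp
    rw [this]
    refine mul_le_mul_of_nonneg_right ?_ hM0
    calc (2 : ℝ) ≤ (d : ℝ) := le_trans (by norm_num) hd'
      _ = (d : ℝ) ^ 1 := (pow_one _).symm
      _ ≤ (d : ℝ) ^ 3 := pow_le_pow_right₀ hd1 (by norm_num)
  have h2 : 3 * M ≤ N / (8 * (q : ℝ) ^ 2) := by
    have h3 : 8 * (q : ℝ) ^ 2 ≤ (d : ℝ) ^ 2 := by nlinarith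
    have h4 : N / (d : ℝ) ^ 2 ≤ N / (8 * (q : ℝ) ^ 2) :=
      div_le_div_of_nonneg_left hN0 (by positivity) h3
    refine le_trans ?_ h4
    have : N / (d : ℝ) ^ 2 = (d : ℝ) ^ (C + 1) * M := by
      rw [hM, show C + 3 = (C + 1) + 2 by ring, pow_add (d : ℝ) (C + 1) 2]
      field_simp
    rw [this]
    refine mul_le_mul_of_nonneg_right ?_ hM0
    calc (3 : ℝ) ≤ (d : ℝ) := le_trans (by norm_num) hd'
      _ = (d : ℝ) ^ 1 := (pow_one _).symm
      _ ≤ (d : ℝ) ^ (C + 1) := pow_le_pow_right₀ hd1 (by omega)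
  have h5 : (2 : ℝ) ^ q ≤ Real.exp M := by
    have h6 : (2 : ℝ) ≤ Real.exp 1 := by
      have := Real.add_one_le_exp (1 : ℝ)
      linarith
    calc (2 : ℝ) ^ q ≤ (Real.exp 1) ^ q := pow_le_pow_left₀ (by norm_num) h6 q
      _ = Real.exp q := by rw [← Real.exp_nat_mul, mul_one]
      _ ≤ Real.exp M := Real.exp_le_exp.2 (by nlinarith)
  have h7 : (2 : ℝ) ≤ Real.exp M := by
    have := Real.add_one_le_exp M
    linarith
  have h8 : Real.exp (-(N / (d : ℝ) ^ C)) ≤ Real.exp (-M) * Real.exp (-M) := by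
    rw [← Real.exp_add, Real.exp_le_exp]
    linarith
  have h9 : 2 ^ q * Real.exp (-(N / (8 * (q : ℝ) ^ 2))) ≤ Real.exp (-M) * Real.exp (-M) := by
    calc 2 ^ q * Real.exp (-(N / (8 * (q : ℝ) ^ 2))) ≤ Real.exp M * Real.exp (-(3 * M)) :=
          mul_le_mul h5 (Real.exp_le_exp.2 (by linarith)) (Real.exp_pos _).le (Real.exp_pos _).le
      _ = Real.exp (-M) * Real.exp (-M) := by
          rw [← Real.exp_add, ← Real.exp_add]
          congr 1
          ring
  have h10 : Real.exp (-M) * 2 ≤ 1 := by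
    calc Real.exp (-M) * 2 ≤ Real.exp (-M) * Real.exp M := mul_le_mul_of_nonneg_left h7 (Real.exp_pos _).le
      _ = 1 := by rw [← Real.exp_add, neg_add_cancel, Real.exp_zero]
  calc _ ≤ Real.exp (-M) * Real.exp (-M) + Real.exp (-M) * Real.exp (-M) := add_le_add h8 h9
    _ = Real.exp (-M) * (Real.exp (-M) * 2) := by ring
    _ ≤ Real.exp (-M) * 1 := mul_le_mul_of_nonneg_left h10 (Real.exp_pos _).le
    _ = _ := mul_one _

/-- III -/
theorem allunb' : ∃ C : ℕ, EvR fun d k q => Rar C d (k + 1) q fun f => ∀ t : Blk d k, UBP (pat f t) := by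
  classical
  obtain ⟨C₁, d₀, hC⟩ := typ 6
  refine ⟨C₁ + 3, max d₀ (10 ^ 10), fun d q hd hR => ?_⟩
  have hd0 : d₀ ≤ d := le_trans (le_max_left _ _) hd
  have hd10 : 10 ^ 10 ≤ d := le_trans (le_max_right _ _) hd
  have hd1 : 1 ≤ d := le_trans (by norm_num) hd10
  have hd2 : 2 ≤ d := le_trans (by norm_num) hd10
  have hq := num_q hR hd1
  have hdr : (1 : ℝ) ≤ d := by exact_mod_cast hd1
  obtain ⟨k₀, hk₀⟩ := exists_nat_ge ((d : ℝ) ^ (C₁ + 10))
  filter_upwards [hC d q hd0 hR, Filter.eventually_ge_atTop (max k₀ 1)] with k hk hkk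
  have hk0 : k₀ ≤ k := le_trans (le_max_left _ _) hkk
  have hk1 : 1 ≤ k := le_trans (le_max_right _ _) hkk
  have hk2 : 2 ≤ k + 1 := by omega
  have hN : (d : ℝ) ^ (C₁ + 10) ≤ NN d (k + 1) :=
    hk₀.trans ((by exact_mod_cast hk0 : (k₀ : ℝ) ≤ k).trans (T29_NN hd1 k))
  have hN3 : (d : ℝ) ^ 3 ≤ NN d (k + 1) := le_trans (pow_le_pow_right₀ hdr (by omega)) hN
  set TA : Finset (Fin q) → Finset (Site d (k + 1) → Fin q) := fun A => (prps d (k + 1) q).filter fun f =>
    ((univ.filter fun v => ¬ Ty d (tG d (k + 1)) evn A f v).card : ℝ) ≤ NN d (k + 1) / (d : ℝ) ^ 6 with hTA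
  set AA : Finset (Finset (Fin q)) := univ.filter fun A : Finset (Fin q) => A.card ≠ q / 2 ∧
    |(A.card : ℝ) - q / 2| ≤ q / 50 with hAA
  have hsub : ((prps d (k + 1) q).filter fun f => ∀ t : Blk d k, UBP (pat f t)) ⊆
      ((prps d (k + 1) q).filter fun f => (4 : ℝ) ^ d * (2 ^ k) ^ d / (d : ℝ) ^ 6 < (nAt f : ℝ)) ∪ AA.biUnion TA := by
    intro f hf
    obtain ⟨hf1, hf2⟩ := Finset.mem_filter.1 hf
    rw [Finset.mem_union]
    by_cases hr : (4 : ℝ) ^ d * (2 ^ k) ^ d / (d : ℝ) ^ 6 < (nAt f : ℝ)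
    · left
      exact Finset.mem_filter.2 ⟨hf1, hr⟩
    · right
      have hG : ∀ t : Blk d k, G0P (pat f t) := fun t => (hf2 t).1
      have hcon := ALP_const hR hd2 f hG
      set A := ALP (pat f (0 : Blk d k)) with hA
      have hAc := ALP_card hR hd2 (pat f (0 : Blk d k)) (hG 0)
      rw [Finset.mem_biUnion]
      refine ⟨A, Finset.mem_filter.2 ⟨Finset.mem_univ _, (hf2 0).2, ?_⟩, ?_⟩
      · refine hAc.trans ?_
        have : (0 : ℝ) ≤ q := Nat.cast_nonneg _
        linarith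
      · rw [hTA]
        refine Finset.mem_filter.2 ⟨hf1, ?_⟩
        have h1 : (nAt f : ℝ) = 2 ^ d * ((univ.filter fun v => ¬ Ty d (tG d (k + 1)) evn A f v).card : ℝ) := by
          unfold nAt
          refine T29_rep' (fun v => ¬ Ty d (tG d (k + 1)) evn A f v) _ _ (fun p => ?_) (fun v => ?_)
          · simp only [Finset.mem_filter, Finset.mem_univ, true_and]
            rw [hcon p.1 0, ← hA]
            exact ⟨fun h => h.2, fun h => ⟨hG p.1, h⟩⟩
          · simp only [Finset.mem_filter, Finset.mem_univ, true_and]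
        rw [not_lt, h1] at hr
        have h2 : NN d (k + 1) = 2 ^ d * (2 ^ k) ^ d := by
          unfold NN
          rw [← mul_pow, pow_succ, mul_comm]
        have h3 : (4 : ℝ) ^ d = 2 ^ d * 2 ^ d := by
          rw [← mul_pow]
          norm_num
        have h4 : (0 : ℝ) < 2 ^ d := by positivity
        refine le_of_mul_le_mul_left (hr.trans (le_of_eq ?_)) h4
        rw [h2, h3]
        ring
  have hcard : (((prps d (k + 1) q).filter fun f => ∀ t : Blk d k, UBP (pat f t)).card : ℝ) ≤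
      (((prps d (k + 1) q).filter fun f => (4 : ℝ) ^ d * (2 ^ k) ^ d / (d : ℝ) ^ 6 < (nAt f : ℝ)).card : ℝ) +
        ∑ A ∈ AA, ((TA A).card : ℝ) := by
    have h1 := (Finset.card_le_card hsub).trans (Finset.card_union_le _ _)
    have h2 : (AA.biUnion TA).card ≤ ∑ A ∈ AA, (TA A).card := Finset.card_biUnion_le
    have h3 := h1.trans (Nat.add_le_add_left h2 _)
    exact_mod_cast h3
  have hZ : 0 ≤ ZZ d (k + 1) q := Nat.cast_nonneg _
  have hsumA : ∑ A ∈ AA, ((TA A).card : ℝ) ≤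
      2 ^ q * (ZZ d (k + 1) q * Real.exp (-(NN d (k + 1) / (8 * (q : ℝ) ^ 2)))) := by
    have h1 : ∀ A ∈ AA, ((TA A).card : ℝ) ≤ ZZ d (k + 1) q * Real.exp (-(NN d (k + 1) / (8 * (q : ℝ) ^ 2))) := by
      intro A hA
      obtain ⟨-, h2, h3⟩ := Finset.mem_filter.1 hA
      exact unb_one hR hd10 hk2 hN3 A h2 h3
    refine (Finset.sum_le_card_nsmul AA _ _ h1).trans ?_
    rw [nsmul_eq_mul]
    refine mul_le_mul_of_nonneg_right ?_ (by positivity)
    have h4 : AA.card ≤ 2 ^ q := by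
      refine (Finset.card_le_univ AA).trans ?_
      rw [Fintype.card_finset, Fintype.card_fin]
    exact_mod_cast h4
  have har := T29_arith hd10 hq.1 hq.2.1 hN
  refine T29_to_rar ((prps d (k + 1) q).filter fun f => ∀ t : Blk d k, UBP (pat f t))
    (fun f hf hf' => Finset.mem_filter.2 ⟨hf, hf'⟩) ?_
  calc _ ≤ _ := hcard
    _ ≤ ZZ d (k + 1) q * Real.exp (-(NN d (k + 1) / (d : ℝ) ^ C₁)) +
        2 ^ q * (ZZ d (k + 1) q * Real.exp (-(NN d (k + 1) / (8 * (q : ℝ) ^ 2)))) := by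
        refine add_le_add ?_ hsumA
        exact T29_of_rar hk _ fun f hf => Finset.mem_filter.1 hf
    _ = ZZ d (k + 1) q * (Real.exp (-(NN d (k + 1) / (d : ℝ) ^ C₁)) +
        2 ^ q * Real.exp (-(NN d (k + 1) / (8 * (q : ℝ) ^ 2)))) := by ring
    _ ≤ _ := mul_le_mul_of_nonneg_left har hZ

end Pool.Agent.LC3

end

/-! ### from `Lib_MP_2c424f_lc.PIII` -/

section

/-!
# Part III: balance (main statement)
-/

set_option autoImplicit false

open Finset Filter

namespace Pool.Agent.LC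

open Pool.Agent.LO Pool.Agent.LIN Pool.Agent.THR Pool.Agent.COR

/-- III -/
theorem allunb : ∃ C : ℕ, EvR fun d k q => Rar C d (k + 1) q fun f => ∀ t : Blk d k, UBP (pat f t) :=
  Pool.Agent.LC3.allunb'

end Pool.Agent.LC

end

/-! ### from `Lib_MP_2c424f_lc2.A03` -/

section

/-!
# LC2 A03: chessboard estimate for the bad blocks

As `pbadT` (`Lib_MP_2c424f_thr/B6.lean`): `LO.rp`, `LO.chess` with `r = exp (-(2^d/d^C))`; the homogeneous sets are rare by
`allbad`, `allunb` (`Rar C` with the larger of the two constants).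
-/

set_option autoImplicit false

open Finset Filter

namespace Pool.Agent.LC

open Pool.Agent.LO Pool.Agent.LIN Pool.Agent.THR Pool.Agent.COR

private theorem A03_rar {C C' d k q : ℕ} (hd : 1 ≤ d) (hC : C ≤ C') {P : (Site d k → Fin q) → Prop}
    (h : Rar C d k q P) : Rar C' d k q P := by
  unfold Rar at h ⊢
  refine h.trans ?_
  have hZ : 0 ≤ ZZ d k q := by unfold ZZ; positivity
  refine mul_le_mul_of_nonneg_left (Real.exp_le_exp.2 (neg_le_neg ?_)) hZ
  have hd' : (1 : ℝ) ≤ d := by exact_mod_cast hd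
  have hN : 0 ≤ NN d k := by unfold NN; positivity
  exact div_le_div_of_nonneg_left hN (by positivity) (pow_le_pow_right₀ hd' hC)

theorem chessB : ∃ C : ℕ, EvR fun d k q => ∀ (τ : Option (Fin q)) (Γ : Finset (Blk d k)),
    cE (fun t f => BDP τ (pat (q := q) f t)) Γ ≤ ZZ d (k + 1) q * Real.exp (-(2 ^ d / (d : ℝ) ^ C)) ^ Γ.card := by
  classical
  obtain ⟨C₁, d₁, h₁⟩ := allbad
  obtain ⟨C₂, d₂, h₂⟩ := allunb
  refine ⟨max C₁ C₂, max 1 (max d₁ d₂), fun d q hd hq => ?_⟩
  have hd1 : 1 ≤ d := (le_max_left _ _).trans hd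
  have hdd1 : d₁ ≤ d := ((le_max_left _ _).trans (le_max_right _ _)).trans hd
  have hdd2 : d₂ ≤ d := ((le_max_right _ _).trans (le_max_right _ _)).trans hd
  filter_upwards [h₁ d q hdd1 hq, h₂ d q hdd2 hq, eventually_ge_atTop 1] with k hk₁ hk₂ hk
  intro τ
  have hrar : Rar (max C₁ C₂) d (k + 1) q
      fun f : Site d (k + 1) → Fin q => ∀ t : Blk d k, BDP τ (pat f t) := by
    cases τ with
    | none => exact A03_rar hd1 (le_max_right _ _) hk₂
    | some c => exact A03_rar hd1 (le_max_left _ _) (hk₁ c)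
  have hfull : cE (fun t f => BDP τ (pat (q := q) f t)) (univ : Finset (Blk d k)) ≤
      ZZ d (k + 1) q * Real.exp (-(2 ^ d / (d : ℝ) ^ (max C₁ C₂))) ^ (Fintype.card (Blk d k)) := by
    refine le_trans ?_ (le_trans hrar ?_)
    · unfold cE
      refine Nat.cast_le.2 (card_le_card fun f hf => ?_)
      simp only [mem_filter] at hf ⊢
      exact ⟨hf.1, fun t => hf.2 t (mem_univ t)⟩
    · have hZ : 0 ≤ ZZ d (k + 1) q := by unfold ZZ; positivity
      apply mul_le_mul_of_nonneg_left _ hZ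
      rw [← Real.exp_nat_mul]
      apply Real.exp_le_exp.2
      have hc : (Fintype.card (Blk d k) : ℝ) = NN d k := card_site d k
      rw [hc]
      have hNk : NN d (k + 1) = NN d k * 2 ^ d := by
        unfold NN
        rw [pow_succ, mul_pow]
      have : NN d k * -((2 : ℝ) ^ d / (d : ℝ) ^ (max C₁ C₂)) =
          -(NN d (k + 1) / (d : ℝ) ^ (max C₁ C₂)) := by
        rw [hNk]; ring
      rw [this]
  exact chess hk (cE (fun t f => BDP τ (pat (q := q) f t))) (ZZ d (k + 1) q)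
    (Real.exp (-(2 ^ d / (d : ℝ) ^ (max C₁ C₂))))
    (Real.exp_pos _)
    (by unfold ZZ; positivity) (fun Γ => by unfold cE; positivity)
    (fun j α Γ => rp hk (fun t f => BDP τ (pat (q := q) f t))
      (fun t f g h hb => BDP_loc τ t f g h hb)
      (fun j α t f hb => BDP_sym τ j α t f hb) j α Γ)
    (by
      unfold cE ZZ
      exact_mod_cast Finset.card_le_card (Finset.filter_subset _ _))
    hfull

end Pool.Agent.LC

end

/-! ### from `Lib_MP_2c424f_lc2.A04` -/

section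

/-!
# LC2 A04: few bad blocks

If more than `N'/d^K` blocks are not good (`N' = (2^k)^d` blocks) then for some `τ` (`q + 1` kinds) the set
`Γ = {t : BDP τ (pat f t)}` has at least `N' / (d^K (q+1))` elements.  Union bound over `τ` and `Γ` (`2^{N'}` sets) with `chessB`:
`(q+1) 2^{N'} exp (-(2^d/d^C) N'/(d^K (q+1))) ≤ exp (-N/d^{C+K+3})`, `N = 2^d N'`, since `2^d/d^{C+K+2}` is larger than any constant for
large `d` (`q ≤ 2 d`).
-/

set_option autoImplicit false

open Finset Filter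

namespace Pool.Agent.LC

open Pool.Agent.LO Pool.Agent.LIN Pool.Agent.THR Pool.Agent.COR

open scoped Classical in
private theorem A04_pig {d k q : ℕ} (f : Site d (k + 1) → Fin q) :
    ((univ.filter fun t : Blk d k => ¬ GDP (pat f t)).card : ℝ) ≤
      ∑ τ : Option (Fin q), ((univ.filter fun t : Blk d k => BDP τ (pat f t)).card : ℝ) := by
  have h1 : (univ.filter fun t : Blk d k => ¬ GDP (pat f t)) ⊆
      (univ : Finset (Option (Fin q))).biUnion fun τ => univ.filter fun t : Blk d k => BDP τ (pat f t) := by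
    intro t ht
    rw [mem_filter] at ht
    obtain ⟨τ, hτ⟩ := (not_GDP _).1 ht.2
    rw [mem_biUnion]
    exact ⟨τ, mem_univ _, mem_filter.2 ⟨mem_univ _, hτ⟩⟩
  have h2 := (card_le_card h1).trans card_biUnion_le
  exact_mod_cast h2

private theorem A04_large (n : ℕ) : ∀ᶠ d : ℕ in atTop, 4 * (d : ℝ) ^ n ≤ 2 ^ d := by
  have h1 : ∀ᶠ d : ℕ in Filter.atTop, (d : ℝ) ^ n / (2 : ℝ) ^ d < 1 / 4 :=
    (tendsto_pow_const_div_const_pow_of_one_lt n (by norm_num : (1 : ℝ) < 2)).eventually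
      (gt_mem_nhds (by norm_num))
  filter_upwards [h1] with d hd
  rw [div_lt_div_iff₀ (by positivity) (by norm_num)] at hd
  linarith

open scoped Classical in
theorem few_bad (K : ℕ) : ∃ C : ℕ, EvR fun d k q => Rar C d (k + 1) q fun f =>
    ((2 : ℝ) ^ k) ^ d / (d : ℝ) ^ K < ((univ.filter fun t : Blk d k => ¬ GDP (pat f t)).card : ℝ) := by
  obtain ⟨C0, d0, hC0⟩ := chessB
  obtain ⟨d1, hd1⟩ := eventually_atTop.1 (A04_large (C0 + K + 1))
  refine ⟨C0 + K + 2, max (max d0 d1) 2, fun d q hd hR => ?_⟩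
  have hdd0 : d0 ≤ d := le_trans (le_trans (le_max_left _ _) (le_max_left _ _)) hd
  have hdd1 : d1 ≤ d := le_trans (le_trans (le_max_right _ _) (le_max_left _ _)) hd
  have hd2 : 2 ≤ d := le_trans (le_max_right _ _) hd
  have hL := hd1 d hdd1
  filter_upwards [hC0 d q hdd0 hR, eventually_ge_atTop 1] with k hk hk1
  have hd2r : (2 : ℝ) ≤ d := by exact_mod_cast hd2
  have hdp : (0 : ℝ) < d := by linarith
  have hqn : q + 1 ≤ d := by
    have := hR.2.1
    omega
  have hq : (q : ℝ) + 1 ≤ d := by exact_mod_cast hqn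
  have hq0 : (0 : ℝ) < (q : ℝ) + 1 := by positivity
  set N : ℝ := ((2 : ℝ) ^ k) ^ d with hN
  have hNd : (d : ℝ) ≤ N := by
    have h1 : (d : ℝ) ≤ 2 ^ d := by exact_mod_cast (Nat.lt_two_pow_self (n := d)).le
    have h2 : (2 : ℝ) ^ d ≤ ((2 : ℝ) ^ k) ^ d := by
      refine pow_le_pow_left₀ (by norm_num) ?_ d
      calc (2 : ℝ) = 2 ^ 1 := by norm_num
        _ ≤ 2 ^ k := pow_le_pow_right₀ (by norm_num) hk1
    exact h1.trans h2
  have hNp : 0 < N := lt_of_lt_of_le hdp hNd
  have hcard : (Fintype.card (Blk d k) : ℝ) = N := card_site d k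
  have hN1 : NN d (k + 1) = N * 2 ^ d := by
    unfold NN
    rw [pow_succ, mul_pow]
  have hZ : 0 ≤ ZZ d (k + 1) q := by unfold ZZ; positivity
  set S : Finset (Option (Fin q) × Finset (Blk d k)) :=
    univ.filter fun p => N / (d : ℝ) ^ K < ((q : ℝ) + 1) * (p.2.card : ℝ) with hS
  -- the union bound
  have hU : (((prps d (k + 1) q).filter fun f => N / (d : ℝ) ^ K <
      ((univ.filter fun t : Blk d k => ¬ GDP (pat f t)).card : ℝ)).card : ℝ) ≤
      ∑ p ∈ S, cE (fun t f => BDP p.1 (pat (q := q) f t)) p.2 := by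
    have h1 : ((prps d (k + 1) q).filter fun f => N / (d : ℝ) ^ K <
        ((univ.filter fun t : Blk d k => ¬ GDP (pat f t)).card : ℝ)) ⊆
        S.biUnion fun p => (prps d (k + 1) q).filter fun f => ∀ t ∈ p.2, BDP p.1 (pat f t) := by
      intro f hf
      rw [mem_filter] at hf
      obtain ⟨hf1, hf2⟩ := hf
      by_contra hcon
      have h2 : ∀ τ : Option (Fin q), ((univ.filter fun t : Blk d k => BDP τ (pat f t)).card : ℝ) ≤
          N / (d : ℝ) ^ K / ((q : ℝ) + 1) := by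
        intro τ
        by_contra h3
        push Not at h3
        rw [div_lt_iff₀ hq0] at h3
        refine hcon (mem_biUnion.2 ⟨(τ, univ.filter fun t : Blk d k => BDP τ (pat f t)), ?_, ?_⟩)
        · rw [hS, mem_filter]
          refine ⟨mem_univ _, ?_⟩
          show N / (d : ℝ) ^ K < ((q : ℝ) + 1) * ((univ.filter fun t : Blk d k => BDP τ (pat f t)).card : ℝ)
          linarith
        · rw [mem_filter]
          exact ⟨hf1, fun t ht => (mem_filter.1 ht).2⟩
      have h3 := (A04_pig f).trans (sum_le_card_nsmul univ _ _ fun τ _ => h2 τ)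
      rw [nsmul_eq_mul, card_univ, Fintype.card_option, Fintype.card_fin] at h3
      push_cast at h3
      rw [mul_div_cancel₀ _ hq0.ne'] at h3
      linarith
    have h2 := (card_le_card h1).trans card_biUnion_le
    unfold cE
    exact_mod_cast h2
  -- each summand
  have hE : ∀ p ∈ S, cE (fun t f => BDP p.1 (pat (q := q) f t)) p.2 ≤
      ZZ d (k + 1) q * Real.exp (-(2 ^ d * N / (d : ℝ) ^ (C0 + K + 1))) := by
    intro p hp
    rw [hS, mem_filter] at hp
    refine (hk p.1 p.2).trans (mul_le_mul_of_nonneg_left ?_ hZ)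
    rw [← Real.exp_nat_mul]
    refine Real.exp_le_exp.2 ?_
    have h1 : N / (d : ℝ) ^ K ≤ (d : ℝ) * (p.2.card : ℝ) :=
      hp.2.le.trans (mul_le_mul_of_nonneg_right hq (Nat.cast_nonneg _))
    rw [div_le_iff₀ (by positivity)] at h1
    have h2 : 2 ^ d * N / (d : ℝ) ^ (C0 + K + 1) ≤ (p.2.card : ℝ) * (2 ^ d / (d : ℝ) ^ C0) := by
      rw [div_le_iff₀ (by positivity)]
      have e : (p.2.card : ℝ) * (2 ^ d / (d : ℝ) ^ C0) * (d : ℝ) ^ (C0 + K + 1) =
          2 ^ d * ((d : ℝ) * (p.2.card : ℝ) * (d : ℝ) ^ K) := by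
        rw [pow_succ, pow_add]
        field_simp
      rw [e]
      exact mul_le_mul_of_nonneg_left h1 (by positivity)
    linarith
  have hSc : (S.card : ℝ) ≤ Real.exp (2 * N) := by
    have h1 : (S.card : ℝ) ≤ ((q : ℝ) + 1) * 2 ^ (Fintype.card (Blk d k)) := by
      have h2 : S.card ≤ Fintype.card (Option (Fin q) × Finset (Blk d k)) := card_le_univ _
      rw [Fintype.card_prod, Fintype.card_option, Fintype.card_fin, Fintype.card_finset] at h2
      exact_mod_cast h2
    have h2 : (2 : ℝ) ^ (Fintype.card (Blk d k)) ≤ Real.exp N := by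
      have h3 : (2 : ℝ) ≤ Real.exp 1 := by
        have := Real.add_one_le_exp (1 : ℝ)
        linarith
      calc (2 : ℝ) ^ (Fintype.card (Blk d k)) ≤ Real.exp 1 ^ (Fintype.card (Blk d k)) :=
            pow_le_pow_left₀ (by norm_num) h3 _
        _ = Real.exp N := by
            rw [← Real.exp_nat_mul, mul_one, hcard]
    have h3 : (q : ℝ) + 1 ≤ Real.exp N := by
      have := Real.add_one_le_exp N
      linarith
    calc (S.card : ℝ) ≤ ((q : ℝ) + 1) * 2 ^ (Fintype.card (Blk d k)) := h1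
      _ ≤ Real.exp N * Real.exp N := mul_le_mul h3 h2 (by positivity) (Real.exp_pos _).le
      _ = Real.exp (2 * N) := by rw [← Real.exp_add, two_mul]
  unfold Rar
  refine le_trans ?_ (le_trans (hU.trans (sum_le_card_nsmul S _ _ hE)) ?_)
  · refine le_of_eq ?_
    congr 2
  · rw [nsmul_eq_mul]
    have h1 : (S.card : ℝ) * (ZZ d (k + 1) q * Real.exp (-(2 ^ d * N / (d : ℝ) ^ (C0 + K + 1)))) ≤
        Real.exp (2 * N) * (ZZ d (k + 1) q * Real.exp (-(2 ^ d * N / (d : ℝ) ^ (C0 + K + 1)))) :=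
      mul_le_mul_of_nonneg_right hSc (mul_nonneg hZ (Real.exp_pos _).le)
    refine h1.trans ?_
    rw [mul_left_comm, ← Real.exp_add]
    refine mul_le_mul_of_nonneg_left (Real.exp_le_exp.2 ?_) hZ
    rw [hN1]
    have e1 : 2 ^ d * N / (d : ℝ) ^ (C0 + K + 1) = (d : ℝ) * (N * 2 ^ d / (d : ℝ) ^ (C0 + K + 2)) := by
      rw [pow_succ (d : ℝ) (C0 + K + 1)]
      field_simp
    have h2 : 4 * N ≤ 2 ^ d * N / (d : ℝ) ^ (C0 + K + 1) := by
      rw [le_div_iff₀ (by positivity)]
      nlinarith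
    have h3 : 0 ≤ N * 2 ^ d / (d : ℝ) ^ (C0 + K + 2) := by positivity
    have h4 : 2 * (N * 2 ^ d / (d : ℝ) ^ (C0 + K + 2)) ≤ 2 ^ d * N / (d : ℝ) ^ (C0 + K + 1) := by
      rw [e1]
      exact mul_le_mul_of_nonneg_right hd2r h3
    linarith

end Pool.Agent.LC

end

/-! ### from `Lib_MP_2c424f_lc2.A10` -/

section

/-!
# LC2 A10: the box event is rare

Fix `d`, `q`, `s` and take `k` large.  By `EvB_torus`, `few_bad (K+1)` and `typ (K+1)` the set `{∀ T, EvB K (f ∘ un T)}` has at most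
`2 Z exp (-N/d^C) ≤ Z exp (-N/d^(C+1))` elements (`N = (2^(k+1))^d` is huge), so with `tile_lower`, `tile_upper` (`M` tiles, `N = M (2^s)^d`):
`(cG E)^M ≤ (q^|bdy| cG True exp (-(2^s)^d/d^(C+1)))^M`; take the `M`-th root (`pow_le_pow_left` / `lt_of_pow_lt_pow_left`); `card_bdy`.
-/

set_option autoImplicit false

open Finset Filter

namespace Pool.Agent.LC

open Pool.Agent.LO Pool.Agent.LIN Pool.Agent.THR Pool.Agent.COR

private theorem A10_mono {C C' d k q : ℕ} (hd : 1 ≤ d) (h : C ≤ C') {P : (Site d k → Fin q) → Prop}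
    (hP : Rar C d k q P) : Rar C' d k q P := by
  unfold Rar at hP ⊢
  refine hP.trans ?_
  have hd' : (1 : ℝ) ≤ d := by exact_mod_cast hd
  have hZ : 0 ≤ ZZ d k q := by
    unfold ZZ
    positivity
  refine mul_le_mul_of_nonneg_left ?_ hZ
  rw [Real.exp_le_exp, neg_le_neg_iff]
  have hN : 0 ≤ NN d k := by
    unfold NN
    positivity
  have h1 : (d : ℝ) ^ C ≤ (d : ℝ) ^ C' := pow_le_pow_right₀ hd' h
  have h2 : 0 < (d : ℝ) ^ C := by positivity
  exact div_le_div_of_nonneg_left hN h2 h1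

open scoped Classical in
/-- the colourings all of whose tiles have the box event -/
private theorem A10_torus {d k s q K C : ℕ} (hd : 2 ≤ d) (hs : 1 ≤ s) (hk : s ≤ k)
    (h1 : Rar C d (k + 1) q fun f =>
      ((2 : ℝ) ^ k) ^ d / (d : ℝ) ^ (K + 1) < ((univ.filter fun t : Blk d k => ¬ GDP (pat f t)).card : ℝ))
    (h2 : Rar C d (k + 1) q fun f =>
      (4 : ℝ) ^ d * (2 ^ k) ^ d / (d : ℝ) ^ (K + 1) < (nAt f : ℝ))
    (hbig : 2 * d ^ C ≤ k) :
    (((prps d (k + 1) q).filter fun f => ∀ T : Fin d → Fin (2 ^ (k + 1 - s)),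
      EvB K fun u : BxV d (2 ^ s) => f (un T u)).card : ℝ) ≤
      ZZ d (k + 1) q * Real.exp (-(NN d (k + 1) / (d : ℝ) ^ (C + 1))) := by
  unfold Rar at h1 h2
  have hsub : ((prps d (k + 1) q).filter fun f => ∀ T : Fin d → Fin (2 ^ (k + 1 - s)),
      EvB K fun u : BxV d (2 ^ s) => f (un T u)) ⊆
      ((prps d (k + 1) q).filter fun f =>
        ((2 : ℝ) ^ k) ^ d / (d : ℝ) ^ (K + 1) < ((univ.filter fun t : Blk d k => ¬ GDP (pat f t)).card : ℝ)) ∪
      ((prps d (k + 1) q).filter fun f =>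
        (4 : ℝ) ^ d * (2 ^ k) ^ d / (d : ℝ) ^ (K + 1) < (nAt f : ℝ)) := by
    intro f hf
    rw [mem_filter] at hf
    rw [mem_union, mem_filter, mem_filter]
    rcases EvB_torus hd hs hk K f hf.2 with h | h
    · exact Or.inl ⟨hf.1, h⟩
    · exact Or.inr ⟨hf.1, h⟩
  have hcard : (((prps d (k + 1) q).filter fun f => ∀ T : Fin d → Fin (2 ^ (k + 1 - s)),
      EvB K fun u : BxV d (2 ^ s) => f (un T u)).card : ℝ) ≤
      (((prps d (k + 1) q).filter fun f =>
        ((2 : ℝ) ^ k) ^ d / (d : ℝ) ^ (K + 1) < ((univ.filter fun t : Blk d k => ¬ GDP (pat f t)).card : ℝ)).card : ℝ) +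
      (((prps d (k + 1) q).filter fun f =>
        (4 : ℝ) ^ d * (2 ^ k) ^ d / (d : ℝ) ^ (K + 1) < (nAt f : ℝ)).card : ℝ) := by
    have := (card_le_card hsub).trans (card_union_le _ _)
    exact_mod_cast this
  refine hcard.trans ((add_le_add h1 h2).trans ?_)
  have hZ : 0 ≤ ZZ d (k + 1) q := by
    unfold ZZ
    positivity
  rw [← mul_add]
  refine mul_le_mul_of_nonneg_left ?_ hZ
  have hd' : (2 : ℝ) ≤ d := by exact_mod_cast hd
  have hN : (2 : ℝ) * (d : ℝ) ^ C ≤ NN d (k + 1) := by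
    have u1 : ((2 * d ^ C : ℕ) : ℝ) ≤ (k : ℝ) := by exact_mod_cast hbig
    have u2 : (k : ℝ) ≤ (2 : ℝ) ^ (k + 1) := by
      have : k ≤ 2 ^ (k + 1) := (Nat.le_succ k).trans (Nat.lt_two_pow_self).le
      exact_mod_cast this
    have u3 : (2 : ℝ) ^ (k + 1) ≤ NN d (k + 1) := by
      unfold NN
      exact le_self_pow₀ (one_le_pow₀ (by norm_num)) (by omega)
    push_cast at u1
    linarith
  have hdC : 0 < (d : ℝ) ^ C := by positivity
  have e1 : 1 ≤ NN d (k + 1) / (d : ℝ) ^ C - NN d (k + 1) / (d : ℝ) ^ (C + 1) := by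
    have v1 : NN d (k + 1) / (d : ℝ) ^ (C + 1) = NN d (k + 1) / (d : ℝ) ^ C / d := by
      rw [pow_succ, div_div]
    have v2 : 2 ≤ NN d (k + 1) / (d : ℝ) ^ C := by
      rw [le_div_iff₀ hdC]
      exact hN
    have v3 : NN d (k + 1) / (d : ℝ) ^ C / d ≤ NN d (k + 1) / (d : ℝ) ^ C / 2 :=
      div_le_div_of_nonneg_left (by linarith) (by norm_num) hd'
    rw [v1]
    linarith
  have e2 : (2 : ℝ) ≤ Real.exp 1 := by
    have := Real.add_one_le_exp (1 : ℝ)
    linarith
  have e3 : Real.exp 1 * Real.exp (-(NN d (k + 1) / (d : ℝ) ^ C)) ≤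
      Real.exp (-(NN d (k + 1) / (d : ℝ) ^ (C + 1))) := by
    rw [← Real.exp_add, Real.exp_le_exp]
    linarith
  have e4 : 2 * Real.exp (-(NN d (k + 1) / (d : ℝ) ^ C)) ≤
      Real.exp 1 * Real.exp (-(NN d (k + 1) / (d : ℝ) ^ C)) :=
    mul_le_mul_of_nonneg_right e2 (Real.exp_pos _).le
  linarith

private theorem A10_card {d k s : ℕ} :
    Fintype.card (Fin d → Fin (2 ^ (k + 1 - s))) = (2 ^ (k + 1 - s)) ^ d := by
  simp

private theorem A10_NN {d k s : ℕ} (hk : s ≤ k) :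
    NN d (k + 1) = ((Fintype.card (Fin d → Fin (2 ^ (k + 1 - s))) : ℕ) : ℝ) * ((2 : ℝ) ^ s) ^ d := by
  rw [A10_card]
  push_cast
  unfold NN
  rw [← mul_pow, ← pow_add]
  congr 2
  omega

theorem box_rare' (K : ℕ) : ∃ C d₀ : ℕ, ∀ d q : ℕ, d₀ ≤ d → Rg d q → ∀ s : ℕ, 1 ≤ s →
    cG (bG d (2 ^ s)) (fun F : BxV d (2 ^ s) → Fin q => EvB K F) ≤
      cG (bG d (2 ^ s)) (fun _ : BxV d (2 ^ s) → Fin q => True) * (q : ℝ) ^ ((2 ^ s + 1) ^ d - (2 ^ s - 1) ^ d) *
        Real.exp (-((2 : ℝ) ^ s) ^ d / (d : ℝ) ^ C) := by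
  obtain ⟨C₁, d₁, hF⟩ := few_bad (K + 1)
  obtain ⟨C₂, d₂, hT⟩ := typ (K + 1)
  refine ⟨max C₁ C₂ + 1, max (max d₁ d₂) 2, ?_⟩
  intro d q hd hRg s hs
  have hd1 : d₁ ≤ d := (le_max_left _ _).trans ((le_max_left _ _).trans hd)
  have hd2 : d₂ ≤ d := (le_max_right _ _).trans ((le_max_left _ _).trans hd)
  have hd3 : 2 ≤ d := (le_max_right _ _).trans hd
  set C := max C₁ C₂ with hC
  have hq : 1 ≤ q := by
    have := hRg.2.2
    omega
  obtain ⟨k, ⟨hk1, hk2⟩, hk3, hk4⟩ := (((hF d q hd1 hRg).and (hT d q hd2 hRg)).and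
    ((eventually_ge_atTop s).and (eventually_ge_atTop (2 * d ^ C)))).exists
  have r1 := A10_mono (by omega : 1 ≤ d) (le_max_left C₁ C₂) hk1
  have r2 := A10_mono (by omega : 1 ≤ d) (le_max_right C₁ C₂) hk2
  rw [← hC] at r1 r2
  have t1 := A10_torus hd3 hs hk3 r1 r2 hk4
  have t2 := tile_lower (d := d) (k := k) (s := s) (q := q) hs hk3 hq (EvB K)
  have t3 := tile_upper (d := d) (k := k) (s := s) (q := q) hs hk3
  have t4 := A10_NN (d := d) (k := k) (s := s) hk3
  have t5 : Fintype.card (Fin d → Fin (2 ^ (k + 1 - s))) ≠ 0 := by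
    rw [A10_card]
    positivity
  set M := Fintype.card (Fin d → Fin (2 ^ (k + 1 - s))) with hM
  rw [card_bdy d (2 ^ s) Nat.one_le_two_pow] at t2
  set X := cG (bG d (2 ^ s)) (fun F : BxV d (2 ^ s) → Fin q => EvB K F) with hX
  set Y := cG (bG d (2 ^ s)) (fun _ : BxV d (2 ^ s) → Fin q => True) with hY
  set B := (q : ℝ) ^ ((2 ^ s + 1) ^ d - (2 ^ s - 1) ^ d) with hB
  set E := Real.exp (-((2 : ℝ) ^ s) ^ d / (d : ℝ) ^ (C + 1)) with hE
  have hY0 : 0 ≤ Y := by
    rw [hY]
    unfold cG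
    positivity
  have hB0 : 0 ≤ B := by positivity
  have hE0 : 0 < E := Real.exp_pos _
  have hEM : Real.exp (-(NN d (k + 1) / (d : ℝ) ^ (C + 1))) = E ^ M := by
    rw [hE, ← Real.exp_nat_mul, t4]
    congr 1
    ring
  rw [hEM] at t1
  have main : X ^ M ≤ (Y * B * E) ^ M := by
    calc X ^ M ≤ B ^ M * _ := t2
      _ ≤ B ^ M * (ZZ d (k + 1) q * E ^ M) := mul_le_mul_of_nonneg_left t1 (by positivity)
      _ ≤ B ^ M * (Y ^ M * E ^ M) :=
        mul_le_mul_of_nonneg_left (mul_le_mul_of_nonneg_right t3 (by positivity)) (by positivity)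
      _ = (Y * B * E) ^ M := by
        rw [mul_pow, mul_pow]
        ring
  exact le_of_pow_le_pow_left₀ t5 (by positivity) main

end Pool.Agent.LC

end

/-! ### from `Lib_MP_2c424f_lc2.A12` -/

section

/-!
# LC2 A12: the box event in many cells of a graph

`X₀` := `X` without the edges which join a vertex of the image of a cell `κ j`, `j ∈ S`, to a vertex outside this image.  The cut edges
start at boundary points (`Cells.cl`: `inn 1` points have no neighbours outside), so there are at most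
`|S| · |bdy| · 4 d` of them.  `prod_cells` for `X₀` (`P = EvB K`) and `box_rare'`:
`cG X E ≤ cG X₀ E ≤ cG X₀ True (q^|bdy| exp (-l^d/d^C))^|S|` (`l = 2^s`), and `COR.add_edges` (`G = X₀`, `G' = X`):
`cG X₀ True ≤ (1 - 1/q)^(-|S| |bdy| 4 d) cG X True`.  `|bdy| = (l+1)^d - (l-1)^d ≤ 4 d l^(d-1)` if `l ≥ 2 d` (Bernoulli:
`(1+1/l)^d ≤ exp (d/l) ≤ 1 + 2 d/l`, `(1-1/l)^d ≥ 1 - d/l`); `log q + 8 d/q·.. ≤ d`
(`-log (1 - 1/q) ≤ 2/q`, `4 d · 2/q ≤ 4000·..`), so the total exponent is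
`≤ |S| (4 d l^(d-1) · (d + 8000) - l^d/d^C) ≤ -|S| l^d/d^(C+4)` for `l ≥ d^(C+4)` and `d` large.
-/

set_option autoImplicit false

open Finset Filter

namespace Pool.Agent.LC

open Pool.Agent.LO Pool.Agent.LIN Pool.Agent.THR Pool.Agent.COR

/-- `X` without the edges which leave a cell -/
def A12_cut {V ι U : Type} (X : SimpleGraph V) (S : Finset ι) (κ : ι → U → V) : SimpleGraph V where
  Adj v w := X.Adj v w ∧ ∀ j ∈ S, (∃ u, v = κ j u) ↔ (∃ u, w = κ j u)
  symm := ⟨fun _ _ h => ⟨h.1.symm, fun j hj => (h.2 j hj).symm⟩⟩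
  loopless := ⟨fun v h => X.loopless.irrefl v h.1⟩

theorem A12_exp {x : ℝ} (h0 : 0 ≤ x) (h1 : x ≤ 1 / 2) : Real.exp (-(2 * x)) ≤ 1 - x := by
  have h2 : 0 < 1 + 2 * x := by linarith
  have h3 : 1 + 2 * x ≤ Real.exp (2 * x) := by
    have := Real.add_one_le_exp (2 * x)
    linarith
  rw [Real.exp_neg]
  calc (Real.exp (2 * x))⁻¹ ≤ (1 + 2 * x)⁻¹ := inv_anti₀ h2 h3
    _ ≤ 1 - x := by
      rw [inv_le_iff_one_le_mul₀ h2]
      nlinarith

/-- `(l+1)^d - (l-1)^d ≤ 4 d l^d / l` -/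
theorem A12_bern {d : ℕ} {l : ℝ} (hd : 1 ≤ d) (hl : 2 * d ≤ l) :
    (l + 1) ^ d - (l - 1) ^ d ≤ 4 * d * (l ^ d / l) := by
  have hd' : (1 : ℝ) ≤ d := by exact_mod_cast hd
  have hl0 : 0 < l := by linarith
  have hx0 : (0 : ℝ) ≤ 1 / l := by positivity
  have hx2 : (d : ℝ) / l ≤ 1 / 2 := by
    rw [div_le_iff₀ hl0]
    linarith
  have hx1 : (1 : ℝ) / l ≤ 1 := by
    rw [div_le_one hl0]
    linarith
  have h1 : (l + 1) ^ d = l ^ d * (1 + 1 / l) ^ d := by
    rw [← mul_pow]
    congr 1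
    field_simp
  have h2 : (l - 1) ^ d = l ^ d * (1 + (-(1 / l))) ^ d := by
    rw [← mul_pow]
    congr 1
    field_simp
    ring
  have h3 : (1 + 1 / l) ^ d ≤ 1 + 2 * (d / l) := by
    have h4 : (1 + 1 / l) ^ d ≤ Real.exp (d / l) := by
      calc (1 + 1 / l) ^ d ≤ (Real.exp (1 / l)) ^ d := by
            refine pow_le_pow_left₀ (by positivity) ?_ _
            have := Real.add_one_le_exp (1 / l)
            linarith
        _ = Real.exp (d / l) := by
            rw [← Real.exp_nat_mul]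
            congr 1
            ring
    have h5 : Real.exp (d / l) ≤ 1 + 2 * (d / l) := by
      have hy0 : (0 : ℝ) ≤ d / l := by positivity
      have h6 := A12_exp (x := 1 - 1 / (1 + 2 * (d / l))) (by
        rw [sub_nonneg, div_le_one (by positivity)]
        linarith) (by
        have : (1 : ℝ) / 2 ≤ 1 / (1 + 2 * (d / l)) := by
          rw [div_le_div_iff₀ (by norm_num) (by positivity)]
          linarith
        linarith)
      have h7 : Real.exp (-(d / l)) ≥ 1 / (1 + 2 * (d / l)) := by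
        have h8 := Real.add_one_le_exp (-(d / l))
        have h9 : 1 / (1 + 2 * ((d : ℝ) / l)) ≤ -(d / l) + 1 := by
          rw [div_le_iff₀ (by positivity)]
          nlinarith
        linarith
      rw [Real.exp_neg] at h7
      have h8 : (0 : ℝ) < 1 + 2 * (d / l) := by positivity
      rw [ge_iff_le, one_div] at h7
      exact (inv_le_inv₀ h8 (Real.exp_pos _)).1 h7
    exact h4.trans h5
  have h4 : 1 - d / l ≤ (1 + (-(1 / l))) ^ d := by
    have h5 := one_add_mul_le_pow (a := -(1 / l)) (by linarith) d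
    refine le_trans (le_of_eq ?_) h5
    ring
  have hp : 0 < l ^ d := pow_pos hl0 d
  rw [h1, h2]
  have h5 : l ^ d * (1 + 1 / l) ^ d ≤ l ^ d * (1 + 2 * (d / l)) := mul_le_mul_of_nonneg_left h3 hp.le
  have h6 : l ^ d * (1 - d / l) ≤ l ^ d * (1 + (-(1 / l))) ^ d := mul_le_mul_of_nonneg_left h4 hp.le
  have h7 : l ^ d * (1 + 2 * (d / l)) - l ^ d * (1 - d / l) = 3 * d * (l ^ d / l) := by ring
  have h8 : 3 * d * (l ^ d / l) ≤ 4 * d * (l ^ d / l) := by
    have : 0 ≤ (d : ℝ) * (l ^ d / l) := by positivity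
    linarith
  linarith

theorem A12_pos {d l q : ℕ} (hq : 2 ≤ q) : 0 < cG (bG d l) (fun _ : BxV d l → Fin q => True) := by
  classical
  unfold cG
  rw [Nat.cast_pos, Finset.card_pos]
  refine ⟨fun u => if bev u then ⟨0, by omega⟩ else ⟨1, by omega⟩, ?_⟩
  simp only [Finset.mem_filter, Finset.mem_univ, true_and, and_true]
  rintro x y ⟨i, h1, h2⟩
  have hsum : (∑ j, (x j).val) + (y i).val = (∑ j, (y j).val) + (x i).val := by
    rw [← Finset.add_sum_erase _ _ (Finset.mem_univ i), ← Finset.add_sum_erase (a := i) univ (fun j => (y j).val)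
      (Finset.mem_univ i)]
    have : ∑ j ∈ univ.erase i, (x j).val = ∑ j ∈ univ.erase i, (y j).val :=
      Finset.sum_congr rfl fun j hj => by rw [h1 j (Finset.ne_of_mem_erase hj)]
    omega
  have hpar : bev x ↔ ¬ bev y := by
    unfold bev
    rw [Nat.not_even_iff_odd, Nat.even_iff, Nat.odd_iff]
    omega
  by_cases hx : bev x
  · have hy := hpar.1 hx
    simp [hx, hy]
  · have hy : bev y := by
      by_contra h
      exact hx (hpar.2 h)
    simp [hx, hy]

theorem A12_main {K C0 d q l : ℕ} (hd200 : 200 ≤ d) (hR : Rg d q) (hl1 : 1 ≤ l) (hdC : (d : ℝ) ^ (C0 + 4) ≤ l)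
    (hbox : cG (bG d l) (fun F : BxV d l → Fin q => EvB K F) ≤
      cG (bG d l) (fun _ : BxV d l → Fin q => True) * (q : ℝ) ^ ((l + 1) ^ d - (l - 1) ^ d) *
        Real.exp (-(l : ℝ) ^ d / (d : ℝ) ^ C0))
    (V ι : Type) [Fintype V] [DecidableEq V] (X : SimpleGraph V) (ev : V → Prop) (κ : ι → BxV d l → V)
    (hP : Par X ev) (hC : Cells d l X ev κ) (hdeg : ∀ v, (nb X v).card ≤ 4 * d) (S : Finset ι) :
    cG X (fun F : V → Fin q => ∀ j ∈ S, EvB K fun u => F (κ j u)) ≤
      cG X (fun _ : V → Fin q => True) * Real.exp (-(S.card * (l : ℝ) ^ d / (d : ℝ) ^ (C0 + 4))) := by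
  classical
  have hd200' : (200 : ℝ) ≤ d := by exact_mod_cast hd200
  obtain ⟨hqe, hq1, hq2⟩ := hR
  have hq : 2 ≤ q := by
    obtain ⟨r, hr⟩ := hqe
    omega
  have hqd : q ≤ d := by omega
  have hd1 : (1 : ℝ) ≤ d := by linarith
  have hdpow : (d : ℝ) ^ 4 ≤ (d : ℝ) ^ (C0 + 4) := pow_le_pow_right₀ hd1 (by omega)
  have hl2 : 2 * (d : ℝ) ≤ l := by
    have : 2 * (d : ℝ) ≤ (d : ℝ) ^ 4 := by
      have h1 : (d : ℝ) ^ 4 = d * d ^ 3 := by ring
      have h2 : (2 : ℝ) ≤ (d : ℝ) ^ 3 := by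
        calc (2 : ℝ) ≤ d := by linarith
          _ = d ^ 1 := (pow_one _).symm
          _ ≤ d ^ 3 := pow_le_pow_right₀ hd1 (by omega)
      rw [h1, mul_comm]
      exact mul_le_mul_of_nonneg_left h2 (by linarith)
    linarith
  have hl0 : (0 : ℝ) < l := by linarith
  -- the cut graph
  set X0 := A12_cut X S κ with hX0
  have hle : X0 ≤ X := fun v w h => h.1
  set E : Finset (V × V) := S.biUnion fun j => (bdy d l).biUnion fun u => (nb X (κ j u)).image fun w => (κ j u, w)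
    with hE
  have hbd : ∀ j u v, X.Adj (κ j u) v → (∀ u', v ≠ κ j u') → u ∈ bdy d l := by
    intro j u v h1 h2
    by_contra h3
    have h4 : inn 1 u := by
      intro i
      have h5 : ¬ ((u i).val = 0 ∨ (u i).val = l) := fun h => h3 (by
        unfold bdy
        rw [Finset.mem_filter]
        exact ⟨Finset.mem_univ _, i, h⟩)
      rw [not_or] at h5
      have h6 := (u i).isLt
      constructor
      · omega
      · omega
    obtain ⟨u', hu'⟩ := hC.cl j u h4 v h1
    exact h2 u' hu'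
  have hcardE : E.card ≤ S.card * ((bdy d l).card * (4 * d)) := by
    refine Finset.card_biUnion_le.trans ?_
    calc _ ≤ ∑ _j ∈ S, (bdy d l).card * (4 * d) := by
          refine Finset.sum_le_sum fun j _ => Finset.card_biUnion_le.trans ?_
          calc _ ≤ ∑ _u ∈ bdy d l, 4 * d :=
                Finset.sum_le_sum fun u _ => Finset.card_image_le.trans (hdeg _)
            _ = _ := by rw [Finset.sum_const, smul_eq_mul]
      _ = _ := by rw [Finset.sum_const, smul_eq_mul]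
  have hadd := add_edges (q := q) hP hle (by omega) E (by
    intro x y hxy
    by_cases h : ∀ j ∈ S, (∃ u, x = κ j u) ↔ (∃ u, y = κ j u)
    · left
      exact ⟨hxy, h⟩
    · right
      push Not at h
      obtain ⟨j, hj, h⟩ := h
      rcases h with ⟨⟨u, rfl⟩, h2⟩ | ⟨h1, ⟨u, rfl⟩⟩
      · left
        refine Finset.mem_biUnion.2 ⟨j, hj, Finset.mem_biUnion.2 ⟨u, hbd j u y hxy h2, ?_⟩⟩
        exact Finset.mem_image.2 ⟨y, by simp [nb, hxy], rfl⟩
      · right
        refine Finset.mem_biUnion.2 ⟨j, hj, Finset.mem_biUnion.2 ⟨u, hbd j u x hxy.symm h1, ?_⟩⟩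
        exact Finset.mem_image.2 ⟨x, by simp [nb, hxy.symm], rfl⟩)
  -- the product formula
  have hprod := prod_cells (V := V) (ι := ι) (fun _ => BxV d l) (q := q) (by omega) X0 S (fun _ => bG d l) κ
    (fun j _ u u' h => (hC.inj j j u u' h).2) (fun j _ j' _ hne u u' h => hne (hC.inj j j' u u' h).1)
    (fun j hj u u' => by
      constructor
      · intro h
        exact (hC.adj j u u').1 h.1
      · intro h
        refine ⟨(hC.adj j u u').2 h, fun j' hj' => ?_⟩
        constructor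
        · rintro ⟨w, hw⟩
          obtain ⟨h1, -⟩ := hC.inj _ _ _ _ hw
          exact ⟨u', by rw [h1]⟩
        · rintro ⟨w, hw⟩
          obtain ⟨h1, -⟩ := hC.inj _ _ _ _ hw
          exact ⟨u, by rw [h1]⟩)
    (fun j hj u v h => by
      obtain ⟨u', hu'⟩ := (h.2 j hj).1 ⟨u, rfl⟩
      exact ⟨u', hu'⟩) (fun _ => EvB K)
  rw [Finset.prod_const, Finset.prod_const] at hprod
  set Zb := cG (bG d l) (fun _ : BxV d l → Fin q => True) with hZb
  have hZb0 : 0 < Zb := A12_pos hq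
  set b : ℕ := (l + 1) ^ d - (l - 1) ^ d with hb
  have hbc : (bdy d l).card = b := card_bdy d l hl1
  have hev : cG (bG d l) (fun F : BxV d l → Fin q => EvB K F) ≤
      Zb * ((q : ℝ) ^ b * Real.exp (-(l : ℝ) ^ d / (d : ℝ) ^ C0)) := by
    rw [← mul_assoc]
    exact hbox
  have hn : ∀ (G : SimpleGraph V) (P : (V → Fin q) → Prop), 0 ≤ cG G P := fun G P => by
    unfold cG
    positivity
  set e0 : ℝ := (q : ℝ) ^ b * Real.exp (-(l : ℝ) ^ d / (d : ℝ) ^ C0) with he0
  have he00 : 0 ≤ e0 := by positivity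
  have h1 : cG X0 (fun F : V → Fin q => ∀ j ∈ S, EvB K fun u => F (κ j u)) ≤
      cG X0 (fun _ : V → Fin q => True) * e0 ^ S.card := by
    have h2 : cG X0 (fun F : V → Fin q => ∀ j ∈ S, EvB K fun u => F (κ j u)) * Zb ^ S.card ≤
        (cG X0 (fun _ : V → Fin q => True) * e0 ^ S.card) * Zb ^ S.card := by
      rw [hprod]
      calc _ ≤ cG X0 (fun _ : V → Fin q => True) * (Zb * e0) ^ S.card := by
            refine mul_le_mul_of_nonneg_left (pow_le_pow_left₀ ?_ hev _) (hn _ _)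
            unfold cG
            positivity
        _ = _ := by rw [mul_pow]; ring
    exact le_of_mul_le_mul_right h2 (pow_pos hZb0 _)
  have h2 : cG X (fun F : V → Fin q => ∀ j ∈ S, EvB K fun u => F (κ j u)) ≤
      cG X0 (fun F : V → Fin q => ∀ j ∈ S, EvB K fun u => F (κ j u)) := by
    unfold cG
    refine Nat.cast_le.2 (Finset.card_le_card fun F hF => ?_)
    simp only [Finset.mem_filter, Finset.mem_univ, true_and] at hF ⊢
    exact ⟨fun x y hxy => hF.1 x y (hle hxy), hF.2⟩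
  -- the cost of the cut
  have hqR : (2 : ℝ) ≤ q := by exact_mod_cast hq
  have hqdR : (q : ℝ) ≤ d := by exact_mod_cast hqd
  have hdq : (d : ℝ) / q ≤ 1000 := by
    rw [div_le_iff₀ (by linarith)]
    have : (2 * d : ℝ) ≤ 2000 * q := by exact_mod_cast hq2
    linarith
  have h3 : cG X0 (fun _ : V → Fin q => True) ≤
      cG X (fun _ : V → Fin q => True) * Real.exp (S.card * (b * 8000)) := by
    have h4 := A12_exp (x := 1 / (q : ℝ)) (by positivity) (one_div_le_one_div_of_le (by norm_num) hqR)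
    have h5 : Real.exp (-(S.card * (b * 8000))) ≤ (1 - 1 / (q : ℝ)) ^ E.card := by
      calc Real.exp (-(S.card * (b * 8000))) ≤ Real.exp (E.card * -(2 * (1 / (q : ℝ)))) := by
            apply Real.exp_le_exp.2
            have h6 : (E.card : ℝ) ≤ S.card * (b * (4 * d)) := by
              rw [hbc] at hcardE
              exact_mod_cast hcardE
            have h7 : (E.card : ℝ) * (2 * (1 / (q : ℝ))) ≤ S.card * (b * (4 * d)) * (2 * (1 / (q : ℝ))) :=
              mul_le_mul_of_nonneg_right h6 (by positivity)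
            have h8 : (S.card : ℝ) * (b * (4 * d)) * (2 * (1 / (q : ℝ))) = S.card * (b * (8 * (d / q))) := by ring
            have h9 : (S.card : ℝ) * (b * (8 * (d / q))) ≤ S.card * (b * 8000) := by
              refine mul_le_mul_of_nonneg_left (mul_le_mul_of_nonneg_left ?_ (Nat.cast_nonneg _))
                (Nat.cast_nonneg _)
              linarith
            linarith
        _ = Real.exp (-(2 * (1 / (q : ℝ)))) ^ E.card := by rw [Real.exp_nat_mul]
        _ ≤ _ := pow_le_pow_left₀ (Real.exp_pos _).le h4 _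
    have h6 : Real.exp (-(S.card * (b * 8000))) * cG X0 (fun _ : V → Fin q => True) ≤
        cG X (fun _ : V → Fin q => True) := (mul_le_mul_of_nonneg_right h5 (hn _ _)).trans hadd
    calc cG X0 (fun _ : V → Fin q => True)
        = Real.exp (-(S.card * (b * 8000))) * cG X0 (fun _ : V → Fin q => True) *
            Real.exp (S.card * (b * 8000)) := by
          rw [mul_right_comm, ← Real.exp_add]
          simp
      _ ≤ _ := mul_le_mul_of_nonneg_right h6 (Real.exp_pos _).le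
  -- the exponent
  have hexp : b * 8000 + (b * Real.log q - (l : ℝ) ^ d / (d : ℝ) ^ C0) ≤
      -((l : ℝ) ^ d / (d : ℝ) ^ (C0 + 4)) := by
    have hbR : (b : ℝ) ≤ 4 * d * ((l : ℝ) ^ d / l) := by
      have h5 : (b : ℝ) = ((l : ℝ) + 1) ^ d - ((l : ℝ) - 1) ^ d := by
        rw [hb, Nat.cast_sub (Nat.pow_le_pow_left (by omega) _)]
        push_cast [Nat.cast_sub hl1]
        ring
      rw [h5]
      exact A12_bern (by omega) hl2
    have hlog : Real.log q ≤ d := (Real.log_le_self (by linarith)).trans hqdR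
    have hp : 0 < (l : ℝ) ^ d := pow_pos hl0 _
    have h5 : (b : ℝ) * 8000 + b * Real.log q ≤ 4 * d * ((l : ℝ) ^ d / l) * (8000 + d) := by
      have h6 : (b : ℝ) * 8000 + b * Real.log q = b * (8000 + Real.log q) := by ring
      rw [h6]
      have h7 : 0 ≤ Real.log q := Real.log_nonneg (by linarith)
      calc (b : ℝ) * (8000 + Real.log q) ≤ b * (8000 + d) :=
            mul_le_mul_of_nonneg_left (by linarith) (Nat.cast_nonneg _)
        _ ≤ _ := mul_le_mul_of_nonneg_right hbR (by linarith)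
    have hdC0 : 0 < (d : ℝ) ^ C0 := by positivity
    have h6 : 4 * d * ((l : ℝ) ^ d / l) * (8000 + d) ≤ (l : ℝ) ^ d / (d : ℝ) ^ (C0 + 1) := by
      have h7 : (l : ℝ) ^ d / l ≤ (l : ℝ) ^ d / (d : ℝ) ^ (C0 + 4) :=
        div_le_div_of_nonneg_left hp.le (by positivity) hdC
      have h8 : 4 * (d : ℝ) * (8000 + d) ≤ (d : ℝ) ^ 3 := by nlinarith [hd200', sq_nonneg (d : ℝ)]
      calc 4 * d * ((l : ℝ) ^ d / l) * (8000 + d) = (4 * (d : ℝ) * (8000 + d)) * ((l : ℝ) ^ d / l) := by ring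
        _ ≤ (d : ℝ) ^ 3 * ((l : ℝ) ^ d / (d : ℝ) ^ (C0 + 4)) :=
          mul_le_mul h8 h7 (by positivity) (by positivity)
        _ = (l : ℝ) ^ d / (d : ℝ) ^ (C0 + 1) := by
          rw [pow_add, pow_add]
          field_simp
    have h7 : (l : ℝ) ^ d / (d : ℝ) ^ (C0 + 1) ≤ 1 / 200 * ((l : ℝ) ^ d / (d : ℝ) ^ C0) := by
      rw [pow_succ]
      have h8 : (l : ℝ) ^ d / ((d : ℝ) ^ C0 * d) = (1 / d) * ((l : ℝ) ^ d / (d : ℝ) ^ C0) := by
        field_simp
      rw [h8]
      refine mul_le_mul_of_nonneg_right ?_ (by positivity)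
      exact one_div_le_one_div_of_le (by norm_num) hd200'
    have h8 : (l : ℝ) ^ d / (d : ℝ) ^ (C0 + 4) ≤ (l : ℝ) ^ d / (d : ℝ) ^ (C0 + 1) :=
      div_le_div_of_nonneg_left hp.le (by positivity) (pow_le_pow_right₀ hd1 (by omega))
    have h9 : 0 < (l : ℝ) ^ d / (d : ℝ) ^ C0 := by positivity
    linarith
  have h4 : e0 = Real.exp (b * Real.log q - (l : ℝ) ^ d / (d : ℝ) ^ C0) := by
    rw [he0, sub_eq_add_neg, Real.exp_add, ← neg_div]
    congr 1
    rw [Real.exp_nat_mul, Real.exp_log (by linarith)]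
  calc _ ≤ _ := h2
    _ ≤ _ := h1
    _ ≤ (cG X (fun _ : V → Fin q => True) * Real.exp (S.card * (b * 8000))) * e0 ^ S.card :=
        mul_le_mul_of_nonneg_right h3 (pow_nonneg he00 _)
    _ = cG X (fun _ : V → Fin q => True) * Real.exp (S.card * (b * 8000 +
          (b * Real.log q - (l : ℝ) ^ d / (d : ℝ) ^ C0))) := by
        rw [h4, ← Real.exp_nat_mul, mul_assoc, ← Real.exp_add]
        congr 2
        ring
    _ ≤ _ := by
        refine mul_le_mul_of_nonneg_left (Real.exp_le_exp.2 ?_) (hn _ _)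
        calc (S.card : ℝ) * (b * 8000 + (b * Real.log q - (l : ℝ) ^ d / (d : ℝ) ^ C0))
            ≤ S.card * -((l : ℝ) ^ d / (d : ℝ) ^ (C0 + 4)) :=
              mul_le_mul_of_nonneg_left hexp (Nat.cast_nonneg _)
          _ = _ := by ring

theorem cells_rare' (K : ℕ) : ∃ C d₀ : ℕ, ∀ d q : ℕ, d₀ ≤ d → Rg d q → ∀ s : ℕ, (d : ℝ) ^ C ≤ 2 ^ s →
    ∀ (V ι : Type) [Fintype V] [DecidableEq V] (X : SimpleGraph V) (ev : V → Prop) (κ : ι → BxV d (2 ^ s) → V),
      Par X ev → Cells d (2 ^ s) X ev κ → (∀ v, (nb X v).card ≤ 4 * d) → ∀ S : Finset ι,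
      cG X (fun F : V → Fin q => ∀ j ∈ S, EvB K fun u => F (κ j u)) ≤
        cG X (fun _ : V → Fin q => True) * Real.exp (-(S.card * ((2 : ℝ) ^ s) ^ d / (d : ℝ) ^ C)) := by
  obtain ⟨C0, d0, hbox⟩ := box_rare' K
  refine ⟨C0 + 4, max d0 200, ?_⟩
  intro d q hd hR s hs V ι _ _ X ev κ hP hC hdeg S
  have hd200 : 200 ≤ d := (le_max_right _ _).trans hd
  have hd1 : (1 : ℝ) < d := by
    have : (200 : ℝ) ≤ d := by exact_mod_cast hd200
    linarith
  have hs1 : 1 ≤ s := by
    by_contra h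
    have h1 : s = 0 := by omega
    rw [h1, pow_zero] at hs
    have h2 : (1 : ℝ) < (d : ℝ) ^ (C0 + 4) := one_lt_pow₀ hd1 (by omega)
    linarith
  have h := A12_main (l := 2 ^ s) hd200 hR Nat.one_le_two_pow (by push_cast; exact hs) (by
    have := hbox d q ((le_max_left _ _).trans hd) hR s hs1
    push_cast
    exact this) V ι X ev κ hP hC hdeg S
  push_cast at h
  exact h

end Pool.Agent.LC

end

/-! ### from `Lib_MP_2c424f_lc.PII` -/

section

/-!
# Part II: transfer to boxes and to cells of a graph (main statements)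
-/

set_option autoImplicit false

open Finset Filter

namespace Pool.Agent.LC

open Pool.Agent.LO Pool.Agent.LIN Pool.Agent.THR Pool.Agent.COR

/-- II.1 -/
theorem box_rare (K : ℕ) : ∃ C d₀ : ℕ, ∀ d q : ℕ, d₀ ≤ d → Rg d q → ∀ s : ℕ, 1 ≤ s →
    cG (bG d (2 ^ s)) (fun F : BxV d (2 ^ s) → Fin q => EvB K F) ≤
      cG (bG d (2 ^ s)) (fun _ : BxV d (2 ^ s) → Fin q => True) * (q : ℝ) ^ ((2 ^ s + 1) ^ d - (2 ^ s - 1) ^ d) *
        Real.exp (-((2 : ℝ) ^ s) ^ d / (d : ℝ) ^ C) :=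
  box_rare' K

/-- II.3 -/
theorem cells_rare (K : ℕ) : ∃ C d₀ : ℕ, ∀ d q : ℕ, d₀ ≤ d → Rg d q → ∀ s : ℕ, (d : ℝ) ^ C ≤ 2 ^ s →
    ∀ (V ι : Type) [Fintype V] [DecidableEq V] (X : SimpleGraph V) (ev : V → Prop) (κ : ι → BxV d (2 ^ s) → V),
      Par X ev → Cells d (2 ^ s) X ev κ → (∀ v, (nb X v).card ≤ 4 * d) → ∀ S : Finset ι,
      cG X (fun F : V → Fin q => ∀ j ∈ S, EvB K fun u => F (κ j u)) ≤
        cG X (fun _ : V → Fin q => True) * Real.exp (-(S.card * ((2 : ℝ) ^ s) ^ d / (d : ℝ) ^ C)) :=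
  cells_rare' K

end Pool.Agent.LC

end

/-! ### from `Lib_MP_2c424f_lc2.B05` -/

section

/-!
# LC2 B05: homogeneous bad configurations on small tori

`chessB` with `Γ = univ` for `k` large: `cE .. univ ≤ ZZ exp (-N_big/d^C)`, `N_big = M N`, `N = ∏ 2 L i`; `tile_trans`, `ZZ_le_Zt`
(`cG (WG (fun _ => true) ..) True = Zt (fun i => lm true (L i) s + 1)` is `rfl`, and `(fun i => lm true (2^r i) s + 1) = fun i => 2^(r i+1)`); `M`-th root: `≤ Z q^|bdy| exp (-N/d^C)`, `|bdy| ≤ N d/(2 min L)`,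
`log q ≤ d`, so for `L i ≥ d^(C+3)` it is `≤ Z exp (-N/d^(C+1))`.
-/

set_option autoImplicit false

open Finset

namespace Pool.Agent.LC

open Pool.Agent.LO Pool.Agent.LIN Pool.Agent.THR Pool.Agent.COR

private theorem b05_lm (r s : ℕ) : lm true (2 ^ r) s + 1 = 2 ^ (r + 1) := by
  unfold lm
  have h : 1 ≤ 2 ^ r := Nat.one_le_two_pow
  rw [if_pos rfl, pow_succ]
  omega

open scoped Classical in
private theorem b05_face {d s : ℕ} (r : Fin d → ℕ) (i : Fin d) :
    (((univ.filter fun x : WV (fun _ : Fin d => true) (fun i => 2 ^ r i) s =>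
      (x i).val = 0).card : ℕ) : ℝ) = (∏ j, (2 : ℝ) * 2 ^ r j) / (2 * 2 ^ r i) := by
  have h1 : (univ.filter fun x : WV (fun _ : Fin d => true) (fun i => 2 ^ r i) s =>
      (x i).val = 0) = Fintype.piFinset (fun j => if j = i then {0} else univ) := by
    ext x
    simp only [mem_filter, mem_univ, true_and, Fintype.mem_piFinset]
    constructor
    · intro h j
      by_cases hj : j = i
      · subst hj
        rw [if_pos rfl, mem_singleton]
        exact Fin.ext h
      · rw [if_neg hj]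
        exact mem_univ _
    · intro h
      have h2 := h i
      rw [if_pos rfl, mem_singleton] at h2
      rw [h2]
      rfl
  rw [h1, Fintype.card_piFinset]
  have h2 : ∀ j, ((if j = i then {0} else univ : Finset (Fin (lm true (2 ^ r j) s + 1))).card : ℝ) =
      if j = i then 1 else 2 * 2 ^ r j := by
    intro j
    by_cases hj : j = i
    · rw [if_pos hj, if_pos hj, card_singleton]
      simp
    · rw [if_neg hj, if_neg hj, card_univ, Fintype.card_fin, b05_lm]
      push_cast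
      ring
  rw [Nat.cast_prod]
  have h3 : ∏ j, ((if j = i then {0} else univ : Finset (Fin (lm true (2 ^ r j) s + 1))).card : ℝ) =
      ∏ j, (if j = i then (1 : ℝ) else 2 * 2 ^ r j) := prod_congr rfl fun j _ => h2 j
  refine Eq.trans h3 ?_
  rw [eq_div_iff (by positivity), ← mul_prod_erase univ _ (mem_univ i),
    ← mul_prod_erase univ (fun j => (2 : ℝ) * 2 ^ r j) (mem_univ i), if_pos rfl, one_mul,
    mul_comm]
  congr 1
  apply prod_congr rfl
  intro j hj
  rw [if_neg (ne_of_mem_erase hj)]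

open scoped Classical in
private theorem b05_bdy {d s : ℕ} (r : Fin d → ℕ) {D : ℝ} (hD : 0 < D) (hr : ∀ i, D ≤ 2 ^ r i) :
    (((univ.filter fun x : WV (fun _ : Fin d => true) (fun i => 2 ^ r i) s =>
      ∃ i, (x i).val = 0).card : ℕ) : ℝ) ≤ d * ((∏ j, (2 : ℝ) * 2 ^ r j) / D) := by
  have h1 : (univ.filter fun x : WV (fun _ : Fin d => true) (fun i => 2 ^ r i) s =>
      ∃ i, (x i).val = 0) ⊆ univ.biUnion fun i =>
        univ.filter fun x : WV (fun _ : Fin d => true) (fun i => 2 ^ r i) s => (x i).val = 0 := by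
    intro x hx
    simp only [mem_filter, mem_univ, true_and, mem_biUnion] at hx ⊢
    exact hx
  have h2 := (card_le_card h1).trans card_biUnion_le
  have h3 : (((univ.filter fun x : WV (fun _ : Fin d => true) (fun i => 2 ^ r i) s =>
      ∃ i, (x i).val = 0).card : ℕ) : ℝ) ≤ ∑ i, (((univ.filter fun x :
        WV (fun _ : Fin d => true) (fun i => 2 ^ r i) s => (x i).val = 0).card : ℕ) : ℝ) := by
    exact_mod_cast h2
  refine h3.trans ?_
  have h4 : ∑ i, (((univ.filter fun x :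
        WV (fun _ : Fin d => true) (fun i => 2 ^ r i) s => (x i).val = 0).card : ℕ) : ℝ) ≤
      ∑ _i : Fin d, (∏ j, (2 : ℝ) * 2 ^ r j) / D := by
    apply sum_le_sum
    intro i _
    rw [b05_face]
    apply div_le_div_of_nonneg_left (by positivity) hD
    have := hr i
    have h5 : (0 : ℝ) < 2 ^ r i := by positivity
    linarith
  refine h4.trans (le_of_eq ?_)
  rw [sum_const, card_univ, Fintype.card_fin, nsmul_eq_mul]

private theorem b05_root {x y : ℝ} {m : ℕ} (hx : 0 ≤ x) (hy : 0 ≤ y) (hm : m ≠ 0)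
    (h : x ^ m ≤ y ^ m) : x ≤ y := (pow_le_pow_iff_left₀ hx hy hm).mp h

theorem small_torus : ∃ C d₀ : ℕ, ∀ d q : ℕ, d₀ ≤ d → Rg d q → ∀ (r : Fin d → ℕ) (s : ℕ),
    (∀ i, (d : ℝ) ^ C ≤ 2 ^ r i) → ∀ τ : Option (Fin q),
    cG (WG (fun _ : Fin d => true) (fun i => 2 ^ r i) s) (fun f : WV (fun _ : Fin d => true) (fun i => 2 ^ r i) s → Fin q =>
      WE (fun _ => true) (fun i => 2 ^ r i) s (fun _ => some τ) f) ≤
      cG (WG (fun _ : Fin d => true) (fun i => 2 ^ r i) s)
          (fun _ : WV (fun _ : Fin d => true) (fun i => 2 ^ r i) s → Fin q => True) *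
        Real.exp (-((∏ i, (2 : ℝ) * 2 ^ r i) / (d : ℝ) ^ C)) := by
  classical
  obtain ⟨C₁, d₁, hC⟩ := chessB
  refine ⟨C₁ + 3, max d₁ 2, ?_⟩
  intro d q hd hq r s hr τ
  have hd1 : d₁ ≤ d := (le_max_left _ _).trans hd
  have hd2 : 2 ≤ d := (le_max_right _ _).trans hd
  have hdR : (2 : ℝ) ≤ d := by exact_mod_cast hd2
  have hd0 : (0 : ℝ) < d := by linarith
  have hq1 : 1 ≤ q := by
    obtain ⟨_, _, h3⟩ := hq
    omega
  have hqd : q ≤ d := by
    obtain ⟨_, h2, _⟩ := hq
    omega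
  obtain ⟨k, hk, hkr⟩ := ((hC d q hd1 hq).and
    (Filter.eventually_ge_atTop (∑ i, r i))).exists
  have hrk : ∀ i, r i ≤ k := fun i =>
    (single_le_sum (f := r) (fun _ _ => Nat.zero_le _) (mem_univ i)).trans hkr
  have h1 := tile_trans (s := s) hq1 r hrk τ
  have h2 := hk τ univ
  have h3 := ZZ_le_Zt (q := q) r hrk
  set M : ℕ := 2 ^ ∑ i, (k - r i) with hM
  set N : ℝ := ∏ i, (2 : ℝ) * 2 ^ r i with hN
  have hN0 : 0 < N := by
    rw [hN]
    positivity
  have hM0 : M ≠ 0 := by rw [hM]; positivity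
  -- the two ways to write the number of the colourings of the small torus
  have hZ : cG (WG (fun _ : Fin d => true) (fun i => 2 ^ r i) s)
      (fun _ : WV (fun _ : Fin d => true) (fun i => 2 ^ r i) s → Fin q => True) =
      Zt q (fun i => 2 ^ (r i + 1)) := by
    have e1 : (fun i : Fin d => lm true (2 ^ r i) s + 1) = fun i => 2 ^ (r i + 1) :=
      funext fun i => b05_lm (r i) s
    rw [← e1]
    rfl
  -- number of the points
  have hcard : (2 : ℝ) ^ d / (d : ℝ) ^ C₁ * ((univ : Finset (Blk d k)).card : ℝ) =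
      N / (d : ℝ) ^ C₁ * M := by
    have e1 : ((univ : Finset (Blk d k)).card : ℝ) = (2 ^ k) ^ d := by
      rw [card_univ]
      have : Fintype.card (Blk d k) = (2 ^ k) ^ d := by
        simp [ZMod.card]
      rw [this]
      push_cast
      ring
    have e2 : N * M = 2 ^ d * (2 ^ k) ^ d := by
      have e3 : (M : ℝ) = ∏ i, (2 : ℝ) ^ (k - r i) := by
        rw [hM]
        push_cast
        rw [prod_pow_eq_pow_sum]
      rw [e3, hN, ← prod_mul_distrib]
      have e4 : ∀ i : Fin d, (2 : ℝ) * 2 ^ r i * 2 ^ (k - r i) = 2 * 2 ^ k := by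
        intro i
        rw [mul_assoc, ← pow_add, Nat.add_sub_cancel' (hrk i)]
      rw [prod_congr rfl fun i _ => e4 i, prod_const, card_univ, Fintype.card_fin, mul_pow]
    rw [e1, div_mul_eq_mul_div, div_mul_eq_mul_div, e2]
  have hexp : Real.exp (-(2 ^ d / (d : ℝ) ^ C₁)) ^ (univ : Finset (Blk d k)).card =
      Real.exp (-(N / (d : ℝ) ^ C₁)) ^ M := by
    rw [← Real.exp_nat_mul, ← Real.exp_nat_mul]
    congr 1
    linarith [hcard]
  set b : ℕ := (univ.filter fun x : WV (fun _ : Fin d => true) (fun i => 2 ^ r i) s =>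
    ∃ i, (x i).val = 0).card with hb
  have hcG0 : ∀ P : (WV (fun _ : Fin d => true) (fun i => 2 ^ r i) s → Fin q) → Prop,
      0 ≤ cG (WG (fun _ : Fin d => true) (fun i => 2 ^ r i) s) P := fun P => by
    unfold cG
    positivity
  have hZ0 : 0 ≤ Zt q (fun i => 2 ^ (r i + 1)) := by
    rw [← hZ]
    exact hcG0 _
  have hroot : cG (WG (fun _ : Fin d => true) (fun i => 2 ^ r i) s)
      (fun f : WV (fun _ : Fin d => true) (fun i => 2 ^ r i) s → Fin q =>
      WE (fun _ => true) (fun i => 2 ^ r i) s (fun _ => some τ) f) ≤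
      (q : ℝ) ^ b * (Zt q (fun i => 2 ^ (r i + 1)) * Real.exp (-(N / (d : ℝ) ^ C₁))) := by
    apply b05_root (hcG0 _) (by positivity) hM0
    refine h1.trans ?_
    rw [mul_pow]
    have h0 : (0 : ℝ) ≤ ((q : ℝ) ^ b) ^ M := by positivity
    refine le_trans (mul_le_mul_of_nonneg_left h2 h0) ?_
    have h4 : ZZ d (k + 1) q * Real.exp (-(2 ^ d / (d : ℝ) ^ C₁)) ^ (univ : Finset (Blk d k)).card ≤
        (Zt q (fun i => 2 ^ (r i + 1)) * Real.exp (-(N / (d : ℝ) ^ C₁))) ^ M := by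
      rw [hexp, mul_pow]
      exact mul_le_mul_of_nonneg_right h3 (by positivity)
    exact mul_le_mul_of_nonneg_left h4 h0
  -- the boundary
  have hbb : (b : ℝ) ≤ d * (N / (d : ℝ) ^ (C₁ + 3)) := b05_bdy r (by positivity) hr
  have hqb : (q : ℝ) ^ b ≤ Real.exp (N / (d : ℝ) ^ (C₁ + 1)) := by
    have hq0 : (0 : ℝ) < q := by exact_mod_cast hq1
    have e1 : (q : ℝ) ≤ Real.exp d := by
      have : (q : ℝ) ≤ d := by exact_mod_cast hqd
      have e2 := Real.add_one_le_exp (d : ℝ)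
      linarith
    calc (q : ℝ) ^ b ≤ Real.exp d ^ b := pow_le_pow_left₀ hq0.le e1 b
      _ = Real.exp (b * d) := (Real.exp_nat_mul _ _).symm
      _ ≤ Real.exp (N / (d : ℝ) ^ (C₁ + 1)) := by
        apply Real.exp_le_exp.mpr
        have e3 : (b : ℝ) * d ≤ d * (N / (d : ℝ) ^ (C₁ + 3)) * d :=
          mul_le_mul_of_nonneg_right hbb hd0.le
        refine e3.trans (le_of_eq ?_)
        rw [pow_add, pow_add]
        field_simp
  rw [hZ]
  refine hroot.trans ?_
  have e5 : (q : ℝ) ^ b * (Zt q (fun i => 2 ^ (r i + 1)) * Real.exp (-(N / (d : ℝ) ^ C₁))) ≤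
      Real.exp (N / (d : ℝ) ^ (C₁ + 1)) *
        (Zt q (fun i => 2 ^ (r i + 1)) * Real.exp (-(N / (d : ℝ) ^ C₁))) :=
    mul_le_mul_of_nonneg_right hqb (by positivity)
  refine e5.trans ?_
  have e6 : Real.exp (N / (d : ℝ) ^ (C₁ + 1)) * Real.exp (-(N / (d : ℝ) ^ C₁)) ≤
      Real.exp (-(N / (d : ℝ) ^ (C₁ + 3))) := by
    rw [← Real.exp_add]
    apply Real.exp_le_exp.mpr
    have e7 : N / (d : ℝ) ^ C₁ = N / (d : ℝ) ^ (C₁ + 3) * d ^ 3 := by
      rw [pow_add]
      field_simp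
    have e8 : N / (d : ℝ) ^ (C₁ + 1) = N / (d : ℝ) ^ (C₁ + 3) * d ^ 2 := by
      rw [pow_add, pow_add]
      field_simp
    rw [e7, e8]
    have e9 : 0 < N / (d : ℝ) ^ (C₁ + 3) := by positivity
    have e10 : (d : ℝ) ^ 2 + 1 ≤ d ^ 3 := by nlinarith [sq_nonneg (d : ℝ)]
    nlinarith
  calc Real.exp (N / (d : ℝ) ^ (C₁ + 1)) *
        (Zt q (fun i => 2 ^ (r i + 1)) * Real.exp (-(N / (d : ℝ) ^ C₁))) =
      Zt q (fun i => 2 ^ (r i + 1)) *
        (Real.exp (N / (d : ℝ) ^ (C₁ + 1)) * Real.exp (-(N / (d : ℝ) ^ C₁))) := by ring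
    _ ≤ _ := mul_le_mul_of_nonneg_left e6 hZ0

end Pool.Agent.LC

end

/-! ### from `Lib_MP_2c424f_lc6.C13` -/

section

/-!
# LC6 C13: all directions periodic

`Γ` is invariant in all directions, hence constant (change the coordinates one by one).  `Γ = none`: `WE` is `True` and `Wn = 0`.  `Γ = some τ`:
`Wgl` is empty (`per i = true`), so `N2 B gl P = cG B P · cG B True`; `small_torus`; `Wn = ∏ L i` and
`∏ (2 · 2^r i) = 2^d ∏ 2^r i`, so `exp (-(∏ (2 L i))/d^C) = exp (-(2^d/d^C))^(∏ L i)`.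
-/

set_option autoImplicit false

open Finset

namespace Pool.Agent.LC

open Pool.Agent.LO Pool.Agent.LIN Pool.Agent.THR Pool.Agent.COR

private theorem c13_N2 {W : Type} [Fintype W] [DecidableEq W] {q : ℕ} (B : SimpleGraph W) (gl : W → Prop)
    (hgl : ∀ x, ¬ gl x) (P : (W → Fin q) → Prop) : N2 B gl P = cG B P * cG B (fun _ : W → Fin q => True) := by
  classical
  unfold N2 cG
  rw [← Nat.cast_mul, ← card_product]
  refine congrArg (Nat.cast : ℕ → ℝ) (congrArg Finset.card ?_)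
  ext p
  simp only [mem_product, mem_filter, mem_univ, true_and, and_true]
  constructor
  · rintro ⟨h1, h2, -, h4⟩
    exact ⟨⟨h1, h4⟩, h2⟩
  · rintro ⟨⟨h1, h2⟩, h3⟩
    exact ⟨h1, h3, fun x hx => absurd hx (hgl x), h2⟩

private theorem c13_const {d q : ℕ} (Γ : (Fin d → ℕ) → Option (Option (Fin q)))
    (h : ∀ t i v, Γ (Function.update t i v) = Γ t) (t t' : Fin d → ℕ) : Γ t' = Γ t := by
  classical
  have h1 : ∀ S : Finset (Fin d), Γ (fun i => if i ∈ S then t' i else t i) = Γ t := by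
    intro S
    induction S using Finset.induction_on with
    | empty => simp
    | insert a S ha ih =>
      rw [← ih, ← h (fun i => if i ∈ S then t' i else t i) a (t' a)]
      congr 1
      funext i
      by_cases hi : i = a
      · subst hi
        rw [Function.update_self, if_pos (mem_insert_self _ _)]
      · rw [Function.update_of_ne hi]
        by_cases hS : i ∈ S
        · rw [if_pos (mem_insert_of_mem hS), if_pos hS]
        · rw [if_neg hS, if_neg]
          rw [mem_insert]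
          rintro (h2 | h2)
          · exact hi h2
          · exact hS h2
  have h2 := h1 univ
  simpa using h2

private theorem c13_cG_congr {W : Type} [Fintype W] [DecidableEq W] {q : ℕ} (B : SimpleGraph W)
    {P Q : (W → Fin q) → Prop} (h : ∀ f, P f ↔ Q f) : cG B P = cG B Q := by
  have h1 : P = Q := funext fun f => propext (h f)
  rw [h1]

theorem all_periodic : ∃ C d₀ : ℕ, ∀ d q : ℕ, d₀ ≤ d → Rg d q → ∀ (r : Fin d → ℕ) (s : ℕ), (∀ i, (d : ℝ) ^ C ≤ 2 ^ r i) →
    ∀ Γ : (Fin d → ℕ) → Option (Option (Fin q)), (∀ t i v, Γ (Function.update t i v) = Γ t) →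
      N2 (WG (fun _ : Fin d => true) (fun i => 2 ^ r i) s) (Wgl (fun _ : Fin d => true) (fun i => 2 ^ r i) s)
          (WE (fun _ => true) (fun i => 2 ^ r i) s Γ) ≤
        N2 (WG (fun _ : Fin d => true) (fun i => 2 ^ r i) s) (Wgl (fun _ : Fin d => true) (fun i => 2 ^ r i) s)
          (WE (q := q) (fun _ => true) (fun i => 2 ^ r i) s fun _ => none) *
          Real.exp (-(2 ^ d / (d : ℝ) ^ C)) ^ Wn (fun _ => true) (fun i => 2 ^ r i) Γ := by
  classical
  obtain ⟨C, d₀, hst⟩ := small_torus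
  refine ⟨C, d₀, fun d q hd hR r s hr Γ hΓ => ?_⟩
  have hgl : ∀ x, ¬ Wgl (fun _ : Fin d => true) (fun i => 2 ^ r i) s x := by
    rintro x ⟨i, h, -⟩
    exact absurd h (by simp)
  have hnone : ∀ f : WV (fun _ : Fin d => true) (fun i => 2 ^ r i) s → Fin q,
      WE (fun _ => true) (fun i => 2 ^ r i) s (fun _ => none) f ↔ True := by
    intro f
    refine ⟨fun _ => trivial, fun _ t _ τ hτ => ?_⟩
    exact absurd hτ (by simp)
  rw [c13_N2 _ _ hgl, c13_N2 _ _ hgl, c13_cG_congr _ hnone]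
  have hΓc : Γ = fun _ => Γ (fun _ => 0) := funext fun t => c13_const Γ hΓ _ t
  rcases hg : Γ (fun _ => 0) with _ | τ
  · rw [hg] at hΓc
    rw [hΓc, c13_cG_congr _ hnone]
    have hW : Wn (fun _ : Fin d => true) (fun i => 2 ^ r i) (fun _ => (none : Option (Option (Fin q)))) = 0 := by
      unfold Wn
      rw [card_eq_zero, filter_eq_empty_iff]
      intro x _ hx
      exact hx rfl
    rw [hW, pow_zero, mul_one]
  · rw [hg] at hΓc
    rw [hΓc]
    have h1 := hst d q hd hR r s hr τ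
    have hW : Wn (fun _ : Fin d => true) (fun i => 2 ^ r i) (fun _ => some τ) = ∏ i, 2 ^ r i := by
      unfold Wn
      rw [filter_true_of_mem (fun x _ => by simp), card_univ, Fintype.card_pi]
      refine prod_congr rfl fun i _ => ?_
      rw [Fintype.card_fin]
      unfold nbk
      rw [if_pos rfl]
    have hcG : 0 ≤ cG (WG (fun _ : Fin d => true) (fun i => 2 ^ r i) s)
        (fun _ : WV (fun _ : Fin d => true) (fun i => 2 ^ r i) s → Fin q => True) := by
      unfold cG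
      positivity
    have hexp : Real.exp (-(2 ^ d / (d : ℝ) ^ C)) ^ (∏ i, 2 ^ r i) =
        Real.exp (-((∏ i, (2 : ℝ) * 2 ^ r i) / (d : ℝ) ^ C)) := by
      rw [← Real.exp_nat_mul]
      congr 1
      rw [prod_mul_distrib, prod_const, card_univ, Fintype.card_fin]
      push_cast
      ring
    rw [hW, hexp]
    refine (mul_le_mul_of_nonneg_right h1 hcG).trans (le_of_eq ?_)
    ring

end Pool.Agent.LC

end
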