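import Pool.Agent.Lib_MP_2c424f_m.M23
import Pool.Agent.Lib_MP_2c424f_m.M28
import Pool.Agent.Lib_MP_2c424f_m.M34

/-!
# MP_2c424f_pr, q_c grows linearly: merged library part M45

Concatenation of smaller files (each in its own section), only to save build time.
-/

namespace Pool.Agent.LO
end Pool.Agent.LO

namespace Pool.Agent.LIN
end Pool.Agent.LIN

namespace Pool.Agent.THR
end Pool.Agent.THR

namespace Pool.Agent.COR
end Pool.Agent.COR

/-! ### from `Lib_MP_2c424f_lc6.C14` -/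

section

/-!
# LC6 C14: one direction becomes periodic

`T, v` = `TY, vY` of the cross section, `P ℓ = Ps Γ ℓ`, `L j = 2^r`.  `path_val` (and for `Γ = none` with `Ps_none`: `Z = ⟨v, T^(2(L-1)+2s) v⟩`), `ring_val` for
`update per j true` (rewrite `(fun i : {i // i ≠ j} => update per j true i) = fun i => per i`): for `Γ_ℓ = fun t => Γ (update t j ℓ)` all slab matrices
are `P ℓ` (`Ps_update`): `Tr (P_ℓ^L)`; for `none`: `Tr (T^(2L))`.  Hypothesis `hind` for `Γ_ℓ` with `Wn_update`: `Tr (P_ℓ^L) ≤ Tr (T^(2L)) ρ_ℓ^L`,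
`ρ_ℓ = E^(1/L) x^(wnS ℓ)` (`E ≥ 1`, real power).  `slab_main`: `N ≤ c Z ∏_{ℓ<L-1} ρ_ℓ ≤ c Z E x^(∑ wnS ℓ)`, `Wn_slabs`.
`0 < Tr (T^(2L))`: there is a proper colouring (`q ≥ 2`, chessboard: `N2` of the bipartite domain is positive); it is a hypothesis here.
-/

set_option autoImplicit false

open Finset Matrix

namespace Pool.Agent.LC

open Pool.Agent.LO Pool.Agent.LIN Pool.Agent.THR Pool.Agent.COR

private theorem c14_prod_const {M : Type*} [Monoid M] (f : ℕ → M) (a : M) (h : ∀ ℓ, f ℓ = a) (n : ℕ) :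
    ((List.range n).map f).prod = a ^ n := by
  have h1 : f = fun _ => a := funext h
  rw [h1, List.map_const', List.prod_replicate, List.length_range]

private theorem c14_ring {d q : ℕ} (per : Fin d → Bool) (L : Fin d → ℕ) (s : ℕ) (j : Fin d) (hL : 1 ≤ L j)
    (Γ : (Fin d → ℕ) → Option (Option (Fin q))) :
    N2 (WG (Function.update per j true) L s) (Wgl (Function.update per j true) L s)
      (WE (Function.update per j true) L s Γ) =
      (((List.range (L j)).map (Ps j (fun i => per i) L s Γ)).prod).trace := by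
  have h1 := ring_val (Function.update per j true) L s j (Function.update_self _ _ _) hL Γ
  have h2 : (fun i : {i // i ≠ j} => Function.update per j true i) = fun i : {i // i ≠ j} => per i := by
    funext i
    exact Function.update_of_ne i.2 _ _
  have h3 : (((List.range (L j)).map (Ps j (fun i : {i // i ≠ j} => Function.update per j true i) L s Γ)).prod).trace =
      (((List.range (L j)).map (Ps j (fun i => per i) L s Γ)).prod).trace :=
    congrArg (fun p : {i // i ≠ j} → Bool => (((List.range (L j)).map (Ps j p L s Γ)).prod).trace) h2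
  exact h1.trans h3

theorem free_step {d q : ℕ} (per : Fin d → Bool) (r : Fin d → ℕ) (s : ℕ) (j : Fin d) (hj : per j = false) (hs : Even s)
    (hs1 : 1 ≤ s) (c E x : ℝ) (hc : 0 ≤ c) (hE : 1 ≤ E) (hx : 0 ≤ x)
    (hZ : 0 < N2 (WG (Function.update per j true) (fun i => 2 ^ r i) s) (Wgl (Function.update per j true) (fun i => 2 ^ r i) s)
      (WE (q := q) (Function.update per j true) (fun i => 2 ^ r i) s fun _ => none))
    (hsw : (vY q (YV j (fun i => per i) (fun i => 2 ^ r i) s) ⬝ᵥ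
        ((TY q (YG j (fun i => per i) (fun i => 2 ^ r i) s) (Ygl j (fun i => per i) (fun i => 2 ^ r i) s) ^ (2 * s)) *ᵥ
          vY q (YV j (fun i => per i) (fun i => 2 ^ r i) s))) *
          (TY q (YG j (fun i => per i) (fun i => 2 ^ r i) s) (Ygl j (fun i => per i) (fun i => 2 ^ r i) s) ^ (2 * 2 ^ r j)).trace ≤
        c * (vY q (YV j (fun i => per i) (fun i => 2 ^ r i) s) ⬝ᵥ
          ((TY q (YG j (fun i => per i) (fun i => 2 ^ r i) s) (Ygl j (fun i => per i) (fun i => 2 ^ r i) s) ^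
            (2 * s + 2 * 2 ^ r j)) *ᵥ vY q (YV j (fun i => per i) (fun i => 2 ^ r i) s))))
    (Γ : (Fin d → ℕ) → Option (Option (Fin q)))
    (hind : ∀ ℓ, N2 (WG (Function.update per j true) (fun i => 2 ^ r i) s)
          (Wgl (Function.update per j true) (fun i => 2 ^ r i) s)
          (WE (Function.update per j true) (fun i => 2 ^ r i) s fun t => Γ (Function.update t j ℓ)) ≤
        N2 (WG (Function.update per j true) (fun i => 2 ^ r i) s) (Wgl (Function.update per j true) (fun i => 2 ^ r i) s)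
          (WE (q := q) (Function.update per j true) (fun i => 2 ^ r i) s fun _ => none) * E *
          x ^ Wn (Function.update per j true) (fun i => 2 ^ r i) fun t => Γ (Function.update t j ℓ)) :
    N2 (WG per (fun i => 2 ^ r i) s) (Wgl per (fun i => 2 ^ r i) s) (WE per (fun i => 2 ^ r i) s Γ) ≤
      N2 (WG per (fun i => 2 ^ r i) s) (Wgl per (fun i => 2 ^ r i) s) (WE (q := q) per (fun i => 2 ^ r i) s fun _ => none) *
        (c * E) * x ^ Wn per (fun i => 2 ^ r i) Γ := by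
  have hL : 1 ≤ (fun i => 2 ^ r i) j := Nat.one_le_two_pow
  have hL1 : (1 : ℕ) ≤ 2 ^ r j := Nat.one_le_two_pow
  set T := TY q (YG j (fun i => per i) (fun i => 2 ^ r i) s) (Ygl j (fun i => per i) (fun i => 2 ^ r i) s) with hTd
  set v := vY q (YV j (fun i => per i) (fun i => 2 ^ r i) s) with hvd
  set P := Ps j (fun i => per i) (fun i => 2 ^ r i) s Γ with hPd
  have hT : Tᵀ = T := TY_symm _ _ _
  have hP : ∀ ℓ, (P ℓ)ᵀ = P ℓ := fun ℓ => Ps_symm _ _ _ _ _ _
  have hpath : N2 (WG per (fun i => 2 ^ r i) s) (Wgl per (fun i => 2 ^ r i) s) (WE per (fun i => 2 ^ r i) s Γ) =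
      v ⬝ᵥ ((T ^ s * ((List.range (2 ^ r j - 1)).map P).prod * T ^ s) *ᵥ v) :=
    path_val per (fun i => 2 ^ r i) s j hj hs hs1 hL Γ
  have hpath0 : N2 (WG per (fun i => 2 ^ r i) s) (Wgl per (fun i => 2 ^ r i) s)
      (WE (q := q) per (fun i => 2 ^ r i) s fun _ => none) =
      v ⬝ᵥ ((T ^ (2 * (2 ^ r j - 1) + 2 * s)) *ᵥ v) := by
    have h1 := path_val per (fun i => 2 ^ r i) s j hj hs hs1 hL (fun _ => (none : Option (Option (Fin q))))
    have h2 : ((List.range (2 ^ r j - 1)).map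
        (Ps (q := q) j (fun i => per i) (fun i => 2 ^ r i) s fun _ => none)).prod = (T ^ 2) ^ (2 ^ r j - 1) :=
      c14_prod_const _ _ (fun ℓ => Ps_none _ _ _ _ _) _
    have h3 : T ^ s * ((List.range (2 ^ r j - 1)).map
        (Ps (q := q) j (fun i => per i) (fun i => 2 ^ r i) s fun _ => none)).prod * T ^ s =
        T ^ (2 * (2 ^ r j - 1) + 2 * s) := by
      rw [h2, ← pow_mul, ← pow_add, ← pow_add]
      congr 1
      omega
    refine h1.trans ?_
    show v ⬝ᵥ ((T ^ s * ((List.range (2 ^ r j - 1)).map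
        (Ps (q := q) j (fun i => per i) (fun i => 2 ^ r i) s fun _ => none)).prod * T ^ s) *ᵥ v) = _
    rw [h3]
  have hring : ∀ ℓ, N2 (WG (Function.update per j true) (fun i => 2 ^ r i) s)
      (Wgl (Function.update per j true) (fun i => 2 ^ r i) s)
      (WE (Function.update per j true) (fun i => 2 ^ r i) s fun t => Γ (Function.update t j ℓ)) =
      (P ℓ ^ 2 ^ r j).trace := by
    intro ℓ
    have h1 := c14_ring per (fun i => 2 ^ r i) s j hL (fun t => Γ (Function.update t j ℓ))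
    have h2 : ((List.range (2 ^ r j)).map
        (Ps j (fun i => per i) (fun i => 2 ^ r i) s fun t => Γ (Function.update t j ℓ))).prod = P ℓ ^ 2 ^ r j :=
      c14_prod_const _ _ (fun ℓ' => Ps_update _ _ _ _ _ _ _) _
    refine h1.trans ?_
    show (((List.range (2 ^ r j)).map
        (Ps j (fun i => per i) (fun i => 2 ^ r i) s fun t => Γ (Function.update t j ℓ))).prod).trace = _
    rw [h2]
  have hring0 : N2 (WG (Function.update per j true) (fun i => 2 ^ r i) s)
      (Wgl (Function.update per j true) (fun i => 2 ^ r i) s)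
      (WE (q := q) (Function.update per j true) (fun i => 2 ^ r i) s fun _ => none) =
      (T ^ (2 * 2 ^ r j)).trace := by
    have h1 := c14_ring per (fun i => 2 ^ r i) s j hL (fun _ => (none : Option (Option (Fin q))))
    have h2 : ((List.range (2 ^ r j)).map
        (Ps (q := q) j (fun i => per i) (fun i => 2 ^ r i) s fun _ => none)).prod = (T ^ 2) ^ 2 ^ r j :=
      c14_prod_const _ _ (fun ℓ' => Ps_none _ _ _ _ _) _
    refine h1.trans ?_
    show (((List.range (2 ^ r j)).map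
        (Ps (q := q) j (fun i => per i) (fun i => 2 ^ r i) s fun _ => none)).prod).trace = _
    rw [h2, ← pow_mul]
  have hE0 : (0 : ℝ) ≤ E := zero_le_one.trans hE
  have hLr : (((2 ^ r j : ℕ)) : ℝ) ≠ 0 := by
    have : (0 : ℝ) < ((2 ^ r j : ℕ) : ℝ) := by exact_mod_cast hL1
    exact this.ne'
  set e := E ^ ((((2 ^ r j : ℕ)) : ℝ)⁻¹) with hed
  have he0 : 0 ≤ e := Real.rpow_nonneg hE0 _
  have he1 : 1 ≤ e := Real.one_le_rpow hE (by positivity)
  have heL : e ^ 2 ^ r j = E := Real.rpow_inv_natCast_pow hE0 (by positivity)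
  set ρ : ℕ → ℝ := fun ℓ => e * x ^ wnS j (fun i => per i) (fun i => 2 ^ r i) Γ ℓ with hρd
  have hρ : ∀ ℓ, 0 ≤ ρ ℓ := fun ℓ => mul_nonneg he0 (pow_nonneg hx _)
  have h0 : 0 ≤ v ⬝ᵥ ((T ^ s * ((List.range (2 ^ r j - 1)).map P).prod * T ^ s) *ᵥ v) := by
    rw [← hpath]
    unfold N2
    positivity
  have hZ' : 0 < (T ^ (2 * 2 ^ r j)).trace := by
    rw [← hring0]
    exact hZ
  have hb : ∀ ℓ < 2 ^ r j - 1, (P ℓ ^ 2 ^ r j).trace ≤ (T ^ (2 * 2 ^ r j)).trace * ρ ℓ ^ 2 ^ r j := by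
    intro ℓ _
    have h1 := hind ℓ
    rw [hring, hring0, Wn_update] at h1
    refine h1.trans (le_of_eq ?_)
    rw [hρd]
    simp only
    rw [mul_pow, heL, ← pow_mul, mul_assoc, mul_comm (2 ^ r j) (wnS _ _ _ _ _)]
  have hmain := slab_main (r j) s T hT P hP v h0 hZ' c hc hsw ρ hρ hb
  rw [hpath, hpath0]
  refine hmain.trans ?_
  have hWn : Wn per (fun i => 2 ^ r i) Γ =
      ∑ ℓ ∈ range (2 ^ r j - 1), wnS j (fun i => per i) (fun i => 2 ^ r i) Γ ℓ := by
    rw [Wn_slabs per (fun i => 2 ^ r i) j Γ]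
    unfold nbk
    rw [hj]
    rfl
  have hprod : ∏ ℓ ∈ range (2 ^ r j - 1), ρ ℓ ≤ E * x ^ Wn per (fun i => 2 ^ r i) Γ := by
    rw [hρd, Finset.prod_mul_distrib, Finset.prod_const, Finset.prod_pow_eq_pow_sum, hWn, card_range]
    refine mul_le_mul_of_nonneg_right ?_ (pow_nonneg hx _)
    calc e ^ (2 ^ r j - 1) ≤ e ^ 2 ^ r j := pow_le_pow_right₀ he1 (Nat.sub_le _ _)
      _ = E := heL
  have hv0 : 0 ≤ v ⬝ᵥ ((T ^ (2 * (2 ^ r j - 1) + 2 * s)) *ᵥ v) := by
    rw [← hpath0]
    unfold N2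
    positivity
  calc c * (v ⬝ᵥ ((T ^ (2 * (2 ^ r j - 1) + 2 * s)) *ᵥ v)) * ∏ ℓ ∈ range (2 ^ r j - 1), ρ ℓ
      ≤ c * (v ⬝ᵥ ((T ^ (2 * (2 ^ r j - 1) + 2 * s)) *ᵥ v)) * (E * x ^ Wn per (fun i => 2 ^ r i) Γ) :=
        mul_le_mul_of_nonneg_left hprod (mul_nonneg hc hv0)
    _ = v ⬝ᵥ ((T ^ (2 * (2 ^ r j - 1) + 2 * s)) *ᵥ v) * (c * E) * x ^ Wn per (fun i => 2 ^ r i) Γ := by ring

end Pool.Agent.LC

end
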