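import Pool.Agent.Lib_MP_2c424f_m.M36
import Pool.Agent.Lib_MP_2c424f_m.M37
import Pool.Agent.Lib_MP_2c424f_m.M43
import Pool.Agent.Lib_MP_2c424f_m.M44
import Pool.Agent.Lib_MP_2c424f_m.M45
import Pool.Agent.Lib_MP_2c424f_pr.LIM

/-!
# MP_2c424f_pr, q_c grows linearly: merged library part M46

Concatenation of smaller files (each in its own section), only to save build time.
-/

namespace Pool.Agent.LO
end Pool.Agent.LO

namespace Pool.Agent.LIN
end Pool.Agent.LIN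

namespace Pool.Agent.THR
end Pool.Agent.THR

namespace Pool.Agent.COR
end Pool.Agent.COR

/-! ### from `Lib_MP_2c424f_lc5.V20` -/

section

/-!
# Part V, V20: the switching theorem

`C₁` from `cells_rare (K + 11)`, `K₂ = K + 6`, `C = C₁ + 2 K₂ + 20`, `d₀` the maximum of the bounds of `num1 K₂ C₁`, `num2 K₂ C₁`, `num3 K`,
`num4 K C₁`, `cells_rare` and 1000.  Let `l = 2^s`, `n = |ι|`, `λ = |Λ|`.
`λ ≤ h Y` (levels `0, …, h-1`, each of size `≤ Y`), `n (l+1)^d ≤ λ` (`Cells.inj`).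
If `n = 0` then `h Y (1 - 1/d^C) ≤ 0`, so `Y ≤ 0` (and `Y ≥ 0`), every level is empty, `Λ` is empty and `X' = X` (`Layer.oo`): equality.
Otherwise `NumH C d q s h n λ Y`.  Fix `A₀` with `q/2` elements.  `cells2` and `cells_rare` give `hc` of `Z_le` with `c = l^d/d^{C₁}`
(`C₁ ≤ C` for the hypothesis `d^{C₁} ≤ 2^s`), `num1` gives `hs`, `num2` bounds the threshold by `t = h Y/d^{K₂}` (monotonicity of `cG` in the
event).  `Q_le` with `n₁ = d²`, `m = d`, `s = Y/d^{K+3}` (`num3`, `rh_le`), `DD_card` with `L = (K+6) log d`, `num4`.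
-/

set_option autoImplicit false

open Finset Filter

namespace Pool.Agent.LC

open Pool.Agent.LO Pool.Agent.LIN Pool.Agent.THR Pool.Agent.COR

private theorem V20_nn {V : Type} [Fintype V] [DecidableEq V] {q : ℕ} (X : SimpleGraph V)
    (P : (V → Fin q) → Prop) : 0 ≤ cG X P := Nat.cast_nonneg _

open scoped Classical in
private theorem V20_mono {V : Type} [Fintype V] [DecidableEq V] {q : ℕ} (X : SimpleGraph V)
    (P Q : (V → Fin q) → Prop) (h : ∀ F, P F → Q F) : cG X P ≤ cG X Q := by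
  unfold cG
  have h1 : (univ.filter fun f : V → Fin q => PrG X f ∧ P f) ⊆
      (univ.filter fun f : V → Fin q => PrG X f ∧ Q f) := by
    intro F hF
    rw [mem_filter] at hF ⊢
    exact ⟨hF.1, hF.2.1, h F hF.2.2⟩
  exact_mod_cast card_le_card h1

private theorem V20_card {Λ : Type} [Fintype Λ] (lv : Λ → ℕ) (h : ℕ) (hlt : ∀ p, lv p < h) (Y : ℝ)
    (hY : ∀ l, ((univ.filter fun p : Λ => lv p = l).card : ℝ) ≤ Y) :
    (Fintype.card Λ : ℝ) ≤ h * Y := by
  have h1 : (univ : Finset Λ).card = ∑ l ∈ range h, (univ.filter fun p : Λ => lv p = l).card :=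
    card_eq_sum_card_fiberwise (fun p _ => mem_coe.2 (mem_range.2 (hlt p)))
  rw [← card_univ, h1, Nat.cast_sum]
  calc ∑ l ∈ range h, ((univ.filter fun p : Λ => lv p = l).card : ℝ) ≤ ∑ _l ∈ range h, Y :=
        sum_le_sum fun l _ => hY l
    _ = h * Y := by rw [sum_const, card_range, nsmul_eq_mul]

private theorem V20_inj {ι Λ : Type} [Fintype ι] [Fintype Λ] {d l : ℕ} {G : SimpleGraph Λ}
    {ev : Λ → Prop} {κ : ι → BxV d l → Λ} (hC : Cells d l G ev κ) :
    Fintype.card ι * (l + 1) ^ d ≤ Fintype.card Λ := by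
  have h1 : Fintype.card (ι × BxV d l) ≤ Fintype.card Λ :=
    Fintype.card_le_of_injective (fun p => κ p.1 p.2) (fun p p' hpp => by
      obtain ⟨h1, h2⟩ := hC.inj _ _ _ _ hpp
      exact Prod.ext h1 h2)
  rw [Fintype.card_prod] at h1
  have h2 : Fintype.card (BxV d l) = (l + 1) ^ d := by
    simp [BxV]
  rw [h2] at h1
  exact h1

private theorem V20_cK (d q u : ℕ) : 0 ≤ cK d q u := by
  unfold cK
  exact (Real.rpow_pos_of_pos (by norm_num) _).le

open scoped Classical in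
theorem switchA (K : ℕ) : ∃ C d₀ : ℕ, ∀ d q : ℕ, d₀ ≤ d → Rg d q → ∀ s h : ℕ, (d : ℝ) ^ C ≤ 2 ^ s →
    (2 : ℝ) ^ s * (d : ℝ) ^ C ≤ h → (h : ℝ) ^ 2 ≤ 2 ^ d →
    ∀ (V Λ ι : Type) [Fintype V] [DecidableEq V] [Fintype Λ] [DecidableEq Λ] [Fintype ι]
      (X X' : SimpleGraph V) (ev : V → Prop) (G : SimpleGraph Λ) (lv : Λ → ℕ) (i : Bool → Λ → V)
      (κ : ι → BxV d (2 ^ s) → Λ) (Y : ℝ),
      Par X ev → Par X' ev → (∀ v, (nb X v).card ≤ 4 * d) → (∀ v, (nb X' v).card ≤ 4 * d) →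
      Layer h X X' ev G lv i → Cells d (2 ^ s) G (fun p => ev (i false p)) κ →
      (∀ j u, 1 ≤ lv (κ j u) ∧ lv (κ j u) + 2 ≤ h) →
      (∀ l, ((univ.filter fun p : Λ => lv p = l).card : ℝ) ≤ Y) →
      h * Y * (1 - 1 / (d : ℝ) ^ C) ≤ Fintype.card ι * ((2 : ℝ) ^ s + 1) ^ d →
      cG X (fun _ : V → Fin q => True) ≤ Real.exp (Y / (d : ℝ) ^ K) * cG X' (fun _ : V → Fin q => True) := by
  obtain ⟨C₁, dc, hcr⟩ := cells_rare (K + 6 + 5)
  obtain ⟨e1, hn1⟩ := num1 (K + 6) C₁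
  obtain ⟨e2, hn2⟩ := num2 (K + 6) C₁
  obtain ⟨e3, hn3⟩ := num3 K
  obtain ⟨e4, hn4⟩ := num4 K C₁
  refine ⟨C₁ + 2 * (K + 6) + 20, dc + e1 + e2 + e3 + e4 + 4000, ?_⟩
  intro d q hd hR s h hs1 hs2 hs3 V Λ ι _ _ _ _ _ X X' ev G lv i κ Y hP hP' hdeg hdeg' hL hC hlv hY hcov
  have hd4 : 4000 ≤ d := by omega
  have hdR : (4000 : ℝ) ≤ d := by exact_mod_cast hd4
  have hd1R : (1 : ℝ) ≤ d := by linarith
  have hd0 : (0 : ℝ) < d := by linarith
  have hY0 : 0 ≤ Y := le_trans (Nat.cast_nonneg _) (hY 0)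
  have hC3 : (d : ℝ) ^ 3 ≤ (d : ℝ) ^ (C₁ + 2 * (K + 6) + 20) :=
    pow_le_pow_right₀ hd1R (by omega)
  have hC2 : (2 : ℝ) ≤ (d : ℝ) ^ (C₁ + 2 * (K + 6) + 20) := by
    calc (2 : ℝ) ≤ d := by linarith
      _ = (d : ℝ) ^ 1 := (pow_one _).symm
      _ ≤ _ := pow_le_pow_right₀ hd1R (by omega)
  have hl2 : (2 : ℝ) ≤ 2 ^ s := hC2.trans hs1
  have hhC : (d : ℝ) ^ (C₁ + 2 * (K + 6) + 20) ≤ h := by
    refine le_trans ?_ hs2
    have h0 : (0 : ℝ) ≤ (d : ℝ) ^ (C₁ + 2 * (K + 6) + 20) := by positivity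
    nlinarith
  have hh0 : (0 : ℝ) < h := by linarith
  have hlam : (Fintype.card Λ : ℝ) ≤ h * Y := V20_card lv h hL.lt Y hY
  have hinj : (Fintype.card ι : ℝ) * ((2 : ℝ) ^ s + 1) ^ d ≤ Fintype.card Λ := by
    have h1 := V20_inj hC
    exact_mod_cast h1
  rcases Nat.eq_zero_or_pos (Fintype.card ι) with hn | hn
  · have h1 : h * Y * (1 - 1 / (d : ℝ) ^ (C₁ + 2 * (K + 6) + 20)) ≤ 0 := by
      rw [hn] at hcov
      simpa using hcov
    have h2 : 0 < 1 - 1 / (d : ℝ) ^ (C₁ + 2 * (K + 6) + 20) := by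
      have h21 : 1 / (d : ℝ) ^ (C₁ + 2 * (K + 6) + 20) ≤ 1 / 2 :=
        one_div_le_one_div_of_le (by norm_num) hC2
      linarith
    have h3 : h * Y ≤ 0 := by
      by_contra hc
      push Not at hc
      exact absurd h1 (not_le.2 (mul_pos hc h2))
    have h4 : (Fintype.card Λ : ℝ) ≤ 0 := hlam.trans h3
    have h5 : Fintype.card Λ = 0 := by
      have h51 : Fintype.card Λ ≤ 0 := by exact_mod_cast h4
      omega
    haveI : IsEmpty Λ := Fintype.card_eq_zero_iff.1 h5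
    have h6 : X' = X := by
      ext v w
      exact hL.oo v w (fun _ p' => isEmptyElim p') (fun _ p' => isEmptyElim p')
    rw [h6]
    have h7 : 1 ≤ Real.exp (Y / (d : ℝ) ^ K) := Real.one_le_exp (by positivity)
    have h8 := V20_nn X (fun _ : V → Fin q => True)
    nlinarith
  · have hN : NumH (C₁ + 2 * (K + 6) + 20) d q s h (Fintype.card ι) (Fintype.card Λ) Y :=
      ⟨hR, hs1, hs2, hs3, hn, hlam, hcov, hinj⟩
    have hqd : 2 ≤ q := by
      have h1 := hR.2.2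
      omega
    have hs0 : 1 ≤ s := by
      rcases Nat.eq_zero_or_pos s with h0 | h0
      · rw [h0] at hl2
        norm_num at hl2
      · exact h0
    have hlev : Even (2 ^ s) := Nat.even_pow.2 ⟨even_two, by omega⟩
    have hl2n : 2 ≤ 2 ^ s := by exact_mod_cast hl2
    obtain ⟨A₀, hA₀⟩ : ∃ A₀ : Finset (Fin q), A₀.card = q / 2 := by
      obtain ⟨A, _, hA⟩ := exists_subset_card_eq (s := (univ : Finset (Fin q))) (n := q / 2)
        (by rw [card_univ, Fintype.card_fin]; omega)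
      exact ⟨A, hA⟩
    have hcr' : ∀ S : Finset (ι × Bool),
        cG X (fun F : V → Fin q => ∀ jb ∈ S, EvB (K + 6 + 5) (fun u => F (i jb.2 (κ jb.1 u)))) ≤
        cG X (fun _ : V → Fin q => True) *
          Real.exp (-(S.card * (((2 : ℝ) ^ s) ^ d / (d : ℝ) ^ C₁))) := by
      intro S
      have h1 := hcr d q (by omega) hR s (le_trans (pow_le_pow_right₀ hd1R (by omega)) hs1) V
        (ι × Bool) X ev (fun jb u => i jb.2 (κ jb.1 u)) hP (cells2 hL hC hlv) hdeg S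
      rw [mul_div_assoc] at h1
      exact h1
    have hθ0 : (0 : ℝ) < 1 / (d : ℝ) ^ (K + 6 + 4) := by positivity
    have hθ1 : (1 : ℝ) / (d : ℝ) ^ (K + 6 + 4) ≤ 1 := by
      rw [div_le_one (by positivity)]
      exact one_le_pow₀ hd1R
    have hK : 1 / (d : ℝ) ^ (K + 6 + 5) < 1 / (d : ℝ) ^ (K + 6 + 4) / 2 := by
      rw [div_div]
      refine one_div_lt_one_div_of_lt (by positivity) ?_
      have h0 : (0 : ℝ) < (d : ℝ) ^ (K + 6 + 4) := by positivity
      have h1 : (d : ℝ) ^ (K + 6 + 5) = (d : ℝ) ^ (K + 6 + 4) * d := by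
        rw [← pow_succ]
      rw [h1]
      nlinarith
    have hZ := Z_le (h := h) (by omega : 1 ≤ d) hR hP hL hlev hl2n hC hlv hn A₀ hA₀ (K + 6 + 5)
      (1 / (d : ℝ) ^ (K + 6 + 4)) (((2 : ℝ) ^ s) ^ d / (d : ℝ) ^ C₁) hθ0 hθ1 hK (by positivity) hcr'
      (hn1 d q s h (Fintype.card ι) (Fintype.card Λ) Y (by omega) hN)
    have hb := hn2 d q s h (Fintype.card ι) (Fintype.card Λ) Y (by omega) hN
    have hZ2 : cG X (fun _ : V → Fin q => True) ≤ 4 * cK d q (2 * Fintype.card Λ) *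
        cG X (fun F : V → Fin q =>
          ((At d G (fun p => ev (i false p)) A₀ (fb i F false) (fb i F true)).card : ℝ) ≤
            h * Y / (d : ℝ) ^ (K + 6)) := by
      refine hZ.trans (mul_le_mul_of_nonneg_left ?_ (mul_nonneg (by norm_num) (V20_cK _ _ _)))
      refine V20_mono X _ _ (fun F hF => hF.trans ?_)
      push_cast
      exact hb
    have hhn : 2 * (2 * d ^ 2 + 2) + 8 ≤ h := by
      have h1 : (2 * (2 * (d : ℝ) ^ 2 + 2) + 8 : ℝ) ≤ h := by
        refine le_trans ?_ (hC3.trans hhC)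
        have h2 : (d : ℝ) ^ 3 = d * (d : ℝ) ^ 2 := by ring
        have h3 : (1 : ℝ) ≤ (d : ℝ) ^ 2 := one_le_pow₀ hd1R
        rw [h2]
        nlinarith
      exact_mod_cast h1
    have hρ : rh d q ≤ 1 := (rh_le (by omega) hR (by omega)).trans
      (Real.exp_le_one_iff.2 (by norm_num))
    have hh1 : 1 ≤ h := by
      have : (0 : ℝ) < h := hh0
      exact_mod_cast this
    have hQ := Q_le (h := h) hR hqd hP hP' hdeg hdeg' hL A₀ Y hY (d ^ 2) d (by omega) hhn hρ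
      (by omega) (Y / (d : ℝ) ^ (K + 3)) (h * Y / (d : ℝ) ^ (K + 6))
      (hn3 d q h Y (by omega) hR hh1 hY0)
    have hL0 : 0 ≤ ((K : ℝ) + 6) * Real.log d :=
      mul_nonneg (by positivity) (Real.log_nonneg hd1R)
    have hD := DD_card lv h (2 * d ^ 2 + 2) (Y / (d : ℝ) ^ (K + 3)) (((K : ℝ) + 6) * Real.log d) Y
      hL0 hY
    have h4 := hn4 d q s h (Fintype.card ι) (Fintype.card Λ) Y (by omega) hN
    have hZ0 := V20_nn X' (fun _ : V → Fin q => True)
    have hcK := V20_cK d q (2 * Fintype.card Λ)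
    calc cG X (fun _ : V → Fin q => True)
        ≤ 4 * cK d q (2 * Fintype.card Λ) *
          cG X (fun F : V → Fin q =>
            ((At d G (fun p => ev (i false p)) A₀ (fb i F false) (fb i F true)).card : ℝ) ≤
              h * Y / (d : ℝ) ^ (K + 6)) := hZ2
      _ ≤ 4 * cK d q (2 * Fintype.card Λ) *
          (2 * ((DDs lv h (2 * d ^ 2 + 2) (Y / (d : ℝ) ^ (K + 3))).card *
            Real.exp (16 * d * (Y / (d : ℝ) ^ (K + 3)) / q) *
              cG X' (fun _ : V → Fin q => True))) :=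
        mul_le_mul_of_nonneg_left hQ (mul_nonneg (by norm_num) hcK)
      _ ≤ 4 * cK d q (2 * Fintype.card Λ) *
          (2 * ((h * Real.exp (((K : ℝ) + 6) * Real.log d * (Y / (d : ℝ) ^ (K + 3)) +
            (((2 * d ^ 2 + 2 : ℕ) : ℝ) + 1) * Y * Real.exp (-(((K : ℝ) + 6) * Real.log d)))) *
            Real.exp (16 * d * (Y / (d : ℝ) ^ (K + 3)) / q) *
              cG X' (fun _ : V → Fin q => True))) := by
        refine mul_le_mul_of_nonneg_left ?_ (mul_nonneg (by norm_num) hcK)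
        refine mul_le_mul_of_nonneg_left ?_ (by norm_num)
        refine mul_le_mul_of_nonneg_right ?_ hZ0
        exact mul_le_mul_of_nonneg_right hD (Real.exp_pos _).le
      _ = (4 * cK d q (2 * Fintype.card Λ) *
          (2 * (h * Real.exp (((K : ℝ) + 6) * Real.log d * (Y / (d : ℝ) ^ (K + 3)) +
            (((2 * d ^ 2 + 2 : ℕ) : ℝ) + 1) * Y * Real.exp (-(((K : ℝ) + 6) * Real.log d))) *
            Real.exp (16 * d * (Y / (d : ℝ) ^ (K + 3)) / q)))) *
              cG X' (fun _ : V → Fin q => True) := by ring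
      _ ≤ Real.exp (Y / (d : ℝ) ^ K) * cG X' (fun _ : V → Fin q => True) :=
        mul_le_mul_of_nonneg_right h4 hZ0

end Pool.Agent.LC

end

/-! ### from `Lib_MP_2c424f_lc.PV` -/

section

/-!
# Part V: the switching theorem (main statement)
-/

set_option autoImplicit false

open Finset Filter

namespace Pool.Agent.LC

open Pool.Agent.LO Pool.Agent.LIN Pool.Agent.THR Pool.Agent.COR

open scoped Classical in
/-- V -/
theorem switch (K : ℕ) : ∃ C d₀ : ℕ, ∀ d q : ℕ, d₀ ≤ d → Rg d q → ∀ s h : ℕ, (d : ℝ) ^ C ≤ 2 ^ s →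
    (2 : ℝ) ^ s * (d : ℝ) ^ C ≤ h → (h : ℝ) ^ 2 ≤ 2 ^ d →
    ∀ (V Λ ι : Type) [Fintype V] [DecidableEq V] [Fintype Λ] [DecidableEq Λ] [Fintype ι]
      (X X' : SimpleGraph V) (ev : V → Prop) (G : SimpleGraph Λ) (lv : Λ → ℕ) (i : Bool → Λ → V)
      (κ : ι → BxV d (2 ^ s) → Λ) (Y : ℝ),
      Par X ev → Par X' ev → (∀ v, (nb X v).card ≤ 4 * d) → (∀ v, (nb X' v).card ≤ 4 * d) →
      Layer h X X' ev G lv i → Cells d (2 ^ s) G (fun p => ev (i false p)) κ →
      (∀ j u, 1 ≤ lv (κ j u) ∧ lv (κ j u) + 2 ≤ h) →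
      (∀ l, ((univ.filter fun p : Λ => lv p = l).card : ℝ) ≤ Y) →
      h * Y * (1 - 1 / (d : ℝ) ^ C) ≤ Fintype.card ι * ((2 : ℝ) ^ s + 1) ^ d →
      cG X (fun _ : V → Fin q => True) ≤ Real.exp (Y / (d : ℝ) ^ K) * cG X' (fun _ : V → Fin q => True) :=
  switchA K

end Pool.Agent.LC

end

/-! ### from `Lib_MP_2c424f_lc6a.B9` -/

section

/-!
# LC6a B9: switching at the surfaces

Let `C₁, d₁` be the constants of `switch (K+1)`; `C = max (C₁ + 2) (K + 5)`, `d₀ ≥ d₁, 11`, ...  `l = 2^s0 ≥ d^C ≥ 6`, even; `h ≥ 2`.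
`cG TX ≤ cG XX` (`rmv_le`) `≤ exp (YY/d^(K+1)) cG XC` (`switch` with `XX_par, XC_par, XX_deg, XC_deg, lay, kap_cells, kap_lv, level_card, cells_cover`; `ι = Cix l`, `Λ = Lam`)
and `(1 - 1/q)^(4 d |RR|) cG XC ≤ cG (TC G)` (`rmv_add`, `Δ = 2 d`, `card_nb_box`), `(1 - 1/q)^n ≥ exp (-2 n/q) ≥ exp (-n)` (`q ≥ 2`: `q` is even and positive), `RR_card` with `x = d^C`:
`4 d |RR| ≤ 56 d² /d^(K+5) YY = 56/d^(K+3) YY ≤ YY/(2 d^K)`.
-/

set_option autoImplicit false

open Finset Filter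

namespace Pool.Agent.LC

open Pool.Agent.LO Pool.Agent.LIN Pool.Agent.THR Pool.Agent.COR

private theorem B9_nn {V : Type} [Fintype V] [DecidableEq V] {q : ℕ} (X : SimpleGraph V)
    (P : (V → Fin q) → Prop) : 0 ≤ cG X P := Nat.cast_nonneg _

private theorem B9_YY {d N h : ℕ} {ι : Type} (D : Bxs d N h ι) : 0 ≤ D.YY := by
  unfold Bxs.YY
  refine sum_nonneg (fun k _ => mul_nonneg zero_le_two (sum_nonneg (fun i _ => prod_nonneg (fun j _ => ?_))))
  positivity

/-- `(1 - 1/q)^n ≥ exp (-n)` for `q ≥ 2` -/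
private theorem B9_exp {q : ℕ} (hq : 2 ≤ q) (n : ℕ) : Real.exp (-(n : ℝ)) ≤ (1 - 1 / (q : ℝ)) ^ n := by
  have h1 : Real.exp (-(n : ℝ)) = (Real.exp (-1)) ^ n := by
    rw [← Real.exp_nat_mul]; congr 1; ring
  rw [h1]
  have hq' : (2 : ℝ) ≤ q := by exact_mod_cast hq
  have h2 : (1 : ℝ) / q ≤ 1 / 2 := one_div_le_one_div_of_le two_pos hq'
  have h3 : Real.exp (-1) ≤ 1 / 2 := by
    have h4 : (2 : ℝ) ≤ Real.exp 1 := by
      have := Real.add_one_le_exp (1 : ℝ)
      linarith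
    rw [Real.exp_neg, one_div]
    exact inv_anti₀ two_pos h4
  exact pow_le_pow_left₀ (Real.exp_pos _).le (by linarith) n

/-- the final estimate of the exponents -/
private theorem B9_num {d C K : ℕ} {Y r : ℝ} (hd : 11 ≤ d) (hC : K + 5 ≤ C) (hY : 0 ≤ Y)
    (hr : r ≤ 14 * d / (d : ℝ) ^ C * Y) :
    Y / (d : ℝ) ^ (K + 1) + 2 * (2 * d) * r ≤ Y / (d : ℝ) ^ K := by
  have hd' : (11 : ℝ) ≤ d := by exact_mod_cast hd
  have hd0 : (0 : ℝ) < d := by linarith
  have hK : 0 < (d : ℝ) ^ K := by positivity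
  have h1 : (d : ℝ) ^ (K + 5) ≤ (d : ℝ) ^ C := pow_le_pow_right₀ (by linarith) hC
  have h2 : 14 * (d : ℝ) / (d : ℝ) ^ C ≤ 14 * d / (d : ℝ) ^ (K + 5) :=
    div_le_div_of_nonneg_left (by positivity) (by positivity) h1
  have h3 : r ≤ 14 * d / (d : ℝ) ^ (K + 5) * Y := hr.trans (mul_le_mul_of_nonneg_right h2 hY)
  have h4 : 2 * (2 * (d : ℝ)) * r ≤ 2 * (2 * d) * (14 * d / (d : ℝ) ^ (K + 5) * Y) :=
    mul_le_mul_of_nonneg_left h3 (by positivity)
  have h5 : 2 * (2 * (d : ℝ)) * (14 * d / (d : ℝ) ^ (K + 5) * Y) = 56 / (d : ℝ) ^ 3 * (Y / (d : ℝ) ^ K) := by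
    rw [pow_add]
    field_simp
    ring
  have h6 : Y / (d : ℝ) ^ (K + 1) = 1 / d * (Y / (d : ℝ) ^ K) := by
    rw [pow_succ]
    field_simp
  have h7 : (56 : ℝ) / (d : ℝ) ^ 3 ≤ 1 / 2 := by
    rw [div_le_div_iff₀ (by positivity) two_pos]
    have : (11 : ℝ) ^ 3 ≤ (d : ℝ) ^ 3 := pow_le_pow_left₀ (by norm_num) hd' 3
    linarith
  have h8 : (1 : ℝ) / d ≤ 1 / 2 := one_div_le_one_div_of_le two_pos (by linarith)
  have h9 : 0 ≤ Y / (d : ℝ) ^ K := by positivity
  rw [h5] at h4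
  rw [h6]
  have h10 := mul_le_mul_of_nonneg_right h7 h9
  have h11 := mul_le_mul_of_nonneg_right h8 h9
  linarith

theorem sw_boxes (K : ℕ) : ∃ C d₀ : ℕ, ∀ d q : ℕ, d₀ ≤ d → Rg d q → ∀ s0 h : ℕ, (d : ℝ) ^ C ≤ 2 ^ s0 →
    (2 : ℝ) ^ s0 * (d : ℝ) ^ C ≤ h → (h : ℝ) ^ 2 ≤ 2 ^ d →
    ∀ (N : ℕ) (ι : Type) (D : Bxs d N h ι), (∀ k ∈ D.I, ∀ i, (h : ℝ) * (d : ℝ) ^ C ≤ D.m k i) →
      cG (TX (bG d N) D.In D.Su) (fun _ : BxV d N × Bool → Fin q => True) ≤
        Real.exp (D.YY / (d : ℝ) ^ K) * cG (TC (bG d N)) (fun _ : BxV d N × Bool → Fin q => True) := by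
  classical
  obtain ⟨C₁, d₁, hsw⟩ := switch (K + 1)
  refine ⟨max (C₁ + 2) (K + 5), max d₁ 11, ?_⟩
  set C : ℕ := max (C₁ + 2) (K + 5) with hC
  intro d q hd hR s0 h hs hh hh2 N ι D hm
  have hd1 : d₁ ≤ d := (le_max_left _ _).trans hd
  have hd11 : 11 ≤ d := (le_max_right _ _).trans hd
  have hdr : (11 : ℝ) ≤ d := by exact_mod_cast hd11
  have hC1 : C₁ + 2 ≤ C := le_max_left _ _
  have hC2 : K + 5 ≤ C := le_max_right _ _
  have hx1 : (d : ℝ) ^ C₁ ≤ (d : ℝ) ^ C := pow_le_pow_right₀ (by linarith) (by omega)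
  have hx2 : (d : ℝ) ^ (C₁ + 2) ≤ (d : ℝ) ^ C := pow_le_pow_right₀ (by linarith) hC1
  have hx3 : (d : ℝ) ^ 1 ≤ (d : ℝ) ^ C := pow_le_pow_right₀ (by linarith) (by omega)
  rw [pow_one] at hx3
  have hxp : 0 < (d : ℝ) ^ C := by positivity
  have h2s : (0 : ℝ) < (2 : ℝ) ^ s0 := by positivity
  have hl11 : (11 : ℝ) ≤ (2 : ℝ) ^ s0 := by linarith
  have hh0 : (0 : ℝ) ≤ h := Nat.cast_nonneg h
  have hh11 : (11 : ℝ) ≤ h := by nlinarith
  have hh2' : 2 ≤ h := by
    have : (2 : ℝ) ≤ h := by linarith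
    exact_mod_cast this
  have hl6 : 6 ≤ 2 ^ s0 := by
    have : (6 : ℝ) ≤ ((2 ^ s0 : ℕ) : ℝ) := by push_cast; linarith
    exact_mod_cast this
  have hs0 : s0 ≠ 0 := by
    rintro rfl
    norm_num at hl6
  have hev : Even (2 ^ s0) := Nat.even_pow.2 ⟨even_two, hs0⟩
  have hq2 : 2 ≤ q := by
    obtain ⟨⟨r, hr⟩, -, h3⟩ := hR
    omega
  -- the switching theorem
  have e2 : cG D.XX (fun _ : BxV d N × Bool → Fin q => True) ≤
      Real.exp (D.YY / (d : ℝ) ^ (K + 1)) * cG D.XC (fun _ : BxV d N × Bool → Fin q => True) := by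
    have hcov := cells_cover D C₁ (2 ^ s0) hd11 (by push_cast; linarith) hl6
      (by
        push_cast
        exact (mul_le_mul_of_nonneg_left hx2 h2s.le).trans hh)
      (fun k hk i => (mul_le_mul_of_nonneg_left hx2 hh0).trans (hm k hk i))
    push_cast at hcov
    exact hsw d q hd1 hR s0 h (hx1.trans hs) ((mul_le_mul_of_nonneg_left hx1 h2s.le).trans hh) hh2
      (BxV d N × Bool) D.Lam (D.Cix (2 ^ s0)) D.XX D.XC (fun v => bev v.1) D.GrL D.lv D.il (D.kap (2 ^ s0))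
      D.YY (XX_par D) (XC_par D) (XX_deg D) (XC_deg D) (lay D hh2') (kap_cells D (2 ^ s0) hev)
      (fun j u => kap_lv D (2 ^ s0) j u) (fun l => level_card D l) hcov
  have e1 : cG (TX (bG d N) D.In D.Su) (fun _ : BxV d N × Bool → Fin q => True) ≤
      cG D.XX (fun _ : BxV d N × Bool → Fin q => True) := rmv_le _ _
  have e3 := rmv_add (q := q) (by omega) (bG d N) bev (bG_par d N) (2 * d) card_nb_box D.RR
  have e4 := RR_card D (by omega) ((d : ℝ) ^ C) hxp hm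
  set n : ℕ := (univ.filter fun v : BxV d N => D.RR v).card with hn
  have e5 : Real.exp (-((2 * (2 * d) * n : ℕ) : ℝ)) * cG D.XC (fun _ : BxV d N × Bool → Fin q => True) ≤
      cG (TC (bG d N)) (fun _ : BxV d N × Bool → Fin q => True) :=
    (mul_le_mul_of_nonneg_right (B9_exp hq2 _) (B9_nn _ _)).trans e3
  have e6 : cG D.XC (fun _ : BxV d N × Bool → Fin q => True) ≤
      Real.exp ((2 * (2 * d) * n : ℕ) : ℝ) * cG (TC (bG d N)) (fun _ : BxV d N × Bool → Fin q => True) := by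
    have h1 := mul_le_mul_of_nonneg_left e5 (Real.exp_pos ((2 * (2 * d) * n : ℕ) : ℝ)).le
    rwa [← mul_assoc, ← Real.exp_add, add_neg_cancel, Real.exp_zero, one_mul] at h1
  calc cG (TX (bG d N) D.In D.Su) (fun _ : BxV d N × Bool → Fin q => True)
      ≤ Real.exp (D.YY / (d : ℝ) ^ (K + 1)) * cG D.XC (fun _ : BxV d N × Bool → Fin q => True) := e1.trans e2
    _ ≤ Real.exp (D.YY / (d : ℝ) ^ (K + 1)) * (Real.exp ((2 * (2 * d) * n : ℕ) : ℝ) *
        cG (TC (bG d N)) (fun _ : BxV d N × Bool → Fin q => True)) :=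
        mul_le_mul_of_nonneg_left e6 (Real.exp_pos _).le
    _ = Real.exp (D.YY / (d : ℝ) ^ (K + 1) + 2 * (2 * d) * n) *
        cG (TC (bG d N)) (fun _ : BxV d N × Bool → Fin q => True) := by
        rw [← mul_assoc, ← Real.exp_add]
        push_cast
        rfl
    _ ≤ _ := mul_le_mul_of_nonneg_right (Real.exp_le_exp.2 (B9_num hd11 hC2 (B9_YY D) e4)) (B9_nn _ _)

end Pool.Agent.LC

end

/-! ### from `Lib_MP_2c424f_lc6a.Main` -/

section

/-!
# LC6a: main theorem of VI.A (Schwarz inequality and switching at the surfaces of the boxes)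

`sw_boxes K` (constant `C ≥ 1`, `d₀`); the data form a `Bxs d N h ι` (`big`: `8 h + 8 ≤ 16 h ≤ h d^C ≤ m` for `d ≥ 16`).  `cs_sheets` (`in_adj`; the event depends on the points of the closed boxes only),
`fac_box`, `cG_TC`, `YY ≤ |I| Ym`.
-/

set_option autoImplicit false

open Finset Filter

namespace Pool.Agent.LC

open Pool.Agent.LO Pool.Agent.LIN Pool.Agent.THR Pool.Agent.COR

/-- `P_G (⋂ E_k)² ≤ exp (|I| Ym / d^K) ∏ P_{dbl D_k} (E_k)` -/
theorem schwarz (K : ℕ) : ∃ C d₀ : ℕ, ∀ d q : ℕ, d₀ ≤ d → Rg d q → ∀ s0 h : ℕ, (d : ℝ) ^ C ≤ 2 ^ s0 →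
    (2 : ℝ) ^ s0 * (d : ℝ) ^ C ≤ h → (h : ℝ) ^ 2 ≤ 2 ^ d →
    ∀ (N : ℕ) (ι : Type) [DecidableEq ι] (I : Finset ι) (a m : ι → Fin d → ℕ) (Ym : ℝ),
      (∀ k ∈ I, ∀ i, Even (a k i)) → (∀ k ∈ I, ∀ i, Even (m k i)) →
      (∀ k ∈ I, ∀ i, 2 * h + 2 ≤ a k i ∧ a k i + m k i + 2 * h + 2 ≤ N) →
      (∀ k ∈ I, ∀ k' ∈ I, k ≠ k' → ∃ i, a k i + m k i + 2 * h + 4 ≤ a k' i ∨ a k' i + m k' i + 2 * h + 4 ≤ a k i) →
      (∀ k ∈ I, ∀ i, (h : ℝ) * (d : ℝ) ^ C ≤ m k i) →
      (∀ k ∈ I, 2 * ∑ i, ∏ i' ∈ univ.erase i, ((m k i' : ℝ) + 1) ≤ Ym) →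
      ∀ E : ∀ k, (DV (m k) → Fin q) → Prop,
      cG (bG d N) (fun f : BxV d N → Fin q => ∀ k ∈ I, E k fun u => f (plc (a k) (m k) u)) ^ 2 *
          ∏ k ∈ I, N2 (DG (m k)) (Dgl (m k)) (fun _ : DV (m k) → Fin q => True) ≤
        cG (bG d N) (fun _ : BxV d N → Fin q => True) ^ 2 * Real.exp (I.card * Ym / (d : ℝ) ^ K) *
          ∏ k ∈ I, N2 (DG (m k)) (Dgl (m k)) (E k) := by
  obtain ⟨C₁, d₁, hsw⟩ := sw_boxes K
  refine ⟨max C₁ 1, max d₁ 16, ?_⟩
  intro d q hd hR s0 h hs hh hh2 N ι _ I a m Ym ea em lohi sep hm hY E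
  have hd1 : d₁ ≤ d := (le_max_left _ _).trans hd
  have hd16 : 16 ≤ d := (le_max_right _ _).trans hd
  have hdr : (16 : ℝ) ≤ d := by exact_mod_cast hd16
  have hd0 : (0 : ℝ) < d := by linarith
  have hC1 : (d : ℝ) ^ C₁ ≤ (d : ℝ) ^ max C₁ 1 := pow_le_pow_right₀ (by linarith) (le_max_left _ _)
  have hC2 : (16 : ℝ) ≤ (d : ℝ) ^ max C₁ 1 := by
    have h1 : (d : ℝ) ^ 1 ≤ (d : ℝ) ^ max C₁ 1 := pow_le_pow_right₀ (by linarith) (le_max_right _ _)
    rw [pow_one] at h1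
    linarith
  have h2s : (16 : ℝ) ≤ 2 ^ s0 := hC2.trans hs
  have hh16 : (1 : ℝ) ≤ h := by nlinarith
  have hh1 : 1 ≤ h := by exact_mod_cast hh16
  have hq : 1 ≤ q := by
    have := hR.2.2
    omega
  have hbig : ∀ k ∈ I, ∀ i, 8 * h + 8 ≤ m k i := by
    intro k hk i
    have h1 := hm k hk i
    have h2 : (h : ℝ) * 16 ≤ h * (d : ℝ) ^ max C₁ 1 := mul_le_mul_of_nonneg_left hC2 (by linarith)
    have h3 : (h : ℝ) * 16 ≤ m k i := h2.trans h1
    have h4 : h * 16 ≤ m k i := by exact_mod_cast h3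
    omega
  let D : Bxs d N h ι := ⟨I, a, m, ea, em, fun k hk i => (lohi k hk i).1, fun k hk i => (lohi k hk i).2, sep, hbig⟩
  have hmul : ∀ x : ℝ, 0 ≤ x → x * (d : ℝ) ^ C₁ ≤ x * (d : ℝ) ^ max C₁ 1 := fun x hx =>
    mul_le_mul_of_nonneg_left hC1 hx
  have hsw1 := hsw d q hd1 hR s0 h (hC1.trans hs) ((hmul _ (by positivity)).trans hh) hh2 N ι D
    (fun k hk i => (hmul _ (by linarith)).trans (hm k hk i))
  have hSI : ∀ x, D.Su x → D.In x := fun x ⟨k, hk, hx⟩ => ⟨k, hk, hx.1⟩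
  have hno : ∀ x y, (bG d N).Adj x y → ¬ D.Su x → ¬ D.Su y → (D.In x ↔ D.In y) :=
    fun x y hxy hx hy => in_adj D hxy hx hy
  have hpl : ∀ k ∈ I, ∀ u : DV (m k), D.In (plc (a k) (m k) u) := by
    intro k hk u
    refine ⟨k, hk, fun i => ?_⟩
    have h1 : ((plc (a k) (m k) u : BxV d N) i).val = a k i + (u i).val := plc_val D hk u i
    have h2 := (u i).isLt
    show a k i ≤ ((plc (a k) (m k) u : BxV d N) i).val ∧ ((plc (a k) (m k) u : BxV d N) i).val ≤ a k i + m k i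
    rw [h1]
    omega
  have h1 := cs_sheets (q := q) (bG d N) D.In D.Su hSI hno
    (fun f : BxV d N → Fin q => ∀ k ∈ I, E k fun u => f (plc (a k) (m k) u)) (by
      intro f f' hff hf k hk
      have h2 : (fun u : DV (m k) => f' (plc (a k) (m k) u)) = fun u => f (plc (a k) (m k) u) := by
        funext u
        exact (hff _ (hpl k hk u)).symm
      rw [h2]
      exact hf k hk)
  have h2 := fac_box D hq E
  have h2' : cG (TX (bG d N) D.In D.Su) (fun F : BxV d N × Bool → Fin q =>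
        ∀ k ∈ I, E k fun u => F (plc (a k) (m k) u, false)) *
        ∏ k ∈ I, N2 (DG (m k)) (Dgl (m k)) (fun _ : DV (m k) → Fin q => True) =
      cG (TX (bG d N) D.In D.Su) (fun _ : BxV d N × Bool → Fin q => True) *
        ∏ k ∈ I, N2 (DG (m k)) (Dgl (m k)) (E k) := h2
  have hYY : D.YY ≤ I.card * Ym := by
    unfold Bxs.YY
    have h3 := Finset.sum_le_card_nsmul I
      (fun k => 2 * ∑ i, ∏ i' ∈ univ.erase i, ((m k i' : ℝ) + 1)) Ym hY
    rw [nsmul_eq_mul] at h3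
    exact h3
  have hdK : (0 : ℝ) < (d : ℝ) ^ K := pow_pos hd0 K
  have hexp : Real.exp (D.YY / (d : ℝ) ^ K) ≤ Real.exp (I.card * Ym / (d : ℝ) ^ K) :=
    Real.exp_le_exp.2 (div_le_div_of_nonneg_right hYY hdK.le)
  have hN1 : 0 ≤ ∏ k ∈ I, N2 (DG (m k)) (Dgl (m k)) (fun _ : DV (m k) → Fin q => True) :=
    prod_nonneg fun k _ => Nat.cast_nonneg _
  have hN2 : 0 ≤ ∏ k ∈ I, N2 (DG (m k)) (Dgl (m k)) (E k) :=
    prod_nonneg fun k _ => Nat.cast_nonneg _
  rw [cG_TC] at hsw1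
  calc cG (bG d N) (fun f : BxV d N → Fin q => ∀ k ∈ I, E k fun u => f (plc (a k) (m k) u)) ^ 2 *
          ∏ k ∈ I, N2 (DG (m k)) (Dgl (m k)) (fun _ : DV (m k) → Fin q => True)
      ≤ cG (TX (bG d N) D.In D.Su) (fun F : BxV d N × Bool → Fin q =>
          ∀ k ∈ I, E k fun u => F (plc (a k) (m k) u, false)) *
          ∏ k ∈ I, N2 (DG (m k)) (Dgl (m k)) (fun _ : DV (m k) → Fin q => True) :=
        mul_le_mul_of_nonneg_right h1 hN1
    _ = cG (TX (bG d N) D.In D.Su) (fun _ : BxV d N × Bool → Fin q => True) *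
          ∏ k ∈ I, N2 (DG (m k)) (Dgl (m k)) (E k) := h2'
    _ ≤ (Real.exp (I.card * Ym / (d : ℝ) ^ K) * cG (bG d N) (fun _ : BxV d N → Fin q => True) ^ 2) *
          ∏ k ∈ I, N2 (DG (m k)) (Dgl (m k)) (E k) :=
        mul_le_mul_of_nonneg_right (hsw1.trans (mul_le_mul_of_nonneg_right hexp (sq_nonneg _))) hN2
    _ = _ := by ring

end Pool.Agent.LC

end

/-! ### from `Lib_MP_2c424f_lc6.C11` -/

section

/-!
# LC6 C11: switching in a product domain

`LC.switch K` for `X = D2 (YG □ RX s (L j))`, `X' = D2 (YG □ path)` with `prod_layer`, `layer_cells`, `layer_levels`, `cover`, `D2_par`, `D2_deg`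
(`2 (2 (d-1) + 2) = 4 d`), level sets `= 2 |YV|` points `=: Y`; then `cG_D2` (`P = True`, same glue set), `N2_RX`, `N2_path`; the factor `q^#gl > 0` cancels.
The constant: `C' = C + 2` where `C` is the constant of `switch K`; `h < 2 L i` from `h ≤ L i`.
-/

set_option autoImplicit false

open Finset Matrix

namespace Pool.Agent.LC

open Pool.Agent.LO Pool.Agent.LIN Pool.Agent.THR Pool.Agent.COR

private theorem C11_level {A B : Type} [Fintype A] [Fintype B] {h : ℕ} (l : ℕ) :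
    (univ.filter fun z : (A × B) × Fin h => z.2.val = l).card ≤ Fintype.card A * Fintype.card B := by
  rw [← Fintype.card_prod, ← card_univ]
  refine card_le_card_of_injOn (fun z => z.1) (fun z _ => mem_coe.2 (mem_univ _)) ?_
  intro z hz z' hz' he
  have h1 : z.2.val = l := (mem_filter.1 (mem_coe.1 hz)).2
  have h2 : z'.2.val = l := (mem_filter.1 (mem_coe.1 hz')).2
  exact Prod.ext he (Fin.ext (h1.trans h2.symm))

theorem sw_prod (K : ℕ) : ∃ C d₀ : ℕ, ∀ d q : ℕ, d₀ ≤ d → Rg d q → ∀ s0 h s : ℕ, (d : ℝ) ^ C ≤ 2 ^ s0 →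
    (2 : ℝ) ^ s0 * (d : ℝ) ^ C ≤ h → (h : ℝ) ^ 2 ≤ 2 ^ d → Even s → h ≤ s →
    ∀ (L : Fin d → ℕ) (j : Fin d) (p : {i // i ≠ j} → Bool), (∀ i, h ≤ L i) →
      (vY q (YV j p L s) ⬝ᵥ ((TY q (YG j p L s) (Ygl j p L s) ^ (2 * s)) *ᵥ vY q (YV j p L s))) *
          (TY q (YG j p L s) (Ygl j p L s) ^ (2 * L j)).trace ≤
        Real.exp (2 * (∏ i : {i // i ≠ j}, ((lm (p i) (L i) s + 1 : ℕ) : ℝ)) / (d : ℝ) ^ K) *
          (vY q (YV j p L s) ⬝ᵥ ((TY q (YG j p L s) (Ygl j p L s) ^ (2 * s + 2 * L j)) *ᵥ vY q (YV j p L s))) := by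
  obtain ⟨C, d₀, hsw⟩ := switch K
  refine ⟨C + 2, d₀ + 6, ?_⟩
  intro d q hd hR s0 h s h1 h2 h3 hse hsh L j p hL
  have hd6 : 6 ≤ d := by omega
  have hdR : (6 : ℝ) ≤ d := by exact_mod_cast hd6
  have hd1 : (1 : ℝ) ≤ d := by linarith
  have hC : (d : ℝ) ^ C ≤ (d : ℝ) ^ (C + 2) := pow_le_pow_right₀ hd1 (by omega)
  have hC6 : (6 : ℝ) ≤ (d : ℝ) ^ (C + 2) := by
    calc (6 : ℝ) ≤ d := hdR
      _ = (d : ℝ) ^ 1 := (pow_one _).symm
      _ ≤ _ := pow_le_pow_right₀ hd1 (by omega)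
  have hq : 0 < q := by
    have := hR.2.2
    omega
  have h6 : (6 : ℝ) ≤ 2 ^ s0 := hC6.trans h1
  have h6n : 6 ≤ 2 ^ s0 := by exact_mod_cast h6
  have hs0 : s0 ≠ 0 := by
    rintro rfl
    norm_num at h6n
  have hh : 1 ≤ h := by
    have h4 : (1 : ℝ) ≤ h := by
      refine le_trans ?_ h2
      nlinarith
    exact_mod_cast h4
  have hh2 : 2 ≤ h := by
    have h4 : (2 : ℝ) ≤ h := by
      refine le_trans ?_ h2
      nlinarith
    exact_mod_cast h4
  have hL1 : ∀ i, 1 ≤ L i := fun i => hh.trans (hL i)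
  have hL2 : ∀ i, h < 2 * L i := fun i => by
    have := hL i
    omega
  have hdeg : ∀ (R : SimpleGraph (Fin (2 * s + 2 * L j + 1))), (∀ a, (nb R a).card ≤ 2) →
      ∀ v, (nb (D2 ((YG j p L s).boxProd R) (glp (Ygl j p L s) (2 * s + 2 * L j))) v).card ≤ 4 * d := by
    intro R hRd v
    refine (D2_deg _ _ (2 * (d - 1)) (YG_deg j p L s) R hRd v).trans (le_of_eq ?_)
    omega
  have hS := hsw d q (by omega) hR s0 h (hC.trans h1)
    (le_trans (mul_le_mul_of_nonneg_left hC (by positivity)) h2) h3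
    ((YV j p L s × Fin (2 * s + 2 * L j + 1)) × Bool) ((YV j p L s × Bool) × Fin h)
    (CI j p L s (2 ^ s0) h)
    (D2 ((YG j p L s).boxProd (RX s (L j))) (glp (Ygl j p L s) (2 * s + 2 * L j)))
    (D2 ((YG j p L s).boxProd (lnG false (2 * s + 2 * L j + 1))) (glp (Ygl j p L s) (2 * s + 2 * L j)))
    (evP (Yev j p L s)) (LG s (L j) h (YG j p L s) (Ygl j p L s)) (fun z => z.2.val) (ib s (L j) h)
    (kap j p L s (2 ^ s0) h hh)
    (2 * (∏ i : {i // i ≠ j}, ((lm (p i) (L i) s + 1 : ℕ) : ℝ)))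
    (D2_par _ _ _ (YG_par j p L s hL1) _ (RX_par s (L j)))
    (D2_par _ _ _ (YG_par j p L s hL1) _ (lnG_par _))
    (hdeg _ (RX_deg s (L j))) (hdeg _ (lnG_deg false _))
    (prod_layer (YG j p L s) (Ygl j p L s) (Yev j p L s) s (L j) h hh2 hsh (hL2 j))
    (layer_cells j p L s (2 ^ s0) h (Nat.even_pow.2 ⟨even_two, hs0⟩) (by omega) hse hh hsh hL2)
    (layer_levels j p L s (2 ^ s0) h hh)
    (by
      intro l
      have h4 := C11_level (A := YV j p L s) (B := Bool) (h := h) l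
      have h5 : Fintype.card (YV j p L s) = ∏ i : {i // i ≠ j}, (lm (p i) (L i) s + 1) := by
        simp [YV, Fintype.card_pi]
      rw [h5, Fintype.card_bool] at h4
      have h6 : (((univ.filter fun z : (YV j p L s × Bool) × Fin h => z.2.val = l).card : ℕ) : ℝ) ≤
          (((∏ i : {i // i ≠ j}, (lm (p i) (L i) s + 1)) * 2 : ℕ) : ℝ) := by exact_mod_cast h4
      refine h6.trans (le_of_eq ?_)
      rw [Nat.cast_mul, Nat.cast_prod]
      push_cast
      ring)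
    (by
      have h4 := cover C (by omega) j p L s (2 ^ s0) h (by push_cast; exact h1) h6n
        (by push_cast; exact h2) (by
          intro i
          have h5 := hL i.1
          unfold lm
          split_ifs <;> omega)
      push_cast at h4 ⊢
      exact h4)
  have e1 := cG_D2 (q := q) ((YG j p L s).boxProd (RX s (L j))) (glp (Ygl j p L s) (2 * s + 2 * L j))
    (fun _ => True)
  have e2 := cG_D2 (q := q) ((YG j p L s).boxProd (lnG false (2 * s + 2 * L j + 1)))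
    (glp (Ygl j p L s) (2 * s + 2 * L j)) (fun _ => True)
  rw [e1, e2, N2_RX q (YG j p L s) (Ygl j p L s) s (L j) (hh.trans hsh) (hL1 j),
    N2_path q (YG j p L s) (Ygl j p L s) (2 * s + 2 * L j) (by have := hL1 j; omega)] at hS
  have hq' : (0 : ℝ) < q := by exact_mod_cast hq
  rw [mul_left_comm (Real.exp _)] at hS
  exact le_of_mul_le_mul_left hS (pow_pos hq' _)

end Pool.Agent.LC

end

/-! ### from `Lib_MP_2c424f_lc6.C15` -/

section

/-!
# LC6 C15: bad blocks in the doubled box are rare (main theorem of VI.B)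

Induction on the number of free directions, claim for all `per` and all `Γ` which are invariant in the periodic directions:
`N2 (Γ) ≤ N2 (none) exp (#free · Ym / d^K) x^(Wn Γ)`, `x = exp (-(2^d/d^Cb))`.  No free direction: `all_periodic` (`per = fun _ => true`).  Otherwise
take `j` with `per j = false`: `free_step` with `c = exp (Ym/d^K)` (`sw_prod`; `2 ∏ (lm + 1) ≤ 2 ∏ (2 L i + 2 s) ≤ Ym`), `E = exp ((#free - 1) Ym / d^K)`;
`fun t => Γ (update t j ℓ)` is invariant in the directions with `update per j true i = true` (`Function.update_comm`).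
The `N2` are positive: `q ≥ 2`, the colouring by parity (`0` at even, `1` at odd points of both sheets).
-/

set_option autoImplicit false

open Finset Matrix

namespace Pool.Agent.LC

open Pool.Agent.LO Pool.Agent.LIN Pool.Agent.THR Pool.Agent.COR

theorem N2_pos {d q : ℕ} (hq : 2 ≤ q) (per : Fin d → Bool) (L : Fin d → ℕ) (s : ℕ) (hL : ∀ i, 1 ≤ L i) :
    0 < N2 (WG per L s) (Wgl per L s) (WE (q := q) per L s fun _ => none) := by
  classical
  have hq0 : 0 < q := by omega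
  set z : Fin q := ⟨0, hq0⟩ with hz
  set o : Fin q := ⟨1, by omega⟩ with ho
  have hzo : z ≠ o := by
    intro h
    have := congrArg Fin.val h
    simp [hz, ho] at this
  set f : WV per L s → Fin q := fun x => if Even (∑ i, (x i).val) then z else o with hf
  have hlm : ∀ i, per i = true → Odd (lm (per i) (L i) s) := by
    intro i hi
    unfold lm
    rw [if_pos hi]
    have := hL i
    exact ⟨L i - 1, by omega⟩
  have hpar : ∀ x y : WV per L s, (WG per L s).Adj x y → ¬ (Even (∑ i, (x i).val) ↔ Even (∑ i, (y i).val)) := by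
    rintro x y ⟨i, hi1, hi2⟩
    rw [← add_sum_erase univ (fun i => (x i).val) (mem_univ i), ← add_sum_erase univ (fun i => (y i).val) (mem_univ i)]
    have h1 : ∑ k ∈ univ.erase i, (x k).val = ∑ k ∈ univ.erase i, (y k).val :=
      sum_congr rfl fun k hk => by rw [hi1 k (ne_of_mem_erase hk)]
    rw [h1]
    obtain ⟨_, h2⟩ := hi2
    have h3 : ¬ (Even (x i).val ↔ Even (y i).val) := by
      rcases h2 with h2 | h2 | ⟨h2, h3⟩
      · rw [← h2, Nat.even_add_one]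
        tauto
      · rw [← h2, Nat.even_add_one]
        tauto
      · have h4 := hlm i h2
        rcases h3 with ⟨h5, h6⟩ | ⟨h5, h6⟩
        · have h7 : (y i).val = lm (per i) (L i) s := by omega
          rw [h5, h7]
          have h8 := Nat.not_even_iff_odd.2 h4
          simp [h8]
        · have h7 : (x i).val = lm (per i) (L i) s := by omega
          rw [h5, h7]
          have h8 := Nat.not_even_iff_odd.2 h4
          simp [h8]
    rw [Nat.even_add, Nat.even_add]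
    tauto
  have hprop : PrG (WG per L s) f := by
    intro x y hxy
    have h1 := hpar x y hxy
    simp only [hf]
    by_cases hx : Even (∑ i, (x i).val) <;> by_cases hy : Even (∑ i, (y i).val)
    · exact absurd (iff_of_true hx hy) h1
    · rw [if_pos hx, if_neg hy]
      exact hzo
    · rw [if_neg hx, if_pos hy]
      exact hzo.symm
    · exact absurd (iff_of_false hx hy) h1
  unfold N2
  have hmem : (f, f) ∈ (univ.filter fun p : (WV per L s → Fin q) × (WV per L s → Fin q) =>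
      PrG (WG per L s) p.1 ∧ PrG (WG per L s) p.2 ∧ (∀ x, Wgl per L s x → p.1 x = p.2 x) ∧
        WE (q := q) per L s (fun _ => none) p.1) := by
    rw [mem_filter]
    refine ⟨mem_univ _, hprop, hprop, fun _ _ => rfl, ?_⟩
    intro t _ τ hτ
    exact absurd hτ (by simp)
  have h1 := card_pos.2 ⟨_, hmem⟩
  exact_mod_cast h1

private theorem c15_pow_nonneg {S : Type} [Fintype S] [DecidableEq S] (T : Matrix S S ℝ) (hT : ∀ a b, 0 ≤ T a b)
    (n : ℕ) : ∀ a b, 0 ≤ (T ^ n) a b := by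
  induction n with
  | zero =>
    intro a b
    rw [pow_zero, Matrix.one_apply]
    split_ifs <;> norm_num
  | succ n ih =>
    intro a b
    rw [pow_succ, Matrix.mul_apply]
    exact sum_nonneg fun c _ => mul_nonneg (ih a c) (hT c b)

private theorem c15_quad_nonneg {S : Type} [Fintype S] [DecidableEq S] (T : Matrix S S ℝ) (hT : ∀ a b, 0 ≤ T a b)
    (v : S → ℝ) (hv : ∀ a, 0 ≤ v a) (n : ℕ) : 0 ≤ v ⬝ᵥ ((T ^ n) *ᵥ v) :=
  sum_nonneg fun a _ => mul_nonneg (hv a) (sum_nonneg fun b _ => mul_nonneg (c15_pow_nonneg T hT n a b) (hv b))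

private theorem c15_vY (q : ℕ) (Y : Type) (σ : Y → Fin q × Fin q) : 0 ≤ vY q Y σ := by
  unfold vY
  split_ifs <;> norm_num

private theorem c15_vol {d : ℕ} (per : Fin d → Bool) (r : Fin d → ℕ) (s : ℕ) (j : Fin d) :
    (∏ i : {i // i ≠ j}, ((lm (per i) (2 ^ r i) s + 1 : ℕ) : ℝ)) ≤ ∏ i ∈ univ.erase j, (2 * (2 : ℝ) ^ r i + 2 * s) := by
  have h1 : (∏ i ∈ univ.erase j, (2 * (2 : ℝ) ^ r i + 2 * s)) = ∏ i : {i // i ≠ j}, (2 * (2 : ℝ) ^ r i + 2 * s) :=
    Finset.prod_subtype (univ.erase j) (by simp) _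
  rw [h1]
  refine prod_le_prod (fun i _ => by positivity) fun i _ => ?_
  have h2 : lm (per i) (2 ^ r i) s + 1 ≤ 2 * 2 ^ r i + 2 * s := by
    unfold lm
    have h3 : 1 ≤ 2 ^ r (i : Fin d) := Nat.one_le_two_pow
    split_ifs <;> omega
  exact_mod_cast h2

theorem dbl_bad : ∃ Cb : ℕ, ∀ K : ℕ, ∃ C d₀ : ℕ, ∀ d q : ℕ, d₀ ≤ d → Rg d q → ∀ s0 h s : ℕ, (d : ℝ) ^ C ≤ 2 ^ s0 →
    (2 : ℝ) ^ s0 * (d : ℝ) ^ C ≤ h → (h : ℝ) ^ 2 ≤ 2 ^ d → Even s → h ≤ s → ∀ r : Fin d → ℕ, (∀ i, h ≤ 2 ^ r i) →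
    ∀ Ym : ℝ, (∀ j, 2 * ∏ i ∈ univ.erase j, (2 * (2 : ℝ) ^ r i + 2 * s) ≤ Ym) →
    ∀ Γ : (Fin d → ℕ) → Option (Option (Fin q)),
      N2 (WG (fun _ : Fin d => false) (fun i => 2 ^ r i) s) (Wgl (fun _ : Fin d => false) (fun i => 2 ^ r i) s)
          (WE (fun _ => false) (fun i => 2 ^ r i) s Γ) ≤
        N2 (WG (fun _ : Fin d => false) (fun i => 2 ^ r i) s) (Wgl (fun _ : Fin d => false) (fun i => 2 ^ r i) s)
          (WE (q := q) (fun _ => false) (fun i => 2 ^ r i) s fun _ => none) *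
          Real.exp (d * Ym / (d : ℝ) ^ K) * Real.exp (-(2 ^ d / (d : ℝ) ^ Cb)) ^ Wn (fun _ => false) (fun i => 2 ^ r i) Γ := by
  obtain ⟨C1, d1, h1⟩ := all_periodic
  refine ⟨C1, fun K => ?_⟩
  obtain ⟨C2, d2, h2⟩ := sw_prod K
  refine ⟨max C1 C2, max (max d1 d2) 1, ?_⟩
  intro d q hd hR s0 h s hs0 hh hh2 hs hhs r hr Ym hYm Γ
  have hd1 : d1 ≤ d := le_trans (le_trans (le_max_left _ _) (le_max_left _ _)) hd
  have hd2 : d2 ≤ d := le_trans (le_trans (le_max_right _ _) (le_max_left _ _)) hd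
  have hd0 : 1 ≤ d := le_trans (le_max_right _ _) hd
  have hdr : (1 : ℝ) ≤ d := by exact_mod_cast hd0
  have hq : 2 ≤ q := by
    obtain ⟨⟨k, hk⟩, _, h3⟩ := hR
    omega
  have hC1 : (d : ℝ) ^ C1 ≤ (d : ℝ) ^ max C1 C2 := pow_le_pow_right₀ hdr (le_max_left _ _)
  have hC2 : (d : ℝ) ^ C2 ≤ (d : ℝ) ^ max C1 C2 := pow_le_pow_right₀ hdr (le_max_right _ _)
  have h2s : (1 : ℝ) ≤ 2 ^ s0 := one_le_pow₀ (by norm_num)
  have hdC : (0 : ℝ) < (d : ℝ) ^ max C1 C2 := by positivity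
  have hper1 : ∀ i, (d : ℝ) ^ C1 ≤ 2 ^ r i := by
    intro i
    have h3 : (h : ℝ) ≤ 2 ^ r i := by exact_mod_cast hr i
    nlinarith
  have hsw1 : (d : ℝ) ^ C2 ≤ 2 ^ s0 := hC2.trans hs0
  have hsw2 : (2 : ℝ) ^ s0 * (d : ℝ) ^ C2 ≤ h := by
    refine le_trans ?_ hh
    exact mul_le_mul_of_nonneg_left hC2 (by positivity)
  have hh1 : 1 ≤ h := by
    have h3 : (0 : ℝ) < h := lt_of_lt_of_le (mul_pos (by positivity) hdC) hh
    exact_mod_cast h3
  have hs1 : 1 ≤ s := hh1.trans hhs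
  set x : ℝ := Real.exp (-(2 ^ d / (d : ℝ) ^ C1)) with hx
  have hx0 : 0 ≤ x := (Real.exp_pos _).le
  have key : ∀ (n : ℕ) (per : Fin d → Bool), (univ.filter fun i => per i = false).card = n →
      ∀ Γ : (Fin d → ℕ) → Option (Option (Fin q)), (∀ i, per i = true → ∀ t v, Γ (Function.update t i v) = Γ t) →
      N2 (WG per (fun i => 2 ^ r i) s) (Wgl per (fun i => 2 ^ r i) s) (WE per (fun i => 2 ^ r i) s Γ) ≤
        N2 (WG per (fun i => 2 ^ r i) s) (Wgl per (fun i => 2 ^ r i) s)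
          (WE (q := q) per (fun i => 2 ^ r i) s fun _ => none) *
          Real.exp (n * Ym / (d : ℝ) ^ K) * x ^ Wn per (fun i => 2 ^ r i) Γ := by
    intro n
    induction n with
    | zero =>
      intro per hper Γ hΓ
      have hp : per = fun _ => true := by
        funext i
        by_contra hi
        have h3 : i ∈ (univ.filter fun i => per i = false) := by
          rw [mem_filter]
          exact ⟨mem_univ _, by simpa using hi⟩
        rw [card_eq_zero] at hper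
        rw [hper] at h3
        exact absurd h3 (notMem_empty _)
      subst hp
      have h3 := h1 d q hd1 hR r s hper1 Γ (fun t i v => hΓ i rfl t v)
      have h4 : Real.exp (((0 : ℕ) : ℝ) * Ym / (d : ℝ) ^ K) = 1 := by
        rw [Nat.cast_zero, zero_mul, zero_div, Real.exp_zero]
      rw [h4, mul_one]
      exact h3
    | succ n ih =>
      intro per hper Γ hΓ
      obtain ⟨j, hj⟩ : ∃ j, per j = false := by
        have h3 : 0 < (univ.filter fun i => per i = false).card := by omega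
        obtain ⟨j, hj⟩ := card_pos.1 h3
        exact ⟨j, (mem_filter.1 hj).2⟩
      have hYm0 : 0 ≤ Ym := by
        refine le_trans ?_ (hYm j)
        positivity
      have hcard : (univ.filter fun i => Function.update per j true i = false).card = n := by
        have h3 : (univ.filter fun i => Function.update per j true i = false) =
            (univ.filter fun i => per i = false).erase j := by
          ext i
          rw [mem_filter, mem_erase, mem_filter]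
          by_cases hi : i = j
          · subst hi
            simp
          · rw [Function.update_of_ne hi]
            simp [hi]
        have hmemj : j ∈ (univ.filter fun i => per i = false) := mem_filter.2 ⟨mem_univ _, hj⟩
        rw [h3, card_erase_of_mem hmemj, hper]
        rfl
      have hE : 1 ≤ Real.exp (n * Ym / (d : ℝ) ^ K) := Real.one_le_exp (by positivity)
      have hc : 0 ≤ Real.exp (Ym / (d : ℝ) ^ K) := (Real.exp_pos _).le
      have hsw := h2 d q hd2 hR s0 h s hsw1 hsw2 hh2 hs hhs (fun i => 2 ^ r i) j (fun i => per i) hr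
      have hvol : 2 * (∏ i : {i // i ≠ j}, ((lm (per i) (2 ^ r i) s + 1 : ℕ) : ℝ)) / (d : ℝ) ^ K ≤ Ym / (d : ℝ) ^ K := by
        refine div_le_div_of_nonneg_right ?_ (by positivity)
        refine le_trans ?_ (hYm j)
        exact mul_le_mul_of_nonneg_left (c15_vol per r s j) (by norm_num)
      have hquad := c15_quad_nonneg
        (TY q (YG j (fun i => per i) (fun i => 2 ^ r i) s) (Ygl j (fun i => per i) (fun i => 2 ^ r i) s))
        (TY_nonneg _ _ _) (vY q (YV j (fun i => per i) (fun i => 2 ^ r i) s)) (c15_vY _ _) (2 * s + 2 * 2 ^ r j)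
      have hsw' := hsw.trans (mul_le_mul_of_nonneg_right (Real.exp_le_exp.2 hvol) hquad)
      have hfs := free_step per r s j hj hs hs1 (Real.exp (Ym / (d : ℝ) ^ K)) (Real.exp (n * Ym / (d : ℝ) ^ K)) x
        hc hE hx0 (N2_pos hq _ _ _ fun i => Nat.one_le_two_pow) hsw' Γ (fun ℓ => by
          refine ih (Function.update per j true) hcard (fun t => Γ (Function.update t j ℓ)) ?_
          intro i hi t v
          by_cases hij : i = j
          · subst hij
            show Γ (Function.update (Function.update t i v) i ℓ) = Γ (Function.update t i ℓ)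
            rw [Function.update_idem]
          · rw [Function.update_of_ne hij] at hi
            show Γ (Function.update (Function.update t i v) j ℓ) = Γ (Function.update t j ℓ)
            rw [Function.update_comm hij, hΓ i hi])
      have hexp : Real.exp (Ym / (d : ℝ) ^ K) * Real.exp (n * Ym / (d : ℝ) ^ K) =
          Real.exp (((n + 1 : ℕ) : ℝ) * Ym / (d : ℝ) ^ K) := by
        rw [← Real.exp_add]
        congr 1
        push_cast
        ring
      rw [hexp] at hfs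
      exact hfs
  have hfin := key d (fun _ => false) (by simp) Γ (fun i hi => by simp at hi)
  exact hfin

end Pool.Agent.LC

end

/-! ### from `Lib_MP_2c424f_lc7.E06` -/

section

/-!
# LC7 E06: impure doubled dominoes are rare

Let `Cb` be the first constant of `dbl_bad`; the constant of the theorem is `Cb + 2`.  `dbl_bad` with `K = Cb + 8`, `e = eC C d`, `s0 = e`, `h = s = 4^e` (`d^C ≤ 2^e`, `2^e d^C ≤ 4^e`, `eC_small`), `L i = 2^(rS e j i)`,
`Ym = 8 w^(d-1)` (`2 ∏_{i' ≠ i} (2 L i' + 2 s) ≤ 2 · 2 (w + 2 s)^(d-1) ≤ 8 w^(d-1)`: at most one `i'` has `2 L = 2 w`; `w_pow`).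
`not_WPU` with `Lm = w` (`= 2 · 2^(5e)`), `m₀ = ∏ (L i - 1)/(100 d w) ≥ ∏ L i/(200 d w)`, and `2^d ∏ L i ≥ w^d`, so `2^d m₀ ≥ w^(d-1)/(200 d)`.
`many_bad` with `Z = N2 True · exp (d Ym/d^K)`, `x = exp (-(2^d/d^Cb))`: exponent
`≤ ∏ L i log (q+2) + 8 w^(d-1)/d^(Cb+7) - w^(d-1)/(200 d^(Cb+1)) ≤ - w^(d-1)/d^(Cb+2)`, since
`∏ L i ≤ 2 L^d = 2 L w^(d-1)/2^(d-1)` and `L d^(Cb+4) ≤ 2^d / ..` (`eC_small`).
`WE .. (fun _ => none)` is `True`.
-/

set_option autoImplicit false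

open Finset Filter

namespace Pool.Agent.LC

open Pool.Agent.LO Pool.Agent.LIN Pool.Agent.THR Pool.Agent.COR

private theorem E06_mono {W : Type} [Fintype W] [DecidableEq W] {q : ℕ} (B : SimpleGraph W) (gl : W → Prop)
    (P Q : (W → Fin q) → Prop) (h : ∀ f, P f → Q f) : N2 B gl P ≤ N2 B gl Q := by
  classical
  unfold N2
  have h1 : (univ.filter fun p : (W → Fin q) × (W → Fin q) =>
      PrG B p.1 ∧ PrG B p.2 ∧ (∀ x, gl x → p.1 x = p.2 x) ∧ P p.1) ⊆
      (univ.filter fun p : (W → Fin q) × (W → Fin q) =>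
      PrG B p.1 ∧ PrG B p.2 ∧ (∀ x, gl x → p.1 x = p.2 x) ∧ Q p.1) := by
    intro p hp
    rw [mem_filter] at hp ⊢
    exact ⟨hp.1, hp.2.1, hp.2.2.1, hp.2.2.2.1, h _ hp.2.2.2.2⟩
  exact_mod_cast card_le_card h1

private theorem E06_nn {W : Type} [Fintype W] [DecidableEq W] {q : ℕ} (B : SimpleGraph W) (gl : W → Prop)
    (P : (W → Fin q) → Prop) : 0 ≤ N2 B gl P := Nat.cast_nonneg _

/-- the side lengths: `2 L i = w` or `2 w` -/
private theorem E06_two {d : ℕ} (e : ℕ) (j i : Fin d) :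
    2 * (2 : ℝ) ^ rS e (some j) i = (wS e : ℝ) * (if i = j then 2 else 1) := by
  unfold rS wS
  push_cast
  by_cases h : i = j
  · subst h
    rw [if_pos rfl, if_pos rfl, pow_succ]
    ring
  · rw [if_neg h, if_neg (fun h' => h (Option.some.inj h').symm)]
    ring

private theorem E06_w_pos (e : ℕ) : (0 : ℝ) < wS e := by
  unfold wS
  positivity

/-- the bound for the faces -/
private theorem E06_face {d : ℕ} (e : ℕ) (j j' : Fin d)
    (hw : ((wS e : ℝ) + 2 * hS e) ^ (d - 1) ≤ 2 * (wS e : ℝ) ^ (d - 1)) :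
    2 * ∏ i ∈ univ.erase j', (2 * (2 : ℝ) ^ rS e (some j) i + 2 * hS e) ≤ 8 * (wS e : ℝ) ^ (d - 1) := by
  have hw0 := E06_w_pos e
  have hs0 : (0 : ℝ) ≤ hS e := Nat.cast_nonneg _
  have h1 : ∏ i ∈ univ.erase j', (2 * (2 : ℝ) ^ rS e (some j) i + 2 * hS e) ≤
      ∏ i ∈ univ.erase j', (((wS e : ℝ) + 2 * hS e) * (if i = j then 2 else 1)) := by
    refine prod_le_prod (fun i _ => by positivity) (fun i _ => ?_)
    rw [E06_two]
    by_cases h : i = j
    · rw [if_pos h]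
      nlinarith
    · rw [if_neg h]
      linarith
  have h2 : ∏ i ∈ univ.erase j', (((wS e : ℝ) + 2 * hS e) * (if i = j then 2 else 1)) =
      ((wS e : ℝ) + 2 * hS e) ^ (d - 1) * (if j ∈ univ.erase j' then 2 else 1) := by
    rw [prod_mul_distrib, prod_const, card_erase_of_mem (mem_univ _), card_univ, Fintype.card_fin,
      prod_ite_eq']
  have h3 : (if j ∈ univ.erase j' then (2 : ℝ) else 1) ≤ 2 := by
    split_ifs <;> norm_num
  have h4 : (0 : ℝ) ≤ ((wS e : ℝ) + 2 * hS e) ^ (d - 1) := by positivity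
  have h5 := mul_le_mul_of_nonneg_left h3 h4
  rw [h2] at h1
  linarith

/-- the number of points of the blocks -/
private theorem E06_vol {d : ℕ} (hd : 1 ≤ d) (e : ℕ) (j : Fin d) :
    (2 : ℝ) ^ d * ∏ i, (LS e (some j) i : ℝ) = 2 * (wS e : ℝ) * (wS e : ℝ) ^ (d - 1) := by
  have h1 : (2 : ℝ) ^ d * ∏ i, (LS e (some j) i : ℝ) = ∏ i : Fin d, (2 * (LS e (some j) i : ℝ)) := by
    rw [prod_mul_distrib, prod_const, card_univ, Fintype.card_fin]
  have h2 : ∀ i : Fin d, 2 * (LS e (some j) i : ℝ) = (wS e : ℝ) * (if i = j then 2 else 1) := by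
    intro i
    rw [← E06_two]
    unfold LS
    push_cast
    ring
  rw [h1, prod_congr rfl (fun i _ => h2 i), prod_mul_distrib, prod_const, card_univ, Fintype.card_fin,
    prod_ite_eq', if_pos (mem_univ _)]
  obtain ⟨n, rfl⟩ : ∃ n, d = n + 1 := ⟨d - 1, by omega⟩
  rw [Nat.add_sub_cancel, pow_succ]
  ring

/-- the final estimate -/
private theorem E06_num {d q e Cb n : ℕ} {P W M : ℝ} (hd : 200 ≤ d) (hq : (q : ℝ) + 2 ≤ d) (hn : (n : ℝ) ≤ P)
    (hP : (2 : ℝ) ^ d * P = 2 * (wS e : ℝ) * W) (hM : P / 2 ≤ M)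
    (hsm : (d : ℝ) ^ (Cb + 5) * ((2 : ℝ) ^ (5 * e)) ^ 2 ≤ 2 ^ d) (hW : 0 ≤ W) :
    ((q : ℝ) + 2) ^ n * Real.exp (d * (8 * W) / (d : ℝ) ^ (Cb + 8)) *
        Real.exp (-(2 ^ d / (d : ℝ) ^ Cb)) ^ (M / (100 * d * (wS e : ℝ))) ≤
      Real.exp (-(W / (d : ℝ) ^ (Cb + 2))) := by
  have hd' : (200 : ℝ) ≤ d := by exact_mod_cast hd
  have hd0 : (0 : ℝ) < d := by linarith
  have hw0 := E06_w_pos e
  have hD : 0 < (d : ℝ) ^ Cb := by positivity
  have h2d : (0 : ℝ) < 2 ^ d := by positivity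
  have hwe : (wS e : ℝ) = 2 * 2 ^ (5 * e) := by unfold wS; push_cast; ring
  have hone : (1 : ℝ) ≤ 2 ^ (5 * e) := one_le_pow₀ (by norm_num)
  -- the number of families
  have e1 : ((q : ℝ) + 2) ^ n ≤ Real.exp (P * d) := by
    have h1 : (q : ℝ) + 2 ≤ Real.exp d := by
      have := Real.add_one_le_exp (d : ℝ)
      linarith
    calc ((q : ℝ) + 2) ^ n ≤ (Real.exp d) ^ n := pow_le_pow_left₀ (by positivity) h1 n
      _ = Real.exp (n * d) := by rw [← Real.exp_nat_mul]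
      _ ≤ _ := Real.exp_le_exp.2 (mul_le_mul_of_nonneg_right hn hd0.le)
  have e2 : P * d ≤ 4 * W / (d : ℝ) ^ (Cb + 4) := by
    rw [le_div_iff₀ (by positivity)]
    have h1 : (wS e : ℝ) * (d : ℝ) ^ (Cb + 5) ≤ 2 * 2 ^ d := by
      have h2 : (2 : ℝ) ^ (5 * e) ≤ ((2 : ℝ) ^ (5 * e)) ^ 2 := by nlinarith
      have h3 := mul_le_mul_of_nonneg_left h2 (by positivity : (0 : ℝ) ≤ (d : ℝ) ^ (Cb + 5))
      rw [hwe]
      nlinarith
    have h4 : (2 : ℝ) ^ d * (P * d * (d : ℝ) ^ (Cb + 4)) = 2 * W * ((wS e : ℝ) * (d : ℝ) ^ (Cb + 5)) := by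
      have : (2 : ℝ) ^ d * (P * d * (d : ℝ) ^ (Cb + 4)) = (2 ^ d * P) * ((d : ℝ) ^ (Cb + 4) * d) := by ring
      rw [this, hP, ← pow_succ]
      ring
    have h5 : (2 : ℝ) ^ d * (P * d * (d : ℝ) ^ (Cb + 4)) ≤ 2 ^ d * (4 * W) := by
      rw [h4]
      have := mul_le_mul_of_nonneg_left h1 (by positivity : (0 : ℝ) ≤ 2 * W)
      linarith
    exact le_of_mul_le_mul_left h5 h2d
  -- the bad blocks
  have e3 : 2 ^ d / (d : ℝ) ^ Cb * (M / (100 * d * (wS e : ℝ))) ≥ W / (100 * (d : ℝ) ^ (Cb + 1)) := by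
    have h1 : 2 ^ d / (d : ℝ) ^ Cb * (M / (100 * d * (wS e : ℝ))) ≥
        2 ^ d / (d : ℝ) ^ Cb * ((P / 2) / (100 * d * (wS e : ℝ))) := by
      have := div_le_div_of_nonneg_right hM (by positivity : (0 : ℝ) ≤ 100 * d * (wS e : ℝ))
      exact mul_le_mul_of_nonneg_left this (by positivity)
    have h2 : 2 ^ d / (d : ℝ) ^ Cb * ((P / 2) / (100 * d * (wS e : ℝ))) = W / (100 * (d : ℝ) ^ (Cb + 1)) := by
      have h3 : 2 ^ d / (d : ℝ) ^ Cb * ((P / 2) / (100 * d * (wS e : ℝ))) =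
          (2 ^ d * P) / ((d : ℝ) ^ Cb * (2 * (100 * d * (wS e : ℝ)))) := by
        field_simp
      rw [h3, hP, pow_succ]
      field_simp
    rw [← h2]
    exact h1
  have e4 : Real.exp (-(2 ^ d / (d : ℝ) ^ Cb)) ^ (M / (100 * d * (wS e : ℝ))) ≤
      Real.exp (-(W / (100 * (d : ℝ) ^ (Cb + 1)))) := by
    rw [← Real.exp_mul]
    refine Real.exp_le_exp.2 ?_
    rw [neg_mul]
    exact neg_le_neg e3
  -- the sum
  have e5 : 4 * W / (d : ℝ) ^ (Cb + 4) + d * (8 * W) / (d : ℝ) ^ (Cb + 8) + -(W / (100 * (d : ℝ) ^ (Cb + 1))) ≤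
      -(W / (d : ℝ) ^ (Cb + 2)) := by
    have hu : 0 ≤ W / ((d : ℝ) ^ Cb * d) := by positivity
    have a1 : 4 * W / (d : ℝ) ^ (Cb + 4) = 4 / (d : ℝ) ^ 3 * (W / ((d : ℝ) ^ Cb * d)) := by
      rw [pow_add]; field_simp
    have a2 : d * (8 * W) / (d : ℝ) ^ (Cb + 8) = 8 / (d : ℝ) ^ 6 * (W / ((d : ℝ) ^ Cb * d)) := by
      rw [pow_add]; field_simp
    have a3 : W / (100 * (d : ℝ) ^ (Cb + 1)) = 1 / 100 * (W / ((d : ℝ) ^ Cb * d)) := by
      rw [pow_succ]; field_simp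
    have a4 : W / (d : ℝ) ^ (Cb + 2) = 1 / d * (W / ((d : ℝ) ^ Cb * d)) := by
      rw [pow_add]; field_simp
    have b1 : 4 / (d : ℝ) ^ 3 ≤ 1 / 1000 := by
      rw [div_le_div_iff₀ (by positivity) (by norm_num)]
      have : (200 : ℝ) ^ 3 ≤ (d : ℝ) ^ 3 := pow_le_pow_left₀ (by norm_num) hd' 3
      linarith
    have b2 : 8 / (d : ℝ) ^ 6 ≤ 1 / 1000 := by
      rw [div_le_div_iff₀ (by positivity) (by norm_num)]
      have : (200 : ℝ) ^ 6 ≤ (d : ℝ) ^ 6 := pow_le_pow_left₀ (by norm_num) hd' 6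
      linarith
    have b3 : 1 / (d : ℝ) ≤ 1 / 200 := one_div_le_one_div_of_le (by norm_num) hd'
    have c1 := mul_le_mul_of_nonneg_right b1 hu
    have c2 := mul_le_mul_of_nonneg_right b2 hu
    have c3 := mul_le_mul_of_nonneg_right b3 hu
    rw [a1, a2, a3, a4]
    linarith
  have e6 : ((q : ℝ) + 2) ^ n ≤ Real.exp (4 * W / (d : ℝ) ^ (Cb + 4)) := e1.trans (Real.exp_le_exp.2 e2)
  calc ((q : ℝ) + 2) ^ n * Real.exp (d * (8 * W) / (d : ℝ) ^ (Cb + 8)) *
        Real.exp (-(2 ^ d / (d : ℝ) ^ Cb)) ^ (M / (100 * d * (wS e : ℝ)))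
      ≤ Real.exp (4 * W / (d : ℝ) ^ (Cb + 4)) * Real.exp (d * (8 * W) / (d : ℝ) ^ (Cb + 8)) *
        Real.exp (-(W / (100 * (d : ℝ) ^ (Cb + 1)))) := by
        have hx : 0 ≤ Real.exp (-(2 ^ d / (d : ℝ) ^ Cb)) ^ (M / (100 * d * (wS e : ℝ))) :=
          Real.rpow_nonneg (Real.exp_pos _).le _
        exact mul_le_mul (mul_le_mul_of_nonneg_right e6 (Real.exp_pos _).le) e4 hx (by positivity)
    _ = Real.exp (4 * W / (d : ℝ) ^ (Cb + 4) + d * (8 * W) / (d : ℝ) ^ (Cb + 8) +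
        -(W / (100 * (d : ℝ) ^ (Cb + 1)))) := by rw [← Real.exp_add, ← Real.exp_add]
    _ ≤ _ := Real.exp_le_exp.2 e5

theorem impure_dbl : ∃ Cb C₀ : ℕ, ∀ C : ℕ, C₀ ≤ C → ∃ d₀ : ℕ, ∀ d q : ℕ, d₀ ≤ d → Rg d q → ∀ j : Fin d,
    N2 (WG (fun _ : Fin d => false) (LS (eC C d) (some j)) (hS (eC C d)))
        (Wgl (fun _ : Fin d => false) (LS (eC C d) (some j)) (hS (eC C d)))
        (fun f : WV (fun _ : Fin d => false) (LS (eC C d) (some j)) (hS (eC C d)) → Fin q =>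
          ¬ WPU (LS (eC C d) (some j)) (hS (eC C d)) f) ≤
      N2 (WG (fun _ : Fin d => false) (LS (eC C d) (some j)) (hS (eC C d)))
        (Wgl (fun _ : Fin d => false) (LS (eC C d) (some j)) (hS (eC C d)))
        (fun _ : WV (fun _ : Fin d => false) (LS (eC C d) (some j)) (hS (eC C d)) → Fin q => True) *
        Real.exp (-((wS (eC C d) : ℝ) ^ (d - 1) / (d : ℝ) ^ Cb)) := by
  classical
  obtain ⟨Cb, hdb⟩ := dbl_bad
  obtain ⟨C₁, d₁, hdb⟩ := hdb (Cb + 8)
  refine ⟨Cb + 2, max C₁ 2, fun C hC => ?_⟩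
  have hC1 : C₁ ≤ C := (le_max_left _ _).trans hC
  have hC2 : 2 ≤ C := (le_max_right _ _).trans hC
  obtain ⟨d₂, hd2⟩ := eC_small C (Cb + 5)
  obtain ⟨d₃, hd3⟩ := w_pow C hC2
  obtain ⟨d₄, hd4⟩ := L_prod C hC2
  refine ⟨max (max d₁ d₂) (max (max d₃ d₄) 200), fun d q hd hR j => ?_⟩
  have hdd1 : d₁ ≤ d := by omega
  have hdd2 : d₂ ≤ d := by omega
  have hdd3 : d₃ ≤ d := by omega
  have hdd4 : d₄ ≤ d := by omega
  have hd200 : 200 ≤ d := by omega
  obtain ⟨hh2, hsm⟩ := hd2 d hdd2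
  have hw := hd3 d hdd3
  have hLp := hd4 d hdd4 (some j)
  have hec := eC_le (C := C) (d := d) (by omega) (by omega)
  set e := eC C d with he
  clear_value e
  have hd' : (200 : ℝ) ≤ d := by exact_mod_cast hd200
  have h2e : (d : ℝ) ^ C₁ ≤ 2 ^ e := (pow_le_pow_right₀ (by linarith) hC1).trans hec.1
  have h2e' : (2 : ℝ) ≤ 2 ^ e := by
    have h1 : (d : ℝ) ^ 1 ≤ (d : ℝ) ^ C := pow_le_pow_right₀ (by linarith) (by omega)
    rw [pow_one] at h1
    linarith [hec.1]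
  have he1 : 1 ≤ e := by
    by_contra h0
    have : e = 0 := by omega
    rw [this] at h2e'
    norm_num at h2e'
  have hhr : ((hS e : ℕ) : ℝ) = 2 ^ e * 2 ^ e := by
    unfold hS
    push_cast
    rw [← mul_pow]
    norm_num
  have hq : (q : ℝ) + 2 ≤ d := by
    have h1 : 1000 * q ≤ 2 * d := hR.2.1
    have h2 : q + 2 ≤ d := by omega
    exact_mod_cast h2
  have hr5 : ∀ i, 5 * e ≤ rS e (some j) i := by
    intro i
    unfold rS
    split_ifs <;> omega
  have key := hdb d q hdd1 hR e (hS e) (hS e) h2e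
    (by rw [hhr]; exact mul_le_mul_of_nonneg_left h2e (by positivity)) hh2
    (by unfold hS; exact Nat.even_pow.2 ⟨by decide, by omega⟩) le_rfl (rS e (some j))
    (fun i => by
      unfold hS
      rw [show (4 : ℕ) = 2 ^ 2 by norm_num, ← pow_mul]
      exact Nat.pow_le_pow_right (by norm_num) ((by omega : 2 * e ≤ 5 * e).trans (hr5 i)))
    (8 * (wS e : ℝ) ^ (d - 1)) (fun j' => E06_face e j j' hw)
  have hL2 : ∀ i, 2 ≤ LS e (some j) i := by
    intro i
    unfold LS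
    calc 2 = 2 ^ 1 := rfl
      _ ≤ 2 ^ rS e (some j) i := Nat.pow_le_pow_right (by norm_num) ((by omega : 1 ≤ 5 * e).trans (hr5 i))
  have hLw : ∀ i, (LS e (some j) i : ℝ) ≤ wS e := by
    intro i
    have h1 := E06_two e j i
    have h2 : (LS e (some j) i : ℝ) = (2 : ℝ) ^ rS e (some j) i := by unfold LS; push_cast; ring
    rw [← h2] at h1
    have hw0 := E06_w_pos e
    by_cases h : i = j
    · rw [if_pos h] at h1
      linarith
    · rw [if_neg h] at h1
      linarith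
  have hZ0 : 0 ≤ N2 (WG (fun _ : Fin d => false) (LS e (some j)) (hS e))
        (Wgl (fun _ : Fin d => false) (LS e (some j)) (hS e))
        (WE (q := q) (fun _ => false) (LS e (some j)) (hS e) fun _ => none) *
          Real.exp (d * (8 * (wS e : ℝ) ^ (d - 1)) / (d : ℝ) ^ (Cb + 8)) :=
    mul_nonneg (E06_nn _ _ _) (Real.exp_pos _).le
  have hmb := many_bad (q := q) (LS e (some j)) (hS e)
    ((∏ i, ((LS e (some j) i : ℝ) - 1)) / (100 * d * (wS e : ℝ))) _
    (Real.exp (-(2 ^ d / (d : ℝ) ^ Cb))) hZ0 (Real.exp_pos _) (by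
      rw [Real.exp_le_one_iff, neg_nonpos]
      positivity) key
  have hmono := E06_mono (WG (fun _ : Fin d => false) (LS e (some j)) (hS e))
    (Wgl (fun _ : Fin d => false) (LS e (some j)) (hS e))
    (fun f : WV (fun _ : Fin d => false) (LS e (some j)) (hS e) → Fin q => ¬ WPU (LS e (some j)) (hS e) f) _
    (fun f hf => not_WPU hR (by omega) (LS e (some j)) (hS e) hL2 (wS e) hLw f hf)
  have hT : (WE (q := q) (fun _ => false) (LS e (some j)) (hS e) fun _ => none) =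
      (fun _ : WV (fun _ : Fin d => false) (LS e (some j)) (hS e) → Fin q => True) := by
    funext f
    refine propext ⟨fun _ => trivial, fun _ t _ τ h => ?_⟩
    exact absurd h (by simp)
  rw [hT] at hmb
  have hn : ((∏ i : Fin d, nbk false (LS e (some j) i) : ℕ) : ℝ) ≤ ∏ i, (LS e (some j) i : ℝ) := by
    push_cast
    refine prod_le_prod (fun i _ => Nat.cast_nonneg _) (fun i _ => ?_)
    have : nbk false (LS e (some j) i) ≤ LS e (some j) i := by
      unfold nbk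
      simp
    exact_mod_cast this
  have hnum := E06_num (Cb := Cb) hd200 hq hn (E06_vol (by omega) e j) hLp hsm (by positivity)
  refine (hmono.trans hmb).trans ?_
  have hN := E06_nn (WG (fun _ : Fin d => false) (LS e (some j)) (hS e))
    (Wgl (fun _ : Fin d => false) (LS e (some j)) (hS e))
    (fun _ : WV (fun _ : Fin d => false) (LS e (some j)) (hS e) → Fin q => True)
  calc _ = N2 (WG (fun _ : Fin d => false) (LS e (some j)) (hS e))
        (Wgl (fun _ : Fin d => false) (LS e (some j)) (hS e))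
        (fun _ : WV (fun _ : Fin d => false) (LS e (some j)) (hS e) → Fin q => True) *
        (((q : ℝ) + 2) ^ (∏ i : Fin d, nbk false (LS e (some j) i)) *
          Real.exp (d * (8 * (wS e : ℝ) ^ (d - 1)) / (d : ℝ) ^ (Cb + 8)) *
          Real.exp (-(2 ^ d / (d : ℝ) ^ Cb)) ^ ((∏ i, ((LS e (some j) i : ℝ) - 1)) / (100 * d * (wS e : ℝ)))) := by
        ring
    _ ≤ _ := mul_le_mul_of_nonneg_left hnum hN

end Pool.Agent.LC

end

/-! ### from `Lib_MP_2c424f_lc7.E07` -/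

section

/-!
# LC7 E07: several impure dominoes in the big box

Let `Cb` be the constant of `impure_dbl`; the constant of the theorem is `Cb + 1`.  `schwarz (Cb + 4)` for the boxes `a k = aS e (u k)`, `m k i = lm false (LS e (some (j k)) i) (hS e)`,
`E k = ¬ WPU`; `DG (m k)` is `WG (fun _ => false) ..` (`rfl`), `Dgl` and `Wgl` are equivalent; all positions and sides are even; distances from the boundary
of the big box: `aS ≥ 2 h + 2`, `aS + m + 2 h + 2 ≤ NS` if `(u j).val + 1 < 2^K`; `hfar` is the mutual distance; `h d^C ≤ m k i` as `L = 2^(5e) ≥ 4^e 2^e ≥ h d^C`;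
`Ym = 8 d w^(d-1)`.  So `cG(all impure)² ∏ N2 ≤ cG² exp (|I| 8 d w^(d-1)/d^(Cb+4)) ∏ N2 exp (-w^(d-1)/d^Cb)`; divide by `∏ N2 > 0` (`N2_pos`), take the root:
exponent `-|I| w^(d-1) (1/d^Cb - 8/d^(Cb+3))/2 ≤ -|I| w^(d-1)/d^(Cb+1)`.
-/

set_option autoImplicit false

open Finset Filter

namespace Pool.Agent.LC

open Pool.Agent.LO Pool.Agent.LIN Pool.Agent.THR Pool.Agent.COR

private theorem e07_N2 {d q : ℕ} (L : Fin d → ℕ) (s : ℕ) (P : (WV (fun _ : Fin d => false) L s → Fin q) → Prop) :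
    N2 (DG fun i => lm false (L i) s) (Dgl fun i => lm false (L i) s) P =
      N2 (WG (fun _ : Fin d => false) L s) (Wgl (fun _ : Fin d => false) L s) P := by
  have h : Dgl (fun i => lm false (L i) s) = Wgl (fun _ : Fin d => false) L s := by
    funext x
    unfold Dgl Wgl
    simp
  rw [← h]
  rfl

private theorem e07_pos {d q : ℕ} (hq : 2 ≤ q) (L : Fin d → ℕ) (s : ℕ) (hL : ∀ i, 1 ≤ L i) :
    0 < N2 (WG (fun _ : Fin d => false) L s) (Wgl (fun _ : Fin d => false) L s)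
      (fun _ : WV (fun _ : Fin d => false) L s → Fin q => True) := by
  have h := N2_pos (q := q) hq (fun _ : Fin d => false) L s hL
  have h2 : (WE (q := q) (fun _ : Fin d => false) L s fun _ => none) = fun _ => True := by
    funext f
    unfold WE
    simp
  rwa [h2] at h

private theorem e07_LS1 (e : ℕ) {d : ℕ} (j : Option (Fin d)) (i : Fin d) : 2 ^ (5 * e) ≤ LS e j i := by
  unfold LS
  apply Nat.pow_le_pow_right (by norm_num)
  unfold rS
  split_ifs <;> omega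

private theorem e07_lm (e : ℕ) {d : ℕ} (j : Option (Fin d)) (i : Fin d) :
    lm false (LS e j i) (hS e) + 2 = 2 * LS e j i + 2 * hS e := by
  have h1 := e07_LS1 e j i
  have h2 : 1 ≤ 2 ^ (5 * e) := Nat.one_le_pow _ _ (by norm_num)
  unfold lm
  simp
  omega

private theorem e07_ne (e : ℕ) {d : ℕ} (j i : Fin d) (h : i ≠ j) : 2 * LS e (some j) i = wS e := by
  unfold LS rS wS
  rw [if_neg]
  simpa using h.symm

private theorem e07_eq (e : ℕ) {d : ℕ} (j : Fin d) : 2 * LS e (some j) j = 2 * wS e := by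
  unfold LS rS wS
  rw [if_pos rfl, pow_succ]
  ring

private theorem e07_even (e : ℕ) {d : ℕ} (j : Option (Fin d)) (i : Fin d) : Even (lm false (LS e j i) (hS e)) := by
  have h := e07_lm e j i
  rw [Nat.even_iff]
  omega

private theorem e07_aeven (e : ℕ) {d K : ℕ} (t : Blk d K) (i : Fin d) : Even (aS e t i) := by
  unfold aS wS
  rw [mul_assoc, show 2 * hS e + 2 + 2 * (2 ^ (5 * e) * (t i).val) = 2 * (hS e + 1 + 2 ^ (5 * e) * (t i).val) by ring]
  exact even_two_mul _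

private theorem e07_pos2 (e : ℕ) {d K : ℕ} (t : Blk d K) (j : Fin d) (hj : (t j).val + 1 < 2 ^ K) (i : Fin d) :
    2 * hS e + 2 ≤ aS e t i ∧ aS e t i + lm false (LS e (some j) i) (hS e) + 2 * hS e + 2 ≤ NS e K := by
  constructor
  · unfold aS
    exact Nat.le_add_right _ _
  · have h1 := e07_lm e (some j) i
    unfold aS NS
    by_cases hij : i = j
    · subst hij
      rw [e07_eq] at h1
      have h2 : wS e * ((t i).val + 2) ≤ wS e * 2 ^ K := Nat.mul_le_mul_left _ (by omega)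
      have h3 : wS e * ((t i).val + 2) = wS e * (t i).val + 2 * wS e := by ring
      omega
    · rw [e07_ne e j i hij] at h1
      have h2 : wS e * ((t i).val + 1) ≤ wS e * 2 ^ K := Nat.mul_le_mul_left _ (ZMod.val_lt (t i))
      have h3 : wS e * ((t i).val + 1) = wS e * (t i).val + wS e := by ring
      omega

private theorem e07_big (C C1 d e : ℕ) (hd : 1 ≤ d) (hC : C1 ≤ C) (h : (d : ℝ) ^ C ≤ 2 ^ e) (j : Option (Fin d)) (i : Fin d) :
    (d : ℝ) ^ C1 ≤ 2 ^ e ∧ (2 : ℝ) ^ e * (d : ℝ) ^ C1 ≤ hS e ∧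
      (hS e : ℝ) * (d : ℝ) ^ C1 ≤ (lm false (LS e j i) (hS e) : ℕ) := by
  have h0 : (d : ℝ) ^ C1 ≤ 2 ^ e := le_trans (pow_le_pow_right₀ (by exact_mod_cast hd) hC) h
  have hE : (1 : ℝ) ≤ 2 ^ e := one_le_pow₀ (by norm_num)
  have hh : (hS e : ℝ) = (2 : ℝ) ^ e * 2 ^ e := by
    unfold hS
    push_cast
    rw [← mul_pow]
    norm_num
  refine ⟨h0, ?_, ?_⟩
  · rw [hh]
    exact mul_le_mul_of_nonneg_left h0 (by positivity)
  · have h1 := e07_LS1 e j i
    have h2 := e07_lm e j i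
    have h3 : 1 ≤ hS e := Nat.one_le_pow _ _ (by norm_num)
    have h4 : 2 ^ (5 * e) ≤ lm false (LS e j i) (hS e) := by omega
    have h5 : (2 : ℝ) ^ (5 * e) ≤ (lm false (LS e j i) (hS e) : ℕ) := by exact_mod_cast h4
    refine le_trans ?_ h5
    calc (hS e : ℝ) * (d : ℝ) ^ C1 ≤ (2 : ℝ) ^ e * 2 ^ e * 2 ^ e := by
          rw [hh]
          exact mul_le_mul_of_nonneg_left h0 (by positivity)
      _ = 2 ^ (3 * e) := by rw [← pow_add, ← pow_add]; congr 1; ring
      _ ≤ 2 ^ (5 * e) := pow_le_pow_right₀ (by norm_num) (by omega)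

private theorem e07_Ym (e : ℕ) {d : ℕ} (hw : ((wS e : ℝ) + 2 * hS e) ^ (d - 1) ≤ 2 * (wS e : ℝ) ^ (d - 1)) (j : Fin d) :
    2 * ∑ i, ∏ i' ∈ univ.erase i, (((lm false (LS e (some j) i') (hS e) : ℕ) : ℝ) + 1) ≤ 8 * d * (wS e : ℝ) ^ (d - 1) := by
  have h1 : ∀ i' : Fin d, ((lm false (LS e (some j) i') (hS e) : ℕ) : ℝ) + 1 ≤
      ((wS e : ℝ) + 2 * hS e) * (if i' = j then 2 else 1) := by
    intro i'
    have h2 := e07_lm e (some j) i'
    by_cases hij : i' = j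
    · rw [if_pos hij]
      subst hij
      rw [e07_eq] at h2
      have h3 : lm false (LS e (some i') i') (hS e) + 1 ≤ (wS e + 2 * hS e) * 2 := by omega
      exact_mod_cast h3
    · rw [if_neg hij]
      rw [e07_ne e j i' hij] at h2
      have h3 : lm false (LS e (some j) i') (hS e) + 1 ≤ (wS e + 2 * hS e) * 1 := by omega
      exact_mod_cast h3
  have h4 : ∀ i : Fin d, ∏ i' ∈ univ.erase i, (((lm false (LS e (some j) i') (hS e) : ℕ) : ℝ) + 1) ≤ 4 * (wS e : ℝ) ^ (d - 1) := by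
    intro i
    have h5 : ∏ i' ∈ univ.erase i, (if i' = j then (2 : ℝ) else 1) ≤ 2 := by
      rw [Finset.prod_ite_eq']
      split_ifs <;> norm_num
    calc ∏ i' ∈ univ.erase i, (((lm false (LS e (some j) i') (hS e) : ℕ) : ℝ) + 1) ≤
          ∏ i' ∈ univ.erase i, (((wS e : ℝ) + 2 * hS e) * (if i' = j then 2 else 1)) :=
          prod_le_prod (fun i' _ => by positivity) fun i' _ => h1 i'
      _ = ((wS e : ℝ) + 2 * hS e) ^ (d - 1) * ∏ i' ∈ univ.erase i, (if i' = j then (2 : ℝ) else 1) := by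
        rw [prod_mul_distrib, prod_const, card_erase_of_mem (mem_univ _), card_univ, Fintype.card_fin]
      _ ≤ 2 * (wS e : ℝ) ^ (d - 1) * 2 := by
        apply mul_le_mul hw h5
        · exact prod_nonneg fun i' _ => by split_ifs <;> norm_num
        · positivity
      _ = 4 * (wS e : ℝ) ^ (d - 1) := by ring
  calc 2 * ∑ i, ∏ i' ∈ univ.erase i, (((lm false (LS e (some j) i') (hS e) : ℕ) : ℝ) + 1) ≤
        2 * ∑ _i : Fin d, 4 * (wS e : ℝ) ^ (d - 1) :=
        mul_le_mul_of_nonneg_left (sum_le_sum fun i _ => h4 i) (by norm_num)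
    _ = 8 * d * (wS e : ℝ) ^ (d - 1) := by
      rw [sum_const, card_univ, Fintype.card_fin, nsmul_eq_mul]
      ring

private theorem e07_num {d : ℕ} (hd : 4 ≤ d) (Cb n : ℕ) (W : ℝ) (hW : 0 ≤ W) :
    (n : ℝ) * (8 * d * W) / (d : ℝ) ^ (Cb + 4) + -(n * (W / (d : ℝ) ^ Cb)) ≤ 2 * (-(n * (W / (d : ℝ) ^ (Cb + 1)))) := by
  have hd4 : (4 : ℝ) ≤ d := by exact_mod_cast hd
  have hdp : (0 : ℝ) < d := by linarith
  have hD : (0 : ℝ) < (d : ℝ) ^ Cb := by positivity
  have e1 : (n : ℝ) * (8 * d * W) / (d : ℝ) ^ (Cb + 4) = (n * W / (d : ℝ) ^ Cb) * (8 / (d : ℝ) ^ 3) := by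
    field_simp
    ring
  have e2 : (n : ℝ) * (W / (d : ℝ) ^ Cb) = (n * W / (d : ℝ) ^ Cb) * 1 := by ring
  have e3 : (n : ℝ) * (W / (d : ℝ) ^ (Cb + 1)) = (n * W / (d : ℝ) ^ Cb) * (1 / d) := by
    rw [pow_succ]
    field_simp
  rw [e1, e2, e3]
  have hX : (0 : ℝ) ≤ n * W / (d : ℝ) ^ Cb := by positivity
  have h1 : 8 / (d : ℝ) ^ 3 ≤ 1 / 2 := by
    rw [div_le_div_iff₀ (by positivity) (by norm_num)]
    nlinarith [pow_le_pow_left₀ (by norm_num) hd4 3]
  have h2 : 1 / (d : ℝ) ≤ 1 / 4 := one_div_le_one_div_of_le (by norm_num) hd4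
  nlinarith

theorem far_dominoes : ∃ Cb C : ℕ, ∃ d₀ : ℕ, 2 ≤ C ∧ ∀ d q : ℕ, d₀ ≤ d → Rg d q → ∀ (K : ℕ) (ι : Type) [DecidableEq ι]
    (I : Finset ι) (u : ι → Blk d K) (j : ι → Fin d),
    (∀ k ∈ I, ((u k) (j k)).val + 1 < 2 ^ K) →
    (∀ k ∈ I, ∀ k' ∈ I, k ≠ k' → ∃ i,
      aS (eC C d) (u k) i + lm false (LS (eC C d) (some (j k)) i) (hS (eC C d)) + 2 * hS (eC C d) + 4 ≤ aS (eC C d) (u k') i ∨
      aS (eC C d) (u k') i + lm false (LS (eC C d) (some (j k')) i) (hS (eC C d)) + 2 * hS (eC C d) + 4 ≤ aS (eC C d) (u k) i) →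
    cG (bG d (NS (eC C d) K)) (fun f : BxV d (NS (eC C d) K) → Fin q =>
        ∀ k ∈ I, ¬ WPU (LS (eC C d) (some (j k))) (hS (eC C d)) (fD (eC C d) (u k) (some (j k)) f)) ≤
      cG (bG d (NS (eC C d) K)) (fun _ : BxV d (NS (eC C d) K) → Fin q => True) *
        Real.exp (-(I.card * ((wS (eC C d) : ℝ) ^ (d - 1) / (d : ℝ) ^ Cb))) := by
  obtain ⟨Cb, C0, h0⟩ := impure_dbl
  obtain ⟨C1, d1, h1⟩ := schwarz (Cb + 4)
  obtain ⟨C, hCdef⟩ : ∃ C, C = max 2 (max C0 C1) := ⟨_, rfl⟩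
  have hC2 : 2 ≤ C := by omega
  have hC0 : C0 ≤ C := by omega
  have hC1 : C1 ≤ C := by omega
  obtain ⟨d0, hd0⟩ := h0 C hC0
  obtain ⟨d2, hd2⟩ := w_pow C hC2
  obtain ⟨d3, hd3⟩ := eC_small C 0
  refine ⟨Cb + 1, C, max 4 (max d0 (max d1 (max d2 d3))), hC2, ?_⟩
  intro d q hd hR K ι _ I u j hu hfar
  have hd4 : 4 ≤ d := by omega
  have hq : 2 ≤ q := by
    obtain ⟨⟨r, hr⟩, _, h3⟩ := hR
    omega
  obtain ⟨e, he⟩ : ∃ e, e = eC C d := ⟨_, rfl⟩
  have himp := hd0 d q (by omega) hR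
  have hwp := hd2 d (by omega)
  have hsm := (hd3 d (by omega)).1
  have hle := (eC_le (C := C) (d := d) (by omega) (by omega)).1
  rw [← he] at hfar himp hwp hsm hle ⊢
  have hnum := e07_big C C1 d e (by omega) hC1 hle
  have hS1 := h1 d q (by omega) hR e (hS e) (hnum none ⟨0, by omega⟩).1 (hnum none ⟨0, by omega⟩).2.1 hsm (NS e K) ι I
    (fun k => aS e (u k)) (fun k i => lm false (LS e (some (j k)) i) (hS e)) (8 * d * (wS e : ℝ) ^ (d - 1))
    (fun k _ i => e07_aeven e (u k) i) (fun k _ i => e07_even e (some (j k)) i)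
    (fun k hk i => e07_pos2 e (u k) (j k) (hu k hk) i) hfar
    (fun k _ i => (hnum (some (j k)) i).2.2) (fun k _ => e07_Ym e hwp (j k))
    (fun k f => ¬ WPU (LS e (some (j k))) (hS e) f)
  have hS2 : cG (bG d (NS e K)) (fun f : BxV d (NS e K) → Fin q =>
        ∀ k ∈ I, ¬ WPU (LS e (some (j k))) (hS e) (fD e (u k) (some (j k)) f)) ^ 2 *
      ∏ k ∈ I, N2 (WG (fun _ : Fin d => false) (LS e (some (j k))) (hS e)) (Wgl (fun _ : Fin d => false) (LS e (some (j k))) (hS e))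
        (fun _ : WV (fun _ : Fin d => false) (LS e (some (j k))) (hS e) → Fin q => True) ≤
      cG (bG d (NS e K)) (fun _ : BxV d (NS e K) → Fin q => True) ^ 2 *
        Real.exp (I.card * (8 * d * (wS e : ℝ) ^ (d - 1)) / (d : ℝ) ^ (Cb + 4)) *
      ∏ k ∈ I, N2 (WG (fun _ : Fin d => false) (LS e (some (j k))) (hS e)) (Wgl (fun _ : Fin d => false) (LS e (some (j k))) (hS e))
        (fun f : WV (fun _ : Fin d => false) (LS e (some (j k))) (hS e) → Fin q => ¬ WPU (LS e (some (j k))) (hS e) f) := by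
    have e1 := prod_congr (s₁ := I) rfl fun k _ => e07_N2 (q := q) (LS e (some (j k))) (hS e) fun _ => True
    have e2 := prod_congr (s₁ := I) rfl fun k _ => e07_N2 (q := q) (LS e (some (j k))) (hS e)
      fun f => ¬ WPU (LS e (some (j k))) (hS e) f
    rw [← e1, ← e2]
    exact hS1
  obtain ⟨NT, hNT⟩ : ∃ NT : ι → ℝ, NT = fun k => N2 (WG (fun _ : Fin d => false) (LS e (some (j k))) (hS e))
      (Wgl (fun _ : Fin d => false) (LS e (some (j k))) (hS e))
      (fun _ : WV (fun _ : Fin d => false) (LS e (some (j k))) (hS e) → Fin q => True) := ⟨_, rfl⟩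
  have hP : 0 < ∏ k ∈ I, NT k := by
    rw [hNT]
    exact prod_pos fun k _ => e07_pos hq _ _ fun i => le_trans (Nat.one_le_pow _ _ (by norm_num)) (e07_LS1 e (some (j k)) i)
  have hB : ∏ k ∈ I, N2 (WG (fun _ : Fin d => false) (LS e (some (j k))) (hS e)) (Wgl (fun _ : Fin d => false) (LS e (some (j k))) (hS e))
        (fun f : WV (fun _ : Fin d => false) (LS e (some (j k))) (hS e) → Fin q => ¬ WPU (LS e (some (j k))) (hS e) f) ≤
      (∏ k ∈ I, NT k) * Real.exp (-(I.card * ((wS e : ℝ) ^ (d - 1) / (d : ℝ) ^ Cb))) := by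
    have e3 : Real.exp (-(I.card * ((wS e : ℝ) ^ (d - 1) / (d : ℝ) ^ Cb))) =
        ∏ _k ∈ I, Real.exp (-((wS e : ℝ) ^ (d - 1) / (d : ℝ) ^ Cb)) := by
      rw [prod_const, ← Real.exp_nat_mul]
      congr 1
      ring
    rw [e3, ← prod_mul_distrib]
    refine prod_le_prod (fun k _ => ?_) (fun k _ => ?_)
    · unfold N2
      exact Nat.cast_nonneg _
    · rw [hNT]
      exact himp (j k)
  rw [show (∏ k ∈ I, N2 (WG (fun _ : Fin d => false) (LS e (some (j k))) (hS e)) (Wgl (fun _ : Fin d => false) (LS e (some (j k))) (hS e))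
        (fun _ : WV (fun _ : Fin d => false) (LS e (some (j k))) (hS e) → Fin q => True)) = ∏ k ∈ I, NT k by rw [hNT]] at hS2
  obtain ⟨X, hX⟩ : ∃ X, X = cG (bG d (NS e K)) (fun f : BxV d (NS e K) → Fin q =>
        ∀ k ∈ I, ¬ WPU (LS e (some (j k))) (hS e) (fD e (u k) (some (j k)) f)) := ⟨_, rfl⟩
  obtain ⟨T, hT⟩ : ∃ T, T = cG (bG d (NS e K)) (fun _ : BxV d (NS e K) → Fin q => True) := ⟨_, rfl⟩
  rw [← hX, ← hT] at hS2
  rw [← hX, ← hT]
  have hT0 : 0 ≤ T := by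
    rw [hT]
    unfold cG
    exact Nat.cast_nonneg _
  have hmain : X ^ 2 ≤ (T * Real.exp (-(I.card * ((wS e : ℝ) ^ (d - 1) / (d : ℝ) ^ (Cb + 1))))) ^ 2 := by
    have h5 : X ^ 2 * (∏ k ∈ I, NT k) ≤ T ^ 2 * Real.exp (I.card * (8 * d * (wS e : ℝ) ^ (d - 1)) / (d : ℝ) ^ (Cb + 4)) *
        ((∏ k ∈ I, NT k) * Real.exp (-(I.card * ((wS e : ℝ) ^ (d - 1) / (d : ℝ) ^ Cb)))) :=
      le_trans hS2 (mul_le_mul_of_nonneg_left hB (by positivity))
    have h6 : X ^ 2 ≤ T ^ 2 * Real.exp (I.card * (8 * d * (wS e : ℝ) ^ (d - 1)) / (d : ℝ) ^ (Cb + 4)) *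
        Real.exp (-(I.card * ((wS e : ℝ) ^ (d - 1) / (d : ℝ) ^ Cb))) := by
      refine le_of_mul_le_mul_right ?_ hP
      refine le_trans h5 (le_of_eq ?_)
      ring
    refine le_trans h6 ?_
    rw [mul_pow, ← Real.exp_nat_mul, mul_assoc, ← Real.exp_add]
    refine mul_le_mul_of_nonneg_left (Real.exp_le_exp.2 ?_) (by positivity)
    have h7 := e07_num hd4 Cb I.card ((wS e : ℝ) ^ (d - 1)) (by positivity)
    push_cast
    exact h7
  have hX0 : 0 ≤ X := by
    rw [hX]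
    unfold cG
    exact Nat.cast_nonneg _
  exact (pow_le_pow_iff_left₀ hX0 (by positivity) (by norm_num)).1 hmain

end Pool.Agent.LC

end

/-! ### from `Lib_MP_2c424f_lc7.E09` -/

section

/-!
# LC7 E09: bad large blocks are rare

As `COR.bad_rare` (`Lib_MP_2c424f_cor/F06.lean`): `Γ'` from `farD_sep`; for each `t ∈ Γ'` choose the direction and one of the two possibilities
(`(2 d)^|Γ'|` choices); `far_dominoes` with `ι` = subtype or `Blk d K`, `far_pos`.  The number is at most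
`Z exp (|Γ'| (log (2d) - w^(d-1)/d^Cb)) ≤ Z exp (-|Γ| w^(d-1)/(d^(Cb+1) 7^d))`; and `w^(d-1) ≥ (2 d^10)^(d-1)` is so large that
`ρ = exp (-(w^(d-1)/(d^(Cb+1) 7^d)))` satisfies `4^d ρ ≤ 1/(1000 d)`.
-/

set_option autoImplicit false

open Finset Filter

namespace Pool.Agent.LC

open Pool.Agent.LO Pool.Agent.LIN Pool.Agent.THR Pool.Agent.COR

private theorem E09_nxt {d K : ℕ} {u t : Blk d K} {j : Fin d} (h : LO.nxt u j = t) :
    u = Function.update t j (t j - 1) := by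
  funext i
  by_cases hi : i = j
  · subst hi
    have h1 := congrFun h i
    simp only [LO.nxt, Function.update_self] at h1
    rw [Function.update_self, ← h1, add_sub_cancel_right]
  · have h1 := congrFun h i
    rw [Function.update_of_ne hi, ← h1]
    simp only [LO.nxt, Function.update_of_ne hi]

private theorem E09_nxt' {d K : ℕ} (t : Blk d K) (j : Fin d) :
    LO.nxt (Function.update t j (t j - 1)) j = t := by
  funext i
  by_cases hi : i = j
  · subst hi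
    simp [LO.nxt]
  · simp [LO.nxt, Function.update_of_ne hi]

/-- the lower cell of the domino -/
private def E09_u {d K : ℕ} (t : Blk d K) (p : Fin d × Bool) : Blk d K :=
  if p.2 then t else Function.update t p.1 (t p.1 - 1)

private theorem E09_u_or {d K : ℕ} (t : Blk d K) (p : Fin d × Bool) :
    E09_u t p = t ∨ LO.nxt (E09_u t p) p.1 = t := by
  obtain ⟨j, b⟩ := p
  cases b with
  | true => left; rfl
  | false => right; exact E09_nxt' t j

private theorem E09_bad {d K q e : ℕ} {t : Blk d K} {f : BxV d (NS e K) → Fin q} (h : BADd e t f) :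
    ∃ p : Fin d × Bool, (E09_u t p p.1).val + 1 < 2 ^ K ∧
      ¬ WPU (LS e (some p.1)) (hS e) (fD e (E09_u t p) (some p.1) f) := by
  obtain ⟨u, j, h1, h2, h3⟩ := h
  rcases h2 with h2 | h2
  · subst h2
    exact ⟨(j, true), h1, h3⟩
  · have h4 := E09_nxt h2
    refine ⟨(j, false), ?_, ?_⟩
    · show ((Function.update t j (t j - 1)) j).val + 1 < 2 ^ K
      rw [← h4]
      exact h1
    · show ¬ WPU (LS e (some j)) (hS e) (fD e (Function.update t j (t j - 1)) (some j) f)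
      rw [← h4]
      exact h3

private theorem E09_card {α : Type} [Fintype α] (P : α → Prop) (i1 i2 : DecidablePred P) :
    ((@Finset.filter α P i1 univ).card : ℝ) = ((@Finset.filter α P i2 univ).card : ℝ) := by
  have e : i1 = i2 := Subsingleton.elim _ _
  subst e
  rfl

private theorem E09_union {W : Type} [Fintype W] [DecidableEq W] {q : ℕ} (G : SimpleGraph W) {C : Type} [Fintype C]
    (P : (W → Fin q) → Prop) (Q : C → (W → Fin q) → Prop)
    (h : ∀ f, P f → ∃ c, Q c f) (B : ℝ) (hB : ∀ c, cG G (Q c) ≤ B) :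
    cG G P ≤ Fintype.card C * B := by
  classical
  have h1 : (univ.filter fun f : W → Fin q => PrG G f ∧ P f) ⊆
      (univ : Finset C).biUnion fun c =>
        univ.filter fun f : W → Fin q => PrG G f ∧ Q c f := by
    intro f hf
    obtain ⟨h1, h2⟩ := (Finset.mem_filter.1 hf).2
    obtain ⟨c, hc⟩ := h f h2
    exact Finset.mem_biUnion.2 ⟨c, mem_univ _, mem_filter.2 ⟨mem_univ _, h1, hc⟩⟩
  have h2 := (Finset.card_le_card h1).trans Finset.card_biUnion_le
  have h3 : cG G P ≤ ∑ c : C, cG G (Q c) := by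
    have e1 : cG G P = ((univ.filter fun f : W → Fin q => PrG G f ∧ P f).card : ℝ) := E09_card _ _ _
    have e2 : ∀ c, cG G (Q c) =
        ((univ.filter fun f : W → Fin q => PrG G f ∧ Q c f).card : ℝ) := fun c => E09_card _ _ _
    rw [e1, Finset.sum_congr rfl fun c _ => e2 c]
    exact_mod_cast h2
  calc cG G P ≤ ∑ c : C, cG G (Q c) := h3
    _ ≤ ∑ _c : C, B := Finset.sum_le_sum fun c _ => hB c
    _ = Fintype.card C * B := by
      rw [Finset.sum_const, Finset.card_univ, nsmul_eq_mul]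

private theorem E09_zero {W : Type} [Fintype W] [DecidableEq W] {q : ℕ} (G : SimpleGraph W)
    (P : (W → Fin q) → Prop) (h : ∀ f, ¬ P f) : cG G P = 0 := by
  classical
  unfold cG
  rw [Nat.cast_eq_zero, Finset.card_eq_zero]
  ext f
  simp [h f]

private theorem E09_W {C d : ℕ} (hC : 2 ≤ C) (hd : 2 ≤ d) :
    (d : ℝ) ^ (10 * (d - 1)) ≤ (wS (eC C d) : ℝ) ^ (d - 1) := by
  have hd1 : (1 : ℝ) ≤ d := by exact_mod_cast (by omega : 1 ≤ d)
  have h1 := (eC_le hd (by omega : 1 ≤ C)).1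
  have h2 : (d : ℝ) ^ 2 ≤ 2 ^ eC C d := (pow_le_pow_right₀ hd1 hC).trans h1
  have h3 : (d : ℝ) ^ 10 ≤ (wS (eC C d) : ℝ) := by
    unfold wS
    push_cast
    have h4 : ((d : ℝ) ^ 2) ^ 5 ≤ ((2 : ℝ) ^ eC C d) ^ 5 := pow_le_pow_left₀ (by positivity) h2 5
    rw [← pow_mul, ← pow_mul, mul_comm (eC C d) 5] at h4
    have h5 : (0 : ℝ) ≤ (2 : ℝ) ^ (5 * eC C d) := by positivity
    norm_num at h4
    linarith
  rw [pow_mul]
  exact pow_le_pow_left₀ (by positivity) h3 _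

private theorem E09_W2 {C Cb d : ℕ} (hC : 2 ≤ C) (hd : Cb + 2000 ≤ d) :
    1002 * (d : ℝ) ^ (Cb + 2) * 7 ^ d ≤ (wS (eC C d) : ℝ) ^ (d - 1) := by
  have hd1 : (1 : ℝ) ≤ d := by exact_mod_cast (by omega : 1 ≤ d)
  have hd7 : (7 : ℝ) ≤ d := by exact_mod_cast (by omega : 7 ≤ d)
  have hdb : (1002 : ℝ) ≤ d := by exact_mod_cast (by omega : 1002 ≤ d)
  refine le_trans ?_ (E09_W hC (by omega))
  have h1 : (7 : ℝ) ^ d ≤ (d : ℝ) ^ d := pow_le_pow_left₀ (by norm_num) hd7 _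
  have h2 : 1002 * (d : ℝ) ^ (Cb + 2) * 7 ^ d ≤ d * (d : ℝ) ^ (Cb + 2) * (d : ℝ) ^ d := by
    gcongr
  refine h2.trans ?_
  have h3 : (d : ℝ) * (d : ℝ) ^ (Cb + 2) * (d : ℝ) ^ d = (d : ℝ) ^ (Cb + 3 + d) := by ring
  rw [h3]
  exact pow_le_pow_right₀ hd1 (by omega)

private theorem E09_num {Cb d : ℕ} (hd : 2 ≤ d) {W : ℝ} (hW : 4 * (d : ℝ) ^ (Cb + 1) ≤ W) :
    2 * (d : ℝ) * Real.exp (-(W / (d : ℝ) ^ Cb)) ≤ Real.exp (-(W / (d : ℝ) ^ (Cb + 1))) := by
  have hd0 : (0 : ℝ) < d := by exact_mod_cast (by omega : 0 < d)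
  have hd2 : (2 : ℝ) ≤ d := by exact_mod_cast hd
  have hp : (0 : ℝ) < (d : ℝ) ^ Cb := by positivity
  have hW0 : 0 ≤ W := le_trans (by positivity) hW
  have h1 : 2 * (d : ℝ) ≤ W / (d : ℝ) ^ Cb - W / (d : ℝ) ^ (Cb + 1) := by
    have e1 : W / (d : ℝ) ^ Cb - W / (d : ℝ) ^ (Cb + 1) = W * (d - 1) / (d : ℝ) ^ (Cb + 1) := by
      have hne : (d : ℝ) ≠ 0 := hd0.ne'
      rw [pow_succ]
      field_simp
    rw [e1, le_div_iff₀ (by positivity)]
    have h2 : W ≤ W * (d - 1) := le_mul_of_one_le_right hW0 (by linarith)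
    have h3 : W * 1 ≤ W * (d - 1) := by linarith
    have h4 : W * (d / 2) ≤ W * (d - 1) := mul_le_mul_of_nonneg_left (by linarith) hW0
    have h5 : 4 * (d : ℝ) ^ (Cb + 1) * (d / 2) ≤ W * (d / 2) := mul_le_mul_of_nonneg_right hW (by linarith)
    calc 2 * (d : ℝ) * (d : ℝ) ^ (Cb + 1) = 4 * (d : ℝ) ^ (Cb + 1) * (d / 2) := by ring
      _ ≤ _ := h5.trans h4
  have h2 : 2 * (d : ℝ) ≤ Real.exp (W / (d : ℝ) ^ Cb - W / (d : ℝ) ^ (Cb + 1)) :=
    h1.trans ((le_add_of_nonneg_right zero_le_one).trans (Real.add_one_le_exp _))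
  calc 2 * (d : ℝ) * Real.exp (-(W / (d : ℝ) ^ Cb)) ≤
      Real.exp (W / (d : ℝ) ^ Cb - W / (d : ℝ) ^ (Cb + 1)) * Real.exp (-(W / (d : ℝ) ^ Cb)) :=
        mul_le_mul_of_nonneg_right h2 (Real.exp_pos _).le
    _ = _ := by
      rw [← Real.exp_add]
      congr 1
      ring

private theorem E09_small {Cb d : ℕ} (hd : 1 ≤ d) {W : ℝ} (hW : 1002 * (d : ℝ) ^ (Cb + 2) * 7 ^ d ≤ W) :
    4 ^ d * Real.exp (-(W / ((d : ℝ) ^ (Cb + 1) * 7 ^ d))) ≤ 1 / (1000 * (d : ℝ)) := by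
  have hd0 : (0 : ℝ) < d := by exact_mod_cast hd
  set X : ℝ := W / ((d : ℝ) ^ (Cb + 1) * 7 ^ d) with hX
  have h1 : 1002 * (d : ℝ) ≤ X := by
    rw [hX, le_div_iff₀ (by positivity)]
    calc 1002 * (d : ℝ) * ((d : ℝ) ^ (Cb + 1) * 7 ^ d) = 1002 * (d : ℝ) ^ (Cb + 2) * 7 ^ d := by ring
      _ ≤ W := hW
  have h2 : (4 : ℝ) ^ d ≤ Real.exp (2 * d) := by
    have h3 : (4 : ℝ) ≤ Real.exp 2 := by
      have h4 : (2 : ℝ) ≤ Real.exp 1 := by
        have := Real.add_one_le_exp (1 : ℝ)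
        linarith
      have h5 : Real.exp 2 = Real.exp 1 * Real.exp 1 := by
        rw [← Real.exp_add]; norm_num
      rw [h5]
      nlinarith
    calc (4 : ℝ) ^ d ≤ Real.exp 2 ^ d := pow_le_pow_left₀ (by norm_num) h3 _
      _ = Real.exp (2 * d) := by
        rw [← Real.exp_nat_mul]; congr 1; ring
  have h3 : 1000 * (d : ℝ) ≤ Real.exp (1000 * d) :=
    (le_add_of_nonneg_right zero_le_one).trans (Real.add_one_le_exp _)
  have h4 : 4 ^ d * (1000 * (d : ℝ)) ≤ Real.exp X := by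
    calc 4 ^ d * (1000 * (d : ℝ)) ≤ Real.exp (2 * d) * Real.exp (1000 * d) :=
          mul_le_mul h2 h3 (by positivity) (Real.exp_pos _).le
      _ = Real.exp (1002 * d) := by
        rw [← Real.exp_add]; congr 1; ring
      _ ≤ Real.exp X := Real.exp_le_exp.2 h1
  rw [Real.exp_neg, ← div_eq_mul_inv, div_le_div_iff₀ (Real.exp_pos _) (by positivity), one_mul]
  exact h4

theorem badd_rare : ∃ C d₀ : ℕ, 2 ≤ C ∧ ∀ d q : ℕ, d₀ ≤ d → Rg d q → ∀ K : ℕ, ∃ ρ : ℝ, 0 ≤ ρ ∧ 4 ^ d * ρ ≤ 1 / (1000 * (d : ℝ)) ∧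
    ∀ Γ : Finset (Blk d K),
    cG (bG d (NS (eC C d) K)) (fun f : BxV d (NS (eC C d) K) → Fin q => ∀ t ∈ Γ, BADd (eC C d) t f) ≤
      cG (bG d (NS (eC C d) K)) (fun _ : BxV d (NS (eC C d) K) → Fin q => True) * ρ ^ Γ.card := by
  obtain ⟨Cb, C, d₀, hC, H⟩ := far_dominoes
  refine ⟨C, max d₀ (Cb + 2000), hC, fun d q hd hR K => ?_⟩
  have hd' : Cb + 2000 ≤ d := (le_max_right _ _).trans hd
  have hd0 : (0 : ℝ) < d := by exact_mod_cast (by omega : 0 < d)
  have hd1 : (1 : ℝ) ≤ d := by exact_mod_cast (by omega : 1 ≤ d)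
  have he : 1 ≤ eC C d := by
    by_contra h
    have h0 : eC C d = 0 := by omega
    have h1 := (eC_le (by omega : 2 ≤ d) (by omega : 1 ≤ C)).1
    rw [h0, pow_zero] at h1
    have h2 : (d : ℝ) ^ 1 ≤ (d : ℝ) ^ C := pow_le_pow_right₀ hd1 (by omega)
    rw [pow_one] at h2
    have h3 : (2 : ℝ) ≤ d := by exact_mod_cast (by omega : 2 ≤ d)
    linarith
  set W : ℝ := (wS (eC C d) : ℝ) ^ (d - 1) with hWdef
  have hW2 : 1002 * (d : ℝ) ^ (Cb + 2) * 7 ^ d ≤ W := E09_W2 hC hd'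
  have hW0 : 0 ≤ W := by positivity
  have hW1 : 4 * (d : ℝ) ^ (Cb + 1) ≤ W := by
    refine le_trans ?_ hW2
    have h7 : (1 : ℝ) ≤ 7 ^ d := one_le_pow₀ (by norm_num)
    have h6 : (0 : ℝ) ≤ (d : ℝ) ^ (Cb + 1) := by positivity
    have h5 : (d : ℝ) ^ (Cb + 1) ≤ (d : ℝ) ^ (Cb + 2) := pow_le_pow_right₀ hd1 (by omega)
    have h4 : (d : ℝ) ^ (Cb + 2) * 1 ≤ (d : ℝ) ^ (Cb + 2) * 7 ^ d := mul_le_mul_of_nonneg_left h7 (by positivity)
    calc 4 * (d : ℝ) ^ (Cb + 1) ≤ 1002 * (d : ℝ) ^ (Cb + 2) := by linarith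
      _ ≤ 1002 * ((d : ℝ) ^ (Cb + 2) * 7 ^ d) := by linarith
      _ = _ := by ring
  refine ⟨Real.exp (-(W / ((d : ℝ) ^ (Cb + 1) * 7 ^ d))), (Real.exp_pos _).le,
    E09_small (by omega) hW2, fun Γ => ?_⟩
  obtain ⟨Γ', hsub, hfar, hcard⟩ := farD_sep Γ
  set Z : ℝ := cG (bG d (NS (eC C d) K)) (fun _ : BxV d (NS (eC C d) K) → Fin q => True) with hZdef
  have hZ : 0 ≤ Z := by rw [hZdef]; unfold cG; positivity
  set E : ℝ := Z * Real.exp (-(Γ'.card * (W / (d : ℝ) ^ Cb))) with hE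
  have hE0 : 0 ≤ E := mul_nonneg hZ (Real.exp_pos _).le
  have h1 : cG (bG d (NS (eC C d) K)) (fun f : BxV d (NS (eC C d) K) → Fin q => ∀ t ∈ Γ, BADd (eC C d) t f) ≤
      Fintype.card ({t // t ∈ Γ'} → Fin d × Bool) * E := by
    refine E09_union _ _ (fun (c : {t // t ∈ Γ'} → Fin d × Bool) f =>
      ∀ t : {t // t ∈ Γ'}, (E09_u t.1 (c t) (c t).1).val + 1 < 2 ^ K ∧
        ¬ WPU (LS (eC C d) (some (c t).1)) (hS (eC C d)) (fD (eC C d) (E09_u t.1 (c t)) (some (c t).1) f)) ?_ E ?_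
    · intro f hf
      choose c hc using fun t : {t // t ∈ Γ'} => E09_bad (hf t.1 (hsub t.2))
      exact ⟨c, hc⟩
    · intro c
      by_cases hv : ∀ t : {t // t ∈ Γ'}, (E09_u t.1 (c t) (c t).1).val + 1 < 2 ^ K
      · have h2 := H d q ((le_max_left _ _).trans hd) hR K {t // t ∈ Γ'} Finset.univ
          (fun t => E09_u t.1 (c t)) (fun t => (c t).1) (fun t _ => hv t)
          (fun l _ m _ hlm => far_pos he (hfar l.1 l.2 m.1 m.2 fun h => hlm (Subtype.ext h))
            (hv l) (hv m) (E09_u_or _ _) (E09_u_or _ _))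
        have h3 : (Finset.univ : Finset {t // t ∈ Γ'}).card = Γ'.card := by
          rw [Finset.card_univ, Fintype.card_coe]
        rw [h3] at h2
        refine le_trans ?_ h2
        apply le_of_eq
        congr 1
        funext f
        apply propext
        exact ⟨fun h t _ => (h t).2, fun h t => ⟨hv t, h t (mem_univ _)⟩⟩
      · have h2 : cG (bG d (NS (eC C d) K)) (fun f : BxV d (NS (eC C d) K) → Fin q =>
            ∀ t : {t // t ∈ Γ'}, (E09_u t.1 (c t) (c t).1).val + 1 < 2 ^ K ∧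
              ¬ WPU (LS (eC C d) (some (c t).1)) (hS (eC C d))
                (fD (eC C d) (E09_u t.1 (c t)) (some (c t).1) f)) = 0 := by
          exact E09_zero _ _ fun f h => hv fun t => (h t).1
        rw [h2]
        exact hE0
  have h4 : (Fintype.card ({t // t ∈ Γ'} → Fin d × Bool) : ℝ) = (2 * (d : ℝ)) ^ Γ'.card := by
    rw [Fintype.card_fun, Fintype.card_prod, Fintype.card_fin, Fintype.card_bool, Fintype.card_coe]
    push_cast
    rw [mul_comm (d : ℝ) 2]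
  rw [h4] at h1
  refine h1.trans ?_
  have h5 : (2 * (d : ℝ)) ^ Γ'.card * E = Z *
      (2 * (d : ℝ) * Real.exp (-(W / (d : ℝ) ^ Cb))) ^ Γ'.card := by
    rw [hE, mul_pow (2 * (d : ℝ)), ← Real.exp_nat_mul, mul_neg]
    ring
  rw [h5]
  refine mul_le_mul_of_nonneg_left ?_ hZ
  calc (2 * (d : ℝ) * Real.exp (-(W / (d : ℝ) ^ Cb))) ^ Γ'.card ≤
      Real.exp (-(W / (d : ℝ) ^ (Cb + 1))) ^ Γ'.card :=
        pow_le_pow_left₀ (by positivity) (E09_num (by omega) hW1) _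
    _ ≤ _ := by
      rw [← Real.exp_nat_mul, ← Real.exp_nat_mul]
      apply Real.exp_le_exp.2
      rw [mul_neg, mul_neg, neg_le_neg_iff]
      have hc : (Γ.card : ℝ) ≤ 7 ^ d * Γ'.card := by exact_mod_cast hcard
      have e1 : W / (d : ℝ) ^ (Cb + 1) = 7 ^ d * (W / ((d : ℝ) ^ (Cb + 1) * 7 ^ d)) := by
        field_simp
      rw [e1, ← mul_assoc, mul_comm (Γ'.card : ℝ)]
      exact mul_le_mul_of_nonneg_right hc (by positivity)

end Pool.Agent.LC

end

/-! ### from `Lib_MP_2c424f_lc7.E11` -/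

section

/-!
# LC7 E11: two large blocks have the same label

As `COR.two_blocks` (`Lib_MP_2c424f_cor/F08.lean`): `multi` with `S` = the finset of the proper colourings of `bG d (NS ..)`, `Bad f t = BADd`,
`lab f t = labD c t f`, `r = ρ` (`badd_rare`), for `(t, t')` and each colour, and for `(t', t)` and one colour: exceptional proportion
`≤ (q+1) · 4 · 4^d ρ ≤ (d+1) 4/(1000 d) ≤ 1/100` (`q ≤ d/500`).  Then `good_NGd`, `NGd_lab`.  `e = eC C d ≥ 2` as `d^C ≤ 2^e`.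
-/

set_option autoImplicit false

open Finset Filter

namespace Pool.Agent.LC

open Pool.Agent.LO Pool.Agent.LIN Pool.Agent.THR Pool.Agent.COR

private theorem E11_aux {d q K e : ℕ} (hd10 : 10 ≤ d) (hR : Rg d q) (hK : 1 ≤ K) (he : 2 ≤ e) {ρ : ℝ}
    (hr0 : 0 ≤ ρ) (hr : 4 ^ d * ρ ≤ 1 / (1000 * (d : ℝ)))
    (hΓ : ∀ Γ : Finset (Blk d K),
      cG (bG d (NS e K)) (fun f : BxV d (NS e K) → Fin q => ∀ t ∈ Γ, BADd e t f) ≤
        cG (bG d (NS e K)) (fun _ : BxV d (NS e K) → Fin q => True) * ρ ^ Γ.card)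
    (t t' : Blk d K) :
    99 / 100 * cG (bG d (NS e K)) (fun _ : BxV d (NS e K) → Fin q => True) ≤
      cG (bG d (NS e K)) (fun f : BxV d (NS e K) → Fin q =>
        ∃ A : Finset (Fin q), A.card = q / 2 ∧ NGd e A t f ∧ NGd e A t' f) := by
  classical
  have hdR : (10 : ℝ) ≤ d := by exact_mod_cast hd10
  obtain ⟨-, hR1, hR2⟩ := hR
  have hq1 : 1 ≤ q := by omega
  have hqd : (q : ℝ) + 1 ≤ 2 * d := by
    have : q + 1 ≤ 2 * d := by omega
    exact_mod_cast this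
  have hrd : 4 ^ d * ρ ≤ 1 / 10000 := by
    refine hr.trans ?_
    exact one_div_le_one_div_of_le (by norm_num) (by linarith)
  set S : Finset (BxV d (NS e K) → Fin q) := univ.filter fun f => PrG (bG d (NS e K)) f with hS
  have hcV : ∀ P : (BxV d (NS e K) → Fin q) → Prop,
      cG (bG d (NS e K)) P = ((S.filter P).card : ℝ) := by
    intro P
    unfold cG
    rw [hS, Finset.filter_filter]
  have hZ : cG (bG d (NS e K)) (fun _ : BxV d (NS e K) → Fin q => True) = (S.card : ℝ) := by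
    have h0 := hcV fun _ => True
    rw [h0]
    congr 2
    ext f
    simp
  have H1 : ∀ Γ : Finset (Blk d K),
      ((S.filter fun f => ∀ t ∈ Γ, BADd e t f).card : ℝ) ≤ S.card * ρ ^ Γ.card := by
    intro Γ
    have h := hΓ Γ
    rw [hcV, hZ] at h
    convert h
  have HM : ∀ (c : Fin q) (u u' : Blk d K),
      ((S.filter fun f => BADd e u f ∨ ¬ (labD e c u f ↔ labD e c u' f)).card : ℝ) ≤
        S.card * (4 * (4 ^ d * ρ)) := by
    intro c u u'
    have h := multi S (by omega) (fun f u => BADd e u f) (fun f u => labD e c u f) ρ hr0 (by linarith)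
      (fun Γ => by convert H1 Γ)
      (fun f _ u j hj hb _ => good_adjd he j hj hb c) u u'
    convert h
  have c₀ : Fin q := ⟨0, by omega⟩
  set P : (BxV d (NS e K) → Fin q) → Prop := fun f =>
    ∃ A : Finset (Fin q), A.card = q / 2 ∧ NGd e A t f ∧ NGd e A t' f with hP
  have hsub : S ⊆ S.filter P ∪ ((univ.biUnion fun c : Fin q =>
      S.filter fun f => BADd e t f ∨ ¬ (labD e c t f ↔ labD e c t' f)) ∪
      S.filter fun f => BADd e t' f ∨ ¬ (labD e c₀ t' f ↔ labD e c₀ t f)) := by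
    intro f hf
    by_contra hno
    simp only [Finset.mem_union, Finset.mem_biUnion, Finset.mem_filter, Finset.mem_univ, true_and, not_or,
      not_exists, hf] at hno
    obtain ⟨hnP, h5, h6⟩ := hno
    have hb : ¬ BADd e t f := (h5 c₀).1
    have hb' : ¬ BADd e t' f := h6.1
    obtain ⟨A, hAc, hNA⟩ := good_NGd he (by omega) hK hb
    obtain ⟨A', hAc', hNA'⟩ := good_NGd he (by omega) hK hb'
    have hAA : A = A' := by
      ext c
      rw [← NGd_lab he hNA c, ← NGd_lab he hNA' c]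
      exact not_not.1 (h5 c).2
    rw [← hAA] at hNA'
    exact hnP ⟨A, hAc, hNA, hNA'⟩
  have hcard : (S.card : ℝ) ≤ ((S.filter P).card : ℝ) +
      ((∑ c : Fin q, ((S.filter fun f => BADd e t f ∨ ¬ (labD e c t f ↔ labD e c t' f)).card : ℝ)) +
        ((S.filter fun f => BADd e t' f ∨ ¬ (labD e c₀ t' f ↔ labD e c₀ t f)).card : ℝ)) := by
    have h7 := Finset.card_le_card hsub
    have h8 := h7.trans (Finset.card_union_le _ _)
    have h9 := Finset.card_union_le (univ.biUnion fun c : Fin q =>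
      S.filter fun f => BADd e t f ∨ ¬ (labD e c t f ↔ labD e c t' f))
      (S.filter fun f => BADd e t' f ∨ ¬ (labD e c₀ t' f ↔ labD e c₀ t f))
    have h10 : (univ.biUnion fun c : Fin q =>
      S.filter fun f => BADd e t f ∨ ¬ (labD e c t f ↔ labD e c t' f)).card ≤
        ∑ c : Fin q, (S.filter fun f => BADd e t f ∨ ¬ (labD e c t f ↔ labD e c t' f)).card :=
      Finset.card_biUnion_le
    have h11 : S.card ≤ (S.filter P).card +
      ((∑ c : Fin q, (S.filter fun f => BADd e t f ∨ ¬ (labD e c t f ↔ labD e c t' f)).card) +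
        (S.filter fun f => BADd e t' f ∨ ¬ (labD e c₀ t' f ↔ labD e c₀ t f)).card) := by
      omega
    exact_mod_cast h11
  have hsum : (∑ c : Fin q, ((S.filter fun f => BADd e t f ∨ ¬ (labD e c t f ↔ labD e c t' f)).card : ℝ)) ≤
      q * (S.card * (4 * (4 ^ d * ρ))) := by
    calc _ ≤ ∑ _c : Fin q, (S.card : ℝ) * (4 * (4 ^ d * ρ)) := Finset.sum_le_sum fun c _ => HM c t t'
      _ = _ := by rw [Finset.sum_const, Finset.card_univ, Fintype.card_fin, nsmul_eq_mul]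
  have hlast := HM c₀ t' t
  have hfin : ((q : ℝ) + 1) * (4 * (4 ^ d * ρ)) ≤ 1 / 100 := by
    have h12 : (0 : ℝ) ≤ 4 * (4 ^ d * ρ) := by positivity
    calc ((q : ℝ) + 1) * (4 * (4 ^ d * ρ)) ≤ (2 * d) * (4 * (4 ^ d * ρ)) :=
          mul_le_mul_of_nonneg_right hqd h12
      _ ≤ (2 * d) * (4 * (1 / (1000 * (d : ℝ)))) := by gcongr
      _ = 8 / 1000 := by
          have : (d : ℝ) ≠ 0 := by linarith
          field_simp
          norm_num
      _ ≤ 1 / 100 := by norm_num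
  have hS0 : (0 : ℝ) ≤ S.card := Nat.cast_nonneg _
  have h15 := hcard.trans (add_le_add_right (add_le_add hsum hlast) _)
  have h13 := mul_le_mul_of_nonneg_left hfin hS0
  have h14 : (S.card : ℝ) * (((q : ℝ) + 1) * (4 * (4 ^ d * ρ))) =
      q * (S.card * (4 * (4 ^ d * ρ))) + S.card * (4 * (4 ^ d * ρ)) := by ring
  have h16 : 99 / 100 * (S.card : ℝ) ≤ ((S.filter P).card : ℝ) := by linarith
  rw [hZ, hcV]
  convert h16

theorem two_large : ∃ C d₀ : ℕ, 2 ≤ C ∧ ∀ d q : ℕ, d₀ ≤ d → Rg d q → ∀ K : ℕ, 1 ≤ K → ∀ t t' : Blk d K,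
    99 / 100 * cG (bG d (NS (eC C d) K)) (fun _ : BxV d (NS (eC C d) K) → Fin q => True) ≤
      cG (bG d (NS (eC C d) K)) (fun f : BxV d (NS (eC C d) K) → Fin q =>
        ∃ A : Finset (Fin q), A.card = q / 2 ∧ NGd (eC C d) A t f ∧ NGd (eC C d) A t' f) := by
  obtain ⟨C, d₁, hC, h₁⟩ := badd_rare
  refine ⟨C, max 10 d₁, hC, fun d q hd hR K hK t t' => ?_⟩
  have hd10 : 10 ≤ d := le_trans (le_max_left _ _) hd
  have hd1 : d₁ ≤ d := le_trans (le_max_right _ _) hd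
  obtain ⟨ρ, hρ0, hρ, hΓ⟩ := h₁ d q hd1 hR K
  have he : 2 ≤ eC C d := by
    by_contra hcon
    have h1 : d ^ C ≤ 2 ^ eC C d := Nat.le_pow_clog one_lt_two _
    have h2 : 2 ^ eC C d ≤ 2 ^ 1 := Nat.pow_le_pow_right (by norm_num) (by omega)
    have h3 : d ^ 2 ≤ d ^ C := Nat.pow_le_pow_right (by omega) hC
    nlinarith
  exact E11_aux hd10 hR hK he hρ0 hρ hΓ t t'

end Pool.Agent.LC

end

/-! ### from `Lib_MP_2c424f_lc7.E13` -/

section

/-!
# LC7 E13: two correlated sites near the corners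

`t = 0`, `t' = fun _ => -1` (`val = 2^K - 1`).  Sum of `equal_cols` over the `f` of `two_large`: the mean over the pairs of triples of
`q cG (f x = f y)` is at least `1.7 · 0.99 cG True ≥ 1.5 cG True`; choose a pair with at least the mean (`TT` is nonempty for `d ≥ 1`).  Both sites are odd
(`aS`, `off = s` are even), `WK_same`: `WK = q cG (f x = f y) - cG True ≥ cG True / 2`.  `Par (bG d N) bev` is `bG_par` of
`Lib_MP_2c424f_lc6a/A4.lean`.
Coordinates: `x i ≤ 2 h + s + w`, `y i ≥ 2 h + 2 + s + w (2^K - 1)`, `h = s = hS e`.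
-/

set_option autoImplicit false

open Finset Filter

namespace Pool.Agent.LC

open Pool.Agent.LO Pool.Agent.LIN Pool.Agent.THR Pool.Agent.COR

/-- coordinates of the site of a triple -/
private theorem e13_val {d K : ℕ} {e : ℕ} (t : Blk d K)
    (p : (∀ i : Fin d, Fin (nbk false (LS e (none : Option (Fin d)) i))) × Bt d × Bt d) (i : Fin d) :
    ((xT e t p i).val = 3 * hS e + 2 + wS e * (t i).val + 2 * (p.1 i).val + b01 (p.2.1 i) + b01 (p.2.2 i)) ∧
      2 * (p.1 i).val + 4 ≤ wS e := by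
  have hL : LS e (none : Option (Fin d)) i = 2 ^ (5 * e) := by
    unfold LS rS
    simp
  have hτ : (p.1 i).val < 2 ^ (5 * e) - 1 := by
    have h : (p.1 i).val < nbk false (LS e (none : Option (Fin d)) i) := (p.1 i).isLt
    have hn : nbk false (LS e (none : Option (Fin d)) i) = 2 ^ (5 * e) - 1 := by
      rw [hL]
      unfold nbk
      simp
    omega
  have hw : wS e = 2 * 2 ^ (5 * e) := rfl
  have ha : b01 (p.2.1 i) ≤ 1 := by unfold b01; split_ifs <;> omega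
  have hb : b01 (p.2.2 i) ≤ 1 := by unfold b01; split_ifs <;> omega
  have ht : (t i).val + 1 ≤ 2 ^ K := by
    have : NeZero (2 ^ K) := ⟨by positivity⟩
    exact ZMod.val_lt (t i)
  have h2 : wS e * ((t i).val + 1) ≤ wS e * 2 ^ K := Nat.mul_le_mul_left _ ht
  refine ⟨?_, by omega⟩
  have hlm : lm false (LS e (none : Option (Fin d)) i) (hS e) = 2 * (2 ^ (5 * e) - 1) + 2 * hS e := by
    unfold lm
    rw [hL]
    simp
  have h3 : (Wpt (fun _ : Fin d => false) (LS e none) (hS e) (fun i => (p.1 i).val) p.2.1 p.2.2 i).val =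
      hS e + 2 * (p.1 i).val + b01 (p.2.1 i) + b01 (p.2.2 i) := by
    unfold Wpt
    rw [Fin.val_ofNat]
    have h4 : off false (hS e) = hS e := by
      unfold off
      simp
    have h5 : (fun j : Fin d => (p.1 j).val) i = (p.1 i).val := rfl
    rw [h4, h5, hlm]
    apply Nat.mod_eq_of_lt
    omega
  unfold xT plc
  rw [Fin.val_ofNat, h3]
  unfold aS
  rw [Nat.mod_eq_of_lt]
  · ring
  · unfold NS
    rw [mul_add, mul_one] at h2
    omega

/-- the site of an odd triple is odd -/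
private theorem e13_odd {d K : ℕ} {e : ℕ} (he : 1 ≤ e) (t : Blk d K)
    (p : (∀ i : Fin d, Fin (nbk false (LS e (none : Option (Fin d)) i))) × Bt d × Bt d) (hp : od p.2.1 p.2.2) :
    ¬ bev (xT e t p) := by
  classical
  unfold bev
  rw [Nat.not_even_iff_odd]
  have h1 : ∀ i, (xT e t p i).val =
      2 * (3 * (hS e / 2) + 1 + 2 ^ (5 * e) * (t i).val + (p.1 i).val) + (b01 (p.2.1 i) + b01 (p.2.2 i)) := by
    intro i
    have hh : hS e = 2 * (hS e / 2) := by
      have h4 : 2 ∣ hS e := by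
        unfold hS
        exact dvd_pow (by norm_num) (by omega)
      omega
    rw [(e13_val t p i).1]
    unfold wS
    nth_rewrite 1 [hh]
    ring
  have h2 : ∑ i, (xT e t p i).val =
      2 * (∑ i, (3 * (hS e / 2) + 1 + 2 ^ (5 * e) * (t i).val + (p.1 i).val)) +
        ∑ i, (b01 (p.2.1 i) + b01 (p.2.2 i)) := by
    rw [Finset.mul_sum, ← Finset.sum_add_distrib]
    exact Finset.sum_congr rfl fun i _ => h1 i
  have h3 : ∀ i, b01 (p.2.1 i) + b01 (p.2.2 i) =
      2 * (if p.2.1 i = true ∧ p.2.2 i = true then 1 else 0) + (if p.2.1 i ≠ p.2.2 i then 1 else 0) := by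
    intro i
    unfold b01
    cases p.2.1 i <;> cases p.2.2 i <;> simp
  have h4 : ∑ i, (b01 (p.2.1 i) + b01 (p.2.2 i)) =
      2 * (∑ i, (if p.2.1 i = true ∧ p.2.2 i = true then 1 else 0)) +
        (univ.filter fun i => p.2.1 i ≠ p.2.2 i).card := by
    rw [Finset.card_filter, Finset.mul_sum, ← Finset.sum_add_distrib]
    exact Finset.sum_congr rfl fun i _ => h3 i
  rw [h2, h4]
  unfold od at hp
  have h5 : Even (2 * (∑ i, (3 * (hS e / 2) + 1 + 2 ^ (5 * e) * (t i).val + (p.1 i).val))) := even_two_mul _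
  have h6 : Even (2 * (∑ i, (if p.2.1 i = true ∧ p.2.2 i = true then 1 else 0))) := even_two_mul _
  exact h5.add_odd (h6.add_odd hp)

/-- there are odd triples -/
private theorem e13_ne {d e : ℕ} (hd : 1 ≤ d) (he : 1 ≤ e) : (TT d e).Nonempty := by
  classical
  have h1 : ∀ i : Fin d, 0 < nbk false (LS e (none : Option (Fin d)) i) := by
    intro i
    have hL : LS e (none : Option (Fin d)) i = 2 ^ (5 * e) := by
      unfold LS rS
      simp
    unfold nbk
    rw [hL]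
    have h2 : 2 ^ 1 ≤ 2 ^ (5 * e) := Nat.pow_le_pow_right (by norm_num) (by omega)
    simp only [Bool.false_eq_true, if_false]
    omega
  refine ⟨(fun i => ⟨0, h1 i⟩, fun _ => false, fun i => decide (i = ⟨0, hd⟩)), ?_⟩
  unfold TT
  rw [mem_filter]
  refine ⟨mem_univ _, ?_⟩
  unfold od
  have h2 : (univ.filter fun i : Fin d => (false : Bool) ≠ decide (i = ⟨0, hd⟩)) = {⟨0, hd⟩} := by
    ext i
    simp
  rw [h2]
  simp

open scoped Classical in
/-- averaging over the pairs -/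
private theorem e13_mean {W P : Type} [Fintype W] [DecidableEq W] {q : ℕ} (G : SimpleGraph W) (T : Finset P)
    (hT : T.Nonempty) (x y : P → W) (good : (W → Fin q) → Prop)
    (h1 : 99 / 100 * cG G (fun _ : W → Fin q => True) ≤ cG G good)
    (h2 : ∀ f, good f → (17 : ℝ) / 10 * (T.card : ℝ) ^ 2 ≤ q * (((T ×ˢ T).filter fun p => f (x p.1) = f (y p.2)).card : ℝ)) :
    ∃ p ∈ T ×ˢ T, 3 / 2 * cG G (fun _ : W → Fin q => True) ≤ q * cG G (fun f : W → Fin q => f (x p.1) = f (y p.2)) := by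
  by_contra hcon
  push Not at hcon
  have hZ0 : 0 ≤ cG G (fun _ : W → Fin q => True) := by
    unfold cG
    positivity
  have hTc : (0 : ℝ) < T.card := by
    exact_mod_cast Finset.card_pos.2 hT
  have hTT : (T ×ˢ T).Nonempty := hT.product hT
  have h3 : ∑ p ∈ T ×ˢ T, q * cG G (fun f : W → Fin q => f (x p.1) = f (y p.2)) <
      ∑ _p ∈ T ×ˢ T, 3 / 2 * cG G (fun _ : W → Fin q => True) :=
    Finset.sum_lt_sum_of_nonempty hTT hcon
  rw [Finset.sum_const, Finset.card_product, nsmul_eq_mul, Nat.cast_mul] at h3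
  have h4 : ∀ p ∈ T ×ˢ T, cG G (fun f : W → Fin q => f (x p.1) = f (y p.2)) =
      ∑ f ∈ univ.filter (fun f : W → Fin q => PrG G f), if f (x p.1) = f (y p.2) then (1 : ℝ) else 0 := by
    intro p _
    unfold cG
    rw [← Finset.natCast_card_filter, Finset.filter_filter]
    refine congrArg (fun S : Finset (W → Fin q) => (S.card : ℝ)) ?_
    ext f
    simp only [mem_filter, mem_univ, true_and]
  have h5 : ∑ p ∈ T ×ˢ T, q * cG G (fun f : W → Fin q => f (x p.1) = f (y p.2)) =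
      ∑ f ∈ univ.filter (fun f : W → Fin q => PrG G f),
        q * (((T ×ˢ T).filter fun p => f (x p.1) = f (y p.2)).card : ℝ) := by
    rw [← Finset.mul_sum, Finset.sum_congr rfl h4, Finset.sum_comm, Finset.mul_sum]
    refine Finset.sum_congr rfl fun f _ => ?_
    rw [Finset.natCast_card_filter]
  have h6 : (17 : ℝ) / 10 * (T.card : ℝ) ^ 2 * cG G good ≤
      ∑ f ∈ univ.filter (fun f : W → Fin q => PrG G f),
        q * (((T ×ˢ T).filter fun p => f (x p.1) = f (y p.2)).card : ℝ) := by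
    have h7 : (17 : ℝ) / 10 * (T.card : ℝ) ^ 2 * cG G good =
        ∑ f ∈ (univ.filter (fun f : W → Fin q => PrG G f)).filter good, (17 : ℝ) / 10 * (T.card : ℝ) ^ 2 := by
      rw [Finset.sum_const, nsmul_eq_mul, Finset.filter_filter]
      unfold cG
      ring
    rw [h7]
    refine (Finset.sum_le_sum fun f hf => h2 f (mem_filter.1 hf).2).trans ?_
    refine Finset.sum_le_sum_of_subset_of_nonneg (Finset.filter_subset _ _) fun f _ _ => ?_
    positivity
  rw [h5] at h3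
  have h8 : (0 : ℝ) < (T.card : ℝ) ^ 2 := by positivity
  have h9 : (17 : ℝ) / 10 * (T.card : ℝ) ^ 2 * (99 / 100 * cG G (fun _ : W → Fin q => True)) ≤
      (17 : ℝ) / 10 * (T.card : ℝ) ^ 2 * cG G good :=
    mul_le_mul_of_nonneg_left h1 (by positivity)
  have h10 : (T.card : ℝ) ^ 2 * (3 / 2 * cG G (fun _ : W → Fin q => True)) ≤
      (17 : ℝ) / 10 * (T.card : ℝ) ^ 2 * (99 / 100 * cG G (fun _ : W → Fin q => True)) := by
    nlinarith [mul_nonneg h8.le hZ0]
  have h11 : (T.card : ℝ) * (T.card : ℝ) * (3 / 2 * cG G (fun _ : W → Fin q => True)) =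
      (T.card : ℝ) ^ 2 * (3 / 2 * cG G (fun _ : W → Fin q => True)) := by ring
  linarith

theorem corr_large : ∃ C d₀ : ℕ, 2 ≤ C ∧ ∀ d q : ℕ, d₀ ≤ d → Rg d q → ∀ K : ℕ, 1 ≤ K →
    ∃ x y : BxV d (NS (eC C d) K), (∀ i, (x i).val ≤ 3 * hS (eC C d) + wS (eC C d)) ∧
      (∀ i, NS (eC C d) K ≤ (y i).val + 3 * hS (eC C d) + wS (eC C d)) ∧
      cG (bG d (NS (eC C d) K)) (fun _ : BxV d (NS (eC C d) K) → Fin q => True) / 2 ≤ WK q (bG d (NS (eC C d) K)) x y := by
  classical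
  obtain ⟨C, d₀, hC, H⟩ := two_large
  refine ⟨C, max d₀ 2, hC, fun d q hd hR K hK => ?_⟩
  have hd0 : d₀ ≤ d := le_trans (le_max_left _ _) hd
  have hd2 : 2 ≤ d := le_trans (le_max_right _ _) hd
  have he : 2 ≤ eC C d := by
    have h1 : 2 ^ 2 ≤ d ^ C := (Nat.pow_le_pow_left hd2 2).trans (Nat.pow_le_pow_right (by omega) hC)
    have h2 : Nat.clog 2 (2 ^ 2) ≤ Nat.clog 2 (d ^ C) := Nat.clog_mono_right 2 h1
    rwa [Nat.clog_pow 2 2 (by norm_num)] at h2
  have h1 := H d q hd0 hR K hK (fun _ => 0) (fun _ => -1)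
  generalize eC C d = e at he h1 ⊢
  have h2 : ∀ f : BxV d (NS e K) → Fin q,
      (∃ A : Finset (Fin q), A.card = q / 2 ∧ NGd e A (fun _ => 0 : Blk d K) f ∧ NGd e A (fun _ => -1 : Blk d K) f) →
      (17 : ℝ) / 10 * ((TT d e).card : ℝ) ^ 2 ≤
        q * (((TT d e ×ˢ TT d e).filter fun p => f (xT e (fun _ => 0 : Blk d K) p.1) =
          f (xT e (fun _ => -1 : Blk d K) p.2)).card : ℝ) := by
    rintro f ⟨A, hA, hn, hn'⟩
    exact equal_cols he hR (by omega) (fun _ => 0 : Blk d K) (fun _ => -1 : Blk d K) f A hA hn hn'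
  obtain ⟨p, hp, hp2⟩ := e13_mean (bG d (NS e K)) (TT d e) (e13_ne (by omega) (by omega))
    (xT e (fun _ => 0 : Blk d K)) (xT e (fun _ => -1 : Blk d K)) _ h1 h2
  rw [mem_product] at hp
  have hp1 : od p.1.2.1 p.1.2.2 := by
    have h4 := hp.1
    unfold TT at h4
    exact (mem_filter.1 h4).2
  have hp1' : od p.2.2.1 p.2.2.2 := by
    have h4 := hp.2
    unfold TT at h4
    exact (mem_filter.1 h4).2
  refine ⟨xT e (fun _ => 0 : Blk d K) p.1, xT e (fun _ => -1 : Blk d K) p.2, ?_, ?_, ?_⟩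
  · intro i
    have h4 := e13_val (fun _ => 0 : Blk d K) p.1 i
    have ha : b01 (p.1.2.1 i) ≤ 1 := by unfold b01; split_ifs <;> omega
    have hb : b01 (p.1.2.2 i) ≤ 1 := by unfold b01; split_ifs <;> omega
    have hz : (0 : ZMod (2 ^ K)).val = 0 := ZMod.val_zero
    rw [h4.1, hz, mul_zero]
    omega
  · intro i
    have h4 := e13_val (fun _ => -1 : Blk d K) p.2 i
    have hz : (-1 : ZMod (2 ^ K)).val + 1 = 2 ^ K := by
      have h5 : 2 ^ K = (2 ^ K - 1).succ := by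
        have : 0 < 2 ^ K := by positivity
        omega
      have h6 := ZMod.val_neg_one (2 ^ K - 1)
      rw [← h5] at h6
      omega
    have h7 : wS e * ((-1 : ZMod (2 ^ K)).val + 1) = wS e * 2 ^ K := by rw [hz]
    rw [mul_add, mul_one] at h7
    rw [h4.1]
    unfold NS
    omega
  · rw [WK_same (bG_par d (NS e K))
      (iff_of_false (e13_odd (by omega) _ p.1 hp1) (e13_odd (by omega) _ p.2 hp1'))]
    linarith

end Pool.Agent.LC

end

/-! ### from `Lib_MP_2c424f_lc7.E15` -/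

section

/-!
# LC7 E15: long-range order

* `Dq_bG`: `BG d n` and `bG d n` have the same edges (`bd x y = 1` iff one coordinate changes by `1`); `cnt` is the cardinality of the finset; the corners have the
  same parity? (`WK_same` needs `bev 0 ↔ bev (N, …, N)`: `d N` is even since `NS` is even).  `Dq = (q cG (f c0 = f c1) - cG True)/(q cG True)`, `WK_same`.
* `lro_pos`: `corr_large`, `harn` with `M = 3 h + w` (`NS - 2 M > 0`: `x i ≤ M < NS - M ≤ y j` holds for `K ≥ 1`: `w 2^K + 6 h + 2 > 6 h + 2 w`),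
  `cG True > 0`: `Dq ≥ 1/(2 q (1 + q 4^d)^(2 d M))`, independent of `K`.
* `lro`: `NS e K → ∞`, so `Dq` does not tend to `0`.
* `qc_lin`: `q = 2 ⌊d/1000⌋` satisfies `Rg d q` for `d ≥ 2000`; `{q ≥ 2 : LRO q d}` is bounded by `main_qc` (`ε = 1`); `q ≥ d/1000`.
-/

set_option autoImplicit false

open Finset Filter

namespace Pool.Agent.LC

open Pool.Agent.LO Pool.Agent.LIN Pool.Agent.THR Pool.Agent.COR

private theorem E15_adj {d n : ℕ} (x y : QC.Bx d n) : (QC.BG d n).Adj x y ↔ (bG d n).Adj x y := by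
  show QC.bd x y = 1 ↔ ∃ i, (∀ j, j ≠ i → x j = y j) ∧ ((x i).val + 1 = (y i).val ∨ (y i).val + 1 = (x i).val)
  unfold QC.bd
  constructor
  · intro h
    have hne : ∃ i, ((x i : ℤ) - (y i : ℤ)).natAbs ≠ 0 := by
      by_contra hc
      push Not at hc
      rw [sum_eq_zero fun i _ => hc i] at h
      omega
    obtain ⟨i, hi⟩ := hne
    have h1 := add_sum_erase univ (fun i => ((x i : ℤ) - (y i : ℤ)).natAbs) (mem_univ i)
    have h2 : ∑ j ∈ univ.erase i, ((x j : ℤ) - (y j : ℤ)).natAbs = 0 := by omega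
    refine ⟨i, fun j hj => ?_, by omega⟩
    have h3 := (sum_eq_zero_iff.1 h2) j (mem_erase.2 ⟨hj, mem_univ j⟩)
    apply Fin.ext
    omega
  · rintro ⟨i, h1, h2⟩
    rw [sum_eq_single i]
    · omega
    · intro j _ hj
      rw [h1 j hj]
      simp
    · intro h
      exact absurd (mem_univ i) h

private theorem E15_proper {d n q : ℕ} (f : BxV d n → Fin q) : QC.Proper (QC.BG d n) f ↔ PrG (bG d n) f := by
  unfold QC.Proper PrG
  constructor
  · exact fun h x y hxy => h x y ((E15_adj x y).2 hxy)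
  · exact fun h x y hxy => h x y ((E15_adj x y).1 hxy)

open scoped Classical in
private theorem E15_cnt {d n q : ℕ} (P : (BxV d n → Fin q) → Prop) (R : (BxV d n → Fin q) → Prop)
    (h : ∀ f, R f ↔ (PrG (bG d n) f ∧ P f)) : (QC.cnt R : ℝ) = cG (bG d n) P := by
  unfold QC.cnt cG
  congr 1
  have e : {a | R a} = ((univ.filter fun f : BxV d n → Fin q => PrG (bG d n) f ∧ P f : Finset (BxV d n → Fin q)) :
      Set (BxV d n → Fin q)) := by
    ext f
    simp only [Set.mem_ofPred_eq, mem_coe, mem_filter, mem_univ, true_and]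
    exact h f
  rw [e, Set.ncard_coe_finset]

theorem Dq_bG {d n q : ℕ} (hq : 2 ≤ q) (hn : Even n) :
    QC.Dq q d n = WK q (bG d n) (fun _ => 0) (fun _ => Fin.last n) /
      (q * cG (bG d n) (fun _ : BxV d n → Fin q => True)) := by
  have hp : (bev (fun _ => 0 : BxV d n) ↔ bev (fun _ => Fin.last n : BxV d n)) := by
    unfold bev
    have e1 : ∑ i : Fin d, ((fun _ => 0 : BxV d n) i).val = 0 := by simp
    have e2 : ∑ i : Fin d, ((fun _ => Fin.last n : BxV d n) i).val = d * n := by simp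
    rw [e1, e2]
    exact ⟨fun _ => hn.mul_left d, fun _ => ⟨0, rfl⟩⟩
  have h1 := WK_same (q := q) (bG_par' d n) hp
  have hpos : 0 < cG (bG d n) (fun _ : BxV d n → Fin q => True) := A12_pos hq
  have hq0 : (q : ℝ) ≠ 0 := by
    have : q ≠ 0 := by omega
    exact_mod_cast this
  have e1 : (QC.cnt (fun f : QC.Bx d n → Fin q => QC.Proper (QC.BG d n) f ∧ f (QC.c0 d n) = f (QC.c1 d n)) : ℝ) =
      cG (bG d n) (fun f : BxV d n → Fin q => f (fun _ => 0) = f (fun _ => Fin.last n)) :=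
    E15_cnt _ _ fun f => and_congr (E15_proper f) Iff.rfl
  have e2 : (QC.cnt (fun f : QC.Bx d n → Fin q => QC.Proper (QC.BG d n) f) : ℝ) =
      cG (bG d n) (fun _ : BxV d n → Fin q => True) :=
    E15_cnt _ _ fun f => by rw [E15_proper f, and_true]
  unfold QC.Dq
  rw [e1, e2, h1]
  field_simp

private theorem E15_NS_even (e K : ℕ) : Even (NS e K) := by
  unfold NS wS
  exact ⟨2 ^ (5 * e) * 2 ^ K + 3 * hS e + 1, by ring⟩

private theorem E15_Rg {d q : ℕ} (hd : 1 ≤ d) (h : Rg d q) : 2 ≤ q := by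
  obtain ⟨⟨r, hr⟩, _, h3⟩ := h
  omega

theorem lro_pos : ∃ C d₀ : ℕ, ∀ d q : ℕ, d₀ ≤ d → Rg d q →
    ∃ c : ℝ, 0 < c ∧ ∀ K : ℕ, 1 ≤ K → c ≤ QC.Dq q d (NS (eC C d) K) := by
  obtain ⟨C, d₀, _, H⟩ := corr_large
  refine ⟨C, max d₀ 1, fun d q hd hR => ?_⟩
  have hd0 : d₀ ≤ d := (le_max_left _ _).trans hd
  have hd1 : 1 ≤ d := (le_max_right _ _).trans hd
  have hq := E15_Rg hd1 hR
  have hq0 : (0 : ℝ) < q := by
    have : 0 < q := by omega
    exact_mod_cast this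
  have H' := H d q hd0 hR
  generalize eC C d = e at H' ⊢
  set M := 3 * hS e + wS e with hM
  set B : ℝ := (1 + (q : ℝ) * 4 ^ d) ^ (2 * (d * M)) with hB
  have hBpos : 0 < B := by positivity
  refine ⟨1 / (2 * B * q), by positivity, fun K hK => ?_⟩
  obtain ⟨x, y, hx, hy, hxy⟩ := H' K hK
  have hw : 2 * wS e ≤ wS e * 2 ^ K := by
    rw [mul_comm]
    refine Nat.mul_le_mul_left _ ?_
    calc 2 = 2 ^ 1 := rfl
      _ ≤ 2 ^ K := Nat.pow_le_pow_right (by norm_num) hK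
  have hNS : NS e K = wS e * 2 ^ K + 6 * hS e + 2 := rfl
  have h1 := harn (q := q) hd1 x y (M := M) (fun i => hx i) (fun i => by
    have := hy i
    omega) (fun i j => by
    have h1 := hx i
    have h2 := hy j
    omega)
  have hpos : 0 < cG (bG d (NS e K)) (fun _ : BxV d (NS e K) → Fin q => True) := A12_pos hq
  rw [Dq_bG hq (E15_NS_even e K), div_le_div_iff₀ (by positivity) (by positivity)]
  have h2 : cG (bG d (NS e K)) (fun _ : BxV d (NS e K) → Fin q => True) / 2 ≤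
      B * WK q (bG d (NS e K)) (fun _ => 0) (fun _ => Fin.last (NS e K)) := hxy.trans h1
  nlinarith

theorem lro : ∃ d₀ : ℕ, ∀ d q : ℕ, d₀ ≤ d → Rg d q → QC.LRO q d := by
  obtain ⟨C, d₀, H⟩ := lro_pos
  refine ⟨d₀, fun d q hd hR => ?_⟩
  obtain ⟨c, hc, hK⟩ := H d q hd hR
  intro ht
  have h1 : Tendsto (fun K : ℕ => NS (eC C d) K) atTop atTop := by
    refine tendsto_atTop_mono (fun K => ?_) tendsto_id
    show K ≤ NS (eC C d) K
    unfold NS
    have h2 : K ≤ 2 ^ K := Nat.lt_two_pow_self.le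
    have h3 : 1 ≤ wS (eC C d) := by
      unfold wS
      have : 0 < 2 ^ (5 * eC C d) := by positivity
      omega
    have h4 : 2 ^ K ≤ wS (eC C d) * 2 ^ K := Nat.le_mul_of_pos_left _ h3
    omega
  have h5 : Tendsto (fun K : ℕ => QC.Dq q d (NS (eC C d) K)) atTop (nhds 0) := ht.comp h1
  have h6 : c ≤ 0 := ge_of_tendsto h5 (eventually_atTop.2 ⟨1, fun K hK1 => hK K hK1⟩)
  linarith

theorem qc_lin : ∃ d₀ : ℕ, ∀ d : ℕ, d₀ ≤ d → (d : ℝ) / 1000 ≤ (QC.qc d : ℝ) ∧ (QC.qc d : ℝ) ≤ 3 * d := by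
  obtain ⟨d₁, H1⟩ := lro
  obtain ⟨d₂, H2⟩ := QC.main_qc (ε := 1) one_pos
  refine ⟨max (max d₁ d₂) 2000, fun d hd => ?_⟩
  have hd1 : d₁ ≤ d := ((le_max_left _ _).trans (le_max_left _ _)).trans hd
  have hd2 : d₂ ≤ d := ((le_max_right _ _).trans (le_max_left _ _)).trans hd
  have hd3 : 2000 ≤ d := (le_max_right _ _).trans hd
  obtain ⟨h1, h2⟩ := H2 d hd2
  refine ⟨?_, ?_⟩
  · set r := d / 1000 with hr
    have hr1 : 1000 * r ≤ d := Nat.mul_div_le d 1000
    have hr2 : d < 1000 * (r + 1) := by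
      have := Nat.lt_mul_div_succ d (show 0 < 1000 by norm_num)
      omega
    have hr3 : 2 ≤ r := by omega
    have hR : Rg d (2 * r) := ⟨⟨r, by ring⟩, by omega, by omega⟩
    have hL := H1 d (2 * r) hd1 hR
    have hb : BddAbove {q : ℕ | 2 ≤ q ∧ QC.LRO q d} := by
      refine ⟨3 * d, ?_⟩
      rintro q ⟨-, hq⟩
      have h3 := h1 q hq
      have h4 : (q : ℝ) < ((3 * d : ℕ) : ℝ) := by
        push_cast
        linarith
      exact (Nat.cast_lt.1 h4).le
    have h5 : 2 * r ≤ QC.qc d := le_csSup hb ⟨by omega, hL⟩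
    have h6 : (d : ℝ) ≤ 1000 * (2 * r : ℕ) := by
      have : d ≤ 1000 * (2 * r) := by omega
      exact_mod_cast this
    have h7 : ((2 * r : ℕ) : ℝ) ≤ QC.qc d := by exact_mod_cast h5
    rw [div_le_iff₀ (by norm_num)]
    linarith
  · linarith

end Pool.Agent.LC

end
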